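import Pool.Agent.S5.I.NdC

/-!
# The orientation of the nodes and the parameters of the contours
-/

set_option autoImplicit false

namespace Pool.Agent.S5

open Complex

/-- The contours. -/
noncomputable def KO (m : ℕ) (a : ℕ → ℕ) (S : ℕ → Bool) (r : ℕ → ℤ) (z ql qr : ℕ → ℂ) : Cn m where
  d := 3 / 20
  dz _ := 3 / 20
  z1 i := z1O m a S i
  x1 i := x1O a i
  yc := ycG r z qr
  oc := fun i : Fin (m + 1) => ocG m r (flO m a S) z ql qr (i : ℕ)

theorem KO_ok (m : ℕ) (a : ℕ → ℕ) (S : ℕ → Bool) (r : ℕ → ℤ) (z ql qr : ℕ → ℂ) :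
    KOK m a S (KO m a S r z ql qr) := ⟨rfl, fun _ => rfl, fun _ => rfl⟩

/-- The bounds at the critical point for the contours. -/
structure CBd (m : ℕ) (a : ℕ → ℕ) (S : ℕ → Bool) (z ql qr : ℕ → ℂ) : Prop where
  y : ∀ i, i < m → |(G.sy (qr i) (z i)).im| ≤ 3 / 20
  z3 : ∀ i, i ≤ m → a i = 3 → |(G.zz3 (qB' (flO m a S) ql qr i) (qO' (flO m a S) ql qr i)
    (z i)).im| ≤ 3 / 20 ∧ |(G.zz3 (qB' (flO m a S) ql qr i) (qO' (flO m a S) ql qr i)
    (z i)).re| < z1O m a S i
  z4 : ∀ i, 0 < i → i < m → a i = 4 → |(G.zz4 (qB' (flO m a S) ql qr i)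
    (qO' (flO m a S) ql qr i) (z i)).im| ≤ 3 / 20 ∧ |(G.zz4 (qB' (flO m a S) ql qr i)
      (qO' (flO m a S) ql qr i) (z i)).re| < z1O m a S i
  v : ∀ i, i ≤ m → (5 ≤ a i ∨ (a i = 4 ∧ (i = 0 ∨ i = m))) → (z i).re < x1O a i * Real.pi

/-- The data of the critical point, from the solution of block E. -/
theorem HG_of {m : ℕ} {a : ℕ → ℕ} {S : ℕ → Bool} {r : ℕ → ℤ} {z ql qr : ℕ → ℂ}
    (h : G.CrtM m a S z ql qr) (hb : BxG m a S (flO m a S) z ql qr)
    (hr : ∀ i, i ≤ m → (r i).natAbs = a i) (hs : ∀ i, i < m → (S i = true ↔ 0 < r i * r (i + 1))) :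
    HG m a S (flO m a S) z ql qr r (KO m a S r z ql qr) := ⟨h, hb, hr, hs, rfl, rfl⟩

/-- The critical point is inside the contours. -/
theorem cnOK_of {m : ℕ} {a : ℕ → ℕ} {S : ℕ → Bool} {r : ℕ → ℤ} {z ql qr : ℕ → ℂ}
    (h : HG m a S (flO m a S) z ql qr r (KO m a S r z ql qr)) (hC : CBd m a S z ql qr) :
    Cn.OK (chG m r (flO m a S)) (KO m a S r z ql qr) := by
  have hpi := Real.pi_pos
  have him : ∀ (s : ℤ) (w : ℂ), |(sg s w).im| = |w.im| := by
    intro s w
    unfold sg
    split_ifs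
    · rfl
    · rw [conj_im, abs_neg]
  have hz1 := z1O_bd m a S
  have hx1 : ∀ i, 0 < x1O a i ∧ x1O a i < 1 / 2 := fun i => by
    unfold x1O
    split_ifs
    · constructor <;> norm_num
    · constructor <;> norm_num
  -- lattice variables
  have zn : ∀ i : Fin (m + 1), tyG m r i = Ty.zn →
      |(ocG m r (flO m a S) z ql qr i).im| ≤ 3 / 20 ∧
        |(ocG m r (flO m a S) z ql qr i).re| < z1O m a S i := by
    intro i hi
    have him' : (i : ℕ) ≤ m := by
      have := i.isLt
      omega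
    have hab := h.abs i him'
    unfold ocG
    rw [hi]
    simp only
    rw [him, sg_re]
    by_cases h3 : (r i).natAbs = 3
    · rw [if_pos h3]
      exact hC.z3 i him' (by omega)
    · rw [if_neg h3]
      have h4 : (r i).natAbs = 4 ∧ (i : ℕ) ≠ 0 ∧ (i : ℕ) ≠ m := by
        unfold tyG at hi
        split_ifs at hi with k1 k2
        rcases k2 with k2 | k2
        · exact absurd k2 h3
        · exact k2
      exact hC.z4 i (by omega) (by omega) (by omega)
  -- integration variables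
  have vn : ∀ i : Fin (m + 1), tyG m r i = Ty.vn →
      0 < (ocG m r (flO m a S) z ql qr i).im ∧
        |(ocG m r (flO m a S) z ql qr i).re| < x1O a i := by
    intro i hi
    have him' : (i : ℕ) ≤ m := by
      have := i.isLt
      omega
    have hab := h.abs i him'
    have ha := h.crt.ha i him'
    have hc : 5 ≤ a i ∨ (a i = 4 ∧ ((i : ℕ) = 0 ∨ (i : ℕ) = m)) := by
      unfold tyG at hi
      split_ifs at hi with k1 k2
      push Not at k2
      by_cases h5 : 5 ≤ a i
      · exact Or.inl h5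
      · right
        refine ⟨by omega, ?_⟩
        by_contra h6
        push Not at h6
        exact h6.2 (k2.2 (by omega) h6.1)
    have e : ocG m r (flO m a S) z ql qr i = vcG r z i := by
      unfold ocG
      rw [hi]
    have h1 := h.vc_im i him'
    have h2 : |(vcG r z i).re| = (z i).re / Real.pi := by
      have h3 : (z i / (Real.pi : ℂ)).re = (z i).re / Real.pi := by
        rw [show z i / (Real.pi : ℂ) = ((1 / Real.pi : ℝ) : ℂ) * z i by push_cast; ring,
          re_ofReal_mul]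
        ring
      have h4 : 0 < (z i).re / Real.pi := div_pos (h.crt.zre i him').1 hpi
      unfold vcG
      split_ifs
      · rw [h3, abs_of_pos h4]
      · rw [neg_re, conj_re, h3, abs_neg, abs_of_pos h4]
    rw [e]
    refine ⟨h1, ?_⟩
    rw [h2, div_lt_iff₀ hpi]
    exact hC.v i him' hc
  refine ⟨by show (0 : ℝ) < 3 / 20; norm_num, fun j => ?_, fun j => ?_, fun j => ?_,
    fun i => by show (0 : ℝ) < 3 / 20; norm_num, fun i hi => (zn i hi).1, fun i hi => (zn i hi).2,
    fun i => ?_, fun i _ => ?_, fun i hi => (vn i hi).1, fun i hi => (vn i hi).2,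
    fun i _ => (hx1 i).1, fun i _ => (hx1 i).2⟩
  · show |(sg (r j) (G.sy (qr j) (z j))).im| ≤ 3 / 20
    rw [him]
    exact hC.y j j.isLt
  · linarith [(h.yc_re j).1]
  · exact (h.yc_re j).2
  · have := (hz1 i).2
    show z1O m a S i < 1 / 2
    linarith
  · have := (hz1 i).1
    show 1 / 4 ≤ z1O m a S i
    linarith

end Pool.Agent.S5
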