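import Pool.Agent.S5.I.Asm0
import Pool.Agent.S5.G.NodeM

/-!
# The growth of the nodes: transport to the frame of the vertex
-/

set_option autoImplicit false

namespace Pool.Agent.S5

open Complex Pool.Agent.H63.VC3 Pool.Agent.S3 Pool.Agent.S5.G
open scoped ComplexConjugate

theorem qC_conj (s : ℤ) (a b : ℂ) : qC (-s) (conj a) (conj b) = conj (qC s a b) := by
  unfold qC
  simp only [map_sub, map_add, map_mul, map_pow, map_div₀, map_intCast, conj_ofReal, conj_I,
    map_one, map_ofNat]
  push_cast
  ring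

theorem qB_conj (s : ℤ) (y z : ℂ) : qB (-s) (conj y) (conj z) = conj (qB s y z) := by
  unfold qB
  simp only [map_sub, map_add, map_mul, map_pow, map_div₀, map_intCast, conj_ofReal, conj_I,
    map_ofNat]
  push_cast
  ring

theorem qH_conj (s : ℤ) (z b : ℂ) : qH (-s) (conj z) (conj b) = conj (qH s z b) := by
  unfold qH
  simp only [map_sub, map_add, map_neg, map_mul, map_div₀, map_intCast, conj_ofReal, conj_I,
    map_one, map_ofNat]
  push_cast
  ring

theorem Rf_cj (z : ℂ) : Rf (conj z) = Rf z := Rf_conj z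

theorem gC_conj (s : ℤ) (a b : ℂ) : gC (-s) (conj a) (conj b) = gC s a b := by
  unfold gC
  rw [qC_conj, conj_re, ← map_add, Rf_cj]

theorem gB_conj (s : ℤ) (y z : ℂ) : gB (-s) (conj y) (conj z) = gB s y z := by
  unfold gB
  rw [qB_conj, conj_re, ← map_sub, Rf_cj]

theorem gH_conj (s : ℤ) (z b : ℂ) : gH (-s) (conj z) (conj b) = gH s z b := by
  unfold gH
  rw [qH_conj, conj_re, ← map_add, Rf_cj, half_conj', half_conj', Rf_cj, Rf_cj]

theorem gV_conj (r : ℝ) (v a b : ℂ) : gV (-r) (-conj v) (conj a) (conj b) = gV r v a b := by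
  unfold gV
  rw [show conj a - -conj v = conj (a + v) by rw [map_add]; ring,
    show conj a + -conj v = conj (a - v) by rw [map_sub]; ring,
    show conj b - -conj v = conj (b + v) by rw [map_add]; ring,
    show conj b + -conj v = conj (b - v) by rw [map_sub]; ring, G.wr_conj, conj_re,
    Rf_cj, Rf_cj, Rf_cj, Rf_cj]
  ring

theorem gN_conj (c : ℤ) (ty : Ty) (fl : Bool) (o a b : ℂ) :
    gN (-c) ty fl (sO ty o) (conj a) (conj b) = gN c ty fl o a b := by
  cases ty
  · show gC (-c).sign (conj a) (conj b) = gC c.sign a b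
    rw [Int.sign_neg, gC_conj]
  · show (if |-c| = 3 then (if fl then gB (-c).sign (conj b) (conj o) +
        gH (-c).sign (conj o) (conj a) else gB (-c).sign (conj a) (conj o) +
          gH (-c).sign (conj o) (conj b)) else
      (if fl then gB (-c).sign (conj b) (conj o) + gC (-c).sign (conj o) (conj a) else
        gB (-c).sign (conj a) (conj o) + gC (-c).sign (conj o) (conj b))) =
      (if |c| = 3 then (if fl then gB c.sign b o + gH c.sign o a else
        gB c.sign a o + gH c.sign o b) else
      (if fl then gB c.sign b o + gC c.sign o a else gB c.sign a o + gC c.sign o b))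
    rw [Int.sign_neg, abs_neg, gB_conj, gB_conj, gH_conj, gH_conj, gC_conj, gC_conj]
  · show gV (((-c : ℤ) : ℝ) / 2) (-conj o) (conj a) (conj b) = gV ((c : ℝ) / 2) o a b
    rw [show ((-c : ℤ) : ℝ) / 2 = -((c : ℝ) / 2) by push_cast; ring, gV_conj]

theorem Vn_conj (c : ℤ) (ty : Ty) (fl : Bool) (o a b : ℂ) :
    Vn (-c) ty fl (sO ty o) (conj a) (conj b) = Vn c ty fl o a b := by
  unfold Vn
  rw [gN_conj, half_conj', half_conj', Rf_cj, Rf_cj]

end Pool.Agent.S5
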