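import Pool.Agent.S5.I.Tab

/-!
# The orientation of the nodes and the ends of the contours: definitions
-/

set_option autoImplicit false

namespace Pool.Agent.S5

/-- The type of a node. -/
def ntG (m : ℕ) (a : ℕ → ℕ) (i : ℕ) : Nt := ⟨min (a i) 6, decide (i = 0 ∨ i = m)⟩

/-- The order of the neighbours of a node with three half twists between two edges of different
signs. -/
def rkA (n : Nt) : ℕ := if n = ⟨2, true⟩ then 0 else if n = ⟨2, false⟩ then 1 else
  if n = ⟨3, false⟩ then 2 else if n = ⟨3, true⟩ then 3 else n.a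

/-- The same for two edges of equal signs. -/
def rkS (n : Nt) : ℕ := if n = ⟨3, true⟩ then 0 else if n = ⟨2, false⟩ then 1 else
  if n = ⟨3, false⟩ then 2 else n.a

/-- The orientation: `true` if the slot of the Bailey step is the right one. -/
def flO (m : ℕ) (a : ℕ → ℕ) (S : ℕ → Bool) (i : ℕ) : Bool :=
  if i = 0 then false else if i = m then true else if a i = 3 then
    (if S (i - 1) = true then
      (if S i = true then decide (rkS (ntG m a (i + 1)) < rkS (ntG m a (i - 1))) else false)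
    else (if S i = true then true
      else decide (rkA (ntG m a (i - 1)) < rkA (ntG m a (i + 1)))))
  else false

/-- The neighbour of the other slot. -/
def nbO (m : ℕ) (a : ℕ → ℕ) (S : ℕ → Bool) (i : ℕ) : Nt :=
  if flO m a S i = true then ntG m a (i - 1) else ntG m a (i + 1)

/-- The ends of the contours of the lattice variables: `3 / 8` for the inner nodes with three half
twists and two positive edges (except for the chain `3, 3, 3`), otherwise `2 / 5`. -/
noncomputable def z1O (m : ℕ) (a : ℕ → ℕ) (S : ℕ → Bool) (i : ℕ) : ℝ :=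
  if 0 < i ∧ i < m ∧ a i = 3 ∧ S (i - 1) = true ∧ S i = true ∧ ¬(m = 2 ∧ a 0 = 3 ∧ a 2 = 3)
    then 3 / 8 else 2 / 5

theorem z1O_zero (m : ℕ) (a : ℕ → ℕ) (S : ℕ → Bool) : z1O m a S 0 = 2 / 5 :=
  if_neg fun h => lt_irrefl 0 h.1

theorem z1O_last (m : ℕ) (a : ℕ → ℕ) (S : ℕ → Bool) : z1O m a S m = 2 / 5 :=
  if_neg fun h => lt_irrefl m h.2.1

theorem z1O_ne (m : ℕ) {a : ℕ → ℕ} (S : ℕ → Bool) {i : ℕ} (h : a i ≠ 3) : z1O m a S i = 2 / 5 :=
  if_neg fun k => h k.2.2.1

theorem z1O_bd (m : ℕ) (a : ℕ → ℕ) (S : ℕ → Bool) (i : ℕ) :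
    7 / 20 ≤ z1O m a S i ∧ z1O m a S i ≤ 2 / 5 := by
  unfold z1O
  split <;> constructor <;> norm_num

theorem z1O_ge (m : ℕ) (a : ℕ → ℕ) (S : ℕ → Bool) (i : ℕ) : 3 / 8 ≤ z1O m a S i := by
  unfold z1O
  split <;> norm_num

/-- The ends of the flat pieces of the integration variables. -/
noncomputable def x1O (a : ℕ → ℕ) (i : ℕ) : ℝ := if a i = 4 then 3 / 10 else 7 / 25

theorem flO_zero (m : ℕ) (a : ℕ → ℕ) (S : ℕ → Bool) : flO m a S 0 = false := if_pos rfl

theorem flO_last {m : ℕ} (hm : 1 ≤ m) (a : ℕ → ℕ) (S : ℕ → Bool) : flO m a S m = true := by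
  unfold flO
  rw [if_neg (by omega), if_pos rfl]

end Pool.Agent.S5
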