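import Pool.Agent.S5.I.VOK
import Pool.Agent.S5.I.OriD
import Pool.Agent.S5.I.FrmA
import Pool.Agent.S5.Geo

/-!
# The nodes in the frame of the vertex: slopes and tangent planes
-/

set_option autoImplicit false

namespace Pool.Agent.S5

open Complex Pool.Agent.H63.VC Pool.Agent.H63.VC3 Pool.Agent.S3 Pool.Agent.S5.G
open scoped ComplexConjugate

variable {m : ℕ} {a : ℕ → ℕ} {S fl : ℕ → Bool} {z ql qr : ℕ → ℂ} {r : ℕ → ℤ} {K : Cn m}

/-- The left slot of a node. -/
noncomputable def slL (m : ℕ) (a : ℕ → ℕ) (S : ℕ → Bool) (z ql : ℕ → ℂ) (i : ℕ) : Slt :=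
  ⟨decide (0 < i), S (i - 1), ntG m a (i - 1), z1O m a S (i - 1), sy (ql i) (z i),
    2 * (log (kp (S (i - 1)) (cos (z (i - 1)))) - log (cos (z i)))⟩

/-- The right slot of a node. -/
noncomputable def slR (m : ℕ) (a : ℕ → ℕ) (S : ℕ → Bool) (z qr : ℕ → ℂ) (i : ℕ) : Slt :=
  ⟨decide (i < m), S i, ntG m a (i + 1), z1O m a S (i + 1), sy (qr i) (z i),
    2 * (log (kp (S i) (cos (z (i + 1)))) - log (cos (z i)))⟩

theorem hh_half_sub (w : ℂ) : hh (w + 1 / 2) = hh (1 / 2 - w) := by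
  rw [← hh_one_sub]
  congr 1
  ring

theorem HG.lamR (h : HG m a S fl z ql qr r K) {i : ℕ} (hi : i < m) :
    (slR m a S z qr i).lam = 2 * hh (1 / 2 - sy (qr i) (z i)) -
      he (sy (qr i) (z i) - z i / Real.pi) - he (sy (qr i) (z i) + z i / Real.pi) := by
  have k := slot_der (h.frame i hi.le).2.1 (h.sdr i hi) (h.karg (S i) (i + 1) hi) (-1)
  have e : ∀ w : ℂ, sg (-1) w = w := fun w => if_pos (by norm_num)
  have e' : ∀ w : ℂ, vs (-1) w = w := fun w => if_pos (by norm_num)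
  simp only [e, e', hh_half_sub] at k
  exact k.symm

theorem HG.lamL (h : HG m a S fl z ql qr r K) {i : ℕ} (hi : i < m) :
    (slL m a S z ql (i + 1)).lam = 2 * hh (1 / 2 - sy (ql (i + 1)) (z (i + 1))) -
      he (sy (ql (i + 1)) (z (i + 1)) - z (i + 1) / Real.pi) -
        he (sy (ql (i + 1)) (z (i + 1)) + z (i + 1) / Real.pi) := by
  have k := slot_der (h.frame (i + 1) hi).1 (h.sdl i hi) (h.karg (S i) i hi.le) (-1)
  have e : ∀ w : ℂ, sg (-1) w = w := fun w => if_pos (by norm_num)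
  have e' : ∀ w : ℂ, vs (-1) w = w := fun w => if_pos (by norm_num)
  simp only [e, e', hh_half_sub] at k
  exact k.symm

/-- Both ends of an edge. -/
theorem HG.lam_next (h : HG m a S fl z ql qr r K) {j : ℕ} (hj : j < m) :
    (slL m a S z ql (j + 1)).lam = -kp (S j) (slR m a S z qr j).lam := by
  have hpi := Real.pi_pos
  have k1 := h.karg true j hj.le
  have k2 := h.karg true (j + 1) hj
  rw [kp_true] at k1 k2
  show 2 * (log (kp (S j) (cos (z j))) - log (cos (z (j + 1)))) =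
    -kp (S j) (2 * (log (kp (S j) (cos (z (j + 1)))) - log (cos (z j))))
  cases S j
  · rw [kp_false, kp_false, kp_false, log_conj _ (by linarith [k1.2]), log_conj _ (by linarith [k2.2])]
    simp only [map_mul, map_sub, map_ofNat, conj_conj]
    ring
  · rw [kp_true, kp_true, kp_true]
    ring

/-- The slots of the ends. -/
theorem HG.slL_zero (h : HG m a S fl z ql qr r K) : (slL m a S z ql 0).ys = 1 / 2 := by
  show sy (ql 0) (z 0) = 1 / 2
  rw [h.crt.l0, sy_zero (h.crt.zre 0 (by omega)).1 (h.crt.zre 0 (by omega)).2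
    (h.crt.zim 0 (by omega))]

theorem HG.slR_last (h : HG m a S fl z ql qr r K) : (slR m a S z qr m).ys = 1 / 2 := by
  show sy (qr m) (z m) = 1 / 2
  rw [h.crt.rR, sy_zero (h.crt.zre m le_rfl).1 (h.crt.zre m le_rfl).2 (h.crt.zim m le_rfl)]

/-- The node minus its tangent plane. -/
def NEq (c : ℤ) (ty : Ty) (f : Bool) (os : ℂ) (sa sb : Slt) (E : ℂ → ℂ → ℂ → ℝ) : Prop :=
  ∀ o A B : ℂ, (sa.ex = false → A = sa.ys) → (sb.ex = false → B = sb.ys) →
    Vn c ty f o A B = Vn c ty f os sa.ys sb.ys + (sa.lam * (A - sa.ys)).re +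
      (sb.lam * (B - sb.ys)).re + E o A B

theorem re_mul_congr {l l' A A' : ℂ} (h : A = A' ∨ l = l') :
    (l * (A - A')).re = (l' * (A - A')).re := by
  rcases h with h | h
  · rw [h, sub_self, mul_zero, mul_zero]
  · rw [h]

/-- Closed nodes. -/
theorem NEq_cl {f : Bool} {os : ℂ} {sa sb : Slt} (ha : sa.ex = true → sa.lam = lcl sa.ys sb.ys)
    (hb : sb.ex = true → sb.lam = lcl sb.ys sa.ys) :
    NEq (-2) Ty.cl f os sa sb (fun _ A B => Ecl sa.ys sb.ys A B) := by
  intro o A B hA hB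
  have e : ∀ o A B : ℂ, Vn (-2) Ty.cl f o A B = Gcl A B := fun _ _ _ => rfl
  rw [e, e, Gcl_eq sa.ys sb.ys A B]
  have e1 : (sa.lam * (A - sa.ys)).re = (lcl sa.ys sb.ys * (A - sa.ys)).re := by
    apply re_mul_congr
    rcases hx : sa.ex with _ | _
    · exact Or.inl (hA hx)
    · exact Or.inr (ha hx)
  have e2 : (sb.lam * (B - sb.ys)).re = (lcl sb.ys sa.ys * (B - sb.ys)).re := by
    apply re_mul_congr
    rcases hx : sb.ex with _ | _
    · exact Or.inl (hB hx)
    · exact Or.inr (hb hx)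
  rw [e1, e2]

/-- Three half twists, the slot of the Bailey step is the left one. -/
theorem NEq_z3 {os : ℂ} {sa sb : Slt} (hz : l3z sa.ys os sb.ys = 0)
    (ha : sa.ex = true → sa.lam = l3y sa.ys os)
    (hb : sb.ex = true → sb.lam = l3b os sb.ys) :
    NEq (-3) Ty.zn false os sa sb (fun o A B => Ez3 sa.ys os sb.ys A o B) := by
  intro o A B hA hB
  have e : ∀ o A B : ℂ, Vn (-3) Ty.zn false o A B = Gz3 A o B := fun _ _ _ => rfl
  rw [e, e, Gz3_eq sa.ys os sb.ys A o B hz]
  have e1 : (sa.lam * (A - sa.ys)).re = (l3y sa.ys os * (A - sa.ys)).re := by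
    apply re_mul_congr
    rcases hx : sa.ex with _ | _
    · exact Or.inl (hA hx)
    · exact Or.inr (ha hx)
  have e2 : (sb.lam * (B - sb.ys)).re = (l3b os sb.ys * (B - sb.ys)).re := by
    apply re_mul_congr
    rcases hx : sb.ex with _ | _
    · exact Or.inl (hB hx)
    · exact Or.inr (hb hx)
  rw [e1, e2]

/-- Three half twists, the slot of the Bailey step is the right one. -/
theorem NEq_z3' {os : ℂ} {sa sb : Slt} (hz : l3z sb.ys os sa.ys = 0)
    (ha : sa.ex = true → sa.lam = l3b os sa.ys)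
    (hb : sb.ex = true → sb.lam = l3y sb.ys os) :
    NEq (-3) Ty.zn true os sa sb (fun o A B => Ez3 sb.ys os sa.ys B o A) := by
  intro o A B hA hB
  have e : ∀ o A B : ℂ, Vn (-3) Ty.zn true o A B = Gz3 B o A := fun o A B => by
    show gB (-1) B o + gH (-1) o A + 2 * Rf (A + 1 / 2) + 2 * Rf (B + 1 / 2) =
      gB (-1) B o + gH (-1) o A + 2 * Rf (B + 1 / 2) + 2 * Rf (A + 1 / 2)
    ring
  rw [e, e, Gz3_eq sb.ys os sa.ys B o A hz]
  have e1 : (sa.lam * (A - sa.ys)).re = (l3b os sa.ys * (A - sa.ys)).re := by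
    apply re_mul_congr
    rcases hx : sa.ex with _ | _
    · exact Or.inl (hA hx)
    · exact Or.inr (ha hx)
  have e2 : (sb.lam * (B - sb.ys)).re = (l3y sb.ys os * (B - sb.ys)).re := by
    apply re_mul_congr
    rcases hx : sb.ex with _ | _
    · exact Or.inl (hB hx)
    · exact Or.inr (hb hx)
  rw [e1, e2]
  ring

/-- Four half twists. -/
theorem NEq_z4 {os : ℂ} {sa sb : Slt} (hz : l4z sa.ys os sb.ys = 0)
    (ha : sa.ex = true → sa.lam = l4y sa.ys os)
    (hb : sb.ex = true → sb.lam = l4b os sb.ys) :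
    NEq (-4) Ty.zn false os sa sb (fun o A B => Ez4 sa.ys os sb.ys A o B) := by
  intro o A B hA hB
  have e : ∀ o A B : ℂ, Vn (-4) Ty.zn false o A B = Gz4 A o B := fun _ _ _ => rfl
  rw [e, e, Gz4_eq sa.ys os sb.ys A o B hz]
  have e1 : (sa.lam * (A - sa.ys)).re = (l4y sa.ys os * (A - sa.ys)).re := by
    apply re_mul_congr
    rcases hx : sa.ex with _ | _
    · exact Or.inl (hA hx)
    · exact Or.inr (ha hx)
  have e2 : (sb.lam * (B - sb.ys)).re = (l4b os sb.ys * (B - sb.ys)).re := by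
    apply re_mul_congr
    rcases hx : sb.ex with _ | _
    · exact Or.inl (hB hx)
    · exact Or.inr (hb hx)
  rw [e1, e2]

theorem NEq_z4' {os : ℂ} {sa sb : Slt} (hz : l4z sb.ys os sa.ys = 0)
    (ha : sa.ex = true → sa.lam = l4b os sa.ys)
    (hb : sb.ex = true → sb.lam = l4y sb.ys os) :
    NEq (-4) Ty.zn true os sa sb (fun o A B => Ez4 sb.ys os sa.ys B o A) := by
  intro o A B hA hB
  have e : ∀ o A B : ℂ, Vn (-4) Ty.zn true o A B = Gz4 B o A := fun o A B => by
    show gB (-1) B o + gC (-1) o A + 2 * Rf (A + 1 / 2) + 2 * Rf (B + 1 / 2) =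
      gB (-1) B o + gC (-1) o A + 2 * Rf (B + 1 / 2) + 2 * Rf (A + 1 / 2)
    ring
  rw [e, e, Gz4_eq sb.ys os sa.ys B o A hz]
  have e1 : (sa.lam * (A - sa.ys)).re = (l4b os sa.ys * (A - sa.ys)).re := by
    apply re_mul_congr
    rcases hx : sa.ex with _ | _
    · exact Or.inl (hA hx)
    · exact Or.inr (ha hx)
  have e2 : (sb.lam * (B - sb.ys)).re = (l4y sb.ys os * (B - sb.ys)).re := by
    apply re_mul_congr
    rcases hx : sb.ex with _ | _
    · exact Or.inl (hB hx)
    · exact Or.inr (hb hx)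
  rw [e1, e2]
  ring

/-! ### Open nodes -/

theorem sl_dummy (v : ℂ) : sl 2 (1 / 2) v = 0 := by
  have h1 := Rf_one_sub (1 / 2 - v)
  have e : (1 : ℂ) - (1 / 2 - v) = 1 / 2 + v := by ring
  rw [e] at h1
  unfold sl
  rw [h1, Rf_dummy]
  ring

theorem lv_dummy (v : ℂ) : lv (1 / 2) v = 0 := by
  have h1 := hh_one_sub (1 / 2 - v)
  have e : (1 : ℂ) - (1 / 2 - v) = 1 / 2 + v := by ring
  rw [e] at h1
  unfold lv
  rw [h1, sub_self]

theorem wr_re (n : ℝ) (v : ℂ) : (wr (-(n / 2)) v).re = gn n v := by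
  unfold wr gn
  simp only [mul_re, mul_im, add_re, add_im, ofReal_re, ofReal_im, I_re, I_im, re_ofNat, im_ofNat,
    pow_two]
  ring

theorem Vn_v (n : ℕ) (f : Bool) (v A B : ℂ) : Vn (-(n : ℤ)) Ty.vn f v A B =
    gn n v + sl 2 A v + sl 2 B v := by
  show gV (((-(n : ℤ) : ℤ) : ℝ) / 2) v A B + 2 * Rf (A + 1 / 2) + 2 * Rf (B + 1 / 2) = _
  unfold gV sl
  rw [← wr_re, show ((-(n : ℤ) : ℤ) : ℝ) / 2 = -((n : ℝ) / 2) by push_cast; ring]
  ring

theorem NEq_v {n : ℕ} {f : Bool} {os : ℂ} {sa sb : Slt} (hi : os.im ≠ 0)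
    (hv : 2 * Real.pi * I * (1 - n * os) + lv sa.ys os + lv sb.ys os = 0)
    (ha : sa.ex = true → sa.lam = ly 2 sa.ys os) (hb : sb.ex = true → sb.lam = ly 2 sb.ys os)
    (ha' : sa.ex = false → sa.ys = 1 / 2) (hb' : sb.ex = false → sb.ys = 1 / 2) :
    NEq (-(n : ℤ)) Ty.vn f os sa sb (fun o A B => sa.v os A o + sb.v os B o) := by
  intro o A B hA hB
  rw [Vn_v, Vn_v]
  have hpi := Real.pi_ne_zero
  -- the natural shares
  have hre := congrArg Complex.re hv
  rw [add_re, add_re, zero_re] at hre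
  have e1 : (2 * Real.pi * I * (1 - n * os)).re = 2 * Real.pi * (n * os.im) := by
    simp only [mul_re, mul_im, sub_re, sub_im, one_re, one_im, ofReal_re, ofReal_im, I_re, I_im,
      re_ofNat, im_ofNat, natCast_re, natCast_im]
    ring
  have e2 : ∀ w : ℂ, (lv w os).re = -(2 * Real.pi * os.im) * bn w os := by
    intro w
    unfold lv bn
    rw [sub_re, hh_re, hh_re]
    field_simp
    ring
  rw [e1, e2, e2] at hre
  have hbn : bn sa.ys os + bn sb.ys os = n := by
    have h3 : 2 * Real.pi * os.im * (n - (bn sa.ys os + bn sb.ys os)) = 0 := by linarith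
    rcases mul_eq_zero.1 h3 with h4 | h4
    · exact absurd h4 (by positivity)
    · linarith
  have e3 : (2 * Real.pi * I * (1 - n * os) * (o - os)).re + (lv sa.ys os * (o - os)).re +
      (lv sb.ys os * (o - os)).re = 0 := by
    rw [← add_re, ← add_re, ← add_mul, ← add_mul, hv, zero_mul, zero_re]
  have e4 := gn_eq n os o
  have key : ∀ (s : Slt) (w : ℂ), (s.ex = true → s.lam = ly 2 s.ys os) →
      (s.ex = false → s.ys = 1 / 2) → (s.ex = false → w = s.ys) →
      sl 2 w o = sl 2 s.ys os + (s.lam * (w - s.ys)).re + (lv s.ys os * (o - os)).re +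
        (s.v os w o - 2 * Real.pi * bn s.ys os * ((o.re - os.re) * (o.im - os.im))) := by
    intro s w h1 h2 h3
    rcases hx : s.ex with _ | _
    · have h4 := h2 hx
      have h5 := h3 hx
      have h6 : bn (1 / 2) os = 0 := by
        have h7 := e2 (1 / 2)
        rw [lv_dummy, zero_re] at h7
        have h8 : 2 * Real.pi * os.im ≠ 0 := by positivity
        rcases mul_eq_zero.1 h7.symm with h9 | h9
        · exact absurd h9 (neg_ne_zero.2 h8)
        · exact h9
      rw [h5, sub_self, mul_zero, zero_re, h4, sl_dummy, sl_dummy, lv_dummy, h6]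
      unfold Slt.v
      rw [hx]
      simp
    · rw [h1 hx]
      unfold Slt.v
      rw [hx, if_pos rfl, sl_eq 2 s.ys os w o]
      unfold Es Ev
      push_cast
      ring
  rw [key sa A ha ha' hA, key sb B hb hb' hB, e4]
  push_cast
  have e5 : 2 * Real.pi * (n : ℝ) * ((o.re - os.re) * (o.im - os.im)) =
      2 * Real.pi * bn sa.ys os * ((o.re - os.re) * (o.im - os.im)) +
        2 * Real.pi * bn sb.ys os * ((o.re - os.re) * (o.im - os.im)) := by
    rw [← hbn]
    ring
  rw [e5]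
  push_cast at e3
  linarith

end Pool.Agent.S5
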