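import Pool.Agent.S5.I.NumLs

/-!
# Fixed point evaluation of the arctangent of a quotient
-/

set_option autoImplicit false

namespace Pool.Agent.S5.Num

/-- The Lipschitz constant of the arctangent. -/
theorem arctan_lip {x y : ℝ} (h : x ≤ y) : Real.arctan y - Real.arctan x ≤ y - x := by
  have h1 := Convex.image_sub_le_mul_sub_of_deriv_le (f := Real.arctan) (D := Set.univ)
    convex_univ Real.differentiable_arctan.continuous.continuousOn
    Real.differentiable_arctan.differentiableOn (C := 1) (fun z _ => by
      rw [Real.deriv_arctan]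
      rw [div_le_iff₀ (by positivity)]
      nlinarith [sq_nonneg z]) x (Set.mem_univ _) y (Set.mem_univ _) h
  linarith

theorem arctan_add_le {p q : ℝ} (hp : 0 ≤ p) (hq : 0 < q) (hqp : q ≤ p) :
    Real.arctan (p / q) = Real.pi / 4 + Real.arctan ((p - q) / (p + q)) := by
  have hpq : 0 < p + q := by linarith
  have h0 : 0 ≤ (p - q) / (p + q) := div_nonneg (by linarith) hpq.le
  have h1 : (p - q) / (p + q) < 1 := by rw [div_lt_one hpq]; linarith
  have h2 := Real.arctan_add (x := 1) (y := (p - q) / (p + q)) (by linarith)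
  rw [Real.arctan_one] at h2
  rw [h2]
  congr 1
  have e1 : 1 + (p - q) / (p + q) = 2 * p / (p + q) := by
    field_simp
    ring
  have e2 : 1 - 1 * ((p - q) / (p + q)) = 2 * q / (p + q) := by
    field_simp
    ring
  rw [e1, e2, div_div_div_cancel_right₀ hpq.ne', mul_div_mul_left _ _ two_ne_zero]

theorem arctan_sub_le {p q : ℝ} (hp : 0 ≤ p) (hq : 0 < q) (hqp : p ≤ q) :
    Real.arctan (p / q) = Real.pi / 4 - Real.arctan ((q - p) / (p + q)) := by
  have hpq : 0 < p + q := by linarith
  have h0 : 0 ≤ (q - p) / (p + q) := div_nonneg (by linarith) hpq.le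
  have h2 := Real.arctan_add (x := p / q) (y := (q - p) / (p + q)) (by
    have h3 : p / q ≤ 1 := by rw [div_le_one hq]; exact hqp
    have h4 : (q - p) / (p + q) ≤ 1 := by rw [div_le_one hpq]; linarith
    rcases hp.eq_or_lt with h | h
    · rw [← h]
      simp
    · have h5 : (q - p) / (p + q) < 1 := by rw [div_lt_one hpq]; linarith
      have h6 : 0 ≤ p / q := div_nonneg hp hq.le
      nlinarith)
  have h7 : (p / q + (q - p) / (p + q)) / (1 - p / q * ((q - p) / (p + q))) = 1 := by
    rw [div_eq_one_iff_eq]
    · field_simp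
      ring
    · have : 1 - p / q * ((q - p) / (p + q)) = (p * p + q * q) / (q * (p + q)) := by
        field_simp
        ring
      rw [this]
      positivity
  rw [h7, Real.arctan_one] at h2
  linarith

/-- Evaluation of the arctangent of a quotient. -/
theorem aC_quot {a b : ℕ} (hb : 0 < b) (h : 2 * a ≤ b) :
    |((fN aC (Nat.div (Nat.mul a 281474976710656) b) : ℕ) : ℝ) - UU * Real.arctan ((a : ℝ) / b)| ≤
      6 := by
  rw [fN_eq]
  have hb' : (0 : ℝ) < b := by exact_mod_cast hb
  have h' : 2 * (a : ℝ) ≤ b := by exact_mod_cast h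
  have ha : (0 : ℝ) ≤ a := Nat.cast_nonneg a
  have b1 := div_bounds (a * 281474976710656) hb
  have e : (((a * 281474976710656 : ℕ)) : ℝ) / b = UU * ((a : ℝ) / b) := by
    unfold UU
    push_cast
    ring
  rw [e] at b1
  have e2 : Nat.div (Nat.mul a 281474976710656) b = a * 281474976710656 / b := by
    rw [div_eq', mul_eq']
  rw [e2]
  generalize a * 281474976710656 / b = r at b1
  have hU := UU_pos
  have h1 : (r : ℝ) = UU * ((r : ℝ) / UU) := by
    field_simp
  have h2 : (r : ℝ) / UU ≤ (a : ℝ) / b := by
    rw [div_le_iff₀ hU]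
    linarith [b1.2]
  have h3 : (a : ℝ) / b ≤ 1 / 2 := by
    rw [div_le_iff₀ hb']
    linarith
  have h0 : 0 ≤ (r : ℝ) / UU := by positivity
  have h4 := abs_le.1 (aC_sound h0 (h2.trans h3) h1)
  have h5 := arctan_lip h2
  have h6 := Real.arctan_strictMono.monotone h2
  have h7 : UU * ((a : ℝ) / b - (r : ℝ) / UU) ≤ 1 := by
    rw [mul_sub, ← h1]
    linarith [b1.1]
  have h8 := mul_le_mul_of_nonneg_left h5 hU.le
  have h9 := mul_le_mul_of_nonneg_left h6 hU.le
  rw [abs_le]
  constructor <;> linarith [h4.1, h4.2]

/-- Soundness of `atq`. -/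
theorem atq_sound {p q : ℕ} (hq : 0 < q) :
    |((atq p q : ℕ) : ℝ) - UU * Real.arctan ((p : ℝ) / q)| ≤ 8 := by
  have hq' : (0 : ℝ) < q := by exact_mod_cast hq
  have hp : (0 : ℝ) ≤ p := Nat.cast_nonneg p
  have pi1 := Real.pi_gt_d20
  have pi2 := Real.pi_lt_d20
  have hPQ : |UU * (Real.pi / 4) - 221069929750889| ≤ 1 := by
    rw [abs_le]
    unfold UU
    constructor <;> linarith
  have hPH : |UU * (Real.pi / 2) - 442139859501777| ≤ 1 := by
    rw [abs_le]
    unfold UU
    constructor <;> linarith
  have a1 := abs_le.1 hPQ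
  have a2 := abs_le.1 hPH
  unfold atq
  by_cases h1 : 2 * p ≤ q
  · have e : Nat.ble (Nat.mul 2 p) q = true := Nat.ble_eq.mpr h1
    rw [e, cond_true]
    exact (aC_quot hq h1).trans (by norm_num)
  · have e : Nat.ble (Nat.mul 2 p) q = false := by
      rw [Bool.eq_false_iff, Ne, Nat.ble_eq]
      exact h1
    rw [e, cond_false]
    have hp0 : 0 < p := by omega
    have hp' : (0 : ℝ) < p := by exact_mod_cast hp0
    by_cases h2 : 2 * q ≤ p
    · have e2 : Nat.ble (Nat.mul 2 q) p = true := Nat.ble_eq.mpr h2
      rw [e2, cond_true]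
      have h3 := aC_quot hp0 h2
      have h4 : Real.arctan ((p : ℝ) / q) = Real.pi / 2 - Real.arctan ((q : ℝ) / p) := by
        rw [← inv_div, Real.arctan_inv_of_pos (by positivity)]
      have h5 : Real.arctan ((q : ℝ) / p) ≤ 1 / 2 := by
        have h6 := arctan_lip (show (0 : ℝ) ≤ (q : ℝ) / p by positivity)
        rw [Real.arctan_zero, sub_zero, sub_zero] at h6
        have h7 : (q : ℝ) / p ≤ 1 / 2 := by
          have : 2 * (q : ℝ) ≤ p := by exact_mod_cast h2
          rw [div_le_iff₀ hp']
          linarith
        linarith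
      generalize fN aC (Nat.div (Nat.mul q 281474976710656) p) = r at h3 ⊢
      have h3' := abs_le.1 h3
      have hle : r ≤ 442139859501777 := by
        have : (r : ℝ) ≤ ((442139859501777 : ℕ) : ℝ) := by
          have h8 := mul_le_mul_of_nonneg_left h5 UU_pos.le
          have h9 : UU * (1 / 2) + 6 ≤ 442139859501777 := by norm_num [UU]
          have h10 : ((442139859501777 : ℕ) : ℝ) = 442139859501777 := Nat.cast_ofNat
          rw [h10]
          linarith [h3'.2]
        exact_mod_cast this
      rw [h4, sub_eq', Nat.cast_sub hle, Nat.cast_ofNat, mul_sub, abs_le]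
      clear hle
      constructor <;> linarith [h3'.1, h3'.2, a2.1, a2.2]
    · have e2 : Nat.ble (Nat.mul 2 q) p = false := by
        rw [Bool.eq_false_iff, Ne, Nat.ble_eq]
        exact h2
      rw [e2, cond_false]
      by_cases h3 : q ≤ p
      · have e3 : Nat.ble q p = true := Nat.ble_eq.mpr h3
        rw [e3, cond_true]
        have h4 := aC_quot (a := p - q) (b := p + q) (by omega) (by omega)
        have h5 := arctan_add_le hp hq' (by exact_mod_cast h3)
        rw [Nat.cast_sub h3, Nat.cast_add] at h4
        change |((fN aC (Nat.div (Nat.mul (Nat.sub p q) 281474976710656) (Nat.add p q)) : ℕ) : ℝ) -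
          _| ≤ 6 at h4
        generalize fN aC (Nat.div (Nat.mul (Nat.sub p q) 281474976710656) (Nat.add p q)) = r
          at h4 ⊢
        have h4' := abs_le.1 h4
        rw [h5, add_eq', Nat.cast_add, Nat.cast_ofNat, mul_add, abs_le]
        constructor <;> linarith [h4'.1, h4'.2, a1.1, a1.2]
      · have e3 : Nat.ble q p = false := by
          rw [Bool.eq_false_iff, Ne, Nat.ble_eq]
          exact h3
        rw [e3, cond_false]
        have h3b : p ≤ q := by omega
        have h4 := aC_quot (a := q - p) (b := p + q) (by omega) (by omega)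
        have h5 := arctan_sub_le hp hq' (by exact_mod_cast h3b)
        rw [Nat.cast_sub h3b, Nat.cast_add] at h4
        change |((fN aC (Nat.div (Nat.mul (Nat.sub q p) 281474976710656) (Nat.add p q)) : ℕ) : ℝ) -
          _| ≤ 6 at h4
        generalize fN aC (Nat.div (Nat.mul (Nat.sub q p) 281474976710656) (Nat.add p q)) = r
          at h4 ⊢
        have h4' := abs_le.1 h4
        have h6 : Real.arctan (((q : ℝ) - p) / (p + q)) ≤ 1 / 2 := by
          have h6 := arctan_lip (show (0 : ℝ) ≤ ((q : ℝ) - p) / (p + q) from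
            div_nonneg (sub_nonneg.2 (by exact_mod_cast h3b)) (by positivity))
          rw [Real.arctan_zero, sub_zero, sub_zero] at h6
          have h7 : ((q : ℝ) - p) / (p + q) ≤ 1 / 2 := by
            have : (q : ℝ) < 2 * p := by exact_mod_cast (not_le.1 h1)
            rw [div_le_iff₀ (by positivity)]
            linarith
          linarith
        have hle : r ≤ 221069929750889 := by
          have : (r : ℝ) ≤ ((221069929750889 : ℕ) : ℝ) := by
            have h8 := mul_le_mul_of_nonneg_left h6 UU_pos.le
            have h9 : UU * (1 / 2) + 6 ≤ 221069929750889 := by norm_num [UU]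
            have h10 : ((221069929750889 : ℕ) : ℝ) = 221069929750889 := Nat.cast_ofNat
            rw [h10]
            linarith [h4'.2]
          exact_mod_cast this
        rw [h5, sub_eq', Nat.cast_sub hle, Nat.cast_ofNat, mul_sub, abs_le]
        clear hle
        constructor <;> linarith [h4'.1, h4'.2, a1.1, a1.2]

end Pool.Agent.S5.Num
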