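import Pool.Agent.S5.Tan

/-!
# Tangent defects

`Td z0 z` is the value at `z` of `-Rf` minus its (complex) tangent plane at `z0`. The node functions
minus their tangent planes at the critical point are sums of tangent defects of their angles.
-/

set_option autoImplicit false

namespace Pool.Agent.S5

open Pool.Agent.H63.VC3 Pool.Agent.S3 Complex MeasureTheory Filter Topology Set

/-- The tangent defect of `-Rf`. -/
noncomputable def Td (z0 z : ℂ) : ℝ := Rf z0 - Rf z + (hh z0 * (z - z0)).re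

theorem Td_self (z : ℂ) : Td z z = 0 := by
  simp [Td]

theorem hh_re (z : ℂ) : (hh z).re = Lg z.im z.re := by
  unfold hh Lg
  rw [log_re, re_add_im]

theorem hh_re' (x s : ℝ) : (hh ((x : ℂ) + s * I)).re = Lg s x := by
  unfold hh Lg
  rw [log_re]

theorem Td_conj {z0 z : ℂ} (h0 : 0 < z0.re) (h1 : z0.re < 1) :
    Td ((starRingEnd ℂ) z0) ((starRingEnd ℂ) z) = Td z0 z := by
  unfold Td
  rw [Rf_conj, Rf_conj, hh_conj z0 h0 h1, ← map_sub, ← map_mul, conj_re]

/-- The tangent defect on a horizontal line. -/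
theorem Td_horizontal (s x0 x : ℝ) : Td ((x0 : ℂ) + s * I) ((x : ℂ) + s * I) =
    Rf ((x0 : ℂ) + s * I) - Rf ((x : ℂ) + s * I) + Lg s x0 * (x - x0) := by
  unfold Td
  have e : ((x : ℂ) + s * I) - ((x0 : ℂ) + s * I) = ((x - x0 : ℝ) : ℂ) := by
    push_cast
    ring
  rw [e, re_mul_ofReal, hh_re']

/-- The tangent defect is not positive on horizontal segments. -/
theorem Td_horizontal_nonpos {s x0 x : ℝ} (h0 : 0 ≤ x) (h1 : x ≤ 1 / 2) (h2 : 0 < x0)
    (h3 : x0 ≤ 1 / 2) : Td ((x0 : ℂ) + s * I) ((x : ℂ) + s * I) ≤ 0 := by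
  rw [Td_horizontal]
  have := Rf_tangent (s := s) h0 h1 h2 h3
  linarith

theorem Td_flat {z0 z : ℂ} (hi : z.im = z0.im) (h0 : 0 ≤ z.re) (h1 : z.re ≤ 1 / 2)
    (h2 : 0 < z0.re) (h3 : z0.re ≤ 1 / 2) : Td z0 z ≤ 0 := by
  have h := Td_horizontal_nonpos (s := z0.im) h0 h1 h2 h3
  rw [re_add_im, ← hi, re_add_im] at h
  exact h

/-! ### Vertical segments -/

theorem hasDerivAt_line (x s : ℝ) : HasDerivAt (fun s : ℝ => (x : ℂ) + s * I) I s := by
  have h := ((Complex.ofRealCLM.hasDerivAt (x := s)).mul_const I).const_add (x : ℂ)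
  simpa using h

theorem line_re (x s : ℝ) : ((x : ℂ) + s * I).re = x := by simp

theorem line_im (x s : ℝ) : ((x : ℂ) + s * I).im = s := by simp

/-- The derivative of `-Rf` on a vertical line. -/
theorem neg_Rf_hasDerivAt_im {x : ℝ} (h0 : 0 < x) (h1 : x < 1) (s : ℝ) :
    HasDerivAt (fun s : ℝ => -Rf ((x : ℂ) + s * I)) (hh ((x : ℂ) + s * I)).im s := by
  have e : (fun s : ℝ => -Rf ((x : ℂ) + s * I)) = fun s : ℝ => -(ff ((x : ℂ) + s * I)).re := by
    funext t
    rw [Rf_eq_ff (by rw [line_re]; exact h0) (by rw [line_re]; exact h1)]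
  rw [e]
  have h2 := ff_hasDerivAt ((x : ℂ) + s * I) (by rw [line_re]; exact h0)
    (by rw [line_re]; exact h1)
  have h4 := HasDerivAt.comp s h2 (hasDerivAt_line x s)
  have h5 := (Complex.reCLM.hasFDerivAt.comp_hasDerivAt s h4).neg
  refine h5.congr_deriv ?_
  simp

theorem hh_im_hasDerivAt_im {x : ℝ} (h0 : 0 < x) (h1 : x < 1) (s : ℝ) :
    HasDerivAt (fun s : ℝ => (hh ((x : ℂ) + s * I)).im)
      (Real.pi * cot (Real.pi * ((x : ℂ) + s * I))).re s := by
  have h2 := hh_hasDerivAt ((x : ℂ) + s * I) (by rw [line_re]; exact h0)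
    (by rw [line_re]; exact h1)
  have h4 := HasDerivAt.comp s h2 (hasDerivAt_line x s)
  have h5 := (Complex.imCLM.hasFDerivAt.comp_hasDerivAt s h4)
  refine h5.congr_deriv ?_
  simp

theorem cot_re (x s : ℝ) : (cot (Real.pi * ((x : ℂ) + s * I))).re =
    Real.sin (2 * Real.pi * x) / (Real.cosh (2 * Real.pi * s) - Real.cos (2 * Real.pi * x)) := by
  have e1 : (Real.pi * ((x : ℂ) + s * I)) = ((Real.pi * x : ℝ) : ℂ) + ((Real.pi * s : ℝ) : ℂ) * I := by
    push_cast
    ring
  set a := Real.pi * x with ha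
  set b := Real.pi * s with hb
  rw [e1, Complex.cot, div_re]
  have hs1 : (sin ((a : ℂ) + b * I)).re = Real.sin a * Real.cosh b := by
    rw [sin_add_mul_I, ← ofReal_sin, ← ofReal_cosh, ← ofReal_cos, ← ofReal_sinh]
    simp only [add_re, mul_re, ofReal_re, ofReal_im, mul_zero, sub_zero, I_re, I_im, mul_one,
      mul_im, zero_mul, add_zero]
  have hs2 : (sin ((a : ℂ) + b * I)).im = Real.cos a * Real.sinh b := by
    rw [sin_add_mul_I, ← ofReal_sin, ← ofReal_cosh, ← ofReal_cos, ← ofReal_sinh]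
    simp only [add_im, mul_re, ofReal_re, ofReal_im, mul_zero, sub_zero, I_re, I_im, mul_one,
      mul_im, zero_mul, add_zero, zero_add]
  have hc1 : (cos ((a : ℂ) + b * I)).re = Real.cos a * Real.cosh b := by
    rw [cos_add_mul_I, ← ofReal_sin, ← ofReal_cosh, ← ofReal_cos, ← ofReal_sinh]
    simp only [sub_re, mul_re, ofReal_re, ofReal_im, mul_zero, sub_zero, I_re, I_im, mul_one,
      mul_im, zero_mul, add_zero]
  have hc2 : (cos ((a : ℂ) + b * I)).im = -(Real.sin a * Real.sinh b) := by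
    rw [cos_add_mul_I, ← ofReal_sin, ← ofReal_cosh, ← ofReal_cos, ← ofReal_sinh]
    simp only [sub_im, mul_re, ofReal_re, ofReal_im, mul_zero, sub_zero, I_re, I_im, mul_one,
      mul_im, zero_mul, add_zero, zero_add, zero_sub]
  have hn : normSq (sin ((a : ℂ) + b * I)) =
      (Real.cosh (2 * b) - Real.cos (2 * a)) / 2 := by
    rw [normSq_apply, hs1, hs2, Real.cosh_two_mul, Real.cos_two_mul]
    have h1 := Real.cosh_sq b
    have h2 := Real.sin_sq_add_cos_sq a
    nlinarith [h1, h2]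
  rw [hs1, hs2, hc1, hc2, hn]
  have e2 : 2 * Real.pi * x = 2 * a := by rw [ha]; ring
  have e3 : 2 * Real.pi * s = 2 * b := by rw [hb]; ring
  rw [e2, e3, Real.sin_two_mul, ← add_div]
  by_cases h0 : Real.cosh (2 * b) - Real.cos (2 * a) = 0
  · rw [h0]
    simp
  · have h1 := Real.cosh_sq b
    rw [div_eq_div_iff (by
      intro h
      apply h0
      linarith) h0]
    linear_combination (Real.sin a * Real.cos a * (Real.cosh (2 * b) - Real.cos (2 * a))) * h1

theorem cot_re_nonneg {x : ℝ} (h0 : 0 ≤ x) (h1 : x ≤ 1 / 2) (s : ℝ) :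
    0 ≤ (Real.pi * cot (Real.pi * ((x : ℂ) + s * I))).re := by
  have hpi := Real.pi_pos
  rw [re_ofReal_mul, cot_re]
  apply mul_nonneg hpi.le
  apply div_nonneg
  · apply Real.sin_nonneg_of_nonneg_of_le_pi <;> nlinarith
  · have h2 := Real.one_le_cosh (2 * Real.pi * s)
    have h3 := Real.cos_le_one (2 * Real.pi * x)
    linarith

/-- `-Rf` is convex on vertical lines in the left half of the strip. -/
theorem neg_Rf_convex {x : ℝ} (h0 : 0 ≤ x) (h1 : x ≤ 1 / 2) :
    ConvexOn ℝ univ (fun s : ℝ => -Rf ((x : ℂ) + s * I)) := by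
  have key : ∀ x : ℝ, 0 < x → x ≤ 1 / 2 →
      ConvexOn ℝ univ (fun s : ℝ => -Rf ((x : ℂ) + s * I)) := by
    intro x h0 h1
    have hd : ∀ s : ℝ, HasDerivAt (fun s : ℝ => -Rf ((x : ℂ) + s * I)) (hh ((x : ℂ) + s * I)).im s :=
      fun s => neg_Rf_hasDerivAt_im h0 (by linarith) s
    apply Monotone.convexOn_univ_of_deriv
    · intro s
      exact (hd s).differentiableAt
    · have e : deriv (fun s : ℝ => -Rf ((x : ℂ) + s * I)) =
          fun s : ℝ => (hh ((x : ℂ) + s * I)).im := by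
        funext s
        exact (hd s).deriv
      rw [e]
      apply monotone_of_hasDerivAt_nonneg (fun s => hh_im_hasDerivAt_im h0 (by linarith) s)
      intro s
      exact cot_re_nonneg h0.le h1 s
  rcases h0.eq_or_lt with h | h
  · subst h
    refine ⟨convex_univ, ?_⟩
    intro s _ t _ a b ha hb hab
    have hl : ∀ s : ℝ, Tendsto (fun x : ℝ => -Rf ((x : ℂ) + s * I)) (𝓝[>] 0)
        (𝓝 (-Rf (((0 : ℝ) : ℂ) + s * I))) := by
      intro s
      have hc : Continuous (fun x : ℝ => -Rf ((x : ℂ) + s * I)) :=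
        (Rf_continuous.comp (by fun_prop)).neg
      exact (hc.tendsto 0).mono_left nhdsWithin_le_nhds
    refine le_of_tendsto_of_tendsto (hl _) (((hl s).const_smul a).add ((hl t).const_smul b)) ?_
    filter_upwards [Ioc_mem_nhdsGT (show (0 : ℝ) < 1 / 2 by norm_num)] with y hy
    exact (key y hy.1 hy.2).2 (mem_univ _) (mem_univ _) ha hb hab
  · exact key x h h1

/-- The tangent defect is convex on vertical lines in the left half of the strip. -/
theorem Td_convex {z0 : ℂ} {x : ℝ} (h0 : 0 ≤ x) (h1 : x ≤ 1 / 2) :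
    ConvexOn ℝ univ (fun s : ℝ => Td z0 ((x : ℂ) + s * I)) := by
  have e : (fun s : ℝ => Td z0 ((x : ℂ) + s * I)) = fun s : ℝ =>
      (-Rf ((x : ℂ) + s * I)) + (Rf z0 + (hh z0 * ((x : ℂ) - z0)).re + (-(hh z0).im) * s) := by
    funext s
    unfold Td
    have e1 : hh z0 * ((x : ℂ) + s * I - z0) = hh z0 * ((x : ℂ) - z0) + hh z0 * I * s := by ring
    rw [e1, add_re, re_mul_ofReal]
    simp only [mul_re, I_re, I_im, mul_zero, mul_one, zero_sub]
    ring
  rw [e]
  refine (neg_Rf_convex h0 h1).add ?_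
  refine ⟨convex_univ, ?_⟩
  intro s _ t _ a b _ _ hab
  simp only [smul_eq_mul]
  apply le_of_eq
  linear_combination (-(Rf z0 + (hh z0 * ((x : ℂ) - z0)).re)) * hab

/-! ### Open nodes -/

/-- The growth of a slot of an open node with weight `w`. -/
noncomputable def sl (w : ℝ) (y v : ℂ) : ℝ := w * Rf (y + 1 / 2) - Rf (y - v) - Rf (y + v)

/-- The growth of the gaussian of an open node. -/
noncomputable def gn (a : ℝ) (v : ℂ) : ℝ := -2 * Real.pi * v.im * (1 - a * v.re)

/-- The slopes of a slot at the critical point. -/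
noncomputable def ly (w : ℝ) (ys vs : ℂ) : ℂ := w * hh (1 / 2 - ys) - hh (ys - vs) - hh (ys + vs)

/-- The slopes of a slot at the critical point. -/
noncomputable def lv (ys vs : ℂ) : ℂ := hh (ys - vs) - hh (ys + vs)

/-- The slot function of an open node: `b` is the share of the gaussian. -/
noncomputable def Ev (w b : ℝ) (ys vs y v : ℂ) : ℝ :=
  2 * Real.pi * b * ((v.re - vs.re) * (v.im - vs.im)) + w * Td (1 / 2 - ys) (1 / 2 - y) +
    Td (ys - vs) (y - v) + Td (ys + vs) (y + v)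

theorem sl_eq (w : ℝ) (ys vs y v : ℂ) : sl w y v = sl w ys vs + (ly w ys vs * (y - ys)).re +
    (lv ys vs * (v - vs)).re + (w * Td (1 / 2 - ys) (1 / 2 - y) + Td (ys - vs) (y - v) +
      Td (ys + vs) (y + v)) := by
  unfold sl ly lv Td
  have e1 : Rf (1 / 2 - y) = -Rf (y + 1 / 2) := by
    rw [← Rf_one_sub]
    congr 1
    ring
  have e2 : Rf (1 / 2 - ys) = -Rf (ys + 1 / 2) := by
    rw [← Rf_one_sub]
    congr 1
    ring
  rw [e1, e2]
  have e3 : ((↑w * hh (1 / 2 - ys) - hh (ys - vs) - hh (ys + vs)) * (y - ys)).re =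
      w * (hh (1 / 2 - ys) * (y - ys)).re - (hh (ys - vs) * (y - ys)).re -
        (hh (ys + vs) * (y - ys)).re := by
    rw [← re_ofReal_mul, ← sub_re, ← sub_re]
    congr 1
    ring
  have e4 : ((hh (ys - vs) - hh (ys + vs)) * (v - vs)).re =
      (hh (ys - vs) * (v - vs)).re - (hh (ys + vs) * (v - vs)).re := by
    rw [← sub_re]
    congr 1
    ring
  have e5 : (hh (1 / 2 - ys) * (1 / 2 - y - (1 / 2 - ys))).re = -(hh (1 / 2 - ys) * (y - ys)).re := by
    rw [← neg_re]
    congr 1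
    ring
  have e6 : (hh (ys - vs) * (y - v - (ys - vs))).re =
      (hh (ys - vs) * (y - ys)).re - (hh (ys - vs) * (v - vs)).re := by
    rw [← sub_re]
    congr 1
    ring
  have e7 : (hh (ys + vs) * (y + v - (ys + vs))).re =
      (hh (ys + vs) * (y - ys)).re + (hh (ys + vs) * (v - vs)).re := by
    rw [← add_re]
    congr 1
    ring
  rw [e3, e4, e5, e6, e7]
  ring

theorem gn_eq (a : ℝ) (vs v : ℂ) : gn a v = gn a vs +
    (2 * Real.pi * I * (1 - a * vs) * (v - vs)).re +
      2 * Real.pi * a * ((v.re - vs.re) * (v.im - vs.im)) := by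
  unfold gn
  simp only [mul_re, mul_im, sub_re, sub_im, one_re, one_im, ofReal_re, ofReal_im, I_re, I_im,
    re_ofNat, im_ofNat]
  ring

/-- An open node: the sum of the slot functions is the node function minus its tangent plane. -/
theorem node_eq {ι : Type*} (s : Finset ι) (a : ℝ) (w b : ι → ℝ) (ys y : ι → ℂ) (vs v : ℂ)
    (hb : ∑ j ∈ s, b j = a)
    (hv : 2 * Real.pi * I * (1 - a * vs) + ∑ j ∈ s, lv (ys j) vs = 0) :
    gn a v + ∑ j ∈ s, sl (w j) (y j) v = gn a vs + ∑ j ∈ s, sl (w j) (ys j) vs +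
      ∑ j ∈ s, (ly (w j) (ys j) vs * (y j - ys j)).re +
        ∑ j ∈ s, Ev (w j) (b j) (ys j) vs (y j) v := by
  have e1 : ∑ j ∈ s, sl (w j) (y j) v = ∑ j ∈ s, sl (w j) (ys j) vs +
      ∑ j ∈ s, (ly (w j) (ys j) vs * (y j - ys j)).re +
        ((∑ j ∈ s, lv (ys j) vs) * (v - vs)).re +
          (∑ j ∈ s, Ev (w j) (b j) (ys j) vs (y j) v -
            2 * Real.pi * a * ((v.re - vs.re) * (v.im - vs.im))) := by
    have e2 : 2 * Real.pi * a * ((v.re - vs.re) * (v.im - vs.im)) =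
        ∑ j ∈ s, 2 * Real.pi * b j * ((v.re - vs.re) * (v.im - vs.im)) := by
      rw [← hb, Finset.mul_sum, Finset.sum_mul]
    rw [e2, Finset.sum_mul, re_sum, ← Finset.sum_sub_distrib, ← Finset.sum_add_distrib,
      ← Finset.sum_add_distrib, ← Finset.sum_add_distrib]
    refine Finset.sum_congr rfl fun j _ => ?_
    rw [sl_eq (w j) (ys j) vs (y j) v]
    unfold Ev
    ring
  have e3 : (2 * Real.pi * I * (1 - a * vs) * (v - vs)).re +
      ((∑ j ∈ s, lv (ys j) vs) * (v - vs)).re = 0 := by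
    rw [← add_re, ← add_mul, hv, zero_mul, zero_re]
  rw [e1, gn_eq a vs v]
  linarith

/-- The natural share. -/
noncomputable def bn (ys vs : ℂ) : ℝ :=
  (Lg (ys + vs).im (ys + vs).re - Lg (ys - vs).im (ys - vs).re) / (2 * Real.pi * vs.im)

/-- The natural shares add up to `a`. -/
theorem sum_bn {ι : Type*} (s : Finset ι) (a : ℝ) (ys : ι → ℂ) (vs : ℂ) (hi : vs.im ≠ 0)
    (hv : 2 * Real.pi * I * (1 - a * vs) + ∑ j ∈ s, lv (ys j) vs = 0) :
    ∑ j ∈ s, bn (ys j) vs = a := by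
  have hpi := Real.pi_ne_zero
  have h := congrArg Complex.re hv
  rw [add_re, re_sum, zero_re] at h
  have e1 : (2 * Real.pi * I * (1 - a * vs)).re = 2 * Real.pi * (a * vs.im) := by
    simp only [mul_re, mul_im, sub_re, sub_im, one_re, one_im, ofReal_re, ofReal_im, I_re, I_im,
      re_ofNat, im_ofNat]
    ring
  have e2 : ∀ j ∈ s, (lv (ys j) vs).re = -(2 * Real.pi * vs.im) * bn (ys j) vs := by
    intro j _
    unfold lv bn
    rw [sub_re, hh_re, hh_re]
    field_simp
    ring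
  rw [e1, Finset.sum_congr rfl e2, ← Finset.mul_sum] at h
  have h3 : 2 * Real.pi * vs.im * (a - ∑ j ∈ s, bn (ys j) vs) = 0 := by linarith
  rcases mul_eq_zero.1 h3 with h4 | h4
  · exact absurd h4 (by positivity)
  · linarith

end Pool.Agent.S5
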