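import Pool.Agent.S5.I.NumPv

/-!
# The point evaluation: soundness of the programs
-/

set_option autoImplicit false

namespace Pool.Agent.S5.Num

open Complex Pool.Agent.H63.VC3 Pool.Agent.H63.VC5 Pool.Agent.S3

theorem eLv_ge {M : ℕ} (hM : (2048 : ℝ) ≤ M) :
    68 + UU * (512 / ((M : ℝ) - 512)) ≤ ((eLv M : ℕ) : ℝ) := by
  have hM' : 2048 ≤ M := by exact_mod_cast hM
  have e : eLv M = 70 + 144115188075855872 / (M - 512) := rfl
  have b1 := (div_bounds 144115188075855872 (show 0 < M - 512 by omega)).1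
  rw [Nat.cast_sub (by omega : 512 ≤ M)] at b1
  rw [e, Nat.cast_add]
  clear e hM'
  generalize ((144115188075855872 / (M - 512) : ℕ) : ℝ) = r at b1 ⊢
  push_cast at b1 ⊢
  have e2 : UU * (512 / ((M : ℝ) - 512)) = 144115188075855872 / ((M : ℝ) - 512) := by
    unfold UU
    ring
  rw [e2]
  linarith

theorem eCv_ge {M : ℕ} (hM : (2048 : ℝ) ≤ M) (hM3 : (M : ℝ) ≤ 3 * UU) :
    2 * Real.pi * UU ^ 2 * (512 / ((M : ℝ) - 512) ^ 2) + (1 + UU / M / 10) ≤
      ((eCv M : ℕ) : ℝ) := by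
  have hU := UU_pos
  have hM' : 2048 ≤ M := by exact_mod_cast hM
  have e : eCv M = 8 + 254956226970902638376024432181248 / ((M - 512) * (M - 512)) := rfl
  have b1 := (div_bounds 254956226970902638376024432181248
    (show 0 < (M - 512) * (M - 512) from Nat.mul_pos (by omega) (by omega))).1
  rw [Nat.cast_mul, Nat.cast_sub (by omega : 512 ≤ M)] at b1
  rw [e, Nat.cast_add]
  clear e hM'
  generalize ((254956226970902638376024432181248 / ((M - 512) * (M - 512)) : ℕ) : ℝ) = r at b1 ⊢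
  push_cast at b1 ⊢
  set m : ℝ := (M : ℝ) - 512 with hm
  have hm0 : 0 < m := by rw [hm]; linarith
  have hM0 : (0 : ℝ) < M := by linarith
  have e2 : (254956226970902638376024432181248 : ℝ) / (m * m) = 3218 * (UU ^ 2 / m ^ 2) := by
    unfold UU
    ring
  rw [e2] at b1
  have e3 : 2 * Real.pi * UU ^ 2 * (512 / m ^ 2) = 1024 * Real.pi * (UU ^ 2 / m ^ 2) := by ring
  rw [e3]
  have h0 : 0 < UU ^ 2 / m ^ 2 := by positivity
  have h1 : UU / M / 10 ≤ UU ^ 2 / m ^ 2 := by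
    rw [div_div, div_le_div_iff₀ (by positivity) (by positivity)]
    have h2 : m ^ 2 ≤ (M : ℝ) ^ 2 := by
      apply pow_le_pow_left₀ hm0.le
      linarith
    have h3 : (M : ℝ) ^ 2 ≤ UU * (M * 10) := by
      have := mul_le_mul_of_nonneg_left hM3 hM0.le
      nlinarith
    have h4 := mul_le_mul_of_nonneg_left (h2.trans h3) hU.le
    nlinarith
  have pi2 := Real.pi_lt_d20
  have h5 : 1024 * Real.pi * (UU ^ 2 / m ^ 2) ≤ 3217 * (UU ^ 2 / m ^ 2) :=
    mul_le_mul_of_nonneg_right (by linarith) h0.le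
  linarith

theorem Bsp.cr {x s : ℝ} {a b M : ℕ} (h : Bsp x s a b M) :
    |KK + UU * (Real.pi * cot (Real.pi * ((x : ℂ) + s * I))).re -
      ((4503599627370496 + 497805226624462151055740764160 * b / (a * a + b * b) : ℕ) : ℝ)| ≤
      ((eCv M : ℕ) : ℝ) := by
  have hU := UU_pos
  refine le_trans ?_ (eCv_ge h.hM h.M_le)
  have h1 := (quot_err (by norm_num : (0 : ℝ) < 512) (by linarith [h.hM]) h.sq_le h.hn).2
  have h2 := quot_round (n := b) (by linarith [h.hM] : (0 : ℝ) < M) h.sq_le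
    (by linarith only [sq_nonneg (a : ℝ)])
  rw [cot_re_ww h.hα, Nat.cast_add]
  generalize ((497805226624462151055740764160 * b / (a * a + b * b) : ℕ) : ℝ) = r at h2 ⊢
  have h3 : 0 ≤ 2 * Real.pi * UU ^ 2 := by positivity
  have h4 := mul_le_mul_of_nonneg_left h1 h3
  rw [← abs_of_nonneg h3, ← abs_mul, abs_of_nonneg h3, mul_sub] at h4
  have e1 : 2 * Real.pi * UU ^ 2 * ((ww x s).im * UU / (((1 - (ww x s).re) * UU) ^ 2 +
      ((ww x s).im * UU) ^ 2)) = UU * (2 * Real.pi * (ww x s).im /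
      ((1 - (ww x s).re) ^ 2 + (ww x s).im ^ 2)) := by
    have : ((1 - (ww x s).re) * UU) ^ 2 + ((ww x s).im * UU) ^ 2 =
      UU ^ 2 * ((1 - (ww x s).re) ^ 2 + (ww x s).im ^ 2) := by ring
    rw [this]
    have h5 : 0 < (1 - (ww x s).re) ^ 2 + (ww x s).im ^ 2 := by
      have := h.hα
      have : 0 < 1 - (ww x s).re := by linarith
      positivity
    field_simp
  rw [e1] at h4
  have h5 := abs_le.1 h4
  have h6 := abs_le.1 h2
  have e4 : ((4503599627370496 : ℕ) : ℝ) = KK := by norm_num [KK]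
  rw [e4, abs_le]
  constructor <;> linarith only [h5.1, h5.2, h6.1, h6.2]

theorem Bsp.ci {x s : ℝ} {a b M : ℕ} (h : Bsp x s a b M) :
    |KK - UU * (Real.pi * cot (Real.pi * ((x : ℂ) + s * I))).im -
      ((3619319908366941 + 497805226624462151055740764160 * a / (a * a + b * b) : ℕ) : ℝ)| ≤
      ((eCv M : ℕ) : ℝ) + 1 := by
  have hU := UU_pos
  refine le_trans ?_ (add_le_add_left (eCv_ge h.hM h.M_le) 1)
  have h1 := (quot_err (by norm_num : (0 : ℝ) < 512) (by linarith [h.hM]) h.sq_le h.hn).1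
  have h2 := quot_round (n := a) (by linarith [h.hM] : (0 : ℝ) < M) h.sq_le
    (by linarith only [sq_nonneg (b : ℝ)])
  rw [cot_im_ww h.hα, Nat.cast_add]
  generalize ((497805226624462151055740764160 * a / (a * a + b * b) : ℕ) : ℝ) = r at h2 ⊢
  have h3 : 0 ≤ 2 * Real.pi * UU ^ 2 := by positivity
  have h4 := mul_le_mul_of_nonneg_left h1 h3
  rw [← abs_of_nonneg h3, ← abs_mul, abs_of_nonneg h3, mul_sub] at h4
  have e1 : 2 * Real.pi * UU ^ 2 * ((1 - (ww x s).re) * UU / (((1 - (ww x s).re) * UU) ^ 2 +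
      ((ww x s).im * UU) ^ 2)) = UU * (2 * Real.pi * (1 - (ww x s).re) /
      ((1 - (ww x s).re) ^ 2 + (ww x s).im ^ 2)) := by
    have : ((1 - (ww x s).re) * UU) ^ 2 + ((ww x s).im * UU) ^ 2 =
      UU ^ 2 * ((1 - (ww x s).re) ^ 2 + (ww x s).im ^ 2) := by ring
    rw [this]
    have h5 : 0 < (1 - (ww x s).re) ^ 2 + (ww x s).im ^ 2 := by
      have := h.hα
      have : 0 < 1 - (ww x s).re := by linarith
      positivity
    field_simp
  rw [e1] at h4
  have h5 := abs_le.1 h4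
  have h6 := abs_le.1 h2
  have pi1 := Real.pi_gt_d20
  have pi2 := Real.pi_lt_d20
  have h7 : |UU * Real.pi - 884279719003555| ≤ 1 := by
    unfold UU
    rw [abs_le]
    constructor <;> linarith
  have h8 := abs_le.1 h7
  have e4 : ((3619319908366941 : ℕ) : ℝ) = KK - 884279719003555 := by norm_num [KK]
  rw [e4, mul_sub, abs_le]
  constructor <;> linarith only [h5.1, h5.2, h6.1, h6.2, h8.1, h8.2]

/-- The statement about the four values. -/
structure LtOK (x s : ℝ) (l t eL cr ci eC : ℕ) : Prop where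
  l : |KK + UU * Lg s x - l| ≤ eL
  t : |KK + UU * (hh ((x : ℂ) + s * I)).im - t| ≤ eL
  cr : |KK + UU * (Real.pi * cot (Real.pi * ((x : ℂ) + s * I))).re - cr| ≤ eC
  ci : |KK - UU * (Real.pi * cot (Real.pi * ((x : ℂ) + s * I))).im - ci| ≤ (eC : ℝ) + 1

theorem ltv_sound {X S D a b M : ℕ} (hD : 1 ≤ D) (hX : 2 * X ≤ D) (hS : 2 * S ≤ D)
    (hB : Bsp ((X : ℝ) / D) ((S : ℝ) / D) a b M) {k : ℕ → ℕ → ℕ → ℕ → ℕ → ℕ → Bool}
    (h : ltv X S D a b M k = true) :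
    ∃ l t eL cr ci eC : ℕ, LtOK ((X : ℝ) / D) ((S : ℝ) / D) l t eL cr ci eC ∧
      k l t eL cr ci eC = true := by
  have hD' : (0 : ℝ) < D := by exact_mod_cast hD
  have hX' : 2 * (X : ℝ) ≤ D := by exact_mod_cast hX
  have h1 : (X : ℝ) / D ≤ 1 / 2 := by rw [div_le_iff₀ hD']; linarith
  have h0 : 0 ≤ (X : ℝ) / D := div_nonneg (Nat.cast_nonneg X) hD'.le
  unfold ltv at h
  simp only [fN_eq, cond_true_iff] at h
  obtain ⟨h2, h3, h4⟩ := h
  have h2 := Nat.ble_eq.mp h2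
  have h3 := Nat.ble_eq.mp h3
  have s1 := lgp_sound hD hS h0 h1 hB
  have s2 := thn_sound hD hX hB
  have s3 := eLv_ge hB.hM
  have s4 := hB.cr
  have s5 := hB.ci
  refine ⟨_, _, _, _, _, _, ⟨?_, ?_, s4, s5⟩, h4⟩
  · rw [sub_eq', Nat.cast_sub h2, Nat.cast_ofNat, abs_sub_comm]
    exact s1.trans s3
  · have e : ((4945739486872273 : ℕ) : ℝ) = KK + 442139859501777 := by norm_num [KK]
    rw [sub_eq', Nat.cast_sub h3, e, abs_sub_comm]
    exact s2.trans (le_trans (by linarith) s3)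

theorem bsK_sound {X S D : ℕ} {k : ℕ → ℕ → ℕ → ℕ → ℕ → Bool} (h : bsK X S D k = true) :
    1 ≤ D ∧ 2 * X ≤ D ∧ 2 * S ≤ D ∧ ∃ c d a b M : ℕ, Ap (ww ((X : ℝ) / D) ((S : ℝ) / D)) c d 512 ∧
      Bsp ((X : ℝ) / D) ((S : ℝ) / D) a b M ∧
      513 ≤ mx' (ds' 4785074604081152 c) (ds' d 4503599627370496) ∧ k c d a b M = true := by
  unfold bsK at h
  simp only [cond_true_iff] at h
  obtain ⟨hD, hX, hS, h⟩ := h
  have hD : 1 ≤ D := Nat.ble_eq.mp hD
  have hX : 2 * X ≤ D := Nat.ble_eq.mp hX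
  have hS : 2 * S ≤ D := Nat.ble_eq.mp hS
  refine ⟨hD, hX, hS, ?_⟩
  have hD' : (0 : ℝ) < D := by exact_mod_cast hD
  have hX' : 2 * (X : ℝ) ≤ D := by exact_mod_cast hX
  have h1 : (X : ℝ) / D ≤ 1 / 2 := by rw [div_le_iff₀ hD']; linarith
  have h0 : 0 ≤ (X : ℝ) / D := div_nonneg (Nat.cast_nonneg X) hD'.le
  have hs0 : 0 ≤ (S : ℝ) / D := div_nonneg (Nat.cast_nonneg S) hD'.le
  obtain ⟨c, d, h2, h3⟩ := wst_sound hD (by omega : X ≤ D) hS (fun c d => fN (fun a => fN (fun b =>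
      fN (fun M => cond (Nat.ble 2048 M) (cond (Nat.ble 1 a) (k c d a b M) false) false)
        (mx' a b)) (Nat.sub d 4503599627370496)) (Nat.sub 4785074604081152 c))
  rw [h2] at h
  simp only [fN_eq, cond_true_iff] at h
  obtain ⟨hM, ha, h⟩ := h
  have hM := Nat.ble_eq.mp hM
  have ha := Nat.ble_eq.mp ha
  refine ⟨c, d, _, _, _, h3, bsp_of h0 h1 hs0 h3 hM ha, ?_, h⟩
  refine le_trans (le_trans (by norm_num) hM) ?_
  rw [mx'_eq, mx'_eq]
  apply max_le_max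
  · exact Nat.le_add_right _ _
  · exact Nat.le_add_right _ _

/-- Soundness of `ltK`. -/
theorem ltK_sound {X S D : ℕ} {k : ℕ → ℕ → ℕ → ℕ → ℕ → ℕ → Bool} (h : ltK X S D k = true) :
    ∃ l t eL cr ci eC : ℕ, LtOK ((X : ℝ) / D) ((S : ℝ) / D) l t eL cr ci eC ∧
      k l t eL cr ci eC = true := by
  unfold ltK at h
  obtain ⟨hD, hX, hS, c, d, a, b, M, _, hB, _, h1⟩ := bsK_sound h
  exact ltv_sound hD hX hS hB h1

/-- Soundness of `ptK`. -/
theorem ptK_sound {N X S D : ℕ} {k : ℕ → ℕ → ℕ → ℕ → ℕ → ℕ → ℕ → ℕ → Bool}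
    (h : ptK N X S D k = true) :
    ∃ r e l t eL cr ci eC : ℕ, LtOK ((X : ℝ) / D) ((S : ℝ) / D) l t eL cr ci eC ∧
      |Rf (((X : ℝ) / D : ℝ) + ((S : ℝ) / D : ℝ) * I) * UU + KK - r| ≤ e ∧
      k r e l t eL cr ci eC = true := by
  unfold ptK at h
  simp only [cond_true_iff] at h
  obtain ⟨hN, h⟩ := h
  have hN : N ≤ 1000 := Nat.ble_eq.mp hN
  obtain ⟨hD, hX, hS, c, d, a, b, M, h2, hB, hM, h1⟩ := bsK_sound h
  have hS0 : (0 : ℝ) ≤ (S : ℝ) / D := div_nonneg (Nat.cast_nonneg S) (Nat.cast_nonneg D)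
  have hw := ww_norm_le (x := (X : ℝ) / D) hS0
  have ha : Ap (ww ((X : ℝ) / D) ((S : ℝ) / D) ^ (0 + 1)) c d (515 * ((0 : ℕ) + 1)) := by
    rw [zero_add, pow_one]
    exact h2.mono (by norm_num)
  have hs : |((0 : ℕ) : ℝ) - hk 0 - UU * (ds 0 (ww ((X : ℝ) / D) ((S : ℝ) / D))).im| ≤
      516 * ((0 : ℕ) : ℝ) := by
    simp [hk, ds]
  obtain ⟨a', b', s', h3, h4, h5⟩ := ser_sound hw h2 (fun _ a' b' s =>
      fN (fun n => fN (fun p => fN (fun e => cond (Nat.ble n p)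
        (fN (fun r => ltv X S D a b M (k r e)) (Nat.sub p n)) false)
            (rfe N c d a' b')) (rfp N X S D)) (rfn S D s)) N (i := 0) (by omega) ha hs
  rw [h3] at h1
  simp only [fN_eq, cond_true_iff] at h1
  obtain ⟨h6, h7⟩ := h1
  have h6 := Nat.ble_eq.mp h6
  rw [zero_add] at h4 h5
  obtain ⟨l, t, eL, cr, ci, eC, h8, h9⟩ := ltv_sound hD hX hS hB h7
  refine ⟨_, _, l, t, eL, cr, ci, eC, h8, rf_final hD (by omega) hS hM h2 ?_ ?_ h6, h9⟩
  · refine h4.mono ?_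
    push_cast
    linarith
  · refine h5.trans ?_
    push_cast
    linarith

end Pool.Agent.S5.Num
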