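import Pool.Agent.S5.I.Defs

/-!
# The slots of the open nodes: parameter region and statements

A slot of an open node (end or inner node with `a ≥ 5`) has the critical values `ys = t + i η` (edge)
and `vs = x + i ν` (node). All inequalities hold on one region `VU` of these four parameters. The flat piece of the contour of `v` is
`|Re v| ≤ 7/25`.
`E = Ev 2 (bn ys vs) ys vs y v` is the node function of the slot minus its (complex) tangent plane.
-/

set_option autoImplicit false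

namespace Pool.Agent.S5

open Pool.Agent.H63.VC3 Pool.Agent.S3 Complex MeasureTheory Filter Topology Set

/-- The real slope of a slot in the edge variable. -/
noncomputable def lamv (ys vs : ℂ) : ℝ :=
  2 * Lg ys.im (1 / 2 - ys.re) - Lg (ys.im - vs.im) (ys.re - vs.re) -
    Lg (ys.im + vs.im) (ys.re + vs.re)

/-- The real slope of a slot in the node variable (up to sign). -/
noncomputable def Lamv (ys vs : ℂ) : ℝ :=
  Lg (ys.im + vs.im) (ys.re + vs.re) - Lg (ys.im - vs.im) (ys.re - vs.re)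

/-- The parameter region of the slots of open nodes with `a ≥ 5`. -/
structure VU (ys vs : ℂ) : Prop where
  x0 : 0 < vs.re
  x1 : vs.re ≤ 215 / 1000
  n0 : 0 < vs.im
  n1 : vs.im ≤ 88 / 1000
  g : 75 / 1000 ≤ ys.re - vs.re
  t0 : 245 / 1000 ≤ ys.re
  t1 : ys.re ≤ 342 / 1000
  p : ys.re + vs.re ≤ 545 / 1000
  e0 : -(135 / 1000) ≤ ys.im
  e1 : ys.im ≤ 1 / 10
  d : vs.im - ys.im ≤ 165 / 1000
  l : lamv ys vs ≤ 38 / 100
  l2 : lamv ys vs + 2 * ys.im + vs.im ≤ 1 / 2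
  b : 8 * vs.im ≤ Lamv ys vs
  b2 : 3 / 4 * vs.im ≤ Lamv ys vs * (7 / 25 - vs.re)

/-- The slot function with weight two and the natural share. -/
noncomputable def Es (ys vs y v : ℂ) : ℝ := Ev 2 (bn ys vs) ys vs y v

/-- `y` is on the flat piece of its contour. -/
def Yf (ys y : ℂ) : Prop := y.im = ys.im ∧ -(1 / 4) ≤ y.re ∧ y.re ≤ 1 / 2

/-- `y` is on the right leg. -/
def Yr (ys y : ℂ) : Prop := y.re = 1 / 2 ∧ y.im * (y.im - ys.im) ≤ 0

/-- `y` is on the left leg. -/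
def Yl (ys y : ℂ) : Prop := y.re = -(1 / 4) ∧ y.im * (y.im - ys.im) ≤ 0

/-- `v` is on the flat piece of its contour. -/
def Vf (vs v : ℂ) : Prop := v.im = vs.im ∧ |v.re| ≤ 7 / 25

/-- `v` is on one of the vertical pieces. -/
def Vv (vs v : ℂ) : Prop := |v.re| = 7 / 25 ∧ 0 ≤ v.im ∧ v.im ≤ vs.im

/-- `v` is on one of the real pieces. -/
def Vr (v : ℂ) : Prop := v.im = 0 ∧ 7 / 25 ≤ |v.re| ∧ |v.re| ≤ 1 / 2

/-- `v` is on its contour. -/
def Vc (vs v : ℂ) : Prop := Vf vs v ∨ Vv vs v ∨ Vr v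

/-! ### The statements -/

/-- Flats. -/
def VNB : Prop := ∀ ys vs y v : ℂ, VU ys vs → Yf ys y → Vf vs v →
  Es ys vs y v ≤ 0 ∧ (Es ys vs y v = 0 → y = ys ∧ v = vs)

/-- Vertical and real pieces of `v`, flat piece of `y`. -/
def VNC : Prop := ∀ ys vs y v : ℂ, VU ys vs → Yf ys y → Vv vs v ∨ Vr v →
  Es ys vs y v < 0

/-- The right leg. -/
def VNR : Prop := ∀ ys vs y v : ℂ, VU ys vs → Yr ys y → Vc vs v → Es ys vs y v < 0

/-- The left leg. -/
def VNL : Prop := ∀ ys vs y v : ℂ, VU ys vs → Yl ys y → Vc vs v → Es ys vs y v < 0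

/-- The other slot of a node with a low edge: `v` is real and at least `1/4`. -/
def VNQ : Prop := ∀ ys vs y v : ℂ, VU ys vs → Yf ys y ∨ Yr ys y ∨ Yl ys y → v.im = 0 →
  1 / 4 ≤ v.re → v.re ≤ 1 / 2 → Es ys vs y v < 1 / 100

/-- A real edge. -/
def VNE : Prop := ∀ ys vs y v : ℂ, VU ys vs → y.im = 0 → 1 / 4 ≤ y.re → y.re ≤ 1 / 2 →
  Vc vs v ∨ (v.im = 0 ∧ 1 / 4 ≤ v.re ∧ v.re ≤ 1 / 2) → Es ys vs y v < 15 / 100

end Pool.Agent.S5
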