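import Pool.Agent.S5.I.Tab
import Pool.Agent.S5.I.VDefs

/-!
# The statements for the nodes

Everything is in the frame of the node (`c < 0`). A slot `s : Slt` has the critical point `s.ys` and the
slope `s.lam`; a missing edge is the dummy `y = 1 / 2`.
-/

set_option autoImplicit false

namespace Pool.Agent.S5

open Pool.Agent.H63.VC3 Pool.Agent.S3 Complex MeasureTheory Filter Topology Set

/-- A slot of a node: `ex`: the edge exists; `S`: the node `x` at the other end has the same sign;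
`z1` is the end of the contour of the variable of `x`. -/
structure Slt where
  ex : Bool
  S : Bool
  x : Nt
  z1 : ℝ
  ys : ℂ
  lam : ℂ

/-- The contribution of a slot. -/
noncomputable def Slt.e (s : Slt) (n : Nt) (pc : Pc) (y : ℂ) (w : ℝ) : ℝ :=
  if s.ex = true then slE s.S n s.x pc s.lam s.ys y w else 0

/-- `y` is on the piece (of an existing edge); only nodes with a lattice variable force an edge by
their variable, and only inner nodes with at most four half twists force an edge by a small index. -/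
def Slt.InE (s : Slt) (pc : Pc) (y : ℂ) (w : ℝ) : Prop :=
  pc.In (3 / 20) s.ys.im y w ∧
    (pc = .rz .far ∨ pc = .rz .both → (s.x.a = 3 ∨ s.x = ⟨4, false⟩) ∧ s.z1 ≤ y.re) ∧
    (pc = .re .far ∨ pc = .re .both → s.x.e = false ∧ s.x.a ≤ 4)

/-- `y` is on the piece. -/
def Slt.In (s : Slt) (pc : Pc) (y : ℂ) (w : ℝ) : Prop :=
  if s.ex = true then s.InE pc y w else pc = .F ∧ y = 1 / 2 ∧ w = 0

/-- The node does not force the edge to be real. -/
def Pc.free (pc : Pc) : Prop := pc.std ∨ pc = .re .far ∨ pc = .rz .far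

/-- The variable of the node forces the edge to be real. -/
def Pc.frcZ (pc : Pc) : Prop := pc = .rz .own ∨ pc = .rz .both ∨ pc = .re .far

/-- The other edge of the node has a small index and forces the edge to be real. -/
def Pc.frcT (pc : Pc) : Prop := pc = .re .own ∨ pc = .re .both

/-- **Two half twists.** -/
structure VCl (n : Nt) (sa sb : Slt) : Prop where
  U : ∀ (a b : ℂ) (wa wb : ℝ) (pa pb : Pc), pa.free → pb.free → sa.In pa a wa → sb.In pb b wb →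
    Ecl sa.ys sb.ys a b + sa.e n pa a wa + sb.e n pb b wb < 0 ∨
      (a = sa.ys ∧ b = sb.ys ∧ pa = .F ∧ pb = .F)
  Ta : ∀ (a b : ℂ) (wa wb : ℝ) (pb : Pc), sa.ex = true → (sb.ex = true → pb.frcT) →
    sa.In .lo a wa → sb.In pb b wb → 0 ≤ (a + b).re →
    Ecl sa.ys sb.ys a b + sa.e n .lo a wa + sb.e n pb b wb < 0
  Tb : ∀ (a b : ℂ) (wa wb : ℝ) (pa : Pc), sb.ex = true → (sa.ex = true → pa.frcT) →
    sa.In pa a wa → sb.In .lo b wb → 0 ≤ (a + b).re →
    Ecl sa.ys sb.ys a b + sa.e n pa a wa + sb.e n .lo b wb < 0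
  quad : ∃ c : ℝ, 0 < c ∧ ∃ ρ : ℝ, 0 < ρ ∧ ∀ s t : ℝ, |s| ≤ ρ → |t| ≤ ρ →
    (sa.ex = false → s = 0) → (sb.ex = false → t = 0) →
    Ecl sa.ys sb.ys (sa.ys + s) (sb.ys + t) ≤ -(c * (s ^ 2 + t ^ 2))

/-- **Nodes with a lattice variable**: `sy` is the slot of the Bailey step, `sb` the other slot,
`zs` the critical point, `E` is `Ez3 sy.ys zs sb.ys` or `Ez4 sy.ys zs sb.ys`. -/
structure VZ (E : ℂ → ℂ → ℂ → ℝ) (n : Nt) (z1 : ℝ) (zs : ℂ) (sy sb : Slt) : Prop where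
  U : ∀ (y z b : ℂ) (wy w wb : ℝ) (py pb : Pc), py.free → pb.free → sy.In py y wy →
    sb.In pb b wb → LimR (-z1) z1 (3 / 20) zs.im z w →
    E y z b + sy.e n py y wy + sb.e n pb b wb < w ∨
      (y = sy.ys ∧ z = zs ∧ b = sb.ys ∧ py = .F ∧ pb = .F ∧ w = 0)
  P : ∀ (y z b : ℂ) (wy wb : ℝ) (py pb : Pc), (sy.ex = true → py.frcZ) → pb.free →
    sy.In py y wy → sb.In pb b wb → z.im = 0 → z1 ≤ z.re → z.re ≤ 1 / 2 → z.re ≤ y.re →
    E y z b + sy.e n py y wy + sb.e n pb b wb < 0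
  N : ∀ (y z b : ℂ) (wy wb : ℝ) (py pb : Pc), py.free → (sb.ex = true → pb.frcZ) →
    sy.In py y wy → sb.In pb b wb → z.im = 0 → -(1 / 2) ≤ z.re → z.re ≤ -z1 →
    0 ≤ z.re + b.re → E y z b + sy.e n py y wy + sb.e n pb b wb < 0
  Ty : ∀ (y z b : ℂ) (wy wb : ℝ) (pb : Pc), sy.ex = true → (sb.ex = true → pb.frcT) →
    sy.In .lo y wy → sb.In pb b wb → z.im = 0 → -(1 / 2) ≤ z.re → z.re ≤ 1 / 2 → z.re ≤ y.re →
    0 ≤ z.re + b.re → E y z b + sy.e n .lo y wy + sb.e n pb b wb < 0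
  Tb : ∀ (y z b : ℂ) (wy wb : ℝ) (py : Pc), sb.ex = true → (sy.ex = true → py.frcT) →
    sy.In py y wy → sb.In .lo b wb → z.im = 0 → -(1 / 2) ≤ z.re → z.re ≤ 1 / 2 → z.re ≤ y.re →
    0 ≤ z.re + b.re → E y z b + sy.e n py y wy + sb.e n .lo b wb < 0
  quad : ∃ c : ℝ, 0 < c ∧ ∃ ρ : ℝ, 0 < ρ ∧ ∀ s x t : ℝ, |s| ≤ ρ → |x| ≤ ρ → |t| ≤ ρ →
    (sy.ex = false → s = 0) → (sb.ex = false → t = 0) →
    E (sy.ys + s) (zs + x) (sb.ys + t) ≤ -(c * (s ^ 2 + x ^ 2 + t ^ 2))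

/-- The slot function of a node with an integration variable. -/
noncomputable def Slt.v (s : Slt) (vs y v : ℂ) : ℝ := if s.ex = true then Es s.ys vs y v else 0

/-- **Slots of the nodes with an integration variable** (of existing edges); `x1` is the end of the
flat piece of the contour of the variable. -/
structure VS (n : Nt) (x1 : ℝ) (vs : ℂ) (s : Slt) : Prop where
  U : ∀ (y v : ℂ) (w : ℝ) (pc : Pc), pc.free → s.InE pc y w →
    LimV vs.im x1 v → Es s.ys vs y v + slE s.S n s.x pc s.lam s.ys y w < 0 ∨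
      (y = s.ys ∧ v = vs ∧ pc = .F)
  L : ∀ (y v : ℂ) (w : ℝ), s.InE .lo y w → v.im = 0 → -y.re ≤ v.re →
    v.re ≤ 1 / 2 → Es s.ys vs y v + slE s.S n s.x .lo s.lam s.ys y w < -(1 / 50)
  Q : n.e = false → ∀ (y v : ℂ) (w : ℝ) (pc : Pc), pc.free → s.InE pc y w →
    v.im = 0 → 1 / 4 ≤ v.re → v.re ≤ 1 / 2 → Es s.ys vs y v + slE s.S n s.x pc s.lam s.ys y w < 1 / 50
  quad : ∃ c : ℝ, 0 < c ∧ ∃ ρ : ℝ, 0 < ρ ∧ ∀ s' x : ℝ, |s'| ≤ ρ → |x| ≤ ρ →
    Es s.ys vs (s.ys + s') (vs + x) ≤ -(c * (s' ^ 2 + x ^ 2))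

end Pool.Agent.S5
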