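import Pool.Agent.S5.I.Ts
import Pool.Agent.S5.I.VOK

/-!
# Rows of an end with `a = 4`: the program

The bounds of a class of slots of END 4, and the certificates for the pieces.
-/

set_option autoImplicit false

namespace Pool.Agent.S5.Tb

open Pool.Agent.H63.VC3 Pool.Agent.S3 Complex MeasureTheory Filter Topology Set

/-- The bounds for a class of slots. The tangent plane is normalized at `a / 200 + b / 200 I`. Units:
positions for the heights `e`, `n` of `ys`, `vs`; `200 / 2 ^ 20` for the slopes `l` (real part), `m`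
(imaginary part) and `k`; `1 / 2 ^ 20` for the values `v0`, `vF`, and for `q`. -/
structure Gd where
  a : ℤ
  b : ℤ
  e0 : ℕ
  e1 : ℕ
  n0 : ℕ
  n1 : ℕ
  l0 : ℤ
  l1 : ℤ
  m0 : ℤ
  m1 : ℤ
  k : ℤ
  v0 : ℤ
  vF : ℤ
  q0 : ℤ
  q1 : ℤ

/-- The potential of an end with `a = 4`, with weight `w`. -/
noncomputable def Vw (w : ℝ) (y v : ℂ) : ℝ := gn 4 v + w * -Rf (1 / 2 - y) - Rf (y - v) - Rf (y + v)

/-- The point of normalization. -/
noncomputable def Gd.y0 (g : Gd) : ℂ := (((g.a : ℝ) / 200 : ℝ) : ℂ) + (((g.b : ℝ) / 200 : ℝ) : ℂ) * I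

/-- The value of the tangent plane at `y`. -/
noncomputable def pla (w : ℝ) (ys vs y : ℂ) : ℝ := Vw w ys vs + (ly w ys vs * (y - ys)).re

/-- **The slot belongs to the class.** -/
structure P4 (w : ℝ) (g : Gd) (ys vs : ℂ) : Prop where
  e : Ps g.e0 g.e1 ys.im
  n : Ps g.n0 g.n1 vs.im
  l0 : (g.l0 : ℝ) * 200 ≤ (ly w ys vs).re * 1048576
  l1 : (ly w ys vs).re * 1048576 ≤ (g.l1 : ℝ) * 200
  m0 : (g.m0 : ℝ) * 200 ≤ (ly w ys vs).im * 1048576
  m1 : (ly w ys vs).im * 1048576 ≤ (g.m1 : ℝ) * 200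
  v0 : (g.v0 : ℝ) ≤ pla w ys vs g.y0 * 1048576
  vF : (g.vF : ℝ) - (g.k : ℝ) * 200 * (ys.im - g.b / 200) ≤
    (pla w ys vs g.y0 - (ly w ys vs).im * (ys.im - g.b / 200)) * 1048576
  q0 : w ≠ 2 → (g.q0 : ℝ) ≤ (hh (1 / 2 - ys)).im * 1048576
  q1 : w ≠ 2 → (hh (1 / 2 - ys)).im * 1048576 ≤ (g.q1 : ℝ)

/-- The parts of an integer. -/
def toC (z : ℤ) (k : ℕ → ℕ → Bool) : Bool :=
  fN (fun p => fN (fun n => k p n) (Int.toNat (-z))) (Int.toNat z)

/-- A certificate: `Vw w y v < c0 + c1 Re y + c2 Im y` on a box. -/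
def cl (w : ℕ) (c0 c1 c2 : ℤ) (ta tb sa sb xa xb ha hb : ℕ) : Bool :=
  toC (c0 - 1) fun c0p c0n => toC c1 fun c1p c1n => toC c2 fun c2p c2n =>
    bb (tst w c0p c0n c1p c1n c2p c2n 0 0 6588397 0 26353589) 60 ta tb sa sb xa xb ha hb

/-- The real pieces of the contour of `v`. -/
def vr (w : ℕ) (c0 c1 c2 : ℤ) (ta tb sa sb : ℕ) : Bool :=
  cond (cl w c0 c1 c2 ta tb sa sb 110080 115200 102400 102400)
    (cl w c0 c1 c2 ta tb sa sb 89600 94720 102400 102400) false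

/-- The whole contour of `v`. -/
def vf (w : ℕ) (c0 c1 c2 : ℤ) (ta tb sa sb n0 n1 : ℕ) : Bool :=
  cond (cl w c0 c1 c2 ta tb sa sb 94720 110080 n0 n1)
    (cond (cl w c0 c1 c2 ta tb sa sb 110080 110080 102400 n1)
      (cond (cl w c0 c1 c2 ta tb sa sb 94720 94720 102400 n1)
        (vr w c0 c1 c2 ta tb sa sb) false) false) false

/-- The position of the point of normalization. -/
def Gd.tp (g : Gd) : ℕ := Int.toNat (102400 + 128 * g.a)

/-- The position of the point of normalization. -/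
def Gd.sp (g : Gd) : ℕ := Int.toNat (102400 + 128 * g.b)

/-- Good data. -/
def Gd.ok (g : Gd) : Bool :=
  decide (40 ≤ g.a ∧ g.a ≤ 90 ∧ -90 ≤ g.b ∧ g.b ≤ 90 ∧ g.e0 ≤ g.sp ∧ g.sp ≤ g.e1 ∧ 102400 < g.n0 ∧
    g.n1 ≤ 108800)

/-- Flats. -/
def rF (w : ℕ) (g : Gd) (h : ℤ) : Bool :=
  cond (vr w (g.vF + h - g.l1 * g.a + g.k * g.b) (200 * g.l1) (-(200 * g.k)) 106240 g.tp g.e0 g.e1)
    (vr w (g.vF + h - g.l0 * g.a + g.k * g.b) (200 * g.l0) (-(200 * g.k)) g.tp 115200 g.e0 g.e1) false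

/-- Flats. -/
def rG (w : ℕ) (g : Gd) (h : ℤ) (ta tb : ℕ) : Bool :=
  vf w (g.vF + h - g.l1 * g.a + g.k * g.b) (200 * g.l1) (-(200 * g.k)) ta tb g.e0 g.e1 g.n0 g.n1

/-- Legs, `t` is the position of `Re y`, `l` the slope. -/
def rL (w : ℕ) (g : Gd) (h l : ℤ) (t : ℕ) : Bool :=
  cond (vf w (g.v0 + h - l * g.a + g.m0 * g.b) (200 * l) (-(200 * g.m0)) t t (mn g.e0 102400) g.sp
      g.n0 g.n1)
    (vf w (g.v0 + h - l * g.a + g.m1 * g.b) (200 * l) (-(200 * g.m1)) t t g.sp (mx g.e1 102400)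
      g.n0 g.n1) false

/-- The constants on the rectangle. -/
def cB (g : Gd) (h l : ℤ) : ℤ := g.v0 + h - l * g.a + (cond (decide (0 ≤ g.b)) g.m0 g.m1) * g.b

/-- The slope in the upper half plane. -/
def cU (w : ℕ) (g : Gd) : ℤ :=
  3294198 + cond (Nat.beq w 2) 0 (cond (Nat.beq w 1) g.q0 (-g.q1))

/-- The slope in the lower half plane. -/
def cD (w : ℕ) (g : Gd) : ℤ :=
  -3294198 + cond (Nat.beq w 2) 0 (cond (Nat.beq w 1) g.q1 (-g.q0))

/-- Upper half of the rectangle. -/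
def bU (w : ℕ) (g : Gd) (h l : ℤ) (ta tb sa : ℕ) : Bool :=
  vf w (cB g h l) (200 * l) (cU w g) ta tb sa 106240 g.n0 g.n1

/-- Lower half of the rectangle. -/
def bD (w : ℕ) (g : Gd) (h l : ℤ) (ta tb sb : ℕ) : Bool :=
  vf w (cB g h l) (200 * l) (cD w g) ta tb 98560 sb g.n0 g.n1

/-- Both, as needed: `c` is true on the side of the flat. -/
def bX (c : Bool) (w : ℕ) (g : Gd) (h l : ℤ) (ta tb sa sb : ℕ) : Bool :=
  cond (cond (cond c (Nat.ble 102400 g.e1) (Nat.ble g.e0 102400)) (bU w g h l ta tb sa) true)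
    (cond (cond c (Nat.ble g.e0 102400) (Nat.ble 102400 g.e1)) (bD w g h l ta tb sb) true) false

/-- Real edges. -/
def rE1 (w : ℕ) (g : Gd) (h l : ℤ) (ta tb : ℕ) : Bool :=
  vf w (cB g h l) (200 * l) 0 ta tb 102400 102400 g.n0 g.n1

/-- Real edges. -/
def rE (w : ℕ) (g : Gd) (h : ℤ) (ta : ℕ) : Bool :=
  cond (Nat.ble g.tp ta) (rE1 w g h g.l0 ta 115200)
    (cond (rE1 w g h g.l1 ta g.tp) (rE1 w g h g.l0 g.tp 115200) false)

/-- The certificate for a piece. -/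
def rw4 (w : ℕ) (g : Gd) (h : ℤ) : Pc → Bool
  | .F => rF w g h
  | .H => rG w g h 102400 106240
  | .G => rG w g h 96000 102400
  | .L => rL w g h g.l1 96000
  | .R => rL w g h g.l0 115200
  | .T => cond (bX true w g h g.l1 102400 g.tp 106240 98560)
      (bX true w g h g.l0 g.tp 115200 106240 98560) false
  | .t => cond (bX false w g h g.l1 102400 g.tp 106240 98560)
      (bX false w g h g.l0 g.tp 115200 106240 98560) false
  | .U => bX true w g h g.l1 96000 102400 106240 98560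
  | .u => bX false w g h g.l1 96000 102400 106240 98560
  | .P => bX true w g h g.l1 96000 96000 102400 102400
  | .p => bX false w g h g.l1 96000 96000 102400 102400
  | .Q => bX true w g h g.l0 115200 115200 102400 102400
  | .q => bX false w g h g.l0 115200 115200 102400 102400
  | .re .far => rE w g h 108800
  | .rz .far => rE w g h 111360
  | _ => false

end Pool.Agent.S5.Tb
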