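import Pool.Agent.S5.I.NdC

/-!
# The critical point may be on the piece `H`

`VClH`, `NOKH`, `NDH`: the statements of the nodes where the equality case is allowed on both pieces
`F` and `H` (same potential at the critical point), and the inequality from them.
-/

set_option autoImplicit false

namespace Pool.Agent.S5

open Complex Pool.Agent.H63.VC Pool.Agent.H63.VC3 Pool.Agent.S3 Pool.Agent.S5.G
open scoped ComplexConjugate

/-- The pieces that can contain the critical point. -/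
def Pc.cr (pc : Pc) : Prop := pc = .F ∨ pc = .H

/-- **Two half twists**, the critical point on `F` or `H`. -/
structure VClH (n : Nt) (sa sb : Slt) : Prop where
  U : ∀ (a b : ℂ) (wa wb : ℝ) (pa pb : Pc), pa.free → pb.free → sa.In pa a wa → sb.In pb b wb →
    Ecl sa.ys sb.ys a b + sa.e n pa a wa + sb.e n pb b wb < 0 ∨
      (a = sa.ys ∧ b = sb.ys ∧ pa.cr ∧ pb.cr)
  Ta : ∀ (a b : ℂ) (wa wb : ℝ) (pb : Pc), sa.ex = true → (sb.ex = true → pb.frcT) →
    sa.In .lo a wa → sb.In pb b wb → 0 ≤ (a + b).re →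
    Ecl sa.ys sb.ys a b + sa.e n .lo a wa + sb.e n pb b wb < 0
  Tb : ∀ (a b : ℂ) (wa wb : ℝ) (pa : Pc), sb.ex = true → (sa.ex = true → pa.frcT) →
    sa.In pa a wa → sb.In .lo b wb → 0 ≤ (a + b).re →
    Ecl sa.ys sb.ys a b + sa.e n pa a wa + sb.e n .lo b wb < 0
  quad : ∃ c : ℝ, 0 < c ∧ ∃ ρ : ℝ, 0 < ρ ∧ ∀ s t : ℝ, |s| ≤ ρ → |t| ≤ ρ →
    (sa.ex = false → s = 0) → (sb.ex = false → t = 0) →
    Ecl sa.ys sb.ys (sa.ys + s) (sb.ys + t) ≤ -(c * (s ^ 2 + t ^ 2))

theorem VCl.toH {n : Nt} {sa sb : Slt} (h : VCl n sa sb) : VClH n sa sb where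
  U a b wa wb pa pb h1 h2 ha hb := by
    rcases h.U a b wa wb pa pb h1 h2 ha hb with h5 | ⟨h5, h6, h7, h8⟩
    · exact Or.inl h5
    · exact Or.inr ⟨h5, h6, Or.inl h7, Or.inl h8⟩
  Ta := h.Ta
  Tb := h.Tb
  quad := h.quad

/-- **The statement of a node.** -/
def NOKH (n : Nt) (ty : Ty) (f : Bool) (z1 : ℝ) (os : ℂ) (sa sb : Slt) (E : ℂ → ℂ → ℂ → ℝ) :
    Prop :=
  ∀ (o A B : ℂ) (w wa wb : ℝ) (pa pb : Pc), sa.In pa A wa → sb.In pb B wb →
    NSt ty f z1 os sa sb pa pb o A B w →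
    E o A B + sa.e n pa A wa + sb.e n pb B wb < w ∨
      (A = sa.ys ∧ B = sb.ys ∧ pa.cr ∧ pb.cr ∧ w = 0 ∧ (ty ≠ Ty.cl → o = os))

theorem NOK.toH {n : Nt} {ty : Ty} {f : Bool} {z1 : ℝ} {os : ℂ} {sa sb : Slt} {E : ℂ → ℂ → ℂ → ℝ}
    (h : NOK n ty f z1 os sa sb E) : NOKH n ty f z1 os sa sb E := by
  intro o A B w wa wb pa pb ha hb hs
  rcases h o A B w wa wb pa pb ha hb hs with h1 | ⟨h1, h2, h3, h4, h5⟩
  · exact Or.inl h1
  · exact Or.inr ⟨h1, h2, Or.inl h3, Or.inl h4, h5⟩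

theorem VClH.nok {n : Nt} {sa sb : Slt} (h : VClH n sa sb) (f : Bool) (z1 : ℝ) (os : ℂ) :
    NOKH n Ty.cl f z1 os sa sb (fun _ A B => Ecl sa.ys sb.ys A B) := by
  intro o A B w wa wb pa pb ha hb hs
  obtain ⟨hw, hs⟩ := hs
  subst hw
  rcases hs with ⟨h1, h2⟩ | ⟨h1, h2, h3, h4⟩ | ⟨h1, h2, h3, h4⟩
  · rcases h.U A B wa wb pa pb h1 h2 ha hb with h5 | ⟨h5, h6, h7, h8⟩
    · exact Or.inl h5
    · exact Or.inr ⟨h5, h6, h7, h8, rfl, fun h0 => absurd rfl h0⟩
  · subst h2
    exact Or.inl (h.Ta A B wa wb pb h1 h3 ha hb h4)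
  · subst h2
    exact Or.inl (h.Tb A B wa wb pa h1 h3 ha hb h4)

variable {m : ℕ} {a : ℕ → ℕ} {S fl : ℕ → Bool} {z ql qr : ℕ → ℂ} {r : ℕ → ℤ} {K : Cn m}

/-- The statement of the node `i`. -/
def NDH (m : ℕ) (a : ℕ → ℕ) (S fl : ℕ → Bool) (z ql qr : ℕ → ℂ) (r : ℕ → ℤ) (z1 : ℝ)
    (i : ℕ) : Prop :=
  ∃ E : ℂ → ℂ → ℂ → ℝ, NEq (-(a i : ℤ)) (tyG m r i) (fl i) (oF m r fl z ql qr i)
      (slL m a S z ql i) (slR m a S z qr i) E ∧
    NOKH (ntG m a i) (tyG m r i) (fl i) z1 (oF m r fl z ql qr i) (slL m a S z ql i)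
      (slR m a S z qr i) E ∧
    (tyG m r i = Ty.vn → ∀ o A B : ℂ, o.im = 0 → E (-o) A B = E o A B) ∧
    (∃ c : ℝ, 0 < c ∧ ∃ ρ : ℝ, 0 < ρ ∧ ∀ x s t : ℝ, |x| ≤ ρ → |s| ≤ ρ → |t| ≤ ρ →
      ((slL m a S z ql i).ex = false → s = 0) → ((slR m a S z qr i).ex = false → t = 0) →
      E (oF m r fl z ql qr i + x) ((slL m a S z ql i).ys + s) ((slR m a S z qr i).ys + t) ≤
        -(c * ((if tyG m r i = Ty.cl then 0 else x ^ 2) + s ^ 2 + t ^ 2)))

theorem ND.toH {z1 : ℝ} {i : ℕ} (h : ND m a S fl z ql qr r z1 i) :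
    NDH m a S fl z ql qr r z1 i := by
  obtain ⟨E, h1, h2, h3⟩ := h
  exact ⟨E, h1, h2.toH, h3⟩

/-- **Two half twists.** -/
theorem HG.nd_clH (h : HG m a S fl z ql qr r K) {i : ℕ} (hi : i ≤ m) (ha : a i = 2)
    (hV : VClH (ntG m a i) (slL m a S z ql i) (slR m a S z qr i)) (z1 : ℝ) :
    NDH m a S fl z ql qr r z1 i := by
  have hab := h.abs i hi
  have ht : tyG m r i = Ty.cl := tyG_two (by omega)
  have hF := (h.frame i hi).2.2
  rw [ha, ht] at hF
  obtain ⟨p1, p2⟩ := h.sy_pos hi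
  obtain ⟨e1, e2⟩ := cl_slopes hF p1 p2
  refine ⟨fun _ A B => Ecl (slL m a S z ql i).ys (slR m a S z qr i).ys A B, ?_, ?_, ?_, ?_⟩
  · rw [ha, ht]
    exact NEq_cl (fun hx => (h.slL_lam hi hx).trans e1) (fun hx => (h.slR_lam hx).trans e2)
  · rw [ht]
    exact hV.nok _ _ _
  · intro h0
    rw [ht] at h0
    exact absurd h0 (by simp)
  · obtain ⟨c, hc, ρ, hρ, hq⟩ := hV.quad
    refine ⟨c, hc, ρ, hρ, fun x s t _ hs ht' h1 h2 => ?_⟩
    rw [if_pos ht, zero_add]
    exact hq s t hs ht' h1 h2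

/-- A node at its critical point. -/
def CritH (m : ℕ) (a : ℕ → ℕ) (S fl : ℕ → Bool) (z ql qr : ℕ → ℂ) (r : ℕ → ℤ)
    (pcs : Fin m → Pc) (o : Fin (m + 1) → ℂ) (y : Fin m → ℂ) (wo : Fin (m + 1) → ℝ)
    (i : Fin (m + 1)) : Prop :=
  sg (r i) (ye y (i + 1)) = (slR m a S z qr i).ys ∧ ((pl pcs i).mir).cr ∧
    (pl pcs (i + 1)).cr ∧ wo i = 0 ∧
    (tyG m r i ≠ Ty.cl → so (r i) (tyG m r i) (o i) = oF m r fl z ql qr i)

theorem slE_critH (S : Bool) (n x : Nt) (lam ys : ℂ) : slE S n x .H lam ys ys 0 = 0 := by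
  have e : hT S n x .H = 0 := by simp [hT, r0, Pc.mir]
  unfold slE
  rw [e, Td_self]
  simp [Pc.eff, Pc.box]

theorem Slt.e_critH {s : Slt} {n : Nt} {pc : Pc} {w : ℝ} (hc : pc.cr) (h : s.In pc s.ys w) :
    s.e n pc s.ys w = 0 := by
  unfold Slt.e
  by_cases hx : s.ex = true
  · rw [if_pos hx]
    unfold Slt.In at h
    rw [if_pos hx] at h
    rcases hc with rfl | rfl
    · rw [h.1.1, slE_crit]
    · rw [h.1.1, slE_critH]
  · rw [if_neg hx]

theorem HG.stepH (h : HG m a S fl z ql qr r K) (hK : KOK m a S K)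
    (hD : ∀ i : Fin (m + 1), NDH m a S fl z ql qr r (zx m r K i) i) {P : Pat m}
    (hP : P.OK (chG m r fl)) {o : Fin (m + 1) → ℂ} {y : Fin m → ℂ} {wo : Fin (m + 1) → ℝ}
    {wy : Fin m → ℝ} (hA : AdmC (chG m r fl) K P o y wo wy) {pcs : Fin m → Pc}
    (hp : PcsOK (chG m r fl) K P y wy pcs) (i : Fin (m + 1)) :
    Ex (chG m r fl) K (potG m a S z qr r pcs y) o y i <
        pe (fun j => wy j / 2) (i + 1) + pe (fun j => wy j / 2) i + wo i ∨
      (Ex (chG m r fl) K (potG m a S z qr r pcs y) o y i ≤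
        pe (fun j => wy j / 2) (i + 1) + pe (fun j => wy j / 2) i + wo i ∧
        CritH m a S fl z ql qr r pcs o y wo i) := by
  obtain ⟨E, hE, hN, hev, -⟩ := hD i
  have hL := h.In_left hK hp i
  have hR := h.In_right hK hp i
  rw [h.Ex_eq pcs o y wy i hE, pe_half, pe_half]
  rcases h.state hK hP hA hp i with hs | ⟨h1, h2, h3, hs⟩
  · rcases hN _ _ _ _ _ _ _ _ hL hR hs with k | ⟨k1, k2, k3, k4, k5, k6⟩
    · left
      linarith
    · right
      refine ⟨?_, k2, k3, k4, k5, k6⟩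
      rw [k1] at hL
      rw [k2] at hR
      rw [k1, k2, Slt.e_critH k3 hL, Slt.e_critH k4 hR, k5]
      have hE0 : E (so (r i) (tyG m r i) (o i)) (slL m a S z ql i).ys
          (slR m a S z qr i).ys = 0 := by
        have e1 := hE (so (r i) (tyG m r i) (o i)) _ _ (fun _ => rfl) (fun _ => rfl)
        rw [sub_self, sub_self, mul_zero, mul_zero, zero_re] at e1
        by_cases hc : tyG m r i = Ty.cl
        · rw [hc] at e1 ⊢
          have e2 : Vn (-(a i : ℤ)) Ty.cl (fl i) (so (r i) Ty.cl (o i)) (slL m a S z ql i).ys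
            (slR m a S z qr i).ys = Vn (-(a i : ℤ)) Ty.cl (fl i) (oF m r fl z ql qr i)
              (slL m a S z ql i).ys (slR m a S z qr i).ys := rfl
          linarith
        · rw [k6 hc] at e1 ⊢
          linarith
      rw [hE0]
      linarith
  · have he : E (so (r i) (tyG m r i) (o i)) (sg (r i) (ye y i)) (sg (r i) (ye y (i + 1))) =
        E (o i) (sg (r i) (ye y i)) (sg (r i) (ye y (i + 1))) := by
      rw [h1]
      unfold so sO
      split_ifs
      · rfl
      · have e3 : -conj (o i) = -(o i) := by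
          apply Complex.ext
          · simp
          · simp [h2]
        rw [e3]
        exact hev h1 _ _ _ h2
    rw [he]
    rcases hN _ _ _ _ _ _ _ _ hL hR hs with k | ⟨-, -, k3, k4, -⟩
    · left
      linarith
    · rcases h3 with h3 | h3
      · rw [h3] at k3
        exact absurd k3 (by simp [Pc.cr])
      · rw [h3] at k4
        exact absurd k4 (by simp [Pc.cr])

/-- **The inequality from the statements of the nodes.** -/
theorem HG.inqH (h : HG m a S fl z ql qr r K) (hK : KOK m a S K) (hC : Cn.OK (chG m r fl) K)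
    (hD : ∀ i : Fin (m + 1), NDH m a S fl z ql qr r (zx m r K i) i) :
    Inq (chG m r fl) K ((chG m r fl).G K.oc K.yc) := by
  have hb : ∀ wy : Fin m → ℝ, ∀ j, wy j / 2 + wy j / 2 ≤ wy j := fun wy j => by linarith
  have hpcs : ∀ {P : Pat m}, P.OK (chG m r fl) → ∀ {o : Fin (m + 1) → ℂ} {y : Fin m → ℂ}
      {wo : Fin (m + 1) → ℝ} {wy : Fin m → ℝ}, AdmC (chG m r fl) K P o y wo wy →
      ∃ pcs : Fin m → Pc, PcsOK (chG m r fl) K P y wy pcs := by
    intro P hP o y wo wy hA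
    choose pcs h1 using exists_pcs hP hK.d
      (fun i _ => by rw [hK.z1 i]; exact (z1O_bd m a S i).1) hA
    exact ⟨pcs, h1⟩
  refine ⟨?_, ?_, ?_, rfl⟩
  · intro o y wo wy hA
    obtain ⟨pcs, hp⟩ := hpcs Pat.zero_OK hA
    rcases G_lt_or (hb wy) (h.stepH hK hD Pat.zero_OK hA hp) with k | k
    · exact Or.inl k
    · right
      refine ⟨fun j => ?_, fun i => ?_⟩
      · obtain ⟨k1, -, k3, -, -⟩ := k j.castSucc
        rw [Fin.val_castSucc, ye_sc] at k1
        rw [Fin.val_castSucc, pl_succ] at k3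
        refine ⟨?_, ?_⟩
        · have h3 : K.yc j = sg (r j) (sy (qr j) (z j)) := by
            rw [h.yc]
            rfl
          rw [h3]
          have h4 : sg (r j) (y j) = sy (qr j) (z j) := k1
          rw [← h4, sg_sg]
        · have h5 := (hp j).1
          rcases k3 with k3 | k3 <;> rw [k3] at h5 <;> exact h5.1
      · obtain ⟨-, -, -, k4, k5⟩ := k i
        refine ⟨k4, fun hc => ?_⟩
        have hi : (i : ℕ) ≤ m := by
          have := i.isLt
          omega
        have h6 := k5 hc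
        rw [← h.so_oc i hi] at h6
        have h7 := so_inj h6
        rw [h7, h.oc]
  · intro P hP hne o y wo wy hA
    obtain ⟨pcs, hp⟩ := hpcs hP hA
    rcases G_lt_or (hb wy) (h.stepH hK hD hP hA hp) with k | k
    · exact k
    · exfalso
      rcases hne with ⟨j, hj⟩ | ⟨i, hi⟩
      · obtain ⟨-, -, k3, -, -⟩ := k j.castSucc
        rw [Fin.val_castSucc, pl_succ, (hp j).2.2.1 hj] at k3
        exact absurd k3 (by simp [Pc.cr])
      · obtain ⟨h1, h2⟩ := hP.H i hi
        obtain ⟨-, -, -, -, k5⟩ := k i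
        have him : (i : ℕ) ≤ m := by
          have := i.isLt
          omega
        have hty : tyG m r i = Ty.zn := h1
        have h6 := k5 (by rw [hty]; simp)
        rw [← h.so_oc i him] at h6
        have h7 : o i = K.oc i := by
          rw [so_inj h6, h.oc]
        have h8 := hC.z1 i h1
        rw [← h7, abs_lt] at h8
        rcases sgn_cases (P.H i) with h9 | h9 | h9
        · exact hi h9
        · have := (hA.zp i h1 h2 h9).2.2.1
          linarith
        · have := (hA.zq i h1 h2 h9).2.2.2.1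
          linarith
  · -- the quadratic bound
    apply quad_of (fun j => sg (r j) (slR m a S z qr j).lam)
    intro i
    obtain ⟨E, hE, -, -, c, hc, ρ, hρ, hq⟩ := hD i
    refine ⟨c, hc, ρ, hρ, fun x s t hx hs ht hs0 ht0 => ?_⟩
    have him : (i : ℕ) ≤ m := by
      have := i.isLt
      omega
    have hexL : (slL m a S z ql i).ex = decide (0 < (i : ℕ)) := rfl
    have hexR : (slR m a S z qr i).ex = decide ((i : ℕ) < m) := rfl
    have sL : (slL m a S z ql i).ex = false → s = 0 := by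
      intro h0
      rw [hexL, decide_eq_false_iff_not] at h0
      exact hs0 (by omega)
    have sR : (slR m a S z qr i).ex = false → t = 0 := by
      intro h0
      rw [hexR, decide_eq_false_iff_not] at h0
      exact ht0 (by omega)
    have hr := h.r_ne i him
    have hab := h.abs i him
    have hsgr : ∀ (w : ℂ) (u : ℝ), sg (r i) (w + u) = sg (r i) w + u := by
      intro w u
      unfold sg
      split_ifs
      · rfl
      · rw [map_add, conj_ofReal]
    have eL : ye K.yc i = sg (r i) (slL m a S z ql i).ys := h.ye_l i him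
    have eR : ye K.yc (i + 1) = sg (r i) (slR m a S z qr i).ys := h.ye_r i him
    have k2 : Vn ((chG m r fl).c i) ((chG m r fl).ty i) ((chG m r fl).fl i) (K.oc i) (ye K.yc i)
        (ye K.yc (i + 1)) = Vn (-(a i : ℤ)) (tyG m r i) (fl i) (oF m r fl z ql qr i)
          (slL m a S z ql i).ys (slR m a S z qr i).ys := by
      show Vn (r i) (tyG m r i) (fl i) (K.oc i) (ye K.yc i) (ye K.yc (i + 1)) = _
      rw [Vn_fr hr, eL, eR, sg_sg, sg_sg, hab, h.oc]
      show Vn _ _ _ (so (r i) (tyG m r i) (ocG m r fl z ql qr i)) _ _ = _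
      rw [h.so_oc i him]
    have hso : ∃ x' : ℝ, |x'| ≤ ρ ∧ x' ^ 2 = x ^ 2 ∧
        so (r i) (tyG m r i) (K.oc i + x) = oF m r fl z ql qr i + x' := by
      have e0 : so (r i) (tyG m r i) (K.oc i) = oF m r fl z ql qr i := by
        rw [h.oc]
        exact h.so_oc i him
      rw [← e0]
      unfold so sO
      split_ifs
      · exact ⟨x, hx, rfl, rfl⟩
      · cases tyG m r i
        · exact ⟨x, hx, rfl, by simp only [map_add, conj_ofReal]⟩
        · exact ⟨x, hx, rfl, by simp only [map_add, conj_ofReal]⟩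
        · refine ⟨-x, by rw [abs_neg]; exact hx, by ring, ?_⟩
          simp only [map_add, conj_ofReal]
          push_cast
          ring
    obtain ⟨x', hx', hxx, hso⟩ := hso
    have k3 : Vn ((chG m r fl).c i) ((chG m r fl).ty i) ((chG m r fl).fl i) (K.oc i + x)
        (ye K.yc i + s) (ye K.yc (i + 1) + t) = Vn (-(a i : ℤ)) (tyG m r i) (fl i)
          (oF m r fl z ql qr i + x') ((slL m a S z ql i).ys + s)
          ((slR m a S z qr i).ys + t) := by
      show Vn (r i) (tyG m r i) (fl i) (K.oc i + x) (ye K.yc i + s) (ye K.yc (i + 1) + t) = _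
      rw [Vn_fr hr, eL, eR, hsgr, hsgr, sg_sg, sg_sg, hab, hso]
    have k1 := hE (oF m r fl z ql qr i + x') ((slL m a S z ql i).ys + s)
      ((slR m a S z qr i).ys + t) (fun h0 => by rw [sL h0]; simp) (fun h0 => by rw [sR h0]; simp)
    rw [k2, k3, k1, add_sub_cancel_left, add_sub_cancel_left]
    have q := hq x' s t hx' hs ht sL sR
    rw [hxx] at q
    have l1 : ((slL m a S z ql i).lam * (s : ℂ)).re +
        (lamE (fun j : Fin m => sg (r j) (slR m a S z qr j).lam) i * (s : ℂ)).re = 0 := by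
      rcases Nat.eq_zero_or_pos (i : ℕ) with h0 | h0
      · rw [hs0 h0]
        simp
      · obtain ⟨j, hj⟩ : ∃ j : Fin m, (i : ℕ) = j + 1 :=
          ⟨⟨i - 1, by have := i.isLt; omega⟩, by simp only; omega⟩
        rw [hj, lamE_succ, h.lam_next j.isLt, re_mul_ofReal, re_mul_ofReal, sg_re, neg_re]
        have e4 : (kp (S j) (slR m a S z qr j).lam).re = (slR m a S z qr j).lam.re := by
          cases S j
          · rw [kp_false, conj_re]
          · rw [kp_true]
        rw [e4]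
        ring
    have l2 : ((slR m a S z qr i).lam * (t : ℂ)).re -
        (lamE (fun j : Fin m => sg (r j) (slR m a S z qr j).lam) (i + 1) * (t : ℂ)).re = 0 := by
      rcases Nat.lt_or_ge (i : ℕ) m with h0 | h0
      · obtain ⟨j, hj⟩ : ∃ j : Fin m, (i : ℕ) = j := ⟨⟨i, h0⟩, rfl⟩
        rw [hj, lamE_succ, re_mul_ofReal, re_mul_ofReal, sg_re]
        ring
      · rw [ht0 (by omega)]
        simp
    have hty : (chG m r fl).ty i = tyG m r i := rfl
    rw [hty]
    linarith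

end Pool.Agent.S5
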