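import Pool.Agent.S5.I.TdL
import Pool.Agent.S5.I.VOK

/-!
# The quadratic bounds of the nodes

All node functions are sums of defects on the flats. The second derivative of the defect is `-Lgd`.
-/

set_option autoImplicit false

namespace Pool.Agent.S5

open Pool.Agent.H63.VC3 Pool.Agent.S3 Complex MeasureTheory Filter Topology Set

/-- `Re π cot(π z)`. -/
noncomputable def Kc (z : ℂ) : ℝ := Lgd z.im z.re

/-- The condition on the angle. -/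
def Kok (z : ℂ) : Prop := z.im ≠ 0 ∨ (z.re ≠ 0 ∧ |z.re| < 1)

theorem Kok_of {z : ℂ} (h0 : 0 < z.re) (h1 : z.re < 1) : Kok z :=
  Or.inr ⟨h0.ne', by rw [abs_of_pos h0]; exact h1⟩

theorem Kc_pos' {z : ℂ} (h0 : 0 < z.re) (h1 : z.re < 1 / 2) : 0 < Kc z := Lgd_pos h0 h1

theorem Lgd_continuousAt {s x : ℝ} (h : s ≠ 0 ∨ (x ≠ 0 ∧ |x| < 1)) : ContinuousAt (Lgd s) x := by
  have hp := dn_pos h
  unfold Lgd
  refine ContinuousAt.div ?_ ?_ hp.ne'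
  · fun_prop
  · unfold dn
    fun_prop

/-- **The defect near the critical point.** -/
theorem Td_near {z0 : ℂ} (h : Kok z0) {ε : ℝ} (hε : 0 < ε) :
    ∃ ρ : ℝ, 0 < ρ ∧ ∀ u : ℝ, |u| ≤ ρ → Td z0 (z0 + u) ≤ -((Kc z0 - ε) / 2 * u ^ 2) := by
  have hc := Lgd_continuousAt h
  -- the set of good points is open
  have h1 : ∀ᶠ x in 𝓝 z0.re, Lgd z0.im z0.re - ε < Lgd z0.im x :=
    hc.eventually (lt_mem_nhds (by linarith))
  have h2 : ∀ᶠ x in 𝓝 z0.re, z0.im ≠ 0 ∨ (x ≠ 0 ∧ |x| < 1) := by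
    rcases h with h | ⟨h3, h4⟩
    · exact Eventually.of_forall fun x => Or.inl h
    · have h5 : ∀ᶠ x : ℝ in 𝓝 z0.re, x ≠ 0 := isOpen_ne.mem_nhds h3
      have h6 : ∀ᶠ x : ℝ in 𝓝 z0.re, |x| < 1 :=
        (continuous_abs.continuousAt).eventually (gt_mem_nhds h4)
      filter_upwards [h5, h6] with x h7 h8 using Or.inr ⟨h7, h8⟩
  obtain ⟨δ, hδ, hb⟩ := Metric.eventually_nhds_iff.1 (h1.and h2)
  refine ⟨δ / 2, by positivity, fun u hu => ?_⟩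
  have hmem : ∀ x ∈ uIcc z0.re (z0 + u).re, dist x z0.re < δ := by
    intro x hx
    rw [add_re, ofReal_re] at hx
    rw [Real.dist_eq]
    have h3 : |x - z0.re| ≤ |u| := by
      rcases le_total 0 u with h0 | h0
      · rw [uIcc_of_le (by linarith)] at hx
        rw [abs_of_nonneg (by linarith [hx.1]), abs_of_nonneg h0]
        linarith [hx.2]
      · rw [uIcc_of_ge (by linarith)] at hx
        rw [abs_of_nonpos (by linarith [hx.2]), abs_of_nonpos h0]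
        linarith [hx.1]
    linarith
  have him : (z0 + (u : ℂ)).im = z0.im := by simp
  rw [Td_eq_Dd him]
  have h4 := Dd_ge_quad (s := z0.im) (w0 := z0.re) (w := (z0 + u).re) (m := Kc z0 - ε)
    (fun x hx => (hb (hmem x hx)).2) (fun x hx => (hb (hmem x hx)).1.le)
  have e : (z0 + (u : ℂ)).re - z0.re = u := by simp
  rw [e] at h4
  linarith

/-- Reflection of the sign of the increment. -/
theorem Td_near' {z0 : ℂ} (h : Kok z0) {ε : ℝ} (hε : 0 < ε) :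
    ∃ ρ : ℝ, 0 < ρ ∧ ∀ (u : ℝ) (z : ℂ), |u| ≤ ρ → z = z0 + u →
      Td z0 z ≤ -((Kc z0 - ε) / 2 * u ^ 2) := by
  obtain ⟨ρ, h1, h2⟩ := Td_near h hε
  exact ⟨ρ, h1, fun u z hu hz => by rw [hz]; exact h2 u hu⟩

/-! ### Positive definite forms -/

/-- Two variables. -/
theorem posdef_two {P R S : ℝ} (hP : 0 < P) (hS : 0 < S) (hd : R ^ 2 < P * S) :
    ∃ l : ℝ, 0 < l ∧ ∀ s x : ℝ, l * (s ^ 2 + x ^ 2) ≤ P * s ^ 2 + 2 * R * s * x + S * x ^ 2 := by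
  have hT : 0 < P + S := by linarith
  refine ⟨(P * S - R ^ 2) / (P + S), div_pos (by linarith) hT, fun s x => ?_⟩
  rw [div_mul_eq_mul_div, div_le_iff₀ hT]
  have e : (P * s ^ 2 + 2 * R * s * x + S * x ^ 2) * (P + S) -
      (P * S - R ^ 2) * (s ^ 2 + x ^ 2) = (P * s + R * x) ^ 2 + (R * s + S * x) ^ 2 := by ring
  nlinarith [sq_nonneg (P * s + R * x), sq_nonneg (R * s + S * x)]

/-- Three variables, a chain: the middle variable is `z`. -/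
theorem posdef_chain {P C D R F : ℝ} (hP : 0 < P + C) (hR : 0 < R + F)
    (hd : 0 < P * C / (P + C) + R * F / (R + F) + D) :
    ∃ l : ℝ, 0 < l ∧ ∀ y z b : ℝ, l * (y ^ 2 + z ^ 2 + b ^ 2) ≤
      P * y ^ 2 + C * (y - z) ^ 2 + D * z ^ 2 + R * b ^ 2 + F * (z + b) ^ 2 := by
  obtain ⟨δ, hδ⟩ : ∃ δ, δ = P * C / (P + C) + R * F / (R + F) + D := ⟨_, rfl⟩
  obtain ⟨p, hp⟩ : ∃ p, p = C / (P + C) := ⟨_, rfl⟩
  obtain ⟨q, hq⟩ : ∃ q, q = F / (R + F) := ⟨_, rfl⟩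
  rw [← hδ] at hd
  have hp' : p * (P + C) = C := by rw [hp, div_mul_cancel₀ _ hP.ne']
  have hq' : q * (R + F) = F := by rw [hq, div_mul_cancel₀ _ hR.ne']
  have key : ∀ y z b : ℝ, P * y ^ 2 + C * (y - z) ^ 2 + D * z ^ 2 + R * b ^ 2 + F * (z + b) ^ 2 =
      (P + C) * (y - p * z) ^ 2 + (R + F) * (b + q * z) ^ 2 + δ * z ^ 2 := by
    intro y z b
    have e1 : P * C / (P + C) = P * p := by rw [hp]; ring
    have e2 : R * F / (R + F) = R * q := by rw [hq]; ring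
    rw [hδ, e1, e2]
    linear_combination (2 * y * z - z ^ 2 * p - z ^ 2) * hp' + (-2 * b * z - z ^ 2 * q - z ^ 2) * hq'
  obtain ⟨n, hn⟩ : ∃ n, n = 1 + 2 * p ^ 2 + 2 * q ^ 2 := ⟨_, rfl⟩
  have hn0 : 0 < n := by rw [hn]; positivity
  refine ⟨min (min ((P + C) / 2) ((R + F) / 2)) (δ / n), ?_, fun y z b => ?_⟩
  · exact lt_min (lt_min (by linarith) (by linarith)) (div_pos hd hn0)
  · rw [key]
    obtain ⟨l, hl⟩ : ∃ l, l = min (min ((P + C) / 2) ((R + F) / 2)) (δ / n) := ⟨_, rfl⟩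
    rw [← hl]
    have l0 : 0 < l := by
      rw [hl]
      exact lt_min (lt_min (by linarith) (by linarith)) (div_pos hd hn0)
    have l1 : l ≤ (P + C) / 2 := by rw [hl]; exact (min_le_left _ _).trans (min_le_left _ _)
    have l2 : l ≤ (R + F) / 2 := by rw [hl]; exact (min_le_left _ _).trans (min_le_right _ _)
    have l3 : l * n ≤ δ := by
      have : l ≤ δ / n := by rw [hl]; exact min_le_right _ _
      rwa [le_div_iff₀ hn0] at this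
    have h1 : y ^ 2 ≤ 2 * (y - p * z) ^ 2 + 2 * p ^ 2 * z ^ 2 := by
      nlinarith [sq_nonneg (y - 2 * p * z)]
    have h2 : b ^ 2 ≤ 2 * (b + q * z) ^ 2 + 2 * q ^ 2 * z ^ 2 := by
      nlinarith [sq_nonneg (b + 2 * q * z)]
    have h3 : l * (y ^ 2 + z ^ 2 + b ^ 2) ≤
        l * (2 * (y - p * z) ^ 2 + 2 * (b + q * z) ^ 2 + n * z ^ 2) := by
      refine mul_le_mul_of_nonneg_left ?_ l0.le
      rw [hn]
      nlinarith
    have h4 := mul_le_mul_of_nonneg_right l1 (sq_nonneg (y - p * z))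
    have h5 := mul_le_mul_of_nonneg_right l2 (sq_nonneg (b + q * z))
    have h6 := mul_le_mul_of_nonneg_right l3 (sq_nonneg z)
    nlinarith

/-! ### The criteria -/

section crit

variable {ys zs bs vs : ℂ}

/-- **Two half twists.** -/
theorem quad_cl2 (ha : Kok (1 / 2 - ys)) (hb : Kok (1 / 2 - bs)) (hc : Kok (ys + bs))
    (h1 : 0 < 2 * Kc (1 / 2 - ys) + Kc (ys + bs)) (h2 : 0 < 2 * Kc (1 / 2 - bs) + Kc (ys + bs))
    (h3 : 0 < 2 * Kc (1 / 2 - ys) * Kc (1 / 2 - bs) +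
      Kc (ys + bs) * (Kc (1 / 2 - ys) + Kc (1 / 2 - bs))) :
    ∃ c : ℝ, 0 < c ∧ ∃ ρ : ℝ, 0 < ρ ∧ ∀ s t : ℝ, |s| ≤ ρ → |t| ≤ ρ →
      Ecl ys bs (ys + s) (bs + t) ≤ -(c * (s ^ 2 + t ^ 2)) := by
  obtain ⟨A, hA⟩ : ∃ A, A = Kc (1 / 2 - ys) := ⟨_, rfl⟩
  obtain ⟨B, hB⟩ : ∃ B, B = Kc (1 / 2 - bs) := ⟨_, rfl⟩
  obtain ⟨C, hC⟩ : ∃ C, C = Kc (ys + bs) := ⟨_, rfl⟩
  rw [← hA, ← hC] at h1
  rw [← hB, ← hC] at h2
  rw [← hA, ← hB, ← hC] at h3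
  obtain ⟨l, hl, hq⟩ := posdef_two (P := 2 * A + C) (R := C) (S := 2 * B + C) h1 h2 (by nlinarith)
  have hε : 0 < l / 8 := by positivity
  obtain ⟨ρ1, p1, t1⟩ := Td_near' ha hε
  obtain ⟨ρ2, p2, t2⟩ := Td_near' hb hε
  obtain ⟨ρ3, p3, t3⟩ := Td_near' hc hε
  rw [← hA] at t1
  rw [← hB] at t2
  rw [← hC] at t3
  refine ⟨l / 4, by positivity, min (min ρ1 ρ2) (ρ3 / 2), by positivity, fun s t hs ht => ?_⟩
  have s1 : |s| ≤ ρ1 := hs.trans ((min_le_left _ _).trans (min_le_left _ _))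
  have s2 : |t| ≤ ρ2 := ht.trans ((min_le_left _ _).trans (min_le_right _ _))
  have s3 : |s + t| ≤ ρ3 := by
    have e1 : |s| ≤ ρ3 / 2 := hs.trans (min_le_right _ _)
    have e2 : |t| ≤ ρ3 / 2 := ht.trans (min_le_right _ _)
    exact (abs_add_le s t).trans (by linarith)
  have u1 := t1 (-s) (1 / 2 - (ys + s)) (by rw [abs_neg]; exact s1) (by push_cast; ring)
  have u2 := t2 (-t) (1 / 2 - (bs + t)) (by rw [abs_neg]; exact s2) (by push_cast; ring)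
  have u3 := t3 (s + t) (ys + s + (bs + t)) s3 (by push_cast; ring)
  have e0 : ((ys + s - ys) - (bs + t - bs)).im = 0 := by simp
  unfold Ecl
  rw [e0, mul_zero, mul_zero, add_zero]
  have := hq s t
  nlinarith [sq_nonneg s, sq_nonneg t, sq_nonneg (s - t)]

/-- One slot. -/
theorem quad_cl1 (ha : Kok (1 / 2 - ys)) (hc : Kok (ys + bs))
    (h1 : 0 < 2 * Kc (1 / 2 - ys) + Kc (ys + bs)) :
    ∃ c : ℝ, 0 < c ∧ ∃ ρ : ℝ, 0 < ρ ∧ ∀ s : ℝ, |s| ≤ ρ →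
      Ecl ys bs (ys + s) bs ≤ -(c * s ^ 2) := by
  obtain ⟨A, hA⟩ : ∃ A, A = Kc (1 / 2 - ys) := ⟨_, rfl⟩
  obtain ⟨C, hC⟩ : ∃ C, C = Kc (ys + bs) := ⟨_, rfl⟩
  rw [← hA, ← hC] at h1
  have hε : 0 < (2 * A + C) / 6 := by positivity
  obtain ⟨ρ1, p1, t1⟩ := Td_near' ha hε
  obtain ⟨ρ3, p3, t3⟩ := Td_near' hc hε
  rw [← hA] at t1
  rw [← hC] at t3
  refine ⟨(2 * A + C) / 4, by positivity, min ρ1 ρ3, by positivity, fun s hs => ?_⟩
  have u1 := t1 (-s) (1 / 2 - (ys + s)) (by rw [abs_neg]; exact hs.trans (min_le_left _ _))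
    (by push_cast; ring)
  have u3 := t3 s (ys + s + bs) (hs.trans (min_le_right _ _)) (by ring)
  have e0 : ((ys + s - ys) - (bs - bs)).im = 0 := by simp
  unfold Ecl
  rw [e0, mul_zero, mul_zero, add_zero, Td_self]
  nlinarith [sq_nonneg s]

/-- The function is symmetric. -/
theorem Ecl_symm (as bs a b : ℂ) : Ecl as bs a b = Ecl bs as b a := by
  unfold Ecl
  have e1 : as + bs = bs + as := add_comm _ _
  have e2 : a + b = b + a := add_comm _ _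
  have e3 : ((b - bs) - (a - as)) = -((a - as) - (b - bs)) := by ring
  rw [e1, e2, e3, neg_re, neg_im]
  ring

/-- `VCl.quad`. -/
theorem quad_cl {sa sb : Slt} (hc : Kok (sa.ys + sb.ys))
    (ha : sa.ex = true → Kok (1 / 2 - sa.ys) ∧ 0 < 2 * Kc (1 / 2 - sa.ys) + Kc (sa.ys + sb.ys))
    (hb : sb.ex = true → Kok (1 / 2 - sb.ys) ∧ 0 < 2 * Kc (1 / 2 - sb.ys) + Kc (sa.ys + sb.ys))
    (hd : sa.ex = true → sb.ex = true → 0 < 2 * Kc (1 / 2 - sa.ys) * Kc (1 / 2 - sb.ys) +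
      Kc (sa.ys + sb.ys) * (Kc (1 / 2 - sa.ys) + Kc (1 / 2 - sb.ys))) :
    ∃ c : ℝ, 0 < c ∧ ∃ ρ : ℝ, 0 < ρ ∧ ∀ s t : ℝ, |s| ≤ ρ → |t| ≤ ρ →
      (sa.ex = false → s = 0) → (sb.ex = false → t = 0) →
      Ecl sa.ys sb.ys (sa.ys + s) (sb.ys + t) ≤ -(c * (s ^ 2 + t ^ 2)) := by
  rcases h1 : sa.ex with _ | _
  · rcases h2 : sb.ex with _ | _
    · refine ⟨1, one_pos, 1, one_pos, fun s t _ _ hs ht => ?_⟩
      rw [hs rfl, ht rfl]
      unfold Ecl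
      simp [Td_self]
    · obtain ⟨k1, k2⟩ := hb h2
      rw [add_comm sa.ys sb.ys] at k2 hc
      obtain ⟨c, c0, ρ, ρ0, hq⟩ := quad_cl1 k1 hc k2
      refine ⟨c, c0, ρ, ρ0, fun s t _ ht hs _ => ?_⟩
      rw [hs rfl, Ecl_symm]
      have := hq t ht
      simpa using this
  · rcases h2 : sb.ex with _ | _
    · obtain ⟨k1, k2⟩ := ha h1
      obtain ⟨c, c0, ρ, ρ0, hq⟩ := quad_cl1 k1 hc k2
      refine ⟨c, c0, ρ, ρ0, fun s t hs _ _ ht => ?_⟩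
      rw [ht rfl]
      have := hq s hs
      simpa using this
    · obtain ⟨k1, k2⟩ := ha h1
      obtain ⟨k3, k4⟩ := hb h2
      obtain ⟨c, c0, ρ, ρ0, hq⟩ := quad_cl2 k1 k3 hc k2 k4 (hd h1 h2)
      exact ⟨c, c0, ρ, ρ0, fun s t hs ht _ _ => hq s t hs ht⟩

/-- **Open nodes**: `VS.quad`. -/
theorem quad_vs (ha : Kok (1 / 2 - ys)) (hb : Kok (ys - vs)) (hc : Kok (ys + vs))
    (h1 : 0 < Kc (ys - vs) + Kc (ys + vs))
    (h2 : 0 < Kc (1 / 2 - ys) * (Kc (ys - vs) + Kc (ys + vs)) + 2 * Kc (ys - vs) * Kc (ys + vs))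
    (h3 : 0 < Kc (1 / 2 - ys)) :
    ∃ c : ℝ, 0 < c ∧ ∃ ρ : ℝ, 0 < ρ ∧ ∀ s' x : ℝ, |s'| ≤ ρ → |x| ≤ ρ →
      Es ys vs (ys + s') (vs + x) ≤ -(c * (s' ^ 2 + x ^ 2)) := by
  obtain ⟨A, hA⟩ : ∃ A, A = Kc (1 / 2 - ys) := ⟨_, rfl⟩
  obtain ⟨B, hB⟩ : ∃ B, B = Kc (ys - vs) := ⟨_, rfl⟩
  obtain ⟨C, hC⟩ : ∃ C, C = Kc (ys + vs) := ⟨_, rfl⟩
  rw [← hB, ← hC] at h1
  rw [← hA, ← hB, ← hC] at h2
  rw [← hA] at h3
  obtain ⟨l, hl, hq⟩ := posdef_two (P := 2 * A + (B + C)) (R := C - B) (S := B + C) (by linarith)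
    h1 (by nlinarith)
  have hε : 0 < l / 8 := by positivity
  obtain ⟨ρ1, p1, t1⟩ := Td_near' ha hε
  obtain ⟨ρ2, p2, t2⟩ := Td_near' hb hε
  obtain ⟨ρ3, p3, t3⟩ := Td_near' hc hε
  rw [← hA] at t1
  rw [← hB] at t2
  rw [← hC] at t3
  refine ⟨l / 4, by positivity, min ρ1 (min (ρ2 / 2) (ρ3 / 2)), by positivity,
    fun s x hs hx => ?_⟩
  have s1 : |s| ≤ ρ1 := hs.trans (min_le_left _ _)
  have e1 : |s| ≤ ρ2 / 2 := hs.trans ((min_le_right _ _).trans (min_le_left _ _))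
  have e2 : |x| ≤ ρ2 / 2 := hx.trans ((min_le_right _ _).trans (min_le_left _ _))
  have e3 : |s| ≤ ρ3 / 2 := hs.trans ((min_le_right _ _).trans (min_le_right _ _))
  have e4 : |x| ≤ ρ3 / 2 := hx.trans ((min_le_right _ _).trans (min_le_right _ _))
  have u1 := t1 (-s) (1 / 2 - (ys + s)) (by rw [abs_neg]; exact s1) (by push_cast; ring)
  have u2 := t2 (s - x) (ys + s - (vs + x)) ((abs_sub s x).trans (by linarith))
    (by push_cast; ring)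
  have u3 := t3 (s + x) (ys + s + (vs + x)) ((abs_add_le s x).trans (by linarith))
    (by push_cast; ring)
  have e0 : (vs + (x : ℂ)).im - vs.im = 0 := by simp
  unfold Es Ev
  rw [e0, mul_zero, mul_zero, zero_add]
  have := hq s x
  nlinarith [sq_nonneg s, sq_nonneg x]

end crit

end Pool.Agent.S5
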