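import Pool.Agent.S5.I.W2c

/-!
# Closed vertices with two half twists, weights `2` and `1`: the part `q ≥ 1 / 2`
-/

set_option autoImplicit false

namespace Pool.Agent.S5.C2

open MeasureTheory Filter Topology Set

theorem int_ub {s a b c d : ℝ} (hs : 0 ≤ s) (hab : a ≤ b) (h : ∀ t ∈ Ioo a b, Lq s t ≤ c) :
    ∫ t in a..b, (Lq s t - d) ≤ (b - a) * (c - d) := by
  have h1 : ∫ t in a..b, (Lq s t - d) ≤ ∫ _t in a..b, (c - d) := by
    apply intervalIntegral.integral_mono_on_of_le_Ioo hab ((Lq_int hs a b).sub (by simp)) (by simp)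
    intro t ht
    have := h t ht
    linarith
  rwa [intervalIntegral.integral_const, smul_eq_mul] at h1

theorem int_lb {s a b c d : ℝ} (hs : 0 ≤ s) (hab : a ≤ b) (h : ∀ t ∈ Ioo a b, c ≤ Lq s t) :
    (b - a) * (c - d) ≤ ∫ t in a..b, (Lq s t - d) := by
  have h1 : ∫ _t in a..b, (c - d) ≤ ∫ t in a..b, (Lq s t - d) := by
    apply intervalIntegral.integral_mono_on_of_le_Ioo hab (by simp) ((Lq_int hs a b).sub (by simp))
    intro t ht
    have := h t ht
    linarith
  rwa [intervalIntegral.integral_const, smul_eq_mul] at h1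

theorem Sn_third : Sn (1 / 3) = 3 / 4 := by
  unfold Sn
  rw [show Real.pi * (1 / 3) = Real.pi / 3 by ring, Real.sin_pi_div_three, div_pow,
    Real.sq_sqrt (by norm_num)]
  norm_num

theorem Sn_sixth : Sn (1 / 6) = 1 / 4 := by
  unfold Sn
  rw [show Real.pi * (1 / 6) = Real.pi / 6 by ring, Real.sin_pi_div_six]
  norm_num

/-- The third defect is small on `[1/2, 3/2]`. -/
theorem D3_le {s P0 P : ℝ} (hs : 0 ≤ s) (h0 : 1 / 3 ≤ P0) (h1 : P0 ≤ 2 / 3) (hP : 1 / 2 ≤ P)
    (hP1 : P ≤ 3 / 2) : Dq s P0 P ≤ (Lq s (1 / 2) - Lq s P0) / 3 := by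
  have hS0 : 3 / 4 ≤ Sn P0 := by
    rw [← Sn_third]
    exact Sn_ge (by norm_num) h0 (by linarith)
  have hi : ∀ a b : ℝ, IntervalIntegrable (fun t => Lq s t - Lq s P0) volume a b := fun a b =>
    (Lq_int hs a b).sub (by simp)
  have hmono : ∀ {t t' : ℝ}, 0 < Sn t → Sn t ≤ Sn t' → Lq s t ≤ Lq s t' := fun h h' =>
    Lq_mono_t hs (by linarith) h'
  have hΔ : 0 ≤ Lq s (1 / 2) - Lq s P0 := by
    have := hmono (t := P0) (t' := 1 / 2) (by linarith) (by rw [Sn_half]; exact Sn_le_one _)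
    linarith
  set Δ := Lq s (1 / 2) - Lq s P0 with hΔd
  -- the part up to `1`
  have partA : ∀ P : ℝ, 1 / 2 ≤ P → P ≤ 1 → Dq s P0 P ≤ Δ / 3 := by
    intro P hP hP1
    rcases le_total P0 (1 / 2) with hc | hc
    · have up : ∀ P : ℝ, P0 ≤ P → P ≤ 1 - P0 → Dq s P0 P ≤ Δ / 3 := by
        intro P hP hP1
        have h2 := int_ub (d := Lq s P0) (c := Lq s (1 / 2)) hs hP (fun t ht => hmono
          (Sn_pos (by linarith [ht.1]) (by linarith [ht.2])) (by rw [Sn_half]; exact Sn_le_one _))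
        have h3 : (P - P0) * Δ ≤ 1 / 3 * Δ := mul_le_mul_of_nonneg_right (by linarith) hΔ
        have h4 : Dq s P0 P = ∫ t in P0..P, (Lq s t - Lq s P0) := rfl
        rw [← hΔd] at h2
        linarith
      rcases le_total P (1 - P0) with h | h
      · exact up P (by linarith) h
      · have e := Dq_sub hs P0 (1 - P0) P
        have h2 := int_ub (d := Lq s P0) (c := Lq s P0) hs h (fun t ht => hmono
          (Sn_pos (by linarith [ht.1]) (by linarith [ht.2])) (by
            rw [← Sn_one_sub P0]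
            exact Sn_anti (by linarith) ht.1.le (by linarith [ht.2])))
        have h3 := up (1 - P0) (by linarith) le_rfl
        rw [sub_self, mul_zero] at h2
        linarith
    · rcases le_total P P0 with h | h
      · have h2 := int_lb (d := Lq s P0) (c := Lq s P0) hs h (fun t ht => hmono
          (by linarith) (Sn_anti (by linarith [ht.1]) ht.2.le (by linarith)))
        have h4 : Dq s P0 P = -∫ t in P..P0, (Lq s t - Lq s P0) := by
          rw [← intervalIntegral.integral_symm]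
          rfl
        rw [sub_self, mul_zero] at h2
        linarith
      · have h2 := int_ub (d := Lq s P0) (c := Lq s P0) hs h (fun t ht => hmono
          (Sn_pos (by linarith [ht.1]) (by linarith [ht.2]))
          (Sn_anti hc ht.1.le (by linarith [ht.2])))
        have h4 : Dq s P0 P = ∫ t in P0..P, (Lq s t - Lq s P0) := rfl
        rw [sub_self, mul_zero] at h2
        linarith
  rcases le_total P 1 with h | h
  · exact partA P hP h
  · have e := Dq_sub hs P0 1 P
    have hA := partA 1 (by norm_num) le_rfl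
    suffices hB : ∫ t in (1 : ℝ)..P, (Lq s t - Lq s P0) ≤ 0 by linarith
    have hpos : ∀ t : ℝ, 1 < t → t < 3 / 2 → 0 < Sn t := by
      intro t h2 h3
      rw [← Sn_sub_one]
      exact Sn_pos (by linarith) (by linarith)
    have hup : ∀ a b : ℝ, 1 ≤ a → a ≤ b → b ≤ 3 / 2 →
        ∫ t in a..b, (Lq s t - Lq s P0) ≤ (b - a) * (Lq s (b - 1) - Lq s P0) := by
      intro a b ha hab hb
      apply int_ub hs hab
      intro t ht
      apply hmono (hpos t (by linarith [ht.1]) (by linarith [ht.2]))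
      rw [← Sn_sub_one t]
      exact Sn_mono (by linarith [ht.1]) (by linarith [ht.2]) (by linarith)
    have hneg : ∀ a b : ℝ, 1 ≤ a → a ≤ b → b ≤ 4 / 3 →
        ∫ t in a..b, (Lq s t - Lq s P0) ≤ 0 := by
      intro a b ha hab hb
      have h2 := int_ub (d := Lq s P0) (c := Lq s P0) hs hab (fun t ht => hmono
        (hpos t (by linarith [ht.1]) (by linarith [ht.2])) (by
          rw [← Sn_sub_one t]
          have h3 := Sn_mono (t := t - 1) (t' := 1 / 3) (by linarith [ht.1]) (by linarith [ht.2])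
            (by norm_num)
          rw [Sn_third] at h3
          linarith))
      rwa [sub_self, mul_zero] at h2
    rcases le_total P (4 / 3) with h2 | h2
    · exact hneg 1 P le_rfl h h2
    · have a1 := hup 1 (7 / 6) le_rfl (by norm_num) (by norm_num)
      have a2 := hneg (7 / 6) (4 / 3) (by norm_num) (by norm_num) le_rfl
      have a3 : ∫ t in (4 / 3 : ℝ)..P, (Lq s t - Lq s P0) ≤ (P - 4 / 3) * Δ := by
        apply int_ub hs h2
        intro t ht
        exact hmono (hpos t (by linarith [ht.1]) (by linarith [ht.2]))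
          (by rw [Sn_half]; exact Sn_le_one _)
      have a4 : (P - 4 / 3) * Δ ≤ 1 / 6 * Δ := mul_le_mul_of_nonneg_right (by linarith) hΔ
      rw [show (7 : ℝ) / 6 - 1 = 1 / 6 by norm_num] at a1
      have key : Lq s (1 / 6) + Lq s (1 / 2) ≤ 2 * Lq s P0 := by
        simp only [Lq_eq, Sn_sixth, Sn_half]
        have h5 : (1 / 4 + s) * (1 + s) ≤ (Sn P0 + s) ^ 2 := by
          have h6 : (3 / 4 + s) ^ 2 ≤ (Sn P0 + s) ^ 2 := pow_le_pow_left₀ (by positivity)
            (by linarith) 2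
          nlinarith
        have h6 := Real.log_le_log (by positivity) h5
        rw [Real.log_mul (by positivity) (by positivity), Real.log_pow] at h6
        push_cast at h6
        have h7 : 0 < Sn P0 + s := by linarith
        rw [Real.log_mul (by norm_num) (by positivity), Real.log_mul (by norm_num) (by positivity),
          Real.log_mul (by norm_num) h7.ne']
        linarith
      rw [← intervalIntegral.integral_add_adjacent_intervals (hi 1 (7 / 6)) (hi (7 / 6) P),
        ← intervalIntegral.integral_add_adjacent_intervals (hi (7 / 6) (4 / 3)) (hi (4 / 3) P)]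
      linarith

/-- The second defect beyond `1 / 2`. -/
theorem D2_ge {s q0 q : ℝ} (hs : 0 ≤ s) (h0 : 0 < q0) (h1 : q0 ≤ 1 / 4) (hq : 1 / 2 ≤ q)
    (hq1 : q ≤ 3 / 4) : (Lq s (1 / 4) + Lq s (3 / 8) - 2 * Lq s q0) / 8 ≤ Dq s q0 q := by
  have hS0 : Sn q0 ≤ 1 / 2 := by
    rw [← Sn_quarter]
    exact Sn_mono h0.le h1 (by norm_num)
  have hSp : 0 < Sn q0 := Sn_pos h0 (by linarith)
  have hi : ∀ a b : ℝ, IntervalIntegrable (fun t => Lq s t - Lq s q0) volume a b := fun a b =>
    (Lq_int hs a b).sub (by simp)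
  have hmono : ∀ {t t' : ℝ}, 0 < Sn t → Sn t ≤ Sn t' → Lq s t ≤ Lq s t' := fun h h' =>
    Lq_mono_t hs (by linarith) h'
  have e : Dq s q0 q = (∫ t in q0..(1 / 4), (Lq s t - Lq s q0)) +
      ((∫ t in (1 / 4 : ℝ)..(3 / 8), (Lq s t - Lq s q0)) +
      ((∫ t in (3 / 8 : ℝ)..(1 / 2), (Lq s t - Lq s q0)) +
      ∫ t in (1 / 2 : ℝ)..q, (Lq s t - Lq s q0))) := by
    rw [intervalIntegral.integral_add_adjacent_intervals (hi _ _) (hi _ _),
      intervalIntegral.integral_add_adjacent_intervals (hi _ _) (hi _ _),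
      intervalIntegral.integral_add_adjacent_intervals (hi _ _) (hi _ _)]
    rfl
  have a1 := int_lb (d := Lq s q0) (c := Lq s q0) hs h1 (fun t ht => hmono hSp
    (Sn_mono h0.le ht.1.le (by linarith [ht.2])))
  have a2 := int_lb (d := Lq s q0) (c := Lq s (1 / 4)) (a := 1 / 4) (b := 3 / 8) hs (by norm_num)
    (fun t ht => hmono (by rw [Sn_quarter]; norm_num)
    (Sn_mono (by norm_num) ht.1.le (by linarith [ht.2])))
  have a3 := int_lb (d := Lq s q0) (c := Lq s (3 / 8)) (a := 3 / 8) (b := 1 / 2) hs (by norm_num)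
    (fun t ht => hmono (by linarith [Sn_three_eighths])
    (Sn_mono (by norm_num) ht.1.le (by linarith [ht.2])))
  have a4 := int_lb (d := Lq s q0) (c := Lq s q0) hs hq (fun t ht => hmono hSp (by
    have h3 : Sn (3 / 4) ≤ Sn t := Sn_anti ht.1.le (by linarith [ht.2]) (by norm_num)
    have h4 : Sn (3 / 4) = 1 / 2 := by
      rw [← Sn_one_sub (3 / 4), show (1 : ℝ) - 3 / 4 = 1 / 4 by norm_num, Sn_quarter]
    linarith))
  rw [sub_self, mul_zero] at a1 a4
  rw [e]
  linarith

/-- The first defect. -/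
theorem D1_ge {s p0 p z : ℝ} (hs : 0 ≤ s) (h0 : 0 < p0) (h1 : p0 < 1 / 2) (hz : 1 ≤ z)
    (h : (Sn p0 + s) ^ 2 ≤ z * ((1 + s) * (1 / 2 + s))) (hp : 0 ≤ p) (hp1 : p ≤ 3 / 4) :
    -(Real.log z / 16) ≤ Dq s p0 p := by
  have hlz : 0 ≤ Real.log z := Real.log_nonneg hz
  have hSp : 0 < Sn p0 := Sn_pos h0 (by linarith)
  have hmono : ∀ {t t' : ℝ}, 0 < Sn t → Sn t ≤ Sn t' → Lq s t ≤ Lq s t' := fun h h' =>
    Lq_mono_t hs (by linarith) h'
  have hle : ∀ p : ℝ, 0 ≤ p → p ≤ 1 / 2 → 0 ≤ Dq s p0 p := by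
    intro p hp hp1
    rcases le_total p0 p with hc | hc
    · have a1 := int_lb (d := Lq s p0) (c := Lq s p0) hs hc (fun t ht => hmono hSp
        (Sn_mono h0.le ht.1.le (by linarith [ht.2])))
      rw [sub_self, mul_zero] at a1
      exact a1
    · have a1 := int_ub (d := Lq s p0) (c := Lq s p0) hs hc (fun t ht => hmono
        (Sn_pos (by linarith [ht.1]) (by linarith [ht.2]))
        (Sn_mono (by linarith [ht.1]) ht.2.le (by linarith)))
      rw [sub_self, mul_zero] at a1
      have h4 : Dq s p0 p = -∫ t in p..p0, (Lq s t - Lq s p0) := by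
        rw [← intervalIntegral.integral_symm]
        rfl
      linarith
  rcases le_total p (1 / 2) with hc | hc
  · have := hle p hp hc
    linarith
  · have a1 := trap (c := Lq s p0) hs (le_refl (1 / 2 : ℝ)) hc hp1
    have e := Dq_sub hs p0 (1 / 2) p
    have a2 := hle (1 / 2) (by norm_num) le_rfl
    have e34 : Sn (3 / 4) = 1 / 2 := by
      rw [← Sn_one_sub (3 / 4), show (1 : ℝ) - 3 / 4 = 1 / 4 by norm_num, Sn_quarter]
    have a3 : Lq s (3 / 4) ≤ Lq s p := hmono (by rw [e34]; norm_num)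
      (Sn_anti hc hp1 (by norm_num))
    have a4 : -(Real.log z / 4) ≤ (Lq s (1 / 2) + Lq s (3 / 4)) / 2 - Lq s p0 := by
      simp only [Lq_eq, Sn_half, e34]
      have h5 := Real.log_le_log (by positivity) h
      rw [Real.log_mul (by linarith) (by positivity), Real.log_mul (by positivity) (by positivity),
        Real.log_pow] at h5
      push_cast at h5
      have h7 : 0 < Sn p0 + s := by linarith
      rw [Real.log_mul (by norm_num) (by positivity), Real.log_mul (by norm_num) (by positivity),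
        Real.log_mul (by norm_num) h7.ne']
      linarith
    have a5 : (p - 1 / 2) * (-(Real.log z / 4)) ≤
        (p - 1 / 2) * ((Lq s (1 / 2) + Lq s p) / 2 - Lq s p0) :=
      mul_le_mul_of_nonneg_left (by linarith) (by linarith)
    have a6 : (p - 1 / 2) * (Real.log z / 4) ≤ 1 / 4 * (Real.log z / 4) :=
      mul_le_mul_of_nonneg_right (by linarith) (by linarith)
    linarith

theorem exp_12_5 : (12 : ℝ) / 5 ≤ Real.log 11.03 := by
  rw [Real.le_log_iff_exp_le (by norm_num)]
  have h1 := Real.exp_one_lt_d9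
  have h2 : Real.exp (12 / 5) ^ 5 ≤ (11.03 : ℝ) ^ 5 := by
    rw [← Real.exp_nat_mul]
    have h3 : Real.exp ((5 : ℕ) * (12 / 5)) = Real.exp 1 ^ 12 := by
      rw [← Real.exp_nat_mul]
      norm_num
    rw [h3]
    have h4 : Real.exp 1 ^ 12 ≤ (2.7182818286 : ℝ) ^ 12 :=
      pow_le_pow_left₀ (Real.exp_pos 1).le h1.le 12
    refine h4.trans ?_
    norm_num
  exact le_of_pow_le_pow_left₀ (by norm_num) (by norm_num) h2

/-- **The part `q ≥ 1 / 2`**, weights `2` and `1`. -/
theorem SW_right {s1 s2 s3 p0 q0 x y z : ℝ} (hs1 : 0 ≤ s1) (hs2 : 0 ≤ s2) (hs3 : 0 ≤ s3)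
    (hp0 : 0 < p0) (hp1 : p0 < 1 / 2) (hq0 : 0 < q0) (hq1 : q0 ≤ 1 / 4)
    (hP0 : 1 / 3 ≤ p0 + q0) (hP1 : p0 + q0 ≤ 2 / 3) (hx : 0 < x) (hy : 0 < y) (hz : 1 ≤ z)
    (cz : (Sn p0 + s1) ^ 2 ≤ z * ((1 + s1) * (1 / 2 + s1)))
    (cy : 1 + s3 ≤ y * (Sn (p0 + q0) + s3))
    (cx : x * (Sn q0 + s2) ^ 2 ≤ (1 / 2 + s2) * (0.8535 + s2))
    (hR : 11.03 * (z ^ 6 * y ^ 8) ≤ x ^ 3) (p q : ℝ) (hp : 0 ≤ p) (hp' : p ≤ 3 / 4)
    (hq : 1 / 2 ≤ q) (hq' : q ≤ 3 / 4) : 1 / 20 ≤ SW s1 s2 s3 p0 q0 p q := by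
  have d1 := D1_ge hs1 hp0 hp1 hz cz hp hp'
  have d2 := D2_ge hs2 hq0 hq1 hq hq'
  have d3 := D3_le (P := p + q) hs3 hP0 hP1 (by linarith) (by linarith)
  have h38 := Sn_three_eighths
  have hB : 0 < Sn (p0 + q0) + s3 := by
    have := Sn_pos (t := p0 + q0) (by linarith) (by linarith)
    linarith
  have hA2 : 0 < Sn q0 + s2 := by
    have := Sn_pos hq0 (by linarith)
    linarith
  have e2 : Real.log x ≤ 2 * (Lq s2 (1 / 4) + Lq s2 (3 / 8) - 2 * Lq s2 q0) := by
    have h1 : x * (Sn q0 + s2) ^ 2 ≤ (1 / 2 + s2) * (Sn (3 / 8) + s2) :=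
      cx.trans (mul_le_mul_of_nonneg_left (by linarith) (by linarith))
    have h2 := Real.log_le_log (by positivity) h1
    have h3 : 0 < Sn (3 / 8) + s2 := by linarith
    rw [Real.log_mul hx.ne' (by positivity), Real.log_mul (by positivity) h3.ne',
      Real.log_pow] at h2
    push_cast at h2
    simp only [Lq_eq, Sn_quarter]
    rw [Real.log_mul (by norm_num) (by positivity), Real.log_mul (by norm_num) h3.ne',
      Real.log_mul (by norm_num) hA2.ne']
    linarith
  have e3 : 2 * (Lq s3 (1 / 2) - Lq s3 (p0 + q0)) ≤ Real.log y := by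
    have h2 := Real.log_le_log (by positivity) cy
    rw [Real.log_mul hy.ne' hB.ne'] at h2
    simp only [Lq_eq, Sn_half]
    rw [Real.log_mul (by norm_num) (by positivity), Real.log_mul (by norm_num) hB.ne']
    linarith
  have e4 : 12 / 5 + 6 * Real.log z + 8 * Real.log y ≤ 3 * Real.log x := by
    have hz0 : 0 < z := by linarith
    have h2 := Real.log_le_log (by positivity) hR
    rw [Real.log_mul (by norm_num) (by positivity), Real.log_mul (by positivity) (by positivity),
      Real.log_pow, Real.log_pow, Real.log_pow] at h2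
    push_cast at h2
    have := exp_12_5
    linarith
  unfold SW
  linarith

end Pool.Agent.S5.C2
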