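import Pool.Agent.S5.I.F15
import Pool.Agent.S5.I.W2d
import Pool.Agent.S5.I.InqH
import Pool.Agent.S5.I.Quad

/-!
# Flats of closed nodes: from the inequalities to the statement of the node
-/

set_option autoImplicit false

namespace Pool.Agent.S5

open Complex Set Pool.Agent.H63.VC3 Pool.Agent.S3

/-- The flat pieces. -/
def flt (pc : Pc) : Prop := pc = .F ∨ pc = .H ∨ pc = .G

/-- The statements of a node with two half twists on the flats. -/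
structure FlatH (n : Nt) (sa sb : Slt) : Prop where
  U : ∀ (a b : ℂ) (wa wb : ℝ) (pa pb : Pc), flt pa → flt pb → sa.In pa a wa → sb.In pb b wb →
    Ecl sa.ys sb.ys a b + sa.e n pa a wa + sb.e n pb b wb < 0 ∨
      (a = sa.ys ∧ b = sb.ys ∧ pa.cr ∧ pb.cr)
  quad : ∃ c : ℝ, 0 < c ∧ ∃ ρ : ℝ, 0 < ρ ∧ ∀ s t : ℝ, |s| ≤ ρ → |t| ≤ ρ →
    (sa.ex = false → s = 0) → (sb.ex = false → t = 0) →
    Ecl sa.ys sb.ys (sa.ys + s) (sb.ys + t) ≤ -(c * (s ^ 2 + t ^ 2))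

theorem FlatH.swap {n : Nt} {sa sb : Slt} (h : FlatH n sa sb) : FlatH n sb sa where
  U := by
    intro a b wa wb pa pb fa fb ha hb
    rw [Ecl_symm]
    rcases h.U b a wb wa pb pa fb fa hb ha with k | ⟨k1, k2, k3, k4⟩
    · left
      linarith
    · exact Or.inr ⟨k2, k1, k4, k3⟩
  quad := by
    obtain ⟨c, hc, ρ, hρ, hh⟩ := h.quad
    refine ⟨c, hc, ρ, hρ, fun s t hs ht h1 h2 => ?_⟩
    rw [Ecl_symm]
    have := hh t s ht hs h2 h1
    linarith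

end Pool.Agent.S5

namespace Pool.Agent.S5.F

open Complex Set Pool.Agent.S5.C2 Pool.Agent.H63.VC3 Pool.Agent.S3

/-- The number `s` of a height. -/
noncomputable def sQ (h : ℝ) : ℝ := Real.sinh (Real.pi * h) ^ 2

theorem sQ_nonneg (h : ℝ) : 0 ≤ sQ h := sq_nonneg _

theorem sQ_neg (h : ℝ) : sQ (-h) = sQ h := by
  unfold sQ
  rw [mul_neg, Real.sinh_neg, neg_sq]

theorem Td_line {z0 z : ℂ} (hi : z.im = z0.im) : Td z0 z = -Dq (sQ z0.im) z0.re z.re := by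
  unfold Td sQ
  rw [Dq_eq]
  have e1 : z = (z.re : ℂ) + z0.im * I := by apply Complex.ext <;> simp [hi]
  have e2 : z0 = (z0.re : ℂ) + z0.im * I := by apply Complex.ext <;> simp
  have e3 : (hh z0 * (z - z0)).re = Lg z0.im z0.re * (z.re - z0.re) := by
    rw [mul_re, sub_im, hi, sub_self, mul_zero, sub_zero, hh_re, sub_re]
  rw [e3, ← e1, ← e2]
  ring

theorem Lq_one_sub (s t : ℝ) : Lq s (1 - t) = Lq s t := by
  rw [Lq_eq, Lq_eq, Sn_one_sub]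

theorem Dq_one_sub (s x0 x : ℝ) : Dq s (1 - x0) (1 - x) = -Dq s x0 x := by
  unfold Dq
  have h := intervalIntegral.integral_comp_sub_left (a := x) (b := x0)
    (fun t => Lq s t - Lq s (1 - x0)) (1 : ℝ)
  rw [← h, intervalIntegral.integral_symm]
  congr 1
  apply intervalIntegral.integral_congr
  intro t _
  simp only [Lq_one_sub]

theorem Dq_nonneg {s x0 x : ℝ} (hs : 0 ≤ s) (h0 : 0 < x0) (h1 : x0 < 1 / 2) (hx : 0 ≤ x)
    (hx1 : x ≤ 1 / 2) : 0 ≤ Dq s x0 x := by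
  have hSp : 0 < Sn x0 := Sn_pos h0 (by linarith)
  have hmono : ∀ {t t' : ℝ}, 0 < Sn t → Sn t ≤ Sn t' → Lq s t ≤ Lq s t' := fun h h' =>
    Lq_mono_t hs (by linarith) h'
  rcases le_total x0 x with hc | hc
  · have a1 := int_lb (d := Lq s x0) (c := Lq s x0) hs hc (fun t ht => hmono hSp
      (Sn_mono h0.le ht.1.le (by linarith [ht.2])))
    rw [sub_self, mul_zero] at a1
    exact a1
  · have a1 := int_ub (d := Lq s x0) (c := Lq s x0) hs hc (fun t ht => hmono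
      (Sn_pos (by linarith [ht.1]) (by linarith [ht.2]))
      (Sn_mono (by linarith [ht.1]) ht.2.le (by linarith)))
    rw [sub_self, mul_zero] at a1
    have h4 : Dq s x0 x = -∫ t in x..x0, (Lq s t - Lq s x0) := by
      rw [← intervalIntegral.integral_symm]
      rfl
    linarith

/-- The node on the flats. -/
theorem Ecl_flat {as bs a b : ℂ} (ha : a.im = as.im) (hb : b.im = bs.im) :
    Ecl as bs a b = -SS (sQ as.im) (sQ bs.im) (sQ (as.im + bs.im)) (1 / 2 - as.re) (1 / 2 - bs.re)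
      (1 / 2 - a.re) (1 / 2 - b.re) := by
  have hre : ∀ w : ℂ, (1 / 2 - w).re = 1 / 2 - w.re := fun w => by simp
  have him : ∀ w : ℂ, (1 / 2 - w).im = -w.im := fun w => by simp
  have e1 := Td_line (z0 := 1 / 2 - as) (z := 1 / 2 - a) (by rw [him, him, ha])
  have e2 := Td_line (z0 := 1 / 2 - bs) (z := 1 / 2 - b) (by rw [him, him, hb])
  have e3 := Td_line (z0 := as + bs) (z := a + b) (by rw [add_im, add_im, ha, hb])
  rw [hre, hre, him, sQ_neg] at e1 e2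
  rw [add_re, add_re, add_im] at e3
  have e4 := Dq_one_sub (sQ (as.im + bs.im)) (1 / 2 - as.re + (1 / 2 - bs.re))
    (1 / 2 - a.re + (1 / 2 - b.re))
  have e5 : 1 - (1 / 2 - as.re + (1 / 2 - bs.re)) = as.re + bs.re := by ring
  have e6 : 1 - (1 / 2 - a.re + (1 / 2 - b.re)) = a.re + b.re := by ring
  rw [e5, e6] at e4
  have e7 : ((a - as) - (b - bs)).im = 0 := by
    simp [ha, hb]
  unfold Ecl SS
  rw [e1, e2, e3, e4, e7]
  ring

theorem eff_flt {pc : Pc} (h : flt pc) (y : ℂ) : pc.eff y = y := by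
  rcases h with rfl | rfl | rfl <;> simp [Pc.eff, Pc.box]

/-- The contribution of a slot on the flats. -/
theorem slE_flt {S : Bool} {n x : Nt} {pc : Pc} {lam ys y : ℂ} (hf : flt pc) (hy : y.im = ys.im) :
    slE S n x pc lam ys y 0 =
      -(S5.dT S n x pc * Dq (sQ ys.im) (1 / 2 - ys.re) (1 / 2 - y.re)) - hT S n x pc := by
  have hre : ∀ w : ℂ, (1 / 2 - w).re = 1 / 2 - w.re := fun w => by simp
  have him : ∀ w : ℂ, (1 / 2 - w).im = -w.im := fun w => by simp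
  have e1 := Td_line (z0 := 1 / 2 - ys) (z := 1 / 2 - y) (by rw [him, him, hy])
  rw [hre, hre, him, sQ_neg] at e1
  unfold slE
  rw [eff_flt hf, e1, sub_self, mul_zero, zero_re]
  ring

/-- The neighbour is the end with three half twists. -/
def x3 (x : Nt) : Prop := x = ⟨3, true⟩

/-- The neighbour is the end with four half twists. -/
def x4 (x : Nt) : Prop := x = ⟨4, true⟩

theorem dT_F (S : Bool) (x : Nt) (h : ¬(S = true ∧ x = ⟨3, true⟩)) : S5.dT S ⟨2, false⟩ x .F = 0 := by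
  by_cases hS : S = true
  · have hx : x ≠ ⟨3, true⟩ := fun hx => h ⟨hS, hx⟩
    simp [S5.dT, d0, Pc.mir, hx]
  · simp [S5.dT, d0, Pc.mir, hS]

theorem dT_H (S : Bool) (x : Nt) (h : x ≠ ⟨3, true⟩) : S5.dT S ⟨2, false⟩ x .H = 0 := by
  simp [S5.dT, d0, Pc.mir, h]

theorem dT_G (S : Bool) (x : Nt) (h : x ≠ ⟨3, true⟩) : S5.dT S ⟨2, false⟩ x .G = 0 := by
  simp [S5.dT, d0, Pc.mir, h]

theorem dT3_F : S5.dT true ⟨2, false⟩ ⟨3, true⟩ .F = -1 := by
  unfold S5.dT d0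
  simp [Pc.mir]

theorem dT3_H (S : Bool) : S5.dT S ⟨2, false⟩ ⟨3, true⟩ .H = -1 := by
  unfold S5.dT d0
  simp [Pc.mir]

theorem dT3_G (S : Bool) : S5.dT S ⟨2, false⟩ ⟨3, true⟩ .G = -1 := by
  unfold S5.dT d0
  simp [Pc.mir]

theorem hT_F (S : Bool) (x : Nt) : hT S ⟨2, false⟩ x .F = 0 := by
  unfold hT r0
  simp [Pc.mir]

theorem hT_H (S : Bool) (x : Nt) : hT S ⟨2, false⟩ x .H = 0 := by
  unfold hT r0
  simp [Pc.mir]

theorem hT_G (S : Bool) (x : Nt) (h : ¬(S = true ∧ (x = ⟨3, true⟩ ∨ x = ⟨4, true⟩))) :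
    hT S ⟨2, false⟩ x .G = 0 := by
  unfold hT r0
  simp only [Pc.mir]
  have e1 : ((⟨2, false⟩ : Nt) = ⟨3, true⟩) = False := by simp
  have e2 : ((⟨2, false⟩ : Nt) = ⟨4, true⟩) = False := by simp
  have e3 : ((⟨2, false⟩ : Nt) = ⟨3, false⟩) = False := by simp
  cases S
  · simp
  · have h3 : x ≠ ⟨3, true⟩ := fun h4 => h ⟨rfl, Or.inl h4⟩
    have h4 : x ≠ ⟨4, true⟩ := fun h4 => h ⟨rfl, Or.inr h4⟩
    simp [h3, h4]

theorem hT3_G : hT true ⟨2, false⟩ ⟨3, true⟩ .G = -(1 / 20) := by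
  unfold hT r0
  simp [Pc.mir]
  norm_num

theorem hT4_G : hT true ⟨2, false⟩ ⟨4, true⟩ .G = -(4 / 25) := by
  unfold hT r0
  simp [Pc.mir]
  norm_num

/-! ### The contributions of the slots -/

/-- The defect of a slot. -/
noncomputable def dS (s : Slt) (x : ℝ) : ℝ := Dq (sQ s.ys.im) (1 / 2 - s.ys.re) x

theorem In_pos {s : Slt} {pc : Pc} {y : ℂ} {w : ℝ} (ex : s.ex = true) (hf : flt pc)
    (h : s.In pc y w) : w = 0 ∧ y.im = s.ys.im ∧ 0 ≤ 1 / 2 - y.re ∧ 1 / 2 - y.re ≤ 3 / 4 ∧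
      (pc ≠ .F → 7 / 20 ≤ 1 / 2 - y.re) ∧ (pc = .G → 1 / 2 ≤ 1 / 2 - y.re) := by
  unfold Slt.In at h
  rw [if_pos ex] at h
  obtain ⟨h, -⟩ := h
  rcases hf with rfl | rfl | rfl
  · obtain ⟨h1, h2, h3, h4⟩ := h
    exact ⟨h1, h2, by linarith, by linarith, fun h5 => absurd rfl h5, fun h5 => absurd h5 (by simp)⟩
  · obtain ⟨h1, h2, h3, h4⟩ := h
    exact ⟨h1, h2, by linarith, by linarith, fun _ => by linarith, fun h5 => absurd h5 (by simp)⟩
  · obtain ⟨h1, h2, h3, h4⟩ := h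
    exact ⟨h1, h2, by linarith, by linarith, fun _ => by linarith, fun _ => by linarith⟩

theorem e_flt {s : Slt} {pc : Pc} {y : ℂ} (ex : s.ex = true) (hf : flt pc) (hy : y.im = s.ys.im) :
    s.e ⟨2, false⟩ pc y 0 =
      -(S5.dT s.S ⟨2, false⟩ s.x pc * dS s (1 / 2 - y.re)) - hT s.S ⟨2, false⟩ s.x pc := by
  unfold Slt.e
  rw [if_pos ex]
  exact slE_flt hf hy

/-- A slot of an `A` edge. -/
theorem e_A {s : Slt} {pc : Pc} {y : ℂ} {w : ℝ} (ex : s.ex = true) (hS : s.S = false) (hf : flt pc)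
    (h : s.In pc y w) : s.e ⟨2, false⟩ pc y w = 0 ∨
      (s.x = ⟨3, true⟩ ∧ 7 / 20 ≤ 1 / 2 - y.re ∧ s.e ⟨2, false⟩ pc y w = dS s (1 / 2 - y.re)) := by
  obtain ⟨h1, h2, h3, h4, h5, h6⟩ := In_pos ex hf h
  subst h1
  have e := e_flt ex hf h2
  rw [e, hS]
  by_cases hx : s.x = ⟨3, true⟩
  · rcases hf with rfl | rfl | rfl
    · left
      rw [dT_F _ _ (by simp), hT_F]
      ring
    · right
      refine ⟨hx, h5 (by simp), ?_⟩
      rw [hx, dT3_H, hT_H]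
      ring
    · right
      refine ⟨hx, h5 (by simp), ?_⟩
      rw [hx, dT3_G, hT_G _ _ (by simp)]
      ring
  · left
    rcases hf with rfl | rfl | rfl
    · rw [dT_F _ _ (by simp), hT_F]
      ring
    · rw [dT_H _ _ hx, hT_H]
      ring
    · rw [dT_G _ _ hx, hT_G _ _ (by simp)]
      ring

/-- A slot of an `S` edge. -/
theorem e_S {s : Slt} {pc : Pc} {y : ℂ} {w : ℝ} (ex : s.ex = true) (hS : s.S = true) (hf : flt pc)
    (h : s.In pc y w) : (s.x ≠ ⟨3, true⟩ ∧ s.e ⟨2, false⟩ pc y w = 0) ∨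
      (s.x = ⟨4, true⟩ ∧ 1 / 2 ≤ 1 / 2 - y.re ∧ s.e ⟨2, false⟩ pc y w = 4 / 25) ∨
      (s.x = ⟨3, true⟩ ∧ (s.e ⟨2, false⟩ pc y w = dS s (1 / 2 - y.re) ∨
        (1 / 2 ≤ 1 / 2 - y.re ∧ s.e ⟨2, false⟩ pc y w = dS s (1 / 2 - y.re) + 1 / 20))) := by
  obtain ⟨h1, h2, h3, h4, h5, h6⟩ := In_pos ex hf h
  subst h1
  have e := e_flt ex hf h2
  rw [e, hS]
  by_cases hx : s.x = ⟨3, true⟩
  · right
    right
    refine ⟨hx, ?_⟩
    rw [hx]
    rcases hf with rfl | rfl | rfl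
    · left
      rw [dT3_F, hT_F]
      ring
    · left
      rw [dT3_H, hT_H]
      ring
    · right
      refine ⟨h6 rfl, ?_⟩
      rw [dT3_G, hT3_G]
      ring
  · by_cases hx' : s.x = ⟨4, true⟩
    · rcases hf with rfl | rfl | rfl
      · left
        refine ⟨hx, ?_⟩
        rw [dT_F _ _ (fun h7 => hx h7.2), hT_F]
        ring
      · left
        refine ⟨hx, ?_⟩
        rw [dT_H _ _ hx, hT_H]
        ring
      · right
        left
        refine ⟨hx', h6 rfl, ?_⟩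
        rw [dT_G _ _ hx, hx', hT4_G]
        ring
    · left
      refine ⟨hx, ?_⟩
      rcases hf with rfl | rfl | rfl
      · rw [dT_F _ _ (fun h7 => hx h7.2), hT_F]
        ring
      · rw [dT_H _ _ hx, hT_H]
        ring
      · rw [dT_G _ _ hx, hT_G _ _ (by rintro ⟨-, h7 | h7⟩; exacts [hx h7, hx' h7])]
        ring

/-! ### The statement of the node -/

/-- `SS` of a node. -/
noncomputable def sS (sa sb : Slt) (p q : ℝ) : ℝ :=
  SS (sQ sa.ys.im) (sQ sb.ys.im) (sQ (sa.ys.im + sb.ys.im)) (1 / 2 - sa.ys.re) (1 / 2 - sb.ys.re) p q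

/-- The inequalities of a node; the first edge is an `A` edge. -/
structure FlB (sa sb : Slt) : Prop where
  pos : Pos (1 / 2 - sa.ys.re) (1 / 2 - sb.ys.re)
  n22 : ¬(sb.S = true ∧ sb.x = ⟨3, true⟩) → ∃ c > 0, ∀ p ∈ Icc (0 : ℝ) (3 / 4),
    ∀ q ∈ Icc (0 : ℝ) (3 / 4),
      c * ((p - (1 / 2 - sa.ys.re)) ^ 2 + (q - (1 / 2 - sb.ys.re)) ^ 2) ≤ sS sa sb p q
  n21 : sb.S = true → sb.x = ⟨3, true⟩ → sa.x ≠ ⟨3, true⟩ ∧ (∃ c > 0, ∀ p ∈ Icc (0 : ℝ) (3 / 4),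
    ∀ q ∈ Icc (0 : ℝ) (3 / 4),
      c * ((p - (1 / 2 - sa.ys.re)) ^ 2 + (q - (1 / 2 - sb.ys.re)) ^ 2) ≤ sS sa sb p q - dS sb q) ∧
    ∀ p ∈ Icc (0 : ℝ) (3 / 4), ∀ q ∈ Icc (1 / 2 : ℝ) (3 / 4), 1 / 20 < sS sa sb p q - dS sb q
  n12 : sa.x = ⟨3, true⟩ → ∀ p ∈ Icc (7 / 20 : ℝ) (3 / 4), ∀ q ∈ Icc (0 : ℝ) (3 / 4),
    0 < sS sa sb p q - dS sa p
  n12' : sb.S = false → sb.x = ⟨3, true⟩ → ∀ p ∈ Icc (0 : ℝ) (3 / 4), ∀ q ∈ Icc (7 / 20 : ℝ) (3 / 4),
    0 < sS sa sb p q - dS sb q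
  n11 : sa.x = ⟨3, true⟩ → sb.S = false → sb.x = ⟨3, true⟩ → ∀ p ∈ Icc (7 / 20 : ℝ) (3 / 4),
    ∀ q ∈ Icc (7 / 20 : ℝ) (3 / 4), 0 < sS sa sb p q - dS sa p - dS sb q
  n4 : sb.S = true → sb.x = ⟨4, true⟩ → ∀ p ∈ Icc (0 : ℝ) (3 / 4), ∀ q ∈ Icc (1 / 2 : ℝ) (3 / 4),
    4 / 25 < sS sa sb p q
  n4' : sb.S = true → sb.x = ⟨4, true⟩ → sa.x = ⟨3, true⟩ → ∀ p ∈ Icc (7 / 20 : ℝ) (3 / 4),
    ∀ q ∈ Icc (1 / 2 : ℝ) (3 / 4), 4 / 25 < sS sa sb p q - dS sa p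

theorem crit_of {s : Slt} {pc : Pc} {y : ℂ} {w : ℝ} (ex : s.ex = true) (hf : flt pc)
    (h : s.In pc y w) (hp : 1 / 2 - s.ys.re < 1 / 2) (e : 1 / 2 - y.re = 1 / 2 - s.ys.re) :
    y = s.ys ∧ pc.cr := by
  obtain ⟨h1, h2, h3, h4, h5, h6⟩ := In_pos ex hf h
  refine ⟨Complex.ext (by linarith) h2, ?_⟩
  rcases hf with rfl | rfl | rfl
  · exact Or.inl rfl
  · exact Or.inr rfl
  · have := h6 rfl
    linarith

theorem dS_self (s : Slt) : dS s (1 / 2 - s.ys.re) = 0 := Dq_self _ _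

theorem FlB.flat {sa sb : Slt} (h : FlB sa sb) (ea : sa.ex = true) (eb : sb.ex = true)
    (hS : sa.S = false) : FlatH ⟨2, false⟩ sa sb := by
  have hE : ∀ {a b : ℂ}, a.im = sa.ys.im → b.im = sb.ys.im →
      Ecl sa.ys sb.ys a b = -sS sa sb (1 / 2 - a.re) (1 / 2 - b.re) := fun ha hb => Ecl_flat ha hb
  have zero : ∀ {c X Y : ℝ}, 0 < c → X ^ 2 + Y ^ 2 = 0 → X = 0 ∧ Y = 0 := by
    intro c X Y _ h1
    have h2 : X ^ 2 = 0 := by nlinarith [sq_nonneg X, sq_nonneg Y]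
    have h3 : Y ^ 2 = 0 := by nlinarith [sq_nonneg X, sq_nonneg Y]
    exact ⟨pow_eq_zero_iff (two_ne_zero) |>.1 h2, pow_eq_zero_iff (two_ne_zero) |>.1 h3⟩
  constructor
  · intro a b wa wb pa pb fa fb ha hb
    obtain ⟨a1, a2, a3, a4, a5, a6⟩ := In_pos ea fa ha
    obtain ⟨b1, b2, b3, b4, b5, b6⟩ := In_pos eb fb hb
    rw [hE a2 b2]
    have hp : 1 / 2 - a.re ∈ Icc (0 : ℝ) (3 / 4) := ⟨a3, a4⟩
    have hq : 1 / 2 - b.re ∈ Icc (0 : ℝ) (3 / 4) := ⟨b3, b4⟩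
    -- equality
    have eq : ∀ {c V : ℝ}, 0 < c → c * ((1 / 2 - a.re - (1 / 2 - sa.ys.re)) ^ 2 +
        (1 / 2 - b.re - (1 / 2 - sb.ys.re)) ^ 2) ≤ V → 0 < V ∨
          (a = sa.ys ∧ b = sb.ys ∧ pa.cr ∧ pb.cr) := by
      intro c V hc hV
      rcases eq_or_ne ((1 / 2 - a.re - (1 / 2 - sa.ys.re)) ^ 2 +
        (1 / 2 - b.re - (1 / 2 - sb.ys.re)) ^ 2) 0 with h0 | h0
      · right
        obtain ⟨z1, z2⟩ := zero hc h0
        obtain ⟨c1, c2⟩ := crit_of ea fa ha h.pos.hp1 (by linarith)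
        obtain ⟨d1, d2⟩ := crit_of eb fb hb h.pos.hq1 (by linarith)
        exact ⟨c1, d1, c2, d2⟩
      · left
        have : 0 < (1 / 2 - a.re - (1 / 2 - sa.ys.re)) ^ 2 +
            (1 / 2 - b.re - (1 / 2 - sb.ys.re)) ^ 2 := lt_of_le_of_ne (by positivity) (Ne.symm h0)
        exact lt_of_lt_of_le (mul_pos hc this) hV
    rcases hSb : sb.S with _ | _
    · -- two `A` edges
      have n3 : ¬(sb.S = true ∧ sb.x = ⟨3, true⟩) := by rw [hSb]; simp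
      rcases e_A ea hS fa ha with k1 | ⟨k1, k2, k3⟩ <;> rcases e_A eb hSb fb hb with l1 | ⟨l1, l2, l3⟩
      · rw [k1, l1]
        obtain ⟨c, hc, hh⟩ := h.n22 n3
        rcases eq hc (hh _ hp _ hq) with h9 | h9
        · left
          linarith
        · exact Or.inr h9
      · left
        rw [k1, l3]
        have := h.n12' hSb l1 _ hp _ ⟨l2, b4⟩
        linarith
      · left
        rw [k3, l1]
        have := h.n12 k1 _ ⟨k2, a4⟩ _ hq
        linarith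
      · left
        rw [k3, l3]
        have := h.n11 k1 hSb l1 _ ⟨k2, a4⟩ _ ⟨l2, b4⟩
        linarith
    · rcases e_A ea hS fa ha with k1 | ⟨k1, k2, k3⟩ <;>
        rcases e_S eb hSb fb hb with ⟨l1, l2⟩ | ⟨l1, l2, l3⟩ | ⟨l1, l2⟩
      · rw [k1, l2]
        obtain ⟨c, hc, hh⟩ := h.n22 (fun h9 => l1 h9.2)
        rcases eq hc (hh _ hp _ hq) with h9 | h9
        · left
          linarith
        · exact Or.inr h9
      · left
        rw [k1, l3]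
        have := h.n4 hSb l1 _ hp _ ⟨l2, b4⟩
        linarith
      · obtain ⟨-, ⟨c, hc, hh⟩, h20⟩ := h.n21 hSb l1
        rcases l2 with l2 | ⟨l2, l3⟩
        · rw [k1, l2]
          rcases eq hc (hh _ hp _ hq) with h9 | h9
          · left
            linarith
          · exact Or.inr h9
        · left
          rw [k1, l3]
          have := h20 _ hp _ ⟨l2, b4⟩
          linarith
      · left
        rw [k3, l2]
        have := h.n12 k1 _ ⟨k2, a4⟩ _ hq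
        linarith
      · left
        rw [k3, l3]
        have := h.n4' hSb l1 k1 _ ⟨k2, a4⟩ _ ⟨l2, b4⟩
        linarith
      · exact absurd k1 (h.n21 hSb l1).1
  · -- the quadratic bound
    obtain ⟨p0, p1, q0, q1⟩ := h.pos
    have key : ∃ c > 0, ∀ p ∈ Icc (0 : ℝ) (1 / 2), ∀ q ∈ Icc (0 : ℝ) (1 / 2),
        c * ((p - (1 / 2 - sa.ys.re)) ^ 2 + (q - (1 / 2 - sb.ys.re)) ^ 2) ≤ sS sa sb p q := by
      by_cases h3 : sb.S = true ∧ sb.x = ⟨3, true⟩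
      · obtain ⟨-, ⟨c, hc, hh⟩, -⟩ := h.n21 h3.1 h3.2
        refine ⟨c, hc, fun p hp q hq => ?_⟩
        have h4 := hh p ⟨hp.1, by linarith [hp.2]⟩ q ⟨hq.1, by linarith [hq.2]⟩
        have h5 : 0 ≤ dS sb q := by
          unfold dS
          exact Dq_nonneg (sQ_nonneg _) q0 q1 hq.1 hq.2
        linarith
      · obtain ⟨c, hc, hh⟩ := h.n22 h3
        exact ⟨c, hc, fun p hp q hq => hh p ⟨hp.1, by linarith [hp.2]⟩ q ⟨hq.1, by linarith [hq.2]⟩⟩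
    obtain ⟨c, hc, hh⟩ := key
    refine ⟨c, hc, min (min (1 / 2 - sa.ys.re) (1 / 2 - sb.ys.re)) (min sa.ys.re sb.ys.re),
      lt_min (lt_min p0 q0) (lt_min (by linarith) (by linarith)), fun s t hs ht _ _ => ?_⟩
    have m1 := (hs.trans (min_le_left _ _)).trans (min_le_left _ _)
    have m2 := (ht.trans (min_le_left _ _)).trans (min_le_right _ _)
    have m3 := (hs.trans (min_le_right _ _)).trans (min_le_left _ _)
    have m4 := (ht.trans (min_le_right _ _)).trans (min_le_right _ _)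
    rw [abs_le] at m1 m2 m3 m4
    have e := hE (a := sa.ys + s) (b := sb.ys + t) (by simp) (by simp)
    rw [e]
    have r1 : (sa.ys + (s : ℂ)).re = sa.ys.re + s := by simp
    have r2 : (sb.ys + (t : ℂ)).re = sb.ys.re + t := by simp
    rw [r1, r2]
    have := hh (1 / 2 - (sa.ys.re + s)) ⟨by linarith, by linarith⟩ (1 / 2 - (sb.ys.re + t))
      ⟨by linarith, by linarith⟩
    have e3 : (1 / 2 - (sa.ys.re + s) - (1 / 2 - sa.ys.re)) ^ 2 +
      (1 / 2 - (sb.ys.re + t) - (1 / 2 - sb.ys.re)) ^ 2 = s ^ 2 + t ^ 2 := by ring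
    rw [e3] at this
    linarith

end Pool.Agent.S5.F
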