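import Pool.Agent.S5.I.F5
import Pool.Agent.S5.K.Defs

/-!
# The relations between the slots of a closed node and its critical point
-/

set_option autoImplicit false

namespace Pool.Agent.S5.F

open Pool.Agent.S5.C2 Pool.Agent.S5.K Complex
open scoped ComplexConjugate

theorem aF_tw {p : ℝ} (h0 : 0 < p) (h1 : p < 1 / 2) : aF (tw p) = Real.sin (Real.pi * p) ^ 2 := by
  have := Sn_tw h0 h1
  unfold Sn at this
  unfold aF
  exact this.symm

theorem scF_tw {p : ℝ} (h0 : 0 < p) (h1 : p < 1 / 2) :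
    scF (tw p) = Real.sin (Real.pi * p) * Real.cos (Real.pi * p) := by
  rw [sin_tw h0 h1, cos_tw h0 h1, div_mul_div_comm]
  unfold scF
  ring

/-- `λ (1 + u) = 2`. -/
theorem lam_alg {w e : ℝ} (hw : 0 < w) (he : 0 < e) (u : ℂ)
    (hr : u.re = -(e ^ 2 * (1 - 2 * aF w))) (hi : u.im = -(2 * e ^ 2 * scF w)) :
    lamF w e * (1 + u) = 2 := by
  have a0 := aF_pos hw
  have s0 := sF_nonneg e
  have hA : 0 < aF w + sF e := by linarith
  have h1 := scF_sq w
  have hN : 0 < (e ^ 2) ^ 2 + 1 - 2 * (1 - 2 * aF w) * e ^ 2 := by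
    have h3 := hA
    rw [A_form he] at h3
    by_contra h4
    exact absurd h3 (not_lt.2 (div_nonpos_of_nonpos_of_nonneg (not_lt.1 h4) (by positivity)))
  set N := (e ^ 2) ^ 2 + 1 - 2 * (1 - 2 * aF w) * e ^ 2 with hNd
  have eM : MF w e = (2 - 2 * (1 - 2 * aF w) * e ^ 2) / N := by
    rw [MF_form he, ← hNd, eq_div_iff hN.ne', sub_mul, div_mul_cancel₀ _ hN.ne']
    rw [hNd]
    ring
  have eY : YF w e = 4 * e ^ 2 * scF w / N := by
    unfold YF
    rw [A_form he, ← hNd]
    field_simp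
  apply Complex.ext
  · rw [mul_re, add_re, add_im, one_re, one_im, hr, hi]
    show MF w e * _ - YF w e * _ = _
    rw [eM, eY, re_ofNat, div_mul_eq_mul_div, div_mul_eq_mul_div, ← sub_div, div_eq_iff hN.ne', hNd]
    linear_combination (8 * e ^ 4) * h1
  · rw [mul_im, add_re, add_im, one_re, one_im, hr, hi]
    show MF w e * _ + YF w e * _ = _
    rw [eM, eY, im_ofNat, div_mul_eq_mul_div, div_mul_eq_mul_div, ← add_div, div_eq_iff hN.ne']
    ring

theorem lam_exp {y : ℂ} (h0 : 0 < y.re) (h1 : y.re < 1 / 2) :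
    lamF (tw (1 / 2 - y.re)) (ex y.im) * (1 + exp (-(2 * Real.pi * I * y))) = 2 := by
  have p0 : 0 < 1 / 2 - y.re := by linarith
  have p1 : 1 / 2 - y.re < 1 / 2 := by linarith
  have e2 : ex y.im ^ 2 = Real.exp (2 * Real.pi * y.im) := by
    rw [ex, ← Real.exp_nat_mul]
    congr 1
    push_cast
    ring
  have er : (-(2 * Real.pi * I * y)).re = 2 * Real.pi * y.im := by
    have : -(2 * (Real.pi : ℂ) * I * y) = ((2 * Real.pi : ℝ) : ℂ) * (-(I * y)) := by
      push_cast
      ring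
    rw [this, re_ofReal_mul, neg_re, mul_re, I_re, I_im]
    ring
  have ei : (-(2 * Real.pi * I * y)).im = -(2 * Real.pi * y.re) := by
    have : -(2 * (Real.pi : ℂ) * I * y) = ((2 * Real.pi : ℝ) : ℂ) * (-(I * y)) := by
      push_cast
      ring
    rw [this, im_ofReal_mul, neg_im, mul_im, I_re, I_im]
    ring
  have ey : 2 * Real.pi * y.re = Real.pi - 2 * (Real.pi * (1 / 2 - y.re)) := by ring
  apply lam_alg (tw_pos p0 p1) (ex_pos _)
  · rw [exp_re, er, ei, e2, Real.cos_neg, ey, Real.cos_pi_sub, aF_tw p0 p1]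
    have := Real.cos_sq' (Real.pi * (1 / 2 - y.re))
    rw [Real.cos_two_mul, this]
    ring
  · rw [exp_im, er, ei, e2, Real.sin_neg, ey, Real.sin_pi_sub, scF_tw p0 p1, Real.sin_two_mul]
    ring

variable {bl br k E ya yb la lb : ℂ}

theorem rel_core {bl br k E l r : ℂ} (h1 : 2 * k ^ 2 = E * (bl + br))
    (h2 : (E ^ 2 + 1) * (bl + br) = 2 * (bl * br) * E) (hl : l * (bl * E) = 1) (hr : r * (br * E) = 1) :
    (bl * l) ^ 2 * (2 - (l + r)) = l + r ∧ 2 * k ^ 2 * (l * r) = l + r := by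
  have hE : E ≠ 0 := by
    rintro rfl
    simp at hl
  have hbl : bl ≠ 0 := by
    rintro rfl
    simp at hl
  have hbr : br ≠ 0 := by
    rintro rfl
    simp at hr
  have el : l = 1 / (bl * E) := eq_one_div_of_mul_eq_one_left hl
  have er : r = 1 / (br * E) := eq_one_div_of_mul_eq_one_left hr
  constructor
  · rw [el, er]
    field_simp
    linear_combination (-1 : ℂ) * h2
  · rw [el, er, h1]
    field_simp
    ring

theorem nd_lam (h : Nd2 bl br k E ya yb la lb) :
    lamF (tw (1 / 2 - ya.re)) (ex ya.im) * (bl * E) = 1 ∧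
      lamF (tw (1 / 2 - yb.re)) (ex yb.im) * (br * E) = 1 := by
  have h1 := lam_exp h.ya0 h.ya1
  have h2 := lam_exp h.yb0 h.yb1
  rw [h.Va] at h1
  rw [h.Vb] at h2
  constructor
  · linear_combination h1 / 2
  · linear_combination h2 / 2

theorem nd_rel (h : Nd2 bl br k E ya yb la lb) :
    Rel bl (tw (1 / 2 - ya.re)) (ex ya.im) (tw (1 / 2 - yb.re)) (ex yb.im) ∧
      RelK k (tw (1 / 2 - ya.re)) (ex ya.im) (tw (1 / 2 - yb.re)) (ex yb.im) := by
  obtain ⟨h1, h2⟩ := nd_lam h
  exact rel_core h.kE h.EE h1 h2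

/-- A neighbour which is an end with two half twists. -/
theorem relE_of {b k : ℂ} {w1 e1 w2 e2 : ℝ} (hw : 0 < w1) (hw1 : w1 < 1) (he : 0 < e1)
    (hR : Rel b w1 e1 w2 e2) (hK : RelK k w1 e1 w2 e2) (hk : 0 < k.re) (hb : b ≠ 0)
    (hE : 2 * b ^ 2 = I * k) : RelE b w1 e1 := by
  unfold Rel at hR
  unfold RelK at hK
  unfold RelE
  set l := lamF w1 e1 with hl
  set r := lamF w2 e2
  have hk0 : k ≠ 0 := by
    rintro rfl
    simp at hk
  have hY : 0 < l.im := by
    show 0 < YF w1 e1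
    unfold YF
    have := aF_pos hw
    have := sF_nonneg e1
    exact div_pos (scF_pos hw hw1) (by linarith)
  have hl0 : l ≠ 0 := by
    intro h
    rw [h] at hY
    simp at hY
  have hL : l + r ≠ 0 := by
    intro h
    rw [h, sub_zero] at hR
    have : (b * l) ^ 2 * 2 ≠ 0 := mul_ne_zero (pow_ne_zero 2 (mul_ne_zero hb hl0)) two_ne_zero
    exact this hR
  -- `(1 - I k)² + k² ... = 0`
  have key : (1 - I * k * (2 - l)) * (1 - I * k * l) = 0 := by
    have h3 : l + r ≠ 0 := hL
    have h4 : (l + r) * ((1 - I * k * (2 - l)) * (1 - I * k * l)) = 0 := by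
      have h5 : 2 * ((b * l) ^ 2 * (2 - (l + r))) = 2 * (l + r) := by rw [hR]
      have h6 : (I * k) * l ^ 2 * (2 - (l + r)) = 2 * (l + r) := by
        rw [← h5]
        linear_combination (-(l ^ 2 * (2 - (l + r)))) * hE
      linear_combination I ^ 2 * hK + (I * k) * h6 + (l + r) * I_sq
    exact (mul_eq_zero.1 h4).resolve_left h3
  rcases mul_eq_zero.1 key with h | h
  · linear_combination (2 - l) * hE - h
  · exfalso
    have h3 : I * k * l = 1 := by linear_combination -h
    have h4 : k * (l.re ^ 2 + l.im ^ 2 : ℝ) = -I * conj l := by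
      have h5 : l * conj l = ((l.re ^ 2 + l.im ^ 2 : ℝ) : ℂ) := by
        rw [mul_conj, normSq_apply]
        push_cast
        ring
      rw [← h5]
      linear_combination (-I * conj l) * h3 + k * l * conj l * I_sq
    have h6 := congrArg Complex.re h4
    rw [re_mul_ofReal, neg_mul, neg_re, mul_re, I_re, I_im, conj_re, conj_im] at h6
    have h7 : 0 < k.re * (l.re ^ 2 + l.im ^ 2) := by positivity
    linarith

end Pool.Agent.S5.F
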