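import Pool.Agent.S5.I.F15
import Pool.Agent.S5.I.Fr
import Pool.Agent.S5.K.K0
import Pool.Agent.S5.Fld.YBT

/-!
# Flats of closed nodes: the pairs of neighbours of an inner node

`node_pair`: a property of the critical points of the two slots of an inner node with two half twists
which holds in the cells of all pairs of neighbours holds for the node.
-/

set_option autoImplicit false

namespace Pool.Agent.S5.F

open Pool.Agent.S5.C2 Pool.Agent.S5.Num Pool.Agent.S5.K Complex
open Pool.Agent.S5.E (Vt vL vR types adm)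
open Pool.Agent.S5.G (kp Sd sy)
open scoped ComplexConjugate

/-- The bounds of a pair of neighbours `IA`, `IB` of a node which is `JA`, `JB` as seen from them; the
first edge is an `A` edge. -/
def prOf (T : Vt → Vt → E.B2.Rg) (JA IA JB IB : Vt) : Pr :=
  ⟨(T IA JA).k0, (T IA JA).k1, (T IA JA).t0, (T IA JA).t1, (T IB JB).k0, (T IB JB).k1, (T IB JB).t1,
    mx' (T JA IA).k0 (T JB IB).k0, mn' (T JA IA).k1 (T JB IB).k1,
    bif Nat.beq IA.a 2 && IA.o == none then 1 else 0, bif JB.s then 0 else 1⟩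

/-- The cell of a pair of neighbours. -/
def clOf (d : YB.Yd) (JA IA JB IB : Vt) : Cl :=
  (fun r r' : YB.Rc => ⟨r.wl, r.wh, r.el, r.eh, r'.wl, r'.wh, r'.el, r'.eh⟩) (d.rc JA IA) (d.rc JB IB)

/-- The side conditions of the cell. -/
def clOK (c : Cl) : Bool :=
  Nat.ble c.a' 4096 && (Nat.ble c.c' 4096 && (Nat.ble 1 c.b && Nat.ble 1 c.d))

/-- What is known about the critical points `ya`, `yb` of a node. -/
structure Nh (T : Vt → Vt → E.B2.Rg) (d : YB.Yd) (JA IA JB IB : Vt) (ya yb : ℂ) : Prop where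
  pos : Pos (1 / 2 - ya.re) (1 / 2 - yb.re)
  mem : clOK (clOf d JA IA JB IB) = true →
    (clOf d JA IA JB IB).Mem (1 / 2 - ya.re) ya.im (1 / 2 - yb.re) yb.im
  hyp : ∃ bl br k : ℂ, Hyp (prOf T JA IA JB IB) bl br k (tw (1 / 2 - ya.re)) (ex ya.im)
    (tw (1 / 2 - yb.re)) (ex yb.im) ∧
    (JB.s = true → 0 < br.re ∧ br.im ≤ 0 ∧ -br.im ≤ ((T IB JB).t1 : ℝ) / 1000 * br.re)

theorem nd2_swap {bl br k E ya yb la lb : ℂ} (h : Nd2 bl br k E ya yb la lb) :
    Nd2 br bl k E yb ya lb la where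
  al := h.ar
  ar := h.al
  bl0 := h.br0
  br0 := h.bl0
  kre := h.kre
  karg := h.karg
  Eim := h.Eim
  kE := by rw [add_comm]; exact h.kE
  EE := by linear_combination h.EE
  Va := h.Vb
  Vb := h.Va
  ya0 := h.yb0
  ya1 := h.yb1
  yb0 := h.ya0
  yb1 := h.ya1
  hla := h.hlb
  hlb := h.hla
  sla := h.slb
  slb := h.sla

theorem mx'_cast_le {a b : ℕ} {x : ℝ} (ha : (a : ℝ) ≤ x) (hb : (b : ℝ) ≤ x) : ((mx' a b : ℕ) : ℝ) ≤ x := by
  unfold mx'
  cases Nat.ble a b
  · rw [cond_false]; exact ha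
  · rw [cond_true]; exact hb

theorem mn'_cast_ge {a b : ℕ} {x : ℝ} (ha : x ≤ (a : ℝ)) (hb : x ≤ (b : ℝ)) : x ≤ ((mn' a b : ℕ) : ℝ) := by
  unfold mn'
  cases Nat.ble a b
  · rw [cond_false]; exact hb
  · rw [cond_true]; exact ha

theorem nh_of {T : Vt → Vt → E.B2.Rg} {d : YB.Yd} {JA IA JB IB : Vt} {bl br k E ya yb la lb : ℂ}
    (nd : Nd2 bl br k E ya yb la lb)
    (hl : Pol false (T IA JA).k0 (T IA JA).k1 (T IA JA).t0 (T IA JA).t1 bl)
    (hr : Pol JB.s (T IB JB).k0 (T IB JB).k1 (T IB JB).t0 (T IB JB).t1 br)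
    (h1 : Pol true (T JA IA).k0 (T JA IA).k1 (T JA IA).t0 (T JA IA).t1 k)
    (h2 : Pol true (T JB IB).k0 (T JB IB).k1 (T JB IB).t0 (T JB IB).t1 k)
    (hE : IA.a = 2 → IA.o = none → 2 * bl ^ 2 = I * k)
    (ra : YB.InRc (d.rc JA IA) ya) (rb : YB.InRc (d.rc JB IB) yb) : Nh T d JA IA JB IB ya yb := by
  have hP : Pos (1 / 2 - ya.re) (1 / 2 - yb.re) :=
    ⟨by linarith [nd.ya1], by linarith [nd.ya0], by linarith [nd.yb1], by linarith [nd.yb0]⟩
  have hR := nd_rel nd
  have hR' := nd_rel (nd2_swap nd)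
  obtain ⟨l1, l2, l3, l4, l5⟩ := hl
  obtain ⟨r1, r2, r3, r4, r5⟩ := hr
  obtain ⟨-, k2, k3, -, -⟩ := h1
  obtain ⟨-, m2, m3, -, -⟩ := h2
  rw [if_neg (by decide)] at l4 l5
  refine ⟨hP, ?_, bl, br, k, ?_, ?_⟩
  · intro hc
    unfold clOK at hc
    simp only [Bool.and_eq_true, Nat.ble_eq] at hc
    obtain ⟨c1, c2, c3, c4⟩ := hc
    exact ⟨⟨c1, c2, c3, c4⟩, ra.wl, ra.wh, ra.el, ra.eh, rb.wl, rb.wh, rb.el, rb.eh⟩
  · refine ⟨hR.1, hR'.1, hR.2, ?_, l1, ?_, l2, l3, l4, l5, r2, r3, ?_, ?_, ?_⟩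
    · intro he
      have h3 : IA.a = 2 ∧ IA.o = none := by
        unfold prOf at he
        dsimp only at he
        by_contra hn
        have : (Nat.beq IA.a 2 && IA.o == none) = false := by
          rw [Bool.eq_false_iff]
          intro ht
          rw [Bool.and_eq_true] at ht
          exact hn ⟨Nat.eq_of_beq_eq_true ht.1, by simpa using ht.2⟩
        rw [this, cond_false] at he
        exact absurd he (by norm_num)
      exact relE_of (tw_pos hP.hp0 hP.hp1) (tw_lt hP.hp0 hP.hp1) (ex_pos _) hR.1 hR.2 nd.kre nd.bl0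
        (hE h3.1 h3.2)
    · have : 0 ≤ ((T IA JA).t0 : ℝ) / 1000 * bl.re := by positivity
      linarith
    · intro ha
      have hs : JB.s = false := by
        unfold prOf at ha
        dsimp only at ha
        cases hb : JB.s
        · rfl
        · rw [hb, cond_true] at ha
          exact absurd ha (by norm_num)
      rw [hs, if_neg (by decide)] at r4 r5
      have : 0 ≤ ((T IB JB).t0 : ℝ) / 1000 * br.re := by positivity
      exact ⟨r1, by linarith, r5⟩
    · have e1 : ∀ a : ℕ, ((a : ℝ) / 1000) ^ 2 ≤ k.re ^ 2 + k.im ^ 2 →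
          (a : ℝ) ≤ 1000 * √(k.re ^ 2 + k.im ^ 2) := by
        intro a h
        have := Real.le_sqrt_of_sq_le h
        linarith
      have h4 := mx'_cast_le (e1 _ k2) (e1 _ m2)
      show ((mx' (T JA IA).k0 (T JB IB).k0 : ℕ) / 1000 : ℝ) ^ 2 ≤ _
      rw [← Real.sq_sqrt (show 0 ≤ k.re ^ 2 + k.im ^ 2 by positivity)]
      exact pow_le_pow_left₀ (by positivity) (by linarith) 2
    · have e1 : ∀ a : ℕ, k.re ^ 2 + k.im ^ 2 ≤ ((a : ℝ) / 1000) ^ 2 →
          1000 * √(k.re ^ 2 + k.im ^ 2) ≤ (a : ℝ) := by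
        intro a h
        have := Real.sqrt_le_left (x := k.re ^ 2 + k.im ^ 2) (y := (a : ℝ) / 1000) (by positivity) |>.2 h
        linarith
      have h4 := mn'_cast_ge (e1 _ k3) (e1 _ m3)
      show _ ≤ ((mn' (T JA IA).k1 (T JB IB).k1 : ℕ) / 1000 : ℝ) ^ 2
      rw [← Real.sq_sqrt (show 0 ≤ k.re ^ 2 + k.im ^ 2 by positivity)]
      exact pow_le_pow_left₀ (Real.sqrt_nonneg _) (by linarith) 2
  · intro hs
    rw [hs, if_pos rfl] at r4 r5
    have : 0 ≤ ((T IB JB).t0 : ℝ) / 1000 * br.re := by positivity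
    exact ⟨r1, by linarith, r5⟩

/-- `C` holds for all admissible pairs of neighbours (in one of the two orders if both edges are `A`
edges). -/
structure Chk (C : Vt → Vt → Vt → Vt → Prop) : Prop where
  AA : ∀ I I' : Vt, I.ok = true → I'.ok = true → I.s = false → I'.s = false →
    C ⟨2, false, some false⟩ I ⟨2, false, some false⟩ I' ∨
      C ⟨2, false, some false⟩ I' ⟨2, false, some false⟩ I
  AS : ∀ I I' : Vt, I.ok = true → I'.ok = true → I.s = false → I'.s = true →
    adm ⟨2, false, some true⟩ I I' = true → C ⟨2, false, some true⟩ I ⟨2, true, some false⟩ I'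

variable {T : Vt → Vt → E.B2.Rg} {R : ℕ} {a : ℕ → ℕ} {S : ℕ → Bool} {r : ℕ → ℤ}
  {z ql qr : ℕ → ℂ} {zF : Fin (R + 1) → ℂ} {d : YB.Yd} {C : Vt → Vt → Vt → Vt → Prop}

/-- **The pairs of neighbours of an inner node with two half twists.** -/
theorem node_pair (h : Ctx T R a S r z ql qr zF) (hd : YB.YbOK T d) (hC : Chk C) {i : ℕ} (hi : i + 1 < R)
    (ha : a (i + 1) = 2) :
    (S i = false ∧ C (vL R a S (i + 1)) (vR a S i) (vR a S (i + 1)) (vL R a S (i + 2)) ∧
      Nh T d (vL R a S (i + 1)) (vR a S i) (vR a S (i + 1)) (vL R a S (i + 2))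
        (slL R a S z ql (i + 1)).ys (slR R a S z qr (i + 1)).ys) ∨
    (S (i + 1) = false ∧ C (vR a S (i + 1)) (vL R a S (i + 2)) (vL R a S (i + 1)) (vR a S i) ∧
      Nh T d (vR a S (i + 1)) (vL R a S (i + 2)) (vL R a S (i + 1)) (vR a S i)
        (slR R a S z qr (i + 1)).ys (slL R a S z ql (i + 1)).ys) := by
  have nd := h.hg.nd2 (i := i + 1) (by omega) hi ha
  have hP := h.toPre
  have hg := h.hg
  have eL : vL R a S (i + 1) = ⟨2, S i, some (S (i + 1))⟩ := by
    rw [Pre.vL_inner hi, ha]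
    rfl
  have eR : vR a S (i + 1) = ⟨2, S (i + 1), some (S i)⟩ := by
    rw [Pre.vR_inner, ha]
    rfl
  have pl := hP.pol_l hg (i := i) (by omega)
  have pr := hP.pol_r hg (i := i + 1) hi
  have ol := hP.own_l hg (i := i) (by omega)
  have or' := hP.own_r hg (i := i + 1) hi
  have rl := hP.yb_l hd hg hi ha
  have rr := hP.yb_r hd hg (i := i + 1) (by omega) hi ha
  have okl := hP.ok_r (i := i) (by omega)
  have okr := hP.ok_l (i := i + 1) hi
  have okn := hP.ok_l (i := i) (by omega)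
  have al := hP.adm_l hi
  have ar := hP.adm_r hi
  have sL : (vR a S i).s = S i := rfl
  have sR : (vL R a S (i + 2)).s = S (i + 1) := rfl
  have pl' : S i = false → Pol false (T (vR a S i) (vL R a S (i + 1))).k0
      (T (vR a S i) (vL R a S (i + 1))).k1 (T (vR a S i) (vL R a S (i + 1))).t0
      (T (vR a S i) (vL R a S (i + 1))).t1 (kp (S i) (cos (z i))) := by
    intro hs
    rw [← hs]
    exact pl
  have pr' : S (i + 1) = false → Pol false (T (vL R a S (i + 2)) (vR a S (i + 1))).k0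
      (T (vL R a S (i + 2)) (vR a S (i + 1))).k1 (T (vL R a S (i + 2)) (vR a S (i + 1))).t0
      (T (vL R a S (i + 2)) (vR a S (i + 1))).t1 (kp (S (i + 1)) (cos (z (i + 2)))) := by
    intro hs
    rw [← hs]
    exact pr
  -- the neighbours with two half twists at the ends
  have hEl : S i = false → (vR a S i).a = 2 → (vR a S i).o = none →
      2 * (kp (S i) (cos (z i))) ^ 2 = I * cos (z (i + 1)) := by
    intro hs h2 ho
    have hi0 : i = 0 := by
      unfold E.vR at ho
      by_contra hne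
      rw [if_neg hne] at ho
      simp at ho
    subst hi0
    have h2' : a 0 = 2 := by
      have : min (a 0) 8 = 2 := h2
      omega
    have nE := (hg.ndE_zero h2').kE
    rw [hs, G.kp_false] at nE ⊢
    have := congrArg conj nE
    simp only [map_mul, map_pow, map_neg, conj_I, conj_conj, map_ofNat, neg_neg] at this
    exact this
  have hEr : S (i + 1) = false → (vL R a S (i + 2)).a = 2 → (vL R a S (i + 2)).o = none →
      2 * (kp (S (i + 1)) (cos (z (i + 2)))) ^ 2 = I * cos (z (i + 1)) := by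
    intro hs h2 ho
    have hi0 : i + 2 = R := by
      unfold E.vL at ho
      by_contra hne
      rw [if_neg hne] at ho
      simp at ho
    subst hi0
    have h2' : a (i + 2) = 2 := by
      have : min (a (i + 2)) 8 = 2 := h2
      omega
    have nE := (hg.ndE_last h2').kE
    rw [show i + 2 - 1 = i + 1 by omega, hs, G.kp_false] at nE
    rw [hs, G.kp_false]
    have := congrArg conj nE
    simp only [map_mul, map_pow, map_neg, conj_I, conj_conj, map_ofNat, neg_neg] at this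
    exact this
  rcases hsl : S i with _ | _ <;> rcases hsr : S (i + 1) with _ | _
  · have nl := nh_of (d := d) nd (pl' hsl) pr ol or' (hEl hsl) rl rr
    have nr := nh_of (d := d) (nd2_swap nd) (pr' hsr) pl or' ol (hEr hsr) rr rl
    rw [hsl, hsr] at eL eR
    rcases hC.AA _ _ okl okr (sL.trans hsl) (sR.trans hsr) with hc | hc
    · left
      refine ⟨rfl, ?_, nl⟩
      rw [eL, eR]
      exact hc
    · right
      refine ⟨rfl, ?_, nr⟩
      rw [eL, eR]
      exact hc
  · left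
    have nl := nh_of (d := d) nd (pl' hsl) pr ol or' (hEl hsl) rl rr
    refine ⟨rfl, ?_, nl⟩
    rw [hsl, hsr] at eL eR
    rw [eL] at al ⊢
    rw [eR]
    exact hC.AS _ _ okl okr (sL.trans hsl) (sR.trans hsr) al
  · right
    have nr := nh_of (d := d) (nd2_swap nd) (pr' hsr) pl or' ol (hEr hsr) rr rl
    refine ⟨rfl, ?_, nr⟩
    rw [hsl, hsr] at eL eR
    rw [eR] at ar ⊢
    rw [eL]
    exact hC.AS _ _ okr okl (sR.trans hsr) (sL.trans hsl) ar
  · exfalso
    rw [hsl, hsr] at eL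
    rw [eL] at okn
    exact absurd okn (by decide)

end Pool.Agent.S5.F
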