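import Pool.Agent.S5.I.FlA

/-!
# Flats of closed nodes: the constants next to the ends
-/

set_option autoImplicit false

namespace Pool.Agent.S5.F

open MeasureTheory Set Pool.Agent.S5.C2 Pool.Agent.S5.Num Pool.Agent.S3

theorem sqrt5_lo : (2.236 : ℝ) ≤ √5 := Real.le_sqrt_of_sq_le (by norm_num)

theorem Sn_tenth : Sn (1 / 10) ≤ 0.0955 := by
  have h1 : Sn (1 / 10) = (1 - (1 + √5) / 4) / 2 := by
    unfold Sn
    rw [Real.sin_sq_eq_half_sub, show 2 * (Real.pi * (1 / 10)) = Real.pi / 5 by ring,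
      Real.cos_pi_div_five]
    ring
  have h2 := sqrt5_lo
  rw [h1]
  linarith

theorem Sn_gt_half {q : ℝ} (h0 : 1 / 4 < q) (h1 : q < 1 / 2) : 1 / 2 < Sn q := by
  have e : Sn q = (1 - Real.cos (2 * (Real.pi * q))) / 2 := by
    unfold Sn
    rw [Real.sin_sq_eq_half_sub]
    ring
  have hpi := Real.pi_pos
  have h2 := Real.cos_neg_of_pi_div_two_lt_of_lt (x := 2 * (Real.pi * q)) (by nlinarith)
    (by nlinarith)
  rw [e]
  linarith

/-- The second defect at `1 / 2`. -/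
theorem Dq_half_ge {s q0 : ℝ} (hs : 0 ≤ s) (h0 : 0 < q0) (h1 : q0 ≤ 1 / 4) :
    (Lq s (1 / 4) / 2 + Lq s (3 / 8) + Lq s (1 / 2) / 2 - 2 * Lq s q0) / 8 ≤ Dq s q0 (1 / 2) := by
  have hSp : 0 < Sn q0 := Sn_pos h0 (by linarith)
  have hi : ∀ a b : ℝ, IntervalIntegrable (fun t => Lq s t - Lq s q0) volume a b := fun a b =>
    (Lq_int hs a b).sub (by simp)
  have hmono : ∀ {t t' : ℝ}, 0 < Sn t → Sn t ≤ Sn t' → Lq s t ≤ Lq s t' := fun h h' =>
    Lq_mono_t hs (by linarith) h'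
  have e : Dq s q0 (1 / 2) = (∫ t in q0..(1 / 4), (Lq s t - Lq s q0)) +
      ((∫ t in (1 / 4 : ℝ)..(3 / 8), (Lq s t - Lq s q0)) +
      ∫ t in (3 / 8 : ℝ)..(1 / 2), (Lq s t - Lq s q0)) := by
    rw [intervalIntegral.integral_add_adjacent_intervals (hi _ _) (hi _ _),
      intervalIntegral.integral_add_adjacent_intervals (hi _ _) (hi _ _)]
    rfl
  have a1 := int_lb (d := Lq s q0) (c := Lq s q0) hs h1 (fun t ht => hmono hSp
    (Sn_mono h0.le ht.1.le (by linarith [ht.2])))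
  have r : ∀ a b : ℝ, ∫ t in a..b, (Lq s t - Lq s q0) =
      ∫ t in (1 - b)..(1 - a), (Lq s t - Lq s q0) := by
    intro a b
    have h := intervalIntegral.integral_comp_sub_left (a := a) (b := b)
      (fun t => Lq s t - Lq s q0) (1 : ℝ)
    rw [← h]
    simp only [Lq_one_sub]
  have a2 := trap (c := Lq s q0) hs (by norm_num : (1 : ℝ) / 2 ≤ 5 / 8)
    (by norm_num : (5 : ℝ) / 8 ≤ 3 / 4) le_rfl
  have a3 := trap (c := Lq s q0) hs (le_refl ((1 : ℝ) / 2))
    (by norm_num : (1 : ℝ) / 2 ≤ 5 / 8) (by norm_num)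
  have e2 := r (1 / 4) (3 / 8)
  have e3 := r (3 / 8) (1 / 2)
  rw [show (1 : ℝ) - 3 / 8 = 5 / 8 by norm_num, show (1 : ℝ) - 1 / 4 = 3 / 4 by norm_num] at e2
  rw [show (1 : ℝ) - 3 / 8 = 5 / 8 by norm_num, show (1 : ℝ) - 1 / 2 = 1 / 2 by norm_num] at e3
  have e4 : Lq s (5 / 8) = Lq s (3 / 8) := by
    rw [← Lq_one_sub]
    norm_num
  have e5 : Lq s (3 / 4) = Lq s (1 / 4) := by
    rw [← Lq_one_sub]
    norm_num
  rw [e4, e5] at a2
  rw [e4] at a3
  rw [sub_self, mul_zero] at a1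
  rw [e, e2, e3]
  linarith

theorem Lq_le {s : ℝ} (hs : 0 ≤ s) (t : ℝ) : Lq s t ≤ Lq s (1 / 2) := by
  rcases (add_nonneg (Sn_nonneg t) hs).eq_or_lt with h | h
  · simp only [Lq_eq]
    rw [← h, mul_zero, Real.log_zero, Sn_half]
    have := Real.log_nonneg (x := 4 * (1 + s)) (by linarith)
    linarith
  · exact Lq_le_half hs h

/-- The gain of the second variable beyond `1 / 2`. -/
def EB (n c p h q g : ℝ) : Prop := ∀ x ∈ Icc (1 / 2 : ℝ) (3 / 4),
  c < n * Dq (sQ g) q x - (Lq (sQ (h + g)) (1 / 2) - Lq (sQ (h + g)) (p + q)) * (x - q)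

theorem EB_of {n c p h q g r : ℝ} (hn : 0 ≤ n) (hq0 : 0 < q) (hq1 : q ≤ 1 / 4) (hr : 1 / 2 - q ≤ r)
    (h1 : Lq (sQ (h + g)) (1 / 2) - Lq (sQ (h + g)) (p + q) ≤
      n * (Lq (sQ g) (3 / 4) - Lq (sQ g) q))
    (h2 : c < n * ((Lq (sQ g) (1 / 4) / 2 + Lq (sQ g) (3 / 8) + Lq (sQ g) (1 / 2) / 2 -
      2 * Lq (sQ g) q) / 8) - (Lq (sQ (h + g)) (1 / 2) - Lq (sQ (h + g)) (p + q)) * r) :
    EB n c p h q g := by
  intro x hx
  have hs := sQ_nonneg g
  have d := Dq_half_ge hs hq0 hq1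
  have e := Dq_sub hs q (1 / 2) x
  have a1 := int_lb (d := Lq (sQ g) q) (c := Lq (sQ g) (3 / 4)) hs hx.1 (fun t ht =>
    Lq_mono_t hs (by have := Sn_pos (t := 3 / 4) (by norm_num) (by norm_num); linarith)
      (Sn_anti ht.1.le (by linarith [ht.2, hx.2]) (by norm_num)))
  set κ := Lq (sQ (h + g)) (1 / 2) - Lq (sQ (h + g)) (p + q)
  have k0 : 0 ≤ κ := sub_nonneg.2 (Lq_le (sQ_nonneg _) _)
  have m1 := mul_le_mul_of_nonneg_left d hn
  have m2 : (x - 1 / 2) * κ ≤ (x - 1 / 2) * (n * (Lq (sQ g) (3 / 4) - Lq (sQ g) q)) :=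
    mul_le_mul_of_nonneg_left h1 (by linarith [hx.1])
  have m3 : n * ((x - 1 / 2) * (Lq (sQ g) (3 / 4) - Lq (sQ g) q)) ≤
      n * ∫ t in (1 / 2 : ℝ)..x, (Lq (sQ g) t - Lq (sQ g) q) := mul_le_mul_of_nonneg_left a1 hn
  have m4 : κ * (1 / 2 - q) ≤ κ * r := mul_le_mul_of_nonneg_left hr k0
  have m5 : n * Dq (sQ g) q x = n * Dq (sQ g) q (1 / 2) +
      n * ∫ t in (1 / 2 : ℝ)..x, (Lq (sQ g) t - Lq (sQ g) q) := by
    rw [← mul_add]
    congr 1
    linarith
  rw [m5]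
  linarith

/-- The step in the second variable. -/
theorem SS_step {s1 s2 s3 p0 q0 p q : ℝ} (hs3 : 0 ≤ s3) (hq : q0 ≤ q) :
    SS s1 s2 s3 p0 q0 p q0 + (2 * Dq s2 q0 q -
      (Lq s3 (1 / 2) - Lq s3 (p0 + q0)) * (q - q0)) ≤ SS s1 s2 s3 p0 q0 p q := by
  have e := Dq_sub hs3 (p0 + q0) (p + q0) (p + q)
  have a1 := int_ub (s := s3) (a := p + q0) (b := p + q) (c := Lq s3 (1 / 2))
    (d := Lq s3 (p0 + q0)) hs3 (by linarith) (fun t _ => Lq_le hs3 t)
  have e1 : Dq s2 q0 q0 = 0 := Dq_self _ _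
  unfold SS
  rw [e1]
  have e2 : p + q - (p + q0) = q - q0 := by ring
  rw [e2] at a1
  linarith

/-! ### The tests -/

theorem log_ratio {b b1 c s t : ℝ} (h0 : 0 < b + s) (hb : 0 ≤ b) (hs : 0 ≤ s) (h1 : b ≤ b1)
    (h2 : b1 ≤ c) (h3 : s ≤ t) :
    Real.log (c + t) - Real.log (b1 + t) ≤ Real.log (c + s) - Real.log (b + s) := by
  have p1 : 0 < b1 + t := by linarith
  have p2 : 0 < c + s := by linarith
  have p3 : 0 < c + t := by linarith
  have h4 : (c + t) * (b + s) ≤ (c + s) * (b1 + t) := by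
    nlinarith [mul_nonneg (sub_nonneg.2 h2) (sub_nonneg.2 h3), mul_nonneg (sub_nonneg.2 h1)
      (by linarith : (0 : ℝ) ≤ c + t)]
  have h5 := Real.log_le_log (by positivity) h4
  rw [Real.log_mul p3.ne' h0.ne', Real.log_mul p2.ne' p1.ne'] at h5
  linarith

/-- The numbers of the tests. -/
def feK (d : Dt) (k : ℕ → ℕ → ℕ → ℕ → ℕ → ℕ → Bool) : Bool :=
  fN (fun y1 => fN (fun y0 => fN (fun b => fN (fun h => fN (fun o => fN (fun m => k y1 y0 b h o m)
    (Nat.add 8949596160 (Nat.mul 10000 d.s2h))) (Nat.add 1048576 d.s2h)) (Nat.add 524288 d.s2h))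
    (Nat.add d.b1 d.s2h)) (Nat.add (Nat.mul d.f0 d.f0) (Nat.mul 1048576 d.s3l)))
    (Nat.add 1099511627776 (Nat.mul 1048576 d.s3l))

theorem feK_eq (d : Dt) (k : ℕ → ℕ → ℕ → ℕ → ℕ → ℕ → Bool) :
    feK d k = k (1099511627776 + 1048576 * d.s3l) (d.f0 * d.f0 + 1048576 * d.s3l) (d.b1 + d.s2h)
      (524288 + d.s2h) (1048576 + d.s2h) (8949596160 + 10000 * d.s2h) := by
  unfold feK
  simp only [fN_eq]
  rfl

/-- The test next to the end with four half twists. -/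
def fe4 (d : Dt) : Bool :=
  cond (Nat.ble 153650 d.b0) (cond (Nat.ble d.b1 524288) (feK d (fun y1 y0 b h o m =>
    cond (Nat.ble (Nat.mul y1 (Nat.mul b b)) (Nat.mul y0 (Nat.mul h h)))
      (Nat.blt (Nat.mul 1294000000 (Nat.mul (Nat.pow y1 3) (Nat.pow b 4)))
        (Nat.mul (Nat.pow y0 3) (Nat.mul h (Nat.mul o (Nat.mul m m))))) false)) false) false

/-- The test next to the end with three half twists. -/
def fe3 (d : Dt) : Bool :=
  cond (Nat.ble 100200 d.b0) (cond (Nat.ble d.b1 524288) (feK d (fun y1 y0 b h o m =>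
    cond (Nat.ble (Nat.mul y1 b) (Nat.mul y0 h))
      (Nat.blt (Nat.mul 2981 (Nat.mul (Nat.pow y1 32)
          (Nat.pow (Nat.mul 100000000 (Nat.pow b 4)) 5)))
        (Nat.mul (Nat.pow y0 32) (Nat.pow (Nat.mul h (Nat.mul o (Nat.mul m m))) 5))) false))
    false) false

theorem log_1294 : (64 / 25 : ℝ) ≤ Real.log 12.94 := by
  rw [Real.le_log_iff_exp_le (by norm_num)]
  have h1 := Real.exp_one_lt_d9
  have h2 : Real.exp (64 / 25) ^ 25 ≤ (12.94 : ℝ) ^ 25 := by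
    rw [← Real.exp_nat_mul]
    have h3 : Real.exp ((25 : ℕ) * (64 / 25)) = Real.exp 1 ^ 64 := by
      rw [← Real.exp_nat_mul]
      norm_num
    rw [h3]
    have h4 : Real.exp 1 ^ 64 ≤ (2.7182818286 : ℝ) ^ 64 :=
      pow_le_pow_left₀ (Real.exp_pos 1).le h1.le 64
    refine h4.trans ?_
    norm_num
  exact le_of_pow_le_pow_left₀ (by norm_num) (by norm_num) h2

theorem log_2981 : (8 : ℝ) ≤ Real.log 2981 := by
  rw [Real.le_log_iff_exp_le (by norm_num)]
  have h1 := Real.exp_one_lt_d9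
  have h3 : Real.exp 8 = Real.exp 1 ^ 8 := by
    rw [← Real.exp_nat_mul]
    norm_num
  rw [h3]
  have h4 : Real.exp 1 ^ 8 ≤ (2.7182818286 : ℝ) ^ 8 :=
    pow_le_pow_left₀ (Real.exp_pos 1).le h1.le 8
  refine h4.trans ?_
  norm_num

/-- What the data say in logarithms. -/
theorem fe_data {d : Dt} {p h q g : ℝ} (hd : DtOK d p h q g) (hP : Pos p q)
    (hb : d.b1 ≤ 524288) (hy : 0 < d.f0 * d.f0 + 1048576 * d.s3l) :
    ∃ y1 y0 b hh o m : ℝ, 0 < y1 ∧ 0 < y0 ∧ 0 < b ∧ 0 < hh ∧ 0 < o ∧ 0 < m ∧ q ≤ 1 / 4 ∧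
      ((1099511627776 + 1048576 * d.s3l : ℕ) : ℝ) = 1099511627776 * y1 ∧
      ((d.f0 * d.f0 + 1048576 * d.s3l : ℕ) : ℝ) = 1099511627776 * y0 ∧
      ((d.b1 + d.s2h : ℕ) : ℝ) = 1048576 * b ∧ ((524288 + d.s2h : ℕ) : ℝ) = 1048576 * hh ∧
      ((1048576 + d.s2h : ℕ) : ℝ) = 1048576 * o ∧
      ((8949596160 + 10000 * d.s2h : ℕ) : ℝ) = 10485760000 * m ∧
      2 * (Lq (sQ (h + g)) (1 / 2) - Lq (sQ (h + g)) (p + q)) ≤ Real.log y1 - Real.log y0 ∧
      Real.log hh - Real.log b ≤ 2 * (Lq (sQ g) (3 / 4) - Lq (sQ g) q) ∧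
      Real.log hh + Real.log o + 2 * Real.log m - 4 * Real.log b ≤
        4 * (Lq (sQ g) (1 / 4) / 2 + Lq (sQ g) (3 / 8) + Lq (sQ g) (1 / 2) / 2 -
          2 * Lq (sQ g) q) := by
  have hq0 := hP.hq0
  have hq1 := hP.hq1
  have hp0 := hP.hp0
  have hp1 := hP.hp1
  have hSq : 0 < Sn q := Sn_pos hq0 (by linarith)
  have n0 : (d.b1 : ℝ) ≤ 524288 := by exact_mod_cast hb
  have hq4 : q ≤ 1 / 4 := by
    by_contra hc
    rw [not_le] at hc
    have h1 := hd.b1
    have h2 := Sn_gt_half hc hq1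
    linarith
  have s2 := sQ_nonneg g
  have s3 := sQ_nonneg (h + g)
  have d1 : 1048576 * Sn q ≤ d.b1 := hd.b1
  have d2 : 1048576 * sQ g ≤ d.s2h := hd.s2h
  have d3 : (d.s3l : ℝ) ≤ 1048576 * sQ (h + g) := hd.s3l
  have d4 := hd.f0
  have d5 : (d.f0 : ℝ) * d.f0 ≤ 1099511627776 * Sn (p + q) := by
    have h0 : (0 : ℝ) ≤ d.f0 := Nat.cast_nonneg _
    have h1 := mul_le_mul d4 d4 h0 (h0.trans d4)
    have h2 : Sn (p + q) = Real.sin (Real.pi * (p + q)) ^ 2 := rfl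
    rw [h2]
    nlinarith
  have n1 : (0 : ℝ) ≤ d.s3l := Nat.cast_nonneg _
  have n2 : (0 : ℝ) ≤ d.s2h := Nat.cast_nonneg _
  have hy' : (0 : ℝ) < (d.f0 : ℝ) * d.f0 + 1048576 * d.s3l := by exact_mod_cast hy
  have hP1 : Sn (p + q) ≤ 1 := Sn_le_one _
  have h38 := Sn_three_eighths
  have e34 : Sn (3 / 4) = 1 / 2 := by
    rw [← Sn_one_sub (3 / 4), show (1 : ℝ) - 3 / 4 = 1 / 4 by norm_num, Sn_quarter]
  refine ⟨1 + d.s3l / 1048576, (d.f0 : ℝ) * d.f0 / 1099511627776 + d.s3l / 1048576,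
    d.b1 / 1048576 + d.s2h / 1048576, 1 / 2 + d.s2h / 1048576, 1 + d.s2h / 1048576,
    0.8535 + d.s2h / 1048576, by positivity, by linarith, by linarith, by positivity,
    by positivity, by positivity, hq4, ?_, ?_, ?_, ?_, ?_, ?_, ?_, ?_, ?_⟩
  · push_cast; ring
  · push_cast; ring
  · push_cast; ring
  · push_cast; ring
  · push_cast; ring
  · push_cast; ring
  · have r := log_ratio (b := (d.f0 : ℝ) * d.f0 / 1099511627776) (b1 := Sn (p + q)) (c := 1)
      (s := d.s3l / 1048576) (t := sQ (h + g)) (by linarith) (by positivity) (by positivity)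
      (by linarith) hP1 (by linarith)
    have hpos : 0 < Sn (p + q) + sQ (h + g) := by linarith
    simp only [Lq_eq, Sn_half]
    rw [Real.log_mul (by norm_num) (by positivity), Real.log_mul (by norm_num) hpos.ne']
    linarith
  · have r := log_ratio (b := Sn q) (b1 := d.b1 / 1048576) (c := 1 / 2)
      (s := sQ g) (t := d.s2h / 1048576) (by linarith) hSq.le s2
      (by linarith) (by linarith) (by linarith)
    simp only [Lq_eq, e34]
    rw [Real.log_mul (by norm_num) (by positivity), Real.log_mul (by norm_num) (by positivity)]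
    linarith
  · have r1 := log_ratio (b := Sn q) (b1 := d.b1 / 1048576) (c := 1 / 2)
      (s := sQ g) (t := d.s2h / 1048576) (by linarith) hSq.le s2
      (by linarith) (by linarith) (by linarith)
    have r2 := log_ratio (b := Sn q) (b1 := d.b1 / 1048576) (c := 1)
      (s := sQ g) (t := d.s2h / 1048576) (by linarith) hSq.le s2
      (by linarith) (by linarith) (by linarith)
    have r3 := log_ratio (b := Sn q) (b1 := d.b1 / 1048576) (c := 0.8535)
      (s := sQ g) (t := d.s2h / 1048576) (by linarith) hSq.le s2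
      (by linarith) (by linarith) (by linarith)
    have r4 := Real.log_le_log (by positivity : (0 : ℝ) < 0.8535 + sQ g)
      (by linarith : (0.8535 : ℝ) + sQ g ≤ Sn (3 / 8) + sQ g)
    have p38 : 0 < Sn (3 / 8) + sQ g := by linarith
    simp only [Lq_eq, Sn_quarter, Sn_half]
    have pq : 0 < Sn q + sQ g := by linarith
    have p12 : 0 < 1 / 2 + sQ g := by linarith
    have p1 : 0 < 1 + sQ g := by linarith
    have f : ∀ x : ℝ, 0 < x → Real.log (4 * x) = Real.log 4 + Real.log x := fun x hx =>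
      Real.log_mul (by norm_num) hx.ne'
    rw [f _ pq, f _ p12, f _ p1, f _ p38]
    linarith

theorem fe4_sound {d : Dt} {p h q g : ℝ} (ht : fe4 d = true) (hd : DtOK d p h q g) (hP : Pos p q) :
    EB 2 (4 / 25) p h q g := by
  unfold fe4 at ht
  rw [feK_eq] at ht
  obtain ⟨t1, ht⟩ := cond_and ht
  obtain ⟨t2, ht⟩ := cond_and ht
  obtain ⟨t3, t4⟩ := cond_and ht
  have i1 : (153650 : ℝ) ≤ d.b0 := by exact_mod_cast Nat.le_of_ble_eq_true t1
  have i2 : d.b1 ≤ 524288 := Nat.le_of_ble_eq_true t2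
  have i3 := Nat.le_of_ble_eq_true t3
  have i4 := lt_of_ble t4
  simp only [Nat.mul_eq, Nat.pow_eq] at i3 i4
  have hy : 0 < d.f0 * d.f0 + 1048576 * d.s3l := by
    by_contra hc
    have : d.f0 * d.f0 + 1048576 * d.s3l = 0 := by omega
    rw [this] at i4
    simp at i4
    exact absurd i4 (not_lt.2 (by positivity))
  obtain ⟨y1, y0, b, hh, o, m, p1, p2, p3, p4, p5, p6, hq4, e1, e2, e3, e4, e5, e6, l1, l2, l3⟩ :=
    fe_data hd hP i2 hy
  generalize 1099511627776 + 1048576 * d.s3l = Y1 at *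
  generalize d.f0 * d.f0 + 1048576 * d.s3l = Y0 at *
  generalize d.b1 + d.s2h = B at *
  generalize 524288 + d.s2h = H at *
  generalize 1048576 + d.s2h = O at *
  generalize 8949596160 + 10000 * d.s2h = M at *
  have i3' : (Y1 : ℝ) * (B * B) ≤ Y0 * (H * H) := by exact_mod_cast i3
  have i4' : (1294000000 : ℝ) * (Y1 ^ 3 * B ^ 4) < Y0 ^ 3 * (H * (O * (M * M))) := by
    exact_mod_cast i4
  rw [e1, e2, e3, e4] at i3'
  rw [e1, e2, e3, e4, e5, e6] at i4'
  have k3 : y1 * b ^ 2 ≤ y0 * hh ^ 2 := by nlinarith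
  have k4 : 12.94 * (y1 ^ 3 * b ^ 4) < y0 ^ 3 * (hh * (o * m ^ 2)) := by
    have c : (0 : ℝ) < 1099511627776 ^ 3 * 1048576 ^ 4 * 10 ^ 8 := by norm_num
    apply lt_of_mul_lt_mul_left _ c.le
    calc _ = 1294000000 * ((1099511627776 * y1) ^ 3 * (1048576 * b) ^ 4) := by ring
      _ < _ := i4'
      _ = _ := by ring
  have j3 := Real.log_le_log (by positivity) k3
  rw [Real.log_mul (by positivity) (by positivity), Real.log_mul (by positivity) (by positivity),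
    Real.log_pow, Real.log_pow] at j3
  have j4 := Real.log_lt_log (by positivity) k4
  rw [Real.log_mul (by norm_num) (by positivity), Real.log_mul (by positivity) (by positivity),
    Real.log_mul (by positivity) (by positivity), Real.log_mul (by positivity) (by positivity),
    Real.log_mul (by positivity) (by positivity), Real.log_pow, Real.log_pow, Real.log_pow,
    Real.log_pow] at j4
  push_cast at j3 j4
  have c0 := log_1294
  have hq8 : 1 / 8 ≤ q := by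
    by_contra hc
    rw [not_le] at hc
    have h1 := hd.b0
    have h2 := Sn_mono hP.hq0.le hc.le (by norm_num)
    have h3 := Sn_eighth
    linarith
  have key : Real.log y1 - Real.log y0 = Real.log y1 - Real.log y0 := rfl
  refine EB_of (r := 3 / 8) (by norm_num) hP.hq0 hq4 (by linarith) ?_ ?_
  · linarith
  · linarith

theorem fe3_sound {d : Dt} {p h q g : ℝ} (ht : fe3 d = true) (hd : DtOK d p h q g) (hP : Pos p q) :
    EB 1 (1 / 20) p h q g := by
  unfold fe3 at ht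
  rw [feK_eq] at ht
  obtain ⟨t1, ht⟩ := cond_and ht
  obtain ⟨t2, ht⟩ := cond_and ht
  obtain ⟨t3, t4⟩ := cond_and ht
  have i1 : (100200 : ℝ) ≤ d.b0 := by exact_mod_cast Nat.le_of_ble_eq_true t1
  have i2 : d.b1 ≤ 524288 := Nat.le_of_ble_eq_true t2
  have i3 := Nat.le_of_ble_eq_true t3
  have i4 := lt_of_ble t4
  simp only [Nat.mul_eq, Nat.pow_eq] at i3 i4
  have hy : 0 < d.f0 * d.f0 + 1048576 * d.s3l := by
    by_contra hc
    have : d.f0 * d.f0 + 1048576 * d.s3l = 0 := by omega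
    rw [this] at i4
    simp at i4
    exact absurd i4 (not_lt.2 (by positivity))
  obtain ⟨y1, y0, b, hh, o, m, p1, p2, p3, p4, p5, p6, hq4, e1, e2, e3, e4, e5, e6, l1, l2, l3⟩ :=
    fe_data hd hP i2 hy
  generalize 1099511627776 + 1048576 * d.s3l = Y1 at *
  generalize d.f0 * d.f0 + 1048576 * d.s3l = Y0 at *
  generalize d.b1 + d.s2h = B at *
  generalize 524288 + d.s2h = H at *
  generalize 1048576 + d.s2h = O at *
  generalize 8949596160 + 10000 * d.s2h = M at *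
  have i3' : (Y1 : ℝ) * B ≤ Y0 * H := by exact_mod_cast i3
  have i4' : (2981 : ℝ) * (Y1 ^ 32 * (100000000 * B ^ 4) ^ 5) <
      Y0 ^ 32 * (H * (O * (M * M))) ^ 5 := by
    exact_mod_cast i4
  rw [e1, e2, e3, e4] at i3'
  rw [e1, e2, e3, e4, e5, e6] at i4'
  have k3 : y1 * b ≤ y0 * hh := by nlinarith
  have k4 : 2981 * (y1 ^ 32 * b ^ 20) < y0 ^ 32 * (hh * (o * m ^ 2)) ^ 5 := by
    have c : (0 : ℝ) < 1099511627776 ^ 32 * 1048576 ^ 20 * 100000000 ^ 5 := by norm_num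
    apply lt_of_mul_lt_mul_left _ c.le
    calc _ = 2981 * ((1099511627776 * y1) ^ 32 * (100000000 * (1048576 * b) ^ 4) ^ 5) := by ring
      _ < _ := i4'
      _ = _ := by ring
  have j3 := Real.log_le_log (by positivity) k3
  rw [Real.log_mul (by positivity) (by positivity), Real.log_mul (by positivity) (by positivity)]
    at j3
  have j4 := Real.log_lt_log (by positivity) k4
  rw [Real.log_mul (by norm_num) (by positivity), Real.log_mul (by positivity) (by positivity),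
    Real.log_mul (by positivity) (by positivity), Real.log_pow, Real.log_pow, Real.log_pow,
    Real.log_pow, Real.log_mul (by positivity) (by positivity),
    Real.log_mul (by positivity) (by positivity), Real.log_pow] at j4
  push_cast at j4
  have c0 := log_2981
  have hq10 : 1 / 10 ≤ q := by
    by_contra hc
    rw [not_le] at hc
    have h1 := hd.b0
    have h2 := Sn_mono hP.hq0.le hc.le (by norm_num)
    have h3 := Sn_tenth
    linarith
  refine EB_of (r := 2 / 5) (by norm_num) hP.hq0 hq4 (by linarith) ?_ ?_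
  · linarith
  · linarith

/-! ### Certificates -/

/-- The leaves. -/
def leafG (fi : Dt → Bool) (pr : Pr) (t : ℕ) (c : Cl) (z : ℕ) (k : ℕ → Bool) : Bool :=
  cond (Nat.ble t 4) (cond (withDt c fi) (k z) false)
    (cond (Nat.ble t 6) (cond (xgN pr t c) (k z) false) (xcN pr c z k))

/-- A certificate. -/
def certG (fi : Dt → Bool) (pr : Pr) (n : ℕ) (c : Cl) (z : ℕ) : Bool :=
  run (leafG fi pr) n c z (fun z => Nat.beq z 0)

/-- The statement proved on a cell. -/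
def GoodG (Q : ℝ → ℝ → ℝ → ℝ → Prop) (pr : Pr) (x1 x2 x3 x4 : ℝ) : Prop :=
  ∀ p h q g : ℝ, ∀ bl br k : ℂ, x1 = tw p → x2 = ex h → x3 = tw q → x4 = ex g → Pos p q →
    Hyp pr bl br k x1 x2 x3 x4 → Q p h q g

theorem leafG_sound {fi : Dt → Bool} {Q : ℝ → ℝ → ℝ → ℝ → Prop}
    (hf : ∀ (d : Dt) (p h q g : ℝ), fi d = true → DtOK d p h q g → Pos p q → Q p h q g) (pr : Pr)
    (t : ℕ) (c : Cl) (z : ℕ) (kk : ℕ → Bool) (h1 : leafG fi pr t c z kk = true) :
    (∀ x1 x2 x3 x4, c.In x1 x2 x3 x4 → GoodG Q pr x1 x2 x3 x4) ∧ ∃ z', kk z' = true := by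
  unfold leafG at h1
  rcases cond_cases h1 with ⟨_, h1⟩ | ⟨_, h1⟩
  · obtain ⟨h2, h3⟩ := cond_and h1
    refine ⟨?_, _, h3⟩
    intro x1 x2 x3 x4 hx p h q g bl br k e1 e2 e3 e4 hP H
    subst e1 e2 e3 e4
    rw [withDt_eq] at h2
    exact hf _ _ _ _ _ h2 (dt_ok hP.hp0 hP.hp1 hP.hq0 hP.hq1 hx) hP
  rcases cond_cases h1 with ⟨_, h1⟩ | ⟨_, h1⟩
  · obtain ⟨h2, h3⟩ := cond_and h1
    refine ⟨?_, _, h3⟩
    intro x1 x2 x3 x4 hx p h q g bl br k e1 e2 e3 e4 hP H
    exact (xgN_sound h2 x1 x2 x3 x4 hx bl br k H).elim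
  · obtain ⟨h2, h3⟩ := xcN_sound h1
    refine ⟨?_, h3⟩
    intro x1 x2 x3 x4 hx p h q g bl br k e1 e2 e3 e4 hP H
    exact (h2 x1 x2 x3 x4 hx bl br k H).elim

theorem certG_sound {fi : Dt → Bool} {Q : ℝ → ℝ → ℝ → ℝ → Prop}
    (hf : ∀ (d : Dt) (p h q g : ℝ), fi d = true → DtOK d p h q g → Pos p q → Q p h q g) {pr : Pr}
    {n : ℕ} {c : Cl} {z : ℕ} (h : certG fi pr n c z = true) {p h' q g : ℝ}
    {bl br k : ℂ} (hM : c.Mem p h' q g) (hP : Pos p q)
    (H : Hyp pr bl br k (tw p) (ex h') (tw q) (ex g)) : Q p h' q g :=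
  (run_sound (P := GoodG Q pr) (leafG_sound hf pr) n c z _ h).1 _ _ _ _ hM p h' q g bl br k rfl rfl
    rfl rfl hP H

end Pool.Agent.S5.F
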