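import Pool.Agent.S5.I.W2i

/-!
# Closed vertices with two half twists, weights `2` and `1`: the tests with computed witnesses

The witnesses are computed (without any claim); the tests of `W2h` and `W2i` verify them.
-/

set_option autoImplicit false

namespace Pool.Agent.S5.F

open Pool.Agent.S5.C2 Pool.Agent.S5.Num Set

/-- Newton steps for the square root. -/
def w2n (n : ℕ) : ℕ → ℕ → ℕ :=
  Nat.rec (fun g => g) (fun _ ih g => fN ih (Nat.div (Nat.add g (Nat.div n g)) 2))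

/-- The square root from above (up to rounding). -/
def w2s (n : ℕ) : ℕ :=
  fN (fun g => w2n n 5 g) (Nat.pow 2 (Nat.succ (Nat.div (Nat.log2 n) 2)))

/-- The test of the square. -/
def w2sqA (d : Dt) : Bool :=
  fN (fun xl => fN (fun xu =>
    fN (fun ul => fN (fun uu => fN (fun c => fN (fun m1 => fN (fun m2 =>
      w2sq d xl xu ul uu c m1 m2)
    (Nat.sub (w2s (mn' (Nat.mul d.b0 (Nat.sub 1048576 d.b0)) (Nat.mul d.b1 (Nat.sub 1048576 d.b1)))) 1))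
    (Nat.sub (w2s (mn' (Nat.mul d.a0 (Nat.sub 1048576 d.a0)) (Nat.mul d.a1 (Nat.sub 1048576 d.a1)))) 1))
    (Nat.succ (w2s (Nat.sub 1099511627776 (Nat.mul d.f0 d.f0)))))
    (Nat.sub (w2s (Nat.sub (Nat.mul xu (Nat.add d.a0 d.s1h)) (Nat.mul 1048576 d.s1h))) 1))
    (Nat.sub (w2s (Nat.sub (Nat.mul xl (Nat.add d.a0 d.s1h)) (Nat.mul 1048576 d.s1h))) 1))
  (Nat.succ (w2s (Nat.div (Nat.mul 1099511627776 d.s2h) (Nat.add d.b0 d.s2h)))))
  (Nat.sub (w2s (Nat.div (Nat.mul 1099511627776 d.s2l) (Nat.add d.b1 d.s2l))) 1)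

theorem w2sqA_sound {d : Dt} {p h q g : ℝ} (ht : w2sqA d = true) (hd : DtOK d p h q g)
    (hp : 0 < p) (hp1 : p < 1 / 2) (hq : 0 < q) (hq1 : q < 1 / 2) : Sq21 p h q g := by
  unfold w2sqA at ht
  simp only [fN_eq] at ht
  exact w2sq_sound ht hd hp hp1 hq hq1

/-- The bound `x` of `w2r` at one end. -/
def w2x (b s : ℕ) : ℕ :=
  Nat.div (Nat.mul 1048576 (Nat.mul (Nat.add 1048576 (Nat.mul 2 s))
    (Nat.add 17899192320 (Nat.mul 20000 s)))) (Nat.mul 40000 (fN (fun m => Nat.mul m m) (Nat.add b s)))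

/-- The test of the part `q ≥ 1 / 2`. -/
def w2rA (d : Dt) : Bool :=
  fN (fun x => fN (fun y => fN (fun z => w2r d x y z)
    (mx' 1048576 (Nat.succ (Nat.div (Nat.mul 2097152 (fN (fun m => Nat.mul m m) (Nat.add d.a1 d.s1h)))
      (Nat.mul (Nat.add 1048576 d.s1l) (Nat.add 1048576 (Nat.mul 2 d.s1l)))))))
    (Nat.succ (Nat.div (Nat.mul 1099511627776 (Nat.add 1048576 d.s3l))
      (Nat.add (Nat.mul d.f0 d.f0) (Nat.mul 1048576 d.s3l)))))
    (mn' (w2x d.b1 d.s2l) (w2x d.b1 d.s2h))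

/-- The test by reflection. -/
def w2fA (d : Dt) : Bool := cond (w2f d) (w2rA d) false

theorem w2fA_sound {d : Dt} {p h q g : ℝ} (ht : w2fA d = true) (hd : DtOK d p h q g)
    (hp : 0 < p) (hp1 : p < 1 / 2) (hq : 0 < q) (hq1 : q < 1 / 2) (hsq : Sq21 p h q g) :
    Fl21 p h q g := by
  obtain ⟨h1, h2⟩ := w2_cond_and ht
  unfold w2rA at h2
  simp only [fN_eq] at h2
  exact fl_of_f h1 h2 hd hp hp1 hq hq1 hsq

/-- `ξ1²` (units `2^(-40)`). -/
def w2y (d : Dt) (s2 s3 : ℕ) : ℕ :=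
  Nat.succ (Nat.div (Nat.mul 1152921504606846976 (Nat.add 1048576 (Nat.add s2 s3)))
    (Nat.add (Nat.mul d.f0 d.f0) (Nat.mul 1048576 (Nat.add d.b0 (Nat.add s2 s3)))))

/-- The value of `b` for `ξ²` (`X = ξ ^ 2`, units `2^(-40)`). -/
def w2v (d : Dt) (X : ℕ) : ℕ :=
  mn' (Nat.sub (Nat.div (Nat.mul X (Nat.add d.b0 d.s2l)) 1099511627776) d.s2l)
    (Nat.sub (Nat.div (Nat.mul X (Nat.add d.b0 d.s2h)) 1099511627776) d.s2h)

/-- The test by the second method; `w` is `ξ2` in units of `1 / 1024`. -/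
def w2mA (d : Dt) (w : ℕ) : Bool :=
  cond (fN (fun ξ1 => fN (fun ξ2 => fN (fun b1 => fN (fun b2 => fN (fun u2 =>
      w2m d ξ1 ξ2 b1 b2 u2)
    (Nat.sub (w2s (Nat.mul b2 (Nat.sub 1048576 b2))) 1))
    (mn' 524288 (w2v d (Nat.mul ξ2 ξ2))))
    (w2v d (Nat.mul ξ1 ξ1)))
    (Nat.mul 1024 w))
    (Nat.add (w2s (mx' (w2y d d.s2l d.s3l) (mx' (w2y d d.s2h d.s3l)
      (mx' (w2y d d.s2l d.s3h) (w2y d d.s2h d.s3h))))) 2))
    (w2rA d) false

theorem w2mA_sound {d : Dt} {w : ℕ} {p h q g : ℝ} (ht : w2mA d w = true) (hd : DtOK d p h q g)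
    (hp : 0 < p) (hp1 : p < 1 / 2) (hq : 0 < q) (hq1 : q < 1 / 2) (hsq : Sq21 p h q g) :
    Fl21 p h q g := by
  obtain ⟨h1, h2⟩ := w2_cond_and ht
  unfold w2rA at h2
  simp only [fN_eq] at h1 h2
  exact fl_of_m h1 h2 hd hp hp1 hq hq1 hsq

end Pool.Agent.S5.F
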