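import Pool.Agent.S5.I.W2k

/-!
# Closed vertices with two half twists, weights `2` and `1`: the sharper criterion on boxes
-/

set_option autoImplicit false

namespace Pool.Agent.S5.C2

open MeasureTheory Filter Topology Set

/-- **The square on a box**, two segments. -/
theorem SW_sq_box2 {s1 s2 s3 p0 q0 al au bl bu tl1 tu1 tl2 tu2 tl3 fl fu xl xu ul uu c m1 m2 xm
    um vm w : ℝ}
    (hs1 : 0 ≤ s1) (hs3 : 0 ≤ s3) (hp0 : 0 < p0) (hp1 : p0 < 1 / 2)
    (hq0 : 0 < q0) (hq1 : q0 < 1 / 2)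
    (ha : al ≤ Sn p0) (ha' : Sn p0 ≤ au) (hb : bl ≤ Sn q0) (hb' : Sn q0 ≤ bu)
    (h1' : tl1 ≤ s1) (h1 : s1 ≤ tu1) (h2 : tl2 ≤ s2) (h2' : s2 ≤ tu2) (h3 : tl3 ≤ s3)
    (hf : fl ≤ fo (Sn p0) (Sn q0)) (hf' : fo (Sn p0) (Sn q0) ≤ fu)
    (hal : 0 ≤ al) (hbl : 0 ≤ bl) (htl2 : 0 ≤ tl2) (htl3 : 0 ≤ tl3) (hfl0 : 0 ≤ fl)
    (hxl : 0 ≤ xl) (hxu : 0 ≤ xu) (hxl1 : xl ≤ 1) (hxu1 : xu ≤ 1)
    (c1 : xl ^ 2 * (bu + tl2) ≤ tl2) (c2 : tu2 ≤ xu ^ 2 * (bl + tu2))
    (hul : 0 ≤ ul) (huu : 0 ≤ uu)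
    (c3 : ul ^ 2 + tu1 * (1 - xl) ≤ al * xl) (c4 : uu ^ 2 + tu1 * (1 - xu) ≤ al * xu)
    (hxm : xu ≤ xm) (hxm1 : xm < 1) (hum : 0 ≤ um) (hvm : 0 ≤ vm) (hw : 0 ≤ w)
    (n1 : um ^ 2 ≤ (al * xm - tu1 * (1 - xm)) * (1 - (bu * xm ^ 2 - tl2 * (1 - xm ^ 2))))
    (n2 : vm ^ 2 ≤ (bl * xm ^ 2 - tu2 * (1 - xm ^ 2)) * (1 - (au * xm - tl1 * (1 - xm))))
    (j1 : (fu ^ 2 + tl3) * xl ^ 2 * (w ^ 2 + tl3) < (ul * w + tl3) ^ 2)
    (j1' : xl ^ 2 * (fu ^ 2 + w ^ 2) ≤ 2 * (ul * w))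
    (j2 : (fu ^ 2 + tl3) * xu ^ 2 * (w ^ 2 + tl3) < (uu * w + tl3) ^ 2)
    (j2' : xu ^ 2 * (fu ^ 2 + w ^ 2) ≤ 2 * (uu * w))
    (j3 : (fu ^ 2 + tl3) * xm ^ 2 * (w ^ 2 + tl3) < ((um + vm) * w + tl3) ^ 2)
    (j3' : xm ^ 2 * (fu ^ 2 + w ^ 2) ≤ 2 * ((um + vm) * w))
    (g3 : fl ^ 2 * xm < fl * (um + vm) + tl3 * (1 - xm))
    (g4 : fu ^ 2 * xm < fu * (um + vm) + tl3 * (1 - xm))
    (e1 : tu1 ^ 2 * (fu ^ 2 + tl3) < (al + tu1) ^ 2 * tl3)
    (hc : 0 ≤ c) (hc1 : 1 ≤ c ^ 2 + fl ^ 2) (hm1 : 0 < m1) (hm2 : 0 < m2)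
    (k1 : m1 ^ 2 ≤ al * (1 - al)) (k2 : m1 ^ 2 ≤ au * (1 - au))
    (k3 : m2 ^ 2 ≤ bl * (1 - bl)) (k4 : m2 ^ 2 ≤ bu * (1 - bu))
    (k5 : (c * ((au + tu1) * m2 + 2 * ((bu + tu2) * m1))) ^ 2 <
      (fl ^ 2 + tl3) * (2 * (m1 * m2)) ^ 2) :
    ∃ c > 0, ∀ p ∈ Icc (0 : ℝ) (1 / 2), ∀ q ∈ Icc (0 : ℝ) (1 / 2),
      c * ((p - p0) ^ 2 + (q - q0) ^ 2) ≤ SW s1 s2 s3 p0 q0 p q := by
  have hs2 : 0 ≤ s2 := by linarith only [htl2, h2]
  have hlt1 : ∀ t : ℝ, 0 < t → t < 1 / 2 → Sn t < 1 := by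
    intro t h0 h1
    have h2 := cos_sq_eq t
    have hpi := Real.pi_pos
    have h5 : 0 < Real.pi * t := mul_pos hpi h0
    have h6 : Real.pi * t < Real.pi * (1 / 2) := mul_lt_mul_of_pos_left h1 hpi
    have h3 : 0 < Real.cos (Real.pi * t) := Real.cos_pos_of_mem_Ioo ⟨by linarith only [h5, hpi], by linarith only [h6]⟩
    have h4 := pow_pos h3 2
    linarith only [h4, h2]
  have ha0 : 0 < Sn p0 := Sn_pos hp0 (by linarith only [hp1])
  have hb0 : 0 < Sn q0 := Sn_pos hq0 (by linarith only [hq1, hp1, hp0])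
  have ha1 := hlt1 p0 hp0 hp1
  have hb1 := hlt1 q0 hq0 hq1
  set a0 := Sn p0 with ha0d
  set b0 := Sn q0 with hb0d
  set f := fo a0 b0 with hfd
  have hf0 : 0 < f := by
    rw [hfd]
    unfold fo
    have : 0 < √(a0 * (1 - b0)) := Real.sqrt_pos.2 (mul_pos ha0 (by linarith only [hb1]))
    positivity
  -- the left end
  set xe := √(s2 / (b0 + s2)) with hxe
  have hA2 : 0 < b0 + s2 := by linarith only [hb0, htl2, h2]
  have hxe0 : 0 ≤ xe := Real.sqrt_nonneg _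
  have hxe2 : (b0 + s2) * xe ^ 2 = s2 := by
    rw [hxe, Real.sq_sqrt (by positivity)]
    field_simp
  have d1 : xl ≤ xe := by
    apply Real.le_sqrt_of_sq_le
    rw [le_div_iff₀ hA2]
    have h5 : xl ^ 2 ≤ 1 := pow_le_one₀ hxl hxl1
    have h6 : xl ^ 2 * b0 ≤ xl ^ 2 * bu := mul_le_mul_of_nonneg_left hb' (by positivity)
    have h7 : 0 ≤ (1 - xl ^ 2) * (s2 - tl2) := mul_nonneg (by linarith only [h5]) (by linarith only [h2])
    linarith only [h7, h6, c1]
  have d2 : xe ≤ xu := by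
    apply Real.sqrt_le_iff.2 ⟨hxu, ?_⟩
    rw [div_le_iff₀ hA2]
    have h5 : xu ^ 2 ≤ 1 := pow_le_one₀ hxu hxu1
    have h6 : xu ^ 2 * bl ≤ xu ^ 2 * b0 := mul_le_mul_of_nonneg_left hb (by positivity)
    have h7 : 0 ≤ (1 - xu ^ 2) * (tu2 - s2) := mul_nonneg (by linarith only [h5]) (by linarith only [h2'])
    linarith only [h7, h6, c2]
  obtain ⟨t, ht0, ht1, htx⟩ : ∃ t : ℝ, 0 ≤ t ∧ t ≤ 1 ∧ xe = t * xl + (1 - t) * xu := by
    rcases (d1.trans d2).eq_or_lt with he | hlt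
    · exact ⟨1, by norm_num, le_rfl, by linarith only [d1, he, d2]⟩
    · have h5 : 0 < xu - xl := by linarith only [hlt]
      refine ⟨(xu - xe) / (xu - xl), div_nonneg (by linarith only [d2]) h5.le,
        (div_le_one h5).2 (by linarith only [d1]), ?_⟩
      field_simp
      ring
  set u := t * ul + (1 - t) * uu with hud
  have ht2 : 0 ≤ 1 - t := by linarith only [ht1]
  have hu0 : 0 ≤ u := by positivity
  have hu2 : u ^ 2 ≤ (a0 + s1) * xe - s1 := by
    have h5 : u ^ 2 ≤ t * ul ^ 2 + (1 - t) * uu ^ 2 := by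
      have h6 : 0 ≤ t * (1 - t) * (ul - uu) ^ 2 := by positivity
      have h7 : t * ul ^ 2 + (1 - t) * uu ^ 2 - u ^ 2 = t * (1 - t) * (ul - uu) ^ 2 := by
        rw [hud]
        ring
      linarith only [h6]
    have h6 : t * ul ^ 2 + (1 - t) * uu ^ 2 ≤ al * xe - tu1 * (1 - xe) := by
      have h7 := mul_le_mul_of_nonneg_left c3 ht0
      have h8 := mul_le_mul_of_nonneg_left c4 ht2
      rw [htx]
      linarith only [h8, h7]
    have h7 : al * xe ≤ a0 * xe := mul_le_mul_of_nonneg_right ha hxe0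
    have h8 : s1 * (1 - xe) ≤ tu1 * (1 - xe) := mul_le_mul_of_nonneg_right h1 (by linarith only [d2,
                                                                                    hxu1])
    linarith only [h8, h7, h6, h5]
  -- the value there
  have hG : ∀ x w : ℝ, 0 ≤ x → x ≤ 1 → fl ^ 2 * x < fl * w + tl3 * (1 - x) →
      fu ^ 2 * x < fu * w + tl3 * (1 - x) → f ^ 2 * x < f * w + s3 * (1 - x) := by
    intro x w hx hx1 i1 i2
    have h5 := sq_mid hf hf' hx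
    have h6 : tl3 * (1 - x) ≤ s3 * (1 - x) := mul_le_mul_of_nonneg_right h3 (by linarith only [hx1])
    rcases (hf.trans hf').eq_or_lt with he | hlt
    · have h7 : f = fl := le_antisymm (by linarith only [he, hf']) hf
      rw [h7]
      linarith only [h6, i1]
    · have h7 : 0 < fu - fl := by linarith only [hlt]
      have j1 : 0 ≤ fu - f := by linarith only [hf']
      have j2 : 0 ≤ f - fl := by linarith only [hf]
      have h8 : (fu - fl) * (x * ((fl + fu) * f - fl * fu)) <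
          (fu - fl) * (f * w + tl3 * (1 - x)) := by
        have h9 : (fu - fl) * (f * w + tl3 * (1 - x)) -
            (fu - fl) * (x * ((fl + fu) * f - fl * fu)) =
            (fu - f) * (fl * w + tl3 * (1 - x) - fl ^ 2 * x) +
              (f - fl) * (fu * w + tl3 * (1 - x) - fu ^ 2 * x) := by ring
        rcases j1.eq_or_lt with j | j
        · have h10 : 0 < f - fl := by linarith only [j, hlt]
          have h11 : 0 < (f - fl) * (fu * w + tl3 * (1 - x) - fu ^ 2 * x) :=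
            mul_pos h10 (by linarith only [i2])
          have h12 : 0 ≤ (fu - f) * (fl * w + tl3 * (1 - x) - fl ^ 2 * x) :=
            mul_nonneg j1 (by linarith only [i1])
          linarith only [h12, h11]
        · have h11 : 0 ≤ (f - fl) * (fu * w + tl3 * (1 - x) - fu ^ 2 * x) :=
            mul_nonneg j2 (by linarith only [i2])
          have h12 : 0 < (fu - f) * (fl * w + tl3 * (1 - x) - fl ^ 2 * x) :=
            mul_pos j (by linarith only [i1])
          linarith only [h12, h11]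
      have h9 := lt_of_mul_lt_mul_left h8 h7.le
      linarith only [h9, h6, h5]
  have i1 := hG xm (um + vm) (hxu.trans hxm) hxm1.le g3 g4
  have hf2 : f ^ 2 ≤ fu ^ 2 := pow_le_pow_left₀ hf0.le hf' 2
  have ms : ∀ {x F : ℝ}, 0 ≤ x → x ≤ 1 → 0 ≤ F →
      (fu ^ 2 + tl3) * x ^ 2 * (w ^ 2 + tl3) < (F * w + tl3) ^ 2 →
      x ^ 2 * (fu ^ 2 + w ^ 2) ≤ 2 * (F * w) →
      (f ^ 2 + s3) * x ^ 2 * (w ^ 2 + s3) < (F * w + s3) ^ 2 := by
    intro x F hx hx1 hF k1 k2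
    have e1 : (f ^ 2 + s3) * x ^ 2 * (w ^ 2 + s3) ≤ (fu ^ 2 + s3) * x ^ 2 * (w ^ 2 + s3) :=
      mul_le_mul_of_nonneg_right (mul_le_mul_of_nonneg_right (by linarith only [hf2]) (by positivity))
        (by positivity)
    have e2 : 0 ≤ (s3 - tl3) * (2 * (F * w) - x ^ 2 * (fu ^ 2 + w ^ 2)) :=
      mul_nonneg (by linarith only [h3]) (by linarith only [k2])
    have e3 : 0 ≤ (s3 - tl3) * ((1 - x ^ 2) * (s3 + tl3)) :=
      mul_nonneg (by linarith only [h3]) (mul_nonneg (by linarith only [pow_le_one₀ hx hx1 (n := 2)])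
        (by linarith only [htl3, hs3]))
    have e4 : (F * w + s3) ^ 2 - (fu ^ 2 + s3) * x ^ 2 * (w ^ 2 + s3) =
        (F * w + tl3) ^ 2 - (fu ^ 2 + tl3) * x ^ 2 * (w ^ 2 + tl3) +
        (s3 - tl3) * (2 * (F * w) - x ^ 2 * (fu ^ 2 + w ^ 2)) +
        (s3 - tl3) * ((1 - x ^ 2) * (s3 + tl3)) := by ring
    linarith only [e3, e2, e1, k1]
  have m1' := ms hxl hxl1 hul j1 j1'
  have m2' := ms hxu hxu1 huu j2 j2'
  have m3' := ms (hxu.trans hxm) hxm1.le (add_nonneg hum hvm) j3 j3'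
  have m4' : (f ^ 2 + s3) * xe ^ 2 * (w ^ 2 + s3) < ((u + 0) * w + s3) ^ 2 := by
    set N := √((f ^ 2 + s3) * (w ^ 2 + s3)) with hN
    have hN0 : 0 ≤ N := Real.sqrt_nonneg _
    have hN2 : N ^ 2 = (f ^ 2 + s3) * (w ^ 2 + s3) := Real.sq_sqrt (by positivity)
    have e1 : N * xl < ul * w + s3 := by
      apply lt_of_pow_lt_pow_left₀ 2 (by positivity)
      have : (N * xl) ^ 2 = (f ^ 2 + s3) * xl ^ 2 * (w ^ 2 + s3) := by
        rw [mul_pow, hN2]
        ring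
      rw [this]
      exact m1'
    have e2 : N * xu < uu * w + s3 := by
      apply lt_of_pow_lt_pow_left₀ 2 (by positivity)
      have : (N * xu) ^ 2 = (f ^ 2 + s3) * xu ^ 2 * (w ^ 2 + s3) := by
        rw [mul_pow, hN2]
        ring
      rw [this]
      exact m2'
    have e3 : N * xe < u * w + s3 := by
      have h5 : u * w + s3 - N * xe = t * (ul * w + s3 - N * xl) +
          (1 - t) * (uu * w + s3 - N * xu) := by
        rw [htx, hud]
        ring
      rcases ht0.eq_or_lt with j | j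
      · have h6 : 0 ≤ t * (ul * w + s3 - N * xl) := mul_nonneg ht0 (by linarith only [e1])
        have h7 : 0 < (1 - t) * (uu * w + s3 - N * xu) := mul_pos (by linarith only [j, hp1, hp0]) (by linarith only [e2])
        linarith only [h7, h6, h5]
      · have h6 : 0 < t * (ul * w + s3 - N * xl) := mul_pos j (by linarith only [e1])
        have h7 : 0 ≤ (1 - t) * (uu * w + s3 - N * xu) := mul_nonneg ht2 (by linarith only [e2])
        linarith only [h7, h6, h5]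
    have e4 : (N * xe) ^ 2 < (u * w + s3) ^ 2 :=
      pow_lt_pow_left₀ e3 (by positivity) (by norm_num)
    have e5 : (N * xe) ^ 2 = (f ^ 2 + s3) * xe ^ 2 * (w ^ 2 + s3) := by
      rw [mul_pow, hN2]
      ring
    rw [add_zero, ← e5]
    exact e4
  -- the second point
  have hxm0 : 0 ≤ xm := hxu.trans hxm
  have q1 : xm ^ 2 ≤ 1 := pow_le_one₀ hxm0 hxm1.le
  have q2 : xe ^ 2 ≤ xm ^ 2 := pow_le_pow_left₀ hxe0 (d2.trans hxm) 2
  have q3 : xu ^ 2 ≤ xm ^ 2 := pow_le_pow_left₀ hxu hxm 2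
  have ht1u : 0 ≤ tu1 := hs1.trans h1
  have ht2u : 0 ≤ tu2 := hs2.trans h2'
  have am1 : 0 ≤ al * xm - tu1 * (1 - xm) := by
    have e1 : al * xu ≤ al * xm := mul_le_mul_of_nonneg_left hxm hal
    have e2 : tu1 * (1 - xm) ≤ tu1 * (1 - xu) := mul_le_mul_of_nonneg_left (by linarith only [hxm]) ht1u
    have := sq_nonneg uu
    linarith only [this, e2, e1, c4]
  have am2 : al * xm - tu1 * (1 - xm) ≤ (a0 + s1) * xm - s1 := by
    have e1 : al * xm ≤ a0 * xm := mul_le_mul_of_nonneg_right ha hxm0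
    have e2 : s1 * (1 - xm) ≤ tu1 * (1 - xm) := mul_le_mul_of_nonneg_right h1 (by linarith only [hxm1])
    linarith only [e2, e1]
  have am3 : (a0 + s1) * xm - s1 ≤ au * xm - tl1 * (1 - xm) := by
    have e1 : a0 * xm ≤ au * xm := mul_le_mul_of_nonneg_right ha' hxm0
    have e2 : tl1 * (1 - xm) ≤ s1 * (1 - xm) := mul_le_mul_of_nonneg_right h1' (by linarith only [hxm1])
    linarith only [e2, e1]
  have am4 : (a0 + s1) * xm - s1 ≤ 1 := by
    have : (a0 + s1) * xm ≤ (a0 + s1) * 1 := mul_le_mul_of_nonneg_left hxm1.le (by linarith only [ha,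
                                                                                     hal, hs1])
    linarith only [this, ha1]
  have bm1 : 0 ≤ bl * xm ^ 2 - tu2 * (1 - xm ^ 2) := by
    have e1 : (bl + tu2) * xu ^ 2 ≤ (bl + tu2) * xm ^ 2 := mul_le_mul_of_nonneg_left q3
      (by linarith only [htl2, hbl, h2', h2])
    linarith only [e1, c2]
  have bm2 : bl * xm ^ 2 - tu2 * (1 - xm ^ 2) ≤ (b0 + s2) * xm ^ 2 - s2 := by
    have e1 : bl * xm ^ 2 ≤ b0 * xm ^ 2 := mul_le_mul_of_nonneg_right hb (by positivity)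
    have e2 : s2 * (1 - xm ^ 2) ≤ tu2 * (1 - xm ^ 2) := mul_le_mul_of_nonneg_right h2' (by linarith only [q1])
    linarith only [e2, e1]
  have bm3 : (b0 + s2) * xm ^ 2 - s2 ≤ bu * xm ^ 2 - tl2 * (1 - xm ^ 2) := by
    have e1 : b0 * xm ^ 2 ≤ bu * xm ^ 2 := mul_le_mul_of_nonneg_right hb' (by positivity)
    have e2 : tl2 * (1 - xm ^ 2) ≤ s2 * (1 - xm ^ 2) := mul_le_mul_of_nonneg_right h2 (by linarith only [q1])
    linarith only [e2, e1]
  have bm4 : (b0 + s2) * xm ^ 2 - s2 ≤ 1 := by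
    have : (b0 + s2) * xm ^ 2 ≤ (b0 + s2) * 1 := mul_le_mul_of_nonneg_left q1 (by linarith only [hb,
                                                                                    htl2, hbl, h2])
    linarith only [this, hb1]
  have N1 : um ^ 2 ≤ ((a0 + s1) * xm - s1) * (1 - ((b0 + s2) * xm ^ 2 - s2)) := by
    have e1 : (al * xm - tu1 * (1 - xm)) * (1 - (bu * xm ^ 2 - tl2 * (1 - xm ^ 2))) ≤
        (al * xm - tu1 * (1 - xm)) * (1 - ((b0 + s2) * xm ^ 2 - s2)) :=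
      mul_le_mul_of_nonneg_left (by linarith only [bm3]) am1
    have e2 : (al * xm - tu1 * (1 - xm)) * (1 - ((b0 + s2) * xm ^ 2 - s2)) ≤
        ((a0 + s1) * xm - s1) * (1 - ((b0 + s2) * xm ^ 2 - s2)) :=
      mul_le_mul_of_nonneg_right am2 (by linarith only [bm4])
    linarith only [e2, e1, n1]
  have N2 : vm ^ 2 ≤ ((b0 + s2) * xm ^ 2 - s2) * (1 - ((a0 + s1) * xm - s1)) := by
    have e1 : (bl * xm ^ 2 - tu2 * (1 - xm ^ 2)) * (1 - (au * xm - tl1 * (1 - xm))) ≤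
        (bl * xm ^ 2 - tu2 * (1 - xm ^ 2)) * (1 - ((a0 + s1) * xm - s1)) :=
      mul_le_mul_of_nonneg_left (by linarith only [am3]) bm1
    have e2 : (bl * xm ^ 2 - tu2 * (1 - xm ^ 2)) * (1 - ((a0 + s1) * xm - s1)) ≤
        ((b0 + s2) * xm ^ 2 - s2) * (1 - ((a0 + s1) * xm - s1)) :=
      mul_le_mul_of_nonneg_right bm2 (by linarith only [am4])
    linarith only [e2, e1, n2]
  -- the edges
  have i4 : s1 ^ 2 * (f ^ 2 + s3) < (a0 + s1) ^ 2 * s3 := by
    have ht1' : 0 ≤ tu1 := hs1.trans h1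
    have htl3' : 0 < tl3 := by
      rcases htl3.eq_or_lt with j | j
      · rw [← j] at e1
        have : 0 ≤ tu1 ^ 2 * (fu ^ 2 + 0) := by positivity
        linarith only [this, e1]
      · exact j
    have hs3' : 0 < s3 := by linarith only [htl3', h3]
    have h5 : s1 * (al + tu1) ≤ tu1 * (a0 + s1) := by
      have j1 : s1 * al ≤ tu1 * a0 := mul_le_mul h1 ha hal ht1'
      linarith only [j1]
    have h6 : (s1 * (al + tu1)) ^ 2 ≤ (tu1 * (a0 + s1)) ^ 2 :=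
      pow_le_pow_left₀ (by positivity) h5 2
    have h7 : f ^ 2 ≤ fu ^ 2 := pow_le_pow_left₀ hf0.le hf' 2
    have h8 : (f ^ 2 + s3) * tl3 ≤ (fu ^ 2 + tl3) * s3 := by
      have j1 : f ^ 2 * tl3 ≤ fu ^ 2 * s3 := mul_le_mul h7 h3 htl3 (by positivity)
      linarith only [j1]
    have h9 : 0 < al + tu1 := by
      by_contra hcon
      rw [not_lt] at hcon
      have j1 : al = 0 := by linarith only [hal, hcon, h1, hs1]
      have j2 : tu1 = 0 := by linarith only [h1, hs1, hcon, hal]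
      rw [j1, j2] at e1
      norm_num at e1
    have h10 : 0 < tl3 * (al + tu1) ^ 2 := by positivity
    have h11 : (s1 ^ 2 * (f ^ 2 + s3)) * (tl3 * (al + tu1) ^ 2) <
        ((a0 + s1) ^ 2 * s3) * (tl3 * (al + tu1) ^ 2) := by
      calc (s1 ^ 2 * (f ^ 2 + s3)) * (tl3 * (al + tu1) ^ 2) =
          (s1 * (al + tu1)) ^ 2 * ((f ^ 2 + s3) * tl3) := by ring
        _ ≤ (tu1 * (a0 + s1)) ^ 2 * ((fu ^ 2 + tl3) * s3) :=
            mul_le_mul h6 h8 (by positivity) (by positivity)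
        _ = (tu1 ^ 2 * (fu ^ 2 + tl3)) * ((a0 + s1) ^ 2 * s3) := by ring
        _ < ((al + tu1) ^ 2 * tl3) * ((a0 + s1) ^ 2 * s3) :=
            mul_lt_mul_of_pos_right e1 (by positivity)
        _ = _ := by ring
    exact lt_of_mul_lt_mul_right h11 h10.le
  -- the slope
  have conc : ∀ {l r x m : ℝ}, l ≤ x → x ≤ r → m ≤ l * (1 - l) → m ≤ r * (1 - r) →
      m ≤ x * (1 - x) := by
    intro l r x m hl hr j1 j2
    rcases (hl.trans hr).eq_or_lt with he | hlt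
    · have h7 : x = l := le_antisymm (by linarith only [he, hr]) hl
      rw [h7]
      exact j1
    · have h5 : 0 ≤ (r - x) * (l * (1 - l) - m) := mul_nonneg (by linarith only [hr]) (by linarith only [j1])
      have h6 : 0 ≤ (x - l) * (r * (1 - r) - m) := mul_nonneg (by linarith only [hl]) (by linarith only [j2])
      have h7 : 0 ≤ (r - l) * ((x - l) * (r - x)) :=
        mul_nonneg (by linarith only [hr, hl]) (mul_nonneg (by linarith only [hl]) (by linarith only [hr]))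
      have h8 : (r - l) * (x * (1 - x) - m) = (r - x) * (l * (1 - l) - m) +
          (x - l) * (r * (1 - r) - m) + (r - l) * ((x - l) * (r - x)) := by ring
      have h9 : 0 ≤ (r - l) * (x * (1 - x) - m) := by linarith only [h7, h6, h5]
      have := nonneg_of_mul_nonneg_right h9 (by linarith only [hlt] : 0 < r - l)
      linarith only [this]
  have hEs := Es_box (au := au) (bu := bu) (tu1 := tu1) (tu2 := tu2) ha0 ha1 hb0 hb1 hs1 hs2
    (by linarith only [ha', h1]) (by linarith only [hb', h2']) hfl0 hf hc hc1 hm1 hm2 (conc ha ha' k1 k2) (conc hb hb' k3 k4)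
  have hT : (c * ((au + tu1) / (2 * m1) + (bu + tu2) / m2)) ^ 2 < f ^ 2 + s3 := by
    have h5 : fl ^ 2 ≤ f ^ 2 := pow_le_pow_left₀ hfl0 hf 2
    have h6 : 0 < (2 * (m1 * m2)) ^ 2 := by positivity
    have h7 : (c * ((au + tu1) / (2 * m1) + (bu + tu2) / m2)) ^ 2 * (2 * (m1 * m2)) ^ 2 =
        (c * ((au + tu1) * m2 + 2 * ((bu + tu2) * m1))) ^ 2 := by
      field_simp
      try ring
    have h8 : (fl ^ 2 + tl3) * (2 * (m1 * m2)) ^ 2 ≤ (f ^ 2 + s3) * (2 * (m1 * m2)) ^ 2 :=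
      mul_le_mul_of_nonneg_right (by linarith only [h5, h3]) h6.le
    have h9 : (c * ((au + tu1) / (2 * m1) + (bu + tu2) / m2)) ^ 2 * (2 * (m1 * m2)) ^ 2 <
        (f ^ 2 + s3) * (2 * (m1 * m2)) ^ 2 := by
      rw [h7]
      linarith only [h8, k5]
    exact lt_of_mul_lt_mul_right h9 h6.le
  have hae : 0 ≤ (a0 + s1) * xe - s1 := by
    have := sq_nonneg u
    linarith only [this, hu2]
  have hbe : 0 ≤ (b0 + s2) * xe ^ 2 - s2 := by linarith only [hxe2]
  apply SW_critG (h := 0) (xe := xe) hs1 hs2 hs3 hp0 hp1 hq0 hq1 le_rfl hxe0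
    hae hbe ?_ ?_ ?_ ?_ hEs hT
  · intro p q hp hq hh
    linarith only [hh, hq, hp]
  · intro x hx hx1
    rcases le_total x xm with hc | hc
    · refine G_mid (xm := xm) (u := u) (v := 0) (um := um) (vm := vm) (w := w) ha0 ha1 hb0 hb1 hs1
        hs2 hs3 hxe0 hx hc hxm1.le hae hbe hu0 le_rfl hum hvm hw ?_ ?_ N1 N2 m4' m3'
      · rw [hxe2]
        linarith only [hu2]
      · rw [hxe2]
        simp
    · exact G_lt (xe := xm) (u := um) (v := vm) ha0 ha1 hb0 hb1 hs1 hs2 hs3 hc hx1 hxm0 rfl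
        (by linarith only [am2, am1]) (by linarith only [bm2, bm1]) hum N1 N2 (by rw [← hfd]; linarith only [i1]) rfl rfl
  · exact Or.inr (Or.inl hxe2.le)
  · rw [Sn_zero, zero_add, zero_add]
    exact Or.inl i4
  · rw [Sn_zero, zero_add, zero_add]
    exact Or.inr i4

end Pool.Agent.S5.C2
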