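import Pool.Agent.S5.I.W2j
import Pool.Agent.S5.I.W2l

/-!
# Closed vertices with two half twists, weights `2` and `1`: the sharper test of the square

All numbers are in units of `2^(-20)`.
-/

set_option autoImplicit false

namespace Pool.Agent.S5.F

open Pool.Agent.S5.C2 Pool.Agent.S5.Num Set

/-- The test at the point `x` with the value `F` in the direction `w`. -/
def w2j (f x F w s3 : ℕ) : Bool :=
  cond (Nat.ble (Nat.succ (Nat.mul (Nat.mul (Nat.add (Nat.mul f f) (Nat.mul 1048576 s3)) (Nat.mul x x))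
      (Nat.add (Nat.mul w w) (Nat.mul 1048576 s3))))
    (Nat.mul 1099511627776 (fN (fun m => Nat.mul m m) (Nat.add (Nat.mul F w) (Nat.mul 1048576 s3)))))
  (Nat.ble (Nat.mul (Nat.mul x x) (Nat.add (Nat.mul f f) (Nat.mul w w)))
    (Nat.mul 2199023255552 (Nat.mul F w))) false

/-- `m² 2^60 ≤ (P - P') (Q - Q')`. -/
def w2p (m P P' Q Q' : ℕ) : Bool :=
  Nat.ble (Nat.add (Nat.mul 1152921504606846976 (Nat.mul m m)) (Nat.add (Nat.mul P Q') (Nat.mul P' Q)))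
    (Nat.add (Nat.mul P Q) (Nat.mul P' Q'))

/-- The sharper test of the square `[0, 1 / 2]²`. -/
def w2sr (d : Dt) (xl xu ul uu c m1 m2 xm um vm w : ℕ) : Bool :=
  cond (Nat.ble xl 1048576) (cond (Nat.ble xu 1048576)
  (cond (Nat.ble (Nat.mul (Nat.mul xl xl) (Nat.add d.b1 d.s2l)) (Nat.mul 1099511627776 d.s2l))
  (cond (Nat.ble (Nat.mul 1099511627776 d.s2h) (Nat.mul (Nat.mul xu xu) (Nat.add d.b0 d.s2h)))
  (cond (Nat.ble (Nat.add (Nat.mul ul ul) (Nat.mul 1048576 d.s1h)) (Nat.mul xl (Nat.add d.a0 d.s1h)))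
  (cond (Nat.ble (Nat.add (Nat.mul uu uu) (Nat.mul 1048576 d.s1h)) (Nat.mul xu (Nat.add d.a0 d.s1h)))
  (cond (w2j d.f1 xl ul w d.s3l) (cond (w2j d.f1 xu uu w d.s3l)
  (cond (fN (fun F => cond (w2j d.f1 xm F w d.s3l)
    (cond (w2g d.f0 xm F d.s3l) (w2g d.f1 xm F d.s3l) false) false) (Nat.add um vm))
  (cond (Nat.ble xu xm) (cond (Nat.ble (Nat.succ xm) 1048576)
  (cond (w2p um (Nat.mul xm (Nat.add d.a0 d.s1h)) (Nat.mul 1048576 d.s1h)
    (Nat.add 1152921504606846976 (Nat.mul 1099511627776 d.s2l))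
    (Nat.mul (Nat.mul xm xm) (Nat.add d.b1 d.s2l)))
  (cond (w2p vm (Nat.mul (Nat.mul xm xm) (Nat.add d.b0 d.s2h)) (Nat.mul 1099511627776 d.s2h)
    (Nat.add 1099511627776 (Nat.mul 1048576 d.s1l)) (Nat.mul xm (Nat.add d.a1 d.s1l)))
  (cond (Nat.ble (Nat.succ (Nat.mul (Nat.mul d.s1h d.s1h)
      (Nat.add (Nat.mul d.f1 d.f1) (Nat.mul 1048576 d.s3l))))
    (Nat.mul (fN (fun m => Nat.mul m m) (Nat.add d.a0 d.s1h)) (Nat.mul 1048576 d.s3l)))
  (cond (Nat.ble 1099511627776 (Nat.add (Nat.mul c c) (Nat.mul d.f0 d.f0)))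
  (cond (Nat.ble 1 m1) (cond (Nat.ble 1 m2)
  (cond (Nat.ble (Nat.add (Nat.mul m1 m1) (Nat.mul d.a0 d.a0)) (Nat.mul 1048576 d.a0))
  (cond (Nat.ble (Nat.add (Nat.mul m1 m1) (Nat.mul d.a1 d.a1)) (Nat.mul 1048576 d.a1))
  (cond (Nat.ble (Nat.add (Nat.mul m2 m2) (Nat.mul d.b0 d.b0)) (Nat.mul 1048576 d.b0))
  (cond (Nat.ble (Nat.add (Nat.mul m2 m2) (Nat.mul d.b1 d.b1)) (Nat.mul 1048576 d.b1))
  (Nat.ble (Nat.succ (fN (fun m => Nat.mul m m) (Nat.mul c (Nat.add (Nat.mul (Nat.add d.a1 d.s1h) m2)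
      (Nat.mul 2 (Nat.mul (Nat.add d.b1 d.s2h) m1))))))
    (Nat.mul (Nat.add (Nat.mul d.f0 d.f0) (Nat.mul 1048576 d.s3l))
      (fN (fun m => Nat.mul m m) (Nat.mul 2 (Nat.mul m1 m2)))))
  false) false) false) false) false) false) false) false) false) false) false) false) false) false)
  false) false) false) false) false) false) false

theorem w2j_sound {f x G w s3 : ℕ} {F X V W T : ℝ} (h : w2j f x G w s3 = true)
    (hF : (f : ℝ) = 1048576 * F) (hX : (x : ℝ) = 1048576 * X) (hV : (G : ℝ) = 1048576 * V)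
    (hW : (w : ℝ) = 1048576 * W) (hT : (s3 : ℝ) = 1048576 * T) :
    (F ^ 2 + T) * X ^ 2 * (W ^ 2 + T) < (V * W + T) ^ 2 ∧
      X ^ 2 * (F ^ 2 + W ^ 2) ≤ 2 * (V * W) := by
  unfold w2j at h
  simp only [fN_eq] at h
  obtain ⟨t1, t2⟩ := w2_cond_and h
  have h1 : ((f * f + 1048576 * s3) * (x * x)) * (w * w + 1048576 * s3) <
      1099511627776 * ((G * w + 1048576 * s3) * (G * w + 1048576 * s3)) := w2_lt_of_ble t1
  have h2 : (x * x) * (f * f + w * w) ≤ 2199023255552 * (G * w) := Nat.le_of_ble_eq_true t2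
  rify at h1 h2
  rw [hF, hX, hV, hW, hT] at h1
  rw [hF, hX, hV, hW] at h2
  constructor <;> linarith

theorem w2p_sound {m P P' Q Q' : ℕ} {M R R' S S' : ℝ} (h : w2p m P P' Q Q' = true)
    (hm : (m : ℝ) = 1048576 * M) (hP : (P : ℝ) = R) (hP' : (P' : ℝ) = R') (hQ : (Q : ℝ) = S)
    (hQ' : (Q' : ℝ) = S') : 1152921504606846976 * (1048576 * M) ^ 2 ≤ (R - R') * (S - S') := by
  have h1 : 1152921504606846976 * (m * m) + (P * Q' + P' * Q) ≤ P * Q + P' * Q' :=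
    Nat.le_of_ble_eq_true h
  rify at h1
  rw [hm, hP, hP', hQ, hQ'] at h1
  linarith

/-- **Soundness of the sharper test of the square.** -/
theorem w2sr_sound {d : Dt} {xl xu ul uu c m1 m2 xm um vm w : ℕ} {p h q g : ℝ}
    (ht : w2sr d xl xu ul uu c m1 m2 xm um vm w = true) (hd : DtOK d p h q g) (hp : 0 < p)
    (hp1 : p < 1 / 2) (hq : 0 < q) (hq1 : q < 1 / 2) : Sq21 p h q g := by
  unfold w2sr at ht
  simp only [fN_eq] at ht
  obtain ⟨t1, ht⟩ := w2_cond_and ht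
  obtain ⟨t2, ht⟩ := w2_cond_and ht
  obtain ⟨t3, ht⟩ := w2_cond_and ht
  obtain ⟨t4, ht⟩ := w2_cond_and ht
  obtain ⟨t5, ht⟩ := w2_cond_and ht
  obtain ⟨t6, ht⟩ := w2_cond_and ht
  obtain ⟨t7, ht⟩ := w2_cond_and ht
  obtain ⟨t8, ht⟩ := w2_cond_and ht
  obtain ⟨t9, ht⟩ := w2_cond_and ht
  obtain ⟨t9, t9'⟩ := w2_cond_and t9
  obtain ⟨t9', t9''⟩ := w2_cond_and t9'
  obtain ⟨t10, ht⟩ := w2_cond_and ht
  obtain ⟨t10', ht⟩ := w2_cond_and ht
  obtain ⟨n1, ht⟩ := w2_cond_and ht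
  obtain ⟨n2, ht⟩ := w2_cond_and ht
  obtain ⟨t11, ht⟩ := w2_cond_and ht
  obtain ⟨t12, ht⟩ := w2_cond_and ht
  obtain ⟨t13, ht⟩ := w2_cond_and ht
  obtain ⟨t14, ht⟩ := w2_cond_and ht
  obtain ⟨t15, ht⟩ := w2_cond_and ht
  obtain ⟨t16, ht⟩ := w2_cond_and ht
  obtain ⟨t17, ht⟩ := w2_cond_and ht
  obtain ⟨t18, t19⟩ := w2_cond_and ht
  have i1 : xl ≤ 1048576 := Nat.le_of_ble_eq_true t1
  have i2 : xu ≤ 1048576 := Nat.le_of_ble_eq_true t2
  have i3 : (xl * xl) * (d.b1 + d.s2l) ≤ 1099511627776 * d.s2l := Nat.le_of_ble_eq_true t3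
  have i4 : 1099511627776 * d.s2h ≤ (xu * xu) * (d.b0 + d.s2h) := Nat.le_of_ble_eq_true t4
  have i5 : ul * ul + 1048576 * d.s1h ≤ xl * (d.a0 + d.s1h) := Nat.le_of_ble_eq_true t5
  have i6 : uu * uu + 1048576 * d.s1h ≤ xu * (d.a0 + d.s1h) := Nat.le_of_ble_eq_true t6
  have i10 : xu ≤ xm := Nat.le_of_ble_eq_true t10
  have i10' : xm < 1048576 := w2_lt_of_ble t10'
  have i11 : (d.s1h * d.s1h) * (d.f1 * d.f1 + 1048576 * d.s3l) <
      ((d.a0 + d.s1h) * (d.a0 + d.s1h)) * (1048576 * d.s3l) := w2_lt_of_ble t11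
  have i12 : 1099511627776 ≤ c * c + d.f0 * d.f0 := Nat.le_of_ble_eq_true t12
  have i13 : 1 ≤ m1 := Nat.le_of_ble_eq_true t13
  have i14 : 1 ≤ m2 := Nat.le_of_ble_eq_true t14
  have i15 : m1 * m1 + d.a0 * d.a0 ≤ 1048576 * d.a0 := Nat.le_of_ble_eq_true t15
  have i16 : m1 * m1 + d.a1 * d.a1 ≤ 1048576 * d.a1 := Nat.le_of_ble_eq_true t16
  have i17 : m2 * m2 + d.b0 * d.b0 ≤ 1048576 * d.b0 := Nat.le_of_ble_eq_true t17
  have i18 : m2 * m2 + d.b1 * d.b1 ≤ 1048576 * d.b1 := Nat.le_of_ble_eq_true t18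
  have i19 : (c * ((d.a1 + d.s1h) * m2 + 2 * ((d.b1 + d.s2h) * m1))) *
      (c * ((d.a1 + d.s1h) * m2 + 2 * ((d.b1 + d.s2h) * m1))) <
      (d.f0 * d.f0 + 1048576 * d.s3l) * ((2 * (m1 * m2)) * (2 * (m1 * m2))) := w2_lt_of_ble t19
  rify at i1 i2 i3 i4 i5 i6 i10 i10' i11 i12 i13 i14 i15 i16 i17 i18 i19
  obtain ⟨XL, XL0, eXL⟩ := ex_unit xl
  obtain ⟨XU, XU0, eXU⟩ := ex_unit xu
  obtain ⟨UL, UL0, eUL⟩ := ex_unit ul
  obtain ⟨UU, UU0, eUU⟩ := ex_unit uu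
  obtain ⟨C, C0, eC⟩ := ex_unit c
  obtain ⟨M1, M10, eM1⟩ := ex_unit m1
  obtain ⟨M2, M20, eM2⟩ := ex_unit m2
  obtain ⟨XM, XM0, eXM⟩ := ex_unit xm
  obtain ⟨UM, UM0, eUM⟩ := ex_unit um
  obtain ⟨VM, VM0, eVM⟩ := ex_unit vm
  obtain ⟨W, W0, eW⟩ := ex_unit w
  obtain ⟨A0, A00, eA0⟩ := ex_unit d.a0
  obtain ⟨A1, A10, eA1⟩ := ex_unit d.a1
  obtain ⟨B0, B00, eB0⟩ := ex_unit d.b0
  obtain ⟨B1, B10, eB1⟩ := ex_unit d.b1
  obtain ⟨S1l, S1l0, eS1l⟩ := ex_unit d.s1l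
  obtain ⟨S1, S10, eS1⟩ := ex_unit d.s1h
  obtain ⟨S2, S20, eS2⟩ := ex_unit d.s2l
  obtain ⟨S2', S20', eS2'⟩ := ex_unit d.s2h
  obtain ⟨S3, S30, eS3⟩ := ex_unit d.s3l
  obtain ⟨F0, F00, eF0⟩ := ex_unit d.f0
  obtain ⟨F1, F10, eF1⟩ := ex_unit d.f1
  have eUV : ((Nat.add um vm : ℕ) : ℝ) = 1048576 * (UM + VM) := by
    have : ((Nat.add um vm : ℕ) : ℝ) = (um : ℝ) + vm := Nat.cast_add _ _
    rw [this, eUM, eVM]
    ring
  obtain ⟨j1, j1'⟩ := w2j_sound t7 eF1 eXL eUL eW eS3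
  obtain ⟨j2, j2'⟩ := w2j_sound t8 eF1 eXU eUU eW eS3
  obtain ⟨j3, j3'⟩ := w2j_sound t9 eF1 eXM eUV eW eS3
  have g3 := w2g_sound t9' eF0 eXM eUV eS3
  have g4 := w2g_sound t9'' eF1 eXM eUV eS3
  have N1 := w2p_sound (R := 1048576 ^ 2 * (XM * (A0 + S1))) (R' := 1048576 ^ 2 * S1)
    (S := 1048576 ^ 3 * (1 + S2)) (S' := 1048576 ^ 3 * (XM ^ 2 * (B1 + S2))) n1 eUM
    (by
      have : ((Nat.mul xm (Nat.add d.a0 d.s1h) : ℕ) : ℝ) = (xm : ℝ) * (d.a0 + d.s1h) := by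
        exact_mod_cast rfl
      rw [this, eXM, eA0, eS1]
      ring)
    (by
      have : ((Nat.mul 1048576 d.s1h : ℕ) : ℝ) = 1048576 * d.s1h := by exact_mod_cast rfl
      rw [this, eS1]
      ring)
    (by
      have : ((Nat.add 1152921504606846976 (Nat.mul 1099511627776 d.s2l) : ℕ) : ℝ) =
          1152921504606846976 + 1099511627776 * d.s2l := by exact_mod_cast rfl
      rw [this, eS2]
      ring)
    (by
      have : ((Nat.mul (Nat.mul xm xm) (Nat.add d.b1 d.s2l) : ℕ) : ℝ) =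
          (xm : ℝ) * xm * (d.b1 + d.s2l) := by exact_mod_cast rfl
      rw [this, eXM, eB1, eS2]
      ring)
  have N2 := w2p_sound (R := 1048576 ^ 3 * (XM ^ 2 * (B0 + S2'))) (R' := 1048576 ^ 3 * S2')
    (S := 1048576 ^ 2 * (1 + S1l)) (S' := 1048576 ^ 2 * (XM * (A1 + S1l))) n2 eVM
    (by
      have : ((Nat.mul (Nat.mul xm xm) (Nat.add d.b0 d.s2h) : ℕ) : ℝ) =
          (xm : ℝ) * xm * (d.b0 + d.s2h) := by exact_mod_cast rfl
      rw [this, eXM, eB0, eS2']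
      ring)
    (by
      have : ((Nat.mul 1099511627776 d.s2h : ℕ) : ℝ) = 1099511627776 * d.s2h := by
        exact_mod_cast rfl
      rw [this, eS2']
      ring)
    (by
      have : ((Nat.add 1099511627776 (Nat.mul 1048576 d.s1l) : ℕ) : ℝ) =
          1099511627776 + 1048576 * d.s1l := by exact_mod_cast rfl
      rw [this, eS1l]
      ring)
    (by
      have : ((Nat.mul xm (Nat.add d.a1 d.s1l) : ℕ) : ℝ) = (xm : ℝ) * (d.a1 + d.s1l) := by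
        exact_mod_cast rfl
      rw [this, eXM, eA1, eS1l]
      ring)
  obtain ⟨d1, d2, d3, d4, d5, d6, d7, d8, d9, d10, d11, d12⟩ := hd
  rw [eA0] at d1
  rw [eA1] at d2
  rw [eB0] at d3
  rw [eB1] at d4
  rw [eS1l] at d5
  rw [eS1] at d6
  rw [eS2] at d7
  rw [eS2'] at d8
  rw [eS3] at d9
  rw [eF0] at d11
  rw [eF1] at d12
  rw [eXL] at i1
  rw [eXU] at i2
  rw [eXL, eB1, eS2] at i3
  rw [eXU, eB0, eS2'] at i4
  rw [eUL, eXL, eA0, eS1] at i5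
  rw [eUU, eXU, eA0, eS1] at i6
  rw [eXU, eXM] at i10
  rw [eXM] at i10'
  rw [eS1, eF1, eS3, eA0] at i11
  rw [eC, eF0] at i12
  rw [eM1] at i13
  rw [eM2] at i14
  rw [eM1, eA0] at i15
  rw [eM1, eA1] at i16
  rw [eM2, eB0] at i17
  rw [eM2, eB1] at i18
  rw [eC, eA1, eS1, eM2, eB1, eS2', eM1, eF0, eS3] at i19
  rw [← fo_sin hp hp1 hq hq1] at d11 d12
  exact SW_sq_box2 (s2 := Real.sinh (Real.pi * g) ^ 2) (al := A0) (au := A1) (bl := B0) (bu := B1)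
    (tl1 := S1l) (tu1 := S1) (tl2 := S2) (tu2 := S2') (tl3 := S3) (fl := F0) (fu := F1) (xl := XL)
    (xu := XU) (ul := UL) (uu := UU) (c := C) (m1 := M1) (m2 := M2) (xm := XM) (um := UM)
    (vm := VM) (w := W) (sq_nonneg _) (sq_nonneg _) hp hp1 hq hq1
    (by linarith) (by linarith) (by linarith) (by linarith) (by linarith) (by linarith)
    (by linarith) (by linarith) (by linarith) (by linarith) (by linarith) A00 B00 S20 S30 F00 XL0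
    XU0 (by linarith)
    (by linarith) (by linarith) (by linarith) UL0 UU0 (by linarith) (by linarith)
    (by linarith) (by linarith) UM0 VM0 W0 (by linarith) (by linarith) j1 j1' j2 j2' j3 j3' g3 g4
    (by linarith) C0 (by linarith) (by linarith) (by linarith) (by linarith) (by linarith)
    (by linarith) (by linarith) (by linarith)

/-- The sharper test with computed witnesses; `k` is `xm` in units of `1 / 64`. -/
def w2sqB (d : Dt) (k : ℕ) : Bool :=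
  fN (fun xl => fN (fun xu => fN (fun xm =>
    fN (fun ul => fN (fun uu => fN (fun c => fN (fun m1 => fN (fun m2 => fN (fun um => fN (fun vm =>
      w2sr d xl xu ul uu c m1 m2 xm um vm ul)
    (Nat.sub (w2s (Nat.div (Nat.mul
      (Nat.sub (Nat.mul (Nat.mul xm xm) (Nat.add d.b0 d.s2h)) (Nat.mul 1099511627776 d.s2h))
      (Nat.sub (Nat.add 1099511627776 (Nat.mul 1048576 d.s1l)) (Nat.mul xm (Nat.add d.a1 d.s1l))))
      1152921504606846976)) 1))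
    (Nat.sub (w2s (Nat.div (Nat.mul
      (Nat.sub (Nat.mul xm (Nat.add d.a0 d.s1h)) (Nat.mul 1048576 d.s1h))
      (Nat.sub (Nat.add 1152921504606846976 (Nat.mul 1099511627776 d.s2l))
        (Nat.mul (Nat.mul xm xm) (Nat.add d.b1 d.s2l)))) 1152921504606846976)) 1))
    (Nat.sub (w2s (mn' (Nat.mul d.b0 (Nat.sub 1048576 d.b0)) (Nat.mul d.b1 (Nat.sub 1048576 d.b1)))) 1))
    (Nat.sub (w2s (mn' (Nat.mul d.a0 (Nat.sub 1048576 d.a0)) (Nat.mul d.a1 (Nat.sub 1048576 d.a1)))) 1))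
    (Nat.succ (w2s (Nat.sub 1099511627776 (Nat.mul d.f0 d.f0)))))
    (Nat.sub (w2s (Nat.sub (Nat.mul xu (Nat.add d.a0 d.s1h)) (Nat.mul 1048576 d.s1h))) 1))
    (Nat.sub (w2s (Nat.sub (Nat.mul xl (Nat.add d.a0 d.s1h)) (Nat.mul 1048576 d.s1h))) 1))
  (Nat.mul 16384 k))
  (Nat.succ (w2s (Nat.div (Nat.mul 1099511627776 d.s2h) (Nat.add d.b0 d.s2h)))))
  (Nat.sub (w2s (Nat.div (Nat.mul 1099511627776 d.s2l) (Nat.add d.b1 d.s2l))) 1)

theorem w2sqB_sound {d : Dt} {k : ℕ} {p h q g : ℝ} (ht : w2sqB d k = true) (hd : DtOK d p h q g)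
    (hp : 0 < p) (hp1 : p < 1 / 2) (hq : 0 < q) (hq1 : q < 1 / 2) : Sq21 p h q g := by
  unfold w2sqB at ht
  simp only [fN_eq] at ht
  exact w2sr_sound ht hd hp hp1 hq hq1

end Pool.Agent.S5.F
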