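import Pool.Agent.S5.I.X3b
import Pool.Agent.S5.I.F16
import Pool.Agent.S5.I.W2n
import Pool.Agent.S5.I.W2j
import Pool.Agent.S5.K3.EndRel
import Pool.Agent.S5.Fld.YB9

/-!
# Flats of the inner node of the chain with an end with two and an end with three half twists

The node has two half twists, one neighbour is an end with two half twists (`A` edge), the other is an end
with three half twists (`S` edge). The critical point of the node is known (`Pt23`); the cells which do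
not contain it are excluded, the remaining ones satisfy the tests of the flats.
-/

set_option autoImplicit false

namespace Pool.Agent.S5.F

open Pool.Agent.S5.C2 Pool.Agent.S5.Num Pool.Agent.S5.K Complex
open Pool.Agent.S5.E (Vt vL vR)
open Pool.Agent.S5.G (kp Sd sy)
open scoped ComplexConjugate

/-- The leaves: the tests of the flats, the exclusion by the exact point. -/
def leafP (t : ℕ) (c : Cl) (z : ℕ) (k : ℕ → Bool) : Bool :=
  cond (Nat.ble t 4) (cond (withDt c (fun d => cond (w2sqB d 36) (w2fA d) false)) (k z) false)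
    (cond (withSb c.a c.a' c.b c.b' (fun l => withSb c.c c.c' c.d c.d' (fun r => exPt l r))) (k z) false)

/-- The statement proved on a cell. -/
def GoodP (x1 x2 x3 x4 : ℝ) : Prop :=
  ∀ p h q g : ℝ, x1 = tw p → x2 = ex h → x3 = tw q → x4 = ex g → Pos p q → Pt23 x1 x2 x3 x4 →
    Fl21 p h q g

theorem leafP_sound (t : ℕ) (c : Cl) (z : ℕ) (kk : ℕ → Bool) (h1 : leafP t c z kk = true) :
    (∀ x1 x2 x3 x4, c.In x1 x2 x3 x4 → GoodP x1 x2 x3 x4) ∧ ∃ z', kk z' = true := by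
  unfold leafP at h1
  rcases cond_cases h1 with ⟨_, h1⟩ | ⟨_, h1⟩
  · obtain ⟨h2, h3⟩ := cond_and h1
    refine ⟨?_, _, h3⟩
    intro x1 x2 x3 x4 hx p h q g e1 e2 e3 e4 hP H
    subst e1 e2 e3 e4
    rw [withDt_eq] at h2
    obtain ⟨h4, h5⟩ := cond_and h2
    have hd := dt_ok hP.hp0 hP.hp1 hP.hq0 hP.hq1 hx
    exact w2fA_sound h5 hd hP.hp0 hP.hp1 hP.hq0 hP.hq1
      (w2sqB_sound h4 hd hP.hp0 hP.hp1 hP.hq0 hP.hq1)
  · obtain ⟨h2, h3⟩ := cond_and h1
    refine ⟨?_, _, h3⟩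
    intro x1 x2 x3 x4 hx p h q g e1 e2 e3 e4 hP H
    exfalso
    obtain ⟨a1, h2⟩ := withSb_sound h2
    obtain ⟨a2, h2⟩ := withSb_sound h2
    obtain ⟨⟨m1, m2, m3, m4⟩, b1, b2, b3, b4, b5, b6, b7, b8⟩ := hx
    exact exPt_sound h2 (sb_ok m1 b1 b2 b3 b4 a1) (sb_ok m2 b5 b6 b7 b8 a2) H

/-- The cell of the rectangles of the two slots. -/
def cellP : Cl := ⟨1314, 1916, 3143, 4099, 784, 1021, 5029, 5585⟩

theorem certP_ok : run leafP 24 cellP 0x5b6db6d5534ddb459638c522d22935555d6ab6a8348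
    (fun z => Nat.beq z 0) = true := by
  decide +kernel

theorem fl21_pt {p h q g : ℝ} (hM : cellP.Mem p h q g) (hP : Pos p q)
    (H : Pt23 (tw p) (ex h) (tw q) (ex g)) : Fl21 p h q g :=
  (run_sound (P := GoodP) leafP_sound 24 cellP _ _ certP_ok).1 _ _ _ _ hM p h q g rfl rfl rfl rfl hP H

/-- The flats of the node from the two equations of the ends. -/
theorem fl21_core {bl br k E ya yb la lb : ℂ} (nd : Nd2 bl br k E ya yb la lb)
    (h2 : 2 * bl ^ 2 = I * k) (h3 : k = I * (br * (4 * br ^ 2 - 1))) (hbr : 0 < br.re)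
    (hbi : br.im ≤ 0) (ra : YB.InRc ⟨1314, 1916, 3143, 4099⟩ ya)
    (rb : YB.InRc ⟨784, 1021, 5029, 5585⟩ yb) :
    Fl21 (1 / 2 - ya.re) ya.im (1 / 2 - yb.re) yb.im := by
  have hP : Pos (1 / 2 - ya.re) (1 / 2 - yb.re) :=
    ⟨by linarith [nd.ya1], by linarith [nd.ya0], by linarith [nd.yb1], by linarith [nd.yb0]⟩
  have hR := nd_rel nd
  have hR' := nd_rel (nd2_swap nd)
  have hE := relE_of (tw_pos hP.hp0 hP.hp1) (tw_lt hP.hp0 hP.hp1) (ex_pos _) hR.1 hR.2 nd.kre nd.bl0 h2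
  have hS := relS_of (tw_pos hP.hq0 hP.hq1) (tw_lt hP.hq0 hP.hq1) hR'.1 hR'.2 hbr hbi h3
  refine fl21_pt ?_ hP (pt23 nd hE hS)
  exact ⟨⟨by decide, by decide, by decide, by decide⟩, ra.wl, ra.wh, ra.el, ra.eh, rb.wl, rb.wh, rb.el,
    rb.eh⟩

variable {T : Vt → Vt → E.B2.Rg} {R : ℕ} {a : ℕ → ℕ} {S : ℕ → Bool} {r : ℕ → ℤ}
  {z ql qr : ℕ → ℂ} {zF : Fin (R + 1) → ℂ} {d : YB.Yd}

/-- **The chain `2 A 2 S 3`**: the end with two half twists is the left neighbour. -/
theorem fl21_23 (h : Ctx T R a S r z ql qr zF) (hd : YB.YbOK T d)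
    (c1 : d.rc ⟨2, false, some true⟩ ⟨2, false, none⟩ = ⟨1314, 1916, 3143, 4099⟩)
    (c2 : d.rc ⟨2, true, some false⟩ ⟨3, true, none⟩ = ⟨784, 1021, 5029, 5585⟩) {i : ℕ} (hi : i + 1 < R)
    (ha : a (i + 1) = 2) (hl : vR a S i = ⟨2, false, none⟩) (hr : vL R a S (i + 2) = ⟨3, true, none⟩) :
    Fl21 (1 / 2 - (slL R a S z ql (i + 1)).ys.re) (slL R a S z ql (i + 1)).ys.im
      (1 / 2 - (slR R a S z qr (i + 1)).ys.re) (slR R a S z qr (i + 1)).ys.im := by
  have nd := h.hg.nd2 (i := i + 1) (by omega) hi ha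
  have hg := h.hg
  have hP := h.toPre
  have sL : S i = false := congrArg Vt.s hl
  have sR : S (i + 1) = true := congrArg Vt.s hr
  have eL : vL R a S (i + 1) = ⟨2, false, some true⟩ := by
    rw [Pre.vL_inner hi, ha, sL, sR]
    rfl
  have eR : vR a S (i + 1) = ⟨2, true, some false⟩ := by
    rw [Pre.vR_inner, ha, sL, sR]
    rfl
  have rl := hP.yb_l hd hg hi ha
  have rr := hP.yb_r hd hg (i := i + 1) (by omega) hi ha
  rw [eL, hl, c1] at rl
  rw [eR, hr, c2] at rr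
  have hi0 : i = 0 := by
    by_contra hne
    exact vR_o (a := a) (S := S) (Nat.pos_of_ne_zero hne) (by rw [hl])
  have hiR : i + 2 = R := by
    by_contra hne
    exact vL_o (R := R) (a := a) (S := S) (i := i + 1) (by omega) (by rw [hr])
  have a0 : a i = 2 := by
    have : min (a i) 8 = 2 := congrArg Vt.a hl
    omega
  have a3 : a (i + 2) = 3 := by
    have : min (a (i + 2)) 8 = 3 := congrArg Vt.a hr
    omega
  have q2 : 2 * (kp (S i) (cos (z i))) ^ 2 = I * cos (z (i + 1)) := by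
    subst hi0
    have nE := K3.e2l hg.crt a0
    rw [sL, G.kp_false] at nE ⊢
    have := congrArg conj nE
    simp only [map_mul, map_pow, conj_I, conj_conj, map_ofNat] at this
    rw [this]
    linear_combination (2 * (conj (cos (z 0))) ^ 2) * I_sq
  have q3 : cos (z (i + 1)) = I * (kp (S (i + 1)) (cos (z (i + 2))) *
      (4 * (kp (S (i + 1)) (cos (z (i + 2)))) ^ 2 - 1)) := by
    have nE := K3.e3r hg.crt (i := i + 1) (by omega) a3
    rw [sR, G.kp_true] at nE
    rw [sR, G.kp_true]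
    exact nE
  have hc := hg.crt.cosz (i + 2) (by omega)
  refine fl21_core nd q2 q3 ?_ ?_ rl rr
  · show 0 < (kp (S (i + 1)) (cos (z (i + 2)))).re
    rw [sR, G.kp_true]
    exact hc.1
  · show (kp (S (i + 1)) (cos (z (i + 2)))).im ≤ 0
    rw [sR, G.kp_true]
    exact hc.2.1.le

/-- **The chain `3 S 2 A 2`**: the end with two half twists is the right neighbour. -/
theorem fl21_32 (h : Ctx T R a S r z ql qr zF) (hd : YB.YbOK T d)
    (c1 : d.rc ⟨2, false, some true⟩ ⟨2, false, none⟩ = ⟨1314, 1916, 3143, 4099⟩)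
    (c2 : d.rc ⟨2, true, some false⟩ ⟨3, true, none⟩ = ⟨784, 1021, 5029, 5585⟩) {i : ℕ} (hi : i + 1 < R)
    (ha : a (i + 1) = 2) (hl : vR a S i = ⟨3, true, none⟩) (hr : vL R a S (i + 2) = ⟨2, false, none⟩) :
    Fl21 (1 / 2 - (slR R a S z qr (i + 1)).ys.re) (slR R a S z qr (i + 1)).ys.im
      (1 / 2 - (slL R a S z ql (i + 1)).ys.re) (slL R a S z ql (i + 1)).ys.im := by
  have nd := nd2_swap (h.hg.nd2 (i := i + 1) (by omega) hi ha)
  have hg := h.hg
  have hP := h.toPre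
  have sL : S i = true := congrArg Vt.s hl
  have sR : S (i + 1) = false := congrArg Vt.s hr
  have eL : vL R a S (i + 1) = ⟨2, true, some false⟩ := by
    rw [Pre.vL_inner hi, ha, sL, sR]
    rfl
  have eR : vR a S (i + 1) = ⟨2, false, some true⟩ := by
    rw [Pre.vR_inner, ha, sL, sR]
    rfl
  have rl := hP.yb_l hd hg hi ha
  have rr := hP.yb_r hd hg (i := i + 1) (by omega) hi ha
  rw [eL, hl, c2] at rl
  rw [eR, hr, c1] at rr
  have hi0 : i = 0 := by
    by_contra hne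
    exact vR_o (a := a) (S := S) (Nat.pos_of_ne_zero hne) (by rw [hl])
  have hiR : i + 2 = R := by
    by_contra hne
    exact vL_o (R := R) (a := a) (S := S) (i := i + 1) (by omega) (by rw [hr])
  have a0 : a i = 3 := by
    have : min (a i) 8 = 3 := congrArg Vt.a hl
    omega
  have a3 : a (i + 2) = 2 := by
    have : min (a (i + 2)) 8 = 2 := congrArg Vt.a hr
    omega
  have q2 : 2 * (kp (S (i + 1)) (cos (z (i + 2)))) ^ 2 = I * cos (z (i + 1)) := by
    have nE := K3.e2r hg.crt (i := i + 1) (by omega) a3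
    rw [sR, G.kp_false] at nE ⊢
    have := congrArg conj nE
    simp only [map_mul, map_pow, conj_I, conj_conj, map_ofNat] at this
    rw [this]
    linear_combination (2 * (conj (cos (z (i + 2)))) ^ 2) * I_sq
  have q3 : cos (z (i + 1)) = I * (kp (S i) (cos (z i)) * (4 * (kp (S i) (cos (z i))) ^ 2 - 1)) := by
    subst hi0
    have nE := K3.e3l hg.crt a0
    rw [sL, G.kp_true] at nE
    rw [sL, G.kp_true]
    exact nE
  have hc := hg.crt.cosz i (by omega)
  refine fl21_core nd q2 q3 ?_ ?_ rr rl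
  · show 0 < (kp (S i) (cos (z i))).re
    rw [sL, G.kp_true]
    exact hc.1
  · show (kp (S i) (cos (z i))).im ≤ 0
    rw [sL, G.kp_true]
    exact hc.2.1.le

theorem rcP_eq {c : YB.Rc} {w x y u : ℕ} (h : c.wl = w ∧ c.wh = x ∧ c.el = y ∧ c.eh = u) :
    c = ⟨w, x, y, u⟩ := by
  obtain ⟨h1, h2, h3, h4⟩ := h
  cases c
  subst h1 h2 h3 h4
  rfl

theorem d9_c1 : YB.Yd.rc d9 ⟨2, false, some true⟩ ⟨2, false, none⟩ = ⟨1314, 1916, 3143, 4099⟩ :=
  rcP_eq (by decide +kernel)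

theorem d9_c2 : YB.Yd.rc d9 ⟨2, true, some false⟩ ⟨3, true, none⟩ = ⟨784, 1021, 5029, 5585⟩ :=
  rcP_eq (by decide +kernel)

/-- **The chain `2 A 2 S 3`** over the final table. -/
theorem fl21_23d (h : Ctx E.Tfin R a S r z ql qr zF) {i : ℕ} (hi : i + 1 < R) (ha : a (i + 1) = 2)
    (hl : vR a S i = ⟨2, false, none⟩) (hr : vL R a S (i + 2) = ⟨3, true, none⟩) :
    Fl21 (1 / 2 - (slL R a S z ql (i + 1)).ys.re) (slL R a S z ql (i + 1)).ys.im
      (1 / 2 - (slR R a S z qr (i + 1)).ys.re) (slR R a S z qr (i + 1)).ys.im :=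
  fl21_23 h d9_ok d9_c1 d9_c2 hi ha hl hr

/-- **The chain `3 S 2 A 2`** over the final table. -/
theorem fl21_32d (h : Ctx E.Tfin R a S r z ql qr zF) {i : ℕ} (hi : i + 1 < R) (ha : a (i + 1) = 2)
    (hl : vR a S i = ⟨3, true, none⟩) (hr : vL R a S (i + 2) = ⟨2, false, none⟩) :
    Fl21 (1 / 2 - (slR R a S z qr (i + 1)).ys.re) (slR R a S z qr (i + 1)).ys.im
      (1 / 2 - (slL R a S z ql (i + 1)).ys.re) (slL R a S z ql (i + 1)).ys.im :=
  fl21_32 h d9_ok d9_c1 d9_c2 hi ha hl hr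

end Pool.Agent.S5.F
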