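import Pool.Agent.S5.I.FC1
import Pool.Agent.S5.I.FC2
import Pool.Agent.S5.I.FC3
import Pool.Agent.S5.I.FC4

/-!
# Flats of closed nodes: all pairs of neighbours
-/

set_option autoImplicit false

namespace Pool.Agent.S5.F

open Pool.Agent.S5.C2 Pool.Agent.S5.Num Pool.Agent.S5.K Complex
open Pool.Agent.S5.E (Vt types adm Tfin)

theorem rowA {I : Vt} (hk : I.ok = true) (hs : I.s = false) : ∃ r1 r2, rwA I r1 r2 = true := by
  obtain ⟨a, s, o⟩ := I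
  have hs' : s = false := hs
  subst hs'
  unfold Vt.ok at hk
  simp only [Bool.and_eq_true, Nat.ble_eq] at hk
  obtain ⟨h1, h2, -⟩ := hk
  interval_cases a <;> rcases o with _ | _ | _
  · exact ⟨_, _, rA2⟩
  · exact ⟨_, _, rA0⟩
  · exact ⟨_, _, rA1⟩
  · exact ⟨_, _, rA5⟩
  · exact ⟨_, _, rA3⟩
  · exact ⟨_, _, rA4⟩
  · exact ⟨_, _, rA8⟩
  · exact ⟨_, _, rA6⟩
  · exact ⟨_, _, rA7⟩
  · exact ⟨_, _, rA11⟩
  · exact ⟨_, _, rA9⟩
  · exact ⟨_, _, rA10⟩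
  · exact ⟨_, _, rA14⟩
  · exact ⟨_, _, rA12⟩
  · exact ⟨_, _, rA13⟩
  · exact ⟨_, _, rA17⟩
  · exact ⟨_, _, rA15⟩
  · exact ⟨_, _, rA16⟩
  · exact ⟨_, _, rA20⟩
  · exact ⟨_, _, rA18⟩
  · exact ⟨_, _, rA19⟩

theorem rowS {I : Vt} (hk : I.ok = true) (hs : I.s = false) : ∃ r1 r2, rwS I r1 r2 = true := by
  obtain ⟨a, s, o⟩ := I
  have hs' : s = false := hs
  subst hs'
  unfold Vt.ok at hk
  simp only [Bool.and_eq_true, Nat.ble_eq] at hk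
  obtain ⟨h1, h2, -⟩ := hk
  interval_cases a <;> rcases o with _ | _ | _
  · exact ⟨_, _, rS2⟩
  · exact ⟨_, _, rS0⟩
  · exact ⟨_, _, rS1⟩
  · exact ⟨_, _, rS5⟩
  · exact ⟨_, _, rS3⟩
  · exact ⟨_, _, rS4⟩
  · exact ⟨_, _, rS8⟩
  · exact ⟨_, _, rS6⟩
  · exact ⟨_, _, rS7⟩
  · exact ⟨_, _, rS11⟩
  · exact ⟨_, _, rS9⟩
  · exact ⟨_, _, rS10⟩
  · exact ⟨_, _, rS14⟩
  · exact ⟨_, _, rS12⟩
  · exact ⟨_, _, rS13⟩
  · exact ⟨_, _, rS17⟩
  · exact ⟨_, _, rS15⟩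
  · exact ⟨_, _, rS16⟩
  · exact ⟨_, _, rS20⟩
  · exact ⟨_, _, rS18⟩
  · exact ⟨_, _, rS19⟩

/-- **Two `A` edges.** -/
theorem C92_AA {I I' : Vt} (hk : I.ok = true) (hk' : I'.ok = true) (hs : I.s = false) (hs' : I'.s = false) :
    C92 ⟨2, false, some false⟩ I ⟨2, false, some false⟩ I' ∨
      C92 ⟨2, false, some false⟩ I' ⟨2, false, some false⟩ I := by
  rcases dr_total I I' with h | h
  · obtain ⟨r1, r2, hr⟩ := rowA hk hs
    exact Or.inl (rwA_sound hr hs' hk' h)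
  · obtain ⟨r1, r2, hr⟩ := rowA hk' hs'
    exact Or.inr (rwA_sound hr hs hk h)

theorem ix_five {I : Vt} (hk : I.ok = true) (h : I.ix = 5) : I.a = 3 ∧ I.o = none := by
  obtain ⟨a, s, o⟩ := I
  unfold Vt.ok at hk
  simp only [Bool.and_eq_true, Nat.ble_eq] at hk
  obtain ⟨h1, h2, -⟩ := hk
  unfold E.Vt.ix at h
  revert h
  interval_cases a <;> rcases o with _ | _ | _ <;> simp

/-- **An `A` edge and an `S` edge**, the `S` edge does not lead to an end with three half twists. -/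
theorem C92_AS {I I' : Vt} (hk : I.ok = true) (hk' : I'.ok = true) (hs : I.s = false) (hs' : I'.s = true)
    (hd : adm ⟨2, false, some true⟩ I I' = true) (h3 : I' ≠ ⟨3, true, none⟩) :
    C92 ⟨2, false, some true⟩ I ⟨2, true, some false⟩ I' := by
  obtain ⟨r1, r2, hr⟩ := rowS hk hs
  refine rwS_sound hr hs' hk' hd (fun h5 => h3 ?_)
  obtain ⟨g1, g2⟩ := ix_five hk' h5
  obtain ⟨a, s, o⟩ := I'
  have e1 : a = 3 := g1
  have e2 : o = none := g2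
  have e3 : s = true := hs'
  rw [e1, e2, e3]

/-- **The flats.** -/
theorem C92.fl {JA IA JB IB : Vt} {ya yb : ℂ} (h : C92 JA IA JB IB) (N : Nh Tfin d9 JA IA JB IB ya yb)
    (hs : (prOf Tfin JA IA JB IB).a = 0 → JB.s = true) :
    StB (is3 IA) (is3 IB) (1 / 2 - ya.re) ya.im (1 / 2 - yb.re) yb.im ∧
    Sq22 (Real.sinh (Real.pi * ya.im) ^ 2) (Real.sinh (Real.pi * yb.im) ^ 2)
      (Real.sinh (Real.pi * (ya.im + yb.im)) ^ 2) (1 / 2 - ya.re) (1 / 2 - yb.re) := by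
  obtain ⟨bl, br, k, H, hA⟩ := N.hyp
  obtain ⟨z1, h1⟩ := h.sq
  obtain ⟨z2, h2⟩ := h.st
  exact ⟨certS_sound h2 (N.mem h.ok) N.pos H (fun h0 => hA (hs h0)),
    certN_sound h1 (N.mem h.ok) N.pos H⟩

theorem prOf_a {JA IA JB IB : Vt} (h : (prOf Tfin JA IA JB IB).a = 0) : JB.s = true := by
  unfold prOf at h
  dsimp only at h
  rcases hb : JB.s with _ | _
  · rw [hb, cond_false] at h
    exact absurd h (by norm_num)
  · rfl

/-- **The bound on the whole square.** -/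
theorem C92.full {JA IA JB IB : Vt} {ya yb : ℂ} (h : C92 JA IA JB IB) (N : Nh Tfin d9 JA IA JB IB ya yb) :
    ∃ c > 0, ∀ p ∈ Set.Icc (0 : ℝ) (3 / 4), ∀ q ∈ Set.Icc (0 : ℝ) (3 / 4),
      c * ((p - (1 / 2 - ya.re)) ^ 2 + (q - (1 / 2 - yb.re)) ^ 2) ≤
        SS (Real.sinh (Real.pi * ya.im) ^ 2) (Real.sinh (Real.pi * yb.im) ^ 2)
          (Real.sinh (Real.pi * (ya.im + yb.im)) ^ 2) (1 / 2 - ya.re) (1 / 2 - yb.re) p q := by
  obtain ⟨h1, h2⟩ := h.fl N prOf_a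
  exact h1.full h2

/-- An end with three half twists on the left. -/
theorem C92.a3 {JA IA JB IB : Vt} {ya yb : ℂ} (h : C92 JA IA JB IB) (N : Nh Tfin d9 JA IA JB IB ya yb)
    (hI : IA = ⟨3, false, none⟩) : X3 (Real.sinh (Real.pi * ya.im) ^ 2)
      (Real.sinh (Real.pi * (ya.im + yb.im)) ^ 2) (1 / 2 - ya.re) (1 / 2 - ya.re + (1 / 2 - yb.re)) :=
  (h.fl N prOf_a).1.xa (by rw [hI]; rfl)

/-- An end with three half twists on the right. -/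
theorem C92.b3 {JA IA JB IB : Vt} {ya yb : ℂ} (h : C92 JA IA JB IB) (N : Nh Tfin d9 JA IA JB IB ya yb)
    (hI : IB = ⟨3, false, none⟩) : X3 (Real.sinh (Real.pi * yb.im) ^ 2)
      (Real.sinh (Real.pi * (ya.im + yb.im)) ^ 2) (1 / 2 - yb.re) (1 / 2 - ya.re + (1 / 2 - yb.re)) :=
  (h.fl N prOf_a).1.xb (by rw [hI]; rfl)

end Pool.Agent.S5.F
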