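import Pool.Agent.S5.I.F19
import Pool.Agent.S5.I.F16
import Pool.Agent.S5.Fld.YD9

/-!
# Rows of inner nodes with two half twists, `S` neighbour an end with three half twists: the certificate
for the left neighbour `2AS`
-/

set_option autoImplicit false

namespace Pool.Agent.S5.F

open Pool.Agent.S5.C2 Pool.Agent.S5.Num
open Pool.Agent.S5.E (Vt Tfin)

/-- Equality of bounds. -/
def prEq (a b : Pr) : Bool :=
  Nat.beq a.lk0 b.lk0 && (Nat.beq a.lk1 b.lk1 && (Nat.beq a.lt0 b.lt0 && (Nat.beq a.lt1 b.lt1 &&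
  (Nat.beq a.rk0 b.rk0 && (Nat.beq a.rk1 b.rk1 && (Nat.beq a.rt1 b.rt1 && (Nat.beq a.nk0 b.nk0 &&
  (Nat.beq a.nk1 b.nk1 && (Nat.beq a.e b.e && Nat.beq a.a b.a)))))))))

theorem prEq_eq {a b : Pr} (h : prEq a b = true) : a = b := by
  unfold prEq at h
  simp only [Bool.and_eq_true] at h
  obtain ⟨h1, h2, h3, h4, h5, h6, h7, h8, h9, h10, h11⟩ := h
  cases a
  cases b
  simp only [Pr.mk.injEq]
  exact ⟨Nat.eq_of_beq_eq_true h1, Nat.eq_of_beq_eq_true h2, Nat.eq_of_beq_eq_true h3,
    Nat.eq_of_beq_eq_true h4, Nat.eq_of_beq_eq_true h5, Nat.eq_of_beq_eq_true h6,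
    Nat.eq_of_beq_eq_true h7, Nat.eq_of_beq_eq_true h8, Nat.eq_of_beq_eq_true h9,
    Nat.eq_of_beq_eq_true h10, Nat.eq_of_beq_eq_true h11⟩

/-- Equality of cells. -/
def clEq (a b : Cl) : Bool :=
  Nat.beq a.a b.a && (Nat.beq a.a' b.a' && (Nat.beq a.b b.b && (Nat.beq a.b' b.b' &&
  (Nat.beq a.c b.c && (Nat.beq a.c' b.c' && (Nat.beq a.d b.d && Nat.beq a.d' b.d'))))))

theorem clEq_eq {a b : Cl} (h : clEq a b = true) : a = b := by
  unfold clEq at h
  simp only [Bool.and_eq_true] at h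
  obtain ⟨h1, h2, h3, h4, h5, h6, h7, h8⟩ := h
  cases a
  cases b
  simp only [Cl.mk.injEq]
  exact ⟨Nat.eq_of_beq_eq_true h1, Nat.eq_of_beq_eq_true h2, Nat.eq_of_beq_eq_true h3,
    Nat.eq_of_beq_eq_true h4, Nat.eq_of_beq_eq_true h5, Nat.eq_of_beq_eq_true h6,
    Nat.eq_of_beq_eq_true h7, Nat.eq_of_beq_eq_true h8⟩

/-- The bounds of the row. -/
def pr19 : Pr := ⟨750, 962, 393, 743, 591, 660, 577, 750, 894, 0, 0⟩

/-- The cell of the row. -/
def cl19 : Cl := ⟨1420, 4096, 2003, 8370, 784, 1021, 5029, 5585⟩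

theorem pr19_eq : prOf Tfin ⟨2, false, some true⟩ ⟨2, false, some true⟩ ⟨2, true, some false⟩
    ⟨3, true, none⟩ = pr19 := prEq_eq (by decide +kernel)

theorem cl19_eq : clOf d9 ⟨2, false, some true⟩ ⟨2, false, some true⟩ ⟨2, true, some false⟩
    ⟨3, true, none⟩ = cl19 := clEq_eq (by decide +kernel)

/-- The certificate. -/
def z19 : ℕ := 0x15ebeaf5eb8aecd7af5ebd708d7ae99009af5ebd76457af5c8af5dd7af5ebb46bd74db8c05c2c6f90835dcfc35ebbee00040013b800027700108640008002171f180080021001000440020008002344000800200080022218008002000850008002000800046800400118008002000840008002068800100040010004001194190411b6c4678d7af5daaf5c577b046bd7af5d0af5c355ebd7ae81af5d3af5ebb55ebbc8d7af5cd76abb5482bbd8b5d8d6e11abb588434457cabd755f3568110d115eb9cabd7aed57aef57cabe2c221eaf5ce59e232af5ebb55ebbd5f2cc235da544d26115ebe29a2c687087b0cf2c6be39b5281a9419ad46b3084d2e64d3e0db119a2366ab03499910d67d5f10f619acfb079168f1a24687091b068103d9ab40d2e6473088db067f06c33599cc1910c8db60d0a340859fc2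333b81ec1667b06473c403b0c486cd1b242d8635f84d76b1135585b6781a546b7135885af405b9c0d5634c85b0c040055400460020008002aa80008c8009e800aaa00100040002300155001000555000a2b08004f4004b5800aa800aa8001456880013500115001350011d6830013d001550014568004f4005540051400555000145688009e80096b0015500155bf7d100028a0028a1a0013dbf7c80012d60028a002aaaf9be00051400514dfbe434400080026a800454004d400475a0011d001350013500023ad10c80010005548009e800aa800aa8008002aa81001456800080026a18008002aa00200080025f2810011a001338009ea00023001000556f957efabe400080028b7efa21a8e0027b7c00097c357efabe6f800145be6f86880010004001350012fdf208008d0640040013d00025ac0051400555000a2df57c800145001350014541a0013dbf7c80010004b4300145beaf9be00040014557c346fdf20025aef8bf7ddf0afdf77d100022a0026a0025fbe410011d68004be0004558009adf20023be15fbeefabe0879efa0012dbe5df17efdf0d07beafa37ef900025f01ddfbe400477c20f7efb46fdf57c864119a2cc731880091e3974f608800800228f1e3970e1a6002620025f37c8c1efac434460013118800800200085e3970e102cb974002172e0972e5c060021725da0f070013359844b9731c38768b905cb9721ec110f6383877902e462e5c864172e5c8200207000230012fdf2afdf2000400145be4341c39bf7cdf01efa6887bf7ef8683df440008002072002470e88711cb872ec22e1c22e1d10e1c861c394c380f7ef8be1ddf0d221cb8701d30e4380f7d5f01da21c3dfbed20f7c3b4430f7efbbe1070e187243dfbe1cbbe1072038721c1041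

theorem cert19 : cert21 pr19 23 cl19 z19 = true := by decide +kernel

/-- A certificate for the flats of a pair of neighbours, weights `2` and `1`. -/
def C21 (JA IA JB IB : Vt) : Prop :=
  clOK (clOf d9 JA IA JB IB) = true ∧ ∃ n z, cert21 (prOf Tfin JA IA JB IB) n (clOf d9 JA IA JB IB) z = true

theorem C21.flat {JA IA JB IB : Vt} {ya yb : ℂ} (h : C21 JA IA JB IB) (N : Nh Tfin d9 JA IA JB IB ya yb) :
    Fl21 (1 / 2 - ya.re) ya.im (1 / 2 - yb.re) yb.im := by
  obtain ⟨h1, n, z, h2⟩ := h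
  obtain ⟨bl, br, k, hH, -⟩ := N.hyp
  exact cert21_sound h2 (N.mem h1) N.pos hH

/-- **The row `2AS`, `3S0`.** -/
theorem c21_2AS : C21 ⟨2, false, some true⟩ ⟨2, false, some true⟩ ⟨2, true, some false⟩ ⟨3, true, none⟩ := by
  refine ⟨?_, 23, z19, ?_⟩
  · rw [cl19_eq]
    decide
  · rw [cl19_eq, pr19_eq]
    exact cert19

end Pool.Agent.S5.F
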