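import Pool.Agent.S5.I.QuadZ

/-!
# The quadratic bounds of the ends
-/

set_option autoImplicit false

namespace Pool.Agent.S5

open Pool.Agent.H63.VC3 Pool.Agent.S3 Complex MeasureTheory Filter Topology Set

theorem Lgd_one_sub (s u : ℝ) : Lgd s (1 - u) = -Lgd s u := by
  unfold Lgd dn
  have e : 2 * Real.pi * (1 - u) = 2 * Real.pi - 2 * Real.pi * u := by ring
  rw [e, Real.sin_two_pi_sub, Real.cos_two_pi_sub, mul_neg, neg_div]

theorem Lgd_neg_im (s u : ℝ) : Lgd (-s) u = Lgd s u := by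
  unfold Lgd dn
  rw [mul_neg, Real.cosh_neg]

/-- The two angles of a dummy cancel. -/
theorem Kc_half (w : ℂ) : Kc (1 / 2 + w) = -Kc (1 / 2 - w) := by
  have r1 : (1 / 2 + w).re = 1 / 2 + w.re := by simp
  have i1 : (1 / 2 + w).im = w.im := by simp
  have r2 : (1 / 2 - w).re = 1 / 2 - w.re := by simp
  have i2 : (1 / 2 - w).im = -w.im := by simp
  unfold Kc
  rw [r1, i1, r2, i2, Lgd_neg_im]
  have e : 1 / 2 + w.re = 1 - (1 / 2 - w.re) := by ring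
  rw [e, Lgd_one_sub]

theorem Kok_half {w : ℂ} (h0 : -(1 / 2) < w.re) (h1 : w.re < 1 / 2) :
    Kok (1 / 2 - w) ∧ Kok (1 / 2 + w) := by
  have r1 : (1 / 2 + w).re = 1 / 2 + w.re := by simp
  have r2 : (1 / 2 - w).re = 1 / 2 - w.re := by simp
  exact ⟨Kok_of (by rw [r2]; linarith) (by rw [r2]; linarith),
    Kok_of (by rw [r1]; linarith) (by rw [r1]; linarith)⟩

/-- `VCl.quad` at a left end. -/
theorem quad_cl_left {sa sb : Slt} (he : sa.ex = false) (hy : sa.ys = 1 / 2) (h0 : 0 < sb.ys.re)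
    (h1 : sb.ys.re < 1 / 2) :
    ∃ c : ℝ, 0 < c ∧ ∃ ρ : ℝ, 0 < ρ ∧ ∀ s t : ℝ, |s| ≤ ρ → |t| ≤ ρ →
      (sa.ex = false → s = 0) → (sb.ex = false → t = 0) →
      Ecl sa.ys sb.ys (sa.ys + s) (sb.ys + t) ≤ -(c * (s ^ 2 + t ^ 2)) := by
  obtain ⟨k1, k2⟩ := Kok_half (w := sb.ys) (by linarith) h1
  have r2 : (1 / 2 - sb.ys).re = 1 / 2 - sb.ys.re := by simp
  have hB : 0 < Kc (1 / 2 - sb.ys) := Kc_pos' (by rw [r2]; linarith) (by rw [r2]; linarith)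
  have hC := Kc_half sb.ys
  refine quad_cl (by rw [hy]; exact k2) (fun h => ?_) (fun _ => ⟨k1, ?_⟩) fun h => ?_
  · rw [he] at h; exact absurd h (by simp)
  · rw [hy, hC]
    linarith
  · rw [he] at h; exact absurd h (by simp)

/-- `VCl.quad` at a right end. -/
theorem quad_cl_right {sa sb : Slt} (he : sb.ex = false) (hy : sb.ys = 1 / 2) (h0 : 0 < sa.ys.re)
    (h1 : sa.ys.re < 1 / 2) :
    ∃ c : ℝ, 0 < c ∧ ∃ ρ : ℝ, 0 < ρ ∧ ∀ s t : ℝ, |s| ≤ ρ → |t| ≤ ρ →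
      (sa.ex = false → s = 0) → (sb.ex = false → t = 0) →
      Ecl sa.ys sb.ys (sa.ys + s) (sb.ys + t) ≤ -(c * (s ^ 2 + t ^ 2)) := by
  obtain ⟨k1, k2⟩ := Kok_half (w := sa.ys) (by linarith) h1
  have r2 : (1 / 2 - sa.ys).re = 1 / 2 - sa.ys.re := by simp
  have hB : 0 < Kc (1 / 2 - sa.ys) := Kc_pos' (by rw [r2]; linarith) (by rw [r2]; linarith)
  have hC := Kc_half sa.ys
  have e : sa.ys + 1 / 2 = 1 / 2 + sa.ys := add_comm _ _
  refine quad_cl (by rw [hy, e]; exact k2) (fun _ => ⟨k1, ?_⟩) (fun h => ?_)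
    fun _ h => ?_
  · rw [hy, e, hC]
    linarith
  · rw [he] at h; exact absurd h (by simp)
  · rw [he] at h; exact absurd h (by simp)

/-- `VZ.quad` at an end with three half twists. -/
theorem quad_z3_end {zs : ℂ} {sy sb : Slt} (he : sy.ex = false) (hy : sy.ys = 1 / 2)
    (z0 : -(1 / 2) < zs.re) (z1 : zs.re < 1 / 2) (b0 : 0 < sb.ys.re) (b1 : sb.ys.re < 1 / 2)
    (g0 : 0 < (zs + sb.ys).re) (g1 : (zs + sb.ys).re < 1 / 2) :
    ∃ c : ℝ, 0 < c ∧ ∃ ρ : ℝ, 0 < ρ ∧ ∀ s x t : ℝ, |s| ≤ ρ → |x| ≤ ρ → |t| ≤ ρ →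
      (sy.ex = false → s = 0) → (sb.ex = false → t = 0) →
      Ez3 sy.ys zs sb.ys (sy.ys + s) (zs + x) (sb.ys + t) ≤ -(c * (s ^ 2 + x ^ 2 + t ^ 2)) := by
  obtain ⟨k1, k2⟩ := Kok_half z0 z1
  obtain ⟨k3, k4⟩ := Kok_half (w := sb.ys) (by linarith) b1
  have r2 : (1 / 2 - sb.ys).re = 1 / 2 - sb.ys.re := by simp
  have hB : 0 < Kc (1 / 2 - sb.ys) := Kc_pos' (by rw [r2]; linarith) (by rw [r2]; linarith)
  have hF : 0 < Kc (zs + sb.ys) := Kc_pos' g0 g1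
  have hC := Kc_half zs
  have e : zs + 1 / 2 = 1 / 2 + zs := add_comm _ _
  have hBF := mul_pos hB hF
  refine quad_z3e he k3 (by rw [hy]; exact k1) (by rw [e]; exact k2)
    (Kok_of g0 (by linarith)) ?_ (by linarith) ?_
  · rw [hy, e, hC]
    linarith
  · rw [hy, e, hC]
    have e2 : Kc (1 / 2 - zs) + -Kc (1 / 2 - zs) = 0 := by ring
    rw [e2]
    linarith

end Pool.Agent.S5
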