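import Pool.Agent.S5.I.W2f

/-!
# Closed vertices with two half twists, weights `2` and `1`: the other parts on boxes
-/

set_option autoImplicit false

namespace Pool.Agent.S5.C2

open MeasureTheory Filter Topology Set

/-- An affine function which is nonnegative at both ends. -/
theorem aff_ends {l r x A B : ℝ} (hl : l ≤ x) (hr : x ≤ r) (h1 : 0 ≤ A * l + B)
    (h2 : 0 ≤ A * r + B) : 0 ≤ A * x + B := by
  rcases le_total 0 A with h | h
  · have := mul_le_mul_of_nonneg_left hl h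
    linarith only [this, h1]
  · have := mul_le_mul_of_nonpos_left hr h
    linarith only [this, h2]

/-- `(1 / 2 + s) (0.8535 + s) / (F + s)²` increases. -/
theorem ratio_mono {s t F : ℝ} (hs : 0 ≤ s) (hst : s ≤ t) (hF : 0.67675 ≤ F) :
    (1 / 2 + s) * (0.8535 + s) * (F + t) ^ 2 ≤ (1 / 2 + t) * (0.8535 + t) * (F + s) ^ 2 := by
  have h1 : (0.67675 + s) * (F + t) ≤ (0.67675 + t) * (F + s) := by
    have : 0 ≤ (t - s) * (F - 0.67675) := mul_nonneg (by linarith only [hst]) (by linarith only [hF])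
    linarith only [this]
  have h2 : ((0.67675 + s) * (F + t)) ^ 2 ≤ ((0.67675 + t) * (F + s)) ^ 2 :=
    pow_le_pow_left₀ (mul_nonneg (by linarith only [hs]) (by linarith only [hF, hst, hs])) h1 2
  have h3 : (F + s) ^ 2 ≤ (F + t) ^ 2 := pow_le_pow_left₀ (by linarith only [hF, hs]) (by linarith only [hst]) 2
  have e1 : (1 / 2 + s) * (0.8535 + s) * (F + t) ^ 2 =
      ((0.67675 + s) * (F + t)) ^ 2 - 0.17675 ^ 2 * (F + t) ^ 2 := by ring
  have e2 : (1 / 2 + t) * (0.8535 + t) * (F + s) ^ 2 =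
      ((0.67675 + t) * (F + s)) ^ 2 - 0.17675 ^ 2 * (F + s) ^ 2 := by ring
  rw [e1, e2]
  linarith only [h3, h2]

/-- **The reflection condition on a box.** -/
theorem Fi_box {s s3 p0 P0 au tl tu tu3 fl : ℝ} (hs : 0 ≤ s) (hs' : s ≤ 1 / 2) (hs3 : 0 ≤ s3)
    (hp0 : 0 < p0) (hp1 : p0 < 1 / 2) (ha : Sn p0 ≤ au) (h1 : tl ≤ s) (htl : 0 ≤ tl) (h2 : s ≤ tu)
    (h3 : s3 ≤ tu3) (hf : fl ^ 2 ≤ Sn P0) (hm : 0.67675 ≤ fl ^ 2)
    (h : (au + tu) ^ 4 * ((1 / 2 + tu3) * (0.8535 + tu3)) <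
      ((1 / 2 + tl) * (0.8535 + tl)) ^ 2 * (fl ^ 2 + tu3) ^ 2) : 0 < Fi s s3 p0 P0 := by
  have ha0 : 0 < Sn p0 := Sn_pos hp0 (by linarith only [hp1])
  have ht3 : 0 ≤ tu3 := hs3.trans h3
  have k1 : (Sn p0 + s) ^ 4 ≤ (au + tu) ^ 4 := pow_le_pow_left₀ (by linarith only [ha0, hs]) (by linarith only [h2,
                                                                                                   ha]) 4
  have k2 : ((1 / 2 + tl) * (0.8535 + tl)) ^ 2 ≤ ((1 / 2 + s) * (0.8535 + s)) ^ 2 := by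
    apply pow_le_pow_left₀ (by positivity)
    exact mul_le_mul (by linarith only [h1]) (by linarith only [h1]) (by linarith only [htl, hp1,
                                                                           hp0]) (by linarith only [hs])
  have k3 := ratio_mono hs3 h3 hm
  apply Fi_pos hs hs' hs3 (by linarith only [ha0, hs]) (by linarith only [hm, hf, hp1, hp0, hs3])
  have hpos : 0 < (fl ^ 2 + tu3) ^ 2 := by
    have : 0 < fl ^ 2 + tu3 := by linarith only [hm, h3, hp1, hp0, hs3]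
    positivity
  have k4 : (Sn p0 + s) ^ 4 * ((1 / 2 + s3) * (0.8535 + s3)) * (fl ^ 2 + tu3) ^ 2 <
      ((1 / 2 + s) * (0.8535 + s)) ^ 2 * (fl ^ 2 + s3) ^ 2 * (fl ^ 2 + tu3) ^ 2 := by
    have hp : 0 < (fl ^ 2 + s3) ^ 2 := by
      have : 0 < fl ^ 2 + s3 := by linarith only [hm, hp1, hp0, hs3]
      positivity
    calc (Sn p0 + s) ^ 4 * ((1 / 2 + s3) * (0.8535 + s3)) * (fl ^ 2 + tu3) ^ 2 =
        (Sn p0 + s) ^ 4 * ((1 / 2 + s3) * (0.8535 + s3) * (fl ^ 2 + tu3) ^ 2) := by ring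
      _ ≤ (au + tu) ^ 4 * ((1 / 2 + tu3) * (0.8535 + tu3) * (fl ^ 2 + s3) ^ 2) :=
          mul_le_mul k1 k3 (by positivity) (by positivity)
      _ = ((au + tu) ^ 4 * ((1 / 2 + tu3) * (0.8535 + tu3))) * (fl ^ 2 + s3) ^ 2 := by ring
      _ < (((1 / 2 + tl) * (0.8535 + tl)) ^ 2 * (fl ^ 2 + tu3) ^ 2) * (fl ^ 2 + s3) ^ 2 :=
          mul_lt_mul_of_pos_right h hp
      _ = ((1 / 2 + tl) * (0.8535 + tl)) ^ 2 * ((fl ^ 2 + s3) ^ 2 * (fl ^ 2 + tu3) ^ 2) := by ring
      _ ≤ ((1 / 2 + s) * (0.8535 + s)) ^ 2 * ((fl ^ 2 + s3) ^ 2 * (fl ^ 2 + tu3) ^ 2) :=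
          mul_le_mul_of_nonneg_right k2 (by positivity)
      _ = _ := by ring
  have k5 := lt_of_mul_lt_mul_right k4 hpos.le
  have k6 : ((1 / 2 + s) * (0.8535 + s)) ^ 2 * (fl ^ 2 + s3) ^ 2 ≤
      ((1 / 2 + s) * (0.8535 + s)) ^ 2 * (Sn P0 + s3) ^ 2 := by
    apply mul_le_mul_of_nonneg_left _ (by positivity)
    exact pow_le_pow_left₀ (by linarith only [hm, hp1, hp0, hs3]) (by linarith only [hf]) 2
  linarith only [k6, k5]

/-- **The part `q ≥ 1 / 2` on a box.** -/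
theorem SW_right_box {s1 s2 s3 p0 q0 au bu tl1 tu1 tl2 tu2 tl3 fl x y z : ℝ} (hs1 : 0 ≤ s1)
    (hs3 : 0 ≤ s3) (hp0 : 0 < p0) (hp1 : p0 < 1 / 2) (hq0 : 0 < q0) (hq1 : q0 ≤ 1 / 4)
    (hP0 : 1 / 3 ≤ p0 + q0) (hP1 : p0 + q0 ≤ 2 / 3)
    (ha : Sn p0 ≤ au) (hb : Sn q0 ≤ bu) (htl1 : 0 ≤ tl1) (h1 : tl1 ≤ s1) (h1' : s1 ≤ tu1)
    (htl2 : 0 ≤ tl2) (h2 : tl2 ≤ s2) (h2' : s2 ≤ tu2) (h3 : tl3 ≤ s3) (hf : fl ^ 2 ≤ Sn (p0 + q0))
    (hx : 1 ≤ x) (hy : 1 ≤ y) (hz : 1 ≤ z)
    (cz : (au + tu1) ^ 2 ≤ z * ((1 + tl1) * (1 / 2 + tl1)))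
    (cy : 1 + tl3 ≤ y * (fl ^ 2 + tl3))
    (cx1 : x * (bu + tl2) ^ 2 ≤ (1 / 2 + tl2) * (0.8535 + tl2))
    (cx2 : x * (bu + tu2) ^ 2 ≤ (1 / 2 + tu2) * (0.8535 + tu2))
    (hR : 11.03 * (z ^ 6 * y ^ 8) ≤ x ^ 3) (p q : ℝ) (hp : 0 ≤ p) (hp' : p ≤ 3 / 4)
    (hq : 1 / 2 ≤ q) (hq' : q ≤ 3 / 4) : 1 / 20 ≤ SW s1 s2 s3 p0 q0 p q := by
  have hs2 : 0 ≤ s2 := htl2.trans h2
  have ha0 : 0 < Sn p0 := Sn_pos hp0 (by linarith only [hp1])
  have hb0 : 0 < Sn q0 := Sn_pos hq0 (by linarith only [hq1, hp1, hp0])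
  refine SW_right hs1 hs2 hs3 hp0 hp1 hq0 hq1 hP0 hP1 (by linarith only [hx, hq1, hq0] : 0 < x) (by linarith only [hy,
                                                                                                      hq1,
                                                                                                      hq0] : 0 < y)
    hz ?_ ?_ ?_ hR p q hp hp' hq hq'
  · calc (Sn p0 + s1) ^ 2 ≤ (au + tu1) ^ 2 := pow_le_pow_left₀ (by linarith only [ha0, hs1]) (by linarith only [h1',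
                                                                                                   ha]) 2
      _ ≤ z * ((1 + tl1) * (1 / 2 + tl1)) := cz
      _ ≤ _ := mul_le_mul_of_nonneg_left (mul_le_mul (by linarith only [h1]) (by linarith only [h1]) (by linarith only [htl1,
                                                                                                           hq1,
                                                                                                           hq0])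
          (by linarith only [hs1])) (by linarith only [hz, hq1, hq0])
  · have k1 : 0 ≤ (y - 1) * (s3 - tl3) := mul_nonneg (by linarith only [hy]) (by linarith only [h3])
    have k2 : y * fl ^ 2 ≤ y * Sn (p0 + q0) := mul_le_mul_of_nonneg_left hf (by linarith only [hy,
                                                                                  hq1, hq0])
    linarith only [k2, k1, cy]
  · have k1 : (Sn q0 + s2) ^ 2 ≤ (bu + s2) ^ 2 := pow_le_pow_left₀ (by linarith only [hb0, h2, htl2]) (by linarith only [hb]) 2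
    have k2 : x * (Sn q0 + s2) ^ 2 ≤ x * (bu + s2) ^ 2 :=
      mul_le_mul_of_nonneg_left k1 (by linarith only [hx, hq1, hq0])
    rcases (h2.trans h2').eq_or_lt with he | hlt
    · have h7 : s2 = tl2 := le_antisymm (by linarith only [he, h2']) h2
      rw [h7] at k2 ⊢
      linarith only [k2, cx1]
    · have k3 : 0 ≤ (tu2 - s2) * ((1 / 2 + tl2) * (0.8535 + tl2) - x * (bu + tl2) ^ 2) :=
        mul_nonneg (by linarith only [h2']) (by linarith only [cx1])
      have k4 : 0 ≤ (s2 - tl2) * ((1 / 2 + tu2) * (0.8535 + tu2) - x * (bu + tu2) ^ 2) :=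
        mul_nonneg (by linarith only [h2]) (by linarith only [cx2])
      have k5 : 0 ≤ (tu2 - tl2) * ((x - 1) * ((s2 - tl2) * (tu2 - s2))) :=
        mul_nonneg (by linarith only [h2', h2]) (mul_nonneg (by linarith only [hx]) (mul_nonneg (by linarith only [h2])
          (by linarith only [h2'])))
      have k6 : (tu2 - tl2) * ((1 / 2 + s2) * (0.8535 + s2) - x * (bu + s2) ^ 2) =
          (tu2 - s2) * ((1 / 2 + tl2) * (0.8535 + tl2) - x * (bu + tl2) ^ 2) +
          (s2 - tl2) * ((1 / 2 + tu2) * (0.8535 + tu2) - x * (bu + tu2) ^ 2) +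
          (tu2 - tl2) * ((x - 1) * ((s2 - tl2) * (tu2 - s2))) := by ring
      have k7 : 0 ≤ (tu2 - tl2) * ((1 / 2 + s2) * (0.8535 + s2) - x * (bu + s2) ^ 2) := by
        linarith only [k5, k4, k3]
      have := nonneg_of_mul_nonneg_right k7 (by linarith only [hlt] : 0 < tu2 - tl2)
      linarith only [this, k2]

/-- **The part `p ≥ 1 / 2` on a box**, the second method. -/
theorem SW_M_box {s1 s2 s3 p0 q0 au bl bu tl1 tu1 tl2 tu2 tl3 tu3 fl ξ1 ξ2 b1 b2 u2 : ℝ}
    (hs1 : 0 ≤ s1) (hs2 : 0 < s2) (hs3 : 0 ≤ s3) (hp0 : 0 < p0) (hp1 : p0 < 1 / 2)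
    (hq0 : 0 < q0) (hq1 : q0 < 1 / 2)
    (ha : Sn p0 ≤ au) (hb : bl ≤ Sn q0) (hb' : Sn q0 ≤ bu) (htl1 : 0 ≤ tl1)
    (h1 : tl1 ≤ s1) (h1' : s1 ≤ tu1) (h2 : tl2 ≤ s2) (h2' : s2 ≤ tu2) (h3 : tl3 ≤ s3)
    (h3' : s3 ≤ tu3) (hf : fl ^ 2 ≤ Sn (p0 + q0)) (hfm : 0.3706 ≤ fl ^ 2) (hbu : bu ≤ 1 / 4)
    (hψ : (bu + tu2) * (0.3706 + tu3) ≤ (1 / 4 + tu2) * (fl ^ 2 + tu3))
    (hξ1 : 0 < ξ1) (hξ2 : 0 < ξ2)
    (hb1 : b1 ≤ 0 ∨ (b1 + tl2 ≤ (bl + tl2) * ξ1 ^ 2 ∧ b1 + tu2 ≤ (bl + tu2) * ξ1 ^ 2))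
    (hx1 : 1 - b1 + tl3 ≤ (fl ^ 2 + tl3) * ξ1 ^ 2) (hx1' : 1 - b1 + tu3 ≤ (fl ^ 2 + tu3) * ξ1 ^ 2)
    (hb2 : b2 ≤ 0 ∨ (b2 + tl2 ≤ (bl + tl2) * ξ2 ^ 2 ∧ b2 + tu2 ≤ (bl + tu2) * ξ2 ^ 2))
    (hb20 : 0 ≤ b2) (hb21 : b2 ≤ 1 / 2) (hu : 0 ≤ u2) (hu2 : u2 ^ 2 ≤ b2 * (1 - b2))
    (hx2 : 1 / 2 + 0.3536 * (1 - 2 * b2) - 0.707 * u2 + tl3 ≤ (fl ^ 2 + tl3) * ξ2 ^ 2)
    (hx2' : 1 / 2 + 0.3536 * (1 - 2 * b2) - 0.707 * u2 + tu3 ≤ (fl ^ 2 + tu3) * ξ2 ^ 2)
    (m3 : (au + tu1) ^ 2 * ξ1 ^ 2 ≤ (1 + tl1) * (0.8535 + tl1))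
    (m4 : (au + tu1) ^ 4 * (ξ1 ^ 2 * ξ2 ^ 2) ≤ (1 + tl1) * (0.8535 + tl1) ^ 2 * (1 / 2 + tl1))
    (e0 : ℝ) (hS : ∀ q ∈ Icc (0 : ℝ) (1 / 2), e0 ≤ SW s1 s2 s3 p0 q0 (1 / 2) q)
    (p q : ℝ) (hp : 1 / 2 ≤ p) (hp' : p ≤ 3 / 4) (hq : 0 ≤ q) (hq' : q ≤ 1 / 2) :
    e0 ≤ SW s1 s2 s3 p0 q0 p q := by
  have ha0 : 0 < Sn p0 := Sn_pos hp0 (by linarith only [hp1])
  have hb0 : 0 < Sn q0 := Sn_pos hq0 (by linarith only [hq1, hp1, hp0])
  have lin2 : ∀ {b ξ : ℝ}, (b ≤ 0 ∨ (b + tl2 ≤ (bl + tl2) * ξ ^ 2 ∧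
      b + tu2 ≤ (bl + tu2) * ξ ^ 2)) → b ≤ 0 ∨ b + s2 ≤ (Sn q0 + s2) * ξ ^ 2 := by
    intro b ξ h
    rcases h with h | ⟨h, h'⟩
    · exact Or.inl h
    · right
      have k1 := aff_ends (A := ξ ^ 2 - 1) (B := bl * ξ ^ 2 - b) h2 h2' (by linarith only [h]) (by linarith only [h'])
      have k2 : bl * ξ ^ 2 ≤ Sn q0 * ξ ^ 2 := mul_le_mul_of_nonneg_right hb (by positivity)
      linarith only [k2, k1]
  have lin3 : ∀ {b ξ : ℝ}, b + tl3 ≤ (fl ^ 2 + tl3) * ξ ^ 2 → b + tu3 ≤ (fl ^ 2 + tu3) * ξ ^ 2 →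
      b + s3 ≤ (Sn (p0 + q0) + s3) * ξ ^ 2 := by
    intro b ξ h h'
    have k1 := aff_ends (A := ξ ^ 2 - 1) (B := fl ^ 2 * ξ ^ 2 - b) h3 h3' (by linarith only [h])
      (by linarith only [h'])
    have k2 : fl ^ 2 * ξ ^ 2 ≤ Sn (p0 + q0) * ξ ^ 2 := mul_le_mul_of_nonneg_right hf (by positivity)
    linarith only [k2, k1]
  have kA : 0 ≤ au + tu1 := by linarith only [ha0, h1', ha, hs1]
  refine SW_M hs1 hs2 hs3 hp0 hp1 hq0 hq1 ?_ hξ1 hξ2 (lin2 hb1) (lin3 hx1 hx1') (lin2 hb2) hb20 hb21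
    hu hu2 (lin3 hx2 hx2') ?_ ?_ e0 hS p q hp hp' hq hq'
  · have htu3 : 0 ≤ tu3 := hs3.trans h3'
    have htu2 : 0 ≤ tu2 := hs2.le.trans h2'
    -- the two ratios
    have k1 : (Sn q0 + s2) * (1 / 4 + tu2) ≤ (bu + tu2) * (1 / 4 + s2) := by
      have j1 : 0 ≤ (1 / 4 - bu) * (tu2 - s2) := mul_nonneg (by linarith only [hbu]) (by linarith only [h2'])
      have j2 : Sn q0 * (1 / 4 + tu2) ≤ bu * (1 / 4 + tu2) :=
        mul_le_mul_of_nonneg_right hb' (by linarith only [h2', hp1, hp0, hs2])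
      linarith only [j2, j1]
    have k2 : (0.3706 + s3) * (fl ^ 2 + tu3) ≤ (0.3706 + tu3) * (fl ^ 2 + s3) := by
      have j1 : 0 ≤ (fl ^ 2 - 0.3706) * (tu3 - s3) := mul_nonneg (by linarith only [hfm]) (by linarith only [h3'])
      linarith only [j1]
    have hpos : 0 < (1 / 4 + tu2) * (fl ^ 2 + tu3) := mul_pos (by linarith only [h2', hp1, hp0, hs2]) (by linarith only [hfm,
                                                                                                            h3',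
                                                                                                            hp1,
                                                                                                            hp0,
                                                                                                            hs3])
    have k3 : ((Sn q0 + s2) * (0.3706 + s3)) * ((1 / 4 + tu2) * (fl ^ 2 + tu3)) ≤
        ((1 / 4 + s2) * (fl ^ 2 + s3)) * ((1 / 4 + tu2) * (fl ^ 2 + tu3)) := by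
      calc ((Sn q0 + s2) * (0.3706 + s3)) * ((1 / 4 + tu2) * (fl ^ 2 + tu3)) =
          ((Sn q0 + s2) * (1 / 4 + tu2)) * ((0.3706 + s3) * (fl ^ 2 + tu3)) := by ring
        _ ≤ ((bu + tu2) * (1 / 4 + s2)) * ((0.3706 + tu3) * (fl ^ 2 + s3)) := by
            apply mul_le_mul k1 k2
            · exact mul_nonneg (by linarith only [hs3]) (by linarith only [hfm, h3', hp1, hp0, hs3])
            · exact mul_nonneg (by linarith only [hb0, h2', hb', hs2]) (by linarith only [hs2])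
        _ = ((bu + tu2) * (0.3706 + tu3)) * ((1 / 4 + s2) * (fl ^ 2 + s3)) := by ring
        _ ≤ ((1 / 4 + tu2) * (fl ^ 2 + tu3)) * ((1 / 4 + s2) * (fl ^ 2 + s3)) := by
            apply mul_le_mul_of_nonneg_right hψ
            exact mul_nonneg (by linarith only [hs2]) (by linarith only [hfm, hp1, hp0, hs3])
        _ = _ := by ring
    have k4 := le_of_mul_le_mul_right k3 hpos
    have k5 : (1 / 4 + s2) * (fl ^ 2 + s3) ≤ (1 / 4 + s2) * (Sn (p0 + q0) + s3) :=
      mul_le_mul_of_nonneg_left (by linarith only [hf]) (by linarith only [hs2])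
    linarith only [k5, k4]
  · calc (Sn p0 + s1) ^ 2 * ξ1 ^ 2 ≤ (au + tu1) ^ 2 * ξ1 ^ 2 :=
          mul_le_mul_of_nonneg_right (pow_le_pow_left₀ (by linarith only [ha0, hs1]) (by linarith only [h1',
                                                                                           ha]) 2)
            (by positivity)
      _ ≤ (1 + tl1) * (0.8535 + tl1) := m3
      _ ≤ _ := mul_le_mul (by linarith only [h1]) (by linarith only [h1]) (by linarith only [htl1,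
                                                                                hp1, hp0]) (by linarith only [hs1])
  · calc (Sn p0 + s1) ^ 4 * (ξ1 ^ 2 * ξ2 ^ 2) ≤ (au + tu1) ^ 4 * (ξ1 ^ 2 * ξ2 ^ 2) :=
          mul_le_mul_of_nonneg_right (pow_le_pow_left₀ (by linarith only [ha0, hs1]) (by linarith only [h1',
                                                                                           ha]) 4)
            (by positivity)
      _ ≤ (1 + tl1) * (0.8535 + tl1) ^ 2 * (1 / 2 + tl1) := m4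
      _ ≤ (1 + s1) * (0.8535 + s1) ^ 2 * (1 / 2 + s1) := by
          apply mul_le_mul _ (by linarith only [h1]) (by linarith only [htl1, hp1, hp0]) (by positivity)
          apply mul_le_mul (by linarith only [h1]) _ (by positivity) (by linarith only [hs1])
          exact pow_le_pow_left₀ (by linarith only [htl1, hp1, hp0]) (by linarith only [h1]) 2

end Pool.Agent.S5.C2
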