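import Pool.Agent.S5.I.Y3b
import Pool.Agent.S5.I.W2g
import Pool.Agent.S5.I.W2d

/-!
# The flats of a node with three half twists: lower bounds of the defects by sums
-/

set_option autoImplicit false

namespace Pool.Agent.S5.Y3

open MeasureTheory Filter Topology Set Pool.Agent.S5.C2

/-! ### Preparations -/

private theorem dI_nonneg {f : ℝ → ℝ} {a b : ℝ} (hab : a ≤ b)
    (h : ∀ t, Real.sin (Real.pi * t) ≠ 0 → a ≤ t → t ≤ b → 0 ≤ f t) : 0 ≤ ∫ t in a..b, f t := by
  apply intervalIntegral.integral_nonneg_of_ae_restrict hab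
  filter_upwards [ae_restrict_mem measurableSet_Icc, ae_restrict_of_ae Pool.Agent.S3.sin_ne_ae]
    with t ht h2
  exact h t h2 ht.1 ht.2

private theorem dI_mono {f g : ℝ → ℝ} {a b : ℝ} (hab : a ≤ b)
    (hf : IntervalIntegrable f volume a b) (hg : IntervalIntegrable g volume a b)
    (h : ∀ t, Real.sin (Real.pi * t) ≠ 0 → a ≤ t → t ≤ b → f t ≤ g t) :
    ∫ t in a..b, f t ≤ ∫ t in a..b, g t := by
  apply intervalIntegral.integral_mono_ae_restrict hab hf hg
  filter_upwards [ae_restrict_mem measurableSet_Icc, ae_restrict_of_ae Pool.Agent.S3.sin_ne_ae]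
    with t ht h2
  exact h t h2 ht.1 ht.2

private theorem sn_ne {t : ℝ} (h : Real.sin (Real.pi * t) ≠ 0) : 0 < Sn t := by
  unfold Sn
  positivity

private theorem sn_neg (v : ℝ) : Sn (1 / 2 - v) = Sn (1 / 2 + v) := by
  rw [← Sn_one_sub]
  congr 1
  ring

private theorem sn_per (v : ℝ) : Sn (v + 1) = Sn v := by
  unfold Sn
  rw [show Real.pi * (v + 1) = Real.pi * v + Real.pi by ring, Real.sin_add_pi, neg_sq]

private theorem sn_in {u t : ℝ} (h : |t| ≤ u) (hu : u ≤ 1 / 2) : Sn (1 / 2 + u) ≤ Sn (1 / 2 + t) := by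
  have h2 := abs_le.1 h
  rw [← sn_neg]
  exact Sn_ge (by linarith) (by linarith) (by linarith)

private theorem sn_out {u t : ℝ} (hu : 0 ≤ u) (h : u ≤ t) (h' : t ≤ 1 - u) :
    Sn (1 / 2 + t) ≤ Sn (1 / 2 + u) := by
  rcases le_total t (1 / 2) with h1 | h1
  · exact sn_in (by rw [abs_of_nonneg hu]; exact h) h1
  · have e : Sn (1 / 2 + t) = Sn (1 / 2 + (1 - t)) := by
      rw [← sn_neg, ← sn_per]
      congr 1
      ring
    rw [e]
    exact sn_in (by rw [abs_of_nonneg hu]; linarith) (by linarith)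

private theorem lq_le {s a b : ℝ} (h0 : 0 < Sn a + s) (h : Sn a ≤ Sn b) : Lq s a ≤ Lq s b := by
  rw [Lq_eq, Lq_eq]
  have := Real.log_le_log (show 0 < 4 * (Sn a + s) by linarith)
    (show 4 * (Sn a + s) ≤ 4 * (Sn b + s) by linarith)
  linarith

private theorem lq_le_c {s a C : ℝ} (h0 : 0 < Sn a + s) (h : Sn a ≤ C) :
    Lq s a ≤ Real.log (4 * (C + s)) / 2 := by
  rw [Lq_eq]
  have := Real.log_le_log (show 0 < 4 * (Sn a + s) by linarith)
    (show 4 * (Sn a + s) ≤ 4 * (C + s) by linarith)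
  linarith

/-- The quotient decreases in the added constant. -/
private theorem rat {S C s s' : ℝ} (hC : 0 < C + s) (hCS : C ≤ S) (hs : s ≤ s') :
    Real.log (4 * (S + s')) / 2 - Real.log (4 * (C + s')) / 2 ≤
      Real.log (4 * (S + s)) / 2 - Real.log (4 * (C + s)) / 2 := by
  have h1 := Real.log_le_log (show 0 < 4 * (S + s') * (4 * (C + s)) by
    apply mul_pos <;> linarith) (show 4 * (S + s') * (4 * (C + s)) ≤
      4 * (S + s) * (4 * (C + s')) by nlinarith [mul_nonneg (sub_nonneg.2 hCS) (sub_nonneg.2 hs)])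
  rw [Real.log_mul (x := 4 * (S + s')) (y := 4 * (C + s)) (by linarith) (by linarith),
    Real.log_mul (x := 4 * (S + s)) (y := 4 * (C + s')) (by linarith) (by linarith)] at h1
  linarith

private theorem icst (c a b : ℝ) : IntervalIntegrable (fun _ : ℝ => c) volume a b :=
  intervalIntegrable_const

private theorem int_sub_c {s : ℝ} (hs : 0 ≤ s) (c a b : ℝ) :
    ∫ t in a..b, (Lq s t - c) = (∫ t in a..b, Lq s t) - (b - a) * c := by
  rw [intervalIntegral.integral_sub (Lq_int hs a b) (icst c a b), intervalIntegral.integral_const,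
    smul_eq_mul]

private theorem d5_eq (s u0 x : ℝ) : -Dq s (1 / 2 + u0) x =
    ∫ t in x..(1 / 2 + u0), (Lq s t - Lq s (1 / 2 + u0)) := by
  unfold Dq
  rw [intervalIntegral.integral_symm, neg_neg]

/-! ### Concavity -/

private theorem der2 {s t : ℝ} (h : 0 < Sn t + s) : HasDerivAt
    (fun t => Real.pi * (Real.sin (Real.pi * t) * Real.cos (Real.pi * t)) /
      (Real.sin (Real.pi * t) ^ 2 + s))
    (-(Real.pi ^ 2 * (Sn t * (1 + 2 * s) - s)) / (Sn t + s) ^ 2) t := by
  have h1 : HasDerivAt (fun t : ℝ => Real.sin (Real.pi * t))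
      (Real.cos (Real.pi * t) * (Real.pi * 1)) t :=
    ((hasDerivAt_id' t).const_mul Real.pi).sin
  have h2 : HasDerivAt (fun t : ℝ => Real.cos (Real.pi * t))
      (-Real.sin (Real.pi * t) * (Real.pi * 1)) t :=
    ((hasDerivAt_id' t).const_mul Real.pi).cos
  have h3 : 0 < Real.sin (Real.pi * t) ^ 2 + s := h
  have h4 := ((h1.mul h2).const_mul Real.pi).div ((h1.pow 2).add_const s) h3.ne'
  refine h4.congr_deriv ?_
  unfold Sn
  simp only [Pi.mul_apply, Pi.pow_apply, mul_one, Nat.cast_ofNat]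
  congr 1
  have h5 := Real.sin_sq_add_cos_sq (Real.pi * t)
  set a := Real.sin (Real.pi * t)
  set c := Real.cos (Real.pi * t)
  have h6 : c ^ 2 = 1 - a ^ 2 := by linarith
  norm_num
  have e : Real.pi * (c * Real.pi * c + -(a * (a * Real.pi))) * (a ^ 2 + s) -
      Real.pi * (a * c) * (2 * a * (c * Real.pi)) =
      Real.pi ^ 2 * ((c ^ 2 - a ^ 2) * (a ^ 2 + s) - 2 * (a ^ 2 * c ^ 2)) := by ring
  rw [e, h6]
  ring

/-- Concavity of `Lq s` where `s ≤ Sn (1 + 2 s)`: the trapezoid. -/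
theorem trapG {s a b : ℝ} (hs : 0 ≤ s) (ha : 0 < a) (hab : a ≤ b) (hb : b < 1)
    (h1 : s ≤ Sn a * (1 + 2 * s)) (h2 : s ≤ Sn b * (1 + 2 * s)) :
    (b - a) * ((Lq s a + Lq s b) / 2) ≤ ∫ t in a..b, Lq s t := by
  rcases hab.eq_or_lt with h | h
  · rw [h, sub_self, zero_mul, intervalIntegral.integral_same]
  have hS : ∀ t ∈ Icc a b, 0 < Sn t + s := fun t ht => by
    have := Sn_pos (lt_of_lt_of_le ha ht.1) (lt_of_le_of_lt ht.2 hb)
    linarith
  -- the second derivative
  have hneg : ∀ t ∈ Icc a b, 0 ≤ Sn t * (1 + 2 * s) - s := by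
    intro t ht
    have h3 : min (Sn a) (Sn b) ≤ Sn t := by
      rcases le_total t (1 / 2) with h4 | h4
      · exact (min_le_left _ _).trans (Sn_mono ha.le ht.1 h4)
      · refine (min_le_right _ _).trans ?_
        rw [← Sn_one_sub b, ← Sn_one_sub t]
        exact Sn_mono (by linarith) (by linarith [ht.2]) (by linarith)
    rcases min_le_iff.1 (le_refl (min (Sn a) (Sn b))) with h5 | h5
    · have h6 : Sn a ≤ Sn t := h5.trans h3
      have := mul_le_mul_of_nonneg_right h6 (show 0 ≤ 1 + 2 * s by linarith)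
      linarith
    · have h6 : Sn b ≤ Sn t := h5.trans h3
      have := mul_le_mul_of_nonneg_right h6 (show 0 ≤ 1 + 2 * s by linarith)
      linarith
  have hanti : AntitoneOn (fun t => Real.pi * (Real.sin (Real.pi * t) * Real.cos (Real.pi * t)) /
      (Real.sin (Real.pi * t) ^ 2 + s)) (Icc a b) := by
    apply antitoneOn_of_deriv_nonpos (convex_Icc a b)
    · exact fun t ht => (der2 (hS t ht)).continuousAt.continuousWithinAt
    · exact fun t ht => (der2 (hS t (interior_subset ht))).differentiableAt.differentiableWithinAt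
    · intro t ht
      have ht' := interior_subset ht
      rw [(der2 (hS t ht')).deriv]
      apply div_nonpos_of_nonpos_of_nonneg
      · have := mul_nonneg (sq_nonneg Real.pi) (hneg t ht')
        linarith
      · positivity
  have hd : ∀ t ∈ Icc a b, HasDerivAt (Lq s) (Real.pi * (Real.sin (Real.pi * t) *
      Real.cos (Real.pi * t)) / (Real.sin (Real.pi * t) ^ 2 + s)) t :=
    fun t ht => Lq_hasDerivAt (hS t ht)
  have hconc : ConcaveOn ℝ (Icc a b) (Lq s) := by
    apply AntitoneOn.concaveOn_of_deriv (convex_Icc a b)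
    · exact fun t ht => (hd t ht).continuousAt.continuousWithinAt
    · exact fun t ht => (hd t (interior_subset ht)).differentiableAt.differentiableWithinAt
    · intro x hx y hy hxy
      have hx' := interior_subset hx
      have hy' := interior_subset hy
      rw [(hd x hx').deriv, (hd y hy').deriv]
      exact hanti hx' hy' hxy
  -- the chord
  obtain ⟨m, hm⟩ : ∃ m, m = (Lq s b - Lq s a) / (b - a) := ⟨_, rfl⟩
  have hm' : m * (b - a) = Lq s b - Lq s a := by
    rw [hm, div_mul_cancel₀ _ (by linarith : b - a ≠ 0)]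
  have hch : ∀ t ∈ Icc a b, Lq s a + m * (t - a) ≤ Lq s t := by
    intro t ht
    have hp : 0 < b - a := by linarith
    have h3 := hconc.2 (left_mem_Icc.2 hab) (right_mem_Icc.2 hab)
      (show 0 ≤ (b - t) / (b - a) from div_nonneg (by linarith [ht.2]) hp.le)
      (show 0 ≤ (t - a) / (b - a) from div_nonneg (by linarith [ht.1]) hp.le)
      (by rw [← add_div, div_eq_one_iff_eq hp.ne']; ring)
    simp only [smul_eq_mul] at h3
    have e1 : (b - t) / (b - a) * a + (t - a) / (b - a) * b = t := by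
      field_simp
      ring
    rw [e1] at h3
    have e2 : (b - t) / (b - a) * Lq s a + (t - a) / (b - a) * Lq s b =
        Lq s a + m * (t - a) := by
      rw [hm]
      field_simp
      ring
    rw [e2] at h3
    exact h3
  have e3 : (b - a) * ((Lq s a + Lq s b) / 2) = ∫ t in a..b, (Lq s a + m * (t - a)) := by
    rw [intervalIntegral.integral_add (icst _ _ _)
      (by exact (by fun_prop : Continuous fun t : ℝ => m * (t - a)).intervalIntegrable _ _),
      intervalIntegral.integral_const, intervalIntegral.integral_const_mul,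
      intervalIntegral.integral_sub (by exact continuous_id.intervalIntegrable _ _) (icst _ _ _),
      integral_id, intervalIntegral.integral_const]
    simp only [smul_eq_mul]
    have e4 : m * ((b ^ 2 - a ^ 2) / 2 - (b - a) * a) = m * (b - a) * (b - a) / 2 := by ring
    rw [e4, hm']
    ring
  rw [e3]
  exact intervalIntegral.integral_mono_on hab
    (by exact (by fun_prop : Continuous fun t : ℝ => Lq s a + m * (t - a)).intervalIntegrable _ _)
    (Lq_int hs a b) hch

/-- The mean value of `Lq` for `s = sinh² π h` is `π |h|`. -/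
theorem mean_Lq (h x : ℝ) :
    ∫ t in x..(x + 1), Lq (Real.sinh (Real.pi * h) ^ 2) t = Real.pi * |h| := by
  have e : ∀ t, Lq (Real.sinh (Real.pi * h) ^ 2) t = Pool.Agent.S3.Lg h t :=
    fun t => (Lg_eq_Lq h t).symm
  simp only [e]
  rw [Pool.Agent.S3.Lg_integral]
  have e2 := Pool.Agent.S3.Rf_add_one ((x : ℂ) + h * Complex.I)
  rw [Pool.Agent.S3.line_im] at e2
  have e3 : (((x + 1 : ℝ) : ℂ) + h * Complex.I) = (x : ℂ) + h * Complex.I + 1 := by
    push_cast
    ring
  rw [e3, e2]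
  ring

/-- `D2(x)` from below. -/
theorem D2_low {s q0 b x H : ℝ} (hs : 0 ≤ s) (h0 : 0 < q0) (h1 : q0 ≤ 1 / 2) (hb : 0 < b)
    (hb1 : b ≤ 1 / 2) (hx : b ≤ x) (hH : Lq s q0 ≤ H) :
    (∫ t in b..x, Lq s t) - (x - b) * H ≤ Dq s q0 x := by
  have e1 := Dq_sub hs q0 b x
  rw [int_sub_c hs] at e1
  have e2 : 0 ≤ Dq s q0 b := by
    unfold Dq
    rcases le_total q0 b with h | h
    · refine intervalIntegral.integral_nonneg h fun t ht => ?_
      have := Sn_pos h0 (by linarith)
      have := lq_le (s := s) (a := q0) (b := t) (by linarith) (Sn_mono h0.le ht.1 (by linarith [ht.2]))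
      linarith
    · rw [intervalIntegral.integral_symm, ← intervalIntegral.integral_neg]
      refine intervalIntegral.integral_nonneg h fun t ht => ?_
      have := Sn_pos (lt_of_lt_of_le hb ht.1) (by linarith [ht.2])
      have := lq_le (s := s) (a := t) (b := q0) (by linarith)
        (Sn_mono (by linarith [ht.1]) ht.2 h1)
      linarith
  have e3 := mul_le_mul_of_nonneg_left hH (show 0 ≤ x - b by linarith)
  linarith

/-- Comparison of the integrals of `Lq` for two constants. -/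
private theorem cmp {S S' C0 b x : ℝ} (hS : 0 ≤ S) (hSS : S ≤ S') (hC : 0 < C0)
    (hx : x - 1 ≤ b) (h : ∀ t, x - 1 / 2 ≤ t → t ≤ 1 / 2 + b → C0 ≤ Sn t) :
    (∫ t in (x - 1 / 2)..(1 / 2 + b), Lq S' t) - (∫ t in (x - 1 / 2)..(1 / 2 + b), Lq S t) ≤
      (b - (x - 1)) * (Real.log (4 * (C0 + S')) / 2 - Real.log (4 * (C0 + S)) / 2) := by
  have hS' : 0 ≤ S' := hS.trans hSS
  rw [← intervalIntegral.integral_sub (Lq_int hS' _ _) (Lq_int hS _ _)]
  have e : (b - (x - 1)) * (Real.log (4 * (C0 + S')) / 2 - Real.log (4 * (C0 + S)) / 2) =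
      ∫ _t in (x - 1 / 2)..(1 / 2 + b),
        (Real.log (4 * (C0 + S')) / 2 - Real.log (4 * (C0 + S)) / 2) := by
    rw [intervalIntegral.integral_const, smul_eq_mul]
    ring
  rw [e]
  refine intervalIntegral.integral_mono_on (by linarith)
    ((Lq_int hS' _ _).sub (Lq_int hS _ _)) (icst _ _ _) fun t ht => ?_
  have := rat (S := Sn t) (C := C0) (s := S) (s' := S') (by linarith) (h t ht.1 ht.2) hSS
  rw [Lq_eq, Lq_eq]
  linarith

/-- `D5(x)` for `3/4 ≤ x ≤ 5/4`, from the mean value. -/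
theorem D5_right {h h' u0 b x C0 κ : ℝ} (hh : 0 ≤ h) (hh' : h ≤ h') (hu : 0 ≤ u0) (hu1 : u0 < 1 / 2)
    (hb : 0 ≤ b) (hb1 : b < 1 / 2) (hx : 3 / 4 ≤ x) (hx1 : x ≤ 5 / 4) (hxb : x - 1 ≤ b)
    (hxb' : 1 - x ≤ b) (hxu : |x - 1| ≤ u0)
    (hC : 0 < C0) (hC1 : C0 ≤ Sn (1 / 2 + u0)) (hC2 : C0 ≤ Sn (1 / 2 + b))
    (hκ : Real.log ((C0 + Real.sinh (Real.pi * h') ^ 2) / (C0 + Real.sinh (Real.pi * h) ^ 2)) / 2 ≤
      Real.pi * (h' - h) + κ) :
    (∫ t in (x - 1 / 2)..(1 / 2 + b), Lq (Real.sinh (Real.pi * h') ^ 2) t) +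
      (x - b) * Lq (Real.sinh (Real.pi * h') ^ 2) (1 / 2 + u0) - Real.pi * h' - κ ≤
      -Dq (Real.sinh (Real.pi * h) ^ 2) (1 / 2 + u0) (1 / 2 + x) := by
  have hpi := Real.pi_pos
  have hm := mean_Lq h (x - 1 / 2)
  obtain ⟨S, hS⟩ : ∃ S, S = Real.sinh (Real.pi * h) ^ 2 := ⟨_, rfl⟩
  obtain ⟨S', hS'⟩ : ∃ S', S' = Real.sinh (Real.pi * h') ^ 2 := ⟨_, rfl⟩
  have hS0 : 0 ≤ S := by rw [hS]; positivity
  have hSS : S ≤ S' := by
    rw [hS, hS']
    apply pow_le_pow_left₀ (Real.sinh_nonneg_iff.2 (by positivity))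
    exact Real.sinh_le_sinh.2 (mul_le_mul_of_nonneg_left hh' hpi.le)
  rw [← hS, ← hS'] at hκ ⊢
  rw [← hS, abs_of_nonneg hh, show x - 1 / 2 + 1 = 1 / 2 + x by ring] at hm
  -- the identity
  have i1 : ∀ a c, IntervalIntegrable (Lq S) volume a c := fun a c => Lq_int hS0 a c
  have e1 : -Dq S (1 / 2 + u0) (1 / 2 + x) = -(∫ t in (1 / 2 + u0)..(1 / 2 + x), Lq S t) +
      (x - u0) * Lq S (1 / 2 + u0) := by
    unfold Dq
    rw [int_sub_c hS0]
    ring
  have e2 := intervalIntegral.integral_add_adjacent_intervals (i1 (x - 1 / 2) (1 / 2 + b))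
    (i1 (1 / 2 + b) (1 / 2 + x))
  have e3 := intervalIntegral.integral_add_adjacent_intervals (i1 (1 / 2 + b) (1 / 2 + u0))
    (i1 (1 / 2 + u0) (1 / 2 + x))
  -- between `b` and `u0`
  have e4 : (u0 - b) * Lq S (1 / 2 + u0) ≤ ∫ t in (1 / 2 + b)..(1 / 2 + u0), Lq S t := by
    have hp : 0 < Sn (1 / 2 + u0) + S := by linarith
    rcases le_total b u0 with h1 | h1
    · have k := dI_nonneg (f := fun t => Lq S t - Lq S (1 / 2 + u0)) (a := 1 / 2 + b)
        (b := 1 / 2 + u0) (by linarith) (by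
        intro t _ h2 h3
        have := lq_le (s := S) (a := 1 / 2 + u0) (b := t) hp (by
          have := sn_in (u := u0) (t := t - 1 / 2) (abs_le.2 ⟨by linarith, by linarith⟩) hu1.le
          rwa [show 1 / 2 + (t - 1 / 2) = t by ring] at this)
        linarith)
      rw [int_sub_c hS0] at k
      linarith
    · have k := dI_nonneg (f := fun t => -(Lq S t - Lq S (1 / 2 + u0))) (a := 1 / 2 + u0)
        (b := 1 / 2 + b) (by linarith) (by
        intro t h0 h2 h3
        have := sn_ne h0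
        have := lq_le (s := S) (a := t) (b := 1 / 2 + u0) (by linarith) (by
          have := sn_in (u := t - 1 / 2) (t := u0) (abs_le.2 ⟨by linarith, by linarith⟩)
            (by linarith)
          rwa [show 1 / 2 + (t - 1 / 2) = t by ring] at this)
        linarith)
      rw [intervalIntegral.integral_neg, int_sub_c hS0] at k
      rw [intervalIntegral.integral_symm]
      linarith
  -- the change of the constant
  have hmin : ∀ t, x - 1 / 2 ≤ t → t ≤ 1 / 2 + b → C0 ≤ Sn t := by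
    intro t h2 h3
    refine hC2.trans ?_
    have := sn_in (u := b) (t := t - 1 / 2) (abs_le.2 ⟨by linarith, by linarith⟩) hb1.le
    rwa [show 1 / 2 + (t - 1 / 2) = t by ring] at this
  have e5 := cmp hS0 hSS hC hxb hmin
  have e6 := rat (S := Sn (1 / 2 + u0)) (C := C0) (s := S) (s' := S') (by linarith) hC1 hSS
  rw [← Lq_eq, ← Lq_eq] at e6
  have e7 := mul_le_mul_of_nonneg_left e6 (show 0 ≤ x - b by linarith)
  have e8 : Real.log ((C0 + S') / (C0 + S)) / 2 =
      Real.log (4 * (C0 + S')) / 2 - Real.log (4 * (C0 + S)) / 2 := by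
    rw [Real.log_div (by linarith) (by linarith), Real.log_mul (by norm_num) (by linarith),
      Real.log_mul (by norm_num) (by linarith)]
    ring
  rw [e8] at hκ
  rw [e1]
  nlinarith

/-- The correction `κ`. -/
theorem kap_corr {h h' C0 r : ℝ} (hh : 0 ≤ h) (hh' : h ≤ h') (hC : 0 < C0) (hC1 : C0 ≤ 1 / 2)
    (h1 : (Real.sinh (Real.pi * h') ^ 2) ^ 2 * (1 - 2 * C0) ≤ C0 ^ 2) (hr : 1 ≤ r)
    (h2 : Real.sinh (Real.pi * h') ^ 2 * (1 + Real.sinh (Real.pi * h') ^ 2) ≤
      (r * (C0 + Real.sinh (Real.pi * h') ^ 2)) ^ 2) :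
    Real.log ((C0 + Real.sinh (Real.pi * h') ^ 2) / (C0 + Real.sinh (Real.pi * h) ^ 2)) / 2 ≤
      Real.pi * (h' - h) + Real.pi * (h' - h) * (r - 1) := by
  have hpi := Real.pi_pos
  have hr0 : 0 ≤ r := by linarith
  obtain ⟨S', hS'⟩ : ∃ S', S' = Real.sinh (Real.pi * h') ^ 2 := ⟨_, rfl⟩
  rw [← hS'] at h1 h2
  have hS0' : 0 ≤ S' := by rw [hS']; positivity
  -- the derivative of the logarithm
  have hd : ∀ η, HasDerivAt (fun η => r * (Real.pi * η) -
      Real.log (C0 + Real.sinh (Real.pi * η) ^ 2) / 2)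
      (Real.pi * (r - Real.sinh (Real.pi * η) * Real.cosh (Real.pi * η) /
        (C0 + Real.sinh (Real.pi * η) ^ 2))) η := by
    intro η
    have k1 : HasDerivAt (fun η => Real.sinh (Real.pi * η))
        (Real.cosh (Real.pi * η) * (Real.pi * 1)) η :=
      ((hasDerivAt_id' η).const_mul Real.pi).sinh
    have hp : 0 < C0 + Real.sinh (Real.pi * η) ^ 2 := by positivity
    have k2 := (((k1.pow 2).const_add C0).log hp.ne').div_const 2
    have k3 := (((hasDerivAt_id' η).const_mul Real.pi).const_mul r).sub k2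
    refine k3.congr_deriv ?_
    simp only [Nat.cast_ofNat, Pi.pow_apply]
    field_simp
    ring
  have hm : MonotoneOn (fun η => r * (Real.pi * η) -
      Real.log (C0 + Real.sinh (Real.pi * η) ^ 2) / 2) (Icc h h') := by
    apply monotoneOn_of_deriv_nonneg (convex_Icc h h')
    · exact fun η _ => (hd η).continuousAt.continuousWithinAt
    · exact fun η _ => (hd η).differentiableAt.differentiableWithinAt
    · intro η hη
      have hη' := interior_subset hη
      rw [(hd η).deriv]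
      apply mul_nonneg hpi.le
      have h0 : 0 ≤ η := hh.trans hη'.1
      have hs0 : 0 ≤ Real.sinh (Real.pi * η) := Real.sinh_nonneg_iff.2 (by positivity)
      obtain ⟨S, hS⟩ : ∃ S, S = Real.sinh (Real.pi * η) ^ 2 := ⟨_, rfl⟩
      have hS0 : 0 ≤ S := by rw [hS]; positivity
      have hSS : S ≤ S' := by
        rw [hS, hS']
        apply pow_le_pow_left₀ hs0
        exact Real.sinh_le_sinh.2 (mul_le_mul_of_nonneg_left hη'.2 hpi.le)
      have hsc : (Real.sinh (Real.pi * η) * Real.cosh (Real.pi * η)) ^ 2 = S * (1 + S) := by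
        rw [mul_pow, Real.cosh_sq, ← hS]
        ring
      -- the quotient increases
      have k1 : S * (1 + S) * (C0 + S') ^ 2 ≤ S' * (1 + S') * (C0 + S) ^ 2 := by
        have e : S' * (1 + S') * (C0 + S) ^ 2 - S * (1 + S) * (C0 + S') ^ 2 =
            (S' - S) * (C0 ^ 2 * (1 + S + S') - (1 - 2 * C0) * (S * S')) := by ring
        have k2 : (1 - 2 * C0) * (S * S') ≤ (1 - 2 * C0) * S' ^ 2 := by
          apply mul_le_mul_of_nonneg_left _ (by linarith)
          rw [sq]
          exact mul_le_mul_of_nonneg_right hSS hS0'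
        have k3 : 0 ≤ C0 ^ 2 * (S + S') := by positivity
        have k4 : 0 ≤ (S' - S) * (C0 ^ 2 * (1 + S + S') - (1 - 2 * C0) * (S * S')) :=
          mul_nonneg (by linarith) (by linarith)
        linarith
      have k2 : S * (1 + S) ≤ (r * (C0 + S)) ^ 2 := by
        have hp : 0 < (C0 + S') ^ 2 := by positivity
        have k3 : S' * (1 + S') * (C0 + S) ^ 2 ≤ (r * (C0 + S')) ^ 2 * (C0 + S) ^ 2 :=
          mul_le_mul_of_nonneg_right h2 (sq_nonneg _)
        have k4 : S * (1 + S) * (C0 + S') ^ 2 ≤ (r * (C0 + S)) ^ 2 * (C0 + S') ^ 2 := by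
          have e : (r * (C0 + S')) ^ 2 * (C0 + S) ^ 2 = (r * (C0 + S)) ^ 2 * (C0 + S') ^ 2 := by
            ring
          linarith
        exact le_of_mul_le_mul_right k4 hp
      have k5 : Real.sinh (Real.pi * η) * Real.cosh (Real.pi * η) ≤ r * (C0 + S) := by
        refine abs_le_of_sq_le_sq' (by rw [hsc]; exact k2) (by positivity) |>.2
      rw [← hS]
      have : Real.sinh (Real.pi * η) * Real.cosh (Real.pi * η) / (C0 + S) ≤ r := by
        rw [div_le_iff₀ (by linarith)]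
        exact k5
      linarith
  have h3 := hm (left_mem_Icc.2 hh') (right_mem_Icc.2 hh') hh'
  simp only at h3
  rw [Real.log_div (by positivity) (by positivity)]
  linarith

/-- `D5(-x)` for `0 ≤ x ≤ 2/5`. -/
theorem D5_left {s sl sh u0 b b2 x Cu : ℝ} (hsl : 0 ≤ sl) (h1 : sl ≤ s) (h2 : s ≤ sh) (hu : 0 ≤ u0)
    (hu1 : u0 < 1 / 2) (hb : 0 ≤ b) (hbu : b ≤ u0) (hbb : b ≤ b2) (hbx : b2 ≤ x) (hx : x ≤ 2 / 5)
    (hC : Sn (1 / 2 + u0) ≤ Cu) (hC' : Cu ≤ Sn (1 / 2 + b)) (hC2 : Sn (1 / 2 + b2) ≤ Cu) :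
    2 * (∫ t in (1 / 2 : ℝ)..(1 / 2 + b), (Lq sh t - Real.log (4 * (Cu + sh)) / 2)) +
      (b2 - b) * (Lq sl (1 / 2 + b2) - Real.log (4 * (Cu + sl)) / 2) +
      (∫ t in (1 / 2 + b2)..(1 / 2 + x), (Lq sl t - Real.log (4 * (Cu + sl)) / 2)) ≤
      -Dq s (1 / 2 + u0) (1 / 2 - x) := by
  have hs : 0 ≤ s := hsl.trans h1
  have hsh : 0 ≤ sh := hs.trans h2
  have hp0 : 0 < Sn (1 / 2 + u0) := Sn_pos (by linarith) (by linarith)
  have hCu : 0 < Cu := hp0.trans_le hC
  obtain ⟨c, hc⟩ : ∃ c, c = Real.log (4 * (Cu + s)) / 2 := ⟨_, rfl⟩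
  have hl0 : Lq s (1 / 2 + u0) ≤ c := by
    rw [hc]
    exact lq_le_c (by linarith) hC
  have i1 : ∀ a d, IntervalIntegrable (fun t => Lq s t - Lq s (1 / 2 + u0)) volume a d :=
    fun a d => (Lq_int hs a d).sub (icst _ _ _)
  have i2 : ∀ a d, IntervalIntegrable (fun t => Lq s t - c) volume a d :=
    fun a d => (Lq_int hs a d).sub (icst _ _ _)
  -- reflection
  have e1 : ∫ t in (1 / 2 - x)..(1 / 2), (Lq s t - Lq s (1 / 2 + u0)) =
      ∫ t in (1 / 2 : ℝ)..(1 / 2 + x), (Lq s t - Lq s (1 / 2 + u0)) := by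
    have k := intervalIntegral.integral_comp_sub_left
      (fun t => Lq s t - Lq s (1 / 2 + u0)) (a := 1 / 2) (b := 1 / 2 + x) (1 : ℝ)
    rw [show (1 : ℝ) - (1 / 2 + x) = 1 / 2 - x by ring, show (1 : ℝ) - 1 / 2 = 1 / 2 by norm_num]
      at k
    rw [← k]
    refine intervalIntegral.integral_congr fun t _ => ?_
    rw [Lq_eq s (1 - t), Sn_one_sub, ← Lq_eq]
  have e2 : -Dq s (1 / 2 + u0) (1 / 2 - x) =
      (∫ t in (1 / 2 : ℝ)..(1 / 2 + x), (Lq s t - Lq s (1 / 2 + u0))) +
      ∫ t in (1 / 2 : ℝ)..(1 / 2 + u0), (Lq s t - Lq s (1 / 2 + u0)) := by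
    rw [d5_eq, ← e1]
    exact (intervalIntegral.integral_add_adjacent_intervals (i1 _ _) (i1 _ _)).symm
  -- the right part
  have e3 : ∫ t in (1 / 2 : ℝ)..(1 / 2 + b), (Lq s t - c) ≤
      ∫ t in (1 / 2 : ℝ)..(1 / 2 + u0), (Lq s t - Lq s (1 / 2 + u0)) := by
    rw [← intervalIntegral.integral_add_adjacent_intervals (i1 (1 / 2) (1 / 2 + b))
      (i1 (1 / 2 + b) (1 / 2 + u0))]
    have k1 : ∫ t in (1 / 2 : ℝ)..(1 / 2 + b), (Lq s t - c) ≤
        ∫ t in (1 / 2 : ℝ)..(1 / 2 + b), (Lq s t - Lq s (1 / 2 + u0)) :=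
      dI_mono (by linarith) (i2 _ _) (i1 _ _) fun t _ _ _ => by linarith
    have k2 : 0 ≤ ∫ t in (1 / 2 + b)..(1 / 2 + u0), (Lq s t - Lq s (1 / 2 + u0)) := by
      refine dI_nonneg (by linarith) fun t _ h3 h4 => ?_
      have := lq_le (s := s) (a := 1 / 2 + u0) (b := t) (by linarith) (by
        have := sn_in (u := u0) (t := t - 1 / 2) (abs_le.2 ⟨by linarith, by linarith⟩) hu1.le
        rwa [show 1 / 2 + (t - 1 / 2) = t by ring] at this)
      linarith
    linarith
  have e4 : (∫ t in (1 / 2 : ℝ)..(1 / 2 + b), (Lq s t - c)) +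
      (∫ t in (1 / 2 + b)..(1 / 2 + b2), (Lq s t - c)) +
      (∫ t in (1 / 2 + b2)..(1 / 2 + x), (Lq s t - c)) ≤
      ∫ t in (1 / 2 : ℝ)..(1 / 2 + x), (Lq s t - Lq s (1 / 2 + u0)) := by
    rw [intervalIntegral.integral_add_adjacent_intervals (i2 _ _) (i2 _ _),
      intervalIntegral.integral_add_adjacent_intervals (i2 _ _) (i2 _ _)]
    exact dI_mono (by linarith) (i2 _ _) (i1 _ _) fun t _ _ _ => by linarith
  -- the three comparisons
  have k1 : ∫ t in (1 / 2 : ℝ)..(1 / 2 + b), (Lq sh t - Real.log (4 * (Cu + sh)) / 2) ≤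
      ∫ t in (1 / 2 : ℝ)..(1 / 2 + b), (Lq s t - c) := by
    refine dI_mono (by linarith) ((Lq_int hsh _ _).sub (icst _ _ _)) (i2 _ _) fun t _ h3 h4 => ?_
    have h5 : Cu ≤ Sn t := by
      refine hC'.trans ?_
      have := sn_in (u := b) (t := t - 1 / 2) (abs_le.2 ⟨by linarith, by linarith⟩) (by linarith)
      rwa [show 1 / 2 + (t - 1 / 2) = t by ring] at this
    have := rat (S := Sn t) (C := Cu) (s := s) (s' := sh) (by linarith) h5 h2
    rw [Lq_eq, Lq_eq, hc]
    linarith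
  have low : ∀ t, b2 ≤ t - 1 / 2 → t - 1 / 2 ≤ 2 / 5 →
      Lq sl t - Real.log (4 * (Cu + sl)) / 2 ≤ Lq s t - c := by
    intro t h3 h4
    have h5 : Sn t ≤ Cu := by
      refine le_trans ?_ hC2
      have := sn_in (u := t - 1 / 2) (t := b2) (by rw [abs_of_nonneg (by linarith)]; exact h3)
        (by linarith)
      rwa [show 1 / 2 + (t - 1 / 2) = t by ring] at this
    have h6 : 0 < Sn t := Sn_pos (by linarith) (by linarith)
    have := rat (S := Cu) (C := Sn t) (s := sl) (s' := s) (by linarith) h5 h1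
    rw [Lq_eq, Lq_eq, hc]
    linarith
  have k2 : (b2 - b) * (Lq sl (1 / 2 + b2) - Real.log (4 * (Cu + sl)) / 2) ≤
      ∫ t in (1 / 2 + b)..(1 / 2 + b2), (Lq s t - c) := by
    have e : (b2 - b) * (Lq sl (1 / 2 + b2) - Real.log (4 * (Cu + sl)) / 2) =
        ∫ _t in (1 / 2 + b)..(1 / 2 + b2), (Lq sl (1 / 2 + b2) - Real.log (4 * (Cu + sl)) / 2) := by
      rw [intervalIntegral.integral_const, smul_eq_mul]
      ring
    rw [e]
    refine dI_mono (by linarith) (icst _ _ _) (i2 _ _) fun t _ h3 h4 => ?_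
    have h5 := low (1 / 2 + b2) (by linarith) (by linarith)
    have h6 : Sn (1 / 2 + b2) ≤ Sn t := by
      have := sn_in (u := b2) (t := t - 1 / 2) (abs_le.2 ⟨by linarith, by linarith⟩) (by linarith)
      rwa [show 1 / 2 + (t - 1 / 2) = t by ring] at this
    have h7 : 0 < Sn (1 / 2 + b2) := Sn_pos (by linarith) (by linarith)
    have := lq_le (s := s) (by linarith) h6
    linarith
  have k3 : ∫ t in (1 / 2 + b2)..(1 / 2 + x), (Lq sl t - Real.log (4 * (Cu + sl)) / 2) ≤
      ∫ t in (1 / 2 + b2)..(1 / 2 + x), (Lq s t - c) :=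
    dI_mono (by linarith) ((Lq_int hsl _ _).sub (icst _ _ _)) (i2 _ _)
      fun t _ h3 h4 => low t (by linarith) (by linarith)
  rw [e2]
  linarith

/-! ### The three zones -/

/-- The first zone. -/
theorem D5_zone1 {s u0 u : ℝ} (hs : 0 ≤ s) (hu : 0 ≤ u0) (hu1 : u0 < 1 / 2) (h1 : -u0 ≤ u)
    (h2 : u ≤ 1 - u0) : 0 ≤ -Dq s (1 / 2 + u0) (1 / 2 + u) := by
  have hp0 : 0 < Sn (1 / 2 + u0) := Sn_pos (by linarith) (by linarith)
  rw [d5_eq]
  rcases le_total u u0 with h | h
  · refine dI_nonneg (by linarith) fun t _ h3 h4 => ?_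
    have := lq_le (s := s) (a := 1 / 2 + u0) (b := t) (by linarith) (by
      have := sn_in (u := u0) (t := t - 1 / 2) (abs_le.2 ⟨by linarith, by linarith⟩) hu1.le
      rwa [show 1 / 2 + (t - 1 / 2) = t by ring] at this)
    linarith
  · rw [intervalIntegral.integral_symm, ← intervalIntegral.integral_neg]
    refine dI_nonneg (by linarith) fun t h0 h3 h4 => ?_
    have := sn_ne h0
    have := lq_le (s := s) (a := t) (b := 1 / 2 + u0) (by linarith) (by
      have := sn_out (u := u0) (t := t - 1 / 2) hu (by linarith) (by linarith)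
      rwa [show 1 / 2 + (t - 1 / 2) = t by ring] at this)
    linarith

/-- The second zone. -/
theorem D5_zone2 {s u0 u v : ℝ} (hs : 0 ≤ s) (hu : 0 ≤ u0) (hu1 : u0 < 1 / 2) (h1 : 1 - u0 ≤ u)
    (h2 : u ≤ v) (h3 : v ≤ 1 + u0) :
    -Dq s (1 / 2 + u0) (1 / 2 + v) ≤ -Dq s (1 / 2 + u0) (1 / 2 + u) := by
  have hp0 : 0 < Sn (1 / 2 + u0) := Sn_pos (by linarith) (by linarith)
  have e := Dq_sub hs (1 / 2 + u0) (1 / 2 + u) (1 / 2 + v)
  have k := dI_nonneg (f := fun t => Lq s t - Lq s (1 / 2 + u0)) (a := 1 / 2 + u) (b := 1 / 2 + v)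
    (by linarith) (by
      intro t _ h4 h5
      have := lq_le (s := s) (a := 1 / 2 + u0) (b := t) (by linarith) (by
        have := sn_in (u := u0) (t := t - 3 / 2) (abs_le.2 ⟨by linarith, by linarith⟩) hu1.le
        rw [show 1 / 2 + (t - 3 / 2) = t - 1 by ring] at this
        rwa [← sn_per (t - 1), sub_add_cancel] at this)
      linarith)
  linarith

/-- The zone on the left. -/
theorem D5_zone0 {s u0 u v : ℝ} (hs : 0 ≤ s) (hu : 0 ≤ u0) (hu1 : u0 < 1 / 2)
    (h1 : -(1 / 2) ≤ u) (h2 : u ≤ v) (h3 : v ≤ -u0) :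
    -Dq s (1 / 2 + u0) (1 / 2 + u) ≤ -Dq s (1 / 2 + u0) (1 / 2 + v) := by
  have e := Dq_sub hs (1 / 2 + u0) (1 / 2 + u) (1 / 2 + v)
  have k := dI_nonneg (f := fun t => -(Lq s t - Lq s (1 / 2 + u0))) (a := 1 / 2 + u)
    (b := 1 / 2 + v) (by linarith) (by
      intro t h0 h4 h5
      have := sn_ne h0
      have := lq_le (s := s) (a := t) (b := 1 / 2 + u0) (by linarith) (by
        have := sn_in (u := 1 / 2 - t) (t := u0) (by rw [abs_of_nonneg hu]; linarith)
          (by linarith)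
        rw [← sn_neg (1 / 2 - t)] at this
        rwa [show 1 / 2 - (1 / 2 - t) = t by ring] at this)
      linarith)
  rw [intervalIntegral.integral_neg] at k
  linarith

end Pool.Agent.S5.Y3
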