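import Pool.Agent.S5.I.C2c

/-!
# Closed vertices with two half twists: no other critical points

The defect is positive on `[0, 1/2]²` away from `(p0, q0)` if no other point satisfies the
first-order conditions of a minimum.
-/

set_option autoImplicit false

namespace Pool.Agent.S5.C2

open MeasureTheory Filter Topology Set

theorem SS_continuous {s1 s2 s3 : ℝ} (hs1 : 0 ≤ s1) (hs2 : 0 ≤ s2) (hs3 : 0 ≤ s3) (p0 q0 : ℝ) :
    Continuous (fun z : ℝ × ℝ => SS s1 s2 s3 p0 q0 z.1 z.2) := by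
  have c1 : Continuous (fun z : ℝ × ℝ => Dq s1 p0 z.1) := (Dq_continuous hs1 p0).comp continuous_fst
  have c2 : Continuous (fun z : ℝ × ℝ => Dq s2 q0 z.2) := (Dq_continuous hs2 q0).comp continuous_snd
  have c3 : Continuous (fun z : ℝ × ℝ => Dq s3 (p0 + q0) (z.1 + z.2)) :=
    (Dq_continuous hs3 (p0 + q0)).comp (continuous_fst.add continuous_snd)
  unfold SS
  exact ((c1.const_mul 2).add (c2.const_mul 2)).sub c3

theorem SS_self (s1 s2 s3 p0 q0 : ℝ) : SS s1 s2 s3 p0 q0 p0 q0 = 0 := by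
  unfold SS
  rw [Dq_self, Dq_self, Dq_self]
  ring

theorem SS_hasDerivAt {s1 s2 s3 p0 q0 p q : ℝ} (hs1 : 0 ≤ s1) (hs3 : 0 ≤ s3)
    (h1 : 0 < Sn p + s1) (h3 : 0 < Sn (p + q) + s3) :
    HasDerivAt (fun t => SS s1 s2 s3 p0 q0 t q)
      (2 * (Lq s1 p - Lq s1 p0) - (Lq s3 (p + q) - Lq s3 (p0 + q0))) p := by
  have d1 := (Dq_hasDerivAt hs1 p0 (x := p) h1).const_mul 2
  have d3 : HasDerivAt (fun t => Dq s3 (p0 + q0) (t + q)) (Lq s3 (p + q) - Lq s3 (p0 + q0)) p := by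
    have h := Dq_hasDerivAt hs3 (p0 + q0) (x := p + q) h3
    exact HasDerivAt.comp_add_const p q h
  have h := (d1.add_const (2 * Dq s2 q0 q)).sub d3
  exact h

/-- The direction condition, strict. -/
theorem dir_lt {s s3 t x p0 P0 : ℝ} (h0 : 0 < Sn t + s) (hA : 0 < Sn p0 + s) (h3 : 0 < Sn x + s3)
    (hB : 0 < Sn P0 + s3) (h : (Sn t + s) ^ 2 * (Sn P0 + s3) < (Sn p0 + s) ^ 2 * (Sn x + s3)) :
    2 * (Lq s t - Lq s p0) < Lq s3 x - Lq s3 P0 := by
  simp only [Lq_eq]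
  have e1 : Real.log (4 * (Sn t + s)) = Real.log 4 + Real.log (Sn t + s) :=
    Real.log_mul (by norm_num) h0.ne'
  have e2 : Real.log (4 * (Sn p0 + s)) = Real.log 4 + Real.log (Sn p0 + s) :=
    Real.log_mul (by norm_num) hA.ne'
  have e3 : Real.log (4 * (Sn x + s3)) = Real.log 4 + Real.log (Sn x + s3) :=
    Real.log_mul (by norm_num) h3.ne'
  have e4 : Real.log (4 * (Sn P0 + s3)) = Real.log 4 + Real.log (Sn P0 + s3) :=
    Real.log_mul (by norm_num) hB.ne'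
  have h5 := Real.log_lt_log (by positivity) h
  rw [Real.log_mul (by positivity) hB.ne', Real.log_mul (by positivity) h3.ne', Real.log_pow,
    Real.log_pow] at h5
  push_cast at h5
  rw [e1, e2, e3, e4]
  linarith

/-- The direction condition, strict, other sign. -/
theorem dir_gt {s s3 t x p0 P0 : ℝ} (h0 : 0 < Sn t + s) (hA : 0 < Sn p0 + s) (h3 : 0 < Sn x + s3)
    (hB : 0 < Sn P0 + s3) (h : (Sn p0 + s) ^ 2 * (Sn x + s3) < (Sn t + s) ^ 2 * (Sn P0 + s3)) :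
    Lq s3 x - Lq s3 P0 < 2 * (Lq s t - Lq s p0) := by
  simp only [Lq_eq]
  have e1 : Real.log (4 * (Sn t + s)) = Real.log 4 + Real.log (Sn t + s) :=
    Real.log_mul (by norm_num) h0.ne'
  have e2 : Real.log (4 * (Sn p0 + s)) = Real.log 4 + Real.log (Sn p0 + s) :=
    Real.log_mul (by norm_num) hA.ne'
  have e3 : Real.log (4 * (Sn x + s3)) = Real.log 4 + Real.log (Sn x + s3) :=
    Real.log_mul (by norm_num) h3.ne'
  have e4 : Real.log (4 * (Sn P0 + s3)) = Real.log 4 + Real.log (Sn P0 + s3) :=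
    Real.log_mul (by norm_num) hB.ne'
  have h5 := Real.log_lt_log (by positivity) h
  rw [Real.log_mul (by positivity) hB.ne', Real.log_mul (by positivity) h3.ne', Real.log_pow,
    Real.log_pow] at h5
  push_cast at h5
  rw [e1, e2, e3, e4]
  linarith

theorem Sn_continuous : Continuous Sn := by
  unfold Sn
  fun_prop

/-- Strict decrease in the first variable. -/
theorem SS_lt_of_dir {s1 s2 s3 p0 q0 p p' q : ℝ} (hs1 : 0 ≤ s1) (hs3 : 0 ≤ s3)
    (hp0 : 0 < p0) (hp1 : p0 < 1 / 2) (hq0 : 0 < q0) (hq1 : q0 < 1 / 2)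
    (h0 : 0 ≤ p) (hp : p < p') (h1 : p' ≤ 1 / 2) (hq : 0 ≤ q) (hq' : q ≤ 1 / 2)
    (h : ∀ t ∈ Ioo p p', (Sn t + s1) ^ 2 * (Sn (p0 + q0) + s3) <
      (Sn p0 + s1) ^ 2 * (Sn (t + q) + s3)) :
    SS s1 s2 s3 p0 q0 p' q < SS s1 s2 s3 p0 q0 p q := by
  have hA1 : 0 < Sn p0 + s1 := by
    have := Sn_pos (t := p0) (by linarith) (by linarith)
    linarith
  have hB : 0 < Sn (p0 + q0) + s3 := by
    have := Sn_pos (t := p0 + q0) (by linarith) (by linarith)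
    linarith
  have hanti : StrictAntiOn (fun t => SS s1 s2 s3 p0 q0 t q) (Icc p p') := by
    apply strictAntiOn_of_deriv_neg (convex_Icc _ _)
    · have := SS_continuous (s2 := 0) hs1 le_rfl hs3 p0 q0
      have c1 : Continuous (fun t => Dq s1 p0 t) := Dq_continuous hs1 p0
      have c3 : Continuous (fun t => Dq s3 (p0 + q0) (t + q)) :=
        (Dq_continuous hs3 (p0 + q0)).comp (continuous_id.add continuous_const)
      unfold SS
      exact (((c1.const_mul 2).add continuous_const).sub c3).continuousOn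
    · intro t ht
      rw [interior_Icc] at ht
      have ht0 : 0 < Sn t + s1 := by
        have := Sn_pos (t := t) (by linarith [ht.1]) (by linarith [ht.2])
        linarith
      have ht3 : 0 < Sn (t + q) + s3 := by
        have := Sn_pos (t := t + q) (by linarith [ht.1]) (by linarith [ht.2])
        linarith
      rw [(SS_hasDerivAt (s2 := s2) (p0 := p0) (q0 := q0) hs1 hs3 ht0 ht3).deriv]
      have := dir_lt ht0 hA1 ht3 hB (h t ht)
      linarith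
  exact hanti ⟨le_rfl, hp.le⟩ ⟨hp.le, le_rfl⟩ hp

/-- Strict increase in the first variable. -/
theorem SS_gt_of_dir {s1 s2 s3 p0 q0 p p' q : ℝ} (hs1 : 0 ≤ s1) (hs3 : 0 ≤ s3)
    (hp0 : 0 < p0) (hp1 : p0 < 1 / 2) (hq0 : 0 < q0) (hq1 : q0 < 1 / 2)
    (h0 : 0 ≤ p) (hp : p < p') (h1 : p' ≤ 1 / 2) (hq : 0 ≤ q) (hq' : q ≤ 1 / 2)
    (h : ∀ t ∈ Ioo p p', (Sn p0 + s1) ^ 2 * (Sn (t + q) + s3) <
      (Sn t + s1) ^ 2 * (Sn (p0 + q0) + s3)) :
    SS s1 s2 s3 p0 q0 p q < SS s1 s2 s3 p0 q0 p' q := by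
  have hA1 : 0 < Sn p0 + s1 := by
    have := Sn_pos (t := p0) (by linarith) (by linarith)
    linarith
  have hB : 0 < Sn (p0 + q0) + s3 := by
    have := Sn_pos (t := p0 + q0) (by linarith) (by linarith)
    linarith
  have hanti : StrictMonoOn (fun t => SS s1 s2 s3 p0 q0 t q) (Icc p p') := by
    apply strictMonoOn_of_deriv_pos (convex_Icc _ _)
    · have c1 : Continuous (fun t => Dq s1 p0 t) := Dq_continuous hs1 p0
      have c3 : Continuous (fun t => Dq s3 (p0 + q0) (t + q)) :=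
        (Dq_continuous hs3 (p0 + q0)).comp (continuous_id.add continuous_const)
      unfold SS
      exact (((c1.const_mul 2).add continuous_const).sub c3).continuousOn
    · intro t ht
      rw [interior_Icc] at ht
      have ht0 : 0 < Sn t + s1 := by
        have := Sn_pos (t := t) (by linarith [ht.1]) (by linarith [ht.2])
        linarith
      have ht3 : 0 < Sn (t + q) + s3 := by
        have := Sn_pos (t := t + q) (by linarith [ht.1]) (by linarith [ht.2])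
        linarith
      rw [(SS_hasDerivAt (s2 := s2) (p0 := p0) (q0 := q0) hs1 hs3 ht0 ht3).deriv]
      have := dir_gt ht0 hA1 ht3 hB (h t ht)
      linarith
  exact hanti ⟨le_rfl, hp.le⟩ ⟨hp.le, le_rfl⟩ hp

/-- First-order condition at a minimum, from the right. -/
theorem foc_right {s1 s2 s3 p0 q0 p q : ℝ} (hs1 : 0 ≤ s1) (hs3 : 0 ≤ s3)
    (hp0 : 0 < p0) (hp1 : p0 < 1 / 2) (hq0 : 0 < q0) (hq1 : q0 < 1 / 2)
    (h0 : 0 ≤ p) (h1 : p < 1 / 2) (hq : 0 ≤ q) (hq' : q ≤ 1 / 2)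
    (hm : ∀ p' ∈ Icc (0 : ℝ) (1 / 2), SS s1 s2 s3 p0 q0 p q ≤ SS s1 s2 s3 p0 q0 p' q) :
    (Sn p0 + s1) ^ 2 * (Sn (p + q) + s3) ≤ (Sn p + s1) ^ 2 * (Sn (p0 + q0) + s3) := by
  by_contra hc
  rw [not_le] at hc
  have hcont : ContinuousAt (fun t => (Sn p0 + s1) ^ 2 * (Sn (t + q) + s3) -
      (Sn t + s1) ^ 2 * (Sn (p0 + q0) + s3)) p := by
    have c1 := Sn_continuous
    have c2 : Continuous (fun t => Sn (t + q)) := Sn_continuous.comp (by fun_prop)
    fun_prop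
  have hev := hcont.eventually (lt_mem_nhds (show 0 < (Sn p0 + s1) ^ 2 * (Sn (p + q) + s3) -
      (Sn p + s1) ^ 2 * (Sn (p0 + q0) + s3) by linarith))
  obtain ⟨ε, hε, hb⟩ := Metric.eventually_nhds_iff.1 hev
  set p' := min (p + ε) (1 / 2) with hp'
  have h2 : p < p' := lt_min (by linarith) h1
  have h3 := SS_lt_of_dir (s2 := s2) hs1 hs3 hp0 hp1 hq0 hq1 h0 h2 (min_le_right _ _) hq hq' (by
    intro t ht
    have h4 : dist t p < ε := by
      rw [Real.dist_eq, abs_of_pos (by linarith [ht.1])]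
      have := min_le_left (p + ε) (1 / 2)
      linarith [ht.2]
    have := hb h4
    linarith)
  have h5 := hm p' ⟨by linarith, min_le_right _ _⟩
  linarith

/-- First-order condition at a minimum, from the left. -/
theorem foc_left {s1 s2 s3 p0 q0 p q : ℝ} (hs1 : 0 ≤ s1) (hs3 : 0 ≤ s3)
    (hp0 : 0 < p0) (hp1 : p0 < 1 / 2) (hq0 : 0 < q0) (hq1 : q0 < 1 / 2)
    (h0 : 0 < p) (h1 : p ≤ 1 / 2) (hq : 0 ≤ q) (hq' : q ≤ 1 / 2)
    (hm : ∀ p' ∈ Icc (0 : ℝ) (1 / 2), SS s1 s2 s3 p0 q0 p q ≤ SS s1 s2 s3 p0 q0 p' q) :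
    (Sn p + s1) ^ 2 * (Sn (p0 + q0) + s3) ≤ (Sn p0 + s1) ^ 2 * (Sn (p + q) + s3) := by
  by_contra hc
  rw [not_le] at hc
  have hcont : ContinuousAt (fun t => (Sn t + s1) ^ 2 * (Sn (p0 + q0) + s3) -
      (Sn p0 + s1) ^ 2 * (Sn (t + q) + s3)) p := by
    have c1 := Sn_continuous
    have c2 : Continuous (fun t => Sn (t + q)) := Sn_continuous.comp (by fun_prop)
    fun_prop
  have hev := hcont.eventually (lt_mem_nhds (show 0 < (Sn p + s1) ^ 2 * (Sn (p0 + q0) + s3) -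
      (Sn p0 + s1) ^ 2 * (Sn (p + q) + s3) by linarith))
  obtain ⟨ε, hε, hb⟩ := Metric.eventually_nhds_iff.1 hev
  set p' := max (p - ε) 0 with hp'
  have h2 : p' < p := max_lt (by linarith) h0
  have h3 := SS_gt_of_dir (s2 := s2) hs1 hs3 hp0 hp1 hq0 hq1 (le_max_right _ _) h2 h1 hq hq' (by
    intro t ht
    have h4 : dist t p < ε := by
      rw [Real.dist_eq, abs_of_neg (by linarith [ht.2])]
      have := le_max_left (p - ε) 0
      linarith [ht.1]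
    have := hb h4
    linarith)
  have h5 := hm p' ⟨le_max_right _ _, by linarith⟩
  linarith

/-- **Positivity from the absence of other critical points.** -/
theorem SS_of_foc {s1 s2 s3 p0 q0 h : ℝ} (hs1 : 0 ≤ s1) (hs2 : 0 ≤ s2) (hs3 : 0 ≤ s3)
    (hp0 : 0 < p0) (hp1 : p0 < 1 / 2) (hq0 : 0 < q0) (hq1 : q0 < 1 / 2)
    (k1 : s1 * Real.cos (Real.pi * (p0 + q0)) < Real.sin (Real.pi * p0) * Real.sin (Real.pi * q0))
    (k2 : s2 * Real.cos (Real.pi * (p0 + q0)) < Real.sin (Real.pi * p0) * Real.sin (Real.pi * q0))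
    (hC : ∀ p q : ℝ, 0 ≤ p → 0 ≤ q → p + q < h → 0 < SS s1 s2 s3 p0 q0 p q)
    (hN : ∀ p ∈ Icc (0 : ℝ) (1 / 2), ∀ q ∈ Icc (0 : ℝ) (1 / 2), h ≤ p + q →
      (p < 1 / 2 →
        (Sn p0 + s1) ^ 2 * (Sn (p + q) + s3) ≤ (Sn p + s1) ^ 2 * (Sn (p0 + q0) + s3)) →
      (0 < p → (Sn p + s1) ^ 2 * (Sn (p0 + q0) + s3) ≤ (Sn p0 + s1) ^ 2 * (Sn (p + q) + s3)) →
      (q < 1 / 2 →
        (Sn q0 + s2) ^ 2 * (Sn (p + q) + s3) ≤ (Sn q + s2) ^ 2 * (Sn (p0 + q0) + s3)) →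
      (0 < q → (Sn q + s2) ^ 2 * (Sn (p0 + q0) + s3) ≤ (Sn q0 + s2) ^ 2 * (Sn (p + q) + s3)) →
      p = p0 ∧ q = q0) :
    ∃ c > 0, ∀ p ∈ Icc (0 : ℝ) (1 / 2), ∀ q ∈ Icc (0 : ℝ) (1 / 2),
      c * ((p - p0) ^ 2 + (q - q0) ^ 2) ≤ SS s1 s2 s3 p0 q0 p q := by
  have hcont := SS_continuous hs1 hs2 hs3 p0 q0
  have hcomp : IsCompact (Icc (0 : ℝ) (1 / 2) ×ˢ Icc (0 : ℝ) (1 / 2)) :=
    isCompact_Icc.prod isCompact_Icc
  -- a point where the value is at most zero and minimal is the critical point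
  have hcrit : ∀ z ∈ Icc (0 : ℝ) (1 / 2) ×ˢ Icc (0 : ℝ) (1 / 2),
      (∀ w ∈ Icc (0 : ℝ) (1 / 2) ×ˢ Icc (0 : ℝ) (1 / 2),
        SS s1 s2 s3 p0 q0 z.1 z.2 ≤ SS s1 s2 s3 p0 q0 w.1 w.2) → z = (p0, q0) := by
    rintro ⟨p, q⟩ ⟨hp, hq⟩ hm
    simp only at hp hq hm
    have h0 : SS s1 s2 s3 p0 q0 p q ≤ 0 := by
      have := hm (p0, q0) ⟨⟨hp0.le, hp1.le⟩, ⟨hq0.le, hq1.le⟩⟩
      rwa [SS_self] at this
    have hh : h ≤ p + q := by
      by_contra hc
      have := hC p q hp.1 hq.1 (not_le.1 hc)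
      linarith
    have m1 : ∀ p' ∈ Icc (0 : ℝ) (1 / 2), SS s1 s2 s3 p0 q0 p q ≤ SS s1 s2 s3 p0 q0 p' q :=
      fun p' hp' => hm (p', q) ⟨hp', hq⟩
    have m2 : ∀ q' ∈ Icc (0 : ℝ) (1 / 2), SS s2 s1 s3 q0 p0 q p ≤ SS s2 s1 s3 q0 p0 q' p := by
      intro q' hq'
      rw [SS_swap s2 s1 s3 q0 p0 q p, SS_swap s2 s1 s3 q0 p0 q' p]
      exact hm (p, q') ⟨hp, hq'⟩
    have h1 := hN p hp q hq hh
      (fun h => foc_right hs1 hs3 hp0 hp1 hq0 hq1 hp.1 h hq.1 hq.2 m1)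
      (fun h => foc_left hs1 hs3 hp0 hp1 hq0 hq1 h hp.2 hq.1 hq.2 m1)
      (fun h => by
        have := foc_right hs2 hs3 hq0 hq1 hp0 hp1 hq.1 h hp.1 hp.2 m2
        rwa [add_comm q p, add_comm q0 p0] at this)
      (fun h => by
        have := foc_left hs2 hs3 hq0 hq1 hp0 hp1 h hq.2 hp.1 hp.2 m2
        rwa [add_comm q p, add_comm q0 p0] at this)
    rw [h1.1, h1.2]
  have hpos : ∀ z ∈ Icc (0 : ℝ) (1 / 2) ×ˢ Icc (0 : ℝ) (1 / 2), z ≠ (p0, q0) →
      0 < SS s1 s2 s3 p0 q0 z.1 z.2 := by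
    obtain ⟨z0, hz0, hm⟩ := hcomp.exists_isMinOn ⟨(0, 0), by simp, by simp⟩ hcont.continuousOn
    have e0 := hcrit z0 hz0 (fun w hw => hm hw)
    intro z hz hne
    have h0 : ∀ w ∈ Icc (0 : ℝ) (1 / 2) ×ˢ Icc (0 : ℝ) (1 / 2), 0 ≤ SS s1 s2 s3 p0 q0 w.1 w.2 := by
      intro w hw
      have h1 := hm hw
      rw [e0] at h1
      simp only [mem_setOf_eq, SS_self] at h1
      exact h1
    rcases (h0 z hz).lt_or_eq with h1 | h1
    · exact h1
    · exfalso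
      apply hne
      apply hcrit z hz
      intro w hw
      rw [← h1]
      exact h0 w hw
  -- the neighbourhood of the critical point
  obtain ⟨a, b, ha, hb, hap, hbq, ka, kb⟩ : ∃ a b : ℝ, 0 < a ∧ 0 < b ∧ a < p0 ∧ b < q0 ∧
      s1 * Real.cos (Real.pi * (a + b)) < Real.sin (Real.pi * a) * Real.sin (Real.pi * b) ∧
      s2 * Real.cos (Real.pi * (a + b)) < Real.sin (Real.pi * a) * Real.sin (Real.pi * b) := by
    have hc : ∀ s : ℝ, s * Real.cos (Real.pi * (p0 + q0)) <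
        Real.sin (Real.pi * p0) * Real.sin (Real.pi * q0) → ∀ᶠ τ in 𝓝 (0 : ℝ),
        s * Real.cos (Real.pi * (p0 - τ + (q0 - τ))) <
          Real.sin (Real.pi * (p0 - τ)) * Real.sin (Real.pi * (q0 - τ)) := by
      intro s hs
      have c1 : ContinuousAt (fun τ : ℝ => s * Real.cos (Real.pi * (p0 - τ + (q0 - τ)))) 0 := by
        fun_prop
      have c2 : ContinuousAt (fun τ : ℝ => Real.sin (Real.pi * (p0 - τ)) *
          Real.sin (Real.pi * (q0 - τ))) 0 := by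
        fun_prop
      apply c1.eventually_lt c2
      simpa using hs
    have h3 : ∀ᶠ τ in 𝓝[>] (0 : ℝ), 0 < τ ∧ τ < min p0 q0 := by
      have := Ioo_mem_nhdsGT (lt_min hp0 hq0)
      filter_upwards [this] with τ hτ
      exact ⟨hτ.1, hτ.2⟩
    obtain ⟨τ, h4, h5, h6⟩ := (h3.and ((((hc s1 k1).and (hc s2 k2)).filter_mono
      nhdsWithin_le_nhds))).exists
    have h7 := min_le_left p0 q0
    have h8 := min_le_right p0 q0
    exact ⟨p0 - τ, q0 - τ, by linarith [h4.2], by linarith [h4.2], by linarith [h4.1],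
      by linarith [h4.1], h5, h6⟩
  obtain ⟨c1, hc1, hK⟩ := SS_K hs1 hs2 hs3 ha hb hap.le hbq.le hp1 hq1 ka kb
  -- the rest
  set R : Set (ℝ × ℝ) := (Icc (0 : ℝ) (1 / 2) ×ˢ Icc (0 : ℝ) (1 / 2)) ∩
    {z | z.1 ≤ a ∨ z.2 ≤ b} with hR
  have hRc : IsCompact R := by
    apply hcomp.inter_right
    apply IsClosed.union
    · exact isClosed_le continuous_fst continuous_const
    · exact isClosed_le continuous_snd continuous_const
  have hRne : R.Nonempty := by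
    refine ⟨(0, 0), ⟨⟨by simp, by simp⟩, Or.inl ha.le⟩⟩
  obtain ⟨z1, hz1, hm1⟩ := hRc.exists_isMinOn hRne hcont.continuousOn
  have hv : 0 < SS s1 s2 s3 p0 q0 z1.1 z1.2 := by
    apply hpos z1 hz1.1
    intro he
    rcases hz1.2 with h1 | h1
    · rw [he] at h1
      simp only at h1
      linarith
    · rw [he] at h1
      simp only at h1
      linarith
  set v := SS s1 s2 s3 p0 q0 z1.1 z1.2 with hvdef
  refine ⟨min c1 v, lt_min hc1 hv, ?_⟩
  intro p hp q hq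
  have hd0 : 0 ≤ (p - p0) ^ 2 + (q - q0) ^ 2 := by positivity
  by_cases hin : p ≤ a ∨ q ≤ b
  · have h1 : v ≤ SS s1 s2 s3 p0 q0 p q := hm1 (a := (p, q)) ⟨⟨hp, hq⟩, hin⟩
    simp only [mem_Icc] at hp hq
    have hdist : (p - p0) ^ 2 + (q - q0) ^ 2 ≤ 1 := by
      have h1 : (p - p0) ^ 2 ≤ (1 / 2) ^ 2 := sq_le_sq' (by linarith) (by linarith)
      have h2 : (q - q0) ^ 2 ≤ (1 / 2) ^ 2 := sq_le_sq' (by linarith) (by linarith)
      linarith
    have h2 : min c1 v * ((p - p0) ^ 2 + (q - q0) ^ 2) ≤ min c1 v * 1 :=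
      mul_le_mul_of_nonneg_left hdist (lt_min hc1 hv).le
    have h3 := min_le_right c1 v
    linarith
  · rw [not_or, not_le, not_le] at hin
    have h1 := hK p ⟨hin.1.le, hp.2⟩ q ⟨hin.2.le, hq.2⟩
    have h2 : min c1 v * ((p - p0) ^ 2 + (q - q0) ^ 2) ≤ c1 * ((p - p0) ^ 2 + (q - q0) ^ 2) :=
      mul_le_mul_of_nonneg_right (min_le_left _ _) hd0
    linarith

end Pool.Agent.S5.C2
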