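import Pool.Agent.S5.I.C2f
import Pool.Agent.S5.I.C2g

/-!
# Closed vertices with two half twists: the exact criterion on the square `[0, 1/2]²`
-/

set_option autoImplicit false

namespace Pool.Agent.S5.C2

open MeasureTheory Filter Topology Set

/-- `sin² (π (p + q))` in terms of `sin² (π p)` and `sin² (π q)`. -/
theorem Sn_add {p q : ℝ} (hp : 0 ≤ p) (hp1 : p ≤ 1 / 2) (hq : 0 ≤ q) (hq1 : q ≤ 1 / 2) :
    Sn (p + q) = (√(Sn p * (1 - Sn q)) + √(Sn q * (1 - Sn p))) ^ 2 := by
  have hpi := Real.pi_pos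
  have s1 : 0 ≤ Real.sin (Real.pi * p) := Real.sin_nonneg_of_nonneg_of_le_pi (by positivity)
    (by linarith only [mul_nonneg (sub_nonneg.2 hp1) (sub_nonneg.2 hpi.le), hpi])
  have s2 : 0 ≤ Real.sin (Real.pi * q) := Real.sin_nonneg_of_nonneg_of_le_pi (by positivity)
    (by linarith only [mul_nonneg (sub_nonneg.2 hq1) (sub_nonneg.2 hpi.le), hpi])
  have c1 : 0 ≤ Real.cos (Real.pi * p) := Real.cos_nonneg_of_neg_pi_div_two_le_of_le (by linarith only [mul_nonneg (sub_nonneg.2 hp) (sub_nonneg.2 hpi.le),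
                                                                                           hpi])
    (by linarith only [mul_nonneg (sub_nonneg.2 hp1) (sub_nonneg.2 hpi.le)])
  have c2 : 0 ≤ Real.cos (Real.pi * q) := Real.cos_nonneg_of_neg_pi_div_two_le_of_le (by linarith only [mul_nonneg (sub_nonneg.2 hq) (sub_nonneg.2 hpi.le),
                                                                                           hpi])
    (by linarith only [mul_nonneg (sub_nonneg.2 hq1) (sub_nonneg.2 hpi.le)])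
  have e1 : √(Sn p * (1 - Sn q)) = Real.sin (Real.pi * p) * Real.cos (Real.pi * q) := by
    rw [← cos_sq_eq]
    unfold Sn
    rw [← mul_pow, Real.sqrt_sq (by positivity)]
  have e2 : √(Sn q * (1 - Sn p)) = Real.sin (Real.pi * q) * Real.cos (Real.pi * p) := by
    rw [← cos_sq_eq]
    unfold Sn
    rw [← mul_pow, Real.sqrt_sq (by positivity)]
  rw [e1, e2]
  unfold Sn
  rw [mul_add, Real.sin_add]
  ring

theorem Sn_inj {p q : ℝ} (hp : 0 ≤ p) (hp1 : p ≤ 1 / 2) (hq : 0 ≤ q) (hq1 : q ≤ 1 / 2)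
    (h : Sn p = Sn q) : p = q := by
  have hpi := Real.pi_pos
  have s1 : 0 ≤ Real.sin (Real.pi * p) := Real.sin_nonneg_of_nonneg_of_le_pi (by positivity)
    (by linarith only [mul_nonneg (sub_nonneg.2 hp1) (sub_nonneg.2 hpi.le), hpi])
  have s2 : 0 ≤ Real.sin (Real.pi * q) := Real.sin_nonneg_of_nonneg_of_le_pi (by positivity)
    (by linarith only [mul_nonneg (sub_nonneg.2 hq1) (sub_nonneg.2 hpi.le), hpi])
  unfold Sn at h
  have h1 : Real.sin (Real.pi * p) = Real.sin (Real.pi * q) := by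
    have := abs_eq_abs.2 (sq_eq_sq_iff_eq_or_eq_neg.1 h)
    rwa [abs_of_nonneg s1, abs_of_nonneg s2] at this
  have h2 := Real.injOn_sin (show Real.pi * p ∈ Icc (-(Real.pi / 2)) (Real.pi / 2) from
    ⟨by linarith only [mul_nonneg (sub_nonneg.2 hp) (sub_nonneg.2 hpi.le), hpi], by linarith only [mul_nonneg (sub_nonneg.2 hp1) (sub_nonneg.2 hpi.le)]⟩) (show Real.pi * q ∈ Icc (-(Real.pi / 2)) (Real.pi / 2) from
    ⟨by linarith only [mul_nonneg (sub_nonneg.2 hq) (sub_nonneg.2 hpi.le), hpi], by linarith only [mul_nonneg (sub_nonneg.2 hq1) (sub_nonneg.2 hpi.le)]⟩) h1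
  exact mul_left_cancel₀ hpi.ne' h2

theorem Sn_lt {p q : ℝ} (hp : 0 ≤ p) (hp1 : p ≤ 1 / 2) (hq : 0 ≤ q) (hq1 : q ≤ 1 / 2)
    (h : Sn p < Sn q) : p < q := by
  by_contra hc
  rw [not_lt] at hc
  have := Sn_mono hq hc hp1
  linarith only [h, this]

/-- The product for `x > 1`. -/
theorem prod_lt {a0 b0 s1 s2 x : ℝ} (ha0 : 0 < a0) (hb0 : b0 < 1) (hb0' : 0 < b0) (hs1 : 0 ≤ s1)
    (hs2 : 0 ≤ s2) (c1 : s1 * (1 - b0) ≤ (1 + s2) * a0) (hx : 1 < x) :
    ((a0 + s1) * x - s1) * (1 - ((b0 + s2) * x - s2)) < x ^ 2 * (a0 * (1 - b0)) := by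
  obtain ⟨δ, rfl⟩ : ∃ δ, x = 1 + δ := ⟨x - 1, by ring⟩
  have hδ : 0 < δ := by linarith only [hx]
  have e : (1 + δ) ^ 2 * (a0 * (1 - b0)) -
      ((a0 + s1) * (1 + δ) - s1) * (1 - ((b0 + s2) * (1 + δ) - s2)) =
      δ * ((1 + s2) * a0 - s1 * (1 - b0)) + δ ^ 2 * (a0 * (1 - b0) + (a0 + s1) * (b0 + s2)) := by
    ring
  have h1 : 0 ≤ δ * ((1 + s2) * a0 - s1 * (1 - b0)) := mul_nonneg hδ.le (by linarith only [c1])
  have h2 : 0 < δ ^ 2 * (a0 * (1 - b0) + (a0 + s1) * (b0 + s2)) := by
    have : 0 < 1 - b0 := by linarith only [hb0]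
    positivity
  linarith only [h1, h2]

/-- `x > 1` in the interior or on an upper edge. -/
theorem no_gt {a0 b0 s1 s2 s3 x a b v f1 : ℝ} (ha0 : 0 < a0) (ha1 : a0 < 1) (hb0 : 0 < b0)
    (hb1 : b0 < 1) (hs1 : 0 ≤ s1) (hs2 : 0 ≤ s2) (hs3 : 0 ≤ s3)
    (c1 : s1 * (1 - b0) ≤ (1 + s2) * a0) (c2 : s2 * (1 - a0) ≤ (1 + s1) * b0) (hx : 1 < x)
    (hf1 : f1 = √(a0 * (1 - b0)) + √(b0 * (1 - a0)))
    (ha : a = (a0 + s1) * x - s1) (hb : b = (b0 + s2) * x - s2) (haa : a ≤ 1) (hbb : b ≤ 1)
    (hv : v = (√(a * (1 - b)) + √(b * (1 - a))) ^ 2) : v + s3 < (f1 ^ 2 + s3) * x ^ 2 := by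
  have hx0 : 0 < x := by linarith only [hx]
  have ha' : 0 < a := by
    rw [ha]
    linarith only [mul_pos (sub_pos.2 ha0) (sub_pos.2 ha0), mul_pos (sub_pos.2 ha0) (sub_pos.2 ha1),
      mul_pos (sub_pos.2 ha0) (sub_pos.2 hx), mul_nonneg (sub_nonneg.2 hs1) (sub_nonneg.2 hx.le)]
  have hb' : 0 < b := by
    rw [hb]
    linarith only [mul_pos (sub_pos.2 ha0) (sub_pos.2 hb0), mul_pos (sub_pos.2 ha1) (sub_pos.2 hb0),
      mul_pos (sub_pos.2 hb0) (sub_pos.2 hx), mul_nonneg (sub_nonneg.2 hs2) (sub_nonneg.2 hx.le)]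
  have p1 := prod_lt ha0 hb1 hb0 hs1 hs2 c1 hx
  have p2 := prod_lt hb0 ha1 ha0 hs2 hs1 c2 hx
  rw [← ha, ← hb] at p1 p2
  have q1 : √(a * (1 - b)) < x * √(a0 * (1 - b0)) := by
    rw [← Real.sqrt_sq hx0.le, ← Real.sqrt_mul (by positivity)]
    exact Real.sqrt_lt_sqrt (mul_nonneg ha'.le (by linarith only [hbb])) p1
  have q2 : √(b * (1 - a)) < x * √(b0 * (1 - a0)) := by
    rw [← Real.sqrt_sq hx0.le, ← Real.sqrt_mul (by positivity)]
    exact Real.sqrt_lt_sqrt (mul_nonneg hb'.le (by linarith only [haa])) p2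
  have h3 : √(a * (1 - b)) + √(b * (1 - a)) < x * f1 := by
    rw [hf1]
    linarith only [q1, q2]
  have h4 : v < (x * f1) ^ 2 := by
    rw [hv]
    exact pow_lt_pow_left₀ h3 (by positivity) (by norm_num)
  have h5 : s3 * 1 ≤ s3 * x ^ 2 := mul_le_mul_of_nonneg_left (by linarith only [mul_pos (sub_pos.2 ha0) (sub_pos.2 hx),
                                                                   mul_pos (sub_pos.2 ha1) (sub_pos.2 hx),
                                                                   mul_pos (sub_pos.2 hx) (sub_pos.2 hx)]) hs3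
  linarith only [h4, h5]

/-- The geometric mean of affine functions is concave. -/
theorem sqrt_conc {a b a' b' u u' l : ℝ} (ha : 0 ≤ a) (hb : 0 ≤ b) (ha' : 0 ≤ a') (hb' : 0 ≤ b')
    (hu : 0 ≤ u) (hu' : 0 ≤ u') (h : u ^ 2 ≤ a * b) (h' : u' ^ 2 ≤ a' * b') (hl : 0 ≤ l)
    (hl1 : l ≤ 1) : l * u + (1 - l) * u' ≤ √((l * a + (1 - l) * a') * (l * b + (1 - l) * b')) := by
  have hl' : 0 ≤ 1 - l := by linarith only [hl1]
  apply Real.le_sqrt_of_sq_le
  -- `2 u u' ≤ a b' + a' b`
  have h1 : 2 * (u * u') ≤ a * b' + a' * b := by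
    have h2 : (2 * (u * u')) ^ 2 ≤ (a * b' + a' * b) ^ 2 := by
      have h3 : u ^ 2 * u' ^ 2 ≤ (a * b) * (a' * b') := mul_le_mul h h' (by positivity)
        (by positivity)
      linarith only [h3, sq_nonneg (a * b' - a' * b)]
    exact le_of_sq_le_sq h2 (by positivity)
  have h4 : 0 ≤ l * (1 - l) := mul_nonneg hl hl'
  have h5 : l * (1 - l) * (2 * (u * u')) ≤ l * (1 - l) * (a * b' + a' * b) :=
    mul_le_mul_of_nonneg_left h1 h4
  have h6 : l ^ 2 * u ^ 2 ≤ l ^ 2 * (a * b) := mul_le_mul_of_nonneg_left h (by positivity)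
  have h7 : (1 - l) ^ 2 * u' ^ 2 ≤ (1 - l) ^ 2 * (a' * b') :=
    mul_le_mul_of_nonneg_left h' (by positivity)
  linarith only [h5, h6, h7]

/-- `x < 1`: strict positivity from one point. -/
theorem F_lt {a0 b0 s1 s2 s3 x xe u v f1 a b : ℝ} (ha0 : 0 < a0) (ha1 : a0 < 1) (hb0 : 0 < b0)
    (hb1 : b0 < 1) (hs1 : 0 ≤ s1) (hs2 : 0 ≤ s2) (hs3 : 0 ≤ s3) (hxe : xe ≤ x) (hx1 : x < 1)
    (hxe0 : 0 ≤ xe)
    (hf1 : f1 = √(a0 * (1 - b0)) + √(b0 * (1 - a0)))
    (hae : 0 ≤ (a0 + s1) * xe - s1) (hbe : 0 ≤ (b0 + s2) * xe - s2) (hu : 0 ≤ u) (hv : 0 ≤ v)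
    (hu2 : u ^ 2 ≤ ((a0 + s1) * xe - s1) * (1 - ((b0 + s2) * xe - s2)))
    (hv2 : v ^ 2 ≤ ((b0 + s2) * xe - s2) * (1 - ((a0 + s1) * xe - s1)))
    (hF : (f1 ^ 2 + s3) * xe < f1 * (u + v) + s3)
    (ha : a = (a0 + s1) * x - s1) (hb : b = (b0 + s2) * x - s2) :
    (f1 ^ 2 + s3) * x ^ 2 < (√(a * (1 - b)) + √(b * (1 - a))) ^ 2 + s3 := by
  have hxe1 : xe < 1 := lt_of_le_of_lt hxe hx1
  have hx0 : 0 ≤ x := hxe0.trans hxe
  set l := (1 - x) / (1 - xe) with hl
  have hd : 0 < 1 - xe := by linarith only [hxe, hx1]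
  have hlm : l * (1 - xe) = 1 - x := by
    rw [hl]
    field_simp
  have hl0 : 0 < l := by
    rw [hl]
    apply div_pos (by linarith only [hx1]) hd
  have hl1 : l ≤ 1 := by
    rw [hl, div_le_one hd]
    linarith only [hxe]
  have hxl : x = l * xe + (1 - l) * 1 := by linarith only [hlm]
  have ea : a = l * ((a0 + s1) * xe - s1) + (1 - l) * a0 := by
    rw [ha, hxl]
    ring
  have eb : b = l * ((b0 + s2) * xe - s2) + (1 - l) * b0 := by
    rw [hb, hxl]
    ring
  have ea' : 1 - a = l * (1 - ((a0 + s1) * xe - s1)) + (1 - l) * (1 - a0) := by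
    rw [ea]
    ring
  have eb' : 1 - b = l * (1 - ((b0 + s2) * xe - s2)) + (1 - l) * (1 - b0) := by
    rw [eb]
    ring
  have hae1 : (a0 + s1) * xe - s1 ≤ 1 := by (refine le_of_not_gt fun hng => ?_; linarith only [mul_pos (sub_pos.2 hng) (sub_pos.2 ha0),
                                                                                  mul_pos (sub_pos.2 hng) (sub_pos.2 ha1),
                                                                                  mul_pos (sub_pos.2 ha0) (sub_pos.2 ha1),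
                                                                                  mul_nonneg (sub_nonneg.2 ha0.le) (sub_nonneg.2 hxe),
                                                                                  mul_pos (sub_pos.2 ha0) (sub_pos.2 hx1),
                                                                                  mul_pos (sub_pos.2 ha1) (sub_pos.2 ha1),
                                                                                  mul_nonneg (sub_nonneg.2 hs1) (sub_nonneg.2 hxe),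
                                                                                  mul_nonneg (sub_nonneg.2 hs1) (sub_nonneg.2 hx1.le)])
  have hbe1 : (b0 + s2) * xe - s2 ≤ 1 := by (refine le_of_not_gt fun hng => ?_; linarith only [mul_pos (sub_pos.2 hng) (sub_pos.2 ha0),
                                                                                  mul_pos (sub_pos.2 hng) (sub_pos.2 ha1),
                                                                                  mul_nonneg (sub_nonneg.2 hb0.le) (sub_nonneg.2 hxe),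
                                                                                  mul_pos (sub_pos.2 hb0) (sub_pos.2 hx1),
                                                                                  mul_nonneg (sub_nonneg.2 hs2) (sub_nonneg.2 hxe),
                                                                                  mul_nonneg (sub_nonneg.2 hs2) (sub_nonneg.2 hx1.le),
                                                                                  hb1])
  have r1 := sqrt_conc (l := l) hae (sub_nonneg.2 hbe1) ha0.le (sub_nonneg.2 hb1.le) hu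
    (Real.sqrt_nonneg (a0 * (1 - b0))) hu2
    (Real.sq_sqrt (mul_nonneg ha0.le (sub_nonneg.2 hb1.le))).le hl0.le hl1
  have r2 := sqrt_conc (l := l) hbe (sub_nonneg.2 hae1) hb0.le (sub_nonneg.2 ha1.le) hv
    (Real.sqrt_nonneg (b0 * (1 - a0))) hv2
    (Real.sq_sqrt (mul_nonneg hb0.le (sub_nonneg.2 ha1.le))).le hl0.le hl1
  rw [← ea, ← eb'] at r1
  rw [← eb, ← ea'] at r2
  set f := √(a * (1 - b)) + √(b * (1 - a)) with hf
  have hfl : l * (u + v) + (1 - l) * f1 ≤ f := by
    rw [hf, hf1]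
    linarith only [r1, r2]
  have hf1p : 0 < f1 := by
    rw [hf1]
    have : 0 < √(a0 * (1 - b0)) := Real.sqrt_pos.2 (mul_pos ha0 (by linarith only [hb1]))
    positivity
  have hf0 : 0 ≤ f := by positivity
  -- the linear functional
  have h1 : (f1 ^ 2 + s3) * x < f1 * f + s3 := by
    have h2 : f1 * (l * (u + v) + (1 - l) * f1) ≤ f1 * f := mul_le_mul_of_nonneg_left hfl hf1p.le
    have h3 : l * ((f1 ^ 2 + s3) * xe) < l * (f1 * (u + v) + s3) := mul_lt_mul_of_pos_left hF hl0
    rw [hxl]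
    linarith only [h2, h3]
  have hB : 0 < f1 ^ 2 + s3 := by positivity
  have h4 : ((f1 ^ 2 + s3) * x) ^ 2 < (f1 * f + s3) ^ 2 :=
    pow_lt_pow_left₀ h1 (by positivity) (by norm_num)
  have h5 : (f1 * f + s3) ^ 2 ≤ (f1 ^ 2 + s3) * (f ^ 2 + s3) := by
    linarith only [mul_nonneg hs3 (sq_nonneg (f - f1))]
  have h6 : (f1 ^ 2 + s3) * ((f1 ^ 2 + s3) * x ^ 2) < (f1 ^ 2 + s3) * (f ^ 2 + s3) := by
    linarith only [h4, h5]
  exact lt_of_mul_lt_mul_left h6 hB.le

/-- An edge where one coordinate is `1 / 2`. -/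
theorem no_half {a0 b0 s1 s2 s3 x b f1 : ℝ} (ha0 : 0 < a0) (ha1 : a0 < 1) (hb0 : 0 < b0)
    (hb1 : b0 < 1) (hs1 : 0 ≤ s1) (hs2 : 0 ≤ s2) (hs3 : 0 ≤ s3)
    (c1 : s1 * (1 - b0) ≤ (1 + s2) * a0) (hx0 : 0 ≤ x) (hx : 1 + s1 ≤ (a0 + s1) * x)
    (hf1 : f1 = √(a0 * (1 - b0)) + √(b0 * (1 - a0)))
    (hb : (b0 + s2) * x ≤ b + s2) (hbb : b ≤ 1) : 1 - b + s3 < (f1 ^ 2 + s3) * x ^ 2 := by
  have hx1 : 1 < x := by
    by_contra hc
    rw [not_lt] at hc
    have : (a0 + s1) * x ≤ (a0 + s1) * 1 := mul_le_mul_of_nonneg_left hc (by positivity)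
    linarith only [ha1, hx, this]
  have p1 := prod_lt ha0 hb1 hb0 hs1 hs2 c1 hx1
  have h1 : 1 - b ≤ 1 - ((b0 + s2) * x - s2) := by linarith only [hb]
  have h2 : 1 * (1 - b) ≤ ((a0 + s1) * x - s1) * (1 - ((b0 + s2) * x - s2)) :=
    mul_le_mul (by linarith only [hx]) h1 (by linarith only [hbb]) (by linarith only [hx])
  have h3 : a0 * (1 - b0) ≤ f1 ^ 2 := by
    have h4 : √(a0 * (1 - b0)) ≤ f1 := by
      rw [hf1]
      linarith only [Real.sqrt_nonneg (b0 * (1 - a0))]
    have h5 := pow_le_pow_left₀ (Real.sqrt_nonneg _) h4 2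
    rwa [Real.sq_sqrt (mul_nonneg ha0.le (by linarith only [hb1]))] at h5
  have h6 : x ^ 2 * (a0 * (1 - b0)) ≤ x ^ 2 * f1 ^ 2 := mul_le_mul_of_nonneg_left h3 (by positivity)
  have h7 : s3 * 1 ≤ s3 * x ^ 2 := mul_le_mul_of_nonneg_left (by (refine le_of_not_gt fun hng => ?_; linarith only [mul_nonneg (sq_nonneg (x)) (sub_nonneg.2 ha1.le),
                                                                                                       mul_nonneg (sub_nonneg.2 hng.le) (sub_nonneg.2 hs1),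
                                                                                                       mul_pos (sub_pos.2 ha0) (sub_pos.2 ha1),
                                                                                                       mul_pos (sub_pos.2 ha1) (sub_pos.2 ha1),
                                                                                                       mul_pos (sub_pos.2 ha1) (sub_pos.2 hx1),
                                                                                                       mul_nonneg (sub_nonneg.2 hx0) (sub_nonneg.2 hx),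
                                                                                                       hx,
                                                                                                       hng])) hs3
  linarith only [p1, h2, h6, h7]

/-- The lower edge `p = 0`. -/
theorem no_zero {a0 b0 s1 s2 s3 x xe u v f1 b vh : ℝ} (ha0 : 0 < a0) (ha1 : a0 < 1) (hb0 : 0 < b0)
    (hb1 : b0 < 1) (hs1 : 0 ≤ s1) (hs2 : 0 ≤ s2) (hs3 : 0 ≤ s3) (hvh : 0 ≤ vh)
    (hxe0 : 0 ≤ xe) (hf1 : f1 = √(a0 * (1 - b0)) + √(b0 * (1 - a0)))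
    (hae : 0 ≤ (a0 + s1) * xe - s1) (hbe : 0 ≤ (b0 + s2) * xe - s2) (hu : 0 ≤ u) (hv : 0 ≤ v)
    (hu2 : u ^ 2 ≤ ((a0 + s1) * xe - s1) * (1 - ((b0 + s2) * xe - s2)))
    (hv2 : v ^ 2 ≤ ((b0 + s2) * xe - s2) * (1 - ((a0 + s1) * xe - s1)))
    (hF : (f1 ^ 2 + s3) * xe < f1 * (u + v) + s3)
    (hH : (a0 + s1) * xe ≤ s1 ∨ (b0 + s2) * xe ≤ s2 ∨ (f1 ^ 2 + s3) * xe ^ 2 ≤ vh + s3)
    (hE : s1 ^ 2 * (f1 ^ 2 + s3) < (a0 + s1) ^ 2 * (vh + s3) ∨
      (vh + s2) ^ 2 * (f1 ^ 2 + s3) < (b0 + s2) ^ 2 * (vh + s3))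
    (hx0 : 0 ≤ x) (hxa : (a0 + s1) * x ≤ s1) (hb : b + s2 = (b0 + s2) * x) (hbv : vh ≤ b)
    (hvb : b + s3 = (f1 ^ 2 + s3) * x ^ 2) : False := by
  have hA : 0 < a0 + s1 := by linarith only [ha0, hs1]
  have hA2 : 0 < b0 + s2 := by linarith only [hb0, hs2]
  set X := s1 / (a0 + s1) with hX
  have hXm : (a0 + s1) * X = s1 := by
    rw [hX]
    field_simp
  have hX0 : 0 ≤ X := div_nonneg hs1 hA.le
  have hX1 : X < 1 := by
    rw [hX, div_lt_one hA]
    linarith only [ha0]
  have hxX : x ≤ X := by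
    rw [hX, le_div_iff₀ hA]
    linarith only [hxa]
  have hf1p : 0 < f1 := by
    rw [hf1]
    have : 0 < √(a0 * (1 - b0)) := Real.sqrt_pos.2 (mul_pos ha0 (by linarith only [hb1]))
    positivity
  have hB : 0 < f1 ^ 2 + s3 := by positivity
  rcases hE with hE | hE
  · have h1 : ((a0 + s1) * x) ^ 2 ≤ s1 ^ 2 := pow_le_pow_left₀ (by positivity) hxa 2
    have h2 : ((a0 + s1) * x) ^ 2 * (f1 ^ 2 + s3) ≤ s1 ^ 2 * (f1 ^ 2 + s3) :=
      mul_le_mul_of_nonneg_right h1 hB.le
    have h3 : (a0 + s1) ^ 2 * (vh + s3) ≤ (a0 + s1) ^ 2 * (b + s3) :=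
      mul_le_mul_of_nonneg_left (by linarith only [hbv]) (by positivity)
    rw [hvb] at h3
    linarith only [hE, h2, h3]
  · rcases lt_or_ge X xe with hc | hc
    · rcases hH with h | h | h
      · have : (a0 + s1) * X < (a0 + s1) * xe := mul_lt_mul_of_pos_left hc hA
        linarith only [hXm, h, this]
      · have : (b0 + s2) * x < (b0 + s2) * xe := mul_lt_mul_of_pos_left (lt_of_le_of_lt hxX hc) hA2
        linarith only [hvh, hb, hbv, h, this]
      · have h1 : x ^ 2 < xe ^ 2 := pow_lt_pow_left₀ (lt_of_le_of_lt hxX hc) hx0 (by norm_num)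
        have h2 := mul_lt_mul_of_pos_left h1 hB
        linarith only [hbv, hvb, h, h2]
    · -- the value at `X`
      have h0 := F_lt (a := (a0 + s1) * X - s1) (b := (b0 + s2) * X - s2) ha0 ha1 hb0 hb1 hs1 hs2 hs3
        hc hX1 hxe0 hf1 hae hbe hu hv hu2 hv2 hF rfl rfl
      set b' := (b0 + s2) * X - s2 with hb'
      have hbb' : b ≤ b' := by
        have : (b0 + s2) * x ≤ (b0 + s2) * X := mul_le_mul_of_nonneg_left hxX hA2.le
        linarith only [hb, this]
      rw [hXm, sub_self, zero_mul, Real.sqrt_zero, sub_zero, mul_one, zero_add,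
        Real.sq_sqrt (by linarith only [hvh, hbv, hbb'])] at h0
      -- concavity of `φ v = A2² (v + s3) - B (v + s2)²`
      set A2 := b0 + s2 with hA2d
      set B := f1 ^ 2 + s3 with hBd
      have e1 : b' + s2 = A2 * X := by rw [hb']; ring
      have p1 : B * (b' + s2) ^ 2 < A2 ^ 2 * (b' + s3) := by
        rw [e1]
        have := mul_lt_mul_of_pos_left h0 (show 0 < A2 ^ 2 by positivity)
        linarith only [this]
      have p0 : B * (b + s2) ^ 2 = A2 ^ 2 * (b + s3) := by
        rw [hb, hvb]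
        ring
      have p2 : B * (vh + s2) ^ 2 < A2 ^ 2 * (vh + s3) := by linarith only [hE]
      -- b between vh and b'
      rcases hbv.eq_or_lt with h | h
      · rw [← h] at p0
        linarith only [hE, p0]
      · have k1 : (b' - b) * (B * (vh + s2) ^ 2) ≤ (b' - b) * (A2 ^ 2 * (vh + s3)) :=
          mul_le_mul_of_nonneg_left p2.le (by linarith only [hbb'])
        have k2 : (b - vh) * (B * (b' + s2) ^ 2) < (b - vh) * (A2 ^ 2 * (b' + s3)) :=
          mul_lt_mul_of_pos_left p1 (by linarith only [h])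
        have k3 : 0 ≤ B * ((b' - vh) * ((b - vh) * (b' - b))) := by
          have : 0 ≤ b' - vh := by linarith only [hbv, hbb']
          have : 0 ≤ b' - b := by linarith only [hbb']
          have : 0 ≤ b - vh := by linarith only [hbv]
          positivity
        have k4 : (b' - b) * (B * (vh + s2) ^ 2) + (b - vh) * (B * (b' + s2) ^ 2) =
            (b' - vh) * (B * (b + s2) ^ 2) + B * ((b' - vh) * ((b - vh) * (b' - b))) := by ring
        have k5 : (b' - b) * (A2 ^ 2 * (vh + s3)) + (b - vh) * (A2 ^ 2 * (b' + s3)) =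
            (b' - vh) * (A2 ^ 2 * (b + s3)) := by ring
        rw [p0] at k4
        linarith only [k1, k2, k3, k4]

/-- The corner of two lower or upper edges. -/
theorem no_mix {a0 s1 B s3 : ℝ} (ha0 : 0 < a0) (hs1 : 0 ≤ s1) (hs3 : 0 ≤ s3) (hB : B ≤ 1 + s3) :
    s1 ^ 2 * B < (a0 + s1) ^ 2 * (1 + s3) := by
  have h1 : s1 ^ 2 * B ≤ s1 ^ 2 * (1 + s3) := mul_le_mul_of_nonneg_left hB (by positivity)
  have h2 : s1 ^ 2 < (a0 + s1) ^ 2 := pow_lt_pow_left₀ (by linarith only [ha0]) hs1 (by norm_num)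
  have h3 : s1 ^ 2 * (1 + s3) < (a0 + s1) ^ 2 * (1 + s3) := mul_lt_mul_of_pos_right h2 (by linarith only [hs3])
  linarith only [h1, h3]

end Pool.Agent.S5.C2
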