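import Pool.Agent.S5.I.C2e

/-!
# Closed vertices with two half twists: criteria
-/

set_option autoImplicit false

namespace Pool.Agent.S5.C2

open MeasureTheory Filter Topology Set

theorem cos_sq_eq (t : ℝ) : Real.cos (Real.pi * t) ^ 2 = 1 - Sn t := by
  unfold Sn
  have := Real.sin_sq_add_cos_sq (Real.pi * t)
  linarith only [this]

/-- The condition of the convex region in terms of `sin²`. -/
theorem K_of_sq {s a b : ℝ} (hs : 0 ≤ s) (ha : 0 < a) (ha1 : a < 1 / 2) (hb : 0 < b)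
    (hb1 : b < 1 / 2) (h : s ^ 2 * ((1 - Sn a) * (1 - Sn b)) < (1 + s) ^ 2 * (Sn a * Sn b)) :
    s * Real.cos (Real.pi * (a + b)) < Real.sin (Real.pi * a) * Real.sin (Real.pi * b) := by
  have hpi := Real.pi_pos
  have s1 : 0 < Real.sin (Real.pi * a) := Real.sin_pos_of_pos_of_lt_pi (by positivity) (by linarith only [hpi,
                                                                                             mul_pos (sub_pos.2 ha1) (sub_pos.2 hpi)])
  have s2 : 0 < Real.sin (Real.pi * b) := Real.sin_pos_of_pos_of_lt_pi (by positivity) (by linarith only [mul_pos (sub_pos.2 hb1) (sub_pos.2 hpi),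
                                                                                             mul_pos (sub_pos.2 ha1) (sub_pos.2 hpi),
                                                                                             mul_pos (sub_pos.2 ha) (sub_pos.2 hpi)])
  have c1 : 0 < Real.cos (Real.pi * a) := Real.cos_pos_of_mem_Ioo ⟨by linarith only [hpi,
                                                                        mul_pos (sub_pos.2 ha) (sub_pos.2 hpi)], by linarith only [mul_pos (sub_pos.2 ha1) (sub_pos.2 hpi)]⟩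
  have c2 : 0 < Real.cos (Real.pi * b) := Real.cos_pos_of_mem_Ioo ⟨by linarith only [mul_pos (sub_pos.2 hb) (sub_pos.2 hpi),
                                                                        mul_pos (sub_pos.2 ha1) (sub_pos.2 hpi),
                                                                        mul_pos (sub_pos.2 ha) (sub_pos.2 hpi)], by linarith only [mul_pos (sub_pos.2 hb1) (sub_pos.2 hpi)]⟩
  have h1 : (s * (Real.cos (Real.pi * a) * Real.cos (Real.pi * b))) ^ 2 <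
      ((1 + s) * (Real.sin (Real.pi * a) * Real.sin (Real.pi * b))) ^ 2 := by
    have e1 : (s * (Real.cos (Real.pi * a) * Real.cos (Real.pi * b))) ^ 2 =
        s ^ 2 * ((1 - Sn a) * (1 - Sn b)) := by
      rw [← cos_sq_eq, ← cos_sq_eq]
      ring
    have e2 : ((1 + s) * (Real.sin (Real.pi * a) * Real.sin (Real.pi * b))) ^ 2 =
        (1 + s) ^ 2 * (Sn a * Sn b) := by
      unfold Sn
      ring
    rw [e1, e2]
    exact h
  have h2 := lt_of_pow_lt_pow_left₀ 2 (by positivity) h1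
  rw [mul_add, Real.cos_add]
  linarith only [h2]

/-- First criterion: no corner. -/
theorem SS_critA {s1 s2 s3 p0 q0 a b : ℝ} (hs1 : 0 ≤ s1) (hs2 : 0 ≤ s2) (hs3 : 0 ≤ s3)
    (ha : 0 < a) (hb : 0 < b) (hap : a < p0) (hbq : b < q0) (hp0 : p0 < 1 / 2) (hq0 : q0 < 1 / 2)
    (ha4 : a ≤ 1 / 4) (hab : a + b ≤ 1 / 2)
    (k1 : s1 ^ 2 * ((1 - Sn a) * (1 - Sn b)) < (1 + s1) ^ 2 * (Sn a * Sn b))
    (k2 : s2 ^ 2 * ((1 - Sn a) * (1 - Sn b)) < (1 + s2) ^ 2 * (Sn a * Sn b))
    (P0 : s1 ^ 2 * (Sn (p0 + q0) + s3) ≤ (Sn p0 + s1) ^ 2 * s3)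
    (P1 : (Sn a + s1) ^ 2 * (Sn (p0 + q0) + s3) ≤ (Sn p0 + s1) ^ 2 * (Sn a + s3))
    (Q1 : (Sn b + s2) ^ 2 * (Sn (p0 + q0) + s3) ≤ (Sn q0 + s2) ^ 2 * (Sn a + s3)) :
    ∃ c > 0, ∀ p ∈ Icc (0 : ℝ) (1 / 2), ∀ q ∈ Icc (0 : ℝ) (1 / 2),
      c * ((p - p0) ^ 2 + (q - q0) ^ 2) ≤ SS s1 s2 s3 p0 q0 p q := by
  have hB : 0 ≤ Sn (p0 + q0) + s3 := add_nonneg (Sn_nonneg _) hs3
  apply SS_red (h := 0) hs1 hs2 hs3 ha hb hap hbq hp0 hq0
    (K_of_sq hs1 ha (by linarith only [hp0, hap]) hb (by linarith only [hq0, hbq]) k1)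
    (K_of_sq hs2 ha (by linarith only [hp0, hap]) hb (by linarith only [hq0, hbq]) k2)
  · intro t ht q hq _
    obtain ⟨t0, t1⟩ := ht
    simp only [mem_Icc] at hq
    have h1 : Sn t ≤ Sn (t + q) := Sn_ge t0.le (by linarith only [hq.1]) (by linarith only [hq.2,
                                                                               t1, ha4])
    have h2 : Sn t ≤ Sn a := Sn_mono t0.le t1.le (by linarith only [hp0, hap])
    have hv := Sn_nonneg t
    have ha0 : 0 < Sn a := Sn_pos ha (by linarith only [hp0, hap])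
    -- concavity in `v`
    have h3 : (Sn t + s1) ^ 2 * (Sn (p0 + q0) + s3) ≤ (Sn p0 + s1) ^ 2 * (Sn t + s3) := by
      have h4 : Sn a * ((Sn p0 + s1) ^ 2 * (Sn t + s3) - (Sn t + s1) ^ 2 * (Sn (p0 + q0) + s3)) =
          (Sn a - Sn t) * ((Sn p0 + s1) ^ 2 * s3 - s1 ^ 2 * (Sn (p0 + q0) + s3)) +
          Sn t * ((Sn p0 + s1) ^ 2 * (Sn a + s3) - (Sn a + s1) ^ 2 * (Sn (p0 + q0) + s3)) +
          (Sn (p0 + q0) + s3) * (Sn a * (Sn t * (Sn a - Sn t))) := by ring
      have h5 : 0 ≤ Sn a * ((Sn p0 + s1) ^ 2 * (Sn t + s3) -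
          (Sn t + s1) ^ 2 * (Sn (p0 + q0) + s3)) := by
        rw [h4]
        have a1 := mul_nonneg (sub_nonneg.2 h2) (sub_nonneg.2 P0)
        have a2 := mul_nonneg hv (sub_nonneg.2 P1)
        have a3 := mul_nonneg hB (mul_nonneg ha0.le (mul_nonneg hv (sub_nonneg.2 h2)))
        linarith only [a3, a2, a1]
      have := nonneg_of_mul_nonneg_right h5 ha0
      linarith only [this]
    have h6 : (Sn p0 + s1) ^ 2 * (Sn t + s3) ≤ (Sn p0 + s1) ^ 2 * (Sn (t + q) + s3) :=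
      mul_le_mul_of_nonneg_left (by linarith only [h1]) (sq_nonneg _)
    linarith only [h6, h3]
  · intro t ht p hp _
    obtain ⟨t0, t1⟩ := ht
    simp only [mem_Icc] at hp
    have h1 : Sn a ≤ Sn (p + t) := Sn_ge ha.le (by linarith only [hp.1, t0]) (by linarith only [hp.2,
                                                                                   t1, hab])
    have h2 : Sn t ≤ Sn b := Sn_mono t0.le t1.le (by linarith only [hq0, hbq])
    have hv := Sn_nonneg t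
    have h3 : (Sn t + s2) ^ 2 * (Sn (p0 + q0) + s3) ≤ (Sn b + s2) ^ 2 * (Sn (p0 + q0) + s3) :=
      mul_le_mul_of_nonneg_right (pow_le_pow_left₀ (by linarith only [hv, hs2]) (by linarith only [h2]) 2) hB
    have h6 : (Sn q0 + s2) ^ 2 * (Sn a + s3) ≤ (Sn q0 + s2) ^ 2 * (Sn (p + t) + s3) :=
      mul_le_mul_of_nonneg_left (by linarith only [h1]) (sq_nonneg _)
    linarith only [h6, h3, Q1]
  · exact ⟨1, one_pos, fun p q hp hq h => absurd h (by linarith only [hq, hp])⟩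

/-- Second criterion: with a corner. -/
theorem SS_critB {s1 s2 s3 p0 q0 a b h c0 : ℝ} (hs1 : 0 ≤ s1) (hs2 : 0 ≤ s2) (hs3 : 0 ≤ s3)
    (ha : 0 < a) (hb : 0 < b) (hap : a < p0) (hbq : b < q0) (hp0 : p0 < 1 / 2) (hq0 : q0 < 1 / 2)
    (hh : 0 < h) (hah : a + h ≤ 1 / 2) (hbh : b + h ≤ 1 / 2)
    (k1 : s1 ^ 2 * ((1 - Sn a) * (1 - Sn b)) < (1 + s1) ^ 2 * (Sn a * Sn b))
    (k2 : s2 ^ 2 * ((1 - Sn a) * (1 - Sn b)) < (1 + s2) ^ 2 * (Sn a * Sn b))
    (P1 : (Sn a + s1) ^ 2 * (Sn (p0 + q0) + s3) ≤ (Sn p0 + s1) ^ 2 * (Sn h + s3))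
    (Q1 : (Sn b + s2) ^ 2 * (Sn (p0 + q0) + s3) ≤ (Sn q0 + s2) ^ 2 * (Sn h + s3))
    (hc0 : 0 < c0) (hC : ∀ p q : ℝ, 0 ≤ p → 0 ≤ q → p + q < h → c0 ≤ SS s1 s2 s3 p0 q0 p q) :
    ∃ c > 0, ∀ p ∈ Icc (0 : ℝ) (1 / 2), ∀ q ∈ Icc (0 : ℝ) (1 / 2),
      c * ((p - p0) ^ 2 + (q - q0) ^ 2) ≤ SS s1 s2 s3 p0 q0 p q := by
  have hB : 0 ≤ Sn (p0 + q0) + s3 := add_nonneg (Sn_nonneg _) hs3
  apply SS_red (h := h) hs1 hs2 hs3 ha hb hap hbq hp0 hq0
    (K_of_sq hs1 ha (by linarith only [hp0, hap]) hb (by linarith only [hq0, hbq]) k1)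
    (K_of_sq hs2 ha (by linarith only [hp0, hap]) hb (by linarith only [hq0, hbq]) k2)
  · intro t ht q hq htq
    obtain ⟨t0, t1⟩ := ht
    simp only [mem_Icc] at hq
    have h1 : Sn h ≤ Sn (t + q) := Sn_ge hh.le htq (by linarith only [hq.2, t1, hah])
    have h2 : Sn t ≤ Sn a := Sn_mono t0.le t1.le (by linarith only [hp0, hap])
    have hv := Sn_nonneg t
    have h3 : (Sn t + s1) ^ 2 * (Sn (p0 + q0) + s3) ≤ (Sn a + s1) ^ 2 * (Sn (p0 + q0) + s3) :=
      mul_le_mul_of_nonneg_right (pow_le_pow_left₀ (by linarith only [hv, hs1]) (by linarith only [h2]) 2) hB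
    have h6 : (Sn p0 + s1) ^ 2 * (Sn h + s3) ≤ (Sn p0 + s1) ^ 2 * (Sn (t + q) + s3) :=
      mul_le_mul_of_nonneg_left (by linarith only [h1]) (sq_nonneg _)
    linarith only [h6, h3, P1]
  · intro t ht p hp htp
    obtain ⟨t0, t1⟩ := ht
    simp only [mem_Icc] at hp
    have h1 : Sn h ≤ Sn (p + t) := Sn_ge hh.le htp (by linarith only [hp.2, t1, hbh])
    have h2 : Sn t ≤ Sn b := Sn_mono t0.le t1.le (by linarith only [hq0, hbq])
    have hv := Sn_nonneg t
    have h3 : (Sn t + s2) ^ 2 * (Sn (p0 + q0) + s3) ≤ (Sn b + s2) ^ 2 * (Sn (p0 + q0) + s3) :=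
      mul_le_mul_of_nonneg_right (pow_le_pow_left₀ (by linarith only [hv, hs2]) (by linarith only [h2]) 2) hB
    have h6 : (Sn q0 + s2) ^ 2 * (Sn h + s3) ≤ (Sn q0 + s2) ^ 2 * (Sn (p + t) + s3) :=
      mul_le_mul_of_nonneg_left (by linarith only [h1]) (sq_nonneg _)
    linarith only [h6, h3, Q1]
  · exact ⟨c0, hc0, hC⟩

theorem Sn_quarter : Sn (1 / 4) = 1 / 2 := by
  unfold Sn
  rw [show Real.pi * (1 / 4) = Real.pi / 4 by ring, Real.sin_pi_div_four, div_pow,
    Real.sq_sqrt (by norm_num)]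
  norm_num

theorem Sn_three_eighths : 0.8535 ≤ Sn (3 / 8) := by
  have h1 : Sn (3 / 8) = (1 + √2 / 2) / 2 := by
    unfold Sn
    rw [Real.sin_sq_eq_half_sub, show 2 * (Real.pi * (3 / 8)) = Real.pi - Real.pi / 4 by ring,
      Real.cos_pi_sub, Real.cos_pi_div_four]
    ring
  have h2 : (1.4142 : ℝ) ≤ √2 := Real.le_sqrt_of_sq_le (by norm_num)
  rw [h1]
  linarith only [h2]

/-- The condition for `Re y < 0`. -/
theorem F_pos {s s3 p0 P0 : ℝ} (hs : 0 ≤ s) (hs' : s ≤ 1 / 2) (hs3 : 0 ≤ s3)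
    (hA : 0 < Sn p0 + s) (hB : 0 < Sn P0 + s3)
    (h : (Sn p0 + s) ^ 4 * ((1 / 2 + s3) * (0.8535 + s3)) <
      ((1 / 2 + s) * (0.8535 + s)) ^ 2 * (Sn P0 + s3) ^ 2) :
    0 < ∫ t in (1 / 4 : ℝ)..(1 / 2 : ℝ), (2 * (Lq s t - Lq s p0) - (Lq s3 t - Lq s3 P0)) := by
  have hi : ∀ (a b : ℝ), IntervalIntegrable
      (fun t => 2 * (Lq s t - Lq s p0) - (Lq s3 t - Lq s3 P0)) volume a b :=
    fun a b => (((Lq_int hs a b).sub (by simp)).const_mul 2).sub ((Lq_int hs3 a b).sub (by simp))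
  set G : ℝ → ℝ := fun t => 2 * (Lq s t - Lq s p0) - (Lq s3 t - Lq s3 P0) with hG
  have hm : ∀ t t' : ℝ, 1 / 4 ≤ t → t ≤ t' → t' ≤ 1 / 2 → G t ≤ G t' := by
    intro t t' h0 h1 h2
    have := g_mono (c := Lq s p0) hs hs' hs3 h0 h1 h2
    rw [hG]
    simp only
    linarith only [this]
  have h1 : (1 / 8) * G (1 / 4) ≤ ∫ t in (1 / 4 : ℝ)..(3 / 8 : ℝ), G t := by
    have h3 : ∫ _t in (1 / 4 : ℝ)..(3 / 8 : ℝ), G (1 / 4) ≤ ∫ t in (1 / 4 : ℝ)..(3 / 8 : ℝ), G t := by
      apply intervalIntegral.integral_mono_on (by norm_num) (by simp) (hi _ _)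
      intro t ht
      exact hm _ t le_rfl ht.1 (by linarith only [ht.2])
    rw [intervalIntegral.integral_const, smul_eq_mul] at h3
    linarith only [h3]
  have h2 : (1 / 8) * G (3 / 8) ≤ ∫ t in (3 / 8 : ℝ)..(1 / 2 : ℝ), G t := by
    have h3 : ∫ _t in (3 / 8 : ℝ)..(1 / 2 : ℝ), G (3 / 8) ≤ ∫ t in (3 / 8 : ℝ)..(1 / 2 : ℝ), G t := by
      apply intervalIntegral.integral_mono_on (by norm_num) (by simp) (hi _ _)
      intro t ht
      exact hm _ t (by norm_num) ht.1 ht.2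
    rw [intervalIntegral.integral_const, smul_eq_mul] at h3
    linarith only [h3]
  rw [← intervalIntegral.integral_add_adjacent_intervals (hi (1 / 4) (3 / 8)) (hi (3 / 8) (1 / 2))]
  have hpos : 0 < G (1 / 4) + G (3 / 8) := by
    have hw := Sn_three_eighths
    set w := Sn (3 / 8) with hwd
    have hw1 : w ≤ 1 := Sn_le_one _
    rw [hG]
    simp only [Lq_eq, Sn_quarter, ← hwd]
    rw [Real.log_mul (by norm_num) (by positivity), Real.log_mul (by norm_num) (by positivity),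
      Real.log_mul (by norm_num) (by positivity), Real.log_mul (by norm_num) (by positivity),
      Real.log_mul (by norm_num) (by positivity), Real.log_mul (by norm_num) (by positivity)]
    -- monotonicity in `w`
    have key : (Sn p0 + s) ^ 4 * ((1 / 2 + s3) * (w + s3)) <
        ((1 / 2 + s) * (w + s)) ^ 2 * (Sn P0 + s3) ^ 2 := by
      have h5 : (0.8535 + s) ^ 2 * (w + s3) ≤ (w + s) ^ 2 * (0.8535 + s3) := by
        have h6 : s ^ 2 ≤ 0.8535 * w := by linarith only [hw, hs',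
                                             mul_nonneg (sub_nonneg.2 hs) (sub_nonneg.2 hs')]
        have h7 : 0 ≤ (w - 0.8535) * (0.8535 * w - s ^ 2) := mul_nonneg (by linarith only [hw]) (by linarith only [h6])
        have h8 : 0 ≤ s3 * ((w + s) ^ 2 - (0.8535 + s) ^ 2) := by
          apply mul_nonneg hs3
          linarith only [h7, mul_nonneg (sq_nonneg (1 * 1707 + 2000 * s)) (sub_nonneg.2 hw)]
        linarith only [h8, h7]
      have h9 : 0 < 0.8535 + s3 := by positivity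
      have h10 : ((Sn p0 + s) ^ 4 * ((1 / 2 + s3) * (w + s3))) * (0.8535 + s3) =
          ((Sn p0 + s) ^ 4 * ((1 / 2 + s3) * (0.8535 + s3))) * (w + s3) := by ring
      have h11 : ((Sn p0 + s) ^ 4 * ((1 / 2 + s3) * (0.8535 + s3))) * (w + s3) <
          (((1 / 2 + s) * (0.8535 + s)) ^ 2 * (Sn P0 + s3) ^ 2) * (w + s3) :=
        mul_lt_mul_of_pos_right h (by positivity)
      have h12 : (((1 / 2 + s) * (0.8535 + s)) ^ 2 * (Sn P0 + s3) ^ 2) * (w + s3) =
          ((1 / 2 + s) ^ 2 * (Sn P0 + s3) ^ 2) * ((0.8535 + s) ^ 2 * (w + s3)) := by ring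
      have h13 : ((1 / 2 + s) ^ 2 * (Sn P0 + s3) ^ 2) * ((0.8535 + s) ^ 2 * (w + s3)) ≤
          ((1 / 2 + s) ^ 2 * (Sn P0 + s3) ^ 2) * ((w + s) ^ 2 * (0.8535 + s3)) :=
        mul_le_mul_of_nonneg_left h5 (by positivity)
      have h14 : ((1 / 2 + s) ^ 2 * (Sn P0 + s3) ^ 2) * ((w + s) ^ 2 * (0.8535 + s3)) =
          (((1 / 2 + s) * (w + s)) ^ 2 * (Sn P0 + s3) ^ 2) * (0.8535 + s3) := by ring
      apply lt_of_mul_lt_mul_right _ h9.le
      linarith only [h13, h11]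
    have h6 := Real.log_lt_log (by positivity) key
    rw [Real.log_mul (by positivity) (by positivity), Real.log_mul (by positivity) (by positivity),
      Real.log_mul (by positivity) (by positivity), Real.log_pow, Real.log_pow, Real.log_pow,
      Real.log_mul (by positivity) (by positivity)] at h6
    push_cast at h6
    linarith only [h6]
  linarith only [hpos, h2, h1]

end Pool.Agent.S5.C2
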