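import Pool.Agent.H25.RK.DGf
import Pool.Agent.S3.Ks1
import Pool.Agent.S5.I.C2f

/-!
# Closed vertices with two half twists: the corner, with the heights
-/

set_option autoImplicit false

namespace Pool.Agent.S5.C2

open MeasureTheory Filter Topology Set

theorem Lq_le_half {s t : ℝ} (hs : 0 ≤ s) (h : 0 < Sn t + s) : Lq s t ≤ Lq s (1 / 2) := by
  simp only [Lq_eq]
  have h1 : Sn (1 / 2) = 1 := by
    unfold Sn
    rw [show Real.pi * (1 / 2) = Real.pi / 2 by ring, Real.sin_pi_div_two]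
    norm_num
  rw [h1]
  have := Real.log_le_log (x := 4 * (Sn t + s)) (y := 4 * (1 + s)) (by linarith only [h])
    (by linarith only [Sn_le_one t])
  linarith only [this]

theorem Dq_int_left {s x0 x : ℝ} : Dq s x0 x = ∫ t in x..x0, (Lq s x0 - Lq s t) := by
  unfold Dq
  rw [intervalIntegral.integral_symm, ← intervalIntegral.integral_neg]
  apply intervalIntegral.integral_congr
  intro t _
  simp only
  ring

theorem Lq_cint {s : ℝ} (hs : 0 ≤ s) (c a b : ℝ) :
    IntervalIntegrable (fun t => c - Lq s t) volume a b :=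
  (intervalIntegrable_const).sub (Lq_int hs a b)

/-- The defect to the left of the base point is largest for the base point `1 / 2`. -/
theorem Dq_base_le {s P0 P : ℝ} (hs : 0 ≤ s) (h1 : P0 < 1) (hP : 0 ≤ P)
    (hP1 : P ≤ 1 / 2) (hPP : P ≤ P0) : Dq s P0 P ≤ Dq s (1 / 2) P := by
  rw [Dq_int_left, Dq_int_left]
  rcases le_total P0 (1 / 2) with h | h
  · have h9 : ∫ t in P..P0, (Lq s P0 - Lq s t) ≤ ∫ t in P..P0, (Lq s (1 / 2) - Lq s t) := by
      apply intervalIntegral.integral_mono_on_of_le_Ioo hPP (Lq_cint hs _ _ _) (Lq_cint hs _ _ _)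
      intro t ht
      have h2 : 0 < Sn P0 := Sn_pos (by linarith only [ht.2, ht.1, hP]) h1
      have := Lq_le_half (t := P0) hs (by linarith only [h2, hs])
      linarith only [this]
    have h10 : 0 ≤ ∫ t in P0..(1 / 2 : ℝ), (Lq s (1 / 2) - Lq s t) := by
      have h11 : ∫ t in P0..(1 / 2 : ℝ), (0 : ℝ) ≤ ∫ t in P0..(1 / 2 : ℝ), (Lq s (1 / 2) - Lq s t) := by
        apply intervalIntegral.integral_mono_on_of_le_Ioo h (by simp) (Lq_cint hs _ _ _)
        intro t ht
        have h2 : 0 < Sn t := Sn_pos (by linarith only [ht.1, hPP, hP]) (by linarith only [ht.2])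
        have := Lq_le_half (t := t) hs (by linarith only [h2, hs])
        linarith only [this]
      simpa using h11
    rw [← intervalIntegral.integral_add_adjacent_intervals (Lq_cint hs (Lq s (1 / 2)) P P0)
      (Lq_cint hs (Lq s (1 / 2)) P0 (1 / 2))]
    linarith only [h10, h9]
  · rw [← intervalIntegral.integral_add_adjacent_intervals (Lq_cint hs (Lq s P0) P (1 / 2))
      (Lq_cint hs (Lq s P0) (1 / 2) P0)]
    have h2 : 0 < Sn P0 := Sn_pos (by linarith only [h]) h1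
    have h9 : ∫ t in P..(1 / 2 : ℝ), (Lq s P0 - Lq s t) ≤
        ∫ t in P..(1 / 2 : ℝ), (Lq s (1 / 2) - Lq s t) := by
      apply intervalIntegral.integral_mono_on_of_le_Ioo hP1 (Lq_cint hs _ _ _) (Lq_cint hs _ _ _)
      intro t ht
      have := Lq_le_half (t := P0) hs (by linarith only [h2, hs])
      linarith only [this]
    have h10 : ∫ t in (1 / 2 : ℝ)..P0, (Lq s P0 - Lq s t) ≤ ∫ t in (1 / 2 : ℝ)..P0, (0 : ℝ) := by
      apply intervalIntegral.integral_mono_on_of_le_Ioo h (Lq_cint hs _ _ _) (by simp)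
      intro t ht
      have h12 : Sn P0 ≤ Sn t := by
        rw [← Sn_one_sub t, ← Sn_one_sub P0]
        exact Sn_mono (by linarith only [h1]) (by linarith only [ht.2]) (by linarith only [ht.1])
      have h13 := Real.log_le_log (x := 4 * (Sn P0 + s)) (y := 4 * (Sn t + s)) (by positivity)
        (by linarith only [h12])
      simp only [Lq_eq]
      linarith only [h13]
    simp only [intervalIntegral.integral_zero] at h10
    linarith only [h10, h9]

/-- The defect from `1 / 2` decreases with the height. -/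
theorem Dq_half_anti {s s' P : ℝ} (hs : 0 ≤ s) (h : s ≤ s') (hP : 0 ≤ P) (hP1 : P ≤ 1 / 2) :
    Dq s' (1 / 2) P ≤ Dq s (1 / 2) P := by
  rw [Dq_int_left, Dq_int_left]
  apply intervalIntegral.integral_mono_on_of_le_Ioo hP1 (Lq_cint (hs.trans h) _ _ _)
    (Lq_cint hs _ _ _)
  intro t ht
  exact Lq_sub_anti hs h (Sn_pos (by linarith only [ht.1, hP]) (by linarith only [ht.2]))
    (Sn_mono (by linarith only [ht.1, hP]) ht.2.le le_rfl)

open Pool.Agent.S3 in
/-- The value of the defect from `1 / 2` at `0`. -/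
theorem Dq_half_zero (h : ℝ) : Dq (Real.sinh (Real.pi * h) ^ 2) (1 / 2) 0 =
    Real.log (2 * Real.cosh (Real.pi * h)) / 2 - Real.pi * |h| / 2 := by
  have e := Dq_eq h (1 / 2) 0
  rw [e, Rf_zero_line, Rf_half, Lg_eq_Lq, Lq_eq]
  have h1 : Sn (1 / 2) = 1 := by
    unfold Sn
    rw [show Real.pi * (1 / 2) = Real.pi / 2 by ring, Real.sin_pi_div_two]
    norm_num
  have hc := Real.cosh_pos (Real.pi * h)
  have h2 : 4 * (Sn (1 / 2) + Real.sinh (Real.pi * h) ^ 2) = (2 * Real.cosh (Real.pi * h)) ^ 2 := by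
    rw [h1, Real.sinh_sq]
    ring
  rw [h2, Real.log_pow]
  push_cast
  ring

/-- The defect is a convex function on `[0, 1 / 2]`. -/
theorem Dq_convexOn {s P0 : ℝ} (hs : 0 ≤ s) : ConvexOn ℝ (Icc (0 : ℝ) (1 / 2)) (Dq s P0) := by
  have hd : ∀ t ∈ Ioo (0 : ℝ) (1 / 2), HasDerivAt (Dq s P0) (Lq s t - Lq s P0) t := by
    intro t ht
    apply Dq_hasDerivAt hs
    have := Sn_pos ht.1 (by linarith only [ht.2])
    unfold Sn at this
    linarith only [this, hs]
  apply MonotoneOn.convexOn_of_deriv (convex_Icc _ _) (Dq_continuous hs P0).continuousOn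
  · intro t ht
    rw [interior_Icc] at ht
    exact (hd t ht).differentiableAt.differentiableWithinAt
  · rw [interior_Icc]
    intro t ht t' ht' htt
    rw [(hd t ht).deriv, (hd t' ht').deriv]
    simp only [Lq_eq]
    have h1 := Sn_pos ht.1 (show t < 1 by linarith only [ht.2])
    have h2 : Sn t ≤ Sn t' := Sn_mono ht.1.le htt ht'.2.le
    have := Real.log_le_log (x := 4 * (Sn t + s)) (y := 4 * (Sn t' + s)) (by positivity) (by linarith only [h2])
    linarith only [this]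

/-- **Positivity in the corner**, with weights. -/
theorem SS_corner2 {s1 s2 s3 σ3 p0 q0 r1 r2 σ1 σ2 h d1 d2 l w1 w2 e0 eh : ℝ} (hs1 : 0 ≤ s1)
    (hs2 : 0 ≤ s2) (hs3 : 0 ≤ σ3) (h3 : σ3 ≤ s3) (h1 : s1 ≤ σ1) (h2 : s2 ≤ σ2) (hσ1 : 0 < σ1)
    (hσ2 : 0 < σ2) (hr1 : r1 ≤ p0) (hr2 : r2 ≤ q0) (hp0 : p0 < 1 / 2) (hq0 : q0 < 1 / 2)
    (hh1 : h ≤ r1) (hh2 : h ≤ r2) (hh : 0 < h) (hw1 : 0 ≤ w1) (hw2 : 0 ≤ w2)
    (hd1 : d1 ≤ Dq σ1 r1 0) (hd2 : d2 ≤ Dq σ2 r2 0)
    (hl1 : w1 * Real.log ((Sn r1 + σ1) / σ1) ≤ 2 * l)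
    (hl2 : w2 * Real.log ((Sn r2 + σ2) / σ2) ≤ 2 * l)
    (he0 : Dq σ3 (1 / 2) 0 ≤ e0) (heh : Dq σ3 (1 / 2) h ≤ eh)
    (v0 : e0 < w1 * d1 + w2 * d2) (v1 : eh + h * l < w1 * d1 + w2 * d2)
    (p q : ℝ) (hp : 0 ≤ p) (hq : 0 ≤ q) (hpq : p + q < h) :
    0 < w1 * Dq s1 p0 p + w2 * Dq s2 q0 q - Dq s3 (p0 + q0) (p + q) := by
  have a1 := Dq_ge hs1 h1 hp (by linarith only [hpq, hq, hh1]) hr1 hp0.le
  have a2 := Dq_ge hs2 h2 hq (by linarith only [hpq, hp, hh2]) hr2 hq0.le
  have b1 := Dq_lin (r := r1) hσ1 hp (by linarith only [hpq, hq, hh1]) (by linarith only [hp0, hr1])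
  have b2 := Dq_lin (r := r2) hσ2 hq (by linarith only [hpq, hp, hh2]) (by linarith only [hq0, hr2])
  have hs3' : 0 ≤ s3 := hs3.trans h3
  have hh2' : h ≤ 1 / 2 := by linarith only [hh1, hp0, hr1]
  have c0 : Dq s3 (p0 + q0) 0 ≤ e0 := (Dq_base_le hs3' (by linarith only [hq0, hp0]) le_rfl (by norm_num)
    (by linarith only [hh, hh2, hh1, hr2, hr1])).trans ((Dq_half_anti hs3 h3 le_rfl (by norm_num)).trans he0)
  have ch : Dq s3 (p0 + q0) h ≤ eh := (Dq_base_le hs3' (by linarith only [hq0, hp0]) hh.le hh2'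
    (by linarith only [hh, hh2, hh1, hr2, hr1])).trans ((Dq_half_anti hs3 h3 hh.le hh2').trans heh)
  -- convexity of the third defect
  set t := (p + q) / h with ht
  have ht0 : 0 ≤ t := by positivity
  have ht1 : t < 1 := by
    rw [ht, div_lt_one hh]
    exact hpq
  have hth : t * h = p + q := by
    rw [ht]
    field_simp
  have hconv := (Dq_convexOn (s := s3) (P0 := p0 + q0) hs3').2
    (show (0 : ℝ) ∈ Icc (0 : ℝ) (1 / 2) from ⟨le_rfl, by norm_num⟩)
    (show h ∈ Icc (0 : ℝ) (1 / 2) from ⟨hh.le, hh2'⟩) (show 0 ≤ 1 - t by linarith only [ht1]) ht0 (by ring)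
  simp only [smul_eq_mul, mul_zero, zero_add] at hconv
  rw [hth] at hconv
  have hD3 : Dq s3 (p0 + q0) (p + q) ≤ (1 - t) * e0 + t * eh := by
    have k1 : (1 - t) * Dq s3 (p0 + q0) 0 ≤ (1 - t) * e0 :=
      mul_le_mul_of_nonneg_left c0 (by linarith only [ht1])
    have k2 : t * Dq s3 (p0 + q0) h ≤ t * eh := mul_le_mul_of_nonneg_left ch ht0
    linarith only [k2, k1, hconv]
  have g1 : w1 * (d1 - p * (Real.log ((Sn r1 + σ1) / σ1) / 2)) ≤ w1 * Dq s1 p0 p :=
    mul_le_mul_of_nonneg_left (by linarith only [b1, a1, hd1]) hw1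
  have g2 : w2 * (d2 - q * (Real.log ((Sn r2 + σ2) / σ2) / 2)) ≤ w2 * Dq s2 q0 q :=
    mul_le_mul_of_nonneg_left (by linarith only [b2, a2, hd2]) hw2
  have m1 : p * (w1 * Real.log ((Sn r1 + σ1) / σ1)) ≤ p * (2 * l) := mul_le_mul_of_nonneg_left hl1 hp
  have m2 : q * (w2 * Real.log ((Sn r2 + σ2) / σ2)) ≤ q * (2 * l) := mul_le_mul_of_nonneg_left hl2 hq
  have k3 : (1 - t) * e0 < (1 - t) * (w1 * d1 + w2 * d2) := mul_lt_mul_of_pos_left v0 (by linarith only [ht1])
  have k4 : t * (eh + h * l) ≤ t * (w1 * d1 + w2 * d2) := mul_le_mul_of_nonneg_left v1.le ht0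
  have e5 : t * (h * l) = (p + q) * l := by
    rw [← hth]
    ring
  linarith only [e5, k4, k3, m2, m1, g2, g1, hD3]

/-- A bound of the third defect at `h`. -/
theorem Dq_half_h {s h e0 : ℝ} (hs : 0 ≤ s) (hh : 0 < h) (hh1 : h ≤ 1 / 2)
    (he0 : Dq s (1 / 2) 0 ≤ e0) :
    Dq s (1 / 2) h ≤ e0 - h * (Real.log ((1 + s) / (Sn h + s)) / 2) := by
  have e := Dq_sub hs (1 / 2) 0 h
  have hv : 0 < Sn h := Sn_pos hh (by linarith only [hh1])
  have h1 : Sn (1 / 2) = 1 := by
    unfold Sn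
    rw [show Real.pi * (1 / 2) = Real.pi / 2 by ring, Real.sin_pi_div_two]
    norm_num
  have h2 : ∫ t in (0 : ℝ)..h, (Lq s t - Lq s (1 / 2)) ≤
      ∫ t in (0 : ℝ)..h, (-(Real.log ((1 + s) / (Sn h + s)) / 2)) := by
    apply intervalIntegral.integral_mono_on_of_le_Ioo hh.le ((Lq_int hs 0 h).sub (by simp)) (by simp)
    intro t ht
    simp only [Lq_eq]
    rw [h1]
    have h3 : Sn t ≤ Sn h := Sn_mono ht.1.le ht.2.le hh1
    have h4 : 0 < Sn t := Sn_pos ht.1 (by linarith only [ht.2, hh1, hh])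
    rw [Real.log_div (by positivity) (by positivity), Real.log_mul (by norm_num) (by positivity),
      Real.log_mul (by norm_num) (by positivity)]
    have := Real.log_le_log (x := Sn t + s) (y := Sn h + s) (by positivity) (by linarith only [h3])
    linarith only [this]
  rw [intervalIntegral.integral_const, smul_eq_mul] at h2
  linarith only [h2, e, he0]

end Pool.Agent.S5.C2
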