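import Pool.Agent.S5.I.C2i
import Pool.Agent.S5.I.C2j

/-!
# Closed vertices with two half twists: the part `Re y < 0`, second method
-/

set_option autoImplicit false

namespace Pool.Agent.S5.C2

open MeasureTheory Filter Topology Set

theorem Lq_mono_t {s t t' : ℝ} (hs : 0 ≤ s) (h0 : 0 < Sn t + s) (h : Sn t ≤ Sn t') :
    Lq s t ≤ Lq s t' := by
  simp only [Lq_eq]
  have := Real.log_le_log (x := 4 * (Sn t + s)) (y := 4 * (Sn t' + s)) (by linarith only [h0]) (by linarith only [h])
  linarith only [this]

theorem Sn_anti {t t' : ℝ} (h0 : 1 / 2 ≤ t) (h1 : t ≤ t') (h2 : t' ≤ 1) : Sn t' ≤ Sn t := by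
  rw [← Sn_one_sub t, ← Sn_one_sub t']
  exact Sn_mono (by linarith only [h2]) (by linarith only [h1]) (by linarith only [h0])

theorem Sn_sub_one (t : ℝ) : Sn (t - 1) = Sn t := by
  unfold Sn
  rw [show Real.pi * (t - 1) = Real.pi * t - Real.pi by ring, Real.sin_sub_pi, neg_sq]

theorem Sn_eighth : Sn (1 / 8) ≤ 0.1465 := by
  have h1 : Sn (1 / 8) = (1 - √2 / 2) / 2 := by
    unfold Sn
    rw [Real.sin_sq_eq_half_sub, show 2 * (Real.pi * (1 / 8)) = Real.pi / 4 by ring,
      Real.cos_pi_div_four]
    ring
  have h2 : (1.4142 : ℝ) ≤ √2 := Real.le_sqrt_of_sq_le (by norm_num)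
  rw [h1]
  linarith only [h2]

theorem Sn_75 : 0.3704 ≤ Sn (19 / 24) ∧ Sn (19 / 24) ≤ 0.3706 ∧ 0.6294 ≤ Sn (7 / 24) := by
  have e3 : Real.cos (Real.pi * (5 / 12)) = √2 / 2 * (√3 / 2) - √2 / 2 * (1 / 2) := by
    rw [show Real.pi * (5 / 12) = Real.pi / 4 + Real.pi / 6 by ring, Real.cos_add,
      Real.cos_pi_div_four, Real.cos_pi_div_six, Real.sin_pi_div_four, Real.sin_pi_div_six]
  have h1 : Sn (19 / 24) = (1 - Real.cos (Real.pi * (5 / 12))) / 2 := by
    rw [show (19 : ℝ) / 24 = 1 - 5 / 24 by norm_num, Sn_one_sub]
    unfold Sn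
    rw [Real.sin_sq_eq_half_sub, show 2 * (Real.pi * (5 / 24)) = Real.pi * (5 / 12) by ring]
    ring
  have h2 : Sn (7 / 24) = (1 + Real.cos (Real.pi * (5 / 12))) / 2 := by
    unfold Sn
    rw [Real.sin_sq_eq_half_sub, show 2 * (Real.pi * (7 / 24)) = Real.pi - Real.pi * (5 / 12) by ring,
      Real.cos_pi_sub]
    ring
  have a2 : (1.41421 : ℝ) ≤ √2 := Real.le_sqrt_of_sq_le (by norm_num)
  have b2 : √2 ≤ (1.41422 : ℝ) := Real.sqrt_le_iff.2 ⟨by norm_num, by norm_num⟩
  have a3 : (1.73205 : ℝ) ≤ √3 := Real.le_sqrt_of_sq_le (by norm_num)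
  have b3 : √3 ≤ (1.73206 : ℝ) := Real.sqrt_le_iff.2 ⟨by norm_num, by norm_num⟩
  have hc : Real.cos (Real.pi * (5 / 12)) = √2 * (√3 - 1) / 4 := by
    rw [e3]
    ring
  have c1 : 1.41421 * 0.73205 / 4 ≤ Real.cos (Real.pi * (5 / 12)) := by
    rw [hc]
    have : (1.41421 : ℝ) * 0.73205 ≤ √2 * (√3 - 1) := mul_le_mul a2 (by linarith only [a3]) (by norm_num)
      (by positivity)
    linarith only [this]
  have c2 : Real.cos (Real.pi * (5 / 12)) ≤ 1.41422 * 0.73206 / 4 := by
    rw [hc]
    have : √2 * (√3 - 1) ≤ (1.41422 : ℝ) * 0.73206 := mul_le_mul b2 (by linarith only [b3]) (by linarith only [a3])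
      (by norm_num)
    linarith only [this]
  rw [h1, h2]
  refine ⟨?_, ?_, ?_⟩
  · norm_num at c2 ⊢
    linarith only [c2]
  · norm_num at c1 ⊢
    linarith only [c1]
  · norm_num at c1 ⊢
    linarith only [c1]

/-- Tangent inequality of the second defect. -/
theorem D2_tan {s q0 q q1 : ℝ} (hs : 0 < s) (hq : 0 ≤ q) (hq' : q ≤ 1 / 2) (h1 : 0 ≤ q1)
    (h1' : q1 ≤ 1 / 2) : Dq s q0 q1 + (Lq s q1 - Lq s q0) * (q - q1) ≤ Dq s q0 q := by
  have e := Dq_sub hs.le q0 q1 q
  have hm : ∀ a b : ℝ, 0 ≤ a → a ≤ b → b ≤ 1 / 2 → Lq s a ≤ Lq s b := fun a b h0 h h2 =>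
    Lq_mono_t hs.le (by linarith only [Sn_nonneg a, hs]) (Sn_mono h0 h h2)
  have hi : ∀ a b : ℝ, IntervalIntegrable (fun t => Lq s t - Lq s q0) volume a b := fun a b =>
    (Lq_int hs.le a b).sub (by simp)
  have h2 : (Lq s q1 - Lq s q0) * (q - q1) ≤ ∫ t in q1..q, (Lq s t - Lq s q0) := by
    rcases le_total q1 q with h | h
    · have h3 : ∫ _t in q1..q, (Lq s q1 - Lq s q0) ≤ ∫ t in q1..q, (Lq s t - Lq s q0) := by
        apply intervalIntegral.integral_mono_on h (by simp) (hi _ _)
        intro t ht
        have := hm q1 t h1 ht.1 (by linarith only [ht.2, hq'])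
        linarith only [this]
      rw [intervalIntegral.integral_const, smul_eq_mul] at h3
      linarith only [h3]
    · have h3 : ∫ t in q..q1, (Lq s t - Lq s q0) ≤ ∫ _t in q..q1, (Lq s q1 - Lq s q0) := by
        apply intervalIntegral.integral_mono_on h (hi _ _) (by simp)
        intro t ht
        have := hm t q1 (by linarith only [ht.1, hq]) ht.2 h1'
        linarith only [this]
      rw [intervalIntegral.integral_const, smul_eq_mul] at h3
      rw [intervalIntegral.integral_symm]
      linarith only [h3]
  linarith only [h2, e]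

/-- Tangent inequality of the third defect. -/
theorem D3_tan {s P0 P P1 : ℝ} (hs : 0 ≤ s) (hP1 : 1 / 2 ≤ P1) (hP1' : P1 ≤ 19 / 24)
    (hP : 1 / 2 ≤ P) (hP' : P ≤ 5 / 4) :
    Dq s P0 P ≤ Dq s P0 P1 + (Lq s P1 - Lq s P0) * (P - P1) := by
  have e := Dq_sub hs P0 P1 P
  have hi : ∀ c a b : ℝ, IntervalIntegrable (fun t => Lq s t - c) volume a b := fun c a b =>
    (Lq_int hs a b).sub (by simp)
  have hS := Sn_75
  have hSP : 0.3704 ≤ Sn P1 := hS.1.trans (Sn_anti hP1 hP1' (by norm_num))
  suffices h : ∫ t in P1..P, (Lq s t - Lq s P1) ≤ 0 by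
    have e2 : ∫ t in P1..P, (Lq s t - Lq s P0) = (∫ t in P1..P, (Lq s t - Lq s P1)) +
        (Lq s P1 - Lq s P0) * (P - P1) := by
      rw [intervalIntegral.integral_sub (Lq_int hs _ _) (by simp), intervalIntegral.integral_sub
        (Lq_int hs _ _) (by simp), intervalIntegral.integral_const, intervalIntegral.integral_const,
        smul_eq_mul, smul_eq_mul]
      ring
    rw [e2] at e
    linarith only [h, e]
  rcases le_total P P1 with h | h
  · rw [intervalIntegral.integral_symm, neg_nonpos]
    have h3 : ∫ _t in P..P1, (0 : ℝ) ≤ ∫ t in P..P1, (Lq s t - Lq s P1) := by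
      apply intervalIntegral.integral_mono_on h (by simp) (hi _ _ _)
      intro t ht
      have := Lq_mono_t (t := P1) (t' := t) hs (by linarith only [hSP, hs]) (Sn_anti (by linarith only [ht.1,
                                                                                           hP]) ht.2
        (by linarith only [hP1']))
      linarith only [this]
    simpa using h3
  · -- the part up to `1`
    have part1 : ∀ b : ℝ, P1 ≤ b → b ≤ 1 → ∫ t in P1..b, (Lq s t - Lq s P1) ≤ 0 := by
      intro b hb hb1
      have h3 : ∫ t in P1..b, (Lq s t - Lq s P1) ≤ ∫ _t in P1..b, (0 : ℝ) := by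
        apply intervalIntegral.integral_mono_on_of_le_Ioo hb (hi _ _ _) (by simp)
        intro t ht
        have h0 : 0 < Sn t := Sn_pos (by linarith only [ht.1, hP1]) (by linarith only [ht.2, hb1])
        have := Lq_mono_t (t := t) (t' := P1) hs (by linarith only [h0, hs]) (Sn_anti hP1 ht.1.le
          (by linarith only [ht.2, hb1]))
        linarith only [this]
      simpa using h3
    rcases le_total P 1 with h1 | h1
    · exact part1 P h h1
    · rw [← intervalIntegral.integral_add_adjacent_intervals (hi _ P1 1) (hi _ 1 P)]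
      have hA := part1 1 (by linarith only [hP1']) le_rfl
      suffices hB : ∫ t in (1 : ℝ)..P, (Lq s t - Lq s P1) ≤ 0 by linarith only [hB, hA]
      have hv : Sn (1 / 4) = 1 / 2 := Sn_quarter
      have hw := Sn_eighth
      have hup : ∀ b c : ℝ, 1 ≤ b → b ≤ c → c ≤ 5 / 4 → ∀ t ∈ Ioo b c, Lq s t ≤ Lq s (c - 1) := by
        intro b c hb hbc hc t ht
        have h0 : 0 < Sn t := by
          rw [← Sn_sub_one]
          exact Sn_pos (by linarith only [ht.1, hb]) (by linarith only [ht.2, hc])
        apply Lq_mono_t hs (by linarith only [h0, hs])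
        rw [← Sn_sub_one t]
        exact Sn_mono (by linarith only [ht.1, hb]) (by linarith only [ht.2]) (by linarith only [hc])
      -- the average of the logarithm
      have key : Lq s (1 / 8) + Lq s (1 / 4) ≤ 2 * Lq s P1 := by
        have hpos8 : 0 < Sn (1 / 8) := Sn_pos (by norm_num) (by norm_num)
        simp only [Lq_eq]
        rw [hv]
        have h5 : (Sn (1 / 8) + s) * (1 / 2 + s) ≤ (Sn P1 + s) ^ 2 := by (refine le_of_not_gt fun hng => ?_; linarith only [hpos8,
                                                                           hw, hSP, hs,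
                                                                           mul_nonneg (sub_nonneg.2 hSP) (sub_nonneg.2 hSP),
                                                                           mul_nonneg (sub_nonneg.2 hs) (sub_nonneg.2 hw),
                                                                           mul_nonneg (sub_nonneg.2 hs) (sub_nonneg.2 hSP),
                                                                           mul_pos (sub_pos.2 hng) (sub_pos.2 hpos8),
                                                                           mul_nonneg (sub_nonneg.2 hng.le) (sub_nonneg.2 hw)])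
        have h6 := Real.log_le_log (by positivity) h5
        rw [Real.log_mul (by positivity) (by positivity), Real.log_pow] at h6
        push_cast at h6
        rw [Real.log_mul (by norm_num) (by positivity), Real.log_mul (by norm_num) (by positivity),
          Real.log_mul (by norm_num) (by positivity)]
        linarith only [h6]
      have key8 : Lq s (1 / 8) ≤ Lq s P1 := by
        have hpos8 : 0 < Sn (1 / 8) := Sn_pos (by norm_num) (by norm_num)
        exact Lq_mono_t hs (by linarith only [hpos8, hs]) (by linarith only [hw, hSP])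
      rcases le_total P (9 / 8) with h2 | h2
      · have h3 : ∫ t in (1 : ℝ)..P, (Lq s t - Lq s P1) ≤ ∫ _t in (1 : ℝ)..P, (0 : ℝ) := by
          apply intervalIntegral.integral_mono_on_of_le_Ioo h1 (hi _ _ _) (by simp)
          intro t ht
          have := hup 1 (9 / 8) le_rfl (by norm_num) (by norm_num) t ⟨ht.1, by linarith only [ht.2,
                                                                                 h2]⟩
          rw [show (9 : ℝ) / 8 - 1 = 1 / 8 by norm_num] at this
          linarith only [this, key8]
        simpa using h3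
      · rw [← intervalIntegral.integral_add_adjacent_intervals (hi _ 1 (9 / 8)) (hi _ (9 / 8) P)]
        have h3 : ∫ t in (1 : ℝ)..(9 / 8), (Lq s t - Lq s P1) ≤
            ∫ _t in (1 : ℝ)..(9 / 8), (Lq s (1 / 8) - Lq s P1) := by
          apply intervalIntegral.integral_mono_on_of_le_Ioo (by norm_num) (hi _ _ _) (by simp)
          intro t ht
          have := hup 1 (9 / 8) le_rfl (by norm_num) (by norm_num) t ht
          rw [show (9 : ℝ) / 8 - 1 = 1 / 8 by norm_num] at this
          linarith only [this]
        have h4 : ∫ t in (9 / 8 : ℝ)..P, (Lq s t - Lq s P1) ≤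
            ∫ _t in (9 / 8 : ℝ)..P, (Lq s (1 / 4) - Lq s P1) := by
          apply intervalIntegral.integral_mono_on_of_le_Ioo h2 (hi _ _ _) (by simp)
          intro t ht
          have := hup 1 (5 / 4) le_rfl (by norm_num) le_rfl t ⟨by linarith only [ht.1],
            by linarith only [ht.2, hP']⟩
          rw [show (5 : ℝ) / 4 - 1 = 1 / 4 by norm_num] at this
          linarith only [this]
        rw [intervalIntegral.integral_const, smul_eq_mul] at h3 h4
        rcases le_total (Lq s (1 / 4)) (Lq s P1) with h7 | h7
        · have : (P - 9 / 8) * (Lq s (1 / 4) - Lq s P1) ≤ 0 :=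
            mul_nonpos_of_nonneg_of_nonpos (by linarith only [h2]) (by linarith only [h7])
          linarith only [this, h4, h3, key8]
        · have : (P - 9 / 8) * (Lq s (1 / 4) - Lq s P1) ≤ 1 / 8 * (Lq s (1 / 4) - Lq s P1) :=
            mul_le_mul_of_nonneg_right (by linarith only [hP']) (by linarith only [h7])
          linarith only [this, h4, h3, key]

/-- The density is concave on `[1/2, 3/4]`: trapezoidal lower bound. -/
theorem trap {s a b c : ℝ} (hs : 0 ≤ s) (ha : 1 / 2 ≤ a) (hab : a ≤ b) (hb : b ≤ 3 / 4) :
    (b - a) * ((Lq s a + Lq s b) / 2 - c) ≤ ∫ t in a..b, (Lq s t - c) := by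
  have hpi := Real.pi_pos
  have hpos : ∀ t ∈ Icc (1 / 2 : ℝ) (3 / 4), 0 < Sn t := fun t ht =>
    Sn_pos (by linarith only [ht.1]) (by linarith only [ht.2])
  have hconc : ConcaveOn ℝ (Icc (1 / 2 : ℝ) (3 / 4)) (Lq s) := by
    apply AntitoneOn.concaveOn_of_deriv (convex_Icc _ _)
    · intro t ht
      exact (Lq_continuousAt (s := s) (t := t) (by
        have := hpos t ht
        unfold Sn at this
        linarith only [this, hs])).continuousWithinAt
    · intro t ht
      have ht' := interior_subset ht
      exact (Lq_hasDerivAt (s := s) (t := t) (by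
        have := hpos t ht'
        unfold Sn at this
        linarith only [this, hs])).differentiableAt.differentiableWithinAt
    · intro t ht t' ht' htt
      have h0 := hpos t (interior_subset ht)
      have h0' := hpos t' (interior_subset ht')
      rw [interior_Icc] at ht ht'
      rw [(Lq_hasDerivAt (s := s) (t := t) (by unfold Sn at h0; linarith only [h0, hs])).deriv,
        (Lq_hasDerivAt (s := s) (t := t') (by unfold Sn at h0'; linarith only [h0', hs])).deriv]
      -- `sin cos / (sin² + s)` decreases
      have s1 : 0 < Real.sin (Real.pi * t) := Real.sin_pos_of_pos_of_lt_pi (by linarith only [hpi,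
                                                                                 mul_pos (sub_pos.2 hpi) (sub_pos.2 ht.1)])
        (by linarith only [hpi, mul_pos (sub_pos.2 hpi) (sub_pos.2 ht.2)])
      have s2 : 0 < Real.sin (Real.pi * t') := Real.sin_pos_of_pos_of_lt_pi (by linarith only [hpi,
                                                                                  mul_pos (sub_pos.2 hpi) (sub_pos.2 ht'.1)])
        (by linarith only [hpi, mul_pos (sub_pos.2 hpi) (sub_pos.2 ht'.2)])
      have d2 : Real.sin (Real.pi * t') * Real.cos (Real.pi * t') ≤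
          Real.sin (Real.pi * t) * Real.cos (Real.pi * t) := by
        have e1 : Real.sin (Real.pi * t) * Real.cos (Real.pi * t) =
            Real.sin (2 * (Real.pi * t)) / 2 := by
          rw [Real.sin_two_mul]
          ring
        have e2 : Real.sin (Real.pi * t') * Real.cos (Real.pi * t') =
            Real.sin (2 * (Real.pi * t')) / 2 := by
          rw [Real.sin_two_mul]
          ring
        rw [e1, e2]
        have h1 : Real.sin (2 * (Real.pi * t)) = -Real.sin (2 * (Real.pi * t) - Real.pi) := by
          rw [Real.sin_sub_pi, neg_neg]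
        have h2 : Real.sin (2 * (Real.pi * t')) = -Real.sin (2 * (Real.pi * t') - Real.pi) := by
          rw [Real.sin_sub_pi, neg_neg]
        have h3 : Real.sin (2 * (Real.pi * t) - Real.pi) ≤ Real.sin (2 * (Real.pi * t') - Real.pi) :=
          Real.sin_le_sin_of_le_of_le_pi_div_two (by linarith only [hpi,
                                                       mul_pos (sub_pos.2 hpi) (sub_pos.2 ht.1)]) (by linarith only [mul_pos (sub_pos.2 hpi) (sub_pos.2 ht'.2)])
            (by linarith only [mul_nonneg (sub_nonneg.2 hpi.le) (sub_nonneg.2 htt)])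
        rw [h1, h2]
        linarith only [h3]
      have d3 : Real.sin (Real.pi * t) * Real.cos (Real.pi * t) ≤ 0 := by
        have : Real.cos (Real.pi * t) ≤ 0 := Real.cos_nonpos_of_pi_div_two_le_of_le
          (by linarith only [mul_pos (sub_pos.2 hpi) (sub_pos.2 ht.1)]) (by linarith only [hpi,
                                                                              mul_pos (sub_pos.2 hpi) (sub_pos.2 ht.2)])
        exact mul_nonpos_of_nonneg_of_nonpos s1.le this
      have d1 : Sn t' ≤ Sn t := Sn_anti ht.1.le htt (by linarith only [ht'.2])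
      unfold Sn at d1 h0 h0'
      rw [div_le_div_iff₀ (by linarith only [h0', hs]) (by linarith only [h0, hs])]
      set A := Real.sin (Real.pi * t) ^ 2
      set A' := Real.sin (Real.pi * t') ^ 2
      set u := Real.sin (Real.pi * t) * Real.cos (Real.pi * t)
      set u' := Real.sin (Real.pi * t') * Real.cos (Real.pi * t')
      have h5 : u' * (A + s) ≤ u * (A + s) := mul_le_mul_of_nonneg_right d2 (by linarith only [h0,
                                                                                  hs])
      have h6 : u * (A + s) ≤ u * (A' + s) := mul_le_mul_of_nonpos_left (by linarith only [d1]) d3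
      linarith only [mul_nonneg (sub_nonneg.2 hpi.le) (sub_nonneg.2 h6),
        mul_nonneg (sub_nonneg.2 hpi.le) (sub_nonneg.2 h5)]
  rcases hab.eq_or_lt with h | h
  · rw [h, intervalIntegral.integral_same, sub_self, zero_mul]
  have hd : 0 < b - a := by linarith only [h]
  have hchord : ∀ t ∈ Icc a b, Lq s a + (t - a) / (b - a) * (Lq s b - Lq s a) ≤ Lq s t := by
    intro t ht
    have h1 := hconc.2 (show a ∈ Icc (1 / 2 : ℝ) (3 / 4) from ⟨ha, by linarith only [hb, hab]⟩)
      (show b ∈ Icc (1 / 2 : ℝ) (3 / 4) from ⟨by linarith only [hab, ha], hb⟩)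
      (show 0 ≤ 1 - (t - a) / (b - a) by
        rw [sub_nonneg, div_le_one hd]
        linarith only [ht.2])
      (show 0 ≤ (t - a) / (b - a) from div_nonneg (by linarith only [ht.1]) hd.le) (by ring)
    simp only [smul_eq_mul] at h1
    have e : (1 - (t - a) / (b - a)) * a + (t - a) / (b - a) * b = t := by
      field_simp
      ring
    rw [e] at h1
    linarith only [h1]
  have h2 : ∫ t in a..b, (Lq s a + (t - a) / (b - a) * (Lq s b - Lq s a) - c) ≤
      ∫ t in a..b, (Lq s t - c) := by
    apply intervalIntegral.integral_mono_on hab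
    · apply Continuous.intervalIntegrable
      fun_prop
    · exact (Lq_int hs a b).sub (by simp)
    · intro t ht
      have := hchord t ht
      linarith only [this]
  have h3 : ∫ t in a..b, (Lq s a + (t - a) / (b - a) * (Lq s b - Lq s a) - c) =
      (b - a) * ((Lq s a + Lq s b) / 2 - c) := by
    have h4 : ∀ t ∈ uIcc a b, HasDerivAt (fun t => Lq s a * t + (t - a) ^ 2 / 2 / (b - a) *
        (Lq s b - Lq s a) - c * t) (Lq s a + (t - a) / (b - a) * (Lq s b - Lq s a) - c) t := by
      intro t _
      have a1 := (hasDerivAt_id t).const_mul (Lq s a)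
      have a2 := ((((hasDerivAt_id t).sub_const a).fun_pow 2).div_const 2).div_const (b - a)
      have a3 := a2.mul_const (Lq s b - Lq s a)
      have a4 := (hasDerivAt_id t).const_mul c
      refine ((a1.add a3).sub a4).congr_deriv ?_
      simp
    rw [intervalIntegral.integral_eq_sub_of_hasDerivAt h4 (by
      apply Continuous.intervalIntegrable
      fun_prop)]
    field_simp
    ring
  linarith only [h3, h2]

end Pool.Agent.S5.C2
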