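import Pool.Agent.S5.I.Y3b
import Pool.Agent.S5.I.C2k
import Pool.Agent.S5.I.C2h
import Pool.Agent.S5.I.C2j

/-!
# The flats of a node with three half twists: trigonometric identities, the triangle
-/

set_option autoImplicit false

namespace Pool.Agent.S5.Y3

open MeasureTheory Filter Topology Set Pool.Agent.S5.C2

theorem Sn_expand (p q : ℝ) : Sn p = Sn (p + q) + Sn q - 2 * (Sn (p + q) * Sn q) -
    2 * (Real.sin (Real.pi * (p + q)) * Real.cos (Real.pi * (p + q)) *
      (Real.sin (Real.pi * q) * Real.cos (Real.pi * q))) := by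
  have e : Real.sin (Real.pi * p) = Real.sin (Real.pi * (p + q)) * Real.cos (Real.pi * q) -
      Real.cos (Real.pi * (p + q)) * Real.sin (Real.pi * q) := by
    rw [← Real.sin_sub]
    congr 1
    ring
  have h1 := Real.sin_sq_add_cos_sq (Real.pi * (p + q))
  have h2 := Real.sin_sq_add_cos_sq (Real.pi * q)
  have e1 : Real.cos (Real.pi * (p + q)) ^ 2 = 1 - Real.sin (Real.pi * (p + q)) ^ 2 := by linarith
  have e2 : Real.cos (Real.pi * q) ^ 2 = 1 - Real.sin (Real.pi * q) ^ 2 := by linarith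
  unfold Sn
  rw [e, sub_sq, mul_pow, mul_pow, e1, e2]
  ring

theorem Sn_sub_eq (p q : ℝ) : Sn (p + q) - Sn q =
    Real.sin (Real.pi * p) * Real.sin (Real.pi * (p + 2 * q)) := by
  have e1 : Real.sin (Real.pi * p) = Real.sin (Real.pi * (p + q)) * Real.cos (Real.pi * q) -
      Real.cos (Real.pi * (p + q)) * Real.sin (Real.pi * q) := by
    rw [← Real.sin_sub]
    congr 1
    ring
  have e2 : Real.sin (Real.pi * (p + 2 * q)) = Real.sin (Real.pi * (p + q)) * Real.cos (Real.pi * q) +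
      Real.cos (Real.pi * (p + q)) * Real.sin (Real.pi * q) := by
    rw [← Real.sin_add]
    congr 1
    ring
  have h1 := Real.sin_sq_add_cos_sq (Real.pi * (p + q))
  have h2 := Real.sin_sq_add_cos_sq (Real.pi * q)
  have e3 : Real.cos (Real.pi * (p + q)) ^ 2 = 1 - Real.sin (Real.pi * (p + q)) ^ 2 := by linarith
  have e4 : Real.cos (Real.pi * q) ^ 2 = 1 - Real.sin (Real.pi * q) ^ 2 := by linarith
  unfold Sn
  rw [e1, e2]
  linear_combination (Real.sin (Real.pi * (p + q)) ^ 2) * (-e4) +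
    (Real.sin (Real.pi * q) ^ 2) * e3

theorem kap_left {p q : ℝ} (h0 : 0 < p) (h2 : 0 < q) (h4 : p + q ≤ 1 / 2) :
    Sn q < Sn (p + q) ∧ Sn p ≤ Sn (p + q) - Sn q ∧
      Sn p * (Sn (p + q) + 3 * Sn q - 4 * (Sn (p + q) * Sn q)) ≤ (Sn (p + q) - Sn q) ^ 2 := by
  have hpi := Real.pi_pos
  have s0 : 0 < Real.sin (Real.pi * p) :=
    Real.sin_pos_of_pos_of_lt_pi (by positivity) (by nlinarith)
  have s2 : 0 < Real.sin (Real.pi * (p + 2 * q)) :=
    Real.sin_pos_of_pos_of_lt_pi (by positivity) (by nlinarith)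
  have e := Sn_sub_eq p q
  have h5 : Real.sin (Real.pi * p) ≤ Real.sin (Real.pi * (p + 2 * q)) := by
    rcases le_total (p + 2 * q) (1 / 2) with h | h
    · apply Real.sin_le_sin_of_le_of_le_pi_div_two (by nlinarith) (by nlinarith)
      nlinarith
    · rw [← Real.sin_pi_sub (Real.pi * (p + 2 * q))]
      apply Real.sin_le_sin_of_le_of_le_pi_div_two (by nlinarith) (by nlinarith)
      nlinarith
  refine ⟨?_, ?_, ?_⟩
  · have := mul_pos s0 s2
    linarith
  · rw [e]
    unfold Sn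
    rw [sq]
    exact mul_le_mul_of_nonneg_left h5 s0.le
  · rw [e, mul_pow]
    have e2 : Real.sin (Real.pi * (p + 2 * q)) ^ 2 = Sn (p + q) + Sn q - 2 * (Sn (p + q) * Sn q) +
        2 * (Real.sin (Real.pi * (p + q)) * Real.cos (Real.pi * (p + q)) *
          (Real.sin (Real.pi * q) * Real.cos (Real.pi * q))) := by
      have e2' : Real.sin (Real.pi * (p + 2 * q)) =
          Real.sin (Real.pi * (p + q)) * Real.cos (Real.pi * q) +
          Real.cos (Real.pi * (p + q)) * Real.sin (Real.pi * q) := by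
        rw [← Real.sin_add]
        congr 1
        ring
      have h1 := Real.sin_sq_add_cos_sq (Real.pi * (p + q))
      have h2 := Real.sin_sq_add_cos_sq (Real.pi * q)
      have e3 : Real.cos (Real.pi * (p + q)) ^ 2 = 1 - Real.sin (Real.pi * (p + q)) ^ 2 := by
        linarith
      have e4 : Real.cos (Real.pi * q) ^ 2 = 1 - Real.sin (Real.pi * q) ^ 2 := by linarith
      unfold Sn
      rw [e2', add_sq, mul_pow, mul_pow, e3, e4]
      ring
    have c1 : 0 ≤ Real.cos (Real.pi * (p + q)) :=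
      Real.cos_nonneg_of_neg_pi_div_two_le_of_le (by nlinarith) (by nlinarith)
    have s1 : 0 ≤ Real.sin (Real.pi * q) :=
      (Real.sin_pos_of_pos_of_lt_pi (by positivity) (by nlinarith)).le
    have e5 : Real.sin (Real.pi * p) = Real.sin (Real.pi * (p + q)) * Real.cos (Real.pi * q) -
        Real.cos (Real.pi * (p + q)) * Real.sin (Real.pi * q) := by
      rw [← Real.sin_sub]
      congr 1
      ring
    have key : 0 ≤ Real.cos (Real.pi * (p + q)) * Real.sin (Real.pi * q) *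
        Real.sin (Real.pi * p) := by positivity
    rw [e5] at key
    have h1 := Real.sin_sq_add_cos_sq (Real.pi * (p + q))
    have e3 : Real.cos (Real.pi * (p + q)) ^ 2 = 1 - Sn (p + q) := by
      unfold Sn
      linarith
    have e6 : Real.cos (Real.pi * (p + q)) * Real.sin (Real.pi * q) *
        (Real.sin (Real.pi * (p + q)) * Real.cos (Real.pi * q) -
          Real.cos (Real.pi * (p + q)) * Real.sin (Real.pi * q)) =
        Real.sin (Real.pi * (p + q)) * Real.cos (Real.pi * (p + q)) *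
          (Real.sin (Real.pi * q) * Real.cos (Real.pi * q)) -
        Real.cos (Real.pi * (p + q)) ^ 2 * Sn q := by
      unfold Sn
      ring
    rw [e6, e3] at key
    show Real.sin (Real.pi * p) ^ 2 * _ ≤ _
    apply mul_le_mul_of_nonneg_left _ (sq_nonneg _)
    rw [e2]
    linarith

theorem kap_right {p q : ℝ} (h0 : 0 < p) (h2 : 1 / 2 ≤ q) (h4 : p + q < 1) :
    Sn (p + q) < Sn q ∧ Sn p ≤ Sn q - Sn (p + q) ∧
      Sn p * (Sn q + 3 * Sn (p + q) - 4 * (Sn (p + q) * Sn q)) ≤ (Sn q - Sn (p + q)) ^ 2 := by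
  have h := kap_left (p := p) (q := 1 - (p + q)) h0 (by linarith) (by linarith)
  have e1 : p + (1 - (p + q)) = 1 - q := by ring
  rw [e1, Sn_one_sub, Sn_one_sub, mul_comm (Sn q)] at h
  exact h

theorem kap_mid {p q : ℝ} (h0 : 0 ≤ p) (h1 : p ≤ 1 / 2) (h2 : 0 ≤ q) (h3 : q ≤ 1 / 2)
    (h4 : 1 / 2 ≤ p + q) : Sn (p + q) + Sn q - 2 * (Sn (p + q) * Sn q) ≤ Sn p := by
  have hpi := Real.pi_pos
  have c1 : Real.cos (Real.pi * (p + q)) ≤ 0 :=
    Real.cos_nonpos_of_pi_div_two_le_of_le (by nlinarith) (by nlinarith)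
  have s1 : 0 ≤ Real.sin (Real.pi * (p + q)) :=
    Real.sin_nonneg_of_nonneg_of_le_pi (by nlinarith) (by nlinarith)
  have s2 : 0 ≤ Real.sin (Real.pi * q) :=
    Real.sin_nonneg_of_nonneg_of_le_pi (by nlinarith) (by nlinarith)
  have c2 : 0 ≤ Real.cos (Real.pi * q) :=
    Real.cos_nonneg_of_neg_pi_div_two_le_of_le (by nlinarith) (by nlinarith)
  have k1 : Real.sin (Real.pi * (p + q)) * Real.cos (Real.pi * (p + q)) *
      (Real.sin (Real.pi * q) * Real.cos (Real.pi * q)) ≤ 0 :=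
    mul_nonpos_of_nonpos_of_nonneg (mul_nonpos_of_nonneg_of_nonpos s1 c1) (mul_nonneg s2 c2)
  have := Sn_expand p q
  linarith

/-! ### The triangle -/

theorem Lq_lt_t {s t t' : ℝ} (h0 : 0 < Sn t + s) (h : Sn t < Sn t') : Lq s t < Lq s t' := by
  rw [Lq_eq, Lq_eq]
  have := Real.log_lt_log (show 0 < 4 * (Sn t + s) by linarith)
    (show 4 * (Sn t + s) < 4 * (Sn t' + s) by linarith)
  linarith

theorem Dq_pos {s x0 x : ℝ} (hs : 0 ≤ s) (h0 : 0 < x0) (h1 : x0 ≤ 1 / 2) (hx : 0 ≤ x)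
    (hx1 : x ≤ 1 / 2) (hne : x ≠ x0) : 0 < Dq s x0 x := by
  rcases lt_or_gt_of_ne hne with h | h
  · rw [Dq_int_left]
    apply intervalIntegral.intervalIntegral_pos_of_pos_on
      ((by simp : IntervalIntegrable (fun _ => Lq s x0) volume x x0).sub (Lq_int hs _ _)) _ h
    intro t ht
    have h2 : 0 < Sn t := Sn_pos (by linarith [ht.1]) (by linarith [ht.2])
    have h3 : Sn t < Sn x0 := by
      have := (kap_left (p := x0 - t) (q := t) (by linarith [ht.2]) (by linarith [ht.1])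
        (by linarith)).1
      rwa [sub_add_cancel] at this
    have := Lq_lt_t (s := s) (by linarith) h3
    linarith
  · unfold Dq
    apply intervalIntegral.intervalIntegral_pos_of_pos_on
      ((Lq_int hs _ _).sub (by simp : IntervalIntegrable (fun _ => Lq s x0) volume x0 x)) _ h
    intro t ht
    have h2 : 0 < Sn x0 := Sn_pos (by linarith [ht.1]) (by linarith [ht.2])
    have h3 : Sn x0 < Sn t := by
      have := (kap_left (p := t - x0) (q := x0) (by linarith [ht.1]) (by linarith [ht.1])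
        (by linarith [ht.2])).1
      rwa [sub_add_cancel] at this
    have := Lq_lt_t (s := s) (by linarith) h3
    linarith

theorem Dq_nonneg' {s x0 x : ℝ} (hs : 0 ≤ s) (h0 : 0 < x0) (h1 : x0 ≤ 1 / 2) (hx : 0 ≤ x)
    (hx1 : x ≤ 1 / 2) : 0 ≤ Dq s x0 x := by
  rcases eq_or_ne x x0 with h | h
  · rw [h, Dq_self]
  · exact (Dq_pos hs h0 h1 hx hx1 h).le

theorem Dq_refl (s x0 x : ℝ) : Dq s (1 - x0) (1 - x) = -Dq s x0 x := by
  have e : ∀ t, Lq s (1 - t) = Lq s t := fun t => by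
    rw [Lq_eq, Lq_eq, Sn_one_sub]
  unfold Dq
  rw [← intervalIntegral.integral_symm, e]
  have k := intervalIntegral.integral_comp_sub_left (a := x) (b := x0)
    (fun t => Lq s t - Lq s x0) 1
  rw [← k]
  simp only [e]

/-- The triangle: all three terms are nonnegative. -/
theorem VV_tri {n : ℕ} {s1 s4 s3 p0 q0 p q : ℝ} (hn : 1 ≤ n) (hB : Bp s1 s4 s3 p0 q0)
    (b1 : q0 ≤ 1 / 2) (b2 : 1 / 2 ≤ p0 + q0) (h0 : 0 ≤ p) (h1 : p ≤ 1 / 2) (h2 : 0 < q)
    (h3 : q ≤ 1 / 2) (h4 : 1 / 2 ≤ p + q) (hne : p ≠ p0 ∨ q ≠ q0) :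
    0 < VV n s1 s4 s3 p0 q0 p q := by
  have hp0 := hB.hp0
  have hp1 := hB.hp1
  have hq0 := hB.hq0
  have hP1 := hB.hP1
  have k1 : 0 ≤ Dq s1 p0 p := Dq_nonneg' hB.h1 hp0 hp1.le h0 h1
  have k4 : 0 ≤ Dq s4 q0 q := Dq_nonneg' hB.h4 (by linarith) b1 h2.le h3
  have k3 : 0 ≤ Dq s3 (1 - (p0 + q0)) (1 - (p + q)) :=
    Dq_nonneg' hB.h3 (by linarith) (by linarith) (by linarith) (by linarith)
  rw [Dq_refl] at k3
  have hn' : (1 : ℝ) ≤ n := by exact_mod_cast hn
  have kn : Dq s1 p0 p ≤ n * Dq s1 p0 p := le_mul_of_one_le_left k1 hn'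
  unfold VV
  rcases hne with hne | hne
  · have := Dq_pos hB.h1 hp0 hp1.le h0 h1 hne
    linarith
  · have := Dq_pos hB.h4 (by linarith) b1 h2.le h3 hne
    linarith

end Pool.Agent.S5.Y3
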