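import Pool.Agent.S5.I.C2p

/-!
# Closed nodes: a slot with weight one
-/

set_option autoImplicit false

namespace Pool.Agent.S5.C2

open MeasureTheory Set

/-- The defect with weight one is larger than the largest defect of the other term. -/
def X3 (s s3 p P : ℝ) : Prop :=
  ∀ x ∈ Icc (7 / 20 : ℝ) (3 / 4), Real.log ((1 + s3) / (Sn P + s3)) / 2 * (x - p) < Dq s p x

theorem Sn_720 : 0.7938 ≤ Sn (7 / 20) := by
  -- sin² (7π/20) = (1 + cos (3π/10)) / 2, cos (3π/10) = sin (π / 5) = √((5 - √5) / 8)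
  have h1 : Sn (7 / 20) = 1 / 2 - Real.cos (2 * (Real.pi * (7 / 20))) / 2 := by
    unfold Sn
    exact Real.sin_sq_eq_half_sub _
  have h2 : Real.cos (2 * (Real.pi * (7 / 20))) = -Real.sin (Real.pi / 5) := by
    rw [show 2 * (Real.pi * (7 / 20)) = Real.pi / 5 + Real.pi / 2 by ring, Real.cos_add_pi_div_two]
  have h3 : Real.sin (Real.pi / 5) ^ 2 = 1 - Real.cos (Real.pi / 5) ^ 2 := by
    rw [Real.sin_sq]
  rw [Real.cos_pi_div_five] at h3
  have h5 : Real.sqrt 5 ^ 2 = 5 := Real.sq_sqrt (by norm_num)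
  have h6 : Real.sqrt 5 ≤ 2.2361 := by
    rw [Real.sqrt_le_left (by norm_num)]
    norm_num
  have h4 : 0.5877 ≤ Real.sin (Real.pi / 5) := by
    have h7 : 0 ≤ Real.sin (Real.pi / 5) :=
      Real.sin_nonneg_of_nonneg_of_le_pi (by positivity) (by linarith [Real.pi_pos])
    have h8 : (0.5877 : ℝ) ^ 2 ≤ Real.sin (Real.pi / 5) ^ 2 := by
      rw [h3]
      nlinarith
    exact (pow_le_pow_iff_left₀ (by norm_num) h7 (by norm_num)).1 h8
  rw [h1, h2]
  linarith

theorem Lq_concave {s : ℝ} (hs : 0 ≤ s) (hs' : s ≤ 1 / 5) :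
    ConcaveOn ℝ (Icc (1 / 4 : ℝ) (1 / 2)) (fun t => Lq s t) := by
  have h := K_concave hs hs' hs
  have e : (fun t => 2 * Lq s t - Lq s t) = fun t => Lq s t := by
    funext t
    ring
  rw [e] at h
  exact h

theorem Dq_eqL {s : ℝ} (hs : 0 ≤ s) (p x : ℝ) : Dq s p x = (∫ t in p..x, Lq s t) - Lq s p * (x - p) := by
  unfold Dq
  rw [intervalIntegral.integral_sub (Lq_int hs _ _) intervalIntegrable_const,
    intervalIntegral.integral_const, smul_eq_mul]
  ring

/-- A lower bound of the defect from the value at the left end. -/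
theorem Dq_low {s p a b K : ℝ} (hs : 0 ≤ s) (hab : a ≤ b)
    (h : ∀ t ∈ Icc a b, K ≤ Lq s t - Lq s p) : Dq s p a + K * (b - a) ≤ Dq s p b := by
  rw [Dq_eqL hs, Dq_eqL hs, ← intervalIntegral.integral_add_adjacent_intervals (Lq_int hs p a) (Lq_int hs a b)]
  have h1 : ∫ t in a..b, (K + Lq s p) ≤ ∫ t in a..b, Lq s t :=
    intervalIntegral.integral_mono_on hab intervalIntegrable_const (Lq_int hs _ _)
      (fun t ht => by linarith [h t ht])
  rw [intervalIntegral.integral_const, smul_eq_mul] at h1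
  linarith

theorem X3_of {s s3 p P : ℝ} (hs : 0 ≤ s) (hs' : s ≤ 1 / 5) (hs3 : 0 ≤ s3) (hp : 1 / 6 ≤ p)
    (hp' : p ≤ 1 / 4) (hB : 0 < Sn P + s3)
    (c1 : (Sn p + s) * (1 + s3) ≤ (0.7938 + s) * (Sn P + s3))
    (c2 : (Sn p + s) ^ 6 * (1 + s3) ^ 11 < ((1 / 2 + s) * (0.7938 + s)) ^ 3 * (Sn P + s3) ^ 11)
    (c3 : (Sn p + s) ^ 2 * (1 + s3) ^ 2 ≤ ((1 / 2 + s) * (1 + s)) * (Sn P + s3) ^ 2) : X3 s s3 p P := by
  have hA0 : 0 < Sn p := Sn_pos (by linarith) (by linarith)
  have hA : 0 < Sn p + s := by linarith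
  have h13 : 0 < 1 + s3 := by linarith
  set κ := Real.log ((1 + s3) / (Sn P + s3)) / 2 with hκ
  have eκ : κ = (Real.log (1 + s3) - Real.log (Sn P + s3)) / 2 := by
    rw [hκ, Real.log_div h13.ne' hB.ne']
  have κ0 : 0 ≤ κ := by
    rw [eκ]
    have := Real.log_le_log hB (show Sn P + s3 ≤ 1 + s3 by linarith [Sn_le_one P])
    linarith
  have eL : ∀ t : ℝ, 0 < Sn t + s → Lq s t - Lq s p = (Real.log (Sn t + s) - Real.log (Sn p + s)) / 2 := by
    intro t ht
    rw [Lq_eq, Lq_eq, Real.log_mul (by norm_num) ht.ne', Real.log_mul (by norm_num) hA.ne']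
    ring
  have h35 := Sn_720
  -- the three conditions in logarithms
  have d1 : κ ≤ Lq s (7 / 20) - Lq s p := by
    rw [eL _ (by linarith), eκ]
    have h1 := Real.log_le_log (by positivity) c1
    rw [Real.log_mul hA.ne' h13.ne', Real.log_mul (by positivity) hB.ne'] at h1
    have h2 := Real.log_le_log (show 0 < 0.7938 + s by positivity) (show 0.7938 + s ≤ Sn (7 / 20) + s by linarith)
    linarith
  have d2 : 11 * κ < 3 * ((Lq s (1 / 4) - Lq s p) + (Lq s (7 / 20) - Lq s p)) := by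
    rw [eL _ (by rw [Sn_quarter]; positivity), eL _ (by linarith), eκ, Sn_quarter]
    have h1 := Real.log_lt_log (by positivity) c2
    rw [Real.log_mul (by positivity) (by positivity), Real.log_mul (by positivity) (by positivity),
      Real.log_pow, Real.log_pow, Real.log_pow, Real.log_pow, Real.log_mul (by positivity) (by positivity)] at h1
    push_cast at h1
    have h2 := Real.log_le_log (show 0 < 0.7938 + s by positivity) (show 0.7938 + s ≤ Sn (7 / 20) + s by linarith)
    linarith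
  have d3 : 2 * κ ≤ (Lq s (1 / 4) - Lq s p) + (Lq s (1 / 2) - Lq s p) := by
    rw [eL _ (by rw [Sn_quarter]; positivity), eL _ (by rw [Sn_half]; positivity), eκ, Sn_quarter, Sn_half]
    have h1 := Real.log_le_log (by positivity) c3
    rw [Real.log_mul (by positivity) (by positivity), Real.log_mul (by positivity) (by positivity),
      Real.log_pow, Real.log_pow, Real.log_pow, Real.log_mul (by positivity) (by positivity)] at h1
    push_cast at h1
    linarith
  -- the value at `7 / 20`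
  have hD4 : 0 ≤ Dq s p (1 / 4) := by
    have := Dq_low (K := 0) (p := p) hs hp' (fun t ht => by
      have h1 := Sn_mono (show 0 ≤ p by linarith) ht.1 (by linarith [ht.2])
      have := Lq_mono_t hs hA h1
      linarith)
    rw [Dq_self] at this
    linarith
  have hD5 : κ * (7 / 20 - p) < Dq s p (7 / 20) := by
    have t1 := trap_gen ((Lq_concave hs hs').subset (s := Icc (1 / 4 : ℝ) (7 / 20))
      (Icc_subset_Icc_right (by norm_num)) (convex_Icc _ _)) (by norm_num) (Lq_int hs _ _)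
    have e1 : Dq s p (7 / 20) = Dq s p (1 / 4) + ((∫ t in (1 / 4 : ℝ)..(7 / 20), Lq s t) - Lq s p * (1 / 10)) := by
      rw [Dq_eqL hs, Dq_eqL hs, ← intervalIntegral.integral_add_adjacent_intervals (Lq_int hs p (1 / 4))
        (Lq_int hs (1 / 4) (7 / 20))]
      ring
    have k1 : κ * (7 / 20 - p) ≤ κ * (11 / 60) := mul_le_mul_of_nonneg_left (by linarith) κ0
    linarith
  have hD6 : ∀ x ∈ Icc (7 / 20 : ℝ) (1 / 2), κ * (x - p) < Dq s p x := by
    intro x hx
    have := Dq_low (K := κ) (p := p) hs hx.1 (fun t ht => by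
      have h1 := Sn_mono (show (0 : ℝ) ≤ 7 / 20 by norm_num) ht.1 (by linarith [ht.2, hx.2])
      have := Lq_mono_t (t := 7 / 20) hs (by linarith) h1
      linarith)
    linarith
  intro x hx
  rcases le_total x (1 / 2) with h | h
  · exact hD6 x ⟨hx.1, h⟩
  -- the last interval
  have hmid := hD6 (1 / 2) ⟨by norm_num, le_rfl⟩
  have hfi : ∀ a b, IntervalIntegrable (fun t => Lq s t - Lq s p - κ) volume a b := fun a b =>
    ((Lq_int hs a b).sub intervalIntegrable_const).sub intervalIntegrable_const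
  have hrefl : ∫ t in (1 / 2 : ℝ)..(3 / 4), Lq s t = ∫ t in (1 / 4 : ℝ)..(1 / 2), Lq s t := by
    rw [int_refl (1 / 2) (3 / 4) 1 (Lq_refl1 s)]
    norm_num
  have t2 := trap_gen (Lq_concave hs hs') (by norm_num) (Lq_int hs _ _)
  have e2 : ∀ a b : ℝ, ∫ t in a..b, (Lq s t - Lq s p - κ) = (∫ t in a..b, Lq s t) - (Lq s p + κ) * (b - a) := by
    intro a b
    rw [intervalIntegral.integral_sub ((Lq_int hs a b).sub intervalIntegrable_const) intervalIntegrable_const,
      intervalIntegral.integral_sub (Lq_int hs a b) intervalIntegrable_const, intervalIntegral.integral_const,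
      intervalIntegral.integral_const, smul_eq_mul, smul_eq_mul]
    ring
  have k2 : 0 ≤ ∫ t in (1 / 2 : ℝ)..(3 / 4), (Lq s t - Lq s p - κ) := by
    rw [e2, hrefl]
    linarith
  have k3 := int_begin (f := fun t => Lq s t - Lq s p - κ) h hx.2 hfi (fun t ht t' ht' htt => by
    have h1 := Sn_anti ht.1 htt (by linarith [ht'.2])
    have h2 : 0 < Sn t' := Sn_pos (by linarith [ht'.1]) (by linarith [ht'.2])
    have := Lq_mono_t (t := t') (t' := t) hs (by linarith) h1
    show Lq s t' - Lq s p - κ ≤ Lq s t - Lq s p - κ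
    linarith) k2
  rw [e2] at k3
  have e3 : Dq s p x = Dq s p (1 / 2) + ((∫ t in (1 / 2 : ℝ)..x, Lq s t) - Lq s p * (x - 1 / 2)) := by
    rw [Dq_eqL hs, Dq_eqL hs, ← intervalIntegral.integral_add_adjacent_intervals (Lq_int hs p (1 / 2))
      (Lq_int hs (1 / 2) x)]
    ring
  show κ * (x - p) < Dq s p x
  linarith

end Pool.Agent.S5.C2
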