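import Pool.Agent.S5.I.F1
import Pool.Agent.S5.I.W2g

/-!
# Closed vertices with two half twists, weights `2` and `1`: the tests of the leaves

All numbers are in units of `2^(-20)`.
-/

set_option autoImplicit false

namespace Pool.Agent.S5.F

open Pool.Agent.S5.C2 Pool.Agent.S5.Num Set

theorem w2_cond_and {a b : Bool} (h : cond a b false = true) : a = true ∧ b = true := by
  rcases a with _ | _
  · exact absurd h (by simp)
  · exact ⟨rfl, h⟩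

theorem w2_lt_of_ble {a b : ℕ} (h : Nat.ble (Nat.succ a) b = true) : a < b :=
  Nat.le_of_ble_eq_true h

/-- `A x + B y ≤ C` and so on: the value `g` at one of the ends. -/
def w2g (f x u s3 : ℕ) : Bool :=
  Nat.ble (Nat.succ (Nat.mul x (Nat.add (Nat.mul f f) (Nat.mul 1048576 s3))))
    (Nat.mul 1048576 (Nat.add (Nat.mul f u) (Nat.mul 1048576 s3)))

/-- The test of the square `[0, 1 / 2]²`. -/
def w2sq (d : Dt) (xl xu ul uu c m1 m2 : ℕ) : Bool :=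
  cond (Nat.ble xl 1048576) (cond (Nat.ble xu 1048576)
  (cond (Nat.ble (Nat.mul (Nat.mul xl xl) (Nat.add d.b1 d.s2l)) (Nat.mul 1099511627776 d.s2l))
  (cond (Nat.ble (Nat.mul 1099511627776 d.s2h) (Nat.mul (Nat.mul xu xu) (Nat.add d.b0 d.s2h)))
  (cond (Nat.ble (Nat.add (Nat.mul ul ul) (Nat.mul 1048576 d.s1h)) (Nat.mul xl (Nat.add d.a0 d.s1h)))
  (cond (Nat.ble (Nat.add (Nat.mul uu uu) (Nat.mul 1048576 d.s1h)) (Nat.mul xu (Nat.add d.a0 d.s1h)))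
  (cond (w2g d.f0 xl ul d.s3l) (cond (w2g d.f1 xl ul d.s3l)
  (cond (w2g d.f0 xu uu d.s3l) (cond (w2g d.f1 xu uu d.s3l)
  (cond (Nat.ble (Nat.succ (Nat.mul (Nat.mul d.s1h d.s1h)
      (Nat.add (Nat.mul d.f1 d.f1) (Nat.mul 1048576 d.s3l))))
    (Nat.mul (fN (fun m => Nat.mul m m) (Nat.add d.a0 d.s1h)) (Nat.mul 1048576 d.s3l)))
  (cond (Nat.ble 1099511627776 (Nat.add (Nat.mul c c) (Nat.mul d.f0 d.f0)))
  (cond (Nat.ble 1 m1) (cond (Nat.ble 1 m2)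
  (cond (Nat.ble (Nat.add (Nat.mul m1 m1) (Nat.mul d.a0 d.a0)) (Nat.mul 1048576 d.a0))
  (cond (Nat.ble (Nat.add (Nat.mul m1 m1) (Nat.mul d.a1 d.a1)) (Nat.mul 1048576 d.a1))
  (cond (Nat.ble (Nat.add (Nat.mul m2 m2) (Nat.mul d.b0 d.b0)) (Nat.mul 1048576 d.b0))
  (cond (Nat.ble (Nat.add (Nat.mul m2 m2) (Nat.mul d.b1 d.b1)) (Nat.mul 1048576 d.b1))
  (Nat.ble (Nat.succ (fN (fun m => Nat.mul m m) (Nat.mul c (Nat.add (Nat.mul (Nat.add d.a1 d.s1h) m2)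
      (Nat.mul 2 (Nat.mul (Nat.add d.b1 d.s2h) m1))))))
    (Nat.mul (Nat.add (Nat.mul d.f0 d.f0) (Nat.mul 1048576 d.s3l))
      (fN (fun m => Nat.mul m m) (Nat.mul 2 (Nat.mul m1 m2)))))
  false) false) false) false) false) false) false) false) false) false) false) false) false) false)
  false) false) false) false

/-- The statement on the square. -/
def Sq21 (p h q g : ℝ) : Prop :=
  ∃ c > 0, ∀ p' ∈ Icc (0 : ℝ) (1 / 2), ∀ q' ∈ Icc (0 : ℝ) (1 / 2),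
    c * ((p' - p) ^ 2 + (q' - q) ^ 2) ≤ SW (Real.sinh (Real.pi * h) ^ 2) (Real.sinh (Real.pi * g) ^ 2)
      (Real.sinh (Real.pi * (h + g)) ^ 2) p q p' q'

/-- The statement of the flats. -/
def Fl21 (p h q g : ℝ) : Prop :=
  ∃ c > 0, ∀ p' ∈ Icc (0 : ℝ) (3 / 4), ∀ q' ∈ Icc (0 : ℝ) (3 / 4),
    c * ((p' - p) ^ 2 + (q' - q) ^ 2) ≤ SW (Real.sinh (Real.pi * h) ^ 2) (Real.sinh (Real.pi * g) ^ 2)
      (Real.sinh (Real.pi * (h + g)) ^ 2) p q p' q'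

theorem fo_sin {p q : ℝ} (hp : 0 < p) (hp1 : p < 1 / 2) (hq : 0 < q) (hq1 : q < 1 / 2) :
    fo (Sn p) (Sn q) = Real.sin (Real.pi * (p + q)) := by
  have hpi := Real.pi_pos
  have hsp : 0 < Real.sin (Real.pi * p) := Real.sin_pos_of_pos_of_lt_pi (by positivity)
    (by nlinarith)
  have hsq : 0 < Real.sin (Real.pi * q) := Real.sin_pos_of_pos_of_lt_pi (by positivity)
    (by nlinarith)
  have hcp : 0 < Real.cos (Real.pi * p) := Real.cos_pos_of_mem_Ioo ⟨by nlinarith, by nlinarith⟩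
  have hcq : 0 < Real.cos (Real.pi * q) := Real.cos_pos_of_mem_Ioo ⟨by nlinarith, by nlinarith⟩
  have e1 : √(Sn p) = Real.sin (Real.pi * p) := by
    unfold Sn
    exact Real.sqrt_sq hsp.le
  have e2 : √(1 - Sn p) = Real.cos (Real.pi * p) := by
    rw [← cos_sq_eq]
    exact Real.sqrt_sq hcp.le
  have e3 : √(Sn q) = Real.sin (Real.pi * q) := by
    unfold Sn
    exact Real.sqrt_sq hsq.le
  have e4 : √(1 - Sn q) = Real.cos (Real.pi * q) := by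
    rw [← cos_sq_eq]
    exact Real.sqrt_sq hcq.le
  rw [fo_eq (Sn_nonneg _) (Sn_nonneg _), e1, e2, e3, e4, mul_add, Real.sin_add]
  ring

theorem ex_unit (n : ℕ) : ∃ x : ℝ, 0 ≤ x ∧ (n : ℝ) = 1048576 * x :=
  ⟨(n : ℝ) / 1048576, by positivity, by ring⟩

theorem w2g_sound {f x u s3 : ℕ} {F X V T : ℝ} (h : w2g f x u s3 = true)
    (hF : (f : ℝ) = 1048576 * F) (hX : (x : ℝ) = 1048576 * X) (hV : (u : ℝ) = 1048576 * V)
    (hT : (s3 : ℝ) = 1048576 * T) : F ^ 2 * X < F * V + T * (1 - X) := by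
  have h1 : x * (f * f + 1048576 * s3) < 1048576 * (f * u + 1048576 * s3) := w2_lt_of_ble h
  have h2 : (x : ℝ) * (f * f + 1048576 * s3) < 1048576 * (f * u + 1048576 * s3) := by
    exact_mod_cast h1
  rw [hF, hX, hV, hT] at h2
  linarith

/-- **Soundness of the test of the square.** -/
theorem w2sq_sound {d : Dt} {xl xu ul uu c m1 m2 : ℕ} {p h q g : ℝ}
    (ht : w2sq d xl xu ul uu c m1 m2 = true) (hd : DtOK d p h q g) (hp : 0 < p) (hp1 : p < 1 / 2)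
    (hq : 0 < q) (hq1 : q < 1 / 2) : Sq21 p h q g := by
  unfold w2sq at ht
  simp only [fN_eq] at ht
  obtain ⟨t1, ht⟩ := w2_cond_and ht
  obtain ⟨t2, ht⟩ := w2_cond_and ht
  obtain ⟨t3, ht⟩ := w2_cond_and ht
  obtain ⟨t4, ht⟩ := w2_cond_and ht
  obtain ⟨t5, ht⟩ := w2_cond_and ht
  obtain ⟨t6, ht⟩ := w2_cond_and ht
  obtain ⟨t7, ht⟩ := w2_cond_and ht
  obtain ⟨t8, ht⟩ := w2_cond_and ht
  obtain ⟨t9, ht⟩ := w2_cond_and ht
  obtain ⟨t10, ht⟩ := w2_cond_and ht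
  obtain ⟨t11, ht⟩ := w2_cond_and ht
  obtain ⟨t12, ht⟩ := w2_cond_and ht
  obtain ⟨t13, ht⟩ := w2_cond_and ht
  obtain ⟨t14, ht⟩ := w2_cond_and ht
  obtain ⟨t15, ht⟩ := w2_cond_and ht
  obtain ⟨t16, ht⟩ := w2_cond_and ht
  obtain ⟨t17, ht⟩ := w2_cond_and ht
  obtain ⟨t18, t19⟩ := w2_cond_and ht
  have i1 : xl ≤ 1048576 := Nat.le_of_ble_eq_true t1
  have i2 : xu ≤ 1048576 := Nat.le_of_ble_eq_true t2
  have i3 : (xl * xl) * (d.b1 + d.s2l) ≤ 1099511627776 * d.s2l := Nat.le_of_ble_eq_true t3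
  have i4 : 1099511627776 * d.s2h ≤ (xu * xu) * (d.b0 + d.s2h) := Nat.le_of_ble_eq_true t4
  have i5 : ul * ul + 1048576 * d.s1h ≤ xl * (d.a0 + d.s1h) := Nat.le_of_ble_eq_true t5
  have i6 : uu * uu + 1048576 * d.s1h ≤ xu * (d.a0 + d.s1h) := Nat.le_of_ble_eq_true t6
  have i11 : (d.s1h * d.s1h) * (d.f1 * d.f1 + 1048576 * d.s3l) <
      ((d.a0 + d.s1h) * (d.a0 + d.s1h)) * (1048576 * d.s3l) := w2_lt_of_ble t11
  have i12 : 1099511627776 ≤ c * c + d.f0 * d.f0 := Nat.le_of_ble_eq_true t12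
  have i13 : 1 ≤ m1 := Nat.le_of_ble_eq_true t13
  have i14 : 1 ≤ m2 := Nat.le_of_ble_eq_true t14
  have i15 : m1 * m1 + d.a0 * d.a0 ≤ 1048576 * d.a0 := Nat.le_of_ble_eq_true t15
  have i16 : m1 * m1 + d.a1 * d.a1 ≤ 1048576 * d.a1 := Nat.le_of_ble_eq_true t16
  have i17 : m2 * m2 + d.b0 * d.b0 ≤ 1048576 * d.b0 := Nat.le_of_ble_eq_true t17
  have i18 : m2 * m2 + d.b1 * d.b1 ≤ 1048576 * d.b1 := Nat.le_of_ble_eq_true t18
  have i19 : (c * ((d.a1 + d.s1h) * m2 + 2 * ((d.b1 + d.s2h) * m1))) *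
      (c * ((d.a1 + d.s1h) * m2 + 2 * ((d.b1 + d.s2h) * m1))) <
      (d.f0 * d.f0 + 1048576 * d.s3l) * ((2 * (m1 * m2)) * (2 * (m1 * m2))) := w2_lt_of_ble t19
  rify at i1 i2 i3 i4 i5 i6 i11 i12 i13 i14 i15 i16 i17 i18 i19
  obtain ⟨XL, XL0, eXL⟩ := ex_unit xl
  obtain ⟨XU, XU0, eXU⟩ := ex_unit xu
  obtain ⟨UL, UL0, eUL⟩ := ex_unit ul
  obtain ⟨UU, UU0, eUU⟩ := ex_unit uu
  obtain ⟨C, C0, eC⟩ := ex_unit c
  obtain ⟨M1, M10, eM1⟩ := ex_unit m1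
  obtain ⟨M2, M20, eM2⟩ := ex_unit m2
  obtain ⟨A0, A00, eA0⟩ := ex_unit d.a0
  obtain ⟨A1, A10, eA1⟩ := ex_unit d.a1
  obtain ⟨B0, B00, eB0⟩ := ex_unit d.b0
  obtain ⟨B1, B10, eB1⟩ := ex_unit d.b1
  obtain ⟨S1, S10, eS1⟩ := ex_unit d.s1h
  obtain ⟨S2, S20, eS2⟩ := ex_unit d.s2l
  obtain ⟨S2', S20', eS2'⟩ := ex_unit d.s2h
  obtain ⟨S3, S30, eS3⟩ := ex_unit d.s3l
  obtain ⟨F0, F00, eF0⟩ := ex_unit d.f0
  obtain ⟨F1, F10, eF1⟩ := ex_unit d.f1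
  have g1 := w2g_sound t7 eF0 eXL eUL eS3
  have g2 := w2g_sound t8 eF1 eXL eUL eS3
  have g3 := w2g_sound t9 eF0 eXU eUU eS3
  have g4 := w2g_sound t10 eF1 eXU eUU eS3
  obtain ⟨d1, d2, d3, d4, d5, d6, d7, d8, d9, d10, d11, d12⟩ := hd
  rw [eA0] at d1
  rw [eA1] at d2
  rw [eB0] at d3
  rw [eB1] at d4
  rw [eS1] at d6
  rw [eS2] at d7
  rw [eS2'] at d8
  rw [eS3] at d9
  rw [eF0] at d11
  rw [eF1] at d12
  rw [eXL] at i1
  rw [eXU] at i2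
  rw [eXL, eB1, eS2] at i3
  rw [eXU, eB0, eS2'] at i4
  rw [eUL, eXL, eA0, eS1] at i5
  rw [eUU, eXU, eA0, eS1] at i6
  rw [eS1, eF1, eS3, eA0] at i11
  rw [eC, eF0] at i12
  rw [eM1] at i13
  rw [eM2] at i14
  rw [eM1, eA0] at i15
  rw [eM1, eA1] at i16
  rw [eM2, eB0] at i17
  rw [eM2, eB1] at i18
  rw [eC, eA1, eS1, eM2, eB1, eS2', eM1, eF0, eS3] at i19
  rw [← fo_sin hp hp1 hq hq1] at d11 d12
  exact SW_sq_box (s2 := Real.sinh (Real.pi * g) ^ 2) (al := A0) (au := A1) (bl := B0) (bu := B1)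
    (tu1 := S1) (tl2 := S2) (tu2 := S2') (tl3 := S3) (fl := F0) (fu := F1) (xl := XL) (xu := XU)
    (ul := UL) (uu := UU) (c := C) (m1 := M1) (m2 := M2) (sq_nonneg _) (sq_nonneg _) hp hp1 hq hq1
    (by linarith) (by linarith) (by linarith) (by linarith) (by linarith) (by linarith)
    (by linarith) (by linarith) (by linarith) (by linarith) A00 S20 S30 F00 XL0 XU0 (by linarith)
    (by linarith) (by linarith) (by linarith) UL0 UU0 (by linarith) (by linarith) g1 g2 g3 g4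
    (by linarith) C0 (by linarith) (by linarith) (by linarith) (by linarith) (by linarith)
    (by linarith) (by linarith) (by linarith)

end Pool.Agent.S5.F
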