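import Pool.Agent.S5.I.FlB
import Pool.Agent.S5.I.C2r
import Pool.Agent.S5.I.W2h

/-!
# Flats of closed nodes: the inequalities of a node from the bounds of its slots
-/

set_option autoImplicit false

namespace Pool.Agent.S5.F

open MeasureTheory Set Pool.Agent.S5.C2 Pool.Agent.S3

theorem kap_eq {s P : ℝ} (hs : 0 ≤ s) (hP : 0 < Sn P + s) :
    Lq s (1 / 2) - Lq s P = Real.log ((1 + s) / (Sn P + s)) / 2 := by
  simp only [Lq_eq, Sn_half]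
  rw [Real.log_mul (by norm_num) (by positivity), Real.log_mul (by norm_num) hP.ne',
    Real.log_div (by positivity) hP.ne']
  ring

/-- The third defect between two points. -/
theorem D3_kap {s P0 A B : ℝ} (hs : 0 ≤ s) (h : A ≤ B) :
    Dq s P0 B ≤ Dq s P0 A + (Lq s (1 / 2) - Lq s P0) * (B - A) := by
  have e := Dq_sub hs P0 A B
  have a1 := int_ub (s := s) (a := A) (b := B) (c := Lq s (1 / 2)) (d := Lq s P0) hs h
    (fun t _ => Lq_le hs t)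
  linarith

/-- The bounds of the slots. -/
structure FlD (sa sb : Slt) : Prop where
  pos : Pos (1 / 2 - sa.ys.re) (1 / 2 - sb.ys.re)
  full : ¬(sb.S = true ∧ sb.x = ⟨3, true⟩) → ∃ c > 0, ∀ p ∈ Icc (0 : ℝ) (3 / 4),
    ∀ q ∈ Icc (0 : ℝ) (3 / 4),
      c * ((p - (1 / 2 - sa.ys.re)) ^ 2 + (q - (1 / 2 - sb.ys.re)) ^ 2) ≤ sS sa sb p q
  a3 : sa.x = ⟨3, true⟩ → X3 (sQ sa.ys.im) (sQ (sa.ys.im + sb.ys.im)) (1 / 2 - sa.ys.re)
    (1 / 2 - sa.ys.re + (1 / 2 - sb.ys.re))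
  b3 : sb.S = false → sb.x = ⟨3, true⟩ → X3 (sQ sb.ys.im) (sQ (sa.ys.im + sb.ys.im))
    (1 / 2 - sb.ys.re) (1 / 2 - sa.ys.re + (1 / 2 - sb.ys.re))
  e4 : sb.S = true → sb.x = ⟨4, true⟩ →
    EB 2 (4 / 25) (1 / 2 - sa.ys.re) sa.ys.im (1 / 2 - sb.ys.re) sb.ys.im
  e3 : sb.S = true → sb.x = ⟨3, true⟩ → sa.x ≠ ⟨3, true⟩ ∧
    Fl21 (1 / 2 - sa.ys.re) sa.ys.im (1 / 2 - sb.ys.re) sb.ys.im ∧
    EB 1 (1 / 20) (1 / 2 - sa.ys.re) sa.ys.im (1 / 2 - sb.ys.re) sb.ys.im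

theorem FlD.flB {sa sb : Slt} (h : FlD sa sb) : FlB sa sb := by
  obtain ⟨p0, p1, q0, q1⟩ := id h.pos
  have s3 := sQ_nonneg (sa.ys.im + sb.ys.im)
  have mp : 1 / 2 - sa.ys.re ∈ Icc (0 : ℝ) (3 / 4) := ⟨p0.le, by linarith⟩
  have mq : 1 / 2 - sb.ys.re ∈ Icc (0 : ℝ) (3 / 4) := ⟨q0.le, by linarith⟩
  have hS : 0 < Sn (1 / 2 - sa.ys.re + (1 / 2 - sb.ys.re)) := Sn_pos (by linarith) (by linarith)
  have hk := kap_eq s3 (by linarith : 0 < Sn (1 / 2 - sa.ys.re + (1 / 2 - sb.ys.re)) +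
    sQ (sa.ys.im + sb.ys.im))
  -- the changes of one variable
  have A : sa.x = ⟨3, true⟩ → ∀ x ∈ Icc (7 / 20 : ℝ) (3 / 4),
      (Lq (sQ (sa.ys.im + sb.ys.im)) (1 / 2) - Lq (sQ (sa.ys.im + sb.ys.im))
        (1 / 2 - sa.ys.re + (1 / 2 - sb.ys.re))) * (x - (1 / 2 - sa.ys.re)) < dS sa x := by
    intro h3 x hx
    rw [hk]
    exact h.a3 h3 x hx
  have B : sb.S = false → sb.x = ⟨3, true⟩ → ∀ x ∈ Icc (7 / 20 : ℝ) (3 / 4),
      (Lq (sQ (sa.ys.im + sb.ys.im)) (1 / 2) - Lq (sQ (sa.ys.im + sb.ys.im))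
        (1 / 2 - sa.ys.re + (1 / 2 - sb.ys.re))) * (x - (1 / 2 - sb.ys.re)) < dS sb x := by
    intro h2 h3 x hx
    rw [hk]
    exact h.b3 h2 h3 x hx
  -- `x ≥ 7 / 20` is beyond the point
  have pA : sa.x = ⟨3, true⟩ → ∀ x ∈ Icc (7 / 20 : ℝ) (3 / 4), 1 / 2 - sa.ys.re ≤ x := by
    intro h3 x hx
    by_contra hc
    rw [not_le] at hc
    have hm : (1 / 2 - sa.ys.re) ∈ Icc (7 / 20 : ℝ) (3 / 4) := ⟨by linarith [hx.1], by linarith⟩
    have := A h3 _ hm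
    rw [dS_self, sub_self, mul_zero] at this
    exact lt_irrefl _ this
  have pB : sb.S = false → sb.x = ⟨3, true⟩ → ∀ x ∈ Icc (7 / 20 : ℝ) (3 / 4),
      1 / 2 - sb.ys.re ≤ x := by
    intro h2 h3 x hx
    by_contra hc
    rw [not_le] at hc
    have hm : (1 / 2 - sb.ys.re) ∈ Icc (7 / 20 : ℝ) (3 / 4) := ⟨by linarith [hx.1], by linarith⟩
    have := B h2 h3 _ hm
    rw [dS_self, sub_self, mul_zero] at this
    exact lt_irrefl _ this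
  have a0 : dS sa (1 / 2 - sa.ys.re) = 0 := dS_self sa
  have b0 : dS sb (1 / 2 - sb.ys.re) = 0 := dS_self sb
  have c0 : Dq (sQ (sa.ys.im + sb.ys.im)) (1 / 2 - sa.ys.re + (1 / 2 - sb.ys.re))
      (1 / 2 - sa.ys.re + (1 / 2 - sb.ys.re)) = 0 := Dq_self _ _
  have e : ∀ x y, sS sa sb x y = 2 * dS sa x + 2 * dS sb y -
      Dq (sQ (sa.ys.im + sb.ys.im)) (1 / 2 - sa.ys.re + (1 / 2 - sb.ys.re)) (x + y) :=
    fun x y => rfl
  have m20 : (1 / 20 : ℝ) < 1 := by norm_num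
  refine ⟨h.pos, h.full, ?_, ?_, ?_, ?_, ?_, ?_⟩
  · -- the end with three half twists, `S` edge
    intro h1 h2
    obtain ⟨g1, ⟨c, hc, g2⟩, g3⟩ := h.e3 h1 h2
    have hw : ∀ x ∈ Icc (0 : ℝ) (3 / 4), ∀ y ∈ Icc (0 : ℝ) (3 / 4),
        c * ((x - (1 / 2 - sa.ys.re)) ^ 2 + (y - (1 / 2 - sb.ys.re)) ^ 2) ≤
          sS sa sb x y - dS sb y := by
      intro x hx y hy
      have := g2 x hx y hy
      rw [SW_eq] at this
      exact this
    refine ⟨g1, ⟨c, hc, hw⟩, fun x hx y hy => ?_⟩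
    have k1 := hw x hx _ mq
    have k2 : 0 ≤ c * ((x - (1 / 2 - sa.ys.re)) ^ 2 +
      (1 / 2 - sb.ys.re - (1 / 2 - sb.ys.re)) ^ 2) := by positivity
    have k3 := g3 y hy
    have k4 := D3_kap (P0 := 1 / 2 - sa.ys.re + (1 / 2 - sb.ys.re)) (A := x + (1 / 2 - sb.ys.re))
      (B := x + y) s3 (by linarith [hy.1])
    have e5 : x + y - (x + (1 / 2 - sb.ys.re)) = y - (1 / 2 - sb.ys.re) := by ring
    rw [e5] at k4
    have e6 : dS sb y = Dq (sQ sb.ys.im) (1 / 2 - sb.ys.re) y := rfl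
    rw [e, b0] at k1
    rw [e]
    rw [← e6] at k3
    linarith
  · -- the left neighbour is the end with three half twists
    intro h1 x hx y hy
    obtain ⟨c, hc, g2⟩ : ∃ c > 0, ∀ p ∈ Icc (0 : ℝ) (3 / 4), ∀ q ∈ Icc (0 : ℝ) (3 / 4),
      c * ((p - (1 / 2 - sa.ys.re)) ^ 2 + (q - (1 / 2 - sb.ys.re)) ^ 2) ≤ sS sa sb p q :=
        h.full (fun h9 => (h.e3 h9.1 h9.2).1 h1)
    have k1 := g2 _ mp y hy
    have k2 : 0 ≤ c * ((1 / 2 - sa.ys.re - (1 / 2 - sa.ys.re)) ^ 2 +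
      (y - (1 / 2 - sb.ys.re)) ^ 2) := by positivity
    have k3 := A h1 x hx
    have k4 := D3_kap (P0 := 1 / 2 - sa.ys.re + (1 / 2 - sb.ys.re)) (A := 1 / 2 - sa.ys.re + y)
      (B := x + y) s3 (by linarith [pA h1 x hx])
    have e5 : x + y - (1 / 2 - sa.ys.re + y) = x - (1 / 2 - sa.ys.re) := by ring
    rw [e5] at k4
    rw [e, a0] at k1
    rw [e]
    linarith
  · -- the right neighbour is the end with three half twists, `A` edge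
    intro h0 h1 x hx y hy
    obtain ⟨c, hc, g2⟩ : ∃ c > 0, ∀ p ∈ Icc (0 : ℝ) (3 / 4), ∀ q ∈ Icc (0 : ℝ) (3 / 4),
      c * ((p - (1 / 2 - sa.ys.re)) ^ 2 + (q - (1 / 2 - sb.ys.re)) ^ 2) ≤ sS sa sb p q :=
        h.full (fun h9 => by rw [h0] at h9; exact absurd h9.1 (by simp))
    have k1 := g2 x hx _ mq
    have k2 : 0 ≤ c * ((x - (1 / 2 - sa.ys.re)) ^ 2 +
      (1 / 2 - sb.ys.re - (1 / 2 - sb.ys.re)) ^ 2) := by positivity
    have k3 := B h0 h1 y hy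
    have k4 := D3_kap (P0 := 1 / 2 - sa.ys.re + (1 / 2 - sb.ys.re)) (A := x + (1 / 2 - sb.ys.re))
      (B := x + y) s3 (by linarith [pB h0 h1 y hy])
    have e5 : x + y - (x + (1 / 2 - sb.ys.re)) = y - (1 / 2 - sb.ys.re) := by ring
    rw [e5] at k4
    rw [e, b0] at k1
    rw [e]
    linarith
  · -- both
    intro h1 h0 h2 x hx y hy
    have k3 := A h1 x hx
    have k3' := B h0 h2 y hy
    have k4 := D3_kap (P0 := 1 / 2 - sa.ys.re + (1 / 2 - sb.ys.re))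
      (A := 1 / 2 - sa.ys.re + (1 / 2 - sb.ys.re)) (B := x + y) s3
      (by linarith [pA h1 x hx, pB h0 h2 y hy])
    rw [c0] at k4
    have e5 : x + y - (1 / 2 - sa.ys.re + (1 / 2 - sb.ys.re)) =
      x - (1 / 2 - sa.ys.re) + (y - (1 / 2 - sb.ys.re)) := by ring
    rw [e5, mul_add] at k4
    rw [e]
    linarith
  · -- the end with four half twists
    intro h0 h1 x hx y hy
    obtain ⟨c, hc, g2⟩ : ∃ c > 0, ∀ p ∈ Icc (0 : ℝ) (3 / 4), ∀ q ∈ Icc (0 : ℝ) (3 / 4),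
      c * ((p - (1 / 2 - sa.ys.re)) ^ 2 + (q - (1 / 2 - sb.ys.re)) ^ 2) ≤ sS sa sb p q :=
        h.full (fun h9 => by rw [h1] at h9; exact absurd h9.2 (by simp))
    have k1 := g2 x hx _ mq
    have k2 : 0 ≤ c * ((x - (1 / 2 - sa.ys.re)) ^ 2 +
      (1 / 2 - sb.ys.re - (1 / 2 - sb.ys.re)) ^ 2) := by positivity
    have k3 := h.e4 h0 h1 y hy
    have e6 : dS sb y = Dq (sQ sb.ys.im) (1 / 2 - sb.ys.re) y := rfl
    rw [← e6] at k3
    have k4 := D3_kap (P0 := 1 / 2 - sa.ys.re + (1 / 2 - sb.ys.re)) (A := x + (1 / 2 - sb.ys.re))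
      (B := x + y) s3 (by linarith [hy.1])
    have e5 : x + y - (x + (1 / 2 - sb.ys.re)) = y - (1 / 2 - sb.ys.re) := by ring
    rw [e5] at k4
    rw [e, b0] at k1
    rw [e]
    linarith
  · intro h0 h1 h2 x hx y hy
    have k3' := h.e4 h0 h1 y hy
    have e6 : dS sb y = Dq (sQ sb.ys.im) (1 / 2 - sb.ys.re) y := rfl
    rw [← e6] at k3'
    have k3 := A h2 x hx
    have k4 := D3_kap (P0 := 1 / 2 - sa.ys.re + (1 / 2 - sb.ys.re))
      (A := 1 / 2 - sa.ys.re + (1 / 2 - sb.ys.re)) (B := x + y) s3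
      (by linarith [pA h2 x hx, hy.1])
    rw [c0] at k4
    have e5 : x + y - (1 / 2 - sa.ys.re + (1 / 2 - sb.ys.re)) =
      x - (1 / 2 - sa.ys.re) + (y - (1 / 2 - sb.ys.re)) := by ring
    rw [e5, mul_add] at k4
    rw [e]
    linarith

end Pool.Agent.S5.F
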