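import Pool.Agent.S5.I.TbK0
import Pool.Agent.S5.I.TbK1
import Pool.Agent.S5.I.TbK2
import Pool.Agent.S5.I.TbK3

/-!
# The table is right
-/

set_option autoImplicit false

namespace Pool.Agent.S5.Tb

theorem ent_ok : ∀ i j : ℕ, i ≤ 100 → j ≤ 50 → 0 < i + j → EntOK i j (ent i j) := by
  intro i j hi hj h
  interval_cases j
  · exact ek_0 i (by omega) hi
  · exact ek_1 i hi
  · exact ek_2 i hi
  · exact ek_3 i hi
  · exact ek_4 i hi
  · exact ek_5 i hi
  · exact ek_6 i hi
  · exact ek_7 i hi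
  · exact ek_8 i hi
  · exact ek_9 i hi
  · exact ek_10 i hi
  · exact ek_11 i hi
  · exact ek_12 i hi
  · exact ek_13 i hi
  · exact ek_14 i hi
  · exact ek_15 i hi
  · exact ek_16 i hi
  · exact ek_17 i hi
  · exact ek_18 i hi
  · exact ek_19 i hi
  · exact ek_20 i hi
  · exact ek_21 i hi
  · exact ek_22 i hi
  · exact ek_23 i hi
  · exact ek_24 i hi
  · exact ek_25 i hi
  · exact ek_26 i hi
  · exact ek_27 i hi
  · exact ek_28 i hi
  · exact ek_29 i hi
  · exact ek_30 i hi
  · exact ek_31 i hi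
  · exact ek_32 i hi
  · exact ek_33 i hi
  · exact ek_34 i hi
  · exact ek_35 i hi
  · exact ek_36 i hi
  · exact ek_37 i hi
  · exact ek_38 i hi
  · exact ek_39 i hi
  · exact ek_40 i hi
  · exact ek_41 i hi
  · exact ek_42 i hi
  · exact ek_43 i hi
  · exact ek_44 i hi
  · exact ek_45 i hi
  · exact ek_46 i hi
  · exact ek_47 i hi
  · exact ek_48 i hi
  · exact ek_49 i hi
  · exact ek_50 i hi

end Pool.Agent.S5.Tb
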