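import Pool.Agent.S5.I.Ts
import Pool.Agent.S5.I.TbOK

/-!
# The table is right
-/

set_option autoImplicit false

namespace Pool.Agent.S5.Tb

theorem tab_ok : TabOK := ent_ok

end Pool.Agent.S5.Tb
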