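import Pool.Agent.S5.I.NumSnd

/-!
# Fixed point evaluation of the potential: the exponential function and the series
-/

set_option autoImplicit false

namespace Pool.Agent.S5.Num

open Complex

/-- The Horner scheme. -/
noncomputable def tr (z : ℂ) : ℕ → ℂ → ℂ
  | 0, v => v
  | (m + 1), v => tr z m (1 + z * v / ((m + 1 : ℕ) : ℂ))

theorem tr_eq (z : ℂ) (n : ℕ) (v : ℂ) :
    tr z n v = ∑ j ∈ Finset.range n, z ^ j / (j.factorial : ℂ) + z ^ n / (n.factorial : ℂ) * v := by
  induction n generalizing v with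
  | zero => simp [tr]
  | succ n ih =>
    rw [tr, ih, Finset.sum_range_succ, Nat.factorial_succ]
    have h1 : ((n.factorial : ℕ) : ℂ) ≠ 0 := Nat.cast_ne_zero.2 (Nat.factorial_ne_zero n)
    have h2 : ((n + 1 : ℕ) : ℂ) ≠ 0 := Nat.cast_ne_zero.2 (Nat.succ_ne_zero n)
    push_cast at h2 ⊢
    field_simp
    ring

theorem cx_add (a b : ℕ) : cx (Nat.add 281474976710656 a) b = cx a b + UU := by
  rw [add_eq']
  unfold cx UU
  push_cast
  ring

/-- One step of the Horner scheme. -/
theorem hor_step {z v : ℂ} {p q a b : ℕ} {e : ℝ} (h : Ap z p q 3) (h' : Ap v a b e) {m : ℕ}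
    (hm : 0 < m) (hz : ‖z‖ ≤ 1) (hv : ‖v‖ ≤ 2) (he : e ≤ 100) :
    Ap (1 + z * v / m) (Nat.add 281474976710656 (gr p q a b m)) (gi p q a b m)
      ((e + 7) / m + 2) := by
  have hm' : (0 : ℝ) < m := by exact_mod_cast hm
  have e0 : 0 ≤ e := (norm_nonneg _).trans h'
  have h1 := h.mul h' hm hz hv (by norm_num [UU]) (he.trans (by norm_num [UU]))
  have h2 : Ap (z * v / m) (gr p q a b m) (gi p q a b m) ((e + 7) / m + 2) := by
    refine h1.mono ?_
    have h3 : e + 3 * (‖v‖ + e / UU) ≤ e + 7 := by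
      have h4 : e / UU ≤ 1 / 3 := by
        rw [div_le_iff₀ UU_pos]
        norm_num [UU]
        linarith only [he]
      linarith only [h4, hv]
    have := div_le_div_of_nonneg_right h3 hm'.le
    linarith only [this]
  unfold Ap at h2 ⊢
  rw [cx_add]
  have e1 : (1 + z * v / m) * UU - (cx (gr p q a b m) (gi p q a b m) + UU) =
      z * v / m * UU - cx (gr p q a b m) (gi p q a b m) := by ring
  rw [e1]
  exact h2

theorem hor_sound {α : Type} {z : ℂ} {p q : ℕ} (h : Ap z p q 3) (hz : ‖z‖ ≤ 1)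
    (k : ℕ → ℕ → α) (n : ℕ) {v : ℂ} {a b : ℕ} (h' : Ap v a b 11) (hv : ‖v‖ ≤ 2) :
    ∃ c d, hor p q k (n + 1) a b = k c d ∧ Ap (tr z (n + 1) v) c d 20 := by
  induction n generalizing v a b with
  | zero =>
    have h1 := hor_step (m := Nat.succ 0) h h' one_pos hz hv (by norm_num)
    rw [hor_succ, hor_zero]
    refine ⟨_, _, rfl, ?_⟩
    rw [tr, tr]
    refine h1.mono ?_
    norm_num
  | succ n ih =>
    have h1 := hor_step (m := Nat.succ (n + 1)) h h' (Nat.succ_pos (n + 1)) hz hv (by norm_num)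
    have h2 : Ap (1 + z * v / ((Nat.succ (n + 1) : ℕ) : ℂ))
        (Nat.add 281474976710656 (gr p q a b (Nat.succ (n + 1))))
        (gi p q a b (Nat.succ (n + 1))) 11 := by
      refine h1.mono ?_
      have h3 : (2 : ℝ) ≤ ((n + 1).succ : ℕ) := by
        push_cast
        have : (0 : ℝ) ≤ n := Nat.cast_nonneg n
        linarith only []
      have h4 : (11 + 7 : ℝ) / ((n + 1).succ : ℕ) ≤ (11 + 7) / 2 :=
        div_le_div_of_nonneg_left (by norm_num) (by norm_num) h3
      linarith only [h4]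
    have h3 : ‖1 + z * v / ((Nat.succ (n + 1) : ℕ) : ℂ)‖ ≤ 2 := by
      refine (norm_add_le _ _).trans ?_
      rw [norm_one, norm_div, norm_mul, Complex.norm_natCast]
      have h4 : (2 : ℝ) ≤ ((Nat.succ (n + 1) : ℕ) : ℝ) := by
        push_cast
        have : (0 : ℝ) ≤ n := Nat.cast_nonneg n
        linarith only []
      have h5 : ‖z‖ * ‖v‖ / ((Nat.succ (n + 1) : ℕ) : ℝ) ≤ 1 := by
        rw [div_le_iff₀ (by linarith only [h4])]
        linarith only [h4, hv, mul_nonneg (sub_nonneg.2 hz) (sub_nonneg.2 (norm_nonneg v))]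
      linarith only [h5]
    obtain ⟨c, d, h4, h5⟩ := ih h2 h3
    rw [hor_succ, h4]
    exact ⟨c, d, rfl, h5⟩

/-- The exponential function of the fixed point input. -/
theorem hor_exp {α : Type} {z : ℂ} {p q : ℕ} (h : Ap z p q 3) (hz : ‖z‖ ≤ 1)
    (k : ℕ → ℕ → α) :
    ∃ c d, hor p q k 16 4785074604081152 4503599627370496 = k c d ∧ Ap (exp z) c d 21 := by
  have h1 : Ap 1 4785074604081152 4503599627370496 11 := by
    unfold Ap
    have : (1 : ℂ) * UU - cx 4785074604081152 4503599627370496 = 0 := by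
      apply Complex.ext
      · rw [sub_re, cx_re]
        norm_num [UU, KK]
      · rw [sub_im, cx_im]
        norm_num [UU, KK]
    rw [this, norm_zero]
    norm_num
  obtain ⟨c, d, h2, h3⟩ := hor_sound h hz k 15 h1 (by norm_num)
  refine ⟨c, d, h2, ?_⟩
  have h4 := Complex.exp_bound hz (show 0 < 17 by norm_num)
  have h5 : tr z (15 + 1) 1 = ∑ m ∈ Finset.range 17, z ^ m / (m.factorial : ℂ) := by
    rw [tr_eq, Finset.sum_range_succ _ 16, mul_one]
  rw [h5] at h3
  unfold Ap at h3 ⊢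
  have e1 : exp z * UU - cx c d = (exp z - ∑ m ∈ Finset.range 17, z ^ m / (m.factorial : ℂ)) * UU +
      ((∑ m ∈ Finset.range 17, z ^ m / (m.factorial : ℂ)) * UU - cx c d) := by ring
  rw [e1]
  refine (norm_add_le _ _).trans ?_
  rw [norm_mul, norm_real, Real.norm_of_nonneg UU_pos.le]
  have h6 : ‖exp z - ∑ m ∈ Finset.range 17, z ^ m / (m.factorial : ℂ)‖ * UU ≤ 1 := by
    have h7 : ‖z‖ ^ 17 ≤ 1 := pow_le_one₀ (norm_nonneg z) hz
    have h8 : ((Nat.succ 17 : ℝ) * (((Nat.factorial 17 : ℕ) : ℝ) * ((17 : ℕ) : ℝ))⁻¹) * UU ≤ 1 := by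
      rw [show Nat.factorial 17 = 355687428096000 by decide +kernel]
      norm_num [UU]
    have h9 : ‖z‖ ^ 17 * ((Nat.succ 17 : ℝ) * (((Nat.factorial 17 : ℕ) : ℝ) * ((17 : ℕ) : ℝ))⁻¹) ≤
        1 * ((Nat.succ 17 : ℝ) * (((Nat.factorial 17 : ℕ) : ℝ) * ((17 : ℕ) : ℝ))⁻¹) :=
      mul_le_mul_of_nonneg_right h7 (by positivity)
    calc _ ≤ (‖z‖ ^ 17 * ((Nat.succ 17 : ℝ) * (((Nat.factorial 17 : ℕ) : ℝ) * ((17 : ℕ) : ℝ))⁻¹)) * UU :=
          mul_le_mul_of_nonneg_right (by exact_mod_cast h4) UU_pos.le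
      _ ≤ (1 * ((Nat.succ 17 : ℝ) * (((Nat.factorial 17 : ℕ) : ℝ) * ((17 : ℕ) : ℝ))⁻¹)) * UU :=
          mul_le_mul_of_nonneg_right h9 UU_pos.le
      _ ≤ 1 := by rw [one_mul]; exact h8
  linarith only [h6, h3]

/-- Repeated squaring. -/
theorem sq_step {w : ℂ} {a b : ℕ} {e : ℝ} (h : Ap w a b e) (hw : ‖w‖ ≤ 1) (he : e ≤ 1000) :
    Ap (w * w) (gr a b a b 1) (gi a b a b 1) (2 * e + 3) := by
  have e0 : 0 ≤ e := (norm_nonneg _).trans h
  have h1 := h.mul h one_pos hw (hw.trans (by norm_num)) (he.trans (by norm_num [UU]))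
    (he.trans (by norm_num [UU]))
  have e1 : w * w / ((1 : ℕ) : ℂ) = w * w := by simp
  rw [e1] at h1
  refine h1.mono ?_
  have h2 : e / UU ≤ 1 / 1000 := by
    rw [div_le_iff₀ UU_pos]
    norm_num [UU]
    linarith only [he]
  have h3 : e * (‖w‖ + e / UU) ≤ e * (1 + 1 / 1000) := by
    apply mul_le_mul_of_nonneg_left _ e0
    linarith only [h2, hw]
  norm_num
  linarith only [h3, he]

/-- The program `wst` computes `ww`. -/
theorem wst_sound {α : Type} {X S D : ℕ} (hD : 1 ≤ D) (hX : X ≤ D) (hS : 2 * S ≤ D)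
    (k : ℕ → ℕ → α) :
    ∃ c d, wst X S D k = k c d ∧ Ap (ww ((X : ℝ) / D) ((S : ℝ) / D)) c d 512 := by
  have hD' : (0 : ℝ) < D := by exact_mod_cast hD
  have hX' : (X : ℝ) ≤ D := by exact_mod_cast hX
  have hS' : 2 * (S : ℝ) ≤ D := by exact_mod_cast hS
  have hX0 : (0 : ℝ) ≤ X := Nat.cast_nonneg X
  have hS0 : (0 : ℝ) ≤ S := Nat.cast_nonneg S
  have hx : (X : ℝ) / D ≤ 1 := by rw [div_le_iff₀ hD']; linarith only [hX']
  have hs : (S : ℝ) / D ≤ 1 / 2 := by rw [div_le_iff₀ hD']; linarith only [hS']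
  have hx0 : 0 ≤ (X : ℝ) / D := by positivity
  have hs0 : 0 ≤ (S : ℝ) / D := by positivity
  set x : ℝ := (X : ℝ) / D
  set s : ℝ := (S : ℝ) / D
  have pi1 := Real.pi_gt_d20
  have pi2 := Real.pi_lt_d20
  set z : ℂ := 2 * Real.pi * I * ((x : ℂ) + s * I) / 8 with hz
  have zre : z.re = -(2 * Real.pi * s / 8) := by
    rw [hz]
    simp only [mul_re, mul_im, add_re, add_im, ofReal_re, ofReal_im, I_re, I_im, re_ofNat,
      im_ofNat, div_ofNat_re]
    ring
  have zim : z.im = 2 * Real.pi * x / 8 := by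
    rw [hz]
    simp only [mul_re, mul_im, add_re, add_im, ofReal_re, ofReal_im, I_re, I_im, re_ofNat,
      im_ofNat, div_ofNat_im]
    ring
  have hz1 : ‖z‖ ≤ 1 := by
    rw [← sq_le_one_iff₀ (norm_nonneg z), Complex.sq_norm, normSq_apply, zre, zim]
    have h1 : Real.pi ^ 2 ≤ 10 := by (refine le_of_not_gt fun hng => ?_; linarith only [pi2, pi1,
                                       mul_pos (sub_pos.2 pi1) (sub_pos.2 pi2),
                                       mul_pos (sub_pos.2 hng) (sub_pos.2 pi2),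
                                       mul_pos (sub_pos.2 hng) (sub_pos.2 pi1)])
    have h2 : x ^ 2 + s ^ 2 ≤ 5 / 4 := by (refine le_of_not_gt fun hng => ?_; linarith only [hs, hx,
                                            mul_nonneg (sub_nonneg.2 hs) (sub_nonneg.2 hs0),
                                            mul_nonneg (sub_nonneg.2 hx) (sub_nonneg.2 hx0),
                                            mul_pos (sub_pos.2 hng) (sub_pos.2 pi2),
                                            mul_pos (sub_pos.2 hng) (sub_pos.2 pi1)])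
    have h3 : 0 ≤ x ^ 2 + s ^ 2 := by positivity
    linarith only [mul_le_mul h1 h2 h3 (by norm_num : (0:ℝ) ≤ 10), pi2, pi1]
  have hU : UU = 281474976710656 := rfl
  have hP : |2 * Real.pi * UU - 1768559438007110| ≤ 1 := by
    rw [hU, abs_le]
    constructor <;> linarith only [pi1, pi2]
  have hP' := abs_le.1 hP
  have b1 := div_bounds (1768559438007110 * S) (show 0 < 8 * D by omega)
  have b2 := div_bounds (1768559438007110 * X) (show 0 < 8 * D by omega)
  set m1 := (1768559438007110 * S) / (8 * D) with hm1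
  set m2 := (1768559438007110 * X) / (8 * D) with hm2
  push_cast at b1 b2
  have e1 : (1768559438007110 : ℝ) * S / (8 * D) = 1768559438007110 * s / 8 := by
    simp only [s]
    field_simp
  have e2 : (1768559438007110 : ℝ) * X / (8 * D) = 1768559438007110 * x / 8 := by
    simp only [x]
    field_simp
  rw [e1] at b1
  rw [e2] at b2
  have hle : m1 ≤ 4503599627370496 := by
    have : (m1 : ℝ) ≤ (4503599627370496 : ℕ) := by
      push_cast
      linarith only [b1.2, pi2, pi1, hs]
    exact_mod_cast this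
  have hAp : Ap z (4503599627370496 - m1) (4503599627370496 + m2) 3 := by
    unfold Ap
    refine (Complex.norm_le_abs_re_add_abs_im _).trans ?_
    rw [sub_re, sub_im, cx_re, cx_im, mul_comm, re_ofReal_mul, im_ofReal_mul, zre, zim,
      Nat.cast_sub hle]
    push_cast
    have t1 : |UU * -(2 * Real.pi * s / 8) - (4503599627370496 - (m1 : ℝ) - KK)| ≤ 3 / 2 := by
      simp only [KK]
      rw [abs_le]
      have f1 := mul_le_mul_of_nonneg_right hP'.1 hs0
      have f2 := mul_le_mul_of_nonneg_right hP'.2 hs0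
      constructor <;> linarith only [b1.1, b1.2, f1, f2, hs, hs0]
    have t2 : |UU * (2 * Real.pi * x / 8) - (4503599627370496 + (m2 : ℝ) - KK)| ≤ 3 / 2 := by
      simp only [KK]
      rw [abs_le]
      have f1 := mul_le_mul_of_nonneg_right hP'.1 hx0
      have f2 := mul_le_mul_of_nonneg_right hP'.2 hx0
      constructor <;> linarith only [b2.1, b2.2, f1, f2, hx, hx0]
    linarith only [t2, t1]
  obtain ⟨c, d, h1, h2⟩ := hor_exp hAp hz1
    (fun a b => sqs (fun a b => fN (fun a => fN (fun b => k a b) b) a) 3 a b)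
  have e8 : exp z * exp z * (exp z * exp z) * (exp z * exp z * (exp z * exp z)) =
      ww x s := by
    unfold ww
    rw [← Complex.exp_add, ← Complex.exp_add, ← Complex.exp_add]
    congr 1
    rw [hz]
    ring
  have nz : ‖exp z‖ ≤ 1 := by
    rw [norm_exp, zre, Real.exp_le_one_iff]
    have := Real.pi_pos
    have := mul_nonneg this.le hs0
    linarith only [this]
  have q1 := sq_step h2 nz (by norm_num)
  have n1 : ‖exp z * exp z‖ ≤ 1 := by
    rw [norm_mul]
    exact mul_le_one₀ nz (norm_nonneg _) nz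
  have q2 := sq_step q1 n1 (by norm_num)
  have n2 : ‖exp z * exp z * (exp z * exp z)‖ ≤ 1 := by
    rw [norm_mul]
    exact mul_le_one₀ n1 (norm_nonneg _) n1
  have q3 := sq_step q2 n2 (by norm_num)
  rw [e8] at q3
  refine ⟨_, _, ?_, q3.mono (by norm_num)⟩
  have e9 : wst X S D k = hor (4503599627370496 - m1) (4503599627370496 + m2)
    (fun a b => sqs (fun a b => fN (fun a => fN (fun b => k a b) b) a) 3 a b) 16
    4785074604081152 4503599627370496 := rfl
  rw [e9, h1]
  simp only [sqs_succ, sqs_zero, fN_eq]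

end Pool.Agent.S5.Num
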