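import Pool.Agent.S5.I.NumLa
import Pool.Agent.S5.I.NumSe

/-!
# Fixed point evaluation of the logarithm: soundness
-/

set_option autoImplicit false

namespace Pool.Agent.S5.Num

open Complex

theorem log_quot_err {x y : ℝ} (h0 : 0 ≤ x) (h : x ≤ y) (h1 : y ≤ 1 / 2) :
    0 ≤ 1 / 2 * Real.log ((1 + y) / (1 - y)) - 1 / 2 * Real.log ((1 + x) / (1 - x)) ∧
    1 / 2 * Real.log ((1 + y) / (1 - y)) - 1 / 2 * Real.log ((1 + x) / (1 - x)) ≤ 2 * (y - x) := by
  have a1 : 0 < (1 + y) / (1 - y) := div_pos (by linarith) (by linarith)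
  have a2 : 0 < (1 + x) / (1 - x) := div_pos (by linarith) (by linarith)
  have h2 : (1 + x) / (1 - x) ≤ (1 + y) / (1 - y) := by
    rw [div_le_div_iff₀ (by linarith) (by linarith)]
    nlinarith
  have h3 := Real.log_le_log a2 h2
  have h4 := Real.log_le_sub_one_of_pos (div_pos a1 a2)
  rw [Real.log_div a1.ne' a2.ne'] at h4
  have h5 : (1 + y) / (1 - y) / ((1 + x) / (1 - x)) - 1 ≤ 4 * (y - x) := by
    have e : (1 + y) / (1 - y) / ((1 + x) / (1 - x)) - 1 = 2 * (y - x) / ((1 - y) * (1 + x)) := by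
      have := (show 1 - y ≠ 0 by intro h; linarith)
      have := (show 1 - x ≠ 0 by intro h; linarith)
      have := (show 1 + x ≠ 0 by intro h; linarith)
      field_simp
      ring
    rw [e, div_le_iff₀ (by nlinarith)]
    have h6 : 1 / 2 ≤ (1 - y) * (1 + x) := by nlinarith
    nlinarith
  constructor <;> linarith

/-- Soundness of `lnh`. -/
theorem lnh_sound {v : ℕ} (h0 : 0 < v) (h1 : v < 2 ^ 120) :
    |((lnh v : ℕ) : ℝ) - UU * (1 / 2 * Real.log v)| ≤ 40 := by
  unfold lnh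
  simp only [fN_eq]
  have hl1 := Nat.log2_self_le h0.ne'
  have hl2 : v < 2 ^ (Nat.log2 v + 1) := Nat.lt_log2_self
  have hl3 : Nat.log2 v < 120 := (Nat.log2_lt h0.ne').2 h1
  generalize Nat.log2 v = l at *
  have hU := UU_pos
  have hUe : UU = 2 ^ 48 := by norm_num [UU]
  have r1 : (2 : ℝ) ^ l ≤ v := by exact_mod_cast hl1
  have r2 : (v : ℝ) < 2 ^ (l + 1) := by exact_mod_cast hl2
  have hv : (0 : ℝ) < v := by exact_mod_cast h0
  have hp : (0 : ℝ) < 2 ^ l := by positivity
  have hl4 : (l : ℝ) ≤ 119 := by exact_mod_cast (by omega : l ≤ 119)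
  have hl0 : (0 : ℝ) ≤ l := Nat.cast_nonneg l
  -- the mantissa
  have b1 := div_bounds (v * 2 ^ (120 - l)) (show 0 < 4722366482869645213696 by norm_num)
  have e1 : ((v * 2 ^ (120 - l) : ℕ) : ℝ) / ((4722366482869645213696 : ℕ) : ℝ) =
      UU * ((v : ℝ) / 2 ^ l) := by
    have e2 : (2 : ℝ) ^ (120 - l) = 2 ^ 120 / 2 ^ l := by
      rw [eq_div_iff hp.ne', ← pow_add]
      congr 1
      omega
    have e3 : ((4722366482869645213696 : ℕ) : ℝ) = 2 ^ 72 := by norm_num
    rw [e3, hUe]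
    push_cast
    rw [e2]
    field_simp
  rw [e1] at b1
  have e4 : Nat.div (Nat.mul v (Nat.pow 2 (Nat.sub 120 l))) 4722366482869645213696 =
      v * 2 ^ (120 - l) / 4722366482869645213696 := by
    rw [div_eq', mul_eq', sub_eq']
    rfl
  rw [e4]
  have hm : 281474976710656 ≤ v * 2 ^ (120 - l) / 4722366482869645213696 := by
    rw [Nat.le_div_iff_mul_le (by norm_num)]
    calc 281474976710656 * 4722366482869645213696 = 2 ^ 120 := by norm_num
      _ = 2 ^ l * 2 ^ (120 - l) := by rw [← pow_add]; congr 1; omega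
      _ ≤ v * 2 ^ (120 - l) := Nat.mul_le_mul_right _ hl1
  generalize v * 2 ^ (120 - l) / 4722366482869645213696 = m at b1 hm ⊢
  have hm' : UU ≤ m := by
    have : ((281474976710656 : ℕ) : ℝ) ≤ m := Nat.cast_le.2 hm
    rwa [Nat.cast_ofNat] at this
  have hsub : ((Nat.sub m 281474976710656 : ℕ) : ℝ) = m - UU := by
    rw [sub_eq', Nat.cast_sub hm, Nat.cast_ofNat]
    rfl
  have hadd : ((Nat.add m 281474976710656 : ℕ) : ℝ) = m + UU := by
    rw [add_eq', Nat.cast_add, Nat.cast_ofNat]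
    rfl
  clear hm hl1 hl2 hl3 h0 h1 e4
  have b2 := div_bounds (Nat.mul (Nat.sub m 281474976710656) 281474976710656)
    (show 0 < Nat.add m 281474976710656 from Nat.succ_pos _)
  have e5 : ((Nat.mul (Nat.sub m 281474976710656) 281474976710656 : ℕ) : ℝ) = (m - UU) * UU := by
    rw [mul_eq', Nat.cast_mul, hsub, Nat.cast_ofNat]
    rfl
  rw [e5, hadd] at b2
  have e6 : Nat.div (Nat.mul (Nat.sub m 281474976710656) 281474976710656)
    (Nat.add m 281474976710656) = Nat.mul (Nat.sub m 281474976710656) 281474976710656 /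
    Nat.add m 281474976710656 := rfl
  rw [e6]
  generalize Nat.mul (Nat.sub m 281474976710656) 281474976710656 /
    Nat.add m 281474976710656 = r at b2 ⊢
  set y : ℝ := (m - UU) / (m + UU) with hy
  set x : ℝ := r / UU with hx
  have hmU : (0 : ℝ) < m + UU := by linarith
  have e7 : (m - UU) * UU / (m + UU) = UU * y := by rw [hy]; ring
  rw [e7] at b2
  have hxr : (r : ℝ) = UU * x := by rw [hx]; field_simp
  have hx0 : 0 ≤ x := div_nonneg (Nat.cast_nonneg r) hU.le
  have hxy : x ≤ y := by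
    rw [hx, div_le_iff₀ hU]
    linarith [b2.2]
  have hxy2 : UU * (y - x) ≤ 1 := by
    rw [mul_sub, ← hxr]
    linarith [b2.1]
  have hmu : (m : ℝ) ≤ 2 * UU := by
    have : (v : ℝ) / 2 ^ l ≤ 2 := by
      rw [div_le_iff₀ hp]
      rw [pow_succ] at r2
      linarith
    have := mul_le_mul_of_nonneg_left this hU.le
    linarith [b1.2]
  have hy1 : y ≤ 1 / 2 := by
    rw [hy, div_le_iff₀ hmU]
    linarith
  have h2 := log_quot_err hx0 hxy hy1
  have h3 := aT_sound hx0 (hxy.trans hy1) hxr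
  have e8 : (1 + y) / (1 - y) = m / UU := by
    rw [hy]
    have : (m : ℝ) + UU ≠ 0 := hmU.ne'
    have e9 : 1 + ((m : ℝ) - UU) / (m + UU) = 2 * m / (m + UU) := by
      field_simp
      ring
    have e10 : 1 - ((m : ℝ) - UU) / (m + UU) = 2 * UU / (m + UU) := by
      field_simp
      ring
    rw [e9, e10, div_div_div_cancel_right₀ this, mul_div_mul_left _ _ two_ne_zero]
  rw [e8] at h2
  have hm0 : (0 : ℝ) < m := by linarith
  -- the logarithm of `v`
  have hlv : Real.log v = l * Real.log 2 + Real.log (v / 2 ^ l) := by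
    rw [Real.log_div hv.ne' hp.ne', Real.log_pow]
    ring
  have hq : 0 < (v : ℝ) / 2 ^ l := div_pos hv hp
  have h4 : Real.log (m / UU) ≤ Real.log (v / 2 ^ l) := by
    apply Real.log_le_log (div_pos hm0 hU)
    rw [div_le_iff₀ hU]
    linarith [b1.2]
  have h5 : Real.log (v / 2 ^ l) - Real.log (m / UU) ≤ 1 / UU := by
    have hmq : 0 < (m : ℝ) / UU := div_pos hm0 hU
    have h6 := Real.log_le_sub_one_of_pos (div_pos hq hmq)
    rw [Real.log_div hq.ne' hmq.ne'] at h6
    refine h6.trans ?_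
    have h7 : (v : ℝ) / 2 ^ l / (m / UU) - 1 = (UU * (v / 2 ^ l) - m) / m := by
      have := hm0.ne'
      rw [div_div_eq_mul_div, sub_div, div_self this]
      ring
    rw [h7, div_le_div_iff₀ hm0 hU]
    have h8 : UU * (v / 2 ^ l) - m ≤ 1 := by linarith [b1.1]
    have h9 := mul_le_mul_of_nonneg_right h8 hU.le
    linarith
  have b3 := div_bounds (Nat.mul l 195103586505167) (show 0 < 2 by norm_num)
  have e11 : ((Nat.mul l 195103586505167 : ℕ) : ℝ) = l * 195103586505167 := by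
    rw [mul_eq', Nat.cast_mul, Nat.cast_ofNat]
  rw [e11] at b3
  have e12 : Nat.div (Nat.mul l 195103586505167) 2 = Nat.mul l 195103586505167 / 2 := rfl
  rw [e12, add_eq', Nat.cast_add]
  generalize ((Nat.mul l 195103586505167 / 2 : ℕ) : ℝ) = w at b3 ⊢
  have h10 := abs_le.1 log_two_U
  have h11 : |(l : ℝ) * (UU * Real.log 2 - 195103586505167)| ≤ 119 * (1 / 2) := by
    rw [abs_mul, abs_of_nonneg hl0]
    exact mul_le_mul hl4 log_two_U (abs_nonneg _) (by norm_num)
  have h12 := abs_le.1 h11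
  have h13 := abs_le.1 h3
  have h14 := mul_le_mul_of_nonneg_left h2.1 hU.le
  have h15 := mul_le_mul_of_nonneg_left h2.2 hU.le
  have h16 := mul_le_mul_of_nonneg_left h4 hU.le
  have h17 := mul_le_mul_of_nonneg_left h5 hU.le
  have h18 : UU * (1 / UU) = 1 := by field_simp
  rw [h18] at h17
  rw [hlv, abs_le]
  constructor <;> linarith [h12.1, h12.2, h13.1, h13.2, b3.1, b3.2]

end Pool.Agent.S5.Num
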