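import Pool.Agent.S5.I.Y3R
import Pool.Agent.S5.I.Y3T

/-!
# The flats of a node with three half twists: the reserve for small `q`, second form
-/

set_option autoImplicit false

namespace Pool.Agent.S5.Y3

open MeasureTheory Filter Topology Set Pool.Agent.S5.C2

/-- Summation over cells, from the top. -/
theorem cells_dn {f : ℝ → ℝ} {h : ℝ} {m : ℕ} {r : ℕ → ℝ} (hh : 0 < h) (f0 : 0 ≤ f (3 / 10))
    (hs : ∀ j < m, ∀ q q', 3 / 10 - (j + 1) * h ≤ q → q ≤ q' → q' ≤ 3 / 10 - j * h →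
      f q' + (q' - q) * r j ≤ f q) :
    ∀ j < m, ∀ q, 3 / 10 - (j + 1) * h ≤ q → q ≤ 3 / 10 - j * h →
      h * (∑ k ∈ Finset.range j, r k) + (3 / 10 - j * h - q) * r j ≤ f q := by
  have key : ∀ j ≤ m, h * (∑ k ∈ Finset.range j, r k) ≤ f (3 / 10 - j * h) := by
    intro j
    induction j with
    | zero =>
      intro _
      simpa using f0
    | succ j ih =>
      intro hj
      have h1 := ih (by omega)
      have h2 := hs j (by omega) (3 / 10 - (j + 1) * h) (3 / 10 - j * h) le_rfl (by linarith) le_rfl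
      rw [Finset.sum_range_succ]
      push_cast
      have e : (3 / 10 - (j : ℝ) * h - (3 / 10 - (j + 1) * h)) * r j = h * r j := by ring
      rw [e] at h2
      rw [mul_add]
      linarith
  intro j hj q hq hq'
  have h1 := key j hj.le
  have h2 := hs j hj q (3 / 10 - j * h) hq hq' le_rfl
  linarith

/-- Summation over cells, from the bottom, up to `Q`. -/
theorem cells_up {g : ℝ → ℝ} {h Q : ℝ} {m : ℕ} {r : ℕ → ℝ} (hh : 0 < h)
    (g0 : 0 ≤ g (3 / 10 - m * h))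
    (hs : ∀ j < m, ∀ q q', 3 / 10 - (j + 1) * h ≤ q → q ≤ q' → q' ≤ 3 / 10 - j * h → q' ≤ Q →
      g q + (q' - q) * r j ≤ g q') :
    (3 / 10 ≤ Q → h * (∑ k ∈ Finset.range m, r k) ≤ g (3 / 10)) ∧
    ∀ j < m, ∀ q, 3 / 10 - (j + 1) * h ≤ q → q ≤ 3 / 10 - j * h → q ≤ Q →
      h * (∑ k ∈ Finset.range m, r k) - h * (∑ k ∈ Finset.range (j + 1), r k) +
        (q - (3 / 10 - (j + 1) * h)) * r j ≤ g q := by
  have key : ∀ i ≤ m, 3 / 10 - ((m - i : ℕ) : ℝ) * h ≤ Q →
      h * (∑ k ∈ Finset.range m, r k) - h * (∑ k ∈ Finset.range (m - i), r k) ≤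
        g (3 / 10 - ((m - i : ℕ) : ℝ) * h) := by
    intro i
    induction i with
    | zero =>
      intro _ _
      simpa using g0
    | succ i ih =>
      intro hi hQ
      obtain ⟨j, hj⟩ : ∃ j, m - i = j + 1 := ⟨m - i - 1, by omega⟩
      have hj' : m - (i + 1) = j := by omega
      rw [hj'] at hQ ⊢
      rw [hj] at ih
      have e1 : (((j + 1 : ℕ)) : ℝ) = (j : ℝ) + 1 := by push_cast; ring
      rw [e1] at ih
      have h1 := ih (by omega) (by linarith)
      have h2 := hs j (by omega) (3 / 10 - (j + 1) * h) (3 / 10 - j * h) le_rfl (by linarith) le_rfl hQ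
      rw [Finset.sum_range_succ] at h1
      have e : (3 / 10 - (j : ℝ) * h - (3 / 10 - (j + 1) * h)) * r j = h * r j := by ring
      rw [e] at h2
      rw [mul_add] at h1
      linarith
  constructor
  · intro hQ
    have := key m le_rfl
    simp only [Nat.sub_self, Nat.cast_zero, zero_mul, sub_zero, Finset.range_zero,
      Finset.sum_empty, mul_zero] at this
    exact this hQ
  · intro j hj q hq hq' hQ
    obtain ⟨i, hi⟩ : ∃ i, m - i = j + 1 ∧ i ≤ m := ⟨m - (j + 1), by omega, by omega⟩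
    have h1 := key i hi.2
    rw [hi.1] at h1
    have e1 : (((j + 1 : ℕ)) : ℝ) = (j : ℝ) + 1 := by push_cast; ring
    rw [e1] at h1
    have h1 := h1 (by linarith)
    have h2 := hs j hj (3 / 10 - (j + 1) * h) q le_rfl hq hq' hQ
    linarith

/-- `V_p < 0` on `(0, a)`, first on the line `q = 1 / 10`, therefore for `q ≤ 3 / 10`. -/
theorem VV_left' {n : ℕ} {s1 s4 s3 p0 q0 a p q : ℝ} (hB : Bp s1 s4 s3 p0 q0) (hp : 0 ≤ p)
    (hpa : p ≤ a) (ha' : a ≤ 1 / 5) (hq : 1 / 10 ≤ q) (hq' : q ≤ 3 / 10)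
    (hlt : ∀ p, 0 < p → p < a → n * (Lq s1 p - Lq s1 p0) ≤ Lq s3 (p + 1 / 10) - Lq s3 (p0 + q0)) :
    VV n s1 s4 s3 p0 q0 a q ≤ VV n s1 s4 s3 p0 q0 p q := by
  have e := HH_sub (n := n) (x0 := p0) (X0 := p0 + q0) (c := q) (x := p) (x' := a) hB.h1 hB.h3
  have k : ∫ t in p..a, (n * (Lq s1 t - Lq s1 p0) - (Lq s3 (t + q) - Lq s3 (p0 + q0))) ≤
      ∫ _t in p..a, (0 : ℝ) := by
    apply intervalIntegral.integral_mono_on_of_le_Ioo hpa (HH_int hB.h1 hB.h3) (by simp)
    intro t ht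
    have h1 := hlt t (by linarith [ht.1]) ht.2
    have h2 : Sn (t + 1 / 10) ≤ Sn (t + q) :=
      Sn_mono (by linarith [ht.1]) (by linarith) (by linarith [ht.2])
    have h3 : 0 < Sn (t + 1 / 10) := Sn_pos (by linarith [ht.1]) (by linarith [ht.2])
    have h4 := Lq_mono_t (t := t + 1 / 10) (t' := t + q) hB.h3 (by linarith [hB.h3]) h2
    linarith
  rw [intervalIntegral.integral_zero] at k
  rw [VV_HHp, VV_HHp]
  linarith

/-- `c` is a lower bound of `Lq s q0 - Lq s t` between `q` and `q'`. -/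
theorem Dq_step {s x0 q q' c : ℝ} (hs : 0 ≤ s) (hq : q ≤ q')
    (h : ∀ t ∈ Icc q q', c ≤ Lq s x0 - Lq s t) :
    Dq s x0 q' + (q' - q) * c ≤ Dq s x0 q := by
  have e := Dq_sub hs x0 q q'
  have k : ∫ t in q..q', (Lq s t - Lq s x0) ≤ ∫ _t in q..q', (-c) := by
    apply intervalIntegral.integral_mono_on hq ((Lq_int hs _ _).sub (by simp)) (by simp)
    intro t ht
    have := h t ht
    linarith
  rw [intervalIntegral.integral_const, smul_eq_mul] at k
  linarith

/-- `c` is a lower bound of `Lq s t - Lq s x0` between `x` and `x'`. -/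
theorem Dq_step' {s x0 x x' c : ℝ} (hs : 0 ≤ s) (hx : x ≤ x')
    (h : ∀ t ∈ Icc x x', c ≤ Lq s t - Lq s x0) :
    Dq s x0 x + (x' - x) * c ≤ Dq s x0 x' := by
  have e := Dq_sub hs x0 x x'
  have k : ∫ _t in x..x', c ≤ ∫ t in x..x', (Lq s t - Lq s x0) := by
    apply intervalIntegral.integral_mono_on hx (by simp) ((Lq_int hs _ _).sub (by simp))
    intro t ht
    exact h t ht
  rw [intervalIntegral.integral_const, smul_eq_mul] at k
  linarith

/-- **The reserve on `q ≤ 3 / 10`, second form.** -/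
theorem resvB {n : ℕ} {s1 s4 s3 p0 q0 a h : ℝ} {m : ℕ} {r : ℕ → ℝ} (hB : Bp s1 s4 s3 p0 q0)
    (b0 : 3 / 10 ≤ q0) (b1 : q0 ≤ 1 / 2) (b2 : 1 / 2 ≤ p0 + q0) (ha : 0 ≤ a)
    (ha' : a ≤ 1 / 5) (hh : 0 < h) (hm : h * m = 1 / 5)
    (hlt : ∀ p, 0 < p → p < a → n * (Lq s1 p - Lq s1 p0) ≤ Lq s3 (p + 1 / 10) - Lq s3 (p0 + q0))
    (hr1 : ∀ j < m, ∀ t ∈ Icc (3 / 10 - (j + 1) * h) (3 / 10 - j * h), r j ≤ Lq s4 q0 - Lq s4 t)
    (hr2 : ∀ j < m, ∀ t ∈ Icc (3 / 10 - (j + 1) * h) (3 / 10 - j * h), ∀ p, a ≤ p → p + t ≤ 1 / 2 →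
      r j ≤ (Lq s3 (p + t) - Lq s3 (p0 + q0)) - (Lq s4 t - Lq s4 q0))
    (h0 : ∀ p, 0 ≤ p → p ≤ 1 / 2 → 0 ≤ VV n s1 s4 s3 p0 q0 p (3 / 10)) :
    ∀ p, 0 ≤ p → p ≤ 1 / 2 → ∀ j < m, ∀ q, 3 / 10 - (j + 1) * h ≤ q → q ≤ 3 / 10 - j * h →
      h * (∑ k ∈ Finset.range j, r k) + (3 / 10 - j * h - q) * r j ≤ VV n s1 s4 s3 p0 q0 p q := by
  have hjm : ∀ j < m, ((j : ℝ) + 1) * h ≤ 1 / 5 := by
    intro j hj
    have : ((j : ℝ) + 1) ≤ m := by exact_mod_cast hj
    calc ((j : ℝ) + 1) * h ≤ m * h := mul_le_mul_of_nonneg_right this hh.le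
      _ = 1 / 5 := by rw [mul_comm]; exact hm
  have hj0 : ∀ j : ℕ, 0 ≤ (j : ℝ) * h := fun j => by positivity
  have hP1 := hB.hP1
  have hp0 := hB.hp0
  have hp1 := hB.hp1
  -- in the triangle
  have tri : ∀ p q, 0 ≤ p → p ≤ 1 / 2 → 0 ≤ q → q ≤ 1 / 2 → 1 / 2 ≤ p + q →
      Dq s4 q0 q ≤ VV n s1 s4 s3 p0 q0 p q := by
    intro p q h1 h2 h3 h4 h5
    have k1 : 0 ≤ Dq s1 p0 p := Dq_nonneg' hB.h1 hp0 hp1.le h1 h2
    have k3 : 0 ≤ Dq s3 (1 - (p0 + q0)) (1 - (p + q)) :=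
      Dq_nonneg' hB.h3 (by linarith) (by linarith) (by linarith) (by linarith)
    rw [Dq_refl] at k3
    have kn : 0 ≤ (n : ℝ) * Dq s1 p0 p := by positivity
    unfold VV
    linarith
  have key : ∀ p, a ≤ p → p ≤ 1 / 2 → ∀ j < m, ∀ q, 3 / 10 - (j + 1) * h ≤ q →
      q ≤ 3 / 10 - j * h →
      h * (∑ k ∈ Finset.range j, r k) + (3 / 10 - j * h - q) * r j ≤ VV n s1 s4 s3 p0 q0 p q := by
    intro p hp hp1'
    have hpp : 0 ≤ p := by linarith
    have hcell := cells_dn (f := fun q => if p + q ≤ 1 / 2 then VV n s1 s4 s3 p0 q0 p q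
      else Dq s4 q0 q) (h := h) (m := m) (r := r) hh (by
        split_ifs with hc
        · exact h0 p hpp hp1'
        · exact Dq_nonneg' hB.h4 (by linarith [hB.hq0]) b1 (by norm_num) (by norm_num)) (by
        intro j hj q q' h1 h2 h3
        have hjm' := hjm j hj
        have hj0' := hj0 j
        have st1 : ∀ x x', 3 / 10 - (j + 1) * h ≤ x → x ≤ x' → x' ≤ 3 / 10 - j * h →
            p + x' ≤ 1 / 2 → VV n s1 s4 s3 p0 q0 p x' + (x' - x) * r j ≤ VV n s1 s4 s3 p0 q0 p x := by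
          intro x x' g1 g2 g3 g4
          exact VV_step hB g2 fun t ht => hr2 j hj t ⟨g1.trans ht.1, ht.2.trans g3⟩ p hp
            (by linarith [ht.2])
        have st2 : ∀ x x', 3 / 10 - (j + 1) * h ≤ x → x ≤ x' → x' ≤ 3 / 10 - j * h →
            Dq s4 q0 x' + (x' - x) * r j ≤ Dq s4 q0 x := by
          intro x x' g1 g2 g3
          exact Dq_step hB.h4 g2 fun t ht => hr1 j hj t ⟨g1.trans ht.1, ht.2.trans g3⟩
        by_cases c1 : p + q ≤ 1 / 2
        · rw [if_pos c1]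
          by_cases c2 : p + q' ≤ 1 / 2
          · rw [if_pos c2]
            exact st1 q q' h1 h2 h3 c2
          · rw [if_neg c2]
            rw [not_le] at c2
            have e1 := st1 q (1 / 2 - p) h1 (by linarith) (by linarith) (by linarith)
            have e2 := st2 (1 / 2 - p) q' (by linarith) (by linarith) h3
            have e3 := tri p (1 / 2 - p) hpp hp1' (by linarith) (by linarith) (by linarith)
            nlinarith
        · rw [if_neg c1]
          rw [not_le] at c1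
          rw [if_neg (by linarith)]
          exact st2 q q' h1 h2 h3)
    intro j hj q hq hq'
    have h1 := hcell j hj q hq hq'
    have hjm' := hjm j hj
    have hj0' := hj0 j
    split_ifs at h1 with hc
    · exact h1
    · rw [not_le] at hc
      exact h1.trans (tri p q hpp hp1' (by linarith) (by linarith) hc.le)
  intro p hp hp1' j hj q hq hq'
  rcases le_total a p with hap | hap
  · exact key p hap hp1' j hj q hq hq'
  · have h1 := key a le_rfl (by linarith) j hj q hq hq'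
    have h2 := hjm j hj
    have h3 := hj0 j
    have h4 := VV_left' (n := n) (s4 := s4) (q := q) hB hp hap ha' (by linarith) (by linarith) hlt
    linarith

end Pool.Agent.S5.Y3
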