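import Pool.Agent.S5.I.Y3N1
import Pool.Agent.S5.I.Y3Rb
import Pool.Agent.S5.I.Y3D
import Pool.Agent.S5.I.NumLb

/-!
# The flats of a node with three half twists: soundness of the reserve
-/

set_option autoImplicit false

namespace Pool.Agent.S5.Y3

open MeasureTheory Filter Topology Set Pool.Agent.S5.C2 Pool.Agent.S5.Num Pool.Agent.S5.K3

namespace N7

/-! ### The test `tlt` -/

theorem pwn_eq {n : ℕ} (hn : n = 1 ∨ n = 2) (x : ℕ) : pwn n x = x ^ n := by
  unfold pwn
  simp only [fN_eq]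
  rcases hn with h | h
  · subst h
    rw [show Nat.ble 1 1 = true from rfl, cond_true, pow_one]
  · subst h
    rw [show Nat.ble 2 1 = false from rfl, cond_false, Nat.mul_eq, pow_two]

/-- The algebra of `tlt`, in units. -/
theorem tlt_alg {n : ℕ} {X Y v al σ s1 CH C ch c lo hi s3 : ℝ} (hX0 : 0 ≤ X) (hs1 : 0 ≤ s1)
    (hXs : 0 ≤ X + s1) (hv : X ≤ v) (hval : v ≤ al) (hal : al ≤ Y) (hσ : s1 ≤ σ) (hal0 : 0 < al)
    (hCH0 : 0 ≤ CH) (hCH : CH ≤ ch) (hc : c ≤ C) (hlo0 : 0 ≤ lo) (hlo : lo ≤ s3) (hhi : s3 ≤ hi)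
    (h1 : (v + σ) ^ n * (ch + lo) < (al + σ) ^ n * (c + lo))
    (h2 : (v + σ) ^ n * (ch + hi) < (al + σ) ^ n * (c + hi)) :
    (X + s1) ^ n * (CH + s3) < (Y + s1) ^ n * (C + s3) := by
  -- the ratio
  have e1 : (X + s1) * (al + σ) ≤ (v + σ) * (Y + s1) := by
    nlinarith [mul_nonneg (sub_nonneg.2 hv) (sub_nonneg.2 hal),
      mul_nonneg (sub_nonneg.2 hσ) (sub_nonneg.2 (hv.trans hval)),
      mul_nonneg (sub_nonneg.2 hv) hs1, mul_nonneg hX0 (sub_nonneg.2 hal),
      mul_nonneg (hs1.trans hσ) (sub_nonneg.2 hal), mul_nonneg (sub_nonneg.2 hv) hal0.le]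
  have hal' : 0 < al + σ := by linarith
  have e2 : (X + s1) ^ n * (al + σ) ^ n ≤ (v + σ) ^ n * (Y + s1) ^ n := by
    rw [← mul_pow, ← mul_pow]
    exact pow_le_pow_left₀ (mul_nonneg hXs hal'.le) e1 n
  -- linear in `s3`
  have e3 : (v + σ) ^ n * (ch + s3) < (al + σ) ^ n * (c + s3) := by
    rcases le_total ((v + σ) ^ n) ((al + σ) ^ n) with h | h
    · have := mul_le_mul_of_nonneg_right h (sub_nonneg.2 hlo)
      linarith
    · have := mul_le_mul_of_nonneg_right h (sub_nonneg.2 hhi)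
      linarith
  have hA : 0 < (al + σ) ^ n := pow_pos hal' n
  have hY : 0 < Y + s1 := by linarith
  have hYn : 0 < (Y + s1) ^ n := pow_pos hY n
  have hs3 : 0 ≤ s3 := hlo0.trans hlo
  have hvn : 0 ≤ (v + σ) ^ n := pow_nonneg (by linarith) n
  have e4 : (al + σ) ^ n * ((X + s1) ^ n * (CH + s3)) < (al + σ) ^ n * ((Y + s1) ^ n * (C + s3)) :=
    calc (al + σ) ^ n * ((X + s1) ^ n * (CH + s3)) = ((X + s1) ^ n * (al + σ) ^ n) * (CH + s3) := by
          ring
      _ ≤ ((v + σ) ^ n * (Y + s1) ^ n) * (CH + s3) :=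
          mul_le_mul_of_nonneg_right e2 (by linarith)
      _ ≤ ((v + σ) ^ n * (Y + s1) ^ n) * (ch + s3) :=
          mul_le_mul_of_nonneg_left (by linarith) (mul_nonneg hvn hYn.le)
      _ = (Y + s1) ^ n * ((v + σ) ^ n * (ch + s3)) := by ring
      _ < (Y + s1) ^ n * ((al + σ) ^ n * (c + s3)) := mul_lt_mul_of_pos_left e3 hYn
      _ ≤ (Y + s1) ^ n * ((al + σ) ^ n * (C + s3)) := by
          apply mul_le_mul_of_nonneg_left _ hYn.le
          exact mul_le_mul_of_nonneg_left (by linarith) hA.le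
      _ = (al + σ) ^ n * ((Y + s1) ^ n * (C + s3)) := by ring
  exact lt_of_mul_lt_mul_left e4 hA.le

theorem tlt7 {d : Dx} {n a b : ℕ} {s1 s4 s3 s2 g5 p0 q0 qb : ℝ} (hn : n = 1 ∨ n = 2)
    (hd : d.Ok s1 s4 s3 s2 g5 p0 q0 qb) (hab : a ≤ b) (hb : b ≤ 160) (h : tlt d n a b = true) :
    (Sn (b / 400) + s1) ^ n * (Sn (p0 + q0) + s3) < (Sn p0 + s1) ^ n * (Sn (a / 400 + 1 / 10) + s3) := by
  have hB := hd.B
  unfold tlt at h
  simp only [fN_eq, pwn_eq hn, Nat.add_eq, Nat.mul_eq, Nat.succ_eq_add_one] at h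
  have b1 := (tn_ok (k := b) (by omega)).2
  have b2 := (tn_ok (k := a + 40) (by omega)).1
  generalize tn b = u at *
  generalize tn (a + 40) = c at *
  rw [fN_eq] at h
  rcases Bool.eq_false_or_eq_true (Nat.ble (u + 1) d.al) with h1 | h1
  swap
  · rw [h1, cond_false] at h
    exact absurd h (by simp)
  rw [h1, cond_true] at h
  rcases Bool.eq_false_or_eq_true (ltn ((u + 1 + d.s1h) ^ n * (d.ch + d.s3l))
    ((d.al + d.s1h) ^ n * (c + d.s3l))) with h2 | h2
  swap
  · rw [h2, cond_false] at h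
    exact absurd h (by simp)
  rw [h2, cond_true] at h
  have g1 : ((u + 1 : ℕ) : ℝ) ≤ d.al := by exact_mod_cast Nat.le_of_ble_eq_true h1
  have g2 : (((u + 1 + d.s1h) ^ n * (d.ch + d.s3l) : ℕ) : ℝ) < ((d.al + d.s1h) ^ n * (c + d.s3l) : ℕ) := by
    exact_mod_cast Nat.le_of_ble_eq_true h2
  have g3 : (((u + 1 + d.s1h) ^ n * (d.ch + d.s3h) : ℕ) : ℝ) < ((d.al + d.s1h) ^ n * (c + d.s3h) : ℕ) := by
    exact_mod_cast Nat.le_of_ble_eq_true h
  push_cast at g1 g2 g3
  have k := tlt_alg (n := n) (X := 1048576 * Sn (b / 400)) (Y := 1048576 * Sn p0) (v := (u : ℝ) + 1)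
    (al := d.al) (σ := d.s1h) (s1 := 1048576 * s1) (CH := 1048576 * Sn (p0 + q0))
    (C := 1048576 * Sn (a / 400 + 1 / 10)) (ch := d.ch) (c := c) (lo := d.s3l) (hi := d.s3h)
    (s3 := 1048576 * s3) (by have := Sn_nonneg ((b : ℝ) / 400); positivity)
    (by have := hB.h1; positivity)
    (by have := hB.h1; have := Sn_nonneg ((b : ℝ) / 400); positivity) b1 g1 hd.a1 hd.s12
    (by have : (0 : ℝ) ≤ u := Nat.cast_nonneg u; linarith)
    (by have := Sn_nonneg (p0 + q0); positivity) hd.c2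
    (by
      have e : (((a + 40 : ℕ) : ℝ) / 400) = a / 400 + 1 / 10 := by push_cast; ring
      rw [e] at b2
      exact b2) (Nat.cast_nonneg _) hd.s31 hd.s32 g2 g3
  have e1 : (1048576 * Sn (b / 400) + 1048576 * s1) ^ n * (1048576 * Sn (p0 + q0) + 1048576 * s3) =
      1048576 ^ n * 1048576 * ((Sn (b / 400) + s1) ^ n * (Sn (p0 + q0) + s3)) := by
    rw [← mul_add, ← mul_add, mul_pow]
    ring
  have e2 : (1048576 * Sn p0 + 1048576 * s1) ^ n * (1048576 * Sn (a / 400 + 1 / 10) + 1048576 * s3) =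
      1048576 ^ n * 1048576 * ((Sn p0 + s1) ^ n * (Sn (a / 400 + 1 / 10) + s3)) := by
    rw [← mul_add, ← mul_add, mul_pow]
    ring
  rw [e1, e2] at k
  exact lt_of_mul_lt_mul_left k (by positivity)

/-! ### Logarithms -/

theorem lnh_hi {v : ℕ} (h0 : 0 < v) (h1 : v ≤ 4194304) :
    UU * (Real.log v / 2) ≤ (lnh v : ℕ) + 40 := by
  have h := abs_le.1 (lnh_sound h0 (h1.trans_lt (by norm_num)))
  have e : UU * (1 / 2 * Real.log v) = UU * (Real.log v / 2) := by ring
  rw [e] at h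
  linarith [h.1]

theorem lnh_lo {v : ℕ} (h0 : 0 < v) (h1 : v ≤ 4194304) :
    ((lnh v : ℕ) : ℝ) ≤ UU * (Real.log v / 2) + 40 := by
  have h := abs_le.1 (lnh_sound h0 (h1.trans_lt (by norm_num)))
  have e : UU * (1 / 2 * Real.log v) = UU * (Real.log v / 2) := by ring
  rw [e] at h
  linarith [h.2]

theorem lnh_zero : lnh 0 = 0 := by decide +kernel

/-- The quotient decreases in the added constant. -/
theorem rat7 {S C s s' : ℝ} (hC : 0 < C + s) (hCS : C ≤ S) (hs : s ≤ s') :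
    Real.log (4 * (S + s')) / 2 - Real.log (4 * (C + s')) / 2 ≤
      Real.log (4 * (S + s)) / 2 - Real.log (4 * (C + s)) / 2 := by
  have h1 := Real.log_le_log (show 0 < 4 * (S + s') * (4 * (C + s)) by
    apply mul_pos <;> linarith) (show 4 * (S + s') * (4 * (C + s)) ≤
      4 * (S + s) * (4 * (C + s')) by nlinarith [mul_nonneg (sub_nonneg.2 hCS) (sub_nonneg.2 hs)])
  rw [Real.log_mul (x := 4 * (S + s')) (y := 4 * (C + s)) (by linarith) (by linarith),
    Real.log_mul (x := 4 * (S + s)) (y := 4 * (C + s')) (by linarith) (by linarith)] at h1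
  linarith

theorem lq_lo {s t a : ℝ} (h0 : 0 < a + s) (h : a ≤ Sn t) : Real.log (4 * (a + s)) / 2 ≤ Lq s t := by
  rw [Lq_eq]
  have := Real.log_le_log (show 0 < 4 * (a + s) by linarith)
    (show 4 * (a + s) ≤ 4 * (Sn t + s) by linarith)
  linarith

theorem lq_hi {s t a : ℝ} (h0 : 0 < Sn t + s) (h : Sn t ≤ a) : Lq s t ≤ Real.log (4 * (a + s)) / 2 := by
  rw [Lq_eq]
  have := Real.log_le_log (show 0 < 4 * (Sn t + s) by linarith)
    (show 4 * (Sn t + s) ≤ 4 * (a + s) by linarith)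
  linarith

/-- Units. -/
theorem lg_unit {x y x' y' : ℝ} (hx : 0 < x + y) (hx' : 0 < x' + y') :
    Real.log (4 * (x / 1048576 + y / 1048576)) / 2 - Real.log (4 * (x' / 1048576 + y' / 1048576)) / 2 =
      Real.log (x + y) / 2 - Real.log (x' + y') / 2 := by
  have e1 : 4 * (x / 1048576 + y / 1048576) = (x + y) * (4 / 1048576) := by ring
  have e2 : 4 * (x' / 1048576 + y' / 1048576) = (x' + y') * (4 / 1048576) := by ring
  rw [e1, e2, Real.log_mul hx.ne' (by norm_num), Real.log_mul hx'.ne' (by norm_num)]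
  ring

/-- `S' - C'`: bounds of the quotient from numbers, decreasing case: `Sn t ≤ C ≤ S ≤ Sn t'`. -/
theorem quo_dec {s t t' : ℝ} {S C σ : ℕ} (hs : 0 ≤ s) (hsn : 0 < Sn t) (h1 : 1048576 * Sn t ≤ C)
    (h2 : (S : ℝ) ≤ 1048576 * Sn t') (hCS : C ≤ S) (hσ : 1048576 * s ≤ σ) :
    Real.log ((S + σ : ℕ) : ℝ) / 2 - Real.log ((C + σ : ℕ) : ℝ) / 2 ≤ Lq s t' - Lq s t := by
  have hC : (0 : ℝ) < C := by nlinarith
  have hCS' : (C : ℝ) ≤ S := by exact_mod_cast hCS
  have hσ0 : (0 : ℝ) ≤ σ := Nat.cast_nonneg _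
  have k1 := lq_hi (s := s) (t := t) (a := (C : ℝ) / 1048576) (by linarith)
    (by rw [le_div_iff₀ (by norm_num)]; linarith)
  have hS : (0 : ℝ) < S := hC.trans_le hCS'
  have k2 := lq_lo (s := s) (t := t') (a := (S : ℝ) / 1048576) (by positivity)
    (by rw [div_le_iff₀ (by norm_num)]; linarith)
  have k3 := rat7 (S := (S : ℝ) / 1048576) (C := (C : ℝ) / 1048576) (s := s)
    (s' := (σ : ℝ) / 1048576) (by positivity) (by
      apply div_le_div_of_nonneg_right hCS' (by norm_num))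
    (by rw [le_div_iff₀ (by norm_num)]; linarith)
  have k4 := lg_unit (x := S) (y := σ) (x' := C) (y' := σ) (by linarith) (by linarith)
  push_cast
  linarith

/-- Increasing case: `C ≤ Sn t'`, `Sn t ≤ S`, `C ≤ S`. -/
theorem quo_inc {s t t' : ℝ} {S C σ : ℕ} (hs : 0 ≤ s) (hsn : 0 < Sn t) (h1 : 1048576 * Sn t ≤ S)
    (h2 : (C : ℝ) ≤ 1048576 * Sn t') (hC : 0 < C) (hCS : C ≤ S) (hσ : (σ : ℝ) ≤ 1048576 * s) :
    Real.log ((C + σ : ℕ) : ℝ) / 2 - Real.log ((S + σ : ℕ) : ℝ) / 2 ≤ Lq s t' - Lq s t := by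
  have hC : (0 : ℝ) < C := by exact_mod_cast hC
  have hCS' : (C : ℝ) ≤ S := by exact_mod_cast hCS
  have hσ0 : (0 : ℝ) ≤ σ := Nat.cast_nonneg _
  have k1 := lq_hi (s := s) (t := t) (a := (S : ℝ) / 1048576) (by linarith)
    (by rw [le_div_iff₀ (by norm_num)]; linarith)
  have k2 := lq_lo (s := s) (t := t') (a := (C : ℝ) / 1048576) (by positivity)
    (by rw [div_le_iff₀ (by norm_num)]; linarith)
  have k3 := rat7 (S := (S : ℝ) / 1048576) (C := (C : ℝ) / 1048576) (s := (σ : ℝ) / 1048576)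
    (s' := s) (by positivity) (by
      apply div_le_div_of_nonneg_right hCS' (by norm_num))
    (by rw [div_le_iff₀ (by norm_num)]; linarith)
  have k4 := lg_unit (x := S) (y := σ) (x' := C) (y' := σ) (by linarith) (by linarith)
  push_cast
  linarith

theorem lq_mono {s t t' : ℝ} (hs : 0 ≤ s) (hsn : 0 < Sn t) (h : Sn t ≤ Sn t') : Lq s t ≤ Lq s t' :=
  Lq_mono_t hs (by linarith) h

/-! ### The numbers of a cell -/

/-- The cell number `j`. -/
def cc (ps j : ℕ) : ℕ := csn (Nat.sub (Nat.add 90 (Nat.mul 10 j)) ps)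

def mj (d : Dx) (ps j : ℕ) : ℕ := mnn (Nat.sub (rsA d (cc ps j)) (rsB d (cc ps j) j)) (rsE d j)

theorem ltn_iff {a b : ℕ} (h : ltn a b = true) : a < b := Nat.le_of_ble_eq_true h

theorem rsl_zero (d : Dx) (ps j acc : ℕ) : rsl d ps 0 j acc = acc := rfl

theorem rsl_succ (d : Dx) (ps m j acc : ℕ) : rsl d ps (m + 1) j acc =
    cond (ltn (rsB d (cc ps j) j) (rsA d (cc ps j)))
      (rsl d ps m (Nat.succ j) (Nat.add acc (Nat.mul 2 (mj d ps j)))) 0 := by
  unfold rsl
  simp only [fN_eq]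
  rfl

theorem rsl_spec (d : Dx) (ps : ℕ) : ∀ m j acc : ℕ, rsl d ps m j acc = 0 ∨
    ((∀ i < m, rsB d (cc ps (j + i)) (j + i) < rsA d (cc ps (j + i))) ∧
      rsl d ps m j acc = acc + ∑ i ∈ Finset.range m, 2 * mj d ps (j + i)) := by
  intro m
  induction m with
  | zero =>
    intro j acc
    right
    refine ⟨fun i hi => absurd hi (Nat.not_lt_zero _), ?_⟩
    rw [rsl_zero]
    simp
  | succ m ih =>
    intro j acc
    rw [rsl_succ]
    rcases Bool.eq_false_or_eq_true (ltn (rsB d (cc ps j) j) (rsA d (cc ps j))) with h | h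
    · rw [h, cond_true]
      rcases ih (Nat.succ j) (Nat.add acc (Nat.mul 2 (mj d ps j))) with h1 | ⟨h1, h2⟩
      · exact Or.inl h1
      · right
        constructor
        · intro i hi
          rcases Nat.eq_zero_or_pos i with h0 | h0
          · subst h0
            exact ltn_iff h
          · obtain ⟨k, rfl⟩ : ∃ k, i = k + 1 := ⟨i - 1, by omega⟩
            have := h1 k (by omega)
            rw [show Nat.succ j + k = j + (k + 1) by omega] at this
            exact this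
        · rw [h2, Finset.sum_range_succ', Nat.add_eq, Nat.mul_eq, Nat.add_zero]
          have e : ∀ k, Nat.succ j + k = j + (k + 1) := fun k => by omega
          simp only [e]
          ring
    · rw [h, cond_false]
      exact Or.inl rfl

theorem psn_succ (d : Dx) (n m a : ℕ) : psn d n (m + 1) a =
    cond (tlt d n a (Nat.add a 5)) (psn d n m (Nat.add a 5)) a := by
  unfold psn
  simp only

/-- `V_p < 0` on `(0, psn / 400)`. -/
theorem psn_spec {d : Dx} {n : ℕ} {s1 s4 s3 s2 g5 p0 q0 qb : ℝ} (hn : n = 1 ∨ n = 2)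
    (hd : d.Ok s1 s4 s3 s2 g5 p0 q0 qb) : ∀ m a : ℕ, a + 5 * m ≤ 80 →
      a ≤ psn d n m a ∧ psn d n m a ≤ a + 5 * m ∧
      ∀ p : ℝ, 0 < p → (a : ℝ) / 400 ≤ p → p ≤ (psn d n m a : ℕ) / 400 → (a : ℝ) / 400 < p →
        n * (Lq s1 p - Lq s1 p0) ≤ Lq s3 (p + 1 / 10) - Lq s3 (p0 + q0) := by
  intro m
  induction m with
  | zero =>
    intro a _
    refine ⟨le_rfl, le_rfl, fun p _ h1 h2 h3 => ?_⟩
    have : psn d n 0 a = a := rfl
    rw [this] at h2
    linarith
  | succ m ih =>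
    intro a ha
    rw [psn_succ]
    rcases Bool.eq_false_or_eq_true (tlt d n a (Nat.add a 5)) with h | h
    · rw [h, cond_true, Nat.add_eq]
      obtain ⟨i1, i2, i3⟩ := ih (a + 5) (by omega)
      refine ⟨by omega, by omega, fun p h0 h1 h2 h3 => ?_⟩
      rcases lt_or_ge (((a + 5 : ℕ) : ℝ) / 400) p with h4 | h4
      · exact i3 p h0 h4.le h2 h4
      · have h5 := tlt7 hn hd (show a ≤ a + 5 by omega) (by omega) h
        have ha' : ((a : ℝ) + 5) / 400 ≤ 1 / 5 := by
          have : ((a + 5 * (m + 1) : ℕ) : ℝ) ≤ 80 := by exact_mod_cast ha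
          push_cast at this
          have : (0 : ℝ) ≤ m := Nat.cast_nonneg m
          linarith
        push_cast at h4 h5
        have ha0 : (0 : ℝ) ≤ (a : ℝ) / 400 := by positivity
        have hB := hd.B
        have hp0 := hB.hp0
        have hp1 := hB.hp1
        have hP0 := hB.hP0
        have hP1 := hB.hP1
        have k1 : Sn p ≤ Sn (((a : ℝ) + 5) / 400) := Sn_mono h0.le h4 (by linarith)
        have k2 : Sn ((a : ℝ) / 400 + 1 / 10) ≤ Sn (p + 1 / 10) :=
          Sn_mono (by linarith) (by linarith) (by linarith)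
        have k3 : 0 < Sn p := Sn_pos h0 (by linarith)
        have k4 : 0 < Sn p0 := Sn_pos hp0 (by linarith)
        have k5 : 0 < Sn (p0 + q0) := Sn_pos (by linarith) (by linarith)
        have k6 : 0 < Sn (p + 1 / 10) := Sn_pos (by linarith) (by linarith)
        have g1 := hB.h1
        have g3 := hB.h3
        have k7 : (Sn p + s1) ^ n * (Sn (p0 + q0) + s3) < (Sn p0 + s1) ^ n * (Sn (p + 1 / 10) + s3) :=
          calc (Sn p + s1) ^ n * (Sn (p0 + q0) + s3) ≤
                (Sn (((a : ℝ) + 5) / 400) + s1) ^ n * (Sn (p0 + q0) + s3) := by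
                apply mul_le_mul_of_nonneg_right _ (by linarith)
                exact pow_le_pow_left₀ (by linarith) (by linarith) n
            _ < (Sn p0 + s1) ^ n * (Sn ((a : ℝ) / 400 + 1 / 10) + s3) := h5
            _ ≤ (Sn p0 + s1) ^ n * (Sn (p + 1 / 10) + s3) := by
                apply mul_le_mul_of_nonneg_left (by linarith)
                exact pow_nonneg (by linarith) n
        have k8 := dirn (n := n) (a := Sn p + s1) (A := Sn p0 + s1) (c := Sn (p + 1 / 10) + s3)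
          (C := Sn (p0 + q0) + s3) (by linarith) (by linarith) (by linarith) (by linarith) k7
        rw [Lq_eq, Lq_eq, Lq_eq, Lq_eq]
        exact k8.le
    · rw [h, cond_false]
      refine ⟨le_rfl, by omega, fun p _ h1 h2 h3 => ?_⟩
      linarith

/-! ### The real bounds of a cell -/

theorem Sn_half_neg (x : ℝ) : Sn (1 / 2 + x) = Sn (1 / 2 - x) := by
  rw [← Sn_one_sub (1 / 2 - x)]
  congr 1
  ring

theorem Sn_per (v : ℝ) : Sn (v + 1) = Sn v := by
  unfold Sn
  rw [mul_add, mul_one, Real.sin_add_pi, neg_sq]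

theorem tenth_lo : (1 : ℝ) / 25 ≤ Sn (1 / 10) := by
  have h := Real.mul_le_sin (x := Real.pi * (1 / 10)) (by positivity)
    (by linarith [Real.pi_pos])
  have e : 2 / Real.pi * (Real.pi * (1 / 10)) = 1 / 5 := by
    have := Real.pi_ne_zero
    field_simp
    norm_num
  rw [e] at h
  unfold Sn
  nlinarith

/-- Lower bound of `csn`. -/
theorem csn_pos {k : ℕ} (h : k ≤ 160) : 1 ≤ csn k := by
  have h1 := (csn_ok (k := k) (by omega)).2
  have hk : (k : ℝ) ≤ 160 := by exact_mod_cast h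
  have hk0 : (0 : ℝ) ≤ k := Nat.cast_nonneg k
  rw [Sn_half_neg] at h1
  have h2 : Sn (1 / 10) ≤ Sn (1 / 2 - (k : ℝ) / 400) :=
    Sn_mono (by norm_num) (by linarith) (by linarith)
  have h3 := tenth_lo
  have h4 : (1 : ℝ) ≤ (csn k : ℕ) := by nlinarith
  exact_mod_cast h4

theorem Sn_le_one (t : ℝ) : Sn t ≤ 1 := by
  unfold Sn
  nlinarith [Real.sin_sq_add_cos_sq (Real.pi * t), sq_nonneg (Real.cos (Real.pi * t))]

theorem csn_le {k : ℕ} (h : k ≤ 400) : csn k ≤ 1048576 := by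
  have h1 := (csn_ok h).1
  have h2 := Sn_le_one (1 / 2 + (k : ℝ) / 400)
  have h4 : ((csn k : ℕ) : ℝ) ≤ 1048576 := by linarith
  exact_mod_cast h4

/-- The difference of the logarithms. -/
theorem num_cell {x4 y4 c3 h3 : ℕ} {b : Bool} (hy : 0 < y4) (hx' : x4 ≤ 4194304)
    (hy' : y4 ≤ 4194304) (hc : b = false → 0 < c3 ∧ c3 ≤ h3 ∧ h3 ≤ 4194304)
    (h : 200 + (lnh y4 + cond b 0 (lnh h3)) < lnh x4 + cond b 0 (lnh c3)) :
    y4 < x4 ∧ cond b 0 (Real.log c3 / 2 - Real.log h3 / 2) ≤ 0 ∧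
      (((lnh x4 + cond b 0 (lnh c3)) - (200 + (lnh y4 + cond b 0 (lnh h3))) : ℕ) : ℝ) ≤
        UU * ((Real.log x4 / 2 - Real.log y4 / 2) + cond b 0 (Real.log c3 / 2 - Real.log h3 / 2)) := by
  have hU := UU_pos
  have hy1 := lnh_hi hy hy'
  have cb : cond b 0 (Real.log c3 / 2 - Real.log h3 / 2) ≤ 0 ∧
      ((cond b 0 (lnh c3) : ℕ) : ℝ) - ((cond b 0 (lnh h3) : ℕ) : ℝ) ≤
        UU * cond b 0 (Real.log c3 / 2 - Real.log h3 / 2) + 80 := by
    cases b with
    | true =>
      rw [cond_true, cond_true, cond_true]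
      norm_num
    | false =>
      rw [cond_false, cond_false, cond_false]
      obtain ⟨g1, g2, g3⟩ := hc rfl
      have k1 := lnh_lo g1 (g2.trans g3)
      have k2 := lnh_hi (g1.trans_le g2) g3
      have k3 := Real.log_le_log (show (0 : ℝ) < c3 by exact_mod_cast g1)
        (show (c3 : ℝ) ≤ h3 by exact_mod_cast g2)
      constructor
      · linarith
      · rw [mul_sub]
        linarith
  generalize cond b 0 (Real.log c3 / 2 - Real.log h3 / 2) = X at cb ⊢
  generalize cond b 0 (lnh c3) = P at cb h ⊢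
  generalize cond b 0 (lnh h3) = Q at cb h ⊢
  obtain ⟨c1, c2⟩ := cb
  have c3' : UU * X ≤ 0 := mul_nonpos_of_nonneg_of_nonpos hU.le c1
  have hx : 0 < x4 := by
    rcases Nat.eq_zero_or_pos x4 with h0 | h0
    · exfalso
      rw [h0, lnh_zero] at h
      have h5 : (200 : ℝ) + ((lnh y4 : ℕ) + (Q : ℝ)) < 0 + P := by exact_mod_cast h
      have : (0 : ℝ) ≤ (lnh y4 : ℕ) := Nat.cast_nonneg _
      linarith
    · exact h0
  have hx1 := lnh_lo hx hx'
  have e : (((lnh x4 + P) - (200 + (lnh y4 + Q)) : ℕ) : ℝ) =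
      ((lnh x4 : ℕ) + (P : ℝ)) - (200 + ((lnh y4 : ℕ) + (Q : ℝ))) := by
    rw [Nat.cast_sub h.le]
    push_cast
    ring
  have h5 : (200 : ℝ) + ((lnh y4 : ℕ) + (Q : ℝ)) < (lnh x4 : ℕ) + P := by exact_mod_cast h
  have key : (((lnh x4 + P) - (200 + (lnh y4 + Q)) : ℕ) : ℝ) ≤
      UU * ((Real.log x4 / 2 - Real.log y4 / 2) + X) := by
    rw [e, mul_add, mul_sub]
    linarith
  refine ⟨?_, c1, key⟩
  by_contra hcc
  rw [not_lt] at hcc
  have k3 := Real.log_le_log (show (0 : ℝ) < x4 by exact_mod_cast hx)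
    (show (x4 : ℝ) ≤ y4 by exact_mod_cast hcc)
  have k4 : UU * (Real.log x4 / 2) ≤ UU * (Real.log y4 / 2) :=
    mul_le_mul_of_nonneg_left (by linarith) hU.le
  linarith

theorem mnn_le_left (a b : ℕ) : mnn a b ≤ a := by
  unfold mnn
  rcases Bool.eq_false_or_eq_true (Nat.ble a b) with h | h
  · rw [h, cond_true]
  · rw [h, cond_false]
    by_contra hc
    have := Nat.ble_eq_true_of_le (show a ≤ b by omega)
    rw [this] at h
    exact absurd h (by simp)

theorem mnn_le_right (a b : ℕ) : mnn a b ≤ b := by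
  unfold mnn
  rcases Bool.eq_false_or_eq_true (Nat.ble a b) with h | h
  · rw [h, cond_true]
    exact Nat.le_of_ble_eq_true h
  · rw [h, cond_false]

theorem ble_false {a b : ℕ} (h : Nat.ble a b = false) : b < a := by
  by_contra hc
  have := Nat.ble_eq_true_of_le (not_lt.1 hc)
  rw [this] at h
  exact absurd h (by simp)

theorem rsA_eq (d : Dx) (c : ℕ) : rsA d c =
    lnh (d.dl + d.s4h) + cond (Nat.ble d.ch c) 0 (lnh (c + d.s3l)) := by
  unfold rsA
  simp only [Nat.add_eq]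

theorem rsB_eq (d : Dx) (c j : ℕ) : rsB d c j =
    200 + (lnh (csn (80 + 10 * j) + 1 + d.s4h) + cond (Nat.ble d.ch c) 0 (lnh (d.ch + d.s3l))) := by
  unfold rsB
  simp only [Nat.add_eq, Nat.mul_eq, Nat.succ_eq_add_one]

theorem cell_all {d : Dx} {s1 s4 s3 s2 g5 p0 q0 qb : ℝ} (hd : d.Ok s1 s4 s3 s2 g5 p0 q0 qb)
    {ps j : ℕ} (hps : ps ≤ 80) (hj : j < 8) (hAB : rsB d (cc ps j) j < rsA d (cc ps j)) :
    (∀ t : ℝ, 0 < t → t ≤ 3 / 10 - j * (1 / 40) → (mj d ps j : ℝ) / UU ≤ Lq s4 q0 - Lq s4 t) ∧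
    (∀ t p : ℝ, 3 / 10 - (j + 1) * (1 / 40) ≤ t → t ≤ 3 / 10 - j * (1 / 40) → (ps : ℝ) / 400 ≤ p →
      p + t ≤ 1 / 2 → (mj d ps j : ℝ) / UU ≤
        (Lq s3 (p + t) - Lq s3 (p0 + q0)) - (Lq s4 t - Lq s4 q0)) := by
  have hU := UU_pos
  have hB := hd.B
  have hm1 : mj d ps j ≤ rsA d (cc ps j) - rsB d (cc ps j) j := mnn_le_left _ _
  have hccd : cc ps j = csn (90 + 10 * j - ps) := rfl
  rw [rsA_eq, rsB_eq] at hm1 hAB
  have hk1 : 90 + 10 * j - ps ≤ 160 := by omega
  have hc0 : 1 ≤ cc ps j := by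
    rw [hccd]
    exact csn_pos hk1
  have hc1 : cc ps j ≤ 1048576 := by
    rw [hccd]
    exact csn_le (by omega)
  have hc2 := (csn_ok (k := 90 + 10 * j - ps) (by omega)).1
  rw [← hccd] at hc2
  have hv2 := (csn_ok (k := 80 + 10 * j) (by omega)).2
  have hv1 : csn (80 + 10 * j) ≤ 1048576 := csn_le (by omega)
  have hs3 : d.s3l ≤ 1048576 := by
    have := hd.s31.trans hd.s32
    have h2 : d.s3l ≤ d.s3h := by exact_mod_cast this
    exact h2.trans hd.l3.2.1
  have hs4 := hd.l3.2.2.1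
  have hdl := hd.l1.2.2.1
  have hch := hd.l2.2.1
  generalize hC : cc ps j = c at *
  generalize csn (80 + 10 * j) = v at *
  obtain ⟨n1, n2, n3⟩ := num_cell (x4 := d.dl + d.s4h) (y4 := v + 1 + d.s4h) (c3 := c + d.s3l)
    (h3 := d.ch + d.s3l) (b := Nat.ble d.ch c) (by omega) (by omega) (by omega)
    (fun hb => by
      have := ble_false hb
      exact ⟨by omega, by omega, by omega⟩) hAB
  have hm2 : (mj d ps j : ℝ) / UU ≤ (Real.log ((d.dl + d.s4h : ℕ) : ℝ) / 2 -
      Real.log ((v + 1 + d.s4h : ℕ) : ℝ) / 2) +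
      cond (Nat.ble d.ch c) 0 (Real.log ((c + d.s3l : ℕ) : ℝ) / 2 - Real.log ((d.ch + d.s3l : ℕ) : ℝ) / 2) := by
    rw [div_le_iff₀ hU]
    have : (mj d ps j : ℝ) ≤ (((lnh (d.dl + d.s4h) + cond (Nat.ble d.ch c) 0 (lnh (c + d.s3l))) -
      (200 + (lnh (v + 1 + d.s4h) + cond (Nat.ble d.ch c) 0 (lnh (d.ch + d.s3l)))) : ℕ) : ℝ) := by
      exact_mod_cast hm1
    linarith
  have hvd : v + 1 ≤ d.dl := by omega
  -- part one
  have P1 : ∀ t : ℝ, 0 < t → t ≤ 3 / 10 - j * (1 / 40) →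
      Real.log ((d.dl + d.s4h : ℕ) : ℝ) / 2 - Real.log ((v + 1 + d.s4h : ℕ) : ℝ) / 2 ≤
        Lq s4 q0 - Lq s4 t := by
    intro t ht ht1
    have hj0 : (0 : ℝ) ≤ j := Nat.cast_nonneg j
    refine quo_dec hB.h4 (Sn_pos ht (by linarith)) ?_ hd.d1 hvd hd.s42
    rw [Sn_half_neg] at hv2
    have e : (1 : ℝ) / 2 - ((80 + 10 * j : ℕ) : ℝ) / 400 = 3 / 10 - j * (1 / 40) := by
      push_cast
      ring
    rw [e] at hv2
    have := Sn_mono ht.le ht1 (by linarith)
    push_cast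
    linarith
  constructor
  · intro t ht ht1
    have := P1 t ht ht1
    linarith
  · intro t p ht ht1 hp hpt
    have hj0 : (0 : ℝ) ≤ j := Nat.cast_nonneg j
    have hj7 : (j : ℝ) ≤ 7 := by exact_mod_cast (by omega : j ≤ 7)
    have hps0 : (0 : ℝ) ≤ ps := Nat.cast_nonneg ps
    have h1 := P1 t (by linarith) ht1
    -- the lower bound of `Sn (p + t)`
    have h2 : (c : ℝ) ≤ 1048576 * Sn (p + t) := by
      rw [Sn_half_neg] at hc2
      have e : ((90 + 10 * j - ps : ℕ) : ℝ) = 90 + 10 * j - ps := by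
        rw [Nat.cast_sub (by omega)]
        push_cast
        ring
      rw [e] at hc2
      have := Sn_mono (t := 1 / 2 - (90 + 10 * (j : ℝ) - ps) / 400) (t' := p + t) (by linarith)
        (by linarith) hpt
      linarith
    have hP0 : 0 < Sn (p0 + q0) := Sn_pos (by linarith [hB.hP0]) (by linarith [hB.hP1])
    have h3 : cond (Nat.ble d.ch c) 0 (Real.log ((c + d.s3l : ℕ) : ℝ) / 2 -
        Real.log ((d.ch + d.s3l : ℕ) : ℝ) / 2) ≤ Lq s3 (p + t) - Lq s3 (p0 + q0) := by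
      rcases Bool.eq_false_or_eq_true (Nat.ble d.ch c) with hb | hb
      · rw [hb, cond_true]
        have hb' : (d.ch : ℝ) ≤ c := by exact_mod_cast Nat.le_of_ble_eq_true hb
        have := lq_mono (s := s3) (t := p0 + q0) (t' := p + t) hB.h3 hP0
          (by linarith [hd.c2])
        linarith
      · rw [hb, cond_false]
        exact quo_inc hB.h3 hP0 hd.c2 h2 (by omega) (ble_false hb).le hd.s31
    linarith

theorem rsE_eq (d : Dx) (j : ℕ) : rsE d j = cond (Nat.ble d.eh (csn (mxn (120 - 10 * j) 60)))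
    (lnh (csn (mxn (120 - 10 * j) 60) + d.s5h) - (100 + lnh (d.eh + d.s5h))) 0 := by
  unfold rsE
  simp only [fN_eq, Nat.add_eq, Nat.mul_eq, Nat.sub_eq]

theorem cell_e {d : Dx} {s1 s4 s3 s2 g5 p0 q0 qb : ℝ} (hd : d.Ok s1 s4 s3 s2 g5 p0 q0 qb)
    {j K : ℕ} (hK : mxn (120 - 10 * j) 60 = K) (hK1 : K ≤ 120) {v : ℝ}
    (hv : Sn (1 / 2 + (K : ℝ) / 400) ≤ Sn v) (h0 : 0 < Sn (qb + 1 - q0))
    (hz : Sn (qb + 1 - q0) ≤ Sn v) :
    (rsE d j : ℝ) / UU ≤ Lq (Hs g5) v - Lq (Hs g5) (qb + 1 - q0) := by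
  have hU := UU_pos
  have hs : 0 ≤ Hs g5 := sq_nonneg _
  have hm := lq_mono hs h0 hz
  rw [rsE_eq, hK]
  have he0 := csn_pos (k := K) (by omega)
  have he1 := csn_le (k := K) (by omega)
  have he2 := (csn_ok (k := K) (by omega)).1
  have hs5 := hd.l3.2.2.2.2
  have heh := hd.l2.2.2.2.2
  generalize csn K = e at *
  rcases Bool.eq_false_or_eq_true (Nat.ble d.eh e) with hb | hb
  · rw [hb, cond_true]
    rcases le_total (lnh (e + d.s5h)) (100 + lnh (d.eh + d.s5h)) with hle | hle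
    · rw [Nat.sub_eq_zero_of_le hle]
      simp only [Nat.cast_zero, zero_div]
      linarith
    · rw [Nat.cast_sub hle, div_le_iff₀ hU]
      have heh0 : 0 < d.eh := by
        have h1 := hd.e2
        have h2 : (0 : ℝ) < d.eh := by linarith
        exact_mod_cast h2
      have k1 := lnh_lo (v := e + d.s5h) (by omega) (by omega)
      have k2 := lnh_hi (v := d.eh + d.s5h) (by omega) (by omega)
      have k3 := quo_dec (s := Hs g5) (t := qb + 1 - q0) (t' := v) (S := e) (C := d.eh)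
        (σ := d.s5h) hs h0 hd.e2 (by linarith) (Nat.le_of_ble_eq_true hb) hd.s52
      have k4 := mul_le_mul_of_nonneg_left k3 hU.le
      rw [mul_sub] at k4
      push_cast at k1 k2 k4 ⊢
      linarith
  · rw [hb, cond_false]
    simp only [Nat.cast_zero, zero_div]
    linarith

theorem sn_in7 {u t : ℝ} (h : |t| ≤ u) (hu : u ≤ 1 / 2) : Sn (1 / 2 + u) ≤ Sn (1 / 2 + t) := by
  have h0 := abs_nonneg t
  have e : Sn (1 / 2 + t) = Sn (1 / 2 + |t|) := by
    rcases abs_cases t with ⟨e, _⟩ | ⟨e, _⟩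
    · rw [e]
    · rw [e, Sn_half_neg]
      congr 1
  rw [e]
  exact Sn_anti (by linarith) (by linarith) (by linarith)

theorem find_cell {q : ℝ} (hq' : q ≤ 3 / 10) : ∀ m : ℕ, 0 < m → 3 / 10 - (m : ℝ) * (1 / 40) ≤ q →
    ∃ j < m, 3 / 10 - ((j : ℝ) + 1) * (1 / 40) ≤ q ∧ q ≤ 3 / 10 - (j : ℝ) * (1 / 40) := by
  intro m
  induction m with
  | zero => intro h; exact absurd h (Nat.lt_irrefl 0)
  | succ m ih =>
    intro _ h
    rcases le_total q (3 / 10 - (m : ℝ) * (1 / 40)) with h1 | h1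
    · refine ⟨m, Nat.lt_succ_self m, ?_, h1⟩
      push_cast at h
      exact h
    · rcases Nat.eq_zero_or_pos m with h0 | h0
      · refine ⟨m, Nat.lt_succ_self m, ?_, ?_⟩
        · push_cast at h
          exact h
        · rw [h0]
          push_cast
          linarith
      · obtain ⟨j, hj, h2⟩ := ih h0 h1
        exact ⟨j, by omega, h2⟩

end N7

open N7 in
/-- `R` is the reserve, units `80 U`. -/
theorem rsv_ok {d : Dx} {n : ℕ} {s1 s4 s3 s2 g5 p0 q0 qb : ℝ} (hn : n = 1 ∨ n = 2)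
    (hd : d.Ok s1 s4 s3 s2 g5 p0 q0 qb)
    (h0 : ∀ p q : ℝ, 0 ≤ p → p ≤ 1 / 2 → 1 / 10 ≤ q → q ≤ 9 / 10 → 0 ≤ VV n s1 s4 s3 p0 q0 p q) :
    ∀ p q b : ℝ, 0 ≤ p → p ≤ 1 / 2 → 1 / 10 ≤ q → q ≤ 9 / 10 → 1 / 2 ≤ b → b ≤ 3 / 4 →
      -Dq (Hs g5) (qb + 1 - q0) (1 + b - q) < 0 →
      -Dq (Hs g5) (qb + 1 - q0) (1 / 2 + (b + 2 / 5)) + (rsv d n : ℕ) / (80 * 281474976710656) ≤
        VV n s1 s4 s3 p0 q0 p q + -Dq (Hs g5) (qb + 1 - q0) (1 + b - q) := by
  intro p q b hp hp1 hq hq1 hb hb1 hneg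
  have hs : 0 ≤ Hs g5 := sq_nonneg _
  have hB := hd.B
  have hu1 : (157287 : ℝ) / 1048576 ≤ qb + 1 / 2 - q0 := by
    have h1 := hd.u1
    have h3 : ((157287 : ℕ) : ℝ) ≤ d.ul := by exact_mod_cast hd.u3
    push_cast at h3
    rw [div_le_iff₀ (by norm_num)]
    linarith
  have hu2 : qb + 1 / 2 - q0 < 1 / 2 := by
    have h1 := hd.u2
    have h3 : (d.uh : ℝ) ≤ ((524287 : ℕ) : ℝ) := by exact_mod_cast hd.u4
    push_cast at h3
    linarith
  have eU : qb + 1 - q0 = 1 / 2 + (qb + 1 / 2 - q0) := by ring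
  have hx : 1 - (qb + 1 / 2 - q0) < 1 / 2 + b - q := by
    by_contra hc
    rw [not_lt] at hc
    have := D5_zone1 (s := Hs g5) (u0 := qb + 1 / 2 - q0) (u := 1 / 2 + b - q) hs (by linarith) hu2
      (by linarith) hc
    rw [← eU, show 1 / 2 + (1 / 2 + b - q) = 1 + b - q by ring] at this
    linarith
  have z2 : ∀ u v : ℝ, 1 - (qb + 1 / 2 - q0) ≤ u → u ≤ v → v ≤ 1 + (qb + 1 / 2 - q0) →
      -Dq (Hs g5) (qb + 1 - q0) (1 / 2 + v) ≤ -Dq (Hs g5) (qb + 1 - q0) (1 / 2 + u) := by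
    intro u v g1 g2 g3
    have := D5_zone2 (s := Hs g5) (u0 := qb + 1 / 2 - q0) hs (by linarith) hu2 g1 g2 g3
    rwa [← eU] at this
  have hz := z2 (1 / 2 + b - q) (b + 2 / 5) hx.le (by linarith) (by linarith)
  rw [show 1 / 2 + (1 / 2 + b - q) = 1 + b - q by ring] at hz
  have hV := h0 p q hp hp1 hq hq1
  by_cases hR : rsv d n = 0
  · rw [hR, Nat.cast_zero, zero_div]
    linarith
  -- the reserve
  unfold rsv at hR
  simp only [fN_eq] at hR
  have hnT : negT d = false := by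
    by_contra hc
    rw [Bool.not_eq_false] at hc
    rw [hc, cond_true] at hR
    exact hR rfl
  rw [hnT, cond_false] at hR
  have hpS : posS d = false := by
    by_contra hc
    rw [Bool.not_eq_false] at hc
    rw [hc, cond_true] at hR
    exact hR rfl
  rw [hpS, cond_false] at hR
  have hsl : Nat.ble 66899149 d.sl = true := by
    by_contra hc
    rw [Bool.not_eq_true] at hc
    rw [hc, cond_false] at hR
    exact hR rfl
  rw [hsl, cond_true] at hR
  have hRe : rsv d n = rsl d (psn d n 16 0) 8 0 0 := by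
    unfold rsv
    simp only [fN_eq]
    rw [hnT, cond_false, hpS, cond_false, hsl, cond_true]
  rw [hRe]
  obtain ⟨p1, p2, p3⟩ := psn_spec hn hd 16 0 (by norm_num)
  generalize psn d n 16 0 = ps at *
  rcases rsl_spec d ps 8 0 0 with hr | ⟨hr1, hr2⟩
  · exact absurd hr hR
  simp only [Nat.zero_add] at hr1 hr2
  rw [hr2]
  have hU := UU_pos
  have hUe : UU = 281474976710656 := by norm_num [UU]
  set r : ℕ → ℝ := fun j => (mj d ps j : ℝ) / UU with hrd
  have esum : ((∑ i ∈ Finset.range 8, 2 * mj d ps i : ℕ) : ℝ) / (80 * 281474976710656) =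
      1 / 40 * ∑ k ∈ Finset.range 8, r k := by
    rw [hrd, ← Finset.sum_div, ← hUe]
    push_cast
    rw [← Finset.mul_sum]
    field_simp
    ring
  rw [esum]
  have hps : ps ≤ 80 := by simpa using p2
  have hpsr : (ps : ℝ) / 400 ≤ 1 / 5 := by
    have : (ps : ℝ) ≤ 80 := by exact_mod_cast hps
    linarith
  have q3 : 3 / 10 ≤ q0 := by
    have h1 := hd.o1
    have h3 : ((66899149 : ℕ) : ℝ) ≤ d.sl := by exact_mod_cast Nat.le_of_ble_eq_true hsl
    push_cast at h3
    linarith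
  have q5 : q0 ≤ 1 / 2 := by
    have h1 := hd.o2
    have h2 : d.sh ≤ 67108864 := by
      by_contra hc
      have : posS d = true := Nat.ble_eq_true_of_le (by omega)
      rw [this] at hpS
      exact absurd hpS (by simp)
    have h3 : (d.sh : ℝ) ≤ ((67108864 : ℕ) : ℝ) := by exact_mod_cast h2
    push_cast at h3
    linarith
  have q6 : 1 / 2 ≤ p0 + q0 := by
    have h1 := hd.t1
    have h2 : 67108864 ≤ d.tl := by
      by_contra hc
      have : negT d = true := Nat.ble_eq_true_of_le (by omega)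
      rw [this] at hnT
      exact absurd hnT (by simp)
    have h3 : ((67108864 : ℕ) : ℝ) ≤ d.tl := by exact_mod_cast h2
    push_cast at h3
    linarith
  have hj0 : ∀ j : ℕ, (0 : ℝ) ≤ j := fun j => Nat.cast_nonneg j
  have hj7 : ∀ j : ℕ, j < 8 → (j : ℝ) ≤ 7 := fun j hj => by exact_mod_cast (by omega : j ≤ 7)
  have hVV := resvB (n := n) (m := 8) (h := 1 / 40) (a := (ps : ℝ) / 400) (r := r) hB q3 q5 q6
    (by positivity) hpsr (by norm_num) (by norm_num)
    (fun p' h1 h2 => p3 p' h1 (by simpa using h1.le) h2.le (by simpa using h1))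
    (fun j hj t ht => (cell_all hd hps hj (hr1 j hj)).1 t (by linarith [ht.1, hj7 j hj]) ht.2)
    (fun j hj t ht p' h1 h2 => (cell_all hd hps hj (hr1 j hj)).2 t p' ht.1 ht.2 h1 h2)
    (fun p' h1 h2 => h0 p' (3 / 10) h1 h2 (by norm_num) (by norm_num))
  have hSn0 : 0 < Sn (qb + 1 - q0) := Sn_pos (by linarith) (by linarith)
  -- the other term
  have hg := cells_up (g := fun q => -Dq (Hs g5) (qb + 1 - q0) (1 + b - q) -
      -Dq (Hs g5) (qb + 1 - q0) (1 / 2 + (b + 2 / 5))) (h := 1 / 40) (Q := q) (m := 8) (r := r)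
    (by norm_num) (by
      have e : 1 + b - (3 / 10 - ((8 : ℕ) : ℝ) * (1 / 40)) = 1 / 2 + (b + 2 / 5) := by
        push_cast
        ring
      simp only [e, sub_self, le_refl]) (by
      intro j hj x x' g1 g2 g3 g4
      have hj0' := hj0 j
      have hj7' := hj7 j hj
      have st := Dq_step' (s := Hs g5) (x0 := qb + 1 - q0) (x := 1 + b - x') (x' := 1 + b - x)
        (c := r j) hs (by linarith) (by
          intro t ht
          have e1 : t = 1 / 2 + (t - 3 / 2) + 1 := by ring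
          have kz : Sn (qb + 1 - q0) ≤ Sn t := by
            have := sn_in7 (u := qb + 1 / 2 - q0) (t := t - 3 / 2)
              (abs_le.2 ⟨by linarith [ht.1], by linarith [ht.2]⟩) hu2.le
            rw [← eU] at this
            rw [e1, Sn_per]
            exact this
          have hK1 : mxn (120 - 10 * j) 60 ≤ 120 := by
            unfold mxn
            rcases Bool.eq_false_or_eq_true (Nat.ble (120 - 10 * j) 60) with hb | hb
            · rw [hb, cond_true]; norm_num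
            · rw [hb, cond_false]; omega
          have hK2 : 120 - 10 * j ≤ mxn (120 - 10 * j) 60 := by
            unfold mxn
            rcases Bool.eq_false_or_eq_true (Nat.ble (120 - 10 * j) 60) with hb | hb
            · rw [hb, cond_true]; exact Nat.le_of_ble_eq_true hb
            · rw [hb, cond_false]
          have hK3 : 60 ≤ mxn (120 - 10 * j) 60 := by
            unfold mxn
            rcases Bool.eq_false_or_eq_true (Nat.ble (120 - 10 * j) 60) with hb | hb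
            · rw [hb, cond_true]
            · rw [hb, cond_false]; exact (ble_false hb).le
          generalize hK : mxn (120 - 10 * j) 60 = K at *
          have hK1' : (K : ℝ) ≤ 120 := by exact_mod_cast hK1
          have hK2' : (120 : ℝ) - 10 * j ≤ K := by
            have h9 : ((120 - 10 * j : ℕ) : ℝ) ≤ K := by exact_mod_cast hK2
            rw [Nat.cast_sub (by omega)] at h9
            push_cast at h9
            exact h9
          have hK3' : (60 : ℝ) ≤ K := by exact_mod_cast hK3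
          have kv : Sn (1 / 2 + (K : ℝ) / 400) ≤ Sn t := by
            have := sn_in7 (u := (K : ℝ) / 400) (t := t - 3 / 2)
              (abs_le.2 ⟨by linarith [ht.1], by linarith [ht.2]⟩) (by linarith)
            rw [e1, Sn_per]
            exact this
          have := cell_e hd hK hK1 kv hSn0 kz
          have hm : (mj d ps j : ℝ) / UU ≤ (rsE d j : ℝ) / UU := by
            apply div_le_div_of_nonneg_right _ hU.le
            exact_mod_cast mnn_le_right _ _
          exact hm.trans this)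
      have e2 : (1 + b - x - (1 + b - x')) * r j = (x' - x) * r j := by ring
      rw [e2] at st
      linarith)
  obtain ⟨hg1, hg2⟩ := hg
  rcases le_total (3 / 10) q with hq3 | hq3
  · have h1 := hg1 hq3
    have h2 := z2 (1 / 2 + b - q) (1 / 2 + b - 3 / 10) hx.le (by linarith) (by linarith)
    rw [show 1 / 2 + (1 / 2 + b - q) = 1 + b - q by ring,
      show 1 / 2 + (1 / 2 + b - 3 / 10) = 1 + b - 3 / 10 by ring] at h2
    linarith
  · obtain ⟨j, hj, j1, j2⟩ := find_cell hq3 8 (by norm_num) (by push_cast; linarith)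
    have h1 := hVV p hp hp1 j hj q j1 j2
    have h2 := hg2 j hj q j1 j2 le_rfl
    rw [Finset.sum_range_succ _ j] at h2
    rw [mul_add] at h2
    have e3 : (3 / 10 - (j : ℝ) * (1 / 40) - q) * r j + (q - (3 / 10 - ((j : ℝ) + 1) * (1 / 40))) * r j =
        1 / 40 * r j := by ring
    linarith

end Pool.Agent.S5.Y3
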