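import Pool.Agent.S5.I.Y3c

/-!
# The flats of a node with three half twists: the sides of a crossing, the weights, the total
-/

set_option autoImplicit false

namespace Pool.Agent.S5.Y3

open MeasureTheory Filter Topology Set Pool.Agent.S5.C2 Pool.Agent.S5.Num Pool.Agent.S5.K3

/-- The three sides: `0`: `q ≤ 1/2 ≤ p + q`, `1`: `p + q < 1/2`, `2`: `1/2 < q`, `p + q < 1`. -/
def Sd (side : ℕ) (p q : ℝ) : Prop :=
  (side = 0 ∧ q ≤ 1 / 2 ∧ 1 / 2 ≤ p + q) ∨ (side = 1 ∧ p + q < 1 / 2) ∨ (side = 2 ∧ 1 / 2 < q ∧ p + q < 1)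

/-- The weight of `D2` for `b ≥ 1/4`. -/
def wkb (kb : ℕ) : ℝ := if kb ≤ 1 then 1 else 0

/-- What the total needs for `b ≥ 1/2`. -/
noncomputable def nd (kb : ℕ) : ℝ := (if kb = 1 then 1 / 20 else 0) - (if kb = 3 then 3 / 50 else 0)

/-- The total on the flats. -/
noncomputable def VT (n : ℕ) (w s1 s4 s3 s2 g5 p0 q0 qb p q b : ℝ) : ℝ :=
  VV n s1 s4 s3 p0 q0 p q + w * Dq s2 qb b - Dq (Hs g5) (qb + 1 - q0) (1 + b - q)

theorem cond_and {a b : Bool} (h : cond a b false = true) : a = true ∧ b = true := by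
  cases a
  · exact absurd h (by simp)
  · exact ⟨rfl, h⟩

theorem cond_or {a b : Bool} (h : cond a true b = true) : a = true ∨ b = true := by
  cases a
  · exact Or.inr h
  · exact Or.inl rfl

end Pool.Agent.S5.Y3
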