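import Pool.Agent.S5.I.Y3N6
import Pool.Agent.S5.I.Y3W

/-!
# The flats of a node with three half twists: the right part
-/

set_option autoImplicit false

namespace Pool.Agent.S5.Y3

open MeasureTheory Filter Topology Set Pool.Agent.S5.C2 Pool.Agent.S5.Num Pool.Agent.S5.K3

namespace N8

/-! ### The sums -/

/-- The sum for `x = k / 40`. -/
private def E5 (s ub k : ℕ) : ℕ :=
  if k ≤ 40 then trs (l5 s) 0 (40 - k) + trs (l5 s) 0 ub else trs (l5 s) (k - 40) (ub - (k - 40))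

private theorem trs_succ (f : ℕ → ℕ) (i0 m : ℕ) :
    trs f i0 (m + 1) = trs f i0 m + (f (i0 + m) + f (i0 + (m + 1))) := rfl

private theorem trs_shift (f : ℕ → ℕ) (i0 m : ℕ) :
    trs f i0 (m + 1) = (f i0 + f (i0 + 1)) + trs f (i0 + 1) m := by
  induction m with
  | zero =>
    have e1 : trs f i0 0 = 0 := rfl
    have e2 : trs f (i0 + 1) 0 = 0 := rfl
    rw [trs_succ, e1, e2]
    simp
  | succ m ih =>
    rw [trs_succ, ih, trs_succ, show i0 + 1 + m = i0 + (m + 1) by omega,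
      show i0 + 1 + (m + 1) = i0 + (m + 1 + 1) by omega]
    omega

private theorem l5k_lo (s k : ℕ) (h : k ≤ 40) : l5k s k = l5 s (40 - k) := by
  unfold l5k ds'
  simp only [Nat.add_eq, Nat.sub_eq]
  congr 1
  omega

private theorem l5k_hi (s k : ℕ) (h : 40 ≤ k) : l5k s k = l5 s (k - 40) := by
  unfold l5k ds'
  simp only [Nat.add_eq, Nat.sub_eq]
  congr 1
  omega

private theorem E5_sub (s ub k : ℕ) :
    Nat.sub (E5 s ub k) (Nat.add (l5k s k) (l5k s (Nat.succ k))) = E5 s ub (k + 1) := by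
  simp only [Nat.add_eq, Nat.sub_eq, Nat.succ_eq_add_one]
  rcases lt_or_ge k 40 with h | h
  · have e : 40 - k = (40 - (k + 1)) + 1 := by omega
    unfold E5
    rw [if_pos (by omega), if_pos (by omega), l5k_lo s k (by omega), l5k_lo s (k + 1) (by omega), e,
      trs_succ, zero_add, zero_add]
    omega
  · have e0 : E5 s ub k = trs (l5 s) (k - 40) (ub - (k - 40)) := by
      unfold E5
      rcases h.eq_or_lt with h1 | h1
      · rw [← h1, if_pos le_rfl]
        have : trs (l5 s) 0 (40 - 40) = 0 := rfl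
        rw [this, zero_add]
        rfl
      · rw [if_neg (by omega)]
    have e1 : E5 s ub (k + 1) = trs (l5 s) (k - 40 + 1) (ub - (k - 40 + 1)) := by
      unfold E5
      rw [if_neg (by omega), show k + 1 - 40 = k - 40 + 1 by omega]
    rw [e0, e1, l5k_hi s k h, l5k_hi s (k + 1) (by omega), show k + 1 - 40 = k - 40 + 1 by omega]
    rcases le_or_gt (k - 40 + 1) ub with h2 | h2
    · rw [show ub - (k - 40) = (ub - (k - 40 + 1)) + 1 by omega, trs_shift]
      omega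
    · have e2 : ub - (k - 40) = 0 := by omega
      have e3 : ub - (k - 40 + 1) = 0 := by omega
      rw [e2, e3]
      have e4 : ∀ i, trs (l5 s) i 0 = 0 := fun i => rfl
      rw [e4, e4, Nat.zero_sub]

private theorem E2_add (f : ℕ → ℕ) (b2 j : ℕ) (h : b2 ≤ j) :
    Nat.add (trs f b2 (j - b2)) (Nat.add (f j) (f (Nat.succ j))) = trs f b2 (j + 1 - b2) := by
  simp only [Nat.add_eq, Nat.succ_eq_add_one]
  rw [show j + 1 - b2 = (j - b2) + 1 by omega, trs_succ, show b2 + (j - b2) = j by omega,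
    show b2 + (j - b2 + 1) = j + 1 by omega]

private theorem ltn_lt {a b : ℕ} (h : ltn a b = true) : a < b := Nat.le_of_ble_eq_true h

/-! ### The loops -/

/-- The value of the sum for `D2` in the tests. -/
private def V2 (d : Dx) (y : Dy) (i : ℕ) : ℕ :=
  cond y.w (trs (l2 d y.HB y.HB0) y.b2 (i - y.b2)) (Nat.mul 2 (Nat.mul (Nat.sub i y.b2) y.HB))

private theorem lp2_ok (d : Dx) (y : Dy) : ∀ (m j T2 T5 : ℕ), lp2 d y m j T2 T5 = true →
    y.b2 ≤ j → T2 = trs (l2 d y.HB y.HB0) y.b2 (j - y.b2) → T5 = E5 d.s5m y.ub (j + 17) →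
    ∀ j', j ≤ j' → j' < j + m → ∀ i, (i = j' ∨ i = j' + 1) →
      cR2 y j' i (V2 d y i) (E5 d.s5m y.ub (j' + 17)) = true := by
  intro m
  induction m with
  | zero => intro j T2 T5 _ _ _ _ j' h1 h2; omega
  | succ m ih =>
    intro j T2 T5 h hb e2 e5 j' h1 h2 i hi
    have h' : fN (fun T2' => cond (cR2 y j j (cond y.w T2 (Nat.mul 2 (Nat.mul (Nat.sub j y.b2) y.HB))) T5)
        (cond (cR2 y j (Nat.succ j) (cond y.w T2' (Nat.mul 2 (Nat.mul (Nat.sub (Nat.succ j) y.b2) y.HB))) T5)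
          (fN (fun T5' => lp2 d y m (Nat.succ j) T2' T5')
            (Nat.sub T5 (Nat.add (l5k d.s5m (Nat.add j 17)) (l5k d.s5m (Nat.add j 18)))))
          false) false)
      (Nat.add T2 (Nat.add (l2 d y.HB y.HB0 j) (l2 d y.HB y.HB0 (Nat.succ j)))) = true := h
    rw [fN_eq, e2, E2_add _ _ _ hb, e5] at h'
    obtain ⟨k1, h'⟩ := cond_and h'
    obtain ⟨k2, h'⟩ := cond_and h'
    rw [fN_eq] at h'
    have e5' : Nat.sub (E5 d.s5m y.ub (j + 17)) (Nat.add (l5k d.s5m (Nat.add j 17)) (l5k d.s5m (Nat.add j 18))) =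
        E5 d.s5m y.ub (j + 17 + 1) := E5_sub d.s5m y.ub (j + 17)
    rw [e5'] at h'
    rcases Nat.eq_or_lt_of_le h1 with h3 | h3
    · subst h3
      rcases hi with hi | hi
      · subst hi
        exact k1
      · subst hi
        exact k2
    · exact ih (j + 1) _ _ h' (by omega) rfl (by rw [show j + 1 + 17 = j + 17 + 1 by omega]) j' h3
        (by omega) i hi

private theorem lp1_ok (d : Dx) (y : Dy) (okR : Bool) : ∀ (m j T2 T5 : ℕ), lp1 d y okR m j T2 T5 = true →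
    y.b2 ≤ j → T2 = trs (l2 d y.HB y.HB0) y.b2 (j - y.b2) → T5 = E5 d.s5m y.ub (j + 17) →
    (∀ j', j ≤ j' → j' < j + m → okR = true ∨
      cR1 y j' (V2 d y j') (E5 d.s5m y.ub (j' + 17)) = true) ∧
    lp2 d y 10 (j + m) (trs (l2 d y.HB y.HB0) y.b2 (j + m - y.b2)) (E5 d.s5m y.ub (j + m + 17)) = true := by
  intro m
  induction m with
  | zero =>
    intro j T2 T5 h hb e2 e5
    refine ⟨fun j' h1 h2 => by omega, ?_⟩
    have h' : lp2 d y 10 j T2 T5 = true := h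
    rw [e2, e5] at h'
    exact h'
  | succ m ih =>
    intro j T2 T5 h hb e2 e5
    have h' : cond (cond okR true (cR1 y j (cond y.w T2 (Nat.mul 2 (Nat.mul (Nat.sub j y.b2) y.HB))) T5))
      (fN (fun T2' => fN (fun T5' => lp1 d y okR m (Nat.succ j) T2' T5')
        (Nat.sub T5 (Nat.add (l5k d.s5m (Nat.add j 17)) (l5k d.s5m (Nat.add j 18)))))
        (Nat.add T2 (Nat.add (l2 d y.HB y.HB0 j) (l2 d y.HB y.HB0 (Nat.succ j))))) false = true := h
    obtain ⟨k1, h'⟩ := cond_and h'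
    rw [fN_eq, fN_eq, e2, E2_add _ _ _ hb, e5] at h'
    have e5' : Nat.sub (E5 d.s5m y.ub (j + 17)) (Nat.add (l5k d.s5m (Nat.add j 17)) (l5k d.s5m (Nat.add j 18))) =
        E5 d.s5m y.ub (j + 17 + 1) := E5_sub d.s5m y.ub (j + 17)
    rw [e5'] at h'
    obtain ⟨r1, r2⟩ := ih (j + 1) _ _ h' (by omega) rfl (by rw [show j + 1 + 17 = j + 17 + 1 by omega])
    refine ⟨fun j' h1 h2 => ?_, by rw [show j + (m + 1) = j + 1 + m by omega]; exact r2⟩
    rcases Nat.eq_or_lt_of_le h1 with h3 | h3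
    · subst h3
      rw [e2, e5] at k1
      exact cond_or k1
    · exact r1 j' h3 (by omega)

private theorem rgt_ok (d : Dx) (y : Dy) (hb : y.b2 ≤ 16)
    (h : rgt d y (trs (l2 d y.HB y.HB0) y.b2 (16 - y.b2)) (E5 d.s5m y.ub 33) = true) :
    (y.NG + 1048576 < E5 d.s5m y.ub 32 + 2 * ((32 - y.ub) * y.HC)) ∧
    (∀ j', 16 ≤ j' → j' < 20 → (y.NG + 1048576 < E5 d.s5m y.ub 36 + 2 * ((36 - y.ub) * y.HC) + y.R) ∨
      cR1 y j' (V2 d y j') (E5 d.s5m y.ub (j' + 17)) = true) ∧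
    (∀ j', 20 ≤ j' → j' < 30 → ∀ i, (i = j' ∨ i = j' + 1) →
      cR2 y j' i (V2 d y i) (E5 d.s5m y.ub (j' + 17)) = true) := by
  have e32 : Nat.add (E5 d.s5m y.ub 33) (Nat.add (l5k d.s5m 32) (l5k d.s5m 33)) = E5 d.s5m y.ub 32 := by
    simp only [Nat.add_eq]
    unfold E5
    rw [if_pos (by omega), if_pos (by omega), l5k_lo _ 32 (by omega), l5k_lo _ 33 (by omega),
      show 40 - 32 = (40 - 33) + 1 by norm_num, trs_succ (l5 d.s5m) 0 (40 - 33), zero_add, zero_add]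
    omega
  have e36 : Nat.sub (E5 d.s5m y.ub 33) (trs (fun i => l5k d.s5m i) 33 3) = E5 d.s5m y.ub 36 := by
    have k1 := E5_sub d.s5m y.ub 33
    have k2 := E5_sub d.s5m y.ub 34
    have k3 := E5_sub d.s5m y.ub 35
    have e : trs (fun i => l5k d.s5m i) 33 3 = 0 + (l5k d.s5m 33 + l5k d.s5m 34) +
      (l5k d.s5m 34 + l5k d.s5m 35) + (l5k d.s5m 35 + l5k d.s5m 36) := rfl
    rw [e]
    simp only [Nat.add_eq, Nat.sub_eq, Nat.succ_eq_add_one, Nat.reduceAdd] at k1 k2 k3 ⊢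
    omega
  unfold rgt at h
  rw [fN_eq, fN_eq, e32, e36] at h
  obtain ⟨k1, h⟩ := cond_and h
  obtain ⟨r1, r2⟩ := lp1_ok d y _ 4 16 _ _ h hb rfl rfl
  refine ⟨ltn_lt k1, fun j' h1 h2 => ?_, fun j' h1 h2 i hi => ?_⟩
  · rcases r1 j' h1 (by omega) with h3 | h3
    · exact Or.inl (ltn_lt h3)
    · exact Or.inr h3
  · exact lp2_ok d y 10 20 _ _ r2 (by omega) rfl rfl j' h1 (by omega) i hi

private theorem cR1_ok {y : Dy} {j T2 T5 : ℕ} (h : cR1 y j T2 T5 = true) :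
    2 * ((j - y.b2) * y.HB) + y.NG + 1048576 < T2 + T5 + 2 * ((j + 17 - y.ub) * y.HC) := ltn_lt h

private theorem cR2_ok {y : Dy} {j i T2 T5 : ℕ} (h : cR2 y j i T2 T5 = true) :
    2 * ((i - y.b2) * y.HB) + y.NG + (y.need + 1048576) <
      T2 + T5 + 2 * ((j + 17 - y.ub) * y.HC) + (y.R + y.ad) ∧
    (y.w = true → 2 * ((i - y.b2) * y.HB) + (y.need + 1048576) < T2) := by
  unfold cR2 at h
  obtain ⟨k1, h⟩ := cond_and h
  refine ⟨ltn_lt k1, fun hw => ?_⟩
  rw [hw, cond_true] at h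
  exact ltn_lt h

private theorem mnn_le (a b : ℕ) : mnn a b ≤ a ∧ mnn a b ≤ b := by
  unfold mnn
  cases h : Nat.ble a b with
  | true =>
    rw [cond_true]
    exact ⟨le_rfl, Nat.le_of_ble_eq_true h⟩
  | false =>
    rw [cond_false]
    refine ⟨?_, le_rfl⟩
    by_contra h2
    rw [Nat.ble_eq_true_of_le (by omega)] at h
    exact absurd h (by simp)

private theorem sqn_eq (x : ℕ) : sqn x = x * x := by
  unfold sqn
  rw [fN_eq]
  rfl

private theorem div_up (a b : ℕ) (hb : 0 < b) : (a : ℝ) / b ≤ ((Nat.succ (Nat.div a b) : ℕ) : ℝ) := by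
  have h : a < b * (a / b + 1) := Nat.lt_mul_div_succ a hb
  have h2 : Nat.succ (Nat.div a b) = a / b + 1 := rfl
  rw [h2, div_le_iff₀ (by exact_mod_cast hb)]
  have : (a : ℝ) < b * ((a / b + 1 : ℕ) : ℝ) := by exact_mod_cast h
  linarith

/-- What the program has computed. -/
private theorem tR_data {d : Dx} {n kb : ℕ} (h : tR d n kb = true) :
    ∃ ub C0 X b2 HC HB HB0 NG Rn : ℕ, HC = hl d.el d.s5m ∧ HB = hl d.bh d.s2h ∧ HB0 = hl d.bh 0 ∧
      NG = 156082869204133600 + Nat.succ (Nat.div (70742377520284480 * d.g5h) 1048576) +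
        Nat.succ (Nat.div (35371188760142240 * ((d.g5h - d.g5l) * (X - 1048576))) 1099511627776) ∧
      (Rn = 0 ∨ Rn = rsv d n) ∧
      6 ≤ ub ∧ ub ≤ 19 ∧ 1 ≤ C0 ∧ C0 ≤ d.el ∧ C0 ≤ csn (10 * ub) ∧ C0 ≤ 524288 ∧
      1048576 * b2 ≥ 40 * d.qh ∧ b2 ≤ 16 ∧
      d.s5h * d.s5h * (1048576 - 2 * C0) ≤ 1048576 * (C0 * C0) ∧
      d.s5h * (1048576 + d.s5h) * 1048576 ≤ X * ((C0 + d.s5m) * (C0 + d.s5m)) ∧
      1048576 * d.s5h ≤ csn (10 * ub) * (1048576 + 2 * d.s5h) ∧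
      1048576 * d.s2h ≤ snn (10 * b2) * (1048576 + 2 * d.s2h) ∧
      rgt d ⟨ub, HC, NG, b2, HB, HB0, Rn, Nat.ble kb 1, cond (Nat.beq kb 1) 1125899906842624 0,
        cond (Nat.beq kb 3) 1351079888211148 0⟩ (trs (l2 d HB HB0) b2 (16 - b2)) (E5 d.s5m ub 33) = true := by
  unfold tR at h
  rw [fN_eq] at h
  obtain ⟨ub, hub⟩ : ∃ ub, ub = Nat.div (Nat.add (Nat.mul 20 (Nat.add d.ul d.uh)) 524288) 1048576 := ⟨_, rfl⟩
  rw [← hub, fN_eq] at h
  obtain ⟨C0, hC0⟩ : ∃ C0, C0 = mnn (mnn d.el (csn (Nat.mul 10 ub))) 524288 := ⟨_, rfl⟩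
  rw [← hC0, fN_eq] at h
  obtain ⟨X, hX⟩ : ∃ X, X = Nat.succ (Nat.div (Nat.mul (Nat.mul d.s5h (Nat.add 1048576 d.s5h)) 1048576)
    (sqn (Nat.add C0 d.s5m))) := ⟨_, rfl⟩
  rw [← hX, fN_eq] at h
  obtain ⟨b2, hb2⟩ : ∃ b2, b2 = Nat.div (Nat.add (Nat.mul 40 d.qh) 1048575) 1048576 := ⟨_, rfl⟩
  rw [← hb2, fN_eq, fN_eq, fN_eq, fN_eq] at h
  obtain ⟨k1, h⟩ := cond_and h
  obtain ⟨k2, h⟩ := cond_and h
  obtain ⟨k3, h⟩ := cond_and h
  obtain ⟨k4, h⟩ := cond_and h
  obtain ⟨k5, h⟩ := cond_and h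
  obtain ⟨k6, h⟩ := cond_and h
  obtain ⟨k7, h⟩ := cond_and h
  rw [fN_eq, fN_eq] at h
  have k1' : 6 ≤ ub := Nat.le_of_ble_eq_true k1
  have k2' : ub ≤ 19 := Nat.le_of_ble_eq_true k2
  have k3' : 1 ≤ C0 := Nat.le_of_ble_eq_true k3
  have k4' : b2 ≤ 16 := Nat.le_of_ble_eq_true k4
  have k5' : sqn d.s5h * (1048576 - 2 * C0) ≤ 1048576 * sqn C0 := Nat.le_of_ble_eq_true k5
  have k6' : 1048576 * d.s5h ≤ csn (10 * ub) * (1048576 + 2 * d.s5h) := Nat.le_of_ble_eq_true k6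
  have k7' : 1048576 * d.s2h ≤ snn (10 * b2) * (1048576 + 2 * d.s2h) := Nat.le_of_ble_eq_true k7
  rw [sqn_eq, sqn_eq] at k5'
  have m1 := mnn_le (mnn d.el (csn (Nat.mul 10 ub))) 524288
  have m2 := mnn_le d.el (csn (Nat.mul 10 ub))
  rw [← hC0] at m1
  have hX' : d.s5h * (1048576 + d.s5h) * 1048576 ≤ X * ((C0 + d.s5m) * (C0 + d.s5m)) := by
    have e : sqn (Nat.add C0 d.s5m) = (C0 + d.s5m) * (C0 + d.s5m) := sqn_eq _
    rw [e] at hX
    have hp : 0 < (C0 + d.s5m) * (C0 + d.s5m) := Nat.mul_pos (by omega) (by omega)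
    have := Nat.lt_mul_div_succ (d.s5h * (1048576 + d.s5h) * 1048576) hp
    have e2 : X = d.s5h * (1048576 + d.s5h) * 1048576 / ((C0 + d.s5m) * (C0 + d.s5m)) + 1 := hX
    rw [e2, Nat.mul_comm (_ / _ + 1)]
    exact this.le
  have hb2' : 1048576 * b2 ≥ 40 * d.qh := by
    have e : b2 = (40 * d.qh + 1048575) / 1048576 := hb2
    omega
  have eT : Nat.add (trs (l5 d.s5m) 0 7) (trs (l5 d.s5m) 0 ub) = E5 d.s5m ub 33 := by
    unfold E5
    rw [if_pos (by omega)]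
    rfl
  rw [eT] at h
  rcases cond_or h with h | h
  · exact ⟨ub, C0, X, b2, _, _, _, _, 0, rfl, rfl, rfl, rfl, Or.inl rfl, k1', k2', k3',
      m1.1.trans m2.1, m1.1.trans m2.2, m1.2, hb2', k4', k5', hX', k6', k7', h⟩
  · rw [fN_eq] at h
    obtain ⟨_, h⟩ := cond_and h
    exact ⟨ub, C0, X, b2, _, _, _, _, rsv d n, rfl, rfl, rfl, rfl, Or.inr rfl, k1', k2', k3',
      m1.1.trans m2.1, m1.1.trans m2.2, m1.2, hb2', k4', k5', hX', k6', k7', h⟩

end N8

open N8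

/-- From `D2_num`, `D5_num`. -/
theorem tR_ok {d : Dx} {n kb : ℕ} {s1 s4 s3 s2 g5 p0 q0 qb : ℝ} (hkb : kb ≤ 3)
    (hd : d.Ok s1 s4 s3 s2 g5 p0 q0 qb) (h : tR d n kb = true) :
    ∃ R : ℝ, (R = 0 ∨ R = (rsv d n : ℕ) / (80 * 281474976710656)) ∧
      0 < -Dq (Hs g5) (qb + 1 - q0) (1 / 2 + 4 / 5) ∧
      (∀ j : ℕ, 16 ≤ j → j < 20 → 0 < -Dq (Hs g5) (qb + 1 - q0) (1 / 2 + 9 / 10) + R ∨
        0 < wkb kb * Dq s2 qb (j / 40) + -Dq (Hs g5) (qb + 1 - q0) (1 / 2 + (j + 17) / 40)) ∧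
      (∀ j : ℕ, 20 ≤ j → j < 30 → ∀ i : ℕ, (i = j ∨ i = j + 1) →
        ((if kb = 1 then 1 / 20 else 0 : ℝ) - (if kb = 3 then 3 / 50 else 0)) <
          wkb kb * Dq s2 qb (i / 40) + -Dq (Hs g5) (qb + 1 - q0) (1 / 2 + (j + 17) / 40) + R ∧
        (kb ≤ 1 → (if kb = 1 then 1 / 20 else 0 : ℝ) < Dq s2 qb (i / 40))) := by
  obtain ⟨ub, C0, X, b2, HC, HB, HB0, NG, Rn, eHC, eHB, eHB0, eNG, eR, k1, k2, k3, k4, k5, k6, k7, k8,
    k9, k10, k11, k12, hr⟩ := tR_data h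
  obtain ⟨nd', hnd⟩ : ∃ x : ℕ, x = cond (Nat.beq kb 1) 1125899906842624 0 := ⟨_, rfl⟩
  obtain ⟨ad', had⟩ : ∃ x : ℕ, x = cond (Nat.beq kb 3) 1351079888211148 0 := ⟨_, rfl⟩
  rw [← hnd, ← had] at hr
  obtain ⟨y, hy⟩ : ∃ y : Dy, y = ⟨ub, HC, NG, b2, HB, HB0, Rn, Nat.ble kb 1, nd', ad'⟩ := ⟨_, rfl⟩
  have y1 : y.ub = ub := by rw [hy]
  have y2 : y.HC = HC := by rw [hy]
  have y3 : y.NG = NG := by rw [hy]
  have y4 : y.b2 = b2 := by rw [hy]
  have y5 : y.HB = HB := by rw [hy]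
  have y6 : y.HB0 = HB0 := by rw [hy]
  have y7 : y.R = Rn := by rw [hy]
  have y8 : y.w = Nat.ble kb 1 := by rw [hy]
  have y9 : y.need = nd' := by rw [hy]
  have y10 : y.ad = ad' := by rw [hy]
  rw [← hy] at hr
  obtain ⟨t1, t2, t3⟩ := rgt_ok d y (by rw [y4]; exact k8) (by
    rw [y1, y4, y5, y6]
    exact hr)
  rw [y1, y2, y3] at t1
  -- real versions
  obtain ⟨W, hW⟩ : ∃ W : ℝ, W = 80 * 281474976710656 := ⟨_, rfl⟩
  have hW0 : 0 < W := by rw [hW]; norm_num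
  have cu : (6 : ℝ) ≤ ub := by exact_mod_cast k1
  have cu' : (ub : ℝ) ≤ 19 := by exact_mod_cast k2
  have hNG : (156082869204133600 : ℝ) + 70742377520284480 * d.g5h / 1048576 +
        35371188760142240 * ((d.g5h - d.g5l : ℕ) : ℝ) * ((X - 1048576 : ℕ) : ℝ) / 1099511627776 ≤ NG := by
    have h1 := div_up (70742377520284480 * d.g5h) 1048576 (by norm_num)
    have h2 := div_up (35371188760142240 * ((d.g5h - d.g5l) * (X - 1048576))) 1099511627776 (by norm_num)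
    rw [eNG]
    rw [Nat.cast_add, Nat.cast_add]
    rw [Nat.cast_mul] at h1 h2
    rw [Nat.cast_mul] at h2
    push_cast [-Nat.cast_succ] at h1 h2 ⊢
    linarith
  have P5 : ∀ k : ℕ, 32 ≤ k → k ≤ 46 → ((E5 d.s5m ub k : ℕ) : ℝ) + 2 * ((k : ℝ) - ub) * HC - NG - 524288 ≤
      W * -Dq (Hs g5) (qb + 1 - q0) (1 / 2 + k / 40) := by
    intro k h1 h2
    have := D5_num hd h1 h2 k1 k2 k3 k4 k5 k6 k9 k10 k11 (T := E5 d.s5m ub k) (by unfold E5; exact le_rfl)
    rw [← eHC] at this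
    rw [hW]
    linarith
  have P2 : ∀ i : ℕ, b2 ≤ i → i ≤ 30 → ((trs (l2 d HB HB0) b2 (i - b2) : ℕ) : ℝ) -
      2 * ((i : ℝ) - b2) * HB - 16384 ≤ W * Dq s2 qb (i / 40) := by
    intro i h1 h2
    have := D2_num hd k7 k8 h1 h2 k12
    rw [← eHB, ← eHB0] at this
    rw [hW]
    exact this
  clear hy h hr k9 k10 k11 k12 eNG
  have hnd' : ((nd' : ℕ) : ℝ) = W * (if kb = 1 then 1 / 20 else 0) := by
    rw [hnd, hW]
    by_cases hk : kb = 1
    · subst hk
      rw [if_pos rfl]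
      have : (cond (Nat.beq 1 1) 1125899906842624 0 : ℕ) = 1125899906842624 := rfl
      rw [this]
      norm_num
    · rw [if_neg hk]
      have e : Nat.beq kb 1 = false := by
        rcases hkb' : Nat.beq kb 1 with _ | _
        · rfl
        · exact absurd (Nat.eq_of_beq_eq_true hkb') hk
      rw [e, cond_false]
      norm_num
  have had' : ((ad' : ℕ) : ℝ) ≤ W * (if kb = 3 then 3 / 50 else 0) := by
    rw [had, hW]
    by_cases hk : kb = 3
    · subst hk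
      rw [if_pos rfl]
      have : (cond (Nat.beq 3 3) 1351079888211148 0 : ℕ) = 1351079888211148 := rfl
      rw [this]
      norm_num
    · rw [if_neg hk]
      have e : Nat.beq kb 3 = false := by
        rcases hkb' : Nat.beq kb 3 with _ | _
        · rfl
        · exact absurd (Nat.eq_of_beq_eq_true hkb') hk
      rw [e, cond_false]
      norm_num
  clear hnd had
  refine ⟨(Rn : ℕ) / W, ?_, ?_, ?_, ?_⟩
  · rcases eR with h | h
    · left
      rw [h]
      simp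
    · right
      rw [h, hW]
  · have h1 := P5 32 (by omega) (by omega)
    have h2 : ((NG + 1048576 : ℕ) : ℝ) < ((E5 d.s5m ub 32 + 2 * ((32 - ub) * HC) : ℕ) : ℝ) := by
      exact_mod_cast t1
    push_cast [Nat.cast_sub (show ub ≤ 32 by omega)] at h1 h2
    rw [show (1 / 2 + 4 / 5 : ℝ) = 1 / 2 + 32 / 40 by norm_num]
    have h3 : 0 < W * -Dq (Hs g5) (qb + 1 - q0) (1 / 2 + 32 / 40) := by linarith
    exact (mul_pos_iff_of_pos_left hW0).1 h3
  · intro j h1 h2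
    rcases t2 j h1 h2 with h3 | h3
    · left
      rw [y1, y2, y3, y7] at h3
      have p := P5 36 (by omega) (by omega)
      have h4 : ((NG + 1048576 : ℕ) : ℝ) < ((E5 d.s5m ub 36 + 2 * ((36 - ub) * HC) + Rn : ℕ) : ℝ) := by
        exact_mod_cast h3
      push_cast [Nat.cast_sub (show ub ≤ 36 by omega)] at p h4
      rw [show (1 / 2 + 9 / 10 : ℝ) = 1 / 2 + 36 / 40 by norm_num]
      have h5 : 0 < W * (-Dq (Hs g5) (qb + 1 - q0) (1 / 2 + 36 / 40) + (Rn : ℝ) / W) := by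
        rw [mul_add, mul_div_cancel₀ _ hW0.ne']
        linarith
      exact (mul_pos_iff_of_pos_left hW0).1 h5
    · right
      have h4 := cR1_ok h3
      rw [y1, y2, y3, y4, y5] at h4
      have p := P5 (j + 17) (by omega) (by omega)
      have p2 := P2 j (by omega) (by omega)
      have h5 : ((2 * ((j - b2) * HB) + NG + 1048576 : ℕ) : ℝ) <
          ((V2 d y j + E5 d.s5m ub (j + 17) + 2 * ((j + 17 - ub) * HC) : ℕ) : ℝ) := by
        exact_mod_cast h4
      push_cast [Nat.cast_sub (show ub ≤ j + 17 by omega), Nat.cast_sub (show b2 ≤ j by omega)] at p h5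
      have h6 : 0 < W * (wkb kb * Dq s2 qb (j / 40) +
          -Dq (Hs g5) (qb + 1 - q0) (1 / 2 + (j + 17) / 40)) := by
        unfold V2 at h5
        rw [y4, y5, y6, y8] at h5
        unfold wkb
        by_cases hk : kb ≤ 1
        · rw [Nat.ble_eq_true_of_le hk, cond_true] at h5
          rw [if_pos hk]
          linarith
        · have e : Nat.ble kb 1 = false := by
            rcases hkb' : Nat.ble kb 1 with _ | _
            · rfl
            · exact absurd (Nat.le_of_ble_eq_true hkb') hk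
          rw [e, cond_false] at h5
          have e2 : ((Nat.mul 2 (Nat.mul (Nat.sub j b2) HB) : ℕ) : ℝ) = 2 * (((j : ℝ) - b2) * HB) := by
            simp only [Nat.mul_eq, Nat.sub_eq]
            push_cast [Nat.cast_sub (show b2 ≤ j by omega)]
            ring
          rw [e2] at h5
          rw [if_neg hk]
          linarith
      exact (mul_pos_iff_of_pos_left hW0).1 h6
  · intro j h1 h2 i hi
    have h3 := t3 j h1 h2 i hi
    obtain ⟨h4, h4'⟩ := cR2_ok h3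
    rw [y1, y2, y3, y4, y5, y7, y9, y10] at h4
    rw [y4, y5, y8, y9] at h4'
    have p := P5 (j + 17) (by omega) (by omega)
    have p2 := P2 i (by omega) (by omega)
    have h5 : ((2 * ((i - b2) * HB) + NG + (nd' + 1048576) : ℕ) : ℝ) <
        ((V2 d y i + E5 d.s5m ub (j + 17) + 2 * ((j + 17 - ub) * HC) + (Rn + ad') : ℕ) : ℝ) := by
      exact_mod_cast h4
    push_cast [Nat.cast_sub (show ub ≤ j + 17 by omega), Nat.cast_sub (show b2 ≤ i by omega)] at p h5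
    rw [hnd'] at h5
    refine ⟨?_, fun hk => ?_⟩
    · have h6 : 0 < W * (wkb kb * Dq s2 qb (i / 40) +
          -Dq (Hs g5) (qb + 1 - q0) (1 / 2 + (j + 17) / 40) + (Rn : ℝ) / W -
          ((if kb = 1 then 1 / 20 else 0 : ℝ) - (if kb = 3 then 3 / 50 else 0))) := by
        rw [mul_sub, mul_add, mul_div_cancel₀ _ hW0.ne', mul_sub]
        unfold V2 at h5
        rw [y4, y5, y6, y8] at h5
        unfold wkb
        by_cases hk : kb ≤ 1
        · rw [Nat.ble_eq_true_of_le hk, cond_true] at h5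
          rw [if_pos hk]
          linarith
        · have e : Nat.ble kb 1 = false := by
            rcases hkb' : Nat.ble kb 1 with _ | _
            · rfl
            · exact absurd (Nat.le_of_ble_eq_true hkb') hk
          rw [e, cond_false] at h5
          have e2 : ((Nat.mul 2 (Nat.mul (Nat.sub i b2) HB) : ℕ) : ℝ) = 2 * (((i : ℝ) - b2) * HB) := by
            simp only [Nat.mul_eq, Nat.sub_eq]
            push_cast [Nat.cast_sub (show b2 ≤ i by omega)]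
            ring
          rw [e2] at h5
          rw [if_neg hk]
          linarith
      have := (mul_pos_iff_of_pos_left hW0).1 h6
      linarith
    · have h7 := h4' (Nat.ble_eq_true_of_le hk)
      have h8 : ((2 * ((i - b2) * HB) + (nd' + 1048576) : ℕ) : ℝ) < ((V2 d y i : ℕ) : ℝ) := by
        exact_mod_cast h7
      unfold V2 at h8
      rw [y4, y5, y6, y8, Nat.ble_eq_true_of_le hk, cond_true] at h8
      push_cast [Nat.cast_sub (show b2 ≤ i by omega)] at h8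
      rw [hnd'] at h8
      have h9 : 0 < W * (Dq s2 qb (i / 40) - (if kb = 1 then 1 / 20 else 0 : ℝ)) := by
        rw [mul_sub]
        linarith
      have := (mul_pos_iff_of_pos_left hW0).1 h9
      linarith

end Pool.Agent.S5.Y3
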