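import Pool.Agent.S5.I.Y3c
import Pool.Agent.S5.I.NumSe

/-!
# The flats of a node with three half twists: the table, `sin²` and `sinh²`
-/

set_option autoImplicit false

namespace Pool.Agent.S5.Y3

open MeasureTheory Filter Topology Set Pool.Agent.S5.C2 Pool.Agent.S5.Num Pool.Agent.S5.K3

namespace Na

theorem ww_re0 (x : ℝ) : (ww x 0).re = Real.cos (2 * Real.pi * x) := by
  unfold ww
  rw [show (2 : ℂ) * (Real.pi : ℂ) * Complex.I * ((x : ℂ) + ((0 : ℝ) : ℂ) * Complex.I) =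
    ((2 * Real.pi * x : ℝ) : ℂ) * Complex.I by push_cast; ring]
  exact Complex.exp_ofReal_mul_I_re _

theorem ww_re1 (s : ℝ) : (ww 0 s).re = Real.exp (-(2 * Real.pi * s)) := by
  unfold ww
  rw [show (2 : ℂ) * (Real.pi : ℂ) * Complex.I * (((0 : ℝ) : ℂ) + (s : ℂ) * Complex.I) =
    ((-(2 * Real.pi * s) : ℝ) : ℂ) by
      push_cast
      linear_combination (2 * (Real.pi : ℂ) * s) * Complex.I_sq]
  exact Complex.exp_ofReal_re _

/-- The real part of an approximation. -/
theorem Ap_re {w : ℂ} {a b : ℕ} (h : Ap w a b 512) :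
    |w.re * 281474976710656 - ((a : ℝ) - 4503599627370496)| ≤ 512 := by
  have h1 := (Complex.abs_re_le_norm _).trans h
  rw [Complex.sub_re, cx_re, Complex.re_mul_ofReal] at h1
  exact h1

theorem Sn_cos2 (x : ℝ) : 1048576 * Sn x = (281474976710656 - Real.cos (2 * Real.pi * x) *
    281474976710656) / 536870912 := by
  unfold Sn
  rw [Real.sin_sq_eq_half_sub, show 2 * (Real.pi * x) = 2 * Real.pi * x by ring]
  ring

theorem nsub_ge (a b : ℕ) : (a : ℝ) - b ≤ ((Nat.sub a b : ℕ) : ℝ) := by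
  change (a : ℝ) - b ≤ ((a - b : ℕ) : ℝ)
  rcases le_total b a with h | h
  · rw [Nat.cast_sub h]
  · rw [Nat.sub_eq_zero_of_le h]
    have : (a : ℝ) ≤ b := by exact_mod_cast h
    push_cast
    linarith

theorem nsub_le {a b : ℕ} {x : ℝ} (h : (a : ℝ) - b ≤ x) (h0 : 0 ≤ x) :
    ((Nat.sub a b : ℕ) : ℝ) ≤ x := by
  change ((a - b : ℕ) : ℝ) ≤ x
  rcases le_total b a with h1 | h1
  · rw [Nat.cast_sub h1]
    exact h
  · rw [Nat.sub_eq_zero_of_le h1]
    simpa using h0

theorem div_le' {a m : ℕ} {x : ℝ} (hm : 0 < m) (h : (a : ℝ) ≤ x * m) :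
    ((Nat.div a m : ℕ) : ℝ) ≤ x := by
  have h1 : Nat.div a m * m ≤ a := Nat.div_mul_le_self a m
  have h2 : ((Nat.div a m : ℕ) : ℝ) * m ≤ a := by exact_mod_cast h1
  have hm' : (0 : ℝ) < m := by exact_mod_cast hm
  exact le_of_mul_le_mul_right (h2.trans h) hm'

theorem div_ge' {a m : ℕ} {x : ℝ} (hm : 0 < m) (h : x * m ≤ a) :
    x ≤ ((Nat.succ (Nat.div a m) : ℕ) : ℝ) := by
  have h1 : a < Nat.succ (Nat.div a m) * m := by
    change a < (a / m + 1) * m
    have h2 := Nat.div_add_mod a m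
    have h3 := Nat.mod_lt a hm
    rw [Nat.add_mul, Nat.one_mul, Nat.mul_comm (a / m) m]
    omega
  have h2 : (a : ℝ) ≤ ((Nat.succ (Nat.div a m) : ℕ) : ℝ) * m := by exact_mod_cast h1.le
  have hm' : (0 : ℝ) < m := by exact_mod_cast hm
  exact le_of_mul_le_mul_right (h.trans h2) hm'

/-- The test of an entry of the table. -/
def ckt (k : ℕ) : Bool := wst k 0 400 (fun a _ =>
  cond (Nat.ble (Nat.mul (tn k) 536870912) (Nat.sub 4785074604081152 (Nat.add a 512)))
    (Nat.ble (Nat.sub 4785074604081664 a) (Nat.mul (Nat.succ (tn k)) 536870912)) false)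

/-- All values of a test. -/
def al1 (f : ℕ → Bool) (n : ℕ) : Bool := Nat.rec (motive := fun _ => Bool) true
  (fun k ih => cond (f k) ih false) n

theorem al1_ok {f : ℕ → Bool} {n : ℕ} (h : al1 f n = true) : ∀ k < n, f k = true := by
  induction n with
  | zero => intro k hk; omega
  | succ n ih =>
    have e : al1 f (n + 1) = cond (f n) (al1 f n) false := rfl
    rw [e] at h
    intro k hk
    cases hf : f n with
    | false => rw [hf] at h; exact absurd h (by simp)
    | true =>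
      rw [hf] at h
      rcases Nat.lt_succ_iff_lt_or_eq.1 hk with h1 | h1
      · exact ih h k h1
      · rw [h1]
        exact hf

/-- The test of an entry besides `100`. -/
def ck1 (k : ℕ) : Bool := cond (Nat.beq k 100) true (ckt k)

theorem ckl_ok : al1 ck1 200 = true := by decide +kernel

theorem ckl_get {k : ℕ} (hk : k < 200) (h : k ≠ 100) : ckt k = true := by
  have h1 := al1_ok ckl_ok k hk
  have h2 : Nat.beq k 100 = false := by
    rw [Bool.eq_false_iff]
    intro h1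
    exact h (Nat.eq_of_beq_eq_true h1)
  unfold ck1 at h1
  rw [h2, cond_false] at h1
  exact h1

theorem t100 : tn 100 = 524288 := by decide +kernel

theorem t200 : tn 200 = 1048575 := by decide +kernel

theorem cond_t {a b : Bool} (h : cond a b false = true) : a = true ∧ b = true := by
  cases a <;> cases b <;> simp_all

theorem ble_sub {x y z u v : ℕ} (h : Nat.ble (Nat.mul x y) (Nat.sub z (Nat.add u v)) = true) :
    x * y + (u + v) ≤ z ∨ x * y = 0 := by
  have h1 : x * y ≤ z - (u + v) := Nat.le_of_ble_eq_true h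
  omega

theorem ble_mul {x y z u : ℕ} (h : Nat.ble (Nat.sub z u) (Nat.mul (Nat.succ x) y) = true) :
    z ≤ (x + 1) * y + u := by
  have h1 : z - u ≤ (x + 1) * y := Nat.le_of_ble_eq_true h
  omega

theorem ckt_ok {k : ℕ} (hk : k ≤ 400) (h : ckt k = true) :
    ((tn k : ℕ) : ℝ) ≤ 1048576 * Sn (k / 400) ∧ 1048576 * Sn (k / 400) ≤ (tn k : ℕ) + 1 := by
  unfold ckt at h
  obtain ⟨a, b, e, hA⟩ := wst_sound (X := k) (S := 0) (D := 400) (by norm_num) hk (by norm_num)
    (fun a _ =>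
      cond (Nat.ble (Nat.mul (tn k) 536870912) (Nat.sub 4785074604081152 (Nat.add a 512)))
        (Nat.ble (Nat.sub 4785074604081664 a) (Nat.mul (Nat.succ (tn k)) 536870912)) false)
  rw [e] at h
  obtain ⟨h1, h2⟩ := cond_t h
  have e2 : ((0 : ℕ) : ℝ) / ((400 : ℕ) : ℝ) = 0 := by norm_num
  have e3 : ((400 : ℕ) : ℝ) = 400 := by norm_num
  rw [e2, e3] at hA
  have h3 := abs_le.1 (Ap_re hA)
  rw [ww_re0] at h3
  rw [Sn_cos2]
  have h4 := ble_sub h1
  have h5 := ble_mul h2
  clear h1 h2 h e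
  generalize tn k = T at h4 h5 ⊢
  constructor
  · rw [le_div_iff₀ (by norm_num)]
    rcases h4 with h4 | h4
    · have h9 : ((T * 536870912 + (a + 512) : ℕ) : ℝ) ≤ ((4785074604081152 : ℕ) : ℝ) :=
        Nat.cast_le.2 h4
      push_cast at h9
      linarith
    · have h9 : ((T * 536870912 : ℕ) : ℝ) = ((0 : ℕ) : ℝ) := congrArg Nat.cast h4
      push_cast at h9
      rw [h9]
      have := Real.cos_le_one (2 * Real.pi * (k / 400))
      nlinarith
  · rw [div_le_iff₀ (by norm_num)]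
    have h7 : ((4785074604081664 : ℕ) : ℝ) ≤ (((T + 1) * 536870912 + a : ℕ) : ℝ) :=
      Nat.cast_le.2 h5
    push_cast at h7
    linarith

end Na

theorem tn_ok {k : ℕ} (h : k ≤ 200) : ((tn k : ℕ) : ℝ) ≤ 1048576 * Sn (k / 400) ∧
    1048576 * Sn (k / 400) ≤ (tn k : ℕ) + 1 := by
  rcases eq_or_ne k 200 with h0 | h0
  · subst h0
    have e : Sn (((200 : ℕ) : ℝ) / 400) = 1 := by
      rw [show ((200 : ℕ) : ℝ) / 400 = 1 / 2 by norm_num]
      unfold Sn
      rw [show Real.pi * (1 / 2) = Real.pi / 2 by ring, Real.sin_pi_div_two]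
      norm_num
    rw [e, Na.t200]
    norm_num
  · rcases eq_or_ne k 100 with h1 | h1
    · subst h1
      have e : Sn (((100 : ℕ) : ℝ) / 400) = 1 / 2 := by
        rw [show ((100 : ℕ) : ℝ) / 400 = 1 / 4 by norm_num]
        unfold Sn
        rw [Real.sin_sq_eq_half_sub, show 2 * (Real.pi * (1 / 4)) = Real.pi / 2 by ring,
          Real.cos_pi_div_two]
        norm_num
      rw [e, Na.t100]
      norm_num
    · exact Na.ckt_ok (by omega) (Na.ckl_get (by omega) h1)

namespace Na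

theorem Sn_refl (t : ℝ) : Sn (1 - t) = Sn t := by
  unfold Sn
  rw [show Real.pi * (1 - t) = Real.pi - Real.pi * t by ring, Real.sin_pi_sub]

theorem ds_eq (a b : ℕ) : ds' a b = (a - b) + (b - a) := rfl

theorem snl_gen {Z a e m : ℕ} {x : ℝ} (hm : 0 < m) (h0 : 0 ≤ x)
    (h : (Z : ℝ) - ((a : ℝ) + e) ≤ x * m) :
    ((Nat.div (Nat.sub Z (Nat.add a e)) m : ℕ) : ℝ) ≤ x := by
  apply div_le' hm
  apply nsub_le
  · have e4 : ((Nat.add a e : ℕ) : ℝ) = (a : ℝ) + e := Nat.cast_add a e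
    rw [e4]
    exact h
  · positivity

theorem snh_gen {Z a m : ℕ} {x : ℝ} (hm : 0 < m) (h : x * m ≤ (Z : ℝ) - a) :
    x ≤ ((Nat.succ (Nat.div (Nat.sub Z a) m) : ℕ) : ℝ) :=
  div_ge' hm (h.trans (nsub_ge _ _))

theorem sqn_eq (x : ℕ) : sqn x = x * x := by
  unfold sqn
  rw [fN_eq]
  rfl

theorem shl_gen {U w m : ℕ} {x : ℝ} (hw : 0 < w) (hm : 0 < m) (h0 : 0 ≤ x)
    (h : w ≤ U → ((U : ℝ) - w) ^ 2 ≤ x * (w * m)) :
    ((Nat.div (sqn (Nat.sub U w)) (Nat.mul w m) : ℕ) : ℝ) ≤ x := by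
  have e1 : Nat.mul w m = w * m := rfl
  have e2 : Nat.sub U w = U - w := rfl
  rw [e1, e2, sqn_eq]
  apply div_le' (Nat.mul_pos hw hm)
  rw [Nat.cast_mul, Nat.cast_mul]
  rcases le_total w U with h1 | h1
  · rw [Nat.cast_sub h1]
    have := h h1
    linarith
  · rw [Nat.sub_eq_zero_of_le h1]
    have : 0 ≤ x * ((w : ℝ) * m) := by positivity
    simpa using this

theorem shh_gen {U w m : ℕ} {x : ℝ} (hw : 0 < w) (hm : 0 < m) (hU : w ≤ U)
    (h : x * (w * m) ≤ ((U : ℝ) - w) ^ 2) :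
    x ≤ ((Nat.succ (Nat.div (sqn (Nat.sub U w)) (Nat.mul w m)) : ℕ) : ℝ) := by
  have e1 : Nat.mul w m = w * m := rfl
  have e2 : Nat.sub U w = U - w := rfl
  rw [e1, e2, sqn_eq]
  apply div_ge' (Nat.mul_pos hw hm)
  rw [Nat.cast_mul, Nat.cast_mul, Nat.cast_sub hU]
  linarith

theorem add_cast (a b : ℕ) : ((Nat.add a b : ℕ) : ℝ) = (a : ℝ) + b := Nat.cast_add a b

/-- `sinh²` with `W = 2^48 exp (-2 π h)`. -/
theorem Hs_eq (h : ℝ) : 1048576 * Hs h = (281474976710656 -
    Real.exp (-(2 * Real.pi * h)) * 281474976710656) ^ 2 /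
    (Real.exp (-(2 * Real.pi * h)) * 281474976710656 * 1073741824) := by
  unfold Hs
  rw [Real.sinh_eq]
  have e1 : Real.exp (-(2 * Real.pi * h)) = Real.exp (-(Real.pi * h)) ^ 2 := by
    rw [← Real.exp_nat_mul]
    congr 1
    push_cast
    ring
  have e2 : Real.exp (Real.pi * h) = (Real.exp (-(Real.pi * h)))⁻¹ := by
    rw [← Real.exp_neg, neg_neg]
  have h0 := Real.exp_pos (-(Real.pi * h))
  rw [e1, e2]
  generalize Real.exp (-(Real.pi * h)) = y at *
  field_simp
  ring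

theorem quo_mono {U w W : ℝ} (hW : 0 < W) (h : W ≤ w) (hw : w ≤ U) :
    (U - w) ^ 2 / w ≤ (U - W) ^ 2 / W := by
  have hw0 : 0 < w := by linarith
  rw [div_le_div_iff₀ hw0 hW]
  have h1 : (U - w) ^ 2 ≤ (U - W) ^ 2 := pow_le_pow_left₀ (by linarith) (by linarith) 2
  exact mul_le_mul h1 h hW.le (sq_nonneg _)

end Na

theorem csn_ok {k : ℕ} (h : k ≤ 400) : ((csn k : ℕ) : ℝ) ≤ 1048576 * Sn (1 / 2 + k / 400) ∧
    1048576 * Sn (1 / 2 + k / 400) ≤ (csn k : ℕ) + 1 := by
  unfold csn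
  rw [Na.ds_eq]
  have h1 := tn_ok (k := (200 - k) + (k - 200)) (by omega)
  have e2 : Sn ((((200 - k) + (k - 200) : ℕ) : ℝ) / 400) = Sn (1 / 2 + k / 400) := by
    rcases le_total k 200 with h2 | h2
    · have e5 : (200 - k) + (k - 200) = 200 - k := by omega
      rw [e5, Nat.cast_sub h2, ← Na.Sn_refl (1 / 2 + k / 400)]
      have e6 : (((200 : ℕ) : ℝ) - (k : ℝ)) / 400 = 1 - (1 / 2 + (k : ℝ) / 400) := by
        push_cast
        ring
      rw [e6]
    · rw [show (200 - k) + (k - 200) = k - 200 by omega, Nat.cast_sub h2]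
      unfold Sn
      rw [show Real.pi * (((k : ℝ) - ((200 : ℕ) : ℝ)) / 400) =
        Real.pi * (1 / 2 + k / 400) - Real.pi by push_cast; ring, Real.sin_sub_pi]
      ring
  rw [e2] at h1
  exact h1

theorem snn_ok {k : ℕ} (h : k ≤ 400) : ((snn k : ℕ) : ℝ) ≤ 1048576 * Sn (k / 400) ∧
    1048576 * Sn (k / 400) ≤ (snn k : ℕ) + 1 := by
  unfold snn
  rw [Na.ds_eq]
  have e3 : Nat.sub 200 (200 - k + (k - 200)) = 200 - (200 - k + (k - 200)) := rfl
  rw [e3]
  have h1 := tn_ok (k := 200 - ((200 - k) + (k - 200))) (by omega)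
  have e2 : Sn (((200 - ((200 - k) + (k - 200)) : ℕ) : ℝ) / 400) = Sn (k / 400) := by
    rcases le_total k 200 with h2 | h2
    · rw [show 200 - ((200 - k) + (k - 200)) = k by omega]
    · have e5 : 200 - ((200 - k) + (k - 200)) = 400 - k := by omega
      rw [e5, Nat.cast_sub h, ← Na.Sn_refl (k / 400)]
      have e6 : (((400 : ℕ) : ℝ) - (k : ℝ)) / 400 = 1 - (k : ℝ) / 400 := by
        push_cast
        ring
      rw [e6]
  rw [e2] at h1
  exact h1

theorem snL_ok {x : ℕ} (h : x ≤ 524288) : ((snL x : ℕ) : ℝ) ≤ 1048576 * Sn (x / 1048576) := by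
  unfold snL
  obtain ⟨a, b, e, hA⟩ := wst_sound (X := x) (S := 0) (D := 1048576) (by norm_num) (by omega)
    (by norm_num) (fun a _ => Nat.div (Nat.sub 4785074604081152 (Nat.add a 512)) 536870912)
  rw [e]
  clear e
  have e2 : ((0 : ℕ) : ℝ) / ((1048576 : ℕ) : ℝ) = 0 := by norm_num
  have e3 : ((1048576 : ℕ) : ℝ) = 1048576 := by norm_num
  rw [e2, e3] at hA
  have h3 := abs_le.1 (Na.Ap_re hA)
  rw [Na.ww_re0] at h3
  rw [Na.Sn_cos2]
  have h4 := Real.cos_le_one (2 * Real.pi * (x / 1048576))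
  apply Na.snl_gen (by norm_num)
  · apply div_nonneg _ (by norm_num)
    nlinarith
  · have c1 : ((4785074604081152 : ℕ) : ℝ) = 4785074604081152 := by norm_num
    have c2 : ((512 : ℕ) : ℝ) = 512 := by norm_num
    have c3 : ((536870912 : ℕ) : ℝ) = 536870912 := by norm_num
    rw [c1, c2, c3, div_mul_cancel₀ _ (by norm_num : (536870912 : ℝ) ≠ 0)]
    linarith

theorem snH_ok {x : ℕ} (h : x ≤ 524288) : 1048576 * Sn (x / 1048576) ≤ (snH x : ℕ) := by
  unfold snH
  obtain ⟨a, b, e, hA⟩ := wst_sound (X := x) (S := 0) (D := 1048576) (by norm_num) (by omega)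
    (by norm_num) (fun a _ => Nat.succ (Nat.div (Nat.sub 4785074604081664 a) 536870912))
  rw [e]
  clear e
  have e2 : ((0 : ℕ) : ℝ) / ((1048576 : ℕ) : ℝ) = 0 := by norm_num
  have e3 : ((1048576 : ℕ) : ℝ) = 1048576 := by norm_num
  rw [e2, e3] at hA
  have h3 := abs_le.1 (Na.Ap_re hA)
  rw [Na.ww_re0] at h3
  rw [Na.Sn_cos2]
  apply Na.snh_gen (by norm_num)
  have c1 : ((4785074604081664 : ℕ) : ℝ) = 4785074604081664 := by norm_num
  have c3 : ((536870912 : ℕ) : ℝ) = 536870912 := by norm_num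
  rw [c1, c3, div_mul_cancel₀ _ (by norm_num : (536870912 : ℝ) ≠ 0)]
  linarith

theorem shL_ok {x : ℕ} (h : x ≤ 262144) : ((shL x : ℕ) : ℝ) ≤ 1048576 * Hs (x / 1048576) := by
  unfold shL
  obtain ⟨a, b, e, hA⟩ := wst_sound (X := 0) (S := x) (D := 1048576) (by norm_num) (by norm_num)
    (by omega) (fun a _ => fN (fun w =>
      Nat.div (sqn (Nat.sub 281474976710656 w)) (Nat.mul w 1073741824))
      (Nat.sub (Nat.add a 512) 4503599627370496))
  rw [e, fN_eq]
  clear e
  have e2 : ((0 : ℕ) : ℝ) / ((1048576 : ℕ) : ℝ) = 0 := by norm_num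
  have e3 : ((1048576 : ℕ) : ℝ) = 1048576 := by norm_num
  rw [e2, e3] at hA
  have h3 := abs_le.1 (Na.Ap_re hA)
  rw [Na.ww_re1] at h3
  rw [Na.Hs_eq]
  have hE := Real.exp_pos (-(2 * Real.pi * (x / 1048576)))
  have hw : Real.exp (-(2 * Real.pi * (x / 1048576))) * 281474976710656 ≤
      ((Nat.sub (Nat.add a 512) 4503599627370496 : ℕ) : ℝ) := by
    refine le_trans ?_ (Na.nsub_ge _ _)
    have c1 : ((4503599627370496 : ℕ) : ℝ) = 4503599627370496 := by norm_num
    have c2 : ((512 : ℕ) : ℝ) = 512 := by norm_num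
    rw [Na.add_cast, c1, c2]
    linarith
  clear hA h3
  generalize Real.exp (-(2 * Real.pi * (x / 1048576))) = E at *
  generalize Nat.sub (Nat.add a 512) 4503599627370496 = w at hw ⊢
  have hW0 : 0 < E * 281474976710656 := by positivity
  have hw0 : (0 : ℝ) < w := by linarith
  have hw0' : 0 < w := by exact_mod_cast hw0
  apply Na.shl_gen hw0' (by norm_num)
  · positivity
  · intro h1
    have c1 : ((281474976710656 : ℕ) : ℝ) = 281474976710656 := by norm_num
    have c3 : ((1073741824 : ℕ) : ℝ) = 1073741824 := by norm_num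
    have h1' : (w : ℝ) ≤ 281474976710656 := by
      rw [← c1]
      exact Nat.cast_le.2 h1
    have h2 := Na.quo_mono hW0 hw h1'
    rw [div_le_iff₀ hw0] at h2
    rw [c1, c3]
    refine h2.trans (le_of_eq ?_)
    field_simp

theorem shH_ok {x : ℕ} (h : x ≤ 262144) : 1048576 * Hs (x / 1048576) ≤ (shH x : ℕ) := by
  unfold shH
  obtain ⟨a, b, e, hA⟩ := wst_sound (X := 0) (S := x) (D := 1048576) (by norm_num) (by norm_num)
    (by omega) (fun a _ => fN (fun w =>
      Nat.succ (Nat.div (sqn (Nat.sub 281474976710656 w)) (Nat.mul w 1073741824)))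
      (Nat.sub a 4503599627371008))
  rw [e, fN_eq]
  clear e
  have e2 : ((0 : ℕ) : ℝ) / ((1048576 : ℕ) : ℝ) = 0 := by norm_num
  have e3 : ((1048576 : ℕ) : ℝ) = 1048576 := by norm_num
  rw [e2, e3] at hA
  have h3 := abs_le.1 (Na.Ap_re hA)
  rw [Na.ww_re1] at h3
  rw [Na.Hs_eq]
  have hx : (x : ℝ) ≤ 262144 := by exact_mod_cast h
  have hx0 : (0 : ℝ) ≤ x := Nat.cast_nonneg _
  have hE := Real.exp_pos (-(2 * Real.pi * (x / 1048576)))
  have hE1 : Real.exp (-(2 * Real.pi * (x / 1048576))) ≤ 1 := by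
    rw [Real.exp_le_one_iff]
    have := Real.pi_pos
    have : 0 ≤ 2 * Real.pi * ((x : ℝ) / 1048576) := by positivity
    linarith
  have hE2 : 1 / 8 ≤ Real.exp (-(2 * Real.pi * (x / 1048576))) := by
    have h4 : 2 * Real.pi * ((x : ℝ) / 1048576) ≤ 2 := by
      have h5 : (x : ℝ) / 1048576 ≤ 1 / 4 := by
        rw [div_le_iff₀ (by norm_num)]
        linarith
      have := Real.pi_lt_d2
      have := Real.pi_pos
      nlinarith
    have h6 : Real.exp (-2) ≤ Real.exp (-(2 * Real.pi * (x / 1048576))) :=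
      Real.exp_le_exp.2 (by linarith)
    refine le_trans ?_ h6
    rw [Real.exp_neg, ← one_div]
    apply one_div_le_one_div_of_le (Real.exp_pos _)
    have h7 : Real.exp 2 = Real.exp 1 ^ 2 := by
      rw [← Real.exp_nat_mul]
      norm_num
    rw [h7]
    have := Real.exp_one_lt_d9
    have := Real.exp_pos 1
    nlinarith
  have hW1 : Real.exp (-(2 * Real.pi * (x / 1048576))) * 281474976710656 ≤ 281474976710656 := by
    linarith
  have hW2 : 1 / 8 * 281474976710656 ≤
      Real.exp (-(2 * Real.pi * (x / 1048576))) * 281474976710656 := by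
    linarith
  have c0 : ((4503599627371008 : ℕ) : ℝ) = 4503599627371008 := by norm_num
  have hwl : ((Nat.sub a 4503599627371008 : ℕ) : ℝ) ≤
      Real.exp (-(2 * Real.pi * (x / 1048576))) * 281474976710656 := by
    apply Na.nsub_le _ (by positivity)
    rw [c0]
    linarith
  have hwg : 0 < ((Nat.sub a 4503599627371008 : ℕ) : ℝ) := by
    refine lt_of_lt_of_le ?_ (Na.nsub_ge _ _)
    rw [c0]
    linarith
  clear hA h3
  generalize Real.exp (-(2 * Real.pi * (x / 1048576))) = E at *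
  generalize Nat.sub a 4503599627371008 = w at hwl hwg ⊢
  have hw0' : 0 < w := by exact_mod_cast hwg
  have c1 : ((281474976710656 : ℕ) : ℝ) = 281474976710656 := by norm_num
  have c3 : ((1073741824 : ℕ) : ℝ) = 1073741824 := by norm_num
  have hwU : w ≤ 281474976710656 := by
    have h1 : (w : ℝ) ≤ ((281474976710656 : ℕ) : ℝ) := by
      rw [c1]
      linarith
    exact Nat.cast_le.1 h1
  apply Na.shh_gen hw0' (by norm_num) hwU
  rw [c1, c3]
  have hW0 : 0 < E * 281474976710656 := by positivity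
  have h2 := Na.quo_mono hwg hwl hW1
  have h4 : (281474976710656 - E * 281474976710656) ^ 2 / (E * 281474976710656) * (w : ℝ) ≤
      (281474976710656 - (w : ℝ)) ^ 2 := by
    calc (281474976710656 - E * 281474976710656) ^ 2 / (E * 281474976710656) * (w : ℝ)
        ≤ (281474976710656 - (w : ℝ)) ^ 2 / w * (w : ℝ) :=
          mul_le_mul_of_nonneg_right h2 hwg.le
      _ = (281474976710656 - (w : ℝ)) ^ 2 := by field_simp
  refine le_trans (le_of_eq ?_) h4
  field_simp

end Pool.Agent.S5.Y3
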