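import Pool.Agent.S5.I.Y3T
import Pool.Agent.S5.I.Y3D

/-!
# The flats of a node with three half twists: values on the edges
-/

set_option autoImplicit false

namespace Pool.Agent.S5.Y3

open MeasureTheory Filter Topology Set Pool.Agent.S5.C2

/-! ### The primitive of a step function -/

/-- The primitive of the step function with the value `g k` on the cell `[k h, (k + 1) h]`. -/
noncomputable def St (h : ℝ) (m : ℕ) (g : ℕ → ℝ) (x : ℝ) : ℝ :=
  ∑ k ∈ Finset.range m, g k * max 0 (min (x - k * h) h)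

theorem St_zero {h : ℝ} (hh : 0 < h) (m : ℕ) (g : ℕ → ℝ) : St h m g 0 = 0 := by
  unfold St
  apply Finset.sum_eq_zero
  intro k _
  have h1 : min (0 - (k : ℝ) * h) h ≤ 0 := (min_le_left _ _).trans (by
    have : 0 ≤ (k : ℝ) * h := by positivity
    linarith)
  rw [max_eq_left h1, mul_zero]

theorem St_top {h x : ℝ} {m : ℕ} {g : ℕ → ℝ} (hh : 0 < h)
    (H : ∀ k < m, g k = 0 ∨ ((k : ℝ) + 1) * h ≤ x) :
    St h m g x = h * ∑ k ∈ Finset.range m, g k := by
  unfold St
  rw [Finset.mul_sum]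
  apply Finset.sum_congr rfl
  intro k hk
  rcases H k (Finset.mem_range.1 hk) with h1 | h1
  · rw [h1]
    ring
  · rw [min_eq_right (by linarith), max_eq_right hh.le]
    ring

theorem cell_le {h : ℝ} {m k : ℕ} (hh : 0 < h) (hk : k < m) : ((k : ℝ) + 1) * h ≤ m * h := by
  have : ((k : ℝ) + 1) ≤ m := by exact_mod_cast hk
  exact mul_le_mul_of_nonneg_right this hh.le

theorem St_top' {h x : ℝ} {m : ℕ} {g : ℕ → ℝ} (hh : 0 < h) (hx : m * h ≤ x) :
    St h m g x = h * ∑ k ∈ Finset.range m, g k :=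
  St_top hh (fun _ hk => Or.inr ((cell_le hh hk).trans hx))

theorem St_mono {h x y : ℝ} {m : ℕ} {g : ℕ → ℝ} (g0 : ∀ k < m, 0 ≤ g k) (hxy : x ≤ y) :
    St h m g x ≤ St h m g y := by
  unfold St
  apply Finset.sum_le_sum
  intro k hk
  apply mul_le_mul_of_nonneg_left _ (g0 k (Finset.mem_range.1 hk))
  exact max_le_max le_rfl (min_le_min (by linarith) le_rfl)

theorem St_sub (h x : ℝ) (m : ℕ) (g e : ℕ → ℝ) :
    St h m (fun k => g k - e k) x = St h m g x - St h m e x := by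
  unfold St
  rw [← Finset.sum_sub_distrib]
  apply Finset.sum_congr rfl
  intro k _
  ring

theorem St_neg (h x : ℝ) (m : ℕ) (g : ℕ → ℝ) : St h m (fun k => -g k) x = -St h m g x := by
  unfold St
  rw [← Finset.sum_neg_distrib]
  apply Finset.sum_congr rfl
  intro k _
  ring

/-- A lower bound of an integral by cells. -/
theorem St_piece {f : ℝ → ℝ} {h : ℝ} {g : ℕ → ℝ} (hh : 0 < h)
    (hf : ∀ a b, IntervalIntegrable f volume a b) :
    ∀ (m : ℕ) (a b : ℝ), 0 ≤ a → a ≤ b → b ≤ m * h →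
    (∀ k < m, ∀ t, k * h < t → t < (k + 1) * h → a < t → t < b → g k ≤ f t) →
    St h m g b - St h m g a ≤ ∫ t in a..b, f t := by
  intro m
  induction m with
  | zero =>
    intro a b ha hab hb _
    have : a = b := by
      push_cast at hb
      linarith
    subst this
    simp
  | succ m ih =>
    intro a b ha hab hb H
    push_cast at hb
    have e : ∀ x, St h (m + 1) g x = St h m g x + g m * max 0 (min (x - m * h) h) := fun x => by
      unfold St
      rw [Finset.sum_range_succ]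
    have bot : ∀ c d : ℝ, 0 ≤ c → c ≤ d → d ≤ m * h →
        (∀ k < m, ∀ t, k * h < t → t < (k + 1) * h → c < t → t < d → g k ≤ f t) →
        St h (m + 1) g d - St h (m + 1) g c ≤ ∫ t in c..d, f t := by
      intro c d hc hcd hd H'
      have e2 : ∀ x, x ≤ m * h → max 0 (min (x - m * h) h) = 0 := fun x hx =>
        max_eq_left ((min_le_left _ _).trans (by linarith))
      rw [e, e, e2 d hd, e2 c (hcd.trans hd)]
      have := ih c d hc hcd hd H'
      linarith
    have top : ∀ c d : ℝ, m * h ≤ c → c ≤ d → d ≤ (m + 1) * h → (∀ t, c < t → t < d → g m ≤ f t) →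
        St h (m + 1) g d - St h (m + 1) g c ≤ ∫ t in c..d, f t := by
      intro c d hc hcd hd H'
      have e2 : ∀ x, m * h ≤ x → x ≤ (m + 1) * h → max 0 (min (x - m * h) h) = x - m * h :=
        fun x hx hx' => by
          rw [min_eq_left (by linarith), max_eq_right (by linarith)]
      rw [e, e, e2 d (hc.trans hcd) hd, e2 c hc (hcd.trans hd), St_top' hh (hc.trans hcd),
        St_top' hh hc]
      have k : ∫ _t in c..d, g m ≤ ∫ t in c..d, f t :=
        intervalIntegral.integral_mono_on_of_le_Ioo hcd (by simp) (hf _ _)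
          (fun t ht => H' t ht.1 ht.2)
      rw [intervalIntegral.integral_const, smul_eq_mul] at k
      linarith
    have Hm : ∀ k < m, ∀ c d t : ℝ, a ≤ c → d ≤ b → k * h < t → t < (k + 1) * h → c < t → t < d →
        g k ≤ f t := fun k hk c d t h1 h2 h3 h4 h5 h6 =>
      H k (by omega) t h3 h4 (by linarith) (by linarith)
    rcases le_total b (m * h) with h1 | h1
    · exact bot a b ha hab h1 (fun k hk t => Hm k hk a b t le_rfl le_rfl)
    · rcases le_total (m * h) a with h2 | h2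
      · exact top a b h2 hab hb (fun t h3 h4 => H m (by omega) t (by linarith) (by linarith) h3 h4)
      · have k1 := bot a (m * h) ha h2 le_rfl (fun k hk t => Hm k hk a (m * h) t le_rfl h1)
        have k2 := top (m * h) b le_rfl h1 hb
          (fun t h3 h4 => H m (by omega) t h3 (by linarith) (by linarith) h4)
        have k3 := intervalIntegral.integral_add_adjacent_intervals (hf a (m * h)) (hf (m * h) b)
        linarith

/-- An upper bound of an integral by cells. -/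
theorem St_piece' {f : ℝ → ℝ} {h : ℝ} {g : ℕ → ℝ} (hh : 0 < h)
    (hf : ∀ a b, IntervalIntegrable f volume a b) (m : ℕ) (a b : ℝ) (ha : 0 ≤ a) (hab : a ≤ b)
    (hb : b ≤ m * h)
    (H : ∀ k < m, ∀ t, k * h < t → t < (k + 1) * h → a < t → t < b → f t ≤ g k) :
    ∫ t in a..b, f t ≤ St h m g b - St h m g a := by
  have k := St_piece (f := fun t => -f t) (g := fun k => -g k) hh (fun a b => (hf a b).neg) m a b ha
    hab hb (fun k hk t h1 h2 h3 h4 => neg_le_neg (H k hk t h1 h2 h3 h4))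
  rw [intervalIntegral.integral_neg, St_neg, St_neg] at k
  linarith

/-! ### The three parts -/

/-- `∫ Lq` shifted. -/
theorem Dq_shift {s : ℝ} (hs : 0 ≤ s) (x0 a b c : ℝ) : Dq s x0 (b + c) - Dq s x0 (a + c) =
    ∫ t in a..b, (Lq s (t + c) - Lq s x0) := by
  rw [Dq_sub hs, ← intervalIntegral.integral_comp_add_right (fun t => Lq s t - Lq s x0)]

theorem Dq_mirror {s : ℝ} (hs : 0 ≤ s) (x0 a b : ℝ) : Dq s x0 (1 / 2 - a) - Dq s x0 (1 / 2 - b) =
    ∫ t in a..b, (Lq s (1 / 2 - t) - Lq s x0) := by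
  rw [Dq_sub hs, ← intervalIntegral.integral_comp_sub_left (fun t => Lq s t - Lq s x0)]

theorem int_shift {s : ℝ} (hs : 0 ≤ s) (x0 c a b : ℝ) :
    IntervalIntegrable (fun t => Lq s (t + c) - Lq s x0) volume a b :=
  (Lq_shift_int hs _ _ _).sub (by simp)

theorem int_mirror {s : ℝ} (hs : 0 ≤ s) (x0 a b : ℝ) :
    IntervalIntegrable (fun t => Lq s x0 - Lq s (1 / 2 - t)) volume a b := by
  have h := (Lq_int hs (1 / 2 - a) (1 / 2 - b)).comp_sub_left (1 / 2)
  have e1 : (1 / 2 : ℝ) - (1 / 2 - a) = a := by ring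
  have e2 : (1 / 2 : ℝ) - (1 / 2 - b) = b := by ring
  rw [e1, e2] at h
  exact (by simp : IntervalIntegrable (fun _ => Lq s x0) volume a b).sub h

/-- The part of the edge `y`. -/
theorem n_part {n m : ℕ} {s p0 h x : ℝ} {g : ℕ → ℝ} (hs : 0 ≤ s) (hp1 : p0 < 1 / 2) (hh : 0 < h)
    (hm : m * h ≤ p0) (g1 : ∀ k < m, g k ≤ n * (Lq s p0 - Lq s ((k + 1) * h))) (hx : 0 ≤ x)
    (hx' : x ≤ m * h) : h * (∑ k ∈ Finset.range m, g k) - St h m g x ≤ n * Dq s p0 x := by
  have hf : ∀ a b, IntervalIntegrable (fun t => (n : ℝ) * (Lq s p0 - Lq s t)) volume a b :=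
    fun a b => ((by simp : IntervalIntegrable (fun _ => Lq s p0) volume a b).sub
      (Lq_int hs _ _)).const_mul _
  have hn : (0 : ℝ) ≤ n := by positivity
  have k1 := St_piece (g := g) hh hf m x (m * h) hx hx' le_rfl (by
    intro k hk t h1 h2 h3 h4
    refine (g1 k hk).trans (mul_le_mul_of_nonneg_left ?_ hn)
    have h5 := cell_le (h := h) hh hk
    have h6 : 0 < Sn t := Sn_pos (by linarith) (by linarith)
    have := Lq_mono_t hs (by linarith) (Sn_mono (t := t) (t' := (k + 1) * h) (by linarith) h2.le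
      (by linarith))
    linarith)
  have k2 : 0 ≤ ∫ t in (m * h)..p0, (n : ℝ) * (Lq s p0 - Lq s t) := by
    rcases hm.eq_or_lt with h0 | h0
    · rw [h0, intervalIntegral.integral_same]
    have k3 : ∫ _t in (m * h)..p0, (0 : ℝ) ≤ ∫ t in (m * h)..p0, (n : ℝ) * (Lq s p0 - Lq s t) := by
      apply intervalIntegral.integral_mono_on_of_le_Ioo hm (by simp) (hf _ _)
      intro t ht
      apply mul_nonneg hn
      have h6 : 0 < Sn t := Sn_pos (by linarith [ht.1]) (by linarith [ht.2])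
      have := Lq_mono_t hs (by linarith) (Sn_mono (t := t) (t' := p0) (by linarith [ht.1]) ht.2.le
        hp1.le)
      linarith
    rwa [intervalIntegral.integral_zero] at k3
  have k3 := intervalIntegral.integral_add_adjacent_intervals (hf x (m * h)) (hf (m * h) p0)
  rw [St_top' hh le_rfl] at k1
  rw [Dq_int_left, ← intervalIntegral.integral_const_mul]
  linarith

/-- The part of the third angle. -/
theorem e_part {m : ℕ} {s P0 h x e3 : ℝ} {e : ℕ → ℝ} (hs : 0 ≤ s) (hP1 : P0 < 9 / 10) (hh : 0 < h)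
    (hm : m * h ≤ 1 / 2)
    (e1 : ∀ k < m, e k = 0 ∨ ((k + 1) * h ≤ P0 - 1 / 2 ∧
      ∀ t ∈ Icc (k * h) ((k + 1) * h), e k ≤ Lq s (1 / 2 + t) - Lq s P0))
    (hx : 0 ≤ x) (hx' : x ≤ m * h) (he3 : Dq s P0 (x + 1 / 2) ≤ e3) (he3' : 0 ≤ e3) :
    h * (∑ k ∈ Finset.range m, e k) - St h m e x - e3 ≤ -Dq s P0 (x + 1 / 2) := by
  rcases lt_or_ge P0 (1 / 2) with h0 | h0
  · have hz : ∀ k < m, e k = 0 := fun k hk => by
      rcases e1 k hk with h1 | ⟨h1, -⟩
      · exact h1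
      · exfalso
        have : 0 ≤ ((k : ℝ) + 1) * h := by positivity
        linarith
    have z1 : St h m e x = 0 := by
      unfold St
      apply Finset.sum_eq_zero
      intro k hk
      rw [hz k (Finset.mem_range.1 hk), zero_mul]
    have z2 : ∑ k ∈ Finset.range m, e k = 0 :=
      Finset.sum_eq_zero (fun k hk => hz k (Finset.mem_range.1 hk))
    rw [z1, z2]
    linarith
  rcases le_total x (P0 - 1 / 2) with h1 | h1
  · have hf := fun a b => int_shift (s := s) (a := a) (b := b) hs P0 (1 / 2)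
    have e2 : -Dq s P0 (x + 1 / 2) = ∫ t in x..(P0 - 1 / 2), (Lq s (t + 1 / 2) - Lq s P0) := by
      rw [← Dq_shift hs, sub_add_cancel, Dq_self]
      ring
    set c := min (P0 - 1 / 2) (m * h) with hc
    have c1 : c ≤ P0 - 1 / 2 := min_le_left _ _
    have c2 : c ≤ m * h := min_le_right _ _
    have c3 : x ≤ c := le_min h1 hx'
    have hpos : ∀ t, 0 ≤ t → t ≤ P0 - 1 / 2 → 0 ≤ Lq s (t + 1 / 2) - Lq s P0 := fun t h3 h4 => by
      have h6 : 0 < Sn P0 := Sn_pos (by linarith) (by linarith)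
      have := Lq_mono_t hs (by linarith) (Sn_anti (t := t + 1 / 2) (t' := P0) (by linarith)
        (by linarith) (by linarith))
      linarith
    have k1 := St_piece (g := e) hh hf m x c hx c3 c2 (by
      intro k hk t h2 h3 h4 h5
      rcases e1 k hk with h6 | ⟨-, h6⟩
      · rw [h6]
        exact hpos t (by linarith) (by linarith)
      · have := h6 t ⟨h2.le, h3.le⟩
        rwa [add_comm (1 / 2) t] at this)
    have k2 : 0 ≤ ∫ t in c..(P0 - 1 / 2), (Lq s (t + 1 / 2) - Lq s P0) :=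
      intervalIntegral.integral_nonneg c1 (fun t ht => hpos t (by linarith [ht.1]) ht.2)
    have k3 := intervalIntegral.integral_add_adjacent_intervals (hf x c) (hf c (P0 - 1 / 2))
    have k4 : St h m e c = h * ∑ k ∈ Finset.range m, e k := St_top hh (fun k hk => by
      rcases e1 k hk with h6 | ⟨h6, -⟩
      · exact Or.inl h6
      · exact Or.inr (le_min h6 (cell_le hh hk)))
    rw [e2]
    linarith
  · have k4 : St h m e x = h * ∑ k ∈ Finset.range m, e k := St_top hh (fun k hk => by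
      rcases e1 k hk with h6 | ⟨h6, -⟩
      · exact Or.inl h6
      · exact Or.inr (h6.trans h1))
    have k5 := D5_zone1 (s := s) (u0 := P0 - 1 / 2) (u := x) hs (by linarith) (by linarith)
      (by linarith) (by linarith)
    rw [show 1 / 2 + (P0 - 1 / 2) = P0 by ring, add_comm (1 / 2) x] at k5
    rw [k4]
    linarith

/-- The part of the edge `z` on the right. -/
theorem w_part {mw : ℕ} {s4 s3 q0 P0 hw e4 q : ℝ} {w : ℕ → ℝ} (hs4 : 0 ≤ s4) (hs3 : 0 ≤ s3)
    (hhw : 0 < hw) (hmw : hw * mw = 2 / 5) (w0 : ∀ k < mw, 0 ≤ w k)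
    (w1 : ∀ k < mw, ∀ t ∈ Icc (k * hw) ((k + 1) * hw),
      (Lq s3 (1 / 2 + t) - Lq s3 P0) - (Lq s4 (1 / 2 + t) - Lq s4 q0) ≤ w k)
    (he4 : -e4 ≤ Dq s4 q0 (1 / 2)) (hq : 1 / 2 ≤ q) (hq' : q ≤ 9 / 10) :
    -e4 - hw * (∑ k ∈ Finset.range mw, w k) ≤
      Dq s4 q0 q - (Dq s3 P0 q - Dq s3 P0 (1 / 2)) := by
  have f4 := fun a b => int_shift (s := s4) (a := a) (b := b) hs4 q0 (1 / 2)
  have f3 := fun a b => int_shift (s := s3) (a := a) (b := b) hs3 P0 (1 / 2)
  have k1 := St_piece' (g := w) hhw (fun a b => (f3 a b).sub (f4 a b)) mw 0 (q - 1 / 2) le_rfl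
    (by linarith) (by linarith) (by
      intro k hk t h1 h2 _ _
      have := w1 k hk t ⟨h1.le, h2.le⟩
      rwa [add_comm (1 / 2) t] at this)
  rw [intervalIntegral.integral_sub (f3 _ _) (f4 _ _), ← Dq_shift hs3, ← Dq_shift hs4,
    sub_add_cancel, zero_add, St_zero hhw] at k1
  have k2 := St_mono (h := hw) w0 (show q - 1 / 2 ≤ mw * hw by linarith)
  rw [St_top' hhw le_rfl] at k2
  linarith

/-- The sum of the first and the third part. -/
theorem ne_part {n m : ℕ} {s1 s4 s3 p0 q0 h x e3 : ℝ} {g e : ℕ → ℝ} (hB : Bp s1 s4 s3 p0 q0)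
    (hh : 0 < h) (hm : m * h ≤ p0)
    (e1 : ∀ k < m, e k = 0 ∨ ((k + 1) * h ≤ p0 + q0 - 1 / 2 ∧
      ∀ t ∈ Icc (k * h) ((k + 1) * h), e k ≤ Lq s3 (1 / 2 + t) - Lq s3 (p0 + q0)))
    (g1 : ∀ k < m, g k ≤ n * (Lq s1 p0 - Lq s1 ((k + 1) * h)) + e k)
    (hx : 0 ≤ x) (hx' : x ≤ m * h) (he3 : Dq s3 (p0 + q0) (x + 1 / 2) ≤ e3) (he3' : 0 ≤ e3) :
    h * (∑ k ∈ Finset.range m, g k) - St h m g x - e3 ≤
      n * Dq s1 p0 x - Dq s3 (p0 + q0) (x + 1 / 2) := by
  have hp1 := hB.hp1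
  have k1 := n_part (n := n) (m := m) (g := fun k => g k - e k) hB.h1 hp1 hh hm
    (fun k hk => by linarith [g1 k hk]) hx hx'
  have k2 := e_part hB.h3 hB.hP1 hh (by linarith) e1 hx hx' he3 he3'
  rw [St_sub, Finset.sum_sub_distrib] at k1
  linarith

/-- The line `q = 9 / 10`, `p ≤ 1 / 5`, and the edge `p = 0`, `q ≥ 1 / 2`: only what is needed. -/
theorem VJ' {n : ℕ} {s1 s4 s3 p0 q0 : ℝ} (hB : Bp s1 s4 s3 p0 q0) {h hw e3 e4 : ℝ} {m mw : ℕ}
    {g w e : ℕ → ℝ} (hh : 0 < h) (hm : m * h ≤ p0) (hhw : 0 < hw) (hmw : hw * mw = 2 / 5)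
    (e1 : ∀ k < m, e k = 0 ∨ ((k + 1) * h ≤ p0 + q0 - 1 / 2 ∧
      ∀ t ∈ Icc (k * h) ((k + 1) * h), e k ≤ Lq s3 (1 / 2 + t) - Lq s3 (p0 + q0)))
    (g1 : ∀ k < m, g k ≤ n * (Lq s1 p0 - Lq s1 ((k + 1) * h)) + e k)
    (g2 : ∀ k < m, ∀ t, k * h < t → t < (k + 1) * h → t < 1 / 5 →
      g k ≤ Lq s3 (t + 1 / 2) - Lq s3 (t + 9 / 10))
    (w0 : ∀ k < mw, 0 ≤ w k)
    (w1 : ∀ k < mw, ∀ t ∈ Icc (k * hw) ((k + 1) * hw),
      (Lq s3 (1 / 2 + t) - Lq s3 (p0 + q0)) - (Lq s4 (1 / 2 + t) - Lq s4 q0) ≤ w k)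
    (he3 : ∀ p, 0 ≤ p → p ≤ 1 / 5 → Dq s3 (p0 + q0) (p + 1 / 2) ≤ e3) (he3' : 0 ≤ e3)
    (he4 : -e4 ≤ Dq s4 q0 (1 / 2)) :
    (∀ p, 0 ≤ p → p ≤ 1 / 5 → h * (∑ k ∈ Finset.range m, g k) -
      hw * (∑ k ∈ Finset.range mw, w k) - e3 - e4 ≤ VV n s1 s4 s3 p0 q0 p (9 / 10)) ∧
    (∀ q, 1 / 2 ≤ q → q ≤ 9 / 10 → h * (∑ k ∈ Finset.range m, g k) -
      hw * (∑ k ∈ Finset.range mw, w k) - e3 - e4 ≤ VV n s1 s4 s3 p0 q0 0 q) := by
  have hp0 := hB.hp0
  have hp1 := hB.hp1
  have hm0 : (0 : ℝ) ≤ m * h := by positivity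
  constructor
  · intro p hp hp'
    have k1 := w_part hB.h4 hB.h3 hhw hmw w0 w1 he4 (q := 9 / 10) (by norm_num) le_rfl
    -- the integral of `A`
    have f1 := fun a b => int_shift (s := s3) (a := a) (b := b) hB.h3 (p0 + q0) (1 / 2)
    have f9 := fun a b => int_shift (s := s3) (a := a) (b := b) hB.h3 (p0 + q0) (9 / 10)
    have fA : ∀ a b, IntervalIntegrable (fun t => (Lq s3 (t + 1 / 2) - Lq s3 (p0 + q0)) -
      (Lq s3 (t + 9 / 10) - Lq s3 (p0 + q0))) volume a b := fun a b => (f1 a b).sub (f9 a b)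
    have eA : ∫ t in (0 : ℝ)..p, ((Lq s3 (t + 1 / 2) - Lq s3 (p0 + q0)) -
        (Lq s3 (t + 9 / 10) - Lq s3 (p0 + q0))) =
        (Dq s3 (p0 + q0) (p + 1 / 2) - Dq s3 (p0 + q0) (1 / 2)) -
        (Dq s3 (p0 + q0) (p + 9 / 10) - Dq s3 (p0 + q0) (9 / 10)) := by
      rw [intervalIntegral.integral_sub (f1 _ _) (f9 _ _), ← Dq_shift hB.h3, ← Dq_shift hB.h3,
        zero_add, zero_add]
    have key : h * (∑ k ∈ Finset.range m, g k) - e3 ≤ n * Dq s1 p0 p -
        Dq s3 (p0 + q0) (p + 1 / 2) + ∫ t in (0 : ℝ)..p, ((Lq s3 (t + 1 / 2) - Lq s3 (p0 + q0)) -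
        (Lq s3 (t + 9 / 10) - Lq s3 (p0 + q0))) := by
      have hg : ∀ b ≤ (1 / 5 : ℝ), ∀ k < m, ∀ t, k * h < t → t < (k + 1) * h → (0 : ℝ) < t →
          t < b → g k ≤ (Lq s3 (t + 1 / 2) - Lq s3 (p0 + q0)) -
            (Lq s3 (t + 9 / 10) - Lq s3 (p0 + q0)) := fun b hb k hk t h1 h2 _ h4 => by
        have := g2 k hk t h1 h2 (by linarith)
        linarith
      rcases le_total p (m * h) with h1 | h1
      · have k2 := ne_part (n := n) hB hh hm e1 g1 hp h1 (he3 p hp hp') he3'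
        have k3 := St_piece (g := g) hh fA m 0 p le_rfl hp h1 (hg p hp')
        rw [St_zero hh] at k3
        linarith
      · have k3 := St_piece (g := g) hh fA m 0 (m * h) le_rfl hm0 le_rfl (hg (m * h) (h1.trans hp'))
        rw [St_zero hh, St_top' hh le_rfl] at k3
        have k4 := intervalIntegral.integral_add_adjacent_intervals (fA 0 (m * h)) (fA (m * h) p)
        have k5 : 0 ≤ ∫ t in (m * h)..p, ((Lq s3 (t + 1 / 2) - Lq s3 (p0 + q0)) -
            (Lq s3 (t + 9 / 10) - Lq s3 (p0 + q0))) := by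
          have k6 : ∫ _t in (m * h)..p, (0 : ℝ) ≤ ∫ t in (m * h)..p, ((Lq s3 (t + 1 / 2) -
              Lq s3 (p0 + q0)) - (Lq s3 (t + 9 / 10) - Lq s3 (p0 + q0))) := by
            apply intervalIntegral.integral_mono_ae_restrict h1 (by simp) (fA _ _)
            filter_upwards [ae_restrict_mem measurableSet_Icc,
              ae_restrict_of_ae (Measure.ae_ne volume (1 / 10 : ℝ))] with t ht h9
            have h2 : 0 ≤ t := hm0.trans ht.1
            have h3 : t ≤ 1 / 5 := ht.2.trans hp'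
            have h4 : 0 < Sn (t + 9 / 10) := by
              rw [← Sn_sub_one]
              rcases lt_or_gt_of_ne h9 with h5 | h5
              · rw [Sn_sub_one]
                exact Sn_pos (by linarith) (by linarith)
              · exact Sn_pos (by linarith) (by linarith)
            have h5 : Sn (t + 9 / 10) ≤ Sn (1 / 10) := by
              rcases le_total t (1 / 10) with h5 | h5
              · rw [← Sn_one_sub (t + 9 / 10)]
                exact Sn_mono (by linarith) (by linarith) (by norm_num)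
              · rw [← Sn_sub_one]
                exact Sn_mono (by linarith) (by linarith) (by norm_num)
            have h6 : Sn (1 / 10) ≤ Sn (t + 1 / 2) := by
              rw [← Sn_one_sub (t + 1 / 2)]
              exact Sn_mono (by norm_num) (by linarith) (by linarith)
            have := Lq_mono_t hB.h3 (by linarith [hB.h3]) (h5.trans h6)
            linarith
          rwa [intervalIntegral.integral_zero] at k6
        have k6 := mul_nonneg (Nat.cast_nonneg (α := ℝ) n)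
          (Dq_nonneg' (x := p) hB.h1 hp0 hp1.le hp (by linarith))
        have k7 := he3 p hp hp'
        linarith
    unfold VV
    linarith
  · intro q hq hq'
    have k1 := w_part hB.h4 hB.h3 hhw hmw w0 w1 he4 hq hq'
    have k2 := ne_part (n := n) hB hh hm e1 g1 le_rfl hm0 (he3 0 le_rfl (by norm_num)) he3'
    rw [St_zero hh, zero_add] at k2
    unfold VV
    rw [zero_add]
    linarith

/-- The line `q = 9 / 10`, `p ≤ 1 / 5`, and the edge `p = 0`, `q ≥ 1 / 2`. -/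
theorem VJ {n : ℕ} {s1 s4 s3 p0 q0 : ℝ} (hB : Bp s1 s4 s3 p0 q0) {h hw e3 e4 : ℝ} {m mw : ℕ}
    {g w e : ℕ → ℝ} (hh : 0 < h) (hm : m * h ≤ p0) (hhw : 0 < hw) (hmw : hw * mw = 2 / 5)
    (_e0 : ∀ k < m, 0 ≤ e k)
    (e1 : ∀ k < m, e k = 0 ∨ ((k + 1) * h ≤ p0 + q0 - 1 / 2 ∧
      ∀ t ∈ Icc (k * h) ((k + 1) * h), e k ≤ Lq s3 (1 / 2 + t) - Lq s3 (p0 + q0)))
    (_g0 : ∀ k < m, 0 ≤ g k) (g1 : ∀ k < m, g k ≤ n * (Lq s1 p0 - Lq s1 ((k + 1) * h)) + e k)
    (g2 : ∀ k < m, ∀ t ∈ Icc (k * h) ((k + 1) * h), g k ≤ Lq s3 (t + 1 / 2) - Lq s3 (t + 9 / 10))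
    (w0 : ∀ k < mw, 0 ≤ w k)
    (w1 : ∀ k < mw, ∀ t ∈ Icc (k * hw) ((k + 1) * hw),
      (Lq s3 (1 / 2 + t) - Lq s3 (p0 + q0)) - (Lq s4 (1 / 2 + t) - Lq s4 q0) ≤ w k)
    (he3 : ∀ p, 0 ≤ p → p ≤ 1 / 5 → Dq s3 (p0 + q0) (p + 1 / 2) ≤ e3) (he3' : 0 ≤ e3)
    (_hee : e3 = 0 ∨ ∀ k < m, e k = 0) (he4 : -e4 ≤ Dq s4 q0 (1 / 2)) :
    (∀ p, 0 ≤ p → p ≤ 1 / 5 → h * (∑ k ∈ Finset.range m, g k) -
      hw * (∑ k ∈ Finset.range mw, w k) - e3 - e4 ≤ VV n s1 s4 s3 p0 q0 p (9 / 10)) ∧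
    (∀ q, 1 / 2 ≤ q → q ≤ 9 / 10 → h * (∑ k ∈ Finset.range m, g k) -
      hw * (∑ k ∈ Finset.range mw, w k) - e3 - e4 ≤ VV n s1 s4 s3 p0 q0 0 q) :=
  VJ' hB hh hm hhw hmw e1 g1 (fun k hk t h1 h2 _ => g2 k hk t ⟨h1.le, h2.le⟩) w0 w1 he3 he3' he4

/-! ### The slacks -/

theorem Lq_half_sub {s x : ℝ} : Lq s (1 / 2) - Lq s x =
    (Real.log (4 * (1 + s)) - Real.log (4 * (Sn x + s))) / 2 := by
  rw [Lq_eq, Lq_eq, Sn_half]
  ring

theorem log_four {a b : ℝ} (ha : 0 < a) (hb : 0 < b) :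
    Real.log (4 * a) - Real.log (4 * b) = Real.log a - Real.log b := by
  rw [Real.log_mul (by norm_num) ha.ne', Real.log_mul (by norm_num) hb.ne']
  ring

theorem top_sub {s x : ℝ} (hs : 0 ≤ s) (hx : 0 < x) (hx1 : x < 1) : Lq s (1 / 2) - Lq s x =
    (Real.log (1 + s) - Real.log (Sn x + s)) / 2 := by
  have := Sn_pos hx hx1
  rw [Lq_half_sub, log_four (by linarith) (by linarith)]

theorem top_nonneg {s x : ℝ} (hs : 0 ≤ s) (hx : 0 < x) (hx1 : x < 1) :
    0 ≤ Real.log (1 + s) - Real.log (Sn x + s) := by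
  have := Sn_pos hx hx1
  have := Real.log_le_log (show 0 < Sn x + s by linarith) (show Sn x + s ≤ 1 + s by
    linarith [Sn_le_one x])
  linarith

/-- A rough bound of the integral. -/
theorem Dq_rough {s x0 a b : ℝ} (hs : 0 ≤ s) (ha : 0 < a) (hab : a ≤ b) (hb : b < 1)
    (h0 : 0 < x0) (h1 : x0 < 1) : Dq s x0 b - Dq s x0 a ≤
      (b - a) / 2 * (Real.log (1 + s) - Real.log (Sn x0 + s)) := by
  rw [Dq_sub hs]
  have k : ∫ t in a..b, (Lq s t - Lq s x0) ≤ ∫ _t in a..b, (Lq s (1 / 2) - Lq s x0) := by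
    apply intervalIntegral.integral_mono_on hab ((Lq_int hs _ _).sub (by simp)) (by simp)
    intro t ht
    have h2 : 0 < Sn t := Sn_pos (by linarith [ht.1]) (by linarith [ht.2])
    have := Lq_mono_t (t := t) (t' := 1 / 2) hs (by linarith) (by
      rw [Sn_half]
      exact Sn_le_one t)
    linarith
  rw [intervalIntegral.integral_const, smul_eq_mul, top_sub hs h0 h1] at k
  linarith

/-- The slack `e3`. -/
theorem slack3 {s3 P0 d : ℝ} (hs : 0 ≤ s3) (h0 : 2 / 5 < P0) (h1 : P0 < 9 / 10) (hd : 0 ≤ d)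
    (h2 : 1 / 2 - d ≤ P0) :
    ∀ p, 0 ≤ p → p ≤ 1 / 5 →
      Dq s3 P0 (p + 1 / 2) ≤ d * (Real.log (1 + s3) - Real.log (Sn P0 + s3)) := by
  intro p hp hp'
  have hL := top_nonneg (s := s3) (x := P0) hs (by linarith) (by linarith)
  rcases le_total (1 / 2) P0 with h | h
  · have k5 := D5_zone1 (s := s3) (u0 := P0 - 1 / 2) (u := p) hs (by linarith) (by linarith)
      (by linarith) (by linarith)
    rw [show 1 / 2 + (P0 - 1 / 2) = P0 by ring, add_comm (1 / 2) p] at k5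
    have := mul_nonneg hd hL
    linarith
  · have key : ∀ x, P0 ≤ x → x ≤ 1 - P0 →
        Dq s3 P0 x ≤ d * (Real.log (1 + s3) - Real.log (Sn P0 + s3)) := by
      intro x hx hx'
      have k := Dq_rough (s := s3) (x0 := P0) hs (by linarith) hx (by linarith) (by linarith)
        (by linarith)
      rw [Dq_self] at k
      have : (x - P0) / 2 * (Real.log (1 + s3) - Real.log (Sn P0 + s3)) ≤
          d * (Real.log (1 + s3) - Real.log (Sn P0 + s3)) :=
        mul_le_mul_of_nonneg_right (by linarith) hL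
      linarith
    rcases le_total (p + 1 / 2) (1 - P0) with h3 | h3
    · exact key _ (by linarith) h3
    · have k1 := key (1 - P0) (by linarith) le_rfl
      have k2 := Dq_sub hs P0 (1 - P0) (p + 1 / 2)
      have k3 : ∫ t in (1 - P0)..(p + 1 / 2), (Lq s3 t - Lq s3 P0) ≤
          ∫ _t in (1 - P0)..(p + 1 / 2), (0 : ℝ) := by
        apply intervalIntegral.integral_mono_on h3 ((Lq_int hs _ _).sub (by simp)) (by simp)
        intro t ht
        have h4 : 0 < Sn t := Sn_pos (by linarith [ht.1]) (by linarith [ht.2])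
        have h5 : Sn t ≤ Sn (1 - P0) := Sn_anti (by linarith) ht.1 (by linarith [ht.2])
        rw [Sn_one_sub] at h5
        have := Lq_mono_t hs (by linarith) h5
        linarith
      rw [intervalIntegral.integral_zero] at k3
      linarith

/-- The slack `e4`. -/
theorem slack4 {s4 q0 d : ℝ} (hs : 0 ≤ s4) (h0 : 1 / 10 < q0) (h1 : q0 < 9 / 10) (hd : 0 ≤ d)
    (h2 : q0 ≤ 1 / 2 + d) :
    -(d / 2 * (Real.log (1 + s4) - Real.log (Sn q0 + s4))) ≤ Dq s4 q0 (1 / 2) := by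
  have hL := top_nonneg (s := s4) (x := q0) hs (by linarith) (by linarith)
  rcases le_total q0 (1 / 2) with h | h
  · have k1 := Dq_nonneg' (x := 1 / 2) hs (by linarith) h (by norm_num) le_rfl
    have := mul_nonneg (half_pos (by norm_num : (0 : ℝ) < 1)).le (mul_nonneg hd hL)
    linarith
  · have k := Dq_rough (s := s4) (x0 := q0) (a := 1 / 2) (b := q0) hs (by norm_num) h (by linarith)
      (by linarith) (by linarith)
    rw [Dq_self] at k
    have : (q0 - 1 / 2) / 2 * (Real.log (1 + s4) - Real.log (Sn q0 + s4)) ≤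
        d / 2 * (Real.log (1 + s4) - Real.log (Sn q0 + s4)) :=
      mul_le_mul_of_nonneg_right (by linarith) hL
    linarith

/-- The slack `e3` of `VL`. -/
theorem slack3' {s3 P0 d : ℝ} (hs : 0 ≤ s3) (h0 : 2 / 5 < P0) (h1 : P0 < 9 / 10) (hd : 0 ≤ d)
    (h2 : 1 / 2 - d ≤ P0) :
    ∀ t, 0 ≤ t → t ≤ |P0 - 1 / 2| →
      Dq s3 P0 (1 / 2 - t) ≤ d / 2 * (Real.log (1 + s3) - Real.log (Sn P0 + s3)) := by
  intro t ht ht'
  have hL := top_nonneg (s := s3) (x := P0) hs (by linarith) (by linarith)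
  rcases le_total (1 / 2) P0 with h | h
  · rw [abs_of_nonneg (by linarith)] at ht'
    have k5 := D5_zone1 (s := s3) (u0 := P0 - 1 / 2) (u := -t) hs (by linarith) (by linarith)
      (by linarith) (by linarith)
    rw [show 1 / 2 + (P0 - 1 / 2) = P0 by ring, ← sub_eq_add_neg] at k5
    have := mul_nonneg hd hL
    linarith
  · rw [abs_of_nonpos (by linarith)] at ht'
    have k := Dq_rough (s := s3) (x0 := P0) (a := P0) (b := 1 / 2 - t) hs (by linarith)
      (by linarith) (by linarith) (by linarith) (by linarith)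
    rw [Dq_self] at k
    have : (1 / 2 - t - P0) / 2 * (Real.log (1 + s3) - Real.log (Sn P0 + s3)) ≤
        d / 2 * (Real.log (1 + s3) - Real.log (Sn P0 + s3)) :=
      mul_le_mul_of_nonneg_right (by linarith) hL
    linarith

/-! ### The edge `p = 0`, `q ≤ 1 / 2` -/

theorem Dq_twice {s : ℝ} (hs : 0 ≤ s) (x0 : ℝ) : Dq s x0 (1 - x0) = 2 * Dq s x0 (1 / 2) := by
  have k1 := Dq_sub hs x0 (1 / 2) (1 - x0)
  have k2 := Dq_sub hs x0 x0 (1 / 2)
  have k3 : ∫ t in (1 / 2 : ℝ)..(1 - x0), (Lq s t - Lq s x0) =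
      ∫ t in x0..(1 / 2 : ℝ), (Lq s t - Lq s x0) := by
    have e : ∀ t, Lq s (1 - t) = Lq s t := fun t => by
      rw [Lq_eq, Lq_eq, Sn_one_sub]
    have k := intervalIntegral.integral_comp_sub_left (a := x0) (b := 1 / 2)
      (fun t => Lq s t - Lq s x0) 1
    simp only [e] at k
    rw [k]
    norm_num
  rw [k3, ← k2, Dq_self] at k1
  linarith

/-- The edge `p = 0`, `q ≤ 1 / 2`. -/
theorem VL {n : ℕ} {s1 s4 s3 p0 q0 : ℝ} (hB : Bp s1 s4 s3 p0 q0) (b1 : q0 ≤ 1 / 2) {h hw : ℝ}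
    {m mw : ℕ} {g w e : ℕ → ℝ} (hh : 0 < h) (hm : m * h ≤ p0) (hhw : 0 < hw)
    (hmw : hw * mw = 2 / 5) (e0 : ∀ k < m, 0 ≤ e k)
    (e1 : ∀ k < m, e k = 0 ∨ ((k + 1) * h ≤ p0 + q0 - 1 / 2 ∧
      ∀ t ∈ Icc (k * h) ((k + 1) * h), e k ≤ Lq s3 (1 / 2 + t) - Lq s3 (p0 + q0)))
    (g0 : ∀ k < m, 0 ≤ g k) (g1 : ∀ k < m, g k ≤ n * (Lq s1 p0 - Lq s1 ((k + 1) * h)))
    (w0 : ∀ k < mw, 0 ≤ w k)
    (w1 : ∀ k < mw, ∀ t ∈ Icc (k * hw) ((k + 1) * hw), |p0 + q0 - 1 / 2| ≤ t →
      (t < |q0 - 1 / 2| → Lq s3 (p0 + q0) - Lq s3 (1 / 2 - t) ≤ w k) ∧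
      (|q0 - 1 / 2| ≤ t →
        (Lq s3 (p0 + q0) - Lq s3 (1 / 2 - t)) - (Lq s4 q0 - Lq s4 (1 / 2 - t)) ≤ w k))
    {e3 : ℝ} (he3 : ∀ t, 0 ≤ t → t ≤ |p0 + q0 - 1 / 2| → Dq s3 (p0 + q0) (1 / 2 - t) ≤ e3)
    (he3' : 0 ≤ e3) (_hee : e3 = 0 ∨ ∀ k < m, e k = 0)
    (hpos : 0 < h * (∑ k ∈ Finset.range m, (g k + 2 * e k)) -
      hw * (∑ k ∈ Finset.range mw, w k) - e3) :
    ∀ q, 1 / 10 ≤ q → q ≤ 1 / 2 → 0 < VV n s1 s4 s3 p0 q0 0 q := by
  have hp0 := hB.hp0
  have hp1 := hB.hp1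
  have hq0 := hB.hq0
  have hP0 := hB.hP0
  have hP1 := hB.hP1
  have hm0 : (0 : ℝ) ≤ m * h := by positivity
  intro q hq hq'
  -- the first part
  have kn := n_part (n := n) (x := 0) hB.h1 hp1 hh hm g1 le_rfl hm0
  rw [St_zero hh] at kn
  have sg : 0 ≤ ∑ k ∈ Finset.range m, g k :=
    Finset.sum_nonneg (fun k hk => g0 k (Finset.mem_range.1 hk))
  have se : 0 ≤ ∑ k ∈ Finset.range m, e k :=
    Finset.sum_nonneg (fun k hk => e0 k (Finset.mem_range.1 hk))
  have sw : 0 ≤ ∑ k ∈ Finset.range mw, w k :=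
    Finset.sum_nonneg (fun k hk => w0 k (Finset.mem_range.1 hk))
  have hsg := mul_nonneg hh.le sg
  have hse := mul_nonneg hh.le se
  have hsw := mul_nonneg hhw.le sw
  rw [Finset.sum_add_distrib, ← Finset.mul_sum, mul_add] at hpos
  -- `q = 1 / 2 - t`
  obtain ⟨t, rfl⟩ : ∃ t, q = 1 / 2 - t := ⟨1 / 2 - q, by ring⟩
  have ht : 0 ≤ t := by linarith
  have ht' : t ≤ 2 / 5 := by linarith
  have k4 : 0 ≤ Dq s4 q0 (1 / 2 - t) := Dq_nonneg' hB.h4 (by linarith) b1 (by linarith)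
    (by linarith)
  have hz : p0 + q0 < 1 / 2 → ∑ k ∈ Finset.range m, e k = 0 := fun h0 => by
    apply Finset.sum_eq_zero
    intro k hk
    rcases e1 k (Finset.mem_range.1 hk) with h1 | ⟨h1, -⟩
    · exact h1
    · exfalso
      have : 0 ≤ ((k : ℝ) + 1) * h := by positivity
      linarith
  -- the third part at `1 / 2`
  have kh : 1 / 2 ≤ p0 + q0 →
      h * (∑ k ∈ Finset.range m, e k) ≤ -Dq s3 (p0 + q0) (1 / 2) := fun h0 => by
    have k5 := D5_zone1 (s := s3) (u0 := p0 + q0 - 1 / 2) (u := 0) hB.h3 (by linarith) (by linarith)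
      (by linarith) (by linarith)
    rw [show 1 / 2 + (p0 + q0 - 1 / 2) = p0 + q0 by ring, add_zero] at k5
    have k6 := e_part (x := 0) (e3 := 0) hB.h3 hP1 hh (by linarith) e1 le_rfl hm0 (by
      rw [zero_add]
      linarith) le_rfl
    rw [St_zero hh, zero_add] at k6
    linarith
  unfold VV
  rw [zero_add]
  rcases le_or_gt t |p0 + q0 - 1 / 2| with h1 | h1
  · rcases lt_or_ge (p0 + q0) (1 / 2) with h0 | h0
    · have k5 := he3 t ht h1
      rw [hz h0] at hpos
      linarith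
    · rw [abs_of_nonneg (by linarith)] at h1
      have k5 := Dq_mirror hB.h3 (p0 + q0) 0 t
      have k6 : 0 ≤ ∫ x in (0 : ℝ)..t, (Lq s3 (1 / 2 - x) - Lq s3 (p0 + q0)) := by
        apply intervalIntegral.integral_nonneg ht
        intro x hx
        have h6 : 0 < Sn (p0 + q0) := Sn_pos (by linarith) (by linarith)
        have h7 : Sn (p0 + q0) ≤ Sn (1 / 2 - x) := by
          rw [← Sn_one_sub (1 / 2 - x)]
          exact Sn_anti (by linarith [hx.1]) (by linarith [hx.2]) (by linarith)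
        have := Lq_mono_t hB.h3 (by linarith [hB.h3]) h7
        linarith
      rw [← k5, sub_zero] at k6
      have k7 := kh h0
      have k8 : 0 < h * (∑ k ∈ Finset.range m, g k) + h * (∑ k ∈ Finset.range m, e k) := by
        by_contra hcc
        rw [not_lt] at hcc
        have z1 : h * (∑ k ∈ Finset.range m, g k) = 0 := by linarith
        have z2 : h * (∑ k ∈ Finset.range m, e k) = 0 := by linarith
        have z3 : h * (2 * ∑ k ∈ Finset.range m, e k) = 2 * (h * ∑ k ∈ Finset.range m, e k) := by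
          ring
        rw [z3, z1, z2] at hpos
        linarith
      linarith
  · set u := |p0 + q0 - 1 / 2| with hu
    have hu0 : 0 ≤ u := abs_nonneg _
    have f3 := fun a b => int_mirror (s := s3) (a := a) (b := b) hB.h3 (p0 + q0)
    have f4 := fun a b => int_mirror (s := s4) (a := a) (b := b) hB.h4 q0
    -- the third part
    have k5 := Dq_mirror hB.h3 (p0 + q0) u t
    have e5 : ∫ x in u..t, (Lq s3 (1 / 2 - x) - Lq s3 (p0 + q0)) =
        -∫ x in u..t, (Lq s3 (p0 + q0) - Lq s3 (1 / 2 - x)) := by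
      rw [← intervalIntegral.integral_neg]
      apply intervalIntegral.integral_congr
      intro x _
      simp only
      ring
    have k6 : 2 * (h * (∑ k ∈ Finset.range m, e k)) ≤ -Dq s3 (p0 + q0) (1 / 2 - u) := by
      rcases lt_or_ge (p0 + q0) (1 / 2) with h0 | h0
      · rw [hz h0, hu, abs_of_neg (by linarith),
          show 1 / 2 - -(p0 + q0 - 1 / 2) = p0 + q0 by ring, Dq_self]
        simp
      · have k7 := kh h0
        rw [hu, abs_of_nonneg (by linarith), show 1 / 2 - (p0 + q0 - 1 / 2) = 1 - (p0 + q0) by ring,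
          Dq_twice hB.h3]
        linarith
    rw [e5] at k5
    -- the cells
    have kw : ∀ a b, 0 ≤ a → b ≤ 2 / 5 → a ≤ b →
        St hw mw w b - St hw mw w a ≤ hw * ∑ k ∈ Finset.range mw, w k := fun a b ha hb hab => by
      have z1 := St_mono (h := hw) w0 ha
      have z2 := St_mono (h := hw) w0 (show b ≤ mw * hw by linarith)
      rw [St_zero hhw] at z1
      rw [St_top' hhw le_rfl] at z2
      linarith
    have hv : |q0 - 1 / 2| = 1 / 2 - q0 := by
      rw [abs_of_nonpos (by linarith)]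
      ring
    rw [hv] at w1
    rcases le_total t (1 / 2 - q0) with h2 | h2
    · have z1 := St_piece' (g := w) hhw f3 mw u t hu0 h1.le (by linarith) (by
        intro k hk x h3 h4 h5 h6
        exact (w1 k hk x ⟨h3.le, h4.le⟩ h5.le).1 (by linarith))
      have z2 := kw u t hu0 ht' h1.le
      linarith
    · set c := max u (1 / 2 - q0) with hc
      have c1 : u ≤ c := le_max_left _ _
      have c2 : 1 / 2 - q0 ≤ c := le_max_right _ _
      have c3 : c ≤ t := max_le h1.le h2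
      have z1 := St_piece' (g := w) hhw f3 mw u c hu0 c1 (by linarith) (by
        intro k hk x h3 h4 h5 h6
        refine (w1 k hk x ⟨h3.le, h4.le⟩ h5.le).1 ?_
        rcases lt_max_iff.1 h6 with h7 | h7
        · exact absurd h5 (by linarith)
        · exact h7)
      have z2 := St_piece' (g := w) hhw (fun a b => (f3 a b).sub (f4 a b)) mw c t (hu0.trans c1) c3
        (by linarith) (by
          intro k hk x h3 h4 h5 h6
          exact (w1 k hk x ⟨h3.le, h4.le⟩ (by linarith)).2 (by linarith))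
      rw [intervalIntegral.integral_sub (f3 _ _) (f4 _ _)] at z2
      have z3 := intervalIntegral.integral_add_adjacent_intervals (f3 u c) (f3 c t)
      have z4 := kw u t hu0 ht' h1.le
      -- the fourth part
      have k8 := Dq_mirror hB.h4 q0 (1 / 2 - q0) t
      have e8 : ∫ x in (1 / 2 - q0)..t, (Lq s4 (1 / 2 - x) - Lq s4 q0) =
          -∫ x in (1 / 2 - q0)..t, (Lq s4 q0 - Lq s4 (1 / 2 - x)) := by
        rw [← intervalIntegral.integral_neg]
        apply intervalIntegral.integral_congr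
        intro x _
        simp only
        ring
      rw [e8, show 1 / 2 - (1 / 2 - q0) = q0 by ring, Dq_self] at k8
      have z5 := intervalIntegral.integral_add_adjacent_intervals (f4 (1 / 2 - q0) c) (f4 c t)
      have z6 : 0 ≤ ∫ x in (1 / 2 - q0)..c, (Lq s4 q0 - Lq s4 (1 / 2 - x)) := by
        apply intervalIntegral.integral_nonneg c2
        intro x hx
        have h6 : 0 < Sn (1 / 2 - x) := Sn_pos (by linarith [hx.2]) (by linarith [hx.1])
        have h7 : Sn (1 / 2 - x) ≤ Sn q0 := Sn_mono (by linarith [hx.2]) (by linarith [hx.1]) b1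
        have := Lq_mono_t hB.h4 (by linarith [hB.h4]) h7
        linarith
      linarith

end Pool.Agent.S5.Y3
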