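import Pool.Agent.S5.I.Y3W
import Pool.Agent.S5.I.Y3N1
import Pool.Agent.S5.I.Y3V
import Pool.Agent.S5.I.NumLb

/-!
# The flats of a node with three half twists: the left part `tS`
-/

set_option autoImplicit false

namespace Pool.Agent.S5.Y3

open MeasureTheory Filter Topology Set Pool.Agent.S5.C2 Pool.Agent.S5.Num Pool.Agent.S5.K3

namespace N9

theorem uu_pos : (0 : ℝ) < UU := by unfold UU; norm_num

/-! ### Logarithms -/

/-- `lnh (4 (c + s))` for `c + s ≥ 1`. -/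
theorem hl_abs {c s : ℕ} (h0 : 0 < c + s) (h1 : c + s < 2 ^ 100) :
    |((hl c s : ℕ) : ℝ) - UU * (Real.log (4 * ((c : ℝ) + s)) / 2)| ≤ 40 := by
  have k := lnh_sound (v := 4 * (c + s)) (by omega) (by omega)
  have e : hl c s = lnh (4 * (c + s)) := by
    unfold hl
    rw [fN_eq]
    rfl
  rw [e]
  rw [show ((4 * (c + s) : ℕ) : ℝ) = 4 * ((c : ℝ) + s) by push_cast; ring] at k
  rw [show UU * (Real.log (4 * ((c : ℝ) + s)) / 2) = UU * (1 / 2 * Real.log (4 * ((c : ℝ) + s))) by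
    ring]
  exact k

/-- Scaling by `2^20`. -/
theorem log_sc {x : ℝ} (hx : 0 < x) :
    Real.log (4 * (1048576 * x)) = Real.log (4 * x) + 20 * Real.log 2 := by
  rw [show (4 : ℝ) * (1048576 * x) = 4 * x * 2 ^ 20 by ring, Real.log_mul (by positivity)
    (by positivity), Real.log_pow]
  norm_num

/-- The constant of the units. -/
noncomputable def κ : ℝ := UU * (20 * Real.log 2) / 2

theorem hl_le {c s : ℕ} {C S : ℝ} (h0 : 0 < c + s) (h1 : c + s < 2 ^ 100)
    (hc : (c : ℝ) ≤ 1048576 * C) (hs : (s : ℝ) ≤ 1048576 * S) :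
    ((hl c s : ℕ) : ℝ) ≤ UU * (Real.log (4 * (C + S)) / 2) + (κ + 40) := by
  have k := (abs_le.1 (hl_abs h0 h1)).2
  have h2 : (0 : ℝ) < (c : ℝ) + s := by exact_mod_cast h0
  have h3 : 0 < C + S := by linarith
  have k2 := log_sc h3
  have k3 := Real.log_le_log (show (0 : ℝ) < 4 * ((c : ℝ) + s) by linarith)
    (show 4 * ((c : ℝ) + s) ≤ 4 * (1048576 * (C + S)) by linarith)
  rw [k2] at k3
  have k4 := mul_le_mul_of_nonneg_left k3 uu_pos.le
  unfold κ
  linarith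

theorem hl_ge {c s : ℕ} {C S : ℝ} (h0 : 0 < C + S) (h1 : c + s < 2 ^ 100)
    (hc : 1048576 * C ≤ c) (hs : 1048576 * S ≤ s) :
    UU * (Real.log (4 * (C + S)) / 2) + (κ - 40) ≤ ((hl c s : ℕ) : ℝ) := by
  have h2 : (0 : ℝ) < (c : ℝ) + s := by linarith
  have h3 : 0 < c + s := by exact_mod_cast h2
  have k := (abs_le.1 (hl_abs h3 h1)).1
  have k2 := log_sc h0
  have k3 := Real.log_le_log (show (0 : ℝ) < 4 * (1048576 * (C + S)) by linarith)
    (show 4 * (1048576 * (C + S)) ≤ 4 * ((c : ℝ) + s) by linarith)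
  rw [k2] at k3
  have k4 := mul_le_mul_of_nonneg_left k3 uu_pos.le
  unfold κ
  linarith

theorem csn_pos : ∀ k ≤ 16, 0 < csn (10 * k) := by decide +kernel

theorem csn_lt (k : ℕ) : csn k < 2 ^ 32 := by
  unfold csn tn
  have h : Nat.land (Nat.shiftRight tbl (Nat.mul 32 (ds' 200 k))) 4294967295 ≤ 4294967295 :=
    Nat.and_le_right
  omega

theorem tn_lt (k : ℕ) : tn k < 2 ^ 32 := by
  unfold tn
  have h : Nat.land (Nat.shiftRight tbl (Nat.mul 32 k)) 4294967295 ≤ 4294967295 :=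
    Nat.and_le_right
  omega

theorem l5_eq (s i : ℕ) : l5 s i = hl (csn (10 * i)) s := rfl

/-- A node of the table. -/
theorem l5_le {s i : ℕ} (hs : s ≤ 1048576) (hi : i ≤ 16) : ((l5 s i : ℕ) : ℝ) ≤
    UU * Lq ((s : ℝ) / 1048576) (1 / 2 + (i : ℝ) / 40) + (κ + 40) := by
  rw [l5_eq, Lq_eq]
  have h1 := csn_pos i hi
  have h2 := csn_lt (10 * i)
  have h3 := (csn_ok (k := 10 * i) (by omega)).1
  have e : ((10 * i : ℕ) : ℝ) / 400 = (i : ℝ) / 40 := by
    push_cast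
    ring
  rw [e] at h3
  exact hl_le (by omega) (by omega) h3 (by linarith)

/-! ### The sums -/

theorem trs_succ (f : ℕ → ℕ) (i0 m : ℕ) :
    trs f i0 (m + 1) = trs f i0 m + (f (i0 + m) + f (i0 + m + 1)) := rfl

theorem tre_succ (f : ℕ → ℕ) (i0 m : ℕ) :
    tre f i0 (m + 1) = tre f i0 m + 2 * f (i0 + m + 1) := rfl

theorem trs_le {s i0 : ℕ} (hs : s ≤ 1048576) : ∀ m, i0 + m ≤ 16 →
    (s : ℝ) / 1048576 ≤ Sn (1 / 2 + ((i0 : ℝ) + m) / 40) * (1 + 2 * ((s : ℝ) / 1048576)) →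
    ((trs (l5 s) i0 m : ℕ) : ℝ) ≤
      80 * UU * (∫ t in (1 / 2 + (i0 : ℝ) / 40)..(1 / 2 + ((i0 : ℝ) + m) / 40),
        Lq ((s : ℝ) / 1048576) t) + 2 * m * (κ + 40) := by
  intro m
  have hS0 : (0 : ℝ) ≤ (s : ℝ) / 1048576 := by positivity
  induction m with
  | zero =>
    intro _ _
    have : trs (l5 s) i0 0 = 0 := rfl
    rw [this]
    simp
  | succ m ih =>
    intro hm hc
    have hm' : (i0 : ℝ) + (m + 1) ≤ 16 := by exact_mod_cast hm
    have hi0 : (0 : ℝ) ≤ i0 := Nat.cast_nonneg _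
    have hmm : (0 : ℝ) ≤ m := Nat.cast_nonneg _
    push_cast at hc ⊢
    have hanti : Sn (1 / 2 + ((i0 : ℝ) + (m + 1)) / 40) ≤ Sn (1 / 2 + ((i0 : ℝ) + m) / 40) :=
      Sn_anti (by linarith) (by linarith) (by linarith)
    have hc1 : (s : ℝ) / 1048576 ≤ Sn (1 / 2 + ((i0 : ℝ) + m) / 40) *
        (1 + 2 * ((s : ℝ) / 1048576)) :=
      hc.trans (mul_le_mul_of_nonneg_right hanti (by linarith))
    have k0 := ih (by omega) hc1
    have k1 := trapG (a := 1 / 2 + ((i0 : ℝ) + m) / 40) (b := 1 / 2 + ((i0 : ℝ) + (m + 1)) / 40)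
      hS0 (by linarith) (by linarith) (by linarith) hc1 hc
    have a1 := l5_le (s := s) (i := i0 + m) hs (by omega)
    have a2 := l5_le (s := s) (i := i0 + m + 1) hs (by omega)
    push_cast at a1 a2
    rw [show (i0 : ℝ) + m + 1 = i0 + (m + 1) by ring] at a2
    have k2 := intervalIntegral.integral_add_adjacent_intervals
      (Lq_int hS0 (1 / 2 + (i0 : ℝ) / 40) (1 / 2 + ((i0 : ℝ) + m) / 40))
      (Lq_int hS0 (1 / 2 + ((i0 : ℝ) + m) / 40) (1 / 2 + ((i0 : ℝ) + (m + 1)) / 40))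
    rw [trs_succ, ← k2]
    push_cast
    have k3 := mul_le_mul_of_nonneg_left k1 (by linarith [uu_pos] : 0 ≤ 80 * UU)
    rw [show (1 / 2 + ((i0 : ℝ) + (m + 1)) / 40 - (1 / 2 + ((i0 : ℝ) + m) / 40)) = 1 / 40 by ring]
      at k3
    linarith

theorem tre_le {s i0 : ℕ} (hs : s ≤ 1048576) : ∀ m, i0 + m ≤ 16 →
    ((tre (l5 s) i0 m : ℕ) : ℝ) ≤
      80 * UU * (∫ t in (1 / 2 + (i0 : ℝ) / 40)..(1 / 2 + ((i0 : ℝ) + m) / 40),
        Lq ((s : ℝ) / 1048576) t) + 2 * m * (κ + 40) := by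
  intro m
  have hS0 : (0 : ℝ) ≤ (s : ℝ) / 1048576 := by positivity
  induction m with
  | zero =>
    intro _
    have : tre (l5 s) i0 0 = 0 := rfl
    rw [this]
    simp
  | succ m ih =>
    intro hm
    have hm' : (i0 : ℝ) + (m + 1) ≤ 16 := by exact_mod_cast hm
    have hi0 : (0 : ℝ) ≤ i0 := Nat.cast_nonneg _
    have hmm : (0 : ℝ) ≤ m := Nat.cast_nonneg _
    push_cast
    have k0 := ih (by omega)
    have k1 : ∫ _t in (1 / 2 + ((i0 : ℝ) + m) / 40)..(1 / 2 + ((i0 : ℝ) + (m + 1)) / 40),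
        Lq ((s : ℝ) / 1048576) (1 / 2 + ((i0 : ℝ) + (m + 1)) / 40) ≤
        ∫ t in (1 / 2 + ((i0 : ℝ) + m) / 40)..(1 / 2 + ((i0 : ℝ) + (m + 1)) / 40),
        Lq ((s : ℝ) / 1048576) t := by
      apply intervalIntegral.integral_mono_on (by linarith) (by simp) (Lq_int hS0 _ _)
      intro t ht
      have h6 : 0 < Sn (1 / 2 + ((i0 : ℝ) + (m + 1)) / 40) := Sn_pos (by linarith) (by linarith)
      exact Lq_mono_t hS0 (by linarith) (Sn_anti (by linarith [ht.1]) ht.2 (by linarith))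
    rw [intervalIntegral.integral_const, smul_eq_mul] at k1
    have a2 := l5_le (s := s) (i := i0 + m + 1) hs (by omega)
    push_cast at a2
    rw [show (i0 : ℝ) + m + 1 = i0 + (m + 1) by ring] at a2
    have k2 := intervalIntegral.integral_add_adjacent_intervals
      (Lq_int hS0 (1 / 2 + (i0 : ℝ) / 40) (1 / 2 + ((i0 : ℝ) + m) / 40))
      (Lq_int hS0 (1 / 2 + ((i0 : ℝ) + m) / 40) (1 / 2 + ((i0 : ℝ) + (m + 1)) / 40))
    rw [tre_succ, ← k2]
    push_cast
    have k3 := mul_le_mul_of_nonneg_left k1 (by linarith [uu_pos] : 0 ≤ 80 * UU)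
    rw [show (1 / 2 + ((i0 : ℝ) + (m + 1)) / 40 - (1 / 2 + ((i0 : ℝ) + m) / 40)) = 1 / 40 by ring]
      at k3
    linarith

/-- The sum of the outer cells. -/
def Rs (s i0 : ℕ) (cf : Bool) (m : ℕ) : ℕ := cond cf (trs (l5 s) i0 m) (tre (l5 s) i0 m)

theorem csn160 : csn 160 = 100130 := by decide +kernel

theorem Rs_le {s i0 : ℕ} {cf : Bool} (hs : s ≤ 1048576)
    (hcf : cf = Nat.ble (Nat.mul 1048576 s) (Nat.mul 100130 (Nat.add 1048576 (Nat.mul 2 s))))
    {m : ℕ} (hm : i0 + m ≤ 16) :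
    ((Rs s i0 cf m : ℕ) : ℝ) ≤
      80 * UU * (∫ t in (1 / 2 + (i0 : ℝ) / 40)..(1 / 2 + ((i0 : ℝ) + m) / 40),
        Lq ((s : ℝ) / 1048576) t) + 2 * m * (κ + 40) := by
  unfold Rs
  cases hc : cf with
  | true =>
    apply trs_le hs m hm
    rw [hc] at hcf
    have h1 : 1048576 * s ≤ 100130 * (1048576 + 2 * s) := Nat.le_of_ble_eq_true hcf.symm
    have h2 : (1048576 : ℝ) * s ≤ 100130 * (1048576 + 2 * s) := by exact_mod_cast h1
    have h3 := (csn_ok (k := 160) (by norm_num)).1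
    rw [csn160] at h3
    have hm' : (i0 : ℝ) + m ≤ 16 := by exact_mod_cast hm
    have h4 : Sn (1 / 2 + ((160 : ℕ) : ℝ) / 400) ≤ Sn (1 / 2 + ((i0 : ℝ) + m) / 40) :=
      Sn_anti (by positivity |> fun h : (0 : ℝ) ≤ ((i0 : ℝ) + m) / 40 => by linarith)
        (by push_cast; linarith) (by push_cast; norm_num)
    have h5 : (100130 : ℝ) ≤ 1048576 * Sn (1 / 2 + ((i0 : ℝ) + m) / 40) := by
      push_cast at h3 h4
      linarith
    have h6 := mul_le_mul_of_nonneg_right h5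
      (show (0 : ℝ) ≤ 1 + 2 * ((s : ℝ) / 1048576) by positivity)
    have h7 : (s : ℝ) = 1048576 * ((s : ℝ) / 1048576) := by ring
    have h8 : (100130 : ℝ) * (1 + 2 * ((s : ℝ) / 1048576)) * 1048576 =
        100130 * (1048576 + 2 * s) := by ring
    linarith
  | false => exact tre_le hs m hm

/-! ### The values of `D5` at the nodes -/

variable {d : Dx} {s1 s4 s3 s2 g5 p0 q0 qb : ℝ}

/-- The positive part. -/
def Pk (d : Dx) (cf : Bool) (ug b2l k : ℕ) : ℕ :=
  2 * trs (l5 d.s5h) 0 ug + 2 * ((b2l - ug) * l5 d.s5l b2l) + Rs d.s5l b2l cf (k - b2l)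

/-- The negative part. -/
def Nk (d : Dx) (ug b2l k : ℕ) : ℕ :=
  4 * (ug * hl d.eh d.s5h) + 2 * ((b2l - ug) * hl d.eh d.s5l) + 2 * ((k - b2l) * hl d.eh d.s5l)

theorem Hs_nonneg (g : ℝ) : 0 ≤ Hs g := by
  unfold Hs
  positivity

theorem u_half (hd : d.Ok s1 s4 s3 s2 g5 p0 q0 qb) :
    3 / 20 - 1 / 1048576 ≤ qb + 1 / 2 - q0 ∧ qb + 1 / 2 - q0 < 1 / 2 := by
  have h1 : (157287 : ℝ) ≤ d.ul := by exact_mod_cast hd.u3
  have h2 : (d.uh : ℝ) ≤ 524287 := by exact_mod_cast hd.u4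
  constructor
  · linarith [hd.u1]
  · linarith [hd.u2]

theorem P_ok (hd : d.Ok s1 s4 s3 s2 g5 p0 q0 qb) {cf : Bool}
    (hcf : cf = Nat.ble (Nat.mul 1048576 d.s5l)
      (Nat.mul 100130 (Nat.add 1048576 (Nat.mul 2 d.s5l)))) {ug b2l k : ℕ}
    (h1 : ug * 1048576 ≤ 40 * d.ul) (h2 : ug ≤ b2l) (h3 : b2l ≤ k) (h4 : k ≤ 16)
    (h5 : d.eh ≤ csn (10 * ug)) (h6 : csn (10 * b2l) + 1 ≤ d.eh)
    (h7 : 1048576 * d.s5h ≤ csn (10 * ug) * (1048576 + 2 * d.s5h)) :
    ((Pk d cf ug b2l k : ℕ) : ℝ) - ((Nk d ug b2l k : ℕ) : ℝ) ≤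
      80 * UU * -Dq (Hs g5) (qb + 1 - q0) (1 / 2 - (k : ℝ) / 40) + 7680 := by
  obtain ⟨hu, hu1⟩ := u_half hd
  have r1 : (ug : ℝ) * 1048576 ≤ 40 * d.ul := by exact_mod_cast h1
  have r2 : (ug : ℝ) ≤ b2l := by exact_mod_cast h2
  have r3 : (b2l : ℝ) ≤ k := by exact_mod_cast h3
  have r4 : (k : ℝ) ≤ 16 := by exact_mod_cast h4
  have r5 : (d.eh : ℝ) ≤ csn (10 * ug) := by exact_mod_cast h5
  have r6 : ((csn (10 * b2l) : ℕ) : ℝ) + 1 ≤ d.eh := by exact_mod_cast h6
  have r7 : (1048576 : ℝ) * d.s5h ≤ csn (10 * ug) * (1048576 + 2 * d.s5h) := by exact_mod_cast h7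
  have hug0 : (0 : ℝ) ≤ ug := Nat.cast_nonneg _
  have hsl : d.s5l ≤ 1048576 := by
    have a := hd.s51.trans hd.s52
    have : d.s5l ≤ d.s5h := by exact_mod_cast a
    exact this.trans hd.l3.2.2.2.2
  have hsh : d.s5h ≤ 1048576 := hd.l3.2.2.2.2
  have heh : d.eh ≤ 1048576 := hd.l2.2.2.2.2
  have c1 := (csn_ok (k := 10 * ug) (by omega)).1
  have c2 := (csn_ok (k := 10 * b2l) (by omega)).2
  have e1 : ((10 * ug : ℕ) : ℝ) / 400 = (ug : ℝ) / 40 := by
    push_cast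
    ring
  have e2 : ((10 * b2l : ℕ) : ℝ) / 400 = (b2l : ℝ) / 40 := by
    push_cast
    ring
  rw [e1] at c1
  rw [e2] at c2
  -- the estimate from below
  have key := D5_left (s := Hs g5) (sl := (d.s5l : ℝ) / 1048576) (sh := (d.s5h : ℝ) / 1048576)
    (u0 := qb + 1 / 2 - q0) (b := (ug : ℝ) / 40) (b2 := (b2l : ℝ) / 40) (x := (k : ℝ) / 40)
    (Cu := (d.eh : ℝ) / 1048576) (by positivity) (by linarith [hd.s51]) (by linarith [hd.s52])
    (by linarith) hu1 (by positivity) (by linarith [hd.u1]) (by linarith) (by linarith)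
    (by linarith)
    (by
      rw [show 1 / 2 + (qb + 1 / 2 - q0) = qb + 1 - q0 by ring]
      linarith [hd.e2]) (by linarith) (by linarith)
  rw [show 1 / 2 + (qb + 1 / 2 - q0) = qb + 1 - q0 by ring] at key
  have hSh : (0 : ℝ) ≤ (d.s5h : ℝ) / 1048576 := by positivity
  have hSl : (0 : ℝ) ≤ (d.s5l : ℝ) / 1048576 := by positivity
  have int_sub_c : ∀ (S c a b : ℝ), 0 ≤ S → ∫ t in a..b, (Lq S t - c) =
      (∫ t in a..b, Lq S t) - (b - a) * c := fun S c a b hS => by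
    rw [intervalIntegral.integral_sub (Lq_int hS a b) (by simp), intervalIntegral.integral_const,
      smul_eq_mul]
  rw [int_sub_c _ _ _ _ hSh, int_sub_c _ _ _ _ hSl] at key
  set Hh := Real.log (4 * ((d.eh : ℝ) / 1048576 + (d.s5h : ℝ) / 1048576)) / 2 with hHh
  set Hl := Real.log (4 * ((d.eh : ℝ) / 1048576 + (d.s5l : ℝ) / 1048576)) / 2 with hHl
  -- the sums
  have p1 := trs_le (s := d.s5h) (i0 := 0) hsh ug (by omega) (by
    push_cast
    rw [zero_add]
    have h8 := mul_le_mul_of_nonneg_right c1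
      (show (0 : ℝ) ≤ 1 + 2 * ((d.s5h : ℝ) / 1048576) by positivity)
    have h9 : ((csn (10 * ug) : ℕ) : ℝ) * (1 + 2 * ((d.s5h : ℝ) / 1048576)) * 1048576 =
        csn (10 * ug) * (1048576 + 2 * d.s5h) := by ring
    linarith)
  have p2 := l5_le (s := d.s5l) (i := b2l) hsl (by omega)
  have p3 := Rs_le (s := d.s5l) (i0 := b2l) hsl hcf (m := k - b2l) (by omega)
  have ekb : ((k - b2l : ℕ) : ℝ) = (k : ℝ) - b2l := by
    rw [Nat.cast_sub h3]
  have ebu : ((b2l - ug : ℕ) : ℝ) = (b2l : ℝ) - ug := by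
    rw [Nat.cast_sub h2]
  rw [ekb, show (b2l : ℝ) + (k - b2l) = k by ring] at p3
  push_cast at p1
  rw [zero_add, zero_div, add_zero] at p1
  have hehp : (0 : ℝ) < (d.eh : ℝ) / 1048576 := by
    have : (0 : ℝ) ≤ ((csn (10 * b2l) : ℕ) : ℝ) := Nat.cast_nonneg _
    have : (0 : ℝ) < d.eh := by linarith
    positivity
  have n1 := hl_ge (c := d.eh) (s := d.s5h) (C := (d.eh : ℝ) / 1048576)
    (S := (d.s5h : ℝ) / 1048576) (by linarith) (by omega) (by linarith) (by linarith)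
  have n2 := hl_ge (c := d.eh) (s := d.s5l) (C := (d.eh : ℝ) / 1048576)
    (S := (d.s5l : ℝ) / 1048576) (by linarith) (by omega) (by linarith) (by linarith)
  rw [← hHh] at n1
  rw [← hHl] at n2
  unfold Pk Nk
  push_cast
  rw [ekb, ebu]
  have m1 := mul_le_mul_of_nonneg_left n1 (show (0 : ℝ) ≤ 4 * ug by positivity)
  have m2 := mul_le_mul_of_nonneg_left n2 (show (0 : ℝ) ≤ 2 * (b2l - ug) + 2 * (k - b2l) by
    linarith)
  have m3 := mul_le_mul_of_nonneg_left p2 (show (0 : ℝ) ≤ 2 * (b2l - ug) by linarith)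
  have m4 := mul_le_mul_of_nonneg_left key (by linarith [uu_pos] : 0 ≤ 80 * UU)
  nlinarith

/-! ### The values of `D2` -/

/-- A cell of `D2`. -/
def T (d : Dx) (i : ℕ) : ℕ := 2 * (hl d.bl d.s2h - (100 + hl (tn (10 * (i + 2)) + 1) d.s2h))

theorem hl00 : hl 0 0 ≤ 100 := by decide +kernel

theorem lg_sub {s t s' t' : ℝ} (h : 0 < Sn t + s) (h' : 0 < Sn t' + s') :
    Lq s t - Lq s' t' = (Real.log (1048576 * Sn t + 1048576 * s) -
      Real.log (1048576 * Sn t' + 1048576 * s')) / 2 := by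
  rw [Lq_eq, Lq_eq, ← mul_add, ← mul_add, Real.log_mul (x := 4) (by norm_num) h.ne',
    Real.log_mul (x := 4) (by norm_num) h'.ne', Real.log_mul (x := 1048576) (by norm_num) h.ne',
    Real.log_mul (x := 1048576) (by norm_num) h'.ne']
  ring

theorem r_lo {x y S X Y s : ℝ} (hx : x ≤ X) (hy : Y ≤ y) (hxy : y ≤ x) (hs : s ≤ S) (hY0 : 0 ≤ Y)
    (hs0 : 0 ≤ s) (h0 : 0 < Y + s) :
    Real.log (x + S) - Real.log (y + S) ≤ Real.log (X + s) - Real.log (Y + s) := by
  have h1 : (x + S) * (Y + s) ≤ (X + s) * (y + S) := by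
    have k1 := mul_nonneg (sub_nonneg.2 hx) (hY0.trans hy)
    have k2 := mul_nonneg ((hY0.trans hy).trans hxy) (sub_nonneg.2 hy)
    have k3 := mul_nonneg (sub_nonneg.2 hs) (show 0 ≤ X - Y by linarith)
    have k4 := mul_nonneg hs0 (show 0 ≤ (X - Y) - (x - y) by linarith)
    nlinarith
  have p1 : 0 < x + S := by linarith
  have p2 : 0 < X + s := by linarith
  have p3 : 0 < y + S := by linarith
  have := Real.log_le_log (mul_pos p1 h0) h1
  rw [Real.log_mul p1.ne' h0.ne', Real.log_mul p2.ne' p3.ne'] at this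
  linarith

theorem T_le (hd : d.Ok s1 s4 s3 s2 g5 p0 q0 qb) {i : ℕ} (hi : ((i : ℝ) + 2) / 40 ≤ qb) :
    ((T d i : ℕ) : ℝ) ≤ 2 * UU * (Lq s2 qb - Lq s2 (((i : ℝ) + 2) / 40)) := by
  have hs2 := hd.s20
  have hqb := hd.b0'
  have hi0 : (0 : ℝ) ≤ i := Nat.cast_nonneg _
  have hU := uu_pos
  have h1 : 0 < Sn (((i : ℝ) + 2) / 40) := Sn_pos (by positivity) (by linarith)
  have h2 : Sn (((i : ℝ) + 2) / 40) ≤ Sn qb := Sn_mono (by positivity) hi (by linarith)
  have hmono := Lq_mono_t hs2 (by linarith) h2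
  have hi18 : 10 * (i + 2) ≤ 200 := by
    have : ((i + 2 : ℕ) : ℝ) ≤ (20 : ℕ) := by
      push_cast
      linarith
    have : i + 2 ≤ 20 := by exact_mod_cast this
    omega
  have c1 := (tn_ok hi18).2
  have e1 : ((10 * (i + 2) : ℕ) : ℝ) / 400 = ((i : ℝ) + 2) / 40 := by
    push_cast
    ring
  rw [e1] at c1
  have hbl : d.bl ≤ 1048576 := hd.l1.2.2.2.1
  have hs2h : d.s2h ≤ 1048576 := hd.l3.2.2.2.1
  have htn := tn_lt (10 * (i + 2))
  have key : (((hl d.bl d.s2h - (100 + hl (tn (10 * (i + 2)) + 1) d.s2h) : ℕ)) : ℝ) ≤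
      UU * (Lq s2 qb - Lq s2 (((i : ℝ) + 2) / 40)) := by
    have hnn : 0 ≤ UU * (Lq s2 qb - Lq s2 (((i : ℝ) + 2) / 40)) :=
      mul_nonneg hU.le (by linarith)
    rcases Nat.eq_zero_or_pos (d.bl + d.s2h) with hz | hz
    · have z1 : d.bl = 0 := by omega
      have z2 : d.s2h = 0 := by omega
      have z3 := hl00
      rw [z1, z2]
      have z4 : hl 0 0 - (100 + hl (tn (10 * (i + 2)) + 1) 0) = 0 := by omega
      rw [z4, Nat.cast_zero]
      exact hnn
    · rcases le_total (hl d.bl d.s2h) (100 + hl (tn (10 * (i + 2)) + 1) d.s2h) with hc | hc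
      · rw [Nat.sub_eq_zero_of_le hc, Nat.cast_zero]
        exact hnn
      · rw [Nat.cast_sub hc]
        have a1 := (abs_le.1 (hl_abs (c := d.bl) (s := d.s2h) hz (by omega))).2
        have a2 := (abs_le.1 (hl_abs (c := tn (10 * (i + 2)) + 1) (s := d.s2h) (by omega)
          (by omega))).1
        have b1 : (0 : ℝ) < (d.bl : ℝ) + d.s2h := by exact_mod_cast hz
        have b2 : (0 : ℝ) < ((tn (10 * (i + 2)) : ℕ) : ℝ) + 1 + d.s2h := by positivity
        rw [Real.log_mul (by norm_num) b1.ne'] at a1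
        push_cast at a2 ⊢
        rw [Real.log_mul (by norm_num) b2.ne'] at a2
        rw [lg_sub (by linarith) (by linarith)]
        rcases le_or_gt (tn (10 * (i + 2)) + 1) d.bl with h | h
        · have h' : ((tn (10 * (i + 2)) : ℕ) : ℝ) + 1 ≤ d.bl := by exact_mod_cast h
          have k6 := r_lo (x := (d.bl : ℕ)) (y := (tn (10 * (i + 2)) : ℕ) + 1)
            (S := (d.s2h : ℕ)) (X := 1048576 * Sn qb)
            (Y := 1048576 * Sn (((i : ℝ) + 2) / 40)) (s := 1048576 * s2)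
            hd.b1 c1 h' hd.s22 (by positivity) (by linarith) (by linarith)
          have k7 := mul_le_mul_of_nonneg_left k6 hU.le
          linarith
        · have h' : (d.bl : ℝ) ≤ ((tn (10 * (i + 2)) : ℕ) : ℝ) + 1 := by exact_mod_cast h.le
          have k6 := Real.log_le_log b1 (show (d.bl : ℝ) + d.s2h ≤
            ((tn (10 * (i + 2)) : ℕ) : ℝ) + 1 + d.s2h by linarith)
          have k7 := mul_le_mul_of_nonneg_left k6 hU.le
          rw [lg_sub (by linarith) (by linarith)] at hnn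
          linarith
  unfold T
  rw [Nat.cast_mul]
  push_cast at key ⊢
  linarith

/-- The integrand of `D2` on the left of the base point. -/
theorem i_int (hs2 : 0 ≤ s2) (qb a b : ℝ) :
    IntervalIntegrable (fun t => Lq s2 qb - Lq s2 t) volume a b :=
  (by simp : IntervalIntegrable (fun _ => Lq s2 qb) volume a b).sub (Lq_int hs2 _ _)

theorem i_nn {a b : ℝ} (hs2 : 0 ≤ s2) (hqb : qb < 1 / 2) (ha : 0 ≤ a) (hab : a ≤ b) (hb : b ≤ qb) :
    0 ≤ ∫ t in a..b, (Lq s2 qb - Lq s2 t) := by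
  have k : ∫ _t in a..b, (0 : ℝ) ≤ ∫ t in a..b, (Lq s2 qb - Lq s2 t) := by
    apply intervalIntegral.integral_mono_on_of_le_Ioo hab (by simp) (i_int hs2 _ _ _)
    intro t ht
    have h6 : 0 < Sn t := Sn_pos (by linarith [ht.1]) (by linarith [ht.2])
    have := Lq_mono_t hs2 (by linarith) (Sn_mono (t := t) (t' := qb) (by linarith [ht.1])
      (by linarith [ht.2]) (by linarith))
    linarith
  rwa [intervalIntegral.integral_zero] at k

theorem T_sum (hd : d.Ok s1 s4 s3 s2 g5 p0 q0 qb) {j qf : ℕ} (hqf : (qf : ℝ) / 40 ≤ qb) :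
    ∀ n, j ≤ n → n + 1 ≤ qf → ((∑ i ∈ Finset.Ico j n, T d i : ℕ) : ℝ) ≤
      80 * UU * ∫ t in (((j : ℝ) + 1) / 40)..(((n : ℝ) + 1) / 40), (Lq s2 qb - Lq s2 t) := by
  intro n hn
  have hU := uu_pos
  induction n, hn using Nat.le_induction with
  | base =>
    intro _
    simp
  | succ n hjn ih =>
    intro hn1
    have k0 := ih (by omega)
    have hn1' : ((n : ℝ) + 1 + 1) ≤ qf := by exact_mod_cast hn1
    have hn0 : (0 : ℝ) ≤ n := Nat.cast_nonneg _
    have k1 := T_le (i := n) hd (by linarith)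
    rw [Finset.sum_Ico_succ_top hjn]
    push_cast at k0 ⊢
    have k2 := intervalIntegral.integral_add_adjacent_intervals
      (i_int hd.s20 qb (((j : ℝ) + 1) / 40) (((n : ℝ) + 1) / 40))
      (i_int hd.s20 qb (((n : ℝ) + 1) / 40) (((n : ℝ) + 1 + 1) / 40))
    rw [← k2]
    have hqb := hd.b0'
    have k3 : ∫ _t in (((n : ℝ) + 1) / 40)..(((n : ℝ) + 1 + 1) / 40),
        (Lq s2 qb - Lq s2 (((n : ℝ) + 2) / 40)) ≤
        ∫ t in (((n : ℝ) + 1) / 40)..(((n : ℝ) + 1 + 1) / 40), (Lq s2 qb - Lq s2 t) := by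
      apply intervalIntegral.integral_mono_on (by linarith) (by simp) (i_int hd.s20 _ _ _)
      intro t ht
      have ht0 : 0 < t := lt_of_lt_of_le (by positivity) ht.1
      have h6 : 0 < Sn t := Sn_pos ht0 (by linarith [ht.2])
      have := Lq_mono_t hd.s20 (by linarith [hd.s20]) (Sn_mono (t := t)
        (t' := ((n : ℝ) + 2) / 40) ht0.le (by linarith [ht.2]) (by linarith))
      linarith
    rw [intervalIntegral.integral_const, smul_eq_mul,
      show ((n : ℝ) + 1 + 1) / 40 - ((n : ℝ) + 1) / 40 = 1 / 40 by ring] at k3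
    have k4 := mul_le_mul_of_nonneg_left k3 (by linarith : 0 ≤ 80 * UU)
    linarith

theorem Q_ok (hd : d.Ok s1 s4 s3 s2 g5 p0 q0 qb) {j qf : ℕ} {b : ℝ} (hqf : (qf : ℝ) / 40 ≤ qb)
    (hb : 0 ≤ b) (hbj : b ≤ ((j : ℝ) + 1) / 40) (hb2 : b ≤ 1 / 2) :
    ((∑ i ∈ Finset.Ico j (qf - 1), T d i : ℕ) : ℝ) ≤ 80 * UU * Dq s2 qb b := by
  have hU := uu_pos
  have hqb := hd.b0'
  rcases le_or_gt (qf - 1) j with h | h
  · rw [Finset.Ico_eq_empty_of_le h, Finset.sum_empty, Nat.cast_zero]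
    exact mul_nonneg (by linarith) (Dq_nonneg' hd.s20 hd.b0 hqb.le hb hb2)
  · have hj : ((j : ℝ) + 1) ≤ qf := by
      have : j + 1 ≤ qf := by omega
      exact_mod_cast this
    have k1 := T_sum hd (j := j) hqf (qf - 1) h.le (by omega)
    have e1 : ((qf - 1 : ℕ) : ℝ) + 1 = qf := by
      rw [Nat.cast_sub (by omega)]
      push_cast
      ring
    rw [e1] at k1
    have k2 := intervalIntegral.integral_add_adjacent_intervals
      (i_int hd.s20 qb b (((j : ℝ) + 1) / 40)) (i_int hd.s20 qb (((j : ℝ) + 1) / 40) ((qf : ℝ) / 40))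
    have k3 := intervalIntegral.integral_add_adjacent_intervals
      (i_int hd.s20 qb b ((qf : ℝ) / 40)) (i_int hd.s20 qb ((qf : ℝ) / 40) qb)
    have k4 := i_nn hd.s20 hqb hb hbj (by linarith)
    have k5 := i_nn hd.s20 hqb (show (0 : ℝ) ≤ (qf : ℝ) / 40 by positivity) hqf le_rfl
    rw [Dq_int_left, ← k3, ← k2]
    refine k1.trans (mul_le_mul_of_nonneg_left ?_ (by linarith))
    linarith

/-! ### The loop -/

theorem Rs_succ (s i0 : ℕ) (cf : Bool) (m : ℕ) : Rs s i0 cf (m + 1) = Rs s i0 cf m +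
    (l5 s (i0 + m + 1) + l5 s (cond cf (i0 + m) (i0 + m + 1))) := by
  cases cf
  · show tre (l5 s) i0 (m + 1) = tre (l5 s) i0 m + (l5 s (i0 + m + 1) + l5 s (i0 + m + 1))
    rw [tre_succ, two_mul]
  · show trs (l5 s) i0 (m + 1) = trs (l5 s) i0 m + (l5 s (i0 + m + 1) + l5 s (i0 + m))
    rw [trs_succ]
    ring

theorem lpL_zero (d : Dx) (cf : Bool) (kb b2l HCl HBl NL j P Q : ℕ) :
    lpL d cf kb b2l HCl HBl NL 0 j P Q = true := rfl

theorem lpL_succ (d : Dx) (cf : Bool) (kb b2l HCl HBl NL m j P Q : ℕ) :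
    lpL d cf kb b2l HCl HBl NL (m + 1) j P Q =
      cond (ltn (NL + 1048576 + 2 * ((16 - j - b2l) * HCl)) P) true
      (cond (cond (Nat.ble kb 2) (ltn (NL + 1048576 + 2 * ((16 - j - b2l) * HCl)) (P + Q)) false)
        (lpL d cf kb b2l HCl HBl NL m (j + 1)
          (P - (l5 d.s5l (16 - j) + l5 d.s5l (cond cf (15 - j) (16 - j))))
          (Q - 2 * (HBl - (100 + hl (tn (10 * (j + 2)) + 1) d.s2h)))) false) := by
  have e : lpL d cf kb b2l HCl HBl NL (m + 1) j P Q =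
      fN (fun N => cond (ltn N P) true
      (cond (cond (Nat.ble kb 2) (ltn N (Nat.add P Q)) false)
        (fN (fun P' => fN (fun Q' => lpL d cf kb b2l HCl HBl NL m (Nat.succ j) P' Q')
          (Nat.sub Q (Nat.mul 2 (Nat.sub HBl (Nat.add 100
            (hl (Nat.succ (tn (Nat.mul 10 (Nat.add j 2)))) d.s2h))))))
          (Nat.sub P (Nat.add (l5 d.s5l (Nat.sub 16 j))
            (l5 d.s5l (cond cf (Nat.sub 15 j) (Nat.sub 16 j)))))) false))
      (Nat.add (Nat.add NL 1048576) (Nat.mul 2 (Nat.mul (Nat.sub (Nat.sub 16 j) b2l) HCl))) := rfl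
  rw [e]
  simp only [fN_eq]
  rfl

theorem lpL_ok (hd : d.Ok s1 s4 s3 s2 g5 p0 q0 qb) {cf : Bool}
    (hcf : cf = Nat.ble (Nat.mul 1048576 d.s5l)
      (Nat.mul 100130 (Nat.add 1048576 (Nat.mul 2 d.s5l)))) {kb ug b2l qf : ℕ}
    (h1 : ug * 1048576 ≤ 40 * d.ul) (h2 : ug ≤ b2l) (h3 : b2l ≤ 16)
    (hb2l : b2l * 1048576 < 40 * d.ul + 1048576) (hqf : (qf : ℝ) / 40 ≤ qb)
    (h5 : d.eh ≤ csn (10 * ug)) (h6 : csn (10 * b2l) + 1 ≤ d.eh)
    (h7 : 1048576 * d.s5h ≤ csn (10 * ug) * (1048576 + 2 * d.s5h)) :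
    ∀ m j P Q : ℕ, j + m = 17 - b2l → P ≤ Pk d cf ug b2l (16 - j) →
      Q ≤ ∑ i ∈ Finset.Ico j (qf - 1), T d i →
      lpL d cf kb b2l (hl d.eh d.s5l) (hl d.bl d.s2h)
        (4 * (ug * hl d.eh d.s5h) + 2 * ((b2l - ug) * hl d.eh d.s5l)) m j P Q = true →
      ∀ b x : ℝ, 0 ≤ b → b ≤ 2 / 5 - x → qb + 1 / 2 - q0 ≤ x → x ≤ (16 - (j : ℝ)) / 40 →
      0 < -Dq (Hs g5) (qb + 1 - q0) (1 / 2 - x) ∨
      (kb ≤ 2 ∧ 0 < Dq s2 qb b + -Dq (Hs g5) (qb + 1 - q0) (1 / 2 - x)) := by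
  obtain ⟨hu, hu1⟩ := u_half hd
  have hU := uu_pos
  have r2 : (b2l : ℝ) * 1048576 < 40 * d.ul + 1048576 := by exact_mod_cast hb2l
  intro m
  induction m with
  | zero =>
    intro j P Q hj _ _ _ b x hb hbx hx hx'
    exfalso
    have hj' : (j : ℝ) = 17 - b2l := by
      have : j + b2l = 17 := by omega
      have : (j : ℝ) + b2l = 17 := by exact_mod_cast this
      linarith
    rw [hj'] at hx'
    linarith [hd.u1]
  | succ m ih =>
    intro j P Q hj hP hQ h b x hb hbx hx hx'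
    rw [lpL_succ] at h
    have hjk : j ≤ 16 - b2l := by omega
    have hk : b2l ≤ 16 - j := by omega
    have ekj : ((16 - j : ℕ) : ℝ) = 16 - (j : ℝ) := by
      rw [Nat.cast_sub (by omega)]
      norm_num
    have p1 := P_ok hd hcf h1 h2 hk (by omega) h5 h6 h7
    rw [ekj] at p1
    -- monotonicity
    have hz : -Dq (Hs g5) (qb + 1 - q0) (1 / 2 - (16 - (j : ℝ)) / 40) ≤
        -Dq (Hs g5) (qb + 1 - q0) (1 / 2 - x) := by
      have hj0 : (0 : ℝ) ≤ j := Nat.cast_nonneg _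
      have z := D5_zone0 (s := Hs g5) (u0 := qb + 1 / 2 - q0) (u := -((16 - (j : ℝ)) / 40))
        (v := -x) (Hs_nonneg g5) (by linarith) hu1 (by linarith) (by linarith) (by linarith)
      rwa [show 1 / 2 + (qb + 1 / 2 - q0) = qb + 1 - q0 by ring, ← sub_eq_add_neg,
        ← sub_eq_add_neg] at z
    have hP' : (P : ℝ) ≤ (Pk d cf ug b2l (16 - j) : ℕ) := by exact_mod_cast hP
    have hQ' : (Q : ℝ) ≤ ((∑ i ∈ Finset.Ico j (qf - 1), T d i : ℕ) : ℝ) := by exact_mod_cast hQ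
    have eN : 4 * (ug * hl d.eh d.s5h) + 2 * ((b2l - ug) * hl d.eh d.s5l) + 1048576 +
        2 * ((16 - j - b2l) * hl d.eh d.s5l) = Nk d ug b2l (16 - j) + 1048576 := by
      unfold Nk
      omega
    rw [eN] at h
    have h0 := cond_or h
    rcases h0 with h0 | h0
    · left
      have h0' : Nk d ug b2l (16 - j) + 1048576 < P := Nat.le_of_ble_eq_true h0
      have h0'' : ((Nk d ug b2l (16 - j) : ℕ) : ℝ) + 1048576 < P := by exact_mod_cast h0'
      have : 0 < 80 * UU * -Dq (Hs g5) (qb + 1 - q0) (1 / 2 - (16 - (j : ℝ)) / 40) := by linarith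
      exact lt_of_lt_of_le (pos_of_mul_pos_right this (by linarith)) hz
    · obtain ⟨h8, h9⟩ := cond_and h0
      obtain ⟨h10, h11⟩ := cond_and h8
      have hkb : kb ≤ 2 := Nat.le_of_ble_eq_true h10
      rcases le_or_gt x ((16 - ((j + 1 : ℕ) : ℝ)) / 40) with hxx | hxx
      · refine ih (j + 1) _ _ (by omega) ?_ ?_ h9 b x hb hbx hx hxx
        · -- the positive part
          rcases Nat.eq_zero_or_pos (16 - j - b2l) with h12 | h12
          · have e1 : Pk d cf ug b2l (16 - (j + 1)) = Pk d cf ug b2l (16 - j) := by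
              unfold Pk
              rw [show 16 - (j + 1) - b2l = 16 - j - b2l by omega]
            rw [e1]
            omega
          · obtain ⟨r, hr⟩ := Nat.exists_eq_succ_of_ne_zero h12.ne'
            have e1 : 16 - (j + 1) - b2l = r := by omega
            have e2 := Rs_succ d.s5l b2l cf r
            have e3 : b2l + r + 1 = 16 - j := by omega
            have e4 : cond cf (b2l + r) (b2l + r + 1) = cond cf (15 - j) (16 - j) := by
              cases cf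
              · exact e3
              · show b2l + r = 15 - j
                omega
            rw [e3] at e2
            rw [e3] at e4
            rw [e4] at e2
            unfold Pk at hP ⊢
            rw [e1]
            rw [hr, Nat.succ_eq_add_one, e2] at hP
            omega
        · -- the part of `D2`
          rcases le_or_gt (qf - 1) j with h13 | h13
          · rw [Finset.Ico_eq_empty_of_le h13, Finset.sum_empty] at hQ
            have : Q = 0 := by omega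
            rw [this, Nat.zero_sub]
            exact Nat.zero_le _
          · rw [Finset.sum_eq_sum_Ico_succ_bot h13] at hQ
            have e1 : T d j = 2 * (hl d.bl d.s2h - (100 + hl (tn (10 * (j + 2)) + 1) d.s2h)) := rfl
            rw [e1] at hQ
            omega
      · right
        refine ⟨hkb, ?_⟩
        push_cast at hxx
        have hx0 : 0 ≤ x := by linarith
        have q1 := Q_ok hd (j := j) hqf hb (by linarith) (by linarith)
        have h11' : Nk d ug b2l (16 - j) + 1048576 < P + Q := Nat.le_of_ble_eq_true h11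
        have h11'' : ((Nk d ug b2l (16 - j) : ℕ) : ℝ) + 1048576 < (P : ℝ) + Q := by
          exact_mod_cast h11'
        have : 0 < 80 * UU * (Dq s2 qb b +
            -Dq (Hs g5) (qb + 1 - q0) (1 / 2 - (16 - (j : ℝ)) / 40)) := by
          rw [mul_add]
          linarith
        have := pos_of_mul_pos_right this (by linarith)
        linarith

theorem recQ (d : Dx) (n : ℕ) : (Nat.rec 0 (fun i ih => Nat.add ih (Nat.mul 2
    (Nat.sub (hl d.bl d.s2h) (Nat.add 100 (hl (Nat.succ (tn (Nat.mul 10 (Nat.add i 2))))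
      d.s2h))))) n : ℕ) = ∑ i ∈ Finset.Ico 0 n, T d i := by
  induction n with
  | zero => rfl
  | succ n ih =>
    rw [Finset.sum_Ico_succ_top (Nat.zero_le n), ← ih]
    rfl

end N9

/-- **The left part.** -/
theorem tS_ok {d : Dx} {kb : ℕ} {s1 s4 s3 s2 g5 p0 q0 qb : ℝ} (hkb : kb ≤ 3)
    (hd : d.Ok s1 s4 s3 s2 g5 p0 q0 qb) (h : tS d kb = true) :
    ∀ b u : ℝ, 0 ≤ b → b - 2 / 5 ≤ u → u ≤ -(qb + 1 / 2 - q0) →
      0 < -Dq (Hs g5) (qb + 1 - q0) (1 / 2 + u) ∨
      (kb ≤ 2 ∧ 0 < Dq s2 qb b + -Dq (Hs g5) (qb + 1 - q0) (1 / 2 + u)) := by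
  intro b u hb hbu hu
  obtain ⟨hu0, hu1⟩ := N9.u_half hd
  unfold tS at h
  rcases cond_or h with h1 | h1
  · -- only the point `u = -2/5 = -u0`
    left
    have h2 : 16 * 1048576 ≤ 40 * d.ul := Nat.le_of_ble_eq_true h1
    have h3 : (16 : ℝ) * 1048576 ≤ 40 * d.ul := by exact_mod_cast h2
    have h4 : u = -(qb + 1 / 2 - q0) := by linarith [hd.u1]
    have e1 : 1 / 2 + u = 1 - (qb + 1 - q0) := by
      rw [h4]
      ring
    rw [e1, Dq_twice (N9.Hs_nonneg g5)]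
    have k1 := Dq_refl (Hs g5) (qb + 1 - q0) (1 / 2)
    rw [show (1 : ℝ) - 1 / 2 = 1 / 2 by norm_num] at k1
    have k2 := Dq_pos (s := Hs g5) (x0 := 1 - (qb + 1 - q0)) (x := 1 / 2) (N9.Hs_nonneg g5)
      (by linarith) (by linarith) (by norm_num) le_rfl (by
        intro h5
        linarith)
    linarith
  · rcases le_or_gt (16 * 1048576) (40 * d.ul) with h2 | h2
    · -- as before
      left
      have h3 : (16 : ℝ) * 1048576 ≤ 40 * d.ul := by exact_mod_cast h2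
      have h4 : u = -(qb + 1 / 2 - q0) := by linarith [hd.u1]
      have e1 : 1 / 2 + u = 1 - (qb + 1 - q0) := by
        rw [h4]
        ring
      rw [e1, Dq_twice (N9.Hs_nonneg g5)]
      have k1 := Dq_refl (Hs g5) (qb + 1 - q0) (1 / 2)
      rw [show (1 : ℝ) - 1 / 2 = 1 / 2 by norm_num] at k1
      have k2 := Dq_pos (s := Hs g5) (x0 := 1 - (qb + 1 - q0)) (x := 1 / 2) (N9.Hs_nonneg g5)
        (by linarith) (by linarith) (by norm_num) le_rfl (by
          intro h5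
          linarith)
      linarith
    · unfold tSc at h1
      simp only [fN_eq] at h1
      obtain ⟨c1, h1⟩ := cond_and h1
      obtain ⟨c2, h1⟩ := cond_and h1
      obtain ⟨c3, h1⟩ := cond_and h1
      set ug := Nat.div (Nat.mul 40 d.ul) 1048576 with hug
      set b2l := Nat.div (Nat.add (Nat.mul 40 d.ul) 1048575) 1048576 with hb2l
      set qf := Nat.div (Nat.mul 40 d.ql) 1048576 with hqf
      have g1 : ug * 1048576 ≤ 40 * d.ul := Nat.div_mul_le_self _ _
      have g2 : b2l * 1048576 ≤ 40 * d.ul + 1048575 := Nat.div_mul_le_self _ _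
      have g3 : ug ≤ b2l := Nat.div_le_div_right (Nat.le_add_right _ _)
      have g4 : b2l ≤ 16 := by omega
      have g5' : qf * 1048576 ≤ 40 * d.ql := Nat.div_mul_le_self _ _
      have g6 : (qf : ℝ) * 1048576 ≤ 40 * d.ql := by exact_mod_cast g5'
      have g7 : (qf : ℝ) / 40 ≤ qb := by linarith [hd.q1]
      rw [N9.recQ] at h1
      have fin := N9.lpL_ok (kb := kb) (qf := qf) hd rfl g1 g3 g4 (by omega) g7
        (Nat.le_of_ble_eq_true c1) (Nat.le_of_ble_eq_true c2) (Nat.le_of_ble_eq_true c3)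
        (Nat.succ (Nat.sub 16 b2l)) 0 _ _ (by
          show 0 + (16 - b2l + 1) = 17 - b2l
          omega) ?_ ?_ h1 b (-u) hb (by linarith) (by linarith) (by
          push_cast
          linarith)
      · rwa [sub_neg_eq_add] at fin
      · unfold N9.Pk N9.Rs
        show _ ≤ 2 * trs (l5 d.s5h) 0 ug + 2 * ((b2l - ug) * l5 d.s5l b2l) + _
        apply le_of_eq
        rfl
      · exact le_rfl

end Pool.Agent.S5.Y3
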