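import Pool.Agent.S5.I.Y3Nx

/-!
# The flats of a node with three half twists: the data of a box
-/

set_option autoImplicit false

namespace Pool.Agent.S5.Y3

open MeasureTheory Filter Topology Set Pool.Agent.S5.C2 Pool.Agent.S5.Num Pool.Agent.S5.K3

theorem bx3_ok {o : OutB} {k : Dx → Bool} {ly lb ys zs bs : ℂ} (h : bx3 o k = true)
    (ho : o.In5 ly lb ys zs bs) :
    ∃ d : Dx, k d = true ∧ d.Ok (Hs ys.im) (Hs zs.im) (Hs (ys.im - zs.im)) (Hs bs.im) |bs.im + zs.im|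
      (1 / 2 - ys.re) (1 / 2 + zs.re) (1 / 2 - bs.re) := by
  obtain ⟨-, -, ⟨⟨y1, y2⟩, ⟨y3, y4⟩⟩, ⟨⟨z1, z2⟩, ⟨z3, z4⟩⟩, ⟨⟨b1, b2⟩, ⟨b3, b4⟩⟩⟩ := ho
  unfold bx3 at h
  obtain ⟨pl, e_pl, h⟩ := Nb.fx h
  obtain ⟨ph, e_ph, h⟩ := Nb.fx h
  obtain ⟨ql, e_ql, h⟩ := Nb.fx h
  obtain ⟨qh, e_qh, h⟩ := Nb.fx h
  obtain ⟨tl, e_tl, h⟩ := Nb.fx h
  obtain ⟨th, e_th, h⟩ := Nb.fx h
  obtain ⟨ul, e_ul, h⟩ := Nb.fx h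
  obtain ⟨uh, e_uh, h⟩ := Nb.fx h
  obtain ⟨tm, e_tm, h⟩ := Nb.fx h
  obtain ⟨sm, e_sm, h⟩ := Nb.fx h
  obtain ⟨m1, e_m1, h⟩ := Nb.fx h
  obtain ⟨m4, e_m4, h⟩ := Nb.fx h
  obtain ⟨m3, e_m3, h⟩ := Nb.fx h
  obtain ⟨m2, e_m2, h⟩ := Nb.fx h
  obtain ⟨m5, e_m5, h⟩ := Nb.fx h
  obtain ⟨g5, e_g5, h⟩ := Nb.fx h
  obtain ⟨h3l, e_h3l, h⟩ := Nb.fx h
  obtain ⟨h3h, e_h3h, h⟩ := Nb.fx h
  obtain ⟨c_pl, h⟩ := cond_and h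
  obtain ⟨c_ph, h⟩ := cond_and h
  obtain ⟨c_ql, h⟩ := cond_and h
  obtain ⟨c_qh, h⟩ := cond_and h
  obtain ⟨c_tl, h⟩ := cond_and h
  obtain ⟨c_th, h⟩ := cond_and h
  obtain ⟨c_sm, h⟩ := cond_and h
  obtain ⟨c_m1, h⟩ := cond_and h
  obtain ⟨c_m4, h⟩ := cond_and h
  obtain ⟨c_m3, h⟩ := cond_and h
  obtain ⟨c_m2, h⟩ := cond_and h
  obtain ⟨c_m5, h⟩ := cond_and h
  obtain ⟨c_ul, h⟩ := cond_and h
  obtain ⟨c_uh, h⟩ := cond_and h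
  obtain ⟨al, e_al, h⟩ := Nb.fx h
  obtain ⟨ah, e_ah, h⟩ := Nb.fx h
  obtain ⟨cl, e_cl, h⟩ := Nb.fx h
  obtain ⟨ch, e_ch, h⟩ := Nb.fx h
  obtain ⟨dl, e_dl, h⟩ := Nb.fx h
  obtain ⟨dh, e_dh, h⟩ := Nb.fx h
  obtain ⟨s1l, e_s1l, h⟩ := Nb.fx h
  obtain ⟨s1h, e_s1h, h⟩ := Nb.fx h
  obtain ⟨s3l, e_s3l, h⟩ := Nb.fx h
  obtain ⟨s3h, e_s3h, h⟩ := Nb.fx h
  obtain ⟨s4l, e_s4l, h⟩ := Nb.fx h
  obtain ⟨s4h, e_s4h, h⟩ := Nb.fx h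
  obtain ⟨bl, e_bl, h⟩ := Nb.fx h
  obtain ⟨bh, e_bh, h⟩ := Nb.fx h
  obtain ⟨s2h, e_s2h, h⟩ := Nb.fx h
  obtain ⟨el, e_el, h⟩ := Nb.fx h
  obtain ⟨eh, e_eh, h⟩ := Nb.fx h
  obtain ⟨s5l, e_s5l, h⟩ := Nb.fx h
  obtain ⟨s5m, e_s5m, h⟩ := Nb.fx h
  obtain ⟨s5h, e_s5h, h⟩ := Nb.fx h
  replace c_pl := Nat.le_of_ble_eq_true c_pl
  replace c_ph := Nat.le_of_ble_eq_true c_ph
  replace c_ql := Nat.le_of_ble_eq_true c_ql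
  replace c_qh := Nat.le_of_ble_eq_true c_qh
  replace c_tl := Nat.le_of_ble_eq_true c_tl
  replace c_th := Nat.le_of_ble_eq_true c_th
  replace c_sm := Nat.le_of_ble_eq_true c_sm
  replace c_m1 := Nat.le_of_ble_eq_true c_m1
  replace c_m4 := Nat.le_of_ble_eq_true c_m4
  replace c_m3 := Nat.le_of_ble_eq_true c_m3
  replace c_m2 := Nat.le_of_ble_eq_true c_m2
  replace c_m5 := Nat.le_of_ble_eq_true c_m5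
  replace c_ul := Nat.le_of_ble_eq_true c_ul
  replace c_uh := Nat.le_of_ble_eq_true c_uh
  have hpl := Nb.posl e_pl c_pl y2
  have hph := Nb.posh e_ph y1
  have hql := Nb.posl e_ql c_ql b2
  have hqh := Nb.posh e_qh b1
  have htl := Nb.tll e_tl hpl z1
  have hth := Nb.thh e_th hph z2
  have hul := Nb.ull e_ul c_ul hql z2
  have huh := Nb.uhh e_uh hqh z1
  rw [← e_h3l, ← e_h3h] at e_m3
  obtain ⟨T1, T2, T3⟩ := Nb.ivg Nb.F26 htl hth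
  rw [← e_tm] at T2 T3
  obtain ⟨R1, R2, R3⟩ := Nb.iv26 e_sm z1 z2
  obtain ⟨Y1, Y2, Y3⟩ := Nb.iv26 e_m1 y3 y4
  obtain ⟨Z1, Z2, Z3⟩ := Nb.iv26 e_m4 z3 z4
  obtain ⟨B1, B2, B3⟩ := Nb.iv26 e_m2 b3 b4
  obtain ⟨D1, D2, D3⟩ := Nb.iv3 e_h3l e_h3h e_m3 c_m3 y3 y4 z3 z4
  obtain ⟨G1, G2, G3⟩ := Nb.iv27 e_m5 e_g5 b3 b4 z3 z4
  have htm := Nb.tmle e_tm c_tl c_th
  have hsm : sm ≤ 524288 := c_sm.trans (by norm_num)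
  have hpp : pl ≤ ph := Nat.cast_le.1 (hpl.trans hph)
  have hqq : ql ≤ qh := Nat.cast_le.1 (hql.trans hqh)
  have huu : ul ≤ uh := Nat.cast_le.1 (hul.trans huh)
  have hc : (524287 : ℕ) ≤ 524288 := by norm_num
  obtain ⟨fB, aT, aR⟩ := Nb.bpk (Nb.Hs_nonneg ys.im) (Nb.Hs_nonneg zs.im)
    (Nb.Hs_nonneg (ys.im - zs.im)) c_pl c_ph c_tl c_th c_sm hpl hph htl hth R2
  obtain ⟨f9, f10⟩ := Nb.qbk c_ql c_qh hql hqh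
  obtain ⟨aU1, aU2, aU⟩ := Nb.ubk c_ul c_uh hul huh
  obtain ⟨fo1, fo2⟩ := Nb.o12 z1 z2
  have eT : 1 / 2 - ys.re + (1 / 2 + zs.re) = 1 / 2 + (1 / 2 - ys.re + (1 / 2 + zs.re) - 1 / 2) := by
    ring
  have eU : 1 / 2 - bs.re + 1 - (1 / 2 + zs.re) =
      1 / 2 + (1 / 2 - bs.re + 1 / 2 - (1 / 2 + zs.re)) := by
    ring
  have N20 : ∀ a : ℕ, Nat.sub 1048576 a ≤ 1048576 := fun a => Nb.nsub_le' _ _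
  have f1 := (hpp.trans c_ph).trans hc
  have f2 := c_ph.trans hc
  have f3 := (hqq.trans c_qh).trans hc
  have f4 := c_qh.trans hc
  have f5 := (huu.trans c_uh).trans hc
  have f6 := c_uh.trans hc
  exact ⟨_, h,
    { B := fB
      a1 := Nb.le1 e_al (Nb.snL_r f1 hpl fB.hp1.le)
      a2 := Nb.le2 e_ah (Nb.snH_r f2 fB.hp0.le hph)
      c1 := Nb.le4 e_cl eT (Nb.cl_r htm T2)
      c2 := Nb.le5 e_ch eT (Nb.ch_r (T3.trans htm) T1 aT)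
      d1 := Nb.le1 e_dl (Nb.cl_r hsm R2)
      d2 := Nb.le2 e_dh (Nb.ch_r (R3.trans hsm) R1 aR)
      s11 := Nb.le1 e_s1l (Nb.shL_r (Y3.trans c_m1) Y1)
      s12 := Nb.le2 e_s1h (Nb.shH_r c_m1 Y2)
      s31 := Nb.le1 e_s3l (Nb.shL_r (D3.trans c_m3) D1)
      s32 := Nb.le2 e_s3h (Nb.shH_r c_m3 D2)
      s41 := Nb.le1 e_s4l (Nb.shL_r (Z3.trans c_m4) Z1)
      s42 := Nb.le2 e_s4h (Nb.shH_r c_m4 Z2)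
      p1 := hpl
      t1 := htl
      t2 := hth
      o1 := fo1
      o2 := fo2
      b0 := f9
      b0' := f10
      b1 := Nb.le1 e_bl (Nb.snL_r f3 hql f10.le)
      b2 := Nb.le2 e_bh (Nb.snH_r f4 f9.le hqh)
      s20 := Nb.Hs_nonneg _
      s22 := Nb.le2 e_s2h (Nb.shH_r c_m2 B2)
      q1 := hql
      q2 := hqh
      q3 := c_qh
      u1 := hul
      u2 := huh
      u3 := c_ul
      u4 := c_uh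
      e1 := Nb.le4 e_el eU (Nb.cl_r f6 aU1)
      e2 := Nb.le5 e_eh eU (Nb.ch_r f5 aU2 aU)
      g0 := abs_nonneg _
      g1 := (Nb.gab _) ▸ G1
      g2 := (Nb.gab _) ▸ G2
      g3 := c_m5
      s51 := Nb.le1 e_s5l ((Nb.Hs_abs _).symm ▸ Nb.shL_r (G3.trans c_m5) G1)
      s52 := Nb.le2 e_s5h ((Nb.Hs_abs _).symm ▸ Nb.shH_r c_m5 G2)
      m1 := Nb.le1 e_s5m (shL_ok c_m5)
      m2 := Nb.le2 e_s5h (shH_ok c_m5)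
      l1 := ⟨Nb.le3 e_al (Nb.snL_le f1), Nb.le3 e_cl (N20 _), Nb.le3 e_dl (N20 _),
        Nb.le3 e_bl (Nb.snL_le f3), Nb.le3 e_el (N20 _)⟩
      l2 := ⟨Nb.le3 e_ah (Nb.snH_le f2), Nb.le3 e_ch (N20 _), Nb.le3 e_dh (N20 _),
        Nb.le3 e_bh (Nb.snH_le f4), Nb.le3 e_eh (N20 _)⟩
      l3 := ⟨Nb.le3 e_s1h (Nb.shH_le c_m1), Nb.le3 e_s3h (Nb.shH_le c_m3),
        Nb.le3 e_s4h (Nb.shH_le c_m4), Nb.le3 e_s2h (Nb.shH_le c_m2), Nb.le3 e_s5h (Nb.shH_le c_m5)⟩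
      l4 := hpp.trans c_ph }⟩

end Pool.Agent.S5.Y3
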