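import Pool.Agent.S5.I.Quad

/-!
# The quadratic bounds of the nodes with a lattice variable
-/

set_option autoImplicit false

namespace Pool.Agent.S5

open Pool.Agent.H63.VC3 Pool.Agent.S3 Complex MeasureTheory Filter Topology Set

/-- The quadratic form in terms of the second derivatives of the defects: `w` is the weight of the
slot `b`, `D` the second derivative of the remaining defect. -/
theorem chain_bound {A B C D F w l ε y z b d1 d2 d3 d4 d5 : ℝ} (hw : 0 ≤ w) (hw2 : w ≤ 2)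
    (hl : 0 < l) (hε : ε = l / 10)
    (hq : l * (y ^ 2 + z ^ 2 + b ^ 2) ≤
      2 * A * y ^ 2 + C * (y - z) ^ 2 + D * z ^ 2 + w * B * b ^ 2 + F * (z + b) ^ 2)
    (h1 : d1 ≤ -((A - ε) / 2 * y ^ 2)) (h2 : d2 ≤ -((B - ε) / 2 * b ^ 2))
    (h3 : d3 ≤ -((C - ε) / 2 * (y - z) ^ 2)) (h4 : d4 ≤ -((D - ε) / 2 * z ^ 2))
    (h5 : d5 ≤ -((F - ε) / 2 * (z + b) ^ 2)) :
    2 * d1 + w * d2 + d3 + d4 + d5 ≤ -(l / 4 * (y ^ 2 + z ^ 2 + b ^ 2)) := by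
  have e2 := mul_le_mul_of_nonneg_left h2 hw
  have e3 : ε * (2 * y ^ 2 + w * b ^ 2 + (y - z) ^ 2 + z ^ 2 + (z + b) ^ 2) ≤
      l / 2 * (y ^ 2 + z ^ 2 + b ^ 2) := by
    rw [hε]
    have e4 : 2 * y ^ 2 + w * b ^ 2 + (y - z) ^ 2 + z ^ 2 + (z + b) ^ 2 ≤
        5 * (y ^ 2 + z ^ 2 + b ^ 2) := by
      nlinarith [sq_nonneg (y + z), sq_nonneg (z - b), sq_nonneg b, sq_nonneg y, sq_nonneg z,
        mul_le_mul_of_nonneg_right hw2 (sq_nonneg b)]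
    have := mul_le_mul_of_nonneg_left e4 (show 0 ≤ l / 10 by positivity)
    linarith
  nlinarith

section crit

variable {ys zs bs : ℂ}

/-- **Three half twists, two slots.** -/
theorem quad_z32 (ha : Kok (1 / 2 - ys)) (hb : Kok (1 / 2 - bs)) (hc : Kok (ys - zs))
    (hd : Kok (zs + 1 / 2)) (hf : Kok (zs + bs))
    (h1 : 0 < 2 * Kc (1 / 2 - ys) + Kc (ys - zs)) (h2 : 0 < Kc (1 / 2 - bs) + Kc (zs + bs))
    (h3 : 0 < 2 * Kc (1 / 2 - ys) * Kc (ys - zs) / (2 * Kc (1 / 2 - ys) + Kc (ys - zs)) +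
      Kc (1 / 2 - bs) * Kc (zs + bs) / (Kc (1 / 2 - bs) + Kc (zs + bs)) + Kc (zs + 1 / 2)) :
    ∃ c : ℝ, 0 < c ∧ ∃ ρ : ℝ, 0 < ρ ∧ ∀ s x t : ℝ, |s| ≤ ρ → |x| ≤ ρ → |t| ≤ ρ →
      Ez3 ys zs bs (ys + s) (zs + x) (bs + t) ≤ -(c * (s ^ 2 + x ^ 2 + t ^ 2)) := by
  obtain ⟨A, hA⟩ : ∃ A, A = Kc (1 / 2 - ys) := ⟨_, rfl⟩
  obtain ⟨B, hB⟩ : ∃ B, B = Kc (1 / 2 - bs) := ⟨_, rfl⟩
  obtain ⟨C, hC⟩ : ∃ C, C = Kc (ys - zs) := ⟨_, rfl⟩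
  obtain ⟨D, hD⟩ : ∃ D, D = Kc (zs + 1 / 2) := ⟨_, rfl⟩
  obtain ⟨F, hF⟩ : ∃ F, F = Kc (zs + bs) := ⟨_, rfl⟩
  rw [← hA, ← hC] at h1
  rw [← hB, ← hF] at h2
  rw [← hA, ← hB, ← hC, ← hD, ← hF] at h3
  obtain ⟨l, hl, hq⟩ := posdef_chain h1 h2 h3
  have hε : 0 < l / 10 := by positivity
  obtain ⟨ρ1, p1, t1⟩ := Td_near' ha hε
  obtain ⟨ρ2, p2, t2⟩ := Td_near' hb hε
  obtain ⟨ρ3, p3, t3⟩ := Td_near' hc hε
  obtain ⟨ρ4, p4, t4⟩ := Td_near' hd hε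
  obtain ⟨ρ5, p5, t5⟩ := Td_near' hf hε
  rw [← hA] at t1
  rw [← hB] at t2
  rw [← hC] at t3
  rw [← hD] at t4
  rw [← hF] at t5
  obtain ⟨ρ, hρ⟩ : ∃ ρ, ρ = min (min ρ1 ρ2) (min (min (ρ3 / 2) ρ4) (ρ5 / 2)) := ⟨_, rfl⟩
  have r0 : 0 < ρ := by rw [hρ]; positivity
  have r1 : ρ ≤ ρ1 := by rw [hρ]; exact (min_le_left _ _).trans (min_le_left _ _)
  have r2 : ρ ≤ ρ2 := by rw [hρ]; exact (min_le_left _ _).trans (min_le_right _ _)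
  have r3 : ρ ≤ ρ3 / 2 := by
    rw [hρ]; exact (min_le_right _ _).trans ((min_le_left _ _).trans (min_le_left _ _))
  have r4 : ρ ≤ ρ4 := by
    rw [hρ]; exact (min_le_right _ _).trans ((min_le_left _ _).trans (min_le_right _ _))
  have r5 : ρ ≤ ρ5 / 2 := by rw [hρ]; exact (min_le_right _ _).trans (min_le_right _ _)
  refine ⟨l / 4, by positivity, ρ, r0, fun s x t hs hx ht => ?_⟩
  have u1 := t1 (-s) (1 / 2 - (ys + s)) (by rw [abs_neg]; linarith) (by push_cast; ring)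
  have u2 := t2 (-t) (1 / 2 - (bs + t)) (by rw [abs_neg]; linarith) (by push_cast; ring)
  have u3 := t3 (s - x) (ys + s - (zs + x)) ((abs_sub s x).trans (by linarith))
    (by push_cast; ring)
  have u4 := t4 x (zs + x + 1 / 2) (by linarith) (by ring)
  have u5 := t5 (x + t) (zs + x + (bs + t)) ((abs_add_le x t).trans (by linarith))
    (by push_cast; ring)
  rw [neg_sq] at u1 u2
  have hq' : l * (s ^ 2 + x ^ 2 + t ^ 2) ≤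
      2 * A * s ^ 2 + C * (s - x) ^ 2 + D * x ^ 2 + 1 * B * t ^ 2 + F * (x + t) ^ 2 := by
    rw [one_mul]; exact hq s x t
  have := chain_bound (w := 1) zero_le_one one_le_two hl rfl hq' u1 u2 u3 u4 u5
  have g1 : (((ys + s - ys) + (zs + x - zs)) ^ 2 : ℂ).im = 0 := by
    have : ((ys + s - ys) + (zs + x - zs)) ^ 2 = (((s + x) ^ 2 : ℝ) : ℂ) := by push_cast; ring
    rw [this, ofReal_im]
  have g2 : ((zs + x - zs) * (bs + t - bs) : ℂ).im = 0 := by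
    have : (zs + x - zs) * (bs + t - bs) = ((x * t : ℝ) : ℂ) := by push_cast; ring
    rw [this, ofReal_im]
  unfold Ez3
  rw [g1, g2, mul_zero, mul_zero, add_zero, sub_zero]
  linarith

/-- Three half twists, the slot of the Bailey step is fixed. -/
theorem quad_z3b (hb : Kok (1 / 2 - bs)) (hc : Kok (ys - zs))
    (hd : Kok (zs + 1 / 2)) (hf : Kok (zs + bs))
    (h1 : 0 < Kc (ys - zs) + Kc (zs + 1 / 2) + Kc (zs + bs))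
    (h2 : 0 < Kc (1 / 2 - bs) + Kc (zs + bs))
    (h3 : 0 < (Kc (ys - zs) + Kc (zs + 1 / 2)) * (Kc (1 / 2 - bs) + Kc (zs + bs)) +
      Kc (1 / 2 - bs) * Kc (zs + bs)) :
    ∃ c : ℝ, 0 < c ∧ ∃ ρ : ℝ, 0 < ρ ∧ ∀ x t : ℝ, |x| ≤ ρ → |t| ≤ ρ →
      Ez3 ys zs bs ys (zs + x) (bs + t) ≤ -(c * (x ^ 2 + t ^ 2)) := by
  obtain ⟨B, hB⟩ : ∃ B, B = Kc (1 / 2 - bs) := ⟨_, rfl⟩
  obtain ⟨C, hC⟩ : ∃ C, C = Kc (ys - zs) := ⟨_, rfl⟩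
  obtain ⟨D, hD⟩ : ∃ D, D = Kc (zs + 1 / 2) := ⟨_, rfl⟩
  obtain ⟨F, hF⟩ : ∃ F, F = Kc (zs + bs) := ⟨_, rfl⟩
  rw [← hC, ← hD, ← hF] at h1
  rw [← hB, ← hF] at h2
  rw [← hB, ← hC, ← hD, ← hF] at h3
  obtain ⟨l, hl, hq⟩ := posdef_two (P := C + D + F) (R := F) (S := B + F) h1 h2 (by nlinarith)
  have hε : 0 < l / 10 := by positivity
  obtain ⟨ρ2, p2, t2⟩ := Td_near' hb hε
  obtain ⟨ρ3, p3, t3⟩ := Td_near' hc hε
  obtain ⟨ρ4, p4, t4⟩ := Td_near' hd hε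
  obtain ⟨ρ5, p5, t5⟩ := Td_near' hf hε
  rw [← hB] at t2
  rw [← hC] at t3
  rw [← hD] at t4
  rw [← hF] at t5
  obtain ⟨ρ, hρ⟩ : ∃ ρ, ρ = min ρ2 (min (min ρ3 ρ4) (ρ5 / 2)) := ⟨_, rfl⟩
  have r0 : 0 < ρ := by rw [hρ]; positivity
  have r2 : ρ ≤ ρ2 := by rw [hρ]; exact min_le_left _ _
  have r3 : ρ ≤ ρ3 := by
    rw [hρ]; exact (min_le_right _ _).trans ((min_le_left _ _).trans (min_le_left _ _))
  have r4 : ρ ≤ ρ4 := by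
    rw [hρ]; exact (min_le_right _ _).trans ((min_le_left _ _).trans (min_le_right _ _))
  have r5 : ρ ≤ ρ5 / 2 := by rw [hρ]; exact (min_le_right _ _).trans (min_le_right _ _)
  refine ⟨l / 4, by positivity, ρ, r0, fun x t hx ht => ?_⟩
  have u2 := t2 (-t) (1 / 2 - (bs + t)) (by rw [abs_neg]; linarith) (by push_cast; ring)
  have u3 := t3 (-x) (ys - (zs + x)) (by rw [abs_neg]; linarith) (by push_cast; ring)
  have u4 := t4 x (zs + x + 1 / 2) (by linarith) (by ring)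
  have u5 := t5 (x + t) (zs + x + (bs + t)) ((abs_add_le x t).trans (by linarith))
    (by push_cast; ring)
  have g1 : (((ys - ys) + (zs + x - zs)) ^ 2 : ℂ).im = 0 := by
    have : ((ys - ys) + (zs + x - zs)) ^ 2 = ((x ^ 2 : ℝ) : ℂ) := by push_cast; ring
    rw [this, ofReal_im]
  have g2 : ((zs + x - zs) * (bs + t - bs) : ℂ).im = 0 := by
    have : (zs + x - zs) * (bs + t - bs) = ((x * t : ℝ) : ℂ) := by push_cast; ring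
    rw [this, ofReal_im]
  unfold Ez3
  rw [g1, g2, mul_zero, mul_zero, add_zero, sub_zero, Td_self, mul_zero, zero_add]
  have := hq x t
  nlinarith [sq_nonneg x, sq_nonneg t, sq_nonneg (x - t)]

/-- `VZ.quad` for `Ez3`, two slots. -/
theorem quad_z3 {sy sb : Slt} (ha : Kok (1 / 2 - sy.ys)) (hb : Kok (1 / 2 - sb.ys))
    (hc : Kok (sy.ys - zs)) (hd : Kok (zs + 1 / 2)) (hf : Kok (zs + sb.ys))
    (h1 : 0 < 2 * Kc (1 / 2 - sy.ys) + Kc (sy.ys - zs))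
    (h2 : 0 < Kc (1 / 2 - sb.ys) + Kc (zs + sb.ys))
    (h3 : 0 < 2 * Kc (1 / 2 - sy.ys) * Kc (sy.ys - zs) / (2 * Kc (1 / 2 - sy.ys) + Kc (sy.ys - zs)) +
      Kc (1 / 2 - sb.ys) * Kc (zs + sb.ys) / (Kc (1 / 2 - sb.ys) + Kc (zs + sb.ys)) +
        Kc (zs + 1 / 2)) :
    ∃ c : ℝ, 0 < c ∧ ∃ ρ : ℝ, 0 < ρ ∧ ∀ s x t : ℝ, |s| ≤ ρ → |x| ≤ ρ → |t| ≤ ρ →
      (sy.ex = false → s = 0) → (sb.ex = false → t = 0) →
      Ez3 sy.ys zs sb.ys (sy.ys + s) (zs + x) (sb.ys + t) ≤ -(c * (s ^ 2 + x ^ 2 + t ^ 2)) := by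
  obtain ⟨c, c0, ρ, ρ0, hq⟩ := quad_z32 ha hb hc hd hf h1 h2 h3
  exact ⟨c, c0, ρ, ρ0, fun s x t hs hx ht _ _ => hq s x t hs hx ht⟩

/-- `VZ.quad` for `Ez3`, the slot of the Bailey step is missing. -/
theorem quad_z3e {sy sb : Slt} (he : sy.ex = false) (hb : Kok (1 / 2 - sb.ys))
    (hc : Kok (sy.ys - zs)) (hd : Kok (zs + 1 / 2)) (hf : Kok (zs + sb.ys))
    (h1 : 0 < Kc (sy.ys - zs) + Kc (zs + 1 / 2) + Kc (zs + sb.ys))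
    (h2 : 0 < Kc (1 / 2 - sb.ys) + Kc (zs + sb.ys))
    (h3 : 0 < (Kc (sy.ys - zs) + Kc (zs + 1 / 2)) * (Kc (1 / 2 - sb.ys) + Kc (zs + sb.ys)) +
      Kc (1 / 2 - sb.ys) * Kc (zs + sb.ys)) :
    ∃ c : ℝ, 0 < c ∧ ∃ ρ : ℝ, 0 < ρ ∧ ∀ s x t : ℝ, |s| ≤ ρ → |x| ≤ ρ → |t| ≤ ρ →
      (sy.ex = false → s = 0) → (sb.ex = false → t = 0) →
      Ez3 sy.ys zs sb.ys (sy.ys + s) (zs + x) (sb.ys + t) ≤ -(c * (s ^ 2 + x ^ 2 + t ^ 2)) := by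
  obtain ⟨c, c0, ρ, ρ0, hq⟩ := quad_z3b hb hc hd hf h1 h2 h3
  refine ⟨c, c0, ρ, ρ0, fun s x t _ hx ht hs _ => ?_⟩
  rw [hs he]
  have := hq x t hx ht
  simpa using this

/-- **Four half twists, two slots**: `VZ.quad` for `Ez4`. -/
theorem quad_z4 {sy sb : Slt} (ha : Kok (1 / 2 - sy.ys)) (hb : Kok (1 / 2 - sb.ys))
    (hc : Kok (sy.ys - zs)) (hf : Kok (zs + sb.ys))
    (h1 : 0 < 2 * Kc (1 / 2 - sy.ys) + Kc (sy.ys - zs))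
    (h2 : 0 < 2 * Kc (1 / 2 - sb.ys) + Kc (zs + sb.ys))
    (h3 : 0 < 2 * Kc (1 / 2 - sy.ys) * Kc (sy.ys - zs) / (2 * Kc (1 / 2 - sy.ys) + Kc (sy.ys - zs)) +
      2 * Kc (1 / 2 - sb.ys) * Kc (zs + sb.ys) / (2 * Kc (1 / 2 - sb.ys) + Kc (zs + sb.ys))) :
    ∃ c : ℝ, 0 < c ∧ ∃ ρ : ℝ, 0 < ρ ∧ ∀ s x t : ℝ, |s| ≤ ρ → |x| ≤ ρ → |t| ≤ ρ →
      (sy.ex = false → s = 0) → (sb.ex = false → t = 0) →
      Ez4 sy.ys zs sb.ys (sy.ys + s) (zs + x) (sb.ys + t) ≤ -(c * (s ^ 2 + x ^ 2 + t ^ 2)) := by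
  obtain ⟨A, hA⟩ : ∃ A, A = Kc (1 / 2 - sy.ys) := ⟨_, rfl⟩
  obtain ⟨B, hB⟩ : ∃ B, B = Kc (1 / 2 - sb.ys) := ⟨_, rfl⟩
  obtain ⟨C, hC⟩ : ∃ C, C = Kc (sy.ys - zs) := ⟨_, rfl⟩
  obtain ⟨F, hF⟩ : ∃ F, F = Kc (zs + sb.ys) := ⟨_, rfl⟩
  rw [← hA, ← hC] at h1
  rw [← hB, ← hF] at h2
  rw [← hA, ← hB, ← hC, ← hF] at h3
  obtain ⟨l, hl, hq⟩ := posdef_chain (D := 0) h1 h2 (by rw [add_zero]; exact h3)
  have hε : 0 < l / 10 := by positivity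
  obtain ⟨ρ1, p1, t1⟩ := Td_near' ha hε
  obtain ⟨ρ2, p2, t2⟩ := Td_near' hb hε
  obtain ⟨ρ3, p3, t3⟩ := Td_near' hc hε
  obtain ⟨ρ5, p5, t5⟩ := Td_near' hf hε
  rw [← hA] at t1
  rw [← hB] at t2
  rw [← hC] at t3
  rw [← hF] at t5
  obtain ⟨ρ, hρ⟩ : ∃ ρ, ρ = min (min ρ1 ρ2) (min (ρ3 / 2) (ρ5 / 2)) := ⟨_, rfl⟩
  have r0 : 0 < ρ := by rw [hρ]; positivity
  have r1 : ρ ≤ ρ1 := by rw [hρ]; exact (min_le_left _ _).trans (min_le_left _ _)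
  have r2 : ρ ≤ ρ2 := by rw [hρ]; exact (min_le_left _ _).trans (min_le_right _ _)
  have r3 : ρ ≤ ρ3 / 2 := by rw [hρ]; exact (min_le_right _ _).trans (min_le_left _ _)
  have r5 : ρ ≤ ρ5 / 2 := by rw [hρ]; exact (min_le_right _ _).trans (min_le_right _ _)
  refine ⟨l / 4, by positivity, ρ, r0, fun s x t hs hx ht _ _ => ?_⟩
  have u1 := t1 (-s) (1 / 2 - (sy.ys + s)) (by rw [abs_neg]; linarith) (by push_cast; ring)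
  have u2 := t2 (-t) (1 / 2 - (sb.ys + t)) (by rw [abs_neg]; linarith) (by push_cast; ring)
  have u3 := t3 (s - x) (sy.ys + s - (zs + x)) ((abs_sub s x).trans (by linarith))
    (by push_cast; ring)
  have u5 := t5 (x + t) (zs + x + (sb.ys + t)) ((abs_add_le x t).trans (by linarith))
    (by push_cast; ring)
  rw [neg_sq] at u1 u2
  have hq' : l * (s ^ 2 + x ^ 2 + t ^ 2) ≤
      2 * A * s ^ 2 + C * (s - x) ^ 2 + 0 * x ^ 2 + 2 * B * t ^ 2 + F * (x + t) ^ 2 := hq s x t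
  have u4 : (0 : ℝ) ≤ -((0 - l / 10) / 2 * x ^ 2) := by
    have := sq_nonneg x
    nlinarith
  have := chain_bound (w := 2) zero_le_two le_rfl hl rfl hq' u1 u2 u3 u4 u5
  have g1 : (((sy.ys + s - sy.ys) + (zs + x - zs)) ^ 2 : ℂ).im = 0 := by
    have : ((sy.ys + s - sy.ys) + (zs + x - zs)) ^ 2 = (((s + x) ^ 2 : ℝ) : ℂ) := by
      push_cast; ring
    rw [this, ofReal_im]
  have g2 : (((zs + x - zs) - (sb.ys + t - sb.ys)) ^ 2 : ℂ).im = 0 := by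
    have : ((zs + x - zs) - (sb.ys + t - sb.ys)) ^ 2 = (((x - t) ^ 2 : ℝ) : ℂ) := by
      push_cast; ring
    rw [this, ofReal_im]
  unfold Ez4
  rw [g1, g2, mul_zero, add_zero, add_zero]
  linarith

end crit

end Pool.Agent.S5
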