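import Pool.Agent.S5.I.LowD

/-!
# Low edges: tests on integers
-/

set_option autoImplicit false

namespace Pool.Agent.S5

open Pool.Agent.H63.VC3 Pool.Agent.S3 Complex MeasureTheory Filter Topology Set

/-- Lower bounds of `Lb (n / 200)` in units of `1 / 100000`. -/
def tbL : List ℤ :=
  [-100000, -100000, -100000, -100000, -100000, -100000, -100000, -100000, 9527, 10189, 10796, 11353,
    11865, 12335, 12768, 13166, 13530, 13865, 14170, 14449, 14702, 14930, 15136, 15320,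
    15483, 15626, 15751, 15857, 15946, 16018, 16074, 16115, 16140, 16152, 16150, 16134,
    16106, 16065, 16013, 15948, 15873, 15787, 15690, 15583, 15467, 15340, 15205, 15061,
    14908, 14747, 14578, 14400, 14216, 14023, 13824, 13618, 13405, 13185, 12960, 12728,
    12490, 12247, 11998, 11743, 11484, 11220, 10950, 10676, 10398, 10115, 9828, 9537,
    9243, 8944, 8642, 8337, 8028, 7717, 7402, 7084, 6764, 6441, 6116, 5788,
    5459, 5127, 4793, 4458, 4121, 3782, 3442, 3101, 2758, 2415, 2071, 1726,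
    1380, 1034, 687, 340, 0]

def tb (n : ℕ) : ℤ := tbL.getD n (-100000)

theorem tb_aux {n : ℕ} {v : ℤ} {x c : ℝ} (h : tb n = v) (hx : (n : ℝ) / 200 = x)
    (hc : (v : ℝ) / 100000 = c) (k : c ≤ Lb x) : (tb n : ℝ) / 100000 ≤ Lb ((n : ℝ) / 200) := by
  rw [h, hx, hc]
  exact k

theorem tb_ok : ∀ n : ℕ, 8 ≤ n → n ≤ 100 → (tb n : ℝ) / 100000 ≤ Lb ((n : ℝ) / 200) := by
  intro n h1 h2
  interval_cases n
  · exact tb_aux (v := 9527) rfl (by norm_num) (by norm_num) Lbv_008.1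
  · exact tb_aux (v := 10189) rfl (by norm_num) (by norm_num) Lbv_009.1
  · exact tb_aux (v := 10796) rfl (by norm_num) (by norm_num) Lbv_010.1
  · exact tb_aux (v := 11353) rfl (by norm_num) (by norm_num) Lbv_011.1
  · exact tb_aux (v := 11865) rfl (by norm_num) (by norm_num) Lbv_012.1
  · exact tb_aux (v := 12335) rfl (by norm_num) (by norm_num) Lbv_013.1
  · exact tb_aux (v := 12768) rfl (by norm_num) (by norm_num) Lbv_014.1
  · exact tb_aux (v := 13166) rfl (by norm_num) (by norm_num) Lbv_015.1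
  · exact tb_aux (v := 13530) rfl (by norm_num) (by norm_num) Lbv_016.1
  · exact tb_aux (v := 13865) rfl (by norm_num) (by norm_num) Lbv_017.1
  · exact tb_aux (v := 14170) rfl (by norm_num) (by norm_num) Lbv_018.1
  · exact tb_aux (v := 14449) rfl (by norm_num) (by norm_num) Lbv_019.1
  · exact tb_aux (v := 14702) rfl (by norm_num) (by norm_num) Lbv_020.1
  · exact tb_aux (v := 14930) rfl (by norm_num) (by norm_num) Lbv_021.1
  · exact tb_aux (v := 15136) rfl (by norm_num) (by norm_num) Lbv_022.1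
  · exact tb_aux (v := 15320) rfl (by norm_num) (by norm_num) Lbv_023.1
  · exact tb_aux (v := 15483) rfl (by norm_num) (by norm_num) Lbv_024.1
  · exact tb_aux (v := 15626) rfl (by norm_num) (by norm_num) Lbv_025.1
  · exact tb_aux (v := 15751) rfl (by norm_num) (by norm_num) Lbv_026.1
  · exact tb_aux (v := 15857) rfl (by norm_num) (by norm_num) Lbv_027.1
  · exact tb_aux (v := 15946) rfl (by norm_num) (by norm_num) Lbv_028.1
  · exact tb_aux (v := 16018) rfl (by norm_num) (by norm_num) Lbv_029.1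
  · exact tb_aux (v := 16074) rfl (by norm_num) (by norm_num) Lbv_030.1
  · exact tb_aux (v := 16115) rfl (by norm_num) (by norm_num) Lbv_031.1
  · exact tb_aux (v := 16140) rfl (by norm_num) (by norm_num) Lbv_032.1
  · exact tb_aux (v := 16152) rfl (by norm_num) (by norm_num) Lbv_033.1
  · exact tb_aux (v := 16150) rfl (by norm_num) (by norm_num) Lbv_034.1
  · exact tb_aux (v := 16134) rfl (by norm_num) (by norm_num) Lbv_035.1
  · exact tb_aux (v := 16106) rfl (by norm_num) (by norm_num) Lbv_036.1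
  · exact tb_aux (v := 16065) rfl (by norm_num) (by norm_num) Lbv_037.1
  · exact tb_aux (v := 16013) rfl (by norm_num) (by norm_num) Lbv_038.1
  · exact tb_aux (v := 15948) rfl (by norm_num) (by norm_num) Lbv_039.1
  · exact tb_aux (v := 15873) rfl (by norm_num) (by norm_num) Lbv_040.1
  · exact tb_aux (v := 15787) rfl (by norm_num) (by norm_num) Lbv_041.1
  · exact tb_aux (v := 15690) rfl (by norm_num) (by norm_num) Lbv_042.1
  · exact tb_aux (v := 15583) rfl (by norm_num) (by norm_num) Lbv_043.1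
  · exact tb_aux (v := 15467) rfl (by norm_num) (by norm_num) Lbv_044.1
  · exact tb_aux (v := 15340) rfl (by norm_num) (by norm_num) Lbv_045.1
  · exact tb_aux (v := 15205) rfl (by norm_num) (by norm_num) Lbv_046.1
  · exact tb_aux (v := 15061) rfl (by norm_num) (by norm_num) Lbv_047.1
  · exact tb_aux (v := 14908) rfl (by norm_num) (by norm_num) Lbv_048.1
  · exact tb_aux (v := 14747) rfl (by norm_num) (by norm_num) Lbv_049.1
  · exact tb_aux (v := 14578) rfl (by norm_num) (by norm_num) Lbv_050.1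
  · exact tb_aux (v := 14400) rfl (by norm_num) (by norm_num) Lbv_051.1
  · exact tb_aux (v := 14216) rfl (by norm_num) (by norm_num) Lbv_052.1
  · exact tb_aux (v := 14023) rfl (by norm_num) (by norm_num) Lbv_053.1
  · exact tb_aux (v := 13824) rfl (by norm_num) (by norm_num) Lbv_054.1
  · exact tb_aux (v := 13618) rfl (by norm_num) (by norm_num) Lbv_055.1
  · exact tb_aux (v := 13405) rfl (by norm_num) (by norm_num) Lbv_056.1
  · exact tb_aux (v := 13185) rfl (by norm_num) (by norm_num) Lbv_057.1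
  · exact tb_aux (v := 12960) rfl (by norm_num) (by norm_num) Lbv_058.1
  · exact tb_aux (v := 12728) rfl (by norm_num) (by norm_num) Lbv_059.1
  · exact tb_aux (v := 12490) rfl (by norm_num) (by norm_num) Lbv_060.1
  · exact tb_aux (v := 12247) rfl (by norm_num) (by norm_num) Lbv_061.1
  · exact tb_aux (v := 11998) rfl (by norm_num) (by norm_num) Lbv_062.1
  · exact tb_aux (v := 11743) rfl (by norm_num) (by norm_num) Lbv_063.1
  · exact tb_aux (v := 11484) rfl (by norm_num) (by norm_num) Lbv_064.1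
  · exact tb_aux (v := 11220) rfl (by norm_num) (by norm_num) Lbv_065.1
  · exact tb_aux (v := 10950) rfl (by norm_num) (by norm_num) Lbv_066.1
  · exact tb_aux (v := 10676) rfl (by norm_num) (by norm_num) Lbv_067.1
  · exact tb_aux (v := 10398) rfl (by norm_num) (by norm_num) Lbv_068.1
  · exact tb_aux (v := 10115) rfl (by norm_num) (by norm_num) Lbv_069.1
  · exact tb_aux (v := 9828) rfl (by norm_num) (by norm_num) Lbv_070.1
  · exact tb_aux (v := 9537) rfl (by norm_num) (by norm_num) Lbv_071.1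
  · exact tb_aux (v := 9243) rfl (by norm_num) (by norm_num) Lbv_072.1
  · exact tb_aux (v := 8944) rfl (by norm_num) (by norm_num) Lbv_073.1
  · exact tb_aux (v := 8642) rfl (by norm_num) (by norm_num) Lbv_074.1
  · exact tb_aux (v := 8337) rfl (by norm_num) (by norm_num) Lbv_075.1
  · exact tb_aux (v := 8028) rfl (by norm_num) (by norm_num) Lbv_076.1
  · exact tb_aux (v := 7717) rfl (by norm_num) (by norm_num) Lbv_077.1
  · exact tb_aux (v := 7402) rfl (by norm_num) (by norm_num) Lbv_078.1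
  · exact tb_aux (v := 7084) rfl (by norm_num) (by norm_num) Lbv_079.1
  · exact tb_aux (v := 6764) rfl (by norm_num) (by norm_num) Lbv_080.1
  · exact tb_aux (v := 6441) rfl (by norm_num) (by norm_num) Lbv_081.1
  · exact tb_aux (v := 6116) rfl (by norm_num) (by norm_num) Lbv_082.1
  · exact tb_aux (v := 5788) rfl (by norm_num) (by norm_num) Lbv_083.1
  · exact tb_aux (v := 5459) rfl (by norm_num) (by norm_num) Lbv_084.1
  · exact tb_aux (v := 5127) rfl (by norm_num) (by norm_num) Lbv_085.1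
  · exact tb_aux (v := 4793) rfl (by norm_num) (by norm_num) Lbv_086.1
  · exact tb_aux (v := 4458) rfl (by norm_num) (by norm_num) Lbv_087.1
  · exact tb_aux (v := 4121) rfl (by norm_num) (by norm_num) Lbv_088.1
  · exact tb_aux (v := 3782) rfl (by norm_num) (by norm_num) Lbv_089.1
  · exact tb_aux (v := 3442) rfl (by norm_num) (by norm_num) Lbv_090.1
  · exact tb_aux (v := 3101) rfl (by norm_num) (by norm_num) Lbv_091.1
  · exact tb_aux (v := 2758) rfl (by norm_num) (by norm_num) Lbv_092.1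
  · exact tb_aux (v := 2415) rfl (by norm_num) (by norm_num) Lbv_093.1
  · exact tb_aux (v := 2071) rfl (by norm_num) (by norm_num) Lbv_094.1
  · exact tb_aux (v := 1726) rfl (by norm_num) (by norm_num) Lbv_095.1
  · exact tb_aux (v := 1380) rfl (by norm_num) (by norm_num) Lbv_096.1
  · exact tb_aux (v := 1034) rfl (by norm_num) (by norm_num) Lbv_097.1
  · exact tb_aux (v := 687) rfl (by norm_num) (by norm_num) Lbv_098.1
  · exact tb_aux (v := 340) rfl (by norm_num) (by norm_num) Lbv_099.1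
  · refine tb_aux (v := 0) rfl (x := 1 / 2) (c := 0) (by norm_num) (by norm_num) ?_
    rw [Lb_half]

/-- Lower bound of `Lb (X / 1000)` in units of `1 / 500000`. -/
def lbl (X : ℕ) : ℤ := (5 - (X % 5 : ℕ)) * tb (X / 5) + (X % 5 : ℕ) * tb (X / 5 + 1)

theorem lbl_ok {X : ℕ} (h0 : 40 ≤ X) (h1 : X ≤ 500) :
    (lbl X : ℝ) / 500000 ≤ Lb ((X : ℝ) / 1000) := by
  have hX : X = 5 * (X / 5) + X % 5 := (Nat.div_add_mod X 5).symm
  have hr : X % 5 < 5 := Nat.mod_lt _ (by norm_num)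
  unfold lbl
  generalize X / 5 = n at hX ⊢
  generalize X % 5 = r at hX hr ⊢
  have hn : 8 ≤ n := by omega
  have k1 := tb_ok n hn (by omega)
  have hXr : (X : ℝ) = 5 * n + r := by exact_mod_cast hX
  rcases Nat.eq_zero_or_pos r with h | h
  · subst h
    have e : (X : ℝ) / 1000 = (n : ℝ) / 200 := by
      rw [hXr]
      push_cast
      ring
    rw [e]
    push_cast
    linarith
  · have k2 := tb_ok (n + 1) (by omega) (by omega)
    have hr' : (r : ℝ) ≤ 5 := by exact_mod_cast hr.le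
    have hr0 : (0 : ℝ) ≤ r := Nat.cast_nonneg r
    have hn1 : (n : ℝ) + 1 ≤ 100 := by exact_mod_cast (by omega : n + 1 ≤ 100)
    have hn0 : (0 : ℝ) ≤ n := Nat.cast_nonneg n
    have k3 := Lb_chord (a := (n : ℝ) / 200) (b := ((n + 1 : ℕ) : ℝ) / 200) (x := (X : ℝ) / 1000)
      (u := (tb n : ℝ) / 100000) (v := (tb (n + 1) : ℝ) / 100000) (by positivity)
      (by push_cast; linarith) (by rw [hXr]; linarith) (by rw [hXr]; push_cast; linarith) k1 k2
    have e1 : ((n + 1 : ℕ) : ℝ) / 200 - (X : ℝ) / 1000 = (5 - r) / 1000 := by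
      rw [hXr]
      push_cast
      ring
    have e2 : (X : ℝ) / 1000 - (n : ℝ) / 200 = r / 1000 := by
      rw [hXr]
      ring
    have e3 : ((n + 1 : ℕ) : ℝ) / 200 - (n : ℝ) / 200 = 1 / 200 := by
      push_cast
      ring
    rw [e1, e2, e3] at k3
    push_cast
    linarith

/-- Upper bound of `kz (X / 1000)` in units of `1 / 1000000`. -/
def kzu (X : ℕ) : ℤ := ((500000000 / X + 1 : ℕ) : ℤ) - ((16449 * X / 10 : ℕ) : ℤ)

theorem kzu_ok {X : ℕ} (h0 : 0 < X) : kz ((X : ℝ) / 1000) ≤ (kzu X : ℝ) / 1000000 := by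
  unfold kz kzu
  have hX : (0 : ℝ) < X := by exact_mod_cast h0
  have k1 : (500000000 : ℝ) / X ≤ ((500000000 / X + 1 : ℕ) : ℝ) := by
    have h := (Nat.lt_mul_div_succ 500000000 h0).le
    rw [div_le_iff₀ hX, mul_comm]
    exact_mod_cast h
  have k2 : ((16449 * X / 10 : ℕ) : ℝ) ≤ 16449 * X / 10 := by
    have h : 16449 * X / 10 * 10 ≤ 16449 * X := Nat.div_mul_le_self _ _
    have h2 : ((16449 * X / 10 : ℕ) : ℝ) * 10 ≤ 16449 * X := by exact_mod_cast h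
    linarith
  generalize (500000000 / X + 1 : ℕ) = u at k1 ⊢
  generalize (16449 * X / 10 : ℕ) = w at k2 ⊢
  have e : 1 / (2 * ((X : ℝ) / 1000)) = 500000000 / X / 1000000 := by
    field_simp
    norm_num
  rw [e]
  push_cast
  linarith

/-- Lower bound of `Lb - kz B ^ 2` at `X / 1000` in units of `1 / 1000000`. -/
def bnp (X B : ℕ) : ℤ := 2 * lbl X - (kzu X * (B : ℤ) ^ 2 / 1000000 + 1)

theorem bnp_ok {X : ℕ} (h0 : 40 ≤ X) (h1 : X ≤ 500) (B : ℕ) :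
    (bnp X B : ℝ) / 1000000 ≤ Lb ((X : ℝ) / 1000) - kz ((X : ℝ) / 1000) * ((B : ℝ) / 1000) ^ 2 := by
  have k1 := lbl_ok h0 h1
  have k2 := kzu_ok (X := X) (by omega)
  have k3 : kz ((X : ℝ) / 1000) * ((B : ℝ) / 1000) ^ 2 ≤
      (kzu X : ℝ) / 1000000 * ((B : ℝ) / 1000) ^ 2 :=
    mul_le_mul_of_nonneg_right k2 (sq_nonneg _)
  have k4 : (kzu X : ℝ) * (B : ℝ) ^ 2 / 1000000 ≤ ((kzu X * (B : ℤ) ^ 2 / 1000000 + 1 : ℤ) : ℝ) := by
    have h := Int.lt_ediv_add_one_mul_self (kzu X * (B : ℤ) ^ 2) (b := 1000000) (by norm_num)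
    rw [div_le_iff₀ (by norm_num)]
    have h2 : ((kzu X * (B : ℤ) ^ 2 : ℤ) : ℝ) ≤
        (((kzu X * (B : ℤ) ^ 2 / 1000000 + 1) * 1000000 : ℤ) : ℝ) := by
      exact_mod_cast h.le
    push_cast at h2 ⊢
    exact h2
  unfold bnp
  push_cast at k4 ⊢
  linarith

/-- Lower bound of `Bn` on a box, in units of `1 / 1000000`. -/
def bnl (X Y B : ℕ) : ℤ := min (bnp X B) (bnp Y B)

theorem bnl_ok {X Y B : ℕ} (h0 : 40 ≤ X) (h1 : Y ≤ 500) {z : ℂ} (g0 : (X : ℝ) / 1000 ≤ z.re)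
    (g1 : z.re ≤ (Y : ℝ) / 1000) (g2 : |z.im| ≤ (B : ℝ) / 1000) :
    (bnl X Y B : ℝ) / 1000000 ≤ Bn z := by
  have hXY : X ≤ Y := by
    have h := g0.trans g1
    have h2 : (X : ℝ) ≤ Y := by linarith
    exact_mod_cast h2
  have hX0 : (40 : ℝ) ≤ X := by exact_mod_cast h0
  have hY : (Y : ℝ) ≤ 500 := by exact_mod_cast h1
  apply Bn_box ((X : ℝ) / 1000) ((Y : ℝ) / 1000) ((B : ℝ) / 1000) _ (by linarith) (by linarith)
    g0 g1 g2
  · refine le_trans ?_ (bnp_ok h0 (by omega) B)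
    have : (bnl X Y B : ℝ) ≤ bnp X B := by exact_mod_cast min_le_left _ _
    linarith
  · refine le_trans ?_ (bnp_ok (by omega) h1 B)
    have : (bnl X Y B : ℝ) ≤ bnp Y B := by exact_mod_cast min_le_right _ _
    linarith

/-- The same beyond the middle of the strip. -/
def bng (X Y B : ℕ) : ℤ := if Y ≤ 500 then bnl X Y B else
  if 500 ≤ X then -(694 * ((Y : ℤ) - 500)) else min (bnl X 500 B) (-(694 * ((Y : ℤ) - 500)))

theorem Bn_beyond {Y : ℕ} (h1 : Y ≤ 800) {z : ℂ} (g0 : 1 / 2 ≤ z.re)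
    (g1 : z.re ≤ (Y : ℝ) / 1000) : -(694 * ((Y : ℝ) - 500)) / 1000000 ≤ Bn z := by
  have hY : (Y : ℝ) ≤ 800 := by exact_mod_cast h1
  have e : Bn z = -Bn (1 - z) := by rw [Bn_one_sub]; ring
  have e1 : (1 - z).re = 1 - z.re := by simp
  have k3 := Bn_le' (z := 1 - z) (by rw [e1]; linarith) (by rw [e1]; linarith)
  rw [e1] at k3
  have k4 := Lb_le_tangent (x := 1 - z.re) (x0 := 1 / 2) (by linarith) (by linarith)
    (by norm_num) le_rfl
  have k5 : Lg 0 (1 / 2) ≤ 694 / 1000 := by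
    have h5 : Lg 0 (1 / 2) = Real.log 2 := by
      have := hh_re' (1 / 2) 0
      rw [← this]
      have e5 : (((1 / 2 : ℝ) : ℂ) + ((0 : ℝ) : ℂ) * I) = 1 / 2 := by
        push_cast
        ring
      rw [e5]
      have e6 := hh_real (1 / 2) (by norm_num) (by norm_num)
      have e7 : ((1 / 2 : ℝ) : ℂ) = 1 / 2 := by push_cast; ring
      rw [e7] at e6
      rw [e6, ofReal_re, show Real.pi * (1 / 2) = Real.pi / 2 by ring, Real.sin_pi_div_two,
        mul_one]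
    rw [h5]
    have := Real.log_two_lt_d9
    linarith
  rw [Lb_half] at k4
  have k7 : Lg 0 (1 / 2) * (z.re - 1 / 2) ≤ 694 / 1000 * (z.re - 1 / 2) :=
    mul_le_mul_of_nonneg_right k5 (by linarith)
  rw [e]
  linarith

theorem bng_ok {X Y B : ℕ} (h0 : 40 ≤ X) (h1 : Y ≤ 800) {z : ℂ}
    (g0 : (X : ℝ) / 1000 ≤ z.re) (g1 : z.re ≤ (Y : ℝ) / 1000) (g2 : |z.im| ≤ (B : ℝ) / 1000) :
    (bng X Y B : ℝ) / 1000000 ≤ Bn z := by
  unfold bng
  split_ifs with h h2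
  · exact bnl_ok h0 h g0 g1 g2
  · have h3 : (500 : ℝ) ≤ X := by exact_mod_cast h2
    have k := Bn_beyond h1 (z := z) (by linarith) g1
    push_cast
    exact k
  · rcases le_total z.re (1 / 2) with h3 | h3
    · have k := bnl_ok (X := X) (Y := 500) (B := B) h0 le_rfl g0 (by push_cast; linarith) g2
      have k2 : ((min (bnl X 500 B) (-(694 * ((Y : ℤ) - 500))) : ℤ) : ℝ) ≤ bnl X 500 B := by
        exact_mod_cast min_le_left _ _
      linarith
    · have k := Bn_beyond h1 h3 g1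
      have k6 : ((min (bnl X 500 B) (-(694 * ((Y : ℤ) - 500))) : ℤ) : ℝ) ≤
          -(694 * ((Y : ℝ) - 500)) := by
        have := min_le_right (bnl X 500 B) (-(694 * ((Y : ℤ) - 500)))
        have h7 : ((min (bnl X 500 B) (-(694 * ((Y : ℤ) - 500))) : ℤ) : ℝ) ≤
          ((-(694 * ((Y : ℤ) - 500)) : ℤ) : ℝ) := by exact_mod_cast this
        push_cast at h7 ⊢
        exact h7
      linarith

/-! ### The slope terms -/

/-- Upper bound of the slope term of the low slot, in units of `1 / 1000000`. -/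
def t1 (l m : ℤ) (X Y : ℕ) : ℤ :=
  max (max (-(l * ((X : ℤ) - 200))) (-(l * ((Y : ℤ) - 200))))
    (max (-(m * ((X : ℤ) - 200))) (-(m * ((Y : ℤ) - 200))))

/-- Upper bound of the slope term of the other slot, in units of `1 / 1000000`. -/
def t2 (l m : ℤ) (X Y : ℕ) : ℤ :=
  max (max (max (-(l * ((X : ℤ) - 250))) (-(l * ((Y : ℤ) - 250))))
    (max (-(m * ((X : ℤ) - 250))) (-(m * ((Y : ℤ) - 250)))))
    (max (max (-(l * (X : ℤ))) (-(l * (Y : ℤ)))) (max (-(m * (X : ℤ))) (-(m * (Y : ℤ)))))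

theorem t1_ok {l0 l1 : ℤ} {X Y : ℕ} {l t : ℝ} (h0 : (l0 : ℝ) / 1000 ≤ l) (h1 : l ≤ (l1 : ℝ) / 1000)
    (g0 : (X : ℝ) / 1000 ≤ 1 / 2 - t) (g1 : 1 / 2 - t ≤ (Y : ℝ) / 1000) :
    -(l * (3 / 10 - t)) ≤ (t1 l0 l1 X Y : ℝ) / 1000000 := by
  have a1 : -(l0 * ((X : ℤ) - 200)) ≤ t1 l0 l1 X Y := (le_max_left _ _).trans (le_max_left _ _)
  have a2 : -(l0 * ((Y : ℤ) - 200)) ≤ t1 l0 l1 X Y := (le_max_right _ _).trans (le_max_left _ _)
  have a3 : -(l1 * ((X : ℤ) - 200)) ≤ t1 l0 l1 X Y := (le_max_left _ _).trans (le_max_right _ _)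
  have a4 : -(l1 * ((Y : ℤ) - 200)) ≤ t1 l0 l1 X Y := (le_max_right _ _).trans (le_max_right _ _)
  generalize t1 l0 l1 X Y = T at a1 a2 a3 a4 ⊢
  have b1 : -((l0 : ℝ) * ((X : ℝ) - 200)) ≤ T := by exact_mod_cast a1
  have b2 : -((l0 : ℝ) * ((Y : ℝ) - 200)) ≤ T := by exact_mod_cast a2
  have b3 : -((l1 : ℝ) * ((X : ℝ) - 200)) ≤ T := by exact_mod_cast a3
  have b4 : -((l1 : ℝ) * ((Y : ℝ) - 200)) ≤ T := by exact_mod_cast a4
  apply low_slot ((l0 : ℝ) / 1000) ((l1 : ℝ) / 1000) (1 / 2 - (Y : ℝ) / 1000)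
    (1 / 2 - (X : ℝ) / 1000) h0 h1 (by linarith) (by linarith) <;> linarith

theorem t2_ok {l0 l1 : ℤ} {X Y : ℕ} {l t b : ℝ} (h0 : (l0 : ℝ) / 1000 ≤ l)
    (h1 : l ≤ (l1 : ℝ) / 1000) (g0 : (X : ℝ) / 1000 ≤ 1 / 2 - t)
    (g1 : 1 / 2 - t ≤ (Y : ℝ) / 1000) (hb : 1 / 4 ≤ b) (hb1 : b ≤ 1 / 2) :
    -(l * (b - t)) ≤ (t2 l0 l1 X Y : ℝ) / 1000000 := by
  have a1 : -(l0 * ((X : ℤ) - 250)) ≤ t2 l0 l1 X Y :=
    ((le_max_left _ _).trans (le_max_left _ _)).trans (le_max_left _ _)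
  have a2 : -(l0 * ((Y : ℤ) - 250)) ≤ t2 l0 l1 X Y :=
    ((le_max_right _ _).trans (le_max_left _ _)).trans (le_max_left _ _)
  have a3 : -(l1 * ((X : ℤ) - 250)) ≤ t2 l0 l1 X Y :=
    ((le_max_left _ _).trans (le_max_right _ _)).trans (le_max_left _ _)
  have a4 : -(l1 * ((Y : ℤ) - 250)) ≤ t2 l0 l1 X Y :=
    ((le_max_right _ _).trans (le_max_right _ _)).trans (le_max_left _ _)
  have a5 : -(l0 * (X : ℤ)) ≤ t2 l0 l1 X Y :=
    ((le_max_left _ _).trans (le_max_left _ _)).trans (le_max_right _ _)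
  have a6 : -(l0 * (Y : ℤ)) ≤ t2 l0 l1 X Y :=
    ((le_max_right _ _).trans (le_max_left _ _)).trans (le_max_right _ _)
  have a7 : -(l1 * (X : ℤ)) ≤ t2 l0 l1 X Y :=
    ((le_max_left _ _).trans (le_max_right _ _)).trans (le_max_right _ _)
  have a8 : -(l1 * (Y : ℤ)) ≤ t2 l0 l1 X Y :=
    ((le_max_right _ _).trans (le_max_right _ _)).trans (le_max_right _ _)
  generalize t2 l0 l1 X Y = T at a1 a2 a3 a4 a5 a6 a7 a8 ⊢
  have b1 : -((l0 : ℝ) * ((X : ℝ) - 250)) ≤ T := by exact_mod_cast a1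
  have b2 : -((l0 : ℝ) * ((Y : ℝ) - 250)) ≤ T := by exact_mod_cast a2
  have b3 : -((l1 : ℝ) * ((X : ℝ) - 250)) ≤ T := by exact_mod_cast a3
  have b4 : -((l1 : ℝ) * ((Y : ℝ) - 250)) ≤ T := by exact_mod_cast a4
  have b5 : -((l0 : ℝ) * (X : ℝ)) ≤ T := by exact_mod_cast a5
  have b6 : -((l0 : ℝ) * (Y : ℝ)) ≤ T := by exact_mod_cast a6
  have b7 : -((l1 : ℝ) * (X : ℝ)) ≤ T := by exact_mod_cast a7
  have b8 : -((l1 : ℝ) * (Y : ℝ)) ≤ T := by exact_mod_cast a8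
  apply oth_slot ((l0 : ℝ) / 1000) ((l1 : ℝ) / 1000) (1 / 2 - (Y : ℝ) / 1000)
    (1 / 2 - (X : ℝ) / 1000) h0 h1 (by linarith) (by linarith) hb hb1 <;> linarith

/-- The share of a real edge in units of `1 / 1000000`. -/
def sh (S : Bool) : ℤ := if S = true then 200000 else 150000

theorem sh_ok (S : Bool) : (sh S : ℝ) / 1000000 = shr S := by
  cases S <;> simp [sh, shr] <;> norm_num

/-! ### Nodes with a lattice variable -/

/-- The boxes of a node, in units of `1 / 1000`: `y` and `b` for `1 / 2 - ys`, `1 / 2 - bs`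
(`B` bounds the imaginary parts), `g` for `ys - zs`, `h` for `zs + bs`, `z` for `zs + 1 / 2`,
`l` and `m` for the real slopes in the two slots. -/
structure LD where
  y0 : ℕ
  y1 : ℕ
  yB : ℕ
  l0 : ℤ
  l1 : ℤ
  b0 : ℕ
  b1 : ℕ
  bB : ℕ
  m0 : ℤ
  m1 : ℤ
  g0 : ℕ
  g1 : ℕ
  gB : ℕ
  h0 : ℕ
  h1 : ℕ
  hB : ℕ
  z0 : ℕ
  z1 : ℕ
  zB : ℕ

/-- `w` is in a box. -/
def InX (X Y B : ℕ) (w : ℂ) : Prop :=
  (X : ℝ) / 1000 ≤ w.re ∧ w.re ≤ (Y : ℝ) / 1000 ∧ |w.im| ≤ (B : ℝ) / 1000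

/-- The node is in the boxes. -/
structure LD.In (d : LD) (ys zs bs : ℂ) (l m : ℝ) : Prop where
  y : InX d.y0 d.y1 d.yB (1 / 2 - ys)
  b : InX d.b0 d.b1 d.bB (1 / 2 - bs)
  g : InX d.g0 d.g1 d.gB (ys - zs)
  h : InX d.h0 d.h1 d.hB (zs + bs)
  z : InX d.z0 d.z1 d.zB (zs + 1 / 2)
  l0 : (d.l0 : ℝ) / 1000 ≤ l
  l1 : l ≤ (d.l1 : ℝ) / 1000
  m0 : (d.m0 : ℝ) / 1000 ≤ m
  m1 : m ≤ (d.m1 : ℝ) / 1000

/-- The boxes are in the range of the tables. -/
def LD.rg (d : LD) : Bool :=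
  decide (40 ≤ d.y0) && decide (d.y1 ≤ 500) && decide (40 ≤ d.b0) && decide (d.b1 ≤ 500) &&
  decide (40 ≤ d.g0) && decide (d.g1 ≤ 800) && decide (40 ≤ d.h0) && decide (d.h1 ≤ 800) &&
  decide (40 ≤ d.z0) && decide (d.z1 ≤ 800)

/-- The volume, three half twists. -/
def LD.w3 (d : LD) : ℤ :=
  2 * bnl d.y0 d.y1 d.yB + bnl d.b0 d.b1 d.bB + bng d.g0 d.g1 d.gB + bng d.z0 d.z1 d.zB +
    bng d.h0 d.h1 d.hB

/-- The volume, four half twists. -/
def LD.w4 (d : LD) : ℤ :=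
  2 * bnl d.y0 d.y1 d.yB + 2 * bnl d.b0 d.b1 d.bB + bng d.g0 d.g1 d.gB + bng d.h0 d.h1 d.hB

theorem LD.In.w3 {d : LD} {ys zs bs : ℂ} {l m : ℝ} (h : d.In ys zs bs l m) (hr : d.rg = true) :
    (d.w3 : ℝ) / 1000000 ≤ Wz3 ys zs bs := by
  simp only [LD.rg, Bool.and_eq_true, decide_eq_true_eq] at hr
  obtain ⟨⟨⟨⟨⟨⟨⟨⟨⟨r1, r2⟩, r3⟩, r4⟩, r5⟩, r7⟩, r8⟩, r10⟩, r11⟩, r13⟩ := hr
  have k1 := bnl_ok r1 r2 h.y.1 h.y.2.1 h.y.2.2
  have k2 := bnl_ok r3 r4 h.b.1 h.b.2.1 h.b.2.2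
  have k3 := bng_ok r5 r7 h.g.1 h.g.2.1 h.g.2.2
  have k4 := bng_ok r8 r10 h.h.1 h.h.2.1 h.h.2.2
  have k5 := bng_ok r11 r13 h.z.1 h.z.2.1 h.z.2.2
  unfold LD.w3 Wz3
  push_cast
  linarith

theorem LD.In.w4 {d : LD} {ys zs bs : ℂ} {l m : ℝ} (h : d.In ys zs bs l m) (hr : d.rg = true) :
    (d.w4 : ℝ) / 1000000 ≤ Wz4 ys zs bs := by
  simp only [LD.rg, Bool.and_eq_true, decide_eq_true_eq] at hr
  obtain ⟨⟨⟨⟨⟨⟨⟨⟨⟨r1, r2⟩, r3⟩, r4⟩, r5⟩, r7⟩, r8⟩, r10⟩, r11⟩, r13⟩ := hr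
  have k1 := bnl_ok r1 r2 h.y.1 h.y.2.1 h.y.2.2
  have k2 := bnl_ok r3 r4 h.b.1 h.b.2.1 h.b.2.2
  have k3 := bng_ok r5 r7 h.g.1 h.g.2.1 h.g.2.2
  have k4 := bng_ok r8 r10 h.h.1 h.h.2.1 h.h.2.2
  unfold LD.w4 Wz4
  push_cast
  linarith

/-- The test for `Ty` and `Tb`; `W` is the volume. -/
def LD.tst (d : LD) (W : ℤ) (sy sb : Bool) : Bool :=
  d.rg && decide (283000 - W + t1 d.l0 d.l1 d.y0 d.y1 + t2 d.m0 d.m1 d.b0 d.b1 + sh sb < 0) &&
    decide (283000 - W + t1 d.m0 d.m1 d.b0 d.b1 + t2 d.l0 d.l1 d.y0 d.y1 + sh sy < 0)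

theorem LD.tst_ok {d : LD} {W : ℤ} {sy sb : Bool} (h : d.tst W sy sb = true) {ys zs bs : ℂ}
    {l m : ℝ} (hd : d.In ys zs bs l m) :
    (∀ b : ℝ, 1 / 4 ≤ b → b ≤ 1 / 2 →
      283 / 1000 - (W : ℝ) / 1000000 - l * (3 / 10 - ys.re) - m * (b - bs.re) < -shr sb) ∧
    (∀ y : ℝ, 1 / 4 ≤ y → y ≤ 1 / 2 →
      283 / 1000 - (W : ℝ) / 1000000 - m * (3 / 10 - bs.re) - l * (y - ys.re) < -shr sy) := by
  simp only [LD.tst, Bool.and_eq_true, decide_eq_true_eq] at h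
  obtain ⟨⟨_, h1⟩, h2⟩ := h
  have e1 : (1 / 2 - ys).re = 1 / 2 - ys.re := by simp
  have e2 : (1 / 2 - bs).re = 1 / 2 - bs.re := by simp
  have y0 := hd.y.1
  have y1 := hd.y.2.1
  have b0 := hd.b.1
  have b1 := hd.b.2.1
  rw [e1] at y0 y1
  rw [e2] at b0 b1
  have h1' : (283000 : ℝ) - W + t1 d.l0 d.l1 d.y0 d.y1 + t2 d.m0 d.m1 d.b0 d.b1 + sh sb < 0 := by
    exact_mod_cast h1
  have h2' : (283000 : ℝ) - W + t1 d.m0 d.m1 d.b0 d.b1 + t2 d.l0 d.l1 d.y0 d.y1 + sh sy < 0 := by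
    exact_mod_cast h2
  constructor
  · intro b g0 g1
    have k1 := t1_ok hd.l0 hd.l1 y0 y1
    have k2 := t2_ok hd.m0 hd.m1 b0 b1 g0 g1
    rw [← sh_ok]
    linarith
  · intro y g0 g1
    have k1 := t1_ok hd.m0 hd.m1 b0 b1
    have k2 := t2_ok hd.l0 hd.l1 y0 y1 g0 g1
    rw [← sh_ok]
    linarith

/-- **Low edges at inner nodes with three half twists.** -/
theorem low_z3 {d : LD} {n : Nt} {zs : ℂ} {sy sb : Slt} (ht : d.tst d.w3 sy.S sb.S = true)
    (hz : l3z sy.ys zs sb.ys = 0) (hly : sy.lam = l3y sy.ys zs) (hlb : sb.lam = l3b zs sb.ys)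
    (hy : sy.ex = true) (hb : sb.ex = true) (hd : d.In sy.ys zs sb.ys sy.lam.re sb.lam.re) :
    (∀ (y z b : ℂ) (wy wb : ℝ) (pb : Pc), sy.ex = true → (sb.ex = true → pb.frcT) →
      sy.In .lo y wy → sb.In pb b wb → z.im = 0 → -(1 / 2) ≤ z.re → z.re ≤ 1 / 2 → z.re ≤ y.re →
      0 ≤ z.re + b.re → Ez3 sy.ys zs sb.ys y z b + sy.e n .lo y wy + sb.e n pb b wb < 0) ∧
    (∀ (y z b : ℂ) (wy wb : ℝ) (py : Pc), sb.ex = true → (sy.ex = true → py.frcT) →
      sy.In py y wy → sb.In .lo b wb → z.im = 0 → -(1 / 2) ≤ z.re → z.re ≤ 1 / 2 → z.re ≤ y.re →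
      0 ≤ z.re + b.re → Ez3 sy.ys zs sb.ys y z b + sy.e n py y wy + sb.e n .lo b wb < 0) := by
  have hr : d.rg = true := by
    simp only [LD.tst, Bool.and_eq_true] at ht
    exact ht.1.1
  obtain ⟨k1, k2⟩ := LD.tst_ok ht hd
  have hw := hd.w3 hr
  refine ⟨VZ_Ty hb ?_, VZ_Tb hy ?_⟩
  · intro y z b h0 h1 h2 h3 h4 h5
    have k := Ez3_low_y hz h0 h1 h3 h4 h5
    rw [← hly, ← hlb] at k
    have := k1 b h2 h3
    linarith
  · intro y z b h0 h1 h2 h3 h4 h5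
    have k := Ez3_low_b hz h0 h1 h3 h4 h5
    rw [← hly, ← hlb] at k
    have := k2 y h2 h3
    linarith

/-- **Low edges at inner nodes with four half twists.** -/
theorem low_z4 {d : LD} {n : Nt} {zs : ℂ} {sy sb : Slt} (ht : d.tst d.w4 sy.S sb.S = true)
    (hz : l4z sy.ys zs sb.ys = 0) (hly : sy.lam = l4y sy.ys zs) (hlb : sb.lam = l4b zs sb.ys)
    (hy : sy.ex = true) (hb : sb.ex = true) (hd : d.In sy.ys zs sb.ys sy.lam.re sb.lam.re) :
    (∀ (y z b : ℂ) (wy wb : ℝ) (pb : Pc), sy.ex = true → (sb.ex = true → pb.frcT) →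
      sy.In .lo y wy → sb.In pb b wb → z.im = 0 → -(1 / 2) ≤ z.re → z.re ≤ 1 / 2 → z.re ≤ y.re →
      0 ≤ z.re + b.re → Ez4 sy.ys zs sb.ys y z b + sy.e n .lo y wy + sb.e n pb b wb < 0) ∧
    (∀ (y z b : ℂ) (wy wb : ℝ) (py : Pc), sb.ex = true → (sy.ex = true → py.frcT) →
      sy.In py y wy → sb.In .lo b wb → z.im = 0 → -(1 / 2) ≤ z.re → z.re ≤ 1 / 2 → z.re ≤ y.re →
      0 ≤ z.re + b.re → Ez4 sy.ys zs sb.ys y z b + sy.e n py y wy + sb.e n .lo b wb < 0) := by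
  have hr : d.rg = true := by
    simp only [LD.tst, Bool.and_eq_true] at ht
    exact ht.1.1
  obtain ⟨k1, k2⟩ := LD.tst_ok ht hd
  have hw := hd.w4 hr
  refine ⟨VZ_Ty hb ?_, VZ_Tb hy ?_⟩
  · intro y z b h0 h1 h2 h3 h4 h5
    have k := Ez4_low_y hz h0 h1 h3 h4 h5
    rw [← hly, ← hlb] at k
    have := k1 b h2 h3
    linarith
  · intro y z b h0 h1 h2 h3 h4 h5
    have k := Ez4_low_b hz h0 h1 h3 h4 h5
    rw [← hly, ← hlb] at k
    have := k2 y h2 h3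
    linarith

end Pool.Agent.S5
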