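import Pool.Agent.S5.I.Y3F
import Pool.Agent.S5.I.FlA
import Pool.Agent.S5.I.QuadZ
import Pool.Agent.S5.K3.Vn

/-!
# The flats of a node with three half twists: from the total to the statements of the node
-/

set_option autoImplicit false

namespace Pool.Agent.S5.Y3

open Complex Filter Topology Set Pool.Agent.S5.C2 Pool.Agent.S5.Num Pool.Agent.S5.K3
open Pool.Agent.S5 (Slt Pc Nt Ez3 Td Kc Kok)

/-! ### The quadratic bound -/

theorem Kc_Lp (z : ℂ) : Kc z = Lp (Hs z.im) z.re := by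
  unfold Kc Pool.Agent.S5.Lgd Lp Hs Pool.Agent.S5.dn
  have e1 : Real.sin (2 * Real.pi * z.re) = 2 * (Real.sin (Real.pi * z.re) * Real.cos (Real.pi * z.re)) := by
    rw [show 2 * Real.pi * z.re = 2 * (Real.pi * z.re) by ring, Real.sin_two_mul]
    ring
  have e2 : Real.cosh (2 * Real.pi * z.im) - Real.cos (2 * Real.pi * z.re) =
      2 * (Real.sin (Real.pi * z.re) ^ 2 + Real.sinh (Real.pi * z.im) ^ 2) := by
    rw [show 2 * Real.pi * z.re = 2 * (Real.pi * z.re) by ring, Real.cos_two_mul,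
      show 2 * Real.pi * z.im = 2 * (Real.pi * z.im) by ring, Real.cosh_two_mul, Real.cosh_sq]
    have := Real.sin_sq_add_cos_sq (Real.pi * z.re)
    linear_combination -2 * this
  rw [e1, e2]
  rcases eq_or_ne (Real.sin (Real.pi * z.re) ^ 2 + Real.sinh (Real.pi * z.im) ^ 2) 0 with h | h
  · rw [h]
    simp
  · field_simp

/-- The form at an interior minimum. -/
theorem form_of_min {n : ℕ} {s1 s4 s3 p0 q0 : ℝ} (hn : n ≤ 2) (hB : Bp s1 s4 s3 p0 q0)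
    (h : ∀ p q : ℝ, 0 ≤ p → p ≤ 3 / 4 → 1 / 10 ≤ q → q ≤ 9 / 10 → 0 ≤ VV n s1 s4 s3 p0 q0 p q) :
    0 < 2 * Lp s1 p0 - Lp s3 (p0 + q0) ∧
      0 ≤ 2 * Lp s1 p0 * -Lp s3 (p0 + q0) / (2 * Lp s1 p0 - Lp s3 (p0 + q0)) + Lp s4 q0 := by
  have h1 := hB.h1
  have hp0 := hB.hp0
  have hp1 := hB.hp1
  have hq0 := hB.hq0
  have hq1 := hB.hq1
  have hP0 := hB.hP0
  have hP1 := hB.hP1
  obtain ⟨ε, he⟩ : ∃ ε : ℝ, ε = min (min p0 (1 / 4)) (min (q0 - 1 / 10) (9 / 10 - q0)) := ⟨_, rfl⟩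
  have e0 : 0 < ε := by
    rw [he]
    exact lt_min (lt_min hp0 (by norm_num)) (lt_min (by linarith) (by linarith))
  have e1 : ε ≤ p0 := by rw [he]; exact (min_le_left _ _).trans (min_le_left _ _)
  have e2 : ε ≤ 1 / 4 := by rw [he]; exact (min_le_left _ _).trans (min_le_right _ _)
  have e3 : ε ≤ q0 - 1 / 10 := by rw [he]; exact (min_le_right _ _).trans (min_le_left _ _)
  have e4 : ε ≤ 9 / 10 - q0 := by rw [he]; exact (min_le_right _ _).trans (min_le_right _ _)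
  have hv : VV n s1 s4 s3 p0 q0 p0 q0 = 0 := by
    unfold VV
    rw [Dq_self, Dq_self, Dq_self]
    ring
  have hm : ∀ p' q' : ℝ, |p' - p0| < ε → |q' - q0| < ε →
      VV n s1 s4 s3 p0 q0 p0 q0 ≤ VV n s1 s4 s3 p0 q0 p' q' := by
    intro p' q' a1 a2
    rw [abs_lt] at a1 a2
    rw [hv]
    exact h p' q' (by linarith) (by linarith) (by linarith) (by linarith)
  have A0 : 0 < Lp s1 p0 := by
    unfold Lp
    have a1 : 0 < Real.sin (Real.pi * p0) :=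
      Real.sin_pos_of_pos_of_lt_pi (by have := Real.pi_pos; positivity) (by nlinarith [Real.pi_pos])
    have a2 : 0 < Real.cos (Real.pi * p0) :=
      Real.cos_pos_of_mem_Ioo ⟨by nlinarith [Real.pi_pos], by nlinarith [Real.pi_pos]⟩
    have := Real.pi_pos
    positivity
  have hf : ∀ d e : ℝ, 0 ≤ 2 * Lp s1 p0 * d ^ 2 + Lp s4 q0 * e ^ 2 - Lp s3 (p0 + q0) * (d + e) ^ 2 := by
    intro d e
    have a1 := hess (d := d) (e := e) hB.h1 hB.h4 hB.h3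
      (by have := Sn_pos hp0 (by linarith : p0 < 1); linarith)
      (by have := Sn_pos (by linarith : 0 < q0) (by linarith : q0 < 1); linarith [hB.h4])
      (by have := Sn_pos (by linarith : 0 < p0 + q0) (by linarith : p0 + q0 < 1); linarith [hB.h3]) e0 hm
    have a2 : (n : ℝ) ≤ 2 := by exact_mod_cast hn
    have a3 := mul_le_mul_of_nonneg_right a2 (mul_nonneg A0.le (sq_nonneg d))
    linarith
  obtain ⟨A, hA⟩ : ∃ A, A = Lp s1 p0 := ⟨_, rfl⟩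
  obtain ⟨C, hC⟩ : ∃ C, C = -Lp s3 (p0 + q0) := ⟨_, rfl⟩
  obtain ⟨D, hD⟩ : ∃ D, D = Lp s4 q0 := ⟨_, rfl⟩
  have hf' : ∀ d e : ℝ, 0 ≤ 2 * A * d ^ 2 + D * e ^ 2 + C * (d + e) ^ 2 := by
    intro d e
    have := hf d e
    rw [hA, hC, hD]
    linarith
  have hS0 : 0 ≤ 2 * A + C := by
    have := hf' 1 0
    norm_num at this
    exact this
  rw [← hA] at A0
  have hS : 0 < 2 * A + C := by
    rcases hS0.lt_or_eq with k | k
    · exact k
    · exfalso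
      have hC' : C = -(2 * A) := by linarith
      have := hf' ((D - 2 * A + 1) / (4 * A)) 1
      rw [hC'] at this
      have k2 : 4 * A * ((D - 2 * A + 1) / (4 * A)) = D - 2 * A + 1 := by field_simp
      nlinarith
  have hN : 0 ≤ 2 * A * C + D * (2 * A + C) := by
    have k := hf' (-C) (2 * A + C)
    have k2 : 2 * A * (-C) ^ 2 + D * (2 * A + C) ^ 2 + C * (-C + (2 * A + C)) ^ 2 =
        (2 * A + C) * (2 * A * C + D * (2 * A + C)) := by ring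
    rw [k2] at k
    exact nonneg_of_mul_nonneg_right k hS
  have r1 : 2 * Lp s1 p0 - Lp s3 (p0 + q0) = 2 * A + C := by rw [hA, hC]; ring
  rw [r1, ← hA, ← hC, ← hD]
  refine ⟨hS, ?_⟩
  have k3 : 2 * A * C / (2 * A + C) + D = (2 * A * C + D * (2 * A + C)) / (2 * A + C) := by
    field_simp
  rw [k3]
  positivity

theorem Lp_one_sub_q (s t : ℝ) : Lp s (1 - t) = -Lp s t := by
  unfold Lp
  rw [show Real.pi * (1 - t) = Real.pi - Real.pi * t by ring, Real.sin_pi_sub, Real.cos_pi_sub]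
  ring

theorem Hs_abs (x : ℝ) : Hs |x| = Hs x := by
  rcases abs_cases x with ⟨h, -⟩ | ⟨h, -⟩ <;> rw [h]
  unfold Hs
  rw [mul_neg, Real.sinh_neg, neg_sq]

theorem Hs_neg (x : ℝ) : Hs (-x) = Hs x := by
  unfold Hs
  rw [mul_neg, Real.sinh_neg, neg_sq]

/-- **The quadratic bound.** -/
theorem quad_ok {n kb : ℕ} {f4 : Bool} {R : ℝ} {sy sb : Slt} {zs : ℂ} (hn : n ≤ 2)
    (h : Pts n kb f4 (Hs sy.ys.im) (Hs zs.im) (Hs (sy.ys.im - zs.im)) (Hs sb.ys.im)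
      |sb.ys.im + zs.im| (1 / 2 - sy.ys.re) (1 / 2 + zs.re) (1 / 2 - sb.ys.re) R) :
    RwQ zs sy sb := by
  have b1 := h.B.hp0
  have b2 := h.B.hp1
  have b3 := h.B.hq0
  have b4 := h.B.hq1
  have b5 := h.B.hP0
  have b6 := h.B.hP1
  have b7 := h.hb0
  have b8 := h.hb1
  have b9 := h.u1
  have b10 := h.u2
  have rA : (1 / 2 - sy.ys).re = 1 / 2 - sy.ys.re := by simp
  have iA : (1 / 2 - sy.ys).im = -sy.ys.im := by simp
  have rB : (1 / 2 - sb.ys).re = 1 / 2 - sb.ys.re := by simp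
  have rC : (sy.ys - zs).re = 1 - (1 / 2 - sy.ys.re + (1 / 2 + zs.re)) := by
    rw [sub_re]; ring
  have iC : (sy.ys - zs).im = sy.ys.im - zs.im := by simp
  have rD : (zs + 1 / 2).re = 1 / 2 + zs.re := by simp; ring
  have iD : (zs + 1 / 2).im = zs.im := by simp
  have rF : (zs + sb.ys).re = zs.re + sb.ys.re := by simp
  have V0 : ∀ p q : ℝ, 0 ≤ p → p ≤ 3 / 4 → 1 / 10 ≤ q → q ≤ 9 / 10 → 0 ≤
      VV n (Hs sy.ys.im) (Hs zs.im) (Hs (sy.ys.im - zs.im)) (1 / 2 - sy.ys.re) (1 / 2 + zs.re) p q :=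
    fun p q h1 h2 h3 h4 => h.V0 h1 h2 h3 h4
  obtain ⟨k1, k2⟩ := form_of_min hn h.B V0
  have eA : Kc (1 / 2 - sy.ys) = Lp (Hs sy.ys.im) (1 / 2 - sy.ys.re) := by
    rw [Kc_Lp, rA, iA, Hs_neg]
  have eC : Kc (sy.ys - zs) = -Lp (Hs (sy.ys.im - zs.im)) (1 / 2 - sy.ys.re + (1 / 2 + zs.re)) := by
    rw [Kc_Lp, rC, iC, Lp_one_sub_q]
  have eD : Kc (zs + 1 / 2) = Lp (Hs zs.im) (1 / 2 + zs.re) := by
    rw [Kc_Lp, rD, iD]
  have pB : 0 < Kc (1 / 2 - sb.ys) := Pool.Agent.S5.Kc_pos' (by rw [rB]; linarith) (by rw [rB]; linarith)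
  have pF : 0 < Kc (zs + sb.ys) := Pool.Agent.S5.Kc_pos' (by rw [rF]; linarith) (by rw [rF]; linarith)
  refine Pool.Agent.S5.quad_z3 (sy := sy) (sb := sb) (zs := zs)
    (Pool.Agent.S5.Kok_of (by rw [rA]; linarith) (by rw [rA]; linarith))
    (Pool.Agent.S5.Kok_of (by rw [rB]; linarith) (by rw [rB]; linarith))
    (Pool.Agent.S5.Kok_of (by rw [rC]; linarith) (by rw [rC]; linarith))
    (Pool.Agent.S5.Kok_of (by rw [rD]; linarith) (by rw [rD]; linarith))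
    (Pool.Agent.S5.Kok_of (by rw [rF]; linarith) (by rw [rF]; linarith)) ?_ ?_ ?_
  · rw [eA, eC]
    linarith
  · linarith
  · rw [eA, eC, eD, ← sub_eq_add_neg]
    have : 0 < Kc (1 / 2 - sb.ys) * Kc (zs + sb.ys) / (Kc (1 / 2 - sb.ys) + Kc (zs + sb.ys)) := by
      positivity
    linarith

/-! ### The node on the flats -/

theorem Td_line' {z0 z : ℂ} (hi : z.im = z0.im) : Td z0 z = -Dq (Hs z0.im) z0.re z.re :=
  Pool.Agent.S5.F.Td_line hi

theorem Ez3_flat {ys zs bs y z b : ℂ} (hy : y.im = ys.im) (hz : z.im = zs.im) (hb : b.im = bs.im) :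
    Ez3 ys zs bs y z b = -(2 * Dq (Hs ys.im) (1 / 2 - ys.re) (1 / 2 - y.re) +
      Dq (Hs zs.im) (1 / 2 + zs.re) (1 / 2 + z.re) -
      Dq (Hs (ys.im - zs.im)) (1 / 2 - ys.re + (1 / 2 + zs.re)) (1 / 2 - y.re + (1 / 2 + z.re)) +
      Dq (Hs bs.im) (1 / 2 - bs.re) (1 / 2 - b.re) -
      Dq (Hs |bs.im + zs.im|) (1 / 2 - bs.re + 1 - (1 / 2 + zs.re)) (1 + (1 / 2 - b.re) - (1 / 2 + z.re))) := by
  have hre : ∀ w : ℂ, (1 / 2 - w).re = 1 / 2 - w.re := fun w => by simp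
  have him : ∀ w : ℂ, (1 / 2 - w).im = -w.im := fun w => by simp
  have e1 := Td_line' (z0 := 1 / 2 - ys) (z := 1 / 2 - y) (by rw [him, him, hy])
  have e2 := Td_line' (z0 := 1 / 2 - bs) (z := 1 / 2 - b) (by rw [him, him, hb])
  have e3 := Td_line' (z0 := ys - zs) (z := y - z) (by rw [sub_im, sub_im, hy, hz])
  have e4 := Td_line' (z0 := zs + 1 / 2) (z := z + 1 / 2) (by simp [hz])
  have e5 := Td_line' (z0 := zs + bs) (z := z + b) (by rw [add_im, add_im, hz, hb])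
  rw [hre, hre, him, Hs_neg] at e1 e2
  rw [sub_re, sub_re, sub_im] at e3
  rw [add_re, add_re, add_im] at e5
  have q3 := Pool.Agent.S5.F.Dq_one_sub (Hs (ys.im - zs.im)) (1 / 2 - ys.re + (1 / 2 + zs.re))
    (1 / 2 - y.re + (1 / 2 + z.re))
  have q5 := Pool.Agent.S5.F.Dq_one_sub (Hs (zs.im + bs.im)) (1 / 2 - bs.re + 1 - (1 / 2 + zs.re))
    (1 + (1 / 2 - b.re) - (1 / 2 + z.re))
  rw [show 1 - (1 / 2 - ys.re + (1 / 2 + zs.re)) = ys.re - zs.re by ring,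
    show 1 - (1 / 2 - y.re + (1 / 2 + z.re)) = y.re - z.re by ring] at q3
  rw [show 1 - (1 / 2 - bs.re + 1 - (1 / 2 + zs.re)) = zs.re + bs.re by ring,
    show 1 - (1 + (1 / 2 - b.re) - (1 / 2 + z.re)) = z.re + b.re by ring] at q5
  have rD : (zs + 1 / 2).re = 1 / 2 + zs.re := by simp; ring
  have rD' : (z + 1 / 2).re = 1 / 2 + z.re := by simp; ring
  have iD : (zs + 1 / 2).im = zs.im := by simp
  rw [rD, rD', iD] at e4
  have g1 : (((y - ys) + (z - zs)) ^ 2 : ℂ).im = 0 := by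
    have e0 : ((y - ys) + (z - zs)).im = 0 := by simp [hy, hz]
    rw [pow_two, mul_im, e0]
    ring
  have g2 : ((z - zs) * (b - bs) : ℂ).im = 0 := by
    rw [mul_im, sub_im, sub_im, hz, hb, sub_self, sub_self]
    ring
  unfold Ez3
  rw [g1, g2, e1, e2, e3, e4, e5, q3, q5, Hs_abs, add_comm bs.im zs.im]
  ring

/-! ### The slots -/

theorem dT3 (S : Bool) (x : Nt) {pc : Pc} (h : FHG pc) : Pool.Agent.S5.dT S ⟨3, false⟩ x pc =
    if x = ⟨3, true⟩ ∧ (S = true ∨ pc ≠ .F) then -1 else 0 := by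
  unfold Pool.Agent.S5.dT
  rcases h with rfl | rfl | rfl
  · by_cases h1 : x = ⟨3, true⟩
    · cases S <;> simp [h1, Pool.Agent.S5.d0, Pool.Agent.S5.Pc.mir]
    · cases S <;> simp [h1, Pool.Agent.S5.d0, Pool.Agent.S5.Pc.mir]
  · by_cases h1 : x = ⟨3, true⟩
    · cases S <;> simp [h1, Pool.Agent.S5.d0, Pool.Agent.S5.Pc.mir]
    · cases S <;> simp [h1, Pool.Agent.S5.d0, Pool.Agent.S5.Pc.mir]
  · by_cases h1 : x = ⟨3, true⟩
    · cases S <;> simp [h1, Pool.Agent.S5.d0, Pool.Agent.S5.Pc.mir]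
    · cases S <;> simp [h1, Pool.Agent.S5.d0, Pool.Agent.S5.Pc.mir]

theorem hT3_FH (S : Bool) (x : Nt) {pc : Pc} (h : pc = .F ∨ pc = .H) :
    Pool.Agent.S5.hT S ⟨3, false⟩ x pc = 0 := by
  unfold Pool.Agent.S5.hT
  rcases h with rfl | rfl <;> simp [Pool.Agent.S5.r0, Pool.Agent.S5.Pc.mir]

theorem hT3_G (S : Bool) (x : Nt) : Pool.Agent.S5.hT S ⟨3, false⟩ x .G =
    if S = true ∧ x = ⟨3, true⟩ then 3 / 50 else if S = true ∧ x = ⟨4, true⟩ then -(1 / 20) else 0 := by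
  unfold Pool.Agent.S5.hT
  by_cases h1 : x = ⟨3, true⟩
  · cases S <;> simp [h1, Pool.Agent.S5.r0, Pool.Agent.S5.Pc.mir]
    norm_num
  · by_cases h2 : x = ⟨4, true⟩
    · cases S <;> simp [h2, Pool.Agent.S5.r0, Pool.Agent.S5.Pc.mir]
      norm_num
    · cases S <;> simp [h1, h2, Pool.Agent.S5.r0, Pool.Agent.S5.Pc.mir]

/-- The arguments of the test for the neighbours. -/
def fl3k (n : ℕ) (f4 : Bool) (kb : ℕ) (Sy : Bool) (xy : Nt) (Sb : Bool) (xb : Nt) : Bool :=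
  (if xy = ⟨3, true⟩ then n == 1 else n == 2) && (if Sy = true ∧ xy = ⟨4, true⟩ then f4 else true) &&
    (if xb = ⟨3, true⟩ then (if Sb = true then kb == 3 else kb == 2)
      else if Sb = true ∧ xb = ⟨4, true⟩ then kb == 1 else (kb == 0 || kb == 1))

/-- A slot on the flats. -/
theorem slot_flat {s : Slt} {pc : Pc} {y : ℂ} {w : ℝ} (he : s.ex = true) (hf : FHG pc)
    (hi : s.In pc y w) : w = 0 ∧ y.im = s.ys.im ∧
      s.e ⟨3, false⟩ pc y w = -(Pool.Agent.S5.dT s.S ⟨3, false⟩ s.x pc *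
        Dq (Hs s.ys.im) (1 / 2 - s.ys.re) (1 / 2 - y.re)) - Pool.Agent.S5.hT s.S ⟨3, false⟩ s.x pc ∧
      ((pc = .F ∧ 3 / 20 ≤ y.re ∧ y.re ≤ 1 / 2) ∨ (pc = .H ∧ 0 ≤ y.re ∧ y.re ≤ 3 / 20) ∨
        (pc = .G ∧ -(1 / 4) ≤ y.re ∧ y.re ≤ 0)) := by
  unfold Pool.Agent.S5.Slt.In at hi
  rw [if_pos he] at hi
  have h1 := hi.1
  have h2 : w = 0 ∧ y.im = s.ys.im ∧
      ((pc = .F ∧ 3 / 20 ≤ y.re ∧ y.re ≤ 1 / 2) ∨ (pc = .H ∧ 0 ≤ y.re ∧ y.re ≤ 3 / 20) ∨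
        (pc = .G ∧ -(1 / 4) ≤ y.re ∧ y.re ≤ 0)) := by
    rcases hf with rfl | rfl | rfl
    · exact ⟨h1.1, h1.2.1, Or.inl ⟨rfl, h1.2.2.1, h1.2.2.2⟩⟩
    · exact ⟨h1.1, h1.2.1, Or.inr (Or.inl ⟨rfl, h1.2.2.1, h1.2.2.2⟩)⟩
    · exact ⟨h1.1, h1.2.1, Or.inr (Or.inr ⟨rfl, h1.2.2.1, h1.2.2.2⟩)⟩
  refine ⟨h2.1, h2.2.1, ?_, h2.2.2⟩
  unfold Pool.Agent.S5.Slt.e
  rw [if_pos he, h2.1]
  exact Pool.Agent.S5.F.slE_flt hf h2.2.1

/-- **The flats of the node.** -/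
theorem flats_ok {n kb : ℕ} {f4 : Bool} {R z1 : ℝ} {sy sb : Slt} {zs : ℂ}
    (hk : fl3k n f4 kb sy.S sy.x sb.S sb.x = true) (hey : sy.ex = true) (heb : sb.ex = true)
    (hz1 : z1 ≤ 2 / 5) (hys : 3 / 20 < sy.ys.re) (hbs : 3 / 20 < sb.ys.re)
    (h : Pts n kb f4 (Hs sy.ys.im) (Hs zs.im) (Hs (sy.ys.im - zs.im)) (Hs sb.ys.im)
      |sb.ys.im + zs.im| (1 / 2 - sy.ys.re) (1 / 2 + zs.re) (1 / 2 - sb.ys.re) R) :
    RwF z1 zs sy sb := by
  intro y z b wy wb py pb fy fb iy ib hz h1 h2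
  obtain ⟨-, yi, ye, yr⟩ := slot_flat hey fy iy
  obtain ⟨-, bi, be, br⟩ := slot_flat heb fb ib
  have b1 := h.B.hp0
  have b2 := h.B.hp1
  have b3 := h.hb0
  have b4 := h.hb1
  have hb3 := h.kb3
  have y0 : 0 ≤ 1 / 2 - y.re := by rcases yr with ⟨-, k1, k2⟩ | ⟨-, k1, k2⟩ | ⟨-, k1, k2⟩ <;> linarith
  have y1 : 1 / 2 - y.re ≤ 3 / 4 := by
    rcases yr with ⟨-, k1, k2⟩ | ⟨-, k1, k2⟩ | ⟨-, k1, k2⟩ <;> linarith
  have b0 : 0 ≤ 1 / 2 - b.re := by rcases br with ⟨-, k1, k2⟩ | ⟨-, k1, k2⟩ | ⟨-, k1, k2⟩ <;> linarith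
  have b1' : 1 / 2 - b.re ≤ 3 / 4 := by
    rcases br with ⟨-, k1, k2⟩ | ⟨-, k1, k2⟩ | ⟨-, k1, k2⟩ <;> linarith
  have q0' : 1 / 10 ≤ 1 / 2 + z.re := by linarith
  have q1' : 1 / 2 + z.re ≤ 9 / 10 := by linarith
  rw [ye, be, Ez3_flat yi hz bi]
  unfold fl3k at hk
  rw [Bool.and_eq_true, Bool.and_eq_true] at hk
  obtain ⟨⟨k1, k2⟩, k3⟩ := hk
  rw [dT3 sy.S sy.x fy, dT3 sb.S sb.x fb]
  -- the weight of the slot b
  obtain ⟨w, hw⟩ : ∃ w : ℝ, w = 1 + (if sb.x = ⟨3, true⟩ ∧ (sb.S = true ∨ pb ≠ .F) then -1 else 0 : ℝ) :=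
    ⟨_, rfl⟩
  have w0 : 0 ≤ w := by rw [hw]; split_ifs <;> norm_num
  have kbx : (sb.x = ⟨3, true⟩ ∧ sb.S = true ∧ kb = 3) ∨ (sb.x = ⟨3, true⟩ ∧ sb.S = false ∧ kb = 2) ∨
      (sb.x ≠ ⟨3, true⟩ ∧ kb ≤ 1 ∧ (sb.S = true ∧ sb.x = ⟨4, true⟩ → kb = 1)) := by
    by_cases c1 : sb.x = ⟨3, true⟩
    · rw [if_pos c1] at k3
      cases hS : sb.S
      · rw [hS, if_neg (by simp)] at k3
        exact Or.inr (Or.inl ⟨c1, rfl, by simpa using k3⟩)
      · rw [hS, if_pos rfl] at k3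
        exact Or.inl ⟨c1, rfl, by simpa using k3⟩
    · rw [if_neg c1] at k3
      right
      right
      by_cases c2 : sb.S = true ∧ sb.x = ⟨4, true⟩
      · rw [if_pos c2] at k3
        have : kb = 1 := by simpa using k3
        exact ⟨c1, by omega, fun _ => this⟩
      · rw [if_neg c2] at k3
        have : kb = 0 ∨ kb = 1 := by simpa using k3
        exact ⟨c1, by omega, fun h => absurd h c2⟩
  have w1 : kb ≤ 1 → w = 1 := by
    intro c
    rcases kbx with ⟨-, -, c1⟩ | ⟨-, -, c1⟩ | ⟨c1, -, -⟩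
    · omega
    · omega
    · rw [hw, if_neg (fun h => c1 h.1), add_zero]
  have w2 : kb = 2 → 1 / 2 - b.re < 1 / 4 → w = 1 := by
    intro c c'
    rcases kbx with ⟨-, -, c1⟩ | ⟨-, c2, -⟩ | ⟨-, c1, -⟩
    · omega
    · have hF : pb = .F := by
        rcases br with ⟨r1, r2, r3⟩ | ⟨r1, r2, r3⟩ | ⟨r1, r2, r3⟩
        · exact r1
        · linarith
        · linarith
      rw [hw, if_neg (by rintro ⟨-, r | r⟩; · rw [c2] at r; exact absurd r (by simp)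
                         · exact r hF), add_zero]
    · omega
  have w3 : 2 ≤ kb → 1 / 2 ≤ 1 / 2 - b.re → w = 0 := by
    intro c c'
    rcases kbx with ⟨c1, c2, -⟩ | ⟨c1, -, -⟩ | ⟨-, c1, -⟩
    · rw [hw, if_pos ⟨c1, Or.inl c2⟩]; norm_num
    · have hF : pb ≠ .F := by
        rcases br with ⟨r1, r2, r3⟩ | ⟨r1, r2, r3⟩ | ⟨r1, r2, r3⟩
        · linarith
        · rw [r1]; simp
        · rw [r1]; simp
      rw [hw, if_pos ⟨c1, Or.inr hF⟩]; norm_num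
    · omega
  obtain ⟨A1, A2, A3⟩ := h.all w0 w1 w2 w3 y0 y1 q0' q1' b0 b1'
  -- the weight of the slot y
  obtain ⟨v, hv⟩ : ∃ v : ℝ, v = 2 + (if sy.x = ⟨3, true⟩ ∧ (sy.S = true ∨ py ≠ .F) then -1 else 0 : ℝ) :=
    ⟨_, rfl⟩
  have hn : (n : ℝ) * Dq (Hs sy.ys.im) (1 / 2 - sy.ys.re) (1 / 2 - y.re) ≤
      v * Dq (Hs sy.ys.im) (1 / 2 - sy.ys.re) (1 / 2 - y.re) := by
    by_cases c1 : sy.x = ⟨3, true⟩
    · rw [if_pos c1] at k1
      have n1 : n = 1 := by simpa using k1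
      rw [n1, hv]
      by_cases c2 : sy.S = true ∨ py ≠ .F
      · rw [if_pos ⟨c1, c2⟩]
        norm_num
      · rw [if_neg (fun h => c2 h.2)]
        have hF : py = .F := by
          by_contra hc
          exact c2 (Or.inr hc)
        have r : 3 / 20 ≤ y.re := by
          rcases yr with ⟨-, r2, -⟩ | ⟨r1, -, -⟩ | ⟨r1, -, -⟩
          · exact r2
          · rw [hF] at r1; exact absurd r1 (by simp)
          · rw [hF] at r1; exact absurd r1 (by simp)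
        have := D2_nonneg (s := Hs sy.ys.im) (x0 := 1 / 2 - sy.ys.re) (x := 1 / 2 - y.re) (Hs_nonneg _)
          b1 b2 y0 (by linarith)
        push_cast
        linarith
    · rw [if_neg c1] at k1
      have n1 : n = 2 := by simpa using k1
      rw [n1, hv, if_neg (fun h => c1 h.1)]
      norm_num
  -- the constants
  have cy : -Pool.Agent.S5.hT sy.S ⟨3, false⟩ sy.x py ≤ 0 ∨ (f4 = true ∧ 1 / 2 ≤ 1 / 2 - y.re ∧
      -Pool.Agent.S5.hT sy.S ⟨3, false⟩ sy.x py = 1 / 20) := by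
    rcases yr with ⟨r1, r2, r3⟩ | ⟨r1, r2, r3⟩ | ⟨r1, r2, r3⟩
    · left; rw [r1, hT3_FH _ _ (Or.inl rfl)]; norm_num
    · left; rw [r1, hT3_FH _ _ (Or.inr rfl)]; norm_num
    · rw [r1, hT3_G]
      by_cases c1 : sy.S = true ∧ sy.x = ⟨3, true⟩
      · left; rw [if_pos c1]; norm_num
      · rw [if_neg c1]
        by_cases c2 : sy.S = true ∧ sy.x = ⟨4, true⟩
        · right
          rw [if_pos c2] at k2 ⊢
          exact ⟨k2, by linarith, by norm_num⟩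
        · left; rw [if_neg c2]; norm_num
  have cb : (1 / 2 - b.re ≤ 1 / 2 ∧ Pool.Agent.S5.hT sb.S ⟨3, false⟩ sb.x pb = 0) ∨
      (1 / 2 ≤ 1 / 2 - b.re ∧ -Pool.Agent.S5.hT sb.S ⟨3, false⟩ sb.x pb ≤ nd kb) := by
    rcases br with ⟨r1, r2, r3⟩ | ⟨r1, r2, r3⟩ | ⟨r1, r2, r3⟩
    · left; exact ⟨by linarith, by rw [r1, hT3_FH _ _ (Or.inl rfl)]⟩
    · left; exact ⟨by linarith, by rw [r1, hT3_FH _ _ (Or.inr rfl)]⟩
    · right
      refine ⟨by linarith, ?_⟩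
      rw [r1, hT3_G]
      rcases kbx with ⟨c1, c2, c3⟩ | ⟨c1, c2, c3⟩ | ⟨c1, c2, c3⟩
      · rw [if_pos ⟨c2, c1⟩, c3]; unfold nd; norm_num
      · rw [if_neg (by rw [c2]; simp), if_neg (by rw [c2]; simp), c3]; unfold nd; norm_num
      · rw [if_neg (fun h => c1 h.2)]
        by_cases c4 : sb.S = true ∧ sb.x = ⟨4, true⟩
        · rw [if_pos c4, c3 c4]; unfold nd; norm_num
        · rw [if_neg c4]
          have : 0 ≤ nd kb := by
            unfold nd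
            rw [if_neg (show ¬kb = 3 by omega)]
            split_ifs <;> norm_num
          linarith
  unfold VT VV at A1 A2 A3
  rcases cb with ⟨u1, u2⟩ | ⟨u1, u2⟩
  · rcases cy with u3 | ⟨u3, u4, u5⟩
    · rcases A1 u1 with u6 | ⟨u6, u7, u8⟩
      · left
        rw [hv] at hn
        rw [hw] at u6
        linarith
      · right
        have v1 : y.re = sy.ys.re := by linarith
        have v2 : b.re = sb.ys.re := by linarith
        have v3 : z.re = zs.re := by linarith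
        refine ⟨Complex.ext v1 yi, Complex.ext v3 hz, Complex.ext v2 bi, ?_, ?_⟩
        · rcases yr with ⟨r1, -, -⟩ | ⟨-, -, r3⟩ | ⟨-, -, r3⟩
          · exact r1
          · linarith
          · linarith
        · rcases br with ⟨r1, -, -⟩ | ⟨-, -, r3⟩ | ⟨-, -, r3⟩
          · exact r1
          · linarith
          · linarith
    · left
      have u6 := (A3 u3 u4).1 u1
      rw [hv] at hn
      rw [hw] at u6
      linarith
  · rcases cy with u3 | ⟨u3, u4, u5⟩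
    · left
      have u6 := A2 u1
      rw [hv] at hn
      rw [hw] at u6
      linarith
    · left
      have u6 := (A3 u3 u4).2 u1
      rw [hv] at hn
      rw [hw] at u6
      linarith

end Pool.Agent.S5.Y3
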