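import Pool.Agent.S5.I.Y3N5
import Pool.Agent.S5.I.Y3N7
import Pool.Agent.S5.I.Y3N8
import Pool.Agent.S5.I.Y3N9
import Pool.Agent.S5.I.Y3Nb
import Pool.Agent.S5.I.Y3Q

/-!
# The flats of a node with three half twists: the test is sound
-/

set_option autoImplicit false

namespace Pool.Agent.S5.Y3

open Complex Filter Topology Set Pool.Agent.S5.C2 Pool.Agent.S5.Num Pool.Agent.S5.K3
open Pool.Agent.S5 (Slt Pc Nt Ez3 Td Kc Kok)

theorem fN_el {f : ℕ → Bool} {n : ℕ} (h : fN f n = true) : ∃ m, m = n ∧ f m = true :=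
  ⟨n, rfl, by rwa [Pool.Agent.S5.Num.fN_eq] at h⟩

/-- The base point of the second part is at most `2/5`. -/
theorem tR_qb {d : Dx} {n kb : ℕ} {s1 s4 s3 s2 g5 p0 q0 qb : ℝ} (hd : d.Ok s1 s4 s3 s2 g5 p0 q0 qb)
    (h : tR d n kb = true) : qb ≤ 2 / 5 := by
  unfold tR at h
  obtain ⟨ub, -, h⟩ := fN_el h
  obtain ⟨C0, -, h⟩ := fN_el h
  obtain ⟨X, -, h⟩ := fN_el h
  obtain ⟨b2, e2, h⟩ := fN_el h
  obtain ⟨HC, -, h⟩ := fN_el h
  obtain ⟨HB, -, h⟩ := fN_el h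
  obtain ⟨HB0, -, h⟩ := fN_el h
  obtain ⟨NG, -, h⟩ := fN_el h
  obtain ⟨-, h⟩ := cond_and h
  obtain ⟨-, h⟩ := cond_and h
  obtain ⟨-, h⟩ := cond_and h
  obtain ⟨h, -⟩ := cond_and h
  rw [e2] at h
  have h1 : (40 * d.qh + 1048575) / 1048576 ≤ 16 := Nat.le_of_ble_eq_true h
  have h2 : 40 * d.qh ≤ 16777216 := by omega
  have h3 : (40 : ℝ) * d.qh ≤ 16777216 := by exact_mod_cast h2
  have := hd.q2
  linarith

/-- **The parts from the tests.** -/
theorem pts_of {d : Dx} {n kb : ℕ} {f4 : Bool} {s1 s4 s3 s2 g5 p0 q0 qb : ℝ} (hn : n = 1 ∨ n = 2)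
    (hkb : kb ≤ 3) (hd : d.Ok s1 s4 s3 s2 g5 p0 q0 qb) (h1 : v1b d n f4 = true)
    (h2 : tR d n kb = true) (h3 : tS d kb = true) : ∃ R, Pts n kb f4 s1 s4 s3 s2 g5 p0 q0 qb R := by
  obtain ⟨V, M, F⟩ := v1b_ok hn hd h1
  obtain ⟨R, hR, c0, c1, c2⟩ := tR_ok hkb hd h2
  refine ⟨R, hd.B, hd.s20, hd.b0, tR_qb hd h2, ?_, ?_, hkb, V, M, F, ?_, c0, c1, ?_, tS_ok hkb hd h3⟩
  · have a := hd.u1
    have b : (157287 : ℝ) ≤ d.ul := by exact_mod_cast hd.u3
    linarith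
  · have a := hd.u2
    have b : (d.uh : ℝ) ≤ 524287 := by exact_mod_cast hd.u4
    linarith
  · rcases hR with hR | hR
    · exact Or.inl hR
    · right
      rw [hR]
      refine rsv_ok hn hd fun p q a b c e => ?_
      rcases V p q a (by linarith) c e with k | ⟨rfl, rfl⟩
      · exact k.le
      · rw [VV_self]
  · intro j a b i e
    have k := c2 j a b i e
    refine ⟨k.1, fun hk => ?_⟩
    have k2 := k.2 hk
    unfold nd
    rw [if_neg (show ¬kb = 3 by omega), sub_zero]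
    exact k2

theorem fl3k_n {n kb : ℕ} {f4 Sy Sb : Bool} {xy xb : Nt} (h : fl3k n f4 kb Sy xy Sb xb = true) :
    (n = 1 ∨ n = 2) ∧ kb ≤ 3 := by
  unfold fl3k at h
  rw [Bool.and_eq_true, Bool.and_eq_true] at h
  obtain ⟨⟨h1, -⟩, h3⟩ := h
  constructor
  · split_ifs at h1
    · exact Or.inl (by simpa using h1)
    · exact Or.inr (by simpa using h1)
  · split_ifs at h3
    · have : kb = 3 := by simpa using h3
      omega
    · have : kb = 2 := by simpa using h3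
      omega
    · have : kb = 1 := by simpa using h3
      omega
    · have : kb = 0 ∨ kb = 1 := by simpa using h3
      omega

/-- **The test of the flats is sound.** -/
theorem fl3_sound {n kb : ℕ} {f4 : Bool} {o : OutB} {sy sb : Slt} {zs : ℂ} {z1 : ℝ}
    (h : fl3 n f4 kb o = true) (ho : o.In5 sy.lam sb.lam sy.ys zs sb.ys) (hey : sy.ex = true)
    (heb : sb.ex = true) (hk : fl3k n f4 kb sy.S sy.x sb.S sb.x = true) (hz1 : z1 ≤ 2 / 5) :
    RwF z1 zs sy sb ∧ RwQ zs sy sb := by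
  unfold fl3 at h
  obtain ⟨h1, h⟩ := cond_and h
  obtain ⟨h2, h⟩ := cond_and h
  obtain ⟨d, h3, hd⟩ := bx3_ok h ho
  obtain ⟨h4, h5⟩ := cond_and h3
  obtain ⟨h5, h6⟩ := cond_and h5
  obtain ⟨hn, hkb⟩ := fl3k_n hk
  obtain ⟨R, hP⟩ := pts_of hn hkb hd h4 h5 h6
  have a1 : (67266151 : ℝ) ≤ o.ys.re.lo := by exact_mod_cast Nat.le_of_ble_eq_true h1
  have a2 : (67266151 : ℝ) ≤ o.bs.re.lo := by exact_mod_cast Nat.le_of_ble_eq_true h2
  have a3 := ho.cy.1.1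
  have a4 := ho.cb.1.1
  exact ⟨flats_ok hk hey heb hz1 (by linarith) (by linarith) hP, quad_ok (by omega) hP⟩

end Pool.Agent.S5.Y3
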