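import Pool.Agent.S5.I.InqC

/-!
# The statements of the nodes from the statements of the types
-/

set_option autoImplicit false

namespace Pool.Agent.S5

open Complex Pool.Agent.H63.VC Pool.Agent.H63.VC3 Pool.Agent.S3 Pool.Agent.S5.G
open scoped ComplexConjugate

variable {m : ℕ} {a : ℕ → ℕ} {S fl : ℕ → Bool} {z ql qr : ℕ → ℂ} {r : ℕ → ℤ} {K : Cn m}

/-! ### Slopes -/

theorem HG.slR_lam (h : HG m a S fl z ql qr r K) {i : ℕ}
    (hx : (slR m a S z qr i).ex = true) :
    (slR m a S z qr i).lam = 2 * hh (1 / 2 - sy (qr i) (z i)) -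
      he (sy (qr i) (z i) - z i / Real.pi) - he (sy (qr i) (z i) + z i / Real.pi) :=
  h.lamR (of_decide_eq_true hx)

theorem HG.slL_lam (h : HG m a S fl z ql qr r K) {i : ℕ} (hi : i ≤ m)
    (hx : (slL m a S z ql i).ex = true) :
    (slL m a S z ql i).lam = 2 * hh (1 / 2 - sy (ql i) (z i)) -
      he (sy (ql i) (z i) - z i / Real.pi) - he (sy (ql i) (z i) + z i / Real.pi) := by
  have h0 : 0 < i := of_decide_eq_true hx
  obtain ⟨k, rfl⟩ : ∃ k, i = k + 1 := ⟨i - 1, by omega⟩
  exact h.lamL (by omega)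

/-- The real parts of the slots are positive. -/
theorem HG.sy_pos (h : HG m a S fl z ql qr r K) {i : ℕ} (hi : i ≤ m) :
    0 < (sy (ql i) (z i)).re ∧ 0 < (sy (qr i) (z i)).re :=
  ⟨(h.frame i hi).1.sl.sy_re.1, (h.frame i hi).2.1.sl.sy_re.1⟩

/-! ### Closed nodes -/

theorem cl_slopes {f : Bool} {o A B v k : ℂ} (h : NodeF (-2) Ty.cl f o A B v k)
    (hA : 0 < A.re) (hB : 0 < B.re) :
    2 * hh (1 / 2 - A) - he (A - v) - he (A + v) = lcl A B ∧
      2 * hh (1 / 2 - B) - he (B - v) - he (B + v) = lcl B A := by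
  have hfd : fdom (A + B) := h.fd
  have hr := h.rcl rfl
  have h1 : 0 < (A + B).re := by
    rw [add_re]
    linarith
  have h2 : (A + B).re < 1 := (abs_lt.1 hr).2
  have ha : HasDerivAt (fun w => pC (-1) w B) (-he (A - v) - he (A + v)) A := h.da
  have hb : HasDerivAt (fun w => pC (-1) A w) (-he (B - v) - he (B + v)) B := h.db
  have ea := ha.unique (pC_da (-1) hfd)
  have eb := hb.unique (pC_db (-1) hfd)
  rw [he_eq_hh h1 h2] at ea eb
  unfold lcl
  refine ⟨?_, ?_⟩
  · push_cast at ea
    linear_combination ea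
  · rw [add_comm B A]
    push_cast at eb
    linear_combination eb

/-- **Two half twists.** -/
theorem HG.nd_cl (h : HG m a S fl z ql qr r K) {i : ℕ} (hi : i ≤ m) (ha : a i = 2)
    (hV : VCl (ntG m a i) (slL m a S z ql i) (slR m a S z qr i)) (z1 : ℝ) :
    ND m a S fl z ql qr r z1 i := by
  have hab := h.abs i hi
  have ht : tyG m r i = Ty.cl := tyG_two (by omega)
  have hF := (h.frame i hi).2.2
  rw [ha, ht] at hF
  obtain ⟨p1, p2⟩ := h.sy_pos hi
  obtain ⟨e1, e2⟩ := cl_slopes hF p1 p2
  refine ⟨fun _ A B => Ecl (slL m a S z ql i).ys (slR m a S z qr i).ys A B, ?_, ?_, ?_, ?_⟩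
  · rw [ha, ht]
    exact NEq_cl (fun hx => (h.slL_lam hi hx).trans e1) (fun hx => (h.slR_lam hx).trans e2)
  · rw [ht]
    exact hV.nok _ _ _
  · intro h0
    rw [ht] at h0
    exact absurd h0 (by simp)
  · obtain ⟨c, hc, ρ, hρ, hq⟩ := hV.quad
    refine ⟨c, hc, ρ, hρ, fun x s t _ hs ht' h1 h2 => ?_⟩
    rw [if_pos ht, zero_add]
    exact hq s t hs ht' h1 h2

/-! ### Nodes with a lattice variable -/

/-- The slot of the Bailey step and the other slot. -/
noncomputable def slB (m : ℕ) (a : ℕ → ℕ) (S fl : ℕ → Bool) (z ql qr : ℕ → ℂ) (i : ℕ) : Slt :=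
  if fl i = true then slR m a S z qr i else slL m a S z ql i

noncomputable def slO (m : ℕ) (a : ℕ → ℕ) (S fl : ℕ → Bool) (z ql qr : ℕ → ℂ) (i : ℕ) : Slt :=
  if fl i = true then slL m a S z ql i else slR m a S z qr i

theorem slB_ys (i : ℕ) : (slB m a S fl z ql qr i).ys = sy (qB' fl ql qr i) (z i) := by
  unfold slB qB'
  split_ifs <;> rfl

theorem slO_ys (i : ℕ) : (slO m a S fl z ql qr i).ys = sy (qO' fl ql qr i) (z i) := by
  unfold slO qO'
  split_ifs <;> rfl

theorem HG.slB_lam (h : HG m a S fl z ql qr r K) {i : ℕ} (hi : i ≤ m)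
    (hx : (slB m a S fl z ql qr i).ex = true) :
    (slB m a S fl z ql qr i).lam = 2 * hh (1 / 2 - sy (qB' fl ql qr i) (z i)) -
      he (sy (qB' fl ql qr i) (z i) - z i / Real.pi) -
        he (sy (qB' fl ql qr i) (z i) + z i / Real.pi) := by
  unfold slB qB' at *
  split_ifs at * with hf
  · exact h.slR_lam hx
  · exact h.slL_lam hi hx

theorem HG.slO_lam (h : HG m a S fl z ql qr r K) {i : ℕ} (hi : i ≤ m)
    (hx : (slO m a S fl z ql qr i).ex = true) :
    (slO m a S fl z ql qr i).lam = 2 * hh (1 / 2 - sy (qO' fl ql qr i) (z i)) -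
      he (sy (qO' fl ql qr i) (z i) - z i / Real.pi) -
        he (sy (qO' fl ql qr i) (z i) + z i / Real.pi) := by
  unfold slO qO' at *
  split_ifs at * with hf
  · exact h.slL_lam hi hx
  · exact h.slR_lam hx

theorem z3_slopes {p r z : ℂ} (h : N3 p r z) :
    2 * hh (1 / 2 - sy p z) - he (sy p z - z / Real.pi) - he (sy p z + z / Real.pi) =
      l3y (sy p z) (zz3 p r z) ∧
    2 * hh (1 / 2 - sy r z) - he (sy r z - z / Real.pi) - he (sy r z + z / Real.pi) =
      l3b (zz3 p r z) (sy r z) ∧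
    l3z (sy p z) (zz3 p r z) (sy r z) = 0 := by
  have e1 := h.da
  have e2 := h.db
  have e3 := h.dz
  rw [he_eq_hh h.g0.1 h.g0.2] at e1 e3
  rw [he_eq_hh h.g1.1 h.g1.2] at e2 e3
  rw [hh_half_sub (sy r z)] at e2
  unfold l3y l3b l3z
  refine ⟨?_, ?_, ?_⟩
  · linear_combination e1
  · linear_combination e2
  · linear_combination e3

theorem z4_slopes {p r z : ℂ} (h : N4 p r z) :
    2 * hh (1 / 2 - sy p z) - he (sy p z - z / Real.pi) - he (sy p z + z / Real.pi) =
      l4y (sy p z) (zz4 p r z) ∧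
    2 * hh (1 / 2 - sy r z) - he (sy r z - z / Real.pi) - he (sy r z + z / Real.pi) =
      l4b (zz4 p r z) (sy r z) ∧
    l4z (sy p z) (zz4 p r z) (sy r z) = 0 := by
  have e1 := h.da
  have e2 := h.db
  have e3 := h.dz
  rw [he_eq_hh h.g0.1 h.g0.2] at e1 e3
  rw [he_eq_hh h.g1.1 h.g1.2] at e2 e3
  unfold l4y l4b l4z
  refine ⟨?_, ?_, ?_⟩
  · linear_combination e1
  · linear_combination e2
  · linear_combination e3

/-- **Three half twists.** -/
theorem HG.nd_z3 (h : HG m a S fl z ql qr r K) {i : ℕ} (hi : i ≤ m) (ha : a i = 3) {z1 : ℝ}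
    (hV : VZ (Ez3 (slB m a S fl z ql qr i).ys (oF m r fl z ql qr i)
      (slO m a S fl z ql qr i).ys) (ntG m a i) z1 (oF m r fl z ql qr i)
      (slB m a S fl z ql qr i) (slO m a S fl z ql qr i)) :
    ND m a S fl z ql qr r z1 i := by
  have hab := h.abs i hi
  have hn3 : (r i).natAbs = 3 := by omega
  have ht : tyG m r i = Ty.zn := tyG_three hn3
  have ho : oF m r fl z ql qr i = zz3 (qB' fl ql qr i) (qO' fl ql qr i) (z i) := by
    unfold oF
    rw [ht]
    exact if_pos hn3
  have hO := h.bx.three i hi ha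
  have heq := h.crt.eq i hi
  rw [ha] at heq
  have hz : 3 * z i = Real.pi + I * (qB' fl ql qr i + qO' fl ql qr i) := by
    unfold qB' qO'
    push_cast at heq
    split_ifs <;> linear_combination heq
  obtain ⟨e1, e2, e3⟩ := z3_slopes (hO.N3 hz)
  have kB : ∀ hx : (slB m a S fl z ql qr i).ex = true, (slB m a S fl z ql qr i).lam =
      l3y (slB m a S fl z ql qr i).ys (oF m r fl z ql qr i) := fun hx => by
    rw [slB_ys, ho]
    exact (h.slB_lam hi hx).trans e1
  have kO : ∀ hx : (slO m a S fl z ql qr i).ex = true, (slO m a S fl z ql qr i).lam =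
      l3b (oF m r fl z ql qr i) (slO m a S fl z ql qr i).ys := fun hx => by
    rw [slO_ys, ho]
    exact (h.slO_lam hi hx).trans e2
  have kz : l3z (slB m a S fl z ql qr i).ys (oF m r fl z ql qr i)
      (slO m a S fl z ql qr i).ys = 0 := by
    rw [slB_ys, slO_ys, ho]
    exact e3
  obtain ⟨c, hc, ρ, hρ, hq⟩ := hV.quad
  by_cases hf : fl i = true
  · have b1 : slB m a S fl z ql qr i = slR m a S z qr i := if_pos hf
    have b2 : slO m a S fl z ql qr i = slL m a S z ql i := if_pos hf
    rw [b1, b2] at hV hq kz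
    rw [b1] at kB
    rw [b2] at kO
    refine ⟨fun o A B => Ez3 (slR m a S z qr i).ys (oF m r fl z ql qr i)
      (slL m a S z ql i).ys B o A, ?_, ?_, ?_, ?_⟩
    · rw [ha, ht, hf]
      exact NEq_z3' kz kO kB
    · rw [ht, hf]
      exact hV.nok'
    · intro h0
      rw [ht] at h0
      exact absurd h0 (by simp)
    · refine ⟨c, hc, ρ, hρ, fun x s t hx hs ht' h1 h2 => ?_⟩
      rw [if_neg (by rw [ht]; simp)]
      have := hq t x s ht' hx hs h2 h1
      linarith
  · have b1 : slB m a S fl z ql qr i = slL m a S z ql i := if_neg hf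
    have b2 : slO m a S fl z ql qr i = slR m a S z qr i := if_neg hf
    have hf' : fl i = false := by simpa using hf
    rw [b1, b2] at hV hq kz
    rw [b1] at kB
    rw [b2] at kO
    refine ⟨fun o A B => Ez3 (slL m a S z ql i).ys (oF m r fl z ql qr i)
      (slR m a S z qr i).ys A o B, ?_, ?_, ?_, ?_⟩
    · rw [ha, ht, hf']
      exact NEq_z3 kz kB kO
    · rw [ht, hf']
      exact hV.nok
    · intro h0
      rw [ht] at h0
      exact absurd h0 (by simp)
    · refine ⟨c, hc, ρ, hρ, fun x s t hx hs ht' h1 h2 => ?_⟩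
      rw [if_neg (by rw [ht]; simp)]
      have := hq s x t hs hx ht' h1 h2
      linarith

/-- **Four half twists**, inner nodes. -/
theorem HG.nd_z4 (h : HG m a S fl z ql qr r K) {i : ℕ} (hi0 : 0 < i) (him : i < m)
    (ha : a i = 4) {z1 : ℝ}
    (hV : VZ (Ez4 (slB m a S fl z ql qr i).ys (oF m r fl z ql qr i)
      (slO m a S fl z ql qr i).ys) (ntG m a i) z1 (oF m r fl z ql qr i)
      (slB m a S fl z ql qr i) (slO m a S fl z ql qr i)) :
    ND m a S fl z ql qr r z1 i := by
  have hi : i ≤ m := him.le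
  have hab := h.abs i hi
  have hn3 : ¬ (r i).natAbs = 3 := by omega
  have ht : tyG m r i = Ty.zn := tyG_four (by omega) (by omega) (by omega)
  have ho : oF m r fl z ql qr i = zz4 (qB' fl ql qr i) (qO' fl ql qr i) (z i) := by
    unfold oF
    rw [ht]
    exact if_neg hn3
  have hO : O4 (qB' fl ql qr i) (qO' fl ql qr i) := by
    have h4 := h.bx.four i hi0 him ha
    unfold qB' qO'
    split_ifs
    · exact h4.symm
    · exact h4
  have heq := h.crt.eq i hi
  rw [ha] at heq
  have hz : 4 * z i = Real.pi + I * (qB' fl ql qr i + qO' fl ql qr i) := by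
    unfold qB' qO'
    push_cast at heq
    split_ifs <;> linear_combination heq
  obtain ⟨e1, e2, e3⟩ := z4_slopes (hO.N4 hz)
  have kB : ∀ hx : (slB m a S fl z ql qr i).ex = true, (slB m a S fl z ql qr i).lam =
      l4y (slB m a S fl z ql qr i).ys (oF m r fl z ql qr i) := fun hx => by
    rw [slB_ys, ho]
    exact (h.slB_lam hi hx).trans e1
  have kO : ∀ hx : (slO m a S fl z ql qr i).ex = true, (slO m a S fl z ql qr i).lam =
      l4b (oF m r fl z ql qr i) (slO m a S fl z ql qr i).ys := fun hx => by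
    rw [slO_ys, ho]
    exact (h.slO_lam hi hx).trans e2
  have kz : l4z (slB m a S fl z ql qr i).ys (oF m r fl z ql qr i)
      (slO m a S fl z ql qr i).ys = 0 := by
    rw [slB_ys, slO_ys, ho]
    exact e3
  obtain ⟨c, hc, ρ, hρ, hq⟩ := hV.quad
  by_cases hf : fl i = true
  · have b1 : slB m a S fl z ql qr i = slR m a S z qr i := if_pos hf
    have b2 : slO m a S fl z ql qr i = slL m a S z ql i := if_pos hf
    rw [b1, b2] at hV hq kz
    rw [b1] at kB
    rw [b2] at kO
    refine ⟨fun o A B => Ez4 (slR m a S z qr i).ys (oF m r fl z ql qr i)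
      (slL m a S z ql i).ys B o A, ?_, ?_, ?_, ?_⟩
    · rw [ha, ht, hf]
      exact NEq_z4' kz kO kB
    · rw [ht, hf]
      exact hV.nok'
    · intro h0
      rw [ht] at h0
      exact absurd h0 (by simp)
    · refine ⟨c, hc, ρ, hρ, fun x s t hx hs ht' h1 h2 => ?_⟩
      rw [if_neg (by rw [ht]; simp)]
      have := hq t x s ht' hx hs h2 h1
      linarith
  · have b1 : slB m a S fl z ql qr i = slL m a S z ql i := if_neg hf
    have b2 : slO m a S fl z ql qr i = slR m a S z qr i := if_neg hf
    have hf' : fl i = false := by simpa using hf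
    rw [b1, b2] at hV hq kz
    rw [b1] at kB
    rw [b2] at kO
    refine ⟨fun o A B => Ez4 (slL m a S z ql i).ys (oF m r fl z ql qr i)
      (slR m a S z qr i).ys A o B, ?_, ?_, ?_, ?_⟩
    · rw [ha, ht, hf']
      exact NEq_z4 kz kB kO
    · rw [ht, hf']
      exact hV.nok
    · intro h0
      rw [ht] at h0
      exact absurd h0 (by simp)
    · refine ⟨c, hc, ρ, hρ, fun x s t hx hs ht' h1 h2 => ?_⟩
      rw [if_neg (by rw [ht]; simp)]
      have := hq s x t hs hx ht' h1 h2
      linarith

/-! ### Open nodes -/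

theorem Es_even {ys vs : ℂ} (hi : vs.im ≠ 0) (y v : ℂ) (hv : v.im = 0) :
    Es ys vs y (-v) = Es ys vs y v := by
  have hpi := Real.pi_ne_zero
  have e1 : Td (ys - vs) (y - -v) = Td (ys + vs) (y + v) + (Rf (ys - vs) - Rf (ys + vs)) +
      ((hh (ys - vs) * (y + v - (ys - vs))).re - (hh (ys + vs) * (y + v - (ys + vs))).re) := by
    unfold Td
    rw [sub_neg_eq_add]
    ring
  have e2 : Td (ys + vs) (y + -v) = Td (ys - vs) (y - v) + (Rf (ys + vs) - Rf (ys - vs)) +
      ((hh (ys + vs) * (y - v - (ys + vs))).re - (hh (ys - vs) * (y - v - (ys - vs))).re) := by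
    unfold Td
    rw [← sub_eq_add_neg]
    ring
  have hb : 2 * Real.pi * bn ys vs * vs.im = (hh (ys + vs)).re - (hh (ys - vs)).re := by
    rw [hh_re, hh_re]
    unfold bn
    field_simp
  unfold Es Ev
  rw [e1, e2]
  simp only [neg_re, neg_im, sub_re, sub_im, add_re, add_im, mul_re, hv]
  linear_combination (2 * v.re) * hb

/-- **Open nodes**: more than four half twists, and ends with four half twists. -/
theorem HG.nd_v (h : HG m a S fl z ql qr r K) {i : ℕ} (hi : i ≤ m)
    (ha : 5 ≤ a i ∨ (a i = 4 ∧ (i = 0 ∨ i = m)))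
    {x1 : ℝ} (hL : 0 < i → VS (ntG m a i) x1 (z i / Real.pi) (slL m a S z ql i))
    (hR : i < m → VS (ntG m a i) x1 (z i / Real.pi) (slR m a S z qr i)) :
    ND m a S fl z ql qr r x1 i := by
  have hpi := Real.pi_pos
  have hab := h.abs i hi
  have hm := h.crt.hR
  have ht : tyG m r i = Ty.vn := by
    apply tyG_vn (by omega)
    intro h5
    omega
  have ho : oF m r fl z ql qr i = z i / Real.pi := by
    unfold oF
    rw [ht]
  have hvi : 0 < (z i / Real.pi).im := by
    rw [show z i / (Real.pi : ℂ) = ((1 / Real.pi : ℝ) : ℂ) * z i by push_cast; ring, im_ofReal_mul]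
    have := h.crt.zim i hi
    positivity
  obtain ⟨f1, f2, -⟩ := h.frame i hi
  -- positivity
  have pos : ∀ q : ℂ, SF q (z i) → 0 < (sy q (z i) - z i / Real.pi).re →
      he (sy q (z i) - z i / Real.pi) = hh (sy q (z i) - z i / Real.pi) ∧
        he (sy q (z i) + z i / Real.pi) = hh (sy q (z i) + z i / Real.pi) := by
    intro q hq hp
    have y1 := hq.sl.ymv
    have y2 := hq.sl.yv
    exact ⟨he_eq_hh hp (by linarith [y1.2]), he_eq_hh y2.1 y2.2⟩
  have half : 0 < ((1 : ℂ) / 2 - z i / Real.pi).re := by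
    rw [sub_re, show z i / (Real.pi : ℂ) = ((1 / Real.pi : ℝ) : ℂ) * z i by push_cast; ring,
      re_ofReal_mul]
    have h2 := (h.crt.zre i hi).2
    have h3 : 1 / Real.pi * (z i).re < 1 / 2 := by
      rw [one_div, inv_mul_lt_iff₀ hpi]
      linarith
    have h4 : ((1 : ℂ) / 2).re = 1 / 2 := by norm_num
    rw [h4]
    linarith
  have pL : 0 < (sy (ql i) (z i) - z i / Real.pi).re := by
    rcases Nat.eq_zero_or_pos i with h0 | h0
    · have e : sy (ql i) (z i) = 1 / 2 := by
        rw [h0]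
        exact h.slL_zero
      rw [e]
      exact half
    · obtain ⟨k, rfl⟩ : ∃ k, i = k + 1 := ⟨i - 1, by omega⟩
      exact (h.bx.vl k (by omega) (by omega)).2
  have pR : 0 < (sy (qr i) (z i) - z i / Real.pi).re := by
    rcases Nat.lt_or_ge i m with h0 | h0
    · exact (h.bx.vr i h0 (by omega)).2
    · have him : i = m := by omega
      have e : sy (qr i) (z i) = 1 / 2 := by
        rw [him]
        exact h.slR_last
      rw [e]
      exact half
  obtain ⟨l1, l2⟩ := pos _ f1 pL
  obtain ⟨r1, r2⟩ := pos _ f2 pR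
  have hly : ∀ w v : ℂ, 2 * hh (1 / 2 - w) - hh (w - v) - hh (w + v) = ly 2 w v := by
    intro w v
    unfold ly
    push_cast
    ring
  have lamL : (slL m a S z ql i).ex = true → (slL m a S z ql i).lam =
      ly 2 (slL m a S z ql i).ys (z i / Real.pi) := by
    intro hx
    rw [h.slL_lam hi hx, l1, l2]
    exact hly _ _
  have lamR : (slR m a S z qr i).ex = true → (slR m a S z qr i).lam =
      ly 2 (slR m a S z qr i).ys (z i / Real.pi) := by
    intro hx
    rw [h.slR_lam hx, r1, r2]
    exact hly _ _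
  have dumL : (slL m a S z ql i).ex = false → (slL m a S z ql i).ys = 1 / 2 := by
    intro hx
    have h0 : i = 0 := by
      have := of_decide_eq_false hx
      omega
    rw [h0]
    exact h.slL_zero
  have dumR : (slR m a S z qr i).ex = false → (slR m a S z qr i).ys = 1 / 2 := by
    intro hx
    have h0 : i = m := by
      have := of_decide_eq_false hx
      omega
    rw [h0]
    exact h.slR_last
  have hv : 2 * Real.pi * I * (1 - (a i : ℕ) * (z i / Real.pi)) +
      lv (slL m a S z ql i).ys (z i / Real.pi) + lv (slR m a S z qr i).ys (z i / Real.pi) = 0 := by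
    have key := f1.dv f2 (h.crt.eq i hi)
    rw [l1, l2, r1, r2] at key
    have e1 : lv (slL m a S z ql i).ys (z i / Real.pi) =
      hh (sy (ql i) (z i) - z i / Real.pi) - hh (sy (ql i) (z i) + z i / Real.pi) := rfl
    have e2 : lv (slR m a S z qr i).ys (z i / Real.pi) =
      hh (sy (qr i) (z i) - z i / Real.pi) - hh (sy (qr i) (z i) + z i / Real.pi) := rfl
    rw [e1, e2]
    linear_combination key
  have hxx : (slL m a S z ql i).ex = true ∨ (slR m a S z qr i).ex = true := by
    rcases Nat.eq_zero_or_pos i with h0 | h0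
    · right
      exact decide_eq_true (by omega)
    · left
      exact decide_eq_true h0
  have vL : (slL m a S z ql i).ex = true → VS (ntG m a i) x1 (z i / Real.pi) (slL m a S z ql i) :=
    fun hx => hL (of_decide_eq_true hx)
  have hen : (slL m a S z ql i).ex = true → (slR m a S z qr i).ex = true →
      (ntG m a i).e = false := by
    intro h1 h2
    have h3 : 0 < i := of_decide_eq_true h1
    have h4 : i < m := of_decide_eq_true h2
    exact decide_eq_false (by omega)
  have vR : (slR m a S z qr i).ex = true → VS (ntG m a i) x1 (z i / Real.pi) (slR m a S z qr i) :=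
    fun hx => hR (of_decide_eq_true hx)
  refine ⟨fun o A B => (slL m a S z ql i).v (z i / Real.pi) A o +
    (slR m a S z qr i).v (z i / Real.pi) B o, ?_, ?_, ?_, ?_⟩
  · rw [ht, ho]
    exact NEq_v hvi.ne' hv lamL lamR dumL dumR
  · rw [ht, ho]
    exact VS.nok vL vR hxx hen dumL dumR _
  · intro _ o A B h0
    have e : ∀ (s : Slt) (w : ℂ), s.v (z i / Real.pi) w (-o) = s.v (z i / Real.pi) w o := by
      intro s w
      unfold Slt.v
      split_ifs
      · exact Es_even hvi.ne' _ _ h0
      · rfl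
    simp only [e]
  · -- the quadratic bound
    have one : ∀ s : Slt, (s.ex = true → VS (ntG m a i) x1 (z i / Real.pi) s) →
        ∃ c : ℝ, 0 < c ∧ ∃ ρ : ℝ, 0 < ρ ∧ ∀ t x : ℝ, |t| ≤ ρ → |x| ≤ ρ →
          (s.ex = false → t = 0) → s.v (z i / Real.pi) (s.ys + t) (z i / Real.pi + x) ≤
            -(c * (t ^ 2 + (if s.ex = true then x ^ 2 else 0))) := by
      intro s hs
      by_cases hx : s.ex = true
      · obtain ⟨c, hc, ρ, hρ, hq⟩ := (hs hx).quad
        refine ⟨c, hc, ρ, hρ, fun t x h1 h2 _ => ?_⟩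
        unfold Slt.v
        rw [if_pos hx, if_pos hx]
        exact hq t x h1 h2
      · refine ⟨1, one_pos, 1, one_pos, fun t x _ _ h3 => ?_⟩
        unfold Slt.v
        rw [if_neg hx, if_neg hx, h3 (by simpa using hx)]
        norm_num
    obtain ⟨c, hc, ρ, hρ, hq⟩ := one _ vL
    obtain ⟨c', hc', ρ', hρ', hq'⟩ := one _ vR
    refine ⟨min c c', lt_min hc hc', min ρ ρ', lt_min hρ hρ', fun x s t hx hs ht' h1 h2 => ?_⟩
    have k1 := hq s x (hs.trans (min_le_left _ _)) (hx.trans (min_le_left _ _)) h1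
    have k2 := hq' t x (ht'.trans (min_le_right _ _)) (hx.trans (min_le_right _ _)) h2
    rw [if_neg (by rw [ht]; simp), ho]
    have m1 := min_le_left c c'
    have m2 := min_le_right c c'
    have m3 := lt_min hc hc'
    have x2 := sq_nonneg x
    have s2 := sq_nonneg s
    have t2 := sq_nonneg t
    have key : x ^ 2 ≤ (if (slL m a S z ql i).ex = true then x ^ 2 else 0) +
        (if (slR m a S z qr i).ex = true then x ^ 2 else 0) := by
      rcases hxx with h3 | h3
      · rw [if_pos h3]
        split_ifs <;> linarith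
      · rw [if_pos h3]
        split_ifs <;> linarith
    have u1 : 0 ≤ (if (slL m a S z ql i).ex = true then x ^ 2 else 0) := by
      split_ifs <;> linarith
    have u2 : 0 ≤ (if (slR m a S z qr i).ex = true then x ^ 2 else 0) := by
      split_ifs <;> linarith
    set U := (if (slL m a S z ql i).ex = true then x ^ 2 else 0) with hU
    set U' := (if (slR m a S z qr i).ex = true then x ^ 2 else 0) with hU'
    have g1 : min c c' * (s ^ 2 + U) ≤ c * (s ^ 2 + U) :=
      mul_le_mul_of_nonneg_right m1 (by linarith)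
    have g2 : min c c' * (t ^ 2 + U') ≤ c' * (t ^ 2 + U') :=
      mul_le_mul_of_nonneg_right m2 (by linarith)
    have g3 : min c c' * x ^ 2 ≤ min c c' * (U + U') :=
      mul_le_mul_of_nonneg_left key m3.le
    simp only []
    nlinarith

end Pool.Agent.S5
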