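import Pool.Agent.S5.I.V5m
import Pool.Agent.S5.I.NdC
import Pool.Agent.S5.E.VX.VUf

/-!
# The slots of the nodes with five or more half twists in the chain
-/

set_option autoImplicit false

namespace Pool.Agent.S5

open Complex
open Pool.Agent.H63.VC3 (hh)
open Pool.Agent.S3 (he he_eq_hh)
open Pool.Agent.S5.E (Vt kd vL vR)
open Pool.Agent.S5.E.VX (VUc kU VUx KE0 KE1 KL KX KN)
open Pool.Agent.S5.G (SF sy)

/-! ### The slopes -/

section
variable {m : ℕ} {a : ℕ → ℕ} {S fl : ℕ → Bool} {z ql qr : ℕ → ℂ} {r : ℕ → ℤ} {K : Cn m}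

theorem ly_he {q z : ℂ} (hq : SF q z) (hp : 0 < (sy q z - z / Real.pi).re) :
    2 * hh (1 / 2 - sy q z) - he (sy q z - z / Real.pi) - he (sy q z + z / Real.pi) =
      ly 2 (sy q z) (z / Real.pi) := by
  have y1 := hq.sl.ymv
  have y2 := hq.sl.yv
  rw [he_eq_hh hp (by linarith [y1.2]), he_eq_hh y2.1 y2.2]
  unfold ly
  push_cast
  ring

theorem HG.lamR_ly (h : HG m a S fl z ql qr r K) {i : ℕ} (hi : i < m)
    (ha : 5 ≤ a i ∨ (a i = 4 ∧ i = 0)) :
    (slR m a S z qr i).lam = ly 2 (slR m a S z qr i).ys (z i / Real.pi) := by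
  rw [h.slR_lam (decide_eq_true hi)]
  exact ly_he (h.frame i hi.le).2.1 (h.bx.vr i hi ha).2

theorem HG.lamL_ly (h : HG m a S fl z ql qr r K) {i : ℕ} (hi : i < m)
    (ha : 5 ≤ a (i + 1) ∨ (a (i + 1) = 4 ∧ i + 1 = m)) :
    (slL m a S z ql (i + 1)).lam = ly 2 (slL m a S z ql (i + 1)).ys (z (i + 1) / Real.pi) := by
  rw [h.slL_lam hi (decide_eq_true (Nat.succ_pos i))]
  exact ly_he (h.frame (i + 1) hi).1 (h.bx.vl i hi ha).2

end

/-! ### From the kinds -/

/-- The ranges of the kinds. -/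
structure Rgs (n x : Nt) (S : Bool) (ys vs : ℂ) : Prop where
  e0 : -(13 / 100) ≤ ys.im
  re : x.e = false → x.a ≤ 4 → -(1 / 10) ≤ ys.im
  rs : x.a = 3 ∨ x = ⟨4, false⟩ → S = true → 0 ≤ ys.im ∧ ys.im ≤ 2 / 25
  ra : x.a = 3 ∨ x = ⟨4, false⟩ → S = false → -(3 / 40) ≤ ys.im ∧ ys.im ≤ 1 / 200
  c2 : x = ⟨2, true⟩ → VC2 ys vs
  c3a : x = ⟨3, true⟩ → S = false → VC3a ys vs
  c3s : x = ⟨3, true⟩ → S = true → VC3s ys vs
  c4 : x = ⟨4, true⟩ → 6 ≤ n.a → VC4 ys vs
  c5 : x = ⟨3, false⟩ → 6 ≤ n.a → VC5 ys vs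

theorem Rgs_none {Ja Ia : ℕ} {Js Is e : Bool} {Jo : Option Bool} {ys vs : ℂ} (hI2 : 2 ≤ Ia)
    (h : VUc (kU ⟨Ja, Js, Jo⟩ ⟨Ia, Is, none⟩) ys vs) :
    Rgs ⟨min Ja 6, e⟩ ⟨min Ia 6, true⟩ Js ys vs := by
  have u0 := h.u0
  have u1 := h.u1
  have ul := h.ul
  have ux := h.ux
  have un := h.un
  clear h
  rcases (show Ia = 2 ∨ Ia = 3 ∨ Ia = 4 ∨ 5 ≤ Ia by omega) with rfl | rfl | rfl | h5
  · -- `2`, end
    norm_num [kU, KE0, KE1, KL, KX, KN] at u0 u1 ul ux un
    refine ⟨by linarith, by simp, by simp, by simp, fun _ => ⟨?_, ?_, ?_, ?_, ?_⟩, by simp,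
      by simp, by simp, by simp⟩
    all_goals linarith
  · -- `3`, end
    cases Js
    · norm_num [kU, KE0, KE1, KL, KX, KN] at u0 u1 ul ux un
      refine ⟨by linarith, by simp, by simp, fun _ _ => ⟨by linarith, by linarith⟩, by simp,
        fun _ _ => ⟨?_, ?_, ?_, ?_, ?_⟩, by simp, by simp, by simp⟩
      all_goals linarith
    · norm_num [kU, KE0, KE1, KL, KX, KN] at u0 u1 ul ux un
      refine ⟨by linarith, by simp, fun _ _ => ⟨by linarith, by linarith⟩, by simp, by simp,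
        by simp, fun _ _ => ⟨?_, ?_, ?_, ?_, ?_⟩, by simp, by simp⟩
      all_goals linarith
  · -- `4`, end
    rcases Nat.lt_or_ge Ja 6 with h6 | h6
    · have hb : Nat.ble 6 Ja = false := by
        rw [← Bool.not_eq_true, Nat.ble_eq]
        omega
      norm_num [kU, hb, KE0, KE1, KL, KX, KN] at u0 u1 ul ux un
      refine ⟨by linarith, by simp, by simp, by simp, by simp, by simp, by simp, fun _ h => ?_,
        by simp⟩
      exact absurd h (by show ¬6 ≤ min Ja 6; omega)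
    · have hb : Nat.ble 6 Ja = true := by
        rw [Nat.ble_eq]
        exact h6
      cases Js
      · norm_num [kU, hb, KE0, KE1, KL, KX, KN] at u0 u1 ul ux un
        refine ⟨by linarith, by simp, by simp, by simp, by simp, by simp, by simp,
          fun _ _ => ⟨?_, ?_, ?_, ?_, ?_⟩, by simp⟩
        all_goals linarith
      · norm_num [kU, hb, KE0, KE1, KL, KX, KN] at u0 u1 ul ux un
        refine ⟨by linarith, by simp, by simp, by simp, by simp, by simp, by simp,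
          fun _ _ => ⟨?_, ?_, ?_, ?_, ?_⟩, by simp⟩
        all_goals linarith
  · obtain ⟨k, rfl⟩ : ∃ k, Ia = k + 5 := ⟨Ia - 5, by omega⟩
    have hk : kU ⟨Ja, Js, Jo⟩ ⟨k + 5, Is, none⟩ = 0 := rfl
    rw [hk] at u0
    norm_num [KE0] at u0
    have e2 : min (k + 5) 6 ≠ 2 := by omega
    have e3 : min (k + 5) 6 ≠ 3 := by omega
    have e4 : min (k + 5) 6 ≠ 4 := by omega
    refine ⟨by linarith, by simp, by simp [e3], by simp [e3], by simp [e2], by simp [e3],
      by simp [e3], by simp [e4], by simp⟩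

theorem Rgs_some {Ja Ia : ℕ} {Js Is e o : Bool} {Jo : Option Bool} {ys vs : ℂ} (hI2 : 2 ≤ Ia)
    (h : VUc (kU ⟨Ja, Js, Jo⟩ ⟨Ia, Is, some o⟩) ys vs) :
    Rgs ⟨min Ja 6, e⟩ ⟨min Ia 6, false⟩ Js ys vs := by
  have u0 := h.u0
  have u1 := h.u1
  have ul := h.ul
  have ux := h.ux
  have un := h.un
  clear h
  rcases (show Ia = 2 ∨ Ia = 3 ∨ Ia = 4 ∨ 5 ≤ Ia by omega) with rfl | rfl | rfl | h5
  · -- `2`
    have hk : kU ⟨Ja, Js, Jo⟩ ⟨2, Is, some o⟩ = 0 := rfl
    rw [hk] at u0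
    norm_num [KE0] at u0
    refine ⟨by linarith, fun _ _ => by linarith, by simp, by simp, by simp, by simp,
      by simp, by simp, by simp⟩
  · -- `3`
    rcases Nat.lt_or_ge Ja 6 with h6 | h6
    · have hb : Nat.ble 6 Ja = false := by
        rw [← Bool.not_eq_true, Nat.ble_eq]
        omega
      have c5 : ∀ x : Prop, 6 ≤ (⟨min Ja 6, e⟩ : Nt).a → x := fun x h =>
        absurd h (by show ¬6 ≤ min Ja 6; omega)
      cases Js
      · norm_num [kU, hb, KE0, KE1, KL, KX, KN] at u0 u1 ul ux un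
        exact ⟨by linarith, fun _ _ => by linarith, by simp,
          fun _ _ => ⟨by linarith, by linarith⟩, by simp, by simp, by simp, by simp,
          fun _ h => c5 _ h⟩
      · norm_num [kU, hb, KE0, KE1, KL, KX, KN] at u0 u1 ul ux un
        exact ⟨by linarith, fun _ _ => by linarith,
          fun _ _ => ⟨by linarith, by linarith⟩, by simp, by simp, by simp, by simp, by simp,
          fun _ h => c5 _ h⟩
    · have hb : Nat.ble 6 Ja = true := by
        rw [Nat.ble_eq]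
        exact h6
      cases Js
      · norm_num [kU, hb, KE0, KE1, KL, KX, KN] at u0 u1 ul ux un
        refine ⟨by linarith, fun _ _ => by linarith, by simp,
          fun _ _ => ⟨by linarith, by linarith⟩, by simp, by simp, by simp, by simp,
          fun _ _ => ⟨?_, ?_, ?_, ?_, ?_⟩⟩
        all_goals linarith
      · norm_num [kU, hb, KE0, KE1, KL, KX, KN] at u0 u1 ul ux un
        refine ⟨by linarith, fun _ _ => by linarith,
          fun _ _ => ⟨by linarith, by linarith⟩, by simp, by simp, by simp, by simp, by simp,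
          fun _ _ => ⟨?_, ?_, ?_, ?_, ?_⟩⟩
        all_goals linarith
  · -- `4`
    cases Js
    · norm_num [kU, KE0, KE1, KL, KX, KN] at u0 u1 ul ux un
      exact ⟨by linarith, fun _ _ => by linarith, by simp,
        fun _ _ => ⟨by linarith, by linarith⟩, by simp, by simp, by simp, by simp, by simp⟩
    · norm_num [kU, KE0, KE1, KL, KX, KN] at u0 u1 ul ux un
      exact ⟨by linarith, fun _ _ => by linarith,
        fun _ _ => ⟨by linarith, by linarith⟩, by simp, by simp, by simp, by simp, by simp,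
        by simp⟩
  · obtain ⟨k, rfl⟩ : ∃ k, Ia = k + 5 := ⟨Ia - 5, by omega⟩
    have hk : kU ⟨Ja, Js, Jo⟩ ⟨k + 5, Is, some o⟩ = 0 := rfl
    rw [hk] at u0
    norm_num [KE0] at u0
    have e2 : min (k + 5) 6 ≠ 2 := by omega
    have e3 : min (k + 5) 6 ≠ 3 := by omega
    have e4 : min (k + 5) 6 ≠ 4 := by omega
    refine ⟨by linarith, fun _ h => absurd h (by show ¬min (k + 5) 6 ≤ 4; omega),
      by simp [e3, e4], by simp [e3, e4], by simp, by simp, by simp, by simp, by simp [e3]⟩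

/-- The kinds give everything. -/
theorem SlV_of {J I : Vt} {ys vs lam : ℂ} {z1 : ℝ} {e : Bool}
    (hJ5 : 5 ≤ J.a) (hI2 : 2 ≤ I.a) (hl : lam = ly 2 ys vs)
    (zs : J.s = true → 3 / 8 ≤ z1) (za : J.s = false → 2 / 5 ≤ z1) (h : VUc (kU J I) ys vs) :
    SlV ⟨min J.a 6, e⟩ vs ⟨true, J.s, ⟨min I.a 6, I.o.isNone⟩, z1, ys, lam⟩ := by
  obtain ⟨Ja, Js, Jo⟩ := J
  obtain ⟨Ia, Is, Io⟩ := I
  have hna : 5 ≤ min Ja 6 := by
    have : 5 ≤ Ja := hJ5
    omega
  have hR : Rgs ⟨min Ja 6, e⟩ ⟨min Ia 6, Io.isNone⟩ Js ys vs := by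
    cases Io with
    | none => exact Rgs_none hI2 h
    | some o => exact Rgs_some hI2 h
  exact ⟨h.toVU, hl, zs, za, hna, hR.e0, hR.re, hR.rs, hR.ra, hR.c2, hR.c3a, hR.c3s, hR.c4, hR.c5⟩

namespace Ctx

variable {T : Vt → Vt → E.B2.Rg} {R : ℕ} {a : ℕ → ℕ} {S : ℕ → Bool} {r : ℕ → ℤ}
  {z ql qr : ℕ → ℂ} {zF : Fin (R + 1) → ℂ}

theorem nt_vL {i : ℕ} : ntG R a (i + 1) =
    ⟨min (vL R a S (i + 1)).a 6, (vL R a S (i + 1)).o.isNone⟩ := by
  unfold ntG E.vL
  congr 1
  · show min (a (i + 1)) 6 = min (min (a (i + 1)) 8) 6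
    omega
  · by_cases hc : i + 1 = R
    · rw [if_pos hc]
      exact decide_eq_true (Or.inr hc)
    · rw [if_neg hc]
      exact decide_eq_false (by omega)

theorem nt_vR {i : ℕ} (hi : i < R) : ntG R a i =
    ⟨min (vR a S i).a 6, (vR a S i).o.isNone⟩ := by
  unfold ntG E.vR
  congr 1
  · show min (a i) 6 = min (min (a i) 8) 6
    omega
  · by_cases hc : i = 0
    · rw [if_pos hc]
      exact decide_eq_true (Or.inl hc)
    · rw [if_neg hc]
      exact decide_eq_false (by omega)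

theorem x1O_big {i : ℕ} (h5 : 5 ≤ a i) : x1O a i = 7 / 25 := if_neg (by omega)

/-- The right slot of a node with five or more half twists. -/
theorem vr_of (h : Ctx T R a S r z ql qr zF) {i : ℕ} (hi : i < R) (h5 : 5 ≤ a i)
    (hv : VUc (kU (vR a S i) (vL R a S (i + 1))) (sy (qr i) (z i)) (z i / Real.pi)) (C : VNC) :
    VS (ntG R a i) (x1O a i) (z i / Real.pi) (slR R a S z qr i) := by
  have ha := h.hg.crt.ha (i + 1) hi
  have hl := h.hg.lamR_ly hi (Or.inl h5)
  rw [x1O_big h5, slR_mk hi, nt_vL (S := S), nt_vR (S := S) hi]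
  rw [slR_mk hi] at hl
  have hJ : 5 ≤ (vR a S i).a := by
    show 5 ≤ min (a i) 8
    omega
  have hI : 2 ≤ (vL R a S (i + 1)).a := by
    show 2 ≤ min (a (i + 1)) 8
    omega
  refine (SlV_of hJ hI hl (fun _ => z1O_ge R a S (i + 1)) (fun hS => ?_) hv).vs C
  have hS' : S i = false := hS
  refine (if_neg fun k => ?_ : z1O R a S (i + 1) = 2 / 5).ge
  have k1 : S i = true := k.2.2.2.1
  rw [hS'] at k1
  exact absurd k1 (by simp)

/-- The left slot of a node with five or more half twists. -/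
theorem vl_of (h : Ctx T R a S r z ql qr zF) {i : ℕ} (hi : i < R) (h5 : 5 ≤ a (i + 1))
    (hv : VUc (kU (vL R a S (i + 1)) (vR a S i)) (sy (ql (i + 1)) (z (i + 1)))
      (z (i + 1) / Real.pi)) (C : VNC) :
    VS (ntG R a (i + 1)) (x1O a (i + 1)) (z (i + 1) / Real.pi) (slL R a S z ql (i + 1)) := by
  have ha := h.hg.crt.ha i hi.le
  have hl := h.hg.lamL_ly hi (Or.inl h5)
  rw [x1O_big h5, slL_mk, nt_vL (S := S), nt_vR (S := S) hi]
  rw [slL_mk] at hl
  have hJ : 5 ≤ (vL R a S (i + 1)).a := by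
    show 5 ≤ min (a (i + 1)) 8
    omega
  have hI : 2 ≤ (vR a S i).a := by
    show 2 ≤ min (a i) 8
    omega
  refine (SlV_of hJ hI hl (fun _ => z1O_ge R a S i) (fun hS => ?_) hv).vs C
  have hS' : S i = false := hS
  refine (if_neg fun k => ?_ : z1O R a S i = 2 / 5).ge
  have k1 : S i = true := k.2.2.2.2.1
  rw [hS'] at k1
  exact absurd k1 (by simp)

end Ctx

end Pool.Agent.S5
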