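import Pool.Agent.S5.I.VZf

/-!
# The slots of the open nodes: the left leg and real `v`
-/

set_option autoImplicit false

namespace Pool.Agent.S5

open Pool.Agent.H63.VC3 Pool.Agent.S3 Complex Tb VZ MeasureTheory Filter Topology Set
open scoped ComplexConjugate

/-! ### Real `v` -/

theorem eq_ofReal {v : ℂ} (hv : v.im = 0) : v = ((v.re : ℝ) : ℂ) := by
  apply Complex.ext
  · rw [ofReal_re]
  · rw [ofReal_im, hv]

theorem SS_abs {y v : ℂ} (hv : v.im = 0) : SS y v = SS y ((|v.re| : ℝ) : ℂ) := by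
  rcases abs_cases v.re with ⟨e, -⟩ | ⟨e, -⟩
  · rw [e, ← eq_ofReal hv]
  · rw [e, SS_real_neg, ← eq_ofReal hv]

/-- Left half, real `v`: the value at `1/2` is the largest. -/
theorem Es_left_le {ys vs y v : ℂ} (hn : vs.im ≠ 0) (b0 : -(1 / 2) ≤ y.re) (b1 : y.re ≤ 0)
    (hv : v.im = 0) (h1 : |v.re| ≤ 1 / 2) :
    Es ys vs y v ≤ Real.pi * |y.im| + Psi ys vs y.re y.im := by
  rw [Es_real hn hv, SS_abs hv]
  have := SS_real_mono b0 b1 (abs_nonneg v.re) h1 le_rfl
  rw [SS_half] at this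
  linarith

/-- The value at `v = 1/2`, at the left end of the flat piece. -/
theorem Psi_end {ys vs : ℂ} (h : VU ys vs) (N : NAll ys vs) :
    Real.pi * |ys.im| + Psi ys vs (-(1 / 4)) ys.im < 0 := by
  have n0 := h.n0.le
  have n1 : vs.im ≤ 11 / 125 := by linarith [h.n1]
  have hp := Real.pi_lt_d2
  have e0 := h.e0
  have e1 := h.e1
  rcases le_total ys.im 0 with s | s
  · have := N.rn (by linarith) s n0 n1
    rw [abs_of_nonpos s]
    nlinarith
  · have := N.rp s (by linarith) n0 n1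
    rw [abs_of_nonneg s]
    nlinarith

/-- The value at `v = 1/2`, at the right end of the flat piece. -/
theorem Psi_right {ys vs : ℂ} (h : VU ys vs) :
    Real.pi * |ys.im| + Psi ys vs (1 / 2) ys.im < 0 := by
  have hy : Yr ys (((1 / 2 : ℝ) : ℂ) + ys.im * I) := by
    refine ⟨by simp, ?_⟩
    have : (((1 / 2 : ℝ) : ℂ) + ys.im * I).im = ys.im := by simp
    rw [this, sub_self, mul_zero]
  have hv : Vc vs ((1 / 2 : ℝ) : ℂ) := by
    refine Or.inr (Or.inr ⟨by simp, ?_, ?_⟩)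
    · rw [ofReal_re, abs_of_pos (by norm_num)]
      norm_num
    · rw [ofReal_re, abs_of_pos (by norm_num)]
  have := VNR_holds ys vs _ _ h hy hv
  rw [Es_real h.n0.ne' (ofReal_im _), SS_half] at this
  have e1 : (((1 / 2 : ℝ) : ℂ) + ys.im * I).im = ys.im := by simp
  have e2 : (((1 / 2 : ℝ) : ℂ) + ys.im * I).re = 1 / 2 := by simp
  rw [e1, e2] at this
  exact this

/-- **Real `v`, flat piece of `y`, left half.** -/
theorem VNC_neg {ys vs y v : ℂ} (h : VU ys vs) (N : NAll ys vs) (hy : y.im = ys.im)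
    (b0 : -(1 / 4) ≤ y.re) (b1 : y.re ≤ 0) (hv : v.im = 0) (h1 : |v.re| ≤ 1 / 2) :
    Es ys vs y v < 0 := by
  refine (Es_left_le h.n0.ne' (by linarith) b1 hv h1).trans_lt ?_
  rw [hy]
  have p0 := Psi_end h N
  have p1 := Psi_right h
  have e : ∀ X : ℝ, Psi ys vs X ys.im = Psi ys vs (1 / 2) ys.im + lamv ys vs * (1 / 2 - X) :=
    fun X => Psi_affine ys vs X ys.im
  rw [e] at p0 ⊢
  rcases le_total 0 (lamv ys vs) with hl | hl
  · nlinarith [mul_le_mul_of_nonneg_left b0 hl]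
  · nlinarith [mul_nonneg (neg_nonneg.2 hl) (show 0 ≤ 1 / 2 - y.re by linarith)]

/-- The left leg, real `v`. -/
theorem VNL_real {ys vs y v : ℂ} (h : VU ys vs) (B : B1N ys vs) (N : NAll ys vs) (hy : Yl ys y)
    (hv : v.im = 0) (h1 : |v.re| ≤ 1 / 2) : Es ys vs y v < 0 := by
  obtain ⟨hx, hs⟩ := hy
  refine (Es_left_le h.n0.ne' (by rw [hx]; norm_num) (by rw [hx]; norm_num) hv h1).trans_lt ?_
  rw [hx]
  have p1 := Psi_end h N
  have p0 : Psi ys vs (-(1 / 4)) 0 < 0 := by
    have b2 := h.b2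
    have n0 := h.n0
    have hk := mul_le_mul_of_nonneg_right B.kap n0.le
    have e : Psi ys vs (-(1 / 4)) 0 = b1v ys vs (-(1 / 4)) - Lamv ys vs * (7 / 25 - vs.re) -
        (lv ys vs).im * vs.im := by
      unfold Psi b1v
      ring
    rw [e]
    rcases le_total vs.im (1 / 25) with q | q
    · have := B.n0 q
      linarith
    · have := B.n0' q
      linarith
  have e : ∀ s : ℝ, Psi ys vs (-(1 / 4)) s = Psi ys vs (-(1 / 4)) 0 + (ly 2 ys vs).im * s := by
    intro s
    unfold Psi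
    ring
  rw [e] at p1 ⊢
  -- affine in `s` on the segment from `0` to `η`
  rcases le_total 0 ys.im with q | q
  · rcases q.eq_or_lt with q | q
    · have : y.im = 0 := by
        rw [← q, sub_zero] at hs
        nlinarith [mul_self_nonneg y.im]
      rw [this, abs_zero, mul_zero, mul_zero, zero_add, add_zero]
      exact p0
    · have s0 : 0 ≤ y.im := by nlinarith
      have s1 : y.im ≤ ys.im := by nlinarith
      rw [abs_of_nonneg s0]
      rw [abs_of_pos q] at p1
      obtain ⟨r, hr⟩ : ∃ r, r = y.im / ys.im := ⟨_, rfl⟩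
      have hr0 : 0 ≤ r := by rw [hr]; positivity
      have hr1 : r ≤ 1 := by rw [hr, div_le_one q]; exact s1
      have hrv : y.im = r * ys.im := by rw [hr, div_mul_cancel₀ _ q.ne']
      rw [hrv]
      nlinarith [mul_nonneg hr0 (neg_nonneg.2 p1.le), mul_nonneg (sub_nonneg.2 hr1) (neg_nonneg.2 p0.le)]
  · rcases q.eq_or_lt with q | q
    · have : y.im = 0 := by
        rw [q, sub_zero] at hs
        nlinarith [mul_self_nonneg y.im]
      rw [this, abs_zero, mul_zero, mul_zero, zero_add, add_zero]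
      exact p0
    · have s0 : y.im ≤ 0 := by nlinarith
      have s1 : ys.im ≤ y.im := by nlinarith
      rw [abs_of_nonpos s0]
      rw [abs_of_neg q] at p1
      obtain ⟨r, hr⟩ : ∃ r, r = y.im / ys.im := ⟨_, rfl⟩
      have hr0 : 0 ≤ r := by rw [hr]; exact div_nonneg_of_nonpos s0 q.le
      have hr1 : r ≤ 1 := by rw [hr, div_le_one_of_neg q]; exact s1
      have hrv : y.im = r * ys.im := by rw [hr, div_mul_cancel₀ _ q.ne]
      rw [hrv]
      nlinarith [mul_nonneg hr0 (neg_nonneg.2 p1.le), mul_nonneg (sub_nonneg.2 hr1) (neg_nonneg.2 p0.le)]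

/-! ### The left leg -/

/-- The left leg, flat piece of `v`. -/
theorem VNL_flat {ys vs y v : ℂ} (h : VU ys vs) (B : B1N ys vs) (N : NAll ys vs)
    (e0 : -(13 / 100) ≤ ys.im) (hy : Yl ys y) (hv : Vf vs v) : Es ys vs y v < 0 := by
  obtain ⟨hx, hs⟩ := hy
  obtain ⟨hv, hu⟩ := hv
  obtain ⟨b0, b1⟩ := abs_le.1 hu
  have e1 := h.e1
  have n0 := h.n0.le
  have n1 : vs.im ≤ 11 / 125 := by linarith [h.n1]
  rw [Es_flatv h.n0.ne' hv]
  by_cases q : 0 ≤ y.im ∧ y.im ≤ ys.im
  · obtain ⟨s0, s1⟩ := q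
    have f0 : 0 ≤ ys.im := s0.trans s1
    rcases le_total vs.im (1 / 25) with m | m
    · rcases le_total y.im (1 / 20) with c | c
      · exact lpf0_0 h B N f0 e1 n0 m hx s1 s0 c hv b0 b1
      · exact lpf0_1 h B N f0 e1 n0 m hx s1 c (s1.trans e1) hv b0 b1
    · rcases le_total y.im (1 / 20) with c | c
      · exact lpf1_0 h B N f0 e1 m n1 hx s1 s0 c hv b0 b1
      · exact lpf1_1 h B N f0 e1 m n1 hx s1 c (s1.trans e1) hv b0 b1
  · have s1 : y.im ≤ 0 ∧ ys.im ≤ y.im := by
      rcases le_or_gt 0 y.im with q1 | q1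
      · have q2 : ys.im < y.im := by
          by_contra q3
          exact q ⟨q1, not_lt.1 q3⟩
        rcases q1.eq_or_lt with q4 | q4
        · exact ⟨q4.ge, q2.le⟩
        · nlinarith
      · refine ⟨q1.le, ?_⟩
        nlinarith
    obtain ⟨s1, s0⟩ := s1
    have f1 : ys.im ≤ 0 := s0.trans s1
    rcases le_total vs.im (1 / 25) with m | m
    · rcases le_total (-(7 / 200)) y.im with c | c
      · exact lnf0_0 h B N e0 f1 n0 m hx s0 c s1 hv b0 b1
      · rcases le_total (-(7 / 100)) y.im with c2 | c2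
        · exact lnf0_1 h B N e0 f1 n0 m hx s0 c2 c hv b0 b1
        · rcases le_total (-(1 / 10)) y.im with c3 | c3
          · exact lnf0_2 h B N e0 f1 n0 m hx s0 c3 c2 hv b0 b1
          · rcases le_total (-(3 / 25)) y.im with c4 | c4
            · exact lnf0_3 h B N e0 f1 n0 m hx s0 c4 c3 hv b0 b1
            · exact lnf0_4 h B N e0 f1 n0 m hx s0 (e0.trans s0) c4 hv b0 b1
    · rcases le_total (-(7 / 200)) y.im with c | c
      · exact lnf1_0 h B N e0 f1 m n1 hx s0 c s1 hv b0 b1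
      · rcases le_total (-(7 / 100)) y.im with c2 | c2
        · exact lnf1_1 h B N e0 f1 m n1 hx s0 c2 c hv b0 b1
        · rcases le_total (-(1 / 10)) y.im with c3 | c3
          · exact lnf1_2 h B N e0 f1 m n1 hx s0 c3 c2 hv b0 b1
          · rcases le_total (-(3 / 25)) y.im with c4 | c4
            · exact lnf1_3 h B N e0 f1 m n1 hx s0 c4 c3 hv b0 b1
            · exact lnf1_4 h B N e0 f1 m n1 hx s0 (e0.trans s0) c4 hv b0 b1

theorem convexOn_comp_add {f : ℝ → ℝ} (hf : ConvexOn ℝ univ f) (c : ℝ) :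
    ConvexOn ℝ univ (fun h => f (c + h)) := by
  refine ⟨convex_univ, ?_⟩
  intro s _ t _ a b ha hb hab
  have h := hf.2 (mem_univ (c + s)) (mem_univ (c + t)) ha hb hab
  simp only [smul_eq_mul] at h ⊢
  have e : c + (a * s + b * t) = a * (c + s) + b * (c + t) := by
    linear_combination (-c) * hab
  rw [e]
  exact h

theorem convexOn_comp_sub {f : ℝ → ℝ} (hf : ConvexOn ℝ univ f) (c : ℝ) :
    ConvexOn ℝ univ (fun h => f (c - h)) := by
  refine ⟨convex_univ, ?_⟩
  intro s _ t _ a b ha hb hab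
  have h := hf.2 (mem_univ (c - s)) (mem_univ (c - t)) ha hb hab
  simp only [smul_eq_mul] at h ⊢
  have e : c - (a * s + b * t) = a * (c - s) + b * (c - t) := by
    linear_combination (-c) * hab
  rw [e]
  exact h

theorem abs_convexOn : ConvexOn ℝ univ (fun s : ℝ => |s|) := by
  refine ⟨convex_univ, ?_⟩
  intro s _ t _ a b ha hb hab
  simp only [smul_eq_mul]
  calc |a * s + b * t| ≤ |a * s| + |b * t| := abs_add_le _ _
    _ = a * |s| + b * |t| := by rw [abs_mul, abs_mul, abs_of_nonneg ha, abs_of_nonneg hb]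

/-- `-Rf` on the vertical line `Re = -53/100`. -/
theorem neg_Rf_convex_left : ConvexOn ℝ univ (fun s : ℝ => -Rf (((-(53 / 100) : ℝ) : ℂ) + s * I)) := by
  have h1 := neg_Rf_convex (x := 47 / 100) (by norm_num) (by norm_num)
  have h2 : ConvexOn ℝ univ (fun s : ℝ => Real.pi * |s|) := by
    have := abs_convexOn.smul Real.pi_pos.le
    simpa using this
  have e : (fun s : ℝ => -Rf (((-(53 / 100) : ℝ) : ℂ) + s * I)) =
      (fun s : ℝ => -Rf (((47 / 100 : ℝ) : ℂ) + s * I)) + (fun s : ℝ => Real.pi * |s|) := by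
    funext s
    have h3 := Rf_add_one (((-(53 / 100) : ℝ) : ℂ) + s * I)
    have e1 : ((-(53 / 100) : ℝ) : ℂ) + s * I + 1 = ((47 / 100 : ℝ) : ℂ) + s * I := by
      push_cast
      ring
    have e2 : (((-(53 / 100) : ℝ) : ℂ) + s * I).im = s := by simp
    rw [e1, e2] at h3
    rw [Pi.add_apply, h3]
    ring
  rw [e]
  exact h1.add h2

/-- The slot function is convex on the vertical pieces of `v`, on the left leg of `y`. -/
theorem SS_vert_convex {y : ℂ} {u : ℝ} (hx : y.re = -(1 / 4)) (hu : |u| = 7 / 25) :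
    ConvexOn ℝ univ (fun h : ℝ => SS y ((u : ℂ) + h * I)) := by
  have g1 := neg_Rf_convex_left
  have g2 := neg_Rf_convex (x := 3 / 100) (by norm_num) (by norm_num)
  have gc : ConvexOn ℝ univ (fun _ : ℝ => -2 * Rf (1 / 2 - y)) := convexOn_const _ convex_univ
  rcases abs_eq (by norm_num : (0 : ℝ) ≤ 7 / 25) |>.1 hu with hu | hu
  · have e : (fun h : ℝ => SS y ((u : ℂ) + h * I)) = (fun _ : ℝ => -2 * Rf (1 / 2 - y)) +
        ((fun h : ℝ => -Rf (((-(53 / 100) : ℝ) : ℂ) + ((y.im - h : ℝ) : ℂ) * I)) +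
        (fun h : ℝ => -Rf (((3 / 100 : ℝ) : ℂ) + ((y.im + h : ℝ) : ℂ) * I))) := by
      funext h
      have e1 : y - ((u : ℂ) + h * I) = ((-(53 / 100) : ℝ) : ℂ) + ((y.im - h : ℝ) : ℂ) * I := by
        apply Complex.ext
        · simp [hx, hu]
          norm_num
        · simp
      have e2 : y + ((u : ℂ) + h * I) = ((3 / 100 : ℝ) : ℂ) + ((y.im + h : ℝ) : ℂ) * I := by
        apply Complex.ext
        · simp [hx, hu]
          norm_num
        · simp
      simp only [Pi.add_apply]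
      unfold SS
      rw [e1, e2]
      ring
    rw [e]
    exact gc.add ((convexOn_comp_sub g1 y.im).add (convexOn_comp_add g2 y.im))
  · have e : (fun h : ℝ => SS y ((u : ℂ) + h * I)) = (fun _ : ℝ => -2 * Rf (1 / 2 - y)) +
        ((fun h : ℝ => -Rf (((3 / 100 : ℝ) : ℂ) + ((y.im - h : ℝ) : ℂ) * I)) +
        (fun h : ℝ => -Rf (((-(53 / 100) : ℝ) : ℂ) + ((y.im + h : ℝ) : ℂ) * I))) := by
      funext h
      have e1 : y - ((u : ℂ) + h * I) = ((3 / 100 : ℝ) : ℂ) + ((y.im - h : ℝ) : ℂ) * I := by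
        apply Complex.ext
        · simp [hx, hu]
          norm_num
        · simp
      have e2 : y + ((u : ℂ) + h * I) = ((-(53 / 100) : ℝ) : ℂ) + ((y.im + h : ℝ) : ℂ) * I := by
        apply Complex.ext
        · simp [hx, hu]
          norm_num
        · simp
      simp only [Pi.add_apply]
      unfold SS
      rw [e1, e2]
      ring
    rw [e]
    exact gc.add ((convexOn_comp_sub g2 y.im).add (convexOn_comp_add g1 y.im))

/-- The left leg, vertical pieces of `v`. -/
theorem VNL_vert {ys vs y v : ℂ} (h : VU ys vs) (B : B1N ys vs) (N : NAll ys vs)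
    (e0 : -(13 / 100) ≤ ys.im) (hy : Yl ys y) (hv : Vv vs v) : Es ys vs y v < 0 := by
  obtain ⟨hu, h0, h1⟩ := hv
  have hn := h.n0
  have hx := hy.1
  have c := SS_vert_convex hx hu
  have hvf : Vf vs ((v.re : ℂ) + vs.im * I) := by
    refine ⟨by simp, ?_⟩
    have : ((v.re : ℂ) + vs.im * I).re = v.re := by simp
    rw [this, hu]
  have f1 := VNL_flat h B N e0 hy hvf
  have f0 := VNL_real h B N hy (v := ((v.re : ℝ) : ℂ)) (ofReal_im _) (by
    rw [ofReal_re, hu]
    norm_num)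
  have hv : v = (v.re : ℂ) + v.im * I := (re_add_im v).symm
  obtain ⟨r, hr⟩ : ∃ r, r = v.im / vs.im := ⟨_, rfl⟩
  have hr0 : 0 ≤ r := by rw [hr]; positivity
  have hr1 : r ≤ 1 := by rw [hr, div_le_one hn]; exact h1
  have hrv : v.im = r * vs.im := by rw [hr, div_mul_cancel₀ _ hn.ne']
  have k := c.2 (mem_univ (0 : ℝ)) (mem_univ vs.im) (sub_nonneg.2 hr1) hr0 (by ring)
  simp only [smul_eq_mul, mul_zero, zero_add, ofReal_zero, zero_mul, add_zero] at k
  rw [Es_eq_SS hn.ne'] at f0 f1 ⊢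
  rw [← hrv, ← hv] at k
  have e1 : ((v.re : ℂ) + vs.im * I).re = v.re := by simp
  have e2 : ((v.re : ℂ) + vs.im * I).im = vs.im := by simp
  rw [e1, e2, mul_div_cancel_right₀ _ hn.ne', sub_self, mul_zero] at f1
  rw [ofReal_re, ofReal_im, mul_zero, zero_div] at f0
  have e3 : Lamv ys vs * (v.re - vs.re) * v.im / vs.im = Lamv ys vs * (v.re - vs.re) * r := by
    rw [hr]
    ring
  rw [e3, hrv]
  have g0 := mul_nonneg (sub_nonneg.2 hr1) (neg_nonneg.2 f0.le)
  have g1 := mul_nonneg hr0 (neg_nonneg.2 f1.le)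
  rcases hr0.eq_or_lt with q | q
  · rw [← q] at k g0 g1 ⊢
    nlinarith
  · have g2 := mul_pos q (neg_pos.2 f1)
    nlinarith

/-- **The left leg.** -/
theorem VNL_of {ys vs y v : ℂ} (h : VU ys vs) (B : B1N ys vs) (N : NAll ys vs)
    (e0 : -(13 / 100) ≤ ys.im) (hy : Yl ys y) (hv : Vq vs v) : Es ys vs y v < 0 := by
  rcases hv with hv | hv | ⟨v1, v2, v3⟩
  · exact VNL_flat h B N e0 hy hv
  · exact VNL_vert h B N e0 hy hv
  · exact VNL_real h B N hy v1 v3

end Pool.Agent.S5
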