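import Pool.Agent.S5.I.VZa

/-!
# The slots of the open nodes: list of the bounds of the functionals
-/

set_option autoImplicit false

namespace Pool.Agent.S5

open Pool.Agent.H63.VC3 Pool.Agent.S3 Complex

/-- The bounds of the functionals of the critical point. -/
structure NAll (ys vs : ℂ) : Prop where
  e1_50_0 : -(1 / 10) ≤ ys.im → ys.im ≤ 1 / 10 → 0 ≤ vs.im → vs.im ≤ 11 / 125 →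
    Phi ys vs (1 / 4) 0 0 ≤ -(5117 / 10000) - 1 / 5 * vs.im
  e1_50_28 : -(1 / 10) ≤ ys.im → ys.im ≤ 1 / 10 → 0 ≤ vs.im → vs.im ≤ 11 / 125 →
    Phi ys vs (1 / 4) 0 (7 / 50) ≤ -(4129 / 10000) - 3 / 5 * vs.im
  e1_50_56 : -(1 / 10) ≤ ys.im → ys.im ≤ 1 / 10 → 0 ≤ vs.im → vs.im ≤ 11 / 125 →
    Phi ys vs (1 / 4) 0 (7 / 25) ≤ -(2619 / 10000) - 1 / 20 * vs.im
  e1_60_0 : -(1 / 10) ≤ ys.im → ys.im ≤ 1 / 10 → 0 ≤ vs.im → vs.im ≤ 11 / 125 →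
    Phi ys vs (3 / 10) 0 0 ≤ -(2473 / 5000) - 1 / 20 * vs.im
  e1_60_28 : -(1 / 10) ≤ ys.im → ys.im ≤ 1 / 10 → 0 ≤ vs.im → vs.im ≤ 11 / 125 →
    Phi ys vs (3 / 10) 0 (7 / 50) ≤ -(4229 / 10000) - 1 / 4 * vs.im
  e1_60_56 : -(1 / 10) ≤ ys.im → ys.im ≤ 1 / 10 → 0 ≤ vs.im → vs.im ≤ 11 / 125 →
    Phi ys vs (3 / 10) 0 (7 / 25) ≤ -(2769 / 10000)
  e1_70_0 : -(1 / 10) ≤ ys.im → ys.im ≤ 1 / 10 → 0 ≤ vs.im → vs.im ≤ 11 / 125 →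
    Phi ys vs (7 / 20) 0 0 ≤ -(4457 / 10000) - 1 / 20 * vs.im
  e1_70_28 : -(1 / 10) ≤ ys.im → ys.im ≤ 1 / 10 → 0 ≤ vs.im → vs.im ≤ 11 / 125 →
    Phi ys vs (7 / 20) 0 (7 / 50) ≤ -(501 / 1250) - 1 / 10 * vs.im
  e1_70_56 : -(1 / 10) ≤ ys.im → ys.im ≤ 1 / 10 → 0 ≤ vs.im → vs.im ≤ 11 / 125 →
    Phi ys vs (7 / 20) 0 (7 / 25) ≤ -(2919 / 10000) + 1 / 20 * vs.im
  e1_100_0 : -(1 / 10) ≤ ys.im → ys.im ≤ 1 / 10 → 0 ≤ vs.im → vs.im ≤ 11 / 125 →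
    Phi ys vs (1 / 2) 0 0 ≤ -(749 / 2500) + 1 / 20 * vs.im
  e1_100_28 : -(1 / 10) ≤ ys.im → ys.im ≤ 1 / 10 → 0 ≤ vs.im → vs.im ≤ 11 / 125 →
    Phi ys vs (1 / 2) 0 (7 / 50) ≤ -(2837 / 10000) + 3 / 20 * vs.im
  e1_100_56 : -(1 / 10) ≤ ys.im → ys.im ≤ 1 / 10 → 0 ≤ vs.im → vs.im ≤ 11 / 125 →
    Phi ys vs (1 / 2) 0 (7 / 25) ≤ -(1153 / 5000) + 1 / 5 * vs.im
  e1r_50 : -(1 / 10) ≤ ys.im → ys.im ≤ 1 / 10 → 0 ≤ vs.im → vs.im ≤ 11 / 125 →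
    Psi ys vs (1 / 4) 0 ≤ -(3227 / 10000)
  e1r_100 : -(1 / 10) ≤ ys.im → ys.im ≤ 1 / 10 → 0 ≤ vs.im → vs.im ≤ 11 / 125 →
    Psi ys vs (1 / 2) 0 ≤ -(993 / 5000)
  ea_80_0 : -(3 / 40) ≤ ys.im → ys.im ≤ 1 / 200 → 0 ≤ vs.im → vs.im ≤ 11 / 125 →
    Phi ys vs (2 / 5) 0 0 ≤ -(4221 / 10000) - 1 / 20 * vs.im
  ea_80_40 : -(3 / 40) ≤ ys.im → ys.im ≤ 1 / 200 → 0 ≤ vs.im → vs.im ≤ 11 / 125 →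
    Phi ys vs (2 / 5) 0 (1 / 5) ≤ -(1833 / 5000) - 3 / 20 * vs.im
  ea_80_56 : -(3 / 40) ≤ ys.im → ys.im ≤ 1 / 200 → 0 ≤ vs.im → vs.im ≤ 11 / 125 →
    Phi ys vs (2 / 5) 0 (7 / 25) ≤ -(3089 / 10000) - 9 / 20 * vs.im
  ea_100_0 : -(3 / 40) ≤ ys.im → ys.im ≤ 1 / 200 → 0 ≤ vs.im → vs.im ≤ 11 / 125 →
    Phi ys vs (1 / 2) 0 0 ≤ -(3157 / 10000) + 1 / 20 * vs.im
  ea_100_40 : -(3 / 40) ≤ ys.im → ys.im ≤ 1 / 200 → 0 ≤ vs.im → vs.im ≤ 11 / 125 →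
    Phi ys vs (1 / 2) 0 (1 / 5) ≤ -(2823 / 10000) - 1 / 10 * vs.im
  ea_100_56 : -(3 / 40) ≤ ys.im → ys.im ≤ 1 / 200 → 0 ≤ vs.im → vs.im ≤ 11 / 125 →
    Phi ys vs (1 / 2) 0 (7 / 25) ≤ -(497 / 2000) - 1 / 5 * vs.im
  ear_80 : -(3 / 40) ≤ ys.im → ys.im ≤ 1 / 200 → 0 ≤ vs.im → vs.im ≤ 11 / 250 →
    Psi ys vs (2 / 5) 0 ≤ -(209 / 625)
  ear_100 : -(3 / 40) ≤ ys.im → ys.im ≤ 1 / 200 → 0 ≤ vs.im → vs.im ≤ 11 / 250 →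
    Psi ys vs (1 / 2) 0 ≤ -(167 / 625)
  eas_80 : -(3 / 40) ≤ ys.im → ys.im ≤ 1 / 200 → 11 / 250 ≤ vs.im → vs.im ≤ 11 / 125 →
    Psi ys vs (2 / 5) 0 + Lamv ys vs * (7 / 25 - vs.re) ≤ -(3293 / 10000) + 3 / 4 * vs.im
  eas_100 : -(3 / 40) ≤ ys.im → ys.im ≤ 1 / 200 → 11 / 250 ≤ vs.im → vs.im ≤ 11 / 125 →
    Psi ys vs (1 / 2) 0 + Lamv ys vs * (7 / 25 - vs.re) ≤ -(1307 / 5000) + 3 / 4 * vs.im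
  es_80_0 : 0 ≤ ys.im → ys.im ≤ 2 / 25 → 0 ≤ vs.im → vs.im ≤ 11 / 125 →
    Phi ys vs (2 / 5) 0 0 ≤ -(4077 / 10000) - 1 / 10 * vs.im
  es_80_56 : 0 ≤ ys.im → ys.im ≤ 2 / 25 → 0 ≤ vs.im → vs.im ≤ 11 / 125 →
    Phi ys vs (2 / 5) 0 (7 / 25) ≤ -(2921 / 10000) - 1 / 20 * vs.im
  es_100_0 : 0 ≤ ys.im → ys.im ≤ 2 / 25 → 0 ≤ vs.im → vs.im ≤ 11 / 125 →
    Phi ys vs (1 / 2) 0 0 ≤ -(3043 / 10000)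
  es_100_56 : 0 ≤ ys.im → ys.im ≤ 2 / 25 → 0 ≤ vs.im → vs.im ≤ 11 / 125 →
    Phi ys vs (1 / 2) 0 (7 / 25) ≤ -(2359 / 10000) + 3 / 20 * vs.im
  esr_80 : 0 ≤ ys.im → ys.im ≤ 2 / 25 → 0 ≤ vs.im → vs.im ≤ 11 / 125 →
    Psi ys vs (2 / 5) 0 ≤ -(1697 / 5000)
  esr_100 : 0 ≤ ys.im → ys.im ≤ 2 / 25 → 0 ≤ vs.im → vs.im ≤ 11 / 125 →
    Psi ys vs (1 / 2) 0 ≤ -(1323 / 5000)
  lp0_10 : 0 ≤ ys.im → ys.im ≤ 1 / 10 → 0 ≤ vs.im → vs.im ≤ 1 / 25 →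
    Phi ys vs (-(1 / 4)) (1 / 20) (7 / 25) ≤ -(1251 / 10000) + 3 / 10 * vs.im
  lp0_20 : 1 / 20 ≤ ys.im → ys.im ≤ 1 / 10 → 0 ≤ vs.im → vs.im ≤ 1 / 25 →
    Phi ys vs (-(1 / 4)) (1 / 10) (7 / 25) ≤ -(413 / 2000) + 23 / 20 * vs.im
  lp1_10 : 0 ≤ ys.im → ys.im ≤ 1 / 10 → 1 / 25 ≤ vs.im → vs.im ≤ 11 / 125 →
    Phi ys vs (-(1 / 4)) (1 / 20) (7 / 25) ≤ -(52 / 625) - 4 / 5 * vs.im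
  lp1_20 : 1 / 20 ≤ ys.im → ys.im ≤ 1 / 10 → 1 / 25 ≤ vs.im → vs.im ≤ 11 / 125 →
    Phi ys vs (-(1 / 4)) (1 / 10) (7 / 25) ≤ -(17 / 100) - 1 / 20 * vs.im
  ln0_7 : -(13 / 100) ≤ ys.im → ys.im ≤ 0 → 0 ≤ vs.im → vs.im ≤ 1 / 25 →
    Phi ys vs (-(1 / 4)) (-(7 / 200)) (7 / 25) ≤ -(131 / 1000) - 3 / 4 * vs.im
  ln0_14 : -(13 / 100) ≤ ys.im → ys.im ≤ -(7 / 200) → 0 ≤ vs.im → vs.im ≤ 1 / 25 →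
    Phi ys vs (-(1 / 4)) (-(7 / 100)) (7 / 25) ≤ -(69 / 400) - 27 / 20 * vs.im
  ln0_20 : -(13 / 100) ≤ ys.im → ys.im ≤ -(7 / 100) → 0 ≤ vs.im → vs.im ≤ 1 / 25 →
    Phi ys vs (-(1 / 4)) (-(1 / 10)) (7 / 25) ≤ -(2333 / 10000) - 9 / 5 * vs.im
  ln0_24 : -(13 / 100) ≤ ys.im → ys.im ≤ -(1 / 10) → 0 ≤ vs.im → vs.im ≤ 1 / 25 →
    Phi ys vs (-(1 / 4)) (-(3 / 25)) (7 / 25) ≤ -(669 / 2500) - 9 / 2 * vs.im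
  ln0_26 : -(13 / 100) ≤ ys.im → ys.im ≤ -(3 / 25) → 0 ≤ vs.im → vs.im ≤ 1 / 25 →
    Phi ys vs (-(1 / 4)) (-(13 / 100)) (7 / 25) ≤ -(847 / 2500) - 21 / 5 * vs.im
  ln1_7 : -(13 / 100) ≤ ys.im → ys.im ≤ 0 → 1 / 25 ≤ vs.im → vs.im ≤ 11 / 125 →
    Phi ys vs (-(1 / 4)) (-(7 / 200)) (7 / 25) ≤ -(987 / 10000) - 31 / 20 * vs.im
  ln1_14 : -(13 / 100) ≤ ys.im → ys.im ≤ -(7 / 200) → 1 / 25 ≤ vs.im → vs.im ≤ 11 / 125 →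
    Phi ys vs (-(1 / 4)) (-(7 / 100)) (7 / 25) ≤ -(63 / 10000) - 9 / 2 * vs.im
  ln1_20 : -(13 / 100) ≤ ys.im → ys.im ≤ -(7 / 100) → 1 / 25 ≤ vs.im → vs.im ≤ 11 / 125 →
    Phi ys vs (-(1 / 4)) (-(1 / 10)) (7 / 25) ≤ -(193 / 1250) - 9 / 2 * vs.im
  ln1_24 : -(13 / 100) ≤ ys.im → ys.im ≤ -(1 / 10) → 1 / 25 ≤ vs.im → vs.im ≤ 11 / 125 →
    Phi ys vs (-(1 / 4)) (-(3 / 25)) (7 / 25) ≤ -(271 / 1000) - 22 / 5 * vs.im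
  ln1_26 : -(13 / 100) ≤ ys.im → ys.im ≤ -(3 / 25) → 1 / 25 ≤ vs.im → vs.im ≤ 11 / 125 →
    Phi ys vs (-(1 / 4)) (-(13 / 100)) (7 / 25) ≤ -(1637 / 5000) - 9 / 2 * vs.im
  q0_0 : -(13 / 100) ≤ ys.im → ys.im ≤ -(3 / 50) → 0 ≤ vs.im → vs.im ≤ 11 / 125 →
    Psi ys vs 0 ys.im ≤ -(303 / 1250) + 43 / 20 * ys.im
  q0_60 : -(13 / 100) ≤ ys.im → ys.im ≤ -(3 / 50) → 0 ≤ vs.im → vs.im ≤ 11 / 125 →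
    Psi ys vs (3 / 10) ys.im ≤ -(3339 / 10000) + 37 / 20 * ys.im
  q0_70 : -(13 / 100) ≤ ys.im → ys.im ≤ -(3 / 50) → 0 ≤ vs.im → vs.im ≤ 11 / 125 →
    Psi ys vs (7 / 20) ys.im ≤ -(789 / 2500) + 19 / 10 * ys.im
  q0_80 : -(13 / 100) ≤ ys.im → ys.im ≤ -(3 / 50) → 0 ≤ vs.im → vs.im ≤ 11 / 125 →
    Psi ys vs (2 / 5) ys.im ≤ -(2671 / 10000) + 21 / 10 * ys.im
  q0_100 : -(13 / 100) ≤ ys.im → ys.im ≤ -(3 / 50) → 0 ≤ vs.im → vs.im ≤ 11 / 125 →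
    Psi ys vs (1 / 2) ys.im ≤ -(291 / 2000) + 13 / 5 * ys.im
  q1_0 : -(3 / 50) ≤ ys.im → ys.im ≤ 1 / 100 → 0 ≤ vs.im → vs.im ≤ 11 / 125 →
    Psi ys vs 0 ys.im ≤ -(3143 / 10000) + 13 / 20 * ys.im
  q1_60 : -(3 / 50) ≤ ys.im → ys.im ≤ 1 / 100 → 0 ≤ vs.im → vs.im ≤ 11 / 125 →
    Psi ys vs (3 / 10) ys.im ≤ -(3973 / 10000) + 4 / 5 * ys.im
  q1_70 : -(3 / 50) ≤ ys.im → ys.im ≤ 1 / 100 → 0 ≤ vs.im → vs.im ≤ 11 / 125 →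
    Psi ys vs (7 / 20) ys.im ≤ -(1973 / 5000) + 3 / 5 * ys.im
  q1_80 : -(3 / 50) ≤ ys.im → ys.im ≤ 1 / 100 → 0 ≤ vs.im → vs.im ≤ 11 / 125 →
    Psi ys vs (2 / 5) ys.im ≤ -(913 / 2500) + 11 / 20 * ys.im
  q1_100 : -(3 / 50) ≤ ys.im → ys.im ≤ 1 / 100 → 0 ≤ vs.im → vs.im ≤ 11 / 125 →
    Psi ys vs (1 / 2) ys.im ≤ -(2807 / 10000) + 1 / 2 * ys.im
  q2_0 : 1 / 100 ≤ ys.im → ys.im ≤ 11 / 200 → 0 ≤ vs.im → vs.im ≤ 11 / 125 →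
    Psi ys vs 0 ys.im ≤ -(1531 / 5000) - 1 / 5 * ys.im
  q2_60 : 1 / 100 ≤ ys.im → ys.im ≤ 11 / 200 → 0 ≤ vs.im → vs.im ≤ 11 / 125 →
    Psi ys vs (3 / 10) ys.im ≤ -(1961 / 5000) - 2 / 5 * ys.im
  q2_70 : 1 / 100 ≤ ys.im → ys.im ≤ 11 / 200 → 0 ≤ vs.im → vs.im ≤ 11 / 125 →
    Psi ys vs (7 / 20) ys.im ≤ -(1963 / 5000) - 11 / 20 * ys.im
  q2_80 : 1 / 100 ≤ ys.im → ys.im ≤ 11 / 200 → 0 ≤ vs.im → vs.im ≤ 11 / 125 →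
    Psi ys vs (2 / 5) ys.im ≤ -(1821 / 5000) - 3 / 4 * ys.im
  q2_100 : 1 / 100 ≤ ys.im → ys.im ≤ 11 / 200 → 0 ≤ vs.im → vs.im ≤ 11 / 125 →
    Psi ys vs (1 / 2) ys.im ≤ -(1443 / 5000) - 3 / 4 * ys.im
  q3_0 : 11 / 200 ≤ ys.im → ys.im ≤ 1 / 10 → 0 ≤ vs.im → vs.im ≤ 11 / 125 →
    Psi ys vs 0 ys.im ≤ -(2109 / 10000) - 43 / 20 * ys.im
  q3_60 : 11 / 200 ≤ ys.im → ys.im ≤ 1 / 10 → 0 ≤ vs.im → vs.im ≤ 11 / 125 →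
    Psi ys vs (3 / 10) ys.im ≤ -(669 / 2000) - 31 / 20 * ys.im
  q3_70 : 11 / 200 ≤ ys.im → ys.im ≤ 1 / 10 → 0 ≤ vs.im → vs.im ≤ 11 / 125 →
    Psi ys vs (7 / 20) ys.im ≤ -(3449 / 10000) - 29 / 20 * ys.im
  q3_80 : 11 / 200 ≤ ys.im → ys.im ≤ 1 / 10 → 0 ≤ vs.im → vs.im ≤ 11 / 125 →
    Psi ys vs (2 / 5) ys.im ≤ -(1609 / 5000) - 31 / 20 * ys.im
  q3_100 : 11 / 200 ≤ ys.im → ys.im ≤ 1 / 10 → 0 ≤ vs.im → vs.im ≤ 11 / 125 →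
    Psi ys vs (1 / 2) ys.im ≤ -(299 / 1250) - 17 / 10 * ys.im
  rn : -(27 / 200) ≤ ys.im → ys.im ≤ 0 → 0 ≤ vs.im → vs.im ≤ 11 / 125 →
    Psi ys vs (-(1 / 4)) ys.im ≤ -(261 / 10000) + 63 / 20 * ys.im
  rp : 0 ≤ ys.im → ys.im ≤ 1 / 10 → 0 ≤ vs.im → vs.im ≤ 11 / 125 →
    Psi ys vs (-(1 / 4)) ys.im ≤ -(6 / 125) - 63 / 20 * ys.im

end Pool.Agent.S5
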