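import Pool.Agent.S5.I.PaE
import Pool.Agent.S5.I.VZn
import Pool.Agent.S5.I.VY0
import Pool.Agent.S5.I.VY1
import Pool.Agent.S5.I.VY2
import Pool.Agent.S5.I.VY3
import Pool.Agent.S5.I.VY4
import Pool.Agent.S5.I.VY5

/-!
# The slots of the open nodes: the bounds of the functionals
-/

set_option autoImplicit false

namespace Pool.Agent.S5.Pa

open Pool.Agent.H63.VC3 Pool.Agent.S3 Complex

theorem FF_Phi (X s u : ℝ) (ys vs : ℂ) : FF (2 : ℕ) (1 : ℕ) (1 : ℕ) (0 : ℕ) X s u ys vs =
    Phi ys vs X s u := by
  unfold FF Phi SS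
  push_cast
  rw [ly_re]
  ring

theorem FF_Psi (X s u : ℝ) (ys vs : ℂ) : FF (2 : ℕ) (1 : ℕ) (0 : ℕ) (1 : ℕ) X s u ys vs =
    Psi ys vs X s := by
  unfold FF Psi SS
  push_cast
  rw [ly_re]
  ring

theorem FF_Psi0 (X s u : ℝ) (ys vs : ℂ) : FF (2 : ℕ) (0 : ℕ) (0 : ℕ) (1 : ℕ) X s u ys vs =
    Psi ys vs X ys.im := by
  unfold FF Psi SS
  push_cast
  rw [ly_re]
  ring

theorem FF_Mix (X s u : ℝ) (ys vs : ℂ) : FF (2 : ℕ) (1 : ℕ) (1 : ℕ) (1 : ℕ) X s u ys vs =
    Psi ys vs X s + Lamv ys vs * (u - vs.re) := by
  unfold FF Psi SS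
  push_cast
  rw [ly_re]
  ring

theorem run2 {cm al be X s u Ap An Bp Bn Cp Cn n code n0 n1 e0 e1 : ℕ} {ys vs : ℂ}
    (hV : VU ys vs) (hcm : cm ≤ 1) (hal : al ≤ 1) (hbe : be ≤ 1)
    (h : go (leaf 2 cm al be X s u Ap An Bp Bn Cp Cn 398459 0) n code 0 430 n0 n1 490 684 e0 e1
      (fun _ => true) = true)
    (hn0 : (n0 : ℝ) / 2000 ≤ vs.im) (hn1 : vs.im ≤ (n1 : ℝ) / 2000)
    (he0 : ((e0 : ℝ) - 400) / 2000 ≤ ys.im) (he1 : ys.im ≤ ((e1 : ℝ) - 400) / 2000) :
    FF (2 : ℕ) cm al be (((X : ℝ) - 100) / 200) (((s : ℝ) - 40) / 200) (((u : ℝ) - 100) / 200) ys vs ≤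
      ((Ap : ℝ) - An) / 1048576 - ((Bp : ℝ) - Bn) / 1048576 * vs.im -
        ((Cp : ℝ) - Cn) / 1048576 * ys.im := by
  have x0 := hV.x0
  have x1 := hV.x1
  have t0 := hV.t0
  have t1 := hV.t1
  have hl := hV.l
  exact run_ok (Or.inr rfl) hcm hal hbe h hV ⟨by norm_num; linarith only [x0], by norm_num; linarith only [x1]⟩
    ⟨by linarith only [hn0], by linarith only [hn1]⟩ ⟨by norm_num; linarith only [t0], by norm_num; linarith only [t1]⟩
    ⟨by linarith only [he0], by linarith only [he1]⟩ (by norm_num; linarith only [hl, x1, x0])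

/-- **The bounds.** -/
theorem NAll_of {ys vs : ℂ} (hV : VU ys vs) : NAll ys vs := by
  constructor
  · -- e1_50_0
    intro e0 e1 n0 n1
    have h := run2 hV le_rfl le_rfl (Nat.zero_le 1) z_e1_50_0
      (by norm_num; linarith only [n0]) (by norm_num; linarith only [n1]) (by norm_num; linarith only [e0]) (by norm_num; linarith only [e1])
    rw [FF_Phi, show (((150 : ℕ) : ℝ) - 100) / 200 = 1 / 4 by norm_num, show (((40 : ℕ) : ℝ) - 40) / 200 = 0 by norm_num, show (((100 : ℕ) : ℝ) - 100) / 200 = 0 by norm_num] at h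
    push_cast at h
    linarith only [h, n0]
  · -- e1_50_28
    intro e0 e1 n0 n1
    have h := run2 hV le_rfl le_rfl (Nat.zero_le 1) z_e1_50_28
      (by norm_num; linarith only [n0]) (by norm_num; linarith only [n1]) (by norm_num; linarith only [e0]) (by norm_num; linarith only [e1])
    rw [FF_Phi, show (((150 : ℕ) : ℝ) - 100) / 200 = 1 / 4 by norm_num, show (((40 : ℕ) : ℝ) - 40) / 200 = 0 by norm_num, show (((128 : ℕ) : ℝ) - 100) / 200 = 7 / 50 by norm_num] at h
    push_cast at h
    linarith only [h, n0]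
  · -- e1_50_56
    intro e0 e1 n0 n1
    have h := run2 hV le_rfl le_rfl (Nat.zero_le 1) z_e1_50_56
      (by norm_num; linarith only [n0]) (by norm_num; linarith only [n1]) (by norm_num; linarith only [e0]) (by norm_num; linarith only [e1])
    rw [FF_Phi, show (((150 : ℕ) : ℝ) - 100) / 200 = 1 / 4 by norm_num, show (((40 : ℕ) : ℝ) - 40) / 200 = 0 by norm_num, show (((156 : ℕ) : ℝ) - 100) / 200 = 7 / 25 by norm_num] at h
    push_cast at h
    linarith only [h, n0]
  · -- e1_60_0
    intro e0 e1 n0 n1
    have h := run2 hV le_rfl le_rfl (Nat.zero_le 1) z_e1_60_0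
      (by norm_num; linarith only [n0]) (by norm_num; linarith only [n1]) (by norm_num; linarith only [e0]) (by norm_num; linarith only [e1])
    rw [FF_Phi, show (((160 : ℕ) : ℝ) - 100) / 200 = 3 / 10 by norm_num, show (((40 : ℕ) : ℝ) - 40) / 200 = 0 by norm_num, show (((100 : ℕ) : ℝ) - 100) / 200 = 0 by norm_num] at h
    push_cast at h
    linarith only [h, n0]
  · -- e1_60_28
    intro e0 e1 n0 n1
    have h := run2 hV le_rfl le_rfl (Nat.zero_le 1) z_e1_60_28
      (by norm_num; linarith only [n0]) (by norm_num; linarith only [n1]) (by norm_num; linarith only [e0]) (by norm_num; linarith only [e1])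
    rw [FF_Phi, show (((160 : ℕ) : ℝ) - 100) / 200 = 3 / 10 by norm_num, show (((40 : ℕ) : ℝ) - 40) / 200 = 0 by norm_num, show (((128 : ℕ) : ℝ) - 100) / 200 = 7 / 50 by norm_num] at h
    push_cast at h
    linarith only [h]
  · -- e1_60_56
    intro e0 e1 n0 n1
    have h := run2 hV le_rfl le_rfl (Nat.zero_le 1) z_e1_60_56
      (by norm_num; linarith only [n0]) (by norm_num; linarith only [n1]) (by norm_num; linarith only [e0]) (by norm_num; linarith only [e1])
    rw [FF_Phi, show (((160 : ℕ) : ℝ) - 100) / 200 = 3 / 10 by norm_num, show (((40 : ℕ) : ℝ) - 40) / 200 = 0 by norm_num, show (((156 : ℕ) : ℝ) - 100) / 200 = 7 / 25 by norm_num] at h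
    push_cast at h
    linarith only [h]
  · -- e1_70_0
    intro e0 e1 n0 n1
    have h := run2 hV le_rfl le_rfl (Nat.zero_le 1) z_e1_70_0
      (by norm_num; linarith only [n0]) (by norm_num; linarith only [n1]) (by norm_num; linarith only [e0]) (by norm_num; linarith only [e1])
    rw [FF_Phi, show (((170 : ℕ) : ℝ) - 100) / 200 = 7 / 20 by norm_num, show (((40 : ℕ) : ℝ) - 40) / 200 = 0 by norm_num, show (((100 : ℕ) : ℝ) - 100) / 200 = 0 by norm_num] at h
    push_cast at h
    linarith only [h, n0]
  · -- e1_70_28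
    intro e0 e1 n0 n1
    have h := run2 hV le_rfl le_rfl (Nat.zero_le 1) z_e1_70_28
      (by norm_num; linarith only [n0]) (by norm_num; linarith only [n1]) (by norm_num; linarith only [e0]) (by norm_num; linarith only [e1])
    rw [FF_Phi, show (((170 : ℕ) : ℝ) - 100) / 200 = 7 / 20 by norm_num, show (((40 : ℕ) : ℝ) - 40) / 200 = 0 by norm_num, show (((128 : ℕ) : ℝ) - 100) / 200 = 7 / 50 by norm_num] at h
    push_cast at h
    linarith only [h, n0]
  · -- e1_70_56
    intro e0 e1 n0 n1
    have h := run2 hV le_rfl le_rfl (Nat.zero_le 1) z_e1_70_56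
      (by norm_num; linarith only [n0]) (by norm_num; linarith only [n1]) (by norm_num; linarith only [e0]) (by norm_num; linarith only [e1])
    rw [FF_Phi, show (((170 : ℕ) : ℝ) - 100) / 200 = 7 / 20 by norm_num, show (((40 : ℕ) : ℝ) - 40) / 200 = 0 by norm_num, show (((156 : ℕ) : ℝ) - 100) / 200 = 7 / 25 by norm_num] at h
    push_cast at h
    linarith only [h, n0]
  · -- e1_100_0
    intro e0 e1 n0 n1
    have h := run2 hV le_rfl le_rfl (Nat.zero_le 1) z_e1_100_0
      (by norm_num; linarith only [n0]) (by norm_num; linarith only [n1]) (by norm_num; linarith only [e0]) (by norm_num; linarith only [e1])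
    rw [FF_Phi, show (((200 : ℕ) : ℝ) - 100) / 200 = 1 / 2 by norm_num, show (((40 : ℕ) : ℝ) - 40) / 200 = 0 by norm_num, show (((100 : ℕ) : ℝ) - 100) / 200 = 0 by norm_num] at h
    push_cast at h
    linarith only [h, n0]
  · -- e1_100_28
    intro e0 e1 n0 n1
    have h := run2 hV le_rfl le_rfl (Nat.zero_le 1) z_e1_100_28
      (by norm_num; linarith only [n0]) (by norm_num; linarith only [n1]) (by norm_num; linarith only [e0]) (by norm_num; linarith only [e1])
    rw [FF_Phi, show (((200 : ℕ) : ℝ) - 100) / 200 = 1 / 2 by norm_num, show (((40 : ℕ) : ℝ) - 40) / 200 = 0 by norm_num, show (((128 : ℕ) : ℝ) - 100) / 200 = 7 / 50 by norm_num] at h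
    push_cast at h
    linarith only [h, n0]
  · -- e1_100_56
    intro e0 e1 n0 n1
    have h := run2 hV le_rfl le_rfl (Nat.zero_le 1) z_e1_100_56
      (by norm_num; linarith only [n0]) (by norm_num; linarith only [n1]) (by norm_num; linarith only [e0]) (by norm_num; linarith only [e1])
    rw [FF_Phi, show (((200 : ℕ) : ℝ) - 100) / 200 = 1 / 2 by norm_num, show (((40 : ℕ) : ℝ) - 40) / 200 = 0 by norm_num, show (((156 : ℕ) : ℝ) - 100) / 200 = 7 / 25 by norm_num] at h
    push_cast at h
    linarith only [h, n0]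
  · -- e1r_50
    intro e0 e1 n0 n1
    have h := run2 hV le_rfl (Nat.zero_le 1) le_rfl z_e1r_50
      (by norm_num; linarith only [n0]) (by norm_num; linarith only [n1]) (by norm_num; linarith only [e0]) (by norm_num; linarith only [e1])
    rw [FF_Psi, show (((150 : ℕ) : ℝ) - 100) / 200 = 1 / 4 by norm_num, show (((40 : ℕ) : ℝ) - 40) / 200 = 0 by norm_num] at h
    push_cast at h
    linarith only [h]
  · -- e1r_100
    intro e0 e1 n0 n1
    have h := run2 hV le_rfl (Nat.zero_le 1) le_rfl z_e1r_100
      (by norm_num; linarith only [n0]) (by norm_num; linarith only [n1]) (by norm_num; linarith only [e0]) (by norm_num; linarith only [e1])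
    rw [FF_Psi, show (((200 : ℕ) : ℝ) - 100) / 200 = 1 / 2 by norm_num, show (((40 : ℕ) : ℝ) - 40) / 200 = 0 by norm_num] at h
    push_cast at h
    linarith only [h]
  · -- ea_80_0
    intro e0 e1 n0 n1
    have h := run2 hV le_rfl le_rfl (Nat.zero_le 1) z_ea_80_0
      (by norm_num; linarith only [n0]) (by norm_num; linarith only [n1]) (by norm_num; linarith only [e0]) (by norm_num; linarith only [e1])
    rw [FF_Phi, show (((180 : ℕ) : ℝ) - 100) / 200 = 2 / 5 by norm_num, show (((40 : ℕ) : ℝ) - 40) / 200 = 0 by norm_num, show (((100 : ℕ) : ℝ) - 100) / 200 = 0 by norm_num] at h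
    push_cast at h
    linarith only [h, n0]
  · -- ea_80_40
    intro e0 e1 n0 n1
    have h := run2 hV le_rfl le_rfl (Nat.zero_le 1) z_ea_80_40
      (by norm_num; linarith only [n0]) (by norm_num; linarith only [n1]) (by norm_num; linarith only [e0]) (by norm_num; linarith only [e1])
    rw [FF_Phi, show (((180 : ℕ) : ℝ) - 100) / 200 = 2 / 5 by norm_num, show (((40 : ℕ) : ℝ) - 40) / 200 = 0 by norm_num, show (((140 : ℕ) : ℝ) - 100) / 200 = 1 / 5 by norm_num] at h
    push_cast at h
    linarith only [h, n0]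
  · -- ea_80_56
    intro e0 e1 n0 n1
    have h := run2 hV le_rfl le_rfl (Nat.zero_le 1) z_ea_80_56
      (by norm_num; linarith only [n0]) (by norm_num; linarith only [n1]) (by norm_num; linarith only [e0]) (by norm_num; linarith only [e1])
    rw [FF_Phi, show (((180 : ℕ) : ℝ) - 100) / 200 = 2 / 5 by norm_num, show (((40 : ℕ) : ℝ) - 40) / 200 = 0 by norm_num, show (((156 : ℕ) : ℝ) - 100) / 200 = 7 / 25 by norm_num] at h
    push_cast at h
    linarith only [h, n0]
  · -- ea_100_0
    intro e0 e1 n0 n1
    have h := run2 hV le_rfl le_rfl (Nat.zero_le 1) z_ea_100_0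
      (by norm_num; linarith only [n0]) (by norm_num; linarith only [n1]) (by norm_num; linarith only [e0]) (by norm_num; linarith only [e1])
    rw [FF_Phi, show (((200 : ℕ) : ℝ) - 100) / 200 = 1 / 2 by norm_num, show (((40 : ℕ) : ℝ) - 40) / 200 = 0 by norm_num, show (((100 : ℕ) : ℝ) - 100) / 200 = 0 by norm_num] at h
    push_cast at h
    linarith only [h, n0]
  · -- ea_100_40
    intro e0 e1 n0 n1
    have h := run2 hV le_rfl le_rfl (Nat.zero_le 1) z_ea_100_40
      (by norm_num; linarith only [n0]) (by norm_num; linarith only [n1]) (by norm_num; linarith only [e0]) (by norm_num; linarith only [e1])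
    rw [FF_Phi, show (((200 : ℕ) : ℝ) - 100) / 200 = 1 / 2 by norm_num, show (((40 : ℕ) : ℝ) - 40) / 200 = 0 by norm_num, show (((140 : ℕ) : ℝ) - 100) / 200 = 1 / 5 by norm_num] at h
    push_cast at h
    linarith only [h, n0]
  · -- ea_100_56
    intro e0 e1 n0 n1
    have h := run2 hV le_rfl le_rfl (Nat.zero_le 1) z_ea_100_56
      (by norm_num; linarith only [n0]) (by norm_num; linarith only [n1]) (by norm_num; linarith only [e0]) (by norm_num; linarith only [e1])
    rw [FF_Phi, show (((200 : ℕ) : ℝ) - 100) / 200 = 1 / 2 by norm_num, show (((40 : ℕ) : ℝ) - 40) / 200 = 0 by norm_num, show (((156 : ℕ) : ℝ) - 100) / 200 = 7 / 25 by norm_num] at h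
    push_cast at h
    linarith only [h, n0]
  · -- ear_80
    intro e0 e1 n0 n1
    have h := run2 hV le_rfl (Nat.zero_le 1) le_rfl z_ear_80
      (by norm_num; linarith only [n0]) (by norm_num; linarith only [n1]) (by norm_num; linarith only [e0]) (by norm_num; linarith only [e1])
    rw [FF_Psi, show (((180 : ℕ) : ℝ) - 100) / 200 = 2 / 5 by norm_num, show (((40 : ℕ) : ℝ) - 40) / 200 = 0 by norm_num] at h
    push_cast at h
    linarith only [h]
  · -- ear_100
    intro e0 e1 n0 n1
    have h := run2 hV le_rfl (Nat.zero_le 1) le_rfl z_ear_100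
      (by norm_num; linarith only [n0]) (by norm_num; linarith only [n1]) (by norm_num; linarith only [e0]) (by norm_num; linarith only [e1])
    rw [FF_Psi, show (((200 : ℕ) : ℝ) - 100) / 200 = 1 / 2 by norm_num, show (((40 : ℕ) : ℝ) - 40) / 200 = 0 by norm_num] at h
    push_cast at h
    linarith only [h]
  · -- eas_80
    intro e0 e1 n0 n1
    have h := run2 hV le_rfl le_rfl le_rfl z_eas_80
      (by norm_num; linarith only [n0]) (by norm_num; linarith only [n1]) (by norm_num; linarith only [e0]) (by norm_num; linarith only [e1])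
    rw [FF_Mix, show (((180 : ℕ) : ℝ) - 100) / 200 = 2 / 5 by norm_num, show (((40 : ℕ) : ℝ) - 40) / 200 = 0 by norm_num, show (((156 : ℕ) : ℝ) - 100) / 200 = 7 / 25 by norm_num] at h
    push_cast at h
    linarith only [h]
  · -- eas_100
    intro e0 e1 n0 n1
    have h := run2 hV le_rfl le_rfl le_rfl z_eas_100
      (by norm_num; linarith only [n0]) (by norm_num; linarith only [n1]) (by norm_num; linarith only [e0]) (by norm_num; linarith only [e1])
    rw [FF_Mix, show (((200 : ℕ) : ℝ) - 100) / 200 = 1 / 2 by norm_num, show (((40 : ℕ) : ℝ) - 40) / 200 = 0 by norm_num, show (((156 : ℕ) : ℝ) - 100) / 200 = 7 / 25 by norm_num] at h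
    push_cast at h
    linarith only [h]
  · -- es_80_0
    intro e0 e1 n0 n1
    have h := run2 hV le_rfl le_rfl (Nat.zero_le 1) z_es_80_0
      (by norm_num; linarith only [n0]) (by norm_num; linarith only [n1]) (by norm_num; linarith only [e0]) (by norm_num; linarith only [e1])
    rw [FF_Phi, show (((180 : ℕ) : ℝ) - 100) / 200 = 2 / 5 by norm_num, show (((40 : ℕ) : ℝ) - 40) / 200 = 0 by norm_num, show (((100 : ℕ) : ℝ) - 100) / 200 = 0 by norm_num] at h
    push_cast at h
    linarith only [h, n0]
  · -- es_80_56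
    intro e0 e1 n0 n1
    have h := run2 hV le_rfl le_rfl (Nat.zero_le 1) z_es_80_56
      (by norm_num; linarith only [n0]) (by norm_num; linarith only [n1]) (by norm_num; linarith only [e0]) (by norm_num; linarith only [e1])
    rw [FF_Phi, show (((180 : ℕ) : ℝ) - 100) / 200 = 2 / 5 by norm_num, show (((40 : ℕ) : ℝ) - 40) / 200 = 0 by norm_num, show (((156 : ℕ) : ℝ) - 100) / 200 = 7 / 25 by norm_num] at h
    push_cast at h
    linarith only [h, n0]
  · -- es_100_0
    intro e0 e1 n0 n1
    have h := run2 hV le_rfl le_rfl (Nat.zero_le 1) z_es_100_0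
      (by norm_num; linarith only [n0]) (by norm_num; linarith only [n1]) (by norm_num; linarith only [e0]) (by norm_num; linarith only [e1])
    rw [FF_Phi, show (((200 : ℕ) : ℝ) - 100) / 200 = 1 / 2 by norm_num, show (((40 : ℕ) : ℝ) - 40) / 200 = 0 by norm_num, show (((100 : ℕ) : ℝ) - 100) / 200 = 0 by norm_num] at h
    push_cast at h
    linarith only [h]
  · -- es_100_56
    intro e0 e1 n0 n1
    have h := run2 hV le_rfl le_rfl (Nat.zero_le 1) z_es_100_56
      (by norm_num; linarith only [n0]) (by norm_num; linarith only [n1]) (by norm_num; linarith only [e0]) (by norm_num; linarith only [e1])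
    rw [FF_Phi, show (((200 : ℕ) : ℝ) - 100) / 200 = 1 / 2 by norm_num, show (((40 : ℕ) : ℝ) - 40) / 200 = 0 by norm_num, show (((156 : ℕ) : ℝ) - 100) / 200 = 7 / 25 by norm_num] at h
    push_cast at h
    linarith only [h, n0]
  · -- esr_80
    intro e0 e1 n0 n1
    have h := run2 hV le_rfl (Nat.zero_le 1) le_rfl z_esr_80
      (by norm_num; linarith only [n0]) (by norm_num; linarith only [n1]) (by norm_num; linarith only [e0]) (by norm_num; linarith only [e1])
    rw [FF_Psi, show (((180 : ℕ) : ℝ) - 100) / 200 = 2 / 5 by norm_num, show (((40 : ℕ) : ℝ) - 40) / 200 = 0 by norm_num] at h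
    push_cast at h
    linarith only [h]
  · -- esr_100
    intro e0 e1 n0 n1
    have h := run2 hV le_rfl (Nat.zero_le 1) le_rfl z_esr_100
      (by norm_num; linarith only [n0]) (by norm_num; linarith only [n1]) (by norm_num; linarith only [e0]) (by norm_num; linarith only [e1])
    rw [FF_Psi, show (((200 : ℕ) : ℝ) - 100) / 200 = 1 / 2 by norm_num, show (((40 : ℕ) : ℝ) - 40) / 200 = 0 by norm_num] at h
    push_cast at h
    linarith only [h]
  · -- lp0_10
    intro e0 e1 n0 n1
    have h := run2 hV le_rfl le_rfl (Nat.zero_le 1) z_lp0_10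
      (by norm_num; linarith only [n0]) (by norm_num; linarith only [n1]) (by norm_num; linarith only [e0]) (by norm_num; linarith only [e1])
    rw [FF_Phi, show (((50 : ℕ) : ℝ) - 100) / 200 = -(1 / 4) by norm_num, show (((50 : ℕ) : ℝ) - 40) / 200 = 1 / 20 by norm_num, show (((156 : ℕ) : ℝ) - 100) / 200 = 7 / 25 by norm_num] at h
    push_cast at h
    linarith only [h, n0]
  · -- lp0_20
    intro e0 e1 n0 n1
    have h := run2 hV le_rfl le_rfl (Nat.zero_le 1) z_lp0_20
      (by norm_num; linarith only [n0]) (by norm_num; linarith only [n1]) (by norm_num; linarith only [e0]) (by norm_num; linarith only [e1])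
    rw [FF_Phi, show (((50 : ℕ) : ℝ) - 100) / 200 = -(1 / 4) by norm_num, show (((60 : ℕ) : ℝ) - 40) / 200 = 1 / 10 by norm_num, show (((156 : ℕ) : ℝ) - 100) / 200 = 7 / 25 by norm_num] at h
    push_cast at h
    linarith only [h, n0]
  · -- lp1_10
    intro e0 e1 n0 n1
    have h := run2 hV le_rfl le_rfl (Nat.zero_le 1) z_lp1_10
      (by norm_num; linarith only [n0]) (by norm_num; linarith only [n1]) (by norm_num; linarith only [e0]) (by norm_num; linarith only [e1])
    rw [FF_Phi, show (((50 : ℕ) : ℝ) - 100) / 200 = -(1 / 4) by norm_num, show (((50 : ℕ) : ℝ) - 40) / 200 = 1 / 20 by norm_num, show (((156 : ℕ) : ℝ) - 100) / 200 = 7 / 25 by norm_num] at h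
    push_cast at h
    linarith only [h, n0]
  · -- lp1_20
    intro e0 e1 n0 n1
    have h := run2 hV le_rfl le_rfl (Nat.zero_le 1) z_lp1_20
      (by norm_num; linarith only [n0]) (by norm_num; linarith only [n1]) (by norm_num; linarith only [e0]) (by norm_num; linarith only [e1])
    rw [FF_Phi, show (((50 : ℕ) : ℝ) - 100) / 200 = -(1 / 4) by norm_num, show (((60 : ℕ) : ℝ) - 40) / 200 = 1 / 10 by norm_num, show (((156 : ℕ) : ℝ) - 100) / 200 = 7 / 25 by norm_num] at h
    push_cast at h
    linarith only [h, n0]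
  · -- ln0_7
    intro e0 e1 n0 n1
    have h := run2 hV le_rfl le_rfl (Nat.zero_le 1) z_ln0_7
      (by norm_num; linarith only [n0]) (by norm_num; linarith only [n1]) (by norm_num; linarith only [e0]) (by norm_num; linarith only [e1])
    rw [FF_Phi, show (((50 : ℕ) : ℝ) - 100) / 200 = -(1 / 4) by norm_num, show (((33 : ℕ) : ℝ) - 40) / 200 = -(7 / 200) by norm_num, show (((156 : ℕ) : ℝ) - 100) / 200 = 7 / 25 by norm_num] at h
    push_cast at h
    linarith only [h]
  · -- ln0_14
    intro e0 e1 n0 n1
    have h := run2 hV le_rfl le_rfl (Nat.zero_le 1) z_ln0_14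
      (by norm_num; linarith only [n0]) (by norm_num; linarith only [n1]) (by norm_num; linarith only [e0]) (by norm_num; linarith only [e1])
    rw [FF_Phi, show (((50 : ℕ) : ℝ) - 100) / 200 = -(1 / 4) by norm_num, show (((26 : ℕ) : ℝ) - 40) / 200 = -(7 / 100) by norm_num, show (((156 : ℕ) : ℝ) - 100) / 200 = 7 / 25 by norm_num] at h
    push_cast at h
    linarith only [h, n0]
  · -- ln0_20
    intro e0 e1 n0 n1
    have h := run2 hV le_rfl le_rfl (Nat.zero_le 1) z_ln0_20
      (by norm_num; linarith only [n0]) (by norm_num; linarith only [n1]) (by norm_num; linarith only [e0]) (by norm_num; linarith only [e1])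
    rw [FF_Phi, show (((50 : ℕ) : ℝ) - 100) / 200 = -(1 / 4) by norm_num, show (((20 : ℕ) : ℝ) - 40) / 200 = -(1 / 10) by norm_num, show (((156 : ℕ) : ℝ) - 100) / 200 = 7 / 25 by norm_num] at h
    push_cast at h
    linarith only [h, n0]
  · -- ln0_24
    intro e0 e1 n0 n1
    have h := run2 hV le_rfl le_rfl (Nat.zero_le 1) z_ln0_24
      (by norm_num; linarith only [n0]) (by norm_num; linarith only [n1]) (by norm_num; linarith only [e0]) (by norm_num; linarith only [e1])
    rw [FF_Phi, show (((50 : ℕ) : ℝ) - 100) / 200 = -(1 / 4) by norm_num, show (((16 : ℕ) : ℝ) - 40) / 200 = -(3 / 25) by norm_num, show (((156 : ℕ) : ℝ) - 100) / 200 = 7 / 25 by norm_num] at h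
    push_cast at h
    linarith only [h]
  · -- ln0_26
    intro e0 e1 n0 n1
    have h := run2 hV le_rfl le_rfl (Nat.zero_le 1) z_ln0_26
      (by norm_num; linarith only [n0]) (by norm_num; linarith only [n1]) (by norm_num; linarith only [e0]) (by norm_num; linarith only [e1])
    rw [FF_Phi, show (((50 : ℕ) : ℝ) - 100) / 200 = -(1 / 4) by norm_num, show (((14 : ℕ) : ℝ) - 40) / 200 = -(13 / 100) by norm_num, show (((156 : ℕ) : ℝ) - 100) / 200 = 7 / 25 by norm_num] at h
    push_cast at h
    linarith only [h, n0]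
  · -- ln1_7
    intro e0 e1 n0 n1
    have h := run2 hV le_rfl le_rfl (Nat.zero_le 1) z_ln1_7
      (by norm_num; linarith only [n0]) (by norm_num; linarith only [n1]) (by norm_num; linarith only [e0]) (by norm_num; linarith only [e1])
    rw [FF_Phi, show (((50 : ℕ) : ℝ) - 100) / 200 = -(1 / 4) by norm_num, show (((33 : ℕ) : ℝ) - 40) / 200 = -(7 / 200) by norm_num, show (((156 : ℕ) : ℝ) - 100) / 200 = 7 / 25 by norm_num] at h
    push_cast at h
    linarith only [h, n0]
  · -- ln1_14
    intro e0 e1 n0 n1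
    have h := run2 hV le_rfl le_rfl (Nat.zero_le 1) z_ln1_14
      (by norm_num; linarith only [n0]) (by norm_num; linarith only [n1]) (by norm_num; linarith only [e0]) (by norm_num; linarith only [e1])
    rw [FF_Phi, show (((50 : ℕ) : ℝ) - 100) / 200 = -(1 / 4) by norm_num, show (((26 : ℕ) : ℝ) - 40) / 200 = -(7 / 100) by norm_num, show (((156 : ℕ) : ℝ) - 100) / 200 = 7 / 25 by norm_num] at h
    push_cast at h
    linarith only [h]
  · -- ln1_20
    intro e0 e1 n0 n1
    have h := run2 hV le_rfl le_rfl (Nat.zero_le 1) z_ln1_20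
      (by norm_num; linarith only [n0]) (by norm_num; linarith only [n1]) (by norm_num; linarith only [e0]) (by norm_num; linarith only [e1])
    rw [FF_Phi, show (((50 : ℕ) : ℝ) - 100) / 200 = -(1 / 4) by norm_num, show (((20 : ℕ) : ℝ) - 40) / 200 = -(1 / 10) by norm_num, show (((156 : ℕ) : ℝ) - 100) / 200 = 7 / 25 by norm_num] at h
    push_cast at h
    linarith only [h]
  · -- ln1_24
    intro e0 e1 n0 n1
    have h := run2 hV le_rfl le_rfl (Nat.zero_le 1) z_ln1_24
      (by norm_num; linarith only [n0]) (by norm_num; linarith only [n1]) (by norm_num; linarith only [e0]) (by norm_num; linarith only [e1])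
    rw [FF_Phi, show (((50 : ℕ) : ℝ) - 100) / 200 = -(1 / 4) by norm_num, show (((16 : ℕ) : ℝ) - 40) / 200 = -(3 / 25) by norm_num, show (((156 : ℕ) : ℝ) - 100) / 200 = 7 / 25 by norm_num] at h
    push_cast at h
    linarith only [h, n0]
  · -- ln1_26
    intro e0 e1 n0 n1
    have h := run2 hV le_rfl le_rfl (Nat.zero_le 1) z_ln1_26
      (by norm_num; linarith only [n0]) (by norm_num; linarith only [n1]) (by norm_num; linarith only [e0]) (by norm_num; linarith only [e1])
    rw [FF_Phi, show (((50 : ℕ) : ℝ) - 100) / 200 = -(1 / 4) by norm_num, show (((14 : ℕ) : ℝ) - 40) / 200 = -(13 / 100) by norm_num, show (((156 : ℕ) : ℝ) - 100) / 200 = 7 / 25 by norm_num] at h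
    push_cast at h
    linarith only [h]
  · -- q0_0
    intro e0 e1 n0 n1
    have h := run2 hV (Nat.zero_le 1) (Nat.zero_le 1) le_rfl z_q0_0
      (by norm_num; linarith only [n0]) (by norm_num; linarith only [n1]) (by norm_num; linarith only [e0]) (by norm_num; linarith only [e1])
    rw [FF_Psi0, show (((100 : ℕ) : ℝ) - 100) / 200 = 0 by norm_num] at h
    push_cast at h
    linarith only [h, e0]
  · -- q0_60
    intro e0 e1 n0 n1
    have h := run2 hV (Nat.zero_le 1) (Nat.zero_le 1) le_rfl z_q0_60
      (by norm_num; linarith only [n0]) (by norm_num; linarith only [n1]) (by norm_num; linarith only [e0]) (by norm_num; linarith only [e1])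
    rw [FF_Psi0, show (((160 : ℕ) : ℝ) - 100) / 200 = 3 / 10 by norm_num] at h
    push_cast at h
    linarith only [h, e1]
  · -- q0_70
    intro e0 e1 n0 n1
    have h := run2 hV (Nat.zero_le 1) (Nat.zero_le 1) le_rfl z_q0_70
      (by norm_num; linarith only [n0]) (by norm_num; linarith only [n1]) (by norm_num; linarith only [e0]) (by norm_num; linarith only [e1])
    rw [FF_Psi0, show (((170 : ℕ) : ℝ) - 100) / 200 = 7 / 20 by norm_num] at h
    push_cast at h
    linarith only [h, e0]
  · -- q0_80
    intro e0 e1 n0 n1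
    have h := run2 hV (Nat.zero_le 1) (Nat.zero_le 1) le_rfl z_q0_80
      (by norm_num; linarith only [n0]) (by norm_num; linarith only [n1]) (by norm_num; linarith only [e0]) (by norm_num; linarith only [e1])
    rw [FF_Psi0, show (((180 : ℕ) : ℝ) - 100) / 200 = 2 / 5 by norm_num] at h
    push_cast at h
    linarith only [h, e1]
  · -- q0_100
    intro e0 e1 n0 n1
    have h := run2 hV (Nat.zero_le 1) (Nat.zero_le 1) le_rfl z_q0_100
      (by norm_num; linarith only [n0]) (by norm_num; linarith only [n1]) (by norm_num; linarith only [e0]) (by norm_num; linarith only [e1])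
    rw [FF_Psi0, show (((200 : ℕ) : ℝ) - 100) / 200 = 1 / 2 by norm_num] at h
    push_cast at h
    linarith only [h, e1]
  · -- q1_0
    intro e0 e1 n0 n1
    have h := run2 hV (Nat.zero_le 1) (Nat.zero_le 1) le_rfl z_q1_0
      (by norm_num; linarith only [n0]) (by norm_num; linarith only [n1]) (by norm_num; linarith only [e0]) (by norm_num; linarith only [e1])
    rw [FF_Psi0, show (((100 : ℕ) : ℝ) - 100) / 200 = 0 by norm_num] at h
    push_cast at h
    linarith only [h, e0]
  · -- q1_60
    intro e0 e1 n0 n1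
    have h := run2 hV (Nat.zero_le 1) (Nat.zero_le 1) le_rfl z_q1_60
      (by norm_num; linarith only [n0]) (by norm_num; linarith only [n1]) (by norm_num; linarith only [e0]) (by norm_num; linarith only [e1])
    rw [FF_Psi0, show (((160 : ℕ) : ℝ) - 100) / 200 = 3 / 10 by norm_num] at h
    push_cast at h
    linarith only [h, e1]
  · -- q1_70
    intro e0 e1 n0 n1
    have h := run2 hV (Nat.zero_le 1) (Nat.zero_le 1) le_rfl z_q1_70
      (by norm_num; linarith only [n0]) (by norm_num; linarith only [n1]) (by norm_num; linarith only [e0]) (by norm_num; linarith only [e1])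
    rw [FF_Psi0, show (((170 : ℕ) : ℝ) - 100) / 200 = 7 / 20 by norm_num] at h
    push_cast at h
    linarith only [h, e1]
  · -- q1_80
    intro e0 e1 n0 n1
    have h := run2 hV (Nat.zero_le 1) (Nat.zero_le 1) le_rfl z_q1_80
      (by norm_num; linarith only [n0]) (by norm_num; linarith only [n1]) (by norm_num; linarith only [e0]) (by norm_num; linarith only [e1])
    rw [FF_Psi0, show (((180 : ℕ) : ℝ) - 100) / 200 = 2 / 5 by norm_num] at h
    push_cast at h
    linarith only [h, e1]
  · -- q1_100
    intro e0 e1 n0 n1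
    have h := run2 hV (Nat.zero_le 1) (Nat.zero_le 1) le_rfl z_q1_100
      (by norm_num; linarith only [n0]) (by norm_num; linarith only [n1]) (by norm_num; linarith only [e0]) (by norm_num; linarith only [e1])
    rw [FF_Psi0, show (((200 : ℕ) : ℝ) - 100) / 200 = 1 / 2 by norm_num] at h
    push_cast at h
    linarith only [h]
  · -- q2_0
    intro e0 e1 n0 n1
    have h := run2 hV (Nat.zero_le 1) (Nat.zero_le 1) le_rfl z_q2_0
      (by norm_num; linarith only [n0]) (by norm_num; linarith only [n1]) (by norm_num; linarith only [e0]) (by norm_num; linarith only [e1])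
    rw [FF_Psi0, show (((100 : ℕ) : ℝ) - 100) / 200 = 0 by norm_num] at h
    push_cast at h
    linarith only [h, e1]
  · -- q2_60
    intro e0 e1 n0 n1
    have h := run2 hV (Nat.zero_le 1) (Nat.zero_le 1) le_rfl z_q2_60
      (by norm_num; linarith only [n0]) (by norm_num; linarith only [n1]) (by norm_num; linarith only [e0]) (by norm_num; linarith only [e1])
    rw [FF_Psi0, show (((160 : ℕ) : ℝ) - 100) / 200 = 3 / 10 by norm_num] at h
    push_cast at h
    linarith only [h, e1]
  · -- q2_70
    intro e0 e1 n0 n1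
    have h := run2 hV (Nat.zero_le 1) (Nat.zero_le 1) le_rfl z_q2_70
      (by norm_num; linarith only [n0]) (by norm_num; linarith only [n1]) (by norm_num; linarith only [e0]) (by norm_num; linarith only [e1])
    rw [FF_Psi0, show (((170 : ℕ) : ℝ) - 100) / 200 = 7 / 20 by norm_num] at h
    push_cast at h
    linarith only [h, e0]
  · -- q2_80
    intro e0 e1 n0 n1
    have h := run2 hV (Nat.zero_le 1) (Nat.zero_le 1) le_rfl z_q2_80
      (by norm_num; linarith only [n0]) (by norm_num; linarith only [n1]) (by norm_num; linarith only [e0]) (by norm_num; linarith only [e1])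
    rw [FF_Psi0, show (((180 : ℕ) : ℝ) - 100) / 200 = 2 / 5 by norm_num] at h
    push_cast at h
    linarith only [h]
  · -- q2_100
    intro e0 e1 n0 n1
    have h := run2 hV (Nat.zero_le 1) (Nat.zero_le 1) le_rfl z_q2_100
      (by norm_num; linarith only [n0]) (by norm_num; linarith only [n1]) (by norm_num; linarith only [e0]) (by norm_num; linarith only [e1])
    rw [FF_Psi0, show (((200 : ℕ) : ℝ) - 100) / 200 = 1 / 2 by norm_num] at h
    push_cast at h
    linarith only [h]
  · -- q3_0
    intro e0 e1 n0 n1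
    have h := run2 hV (Nat.zero_le 1) (Nat.zero_le 1) le_rfl z_q3_0
      (by norm_num; linarith only [n0]) (by norm_num; linarith only [n1]) (by norm_num; linarith only [e0]) (by norm_num; linarith only [e1])
    rw [FF_Psi0, show (((100 : ℕ) : ℝ) - 100) / 200 = 0 by norm_num] at h
    push_cast at h
    linarith only [h, e1]
  · -- q3_60
    intro e0 e1 n0 n1
    have h := run2 hV (Nat.zero_le 1) (Nat.zero_le 1) le_rfl z_q3_60
      (by norm_num; linarith only [n0]) (by norm_num; linarith only [n1]) (by norm_num; linarith only [e0]) (by norm_num; linarith only [e1])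
    rw [FF_Psi0, show (((160 : ℕ) : ℝ) - 100) / 200 = 3 / 10 by norm_num] at h
    push_cast at h
    linarith only [h, e0]
  · -- q3_70
    intro e0 e1 n0 n1
    have h := run2 hV (Nat.zero_le 1) (Nat.zero_le 1) le_rfl z_q3_70
      (by norm_num; linarith only [n0]) (by norm_num; linarith only [n1]) (by norm_num; linarith only [e0]) (by norm_num; linarith only [e1])
    rw [FF_Psi0, show (((170 : ℕ) : ℝ) - 100) / 200 = 7 / 20 by norm_num] at h
    push_cast at h
    linarith only [h, e1]
  · -- q3_80
    intro e0 e1 n0 n1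
    have h := run2 hV (Nat.zero_le 1) (Nat.zero_le 1) le_rfl z_q3_80
      (by norm_num; linarith only [n0]) (by norm_num; linarith only [n1]) (by norm_num; linarith only [e0]) (by norm_num; linarith only [e1])
    rw [FF_Psi0, show (((180 : ℕ) : ℝ) - 100) / 200 = 2 / 5 by norm_num] at h
    push_cast at h
    linarith only [h, e0]
  · -- q3_100
    intro e0 e1 n0 n1
    have h := run2 hV (Nat.zero_le 1) (Nat.zero_le 1) le_rfl z_q3_100
      (by norm_num; linarith only [n0]) (by norm_num; linarith only [n1]) (by norm_num; linarith only [e0]) (by norm_num; linarith only [e1])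
    rw [FF_Psi0, show (((200 : ℕ) : ℝ) - 100) / 200 = 1 / 2 by norm_num] at h
    push_cast at h
    linarith only [h, e1]
  · -- rn
    intro e0 e1 n0 n1
    have h := run2 hV (Nat.zero_le 1) (Nat.zero_le 1) le_rfl z_rn
      (by norm_num; linarith only [n0]) (by norm_num; linarith only [n1]) (by norm_num; linarith only [e0]) (by norm_num; linarith only [e1])
    rw [FF_Psi0, show (((50 : ℕ) : ℝ) - 100) / 200 = -(1 / 4) by norm_num] at h
    push_cast at h
    linarith only [h, e0]
  · -- rp
    intro e0 e1 n0 n1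
    have h := run2 hV (Nat.zero_le 1) (Nat.zero_le 1) le_rfl z_rp
      (by norm_num; linarith only [n0]) (by norm_num; linarith only [n1]) (by norm_num; linarith only [e0]) (by norm_num; linarith only [e1])
    rw [FF_Psi0, show (((50 : ℕ) : ℝ) - 100) / 200 = -(1 / 4) by norm_num] at h
    push_cast at h
    linarith only [h, e1]

end Pool.Agent.S5.Pa
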