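import Pool.Agent.S5.I.VKn
import Pool.Agent.S5.I.VZg
import Pool.Agent.S5.I.VZi

/-!
# Vertical and real pieces of `v`: the statement `VNC`
-/

set_option autoImplicit false

namespace Pool.Agent.S5

/-- Vertical and real pieces of `v`, flat piece of `y`. -/
theorem VNC_holds : VNC :=
  VNC_of fun _ _ _ _ h hy b0 b1 hv h1 => VNC_neg h (Pa.NAll_of h) hy b0 b1 hv h1

end Pool.Agent.S5
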