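import Pool.Agent.S5.S.Defs
import Pool.Agent.S3.Gr1

/-!
# Assembly of the inequality: the growth rate as a sum over the nodes

Every edge gives half of its factor to each of its two nodes; the potentials `p j` of the edges
cancel in the sum.
-/

set_option autoImplicit false

namespace Pool.Agent.S5

open Complex
open Pool.Agent.S3 (Rf)

/-- The growth rate of a node with its shares of the edges. -/
noncomputable def Vn (c : ℤ) (ty : Ty) (fl : Bool) (z a b : ℂ) : ℝ :=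
  gN c ty fl z a b + 2 * Rf (a + 1 / 2) + 2 * Rf (b + 1 / 2)

/-- The potentials of the edges, extended by zero. -/
def pe {m : ℕ} (p : Fin m → ℝ) (n : ℕ) : ℝ := if h : 0 < n ∧ n ≤ m then p ⟨n - 1, by omega⟩ else 0

theorem pe_zero {m : ℕ} (p : Fin m → ℝ) : pe p 0 = 0 := dif_neg (by omega)

theorem pe_last {m : ℕ} (p : Fin m → ℝ) : pe p (m + 1) = 0 := dif_neg (by omega)

theorem pe_succ {m : ℕ} (p : Fin m → ℝ) (j : Fin m) : pe p (j + 1) = p j := by
  rw [pe, dif_pos ⟨Nat.succ_pos _, j.isLt⟩]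
  congr 1

theorem ye_zero {m : ℕ} (y : Fin m → ℂ) : ye y 0 = 1 / 2 := dif_neg (by omega)

theorem ye_last {m : ℕ} (y : Fin m → ℂ) : ye y (m + 1) = 1 / 2 := dif_neg (by omega)

theorem ye_sc {m : ℕ} (y : Fin m → ℂ) (j : Fin m) : ye y (j + 1) = y j := by
  rw [ye, dif_pos ⟨Nat.succ_pos _, j.isLt⟩]
  congr 1

/-- A sum over the left slots. -/
theorem sum_left {m : ℕ} (f : ℕ → ℝ) (h0 : f 0 = 0) :
    ∑ i : Fin (m + 1), f i = ∑ j : Fin m, f (j + 1) := by
  rw [Fin.sum_univ_succ]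
  simp [h0]

/-- A sum over the right slots. -/
theorem sum_right {m : ℕ} (f : ℕ → ℝ) (h0 : f (m + 1) = 0) :
    ∑ i : Fin (m + 1), f (i + 1) = ∑ j : Fin m, f (j + 1) := by
  rw [Fin.sum_univ_castSucc]
  simp [h0]

theorem Rf_dummy : Rf ((1 : ℂ) / 2 + 1 / 2) = 0 := by
  have h0 := Pool.Agent.S3.Rf_neg 0
  have h1 := Pool.Agent.S3.Rf_one_sub 0
  rw [neg_zero, zero_im, abs_zero, mul_zero, sub_zero] at h0
  rw [sub_zero] at h1
  have e : (1 : ℂ) / 2 + 1 / 2 = 1 := by norm_num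
  rw [e, h1]
  linarith

/-- The growth rate as a sum over the nodes. -/
theorem G_eq {m : ℕ} (C : Ch m) (o : Fin (m + 1) → ℂ) (y : Fin m → ℂ) :
    C.G o y = ∑ i : Fin (m + 1), Vn (C.c i) (C.ty i) (C.fl i) (o i) (ye y i) (ye y (i + 1)) := by
  unfold Vn Ch.G
  rw [Finset.sum_add_distrib, Finset.sum_add_distrib]
  have e1 : ∑ i : Fin (m + 1), 2 * Rf (ye y i + 1 / 2) = ∑ j : Fin m, 2 * Rf (y j + 1 / 2) := by
    rw [sum_left (fun n => 2 * Rf (ye y n + 1 / 2)) (by simp only [ye_zero, Rf_dummy, mul_zero])]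
    refine Finset.sum_congr rfl fun j _ => ?_
    simp only [ye_sc]
  have e2 : ∑ i : Fin (m + 1), 2 * Rf (ye y (i + 1) + 1 / 2) = ∑ j : Fin m, 2 * Rf (y j + 1 / 2) := by
    rw [sum_right (fun n => 2 * Rf (ye y n + 1 / 2)) (by simp only [ye_last, Rf_dummy, mul_zero])]
    refine Finset.sum_congr rfl fun j _ => ?_
    simp only [ye_sc]
  rw [e1, e2]
  have e3 : ∑ j : Fin m, 4 * Rf (y j + 1 / 2) = ∑ j : Fin m, 2 * Rf (y j + 1 / 2) +
      ∑ j : Fin m, 2 * Rf (y j + 1 / 2) := by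
    rw [← Finset.sum_add_distrib]
    refine Finset.sum_congr rfl fun j _ => ?_
    ring
  rw [e3]
  ring

/-- The excess of a node: `p` are the potentials of the edges. -/
noncomputable def Ex {m : ℕ} (C : Ch m) (K : Cn m) (p : Fin m → ℝ) (o : Fin (m + 1) → ℂ)
    (y : Fin m → ℂ) (i : Fin (m + 1)) : ℝ :=
  Vn (C.c i) (C.ty i) (C.fl i) (o i) (ye y i) (ye y (i + 1)) -
    Vn (C.c i) (C.ty i) (C.fl i) (K.oc i) (ye K.yc i) (ye K.yc (i + 1)) + pe p i - pe p (i + 1)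

/-- **The sum of the excesses.** -/
theorem sum_Ex {m : ℕ} (C : Ch m) (K : Cn m) (p : Fin m → ℝ) (o : Fin (m + 1) → ℂ)
    (y : Fin m → ℂ) : ∑ i, Ex C K p o y i = C.G o y - C.G K.oc K.yc := by
  unfold Ex
  rw [Finset.sum_sub_distrib, Finset.sum_add_distrib, Finset.sum_sub_distrib, ← G_eq, ← G_eq,
    sum_left _ (pe_zero p), sum_right _ (pe_last p)]
  ring

end Pool.Agent.S5
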