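import Pool.Agent.S5.I.Asm0

/-!
# Assembly of the inequality: budgets

The edge `j` gives the budget `bl j` to its left node and `br j` to its right node,
`bl j + br j ≤ wy j`; the node `i` has its own budget `wo i`.
-/

set_option autoImplicit false

namespace Pool.Agent.S5

open Complex

variable {m : ℕ} {C : Ch m} {K : Cn m} {p bl br : Fin m → ℝ} {o : Fin (m + 1) → ℂ}
  {y : Fin m → ℂ} {wo : Fin (m + 1) → ℝ} {wy : Fin m → ℝ}

theorem sum_budget (hb : ∀ j, bl j + br j ≤ wy j) :
    ∑ i : Fin (m + 1), (pe bl (i + 1) + pe br i + wo i) ≤ ∑ i, wo i + ∑ j, wy j := by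
  rw [Finset.sum_add_distrib, Finset.sum_add_distrib, sum_right _ (pe_last bl),
    sum_left _ (pe_zero br)]
  have e1 : ∑ j : Fin m, pe bl (j + 1) = ∑ j, bl j := Finset.sum_congr rfl fun j _ => pe_succ bl j
  have e2 : ∑ j : Fin m, pe br (j + 1) = ∑ j, br j := Finset.sum_congr rfl fun j _ => pe_succ br j
  rw [e1, e2, ← Finset.sum_add_distrib]
  have := Finset.sum_le_sum fun j (_ : j ∈ Finset.univ) => hb j
  linarith

/-- The inequality, if all nodes keep their budgets. -/
theorem G_le_of (hb : ∀ j, bl j + br j ≤ wy j)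
    (h : ∀ i, Ex C K p o y i ≤ pe bl (i + 1) + pe br i + wo i) :
    C.G o y ≤ C.G K.oc K.yc + ∑ i, wo i + ∑ j, wy j := by
  have h1 := Finset.sum_le_sum fun i (_ : i ∈ Finset.univ) => h i
  rw [sum_Ex] at h1
  have h2 := sum_budget (wo := wo) hb
  linarith

/-- The strict inequality, if one node does not need its budget. -/
theorem G_lt_of (hb : ∀ j, bl j + br j ≤ wy j)
    (h : ∀ i, Ex C K p o y i ≤ pe bl (i + 1) + pe br i + wo i)
    (hs : ∃ i, Ex C K p o y i < pe bl (i + 1) + pe br i + wo i) :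
    C.G o y < C.G K.oc K.yc + ∑ i, wo i + ∑ j, wy j := by
  obtain ⟨i, hi⟩ := hs
  have h1 := Finset.sum_lt_sum (fun i (_ : i ∈ Finset.univ) => h i) ⟨i, Finset.mem_univ _, hi⟩
  rw [sum_Ex] at h1
  have h2 := sum_budget (wo := wo) hb
  linarith

/-- The strict inequality, if one edge does not spend its weight. -/
theorem G_lt_of' (hb : ∀ j, bl j + br j ≤ wy j) (hs : ∃ j, bl j + br j < wy j)
    (h : ∀ i, Ex C K p o y i ≤ pe bl (i + 1) + pe br i + wo i) :
    C.G o y < C.G K.oc K.yc + ∑ i, wo i + ∑ j, wy j := by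
  obtain ⟨j, hj⟩ := hs
  have h1 := G_le_of (wy := fun j => bl j + br j) (fun j => le_rfl) h
  have h2 := Finset.sum_lt_sum (fun j (_ : j ∈ Finset.univ) => hb j) ⟨j, Finset.mem_univ _, hj⟩
  linarith

/-- Either the strict inequality holds, or all nodes are at their critical points. -/
theorem G_lt_or (hb : ∀ j, bl j + br j ≤ wy j) {P : Fin (m + 1) → Prop}
    (h : ∀ i, Ex C K p o y i < pe bl (i + 1) + pe br i + wo i ∨
      (Ex C K p o y i ≤ pe bl (i + 1) + pe br i + wo i ∧ P i)) :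
    C.G o y < C.G K.oc K.yc + ∑ i, wo i + ∑ j, wy j ∨ ∀ i, P i := by
  have h1 : ∀ i, Ex C K p o y i ≤ pe bl (i + 1) + pe br i + wo i := fun i => by
    rcases h i with h | h
    · exact h.le
    · exact h.1
  by_cases hP : ∀ i, P i
  · exact Or.inr hP
  · push Not at hP
    obtain ⟨i, hi⟩ := hP
    refine Or.inl (G_lt_of hb h1 ⟨i, ?_⟩)
    rcases h i with h | h
    · exact h
    · exact absurd h.2 hi

end Pool.Agent.S5
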