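import Pool.Agent.S5.I.Asm0

/-!
# Assembly of the inequality: the quadratic bound
-/

set_option autoImplicit false

namespace Pool.Agent.S5

open Complex
open Pool.Agent.S3 (Rf)

/-- The slopes of the edges, extended by zero. -/
noncomputable def lamE {m : ℕ} (lam : Fin m → ℂ) (n : ℕ) : ℂ :=
  if h : 0 < n ∧ n ≤ m then lam ⟨n - 1, by omega⟩ else 0

theorem lamE_succ {m : ℕ} (lam : Fin m → ℂ) (j : Fin m) : lamE lam (j + 1) = lam j := by
  rw [lamE, dif_pos ⟨Nat.succ_pos _, j.isLt⟩]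
  congr 1

/-- The quadratic bound of a node on the flats. -/
def QuadN {m : ℕ} (C : Ch m) (K : Cn m) (lam : Fin m → ℂ) (i : Fin (m + 1)) : Prop :=
  ∃ c : ℝ, 0 < c ∧ ∃ ρ : ℝ, 0 < ρ ∧ ∀ x s t : ℝ, |x| ≤ ρ → |s| ≤ ρ → |t| ≤ ρ →
    ((i : ℕ) = 0 → s = 0) → ((i : ℕ) = m → t = 0) →
    Vn (C.c i) (C.ty i) (C.fl i) (K.oc i + x) (ye K.yc i + s) (ye K.yc (i + 1) + t) -
      Vn (C.c i) (C.ty i) (C.fl i) (K.oc i) (ye K.yc i) (ye K.yc (i + 1)) +
      (lamE lam i * s).re - (lamE lam (i + 1) * t).re ≤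
      -(c * ((if C.ty i = Ty.cl then 0 else x ^ 2) + s ^ 2 + t ^ 2))

/-- The shifts of the edges, extended by zero. -/
def te {m : ℕ} (t : Fin m → ℝ) (n : ℕ) : ℝ := if h : 0 < n ∧ n ≤ m then t ⟨n - 1, by omega⟩ else 0

theorem te_succ {m : ℕ} (t : Fin m → ℝ) (j : Fin m) : te t (j + 1) = t j := by
  rw [te, dif_pos ⟨Nat.succ_pos _, j.isLt⟩]
  congr 1

theorem te_zero {m : ℕ} (t : Fin m → ℝ) : te t 0 = 0 := dif_neg (by omega)

theorem te_last {m : ℕ} (t : Fin m → ℝ) : te t (m + 1) = 0 := dif_neg (by omega)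

theorem ye_add {m : ℕ} (y : Fin m → ℂ) (t : Fin m → ℝ) (n : ℕ) :
    ye (fun j => y j + (t j : ℂ)) n = ye y n + (te t n : ℂ) := by
  unfold ye te
  split_ifs with h
  · rfl
  · simp

theorem pe_lam {m : ℕ} (lam : Fin m → ℂ) (t : Fin m → ℝ) (n : ℕ) :
    pe (fun j => (lam j * (t j : ℂ)).re) n = (lamE lam n * (te t n : ℂ)).re := by
  unfold pe lamE te
  split_ifs with h
  · rfl
  · simp

theorem abs_te {m : ℕ} {t : Fin m → ℝ} {ρ : ℝ} (hρ : 0 ≤ ρ) (h : ∀ j, |t j| ≤ ρ) (n : ℕ) :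
    |te t n| ≤ ρ := by
  unfold te
  split_ifs with h1
  · exact h _
  · simpa using hρ

/-- **The quadratic bound.** -/
theorem quad_of {m : ℕ} {C : Ch m} {K : Cn m} (lam : Fin m → ℂ) (h : ∀ i, QuadN C K lam i) :
    ∃ c : ℝ, 0 < c ∧ ∃ ρ : ℝ, 0 < ρ ∧ ∀ (x : Fin (m + 1) → ℝ) (t : Fin m → ℝ),
    (∀ i, |x i| ≤ ρ) → (∀ j, |t j| ≤ ρ) →
    C.G (fun i => K.oc i + x i) (fun j => K.yc j + t j) ≤
      C.G K.oc K.yc -
        c * (∑ j, t j ^ 2 + ∑ i ∈ Finset.univ.filter (fun i => C.ty i ≠ Ty.cl), x i ^ 2) := by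
  choose c hc ρ hρ hb using h
  obtain ⟨i0, hi0⟩ := Finite.exists_min c
  obtain ⟨i1, hi1⟩ := Finite.exists_min ρ
  refine ⟨c i0, hc i0, ρ i1, hρ i1, fun x t hx ht => ?_⟩
  have key := sum_Ex C K (fun j => (lam j * (t j : ℂ)).re) (fun i => K.oc i + x i)
    (fun j => K.yc j + t j)
  have hterm : ∀ i : Fin (m + 1), Ex C K (fun j => (lam j * (t j : ℂ)).re) (fun i => K.oc i + x i)
      (fun j => K.yc j + t j) i ≤
        -(c i0 * ((if C.ty i = Ty.cl then 0 else x i ^ 2) + te t i ^ 2 + te t (i + 1) ^ 2)) := by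
    intro i
    have h1 := hb i (x i) (te t i) (te t (i + 1)) ((hx i).trans (hi1 i))
      ((abs_te (hρ i1).le ht _).trans (hi1 i)) ((abs_te (hρ i1).le ht _).trans (hi1 i))
      (fun h0 => by rw [h0, te_zero]) (fun h0 => by rw [h0, te_last])
    unfold Ex
    rw [ye_add, ye_add, pe_lam, pe_lam]
    have hnn : 0 ≤ (if C.ty i = Ty.cl then 0 else x i ^ 2) + te t i ^ 2 + te t (i + 1) ^ 2 := by
      split_ifs <;> positivity
    have h2 : c i0 * ((if C.ty i = Ty.cl then 0 else x i ^ 2) + te t i ^ 2 + te t (i + 1) ^ 2) ≤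
        c i * ((if C.ty i = Ty.cl then 0 else x i ^ 2) + te t i ^ 2 + te t (i + 1) ^ 2) :=
      mul_le_mul_of_nonneg_right (hi0 i) hnn
    linarith
  have hsum := Finset.sum_le_sum fun i (_ : i ∈ Finset.univ) => hterm i
  rw [key, Finset.sum_neg_distrib, ← Finset.mul_sum, Finset.sum_add_distrib,
    Finset.sum_add_distrib] at hsum
  have e1 : ∑ i : Fin (m + 1), (if C.ty i = Ty.cl then 0 else x i ^ 2) =
      ∑ i ∈ Finset.univ.filter (fun i => C.ty i ≠ Ty.cl), x i ^ 2 := by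
    rw [Finset.sum_filter]
    refine Finset.sum_congr rfl fun i _ => ?_
    by_cases h : C.ty i = Ty.cl
    · rw [if_pos h, if_neg (by simpa using h)]
    · rw [if_neg h, if_pos h]
  have e2 : ∑ i : Fin (m + 1), te t i ^ 2 = ∑ j, t j ^ 2 := by
    rw [sum_left (fun n => te t n ^ 2) (by simp only [te_zero]; norm_num)]
    exact Finset.sum_congr rfl fun j _ => by simp only [te_succ]
  have hnn : 0 ≤ ∑ i : Fin (m + 1), te t (i + 1) ^ 2 := Finset.sum_nonneg fun i _ => sq_nonneg _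
  rw [e1, e2] at hsum
  have h3 := mul_nonneg (hc i0).le hnn
  nlinarith

end Pool.Agent.S5
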