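import Pool.Agent.S5.I.Defs
import Mathlib.NumberTheory.ZetaValues

/-!
# Series for the functions `Rf` and `hh` near zero
-/

set_option autoImplicit false

namespace Pool.Agent.S5

open Pool.Agent.H63.VC3 Pool.Agent.S3 Complex Filter Topology Set

/-- The values of the zeta function at `2 k + 2`. -/
noncomputable def Zt (k : ℕ) : ℝ := ∑' n : ℕ, 1 / ((n : ℝ) + 1) ^ (2 * k + 2)

/-- Rational numbers close to the values of the zeta function at `2 k + 2`. -/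
noncomputable def qB : ℕ → ℝ
  | 0 => 16449340668 / 10000000000
  | 1 => 10823232337 / 10000000000
  | 2 => 10173430620 / 10000000000
  | 3 => 10040773562 / 10000000000
  | 4 => 10009945751 / 10000000000
  | 5 => 10002460866 / 10000000000
  | 6 => 10000612481 / 10000000000
  | 7 => 10000152823 / 10000000000
  | 8 => 10000038173 / 10000000000
  | 9 => 10000009540 / 10000000000
  | 10 => 10000002385 / 10000000000
  | 11 => 10000000596 / 10000000000
  | _ => 1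

theorem Zt_summable (k : ℕ) : Summable (fun n : ℕ => 1 / ((n : ℝ) + 1) ^ (2 * k + 2)) := by
  have h := (Real.summable_one_div_nat_pow (p := 2 * k + 2)).2 (by omega)
  have h1 := (summable_nat_add_iff 1).2 h
  refine h1.congr fun n => ?_
  push_cast
  rfl

theorem Zt_hasSum (k : ℕ) : HasSum (fun n : ℕ => 1 / ((n : ℝ) + 1) ^ (2 * k + 2)) (Zt k) :=
  (Zt_summable k).hasSum

theorem Zt_of {k : ℕ} {S : ℝ} (h : HasSum (fun n : ℕ => (1 : ℝ) / (n : ℝ) ^ (2 * k + 2)) S) :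
    Zt k = S := by
  have h1 := (hasSum_nat_add_iff' 1).2 h
  have h2 : HasSum (fun n : ℕ => 1 / ((n : ℝ) + 1) ^ (2 * k + 2)) S := by
    have e : S - ∑ i ∈ Finset.range 1, (1 : ℝ) / (i : ℝ) ^ (2 * k + 2) = S := by
      simp
    rw [e] at h1
    have e2 : (fun n : ℕ => 1 / ((n : ℝ) + 1) ^ (2 * k + 2)) =
        fun n : ℕ => (1 : ℝ) / ((n + 1 : ℕ) : ℝ) ^ (2 * k + 2) := by
      funext n
      push_cast
      rfl
    rw [e2]
    exact h1
  exact h2.tsum_eq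

theorem Zt_zero : Zt 0 = Real.pi ^ 2 / 6 := Zt_of (by simpa using hasSum_zeta_two)

theorem Zt_one : Zt 1 = Real.pi ^ 4 / 90 := Zt_of (by simpa using hasSum_zeta_four)

theorem Bs_b6 : bernoulli' 6 = 1 / 42 := by
  have h3 : bernoulli' 3 = 0 := bernoulli'_eq_zero_of_odd (by decide) (by norm_num)
  have h5 : bernoulli' 5 = 0 := bernoulli'_eq_zero_of_odd (by decide) (by norm_num)
  rw [bernoulli'_def]
  simp only [Finset.sum_range_succ, Finset.sum_range_zero, bernoulli'_zero, bernoulli'_one,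
    bernoulli'_two, h3, bernoulli'_four, h5]
  norm_num [Nat.choose]

theorem Zt_two : Zt 2 = Real.pi ^ 6 / 945 := by
  have h := hasSum_zeta_nat (k := 3) (by norm_num)
  have e : (-1 : ℝ) ^ (3 + 1) * (2 : ℝ) ^ (2 * 3 - 1) * Real.pi ^ (2 * 3) * bernoulli (2 * 3) /
      ((2 * 3).factorial : ℝ) = Real.pi ^ 6 / 945 := by
    rw [show 2 * 3 = 6 by norm_num, bernoulli_eq_bernoulli'_of_ne_one (by decide), Bs_b6]
    norm_num [Nat.factorial]
    ring
  rw [e] at h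
  exact Zt_of h

/-- The remainder after eight terms. -/
noncomputable def Ztl (k : ℕ) : ℝ := ∑' n : ℕ, 1 / ((n : ℝ) + 9) ^ (2 * k + 2)

theorem Ztl_summable (k : ℕ) : Summable (fun n : ℕ => 1 / ((n : ℝ) + 9) ^ (2 * k + 2)) := by
  have h1 := (summable_nat_add_iff 8).2 (Zt_summable k)
  refine h1.congr fun n => ?_
  push_cast
  congr 2
  ring

theorem Zt_split (k : ℕ) :
    Zt k = (∑ n ∈ Finset.range 8, 1 / ((n : ℝ) + 1) ^ (2 * k + 2)) + Ztl k := by
  have h := (Zt_summable k).sum_add_tsum_nat_add 8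
  unfold Zt Ztl
  rw [← h]
  congr 1
  apply tsum_congr
  intro n
  push_cast
  congr 2
  ring

theorem Ztl_nonneg (k : ℕ) : 0 ≤ Ztl k := tsum_nonneg fun n => by positivity

theorem Ztl_le (k : ℕ) : Ztl (k + 1) ≤ 1 / 9 ^ (2 * k) * Ztl 1 := by
  unfold Ztl
  rw [← tsum_mul_left]
  refine Summable.tsum_le_tsum (fun n => ?_) (Ztl_summable _) ((Ztl_summable 1).mul_left _)
  have h1 : (0 : ℝ) < (n : ℝ) + 9 := by positivity
  rw [one_div, one_div, one_div, ← mul_inv]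
  apply inv_anti₀ (by positivity)
  rw [show 2 * (k + 1) + 2 = 2 * k + (2 * 1 + 2) by ring, pow_add _ (2 * k)]
  apply mul_le_mul_of_nonneg_right _ (by positivity)
  exact pow_le_pow_left₀ (by norm_num) (by linarith [(Nat.cast_nonneg n : (0 : ℝ) ≤ n)]) _

theorem Zt_close : ∀ k : ℕ, k < 12 → |Zt k - qB k| ≤ 1 / 10000000 := by
  have hp1 := Real.pi_gt_d20
  have hp2 := Real.pi_lt_d20
  have hp0 := Real.pi_pos
  have h1b : Ztl 1 ≤ 55 / 100000 := by
    have h := Zt_split 1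
    rw [Zt_one] at h
    have h4 : Real.pi ^ 4 ≤ 3.14159265358979323847 ^ 4 := pow_le_pow_left₀ hp0.le hp2.le 4
    simp only [Finset.sum_range_succ, Finset.sum_range_zero] at h
    norm_num at h h4 ⊢
    linarith
  have key : ∀ k : ℕ, Zt (k + 1) ≤ (∑ n ∈ Finset.range 8, 1 / ((n : ℝ) + 1) ^ (2 * (k + 1) + 2)) +
      1 / 9 ^ (2 * k) * (55 / 100000) := by
    intro k
    rw [Zt_split]
    have h2 := Ztl_le k
    have h3 : 1 / 9 ^ (2 * k) * Ztl 1 ≤ 1 / 9 ^ (2 * k) * (55 / 100000) :=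
      mul_le_mul_of_nonneg_left h1b (by positivity)
    linarith
  have key2 : ∀ k : ℕ, (∑ n ∈ Finset.range 8, 1 / ((n : ℝ) + 1) ^ (2 * k + 2)) ≤ Zt k := by
    intro k
    rw [Zt_split]
    linarith [Ztl_nonneg k]
  intro k hk
  rw [abs_le]
  rcases Nat.lt_or_ge k 3 with h3 | h3
  · interval_cases k
    · rw [Zt_zero]
      have h4 : Real.pi ^ 2 ≤ 3.14159265358979323847 ^ 2 := pow_le_pow_left₀ hp0.le hp2.le 2
      have h5 : (3.14159265358979323846 : ℝ) ^ 2 ≤ Real.pi ^ 2 :=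
        pow_le_pow_left₀ (by norm_num) hp1.le 2
      norm_num [qB] at h4 h5 ⊢
      constructor <;> linarith
    · rw [Zt_one]
      have h4 : Real.pi ^ 4 ≤ 3.14159265358979323847 ^ 4 := pow_le_pow_left₀ hp0.le hp2.le 4
      have h5 : (3.14159265358979323846 : ℝ) ^ 4 ≤ Real.pi ^ 4 :=
        pow_le_pow_left₀ (by norm_num) hp1.le 4
      norm_num [qB] at h4 h5 ⊢
      constructor <;> linarith
    · rw [Zt_two]
      have h4 : Real.pi ^ 6 ≤ 3.14159265358979323847 ^ 6 := pow_le_pow_left₀ hp0.le hp2.le 6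
      have h5 : (3.14159265358979323846 : ℝ) ^ 6 ≤ Real.pi ^ 6 :=
        pow_le_pow_left₀ (by norm_num) hp1.le 6
      norm_num [qB] at h4 h5 ⊢
      constructor <;> linarith
  · obtain ⟨j, rfl⟩ : ∃ j, k = j + 3 := ⟨k - 3, by omega⟩
    have h6 := key (j + 2)
    have h7 := key2 (j + 3)
    have hj : j < 9 := by omega
    interval_cases j <;> simp only [Finset.sum_range_succ, Finset.sum_range_zero] at h6 h7 <;>
      norm_num [qB] at h6 h7 ⊢ <;> constructor <;> linarith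

/-! ### The series of the cotangent -/

theorem Bs_compl {z : ℂ} (h0 : 0 < z.re) (h1 : z.re < 1) : z ∈ integerComplement := by
  rw [mem_integerComplement_iff]
  rintro ⟨n, hn⟩
  rw [← hn] at h0 h1
  simp only [intCast_re] at h0 h1
  have h2 : (0 : ℤ) < n := by exact_mod_cast h0
  have h3 : n < (1 : ℤ) := by exact_mod_cast h1
  omega

theorem Bs_cot {z : ℂ} (h0 : 0 < z.re) (h1 : z.re < 1) :
    HasSum (fun n => cotTerm z n) (Real.pi * cot (Real.pi * z) - 1 / z) := by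
  have h := summable_cotTerm (Bs_compl h0 h1)
  have h2 := cot_series_rep' (Bs_compl h0 h1)
  rw [h2]
  exact h.hasSum

/-- The remainder of the series of the cotangent. -/
noncomputable def BD (z : ℂ) : ℂ :=
  z * (Real.pi * cot (Real.pi * z)) - 1 + 2 * ∑ k ∈ Finset.range 12, (qB k : ℂ) * z ^ (2 * k + 2)

theorem Bs_term {z : ℂ} (h0 : 0 < z.re) (h1 : z.re < 1) (n : ℕ) :
    z * cotTerm z n + 2 * ∑ k ∈ Finset.range 12, z ^ (2 * k + 2) *
      (((1 / ((n : ℝ) + 1) ^ (2 * k + 2) : ℝ)) : ℂ) =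
        -2 * (z ^ 2 / ((n : ℂ) + 1) ^ 2) ^ 13 / (1 - z ^ 2 / ((n : ℂ) + 1) ^ 2) := by
  have hn : ((n : ℂ) + 1) ≠ 0 := Nat.cast_add_one_ne_zero n
  have hc := Bs_compl h0 h1
  have ha : z + ((n : ℂ) + 1) ≠ 0 := by
    have := integerComplement_add_ne_zero hc (n + 1 : ℤ)
    push_cast at this
    exact this
  have hb : z - ((n : ℂ) + 1) ≠ 0 := by
    have := integerComplement_add_ne_zero hc (-(n + 1) : ℤ)
    push_cast at this
    rwa [← sub_eq_add_neg] at this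
  rw [cotTerm_identity hc]
  set m : ℂ := (n : ℂ) + 1 with hm
  have h2 : (1 : ℂ) - z ^ 2 / m ^ 2 ≠ 0 := by
    have : (1 : ℂ) - z ^ 2 / m ^ 2 = -((z + m) * (z - m)) / m ^ 2 := by
      field_simp
      ring
    rw [this]
    exact div_ne_zero (neg_ne_zero.2 (mul_ne_zero ha hb)) (pow_ne_zero 2 hn)
  have h3 : ∀ k : ℕ, z ^ (2 * k + 2) * (((1 / ((n : ℝ) + 1) ^ (2 * k + 2) : ℝ)) : ℂ) =
      (z ^ 2 / m ^ 2) * (z ^ 2 / m ^ 2) ^ k := by
    intro k
    push_cast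
    rw [← hm]
    rw [div_pow, ← pow_mul, ← pow_mul]
    field_simp
    ring
  simp only [h3]
  rw [← Finset.mul_sum]
  have h4 := mul_neg_geom_sum (z ^ 2 / m ^ 2) 12
  set w : ℂ := z ^ 2 / m ^ 2 with hw
  have h5 : z * (2 * z * (1 / ((z + m) * (z - m)))) = -2 * w / (1 - w) := by
    rw [eq_div_iff h2, hw]
    field_simp
    ring
  rw [h5, eq_div_iff h2, add_mul, div_mul_cancel₀ _ h2]
  linear_combination (2 * w) * h4

theorem Bs_sum {z : ℂ} (h0 : 0 < z.re) (h1 : z.re < 1) :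
    HasSum (fun n : ℕ => -2 * (z ^ 2 / ((n : ℂ) + 1) ^ 2) ^ 13 / (1 - z ^ 2 / ((n : ℂ) + 1) ^ 2))
      (z * (Real.pi * cot (Real.pi * z) - 1 / z) +
        2 * ∑ k ∈ Finset.range 12, z ^ (2 * k + 2) * (Zt k : ℂ)) := by
  have h2 := (Bs_cot h0 h1).mul_left z
  have h3 : HasSum (fun n : ℕ => ∑ k ∈ Finset.range 12, z ^ (2 * k + 2) *
      (((1 / ((n : ℝ) + 1) ^ (2 * k + 2) : ℝ)) : ℂ))
      (∑ k ∈ Finset.range 12, z ^ (2 * k + 2) * (Zt k : ℂ)) := by
    apply hasSum_sum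
    intro k _
    exact (Complex.hasSum_ofReal.2 (Zt_hasSum k)).mul_left _
  have h4 := h2.add (h3.mul_left 2)
  refine h4.congr_fun ?_
  intro n
  exact (Bs_term h0 h1 n).symm

theorem BD_norm {z : ℂ} {r : ℝ} (h0 : 0 < z.re) (h1 : z.re < 1) (hr : ‖z‖ ^ 2 ≤ r) (hr1 : r < 1) :
    ‖BD z‖ ≤ ‖z‖ ^ 2 * (33 / 10 * r ^ 12 / (1 - r) + 2 / 10000000 / (1 - r)) := by
  have hz : z ≠ 0 := by
    rintro rfl
    simp at h0
  have hz0 : 0 < ‖z‖ := norm_pos_iff.2 hz
  have hr0 : 0 < r := lt_of_lt_of_le (by positivity) hr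
  have hpi : Zt 0 ≤ 165 / 100 := by
    have := abs_le.1 (Zt_close 0 (by norm_num))
    norm_num [qB] at this
    linarith [this.2]
  have hs := Bs_sum h0 h1
  have hg : HasSum (fun n : ℕ => (2 * (‖z‖ ^ 2 * r ^ 12) / (1 - r)) * (1 / ((n : ℝ) + 1) ^ 2))
      ((2 * (‖z‖ ^ 2 * r ^ 12) / (1 - r)) * Zt 0) := (Zt_hasSum 0).mul_left _
  have hb : ∀ n : ℕ, ‖-2 * (z ^ 2 / ((n : ℂ) + 1) ^ 2) ^ 13 / (1 - z ^ 2 / ((n : ℂ) + 1) ^ 2)‖ ≤
      (2 * (‖z‖ ^ 2 * r ^ 12) / (1 - r)) * (1 / ((n : ℝ) + 1) ^ 2) := by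
    intro n
    have hm : (1 : ℝ) ≤ (n : ℝ) + 1 := by linarith [(Nat.cast_nonneg n : (0 : ℝ) ≤ n)]
    have hm2 : (1 : ℝ) ≤ ((n : ℝ) + 1) ^ 2 := one_le_pow₀ hm
    have hnm : ‖(n : ℂ) + 1‖ = (n : ℝ) + 1 := by
      have : (n : ℂ) + 1 = (((n : ℝ) + 1 : ℝ) : ℂ) := by push_cast; ring
      rw [this, norm_real, Real.norm_of_nonneg (by linarith)]
    have hw : ‖z ^ 2 / ((n : ℂ) + 1) ^ 2‖ = ‖z‖ ^ 2 / ((n : ℝ) + 1) ^ 2 := by
      rw [norm_div, norm_pow, norm_pow, hnm]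
    have hw1 : ‖z ^ 2 / ((n : ℂ) + 1) ^ 2‖ ≤ r := by
      rw [hw]
      exact le_trans (div_le_self (by positivity) hm2) hr
    rw [norm_div, norm_mul, norm_pow, norm_neg]
    have h12 : ‖(2 : ℂ)‖ = 2 := by simp
    rw [h12]
    have h13 : 1 - r ≤ ‖1 - z ^ 2 / ((n : ℂ) + 1) ^ 2‖ := by
      have := norm_sub_norm_le (1 : ℂ) (z ^ 2 / ((n : ℂ) + 1) ^ 2)
      rw [norm_one] at this
      linarith
    have h14 : ‖z ^ 2 / ((n : ℂ) + 1) ^ 2‖ ^ 13 ≤ r ^ 12 * (‖z‖ ^ 2 / ((n : ℝ) + 1) ^ 2) := by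
      rw [pow_succ]
      refine mul_le_mul (pow_le_pow_left₀ (norm_nonneg _) hw1 12) (le_of_eq hw) (norm_nonneg _)
        (by positivity)
    calc 2 * ‖z ^ 2 / ((n : ℂ) + 1) ^ 2‖ ^ 13 / ‖1 - z ^ 2 / ((n : ℂ) + 1) ^ 2‖
        ≤ 2 * (r ^ 12 * (‖z‖ ^ 2 / ((n : ℝ) + 1) ^ 2)) / (1 - r) := by
          apply div_le_div₀ (by positivity) (by linarith) (by linarith) h13
      _ = _ := by
          field_simp
  have h5 := hs.norm_le_of_bounded hg hb
  have h6 : BD z = (z * (Real.pi * cot (Real.pi * z) - 1 / z) +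
        2 * ∑ k ∈ Finset.range 12, z ^ (2 * k + 2) * (Zt k : ℂ)) +
      2 * ∑ k ∈ Finset.range 12, z ^ (2 * k + 2) * ((qB k : ℂ) - (Zt k : ℂ)) := by
    unfold BD
    simp only [mul_sub, Finset.sum_sub_distrib]
    have h7 : z * (1 / z) = 1 := by field_simp
    have h8 : ∑ k ∈ Finset.range 12, (qB k : ℂ) * z ^ (2 * k + 2) =
        ∑ k ∈ Finset.range 12, z ^ (2 * k + 2) * (qB k : ℂ) :=
      Finset.sum_congr rfl fun k _ => mul_comm _ _
    rw [h8]
    linear_combination h7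
  have h7 : ‖∑ k ∈ Finset.range 12, z ^ (2 * k + 2) * ((qB k : ℂ) - (Zt k : ℂ))‖ ≤
      ‖z‖ ^ 2 * (1 / 10000000 / (1 - r)) := by
    have h8 : ∀ k ∈ Finset.range 12, ‖z ^ (2 * k + 2) * ((qB k : ℂ) - (Zt k : ℂ))‖ ≤
        ‖z‖ ^ 2 * (1 / 10000000) * r ^ k := by
      intro k hk
      have h9 : ‖(qB k : ℂ) - (Zt k : ℂ)‖ ≤ 1 / 10000000 := by
        rw [← ofReal_sub, norm_real, Real.norm_eq_abs, abs_sub_comm]
        exact Zt_close k (Finset.mem_range.1 hk)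
      rw [norm_mul, norm_pow, pow_add, pow_mul]
      have h10 : (‖z‖ ^ 2) ^ k ≤ r ^ k := pow_le_pow_left₀ (by positivity) hr k
      calc (‖z‖ ^ 2) ^ k * ‖z‖ ^ 2 * ‖(qB k : ℂ) - (Zt k : ℂ)‖
          ≤ r ^ k * ‖z‖ ^ 2 * (1 / 10000000) := by
            apply mul_le_mul (mul_le_mul_of_nonneg_right h10 (by positivity)) h9 (norm_nonneg _)
              (by positivity)
        _ = _ := by ring
    refine (norm_sum_le_of_le _ h8).trans ?_
    rw [← Finset.mul_sum]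
    have h11 : ∑ k ∈ Finset.range 12, r ^ k ≤ 1 / (1 - r) := by
      rw [le_div_iff₀ (by linarith), geom_sum_mul_neg]
      have : 0 ≤ r ^ 12 := by positivity
      linarith
    calc ‖z‖ ^ 2 * (1 / 10000000) * ∑ k ∈ Finset.range 12, r ^ k
        ≤ ‖z‖ ^ 2 * (1 / 10000000) * (1 / (1 - r)) :=
          mul_le_mul_of_nonneg_left h11 (by positivity)
      _ = _ := by ring
  rw [h6]
  refine (norm_add_le _ _).trans ?_
  rw [norm_mul (2 : ℂ)]
  have h12 : ‖(2 : ℂ)‖ = 2 := by simp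
  rw [h12]
  have h13 : (2 * (‖z‖ ^ 2 * r ^ 12) / (1 - r)) * Zt 0 ≤ (2 * (‖z‖ ^ 2 * r ^ 12) / (1 - r)) * (165 / 100) := by
    apply mul_le_mul_of_nonneg_left hpi
    have : 0 < 1 - r := by linarith
    positivity
  have h14 : (2 * (‖z‖ ^ 2 * r ^ 12) / (1 - r)) * (165 / 100) + 2 * (‖z‖ ^ 2 * (1 / 10000000 / (1 - r))) =
      ‖z‖ ^ 2 * (33 / 10 * r ^ 12 / (1 - r) + 2 / 10000000 / (1 - r)) := by ring
  linarith

/-! ### The two series -/

/-- The entire part of the series of `Rf`. -/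
noncomputable def PBz (z : ℂ) : ℂ :=
  z - ∑ k ∈ Finset.range 12, (2 * qB k / (2 * k + 3) : ℝ) * z ^ (2 * k + 3)

/-- The entire part of the series of `hh`. -/
noncomputable def HBz (z : ℂ) : ℂ :=
  ∑ k ∈ Finset.range 12, (qB k / (k + 1) : ℝ) * z ^ (2 * k + 2)

theorem PBz_hasDerivAt (z : ℂ) :
    HasDerivAt PBz (1 - 2 * ∑ k ∈ Finset.range 12, (qB k : ℂ) * z ^ (2 * k + 2)) z := by
  unfold PBz
  rw [Finset.mul_sum]
  refine (hasDerivAt_id z).sub (HasDerivAt.fun_sum fun k _ => ?_)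
  have h := (hasDerivAt_pow (2 * k + 3) z).const_mul ((2 * qB k / (2 * k + 3) : ℝ) : ℂ)
  have h2 : ((2 * k + 3 : ℕ) : ℂ) ≠ 0 := by
    exact_mod_cast (by omega : 2 * k + 3 ≠ 0)
  have e : ((2 * qB k / (2 * k + 3) : ℝ) : ℂ) * (((2 * k + 3 : ℕ) : ℂ) * z ^ (2 * k + 3 - 1)) =
      2 * ((qB k : ℂ) * z ^ (2 * k + 2)) := by
    rw [show 2 * k + 3 - 1 = 2 * k + 2 by omega]
    push_cast at h2 ⊢
    field_simp
  rw [e] at h
  exact h

theorem HBz_hasDerivAt (z : ℂ) :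
    HasDerivAt HBz (2 * ∑ k ∈ Finset.range 12, (qB k : ℂ) * z ^ (2 * k + 1)) z := by
  unfold HBz
  rw [Finset.mul_sum]
  refine HasDerivAt.fun_sum fun k _ => ?_
  have h := (hasDerivAt_pow (2 * k + 2) z).const_mul ((qB k / (k + 1) : ℝ) : ℂ)
  have h2 : ((k : ℂ) + 1) ≠ 0 := Nat.cast_add_one_ne_zero k
  have e : ((qB k / (k + 1) : ℝ) : ℂ) * (((2 * k + 2 : ℕ) : ℂ) * z ^ (2 * k + 2 - 1)) =
      2 * ((qB k : ℂ) * z ^ (2 * k + 1)) := by
    rw [show 2 * k + 2 - 1 = 2 * k + 1 by omega]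
    push_cast
    field_simp
  rw [e] at h
  exact h

/-- The constant of the error bounds. -/
noncomputable def KBr (r : ℝ) : ℝ := 33 / 10 * r ^ 12 / (1 - r) + 2 / 10000000 / (1 - r)

theorem Bs_convex (r : ℝ) :
    Convex ℝ ({z : ℂ | 0 < z.re} ∩ ({z : ℂ | z.re < 1} ∩ Metric.closedBall (0 : ℂ) √r)) :=
  (convex_halfSpace_re_gt 0).inter ((convex_halfSpace_re_lt 1).inter (convex_closedBall _ _))

theorem Bs_mem {z : ℂ} {r : ℝ} (h0 : 0 < z.re) (h1 : z.re < 1) (hr : ‖z‖ ^ 2 ≤ r) :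
    z ∈ ({z : ℂ | 0 < z.re} ∩ ({z : ℂ | z.re < 1} ∩ Metric.closedBall (0 : ℂ) √r)) := by
  refine ⟨h0, h1, ?_⟩
  rw [Metric.mem_closedBall, dist_zero_right]
  exact Real.le_sqrt_of_sq_le hr

theorem Bs_mem' {z : ℂ} {r : ℝ} (hr0 : 0 ≤ r)
    (h : z ∈ ({z : ℂ | 0 < z.re} ∩ ({z : ℂ | z.re < 1} ∩ Metric.closedBall (0 : ℂ) √r))) :
    0 < z.re ∧ z.re < 1 ∧ ‖z‖ ^ 2 ≤ r := by
  refine ⟨h.1, h.2.1, ?_⟩
  have h3 := h.2.2
  rw [Metric.mem_closedBall, dist_zero_right] at h3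
  calc ‖z‖ ^ 2 ≤ √r ^ 2 := pow_le_pow_left₀ (norm_nonneg _) h3 2
    _ = r := Real.sq_sqrt hr0

theorem ff_half : ff (1 / 2 : ℂ) = 0 := by
  have h := ff_reflect (1 / 2)
  have e : (1 : ℂ) - 1 / 2 = 1 / 2 := by norm_num
  rw [e] at h
  have h2 : (2 : ℂ) * ff (1 / 2) = 0 := by linear_combination h
  exact (mul_eq_zero.1 h2).resolve_left two_ne_zero

theorem hh_half : hh (1 / 2 : ℂ) = (Real.log 2 : ℂ) := by
  have h := hh_real (1 / 2) (by norm_num) (by norm_num)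
  have e : ((1 / 2 : ℝ) : ℂ) = 1 / 2 := by push_cast; ring
  rw [e] at h
  rw [h, show Real.pi * (1 / 2) = Real.pi / 2 by ring, Real.sin_pi_div_two, mul_one]

theorem PBz_half : ‖PBz (1 / 2) - (Real.log 2 : ℂ) / 2‖ ≤ 1 / 100000000 := by
  have e : PBz (1 / 2) - (Real.log 2 : ℂ) / 2 = ((1 / 2 -
      ∑ k ∈ Finset.range 12, (2 * qB k / (2 * k + 3)) * (1 / 2) ^ (2 * k + 3) - Real.log 2 / 2 : ℝ) : ℂ) := by
    unfold PBz
    push_cast
    ring
  rw [e, norm_real, Real.norm_eq_abs]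
  have h1 := Real.log_two_gt_d9
  have h2 := Real.log_two_lt_d9
  simp only [Finset.sum_range_succ, Finset.sum_range_zero, qB]
  norm_num at h1 h2 ⊢
  rw [abs_le]
  constructor <;> linarith

theorem Bs_G {z : ℂ} {r : ℝ} (h0 : 0 < z.re) (h1 : z.re ≤ 1 / 2) (hr : ‖z‖ ^ 2 ≤ r)
    (hr0 : 1 / 4 ≤ r) (hr2 : r ≤ 3 / 4) :
    ‖ff z - z * hh z + PBz z‖ ≤ r * KBr r + 1 / 100000000 := by
  have hr1 : r < 1 := by linarith
  have hd : ∀ w ∈ ({z : ℂ | 0 < z.re} ∩ ({z : ℂ | z.re < 1} ∩ Metric.closedBall (0 : ℂ) √r)),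
      HasDerivWithinAt (fun w => ff w - w * hh w + PBz w) (-BD w)
        ({z : ℂ | 0 < z.re} ∩ ({z : ℂ | z.re < 1} ∩ Metric.closedBall (0 : ℂ) √r)) w := by
    intro w hw
    obtain ⟨g0, g1, g2⟩ := Bs_mem' (by linarith) hw
    have h2 := ((ff_hasDerivAt w g0 g1).sub ((hasDerivAt_id w).mul (hh_hasDerivAt w g0 g1))).add
      (PBz_hasDerivAt w)
    refine HasDerivAt.hasDerivWithinAt ?_
    have e : hh w - (1 * hh w + id w * (Real.pi * cot (Real.pi * w))) +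
        (1 - 2 * ∑ k ∈ Finset.range 12, (qB k : ℂ) * w ^ (2 * k + 2)) = -BD w := by
      unfold BD
      simp only [id]
      ring
    rw [e] at h2
    exact h2
  have hb : ∀ w ∈ ({z : ℂ | 0 < z.re} ∩ ({z : ℂ | z.re < 1} ∩ Metric.closedBall (0 : ℂ) √r)),
      ‖-BD w‖ ≤ r * KBr r := by
    intro w hw
    obtain ⟨g0, g1, g2⟩ := Bs_mem' (by linarith) hw
    rw [norm_neg]
    refine (BD_norm g0 g1 g2 hr1).trans ?_
    apply mul_le_mul_of_nonneg_right g2
    have : 0 < 1 - r := by linarith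
    positivity
  have hm := Bs_mem h0 (by linarith) hr
  have hm2 : (1 / 2 : ℂ) ∈ ({z : ℂ | 0 < z.re} ∩ ({z : ℂ | z.re < 1} ∩ Metric.closedBall (0 : ℂ) √r)) := by
    apply Bs_mem
    · norm_num
    · norm_num
    · have : ‖(1 / 2 : ℂ)‖ = 1 / 2 := by norm_num
      rw [this]
      linarith
  have h3 := Convex.norm_image_sub_le_of_norm_hasDerivWithin_le hd hb (Bs_convex r) hm2 hm
  have h4 : ‖z - 1 / 2‖ ≤ 1 := by
    rw [← abs_of_nonneg (norm_nonneg (z - 1 / 2)), ← sq_le_one_iff_abs_le_one]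
    rw [← normSq_eq_norm_sq, normSq_apply] at hr ⊢
    have e1 : (z - 1 / 2).re = z.re - 1 / 2 := by simp
    have e2 : (z - 1 / 2).im = z.im := by simp
    rw [e1, e2]
    nlinarith
  have h5 : ff (1 / 2) - 1 / 2 * hh (1 / 2) + PBz (1 / 2) = PBz (1 / 2) - (Real.log 2 : ℂ) / 2 := by
    rw [ff_half, hh_half]
    ring
  have h6 : 0 ≤ r * KBr r := le_trans (norm_nonneg _) (hb z hm)
  have h7 : r * KBr r * ‖z - 1 / 2‖ ≤ r * KBr r * 1 := mul_le_mul_of_nonneg_left h4 h6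
  rw [h5] at h3
  have h8 := norm_sub_norm_le (ff z - z * hh z + PBz z) (PBz (1 / 2) - (Real.log 2 : ℂ) / 2)
  linarith [PBz_half]

theorem HBz_small {x : ℝ} (h0 : 0 < x) (h1 : x ≤ 1) : ‖HBz x‖ ≤ 24 * x ^ 2 := by
  unfold HBz
  have h : ∀ k ∈ Finset.range 12, ‖((qB k / (k + 1) : ℝ) : ℂ) * (x : ℂ) ^ (2 * k + 2)‖ ≤ 2 * x ^ 2 := by
    intro k hk
    have hk' := Finset.mem_range.1 hk
    rw [norm_mul, norm_pow, norm_real, norm_real, Real.norm_of_nonneg h0.le]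
    have h2 : ‖qB k / ((k : ℝ) + 1)‖ ≤ 2 := by
      interval_cases k <;> norm_num [qB, Real.norm_eq_abs, abs_div]
    have h3 : x ^ (2 * k + 2) ≤ x ^ 2 := by
      rw [pow_add]
      have : x ^ (2 * k) ≤ 1 := pow_le_one₀ h0.le h1
      nlinarith [sq_nonneg x]
    exact mul_le_mul h2 h3 (by positivity) (by norm_num)
  refine (norm_sum_le_of_le _ h).trans ?_
  rw [Finset.sum_const, Finset.card_range]
  simp only [nsmul_eq_mul]
  push_cast
  linarith

theorem Bs_base {x : ℝ} (h0 : 0 < x) (h1 : x ≤ 1 / 100000) :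
    ‖hh (x : ℂ) - log (x : ℂ) - (Real.log (2 * Real.pi) : ℂ)‖ ≤ 1 / 100000000 := by
  have hp0 := Real.pi_pos
  have hp := Real.pi_lt_d2
  rw [hh_real x h0 (by linarith), ← ofReal_log h0.le, ← ofReal_sub, ← ofReal_sub, norm_real,
    Real.norm_eq_abs]
  set y : ℝ := Real.pi * x with hy
  have hy0 : 0 < y := by positivity
  have hy1 : y ≤ 1 / 25000 := by
    have : Real.pi * x ≤ 4 * (1 / 100000) := by
      apply mul_le_mul _ h1 h0.le (by norm_num)
      linarith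
    linarith
  have hs1 := Real.sin_gt_sub_cube hy0
  have hy3 : 0 < y ^ 3 := by positivity
  have hs2 := Real.sin_lt hy0
  have hs0 : 0 < Real.sin y := by
    have : y ^ 3 ≤ y * 1 := by
      rw [pow_succ, mul_comm]
      apply mul_le_mul_of_nonneg_left _ hy0.le
      nlinarith
    linarith
  have e : Real.log (2 * Real.sin y) - Real.log x - Real.log (2 * Real.pi) = Real.log (Real.sin y / y) := by
    rw [Real.log_div hs0.ne' hy0.ne', hy, Real.log_mul hp0.ne' h0.ne', Real.log_mul two_ne_zero hp0.ne',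
      Real.log_mul two_ne_zero (by rw [← hy]; exact hs0.ne')]
    ring
  rw [e]
  have hu0 : 0 < Real.sin y / y := by positivity
  have hu1 : Real.sin y / y ≤ 1 := by
    rw [div_le_one hy0]
    exact hs2.le
  have hu2 : 1 - y ^ 2 / 4 ≤ Real.sin y / y := by
    rw [le_div_iff₀ hy0]
    linarith
  have hy2 : y ^ 2 ≤ 1 / 500000000 := by nlinarith
  have h5 := Real.one_sub_inv_le_log_of_pos hu0
  have h6 : Real.log (Real.sin y / y) ≤ 0 := Real.log_nonpos hu0.le hu1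
  have h7 : (Real.sin y / y)⁻¹ ≤ 1 + y ^ 2 := by
    rw [inv_le_comm₀ hu0 (by positivity)]
    refine le_trans ?_ hu2
    rw [inv_le_iff_one_le_mul₀ (by positivity)]
    nlinarith [sq_nonneg y]
  rw [abs_le]
  constructor <;> linarith

theorem Bs_H {z : ℂ} {r : ℝ} (h0 : 0 < z.re) (h1 : z.re < 1) (hr : ‖z‖ ^ 2 ≤ r)
    (hr0 : 1 / 4 ≤ r) (hr1 : r < 1) :
    ‖hh z - (Real.log (2 * Real.pi) + log z - HBz z)‖ ≤ KBr r * (r + 1 / 100000) + 2 / 100000000 := by
  have hs0 : 0 < √r := Real.sqrt_pos.2 (by linarith)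
  have hK : 0 ≤ KBr r := by
    have : 0 < 1 - r := by linarith
    unfold KBr
    positivity
  have hs1 : √r ≤ 1 := by
    rw [Real.sqrt_le_one]
    exact hr1.le
  have hd : ∀ w ∈ ({z : ℂ | 0 < z.re} ∩ ({z : ℂ | z.re < 1} ∩ Metric.closedBall (0 : ℂ) √r)),
      HasDerivWithinAt (fun w => hh w - log w + HBz w) (BD w / w)
        ({z : ℂ | 0 < z.re} ∩ ({z : ℂ | z.re < 1} ∩ Metric.closedBall (0 : ℂ) √r)) w := by
    intro w hw
    obtain ⟨g0, g1, g2⟩ := Bs_mem' (by linarith) hw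
    have hw0 : w ≠ 0 := by
      rintro rfl
      simp at g0
    have h2 := ((hh_hasDerivAt w g0 g1).sub (hasDerivAt_log (Or.inl g0 : w ∈ slitPlane))).add
      (HBz_hasDerivAt w)
    refine HasDerivAt.hasDerivWithinAt ?_
    have e : Real.pi * cot (Real.pi * w) - w⁻¹ +
        2 * ∑ k ∈ Finset.range 12, (qB k : ℂ) * w ^ (2 * k + 1) = BD w / w := by
      rw [eq_div_iff hw0]
      unfold BD
      have e2 : ∑ k ∈ Finset.range 12, (qB k : ℂ) * w ^ (2 * k + 2) =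
          (∑ k ∈ Finset.range 12, (qB k : ℂ) * w ^ (2 * k + 1)) * w := by
        rw [Finset.sum_mul]
        refine Finset.sum_congr rfl fun k _ => ?_
        ring
      rw [e2]
      have e3 : w⁻¹ * w = 1 := inv_mul_cancel₀ hw0
      linear_combination -e3
    rw [e] at h2
    exact h2
  have hb : ∀ w ∈ ({z : ℂ | 0 < z.re} ∩ ({z : ℂ | z.re < 1} ∩ Metric.closedBall (0 : ℂ) √r)),
      ‖BD w / w‖ ≤ √r * KBr r := by
    intro w hw
    obtain ⟨g0, g1, g2⟩ := Bs_mem' (by linarith) hw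
    have hw0 : w ≠ 0 := by
      rintro rfl
      simp at g0
    have hw1 : 0 < ‖w‖ := norm_pos_iff.2 hw0
    rw [norm_div, div_le_iff₀ hw1]
    refine (BD_norm g0 g1 g2 hr1).trans ?_
    have : ‖w‖ ≤ √r := Real.le_sqrt_of_sq_le g2
    change ‖w‖ ^ 2 * KBr r ≤ _
    calc ‖w‖ ^ 2 * KBr r = ‖w‖ * KBr r * ‖w‖ := by ring
      _ ≤ √r * KBr r * ‖w‖ := by
        apply mul_le_mul_of_nonneg_right _ hw1.le
        exact mul_le_mul_of_nonneg_right this hK
  have hm := Bs_mem h0 h1 hr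
  have hm2 : ((1 / 100000 : ℝ) : ℂ) ∈ ({z : ℂ | 0 < z.re} ∩ ({z : ℂ | z.re < 1} ∩ Metric.closedBall (0 : ℂ) √r)) := by
    apply Bs_mem
    · rw [ofReal_re]
      norm_num
    · rw [ofReal_re]
      norm_num
    · rw [norm_real, Real.norm_of_nonneg (by norm_num)]
      norm_num
      linarith
  have h3 := Convex.norm_image_sub_le_of_norm_hasDerivWithin_le hd hb (Bs_convex r) hm2 hm
  have h4 : ‖z - ((1 / 100000 : ℝ) : ℂ)‖ ≤ √r + 1 / 100000 := by
    refine (norm_sub_le _ _).trans ?_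
    rw [norm_real, Real.norm_of_nonneg (by norm_num)]
    have : ‖z‖ ≤ √r := Real.le_sqrt_of_sq_le hr
    linarith
  have h5 := Bs_base (x := 1 / 100000) (by norm_num) le_rfl
  have h6 := HBz_small (x := 1 / 100000) (by norm_num) (by norm_num)
  have h7 : √r * KBr r * ‖z - ((1 / 100000 : ℝ) : ℂ)‖ ≤ KBr r * (r + 1 / 100000) := by
    calc √r * KBr r * ‖z - ((1 / 100000 : ℝ) : ℂ)‖ ≤ √r * KBr r * (√r + 1 / 100000) :=
          mul_le_mul_of_nonneg_left h4 (by positivity)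
      _ = KBr r * (√r * √r + √r * (1 / 100000)) := by ring
      _ ≤ _ := by
        rw [Real.mul_self_sqrt (by linarith)]
        apply mul_le_mul_of_nonneg_left _ hK
        nlinarith
  have h8 : hh z - (Real.log (2 * Real.pi) + log z - HBz z) =
      (hh z - log z + HBz z - (hh ((1 / 100000 : ℝ) : ℂ) - log ((1 / 100000 : ℝ) : ℂ) +
        HBz ((1 / 100000 : ℝ) : ℂ))) + ((hh ((1 / 100000 : ℝ) : ℂ) - log ((1 / 100000 : ℝ) : ℂ) -
          (Real.log (2 * Real.pi) : ℂ)) + HBz ((1 / 100000 : ℝ) : ℂ)) := by ring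
  rw [h8]
  refine (norm_add_le _ _).trans ?_
  have h9 := norm_add_le (hh ((1 / 100000 : ℝ) : ℂ) - log ((1 / 100000 : ℝ) : ℂ) -
          (Real.log (2 * Real.pi) : ℂ)) (HBz ((1 / 100000 : ℝ) : ℂ))
  norm_num at h6
  norm_num at h3 h5 h7 h9 ⊢
  linarith

theorem KBr_300 : KBr (17 / 50) ≤ 123 / 10000000 := by
  unfold KBr
  norm_num

theorem KBr_250 : KBr (5 / 16) ≤ 45 / 10000000 := by
  unfold KBr
  norm_num

theorem Bs_norm {x s m : ℝ} (h0 : 0 < x) (h1 : x ≤ 1 / 2) (hs : |s| ≤ m) :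
    ‖(x : ℂ) + s * I‖ ^ 2 ≤ 1 / 4 + m ^ 2 := by
  rw [← normSq_eq_norm_sq, normSq_apply]
  have e1 : ((x : ℂ) + s * I).re = x := by simp
  have e2 : ((x : ℂ) + s * I).im = s := by simp
  rw [e1, e2]
  have := abs_le.1 hs
  nlinarith [sq_abs s, abs_nonneg s]

theorem Rf_series_aux {x s e : ℝ} (h0 : 0 < x) (h1 : x ≤ 1 / 2)
    (h : ‖ff ((x : ℂ) + s * I) - ((x : ℂ) + s * I) * hh ((x : ℂ) + s * I) +
      PBz ((x : ℂ) + s * I)‖ ≤ e) :
    |Rf ((x : ℂ) + s * I) - (x * Lg s x - s * (hh ((x : ℂ) + s * I)).im -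
      (PBz ((x : ℂ) + s * I)).re)| ≤ e := by
  have e1 : ((x : ℂ) + s * I).re = x := by simp
  have h2 : Rf ((x : ℂ) + s * I) = (ff ((x : ℂ) + s * I)).re :=
    Rf_eq_ff (by rw [e1]; exact h0) (by rw [e1]; linarith)
  have h3 := (abs_re_le_norm _).trans h
  rw [h2, ← hh_re' x s]
  refine le_trans (le_of_eq ?_) h3
  congr 1
  simp only [add_re, sub_re, mul_re, add_im, mul_im, ofReal_re, ofReal_im, I_re, I_im]
  ring

/-- The series of `Rf` for heights up to `3 / 10`. -/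
theorem Rf_series {x s : ℝ} (h0 : 0 < x) (h1 : x ≤ 1 / 2) (hs : |s| ≤ 3 / 10) :
    |Rf ((x : ℂ) + s * I) - (x * Lg s x - s * (hh ((x : ℂ) + s * I)).im -
      (PBz ((x : ℂ) + s * I)).re)| ≤ 1 / 200000 := by
  have e1 : ((x : ℂ) + s * I).re = x := by simp
  have hr := Bs_norm h0 h1 hs
  norm_num at hr
  have h2 := Bs_G (z := (x : ℂ) + s * I) (r := 17 / 50) (by rw [e1]; exact h0)
    (by rw [e1]; exact h1) hr (by norm_num) (by norm_num)
  exact Rf_series_aux h0 h1 (by linarith [KBr_300])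

/-- The series of `Rf` for heights up to `1 / 4`. -/
theorem Rf_series_quarter {x s : ℝ} (h0 : 0 < x) (h1 : x ≤ 1 / 2) (hs : |s| ≤ 1 / 4) :
    |Rf ((x : ℂ) + s * I) - (x * Lg s x - s * (hh ((x : ℂ) + s * I)).im -
      (PBz ((x : ℂ) + s * I)).re)| ≤ 1 / 600000 := by
  have e1 : ((x : ℂ) + s * I).re = x := by simp
  have hr := Bs_norm h0 h1 hs
  norm_num at hr
  have h2 := Bs_G (z := (x : ℂ) + s * I) (r := 5 / 16) (by rw [e1]; exact h0)
    (by rw [e1]; exact h1) hr (by norm_num) (by norm_num)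
  exact Rf_series_aux h0 h1 (by linarith [KBr_250])

theorem hh_series_aux {x s e : ℝ} (h : ‖hh ((x : ℂ) + s * I) - (Real.log (2 * Real.pi) +
      log ((x : ℂ) + s * I) - HBz ((x : ℂ) + s * I))‖ ≤ e) :
    |Lg s x - (Real.log (2 * Real.pi) + Real.log (x ^ 2 + s ^ 2) / 2 -
      (HBz ((x : ℂ) + s * I)).re)| ≤ e ∧
    |(hh ((x : ℂ) + s * I)).im - (arg ((x : ℂ) + s * I) - (HBz ((x : ℂ) + s * I)).im)| ≤ e := by
  constructor
  · have h3 := (abs_re_le_norm _).trans h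
    refine le_trans (le_of_eq ?_) h3
    congr 1
    rw [← hh_re' x s]
    simp only [add_re, sub_re, ofReal_re, log_re]
    have e2 : Real.log ‖(x : ℂ) + s * I‖ = Real.log (x ^ 2 + s ^ 2) / 2 := by
      have : x ^ 2 + s ^ 2 = ‖(x : ℂ) + s * I‖ ^ 2 := by
        rw [← normSq_eq_norm_sq, normSq_apply]
        simp
        ring
      rw [this, Real.log_pow]
      push_cast
      ring
    rw [e2]
  · have h3 := (abs_im_le_norm _).trans h
    refine le_trans (le_of_eq ?_) h3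
    congr 1
    simp only [add_im, sub_im, ofReal_im, log_im]
    ring

/-- The series of `hh` for heights up to `3 / 10`. -/
theorem hh_series {x s : ℝ} (h0 : 0 < x) (h1 : x ≤ 1 / 2) (hs : |s| ≤ 3 / 10) :
    |Lg s x - (Real.log (2 * Real.pi) + Real.log (x ^ 2 + s ^ 2) / 2 -
      (HBz ((x : ℂ) + s * I)).re)| ≤ 1 / 200000 ∧
    |(hh ((x : ℂ) + s * I)).im - (arg ((x : ℂ) + s * I) - (HBz ((x : ℂ) + s * I)).im)| ≤
      1 / 200000 := by
  have e1 : ((x : ℂ) + s * I).re = x := by simp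
  have hr := Bs_norm h0 h1 hs
  norm_num at hr
  have h2 := Bs_H (z := (x : ℂ) + s * I) (r := 17 / 50) (by rw [e1]; exact h0)
    (by rw [e1]; linarith) hr (by norm_num) (by norm_num)
  exact hh_series_aux (h2.trans (by linarith [KBr_300]))

/-- The series of `hh` for heights up to `1 / 4`. -/
theorem hh_series_quarter {x s : ℝ} (h0 : 0 < x) (h1 : x ≤ 1 / 2) (hs : |s| ≤ 1 / 4) :
    |Lg s x - (Real.log (2 * Real.pi) + Real.log (x ^ 2 + s ^ 2) / 2 -
      (HBz ((x : ℂ) + s * I)).re)| ≤ 1 / 600000 ∧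
    |(hh ((x : ℂ) + s * I)).im - (arg ((x : ℂ) + s * I) - (HBz ((x : ℂ) + s * I)).im)| ≤
      1 / 600000 := by
  have e1 : ((x : ℂ) + s * I).re = x := by simp
  have hr := Bs_norm h0 h1 hs
  norm_num at hr
  have h2 := Bs_H (z := (x : ℂ) + s * I) (r := 5 / 16) (by rw [e1]; exact h0)
    (by rw [e1]; linarith) hr (by norm_num) (by norm_num)
  exact hh_series_aux (h2.trans (by linarith [KBr_250]))

/-! ### Horner form -/

/-- Evaluation of a polynomial. -/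
noncomputable def hor : List ℚ → ℂ → ℂ
  | [], _ => 0
  | c :: l, w => c + w * hor l w

/-- The coefficients of `PBz`. -/
def cPB : List ℚ :=
  [32898681336 / 30000000000, 21646464674 / 50000000000, 20346861240 / 70000000000,
    20081547124 / 90000000000, 20019891502 / 110000000000, 20004921732 / 130000000000,
    20001224962 / 150000000000, 20000305646 / 170000000000, 20000076346 / 190000000000,
    20000019080 / 210000000000, 20000004770 / 230000000000, 20000001192 / 250000000000]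

/-- The coefficients of `HBz`. -/
def cHB : List ℚ :=
  [16449340668 / 10000000000, 10823232337 / 20000000000, 10173430620 / 30000000000,
    10040773562 / 40000000000, 10009945751 / 50000000000, 10002460866 / 60000000000,
    10000612481 / 70000000000, 10000152823 / 80000000000, 10000038173 / 90000000000,
    10000009540 / 100000000000, 10000002385 / 110000000000, 10000000596 / 120000000000]

theorem PBz_hor (z : ℂ) : PBz z = z - z * (z ^ 2 * hor cPB (z ^ 2)) := by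
  simp only [PBz, hor, cPB, Finset.sum_range_succ, Finset.sum_range_zero, qB]
  push_cast
  ring

theorem HBz_hor (z : ℂ) : HBz z = z ^ 2 * hor cHB (z ^ 2) := by
  simp only [HBz, hor, cHB, Finset.sum_range_succ, Finset.sum_range_zero, qB]
  push_cast
  ring

end Pool.Agent.S5
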