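import Pool.Agent.S5.I.Defs

/-!
# The values at real points

`Lb x = -Rf x` for real `x`, `Bn z` is the Bloch-Wigner function of `e ^ (2 π i z)` divided by `2 π`: the
value at `Re z` of the tangent plane of `-Rf` at `z`. Node functions at real points minus their tangent planes
at the critical point are sums of values of `Lb` minus the corresponding sums of values of `Bn`.
-/

set_option autoImplicit false

namespace Pool.Agent.S5

open Pool.Agent.H63.VC3 Pool.Agent.S3 Complex MeasureTheory Filter Topology Set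

/-- The function `-Rf` on the real line. -/
noncomputable def Lb (x : ℝ) : ℝ := -Rf (x : ℂ)

/-- The Bloch-Wigner function of `e ^ (2 π i z)`, divided by `2 π`. -/
noncomputable def Bn (z : ℂ) : ℝ := -Rf z - z.im * (hh z).im

theorem Lb_half : Lb (1 / 2) = 0 := by
  have h := Rf_half 0
  unfold Lb
  rw [ofReal_zero, zero_mul, add_zero] at h
  rw [h, neg_zero]

theorem Lb_one_sub (x : ℝ) : Lb (1 - x) = -Lb x := by
  unfold Lb
  have h := Rf_one_sub (x : ℂ)
  push_cast
  rw [h]

theorem Lb_neg (x : ℝ) : Lb (-x) = -Lb x := by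
  unfold Lb
  have h := Rf_neg (x : ℂ)
  rw [ofReal_im, abs_zero, mul_zero, sub_zero] at h
  push_cast
  rw [h]

theorem Lb_zero : Lb 0 = 0 := by
  have h := Lb_neg 0
  rw [neg_zero] at h
  linarith

theorem Lb_add_one (x : ℝ) : Lb (x + 1) = Lb x := by
  unfold Lb
  have h := Rf_add_one (x : ℂ)
  rw [ofReal_im, abs_zero, mul_zero, add_zero] at h
  push_cast
  rw [h]

theorem Rf_ofReal (x : ℝ) : Rf (x : ℂ) = -Lb x := by
  unfold Lb
  ring

/-- The tangent defect at a real point. -/
theorem Td_ofReal (z : ℂ) (r : ℝ) :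
    Td z (r : ℂ) = Lb r - Bn z + Lg z.im z.re * (r - z.re) := by
  unfold Td Lb Bn
  have e : (hh z * ((r : ℂ) - z)).re = (hh z).re * (r - z.re) + (hh z).im * z.im := by
    rw [mul_re, sub_re, sub_im, ofReal_re, ofReal_im]
    ring
  rw [e, hh_re]
  ring

theorem hh_one_sub (z : ℂ) : hh (1 - z) = hh z := by
  unfold hh
  congr 2
  have e : (Real.pi : ℂ) * (1 - z) = Real.pi - Real.pi * z := by ring
  rw [e, sin_pi_sub]

theorem Bn_one_sub (z : ℂ) : Bn (1 - z) = -Bn z := by
  unfold Bn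
  rw [Rf_one_sub, hh_one_sub, sub_im, one_im]
  ring

theorem Bn_conj {z : ℂ} (h0 : 0 < z.re) (h1 : z.re < 1) : Bn ((starRingEnd ℂ) z) = Bn z := by
  unfold Bn
  rw [Rf_conj, hh_conj z h0 h1, conj_im, conj_im]
  ring

theorem hh_im_ofReal {x : ℝ} (h0 : 0 < x) (h1 : x < 1) : (hh (x : ℂ)).im = 0 := by
  unfold hh
  rw [log_im, arg_eq_zero_iff]
  have hs : 0 < Real.sin (Real.pi * x) :=
    Real.sin_pos_of_pos_of_lt_pi (by have := Real.pi_pos; positivity)
      (by have := Real.pi_pos; nlinarith)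
  have e : (2 : ℂ) * sin (Real.pi * x) = ((2 * Real.sin (Real.pi * x) : ℝ) : ℂ) := by
    push_cast
    rfl
  rw [e, ofReal_re, ofReal_im]
  exact ⟨by positivity, rfl⟩

theorem Bn_ofReal {x : ℝ} : Bn (x : ℂ) = Lb x := by
  unfold Bn Lb
  rw [ofReal_im, zero_mul, sub_zero]

/-- The derivative of `Bn` on vertical lines. -/
theorem Bn_hasDerivAt {x : ℝ} (h0 : 0 < x) (h1 : x < 1) (s : ℝ) :
    HasDerivAt (fun s : ℝ => Bn ((x : ℂ) + s * I))
      (-(s * (Real.pi * cot (Real.pi * ((x : ℂ) + s * I))).re)) s := by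
  have e : (fun s : ℝ => Bn ((x : ℂ) + s * I)) =
      fun s : ℝ => -Rf ((x : ℂ) + s * I) - s * (hh ((x : ℂ) + s * I)).im := by
    funext s
    unfold Bn
    rw [line_im]
  rw [e]
  have h2 := neg_Rf_hasDerivAt_im h0 h1 s
  have h3 := (hasDerivAt_id s).mul (hh_im_hasDerivAt_im h0 h1 s)
  have h4 := h2.sub h3
  refine h4.congr_deriv ?_
  simp only [id]
  ring

theorem cot_re_le {x : ℝ} (h0 : 0 < x) (h1 : x ≤ 1 / 2) (s : ℝ) :
    (Real.pi * cot (Real.pi * ((x : ℂ) + s * I))).re ≤ Real.pi * Real.cot (Real.pi * x) := by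
  have hpi := Real.pi_pos
  rw [re_ofReal_mul, cot_re]
  apply mul_le_mul_of_nonneg_left _ hpi.le
  have hs : 0 < Real.sin (Real.pi * x) :=
    Real.sin_pos_of_pos_of_lt_pi (by positivity) (by nlinarith)
  have hc : 0 ≤ Real.cos (Real.pi * x) :=
    Real.cos_nonneg_of_mem_Icc ⟨by nlinarith, by nlinarith⟩
  have e1 : 2 * Real.pi * x = 2 * (Real.pi * x) := by ring
  have e2 : Real.cos (2 * (Real.pi * x)) = 1 - 2 * Real.sin (Real.pi * x) ^ 2 := by
    rw [Real.cos_two_mul]
    have := Real.sin_sq_add_cos_sq (Real.pi * x)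
    linarith
  have hch := Real.one_le_cosh (2 * Real.pi * s)
  rw [e1, Real.sin_two_mul, e2, Real.cot_eq_cos_div_sin, div_le_div_iff₀ (by nlinarith) hs]
  have h3 : 0 ≤ Real.cos (Real.pi * x) * (Real.cosh (2 * Real.pi * s) - 1) :=
    mul_nonneg hc (by linarith)
  nlinarith

/-- Upper bound of `Bn`. -/
theorem Bn_le {x s : ℝ} (h0 : 0 < x) (h1 : x ≤ 1 / 2) : Bn ((x : ℂ) + s * I) ≤ Lb x := by
  have key : ∀ s : ℝ, 0 ≤ s → Bn ((x : ℂ) + s * I) ≤ Lb x := by
    intro s hs
    have ha : AntitoneOn (fun s : ℝ => Bn ((x : ℂ) + s * I)) (Ici 0) := by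
      apply antitoneOn_of_hasDerivWithinAt_nonpos (convex_Ici 0)
        (f' := fun s => -(s * (Real.pi * cot (Real.pi * ((x : ℂ) + s * I))).re))
      · exact fun s _ => (Bn_hasDerivAt h0 (by linarith) s).continuousAt.continuousWithinAt
      · exact fun s _ => (Bn_hasDerivAt h0 (by linarith) s).hasDerivWithinAt
      · intro s hs
        rw [interior_Ici] at hs
        have h2 := cot_re_nonneg h0.le h1 s
        have hs' : 0 < s := hs
        have := mul_nonneg hs'.le h2
        linarith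
    have h3 := ha (mem_Ici.2 le_rfl) (mem_Ici.2 hs) hs
    simp only [ofReal_zero, zero_mul, add_zero] at h3
    rwa [Bn_ofReal] at h3
  rcases le_total 0 s with h | h
  · exact key s h
  · have h2 := key (-s) (by linarith)
    have e : (x : ℂ) + ((-s : ℝ) : ℂ) * I = (starRingEnd ℂ) ((x : ℂ) + s * I) := by
      rw [map_add, map_mul, conj_ofReal, conj_ofReal, conj_I]
      push_cast
      ring
    rw [e, Bn_conj (by rw [line_re]; exact h0) (by rw [line_re]; linarith)] at h2
    exact h2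

/-- Lower bound of `Bn`. -/
theorem le_Bn {x s : ℝ} (h0 : 0 < x) (h1 : x ≤ 1 / 2) :
    Lb x - Real.pi / 2 * Real.cot (Real.pi * x) * s ^ 2 ≤ Bn ((x : ℂ) + s * I) := by
  have key : ∀ s : ℝ, 0 ≤ s →
      Lb x - Real.pi / 2 * Real.cot (Real.pi * x) * s ^ 2 ≤ Bn ((x : ℂ) + s * I) := by
    intro s hs
    have hd : ∀ s : ℝ, HasDerivAt (fun s : ℝ => Bn ((x : ℂ) + s * I) +
        Real.pi / 2 * Real.cot (Real.pi * x) * s ^ 2)
        (-(s * (Real.pi * cot (Real.pi * ((x : ℂ) + s * I))).re) +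
          Real.pi / 2 * Real.cot (Real.pi * x) * (2 * s)) s := by
      intro s
      have h2 := (hasDerivAt_pow 2 s).const_mul (Real.pi / 2 * Real.cot (Real.pi * x))
      have h3 := (Bn_hasDerivAt h0 (by linarith) s).add h2
      refine h3.congr_deriv ?_
      simp
    have ha : MonotoneOn (fun s : ℝ => Bn ((x : ℂ) + s * I) +
        Real.pi / 2 * Real.cot (Real.pi * x) * s ^ 2) (Ici 0) := by
      apply monotoneOn_of_hasDerivWithinAt_nonneg (convex_Ici 0)
        (f' := fun s => -(s * (Real.pi * cot (Real.pi * ((x : ℂ) + s * I))).re) +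
          Real.pi / 2 * Real.cot (Real.pi * x) * (2 * s))
      · exact fun s _ => (hd s).continuousAt.continuousWithinAt
      · exact fun s _ => (hd s).hasDerivWithinAt
      · intro s hs
        rw [interior_Ici] at hs
        have h2 := cot_re_le h0 h1 s
        have hs' : 0 < s := hs
        have := mul_le_mul_of_nonneg_left h2 hs'.le
        nlinarith
    have h3 := ha (mem_Ici.2 le_rfl) (mem_Ici.2 hs) hs
    simp only [ofReal_zero, zero_mul, add_zero, ne_eq, OfNat.ofNat_ne_zero, not_false_eq_true,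
      zero_pow, mul_zero] at h3
    rw [Bn_ofReal] at h3
    linarith
  rcases le_total 0 s with h | h
  · exact key s h
  · have h2 := key (-s) (by linarith)
    have e : (x : ℂ) + ((-s : ℝ) : ℂ) * I = (starRingEnd ℂ) ((x : ℂ) + s * I) := by
      rw [map_add, map_mul, conj_ofReal, conj_ofReal, conj_I]
      push_cast
      ring
    rw [e, Bn_conj (by rw [line_re]; exact h0) (by rw [line_re]; linarith), neg_sq] at h2
    exact h2

/-- Upper bound of `Bn`, complex variable. -/
theorem Bn_le' {z : ℂ} (h0 : 0 < z.re) (h1 : z.re ≤ 1 / 2) : Bn z ≤ Lb z.re := by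
  have h := Bn_le (s := z.im) h0 h1
  rwa [re_add_im] at h

/-- Lower bound of `Bn`, complex variable. -/
theorem le_Bn' {z : ℂ} (h0 : 0 < z.re) (h1 : z.re ≤ 1 / 2) :
    Lb z.re - Real.pi / 2 * Real.cot (Real.pi * z.re) * z.im ^ 2 ≤ Bn z := by
  have h := le_Bn (s := z.im) h0 h1
  rwa [re_add_im] at h

end Pool.Agent.S5
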