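import Pool.Agent.S5.I.Bw

/-!
# The values at real points: concavity and positivity
-/

set_option autoImplicit false

namespace Pool.Agent.S5

open Pool.Agent.H63.VC3 Pool.Agent.S3 Complex MeasureTheory Filter Topology Set

theorem sin_ne_strip {x : ℝ} (h0 : 0 < x) (h1 : x < 1) (s : ℝ) :
    sin (Real.pi * ((x : ℂ) + s * I)) ≠ 0 := by
  intro h
  have h2 := norm_sin_pi_sq x s
  rw [h, norm_zero] at h2
  have hs : 0 < Real.sin (Real.pi * x) :=
    Real.sin_pos_of_pos_of_lt_pi (by have := Real.pi_pos; positivity)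
      (by have := Real.pi_pos; nlinarith)
  nlinarith [sq_nonneg (Real.sinh (Real.pi * s))]

/-- The derivative of `-Rf` on horizontal lines. -/
theorem neg_Rf_hasDerivAt_re {x : ℝ} (h0 : 0 < x) (h1 : x < 1) (s : ℝ) :
    HasDerivAt (fun x : ℝ => -Rf ((x : ℂ) + s * I)) (-Lg s x) x :=
  (Rf_hasDerivAt (sin_ne_strip h0 h1 s)).neg

theorem Lb_hasDerivAt {x : ℝ} (h0 : 0 < x) (h1 : x < 1) : HasDerivAt Lb (-Lg 0 x) x := by
  have h := neg_Rf_hasDerivAt_re h0 h1 0
  have e : (fun x : ℝ => -Rf ((x : ℂ) + (0 : ℝ) * I)) = Lb := by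
    funext x
    unfold Lb
    rw [ofReal_zero, zero_mul, add_zero]
  rwa [e] at h

theorem Lb_continuous : Continuous Lb := by
  unfold Lb
  exact (Rf_continuous.comp continuous_ofReal).neg

theorem Lb_concave : ConcaveOn ℝ (Icc 0 (1 / 2)) Lb := by
  apply AntitoneOn.concaveOn_of_deriv (convex_Icc _ _) Lb_continuous.continuousOn
  · intro x hx
    rw [interior_Icc] at hx
    exact (Lb_hasDerivAt hx.1 (by linarith [hx.2])).differentiableAt.differentiableWithinAt
  · intro x hx y hy hxy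
    rw [interior_Icc] at hx hy
    rw [(Lb_hasDerivAt hx.1 (by linarith [hx.2])).deriv,
      (Lb_hasDerivAt hy.1 (by linarith [hy.2])).deriv]
    have := Lg_mono_re (s := 0) hx.1 hxy hy.2.le
    linarith

/-- `Lb` is below its tangents. -/
theorem Lb_le_tangent {x x0 : ℝ} (h0 : 0 ≤ x) (h1 : x ≤ 1 / 2) (h2 : 0 < x0) (h3 : x0 ≤ 1 / 2) :
    Lb x ≤ Lb x0 - Lg 0 x0 * (x - x0) := by
  have h := Rf_tangent (s := 0) h0 h1 h2 h3
  rw [ofReal_zero, zero_mul, add_zero, add_zero, Rf_ofReal, Rf_ofReal] at h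
  linarith

theorem Lb_nonneg {x : ℝ} (h0 : 0 ≤ x) (h1 : x ≤ 1 / 2) : 0 ≤ Lb x := by
  have h := Lb_concave.2 (left_mem_Icc.2 (by norm_num)) (right_mem_Icc.2 (by norm_num))
    (show (0 : ℝ) ≤ 1 - 2 * x by linarith) (show (0 : ℝ) ≤ 2 * x by linarith) (by ring)
  rw [Lb_zero, Lb_half] at h
  simp only [smul_eq_mul, mul_zero, add_zero, zero_add] at h
  rwa [show 2 * x * (1 / 2) = x by ring] at h

/-- A chord of `Lb`. -/
theorem Lb_chord {a b x : ℝ} (h0 : 0 ≤ a) (h1 : b ≤ 1 / 2) (ha : a ≤ x) (hb : x ≤ b) {u v : ℝ}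
    (hu : u ≤ Lb a) (hv : v ≤ Lb b) : (b - x) * u + (x - a) * v ≤ (b - a) * Lb x := by
  rcases (ha.trans hb).eq_or_lt with h | h
  · have e1 : x = a := le_antisymm (h ▸ hb) ha
    rw [← h, e1]
    simp
  · have h2 := Lb_concave.2 (x := a) (y := b) ⟨h0, by linarith⟩ ⟨by linarith, h1⟩
      (show 0 ≤ (b - x) / (b - a) from div_nonneg (by linarith) (by linarith))
      (show 0 ≤ (x - a) / (b - a) from div_nonneg (by linarith) (by linarith))
      (by
        have : b - a ≠ 0 := by linarith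
        field_simp
        ring)
    simp only [smul_eq_mul] at h2
    have hne : b - a ≠ 0 := by linarith
    rw [show (b - x) / (b - a) * a + (x - a) / (b - a) * b = x by field_simp; ring] at h2
    have h3 := mul_le_mul_of_nonneg_left h2 (show 0 ≤ b - a by linarith)
    have e : (b - a) * ((b - x) / (b - a) * Lb a + (x - a) / (b - a) * Lb b) =
        (b - x) * Lb a + (x - a) * Lb b := by
      field_simp
    rw [e] at h3
    have h4 := mul_le_mul_of_nonneg_left hu (show 0 ≤ b - x by linarith)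
    have h5 := mul_le_mul_of_nonneg_left hv (show 0 ≤ x - a by linarith)
    linarith

theorem Lb_mono {x y : ℝ} (h0 : 0 ≤ x) (h1 : x ≤ y) (h2 : y ≤ 1 / 6) : Lb x ≤ Lb y := by
  rcases (h0.trans h1).eq_or_lt with h | h
  · have : x = y := le_antisymm h1 (h ▸ h0)
    rw [this]
  · have h3 := Lb_le_tangent h0 (by linarith) h (by linarith)
    have h4 : Lg 0 y ≤ 0 := by
      have h5 := Lg_mono_re (s := 0) h h2 (by norm_num)
      have h6 : Lg 0 (1 / 6) = 0 := by
        unfold Lg
        rw [ofReal_zero, zero_mul, add_zero]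
        have e : (2 : ℂ) * sin (Real.pi * ((1 / 6 : ℝ) : ℂ)) = ((2 * Real.sin (Real.pi / 6) : ℝ) : ℂ) := by
          push_cast
          congr 2
          ring
        rw [e, Real.sin_pi_div_six]
        norm_num
      linarith
    nlinarith

theorem Lb_anti {x y : ℝ} (h0 : 1 / 6 ≤ x) (h1 : x ≤ y) (h2 : y ≤ 1 / 2) : Lb y ≤ Lb x := by
  have h3 := Lb_le_tangent (x := y) (x0 := x) (by linarith) h2 (by linarith) (by linarith)
  have h4 : 0 ≤ Lg 0 x := by
    have h5 := Lg_mono_re (s := 0) (t := 1 / 6) (by norm_num) h0 (by linarith)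
    have h6 : Lg 0 (1 / 6) = 0 := by
      unfold Lg
      rw [ofReal_zero, zero_mul, add_zero]
      have e : (2 : ℂ) * sin (Real.pi * ((1 / 6 : ℝ) : ℂ)) = ((2 * Real.sin (Real.pi / 6) : ℝ) : ℂ) := by
        push_cast
        congr 2
        ring
      rw [e, Real.sin_pi_div_six]
      norm_num
    linarith
  nlinarith

theorem Lb_le_max {x : ℝ} (h0 : 0 ≤ x) (h1 : x ≤ 1 / 2) : Lb x ≤ Lb (1 / 6) := by
  rcases le_total x (1 / 6) with h | h
  · exact Lb_mono h0 h le_rfl
  · exact Lb_anti le_rfl h h1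

/-! ### Concavity of `Bn` on horizontal lines -/

theorem cot_im (x s : ℝ) : (cot (Real.pi * ((x : ℂ) + s * I))).im =
    -(Real.sinh (2 * Real.pi * s) / (Real.cosh (2 * Real.pi * s) - Real.cos (2 * Real.pi * x))) := by
  have e1 : (Real.pi * ((x : ℂ) + s * I)) = ((Real.pi * x : ℝ) : ℂ) + ((Real.pi * s : ℝ) : ℂ) * I := by
    push_cast
    ring
  set a := Real.pi * x with ha
  set b := Real.pi * s with hb
  rw [e1, Complex.cot, div_im]
  have hs1 : (sin ((a : ℂ) + b * I)).re = Real.sin a * Real.cosh b := by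
    rw [sin_add_mul_I, ← ofReal_sin, ← ofReal_cosh, ← ofReal_cos, ← ofReal_sinh]
    simp only [add_re, mul_re, ofReal_re, ofReal_im, mul_zero, sub_zero, I_re, I_im, mul_one,
      mul_im, zero_mul, add_zero]
  have hs2 : (sin ((a : ℂ) + b * I)).im = Real.cos a * Real.sinh b := by
    rw [sin_add_mul_I, ← ofReal_sin, ← ofReal_cosh, ← ofReal_cos, ← ofReal_sinh]
    simp only [add_im, mul_re, ofReal_re, ofReal_im, mul_zero, sub_zero, I_re, I_im, mul_one,
      mul_im, zero_mul, add_zero, zero_add]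
  have hc1 : (cos ((a : ℂ) + b * I)).re = Real.cos a * Real.cosh b := by
    rw [cos_add_mul_I, ← ofReal_sin, ← ofReal_cosh, ← ofReal_cos, ← ofReal_sinh]
    simp only [sub_re, mul_re, ofReal_re, ofReal_im, mul_zero, sub_zero, I_re, I_im, mul_one,
      mul_im, zero_mul, add_zero]
  have hc2 : (cos ((a : ℂ) + b * I)).im = -(Real.sin a * Real.sinh b) := by
    rw [cos_add_mul_I, ← ofReal_sin, ← ofReal_cosh, ← ofReal_cos, ← ofReal_sinh]
    simp only [sub_im, mul_re, ofReal_re, ofReal_im, mul_zero, sub_zero, I_re, I_im, mul_one,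
      mul_im, zero_mul, add_zero, zero_add, zero_sub]
  have hn : normSq (sin ((a : ℂ) + b * I)) =
      (Real.cosh (2 * b) - Real.cos (2 * a)) / 2 := by
    rw [normSq_apply, hs1, hs2, Real.cosh_two_mul, Real.cos_two_mul]
    have h1 := Real.cosh_sq b
    have h2 := Real.sin_sq_add_cos_sq a
    nlinarith [h1, h2]
  rw [hs1, hs2, hc1, hc2, hn]
  have e2 : 2 * Real.pi * x = 2 * a := by rw [ha]; ring
  have e3 : 2 * Real.pi * s = 2 * b := by rw [hb]; ring
  rw [e2, e3, Real.sinh_two_mul, ← sub_div]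
  by_cases h0 : Real.cosh (2 * b) - Real.cos (2 * a) = 0
  · rw [h0]
    simp
  · have h1 := Real.sin_sq_add_cos_sq a
    rw [← neg_div, div_eq_div_iff (by
      intro h
      apply h0
      linarith) h0]
    linear_combination (-(Real.sinh b * Real.cosh b * (Real.cosh (2 * b) - Real.cos (2 * a)))) * h1

theorem hh_im_hasDerivAt_re {x : ℝ} (h0 : 0 < x) (h1 : x < 1) (s : ℝ) :
    HasDerivAt (fun x : ℝ => (hh ((x : ℂ) + s * I)).im)
      (Real.pi * cot (Real.pi * ((x : ℂ) + s * I))).im x := by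
  have h2 := hh_hasDerivAt ((x : ℂ) + s * I) (by rw [line_re]; exact h0)
    (by rw [line_re]; exact h1)
  have h3 : HasDerivAt (fun x : ℝ => (x : ℂ) + s * I) 1 x := by
    have := (Complex.ofRealCLM.hasDerivAt (x := x)).add_const (s * I : ℂ)
    simpa using this
  have h4 := HasDerivAt.comp x h2 h3
  have h5 := (Complex.imCLM.hasFDerivAt.comp_hasDerivAt x h4)
  refine h5.congr_deriv ?_
  simp

theorem Bn_hasDerivAt_re {x : ℝ} (h0 : 0 < x) (h1 : x < 1) (s : ℝ) :
    HasDerivAt (fun x : ℝ => Bn ((x : ℂ) + s * I))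
      (-Lg s x + Real.pi * (s * Real.sinh (2 * Real.pi * s) /
        (Real.cosh (2 * Real.pi * s) - Real.cos (2 * Real.pi * x)))) x := by
  have e : (fun x : ℝ => Bn ((x : ℂ) + s * I)) =
      fun x : ℝ => -Rf ((x : ℂ) + s * I) - s * (hh ((x : ℂ) + s * I)).im := by
    funext x
    unfold Bn
    rw [line_im]
  rw [e]
  have h3 := (neg_Rf_hasDerivAt_re h0 h1 s).sub ((hh_im_hasDerivAt_re h0 h1 s).const_mul s)
  refine h3.congr_deriv ?_
  rw [im_ofReal_mul, cot_im]
  ring

theorem Bn_concave (s : ℝ) : ConcaveOn ℝ (Ioc 0 (1 / 2)) fun x : ℝ => Bn ((x : ℂ) + s * I) := by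
  have hd : ∀ x ∈ Ioc (0 : ℝ) (1 / 2), HasDerivAt (fun x : ℝ => Bn ((x : ℂ) + s * I))
      (-Lg s x + Real.pi * (s * Real.sinh (2 * Real.pi * s) /
        (Real.cosh (2 * Real.pi * s) - Real.cos (2 * Real.pi * x)))) x :=
    fun x hx => Bn_hasDerivAt_re hx.1 (by linarith [hx.2]) s
  apply AntitoneOn.concaveOn_of_deriv (convex_Ioc _ _)
  · exact fun x hx => (hd x hx).continuousAt.continuousWithinAt
  · exact fun x hx => (hd x (interior_subset hx)).differentiableAt.differentiableWithinAt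
  · intro x hx y hy hxy
    rw [(hd x (interior_subset hx)).deriv, (hd y (interior_subset hy)).deriv]
    rw [interior_Ioc] at hx hy
    have h1 := Lg_mono_re (s := s) hx.1 hxy hy.2.le
    have hpi := Real.pi_pos
    have h2 : Real.cos (2 * Real.pi * y) ≤ Real.cos (2 * Real.pi * x) := by
      apply Real.cos_le_cos_of_nonneg_of_le_pi
      · have := hx.1
        positivity
      · nlinarith [hy.2]
      · nlinarith
    have h3 : Real.cos (2 * Real.pi * x) < 1 := by
      rw [← Real.cos_zero]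
      apply Real.cos_lt_cos_of_nonneg_of_le_pi le_rfl
      · nlinarith [hx.2]
      · have := hx.1
        positivity
    have h4 := Real.one_le_cosh (2 * Real.pi * s)
    have h5 : 0 ≤ s * Real.sinh (2 * Real.pi * s) := by
      rcases le_total 0 s with h | h
      · exact mul_nonneg h (Real.sinh_nonneg_iff.2 (by positivity))
      · exact mul_nonneg_of_nonpos_of_nonpos h (Real.sinh_nonpos_iff.2 (by nlinarith))
    have h6 : s * Real.sinh (2 * Real.pi * s) /
        (Real.cosh (2 * Real.pi * s) - Real.cos (2 * Real.pi * y)) ≤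
        s * Real.sinh (2 * Real.pi * s) /
        (Real.cosh (2 * Real.pi * s) - Real.cos (2 * Real.pi * x)) := by
      apply div_le_div_of_nonneg_left h5 (by linarith) (by linarith)
    have h7 := mul_le_mul_of_nonneg_left h6 hpi.le
    linarith

theorem Rf_im (s : ℝ) : Rf ((s : ℂ) * I) = -(Real.pi * |s| / 2) := by
  have h1 := Rf_neg ((s : ℂ) * I)
  have h2 := Rf_conj ((s : ℂ) * I)
  have e : (starRingEnd ℂ) ((s : ℂ) * I) = -((s : ℂ) * I) := by
    rw [map_mul, conj_ofReal, conj_I]
    ring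
  have e2 : ((s : ℂ) * I).im = s := by simp
  rw [e] at h2
  rw [e2] at h1
  linarith

theorem Bn_half (s : ℝ) : Bn (((1 / 2 : ℝ) : ℂ) + s * I) = 0 := by
  unfold Bn
  rw [Rf_half, line_im]
  have h : (hh (((1 / 2 : ℝ) : ℂ) + s * I)).im = 0 := by
    unfold hh
    have e : (2 : ℂ) * sin (Real.pi * (((1 / 2 : ℝ) : ℂ) + s * I)) =
        ((2 * Real.cosh (Real.pi * s) : ℝ) : ℂ) := by
      have e1 : (Real.pi : ℂ) * (((1 / 2 : ℝ) : ℂ) + s * I) =
          ((Real.pi * s : ℝ) : ℂ) * I + Real.pi / 2 := by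
        push_cast
        ring
      rw [e1, sin_add_pi_div_two, cos_mul_I]
      push_cast
      rfl
    rw [e, log_im, arg_eq_zero_iff, ofReal_re, ofReal_im]
    exact ⟨by have := Real.cosh_pos (Real.pi * s); positivity, rfl⟩
  rw [h]
  ring

/-- `Bn` is not negative in the left half of the strip. -/
theorem Bn_nonneg {x s : ℝ} (h0 : 0 < x) (h1 : x ≤ 1 / 2) : 0 ≤ Bn ((x : ℂ) + s * I) := by
  rcases eq_or_ne s 0 with hs | hs
  · rw [hs, ofReal_zero, zero_mul, add_zero, Bn_ofReal]
    exact Lb_nonneg h0.le h1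
  have hpi := Real.pi_pos
  -- the limit at zero
  have hlim : Tendsto (fun x : ℝ => Bn ((x : ℂ) + s * I)) (𝓝[>] 0) (𝓝 0) := by
    have hc : ContinuousAt (fun x : ℝ => Bn ((x : ℂ) + s * I)) 0 := by
      unfold Bn hh
      apply ContinuousAt.sub
      · exact (Rf_continuous.comp (by fun_prop)).neg.continuousAt
      · apply ContinuousAt.mul
        · fun_prop
        · apply Complex.continuous_im.continuousAt.comp
          apply ContinuousAt.clog (by fun_prop)
          right
          have e : (2 : ℂ) * sin (Real.pi * (((0 : ℝ) : ℂ) + s * I)) =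
              ((2 * Real.sinh (Real.pi * s) : ℝ) : ℂ) * I := by
            have e1 : (Real.pi : ℂ) * (((0 : ℝ) : ℂ) + s * I) = ((Real.pi * s : ℝ) : ℂ) * I := by
              push_cast
              ring
            rw [e1, sin_mul_I]
            push_cast
            ring
          rw [e]
          have e2 : (((2 * Real.sinh (Real.pi * s) : ℝ) : ℂ) * I).im =
              2 * Real.sinh (Real.pi * s) := by
            rw [im_ofReal_mul, I_im, mul_one]
          rw [e2]
          have : Real.sinh (Real.pi * s) ≠ 0 := by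
            rw [Ne, Real.sinh_eq_zero]
            positivity
          positivity
    have hv : Bn (((0 : ℝ) : ℂ) + s * I) = 0 := by
      unfold Bn
      rw [ofReal_zero, zero_add, Rf_im]
      have e : (2 : ℂ) * sin (Real.pi * ((s : ℂ) * I)) =
          ((2 * Real.sinh (Real.pi * s) : ℝ) : ℂ) * I := by
        have e1 : (Real.pi : ℂ) * ((s : ℂ) * I) = ((Real.pi * s : ℝ) : ℂ) * I := by
          push_cast
          ring
        rw [e1, sin_mul_I]
        push_cast
        ring
      unfold hh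
      rw [e, log_im]
      have e3 : ((s : ℂ) * I).im = s := by simp
      rw [e3]
      rcases lt_or_gt_of_ne hs with h | h
      · have h3 : Real.sinh (Real.pi * s) < 0 := Real.sinh_neg_iff.2 (by nlinarith)
        have h4 : arg (((2 * Real.sinh (Real.pi * s) : ℝ) : ℂ) * I) = -(Real.pi / 2) := by
          have e4 : ((2 * Real.sinh (Real.pi * s) : ℝ) : ℂ) * I =
              ((-(2 * Real.sinh (Real.pi * s)) : ℝ) : ℂ) * (-I) := by
            push_cast
            ring
          rw [e4, arg_real_mul _ (by linarith), arg_neg_I]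
        rw [h4, abs_of_neg h]
        ring
      · have h3 : 0 < Real.sinh (Real.pi * s) := Real.sinh_pos_iff.2 (by positivity)
        rw [arg_real_mul _ (by positivity), arg_I, abs_of_pos h]
        ring
    have h2 := hc.tendsto
    rw [hv] at h2
    exact h2.mono_left nhdsWithin_le_nhds
  -- the chord
  have hch : ∀ᶠ e : ℝ in 𝓝[>] 0, (1 / 2 - x) / (1 / 2 - e) * Bn ((e : ℂ) + s * I) ≤
      Bn ((x : ℂ) + s * I) := by
    filter_upwards [Ioo_mem_nhdsGT h0] with e he
    have h2 := (Bn_concave s).2 (x := e) (y := 1 / 2) ⟨he.1, by linarith [he.2]⟩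
      ⟨by norm_num, le_rfl⟩
      (show 0 ≤ (1 / 2 - x) / (1 / 2 - e) from div_nonneg (by linarith) (by linarith [he.2]))
      (show 0 ≤ (x - e) / (1 / 2 - e) from div_nonneg (by linarith [he.2]) (by linarith [he.2]))
      (by
        have : (1 / 2 : ℝ) - e ≠ 0 := by linarith [he.2]
        rw [← add_div, div_eq_one_iff_eq this]
        ring)
    simp only [smul_eq_mul] at h2
    rw [Bn_half, mul_zero, add_zero] at h2
    have hne : (1 / 2 : ℝ) - e ≠ 0 := by linarith [he.2]
    have e5 : (1 / 2 - x) / (1 / 2 - e) * e + (x - e) / (1 / 2 - e) * (1 / 2) = x := by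
      rw [div_mul_eq_mul_div, div_mul_eq_mul_div, ← add_div, div_eq_iff hne]
      ring
    rw [e5] at h2
    exact h2
  have hl2 : Tendsto (fun e : ℝ => (1 / 2 - x) / (1 / 2 - e) * Bn ((e : ℂ) + s * I)) (𝓝[>] 0)
      (𝓝 ((1 / 2 - x) / (1 / 2 - 0) * 0)) := by
    apply Tendsto.mul _ hlim
    have : ContinuousAt (fun e : ℝ => (1 / 2 - x) / (1 / 2 - e)) 0 := by
      apply ContinuousAt.div (by fun_prop) (by fun_prop)
      norm_num
    exact this.tendsto.mono_left nhdsWithin_le_nhds
  rw [mul_zero] at hl2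
  exact le_of_tendsto hl2 hch

theorem Bn_nonneg' {z : ℂ} (h0 : 0 < z.re) (h1 : z.re ≤ 1 / 2) : 0 ≤ Bn z := by
  have h := Bn_nonneg (s := z.im) h0 h1
  rwa [re_add_im] at h

/-- In the right half of the strip. -/
theorem neg_Lb_le_Bn {z : ℂ} (h0 : 1 / 2 ≤ z.re) (h1 : z.re < 1) : Lb z.re ≤ Bn z := by
  have h := Bn_le' (z := 1 - z) (by rw [sub_re, one_re]; linarith) (by rw [sub_re, one_re]; linarith)
  rw [Bn_one_sub, sub_re, one_re, Lb_one_sub] at h
  linarith

end Pool.Agent.S5
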