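import Pool.Agent.S5.Tan

/-!
# Closed vertices with two half twists: calculus

`Lq s t = log |2 sin (π (t + i h))|` with `s = sinh² (π h)`; the defects `Dq s x0 x` of its
primitive from the tangent line at `x0`; convexity along segments.
-/

set_option autoImplicit false

namespace Pool.Agent.S5.C2

open Pool.Agent.H63.VC3 Pool.Agent.S3 Complex MeasureTheory Filter Topology Set

/-- The density of the growth function, `s = sinh² (π h)` for the height `h`. -/
noncomputable def Lq (s t : ℝ) : ℝ := Real.log (4 * (Real.sin (Real.pi * t) ^ 2 + s)) / 2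

theorem Lg_eq_Lq (h t : ℝ) : Lg h t = Lq (Real.sinh (Real.pi * h) ^ 2) t := by
  unfold Lg Lq
  have e : ‖2 * sin (Real.pi * ((t : ℂ) + h * I))‖ ^ 2 =
      4 * (Real.sin (Real.pi * t) ^ 2 + Real.sinh (Real.pi * h) ^ 2) := by
    rw [norm_mul, mul_pow, norm_sin_pi_sq, norm_ofNat]
    norm_num
  rw [← e, Real.log_pow]
  push_cast
  ring

/-- The defect of the growth from its tangent line. -/
noncomputable def Dq (s x0 x : ℝ) : ℝ := ∫ t in x0..x, (Lq s t - Lq s x0)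

theorem Lq_integrable (h a b : ℝ) :
    IntervalIntegrable (Lq (Real.sinh (Real.pi * h) ^ 2)) volume a b := by
  have e : Lq (Real.sinh (Real.pi * h) ^ 2) = Lg h := by
    funext t
    rw [Lg_eq_Lq]
  rw [e]
  exact Lg_integrable h a b

theorem Dq_eq (h x0 x : ℝ) : Dq (Real.sinh (Real.pi * h) ^ 2) x0 x =
    Rf ((x : ℂ) + h * I) - Rf ((x0 : ℂ) + h * I) - Lg h x0 * (x - x0) := by
  unfold Dq
  rw [intervalIntegral.integral_sub (Lq_integrable h _ _) (by simp),
    intervalIntegral.integral_const, ← Lg_integral h x0 x, smul_eq_mul, Lg_eq_Lq]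
  congr 1
  · apply intervalIntegral.integral_congr
    intro t _
    simp only [Lg_eq_Lq]
  · ring

theorem Lq_hasDerivAt {s t : ℝ} (h : 0 < Real.sin (Real.pi * t) ^ 2 + s) :
    HasDerivAt (Lq s) (Real.pi * (Real.sin (Real.pi * t) * Real.cos (Real.pi * t)) /
      (Real.sin (Real.pi * t) ^ 2 + s)) t := by
  have h1 : HasDerivAt (fun t : ℝ => Real.sin (Real.pi * t))
      (Real.cos (Real.pi * t) * (Real.pi * 1)) t :=
    (Real.hasDerivAt_sin (Real.pi * t)).comp t ((hasDerivAt_id t).const_mul Real.pi)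
  have h3 := ((h1.fun_pow 2).add_const s).const_mul 4
  have h4 := (h3.log (by positivity)).div_const 2
  have h5 : HasDerivAt (Lq s) (4 * ((2 : ℕ) * Real.sin (Real.pi * t) ^ (2 - 1) *
      (Real.cos (Real.pi * t) * (Real.pi * 1))) / (4 * (Real.sin (Real.pi * t) ^ 2 + s)) / 2) t := h4
  refine h5.congr_deriv ?_
  have h6 : Real.sin (Real.pi * t) ^ 2 + s ≠ 0 := h.ne'
  norm_num
  field_simp

theorem Lq_continuousAt {s t : ℝ} (h : 0 < Real.sin (Real.pi * t) ^ 2 + s) :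
    ContinuousAt (Lq s) t := (Lq_hasDerivAt h).continuousAt

theorem Lq_int {s : ℝ} (hs : 0 ≤ s) (a b : ℝ) : IntervalIntegrable (Lq s) volume a b := by
  have e : Real.sinh (Real.pi * (Real.arsinh (√s) / Real.pi)) ^ 2 = s := by
    rw [mul_div_cancel₀ _ Real.pi_ne_zero, Real.sinh_arsinh, Real.sq_sqrt hs]
  have h := Lq_integrable (Real.arsinh (√s) / Real.pi) a b
  rwa [e] at h

theorem Dq_sub {s : ℝ} (hs : 0 ≤ s) (x0 a b : ℝ) :
    Dq s x0 b - Dq s x0 a = ∫ t in a..b, (Lq s t - Lq s x0) := by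
  unfold Dq
  have h1 : ∀ a b : ℝ, IntervalIntegrable (fun t => Lq s t - Lq s x0) volume a b :=
    fun a b => (Lq_int hs a b).sub (by simp)
  rw [sub_eq_iff_eq_add, add_comm, intervalIntegral.integral_add_adjacent_intervals (h1 _ _)
    (h1 _ _)]

theorem Dq_self (s x0 : ℝ) : Dq s x0 x0 = 0 := by
  unfold Dq
  exact intervalIntegral.integral_same

theorem Dq_continuous {s : ℝ} (hs : 0 ≤ s) (x0 : ℝ) : Continuous (Dq s x0) := by
  unfold Dq
  apply intervalIntegral.continuous_primitive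
  intro a b
  exact (Lq_int hs a b).sub (by simp)

theorem Dq_hasDerivAt {s : ℝ} (hs : 0 ≤ s) (x0 : ℝ) {x : ℝ}
    (h : 0 < Real.sin (Real.pi * x) ^ 2 + s) : HasDerivAt (Dq s x0) (Lq s x - Lq s x0) x := by
  unfold Dq
  apply intervalIntegral.integral_hasDerivAt_right
  · exact (Lq_int hs _ _).sub (by simp)
  · apply AEStronglyMeasurable.stronglyMeasurableAtFilter
    apply Measurable.aestronglyMeasurable
    unfold Lq
    fun_prop
  · exact (Lq_continuousAt h).sub continuousAt_const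

/-- The defect of the closed vertex with two half twists: `p`, `q` are the distances of the two
edges from `1 / 2`. -/
noncomputable def SS (s1 s2 s3 p0 q0 p q : ℝ) : ℝ :=
  2 * Dq s1 p0 p + 2 * Dq s2 q0 q - Dq s3 (p0 + q0) (p + q)

/-- The second derivative of the defect. -/
noncomputable def Lp (s t : ℝ) : ℝ := Real.pi * (Real.sin (Real.pi * t) * Real.cos (Real.pi * t)) /
      (Real.sin (Real.pi * t) ^ 2 + s)

/-- Positivity along a segment from the critical point. -/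
theorem SS_segment {s1 s2 s3 p0 q0 d e κ ρ : ℝ} (hs1 : 0 ≤ s1) (hs2 : 0 ≤ s2) (hs3 : 0 ≤ s3)
    (hρ : 0 < ρ) (hρ1 : ρ ≤ 1)
    (h1 : ∀ r ∈ Ico (0 : ℝ) 1, 0 < Real.sin (Real.pi * (p0 + r * d)) ^ 2 + s1)
    (h2 : ∀ r ∈ Ico (0 : ℝ) 1, 0 < Real.sin (Real.pi * (q0 + r * e)) ^ 2 + s2)
    (h3 : ∀ r ∈ Ico (0 : ℝ) 1, 0 < Real.sin (Real.pi * (p0 + q0 + r * (d + e))) ^ 2 + s3)
    (hQ0 : ∀ r ∈ Ioo (0 : ℝ) 1, 0 ≤ 2 * Lp s1 (p0 + r * d) * d ^ 2 +
      2 * Lp s2 (q0 + r * e) * e ^ 2 - Lp s3 (p0 + q0 + r * (d + e)) * (d + e) ^ 2)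
    (hQ : ∀ r ∈ Ioo (0 : ℝ) ρ, κ ≤ 2 * Lp s1 (p0 + r * d) * d ^ 2 + 2 * Lp s2 (q0 + r * e) * e ^ 2 -
      Lp s3 (p0 + q0 + r * (d + e)) * (d + e) ^ 2) :
    κ * ρ ^ 2 / 2 ≤ SS s1 s2 s3 p0 q0 (p0 + d) (q0 + e) := by
  have hl : ∀ (x0 c r : ℝ), HasDerivAt (fun r : ℝ => x0 + r * c) c r := fun x0 c r => by
    have h := ((hasDerivAt_id r).mul_const c).const_add x0
    simpa using h
  -- the derivative along the segment
  set G : ℝ → ℝ := fun r => 2 * (Lq s1 (p0 + r * d) - Lq s1 p0) * d +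
    2 * (Lq s2 (q0 + r * e) - Lq s2 q0) * e -
    (Lq s3 (p0 + q0 + r * (d + e)) - Lq s3 (p0 + q0)) * (d + e) with hG
  have hL : ∀ {s x0 c r : ℝ}, 0 < Real.sin (Real.pi * (x0 + r * c)) ^ 2 + s →
      HasDerivAt (fun r : ℝ => Lq s (x0 + r * c)) (Lp s (x0 + r * c) * c) r := by
    intro s x0 c r h
    exact (Lq_hasDerivAt h).comp r (hl x0 c r)
  have hGd : ∀ r ∈ Ico (0 : ℝ) 1, HasDerivAt G (2 * Lp s1 (p0 + r * d) * d ^ 2 +
      2 * Lp s2 (q0 + r * e) * e ^ 2 - Lp s3 (p0 + q0 + r * (d + e)) * (d + e) ^ 2) r := by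
    intro r hr
    have a1 := (((hL (h1 r hr)).sub_const (Lq s1 p0)).const_mul 2).mul_const d
    have a2 := (((hL (h2 r hr)).sub_const (Lq s2 q0)).const_mul 2).mul_const e
    have a3 := (((hL (h3 r hr)).sub_const (Lq s3 (p0 + q0)))).mul_const (d + e)
    refine ((a1.add a2).sub a3).congr_deriv ?_
    ring
  have hG0 : G 0 = 0 := by
    rw [hG]
    simp
  have key : ∀ (c u : ℝ), 0 < u → u ≤ 1 → (∀ r ∈ Ioo (0 : ℝ) u, c ≤ 2 * Lp s1 (p0 + r * d) * d ^ 2 +
      2 * Lp s2 (q0 + r * e) * e ^ 2 - Lp s3 (p0 + q0 + r * (d + e)) * (d + e) ^ 2) →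
      ∀ r ∈ Ico (0 : ℝ) u, c * r ≤ G r := by
    intro c u hu hu1 hq
    have hm : MonotoneOn (fun r => G r - c * r) (Ico (0 : ℝ) u) := by
      apply monotoneOn_of_deriv_nonneg (convex_Ico 0 u)
      · intro r hr
        exact ((hGd r ⟨hr.1, hr.2.trans_le hu1⟩).sub
          ((hasDerivAt_id r).const_mul c)).continuousAt.continuousWithinAt
      · intro r hr
        rw [interior_Ico] at hr
        exact ((hGd r ⟨hr.1.le, hr.2.trans_le hu1⟩).sub
          ((hasDerivAt_id r).const_mul c)).differentiableAt.differentiableWithinAt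
      · intro r hr
        rw [interior_Ico] at hr
        have h := ((hGd r ⟨hr.1.le, hr.2.trans_le hu1⟩).sub ((hasDerivAt_id r).const_mul c)).deriv
        have h' : deriv (fun r => G r - c * r) r = _ := h
        rw [h']
        have h5 := hq r hr
        linarith
    intro r hr
    have h := hm ⟨le_rfl, hu⟩ hr hr.1
    simp only [hG0, mul_zero, sub_zero] at h
    linarith
  have hGr := key κ ρ hρ hρ1 hQ
  have hG1 := key 0 1 one_pos le_rfl hQ0
  -- the primitive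
  have hD : ∀ {s x0 c r : ℝ}, 0 ≤ s → 0 < Real.sin (Real.pi * (x0 + r * c)) ^ 2 + s →
      HasDerivAt (fun r : ℝ => Dq s x0 (x0 + r * c)) ((Lq s (x0 + r * c) - Lq s x0) * c) r := by
    intro s x0 c r hs h
    exact (Dq_hasDerivAt hs x0 h).comp r (hl x0 c r)
  set g : ℝ → ℝ := fun r => 2 * Dq s1 p0 (p0 + r * d) + 2 * Dq s2 q0 (q0 + r * e) -
    Dq s3 (p0 + q0) (p0 + q0 + r * (d + e)) with hg
  have hgd : ∀ r ∈ Ico (0 : ℝ) 1, HasDerivAt g (G r) r := by
    intro r hr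
    have a1 := (hD hs1 (h1 r hr)).const_mul 2
    have a2 := (hD hs2 (h2 r hr)).const_mul 2
    have a3 := hD hs3 (h3 r hr)
    refine ((a1.add a2).sub a3).congr_deriv ?_
    rw [hG]
    ring
  have hgc : Continuous g := by
    have c1 := Dq_continuous hs1 p0
    have c2 := Dq_continuous hs2 q0
    have c3 := Dq_continuous hs3 (p0 + q0)
    rw [hg]
    fun_prop
  have hm : MonotoneOn (fun r => g r - κ * r ^ 2 / 2) (Icc (0 : ℝ) ρ) := by
    have hd : ∀ r ∈ Ioo (0 : ℝ) ρ, HasDerivAt (fun r => g r - κ * r ^ 2 / 2) (G r - κ * r) r := by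
      intro r hr
      have h6 := (hgd r ⟨hr.1.le, hr.2.trans_le hρ1⟩).sub
        (((hasDerivAt_pow 2 r).const_mul κ).div_const 2)
      refine h6.congr_deriv ?_
      norm_num
      ring
    apply monotoneOn_of_deriv_nonneg (convex_Icc 0 ρ)
    · apply Continuous.continuousOn
      fun_prop
    · intro r hr
      rw [interior_Icc] at hr
      exact (hd r hr).differentiableAt.differentiableWithinAt
    · intro r hr
      rw [interior_Icc] at hr
      rw [(hd r hr).deriv]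
      linarith [hGr r ⟨hr.1.le, hr.2⟩]
  have hm1 : MonotoneOn g (Icc (0 : ℝ) 1) := by
    apply monotoneOn_of_deriv_nonneg (convex_Icc 0 1) hgc.continuousOn
    · intro r hr
      rw [interior_Icc] at hr
      exact (hgd r ⟨hr.1.le, hr.2⟩).differentiableAt.differentiableWithinAt
    · intro r hr
      rw [interior_Icc] at hr
      rw [(hgd r ⟨hr.1.le, hr.2⟩).deriv]
      linarith [hG1 r ⟨hr.1.le, hr.2⟩]
  have h := hm (left_mem_Icc.2 hρ.le) (right_mem_Icc.2 hρ.le) hρ.le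
  have h' := hm1 ⟨hρ.le, hρ1⟩ (right_mem_Icc.2 zero_le_one) hρ1
  have hg0 : g 0 = 0 := by
    rw [hg]
    simp [Dq_self]
  simp only [hg0, ne_eq, OfNat.ofNat_ne_zero, not_false_eq_true, zero_pow, mul_zero, zero_div,
    sub_zero] at h
  have hg1 : g 1 = SS s1 s2 s3 p0 q0 (p0 + d) (q0 + e) := by
    rw [hg]
    unfold SS
    simp only [one_mul]
    rw [show p0 + d + (q0 + e) = p0 + q0 + (d + e) by ring]
  rw [← hg1]
  linarith

/-- Monotonicity in the first variable. -/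
theorem SS_anti_left {s1 s2 s3 p0 q0 p p' q : ℝ} (hs1 : 0 ≤ s1) (hs3 : 0 ≤ s3) (hp : p ≤ p')
    (h : ∀ t ∈ Ioo p p', 2 * (Lq s1 t - Lq s1 p0) ≤ Lq s3 (t + q) - Lq s3 (p0 + q0)) :
    SS s1 s2 s3 p0 q0 p' q ≤ SS s1 s2 s3 p0 q0 p q := by
  have e1 := Dq_sub hs1 p0 p p'
  have e3 := Dq_sub hs3 (p0 + q0) (p + q) (p' + q)
  rw [← intervalIntegral.integral_comp_add_right] at e3
  have i1 : IntervalIntegrable (fun t => 2 * (Lq s1 t - Lq s1 p0)) volume p p' :=
    ((Lq_int hs1 p p').sub (by simp)).const_mul 2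
  have i3 : IntervalIntegrable (fun t => Lq s3 (t + q) - Lq s3 (p0 + q0)) volume p p' := by
    have h5 := (Lq_int hs3 (p + q) (p' + q)).comp_add_right q
    simp only [add_sub_cancel_right] at h5
    exact h5.sub (by simp)
  have h6 := intervalIntegral.integral_mono_on_of_le_Ioo hp i1 i3 (fun t ht => h t ht)
  rw [intervalIntegral.integral_const_mul, ← e1, ← e3] at h6
  unfold SS
  linarith

theorem SS_swap (s1 s2 s3 p0 q0 p q : ℝ) : SS s1 s2 s3 p0 q0 p q = SS s2 s1 s3 q0 p0 q p := by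
  unfold SS
  rw [add_comm p q, add_comm p0 q0]
  ring

theorem SS_anti_right {s1 s2 s3 p0 q0 p q q' : ℝ} (hs2 : 0 ≤ s2) (hs3 : 0 ≤ s3) (hq : q ≤ q')
    (h : ∀ t ∈ Ioo q q', 2 * (Lq s2 t - Lq s2 q0) ≤ Lq s3 (p + t) - Lq s3 (p0 + q0)) :
    SS s1 s2 s3 p0 q0 p q' ≤ SS s1 s2 s3 p0 q0 p q := by
  rw [SS_swap _ _ _ _ _ p q', SS_swap _ _ _ _ _ p q]
  apply SS_anti_left hs2 hs3 hq
  intro t ht
  rw [add_comm t p, add_comm q0 p0]
  exact h t ht

end Pool.Agent.S5.C2
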