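import Pool.Agent.S5.I.C2a

/-!
# Closed vertices with two half twists: the convex region and the strips
-/

set_option autoImplicit false

namespace Pool.Agent.S5.C2

open MeasureTheory Filter Topology Set

theorem Lp_nonneg {s t : ℝ} (hs : 0 ≤ s) (h0 : 0 ≤ t) (h1 : t ≤ 1 / 2) : 0 ≤ Lp s t := by
  have hpi := Real.pi_pos
  have h2 : 0 ≤ Real.sin (Real.pi * t) := Real.sin_nonneg_of_nonneg_of_le_pi (by positivity)
    (by linarith only [hpi, mul_nonneg (sub_nonneg.2 h1) (sub_nonneg.2 hpi.le)])
  have h3 : 0 ≤ Real.cos (Real.pi * t) := Real.cos_nonneg_of_neg_pi_div_two_le_of_le (by linarith only [hpi,
                                                                                           mul_nonneg (sub_nonneg.2 h0) (sub_nonneg.2 hpi.le)])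
    (by linarith only [mul_nonneg (sub_nonneg.2 h1) (sub_nonneg.2 hpi.le)])
  unfold Lp
  positivity

/-- The comparison of the second derivatives in the convex region. -/
theorem Lp_lt {s s3 a b p q : ℝ} (hs : 0 ≤ s) (hs3 : 0 ≤ s3) (ha : 0 < a) (hb : 0 < b)
    (k : s * Real.cos (Real.pi * (a + b)) < Real.sin (Real.pi * a) * Real.sin (Real.pi * b))
    (hap : a ≤ p) (hbq : b ≤ q) (hp : p < 1 / 2) (hq : q < 1 / 2) : Lp s3 (p + q) < Lp s p := by
  have hpi := Real.pi_pos
  have ex : Real.pi * (p + q) = Real.pi * p + Real.pi * q := by ring
  have hp0 : 0 < p := by linarith only [hap, ha]
  have hq0 : 0 < q := by linarith only [hbq, hb]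
  have s1 : 0 < Real.sin (Real.pi * p) := Real.sin_pos_of_pos_of_lt_pi (by positivity) (by linarith only [hpi,
                                                                                             mul_pos (sub_pos.2 hp) (sub_pos.2 hpi)])
  have s2 : 0 < Real.sin (Real.pi * q) := Real.sin_pos_of_pos_of_lt_pi (by positivity) (by linarith only [mul_pos (sub_pos.2 hq) (sub_pos.2 hpi),
                                                                                             mul_pos (sub_pos.2 hp) (sub_pos.2 hpi),
                                                                                             mul_nonneg (sub_nonneg.2 hap) (sub_nonneg.2 hpi.le),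
                                                                                             mul_pos (sub_pos.2 ha) (sub_pos.2 hpi)])
  have c1 : 0 < Real.cos (Real.pi * p) := Real.cos_pos_of_mem_Ioo ⟨by linarith only [hpi,
                                                                        mul_nonneg (sub_nonneg.2 hap) (sub_nonneg.2 hpi.le),
                                                                        mul_pos (sub_pos.2 ha) (sub_pos.2 hpi)], by linarith only [mul_pos (sub_pos.2 hp) (sub_pos.2 hpi)]⟩
  have sX : 0 < Real.sin (Real.pi * (p + q)) :=
    Real.sin_pos_of_pos_of_lt_pi (by positivity) (by linarith only [mul_pos (sub_pos.2 hq) (sub_pos.2 hpi),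
                                                       mul_pos (sub_pos.2 hp) (sub_pos.2 hpi)])
  have hpos : 0 < Real.sin (Real.pi * p) ^ 2 + s := by positivity
  have hL : 0 < Lp s p := by
    unfold Lp
    positivity
  rcases le_or_gt (Real.cos (Real.pi * (p + q))) 0 with hc | hc
  · have h1 : Lp s3 (p + q) ≤ 0 := by
      unfold Lp
      apply div_nonpos_of_nonpos_of_nonneg
      · have := mul_nonpos_of_nonneg_of_nonpos sX.le hc
        (refine le_of_not_gt fun hng => ?_; linarith only [mul_nonneg (sub_nonneg.2 hpi.le) (sub_nonneg.2 this),
          mul_pos (sub_pos.2 hng) (sub_pos.2 hp),
          mul_nonneg (sub_nonneg.2 hng.le) (sub_nonneg.2 hap),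
          mul_pos (sub_pos.2 hng) (sub_pos.2 ha)])
      · positivity
    linarith only [h1, hL]
  · -- `a + b ≤ p + q < 1 / 2`
    have hlt : p + q < 1 / 2 := by
      by_contra hge
      push Not at hge
      have h2 := Real.cos_nonpos_of_pi_div_two_le_of_le (x := Real.pi * (p + q)) (by (refine le_of_not_gt fun hng => ?_; linarith only [mul_nonneg (sub_nonneg.2 hpi.le) (sub_nonneg.2 hge),
                                                                                       mul_pos (sub_pos.2 hng) (sub_pos.2 hp),
                                                                                       mul_nonneg (sub_nonneg.2 hng.le) (sub_nonneg.2 hap),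
                                                                                       mul_pos (sub_pos.2 hng) (sub_pos.2 ha)]))
        (by (refine le_of_not_gt fun hng => ?_; linarith only [mul_pos (sub_pos.2 hq) (sub_pos.2 hpi),
              mul_pos (sub_pos.2 hp) (sub_pos.2 hpi),
              mul_nonneg (sub_nonneg.2 hap) (sub_nonneg.2 hpi.le),
              mul_pos (sub_pos.2 ha) (sub_pos.2 hpi), mul_pos (sub_pos.2 hng) (sub_pos.2 hp),
              mul_nonneg (sub_nonneg.2 hng.le) (sub_nonneg.2 hap),
              mul_pos (sub_pos.2 hng) (sub_pos.2 ha)]))
      linarith only [h2, hc]
    have m1 : Real.sin (Real.pi * a) ≤ Real.sin (Real.pi * p) :=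
      Real.sin_le_sin_of_le_of_le_pi_div_two (by (refine le_of_not_gt fun hng => ?_; linarith only [hpi,
                                                   mul_pos (sub_pos.2 ha) (sub_pos.2 hpi),
                                                   mul_pos (sub_pos.2 hng) (sub_pos.2 hlt),
                                                   mul_nonneg (sub_nonneg.2 hng.le) (sub_nonneg.2 hbq),
                                                   mul_nonneg (sub_nonneg.2 hng.le) (sub_nonneg.2 hap),
                                                   mul_pos (sub_pos.2 hng) (sub_pos.2 hb),
                                                   mul_pos (sub_pos.2 hng) (sub_pos.2 ha)])) (by (refine le_of_not_gt fun hng => ?_; linarith only [mul_pos (sub_pos.2 hp) (sub_pos.2 hpi),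
                                                                                                   mul_pos (sub_pos.2 hng) (sub_pos.2 hlt),
                                                                                                   mul_nonneg (sub_nonneg.2 hng.le) (sub_nonneg.2 hbq),
                                                                                                   mul_nonneg (sub_nonneg.2 hng.le) (sub_nonneg.2 hap),
                                                                                                   mul_pos (sub_pos.2 hng) (sub_pos.2 hb),
                                                                                                   mul_pos (sub_pos.2 hng) (sub_pos.2 ha)])) (by (refine le_of_not_gt fun hng => ?_; linarith only [mul_nonneg (sub_nonneg.2 hap) (sub_nonneg.2 hpi.le),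
                                                                                                                                                   mul_pos (sub_pos.2 hng) (sub_pos.2 hlt),
                                                                                                                                                   mul_nonneg (sub_nonneg.2 hng.le) (sub_nonneg.2 hbq),
                                                                                                                                                   mul_nonneg (sub_nonneg.2 hng.le) (sub_nonneg.2 hap),
                                                                                                                                                   mul_pos (sub_pos.2 hng) (sub_pos.2 hb),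
                                                                                                                                                   mul_pos (sub_pos.2 hng) (sub_pos.2 ha)]))
    have m2 : Real.sin (Real.pi * b) ≤ Real.sin (Real.pi * q) :=
      Real.sin_le_sin_of_le_of_le_pi_div_two (by (refine le_of_not_gt fun hng => ?_; linarith only [hpi,
                                                   mul_pos (sub_pos.2 hb) (sub_pos.2 hpi),
                                                   mul_pos (sub_pos.2 hng) (sub_pos.2 hlt),
                                                   mul_nonneg (sub_nonneg.2 hng.le) (sub_nonneg.2 hbq),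
                                                   mul_nonneg (sub_nonneg.2 hng.le) (sub_nonneg.2 hap),
                                                   mul_pos (sub_pos.2 hng) (sub_pos.2 hb),
                                                   mul_pos (sub_pos.2 hng) (sub_pos.2 ha)])) (by (refine le_of_not_gt fun hng => ?_; linarith only [mul_pos (sub_pos.2 hq) (sub_pos.2 hpi),
                                                                                                   mul_pos (sub_pos.2 hng) (sub_pos.2 hlt),
                                                                                                   mul_nonneg (sub_nonneg.2 hng.le) (sub_nonneg.2 hbq),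
                                                                                                   mul_nonneg (sub_nonneg.2 hng.le) (sub_nonneg.2 hap),
                                                                                                   mul_pos (sub_pos.2 hng) (sub_pos.2 hb),
                                                                                                   mul_pos (sub_pos.2 hng) (sub_pos.2 ha)])) (by (refine le_of_not_gt fun hng => ?_; linarith only [mul_nonneg (sub_nonneg.2 hbq) (sub_nonneg.2 hpi.le),
                                                                                                                                                   mul_pos (sub_pos.2 hng) (sub_pos.2 hlt),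
                                                                                                                                                   mul_nonneg (sub_nonneg.2 hng.le) (sub_nonneg.2 hbq),
                                                                                                                                                   mul_nonneg (sub_nonneg.2 hng.le) (sub_nonneg.2 hap),
                                                                                                                                                   mul_pos (sub_pos.2 hng) (sub_pos.2 hb),
                                                                                                                                                   mul_pos (sub_pos.2 hng) (sub_pos.2 ha)]))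
    have m3 : Real.cos (Real.pi * (p + q)) ≤ Real.cos (Real.pi * (a + b)) :=
      Real.cos_le_cos_of_nonneg_of_le_pi (by positivity) (by (refine le_of_not_gt fun hng => ?_; linarith only [mul_pos (sub_pos.2 hq) (sub_pos.2 hpi),
                                                               mul_pos (sub_pos.2 hp) (sub_pos.2 hpi),
                                                               mul_pos (sub_pos.2 hng) (sub_pos.2 hlt),
                                                               mul_nonneg (sub_nonneg.2 hng.le) (sub_nonneg.2 hbq),
                                                               mul_nonneg (sub_nonneg.2 hng.le) (sub_nonneg.2 hap),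
                                                               mul_pos (sub_pos.2 hng) (sub_pos.2 hb),
                                                               mul_pos (sub_pos.2 hng) (sub_pos.2 ha)])) (by (refine le_of_not_gt fun hng => ?_; linarith only [mul_nonneg (sub_nonneg.2 hbq) (sub_nonneg.2 hpi.le),
                                                                                                               mul_nonneg (sub_nonneg.2 hap) (sub_nonneg.2 hpi.le),
                                                                                                               mul_pos (sub_pos.2 hng) (sub_pos.2 hlt),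
                                                                                                               mul_nonneg (sub_nonneg.2 hng.le) (sub_nonneg.2 hbq),
                                                                                                               mul_nonneg (sub_nonneg.2 hng.le) (sub_nonneg.2 hap),
                                                                                                               mul_pos (sub_pos.2 hng) (sub_pos.2 hb),
                                                                                                               mul_pos (sub_pos.2 hng) (sub_pos.2 ha)]))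
    have sa : 0 < Real.sin (Real.pi * a) :=
      Real.sin_pos_of_pos_of_lt_pi (by positivity) (by linarith only [hpi,
                                                         mul_pos (sub_pos.2 hp) (sub_pos.2 hpi),
                                                         mul_nonneg (sub_nonneg.2 hap) (sub_nonneg.2 hpi.le)])
    have m4 : s * Real.cos (Real.pi * (p + q)) < Real.sin (Real.pi * p) * Real.sin (Real.pi * q) := by
      calc s * Real.cos (Real.pi * (p + q)) ≤ s * Real.cos (Real.pi * (a + b)) :=
            mul_le_mul_of_nonneg_left m3 hs
        _ < Real.sin (Real.pi * a) * Real.sin (Real.pi * b) := k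
        _ ≤ Real.sin (Real.pi * p) * Real.sin (Real.pi * q) := by
            apply mul_le_mul m1 m2 _ s1.le
            exact Real.sin_nonneg_of_nonneg_of_le_pi (by positivity) (by (refine le_of_not_gt fun hng => ?_; linarith only [mul_pos (sub_pos.2 hq) (sub_pos.2 hpi),
                                                                           mul_pos (sub_pos.2 hp) (sub_pos.2 hpi),
                                                                           mul_nonneg (sub_nonneg.2 hbq) (sub_nonneg.2 hpi.le),
                                                                           mul_nonneg (sub_nonneg.2 hap) (sub_nonneg.2 hpi.le),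
                                                                           mul_pos (sub_pos.2 ha) (sub_pos.2 hpi),
                                                                           mul_pos (sub_pos.2 hng) (sub_pos.2 hlt),
                                                                           mul_nonneg (sub_nonneg.2 hng.le) (sub_nonneg.2 hbq),
                                                                           mul_nonneg (sub_nonneg.2 hng.le) (sub_nonneg.2 hap),
                                                                           mul_pos (sub_pos.2 hng) (sub_pos.2 hb),
                                                                           mul_pos (sub_pos.2 hng) (sub_pos.2 ha)]))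
    have e1 : Real.sin (Real.pi * q) = Real.sin (Real.pi * (p + q)) * Real.cos (Real.pi * p) -
        Real.cos (Real.pi * (p + q)) * Real.sin (Real.pi * p) := by
      rw [← Real.sin_sub]
      congr 1
      ring
    have h5 : Lp s3 (p + q) ≤ Real.pi * Real.cos (Real.pi * (p + q)) /
        Real.sin (Real.pi * (p + q)) := by
      unfold Lp
      rw [div_le_div_iff₀ (by positivity) sX]
      have : 0 ≤ Real.pi * Real.cos (Real.pi * (p + q)) * s3 := by positivity
      linarith only [this]
    have h6 : Real.pi * Real.cos (Real.pi * (p + q)) / Real.sin (Real.pi * (p + q)) < Lp s p := by
      unfold Lp
      rw [div_lt_div_iff₀ sX hpos]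
      have h7 : Real.cos (Real.pi * (p + q)) * (Real.sin (Real.pi * p) ^ 2 + s) <
          Real.sin (Real.pi * p) * Real.cos (Real.pi * p) * Real.sin (Real.pi * (p + q)) := by
        have h8 : Real.sin (Real.pi * p) * Real.sin (Real.pi * q) =
            Real.sin (Real.pi * p) * Real.cos (Real.pi * p) * Real.sin (Real.pi * (p + q)) -
            Real.cos (Real.pi * (p + q)) * Real.sin (Real.pi * p) ^ 2 := by
          rw [e1]
          ring
        linarith only [h8, m4]
      linarith only [mul_pos (sub_pos.2 hpi) (sub_pos.2 h7)]
    linarith only [h6, h5]

theorem Lp_continuousAt {s t : ℝ} (h : 0 < Real.sin (Real.pi * t) ^ 2 + s) :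
    ContinuousAt (Lp s) t := by
  unfold Lp
  apply ContinuousAt.div
  · fun_prop
  · fun_prop
  · exact h.ne'

theorem form_ge {A B K κ d e : ℝ} (h1 : max 0 K + κ ≤ A) (h2 : max 0 K + κ ≤ B) :
    2 * κ * (d ^ 2 + e ^ 2) ≤ 2 * A * d ^ 2 + 2 * B * e ^ 2 - K * (d + e) ^ 2 := by
  have h3 : K * (d + e) ^ 2 ≤ max 0 K * (d + e) ^ 2 :=
    mul_le_mul_of_nonneg_right (le_max_right _ _) (sq_nonneg _)
  have h4 : 0 ≤ max 0 K * (d - e) ^ 2 := mul_nonneg (le_max_left _ _) (sq_nonneg _)
  linarith only [mul_le_mul_of_nonneg_right h2 (sq_nonneg e),
    mul_le_mul_of_nonneg_right h1 (sq_nonneg d), h4, h3]

/-- Positivity in the convex region. -/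
theorem SS_K {s1 s2 s3 p0 q0 a b : ℝ} (hs1 : 0 ≤ s1) (hs2 : 0 ≤ s2) (hs3 : 0 ≤ s3)
    (ha : 0 < a) (hb : 0 < b) (hap : a ≤ p0) (hbq : b ≤ q0) (hp0 : p0 < 1 / 2) (hq0 : q0 < 1 / 2)
    (k1 : s1 * Real.cos (Real.pi * (a + b)) < Real.sin (Real.pi * a) * Real.sin (Real.pi * b))
    (k2 : s2 * Real.cos (Real.pi * (a + b)) < Real.sin (Real.pi * a) * Real.sin (Real.pi * b)) :
    ∃ c > 0, ∀ p ∈ Icc a (1 / 2), ∀ q ∈ Icc b (1 / 2),
      c * ((p - p0) ^ 2 + (q - q0) ^ 2) ≤ SS s1 s2 s3 p0 q0 p q := by
  have hpi := Real.pi_pos
  have hlt1 : ∀ p q : ℝ, a ≤ p → b ≤ q → p < 1 / 2 → q < 1 / 2 → Lp s3 (p + q) < Lp s1 p :=
    fun p q h1 h2 h3 h4 => Lp_lt hs1 hs3 ha hb k1 h1 h2 h3 h4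
  have hlt2 : ∀ p q : ℝ, a ≤ p → b ≤ q → p < 1 / 2 → q < 1 / 2 → Lp s3 (p + q) < Lp s2 q := by
    intro p q h1 h2 h3 h4
    rw [add_comm]
    apply Lp_lt hs2 hs3 hb ha _ h2 h1 h4 h3
    rw [add_comm b a, mul_comm (Real.sin (Real.pi * b))]
    exact k2
  have hsin : ∀ {t : ℝ}, 0 < t → t < 1 → 0 < Real.sin (Real.pi * t) := fun h1 h2 =>
    Real.sin_pos_of_pos_of_lt_pi (by positivity) (by linarith only [mul_pos (sub_pos.2 hpi) (sub_pos.2 h2)])
  have hLpos : ∀ {s t : ℝ}, 0 ≤ s → 0 < t → t < 1 / 2 → 0 < Lp s t := by
    intro s t hs h1 h2
    have h3 := hsin h1 (by linarith only [h2, hp0, hap, ha])
    have h4 : 0 < Real.cos (Real.pi * t) := Real.cos_pos_of_mem_Ioo ⟨by linarith only [mul_pos (sub_pos.2 hpi) (sub_pos.2 h1),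
                                                                          mul_pos (sub_pos.2 hp0) (sub_pos.2 hpi),
                                                                          mul_nonneg (sub_nonneg.2 hap) (sub_nonneg.2 hpi.le),
                                                                          mul_pos (sub_pos.2 ha) (sub_pos.2 hpi)], by linarith only [mul_pos (sub_pos.2 hpi) (sub_pos.2 h2)]⟩
    unfold Lp
    positivity
  -- the compact rectangle
  set p1 := (p0 + 1 / 2) / 2 with hp1
  set q1 := (q0 + 1 / 2) / 2 with hq1
  have hp1' : p1 < 1 / 2 := by rw [hp1]; linarith only [hp0]
  have hq1' : q1 < 1 / 2 := by rw [hq1]; linarith only [hq0]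
  have hp1a : a ≤ p1 := by rw [hp1]; linarith only [hp0, hap]
  have hq1b : b ≤ q1 := by rw [hq1]; linarith only [hq0, hbq]
  have hcomp : IsCompact (Icc a p1 ×ˢ Icc b q1) := isCompact_Icc.prod isCompact_Icc
  have hne : (Icc a p1 ×ˢ Icc b q1).Nonempty := ⟨(a, b), ⟨⟨le_rfl, hp1a⟩, ⟨le_rfl, hq1b⟩⟩⟩
  have hmin : ∀ (s : ℝ) (π' : ℝ × ℝ → ℝ), Continuous π' → 0 ≤ s →
      (∀ z ∈ Icc a p1 ×ˢ Icc b q1, 0 < π' z ∧ π' z < 1 / 2 ∧ Lp s3 (z.1 + z.2) < Lp s (π' z)) →
      ∃ κ > 0, ∀ z ∈ Icc a p1 ×ˢ Icc b q1, max 0 (Lp s3 (z.1 + z.2)) + κ ≤ Lp s (π' z) := by
    intro s π' hc hs h
    have hcont : ContinuousOn (fun z : ℝ × ℝ => Lp s (π' z) - max 0 (Lp s3 (z.1 + z.2)))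
        (Icc a p1 ×ˢ Icc b q1) := by
      intro z hz
      obtain ⟨h1, h2, h3⟩ := h z hz
      have hz1 := hz.1
      have hz2 := hz.2
      simp only [mem_Icc] at hz1 hz2
      have e1 : ContinuousAt (fun z : ℝ × ℝ => Lp s (π' z)) z := by
        apply ContinuousAt.comp (f := π') (g := Lp s)
        · apply Lp_continuousAt
          have := hsin h1 (by linarith only [h2, hp1', hp1, hap, ha])
          positivity
        · exact hc.continuousAt
      have e2 : ContinuousAt (fun z : ℝ × ℝ => Lp s3 (z.1 + z.2)) z := by
        apply ContinuousAt.comp (f := fun z : ℝ × ℝ => z.1 + z.2) (g := Lp s3)
        · apply Lp_continuousAt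
          have := hsin (t := z.1 + z.2) (by linarith only [hz2.1, hz1.1, hb, ha]) (by linarith only [hz2.2,
                                                                                        hz1.2, hq1',
                                                                                        hp1'])
          positivity
        · fun_prop
      exact (e1.sub (continuousAt_const.max e2)).continuousWithinAt
    obtain ⟨z0, hz0, hm⟩ := hcomp.exists_isMinOn hne hcont
    refine ⟨Lp s (π' z0) - max 0 (Lp s3 (z0.1 + z0.2)), ?_, ?_⟩
    · obtain ⟨h1, h2, h3⟩ := h z0 hz0
      have h4 := hLpos hs h1 h2
      have h5 : max 0 (Lp s3 (z0.1 + z0.2)) < Lp s (π' z0) := max_lt h4 h3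
      show 0 < Lp s (π' z0) - max 0 (Lp s3 (z0.1 + z0.2))
      linarith only [h5]
    · intro z hz
      have h6 := hm hz
      simp only [mem_setOf_eq] at h6
      linarith only [h6]
  obtain ⟨κ1, hκ1, hk1⟩ := hmin s1 (fun z => z.1) continuous_fst hs1 (fun z hz => by
    have hz1 := hz.1
    have hz2 := hz.2
    simp only [mem_Icc] at hz1 hz2
    exact ⟨by linarith only [hz1.1, ha], by linarith only [hz1.2, hp1'], hlt1 _ _ hz1.1 hz2.1 (by linarith only [hz1.2,
                                                                                                    hp1']) (by linarith only [hz2.2,
                                                                                                                 hq1,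
                                                                                                                 hq0])⟩)
  obtain ⟨κ2, hκ2, hk2⟩ := hmin s2 (fun z => z.2) continuous_snd hs2 (fun z hz => by
    have hz1 := hz.1
    have hz2 := hz.2
    simp only [mem_Icc] at hz1 hz2
    exact ⟨by linarith only [hz2.1, hb], by linarith only [hz2.2, hq1, hq0], hlt2 _ _ hz1.1 hz2.1 (by linarith only [hz1.2,
                                                                                                        hp1']) (by linarith only [hz2.2,
                                                                                                                     hq1,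
                                                                                                                     hq0])⟩)
  set κ := min κ1 κ2 with hκ
  have hκ0 : 0 < κ := lt_min hκ1 hκ2
  refine ⟨κ / 4, by positivity, ?_⟩
  intro p hp q hq
  simp only [mem_Icc] at hp hq
  have hpr : ∀ r ∈ Ico (0 : ℝ) 1, a ≤ p0 + r * (p - p0) ∧ p0 + r * (p - p0) < 1 / 2 := by
    intro r hr
    obtain ⟨r0, r1⟩ := hr
    constructor
    · (refine le_of_not_gt fun hng => ?_; linarith only [mul_nonneg (sub_nonneg.2 hp.1) (sub_nonneg.2 r0),
        mul_nonneg (sub_nonneg.2 hap) (sub_nonneg.2 r1.le),
        mul_pos (sub_pos.2 hng) (sub_pos.2 hp1'),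
        mul_nonneg (sub_nonneg.2 hng.le) (sub_nonneg.2 hp1.le),
        mul_nonneg (sub_nonneg.2 hng.le) (sub_nonneg.2 hp1.ge),
        mul_nonneg (sub_nonneg.2 hng.le) (sub_nonneg.2 hap),
        mul_pos (sub_pos.2 hng) (sub_pos.2 ha)])
    · linarith only [mul_nonneg (sub_nonneg.2 hp.2) (sub_nonneg.2 r0),
        mul_pos (sub_pos.2 hp0) (sub_pos.2 r1)]
  have hqr : ∀ r ∈ Ico (0 : ℝ) 1, b ≤ q0 + r * (q - q0) ∧ q0 + r * (q - q0) < 1 / 2 := by
    intro r hr
    obtain ⟨r0, r1⟩ := hr
    constructor
    · (refine le_of_not_gt fun hng => ?_; linarith only [mul_nonneg (sub_nonneg.2 hq.1) (sub_nonneg.2 r0),
        mul_nonneg (sub_nonneg.2 hbq) (sub_nonneg.2 r1.le),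
        mul_pos (sub_pos.2 hng) (sub_pos.2 hp1'),
        mul_nonneg (sub_nonneg.2 hng.le) (sub_nonneg.2 hp1.le),
        mul_nonneg (sub_nonneg.2 hng.le) (sub_nonneg.2 hp1.ge),
        mul_nonneg (sub_nonneg.2 hng.le) (sub_nonneg.2 hap),
        mul_pos (sub_pos.2 hng) (sub_pos.2 ha)])
    · linarith only [mul_nonneg (sub_nonneg.2 hq.2) (sub_nonneg.2 r0),
        mul_pos (sub_pos.2 hq0) (sub_pos.2 r1)]
  have esum : ∀ r : ℝ, p0 + q0 + r * (p - p0 + (q - q0)) = (p0 + r * (p - p0)) + (q0 + r * (q - q0)) :=
    fun r => by ring
  have hseg := SS_segment (κ := 2 * κ * ((p - p0) ^ 2 + (q - q0) ^ 2)) (ρ := 1 / 2)
    (d := p - p0) (e := q - q0) hs1 hs2 hs3 (by norm_num) (by norm_num)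
    (p0 := p0) (q0 := q0)
    (fun r hr => by
      have h1 := hpr r hr
      have := hsin (t := p0 + r * (p - p0)) (by linarith only [h1.1, ha]) (by linarith only [h1.2,
                                                                                hp1', hp1, hap, ha])
      positivity)
    (fun r hr => by
      have h1 := hqr r hr
      have := hsin (t := q0 + r * (q - q0)) (by linarith only [h1.1, hb]) (by linarith only [h1.2,
                                                                                hp1', hp1, hap, ha])
      positivity)
    (fun r hr => by
      have h1 := hpr r hr
      have h2 := hqr r hr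
      rw [esum]
      have := hsin (t := p0 + r * (p - p0) + (q0 + r * (q - q0))) (by linarith only [h2.1, h1.1, hb,
                                                                        ha]) (by linarith only [h2.2,
                                                                                   h1.2])
      positivity)
    (fun r hr => by
      have h1 := hpr r ⟨hr.1.le, hr.2⟩
      have h2 := hqr r ⟨hr.1.le, hr.2⟩
      rw [esum]
      have h3 := hlt1 _ _ h1.1 h2.1 h1.2 h2.2
      have h4 := hlt2 _ _ h1.1 h2.1 h1.2 h2.2
      have h5 := hLpos hs1 (t := p0 + r * (p - p0)) (by linarith only [h1.1, ha]) h1.2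
      have h6 := hLpos hs2 (t := q0 + r * (q - q0)) (by linarith only [h2.1, hb]) h2.2
      have h10 : max 0 (Lp s3 (p0 + r * (p - p0) + (q0 + r * (q - q0)))) + 0 ≤
          Lp s1 (p0 + r * (p - p0)) := by
        rw [add_zero]
        exact (max_lt h5 h3).le
      have h11 : max 0 (Lp s3 (p0 + r * (p - p0) + (q0 + r * (q - q0)))) + 0 ≤
          Lp s2 (q0 + r * (q - q0)) := by
        rw [add_zero]
        exact (max_lt h6 h4).le
      have h7 := form_ge (d := p - p0) (e := q - q0) h10 h11
      linarith only [h7])
    (fun r hr => by
      have h1 := hpr r ⟨hr.1.le, by linarith only [hr.2, hp1', hp1, hap, ha]⟩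
      have h2 := hqr r ⟨hr.1.le, by linarith only [hr.2, hp1', hp1, hap, ha]⟩
      rw [esum]
      have h8 : p0 + r * (p - p0) ≤ p1 := by
        rw [hp1]
        (refine le_of_not_gt fun hng => ?_; linarith only [mul_nonneg (sub_nonneg.2 hp.2) (sub_nonneg.2 hr.1.le),
          mul_pos (sub_pos.2 hp0) (sub_pos.2 hr.2), mul_pos (sub_pos.2 hng) (sub_pos.2 h1.2),
          mul_nonneg (sub_nonneg.2 hng.le) (sub_nonneg.2 hap),
          mul_pos (sub_pos.2 hng) (sub_pos.2 ha), mul_pos (sub_pos.2 hng) (sub_pos.2 hng)])
      have h9 : q0 + r * (q - q0) ≤ q1 := by
        rw [hq1]
        linarith only [mul_nonneg (sub_nonneg.2 hq.2) (sub_nonneg.2 hr.1.le),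
          mul_pos (sub_pos.2 hq0) (sub_pos.2 hr.2)]
      have h3 := hk1 (p0 + r * (p - p0), q0 + r * (q - q0)) ⟨⟨h1.1, h8⟩, ⟨h2.1, h9⟩⟩
      have h4 := hk2 (p0 + r * (p - p0), q0 + r * (q - q0)) ⟨⟨h1.1, h8⟩, ⟨h2.1, h9⟩⟩
      simp only at h3 h4
      apply form_ge
      · linarith only [min_le_left κ1 κ2, h3]
      · linarith only [min_le_right κ1 κ2, h4])
  rw [show p0 + (p - p0) = p by ring, show q0 + (q - q0) = q by ring] at hseg
  linarith only [hseg]

end Pool.Agent.S5.C2
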