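import Pool.Agent.S5.I.C2b

/-!
# Closed vertices with two half twists: reduction to the convex region
-/

set_option autoImplicit false

namespace Pool.Agent.S5.C2

open MeasureTheory Filter Topology Set

/-- `sin² (π t)`. -/
noncomputable def Sn (t : ℝ) : ℝ := Real.sin (Real.pi * t) ^ 2

theorem Sn_nonneg (t : ℝ) : 0 ≤ Sn t := sq_nonneg _

theorem Sn_le_one (t : ℝ) : Sn t ≤ 1 := Real.sin_sq_le_one _

theorem Sn_pos {t : ℝ} (h0 : 0 < t) (h1 : t < 1) : 0 < Sn t := by
  have hpi := Real.pi_pos
  have := Real.sin_pos_of_pos_of_lt_pi (x := Real.pi * t) (by positivity) (by linarith only [mul_pos (sub_pos.2 h1) (sub_pos.2 hpi)])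
  unfold Sn
  positivity

theorem Sn_mono {t t' : ℝ} (h0 : 0 ≤ t) (h1 : t ≤ t') (h2 : t' ≤ 1 / 2) : Sn t ≤ Sn t' := by
  have hpi := Real.pi_pos
  unfold Sn
  apply pow_le_pow_left₀
  · exact Real.sin_nonneg_of_nonneg_of_le_pi (by positivity) (by linarith only [hpi,
                                                                   mul_nonneg (sub_nonneg.2 h2) (sub_nonneg.2 hpi.le),
                                                                   mul_nonneg (sub_nonneg.2 h1) (sub_nonneg.2 hpi.le)])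
  · exact Real.sin_le_sin_of_le_of_le_pi_div_two (by linarith only [hpi,
                                                       mul_nonneg (sub_nonneg.2 h0) (sub_nonneg.2 hpi.le)]) (by linarith only [mul_nonneg (sub_nonneg.2 h2) (sub_nonneg.2 hpi.le)]) (by linarith only [mul_nonneg (sub_nonneg.2 h1) (sub_nonneg.2 hpi.le)])

theorem Sn_one_sub (t : ℝ) : Sn (1 - t) = Sn t := by
  unfold Sn
  rw [show Real.pi * (1 - t) = Real.pi - Real.pi * t by ring, Real.sin_pi_sub]

/-- `sin²` on `[m, 1 - m]` is at least its value at `m`. -/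
theorem Sn_ge {m x : ℝ} (hm : 0 ≤ m) (h1 : m ≤ x) (h2 : x ≤ 1 - m) : Sn m ≤ Sn x := by
  rcases le_total x (1 / 2) with h | h
  · exact Sn_mono hm h1 h
  · rw [← Sn_one_sub x]
    exact Sn_mono hm (by linarith only [h2]) (by linarith only [h])

theorem Lq_eq (s t : ℝ) : Lq s t = Real.log (4 * (Sn t + s)) / 2 := rfl

/-- The direction condition. -/
theorem dir {s s3 t x p0 P0 : ℝ} (h0 : 0 < Sn t + s) (hA : 0 < Sn p0 + s) (h3 : 0 < Sn x + s3)
    (hB : 0 < Sn P0 + s3) (h : (Sn t + s) ^ 2 * (Sn P0 + s3) ≤ (Sn p0 + s) ^ 2 * (Sn x + s3)) :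
    2 * (Lq s t - Lq s p0) ≤ Lq s3 x - Lq s3 P0 := by
  simp only [Lq_eq]
  have e1 : Real.log (4 * (Sn t + s)) = Real.log 4 + Real.log (Sn t + s) :=
    Real.log_mul (by norm_num) h0.ne'
  have e2 : Real.log (4 * (Sn p0 + s)) = Real.log 4 + Real.log (Sn p0 + s) :=
    Real.log_mul (by norm_num) hA.ne'
  have e3 : Real.log (4 * (Sn x + s3)) = Real.log 4 + Real.log (Sn x + s3) :=
    Real.log_mul (by norm_num) h3.ne'
  have e4 : Real.log (4 * (Sn P0 + s3)) = Real.log 4 + Real.log (Sn P0 + s3) :=
    Real.log_mul (by norm_num) hB.ne'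
  have h5 := Real.log_le_log (by positivity) h
  rw [Real.log_mul (by positivity) hB.ne', Real.log_mul (by positivity) h3.ne', Real.log_pow,
    Real.log_pow] at h5
  push_cast at h5
  rw [e1, e2, e3, e4]
  linarith only [h5]

/-- Reduction of the square `[0, 1/2]²` to the convex region. -/
theorem SS_red {s1 s2 s3 p0 q0 a b h : ℝ} (hs1 : 0 ≤ s1) (hs2 : 0 ≤ s2) (hs3 : 0 ≤ s3)
    (ha : 0 < a) (hb : 0 < b) (hap : a < p0) (hbq : b < q0) (hp0 : p0 < 1 / 2) (hq0 : q0 < 1 / 2)
    (k1 : s1 * Real.cos (Real.pi * (a + b)) < Real.sin (Real.pi * a) * Real.sin (Real.pi * b))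
    (k2 : s2 * Real.cos (Real.pi * (a + b)) < Real.sin (Real.pi * a) * Real.sin (Real.pi * b))
    (hP : ∀ t ∈ Ioo 0 a, ∀ q ∈ Icc (0 : ℝ) (1 / 2), h ≤ t + q →
      (Sn t + s1) ^ 2 * (Sn (p0 + q0) + s3) ≤ (Sn p0 + s1) ^ 2 * (Sn (t + q) + s3))
    (hQ : ∀ t ∈ Ioo 0 b, ∀ p ∈ Icc a (1 / 2), h ≤ p + t →
      (Sn t + s2) ^ 2 * (Sn (p0 + q0) + s3) ≤ (Sn q0 + s2) ^ 2 * (Sn (p + t) + s3))
    (hC : ∃ c > 0, ∀ p q : ℝ, 0 ≤ p → 0 ≤ q → p + q < h → c ≤ SS s1 s2 s3 p0 q0 p q) :
    ∃ c > 0, ∀ p ∈ Icc (0 : ℝ) (1 / 2), ∀ q ∈ Icc (0 : ℝ) (1 / 2),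
      c * ((p - p0) ^ 2 + (q - q0) ^ 2) ≤ SS s1 s2 s3 p0 q0 p q := by
  obtain ⟨c1, hc1, hK⟩ := SS_K hs1 hs2 hs3 ha hb hap.le hbq.le hp0 hq0 k1 k2
  obtain ⟨c2, hc2, hC⟩ := hC
  have hA1 : 0 < Sn p0 + s1 := by
    have := Sn_pos (t := p0) (by linarith only [hap, ha]) (by linarith only [hp0, hap, ha])
    linarith only [this, hs1]
  have hA2 : 0 < Sn q0 + s2 := by
    have := Sn_pos (t := q0) (by linarith only [hbq, hb]) (by linarith only [hq0, hp0, hap, ha])
    linarith only [this, hs2]
  have hB : 0 < Sn (p0 + q0) + s3 := by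
    have := Sn_pos (t := p0 + q0) (by linarith only [hbq, hap, hb, ha]) (by linarith only [hq0, hp0])
    linarith only [this, hs3]
  set c := min c2 (c1 * (min ((p0 - a) ^ 2) ((q0 - b) ^ 2))) with hc
  have hd1 : 0 < (p0 - a) ^ 2 := by
    have : 0 < p0 - a := by linarith only [hap]
    positivity
  have hd2 : 0 < (q0 - b) ^ 2 := by
    have : 0 < q0 - b := by linarith only [hbq]
    positivity
  have hcpos : 0 < c := by
    rw [hc]
    exact lt_min hc2 (mul_pos hc1 (lt_min hd1 hd2))
  refine ⟨min c c1, lt_min hcpos hc1, ?_⟩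
  intro p hp q hq
  simp only [mem_Icc] at hp hq
  have hdist : (p - p0) ^ 2 + (q - q0) ^ 2 ≤ 1 := by
    have h1 : (p - p0) ^ 2 ≤ (1 / 2) ^ 2 := sq_le_sq' (by linarith only [hp.1, hp0]) (by linarith only [hp.2,
                                                                                           hap, ha])
    have h2 : (q - q0) ^ 2 ≤ (1 / 2) ^ 2 := sq_le_sq' (by linarith only [hq.1, hq0]) (by linarith only [hq.2,
                                                                                           hbq, hb])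
    linarith only [h2, h1, hp0, hap, ha]
  have hd0 : 0 ≤ (p - p0) ^ 2 + (q - q0) ^ 2 := by positivity
  rcases lt_or_ge (p + q) h with hh | hh
  · have h3 := hC p q hp.1 hq.1 hh
    have h4 : min c c1 * ((p - p0) ^ 2 + (q - q0) ^ 2) ≤ min c c1 * 1 :=
      mul_le_mul_of_nonneg_left hdist (lt_min hcpos hc1).le
    have h5 : min c c1 ≤ c := min_le_left _ _
    have h6 : c ≤ c2 := min_le_left _ _
    linarith only [h6, h5, h4, h3]
  · by_cases hin : a ≤ p ∧ b ≤ q
    · have h3 := hK p ⟨hin.1, hp.2⟩ q ⟨hin.2, hq.2⟩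
      have h4 : min c c1 * ((p - p0) ^ 2 + (q - q0) ^ 2) ≤ c1 * ((p - p0) ^ 2 + (q - q0) ^ 2) :=
        mul_le_mul_of_nonneg_right (min_le_right _ _) hd0
      linarith only [h4, h3]
    · -- move `p` to `max p a`, then `q` to `max q b`
      have hstep1 : SS s1 s2 s3 p0 q0 (max p a) q ≤ SS s1 s2 s3 p0 q0 p q := by
        apply SS_anti_left hs1 hs3 (le_max_left _ _)
        intro t ht
        have ht0 : 0 < t := by linarith only [ht.1, hp.1]
        have hta : t < a := by
          rcases le_total p a with h7 | h7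
          · rw [max_eq_right h7] at ht
            exact ht.2
          · rw [max_eq_left h7] at ht
            exact absurd ht.2 (not_lt.2 ht.1.le)
        apply dir _ hA1 _ hB (hP t ⟨ht0, hta⟩ q hq (by linarith only [ht.1, hh]))
        · have := Sn_pos (t := t) ht0 (by linarith only [hta, hp0, hap, ha])
          linarith only [this, hs1]
        · have := Sn_pos (t := t + q) (by linarith only [ht0, hq.1]) (by linarith only [hta, hq.2,
                                                                           hp0, hap])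
          linarith only [this, hs3]
      have hstep2 : SS s1 s2 s3 p0 q0 (max p a) (max q b) ≤ SS s1 s2 s3 p0 q0 (max p a) q := by
        apply SS_anti_right hs2 hs3 (le_max_left _ _)
        intro t ht
        have ht0 : 0 < t := by linarith only [ht.1, hq.1]
        have htb : t < b := by
          rcases le_total q b with h7 | h7
          · rw [max_eq_right h7] at ht
            exact ht.2
          · rw [max_eq_left h7] at ht
            exact absurd ht.2 (not_lt.2 ht.1.le)
        have hm1 : max p a ≤ 1 / 2 := max_le hp.2 (by linarith only [hp0, hap])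
        have hm2 : a ≤ max p a := le_max_right _ _
        have hm3 : p ≤ max p a := le_max_left _ _
        apply dir _ hA2 _ hB (hQ t ⟨ht0, htb⟩ (max p a) ⟨hm2, hm1⟩ (by linarith only [ht.1, hm3, hh]))
        · have := Sn_pos (t := t) ht0 (by linarith only [htb, hq0, hp0, hbq, hap, ha])
          linarith only [this, hs2]
        · have := Sn_pos (t := max p a + t) (by linarith only [hm2, ht0, ha]) (by linarith only [hm1,
                                                                                    htb, hq0, hbq])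
          linarith only [this, hs3]
      have h3 := hK (max p a) ⟨le_max_right _ _, max_le hp.2 (by linarith only [hp0, hap])⟩ (max q b)
        ⟨le_max_right _ _, max_le hq.2 (by linarith only [hq0, hbq])⟩
      have h8 : min ((p0 - a) ^ 2) ((q0 - b) ^ 2) ≤ (max p a - p0) ^ 2 + (max q b - q0) ^ 2 := by
        rw [not_and_or, not_le, not_le] at hin
        rcases hin with h9 | h9
        · rw [max_eq_right h9.le]
          have : (a - p0) ^ 2 = (p0 - a) ^ 2 := by ring
          rw [this]
          have := min_le_left ((p0 - a) ^ 2) ((q0 - b) ^ 2)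
          linarith only [sq_nonneg (max q b - q0), this]
        · rw [max_eq_right h9.le]
          have : (b - q0) ^ 2 = (q0 - b) ^ 2 := by ring
          rw [this]
          have := min_le_right ((p0 - a) ^ 2) ((q0 - b) ^ 2)
          linarith only [sq_nonneg (max p a - p0), this]
      have h4 : min c c1 * ((p - p0) ^ 2 + (q - q0) ^ 2) ≤ min c c1 * 1 :=
        mul_le_mul_of_nonneg_left hdist (lt_min hcpos hc1).le
      have h5 : min c c1 ≤ c := min_le_left _ _
      have h6 : c ≤ c1 * (min ((p0 - a) ^ 2) ((q0 - b) ^ 2)) := min_le_right _ _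
      have h10 : c1 * (min ((p0 - a) ^ 2) ((q0 - b) ^ 2)) ≤
          c1 * ((max p a - p0) ^ 2 + (max q b - q0) ^ 2) := mul_le_mul_of_nonneg_left h8 hc1.le
      linarith only [h10, h6, h5, h4, h3, hstep2, hstep1]

end Pool.Agent.S5.C2
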