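import Pool.Agent.S5.I.C2c

/-!
# Closed vertices with two half twists: the corner
-/

set_option autoImplicit false

namespace Pool.Agent.S5.C2

open MeasureTheory Filter Topology Set

open Pool.Agent.S3 in
theorem Dq_zero_half : Dq 0 (1 / 2) 0 = Real.log 2 / 2 := by
  have h := Dq_eq 0 (1 / 2) 0
  rw [mul_zero, Real.sinh_zero] at h
  rw [show (0 : ℝ) ^ 2 = 0 by norm_num] at h
  rw [h]
  have e1 : Rf ((((0 : ℝ)) : ℂ) + ((0 : ℝ) : ℂ) * Complex.I) = 0 := by
    have h2 := Rf_neg 0
    have e2 : (((0 : ℝ)) : ℂ) + ((0 : ℝ) : ℂ) * Complex.I = 0 := by simp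
    rw [e2]
    simp only [neg_zero, Complex.zero_im, abs_zero, mul_zero, sub_zero] at h2
    linarith only [h2]
  have e2 := Rf_half 0
  rw [e1, e2, Lg_eq_Lq, Lq_eq]
  unfold Sn
  rw [mul_zero, Real.sinh_zero, show Real.pi * (1 / 2) = Real.pi / 2 by ring, Real.sin_pi_div_two]
  norm_num
  rw [show (4 : ℝ) = 2 ^ 2 by norm_num, Real.log_pow]
  push_cast
  ring

theorem Lq_mono_s {s s' t : ℝ} (hs : 0 ≤ s) (h : s ≤ s') (h0 : 0 < Sn t) : Lq s t ≤ Lq s' t := by
  simp only [Lq_eq]
  have := Real.log_le_log (x := 4 * (Sn t + s)) (y := 4 * (Sn t + s')) (by positivity) (by linarith only [h])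
  linarith only [this]

/-- The difference of two densities decreases with the height. -/
theorem Lq_sub_anti {s s' t r : ℝ} (hs : 0 ≤ s) (h : s ≤ s') (h0 : 0 < Sn t) (h1 : Sn t ≤ Sn r) :
    Lq s' r - Lq s' t ≤ Lq s r - Lq s t := by
  simp only [Lq_eq]
  have hr : 0 < Sn r := by linarith only [h1, h0]
  have hs' : 0 ≤ s' := hs.trans h
  have h2 : Real.log (4 * (Sn r + s')) + Real.log (4 * (Sn t + s)) ≤
      Real.log (4 * (Sn r + s)) + Real.log (4 * (Sn t + s')) := by
    rw [← Real.log_mul (by positivity) (by positivity), ← Real.log_mul (by positivity)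
      (by positivity)]
    apply Real.log_le_log (by positivity)
    linarith only [mul_nonneg (sub_nonneg.2 h) (sub_nonneg.2 h1)]
  linarith only [h2]

/-- The defect decreases when the height increases and the base point moves to the left. -/
theorem Dq_ge {s s' r x0 x : ℝ} (hs : 0 ≤ s) (h : s ≤ s') (hx : 0 ≤ x) (hxr : x ≤ r)
    (hr : r ≤ x0) (hx0 : x0 ≤ 1 / 2) : Dq s' r x ≤ Dq s x0 x := by
  have e1 : Dq s' r x = ∫ t in x..r, (Lq s' r - Lq s' t) := by
    unfold Dq
    rw [intervalIntegral.integral_symm, ← intervalIntegral.integral_neg]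
    apply intervalIntegral.integral_congr
    intro t _
    simp only
    ring
  have e2 : Dq s x0 x = ∫ t in x..x0, (Lq s x0 - Lq s t) := by
    unfold Dq
    rw [intervalIntegral.integral_symm, ← intervalIntegral.integral_neg]
    apply intervalIntegral.integral_congr
    intro t _
    simp only
    ring
  have hi : ∀ (s c a b : ℝ), 0 ≤ s → IntervalIntegrable (fun t => c - Lq s t) volume a b :=
    fun s c a b hs => (intervalIntegrable_const).sub (Lq_int hs a b)
  rw [e1, e2, ← intervalIntegral.integral_add_adjacent_intervals (hi s _ x r hs) (hi s _ r x0 hs)]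
  have h1 : ∫ t in x..r, (Lq s' r - Lq s' t) ≤ ∫ t in x..r, (Lq s x0 - Lq s t) := by
    apply intervalIntegral.integral_mono_on_of_le_Ioo hxr (hi s' _ _ _ (hs.trans h)) (hi s _ _ _ hs)
    intro t ht
    have h0 : 0 < Sn t := Sn_pos (by linarith only [ht.1, hx]) (by linarith only [ht.2, hx0, hr])
    have h3 := Lq_sub_anti hs h h0 (Sn_mono (t := t) (t' := r) (by linarith only [ht.1, hx]) ht.2.le
      (by linarith only [hx0, hr]))
    have h4 : Lq s r ≤ Lq s x0 := by
      simp only [Lq_eq]
      have h5 : Sn r ≤ Sn x0 := Sn_mono (by linarith only [hxr, hx]) hr hx0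
      have h6 : 0 < Sn r := Sn_pos (by linarith only [ht.2, ht.1, hx]) (by linarith only [hx0, hr])
      have := Real.log_le_log (x := 4 * (Sn r + s)) (y := 4 * (Sn x0 + s)) (by positivity)
        (by linarith only [h5])
      linarith only [this]
    linarith only [h4, h3]
  have h2 : 0 ≤ ∫ t in r..x0, (Lq s x0 - Lq s t) := by
    rcases hr.eq_or_lt with h7 | h7
    · rw [h7, intervalIntegral.integral_same]
    have h8 : ∫ t in r..x0, (0 : ℝ) ≤ ∫ t in r..x0, (Lq s x0 - Lq s t) := by
      apply intervalIntegral.integral_mono_on_of_le_Ioo hr (by simp) (hi s _ _ _ hs)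
      intro t ht
      simp only [Lq_eq]
      have h5 : Sn t ≤ Sn x0 := Sn_mono (by linarith only [ht.1, hxr, hx]) ht.2.le hx0
      have h6 : 0 < Sn t := Sn_pos (by linarith only [ht.1, hxr, hx]) (by linarith only [ht.2, h7,
                                                                            hx0, hxr, hx])
      have := Real.log_le_log (x := 4 * (Sn t + s)) (y := 4 * (Sn x0 + s)) (by positivity)
        (by linarith only [h5])
      linarith only [this]
    simpa using h8
  linarith only [h2, h1]

/-- A linear lower bound near `0`. -/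
theorem Dq_lin {s r x : ℝ} (hs : 0 < s) (hx : 0 ≤ x) (hxr : x ≤ r) (hr : r ≤ 1 / 2) :
    Dq s r 0 - x * (Real.log ((Sn r + s) / s) / 2) ≤ Dq s r x := by
  have e1 := Dq_sub hs.le r 0 x
  have h1 : ∫ t in (0 : ℝ)..x, (-(Real.log ((Sn r + s) / s) / 2)) ≤
      ∫ t in (0 : ℝ)..x, (Lq s t - Lq s r) := by
    apply intervalIntegral.integral_mono_on hx (by simp) ((Lq_int hs.le 0 x).sub (by simp))
    intro t ht
    simp only [Lq_eq]
    have h2 : 0 ≤ Sn t := Sn_nonneg t
    have h3 : 0 ≤ Sn r := Sn_nonneg r
    rw [Real.log_div (by positivity) hs.ne', Real.log_mul (by norm_num) (by positivity),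
      Real.log_mul (by norm_num) (by positivity)]
    have := Real.log_le_log (x := s) (y := Sn t + s) hs (by linarith only [h2])
    linarith only [this]
  rw [← e1, intervalIntegral.integral_const, smul_eq_mul] at h1
  linarith only [h1]

/-- The defect of the sum of the two edges is bounded by that of the real line. -/
theorem Dq_three {s P0 P : ℝ} (hs : 0 ≤ s) (h0 : 0 < P0) (h1 : P0 < 1) (hP : 0 ≤ P)
    (hP1 : P ≤ 1 / 2) (hPP : P ≤ P0) :
    Dq s P0 P ≤ Real.log 2 / 2 - P * (1 - Real.log (Real.pi * P)) := by
  have hpi := Real.pi_pos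
  -- the comparison integral
  have hi : ∀ (s c a b : ℝ), 0 ≤ s → IntervalIntegrable (fun t => c - Lq s t) volume a b :=
    fun s c a b hs => (intervalIntegrable_const).sub (Lq_int hs a b)
  have e2 : Dq s P0 P = ∫ t in P..P0, (Lq s P0 - Lq s t) := by
    unfold Dq
    rw [intervalIntegral.integral_symm, ← intervalIntegral.integral_neg]
    apply intervalIntegral.integral_congr
    intro t _
    simp only
    ring
  have hcmp : ∀ t : ℝ, 0 < t → t < 1 → Lq s P0 - Lq s t ≤ Real.log 2 - Lq 0 t := by
    intro t ht0 ht1
    have h3 := Sn_pos ht0 ht1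
    have h4 : Sn P0 ≤ 1 := Sn_le_one _
    have h5 : 0 < Sn P0 := Sn_pos h0 h1
    simp only [Lq_eq, add_zero]
    have h6 : Real.log 2 = Real.log 4 / 2 := by
      rw [show (4 : ℝ) = 2 ^ 2 by norm_num, Real.log_pow]
      push_cast
      ring
    have h7 : Real.log (4 * (Sn P0 + s)) + Real.log (4 * Sn t) ≤
        Real.log 4 + Real.log (4 * (Sn t + s)) := by
      rw [← Real.log_mul (by positivity) (by positivity), ← Real.log_mul (by positivity)
        (by positivity)]
      apply Real.log_le_log (by positivity)
      have : Sn P0 * Sn t ≤ 1 * Sn t := mul_le_mul_of_nonneg_right h4 h3.le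
      have : Sn t * s ≤ 1 * s := mul_le_mul_of_nonneg_right (Sn_le_one t) hs
      linarith [this]
    rw [h6]
    linarith only [h7]
  have h8 : Dq s P0 P ≤ ∫ t in P..(1 / 2 : ℝ), (Real.log 2 - Lq 0 t) := by
    rw [e2]
    rcases le_total P0 (1 / 2) with h | h
    · have h9 : ∫ t in P..P0, (Lq s P0 - Lq s t) ≤ ∫ t in P..P0, (Real.log 2 - Lq 0 t) := by
        apply intervalIntegral.integral_mono_on_of_le_Ioo hPP (hi s _ _ _ hs) (hi 0 _ _ _ le_rfl)
        intro t ht
        exact hcmp t (by linarith only [ht.1, hP]) (by linarith only [ht.2, h1])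
      have h10 : 0 ≤ ∫ t in P0..(1 / 2 : ℝ), (Real.log 2 - Lq 0 t) := by
        have h11 : ∫ t in P0..(1 / 2 : ℝ), (0 : ℝ) ≤ ∫ t in P0..(1 / 2 : ℝ), (Real.log 2 - Lq 0 t) := by
          apply intervalIntegral.integral_mono_on_of_le_Ioo h (by simp) (hi 0 _ _ _ le_rfl)
          intro t ht
          have h12 := Sn_pos (t := t) (by linarith only [ht.1, h0]) (by linarith only [ht.2, h1, h0])
          have h13 := Real.log_le_log (x := 4 * (Sn t + 0)) (y := 4) (by linarith only [h12])
            (by linarith only [Sn_le_one t])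
          simp only [Lq_eq]
          have h6 : Real.log 2 = Real.log 4 / 2 := by
            rw [show (4 : ℝ) = 2 ^ 2 by norm_num, Real.log_pow]
            push_cast
            ring
          rw [h6]
          linarith only [h13]
        simpa using h11
      rw [← intervalIntegral.integral_add_adjacent_intervals (hi 0 _ P P0 le_rfl)
        (hi 0 _ P0 _ le_rfl)]
      linarith only [h10, h9]
    · rw [← intervalIntegral.integral_add_adjacent_intervals (hi s _ P (1 / 2) hs)
        (hi s _ (1 / 2) P0 hs)]
      have h9 : ∫ t in P..(1 / 2 : ℝ), (Lq s P0 - Lq s t) ≤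
          ∫ t in P..(1 / 2 : ℝ), (Real.log 2 - Lq 0 t) := by
        apply intervalIntegral.integral_mono_on_of_le_Ioo hP1 (hi s _ _ _ hs) (hi 0 _ _ _ le_rfl)
        intro t ht
        exact hcmp t (by linarith only [ht.1, hP]) (by linarith only [ht.2, h1, h0])
      have h10 : ∫ t in (1 / 2 : ℝ)..P0, (Lq s P0 - Lq s t) ≤ ∫ t in (1 / 2 : ℝ)..P0, (0 : ℝ) := by
        apply intervalIntegral.integral_mono_on_of_le_Ioo h (hi s _ _ _ hs) (by simp)
        intro t ht
        have h12 : Sn P0 ≤ Sn t := by
          rw [← Sn_one_sub t, ← Sn_one_sub P0]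
          exact Sn_mono (by linarith only [h1]) (by linarith only [ht.2]) (by linarith only [ht.1])
        have h5 : 0 < Sn P0 := Sn_pos h0 h1
        have h13 := Real.log_le_log (x := 4 * (Sn P0 + s)) (y := 4 * (Sn t + s)) (by positivity)
          (by linarith only [h12])
        simp only [Lq_eq]
        linarith only [h13]
      simp only [intervalIntegral.integral_zero] at h10
      linarith only [h10, h9]
  -- the real line
  have h14 : ∫ t in (0 : ℝ)..(1 / 2 : ℝ), (Real.log 2 - Lq 0 t) = Real.log 2 / 2 := by
    rw [← Dq_zero_half]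
    unfold Dq
    rw [intervalIntegral.integral_symm 0 (1 / 2), ← intervalIntegral.integral_neg]
    apply intervalIntegral.integral_congr
    intro t _
    simp only
    have : Lq 0 (1 / 2) = Real.log 2 := by
      rw [Lq_eq]
      unfold Sn
      rw [show Real.pi * (1 / 2) = Real.pi / 2 by ring, Real.sin_pi_div_two,
        show 4 * ((1 : ℝ) ^ 2 + 0) = 2 ^ 2 by norm_num, Real.log_pow]
      push_cast
      ring
    rw [this]
    ring
  have h15 : P * (1 - Real.log (Real.pi * P)) ≤ ∫ t in (0 : ℝ)..P, (Real.log 2 - Lq 0 t) := by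
    rcases hP.eq_or_lt with hP0 | hP
    · rw [← hP0, intervalIntegral.integral_same, zero_mul]
    have e5 : ∫ t in (0 : ℝ)..P, (-Real.log (Real.pi * t)) = P * (1 - Real.log (Real.pi * P)) := by
      rw [intervalIntegral.integral_neg, intervalIntegral.integral_comp_mul_left (fun t => Real.log t)
        hpi.ne', integral_log, smul_eq_mul]
      simp only [mul_zero, Real.log_zero, zero_mul, sub_zero, add_zero]
      field_simp
      ring
    rw [← e5]
    apply intervalIntegral.integral_mono_on_of_le_Ioo hP.le
    · apply IntervalIntegrable.neg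
      have h20 := (intervalIntegral.intervalIntegrable_log' (a := Real.pi * 0) (b := Real.pi * P))
      have h21 := h20.comp_mul_left (c := Real.pi)
      simpa [mul_div_cancel_left₀ _ hpi.ne'] using h21
    · exact hi 0 _ _ _ le_rfl
    · intro t ht
      have ht0 := ht.1
      have h12 := Sn_pos (t := t) (by linarith only [ht0]) (by linarith only [ht.2, hP1, h1, h0])
      have h16 : Sn t ≤ (Real.pi * t) ^ 2 := by
        unfold Sn
        apply pow_le_pow_left₀
        · exact Real.sin_nonneg_of_nonneg_of_le_pi (by positivity) (by (refine le_of_not_gt fun hng => ?_; linarith only [mul_pos (sub_pos.2 hpi) (sub_pos.2 ht.2),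
                                                                         mul_nonneg (sub_nonneg.2 hP1) (sub_nonneg.2 hpi.le),
                                                                         mul_pos (sub_pos.2 h1) (sub_pos.2 hpi),
                                                                         mul_pos (sub_pos.2 h0) (sub_pos.2 hpi),
                                                                         mul_pos (sub_pos.2 hng) (sub_pos.2 ht.2),
                                                                         mul_pos (sub_pos.2 hng) (sub_pos.2 ht0),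
                                                                         mul_nonneg (sub_nonneg.2 hng.le) (sub_nonneg.2 hP1)]))
        · exact Real.sin_le (by positivity)
      have h17 := Real.log_le_log (x := 4 * (Sn t + 0)) (y := 2 ^ 2 * (Real.pi * t) ^ 2) (by linarith only [h12])
        (by linarith only [h16])
      have h18 : Real.log (2 ^ 2 * (Real.pi * t) ^ 2) = 2 * Real.log 2 + 2 * Real.log (Real.pi * t) := by
        rw [Real.log_mul (by norm_num) (by positivity), Real.log_pow, Real.log_pow]
        push_cast
        ring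
      rw [h18] at h17
      simp only [Lq_eq]
      linarith only [h17]
  have h18 := intervalIntegral.integral_add_adjacent_intervals (hi 0 (Real.log 2) 0 P le_rfl)
    (hi 0 (Real.log 2) P (1 / 2) le_rfl)
  linarith only [h18, h15, h14, h8]

/-- Positivity in the corner. -/
theorem SS_corner {s1 s2 s3 p0 q0 r1 r2 σ1 σ2 h : ℝ} (hs1 : 0 ≤ s1) (hs2 : 0 ≤ s2) (hs3 : 0 ≤ s3)
    (h1 : s1 ≤ σ1) (h2 : s2 ≤ σ2) (hσ1 : 0 < σ1) (hσ2 : 0 < σ2) (hr1 : r1 ≤ p0) (hr2 : r2 ≤ q0)
    (hp0 : p0 < 1 / 2) (hq0 : q0 < 1 / 2) (hh1 : h ≤ r1) (hh2 : h ≤ r2) (hh : 0 < h)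
    (e1 : (Sn r1 + σ1) * (Real.pi * h) ≤ Real.exp 1 * σ1)
    (e2 : (Sn r2 + σ2) * (Real.pi * h) ≤ Real.exp 1 * σ2) (p q : ℝ) (hp : 0 ≤ p) (hq : 0 ≤ q)
    (hpq : p + q < h) :
    2 * (Dq σ1 r1 0 + Dq σ2 r2 0) - Real.log 2 / 2 ≤ SS s1 s2 s3 p0 q0 p q := by
  have hpi := Real.pi_pos
  have a1 := Dq_ge hs1 h1 hp (by linarith only [hpq, hq, hh1]) hr1 hp0.le
  have a2 := Dq_ge hs2 h2 hq (by linarith only [hpq, hp, hh2]) hr2 hq0.le
  have b1 := Dq_lin (r := r1) hσ1 hp (by linarith only [hpq, hq, hh1]) (by linarith only [hp0, hr1])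
  have b2 := Dq_lin (r := r2) hσ2 hq (by linarith only [hpq, hp, hh2]) (by linarith only [hq0, hr2])
  have c3 := Dq_three (P0 := p0 + q0) (P := p + q) hs3 (by linarith only [hh, hh2, hh1, hr2, hr1]) (by linarith only [hq0,
                                                                                                         hp0]) (by linarith only [hq,
                                                                                                                     hp])
    (by linarith only [hpq, hh1, hp0, hr1]) (by linarith only [hpq, hh, hh2, hh1, hr2, hr1])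
  have hlog : ∀ {r σ : ℝ}, 0 < σ → (Sn r + σ) * (Real.pi * h) ≤ Real.exp 1 * σ →
      Real.log ((Sn r + σ) / σ) ≤ 1 - Real.log (Real.pi * h) := by
    intro r σ hσ he
    have h3 := Sn_nonneg r
    have h4 : (Sn r + σ) / σ ≤ Real.exp 1 / (Real.pi * h) := by
      rw [div_le_div_iff₀ hσ (by positivity)]
      exact he
    have h5 := Real.log_le_log (by positivity) h4
    rw [Real.log_div (Real.exp_pos 1).ne' (by positivity), Real.log_exp] at h5
    exact h5
  have l1 := hlog hσ1 e1
  have l2 := hlog hσ2 e2
  rcases (add_nonneg hp hq).eq_or_lt with h0 | h0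
  · have hp00 : p = 0 := by linarith only [hp, h0, hq]
    have hq00 : q = 0 := by linarith only [hq, h0, hp]
    rw [hp00] at a1 b1 ⊢
    rw [hq00] at a2 b2 ⊢
    rw [← h0] at c3
    unfold SS
    rw [show (0 : ℝ) + 0 = 0 by norm_num]
    linarith only [c3, a2, a1]
  · have l3 : Real.log (Real.pi * (p + q)) ≤ Real.log (Real.pi * h) :=
      Real.log_le_log (by positivity) (by (refine le_of_not_gt fun hng => ?_; linarith only [mul_pos (sub_pos.2 hpq) (sub_pos.2 hpi),
                                            mul_pos (sub_pos.2 hng) (sub_pos.2 h0),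
                                            mul_pos (sub_pos.2 hng) (sub_pos.2 hpq),
                                            mul_nonneg (sub_nonneg.2 hng.le) (sub_nonneg.2 hh1),
                                            mul_pos (sub_pos.2 hng) (sub_pos.2 hp0),
                                            mul_nonneg (sub_nonneg.2 hng.le) (sub_nonneg.2 hr1)]))
    have m1 : p * Real.log ((Sn r1 + σ1) / σ1) ≤ p * (1 - Real.log (Real.pi * (p + q))) :=
      mul_le_mul_of_nonneg_left (by linarith only [l3, l1]) hp
    have m2 : q * Real.log ((Sn r2 + σ2) / σ2) ≤ q * (1 - Real.log (Real.pi * (p + q))) :=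
      mul_le_mul_of_nonneg_left (by linarith only [l3, l2]) hq
    unfold SS
    linarith only [m2, m1, c3, b2, b1, a2, a1]

/-- A closed form lower bound of the defect at `0`. -/
theorem Dq_zero_ge {s r : ℝ} (hs : 0 < s) (hr : 0 < r) (hr1 : r ≤ 1 / 2) :
    r * (Real.log ((Sn r + s) / ((Real.pi * r) ^ 2 + s)) / 2) + r -
      √s / Real.pi * Real.arctan (Real.pi * r / √s) ≤ Dq s r 0 := by
  have hpi := Real.pi_pos
  have hss : 0 < √s := Real.sqrt_pos.2 hs
  have hsq : √s ^ 2 = s := Real.sq_sqrt hs.le
  have e1 : Dq s r 0 = ∫ t in (0 : ℝ)..r, (Lq s r - Lq s t) := by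
    unfold Dq
    rw [intervalIntegral.integral_symm, ← intervalIntegral.integral_neg]
    apply intervalIntegral.integral_congr
    intro t _
    simp only
    ring
  -- the primitive
  set F : ℝ → ℝ := fun t => t * (Real.log (Sn r + s) / 2) - (t * (Real.log ((Real.pi * t) ^ 2 + s) / 2) -
    t + √s / Real.pi * Real.arctan (Real.pi * t / √s)) with hF
  have hd : ∀ t : ℝ, HasDerivAt F (Real.log (Sn r + s) / 2 - Real.log ((Real.pi * t) ^ 2 + s) / 2) t := by
    intro t
    have hpos : 0 < (Real.pi * t) ^ 2 + s := by positivity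
    have a1 : HasDerivAt (fun t : ℝ => (Real.pi * t) ^ 2 + s) (2 * (Real.pi * t) * Real.pi) t := by
      have := (((hasDerivAt_id t).const_mul Real.pi).fun_pow 2).add_const s
      refine this.congr_deriv ?_
      norm_num
    have a2 := (a1.log hpos.ne').div_const 2
    have a3 := (hasDerivAt_id t).mul a2
    have a4 : HasDerivAt (fun t : ℝ => Real.pi * t / √s) (Real.pi / √s) t := by
      have := ((hasDerivAt_id t).const_mul Real.pi).div_const (√s)
      refine this.congr_deriv ?_
      ring
    have a5 := (a4.arctan).const_mul (√s / Real.pi)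
    have a6 := ((hasDerivAt_id t).mul_const (Real.log (Sn r + s) / 2)).sub ((a3.sub
      (hasDerivAt_id t)).add a5)
    refine a6.congr_deriv ?_
    have h7 : 1 + (Real.pi * t / √s) ^ 2 = ((Real.pi * t) ^ 2 + s) / s := by
      rw [div_pow, hsq]
      field_simp
      ring
    simp only [id]
    rw [h7]
    have h8 : √s / Real.pi * (1 / (((Real.pi * t) ^ 2 + s) / s) * (Real.pi / √s)) =
        s / ((Real.pi * t) ^ 2 + s) := by
      field_simp
    rw [h8]
    field_simp
    ring
  have hcont : Continuous (fun t : ℝ => Real.log (Sn r + s) / 2 - Real.log ((Real.pi * t) ^ 2 + s) / 2) := by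
    apply Continuous.sub continuous_const
    apply Continuous.div_const
    apply Continuous.log (by fun_prop)
    intro t
    positivity
  have e2 : ∫ t in (0 : ℝ)..r, (Real.log (Sn r + s) / 2 - Real.log ((Real.pi * t) ^ 2 + s) / 2) =
      F r - F 0 := by
    apply intervalIntegral.integral_eq_sub_of_hasDerivAt (fun t _ => hd t)
    exact hcont.intervalIntegrable _ _
  have hSr := Sn_nonneg r
  have e3 : F r - F 0 = r * (Real.log ((Sn r + s) / ((Real.pi * r) ^ 2 + s)) / 2) + r -
      √s / Real.pi * Real.arctan (Real.pi * r / √s) := by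
    rw [Real.log_div (by positivity) (by positivity), hF]
    simp only [mul_zero, zero_div, Real.arctan_zero, zero_mul]
    ring
  rw [e1, ← e3, ← e2]
  apply intervalIntegral.integral_mono_on_of_le_Ioo hr.le (hcont.intervalIntegrable _ _)
    ((intervalIntegrable_const).sub (Lq_int hs.le 0 r))
  intro t ht
  have h0 := Sn_nonneg t
  have h16 : Sn t ≤ (Real.pi * t) ^ 2 := by
    unfold Sn
    have ht0 := ht.1
    apply pow_le_pow_left₀
    · exact Real.sin_nonneg_of_nonneg_of_le_pi (by positivity) (by (refine le_of_not_gt fun hng => ?_; linarith only [mul_pos (sub_pos.2 hpi) (sub_pos.2 ht.2),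
                                                                     mul_nonneg (sub_nonneg.2 hr1) (sub_nonneg.2 hpi.le),
                                                                     mul_pos (sub_pos.2 hr) (sub_pos.2 hpi),
                                                                     mul_pos (sub_pos.2 hng) (sub_pos.2 ht.2),
                                                                     mul_pos (sub_pos.2 hng) (sub_pos.2 ht0),
                                                                     mul_nonneg (sub_nonneg.2 hng.le) (sub_nonneg.2 hr1)]))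
    · exact Real.sin_le (by positivity)
  simp only [Lq_eq]
  rw [Real.log_mul (by norm_num) (by positivity), Real.log_mul (by norm_num) (by positivity)]
  have := Real.log_le_log (x := Sn t + s) (y := (Real.pi * t) ^ 2 + s) (by positivity) (by linarith only [h16])
  linarith only [this]

end Pool.Agent.S5.C2
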