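import Pool.Agent.S5.I.C2d

/-!
# Closed vertices with two half twists: the part `Re y < 0`
-/

set_option autoImplicit false

namespace Pool.Agent.S5.C2

open MeasureTheory Filter Topology Set

theorem Sn_diff (x u : ℝ) : Sn (1 / 2 + x + u) - Sn (1 / 2 - x + u) =
    -(Real.sin (2 * Real.pi * x) * Real.sin (2 * Real.pi * u)) := by
  unfold Sn
  have e1 : Real.sin (Real.pi * (1 / 2 + x + u)) = Real.cos (Real.pi * x + Real.pi * u) := by
    rw [show Real.pi * (1 / 2 + x + u) = Real.pi * x + Real.pi * u + Real.pi / 2 by ring,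
      Real.sin_add_pi_div_two]
  have e2 : Real.sin (Real.pi * (1 / 2 - x + u)) = Real.cos (Real.pi * x - Real.pi * u) := by
    rw [show Real.pi * (1 / 2 - x + u) = Real.pi / 2 - (Real.pi * x - Real.pi * u) by ring,
      Real.sin_pi_div_two_sub]
  rw [e1, e2, Real.cos_add, Real.cos_sub, show 2 * Real.pi * x = 2 * (Real.pi * x) by ring,
    show 2 * Real.pi * u = 2 * (Real.pi * u) by ring, Real.sin_two_mul, Real.sin_two_mul]
  ring

theorem Lq_window {s x u : ℝ} (hs : 0 ≤ s) (hx : 0 ≤ x) (hx1 : x ≤ 1 / 4) (hu : 0 ≤ u)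
    (hu1 : u ≤ 1 / 2) (h0 : 0 < Sn (1 / 2 + x + u)) : Lq s (1 / 2 + x + u) ≤ Lq s (1 / 2 - x + u) := by
  have hpi := Real.pi_pos
  have h1 := Sn_diff x u
  have h2 : 0 ≤ Real.sin (2 * Real.pi * x) := Real.sin_nonneg_of_nonneg_of_le_pi (by positivity)
    (by linarith only [hpi, mul_nonneg (sub_nonneg.2 hx1) (sub_nonneg.2 hpi.le)])
  have h3 : 0 ≤ Real.sin (2 * Real.pi * u) := Real.sin_nonneg_of_nonneg_of_le_pi (by positivity)
    (by linarith only [mul_nonneg (sub_nonneg.2 hu1) (sub_nonneg.2 hpi.le)])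
  have h4 := mul_nonneg h2 h3
  simp only [Lq_eq]
  have := Real.log_le_log (x := 4 * (Sn (1 / 2 + x + u) + s)) (y := 4 * (Sn (1 / 2 - x + u) + s))
    (by positivity) (by linarith only [h4, h1])
  linarith only [this]

theorem Lq_sym (s v : ℝ) : Lq s (1 / 2 + v) = Lq s (1 / 2 - v) := by
  simp only [Lq_eq]
  rw [← Sn_one_sub (1 / 2 + v)]
  rw [show (1 : ℝ) - (1 / 2 + v) = 1 / 2 - v by ring]

theorem Lq_per (s v : ℝ) : Lq s (v + 1) = Lq s v := by
  simp only [Lq_eq]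
  unfold Sn
  rw [show Real.pi * (v + 1) = Real.pi * v + Real.pi by ring, Real.sin_add_pi, neg_sq]

/-- The integral over a window is largest when the window is centred at `1 / 2`. -/
theorem window_le {s x q : ℝ} (hs : 0 ≤ s) (hx : 0 ≤ x) (hx1 : x ≤ 1 / 4) (hq : 0 ≤ q)
    (hq1 : q ≤ 3 / 4) : ∫ t in (1 / 2 - x + q)..(1 / 2 + x + q), Lq s t ≤
      ∫ t in (1 / 2 - x)..(1 / 2 + x), Lq s t := by
  have hI := fun a b : ℝ => Lq_int hs a b
  -- the difference as an integral over the shift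
  set g : ℝ → ℝ := fun u => Lq s (1 / 2 + x + u) - Lq s (1 / 2 - x + u) with hg
  have hg1 : ∀ a b c : ℝ, IntervalIntegrable (fun u => Lq s (c + u)) volume a b := by
    intro a b c
    have h5 := (Lq_int hs (c + a) (c + b)).comp_add_left c
    simpa using h5
  have hgI : ∀ a b : ℝ, IntervalIntegrable g volume a b := fun a b => (hg1 a b _).sub (hg1 a b _)
  have e1 : ∀ q : ℝ, (∫ t in (1 / 2 - x + q)..(1 / 2 + x + q), Lq s t) -
      (∫ t in (1 / 2 - x)..(1 / 2 + x), Lq s t) = ∫ u in (0 : ℝ)..q, g u := by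
    intro q
    rw [hg, intervalIntegral.integral_sub (hg1 _ _ _) (hg1 _ _ _),
      intervalIntegral.integral_comp_add_left (fun t => Lq s t),
      intervalIntegral.integral_comp_add_left (fun t => Lq s t)]
    simp only [add_zero]
    have a1 := intervalIntegral.integral_add_adjacent_intervals (hI (1 / 2 - x) (1 / 2 - x + q))
      (hI (1 / 2 - x + q) (1 / 2 + x + q))
    have a2 := intervalIntegral.integral_add_adjacent_intervals (hI (1 / 2 - x) (1 / 2 + x))
      (hI (1 / 2 + x) (1 / 2 + x + q))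
    linarith only [a2, a1]
  -- nonpositive up to `1 / 2`
  have hneg : ∀ c d : ℝ, 0 ≤ c → c ≤ d → d ≤ 1 / 2 → (d ≤ 1 / 2 - x ∨ 1 / 2 - x ≤ c) →
      ∫ u in c..d, g u ≤ 0 := by
    intro c d hc hcd hd hor
    have h6 : ∫ u in c..d, g u ≤ ∫ u in c..d, (0 : ℝ) := by
      apply intervalIntegral.integral_mono_on_of_le_Ioo hcd (hgI _ _) (by simp)
      intro u hu
      have h7 : 0 < Sn (1 / 2 + x + u) := by
        rcases hor with h | h
        · exact Sn_pos (by linarith only [hu.1, hc, hx]) (by linarith only [hu.2, h])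
        · have h8 := Sn_pos (t := 1 / 2 + x + u - 1) (by linarith only [hu.1, h]) (by linarith only [hu.2,
                                                                                        hd, hx1])
          have h9 : Sn (1 / 2 + x + u) = Sn (1 / 2 + x + u - 1) := by
            unfold Sn
            rw [show Real.pi * (1 / 2 + x + u) = Real.pi * (1 / 2 + x + u - 1) + Real.pi by ring,
              Real.sin_add_pi, neg_sq]
          rw [h9]
          exact h8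
      have h10 := Lq_window hs hx hx1 (by linarith only [hu.1, hc]) (by linarith only [hu.2, hd]) h7
      rw [hg]
      simp only
      linarith only [h10]
    simpa using h6
  have hneg' : ∀ d : ℝ, 0 ≤ d → d ≤ 1 / 2 → ∫ u in (0 : ℝ)..d, g u ≤ 0 := by
    intro d hd hd1
    rcases le_total d (1 / 2 - x) with h | h
    · exact hneg 0 d le_rfl hd hd1 (Or.inl h)
    · have h1 := hneg 0 (1 / 2 - x) le_rfl (by linarith only [hx1]) (by linarith only [hx]) (Or.inl le_rfl)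
      have h2 := hneg (1 / 2 - x) d (by linarith only [hx1]) h hd1 (Or.inr le_rfl)
      rw [← intervalIntegral.integral_add_adjacent_intervals (hgI 0 (1 / 2 - x)) (hgI _ d)]
      linarith only [h2, h1]
  have hfin : ∫ u in (0 : ℝ)..q, g u ≤ 0 := by
    rcases le_total q (1 / 2) with h | h
    · exact hneg' q hq h
    · have hanti : ∀ u : ℝ, g (1 - u) = -g u := by
        intro u
        rw [hg]
        simp only
        have a1 : Lq s (1 / 2 + x + (1 - u)) = Lq s (1 / 2 - x + u) := by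
          rw [show 1 / 2 + x + (1 - u) = (1 / 2 + (x - u)) + 1 by ring, Lq_per, Lq_sym]
          congr 1
          ring
        have a2 : Lq s (1 / 2 - x + (1 - u)) = Lq s (1 / 2 + x + u) := by
          rw [show 1 / 2 - x + (1 - u) = (1 / 2 + (-x - u)) + 1 by ring, Lq_per, Lq_sym]
          congr 1
          ring
        rw [a1, a2]
        ring
      have a3 : ∫ u in (1 / 2 : ℝ)..q, g u = -∫ u in (1 - q)..(1 / 2 : ℝ), g u := by
        have a4 := intervalIntegral.integral_comp_sub_left (a := 1 / 2) (b := q) g 1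
        have a5 : ∫ u in (1 / 2 : ℝ)..q, g (1 - u) = -∫ u in (1 / 2 : ℝ)..q, g u := by
          rw [← intervalIntegral.integral_neg]
          apply intervalIntegral.integral_congr
          intro u _
          exact hanti u
        rw [a5] at a4
        rw [show (1 : ℝ) - 1 / 2 = 1 / 2 by norm_num] at a4
        linarith only [a4]
      have a6 := intervalIntegral.integral_add_adjacent_intervals (hgI 0 (1 - q)) (hgI (1 - q) (1 / 2))
      have a7 := intervalIntegral.integral_add_adjacent_intervals (hgI 0 (1 / 2)) (hgI (1 / 2) q)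
      have a8 := hneg' (1 - q) (by linarith only [hq1]) (by linarith only [h])
      linarith only [a8, a7, a6, a3]
  have := e1 q
  linarith only [this, hfin]

theorem SS_sub_mirror {s1 s2 s3 p0 q0 x q : ℝ} (hs1 : 0 ≤ s1) (hs3 : 0 ≤ s3) (hx : 0 ≤ x)
    (hx1 : x ≤ 1 / 4) (hq : 0 ≤ q) (hq1 : q ≤ 3 / 4) :
    SS s1 s2 s3 p0 q0 (1 / 2 - x) q + 2 * ∫ t in (1 / 2 - x)..(1 / 2 : ℝ),
      (2 * (Lq s1 t - Lq s1 p0) - (Lq s3 t - Lq s3 (p0 + q0))) ≤
      SS s1 s2 s3 p0 q0 (1 / 2 + x) q := by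
  have d1 := Dq_sub hs1 p0 (1 / 2 - x) (1 / 2 + x)
  have d3 := Dq_sub hs3 (p0 + q0) (1 / 2 - x + q) (1 / 2 + x + q)
  have hw := window_le hs3 hx hx1 hq hq1
  have hi : ∀ (s c a b : ℝ), 0 ≤ s → IntervalIntegrable (fun t => Lq s t - c) volume a b :=
    fun s c a b hs => (Lq_int hs a b).sub (by simp)
  -- symmetric integrals
  have hsym : ∀ (s c : ℝ), 0 ≤ s → ∫ t in (1 / 2 - x)..(1 / 2 + x), (Lq s t - c) =
      2 * ∫ t in (1 / 2 - x)..(1 / 2 : ℝ), (Lq s t - c) := by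
    intro s c hs
    rw [← intervalIntegral.integral_add_adjacent_intervals (hi s c (1 / 2 - x) (1 / 2) hs)
      (hi s c (1 / 2) (1 / 2 + x) hs)]
    have a1 : ∫ t in (1 / 2 : ℝ)..(1 / 2 + x), (Lq s t - c) =
        ∫ t in (1 / 2 - x)..(1 / 2 : ℝ), (Lq s t - c) := by
      have a4 := intervalIntegral.integral_comp_sub_left (a := 1 / 2 - x) (b := 1 / 2)
        (fun t => Lq s t - c) 1
      rw [show (1 : ℝ) - 1 / 2 = 1 / 2 by norm_num, show (1 : ℝ) - (1 / 2 - x) = 1 / 2 + x by ring]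
        at a4
      rw [← a4]
      apply intervalIntegral.integral_congr
      intro t _
      simp only [Lq_eq]
      rw [Sn_one_sub]
    rw [a1]
    ring
  have b1 := hsym s1 (Lq s1 p0) hs1
  have b3 := hsym s3 (Lq s3 (p0 + q0)) hs3
  have c3 : ∫ t in (1 / 2 - x + q)..(1 / 2 + x + q), (Lq s3 t - Lq s3 (p0 + q0)) ≤
      ∫ t in (1 / 2 - x)..(1 / 2 + x), (Lq s3 t - Lq s3 (p0 + q0)) := by
    rw [intervalIntegral.integral_sub (Lq_int hs3 _ _) (by simp), intervalIntegral.integral_sub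
      (Lq_int hs3 _ _) (by simp), intervalIntegral.integral_const, intervalIntegral.integral_const]
    rw [show 1 / 2 + x + q - (1 / 2 - x + q) = 1 / 2 + x - (1 / 2 - x) by ring]
    linarith only [hw]
  have e1 : ∫ t in (1 / 2 - x)..(1 / 2 : ℝ),
      (2 * (Lq s1 t - Lq s1 p0) - (Lq s3 t - Lq s3 (p0 + q0))) =
      2 * (∫ t in (1 / 2 - x)..(1 / 2 : ℝ), (Lq s1 t - Lq s1 p0)) -
      ∫ t in (1 / 2 - x)..(1 / 2 : ℝ), (Lq s3 t - Lq s3 (p0 + q0)) := by
    rw [intervalIntegral.integral_sub ((hi s1 _ _ _ hs1).const_mul 2) (hi s3 _ _ _ hs3),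
      intervalIntegral.integral_const_mul]
  rw [e1]
  unfold SS
  linarith only [c3, b3, b1, d3, d1]

/-- The integrand of the mirror inequality increases on `[1/4, 1/2]`. -/
theorem g_mono {s1 s3 t t' c : ℝ} (hs1 : 0 ≤ s1) (hs1' : s1 ≤ 1 / 2) (hs3 : 0 ≤ s3)
    (h0 : 1 / 4 ≤ t) (h1 : t ≤ t') (h2 : t' ≤ 1 / 2) :
    2 * (Lq s1 t - c) - Lq s3 t ≤ 2 * (Lq s1 t' - c) - Lq s3 t' := by
  have hv : Sn (1 / 4) = 1 / 2 := by
    unfold Sn
    rw [show Real.pi * (1 / 4) = Real.pi / 4 by ring, Real.sin_pi_div_four, div_pow,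
      Real.sq_sqrt (by norm_num)]
    norm_num
  have hvt : 1 / 2 ≤ Sn t := by
    rw [← hv]
    exact Sn_mono (by norm_num) h0 (by linarith only [h2, h1])
  have hvt' : Sn t ≤ Sn t' := Sn_mono (by linarith only [h0]) h1 h2
  set v := Sn t with hvd
  set v' := Sn t' with hvd'
  have hpos : 0 < v := by linarith only [hvt]
  have hpos' : 0 < v' := by linarith only [hvt', hvt]
  have key : (v + s1) ^ 2 * (v' + s3) ≤ (v' + s1) ^ 2 * (v + s3) := by
    have h3 : s1 ^ 2 ≤ v * v' := by linarith only [hvt', hvt, hs1',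
                                      mul_nonneg (sub_nonneg.2 hvt) (sub_nonneg.2 hvt'),
                                      mul_nonneg (sub_nonneg.2 hvt) (sub_nonneg.2 hvt),
                                      mul_nonneg (sub_nonneg.2 hs1) (sub_nonneg.2 hs1')]
    have h4 : 0 ≤ (v' - v) * (v * v' - s1 ^ 2) := mul_nonneg (by linarith only [hvt']) (by linarith only [h3])
    have h5 : 0 ≤ s3 * ((v' + s1) ^ 2 - (v + s1) ^ 2) := by
      apply mul_nonneg hs3
      (refine le_of_not_gt fun hng => ?_; linarith only [hng, h4,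
        mul_nonneg (sub_nonneg.2 hng.le) (sub_nonneg.2 hvt),
        mul_nonneg (sq_nonneg (v + s1)) (sub_nonneg.2 hvt')])
    linarith only [h5, h4]
  have h6 := Real.log_le_log (by positivity) key
  rw [Real.log_mul (by positivity) (by positivity), Real.log_mul (by positivity) (by positivity),
    Real.log_pow, Real.log_pow] at h6
  push_cast at h6
  simp only [Lq_eq, ← hvd, ← hvd']
  rw [Real.log_mul (by norm_num) (by positivity), Real.log_mul (by norm_num) (by positivity),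
    Real.log_mul (by norm_num) (by positivity), Real.log_mul (by norm_num) (by positivity)]
  linarith only [h6]

/-- The mean value over a shorter interval next to `1 / 2` is larger. -/
theorem mean_ge {s1 s3 c d x : ℝ} (hs1 : 0 ≤ s1) (hs1' : s1 ≤ 1 / 2) (hs3 : 0 ≤ s3) (hx : 0 ≤ x)
    (hx1 : x ≤ 1 / 4) : 4 * x * ∫ t in (1 / 4 : ℝ)..(1 / 2 : ℝ), (2 * (Lq s1 t - c) - (Lq s3 t - d)) ≤
      ∫ t in (1 / 2 - x)..(1 / 2 : ℝ), (2 * (Lq s1 t - c) - (Lq s3 t - d)) := by
  have hi : ∀ (a b : ℝ), IntervalIntegrable (fun t => 2 * (Lq s1 t - c) - (Lq s3 t - d)) volume a b :=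
    fun a b => (((Lq_int hs1 a b).sub (by simp)).const_mul 2).sub ((Lq_int hs3 a b).sub (by simp))
  set G : ℝ → ℝ := fun t => 2 * (Lq s1 t - c) - (Lq s3 t - d) with hG
  have hm : ∀ t t' : ℝ, 1 / 4 ≤ t → t ≤ t' → t' ≤ 1 / 2 → G t ≤ G t' := by
    intro t t' h0 h1 h2
    have := g_mono (c := c) hs1 hs1' hs3 h0 h1 h2
    rw [hG]
    simp only
    linarith only [this]
  have h1 : ∫ t in (1 / 4 : ℝ)..(1 / 2 - x), G t ≤ (1 / 4 - x) * G (1 / 2 - x) := by
    have h3 : ∫ t in (1 / 4 : ℝ)..(1 / 2 - x), G t ≤ ∫ _t in (1 / 4 : ℝ)..(1 / 2 - x), G (1 / 2 - x) := by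
      apply intervalIntegral.integral_mono_on (by linarith only [hx1]) (hi _ _) (by simp)
      intro t ht
      exact hm t _ ht.1 ht.2 (by linarith only [hx])
    rw [intervalIntegral.integral_const, smul_eq_mul] at h3
    linarith only [h3]
  have h2 : x * G (1 / 2 - x) ≤ ∫ t in (1 / 2 - x)..(1 / 2 : ℝ), G t := by
    have h3 : ∫ _t in (1 / 2 - x)..(1 / 2 : ℝ), G (1 / 2 - x) ≤ ∫ t in (1 / 2 - x)..(1 / 2 : ℝ), G t := by
      apply intervalIntegral.integral_mono_on (by linarith only [hx]) (by simp) (hi _ _)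
      intro t ht
      exact hm _ t (by linarith only [hx1]) ht.1 ht.2
    rw [intervalIntegral.integral_const, smul_eq_mul] at h3
    linarith only [h3]
  have h4 := intervalIntegral.integral_add_adjacent_intervals (hi (1 / 4) (1 / 2 - x))
    (hi (1 / 2 - x) (1 / 2))
  have h5 : x * ∫ t in (1 / 4 : ℝ)..(1 / 2 - x), G t ≤ x * ((1 / 4 - x) * G (1 / 2 - x)) :=
    mul_le_mul_of_nonneg_left h1 hx
  have h6 : (1 / 4 - x) * (x * G (1 / 2 - x)) ≤ (1 / 4 - x) * ∫ t in (1 / 2 - x)..(1 / 2 : ℝ), G t :=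
    mul_le_mul_of_nonneg_left h2 (by linarith only [hx1])
  rw [← h4]
  linarith only [h6, h5]

/-- Positivity on the whole square `[0, 3/4]²` from positivity on `[0, 1/2]²`. -/
theorem SS_flat {s1 s2 s3 p0 q0 : ℝ} (hs1 : 0 ≤ s1) (hs1' : s1 ≤ 1 / 2) (hs2 : 0 ≤ s2)
    (hs2' : s2 ≤ 1 / 2) (hs3 : 0 ≤ s3) (hp0 : 0 < p0) (hp1 : p0 < 1 / 2) (hq0 : 0 < q0)
    (hq1 : q0 < 1 / 2)
    (hsq : ∃ c > 0, ∀ p ∈ Icc (0 : ℝ) (1 / 2), ∀ q ∈ Icc (0 : ℝ) (1 / 2),
      c * ((p - p0) ^ 2 + (q - q0) ^ 2) ≤ SS s1 s2 s3 p0 q0 p q)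
    (F1 : 0 < ∫ t in (1 / 4 : ℝ)..(1 / 2 : ℝ), (2 * (Lq s1 t - Lq s1 p0) - (Lq s3 t - Lq s3 (p0 + q0))))
    (F2 : 0 < ∫ t in (1 / 4 : ℝ)..(1 / 2 : ℝ), (2 * (Lq s2 t - Lq s2 q0) - (Lq s3 t - Lq s3 (p0 + q0)))) :
    ∃ c > 0, ∀ p ∈ Icc (0 : ℝ) (3 / 4), ∀ q ∈ Icc (0 : ℝ) (3 / 4),
      c * ((p - p0) ^ 2 + (q - q0) ^ 2) ≤ SS s1 s2 s3 p0 q0 p q := by
  obtain ⟨c, hc, h⟩ := hsq
  set f1 := ∫ t in (1 / 4 : ℝ)..(1 / 2 : ℝ), (2 * (Lq s1 t - Lq s1 p0) - (Lq s3 t - Lq s3 (p0 + q0)))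
    with hf1
  set f2 := ∫ t in (1 / 4 : ℝ)..(1 / 2 : ℝ), (2 * (Lq s2 t - Lq s2 q0) - (Lq s3 t - Lq s3 (p0 + q0)))
    with hf2
  -- one mirror step in each variable, the gain is linear
  have m1 : ∀ x q : ℝ, 0 ≤ x → x ≤ 1 / 4 → 0 ≤ q → q ≤ 3 / 4 →
      SS s1 s2 s3 p0 q0 (1 / 2 - x) q + 8 * x * f1 ≤ SS s1 s2 s3 p0 q0 (1 / 2 + x) q := by
    intro x q hx hx1 hq hq1
    have a1 := SS_sub_mirror (s2 := s2) (p0 := p0) (q0 := q0) hs1 hs3 hx hx1 hq hq1
    have a2 := mean_ge (c := Lq s1 p0) (d := Lq s3 (p0 + q0)) hs1 hs1' hs3 hx hx1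
    rw [← hf1] at a2
    linarith only [a2, a1]
  have m2 : ∀ y p : ℝ, 0 ≤ y → y ≤ 1 / 4 → 0 ≤ p → p ≤ 3 / 4 →
      SS s1 s2 s3 p0 q0 p (1 / 2 - y) + 8 * y * f2 ≤ SS s1 s2 s3 p0 q0 p (1 / 2 + y) := by
    intro y p hy hy1 hp hp1
    rw [SS_swap _ _ _ _ _ p (1 / 2 - y), SS_swap _ _ _ _ _ p (1 / 2 + y)]
    have a1 := SS_sub_mirror (s1 := s2) (s2 := s1) (p0 := q0) (q0 := p0) hs2 hs3 hy hy1 hp hp1
    have a2 := mean_ge (c := Lq s2 q0) (d := Lq s3 (p0 + q0)) hs2 hs2' hs3 hy hy1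
    rw [← hf2] at a2
    rw [add_comm q0 p0] at a1
    linarith only [a2, a1]
  -- constants
  set c' := min c (min (f1 / 4) (f2 / 4)) with hc'
  have hc'pos : 0 < c' := lt_min hc (lt_min (by linarith only [F1]) (by linarith only [F2]))
  have k1 : c' ≤ c := min_le_left _ _
  have k2 : c' ≤ f1 / 4 := (min_le_right _ _).trans (min_le_left _ _)
  have k3 : c' ≤ f2 / 4 := (min_le_right _ _).trans (min_le_right _ _)
  -- mirrored distances
  have hd : ∀ x a : ℝ, 0 ≤ x → x ≤ 1 / 4 → 0 < a → a < 1 / 2 →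
      (1 / 2 + x - a) ^ 2 ≤ (1 / 2 - x - a) ^ 2 + 2 * x := by
    intro x a hx hx1 ha ha1
    (refine le_of_not_gt fun hng => ?_; linarith only [mul_nonneg (sub_nonneg.2 hx) (sub_nonneg.2 ha.le),
      mul_pos (sub_pos.2 hng) (sub_pos.2 hp1), mul_pos (sub_pos.2 hng) (sub_pos.2 hp0)])
  refine ⟨c', hc'pos, ?_⟩
  intro p hp q hq
  simp only [mem_Icc] at hp hq
  -- first reduce `q`, then `p`
  have step : ∀ p' : ℝ, 0 ≤ p' → p' ≤ 1 / 2 → ∀ q' : ℝ, 0 ≤ q' → q' ≤ 3 / 4 →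
      c' * ((p' - p0) ^ 2 + (q' - q0) ^ 2) ≤ SS s1 s2 s3 p0 q0 p' q' := by
    intro p' hp' hp'1 q' hq' hq'1
    rcases le_total q' (1 / 2) with hle | hle
    · have a1 := h p' ⟨hp', hp'1⟩ q' ⟨hq', hle⟩
      have : c' * ((p' - p0) ^ 2 + (q' - q0) ^ 2) ≤ c * ((p' - p0) ^ 2 + (q' - q0) ^ 2) :=
        mul_le_mul_of_nonneg_right k1 (by positivity)
      linarith only [this, a1]
    · have a1 := m2 (q' - 1 / 2) p' (by linarith only [hle]) (by linarith only [hq'1]) hp' (by linarith only [hp'1,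
                                                                                                 hp1,
                                                                                                 hp0])
      have a2 := h p' ⟨hp', hp'1⟩ (1 / 2 - (q' - 1 / 2)) ⟨by linarith only [hq'1, hp1, hp0], by linarith only [hle]⟩
      rw [show 1 / 2 + (q' - 1 / 2) = q' by ring] at a1
      have a3 := hd (q' - 1 / 2) q0 (by linarith only [hle]) (by linarith only [hq'1]) hq0 hq1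
      rw [show 1 / 2 + (q' - 1 / 2) = q' by ring] at a3
      have a4 : c' * ((p' - p0) ^ 2 + (1 / 2 - (q' - 1 / 2) - q0) ^ 2) ≤
          c * ((p' - p0) ^ 2 + (1 / 2 - (q' - 1 / 2) - q0) ^ 2) :=
        mul_le_mul_of_nonneg_right k1 (by positivity)
      have a5 : c' * (2 * (q' - 1 / 2)) ≤ f2 / 4 * (2 * (q' - 1 / 2)) :=
        mul_le_mul_of_nonneg_right k3 (by linarith only [hle])
      have a6 : c' * (q' - q0) ^ 2 ≤ c' * ((1 / 2 - (q' - 1 / 2) - q0) ^ 2 + 2 * (q' - 1 / 2)) :=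
        mul_le_mul_of_nonneg_left a3 hc'pos.le
      (refine le_of_not_gt fun hng => ?_; linarith only [a6,
        mul_nonneg (sub_nonneg.2 hq0.le) (sub_nonneg.2 a6),
        mul_nonneg (sub_nonneg.2 hq0.le) (sub_nonneg.2 a5),
        mul_nonneg (sub_nonneg.2 hq0.le) (sub_nonneg.2 a4),
        mul_nonneg (sub_nonneg.2 hq0.le) (sub_nonneg.2 a2),
        mul_nonneg (sub_nonneg.2 hq0.le) (sub_nonneg.2 a1),
        mul_pos (sub_pos.2 hng) (sub_pos.2 hq0)])
  rcases le_total p (1 / 2) with hle | hle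
  · exact step p hp.1 hle q hq.1 hq.2
  · have a1 := m1 (p - 1 / 2) q (by linarith only [hle]) (by linarith only [hp.2]) hq.1 hq.2
    have a2 := step (1 / 2 - (p - 1 / 2)) (by linarith only [hp.2, hp1, hp0]) (by linarith only [hle]) q hq.1 hq.2
    rw [show 1 / 2 + (p - 1 / 2) = p by ring] at a1
    have a3 := hd (p - 1 / 2) p0 (by linarith only [hle]) (by linarith only [hp.2]) hp0 hp1
    rw [show 1 / 2 + (p - 1 / 2) = p by ring] at a3
    have a5 : c' * (2 * (p - 1 / 2)) ≤ f1 / 4 * (2 * (p - 1 / 2)) :=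
      mul_le_mul_of_nonneg_right k2 (by linarith only [hle])
    have a6 : c' * (p - p0) ^ 2 ≤ c' * ((1 / 2 - (p - 1 / 2) - p0) ^ 2 + 2 * (p - 1 / 2)) :=
      mul_le_mul_of_nonneg_left a3 hc'pos.le
    (refine le_of_not_gt fun hng => ?_; linarith only [a6,
      mul_nonneg (sub_nonneg.2 hp0.le) (sub_nonneg.2 a6),
      mul_nonneg (sub_nonneg.2 hp0.le) (sub_nonneg.2 a5),
      mul_nonneg (sub_nonneg.2 hp0.le) (sub_nonneg.2 a2),
      mul_nonneg (sub_nonneg.2 hp0.le) (sub_nonneg.2 a1), mul_pos (sub_pos.2 hng) (sub_pos.2 hp0)])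

end Pool.Agent.S5.C2
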