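import Pool.Agent.S5.I.C2h

/-!
# Closed vertices with two half twists: the exact criterion on the square `[0, 1/2]²`
-/

set_option autoImplicit false

namespace Pool.Agent.S5.C2

open MeasureTheory Filter Topology Set

theorem Sn_half : Sn (1 / 2) = 1 := by
  unfold Sn
  rw [show Real.pi * (1 / 2) = Real.pi / 2 by ring, Real.sin_pi_div_two]
  norm_num

theorem Sn_zero : Sn 0 = 0 := by
  unfold Sn
  simp

theorem Sn_half_add (q : ℝ) : Sn (1 / 2 + q) = 1 - Sn q := by
  rw [← cos_sq_eq]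
  unfold Sn
  rw [show Real.pi * (1 / 2 + q) = Real.pi * q + Real.pi / 2 by ring, Real.sin_add_pi_div_two]

/-- The function `f1 = sin (π (p0 + q0))` in terms of the squares. -/
noncomputable def fo (a b : ℝ) : ℝ := √(a * (1 - b)) + √(b * (1 - a))

theorem fo_comm (a b : ℝ) : fo a b = fo b a := by
  unfold fo
  ring

/-- **The criterion.** -/
theorem SS_crit {s1 s2 s3 p0 q0 h xe u v : ℝ} (hs1 : 0 ≤ s1) (hs2 : 0 ≤ s2) (hs3 : 0 ≤ s3)
    (hp0 : 0 < p0) (hp1 : p0 < 1 / 2) (hq0 : 0 < q0) (hq1 : q0 < 1 / 2)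
    (k1 : s1 ^ 2 * ((1 - Sn p0) * (1 - Sn q0)) < (1 + s1) ^ 2 * (Sn p0 * Sn q0))
    (k2 : s2 ^ 2 * ((1 - Sn p0) * (1 - Sn q0)) < (1 + s2) ^ 2 * (Sn p0 * Sn q0))
    (c1 : s1 * (1 - Sn q0) ≤ (1 + s2) * Sn p0) (c2 : s2 * (1 - Sn p0) ≤ (1 + s1) * Sn q0)
    (hh0 : 0 ≤ h) (hh1 : h ≤ 1 / 2) (hxe0 : 0 ≤ xe)
    (hae : 0 ≤ (Sn p0 + s1) * xe - s1) (hbe : 0 ≤ (Sn q0 + s2) * xe - s2) (hu : 0 ≤ u) (hv : 0 ≤ v)
    (hu2 : u ^ 2 ≤ ((Sn p0 + s1) * xe - s1) * (1 - ((Sn q0 + s2) * xe - s2)))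
    (hv2 : v ^ 2 ≤ ((Sn q0 + s2) * xe - s2) * (1 - ((Sn p0 + s1) * xe - s1)))
    (hF : (fo (Sn p0) (Sn q0) ^ 2 + s3) * xe < fo (Sn p0) (Sn q0) * (u + v) + s3)
    (hH : (Sn p0 + s1) * xe ≤ s1 ∨ (Sn q0 + s2) * xe ≤ s2 ∨
      ((fo (Sn p0) (Sn q0) ^ 2 + s3) * xe ^ 2 ≤ Sn h + s3 ∧ p0 + q0 ≤ 1 - h))
    (hE1 : s1 ^ 2 * (fo (Sn p0) (Sn q0) ^ 2 + s3) < (Sn p0 + s1) ^ 2 * (Sn h + s3) ∨
      (Sn h + s2) ^ 2 * (fo (Sn p0) (Sn q0) ^ 2 + s3) < (Sn q0 + s2) ^ 2 * (Sn h + s3))
    (hE2 : s2 ^ 2 * (fo (Sn p0) (Sn q0) ^ 2 + s3) < (Sn q0 + s2) ^ 2 * (Sn h + s3) ∨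
      (Sn h + s1) ^ 2 * (fo (Sn p0) (Sn q0) ^ 2 + s3) < (Sn p0 + s1) ^ 2 * (Sn h + s3))
    (hC : ∀ p q : ℝ, 0 ≤ p → 0 ≤ q → p + q < h → 0 < SS s1 s2 s3 p0 q0 p q) :
    ∃ c > 0, ∀ p ∈ Icc (0 : ℝ) (1 / 2), ∀ q ∈ Icc (0 : ℝ) (1 / 2),
      c * ((p - p0) ^ 2 + (q - q0) ^ 2) ≤ SS s1 s2 s3 p0 q0 p q := by
  have ha0 : 0 < Sn p0 := Sn_pos hp0 (by linarith only [hp1])
  have hb0 : 0 < Sn q0 := Sn_pos hq0 (by linarith only [hq1, hp1, hp0])
  have ha1 : Sn p0 < 1 := by
    have h1 := cos_sq_eq p0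
    have hpi := Real.pi_pos
    have h2 : 0 < Real.cos (Real.pi * p0) := Real.cos_pos_of_mem_Ioo ⟨by linarith only [hpi,
                                                                           mul_pos (sub_pos.2 hp0) (sub_pos.2 hpi)], by linarith only [mul_pos (sub_pos.2 hp1) (sub_pos.2 hpi)]⟩
    linarith only [pow_pos h2 2, h1]
  have hb1 : Sn q0 < 1 := by
    have h1 := cos_sq_eq q0
    have hpi := Real.pi_pos
    have h2 : 0 < Real.cos (Real.pi * q0) := Real.cos_pos_of_mem_Ioo ⟨by linarith only [mul_pos (sub_pos.2 hq0) (sub_pos.2 hpi),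
                                                                           mul_pos (sub_pos.2 hp1) (sub_pos.2 hpi),
                                                                           mul_pos (sub_pos.2 hp0) (sub_pos.2 hpi)], by linarith only [mul_pos (sub_pos.2 hq1) (sub_pos.2 hpi)]⟩
    linarith only [pow_pos h2 2, h1]
  have hSf : Sn (p0 + q0) = fo (Sn p0) (Sn q0) ^ 2 := Sn_add hp0.le hp1.le hq0.le hq1.le
  apply SS_of_foc (h := h) hs1 hs2 hs3 hp0 hp1 hq0 hq1 (K_of_sq hs1 hp0 hp1 hq0 hq1 k1)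
    (K_of_sq hs2 hp0 hp1 hq0 hq1 k2) hC
  intro p hp q hq hh m1 m2 m3 m4
  rw [hSf] at m1 m2 m3 m4
  simp only [mem_Icc] at hp hq
  set a0 := Sn p0 with ha0d
  set b0 := Sn q0 with hb0d
  set f1 := fo a0 b0 with hf1
  set B := f1 ^ 2 + s3 with hB
  have hf1p : 0 < f1 := by
    rw [hf1]
    unfold fo
    have : 0 < √(a0 * (1 - b0)) := Real.sqrt_pos.2 (mul_pos ha0 (by linarith only [hb1]))
    positivity
  have hBp : 0 < B := by positivity
  have hA1 : 0 < a0 + s1 := by linarith only [ha0, hs1]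
  have hA2 : 0 < b0 + s2 := by linarith only [hb0, hs2]
  set w := Sn (p + q) with hw
  have hw0 : 0 ≤ w := Sn_nonneg _
  set x := √((w + s3) / B) with hx
  have hx0 : 0 ≤ x := Real.sqrt_nonneg _
  have hxx : w + s3 = B * x ^ 2 := by
    rw [hx, Real.sq_sqrt (by positivity)]
    field_simp
  have up : ∀ {X Y : ℝ}, 0 ≤ X → 0 ≤ Y → Y ^ 2 * (w + s3) ≤ X ^ 2 * B → Y * x ≤ X := by
    intro X Y hX hY h1
    rw [hxx] at h1
    have h2 : (Y * x) ^ 2 * B ≤ X ^ 2 * B := by
      calc (Y * x) ^ 2 * B = Y ^ 2 * (B * x ^ 2) := by ring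
        _ ≤ _ := h1
    exact le_of_sq_le_sq (le_of_mul_le_mul_right h2 hBp) hX
  have dn : ∀ {X Y : ℝ}, 0 ≤ X → 0 ≤ Y → X ^ 2 * B ≤ Y ^ 2 * (w + s3) → X ≤ Y * x := by
    intro X Y hX hY h1
    rw [hxx] at h1
    have h2 : X ^ 2 * B ≤ (Y * x) ^ 2 * B := by
      calc X ^ 2 * B ≤ Y ^ 2 * (B * x ^ 2) := h1
        _ = _ := by ring
    exact le_of_sq_le_sq (le_of_mul_le_mul_right h2 hBp) (by positivity)
  have hSp := Sn_nonneg p
  have hSq := Sn_nonneg q
  have hSp1 := Sn_le_one p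
  have hSq1 := Sn_le_one q
  have n1 : p < 1 / 2 → (a0 + s1) * x ≤ Sn p + s1 := fun h => up (by positivity) hA1.le (m1 h)
  have n2 : 0 < p → Sn p + s1 ≤ (a0 + s1) * x := fun h => dn (by positivity) hA1.le (m2 h)
  have n3 : q < 1 / 2 → (b0 + s2) * x ≤ Sn q + s2 := fun h => up (by positivity) hA2.le (m3 h)
  have n4 : 0 < q → Sn q + s2 ≤ (b0 + s2) * x := fun h => dn (by positivity) hA2.le (m4 h)
  have hf1' : f1 = √(a0 * (1 - b0)) + √(b0 * (1 - a0)) := rfl
  have hf1'' : f1 = √(b0 * (1 - a0)) + √(a0 * (1 - b0)) := by rw [hf1']; ring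
  -- upper edges
  rcases hp.2.eq_or_lt with hp2 | hp2
  · exfalso
    have hpp : 0 < p := by linarith only [hp2, hp1, hp0]
    have n2' := n2 hpp
    rw [hp2, Sn_half] at n2'
    rcases hq.2.eq_or_lt with hq2 | hq2
    · have e : w = 0 := by
        rw [hw, hp2, hq2, show (1 : ℝ) / 2 + 1 / 2 = 1 - 0 by norm_num, Sn_one_sub, Sn_zero]
      have hx1 : 1 < x := by
        by_contra hc
        rw [not_lt] at hc
        have : (a0 + s1) * x ≤ (a0 + s1) * 1 := mul_le_mul_of_nonneg_left hc (by positivity)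
        linarith only [this, n2', ha1]
      have h1 : B * 1 < B * x ^ 2 := mul_lt_mul_of_pos_left (by (refine lt_of_not_ge fun hng => ?_; linarith only [hng,
                                                                  n2', ha1,
                                                                  mul_nonneg (sub_nonneg.2 hx0) (sub_nonneg.2 n2'),
                                                                  mul_pos (sub_pos.2 ha1) (sub_pos.2 hx1),
                                                                  mul_nonneg (sub_nonneg.2 hng) (sub_nonneg.2 hs1),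
                                                                  mul_nonneg (sq_nonneg (x)) (sub_nonneg.2 ha1.le)])) hBp
      rw [← hxx, e, hB] at h1
      linarith only [pow_pos hf1p 2, h1]
    · have e : w = 1 - Sn q := by
        rw [hw, hp2, Sn_half_add]
      have := no_half ha0 ha1 hb0 hb1 hs1 hs2 hs3 c1 hx0 n2' hf1' (n3 hq2) hSq1
      rw [← hB, ← hxx, e] at this
      linarith only [this]
  rcases hq.2.eq_or_lt with hq2 | hq2
  · exfalso
    have hqq : 0 < q := by linarith only [hq2, hp1, hp0]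
    have n4' := n4 hqq
    rw [hq2, Sn_half] at n4'
    have e : w = 1 - Sn p := by
      rw [hw, hq2, add_comm, Sn_half_add]
    have := no_half hb0 hb1 ha0 ha1 hs2 hs1 hs3 c2 hx0 n4' hf1'' (n1 hp2) hSp1
    rw [← hB, ← hxx, e] at this
    linarith only [this]
  have n1' := n1 hp2
  have n3' := n3 hq2
  -- lower edges
  rcases hp.1.eq_or_lt with hp3 | hp3
  · exfalso
    rcases hq.1.eq_or_lt with hq3 | hq3
    · have hz : h = 0 := by
        rw [← hp3, ← hq3] at hh
        linarith only [hh0, hh]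
      have e : w = 0 := by
        rw [hw, ← hp3, ← hq3, add_zero, Sn_zero]
      have m1' := m1 hp2
      have m3' := m3 hq2
      rw [← hp3, Sn_zero, e] at m1'
      rw [← hq3, Sn_zero, e] at m3'
      rw [hz, Sn_zero] at hE1
      rcases hE1 with h1 | h1
      · rw [zero_add] at m1'
        linarith only [h1, m1']
      · linarith only [h1, m3']
    · have e : w = Sn q := by
        rw [hw, ← hp3, zero_add]
      have n4' := n4 hq3
      rw [← hp3, Sn_zero, zero_add] at n1'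
      have hhq : Sn h ≤ Sn q := Sn_mono hh0 (by linarith only [hp3, hh]) hq2.le
      refine no_zero (vh := Sn h) ha0 ha1 hb0 hb1 hs1 hs2 hs3 (Sn_nonneg _) hxe0 hf1' hae hbe hu hv
        hu2 hv2 hF ?_ hE1 hx0 n1' (le_antisymm n4' n3') hhq ?_
      · rcases hH with h1 | h1 | h1
        · exact Or.inl h1
        · exact Or.inr (Or.inl h1)
        · exact Or.inr (Or.inr h1.1)
      · rw [← e]
        exact hxx
  rcases hq.1.eq_or_lt with hq3 | hq3
  · exfalso
    have e : w = Sn p := by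
      rw [hw, ← hq3, add_zero]
    have n2' := n2 hp3
    rw [← hq3, Sn_zero, zero_add] at n3'
    have hhp : Sn h ≤ Sn p := Sn_mono hh0 (by linarith only [hq3, hh]) hp2.le
    refine no_zero (vh := Sn h) hb0 hb1 ha0 ha1 hs2 hs1 hs3 (Sn_nonneg _) hxe0 hf1'' hbe hae hv hu
      hv2 hu2 (by rw [add_comm v u]; exact hF) ?_ hE2 hx0 n3' (le_antisymm n2' n1') hhp ?_
    · rcases hH with h1 | h1 | h1
      · exact Or.inr (Or.inl h1)
      · exact Or.inl h1
      · exact Or.inr (Or.inr h1.1)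
    · rw [← e]
      exact hxx
  -- interior
  have ea : Sn p = (a0 + s1) * x - s1 := by linarith only [n1', n2 hp3]
  have eb : Sn q = (b0 + s2) * x - s2 := by linarith only [n3', n4 hq3]
  have ew : w = (√(Sn p * (1 - Sn q)) + √(Sn q * (1 - Sn p))) ^ 2 :=
    Sn_add hp.1 hp.2 hq.1 hq.2
  rcases lt_trichotomy x 1 with hlt | heq | hgt
  · exfalso
    rcases lt_or_ge x xe with hc | hc
    · rcases hH with h1 | h1 | h1
      · have : (a0 + s1) * x < (a0 + s1) * xe := mul_lt_mul_of_pos_left hc hA1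
        linarith only [this, h1, ea, hSp]
      · have : (b0 + s2) * x < (b0 + s2) * xe := mul_lt_mul_of_pos_left hc hA2
        linarith only [this, h1, eb, hSq]
      · have h2 : x ^ 2 < xe ^ 2 := pow_lt_pow_left₀ hc hx0 (by norm_num)
        have h3 : w < Sn h := by
          have := mul_lt_mul_of_pos_left h2 hBp
          linarith only [this, h1.1, hxx]
        have h4 : p < p0 := Sn_lt hp.1 hp.2 hp0.le hp1.le (by
          rw [ea, ← ha0d]
          linarith only [mul_pos (sub_pos.2 ha0) (sub_pos.2 hlt),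
            mul_nonneg (sub_nonneg.2 hs1) (sub_nonneg.2 hlt.le)])
        have h5 : q < q0 := Sn_lt hq.1 hq.2 hq0.le hq1.le (by
          rw [eb, ← hb0d]
          linarith only [mul_pos (sub_pos.2 hb0) (sub_pos.2 hlt),
            mul_nonneg (sub_nonneg.2 hs2) (sub_nonneg.2 hlt.le)])
        have h6 : Sn h ≤ Sn (p + q) := Sn_ge hh0 hh (by linarith only [h5, h4, h1.2])
        rw [← hw] at h6
        linarith only [h6, h3]
    · have := F_lt ha0 ha1 hb0 hb1 hs1 hs2 hs3 hc hlt hxe0 hf1' hae hbe hu hv hu2 hv2 hF ea eb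
      rw [← ew] at this
      rw [hxx] at this
      linarith only [this]
  · constructor
    · apply Sn_inj hp.1 hp.2 hp0.le hp1.le
      rw [ea, heq, ← ha0d]
      ring
    · apply Sn_inj hq.1 hq.2 hq0.le hq1.le
      rw [eb, heq, ← hb0d]
      ring
  · exfalso
    have := no_gt ha0 ha1 hb0 hb1 hs1 hs2 hs3 c1 c2 hgt hf1' ea eb hSp1 hSq1 ew
    rw [hxx] at this
    linarith only [this]

end Pool.Agent.S5.C2
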