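import Pool.Agent.S5.I.C2k

/-!
# Closed vertices with two half twists: the part `Re y < 0`, second method
-/

set_option autoImplicit false

namespace Pool.Agent.S5.C2

open MeasureTheory Filter Topology Set

/-- The point where the tangent is taken. -/
theorem exists_q1 {s2 s3 q0 w2 p1 qu c3 : ℝ} (hs2 : 0 < s2) (hs3 : 0 ≤ s3) (hp1 : 1 / 2 ≤ p1)
    (hqu : 0 ≤ qu) (hpq : p1 + qu ≤ 19 / 24)
    (hψ : Lq s3 (p1 + qu) - c3 ≤ w2 * (Lq s2 qu - Lq s2 q0)) :
    ∃ q1 ∈ Icc (0 : ℝ) qu, Lq s3 (p1 + q1) - c3 ≤ w2 * (Lq s2 q1 - Lq s2 q0) ∧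
      (q1 = 0 ∨ Lq s3 (p1 + q1) - c3 = w2 * (Lq s2 q1 - Lq s2 q0)) := by
  by_cases h0 : Lq s3 (p1 + 0) - c3 ≤ w2 * (Lq s2 0 - Lq s2 q0)
  · exact ⟨0, ⟨le_rfl, hqu⟩, h0, Or.inl rfl⟩
  · have hc : ContinuousOn (fun q => w2 * (Lq s2 q - Lq s2 q0) - (Lq s3 (p1 + q) - c3))
        (Icc 0 qu) := by
      intro q hq
      have c2 : ContinuousAt (Lq s2) q := Lq_continuousAt (by
        have := Sn_nonneg q
        unfold Sn at this
        linarith only [this, hs2])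
      have c3' : ContinuousAt (Lq s3) (p1 + q) := Lq_continuousAt (by
        have := Sn_pos (t := p1 + q) (by linarith only [hq.1, hp1]) (by linarith only [hq.2, hpq])
        unfold Sn at this
        linarith only [this, hs3])
      have c4 : ContinuousAt (fun q => Lq s3 (p1 + q)) q :=
        ContinuousAt.comp (g := Lq s3) (f := fun q => p1 + q) c3' (by fun_prop)
      exact (((c2.sub continuousAt_const).const_mul w2).sub
        (c4.sub continuousAt_const)).continuousWithinAt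
    have h := intermediate_value_Icc hqu hc
    have h1 : (0 : ℝ) ∈ Icc (w2 * (Lq s2 0 - Lq s2 q0) - (Lq s3 (p1 + 0) - c3))
        (w2 * (Lq s2 qu - Lq s2 q0) - (Lq s3 (p1 + qu) - c3)) :=
      ⟨by linarith only [h0], by linarith only [hψ]⟩
    obtain ⟨q1, hq1, he⟩ := h h1
    simp only at he
    exact ⟨q1, hq1, by linarith only [he], Or.inr (by linarith only [he])⟩

/-- The tangent plane inequality at a point of the second kind. -/
theorem tan_plane {s2 s3 q0 w2 P0 p q p1 q1 : ℝ} (hs2 : 0 < s2) (hs3 : 0 ≤ s3) (hw2 : 0 ≤ w2)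
    (hp1 : 1 / 2 ≤ p1) (hq1 : 0 ≤ q1) (hpq : p1 + q1 ≤ 19 / 24)
    (h1 : Lq s3 (p1 + q1) - Lq s3 P0 ≤ w2 * (Lq s2 q1 - Lq s2 q0))
    (h2 : q1 = 0 ∨ Lq s3 (p1 + q1) - Lq s3 P0 = w2 * (Lq s2 q1 - Lq s2 q0))
    (hp : 1 / 2 ≤ p) (hp' : p ≤ 3 / 4) (hq : 0 ≤ q) (hq' : q ≤ 1 / 2) :
    w2 * Dq s2 q0 q1 - Dq s3 P0 (p1 + q1) - (Lq s3 (p1 + q1) - Lq s3 P0) * (p - p1) ≤
      w2 * Dq s2 q0 q - Dq s3 P0 (p + q) := by
  have a := mul_le_mul_of_nonneg_left (D2_tan (q0 := q0) hs2 hq hq' hq1 (by linarith only [hpq, hp1])) hw2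
  have b := D3_tan (P0 := P0) (P := p + q) (P1 := p1 + q1) hs3 (by linarith only [hq1, hp1]) hpq (by linarith only [hq,
                                                                                                       hp])
    (by linarith only [hq', hp'])
  have c : 0 ≤ (w2 * (Lq s2 q1 - Lq s2 q0) - (Lq s3 (p1 + q1) - Lq s3 P0)) * (q - q1) := by
    rcases h2 with h2 | h2
    · apply mul_nonneg (by linarith only [h1])
      rw [h2]
      linarith only [hq]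
    · rw [h2, sub_self, zero_mul]
  linarith only [c, b, a]

/-- **The part `p ≥ 1 / 2`.** -/
theorem M_core {s1 s2 s3 p0 q0 w2 l1 l2 e0 : ℝ} (hs1 : 0 ≤ s1) (hs2 : 0 < s2) (hs3 : 0 ≤ s3)
    (hw2 : 0 ≤ w2)
    (hψ1 : Lq s3 (19 / 24) - Lq s3 (p0 + q0) ≤ w2 * (Lq s2 (7 / 24) - Lq s2 q0))
    (hψ2 : Lq s3 (19 / 24) - Lq s3 (p0 + q0) ≤ w2 * (Lq s2 (1 / 6) - Lq s2 q0))
    (hl1 : ∀ q1 ∈ Icc (0 : ℝ) (7 / 24), Lq s3 (1 / 2 + q1) - Lq s3 (p0 + q0) ≤
      w2 * (Lq s2 q1 - Lq s2 q0) → Lq s3 (1 / 2 + q1) - Lq s3 (p0 + q0) ≤ l1)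
    (hl2 : ∀ q1 ∈ Icc (0 : ℝ) (1 / 6), Lq s3 (5 / 8 + q1) - Lq s3 (p0 + q0) ≤
      w2 * (Lq s2 q1 - Lq s2 q0) → Lq s3 (5 / 8 + q1) - Lq s3 (p0 + q0) ≤ l2)
    (hS : ∀ q ∈ Icc (0 : ℝ) (1 / 2),
      e0 ≤ 2 * Dq s1 p0 (1 / 2) + w2 * Dq s2 q0 q - Dq s3 (p0 + q0) (1 / 2 + q))
    (m3 : l1 ≤ Lq s1 (1 / 2) + Lq s1 (5 / 8) - 2 * Lq s1 p0)
    (m4 : l1 + l2 ≤ Lq s1 (1 / 2) + 2 * Lq s1 (5 / 8) + Lq s1 (3 / 4) - 4 * Lq s1 p0)
    (p q : ℝ) (hp : 1 / 2 ≤ p) (hp' : p ≤ 3 / 4) (hq : 0 ≤ q) (hq' : q ≤ 1 / 2) :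
    e0 ≤ 2 * Dq s1 p0 p + w2 * Dq s2 q0 q - Dq s3 (p0 + q0) (p + q) := by
  obtain ⟨q1, hq1, a1, a2⟩ := exists_q1 (q0 := q0) (w2 := w2) (p1 := 1 / 2) (qu := 7 / 24)
    (c3 := Lq s3 (p0 + q0)) hs2 hs3 le_rfl (by norm_num) (by norm_num) (by
      rw [show (1 : ℝ) / 2 + 7 / 24 = 19 / 24 by norm_num]
      exact hψ1)
  obtain ⟨q2, hq2, b1, b2⟩ := exists_q1 (q0 := q0) (w2 := w2) (p1 := 5 / 8) (qu := 1 / 6)
    (c3 := Lq s3 (p0 + q0)) hs2 hs3 (by norm_num) (by norm_num) (by norm_num) (by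
      rw [show (5 : ℝ) / 8 + 1 / 6 = 19 / 24 by norm_num]
      exact hψ2)
  have L1 := hl1 q1 hq1 a1
  have L2 := hl2 q2 hq2 b1
  have hi : ∀ a b : ℝ, IntervalIntegrable (fun t => Lq s1 t - Lq s1 p0) volume a b := fun a b =>
    (Lq_int hs1 a b).sub (by simp)
  have hSq := hS q1 ⟨hq1.1, by linarith only [hq1.2]⟩
  have eD := Dq_sub hs1 p0 (1 / 2) p
  have mono : ∀ t : ℝ, 1 / 2 ≤ t → t ≤ 3 / 4 → ∀ t' : ℝ, t ≤ t' → t' ≤ 3 / 4 →
      Lq s1 t' ≤ Lq s1 t := by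
    intro t h1 h2 t' h3 h4
    exact Lq_mono_t hs1 (by
      have := Sn_pos (t := t') (by linarith only [h3, h1]) (by linarith only [h4])
      linarith only [this, hs1]) (Sn_anti h1 h3 (by linarith only [h4]))
  rcases le_total p (5 / 8) with h | h
  · have hT := tan_plane (q0 := q0) (P0 := p0 + q0) (p := p) (q := q) hs2 hs3 hw2 le_rfl hq1.1
      (by linarith only [hq1.2]) a1 a2 hp hp' hq hq'
    have hI := trap (c := Lq s1 p0) hs1 (le_refl (1 / 2 : ℝ)) hp (by linarith only [hp'])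
    have hm := mono p hp (by linarith only [hp']) (5 / 8) h (by norm_num)
    have g1 : (Lq s3 (1 / 2 + q1) - Lq s3 (p0 + q0)) * (p - 1 / 2) ≤ l1 * (p - 1 / 2) :=
      mul_le_mul_of_nonneg_right L1 (by linarith only [hp])
    have g2 : l1 * (p - 1 / 2) ≤ (Lq s1 (1 / 2) + Lq s1 p - 2 * Lq s1 p0) * (p - 1 / 2) :=
      mul_le_mul_of_nonneg_right (by linarith only [hm, m3]) (by linarith only [hp])
    rw [← eD] at hI
    linarith only [g2, g1, hI, hT, hSq]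
  · have hT := tan_plane (q0 := q0) (P0 := p0 + q0) (p := p) (q := q) hs2 hs3 hw2
      (by norm_num : (1 : ℝ) / 2 ≤ 5 / 8) hq2.1
      (by linarith only [hq2.2]) b1 b2 hp hp' hq hq'
    have hT2 := tan_plane (q0 := q0) (P0 := p0 + q0) (p := 5 / 8) (q := q2) hs2 hs3 hw2 le_rfl
      hq1.1 (by linarith only [hq1.2]) a1 a2 (by norm_num) (by norm_num) hq2.1 (by linarith only [hq2.2])
    have hI1 := trap (c := Lq s1 p0) hs1 (le_refl (1 / 2 : ℝ)) (by norm_num : (1 : ℝ) / 2 ≤ 5 / 8)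
      (by norm_num)
    have hI2 := trap (c := Lq s1 p0) hs1 (by norm_num : (1 : ℝ) / 2 ≤ 5 / 8) h hp'
    have hm := mono p hp hp' (3 / 4) hp' le_rfl
    have hadd := intervalIntegral.integral_add_adjacent_intervals (hi (1 / 2) (5 / 8))
      (hi (5 / 8) p)
    have g1 : (Lq s3 (1 / 2 + q1) - Lq s3 (p0 + q0)) * (5 / 8 - 1 / 2) ≤ l1 * (5 / 8 - 1 / 2) :=
      mul_le_mul_of_nonneg_right L1 (by norm_num)
    have g2 : (Lq s3 (5 / 8 + q2) - Lq s3 (p0 + q0)) * (p - 5 / 8) ≤ l2 * (p - 5 / 8) :=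
      mul_le_mul_of_nonneg_right L2 (by linarith only [h])
    have g3 : (p - 5 / 8) * ((Lq s1 (5 / 8) + Lq s1 (3 / 4)) / 2 - Lq s1 p0) ≤
        (p - 5 / 8) * ((Lq s1 (5 / 8) + Lq s1 p) / 2 - Lq s1 p0) :=
      mul_le_mul_of_nonneg_left (by linarith only [hm]) (by linarith only [h])
    -- the linear function is nonnegative at both ends
    have g4 : 0 ≤ (3 / 4 - p) * (8 * (Lq s1 (1 / 2) + Lq s1 (5 / 8) - 2 * Lq s1 p0 - l1)) :=
      mul_nonneg (by linarith only [hp']) (by linarith only [m3])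
    have g5 : 0 ≤ (p - 5 / 8) * (8 * (Lq s1 (1 / 2) + 2 * Lq s1 (5 / 8) + Lq s1 (3 / 4) -
        4 * Lq s1 p0 - (l1 + l2))) := mul_nonneg (by linarith only [h]) (by linarith only [m4])
    rw [← hadd] at eD
    linarith only [g5, g4, g3, g2, hI2, hI1, hT2, hT, eD, hSq, L1]

/-- The upper bound of the slope at the tangent point. -/
theorem xi_le {s2 s3 q0 B A2 ξ b1 q1 P v : ℝ} {w : ℕ} (hs2 : 0 < s2)
    (hA2 : A2 = Sn q0 + s2) (hB : 0 < B) (hξ : 0 < ξ) (hv : 0 < Sn P + s3)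
    (hb : b1 ≤ 0 ∨ (w = 2 ∧ b1 + s2 ≤ A2 * ξ) ∨ (w = 1 ∧ b1 + s2 ≤ A2 * ξ ^ 2))
    (hmono : b1 ≤ Sn q1 → Sn P ≤ v) (hx : v + s3 ≤ B * ξ ^ 2)
    (h : Real.log (4 * (Sn P + s3)) / 2 - Real.log (4 * B) / 2 ≤ w * (Lq s2 q1 - Lq s2 q0)) :
    Real.log (4 * (Sn P + s3)) / 2 - Real.log (4 * B) / 2 ≤ Real.log ξ := by
  have hA : 0 < A2 := by
    rw [hA2]
    linarith only [Sn_nonneg q0, hs2]
  have hq1 := Sn_nonneg q1
  -- in terms of squares
  have hgoal : Sn P + s3 ≤ B * ξ ^ 2 → Real.log (4 * (Sn P + s3)) / 2 - Real.log (4 * B) / 2 ≤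
      Real.log ξ := by
    intro hh
    have h1 := Real.log_le_log hv hh
    rw [Real.log_mul hB.ne' (by positivity), Real.log_pow] at h1
    rw [Real.log_mul (by norm_num) hv.ne', Real.log_mul (by norm_num) hB.ne']
    push_cast at h1
    linarith only [h1]
  apply hgoal
  by_contra hc
  rw [not_le] at hc
  have hbq : b1 ≤ Sn q1 := by
    rcases hb with hb | hb
    · linarith only [hb, hq1]
    · have hb2 : 0 < Sn q1 + s2 := by linarith only [hq1, hs2]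
      simp only [Lq_eq, ← hA2] at h
      rw [Real.log_mul (by norm_num) hv.ne', Real.log_mul (by norm_num) hB.ne',
        Real.log_mul (by norm_num) hb2.ne', Real.log_mul (by norm_num) hA.ne'] at h
      have h2 : Real.log ((Sn P + s3) * A2 ^ w) ≤ Real.log (B * (Sn q1 + s2) ^ w) := by
        rw [Real.log_mul hv.ne' (by positivity), Real.log_mul hB.ne' (by positivity), Real.log_pow,
          Real.log_pow]
        linarith only [h]
      have h3 : (Sn P + s3) * A2 ^ w ≤ B * (Sn q1 + s2) ^ w :=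
        (Real.log_le_log_iff (by positivity) (by positivity)).1 h2
      have h4 : (B * ξ ^ 2) * A2 ^ w < (Sn P + s3) * A2 ^ w :=
        mul_lt_mul_of_pos_right hc (by positivity)
      have h5 : B * (ξ ^ 2 * A2 ^ w) < B * (Sn q1 + s2) ^ w := by
        calc B * (ξ ^ 2 * A2 ^ w) = (B * ξ ^ 2) * A2 ^ w := by ring
          _ < _ := h4
          _ ≤ _ := h3
      have h6 : ξ ^ 2 * A2 ^ w < (Sn q1 + s2) ^ w := lt_of_mul_lt_mul_left h5 hB.le
      rcases hb with ⟨hw2, hb⟩ | ⟨hw1, hb⟩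
      · rw [hw2, ← mul_pow] at h6
        have := lt_of_pow_lt_pow_left₀ 2 hb2.le h6
        linarith only [this, hb]
      · rw [hw1, pow_one, pow_one] at h6
        linarith only [hb, h6]
  have := hmono hbq
  linarith only [this, hc, hx]

/-- `sin²` at `5 / 8 + q`. -/
theorem Sn_five {q b u : ℝ} (hq : 0 ≤ q) (hq1 : q ≤ 3 / 8) (hb0 : 0 ≤ b) (hb : b ≤ Sn q)
    (hu : 0 ≤ u) (hu2 : u ^ 2 ≤ b * (1 - b)) (hb1 : b ≤ 1 / 2) :
    Sn (5 / 8 + q) ≤ 1 / 2 + 0.3536 * (1 - 2 * b) - 0.707 * u := by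
  have hpi := Real.pi_pos
  -- the point with `sin² = b`
  set r := Real.arcsin (√b) / Real.pi with hr
  have hsb : √b ≤ 1 := by
    rw [Real.sqrt_le_one]
    linarith only [hb1]
  have hr0 : 0 ≤ r := div_nonneg (Real.arcsin_nonneg.2 (Real.sqrt_nonneg _)) hpi.le
  have hpr : Real.pi * r = Real.arcsin (√b) := by
    rw [hr]
    field_simp
  have hr1 : r ≤ 1 / 2 := by
    have := Real.arcsin_le_pi_div_two (√b)
    rw [← hpr] at this
    (refine le_of_not_gt fun hng => ?_; linarith only [this,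
      mul_pos (sub_pos.2 hng) (sub_pos.2 hpi)])
  have hsin : Real.sin (Real.pi * r) = √b := by
    rw [hpr, Real.sin_arcsin (by linarith only [Real.sqrt_nonneg b]) hsb]
  have hSr : Sn r = b := by
    unfold Sn
    rw [hsin, Real.sq_sqrt hb0]
  have hrq : r ≤ q := by
    by_contra hc
    rw [not_le] at hc
    rcases hb.lt_or_eq with h | h
    · have := Sn_mono hq hc.le hr1
      linarith only [this, h, hSr]
    · have := Sn_inj hq (by linarith only [hq1]) hr0 hr1 (by rw [hSr, h])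
      linarith only [this, hc]
  have h1 : Sn (5 / 8 + q) ≤ Sn (5 / 8 + r) := Sn_anti (by linarith only [hr0]) (by linarith only [hrq]) (by linarith only [hq1])
  have hcos : 0 ≤ Real.cos (Real.pi * r) := Real.cos_nonneg_of_neg_pi_div_two_le_of_le
    (by linarith only [hpi, mul_nonneg (sub_nonneg.2 hpi.le) (sub_nonneg.2 hr0)]) (by linarith only [mul_nonneg (sub_nonneg.2 hpi.le) (sub_nonneg.2 hr1)])
  have hcs : u ≤ Real.sin (Real.pi * r) * Real.cos (Real.pi * r) := by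
    have h2 : u ^ 2 ≤ (Real.sin (Real.pi * r) * Real.cos (Real.pi * r)) ^ 2 := by
      rw [mul_pow, cos_sq_eq, hSr, hsin, Real.sq_sqrt hb0]
      exact hu2
    exact le_of_sq_le_sq h2 (mul_nonneg (by rw [hsin]; exact Real.sqrt_nonneg _) hcos)
  have h3 : Sn (5 / 8 + r) = 1 / 2 + √2 / 4 * (1 - 2 * b -
      2 * (Real.sin (Real.pi * r) * Real.cos (Real.pi * r))) := by
    have e0 : Sn (5 / 8 + r) = 1 / 2 - Real.cos (2 * (Real.pi * (5 / 8 + r))) / 2 := by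
      unfold Sn
      rw [Real.sin_sq_eq_half_sub]
    rw [e0, show 2 * (Real.pi * (5 / 8 + r)) = (2 * (Real.pi * r) + Real.pi / 4) + Real.pi by ring,
      Real.cos_add_pi, Real.cos_add, Real.cos_pi_div_four, Real.sin_pi_div_four, Real.cos_two_mul',
      Real.sin_two_mul]
    have e1 : Real.cos (Real.pi * r) ^ 2 = 1 - b := by
      rw [cos_sq_eq, hSr]
    have e2 : Real.sin (Real.pi * r) ^ 2 = b := by
      rw [← hSr]
      rfl
    rw [e1, e2]
    ring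
  rw [h3] at h1
  have a2 : (1.4142 : ℝ) ≤ √2 := Real.le_sqrt_of_sq_le (by norm_num)
  have b2 : √2 ≤ (1.41422 : ℝ) := Real.sqrt_le_iff.2 ⟨by norm_num, by norm_num⟩
  set cs := Real.sin (Real.pi * r) * Real.cos (Real.pi * r)
  have g1 : √2 / 4 * (1 - 2 * b) ≤ 0.3536 * (1 - 2 * b) :=
    mul_le_mul_of_nonneg_right (by linarith only [b2]) (by linarith only [hb1])
  have g2 : 0.3535 * (2 * u) ≤ √2 / 4 * (2 * cs) :=
    mul_le_mul (by linarith only [a2]) (by linarith only [hcs]) (by linarith only [hu]) (by positivity)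
  linarith only [g2, g1, h1]

/-- **The numeric criterion for the part `p ≥ 1 / 2`**, weights `2` and `w`. -/
theorem SS_M {s1 s2 s3 p0 q0 ξ1 ξ2 b1 b2 u2 e0 : ℝ} {w : ℕ} (hs1 : 0 ≤ s1) (hs2 : 0 < s2)
    (hs3 : 0 ≤ s3) (hp0 : 0 < p0) (hp1 : p0 < 1 / 2) (hq0 : 0 < q0) (hq1 : q0 < 1 / 2)
    (hψ : (Sn q0 + s2) ^ w * (0.3706 + s3) ≤ (1 / 4 + s2) ^ w * (Sn (p0 + q0) + s3))
    (hξ1 : 0 < ξ1) (hξ2 : 0 < ξ2)
    (hb1 : b1 ≤ 0 ∨ (w = 2 ∧ b1 + s2 ≤ (Sn q0 + s2) * ξ1) ∨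
      (w = 1 ∧ b1 + s2 ≤ (Sn q0 + s2) * ξ1 ^ 2))
    (hx1 : 1 - b1 + s3 ≤ (Sn (p0 + q0) + s3) * ξ1 ^ 2)
    (hb2 : b2 ≤ 0 ∨ (w = 2 ∧ b2 + s2 ≤ (Sn q0 + s2) * ξ2) ∨
      (w = 1 ∧ b2 + s2 ≤ (Sn q0 + s2) * ξ2 ^ 2))
    (hb20 : 0 ≤ b2) (hb21 : b2 ≤ 1 / 2) (hu : 0 ≤ u2) (hu2 : u2 ^ 2 ≤ b2 * (1 - b2))
    (hx2 : 1 / 2 + 0.3536 * (1 - 2 * b2) - 0.707 * u2 + s3 ≤ (Sn (p0 + q0) + s3) * ξ2 ^ 2)
    (m3 : (Sn p0 + s1) ^ 2 * ξ1 ^ 2 ≤ (1 + s1) * (0.8535 + s1))
    (m4 : (Sn p0 + s1) ^ 4 * (ξ1 ^ 2 * ξ2 ^ 2) ≤ (1 + s1) * (0.8535 + s1) ^ 2 * (1 / 2 + s1))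
    (hS : ∀ q ∈ Icc (0 : ℝ) (1 / 2),
      e0 ≤ 2 * Dq s1 p0 (1 / 2) + (w : ℝ) * Dq s2 q0 q - Dq s3 (p0 + q0) (1 / 2 + q))
    (p q : ℝ) (hp : 1 / 2 ≤ p) (hp' : p ≤ 3 / 4) (hq : 0 ≤ q) (hq' : q ≤ 1 / 2) :
    e0 ≤ 2 * Dq s1 p0 p + (w : ℝ) * Dq s2 q0 q - Dq s3 (p0 + q0) (p + q) := by
  have hA1 : 0 < Sn p0 + s1 := by
    have := Sn_pos hp0 (by linarith only [hp1])
    linarith only [this, hs1]
  have hA2 : 0 < Sn q0 + s2 := by
    have := Sn_nonneg q0
    linarith only [this, hs2]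
  have hB : 0 < Sn (p0 + q0) + s3 := by
    have := Sn_pos (t := p0 + q0) (by linarith only [hq0, hp0]) (by linarith only [hq1, hp1])
    linarith only [this, hs3]
  have hS75 := Sn_75
  have h38 := Sn_three_eighths
  have e58 : Sn (5 / 8) = Sn (3 / 8) := by
    rw [← Sn_one_sub (5 / 8), show (1 : ℝ) - 5 / 8 = 3 / 8 by norm_num]
  have e34 : Sn (3 / 4) = 1 / 2 := by
    rw [← Sn_one_sub (3 / 4), show (1 : ℝ) - 3 / 4 = 1 / 4 by norm_num, Sn_quarter]
  have e6 : Sn (1 / 6) = 1 / 4 := by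
    unfold Sn
    rw [show Real.pi * (1 / 6) = Real.pi / 6 by ring, Real.sin_pi_div_six]
    norm_num
  -- the conditions at the upper ends
  have hψg : ∀ t : ℝ, 1 / 4 ≤ Sn t →
      Lq s3 (19 / 24) - Lq s3 (p0 + q0) ≤ (w : ℝ) * (Lq s2 t - Lq s2 q0) := by
    intro t ht
    simp only [Lq_eq]
    have k1 : (Sn q0 + s2) ^ w * (Sn (19 / 24) + s3) ≤ (Sn t + s2) ^ w * (Sn (p0 + q0) + s3) := by
      calc (Sn q0 + s2) ^ w * (Sn (19 / 24) + s3) ≤ (Sn q0 + s2) ^ w * (0.3706 + s3) :=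
            mul_le_mul_of_nonneg_left (by linarith only [hS75.2.1]) (by positivity)
        _ ≤ _ := hψ
        _ ≤ _ := mul_le_mul_of_nonneg_right (pow_le_pow_left₀ (by positivity) (by linarith only [ht]) w) hB.le
    have hv : 0 < Sn (19 / 24) + s3 := by linarith only [hS75.1, hp1, hp0, hs3]
    have ht2 : 0 < Sn t + s2 := by linarith only [ht, hp1, hp0, hs2]
    have k2 := Real.log_le_log (by positivity) k1
    rw [Real.log_mul (by positivity) hv.ne', Real.log_mul (by positivity) hB.ne', Real.log_pow,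
      Real.log_pow] at k2
    rw [Real.log_mul (by norm_num) hv.ne', Real.log_mul (by norm_num) hB.ne',
      Real.log_mul (by norm_num) ht2.ne', Real.log_mul (by norm_num) hA2.ne']
    linarith only [k2]
  apply M_core (l1 := Real.log ξ1) (l2 := Real.log ξ2) hs1 hs2 hs3 (Nat.cast_nonneg w)
    (hψg (7 / 24) (by linarith only [hS75.2.2, hp1, hp0])) (hψg (1 / 6) (by rw [e6])) ?_ ?_ hS ?_ ?_ p q hp hp' hq
    hq'
  · intro q1 hq1 h
    simp only [Lq_eq (s := s3)] at h ⊢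
    have hv : 0 < Sn (1 / 2 + q1) := Sn_pos (by linarith only [hq1.1, hp1, hp0]) (by linarith only [hq1.2,
                                                                                       hp1, hp0])
    refine xi_le (v := 1 - b1) hs2 rfl hB hξ1 (by linarith only [hv, hs3]) hb1 ?_ hx1 h
    intro hb
    rw [Sn_half_add]
    linarith only [hb]
  · intro q1 hq1 h
    simp only [Lq_eq (s := s3)] at h ⊢
    have hv : 0 < Sn (5 / 8 + q1) := Sn_pos (by linarith only [hq1.1, hp1, hp0]) (by linarith only [hq1.2,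
                                                                                       hp1, hp0])
    refine xi_le (v := 1 / 2 + 0.3536 * (1 - 2 * b2) - 0.707 * u2) hs2 rfl hB hξ2 (by linarith only [hv,
                                                                                        hs3])
      hb2 ?_ hx2 h
    intro hb
    exact Sn_five hq1.1 (by linarith only [hq1.2, hp1, hp0]) hb20 hb hu hu2 hb21
  · simp only [Lq_eq, Sn_half, e58]
    have k := Real.log_le_log (by positivity) (m3.trans (mul_le_mul_of_nonneg_left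
      (by linarith only [h38] : 0.8535 + s1 ≤ Sn (3 / 8) + s1) (by linarith only [hs1])))
    have h3 : 0 < Sn (3 / 8) + s1 := by linarith only [h38, hp1, hp0, hs1]
    rw [Real.log_mul (by positivity) (by positivity), Real.log_mul (by positivity) h3.ne',
      Real.log_pow, Real.log_pow] at k
    rw [Real.log_mul (by norm_num) (by positivity), Real.log_mul (by norm_num) h3.ne',
      Real.log_mul (by norm_num) hA1.ne']
    push_cast at k
    linarith only [k]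
  · simp only [Lq_eq, Sn_half, e58, e34]
    have h3 : 0 < Sn (3 / 8) + s1 := by linarith only [h38, hp1, hp0, hs1]
    have k1 : (1 + s1) * (0.8535 + s1) ^ 2 * (1 / 2 + s1) ≤
        (1 + s1) * (Sn (3 / 8) + s1) ^ 2 * (1 / 2 + s1) := by
      have : (0.8535 + s1) ^ 2 ≤ (Sn (3 / 8) + s1) ^ 2 := pow_le_pow_left₀ (by positivity)
        (by linarith only [h38]) 2
      gcongr
    have k := Real.log_le_log (by positivity) (m4.trans k1)
    rw [Real.log_mul (by positivity) (by positivity), Real.log_mul (by positivity) (by positivity),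
      Real.log_mul (by positivity) (by positivity), Real.log_mul (by positivity) (by positivity),
      Real.log_pow, Real.log_pow, Real.log_pow, Real.log_pow] at k
    rw [Real.log_mul (by norm_num) (by positivity), Real.log_mul (by norm_num) h3.ne',
      Real.log_mul (by norm_num) hA1.ne', Real.log_mul (by norm_num) (by positivity)]
    push_cast at k
    linarith only [k]

end Pool.Agent.S5.C2
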