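import Pool.Agent.S5.I.C2l

/-!
# Closed vertices with two half twists: the whole square
-/

set_option autoImplicit false

namespace Pool.Agent.S5.C2

open MeasureTheory Filter Topology Set

/-- The condition for the reflection. -/
noncomputable def Fi (s s3 p0 P0 : ℝ) : ℝ :=
  ∫ t in (1 / 4 : ℝ)..(1 / 2 : ℝ), (2 * (Lq s t - Lq s p0) - (Lq s3 t - Lq s3 P0))

theorem mir_left {s1 s2 s3 p0 q0 x q : ℝ} (hs1 : 0 ≤ s1) (hs1' : s1 ≤ 1 / 2) (hs3 : 0 ≤ s3)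
    (hx : 0 ≤ x) (hx1 : x ≤ 1 / 4) (hq : 0 ≤ q) (hq1 : q ≤ 3 / 4) :
    SS s1 s2 s3 p0 q0 (1 / 2 - x) q + 8 * x * Fi s1 s3 p0 (p0 + q0) ≤
      SS s1 s2 s3 p0 q0 (1 / 2 + x) q := by
  have a1 := SS_sub_mirror (s2 := s2) (p0 := p0) (q0 := q0) hs1 hs3 hx hx1 hq hq1
  have a2 := mean_ge (c := Lq s1 p0) (d := Lq s3 (p0 + q0)) hs1 hs1' hs3 hx hx1
  unfold Fi
  linarith

theorem mir_right {s1 s2 s3 p0 q0 y p : ℝ} (hs2 : 0 ≤ s2) (hs2' : s2 ≤ 1 / 2) (hs3 : 0 ≤ s3)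
    (hy : 0 ≤ y) (hy1 : y ≤ 1 / 4) (hp : 0 ≤ p) (hp1 : p ≤ 3 / 4) :
    SS s1 s2 s3 p0 q0 p (1 / 2 - y) + 8 * y * Fi s2 s3 q0 (p0 + q0) ≤
      SS s1 s2 s3 p0 q0 p (1 / 2 + y) := by
  rw [SS_swap _ _ _ _ _ p (1 / 2 - y), SS_swap _ _ _ _ _ p (1 / 2 + y)]
  have a1 := mir_left (s1 := s2) (s2 := s1) (p0 := q0) (q0 := p0) hs2 hs2' hs3 hy hy1 hp hp1
  rw [add_comm q0 p0] at a1
  exact a1

theorem mir_dist {x a : ℝ} (hx : 0 ≤ x) (hx1 : x ≤ 1 / 4) (ha : 0 < a) (ha1 : a < 1 / 2) :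
    (1 / 2 + x - a) ^ 2 ≤ (1 / 2 - x - a) ^ 2 + 2 * x := by nlinarith

/-- From the square to the strip, by reflection. -/
theorem strip_F {s1 s2 s3 p0 q0 : ℝ} (hs1 : 0 ≤ s1) (hs1' : s1 ≤ 1 / 2)
    (hs3 : 0 ≤ s3) (hp0 : 0 < p0) (hp1 : p0 < 1 / 2)
    (hsq : ∃ c > 0, ∀ p ∈ Icc (0 : ℝ) (1 / 2), ∀ q ∈ Icc (0 : ℝ) (1 / 2),
      c * ((p - p0) ^ 2 + (q - q0) ^ 2) ≤ SS s1 s2 s3 p0 q0 p q)
    (F1 : 0 < Fi s1 s3 p0 (p0 + q0)) :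
    ∃ c > 0, ∀ p ∈ Icc (0 : ℝ) (3 / 4), ∀ q ∈ Icc (0 : ℝ) (1 / 2),
      c * ((p - p0) ^ 2 + (q - q0) ^ 2) ≤ SS s1 s2 s3 p0 q0 p q := by
  obtain ⟨c, hc, h⟩ := hsq
  set f1 := Fi s1 s3 p0 (p0 + q0) with hf1
  refine ⟨min c (f1 / 4), lt_min hc (by linarith), ?_⟩
  intro p hp q hq
  have k1 : min c (f1 / 4) ≤ c := min_le_left _ _
  have k2 : min c (f1 / 4) ≤ f1 / 4 := min_le_right _ _
  have k0 : 0 < min c (f1 / 4) := lt_min hc (by linarith)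
  set c' := min c (f1 / 4)
  simp only [mem_Icc] at hp hq
  rcases le_total p (1 / 2) with hle | hle
  · have a1 := h p ⟨hp.1, hle⟩ q hq
    have : c' * ((p - p0) ^ 2 + (q - q0) ^ 2) ≤ c * ((p - p0) ^ 2 + (q - q0) ^ 2) :=
      mul_le_mul_of_nonneg_right k1 (by positivity)
    linarith
  · obtain ⟨x, rfl⟩ : ∃ x, p = 1 / 2 + x := ⟨p - 1 / 2, by ring⟩
    have hx : 0 ≤ x := by linarith
    have hx1 : x ≤ 1 / 4 := by linarith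
    have a1 := mir_left (s2 := s2) (p0 := p0) (q0 := q0) hs1 hs1' hs3 hx hx1 hq.1 (by linarith)
    have a2 := h (1 / 2 - x) ⟨by linarith, by linarith⟩ q hq
    have a3 := mir_dist hx hx1 hp0 hp1
    have a4 : c' * ((1 / 2 - x - p0) ^ 2 + (q - q0) ^ 2) ≤
        c * ((1 / 2 - x - p0) ^ 2 + (q - q0) ^ 2) := mul_le_mul_of_nonneg_right k1 (by positivity)
    have a5 : c' * (2 * x) ≤ f1 / 4 * (2 * x) := mul_le_mul_of_nonneg_right k2 (by linarith)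
    have a6 : c' * (1 / 2 + x - p0) ^ 2 ≤ c' * ((1 / 2 - x - p0) ^ 2 + 2 * x) :=
      mul_le_mul_of_nonneg_left a3 k0.le
    have a7 : 0 ≤ x * f1 := mul_nonneg hx (by rw [hf1]; exact F1.le)
    rw [← hf1] at a1
    nlinarith

/-- From the square to the strip, by the second method. -/
theorem strip_M {s1 s2 s3 p0 q0 : ℝ} (hp0 : 0 < p0) (hp1 : p0 < 1 / 2) (hq0 : 0 < q0)
    (hq1 : q0 < 1 / 2)
    (hsq : ∃ c > 0, ∀ p ∈ Icc (0 : ℝ) (1 / 2), ∀ q ∈ Icc (0 : ℝ) (1 / 2),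
      c * ((p - p0) ^ 2 + (q - q0) ^ 2) ≤ SS s1 s2 s3 p0 q0 p q)
    (hM : ∀ e0 : ℝ, (∀ q ∈ Icc (0 : ℝ) (1 / 2), e0 ≤ SS s1 s2 s3 p0 q0 (1 / 2) q) →
      ∀ p q : ℝ, 1 / 2 ≤ p → p ≤ 3 / 4 → 0 ≤ q → q ≤ 1 / 2 → e0 ≤ SS s1 s2 s3 p0 q0 p q) :
    ∃ c > 0, ∀ p ∈ Icc (0 : ℝ) (3 / 4), ∀ q ∈ Icc (0 : ℝ) (1 / 2),
      c * ((p - p0) ^ 2 + (q - q0) ^ 2) ≤ SS s1 s2 s3 p0 q0 p q := by
  obtain ⟨c, hc, h⟩ := hsq
  have hd : 0 < (1 / 2 - p0) ^ 2 := by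
    have : 0 < 1 / 2 - p0 := by linarith
    positivity
  have he := hM (c * (1 / 2 - p0) ^ 2) (by
    intro q hq
    have a1 := h (1 / 2) ⟨by norm_num, le_rfl⟩ q hq
    have : c * (1 / 2 - p0) ^ 2 ≤ c * ((1 / 2 - p0) ^ 2 + (q - q0) ^ 2) :=
      mul_le_mul_of_nonneg_left (by nlinarith [sq_nonneg (q - q0)]) hc.le
    linarith)
  have he0 : 0 < c * (1 / 2 - p0) ^ 2 := mul_pos hc hd
  set e0 := c * (1 / 2 - p0) ^ 2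
  refine ⟨min c e0, lt_min hc he0, ?_⟩
  intro p hp q hq
  have k1 : min c e0 ≤ c := min_le_left _ _
  have k2 : min c e0 ≤ e0 := min_le_right _ _
  simp only [mem_Icc] at hp hq
  rcases le_total p (1 / 2) with hle | hle
  · have a1 := h p ⟨hp.1, hle⟩ q hq
    have : min c e0 * ((p - p0) ^ 2 + (q - q0) ^ 2) ≤ c * ((p - p0) ^ 2 + (q - q0) ^ 2) :=
      mul_le_mul_of_nonneg_right k1 (by positivity)
    linarith
  · have a1 := he p q hle hp.2 hq.1 hq.2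
    have h1 : (p - p0) ^ 2 ≤ (3 / 4) ^ 2 := sq_le_sq' (by linarith) (by linarith)
    have h2 : (q - q0) ^ 2 ≤ (1 / 2) ^ 2 := sq_le_sq' (by linarith) (by linarith)
    have h3 : min c e0 * ((p - p0) ^ 2 + (q - q0) ^ 2) ≤ min c e0 * 1 :=
      mul_le_mul_of_nonneg_left (by norm_num at h1 h2 ⊢; linarith) (lt_min hc he0).le
    linarith

/-- From the strip to the whole square. -/
theorem flat_of_strip {s1 s2 s3 p0 q0 : ℝ} (hs2 : 0 ≤ s2)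
    (hs2' : s2 ≤ 1 / 2) (hs3 : 0 ≤ s3) (hq0 : 0 < q0)
    (hq1 : q0 < 1 / 2)
    (hst : ∃ c > 0, ∀ p ∈ Icc (0 : ℝ) (3 / 4), ∀ q ∈ Icc (0 : ℝ) (1 / 2),
      c * ((p - p0) ^ 2 + (q - q0) ^ 2) ≤ SS s1 s2 s3 p0 q0 p q)
    (F2 : 0 < Fi s2 s3 q0 (p0 + q0)) :
    ∃ c > 0, ∀ p ∈ Icc (0 : ℝ) (3 / 4), ∀ q ∈ Icc (0 : ℝ) (3 / 4),
      c * ((p - p0) ^ 2 + (q - q0) ^ 2) ≤ SS s1 s2 s3 p0 q0 p q := by
  obtain ⟨c, hc, h⟩ := hst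
  set f2 := Fi s2 s3 q0 (p0 + q0) with hf2
  refine ⟨min c (f2 / 4), lt_min hc (by linarith), ?_⟩
  intro p hp q hq
  have k1 : min c (f2 / 4) ≤ c := min_le_left _ _
  have k2 : min c (f2 / 4) ≤ f2 / 4 := min_le_right _ _
  have k0 : 0 < min c (f2 / 4) := lt_min hc (by linarith)
  set c' := min c (f2 / 4)
  simp only [mem_Icc] at hp hq
  rcases le_total q (1 / 2) with hle | hle
  · have a1 := h p hp q ⟨hq.1, hle⟩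
    have : c' * ((p - p0) ^ 2 + (q - q0) ^ 2) ≤ c * ((p - p0) ^ 2 + (q - q0) ^ 2) :=
      mul_le_mul_of_nonneg_right k1 (by positivity)
    linarith
  · obtain ⟨y, rfl⟩ : ∃ y, q = 1 / 2 + y := ⟨q - 1 / 2, by ring⟩
    have hy : 0 ≤ y := by linarith
    have hy1 : y ≤ 1 / 4 := by linarith
    have a1 := mir_right (s1 := s1) (p0 := p0) (q0 := q0) hs2 hs2' hs3 hy hy1 hp.1 hp.2
    have a2 := h p hp (1 / 2 - y) ⟨by linarith, by linarith⟩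
    have a3 := mir_dist hy hy1 hq0 hq1
    have a4 : c' * ((p - p0) ^ 2 + (1 / 2 - y - q0) ^ 2) ≤
        c * ((p - p0) ^ 2 + (1 / 2 - y - q0) ^ 2) := mul_le_mul_of_nonneg_right k1 (by positivity)
    have a5 : c' * (2 * y) ≤ f2 / 4 * (2 * y) := mul_le_mul_of_nonneg_right k2 (by linarith)
    have a6 : c' * (1 / 2 + y - q0) ^ 2 ≤ c' * ((1 / 2 - y - q0) ^ 2 + 2 * y) :=
      mul_le_mul_of_nonneg_left a3 k0.le
    have a7 : 0 ≤ y * f2 := mul_nonneg hy (by rw [hf2]; exact F2.le)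
    rw [← hf2] at a1
    nlinarith

/-- The numeric form of the reflection condition. -/
theorem Fi_pos {s s3 p0 P0 : ℝ} (hs : 0 ≤ s) (hs' : s ≤ 1 / 2) (hs3 : 0 ≤ s3)
    (hA : 0 < Sn p0 + s) (hB : 0 < Sn P0 + s3)
    (h : (Sn p0 + s) ^ 4 * ((1 / 2 + s3) * (0.8535 + s3)) <
      ((1 / 2 + s) * (0.8535 + s)) ^ 2 * (Sn P0 + s3) ^ 2) : 0 < Fi s s3 p0 P0 :=
  F_pos hs hs' hs3 hA hB h

end Pool.Agent.S5.C2
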