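import Pool.Agent.S5.I.C2m

/-!
# Closed vertices with two half twists: trapezoidal bounds
-/

set_option autoImplicit false

namespace Pool.Agent.S5.C2

open MeasureTheory Filter Topology Set

/-- The trapezoidal bound of a concave function. -/
theorem trap_gen {f : ℝ → ℝ} {a b : ℝ} (hc : ConcaveOn ℝ (Icc a b) f) (hab : a ≤ b)
    (hf : IntervalIntegrable f volume a b) : (b - a) * ((f a + f b) / 2) ≤ ∫ t in a..b, f t := by
  rcases hab.eq_or_lt with h | h
  · rw [h, intervalIntegral.integral_same, sub_self, zero_mul]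
  have hd : 0 < b - a := by linarith
  have hchord : ∀ t ∈ Icc a b, f a + (t - a) / (b - a) * (f b - f a) ≤ f t := by
    intro t ht
    have h1 := hc.2 (show a ∈ Icc a b from ⟨le_rfl, hab⟩) (show b ∈ Icc a b from ⟨hab, le_rfl⟩)
      (show 0 ≤ 1 - (t - a) / (b - a) by
        rw [sub_nonneg, div_le_one hd]
        linarith [ht.2])
      (show 0 ≤ (t - a) / (b - a) from div_nonneg (by linarith [ht.1]) hd.le) (by ring)
    simp only [smul_eq_mul] at h1
    have e : (1 - (t - a) / (b - a)) * a + (t - a) / (b - a) * b = t := by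
      field_simp
      ring
    rw [e] at h1
    linarith
  have h2 : ∫ t in a..b, (f a + (t - a) / (b - a) * (f b - f a)) ≤ ∫ t in a..b, f t := by
    apply intervalIntegral.integral_mono_on hab
    · apply Continuous.intervalIntegrable
      fun_prop
    · exact hf
    · intro t ht
      exact hchord t ht
  have h3 : ∫ t in a..b, (f a + (t - a) / (b - a) * (f b - f a)) = (b - a) * ((f a + f b) / 2) := by
    have h4 : ∀ t ∈ uIcc a b, HasDerivAt (fun t => f a * t + (t - a) ^ 2 / 2 / (b - a) *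
        (f b - f a)) (f a + (t - a) / (b - a) * (f b - f a)) t := by
      intro t _
      have d1 := (hasDerivAt_id t).const_mul (f a)
      have d2 := (((((hasDerivAt_id t).sub_const a).fun_pow 2).div_const 2).div_const (b - a)).mul_const
        (f b - f a)
      have d3 := d1.add d2
      refine d3.congr_deriv ?_
      simp
    rw [intervalIntegral.integral_eq_sub_of_hasDerivAt h4]
    · field_simp
      ring
    · apply Continuous.intervalIntegrable
      fun_prop
  linarith

/-- `2 Lq s - Lq s3` is concave on `[1/4, 1/2]` if `s ≤ 1/5`. -/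
theorem K_concave {s s3 : ℝ} (hs : 0 ≤ s) (hs' : s ≤ 1 / 5) (hs3 : 0 ≤ s3) :
    ConcaveOn ℝ (Icc (1 / 4 : ℝ) (1 / 2)) (fun t => 2 * Lq s t - Lq s3 t) := by
  have hpi := Real.pi_pos
  have hlow : ∀ t ∈ Icc (1 / 4 : ℝ) (1 / 2), 1 / 2 ≤ Sn t := fun t ht => by
    rw [← Sn_quarter]
    exact Sn_mono (by norm_num) ht.1 ht.2
  have hd : ∀ t ∈ Icc (1 / 4 : ℝ) (1 / 2), HasDerivAt (fun t => 2 * Lq s t - Lq s3 t)
      (2 * (Real.pi * (Real.sin (Real.pi * t) * Real.cos (Real.pi * t)) /
      (Real.sin (Real.pi * t) ^ 2 + s)) - Real.pi * (Real.sin (Real.pi * t) * Real.cos (Real.pi * t)) /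
      (Real.sin (Real.pi * t) ^ 2 + s3)) t := by
    intro t ht
    have h0 := hlow t ht
    unfold Sn at h0
    exact ((Lq_hasDerivAt (s := s) (by linarith)).const_mul 2).sub (Lq_hasDerivAt (s := s3) (by linarith))
  apply AntitoneOn.concaveOn_of_deriv (convex_Icc _ _)
  · intro t ht
    exact (hd t ht).continuousAt.continuousWithinAt
  · intro t ht
    exact (hd t (interior_subset ht)).differentiableAt.differentiableWithinAt
  · intro t ht t' ht' htt
    rw [(hd t (interior_subset ht)).deriv, (hd t' (interior_subset ht')).deriv]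
    have a1 := hlow t (interior_subset ht)
    have a2 := hlow t' (interior_subset ht')
    rw [interior_Icc] at ht ht'
    have a3 : Sn t ≤ Sn t' := Sn_mono (by linarith [ht.1]) htt ht'.2.le
    have a4 := Sn_le_one t'
    have d2 : Real.sin (Real.pi * t') * Real.cos (Real.pi * t') ≤
        Real.sin (Real.pi * t) * Real.cos (Real.pi * t) := by
      have e : ∀ t : ℝ, Real.sin (Real.pi * t) * Real.cos (Real.pi * t) =
          Real.sin (Real.pi - 2 * (Real.pi * t)) / 2 := by
        intro t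
        rw [Real.sin_pi_sub, Real.sin_two_mul]
        ring
      rw [e, e]
      have h3 : Real.sin (Real.pi - 2 * (Real.pi * t')) ≤ Real.sin (Real.pi - 2 * (Real.pi * t)) :=
        Real.sin_le_sin_of_le_of_le_pi_div_two (by nlinarith [ht'.2]) (by nlinarith [ht.1])
          (by nlinarith)
      linarith
    have d3 : 0 ≤ Real.sin (Real.pi * t') * Real.cos (Real.pi * t') := by
      apply mul_nonneg
      · exact Real.sin_nonneg_of_nonneg_of_le_pi (by nlinarith [ht'.1]) (by nlinarith [ht'.2])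
      · exact Real.cos_nonneg_of_neg_pi_div_two_le_of_le (by nlinarith [ht'.1]) (by nlinarith [ht'.2])
    unfold Sn at a1 a2 a3 a4
    set v := Real.sin (Real.pi * t) ^ 2
    set v' := Real.sin (Real.pi * t') ^ 2
    set u := Real.sin (Real.pi * t) * Real.cos (Real.pi * t)
    set u' := Real.sin (Real.pi * t') * Real.cos (Real.pi * t')
    -- the second factor
    have r0 : 0 ≤ 2 / (v' + s) - 1 / (v' + s3) := by
      rw [sub_nonneg, div_le_div_iff₀ (by linarith) (by linarith)]
      linarith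
    have r1 : 2 / (v' + s) - 1 / (v' + s3) ≤ 2 / (v + s) - 1 / (v + s3) := by
      have e1 : 1 / (v + s3) - 1 / (v' + s3) = (v' - v) / ((v + s3) * (v' + s3)) := by
        rw [div_sub_div _ _ (by linarith) (by linarith)]
        ring
      have e2 : 2 / (v + s) - 2 / (v' + s) = 2 * (v' - v) / ((v + s) * (v' + s)) := by
        rw [div_sub_div _ _ (by linarith) (by linarith)]
        ring
      have h1 : (v + s) * (v' + s) ≤ 2 * ((v + s3) * (v' + s3)) := by
        have h2 : s * (v + v') + s ^ 2 ≤ v * v' := by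
          have := mul_nonneg (show 0 ≤ v - 1 / 2 by linarith) (show 0 ≤ v' - 1 / 2 by linarith)
          nlinarith
        have h3 : 0 ≤ s3 * (v + v') := mul_nonneg hs3 (by linarith)
        nlinarith [sq_nonneg s3]
      have h2 : (v' - v) / ((v + s3) * (v' + s3)) ≤ 2 * (v' - v) / ((v + s) * (v' + s)) := by
        have p1 : 0 < v + s3 := by linarith
        have p2 : 0 < v' + s3 := by linarith
        have p3 : 0 < v + s := by linarith
        have p4 : 0 < v' + s := by linarith
        rw [div_le_div_iff₀ (by positivity) (by positivity)]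
        have := mul_le_mul_of_nonneg_left h1 (sub_nonneg.2 a3)
        linarith
      linarith
    have e3 : 2 * (Real.pi * u' / (v' + s)) - Real.pi * u' / (v' + s3) =
        Real.pi * (u' * (2 / (v' + s) - 1 / (v' + s3))) := by ring
    have e4 : 2 * (Real.pi * u / (v + s)) - Real.pi * u / (v + s3) =
        Real.pi * (u * (2 / (v + s) - 1 / (v + s3))) := by ring
    rw [e3, e4]
    apply mul_le_mul_of_nonneg_left _ hpi.le
    exact mul_le_mul d2 r1 r0 (d3.trans d2)

theorem Sn_thd : Sn (1 / 3) = 3 / 4 := by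
  unfold Sn
  rw [show Real.pi * (1 / 3) = Real.pi / 3 by ring, Real.sin_pi_div_three, div_pow,
    Real.sq_sqrt (by norm_num)]
  norm_num

theorem Sn_five12 : 0.933 ≤ Sn (5 / 12) ∧ Sn (5 / 12) ≤ 0.9331 := by
  have h1 : Sn (5 / 12) = (1 + √3 / 2) / 2 := by
    unfold Sn
    rw [Real.sin_sq_eq_half_sub, show 2 * (Real.pi * (5 / 12)) = Real.pi - Real.pi / 6 by ring,
      Real.cos_pi_sub, Real.cos_pi_div_six]
    ring
  have h2 : (1.732 : ℝ) ≤ √3 := Real.le_sqrt_of_sq_le (by norm_num)
  have h3 : √3 ≤ 1.7321 := Real.sqrt_le_iff.2 ⟨by norm_num, by norm_num⟩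
  rw [h1]
  constructor <;> linarith

/-- The four nodes. -/
noncomputable def X4 (c s : ℝ) : ℝ := (1 / 2 + s) * (1 + s) * ((3 / 4 + s) * (c + s)) ^ 2

/-- **The trapezoidal bound** of the condition for the reflection. -/
theorem Fi_tr {s s3 p0 P0 : ℝ} (hs : 0 ≤ s) (hs' : s ≤ 1 / 5) (hs3 : 0 ≤ s3)
    (hA : 0 < Sn p0 + s) (hB : 0 < Sn P0 + s3) :
    2 * Real.log (X4 0.933 s) - 12 * Real.log (Sn p0 + s) - Real.log (X4 0.9331 s3) +
      6 * Real.log (Sn P0 + s3) ≤ 48 * Fi s s3 p0 P0 := by
  have hK := K_concave hs hs' hs3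
  have hi : ∀ a b : ℝ, IntervalIntegrable (fun t => 2 * Lq s t - Lq s3 t) volume a b :=
    fun a b => ((Lq_int hs a b).const_mul 2).sub (Lq_int hs3 a b)
  have sub : ∀ a b : ℝ, 1 / 4 ≤ a → a ≤ b → b ≤ 1 / 2 →
      (b - a) * ((2 * Lq s a - Lq s3 a + (2 * Lq s b - Lq s3 b)) / 2) ≤
        ∫ t in a..b, (2 * Lq s t - Lq s3 t) := by
    intro a b h1 h2 h3
    exact trap_gen (hK.subset (Icc_subset_Icc h1 h3) (convex_Icc _ _)) h2 (hi a b)
  have t1 := sub (1 / 4) (1 / 3) le_rfl (by norm_num) (by norm_num)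
  have t2 := sub (1 / 3) (5 / 12) (by norm_num) (by norm_num) (by norm_num)
  have t3 := sub (5 / 12) (1 / 2) (by norm_num) (by norm_num) le_rfl
  have e1 := intervalIntegral.integral_add_adjacent_intervals (hi (1 / 4) (1 / 3)) (hi (1 / 3) (5 / 12))
  have e2 := intervalIntegral.integral_add_adjacent_intervals (hi (1 / 4) (5 / 12)) (hi (5 / 12) (1 / 2))
  have e3 : Fi s s3 p0 P0 = (∫ t in (1 / 4 : ℝ)..(1 / 2 : ℝ), (2 * Lq s t - Lq s3 t)) -
      1 / 4 * (2 * Lq s p0 - Lq s3 P0) := by
    unfold Fi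
    have : ∀ t : ℝ, 2 * (Lq s t - Lq s p0) - (Lq s3 t - Lq s3 P0) = (2 * Lq s t - Lq s3 t) -
        (2 * Lq s p0 - Lq s3 P0) := fun t => by ring
    simp only [this]
    rw [intervalIntegral.integral_sub (hi _ _) (by simp), intervalIntegral.integral_const, smul_eq_mul]
    norm_num
  obtain ⟨f1, f2⟩ := Sn_five12
  have h5 : ∀ x : ℝ, 0 < x → Real.log (4 * x) = Real.log 4 + Real.log x := fun x hx =>
    Real.log_mul (by norm_num) hx.ne'
  have q1 : Lq s (1 / 4) = (Real.log 4 + Real.log (1 / 2 + s)) / 2 := by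
    rw [Lq_eq, Sn_quarter, h5 _ (by linarith)]
  have q2 : Lq s (1 / 3) = (Real.log 4 + Real.log (3 / 4 + s)) / 2 := by
    rw [Lq_eq, Sn_thd, h5 _ (by linarith)]
  have q3 : (Real.log 4 + Real.log (0.933 + s)) / 2 ≤ Lq s (5 / 12) := by
    rw [Lq_eq, h5 _ (by linarith)]
    have := Real.log_le_log (show 0 < 0.933 + s by linarith) (show 0.933 + s ≤ Sn (5 / 12) + s by linarith)
    linarith
  have q4 : Lq s (1 / 2) = (Real.log 4 + Real.log (1 + s)) / 2 := by
    rw [Lq_eq, Sn_half, h5 _ (by linarith)]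
  have r1 : Lq s3 (1 / 4) = (Real.log 4 + Real.log (1 / 2 + s3)) / 2 := by
    rw [Lq_eq, Sn_quarter, h5 _ (by linarith)]
  have r2 : Lq s3 (1 / 3) = (Real.log 4 + Real.log (3 / 4 + s3)) / 2 := by
    rw [Lq_eq, Sn_thd, h5 _ (by linarith)]
  have r3 : Lq s3 (5 / 12) ≤ (Real.log 4 + Real.log (0.9331 + s3)) / 2 := by
    rw [Lq_eq, h5 _ (by linarith)]
    have := Real.log_le_log (show 0 < Sn (5 / 12) + s3 by linarith)
      (show Sn (5 / 12) + s3 ≤ 0.9331 + s3 by linarith)
    linarith
  have r4 : Lq s3 (1 / 2) = (Real.log 4 + Real.log (1 + s3)) / 2 := by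
    rw [Lq_eq, Sn_half, h5 _ (by linarith)]
  have g1 : Lq s p0 = (Real.log 4 + Real.log (Sn p0 + s)) / 2 := by rw [Lq_eq, h5 _ hA]
  have g2 : Lq s3 P0 = (Real.log 4 + Real.log (Sn P0 + s3)) / 2 := by rw [Lq_eq, h5 _ hB]
  have x1 : Real.log (X4 0.933 s) = Real.log (1 / 2 + s) + Real.log (1 + s) +
      2 * (Real.log (3 / 4 + s) + Real.log (0.933 + s)) := by
    unfold X4
    rw [Real.log_mul (by positivity) (by positivity), Real.log_mul (by positivity) (by positivity),
      Real.log_pow, Real.log_mul (by positivity) (by positivity)]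
    push_cast
    ring
  have x2 : Real.log (X4 0.9331 s3) = Real.log (1 / 2 + s3) + Real.log (1 + s3) +
      2 * (Real.log (3 / 4 + s3) + Real.log (0.9331 + s3)) := by
    unfold X4
    rw [Real.log_mul (by positivity) (by positivity), Real.log_mul (by positivity) (by positivity),
      Real.log_pow, Real.log_mul (by positivity) (by positivity)]
    push_cast
    ring
  rw [x1, x2, e3, g1, g2]
  linarith

/-- The numeric form. -/
theorem Fi_pos3 {s s3 p0 P0 : ℝ} (hs : 0 ≤ s) (hs' : s ≤ 1 / 5) (hs3 : 0 ≤ s3)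
    (hA : 0 < Sn p0 + s) (hB : 0 < Sn P0 + s3)
    (h : (Sn p0 + s) ^ 12 * X4 0.9331 s3 < X4 0.933 s ^ 2 * (Sn P0 + s3) ^ 6) :
    0 < Fi s s3 p0 P0 := by
  have h1 := Fi_tr hs hs' hs3 hA hB
  have p1 : 0 < X4 0.9331 s3 := by
    unfold X4
    positivity
  have p2 : 0 < X4 0.933 s := by
    unfold X4
    positivity
  have h2 := Real.log_lt_log (by positivity) h
  rw [Real.log_mul (by positivity) (by positivity), Real.log_mul (by positivity) (by positivity),
    Real.log_pow, Real.log_pow, Real.log_pow] at h2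
  push_cast at h2
  linarith

end Pool.Agent.S5.C2
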