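import Pool.Agent.S5.I.C2n

/-!
# Closed vertices with two half twists: the strip by a shifted window
-/

set_option autoImplicit false

namespace Pool.Agent.S5.C2

open MeasureTheory Filter Topology Set

theorem Sn_cos (t : ℝ) : Sn t = (1 - Real.cos (2 * Real.pi * t)) / 2 := by
  unfold Sn
  rw [Real.sin_sq_eq_half_sub, show 2 * (Real.pi * t) = 2 * Real.pi * t by ring]
  ring

/-- The midpoint inequality. -/
theorem pair_le {s m u : ℝ} (h0 : 0 < Sn (m + u) + s) (h1 : 0 < Sn (m - u) + s) (h2 : 0 < Sn m + s)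
    (h : 2 * (1 + 2 * s) * Real.cos (2 * Real.pi * m) ≤ Real.cos (2 * Real.pi * u) + 1) :
    Lq s (m + u) + Lq s (m - u) ≤ 2 * Lq s m := by
  have e1 : Real.cos (2 * Real.pi * (m + u)) = Real.cos (2 * Real.pi * m) * Real.cos (2 * Real.pi * u) -
      Real.sin (2 * Real.pi * m) * Real.sin (2 * Real.pi * u) := by
    rw [mul_add, Real.cos_add]
  have e2 : Real.cos (2 * Real.pi * (m - u)) = Real.cos (2 * Real.pi * m) * Real.cos (2 * Real.pi * u) +
      Real.sin (2 * Real.pi * m) * Real.sin (2 * Real.pi * u) := by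
    rw [mul_sub, Real.cos_sub]
  have e3 := Real.sin_sq_add_cos_sq (2 * Real.pi * m)
  have e4 := Real.sin_sq_add_cos_sq (2 * Real.pi * u)
  have e5 := Real.cos_le_one (2 * Real.pi * u)
  have key : (Sn (m + u) + s) * (Sn (m - u) + s) ≤ (Sn m + s) ^ 2 := by
    rw [Sn_cos, Sn_cos (m - u), Sn_cos m, e1, e2]
    generalize Real.cos (2 * Real.pi * m) = w at *
    generalize Real.sin (2 * Real.pi * m) = w' at *
    generalize Real.cos (2 * Real.pi * u) = C at *
    generalize Real.sin (2 * Real.pi * u) = C' at *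
    have h3 : 0 ≤ (1 - C) * (C + 1 - 2 * (1 + 2 * s) * w) := mul_nonneg (by linarith) (by linarith)
    have h4 : (w' * C') ^ 2 = (1 - w ^ 2) * (1 - C ^ 2) := by
      rw [mul_pow, show w' ^ 2 = 1 - w ^ 2 by linarith, show C' ^ 2 = 1 - C ^ 2 by linarith]
    nlinarith
  have h3 := Real.log_le_log (mul_pos h0 h1) key
  rw [Real.log_mul h0.ne' h1.ne', Real.log_pow] at h3
  push_cast at h3
  rw [Lq_eq, Lq_eq, Lq_eq, Real.log_mul (by norm_num) h0.ne', Real.log_mul (by norm_num) h1.ne',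
    Real.log_mul (by norm_num) h2.ne']
  linarith

/-- Substitutions. -/
theorem int_refl {s : ℝ} (a b d : ℝ) (hd : ∀ t, Lq s (d - t) = Lq s t) :
    ∫ t in a..b, Lq s t = ∫ t in (d - b)..(d - a), Lq s t := by
  rw [← intervalIntegral.integral_comp_sub_left (fun t => Lq s t) d]
  simp only [hd]

theorem Lq_refl1 (s t : ℝ) : Lq s (1 - t) = Lq s t := by
  rw [Lq_eq, Lq_eq, Sn_one_sub]

theorem Lq_refl2 (s t : ℝ) : Lq s (2 - t) = Lq s t := by
  have : (2 : ℝ) - t = (1 - t) + 1 := by ring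
  rw [this, Lq_per, Lq_refl1]

theorem int_shift {s : ℝ} (a b d : ℝ) : ∫ t in a..b, Lq s (t + d) = ∫ t in (a + d)..(b + d), Lq s t := by
  rw [intervalIntegral.integral_comp_add_right (fun t => Lq s t) d]

theorem Lq_int_shift {s : ℝ} (hs : 0 ≤ s) (a b d : ℝ) :
    IntervalIntegrable (fun t => Lq s (t + d)) volume a b := by
  have := (Lq_int hs (a + d) (b + d)).comp_add_right d
  simpa using this

theorem mono_except {f g : ℝ → ℝ} {a b : ℝ} (d : ℝ) (hab : a ≤ b)
    (hf : ∀ a b, IntervalIntegrable f volume a b) (hg : ∀ a b, IntervalIntegrable g volume a b)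
    (h : ∀ t ∈ Ioo a b, t ≠ d → f t ≤ g t) : ∫ t in a..b, f t ≤ ∫ t in a..b, g t := by
  by_cases hd : a < d ∧ d < b
  · rw [← intervalIntegral.integral_add_adjacent_intervals (hf a d) (hf d b),
      ← intervalIntegral.integral_add_adjacent_intervals (hg a d) (hg d b)]
    apply add_le_add
    · apply intervalIntegral.integral_mono_on_of_le_Ioo hd.1.le (hf _ _) (hg _ _)
      intro t ht
      exact h t ⟨ht.1, ht.2.trans hd.2⟩ ht.2.ne
    · apply intervalIntegral.integral_mono_on_of_le_Ioo hd.2.le (hf _ _) (hg _ _)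
      intro t ht
      exact h t ⟨hd.1.trans ht.1, ht.2⟩ ht.1.ne'
  · apply intervalIntegral.integral_mono_on_of_le_Ioo hab (hf _ _) (hg _ _)
    intro t ht
    apply h t ht
    rintro rfl
    exact hd ht

/-- The windows. -/
theorem win_le {s x q c : ℝ} (hs : 0 ≤ s) (hx : 0 ≤ x) (hx1 : x ≤ 1 / 4) (hc : 0 < c) (hc1 : c ≤ 1 / 4)
    (hq : c ≤ q) (hq1 : q ≤ 1 / 2) :
    ∫ t in (1 / 2 + q)..(1 / 2 + q + x), Lq s t ≤ ∫ t in (1 / 2 + c)..(1 / 2 + c + x), Lq s t := by
  -- first for small `q`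
  have small : ∀ q, c ≤ q → q ≤ (1 - x) / 2 →
      ∫ t in (1 / 2 + q)..(1 / 2 + q + x), Lq s t ≤ ∫ t in (1 / 2 + c)..(1 / 2 + c + x), Lq s t := by
    intro q h1 h2
    have a1 := intervalIntegral.integral_add_adjacent_intervals (Lq_int hs (1 / 2 + c) (1 / 2 + q))
      (Lq_int hs (1 / 2 + q) (1 / 2 + q + x))
    have a2 := intervalIntegral.integral_add_adjacent_intervals (Lq_int hs (1 / 2 + c) (1 / 2 + c + x))
      (Lq_int hs (1 / 2 + c + x) (1 / 2 + q + x))
    have a3 : ∫ t in (1 / 2 + c + x)..(1 / 2 + q + x), Lq s t ≤ ∫ t in (1 / 2 + c)..(1 / 2 + q), Lq s t := by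
      have e1 : ∫ t in (1 / 2 + c + x)..(1 / 2 + q + x), Lq s t =
          ∫ t in (1 / 2 + c)..(1 / 2 + q), Lq s (t + x) := (int_shift _ _ _).symm
      rw [e1]
      apply mono_except (1 - x) (by linarith) (fun a b => Lq_int_shift hs _ _ _)
        (fun a b => Lq_int hs _ _)
      intro t ht hne
      obtain ⟨u, rfl⟩ : ∃ u, t = 1 / 2 + u := ⟨t - 1 / 2, by ring⟩
      have u0 : c < u := by linarith [ht.1]
      have u1 : u < q := by linarith [ht.2]
      have b1 : Sn (1 / 2 + u + x) = 1 - Sn (u + x) := by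
        rw [show 1 / 2 + u + x = 1 / 2 + (u + x) by ring, Sn_half_add]
      have b2 : Sn (1 / 2 + u) = 1 - Sn u := Sn_half_add u
      have b3 : Sn u ≤ Sn (u + x) := Sn_ge (by linarith) (by linarith) (by linarith)
      have b4 : 0 < Sn (1 / 2 + u + x) := by
        rcases lt_or_gt_of_ne (show 1 / 2 + u + x ≠ 1 from fun h => hne (by linarith)) with h | h
        · exact Sn_pos (by linarith) h
        · rw [← Sn_sub_one]
          exact Sn_pos (by linarith) (by linarith)
      exact Lq_mono_t hs (by linarith) (by linarith)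
    linarith
  rcases le_total q ((1 - x) / 2) with h | h
  · exact small q hq h
  · have h3 := small (1 - x - q) (by linarith) (by linarith)
    have h4 := int_refl (s := s) (1 / 2 + q) (1 / 2 + q + x) 2 (Lq_refl2 s)
    rw [h4]
    have e1 : 2 - (1 / 2 + q + x) = 1 / 2 + (1 - x - q) := by ring
    have e2 : 2 - (1 / 2 + q) = 1 / 2 + (1 - x - q) + x := by ring
    rw [e1, e2]
    exact h3

/-- The combination is antitone on `[1/2, 3/4]`. -/
theorem K_anti {s1 s3 t t' c d : ℝ} (hs1 : 0 ≤ s1) (hs1' : s1 ≤ 1 / 2) (hs3 : 0 ≤ s3)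
    (h0 : 1 / 2 ≤ t) (h1 : t ≤ t') (h2 : t' ≤ 3 / 4) :
    2 * (Lq s1 t' - c) - (Lq s3 t' - d) ≤ 2 * (Lq s1 t - c) - (Lq s3 t - d) := by
  have := g_mono (c := c) (t := 1 - t') (t' := 1 - t) hs1 hs1' hs3 (by linarith) (by linarith) (by linarith)
  rw [Lq_refl1, Lq_refl1, Lq_refl1, Lq_refl1] at this
  linarith

/-- The shifted combination is antitone on `[5/8, 3/4]`. -/
theorem Kc_anti {s1 s3 : ℝ} (hs1 : 0 ≤ s1) (hs1' : s1 ≤ 2 / 25) (hs3 : 0 ≤ s3) :
    AntitoneOn (fun t => 2 * Lq s1 t - Lq s3 (t + 1 / 16)) (Icc (5 / 8 : ℝ) (3 / 4)) := by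
  have hpi := Real.pi_pos
  have hpi1 := Real.pi_lt_d2
  have hpi0 := Real.pi_gt_d2
  have p1 : ∀ t ∈ Icc (5 / 8 : ℝ) (3 / 4), 0 < Sn t := fun t ht =>
    Sn_pos (by linarith [ht.1]) (by linarith [ht.2])
  have p2 : ∀ t ∈ Icc (5 / 8 : ℝ) (3 / 4), 0 < Sn (t + 1 / 16) := fun t ht =>
    Sn_pos (by linarith [ht.1]) (by linarith [ht.2])
  have hd : ∀ t ∈ Icc (5 / 8 : ℝ) (3 / 4), HasDerivAt (fun t => 2 * Lq s1 t - Lq s3 (t + 1 / 16))
      (2 * (Real.pi * (Real.sin (Real.pi * t) * Real.cos (Real.pi * t)) /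
      (Real.sin (Real.pi * t) ^ 2 + s1)) -
      Real.pi * (Real.sin (Real.pi * (t + 1 / 16)) * Real.cos (Real.pi * (t + 1 / 16))) /
      (Real.sin (Real.pi * (t + 1 / 16)) ^ 2 + s3)) t := by
    intro t ht
    have h0 := p1 t ht
    have h1 := p2 t ht
    unfold Sn at h0 h1
    have d1 := (Lq_hasDerivAt (s := s1) (t := t) (by linarith)).const_mul 2
    have d2 := (Lq_hasDerivAt (s := s3) (t := t + 1 / 16) (by linarith)).comp_add_const t (1 / 16)
    exact d1.sub d2
  apply antitoneOn_of_deriv_nonpos (convex_Icc _ _)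
  · intro t ht
    exact (hd t ht).continuousAt.continuousWithinAt
  · intro t ht
    exact (hd t (interior_subset ht)).differentiableAt.differentiableWithinAt
  · intro t ht
    have ht' := interior_subset ht
    rw [(hd t ht').deriv]
    have h0 := p1 t ht'
    have h1 := p2 t ht'
    obtain ⟨t0, t1⟩ := ht'
    have hy : Real.pi * (t + 1 / 16) = Real.pi * t + Real.pi / 16 := by ring
    unfold Sn at h0 h1
    rw [hy] at h1 ⊢
    obtain ⟨x, hx⟩ : ∃ x, x = Real.pi * t := ⟨_, rfl⟩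
    obtain ⟨δ, hδ⟩ : ∃ δ, δ = Real.pi / 16 := ⟨_, rfl⟩
    have x0 : 5 / 8 * Real.pi ≤ x := by
      rw [hx]
      nlinarith
    have x1 : x ≤ 3 / 4 * Real.pi := by
      rw [hx]
      nlinarith
    rw [← hx] at h0
    rw [← hx, ← hδ] at h1 ⊢
    have hδ0 : 0 < δ := by rw [hδ]; positivity
    have hδ1 : δ ≤ 0.197 := by rw [hδ]; linarith
    have sx : 0.707 ≤ Real.sin x := by
      have e1 : Real.sin x = Real.sin (Real.pi - x) := (Real.sin_pi_sub x).symm
      have e2 : Real.sin (Real.pi / 4) ≤ Real.sin (Real.pi - x) :=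
        Real.sin_le_sin_of_le_of_le_pi_div_two (by linarith) (by linarith) (by linarith)
      rw [Real.sin_pi_div_four] at e2
      have : (1.414 : ℝ) ≤ √2 := Real.le_sqrt_of_sq_le (by norm_num)
      rw [e1]
      linarith
    have sy : 0 < Real.sin (x + δ) := Real.sin_pos_of_pos_of_lt_pi (by linarith) (by
      rw [hδ]
      linarith)
    have cy : Real.cos (x + δ) ≤ 0 := Real.cos_nonpos_of_pi_div_two_le_of_le (by linarith) (by
      rw [hδ]
      linarith)
    have cy1 := Real.neg_one_le_cos (x + δ)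
    have sδ : Real.sin δ ≤ δ := Real.sin_le hδ0.le
    -- the sum
    have sxy : 0.82 ≤ -Real.sin (x + (x + δ)) := by
      have e1 : -Real.sin (x + (x + δ)) = Real.cos (x + (x + δ) - 3 * Real.pi / 2) := by
        have : Real.cos (x + (x + δ) - 3 * Real.pi / 2) = Real.cos ((x + (x + δ) - Real.pi) - Real.pi / 2) := by
          congr 1
          ring
        rw [this, Real.cos_sub_pi_div_two, Real.sin_sub_pi]
      have e2 : |x + (x + δ) - 3 * Real.pi / 2| ≤ 0.591 := by
        rw [abs_le]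
        constructor
        · rw [hδ]
          linarith
        · linarith
      have e3 := Real.one_sub_sq_div_two_le_cos (x := x + (x + δ) - 3 * Real.pi / 2)
      have e4 : (x + (x + δ) - 3 * Real.pi / 2) ^ 2 ≤ 0.591 ^ 2 := sq_le_sq' (abs_le.1 e2).1 (abs_le.1 e2).2
      rw [e1]
      norm_num at e4
      linarith
    have id1 : Real.cos (x + δ) * Real.sin x - Real.cos x * Real.sin (x + δ) = -Real.sin δ := by
      have := Real.sin_sub x (x + δ)
      rw [show x - (x + δ) = -δ by ring, Real.sin_neg] at this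
      linarith
    have id2 : 2 * (Real.cos x * Real.sin (x + δ)) = Real.sin (x + (x + δ)) + Real.sin δ := by
      have e1 := Real.sin_add x (x + δ)
      have e2 := Real.sin_sub (x + δ) x
      rw [show x + δ - x = δ by ring] at e2
      linarith
    have key : 0 ≤ Real.cos (x + δ) * (Real.sin x ^ 2 + s1) - 2 * Real.sin x * Real.cos x * Real.sin (x + δ) := by
      have e1 : Real.cos (x + δ) * (Real.sin x ^ 2 + s1) - 2 * Real.sin x * Real.cos x * Real.sin (x + δ) =
          Real.sin x * ((Real.cos (x + δ) * Real.sin x - Real.cos x * Real.sin (x + δ)) -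
            Real.cos x * Real.sin (x + δ)) + s1 * Real.cos (x + δ) := by ring
      have e2 : (Real.cos (x + δ) * Real.sin x - Real.cos x * Real.sin (x + δ)) -
            Real.cos x * Real.sin (x + δ) = -(3 / 2) * Real.sin δ - Real.sin (x + (x + δ)) / 2 := by
        linarith
      rw [e1, e2]
      have e3 : 0.1145 ≤ -(3 / 2) * Real.sin δ - Real.sin (x + (x + δ)) / 2 := by linarith
      have e4 : 0.707 * 0.1145 ≤ Real.sin x * (-(3 / 2) * Real.sin δ - Real.sin (x + (x + δ)) / 2) :=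
        mul_le_mul sx e3 (by norm_num) (by linarith)
      have e5 : -s1 ≤ s1 * Real.cos (x + δ) := by nlinarith
      norm_num at e4
      linarith
    have q1 : 0 < Real.sin x ^ 2 + s1 := by linarith
    have q2 : 0 < Real.sin (x + δ) ^ 2 + s3 := by linarith
    -- compare with the quotient without `s3`
    have k1 : Real.cos (x + δ) / Real.sin (x + δ) ≤
        Real.sin (x + δ) * Real.cos (x + δ) / (Real.sin (x + δ) ^ 2 + s3) := by
      rw [div_le_div_iff₀ sy q2]
      have : Real.cos (x + δ) * s3 ≤ 0 := mul_nonpos_of_nonpos_of_nonneg cy hs3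
      nlinarith
    have k2 : 2 * (Real.sin x * Real.cos x) / (Real.sin x ^ 2 + s1) ≤
        Real.cos (x + δ) / Real.sin (x + δ) := by
      rw [div_le_div_iff₀ q1 sy]
      linarith
    have k3 : 2 * (Real.sin x * Real.cos x) / (Real.sin x ^ 2 + s1) ≤
        Real.sin (x + δ) * Real.cos (x + δ) / (Real.sin (x + δ) ^ 2 + s3) := k2.trans k1
    have k4 := mul_le_mul_of_nonneg_left k3 hpi.le
    have e6 : 2 * (Real.pi * (Real.sin x * Real.cos x) / (Real.sin x ^ 2 + s1)) =
        Real.pi * (2 * (Real.sin x * Real.cos x) / (Real.sin x ^ 2 + s1)) := by ring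
    have e7 : Real.pi * (Real.sin (x + δ) * Real.cos (x + δ)) / (Real.sin (x + δ) ^ 2 + s3) =
        Real.pi * (Real.sin (x + δ) * Real.cos (x + δ) / (Real.sin (x + δ) ^ 2 + s3)) := by ring
    rw [e6, e7]
    linarith

/-! ### Numbers -/

theorem Sn_sixteenth : Sn (1 / 16) ≤ 0.0386 := by
  have hpi := Real.pi_lt_d4
  have hpi0 := Real.pi_pos
  have h1 : Real.sin (Real.pi * (1 / 16)) ≤ Real.pi * (1 / 16) := Real.sin_le (by positivity)
  have h2 : 0 ≤ Real.sin (Real.pi * (1 / 16)) :=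
    Real.sin_nonneg_of_nonneg_of_le_pi (by positivity) (by linarith)
  unfold Sn
  have h3 : Real.sin (Real.pi * (1 / 16)) ^ 2 ≤ 0.19635 ^ 2 := pow_le_pow_left₀ h2 (by linarith) 2
  norm_num at h3 ⊢
  linarith

theorem Sn_three16 : 0.308 ≤ Sn (3 / 16) := by
  have h1 : Sn (3 / 16) = (1 - √(2 - √2) / 2) / 2 := by
    unfold Sn
    rw [Real.sin_sq_eq_half_sub, show 2 * (Real.pi * (3 / 16)) = Real.pi / 2 - Real.pi / 8 by ring,
      Real.cos_pi_div_two_sub, Real.sin_pi_div_eight]
    ring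
  have h2 : (1.4142 : ℝ) ≤ √2 := Real.le_sqrt_of_sq_le (by norm_num)
  have h3 : √(2 - √2) ≤ 0.7655 := by
    rw [Real.sqrt_le_iff]
    constructor
    · norm_num
    · norm_num
      linarith
  rw [h1]
  linarith

theorem Sn_seven32 : Sn (7 / 32) ≤ 0.4025 := by
  have h1 : Sn (7 / 32) = (1 - Real.sin (Real.pi / 16)) / 2 := by
    unfold Sn
    rw [Real.sin_sq_eq_half_sub, show 2 * (Real.pi * (7 / 32)) = Real.pi / 2 - Real.pi / 16 by ring,
      Real.cos_pi_div_two_sub]
    ring
  have h2 : √2 ≤ 1.41422 := Real.sqrt_le_iff.2 ⟨by norm_num, by norm_num⟩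
  have h3 : √(2 + √2) ≤ 1.84777 := by
    rw [Real.sqrt_le_iff]
    constructor
    · norm_num
    · norm_num
      linarith
  have h4 : 0.3901 ≤ √(2 - √(2 + √2)) := by
    apply Real.le_sqrt_of_sq_le
    norm_num
    linarith
  rw [h1, Real.sin_pi_div_sixteen]
  linarith

theorem Sn_38_le : Sn (3 / 8) ≤ 0.8536 := by
  have h1 : Sn (3 / 8) = (1 + √2 / 2) / 2 := by
    unfold Sn
    rw [Real.sin_sq_eq_half_sub, show 2 * (Real.pi * (3 / 8)) = Real.pi - Real.pi / 4 by ring,
      Real.cos_pi_sub, Real.cos_pi_div_four]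
    ring
  have h2 : √2 ≤ 1.4143 := Real.sqrt_le_iff.2 ⟨by norm_num, by norm_num⟩
  rw [h1]
  linarith

/-- The upper bound of the last part of the window. -/
theorem gain_up {s : ℝ} (hs : 0 ≤ s) (hs' : s ≤ 1) :
    ∫ t in (3 / 4 : ℝ)..(13 / 16), Lq s t ≤ 1 / 16 * Lq s (25 / 32) := by
  have hI := fun a b : ℝ => Lq_int hs a b
  rw [← intervalIntegral.integral_add_adjacent_intervals (hI (3 / 4) (25 / 32)) (hI (25 / 32) (13 / 16))]
  have e1 : ∫ t in (3 / 4 : ℝ)..(25 / 32), Lq s t = ∫ u in (0 : ℝ)..(1 / 32), Lq s (25 / 32 - u) := by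
    rw [intervalIntegral.integral_comp_sub_left (fun t => Lq s t) (25 / 32)]
    norm_num
  have e2 : ∫ t in (25 / 32 : ℝ)..(13 / 16), Lq s t = ∫ u in (0 : ℝ)..(1 / 32), Lq s (25 / 32 + u) := by
    rw [intervalIntegral.integral_comp_add_left (fun t => Lq s t) (25 / 32)]
    norm_num
  have i1 : IntervalIntegrable (fun u => Lq s (25 / 32 - u)) volume 0 (1 / 32) := by
    have := (hI (25 / 32 - 0) (25 / 32 - 1 / 32)).comp_sub_left (25 / 32)
    simpa using this
  have i2 : IntervalIntegrable (fun u => Lq s (25 / 32 + u)) volume 0 (1 / 32) := by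
    have := (hI (25 / 32 + 0) (25 / 32 + 1 / 32)).comp_add_left (25 / 32)
    simpa using this
  rw [e1, e2, ← intervalIntegral.integral_add i1 i2]
  have h1 : ∫ u in (0 : ℝ)..(1 / 32), (Lq s (25 / 32 - u) + Lq s (25 / 32 + u)) ≤
      ∫ _u in (0 : ℝ)..(1 / 32), 2 * Lq s (25 / 32) := by
    apply intervalIntegral.integral_mono_on (by norm_num) (i1.add i2) (by simp)
    intro u hu
    have hpi := Real.pi_pos
    have a1 : 0 < Sn (25 / 32 + u) := Sn_pos (by linarith [hu.1]) (by linarith [hu.2])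
    have a2 : 0 < Sn (25 / 32 - u) := Sn_pos (by linarith [hu.2]) (by linarith [hu.1])
    have a3 : 0 < Sn (25 / 32) := Sn_pos (by norm_num) (by norm_num)
    have a4 : Real.cos (2 * Real.pi * (25 / 32)) ≤ 0.2 := by
      have h7 := Sn_seven32
      have h8 : Sn (25 / 32) = Sn (7 / 32) := by
        rw [← Sn_one_sub (7 / 32)]
        norm_num
      have h9 := Sn_cos (25 / 32)
      have h10 : 0.4 ≤ Sn (25 / 32) := by
        rw [h8]
        have h1 : Sn (7 / 32) = (1 - Real.sin (Real.pi / 16)) / 2 := by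
          unfold Sn
          rw [Real.sin_sq_eq_half_sub, show 2 * (Real.pi * (7 / 32)) = Real.pi / 2 - Real.pi / 16 by ring,
            Real.cos_pi_div_two_sub]
          ring
        have h2 : Real.sin (Real.pi / 16) ≤ Real.pi / 16 := Real.sin_le (by positivity)
        have := Real.pi_lt_d2
        rw [h1]
        linarith
      linarith
    have a5 : 0.9 ≤ Real.cos (2 * Real.pi * u) := by
      have h1 := Real.one_sub_sq_div_two_le_cos (x := 2 * Real.pi * u)
      have h2 : 2 * Real.pi * u ≤ 0.2 := by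
        have := Real.pi_lt_d2
        nlinarith [hu.1, hu.2]
      have h3 : 0 ≤ 2 * Real.pi * u := mul_nonneg (by positivity) hu.1
      have h4 : (2 * Real.pi * u) ^ 2 ≤ 0.2 ^ 2 := pow_le_pow_left₀ h3 h2 2
      norm_num at h4
      linarith
    have := pair_le (s := s) (m := 25 / 32) (u := u) (by linarith) (by linarith) (by linarith) (by
      have h1 : 2 * (1 + 2 * s) * Real.cos (2 * Real.pi * (25 / 32)) ≤ 2 * (1 + 2 * s) * 0.2 :=
        mul_le_mul_of_nonneg_left a4 (by linarith)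
      linarith)
    linarith
  rw [intervalIntegral.integral_const, smul_eq_mul] at h1
  linarith

end Pool.Agent.S5.C2
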