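import Pool.Agent.S5.I.C2o

/-!
# Closed vertices with two half twists: the strip by a shifted window, conclusion
-/

set_option autoImplicit false

namespace Pool.Agent.S5.C2

open MeasureTheory Filter Topology Set

/-- An integral over the beginning of an interval of an antitone function. -/
theorem int_begin {f : ℝ → ℝ} {a b c : ℝ} (hab : a ≤ b) (hbc : b ≤ c)
    (hf : ∀ a b, IntervalIntegrable f volume a b) (hm : AntitoneOn f (Icc a c))
    (h0 : 0 ≤ ∫ t in a..c, f t) : 0 ≤ ∫ t in a..b, f t := by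
  rcases le_total 0 (f b) with h | h
  · apply intervalIntegral.integral_nonneg hab
    intro t ht
    exact h.trans (hm ⟨ht.1, ht.2.trans hbc⟩ ⟨hab, hbc⟩ ht.2)
  · have e := intervalIntegral.integral_add_adjacent_intervals (hf a b) (hf b c)
    have h1 : ∫ t in b..c, f t ≤ ∫ _t in b..c, (0 : ℝ) := by
      apply intervalIntegral.integral_mono_on hbc (hf _ _) (by simp)
      intro t ht
      exact (hm ⟨hab, hbc⟩ ⟨hab.trans ht.1, ht.2⟩ ht.1).trans h
    rw [intervalIntegral.integral_zero] at h1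
    linarith

variable {s1 s3 p0 P0 : ℝ}

theorem G_int (hs1 : 0 ≤ s1) (hs3 : 0 ≤ s3) (c d e a b : ℝ) : IntervalIntegrable
    (fun t => 2 * (Lq s1 t - c) - (Lq s3 (t + e) - d)) volume a b :=
  (((Lq_int hs1 a b).sub (by simp)).const_mul 2).sub ((Lq_int_shift hs3 a b e).sub (by simp))

/-- The window function is not negative. -/
theorem Hc_nonneg (hs1 : 0 ≤ s1) (hs1' : s1 ≤ 2 / 25) (hs3 : 0 ≤ s3) (hs3' : s3 ≤ 1)
    (hA : 0 < Sn p0 + s1) (hB : 0 < Sn P0 + s3)
    (C2 : (Sn p0 + s1) ^ 4 * ((1 + s3) * (0.8536 + s3)) ≤ ((1 + s1) * (0.8535 + s1)) ^ 2 * (Sn P0 + s3) ^ 2)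
    (C3 : (Sn p0 + s1) ^ 48 * X4 0.9331 s3 ^ 4 * (0.4025 + s3) ^ 6 ≤
      X4 0.933 s1 ^ 8 * (Sn P0 + s3) ^ 24 * ((1 + s3) * (0.9614 + s3)) ^ 3)
    {x : ℝ} (hx : 0 ≤ x) (hx1 : x ≤ 1 / 4) :
    0 ≤ ∫ t in (1 / 2 : ℝ)..(1 / 2 + x), (2 * (Lq s1 t - Lq s1 p0) - (Lq s3 (t + 1 / 16) - Lq s3 P0)) := by
  have h5 : ∀ x : ℝ, 0 < x → Real.log (4 * x) = Real.log 4 + Real.log x := fun x hx =>
    Real.log_mul (by norm_num) hx.ne'
  have iG : ∀ a b, IntervalIntegrable (fun t => 2 * (Lq s1 t - Lq s1 p0) - (Lq s3 t - Lq s3 P0)) volume a b := by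
    intro a b
    have := G_int (s1 := s1) (s3 := s3) hs1 hs3 (Lq s1 p0) (Lq s3 P0) 0 a b
    simpa using this
  have iGc : ∀ a b, IntervalIntegrable
      (fun t => 2 * (Lq s1 t - Lq s1 p0) - (Lq s3 (t + 1 / 16) - Lq s3 P0)) volume a b :=
    fun a b => G_int hs1 hs3 _ _ _ a b
  have g1 : Lq s1 p0 = (Real.log 4 + Real.log (Sn p0 + s1)) / 2 := by rw [Lq_eq, h5 _ hA]
  have g2 : Lq s3 P0 = (Real.log 4 + Real.log (Sn P0 + s3)) / 2 := by rw [Lq_eq, h5 _ hB]
  have refl : ∀ a b : ℝ, ∫ t in a..b, (2 * (Lq s1 t - Lq s1 p0) - (Lq s3 t - Lq s3 P0)) =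
      ∫ t in (1 - b)..(1 - a), (2 * (Lq s1 t - Lq s1 p0) - (Lq s3 t - Lq s3 P0)) := by
    intro a b
    rw [← intervalIntegral.integral_comp_sub_left
      (fun t => 2 * (Lq s1 t - Lq s1 p0) - (Lq s3 t - Lq s3 P0)) 1]
    simp only [Lq_refl1]
  have anti : AntitoneOn (fun t => 2 * (Lq s1 t - Lq s1 p0) - (Lq s3 t - Lq s3 P0))
      (Icc (1 / 2 : ℝ) (3 / 4)) := by
    intro t ht t' ht' htt
    exact K_anti hs1 (by linarith) hs3 ht.1 htt ht'.2
  -- `5/8`
  have H8 : 0 ≤ ∫ t in (1 / 2 : ℝ)..(5 / 8), (2 * (Lq s1 t - Lq s1 p0) - (Lq s3 t - Lq s3 P0)) := by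
    rw [refl]
    have e1 : (1 : ℝ) - 5 / 8 = 3 / 8 := by norm_num
    have e2 : (1 : ℝ) - 1 / 2 = 1 / 2 := by norm_num
    rw [e1, e2]
    have hc := (K_concave hs1 (show s1 ≤ 1 / 5 by linarith) hs3).subset
      (Icc_subset_Icc (show (1 / 4 : ℝ) ≤ 3 / 8 by norm_num) le_rfl) (convex_Icc _ _)
    have ht := trap_gen hc (by norm_num) (((Lq_int hs1 _ _).const_mul 2).sub (Lq_int hs3 _ _))
    have e3 : ∀ t : ℝ, 2 * (Lq s1 t - Lq s1 p0) - (Lq s3 t - Lq s3 P0) = (2 * Lq s1 t - Lq s3 t) -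
        (2 * Lq s1 p0 - Lq s3 P0) := fun t => by ring
    simp only [e3]
    rw [intervalIntegral.integral_sub (((Lq_int hs1 _ _).const_mul 2).sub (Lq_int hs3 _ _)) (by simp),
      intervalIntegral.integral_const, smul_eq_mul]
    have v1 := Sn_three_eighths
    have v2 := Sn_38_le
    have q1 : (Real.log 4 + Real.log (0.8535 + s1)) / 2 ≤ Lq s1 (3 / 8) := by
      rw [Lq_eq, h5 _ (by linarith)]
      have := Real.log_le_log (show 0 < 0.8535 + s1 by linarith)
        (show 0.8535 + s1 ≤ Sn (3 / 8) + s1 by linarith)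
      linarith
    have q2 : Lq s3 (3 / 8) ≤ (Real.log 4 + Real.log (0.8536 + s3)) / 2 := by
      rw [Lq_eq, h5 _ (by linarith)]
      have := Real.log_le_log (show 0 < Sn (3 / 8) + s3 by linarith)
        (show Sn (3 / 8) + s3 ≤ 0.8536 + s3 by linarith)
      linarith
    have q3 : Lq s1 (1 / 2) = (Real.log 4 + Real.log (1 + s1)) / 2 := by
      rw [Lq_eq, Sn_half, h5 _ (by linarith)]
    have q4 : Lq s3 (1 / 2) = (Real.log 4 + Real.log (1 + s3)) / 2 := by
      rw [Lq_eq, Sn_half, h5 _ (by linarith)]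
    have c2 := Real.log_le_log (by positivity) C2
    have l1 : Real.log ((Sn p0 + s1) ^ 4 * ((1 + s3) * (0.8536 + s3))) = 4 * Real.log (Sn p0 + s1) +
        (Real.log (1 + s3) + Real.log (0.8536 + s3)) := by
      rw [Real.log_mul (by positivity) (by positivity), Real.log_pow,
        Real.log_mul (by positivity) (by positivity)]
      push_cast
      ring
    have l2 : Real.log (((1 + s1) * (0.8535 + s1)) ^ 2 * (Sn P0 + s3) ^ 2) =
        2 * (Real.log (1 + s1) + Real.log (0.8535 + s1)) + 2 * Real.log (Sn P0 + s3) := by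
      rw [Real.log_mul (by positivity) (by positivity), Real.log_pow, Real.log_pow,
        Real.log_mul (by positivity) (by positivity)]
      push_cast
      ring
    rw [l1, l2] at c2
    linarith
  -- the window at `3/4`
  have H4 : 0 ≤ ∫ t in (1 / 2 : ℝ)..(3 / 4),
      (2 * (Lq s1 t - Lq s1 p0) - (Lq s3 (t + 1 / 16) - Lq s3 P0)) := by
    have e1 : ∀ t : ℝ, 2 * (Lq s1 t - Lq s1 p0) - (Lq s3 (t + 1 / 16) - Lq s3 P0) =
        (2 * (Lq s1 t - Lq s1 p0) - (Lq s3 t - Lq s3 P0)) + (Lq s3 t - Lq s3 (t + 1 / 16)) :=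
      fun t => by ring
    simp only [e1]
    rw [intervalIntegral.integral_add (iG _ _) ((Lq_int hs3 _ _).sub (Lq_int_shift hs3 _ _ _)),
      intervalIntegral.integral_sub (Lq_int hs3 _ _) (Lq_int_shift hs3 _ _ _), int_shift, refl]
    have e2 : (1 : ℝ) - 3 / 4 = 1 / 4 := by norm_num
    have e3 : (1 : ℝ) - 1 / 2 = 1 / 2 := by norm_num
    have e4 : (1 : ℝ) / 2 + 1 / 16 = 9 / 16 := by norm_num
    have e5 : (3 : ℝ) / 4 + 1 / 16 = 13 / 16 := by norm_num
    rw [e2, e3, e4, e5]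
    have a1 := Fi_tr hs1 (show s1 ≤ 1 / 5 by linarith) hs3 hA hB
    unfold Fi at a1
    have a2 := intervalIntegral.integral_add_adjacent_intervals (Lq_int hs3 (1 / 2) (9 / 16))
      (Lq_int hs3 (9 / 16) (3 / 4))
    have a3 := intervalIntegral.integral_add_adjacent_intervals (Lq_int hs3 (9 / 16) (3 / 4))
      (Lq_int hs3 (3 / 4) (13 / 16))
    have a4 := gain_up hs3 hs3'
    have a5 := trap (c := 0) hs3 (le_refl (1 / 2 : ℝ)) (show (1 / 2 : ℝ) ≤ 9 / 16 by norm_num)
      (show (9 / 16 : ℝ) ≤ 3 / 4 by norm_num)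
    simp only [sub_zero] at a5
    have b1 : Sn (9 / 16) = 1 - Sn (1 / 16) := by
      rw [← Sn_half_add]
      norm_num
    have b2 := Sn_sixteenth
    have b3 : Sn (25 / 32) = Sn (7 / 32) := by
      rw [← Sn_one_sub (7 / 32)]
      norm_num
    have b4 := Sn_seven32
    have b5 : 0 < Sn (25 / 32) := Sn_pos (by norm_num) (by norm_num)
    have q1 : Lq s3 (1 / 2) = (Real.log 4 + Real.log (1 + s3)) / 2 := by
      rw [Lq_eq, Sn_half, h5 _ (by linarith)]
    have q2 : (Real.log 4 + Real.log (0.9614 + s3)) / 2 ≤ Lq s3 (9 / 16) := by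
      rw [Lq_eq, h5 _ (by linarith)]
      have := Real.log_le_log (show 0 < 0.9614 + s3 by linarith)
        (show 0.9614 + s3 ≤ Sn (9 / 16) + s3 by linarith)
      linarith
    have q3 : Lq s3 (25 / 32) ≤ (Real.log 4 + Real.log (0.4025 + s3)) / 2 := by
      rw [Lq_eq, h5 _ (by linarith)]
      have := Real.log_le_log (show 0 < Sn (25 / 32) + s3 by linarith)
        (show Sn (25 / 32) + s3 ≤ 0.4025 + s3 by linarith)
      linarith
    have p1 : 0 < X4 0.9331 s3 := by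
      unfold X4
      positivity
    have p2 : 0 < X4 0.933 s1 := by
      unfold X4
      positivity
    have c3 := Real.log_le_log (by positivity) C3
    have l1 : Real.log ((Sn p0 + s1) ^ 48 * X4 0.9331 s3 ^ 4 * (0.4025 + s3) ^ 6) =
        48 * Real.log (Sn p0 + s1) + 4 * Real.log (X4 0.9331 s3) + 6 * Real.log (0.4025 + s3) := by
      rw [Real.log_mul (by positivity) (by positivity), Real.log_mul (by positivity) (by positivity),
        Real.log_pow, Real.log_pow, Real.log_pow]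
      push_cast
      ring
    have l2 : Real.log (X4 0.933 s1 ^ 8 * (Sn P0 + s3) ^ 24 * ((1 + s3) * (0.9614 + s3)) ^ 3) =
        8 * Real.log (X4 0.933 s1) + 24 * Real.log (Sn P0 + s3) +
          3 * (Real.log (1 + s3) + Real.log (0.9614 + s3)) := by
      rw [Real.log_mul (by positivity) (by positivity), Real.log_mul (by positivity) (by positivity),
        Real.log_pow, Real.log_pow, Real.log_pow, Real.log_mul (by positivity) (by positivity)]
      push_cast
      ring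
    rw [l1, l2] at c3
    linarith
  -- the beginning
  have Hc8 : ∀ x : ℝ, 0 ≤ x → x ≤ 1 / 8 → 0 ≤ ∫ t in (1 / 2 : ℝ)..(1 / 2 + x),
      (2 * (Lq s1 t - Lq s1 p0) - (Lq s3 (t + 1 / 16) - Lq s3 P0)) := by
    intro x hx hx1
    have h1 := int_begin (f := fun t => 2 * (Lq s1 t - Lq s1 p0) - (Lq s3 t - Lq s3 P0))
      (a := 1 / 2) (b := 1 / 2 + x) (c := 5 / 8) (by linarith) (by linarith) iG
      (anti.mono (Icc_subset_Icc le_rfl (by norm_num))) H8
    refine h1.trans ?_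
    apply intervalIntegral.integral_mono_on (by linarith) (iG _ _) (iGc _ _)
    intro t ht
    have a1 : Sn (t + 1 / 16) ≤ Sn t := Sn_anti ht.1 (by linarith) (by linarith [ht.2])
    have a2 : 0 < Sn (t + 1 / 16) := Sn_pos (by linarith [ht.1]) (by linarith [ht.2])
    have := Lq_mono_t hs3 (show 0 < Sn (t + 1 / 16) + s3 by linarith) a1
    linarith
  rcases le_total x (1 / 8) with h | h
  · exact Hc8 x hx h
  · have a1 := Hc8 (1 / 8) (by norm_num) le_rfl
    rw [show (1 : ℝ) / 2 + 1 / 8 = 5 / 8 by norm_num] at a1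
    have antic : AntitoneOn (fun t => 2 * (Lq s1 t - Lq s1 p0) - (Lq s3 (t + 1 / 16) - Lq s3 P0))
        (Icc (5 / 8 : ℝ) (3 / 4)) := by
      intro t ht t' ht' htt
      have := Kc_anti hs1 hs1' hs3 ht ht' htt
      simp only at this ⊢
      linarith
    have e1 := intervalIntegral.integral_add_adjacent_intervals (iGc (1 / 2) (5 / 8)) (iGc (5 / 8) (1 / 2 + x))
    rcases le_total 0 (2 * (Lq s1 (1 / 2 + x) - Lq s1 p0) - (Lq s3 (1 / 2 + x + 1 / 16) - Lq s3 P0)) with h2 | h2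
    · have h3 : 0 ≤ ∫ t in (5 / 8 : ℝ)..(1 / 2 + x),
          (2 * (Lq s1 t - Lq s1 p0) - (Lq s3 (t + 1 / 16) - Lq s3 P0)) := by
        apply intervalIntegral.integral_nonneg (by linarith)
        intro t ht
        exact h2.trans (antic ⟨ht.1, by linarith [ht.2]⟩ ⟨by linarith, by linarith⟩ ht.2)
      linarith
    · have e2 := intervalIntegral.integral_add_adjacent_intervals (iGc (1 / 2) (1 / 2 + x))
        (iGc (1 / 2 + x) (3 / 4))
      have h3 : ∫ t in (1 / 2 + x)..(3 / 4),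
          (2 * (Lq s1 t - Lq s1 p0) - (Lq s3 (t + 1 / 16) - Lq s3 P0)) ≤ ∫ _t in (1 / 2 + x)..(3 / 4), (0 : ℝ) := by
        apply intervalIntegral.integral_mono_on (by linarith) (iGc _ _) (by simp)
        intro t ht
        exact (antic ⟨by linarith, by linarith⟩ ⟨by linarith [ht.1], ht.2⟩ ht.1).trans h2
      rw [intervalIntegral.integral_zero] at h3
      linarith

end Pool.Agent.S5.C2
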