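import Pool.Agent.S5.I.C2p

/-!
# Closed vertices with two half twists: the strip from the window
-/

set_option autoImplicit false

namespace Pool.Agent.S5.C2

open MeasureTheory Filter Topology Set

/-- From the line `p = 1 / 2` to the strip, by a shifted window. -/
theorem M_win {s1 s2 s3 p0 q0 e0 : ℝ} (hs1 : 0 ≤ s1) (hs1' : s1 ≤ 2 / 25) (hs2 : 0 < s2) (hs3 : 0 ≤ s3)
    (hs3' : s3 ≤ 1) (hA : 0 < Sn p0 + s1) (hA2 : 0 < Sn q0 + s2) (hB : 0 < Sn (p0 + q0) + s3)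
    (C1 : (0.0386 + s2) ^ 2 * (Sn (p0 + q0) + s3) ≤ (Sn q0 + s2) ^ 2 * (0.308 + s3))
    (C2 : (Sn p0 + s1) ^ 4 * ((1 + s3) * (0.8536 + s3)) ≤
      ((1 + s1) * (0.8535 + s1)) ^ 2 * (Sn (p0 + q0) + s3) ^ 2)
    (C3 : (Sn p0 + s1) ^ 48 * X4 0.9331 s3 ^ 4 * (0.4025 + s3) ^ 6 ≤
      X4 0.933 s1 ^ 8 * (Sn (p0 + q0) + s3) ^ 24 * ((1 + s3) * (0.9614 + s3)) ^ 3)
    (h0 : ∀ q ∈ Icc (0 : ℝ) (1 / 2), e0 ≤ SS s1 s2 s3 p0 q0 (1 / 2) q)
    (p q : ℝ) (hp : 1 / 2 ≤ p) (hp' : p ≤ 3 / 4) (hq : 0 ≤ q) (hq' : q ≤ 1 / 2) :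
    e0 ≤ SS s1 s2 s3 p0 q0 p q := by
  have big : ∀ q : ℝ, 1 / 16 ≤ q → q ≤ 1 / 2 → e0 ≤ SS s1 s2 s3 p0 q0 p q := by
    intro q hq hq'
    have a0 := h0 q ⟨by linarith, hq'⟩
    obtain ⟨x, rfl⟩ : ∃ x, p = 1 / 2 + x := ⟨p - 1 / 2, by ring⟩
    have a1 := Hc_nonneg (x := x) hs1 hs1' hs3 hs3' hA hB C2 C3 (by linarith) (by linarith)
    have d1 := Dq_sub hs1 p0 (1 / 2) (1 / 2 + x)
    have d3 := Dq_sub hs3 (p0 + q0) (1 / 2 + q) (1 / 2 + x + q)
    have a2 := win_le (s := s3) (x := x) (q := q) (c := 1 / 16) hs3 (by linarith) (by linarith) (by norm_num)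
      (by norm_num) hq hq'
    have e1 : 1 / 2 + x + q = 1 / 2 + q + x := by ring
    rw [e1] at d3
    rw [intervalIntegral.integral_sub (Lq_int hs3 _ _) (by simp), intervalIntegral.integral_const,
      smul_eq_mul] at d3
    have e2 : ∫ t in (1 / 2 : ℝ)..(1 / 2 + x), (2 * (Lq s1 t - Lq s1 p0) - (Lq s3 (t + 1 / 16) -
        Lq s3 (p0 + q0))) = 2 * (∫ t in (1 / 2 : ℝ)..(1 / 2 + x), (Lq s1 t - Lq s1 p0)) -
        ((∫ t in (1 / 2 + 1 / 16 : ℝ)..(1 / 2 + 1 / 16 + x), Lq s3 t) - x * Lq s3 (p0 + q0)) := by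
      have i1 : IntervalIntegrable (fun t => Lq s1 t - Lq s1 p0) volume (1 / 2) (1 / 2 + x) :=
        (Lq_int hs1 _ _).sub (by simp)
      have i3 : IntervalIntegrable (fun t => Lq s3 (t + 1 / 16)) volume (1 / 2) (1 / 2 + x) :=
        Lq_int_shift hs3 _ _ _
      rw [intervalIntegral.integral_sub (i1.const_mul 2) (i3.sub (by simp)),
        intervalIntegral.integral_const_mul, intervalIntegral.integral_sub i3 (by simp),
        int_shift, intervalIntegral.integral_const, smul_eq_mul]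
      have e3 : (1 : ℝ) / 2 + x + 1 / 16 = 1 / 2 + 1 / 16 + x := by ring
      have e4 : (1 : ℝ) / 2 + x - 1 / 2 = x := by ring
      rw [e3, e4]
    rw [e2] at a1
    unfold SS at a0 ⊢
    rw [e1]
    have e5 : (1 : ℝ) / 2 + q + x - (1 / 2 + q) = x := by ring
    rw [e5] at d3
    linarith
  rcases le_total (1 / 16) q with h | h
  · exact big q h hq'
  · have a0 := big (1 / 16) le_rfl (by norm_num)
    refine a0.trans ?_
    -- decrease in `q`
    have d2 := Dq_sub hs2.le q0 q (1 / 16)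
    have d3 := Dq_sub hs3 (p0 + q0) (p + q) (p + 1 / 16)
    have p316 := Sn_three16
    have e13 : Sn (13 / 16) = Sn (3 / 16) := by
      rw [← Sn_one_sub (3 / 16)]
      norm_num
    have b1 : ∫ t in q..(1 / 16), (Lq s2 t - Lq s2 q0) ≤ (1 / 16 - q) * (Lq s2 (1 / 16) - Lq s2 q0) := by
      have h3 : ∫ t in q..(1 / 16), (Lq s2 t - Lq s2 q0) ≤ ∫ _t in q..(1 / 16 : ℝ), (Lq s2 (1 / 16) - Lq s2 q0) := by
        apply intervalIntegral.integral_mono_on h ((Lq_int hs2.le _ _).sub (by simp)) (by simp)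
        intro t ht
        have := Lq_mono_t (t := t) (t' := 1 / 16) hs2.le (by linarith [Sn_nonneg t])
          (Sn_mono (by linarith [ht.1]) ht.2 (by norm_num))
        linarith
      rw [intervalIntegral.integral_const, smul_eq_mul] at h3
      exact h3
    have b3 : (1 / 16 - q) * (Lq s3 (13 / 16) - Lq s3 (p0 + q0)) ≤
        ∫ t in (p + q)..(p + 1 / 16), (Lq s3 t - Lq s3 (p0 + q0)) := by
      have h3 : ∫ _t in (p + q)..(p + 1 / 16), (Lq s3 (13 / 16) - Lq s3 (p0 + q0)) ≤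
          ∫ t in (p + q)..(p + 1 / 16), (Lq s3 t - Lq s3 (p0 + q0)) := by
        apply intervalIntegral.integral_mono_on (by linarith) (by simp) ((Lq_int hs3 _ _).sub (by simp))
        intro t ht
        have := Lq_mono_t (t := 13 / 16) (t' := t) hs3 (by linarith)
          (Sn_anti (by linarith [ht.1]) (by linarith [ht.2]) (by norm_num))
        linarith
      rw [intervalIntegral.integral_const, smul_eq_mul] at h3
      have e : p + 1 / 16 - (p + q) = 1 / 16 - q := by ring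
      rw [e] at h3
      exact h3
    -- the slopes
    have hS := Sn_sixteenth
    have h16 := Sn_nonneg (1 / 16)
    have k : 2 * (Lq s2 (1 / 16) - Lq s2 q0) ≤ Lq s3 (13 / 16) - Lq s3 (p0 + q0) := by
      have h5 : ∀ x : ℝ, 0 < x → Real.log (4 * x) = Real.log 4 + Real.log x := fun x hx =>
        Real.log_mul (by norm_num) hx.ne'
      have q1 : Lq s2 (1 / 16) ≤ (Real.log 4 + Real.log (0.0386 + s2)) / 2 := by
        rw [Lq_eq, h5 _ (by linarith)]
        have := Real.log_le_log (show 0 < Sn (1 / 16) + s2 by linarith)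
          (show Sn (1 / 16) + s2 ≤ 0.0386 + s2 by linarith)
        linarith
      have q2 : (Real.log 4 + Real.log (0.308 + s3)) / 2 ≤ Lq s3 (13 / 16) := by
        rw [Lq_eq, h5 _ (by linarith)]
        have := Real.log_le_log (show 0 < 0.308 + s3 by linarith)
          (show 0.308 + s3 ≤ Sn (13 / 16) + s3 by linarith)
        linarith
      have g1 : Lq s2 q0 = (Real.log 4 + Real.log (Sn q0 + s2)) / 2 := by rw [Lq_eq, h5 _ hA2]
      have g2 : Lq s3 (p0 + q0) = (Real.log 4 + Real.log (Sn (p0 + q0) + s3)) / 2 := by rw [Lq_eq, h5 _ hB]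
      have c1 := Real.log_le_log (by positivity) C1
      have l1 : Real.log ((0.0386 + s2) ^ 2 * (Sn (p0 + q0) + s3)) = 2 * Real.log (0.0386 + s2) +
          Real.log (Sn (p0 + q0) + s3) := by
        rw [Real.log_mul (by positivity) (by positivity), Real.log_pow]
        push_cast
        ring
      have l2 : Real.log ((Sn q0 + s2) ^ 2 * (0.308 + s3)) = 2 * Real.log (Sn q0 + s2) +
          Real.log (0.308 + s3) := by
        rw [Real.log_mul (by positivity) (by positivity), Real.log_pow]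
        push_cast
        ring
      rw [l1, l2] at c1
      linarith
    have m := mul_le_mul_of_nonneg_left k (show 0 ≤ 1 / 16 - q by linarith)
    unfold SS
    linarith

/-- **The strip from the square**, by a shifted window. -/
theorem strip_W {s1 s2 s3 p0 q0 : ℝ} (hs1 : 0 ≤ s1) (hs1' : s1 ≤ 2 / 25) (hs2 : 0 < s2) (hs3 : 0 ≤ s3)
    (hs3' : s3 ≤ 1) (hp0 : 0 < p0) (hp1 : p0 < 1 / 2) (hq0 : 0 < q0) (hq1 : q0 < 1 / 2)
    (C1 : (0.0386 + s2) ^ 2 * (Sn (p0 + q0) + s3) ≤ (Sn q0 + s2) ^ 2 * (0.308 + s3))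
    (C2 : (Sn p0 + s1) ^ 4 * ((1 + s3) * (0.8536 + s3)) ≤
      ((1 + s1) * (0.8535 + s1)) ^ 2 * (Sn (p0 + q0) + s3) ^ 2)
    (C3 : (Sn p0 + s1) ^ 48 * X4 0.9331 s3 ^ 4 * (0.4025 + s3) ^ 6 ≤
      X4 0.933 s1 ^ 8 * (Sn (p0 + q0) + s3) ^ 24 * ((1 + s3) * (0.9614 + s3)) ^ 3)
    (hsq : ∃ c > 0, ∀ p ∈ Icc (0 : ℝ) (1 / 2), ∀ q ∈ Icc (0 : ℝ) (1 / 2),
      c * ((p - p0) ^ 2 + (q - q0) ^ 2) ≤ SS s1 s2 s3 p0 q0 p q) :
    ∃ c > 0, ∀ p ∈ Icc (0 : ℝ) (3 / 4), ∀ q ∈ Icc (0 : ℝ) (1 / 2),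
      c * ((p - p0) ^ 2 + (q - q0) ^ 2) ≤ SS s1 s2 s3 p0 q0 p q := by
  have a1 := Sn_pos hp0 (show p0 < 1 by linarith)
  have a2 := Sn_pos hq0 (show q0 < 1 by linarith)
  have a3 := Sn_pos (t := p0 + q0) (by linarith) (by linarith)
  exact strip_M hp0 hp1 hq0 hq1 hsq fun e0 h p q h1 h2 h3 h4 =>
    M_win hs1 hs1' hs2 hs3 hs3' (by linarith) (by linarith) (by linarith) C1 C2 C3 h p q h1 h2 h3 h4

end Pool.Agent.S5.C2
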