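import Pool.Agent.S5.I.CxS

/-!
# The table of the cotangent is right
-/

set_option autoImplicit false

namespace Pool.Agent.S5.Cx

theorem kk_0 : rowCK 0 13 88 k0 = true := by
  decide +kernel

theorem rC_0 : rowC 0 = k0 := by
  unfold rowC
  rfl

theorem eC_0 (i : ℕ) (h0 : 13 ≤ i) (h : i ≤ 100) : CotOK i 0 (entC i 0) := by
  unfold entC
  rw [rC_0]
  exact rowCK_sound kk_0 i h0 (by omega)

theorem kk_1 : rowCK 1 13 88 k1 = true := by
  decide +kernel

theorem rC_1 : rowC 1 = k1 := by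
  unfold rowC
  rfl

theorem eC_1 (i : ℕ) (h0 : 13 ≤ i) (h : i ≤ 100) : CotOK i 1 (entC i 1) := by
  unfold entC
  rw [rC_1]
  exact rowCK_sound kk_1 i h0 (by omega)

theorem kk_2 : rowCK 2 13 88 k2 = true := by
  decide +kernel

theorem rC_2 : rowC 2 = k2 := by
  unfold rowC
  rfl

theorem eC_2 (i : ℕ) (h0 : 13 ≤ i) (h : i ≤ 100) : CotOK i 2 (entC i 2) := by
  unfold entC
  rw [rC_2]
  exact rowCK_sound kk_2 i h0 (by omega)

theorem kk_3 : rowCK 3 13 88 k3 = true := by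
  decide +kernel

theorem rC_3 : rowC 3 = k3 := by
  unfold rowC
  rfl

theorem eC_3 (i : ℕ) (h0 : 13 ≤ i) (h : i ≤ 100) : CotOK i 3 (entC i 3) := by
  unfold entC
  rw [rC_3]
  exact rowCK_sound kk_3 i h0 (by omega)

theorem kk_4 : rowCK 4 13 88 k4 = true := by
  decide +kernel

theorem rC_4 : rowC 4 = k4 := by
  unfold rowC
  rfl

theorem eC_4 (i : ℕ) (h0 : 13 ≤ i) (h : i ≤ 100) : CotOK i 4 (entC i 4) := by
  unfold entC
  rw [rC_4]
  exact rowCK_sound kk_4 i h0 (by omega)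

theorem kk_5 : rowCK 5 13 88 k5 = true := by
  decide +kernel

theorem rC_5 : rowC 5 = k5 := by
  unfold rowC
  rfl

theorem eC_5 (i : ℕ) (h0 : 13 ≤ i) (h : i ≤ 100) : CotOK i 5 (entC i 5) := by
  unfold entC
  rw [rC_5]
  exact rowCK_sound kk_5 i h0 (by omega)

theorem kk_6 : rowCK 6 13 88 k6 = true := by
  decide +kernel

theorem rC_6 : rowC 6 = k6 := by
  unfold rowC
  rfl

theorem eC_6 (i : ℕ) (h0 : 13 ≤ i) (h : i ≤ 100) : CotOK i 6 (entC i 6) := by
  unfold entC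
  rw [rC_6]
  exact rowCK_sound kk_6 i h0 (by omega)

theorem kk_7 : rowCK 7 13 88 k7 = true := by
  decide +kernel

theorem rC_7 : rowC 7 = k7 := by
  unfold rowC
  rfl

theorem eC_7 (i : ℕ) (h0 : 13 ≤ i) (h : i ≤ 100) : CotOK i 7 (entC i 7) := by
  unfold entC
  rw [rC_7]
  exact rowCK_sound kk_7 i h0 (by omega)

theorem kk_8 : rowCK 8 13 88 k8 = true := by
  decide +kernel

theorem rC_8 : rowC 8 = k8 := by
  unfold rowC
  rfl

theorem eC_8 (i : ℕ) (h0 : 13 ≤ i) (h : i ≤ 100) : CotOK i 8 (entC i 8) := by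
  unfold entC
  rw [rC_8]
  exact rowCK_sound kk_8 i h0 (by omega)

theorem kk_9 : rowCK 9 13 88 k9 = true := by
  decide +kernel

theorem rC_9 : rowC 9 = k9 := by
  unfold rowC
  rfl

theorem eC_9 (i : ℕ) (h0 : 13 ≤ i) (h : i ≤ 100) : CotOK i 9 (entC i 9) := by
  unfold entC
  rw [rC_9]
  exact rowCK_sound kk_9 i h0 (by omega)

theorem kk_10 : rowCK 10 13 88 k10 = true := by
  decide +kernel

theorem rC_10 : rowC 10 = k10 := by
  unfold rowC
  rfl

theorem eC_10 (i : ℕ) (h0 : 13 ≤ i) (h : i ≤ 100) : CotOK i 10 (entC i 10) := by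
  unfold entC
  rw [rC_10]
  exact rowCK_sound kk_10 i h0 (by omega)

theorem kk_11 : rowCK 11 13 88 k11 = true := by
  decide +kernel

theorem rC_11 : rowC 11 = k11 := by
  unfold rowC
  rfl

theorem eC_11 (i : ℕ) (h0 : 13 ≤ i) (h : i ≤ 100) : CotOK i 11 (entC i 11) := by
  unfold entC
  rw [rC_11]
  exact rowCK_sound kk_11 i h0 (by omega)

theorem kk_12 : rowCK 12 13 88 k12 = true := by
  decide +kernel

theorem rC_12 : rowC 12 = k12 := by
  unfold rowC
  rfl

theorem eC_12 (i : ℕ) (h0 : 13 ≤ i) (h : i ≤ 100) : CotOK i 12 (entC i 12) := by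
  unfold entC
  rw [rC_12]
  exact rowCK_sound kk_12 i h0 (by omega)

theorem kk_13 : rowCK 13 13 88 k13 = true := by
  decide +kernel

theorem rC_13 : rowC 13 = k13 := by
  unfold rowC
  rfl

theorem eC_13 (i : ℕ) (h0 : 13 ≤ i) (h : i ≤ 100) : CotOK i 13 (entC i 13) := by
  unfold entC
  rw [rC_13]
  exact rowCK_sound kk_13 i h0 (by omega)

theorem kk_14 : rowCK 14 13 88 k14 = true := by
  decide +kernel

theorem rC_14 : rowC 14 = k14 := by
  unfold rowC
  rfl

theorem eC_14 (i : ℕ) (h0 : 13 ≤ i) (h : i ≤ 100) : CotOK i 14 (entC i 14) := by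
  unfold entC
  rw [rC_14]
  exact rowCK_sound kk_14 i h0 (by omega)

theorem kk_15 : rowCK 15 13 88 k15 = true := by
  decide +kernel

theorem rC_15 : rowC 15 = k15 := by
  unfold rowC
  rfl

theorem eC_15 (i : ℕ) (h0 : 13 ≤ i) (h : i ≤ 100) : CotOK i 15 (entC i 15) := by
  unfold entC
  rw [rC_15]
  exact rowCK_sound kk_15 i h0 (by omega)

theorem kk_16 : rowCK 16 13 88 k16 = true := by
  decide +kernel

theorem rC_16 : rowC 16 = k16 := by
  unfold rowC
  rfl

theorem eC_16 (i : ℕ) (h0 : 13 ≤ i) (h : i ≤ 100) : CotOK i 16 (entC i 16) := by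
  unfold entC
  rw [rC_16]
  exact rowCK_sound kk_16 i h0 (by omega)

theorem kk_17 : rowCK 17 13 88 k17 = true := by
  decide +kernel

theorem rC_17 : rowC 17 = k17 := by
  unfold rowC
  rfl

theorem eC_17 (i : ℕ) (h0 : 13 ≤ i) (h : i ≤ 100) : CotOK i 17 (entC i 17) := by
  unfold entC
  rw [rC_17]
  exact rowCK_sound kk_17 i h0 (by omega)

theorem kk_18 : rowCK 18 13 88 k18 = true := by
  decide +kernel

theorem rC_18 : rowC 18 = k18 := by
  unfold rowC
  rfl

theorem eC_18 (i : ℕ) (h0 : 13 ≤ i) (h : i ≤ 100) : CotOK i 18 (entC i 18) := by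
  unfold entC
  rw [rC_18]
  exact rowCK_sound kk_18 i h0 (by omega)

theorem kk_19 : rowCK 19 13 88 k19 = true := by
  decide +kernel

theorem rC_19 : rowC 19 = k19 := by
  unfold rowC
  rfl

theorem eC_19 (i : ℕ) (h0 : 13 ≤ i) (h : i ≤ 100) : CotOK i 19 (entC i 19) := by
  unfold entC
  rw [rC_19]
  exact rowCK_sound kk_19 i h0 (by omega)

theorem kk_20 : rowCK 20 13 88 k20 = true := by
  decide +kernel

theorem rC_20 : rowC 20 = k20 := by
  unfold rowC
  rfl

theorem eC_20 (i : ℕ) (h0 : 13 ≤ i) (h : i ≤ 100) : CotOK i 20 (entC i 20) := by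
  unfold entC
  rw [rC_20]
  exact rowCK_sound kk_20 i h0 (by omega)

theorem kk_21 : rowCK 21 13 88 k21 = true := by
  decide +kernel

theorem rC_21 : rowC 21 = k21 := by
  unfold rowC
  rfl

theorem eC_21 (i : ℕ) (h0 : 13 ≤ i) (h : i ≤ 100) : CotOK i 21 (entC i 21) := by
  unfold entC
  rw [rC_21]
  exact rowCK_sound kk_21 i h0 (by omega)

theorem kk_22 : rowCK 22 13 88 k22 = true := by
  decide +kernel

theorem rC_22 : rowC 22 = k22 := by
  unfold rowC
  rfl

theorem eC_22 (i : ℕ) (h0 : 13 ≤ i) (h : i ≤ 100) : CotOK i 22 (entC i 22) := by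
  unfold entC
  rw [rC_22]
  exact rowCK_sound kk_22 i h0 (by omega)

theorem kk_23 : rowCK 23 13 88 k23 = true := by
  decide +kernel

theorem rC_23 : rowC 23 = k23 := by
  unfold rowC
  rfl

theorem eC_23 (i : ℕ) (h0 : 13 ≤ i) (h : i ≤ 100) : CotOK i 23 (entC i 23) := by
  unfold entC
  rw [rC_23]
  exact rowCK_sound kk_23 i h0 (by omega)

theorem kk_24 : rowCK 24 13 88 k24 = true := by
  decide +kernel

theorem rC_24 : rowC 24 = k24 := by
  unfold rowC
  rfl

theorem eC_24 (i : ℕ) (h0 : 13 ≤ i) (h : i ≤ 100) : CotOK i 24 (entC i 24) := by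
  unfold entC
  rw [rC_24]
  exact rowCK_sound kk_24 i h0 (by omega)

theorem kk_25 : rowCK 25 13 88 k25 = true := by
  decide +kernel

theorem rC_25 : rowC 25 = k25 := by
  unfold rowC
  rfl

theorem eC_25 (i : ℕ) (h0 : 13 ≤ i) (h : i ≤ 100) : CotOK i 25 (entC i 25) := by
  unfold entC
  rw [rC_25]
  exact rowCK_sound kk_25 i h0 (by omega)

theorem kk_26 : rowCK 26 13 88 k26 = true := by
  decide +kernel

theorem rC_26 : rowC 26 = k26 := by
  unfold rowC
  rfl

theorem eC_26 (i : ℕ) (h0 : 13 ≤ i) (h : i ≤ 100) : CotOK i 26 (entC i 26) := by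
  unfold entC
  rw [rC_26]
  exact rowCK_sound kk_26 i h0 (by omega)

theorem kk_27 : rowCK 27 13 88 k27 = true := by
  decide +kernel

theorem rC_27 : rowC 27 = k27 := by
  unfold rowC
  rfl

theorem eC_27 (i : ℕ) (h0 : 13 ≤ i) (h : i ≤ 100) : CotOK i 27 (entC i 27) := by
  unfold entC
  rw [rC_27]
  exact rowCK_sound kk_27 i h0 (by omega)

theorem kk_28 : rowCK 28 13 88 k28 = true := by
  decide +kernel

theorem rC_28 : rowC 28 = k28 := by
  unfold rowC
  rfl

theorem eC_28 (i : ℕ) (h0 : 13 ≤ i) (h : i ≤ 100) : CotOK i 28 (entC i 28) := by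
  unfold entC
  rw [rC_28]
  exact rowCK_sound kk_28 i h0 (by omega)

theorem kk_29 : rowCK 29 13 88 k29 = true := by
  decide +kernel

theorem rC_29 : rowC 29 = k29 := by
  unfold rowC
  rfl

theorem eC_29 (i : ℕ) (h0 : 13 ≤ i) (h : i ≤ 100) : CotOK i 29 (entC i 29) := by
  unfold entC
  rw [rC_29]
  exact rowCK_sound kk_29 i h0 (by omega)

theorem kk_30 : rowCK 30 13 88 k30 = true := by
  decide +kernel

theorem rC_30 : rowC 30 = k30 := by
  unfold rowC
  rfl

theorem eC_30 (i : ℕ) (h0 : 13 ≤ i) (h : i ≤ 100) : CotOK i 30 (entC i 30) := by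
  unfold entC
  rw [rC_30]
  exact rowCK_sound kk_30 i h0 (by omega)

theorem kk_31 : rowCK 31 13 88 k31 = true := by
  decide +kernel

theorem rC_31 : rowC 31 = k31 := by
  unfold rowC
  rfl

theorem eC_31 (i : ℕ) (h0 : 13 ≤ i) (h : i ≤ 100) : CotOK i 31 (entC i 31) := by
  unfold entC
  rw [rC_31]
  exact rowCK_sound kk_31 i h0 (by omega)

theorem kk_32 : rowCK 32 13 88 k32 = true := by
  decide +kernel

theorem rC_32 : rowC 32 = k32 := by
  unfold rowC
  rfl

theorem eC_32 (i : ℕ) (h0 : 13 ≤ i) (h : i ≤ 100) : CotOK i 32 (entC i 32) := by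
  unfold entC
  rw [rC_32]
  exact rowCK_sound kk_32 i h0 (by omega)

theorem kk_33 : rowCK 33 13 88 k33 = true := by
  decide +kernel

theorem rC_33 : rowC 33 = k33 := by
  unfold rowC
  rfl

theorem eC_33 (i : ℕ) (h0 : 13 ≤ i) (h : i ≤ 100) : CotOK i 33 (entC i 33) := by
  unfold entC
  rw [rC_33]
  exact rowCK_sound kk_33 i h0 (by omega)

theorem kk_34 : rowCK 34 13 88 k34 = true := by
  decide +kernel

theorem rC_34 : rowC 34 = k34 := by
  unfold rowC
  rfl

theorem eC_34 (i : ℕ) (h0 : 13 ≤ i) (h : i ≤ 100) : CotOK i 34 (entC i 34) := by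
  unfold entC
  rw [rC_34]
  exact rowCK_sound kk_34 i h0 (by omega)

theorem kk_35 : rowCK 35 13 88 k35 = true := by
  decide +kernel

theorem rC_35 : rowC 35 = k35 := by
  unfold rowC
  rfl

theorem eC_35 (i : ℕ) (h0 : 13 ≤ i) (h : i ≤ 100) : CotOK i 35 (entC i 35) := by
  unfold entC
  rw [rC_35]
  exact rowCK_sound kk_35 i h0 (by omega)

theorem kk_36 : rowCK 36 13 88 k36 = true := by
  decide +kernel

theorem rC_36 : rowC 36 = k36 := by
  unfold rowC
  rfl

theorem eC_36 (i : ℕ) (h0 : 13 ≤ i) (h : i ≤ 100) : CotOK i 36 (entC i 36) := by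
  unfold entC
  rw [rC_36]
  exact rowCK_sound kk_36 i h0 (by omega)

theorem kk_37 : rowCK 37 13 88 k37 = true := by
  decide +kernel

theorem rC_37 : rowC 37 = k37 := by
  unfold rowC
  rfl

theorem eC_37 (i : ℕ) (h0 : 13 ≤ i) (h : i ≤ 100) : CotOK i 37 (entC i 37) := by
  unfold entC
  rw [rC_37]
  exact rowCK_sound kk_37 i h0 (by omega)

theorem kk_38 : rowCK 38 13 88 k38 = true := by
  decide +kernel

theorem rC_38 : rowC 38 = k38 := by
  unfold rowC
  rfl

theorem eC_38 (i : ℕ) (h0 : 13 ≤ i) (h : i ≤ 100) : CotOK i 38 (entC i 38) := by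
  unfold entC
  rw [rC_38]
  exact rowCK_sound kk_38 i h0 (by omega)

theorem entC_ok : ∀ i j : ℕ, 13 ≤ i → i ≤ 100 → j ≤ 38 → CotOK i j (entC i j) := by
  intro i j h0 hi hj
  interval_cases j
  · exact eC_0 i h0 hi
  · exact eC_1 i h0 hi
  · exact eC_2 i h0 hi
  · exact eC_3 i h0 hi
  · exact eC_4 i h0 hi
  · exact eC_5 i h0 hi
  · exact eC_6 i h0 hi
  · exact eC_7 i h0 hi
  · exact eC_8 i h0 hi
  · exact eC_9 i h0 hi
  · exact eC_10 i h0 hi
  · exact eC_11 i h0 hi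
  · exact eC_12 i h0 hi
  · exact eC_13 i h0 hi
  · exact eC_14 i h0 hi
  · exact eC_15 i h0 hi
  · exact eC_16 i h0 hi
  · exact eC_17 i h0 hi
  · exact eC_18 i h0 hi
  · exact eC_19 i h0 hi
  · exact eC_20 i h0 hi
  · exact eC_21 i h0 hi
  · exact eC_22 i h0 hi
  · exact eC_23 i h0 hi
  · exact eC_24 i h0 hi
  · exact eC_25 i h0 hi
  · exact eC_26 i h0 hi
  · exact eC_27 i h0 hi
  · exact eC_28 i h0 hi
  · exact eC_29 i h0 hi
  · exact eC_30 i h0 hi
  · exact eC_31 i h0 hi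
  · exact eC_32 i h0 hi
  · exact eC_33 i h0 hi
  · exact eC_34 i h0 hi
  · exact eC_35 i h0 hi
  · exact eC_36 i h0 hi
  · exact eC_37 i h0 hi
  · exact eC_38 i h0 hi

end Pool.Agent.S5.Cx
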