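import Pool.Agent.S5.I.TbDef
import Pool.Agent.S5.I.Defs

/-!
# The meaning of the table
-/

set_option autoImplicit false

namespace Pool.Agent.S5.Tb

open Pool.Agent.H63.VC3 Pool.Agent.S3 Complex

/-- The point of the table. -/
noncomputable def pt (i j : ℕ) : ℂ := (((i : ℝ) / 200 : ℝ) : ℂ) + (((j : ℝ) / 200 : ℝ) : ℂ) * I

/-- The entry `e` is right at `x = i / 200`, `s = j / 200`. -/
structure EntOK (i j e : ℕ) : Prop where
  q : |-Rf (pt i j) * 1048576 - (qE e : ℝ)| ≤ 32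
  t : |(hh (pt i j)).im * 1048576 - (tE e : ℝ)| ≤ 4
  l : |(Lg ((j : ℝ) / 200) ((i : ℝ) / 200) + 8) * 1048576 - (lE e : ℝ)| ≤ 4
  k : Real.pi ^ 2 * (1 + 1 / (Real.sin (Real.pi * (i / 200)) ^ 2 +
    Real.sinh (Real.pi * (j / 200)) ^ 2)) * 256 ≤ (kE e : ℝ) ^ 2

end Pool.Agent.S5.Tb
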