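import Pool.Agent.S5.I.TbCd
import Pool.Agent.S5.I.TbSt
import Pool.Agent.S5.I.NumPk

/-!
# The check of the rows of the table: soundness
-/

set_option autoImplicit false

namespace Pool.Agent.S5.Tb

open Pool.Agent.S5.Num Complex
open Pool.Agent.H63.VC3 hiding ww KK
open Pool.Agent.S3 hiding UU

theorem cl_sound {u v e t : ℕ} (h : clB u v e t = true) : |(u : ℝ) - v| + e ≤ t := by
  have h1 : ds' u v + e ≤ t := Nat.ble_eq.mp h
  rw [← ds'_eq]
  exact_mod_cast h1

/-- The product formula. -/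
theorem sin_sq_ww (x s : ℝ) : 4 * ‖ww x s‖ * (Real.sin (Real.pi * x) ^ 2 +
    Real.sinh (Real.pi * s) ^ 2) = (1 - (ww x s).re) ^ 2 + (ww x s).im ^ 2 := by
  have e1 : (ww x s).re = Real.exp (-(2 * Real.pi * s)) * Real.cos (2 * Real.pi * x) := by
    unfold ww
    rw [exp_re]
    congr 2
    · simp only [mul_re, mul_im, add_re, add_im, ofReal_re, ofReal_im, I_re, I_im, re_ofNat,
        im_ofNat]
      ring
    · simp only [mul_re, mul_im, add_re, add_im, ofReal_re, ofReal_im, I_re, I_im, re_ofNat,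
        im_ofNat]
      ring
  have e2 : (ww x s).im = Real.exp (-(2 * Real.pi * s)) * Real.sin (2 * Real.pi * x) := by
    unfold ww
    rw [exp_im]
    congr 2
    · simp only [mul_re, mul_im, add_re, add_im, ofReal_re, ofReal_im, I_re, I_im, re_ofNat,
        im_ofNat]
      ring
    · simp only [mul_re, mul_im, add_re, add_im, ofReal_re, ofReal_im, I_re, I_im, re_ofNat,
        im_ofNat]
      ring
  rw [ww_norm, e1, e2]
  have h1 : Real.cos (2 * Real.pi * x) = 1 - 2 * Real.sin (Real.pi * x) ^ 2 := by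
    rw [show 2 * Real.pi * x = 2 * (Real.pi * x) by ring, Real.cos_two_mul]
    have := Real.sin_sq_add_cos_sq (Real.pi * x)
    linarith
  have h2 : Real.sin (2 * Real.pi * x) ^ 2 = 1 - Real.cos (2 * Real.pi * x) ^ 2 := by
    have := Real.sin_sq_add_cos_sq (2 * Real.pi * x)
    linarith
  have h3 : Real.exp (-(2 * Real.pi * s)) * Real.sinh (Real.pi * s) ^ 2 * 4 =
      (1 - Real.exp (-(2 * Real.pi * s))) ^ 2 := by
    rw [Real.sinh_eq]
    have h4 : Real.exp (-(2 * Real.pi * s)) = Real.exp (-(Real.pi * s)) * Real.exp (-(Real.pi * s)) := by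
      rw [← Real.exp_add]
      congr 1
      ring
    have h5 : Real.exp (Real.pi * s) * Real.exp (-(Real.pi * s)) = 1 := by
      rw [← Real.exp_add, add_neg_cancel, Real.exp_zero]
    rw [h4]
    generalize Real.exp (Real.pi * s) = P at *
    generalize Real.exp (-(Real.pi * s)) = Q at *
    linear_combination (P * Q - 2 * Q * Q + 1) * h5
  generalize Real.exp (-(2 * Real.pi * s)) = E at *
  rw [mul_pow, h2]
  generalize Real.cos (2 * Real.pi * x) = C at *
  have h6 : Real.sin (Real.pi * x) ^ 2 = (1 - C) / 2 := by linarith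
  rw [h6]
  linear_combination h3

/-- The bound of the cotangent. -/
theorem ckk_sound {x s : ℝ} {a b M k W : ℕ} (h : Bsp x s a b M)
    (hW : ‖ww x s‖ * UU ≤ W)
    (hk : ckk k (Nat.sub (Nat.add (Nat.mul a a) (Nat.mul b b))
      (Nat.mul 1024 (Nat.add (Nat.add a b) 1024))) W = true) :
    Real.pi ^ 2 * (1 + 1 / (Real.sin (Real.pi * x) ^ 2 + Real.sinh (Real.pi * s) ^ 2)) * 256 ≤
      (k : ℝ) ^ 2 := by
  have hU := UU_pos
  unfold ckk at hk
  rw [cond_true_iff] at hk
  obtain ⟨h1, h2⟩ := hk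
  have h1 : 1 ≤ (a * a + b * b) - (1024 * (a + b + 1024)) := Nat.ble_eq.mp h1
  have hle : 1024 * (a + b + 1024) ≤ a * a + b * b := by omega
  have h2 : 25266187520 * (((a * a + b * b) - (1024 * (a + b + 1024))) +
      1125899906842624 * W) ≤ 10000000 * (k * k * ((a * a + b * b) - (1024 * (a + b + 1024)))) :=
    Nat.ble_eq.mp h2
  have hc : (((a * a + b * b) - (1024 * (a + b + 1024)) : ℕ) : ℝ) =
      (a : ℝ) * a + b * b - 1024 * (a + b + 1024) := by
    rw [Nat.cast_sub hle]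
    push_cast
    ring
  have h1' : (1 : ℝ) ≤ (((a * a + b * b) - (1024 * (a + b + 1024)) : ℕ) : ℝ) := by exact_mod_cast h1
  have h2' : (25266187520 : ℝ) * ((((a * a + b * b) - (1024 * (a + b + 1024)) : ℕ) : ℝ) +
      1125899906842624 * W) ≤ 10000000 * (k * k *
        (((a * a + b * b) - (1024 * (a + b + 1024)) : ℕ) : ℝ)) := by exact_mod_cast h2
  rw [hc] at h1' h2'
  clear h1 h2 hc hle
  set V : ℝ := (a : ℝ) * a + b * b - 1024 * (a + b + 1024) with hV
  have hA : 0 < 1 - (ww x s).re := by linarith [h.hα]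
  -- the norm of `1 - w`
  set A : ℝ := (1 - (ww x s).re) * UU with hAd
  set B : ℝ := (ww x s).im * UU with hBd
  have ha := h.ha
  have hb := h.hb
  have hn := h.hn
  rw [← hAd, ← hBd] at hn
  have hA0 : 0 ≤ A := by positivity
  have hB0 : 0 ≤ B := mul_nonneg h.hβ hU.le
  have ka : |A - a| ≤ 512 := by
    apply abs_le_of_sq_le_sq _ (by norm_num)
    linarith only [hn, sq_nonneg (B - b)]
  have kb : |B - b| ≤ 512 := by
    apply abs_le_of_sq_le_sq _ (by norm_num)
    linarith only [hn, sq_nonneg (A - a)]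
  have ka' := abs_le.1 ka
  have kb' := abs_le.1 kb
  have hVle : V ≤ A ^ 2 + B ^ 2 := by
    have e : A ^ 2 + B ^ 2 - V = 2 * a * (A - a + 512) + 2 * b * (B - b + 512) +
        (A - a) ^ 2 + (B - b) ^ 2 + 1024 * 1024 := by
      rw [hV]
      ring
    have t1 : 0 ≤ 2 * (a : ℝ) * (A - a + 512) := mul_nonneg (by linarith) (by linarith [ka'.1])
    have t2 : 0 ≤ 2 * (b : ℝ) * (B - b + 512) := mul_nonneg (by linarith) (by linarith [kb'.1])
    linarith only [e, t1, t2, sq_nonneg (A - a), sq_nonneg (B - b)]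
  have hQ := sin_sq_ww x s
  have hw0 : 0 < ‖ww x s‖ := by rw [ww_norm]; exact Real.exp_pos _
  set Q := Real.sin (Real.pi * x) ^ 2 + Real.sinh (Real.pi * s) ^ 2 with hQd
  have e1 : A ^ 2 + B ^ 2 = UU ^ 2 * (4 * ‖ww x s‖ * Q) := by
    rw [hQ, hAd, hBd]
    ring
  have hV0 : 0 < V := by linarith
  have hQ0 : 0 < Q := by
    by_contra hc
    push Not at hc
    have h5 : 0 ≤ UU ^ 2 * (4 * ‖ww x s‖) :=
      mul_nonneg (sq_nonneg _) (mul_nonneg (by norm_num) hw0.le)
    have h6 := mul_nonpos_of_nonneg_of_nonpos h5 hc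
    linarith only [h6, e1, hVle, hV0]
  have h5 : 1 / Q ≤ 4 * UU * W / V := by
    rw [div_le_div_iff₀ hQ0 hV0, one_mul]
    calc V ≤ UU ^ 2 * (4 * ‖ww x s‖ * Q) := by rw [← e1]; exact hVle
      _ = 4 * UU * (‖ww x s‖ * UU) * Q := by ring
      _ ≤ 4 * UU * W * Q := by
        apply mul_le_mul_of_nonneg_right _ hQ0.le
        exact mul_le_mul_of_nonneg_left hW (by positivity)
  have h6 : 25266187520 * (1 + 4 * UU * W / V) ≤ 10000000 * (k : ℝ) ^ 2 := by
    have e2 : 1 + 4 * UU * W / V = (V + 4 * UU * W) / V := by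
      field_simp
    rw [e2, mul_div_assoc', div_le_iff₀ hV0]
    have e3 : 4 * UU = 1125899906842624 := by norm_num [UU]
    rw [e3]
    linarith only [h2']
  have pi2 : Real.pi ^ 2 * 256 * 10000000 ≤ 25266187520 := by
    have h7 : Real.pi < 3.14159266 := by
      have := Real.pi_lt_d20
      linarith
    have h8 : Real.pi ^ 2 ≤ 3.14159266 ^ 2 := pow_le_pow_left₀ Real.pi_pos.le h7.le 2
    linarith
  have h9 : 0 < 1 + 1 / Q := by positivity
  have h10 : (Real.pi ^ 2 * 256 * 10000000) * (1 + 1 / Q) ≤ 25266187520 * (1 + 1 / Q) :=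
    mul_le_mul_of_nonneg_right pi2 h9.le
  linarith only [h5, h6, h10]

/-- Soundness of the check of an entry. -/
theorem ckE_sound {W N i j e : ℕ} (hW : ∀ x : ℝ, ‖ww x ((j : ℝ) / 200)‖ * UU ≤ W)
    (h : ckE W N i j e = true) : EntOK i j e := by
  have hU := UU_pos
  have e200 : ((200 : ℕ) : ℝ) = 200 := Nat.cast_ofNat
  unfold ckE at h
  rw [cond_true_iff] at h
  obtain ⟨hN, h⟩ := h
  have hN : N ≤ 1000 := Nat.ble_eq.mp hN
  obtain ⟨hD, hX, hS, c, d, a, b, M, h2, hB, hM, h1⟩ := bsK_sound h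
  rw [cond_true_iff] at h1
  obtain ⟨hkk, h1⟩ := h1
  rw [e200] at hB h2
  have hk' := ckk_sound hB (hW _) hkk
  obtain ⟨l, t, eL, cr, ci, eC, h3, h4⟩ := ltv_sound hD hX hS (by rw [e200]; exact hB) h1
  rw [cond_true_iff, cond_true_iff] at h4
  obtain ⟨ht, hl, h4⟩ := h4
  have ht := cl_sound ht
  have hl := cl_sound hl
  have hw := ww_norm_le (x := (i : ℝ) / 200) (s := (j : ℝ) / 200)
    (div_nonneg (Nat.cast_nonneg j) (by norm_num))
  have ha : Ap (ww ((i : ℝ) / 200) ((j : ℝ) / 200) ^ (0 + 1)) c d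
      (515 * ((0 : ℕ) + 1)) := by
    rw [zero_add, pow_one]
    exact h2.mono (by norm_num)
  have hs : |((0 : ℕ) : ℝ) - hk 0 - UU * (ds 0 (ww ((i : ℝ) / 200)
      ((j : ℝ) / 200))).im| ≤ 516 * ((0 : ℕ) : ℝ) := by
    simp [Num.hk, ds]
  obtain ⟨a', b', s', h5, h6, h7⟩ := ser_sound hw h2 (fun _ a' b' s =>
        fN (fun n => fN (fun p => fN (fun er => cond (Nat.ble n p)
          (clB 4503599627370496 (Nat.add (Nat.sub p n) (Nat.mul 268435456 (qE e))) er 8589934592)
          false)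
        (rfe N c d a' b')) (rfp N i j 200)) (rfn j 200 s)) N (i := 0) (by omega) ha hs
  rw [h5] at h4
  simp only [fN_eq, cond_true_iff] at h4
  obtain ⟨h8, h9⟩ := h4
  have h8 := Nat.ble_eq.mp h8
  have h9 := cl_sound h9
  rw [zero_add] at h6 h7
  have hr := rf_final (N := N) (X := i) (D := 200) (s := s') hD (by omega) hS hM
    (by rw [e200]; exact h2) (by
    rw [e200]
    refine h6.mono ?_
    push_cast
    linarith) (by
    rw [e200]
    refine h7.trans ?_
    push_cast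
    linarith) h8
  have hr2 : |Rf (pt i j) * UU + KK - ((Nat.sub (rfp N i j 200) (rfn j 200 s') : ℕ) : ℝ)| ≤
      (rfe N c d a' b' : ℝ) := by
    have : pt i j = (((i : ℝ) / ((200 : ℕ) : ℝ) : ℝ) : ℂ) +
        (((j : ℝ) / ((200 : ℕ) : ℝ) : ℝ) : ℂ) * I := by
      rw [e200]
      rfl
    rw [this]
    exact hr
  have ht3 := h3.t
  have hl3 := h3.l
  rw [e200] at ht3 hl3
  clear hr h7 h6 h5 hs ha hw h8 h3 hB h2 hkk hM hD hX hS hN hU hW
  have c1 : ∀ q : ℕ, ((Nat.add 4503599627370496 (Nat.mul 268435456 q) : ℕ) : ℝ) =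
      KK + 268435456 * q := by
    intro q
    rw [add_eq', mul_eq', Nat.cast_add, Nat.cast_mul, Nat.cast_ofNat, Nat.cast_ofNat]
    rfl
  have c2 : ((Nat.add l 2251799813685248 : ℕ) : ℝ) = l + 8 * UU := by
    rw [add_eq', Nat.cast_add, Nat.cast_ofNat]
    norm_num [UU]
  have c3 : ((Nat.add (Nat.sub (rfp N i j 200) (rfn j 200 s')) (Nat.mul 268435456 (qE e)) : ℕ) : ℝ) =
      ((Nat.sub (rfp N i j 200) (rfn j 200 s') : ℕ) : ℝ) + 268435456 * (qE e : ℝ) := by
    rw [add_eq', mul_eq', Nat.cast_add, Nat.cast_mul, Nat.cast_ofNat]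
  have c4 : ((4503599627370496 : ℕ) : ℝ) = KK := by norm_num [KK]
  have c5 : ((1073741824 : ℕ) : ℝ) = 4 * 268435456 := by norm_num
  have c6 : ((8589934592 : ℕ) : ℝ) = 32 * 268435456 := by norm_num
  rw [c1, c5] at ht
  rw [c1, c2, c5] at hl
  rw [c3, c4, c6] at h9
  generalize ((Nat.sub (rfp N i j 200) (rfn j 200 s') : ℕ) : ℝ) = r at h9 hr2
  generalize (rfe N c d a' b' : ℝ) = er at h9 hr2
  have hUe : UU = 268435456 * 1048576 := by norm_num [UU]
  have key : ∀ u v : ℝ, |u * UU - 268435456 * v| ≤ 4 * 268435456 → |u * 1048576 - v| ≤ 4 := by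
    intro u v h
    have e : u * UU - 268435456 * v = 268435456 * (u * 1048576 - v) := by rw [hUe]; ring
    rw [e, abs_mul, abs_of_pos (by norm_num : (0 : ℝ) < 268435456)] at h
    linarith
  refine ⟨?_, ?_, ?_, hk'⟩
  · have h10 : |-Rf (pt i j) * UU - 268435456 * (qE e : ℝ)| ≤ 32 * 268435456 := by
      have a1 := abs_le.1 hr2
      have a2 := abs_le.1 (le_sub_iff_add_le.2 h9)
      rw [abs_le]
      constructor <;> linarith only [a1.1, a1.2, a2.1, a2.2]
    have e : -Rf (pt i j) * UU - 268435456 * (qE e : ℝ) =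
      268435456 * (-Rf (pt i j) * 1048576 - (qE e : ℝ)) := by rw [hUe]; ring
    rw [e, abs_mul, abs_of_pos (by norm_num : (0 : ℝ) < 268435456)] at h10
    linarith
  · apply key
    have a1 := abs_le.1 ht3
    have a2 := abs_le.1 (le_sub_iff_add_le.2 ht)
    have e : pt i j = (((i : ℝ) / 200 : ℝ) : ℂ) + (((j : ℝ) / 200 : ℝ) : ℂ) * I := rfl
    rw [e, abs_le]
    constructor <;> linarith only [a1.1, a1.2, a2.1, a2.2]
  · apply key
    have a1 := abs_le.1 hl3
    have a2 := abs_le.1 (le_sub_iff_add_le.2 hl)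
    rw [abs_le]
    constructor <;> linarith only [a1.1, a1.2, a2.1, a2.2]

/-- Soundness of the check of a part of a row. -/
theorem ckR_sound {W j : ℕ} (hW : ∀ x : ℝ, ‖ww x ((j : ℝ) / 200)‖ * UU ≤ W) (n : ℕ) :
    ∀ i R L : ℕ, ckR W j n i R L = true → ∀ k : ℕ, k < n →
      EntOK (i + k) j (Nat.mod (Nat.shiftRight R (80 * k)) 1208925819614629174706176) := by
  induction n with
  | zero => intro i R L _ k hk; exact absurd hk (Nat.not_lt_zero k)
  | succ n ih =>
    intro i R L h k hk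
    rw [ckR_succ] at h
    simp only [fN_eq, cond_true_iff] at h
    obtain ⟨h1, h2⟩ := h
    rcases k with _ | k
    · exact ckE_sound hW h1
    · have h3 := ih _ _ _ h2 k (by omega)
      have e1 : Nat.succ i + k = i + (k + 1) := by omega
      have e2 : Nat.shiftRight (Nat.shiftRight R 80) (80 * k) = Nat.shiftRight R (80 * (k + 1)) := by
        show (R >>> 80) >>> (80 * k) = R >>> (80 * (k + 1))
        rw [← Nat.shiftRight_add]
        congr 1
        ring
      rw [e1, e2] at h3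
      exact h3

theorem Wj_sound {j : ℕ} (hj : 2 * j ≤ 200) {k : ℕ → Bool} (h : Wj j k = true) :
    ∃ W : ℕ, (∀ x : ℝ, ‖ww x ((j : ℝ) / 200)‖ * UU ≤ W) ∧ k W = true := by
  have e200 : ((200 : ℕ) : ℝ) = 200 := Nat.cast_ofNat
  unfold Wj at h
  obtain ⟨c, d, h1, h2⟩ := wst_sound (X := 0) (D := 200) (by norm_num) (by norm_num) hj
    (fun c _ => fN k (Nat.add (Nat.sub c 4503599627370496) 512))
  rw [h1] at h
  rw [fN_eq] at h
  refine ⟨_, ?_, h⟩
  intro x
  have h3 : ‖ww x ((j : ℝ) / 200)‖ = (ww 0 ((j : ℝ) / 200)).re := by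
    rw [ww_norm]
    unfold ww
    rw [exp_re]
    simp
  rw [e200, Nat.cast_zero, zero_div] at h2
  have h4 := (abs_re_le_norm _).trans h2
  rw [sub_re, cx_re, mul_comm, re_ofReal_mul] at h4
  rw [h3, add_eq', sub_eq', Nat.cast_add, Nat.cast_ofNat]
  have h5 : (c : ℝ) - KK ≤ ((c - 4503599627370496 : ℕ) : ℝ) := by
    have h6 : (c : ℝ) ≤ ((c - 4503599627370496 + 4503599627370496 : ℕ) : ℝ) :=
      Nat.cast_le.2 le_tsub_add
    rw [Nat.cast_add, Nat.cast_ofNat] at h6
    unfold KK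
    linarith
  have h7 := (abs_le.1 h4).2
  linarith

/-- Soundness of the check of a row. -/
theorem rowK_sound {j i0 n R L : ℕ} (hj : j ≤ 100) (h : rowK j i0 n R L = true) (k : ℕ)
    (h1 : i0 ≤ k) (h2 : k < i0 + n) :
    EntOK k j (Nat.mod (Nat.shiftRight R (Nat.mul 80 k)) 1208925819614629174706176) := by
  unfold rowK at h
  obtain ⟨W, hW, h3⟩ := Wj_sound (by omega) h
  have h4 := ckR_sound hW n _ _ _ h3 (k - i0) (by omega)
  have e1 : i0 + (k - i0) = k := by omega
  have e2 : Nat.shiftRight (Nat.shiftRight R (Nat.mul 80 i0)) (80 * (k - i0)) =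
      Nat.shiftRight R (Nat.mul 80 k) := by
    show (R >>> (80 * i0)) >>> (80 * (k - i0)) = R >>> (80 * k)
    rw [← Nat.shiftRight_add]
    congr 1
    omega
  rw [e1, e2] at h4
  exact h4

end Pool.Agent.S5.Tb
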