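import Pool.Agent.S5.I.CxD
import Pool.Agent.S5.I.TbCs

/-!
# The check of the table of the cotangent: soundness
-/

set_option autoImplicit false

namespace Pool.Agent.S5.Cx

open Pool.Agent.S5.Num Pool.Agent.S5.Tb Complex
open Pool.Agent.H63.VC3 hiding ww KK
open Pool.Agent.S3 hiding UU

/-- The entry `e` is right at `x = i / 200`, `s = j / 200`. -/
structure CotOK (i j e : ℕ) : Prop where
  a : |(Real.pi * cot (Real.pi * pt i j)).re * 4096 - (aE e : ℝ)| ≤ 1
  b : |-(Real.pi * cot (Real.pi * pt i j)).im * 4096 - (bE e : ℝ)| ≤ 1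

theorem ckC_sound {i j e : ℕ} (h : ckC i j e = true) : CotOK i j e := by
  have hU := UU_pos
  have e200 : ((200 : ℕ) : ℝ) = 200 := Nat.cast_ofNat
  unfold ckC at h
  obtain ⟨hD, hX, hS, c, d, a, b, M, h2, hB, hM, h1⟩ := bsK_sound h
  rw [e200] at hB
  have s1 := hB.cr
  have s2 := hB.ci
  clear hB h2 hM hD hX hS h
  simp only [Num.fN_eq, cond_true_iff] at h1
  obtain ⟨h3, h4⟩ := h1
  have h3 := cl_sound h3
  have h4 := cl_sound h4
  have ep : (((i : ℝ) / 200 : ℝ) : ℂ) + (((j : ℝ) / 200 : ℝ) : ℂ) * I = pt i j := rfl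
  rw [ep] at s1 s2
  have c1 : ∀ q : ℕ, ((Nat.add 4503599627370496 (Nat.mul 68719476736 q) : ℕ) : ℝ) =
      KK + 68719476736 * q := by
    intro q
    rw [add_eq', mul_eq', Nat.cast_add, Nat.cast_mul, Nat.cast_ofNat, Nat.cast_ofNat]
    rfl
  have c2 : ((Nat.succ (eCv M) : ℕ) : ℝ) = ((eCv M : ℕ) : ℝ) + 1 := Nat.cast_succ _
  have c3 : ((68719476736 : ℕ) : ℝ) = 68719476736 := Nat.cast_ofNat
  rw [c1, c3] at h3 h4
  rw [c2] at h4
  simp only [add_eq', mul_eq', div_eq'] at h3 h4
  generalize ((4503599627370496 + 497805226624462151055740764160 * b / (a * a + b * b) : ℕ) : ℝ) = r1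
    at s1 h3
  generalize ((3619319908366941 + 497805226624462151055740764160 * a / (a * a + b * b) : ℕ) : ℝ) = r2
    at s2 h4
  generalize ((eCv M : ℕ) : ℝ) = er at s1 s2 h3 h4
  have hUe : UU = 68719476736 * 4096 := by norm_num [UU]
  have key : ∀ u v : ℝ, |u * UU - 68719476736 * v| ≤ 68719476736 → |u * 4096 - v| ≤ 1 := by
    intro u v h
    have e : u * UU - 68719476736 * v = 68719476736 * (u * 4096 - v) := by rw [hUe]; ring
    rw [e, abs_mul, abs_of_pos (by norm_num : (0 : ℝ) < 68719476736)] at h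
    linarith
  refine ⟨key _ _ ?_, key _ _ ?_⟩
  · have a1 := abs_le.1 s1
    have a2 := abs_le.1 (le_sub_iff_add_le.2 h3)
    rw [abs_le]
    constructor <;> linarith only [a1.1, a1.2, a2.1, a2.2]
  · have a1 := abs_le.1 s2
    have a2 := abs_le.1 (le_sub_iff_add_le.2 h4)
    rw [abs_le]
    constructor <;> linarith only [a1.1, a1.2, a2.1, a2.2]

theorem ckCR_sound {j : ℕ} (n : ℕ) :
    ∀ i R : ℕ, ckCR j n i R = true → ∀ k : ℕ, k < n →
      CotOK (i + k) j (Nat.mod (Nat.shiftRight R (32 * k)) 4294967296) := by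
  induction n with
  | zero => intro i R _ k hk; exact absurd hk (Nat.not_lt_zero k)
  | succ n ih =>
    intro i R h k hk
    rw [ckCR_succ] at h
    simp only [Num.fN_eq, cond_true_iff] at h
    obtain ⟨h1, h2⟩ := h
    rcases k with _ | k
    · exact ckC_sound h1
    · have h3 := ih _ _ h2 k (by omega)
      have e1 : Nat.succ i + k = i + (k + 1) := by omega
      have e2 : Nat.shiftRight (Nat.shiftRight R 32) (32 * k) = Nat.shiftRight R (32 * (k + 1)) := by
        show (R >>> 32) >>> (32 * k) = R >>> (32 * (k + 1))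
        rw [← Nat.shiftRight_add]
        congr 1
        ring
      rw [e1, e2] at h3
      exact h3

/-- Soundness of the check of a row. -/
theorem rowCK_sound {j i0 n R : ℕ} (h : rowCK j i0 n R = true) (k : ℕ)
    (h1 : i0 ≤ k) (h2 : k < i0 + n) :
    CotOK k j (Nat.mod (Nat.shiftRight R (Nat.mul 32 k)) 4294967296) := by
  unfold rowCK at h
  have h4 := ckCR_sound n _ _ h (k - i0) (by omega)
  have e1 : i0 + (k - i0) = k := by omega
  have e2 : Nat.shiftRight (Nat.shiftRight R (Nat.mul 32 i0)) (32 * (k - i0)) =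
      Nat.shiftRight R (Nat.mul 32 k) := by
    show (R >>> (32 * i0)) >>> (32 * (k - i0)) = R >>> (32 * k)
    rw [← Nat.shiftRight_add]
    congr 1
    omega
  rw [e1, e2] at h4
  exact h4

end Pool.Agent.S5.Cx
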