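import Pool.Agent.S5.I.LowD

/-!
# A low edge at the end with four half twists
-/

set_option autoImplicit false

namespace Pool.Agent.S5

open Pool.Agent.H63.VC3 Pool.Agent.S3 Complex MeasureTheory Filter Topology Set

/-- A low edge at the end with four half twists (and all other open nodes with a small slope). -/
theorem Es_low_four' {ys vs : ℂ} (hv : vs.im ≠ 0) (hy : 26 / 100 ≤ ys.re) (hy1 : ys.re ≤ 355 / 1000)
    (hi : |ys.im| ≤ 11 / 100) (hg : 0 < (ys - vs).re) (hg1 : (ys - vs).re ≤ 1 / 2)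
    (hp : 0 < (ys + vs).re) (hp1 : (ys + vs).re ≤ 61 / 100) (hl : |lamv ys vs| ≤ 3 / 4) {y v : ℝ}
    (h0 : -(1 / 2) ≤ y) (h1 : y ≤ -(1 / 4)) (h2 : -y ≤ v) (h3 : v ≤ 1 / 2) :
    Es ys vs y v + lamv ys vs * (y - 3 / 10) < -(1 / 50) := by
  refine (Es_low_le hv h0 h1 h2 h3).trans_lt ?_
  have e1 : (1 / 2 - ys).re = 1 / 2 - ys.re := by simp
  have e2 : (1 / 2 - ys).im = -ys.im := by simp
  have w1 := Bn_lin (z := 1 / 2 - ys) (a := 29 / 200) (b := 6 / 25) (B := 11 / 100)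
    (u := 121 / 1000) (v := 118 / 1000) (by norm_num) (by norm_num) (by rw [e1]; linarith)
    (by rw [e1]; linarith) (by rw [e2, abs_neg]; exact hi)
    (by have := Lbv_029.1; unfold kz; norm_num at this ⊢; linarith)
    (by have := Lbv_048.1; unfold kz; norm_num at this ⊢; linarith)
  have w2 : 0 ≤ Bn (ys - vs) := Bn_nonneg' hg hg1
  have w3 : -Lb (39 / 100) ≤ Bn (ys + vs) :=
    neg_le_Bn hp (by linarith) (by linarith) (by norm_num) (by norm_num)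
  have w4 := Lbv_078.2
  rw [e1] at w1
  have hb : 118 / 1000 ≤ Bn (1 / 2 - ys) := by
    nlinarith
  obtain ⟨l1, l2⟩ := abs_le.1 hl
  unfold Wv
  have k1 : -(lamv ys vs * (3 / 10 - ys.re)) ≤ 3 / 4 * (55 / 1000) := by
    rcases le_total (3 / 10) ys.re with h | h <;> nlinarith
  linarith

/-- The field `L` at the end with four half twists. -/
theorem VS_L_four' {n : Nt} {vs : ℂ} {s : Slt} (hv0 : vs.im ≠ 0) (hy0 : 26 / 100 ≤ s.ys.re)
    (hy1 : s.ys.re ≤ 355 / 1000) (hi : |s.ys.im| ≤ 11 / 100) (hg : 0 < (s.ys - vs).re)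
    (hg1 : (s.ys - vs).re ≤ 1 / 2) (hp : 0 < (s.ys + vs).re) (hp1 : (s.ys + vs).re ≤ 61 / 100)
    (hm : |s.lam.re| ≤ 3 / 4) (hl : s.lam.re = lamv s.ys vs) :
    ∀ (y v : ℂ) (w : ℝ), s.InE .lo y w → v.im = 0 → -y.re ≤ v.re →
    v.re ≤ 1 / 2 → Es s.ys vs y v + slE s.S n s.x .lo s.lam s.ys y w < -(1 / 50) := by
  intro y v w hy hv h1 h2
  obtain ⟨⟨g1, g2, g3, g4⟩, -⟩ := hy
  rw [slE_lo g1, g2, hl, mul_zero, sub_zero]
  have k := Es_low_four' hv0 hy0 hy1 hi hg hg1 hp hp1 (by rw [← hl]; exact hm) g3 g4 h1 h2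
  rw [← real_eq g2, ← real_eq hv] at k
  exact k

end Pool.Agent.S5
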