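import Pool.Agent.S5.I.Quad

/-!
# The quadratic bounds of the nodes with an integration variable
-/

set_option autoImplicit false

namespace Pool.Agent.S5

open Pool.Agent.H63.VC3 Pool.Agent.S3 Complex MeasureTheory Filter Topology Set

/-! ### Bounds of `Kc` -/

/-- `cosh (2 π s) ≤ 1 + E`. -/
theorem cosh_le_E {s s0 E : ℝ} (hs : |s| ≤ s0) (h1 : 9.8697 * s0 ^ 2 ≤ 1)
    (hE : 2 * (9.8697 * s0 ^ 2 + (9.8697 * s0 ^ 2) ^ 2 / 2 + (9.8697 * s0 ^ 2) ^ 3 * (2 / 9)) ≤ E) :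
    Real.cosh (2 * Real.pi * s) ≤ 1 + E := by
  have hp := Real.pi_lt_d4
  have hp0 := Real.pi_pos
  have hs0 : 0 ≤ s0 := (abs_nonneg s).trans hs
  have hw : (Real.pi * s) ^ 2 ≤ 9.8697 * s0 ^ 2 := by
    rw [mul_pow]
    have e1 : s ^ 2 ≤ s0 ^ 2 := by
      rw [← sq_abs s]
      exact pow_le_pow_left₀ (abs_nonneg s) hs 2
    have e2 : Real.pi ^ 2 ≤ 9.8697 := by
      have : Real.pi ^ 2 ≤ 3.1416 ^ 2 := pow_le_pow_left₀ hp0.le hp.le 2
      norm_num at this ⊢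
      linarith
    exact mul_le_mul e2 e1 (sq_nonneg _) (by norm_num)
  obtain ⟨w, hwd⟩ : ∃ w, w = (Real.pi * s) ^ 2 / 2 := ⟨_, rfl⟩
  obtain ⟨W, hW⟩ : ∃ W, W = 9.8697 * s0 ^ 2 := ⟨_, rfl⟩
  rw [← hW] at hw h1 hE
  have hW0 : 0 ≤ W := (sq_nonneg _).trans hw
  have h2 : Real.cosh (Real.pi * s) ≤ Real.exp w := by
    rw [hwd]
    exact Real.cosh_le_exp_half_sq _
  have h3 : Real.cosh (2 * Real.pi * s) = 2 * Real.cosh (Real.pi * s) ^ 2 - 1 := by
    rw [mul_assoc, Real.cosh_two_mul, Real.cosh_sq]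
    ring
  have h4 : Real.cosh (Real.pi * s) ^ 2 ≤ Real.exp W := by
    have h5 := pow_le_pow_left₀ (Real.cosh_pos _).le h2 2
    have h6 : Real.exp w ^ 2 = Real.exp (2 * w) := by
      rw [← Real.exp_nat_mul]
      norm_num
    rw [h6] at h5
    refine h5.trans (Real.exp_le_exp.2 ?_)
    rw [hwd]
    linarith
  have h7 : Real.exp W ≤ 1 + W + W ^ 2 / 2 + W ^ 3 * (2 / 9) := by
    have := Real.exp_bound' hW0 h1 (n := 3) (by norm_num)
    norm_num [Finset.sum_range_succ, Nat.factorial] at this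
    linarith
  rw [h3]
  linarith

/-- A lower bound of `Kc` in the left half of the strip. -/
theorem Kc_ge {z : ℂ} {θ0 θ1 E k : ℝ} (h0 : θ0 ≤ 2 * Real.pi * z.re)
    (h1 : 2 * Real.pi * z.re ≤ θ1) (t0 : 0 < θ0) (t1 : θ1 ≤ 3)
    (hE : Real.cosh (2 * Real.pi * z.im) ≤ 1 + E) (k0 : 0 ≤ k)
    (e0 : k * (E + θ0 ^ 2 / 2) ≤ θ0 - θ0 ^ 3 / 6) (e1 : k * (E + θ1 ^ 2 / 2) ≤ θ1 - θ1 ^ 3 / 6) :
    k * Real.pi ≤ Kc z := by
  obtain ⟨θ, hθ⟩ : ∃ θ, θ = 2 * Real.pi * z.re := ⟨_, rfl⟩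
  rw [← hθ] at h0 h1
  have hp0 := Real.pi_pos
  have hp3 := Real.pi_gt_three
  have hθ0 : 0 < θ := lt_of_lt_of_le t0 h0
  -- concavity
  have e2 : k * (E + θ ^ 2 / 2) ≤ θ - θ ^ 3 / 6 := by
    rcases h0.eq_or_lt with h | h
    · rw [← h]; exact e0
    · have hd : 0 < θ1 - θ0 := by linarith
      have a0 : 0 ≤ θ - θ0 := by linarith
      have a1 : 0 ≤ θ1 - θ := by linarith
      have e3 := mul_le_mul_of_nonneg_left e0 a1
      have e4 := mul_le_mul_of_nonneg_left e1 a0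
      have e5 : (θ1 - θ0) * (k * (E + θ ^ 2 / 2)) ≤ (θ1 - θ0) * (θ - θ ^ 3 / 6) := by
        have k1 : (θ1 - θ0) * (k * (E + θ ^ 2 / 2)) = (θ1 - θ) * (k * (E + θ0 ^ 2 / 2)) +
            (θ - θ0) * (k * (E + θ1 ^ 2 / 2)) - k / 2 * ((θ1 - θ0) * ((θ - θ0) * (θ1 - θ))) := by
          ring
        have k2 : (θ1 - θ0) * (θ - θ ^ 3 / 6) = (θ1 - θ) * (θ0 - θ0 ^ 3 / 6) +
            (θ - θ0) * (θ1 - θ1 ^ 3 / 6) +
              (θ0 + θ1 + θ) / 6 * ((θ1 - θ0) * ((θ - θ0) * (θ1 - θ))) := by ring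
        have k3 : 0 ≤ (θ1 - θ0) * ((θ - θ0) * (θ1 - θ)) :=
          mul_nonneg hd.le (mul_nonneg a0 a1)
        have k4 : 0 ≤ k / 2 * ((θ1 - θ0) * ((θ - θ0) * (θ1 - θ))) :=
          mul_nonneg (by linarith) k3
        have k5 : 0 ≤ (θ0 + θ1 + θ) / 6 * ((θ1 - θ0) * ((θ - θ0) * (θ1 - θ))) :=
          mul_nonneg (by linarith) k3
        linarith
      exact le_of_mul_le_mul_left e5 hd
  have hsin : θ - θ ^ 3 / 6 ≤ Real.sin θ := by
    have := Real.sin_ge_sub_cube hθ0.le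
    linarith
  have hcos : 1 - θ ^ 2 / 2 ≤ Real.cos θ := Real.one_sub_sq_div_two_le_cos
  unfold Kc Lgd dn
  rw [← hθ]
  have hden : 0 < Real.cosh (2 * Real.pi * z.im) - Real.cos θ := by
    have h2 := Real.one_le_cosh (2 * Real.pi * z.im)
    have h3 : Real.cos θ < 1 := by
      have h4 : Real.cos θ < Real.cos 0 :=
        Real.cos_lt_cos_of_nonneg_of_le_pi le_rfl (by linarith) hθ0
      rwa [Real.cos_zero] at h4
    linarith
  rw [le_div_iff₀ hden]
  have h5 : Real.cosh (2 * Real.pi * z.im) - Real.cos θ ≤ E + θ ^ 2 / 2 := by linarith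
  have h6 := mul_le_mul_of_nonneg_left h5 k0
  have h7 : k * (Real.cosh (2 * Real.pi * z.im) - Real.cos θ) ≤ Real.sin θ := by linarith
  have h8 := mul_le_mul_of_nonneg_left h7 hp0.le
  linarith

/-- A lower bound of `Kc` to the right of `1 / 2`. -/
theorem Kc_ge_right {z : ℂ} {δ k : ℝ} (h0 : 1 / 2 ≤ z.re) (h1 : 2 * Real.pi * (z.re - 1 / 2) ≤ δ)
    (hδ : δ ≤ 1) (k0 : 0 ≤ k) (hk : δ ≤ k * (2 - δ ^ 2 / 2)) : -(k * Real.pi) ≤ Kc z := by
  obtain ⟨θ, hθ⟩ : ∃ θ, θ = 2 * Real.pi * (z.re - 1 / 2) := ⟨_, rfl⟩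
  rw [← hθ] at h1
  have hp0 := Real.pi_pos
  have hθ0 : 0 ≤ θ := by rw [hθ]; exact mul_nonneg (by positivity) (by linarith)
  have e1 : 2 * Real.pi * z.re = θ + Real.pi := by rw [hθ]; ring
  have hcos : 1 - θ ^ 2 / 2 ≤ Real.cos θ := Real.one_sub_sq_div_two_le_cos
  have hsin : Real.sin θ ≤ θ := Real.sin_le hθ0
  have hch := Real.one_le_cosh (2 * Real.pi * z.im)
  unfold Kc Lgd dn
  rw [e1, Real.sin_add_pi, Real.cos_add_pi, sub_neg_eq_add, mul_neg, neg_div, neg_le_neg_iff]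
  have h2 : θ ^ 2 ≤ δ ^ 2 := pow_le_pow_left₀ hθ0 h1 2
  have hδ2 : δ ^ 2 ≤ 1 := by nlinarith
  have hden : 0 < Real.cosh (2 * Real.pi * z.im) + Real.cos θ := by linarith
  rw [div_le_iff₀ hden]
  have h3 : k * (2 - δ ^ 2 / 2) ≤ k * (Real.cosh (2 * Real.pi * z.im) + Real.cos θ) :=
    mul_le_mul_of_nonneg_left (by linarith) k0
  have h4 : Real.sin θ ≤ k * (Real.cosh (2 * Real.pi * z.im) + Real.cos θ) := by linarith
  have h5 := mul_le_mul_of_nonneg_left h4 hp0.le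
  linarith

/-- **A lower bound of `Kc` on a box.** -/
theorem Kc_box {z : ℂ} (x0 x1 s0 k : ℝ) (h0 : x0 ≤ z.re) (h1 : z.re ≤ x1) (hs : |z.im| ≤ s0)
    (hc : 0 < x0 ∧ x1 ≤ 47 / 100 ∧ 9.8697 * s0 ^ 2 ≤ 1 ∧ 0 ≤ k ∧
      k * (2 * (9.8697 * s0 ^ 2 + (9.8697 * s0 ^ 2) ^ 2 / 2 + (9.8697 * s0 ^ 2) ^ 3 * (2 / 9)) +
        (6.283 * x0) ^ 2 / 2) ≤ 6.283 * x0 - (6.283 * x0) ^ 3 / 6 ∧
      k * (2 * (9.8697 * s0 ^ 2 + (9.8697 * s0 ^ 2) ^ 2 / 2 + (9.8697 * s0 ^ 2) ^ 3 * (2 / 9)) +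
        (6.2832 * x1) ^ 2 / 2) ≤ 6.2832 * x1 - (6.2832 * x1) ^ 3 / 6) : k * Real.pi ≤ Kc z := by
  obtain ⟨c0, c1, c2, c3, c4, c5⟩ := hc
  have hp1 := Real.pi_gt_d4
  have hp2 := Real.pi_lt_d4
  have hz : 0 < z.re := by linarith
  refine Kc_ge (θ0 := 6.283 * x0) (θ1 := 6.2832 * x1) ?_ ?_ (by positivity) (by linarith)
    (cosh_le_E hs c2 le_rfl) c3 c4 c5
  · have e1 := mul_le_mul (show (6.283 : ℝ) ≤ 2 * Real.pi by linarith) h0 c0.le (by positivity)
    exact e1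
  · have e1 := mul_le_mul (show 2 * Real.pi ≤ (6.2832 : ℝ) by linarith) h1 hz.le (by norm_num)
    exact e1

/-- A lower bound of `Kc` to the right of `1 / 2`. -/
theorem Kc_box_right {z : ℂ} (x1 k : ℝ) (h0 : 1 / 2 ≤ z.re) (h1 : z.re ≤ x1)
    (hc : 6.2832 * (x1 - 1 / 2) ≤ 1 ∧ 0 ≤ k ∧
      6.2832 * (x1 - 1 / 2) ≤ k * (2 - (6.2832 * (x1 - 1 / 2)) ^ 2 / 2)) :
    -(k * Real.pi) ≤ Kc z := by
  obtain ⟨c0, c1, c2⟩ := hc
  have hp2 := Real.pi_lt_d4
  refine Kc_ge_right (δ := 6.2832 * (x1 - 1 / 2)) h0 ?_ c0 c1 c2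
  exact mul_le_mul (by linarith) (by linarith) (by linarith) (by norm_num)

theorem Kc_nonneg {z : ℂ} (h0 : 0 ≤ z.re) (h1 : z.re ≤ 1 / 2) : 0 ≤ Kc z := Lgd_nonneg h0 h1

theorem Kc_pos {z : ℂ} (h0 : 0 < z.re) (h1 : z.re < 1 / 2) : 0 < Kc z := Lgd_pos h0 h1

/-- The numbers. -/
theorem vs_num {A B C a b c π' : ℝ} (hπ : 0 < π') (hA : a * π' ≤ A) (hB : b * π' ≤ B)
    (hC : -(c * π') ≤ C) (c0 : 0 ≤ c) (h1 : c < b) (h2 : 0 < b * (a - 2 * c) - c * a)
    (h3 : 2 * c ≤ a) : 0 < B + C ∧ 0 < A * (B + C) + 2 * B * C := by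
  have hb : 0 < b := lt_of_le_of_lt c0 h1
  constructor
  · nlinarith
  · -- `B (A + 2 C) + A C` is increasing in `A`, `B`, `C`
    have e1 : 0 < b - c := by linarith
    have q1 : 0 ≤ A - a * π' := by linarith
    have q2 : 0 ≤ B - b * π' := by linarith
    have q3 : 0 ≤ C + c * π' := by linarith
    have ha : 0 ≤ a := by linarith
    have hA0 : 0 ≤ A := le_trans (mul_nonneg ha hπ.le) hA
    have hB0 : 0 ≤ B := le_trans (mul_nonneg hb.le hπ.le) hB
    have s1 : 0 ≤ (A + 2 * B) * (C + c * π') := mul_nonneg (by linarith) q3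
    have s2 : 0 ≤ (A - a * π') * (B - c * π') := mul_nonneg q1 (by nlinarith)
    have s3 : 0 ≤ (a * π' - 2 * (c * π')) * (B - b * π') :=
      mul_nonneg (by nlinarith) q2
    have s4 : 0 < (b * (a - 2 * c) - c * a) * π' ^ 2 := mul_pos h2 (by positivity)
    nlinarith

/-- **`VS.quad` on the region `VU`.** -/
theorem VU.quad {ys vs : ℂ} (h : VU ys vs) :
    ∃ c : ℝ, 0 < c ∧ ∃ ρ : ℝ, 0 < ρ ∧ ∀ s' x : ℝ, |s'| ≤ ρ → |x| ≤ ρ →
      Es ys vs (ys + s') (vs + x) ≤ -(c * (s' ^ 2 + x ^ 2)) := by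
  have hp0 := Real.pi_pos
  have hx0 := h.x0
  have hx1 := h.x1
  have hn0 := h.n0
  have hg := h.g
  have ht0 := h.t0
  have ht1 := h.t1
  have hp := h.p
  have he0 := h.e0
  have he1 := h.e1
  have hd := h.d
  have r1 : (1 / 2 - ys).re = 1 / 2 - ys.re := by simp
  have i1 : (1 / 2 - ys).im = -ys.im := by simp
  have r2 : (ys - vs).re = ys.re - vs.re := by simp
  have i2 : (ys - vs).im = ys.im - vs.im := by simp
  have r3 : (ys + vs).re = ys.re + vs.re := by simp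
  have hA0 : 0 < Kc (1 / 2 - ys) := Kc_pos (by rw [r1]; linarith) (by rw [r1]; linarith)
  have hB0 : 0 < Kc (ys - vs) := Kc_pos (by rw [r2]; linarith) (by rw [r2]; linarith)
  have key : 0 < Kc (ys - vs) + Kc (ys + vs) ∧
      0 < Kc (1 / 2 - ys) * (Kc (ys - vs) + Kc (ys + vs)) + 2 * Kc (ys - vs) * Kc (ys + vs) := by
    rcases le_total (ys.re + vs.re) (1 / 2) with h5 | h5
    · have hC0 : 0 ≤ Kc (ys + vs) := Kc_nonneg (by rw [r3]; linarith) (by rw [r3]; exact h5)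
      constructor
      · linarith
      · have := mul_pos hA0 hB0
        have := mul_nonneg hA0.le hC0
        have := mul_nonneg hB0.le hC0
        linarith
    · have hC := Kc_box_right (z := ys + vs) (545 / 1000) 0.145 (by rw [r3]; exact h5)
        (by rw [r3]; exact hp) (by norm_num)
      have hB := Kc_box (z := ys - vs) (75 / 1000) (184 / 1000) (165 / 1000) 0.54
        (by rw [r2]; exact hg) (by rw [r2]; linarith)
        (by rw [i2, abs_le]; constructor <;> linarith) (by norm_num)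
      have hA := Kc_box (z := 1 / 2 - ys) (158 / 1000) (215 / 1000) (135 / 1000) 0.71
        (by rw [r1]; linarith) (by rw [r1]; linarith)
        (by rw [i1, abs_neg, abs_le]; constructor <;> linarith) (by norm_num)
      exact vs_num hp0 hA hB hC (by norm_num) (by norm_num) (by norm_num) (by norm_num)
  refine quad_vs ?_ ?_ ?_ key.1 key.2 hA0
  · exact Kok_of (by rw [r1]; linarith) (by rw [r1]; linarith)
  · exact Kok_of (by rw [r2]; linarith) (by rw [r2]; linarith)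
  · exact Kok_of (by rw [r3]; linarith) (by rw [r3]; linarith)

/-- A crude region for the ends with four half twists. -/
structure V4 (ys vs : ℂ) : Prop where
  x0 : 19 / 100 ≤ vs.re
  x1 : vs.re ≤ 27 / 100
  t1 : ys.re ≤ 355 / 1000
  g : 5 / 100 ≤ ys.re - vs.re
  p : ys.re + vs.re ≤ 61 / 100
  e : |ys.im| ≤ 1 / 10
  d : |ys.im - vs.im| ≤ 13 / 100
  j : ys.re + vs.re ≤ 57 / 100 ∨ |ys.im - vs.im| ≤ 4 / 100

/-- **`VS.quad` for the ends with four half twists.** -/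
theorem V4.quad {ys vs : ℂ} (h : V4 ys vs) :
    ∃ c : ℝ, 0 < c ∧ ∃ ρ : ℝ, 0 < ρ ∧ ∀ s' x : ℝ, |s'| ≤ ρ → |x| ≤ ρ →
      Es ys vs (ys + s') (vs + x) ≤ -(c * (s' ^ 2 + x ^ 2)) := by
  have hp0 := Real.pi_pos
  have hx0 := h.x0
  have hx1 := h.x1
  have hg := h.g
  have ht1 := h.t1
  have hp := h.p
  have he := h.e
  have hd := h.d
  have r1 : (1 / 2 - ys).re = 1 / 2 - ys.re := by simp
  have i1 : (1 / 2 - ys).im = -ys.im := by simp
  have r2 : (ys - vs).re = ys.re - vs.re := by simp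
  have i2 : (ys - vs).im = ys.im - vs.im := by simp
  have r3 : (ys + vs).re = ys.re + vs.re := by simp
  have hA0 : 0 < Kc (1 / 2 - ys) := Kc_pos (by rw [r1]; linarith) (by rw [r1]; linarith)
  have hB0 : 0 < Kc (ys - vs) := Kc_pos (by rw [r2]; linarith) (by rw [r2]; linarith)
  have key : 0 < Kc (ys - vs) + Kc (ys + vs) ∧
      0 < Kc (1 / 2 - ys) * (Kc (ys - vs) + Kc (ys + vs)) + 2 * Kc (ys - vs) * Kc (ys + vs) := by
    rcases le_total (ys.re + vs.re) (1 / 2) with h5 | h5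
    · have hC0 : 0 ≤ Kc (ys + vs) := Kc_nonneg (by rw [r3]; linarith) (by rw [r3]; exact h5)
      constructor
      · linarith
      · have := mul_pos hA0 hB0
        have := mul_nonneg hA0.le hC0
        have := mul_nonneg hB0.le hC0
        linarith
    · rcases le_total (ys.re + vs.re) (57 / 100) with h6 | h6
      · have hC := Kc_box_right (z := ys + vs) (57 / 100) 0.2315 (by rw [r3]; exact h5)
          (by rw [r3]; exact h6) (by norm_num)
        have hB := Kc_box (z := ys - vs) (5 / 100) (165 / 1000) (13 / 100) 0.67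
          (by rw [r2]; exact hg) (by rw [r2]; linarith) (by rw [i2]; exact hd) (by norm_num)
        have hA := Kc_box (z := 1 / 2 - ys) (145 / 1000) (225 / 1000) (1 / 10) 0.77
          (by rw [r1]; linarith) (by rw [r1]; linarith) (by rw [i1, abs_neg]; exact he)
          (by norm_num)
        exact vs_num hp0 hA hB hC (by norm_num) (by norm_num) (by norm_num) (by norm_num)
      · have hj : |ys.im - vs.im| ≤ 4 / 100 ∨ ys.re + vs.re ≤ 57 / 100 := h.j.symm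
        have hA := Kc_box (z := 1 / 2 - ys) (145 / 1000) (19 / 100) (1 / 10) 0.97
          (by rw [r1]; linarith) (by rw [r1]; linarith) (by rw [i1, abs_neg]; exact he)
          (by norm_num)
        rcases hj with h8 | h8
        · rcases le_total (ys.re + vs.re) (59 / 100) with h9 | h9
          · have hC := Kc_box_right (z := ys + vs) (59 / 100) 0.3075 (by rw [r3]; exact h5)
              (by rw [r3]; exact h9) (by norm_num)
            have hB := Kc_box (z := ys - vs) (5 / 100) (14 / 100) (4 / 100) 1.82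
              (by rw [r2]; exact hg) (by rw [r2]; linarith) (by rw [i2]; exact h8) (by norm_num)
            exact vs_num hp0 hA hB hC (by norm_num) (by norm_num) (by norm_num) (by norm_num)
          · have hC := Kc_box_right (z := ys + vs) (61 / 100) 0.393 (by rw [r3]; exact h5)
              (by rw [r3]; exact hp) (by norm_num)
            have hB := Kc_box (z := ys - vs) (5 / 100) (12 / 100) (4 / 100) 2.15
              (by rw [r2]; exact hg) (by rw [r2]; linarith) (by rw [i2]; exact h8) (by norm_num)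
            have hA' := Kc_box (z := 1 / 2 - ys) (145 / 1000) (18 / 100) (1 / 10) 1.04
              (by rw [r1]; linarith) (by rw [r1]; linarith) (by rw [i1, abs_neg]; exact he)
              (by norm_num)
            exact vs_num hp0 hA' hB hC (by norm_num) (by norm_num) (by norm_num) (by norm_num)
        · have hC := Kc_box_right (z := ys + vs) (57 / 100) 0.2315 (by rw [r3]; exact h5)
            (by rw [r3]; exact h8) (by norm_num)
          have hB := Kc_box (z := ys - vs) (5 / 100) (165 / 1000) (13 / 100) 0.67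
            (by rw [r2]; exact hg) (by rw [r2]; linarith) (by rw [i2]; exact hd) (by norm_num)
          exact vs_num hp0 hA hB hC (by norm_num) (by norm_num) (by norm_num) (by norm_num)
  refine quad_vs ?_ ?_ ?_ key.1 key.2 hA0
  · exact Kok_of (by rw [r1]; linarith) (by rw [r1]; linarith)
  · exact Kok_of (by rw [r2]; linarith) (by rw [r2]; linarith)
  · exact Kok_of (by rw [r3]; linarith) (by rw [r3]; linarith)

end Pool.Agent.S5
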