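import Pool.Agent.S5.I.Fv
import Pool.Agent.S5.I.E4lo
import Pool.Agent.S5.I.QuadV


/-!
# END 4: the statement about the slot, from the region of the slot
-/

set_option autoImplicit false

namespace Pool.Agent.S5.Tb

open Pool.Agent.H63.VC3 Pool.Agent.S3 Complex MeasureTheory Filter Topology Set

theorem ly_re4 (ys vs : ℂ) : (ly 2 ys vs).re = lamv ys vs := by
  unfold ly lamv
  rw [sub_re, sub_re, hh_re, hh_re, mul_re, hh_re]
  have a1 : (1 / 2 - ys : ℂ).im = -ys.im := by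
    simp
  have a2 : (1 / 2 - ys : ℂ).re = 1 / 2 - ys.re := by
    simp
  rw [a1, a2, Lg_neg_im]
  simp only [ofReal_re, ofReal_im, zero_mul, sub_zero, sub_im, sub_re, add_im, add_re]

/-- The weight and the constant of a row. -/
def okc (S : Bool) (x : Nt) (w : ℕ) (h : ℤ) (pc : Pc) : Bool :=
  decide ((w : ℤ) = 2 + (d0 S ⟨4, true⟩ x pc - d0 S x ⟨4, true⟩ pc.mir)) &&
    decide (h * 100 ≤ (Pool.Agent.S5.r0 S ⟨4, true⟩ x pc - Pool.Agent.S5.r0 S x ⟨4, true⟩ pc.mir) * 1048576)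

theorem okc_ok {S : Bool} {x : Nt} {w : ℕ} {h : ℤ} {pc : Pc} (hk : okc S x w h pc = true) :
    (w : ℝ) = 2 + dT S ⟨4, true⟩ x pc ∧ (h : ℝ) ≤ hT S ⟨4, true⟩ x pc * 1048576 := by
  unfold okc at hk
  rw [Bool.and_eq_true] at hk
  have h1 := of_decide_eq_true hk.1
  have h2 := of_decide_eq_true hk.2
  constructor
  · unfold dT
    have : ((w : ℤ) : ℝ) = ((2 + (d0 S ⟨4, true⟩ x pc - d0 S x ⟨4, true⟩ pc.mir) : ℤ) : ℝ) := by
      rw [h1]
    rw [Int.cast_natCast, Int.cast_add, Int.cast_ofNat] at this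
    exact this
  · unfold hT
    have : ((h * 100 : ℤ) : ℝ) ≤
        (((Pool.Agent.S5.r0 S ⟨4, true⟩ x pc - Pool.Agent.S5.r0 S x ⟨4, true⟩ pc.mir) * 1048576 : ℤ) : ℝ) :=
      Int.cast_le.2 h2
    rw [Int.cast_mul, Int.cast_mul, Int.cast_ofNat, Int.cast_ofNat] at this
    linarith

/-- There is a certificate of the row `pc`. -/
def RowOK (S : Bool) (x : Nt) (ys vs : ℂ) (pc : Pc) : Prop :=
  ∃ (w : ℕ) (g : Gd) (h : ℤ), (w = 1 ∨ w = 2 ∨ w = 3) ∧ gok g = true ∧ okc S x w h pc = true ∧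
    rw4 w g h pc = true ∧ P4 w g ys vs

/-- The conditions on the region. -/
def fok4 (r : Rd) (g : Gd) : Bool :=
  fok r g && Nat.ble (Nat.add r.M1 9728) r.P0 && Nat.ble r.P1 (Nat.add r.M0 13824) &&
    Nat.ble 6656 r.T0 && Nat.ble r.T1 9088 && Nat.ble 1280 r.M0 && Nat.ble r.P1 15616 &&
    Nat.ble r.ja 20 && Nat.ble r.jb 26 && (Nat.ble r.P1 14592 || Nat.ble r.jb 8) &&
    decide (-3932 ≤ g.l0) && decide (g.l1 ≤ 3932)

theorem fok4_fok {r : Rd} {g : Gd} (h : fok4 r g = true) : fok r g = true := by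
  unfold fok4 at h
  simp only [Bool.and_eq_true] at h
  exact h.1.1.1.1.1.1.1.1.1.1.1

theorem fok4_ok {r : Rd} {g : Gd} (h : fok4 r g = true) {ys vs : ℂ} (hQ : Q4 r ys vs)
    (hP : P4 ((2 : ℕ) : ℝ) g ys vs) :
    V4 ys vs ∧ 26 / 100 ≤ ys.re ∧ |(ly 2 ys vs).re| ≤ 3 / 4 := by
  unfold fok4 at h
  simp only [Bool.and_eq_true, Bool.or_eq_true] at h
  obtain ⟨⟨⟨⟨⟨⟨⟨⟨⟨⟨⟨-, h1⟩, h2⟩, h3⟩, h4⟩, h5⟩, h6⟩, h7⟩, h8⟩, h9⟩, h10⟩, h11⟩ := h
  have cb : ∀ {m n : ℕ}, Nat.ble m n = true → (m : ℝ) ≤ (n : ℝ) := fun h =>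
    Nat.cast_le.2 (Nat.le_of_ble_eq_true h)
  have k1 := cb h1
  have k2 := cb h2
  have k3 := cb h3
  have k4 := cb h4
  have k5 := cb h5
  have k6 := cb h6
  have k7 := cb h7
  have k8 := cb h8
  rw [Nat.add_eq, Nat.cast_add, Nat.cast_ofNat] at k1 k2
  rw [Nat.cast_ofNat] at k3 k4 k5 k6 k7 k8
  have k10 : ((-3932 : ℤ) : ℝ) ≤ (g.l0 : ℝ) := Int.cast_le.2 (of_decide_eq_true h10)
  have k11 : (g.l1 : ℝ) ≤ ((3932 : ℤ) : ℝ) := Int.cast_le.2 (of_decide_eq_true h11)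
  rw [Int.cast_neg, Int.cast_ofNat] at k10
  rw [Int.cast_ofNat] at k11
  have q1 := hQ.T0
  have q2 := hQ.T1
  have q3 := hQ.M0
  have q4 := hQ.M1
  have q5 := hQ.P0
  have q6 := hQ.P1
  have q7 := hQ.ja
  have q8 := hQ.jb
  have p1 := hP.l0
  have p2 := hP.l1
  rw [Nat.cast_ofNat] at p1 p2
  refine ⟨⟨?_, ?_, ?_, ?_, ?_, ?_, ?_, ?_⟩, ?_, ?_⟩
  · linarith
  · linarith
  · linarith
  · linarith
  · linarith
  · linarith
  · linarith
  · rcases h9 with h9 | h9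
    · left
      have k9 := cb h9
      rw [Nat.cast_ofNat] at k9
      linarith
    · right
      have k9 := cb h9
      rw [Nat.cast_ofNat] at k9
      linarith
  · linarith
  · rw [abs_le]
    constructor <;> linarith

/-- There is a certificate of the flat row. -/
def FlatOK (ys vs : ℂ) : Prop :=
  ∃ (r : Rd) (g g' : Gd) (c : ℕ), gok g = true ∧ gok g' = true ∧ flt r g c = true ∧ fok4 r g = true ∧
    rw4 2 g' 0 .F = true ∧ P4 ((2 : ℕ) : ℝ) g ys vs ∧ P4 ((2 : ℕ) : ℝ) g' ys vs ∧ Q4 r ys vs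

/-- The pieces which occur. -/
def Pc.occ (x : Nt) (pc : Pc) : Prop :=
  pc.free ∧ pc ≠ .F ∧ (pc = .rz .far → x.a = 3 ∨ x = ⟨4, false⟩) ∧
    (pc = .re .far → x.e = false ∧ x.a ≤ 4)

/-- **END 4**, from certificates. -/
theorem VS4 (hE : TabOK) {s : Slt} {vs : ℂ} (hi : 0 < vs.im) (hl : s.lam = ly 2 s.ys vs)
    (he : 2 * Real.pi * I * (1 - 4 * vs) + lv s.ys vs = 0)
    (hr : ∀ pc, Pc.occ s.x pc → RowOK s.S s.x s.ys vs pc) (hF : FlatOK s.ys vs)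
    (hd : d0 s.S ⟨4, true⟩ s.x .F = 0 ∧ d0 s.S s.x ⟨4, true⟩ .F = 0 ∧
      Pool.Agent.S5.r0 s.S ⟨4, true⟩ s.x .F = 0 ∧ Pool.Agent.S5.r0 s.S s.x ⟨4, true⟩ .F = 0)
    : VS ⟨4, true⟩ (3 / 10) vs s := by
  have hne : vs.im ≠ 0 := hi.ne'
  obtain ⟨hv, hy0, hm⟩ : V4 s.ys vs ∧ 26 / 100 ≤ s.ys.re ∧ |(ly 2 s.ys vs).re| ≤ 3 / 4 := by
    obtain ⟨r, g, g', c, k1, k2, k3, k4, k5, k6, k7, k8⟩ := hF
    exact fok4_ok k4 k8 k6
  rw [← hl] at hm
  have hx0 := hv.x0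
  have hx1 := hv.x1
  have ht1 := hv.t1
  have hg := hv.g
  have hp := hv.p
  have hee := hv.e
  have hpos : 0 < s.ys.re + vs.re := by linarith
  refine ⟨?_, ?_, ?_, V4.quad hv⟩
  · intro y v w pc hpc hy hv'
    by_cases hpF : pc = .F
    · subst hpF
      obtain ⟨r, g, g', c, k1, k2, k3, k4, k5, k6, k7, k8⟩ := hF
      have hw : w = 0 := hy.1.1
      have key := rowF hE (GOK_of k1) (GOK_of k2) k3 (fok4_fok k4) k5 k6 k7 k8 hne he hpos hy.1 hv'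
      have e0 : slE s.S ⟨4, true⟩ s.x .F s.lam s.ys y w = 0 := by
        obtain ⟨d1, d2, d3, d4⟩ := hd
        have e1 : dT s.S ⟨4, true⟩ s.x .F = 0 := by
          unfold dT
          rw [show Pc.mir .F = .F from rfl, d1, d2]
          simp
        have e2 : hT s.S ⟨4, true⟩ s.x .F = 0 := by
          unfold hT
          rw [show Pc.mir .F = .F from rfl, d3, d4]
          simp
        unfold slE
        rw [e1, e2, hw, show Pc.eff .F y = y from rfl, sub_self, mul_zero, zero_re]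
        ring
      rw [e0, add_zero]
      rcases key with h | ⟨h1, h2⟩
      · exact Or.inl h
      · exact Or.inr ⟨h1, h2, rfl⟩
    · left
      obtain ⟨w', g, h, k1, k2, k3, k4, k5⟩ := hr pc
        ⟨hpc, hpF, fun h => (hy.2.1 (Or.inl h)).1, fun h => hy.2.2 (Or.inl h)⟩
      obtain ⟨o1, o2⟩ := okc_ok k3
      rw [hl]
      exact row4 hE (GOK_of k2) k1 o1 o2 k4 k5 hne he hy.1 hv' (fun h => absurd h hpF)
  · refine VS_L_four' hne hy0 ht1 (by linarith) ?_ ?_ ?_ ?_ hm ?_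
    · rw [sub_re]; linarith
    · rw [sub_re]; linarith
    · rw [add_re]; exact hpos
    · rw [add_re]; exact hp
    · rw [hl]; exact ly_re4 _ _
  · intro h
    exact absurd h (by decide)

end Pool.Agent.S5.Tb
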