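import Pool.Agent.S5.I.E4r
import Pool.Agent.S5.E.E4.R1
import Pool.Agent.S5.E.E4.R2
import Pool.Agent.S5.E.E4.R3
import Pool.Agent.S5.E.E4.R4
import Pool.Agent.S5.E.E4.R5

/-!
# END 4: the rows for the types of the neighbour (generated)
-/

set_option autoImplicit false

namespace Pool.Agent.S5.Tb

open Complex Pool.Agent.S5.E.E4
open Pool.Agent.S5.G (sy)
open Pool.Agent.S5.E.B2 (InR)

/-- All certificates of a slot. -/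
structure Rws (S : Bool) (x : Nt) (ys vs : ℂ) : Prop where
  rows : ∀ pc, Pc.occ x pc → RowOK S x ys vs pc
  flat : FlatOK ys vs

theorem P4c {g : Gd} {ys vs : ℂ} (h : P4 2 g ys vs) : P4 ((2 : ℕ) : ℝ) g ys vs := by
  rw [Nat.cast_ofNat]
  exact h

theorem m_2A0 {c q z : ℂ} (hH : H4 false c q z) {g : E.B2.Rg}
    (hg : sub g 621 626 929 939 = true) (h : InR g c.re (-c.im)) :
    Rws false ⟨2, true⟩ (sy q z) (z / Real.pi) := by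
  have k := w_2A0 hH hg h
  have pA2e_2 : P4 ((2 : ℕ) : ℝ) Gd.A2e (sy q z) (z / Real.pi) := k.p (2, Gd.A2e) (by simp)
  exact ⟨rw_A2e pA2e_2, fl_A2e pA2e_2 k.q1⟩

theorem m_2AA {c q z : ℂ} (hH : H4 false c q z) {g : E.B2.Rg}
    (hg : sub g 749 941 373 619 = true) (h : InR g c.re (-c.im)) :
    Rws false ⟨2, false⟩ (sy q z) (z / Real.pi) := by
  have k := w_2AA hH hg h
  have pA2i_2 : P4 ((2 : ℕ) : ℝ) Gd.A2i (sy q z) (z / Real.pi) := k.p (2, Gd.A2i) (by simp)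
  obtain ⟨p, hp, q1, q2⟩ := k.q
  have q1 := P4c q1
  simp only [List.mem_cons, List.not_mem_nil, or_false] at hp
  rcases hp with rfl | rfl | rfl | rfl | rfl | rfl | rfl
  · exact ⟨rw_A2i pA2i_2 ⟨2, Gd.A2i_a00, 0, Or.inr (Or.inl rfl), ok_A2i_a00, by decide +kernel, kA2i_a00_H, q1⟩ ⟨2, Gd.A2i_a00, 0, Or.inr (Or.inl rfl), ok_A2i_a00, by decide +kernel, kA2i_a00_G, q1⟩, fl_A2i_a00 q1 pA2i_2 q2⟩
  · exact ⟨rw_A2i pA2i_2 ⟨2, Gd.A2i_a01, 0, Or.inr (Or.inl rfl), ok_A2i_a01, by decide +kernel, kA2i_a01_H, q1⟩ ⟨2, Gd.A2i_a01, 0, Or.inr (Or.inl rfl), ok_A2i_a01, by decide +kernel, kA2i_a01_G, q1⟩, fl_A2i_a01 q1 pA2i_2 q2⟩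
  · exact ⟨rw_A2i pA2i_2 ⟨2, Gd.A2i_a02, 0, Or.inr (Or.inl rfl), ok_A2i_a02, by decide +kernel, kA2i_a02_H, q1⟩ ⟨2, Gd.A2i_a02, 0, Or.inr (Or.inl rfl), ok_A2i_a02, by decide +kernel, kA2i_a02_G, q1⟩, fl_A2i_a02 q1 pA2i_2 q2⟩
  · exact ⟨rw_A2i pA2i_2 ⟨2, Gd.A2i_a10, 0, Or.inr (Or.inl rfl), ok_A2i_a10, by decide +kernel, kA2i_a10_H, q1⟩ ⟨2, Gd.A2i_a10, 0, Or.inr (Or.inl rfl), ok_A2i_a10, by decide +kernel, kA2i_a10_G, q1⟩, fl_A2i_a10 q1 pA2i_2 q2⟩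
  · exact ⟨rw_A2i pA2i_2 ⟨2, Gd.A2i_a11, 0, Or.inr (Or.inl rfl), ok_A2i_a11, by decide +kernel, kA2i_a11_H, q1⟩ ⟨2, Gd.A2i_a11, 0, Or.inr (Or.inl rfl), ok_A2i_a11, by decide +kernel, kA2i_a11_G, q1⟩, fl_A2i_a11 q1 pA2i_2 q2⟩
  · exact ⟨rw_A2i pA2i_2 ⟨2, Gd.A2i_a12, 0, Or.inr (Or.inl rfl), ok_A2i_a12, by decide +kernel, kA2i_a12_H, q1⟩ ⟨2, Gd.A2i_a12, 0, Or.inr (Or.inl rfl), ok_A2i_a12, by decide +kernel, kA2i_a12_G, q1⟩, fl_A2i_a12 q1 pA2i_2 q2⟩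
  · exact ⟨rw_A2i pA2i_2 ⟨2, Gd.A2i_a13, 0, Or.inr (Or.inl rfl), ok_A2i_a13, by decide +kernel, kA2i_a13_H, q1⟩ ⟨2, Gd.A2i_a13, 0, Or.inr (Or.inl rfl), ok_A2i_a13, by decide +kernel, kA2i_a13_G, q1⟩, fl_A2i_a13 q1 pA2i_2 q2⟩

theorem m_2AS {c q z : ℂ} (hH : H4 false c q z) {g : E.B2.Rg}
    (hg : sub g 880 946 582 677 = true) (h : InR g c.re (-c.im)) :
    Rws false ⟨2, false⟩ (sy q z) (z / Real.pi) := by
  have k := w_2AS hH hg h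
  have pA2i_2 : P4 ((2 : ℕ) : ℝ) Gd.A2i (sy q z) (z / Real.pi) := k.p (2, Gd.A2i) (by simp)
  obtain ⟨p, hp, q1, q2⟩ := k.q
  have q1 := P4c q1
  simp only [List.mem_cons, List.not_mem_nil, or_false] at hp
  rcases hp with rfl | rfl
  · exact ⟨rw_A2i pA2i_2 ⟨2, Gd.A2i_s0, 0, Or.inr (Or.inl rfl), ok_A2i_s0, by decide +kernel, kA2i_s0_H, q1⟩ ⟨2, Gd.A2i_s0, 0, Or.inr (Or.inl rfl), ok_A2i_s0, by decide +kernel, kA2i_s0_G, q1⟩, fl_A2i_s0 q1 pA2i_2 q2⟩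
  · exact ⟨rw_A2i pA2i_2 ⟨2, Gd.A2i_s1, 0, Or.inr (Or.inl rfl), ok_A2i_s1, by decide +kernel, kA2i_s1_H, q1⟩ ⟨2, Gd.A2i_s1, 0, Or.inr (Or.inl rfl), ok_A2i_s1, by decide +kernel, kA2i_s1_G, q1⟩, fl_A2i_s1 q1 pA2i_2 q2⟩

theorem m_3A0 {c q z : ℂ} (hH : H4 false c q z) {g : E.B2.Rg}
    (hg : sub g 661 679 307 331 = true) (h : InR g c.re (-c.im)) :
    Rws false ⟨3, true⟩ (sy q z) (z / Real.pi) := by
  have k := w_3A0 hH hg h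
  have pA3e_2 : P4 ((2 : ℕ) : ℝ) Gd.A3e (sy q z) (z / Real.pi) := k.p (2, Gd.A3e) (by simp)
  have pA3e1_1 : P4 ((1 : ℕ) : ℝ) Gd.A3e1 (sy q z) (z / Real.pi) := k.p (1, Gd.A3e1) (by simp)
  exact ⟨rw_A3e pA3e1_1 pA3e_2, fl_A3e pA3e_2 k.q1⟩

theorem m_3AA {c q z : ℂ} (hH : H4 false c q z) {g : E.B2.Rg}
    (hg : sub g 778 877 225 351 = true) (h : InR g c.re (-c.im)) :
    Rws false ⟨3, false⟩ (sy q z) (z / Real.pi) := by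
  have k := w_3AA hH hg h
  have pA3i_2 : P4 ((2 : ℕ) : ℝ) Gd.A3i (sy q z) (z / Real.pi) := k.p (2, Gd.A3i) (by simp)
  exact ⟨rw_A3i pA3i_2, fl_A3i pA3i_2 k.q1⟩

theorem m_3AS {c q z : ℂ} (hH : H4 false c q z) {g : E.B2.Rg}
    (hg : sub g 783 871 323 473 = true) (h : InR g c.re (-c.im)) :
    Rws false ⟨3, false⟩ (sy q z) (z / Real.pi) := by
  have k := w_3AS hH hg h
  have pA3i_2 : P4 ((2 : ℕ) : ℝ) Gd.A3i (sy q z) (z / Real.pi) := k.p (2, Gd.A3i) (by simp)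
  exact ⟨rw_A3i pA3i_2, fl_A3i pA3i_2 k.q1⟩

theorem m_4A0 {c q z : ℂ} (hH : H4 false c q z) {g : E.B2.Rg}
    (hg : sub g 757 772 123 140 = true) (h : InR g c.re (-c.im)) :
    Rws false ⟨4, true⟩ (sy q z) (z / Real.pi) := by
  have k := w_4A0 hH hg h
  have pA4_2 : P4 ((2 : ℕ) : ℝ) Gd.A4 (sy q z) (z / Real.pi) := k.p (2, Gd.A4) (by simp)
  exact ⟨rw_A4e pA4_2, fl_A4 pA4_2 k.q1⟩

theorem m_4AA {c q z : ℂ} (hH : H4 false c q z) {g : E.B2.Rg}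
    (hg : sub g 826 878 115 199 = true) (h : InR g c.re (-c.im)) :
    Rws false ⟨4, false⟩ (sy q z) (z / Real.pi) := by
  have k := w_4AA hH hg h
  have pA4_2 : P4 ((2 : ℕ) : ℝ) Gd.A4 (sy q z) (z / Real.pi) := k.p (2, Gd.A4) (by simp)
  exact ⟨rw_A4i pA4_2, fl_A4 pA4_2 k.q1⟩

theorem m_4AS {c q z : ℂ} (hH : H4 false c q z) {g : E.B2.Rg}
    (hg : sub g 807 871 180 266 = true) (h : InR g c.re (-c.im)) :
    Rws false ⟨4, false⟩ (sy q z) (z / Real.pi) := by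
  have k := w_4AS hH hg h
  have pA4_2 : P4 ((2 : ℕ) : ℝ) Gd.A4 (sy q z) (z / Real.pi) := k.p (2, Gd.A4) (by simp)
  exact ⟨rw_A4i pA4_2, fl_A4 pA4_2 k.q1⟩

theorem m_5A0 {c q z : ℂ} (hH : H4 false c q z) {g : E.B2.Rg}
    (hg : sub g 825 846 57 81 = true) (h : InR g c.re (-c.im)) :
    Rws false ⟨5, true⟩ (sy q z) (z / Real.pi) := by
  have k := w_5A0 hH hg h
  have pA5_2 : P4 ((2 : ℕ) : ℝ) Gd.A5 (sy q z) (z / Real.pi) := k.p (2, Gd.A5) (by simp)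
  exact ⟨rw_A5e pA5_2, fl_A5 pA5_2 k.q1⟩

theorem m_5AA {c q z : ℂ} (hH : H4 false c q z) {g : E.B2.Rg}
    (hg : sub g 861 903 64 125 = true) (h : InR g c.re (-c.im)) :
    Rws false ⟨5, false⟩ (sy q z) (z / Real.pi) := by
  have k := w_5AA hH hg h
  have pA5_2 : P4 ((2 : ℕ) : ℝ) Gd.A5 (sy q z) (z / Real.pi) := k.p (2, Gd.A5) (by simp)
  exact ⟨rw_A5i pA5_2, fl_A5 pA5_2 k.q1⟩

theorem m_5AS {c q z : ℂ} (hH : H4 false c q z) {g : E.B2.Rg}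
    (hg : sub g 842 892 99 152 = true) (h : InR g c.re (-c.im)) :
    Rws false ⟨5, false⟩ (sy q z) (z / Real.pi) := by
  have k := w_5AS hH hg h
  have pA5_2 : P4 ((2 : ℕ) : ℝ) Gd.A5 (sy q z) (z / Real.pi) := k.p (2, Gd.A5) (by simp)
  exact ⟨rw_A5i pA5_2, fl_A5 pA5_2 k.q1⟩

theorem m_6A0 {c q z : ℂ} (hH : H4 false c q z) {g : E.B2.Rg}
    (hg : sub g 869 892 26 50 = true) (h : InR g c.re (-c.im)) :
    Rws false ⟨6, true⟩ (sy q z) (z / Real.pi) := by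
  have k := w_6A0 hH hg h
  have pA6_2 : P4 ((2 : ℕ) : ℝ) Gd.A6 (sy q z) (z / Real.pi) := k.p (2, Gd.A6) (by simp)
  exact ⟨rw_A6e pA6_2, fl_A6 pA6_2 k.q1⟩

theorem m_6AA {c q z : ℂ} (hH : H4 false c q z) {g : E.B2.Rg}
    (hg : sub g 884 924 36 84 = true) (h : InR g c.re (-c.im)) :
    Rws false ⟨6, false⟩ (sy q z) (z / Real.pi) := by
  have k := w_6AA hH hg h
  have pA6_2 : P4 ((2 : ℕ) : ℝ) Gd.A6 (sy q z) (z / Real.pi) := k.p (2, Gd.A6) (by simp)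
  exact ⟨rw_A6i pA6_2, fl_A6 pA6_2 k.q1⟩

theorem m_6AS {c q z : ℂ} (hH : H4 false c q z) {g : E.B2.Rg}
    (hg : sub g 869 917 53 103 = true) (h : InR g c.re (-c.im)) :
    Rws false ⟨6, false⟩ (sy q z) (z / Real.pi) := by
  have k := w_6AS hH hg h
  have pA6_2 : P4 ((2 : ℕ) : ℝ) Gd.A6 (sy q z) (z / Real.pi) := k.p (2, Gd.A6) (by simp)
  exact ⟨rw_A6i pA6_2, fl_A6 pA6_2 k.q1⟩

theorem m_7A0 {c q z : ℂ} (hH : H4 false c q z) {g : E.B2.Rg}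
    (hg : sub g 899 920 14 36 = true) (h : InR g c.re (-c.im)) :
    Rws false ⟨6, true⟩ (sy q z) (z / Real.pi) := by
  have k := w_7A0 hH hg h
  have pA6_2 : P4 ((2 : ℕ) : ℝ) Gd.A6 (sy q z) (z / Real.pi) := k.p (2, Gd.A6) (by simp)
  exact ⟨rw_A6e pA6_2, fl_A6 pA6_2 k.q1⟩

theorem m_7AA {c q z : ℂ} (hH : H4 false c q z) {g : E.B2.Rg}
    (hg : sub g 907 942 17 57 = true) (h : InR g c.re (-c.im)) :
    Rws false ⟨6, false⟩ (sy q z) (z / Real.pi) := by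
  have k := w_7AA hH hg h
  have pA6_2 : P4 ((2 : ℕ) : ℝ) Gd.A6 (sy q z) (z / Real.pi) := k.p (2, Gd.A6) (by simp)
  exact ⟨rw_A6i pA6_2, fl_A6 pA6_2 k.q1⟩

theorem m_7AS {c q z : ℂ} (hH : H4 false c q z) {g : E.B2.Rg}
    (hg : sub g 897 935 23 66 = true) (h : InR g c.re (-c.im)) :
    Rws false ⟨6, false⟩ (sy q z) (z / Real.pi) := by
  have k := w_7AS hH hg h
  have pA6_2 : P4 ((2 : ℕ) : ℝ) Gd.A6 (sy q z) (z / Real.pi) := k.p (2, Gd.A6) (by simp)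
  exact ⟨rw_A6i pA6_2, fl_A6 pA6_2 k.q1⟩

theorem m_8A0 {c q z : ℂ} (hH : H4 false c q z) {g : E.B2.Rg}
    (hg : sub g 920 1000 0 27 = true) (h : InR g c.re (-c.im)) :
    Rws false ⟨6, true⟩ (sy q z) (z / Real.pi) := by
  have k := w_8A0 hH hg h
  have pA6_2 : P4 ((2 : ℕ) : ℝ) Gd.A6 (sy q z) (z / Real.pi) := k.p (2, Gd.A6) (by simp)
  exact ⟨rw_A6e pA6_2, fl_A6 pA6_2 k.q1⟩

theorem m_8AA {c q z : ℂ} (hH : H4 false c q z) {g : E.B2.Rg}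
    (hg : sub g 924 1000 0 42 = true) (h : InR g c.re (-c.im)) :
    Rws false ⟨6, false⟩ (sy q z) (z / Real.pi) := by
  have k := w_8AA hH hg h
  have pA6_2 : P4 ((2 : ℕ) : ℝ) Gd.A6 (sy q z) (z / Real.pi) := k.p (2, Gd.A6) (by simp)
  exact ⟨rw_A6i pA6_2, fl_A6 pA6_2 k.q1⟩

theorem m_8AS {c q z : ℂ} (hH : H4 false c q z) {g : E.B2.Rg}
    (hg : sub g 913 1000 0 50 = true) (h : InR g c.re (-c.im)) :
    Rws false ⟨6, false⟩ (sy q z) (z / Real.pi) := by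
  have k := w_8AS hH hg h
  have pA6_2 : P4 ((2 : ℕ) : ℝ) Gd.A6 (sy q z) (z / Real.pi) := k.p (2, Gd.A6) (by simp)
  exact ⟨rw_A6i pA6_2, fl_A6 pA6_2 k.q1⟩

theorem m_2SA {c q z : ℂ} (hH : H4 true c q z) {g : E.B2.Rg}
    (hg : sub g 739 908 420 704 = true) (h : InR g c.re (-c.im)) :
    Rws true ⟨2, false⟩ (sy q z) (z / Real.pi) := by
  have k := w_2SA hH hg h
  have pS2i_2 : P4 ((2 : ℕ) : ℝ) Gd.S2i (sy q z) (z / Real.pi) := k.p (2, Gd.S2i) (by simp)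
  have pS2i3_3 : P4 ((3 : ℕ) : ℝ) Gd.S2i3 (sy q z) (z / Real.pi) := k.p (3, Gd.S2i3) (by simp)
  obtain ⟨p, hp, q1, q2⟩ := k.q
  have q1 := P4c q1
  simp only [List.mem_cons, List.not_mem_nil, or_false] at hp
  rcases hp with rfl | rfl | rfl | rfl
  · exact ⟨rw_S2i pS2i_2 pS2i3_3 , fl_S2i_01 q1 q2⟩
  · exact ⟨rw_S2i pS2i_2 pS2i3_3 , fl_S2i_00 q1 q2⟩
  · exact ⟨rw_S2i pS2i_2 pS2i3_3 , fl_S2i_11 q1 q2⟩
  · exact ⟨rw_S2i pS2i_2 pS2i3_3 , fl_S2i_10 q1 q2⟩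

theorem m_3S0 {c q z : ℂ} (hH : H4 true c q z) {g : E.B2.Rg}
    (hg : sub g 629 653 362 397 = true) (h : InR g c.re (-c.im)) :
    Rws true ⟨3, true⟩ (sy q z) (z / Real.pi) := by
  have k := w_3S0 hH hg h
  have pS3e_2 : P4 ((2 : ℕ) : ℝ) Gd.S3e (sy q z) (z / Real.pi) := k.p (2, Gd.S3e) (by simp)
  have pS3e1_1 : P4 ((1 : ℕ) : ℝ) Gd.S3e1 (sy q z) (z / Real.pi) := k.p (1, Gd.S3e1) (by simp)
  exact ⟨rw_S3e pS3e1_1 pS3e_2, fl_S3e pS3e_2 k.q1⟩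

theorem m_3SA {c q z : ℂ} (hH : H4 true c q z) {g : E.B2.Rg}
    (hg : sub g 760 869 243 395 = true) (h : InR g c.re (-c.im)) :
    Rws true ⟨3, false⟩ (sy q z) (z / Real.pi) := by
  have k := w_3SA hH hg h
  have pS3i_2 : P4 ((2 : ℕ) : ℝ) Gd.S3i (sy q z) (z / Real.pi) := k.p (2, Gd.S3i) (by simp)
  have pS3i_a_2 : P4 ((2 : ℕ) : ℝ) Gd.S3i_a (sy q z) (z / Real.pi) := k.p (2, Gd.S3i_a) (by simp)
  exact ⟨rw_S3i pS3i_2, fl_S3i_a pS3i_a_2 pS3i_2 k.q1⟩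

theorem m_3SS {c q z : ℂ} (hH : H4 true c q z) {g : E.B2.Rg}
    (hg : sub g 769 868 372 548 = true) (h : InR g c.re (-c.im)) :
    Rws true ⟨3, false⟩ (sy q z) (z / Real.pi) := by
  have k := w_3SS hH hg h
  have pS3i_2 : P4 ((2 : ℕ) : ℝ) Gd.S3i (sy q z) (z / Real.pi) := k.p (2, Gd.S3i) (by simp)
  have pS3i_s_2 : P4 ((2 : ℕ) : ℝ) Gd.S3i_s (sy q z) (z / Real.pi) := k.p (2, Gd.S3i_s) (by simp)
  exact ⟨rw_S3i pS3i_2, fl_S3i_s pS3i_s_2 pS3i_2 k.q1⟩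

theorem m_4S0 {c q z : ℂ} (hH : H4 true c q z) {g : E.B2.Rg}
    (hg : sub g 734 750 145 163 = true) (h : InR g c.re (-c.im)) :
    Rws true ⟨4, true⟩ (sy q z) (z / Real.pi) := by
  have k := w_4S0 hH hg h
  have pS4_2 : P4 ((2 : ℕ) : ℝ) Gd.S4 (sy q z) (z / Real.pi) := k.p (2, Gd.S4) (by simp)
  exact ⟨rw_S4e pS4_2, fl_S4 pS4_2 k.q1⟩

theorem m_4SA {c q z : ℂ} (hH : H4 true c q z) {g : E.B2.Rg}
    (hg : sub g 813 864 137 223 = true) (h : InR g c.re (-c.im)) :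
    Rws true ⟨4, false⟩ (sy q z) (z / Real.pi) := by
  have k := w_4SA hH hg h
  have pS4_2 : P4 ((2 : ℕ) : ℝ) Gd.S4 (sy q z) (z / Real.pi) := k.p (2, Gd.S4) (by simp)
  exact ⟨rw_S4i pS4_2, fl_S4 pS4_2 k.q1⟩

theorem m_4SS {c q z : ℂ} (hH : H4 true c q z) {g : E.B2.Rg}
    (hg : sub g 790 860 203 298 = true) (h : InR g c.re (-c.im)) :
    Rws true ⟨4, false⟩ (sy q z) (z / Real.pi) := by
  have k := w_4SS hH hg h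
  have pS4_2 : P4 ((2 : ℕ) : ℝ) Gd.S4 (sy q z) (z / Real.pi) := k.p (2, Gd.S4) (by simp)
  exact ⟨rw_S4i pS4_2, fl_S4 pS4_2 k.q1⟩

theorem m_5S0 {c q z : ℂ} (hH : H4 true c q z) {g : E.B2.Rg}
    (hg : sub g 811 833 66 93 = true) (h : InR g c.re (-c.im)) :
    Rws true ⟨5, true⟩ (sy q z) (z / Real.pi) := by
  have k := w_5S0 hH hg h
  have pS5_2 : P4 ((2 : ℕ) : ℝ) Gd.S5 (sy q z) (z / Real.pi) := k.p (2, Gd.S5) (by simp)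
  exact ⟨rw_S5e pS5_2, fl_S5 pS5_2 k.q1⟩

theorem m_5SA {c q z : ℂ} (hH : H4 true c q z) {g : E.B2.Rg}
    (hg : sub g 853 893 73 139 = true) (h : InR g c.re (-c.im)) :
    Rws true ⟨5, false⟩ (sy q z) (z / Real.pi) := by
  have k := w_5SA hH hg h
  have pS5_2 : P4 ((2 : ℕ) : ℝ) Gd.S5 (sy q z) (z / Real.pi) := k.p (2, Gd.S5) (by simp)
  exact ⟨rw_S5i pS5_2, fl_S5 pS5_2 k.q1⟩

theorem m_5SS {c q z : ℂ} (hH : H4 true c q z) {g : E.B2.Rg}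
    (hg : sub g 830 888 110 176 = true) (h : InR g c.re (-c.im)) :
    Rws true ⟨5, false⟩ (sy q z) (z / Real.pi) := by
  have k := w_5SS hH hg h
  have pS5_2 : P4 ((2 : ℕ) : ℝ) Gd.S5 (sy q z) (z / Real.pi) := k.p (2, Gd.S5) (by simp)
  exact ⟨rw_S5i pS5_2, fl_S5 pS5_2 k.q1⟩

theorem m_6S0 {c q z : ℂ} (hH : H4 true c q z) {g : E.B2.Rg}
    (hg : sub g 850 880 24 58 = true) (h : InR g c.re (-c.im)) :
    Rws true ⟨6, true⟩ (sy q z) (z / Real.pi) := by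
  have k := w_6S0 hH hg h
  have pS6_2 : P4 ((2 : ℕ) : ℝ) Gd.S6 (sy q z) (z / Real.pi) := k.p (2, Gd.S6) (by simp)
  exact ⟨rw_S6e pS6_2, fl_S6 pS6_2 k.q1⟩

theorem m_6SA {c q z : ℂ} (hH : H4 true c q z) {g : E.B2.Rg}
    (hg : sub g 875 920 37 94 = true) (h : InR g c.re (-c.im)) :
    Rws true ⟨6, false⟩ (sy q z) (z / Real.pi) := by
  have k := w_6SA hH hg h
  have pS6_2 : P4 ((2 : ℕ) : ℝ) Gd.S6 (sy q z) (z / Real.pi) := k.p (2, Gd.S6) (by simp)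
  exact ⟨rw_S6i pS6_2, fl_S6 pS6_2 k.q1⟩

theorem m_6SS {c q z : ℂ} (hH : H4 true c q z) {g : E.B2.Rg}
    (hg : sub g 859 910 57 113 = true) (h : InR g c.re (-c.im)) :
    Rws true ⟨6, false⟩ (sy q z) (z / Real.pi) := by
  have k := w_6SS hH hg h
  have pS6_2 : P4 ((2 : ℕ) : ℝ) Gd.S6 (sy q z) (z / Real.pi) := k.p (2, Gd.S6) (by simp)
  exact ⟨rw_S6i pS6_2, fl_S6 pS6_2 k.q1⟩

theorem m_7S0 {c q z : ℂ} (hH : H4 true c q z) {g : E.B2.Rg}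
    (hg : sub g 893 913 15 39 = true) (h : InR g c.re (-c.im)) :
    Rws true ⟨6, true⟩ (sy q z) (z / Real.pi) := by
  have k := w_7S0 hH hg h
  have pS6_2 : P4 ((2 : ℕ) : ℝ) Gd.S6 (sy q z) (z / Real.pi) := k.p (2, Gd.S6) (by simp)
  exact ⟨rw_S6e pS6_2, fl_S6 pS6_2 k.q1⟩

theorem m_7SA {c q z : ℂ} (hH : H4 true c q z) {g : E.B2.Rg}
    (hg : sub g 903 936 23 62 = true) (h : InR g c.re (-c.im)) :
    Rws true ⟨6, false⟩ (sy q z) (z / Real.pi) := by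
  have k := w_7SA hH hg h
  have pS6_2 : P4 ((2 : ℕ) : ℝ) Gd.S6 (sy q z) (z / Real.pi) := k.p (2, Gd.S6) (by simp)
  exact ⟨rw_S6i pS6_2, fl_S6 pS6_2 k.q1⟩

theorem m_7SS {c q z : ℂ} (hH : H4 true c q z) {g : E.B2.Rg}
    (hg : sub g 884 927 29 80 = true) (h : InR g c.re (-c.im)) :
    Rws true ⟨6, false⟩ (sy q z) (z / Real.pi) := by
  have k := w_7SS hH hg h
  have pS6_2 : P4 ((2 : ℕ) : ℝ) Gd.S6 (sy q z) (z / Real.pi) := k.p (2, Gd.S6) (by simp)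
  exact ⟨rw_S6i pS6_2, fl_S6 pS6_2 k.q1⟩

theorem m_8S0 {c q z : ℂ} (hH : H4 true c q z) {g : E.B2.Rg}
    (hg : sub g 905 1000 0 29 = true) (h : InR g c.re (-c.im)) :
    Rws true ⟨6, true⟩ (sy q z) (z / Real.pi) := by
  have k := w_8S0 hH hg h
  have pS6_2 : P4 ((2 : ℕ) : ℝ) Gd.S6 (sy q z) (z / Real.pi) := k.p (2, Gd.S6) (by simp)
  exact ⟨rw_S6e pS6_2, fl_S6 pS6_2 k.q1⟩

theorem m_8SA {c q z : ℂ} (hH : H4 true c q z) {g : E.B2.Rg}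
    (hg : sub g 913 1000 0 50 = true) (h : InR g c.re (-c.im)) :
    Rws true ⟨6, false⟩ (sy q z) (z / Real.pi) := by
  have k := w_8SA hH hg h
  have pS6_2 : P4 ((2 : ℕ) : ℝ) Gd.S6 (sy q z) (z / Real.pi) := k.p (2, Gd.S6) (by simp)
  exact ⟨rw_S6i pS6_2, fl_S6 pS6_2 k.q1⟩

theorem m_8SS {c q z : ℂ} (hH : H4 true c q z) {g : E.B2.Rg}
    (hg : sub g 901 1000 0 61 = true) (h : InR g c.re (-c.im)) :
    Rws true ⟨6, false⟩ (sy q z) (z / Real.pi) := by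
  have k := w_8SS hH hg h
  have pS6_2 : P4 ((2 : ℕ) : ℝ) Gd.S6 (sy q z) (z / Real.pi) := k.p (2, Gd.S6) (by simp)
  exact ⟨rw_S6i pS6_2, fl_S6 pS6_2 k.q1⟩

end Pool.Agent.S5.Tb
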