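import Pool.Agent.S5.I.FqD

/-!
# Flats of END 4: certificates
-/

set_option autoImplicit false

namespace Pool.Agent.S5.Tb

theorem fA2e : flt Rd.A2e Gd.A2e
    0x15238c8c8e708d8e7 = true := by decide +kernel

theorem fA3e : flt Rd.A3e Gd.A3e
    0x148c8e718e7 = true := by decide +kernel

theorem fA3i : flt Rd.A3i Gd.A3i
    0x148c8e7018e38e7 = true := by decide +kernel

theorem fA4 : flt Rd.A4 Gd.A4
    0x148c8e7138e7 = true := by decide +kernel

theorem fA5 : flt Rd.A5 Gd.A5
    0x148c8e7138e7 = true := by decide +kernel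

theorem fA6 : flt Rd.A6 Gd.A6
    0x148c8e70638e7 = true := by decide +kernel

theorem fS3e : flt Rd.S3e Gd.S3e
    0x15238c8c8e708d9e7 = true := by decide +kernel

theorem fS3i_a : flt Rd.S3i_a Gd.S3i_a
    0x15238c8c8e708d382e7 = true := by decide +kernel

theorem fS3i_s : flt Rd.S3i_s Gd.S3i_s
    0x15238c8c8e708d1b86e7 = true := by decide +kernel

theorem fS4 : flt Rd.S4 Gd.S4
    0x1523238c8c8e7138e7 = true := by decide +kernel

theorem fS5 : flt Rd.S5 Gd.S5
    0x148c8e7138e7 = true := by decide +kernel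

theorem fS6 : flt Rd.S6 Gd.S6
    0x148c8e70638e7 = true := by decide +kernel

theorem fA2i_a00 : flt Rd.A2i_a00 Gd.A2i_a00
    0x148c8e70638e7 = true := by decide +kernel

end Pool.Agent.S5.Tb
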