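import Pool.Agent.S5.I.FqD

/-!
# Flats of END 4: certificates
-/

set_option autoImplicit false

namespace Pool.Agent.S5.Tb

theorem fA2i_a01 : flt Rd.A2i_a01 Gd.A2i_a01
    0x148c8e7138e7 = true := by decide +kernel

theorem fA2i_a02 : flt Rd.A2i_a02 Gd.A2i_a02
    0x148c8e7138e7 = true := by decide +kernel

theorem fA2i_a10 : flt Rd.A2i_a10 Gd.A2i_a10
    0x148e70638e7 = true := by decide +kernel

theorem fA2i_a11 : flt Rd.A2i_a11 Gd.A2i_a11
    0x148e7058d8e38e7 = true := by decide +kernel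

theorem fA2i_a12 : flt Rd.A2i_a12 Gd.A2i_a12
    0x148e70638e7 = true := by decide +kernel

theorem fA2i_a13 : flt Rd.A2i_a13 Gd.A2i_a13
    0x148e70638e7 = true := by decide +kernel

theorem fA2i_s0 : flt Rd.A2i_s0 Gd.A2i_s0
    0x148e70638e7 = true := by decide +kernel

theorem fA2i_s1 : flt Rd.A2i_s1 Gd.A2i_s1
    0x148e7059d9e38e7 = true := by decide +kernel

theorem fS2i_00 : flt Rd.S2i_00 Gd.S2i_00
    0x1523238c8c8e708d9e7 = true := by decide +kernel

theorem fS2i_01 : flt Rd.S2i_01 Gd.S2i_01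
    0x1523238c9c82e7038d1b9e7 = true := by decide +kernel

theorem fS2i_10 : flt Rd.S2i_10 Gd.S2i_10
    0x148c8e708d39e7 = true := by decide +kernel

theorem fS2i_11 : flt Rd.S2i_11 Gd.S2i_11
    0x148c82e708d1b9e7 = true := by decide +kernel

end Pool.Agent.S5.Tb
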