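import Pool.Agent.S5.I.RwD

/-!
# Rows of END 4: certificates
-/

set_option autoImplicit false

namespace Pool.Agent.S5.Tb

theorem kA2e_F : rw4 2 Gd.A2e 0 (.F) = true := by decide +kernel

theorem kA2e_H : rw4 2 Gd.A2e 0 (.H) = true := by decide +kernel

theorem kA2e_G : rw4 2 Gd.A2e 0 (.G) = true := by decide +kernel

theorem kA2e_L : rw4 2 Gd.A2e (-251659) (.L) = true := by decide +kernel

theorem kA2e_R : rw4 2 Gd.A2e 0 (.R) = true := by decide +kernel

theorem kA2e_T : rw4 2 Gd.A2e 0 (.T) = true := by decide +kernel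

theorem kA2e_t : rw4 2 Gd.A2e (-136315) (.t) = true := by decide +kernel

theorem kA2e_U : rw4 2 Gd.A2e 0 (.U) = true := by decide +kernel

theorem kA2e_u : rw4 2 Gd.A2e (-251659) (.u) = true := by decide +kernel

theorem kA2e_P : rw4 2 Gd.A2e (-251659) (.P) = true := by decide +kernel

theorem kA2e_p : rw4 2 Gd.A2e (-251659) (.p) = true := by decide +kernel

theorem kA2e_Q : rw4 2 Gd.A2e 0 (.Q) = true := by decide +kernel

theorem kA2e_q : rw4 2 Gd.A2e 0 (.q) = true := by decide +kernel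

theorem kA2e_E : rw4 2 Gd.A2e 157286 (.re .far) = true := by decide +kernel

theorem kA2i_F : rw4 2 Gd.A2i 0 (.F) = true := by decide +kernel

theorem kA2i_L : rw4 2 Gd.A2i 0 (.L) = true := by decide +kernel

theorem kA2i_R : rw4 2 Gd.A2i 0 (.R) = true := by decide +kernel

theorem kA2i_T : rw4 2 Gd.A2i 0 (.T) = true := by decide +kernel

theorem kA2i_t : rw4 2 Gd.A2i 0 (.t) = true := by decide +kernel

theorem kA2i_U : rw4 2 Gd.A2i 0 (.U) = true := by decide +kernel

theorem kA2i_u : rw4 2 Gd.A2i 0 (.u) = true := by decide +kernel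

theorem kA2i_P : rw4 2 Gd.A2i 0 (.P) = true := by decide +kernel

theorem kA2i_p : rw4 2 Gd.A2i 0 (.p) = true := by decide +kernel

theorem kA2i_Q : rw4 2 Gd.A2i 0 (.Q) = true := by decide +kernel

theorem kA2i_q : rw4 2 Gd.A2i 0 (.q) = true := by decide +kernel

theorem kA2i_E : rw4 2 Gd.A2i 157286 (.re .far) = true := by decide +kernel

theorem kA3e_F : rw4 2 Gd.A3e 0 (.F) = true := by decide +kernel

theorem kA3e_R : rw4 2 Gd.A3e 0 (.R) = true := by decide +kernel

theorem kA3e_T : rw4 2 Gd.A3e 0 (.T) = true := by decide +kernel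

theorem kA3e_t : rw4 2 Gd.A3e 0 (.t) = true := by decide +kernel

theorem kA3e_Q : rw4 2 Gd.A3e 0 (.Q) = true := by decide +kernel

theorem kA3e_q : rw4 2 Gd.A3e 0 (.q) = true := by decide +kernel

theorem kA3e_E : rw4 2 Gd.A3e 157286 (.re .far) = true := by decide +kernel

theorem kA3e_Z : rw4 2 Gd.A3e 31457 (.rz .far) = true := by decide +kernel

theorem kA3e1_H : rw4 1 Gd.A3e1 0 (.H) = true := by decide +kernel

theorem kA3e1_G : rw4 1 Gd.A3e1 0 (.G) = true := by decide +kernel

theorem kA3e1_L : rw4 1 Gd.A3e1 0 (.L) = true := by decide +kernel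

theorem kA3e1_U : rw4 1 Gd.A3e1 0 (.U) = true := by decide +kernel

theorem kA3e1_u : rw4 1 Gd.A3e1 0 (.u) = true := by decide +kernel

theorem kA3e1_P : rw4 1 Gd.A3e1 0 (.P) = true := by decide +kernel

theorem kA3e1_p : rw4 1 Gd.A3e1 0 (.p) = true := by decide +kernel

end Pool.Agent.S5.Tb
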