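import Pool.Agent.S5.I.RwD

/-!
# Rows of END 4: certificates
-/

set_option autoImplicit false

namespace Pool.Agent.S5.Tb

theorem kA3i_F : rw4 2 Gd.A3i 0 (.F) = true := by decide +kernel

theorem kA3i_H : rw4 2 Gd.A3i 0 (.H) = true := by decide +kernel

theorem kA3i_G : rw4 2 Gd.A3i 0 (.G) = true := by decide +kernel

theorem kA3i_L : rw4 2 Gd.A3i 0 (.L) = true := by decide +kernel

theorem kA3i_R : rw4 2 Gd.A3i 0 (.R) = true := by decide +kernel

theorem kA3i_T : rw4 2 Gd.A3i 0 (.T) = true := by decide +kernel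

theorem kA3i_t : rw4 2 Gd.A3i 0 (.t) = true := by decide +kernel

theorem kA3i_U : rw4 2 Gd.A3i 0 (.U) = true := by decide +kernel

theorem kA3i_u : rw4 2 Gd.A3i 0 (.u) = true := by decide +kernel

theorem kA3i_P : rw4 2 Gd.A3i 0 (.P) = true := by decide +kernel

theorem kA3i_p : rw4 2 Gd.A3i 0 (.p) = true := by decide +kernel

theorem kA3i_Q : rw4 2 Gd.A3i 0 (.Q) = true := by decide +kernel

theorem kA3i_q : rw4 2 Gd.A3i 0 (.q) = true := by decide +kernel

theorem kA3i_E : rw4 2 Gd.A3i 157286 (.re .far) = true := by decide +kernel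

theorem kA3i_Z : rw4 2 Gd.A3i 31457 (.rz .far) = true := by decide +kernel

theorem kA4_F : rw4 2 Gd.A4 0 (.F) = true := by decide +kernel

theorem kA4_H : rw4 2 Gd.A4 0 (.H) = true := by decide +kernel

theorem kA4_G : rw4 2 Gd.A4 0 (.G) = true := by decide +kernel

theorem kA4_L : rw4 2 Gd.A4 0 (.L) = true := by decide +kernel

theorem kA4_R : rw4 2 Gd.A4 0 (.R) = true := by decide +kernel

theorem kA4_T : rw4 2 Gd.A4 0 (.T) = true := by decide +kernel

theorem kA4_t : rw4 2 Gd.A4 0 (.t) = true := by decide +kernel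

theorem kA4_U : rw4 2 Gd.A4 0 (.U) = true := by decide +kernel

theorem kA4_u : rw4 2 Gd.A4 0 (.u) = true := by decide +kernel

theorem kA4_P : rw4 2 Gd.A4 0 (.P) = true := by decide +kernel

theorem kA4_p : rw4 2 Gd.A4 0 (.p) = true := by decide +kernel

theorem kA4_Q : rw4 2 Gd.A4 0 (.Q) = true := by decide +kernel

theorem kA4_q : rw4 2 Gd.A4 0 (.q) = true := by decide +kernel

theorem kA4_E : rw4 2 Gd.A4 157286 (.re .far) = true := by decide +kernel

theorem kA4_Z : rw4 2 Gd.A4 31457 (.rz .far) = true := by decide +kernel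

theorem kA5_F : rw4 2 Gd.A5 0 (.F) = true := by decide +kernel

theorem kA5_H : rw4 2 Gd.A5 0 (.H) = true := by decide +kernel

theorem kA5_G : rw4 2 Gd.A5 0 (.G) = true := by decide +kernel

theorem kA5_L : rw4 2 Gd.A5 0 (.L) = true := by decide +kernel

theorem kA5_R : rw4 2 Gd.A5 0 (.R) = true := by decide +kernel

theorem kA5_T : rw4 2 Gd.A5 0 (.T) = true := by decide +kernel

theorem kA5_t : rw4 2 Gd.A5 0 (.t) = true := by decide +kernel

theorem kA5_U : rw4 2 Gd.A5 0 (.U) = true := by decide +kernel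

theorem kA5_u : rw4 2 Gd.A5 0 (.u) = true := by decide +kernel

theorem kA5_P : rw4 2 Gd.A5 0 (.P) = true := by decide +kernel

theorem kA5_p : rw4 2 Gd.A5 0 (.p) = true := by decide +kernel

theorem kA5_Q : rw4 2 Gd.A5 0 (.Q) = true := by decide +kernel

theorem kA5_q : rw4 2 Gd.A5 0 (.q) = true := by decide +kernel

theorem kA5_E : rw4 2 Gd.A5 157286 (.re .far) = true := by decide +kernel

end Pool.Agent.S5.Tb
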