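import Pool.Agent.S5.I.RwD

/-!
# Rows of END 4: certificates
-/

set_option autoImplicit false

namespace Pool.Agent.S5.Tb

theorem kA6_F : rw4 2 Gd.A6 0 (.F) = true := by decide +kernel

theorem kA6_H : rw4 2 Gd.A6 0 (.H) = true := by decide +kernel

theorem kA6_G : rw4 2 Gd.A6 83886 (.G) = true := by decide +kernel

theorem kA6_L : rw4 2 Gd.A6 157286 (.L) = true := by decide +kernel

theorem kA6_R : rw4 2 Gd.A6 0 (.R) = true := by decide +kernel

theorem kA6_T : rw4 2 Gd.A6 0 (.T) = true := by decide +kernel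

theorem kA6_t : rw4 2 Gd.A6 41943 (.t) = true := by decide +kernel

theorem kA6_U : rw4 2 Gd.A6 0 (.U) = true := by decide +kernel

theorem kA6_u : rw4 2 Gd.A6 157286 (.u) = true := by decide +kernel

theorem kA6_P : rw4 2 Gd.A6 157286 (.P) = true := by decide +kernel

theorem kA6_p : rw4 2 Gd.A6 157286 (.p) = true := by decide +kernel

theorem kA6_Q : rw4 2 Gd.A6 0 (.Q) = true := by decide +kernel

theorem kA6_q : rw4 2 Gd.A6 0 (.q) = true := by decide +kernel

theorem kA6_E : rw4 2 Gd.A6 157286 (.re .far) = true := by decide +kernel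

theorem kS2i_H : rw4 2 Gd.S2i 0 (.H) = true := by decide +kernel

theorem kS2i_G : rw4 2 Gd.S2i 167772 (.G) = true := by decide +kernel

theorem kS2i_L : rw4 2 Gd.S2i 209715 (.L) = true := by decide +kernel

theorem kS2i_R : rw4 2 Gd.S2i 0 (.R) = true := by decide +kernel

theorem kS2i_T : rw4 2 Gd.S2i 0 (.T) = true := by decide +kernel

theorem kS2i_U : rw4 2 Gd.S2i 0 (.U) = true := by decide +kernel

theorem kS2i_u : rw4 2 Gd.S2i 146800 (.u) = true := by decide +kernel

theorem kS2i_P : rw4 2 Gd.S2i 209715 (.P) = true := by decide +kernel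

theorem kS2i_p : rw4 2 Gd.S2i 209715 (.p) = true := by decide +kernel

theorem kS2i_Q : rw4 2 Gd.S2i 0 (.Q) = true := by decide +kernel

theorem kS2i_q : rw4 2 Gd.S2i 0 (.q) = true := by decide +kernel

theorem kS2i_E : rw4 2 Gd.S2i 188743 (.re .far) = true := by decide +kernel

theorem kS2i3_t : rw4 3 Gd.S2i3 104857 (.t) = true := by decide +kernel

theorem kS3e_F : rw4 2 Gd.S3e 0 (.F) = true := by decide +kernel

theorem kS3e_R : rw4 2 Gd.S3e 0 (.R) = true := by decide +kernel

theorem kS3e_T : rw4 2 Gd.S3e 0 (.T) = true := by decide +kernel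

theorem kS3e_t : rw4 2 Gd.S3e 0 (.t) = true := by decide +kernel

theorem kS3e_Q : rw4 2 Gd.S3e 0 (.Q) = true := by decide +kernel

theorem kS3e_q : rw4 2 Gd.S3e 0 (.q) = true := by decide +kernel

theorem kS3e_E : rw4 2 Gd.S3e 188743 (.re .far) = true := by decide +kernel

theorem kS3e_Z : rw4 2 Gd.S3e 73400 (.rz .far) = true := by decide +kernel

theorem kS3e1_H : rw4 1 Gd.S3e1 0 (.H) = true := by decide +kernel

theorem kS3e1_G : rw4 1 Gd.S3e1 0 (.G) = true := by decide +kernel

theorem kS3e1_L : rw4 1 Gd.S3e1 0 (.L) = true := by decide +kernel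

theorem kS3e1_U : rw4 1 Gd.S3e1 0 (.U) = true := by decide +kernel

theorem kS3e1_u : rw4 1 Gd.S3e1 0 (.u) = true := by decide +kernel

theorem kS3e1_P : rw4 1 Gd.S3e1 0 (.P) = true := by decide +kernel

theorem kS3e1_p : rw4 1 Gd.S3e1 0 (.p) = true := by decide +kernel

end Pool.Agent.S5.Tb
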