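import Pool.Agent.S5.I.RwD

/-!
# Rows of END 4: certificates
-/

set_option autoImplicit false

namespace Pool.Agent.S5.Tb

theorem kS5_F : rw4 2 Gd.S5 0 (.F) = true := by decide +kernel

theorem kS5_H : rw4 2 Gd.S5 0 (.H) = true := by decide +kernel

theorem kS5_G : rw4 2 Gd.S5 0 (.G) = true := by decide +kernel

theorem kS5_L : rw4 2 Gd.S5 0 (.L) = true := by decide +kernel

theorem kS5_R : rw4 2 Gd.S5 0 (.R) = true := by decide +kernel

theorem kS5_T : rw4 2 Gd.S5 0 (.T) = true := by decide +kernel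

theorem kS5_t : rw4 2 Gd.S5 0 (.t) = true := by decide +kernel

theorem kS5_U : rw4 2 Gd.S5 0 (.U) = true := by decide +kernel

theorem kS5_u : rw4 2 Gd.S5 0 (.u) = true := by decide +kernel

theorem kS5_P : rw4 2 Gd.S5 0 (.P) = true := by decide +kernel

theorem kS5_p : rw4 2 Gd.S5 0 (.p) = true := by decide +kernel

theorem kS5_Q : rw4 2 Gd.S5 0 (.Q) = true := by decide +kernel

theorem kS5_q : rw4 2 Gd.S5 0 (.q) = true := by decide +kernel

theorem kS5_E : rw4 2 Gd.S5 188743 (.re .far) = true := by decide +kernel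

theorem kS6_F : rw4 2 Gd.S6 0 (.F) = true := by decide +kernel

theorem kS6_H : rw4 2 Gd.S6 0 (.H) = true := by decide +kernel

theorem kS6_G : rw4 2 Gd.S6 83886 (.G) = true := by decide +kernel

theorem kS6_L : rw4 2 Gd.S6 157286 (.L) = true := by decide +kernel

theorem kS6_R : rw4 2 Gd.S6 0 (.R) = true := by decide +kernel

theorem kS6_T : rw4 2 Gd.S6 0 (.T) = true := by decide +kernel

theorem kS6_t : rw4 2 Gd.S6 41943 (.t) = true := by decide +kernel

theorem kS6_U : rw4 2 Gd.S6 0 (.U) = true := by decide +kernel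

theorem kS6_u : rw4 2 Gd.S6 157286 (.u) = true := by decide +kernel

theorem kS6_P : rw4 2 Gd.S6 157286 (.P) = true := by decide +kernel

theorem kS6_p : rw4 2 Gd.S6 157286 (.p) = true := by decide +kernel

theorem kS6_Q : rw4 2 Gd.S6 0 (.Q) = true := by decide +kernel

theorem kS6_q : rw4 2 Gd.S6 0 (.q) = true := by decide +kernel

theorem kS6_E : rw4 2 Gd.S6 188743 (.re .far) = true := by decide +kernel

theorem kA2i_a00_H : rw4 2 Gd.A2i_a00 0 (.H) = true := by decide +kernel

theorem kA2i_a00_G : rw4 2 Gd.A2i_a00 0 (.G) = true := by decide +kernel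

theorem kA2i_a01_H : rw4 2 Gd.A2i_a01 0 (.H) = true := by decide +kernel

theorem kA2i_a01_G : rw4 2 Gd.A2i_a01 0 (.G) = true := by decide +kernel

theorem kA2i_a02_H : rw4 2 Gd.A2i_a02 0 (.H) = true := by decide +kernel

theorem kA2i_a02_G : rw4 2 Gd.A2i_a02 0 (.G) = true := by decide +kernel

theorem kA2i_a10_H : rw4 2 Gd.A2i_a10 0 (.H) = true := by decide +kernel

theorem kA2i_a10_G : rw4 2 Gd.A2i_a10 0 (.G) = true := by decide +kernel

theorem kA2i_a11_H : rw4 2 Gd.A2i_a11 0 (.H) = true := by decide +kernel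

theorem kA2i_a11_G : rw4 2 Gd.A2i_a11 0 (.G) = true := by decide +kernel

theorem kA2i_a12_H : rw4 2 Gd.A2i_a12 0 (.H) = true := by decide +kernel

theorem kA2i_a12_G : rw4 2 Gd.A2i_a12 0 (.G) = true := by decide +kernel

theorem kA2i_a13_H : rw4 2 Gd.A2i_a13 0 (.H) = true := by decide +kernel

theorem kA2i_a13_G : rw4 2 Gd.A2i_a13 0 (.G) = true := by decide +kernel

theorem kA2i_s0_H : rw4 2 Gd.A2i_s0 0 (.H) = true := by decide +kernel

theorem kA2i_s0_G : rw4 2 Gd.A2i_s0 0 (.G) = true := by decide +kernel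

theorem kA2i_s1_H : rw4 2 Gd.A2i_s1 0 (.H) = true := by decide +kernel

theorem kA2i_s1_G : rw4 2 Gd.A2i_s1 0 (.G) = true := by decide +kernel

end Pool.Agent.S5.Tb
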