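import Pool.Agent.S5.I.RwD

/-!
# Rows of END 4: certificates
-/

set_option autoImplicit false

namespace Pool.Agent.S5.Tb

theorem kS2i_00_F : rw4 2 Gd.S2i_00 0 (.F) = true := by decide +kernel

theorem kS2i_01_F : rw4 2 Gd.S2i_01 0 (.F) = true := by decide +kernel

theorem kS2i_10_F : rw4 2 Gd.S2i_10 0 (.F) = true := by decide +kernel

theorem kS2i_11_F : rw4 2 Gd.S2i_11 0 (.F) = true := by decide +kernel

end Pool.Agent.S5.Tb
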