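import Pool.Agent.S5.I.E4
import Pool.Agent.S5.I.RkA
import Pool.Agent.S5.I.RkB
import Pool.Agent.S5.I.RkC
import Pool.Agent.S5.I.RkD
import Pool.Agent.S5.I.RkE
import Pool.Agent.S5.I.RkF
import Pool.Agent.S5.I.FkA
import Pool.Agent.S5.I.FkB

/-!
# END 4: the rows of the classes (generated)
-/

set_option autoImplicit false

namespace Pool.Agent.S5.Tb

variable {ys vs : ℂ}

theorem ok_A2e : gok Gd.A2e = true := by decide +kernel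

theorem ok_A2i : gok Gd.A2i = true := by decide +kernel

theorem ok_A2i_a00 : gok Gd.A2i_a00 = true := by decide +kernel

theorem ok_A2i_a01 : gok Gd.A2i_a01 = true := by decide +kernel

theorem ok_A2i_a02 : gok Gd.A2i_a02 = true := by decide +kernel

theorem ok_A2i_a10 : gok Gd.A2i_a10 = true := by decide +kernel

theorem ok_A2i_a11 : gok Gd.A2i_a11 = true := by decide +kernel

theorem ok_A2i_a12 : gok Gd.A2i_a12 = true := by decide +kernel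

theorem ok_A2i_a13 : gok Gd.A2i_a13 = true := by decide +kernel

theorem ok_A2i_s0 : gok Gd.A2i_s0 = true := by decide +kernel

theorem ok_A2i_s1 : gok Gd.A2i_s1 = true := by decide +kernel

theorem ok_A3e : gok Gd.A3e = true := by decide +kernel

theorem ok_A3e1 : gok Gd.A3e1 = true := by decide +kernel

theorem ok_A3i : gok Gd.A3i = true := by decide +kernel

theorem ok_A4 : gok Gd.A4 = true := by decide +kernel

theorem ok_A5 : gok Gd.A5 = true := by decide +kernel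

theorem ok_A6 : gok Gd.A6 = true := by decide +kernel

theorem ok_S2i : gok Gd.S2i = true := by decide +kernel

theorem ok_S2i3 : gok Gd.S2i3 = true := by decide +kernel

theorem ok_S2i_00 : gok Gd.S2i_00 = true := by decide +kernel

theorem ok_S2i_01 : gok Gd.S2i_01 = true := by decide +kernel

theorem ok_S2i_10 : gok Gd.S2i_10 = true := by decide +kernel

theorem ok_S2i_11 : gok Gd.S2i_11 = true := by decide +kernel

theorem ok_S3e : gok Gd.S3e = true := by decide +kernel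

theorem ok_S3e1 : gok Gd.S3e1 = true := by decide +kernel

theorem ok_S3i : gok Gd.S3i = true := by decide +kernel

theorem ok_S3i_a : gok Gd.S3i_a = true := by decide +kernel

theorem ok_S3i_s : gok Gd.S3i_s = true := by decide +kernel

theorem ok_S4 : gok Gd.S4 = true := by decide +kernel

theorem ok_S5 : gok Gd.S5 = true := by decide +kernel

theorem ok_S6 : gok Gd.S6 = true := by decide +kernel

theorem fok_A2e : fok4 Rd.A2e Gd.A2e = true := by decide +kernel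

theorem fok_A2i_a00 : fok4 Rd.A2i_a00 Gd.A2i_a00 = true := by decide +kernel

theorem fok_A2i_a01 : fok4 Rd.A2i_a01 Gd.A2i_a01 = true := by decide +kernel

theorem fok_A2i_a02 : fok4 Rd.A2i_a02 Gd.A2i_a02 = true := by decide +kernel

theorem fok_A2i_a10 : fok4 Rd.A2i_a10 Gd.A2i_a10 = true := by decide +kernel

theorem fok_A2i_a11 : fok4 Rd.A2i_a11 Gd.A2i_a11 = true := by decide +kernel

theorem fok_A2i_a12 : fok4 Rd.A2i_a12 Gd.A2i_a12 = true := by decide +kernel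

theorem fok_A2i_a13 : fok4 Rd.A2i_a13 Gd.A2i_a13 = true := by decide +kernel

theorem fok_A2i_s0 : fok4 Rd.A2i_s0 Gd.A2i_s0 = true := by decide +kernel

theorem fok_A2i_s1 : fok4 Rd.A2i_s1 Gd.A2i_s1 = true := by decide +kernel

theorem fok_A3e : fok4 Rd.A3e Gd.A3e = true := by decide +kernel

theorem fok_A3i : fok4 Rd.A3i Gd.A3i = true := by decide +kernel

theorem fok_A4 : fok4 Rd.A4 Gd.A4 = true := by decide +kernel

theorem fok_A5 : fok4 Rd.A5 Gd.A5 = true := by decide +kernel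

theorem fok_A6 : fok4 Rd.A6 Gd.A6 = true := by decide +kernel

theorem fok_S2i_00 : fok4 Rd.S2i_00 Gd.S2i_00 = true := by decide +kernel

theorem fok_S2i_01 : fok4 Rd.S2i_01 Gd.S2i_01 = true := by decide +kernel

theorem fok_S2i_10 : fok4 Rd.S2i_10 Gd.S2i_10 = true := by decide +kernel

theorem fok_S2i_11 : fok4 Rd.S2i_11 Gd.S2i_11 = true := by decide +kernel

theorem fok_S3e : fok4 Rd.S3e Gd.S3e = true := by decide +kernel

theorem fok_S3i_a : fok4 Rd.S3i_a Gd.S3i_a = true := by decide +kernel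

theorem fok_S3i_s : fok4 Rd.S3i_s Gd.S3i_s = true := by decide +kernel

theorem fok_S4 : fok4 Rd.S4 Gd.S4 = true := by decide +kernel

theorem fok_S5 : fok4 Rd.S5 Gd.S5 = true := by decide +kernel

theorem fok_S6 : fok4 Rd.S6 Gd.S6 = true := by decide +kernel

theorem rw_A2e (h0 : P4 ((2 : ℕ) : ℝ) Gd.A2e ys vs)  :
    ∀ pc, Pc.occ ⟨2, true⟩ pc → RowOK false ⟨2, true⟩ ys vs pc := by
  rintro pc ⟨o1, o2, o3, o4⟩
  cases pc with
  | F => exact absurd rfl o2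
  | H => exact ⟨2, Gd.A2e, 0, Or.inr (Or.inl rfl), ok_A2e, by decide +kernel, kA2e_H, h0⟩
  | G => exact ⟨2, Gd.A2e, 0, Or.inr (Or.inl rfl), ok_A2e, by decide +kernel, kA2e_G, h0⟩
  | L => exact ⟨2, Gd.A2e, (-251659), Or.inr (Or.inl rfl), ok_A2e, by decide +kernel, kA2e_L, h0⟩
  | R => exact ⟨2, Gd.A2e, 0, Or.inr (Or.inl rfl), ok_A2e, by decide +kernel, kA2e_R, h0⟩
  | T => exact ⟨2, Gd.A2e, 0, Or.inr (Or.inl rfl), ok_A2e, by decide +kernel, kA2e_T, h0⟩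
  | t => exact ⟨2, Gd.A2e, (-136315), Or.inr (Or.inl rfl), ok_A2e, by decide +kernel, kA2e_t, h0⟩
  | U => exact ⟨2, Gd.A2e, 0, Or.inr (Or.inl rfl), ok_A2e, by decide +kernel, kA2e_U, h0⟩
  | u => exact ⟨2, Gd.A2e, (-251659), Or.inr (Or.inl rfl), ok_A2e, by decide +kernel, kA2e_u, h0⟩
  | P => exact ⟨2, Gd.A2e, (-251659), Or.inr (Or.inl rfl), ok_A2e, by decide +kernel, kA2e_P, h0⟩
  | p => exact ⟨2, Gd.A2e, (-251659), Or.inr (Or.inl rfl), ok_A2e, by decide +kernel, kA2e_p, h0⟩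
  | Q => exact ⟨2, Gd.A2e, 0, Or.inr (Or.inl rfl), ok_A2e, by decide +kernel, kA2e_Q, h0⟩
  | q => exact ⟨2, Gd.A2e, 0, Or.inr (Or.inl rfl), ok_A2e, by decide +kernel, kA2e_q, h0⟩
  | lo => exact absurd o1 (by simp [Pc.free, Pc.std])
  | re f =>
    cases f with
    | own => exact absurd o1 (by simp [Pc.free, Pc.std])
    | both => exact absurd o1 (by simp [Pc.free, Pc.std])
    | far => exact absurd (o4 rfl) (by decide)
  | rz f =>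
    cases f with
    | own => exact absurd o1 (by simp [Pc.free, Pc.std])
    | both => exact absurd o1 (by simp [Pc.free, Pc.std])
    | far => exact absurd (o3 rfl) (by decide)

theorem rw_A2i (h0 : P4 ((2 : ℕ) : ℝ) Gd.A2i ys vs) (mH : RowOK false ⟨2, false⟩ ys vs .H) (mG : RowOK false ⟨2, false⟩ ys vs .G) :
    ∀ pc, Pc.occ ⟨2, false⟩ pc → RowOK false ⟨2, false⟩ ys vs pc := by
  rintro pc ⟨o1, o2, o3, o4⟩
  cases pc with
  | F => exact absurd rfl o2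
  | H => exact mH
  | G => exact mG
  | L => exact ⟨2, Gd.A2i, 0, Or.inr (Or.inl rfl), ok_A2i, by decide +kernel, kA2i_L, h0⟩
  | R => exact ⟨2, Gd.A2i, 0, Or.inr (Or.inl rfl), ok_A2i, by decide +kernel, kA2i_R, h0⟩
  | T => exact ⟨2, Gd.A2i, 0, Or.inr (Or.inl rfl), ok_A2i, by decide +kernel, kA2i_T, h0⟩
  | t => exact ⟨2, Gd.A2i, 0, Or.inr (Or.inl rfl), ok_A2i, by decide +kernel, kA2i_t, h0⟩
  | U => exact ⟨2, Gd.A2i, 0, Or.inr (Or.inl rfl), ok_A2i, by decide +kernel, kA2i_U, h0⟩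
  | u => exact ⟨2, Gd.A2i, 0, Or.inr (Or.inl rfl), ok_A2i, by decide +kernel, kA2i_u, h0⟩
  | P => exact ⟨2, Gd.A2i, 0, Or.inr (Or.inl rfl), ok_A2i, by decide +kernel, kA2i_P, h0⟩
  | p => exact ⟨2, Gd.A2i, 0, Or.inr (Or.inl rfl), ok_A2i, by decide +kernel, kA2i_p, h0⟩
  | Q => exact ⟨2, Gd.A2i, 0, Or.inr (Or.inl rfl), ok_A2i, by decide +kernel, kA2i_Q, h0⟩
  | q => exact ⟨2, Gd.A2i, 0, Or.inr (Or.inl rfl), ok_A2i, by decide +kernel, kA2i_q, h0⟩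
  | lo => exact absurd o1 (by simp [Pc.free, Pc.std])
  | re f =>
    cases f with
    | own => exact absurd o1 (by simp [Pc.free, Pc.std])
    | both => exact absurd o1 (by simp [Pc.free, Pc.std])
    | far => exact ⟨2, Gd.A2i, 157286, Or.inr (Or.inl rfl), ok_A2i, by decide +kernel, kA2i_E, h0⟩
  | rz f =>
    cases f with
    | own => exact absurd o1 (by simp [Pc.free, Pc.std])
    | both => exact absurd o1 (by simp [Pc.free, Pc.std])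
    | far => exact absurd (o3 rfl) (by decide)

theorem rw_A3e (h0 : P4 ((1 : ℕ) : ℝ) Gd.A3e1 ys vs) (h1 : P4 ((2 : ℕ) : ℝ) Gd.A3e ys vs)  :
    ∀ pc, Pc.occ ⟨3, true⟩ pc → RowOK false ⟨3, true⟩ ys vs pc := by
  rintro pc ⟨o1, o2, o3, o4⟩
  cases pc with
  | F => exact absurd rfl o2
  | H => exact ⟨1, Gd.A3e1, 0, Or.inl rfl, ok_A3e1, by decide +kernel, kA3e1_H, h0⟩
  | G => exact ⟨1, Gd.A3e1, 0, Or.inl rfl, ok_A3e1, by decide +kernel, kA3e1_G, h0⟩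
  | L => exact ⟨1, Gd.A3e1, 0, Or.inl rfl, ok_A3e1, by decide +kernel, kA3e1_L, h0⟩
  | R => exact ⟨2, Gd.A3e, 0, Or.inr (Or.inl rfl), ok_A3e, by decide +kernel, kA3e_R, h1⟩
  | T => exact ⟨2, Gd.A3e, 0, Or.inr (Or.inl rfl), ok_A3e, by decide +kernel, kA3e_T, h1⟩
  | t => exact ⟨2, Gd.A3e, 0, Or.inr (Or.inl rfl), ok_A3e, by decide +kernel, kA3e_t, h1⟩
  | U => exact ⟨1, Gd.A3e1, 0, Or.inl rfl, ok_A3e1, by decide +kernel, kA3e1_U, h0⟩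
  | u => exact ⟨1, Gd.A3e1, 0, Or.inl rfl, ok_A3e1, by decide +kernel, kA3e1_u, h0⟩
  | P => exact ⟨1, Gd.A3e1, 0, Or.inl rfl, ok_A3e1, by decide +kernel, kA3e1_P, h0⟩
  | p => exact ⟨1, Gd.A3e1, 0, Or.inl rfl, ok_A3e1, by decide +kernel, kA3e1_p, h0⟩
  | Q => exact ⟨2, Gd.A3e, 0, Or.inr (Or.inl rfl), ok_A3e, by decide +kernel, kA3e_Q, h1⟩
  | q => exact ⟨2, Gd.A3e, 0, Or.inr (Or.inl rfl), ok_A3e, by decide +kernel, kA3e_q, h1⟩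
  | lo => exact absurd o1 (by simp [Pc.free, Pc.std])
  | re f =>
    cases f with
    | own => exact absurd o1 (by simp [Pc.free, Pc.std])
    | both => exact absurd o1 (by simp [Pc.free, Pc.std])
    | far => exact absurd (o4 rfl) (by decide)
  | rz f =>
    cases f with
    | own => exact absurd o1 (by simp [Pc.free, Pc.std])
    | both => exact absurd o1 (by simp [Pc.free, Pc.std])
    | far => exact ⟨2, Gd.A3e, 31457, Or.inr (Or.inl rfl), ok_A3e, by decide +kernel, kA3e_Z, h1⟩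

theorem rw_A3i (h0 : P4 ((2 : ℕ) : ℝ) Gd.A3i ys vs)  :
    ∀ pc, Pc.occ ⟨3, false⟩ pc → RowOK false ⟨3, false⟩ ys vs pc := by
  rintro pc ⟨o1, o2, o3, o4⟩
  cases pc with
  | F => exact absurd rfl o2
  | H => exact ⟨2, Gd.A3i, 0, Or.inr (Or.inl rfl), ok_A3i, by decide +kernel, kA3i_H, h0⟩
  | G => exact ⟨2, Gd.A3i, 0, Or.inr (Or.inl rfl), ok_A3i, by decide +kernel, kA3i_G, h0⟩
  | L => exact ⟨2, Gd.A3i, 0, Or.inr (Or.inl rfl), ok_A3i, by decide +kernel, kA3i_L, h0⟩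
  | R => exact ⟨2, Gd.A3i, 0, Or.inr (Or.inl rfl), ok_A3i, by decide +kernel, kA3i_R, h0⟩
  | T => exact ⟨2, Gd.A3i, 0, Or.inr (Or.inl rfl), ok_A3i, by decide +kernel, kA3i_T, h0⟩
  | t => exact ⟨2, Gd.A3i, 0, Or.inr (Or.inl rfl), ok_A3i, by decide +kernel, kA3i_t, h0⟩
  | U => exact ⟨2, Gd.A3i, 0, Or.inr (Or.inl rfl), ok_A3i, by decide +kernel, kA3i_U, h0⟩
  | u => exact ⟨2, Gd.A3i, 0, Or.inr (Or.inl rfl), ok_A3i, by decide +kernel, kA3i_u, h0⟩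
  | P => exact ⟨2, Gd.A3i, 0, Or.inr (Or.inl rfl), ok_A3i, by decide +kernel, kA3i_P, h0⟩
  | p => exact ⟨2, Gd.A3i, 0, Or.inr (Or.inl rfl), ok_A3i, by decide +kernel, kA3i_p, h0⟩
  | Q => exact ⟨2, Gd.A3i, 0, Or.inr (Or.inl rfl), ok_A3i, by decide +kernel, kA3i_Q, h0⟩
  | q => exact ⟨2, Gd.A3i, 0, Or.inr (Or.inl rfl), ok_A3i, by decide +kernel, kA3i_q, h0⟩
  | lo => exact absurd o1 (by simp [Pc.free, Pc.std])
  | re f =>
    cases f with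
    | own => exact absurd o1 (by simp [Pc.free, Pc.std])
    | both => exact absurd o1 (by simp [Pc.free, Pc.std])
    | far => exact ⟨2, Gd.A3i, 157286, Or.inr (Or.inl rfl), ok_A3i, by decide +kernel, kA3i_E, h0⟩
  | rz f =>
    cases f with
    | own => exact absurd o1 (by simp [Pc.free, Pc.std])
    | both => exact absurd o1 (by simp [Pc.free, Pc.std])
    | far => exact ⟨2, Gd.A3i, 31457, Or.inr (Or.inl rfl), ok_A3i, by decide +kernel, kA3i_Z, h0⟩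

theorem rw_A4e (h0 : P4 ((2 : ℕ) : ℝ) Gd.A4 ys vs)  :
    ∀ pc, Pc.occ ⟨4, true⟩ pc → RowOK false ⟨4, true⟩ ys vs pc := by
  rintro pc ⟨o1, o2, o3, o4⟩
  cases pc with
  | F => exact absurd rfl o2
  | H => exact ⟨2, Gd.A4, 0, Or.inr (Or.inl rfl), ok_A4, by decide +kernel, kA4_H, h0⟩
  | G => exact ⟨2, Gd.A4, 0, Or.inr (Or.inl rfl), ok_A4, by decide +kernel, kA4_G, h0⟩
  | L => exact ⟨2, Gd.A4, 0, Or.inr (Or.inl rfl), ok_A4, by decide +kernel, kA4_L, h0⟩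
  | R => exact ⟨2, Gd.A4, 0, Or.inr (Or.inl rfl), ok_A4, by decide +kernel, kA4_R, h0⟩
  | T => exact ⟨2, Gd.A4, 0, Or.inr (Or.inl rfl), ok_A4, by decide +kernel, kA4_T, h0⟩
  | t => exact ⟨2, Gd.A4, 0, Or.inr (Or.inl rfl), ok_A4, by decide +kernel, kA4_t, h0⟩
  | U => exact ⟨2, Gd.A4, 0, Or.inr (Or.inl rfl), ok_A4, by decide +kernel, kA4_U, h0⟩
  | u => exact ⟨2, Gd.A4, 0, Or.inr (Or.inl rfl), ok_A4, by decide +kernel, kA4_u, h0⟩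
  | P => exact ⟨2, Gd.A4, 0, Or.inr (Or.inl rfl), ok_A4, by decide +kernel, kA4_P, h0⟩
  | p => exact ⟨2, Gd.A4, 0, Or.inr (Or.inl rfl), ok_A4, by decide +kernel, kA4_p, h0⟩
  | Q => exact ⟨2, Gd.A4, 0, Or.inr (Or.inl rfl), ok_A4, by decide +kernel, kA4_Q, h0⟩
  | q => exact ⟨2, Gd.A4, 0, Or.inr (Or.inl rfl), ok_A4, by decide +kernel, kA4_q, h0⟩
  | lo => exact absurd o1 (by simp [Pc.free, Pc.std])
  | re f =>
    cases f with
    | own => exact absurd o1 (by simp [Pc.free, Pc.std])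
    | both => exact absurd o1 (by simp [Pc.free, Pc.std])
    | far => exact absurd (o4 rfl) (by decide)
  | rz f =>
    cases f with
    | own => exact absurd o1 (by simp [Pc.free, Pc.std])
    | both => exact absurd o1 (by simp [Pc.free, Pc.std])
    | far => exact absurd (o3 rfl) (by decide)

theorem rw_A4i (h0 : P4 ((2 : ℕ) : ℝ) Gd.A4 ys vs)  :
    ∀ pc, Pc.occ ⟨4, false⟩ pc → RowOK false ⟨4, false⟩ ys vs pc := by
  rintro pc ⟨o1, o2, o3, o4⟩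
  cases pc with
  | F => exact absurd rfl o2
  | H => exact ⟨2, Gd.A4, 0, Or.inr (Or.inl rfl), ok_A4, by decide +kernel, kA4_H, h0⟩
  | G => exact ⟨2, Gd.A4, 0, Or.inr (Or.inl rfl), ok_A4, by decide +kernel, kA4_G, h0⟩
  | L => exact ⟨2, Gd.A4, 0, Or.inr (Or.inl rfl), ok_A4, by decide +kernel, kA4_L, h0⟩
  | R => exact ⟨2, Gd.A4, 0, Or.inr (Or.inl rfl), ok_A4, by decide +kernel, kA4_R, h0⟩
  | T => exact ⟨2, Gd.A4, 0, Or.inr (Or.inl rfl), ok_A4, by decide +kernel, kA4_T, h0⟩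
  | t => exact ⟨2, Gd.A4, 0, Or.inr (Or.inl rfl), ok_A4, by decide +kernel, kA4_t, h0⟩
  | U => exact ⟨2, Gd.A4, 0, Or.inr (Or.inl rfl), ok_A4, by decide +kernel, kA4_U, h0⟩
  | u => exact ⟨2, Gd.A4, 0, Or.inr (Or.inl rfl), ok_A4, by decide +kernel, kA4_u, h0⟩
  | P => exact ⟨2, Gd.A4, 0, Or.inr (Or.inl rfl), ok_A4, by decide +kernel, kA4_P, h0⟩
  | p => exact ⟨2, Gd.A4, 0, Or.inr (Or.inl rfl), ok_A4, by decide +kernel, kA4_p, h0⟩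
  | Q => exact ⟨2, Gd.A4, 0, Or.inr (Or.inl rfl), ok_A4, by decide +kernel, kA4_Q, h0⟩
  | q => exact ⟨2, Gd.A4, 0, Or.inr (Or.inl rfl), ok_A4, by decide +kernel, kA4_q, h0⟩
  | lo => exact absurd o1 (by simp [Pc.free, Pc.std])
  | re f =>
    cases f with
    | own => exact absurd o1 (by simp [Pc.free, Pc.std])
    | both => exact absurd o1 (by simp [Pc.free, Pc.std])
    | far => exact ⟨2, Gd.A4, 157286, Or.inr (Or.inl rfl), ok_A4, by decide +kernel, kA4_E, h0⟩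
  | rz f =>
    cases f with
    | own => exact absurd o1 (by simp [Pc.free, Pc.std])
    | both => exact absurd o1 (by simp [Pc.free, Pc.std])
    | far => exact ⟨2, Gd.A4, 31457, Or.inr (Or.inl rfl), ok_A4, by decide +kernel, kA4_Z, h0⟩

theorem rw_A5e (h0 : P4 ((2 : ℕ) : ℝ) Gd.A5 ys vs)  :
    ∀ pc, Pc.occ ⟨5, true⟩ pc → RowOK false ⟨5, true⟩ ys vs pc := by
  rintro pc ⟨o1, o2, o3, o4⟩
  cases pc with
  | F => exact absurd rfl o2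
  | H => exact ⟨2, Gd.A5, 0, Or.inr (Or.inl rfl), ok_A5, by decide +kernel, kA5_H, h0⟩
  | G => exact ⟨2, Gd.A5, 0, Or.inr (Or.inl rfl), ok_A5, by decide +kernel, kA5_G, h0⟩
  | L => exact ⟨2, Gd.A5, 0, Or.inr (Or.inl rfl), ok_A5, by decide +kernel, kA5_L, h0⟩
  | R => exact ⟨2, Gd.A5, 0, Or.inr (Or.inl rfl), ok_A5, by decide +kernel, kA5_R, h0⟩
  | T => exact ⟨2, Gd.A5, 0, Or.inr (Or.inl rfl), ok_A5, by decide +kernel, kA5_T, h0⟩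
  | t => exact ⟨2, Gd.A5, 0, Or.inr (Or.inl rfl), ok_A5, by decide +kernel, kA5_t, h0⟩
  | U => exact ⟨2, Gd.A5, 0, Or.inr (Or.inl rfl), ok_A5, by decide +kernel, kA5_U, h0⟩
  | u => exact ⟨2, Gd.A5, 0, Or.inr (Or.inl rfl), ok_A5, by decide +kernel, kA5_u, h0⟩
  | P => exact ⟨2, Gd.A5, 0, Or.inr (Or.inl rfl), ok_A5, by decide +kernel, kA5_P, h0⟩
  | p => exact ⟨2, Gd.A5, 0, Or.inr (Or.inl rfl), ok_A5, by decide +kernel, kA5_p, h0⟩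
  | Q => exact ⟨2, Gd.A5, 0, Or.inr (Or.inl rfl), ok_A5, by decide +kernel, kA5_Q, h0⟩
  | q => exact ⟨2, Gd.A5, 0, Or.inr (Or.inl rfl), ok_A5, by decide +kernel, kA5_q, h0⟩
  | lo => exact absurd o1 (by simp [Pc.free, Pc.std])
  | re f =>
    cases f with
    | own => exact absurd o1 (by simp [Pc.free, Pc.std])
    | both => exact absurd o1 (by simp [Pc.free, Pc.std])
    | far => exact absurd (o4 rfl) (by decide)
  | rz f =>
    cases f with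
    | own => exact absurd o1 (by simp [Pc.free, Pc.std])
    | both => exact absurd o1 (by simp [Pc.free, Pc.std])
    | far => exact absurd (o3 rfl) (by decide)

theorem rw_A5i (h0 : P4 ((2 : ℕ) : ℝ) Gd.A5 ys vs)  :
    ∀ pc, Pc.occ ⟨5, false⟩ pc → RowOK false ⟨5, false⟩ ys vs pc := by
  rintro pc ⟨o1, o2, o3, o4⟩
  cases pc with
  | F => exact absurd rfl o2
  | H => exact ⟨2, Gd.A5, 0, Or.inr (Or.inl rfl), ok_A5, by decide +kernel, kA5_H, h0⟩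
  | G => exact ⟨2, Gd.A5, 0, Or.inr (Or.inl rfl), ok_A5, by decide +kernel, kA5_G, h0⟩
  | L => exact ⟨2, Gd.A5, 0, Or.inr (Or.inl rfl), ok_A5, by decide +kernel, kA5_L, h0⟩
  | R => exact ⟨2, Gd.A5, 0, Or.inr (Or.inl rfl), ok_A5, by decide +kernel, kA5_R, h0⟩
  | T => exact ⟨2, Gd.A5, 0, Or.inr (Or.inl rfl), ok_A5, by decide +kernel, kA5_T, h0⟩
  | t => exact ⟨2, Gd.A5, 0, Or.inr (Or.inl rfl), ok_A5, by decide +kernel, kA5_t, h0⟩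
  | U => exact ⟨2, Gd.A5, 0, Or.inr (Or.inl rfl), ok_A5, by decide +kernel, kA5_U, h0⟩
  | u => exact ⟨2, Gd.A5, 0, Or.inr (Or.inl rfl), ok_A5, by decide +kernel, kA5_u, h0⟩
  | P => exact ⟨2, Gd.A5, 0, Or.inr (Or.inl rfl), ok_A5, by decide +kernel, kA5_P, h0⟩
  | p => exact ⟨2, Gd.A5, 0, Or.inr (Or.inl rfl), ok_A5, by decide +kernel, kA5_p, h0⟩
  | Q => exact ⟨2, Gd.A5, 0, Or.inr (Or.inl rfl), ok_A5, by decide +kernel, kA5_Q, h0⟩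
  | q => exact ⟨2, Gd.A5, 0, Or.inr (Or.inl rfl), ok_A5, by decide +kernel, kA5_q, h0⟩
  | lo => exact absurd o1 (by simp [Pc.free, Pc.std])
  | re f =>
    cases f with
    | own => exact absurd o1 (by simp [Pc.free, Pc.std])
    | both => exact absurd o1 (by simp [Pc.free, Pc.std])
    | far => exact absurd (o4 rfl) (by decide)
  | rz f =>
    cases f with
    | own => exact absurd o1 (by simp [Pc.free, Pc.std])
    | both => exact absurd o1 (by simp [Pc.free, Pc.std])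
    | far => exact absurd (o3 rfl) (by decide)

theorem rw_A6e (h0 : P4 ((2 : ℕ) : ℝ) Gd.A6 ys vs)  :
    ∀ pc, Pc.occ ⟨6, true⟩ pc → RowOK false ⟨6, true⟩ ys vs pc := by
  rintro pc ⟨o1, o2, o3, o4⟩
  cases pc with
  | F => exact absurd rfl o2
  | H => exact ⟨2, Gd.A6, 0, Or.inr (Or.inl rfl), ok_A6, by decide +kernel, kA6_H, h0⟩
  | G => exact ⟨2, Gd.A6, 83886, Or.inr (Or.inl rfl), ok_A6, by decide +kernel, kA6_G, h0⟩
  | L => exact ⟨2, Gd.A6, 157286, Or.inr (Or.inl rfl), ok_A6, by decide +kernel, kA6_L, h0⟩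
  | R => exact ⟨2, Gd.A6, 0, Or.inr (Or.inl rfl), ok_A6, by decide +kernel, kA6_R, h0⟩
  | T => exact ⟨2, Gd.A6, 0, Or.inr (Or.inl rfl), ok_A6, by decide +kernel, kA6_T, h0⟩
  | t => exact ⟨2, Gd.A6, 41943, Or.inr (Or.inl rfl), ok_A6, by decide +kernel, kA6_t, h0⟩
  | U => exact ⟨2, Gd.A6, 0, Or.inr (Or.inl rfl), ok_A6, by decide +kernel, kA6_U, h0⟩
  | u => exact ⟨2, Gd.A6, 157286, Or.inr (Or.inl rfl), ok_A6, by decide +kernel, kA6_u, h0⟩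
  | P => exact ⟨2, Gd.A6, 157286, Or.inr (Or.inl rfl), ok_A6, by decide +kernel, kA6_P, h0⟩
  | p => exact ⟨2, Gd.A6, 157286, Or.inr (Or.inl rfl), ok_A6, by decide +kernel, kA6_p, h0⟩
  | Q => exact ⟨2, Gd.A6, 0, Or.inr (Or.inl rfl), ok_A6, by decide +kernel, kA6_Q, h0⟩
  | q => exact ⟨2, Gd.A6, 0, Or.inr (Or.inl rfl), ok_A6, by decide +kernel, kA6_q, h0⟩
  | lo => exact absurd o1 (by simp [Pc.free, Pc.std])
  | re f =>
    cases f with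
    | own => exact absurd o1 (by simp [Pc.free, Pc.std])
    | both => exact absurd o1 (by simp [Pc.free, Pc.std])
    | far => exact absurd (o4 rfl) (by decide)
  | rz f =>
    cases f with
    | own => exact absurd o1 (by simp [Pc.free, Pc.std])
    | both => exact absurd o1 (by simp [Pc.free, Pc.std])
    | far => exact absurd (o3 rfl) (by decide)

theorem rw_A6i (h0 : P4 ((2 : ℕ) : ℝ) Gd.A6 ys vs)  :
    ∀ pc, Pc.occ ⟨6, false⟩ pc → RowOK false ⟨6, false⟩ ys vs pc := by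
  rintro pc ⟨o1, o2, o3, o4⟩
  cases pc with
  | F => exact absurd rfl o2
  | H => exact ⟨2, Gd.A6, 0, Or.inr (Or.inl rfl), ok_A6, by decide +kernel, kA6_H, h0⟩
  | G => exact ⟨2, Gd.A6, 83886, Or.inr (Or.inl rfl), ok_A6, by decide +kernel, kA6_G, h0⟩
  | L => exact ⟨2, Gd.A6, 157286, Or.inr (Or.inl rfl), ok_A6, by decide +kernel, kA6_L, h0⟩
  | R => exact ⟨2, Gd.A6, 0, Or.inr (Or.inl rfl), ok_A6, by decide +kernel, kA6_R, h0⟩
  | T => exact ⟨2, Gd.A6, 0, Or.inr (Or.inl rfl), ok_A6, by decide +kernel, kA6_T, h0⟩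
  | t => exact ⟨2, Gd.A6, 41943, Or.inr (Or.inl rfl), ok_A6, by decide +kernel, kA6_t, h0⟩
  | U => exact ⟨2, Gd.A6, 0, Or.inr (Or.inl rfl), ok_A6, by decide +kernel, kA6_U, h0⟩
  | u => exact ⟨2, Gd.A6, 157286, Or.inr (Or.inl rfl), ok_A6, by decide +kernel, kA6_u, h0⟩
  | P => exact ⟨2, Gd.A6, 157286, Or.inr (Or.inl rfl), ok_A6, by decide +kernel, kA6_P, h0⟩
  | p => exact ⟨2, Gd.A6, 157286, Or.inr (Or.inl rfl), ok_A6, by decide +kernel, kA6_p, h0⟩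
  | Q => exact ⟨2, Gd.A6, 0, Or.inr (Or.inl rfl), ok_A6, by decide +kernel, kA6_Q, h0⟩
  | q => exact ⟨2, Gd.A6, 0, Or.inr (Or.inl rfl), ok_A6, by decide +kernel, kA6_q, h0⟩
  | lo => exact absurd o1 (by simp [Pc.free, Pc.std])
  | re f =>
    cases f with
    | own => exact absurd o1 (by simp [Pc.free, Pc.std])
    | both => exact absurd o1 (by simp [Pc.free, Pc.std])
    | far => exact absurd (o4 rfl) (by decide)
  | rz f =>
    cases f with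
    | own => exact absurd o1 (by simp [Pc.free, Pc.std])
    | both => exact absurd o1 (by simp [Pc.free, Pc.std])
    | far => exact absurd (o3 rfl) (by decide)

theorem rw_S2i (h0 : P4 ((2 : ℕ) : ℝ) Gd.S2i ys vs) (h1 : P4 ((3 : ℕ) : ℝ) Gd.S2i3 ys vs)  :
    ∀ pc, Pc.occ ⟨2, false⟩ pc → RowOK true ⟨2, false⟩ ys vs pc := by
  rintro pc ⟨o1, o2, o3, o4⟩
  cases pc with
  | F => exact absurd rfl o2
  | H => exact ⟨2, Gd.S2i, 0, Or.inr (Or.inl rfl), ok_S2i, by decide +kernel, kS2i_H, h0⟩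
  | G => exact ⟨2, Gd.S2i, 167772, Or.inr (Or.inl rfl), ok_S2i, by decide +kernel, kS2i_G, h0⟩
  | L => exact ⟨2, Gd.S2i, 209715, Or.inr (Or.inl rfl), ok_S2i, by decide +kernel, kS2i_L, h0⟩
  | R => exact ⟨2, Gd.S2i, 0, Or.inr (Or.inl rfl), ok_S2i, by decide +kernel, kS2i_R, h0⟩
  | T => exact ⟨2, Gd.S2i, 0, Or.inr (Or.inl rfl), ok_S2i, by decide +kernel, kS2i_T, h0⟩
  | t => exact ⟨3, Gd.S2i3, 104857, Or.inr (Or.inr rfl), ok_S2i3, by decide +kernel, kS2i3_t, h1⟩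
  | U => exact ⟨2, Gd.S2i, 0, Or.inr (Or.inl rfl), ok_S2i, by decide +kernel, kS2i_U, h0⟩
  | u => exact ⟨2, Gd.S2i, 146800, Or.inr (Or.inl rfl), ok_S2i, by decide +kernel, kS2i_u, h0⟩
  | P => exact ⟨2, Gd.S2i, 209715, Or.inr (Or.inl rfl), ok_S2i, by decide +kernel, kS2i_P, h0⟩
  | p => exact ⟨2, Gd.S2i, 209715, Or.inr (Or.inl rfl), ok_S2i, by decide +kernel, kS2i_p, h0⟩
  | Q => exact ⟨2, Gd.S2i, 0, Or.inr (Or.inl rfl), ok_S2i, by decide +kernel, kS2i_Q, h0⟩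
  | q => exact ⟨2, Gd.S2i, 0, Or.inr (Or.inl rfl), ok_S2i, by decide +kernel, kS2i_q, h0⟩
  | lo => exact absurd o1 (by simp [Pc.free, Pc.std])
  | re f =>
    cases f with
    | own => exact absurd o1 (by simp [Pc.free, Pc.std])
    | both => exact absurd o1 (by simp [Pc.free, Pc.std])
    | far => exact ⟨2, Gd.S2i, 188743, Or.inr (Or.inl rfl), ok_S2i, by decide +kernel, kS2i_E, h0⟩
  | rz f =>
    cases f with
    | own => exact absurd o1 (by simp [Pc.free, Pc.std])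
    | both => exact absurd o1 (by simp [Pc.free, Pc.std])
    | far => exact absurd (o3 rfl) (by decide)

theorem rw_S3e (h0 : P4 ((1 : ℕ) : ℝ) Gd.S3e1 ys vs) (h1 : P4 ((2 : ℕ) : ℝ) Gd.S3e ys vs)  :
    ∀ pc, Pc.occ ⟨3, true⟩ pc → RowOK true ⟨3, true⟩ ys vs pc := by
  rintro pc ⟨o1, o2, o3, o4⟩
  cases pc with
  | F => exact absurd rfl o2
  | H => exact ⟨1, Gd.S3e1, 0, Or.inl rfl, ok_S3e1, by decide +kernel, kS3e1_H, h0⟩
  | G => exact ⟨1, Gd.S3e1, 0, Or.inl rfl, ok_S3e1, by decide +kernel, kS3e1_G, h0⟩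
  | L => exact ⟨1, Gd.S3e1, 0, Or.inl rfl, ok_S3e1, by decide +kernel, kS3e1_L, h0⟩
  | R => exact ⟨2, Gd.S3e, 0, Or.inr (Or.inl rfl), ok_S3e, by decide +kernel, kS3e_R, h1⟩
  | T => exact ⟨2, Gd.S3e, 0, Or.inr (Or.inl rfl), ok_S3e, by decide +kernel, kS3e_T, h1⟩
  | t => exact ⟨2, Gd.S3e, 0, Or.inr (Or.inl rfl), ok_S3e, by decide +kernel, kS3e_t, h1⟩
  | U => exact ⟨1, Gd.S3e1, 0, Or.inl rfl, ok_S3e1, by decide +kernel, kS3e1_U, h0⟩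
  | u => exact ⟨1, Gd.S3e1, 0, Or.inl rfl, ok_S3e1, by decide +kernel, kS3e1_u, h0⟩
  | P => exact ⟨1, Gd.S3e1, 0, Or.inl rfl, ok_S3e1, by decide +kernel, kS3e1_P, h0⟩
  | p => exact ⟨1, Gd.S3e1, 0, Or.inl rfl, ok_S3e1, by decide +kernel, kS3e1_p, h0⟩
  | Q => exact ⟨2, Gd.S3e, 0, Or.inr (Or.inl rfl), ok_S3e, by decide +kernel, kS3e_Q, h1⟩
  | q => exact ⟨2, Gd.S3e, 0, Or.inr (Or.inl rfl), ok_S3e, by decide +kernel, kS3e_q, h1⟩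
  | lo => exact absurd o1 (by simp [Pc.free, Pc.std])
  | re f =>
    cases f with
    | own => exact absurd o1 (by simp [Pc.free, Pc.std])
    | both => exact absurd o1 (by simp [Pc.free, Pc.std])
    | far => exact absurd (o4 rfl) (by decide)
  | rz f =>
    cases f with
    | own => exact absurd o1 (by simp [Pc.free, Pc.std])
    | both => exact absurd o1 (by simp [Pc.free, Pc.std])
    | far => exact ⟨2, Gd.S3e, 73400, Or.inr (Or.inl rfl), ok_S3e, by decide +kernel, kS3e_Z, h1⟩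

theorem rw_S3i (h0 : P4 ((2 : ℕ) : ℝ) Gd.S3i ys vs)  :
    ∀ pc, Pc.occ ⟨3, false⟩ pc → RowOK true ⟨3, false⟩ ys vs pc := by
  rintro pc ⟨o1, o2, o3, o4⟩
  cases pc with
  | F => exact absurd rfl o2
  | H => exact ⟨2, Gd.S3i, 0, Or.inr (Or.inl rfl), ok_S3i, by decide +kernel, kS3i_H, h0⟩
  | G => exact ⟨2, Gd.S3i, 52428, Or.inr (Or.inl rfl), ok_S3i, by decide +kernel, kS3i_G, h0⟩
  | L => exact ⟨2, Gd.S3i, 52428, Or.inr (Or.inl rfl), ok_S3i, by decide +kernel, kS3i_L, h0⟩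
  | R => exact ⟨2, Gd.S3i, 0, Or.inr (Or.inl rfl), ok_S3i, by decide +kernel, kS3i_R, h0⟩
  | T => exact ⟨2, Gd.S3i, 0, Or.inr (Or.inl rfl), ok_S3i, by decide +kernel, kS3i_T, h0⟩
  | t => exact ⟨2, Gd.S3i, 31457, Or.inr (Or.inl rfl), ok_S3i, by decide +kernel, kS3i_t, h0⟩
  | U => exact ⟨2, Gd.S3i, 0, Or.inr (Or.inl rfl), ok_S3i, by decide +kernel, kS3i_U, h0⟩
  | u => exact ⟨2, Gd.S3i, 31457, Or.inr (Or.inl rfl), ok_S3i, by decide +kernel, kS3i_u, h0⟩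
  | P => exact ⟨2, Gd.S3i, 52428, Or.inr (Or.inl rfl), ok_S3i, by decide +kernel, kS3i_P, h0⟩
  | p => exact ⟨2, Gd.S3i, 52428, Or.inr (Or.inl rfl), ok_S3i, by decide +kernel, kS3i_p, h0⟩
  | Q => exact ⟨2, Gd.S3i, 0, Or.inr (Or.inl rfl), ok_S3i, by decide +kernel, kS3i_Q, h0⟩
  | q => exact ⟨2, Gd.S3i, 0, Or.inr (Or.inl rfl), ok_S3i, by decide +kernel, kS3i_q, h0⟩
  | lo => exact absurd o1 (by simp [Pc.free, Pc.std])
  | re f =>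
    cases f with
    | own => exact absurd o1 (by simp [Pc.free, Pc.std])
    | both => exact absurd o1 (by simp [Pc.free, Pc.std])
    | far => exact ⟨2, Gd.S3i, 188743, Or.inr (Or.inl rfl), ok_S3i, by decide +kernel, kS3i_E, h0⟩
  | rz f =>
    cases f with
    | own => exact absurd o1 (by simp [Pc.free, Pc.std])
    | both => exact absurd o1 (by simp [Pc.free, Pc.std])
    | far => exact ⟨2, Gd.S3i, 73400, Or.inr (Or.inl rfl), ok_S3i, by decide +kernel, kS3i_Z, h0⟩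

theorem rw_S4e (h0 : P4 ((2 : ℕ) : ℝ) Gd.S4 ys vs)  :
    ∀ pc, Pc.occ ⟨4, true⟩ pc → RowOK true ⟨4, true⟩ ys vs pc := by
  rintro pc ⟨o1, o2, o3, o4⟩
  cases pc with
  | F => exact absurd rfl o2
  | H => exact ⟨2, Gd.S4, 0, Or.inr (Or.inl rfl), ok_S4, by decide +kernel, kS4_H, h0⟩
  | G => exact ⟨2, Gd.S4, 0, Or.inr (Or.inl rfl), ok_S4, by decide +kernel, kS4_G, h0⟩
  | L => exact ⟨2, Gd.S4, 0, Or.inr (Or.inl rfl), ok_S4, by decide +kernel, kS4_L, h0⟩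
  | R => exact ⟨2, Gd.S4, 0, Or.inr (Or.inl rfl), ok_S4, by decide +kernel, kS4_R, h0⟩
  | T => exact ⟨2, Gd.S4, 0, Or.inr (Or.inl rfl), ok_S4, by decide +kernel, kS4_T, h0⟩
  | t => exact ⟨2, Gd.S4, 0, Or.inr (Or.inl rfl), ok_S4, by decide +kernel, kS4_t, h0⟩
  | U => exact ⟨2, Gd.S4, 0, Or.inr (Or.inl rfl), ok_S4, by decide +kernel, kS4_U, h0⟩
  | u => exact ⟨2, Gd.S4, 0, Or.inr (Or.inl rfl), ok_S4, by decide +kernel, kS4_u, h0⟩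
  | P => exact ⟨2, Gd.S4, 0, Or.inr (Or.inl rfl), ok_S4, by decide +kernel, kS4_P, h0⟩
  | p => exact ⟨2, Gd.S4, 0, Or.inr (Or.inl rfl), ok_S4, by decide +kernel, kS4_p, h0⟩
  | Q => exact ⟨2, Gd.S4, 0, Or.inr (Or.inl rfl), ok_S4, by decide +kernel, kS4_Q, h0⟩
  | q => exact ⟨2, Gd.S4, 0, Or.inr (Or.inl rfl), ok_S4, by decide +kernel, kS4_q, h0⟩
  | lo => exact absurd o1 (by simp [Pc.free, Pc.std])
  | re f =>
    cases f with
    | own => exact absurd o1 (by simp [Pc.free, Pc.std])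
    | both => exact absurd o1 (by simp [Pc.free, Pc.std])
    | far => exact absurd (o4 rfl) (by decide)
  | rz f =>
    cases f with
    | own => exact absurd o1 (by simp [Pc.free, Pc.std])
    | both => exact absurd o1 (by simp [Pc.free, Pc.std])
    | far => exact absurd (o3 rfl) (by decide)

theorem rw_S4i (h0 : P4 ((2 : ℕ) : ℝ) Gd.S4 ys vs)  :
    ∀ pc, Pc.occ ⟨4, false⟩ pc → RowOK true ⟨4, false⟩ ys vs pc := by
  rintro pc ⟨o1, o2, o3, o4⟩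
  cases pc with
  | F => exact absurd rfl o2
  | H => exact ⟨2, Gd.S4, 0, Or.inr (Or.inl rfl), ok_S4, by decide +kernel, kS4_H, h0⟩
  | G => exact ⟨2, Gd.S4, 0, Or.inr (Or.inl rfl), ok_S4, by decide +kernel, kS4_G, h0⟩
  | L => exact ⟨2, Gd.S4, 0, Or.inr (Or.inl rfl), ok_S4, by decide +kernel, kS4_L, h0⟩
  | R => exact ⟨2, Gd.S4, 0, Or.inr (Or.inl rfl), ok_S4, by decide +kernel, kS4_R, h0⟩
  | T => exact ⟨2, Gd.S4, 0, Or.inr (Or.inl rfl), ok_S4, by decide +kernel, kS4_T, h0⟩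
  | t => exact ⟨2, Gd.S4, 0, Or.inr (Or.inl rfl), ok_S4, by decide +kernel, kS4_t, h0⟩
  | U => exact ⟨2, Gd.S4, 0, Or.inr (Or.inl rfl), ok_S4, by decide +kernel, kS4_U, h0⟩
  | u => exact ⟨2, Gd.S4, 0, Or.inr (Or.inl rfl), ok_S4, by decide +kernel, kS4_u, h0⟩
  | P => exact ⟨2, Gd.S4, 0, Or.inr (Or.inl rfl), ok_S4, by decide +kernel, kS4_P, h0⟩
  | p => exact ⟨2, Gd.S4, 0, Or.inr (Or.inl rfl), ok_S4, by decide +kernel, kS4_p, h0⟩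
  | Q => exact ⟨2, Gd.S4, 0, Or.inr (Or.inl rfl), ok_S4, by decide +kernel, kS4_Q, h0⟩
  | q => exact ⟨2, Gd.S4, 0, Or.inr (Or.inl rfl), ok_S4, by decide +kernel, kS4_q, h0⟩
  | lo => exact absurd o1 (by simp [Pc.free, Pc.std])
  | re f =>
    cases f with
    | own => exact absurd o1 (by simp [Pc.free, Pc.std])
    | both => exact absurd o1 (by simp [Pc.free, Pc.std])
    | far => exact ⟨2, Gd.S4, 188743, Or.inr (Or.inl rfl), ok_S4, by decide +kernel, kS4_E, h0⟩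
  | rz f =>
    cases f with
    | own => exact absurd o1 (by simp [Pc.free, Pc.std])
    | both => exact absurd o1 (by simp [Pc.free, Pc.std])
    | far => exact ⟨2, Gd.S4, 73400, Or.inr (Or.inl rfl), ok_S4, by decide +kernel, kS4_Z, h0⟩

theorem rw_S5e (h0 : P4 ((2 : ℕ) : ℝ) Gd.S5 ys vs)  :
    ∀ pc, Pc.occ ⟨5, true⟩ pc → RowOK true ⟨5, true⟩ ys vs pc := by
  rintro pc ⟨o1, o2, o3, o4⟩
  cases pc with
  | F => exact absurd rfl o2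
  | H => exact ⟨2, Gd.S5, 0, Or.inr (Or.inl rfl), ok_S5, by decide +kernel, kS5_H, h0⟩
  | G => exact ⟨2, Gd.S5, 0, Or.inr (Or.inl rfl), ok_S5, by decide +kernel, kS5_G, h0⟩
  | L => exact ⟨2, Gd.S5, 0, Or.inr (Or.inl rfl), ok_S5, by decide +kernel, kS5_L, h0⟩
  | R => exact ⟨2, Gd.S5, 0, Or.inr (Or.inl rfl), ok_S5, by decide +kernel, kS5_R, h0⟩
  | T => exact ⟨2, Gd.S5, 0, Or.inr (Or.inl rfl), ok_S5, by decide +kernel, kS5_T, h0⟩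
  | t => exact ⟨2, Gd.S5, 0, Or.inr (Or.inl rfl), ok_S5, by decide +kernel, kS5_t, h0⟩
  | U => exact ⟨2, Gd.S5, 0, Or.inr (Or.inl rfl), ok_S5, by decide +kernel, kS5_U, h0⟩
  | u => exact ⟨2, Gd.S5, 0, Or.inr (Or.inl rfl), ok_S5, by decide +kernel, kS5_u, h0⟩
  | P => exact ⟨2, Gd.S5, 0, Or.inr (Or.inl rfl), ok_S5, by decide +kernel, kS5_P, h0⟩
  | p => exact ⟨2, Gd.S5, 0, Or.inr (Or.inl rfl), ok_S5, by decide +kernel, kS5_p, h0⟩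
  | Q => exact ⟨2, Gd.S5, 0, Or.inr (Or.inl rfl), ok_S5, by decide +kernel, kS5_Q, h0⟩
  | q => exact ⟨2, Gd.S5, 0, Or.inr (Or.inl rfl), ok_S5, by decide +kernel, kS5_q, h0⟩
  | lo => exact absurd o1 (by simp [Pc.free, Pc.std])
  | re f =>
    cases f with
    | own => exact absurd o1 (by simp [Pc.free, Pc.std])
    | both => exact absurd o1 (by simp [Pc.free, Pc.std])
    | far => exact absurd (o4 rfl) (by decide)
  | rz f =>
    cases f with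
    | own => exact absurd o1 (by simp [Pc.free, Pc.std])
    | both => exact absurd o1 (by simp [Pc.free, Pc.std])
    | far => exact absurd (o3 rfl) (by decide)

theorem rw_S5i (h0 : P4 ((2 : ℕ) : ℝ) Gd.S5 ys vs)  :
    ∀ pc, Pc.occ ⟨5, false⟩ pc → RowOK true ⟨5, false⟩ ys vs pc := by
  rintro pc ⟨o1, o2, o3, o4⟩
  cases pc with
  | F => exact absurd rfl o2
  | H => exact ⟨2, Gd.S5, 0, Or.inr (Or.inl rfl), ok_S5, by decide +kernel, kS5_H, h0⟩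
  | G => exact ⟨2, Gd.S5, 0, Or.inr (Or.inl rfl), ok_S5, by decide +kernel, kS5_G, h0⟩
  | L => exact ⟨2, Gd.S5, 0, Or.inr (Or.inl rfl), ok_S5, by decide +kernel, kS5_L, h0⟩
  | R => exact ⟨2, Gd.S5, 0, Or.inr (Or.inl rfl), ok_S5, by decide +kernel, kS5_R, h0⟩
  | T => exact ⟨2, Gd.S5, 0, Or.inr (Or.inl rfl), ok_S5, by decide +kernel, kS5_T, h0⟩
  | t => exact ⟨2, Gd.S5, 0, Or.inr (Or.inl rfl), ok_S5, by decide +kernel, kS5_t, h0⟩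
  | U => exact ⟨2, Gd.S5, 0, Or.inr (Or.inl rfl), ok_S5, by decide +kernel, kS5_U, h0⟩
  | u => exact ⟨2, Gd.S5, 0, Or.inr (Or.inl rfl), ok_S5, by decide +kernel, kS5_u, h0⟩
  | P => exact ⟨2, Gd.S5, 0, Or.inr (Or.inl rfl), ok_S5, by decide +kernel, kS5_P, h0⟩
  | p => exact ⟨2, Gd.S5, 0, Or.inr (Or.inl rfl), ok_S5, by decide +kernel, kS5_p, h0⟩
  | Q => exact ⟨2, Gd.S5, 0, Or.inr (Or.inl rfl), ok_S5, by decide +kernel, kS5_Q, h0⟩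
  | q => exact ⟨2, Gd.S5, 0, Or.inr (Or.inl rfl), ok_S5, by decide +kernel, kS5_q, h0⟩
  | lo => exact absurd o1 (by simp [Pc.free, Pc.std])
  | re f =>
    cases f with
    | own => exact absurd o1 (by simp [Pc.free, Pc.std])
    | both => exact absurd o1 (by simp [Pc.free, Pc.std])
    | far => exact absurd (o4 rfl) (by decide)
  | rz f =>
    cases f with
    | own => exact absurd o1 (by simp [Pc.free, Pc.std])
    | both => exact absurd o1 (by simp [Pc.free, Pc.std])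
    | far => exact absurd (o3 rfl) (by decide)

theorem rw_S6e (h0 : P4 ((2 : ℕ) : ℝ) Gd.S6 ys vs)  :
    ∀ pc, Pc.occ ⟨6, true⟩ pc → RowOK true ⟨6, true⟩ ys vs pc := by
  rintro pc ⟨o1, o2, o3, o4⟩
  cases pc with
  | F => exact absurd rfl o2
  | H => exact ⟨2, Gd.S6, 0, Or.inr (Or.inl rfl), ok_S6, by decide +kernel, kS6_H, h0⟩
  | G => exact ⟨2, Gd.S6, 83886, Or.inr (Or.inl rfl), ok_S6, by decide +kernel, kS6_G, h0⟩
  | L => exact ⟨2, Gd.S6, 157286, Or.inr (Or.inl rfl), ok_S6, by decide +kernel, kS6_L, h0⟩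
  | R => exact ⟨2, Gd.S6, 0, Or.inr (Or.inl rfl), ok_S6, by decide +kernel, kS6_R, h0⟩
  | T => exact ⟨2, Gd.S6, 0, Or.inr (Or.inl rfl), ok_S6, by decide +kernel, kS6_T, h0⟩
  | t => exact ⟨2, Gd.S6, 41943, Or.inr (Or.inl rfl), ok_S6, by decide +kernel, kS6_t, h0⟩
  | U => exact ⟨2, Gd.S6, 0, Or.inr (Or.inl rfl), ok_S6, by decide +kernel, kS6_U, h0⟩
  | u => exact ⟨2, Gd.S6, 157286, Or.inr (Or.inl rfl), ok_S6, by decide +kernel, kS6_u, h0⟩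
  | P => exact ⟨2, Gd.S6, 157286, Or.inr (Or.inl rfl), ok_S6, by decide +kernel, kS6_P, h0⟩
  | p => exact ⟨2, Gd.S6, 157286, Or.inr (Or.inl rfl), ok_S6, by decide +kernel, kS6_p, h0⟩
  | Q => exact ⟨2, Gd.S6, 0, Or.inr (Or.inl rfl), ok_S6, by decide +kernel, kS6_Q, h0⟩
  | q => exact ⟨2, Gd.S6, 0, Or.inr (Or.inl rfl), ok_S6, by decide +kernel, kS6_q, h0⟩
  | lo => exact absurd o1 (by simp [Pc.free, Pc.std])
  | re f =>
    cases f with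
    | own => exact absurd o1 (by simp [Pc.free, Pc.std])
    | both => exact absurd o1 (by simp [Pc.free, Pc.std])
    | far => exact absurd (o4 rfl) (by decide)
  | rz f =>
    cases f with
    | own => exact absurd o1 (by simp [Pc.free, Pc.std])
    | both => exact absurd o1 (by simp [Pc.free, Pc.std])
    | far => exact absurd (o3 rfl) (by decide)

theorem rw_S6i (h0 : P4 ((2 : ℕ) : ℝ) Gd.S6 ys vs)  :
    ∀ pc, Pc.occ ⟨6, false⟩ pc → RowOK true ⟨6, false⟩ ys vs pc := by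
  rintro pc ⟨o1, o2, o3, o4⟩
  cases pc with
  | F => exact absurd rfl o2
  | H => exact ⟨2, Gd.S6, 0, Or.inr (Or.inl rfl), ok_S6, by decide +kernel, kS6_H, h0⟩
  | G => exact ⟨2, Gd.S6, 83886, Or.inr (Or.inl rfl), ok_S6, by decide +kernel, kS6_G, h0⟩
  | L => exact ⟨2, Gd.S6, 157286, Or.inr (Or.inl rfl), ok_S6, by decide +kernel, kS6_L, h0⟩
  | R => exact ⟨2, Gd.S6, 0, Or.inr (Or.inl rfl), ok_S6, by decide +kernel, kS6_R, h0⟩
  | T => exact ⟨2, Gd.S6, 0, Or.inr (Or.inl rfl), ok_S6, by decide +kernel, kS6_T, h0⟩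
  | t => exact ⟨2, Gd.S6, 41943, Or.inr (Or.inl rfl), ok_S6, by decide +kernel, kS6_t, h0⟩
  | U => exact ⟨2, Gd.S6, 0, Or.inr (Or.inl rfl), ok_S6, by decide +kernel, kS6_U, h0⟩
  | u => exact ⟨2, Gd.S6, 157286, Or.inr (Or.inl rfl), ok_S6, by decide +kernel, kS6_u, h0⟩
  | P => exact ⟨2, Gd.S6, 157286, Or.inr (Or.inl rfl), ok_S6, by decide +kernel, kS6_P, h0⟩
  | p => exact ⟨2, Gd.S6, 157286, Or.inr (Or.inl rfl), ok_S6, by decide +kernel, kS6_p, h0⟩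
  | Q => exact ⟨2, Gd.S6, 0, Or.inr (Or.inl rfl), ok_S6, by decide +kernel, kS6_Q, h0⟩
  | q => exact ⟨2, Gd.S6, 0, Or.inr (Or.inl rfl), ok_S6, by decide +kernel, kS6_q, h0⟩
  | lo => exact absurd o1 (by simp [Pc.free, Pc.std])
  | re f =>
    cases f with
    | own => exact absurd o1 (by simp [Pc.free, Pc.std])
    | both => exact absurd o1 (by simp [Pc.free, Pc.std])
    | far => exact absurd (o4 rfl) (by decide)
  | rz f =>
    cases f with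
    | own => exact absurd o1 (by simp [Pc.free, Pc.std])
    | both => exact absurd o1 (by simp [Pc.free, Pc.std])
    | far => exact absurd (o3 rfl) (by decide)

theorem fl_A2e (hP : P4 ((2 : ℕ) : ℝ) Gd.A2e ys vs) (hQ : Q4 Rd.A2e ys vs) : FlatOK ys vs :=
  ⟨Rd.A2e, Gd.A2e, Gd.A2e, _, ok_A2e, ok_A2e, fA2e, fok_A2e, kA2e_F, hP, hP, hQ⟩

theorem fl_A2i_a00 (hP : P4 ((2 : ℕ) : ℝ) Gd.A2i_a00 ys vs) (hP' : P4 ((2 : ℕ) : ℝ) Gd.A2i ys vs) (hQ : Q4 Rd.A2i_a00 ys vs) : FlatOK ys vs :=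
  ⟨Rd.A2i_a00, Gd.A2i_a00, Gd.A2i, _, ok_A2i_a00, ok_A2i, fA2i_a00, fok_A2i_a00, kA2i_F, hP, hP', hQ⟩

theorem fl_A2i_a01 (hP : P4 ((2 : ℕ) : ℝ) Gd.A2i_a01 ys vs) (hP' : P4 ((2 : ℕ) : ℝ) Gd.A2i ys vs) (hQ : Q4 Rd.A2i_a01 ys vs) : FlatOK ys vs :=
  ⟨Rd.A2i_a01, Gd.A2i_a01, Gd.A2i, _, ok_A2i_a01, ok_A2i, fA2i_a01, fok_A2i_a01, kA2i_F, hP, hP', hQ⟩

theorem fl_A2i_a02 (hP : P4 ((2 : ℕ) : ℝ) Gd.A2i_a02 ys vs) (hP' : P4 ((2 : ℕ) : ℝ) Gd.A2i ys vs) (hQ : Q4 Rd.A2i_a02 ys vs) : FlatOK ys vs :=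
  ⟨Rd.A2i_a02, Gd.A2i_a02, Gd.A2i, _, ok_A2i_a02, ok_A2i, fA2i_a02, fok_A2i_a02, kA2i_F, hP, hP', hQ⟩

theorem fl_A2i_a10 (hP : P4 ((2 : ℕ) : ℝ) Gd.A2i_a10 ys vs) (hP' : P4 ((2 : ℕ) : ℝ) Gd.A2i ys vs) (hQ : Q4 Rd.A2i_a10 ys vs) : FlatOK ys vs :=
  ⟨Rd.A2i_a10, Gd.A2i_a10, Gd.A2i, _, ok_A2i_a10, ok_A2i, fA2i_a10, fok_A2i_a10, kA2i_F, hP, hP', hQ⟩

theorem fl_A2i_a11 (hP : P4 ((2 : ℕ) : ℝ) Gd.A2i_a11 ys vs) (hP' : P4 ((2 : ℕ) : ℝ) Gd.A2i ys vs) (hQ : Q4 Rd.A2i_a11 ys vs) : FlatOK ys vs :=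
  ⟨Rd.A2i_a11, Gd.A2i_a11, Gd.A2i, _, ok_A2i_a11, ok_A2i, fA2i_a11, fok_A2i_a11, kA2i_F, hP, hP', hQ⟩

theorem fl_A2i_a12 (hP : P4 ((2 : ℕ) : ℝ) Gd.A2i_a12 ys vs) (hP' : P4 ((2 : ℕ) : ℝ) Gd.A2i ys vs) (hQ : Q4 Rd.A2i_a12 ys vs) : FlatOK ys vs :=
  ⟨Rd.A2i_a12, Gd.A2i_a12, Gd.A2i, _, ok_A2i_a12, ok_A2i, fA2i_a12, fok_A2i_a12, kA2i_F, hP, hP', hQ⟩

theorem fl_A2i_a13 (hP : P4 ((2 : ℕ) : ℝ) Gd.A2i_a13 ys vs) (hP' : P4 ((2 : ℕ) : ℝ) Gd.A2i ys vs) (hQ : Q4 Rd.A2i_a13 ys vs) : FlatOK ys vs :=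
  ⟨Rd.A2i_a13, Gd.A2i_a13, Gd.A2i, _, ok_A2i_a13, ok_A2i, fA2i_a13, fok_A2i_a13, kA2i_F, hP, hP', hQ⟩

theorem fl_A2i_s0 (hP : P4 ((2 : ℕ) : ℝ) Gd.A2i_s0 ys vs) (hP' : P4 ((2 : ℕ) : ℝ) Gd.A2i ys vs) (hQ : Q4 Rd.A2i_s0 ys vs) : FlatOK ys vs :=
  ⟨Rd.A2i_s0, Gd.A2i_s0, Gd.A2i, _, ok_A2i_s0, ok_A2i, fA2i_s0, fok_A2i_s0, kA2i_F, hP, hP', hQ⟩

theorem fl_A2i_s1 (hP : P4 ((2 : ℕ) : ℝ) Gd.A2i_s1 ys vs) (hP' : P4 ((2 : ℕ) : ℝ) Gd.A2i ys vs) (hQ : Q4 Rd.A2i_s1 ys vs) : FlatOK ys vs :=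
  ⟨Rd.A2i_s1, Gd.A2i_s1, Gd.A2i, _, ok_A2i_s1, ok_A2i, fA2i_s1, fok_A2i_s1, kA2i_F, hP, hP', hQ⟩

theorem fl_A3e (hP : P4 ((2 : ℕ) : ℝ) Gd.A3e ys vs) (hQ : Q4 Rd.A3e ys vs) : FlatOK ys vs :=
  ⟨Rd.A3e, Gd.A3e, Gd.A3e, _, ok_A3e, ok_A3e, fA3e, fok_A3e, kA3e_F, hP, hP, hQ⟩

theorem fl_A3i (hP : P4 ((2 : ℕ) : ℝ) Gd.A3i ys vs) (hQ : Q4 Rd.A3i ys vs) : FlatOK ys vs :=
  ⟨Rd.A3i, Gd.A3i, Gd.A3i, _, ok_A3i, ok_A3i, fA3i, fok_A3i, kA3i_F, hP, hP, hQ⟩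

theorem fl_A4 (hP : P4 ((2 : ℕ) : ℝ) Gd.A4 ys vs) (hQ : Q4 Rd.A4 ys vs) : FlatOK ys vs :=
  ⟨Rd.A4, Gd.A4, Gd.A4, _, ok_A4, ok_A4, fA4, fok_A4, kA4_F, hP, hP, hQ⟩

theorem fl_A5 (hP : P4 ((2 : ℕ) : ℝ) Gd.A5 ys vs) (hQ : Q4 Rd.A5 ys vs) : FlatOK ys vs :=
  ⟨Rd.A5, Gd.A5, Gd.A5, _, ok_A5, ok_A5, fA5, fok_A5, kA5_F, hP, hP, hQ⟩

theorem fl_A6 (hP : P4 ((2 : ℕ) : ℝ) Gd.A6 ys vs) (hQ : Q4 Rd.A6 ys vs) : FlatOK ys vs :=
  ⟨Rd.A6, Gd.A6, Gd.A6, _, ok_A6, ok_A6, fA6, fok_A6, kA6_F, hP, hP, hQ⟩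

theorem fl_S2i_00 (hP : P4 ((2 : ℕ) : ℝ) Gd.S2i_00 ys vs) (hQ : Q4 Rd.S2i_00 ys vs) : FlatOK ys vs :=
  ⟨Rd.S2i_00, Gd.S2i_00, Gd.S2i_00, _, ok_S2i_00, ok_S2i_00, fS2i_00, fok_S2i_00, kS2i_00_F, hP, hP, hQ⟩

theorem fl_S2i_01 (hP : P4 ((2 : ℕ) : ℝ) Gd.S2i_01 ys vs) (hQ : Q4 Rd.S2i_01 ys vs) : FlatOK ys vs :=
  ⟨Rd.S2i_01, Gd.S2i_01, Gd.S2i_01, _, ok_S2i_01, ok_S2i_01, fS2i_01, fok_S2i_01, kS2i_01_F, hP, hP, hQ⟩

theorem fl_S2i_10 (hP : P4 ((2 : ℕ) : ℝ) Gd.S2i_10 ys vs) (hQ : Q4 Rd.S2i_10 ys vs) : FlatOK ys vs :=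
  ⟨Rd.S2i_10, Gd.S2i_10, Gd.S2i_10, _, ok_S2i_10, ok_S2i_10, fS2i_10, fok_S2i_10, kS2i_10_F, hP, hP, hQ⟩

theorem fl_S2i_11 (hP : P4 ((2 : ℕ) : ℝ) Gd.S2i_11 ys vs) (hQ : Q4 Rd.S2i_11 ys vs) : FlatOK ys vs :=
  ⟨Rd.S2i_11, Gd.S2i_11, Gd.S2i_11, _, ok_S2i_11, ok_S2i_11, fS2i_11, fok_S2i_11, kS2i_11_F, hP, hP, hQ⟩

theorem fl_S3e (hP : P4 ((2 : ℕ) : ℝ) Gd.S3e ys vs) (hQ : Q4 Rd.S3e ys vs) : FlatOK ys vs :=
  ⟨Rd.S3e, Gd.S3e, Gd.S3e, _, ok_S3e, ok_S3e, fS3e, fok_S3e, kS3e_F, hP, hP, hQ⟩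

theorem fl_S3i_a (hP : P4 ((2 : ℕ) : ℝ) Gd.S3i_a ys vs) (hP' : P4 ((2 : ℕ) : ℝ) Gd.S3i ys vs) (hQ : Q4 Rd.S3i_a ys vs) : FlatOK ys vs :=
  ⟨Rd.S3i_a, Gd.S3i_a, Gd.S3i, _, ok_S3i_a, ok_S3i, fS3i_a, fok_S3i_a, kS3i_F, hP, hP', hQ⟩

theorem fl_S3i_s (hP : P4 ((2 : ℕ) : ℝ) Gd.S3i_s ys vs) (hP' : P4 ((2 : ℕ) : ℝ) Gd.S3i ys vs) (hQ : Q4 Rd.S3i_s ys vs) : FlatOK ys vs :=
  ⟨Rd.S3i_s, Gd.S3i_s, Gd.S3i, _, ok_S3i_s, ok_S3i, fS3i_s, fok_S3i_s, kS3i_F, hP, hP', hQ⟩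

theorem fl_S4 (hP : P4 ((2 : ℕ) : ℝ) Gd.S4 ys vs) (hQ : Q4 Rd.S4 ys vs) : FlatOK ys vs :=
  ⟨Rd.S4, Gd.S4, Gd.S4, _, ok_S4, ok_S4, fS4, fok_S4, kS4_F, hP, hP, hQ⟩

theorem fl_S5 (hP : P4 ((2 : ℕ) : ℝ) Gd.S5 ys vs) (hQ : Q4 Rd.S5 ys vs) : FlatOK ys vs :=
  ⟨Rd.S5, Gd.S5, Gd.S5, _, ok_S5, ok_S5, fS5, fok_S5, kS5_F, hP, hP, hQ⟩

theorem fl_S6 (hP : P4 ((2 : ℕ) : ℝ) Gd.S6 ys vs) (hQ : Q4 Rd.S6 ys vs) : FlatOK ys vs :=
  ⟨Rd.S6, Gd.S6, Gd.S6, _, ok_S6, ok_S6, fS6, fok_S6, kS6_F, hP, hP, hQ⟩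

end Pool.Agent.S5.Tb
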