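/-!
# Fixed point evaluation of the potential: the programs

All quantities are natural numbers: `n` stands for `(n - K) / U` with `U = 2^48`, `K = 2^52`.
The point is `x + i s = (X + i S) / D`. Everything is written with the functions which the kernel
evaluates directly.
-/

set_option autoImplicit false

namespace Pool.Agent.S5.Num

/-- Evaluation of a natural number before it is used. -/
@[reducible] def fN {α : Type} (f : Nat → α) (n : Nat) : α :=
  Nat.rec (f 0) (fun m _ => f (Nat.succ m)) n

/-- Distance. -/
def ds' (a b : Nat) : Nat := Nat.add (Nat.sub a b) (Nat.sub b a)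

def mx' (a b : Nat) : Nat := cond (Nat.ble a b) b a

/-- The real part of the product, divided by `m`. -/
def gr (p q a b m : Nat) : Nat :=
  Nat.div (Nat.sub (Nat.add (Nat.add (Nat.mul p a) (Nat.mul 4503599627370496 (Nat.add q b)))
      (Nat.mul 1267650600228229401496703205376 m))
    (Nat.add (Nat.mul q b) (Nat.mul 4503599627370496 (Nat.add p a))))
    (Nat.mul 281474976710656 m)

/-- The imaginary part of the product, divided by `m`. -/
def gi (p q a b m : Nat) : Nat :=
  Nat.div (Nat.sub (Nat.add (Nat.add (Nat.mul p b) (Nat.mul q a))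
      (Nat.add 40564819207303340847894502572032 (Nat.mul 1267650600228229401496703205376 m)))
    (Nat.mul 4503599627370496 (Nat.add (Nat.add p b) (Nat.add q a))))
    (Nat.mul 281474976710656 m)

/-- The Horner scheme for the exponential function. -/
def hor {α : Type} (p q : Nat) (k : Nat → Nat → α) (n : Nat) : Nat → Nat → α :=
  Nat.rec (fun a b => k a b)
    (fun m ih a b => ih (Nat.add 281474976710656 (gr p q a b (Nat.succ m)))
      (gi p q a b (Nat.succ m))) n

/-- Squaring `n` times. -/
def sqs {α : Type} (k : Nat → Nat → α) (n : Nat) : Nat → Nat → α :=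
  Nat.rec (fun a b => k a b) (fun _ ih a b => ih (gr a b a b 1) (gi a b a b 1)) n

/-- `exp (2 π i (x + i s))`. -/
def wst {α : Type} (X S D : Nat) (k : Nat → Nat → α) : α :=
  hor (Nat.sub 4503599627370496 (Nat.div (Nat.mul 1768559438007110 S) (Nat.mul 8 D)))
    (Nat.add 4503599627370496 (Nat.div (Nat.mul 1768559438007110 X) (Nat.mul 8 D)))
    (fun a b => sqs (fun a b => fN (fun a => fN (fun b => k a b) b) a) 3 a b) 16
    4785074604081152 4503599627370496

/-- The series of the dilogarithm. -/
def ser {α : Type} (c d : Nat) (k : Nat → Nat → Nat → Nat → α) (n : Nat) :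
    Nat → Nat → Nat → Nat → α :=
  Nat.rec (fun j a b s => k j a b s)
    (fun _ ih j a b s => ih (Nat.succ j) (gr a b c d 1) (gi a b c d 1)
      (Nat.add s (Nat.div b (Nat.mul j j)))) n

/-- `Σ K / j²`. -/
def hk (n : Nat) : Nat :=
  Nat.rec 0 (fun m ih => Nat.add ih (Nat.div 4503599627370496 (Nat.mul (Nat.succ m) (Nat.succ m)))) n

/-- The error of the value of `Rf`. -/
def rfe (N c d a b : Nat) : Nat :=
  Nat.add (Nat.add (Nat.mul 83 N) 7)
    (Nat.div (Nat.mul (Nat.add (Nat.add (ds' a 4503599627370496) (ds' b 4503599627370496))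
        (Nat.mul 515 (Nat.succ N))) 281474976710656)
      (Nat.mul (Nat.mul 3 (Nat.mul (Nat.succ N) (Nat.succ N)))
        (Nat.sub (mx' (ds' 4785074604081152 c) (ds' d 4503599627370496)) 512)))

/-- The positive part of the value of `Rf`. -/
def rfp (N X S D : Nat) : Nat :=
  Nat.add (Nat.add 4503599627370496 (Nat.div (Nat.mul (Nat.mul 884279719003555 S) X) (Nat.mul D D)))
    (Nat.div (Nat.mul 44798133900177 (hk N)) 281474976710656)

/-- The negative part of the value of `Rf`. -/
def rfn (S D s : Nat) : Nat :=
  Nat.add (Nat.div (Nat.mul 884279719003555 S) (Nat.mul 2 D))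
    (Nat.div (Nat.mul 44798133900177 s) 281474976710656)

/-- The value of `Rf` and its error. -/
def rfK (N X S D : Nat) (k : Nat → Nat → Bool) : Bool :=
  cond (Nat.ble 1 D) (cond (Nat.ble X D) (cond (Nat.ble (Nat.mul 2 S) D) (cond (Nat.ble N 1000)
    (wst X S D (fun c d =>
      cond (Nat.ble 513 (mx' (ds' 4785074604081152 c) (ds' d 4503599627370496)))
        (ser c d (fun _ a b s =>
          fN (fun n => fN (fun p => fN (fun e => cond (Nat.ble n p) (k (Nat.sub p n) e) false)
            (rfe N c d a b)) (rfp N X S D)) (rfn S D s)) N 1 c d 0)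
        false)) false) false) false) false

/-! ### Unfolding lemmas -/

theorem hor_zero {α : Type} (p q : Nat) (k : Nat → Nat → α) (a b : Nat) : hor p q k 0 a b = k a b := rfl

theorem hor_succ {α : Type} (p q : Nat) (k : Nat → Nat → α) (n a b : Nat) :
    hor p q k (n + 1) a b =
      hor p q k n (Nat.add 281474976710656 (gr p q a b (Nat.succ n))) (gi p q a b (Nat.succ n)) := by
  unfold hor
  with_reducible rfl

theorem sqs_zero {α : Type} (k : Nat → Nat → α) (a b : Nat) : sqs k 0 a b = k a b := rfl

theorem sqs_succ {α : Type} (k : Nat → Nat → α) (n a b : Nat) :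
    sqs k (n + 1) a b = sqs k n (gr a b a b 1) (gi a b a b 1) := by
  unfold sqs
  with_reducible rfl

theorem ser_zero {α : Type} (c d : Nat) (k : Nat → Nat → Nat → Nat → α) (j a b s : Nat) :
    ser c d k 0 j a b s = k j a b s := rfl

theorem ser_succ {α : Type} (c d : Nat) (k : Nat → Nat → Nat → Nat → α) (n j a b s : Nat) :
    ser c d k (n + 1) j a b s = ser c d k n (Nat.succ j) (gr a b c d 1) (gi a b c d 1)
      (Nat.add s (Nat.div b (Nat.mul j j))) := by
  unfold ser
  with_reducible rfl

theorem hk_succ (n : Nat) : hk (n + 1) =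
    Nat.add (hk n) (Nat.div 4503599627370496 (Nat.mul (Nat.succ n) (Nat.succ n))) := by
  unfold hk
  with_reducible rfl

theorem add_eq' (a b : Nat) : Nat.add a b = a + b := rfl
theorem sub_eq' (a b : Nat) : Nat.sub a b = a - b := rfl
theorem mul_eq' (a b : Nat) : Nat.mul a b = a * b := rfl
theorem div_eq' (a b : Nat) : Nat.div a b = a / b := rfl

end Pool.Agent.S5.Num
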