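import Pool.Agent.S5.I.C2i
import Pool.Agent.S5.I.NumDef

/-!
# Cells of critical points of closed nodes with two half twists

A cell is a product of four intervals for `tan (π p / 2)`, `exp (π h)`, `tan (π q / 2)`, `exp (π g)` (units
`1 / 4096`), where `1 / 2 - p + i h`, `1 / 2 - q + i g` are the two critical points. `run` is the
branch and bound program with an arbitrary test of the leaves.
-/

set_option autoImplicit false

namespace Pool.Agent.S5.F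

open Pool.Agent.S5.C2 Pool.Agent.S5.Num

theorem fN_eq {α : Type} (f : ℕ → α) (n : ℕ) : fN f n = f n := by
  cases n <;> rfl

/-! ### Cells -/

/-- A cell (units `1 / 4096`). -/
structure Cl where
  a : ℕ
  a' : ℕ
  b : ℕ
  b' : ℕ
  c : ℕ
  c' : ℕ
  d : ℕ
  d' : ℕ

/-- The point is in the cell. -/
structure Cl.In (c : Cl) (x1 x2 x3 x4 : ℝ) : Prop where
  m : c.a' ≤ 4096 ∧ c.c' ≤ 4096 ∧ 0 < c.b ∧ 0 < c.d
  l1 : (c.a : ℝ) ≤ 4096 * x1
  u1 : 4096 * x1 ≤ c.a'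
  l2 : (c.b : ℝ) ≤ 4096 * x2
  u2 : 4096 * x2 ≤ c.b'
  l3 : (c.c : ℝ) ≤ 4096 * x3
  u3 : 4096 * x3 ≤ c.c'
  l4 : (c.d : ℝ) ≤ 4096 * x4
  u4 : 4096 * x4 ≤ c.d'

def Cl.split {α : Type} (c : Cl) (t : ℕ) (k : Cl → Cl → α) : α :=
  Nat.rec
    (fN (fun v => k ⟨c.a, v, c.b, c.b', c.c, c.c', c.d, c.d'⟩ ⟨v, c.a', c.b, c.b', c.c, c.c', c.d, c.d'⟩)
      (Nat.div (Nat.add c.a c.a') 2))
    (fun t _ => Nat.rec
      (fN (fun v => k ⟨c.a, c.a', c.b, v, c.c, c.c', c.d, c.d'⟩ ⟨c.a, c.a', v, c.b', c.c, c.c', c.d, c.d'⟩)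
        (Nat.div (Nat.add c.b c.b') 2))
      (fun t _ => Nat.rec
        (fN (fun v => k ⟨c.a, c.a', c.b, c.b', c.c, v, c.d, c.d'⟩ ⟨c.a, c.a', c.b, c.b', v, c.c', c.d, c.d'⟩)
          (Nat.div (Nat.add c.c c.c') 2))
        (fun _ _ =>
          (fN (fun v => k ⟨c.a, c.a', c.b, c.b', c.c, c.c', c.d, v⟩ ⟨c.a, c.a', c.b, c.b', c.c, c.c', v, c.d'⟩)
            (Nat.div (Nat.add c.d c.d') 2))) t) t) t

theorem mid {a b : ℕ} (h : a ≤ b) : a ≤ Nat.div (Nat.add a b) 2 ∧ Nat.div (Nat.add a b) 2 ≤ b := by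
  show a ≤ (a + b) / 2 ∧ (a + b) / 2 ≤ b
  omega

theorem Cl.split_sound {c : Cl} {t : ℕ} {k : Cl → Cl → Bool} (h : c.split t k = true) :
    ∃ u v : Cl, k u v = true ∧ ∀ x1 x2 x3 x4, c.In x1 x2 x3 x4 → u.In x1 x2 x3 x4 ∨ v.In x1 x2 x3 x4 := by
  unfold Cl.split at h
  rcases t with _ | _ | _ | t <;> simp only [fN_eq] at h <;> refine ⟨_, _, h, ?_⟩ <;>
    intro x1 x2 x3 x4 hx <;> obtain ⟨⟨m1, m2, m3, m4⟩, h1, h2, h3, h4, h5, h6, h7, h8⟩ := hx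
  · have hab : c.a ≤ c.a' := by exact_mod_cast h1.trans h2
    have hm := mid hab
    rcases le_total (4096 * x1) (((Nat.add c.a c.a').div 2 : ℕ) : ℝ) with hle | hle
    · exact Or.inl ⟨⟨by simp only; omega, m2, m3, m4⟩, h1, hle, h3, h4, h5, h6, h7, h8⟩
    · exact Or.inr ⟨⟨m1, m2, m3, m4⟩, hle, h2, h3, h4, h5, h6, h7, h8⟩
  · have hab : c.b ≤ c.b' := by exact_mod_cast h3.trans h4
    have hm := mid hab
    rcases le_total (4096 * x2) (((Nat.add c.b c.b').div 2 : ℕ) : ℝ) with hle | hle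
    · exact Or.inl ⟨⟨m1, m2, m3, m4⟩, h1, h2, h3, hle, h5, h6, h7, h8⟩
    · exact Or.inr ⟨⟨m1, m2, by simp only; omega, m4⟩, h1, h2, hle, h4, h5, h6, h7, h8⟩
  · have hab : c.c ≤ c.c' := by exact_mod_cast h5.trans h6
    have hm := mid hab
    rcases le_total (4096 * x3) (((Nat.add c.c c.c').div 2 : ℕ) : ℝ) with hle | hle
    · exact Or.inl ⟨⟨m1, by simp only; omega, m3, m4⟩, h1, h2, h3, h4, h5, hle, h7, h8⟩
    · exact Or.inr ⟨⟨m1, m2, m3, m4⟩, h1, h2, h3, h4, hle, h6, h7, h8⟩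
  · have hab : c.d ≤ c.d' := by exact_mod_cast h7.trans h8
    have hm := mid hab
    rcases le_total (4096 * x4) (((Nat.add c.d c.d').div 2 : ℕ) : ℝ) with hle | hle
    · exact Or.inl ⟨⟨m1, m2, m3, m4⟩, h1, h2, h3, h4, h5, h6, h7, hle⟩
    · exact Or.inr ⟨⟨m1, m2, m3, by simp only; omega⟩, h1, h2, h3, h4, h5, h6, hle, h8⟩

/-- **Branch and bound**: the code is read from the low end, three bits `t` per node; `t < 4` splits the
coordinate `t` in the middle, `t ≥ 4` is a leaf, `leaf t cell code k` reads its data from the code and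
continues with `k`. -/
def run (leaf : ℕ → Cl → ℕ → (ℕ → Bool) → Bool) (n : ℕ) : Cl → ℕ → (ℕ → Bool) → Bool :=
  Nat.rec (fun _ _ _ => false)
    (fun _ ih c z k => fN (fun t => fN (fun z =>
      cond (Nat.ble t 3) (c.split t (fun u v => ih u z (fun z => ih v z k))) (leaf t c z k))
        (Nat.div z 8)) (Nat.mod z 8)) n

theorem run_sound {P : ℝ → ℝ → ℝ → ℝ → Prop} {leaf : ℕ → Cl → ℕ → (ℕ → Bool) → Bool}
    (hl : ∀ t c z k, leaf t c z k = true →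
      (∀ x1 x2 x3 x4, c.In x1 x2 x3 x4 → P x1 x2 x3 x4) ∧ ∃ z', k z' = true) :
    ∀ n c z k, run leaf n c z k = true →
      (∀ x1 x2 x3 x4, c.In x1 x2 x3 x4 → P x1 x2 x3 x4) ∧ ∃ z', k z' = true := by
  intro n
  induction n with
  | zero =>
    intro c z k h
    exact absurd h (by simp [run])
  | succ n ih =>
    intro c z k h
    have h1 : cond (Nat.ble (Nat.mod z 8) 3)
        (c.split (Nat.mod z 8) (fun u v => run leaf n u (Nat.div z 8) (fun z => run leaf n v z k)))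
        (leaf (Nat.mod z 8) c (Nat.div z 8) k) = true := by
      rw [← h]
      unfold run
      simp only [fN_eq]
    rcases hb : Nat.ble (Nat.mod z 8) 3 with _ | _
    · rw [hb, cond_false] at h1
      exact hl _ _ _ _ h1
    · rw [hb, cond_true] at h1
      obtain ⟨u, v, h2, h3⟩ := Cl.split_sound h1
      obtain ⟨h4, z1, h5⟩ := ih _ _ _ h2
      obtain ⟨h6, h7⟩ := ih _ _ _ h5
      refine ⟨?_, h7⟩
      intro x1 x2 x3 x4 hx
      rcases h3 x1 x2 x3 x4 hx with h8 | h8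
      · exact h4 _ _ _ _ h8
      · exact h6 _ _ _ _ h8

/-! ### The data of a cell -/

/-- Bounds, units `2^(-20)`: `a0 ≤ sin² π p ≤ a1`, `b0 ≤ sin² π q ≤ b1`, `s1l ≤ sinh² π h ≤ s1h`,
`s2l ≤ sinh² π g ≤ s2h`, `s3l ≤ sinh² π (h + g) ≤ s3h`, `f0 ≤ sin π (p + q) ≤ f1`. -/
structure Dt where
  a0 : ℕ
  a1 : ℕ
  b0 : ℕ
  b1 : ℕ
  s1l : ℕ
  s1h : ℕ
  s2l : ℕ
  s2h : ℕ
  s3l : ℕ
  s3h : ℕ
  f0 : ℕ
  f1 : ℕ

/-- The bounds hold. -/
structure DtOK (d : Dt) (p h q g : ℝ) : Prop where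
  a0 : (d.a0 : ℝ) ≤ 1048576 * Sn p
  a1 : 1048576 * Sn p ≤ d.a1
  b0 : (d.b0 : ℝ) ≤ 1048576 * Sn q
  b1 : 1048576 * Sn q ≤ d.b1
  s1l : (d.s1l : ℝ) ≤ 1048576 * Real.sinh (Real.pi * h) ^ 2
  s1h : 1048576 * Real.sinh (Real.pi * h) ^ 2 ≤ d.s1h
  s2l : (d.s2l : ℝ) ≤ 1048576 * Real.sinh (Real.pi * g) ^ 2
  s2h : 1048576 * Real.sinh (Real.pi * g) ^ 2 ≤ d.s2h
  s3l : (d.s3l : ℝ) ≤ 1048576 * Real.sinh (Real.pi * (h + g)) ^ 2
  s3h : 1048576 * Real.sinh (Real.pi * (h + g)) ^ 2 ≤ d.s3h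
  f0 : (d.f0 : ℝ) ≤ 1048576 * Real.sin (Real.pi * (p + q))
  f1 : 1048576 * Real.sin (Real.pi * (p + q)) ≤ d.f1

/-- `sin² π p` for `tan (π p / 2) = W / 4096`. -/
def sW (W : ℕ) : ℕ := Nat.div (Nat.mul 70368744177664 (Nat.mul W W))
  (fN (fun m => Nat.mul m m) (Nat.add 16777216 (Nat.mul W W)))

/-- `sinh² π h` for `exp (π h) = E / M`, `E2 = E²`, `M2 = M²`. -/
def sE (E2 M2 : ℕ) : ℕ := Nat.div (Nat.mul 262144 (fN (fun m => Nat.mul m m) (ds' E2 M2)))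
  (Nat.mul E2 M2)

/-- Lower bound of `sinh²` on an interval. -/
def sEl (E2 E2' M2 : ℕ) : ℕ :=
  cond (Nat.ble M2 E2) (sE E2 M2) (cond (Nat.ble E2' M2) (sE E2' M2) 0)

/-- Upper bound of `sinh²` on an interval. -/
def sEh (E2 E2' M2 : ℕ) : ℕ := Nat.succ (mx' (sE E2 M2) (sE E2' M2))

/-- `sin π (p + q)` from `W1`, `W2`. -/
def fW (W V : ℕ) : ℕ := Nat.div (Nat.mul 8589934592 (Nat.mul (Nat.add W V) (Nat.sub 16777216 (Nat.mul W V))))
  (Nat.mul (Nat.add 16777216 (Nat.mul W W)) (Nat.add 16777216 (Nat.mul V V)))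

def mn' (a b : ℕ) : ℕ := cond (Nat.ble a b) a b

/-- Upper bound of `sin π (p + q)`. -/
def fWh (W W' V V' : ℕ) : ℕ :=
  cond (Nat.ble (Nat.mul 4096 (Nat.add W' V')) (Nat.sub 16777216 (Nat.mul W' V'))) (Nat.succ (fW W' V'))
    (cond (Nat.ble (Nat.sub 16777216 (Nat.mul W V)) (Nat.mul 4096 (Nat.add W V))) (Nat.succ (fW W V))
      1048576)

/-- The data of a cell. -/
def dt (c : Cl) : Dt where
  a0 := sW c.a
  a1 := Nat.succ (sW c.a')
  b0 := sW c.c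
  b1 := Nat.succ (sW c.c')
  s1l := sEl (Nat.mul c.b c.b) (Nat.mul c.b' c.b') 16777216
  s1h := sEh (Nat.mul c.b c.b) (Nat.mul c.b' c.b') 16777216
  s2l := sEl (Nat.mul c.d c.d) (Nat.mul c.d' c.d') 16777216
  s2h := sEh (Nat.mul c.d c.d) (Nat.mul c.d' c.d') 16777216
  s3l := sEl (Nat.mul (Nat.mul c.b c.b) (Nat.mul c.d c.d)) (Nat.mul (Nat.mul c.b' c.b') (Nat.mul c.d' c.d'))
    281474976710656
  s3h := sEh (Nat.mul (Nat.mul c.b c.b) (Nat.mul c.d c.d)) (Nat.mul (Nat.mul c.b' c.b') (Nat.mul c.d' c.d'))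
    281474976710656
  f0 := mn' (fW c.a c.c) (fW c.a' c.c')
  f1 := fWh c.a c.a' c.c c.c'

/-- Evaluation of the data of a cell. -/
def withDt (c : Cl) (k : Dt → Bool) : Bool :=
  fN (fun e => fN (fun e' => fN (fun v => fN (fun v' =>
    fN (fun a0 => fN (fun a1 => fN (fun b0 => fN (fun b1 =>
      fN (fun s1l => fN (fun s1h => fN (fun s2l => fN (fun s2h =>
        fN (fun s3l => fN (fun s3h => fN (fun f0 => fN (fun f1 =>
          k ⟨a0, a1, b0, b1, s1l, s1h, s2l, s2h, s3l, s3h, f0, f1⟩)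
        (fWh c.a c.a' c.c c.c')) (mn' (fW c.a c.c) (fW c.a' c.c')))
        (fN (fun x => fN (fun x' => sEh x x' 281474976710656) (Nat.mul e' v')) (Nat.mul e v)))
        (fN (fun x => fN (fun x' => sEl x x' 281474976710656) (Nat.mul e' v')) (Nat.mul e v)))
      (sEh v v' 16777216)) (sEl v v' 16777216)) (sEh e e' 16777216)) (sEl e e' 16777216))
    (Nat.succ (sW c.c'))) (sW c.c)) (Nat.succ (sW c.a'))) (sW c.a))
    (Nat.mul c.d' c.d')) (Nat.mul c.d c.d)) (Nat.mul c.b' c.b')) (Nat.mul c.b c.b)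

theorem withDt_eq (c : Cl) (k : Dt → Bool) : withDt c k = k (dt c) := by
  unfold withDt dt
  simp only [fN_eq]

/-! ### Soundness of the data -/

/-- `tan (π p / 2)`. -/
noncomputable def tw (p : ℝ) : ℝ := Real.tan (Real.pi * p / 2)

/-- `exp (π h)`. -/
noncomputable def ex (h : ℝ) : ℝ := Real.exp (Real.pi * h)

theorem tw_pos {p : ℝ} (h0 : 0 < p) (h1 : p < 1 / 2) : 0 < tw p := by
  have hpi := Real.pi_pos
  exact Real.tan_pos_of_pos_of_lt_pi_div_two (by positivity) (by nlinarith)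

theorem tw_lt {p : ℝ} (h0 : 0 < p) (h1 : p < 1 / 2) : tw p < 1 := by
  have hpi := Real.pi_pos
  rw [tw, ← Real.tan_pi_div_four]
  apply Real.tan_lt_tan_of_lt_of_lt_pi_div_two <;> nlinarith

theorem half_cos_pos {p : ℝ} (h0 : 0 < p) (h1 : p < 1 / 2) : 0 < Real.cos (Real.pi * p / 2) := by
  have hpi := Real.pi_pos
  exact Real.cos_pos_of_mem_Ioo ⟨by nlinarith, by nlinarith⟩

theorem sin_tw {p : ℝ} (h0 : 0 < p) (h1 : p < 1 / 2) :
    Real.sin (Real.pi * p) = 2 * tw p / (1 + tw p ^ 2) := by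
  have hc := half_cos_pos h0 h1
  rw [tw, Real.tan_eq_sin_div_cos]
  have e : Real.pi * p = 2 * (Real.pi * p / 2) := by ring
  rw [e, Real.sin_two_mul, show 2 * (Real.pi * p / 2) / 2 = Real.pi * p / 2 by ring]
  have h2 := Real.sin_sq_add_cos_sq (Real.pi * p / 2)
  set s := Real.sin (Real.pi * p / 2)
  set c := Real.cos (Real.pi * p / 2)
  rw [eq_div_iff (by positivity)]
  field_simp
  linear_combination s * h2

theorem cos_tw {p : ℝ} (h0 : 0 < p) (h1 : p < 1 / 2) :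
    Real.cos (Real.pi * p) = (1 - tw p ^ 2) / (1 + tw p ^ 2) := by
  have hc := half_cos_pos h0 h1
  rw [tw, Real.tan_eq_sin_div_cos]
  have e : Real.pi * p = 2 * (Real.pi * p / 2) := by ring
  rw [e, Real.cos_two_mul, show 2 * (Real.pi * p / 2) / 2 = Real.pi * p / 2 by ring]
  have h2 := Real.sin_sq_add_cos_sq (Real.pi * p / 2)
  set s := Real.sin (Real.pi * p / 2)
  set c := Real.cos (Real.pi * p / 2)
  rw [eq_div_iff (by positivity)]
  field_simp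
  linear_combination (2 * c ^ 2) * h2

theorem Sn_tw {p : ℝ} (h0 : 0 < p) (h1 : p < 1 / 2) :
    Sn p = 4 * tw p ^ 2 / (1 + tw p ^ 2) ^ 2 := by
  unfold Sn
  rw [sin_tw h0 h1, div_pow]
  ring

theorem sinh_ex (h : ℝ) : Real.sinh (Real.pi * h) ^ 2 = (ex h ^ 2 - 1) ^ 2 / (4 * ex h ^ 2) := by
  have he : 0 < ex h := Real.exp_pos _
  rw [Real.sinh_eq, Real.exp_neg, ← ex]
  field_simp
  ring

theorem ex_add (h g : ℝ) : ex (h + g) = ex h * ex g := by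
  rw [ex, ex, ex, mul_add, Real.exp_add]

end Pool.Agent.S5.F
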