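import Pool.Agent.S5.I.F0

/-!
# Soundness of the data of a cell
-/

set_option autoImplicit false

namespace Pool.Agent.S5.F

open Pool.Agent.S5.C2 Pool.Agent.S5.Num

theorem div_le' (x m : ℕ) : ((Nat.div x m : ℕ) : ℝ) ≤ (x : ℝ) / m := Nat.cast_div_le

theorem le_div' (x : ℕ) {m : ℕ} (hm : 0 < m) : (x : ℝ) / m ≤ ((Nat.succ (Nat.div x m) : ℕ) : ℝ) := by
  have h : x ≤ m * (x / m + 1) := by
    have := Nat.div_add_mod x m
    have := Nat.mod_lt x hm
    rw [mul_add, mul_one]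
    omega
  have h2 : (x : ℝ) ≤ m * ((x / m : ℕ) + 1) := by exact_mod_cast h
  rw [div_le_iff₀ (by exact_mod_cast hm)]
  have e : ((Nat.succ (Nat.div x m) : ℕ) : ℝ) = ((x / m : ℕ) : ℝ) + 1 := by
    show ((Nat.succ (x / m) : ℕ) : ℝ) = _
    push_cast
    ring
  rw [e]
  linarith only [h2]

/-! ### `sin² π p` -/

theorem gS_mono {w w' : ℝ} (h0 : 0 ≤ w) (h1 : w ≤ w') (h2 : w' ≤ 1) :
    4 * w ^ 2 / (1 + w ^ 2) ^ 2 ≤ 4 * w' ^ 2 / (1 + w' ^ 2) ^ 2 := by
  have k : w / (1 + w ^ 2) ≤ w' / (1 + w' ^ 2) := by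
    rw [div_le_div_iff₀ (by positivity) (by positivity)]
    linarith only [mul_nonneg (sub_nonneg.2 h1) (show 0 ≤ 1 - w * w' by nlinarith)]
  have k1 : (w / (1 + w ^ 2)) ^ 2 ≤ (w' / (1 + w' ^ 2)) ^ 2 :=
    pow_le_pow_left₀ (by positivity) k 2
  rw [div_pow, div_pow] at k1
  rw [mul_div_assoc, mul_div_assoc]
  linarith only [k1]

theorem sW_cast (W : ℕ) : sW W = Nat.div (70368744177664 * (W * W)) ((16777216 + W * W) * (16777216 + W * W)) := by
  unfold sW
  rw [fN_eq]
  rfl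

theorem sW_real (W : ℕ) : ((70368744177664 * (W * W) : ℕ) : ℝ) / (((16777216 + W * W) * (16777216 + W * W) : ℕ) : ℝ) =
    1048576 * (4 * ((W : ℝ) / 4096) ^ 2 / (1 + ((W : ℝ) / 4096) ^ 2) ^ 2) := by
  push_cast
  field_simp
  ring

theorem sW_le (W : ℕ) {w : ℝ} (h1 : (W : ℝ) ≤ 4096 * w) (h2 : w ≤ 1) :
    (sW W : ℝ) ≤ 1048576 * (4 * w ^ 2 / (1 + w ^ 2) ^ 2) := by
  rw [sW_cast]
  refine (div_le' _ _).trans ?_
  rw [sW_real]
  have := gS_mono (w := (W : ℝ) / 4096) (w' := w) (by positivity) (by linarith only [h1]) h2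
  linarith only [this]

theorem le_sW {W : ℕ} {w : ℝ} (h0 : 0 ≤ w) (h1 : 4096 * w ≤ W) (h2 : W ≤ 4096) :
    1048576 * (4 * w ^ 2 / (1 + w ^ 2) ^ 2) ≤ ((Nat.succ (sW W) : ℕ) : ℝ) := by
  rw [sW_cast]
  refine le_trans ?_ (le_div' _ (by positivity))
  rw [sW_real]
  have h3 : (W : ℝ) ≤ 4096 := by exact_mod_cast h2
  have := gS_mono (w := w) (w' := (W : ℝ) / 4096) h0 (by linarith only [h1]) (by linarith only [h3])
  linarith only [this]

/-! ### `sinh²` -/

theorem gE_mono {r r' : ℝ} (h0 : 1 ≤ r) (h1 : r ≤ r') : (r - 1) ^ 2 / (4 * r) ≤ (r' - 1) ^ 2 / (4 * r') := by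
  rw [div_le_div_iff₀ (by linarith only [h0]) (by linarith only [h1, h0])]
  linarith only [mul_nonneg (sub_nonneg.2 h1) (show 0 ≤ r * r' - 1 by nlinarith)]

theorem gE_anti {r r' : ℝ} (h0 : 0 < r) (h1 : r ≤ r') (h2 : r' ≤ 1) :
    (r' - 1) ^ 2 / (4 * r') ≤ (r - 1) ^ 2 / (4 * r) := by
  rw [div_le_div_iff₀ (by linarith only [h1, h0]) (by linarith only [h0])]
  linarith only [mul_nonneg (sub_nonneg.2 h1) (show 0 ≤ 1 - r * r' by nlinarith)]

theorem ds_sq (a b : ℕ) : ((ds' a b : ℕ) : ℝ) ^ 2 = ((a : ℝ) - b) ^ 2 := by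
  unfold ds'
  show (((a - b) + (b - a) : ℕ) : ℝ) ^ 2 = _
  rcases le_total a b with h | h
  · rw [Nat.sub_eq_zero_of_le h]
    push_cast [Nat.cast_sub h]
    ring
  · rw [Nat.sub_eq_zero_of_le h]
    push_cast [Nat.cast_sub h]
    ring

theorem sE_cast (E2 M2 : ℕ) : sE E2 M2 = Nat.div (262144 * (ds' E2 M2 * ds' E2 M2)) (E2 * M2) := by
  unfold sE
  rw [fN_eq]
  rfl

theorem sE_real {E2 M2 : ℕ} (h1 : 0 < E2) (h2 : 0 < M2) :
    ((262144 * (ds' E2 M2 * ds' E2 M2) : ℕ) : ℝ) / ((E2 * M2 : ℕ) : ℝ) =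
    1048576 * (((E2 : ℝ) / M2 - 1) ^ 2 / (4 * ((E2 : ℝ) / M2))) := by
  have h3 : (0 : ℝ) < E2 := by exact_mod_cast h1
  have h4 : (0 : ℝ) < M2 := by exact_mod_cast h2
  have e := ds_sq E2 M2
  push_cast
  rw [show ((ds' E2 M2 : ℕ) : ℝ) * ((ds' E2 M2 : ℕ) : ℝ) = ((ds' E2 M2 : ℕ) : ℝ) ^ 2 by ring, e]
  field_simp
  ring

theorem sE_le {E2 M2 : ℕ} (h1 : 0 < E2) (h2 : 0 < M2) :
    (sE E2 M2 : ℝ) ≤ 1048576 * (((E2 : ℝ) / M2 - 1) ^ 2 / (4 * ((E2 : ℝ) / M2))) := by
  rw [sE_cast]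
  refine (div_le' _ _).trans ?_
  rw [sE_real h1 h2]

theorem le_sE {E2 M2 : ℕ} (h1 : 0 < E2) (h2 : 0 < M2) :
    1048576 * (((E2 : ℝ) / M2 - 1) ^ 2 / (4 * ((E2 : ℝ) / M2))) ≤ ((Nat.succ (sE E2 M2) : ℕ) : ℝ) := by
  rw [sE_cast]
  refine le_trans ?_ (le_div' _ (by positivity))
  rw [sE_real h1 h2]

theorem sEl_le {E2 E2' M2 : ℕ} {r : ℝ} (h1 : 0 < E2) (hM : 0 < M2) (hl : (E2 : ℝ) ≤ M2 * r)
    (hr : M2 * r ≤ (E2' : ℝ)) : (sEl E2 E2' M2 : ℝ) ≤ 1048576 * ((r - 1) ^ 2 / (4 * r)) := by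
  have h3 : (0 : ℝ) < E2 := by exact_mod_cast h1
  have h4 : (0 : ℝ) < M2 := by exact_mod_cast hM
  have h1' : 0 < E2' := by exact_mod_cast (h3.trans_le (hl.trans hr))
  have h5 : (0 : ℝ) < E2' := by exact_mod_cast h1'
  have l : (E2 : ℝ) / M2 ≤ r := by
    rw [div_le_iff₀ h4]
    linarith only [hl]
  have u : r ≤ (E2' : ℝ) / M2 := by
    rw [le_div_iff₀ h4]
    linarith only [hr]
  have hr0 : 0 < r := lt_of_lt_of_le (by positivity) l
  unfold sEl
  rcases hb : Nat.ble M2 E2 with _ | _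
  · rw [cond_false]
    rcases hb2 : Nat.ble E2' M2 with _ | _
    · rw [cond_false]
      have : 0 ≤ (r - 1) ^ 2 / (4 * r) := by positivity
      push_cast
      linarith only [this]
    · rw [cond_true]
      have h6 := Nat.le_of_ble_eq_true hb2
      have h7 : (E2' : ℝ) / M2 ≤ 1 := by
        rw [div_le_one h4]
        exact_mod_cast h6
      have := gE_anti hr0 u h7
      have := sE_le h1' hM
      linarith [this]
  · rw [cond_true]
    have h6 := Nat.le_of_ble_eq_true hb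
    have h7 : 1 ≤ (E2 : ℝ) / M2 := by
      rw [one_le_div h4]
      exact_mod_cast h6
    have := gE_mono h7 l
    have := sE_le h1 hM
    linarith [this]

theorem le_sEh {E2 E2' M2 : ℕ} {r : ℝ} (h1 : 0 < E2) (hM : 0 < M2) (hl : (E2 : ℝ) ≤ M2 * r)
    (hr : M2 * r ≤ (E2' : ℝ)) : 1048576 * ((r - 1) ^ 2 / (4 * r)) ≤ (sEh E2 E2' M2 : ℝ) := by
  have h3 : (0 : ℝ) < E2 := by exact_mod_cast h1
  have h4 : (0 : ℝ) < M2 := by exact_mod_cast hM
  have h1' : 0 < E2' := by exact_mod_cast (h3.trans_le (hl.trans hr))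
  have h5 : (0 : ℝ) < E2' := by exact_mod_cast h1'
  have l : (E2 : ℝ) / M2 ≤ r := by
    rw [div_le_iff₀ h4]
    linarith only [hl]
  have u : r ≤ (E2' : ℝ) / M2 := by
    rw [le_div_iff₀ h4]
    linarith only [hr]
  have hr0 : 0 < r := lt_of_lt_of_le (by positivity) l
  have m1 : (Nat.succ (sE E2 M2) : ℕ) ≤ sEh E2 E2' M2 := by
    unfold sEh mx'
    rcases hb : Nat.ble (sE E2 M2) (sE E2' M2) with _ | _
    · rw [cond_false]
    · rw [cond_true]
      exact Nat.succ_le_succ (Nat.le_of_ble_eq_true hb)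
  have m2 : (Nat.succ (sE E2' M2) : ℕ) ≤ sEh E2 E2' M2 := by
    unfold sEh mx'
    rcases hb : Nat.ble (sE E2 M2) (sE E2' M2) with _ | _
    · rw [cond_false]
      have : ¬ (sE E2 M2 ≤ sE E2' M2) := by
        intro h
        rw [Nat.ble_eq_true_of_le h] at hb
        exact absurd hb (by simp)
      exact Nat.succ_le_succ (by omega)
    · rw [cond_true]
  rcases le_total r 1 with h | h
  · have k1 := gE_anti (r := (E2 : ℝ) / M2) (by positivity) l h
    have k2 := le_sE h1 hM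
    have k3 : ((Nat.succ (sE E2 M2) : ℕ) : ℝ) ≤ (sEh E2 E2' M2 : ℝ) := by exact_mod_cast m1
    linarith only [k3, k2, k1]
  · have k1 := gE_mono h u
    have k2 := le_sE h1' hM
    have k3 : ((Nat.succ (sE E2' M2) : ℕ) : ℝ) ≤ (sEh E2 E2' M2 : ℝ) := by exact_mod_cast m2
    linarith only [k3, k2, k1]

/-! ### `sin π (p + q)` -/

theorem sin_arctan_add (w v : ℝ) : Real.sin (2 * (Real.arctan w + Real.arctan v)) =
    2 * (w + v) * (1 - w * v) / ((1 + w ^ 2) * (1 + v ^ 2)) := by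
  rw [Real.sin_two_mul, Real.sin_add, Real.cos_add, Real.sin_arctan, Real.sin_arctan, Real.cos_arctan,
    Real.cos_arctan]
  have h1 : (0 : ℝ) < 1 + w ^ 2 := by positivity
  have h2 : (0 : ℝ) < 1 + v ^ 2 := by positivity
  have e1 := Real.sq_sqrt h1.le
  have e2 := Real.sq_sqrt h2.le
  have p1 := Real.sqrt_pos.2 h1
  have p2 := Real.sqrt_pos.2 h2
  rw [eq_div_iff (by positivity), ← e1, ← e2]
  set a := √(1 + w ^ 2)
  set b := √(1 + v ^ 2)
  rw [Real.sqrt_sq p1.le, Real.sqrt_sq p2.le]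
  field_simp

theorem sin_low {P0 P P1 : ℝ} (h0 : 0 ≤ P0) (h1 : P0 ≤ P) (h2 : P ≤ P1) (h3 : P1 ≤ Real.pi) :
    min (Real.sin P0) (Real.sin P1) ≤ Real.sin P := by
  have hc := strictConcaveOn_sin_Icc.concaveOn
  exact hc.min_le_of_mem_Icc ⟨h0, by linarith only [h3, h2, h1]⟩ ⟨by linarith only [h2, h1, h0], h3⟩ ⟨h1, h2⟩

theorem fW_real {W V : ℕ} (h : W * V ≤ 16777216) :
    ((8589934592 * ((W + V) * (16777216 - W * V)) : ℕ) : ℝ) /
      (((16777216 + W * W) * (16777216 + V * V) : ℕ) : ℝ) =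
    1048576 * Real.sin (2 * (Real.arctan (W / 4096) + Real.arctan (V / 4096))) := by
  rw [sin_arctan_add]
  have e : ((16777216 - W * V : ℕ) : ℝ) = 16777216 - (W : ℝ) * V := by
    rw [Nat.cast_sub h]
    push_cast
    ring
  rw [Nat.cast_mul, Nat.cast_mul (W + V), e]
  push_cast
  field_simp
  ring

theorem fW_le {W V : ℕ} (h : W * V ≤ 16777216) :
    (fW W V : ℝ) ≤ 1048576 * Real.sin (2 * (Real.arctan (W / 4096) + Real.arctan (V / 4096))) := by
  rw [← fW_real h]
  exact div_le' _ _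

theorem le_fW {W V : ℕ} (h : W * V ≤ 16777216) :
    1048576 * Real.sin (2 * (Real.arctan (W / 4096) + Real.arctan (V / 4096))) ≤
      ((Nat.succ (fW W V) : ℕ) : ℝ) := by
  rw [← fW_real h]
  exact le_div' _ (by positivity)

theorem mn_le (a b : ℕ) : mn' a b ≤ a ∧ mn' a b ≤ b := by
  unfold mn'
  rcases hb : Nat.ble a b with _ | _
  · rw [cond_false]
    have : ¬ (a ≤ b) := by
      intro h
      rw [Nat.ble_eq_true_of_le h] at hb
      exact absurd hb (by simp)
    omega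
  · rw [cond_true]
    have := Nat.le_of_ble_eq_true hb
    omega

theorem arc_sum_le {w v : ℝ} (hw : 0 ≤ w) (hv : 0 ≤ v) (h : w + v ≤ 1 - w * v) :
    Real.arctan w + Real.arctan v ≤ Real.pi / 4 := by
  rcases eq_or_lt_of_le (add_nonneg hw hv) with h0 | h0
  · have : w = 0 := by linarith only [hw, h0, hv]
    have h2 : v = 0 := by linarith only [hv, h0, hw]
    subst this h2
    simp only [Real.arctan_zero, add_zero]
    have := Real.pi_pos
    positivity
  · have h1 : w * v < 1 := by linarith only [h0, h]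
    rw [Real.arctan_add h1, ← Real.arctan_one]
    apply Real.arctan_strictMono.monotone
    rw [div_le_one (by linarith only [h0, h])]
    exact h

theorem le_arc_sum {w v : ℝ} (hw : 0 ≤ w) (hv : 0 ≤ v) (hw1 : w ≤ 1) (hv1 : v ≤ 1)
    (h : 1 - w * v ≤ w + v) : Real.pi / 4 ≤ Real.arctan w + Real.arctan v := by
  rcases lt_or_ge (w * v) 1 with h1 | h1
  · rw [Real.arctan_add h1, ← Real.arctan_one]
    apply Real.arctan_strictMono.monotone
    rw [one_le_div (by linarith only [h1])]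
    exact h
  · have e1 : w = 1 := by linarith only [h1, mul_nonneg (sub_nonneg.2 hw) (sub_nonneg.2 hv1), hw1]
    rw [e1, Real.arctan_one]
    have := Real.arctan_nonneg.2 hv
    linarith only [this]

theorem f_bounds {W W' V V' : ℕ} {p q : ℝ} (hp : 0 < p) (hp1 : p < 1 / 2) (hq : 0 < q)
    (hq1 : q < 1 / 2) (hW' : W' ≤ 4096) (hV' : V' ≤ 4096) (h1 : (W : ℝ) ≤ 4096 * tw p)
    (h2 : 4096 * tw p ≤ W') (h3 : (V : ℝ) ≤ 4096 * tw q) (h4 : 4096 * tw q ≤ V') :
    ((mn' (fW W V) (fW W' V') : ℕ) : ℝ) ≤ 1048576 * Real.sin (Real.pi * (p + q)) ∧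
      1048576 * Real.sin (Real.pi * (p + q)) ≤ (fWh W W' V V' : ℝ) := by
  have hpi := Real.pi_pos
  have e1 : Real.arctan (tw p) = Real.pi * p / 2 := by
    rw [tw, Real.arctan_tan (by linarith only [hpi, mul_pos (sub_pos.2 hp) (sub_pos.2 hpi)]) (by linarith only [hpi,
                                                                                                   mul_pos (sub_pos.2 hp1) (sub_pos.2 hpi)])]
  have e2 : Real.arctan (tw q) = Real.pi * q / 2 := by
    rw [tw, Real.arctan_tan (by linarith only [mul_pos (sub_pos.2 hq) (sub_pos.2 hpi),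
                                  mul_pos (sub_pos.2 hp1) (sub_pos.2 hpi),
                                  mul_pos (sub_pos.2 hp) (sub_pos.2 hpi)]) (by linarith only [mul_pos (sub_pos.2 hq1) (sub_pos.2 hpi),
                                                                                 mul_pos (sub_pos.2 hp1) (sub_pos.2 hpi),
                                                                                 mul_pos (sub_pos.2 hp) (sub_pos.2 hpi)])]
  have hWW : W ≤ W' := by exact_mod_cast h1.trans h2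
  have hVV : V ≤ V' := by exact_mod_cast h3.trans h4
  have hWr : (W' : ℝ) ≤ 4096 := by exact_mod_cast hW'
  have hVr : (V' : ℝ) ≤ 4096 := by exact_mod_cast hV'
  have hWWr : (W : ℝ) ≤ W' := by exact_mod_cast hWW
  have hVVr : (V : ℝ) ≤ V' := by exact_mod_cast hVV
  have m1 : Real.arctan ((W : ℝ) / 4096) ≤ Real.pi * p / 2 := by
    rw [← e1]
    exact Real.arctan_strictMono.monotone (by linarith only [h1])
  have m2 : Real.pi * p / 2 ≤ Real.arctan ((W' : ℝ) / 4096) := by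
    rw [← e1]
    exact Real.arctan_strictMono.monotone (by linarith only [h2])
  have m3 : Real.arctan ((V : ℝ) / 4096) ≤ Real.pi * q / 2 := by
    rw [← e2]
    exact Real.arctan_strictMono.monotone (by linarith only [h3])
  have m4 : Real.pi * q / 2 ≤ Real.arctan ((V' : ℝ) / 4096) := by
    rw [← e2]
    exact Real.arctan_strictMono.monotone (by linarith only [h4])
  have m5 : Real.arctan ((W' : ℝ) / 4096) ≤ Real.pi / 4 := by
    rw [← Real.arctan_one]
    exact Real.arctan_strictMono.monotone (by linarith only [hWr])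
  have m6 : Real.arctan ((V' : ℝ) / 4096) ≤ Real.pi / 4 := by
    rw [← Real.arctan_one]
    exact Real.arctan_strictMono.monotone (by linarith only [hVr])
  have m7 : 0 ≤ Real.arctan ((W : ℝ) / 4096) := Real.arctan_nonneg.2 (by positivity)
  have m8 : 0 ≤ Real.arctan ((V : ℝ) / 4096) := Real.arctan_nonneg.2 (by positivity)
  have hprod' : W' * V' ≤ 16777216 := (Nat.mul_le_mul hW' hV').trans (by norm_num)
  have hprod : W * V ≤ 16777216 :=
    (Nat.mul_le_mul (hWW.trans hW') (hVV.trans hV')).trans (by norm_num)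
  have hexp : Real.pi * (p + q) = Real.pi * p + Real.pi * q := mul_add _ _ _
  have hpp : Real.pi * p < Real.pi / 2 := by
    have := mul_lt_mul_of_pos_left hp1 hpi
    linarith only [this]
  have hqq : Real.pi * q < Real.pi / 2 := by
    have := mul_lt_mul_of_pos_left hq1 hpi
    linarith only [this]
  have l0 := fW_le hprod
  have l1 := fW_le hprod'
  constructor
  · have h5 := sin_low (P0 := 2 * (Real.arctan ((W : ℝ) / 4096) + Real.arctan ((V : ℝ) / 4096)))
      (P := Real.pi * (p + q)) (P1 := 2 * (Real.arctan ((W' : ℝ) / 4096) + Real.arctan ((V' : ℝ) / 4096)))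
      (by linarith only [m8, m7]) (by linarith only [m3, m1]) (by linarith only [m4, m2]) (by linarith only [m6,
                                                                                                m5])
    obtain ⟨n1, n2⟩ := mn_le (fW W V) (fW W' V')
    have n1' : ((mn' (fW W V) (fW W' V') : ℕ) : ℝ) ≤ (fW W V : ℝ) := by exact_mod_cast n1
    have n2' : ((mn' (fW W V) (fW W' V') : ℕ) : ℝ) ≤ (fW W' V' : ℝ) := by exact_mod_cast n2
    rcases min_choice (Real.sin (2 * (Real.arctan ((W : ℝ) / 4096) + Real.arctan ((V : ℝ) / 4096))))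
      (Real.sin (2 * (Real.arctan ((W' : ℝ) / 4096) + Real.arctan ((V' : ℝ) / 4096)))) with h6 | h6 <;>
      rw [h6] at h5 <;> linarith
  · unfold fWh
    rcases hb : Nat.ble (Nat.mul 4096 (Nat.add W' V')) (Nat.sub 16777216 (Nat.mul W' V')) with _ | _
    · rw [cond_false]
      rcases hb2 : Nat.ble (Nat.sub 16777216 (Nat.mul W V)) (Nat.mul 4096 (Nat.add W V)) with _ | _
      · rw [cond_false]
        have := Real.sin_le_one (Real.pi * (p + q))
        push_cast
        linarith only [this]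
      · rw [cond_true]
        have h6 : 16777216 - W * V ≤ 4096 * (W + V) := Nat.le_of_ble_eq_true hb2
        have h7 : 16777216 ≤ 4096 * (W + V) + W * V := by omega
        have h8 : (16777216 : ℝ) ≤ 4096 * (W + V) + W * V := by exact_mod_cast h7
        have h9 := le_arc_sum (w := (W : ℝ) / 4096) (v := (V : ℝ) / 4096) (by positivity) (by positivity)
          (by linarith only [hWr, h2, h1]) (by linarith only [hVr, h4, h3]) (by
            have e : (W : ℝ) / 4096 * (V / 4096) = W * V / 16777216 := by ring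
            rw [e]
            linarith only [h8])
        have h10 : Real.sin (Real.pi * (p + q)) ≤
            Real.sin (2 * (Real.arctan ((W : ℝ) / 4096) + Real.arctan ((V : ℝ) / 4096))) := by
          rw [← Real.sin_pi_sub, ← Real.sin_pi_sub (2 * (Real.arctan ((W : ℝ) / 4096) + _))]
          apply Real.sin_le_sin_of_le_of_le_pi_div_two <;>
            linarith only [hexp, hpp, hqq, hpi, m1, m2, m3, m4, m5, m6, m7, m8, h9]
        have := le_fW hprod
        linarith only [this, h10]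
    · rw [cond_true]
      have h6 : 4096 * (W' + V') ≤ 16777216 - W' * V' := Nat.le_of_ble_eq_true hb
      have h7 : 4096 * (W' + V') + W' * V' ≤ 16777216 := by omega
      have h8 : 4096 * ((W' : ℝ) + V') + W' * V' ≤ 16777216 := by exact_mod_cast h7
      have h9 := arc_sum_le (w := (W' : ℝ) / 4096) (v := (V' : ℝ) / 4096) (by positivity) (by positivity)
        (by
          have e : (W' : ℝ) / 4096 * (V' / 4096) = W' * V' / 16777216 := by ring
          rw [e]
          linarith only [h8])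
      have h10 : Real.sin (Real.pi * (p + q)) ≤
          Real.sin (2 * (Real.arctan ((W' : ℝ) / 4096) + Real.arctan ((V' : ℝ) / 4096))) := by
        apply Real.sin_le_sin_of_le_of_le_pi_div_two <;>
          linarith only [hexp, hpp, hqq, hpi, m1, m2, m3, m4, m5, m6, m7, m8, h9,
            mul_pos hpi hp, mul_pos hpi hq]
      have := le_fW hprod'
      linarith only [this, h10]

/-! ### The data -/

/-- The point `(p, h, q, g)` is in the cell. -/
def Cl.Mem (c : Cl) (p h q g : ℝ) : Prop := c.In (tw p) (ex h) (tw q) (ex g)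

theorem ex_pos (h : ℝ) : 0 < ex h := Real.exp_pos _

theorem sq_cell {b : ℕ} {x : ℝ} (h : (b : ℝ) ≤ 4096 * x) : ((Nat.mul b b : ℕ) : ℝ) ≤ (16777216 : ℕ) * x ^ 2 := by
  have e : ((Nat.mul b b : ℕ) : ℝ) = (b : ℝ) * b := by
    show ((b * b : ℕ) : ℝ) = _
    push_cast
    ring
  rw [e]
  have hb : (0 : ℝ) ≤ b := by positivity
  push_cast
  have h2 := mul_le_mul h h hb (hb.trans h)
  linarith only [h2]

theorem sq_cell' {b : ℕ} {x : ℝ} (hx : 0 ≤ x) (h : 4096 * x ≤ b) :
    (16777216 : ℕ) * x ^ 2 ≤ ((Nat.mul b b : ℕ) : ℝ) := by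
  have e : ((Nat.mul b b : ℕ) : ℝ) = (b : ℝ) * b := by
    show ((b * b : ℕ) : ℝ) = _
    push_cast
    ring
  rw [e]
  push_cast
  have h2 := mul_le_mul h h (by positivity) (by positivity)
  linarith only [h2]

theorem dt_ok {c : Cl} {p h q g : ℝ} (hp : 0 < p) (hp1 : p < 1 / 2) (hq : 0 < q) (hq1 : q < 1 / 2)
    (hc : c.Mem p h q g) : DtOK (dt c) p h q g := by
  obtain ⟨⟨m1, m2, m3, m4⟩, h1, h2, h3, h4, h5, h6, h7, h8⟩ := hc
  have tp := tw_pos hp hp1
  have tq := tw_pos hq hq1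
  have tp1 := tw_lt hp hp1
  have tq1 := tw_lt hq hq1
  have eh := ex_pos h
  have eg := ex_pos g
  have hsp := Sn_tw hp hp1
  have hsq := Sn_tw hq hq1
  have he : Real.sinh (Real.pi * h) ^ 2 = (ex h ^ 2 - 1) ^ 2 / (4 * ex h ^ 2) := sinh_ex h
  have hg : Real.sinh (Real.pi * g) ^ 2 = (ex g ^ 2 - 1) ^ 2 / (4 * ex g ^ 2) := sinh_ex g
  have heg : Real.sinh (Real.pi * (h + g)) ^ 2 =
      ((ex h ^ 2 * ex g ^ 2) - 1) ^ 2 / (4 * (ex h ^ 2 * ex g ^ 2)) := by
    rw [sinh_ex, ex_add, mul_pow]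
  have f := f_bounds hp hp1 hq hq1 m1 m2 h1 h2 h5 h6
  have mb : 0 < Nat.mul c.b c.b := Nat.mul_pos m3 m3
  have md : 0 < Nat.mul c.d c.d := Nat.mul_pos m4 m4
  have b1 := sq_cell h3
  have b2 := sq_cell' eh.le h4
  have d1 := sq_cell h7
  have d2 := sq_cell' eg.le h8
  have x1 : ((Nat.mul (Nat.mul c.b c.b) (Nat.mul c.d c.d) : ℕ) : ℝ) ≤
      (281474976710656 : ℕ) * (ex h ^ 2 * ex g ^ 2) := by
    have e : ((Nat.mul (Nat.mul c.b c.b) (Nat.mul c.d c.d) : ℕ) : ℝ) =
        ((Nat.mul c.b c.b : ℕ) : ℝ) * ((Nat.mul c.d c.d : ℕ) : ℝ) := Nat.cast_mul _ _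
    rw [e]
    refine (mul_le_mul b1 d1 (by positivity) (by positivity)).trans (le_of_eq ?_)
    push_cast
    ring
  have x2 : (281474976710656 : ℕ) * (ex h ^ 2 * ex g ^ 2) ≤
      ((Nat.mul (Nat.mul c.b' c.b') (Nat.mul c.d' c.d') : ℕ) : ℝ) := by
    have e : ((Nat.mul (Nat.mul c.b' c.b') (Nat.mul c.d' c.d') : ℕ) : ℝ) =
        ((Nat.mul c.b' c.b' : ℕ) : ℝ) * ((Nat.mul c.d' c.d' : ℕ) : ℝ) := Nat.cast_mul _ _
    rw [e]
    refine le_trans (le_of_eq ?_) (mul_le_mul b2 d2 (by positivity) (by positivity))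
    push_cast
    ring
  constructor
  · rw [hsp]
    exact sW_le _ h1 tp1.le
  · rw [hsp]
    exact le_sW tp.le h2 m1
  · rw [hsq]
    exact sW_le _ h5 tq1.le
  · rw [hsq]
    exact le_sW tq.le h6 m2
  · rw [he]
    exact sEl_le mb (by norm_num) b1 b2
  · rw [he]
    exact le_sEh mb (by norm_num) b1 b2
  · rw [hg]
    exact sEl_le md (by norm_num) d1 d2
  · rw [hg]
    exact le_sEh md (by norm_num) d1 d2
  · rw [heg]
    exact sEl_le (Nat.mul_pos mb md) (by norm_num) x1 x2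
  · rw [heg]
    exact le_sEh (Nat.mul_pos mb md) (by norm_num) x1 x2
  · exact f.1
  · exact f.2

end Pool.Agent.S5.F
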