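import Pool.Agent.S5.I.F10
import Pool.Agent.S5.I.C2j
import Pool.Agent.S5.E.VX.Fn0

/-!
# The corner: meaning of the tables
-/

set_option autoImplicit false

namespace Pool.Agent.S5.F

open Pool.Agent.S5.C2 Pool.Agent.S5.Num Pool.Agent.S5.Tb Pool.Agent.H63.VC3 Pool.Agent.S3 Complex

theorem ck_all {f : ℕ → ℕ → Bool} {n a m b : ℕ}
    (h : allB (fun i => allB (fun j => f i j) m b) n a = true) {i j : ℕ} (hi : a ≤ i) (hi1 : i < a + n)
    (hj : b ≤ j) (hj1 : j < b + m) : f i j = true :=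
  allB_sound (allB_sound h i hi hi1) j hj hj1

theorem pt_two (i j : ℕ) : pt (2 * i) (2 * j) = (((i : ℝ) / 100 : ℝ) : ℂ) + (((j : ℝ) / 100 : ℝ) : ℂ) * I := by
  unfold pt
  have e1 : ((2 * i : ℕ) : ℝ) / 200 = (i : ℝ) / 100 := by
    push_cast
    ring
  have e2 : ((2 * j : ℕ) : ℝ) / 200 = (j : ℝ) / 100 := by
    push_cast
    ring
  rw [e1, e2]

theorem half2 (i : ℕ) : ((2 * i : ℕ) : ℝ) / 200 = (i : ℝ) / 100 := by
  push_cast
  ring

/-- The value of the defect at `0`. -/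
theorem Dq_at_zero (η r : ℝ) : Dq (Real.sinh (Real.pi * η) ^ 2) r 0 =
    -(Real.pi * |η| / 2) - Rf ((r : ℂ) + η * I) + r * Lg η r := by
  rw [Dq_eq, Rf_zero_line]
  ring

theorem dT_ok {i j : ℕ} (hi : 10 ≤ i) (hi1 : i ≤ 40) (hj : 2 ≤ j) (hj1 : j ≤ 18) (h : 0 < dT i j) :
    (dT i j : ℝ) / 65536 ≤ Dq (Real.sinh (Real.pi * ((j : ℝ) / 100)) ^ 2) ((i : ℝ) / 100) 0 := by
  have h1 := ck_all (f := fun i j => cond (Nat.beq (dT i j) 0) true (ckD i j)) ckD_all hi (by omega) hj (by omega)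
  have h2 : ckD i j = true := by
    rcases hb : Nat.beq (dT i j) 0 with _ | _
    · simp only [hb, cond_false] at h1
      exact h1
    · have := Nat.eq_of_beq_eq_true hb
      omega
  unfold ckD at h2
  rw [fN_eq] at h2
  have h3 := Nat.le_of_ble_eq_true h2
  change 1600 * dT i j + 1647100 * j + (3200 + 8388612 * i) ≤ 100 * qE (ent (2 * i) (2 * j)) +
    i * lE (ent (2 * i) (2 * j)) at h3
  have h4 := ent_ok (2 * i) (2 * j) (by omega) (by omega) (by omega)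
  obtain ⟨q, _, l, _⟩ := h4
  rw [pt_two] at q
  rw [half2, half2] at l
  rw [Dq_at_zero]
  have h5 : ((1600 * dT i j + 1647100 * j + (3200 + 8388612 * i) : ℕ) : ℝ) ≤
    ((100 * qE (ent (2 * i) (2 * j)) + i * lE (ent (2 * i) (2 * j)) : ℕ) : ℝ) := by exact_mod_cast h3
  push_cast at h5
  have hj0 : (0 : ℝ) ≤ (j : ℝ) / 100 := by positivity
  rw [abs_of_nonneg hj0]
  have hpi := Real.pi_lt_d6
  have q1 := (abs_le.1 q).1
  have l1 := (abs_le.1 l).1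
  have hi0 : (0 : ℝ) ≤ i := Nat.cast_nonneg _
  have hj' : (0 : ℝ) ≤ j := Nat.cast_nonneg _
  have m1 := mul_le_mul_of_nonneg_left l1 hi0
  have m2 := mul_le_mul_of_nonneg_right hpi.le hj'
  generalize Rf _ = RR at *
  generalize Lg _ _ = LL at *
  rw [div_le_iff₀ (by norm_num)]
  linarith

theorem lT_ok {i j : ℕ} (hi : 10 ≤ i) (hi1 : i ≤ 40) (hj : 2 ≤ j) (hj1 : j ≤ 18) :
    2 * (Lg ((j : ℝ) / 100) ((i : ℝ) / 100) - Lg ((j : ℝ) / 100) 0) ≤ (lT i j : ℝ) / 65536 := by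
  have h1 : ckL i j = true := ck_all ckL_all hi (by omega) hj (by omega)
  have h3 := Nat.le_of_ble_eq_true h1
  change lE (ent (2 * i) (2 * j)) + 8 ≤ 8 * lT i j + lE (ent 0 (2 * j)) at h3
  obtain ⟨_, _, l, _⟩ := ent_ok (2 * i) (2 * j) (by omega) (by omega) (by omega)
  obtain ⟨_, _, l', _⟩ := ent_ok 0 (2 * j) (by omega) (by omega) (by omega)
  rw [half2, half2] at l
  rw [half2] at l'
  have h5 : ((lE (ent (2 * i) (2 * j)) + 8 : ℕ) : ℝ) ≤ ((8 * lT i j + lE (ent 0 (2 * j)) : ℕ) : ℝ) := by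
    exact_mod_cast h3
  push_cast at h5 l'
  rw [zero_div] at l'
  have l1 := (abs_le.1 l).2
  have l2 := (abs_le.1 l').1
  generalize Lg _ ((i : ℝ) / 100) = LL at *
  generalize Lg _ 0 = L0 at *
  rw [le_div_iff₀ (by norm_num)]
  linarith

theorem mT_ok {i j : ℕ} (hi : 4 ≤ i) (hi1 : i ≤ 24) (hj1 : j ≤ 25) :
    (mT i j : ℝ) / 65536 ≤ Lg ((j : ℝ) / 100) (1 / 2) - Lg ((j : ℝ) / 100) ((i : ℝ) / 100) := by
  have h1 : ckM i j = true := ck_all ckM_all hi (by omega) (Nat.zero_le j) (by omega)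
  have h3 := Nat.le_of_ble_eq_true h1
  change 16 * mT i j + (lE (ent (2 * i) (2 * j)) + 8) ≤ lE (ent 100 (2 * j)) at h3
  obtain ⟨_, _, l, _⟩ := ent_ok (2 * i) (2 * j) (by omega) (by omega) (by omega)
  obtain ⟨_, _, l', _⟩ := ent_ok 100 (2 * j) (by omega) (by omega) (by omega)
  rw [half2, half2] at l
  rw [half2] at l'
  have h5 : ((16 * mT i j + (lE (ent (2 * i) (2 * j)) + 8) : ℕ) : ℝ) ≤ ((lE (ent 100 (2 * j)) : ℕ) : ℝ) := by
    exact_mod_cast h3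
  have e : ((100 : ℕ) : ℝ) / 200 = 1 / 2 := by norm_num
  rw [e] at l'
  push_cast at h5
  have l1 := (abs_le.1 l).2
  have l2 := (abs_le.1 l').1
  generalize Lg _ ((i : ℝ) / 100) = LL at *
  generalize Lg _ (1 / 2) = L0 at *
  rw [div_le_iff₀ (by norm_num)]
  linarith

/-! ### `sin²` and `sinh²` -/

theorem sn_low {i : ℕ} (hi : i ≤ 50) {a t : ℝ} (hx : 0 ≤ t) (ht : t ≤ 3.14159265358979323846 * (i / 100))
    (ha : 0 ≤ a) (h : a ≤ t - t ^ 3 / 6 + t ^ 5 / 120 - t ^ 7 / 5040 + t ^ 9 / 362880 - t ^ 11 / 39916800) :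
    a ^ 2 ≤ Sn ((i : ℝ) / 100) := by
  have hpi := Real.pi_gt_d20
  have hpi0 := Real.pi_pos
  have h1 : t ≤ Real.pi * ((i : ℝ) / 100) := by
    refine ht.trans ?_
    apply mul_le_mul_of_nonneg_right hpi.le (by positivity)
  have hi' : (i : ℝ) ≤ 50 := by exact_mod_cast hi
  have h2 : Real.pi * ((i : ℝ) / 100) ≤ Real.pi / 2 := by nlinarith
  have h3 := Real.sin_le_sin_of_le_of_le_pi_div_two (by linarith) h2 h1
  have h4 := E.VX.T11_le_sin hx
  unfold Sn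
  exact pow_le_pow_left₀ ha (by linarith) 2

theorem sn_up {i : ℕ} (hi : i ≤ 49) {b t : ℝ} (ht : 3.14159265358979323847 * (i / 100) ≤ t) (ht1 : t ≤ 3 / 2)
    (h : t - t ^ 3 / 6 + t ^ 5 / 120 - t ^ 7 / 5040 + t ^ 9 / 362880 - t ^ 11 / 39916800 +
      t ^ 13 / 6227020800 ≤ b) : Sn ((i : ℝ) / 100) ≤ b ^ 2 := by
  have hpi := Real.pi_lt_d20
  have hpi0 := Real.pi_pos
  have hpi1 := Real.pi_gt_d2
  have h1 : Real.pi * ((i : ℝ) / 100) ≤ t := by
    refine le_trans ?_ ht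
    apply mul_le_mul_of_nonneg_right hpi.le (by positivity)
  have h0 : 0 ≤ Real.pi * ((i : ℝ) / 100) := by positivity
  have h3 := Real.sin_le_sin_of_le_of_le_pi_div_two (by linarith) (by linarith) h1
  have h4 := E.VX.sin_le_T13 (h0.trans h1)
  have hi' : (i : ℝ) ≤ 49 := by exact_mod_cast hi
  have h5 : 0 ≤ Real.sin (Real.pi * ((i : ℝ) / 100)) :=
    Real.sin_nonneg_of_nonneg_of_le_pi h0 (by nlinarith)
  unfold Sn
  exact pow_le_pow_left₀ h5 (by linarith) 2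

end Pool.Agent.S5.F
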