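import Pool.Agent.S5.I.F11

/-!
# The corner: numerical bounds of `sin²` and `sinh²`
-/

set_option autoImplicit false

namespace Pool.Agent.S5.F

open Pool.Agent.S5.C2 Pool.Agent.S5.Num

theorem sT_aux {i : ℕ} {a b t u : ℝ} (s : ℕ) (hi : i ≤ 49) (hs : sT i = s) (ht0 : 0 ≤ t)
    (ht : t ≤ 3.14159265358979323846 * (i / 100)) (ha : 0 ≤ a)
    (h1 : a ≤ t - t ^ 3 / 6 + t ^ 5 / 120 - t ^ 7 / 5040 + t ^ 9 / 362880 - t ^ 11 / 39916800)
    (hu : 3.14159265358979323847 * (i / 100) ≤ u) (hu1 : u ≤ 3 / 2)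
    (h2 : u - u ^ 3 / 6 + u ^ 5 / 120 - u ^ 7 / 5040 + u ^ 9 / 362880 - u ^ 11 / 39916800 +
      u ^ 13 / 6227020800 ≤ b) (k1 : (s : ℝ) ≤ 1048576 * a ^ 2) (k2 : 1048576 * b ^ 2 ≤ (s : ℝ) + 1) :
    (sT i : ℝ) ≤ 1048576 * Sn ((i : ℝ) / 100) ∧ 1048576 * Sn ((i : ℝ) / 100) ≤ (sT i : ℝ) + 1 := by
  rw [hs]
  have g1 := sn_low (by omega) ht0 ht ha h1
  have g2 := sn_up hi hu hu1 h2
  constructor <;> linarith

theorem gT_aux {j : ℕ} {a t : ℝ} (s : ℕ) (hs : gT j = s) (ht0 : 0 ≤ t)
    (ht : t ≤ 3.14159265358979323846 * (j / 100)) (ha : 0 ≤ a)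
    (h1 : a ≤ t + t ^ 3 / 6 + t ^ 5 / 120) (k1 : (s : ℝ) ≤ 1048576 * a ^ 2) :
    (gT j : ℝ) ≤ 1048576 * Real.sinh (Real.pi * ((j : ℝ) / 100)) ^ 2 := by
  rw [hs]
  have hpi := Real.pi_gt_d20
  have h2 : t ≤ Real.pi * ((j : ℝ) / 100) := by
    refine ht.trans ?_
    apply mul_le_mul_of_nonneg_right hpi.le (by positivity)
  have h3 := Real.sinh_le_sinh.2 h2
  have h4 := E.VX.T5_le_sinh ht0
  have h5 := pow_le_pow_left₀ ha (show a ≤ Real.sinh (Real.pi * ((j : ℝ) / 100)) by linarith) 2
  linarith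

theorem sT_4 : (sT 4 : ℝ) ≤ 1048576 * Sn (((4 : ℕ) : ℝ) / 100) ∧
    1048576 * Sn (((4 : ℕ) : ℝ) / 100) ≤ (sT 4 : ℝ) + 1 :=
  sT_aux (a := 12533323355 / 100000000000) (b := 12533323359 / 100000000000) (t := 12566370613 / 100000000000) (u := 12566370616 / 100000000000) 16471
    (by norm_num) (by decide +kernel) (by norm_num) (by norm_num) (by norm_num) (by norm_num) (by norm_num)
    (by norm_num) (by norm_num) (by norm_num) (by norm_num)

theorem sT_5 : (sT 5 : ℝ) ≤ 1048576 * Sn (((5 : ℕ) : ℝ) / 100) ∧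
    1048576 * Sn (((5 : ℕ) : ℝ) / 100) ≤ (sT 5 : ℝ) + 1 :=
  sT_aux (a := 15643446502 / 100000000000) (b := 15643446506 / 100000000000) (t := 15707963266 / 100000000000) (u := 15707963269 / 100000000000) 25660
    (by norm_num) (by decide +kernel) (by norm_num) (by norm_num) (by norm_num) (by norm_num) (by norm_num)
    (by norm_num) (by norm_num) (by norm_num) (by norm_num)

theorem sT_6 : (sT 6 : ℝ) ≤ 1048576 * Sn (((6 : ℕ) : ℝ) / 100) ∧
    1048576 * Sn (((6 : ℕ) : ℝ) / 100) ≤ (sT 6 : ℝ) + 1 :=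
  sT_aux (a := 18738131457 / 100000000000) (b := 18738131461 / 100000000000) (t := 18849555920 / 100000000000) (u := 18849555923 / 100000000000) 36817
    (by norm_num) (by decide +kernel) (by norm_num) (by norm_num) (by norm_num) (by norm_num) (by norm_num)
    (by norm_num) (by norm_num) (by norm_num) (by norm_num)

theorem sT_7 : (sT 7 : ℝ) ≤ 1048576 * Sn (((7 : ℕ) : ℝ) / 100) ∧
    1048576 * Sn (((7 : ℕ) : ℝ) / 100) ≤ (sT 7 : ℝ) + 1 :=
  sT_aux (a := 21814324138 / 100000000000) (b := 21814324142 / 100000000000) (t := 21991148574 / 100000000000) (u := 21991148577 / 100000000000) 49898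
    (by norm_num) (by decide +kernel) (by norm_num) (by norm_num) (by norm_num) (by norm_num) (by norm_num)
    (by norm_num) (by norm_num) (by norm_num) (by norm_num)

theorem sT_8 : (sT 8 : ℝ) ≤ 1048576 * Sn (((8 : ℕ) : ℝ) / 100) ∧
    1048576 * Sn (((8 : ℕ) : ℝ) / 100) ≤ (sT 8 : ℝ) + 1 :=
  sT_aux (a := 24868988714 / 100000000000) (b := 24868988718 / 100000000000) (t := 25132741227 / 100000000000) (u := 25132741230 / 100000000000) 64850
    (by norm_num) (by decide +kernel) (by norm_num) (by norm_num) (by norm_num) (by norm_num) (by norm_num)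
    (by norm_num) (by norm_num) (by norm_num) (by norm_num)

theorem sT_9 : (sT 9 : ℝ) ≤ 1048576 * Sn (((9 : ℕ) : ℝ) / 100) ∧
    1048576 * Sn (((9 : ℕ) : ℝ) / 100) ≤ (sT 9 : ℝ) + 1 :=
  sT_aux (a := 27899110602 / 100000000000) (b := 27899110606 / 100000000000) (t := 28274333881 / 100000000000) (u := 28274333884 / 100000000000) 81617
    (by norm_num) (by decide +kernel) (by norm_num) (by norm_num) (by norm_num) (by norm_num) (by norm_num)
    (by norm_num) (by norm_num) (by norm_num) (by norm_num)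

theorem sT_10 : (sT 10 : ℝ) ≤ 1048576 * Sn (((10 : ℕ) : ℝ) / 100) ∧
    1048576 * Sn (((10 : ℕ) : ℝ) / 100) ≤ (sT 10 : ℝ) + 1 :=
  sT_aux (a := 30901699435 / 100000000000) (b := 30901699439 / 100000000000) (t := 31415926534 / 100000000000) (u := 31415926537 / 100000000000) 100130
    (by norm_num) (by decide +kernel) (by norm_num) (by norm_num) (by norm_num) (by norm_num) (by norm_num)
    (by norm_num) (by norm_num) (by norm_num) (by norm_num)

theorem sT_11 : (sT 11 : ℝ) ≤ 1048576 * Sn (((11 : ℕ) : ℝ) / 100) ∧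
    1048576 * Sn (((11 : ℕ) : ℝ) / 100) ≤ (sT 11 : ℝ) + 1 :=
  sT_aux (a := 33873792023 / 100000000000) (b := 33873792026 / 100000000000) (t := 34557519188 / 100000000000) (u := 34557519191 / 100000000000) 120317
    (by norm_num) (by decide +kernel) (by norm_num) (by norm_num) (by norm_num) (by norm_num) (by norm_num)
    (by norm_num) (by norm_num) (by norm_num) (by norm_num)

theorem sT_12 : (sT 12 : ℝ) ≤ 1048576 * Sn (((12 : ℕ) : ℝ) / 100) ∧
    1048576 * Sn (((12 : ℕ) : ℝ) / 100) ≤ (sT 12 : ℝ) + 1 :=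
  sT_aux (a := 36812455267 / 100000000000) (b := 36812455271 / 100000000000) (t := 37699111842 / 100000000000) (u := 37699111845 / 100000000000) 142098
    (by norm_num) (by decide +kernel) (by norm_num) (by norm_num) (by norm_num) (by norm_num) (by norm_num)
    (by norm_num) (by norm_num) (by norm_num) (by norm_num)

theorem sT_13 : (sT 13 : ℝ) ≤ 1048576 * Sn (((13 : ℕ) : ℝ) / 100) ∧
    1048576 * Sn (((13 : ℕ) : ℝ) / 100) ≤ (sT 13 : ℝ) + 1 :=
  sT_aux (a := 39714789061 / 100000000000) (b := 39714789065 / 100000000000) (t := 40840704495 / 100000000000) (u := 40840704498 / 100000000000) 165388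
    (by norm_num) (by decide +kernel) (by norm_num) (by norm_num) (by norm_num) (by norm_num) (by norm_num)
    (by norm_num) (by norm_num) (by norm_num) (by norm_num)

theorem sT_14 : (sT 14 : ℝ) ≤ 1048576 * Sn (((14 : ℕ) : ℝ) / 100) ∧
    1048576 * Sn (((14 : ℕ) : ℝ) / 100) ≤ (sT 14 : ℝ) + 1 :=
  sT_aux (a := 42577929155 / 100000000000) (b := 42577929159 / 100000000000) (t := 43982297149 / 100000000000) (u := 43982297152 / 100000000000) 190094
    (by norm_num) (by decide +kernel) (by norm_num) (by norm_num) (by norm_num) (by norm_num) (by norm_num)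
    (by norm_num) (by norm_num) (by norm_num) (by norm_num)

theorem sT_15 : (sT 15 : ℝ) ≤ 1048576 * Sn (((15 : ℕ) : ℝ) / 100) ∧
    1048576 * Sn (((15 : ℕ) : ℝ) / 100) ≤ (sT 15 : ℝ) + 1 :=
  sT_aux (a := 45399049972 / 100000000000) (b := 45399049975 / 100000000000) (t := 47123889802 / 100000000000) (u := 47123889805 / 100000000000) 216119
    (by norm_num) (by decide +kernel) (by norm_num) (by norm_num) (by norm_num) (by norm_num) (by norm_num)
    (by norm_num) (by norm_num) (by norm_num) (by norm_num)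

theorem sT_16 : (sT 16 : ℝ) ≤ 1048576 * Sn (((16 : ℕ) : ℝ) / 100) ∧
    1048576 * Sn (((16 : ℕ) : ℝ) / 100) ≤ (sT 16 : ℝ) + 1 :=
  sT_aux (a := 48175367408 / 100000000000) (b := 48175367412 / 100000000000) (t := 50265482456 / 100000000000) (u := 50265482459 / 100000000000) 243360
    (by norm_num) (by decide +kernel) (by norm_num) (by norm_num) (by norm_num) (by norm_num) (by norm_num)
    (by norm_num) (by norm_num) (by norm_num) (by norm_num)

theorem sT_17 : (sT 17 : ℝ) ≤ 1048576 * Sn (((17 : ℕ) : ℝ) / 100) ∧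
    1048576 * Sn (((17 : ℕ) : ℝ) / 100) ≤ (sT 17 : ℝ) + 1 :=
  sT_aux (a := 50904141574 / 100000000000) (b := 50904141577 / 100000000000) (t := 53407075110 / 100000000000) (u := 53407075113 / 100000000000) 271710
    (by norm_num) (by decide +kernel) (by norm_num) (by norm_num) (by norm_num) (by norm_num) (by norm_num)
    (by norm_num) (by norm_num) (by norm_num) (by norm_num)

theorem sT_18 : (sT 18 : ℝ) ≤ 1048576 * Sn (((18 : ℕ) : ℝ) / 100) ∧
    1048576 * Sn (((18 : ℕ) : ℝ) / 100) ≤ (sT 18 : ℝ) + 1 :=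
  sT_aux (a := 53582679496 / 100000000000) (b := 53582679500 / 100000000000) (t := 56548667763 / 100000000000) (u := 56548667766 / 100000000000) 301057
    (by norm_num) (by decide +kernel) (by norm_num) (by norm_num) (by norm_num) (by norm_num) (by norm_num)
    (by norm_num) (by norm_num) (by norm_num) (by norm_num)

theorem sT_19 : (sT 19 : ℝ) ≤ 1048576 * Sn (((19 : ℕ) : ℝ) / 100) ∧
    1048576 * Sn (((19 : ℕ) : ℝ) / 100) ≤ (sT 19 : ℝ) + 1 :=
  sT_aux (a := 56208337784 / 100000000000) (b := 56208337787 / 100000000000) (t := 59690260417 / 100000000000) (u := 59690260420 / 100000000000) 331284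
    (by norm_num) (by decide +kernel) (by norm_num) (by norm_num) (by norm_num) (by norm_num) (by norm_num)
    (by norm_num) (by norm_num) (by norm_num) (by norm_num)

theorem sT_20 : (sT 20 : ℝ) ≤ 1048576 * Sn (((20 : ℕ) : ℝ) / 100) ∧
    1048576 * Sn (((20 : ℕ) : ℝ) / 100) ≤ (sT 20 : ℝ) + 1 :=
  sT_aux (a := 58778525227 / 100000000000) (b := 58778525231 / 100000000000) (t := 62831853070 / 100000000000) (u := 62831853073 / 100000000000) 362274
    (by norm_num) (by decide +kernel) (by norm_num) (by norm_num) (by norm_num) (by norm_num) (by norm_num)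
    (by norm_num) (by norm_num) (by norm_num) (by norm_num)

theorem sT_21 : (sT 21 : ℝ) ≤ 1048576 * Sn (((21 : ℕ) : ℝ) / 100) ∧
    1048576 * Sn (((21 : ℕ) : ℝ) / 100) ≤ (sT 21 : ℝ) + 1 :=
  sT_aux (a := 61290705364 / 100000000000) (b := 61290705367 / 100000000000) (t := 65973445724 / 100000000000) (u := 65973445727 / 100000000000) 393902
    (by norm_num) (by decide +kernel) (by norm_num) (by norm_num) (by norm_num) (by norm_num) (by norm_num)
    (by norm_num) (by norm_num) (by norm_num) (by norm_num)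

theorem sT_22 : (sT 22 : ℝ) ≤ 1048576 * Sn (((22 : ℕ) : ℝ) / 100) ∧
    1048576 * Sn (((22 : ℕ) : ℝ) / 100) ≤ (sT 22 : ℝ) + 1 :=
  sT_aux (a := 63742398973 / 100000000000) (b := 63742398976 / 100000000000) (t := 69115038377 / 100000000000) (u := 69115038380 / 100000000000) 426046
    (by norm_num) (by decide +kernel) (by norm_num) (by norm_num) (by norm_num) (by norm_num) (by norm_num)
    (by norm_num) (by norm_num) (by norm_num) (by norm_num)

theorem sT_23 : (sT 23 : ℝ) ≤ 1048576 * Sn (((23 : ℕ) : ℝ) / 100) ∧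
    1048576 * Sn (((23 : ℕ) : ℝ) / 100) ≤ (sT 23 : ℝ) + 1 :=
  sT_aux (a := 66131186530 / 100000000000) (b := 66131186534 / 100000000000) (t := 72256631031 / 100000000000) (u := 72256631034 / 100000000000) 458577
    (by norm_num) (by decide +kernel) (by norm_num) (by norm_num) (by norm_num) (by norm_num) (by norm_num)
    (by norm_num) (by norm_num) (by norm_num) (by norm_num)

theorem sT_24 : (sT 24 : ℝ) ≤ 1048576 * Sn (((24 : ℕ) : ℝ) / 100) ∧
    1048576 * Sn (((24 : ℕ) : ℝ) / 100) ≤ (sT 24 : ℝ) + 1 :=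
  sT_aux (a := 68454710591 / 100000000000) (b := 68454710595 / 100000000000) (t := 75398223685 / 100000000000) (u := 75398223688 / 100000000000) 491367
    (by norm_num) (by decide +kernel) (by norm_num) (by norm_num) (by norm_num) (by norm_num) (by norm_num)
    (by norm_num) (by norm_num) (by norm_num) (by norm_num)

theorem sT_25 : (sT 25 : ℝ) ≤ 1048576 * Sn (((25 : ℕ) : ℝ) / 100) ∧
    1048576 * Sn (((25 : ℕ) : ℝ) / 100) ≤ (sT 25 : ℝ) + 1 := by
  have h1 : sT 25 = 524287 := by decide +kernel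
  have h2 : Sn (((25 : ℕ) : ℝ) / 100) = 1 / 2 := by
    have e : Real.pi * (((25 : ℕ) : ℝ) / 100) = Real.pi / 4 := by
      push_cast
      ring
    unfold Sn
    rw [e, Real.sin_pi_div_four, div_pow, Real.sq_sqrt (by norm_num)]
    norm_num
  rw [h1, h2]
  norm_num

theorem sT_26 : (sT 26 : ℝ) ≤ 1048576 * Sn (((26 : ℕ) : ℝ) / 100) ∧
    1048576 * Sn (((26 : ℕ) : ℝ) / 100) ≤ (sT 26 : ℝ) + 1 :=
  sT_aux (a := 72896862740 / 100000000000) (b := 72896862744 / 100000000000) (t := 81681408992 / 100000000000) (u := 81681408995 / 100000000000) 557208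
    (by norm_num) (by decide +kernel) (by norm_num) (by norm_num) (by norm_num) (by norm_num) (by norm_num)
    (by norm_num) (by norm_num) (by norm_num) (by norm_num)

theorem sT_27 : (sT 27 : ℝ) ≤ 1048576 * Sn (((27 : ℕ) : ℝ) / 100) ∧
    1048576 * Sn (((27 : ℕ) : ℝ) / 100) ≤ (sT 27 : ℝ) + 1 :=
  sT_aux (a := 75011106959 / 100000000000) (b := 75011106964 / 100000000000) (t := 84823001645 / 100000000000) (u := 84823001648 / 100000000000) 589998
    (by norm_num) (by decide +kernel) (by norm_num) (by norm_num) (by norm_num) (by norm_num) (by norm_num)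
    (by norm_num) (by norm_num) (by norm_num) (by norm_num)

theorem sT_28 : (sT 28 : ℝ) ≤ 1048576 * Sn (((28 : ℕ) : ℝ) / 100) ∧
    1048576 * Sn (((28 : ℕ) : ℝ) / 100) ≤ (sT 28 : ℝ) + 1 :=
  sT_aux (a := 77051324273 / 100000000000) (b := 77051324279 / 100000000000) (t := 87964594299 / 100000000000) (u := 87964594302 / 100000000000) 622529
    (by norm_num) (by decide +kernel) (by norm_num) (by norm_num) (by norm_num) (by norm_num) (by norm_num)
    (by norm_num) (by norm_num) (by norm_num) (by norm_num)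

theorem sT_29 : (sT 29 : ℝ) ≤ 1048576 * Sn (((29 : ℕ) : ℝ) / 100) ∧
    1048576 * Sn (((29 : ℕ) : ℝ) / 100) ≤ (sT 29 : ℝ) + 1 :=
  sT_aux (a := 79015501232 / 100000000000) (b := 79015501239 / 100000000000) (t := 91106186953 / 100000000000) (u := 91106186956 / 100000000000) 654673
    (by norm_num) (by decide +kernel) (by norm_num) (by norm_num) (by norm_num) (by norm_num) (by norm_num)
    (by norm_num) (by norm_num) (by norm_num) (by norm_num)

theorem sT_30 : (sT 30 : ℝ) ≤ 1048576 * Sn (((30 : ℕ) : ℝ) / 100) ∧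
    1048576 * Sn (((30 : ℕ) : ℝ) / 100) ≤ (sT 30 : ℝ) + 1 :=
  sT_aux (a := 80901699429 / 100000000000) (b := 80901699439 / 100000000000) (t := 94247779606 / 100000000000) (u := 94247779609 / 100000000000) 686301
    (by norm_num) (by decide +kernel) (by norm_num) (by norm_num) (by norm_num) (by norm_num) (by norm_num)
    (by norm_num) (by norm_num) (by norm_num) (by norm_num)

theorem sT_31 : (sT 31 : ℝ) ≤ 1048576 * Sn (((31 : ℕ) : ℝ) / 100) ∧
    1048576 * Sn (((31 : ℕ) : ℝ) / 100) ≤ (sT 31 : ℝ) + 1 :=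
  sT_aux (a := 82708057415 / 100000000000) (b := 82708057429 / 100000000000) (t := 97389372260 / 100000000000) (u := 97389372263 / 100000000000) 717291
    (by norm_num) (by decide +kernel) (by norm_num) (by norm_num) (by norm_num) (by norm_num) (by norm_num)
    (by norm_num) (by norm_num) (by norm_num) (by norm_num)

theorem sT_32 : (sT 32 : ℝ) ≤ 1048576 * Sn (((32 : ℕ) : ℝ) / 100) ∧
    1048576 * Sn (((32 : ℕ) : ℝ) / 100) ≤ (sT 32 : ℝ) + 1 :=
  sT_aux (a := 84432792532 / 100000000000) (b := 84432792551 / 100000000000) (t := 100530964913 / 100000000000) (u := 100530964916 / 100000000000) 747518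
    (by norm_num) (by decide +kernel) (by norm_num) (by norm_num) (by norm_num) (by norm_num) (by norm_num)
    (by norm_num) (by norm_num) (by norm_num) (by norm_num)

theorem sT_33 : (sT 33 : ℝ) ≤ 1048576 * Sn (((33 : ℕ) : ℝ) / 100) ∧
    1048576 * Sn (((33 : ℕ) : ℝ) / 100) ≤ (sT 33 : ℝ) + 1 :=
  sT_aux (a := 86074202674 / 100000000000) (b := 86074202702 / 100000000000) (t := 103672557567 / 100000000000) (u := 103672557570 / 100000000000) 776865
    (by norm_num) (by decide +kernel) (by norm_num) (by norm_num) (by norm_num) (by norm_num) (by norm_num)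
    (by norm_num) (by norm_num) (by norm_num) (by norm_num)

theorem sT_34 : (sT 34 : ℝ) ≤ 1048576 * Sn (((34 : ℕ) : ℝ) / 100) ∧
    1048576 * Sn (((34 : ℕ) : ℝ) / 100) ≤ (sT 34 : ℝ) + 1 :=
  sT_aux (a := 87630667966 / 100000000000) (b := 87630668006 / 100000000000) (t := 106814150221 / 100000000000) (u := 106814150224 / 100000000000) 805215
    (by norm_num) (by decide +kernel) (by norm_num) (by norm_num) (by norm_num) (by norm_num) (by norm_num)
    (by norm_num) (by norm_num) (by norm_num) (by norm_num)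

theorem sT_35 : (sT 35 : ℝ) ≤ 1048576 * Sn (((35 : ℕ) : ℝ) / 100) ∧
    1048576 * Sn (((35 : ℕ) : ℝ) / 100) ≤ (sT 35 : ℝ) + 1 :=
  sT_aux (a := 89100652363 / 100000000000) (b := 89100652420 / 100000000000) (t := 109955742874 / 100000000000) (u := 109955742877 / 100000000000) 832456
    (by norm_num) (by decide +kernel) (by norm_num) (by norm_num) (by norm_num) (by norm_num) (by norm_num)
    (by norm_num) (by norm_num) (by norm_num) (by norm_num)

theorem sT_36 : (sT 36 : ℝ) ≤ 1048576 * Sn (((36 : ℕ) : ℝ) / 100) ∧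
    1048576 * Sn (((36 : ℕ) : ℝ) / 100) ≤ (sT 36 : ℝ) + 1 :=
  sT_aux (a := 90482705167 / 100000000000) (b := 90482705248 / 100000000000) (t := 113097335528 / 100000000000) (u := 113097335531 / 100000000000) 858481
    (by norm_num) (by decide +kernel) (by norm_num) (by norm_num) (by norm_num) (by norm_num) (by norm_num)
    (by norm_num) (by norm_num) (by norm_num) (by norm_num)

theorem sT_37 : (sT 37 : ℝ) ≤ 1048576 * Sn (((37 : ℕ) : ℝ) / 100) ∧
    1048576 * Sn (((37 : ℕ) : ℝ) / 100) ≤ (sT 37 : ℝ) + 1 :=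
  sT_aux (a := 91775462454 / 100000000000) (b := 91775462570 / 100000000000) (t := 116238928181 / 100000000000) (u := 116238928184 / 100000000000) 883187
    (by norm_num) (by decide +kernel) (by norm_num) (by norm_num) (by norm_num) (by norm_num) (by norm_num)
    (by norm_num) (by norm_num) (by norm_num) (by norm_num)

theorem sT_38 : (sT 38 : ℝ) ≤ 1048576 * Sn (((38 : ℕ) : ℝ) / 100) ∧
    1048576 * Sn (((38 : ℕ) : ℝ) / 100) ≤ (sT 38 : ℝ) + 1 :=
  sT_aux (a := 92977648428 / 100000000000) (b := 92977648591 / 100000000000) (t := 119380520835 / 100000000000) (u := 119380520838 / 100000000000) 906477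
    (by norm_num) (by decide +kernel) (by norm_num) (by norm_num) (by norm_num) (by norm_num) (by norm_num)
    (by norm_num) (by norm_num) (by norm_num) (by norm_num)

theorem sT_39 : (sT 39 : ℝ) ≤ 1048576 * Sn (((39 : ℕ) : ℝ) / 100) ∧
    1048576 * Sn (((39 : ℕ) : ℝ) / 100) ≤ (sT 39 : ℝ) + 1 :=
  sT_aux (a := 94088076671 / 100000000000) (b := 94088076898 / 100000000000) (t := 122522113489 / 100000000000) (u := 122522113492 / 100000000000) 928258
    (by norm_num) (by decide +kernel) (by norm_num) (by norm_num) (by norm_num) (by norm_num) (by norm_num)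
    (by norm_num) (by norm_num) (by norm_num) (by norm_num)

theorem sT_40 : (sT 40 : ℝ) ≤ 1048576 * Sn (((40 : ℕ) : ℝ) / 100) ∧
    1048576 * Sn (((40 : ℕ) : ℝ) / 100) ≤ (sT 40 : ℝ) + 1 :=
  sT_aux (a := 95105651318 / 100000000000) (b := 95105651633 / 100000000000) (t := 125663706142 / 100000000000) (u := 125663706145 / 100000000000) 948445
    (by norm_num) (by decide +kernel) (by norm_num) (by norm_num) (by norm_num) (by norm_num) (by norm_num)
    (by norm_num) (by norm_num) (by norm_num) (by norm_num)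

theorem gT_0 : (gT 0 : ℝ) ≤ 1048576 * Real.sinh (Real.pi * (((0 : ℕ) : ℝ) / 100)) ^ 2 :=
  gT_aux (a := 0 / 100000000000) (t := 0 / 100000000000) 0 (by decide +kernel) (by norm_num) (by norm_num) (by norm_num)
    (by norm_num) (by norm_num)

theorem gT_1 : (gT 1 : ℝ) ≤ 1048576 * Real.sinh (Real.pi * (((1 : ℕ) : ℝ) / 100)) ^ 2 :=
  gT_aux (a := 3142109448 / 100000000000) (t := 3141592652 / 100000000000) 1034 (by decide +kernel) (by norm_num) (by norm_num) (by norm_num)
    (by norm_num) (by norm_num)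

theorem gT_2 : (gT 2 : ℝ) ≤ 1048576 * Real.sinh (Real.pi * (((2 : ℕ) : ℝ) / 100)) ^ 2 :=
  gT_aux (a := 6287320292 / 100000000000) (t := 6283185306 / 100000000000) 4144 (by decide +kernel) (by norm_num) (by norm_num) (by norm_num)
    (by norm_num) (by norm_num)

theorem gT_3 : (gT 3 : ℝ) ≤ 1048576 * Real.sinh (Real.pi * (((3 : ℕ) : ℝ) / 100)) ^ 2 :=
  gT_aux (a := 9438736980 / 100000000000) (t := 9424777959 / 100000000000) 9340 (by decide +kernel) (by norm_num) (by norm_num) (by norm_num)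
    (by norm_num) (by norm_num)

theorem gT_4 : (gT 4 : ℝ) ≤ 1048576 * Real.sinh (Real.pi * (((4 : ℕ) : ℝ) / 100)) ^ 2 :=
  gT_aux (a := 12599470088 / 100000000000) (t := 12566370613 / 100000000000) 16644 (by decide +kernel) (by norm_num) (by norm_num) (by norm_num)
    (by norm_num) (by norm_num)

theorem gT_5 : (gT 5 : ℝ) ≤ 1048576 * Real.sinh (Real.pi * (((5 : ℕ) : ℝ) / 100)) ^ 2 :=
  gT_aux (a := 15772639368 / 100000000000) (t := 15707963266 / 100000000000) 26085 (by decide +kernel) (by norm_num) (by norm_num) (by norm_num)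
    (by norm_num) (by norm_num)

theorem gT_6 : (gT 6 : ℝ) ≤ 1048576 * Real.sinh (Real.pi * (((6 : ℕ) : ℝ) / 100)) ^ 2 :=
  gT_aux (a := 18961376816 / 100000000000) (t := 18849555920 / 100000000000) 37698 (by decide +kernel) (by norm_num) (by norm_num) (by norm_num)
    (by norm_num) (by norm_num)

theorem gT_7 : (gT 7 : ℝ) ≤ 1048576 * Real.sinh (Real.pi * (((7 : ℕ) : ℝ) / 100)) ^ 2 :=
  gT_aux (a := 22168829728 / 100000000000) (t := 21991148574 / 100000000000) 51532 (by decide +kernel) (by norm_num) (by norm_num) (by norm_num)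
    (by norm_num) (by norm_num)

theorem gT_8 : (gT 8 : ℝ) ≤ 1048576 * Real.sinh (Real.pi * (((8 : ℕ) : ℝ) / 100)) ^ 2 :=
  gT_aux (a := 25398163759 / 100000000000) (t := 25132741227 / 100000000000) 67639 (by decide +kernel) (by norm_num) (by norm_num) (by norm_num)
    (by norm_num) (by norm_num)

theorem gT_9 : (gT 9 : ℝ) ≤ 1048576 * Real.sinh (Real.pi * (((9 : ℕ) : ℝ) / 100)) ^ 2 :=
  gT_aux (a := 28652565988 / 100000000000) (t := 28274333881 / 100000000000) 86083 (by decide +kernel) (by norm_num) (by norm_num) (by norm_num)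
    (by norm_num) (by norm_num)

theorem gT_10 : (gT 10 : ℝ) ≤ 1048576 * Real.sinh (Real.pi * (((10 : ℕ) : ℝ) / 100)) ^ 2 :=
  gT_aux (a := 31935247975 / 100000000000) (t := 31415926534 / 100000000000) 106939 (by decide +kernel) (by norm_num) (by norm_num) (by norm_num)
    (by norm_num) (by norm_num)

theorem gT_11 : (gT 11 : ℝ) ≤ 1048576 * Real.sinh (Real.pi * (((11 : ℕ) : ℝ) / 100)) ^ 2 :=
  gT_aux (a := 35249448823 / 100000000000) (t := 34557519188 / 100000000000) 130287 (by decide +kernel) (by norm_num) (by norm_num) (by norm_num)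
    (by norm_num) (by norm_num)

theorem gT_12 : (gT 12 : ℝ) ≤ 1048576 * Real.sinh (Real.pi * (((12 : ℕ) : ℝ) / 100)) ^ 2 :=
  gT_aux (a := 38598438234 / 100000000000) (t := 37699111842 / 100000000000) 156219 (by decide +kernel) (by norm_num) (by norm_num) (by norm_num)
    (by norm_num) (by norm_num)

theorem gT_13 : (gT 13 : ℝ) ≤ 1048576 * Real.sinh (Real.pi * (((13 : ℕ) : ℝ) / 100)) ^ 2 :=
  gT_aux (a := 41985519573 / 100000000000) (t := 40840704495 / 100000000000) 184840 (by decide +kernel) (by norm_num) (by norm_num) (by norm_num)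
    (by norm_num) (by norm_num)

theorem gT_14 : (gT 14 : ℝ) ≤ 1048576 * Real.sinh (Real.pi * (((14 : ℕ) : ℝ) / 100)) ^ 2 :=
  gT_aux (a := 45414032929 / 100000000000) (t := 43982297149 / 100000000000) 216260 (by decide +kernel) (by norm_num) (by norm_num) (by norm_num)
    (by norm_num) (by norm_num)

theorem gT_15 : (gT 15 : ℝ) ≤ 1048576 * Real.sinh (Real.pi * (((15 : ℕ) : ℝ) / 100)) ^ 2 :=
  gT_aux (a := 48887358173 / 100000000000) (t := 47123889802 / 100000000000) 250605 (by decide +kernel) (by norm_num) (by norm_num) (by norm_num)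
    (by norm_num) (by norm_num)

theorem gT_16 : (gT 16 : ℝ) ≤ 1048576 * Real.sinh (Real.pi * (((16 : ℕ) : ℝ) / 100)) ^ 2 :=
  gT_aux (a := 52408918018 / 100000000000) (t := 50265482456 / 100000000000) 288010 (by decide +kernel) (by norm_num) (by norm_num) (by norm_num)
    (by norm_num) (by norm_num)

theorem gT_17 : (gT 17 : ℝ) ≤ 1048576 * Real.sinh (Real.pi * (((17 : ℕ) : ℝ) / 100)) ^ 2 :=
  gT_aux (a := 55982181081 / 100000000000) (t := 53407075110 / 100000000000) 328623 (by decide +kernel) (by norm_num) (by norm_num) (by norm_num)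
    (by norm_num) (by norm_num)

theorem gT_18 : (gT 18 : ℝ) ≤ 1048576 * Real.sinh (Real.pi * (((18 : ℕ) : ℝ) / 100)) ^ 2 :=
  gT_aux (a := 59610664939 / 100000000000) (t := 56548667763 / 100000000000) 372603 (by decide +kernel) (by norm_num) (by norm_num) (by norm_num)
    (by norm_num) (by norm_num)

theorem gT_19 : (gT 19 : ℝ) ≤ 1048576 * Real.sinh (Real.pi * (((19 : ℕ) : ℝ) / 100)) ^ 2 :=
  gT_aux (a := 63297939198 / 100000000000) (t := 59690260417 / 100000000000) 420124 (by decide +kernel) (by norm_num) (by norm_num) (by norm_num)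
    (by norm_num) (by norm_num)

theorem gT_20 : (gT 20 : ℝ) ≤ 1048576 * Real.sinh (Real.pi * (((20 : ℕ) : ℝ) / 100)) ^ 2 :=
  gT_aux (a := 67047628542 / 100000000000) (t := 62831853070 / 100000000000) 471374 (by decide +kernel) (by norm_num) (by norm_num) (by norm_num)
    (by norm_num) (by norm_num)

theorem gT_21 : (gT 21 : ℝ) ≤ 1048576 * Real.sinh (Real.pi * (((21 : ℕ) : ℝ) / 100)) ^ 2 :=
  gT_aux (a := 70863415804 / 100000000000) (t := 65973445724 / 100000000000) 526554 (by decide +kernel) (by norm_num) (by norm_num) (by norm_num)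
    (by norm_num) (by norm_num)

theorem gT_22 : (gT 22 : ℝ) ≤ 1048576 * Real.sinh (Real.pi * (((22 : ℕ) : ℝ) / 100)) ^ 2 :=
  gT_aux (a := 74749045014 / 100000000000) (t := 69115038377 / 100000000000) 585882 (by decide +kernel) (by norm_num) (by norm_num) (by norm_num)
    (by norm_num) (by norm_num)

theorem gT_23 : (gT 23 : ℝ) ≤ 1048576 * Real.sinh (Real.pi * (((23 : ℕ) : ℝ) / 100)) ^ 2 :=
  gT_aux (a := 78708324474 / 100000000000) (t := 72256631031 / 100000000000) 649591 (by decide +kernel) (by norm_num) (by norm_num) (by norm_num)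
    (by norm_num) (by norm_num)

theorem gT_24 : (gT 24 : ℝ) ≤ 1048576 * Real.sinh (Real.pi * (((24 : ℕ) : ℝ) / 100)) ^ 2 :=
  gT_aux (a := 82745129805 / 100000000000) (t := 75398223685 / 100000000000) 717933 (by decide +kernel) (by norm_num) (by norm_num) (by norm_num)
    (by norm_num) (by norm_num)

theorem gT_25 : (gT 25 : ℝ) ≤ 1048576 * Real.sinh (Real.pi * (((25 : ℕ) : ℝ) / 100)) ^ 2 :=
  gT_aux (a := 86863407013 / 100000000000) (t := 78539816338 / 100000000000) 791175 (by decide +kernel) (by norm_num) (by norm_num) (by norm_num)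
    (by norm_num) (by norm_num)

theorem sT_ok {i : ℕ} (hi : 4 ≤ i) (hi1 : i ≤ 40) : (sT i : ℝ) ≤ 1048576 * Sn ((i : ℝ) / 100) ∧
    1048576 * Sn ((i : ℝ) / 100) ≤ (sT i : ℝ) + 1 := by
  interval_cases i
  · exact sT_4
  · exact sT_5
  · exact sT_6
  · exact sT_7
  · exact sT_8
  · exact sT_9
  · exact sT_10
  · exact sT_11
  · exact sT_12
  · exact sT_13
  · exact sT_14
  · exact sT_15
  · exact sT_16
  · exact sT_17
  · exact sT_18
  · exact sT_19
  · exact sT_20
  · exact sT_21
  · exact sT_22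
  · exact sT_23
  · exact sT_24
  · exact sT_25
  · exact sT_26
  · exact sT_27
  · exact sT_28
  · exact sT_29
  · exact sT_30
  · exact sT_31
  · exact sT_32
  · exact sT_33
  · exact sT_34
  · exact sT_35
  · exact sT_36
  · exact sT_37
  · exact sT_38
  · exact sT_39
  · exact sT_40

theorem gT_ok {j : ℕ} (hj : j ≤ 25) :
    (gT j : ℝ) ≤ 1048576 * Real.sinh (Real.pi * ((j : ℝ) / 100)) ^ 2 := by
  interval_cases j
  · exact gT_0
  · exact gT_1
  · exact gT_2
  · exact gT_3
  · exact gT_4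
  · exact gT_5
  · exact gT_6
  · exact gT_7
  · exact gT_8
  · exact gT_9
  · exact gT_10
  · exact gT_11
  · exact gT_12
  · exact gT_13
  · exact gT_14
  · exact gT_15
  · exact gT_16
  · exact gT_17
  · exact gT_18
  · exact gT_19
  · exact gT_20
  · exact gT_21
  · exact gT_22
  · exact gT_23
  · exact gT_24
  · exact gT_25

end Pool.Agent.S5.F
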