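import Pool.Agent.S5.I.F12

/-!
# The corner: program and soundness
-/

set_option autoImplicit false

namespace Pool.Agent.S5.F

open Pool.Agent.S5.C2 Pool.Agent.S5.Num Pool.Agent.H63.VC3 Pool.Agent.S3

/-- `⌊2^20 (20201 / 20000)^n⌋`. -/
def tT (n : Nat) : Nat := Nat.div (Nat.mul 1048576 (Nat.pow 20201 n)) (Nat.pow 20000 n)

theorem tT_ok (n : ℕ) : (tT n : ℝ) ≤ 1048576 * Real.exp ((n : ℝ) / 100) := by
  have h1 : (tT n : ℝ) ≤ ((1048576 * 20201 ^ n : ℕ) : ℝ) / ((20000 ^ n : ℕ) : ℝ) := Nat.cast_div_le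
  have h2 : (20201 / 20000 : ℝ) ≤ Real.exp (1 / 100) := by
    have := Real.quadratic_le_exp_of_nonneg (show (0 : ℝ) ≤ 1 / 100 by norm_num)
    linarith
  have h3 : (20201 / 20000 : ℝ) ^ n ≤ Real.exp ((n : ℝ) / 100) := by
    rw [show (n : ℝ) / 100 = n * (1 / 100) by ring, Real.exp_nat_mul]
    exact pow_le_pow_left₀ (by norm_num) h2 n
  have h4 : ((1048576 * 20201 ^ n : ℕ) : ℝ) / ((20000 ^ n : ℕ) : ℝ) = 1048576 * (20201 / 20000 : ℝ) ^ n := by
    push_cast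
    rw [div_pow]
    ring
  rw [h4] at h1
  linarith

/-- The value at `0` of the third defect. -/
theorem half_zero {n s : ℕ} {σ : ℝ} (hσ : 0 ≤ σ) (hs : (s : ℝ) ≤ 1048576 * σ)
    (h : (((2097152 - tT n : ℕ) : ℝ)) ^ 2 ≤ 4 * s * ((tT n - 1048576 : ℕ) : ℝ)) :
    Dq σ (1 / 2) 0 ≤ (n : ℝ) / 200 := by
  obtain ⟨η, h0, h1⟩ : ∃ η : ℝ, 0 ≤ η ∧ Real.sinh (Real.pi * η) ^ 2 = σ := by
    refine ⟨Real.arsinh (Real.sqrt σ) / Real.pi, ?_, ?_⟩
    · have := Real.arsinh_nonneg_iff.2 (Real.sqrt_nonneg σ)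
      have := Real.pi_pos
      positivity
    · rw [mul_div_cancel₀ _ Real.pi_pos.ne', Real.sinh_arsinh, Real.sq_sqrt hσ]
  rw [← h1, Dq_half_zero, abs_of_nonneg h0]
  have hx : 0 ≤ Real.pi * η := mul_nonneg Real.pi_pos.le h0
  -- `exp (-2 x) ≤ T - 1`
  have hT := tT_ok n
  set T : ℝ := Real.exp ((n : ℝ) / 100) with hTd
  set x := Real.pi * η with hxd
  have key : 1 + Real.exp (-(2 * x)) ≤ T := by
    have e1 : Real.exp (-(2 * x)) = 1 + 2 * σ - 2 * (Real.sinh x * Real.cosh x) := by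
      have := Real.cosh_sub_sinh (2 * x)
      rw [Real.cosh_two_mul, Real.sinh_two_mul, Real.cosh_sq] at this
      rw [← this, ← h1]
      ring
    have hs0 : 0 ≤ Real.sinh x := Real.sinh_nonneg_iff.2 hx
    have hc0 := Real.cosh_pos x
    rcases le_or_gt 2097152 (tT n) with h2 | h2
    · have h3 : (2097152 : ℝ) ≤ tT n := by exact_mod_cast h2
      have : Real.exp (-(2 * x)) ≤ 1 := Real.exp_le_one_iff.2 (by linarith)
      linarith
    · have e2 : (((2097152 - tT n : ℕ) : ℝ)) = 2097152 - tT n := by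
        rw [Nat.cast_sub h2.le]
        push_cast
        ring
      rcases le_or_gt (tT n) 1048576 with h3 | h3
      · exfalso
        have e3 : tT n - 1048576 = 0 := by omega
        rw [e3, e2] at h
        have h4 : (tT n : ℝ) ≤ 1048576 := by exact_mod_cast h3
        have h5 : (1048576 : ℝ) ^ 2 ≤ (2097152 - (tT n : ℝ)) ^ 2 :=
          pow_le_pow_left₀ (by norm_num) (by linarith) 2
        push_cast at h
        norm_num at h h5
        linarith
      · have e3 : (((tT n - 1048576 : ℕ) : ℝ)) = tT n - 1048576 := by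
          rw [Nat.cast_sub h3.le]
          push_cast
          ring
        rw [e2, e3] at h
        have h4 : (tT n : ℝ) < 2097152 := by exact_mod_cast h2
        have h5 : (1048576 : ℝ) < tT n := by exact_mod_cast h3
        generalize (tT n : ℝ) = t at *
        rcases le_or_gt 2 T with h6 | h6
        · have : Real.exp (-(2 * x)) ≤ 1 := Real.exp_le_one_iff.2 (by linarith)
          linarith
        · -- `(2 - T)² ≤ 4 σ (T - 1)`
          have h7 : (2 - T) ^ 2 ≤ 4 * σ * (T - 1) := by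
            have k1 : (1048576 * (2 - T)) ^ 2 ≤ (2097152 - t) ^ 2 :=
              pow_le_pow_left₀ (by linarith) (by linarith) 2
            have k2 : 4 * s * (t - 1048576) ≤ 4 * (1048576 * σ) * (1048576 * (T - 1)) :=
              mul_le_mul (by linarith) (by linarith) (by linarith) (by linarith)
            linarith
          have h8 : (Real.sinh x * Real.cosh x) ^ 2 = σ * (1 + σ) := by
            rw [mul_pow, Real.cosh_sq, ← h1]
            ring
          have h9 : (2 + 2 * σ - T) ^ 2 ≤ (2 * (Real.sinh x * Real.cosh x)) ^ 2 := by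
            rw [mul_pow, h8]
            linarith
          have h10 := abs_le_of_sq_le_sq h9 (by positivity)
          have h11 := le_abs_self (2 + 2 * σ - T)
          rw [e1]
          linarith
  have e4 : Real.log (2 * Real.cosh x) = x + Real.log (1 + Real.exp (-(2 * x))) := by
    have e5 : 2 * Real.cosh x = Real.exp x * (1 + Real.exp (-(2 * x))) := by
      rw [Real.cosh_eq, mul_add, mul_one, ← Real.exp_add]
      rw [show x + -(2 * x) = -x by ring]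
      ring
    rw [e5, Real.log_mul (Real.exp_pos x).ne' (by positivity), Real.log_exp]
  have h12 : Real.log (1 + Real.exp (-(2 * x))) ≤ (n : ℝ) / 100 := by
    rw [Real.log_le_iff_le_exp (by positivity)]
    exact key
  rw [e4]
  have e6 : Real.pi * η = x := rfl
  linarith

theorem Sn_ge_of {i a : ℕ} {p : ℝ} (hi : 4 ≤ i) (hi1 : i ≤ 40) (hp : 0 < p) (hp1 : p < 1 / 2)
    (h : Nat.ble (Nat.succ (sT i)) a = true) (ha : (a : ℝ) ≤ 1048576 * Sn p) : (i : ℝ) / 100 ≤ p := by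
  have h1 := Nat.le_of_ble_eq_true h
  have h2 : ((sT i : ℕ) : ℝ) + 1 ≤ a := by exact_mod_cast h1
  have h3 := (sT_ok hi hi1).2
  have h4 : Sn ((i : ℝ) / 100) ≤ Sn p := by linarith
  have hi2 : (i : ℝ) ≤ 40 := by exact_mod_cast hi1
  by_contra hc
  rw [not_le] at hc
  have h5 := Sn_mono hp.le hc.le (by linarith)
  have h6 := Sn_inj hp.le hp1.le (by positivity) (by linarith) (le_antisymm h5 h4)
  linarith

/-- The corner test. -/
def corN (d : Dt) (H i1 i2 j1 j2 n0 j3 : Nat) : Bool :=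
  cond (Nat.ble 4 H) (cond (Nat.ble H 24) (cond (Nat.ble 10 i1) (cond (Nat.ble i1 40)
  (cond (Nat.ble 10 i2) (cond (Nat.ble i2 40) (cond (Nat.ble H i1) (cond (Nat.ble H i2)
  (cond (Nat.ble (Nat.succ (sT i1)) d.a0) (cond (Nat.ble (Nat.succ (sT i2)) d.b0)
  (cond (Nat.ble 2 j1) (cond (Nat.ble j1 18) (cond (Nat.ble 2 j2) (cond (Nat.ble j2 18)
  (cond (Nat.ble d.s1h (gT j1)) (cond (Nat.ble d.s2h (gT j2))
  (cond (Nat.ble j3 25) (cond (Nat.ble d.s3l (gT j3))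
  (cond (Nat.ble 1 (dT i1 j1)) (cond (Nat.ble 1 (dT i2 j2))
  (cond (fN (fun t => Nat.ble (sq' (Nat.sub 2097152 t)) (Nat.mul (Nat.mul 4 d.s3l) (Nat.sub t 1048576))) (tT n0))
  (Nat.ble (Nat.succ (Nat.add (Nat.mul 65536 n0) (Nat.mul (Nat.mul 2 H)
      (Nat.sub (mx' (lT i1 j1) (lT i2 j2)) (mT H j3))))) (Nat.mul 400 (Nat.add (dT i1 j1) (dT i2 j2))))
  false) false) false) false) false) false) false) false) false) false) false) false) false) false) false)
  false) false) false) false) false) false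

theorem log_zero (η r : ℝ) (hη : 0 < Real.sinh (Real.pi * η) ^ 2) :
    Real.log ((Sn r + Real.sinh (Real.pi * η) ^ 2) / Real.sinh (Real.pi * η) ^ 2) =
      2 * (Lg η r - Lg η 0) := by
  have h0 := Sn_nonneg r
  rw [Lg_eq_Lq, Lg_eq_Lq, Lq_eq, Lq_eq, Sn_zero, zero_add, Real.log_div (by positivity) hη.ne',
    Real.log_mul (by norm_num) (by positivity), Real.log_mul (by norm_num) hη.ne']
  ring

theorem log_half {η s r : ℝ} (hs : 0 ≤ s) (h : s ≤ Real.sinh (Real.pi * η) ^ 2) (hr : 0 < Sn r) :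
    2 * (Lg η (1 / 2) - Lg η r) ≤ Real.log ((1 + s) / (Sn r + s)) := by
  have h1 := Sn_le_one r
  rw [Lg_eq_Lq, Lg_eq_Lq, Lq_eq, Lq_eq, Sn_half]
  generalize Real.sinh (Real.pi * η) ^ 2 = S at *
  have hS : 0 ≤ S := hs.trans h
  have e : 2 * (Real.log (4 * (1 + S)) / 2 - Real.log (4 * (Sn r + S)) / 2) =
      Real.log ((1 + S) / (Sn r + S)) := by
    rw [Real.log_div (by positivity) (by positivity), Real.log_mul (by norm_num) (by positivity),
      Real.log_mul (by norm_num) (by positivity)]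
    ring
  rw [e]
  apply Real.log_le_log (by positivity)
  rw [div_le_div_iff₀ (by positivity) (by positivity)]
  nlinarith

theorem corN_sound {d : Dt} {p h q g : ℝ} {H i1 i2 j1 j2 n0 j3 : ℕ} (hd : DtOK d p h q g) (hP : Pos p q)
    (h1 : corN d H i1 i2 j1 j2 n0 j3 = true) :
    Cor (Real.sinh (Real.pi * h) ^ 2) (Real.sinh (Real.pi * g) ^ 2)
      (Real.sinh (Real.pi * (h + g)) ^ 2) p q ((H : ℝ) / 100) := by
  unfold corN at h1
  obtain ⟨g1, h1⟩ := cond_and h1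
  obtain ⟨g2, h1⟩ := cond_and h1
  obtain ⟨g3, h1⟩ := cond_and h1
  obtain ⟨g4, h1⟩ := cond_and h1
  obtain ⟨g5, h1⟩ := cond_and h1
  obtain ⟨g6, h1⟩ := cond_and h1
  obtain ⟨g7, h1⟩ := cond_and h1
  obtain ⟨g8, h1⟩ := cond_and h1
  obtain ⟨g9, h1⟩ := cond_and h1
  obtain ⟨g10, h1⟩ := cond_and h1
  obtain ⟨g11, h1⟩ := cond_and h1
  obtain ⟨g12, h1⟩ := cond_and h1
  obtain ⟨g13, h1⟩ := cond_and h1
  obtain ⟨g14, h1⟩ := cond_and h1
  obtain ⟨g15, h1⟩ := cond_and h1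
  obtain ⟨g16, h1⟩ := cond_and h1
  obtain ⟨g17, h1⟩ := cond_and h1
  obtain ⟨g18, h1⟩ := cond_and h1
  obtain ⟨g19, h1⟩ := cond_and h1
  obtain ⟨g20, h1⟩ := cond_and h1
  obtain ⟨g21, h1⟩ := cond_and h1
  replace g1 := Nat.le_of_ble_eq_true g1
  replace g2 := Nat.le_of_ble_eq_true g2
  replace g3 := Nat.le_of_ble_eq_true g3
  replace g4 := Nat.le_of_ble_eq_true g4
  replace g5 := Nat.le_of_ble_eq_true g5
  replace g6 := Nat.le_of_ble_eq_true g6
  replace g7 := Nat.le_of_ble_eq_true g7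
  replace g8 := Nat.le_of_ble_eq_true g8
  replace g11 := Nat.le_of_ble_eq_true g11
  replace g12 := Nat.le_of_ble_eq_true g12
  replace g13 := Nat.le_of_ble_eq_true g13
  replace g14 := Nat.le_of_ble_eq_true g14
  replace g15 := le_of_ble g15
  replace g16 := le_of_ble g16
  replace g17 := Nat.le_of_ble_eq_true g17
  replace g18 := le_of_ble g18
  replace g19 := Nat.le_of_ble_eq_true g19
  replace g20 := Nat.le_of_ble_eq_true g20
  rw [fN_eq] at g21
  replace g21 := le_of_ble g21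
  have g22 := lt_of_ble h1
  clear h1
  obtain ⟨hp, hp1, hq, hq1⟩ := hP
  have r1 := Sn_ge_of (by omega) g4 hp hp1 g9 hd.a0
  have r2 := Sn_ge_of (by omega) g6 hq hq1 g10 hd.b0
  have k1 := gT_ok (show j1 ≤ 25 by omega)
  have k2 := gT_ok (show j2 ≤ 25 by omega)
  have k3 := gT_ok g17
  have D1 := dT_ok g3 g4 g11 g12 g19
  have D2 := dT_ok g5 g6 g13 g14 g20
  have L1 := lT_ok g3 g4 g11 g12
  have L2 := lT_ok g5 g6 g13 g14
  have M := mT_ok g1 g2 g17
  have s1 := hd.s1h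
  have s2 := hd.s2h
  have s3 := hd.s3l
  obtain ⟨m1, m2⟩ := mx_ge (lT i1 j1) (lT i2 j2)
  have e3 : ∀ x y : ℕ, ((Nat.add x y : ℕ) : ℝ) = (x : ℝ) + y := fun x y => Nat.cast_add x y
  have e4 : ∀ x y : ℕ, ((Nat.mul x y : ℕ) : ℝ) = (x : ℝ) * y := fun x y => Nat.cast_mul x y
  have e5 : ((mx' (lT i1 j1) (lT i2 j2) : ℕ) : ℝ) - (mT H j3 : ℕ) ≤
      ((Nat.sub (mx' (lT i1 j1) (lT i2 j2)) (mT H j3) : ℕ) : ℝ) := by
    rcases sub_real (mx' (lT i1 j1) (lT i2 j2)) (mT H j3) with ⟨h, _⟩ | ⟨h, h'⟩ <;> rw [h] <;> linarith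
  have hH : (0 : ℝ) < (H : ℝ) / 100 := by
    have : (4 : ℝ) ≤ H := by exact_mod_cast g1
    positivity
  have hH1 : (H : ℝ) / 100 ≤ 1 / 2 := by
    have : (H : ℝ) ≤ 24 := by exact_mod_cast g2
    linarith
  have hHi1 : (H : ℝ) / 100 ≤ (i1 : ℝ) / 100 := by
    have : (H : ℝ) ≤ i1 := by exact_mod_cast g7
    linarith
  have hHi2 : (H : ℝ) / 100 ≤ (i2 : ℝ) / 100 := by
    have : (H : ℝ) ≤ i2 := by exact_mod_cast g8
    linarith
  have p1 : 0 < Real.sinh (Real.pi * ((j1 : ℝ) / 100)) ^ 2 := by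
    have h1 : (0 : ℝ) < j1 := by exact_mod_cast (show 0 < j1 by omega)
    have h2 : 0 < Real.sinh (Real.pi * ((j1 : ℝ) / 100)) := Real.sinh_pos_iff.2 (by positivity)
    positivity
  have p2 : 0 < Real.sinh (Real.pi * ((j2 : ℝ) / 100)) ^ 2 := by
    have h1 : (0 : ℝ) < j2 := by exact_mod_cast (show 0 < j2 by omega)
    have h2 : 0 < Real.sinh (Real.pi * ((j2 : ℝ) / 100)) := Real.sinh_pos_iff.2 (by positivity)
    positivity
  have hS3 : (0 : ℝ) ≤ (d.s3l : ℝ) / 1048576 := div_nonneg (Nat.cast_nonneg _) (by norm_num)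
  have z0 : Dq ((d.s3l : ℝ) / 1048576) (1 / 2) 0 ≤ (n0 : ℝ) / 200 := by
    apply half_zero (s := d.s3l) hS3 (by linarith)
    have := g21
    rw [sq_cast, e4, e4] at this
    push_cast at this
    exact this
  have hSn : 0 < Sn ((H : ℝ) / 100) := Sn_pos hH (by linarith)
  have z1 := Dq_half_h hS3 hH hH1 z0
  have z2 := log_half (η := (j3 : ℝ) / 100) (r := (H : ℝ) / 100) hS3 (by linarith) hSn
  have z3 : (H : ℝ) / 100 * ((mT H j3 : ℝ) / 65536) ≤ (H : ℝ) / 100 *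
      (Real.log ((1 + (d.s3l : ℝ) / 1048576) / (Sn ((H : ℝ) / 100) + (d.s3l : ℝ) / 1048576)) / 2) :=
    mul_le_mul_of_nonneg_left (by linarith) hH.le
  have l1 := log_zero _ ((i1 : ℝ) / 100) p1
  have l2 := log_zero _ ((i2 : ℝ) / 100) p2
  have m1' : ((lT i1 j1 : ℕ) : ℝ) ≤ (mx' (lT i1 j1) (lT i2 j2) : ℕ) := by exact_mod_cast m1
  have m2' : ((lT i2 j2 : ℕ) : ℝ) ≤ (mx' (lT i1 j1) (lT i2 j2) : ℕ) := by exact_mod_cast m2
  simp only [e3, e4] at g22
  push_cast at g22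
  intro p' q' hp' hq' hpq
  have q1 : 0 ≤ (H : ℝ) * ((Nat.sub (mx' (lT i1 j1) (lT i2 j2)) (mT H j3) : ℕ) : ℝ) :=
    mul_nonneg (Nat.cast_nonneg _) (Nat.cast_nonneg _)
  have q2 : (H : ℝ) * (((mx' (lT i1 j1) (lT i2 j2) : ℕ) : ℝ) - (mT H j3 : ℕ)) ≤
      (H : ℝ) * ((Nat.sub (mx' (lT i1 j1) (lT i2 j2)) (mT H j3) : ℕ) : ℝ) :=
    mul_le_mul_of_nonneg_left e5 (Nat.cast_nonneg _)
  unfold SS
  refine SS_corner2 (σ3 := (d.s3l : ℝ) / 1048576) (r1 := (i1 : ℝ) / 100) (r2 := (i2 : ℝ) / 100)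
    (σ1 := Real.sinh (Real.pi * ((j1 : ℝ) / 100)) ^ 2) (σ2 := Real.sinh (Real.pi * ((j2 : ℝ) / 100)) ^ 2)
    (h := (H : ℝ) / 100) (d1 := (dT i1 j1 : ℝ) / 65536) (d2 := (dT i2 j2 : ℝ) / 65536)
    (l := ((mx' (lT i1 j1) (lT i2 j2) : ℕ) : ℝ) / 65536) (w1 := 2) (w2 := 2) (e0 := (n0 : ℝ) / 200)
    (eh := (n0 : ℝ) / 200 - (H : ℝ) / 100 * ((mT H j3 : ℝ) / 65536)) (sq_nonneg _) (sq_nonneg _) hS3
    (by linarith) (by linarith) (by linarith) p1 p2 r1 r2 hp1 hq1 hHi1 hHi2 hH (by norm_num) (by norm_num)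
    D1 D2 (by rw [l1]; linarith) (by rw [l2]; linarith) z0 (by linarith) ?_ ?_ p' q' hp' hq' hpq
  · linarith
  · linarith

end Pool.Agent.S5.F
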