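import Pool.Agent.S5.I.F13

/-!
# Certificates of cells of closed nodes with two half twists
-/

set_option autoImplicit false

namespace Pool.Agent.S5.F

open Pool.Agent.S5.C2 Pool.Agent.S5.Num

/-- The bounds (units `1 / 1000`): modulus `lk0 .. lk1` and argument `lt0 .. lt1` of the left slot, modulus
`rk0 .. rk1` and argument `≤ rt1` of the right slot (an `A` edge if `a = 1`), modulus `nk0 .. nk1` of the
node; the left neighbour is an end with two half twists if `e = 1`. -/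
structure Pr where
  lk0 : ℕ
  lk1 : ℕ
  lt0 : ℕ
  lt1 : ℕ
  rk0 : ℕ
  rk1 : ℕ
  rt1 : ℕ
  nk0 : ℕ
  nk1 : ℕ
  e : ℕ
  a : ℕ

/-- What is known at the critical points. -/
structure Hyp (pr : Pr) (bl br k : ℂ) (w1 e1 w2 e2 : ℝ) : Prop where
  R1 : Rel bl w1 e1 w2 e2
  R2 : Rel br w2 e2 w1 e1
  RK : RelK k w1 e1 w2 e2
  E : pr.e = 1 → RelE bl w1 e1
  l_re : 0 < bl.re
  l_im : 0 ≤ bl.im
  l_lo : ((pr.lk0 : ℝ) / 1000) ^ 2 ≤ bl.re ^ 2 + bl.im ^ 2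
  l_hi : bl.re ^ 2 + bl.im ^ 2 ≤ ((pr.lk1 : ℝ) / 1000) ^ 2
  l_t0 : (pr.lt0 : ℝ) / 1000 * bl.re ≤ bl.im
  l_t1 : bl.im ≤ (pr.lt1 : ℝ) / 1000 * bl.re
  r_lo : ((pr.rk0 : ℝ) / 1000) ^ 2 ≤ br.re ^ 2 + br.im ^ 2
  r_hi : br.re ^ 2 + br.im ^ 2 ≤ ((pr.rk1 : ℝ) / 1000) ^ 2
  r_ar : pr.a = 1 → 0 < br.re ∧ 0 ≤ br.im ∧ br.im ≤ (pr.rt1 : ℝ) / 1000 * br.re
  k_lo : ((pr.nk0 : ℝ) / 1000) ^ 2 ≤ k.re ^ 2 + k.im ^ 2
  k_hi : k.re ^ 2 + k.im ^ 2 ≤ ((pr.nk1 : ℝ) / 1000) ^ 2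

/-- Exclusion of a cell. -/
def exN (pr : Pr) (s : ℕ) (l r : SB) : Bool :=
  cond (Nat.beq s 0) (exUp pr.lk0 l r)
  (cond (Nat.beq s 1) (exLo pr.lk1 l r)
  (cond (Nat.beq s 2) (exAr pr.lt1 l r)
  (cond (Nat.beq s 3) (cond (Nat.beq pr.e 1) (exEu l r) false)
  (cond (Nat.beq s 4) (cond (Nat.beq pr.e 1) (exEl l r) false)
  (cond (Nat.beq s 5) (exKu pr.nk0 l r)
  (cond (Nat.beq s 6) (exKl pr.nk1 l r)
  (cond (Nat.beq s 7) (exUp pr.rk0 r l)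
  (cond (Nat.beq s 8) (exLo pr.rk1 r l)
  (cond (Nat.beq s 9) (cond (Nat.beq pr.a 1) (exAr pr.rt1 r l) false)
  (cond (Nat.beq s 10) (exLc pr.lk1 l r)
  (cond (Nat.beq s 11) (exUc pr.lk0 l r)
  (cond (Nat.beq s 12) (exLc pr.rk1 r l)
  (cond (Nat.beq s 13) (exUc pr.rk0 r l)
    (exAl pr.lt0 l r))))))))))))))

theorem cond_cases {b x y : Bool} (h : cond b x y = true) : (b = true ∧ x = true) ∨ (b = false ∧ y = true) := by
  cases b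
  · exact Or.inr ⟨rfl, h⟩
  · exact Or.inl ⟨rfl, h⟩

theorem exN_sound {pr : Pr} {s : ℕ} {l r : SB} {bl br k : ℂ} {w1 e1 w2 e2 : ℝ} (h : exN pr s l r = true)
    (hl : SBOK l w1 e1) (hr : SBOK r w2 e2) (hw : 0 < w1) (he : 0 < e1) (hw2 : 0 < w2) (he2 : 0 < e2)
    (H : Hyp pr bl br k w1 e1 w2 e2) : False := by
  unfold exN at h
  rcases cond_cases h with ⟨_, h⟩ | ⟨_, h⟩
  · exact exUp_sound h hl hr hw he H.R1 H.l_lo
  rcases cond_cases h with ⟨_, h⟩ | ⟨_, h⟩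
  · exact exLo_sound h hl hr hw he H.R1 H.l_hi
  rcases cond_cases h with ⟨_, h⟩ | ⟨_, h⟩
  · exact exAr_sound h hl hr H.R1 H.l_re H.l_im H.l_t1
  rcases cond_cases h with ⟨_, h⟩ | ⟨_, h⟩
  · obtain ⟨h1, h⟩ := cond_and h
    exact exEu_sound h hl hr hw he H.R1 (H.E (Nat.eq_of_beq_eq_true h1))
  rcases cond_cases h with ⟨_, h⟩ | ⟨_, h⟩
  · obtain ⟨h1, h⟩ := cond_and h
    exact exEl_sound h hl hr hw he H.R1 (H.E (Nat.eq_of_beq_eq_true h1))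
  rcases cond_cases h with ⟨_, h⟩ | ⟨_, h⟩
  · exact exKu_sound h hl hr hw he hw2 he2 H.RK H.k_lo
  rcases cond_cases h with ⟨_, h⟩ | ⟨_, h⟩
  · exact exKl_sound h hl hr hw he hw2 he2 H.RK H.k_hi
  rcases cond_cases h with ⟨_, h⟩ | ⟨_, h⟩
  · exact exUp_sound h hr hl hw2 he2 H.R2 H.r_lo
  rcases cond_cases h with ⟨_, h⟩ | ⟨_, h⟩
  · exact exLo_sound h hr hl hw2 he2 H.R2 H.r_hi
  rcases cond_cases h with ⟨_, h⟩ | ⟨_, h⟩
  · obtain ⟨h1, h⟩ := cond_and h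
    obtain ⟨a1, a2, a3⟩ := H.r_ar (Nat.eq_of_beq_eq_true h1)
    exact exAr_sound h hr hl H.R2 a1 a2 a3
  rcases cond_cases h with ⟨_, h⟩ | ⟨_, h⟩
  · exact exLc_sound h hl hr hw he H.R1 H.l_hi
  rcases cond_cases h with ⟨_, h⟩ | ⟨_, h⟩
  · exact exUc_sound h hl hr hw he H.R1 H.l_lo
  rcases cond_cases h with ⟨_, h⟩ | ⟨_, h⟩
  · exact exLc_sound h hr hl hw2 he2 H.R2 H.r_hi
  rcases cond_cases h with ⟨_, h⟩ | ⟨_, h⟩
  · exact exUc_sound h hr hl hw2 he2 H.R2 H.r_lo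
  · exact exAl_sound h hl hr H.R1 H.l_re H.l_t0

/-- Reads a digit. -/
def tk (n z : ℕ) (k : ℕ → ℕ → Bool) : Bool := fN (fun a => fN (fun z => k a z) (Nat.div z n)) (Nat.mod z n)

theorem tk_eq (n z : ℕ) (k : ℕ → ℕ → Bool) : tk n z k = k (Nat.mod z n) (Nat.div z n) := by
  unfold tk
  rw [fN_eq, fN_eq]

/-- The last step of the criterion. -/
def ctN (t : ℕ) (d : Dt) (vl z : ℕ) (k : ℕ → Bool) : Bool :=
  cond (Nat.ble t 4)
    (tk 4096 z (fun x z => tk 2048 z (fun u z => tk 2048 z (fun v z =>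
      cond (tC d vl (Nat.succ vl) x u v) (k z) false))))
    (tk 2048 z (fun u z => cond (cond (Nat.ble t 5)
        (tR d.a0 d.s1h d.b0 d.b1 d.s2l d.s2h d.f0 d.f1 d.s3l vl (Nat.succ vl) u)
        (tR d.b0 d.s2h d.a0 d.a1 d.s1l d.s1h d.f0 d.f1 d.s3l vl (Nat.succ vl) u)) (k z) false))

/-- The criterion on a cell. -/
def crN (t : ℕ) (c : Cl) (z : ℕ) (k : ℕ → Bool) : Bool :=
  withDt c (fun d => cond (kcN d)
    (tk 32 z (fun H z => tk 64 z (fun i1 z => tk 64 z (fun i2 z => tk 32 z (fun j1 z => tk 32 z (fun j2 z =>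
      tk 128 z (fun n0 z => tk 32 z (fun j3 z =>
        cond (corN d H i1 i2 j1 j2 n0 j3) (fN (fun vl => ctN t d vl z k) (sT H)) false)))))))) false)

/-- The exclusion of a cell. -/
def xcN (pr : Pr) (c : Cl) (z : ℕ) (k : ℕ → Bool) : Bool :=
  withSb c.a c.a' c.b c.b' (fun l => withSb c.c c.c' c.d c.d' (fun r => tk 16 z (fun s z =>
    cond (exN pr s l r) (k z) false)))

/-- The leaves. -/
def leafN (pr : Pr) (t : ℕ) (c : Cl) (z : ℕ) (k : ℕ → Bool) : Bool :=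
  cond (Nat.ble t 6) (crN t c z k) (xcN pr c z k)

theorem ctN_next {t : ℕ} {d : Dt} {vl z : ℕ} {kk : ℕ → Bool} (h1 : ctN t d vl z kk = true) :
    ∃ z', kk z' = true := by
  unfold ctN at h1
  simp only [tk_eq] at h1
  rcases cond_cases h1 with ⟨_, h1⟩ | ⟨_, h1⟩
  · exact ⟨_, (cond_and h1).2⟩
  · exact ⟨_, (cond_and h1).2⟩

theorem ctN_sound {t : ℕ} {d : Dt} {H z : ℕ} {kk : ℕ → Bool} {p h q g : ℝ} (hd : DtOK d p h q g) (hP : Pos p q)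
    (hK : KC (Real.sinh (Real.pi * h) ^ 2) (Real.sinh (Real.pi * g) ^ 2) p q) (H4 : 4 ≤ H) (H24 : H ≤ 24)
    (ha : 0 < d.a0) (hb : 0 < d.b0) (h1 : ctN t d (sT H) z kk = true)
    (hC : Cor (Real.sinh (Real.pi * h) ^ 2) (Real.sinh (Real.pi * g) ^ 2)
      (Real.sinh (Real.pi * (h + g)) ^ 2) p q ((H : ℝ) / 100)) :
    Sq22 (Real.sinh (Real.pi * h) ^ 2) (Real.sinh (Real.pi * g) ^ 2)
      (Real.sinh (Real.pi * (h + g)) ^ 2) p q := by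
  obtain ⟨v0, v1⟩ := sT_ok H4 (show H ≤ 40 by omega)
  have v1' : 1048576 * Sn ((H : ℝ) / 100) ≤ ((Nat.succ (sT H) : ℕ) : ℝ) := by
    rw [Nat.cast_succ]
    exact v1
  have hH0 : (0 : ℝ) ≤ (H : ℝ) / 100 := by positivity
  have hH1 : (H : ℝ) / 100 ≤ 1 / 2 := by
    have : (H : ℝ) ≤ 24 := by exact_mod_cast H24
    linarith
  unfold ctN at h1
  simp only [tk_eq] at h1
  rcases cond_cases h1 with ⟨_, h1⟩ | ⟨_, h1⟩
  · obtain ⟨h2, h3⟩ := cond_and h1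
    exact tC_sound hd hP hK hH0 hH1 v0 v1' h2 hC
  · obtain ⟨h2, h3⟩ := cond_and h1
    rcases cond_cases h2 with ⟨_, h2⟩ | ⟨_, h2⟩
    · exact tR_sound (sq_nonneg _) (sq_nonneg _) hP hK hH0 hH1 v0 v1' hd.a0 hd.s1h hd.b0 hd.b1 hd.s2l hd.s2h
        hd.f0 hd.f1 hd.s3l ha hb h2 hC
    · apply Sq22.swap
      refine tR_sound (sq_nonneg _) (sq_nonneg _) hP.swap hK.swap hH0 hH1 v0 v1' hd.b0 hd.s2h hd.a0 hd.a1
        hd.s1l hd.s1h ?_ ?_ hd.s3l hb ha h2 hC.swap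
      · rw [add_comm]
        exact hd.f0
      · rw [add_comm]
        exact hd.f1

theorem kcN_pos {d : Dt} (h : kcN d = true) : 0 < d.a0 ∧ 0 < d.b0 := by
  unfold kcN at h
  rw [fN_eq] at h
  obtain ⟨h1, h⟩ := cond_and h
  obtain ⟨h2, h⟩ := cond_and h
  exact ⟨Nat.le_of_ble_eq_true h1, Nat.le_of_ble_eq_true h2⟩

theorem corN_H {d : Dt} {H i1 i2 j1 j2 n0 j3 : ℕ} (h : corN d H i1 i2 j1 j2 n0 j3 = true) : 4 ≤ H ∧ H ≤ 24 := by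
  unfold corN at h
  obtain ⟨h1, h⟩ := cond_and h
  obtain ⟨h2, h⟩ := cond_and h
  exact ⟨Nat.le_of_ble_eq_true h1, Nat.le_of_ble_eq_true h2⟩

theorem crN_sound {t : ℕ} {c : Cl} {z : ℕ} {kk : ℕ → Bool} (h1 : crN t c z kk = true) :
    (∀ p h q g, c.Mem p h q g → Pos p q → Sq22 (Real.sinh (Real.pi * h) ^ 2) (Real.sinh (Real.pi * g) ^ 2)
      (Real.sinh (Real.pi * (h + g)) ^ 2) p q) ∧ ∃ z', kk z' = true := by
  unfold crN at h1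
  rw [withDt_eq] at h1
  obtain ⟨h2, h1⟩ := cond_and h1
  simp only [tk_eq, fN_eq] at h1
  obtain ⟨h3, h1⟩ := cond_and h1
  refine ⟨?_, ctN_next h1⟩
  intro p h q g hM hP
  have hd := dt_ok hP.hp0 hP.hp1 hP.hq0 hP.hq1 hM
  have hK := kcN_sound hd h2
  have hC := corN_sound hd hP h3
  obtain ⟨ha, hb⟩ := kcN_pos h2
  obtain ⟨H4, H24⟩ := corN_H h3
  exact ctN_sound hd hP hK H4 H24 ha hb h1 hC

theorem xcN_sound {pr : Pr} {c : Cl} {z : ℕ} {kk : ℕ → Bool} (h1 : xcN pr c z kk = true) :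
    (∀ x1 x2 x3 x4, c.In x1 x2 x3 x4 → ∀ bl br k : ℂ, Hyp pr bl br k x1 x2 x3 x4 → False) ∧
      ∃ z', kk z' = true := by
  unfold xcN at h1
  obtain ⟨a1, h1⟩ := withSb_sound h1
  obtain ⟨a2, h1⟩ := withSb_sound h1
  rw [tk_eq] at h1
  obtain ⟨h2, h3⟩ := cond_and h1
  refine ⟨?_, _, h3⟩
  intro x1 x2 x3 x4 hx bl br k H
  obtain ⟨⟨m1, m2, m3, m4⟩, b1, b2, b3, b4, b5, b6, b7, b8⟩ := hx
  have s1 := sb_ok m1 b1 b2 b3 b4 a1
  have s2 := sb_ok m2 b5 b6 b7 b8 a2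
  have c1 : (0 : ℝ) < c.a := by exact_mod_cast a1.w
  have c2 : (0 : ℝ) < c.b := by exact_mod_cast m3
  have c3 : (0 : ℝ) < c.c := by exact_mod_cast a2.w
  have c4 : (0 : ℝ) < c.d := by exact_mod_cast m4
  exact exN_sound h2 s1 s2 (by linarith) (by linarith) (by linarith) (by linarith) H

/-- The statement proved on a cell. -/
def Good (pr : Pr) (x1 x2 x3 x4 : ℝ) : Prop :=
  ∀ p h q g : ℝ, ∀ bl br k : ℂ, x1 = tw p → x2 = ex h → x3 = tw q → x4 = ex g → Pos p q →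
    Hyp pr bl br k x1 x2 x3 x4 → Sq22 (Real.sinh (Real.pi * h) ^ 2) (Real.sinh (Real.pi * g) ^ 2)
      (Real.sinh (Real.pi * (h + g)) ^ 2) p q

theorem leafN_sound (pr : Pr) (t : ℕ) (c : Cl) (z : ℕ) (kk : ℕ → Bool) (h1 : leafN pr t c z kk = true) :
    (∀ x1 x2 x3 x4, c.In x1 x2 x3 x4 → Good pr x1 x2 x3 x4) ∧ ∃ z', kk z' = true := by
  unfold leafN at h1
  rcases cond_cases h1 with ⟨_, h1⟩ | ⟨_, h1⟩
  · obtain ⟨h2, h3⟩ := crN_sound h1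
    refine ⟨?_, h3⟩
    intro x1 x2 x3 x4 hx p h q g bl br k e1 e2 e3 e4 hP H
    subst e1 e2 e3 e4
    exact h2 p h q g hx hP
  · obtain ⟨h2, h3⟩ := xcN_sound h1
    refine ⟨?_, h3⟩
    intro x1 x2 x3 x4 hx p h q g bl br k e1 e2 e3 e4 hP H
    exact (h2 x1 x2 x3 x4 hx bl br k H).elim

/-- **A certificate.** -/
def certN (pr : Pr) (n : ℕ) (c : Cl) (z : ℕ) : Bool :=
  run (leafN pr) n c z (fun z => Nat.beq z 0)

theorem certN_sound {pr : Pr} {n : ℕ} {c : Cl} {z : ℕ} (h : certN pr n c z = true) {p h' q g : ℝ}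
    {bl br k : ℂ} (hM : c.Mem p h' q g) (hP : Pos p q) (H : Hyp pr bl br k (tw p) (ex h') (tw q) (ex g)) :
    Sq22 (Real.sinh (Real.pi * h') ^ 2) (Real.sinh (Real.pi * g) ^ 2)
      (Real.sinh (Real.pi * (h' + g)) ^ 2) p q :=
  (run_sound (P := Good pr) (leafN_sound pr) n c z _ h).1 _ _ _ _ hM p h' q g bl br k rfl rfl rfl rfl hP H

end Pool.Agent.S5.F
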