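import Pool.Agent.S5.I.F14
import Pool.Agent.S5.I.C2m

/-!
# Closed nodes with two half twists: the strips `p ≥ 1 / 2`, `q ≥ 1 / 2`
-/

set_option autoImplicit false

namespace Pool.Agent.S5.F

open Pool.Agent.S5.C2 Pool.Agent.S5.Num

/-- The condition `Fi > 0`: `a` upper bound of `sin²`, `sl ≤ s ≤ sh`, `f` lower bound of
`sin π (p + q)`, `rl ≤ s3 ≤ rh` (units `2^(-20)`). -/
def tFi (a sl sh f rl rh : ℕ) : Bool :=
  cond (Nat.ble sh 524288)
    (Nat.blt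
      (Nat.mul (fN (fun m => Nat.mul m m) (fN (fun m => Nat.mul m m) (Nat.add a sh)))
        (Nat.mul (Nat.mul (Nat.add 524288 rh) (Nat.add 894960 rh)) 1099511627776))
      (Nat.mul
        (fN (fun m => Nat.mul m m) (Nat.mul (Nat.add 524288 sl) (Nat.add 894959 sl)))
        (fN (fun m => Nat.mul m m) (Nat.add (Nat.mul f f) (Nat.mul 1048576 rl))))) false

theorem tFi_sound {a sl sh f rl rh : ℕ} {s s3 p P x : ℝ} (h : tFi a sl sh f rl rh = true)
    (hp : 0 < Sn p) (hP : 0 < Sn P) (hs : 0 ≤ s) (hs3 : 0 ≤ s3)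
    (ha : 1048576 * Sn p ≤ a) (hl : (sl : ℝ) ≤ 1048576 * s) (hh : 1048576 * s ≤ sh)
    (hf : (f : ℝ) ≤ 1048576 * x) (hx : Sn P = x ^ 2)
    (hrl : (rl : ℝ) ≤ 1048576 * s3) (hrh : 1048576 * s3 ≤ rh) : s ≤ 1 / 2 ∧ 0 < Fi s s3 p P := by
  unfold tFi at h
  obtain ⟨h1, h2⟩ := cond_and h
  have g1 : (sh : ℝ) ≤ 524288 := by exact_mod_cast Nat.le_of_ble_eq_true h1
  have g2 := lt_of_ble h2
  have e3 : ∀ x y : ℕ, ((Nat.add x y : ℕ) : ℝ) = (x : ℝ) + y := fun x y => Nat.cast_add x y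
  have e4 : ∀ x y : ℕ, ((Nat.mul x y : ℕ) : ℝ) = (x : ℝ) * y := fun x y => Nat.cast_mul x y
  simp only [fN_eq, e3, e4] at g2
  push_cast at g2
  have n1 : (0 : ℝ) ≤ sl := Nat.cast_nonneg _
  have n2 : (0 : ℝ) ≤ f := Nat.cast_nonneg _
  have n3 : (0 : ℝ) ≤ rl := Nat.cast_nonneg _
  generalize (a : ℝ) = A at *
  generalize (sl : ℝ) = L at *
  generalize (sh : ℝ) = H at *
  generalize (f : ℝ) = F at *
  generalize (rl : ℝ) = R at *
  generalize (rh : ℝ) = Q at *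
  refine ⟨by linarith, Fi_pos hs (by linarith) hs3 (by linarith) (by linarith) ?_⟩
  -- upper bound of the left side
  have u1 : 1048576 * (Sn p + s) ≤ A + H := by linarith
  have u2 : (1048576 * (Sn p + s)) ^ 4 ≤ (A + H) ^ 4 := pow_le_pow_left₀ (by positivity) u1 4
  have u3 : 1048576 * (1 / 2 + s3) ≤ 524288 + Q := by linarith
  have u4 : 1048576 * (0.8535 + s3) ≤ 894960 + Q := by linarith
  have u5 : (1048576 * (1 / 2 + s3)) * (1048576 * (0.8535 + s3)) ≤ (524288 + Q) * (894960 + Q) :=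
    mul_le_mul u3 u4 (by positivity) (by linarith)
  have u6 : (1048576 * (Sn p + s)) ^ 4 * ((1048576 * (1 / 2 + s3)) * (1048576 * (0.8535 + s3))) ≤
      (A + H) ^ 4 * ((524288 + Q) * (894960 + Q)) :=
    mul_le_mul u2 u5 (by positivity) (by positivity)
  -- lower bound of the right side
  have v1 : 524288 + L ≤ 1048576 * (1 / 2 + s) := by linarith
  have v2 : 894959 + L ≤ 1048576 * (0.8535 + s) := by linarith
  have v3 : (524288 + L) * (894959 + L) ≤ (1048576 * (1 / 2 + s)) * (1048576 * (0.8535 + s)) :=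
    mul_le_mul v1 v2 (by positivity) (by positivity)
  have v4 : ((524288 + L) * (894959 + L)) ^ 2 ≤
      ((1048576 * (1 / 2 + s)) * (1048576 * (0.8535 + s))) ^ 2 := pow_le_pow_left₀ (by positivity) v3 2
  have v5 : F ^ 2 ≤ (1048576 * x) ^ 2 := pow_le_pow_left₀ n2 hf 2
  have v6 : F * F + 1048576 * R ≤ 1048576 ^ 2 * (Sn P + s3) := by
    rw [hx]
    nlinarith
  have v7 : (F * F + 1048576 * R) ^ 2 ≤ (1048576 ^ 2 * (Sn P + s3)) ^ 2 :=
    pow_le_pow_left₀ (by positivity) v6 2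
  have v8 : ((524288 + L) * (894959 + L)) ^ 2 * (F * F + 1048576 * R) ^ 2 ≤
      ((1048576 * (1 / 2 + s)) * (1048576 * (0.8535 + s))) ^ 2 * (1048576 ^ 2 * (Sn P + s3)) ^ 2 :=
    mul_le_mul v4 v7 (by positivity) (by positivity)
  have w : 1048576 ^ 8 * ((Sn p + s) ^ 4 * ((1 / 2 + s3) * (0.8535 + s3))) <
      1048576 ^ 8 * (((1 / 2 + s) * (0.8535 + s)) ^ 2 * (Sn P + s3) ^ 2) := by
    have e1 : 1048576 ^ 8 * ((Sn p + s) ^ 4 * ((1 / 2 + s3) * (0.8535 + s3))) =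
        (1048576 * (Sn p + s)) ^ 4 * ((1048576 * (1 / 2 + s3)) * (1048576 * (0.8535 + s3))) *
          1099511627776 := by ring
    have e2 : 1048576 ^ 8 * (((1 / 2 + s) * (0.8535 + s)) ^ 2 * (Sn P + s3) ^ 2) =
        ((1048576 * (1 / 2 + s)) * (1048576 * (0.8535 + s))) ^ 2 * (1048576 ^ 2 * (Sn P + s3)) ^ 2 := by
      ring
    rw [e1, e2]
    refine lt_of_le_of_lt (mul_le_mul_of_nonneg_right u6 (by norm_num)) (lt_of_lt_of_le ?_ v8)
    have e3 : (A + H) ^ 4 * ((524288 + Q) * (894960 + Q)) * 1099511627776 =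
      (A + H) * (A + H) * ((A + H) * (A + H)) * ((524288 + Q) * (894960 + Q) * 1099511627776) := by ring
    have e4 : ((524288 + L) * (894959 + L)) ^ 2 * (F * F + 1048576 * R) ^ 2 =
      (524288 + L) * (894959 + L) * ((524288 + L) * (894959 + L)) *
        ((F * F + 1048576 * R) * (F * F + 1048576 * R)) := by ring
    rw [e3, e4]
    exact g2
  exact lt_of_mul_lt_mul_left w (by positivity)

/-- Both conditions on a cell. -/
def fiN (c : Cl) : Bool :=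
  withDt c (fun d => cond (tFi d.a1 d.s1l d.s1h d.f0 d.s3l d.s3h) (tFi d.b1 d.s2l d.s2h d.f0 d.s3l d.s3h) false)

/-- Both conditions. -/
structure FiB (p h q g : ℝ) : Prop where
  s1 : Real.sinh (Real.pi * h) ^ 2 ≤ 1 / 2
  s2 : Real.sinh (Real.pi * g) ^ 2 ≤ 1 / 2
  f1 : 0 < Fi (Real.sinh (Real.pi * h) ^ 2) (Real.sinh (Real.pi * (h + g)) ^ 2) p (p + q)
  f2 : 0 < Fi (Real.sinh (Real.pi * g) ^ 2) (Real.sinh (Real.pi * (h + g)) ^ 2) q (p + q)

theorem fiN_sound {c : Cl} {p h q g : ℝ} (h1 : fiN c = true) (hM : c.Mem p h q g) (hP : Pos p q) :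
    FiB p h q g := by
  unfold fiN at h1
  rw [withDt_eq] at h1
  obtain ⟨h2, h3⟩ := cond_and h1
  have hd := dt_ok hP.hp0 hP.hp1 hP.hq0 hP.hq1 hM
  obtain ⟨p0, p1, q0, q1⟩ := hP
  have k1 := Sn_pos p0 (by linarith)
  have k2 := Sn_pos q0 (by linarith)
  have k3 := Sn_pos (t := p + q) (by linarith) (by linarith)
  have r1 := tFi_sound h2 k1 k3 (sq_nonneg _) (sq_nonneg _) hd.a1 hd.s1l hd.s1h hd.f0 rfl hd.s3l hd.s3h
  have r2 := tFi_sound h3 k2 k3 (sq_nonneg _) (sq_nonneg _) hd.b1 hd.s2l hd.s2h hd.f0 rfl hd.s3l hd.s3h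
  exact ⟨r1.1, r2.1, r1.2, r2.2⟩

/-! ### The argument, without a condition on the real part of the sum -/

theorem arg_upG {b l L : ℂ} {t P Q y0 u : ℝ} (h : (b * l) ^ 2 * (2 - L) = L) (hb : 0 < b.re)
    (hb1 : 0 ≤ b.im) (ht : b.im ≤ t * b.re) (ht0 : 0 ≤ t) {τ : ℝ} (hτ0 : 0 ≤ τ) (hl : 0 < l.re) (hl1 : 0 ≤ l.im)
    (hl2 : l.im ≤ τ * l.re) (htτ : t * τ ≤ 1) (hP : P = 1 - t * τ) (hQ : Q = t + τ) (hy0 : 0 < y0)
    (hy : y0 ≤ L.im) (hu : L.re * (2 - L.re) ≤ u)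
    (c1 : Q ^ 2 ≤ P ^ 2 + 2 * P * Q * y0)
    (c2 : y0 * Q ^ 2 + P * Q * u < y0 * P ^ 2 + P * Q * y0 ^ 2) : False := by
  have x1 : 0 < b.re + t * b.im := by positivity
  have i1 : b.im - t * b.re ≤ 0 := by linarith
  have x2 : 0 < l.re + τ * l.im := by positivity
  have i2 : l.im - τ * l.re ≤ 0 := by linarith
  have j1 : -(t * (b.re + t * b.im)) ≤ b.im - t * b.re := by nlinarith [mul_nonneg (mul_nonneg ht0 ht0) hb1]
  have j2 : -(τ * (l.re + τ * l.im)) ≤ l.im - τ * l.re := by nlinarith [mul_nonneg (mul_nonneg hτ0 hτ0) hl1]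
  set r1 := b.re + t * b.im
  set s1 := b.im - t * b.re
  set r2 := l.re + τ * l.im
  set s2 := l.im - τ * l.re
  have re0 : 0 ≤ r1 * r2 - s1 * s2 := by
    have a1 : s1 * s2 ≤ (t * r1) * (τ * r2) := by
      have b1 : -s1 ≤ t * r1 := by linarith
      have b2 : -s2 ≤ τ * r2 := by linarith
      have := mul_le_mul b1 b2 (by linarith) (by positivity)
      nlinarith
    have a2 : (t * r1) * (τ * r2) ≤ r1 * r2 := by
      have : (t * τ) * (r1 * r2) ≤ 1 * (r1 * r2) := mul_le_mul_of_nonneg_right htτ (by positivity)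
      nlinarith
    linarith
  have im0 : r1 * s2 + s1 * r2 ≤ 0 := by
    have a1 : r1 * s2 ≤ 0 := mul_nonpos_of_nonneg_of_nonpos x1.le i2
    have a2 : s1 * r2 ≤ 0 := mul_nonpos_of_nonpos_of_nonneg i1 x2.le
    linarith
  set G := b * l with hG
  have g1 : G.re * P + G.im * Q = r1 * r2 - s1 * s2 := by
    rw [hG, Complex.mul_re, Complex.mul_im, hP, hQ]
    ring
  have g2 : G.im * P - G.re * Q = r1 * s2 + s1 * r2 := by
    rw [hG, Complex.mul_re, Complex.mul_im, hP, hQ]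
    ring
  have z0 : (G.re * P + G.im * Q) * (G.im * P - G.re * Q) ≤ 0 := by
    rw [g1, g2]
    exact mul_nonpos_of_nonneg_of_nonpos re0 im0
  have hre := congrArg Complex.re h
  have him := congrArg Complex.im h
  have e1 : (G ^ 2).re = G.re ^ 2 - G.im ^ 2 := by rw [sq, Complex.mul_re]; ring
  have e2 : (G ^ 2).im = 2 * G.re * G.im := by rw [sq, Complex.mul_im]; ring
  rw [Complex.mul_re, e1, e2, Complex.sub_re, Complex.sub_im, Complex.re_ofNat, Complex.im_ofNat,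
    zero_sub] at hre
  rw [Complex.mul_im, e1, e2, Complex.sub_re, Complex.sub_im, Complex.re_ofNat, Complex.im_ofNat,
    zero_sub] at him
  set M := L.re
  set Y := L.im
  set N := (2 - M) ^ 2 + Y ^ 2 with hN
  have f1 : (G.re ^ 2 - G.im ^ 2) * N = M * (2 - M) - Y ^ 2 := by
    rw [hN]
    linear_combination (2 - M) * hre - Y * him
  have f2 : 2 * G.re * G.im * N = 2 * Y := by
    rw [hN]
    linear_combination Y * hre + (2 - M) * him
  have hYp : 0 < Y := by linarith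
  have hNp : 0 < N := by positivity
  have key : (2 * ((G.re * P + G.im * Q) * (G.im * P - G.re * Q))) * N =
      2 * Y * (P ^ 2 - Q ^ 2) - 2 * P * Q * (M * (2 - M) - Y ^ 2) := by
    linear_combination (P ^ 2 - Q ^ 2) * f2 - 2 * P * Q * f1
  have k1 : Y * (P ^ 2 - Q ^ 2) - P * Q * (M * (2 - M) - Y ^ 2) ≤ 0 := by
    have : (2 * ((G.re * P + G.im * Q) * (G.im * P - G.re * Q))) * N ≤ 0 :=
      mul_nonpos_of_nonpos_of_nonneg (by linarith) hNp.le
    rw [key] at this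
    linarith
  have hP0 : 0 ≤ P := by linarith
  have hQ0 : 0 ≤ Q := by linarith
  have hPQ : 0 ≤ P * Q := mul_nonneg hP0 hQ0
  have k3 : P * Q * (M * (2 - M)) ≤ P * Q * u := mul_le_mul_of_nonneg_left hu hPQ
  have k4 : 0 ≤ (Y - y0) * ((P ^ 2 - Q ^ 2) + P * Q * (Y + y0)) := by
    apply mul_nonneg (by linarith)
    have := mul_nonneg hPQ (sub_nonneg.2 hy)
    have e3 : P * Q * (Y + y0) = P * Q * (Y - y0) + 2 * P * Q * y0 := by ring
    linarith
  have e4 : (Y - y0) * ((P ^ 2 - Q ^ 2) + P * Q * (Y + y0)) =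
      Y * (P ^ 2 - Q ^ 2) + P * Q * Y ^ 2 - (y0 * P ^ 2 - y0 * Q ^ 2 + P * Q * y0 ^ 2) := by ring
  have e5 : P * Q * (M * (2 - M) - Y ^ 2) = P * Q * (M * (2 - M)) - P * Q * Y ^ 2 := by ring
  linarith

/-- Upper bound of `M (2 - M)`, units `2^(-40)`. -/
def uB (m0 m1 : ℕ) : ℕ :=
  cond (Nat.ble 1048576 m0) (Nat.mul m0 (Nat.sub 2097152 m0))
    (cond (Nat.ble m1 1048576) (Nat.mul m1 (Nat.sub 2097152 m1)) 1099511627776)

theorem sub_ge (a b : ℕ) : (a : ℝ) - b ≤ ((Nat.sub a b : ℕ) : ℝ) := by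
  have h : a ≤ (a - b) + b := by omega
  have h2 : (a : ℝ) ≤ (((a - b) + b : ℕ) : ℝ) := by exact_mod_cast h
  rw [Nat.cast_add] at h2
  show (a : ℝ) - b ≤ ((a - b : ℕ) : ℝ)
  linarith

theorem uB_ok {m0 m1 : ℕ} {M : ℝ} (h0 : (m0 : ℝ) ≤ 1048576 * M) (h1 : 1048576 * M ≤ m1) :
    1099511627776 * (M * (2 - M)) ≤ uB m0 m1 := by
  have n0 : (0 : ℝ) ≤ m0 := Nat.cast_nonneg _
  have n1 : (0 : ℝ) ≤ m1 := Nat.cast_nonneg _
  unfold uB
  cases hb : Nat.ble 1048576 m0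
  · rw [cond_false]
    cases hc : Nat.ble m1 1048576
    · rw [cond_false]
      push_cast
      nlinarith [sq_nonneg (M - 1)]
    · rw [cond_true]
      have k1 : (m1 : ℝ) ≤ 1048576 := by exact_mod_cast Nat.le_of_ble_eq_true hc
      have k2 := sub_ge 2097152 m1
      push_cast at k2
      have e : ((Nat.mul m1 (Nat.sub 2097152 m1) : ℕ) : ℝ) = (m1 : ℝ) * ((Nat.sub 2097152 m1 : ℕ) : ℝ) :=
        Nat.cast_mul _ _
      rw [e]
      have k3 := mul_le_mul_of_nonneg_left k2 n1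
      nlinarith [mul_nonneg (sub_nonneg.2 h1) (show 0 ≤ 2097152 - (1048576 * M + m1) by linarith)]
  · rw [cond_true]
    have k1 : (1048576 : ℝ) ≤ m0 := by exact_mod_cast Nat.le_of_ble_eq_true hb
    have k2 := sub_ge 2097152 m0
    push_cast at k2
    have e : ((Nat.mul m0 (Nat.sub 2097152 m0) : ℕ) : ℝ) = (m0 : ℝ) * ((Nat.sub 2097152 m0 : ℕ) : ℝ) :=
      Nat.cast_mul _ _
    rw [e]
    have k3 := mul_le_mul_of_nonneg_left k2 n0
    nlinarith [mul_nonneg (sub_nonneg.2 h0) (show 0 ≤ 1048576 * M + m0 - 2097152 by linarith)]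

/-- The argument is larger than `arctan (t1 / 1000)`. -/
def exAg (t1 : ℕ) (l r : SB) : Bool :=
  withS l r (fun m0 m1 y0 _ => cond (Nat.ble 1 y0)
    (cond (Nat.ble 4194305 l.m0) (fN (fun a =>
    (cond (Nat.ble (Nat.mul t1 l.y1) (Nat.mul 1000 a))
      (fN (fun P => fN (fun Q => fN (fun PQ => fN (fun PP => fN (fun QQ =>
        cond (Nat.ble (Nat.mul 1048576 QQ) (Nat.add (Nat.mul 1048576 PP) (Nat.mul 2 (Nat.mul PQ y0))))
          (Nat.ble (Nat.succ (Nat.add (Nat.mul (Nat.mul 1048576 y0) QQ)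
              (Nat.mul PQ (uB m0 m1))))
            (Nat.add (Nat.mul (Nat.mul 1048576 y0) PP) (Nat.mul PQ (sq' y0)))) false)
        (sq' Q)) (sq' P)) (Nat.mul P Q))
        (Nat.add (Nat.mul 1000 l.y1) (Nat.mul t1 a)))
        (Nat.sub (Nat.mul 1000 a) (Nat.mul t1 l.y1))) false)) (Nat.sub l.m0 4194304)) false) false)

theorem exAg_sound {t1 : ℕ} {l r : SB} {b : ℂ} {w1 e1 w2 e2 : ℝ} (h : exAg t1 l r = true)
    (hl : SBOK l w1 e1) (hr : SBOK r w2 e2)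
    (hR : Rel b w1 e1 w2 e2) (hre : 0 < b.re) (him : 0 ≤ b.im) (har : b.im ≤ (t1 : ℝ) / 1000 * b.re) :
    False := by
  unfold exAg at h
  obtain ⟨m0, m1, y0, y1, h, hs⟩ := withS_sound hl hr h
  obtain ⟨h2, h⟩ := cond_and h
  obtain ⟨h5, h⟩ := cond_and h
  simp only [fN_eq] at h
  obtain ⟨h3, h⟩ := cond_and h
  obtain ⟨h4, h⟩ := cond_and h
  have a2 := le_of_ble h2
  have n5 : 4194305 ≤ l.m0 := Nat.le_of_ble_eq_true h5
  have ea : ((Nat.sub l.m0 4194304 : ℕ) : ℝ) = (l.m0 : ℝ) - 4194304 := by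
    show ((l.m0 - 4194304 : ℕ) : ℝ) = _
    rw [Nat.cast_sub (by omega)]
    push_cast
    ring
  have ea1 : (1 : ℝ) ≤ ((Nat.sub l.m0 4194304 : ℕ) : ℝ) := by
    have : 1 ≤ Nat.sub l.m0 4194304 := by
      show 1 ≤ l.m0 - 4194304
      omega
    exact_mod_cast this
  generalize Nat.sub l.m0 4194304 = an at ea ea1 h3 h4 h
  have a3 := le_of_ble h3
  have n3 : t1 * l.y1 ≤ 1000 * an := Nat.le_of_ble_eq_true h3
  have a4 := le_of_ble h4
  have a5 := lt_of_ble h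
  have e3 : ∀ x y : ℕ, ((Nat.add x y : ℕ) : ℝ) = (x : ℝ) + y := fun x y => Nat.cast_add x y
  have e4 : ∀ x y : ℕ, ((Nat.mul x y : ℕ) : ℝ) = (x : ℝ) * y := fun x y => Nat.cast_mul x y
  have eP : ((Nat.sub (Nat.mul 1000 an) (Nat.mul t1 l.y1) : ℕ) : ℝ) = 1000 * an - t1 * l.y1 := by
    show ((1000 * an - t1 * l.y1 : ℕ) : ℝ) = _
    rw [Nat.cast_sub n3]
    push_cast
    ring
  have q2 := hs.y0
  have hU := uB_ok hs.m0 hs.m1
  simp only [e3, e4, sq_cast, eP] at a2 a3 a4 a5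
  have hyl : (1048576 : ℝ) * YF w1 e1 ≤ l.y1 := hl.y1
  have hyl0 := hl.y0
  have hml := hl.m0
  clear hs hl hr h2 h3 h4 h5 h n3 n5 eP e3 e4
  generalize ((uB m0 m1 : ℕ) : ℝ) = U at hU a5
  set y := ((y0 : ℕ) : ℝ) with hy
  set a := (an : ℝ) with ha
  set c := (l.y1 : ℝ) with hc
  have hc0 : 0 ≤ c := Nat.cast_nonneg _
  have ht0 : (0 : ℝ) ≤ t1 := Nat.cast_nonneg _
  have hm0 : 0 < a := by linarith
  have hml' : a ≤ 1048576 * MF w1 e1 := by linarith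
  have hMl : 0 < MF w1 e1 := by linarith
  have hYl : 0 ≤ YF w1 e1 := by
    have : (0 : ℝ) ≤ l.y0 := Nat.cast_nonneg _
    linarith
  have hτ : YF w1 e1 ≤ c / a * MF w1 e1 := by
    rw [div_mul_eq_mul_div, le_div_iff₀ hm0]
    calc YF w1 e1 * a ≤ YF w1 e1 * (1048576 * MF w1 e1) := mul_le_mul_of_nonneg_left hml' hYl
      _ = (1048576 * YF w1 e1) * MF w1 e1 := by ring
      _ ≤ c * MF w1 e1 := mul_le_mul_of_nonneg_right hyl hMl.le
  push_cast at a2 a3 a4 a5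
  have hyp : (1 : ℝ) ≤ y := a2
  have P0 : (0 : ℝ) ≤ 1000 * a - t1 * c := by linarith
  have Q0 : (0 : ℝ) ≤ 1000 * c + t1 * a := by positivity
  refine arg_upG (t := (t1 : ℝ) / 1000) (τ := c / a) (y0 := y / 1048576) (u := U / 1099511627776) hR hre him har
    (by positivity) (by positivity) hMl hYl hτ ?_ rfl rfl (by positivity) ?_ ?_ ?_ ?_
  · rw [div_mul_div_comm, div_le_one (by positivity)]
    linarith
  · rw [Complex.add_im]
    show y / 1048576 ≤ YF w1 e1 + YF w2 e2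
    linarith
  · rw [Complex.add_re]
    show (MF w1 e1 + MF w2 e2) * (2 - (MF w1 e1 + MF w2 e2)) ≤ U / 1099511627776
    rw [le_div_iff₀ (by norm_num)]
    linarith
  · have e5 : 1 - (t1 : ℝ) / 1000 * (c / a) = (1000 * a - t1 * c) / (1000 * a) := by
      field_simp
    have e6 : (t1 : ℝ) / 1000 + c / a = (1000 * c + t1 * a) / (1000 * a) := by
      field_simp
      ring
    rw [e5, e6]
    set P := 1000 * a - t1 * c
    set Q := 1000 * c + t1 * a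
    have e7 : (Q / (1000 * a)) ^ 2 = (1048576 * Q ^ 2) / (1048576 * (1000 * a) ^ 2) := by
      field_simp
    have e8 : (P / (1000 * a)) ^ 2 + 2 * (P / (1000 * a)) * (Q / (1000 * a)) * (y / 1048576) =
        (1048576 * P ^ 2 + 2 * (P * Q * y)) / (1048576 * (1000 * a) ^ 2) := by
      field_simp
    rw [e7, e8]
    apply div_le_div_of_nonneg_right _ (by positivity)
    linarith
  · have e5 : 1 - (t1 : ℝ) / 1000 * (c / a) = (1000 * a - t1 * c) / (1000 * a) := by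
      field_simp
    have e6 : (t1 : ℝ) / 1000 + c / a = (1000 * c + t1 * a) / (1000 * a) := by
      field_simp
      ring
    rw [e5, e6]
    set P := 1000 * a - t1 * c
    set Q := 1000 * c + t1 * a
    have e7 : y / 1048576 * (Q / (1000 * a)) ^ 2 +
        P / (1000 * a) * (Q / (1000 * a)) * (U / 1099511627776) =
        (1048576 * y * Q ^ 2 + P * Q * U) / (1048576 ^ 2 * (1000 * a) ^ 2) := by
      field_simp
      ring
    have e8 : y / 1048576 * (P / (1000 * a)) ^ 2 +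
        P / (1000 * a) * (Q / (1000 * a)) * (y / 1048576) ^ 2 =
        (1048576 * y * P ^ 2 + P * Q * y ^ 2) / (1048576 ^ 2 * (1000 * a) ^ 2) := by
      field_simp
    rw [e7, e8]
    apply div_lt_div_of_pos_right _ (by positivity)
    linarith

/-- The exclusion of a cell by the argument. -/
def xgN (pr : Pr) (t : ℕ) (c : Cl) : Bool :=
  withSb c.a c.a' c.b c.b' (fun l => withSb c.c c.c' c.d c.d' (fun r =>
    cond (Nat.ble t 5) (exAg pr.lt1 l r) (cond (Nat.beq pr.a 1) (exAg pr.rt1 r l) false)))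

theorem xgN_sound {pr : Pr} {t : ℕ} {c : Cl} (h1 : xgN pr t c = true) :
    ∀ x1 x2 x3 x4, c.In x1 x2 x3 x4 → ∀ bl br k : ℂ, Hyp pr bl br k x1 x2 x3 x4 → False := by
  unfold xgN at h1
  obtain ⟨a1, h1⟩ := withSb_sound h1
  obtain ⟨a2, h1⟩ := withSb_sound h1
  intro x1 x2 x3 x4 hx bl br k H
  obtain ⟨⟨m1, m2, m3, m4⟩, b1, b2, b3, b4, b5, b6, b7, b8⟩ := hx
  have s1 := sb_ok m1 b1 b2 b3 b4 a1
  have s2 := sb_ok m2 b5 b6 b7 b8 a2
  rcases cond_cases h1 with ⟨_, h1⟩ | ⟨_, h1⟩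
  · exact exAg_sound h1 s1 s2 H.R1 H.l_re H.l_im H.l_t1
  · obtain ⟨g1, h1⟩ := cond_and h1
    obtain ⟨a1, a2, a3⟩ := H.r_ar (Nat.eq_of_beq_eq_true g1)
    exact exAg_sound h1 s2 s1 H.R2 a1 a2 a3

/-- The leaves. -/
def leafF (pr : Pr) (t : ℕ) (c : Cl) (z : ℕ) (k : ℕ → Bool) : Bool :=
  cond (Nat.ble t 4) (cond (fiN c) (k z) false) (cond (Nat.ble t 6) (cond (xgN pr t c) (k z) false)
    (xcN pr c z k))

/-- The statement proved on a cell. -/
def GoodF (pr : Pr) (x1 x2 x3 x4 : ℝ) : Prop :=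
  ∀ p h q g : ℝ, ∀ bl br k : ℂ, x1 = tw p → x2 = ex h → x3 = tw q → x4 = ex g → Pos p q →
    Hyp pr bl br k x1 x2 x3 x4 → FiB p h q g

theorem leafF_sound (pr : Pr) (t : ℕ) (c : Cl) (z : ℕ) (kk : ℕ → Bool) (h1 : leafF pr t c z kk = true) :
    (∀ x1 x2 x3 x4, c.In x1 x2 x3 x4 → GoodF pr x1 x2 x3 x4) ∧ ∃ z', kk z' = true := by
  unfold leafF at h1
  rcases cond_cases h1 with ⟨_, h1⟩ | ⟨_, h1⟩
  · obtain ⟨h2, h3⟩ := cond_and h1
    refine ⟨?_, _, h3⟩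
    intro x1 x2 x3 x4 hx p h q g bl br k e1 e2 e3 e4 hP H
    subst e1 e2 e3 e4
    exact fiN_sound h2 hx hP
  rcases cond_cases h1 with ⟨_, h1⟩ | ⟨_, h1⟩
  · obtain ⟨h2, h3⟩ := cond_and h1
    refine ⟨?_, _, h3⟩
    intro x1 x2 x3 x4 hx p h q g bl br k e1 e2 e3 e4 hP H
    exact (xgN_sound h2 x1 x2 x3 x4 hx bl br k H).elim
  · obtain ⟨h2, h3⟩ := xcN_sound h1
    refine ⟨?_, h3⟩
    intro x1 x2 x3 x4 hx p h q g bl br k e1 e2 e3 e4 hP H
    exact (h2 x1 x2 x3 x4 hx bl br k H).elim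

/-- **A certificate for the strips.** -/
def certF (pr : Pr) (n : ℕ) (c : Cl) (z : ℕ) : Bool :=
  run (leafF pr) n c z (fun z => Nat.beq z 0)

theorem certF_sound {pr : Pr} {n : ℕ} {c : Cl} {z : ℕ} (h : certF pr n c z = true) {p h' q g : ℝ}
    {bl br k : ℂ} (hM : c.Mem p h' q g) (hP : Pos p q) (H : Hyp pr bl br k (tw p) (ex h') (tw q) (ex g)) :
    FiB p h' q g :=
  (run_sound (P := GoodF pr) (leafF_sound pr) n c z _ h).1 _ _ _ _ hM p h' q g bl br k rfl rfl rfl rfl hP H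

/-- The bound on the whole square, weights `2` and `2`. -/
theorem full22 {p h q g : ℝ} (hP : Pos p q)
    (hS : Sq22 (Real.sinh (Real.pi * h) ^ 2) (Real.sinh (Real.pi * g) ^ 2)
      (Real.sinh (Real.pi * (h + g)) ^ 2) p q) (hF : FiB p h q g) :
    ∃ c > 0, ∀ p' ∈ Set.Icc (0 : ℝ) (3 / 4), ∀ q' ∈ Set.Icc (0 : ℝ) (3 / 4),
      c * ((p' - p) ^ 2 + (q' - q) ^ 2) ≤ SS (Real.sinh (Real.pi * h) ^ 2) (Real.sinh (Real.pi * g) ^ 2)
        (Real.sinh (Real.pi * (h + g)) ^ 2) p q p' q' :=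
  flat_of_strip (sq_nonneg _) hF.s2 (sq_nonneg _) hP.hq0 hP.hq1
    (strip_F (sq_nonneg _) hF.s1 (sq_nonneg _) hP.hp0 hP.hp1 hS hF.f1) hF.f2

end Pool.Agent.S5.F
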