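import Pool.Agent.S5.I.F15
import Pool.Agent.S5.I.C2q

/-!
# Closed nodes with two half twists: products of ratios, the tests for the strips
-/

set_option autoImplicit false

namespace Pool.Agent.S5.F

open Pool.Agent.S5.C2 Pool.Agent.S5.Num

/-- `X / Y` is at most `N / D`. -/
structure Rb (X Y : ℝ) (N D : ℕ) : Prop where
  le : X * D ≤ N * Y
  x : 0 ≤ X
  y : 0 ≤ Y

theorem Rb.mul {X Y X' Y' : ℝ} {N D N' D' : ℕ} (h : Rb X Y N D) (h' : Rb X' Y' N' D') :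
    Rb (X * X') (Y * Y') (Nat.mul N N') (Nat.mul D D') := by
  obtain ⟨a, b, c⟩ := h
  obtain ⟨a', b', c'⟩ := h'
  have d0 : (0 : ℝ) ≤ D' := Nat.cast_nonneg _
  have n0 : (0 : ℝ) ≤ N := Nat.cast_nonneg _
  refine ⟨?_, by positivity, by positivity⟩
  have e1 : ((Nat.mul D D' : ℕ) : ℝ) = (D : ℝ) * D' := Nat.cast_mul _ _
  have e2 : ((Nat.mul N N' : ℕ) : ℝ) = (N : ℝ) * N' := Nat.cast_mul _ _
  rw [e1, e2]
  have := mul_le_mul a a' (by positivity) (by positivity)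
  linarith

theorem Rb.sq {X Y : ℝ} {N D : ℕ} (h : Rb X Y N D) : Rb (X ^ 2) (Y ^ 2) (sq' N) (sq' D) := by
  rw [sq'_eq, sq'_eq, pow_two, pow_two]
  exact h.mul h

theorem Rb.congr {X Y X' Y' : ℝ} {N D : ℕ} (h : Rb X Y N D) (e : X = X') (e' : Y = Y') : Rb X' Y' N D := by
  subst e
  subst e'
  exact h

theorem Rb.lt {X Y : ℝ} {N D : ℕ} (h : Rb X Y N D) (hY : 0 < Y) (hl : Nat.ble (Nat.succ N) D = true) :
    X < Y := by
  have h1 := lt_of_ble hl
  have h2 : (0 : ℝ) ≤ N := Nat.cast_nonneg _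
  have h3 := h.le
  have h4 : (N : ℝ) * Y < D * Y := mul_lt_mul_of_pos_right h1 hY
  have h5 : X * D < Y * D := by linarith
  exact lt_of_mul_lt_mul_right h5 (by linarith)

/-- The value of the third number at which a ratio is largest. -/
def pk (x y l h : ℕ) : ℕ := cond (Nat.ble x y) h l

theorem pk_rb {x y l h : ℕ} {X Y s : ℝ} (hX : 0 ≤ X) (hY : 0 ≤ Y) (hs : 0 ≤ s)
    (hx : 1048576 * X ≤ x) (hy : (y : ℝ) ≤ 1048576 * Y) (hl : (l : ℝ) ≤ 1048576 * s)
    (hh : 1048576 * s ≤ h) : Rb (X + s) (Y + s) (Nat.add x (pk x y l h)) (Nat.add y (pk x y l h)) := by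
  refine ⟨?_, by positivity, by positivity⟩
  have e3 : ∀ x y : ℕ, ((Nat.add x y : ℕ) : ℝ) = (x : ℝ) + y := fun x y => Nat.cast_add x y
  rw [e3, e3]
  have y0 : (0 : ℝ) ≤ y := Nat.cast_nonneg _
  have x0 : (0 : ℝ) ≤ x := Nat.cast_nonneg _
  have p0 : (0 : ℝ) ≤ pk x y l h := Nat.cast_nonneg _
  have key : ((x : ℝ) + 1048576 * s) * (y + (pk x y l h : ℕ)) ≤
      (x + (pk x y l h : ℕ)) * (y + 1048576 * s) := by
    unfold pk
    rcases hb : Nat.ble x y with _ | _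
    · rw [cond_false]
      have h1 : (y : ℝ) ≤ x := by
        have : ¬ x ≤ y := fun h0 => by
          rw [Nat.ble_eq_true_of_le h0] at hb
          exact absurd hb (by simp)
        exact_mod_cast (not_le.1 this).le
      nlinarith [mul_nonneg (sub_nonneg.2 h1) (sub_nonneg.2 hl)]
    · rw [cond_true]
      have h1 : (x : ℝ) ≤ y := by exact_mod_cast Nat.le_of_ble_eq_true hb
      nlinarith [mul_nonneg (sub_nonneg.2 h1) (sub_nonneg.2 hh)]
  have k1 : (1048576 * (X + s)) * (y + (pk x y l h : ℕ)) ≤ ((x : ℝ) + 1048576 * s) * (y + (pk x y l h : ℕ)) :=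
    mul_le_mul_of_nonneg_right (by linarith) (by positivity)
  have k2 : ((x : ℝ) + (pk x y l h : ℕ)) * (y + 1048576 * s) ≤
      (x + (pk x y l h : ℕ)) * (1048576 * (Y + s)) :=
    mul_le_mul_of_nonneg_left (by linarith) (by positivity)
  linarith

/-! ### The factors -/

/-- Three intervals, the part with `s`. -/
def uA3 (a l h : ℕ) (k : ℕ → ℕ → Bool) : Bool :=
  fN (fun e1 => fN (fun e2 => fN (fun e3 => fN (fun e4 => fN (fun n => fN (fun d => k n d)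
    (sq' (Nat.mul (Nat.mul (Nat.add 524288 e1) (Nat.add 1048576 e4))
      (sq' (Nat.mul (Nat.add 786432 e2) (Nat.add 978321 e3))))))
    (sq' (Nat.mul (Nat.mul (Nat.add a e1) (Nat.add a e4)) (sq' (Nat.mul (Nat.add a e2) (Nat.add a e3))))))
    (pk a 1048576 l h)) (pk a 978321 l h)) (pk a 786432 l h)) (pk a 524288 l h)

/-- Three intervals, the part with `s3`. -/
def uB3 (b l h : ℕ) (k : ℕ → ℕ → Bool) : Bool :=
  fN (fun e1 => fN (fun e2 => fN (fun e3 => fN (fun e4 => fN (fun n => fN (fun d => k n d)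
    (Nat.mul (Nat.mul (Nat.add b e1) (Nat.add b e4)) (sq' (Nat.mul (Nat.add b e2) (Nat.add b e3)))))
    (Nat.mul (Nat.mul (Nat.add 524288 e1) (Nat.add 1048576 e4))
      (sq' (Nat.mul (Nat.add 786432 e2) (Nat.add 978428 e3)))))
    (pk 1048576 b l h)) (pk 978428 b l h)) (pk 786432 b l h)) (pk 524288 b l h)

theorem uA3_sound {a l h : ℕ} {k : ℕ → ℕ → Bool} {X s : ℝ} (H : uA3 a l h k = true) (hX : 0 ≤ X)
    (hs : 0 ≤ s) (ha : 1048576 * X ≤ a) (hl : (l : ℝ) ≤ 1048576 * s) (hh : 1048576 * s ≤ h) :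
    ∃ n d : ℕ, k n d = true ∧ Rb ((X + s) ^ 12) (X4 0.933 s ^ 2) n d := by
  unfold uA3 at H
  simp only [fN_eq] at H
  refine ⟨_, _, H, ?_⟩
  have r1 := pk_rb (Y := 1 / 2) (y := 524288) hX (by norm_num) hs ha (by norm_num) hl hh
  have r2 := pk_rb (Y := 3 / 4) (y := 786432) hX (by norm_num) hs ha (by norm_num) hl hh
  have r3 := pk_rb (Y := 0.933) (y := 978321) hX (by norm_num) hs ha (by norm_num) hl hh
  have r4 := pk_rb (Y := 1) (y := 1048576) hX (by norm_num) hs ha (by norm_num) hl hh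
  exact ((r1.mul r4).mul (r2.mul r3).sq).sq.congr (by ring) rfl

theorem uB3_sound {b l h : ℕ} {k : ℕ → ℕ → Bool} {Y s : ℝ} (H : uB3 b l h k = true) (hY : 0 ≤ Y)
    (hs : 0 ≤ s) (hb : (b : ℝ) ≤ 1048576 * Y) (hl : (l : ℝ) ≤ 1048576 * s) (hh : 1048576 * s ≤ h) :
    ∃ n d : ℕ, k n d = true ∧ Rb (X4 0.9331 s) ((Y + s) ^ 6) n d := by
  unfold uB3 at H
  simp only [fN_eq] at H
  refine ⟨_, _, H, ?_⟩
  have r1 := pk_rb (X := 1 / 2) (x := 524288) (by norm_num) hY hs (by norm_num) hb hl hh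
  have r2 := pk_rb (X := 3 / 4) (x := 786432) (by norm_num) hY hs (by norm_num) hb hl hh
  have r3 := pk_rb (X := 0.9331) (x := 978428) (by norm_num) hY hs (by norm_num) hb hl hh
  have r4 := pk_rb (X := 1) (x := 1048576) (by norm_num) hY hs (by norm_num) hb hl hh
  exact ((r1.mul r4).mul (r2.mul r3).sq).congr rfl (by ring)

/-- `Fi > 0`, trapezoid with three intervals. -/
def tF3 (a sl sh b rl rh : ℕ) : Bool :=
  cond (Nat.ble sh 209715) (uA3 a sl sh (fun n d => uB3 b rl rh (fun n' d' =>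
    Nat.ble (Nat.succ (Nat.mul n n')) (Nat.mul d d')))) false

/-- `Fi > 0`, crude. -/
def tF1 (a sl sh b rl rh : ℕ) : Bool :=
  cond (Nat.ble sh 524288) (fN (fun e1 => fN (fun e2 => fN (fun f1 => fN (fun f2 =>
    Nat.ble (Nat.succ (Nat.mul (sq' (Nat.mul (Nat.add a e1) (Nat.add a e2)))
        (Nat.mul (Nat.add 524288 f1) (Nat.add 894960 f2))))
      (Nat.mul (sq' (Nat.mul (Nat.add 524288 e1) (Nat.add 894959 e2)))
        (Nat.mul (Nat.add b f1) (Nat.add b f2))))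
    (pk 894960 b rl rh)) (pk 524288 b rl rh)) (pk a 894959 sl sh)) (pk a 524288 sl sh)) false

/-- What is known about a slot. -/
structure SlD (a sl sh b rl rh : ℕ) (s s3 p P : ℝ) : Prop where
  p0 : 0 < Sn p
  P0 : 0 < Sn P
  z : 0 ≤ s
  z3 : 0 ≤ s3
  ha : 1048576 * Sn p ≤ a
  hsl : (sl : ℝ) ≤ 1048576 * s
  hsh : 1048576 * s ≤ sh
  hb : (b : ℝ) ≤ 1048576 * Sn P
  hrl : (rl : ℝ) ≤ 1048576 * s3
  hrh : 1048576 * s3 ≤ rh

theorem tF3_sound {a sl sh b rl rh : ℕ} {s s3 p P : ℝ} (h : tF3 a sl sh b rl rh = true)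
    (H : SlD a sl sh b rl rh s s3 p P) : s ≤ 1 / 2 ∧ 0 < Fi s s3 p P := by
  unfold tF3 at h
  obtain ⟨h1, h⟩ := cond_and h
  have g1 := le_of_ble h1
  push_cast at g1
  obtain ⟨n, d, h, r⟩ := uA3_sound h H.p0.le H.z H.ha H.hsl H.hsh
  obtain ⟨n', d', h, r'⟩ := uB3_sound h H.P0.le H.z3 H.hb H.hrl H.hrh
  have hA : 0 < Sn p + s := by linarith [H.p0, H.z]
  have hB : 0 < Sn P + s3 := by linarith [H.P0, H.z3]
  have k0 : 0 < X4 0.933 s := by
    have := H.z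
    unfold X4
    positivity
  have k := (r.mul r').lt (by positivity) h
  have hsh := H.hsh
  exact ⟨by linarith, Fi_pos3 H.z (by linarith) H.z3 hA hB k⟩

theorem tF1_sound {a sl sh b rl rh : ℕ} {s s3 p P : ℝ} (h : tF1 a sl sh b rl rh = true)
    (H : SlD a sl sh b rl rh s s3 p P) : s ≤ 1 / 2 ∧ 0 < Fi s s3 p P := by
  unfold tF1 at h
  obtain ⟨h1, h⟩ := cond_and h
  simp only [fN_eq] at h
  have g1 := le_of_ble h1
  push_cast at g1
  have hA : 0 < Sn p + s := by linarith [H.p0, H.z]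
  have hB : 0 < Sn P + s3 := by linarith [H.P0, H.z3]
  have r1 := pk_rb (Y := 1 / 2) (y := 524288) H.p0.le (by norm_num) H.z H.ha (by norm_num) H.hsl H.hsh
  have r2 := pk_rb (Y := 0.8535) (y := 894959) H.p0.le (by norm_num) H.z H.ha (by norm_num) H.hsl H.hsh
  have t1 := pk_rb (X := 1 / 2) (x := 524288) (by norm_num) H.P0.le H.z3 (by norm_num) H.hb H.hrl H.hrh
  have t2 := pk_rb (X := 0.8535) (x := 894960) (by norm_num) H.P0.le H.z3 (by norm_num) H.hb H.hrl H.hrh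
  have k0 := H.z
  have k := ((r1.mul r2).sq.mul (t1.mul t2)).lt (by positivity) h
  have hsh := H.hsh
  refine ⟨by linarith, Fi_pos H.z (by linarith) H.z3 hA hB ?_⟩
  have e1 : ((Sn p + s) * (Sn p + s)) ^ 2 * ((1 / 2 + s3) * (0.8535 + s3)) =
    (Sn p + s) ^ 4 * ((1 / 2 + s3) * (0.8535 + s3)) := by ring
  have e2 : ((1 / 2 + s) * (0.8535 + s)) ^ 2 * ((Sn P + s3) * (Sn P + s3)) =
    ((1 / 2 + s) * (0.8535 + s)) ^ 2 * (Sn P + s3) ^ 2 := by ring
  rw [e1, e2] at k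
  exact k

/-- `Fi > 0`. -/
def tFc (a sl sh b rl rh : ℕ) : Bool := cond (tF1 a sl sh b rl rh) true (tF3 a sl sh b rl rh)

theorem tFc_sound {a sl sh b rl rh : ℕ} {s s3 p P : ℝ} (h : tFc a sl sh b rl rh = true)
    (H : SlD a sl sh b rl rh s s3 p P) : s ≤ 1 / 2 ∧ 0 < Fi s s3 p P := by
  unfold tFc at h
  rcases cond_cases h with ⟨h, -⟩ | ⟨-, h⟩
  · exact tF1_sound h H
  · exact tF3_sound h H

/-- The window. -/
def tW (a sl sh q0 s2l s2h b b1 rl rh : ℕ) : Bool :=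
  cond (Nat.ble sh 83886) (cond (Nat.ble rh 1048576) (cond (Nat.ble 1 s2l)
    (cond (fN (fun e => fN (fun f => Nat.ble (Nat.succ (Nat.mul (sq' (Nat.add 40476 e)) (Nat.add b1 f)))
        (Nat.mul (sq' (Nat.add q0 e)) (Nat.add 322961 f)))
        (pk b1 322961 rl rh)) (pk 40476 q0 s2l s2h))
      (cond (fN (fun e1 => fN (fun e2 => fN (fun f1 => fN (fun f2 =>
        Nat.ble (Nat.succ (Nat.mul (sq' (Nat.mul (Nat.add a e1) (Nat.add a e2)))
          (Nat.mul (Nat.add 1048576 f1) (Nat.add 895066 f2))))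
        (Nat.mul (sq' (Nat.mul (Nat.add 1048576 e1) (Nat.add 894959 e2)))
          (Nat.mul (Nat.add b f1) (Nat.add b f2))))
        (pk 895066 b rl rh)) (pk 1048576 b rl rh)) (pk a 894959 sl sh)) (pk a 1048576 sl sh))
        (uA3 a sl sh (fun n d => uB3 b rl rh (fun n' d' => fN (fun f => fN (fun g =>
          fN (fun x => fN (fun y => fN (fun u => fN (fun v =>
          Nat.ble (Nat.succ (Nat.mul (sq' (sq' x)) (Nat.mul (sq' u) u)))
            (Nat.mul (sq' (sq' y)) (Nat.mul (sq' v) v)))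
            (Nat.mul (Nat.add 1048576 f) (Nat.add 1008100 g)))
            (Nat.mul (Nat.add 422052 f) (Nat.add 422052 g)))
            (Nat.mul d d')) (Nat.mul n n')) (pk 422052 1008100 rl rh)) (pk 422052 1048576 rl rh))))
        false) false) false) false) false

structure Win (s1 s2 s3 p0 q0 : ℝ) : Prop where
  h1 : s1 ≤ 2 / 25
  h2 : 0 < s2
  h3 : s3 ≤ 1
  C1 : (0.0386 + s2) ^ 2 * (Sn (p0 + q0) + s3) ≤ (Sn q0 + s2) ^ 2 * (0.308 + s3)
  C2 : (Sn p0 + s1) ^ 4 * ((1 + s3) * (0.8536 + s3)) ≤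
      ((1 + s1) * (0.8535 + s1)) ^ 2 * (Sn (p0 + q0) + s3) ^ 2
  C3 : (Sn p0 + s1) ^ 48 * X4 0.9331 s3 ^ 4 * (0.4025 + s3) ^ 6 ≤
      X4 0.933 s1 ^ 8 * (Sn (p0 + q0) + s3) ^ 24 * ((1 + s3) * (0.9614 + s3)) ^ 3

theorem tW_sound {a sl sh q0 s2l s2h b b1 rl rh : ℕ} {s1 s2 s3 p q : ℝ}
    (h : tW a sl sh q0 s2l s2h b b1 rl rh = true)
    (H : SlD a sl sh b rl rh s1 s3 p (p + q)) (hq : (q0 : ℝ) ≤ 1048576 * Sn q) (hq' : 0 < Sn q)
    (h2l : (s2l : ℝ) ≤ 1048576 * s2) (h2h : 1048576 * s2 ≤ s2h) (hb1 : 1048576 * Sn (p + q) ≤ b1) :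
    Win s1 s2 s3 p q := by
  unfold tW at h
  obtain ⟨a1, h⟩ := cond_and h
  obtain ⟨a2, h⟩ := cond_and h
  obtain ⟨a3, h⟩ := cond_and h
  obtain ⟨a4, h⟩ := cond_and h
  obtain ⟨a5, h⟩ := cond_and h
  simp only [fN_eq] at a4 a5
  have g1 := le_of_ble a1
  have g2 := le_of_ble a2
  have g3 := le_of_ble a3
  push_cast at g1 g2 g3
  have hs2 : 0 < s2 := by linarith
  have hA : 0 < Sn p + s1 := by linarith [H.p0, H.z]
  have hB : 0 < Sn (p + q) + s3 := by linarith [H.P0, H.z3]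
  have k0 := H.z
  have k3 := H.z3
  have hsh := H.hsh
  have hrh := H.hrh
  have kX : 0 < X4 0.933 s1 := by
    unfold X4
    positivity
  refine ⟨by linarith, hs2, by linarith, ?_, ?_, ?_⟩
  · have r1 := pk_rb (X := 0.0386) (x := 40476) (Y := Sn q) (by norm_num) hq'.le hs2.le (by norm_num) hq h2l h2h
    have r2 := pk_rb (X := Sn (p + q)) (Y := 0.308) (y := 322961) H.P0.le (by norm_num) H.z3 hb1 (by norm_num)
      H.hrl H.hrh
    exact ((r1.sq.mul r2).lt (by positivity) a4).le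
  · have r1 := pk_rb (Y := 1) (y := 1048576) H.p0.le (by norm_num) H.z H.ha (by norm_num) H.hsl H.hsh
    have r2 := pk_rb (Y := 0.8535) (y := 894959) H.p0.le (by norm_num) H.z H.ha (by norm_num) H.hsl H.hsh
    have t1 := pk_rb (X := 1) (x := 1048576) (by norm_num) H.P0.le H.z3 (by norm_num) H.hb H.hrl H.hrh
    have t2 := pk_rb (X := 0.8536) (x := 895066) (by norm_num) H.P0.le H.z3 (by norm_num) H.hb H.hrl H.hrh
    have k := ((r1.mul r2).sq.mul (t1.mul t2)).lt (by positivity) a5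
    have e1 : ((Sn p + s1) * (Sn p + s1)) ^ 2 * ((1 + s3) * (0.8536 + s3)) =
      (Sn p + s1) ^ 4 * ((1 + s3) * (0.8536 + s3)) := by ring
    have e2 : ((1 + s1) * (0.8535 + s1)) ^ 2 * ((Sn (p + q) + s3) * (Sn (p + q) + s3)) =
      ((1 + s1) * (0.8535 + s1)) ^ 2 * (Sn (p + q) + s3) ^ 2 := by ring
    rw [e1, e2] at k
    exact k.le
  · obtain ⟨n, d, h, r⟩ := uA3_sound h H.p0.le H.z H.ha H.hsl H.hsh
    obtain ⟨n', d', h, r'⟩ := uB3_sound h H.P0.le H.z3 H.hb H.hrl H.hrh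
    simp only [fN_eq] at h
    have t1 := pk_rb (X := 0.4025) (x := 422052) (Y := 1) (y := 1048576) (by norm_num) (by norm_num) H.z3
      (by norm_num) (by norm_num) H.hrl H.hrh
    have t2 := pk_rb (X := 0.4025) (x := 422052) (Y := 0.9614) (y := 1008100) (by norm_num) (by norm_num) H.z3
      (by norm_num) (by norm_num) H.hrl H.hrh
    have k := ((r.mul r').sq.sq.mul ((t1.mul t2).sq.mul (t1.mul t2))).lt (by positivity) h
    generalize X4 0.933 s1 = x1 at *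
    generalize X4 0.9331 s3 = x3 at *
    have e1 : (((Sn p + s1) ^ 12 * x3) ^ 2) ^ 2 *
        ((((0.4025 + s3) * (0.4025 + s3)) ^ 2) * ((0.4025 + s3) * (0.4025 + s3))) =
      (Sn p + s1) ^ 48 * x3 ^ 4 * (0.4025 + s3) ^ 6 := by
      generalize Sn p + s1 = A
      generalize 0.4025 + s3 = B
      ring
    have e2 : ((x1 ^ 2 * (Sn (p + q) + s3) ^ 6) ^ 2) ^ 2 *
        ((((1 + s3) * (0.9614 + s3)) ^ 2) * ((1 + s3) * (0.9614 + s3))) =
      x1 ^ 8 * (Sn (p + q) + s3) ^ 24 * ((1 + s3) * (0.9614 + s3)) ^ 3 := by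
      generalize Sn (p + q) + s3 = A
      generalize (1 + s3) * (0.9614 + s3) = B
      ring
    rw [e1, e2] at k
    exact k.le

end Pool.Agent.S5.F
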