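import Pool.Agent.S5.I.F17
import Pool.Agent.S5.I.C2r

/-!
# Closed nodes with two half twists: certificates for the strips
-/

set_option autoImplicit false

namespace Pool.Agent.S5.F

open Pool.Agent.S5.C2 Pool.Agent.S5.Num

/-! ### The argument of an `S` slot -/

theorem arg_S {b l L : ℂ} {t c d P Q : ℝ} (h : (b * l) ^ 2 * (2 - L) = L) (hb : 0 < b.re)
    (hb1 : b.im ≤ 0) (ht : -b.im ≤ t * b.re) (ht0 : 0 ≤ t) (hc0 : 0 < c) (hc : c ≤ -l.re)
    (hl1 : 0 < l.im) (hd : l.im ≤ d) (hP : P = t * d - c) (hQ : Q = d + t * c) (hP0 : 0 ≤ P)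
    (hLi : 0 < L.im)
    (c1 : L.im * (P ^ 2 - Q ^ 2) < P * Q * (L.re * (2 - L.re) - L.im ^ 2)) : False := by
  have hd0 : 0 < d := by linarith
  have hQ0 : 0 < Q := by
    rw [hQ]
    positivity
  -- the real and imaginary part of `b l`
  have g1 : 0 < (b * l).im := by
    rw [Complex.mul_im]
    have h1 : 0 < b.re * l.im := by positivity
    have h2 : 0 ≤ b.im * l.re := mul_nonneg_of_nonpos_of_nonpos hb1 (by linarith)
    linarith
  -- `W = b l (P - i Q)`, imaginary part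
  have k1 : 0 ≤ -b.im * 0 + b.re * 0 := by simp
  have a1 : 0 < b.re - t * b.im := by nlinarith
  have a2 : 0 ≤ b.im + t * b.re := by linarith
  have b1 : 0 < -(c * l.re) + d * l.im := by
    have h1 : 0 < d * l.im := by positivity
    have h2 : 0 ≤ c * -l.re := mul_nonneg hc0.le (by linarith)
    linarith
  have b2 : 0 ≤ -(c * l.im) - d * l.re := by
    have h1 := mul_le_mul_of_nonneg_left hd hc0.le
    have h2 := mul_le_mul_of_nonneg_left hc hd0.le
    linarith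
  have w1 : (b * l).im * P - (b * l).re * Q = (b.re - t * b.im) * (-(c * l.im) - d * l.re) +
      (b.im + t * b.re) * (-(c * l.re) + d * l.im) := by
    rw [Complex.mul_re, Complex.mul_im, hP, hQ]
    ring
  have w2 : 0 ≤ (b * l).im * P - (b * l).re * Q := by
    rw [w1]
    have := mul_nonneg a1.le b2
    have := mul_nonneg a2 b1.le
    linarith
  set G := b * l
  have hre := congrArg Complex.re h
  have him := congrArg Complex.im h
  have e1 : (G ^ 2).re = G.re ^ 2 - G.im ^ 2 := by rw [sq, Complex.mul_re]; ring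
  have e2 : (G ^ 2).im = 2 * G.re * G.im := by rw [sq, Complex.mul_im]; ring
  rw [Complex.mul_re, e1, e2, Complex.sub_re, Complex.sub_im, Complex.re_ofNat, Complex.im_ofNat,
    zero_sub] at hre
  rw [Complex.mul_im, e1, e2, Complex.sub_re, Complex.sub_im, Complex.re_ofNat, Complex.im_ofNat,
    zero_sub] at him
  set M := L.re
  set Y := L.im
  set N := (2 - M) ^ 2 + Y ^ 2 with hN
  have f1 : (G.re ^ 2 - G.im ^ 2) * N = M * (2 - M) - Y ^ 2 := by
    rw [hN]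
    linear_combination (2 - M) * hre - Y * him
  have f2 : 2 * G.re * G.im * N = 2 * Y := by
    rw [hN]
    linear_combination Y * hre + (2 - M) * him
  have hNp : 0 < N := by positivity
  have g2 : 0 < G.re := by
    by_contra hn
    have h1 : G.re * (G.im * N) ≤ 0 := mul_nonpos_of_nonpos_of_nonneg (not_lt.1 hn) (by positivity)
    nlinarith
  have w3 : 0 ≤ G.re * P + G.im * Q := by positivity
  have key : (2 * ((G.re * P + G.im * Q) * (G.im * P - G.re * Q))) * N =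
      2 * Y * (P ^ 2 - Q ^ 2) - 2 * P * Q * (M * (2 - M) - Y ^ 2) := by
    linear_combination (P ^ 2 - Q ^ 2) * f2 - 2 * P * Q * f1
  have k2 : 0 ≤ (2 * ((G.re * P + G.im * Q) * (G.im * P - G.re * Q))) * N := by positivity
  rw [key] at k2
  linarith

/-- Lower bound of `M (2 - M)`, units `2^(-40)`. -/
def lB (m0 m1 : ℕ) : ℕ :=
  fN (fun x => fN (fun y => cond (Nat.ble x y) x y) (Nat.mul m1 (Nat.sub 2097152 m1)))
    (Nat.mul m0 (Nat.sub 2097152 m0))

theorem lB_ok {m0 m1 : ℕ} {M : ℝ} (h2 : m1 ≤ 2097152) (h0 : (m0 : ℝ) ≤ 1048576 * M)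
    (h1 : 1048576 * M ≤ m1) : (lB m0 m1 : ℝ) ≤ 1099511627776 * (M * (2 - M)) := by
  have n0 : (0 : ℝ) ≤ m0 := Nat.cast_nonneg _
  have h01 : (m0 : ℝ) ≤ m1 := h0.trans h1
  have h01' : m0 ≤ m1 := by exact_mod_cast h01
  have h2' : (m1 : ℝ) ≤ 2097152 := by exact_mod_cast h2
  have e0 : ((Nat.mul m0 (Nat.sub 2097152 m0) : ℕ) : ℝ) = m0 * (2097152 - m0) := by
    have : ((Nat.sub 2097152 m0 : ℕ) : ℝ) = 2097152 - m0 := by
      show ((2097152 - m0 : ℕ) : ℝ) = _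
      rw [Nat.cast_sub (h01'.trans h2)]
      norm_num
    rw [← this]
    exact Nat.cast_mul _ _
  have e1 : ((Nat.mul m1 (Nat.sub 2097152 m1) : ℕ) : ℝ) = m1 * (2097152 - m1) := by
    have : ((Nat.sub 2097152 m1 : ℕ) : ℝ) = 2097152 - m1 := by
      show ((2097152 - m1 : ℕ) : ℝ) = _
      rw [Nat.cast_sub h2]
      norm_num
    rw [← this]
    exact Nat.cast_mul _ _
  unfold lB
  simp only [fN_eq]
  rcases hb : Nat.ble (Nat.mul m0 (Nat.sub 2097152 m0)) (Nat.mul m1 (Nat.sub 2097152 m1)) with _ | _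
  · rw [cond_false, e1]
    have h3 : ((Nat.mul m1 (Nat.sub 2097152 m1) : ℕ) : ℝ) ≤ (Nat.mul m0 (Nat.sub 2097152 m0) : ℕ) := by
      have : ¬ Nat.mul m0 (Nat.sub 2097152 m0) ≤ Nat.mul m1 (Nat.sub 2097152 m1) := fun h0 => by
        rw [Nat.ble_eq_true_of_le h0] at hb
        exact absurd hb (by simp)
      exact_mod_cast (not_le.1 this).le
    rw [e0, e1] at h3
    have key : m1 * (2097152 - (m1 : ℝ)) ≤ (1048576 * M) * (2097152 - 1048576 * M) := by
      rcases h01.eq_or_lt with h5 | h5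
      · have : 1048576 * M = m1 := by linarith
        rw [this]
      · have h6 : 2097152 ≤ (m0 : ℝ) + m1 := by
          by_contra hn
          have := mul_pos (sub_pos.2 h5) (show 0 < 2097152 - ((m0 : ℝ) + m1) by linarith)
          linarith
        have := mul_nonneg (sub_nonneg.2 h1) (show 0 ≤ 1048576 * M + m1 - 2097152 by linarith)
        linarith
    linarith
  · rw [cond_true, e0]
    have h3 : ((Nat.mul m0 (Nat.sub 2097152 m0) : ℕ) : ℝ) ≤ (Nat.mul m1 (Nat.sub 2097152 m1) : ℕ) := by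
      exact_mod_cast Nat.le_of_ble_eq_true hb
    rw [e0, e1] at h3
    have key : m0 * (2097152 - (m0 : ℝ)) ≤ (1048576 * M) * (2097152 - 1048576 * M) := by
      rcases h01.eq_or_lt with h5 | h5
      · have : 1048576 * M = m0 := by linarith
        rw [this]
      · have h6 : (m0 : ℝ) + m1 ≤ 2097152 := by
          by_contra hn
          have := mul_pos (sub_pos.2 h5) (show 0 < ((m0 : ℝ) + m1) - 2097152 by linarith)
          linarith
        have := mul_nonneg (sub_nonneg.2 h0) (show 0 ≤ 2097152 - (1048576 * M + m0) by linarith)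
        linarith
    linarith

/-- The argument of an `S` slot is beyond `- arctan (t1 / 1000)`. -/
def exAs (t1 : ℕ) (l r : SB) : Bool :=
  withS l r (fun m0 m1 y0 y1 => cond (Nat.ble 1 y0) (cond (Nat.ble m1 2097152)
    (cond (Nat.ble (Nat.succ l.m1) 4194304) (cond (Nat.ble 1 l.y0) (fN (fun c =>
      cond (Nat.ble (Nat.mul 1000 c) (Nat.mul t1 l.y1))
        (fN (fun P => fN (fun Q => fN (fun PQ => fN (fun PP => fN (fun QQ => fN (fun mm =>
          cond (Nat.ble (Nat.succ (Nat.add (Nat.mul (Nat.mul 1048576 y0) PP) (Nat.mul PQ (sq' y0))))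
              (Nat.add (Nat.mul (Nat.mul 1048576 y0) QQ) (Nat.mul PQ mm)))
            (Nat.ble (Nat.succ (Nat.add (Nat.mul (Nat.mul 1048576 y1) PP) (Nat.mul PQ (sq' y1))))
              (Nat.add (Nat.mul (Nat.mul 1048576 y1) QQ) (Nat.mul PQ mm))) false)
          (lB m0 m1)) (sq' Q)) (sq' P)) (Nat.mul P Q))
          (Nat.add (Nat.mul 1000 l.y1) (Nat.mul t1 c)))
          (Nat.sub (Nat.mul t1 l.y1) (Nat.mul 1000 c))) false)
      (Nat.sub 4194304 l.m1)) false) false) false) false)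

theorem exAs_sound {t1 : ℕ} {l r : SB} {b : ℂ} {w1 e1 w2 e2 : ℝ} (h : exAs t1 l r = true)
    (hl : SBOK l w1 e1) (hr : SBOK r w2 e2) (hR : Rel b w1 e1 w2 e2) (hre : 0 < b.re)
    (him : b.im ≤ 0) (har : -b.im ≤ (t1 : ℝ) / 1000 * b.re) : False := by
  unfold exAs at h
  obtain ⟨m0, m1, y0, y1, h, hs⟩ := withS_sound hl hr h
  obtain ⟨h1, h⟩ := cond_and h
  obtain ⟨h2, h⟩ := cond_and h
  obtain ⟨h3, h⟩ := cond_and h
  obtain ⟨h4, h⟩ := cond_and h
  simp only [fN_eq] at h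
  obtain ⟨h5, h⟩ := cond_and h
  obtain ⟨h6, h7⟩ := cond_and h
  have b1 := le_of_ble h1
  have b2 : m1 ≤ 2097152 := Nat.le_of_ble_eq_true h2
  have b3 : l.m1 + 1 ≤ 4194304 := Nat.le_of_ble_eq_true h3
  have b4 := le_of_ble h4
  have ec : ((Nat.sub 4194304 l.m1 : ℕ) : ℝ) = 4194304 - (l.m1 : ℝ) := by
    show ((4194304 - l.m1 : ℕ) : ℝ) = _
    rw [Nat.cast_sub (by omega)]
    norm_num
  have ec1 : (1 : ℝ) ≤ ((Nat.sub 4194304 l.m1 : ℕ) : ℝ) := by
    have : 1 ≤ Nat.sub 4194304 l.m1 := by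
      show 1 ≤ 4194304 - l.m1
      omega
    exact_mod_cast this
  generalize Nat.sub 4194304 l.m1 = cn at ec ec1 h5 h6 h7
  have n5 : 1000 * cn ≤ t1 * l.y1 := Nat.le_of_ble_eq_true h5
  have a5 := le_of_ble h5
  have a6 := lt_of_ble h6
  have a7 := lt_of_ble h7
  have e3 : ∀ x y : ℕ, ((Nat.add x y : ℕ) : ℝ) = (x : ℝ) + y := fun x y => Nat.cast_add x y
  have e4 : ∀ x y : ℕ, ((Nat.mul x y : ℕ) : ℝ) = (x : ℝ) * y := fun x y => Nat.cast_mul x y
  have eP : ((Nat.sub (Nat.mul t1 l.y1) (Nat.mul 1000 cn) : ℕ) : ℝ) = t1 * l.y1 - 1000 * cn := by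
    show ((t1 * l.y1 - 1000 * cn : ℕ) : ℝ) = _
    rw [Nat.cast_sub n5]
    push_cast
    ring
  have hU := lB_ok b2 hs.m0 hs.m1
  simp only [e3, e4, sq_cast, eP] at a5 a6 a7
  push_cast at b1 b4 a5 a6 a7
  have hy0 := hs.y0
  have hy1 := hs.y1
  have hyl := hl.y1
  have hyl0 := hl.y0
  have hml := hl.m1
  clear hs hl hr h1 h2 h3 h4 h5 h6 h7 n5 eP e3 e4
  generalize ((lB m0 m1 : ℕ) : ℝ) = V at hU a6 a7
  generalize ((y0 : ℕ) : ℝ) = u at *
  generalize ((y1 : ℕ) : ℝ) = v at *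
  generalize ((cn : ℕ) : ℝ) = c at *
  have hd0 : 0 ≤ (l.y1 : ℝ) := Nat.cast_nonneg _
  generalize ((l.y1 : ℕ) : ℝ) = d at *
  have ht0 : (0 : ℝ) ≤ t1 := Nat.cast_nonneg _
  generalize ((t1 : ℕ) : ℝ) = t at *
  have hY : 1048576 * (YF w1 e1 + YF w2 e2) = 1048576 * (lamF w1 e1 + lamF w2 e2).im := rfl
  have hM : 1048576 * (MF w1 e1 + MF w2 e2) = 1048576 * (lamF w1 e1 + lamF w2 e2).re := rfl
  have hM' : (MF w1 e1 + MF w2 e2) * (2 - (MF w1 e1 + MF w2 e2)) =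
    (lamF w1 e1 + lamF w2 e2).re * (2 - (lamF w1 e1 + lamF w2 e2).re) := rfl
  rw [hY] at hy0 hy1
  rw [hM'] at hU
  generalize hLam : lamF w1 e1 + lamF w2 e2 = L at *
  have hyp : (1 : ℝ) ≤ u := b1
  have P0 : (0 : ℝ) ≤ t * d - 1000 * c := by linarith
  have Q0 : (0 : ℝ) < 1000 * d + t * c := by
    have : 0 < YF w1 e1 := by linarith
    have : 0 < d := by linarith
    positivity
  have hR' : (b * lamF w1 e1) ^ 2 * (2 - L) = L := by
    have := hR
    unfold Rel at this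
    rw [hLam] at this
    exact this
  refine arg_S (t := t / 1000) (c := c / 1048576) (d := d / 1048576)
    (P := (t * d - 1000 * c) / 1048576000) (Q := (1000 * d + t * c) / 1048576000) hR' hre him har
    (by positivity) (by positivity) ?_ ?_ ?_ (by ring) (by ring) (by positivity) (by linarith) ?_
  · show c / 1048576 ≤ -MF w1 e1
    rw [div_le_iff₀ (by norm_num)]
    linarith
  · show 0 < YF w1 e1
    linarith
  · show YF w1 e1 ≤ d / 1048576
    rw [le_div_iff₀ (by norm_num)]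
    linarith
  · -- convexity in the imaginary part
    generalize t * d - 1000 * c = P at *
    generalize 1000 * d + t * c = Q at *
    have hPQ : 0 ≤ P * Q := mul_nonneg P0 Q0.le
    have x1 : L.im * (P ^ 2 - Q ^ 2) < P * Q * (L.re * (2 - L.re) - L.im ^ 2) := by
      set Y := 1048576 * L.im with hYd
      have q1 : P * Q * (V / 1099511627776) ≤ P * Q * (L.re * (2 - L.re)) := by
        apply mul_le_mul_of_nonneg_left _ hPQ
        rw [div_le_iff₀ (by norm_num)]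
        linarith
      have q2 : 1048576 * Y * P ^ 2 + P * Q * Y ^ 2 < 1048576 * Y * Q ^ 2 + P * Q * V := by
        have z1 : 1048576 * u * P ^ 2 + P * Q * u ^ 2 - 1048576 * u * Q ^ 2 < P * Q * V := by linarith
        have z2 : 1048576 * v * P ^ 2 + P * Q * v ^ 2 - 1048576 * v * Q ^ 2 < P * Q * V := by linarith
        -- `Y` between `u` and `v`
        rcases le_total (1048576 * (P ^ 2 - Q ^ 2) + P * Q * (Y + u)) 0 with h8 | h8
        · have := mul_nonneg_of_nonpos_of_nonpos h8 (show u - Y ≤ 0 by linarith)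
          nlinarith
        · have h9 : 0 ≤ 1048576 * (P ^ 2 - Q ^ 2) + P * Q * (Y + v) := by
            have := mul_nonneg hPQ (show 0 ≤ v - u by linarith)
            linarith
          have := mul_nonneg h9 (show 0 ≤ v - Y by linarith)
          nlinarith
      have q3 : L.im = Y / 1048576 := by rw [hYd]; ring
      rw [q3]
      have q4 : Y / 1048576 * (P ^ 2 - Q ^ 2) < P * Q * (V / 1099511627776 - (Y / 1048576) ^ 2) := by
        have e9 : P * Q * (V / 1099511627776 - (Y / 1048576) ^ 2) - Y / 1048576 * (P ^ 2 - Q ^ 2) =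
          ((1048576 * Y * Q ^ 2 + P * Q * V) - (1048576 * Y * P ^ 2 + P * Q * Y ^ 2)) / 1099511627776 := by
          ring
        have : 0 < P * Q * (V / 1099511627776 - (Y / 1048576) ^ 2) - Y / 1048576 * (P ^ 2 - Q ^ 2) := by
          rw [e9]
          apply div_pos _ (by norm_num)
          linarith
        linarith
      linarith
    have e10 : L.im * ((P / 1048576000) ^ 2 - (Q / 1048576000) ^ 2) =
      L.im * (P ^ 2 - Q ^ 2) / 1099511627776000000 := by ring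
    have e11 : P / 1048576000 * (Q / 1048576000) * (L.re * (2 - L.re) - L.im ^ 2) =
      P * Q * (L.re * (2 - L.re) - L.im ^ 2) / 1099511627776000000 := by ring
    rw [e10, e11]
    exact div_lt_div_of_pos_right x1 (by norm_num)

/-! ### A slot with weight one -/

/-- Third power. -/
def p3 (n : ℕ) : ℕ := Nat.mul (sq' n) n

/-- Eleventh power. -/
def p11 (n : ℕ) : ℕ := Nat.mul (sq' (Nat.mul (sq' (sq' n)) n)) n

theorem Rb.p3 {X Y : ℝ} {N D : ℕ} (h : Rb X Y N D) : Rb (X ^ 3) (Y ^ 3) (p3 N) (p3 D) :=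
  (h.sq.mul h).congr (by ring) (by ring)

theorem Rb.p11 {X Y : ℝ} {N D : ℕ} (h : Rb X Y N D) : Rb (X ^ 11) (Y ^ 11) (p11 N) (p11 D) :=
  ((h.sq.sq.mul h).sq.mul h).congr (by ring) (by ring)

/-- The slot has a large defect with weight one. -/
def tX3 (a0 a sl sh b rl rh : ℕ) : Bool :=
  cond (Nat.ble sh 209715) (cond (Nat.ble (Nat.succ a) 524288) (cond (Nat.ble 262145 a0)
    (fN (fun e1 => fN (fun e2 => fN (fun e3 => fN (fun f =>
      cond (Nat.ble (Nat.succ (Nat.mul (Nat.add a e2) (Nat.add 1048576 f)))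
          (Nat.mul (Nat.add 832359 e2) (Nat.add b f)))
        (cond (Nat.ble (Nat.succ (Nat.mul (p3 (Nat.mul (Nat.add a e1) (Nat.add a e2))) (p11 (Nat.add 1048576 f))))
          (Nat.mul (p3 (Nat.mul (Nat.add 524288 e1) (Nat.add 832359 e2))) (p11 (Nat.add b f))))
          (Nat.ble (Nat.succ (Nat.mul (Nat.mul (Nat.add a e1) (Nat.add a e3)) (sq' (Nat.add 1048576 f))))
            (Nat.mul (Nat.mul (Nat.add 524288 e1) (Nat.add 1048576 e3)) (sq' (Nat.add b f)))) false) false)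
    (pk 1048576 b rl rh)) (pk a 1048576 sl sh)) (pk a 832359 sl sh)) (pk a 524288 sl sh)) false) false) false

theorem tX3_sound {a0 a sl sh b rl rh : ℕ} {s s3 p P : ℝ} (h : tX3 a0 a sl sh b rl rh = true)
    (H : SlD a sl sh b rl rh s s3 p P) (ha0 : (a0 : ℝ) ≤ 1048576 * Sn p) (hp : 0 ≤ p) (hp1 : p ≤ 1 / 2) :
    X3 s s3 p P := by
  unfold tX3 at h
  obtain ⟨h1, h⟩ := cond_and h
  obtain ⟨h2, h⟩ := cond_and h
  obtain ⟨h3, h⟩ := cond_and h
  simp only [fN_eq] at h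
  obtain ⟨h4, h⟩ := cond_and h
  obtain ⟨h5, h6⟩ := cond_and h
  have g1 := le_of_ble h1
  have g2 := lt_of_ble h2
  have g3 := le_of_ble h3
  push_cast at g1 g2 g3
  have hA : 0 < Sn p + s := by linarith [H.p0, H.z]
  have hB : 0 < Sn P + s3 := by linarith [H.P0, H.z3]
  have k0 := H.z
  have k3 := H.z3
  have ka := H.ha
  have ksh := H.hsh
  have q4 : p < 1 / 4 := Sn_lt hp hp1 (by norm_num) (by norm_num) (by rw [Sn_quarter]; linarith)
  have q6 : 1 / 6 < p := Sn_lt (by norm_num) (by norm_num) hp hp1 (by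
    have : Sn (1 / 6) = 1 / 4 := by
      unfold Sn
      rw [show Real.pi * (1 / 6) = Real.pi / 6 by ring, Real.sin_pi_div_six]
      norm_num
    rw [this]
    linarith)
  have r1 := pk_rb (Y := 1 / 2) (y := 524288) H.p0.le (by norm_num) H.z H.ha (by norm_num) H.hsl H.hsh
  have r2 := pk_rb (Y := 0.7938) (y := 832359) H.p0.le (by norm_num) H.z H.ha (by norm_num) H.hsl H.hsh
  have r3 := pk_rb (Y := 1) (y := 1048576) H.p0.le (by norm_num) H.z H.ha (by norm_num) H.hsl H.hsh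
  have t := pk_rb (X := 1) (x := 1048576) (by norm_num) H.P0.le H.z3 (by norm_num) H.hb H.hrl H.hrh
  have c1 := (r2.mul t).lt (by positivity) h4
  have c2 := ((r1.mul r2).p3.mul t.p11).lt (by positivity) h5
  have c3 := ((r1.mul r3).mul t.sq).lt (by positivity) h6
  have e2 : ((Sn p + s) * (Sn p + s)) ^ 3 * (1 + s3) ^ 11 = (Sn p + s) ^ 6 * (1 + s3) ^ 11 := by ring
  have e3 : ((Sn p + s) * (Sn p + s)) * (1 + s3) ^ 2 = (Sn p + s) ^ 2 * (1 + s3) ^ 2 := by ring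
  rw [e2] at c2
  rw [e3] at c3
  exact X3_of H.z (by linarith) H.z3 q6.le q4.le hB c1.le c2 c3.le

/-! ### Cells -/

/-- The statement for a cell. -/
structure StB (xa xb : Bool) (p h q g : ℝ) : Prop where
  full : Sq22 (Real.sinh (Real.pi * h) ^ 2) (Real.sinh (Real.pi * g) ^ 2)
      (Real.sinh (Real.pi * (h + g)) ^ 2) p q →
    ∃ c > 0, ∀ p' ∈ Set.Icc (0 : ℝ) (3 / 4), ∀ q' ∈ Set.Icc (0 : ℝ) (3 / 4),
      c * ((p' - p) ^ 2 + (q' - q) ^ 2) ≤ SS (Real.sinh (Real.pi * h) ^ 2) (Real.sinh (Real.pi * g) ^ 2)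
        (Real.sinh (Real.pi * (h + g)) ^ 2) p q p' q'
  xa : xa = true → X3 (Real.sinh (Real.pi * h) ^ 2) (Real.sinh (Real.pi * (h + g)) ^ 2) p (p + q)
  xb : xb = true → X3 (Real.sinh (Real.pi * g) ^ 2) (Real.sinh (Real.pi * (h + g)) ^ 2) q (p + q)

/-- The test of a cell. -/
def stD (xa xb : Bool) (d : Dt) (b b1 : ℕ) : Bool :=
  cond (tFc d.b1 d.s2l d.s2h b d.s3l d.s3h)
    (cond (cond (tFc d.a1 d.s1l d.s1h b d.s3l d.s3h) true
        (tW d.a1 d.s1l d.s1h d.b0 d.s2l d.s2h b b1 d.s3l d.s3h))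
      (cond (cond xa (tX3 d.a0 d.a1 d.s1l d.s1h b d.s3l d.s3h) true)
        (cond xb (tX3 d.b0 d.b1 d.s2l d.s2h b d.s3l d.s3h) true) false) false) false

/-- The test of a cell. -/
def stN (xa xb : Bool) (c : Cl) : Bool :=
  withDt c (fun d => fN (fun b => fN (fun b1 => stD xa xb d b b1)
    (Nat.succ (Nat.div (Nat.mul d.f1 d.f1) 1048576))) (Nat.div (Nat.mul d.f0 d.f0) 1048576))

theorem div_le_U {f : ℕ} {x : ℝ} (hf : (f : ℝ) ≤ 1048576 * x) :
    ((Nat.div (Nat.mul f f) 1048576 : ℕ) : ℝ) ≤ 1048576 * x ^ 2 := by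
  have h1 : ((f * f / 1048576 : ℕ) : ℝ) ≤ ((f * f : ℕ) : ℝ) / ((1048576 : ℕ) : ℝ) := Nat.cast_div_le
  have h2 : (0 : ℝ) ≤ f := Nat.cast_nonneg _
  have h3 : (f : ℝ) * f ≤ (1048576 * x) * (1048576 * x) := mul_le_mul hf hf h2 (by linarith)
  have h4 : ((f * f : ℕ) : ℝ) / ((1048576 : ℕ) : ℝ) ≤ 1048576 * x ^ 2 := by
    rw [div_le_iff₀ (by norm_num)]
    push_cast
    linarith
  exact h1.trans h4

theorem U_le_div {f : ℕ} {x : ℝ} (hx : 0 ≤ x) (hf : 1048576 * x ≤ f) :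
    1048576 * x ^ 2 ≤ ((Nat.succ (Nat.div (Nat.mul f f) 1048576) : ℕ) : ℝ) := by
  have h1 : f * f < 1048576 * (f * f / 1048576 + 1) := Nat.lt_mul_div_succ _ (by norm_num)
  have h2 : ((f * f : ℕ) : ℝ) < ((1048576 * (f * f / 1048576 + 1) : ℕ) : ℝ) := by exact_mod_cast h1
  rw [Nat.cast_mul, Nat.cast_mul] at h2
  have h3 : (1048576 * x) * (1048576 * x) ≤ (f : ℝ) * f := mul_le_mul hf hf (by positivity) (by positivity)
  show 1048576 * x ^ 2 ≤ ((f * f / 1048576 + 1 : ℕ) : ℝ)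
  have h4 : ((1048576 : ℕ) : ℝ) = 1048576 := by norm_num
  rw [h4] at h2
  nlinarith

theorem stD_sound {xa xb : Bool} {d : Dt} {b b1 : ℕ} {p h q g : ℝ} (h1 : stD xa xb d b b1 = true)
    (hd : DtOK d p h q g) (hP : Pos p q) (hb : (b : ℝ) ≤ 1048576 * Sn (p + q))
    (hb1 : 1048576 * Sn (p + q) ≤ b1) : StB xa xb p h q g := by
  obtain ⟨p0, p1, q0, q1⟩ := hP
  have k1 := Sn_pos p0 (by linarith)
  have k2 := Sn_pos q0 (by linarith)
  have k3 := Sn_pos (t := p + q) (by linarith) (by linarith)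
  have A : SlD d.a1 d.s1l d.s1h b d.s3l d.s3h (Real.sinh (Real.pi * h) ^ 2)
      (Real.sinh (Real.pi * (h + g)) ^ 2) p (p + q) :=
    ⟨k1, k3, sq_nonneg _, sq_nonneg _, hd.a1, hd.s1l, hd.s1h, hb, hd.s3l, hd.s3h⟩
  have B : SlD d.b1 d.s2l d.s2h b d.s3l d.s3h (Real.sinh (Real.pi * g) ^ 2)
      (Real.sinh (Real.pi * (h + g)) ^ 2) q (p + q) :=
    ⟨k2, k3, sq_nonneg _, sq_nonneg _, hd.b1, hd.s2l, hd.s2h, hb, hd.s3l, hd.s3h⟩
  unfold stD at h1
  obtain ⟨h2, h1⟩ := cond_and h1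
  obtain ⟨h3, h1⟩ := cond_and h1
  obtain ⟨h4, h5⟩ := cond_and h1
  obtain ⟨f2, F2⟩ := tFc_sound h2 B
  refine ⟨fun hS => ?_, fun hx => ?_, fun hx => ?_⟩
  · refine flat_of_strip (sq_nonneg _) f2 (sq_nonneg _) q0 q1 ?_ F2
    rcases cond_cases h3 with ⟨h3, -⟩ | ⟨-, h3⟩
    · obtain ⟨f1, F1⟩ := tFc_sound h3 A
      exact strip_F (sq_nonneg _) f1 (sq_nonneg _) p0 p1 hS F1
    · have W := tW_sound h3 A hd.b0 k2 hd.s2l hd.s2h hb1
      exact strip_W (sq_nonneg _) W.h1 W.h2 (sq_nonneg _) W.h3 p0 p1 q0 q1 W.C1 W.C2 W.C3 hS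
  · subst hx
    exact tX3_sound h4 A hd.a0 p0.le p1.le
  · subst hx
    exact tX3_sound h5 B hd.b0 q0.le q1.le

theorem stN_sound {xa xb : Bool} {c : Cl} {p h q g : ℝ} (h1 : stN xa xb c = true) (hM : c.Mem p h q g)
    (hP : Pos p q) : StB xa xb p h q g := by
  unfold stN at h1
  rw [withDt_eq, fN_eq, fN_eq] at h1
  have hd := dt_ok hP.hp0 hP.hp1 hP.hq0 hP.hq1 hM
  have kx : 0 ≤ Real.sin (Real.pi * (p + q)) := by
    obtain ⟨p0, p1, q0, q1⟩ := hP
    exact Real.sin_nonneg_of_nonneg_of_le_pi (by positivity) (by nlinarith [Real.pi_pos])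
  exact stD_sound h1 hd hP (div_le_U hd.f0) (U_le_div kx hd.f1)

/-! ### Certificates -/

/-- The argument of the right slot if it is an `S` slot. -/
def ArS (pr : Pr) (br : ℂ) : Prop :=
  pr.a = 0 → 0 < br.re ∧ br.im ≤ 0 ∧ -br.im ≤ (pr.rt1 : ℝ) / 1000 * br.re

/-- The exclusion of a cell by the argument. -/
def xsN (pr : Pr) (t : ℕ) (c : Cl) : Bool :=
  withSb c.a c.a' c.b c.b' (fun l => withSb c.c c.c' c.d c.d' (fun r =>
    cond (Nat.ble t 5) (exAg pr.lt1 l r) (cond (Nat.beq pr.a 1) (exAg pr.rt1 r l)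
      (cond (Nat.beq pr.a 0) (exAs pr.rt1 r l) false))))

theorem xsN_sound {pr : Pr} {t : ℕ} {c : Cl} (h1 : xsN pr t c = true) :
    ∀ x1 x2 x3 x4, c.In x1 x2 x3 x4 → ∀ bl br k : ℂ, Hyp pr bl br k x1 x2 x3 x4 → ArS pr br → False := by
  unfold xsN at h1
  obtain ⟨a1, h1⟩ := withSb_sound h1
  obtain ⟨a2, h1⟩ := withSb_sound h1
  intro x1 x2 x3 x4 hx bl br k H hA
  obtain ⟨⟨m1, m2, m3, m4⟩, b1, b2, b3, b4, b5, b6, b7, b8⟩ := hx
  have s1 := sb_ok m1 b1 b2 b3 b4 a1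
  have s2 := sb_ok m2 b5 b6 b7 b8 a2
  rcases cond_cases h1 with ⟨_, h1⟩ | ⟨_, h1⟩
  · exact exAg_sound h1 s1 s2 H.R1 H.l_re H.l_im H.l_t1
  · rcases cond_cases h1 with ⟨g1, h1⟩ | ⟨_, h1⟩
    · obtain ⟨a1, a2, a3⟩ := H.r_ar (Nat.eq_of_beq_eq_true g1)
      exact exAg_sound h1 s2 s1 H.R2 a1 a2 a3
    · obtain ⟨g1, h1⟩ := cond_and h1
      obtain ⟨a1, a2, a3⟩ := hA (Nat.eq_of_beq_eq_true g1)
      exact exAs_sound h1 s2 s1 H.R2 a1 a2 a3

/-- The leaves. -/
def leafS (pr : Pr) (xa xb : Bool) (t : ℕ) (c : Cl) (z : ℕ) (k : ℕ → Bool) : Bool :=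
  cond (Nat.ble t 4) (cond (stN xa xb c) (k z) false) (cond (Nat.ble t 6) (cond (xsN pr t c) (k z) false)
    (xcN pr c z k))

/-- The statement proved on a cell. -/
def GoodS (pr : Pr) (xa xb : Bool) (x1 x2 x3 x4 : ℝ) : Prop :=
  ∀ p h q g : ℝ, ∀ bl br k : ℂ, x1 = tw p → x2 = ex h → x3 = tw q → x4 = ex g → Pos p q →
    Hyp pr bl br k x1 x2 x3 x4 → ArS pr br → StB xa xb p h q g

theorem leafS_sound (pr : Pr) (xa xb : Bool) (t : ℕ) (c : Cl) (z : ℕ) (kk : ℕ → Bool)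
    (h1 : leafS pr xa xb t c z kk = true) :
    (∀ x1 x2 x3 x4, c.In x1 x2 x3 x4 → GoodS pr xa xb x1 x2 x3 x4) ∧ ∃ z', kk z' = true := by
  unfold leafS at h1
  rcases cond_cases h1 with ⟨_, h1⟩ | ⟨_, h1⟩
  · obtain ⟨h2, h3⟩ := cond_and h1
    refine ⟨?_, _, h3⟩
    intro x1 x2 x3 x4 hx p h q g bl br k e1 e2 e3 e4 hP H hA
    subst e1 e2 e3 e4
    exact stN_sound h2 hx hP
  rcases cond_cases h1 with ⟨_, h1⟩ | ⟨_, h1⟩
  · obtain ⟨h2, h3⟩ := cond_and h1
    refine ⟨?_, _, h3⟩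
    intro x1 x2 x3 x4 hx p h q g bl br k e1 e2 e3 e4 hP H hA
    exact (xsN_sound h2 x1 x2 x3 x4 hx bl br k H hA).elim
  · obtain ⟨h2, h3⟩ := xcN_sound h1
    refine ⟨?_, h3⟩
    intro x1 x2 x3 x4 hx p h q g bl br k e1 e2 e3 e4 hP H hA
    exact (h2 x1 x2 x3 x4 hx bl br k H).elim

/-- **A certificate for the strips.** -/
def certS (pr : Pr) (xa xb : Bool) (n : ℕ) (c : Cl) (z : ℕ) : Bool :=
  run (leafS pr xa xb) n c z (fun z => Nat.beq z 0)

theorem certS_sound {pr : Pr} {xa xb : Bool} {n : ℕ} {c : Cl} {z : ℕ} (h : certS pr xa xb n c z = true)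
    {p h' q g : ℝ} {bl br k : ℂ} (hM : c.Mem p h' q g) (hP : Pos p q)
    (H : Hyp pr bl br k (tw p) (ex h') (tw q) (ex g)) (hA : ArS pr br) : StB xa xb p h' q g :=
  (run_sound (P := GoodS pr xa xb) (leafS_sound pr xa xb) n c z _ h).1 _ _ _ _ hM p h' q g bl br k
    rfl rfl rfl rfl hP H hA

end Pool.Agent.S5.F
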