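import Pool.Agent.S5.I.F15
import Pool.Agent.S5.I.W2j
import Pool.Agent.S5.I.W2n

/-!
# Closed nodes with two half twists, weights `2` and `1`: the certificates

Rows of inner nodes with two half twists whose `S` neighbour is an end with three half twists. `w2q` is
a variant of the test of the part `q ≥ 1 / 2` with the condition `sin² π (p + q) ≥ 7 / 10`.
-/

set_option autoImplicit false

namespace Pool.Agent.S5.C2

open MeasureTheory Filter Topology Set

theorem Sn_three_tenths : Sn (3 / 10) < 7 / 10 := by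
  have e : Real.sin (Real.pi * (3 / 10)) = Real.cos (Real.pi / 5) := by
    rw [← Real.cos_pi_div_two_sub]
    congr 1
    ring
  have h5 : √5 < 2.2362 := by
    rw [Real.sqrt_lt' (by norm_num)]
    norm_num
  have h0 : (0 : ℝ) ≤ √5 := Real.sqrt_nonneg _
  unfold Sn
  rw [e, Real.cos_pi_div_five]
  nlinarith

/-- The third defect is small on `[1/2, 3/2]`. -/
theorem D3_le' {s P0 P : ℝ} (hs : 0 ≤ s) (h0 : 3 / 10 ≤ P0) (h1 : P0 ≤ 7 / 10)
    (hS0 : 7 / 10 ≤ Sn P0) (hP : 1 / 2 ≤ P)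
    (hP1 : P ≤ 3 / 2) : Dq s P0 P ≤ 2 / 5 * (Lq s (1 / 2) - Lq s P0) := by
  have hi : ∀ a b : ℝ, IntervalIntegrable (fun t => Lq s t - Lq s P0) volume a b := fun a b =>
    (Lq_int hs a b).sub (by simp)
  have hmono : ∀ {t t' : ℝ}, 0 < Sn t → Sn t ≤ Sn t' → Lq s t ≤ Lq s t' := fun h h' =>
    Lq_mono_t hs (by linarith) h'
  have hΔ : 0 ≤ Lq s (1 / 2) - Lq s P0 := by
    have := hmono (t := P0) (t' := 1 / 2) (by linarith) (by rw [Sn_half]; exact Sn_le_one _)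
    linarith
  set Δ := Lq s (1 / 2) - Lq s P0 with hΔd
  -- the part up to `1`
  have partA : ∀ P : ℝ, 1 / 2 ≤ P → P ≤ 1 → Dq s P0 P ≤ 2 / 5 * Δ := by
    intro P hP hP1
    rcases le_total P0 (1 / 2) with hc | hc
    · have up : ∀ P : ℝ, P0 ≤ P → P ≤ 1 - P0 → Dq s P0 P ≤ 2 / 5 * Δ := by
        intro P hP hP1
        have h2 := int_ub (d := Lq s P0) (c := Lq s (1 / 2)) hs hP (fun t ht => hmono
          (Sn_pos (by linarith [ht.1]) (by linarith [ht.2])) (by rw [Sn_half]; exact Sn_le_one _))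
        have h3 : (P - P0) * Δ ≤ 2 / 5 * Δ := mul_le_mul_of_nonneg_right (by linarith) hΔ
        have h4 : Dq s P0 P = ∫ t in P0..P, (Lq s t - Lq s P0) := rfl
        rw [← hΔd] at h2
        linarith
      rcases le_total P (1 - P0) with h | h
      · exact up P (by linarith) h
      · have e := Dq_sub hs P0 (1 - P0) P
        have h2 := int_ub (d := Lq s P0) (c := Lq s P0) hs h (fun t ht => hmono
          (Sn_pos (by linarith [ht.1]) (by linarith [ht.2])) (by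
            rw [← Sn_one_sub P0]
            exact Sn_anti (by linarith) ht.1.le (by linarith [ht.2])))
        have h3 := up (1 - P0) (by linarith) le_rfl
        rw [sub_self, mul_zero] at h2
        linarith
    · rcases le_total P P0 with h | h
      · have h2 := int_lb (d := Lq s P0) (c := Lq s P0) hs h (fun t ht => hmono
          (by linarith) (Sn_anti (by linarith [ht.1]) ht.2.le (by linarith)))
        have h4 : Dq s P0 P = -∫ t in P..P0, (Lq s t - Lq s P0) := by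
          rw [← intervalIntegral.integral_symm]
          rfl
        rw [sub_self, mul_zero] at h2
        linarith
      · have h2 := int_ub (d := Lq s P0) (c := Lq s P0) hs h (fun t ht => hmono
          (Sn_pos (by linarith [ht.1]) (by linarith [ht.2]))
          (Sn_anti hc ht.1.le (by linarith [ht.2])))
        have h4 : Dq s P0 P = ∫ t in P0..P, (Lq s t - Lq s P0) := rfl
        rw [sub_self, mul_zero] at h2
        linarith
  rcases le_total P 1 with h | h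
  · exact partA P hP h
  · have e := Dq_sub hs P0 1 P
    have hA := partA 1 (by norm_num) le_rfl
    suffices hB : ∫ t in (1 : ℝ)..P, (Lq s t - Lq s P0) ≤ 0 by linarith
    have hpos : ∀ t : ℝ, 1 < t → t < 3 / 2 → 0 < Sn t := by
      intro t h2 h3
      rw [← Sn_sub_one]
      exact Sn_pos (by linarith) (by linarith)
    have hup : ∀ a b : ℝ, 1 ≤ a → a ≤ b → b ≤ 3 / 2 →
        ∫ t in a..b, (Lq s t - Lq s P0) ≤ (b - a) * (Lq s (b - 1) - Lq s P0) := by
      intro a b ha hab hb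
      apply int_ub hs hab
      intro t ht
      apply hmono (hpos t (by linarith [ht.1]) (by linarith [ht.2]))
      rw [← Sn_sub_one t]
      exact Sn_mono (by linarith [ht.1]) (by linarith [ht.2]) (by linarith)
    have hneg : ∀ a b : ℝ, 1 ≤ a → a ≤ b → b ≤ 13 / 10 →
        ∫ t in a..b, (Lq s t - Lq s P0) ≤ 0 := by
      intro a b ha hab hb
      have h2 := int_ub (d := Lq s P0) (c := Lq s P0) hs hab (fun t ht => hmono
        (hpos t (by linarith [ht.1]) (by linarith [ht.2])) (by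
          rw [← Sn_sub_one t]
          have h3 := Sn_mono (t := t - 1) (t' := 3 / 10) (by linarith [ht.1]) (by linarith [ht.2])
            (by norm_num)
          have h4 := Sn_three_tenths
          linarith))
      rwa [sub_self, mul_zero] at h2
    rcases le_total P (13 / 10) with h2 | h2
    · exact hneg 1 P le_rfl h h2
    · have a1 := hup 1 (7 / 6) le_rfl (by norm_num) (by norm_num)
      have a2 := hneg (7 / 6) (13 / 10) (by norm_num) (by norm_num) le_rfl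
      have a3 : ∫ t in (13 / 10 : ℝ)..P, (Lq s t - Lq s P0) ≤ (P - 13 / 10) * Δ := by
        apply int_ub hs h2
        intro t ht
        exact hmono (hpos t (by linarith [ht.1]) (by linarith [ht.2]))
          (by rw [Sn_half]; exact Sn_le_one _)
      have a4 : (P - 13 / 10) * Δ ≤ 1 / 5 * Δ := mul_le_mul_of_nonneg_right (by linarith) hΔ
      rw [show (7 : ℝ) / 6 - 1 = 1 / 6 by norm_num] at a1
      have key : 5 * Lq s (1 / 6) + 6 * Lq s (1 / 2) ≤ 11 * Lq s P0 := by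
        simp only [Lq_eq, Sn_sixth, Sn_half]
        have h7 : 0 < Sn P0 + s := by linarith
        have k0 : Real.log (7 / 10 + s) ≤ Real.log (Sn P0 + s) :=
          Real.log_le_log (by positivity) (by linarith)
        have k1 : Real.log (1 / 4 + s) + Real.log (1 + s) ≤ 2 * Real.log (5 / 8 + s) := by
          have h5 : (1 / 4 + s) * (1 + s) ≤ (5 / 8 + s) ^ 2 := by nlinarith
          have h6 := Real.log_le_log (by positivity) h5
          rw [Real.log_mul (by positivity) (by positivity), Real.log_pow] at h6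
          push_cast at h6
          exact h6
        have k2 : Real.log (1 + s) - Real.log (7 / 10 + s) ≤ 3 / 10 / (7 / 10 + s) := by
          rw [← Real.log_div (by positivity) (by positivity)]
          have h8 := Real.log_le_sub_one_of_pos (x := (1 + s) / (7 / 10 + s)) (by positivity)
          have h9 : (1 + s) / (7 / 10 + s) - 1 = 3 / 10 / (7 / 10 + s) := by
            field_simp
            ring
          linarith
        have k3 : 3 / 40 / (7 / 10 + s) ≤ Real.log (7 / 10 + s) - Real.log (5 / 8 + s) := by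
          rw [← Real.log_div (by positivity) (by positivity)]
          have h8 := Real.one_sub_inv_le_log_of_pos (x := (7 / 10 + s) / (5 / 8 + s)) (by positivity)
          have h9 : 1 - ((7 / 10 + s) / (5 / 8 + s))⁻¹ = 3 / 40 / (7 / 10 + s) := by
            rw [inv_div]
            field_simp
            ring
          linarith
        have k4 : 3 / 10 / (7 / 10 + s) = 4 * (3 / 40 / (7 / 10 + s)) := by ring
        have k5 : 0 ≤ 3 / 40 / (7 / 10 + s) := by positivity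
        rw [Real.log_mul (by norm_num) (by positivity), Real.log_mul (by norm_num) (by positivity),
          Real.log_mul (by norm_num) h7.ne']
        linarith
      rw [← intervalIntegral.integral_add_adjacent_intervals (hi 1 (7 / 6)) (hi (7 / 6) P),
        ← intervalIntegral.integral_add_adjacent_intervals (hi (7 / 6) (13 / 10)) (hi (13 / 10) P)]
      linarith

theorem log_55 : (4 : ℝ) ≤ Real.log 55 := by
  rw [Real.le_log_iff_exp_le (by norm_num)]
  have h1 := Real.exp_one_lt_d9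
  have h2 : Real.exp 4 = Real.exp 1 ^ 4 := by
    rw [← Real.exp_nat_mul]
    norm_num
  have h3 : Real.exp 1 ^ 4 ≤ (2.7182818286 : ℝ) ^ 4 :=
    pow_le_pow_left₀ (Real.exp_pos 1).le h1.le 4
  rw [h2]
  refine h3.trans ?_
  norm_num

/-- **The part `q ≥ 1 / 2`**, weights `2` and `1`, a variant. -/
theorem SW_right' {s1 s2 s3 p0 q0 x y z : ℝ} (hs1 : 0 ≤ s1) (hs2 : 0 ≤ s2) (hs3 : 0 ≤ s3)
    (hp0 : 0 < p0) (hp1 : p0 < 1 / 2) (hq0 : 0 < q0) (hq1 : q0 ≤ 1 / 4)
    (hP0 : 3 / 10 ≤ p0 + q0) (hP1 : p0 + q0 ≤ 7 / 10) (hS : 7 / 10 ≤ Sn (p0 + q0))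
    (hx : 0 < x) (hy : 0 < y) (hz : 1 ≤ z)
    (cz : (Sn p0 + s1) ^ 2 ≤ z * ((1 + s1) * (1 / 2 + s1)))
    (cy : 1 + s3 ≤ y * (Sn (p0 + q0) + s3))
    (cx : x * (Sn q0 + s2) ^ 2 ≤ (1 / 2 + s2) * (0.8535 + s2))
    (hR : 55 * (z ^ 10 * y ^ 16) ≤ x ^ 5) (p q : ℝ) (hp : 0 ≤ p) (hp' : p ≤ 3 / 4)
    (hq : 1 / 2 ≤ q) (hq' : q ≤ 3 / 4) : 1 / 20 ≤ SW s1 s2 s3 p0 q0 p q := by
  have d1 := D1_ge hs1 hp0 hp1 hz cz hp hp'
  have d2 := D2_ge hs2 hq0 hq1 hq hq'
  have d3 := D3_le' (P := p + q) hs3 hP0 hP1 hS (by linarith) (by linarith)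
  have h38 := Sn_three_eighths
  have hB : 0 < Sn (p0 + q0) + s3 := by linarith
  have hA2 : 0 < Sn q0 + s2 := by
    have := Sn_pos hq0 (by linarith)
    linarith
  have e2 : Real.log x ≤ 2 * (Lq s2 (1 / 4) + Lq s2 (3 / 8) - 2 * Lq s2 q0) := by
    have h1 : x * (Sn q0 + s2) ^ 2 ≤ (1 / 2 + s2) * (Sn (3 / 8) + s2) :=
      cx.trans (mul_le_mul_of_nonneg_left (by linarith) (by linarith))
    have h2 := Real.log_le_log (by positivity) h1
    have h3 : 0 < Sn (3 / 8) + s2 := by linarith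
    rw [Real.log_mul hx.ne' (by positivity), Real.log_mul (by positivity) h3.ne',
      Real.log_pow] at h2
    push_cast at h2
    simp only [Lq_eq, Sn_quarter]
    rw [Real.log_mul (by norm_num) (by positivity), Real.log_mul (by norm_num) h3.ne',
      Real.log_mul (by norm_num) hA2.ne']
    linarith
  have e3 : 2 * (Lq s3 (1 / 2) - Lq s3 (p0 + q0)) ≤ Real.log y := by
    have h2 := Real.log_le_log (by positivity) cy
    rw [Real.log_mul hy.ne' hB.ne'] at h2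
    simp only [Lq_eq, Sn_half]
    rw [Real.log_mul (by norm_num) (by positivity), Real.log_mul (by norm_num) hB.ne']
    linarith
  have e4 : 4 + 10 * Real.log z + 16 * Real.log y ≤ 5 * Real.log x := by
    have hz0 : 0 < z := by linarith
    have h2 := Real.log_le_log (by positivity) hR
    rw [Real.log_mul (by norm_num) (by positivity), Real.log_mul (by positivity) (by positivity),
      Real.log_pow, Real.log_pow, Real.log_pow] at h2
    push_cast at h2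
    have := log_55
    linarith
  unfold SW
  linarith

/-- **The part `q ≥ 1 / 2` on a box**, a variant. -/
theorem SW_right_box' {s1 s2 s3 p0 q0 au bu tl1 tu1 tl2 tu2 tl3 fl x y z : ℝ} (hs1 : 0 ≤ s1)
    (hs3 : 0 ≤ s3) (hp0 : 0 < p0) (hp1 : p0 < 1 / 2) (hq0 : 0 < q0) (hq1 : q0 ≤ 1 / 4)
    (hP0 : 3 / 10 ≤ p0 + q0) (hP1 : p0 + q0 ≤ 7 / 10) (hS : 7 / 10 ≤ Sn (p0 + q0))
    (ha : Sn p0 ≤ au) (hb : Sn q0 ≤ bu) (htl1 : 0 ≤ tl1) (h1 : tl1 ≤ s1) (h1' : s1 ≤ tu1)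
    (htl2 : 0 ≤ tl2) (h2 : tl2 ≤ s2) (h2' : s2 ≤ tu2) (h3 : tl3 ≤ s3) (hf : fl ^ 2 ≤ Sn (p0 + q0))
    (hx : 1 ≤ x) (hy : 1 ≤ y) (hz : 1 ≤ z)
    (cz : (au + tu1) ^ 2 ≤ z * ((1 + tl1) * (1 / 2 + tl1)))
    (cy : 1 + tl3 ≤ y * (fl ^ 2 + tl3))
    (cx1 : x * (bu + tl2) ^ 2 ≤ (1 / 2 + tl2) * (0.8535 + tl2))
    (cx2 : x * (bu + tu2) ^ 2 ≤ (1 / 2 + tu2) * (0.8535 + tu2))
    (hR : 55 * (z ^ 10 * y ^ 16) ≤ x ^ 5) (p q : ℝ) (hp : 0 ≤ p) (hp' : p ≤ 3 / 4)
    (hq : 1 / 2 ≤ q) (hq' : q ≤ 3 / 4) : 1 / 20 ≤ SW s1 s2 s3 p0 q0 p q := by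
  have hs2 : 0 ≤ s2 := htl2.trans h2
  have ha0 : 0 < Sn p0 := Sn_pos hp0 (by linarith)
  have hb0 : 0 < Sn q0 := Sn_pos hq0 (by linarith)
  refine SW_right' hs1 hs2 hs3 hp0 hp1 hq0 hq1 hP0 hP1 hS (by linarith : 0 < x)
    (by linarith : 0 < y) hz ?_ ?_ ?_ hR p q hp hp' hq hq'
  · calc (Sn p0 + s1) ^ 2 ≤ (au + tu1) ^ 2 := pow_le_pow_left₀ (by linarith) (by linarith) 2
      _ ≤ z * ((1 + tl1) * (1 / 2 + tl1)) := cz
      _ ≤ _ := mul_le_mul_of_nonneg_left (mul_le_mul (by linarith) (by linarith) (by linarith)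
          (by linarith)) (by linarith)
  · have k1 : 0 ≤ (y - 1) * (s3 - tl3) := mul_nonneg (by linarith) (by linarith)
    have k2 : y * fl ^ 2 ≤ y * Sn (p0 + q0) := mul_le_mul_of_nonneg_left hf (by linarith)
    linarith
  · have k1 : (Sn q0 + s2) ^ 2 ≤ (bu + s2) ^ 2 := pow_le_pow_left₀ (by linarith) (by linarith) 2
    have k2 : x * (Sn q0 + s2) ^ 2 ≤ x * (bu + s2) ^ 2 :=
      mul_le_mul_of_nonneg_left k1 (by linarith)
    rcases (h2.trans h2').eq_or_lt with he | hlt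
    · have h7 : s2 = tl2 := le_antisymm (by linarith) h2
      rw [h7] at k2 ⊢
      linarith
    · have k3 : 0 ≤ (tu2 - s2) * ((1 / 2 + tl2) * (0.8535 + tl2) - x * (bu + tl2) ^ 2) :=
        mul_nonneg (by linarith) (by linarith)
      have k4 : 0 ≤ (s2 - tl2) * ((1 / 2 + tu2) * (0.8535 + tu2) - x * (bu + tu2) ^ 2) :=
        mul_nonneg (by linarith) (by linarith)
      have k5 : 0 ≤ (tu2 - tl2) * ((x - 1) * ((s2 - tl2) * (tu2 - s2))) :=
        mul_nonneg (by linarith) (mul_nonneg (by linarith) (mul_nonneg (by linarith)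
          (by linarith)))
      have k6 : (tu2 - tl2) * ((1 / 2 + s2) * (0.8535 + s2) - x * (bu + s2) ^ 2) =
          (tu2 - s2) * ((1 / 2 + tl2) * (0.8535 + tl2) - x * (bu + tl2) ^ 2) +
          (s2 - tl2) * ((1 / 2 + tu2) * (0.8535 + tu2) - x * (bu + tu2) ^ 2) +
          (tu2 - tl2) * ((x - 1) * ((s2 - tl2) * (tu2 - s2))) := by ring
      have k7 : 0 ≤ (tu2 - tl2) * ((1 / 2 + s2) * (0.8535 + s2) - x * (bu + s2) ^ 2) := by
        linarith
      have := nonneg_of_mul_nonneg_right k7 (by linarith : 0 < tu2 - tl2)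
      linarith

end Pool.Agent.S5.C2

namespace Pool.Agent.S5.F

open Pool.Agent.S5.C2 Pool.Agent.S5.Num Set

/-- The test of the part `q ≥ 1 / 2`, a variant. -/
def w2q (d : Dt) (x y z : ℕ) : Bool :=
  cond (Nat.ble d.b1 524288) (cond (Nat.ble 7696581394432 (Nat.mul 10 (Nat.mul d.f0 d.f0)))
  (cond (Nat.ble 1048576 x) (cond (Nat.ble 1048576 y) (cond (Nat.ble 1048576 z)
  (cond (Nat.ble (Nat.mul 2097152 (fN (fun m => Nat.mul m m) (Nat.add d.a1 d.s1h)))
    (Nat.mul z (Nat.mul (Nat.add 1048576 d.s1l) (Nat.add 1048576 (Nat.mul 2 d.s1l)))))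
  (cond (Nat.ble (Nat.mul 1099511627776 (Nat.add 1048576 d.s3l))
    (Nat.mul y (Nat.add (Nat.mul d.f0 d.f0) (Nat.mul 1048576 d.s3l))))
  (cond (Nat.ble (Nat.mul 40000 (Nat.mul x (fN (fun m => Nat.mul m m) (Nat.add d.b1 d.s2l))))
    (Nat.mul 1048576 (Nat.mul (Nat.add 1048576 (Nat.mul 2 d.s2l))
      (Nat.add 17899192320 (Nat.mul 20000 d.s2l)))))
  (cond (Nat.ble (Nat.mul 40000 (Nat.mul x (fN (fun m => Nat.mul m m) (Nat.add d.b1 d.s2h))))
    (Nat.mul 1048576 (Nat.mul (Nat.add 1048576 (Nat.mul 2 d.s2h))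
      (Nat.add 17899192320 (Nat.mul 20000 d.s2h)))))
  (Nat.ble (Nat.mul 55 (Nat.mul (Nat.pow z 10) (Nat.pow y 16)))
    (Nat.mul (Nat.pow 1048576 21) (Nat.pow x 5)))
  false) false) false) false) false) false) false) false) false

theorem w2q_sound {d : Dt} {x y z : ℕ} {p h q g : ℝ} (ht : w2q d x y z = true)
    (hd : DtOK d p h q g) (hp : 0 < p) (hp1 : p < 1 / 2) (hq : 0 < q) (hq1 : q < 1 / 2)
    (p' q' : ℝ) (hp' : 0 ≤ p') (hp2 : p' ≤ 3 / 4) (hq' : 1 / 2 ≤ q') (hq2 : q' ≤ 3 / 4) :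
    1 / 20 ≤ SW (Real.sinh (Real.pi * h) ^ 2) (Real.sinh (Real.pi * g) ^ 2)
      (Real.sinh (Real.pi * (h + g)) ^ 2) p q p' q' := by
  unfold w2q at ht
  simp only [fN_eq] at ht
  obtain ⟨t1, ht⟩ := w2_cond_and ht
  obtain ⟨t2, ht⟩ := w2_cond_and ht
  obtain ⟨t3, ht⟩ := w2_cond_and ht
  obtain ⟨t4, ht⟩ := w2_cond_and ht
  obtain ⟨t5, ht⟩ := w2_cond_and ht
  obtain ⟨t6, ht⟩ := w2_cond_and ht
  obtain ⟨t7, ht⟩ := w2_cond_and ht
  obtain ⟨t8, ht⟩ := w2_cond_and ht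
  obtain ⟨t9, t10⟩ := w2_cond_and ht
  have i1 : d.b1 ≤ 524288 := Nat.le_of_ble_eq_true t1
  have i2 : 7696581394432 ≤ 10 * (d.f0 * d.f0) := Nat.le_of_ble_eq_true t2
  have i3 : 1048576 ≤ x := Nat.le_of_ble_eq_true t3
  have i4 : 1048576 ≤ y := Nat.le_of_ble_eq_true t4
  have i5 : 1048576 ≤ z := Nat.le_of_ble_eq_true t5
  have i6 : 2097152 * ((d.a1 + d.s1h) * (d.a1 + d.s1h)) ≤
      z * ((1048576 + d.s1l) * (1048576 + 2 * d.s1l)) := Nat.le_of_ble_eq_true t6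
  have i7 : 1099511627776 * (1048576 + d.s3l) ≤ y * (d.f0 * d.f0 + 1048576 * d.s3l) :=
    Nat.le_of_ble_eq_true t7
  have i8 : 40000 * (x * ((d.b1 + d.s2l) * (d.b1 + d.s2l))) ≤
      1048576 * ((1048576 + 2 * d.s2l) * (17899192320 + 20000 * d.s2l)) :=
    Nat.le_of_ble_eq_true t8
  have i9 : 40000 * (x * ((d.b1 + d.s2h) * (d.b1 + d.s2h))) ≤
      1048576 * ((1048576 + 2 * d.s2h) * (17899192320 + 20000 * d.s2h)) :=
    Nat.le_of_ble_eq_true t9
  have i10 : 55 * (z ^ 10 * y ^ 16) ≤ 1048576 ^ 21 * x ^ 5 := Nat.le_of_ble_eq_true t10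
  rify at i1 i2 i3 i4 i5 i6 i7 i8 i9 i10
  obtain ⟨X, X0, eX⟩ := ex_unit x
  obtain ⟨Y, Y0, eY⟩ := ex_unit y
  obtain ⟨Z, Z0, eZ⟩ := ex_unit z
  obtain ⟨A1, A10, eA1⟩ := ex_unit d.a1
  obtain ⟨B1, B10, eB1⟩ := ex_unit d.b1
  obtain ⟨S1, S10, eS1⟩ := ex_unit d.s1l
  obtain ⟨S1', S10', eS1'⟩ := ex_unit d.s1h
  obtain ⟨S2, S20, eS2⟩ := ex_unit d.s2l
  obtain ⟨S2', S20', eS2'⟩ := ex_unit d.s2h
  obtain ⟨S3, S30, eS3⟩ := ex_unit d.s3l
  obtain ⟨F0, F00, eF0⟩ := ex_unit d.f0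
  obtain ⟨d1, d2, d3, d4, d5, d6, d7, d8, d9, d10, d11, d12⟩ := hd
  rw [eA1] at d2
  rw [eB1] at d4
  rw [eS1] at d5
  rw [eS1'] at d6
  rw [eS2] at d7
  rw [eS2'] at d8
  rw [eS3] at d9
  rw [eF0] at d11
  rw [eB1] at i1
  rw [eF0] at i2
  rw [eX] at i3
  rw [eY] at i4
  rw [eZ] at i5
  rw [eA1, eS1', eZ, eS1] at i6
  rw [eS3, eY, eF0] at i7
  rw [eX, eB1, eS2] at i8
  rw [eX, eB1, eS2'] at i9
  rw [eX, eY, eZ] at i10
  have hf : F0 ^ 2 ≤ Sn (p + q) := by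
    unfold Sn
    exact pow_le_pow_left₀ F00 (by linarith) 2
  have hf3 : 7 / 10 ≤ Sn (p + q) := by linarith
  have h310 := Sn_three_tenths
  have hq4 : q ≤ 1 / 4 := by
    by_contra hc
    rw [not_le] at hc
    have h1 : Sn q ≤ 1 / 2 := by linarith
    have h2 := Sn_strict (by norm_num : (0 : ℝ) < 1 / 4) hc hq1.le
    rw [Sn_quarter] at h2
    linarith
  have hlo : 3 / 10 ≤ p + q := by
    by_contra hc
    rw [not_le] at hc
    have h2 := Sn_strict (by linarith : 0 < p + q) hc (by norm_num)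
    linarith
  have hhi : p + q ≤ 7 / 10 := by
    by_contra hc
    rw [not_le] at hc
    have h2 := Sn_strict (by linarith : 0 < 1 - (p + q)) (by linarith : 1 - (p + q) < 3 / 10)
      (by norm_num)
    rw [Sn_one_sub] at h2
    linarith
  exact SW_right_box' (au := A1) (bu := B1) (tl1 := S1) (tu1 := S1') (tl2 := S2) (tu2 := S2')
    (tl3 := S3) (fl := F0) (x := X) (y := Y) (z := Z) (sq_nonneg _) (sq_nonneg _) hp hp1 hq hq4
    hlo hhi hf3 (by linarith) (by linarith) S10 (by linarith) (by linarith) S20 (by linarith)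
    (by linarith) (by linarith) hf (by linarith) (by linarith) (by linarith) (by linarith)
    (by linarith) (by linarith) (by linarith) (by linarith) p' q' hp' hp2 hq' hq2

/-- The test of the part `q ≥ 1 / 2` with computed witnesses. -/
def w2qA (d : Dt) : Bool :=
  fN (fun x => fN (fun y => fN (fun z => w2q d x y z)
    (mx' 1048576 (Nat.succ (Nat.div (Nat.mul 2097152 (fN (fun m => Nat.mul m m) (Nat.add d.a1 d.s1h)))
      (Nat.mul (Nat.add 1048576 d.s1l) (Nat.add 1048576 (Nat.mul 2 d.s1l)))))))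
    (Nat.succ (Nat.div (Nat.mul 1099511627776 (Nat.add 1048576 d.s3l))
      (Nat.add (Nat.mul d.f0 d.f0) (Nat.mul 1048576 d.s3l)))))
    (mn' (w2x d.b1 d.s2l) (w2x d.b1 d.s2h))

/-- The test of the strip `q ≤ 1 / 2`: reflection (`w = 0`) or the second method. -/
def w2u (d : Dt) (w : ℕ) : Bool :=
  cond (Nat.beq w 0) (w2f d)
  (fN (fun ξ1 => fN (fun ξ2 => fN (fun b1 => fN (fun b2 => fN (fun u2 =>
      w2m d ξ1 ξ2 b1 b2 u2)
    (Nat.sub (w2s (Nat.mul b2 (Nat.sub 1048576 b2))) 1))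
    (mn' 524288 (w2v d (Nat.mul ξ2 ξ2))))
    (w2v d (Nat.mul ξ1 ξ1)))
    (Nat.mul 1024 w))
    (Nat.add (w2s (mx' (w2y d d.s2l d.s3l) (mx' (w2y d d.s2h d.s3l)
      (mx' (w2y d d.s2l d.s3h) (w2y d d.s2h d.s3h))))) 2))

/-- From the square to the flats. -/
def w2t (d : Dt) (w : ℕ) : Bool := cond (w2u d w) (w2qA d) false

theorem w2t_sound {d : Dt} {w : ℕ} {p h q g : ℝ} (ht : w2t d w = true) (hd : DtOK d p h q g)
    (hp : 0 < p) (hp1 : p < 1 / 2) (hq : 0 < q) (hq1 : q < 1 / 2) (hsq : Sq21 p h q g) :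
    Fl21 p h q g := by
  obtain ⟨h1, h2⟩ := w2_cond_and ht
  unfold w2qA at h2
  unfold w2u at h1
  simp only [fN_eq] at h1 h2
  have k := w2q_sound h2 hd hp hp1 hq hq1
  rcases cond_cases h1 with ⟨_, h1⟩ | ⟨_, h1⟩
  · obtain ⟨k1, k2⟩ := w2f_sound h1 hd hp hp1
    exact SW_flat hp hp1 hq hq1 (SW_strip_F (sq_nonneg _) k1 (sq_nonneg _) hp hp1 hsq k2) k
  · exact SW_flat hp hp1 hq hq1 (SW_strip_M hp hp1 hq hq1 hsq (w2m_sound h1 hd hp hp1 hq hq1)) k

/-- The leaves: `4` and `5` the two tests of the square, `6` an exclusion by the argument, `7` the other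
exclusions. -/
def leafG21 (pr : Pr) (t : ℕ) (c : Cl) (z : ℕ) (k : ℕ → Bool) : Bool :=
  cond (Nat.ble t 4)
    (tk 2048 z (fun w z => withDt c (fun d => cond (w2sqA d) (cond (w2t d w) (k z) false) false)))
  (cond (Nat.ble t 5)
    (tk 64 z (fun x z => tk 2048 z (fun w z => withDt c (fun d =>
      cond (w2sqB d x) (cond (w2t d w) (k z) false) false))))
  (cond (Nat.ble t 6) (cond (xgN pr 4 c) (k z) false) (xcN pr c z k)))

/-- The statement proved on a cell. -/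
def GoodG21 (pr : Pr) (x1 x2 x3 x4 : ℝ) : Prop :=
  ∀ p h q g : ℝ, ∀ bl br k : ℂ, x1 = tw p → x2 = ex h → x3 = tw q → x4 = ex g → Pos p q →
    Hyp pr bl br k x1 x2 x3 x4 → Fl21 p h q g

theorem leafG21_sound (pr : Pr) (t : ℕ) (c : Cl) (z : ℕ) (kk : ℕ → Bool) (h1 : leafG21 pr t c z kk = true) :
    (∀ x1 x2 x3 x4, c.In x1 x2 x3 x4 → GoodG21 pr x1 x2 x3 x4) ∧ ∃ z', kk z' = true := by
  unfold leafG21 at h1
  rcases cond_cases h1 with ⟨_, h1⟩ | ⟨_, h1⟩
  · simp only [tk_eq, withDt_eq] at h1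
    obtain ⟨h2, h1⟩ := cond_and h1
    obtain ⟨h3, h4⟩ := cond_and h1
    refine ⟨?_, _, h4⟩
    intro x1 x2 x3 x4 hx p h q g bl br k e1 e2 e3 e4 hP H
    subst e1 e2 e3 e4
    have hd := dt_ok hP.hp0 hP.hp1 hP.hq0 hP.hq1 hx
    exact w2t_sound h3 hd hP.hp0 hP.hp1 hP.hq0 hP.hq1
      (w2sqA_sound h2 hd hP.hp0 hP.hp1 hP.hq0 hP.hq1)
  rcases cond_cases h1 with ⟨_, h1⟩ | ⟨_, h1⟩
  · simp only [tk_eq, withDt_eq] at h1
    obtain ⟨h2, h1⟩ := cond_and h1
    obtain ⟨h3, h4⟩ := cond_and h1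
    refine ⟨?_, _, h4⟩
    intro x1 x2 x3 x4 hx p h q g bl br k e1 e2 e3 e4 hP H
    subst e1 e2 e3 e4
    have hd := dt_ok hP.hp0 hP.hp1 hP.hq0 hP.hq1 hx
    exact w2t_sound h3 hd hP.hp0 hP.hp1 hP.hq0 hP.hq1
      (w2sqB_sound h2 hd hP.hp0 hP.hp1 hP.hq0 hP.hq1)
  rcases cond_cases h1 with ⟨_, h1⟩ | ⟨_, h1⟩
  · obtain ⟨h2, h3⟩ := cond_and h1
    refine ⟨?_, _, h3⟩
    intro x1 x2 x3 x4 hx p h q g bl br k e1 e2 e3 e4 hP H
    exact (xgN_sound h2 x1 x2 x3 x4 hx bl br k H).elim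
  · obtain ⟨h2, h3⟩ := xcN_sound h1
    refine ⟨?_, h3⟩
    intro x1 x2 x3 x4 hx p h q g bl br k e1 e2 e3 e4 hP H
    exact (h2 x1 x2 x3 x4 hx bl br k H).elim

/-- **A certificate for the flats**, weights `2` and `1`. -/
def cert21 (pr : Pr) (n : ℕ) (c : Cl) (z : ℕ) : Bool :=
  run (leafG21 pr) n c z (fun z => Nat.beq z 0)

theorem cert21_sound {pr : Pr} {n : ℕ} {c : Cl} {z : ℕ} (h : cert21 pr n c z = true) {p h' q g : ℝ}
    {bl br k : ℂ} (hM : c.Mem p h' q g) (hP : Pos p q)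
    (H : Hyp pr bl br k (tw p) (ex h') (tw q) (ex g)) : Fl21 p h' q g :=
  (run_sound (P := GoodG21 pr) (leafG21_sound pr) n c z _ h).1 _ _ _ _ hM p h' q g bl br k rfl rfl rfl rfl hP H

end Pool.Agent.S5.F
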