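import Pool.Agent.S5.I.F1

/-!
# The numbers `λ = 1 + i tan (π y)` of a cell
-/

set_option autoImplicit false

namespace Pool.Agent.S5.F

open Pool.Agent.S5.C2 Pool.Agent.S5.Num

/-- `sin² π p`. -/
noncomputable def aF (w : ℝ) : ℝ := 4 * w ^ 2 / (1 + w ^ 2) ^ 2

/-- `sinh² π h`. -/
noncomputable def sF (e : ℝ) : ℝ := (e ^ 2 - 1) ^ 2 / (4 * e ^ 2)

/-- `sin π p cos π p`. -/
noncomputable def scF (w : ℝ) : ℝ := 2 * w * (1 - w ^ 2) / (1 + w ^ 2) ^ 2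

/-- The real part of `λ`. -/
noncomputable def MF (w e : ℝ) : ℝ := 1 - (e ^ 4 - 1) / (4 * e ^ 2) / (aF w + sF e)

/-- The imaginary part of `λ`. -/
noncomputable def YF (w e : ℝ) : ℝ := scF w / (aF w + sF e)

/-- `1 / |λ|²`. -/
noncomputable def DF (w e : ℝ) : ℝ := e ^ 2 * (aF w + sF e)

theorem aF_nonneg (w : ℝ) : 0 ≤ aF w := by unfold aF; positivity

theorem aF_pos {w : ℝ} (h : 0 < w) : 0 < aF w := by unfold aF; positivity

theorem aF_le_one (w : ℝ) : aF w ≤ 1 := by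
  unfold aF
  rw [div_le_one (by positivity)]
  nlinarith [sq_nonneg (1 - w ^ 2)]

theorem sF_nonneg (e : ℝ) : 0 ≤ sF e := by unfold sF; positivity

theorem scF_sq (w : ℝ) : scF w ^ 2 = aF w * (1 - aF w) := by
  unfold scF aF
  have : (0 : ℝ) < 1 + w ^ 2 := by positivity
  field_simp
  ring

theorem scF_nonneg {w : ℝ} (h0 : 0 ≤ w) (h1 : w ≤ 1) : 0 ≤ scF w := by
  unfold scF
  have : 0 ≤ 1 - w ^ 2 := by nlinarith
  positivity

theorem scF_pos {w : ℝ} (h0 : 0 < w) (h1 : w < 1) : 0 < scF w := by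
  unfold scF
  have : 0 < 1 - w ^ 2 := by nlinarith
  positivity

/-! ### Monotonicity -/

/-- The condition for monotonicity passes to larger `a`. -/
theorem cnd_mono {s a a' : ℝ} (hs : 0 ≤ s) (h : a ≤ a') (h1 : s * (1 - 2 * a) ≤ a) : s * (1 - 2 * a') ≤ a' := by
  have : s * (1 - 2 * a') ≤ s * (1 - 2 * a) := mul_le_mul_of_nonneg_left (by linarith) hs
  linarith

theorem cnd_s {s s' a : ℝ} (hs : 0 ≤ s) (h : s ≤ s') (ha : 0 ≤ a) (h1 : s' * (1 - 2 * a) ≤ a) :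
    s * (1 - 2 * a) ≤ a := by
  rcases le_total (1 - 2 * a) 0 with h2 | h2
  · have := mul_nonpos_of_nonneg_of_nonpos hs h2
    linarith
  · have : s * (1 - 2 * a) ≤ s' * (1 - 2 * a) := mul_le_mul_of_nonneg_right h h2
    linarith

theorem YF_anti_w {w w' s : ℝ} (h0 : 0 < w) (h1 : w ≤ w') (h2 : w' ≤ 1) (hs : 0 ≤ s)
    (hs1 : s * (1 - 2 * aF w) ≤ aF w) :
    scF w' / (aF w' + s) ≤ scF w / (aF w + s) := by
  have ha := gS_mono h0.le h1 h2
  change aF w ≤ aF w' at ha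
  have a0 := aF_pos h0
  have a1 := aF_le_one w'
  have hA : 0 < aF w + s := by linarith
  have hA' : 0 < aF w' + s := by linarith
  have n1 := scF_nonneg (h0.le.trans h1) h2
  have n2 := scF_nonneg h0.le (h1.trans h2)
  rw [div_le_div_iff₀ hA' hA]
  apply le_of_sq_le_sq _ (by positivity)
  rw [mul_pow, mul_pow, scF_sq, scF_sq]
  set a := aF w
  set a' := aF w'
  have hs2 := cnd_mono hs ha hs1
  have k : 0 ≤ (a' - a) * (a * a' - s ^ 2 + 2 * a * a' * s + s ^ 2 * (a' + a)) := by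
    apply mul_nonneg (by linarith)
    have x1 : s ≤ a * (1 + 2 * s) := by linarith
    have x2 : s ≤ a' * (1 + 2 * s) := by linarith
    have x3 : s * s ≤ (a * (1 + 2 * s)) * (a' * (1 + 2 * s)) := mul_le_mul x1 x2 hs (by positivity)
    have x4 : s ^ 2 * (1 - a - a') * (1 + 2 * s) ≤ (a * a' * (1 + 2 * s)) * (1 + 2 * s) := by
      have x5 : s ^ 2 * (s + s) ≤ s ^ 2 * (a * (1 + 2 * s) + a' * (1 + 2 * s)) :=
        mul_le_mul_of_nonneg_left (by linarith) (by positivity)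
      nlinarith
    have x6 := le_of_mul_le_mul_right x4 (by positivity)
    nlinarith
  nlinarith

theorem YF_bounds {w0 w w1 e s0 s1 : ℝ} (h0 : 0 < w0) (h1 : w0 ≤ w) (h2 : w ≤ w1) (h3 : w1 ≤ 1)
    (hs0 : 0 ≤ s0) (hl : s0 ≤ sF e) (hh : sF e ≤ s1) (ha : s1 * (1 - 2 * aF w0) ≤ aF w0) :
    scF w1 / (aF w1 + s1) ≤ YF w e ∧ YF w e ≤ scF w0 / (aF w0 + s0) := by
  have a0 := aF_pos h0
  have ha1 := gS_mono h0.le h1 (h2.trans h3)
  change aF w0 ≤ aF w at ha1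
  have n2 := scF_nonneg (h0.le.trans h1) (h2.trans h3)
  have n0 := scF_nonneg h0.le (h1.trans (h2.trans h3))
  constructor
  · refine (YF_anti_w (h0.trans_le h1) h2 h3 (hs0.trans (hl.trans hh))
      (cnd_mono (hs0.trans (hl.trans hh)) ha1 ha)).trans ?_
    unfold YF
    apply div_le_div_of_nonneg_left n2 (by linarith [sF_nonneg e]) (by linarith)
  · have h5 : 0 < aF w0 + s0 := by linarith
    refine le_trans ?_ (div_le_div_of_nonneg_left n0 h5 (show aF w0 + s0 ≤ aF w0 + sF e by linarith))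
    exact YF_anti_w h0 h1 (h2.trans h3) (sF_nonneg e) (cnd_s (sF_nonneg e) hh a0.le ha)

/-- `X` as a function of `D = e²` and `c = cos 2 π p`. -/
theorem X_mono_D {c D D' : ℝ} (hD : 0 < D) (h : D ≤ D') (h1 : c * (1 + D ^ 2) ≤ 2 * D)
    (h2 : c * (1 + D' ^ 2) ≤ 2 * D') (p1 : 0 < D ^ 2 + 1 - 2 * c * D) (p2 : 0 < D' ^ 2 + 1 - 2 * c * D') :
    (D ^ 2 - 1) / (D ^ 2 + 1 - 2 * c * D) ≤ (D' ^ 2 - 1) / (D' ^ 2 + 1 - 2 * c * D') := by
  rw [div_le_div_iff₀ p1 p2]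
  have hD' : 0 < D' := hD.trans_le h
  have k : c * (1 + D * D') ≤ D + D' := by
    rcases le_total c 0 with hc | hc
    · have : c * (1 + D * D') ≤ 0 := mul_nonpos_of_nonpos_of_nonneg hc (by positivity)
      linarith
    · nlinarith [mul_nonneg hc (sq_nonneg (D - D'))]
  nlinarith [mul_nonneg (sub_nonneg.2 h) (sub_nonneg.2 k)]

theorem A_form {w e : ℝ} (he : 0 < e) : aF w + sF e =
    ((e ^ 2) ^ 2 + 1 - 2 * (1 - 2 * aF w) * e ^ 2) / (4 * e ^ 2) := by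
  unfold sF
  rw [eq_div_iff (by positivity)]
  have : (e ^ 2 - 1) ^ 2 / (4 * e ^ 2) * (4 * e ^ 2) = (e ^ 2 - 1) ^ 2 := by field_simp
  linear_combination this

theorem MF_form {w e : ℝ} (he : 0 < e) : MF w e =
    1 - ((e ^ 2) ^ 2 - 1) / ((e ^ 2) ^ 2 + 1 - 2 * (1 - 2 * aF w) * e ^ 2) := by
  unfold MF
  have h4 : (4 * e ^ 2 : ℝ) ≠ 0 := by positivity
  rw [A_form he, div_div_div_cancel_right₀ h4]
  ring

theorem sF_le_a {e a : ℝ} (he : 0 < e) (h : sF e * (1 - 2 * a) ≤ a) :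
    (1 - 2 * a) * (1 + (e ^ 2) ^ 2) ≤ 2 * e ^ 2 := by
  unfold sF at h
  rw [div_mul_eq_mul_div, div_le_iff₀ (by positivity)] at h
  nlinarith

theorem MF_anti_e {w e e' : ℝ} (hw : 0 < w) (he : 0 < e) (h : e ≤ e')
    (h1 : sF e * (1 - 2 * aF w) ≤ aF w) (h2 : sF e' * (1 - 2 * aF w) ≤ aF w) : MF w e' ≤ MF w e := by
  have he' : 0 < e' := he.trans_le h
  have a0 := aF_pos hw
  rw [MF_form he, MF_form he']
  have p1 : 0 < (e ^ 2) ^ 2 + 1 - 2 * (1 - 2 * aF w) * e ^ 2 := by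
    have := A_form (w := w) he
    have h3 : 0 < aF w + sF e := by linarith [sF_nonneg e]
    rw [this] at h3
    by_contra h4
    exact absurd h3 (not_lt.2 (div_nonpos_of_nonpos_of_nonneg (not_lt.1 h4) (by positivity)))
  have p2 : 0 < (e' ^ 2) ^ 2 + 1 - 2 * (1 - 2 * aF w) * e' ^ 2 := by
    have := A_form (w := w) he'
    have h3 : 0 < aF w + sF e' := by linarith [sF_nonneg e']
    rw [this] at h3
    by_contra h4
    exact absurd h3 (not_lt.2 (div_nonpos_of_nonpos_of_nonneg (not_lt.1 h4) (by positivity)))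
  have hD : 0 < e ^ 2 := pow_pos he 2
  have := X_mono_D (c := 1 - 2 * aF w) (D := e ^ 2) (D' := e' ^ 2) hD
    (pow_le_pow_left₀ he.le h 2) (sF_le_a he h1) (sF_le_a he' h2) p1 p2
  linarith

theorem MF_mono_w {w w' e : ℝ} (hw : 0 < w) (h : w ≤ w') (h1 : w' ≤ 1) (he : 1 ≤ e) :
    MF w e ≤ MF w' e := by
  have ha := gS_mono hw.le h h1
  change aF w ≤ aF w' at ha
  have a0 := aF_pos hw
  have s0 := sF_nonneg e
  unfold MF
  have n : 0 ≤ (e ^ 4 - 1) / (4 * e ^ 2) := by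
    apply div_nonneg _ (by positivity)
    have := one_le_pow₀ he (n := 4)
    linarith
  have := div_le_div_of_nonneg_left n (show 0 < aF w + sF e by linarith)
    (show aF w + sF e ≤ aF w' + sF e by linarith)
  linarith

theorem MF_anti_w {w w' e : ℝ} (hw : 0 < w) (h : w ≤ w') (h1 : w' ≤ 1) (he0 : 0 < e) (he : e ≤ 1) :
    MF w' e ≤ MF w e := by
  have ha := gS_mono hw.le h h1
  change aF w ≤ aF w' at ha
  have a0 := aF_pos hw
  have s0 := sF_nonneg e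
  unfold MF
  have n : 0 ≤ -((e ^ 4 - 1) / (4 * e ^ 2)) := by
    rw [← neg_div]
    apply div_nonneg _ (by positivity)
    have := pow_le_one₀ he0.le he (n := 4)
    linarith
  have := div_le_div_of_nonneg_left n (show 0 < aF w + sF e by linarith)
    (show aF w + sF e ≤ aF w' + sF e by linarith)
  rw [neg_div, neg_div] at this
  linarith

theorem MF_lower {w0 w w1 e e1 : ℝ} (h0 : 0 < w0) (h1 : w0 ≤ w) (h2 : w ≤ w1) (h3 : w1 ≤ 1)
    (he : 0 < e) (h4 : e ≤ e1) (ha : sF e * (1 - 2 * aF w0) ≤ aF w0)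
    (ha1 : sF e1 * (1 - 2 * aF w0) ≤ aF w0) :
    (1 ≤ e1 → MF w0 e1 ≤ MF w e) ∧ (e1 ≤ 1 → MF w1 e1 ≤ MF w e) := by
  have hm := gS_mono h0.le h1 (h2.trans h3)
  change aF w0 ≤ aF w at hm
  have h5 := MF_anti_e (h0.trans_le h1) he h4 (cnd_mono (sF_nonneg _) hm ha) (cnd_mono (sF_nonneg _) hm ha1)
  constructor
  · intro h6
    exact (MF_mono_w h0 h1 (h2.trans h3) h6).trans h5
  · intro h6
    exact (MF_anti_w (h0.trans_le h1) h2 h3 (he.trans_le h4) h6).trans h5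

theorem MF_upper {w0 w w1 e e0 : ℝ} (h0 : 0 < w0) (h1 : w0 ≤ w) (h2 : w ≤ w1) (h3 : w1 ≤ 1)
    (he : 0 < e0) (h4 : e0 ≤ e) (ha : sF e * (1 - 2 * aF w0) ≤ aF w0)
    (ha1 : sF e0 * (1 - 2 * aF w0) ≤ aF w0) :
    (1 ≤ e0 → MF w e ≤ MF w1 e0) ∧ (e0 ≤ 1 → MF w e ≤ MF w0 e0) := by
  have hm := gS_mono h0.le h1 (h2.trans h3)
  change aF w0 ≤ aF w at hm
  have h5 := MF_anti_e (h0.trans_le h1) he h4 (cnd_mono (sF_nonneg _) hm ha1) (cnd_mono (sF_nonneg _) hm ha)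
  constructor
  · intro h6
    exact h5.trans (MF_mono_w (h0.trans_le h1) h2 h3 h6)
  · intro h6
    exact h5.trans (MF_anti_w h0 h1 (h2.trans h3) he h6)

theorem DF_form {w e : ℝ} (he : 0 < e) : DF w e =
    ((e ^ 2) ^ 2 + 1 - 2 * (1 - 2 * aF w) * e ^ 2) / 4 := by
  unfold DF
  rw [A_form he]
  field_simp

theorem DF_mono {w w' e e' : ℝ} (hw : 0 < w) (h : w ≤ w') (h1 : w' ≤ 1) (he : 0 < e) (h2 : e ≤ e')
    (h3 : 1 - 2 * aF w ≤ e ^ 2) : DF w e ≤ DF w' e' := by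
  have ha := gS_mono hw.le h h1
  change aF w ≤ aF w' at ha
  have hD : e ^ 2 ≤ e' ^ 2 := pow_le_pow_left₀ he.le h2 2
  rw [DF_form he, DF_form (he.trans_le h2)]
  have e2 : 0 < e' ^ 2 := pow_pos (he.trans_le h2) 2
  have e3 : 0 < e ^ 2 := by positivity
  nlinarith [mul_nonneg (sub_nonneg.2 hD) (sub_nonneg.2 h3), mul_nonneg (sub_nonneg.2 ha) e2.le,
    sq_nonneg (e' ^ 2 - e ^ 2)]

/-- `D` is convex in `e²`. -/
theorem DF_upper {w w' e0 e e1 : ℝ} (hw : 0 < w) (h : w ≤ w') (h1 : w' ≤ 1) (he0 : 0 < e0) (h2 : e0 ≤ e)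
    (h3 : e ≤ e1) : DF w e ≤ DF w' e0 ∨ DF w e ≤ DF w' e1 := by
  have ha := gS_mono hw.le h h1
  change aF w ≤ aF w' at ha
  have he : 0 < e := he0.trans_le h2
  have h5 : DF w e ≤ DF w' e := by
    unfold DF
    apply mul_le_mul_of_nonneg_left _ (by positivity)
    linarith
  have d0 : e0 ^ 2 ≤ e ^ 2 := pow_le_pow_left₀ he0.le h2 2
  have d1 : e ^ 2 ≤ e1 ^ 2 := pow_le_pow_left₀ he.le h3 2
  rcases le_total (1 - 2 * aF w') (e ^ 2) with hc | hc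
  · right
    refine h5.trans ?_
    rw [DF_form he, DF_form (he.trans_le h3)]
    nlinarith [mul_nonneg (sub_nonneg.2 d1) (show 0 ≤ e1 ^ 2 + e ^ 2 - 2 * (1 - 2 * aF w') by linarith)]
  · left
    refine h5.trans ?_
    rw [DF_form he, DF_form he0]
    nlinarith [mul_nonneg (sub_nonneg.2 d0) (show 0 ≤ 2 * (1 - 2 * aF w') - e ^ 2 - e0 ^ 2 by linarith)]

end Pool.Agent.S5.F
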