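import Pool.Agent.S5.I.F2

/-!
# Bounds of `λ` in a cell
-/

set_option autoImplicit false

namespace Pool.Agent.S5.F

open Pool.Agent.S5.C2 Pool.Agent.S5.Num

/-- The real part of `λ` plus `4` for `w = W / 4096`, `e = E / 4096`. -/
def Mn (W E : ℕ) : ℕ :=
  fN (fun A => fN (fun B => fN (fun Q => fN (fun S => fN (fun dn =>
    Nat.div (Nat.sub (Nat.add (Nat.mul 35184372088832 (Nat.add (Nat.mul 16777216 Q)
      (Nat.mul 134217728 (Nat.mul A B)))) (Nat.mul 4194304 dn))
      (Nat.mul 35184372088832 (Nat.mul Q B))) dn)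
      (Nat.add (Nat.mul 4503599627370496 (Nat.mul A B)) (Nat.mul Q (Nat.mul S S))))
    (ds' B 16777216)) (fN (fun m => Nat.mul m m) (Nat.add 16777216 A))) (Nat.mul E E)) (Nat.mul W W)

/-- The imaginary part of `λ`. -/
def Yn (W E : ℕ) : ℕ :=
  fN (fun A => fN (fun B => fN (fun Q => fN (fun S =>
    Nat.div (Nat.mul 576460752303423488 (Nat.mul (Nat.mul W B) (Nat.sub 16777216 A)))
      (Nat.add (Nat.mul 4503599627370496 (Nat.mul A B)) (Nat.mul Q (Nat.mul S S))))
    (ds' B 16777216)) (fN (fun m => Nat.mul m m) (Nat.add 16777216 A))) (Nat.mul E E)) (Nat.mul W W)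

/-- `1 / |λ|²`. -/
def Dn (W E : ℕ) : ℕ :=
  fN (fun A => fN (fun B => fN (fun Q => fN (fun S =>
    Nat.add (Nat.div (Nat.mul 4194304 (Nat.mul A B)) Q) (Nat.div (Nat.mul S S) 1073741824))
    (ds' B 16777216)) (fN (fun m => Nat.mul m m) (Nat.add 16777216 A))) (Nat.mul E E)) (Nat.mul W W)

/-- The common denominator. -/
def dN (W E : ℕ) : ℕ := 4503599627370496 * (W * W * (E * E)) + (16777216 + W * W) * (16777216 + W * W) *
      (ds' (E * E) 16777216 * ds' (E * E) 16777216)

theorem Mn_eq (W E : ℕ) : Mn W E = Nat.div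
    (35184372088832 * (16777216 * ((16777216 + W * W) * (16777216 + W * W)) + 134217728 * (W * W * (E * E))) +
      4194304 * dN W E - 35184372088832 * ((16777216 + W * W) * (16777216 + W * W) * (E * E))) (dN W E) := by
  unfold Mn
  simp only [fN_eq]
  rfl

theorem Yn_eq (W E : ℕ) : Yn W E = Nat.div
    (576460752303423488 * (W * (E * E) * (16777216 - W * W)))
    (4503599627370496 * (W * W * (E * E)) + (16777216 + W * W) * (16777216 + W * W) *
      (ds' (E * E) 16777216 * ds' (E * E) 16777216)) := by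
  unfold Yn
  simp only [fN_eq]
  rfl

theorem Dn_eq (W E : ℕ) : Dn W E = Nat.div (4194304 * (W * W * (E * E)))
      ((16777216 + W * W) * (16777216 + W * W)) +
    Nat.div (ds' (E * E) 16777216 * ds' (E * E) 16777216) 1073741824 := by
  unfold Dn
  simp only [fN_eq]
  rfl

/-- The common denominator. -/
noncomputable def dn (W E : ℝ) : ℝ := 4503599627370496 * (W * W * (E * E)) +
  (16777216 + W * W) * (16777216 + W * W) * (E * E - 16777216) ^ 2

theorem dn_cast (W E : ℕ) : ((4503599627370496 * (W * W * (E * E)) + (16777216 + W * W) * (16777216 + W * W) *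
      (ds' (E * E) 16777216 * ds' (E * E) 16777216) : ℕ) : ℝ) = dn W E := by
  have e := ds_sq (E * E) 16777216
  push_cast at e ⊢
  unfold dn
  rw [← e]
  ring

theorem dn_pos {W E : ℝ} (hW : 0 < W) (hE : 0 < E) : 0 < dn W E := by
  unfold dn
  have : 0 < W * W * (E * E) := by positivity
  have : 0 ≤ (16777216 + W * W) * (16777216 + W * W) * (E * E - 16777216) ^ 2 := by positivity
  linarith

theorem AF_real {W E : ℝ} (hW : 0 < W) (hE : 0 < E) : aF (W / 4096) + sF (E / 4096) =
    dn W E / (67108864 * (E * E) * ((16777216 + W * W) * (16777216 + W * W))) := by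
  unfold aF sF dn
  rw [eq_div_iff (by positivity)]
  field_simp
  ring

theorem MF_real {W E : ℝ} (hW : 0 < W) (hE : 0 < E) : 1048576 * MF (W / 4096) (E / 4096) =
    35184372088832 * ((16777216 * ((16777216 + W * W) * (16777216 + W * W)) + 134217728 * (W * W * (E * E))) -
      (16777216 + W * W) * (16777216 + W * W) * (E * E)) / dn W E := by
  have h := dn_pos hW hE
  unfold MF
  rw [AF_real hW hE, eq_div_iff h.ne']
  have e1 : ((E / 4096) ^ 4 - 1) / (4 * (E / 4096) ^ 2) /
      (dn W E / (67108864 * (E * E) * ((16777216 + W * W) * (16777216 + W * W)))) =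
      (E ^ 4 - 281474976710656) * ((16777216 + W * W) * (16777216 + W * W)) / dn W E := by
    field_simp
    ring
  rw [e1]
  have e2 : 1048576 * (1 - (E ^ 4 - 281474976710656) * ((16777216 + W * W) * (16777216 + W * W)) / dn W E) *
      dn W E = 1048576 * (dn W E - (E ^ 4 - 281474976710656) * ((16777216 + W * W) * (16777216 + W * W))) := by
    field_simp
  rw [e2]
  unfold dn
  ring

theorem YF_real {W E : ℝ} (hW : 0 < W) (hE : 0 < E) : 1048576 * YF (W / 4096) (E / 4096) =
    576460752303423488 * (W * (E * E) * (16777216 - W * W)) / dn W E := by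
  have h := dn_pos hW hE
  unfold YF
  rw [AF_real hW hE, eq_div_iff h.ne']
  unfold scF
  field_simp
  ring

theorem DF_real {W E : ℝ} (hE : 0 < E) : 1048576 * DF (W / 4096) (E / 4096) =
    4194304 * (W * W * (E * E)) / ((16777216 + W * W) * (16777216 + W * W)) +
      (E * E - 16777216) ^ 2 / 1073741824 := by
  unfold DF aF sF
  field_simp
  ring

theorem dN_pos {W E : ℕ} (hW : 0 < W) (hE : 0 < E) : 0 < dN W E := by
  unfold dN
  have : 0 < W * W * (E * E) := by positivity
  omega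

theorem Mn_le {W E : ℕ} (hW : 0 < W) (hE : 0 < E) (h : 0 < Mn W E) :
    (Mn W E : ℝ) ≤ 1048576 * MF ((W : ℝ) / 4096) ((E : ℝ) / 4096) + 4194304 := by
  have hW' : (0 : ℝ) < W := by exact_mod_cast hW
  have hE' : (0 : ℝ) < E := by exact_mod_cast hE
  have hd := dn_pos hW' hE'
  rw [MF_real hW' hE']
  have h1 : 35184372088832 * ((16777216 + W * W) * (16777216 + W * W) * (E * E)) ≤
      35184372088832 * (16777216 * ((16777216 + W * W) * (16777216 + W * W)) + 134217728 * (W * W * (E * E))) +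
      4194304 * dN W E := by
    by_contra h2
    rw [Mn_eq, Nat.sub_eq_zero_of_le (by omega)] at h
    exact absurd h (by rw [show ∀ m, Nat.div 0 m = 0 from Nat.zero_div]; exact lt_irrefl _)
  rw [Mn_eq]
  refine (div_le' _ _).trans (le_of_eq ?_)
  have e := dn_cast W E
  change ((dN W E : ℕ) : ℝ) = _ at e
  rw [Nat.cast_sub h1, Nat.cast_add, Nat.cast_mul 4194304, e, div_add' _ _ _ hd.ne']
  congr 1
  push_cast
  ring

theorem le_Mn {W E : ℕ} (hW : 0 < W) (hE : 0 < E) :
    1048576 * MF ((W : ℝ) / 4096) ((E : ℝ) / 4096) + 4194304 ≤ ((Nat.succ (Mn W E) : ℕ) : ℝ) := by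
  have hW' : (0 : ℝ) < W := by exact_mod_cast hW
  have hE' : (0 : ℝ) < E := by exact_mod_cast hE
  have hd := dn_pos hW' hE'
  rw [MF_real hW' hE', Mn_eq]
  refine le_trans ?_ (le_div' _ (dN_pos hW hE))
  have e := dn_cast W E
  change ((dN W E : ℕ) : ℝ) = _ at e
  rw [e, div_add' _ _ _ hd.ne']
  apply div_le_div_of_nonneg_right _ hd.le
  have h2 : 35184372088832 * (16777216 * ((16777216 + W * W) * (16777216 + W * W)) +
      134217728 * (W * W * (E * E))) + 4194304 * dN W E ≤
      (35184372088832 * (16777216 * ((16777216 + W * W) * (16777216 + W * W)) + 134217728 * (W * W * (E * E))) +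
      4194304 * dN W E - 35184372088832 * ((16777216 + W * W) * (16777216 + W * W) * (E * E))) +
      35184372088832 * ((16777216 + W * W) * (16777216 + W * W) * (E * E)) := by omega
  have h3 : ((35184372088832 * (16777216 * ((16777216 + W * W) * (16777216 + W * W)) +
      134217728 * (W * W * (E * E))) + 4194304 * dN W E : ℕ) : ℝ) ≤
      (((35184372088832 * (16777216 * ((16777216 + W * W) * (16777216 + W * W)) +
      134217728 * (W * W * (E * E))) +
      4194304 * dN W E - 35184372088832 * ((16777216 + W * W) * (16777216 + W * W) * (E * E))) +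
      35184372088832 * ((16777216 + W * W) * (16777216 + W * W) * (E * E)) : ℕ) : ℝ) := by
    exact_mod_cast h2
  rw [Nat.cast_add (_ - _), Nat.cast_add, Nat.cast_mul 4194304, e] at h3
  push_cast at h3 ⊢
  linarith

theorem Yn_le {W E : ℕ} (hW : 0 < W) (hE : 0 < E) (h : W ≤ 4096) :
    (Yn W E : ℝ) ≤ 1048576 * YF ((W : ℝ) / 4096) ((E : ℝ) / 4096) := by
  have hW' : (0 : ℝ) < W := by exact_mod_cast hW
  have hE' : (0 : ℝ) < E := by exact_mod_cast hE
  have h1 : W * W ≤ 16777216 := by nlinarith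
  rw [YF_real hW' hE', Yn_eq]
  refine (div_le' _ _).trans (le_of_eq ?_)
  rw [dn_cast, Nat.cast_mul, Nat.cast_mul (W * (E * E)), Nat.cast_sub h1]
  push_cast
  ring

theorem le_Yn {W E : ℕ} (hW : 0 < W) (hE : 0 < E) (h : W ≤ 4096) :
    1048576 * YF ((W : ℝ) / 4096) ((E : ℝ) / 4096) ≤ ((Nat.succ (Yn W E) : ℕ) : ℝ) := by
  have hW' : (0 : ℝ) < W := by exact_mod_cast hW
  have hE' : (0 : ℝ) < E := by exact_mod_cast hE
  have h1 : W * W ≤ 16777216 := by nlinarith
  rw [YF_real hW' hE', Yn_eq]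
  refine le_trans (le_of_eq ?_) (le_div' _ ?_)
  · rw [dn_cast, Nat.cast_mul, Nat.cast_mul (W * (E * E)), Nat.cast_sub h1]
    push_cast
    ring
  · have : 0 < W * W * (E * E) := by positivity
    omega

theorem Dn_le (W : ℕ) {E : ℕ} (hE : 0 < E) :
    (Dn W E : ℝ) ≤ 1048576 * DF ((W : ℝ) / 4096) ((E : ℝ) / 4096) := by
  rw [DF_real (by exact_mod_cast hE), Dn_eq]
  have h1 := div_le' (4194304 * (W * W * (E * E))) ((16777216 + W * W) * (16777216 + W * W))
  have h2 := div_le' (ds' (E * E) 16777216 * ds' (E * E) 16777216) 1073741824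
  have e := ds_sq (E * E) 16777216
  push_cast at h1 h2 e ⊢
  rw [← e]
  have e2 : (((ds' (E * E) 16777216 : ℕ) : ℝ)) * ((ds' (E * E) 16777216 : ℕ) : ℝ) =
    ((ds' (E * E) 16777216 : ℕ) : ℝ) ^ 2 := by ring
  rw [e2] at h2
  linarith

theorem le_Dn (W : ℕ) {E : ℕ} (hE : 0 < E) : 1048576 * DF ((W : ℝ) / 4096) ((E : ℝ) / 4096) ≤
    ((Nat.add (Dn W E) 2 : ℕ) : ℝ) := by
  rw [DF_real (by exact_mod_cast hE), Dn_eq]
  have h1 := le_div' (4194304 * (W * W * (E * E)))
    (m := (16777216 + W * W) * (16777216 + W * W)) (by positivity)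
  have h2 := le_div' (ds' (E * E) 16777216 * ds' (E * E) 16777216) (m := 1073741824) (by norm_num)
  have e := ds_sq (E * E) 16777216
  have e3 : ∀ x y : ℕ, ((Nat.add (x + y) 2 : ℕ) : ℝ) = ((Nat.succ x : ℕ) : ℝ) + ((Nat.succ y : ℕ) : ℝ) := by
    intro x y
    show ((x + y + 2 : ℕ) : ℝ) = _
    push_cast
    ring
  rw [e3]
  push_cast at h1 h2 e ⊢
  rw [← e]
  have e2 : (((ds' (E * E) 16777216 : ℕ) : ℝ)) * ((ds' (E * E) 16777216 : ℕ) : ℝ) =
    ((ds' (E * E) 16777216 : ℕ) : ℝ) ^ 2 := by ring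
  rw [e2] at h2
  linarith

end Pool.Agent.S5.F
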