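import Pool.Agent.S5.I.F3

/-!
# Exclusion of cells: bounds of a slot
-/

set_option autoImplicit false

namespace Pool.Agent.S5.F

open Pool.Agent.S5.C2 Pool.Agent.S5.Num

/-- Bounds of `λ = M + i Y` and of `D = 1 / |λ|²`, units `2^(-20)`; `4` is added to `M`. -/
structure SB where
  m0 : ℕ
  m1 : ℕ
  y0 : ℕ
  y1 : ℕ
  d0 : ℕ
  d1 : ℕ

structure SBOK (s : SB) (w e : ℝ) : Prop where
  m0 : (s.m0 : ℝ) ≤ 1048576 * MF w e + 4194304
  m1 : 1048576 * MF w e + 4194304 ≤ s.m1
  y0 : (s.y0 : ℝ) ≤ 1048576 * YF w e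
  y1 : 1048576 * YF w e ≤ s.y1
  d0 : (s.d0 : ℝ) ≤ 1048576 * DF w e
  d1 : 1048576 * DF w e ≤ s.d1
  m : 0 < s.m0

/-- The bounds of a slot. -/
def sb (W W' E E' : ℕ) : SB where
  m0 := Mn (cond (Nat.ble 4096 E') W W') E'
  m1 := Nat.succ (Mn (cond (Nat.ble 4096 E) W' W) E)
  y0 := Yn W' (cond (Nat.ble 16777216 (Nat.mul E E')) E' E)
  y1 := Nat.succ (Yn W (cond (Nat.ble 4096 E) E (cond (Nat.ble E' 4096) E' 4096)))
  d0 := cond (Nat.ble 16777216 (Nat.add (Nat.mul E E) (Nat.mul 32 (sW W)))) (Dn W E) 0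
  d1 := Nat.add (mx' (Dn W' E) (Dn W' E')) 2

/-- Evaluation of the bounds of a slot, with the side conditions. -/
def withSb (W W' E E' : ℕ) (k : SB → Bool) : Bool :=
  cond (Nat.ble 1 W) (cond (Nat.ble 1 E)
    (fN (fun a => cond (Nat.ble (Nat.mul (fN (fun e => fN (fun e' => sEh e e' 16777216) (Nat.mul E' E'))
        (Nat.mul E E)) (Nat.sub 1048576 (Nat.mul 2 a))) (Nat.mul 1048576 a))
        (fN (fun m0 => cond (Nat.ble 1 m0)
          (fN (fun m1 => fN (fun y0 => fN (fun y1 => fN (fun d0 => fN (fun d1 => k ⟨m0, m1, y0, y1, d0, d1⟩)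
            (Nat.add (mx' (Dn W' E) (Dn W' E')) 2))
            (cond (Nat.ble 16777216 (Nat.add (Nat.mul E E) (Nat.mul 32 a))) (Dn W E) 0))
            (Nat.succ (Yn W (cond (Nat.ble 4096 E) E (cond (Nat.ble E' 4096) E' 4096)))))
            (Yn W' (cond (Nat.ble 16777216 (Nat.mul E E')) E' E)))
            (Nat.succ (Mn (cond (Nat.ble 4096 E) W' W) E))) false)
          (Mn (cond (Nat.ble 4096 E') W W') E'))
        false) (sW W)) false) false

theorem cond_t {α : Type} {b : Bool} {x y : α} (h : b = true) : cond b x y = x := by rw [h]; rfl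

theorem cond_f {α : Type} {b : Bool} {x y : α} (h : b = false) : cond b x y = y := by rw [h]; rfl

theorem cond_and {b x : Bool} (h : cond b x false = true) : b = true ∧ x = true := by
  cases b
  · exact absurd h (by simp)
  · exact ⟨rfl, h⟩

/-- The side conditions hold. -/
structure SbC (W W' E E' : ℕ) : Prop where
  w : 0 < W
  e : 0 < E
  a : sEh (Nat.mul E E) (Nat.mul E' E') 16777216 * (1048576 - 2 * sW W) ≤ 1048576 * sW W
  m : 0 < (sb W W' E E').m0

theorem withSb_sound {W W' E E' : ℕ} {k : SB → Bool} (h : withSb W W' E E' k = true) :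
    SbC W W' E E' ∧ k (sb W W' E E') = true := by
  unfold withSb at h
  simp only [fN_eq] at h
  obtain ⟨h1, h⟩ := cond_and h
  obtain ⟨h2, h⟩ := cond_and h
  obtain ⟨h3, h⟩ := cond_and h
  obtain ⟨h5, h⟩ := cond_and h
  exact ⟨⟨Nat.le_of_ble_eq_true h1, Nat.le_of_ble_eq_true h2, Nat.le_of_ble_eq_true h3,
    Nat.le_of_ble_eq_true h5⟩, h⟩

theorem ble_cases (a b : ℕ) : (Nat.ble a b = true ∧ a ≤ b) ∨ (Nat.ble a b = false ∧ b < a) := by
  rcases hb : Nat.ble a b with _ | _
  · right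
    refine ⟨rfl, ?_⟩
    by_contra h
    rw [Nat.ble_eq_true_of_le (not_lt.1 h)] at hb
    exact absurd hb (by simp)
  · exact Or.inl ⟨rfl, Nat.le_of_ble_eq_true hb⟩

theorem sF_swap {e : ℝ} (he : 0 < e) : sF (1 / e) = sF e := by
  unfold sF
  field_simp
  ring

theorem sF_mono {e e' : ℝ} (h0 : 1 ≤ e) (h1 : e ≤ e') : sF e ≤ sF e' := by
  have := gE_mono (r := e ^ 2) (r' := e' ^ 2) (one_le_pow₀ h0) (pow_le_pow_left₀ (by linarith) h1 2)
  exact this

theorem sF_anti {e e' : ℝ} (h0 : 0 < e) (h1 : e ≤ e') (h2 : e' ≤ 1) : sF e' ≤ sF e := by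
  have := gE_anti (r := e ^ 2) (r' := e' ^ 2) (by positivity) (pow_le_pow_left₀ h0.le h1 2)
    (pow_le_one₀ (h0.le.trans h1) h2)
  exact this

theorem sb_ok {W W' E E' : ℕ} {w e : ℝ} (hW : W' ≤ 4096) (h1 : (W : ℝ) ≤ 4096 * w) (h2 : 4096 * w ≤ W')
    (h3 : (E : ℝ) ≤ 4096 * e) (h4 : 4096 * e ≤ E') (hc : SbC W W' E E') : SBOK (sb W W' E E') w e := by
  obtain ⟨hw, he, ha, hm⟩ := hc
  have hw' : (0 : ℝ) < W := by exact_mod_cast hw
  have he' : (0 : ℝ) < E := by exact_mod_cast he
  have hWr : (W' : ℝ) ≤ 4096 := by exact_mod_cast hW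
  have w0 : 0 < w := by linarith
  have e0 : 0 < e := by linarith
  have l1 : (W : ℝ) / 4096 ≤ w := by linarith
  have l2 : w ≤ (W' : ℝ) / 4096 := by linarith
  have l3 : (E : ℝ) / 4096 ≤ e := by linarith
  have l4 : e ≤ (E' : ℝ) / 4096 := by linarith
  have q0 : 0 < (W : ℝ) / 4096 := by positivity
  have q1 : (W' : ℝ) / 4096 ≤ 1 := by linarith
  have q2 : 0 < (E : ℝ) / 4096 := by positivity
  have q3 : 0 < (E' : ℝ) / 4096 := by linarith
  have pW' : 0 < W' := by
    have : (0 : ℝ) < W' := by linarith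
    exact_mod_cast this
  have pE' : 0 < E' := by
    have : (0 : ℝ) < E' := by linarith
    exact_mod_cast this
  -- the sinh terms
  have hsup : ∀ x : ℝ, (E : ℝ) / 4096 ≤ x → x ≤ (E' : ℝ) / 4096 →
      sF x * (1 - 2 * aF ((W : ℝ) / 4096)) ≤ aF ((W : ℝ) / 4096) := by
    intro x hx hx'
    have x0 : 0 < x := q2.trans_le hx
    have b1 := sq_cell (b := E) (x := x) (by linarith)
    have b2 := sq_cell' (b := E') (x := x) x0.le (by linarith)
    have k1 := le_sEh (E2 := Nat.mul E E) (Nat.mul_pos he he) (by norm_num : 0 < 16777216) b1 b2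
    change 1048576 * sF x ≤ _ at k1
    have k3 := sW_le W (w := (W : ℝ) / 4096) (by linarith) (by linarith)
    change (sW W : ℝ) ≤ 1048576 * aF ((W : ℝ) / 4096) at k3
    have s0 := sF_nonneg x
    have a0 := aF_pos q0
    set a := aF ((W : ℝ) / 4096)
    rcases le_total (1 - 2 * a) 0 with h5 | h5
    · have := mul_nonpos_of_nonneg_of_nonpos s0 h5
      linarith
    · have h6 : (2 : ℝ) * sW W ≤ 1048576 := by linarith
      have h7 : 2 * sW W ≤ 1048576 := by exact_mod_cast h6
      have h8 : ((1048576 - 2 * sW W : ℕ) : ℝ) = 1048576 - 2 * sW W := by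
        rw [Nat.cast_sub h7]
        push_cast
        ring
      have h9 : ((sEh (Nat.mul E E) (Nat.mul E' E') 16777216 * (1048576 - 2 * sW W) : ℕ) : ℝ) ≤
        ((1048576 * sW W : ℕ) : ℝ) := by exact_mod_cast ha
      rw [Nat.cast_mul, h8] at h9
      push_cast at h9
      have h10 : (1048576 * sF x) * (1048576 * (1 - 2 * a)) ≤
          (sEh (Nat.mul E E) (Nat.mul E' E') 16777216 : ℝ) * (1048576 - 2 * sW W) :=
        mul_le_mul k1 (by linarith) (by positivity) (by positivity)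
      nlinarith
  have se := hsup e l3 l4
  have sE0 := hsup _ le_rfl (l3.trans l4)
  have sE1 := hsup _ (l3.trans l4) le_rfl
  have ML := MF_lower q0 l1 l2 q1 e0 l4 se sE1
  have MU := MF_upper q0 l1 l2 q1 q2 l3 se sE0
  constructor
  · -- m0
    unfold sb at hm ⊢
    simp only at hm ⊢
    rcases ble_cases 4096 E' with ⟨hb1, hb2⟩ | ⟨hb1, hb2⟩
    · rw [cond_t hb1] at hm ⊢
      have h5 : (4096 : ℝ) ≤ E' := by exact_mod_cast hb2
      have := Mn_le hw pE' hm
      have := ML.1 (by linarith)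
      linarith
    · rw [cond_f hb1] at hm ⊢
      have h5 : (E' : ℝ) < 4096 := by exact_mod_cast hb2
      have := Mn_le pW' pE' hm
      have := ML.2 (by linarith)
      linarith
  · unfold sb
    simp only
    rcases ble_cases 4096 E with ⟨hb1, hb2⟩ | ⟨hb1, hb2⟩
    · rw [cond_t hb1]
      have h5 : (4096 : ℝ) ≤ E := by exact_mod_cast hb2
      have := le_Mn pW' he
      have := MU.1 (by linarith)
      linarith
    · rw [cond_f hb1]
      have h5 : (E : ℝ) < 4096 := by exact_mod_cast hb2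
      have := le_Mn hw he
      have := MU.2 (by linarith)
      linarith
  · -- y0
    unfold sb
    simp only
    have hs : sF e ≤ sF ((cond (Nat.ble 16777216 (Nat.mul E E')) E' E : ℕ) / 4096) := by
      rcases ble_cases 16777216 (Nat.mul E E') with ⟨hb1, hb2⟩ | ⟨hb1, hb2⟩
      · rw [cond_t hb1]
        have h5 : (16777216 : ℝ) ≤ E * E' := by exact_mod_cast hb2
        rcases le_total 1 e with h6 | h6
        · exact sF_mono h6 l4
        · rw [← sF_swap e0]
          apply sF_mono (by rw [le_div_iff₀ e0]; linarith)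
          rw [div_le_iff₀ e0]
          nlinarith
      · rw [cond_f hb1]
        have h5 : (E : ℝ) * E' < 16777216 := by exact_mod_cast hb2
        rcases le_total e 1 with h6 | h6
        · exact sF_anti q2 l3 h6
        · rw [← sF_swap e0]
          apply sF_anti q2 _ (by rw [div_le_iff₀ e0]; linarith)
          rw [le_div_iff₀ e0]
          nlinarith
    have hs2 : sF ((cond (Nat.ble 16777216 (Nat.mul E E')) E' E : ℕ) / 4096) *
        (1 - 2 * aF ((W : ℝ) / 4096)) ≤ aF ((W : ℝ) / 4096) := by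
      rcases ble_cases 16777216 (Nat.mul E E') with ⟨hb1, hb2⟩ | ⟨hb1, hb2⟩
      · rw [cond_t hb1]
        exact sE1
      · rw [cond_f hb1]
        exact sE0
    have p5 : 0 < (cond (Nat.ble 16777216 (Nat.mul E E')) E' E : ℕ) := by
      rcases Nat.ble 16777216 (Nat.mul E E') with _ | _
      · exact he
      · exact pE'
    have := (YF_bounds q0 l1 l2 q1 (sF_nonneg e) le_rfl hs hs2).1
    have h7 := Yn_le pW' p5 hW
    unfold YF at h7
    linarith
  · -- y1
    unfold sb
    simp only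
    have hs : sF ((cond (Nat.ble 4096 E) E (cond (Nat.ble E' 4096) E' 4096) : ℕ) / 4096) ≤ sF e := by
      rcases ble_cases 4096 E with ⟨hb1, hb2⟩ | ⟨hb1, hb2⟩
      · rw [cond_t hb1]
        have h5 : (4096 : ℝ) ≤ E := by exact_mod_cast hb2
        exact sF_mono (by linarith) l3
      · rw [cond_f hb1]
        rcases ble_cases E' 4096 with ⟨hc1, hc2⟩ | ⟨hc1, hc2⟩
        · rw [cond_t hc1]
          have h5 : (E' : ℝ) ≤ 4096 := by exact_mod_cast hc2
          exact sF_anti e0 l4 (by linarith)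
        · rw [cond_f hc1]
          have : sF (((4096 : ℕ) : ℝ) / 4096) = 0 := by
            unfold sF
            norm_num
          rw [this]
          exact sF_nonneg e
    have p5 : 0 < (cond (Nat.ble 4096 E) E (cond (Nat.ble E' 4096) E' 4096) : ℕ) := by
      rcases Nat.ble 4096 E with _ | _
      · rcases Nat.ble E' 4096 with _ | _
        · exact Nat.succ_pos _
        · exact pE'
      · exact he
    have := (YF_bounds q0 l1 l2 q1 (sF_nonneg _) hs le_rfl se).2
    have h7 := le_Yn hw p5 (by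
      have : (W : ℝ) ≤ 4096 := by linarith
      exact_mod_cast this)
    unfold YF at h7
    linarith
  · unfold sb
    simp only
    rcases ble_cases 16777216 (Nat.add (Nat.mul E E) (Nat.mul 32 (sW W))) with ⟨hb1, hb2⟩ | ⟨hb1, hb2⟩
    · rw [cond_t hb1]
      have hD : 1 - 2 * aF ((W : ℝ) / 4096) ≤ ((E : ℝ) / 4096) ^ 2 := by
        have k3 := sW_le W (w := (W : ℝ) / 4096) (by linarith) (by linarith)
        have k4 : (16777216 : ℝ) ≤ E * E + 32 * sW W := by exact_mod_cast hb2
        unfold aF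
        have e5 : ((E : ℝ) / 4096) ^ 2 = E * E / 16777216 := by ring
        rw [e5]
        linarith
      have := Dn_le W he
      have := DF_mono q0 l1 (l2.trans q1) q2 l3 hD
      linarith
    · rw [cond_f hb1]
      have : 0 ≤ DF w e := by
        unfold DF
        have := aF_nonneg w
        have := sF_nonneg e
        positivity
      push_cast
      linarith
  · unfold sb
    simp only
    have m1 : Dn W' E ≤ mx' (Dn W' E) (Dn W' E') ∧ Dn W' E' ≤ mx' (Dn W' E) (Dn W' E') := by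
      unfold mx'
      rcases ble_cases (Dn W' E) (Dn W' E') with ⟨hb1, hb2⟩ | ⟨hb1, hb2⟩
      · rw [cond_t hb1]
        exact ⟨hb2, le_rfl⟩
      · rw [cond_f hb1]
        exact ⟨le_rfl, hb2.le⟩
    have e3 : ∀ x : ℕ, ((Nat.add x 2 : ℕ) : ℝ) = (x : ℝ) + 2 := by
      intro x
      show ((x + 2 : ℕ) : ℝ) = _
      push_cast
      ring
    have m2 : (Dn W' E : ℝ) ≤ (mx' (Dn W' E) (Dn W' E') : ℕ) := by exact_mod_cast m1.1
    have m3 : (Dn W' E' : ℝ) ≤ (mx' (Dn W' E) (Dn W' E') : ℕ) := by exact_mod_cast m1.2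
    have n1 := le_Dn W' he
    have n2 := le_Dn W' pE'
    rw [e3] at n1 n2 ⊢
    rcases DF_upper w0 l2 q1 q2 l3 l4 with h5 | h5 <;> linarith
  · exact hm

end Pool.Agent.S5.F
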