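import Pool.Agent.S5.I.F4

/-!
# Exclusion of cells
-/

set_option autoImplicit false

namespace Pool.Agent.S5.F

open Pool.Agent.S5.C2 Pool.Agent.S5.Num Complex

/-- `λ` as a complex number. -/
noncomputable def lamF (w e : ℝ) : ℂ := ⟨MF w e, YF w e⟩

/-- The relation between the slot `b` and the numbers `λ` of the two slots. -/
def Rel (b : ℂ) (w1 e1 w2 e2 : ℝ) : Prop :=
  (b * lamF w1 e1) ^ 2 * (2 - (lamF w1 e1 + lamF w2 e2)) = lamF w1 e1 + lamF w2 e2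

/-- The slot leads to an end with two half twists. -/
def RelE (b : ℂ) (w1 e1 : ℝ) : Prop := 2 * b ^ 2 * (2 - lamF w1 e1) = 1

/-- The relation between the node and the numbers `λ` of the two slots. -/
def RelK (k : ℂ) (w1 e1 w2 e2 : ℝ) : Prop :=
  2 * k ^ 2 * (lamF w1 e1 * lamF w2 e2) = lamF w1 e1 + lamF w2 e2

/-- The region of the slot (`A` edge), units `1 / 1000`. -/
structure Reg (k0 k1 t1 : ℕ) (b : ℂ) : Prop where
  re : 0 < b.re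
  im : 0 ≤ b.im
  lo : ((k0 : ℝ) / 1000) ^ 2 ≤ b.re ^ 2 + b.im ^ 2
  hi : b.re ^ 2 + b.im ^ 2 ≤ ((k1 : ℝ) / 1000) ^ 2
  ar : b.im ≤ (t1 : ℝ) / 1000 * b.re

theorem DF_pos {w e : ℝ} (hw : 0 < w) (he : 0 < e) : 0 < DF w e := by
  unfold DF
  have := aF_pos hw
  have := sF_nonneg e
  positivity

/-- `|λ|² D = 1`. -/
theorem lam_norm {w e : ℝ} (hw : 0 < w) (he : 0 < e) : (MF w e ^ 2 + YF w e ^ 2) * DF w e = 1 := by
  have a0 := aF_pos hw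
  have hA : 0 < aF w + sF e := by linarith [sF_nonneg e]
  have h1 := scF_sq w
  have h2 : sF e * (4 * e ^ 2) = (e ^ 2 - 1) ^ 2 := by
    unfold sF
    field_simp
  unfold MF YF DF
  set A := aF w + sF e with hAd
  have h3 : ((1 - (e ^ 4 - 1) / (4 * e ^ 2) / A) ^ 2 + (scF w / A) ^ 2) * (e ^ 2 * A) =
      ((4 * e ^ 2 * A - (e ^ 4 - 1)) ^ 2 + 16 * e ^ 4 * scF w ^ 2) / (16 * e ^ 2 * A) := by
    field_simp
    ring
  rw [h3, div_eq_one_iff_eq (by positivity), h1]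
  have h4 : 4 * e ^ 2 * A = 4 * e ^ 2 * aF w + (e ^ 2 - 1) ^ 2 := by
    rw [hAd]
    linear_combination h2
  have h5 : 16 * e ^ 2 * A = 4 * (4 * e ^ 2 * A) := by ring
  rw [h5, h4]
  ring

theorem Rel.mod {b : ℂ} {w1 e1 w2 e2 : ℝ} (hw : 0 < w1) (he : 0 < e1) (h : Rel b w1 e1 w2 e2) :
    (b.re ^ 2 + b.im ^ 2) ^ 2 * ((2 - (MF w1 e1 + MF w2 e2)) ^ 2 + (YF w1 e1 + YF w2 e2) ^ 2) =
      ((MF w1 e1 + MF w2 e2) ^ 2 + (YF w1 e1 + YF w2 e2) ^ 2) * DF w1 e1 ^ 2 := by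
  have h1 := congrArg normSq h
  rw [normSq_mul, map_pow, normSq_mul] at h1
  have hl : normSq (lamF w1 e1) * DF w1 e1 = 1 := by
    rw [← lam_norm hw he, normSq_apply]
    simp only [lamF]
    ring
  have hb : normSq b = b.re ^ 2 + b.im ^ 2 := by
    rw [normSq_apply]
    ring
  have hs : normSq (lamF w1 e1 + lamF w2 e2) = (MF w1 e1 + MF w2 e2) ^ 2 + (YF w1 e1 + YF w2 e2) ^ 2 := by
    rw [normSq_apply]
    simp only [lamF, add_re, add_im]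
    ring
  have h2 : normSq (2 - (lamF w1 e1 + lamF w2 e2)) =
      (2 - (MF w1 e1 + MF w2 e2)) ^ 2 + (YF w1 e1 + YF w2 e2) ^ 2 := by
    rw [normSq_apply]
    simp only [lamF, add_re, add_im, sub_re, sub_im, re_ofNat, im_ofNat]
    ring
  rw [hb, h2, hs] at h1
  rw [← h1]
  linear_combination (-(b.re ^ 2 + b.im ^ 2) ^ 2 * ((2 - (MF w1 e1 + MF w2 e2)) ^ 2 +
    (YF w1 e1 + YF w2 e2) ^ 2) * (normSq (lamF w1 e1) * DF w1 e1 + 1)) * hl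

theorem RelE.mod {b : ℂ} {w1 e1 : ℝ} (h : RelE b w1 e1) :
    4 * (b.re ^ 2 + b.im ^ 2) ^ 2 * ((2 - MF w1 e1) ^ 2 + YF w1 e1 ^ 2) = 1 := by
  have h1 := congrArg normSq h
  rw [normSq_mul, normSq_mul, map_pow, normSq_one] at h1
  have hb : normSq b = b.re ^ 2 + b.im ^ 2 := by
    rw [normSq_apply]
    ring
  have h2 : normSq (2 - lamF w1 e1) = (2 - MF w1 e1) ^ 2 + YF w1 e1 ^ 2 := by
    rw [normSq_apply]
    simp only [lamF, sub_re, sub_im, re_ofNat, im_ofNat]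
    ring
  have h3 : normSq (2 : ℂ) = 4 := by
    rw [normSq_ofNat]
    norm_num
  rw [hb, h2, h3] at h1
  exact h1

theorem RelK.mod {k : ℂ} {w1 e1 w2 e2 : ℝ} (hw : 0 < w1) (he : 0 < e1) (hw2 : 0 < w2) (he2 : 0 < e2)
    (h : RelK k w1 e1 w2 e2) :
    4 * (k.re ^ 2 + k.im ^ 2) ^ 2 =
      ((MF w1 e1 + MF w2 e2) ^ 2 + (YF w1 e1 + YF w2 e2) ^ 2) * (DF w1 e1 * DF w2 e2) := by
  have h1 := congrArg normSq h
  rw [normSq_mul, normSq_mul, map_pow, normSq_mul] at h1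
  have hl : normSq (lamF w1 e1) * DF w1 e1 = 1 := by
    rw [← lam_norm hw he, normSq_apply]
    simp only [lamF]
    ring
  have hr : normSq (lamF w2 e2) * DF w2 e2 = 1 := by
    rw [← lam_norm hw2 he2, normSq_apply]
    simp only [lamF]
    ring
  have hb : normSq k = k.re ^ 2 + k.im ^ 2 := by
    rw [normSq_apply]
    ring
  have hs : normSq (lamF w1 e1 + lamF w2 e2) = (MF w1 e1 + MF w2 e2) ^ 2 + (YF w1 e1 + YF w2 e2) ^ 2 := by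
    rw [normSq_apply]
    simp only [lamF, add_re, add_im]
    ring
  have h3 : normSq (2 : ℂ) = 4 := by
    rw [normSq_ofNat]
    norm_num
  rw [hb, h3, hs] at h1
  rw [← h1]
  linear_combination (-(4 * (k.re ^ 2 + k.im ^ 2) ^ 2) * (normSq (lamF w2 e2) * DF w2 e2)) * hl -
    (4 * (k.re ^ 2 + k.im ^ 2) ^ 2) * hr

/-! ### The modulus -/

/-- `4 (M - 1) / ((2 - M)² + Y²)` grows with `M`, falls with `Y`. -/
theorem rho_mono {m m' y y' : ℝ} (h0 : 1 ≤ m) (h1 : m ≤ m') (h2 : 0 ≤ y') (h3 : y' ≤ y)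
    (h4 : m' ^ 2 ≤ 2 * m' + y' ^ 2) :
    (m ^ 2 + y ^ 2) * ((2 - m') ^ 2 + y' ^ 2) ≤ (m' ^ 2 + y' ^ 2) * ((2 - m) ^ 2 + y ^ 2) := by
  have k1 : (m - 1) * ((2 - m') ^ 2 + y' ^ 2) ≤ (m' - 1) * ((2 - m) ^ 2 + y' ^ 2) := by
    have : 0 ≤ (m' - m) * (m' + m - m' * m + y' ^ 2) := by
      apply mul_nonneg (by linarith)
      nlinarith [mul_nonneg (sub_nonneg.2 h1) (show 0 ≤ m' - 1 by linarith)]
    nlinarith
  have k2 : (m' - 1) * ((2 - m) ^ 2 + y' ^ 2) ≤ (m' - 1) * ((2 - m) ^ 2 + y ^ 2) := by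
    apply mul_le_mul_of_nonneg_left _ (by linarith)
    have := pow_le_pow_left₀ h2 h3 2
    linarith
  nlinarith

/-- The upper bound of the modulus is too small. -/
theorem mod_up {B M Y D m' y' d K : ℝ} (h : B ^ 2 * ((2 - M) ^ 2 + Y ^ 2) = (M ^ 2 + Y ^ 2) * D ^ 2)
    (h0 : 1 ≤ M) (h1 : M ≤ m') (h2 : 0 < y') (h3 : y' ≤ Y) (h4 : m' ^ 2 ≤ 2 * m' + y' ^ 2)
    (hD : 0 ≤ D) (hd : D ≤ d) (hB : K ≤ B ^ 2)
    (hc : (m' ^ 2 + y' ^ 2) * d ^ 2 < K * ((2 - m') ^ 2 + y' ^ 2)) : False := by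
  have k1 := rho_mono h0 h1 h2.le h3 h4
  have p0 : 0 < (2 - M) ^ 2 + Y ^ 2 := by
    have : 0 < Y := by linarith
    positivity
  have p1 : 0 < (2 - m') ^ 2 + y' ^ 2 := by positivity
  have e1 : K * ((2 - m') ^ 2 + y' ^ 2) * ((2 - M) ^ 2 + Y ^ 2) ≤
      (m' ^ 2 + y' ^ 2) * d ^ 2 * ((2 - M) ^ 2 + Y ^ 2) := by
    have a2 : D ^ 2 ≤ d ^ 2 := pow_le_pow_left₀ hD hd 2
    calc K * ((2 - m') ^ 2 + y' ^ 2) * ((2 - M) ^ 2 + Y ^ 2) ≤
          B ^ 2 * ((2 - m') ^ 2 + y' ^ 2) * ((2 - M) ^ 2 + Y ^ 2) := by gcongr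
      _ = (M ^ 2 + Y ^ 2) * ((2 - m') ^ 2 + y' ^ 2) * D ^ 2 := by linear_combination ((2 - m') ^ 2 + y' ^ 2) * h
      _ ≤ (m' ^ 2 + y' ^ 2) * ((2 - M) ^ 2 + Y ^ 2) * D ^ 2 :=
          mul_le_mul_of_nonneg_right k1 (by positivity)
      _ ≤ (m' ^ 2 + y' ^ 2) * ((2 - M) ^ 2 + Y ^ 2) * d ^ 2 :=
          mul_le_mul_of_nonneg_left a2 (by positivity)
      _ = _ := by ring
  have := le_of_mul_le_mul_right e1 p0
  linarith

/-- The lower bound of the modulus is too large. -/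
theorem mod_lo {B M Y D m' y' d K : ℝ} (h : B ^ 2 * ((2 - M) ^ 2 + Y ^ 2) = (M ^ 2 + Y ^ 2) * D ^ 2)
    (h0 : 1 ≤ m') (h1 : m' ≤ M) (h2 : 0 < Y) (h3 : Y ≤ y') (h4 : M ^ 2 ≤ 2 * M + Y ^ 2)
    (hd0 : 0 ≤ d) (hd : d ≤ D) (hB : B ^ 2 ≤ K)
    (hc : K * ((2 - m') ^ 2 + y' ^ 2) < (m' ^ 2 + y' ^ 2) * d ^ 2) : False := by
  have k1 := rho_mono h0 h1 h2.le h3 h4
  have p0 : 0 < (2 - M) ^ 2 + Y ^ 2 := by positivity
  have p1 : 0 < y' := h2.trans_le h3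
  have e1 : (m' ^ 2 + y' ^ 2) * d ^ 2 * ((2 - M) ^ 2 + Y ^ 2) ≤
      K * ((2 - m') ^ 2 + y' ^ 2) * ((2 - M) ^ 2 + Y ^ 2) := by
    have a2 : d ^ 2 ≤ D ^ 2 := pow_le_pow_left₀ hd0 hd 2
    calc (m' ^ 2 + y' ^ 2) * d ^ 2 * ((2 - M) ^ 2 + Y ^ 2) ≤
          (m' ^ 2 + y' ^ 2) * D ^ 2 * ((2 - M) ^ 2 + Y ^ 2) := by gcongr
      _ = ((m' ^ 2 + y' ^ 2) * ((2 - M) ^ 2 + Y ^ 2)) * D ^ 2 := by ring
      _ ≤ ((M ^ 2 + Y ^ 2) * ((2 - m') ^ 2 + y' ^ 2)) * D ^ 2 :=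
          mul_le_mul_of_nonneg_right k1 (by positivity)
      _ = B ^ 2 * ((2 - m') ^ 2 + y' ^ 2) * ((2 - M) ^ 2 + Y ^ 2) := by
          linear_combination (-((2 - m') ^ 2 + y' ^ 2)) * h
      _ ≤ _ := by gcongr
  have := le_of_mul_le_mul_right e1 p0
  linarith

/-! ### The argument -/

theorem arg_up {b l L : ℂ} {t P Q y0 m0 : ℝ} (h : (b * l) ^ 2 * (2 - L) = L) (hb : 0 < b.re)
    (hb1 : 0 ≤ b.im) (ht : b.im ≤ t * b.re) (ht0 : 0 ≤ t) {τ : ℝ} (hτ0 : 0 ≤ τ) (hl : 0 < l.re) (hl1 : 0 ≤ l.im)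
    (hl2 : l.im ≤ τ * l.re) (htτ : t * τ ≤ 1) (hP : P = 1 - t * τ) (hQ : Q = t + τ) (hy0 : 0 < y0)
    (hy : y0 ≤ L.im) (hm0 : 1 ≤ m0) (hm : m0 ≤ L.re)
    (c1 : Q ^ 2 ≤ P ^ 2 + 2 * P * Q * y0)
    (c2 : y0 * Q ^ 2 + P * Q * (m0 * (2 - m0)) < y0 * P ^ 2 + P * Q * y0 ^ 2) : False := by
  -- the numbers rotated by the bounds
  have x1 : 0 < b.re + t * b.im := by positivity
  have i1 : b.im - t * b.re ≤ 0 := by linarith
  have x2 : 0 < l.re + τ * l.im := by positivity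
  have i2 : l.im - τ * l.re ≤ 0 := by linarith
  have j1 : -(t * (b.re + t * b.im)) ≤ b.im - t * b.re := by nlinarith [mul_nonneg (mul_nonneg ht0 ht0) hb1]
  have j2 : -(τ * (l.re + τ * l.im)) ≤ l.im - τ * l.re := by nlinarith [mul_nonneg (mul_nonneg hτ0 hτ0) hl1]
  set r1 := b.re + t * b.im
  set s1 := b.im - t * b.re
  set r2 := l.re + τ * l.im
  set s2 := l.im - τ * l.re
  have re0 : 0 ≤ r1 * r2 - s1 * s2 := by
    have a1 : s1 * s2 ≤ (t * r1) * (τ * r2) := by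
      have b1 : -s1 ≤ t * r1 := by linarith
      have b2 : -s2 ≤ τ * r2 := by linarith
      have := mul_le_mul b1 b2 (by linarith) (by positivity)
      nlinarith
    have a2 : (t * r1) * (τ * r2) ≤ r1 * r2 := by
      have : (t * τ) * (r1 * r2) ≤ 1 * (r1 * r2) := mul_le_mul_of_nonneg_right htτ (by positivity)
      nlinarith
    linarith
  have im0 : r1 * s2 + s1 * r2 ≤ 0 := by
    have a1 : r1 * s2 ≤ 0 := mul_nonpos_of_nonneg_of_nonpos x1.le i2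
    have a2 : s1 * r2 ≤ 0 := mul_nonpos_of_nonpos_of_nonneg i1 x2.le
    linarith
  -- `ζ = b l conj V`
  set G := b * l with hG
  have g1 : G.re * P + G.im * Q = r1 * r2 - s1 * s2 := by
    rw [hG, mul_re, mul_im, hP, hQ]
    ring
  have g2 : G.im * P - G.re * Q = r1 * s2 + s1 * r2 := by
    rw [hG, mul_re, mul_im, hP, hQ]
    ring
  have z0 : (G.re * P + G.im * Q) * (G.im * P - G.re * Q) ≤ 0 := by
    rw [g1, g2]
    exact mul_nonpos_of_nonneg_of_nonpos re0 im0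
  -- `G² |2 - L|² = L conj (2 - L)`
  have hre := congrArg Complex.re h
  have him := congrArg Complex.im h
  have e1 : (G ^ 2).re = G.re ^ 2 - G.im ^ 2 := by rw [sq, mul_re]; ring
  have e2 : (G ^ 2).im = 2 * G.re * G.im := by rw [sq, mul_im]; ring
  rw [mul_re, e1, e2, sub_re, sub_im, re_ofNat, im_ofNat, zero_sub] at hre
  rw [mul_im, e1, e2, sub_re, sub_im, re_ofNat, im_ofNat, zero_sub] at him
  set M := L.re
  set Y := L.im
  set N := (2 - M) ^ 2 + Y ^ 2 with hN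
  have f1 : (G.re ^ 2 - G.im ^ 2) * N = M * (2 - M) - Y ^ 2 := by
    rw [hN]
    linear_combination (2 - M) * hre - Y * him
  have f2 : 2 * G.re * G.im * N = 2 * Y := by
    rw [hN]
    linear_combination Y * hre + (2 - M) * him
  have hYp : 0 < Y := by linarith
  have hNp : 0 < N := by positivity
  have key : (2 * ((G.re * P + G.im * Q) * (G.im * P - G.re * Q))) * N =
      2 * Y * (P ^ 2 - Q ^ 2) - 2 * P * Q * (M * (2 - M) - Y ^ 2) := by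
    linear_combination (P ^ 2 - Q ^ 2) * f2 - 2 * P * Q * f1
  have k1 : Y * (P ^ 2 - Q ^ 2) - P * Q * (M * (2 - M) - Y ^ 2) ≤ 0 := by
    have : (2 * ((G.re * P + G.im * Q) * (G.im * P - G.re * Q))) * N ≤ 0 :=
      mul_nonpos_of_nonpos_of_nonneg (by linarith) hNp.le
    rw [key] at this
    linarith
  have hP0 : 0 ≤ P := by linarith
  have hQ0 : 0 ≤ Q := by linarith
  have hPQ : 0 ≤ P * Q := mul_nonneg hP0 hQ0
  have k2 : M * (2 - M) ≤ m0 * (2 - m0) := by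
    have e3 : m0 * (2 - m0) - M * (2 - M) = (M - m0) * (M + m0 - 2) := by ring
    have := mul_nonneg (sub_nonneg.2 hm) (show 0 ≤ M + m0 - 2 by linarith)
    linarith
  have k3 : P * Q * (M * (2 - M)) ≤ P * Q * (m0 * (2 - m0)) := mul_le_mul_of_nonneg_left k2 hPQ
  have k4 : 0 ≤ (Y - y0) * ((P ^ 2 - Q ^ 2) + P * Q * (Y + y0)) := by
    apply mul_nonneg (by linarith)
    have := mul_nonneg hPQ (sub_nonneg.2 hy)
    have e3 : P * Q * (Y + y0) = P * Q * (Y - y0) + 2 * P * Q * y0 := by ring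
    linarith
  have e4 : (Y - y0) * ((P ^ 2 - Q ^ 2) + P * Q * (Y + y0)) =
      Y * (P ^ 2 - Q ^ 2) + P * Q * Y ^ 2 - (y0 * P ^ 2 - y0 * Q ^ 2 + P * Q * y0 ^ 2) := by ring
  have e5 : P * Q * (M * (2 - M) - Y ^ 2) = P * Q * (M * (2 - M)) - P * Q * Y ^ 2 := by ring
  linarith

end Pool.Agent.S5.F
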