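import Pool.Agent.S5.I.F5

/-!
# Exclusion of cells: the programs
-/

set_option autoImplicit false

namespace Pool.Agent.S5.F

open Pool.Agent.S5.C2 Pool.Agent.S5.Num Complex

/-- Square. -/
def sq' (n : ℕ) : ℕ := fN (fun m => Nat.mul m m) n

theorem sq'_eq (n : ℕ) : sq' n = n * n := by
  unfold sq'
  rw [fN_eq]
  rfl

/-- The sums of the bounds of the two slots (the sum `M` has to be nonnegative). -/
def withS (l r : SB) (k : ℕ → ℕ → ℕ → ℕ → Bool) : Bool :=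
  fN (fun s => cond (Nat.ble 8388608 s)
    (fN (fun m0 => fN (fun m1 => fN (fun y0 => fN (fun y1 => k m0 m1 y0 y1) (Nat.add l.y1 r.y1))
    (Nat.add l.y0 r.y0)) (Nat.sub (Nat.add l.m1 r.m1) 8388608)) (Nat.sub s 8388608)) false)
    (Nat.add l.m0 r.m0)

theorem lt_of_ble {a b : ℕ} (h : Nat.ble (Nat.succ a) b = true) : (a : ℝ) < b := by
  have := Nat.le_of_ble_eq_true h
  exact_mod_cast this

theorem le_of_ble {a b : ℕ} (h : Nat.ble a b = true) : (a : ℝ) ≤ b := by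
  have := Nat.le_of_ble_eq_true h
  exact_mod_cast this

/-- The bounds of the sums, in units. -/
structure SumOK (m0 m1 y0 y1 : ℕ) (M Y : ℝ) : Prop where
  m0 : (m0 : ℝ) ≤ 1048576 * M
  m1 : 1048576 * M ≤ m1
  y0 : (y0 : ℝ) ≤ 1048576 * Y
  y1 : 1048576 * Y ≤ y1

theorem withS_sound {l r : SB} {w1 e1 w2 e2 : ℝ} {k : ℕ → ℕ → ℕ → ℕ → Bool} (hl : SBOK l w1 e1)
    (hr : SBOK r w2 e2) (h : withS l r k = true) :
    ∃ m0 m1 y0 y1 : ℕ, k m0 m1 y0 y1 = true ∧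
      SumOK m0 m1 y0 y1 (MF w1 e1 + MF w2 e2) (YF w1 e1 + YF w2 e2) := by
  unfold withS at h
  simp only [fN_eq] at h
  obtain ⟨h1, h⟩ := cond_and h
  have h2 : 8388608 ≤ l.m0 + r.m0 := Nat.le_of_ble_eq_true h1
  refine ⟨_, _, _, _, h, ?_⟩
  constructor
  · show ((l.m0 + r.m0 - 8388608 : ℕ) : ℝ) ≤ _
    rw [Nat.cast_sub h2]
    push_cast
    linarith [hl.m0, hr.m0]
  · have h3 : l.m1 + r.m1 ≤ (l.m1 + r.m1 - 8388608) + 8388608 := by omega
    have h4 : ((l.m1 + r.m1 : ℕ) : ℝ) ≤ (((l.m1 + r.m1 - 8388608) + 8388608 : ℕ) : ℝ) := by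
      exact_mod_cast h3
    rw [Nat.cast_add (l.m1 + r.m1 - 8388608)] at h4
    show _ ≤ ((l.m1 + r.m1 - 8388608 : ℕ) : ℝ)
    push_cast at h4 ⊢
    linarith [hl.m1, hr.m1]
  · show ((l.y0 + r.y0 : ℕ) : ℝ) ≤ _
    push_cast
    linarith [hl.y0, hr.y0]
  · show _ ≤ ((l.y1 + r.y1 : ℕ) : ℝ)
    push_cast
    linarith [hl.y1, hr.y1]

/-- `z² + y²` for `z = 2 - m`. -/
def cn (m y : ℕ) : ℕ := Nat.add (sq' (ds' 2097152 m)) (sq' y)

/-- `(2 - M)² + Y²` for one slot. -/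
def cl' (m y : ℕ) : ℕ := Nat.add (sq' (ds' 6291456 m)) (sq' y)

/-- The modulus is smaller than `k0`. -/
def exUp (k0 : ℕ) (l r : SB) : Bool :=
  withS l r (fun m0 m1 y0 _ => cond (Nat.ble 1048576 m0) (cond (Nat.ble 1 y0)
    (fN (fun mm => fN (fun yy => cond (Nat.ble mm (Nat.add (Nat.mul 2097152 m1) yy))
      (Nat.ble (Nat.succ (Nat.mul (Nat.mul (Nat.add mm yy) (sq' l.d1)) 1000000000000))
        (Nat.mul (sq' (sq' k0)) (Nat.mul 1099511627776 (cn m1 y0)))) false)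
    (sq' y0)) (sq' m1)) false) false)

/-- The modulus is larger than `k1`. -/
def exLo (k1 : ℕ) (l r : SB) : Bool :=
  withS l r (fun m0 m1 y0 y1 => cond (Nat.ble 1048576 m0) (cond (Nat.ble 1 y0)
    (cond (Nat.ble (sq' m1) (Nat.add (Nat.mul 2097152 m1) (sq' y0)))
      (Nat.ble (Nat.succ (Nat.mul (sq' (sq' k1)) (Nat.mul 1099511627776 (cn m0 y1))))
        (Nat.mul (Nat.mul (Nat.add (sq' m0) (sq' y1)) (sq' l.d0)) 1000000000000)) false) false) false)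

/-- The argument is larger than `arctan (t1 / 1000)`. -/
def exAr (t1 : ℕ) (l r : SB) : Bool :=
  withS l r (fun m0 _ y0 _ => cond (Nat.ble 1048576 m0) (cond (Nat.ble 1 y0)
    (cond (Nat.ble 4194305 l.m0) (fN (fun a =>
    (cond (Nat.ble (Nat.mul t1 l.y1) (Nat.mul 1000 a))
      (fN (fun P => fN (fun Q => fN (fun PQ => fN (fun PP => fN (fun QQ =>
        cond (Nat.ble (Nat.mul 1048576 QQ) (Nat.add (Nat.mul 1048576 PP) (Nat.mul 2 (Nat.mul PQ y0))))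
          (Nat.ble (Nat.succ (Nat.add (Nat.mul (Nat.mul 1048576 y0) QQ)
              (Nat.mul PQ (Nat.mul m0 (Nat.sub 2097152 m0)))))
            (Nat.add (Nat.mul (Nat.mul 1048576 y0) PP) (Nat.mul PQ (sq' y0)))) false)
        (sq' Q)) (sq' P)) (Nat.mul P Q))
        (Nat.add (Nat.mul 1000 l.y1) (Nat.mul t1 a)))
        (Nat.sub (Nat.mul 1000 a) (Nat.mul t1 l.y1))) false)) (Nat.sub l.m0 4194304)) false) false) false)

/-- End with two half twists: the modulus from the sum is too small. -/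
def exEu (l r : SB) : Bool :=
  withS l r (fun m0 m1 y0 _ => cond (Nat.ble 1048576 m0) (cond (Nat.ble 1 y0) (cond (Nat.ble l.m1 6291456)
    (fN (fun mm => fN (fun yy => cond (Nat.ble mm (Nat.add (Nat.mul 2097152 m1) yy))
      (Nat.ble (Nat.succ (Nat.mul (Nat.mul 4 (cl' l.m0 l.y1)) (Nat.mul (Nat.add mm yy) (sq' l.d1))))
        (Nat.mul 1208925819614629174706176 (cn m1 y0))) false)
    (sq' y0)) (sq' m1)) false) false) false)

/-- End with two half twists: the modulus from the sum is too large. -/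
def exEl (l r : SB) : Bool :=
  withS l r (fun m0 m1 y0 y1 => cond (Nat.ble 1048576 m0) (cond (Nat.ble 1 y0) (cond (Nat.ble l.m1 6291456)
    (cond (Nat.ble (sq' m1) (Nat.add (Nat.mul 2097152 m1) (sq' y0)))
      (Nat.ble (Nat.succ (Nat.mul 1208925819614629174706176 (cn m0 y1)))
        (Nat.mul (Nat.mul 4 (cl' l.m1 l.y0)) (Nat.mul (Nat.add (sq' m0) (sq' y1)) (sq' l.d0)))) false)
      false) false) false)

/-- The modulus of the node is smaller than `k0`. -/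
def exKu (k0 : ℕ) (l r : SB) : Bool :=
  withS l r (fun _ m1 _ y1 =>
      (Nat.ble (Nat.succ (Nat.mul (Nat.mul (Nat.add (sq' m1) (sq' y1)) (Nat.mul l.d1 r.d1)) 1000000000000))
        (Nat.mul (sq' (sq' k0)) 4835703278458516698824704)))

/-- The modulus of the node is larger than `k1`. -/
def exKl (k1 : ℕ) (l r : SB) : Bool :=
  withS l r (fun m0 _ y0 _ =>
      (Nat.ble (Nat.succ (Nat.mul (sq' (sq' k1)) 4835703278458516698824704))
        (Nat.mul (Nat.mul (Nat.add (sq' m0) (sq' y0)) (Nat.mul l.d0 r.d0)) 1000000000000)))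

theorem sq_cast (n : ℕ) : ((sq' n : ℕ) : ℝ) = (n : ℝ) ^ 2 := by
  rw [sq'_eq]
  push_cast
  ring

theorem cn_cast (m y : ℕ) : ((cn m y : ℕ) : ℝ) = (2097152 - (m : ℝ)) ^ 2 + (y : ℝ) ^ 2 := by
  unfold cn
  have e := ds_sq 2097152 m
  show ((sq' (ds' 2097152 m) + sq' y : ℕ) : ℝ) = _
  rw [Nat.cast_add, sq_cast, sq_cast, e]
  norm_num

theorem cl_cast (m y : ℕ) : ((cl' m y : ℕ) : ℝ) = (6291456 - (m : ℝ)) ^ 2 + (y : ℝ) ^ 2 := by
  unfold cl'
  have e := ds_sq 6291456 m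
  show ((sq' (ds' 6291456 m) + sq' y : ℕ) : ℝ) = _
  rw [Nat.cast_add, sq_cast, sq_cast, e]
  norm_num

theorem up_core {m0 m1 y0 y1 d1 : ℕ} {B M Y D K : ℝ} (hs : SumOK m0 m1 y0 y1 M Y) (hD0 : 0 ≤ D)
    (hD : 1048576 * D ≤ d1) (c0 : (1048576 : ℝ) ≤ m0) (c1 : (1 : ℝ) ≤ y0)
    (c2 : ((sq' m1 : ℕ) : ℝ) ≤ 2097152 * m1 + sq' y0)
    (h : B ^ 2 * ((2 - M) ^ 2 + Y ^ 2) = (M ^ 2 + Y ^ 2) * D ^ 2) (hB : K ≤ B ^ 2)
    (hc : ((m1 : ℝ) ^ 2 + (y0 : ℝ) ^ 2) * (d1 : ℝ) ^ 2 < K * 1099511627776 * (cn m1 y0 : ℕ)) : False := by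
  obtain ⟨b1, b2, b3, b4⟩ := hs
  rw [sq_cast, sq_cast] at c2
  rw [cn_cast] at hc
  apply mod_up (m' := (m1 : ℝ) / 1048576) (y' := (y0 : ℝ) / 1048576) (d := (d1 : ℝ) / 1048576) h
    (by linarith) (by linarith) (by positivity) (by linarith) _ hD0 (by linarith) hB _
  · rw [div_pow, div_pow]
    have : 2 * ((m1 : ℝ) / 1048576) = 2097152 * m1 / 1048576 ^ 2 := by ring
    rw [this, ← add_div]
    gcongr
  · have e1 : (((m1 : ℝ) / 1048576) ^ 2 + ((y0 : ℝ) / 1048576) ^ 2) * ((d1 : ℝ) / 1048576) ^ 2 =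
        ((m1 : ℝ) ^ 2 + (y0 : ℝ) ^ 2) * (d1 : ℝ) ^ 2 / 1048576 ^ 4 := by ring
    have e2 : K * ((2 - (m1 : ℝ) / 1048576) ^ 2 + ((y0 : ℝ) / 1048576) ^ 2) =
        K * 1099511627776 * ((2097152 - (m1 : ℝ)) ^ 2 + (y0 : ℝ) ^ 2) / 1048576 ^ 4 := by ring
    rw [e1, e2]
    gcongr

theorem lo_core {m0 m1 y0 y1 d0 : ℕ} {B M Y D K : ℝ} (hs : SumOK m0 m1 y0 y1 M Y)
    (hD : (d0 : ℝ) ≤ 1048576 * D) (c0 : (1048576 : ℝ) ≤ m0) (c1 : (1 : ℝ) ≤ y0)
    (c2 : ((sq' m1 : ℕ) : ℝ) ≤ 2097152 * m1 + sq' y0)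
    (h : B ^ 2 * ((2 - M) ^ 2 + Y ^ 2) = (M ^ 2 + Y ^ 2) * D ^ 2) (hB : B ^ 2 ≤ K)
    (hc : K * 1099511627776 * (cn m0 y1 : ℕ) < ((m0 : ℝ) ^ 2 + (y1 : ℝ) ^ 2) * (d0 : ℝ) ^ 2) : False := by
  obtain ⟨b1, b2, b3, b4⟩ := hs
  rw [sq_cast, sq_cast] at c2
  rw [cn_cast] at hc
  have hY : 0 < Y := by linarith
  have hM : 1 ≤ M := by linarith
  apply mod_lo (m' := (m0 : ℝ) / 1048576) (y' := (y1 : ℝ) / 1048576) (d := (d0 : ℝ) / 1048576) h
    (by linarith) (by linarith) hY (by linarith) _ (by positivity) (by linarith) hB _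
  · -- `M² - 2 M` is at most its value at the upper bound
    have k1 : (1048576 * M) ^ 2 - 2097152 * (1048576 * M) ≤ (m1 : ℝ) ^ 2 - 2097152 * m1 := by
      have : ((m1 : ℝ) ^ 2 - 2097152 * m1) - ((1048576 * M) ^ 2 - 2097152 * (1048576 * M)) =
        (m1 - 1048576 * M) * (m1 + 1048576 * M - 2097152) := by ring
      have := mul_nonneg (sub_nonneg.2 b2) (show 0 ≤ m1 + 1048576 * M - 2097152 by linarith)
      linarith
    have k2 : (y0 : ℝ) ^ 2 ≤ (1048576 * Y) ^ 2 := pow_le_pow_left₀ (by positivity) b3 2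
    nlinarith
  · have e1 : (((m0 : ℝ) / 1048576) ^ 2 + ((y1 : ℝ) / 1048576) ^ 2) * ((d0 : ℝ) / 1048576) ^ 2 =
        ((m0 : ℝ) ^ 2 + (y1 : ℝ) ^ 2) * (d0 : ℝ) ^ 2 / 1048576 ^ 4 := by ring
    have e2 : K * ((2 - (m0 : ℝ) / 1048576) ^ 2 + ((y1 : ℝ) / 1048576) ^ 2) =
        K * 1099511627776 * ((2097152 - (m0 : ℝ)) ^ 2 + (y1 : ℝ) ^ 2) / 1048576 ^ 4 := by ring
    rw [e1, e2]
    gcongr

variable {l r : SB} {w1 e1 w2 e2 : ℝ} {b k : ℂ} {k0 k1 t1 : ℕ}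

theorem exUp_sound (h : exUp k0 l r = true) (hl : SBOK l w1 e1) (hr : SBOK r w2 e2) (hw : 0 < w1)
    (he : 0 < e1) (hR : Rel b w1 e1 w2 e2) (hG : ((k0 : ℝ) / 1000) ^ 2 ≤ b.re ^ 2 + b.im ^ 2) : False := by
  unfold exUp at h
  obtain ⟨m0, m1, y0, y1, h, hs⟩ := withS_sound hl hr h
  simp only [fN_eq] at h
  obtain ⟨h1, h⟩ := cond_and h
  obtain ⟨h2, h⟩ := cond_and h
  obtain ⟨h3, h⟩ := cond_and h
  have a1 := le_of_ble h1
  have a2 := le_of_ble h2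
  have a3 := le_of_ble h3
  have a4 := lt_of_ble h
  have e3 : ∀ x y : ℕ, ((Nat.add x y : ℕ) : ℝ) = (x : ℝ) + y := fun x y => Nat.cast_add x y
  have e4 : ∀ x y : ℕ, ((Nat.mul x y : ℕ) : ℝ) = (x : ℝ) * y := fun x y => Nat.cast_mul x y
  simp only [e3, e4] at a1 a2 a3 a4
  refine up_core hs (DF_pos hw he).le hl.d1 (by push_cast at a1 ⊢; linarith)
    (by push_cast at a2 ⊢; linarith) (by push_cast at a3 ⊢; linarith) (hR.mod hw he)
    (K := ((k0 : ℝ) / 1000) ^ 4) ?_ ?_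
  · have := pow_le_pow_left₀ (by positivity) hG 2
    calc ((k0 : ℝ) / 1000) ^ 4 = (((k0 : ℝ) / 1000) ^ 2) ^ 2 := by ring
      _ ≤ _ := this
  · simp only [sq_cast] at a4
    rw [div_pow]
    push_cast at a4 ⊢
    rw [div_mul_eq_mul_div, div_mul_eq_mul_div, lt_div_iff₀ (by norm_num)]
    nlinarith

theorem exLo_sound (h : exLo k1 l r = true) (hl : SBOK l w1 e1) (hr : SBOK r w2 e2) (hw : 0 < w1)
    (he : 0 < e1) (hR : Rel b w1 e1 w2 e2) (hG : b.re ^ 2 + b.im ^ 2 ≤ ((k1 : ℝ) / 1000) ^ 2) : False := by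
  unfold exLo at h
  obtain ⟨m0, m1, y0, y1, h, hs⟩ := withS_sound hl hr h
  obtain ⟨h1, h⟩ := cond_and h
  obtain ⟨h2, h⟩ := cond_and h
  obtain ⟨h3, h⟩ := cond_and h
  have a1 := le_of_ble h1
  have a2 := le_of_ble h2
  have a3 := le_of_ble h3
  have a4 := lt_of_ble h
  have e3 : ∀ x y : ℕ, ((Nat.add x y : ℕ) : ℝ) = (x : ℝ) + y := fun x y => Nat.cast_add x y
  have e4 : ∀ x y : ℕ, ((Nat.mul x y : ℕ) : ℝ) = (x : ℝ) * y := fun x y => Nat.cast_mul x y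
  simp only [e3, e4] at a1 a2 a3 a4
  refine lo_core hs hl.d0 (by push_cast at a1 ⊢; linarith)
    (by push_cast at a2 ⊢; linarith) (by push_cast at a3 ⊢; linarith) (hR.mod hw he)
    (K := ((k1 : ℝ) / 1000) ^ 4) ?_ ?_
  · have := pow_le_pow_left₀ (by positivity) hG 2
    calc _ ≤ (((k1 : ℝ) / 1000) ^ 2) ^ 2 := this
      _ = _ := by ring
  · simp only [sq_cast] at a4
    rw [div_pow]
    push_cast at a4 ⊢
    rw [div_mul_eq_mul_div, div_mul_eq_mul_div, div_lt_iff₀ (by norm_num)]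
    nlinarith

theorem exAr_sound (h : exAr t1 l r = true) (hl : SBOK l w1 e1) (hr : SBOK r w2 e2)
    (hR : Rel b w1 e1 w2 e2) (hre : 0 < b.re) (him : 0 ≤ b.im) (har : b.im ≤ (t1 : ℝ) / 1000 * b.re) :
    False := by
  unfold exAr at h
  obtain ⟨m0, m1, y0, y1, h, hs⟩ := withS_sound hl hr h
  obtain ⟨h1, h⟩ := cond_and h
  obtain ⟨h2, h⟩ := cond_and h
  obtain ⟨h5, h⟩ := cond_and h
  simp only [fN_eq] at h
  obtain ⟨h3, h⟩ := cond_and h
  obtain ⟨h4, h⟩ := cond_and h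
  have a1 := le_of_ble h1
  have a2 := le_of_ble h2
  have n5 : 4194305 ≤ l.m0 := Nat.le_of_ble_eq_true h5
  have ea : ((Nat.sub l.m0 4194304 : ℕ) : ℝ) = (l.m0 : ℝ) - 4194304 := by
    show ((l.m0 - 4194304 : ℕ) : ℝ) = _
    rw [Nat.cast_sub (by omega)]
    push_cast
    ring
  have ea1 : (1 : ℝ) ≤ ((Nat.sub l.m0 4194304 : ℕ) : ℝ) := by
    have : 1 ≤ Nat.sub l.m0 4194304 := by
      show 1 ≤ l.m0 - 4194304
      omega
    exact_mod_cast this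
  generalize Nat.sub l.m0 4194304 = an at ea ea1 h3 h4 h
  have a3 := le_of_ble h3
  have n3 : t1 * l.y1 ≤ 1000 * an := Nat.le_of_ble_eq_true h3
  have a4 := le_of_ble h4
  have a5 := lt_of_ble h
  have e3 : ∀ x y : ℕ, ((Nat.add x y : ℕ) : ℝ) = (x : ℝ) + y := fun x y => Nat.cast_add x y
  have e4 : ∀ x y : ℕ, ((Nat.mul x y : ℕ) : ℝ) = (x : ℝ) * y := fun x y => Nat.cast_mul x y
  have eP : ((Nat.sub (Nat.mul 1000 an) (Nat.mul t1 l.y1) : ℕ) : ℝ) = 1000 * an - t1 * l.y1 := by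
    show ((1000 * an - t1 * l.y1 : ℕ) : ℝ) = _
    rw [Nat.cast_sub n3]
    push_cast
    ring
  have q1 := hs.m0
  have q2 := hs.y0
  have eS : ((2097152 : ℝ) - (m0 : ℕ)) ≤ ((Nat.sub 2097152 m0 : ℕ) : ℝ) := by
    have : 2097152 ≤ (2097152 - m0) + m0 := by omega
    have h5 : ((2097152 : ℕ) : ℝ) ≤ (((2097152 - m0) + m0 : ℕ) : ℝ) := by
      exact_mod_cast this
    rw [Nat.cast_add] at h5
    have h6 : ((Nat.sub 2097152 m0 : ℕ) : ℝ) = ((2097152 - m0 : ℕ) : ℝ) := rfl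
    rw [h6]
    push_cast at h5 ⊢
    linarith
  simp only [e3, e4, sq_cast, eP] at a1 a2 a3 a4 a5
  have hyl : (1048576 : ℝ) * YF w1 e1 ≤ l.y1 := hl.y1
  have hyl0 := hl.y0
  have hml := hl.m0
  clear hs hl hr h1 h2 h3 h4 h5 h n3 n5 eP e3 e4
  generalize ((Nat.sub 2097152 m0 : ℕ) : ℝ) = S at eS a5
  set m := ((m0 : ℕ) : ℝ) with hm
  set y := ((y0 : ℕ) : ℝ) with hy
  set a := (an : ℝ) with ha
  set c := (l.y1 : ℝ) with hc
  have hc0 : 0 ≤ c := Nat.cast_nonneg _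
  have ht0 : (0 : ℝ) ≤ t1 := Nat.cast_nonneg _
  have hm0 : 0 < a := by linarith
  have hml' : a ≤ 1048576 * MF w1 e1 := by linarith
  have hMl : 0 < MF w1 e1 := by linarith
  have hYl : 0 ≤ YF w1 e1 := by
    have : (0 : ℝ) ≤ l.y0 := Nat.cast_nonneg _
    linarith
  have hτ : YF w1 e1 ≤ c / a * MF w1 e1 := by
    rw [div_mul_eq_mul_div, le_div_iff₀ hm0]
    calc YF w1 e1 * a ≤ YF w1 e1 * (1048576 * MF w1 e1) := mul_le_mul_of_nonneg_left hml' hYl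
      _ = (1048576 * YF w1 e1) * MF w1 e1 := by ring
      _ ≤ c * MF w1 e1 := mul_le_mul_of_nonneg_right hyl hMl.le
  push_cast at a1 a2 a3 a4 a5
  have hmp : (1048576 : ℝ) ≤ m := a1
  have hyp : (1 : ℝ) ≤ y := a2
  have P0 : (0 : ℝ) ≤ 1000 * a - t1 * c := by linarith
  have Q0 : (0 : ℝ) ≤ 1000 * c + t1 * a := by positivity
  refine arg_up (t := (t1 : ℝ) / 1000) (τ := c / a) (y0 := y / 1048576) (m0 := m / 1048576) hR hre him har
    (by positivity) (by positivity) hMl hYl hτ ?_ rfl rfl (by positivity) ?_ ?_ ?_ ?_ ?_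
  · rw [div_mul_div_comm, div_le_one (by positivity)]
    linarith
  · rw [add_im]
    show y / 1048576 ≤ YF w1 e1 + YF w2 e2
    linarith
  · linarith
  · rw [add_re]
    show m / 1048576 ≤ MF w1 e1 + MF w2 e2
    linarith
  · have e5 : 1 - (t1 : ℝ) / 1000 * (c / a) = (1000 * a - t1 * c) / (1000 * a) := by
      field_simp
    have e6 : (t1 : ℝ) / 1000 + c / a = (1000 * c + t1 * a) / (1000 * a) := by
      field_simp
      ring
    rw [e5, e6]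
    set P := 1000 * a - t1 * c
    set Q := 1000 * c + t1 * a
    have e7 : (Q / (1000 * a)) ^ 2 = (1048576 * Q ^ 2) / (1048576 * (1000 * a) ^ 2) := by
      field_simp
    have e8 : (P / (1000 * a)) ^ 2 + 2 * (P / (1000 * a)) * (Q / (1000 * a)) * (y / 1048576) =
        (1048576 * P ^ 2 + 2 * (P * Q * y)) / (1048576 * (1000 * a) ^ 2) := by
      field_simp
    rw [e7, e8]
    apply div_le_div_of_nonneg_right _ (by positivity)
    linarith
  · have e5 : 1 - (t1 : ℝ) / 1000 * (c / a) = (1000 * a - t1 * c) / (1000 * a) := by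
      field_simp
    have e6 : (t1 : ℝ) / 1000 + c / a = (1000 * c + t1 * a) / (1000 * a) := by
      field_simp
      ring
    rw [e5, e6]
    set P := 1000 * a - t1 * c
    set Q := 1000 * c + t1 * a
    have e7 : y / 1048576 * (Q / (1000 * a)) ^ 2 +
        P / (1000 * a) * (Q / (1000 * a)) * (m / 1048576 * (2 - m / 1048576)) =
        (1048576 * y * Q ^ 2 + P * Q * (m * (2097152 - m))) / (1048576 ^ 2 * (1000 * a) ^ 2) := by
      field_simp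
      ring
    have e8 : y / 1048576 * (P / (1000 * a)) ^ 2 +
        P / (1000 * a) * (Q / (1000 * a)) * (y / 1048576) ^ 2 =
        (1048576 * y * P ^ 2 + P * Q * y ^ 2) / (1048576 ^ 2 * (1000 * a) ^ 2) := by
      field_simp
    rw [e7, e8]
    apply div_lt_div_of_pos_right _ (by positivity)
    have k1 : P * Q * (m * (2097152 - m)) ≤ P * Q * (m * S) := by
      apply mul_le_mul_of_nonneg_left _ (mul_nonneg P0 Q0)
      apply mul_le_mul_of_nonneg_left eS (by linarith)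
    linarith

end Pool.Agent.S5.F
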