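import Pool.Agent.S5.I.F6

/-!
# Exclusion of cells: ends and the modulus of the node
-/

set_option autoImplicit false

namespace Pool.Agent.S5.F

open Pool.Agent.S5.C2 Pool.Agent.S5.Num Complex

variable {l r : SB} {w1 e1 w2 e2 : ℝ} {b k : ℂ} {k0 k1 t1 : ℕ}

theorem two_sub_sq {m0 m1 : ℕ} {M : ℝ} (h0 : (m0 : ℝ) ≤ 1048576 * M + 4194304)
    (h1 : 1048576 * M + 4194304 ≤ m1) (h2 : (m1 : ℝ) ≤ 6291456) :
    (6291456 - (m1 : ℝ)) ^ 2 ≤ 1048576 ^ 2 * (2 - M) ^ 2 ∧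
      1048576 ^ 2 * (2 - M) ^ 2 ≤ (6291456 - (m0 : ℝ)) ^ 2 := by
  have e : 1048576 ^ 2 * (2 - M) ^ 2 = (2097152 - 1048576 * M) ^ 2 := by ring
  rw [e]
  exact ⟨pow_le_pow_left₀ (by linarith) (by linarith) 2, pow_le_pow_left₀ (by linarith) (by linarith) 2⟩

theorem exEu_sound (h : exEu l r = true) (hl : SBOK l w1 e1) (hr : SBOK r w2 e2) (hw : 0 < w1)
    (he : 0 < e1) (hR : Rel b w1 e1 w2 e2) (hE : RelE b w1 e1) : False := by
  unfold exEu at h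
  obtain ⟨m0, m1, y0, y1, h, hs⟩ := withS_sound hl hr h
  simp only [fN_eq] at h
  obtain ⟨h1, h⟩ := cond_and h
  obtain ⟨h2, h⟩ := cond_and h
  obtain ⟨h5, h⟩ := cond_and h
  obtain ⟨h3, h⟩ := cond_and h
  have a1 := le_of_ble h1
  have a2 := le_of_ble h2
  have a3 := le_of_ble h3
  have a4 := lt_of_ble h
  have a5 := le_of_ble h5
  have e3 : ∀ x y : ℕ, ((Nat.add x y : ℕ) : ℝ) = (x : ℝ) + y := fun x y => Nat.cast_add x y
  have e4 : ∀ x y : ℕ, ((Nat.mul x y : ℕ) : ℝ) = (x : ℝ) * y := fun x y => Nat.cast_mul x y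
  simp only [e3, e4] at a1 a2 a3 a4
  have hm := hE.mod
  set Z := (2 - MF w1 e1) ^ 2 + YF w1 e1 ^ 2 with hZ
  set B := b.re ^ 2 + b.im ^ 2 with hB
  have hZp : 0 < Z := by
    by_contra h6
    have h7 : 4 * B ^ 2 * Z ≤ 0 := mul_nonpos_of_nonneg_of_nonpos (by positivity) (not_lt.1 h6)
    linarith
  have hYl : 0 ≤ YF w1 e1 := by
    have := hl.y0
    have : (0 : ℝ) ≤ l.y0 := by positivity
    linarith
  have hZ1 : 1099511627776 * Z ≤ (cl' l.m0 l.y1 : ℕ) := by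
    rw [cl_cast, hZ]
    have := (two_sub_sq hl.m0 hl.m1 (by push_cast at a5 ⊢; exact a5)).2
    have h8 := pow_le_pow_left₀ (show 0 ≤ 1048576 * YF w1 e1 by positivity) hl.y1 2
    nlinarith
  have hcp : (0 : ℝ) < (cl' l.m0 l.y1 : ℕ) := by
    have : 0 < 1099511627776 * Z := by positivity
    linarith
  refine up_core hs (DF_pos hw he).le hl.d1 (by push_cast at a1 ⊢; linarith)
    (by push_cast at a2 ⊢; linarith) (by push_cast at a3 ⊢; linarith) (hR.mod hw he)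
    (K := 274877906944 / (cl' l.m0 l.y1 : ℕ)) ?_ ?_
  · rw [div_le_iff₀ hcp]
    have : B ^ 2 * (1099511627776 * Z) ≤ B ^ 2 * (cl' l.m0 l.y1 : ℕ) :=
      mul_le_mul_of_nonneg_left hZ1 (by positivity)
    linarith
  · simp only [sq_cast] at a4
    push_cast at a4 ⊢
    rw [div_mul_eq_mul_div, div_mul_eq_mul_div, lt_div_iff₀ hcp]
    nlinarith

theorem exEl_sound (h : exEl l r = true) (hl : SBOK l w1 e1) (hr : SBOK r w2 e2) (hw : 0 < w1)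
    (he : 0 < e1) (hR : Rel b w1 e1 w2 e2) (hE : RelE b w1 e1) : False := by
  unfold exEl at h
  obtain ⟨m0, m1, y0, y1, h, hs⟩ := withS_sound hl hr h
  obtain ⟨h1, h⟩ := cond_and h
  obtain ⟨h2, h⟩ := cond_and h
  obtain ⟨h5, h⟩ := cond_and h
  obtain ⟨h3, h⟩ := cond_and h
  have a1 := le_of_ble h1
  have a2 := le_of_ble h2
  have a3 := le_of_ble h3
  have a4 := lt_of_ble h
  have a5 := le_of_ble h5
  have e3 : ∀ x y : ℕ, ((Nat.add x y : ℕ) : ℝ) = (x : ℝ) + y := fun x y => Nat.cast_add x y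
  have e4 : ∀ x y : ℕ, ((Nat.mul x y : ℕ) : ℝ) = (x : ℝ) * y := fun x y => Nat.cast_mul x y
  simp only [e3, e4] at a1 a2 a3 a4
  have hm := hE.mod
  set Z := (2 - MF w1 e1) ^ 2 + YF w1 e1 ^ 2 with hZ
  set B := b.re ^ 2 + b.im ^ 2 with hB
  have hZ1 : ((cl' l.m1 l.y0 : ℕ) : ℝ) ≤ 1099511627776 * Z := by
    rw [cl_cast, hZ]
    have := (two_sub_sq hl.m0 hl.m1 (by push_cast at a5 ⊢; exact a5)).1
    have h8 := pow_le_pow_left₀ (show (0 : ℝ) ≤ l.y0 by positivity) hl.y0 2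
    nlinarith
  have hcp : (0 : ℝ) < (cl' l.m1 l.y0 : ℕ) := by
    have h6 : 0 < cl' l.m1 l.y0 := by
      have h7 := Nat.le_of_ble_eq_true h
      rcases Nat.eq_zero_or_pos (cl' l.m1 l.y0) with h8 | h8
      · rw [h8] at h7
        exact absurd h7 (by
          show ¬ (_ ≤ (4 * 0) * _)
          rw [Nat.mul_zero, Nat.zero_mul]
          exact Nat.not_succ_le_zero _)
      · exact h8
    exact_mod_cast h6
  refine lo_core hs hl.d0 (by push_cast at a1 ⊢; linarith)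
    (by push_cast at a2 ⊢; linarith) (by push_cast at a3 ⊢; linarith) (hR.mod hw he)
    (K := 274877906944 / (cl' l.m1 l.y0 : ℕ)) ?_ ?_
  · rw [le_div_iff₀ hcp]
    have : B ^ 2 * (cl' l.m1 l.y0 : ℕ) ≤ B ^ 2 * (1099511627776 * Z) :=
      mul_le_mul_of_nonneg_left hZ1 (by positivity)
    linarith
  · simp only [sq_cast] at a4
    push_cast at a4 ⊢
    rw [div_mul_eq_mul_div, div_mul_eq_mul_div, div_lt_iff₀ hcp]
    nlinarith

theorem exKu_sound (h : exKu k0 l r = true) (hl : SBOK l w1 e1) (hr : SBOK r w2 e2) (hw : 0 < w1)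
    (he : 0 < e1) (hw2 : 0 < w2) (he2 : 0 < e2) (hR : RelK k w1 e1 w2 e2)
    (hk : ((k0 : ℝ) / 1000) ^ 2 ≤ k.re ^ 2 + k.im ^ 2) : False := by
  unfold exKu at h
  obtain ⟨m0, m1, y0, y1, h, hs⟩ := withS_sound hl hr h
  have a4 := lt_of_ble h
  have e3 : ∀ x y : ℕ, ((Nat.add x y : ℕ) : ℝ) = (x : ℝ) + y := fun x y => Nat.cast_add x y
  have e4 : ∀ x y : ℕ, ((Nat.mul x y : ℕ) : ℝ) = (x : ℝ) * y := fun x y => Nat.cast_mul x y
  simp only [e3, e4, sq_cast] at a4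
  obtain ⟨b1, b2, b3, b4⟩ := hs
  have hm := hR.mod hw he hw2 he2
  have d1 := DF_pos hw he
  have d2 := DF_pos hw2 he2
  set M := MF w1 e1 + MF w2 e2
  set Y := YF w1 e1 + YF w2 e2
  have h0 : (0 : ℝ) ≤ (m0 : ℕ) := by positivity
  have h1 : (0 : ℝ) ≤ (y0 : ℕ) := by positivity
  have g1 : (1048576 * M) ^ 2 ≤ (m1 : ℝ) ^ 2 := pow_le_pow_left₀ (by linarith) b2 2
  have g2 : (1048576 * Y) ^ 2 ≤ (y1 : ℝ) ^ 2 := pow_le_pow_left₀ (by linarith) b4 2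
  have g3 : (1048576 * DF w1 e1) * (1048576 * DF w2 e2) ≤ (l.d1 : ℝ) * r.d1 :=
    mul_le_mul hl.d1 hr.d1 (by positivity) (by positivity)
  have g4 : ((1048576 * M) ^ 2 + (1048576 * Y) ^ 2) * ((1048576 * DF w1 e1) * (1048576 * DF w2 e2)) ≤
      ((m1 : ℝ) ^ 2 + (y1 : ℝ) ^ 2) * ((l.d1 : ℝ) * r.d1) :=
    mul_le_mul (by linarith) g3 (by positivity) (by positivity)
  have g5 : (((k0 : ℝ) / 1000) ^ 2) ^ 2 ≤ (k.re ^ 2 + k.im ^ 2) ^ 2 :=
    pow_le_pow_left₀ (by positivity) hk 2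
  have g6 : (((k0 : ℝ) / 1000) ^ 2) ^ 2 = ((k0 : ℝ) ^ 2) ^ 2 / 1000000000000 := by ring
  rw [g6, div_le_iff₀ (by norm_num)] at g5
  push_cast at a4 g4
  have g7 : ((1048576 * M) ^ 2 + (1048576 * Y) ^ 2) * ((1048576 * DF w1 e1) * (1048576 * DF w2 e2)) =
      1208925819614629174706176 * (4 * (k.re ^ 2 + k.im ^ 2) ^ 2) := by
    rw [hm]
    ring
  rw [g7] at g4
  linarith

theorem exKl_sound (h : exKl k1 l r = true) (hl : SBOK l w1 e1) (hr : SBOK r w2 e2) (hw : 0 < w1)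
    (he : 0 < e1) (hw2 : 0 < w2) (he2 : 0 < e2) (hR : RelK k w1 e1 w2 e2)
    (hk : k.re ^ 2 + k.im ^ 2 ≤ ((k1 : ℝ) / 1000) ^ 2) : False := by
  unfold exKl at h
  obtain ⟨m0, m1, y0, y1, h, hs⟩ := withS_sound hl hr h
  have a4 := lt_of_ble h
  have e3 : ∀ x y : ℕ, ((Nat.add x y : ℕ) : ℝ) = (x : ℝ) + y := fun x y => Nat.cast_add x y
  have e4 : ∀ x y : ℕ, ((Nat.mul x y : ℕ) : ℝ) = (x : ℝ) * y := fun x y => Nat.cast_mul x y
  simp only [e3, e4, sq_cast] at a4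
  obtain ⟨b1, b2, b3, b4⟩ := hs
  have hm := hR.mod hw he hw2 he2
  have d1 := DF_pos hw he
  have d2 := DF_pos hw2 he2
  set M := MF w1 e1 + MF w2 e2
  set Y := YF w1 e1 + YF w2 e2
  have g1 : (m0 : ℝ) ^ 2 ≤ (1048576 * M) ^ 2 := pow_le_pow_left₀ (by positivity) b1 2
  have g2 : (y0 : ℝ) ^ 2 ≤ (1048576 * Y) ^ 2 := pow_le_pow_left₀ (by positivity) b3 2
  have g3 : (l.d0 : ℝ) * r.d0 ≤ (1048576 * DF w1 e1) * (1048576 * DF w2 e2) :=
    mul_le_mul hl.d0 hr.d0 (by positivity) (by positivity)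
  have g4 : ((m0 : ℝ) ^ 2 + (y0 : ℝ) ^ 2) * ((l.d0 : ℝ) * r.d0) ≤
      ((1048576 * M) ^ 2 + (1048576 * Y) ^ 2) * ((1048576 * DF w1 e1) * (1048576 * DF w2 e2)) :=
    mul_le_mul (by linarith) g3 (by positivity) (by positivity)
  have g5 : (k.re ^ 2 + k.im ^ 2) ^ 2 ≤ (((k1 : ℝ) / 1000) ^ 2) ^ 2 :=
    pow_le_pow_left₀ (by positivity) hk 2
  have g6 : (((k1 : ℝ) / 1000) ^ 2) ^ 2 = ((k1 : ℝ) ^ 2) ^ 2 / 1000000000000 := by ring
  rw [g6, le_div_iff₀ (by norm_num)] at g5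
  push_cast at a4 g4
  have g7 : ((1048576 * M) ^ 2 + (1048576 * Y) ^ 2) * ((1048576 * DF w1 e1) * (1048576 * DF w2 e2)) =
      1208925819614629174706176 * (4 * (k.re ^ 2 + k.im ^ 2) ^ 2) := by
    rw [hm]
    ring
  rw [g7] at g4
  linarith

/-! ### Tests without conditions -/

/-- The sums, `8` is added to `M`. -/
def withT (l r : SB) (k : ℕ → ℕ → ℕ → ℕ → Bool) : Bool :=
  fN (fun m0 => fN (fun m1 => fN (fun y0 => fN (fun y1 => k m0 m1 y0 y1) (Nat.add l.y1 r.y1))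
    (Nat.add l.y0 r.y0)) (Nat.add l.m1 r.m1)) (Nat.add l.m0 r.m0)

/-- The modulus is larger than `k1`. -/
def exLc (k1 : ℕ) (l r : SB) : Bool :=
  withT l r (fun m0 m1 y0 y1 =>
    (Nat.ble (Nat.succ (Nat.mul (sq' (sq' k1)) (Nat.mul 1099511627776
        (Nat.add (sq' (mx' (ds' 10485760 m0) (ds' 10485760 m1))) (sq' y1)))))
      (Nat.mul (Nat.mul (Nat.add (sq' (Nat.sub m0 8388608)) (sq' y0)) (sq' l.d0)) 1000000000000)))

/-- The modulus is smaller than `k0`. -/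
def exUc (k0 : ℕ) (l r : SB) : Bool :=
  withT l r (fun m0 m1 y0 y1 =>
    (Nat.ble (Nat.succ (Nat.mul (Nat.mul (Nat.add (sq' (mx' (ds' 8388608 m0) (ds' 8388608 m1))) (sq' y1))
        (sq' l.d1)) 1000000000000))
      (Nat.mul (sq' (sq' k0)) (Nat.mul 1099511627776
        (Nat.add (Nat.add (sq' (Nat.sub m0 10485760)) (sq' (Nat.sub 10485760 m1))) (sq' y0))))))

/-- The argument is smaller than `arctan (t0 / 1000)`. -/
def exAl (t0 : ℕ) (l r : SB) : Bool :=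
  cond (Nat.ble 4194305 l.m0) (cond (Nat.ble 1 (Nat.add l.y0 r.y0))
    (Nat.ble (Nat.mul 1000 (Nat.sub l.m1 4194304)) (Nat.mul t0 l.y0)) false) false

theorem mx_ge (a b : ℕ) : a ≤ mx' a b ∧ b ≤ mx' a b := by
  unfold mx'
  rcases ble_cases a b with ⟨hb1, hb2⟩ | ⟨hb1, hb2⟩
  · rw [cond_t hb1]
    exact ⟨hb2, le_rfl⟩
  · rw [cond_f hb1]
    exact ⟨le_rfl, hb2.le⟩

/-- The largest distance to `c` in an interval. -/
theorem ds_max {c a b : ℕ} {x : ℝ} (h0 : (a : ℝ) ≤ x) (h1 : x ≤ b) :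
    (c - x) ^ 2 ≤ ((mx' (ds' c a) (ds' c b) : ℕ) : ℝ) ^ 2 := by
  obtain ⟨m1, m2⟩ := mx_ge (ds' c a) (ds' c b)
  have n1 : ((ds' c a : ℕ) : ℝ) ≤ (mx' (ds' c a) (ds' c b) : ℕ) := by exact_mod_cast m1
  have n2 : ((ds' c b : ℕ) : ℝ) ≤ (mx' (ds' c a) (ds' c b) : ℕ) := by exact_mod_cast m2
  have e1 := ds_sq c a
  have e2 := ds_sq c b
  have p1 := pow_le_pow_left₀ (Nat.cast_nonneg _) n1 2
  have p2 := pow_le_pow_left₀ (Nat.cast_nonneg _) n2 2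
  rw [e1] at p1
  rw [e2] at p2
  rcases le_total x c with h | h
  · have : (c - x) ^ 2 ≤ ((c : ℝ) - a) ^ 2 := pow_le_pow_left₀ (by linarith) (by linarith) 2
    linarith
  · have : (x - c) ^ 2 ≤ ((b : ℝ) - c) ^ 2 := pow_le_pow_left₀ (by linarith) (by linarith) 2
    nlinarith

theorem sub_real (a b : ℕ) : (((Nat.sub a b : ℕ) : ℝ) = a - b ∧ (b : ℝ) ≤ a) ∨
    (((Nat.sub a b : ℕ) : ℝ) = 0 ∧ (a : ℝ) ≤ b) := by
  rcases le_total b a with h | h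
  · left
    refine ⟨?_, by exact_mod_cast h⟩
    show ((a - b : ℕ) : ℝ) = _
    rw [Nat.cast_sub h]
  · right
    refine ⟨?_, by exact_mod_cast h⟩
    show ((a - b : ℕ) : ℝ) = _
    rw [Nat.sub_eq_zero_of_le h]
    norm_num

theorem exLc_sound (h : exLc k1 l r = true) (hl : SBOK l w1 e1) (hr : SBOK r w2 e2) (hw : 0 < w1)
    (he : 0 < e1) (hR : Rel b w1 e1 w2 e2) (hG : b.re ^ 2 + b.im ^ 2 ≤ ((k1 : ℝ) / 1000) ^ 2) : False := by
  unfold exLc withT at h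
  simp only [fN_eq] at h
  have a4 := lt_of_ble h
  have e3 : ∀ x y : ℕ, ((Nat.add x y : ℕ) : ℝ) = (x : ℝ) + y := fun x y => Nat.cast_add x y
  have e4 : ∀ x y : ℕ, ((Nat.mul x y : ℕ) : ℝ) = (x : ℝ) * y := fun x y => Nat.cast_mul x y
  have b1 : ((Nat.add l.m0 r.m0 : ℕ) : ℝ) ≤ 1048576 * (MF w1 e1 + MF w2 e2) + 8388608 := by
    rw [e3]
    linarith [hl.m0, hr.m0]
  have b2 : 1048576 * (MF w1 e1 + MF w2 e2) + 8388608 ≤ ((Nat.add l.m1 r.m1 : ℕ) : ℝ) := by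
    rw [e3]
    linarith [hl.m1, hr.m1]
  have b3 : ((Nat.add l.y0 r.y0 : ℕ) : ℝ) ≤ 1048576 * (YF w1 e1 + YF w2 e2) := by
    rw [e3]
    linarith [hl.y0, hr.y0]
  have b4 : 1048576 * (YF w1 e1 + YF w2 e2) ≤ ((Nat.add l.y1 r.y1 : ℕ) : ℝ) := by
    rw [e3]
    linarith [hl.y1, hr.y1]
  have hD := hl.d0
  have hm := hR.mod hw he
  generalize Nat.add l.m0 r.m0 = m0 at *
  generalize Nat.add l.m1 r.m1 = m1 at *
  generalize Nat.add l.y0 r.y0 = y0 at *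
  generalize Nat.add l.y1 r.y1 = y1 at *
  generalize MF w1 e1 + MF w2 e2 = M at *
  generalize YF w1 e1 + YF w2 e2 = Y at *
  simp only [e3, e4, sq_cast] at a4
  push_cast at a4
  have c1 := ds_max (c := 10485760) b1 b2
  have c2 : ((Nat.sub m0 8388608 : ℕ) : ℝ) ^ 2 ≤ (1048576 * M) ^ 2 := by
    rcases sub_real m0 8388608 with ⟨h1, h2⟩ | ⟨h1, h2⟩
    · rw [h1]
      push_cast at h2 ⊢
      exact pow_le_pow_left₀ (by linarith) (by linarith) 2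
    · rw [h1, zero_pow two_ne_zero]
      positivity
  have c3 : (y0 : ℝ) ^ 2 ≤ (1048576 * Y) ^ 2 := pow_le_pow_left₀ (Nat.cast_nonneg _) b3 2
  have hY : 0 ≤ Y := by
    have : (0 : ℝ) ≤ y0 := Nat.cast_nonneg _
    linarith
  have c4 : (1048576 * Y) ^ 2 ≤ (y1 : ℝ) ^ 2 := pow_le_pow_left₀ (by positivity) b4 2
  have c5 : (l.d0 : ℝ) ^ 2 ≤ (1048576 * DF w1 e1) ^ 2 := pow_le_pow_left₀ (Nat.cast_nonneg _) hD 2
  have g5 : (b.re ^ 2 + b.im ^ 2) ^ 2 ≤ (((k1 : ℝ) / 1000) ^ 2) ^ 2 :=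
    pow_le_pow_left₀ (by positivity) hG 2
  have g6 : (((k1 : ℝ) / 1000) ^ 2) ^ 2 = ((k1 : ℝ) ^ 2) ^ 2 / 1000000000000 := by ring
  rw [g6, le_div_iff₀ (by norm_num)] at g5
  push_cast at c1
  generalize ((mx' (ds' 10485760 m0) (ds' 10485760 m1) : ℕ) : ℝ) = z at c1 a4
  generalize ((Nat.sub m0 8388608 : ℕ) : ℝ) = n at c2 a4
  generalize (l.d0 : ℝ) = d at c5 a4
  generalize (b.re ^ 2 + b.im ^ 2) ^ 2 = B at g5 hm
  have j1 : (n ^ 2 + (y0 : ℝ) ^ 2) * d ^ 2 ≤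
      ((1048576 * M) ^ 2 + (1048576 * Y) ^ 2) * (1048576 * DF w1 e1) ^ 2 :=
    mul_le_mul (by linarith) c5 (by positivity) (by positivity)
  have j2 : ((1048576 * M) ^ 2 + (1048576 * Y) ^ 2) * (1048576 * DF w1 e1) ^ 2 =
      B * (1099511627776 * ((1048576 * (2 - M)) ^ 2 + (1048576 * Y) ^ 2)) := by
    linear_combination (-1208925819614629174706176 : ℝ) * hm
  have j3 : (1048576 * (2 - M)) ^ 2 + (1048576 * Y) ^ 2 ≤ z ^ 2 + (y1 : ℝ) ^ 2 := by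
    have : (1048576 * (2 - M)) ^ 2 = (10485760 - (1048576 * M + 8388608)) ^ 2 := by ring
    rw [this]
    linarith
  have hB : B * 1000000000000 * (1099511627776 * ((1048576 * (2 - M)) ^ 2 + (1048576 * Y) ^ 2)) ≤
      ((k1 : ℝ) ^ 2) ^ 2 * (1099511627776 * (z ^ 2 + (y1 : ℝ) ^ 2)) :=
    mul_le_mul g5 (by linarith) (by positivity) (by positivity)
  linarith

theorem exUc_sound (h : exUc k0 l r = true) (hl : SBOK l w1 e1) (hr : SBOK r w2 e2) (hw : 0 < w1)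
    (he : 0 < e1) (hR : Rel b w1 e1 w2 e2) (hG : ((k0 : ℝ) / 1000) ^ 2 ≤ b.re ^ 2 + b.im ^ 2) : False := by
  unfold exUc withT at h
  simp only [fN_eq] at h
  have a4 := lt_of_ble h
  have e3 : ∀ x y : ℕ, ((Nat.add x y : ℕ) : ℝ) = (x : ℝ) + y := fun x y => Nat.cast_add x y
  have e4 : ∀ x y : ℕ, ((Nat.mul x y : ℕ) : ℝ) = (x : ℝ) * y := fun x y => Nat.cast_mul x y
  have b1 : ((Nat.add l.m0 r.m0 : ℕ) : ℝ) ≤ 1048576 * (MF w1 e1 + MF w2 e2) + 8388608 := by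
    rw [e3]
    linarith [hl.m0, hr.m0]
  have b2 : 1048576 * (MF w1 e1 + MF w2 e2) + 8388608 ≤ ((Nat.add l.m1 r.m1 : ℕ) : ℝ) := by
    rw [e3]
    linarith [hl.m1, hr.m1]
  have b3 : ((Nat.add l.y0 r.y0 : ℕ) : ℝ) ≤ 1048576 * (YF w1 e1 + YF w2 e2) := by
    rw [e3]
    linarith [hl.y0, hr.y0]
  have b4 : 1048576 * (YF w1 e1 + YF w2 e2) ≤ ((Nat.add l.y1 r.y1 : ℕ) : ℝ) := by
    rw [e3]
    linarith [hl.y1, hr.y1]
  have hD := hl.d1
  have hD0 := DF_pos hw he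
  have hm := hR.mod hw he
  generalize Nat.add l.m0 r.m0 = m0 at *
  generalize Nat.add l.m1 r.m1 = m1 at *
  generalize Nat.add l.y0 r.y0 = y0 at *
  generalize Nat.add l.y1 r.y1 = y1 at *
  generalize MF w1 e1 + MF w2 e2 = M at *
  generalize YF w1 e1 + YF w2 e2 = Y at *
  simp only [e3, e4, sq_cast] at a4
  push_cast at a4
  have c1 := ds_max (c := 8388608) b1 b2
  have c2 : ((Nat.sub m0 10485760 : ℕ) : ℝ) ^ 2 + ((Nat.sub 10485760 m1 : ℕ) : ℝ) ^ 2 ≤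
      (1048576 * (2 - M)) ^ 2 := by
    rcases sub_real m0 10485760 with ⟨h1, h2⟩ | ⟨h1, h2⟩
    · rcases sub_real 10485760 m1 with ⟨h3, h4⟩ | ⟨h3, h4⟩
      · rw [h1, h3]
        push_cast at h2 h4 ⊢
        have e5 : (m0 : ℝ) - 10485760 = 0 := by linarith
        have e6 : (10485760 : ℝ) - m1 = 0 := by linarith
        rw [e5, e6]
        have := sq_nonneg (1048576 * (2 - M))
        linarith
      · rw [h1, h3]
        push_cast at h2 ⊢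
        have : ((m0 : ℝ) - 10485760) ^ 2 ≤ (1048576 * (M - 2)) ^ 2 :=
          pow_le_pow_left₀ (by linarith) (by linarith) 2
        nlinarith
    · rw [h1]
      rcases sub_real 10485760 m1 with ⟨h3, h4⟩ | ⟨h3, h4⟩
      · rw [h3]
        push_cast at h4 ⊢
        have : ((10485760 : ℝ) - m1) ^ 2 ≤ (1048576 * (2 - M)) ^ 2 :=
          pow_le_pow_left₀ (by linarith) (by linarith) 2
        linarith
      · rw [h3]
        have := sq_nonneg (1048576 * (2 - M))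
        linarith
  have c3 : (y0 : ℝ) ^ 2 ≤ (1048576 * Y) ^ 2 := pow_le_pow_left₀ (Nat.cast_nonneg _) b3 2
  have hY : 0 ≤ Y := by
    have : (0 : ℝ) ≤ y0 := Nat.cast_nonneg _
    linarith
  have c4 : (1048576 * Y) ^ 2 ≤ (y1 : ℝ) ^ 2 := pow_le_pow_left₀ (by positivity) b4 2
  have c5 : (1048576 * DF w1 e1) ^ 2 ≤ (l.d1 : ℝ) ^ 2 := pow_le_pow_left₀ (by positivity) hD 2
  have g5 : (((k0 : ℝ) / 1000) ^ 2) ^ 2 ≤ (b.re ^ 2 + b.im ^ 2) ^ 2 :=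
    pow_le_pow_left₀ (by positivity) hG 2
  have g6 : (((k0 : ℝ) / 1000) ^ 2) ^ 2 = ((k0 : ℝ) ^ 2) ^ 2 / 1000000000000 := by ring
  rw [g6, div_le_iff₀ (by norm_num)] at g5
  push_cast at c1
  generalize ((mx' (ds' 8388608 m0) (ds' 8388608 m1) : ℕ) : ℝ) = z at c1 a4
  generalize ((Nat.sub m0 10485760 : ℕ) : ℝ) = n at c2 a4
  generalize ((Nat.sub 10485760 m1 : ℕ) : ℝ) = n' at c2 a4
  generalize (l.d1 : ℝ) = d at c5 a4
  generalize (b.re ^ 2 + b.im ^ 2) ^ 2 = B at g5 hm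
  have j0 : (1048576 * M) ^ 2 = (8388608 - (1048576 * M + 8388608)) ^ 2 := by ring
  have j1 : ((1048576 * M) ^ 2 + (1048576 * Y) ^ 2) * (1048576 * DF w1 e1) ^ 2 ≤
      (z ^ 2 + (y1 : ℝ) ^ 2) * d ^ 2 :=
    mul_le_mul (by linarith) c5 (by positivity) (by positivity)
  have j2 : ((1048576 * M) ^ 2 + (1048576 * Y) ^ 2) * (1048576 * DF w1 e1) ^ 2 =
      B * (1099511627776 * ((1048576 * (2 - M)) ^ 2 + (1048576 * Y) ^ 2)) := by
    linear_combination (-1208925819614629174706176 : ℝ) * hm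
  have hB : ((k0 : ℝ) ^ 2) ^ 2 * (1099511627776 * (n ^ 2 + n' ^ 2 + (y0 : ℝ) ^ 2)) ≤
      B * 1000000000000 * (1099511627776 * ((1048576 * (2 - M)) ^ 2 + (1048576 * Y) ^ 2)) := by
    have hB0 : 0 ≤ B * 1000000000000 := le_trans (by positivity) g5
    exact mul_le_mul g5 (by linarith) (by positivity) hB0
  linarith

theorem exAl_sound {t0 : ℕ} (h : exAl t0 l r = true) (hl : SBOK l w1 e1) (hr : SBOK r w2 e2)
    (hR : Rel b w1 e1 w2 e2) (hre : 0 < b.re) (har : (t0 : ℝ) / 1000 * b.re ≤ b.im) : False := by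
  unfold exAl at h
  obtain ⟨h1, h⟩ := cond_and h
  obtain ⟨h2, h⟩ := cond_and h
  have n1 : 4194305 ≤ l.m0 := Nat.le_of_ble_eq_true h1
  have n2 : 1 ≤ l.y0 + r.y0 := Nat.le_of_ble_eq_true h2
  have a3 := le_of_ble h
  have e4 : ∀ x y : ℕ, ((Nat.mul x y : ℕ) : ℝ) = (x : ℝ) * y := fun x y => Nat.cast_mul x y
  rw [e4, e4] at a3
  have r1 : (4194305 : ℝ) ≤ l.m0 := by exact_mod_cast n1
  have r2 : (1 : ℝ) ≤ l.y0 + r.y0 := by exact_mod_cast n2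
  have g0 := hl.m0
  have g1 := hl.m1
  have g2 := hl.y0
  have g3 := hr.y0
  have a5 : (l.m1 : ℝ) - 4194304 ≤ ((Nat.sub l.m1 4194304 : ℕ) : ℝ) := by
    rcases sub_real l.m1 4194304 with ⟨h3, h4⟩ | ⟨h3, h4⟩
    · rw [h3]
      push_cast
      linarith
    · rw [h3]
      push_cast at h4
      linarith
  generalize ((Nat.sub l.m1 4194304 : ℕ) : ℝ) = m at a3 a5
  push_cast at a3
  have hM : 0 < MF w1 e1 := by linarith
  have hYl : 0 ≤ YF w1 e1 := by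
    have : (0 : ℝ) ≤ l.y0 := Nat.cast_nonneg _
    linarith
  have ht : (0 : ℝ) ≤ t0 := Nat.cast_nonneg _
  -- `Re (b λ) ≤ 0`
  have k1 : 1000 * MF w1 e1 ≤ t0 * YF w1 e1 := by
    have : (t0 : ℝ) * l.y0 ≤ t0 * (1048576 * YF w1 e1) := mul_le_mul_of_nonneg_left g2 ht
    linarith
  have him : 0 ≤ b.im := by
    have : 0 ≤ (t0 : ℝ) / 1000 * b.re := by positivity
    linarith
  have k2 : b.re * MF w1 e1 ≤ b.im * YF w1 e1 := by
    have j1 : (t0 : ℝ) / 1000 * b.re * YF w1 e1 ≤ b.im * YF w1 e1 := mul_le_mul_of_nonneg_right har hYl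
    have j2 : b.re * (1000 * MF w1 e1) ≤ b.re * (t0 * YF w1 e1) := mul_le_mul_of_nonneg_left k1 hre.le
    linarith
  have k3 : 0 ≤ b.re * YF w1 e1 + b.im * MF w1 e1 := by positivity
  have k4 : (b * lamF w1 e1).re = b.re * MF w1 e1 - b.im * YF w1 e1 := by
    rw [mul_re]
    rfl
  have k5 : (b * lamF w1 e1).im = b.re * YF w1 e1 + b.im * MF w1 e1 := by
    rw [mul_im]
    rfl
  unfold Rel at hR
  have hre1 := congrArg Complex.re hR
  have him1 := congrArg Complex.im hR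
  generalize hG : b * lamF w1 e1 = G at *
  have eL : (lamF w1 e1 + lamF w2 e2).im = YF w1 e1 + YF w2 e2 := rfl
  have eLr : (lamF w1 e1 + lamF w2 e2).re = MF w1 e1 + MF w2 e2 := rfl
  have f1 : (G ^ 2).re = G.re ^ 2 - G.im ^ 2 := by rw [sq, mul_re]; ring
  have f2 : (G ^ 2).im = 2 * G.re * G.im := by rw [sq, mul_im]; ring
  rw [mul_re, f1, f2, sub_re, sub_im, re_ofNat, im_ofNat, zero_sub, eL, eLr] at hre1
  rw [mul_im, f1, f2, sub_re, sub_im, re_ofNat, im_ofNat, zero_sub, eL, eLr] at him1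
  have hY : 0 < YF w1 e1 + YF w2 e2 := by linarith
  generalize YF w1 e1 + YF w2 e2 = Y at *
  generalize MF w1 e1 + MF w2 e2 = M at *
  have f3 : 2 * G.re * G.im * ((2 - M) ^ 2 + Y ^ 2) = 2 * Y := by
    linear_combination Y * hre1 + (2 - M) * him1
  have f4 : 2 * G.re * G.im ≤ 0 := by
    rw [k4, k5]
    have := mul_nonneg (show 0 ≤ -(b.re * MF w1 e1 - b.im * YF w1 e1) by linarith) k3
    linarith
  have f5 : 2 * G.re * G.im * ((2 - M) ^ 2 + Y ^ 2) ≤ 0 :=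
    mul_nonpos_of_nonpos_of_nonneg f4 (by positivity)
  linarith

end Pool.Agent.S5.F
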