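import Pool.Agent.S5.I.F4

/-!
# The criterion on a cell
-/

set_option autoImplicit false

namespace Pool.Agent.S5.F

open Pool.Agent.S5.C2 Pool.Agent.S5.Num

/-- Positivity on the square. -/
def Sq22 (s1 s2 s3 p0 q0 : ℝ) : Prop :=
  ∃ c > 0, ∀ p ∈ Set.Icc (0 : ℝ) (1 / 2), ∀ q ∈ Set.Icc (0 : ℝ) (1 / 2),
    c * ((p - p0) ^ 2 + (q - q0) ^ 2) ≤ SS s1 s2 s3 p0 q0 p q

theorem Sq22.swap {s1 s2 s3 p0 q0 : ℝ} (h : Sq22 s1 s2 s3 p0 q0) : Sq22 s2 s1 s3 q0 p0 := by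
  obtain ⟨c, hc, h⟩ := h
  refine ⟨c, hc, fun p hp q hq => ?_⟩
  rw [SS_swap, add_comm]
  exact h q hq p hp

/-- Positivity near the corner. -/
def Cor (s1 s2 s3 p0 q0 h : ℝ) : Prop :=
  ∀ p q : ℝ, 0 ≤ p → 0 ≤ q → p + q < h → 0 < SS s1 s2 s3 p0 q0 p q

theorem Cor.swap {s1 s2 s3 p0 q0 h : ℝ} (hc : Cor s1 s2 s3 p0 q0 h) : Cor s2 s1 s3 q0 p0 h := by
  intro p q hp hq hpq
  rw [SS_swap]
  exact hc q p hq hp (by linarith)

/-- Positions in the open square. -/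
structure Pos (p0 q0 : ℝ) : Prop where
  hp0 : 0 < p0
  hp1 : p0 < 1 / 2
  hq0 : 0 < q0
  hq1 : q0 < 1 / 2

theorem Pos.swap {p0 q0 : ℝ} (h : Pos p0 q0) : Pos q0 p0 := ⟨h.3, h.4, h.1, h.2⟩

theorem fo_eq {p q : ℝ} (h : Pos p q) : fo (Sn p) (Sn q) = Real.sin (Real.pi * (p + q)) := by
  obtain ⟨hp, hp1, hq, hq1⟩ := h
  have h1 := Sn_add hp.le hp1.le hq.le hq1.le
  have hpi := Real.pi_pos
  have h2 : 0 ≤ Real.sin (Real.pi * (p + q)) :=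
    Real.sin_nonneg_of_nonneg_of_le_pi (by positivity) (by nlinarith)
  have h3 : 0 ≤ fo (Sn p) (Sn q) := by
    unfold fo
    positivity
  unfold Sn at h1
  exact ((sq_eq_sq₀ h2 h3).1 h1).symm

/-- The conditions for the strict convexity at the critical point and for the edges. -/
structure KC (s1 s2 p0 q0 : ℝ) : Prop where
  k1 : s1 ^ 2 * ((1 - Sn p0) * (1 - Sn q0)) < (1 + s1) ^ 2 * (Sn p0 * Sn q0)
  k2 : s2 ^ 2 * ((1 - Sn p0) * (1 - Sn q0)) < (1 + s2) ^ 2 * (Sn p0 * Sn q0)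
  c1 : s1 * (1 - Sn q0) ≤ Sn p0
  c2 : s2 * (1 - Sn p0) ≤ Sn q0

theorem KC.swap {s1 s2 p0 q0 : ℝ} (h : KC s1 s2 p0 q0) : KC s2 s1 q0 p0 := by
  obtain ⟨h1, h2, h3, h4⟩ := h
  exact ⟨by nlinarith, by nlinarith, h4, h3⟩

/-- Concavity in `f`. -/
theorem f_conc {x w s F0 F1 f : ℝ} (hx : 0 ≤ x) (h0 : F0 ≤ f) (h1 : f ≤ F1)
    (g0 : F0 ^ 2 * x < F0 * w + s) (g1 : F1 ^ 2 * x < F1 * w + s) : f ^ 2 * x < f * w + s := by
  rcases h0.eq_or_lt with h | h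
  · rw [← h]
    exact g0
  · have h2 : 0 < F1 - F0 := by linarith
    have k : f ^ 2 * x ≤ x * ((F0 + F1) * f - F0 * F1) := by
      nlinarith [mul_nonneg hx (mul_nonneg (sub_nonneg.2 h0) (sub_nonneg.2 h1))]
    have e : (F1 - F0) * (f * w + s - x * ((F0 + F1) * f - F0 * F1)) =
        (F1 - f) * (F0 * w + s - F0 ^ 2 * x) + (f - F0) * (F1 * w + s - F1 ^ 2 * x) := by ring
    have p1 : 0 ≤ (F1 - f) * (F0 * w + s - F0 ^ 2 * x) := mul_nonneg (by linarith) (by linarith)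
    have p2 : 0 < (f - F0) * (F1 * w + s - F1 ^ 2 * x) := mul_pos (by linarith) (by linarith)
    have : 0 < f * w + s - x * ((F0 + F1) * f - F0 * F1) := by
      by_contra h3
      have := mul_nonpos_of_nonneg_of_nonpos h2.le (not_lt.1 h3)
      linarith
    linarith

/-- If `π (p + q)` has a large sine, `p + q ≤ 1 - h`. -/
theorem sum_le {p q h : ℝ} (hP : Pos p q) (hh1 : h ≤ 1 / 2)
    (h1 : Sn h < Real.sin (Real.pi * (p + q)) ^ 2) : p + q ≤ 1 - h := by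
  obtain ⟨hp, hp1, hq, hq1⟩ := hP
  by_contra h2
  have h3 : Sn (p + q) = Real.sin (Real.pi * (p + q)) ^ 2 := rfl
  rw [← h3, ← Sn_one_sub (p + q)] at h1
  have := Sn_mono (t := 1 - (p + q)) (t' := h) (by linarith) (by linarith) hh1
  linarith

theorem real_C {s1 s2 s3 p0 q0 h A0 A1 B0 B1 P0 P1 Q0 Q1 R F0 F1 V0 V1 x u v : ℝ}
    (hs1 : 0 ≤ s1) (hs2 : 0 ≤ s2) (hs3 : 0 ≤ s3) (hP : Pos p0 q0) (hK : KC s1 s2 p0 q0)
    (hh : 0 ≤ h) (hh1 : h ≤ 1 / 2) (a0 : A0 ≤ Sn p0) (a1 : Sn p0 ≤ A1) (b0 : B0 ≤ Sn q0)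
    (b1 : Sn q0 ≤ B1) (p0' : P0 ≤ s1) (p1 : s1 ≤ P1) (q0' : Q0 ≤ s2) (q1 : s2 ≤ Q1) (r : R ≤ s3)
    (f0 : F0 ≤ Real.sin (Real.pi * (p0 + q0))) (f1 : Real.sin (Real.pi * (p0 + q0)) ≤ F1)
    (v0 : V0 ≤ Sn h) (v1 : Sn h ≤ V1) (hF0 : 0 ≤ F0) (hx0 : 0 ≤ x) (hx1 : x ≤ 1) (hu : 0 ≤ u) (hv : 0 ≤ v)
    (cA : P1 * (1 - x) < A0 * x) (cB : Q1 * (1 - x) < B0 * x)
    (cu : u ^ 2 ≤ (A0 * x - P1 * (1 - x)) * (1 - (B1 * x - Q0 * (1 - x))))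
    (cv : v ^ 2 ≤ (B0 * x - Q1 * (1 - x)) * (1 - (A1 * x - P0 * (1 - x))))
    (cH : x ^ 2 * F1 ^ 2 ≤ V0 + R * (1 - x ^ 2)) (cP : V1 < F0 ^ 2)
    (g0 : F0 ^ 2 * x < F0 * (u + v) + R * (1 - x)) (g1 : F1 ^ 2 * x < F1 * (u + v) + R * (1 - x))
    (hC : Cor s1 s2 s3 p0 q0 h) : Sq22 s1 s2 s3 p0 q0 := by
  have ef := fo_eq hP
  have hsum := sum_le hP hh1 (by
    have := pow_le_pow_left₀ hF0 f0 2
    linarith)
  obtain ⟨hp, hp1, hq, hq1⟩ := hP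
  set f := Real.sin (Real.pi * (p0 + q0)) with hf
  have hx1' : 0 ≤ 1 - x := by linarith
  have e1 : (Sn p0 + s1) * x - s1 = Sn p0 * x - s1 * (1 - x) := by ring
  have e2 : (Sn q0 + s2) * x - s2 = Sn q0 * x - s2 * (1 - x) := by ring
  have i1 : A0 * x - P1 * (1 - x) ≤ (Sn p0 + s1) * x - s1 := by
    rw [e1]
    have := mul_le_mul_of_nonneg_right a0 hx0
    have := mul_le_mul_of_nonneg_right p1 hx1'
    linarith
  have i2 : B0 * x - Q1 * (1 - x) ≤ (Sn q0 + s2) * x - s2 := by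
    rw [e2]
    have := mul_le_mul_of_nonneg_right b0 hx0
    have := mul_le_mul_of_nonneg_right q1 hx1'
    linarith
  have i3 : (Sn p0 + s1) * x - s1 ≤ A1 * x - P0 * (1 - x) := by
    rw [e1]
    have := mul_le_mul_of_nonneg_right a1 hx0
    have := mul_le_mul_of_nonneg_right p0' hx1'
    linarith
  have i4 : (Sn q0 + s2) * x - s2 ≤ B1 * x - Q0 * (1 - x) := by
    rw [e2]
    have := mul_le_mul_of_nonneg_right b1 hx0
    have := mul_le_mul_of_nonneg_right q0' hx1'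
    linarith
  have z1 : 0 ≤ 1 - (B1 * x - Q0 * (1 - x)) := by
    by_contra h1
    have := mul_neg_of_pos_of_neg (show 0 < A0 * x - P1 * (1 - x) by linarith) (not_le.1 h1)
    have := sq_nonneg u
    linarith
  have z2 : 0 ≤ 1 - (A1 * x - P0 * (1 - x)) := by
    by_contra h1
    have := mul_neg_of_pos_of_neg (show 0 < B0 * x - Q1 * (1 - x) by linarith) (not_le.1 h1)
    have := sq_nonneg v
    linarith
  have hf0 : 0 ≤ f := hF0.trans f0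
  have j1 : f ^ 2 ≤ F1 ^ 2 := pow_le_pow_left₀ hf0 f1 2
  have x2 : x ^ 2 ≤ 1 := pow_le_one₀ hx0 hx1
  have kH : (f ^ 2 + s3) * x ^ 2 ≤ Sn h + s3 := by
    have := mul_le_mul_of_nonneg_left j1 (sq_nonneg x)
    have := mul_le_mul_of_nonneg_right r (show 0 ≤ 1 - x ^ 2 by linarith)
    linarith
  have hfp : 0 < f ^ 2 + s3 := by
    have h2 : 0 ≤ Sn h := sq_nonneg _
    have h3 : 0 < F0 ^ 2 := by linarith
    have := pow_le_pow_left₀ hF0 f0 2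
    linarith
  have kf : f ^ 2 * x < f * (u + v) + s3 * (1 - x) := by
    have := f_conc hx0 f0 f1 g0 g1
    have := mul_le_mul_of_nonneg_right r hx1'
    linarith
  have E1 : s1 ^ 2 * (f ^ 2 + s3) < (Sn p0 + s1) ^ 2 * (Sn h + s3) := by
    have h2 : s1 < (Sn p0 + s1) * x := by linarith
    have h3 : s1 ^ 2 < ((Sn p0 + s1) * x) ^ 2 := pow_lt_pow_left₀ h2 hs1 two_ne_zero
    calc s1 ^ 2 * (f ^ 2 + s3) < ((Sn p0 + s1) * x) ^ 2 * (f ^ 2 + s3) := mul_lt_mul_of_pos_right h3 hfp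
      _ = (Sn p0 + s1) ^ 2 * ((f ^ 2 + s3) * x ^ 2) := by ring
      _ ≤ _ := mul_le_mul_of_nonneg_left kH (sq_nonneg _)
  have E2 : s2 ^ 2 * (f ^ 2 + s3) < (Sn q0 + s2) ^ 2 * (Sn h + s3) := by
    have h2 : s2 < (Sn q0 + s2) * x := by linarith
    have h3 : s2 ^ 2 < ((Sn q0 + s2) * x) ^ 2 := pow_lt_pow_left₀ h2 hs2 two_ne_zero
    calc s2 ^ 2 * (f ^ 2 + s3) < ((Sn q0 + s2) * x) ^ 2 * (f ^ 2 + s3) := mul_lt_mul_of_pos_right h3 hfp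
      _ = (Sn q0 + s2) ^ 2 * ((f ^ 2 + s3) * x ^ 2) := by ring
      _ ≤ _ := mul_le_mul_of_nonneg_left kH (sq_nonneg _)
  obtain ⟨k1, k2, c1, c2⟩ := hK
  have d1 : s1 * (1 - Sn q0) ≤ (1 + s2) * Sn p0 := by
    have := mul_nonneg hs2 (Sn_nonneg p0)
    linarith
  have d2 : s2 * (1 - Sn p0) ≤ (1 + s1) * Sn q0 := by
    have := mul_nonneg hs1 (Sn_nonneg q0)
    linarith
  have m1 : u ^ 2 ≤ ((Sn p0 + s1) * x - s1) * (1 - ((Sn q0 + s2) * x - s2)) :=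
    cu.trans (mul_le_mul i1 (by linarith) z1 (by linarith))
  have m2 : v ^ 2 ≤ ((Sn q0 + s2) * x - s2) * (1 - ((Sn p0 + s1) * x - s1)) :=
    cv.trans (mul_le_mul i2 (by linarith) z2 (by linarith))
  refine SS_crit (xe := x) (u := u) (v := v) (h := h) hs1 hs2 hs3 hp hp1 hq hq1 k1 k2 d1 d2 hh hh1 hx0
    (by linarith) (by linarith) hu hv m1 m2 ?_ ?_ ?_ ?_ hC <;> rw [ef]
  · linarith
  · exact Or.inr (Or.inr ⟨kH, hsum⟩)
  · exact Or.inl E1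
  · exact Or.inl E2

/-- One alternative on an edge. -/
theorem edge_alt {s a y f s3 vh S A Y F R V : ℝ} (hs : 0 ≤ s) (hsS : s ≤ S) (hA : 0 < A) (hAa : A ≤ a)
    (hy : 0 ≤ y) (hyY : y ≤ Y) (hf : 0 ≤ f) (hfF : f ≤ F) (hR : 0 ≤ R) (hR3 : R ≤ s3) (hV : V ≤ vh) (hV0 : 0 ≤ V)
    (hVF : V ≤ F ^ 2) (hc : (Y + S) ^ 2 * (F ^ 2 + R) < (A + S) ^ 2 * (V + R)) :
    (y + s) ^ 2 * (f ^ 2 + s3) < (a + s) ^ 2 * (vh + s3) := by
  have ha : 0 < a := hA.trans_le hAa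
  have hY : 0 ≤ Y := hy.trans hyY
  have hS : 0 ≤ S := hs.trans hsS
  rcases le_or_gt A Y with h0 | h0
  · -- the ratio is at least one on both sides
    exfalso
    have h1 : (A + S) ^ 2 ≤ (Y + S) ^ 2 := pow_le_pow_left₀ (by linarith) (by linarith) 2
    have h2 : (A + S) ^ 2 * (V + R) ≤ (Y + S) ^ 2 * (F ^ 2 + R) :=
      mul_le_mul h1 (by linarith) (by linarith) (by positivity)
    linarith
  · -- `(y + s) / (a + s) ≤ (Y + S) / (A + S)`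
    have h1 : (y + s) * (A + S) ≤ (Y + S) * (a + s) := by
      have j1 := mul_nonneg (show 0 ≤ Y + S by linarith) (sub_nonneg.2 hAa)
      have j2 := mul_nonneg (sub_nonneg.2 hyY) (show 0 ≤ A + s by linarith)
      have j3 := mul_nonneg (sub_nonneg.2 hsS) (show 0 ≤ A - y by linarith)
      linarith
    have h2 : ((y + s) * (A + S)) ^ 2 ≤ ((Y + S) * (a + s)) ^ 2 := pow_le_pow_left₀ (by positivity) h1 2
    have h3 : f ^ 2 ≤ F ^ 2 := pow_le_pow_left₀ hf hfF 2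
    have hAS : 0 < (A + S) ^ 2 := by positivity
    have has : 0 < (a + s) ^ 2 := by positivity
    have h4 : (Y + S) ^ 2 ≤ (A + S) ^ 2 := pow_le_pow_left₀ (by positivity) (by linarith) 2
    have h5 : (y + s) ^ 2 * (f ^ 2 + s3) * (A + S) ^ 2 < (a + s) ^ 2 * (vh + s3) * (A + S) ^ 2 := by
      calc (y + s) ^ 2 * (f ^ 2 + s3) * (A + S) ^ 2 = ((y + s) * (A + S)) ^ 2 * (f ^ 2 + s3) := by ring
        _ ≤ ((Y + S) * (a + s)) ^ 2 * (F ^ 2 + s3) := by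
          apply mul_le_mul h2 (by linarith) _ (by positivity)
          have := sq_nonneg f
          linarith
        _ = (a + s) ^ 2 * ((Y + S) ^ 2 * (F ^ 2 + R) + (Y + S) ^ 2 * (s3 - R)) := by ring
        _ < (a + s) ^ 2 * ((A + S) ^ 2 * (V + R) + (A + S) ^ 2 * (s3 - R)) := by
          apply mul_lt_mul_of_pos_left _ has
          have := mul_le_mul_of_nonneg_right h4 (sub_nonneg.2 hR3)
          linarith
        _ = (a + s) ^ 2 * (V + s3) * (A + S) ^ 2 := by ring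
        _ ≤ _ := by
          apply mul_le_mul_of_nonneg_right _ hAS.le
          apply mul_le_mul_of_nonneg_left _ has.le
          linarith
    exact lt_of_mul_lt_mul_right h5 hAS.le

theorem edge_alt0 {s a f s3 vh S A F R V : ℝ} (hs : 0 ≤ s) (hsS : s ≤ S) (hA : 0 < A) (hAa : A ≤ a)
    (hf : 0 ≤ f) (hfF : f ≤ F) (hR : 0 ≤ R) (hR3 : R ≤ s3) (hV : V ≤ vh) (hV0 : 0 ≤ V)
    (hVF : V ≤ F ^ 2) (hc : S ^ 2 * (F ^ 2 + R) < (A + S) ^ 2 * (V + R)) :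
    s ^ 2 * (f ^ 2 + s3) < (a + s) ^ 2 * (vh + s3) := by
  have := edge_alt (y := 0) (Y := 0) hs hsS hA hAa le_rfl le_rfl hf hfF hR hR3 hV hV0 hVF
    (by rw [zero_add]; exact hc)
  rwa [zero_add] at this

theorem real_R {s1 s2 s3 p0 q0 h A0 B0 P1 Q1 R F0 F1 V0 V1 ρ0 ρ1 u : ℝ}
    (hs1 : 0 ≤ s1) (hs2 : 0 < s2) (hs3 : 0 ≤ s3) (hP : Pos p0 q0) (hK : KC s1 s2 p0 q0)
    (hh : 0 ≤ h) (hh1 : h ≤ 1 / 2) (hA0 : 0 < A0) (a0 : A0 ≤ Sn p0) (hB0 : 0 < B0) (b0 : B0 ≤ Sn q0)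
    (p1 : s1 ≤ P1) (q1 : s2 ≤ Q1) (hR : 0 ≤ R) (r : R ≤ s3)
    (f0 : F0 ≤ Real.sin (Real.pi * (p0 + q0))) (f1 : Real.sin (Real.pi * (p0 + q0)) ≤ F1)
    (hV0 : 0 ≤ V0) (v0 : V0 ≤ Sn h) (v1 : Sn h ≤ V1) (hF0 : 0 ≤ F0) (hρ : 0 < ρ0) (r0 : ρ0 * s2 ≤ Sn q0)
    (r1 : Sn q0 ≤ ρ1 * s2) (hu : 0 ≤ u) (cA : P1 * ρ1 ≤ A0) (cu0 : u ^ 2 ≤ (A0 - P1 * ρ0) * (1 + ρ0))
    (cu1 : u ^ 2 ≤ (A0 - P1 * ρ1) * (1 + ρ1)) (cP : V1 < F0 ^ 2)
    (g0 : F0 ^ 2 < F0 * u + R * ρ0) (g1 : F1 ^ 2 < F1 * u + R * ρ0)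
    (E1 : P1 ^ 2 * (F1 ^ 2 + R) < (A0 + P1) ^ 2 * (V0 + R) ∨
      (V1 + Q1) ^ 2 * (F1 ^ 2 + R) < (B0 + Q1) ^ 2 * (V0 + R))
    (E2 : Q1 ^ 2 * (F1 ^ 2 + R) < (B0 + Q1) ^ 2 * (V0 + R) ∨
      (V1 + P1) ^ 2 * (F1 ^ 2 + R) < (A0 + P1) ^ 2 * (V0 + R))
    (hC : Cor s1 s2 s3 p0 q0 h) : Sq22 s1 s2 s3 p0 q0 := by
  have ef := fo_eq hP
  obtain ⟨hp, hp1, hq, hq1⟩ := hP
  obtain ⟨k1, k2, c1, c2⟩ := hK
  set f := Real.sin (Real.pi * (p0 + q0)) with hf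
  have hf0 : 0 ≤ f := hF0.trans f0
  have hP1 : 0 ≤ P1 := hs1.trans p1
  set ρ := Sn q0 / s2 with hρd
  have ρ0' : ρ0 ≤ ρ := by
    rw [hρd, le_div_iff₀ hs2]
    exact r0
  have ρ1' : ρ ≤ ρ1 := by
    rw [hρd, div_le_iff₀ hs2]
    exact r1
  have hρ' : 0 < ρ := hρ.trans_le ρ0'
  have eb : Sn q0 = ρ * s2 := by
    rw [hρd]
    field_simp
  have h1ρ : 0 < 1 + ρ := by linarith
  -- the root in between
  have hu2 : u ^ 2 ≤ (Sn p0 - s1 * ρ) * (1 + ρ) := by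
    have j1 : u ^ 2 ≤ (A0 - P1 * ρ) * (1 + ρ) := by
      rcases (ρ0'.trans ρ1').eq_or_lt with h1 | h1
      · have : ρ = ρ0 := by linarith
        rw [this]
        exact cu0
      · have e : (ρ1 - ρ0) * ((A0 - P1 * ρ) * (1 + ρ)) = (ρ1 - ρ) * ((A0 - P1 * ρ0) * (1 + ρ0)) +
            (ρ - ρ0) * ((A0 - P1 * ρ1) * (1 + ρ1)) + P1 * (ρ1 - ρ0) * ((ρ - ρ0) * (ρ1 - ρ)) := by ring
        have m1 := mul_le_mul_of_nonneg_left cu0 (sub_nonneg.2 ρ1')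
        have m2 := mul_le_mul_of_nonneg_left cu1 (sub_nonneg.2 ρ0')
        have m3 : 0 ≤ P1 * (ρ1 - ρ0) * ((ρ - ρ0) * (ρ1 - ρ)) :=
          mul_nonneg (mul_nonneg hP1 (by linarith)) (mul_nonneg (by linarith) (by linarith))
        have m4 : (ρ1 - ρ0) * u ^ 2 ≤ (ρ1 - ρ0) * ((A0 - P1 * ρ) * (1 + ρ)) := by
          rw [e]
          linarith
        exact le_of_mul_le_mul_left m4 (by linarith)
    have j2 : (A0 - P1 * ρ) * (1 + ρ) ≤ (Sn p0 - s1 * ρ) * (1 + ρ) := by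
      apply mul_le_mul_of_nonneg_right _ h1ρ.le
      have := mul_le_mul_of_nonneg_right p1 hρ'.le
      linarith
    linarith
  have ha : 0 ≤ Sn p0 - s1 * ρ := by
    have j1 := mul_le_mul_of_nonneg_right p1 hρ'.le
    have j2 := mul_le_mul_of_nonneg_left ρ1' hP1
    linarith
  have kf : f ^ 2 < f * u + s3 * ρ := by
    have j1 := f_conc (x := 1) (w := u) (s := R * ρ0) zero_le_one f0 f1 (by linarith) (by linarith)
    have j2 : R * ρ0 ≤ s3 * ρ := mul_le_mul r ρ0' hρ.le hs3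
    linarith
  have hx : (Sn q0 + s2) * (1 / (1 + ρ)) = s2 := by
    rw [eb]
    field_simp
    ring
  have hy : (Sn p0 + s1) * (1 / (1 + ρ)) - s1 = (Sn p0 - s1 * ρ) / (1 + ρ) := by
    field_simp
    ring
  have hVF : V0 ≤ F1 ^ 2 := by
    have := pow_le_pow_left₀ hF0 (f0.trans f1) 2
    linarith
  have hV0' : 0 ≤ Sn h := Sn_nonneg _
  have d1 : s1 * (1 - Sn q0) ≤ (1 + s2) * Sn p0 := by
    have := mul_nonneg hs2.le (Sn_nonneg p0)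
    linarith
  have d2 : s2 * (1 - Sn p0) ≤ (1 + s1) * Sn q0 := by
    have := mul_nonneg hs1 (Sn_nonneg q0)
    linarith
  refine SS_crit (xe := 1 / (1 + ρ)) (u := u / (1 + ρ)) (v := 0) (h := h) hs1 hs2.le hs3 hp hp1 hq hq1
    k1 k2 d1 d2 hh hh1 (by positivity) ?_ ?_ (by positivity) le_rfl ?_ ?_ ?_ ?_ ?_ ?_ hC
  · rw [hy]
    positivity
  · rw [hx, sub_self]
  · rw [hy, hx, sub_self, sub_zero, mul_one, div_pow, div_le_div_iff₀ (by positivity) h1ρ]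
    have := mul_le_mul_of_nonneg_right hu2 h1ρ.le
    linarith
  · rw [hx, sub_self, zero_mul]
    norm_num
  · rw [ef]
    have e1 : (f ^ 2 + s3) * (1 / (1 + ρ)) = (f ^ 2 + s3) / (1 + ρ) := by ring
    have e2 : f * (u / (1 + ρ) + 0) + s3 = (f * u + s3 * (1 + ρ)) / (1 + ρ) := by
      field_simp
      ring
    rw [e1, e2]
    apply div_lt_div_of_pos_right _ h1ρ
    linarith
  · right
    left
    rw [hx]
  · rw [ef]
    rcases E1 with h1 | h1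
    · exact Or.inl (edge_alt0 hs1 p1 hA0 a0 hf0 f1 hR r v0 hV0 hVF h1)
    · exact Or.inr (edge_alt hs2.le q1 hB0 b0 hV0' v1 hf0 f1 hR r v0 hV0 hVF h1)
  · rw [ef]
    rcases E2 with h1 | h1
    · exact Or.inl (edge_alt0 hs2.le q1 hB0 b0 hf0 f1 hR r v0 hV0 hVF h1)
    · exact Or.inr (edge_alt hs1 p1 hA0 a0 hV0' v1 hf0 f1 hR r v0 hV0 hVF h1)

end Pool.Agent.S5.F
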