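import Pool.Agent.S5.I.F8
import Pool.Agent.S5.I.F7

/-!
# The criterion on a cell: programs
-/

set_option autoImplicit false

namespace Pool.Agent.S5.F

open Pool.Agent.S5.C2 Pool.Agent.S5.Num

/-- The positions and the density at the critical point. -/
def kcN (d : Dt) : Bool :=
  fN (fun s => cond (Nat.ble 1 d.a0) (cond (Nat.ble 1 d.b0)
    (cond (Nat.ble (Nat.succ (Nat.mul (sq' s) (Nat.mul (Nat.sub 1048576 d.a0) (Nat.sub 1048576 d.b0))))
        (Nat.mul (sq' (Nat.add 1048576 s)) (Nat.mul d.a0 d.b0)))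
      (cond (Nat.ble (Nat.mul d.s1h (Nat.sub 1048576 d.b0)) (Nat.mul 1048576 d.a0))
        (Nat.ble (Nat.mul d.s2h (Nat.sub 1048576 d.a0)) (Nat.mul 1048576 d.b0)) false) false) false) false)
    (mx' d.s1h d.s2h)

/-- The criterion with a root `x / 4096` in between. -/
def tC (d : Dt) (vl vu x u v : ℕ) : Bool :=
  cond (Nat.ble x 4096) (fN (fun y =>
    cond (Nat.ble (Nat.succ (Nat.mul d.s1h y)) (Nat.mul d.a0 x))
    (cond (Nat.ble (Nat.succ (Nat.mul d.s2h y)) (Nat.mul d.b0 x))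
    (cond (Nat.ble (Nat.mul d.b1 x) (Nat.add 4294967296 (Nat.mul d.s2l y)))
    (cond (Nat.ble (Nat.mul d.a1 x) (Nat.add 4294967296 (Nat.mul d.s1l y)))
    (cond (Nat.ble (Nat.mul (sq' u) 17592186044416)
      (Nat.mul (Nat.sub (Nat.mul d.a0 x) (Nat.mul d.s1h y))
        (Nat.sub (Nat.add 4294967296 (Nat.mul d.s2l y)) (Nat.mul d.b1 x))))
    (cond (Nat.ble (Nat.mul (sq' v) 17592186044416)
      (Nat.mul (Nat.sub (Nat.mul d.b0 x) (Nat.mul d.s2h y))
        (Nat.sub (Nat.add 4294967296 (Nat.mul d.s1l y)) (Nat.mul d.a1 x))))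
    (cond (Nat.ble (Nat.mul (sq' x) (sq' d.f1)) (Nat.add (Nat.mul vl 17592186044416)
      (Nat.mul (Nat.mul d.s3l 1048576) (Nat.sub 16777216 (sq' x)))))
    (cond (Nat.ble (Nat.succ (Nat.mul 1048576 vu)) (sq' d.f0))
    (cond (Nat.ble (Nat.succ (Nat.mul (sq' d.f0) x)) (Nat.add (Nat.mul (Nat.mul d.f0 (Nat.add u v)) 4194304)
      (Nat.mul (Nat.mul d.s3l y) 1048576)))
    (Nat.ble (Nat.succ (Nat.mul (sq' d.f1) x)) (Nat.add (Nat.mul (Nat.mul d.f1 (Nat.add u v)) 4194304)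
      (Nat.mul (Nat.mul d.s3l y) 1048576)))
    false) false) false) false) false) false) false) false) false) (Nat.sub 4096 x)) false

/-- An edge, first alternative. -/
def tE (s a f1 s3 vl : ℕ) : Bool :=
  Nat.ble (Nat.succ (Nat.mul (sq' s) (Nat.add (sq' f1) (Nat.mul s3 1048576))))
    (Nat.mul (sq' (Nat.add a s)) (Nat.mul 1048576 (Nat.add vl s3)))

/-- An edge, second alternative. -/
def tF (vu s a f1 s3 vl : ℕ) : Bool :=
  Nat.ble (Nat.succ (Nat.mul (sq' (Nat.add vu s)) (Nat.add (sq' f1) (Nat.mul s3 1048576))))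
    (Nat.mul (sq' (Nat.add a s)) (Nat.mul 1048576 (Nat.add vl s3)))

/-- The criterion with the zero of the second factor. -/
def tR (a0 s1h b0 b1 s2l s2h f0 f1 s3l vl vu u : ℕ) : Bool :=
  cond (Nat.ble 1 s2l) (cond (Nat.ble s2l s2h) (cond (Nat.ble (Nat.mul s1h b1) (Nat.mul a0 s2l))
    (cond (Nat.ble (Nat.mul s1h b0) (Nat.mul a0 s2h))
    (cond (Nat.ble (Nat.mul (sq' u) (sq' s2h))
      (Nat.mul (Nat.sub (Nat.mul a0 s2h) (Nat.mul s1h b0)) (Nat.add s2h b0)))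
    (cond (Nat.ble (Nat.mul (sq' u) (sq' s2l))
      (Nat.mul (Nat.sub (Nat.mul a0 s2l) (Nat.mul s1h b1)) (Nat.add s2l b1)))
    (cond (Nat.ble (Nat.succ (Nat.mul 1048576 vu)) (sq' f0))
    (cond (Nat.ble (Nat.succ (Nat.mul (sq' f0) s2h)) (Nat.add (Nat.mul (Nat.mul f0 u) (Nat.mul 1024 s2h))
      (Nat.mul s3l (Nat.mul 1048576 b0))))
    (cond (Nat.ble (Nat.succ (Nat.mul (sq' f1) s2h)) (Nat.add (Nat.mul (Nat.mul f1 u) (Nat.mul 1024 s2h))
      (Nat.mul s3l (Nat.mul 1048576 b0))))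
    (cond (cond (tE s1h a0 f1 s3l vl) true (tF vu s2h b0 f1 s3l vl))
      (cond (tE s2h b0 f1 s3l vl) true (tF vu s1h a0 f1 s3l vl)) false)
    false) false) false) false) false) false) false) false) false

theorem kcN_sound {d : Dt} {p h q g : ℝ} (hd : DtOK d p h q g) (h1 : kcN d = true) :
    KC (Real.sinh (Real.pi * h) ^ 2) (Real.sinh (Real.pi * g) ^ 2) p q := by
  suffices key : ((Real.sinh (Real.pi * h) ^ 2) ^ 2 * ((1 - Sn p) * (1 - Sn q)) <
      (1 + Real.sinh (Real.pi * h) ^ 2) ^ 2 * (Sn p * Sn q)) ∧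
      ((Real.sinh (Real.pi * g) ^ 2) ^ 2 * ((1 - Sn p) * (1 - Sn q)) <
      (1 + Real.sinh (Real.pi * g) ^ 2) ^ 2 * (Sn p * Sn q)) ∧
      (Real.sinh (Real.pi * h) ^ 2 * (1 - Sn q) ≤ Sn p) ∧
      (Real.sinh (Real.pi * g) ^ 2 * (1 - Sn p) ≤ Sn q) from ⟨key.1, key.2.1, key.2.2.1, key.2.2.2⟩
  unfold kcN at h1
  rw [fN_eq] at h1
  obtain ⟨g1, h1⟩ := cond_and h1
  obtain ⟨g2, h1⟩ := cond_and h1
  obtain ⟨g3, h1⟩ := cond_and h1
  obtain ⟨g4, h1⟩ := cond_and h1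
  have a1 := le_of_ble g1
  have a2 := le_of_ble g2
  have a3 := lt_of_ble g3
  have a4 := le_of_ble g4
  have a5 := le_of_ble h1
  have e3 : ∀ x y : ℕ, ((Nat.add x y : ℕ) : ℝ) = (x : ℝ) + y := fun x y => Nat.cast_add x y
  have e4 : ∀ x y : ℕ, ((Nat.mul x y : ℕ) : ℝ) = (x : ℝ) * y := fun x y => Nat.cast_mul x y
  have hA1 := Sn_le_one p
  have hB1 := Sn_le_one q
  have n1 : d.a0 ≤ 1048576 := by
    have : (d.a0 : ℝ) ≤ 1048576 := by linarith [hd.a0]
    exact_mod_cast this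
  have n2 : d.b0 ≤ 1048576 := by
    have : (d.b0 : ℝ) ≤ 1048576 := by linarith [hd.b0]
    exact_mod_cast this
  have u1 : ((Nat.sub 1048576 d.a0 : ℕ) : ℝ) = 1048576 - d.a0 := by
    show ((1048576 - d.a0 : ℕ) : ℝ) = _
    rw [Nat.cast_sub n1]
    push_cast
    ring
  have u2 : ((Nat.sub 1048576 d.b0 : ℕ) : ℝ) = 1048576 - d.b0 := by
    show ((1048576 - d.b0 : ℕ) : ℝ) = _
    rw [Nat.cast_sub n2]
    push_cast
    ring
  simp only [e3, e4, sq_cast, u1, u2] at a3 a4 a5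
  obtain ⟨m1, m2⟩ := mx_ge d.s1h d.s2h
  have m1' : (d.s1h : ℝ) ≤ (mx' d.s1h d.s2h : ℕ) := by exact_mod_cast m1
  have m2' : (d.s2h : ℝ) ≤ (mx' d.s1h d.s2h : ℕ) := by exact_mod_cast m2
  have b1 := hd.a0
  have b2 := hd.b0
  have b3 := hd.s1h
  have b4 := hd.s2h
  have c3 := sq_nonneg (Real.sinh (Real.pi * h))
  have c4 := sq_nonneg (Real.sinh (Real.pi * g))
  generalize Real.sinh (Real.pi * h) ^ 2 = s1 at *
  generalize Real.sinh (Real.pi * g) ^ 2 = s2 at *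
  generalize ((mx' d.s1h d.s2h : ℕ) : ℝ) = m at *
  generalize (d.a0 : ℝ) = a at *
  generalize (d.b0 : ℝ) = b at *
  generalize (d.s1h : ℝ) = S1 at *
  generalize (d.s2h : ℝ) = S2 at *
  generalize Sn p = A at *
  generalize Sn q = B at *
  push_cast at a1 a2 a3 a4 a5
  clear g1 g2 g3 g4 h1 hd u1 u2 e3 e4 n1 n2 m1 m2
  have main : ∀ s : ℝ, 0 ≤ s → 1048576 * s ≤ m → s ^ 2 * ((1 - A) * (1 - B)) < (1 + s) ^ 2 * (A * B) := by
    intro s hs hm
    have hm0 : 0 ≤ m := by linarith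
    have f1 : (1048576 * (1 - A)) * (1048576 * (1 - B)) ≤ (1048576 - a) * (1048576 - b) :=
      mul_le_mul (by linarith) (by linarith) (by linarith) (by linarith)
    have f2 : a * b ≤ (1048576 * A) * (1048576 * B) := mul_le_mul b1 b2 (by linarith) (by linarith)
    have f3 : (1048576 * s) * (1048576 + m) ≤ m * (1048576 * (1 + s)) := by nlinarith
    have f4 : ((1048576 * s) * (1048576 + m)) ^ 2 ≤ (m * (1048576 * (1 + s))) ^ 2 :=
      pow_le_pow_left₀ (by positivity) f3 2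
    have f5 : 0 ≤ (1 - A) * (1 - B) := mul_nonneg (by linarith) (by linarith)
    have f6 : 0 < (1048576 + m) ^ 2 := by positivity
    have f7 : m ^ 2 * ((1048576 * (1 - A)) * (1048576 * (1 - B))) <
        (1048576 + m) ^ 2 * ((1048576 * A) * (1048576 * B)) := by
      have j1 := mul_le_mul_of_nonneg_left f1 (sq_nonneg m)
      have j2 := mul_le_mul_of_nonneg_left f2 f6.le
      linarith
    have f8 : (s ^ 2 * ((1 - A) * (1 - B))) * (1048576 + m) ^ 2 <
        ((1 + s) ^ 2 * (A * B)) * (1048576 + m) ^ 2 := by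
      have j1 : (s * (1048576 + m)) ^ 2 * ((1 - A) * (1 - B)) ≤ (m * (1 + s)) ^ 2 * ((1 - A) * (1 - B)) := by
        apply mul_le_mul_of_nonneg_right _ f5
        nlinarith
      have j2 : m ^ 2 * ((1 - A) * (1 - B)) < (1048576 + m) ^ 2 * (A * B) := by linarith
      have j3 := mul_lt_mul_of_pos_right j2 (show 0 < (1 + s) ^ 2 by positivity)
      nlinarith
    exact lt_of_mul_lt_mul_right f8 f6.le
  refine ⟨main s1 c3 (by linarith), main s2 c4 (by linarith), ?_, ?_⟩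
  · have j1 : (1048576 * s1) * (1048576 * (1 - B)) ≤ S1 * (1048576 - b) :=
      mul_le_mul b3 (by linarith) (by linarith) (by linarith)
    linarith
  · have j1 : (1048576 * s2) * (1048576 * (1 - A)) ≤ S2 * (1048576 - a) :=
      mul_le_mul b4 (by linarith) (by linarith) (by linarith)
    linarith

theorem nsub {a b : ℕ} (h : b ≤ a) : ((Nat.sub a b : ℕ) : ℝ) = (a : ℝ) - b := by
  show ((a - b : ℕ) : ℝ) = _
  exact Nat.cast_sub h

theorem tC_sound {d : Dt} {p h q g H : ℝ} {vl vu x u v : ℕ} (hd : DtOK d p h q g) (hP : Pos p q)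
    (hK : KC (Real.sinh (Real.pi * h) ^ 2) (Real.sinh (Real.pi * g) ^ 2) p q)
    (hH : 0 ≤ H) (hH1 : H ≤ 1 / 2) (v0 : (vl : ℝ) ≤ 1048576 * Sn H) (v1 : 1048576 * Sn H ≤ vu)
    (h1 : tC d vl vu x u v = true)
    (hC : Cor (Real.sinh (Real.pi * h) ^ 2) (Real.sinh (Real.pi * g) ^ 2)
      (Real.sinh (Real.pi * (h + g)) ^ 2) p q H) :
    Sq22 (Real.sinh (Real.pi * h) ^ 2) (Real.sinh (Real.pi * g) ^ 2)
      (Real.sinh (Real.pi * (h + g)) ^ 2) p q := by
  unfold tC at h1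
  rw [fN_eq] at h1
  obtain ⟨g1, h1⟩ := cond_and h1
  have n1 : x ≤ 4096 := Nat.le_of_ble_eq_true g1
  have ey := nsub n1
  generalize hy : Nat.sub 4096 x = y at h1 ey
  obtain ⟨g2, h1⟩ := cond_and h1
  obtain ⟨g3, h1⟩ := cond_and h1
  obtain ⟨g4, h1⟩ := cond_and h1
  obtain ⟨g5, h1⟩ := cond_and h1
  obtain ⟨g6, h1⟩ := cond_and h1
  obtain ⟨g7, h1⟩ := cond_and h1
  obtain ⟨g8, h1⟩ := cond_and h1
  obtain ⟨g9, h1⟩ := cond_and h1
  obtain ⟨g10, h1⟩ := cond_and h1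
  have s1 := nsub (a := Nat.mul d.a0 x) (b := Nat.mul d.s1h y) (Nat.le_of_succ_le (Nat.le_of_ble_eq_true g2))
  have s2 := nsub (a := Nat.mul d.b0 x) (b := Nat.mul d.s2h y) (Nat.le_of_succ_le (Nat.le_of_ble_eq_true g3))
  have s3 := nsub (a := Nat.add 4294967296 (Nat.mul d.s2l y)) (b := Nat.mul d.b1 x) (Nat.le_of_ble_eq_true g4)
  have s4 := nsub (a := Nat.add 4294967296 (Nat.mul d.s1l y)) (b := Nat.mul d.a1 x) (Nat.le_of_ble_eq_true g5)
  have n2 : sq' x ≤ 16777216 := by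
    rw [sq'_eq]
    nlinarith
  have s5 := nsub (a := 16777216) (b := sq' x) n2
  have a2 := lt_of_ble g2
  have a3 := lt_of_ble g3
  have a4 := le_of_ble g4
  have a5 := le_of_ble g5
  have a6 := le_of_ble g6
  have a7 := le_of_ble g7
  have a8 := le_of_ble g8
  have a9 := lt_of_ble g9
  have a10 := lt_of_ble g10
  have a11 := lt_of_ble h1
  have e3 : ∀ x y : ℕ, ((Nat.add x y : ℕ) : ℝ) = (x : ℝ) + y := fun x y => Nat.cast_add x y
  have e4 : ∀ x y : ℕ, ((Nat.mul x y : ℕ) : ℝ) = (x : ℝ) * y := fun x y => Nat.cast_mul x y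
  clear g1 g2 g3 g4 g5 g6 g7 g8 g9 g10 h1 hy n2
  simp only [e3, e4, sq_cast, s1, s2, s3, s4, s5] at a2 a3 a4 a5 a6 a7 a8 a9 a10 a11
  simp only [ey] at a2 a3 a4 a5 a6 a7 a8 a9 a10 a11
  clear s1 s2 s3 s4 s5 e3 e4
  obtain ⟨b1, b2, b3, b4, b5, b6, b7, b8, b9, b10, b11, b12⟩ := hd
  have hx : (x : ℝ) ≤ 4096 := by exact_mod_cast n1
  have nx : (0 : ℝ) ≤ x := Nat.cast_nonneg _
  have nu : (0 : ℝ) ≤ u := Nat.cast_nonneg _
  have nv : (0 : ℝ) ≤ v := Nat.cast_nonneg _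
  have nf : (0 : ℝ) ≤ d.f0 := Nat.cast_nonneg _
  push_cast at a2 a3 a4 a5 a6 a7 a8 a9 a10 a11
  generalize (x : ℝ) = X at *
  generalize (u : ℝ) = U at *
  generalize (v : ℝ) = V at *
  generalize (vl : ℝ) = VL at *
  generalize (vu : ℝ) = VU at *
  generalize (d.a0 : ℝ) = A0 at *
  generalize (d.a1 : ℝ) = A1 at *
  generalize (d.b0 : ℝ) = B0 at *
  generalize (d.b1 : ℝ) = B1 at *
  generalize (d.s1l : ℝ) = P0 at *
  generalize (d.s1h : ℝ) = P1 at *
  generalize (d.s2l : ℝ) = Q0 at *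
  generalize (d.s2h : ℝ) = Q1 at *
  generalize (d.s3l : ℝ) = R at *
  generalize (d.f0 : ℝ) = F0 at *
  generalize (d.f1 : ℝ) = F1 at *
  refine real_C (A0 := A0 / 1048576) (A1 := A1 / 1048576) (B0 := B0 / 1048576) (B1 := B1 / 1048576)
    (P0 := P0 / 1048576) (P1 := P1 / 1048576) (Q0 := Q0 / 1048576) (Q1 := Q1 / 1048576)
    (R := R / 1048576) (F0 := F0 / 1048576) (F1 := F1 / 1048576) (V0 := VL / 1048576) (V1 := VU / 1048576)
    (x := X / 4096) (u := U / 1024) (v := V / 1024) (h := H)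
    (sq_nonneg _) (sq_nonneg _) (sq_nonneg _) hP hK hH hH1 (by linarith) (by linarith) (by linarith)
    (by linarith) (by linarith) (by linarith) (by linarith) (by linarith) (by linarith) (by linarith)
    (by linarith) (by linarith) (by linarith) (by positivity) (by positivity) (by linarith) (by positivity)
    (by positivity) ?_ ?_ ?_ ?_ ?_ ?_ ?_ ?_ hC
  · have e1 : P1 / 1048576 * (1 - X / 4096) = P1 * (4096 - X) / 4294967296 := by ring
    have e2 : A0 / 1048576 * (X / 4096) = A0 * X / 4294967296 := by ring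
    rw [e1, e2]
    exact div_lt_div_of_pos_right a2 (by norm_num)
  · have e1 : Q1 / 1048576 * (1 - X / 4096) = Q1 * (4096 - X) / 4294967296 := by ring
    have e2 : B0 / 1048576 * (X / 4096) = B0 * X / 4294967296 := by ring
    rw [e1, e2]
    exact div_lt_div_of_pos_right a3 (by norm_num)
  · have e1 : (U / 1024) ^ 2 = U ^ 2 * 17592186044416 / 18446744073709551616 := by ring
    have e2 : (A0 / 1048576 * (X / 4096) - P1 / 1048576 * (1 - X / 4096)) *
        (1 - (B1 / 1048576 * (X / 4096) - Q0 / 1048576 * (1 - X / 4096))) =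
        (A0 * X - P1 * (4096 - X)) * (4294967296 + Q0 * (4096 - X) - B1 * X) / 18446744073709551616 := by ring
    rw [e1, e2]
    exact div_le_div_of_nonneg_right a6 (by norm_num)
  · have e1 : (V / 1024) ^ 2 = V ^ 2 * 17592186044416 / 18446744073709551616 := by ring
    have e2 : (B0 / 1048576 * (X / 4096) - Q1 / 1048576 * (1 - X / 4096)) *
        (1 - (A1 / 1048576 * (X / 4096) - P0 / 1048576 * (1 - X / 4096))) =
        (B0 * X - Q1 * (4096 - X)) * (4294967296 + P0 * (4096 - X) - A1 * X) / 18446744073709551616 := by ring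
    rw [e1, e2]
    exact div_le_div_of_nonneg_right a7 (by norm_num)
  · have e1 : (X / 4096) ^ 2 * (F1 / 1048576) ^ 2 = X ^ 2 * F1 ^ 2 / 18446744073709551616 := by ring
    have e2 : VL / 1048576 + R / 1048576 * (1 - (X / 4096) ^ 2) =
        (VL * 17592186044416 + R * 1048576 * (16777216 - X ^ 2)) / 18446744073709551616 := by ring
    rw [e1, e2]
    exact div_le_div_of_nonneg_right a8 (by norm_num)
  · have e1 : VU / 1048576 = 1048576 * VU / 1099511627776 := by ring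
    have e2 : (F0 / 1048576) ^ 2 = F0 ^ 2 / 1099511627776 := by ring
    rw [e1, e2]
    exact div_lt_div_of_pos_right a9 (by norm_num)
  · have e1 : (F0 / 1048576) ^ 2 * (X / 4096) = F0 ^ 2 * X / 4503599627370496 := by ring
    have e2 : F0 / 1048576 * (U / 1024 + V / 1024) + R / 1048576 * (1 - X / 4096) =
        (F0 * (U + V) * 4194304 + R * (4096 - X) * 1048576) / 4503599627370496 := by ring
    rw [e1, e2]
    exact div_lt_div_of_pos_right a10 (by norm_num)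
  · have e1 : (F1 / 1048576) ^ 2 * (X / 4096) = F1 ^ 2 * X / 4503599627370496 := by ring
    have e2 : F1 / 1048576 * (U / 1024 + V / 1024) + R / 1048576 * (1 - X / 4096) =
        (F1 * (U + V) * 4194304 + R * (4096 - X) * 1048576) / 4503599627370496 := by ring
    rw [e1, e2]
    exact div_lt_div_of_pos_right a11 (by norm_num)

theorem tE_real {s a f1 s3 vl : ℕ} (h : tE s a f1 s3 vl = true) :
    ((s : ℝ) / 1048576) ^ 2 * (((f1 : ℝ) / 1048576) ^ 2 + (s3 : ℝ) / 1048576) <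
      ((a : ℝ) / 1048576 + (s : ℝ) / 1048576) ^ 2 * ((vl : ℝ) / 1048576 + (s3 : ℝ) / 1048576) := by
  unfold tE at h
  have a1 := lt_of_ble h
  have e3 : ∀ x y : ℕ, ((Nat.add x y : ℕ) : ℝ) = (x : ℝ) + y := fun x y => Nat.cast_add x y
  have e4 : ∀ x y : ℕ, ((Nat.mul x y : ℕ) : ℝ) = (x : ℝ) * y := fun x y => Nat.cast_mul x y
  simp only [e3, e4, sq_cast] at a1
  push_cast at a1
  have e1 : ((s : ℝ) / 1048576) ^ 2 * (((f1 : ℝ) / 1048576) ^ 2 + (s3 : ℝ) / 1048576) =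
      (s : ℝ) ^ 2 * ((f1 : ℝ) ^ 2 + s3 * 1048576) / 1048576 ^ 4 := by ring
  have e2 : ((a : ℝ) / 1048576 + (s : ℝ) / 1048576) ^ 2 * ((vl : ℝ) / 1048576 + (s3 : ℝ) / 1048576) =
      ((a : ℝ) + s) ^ 2 * (1048576 * ((vl : ℝ) + s3)) / 1048576 ^ 4 := by ring
  rw [e1, e2]
  exact div_lt_div_of_pos_right a1 (by norm_num)

theorem tF_real {vu s a f1 s3 vl : ℕ} (h : tF vu s a f1 s3 vl = true) :
    ((vu : ℝ) / 1048576 + (s : ℝ) / 1048576) ^ 2 * (((f1 : ℝ) / 1048576) ^ 2 + (s3 : ℝ) / 1048576) <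
      ((a : ℝ) / 1048576 + (s : ℝ) / 1048576) ^ 2 * ((vl : ℝ) / 1048576 + (s3 : ℝ) / 1048576) := by
  unfold tF at h
  have a1 := lt_of_ble h
  have e3 : ∀ x y : ℕ, ((Nat.add x y : ℕ) : ℝ) = (x : ℝ) + y := fun x y => Nat.cast_add x y
  have e4 : ∀ x y : ℕ, ((Nat.mul x y : ℕ) : ℝ) = (x : ℝ) * y := fun x y => Nat.cast_mul x y
  simp only [e3, e4, sq_cast] at a1
  push_cast at a1
  have e1 : ((vu : ℝ) / 1048576 + (s : ℝ) / 1048576) ^ 2 * (((f1 : ℝ) / 1048576) ^ 2 + (s3 : ℝ) / 1048576) =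
      ((vu : ℝ) + s) ^ 2 * ((f1 : ℝ) ^ 2 + s3 * 1048576) / 1048576 ^ 4 := by ring
  have e2 : ((a : ℝ) / 1048576 + (s : ℝ) / 1048576) ^ 2 * ((vl : ℝ) / 1048576 + (s3 : ℝ) / 1048576) =
      ((a : ℝ) + s) ^ 2 * (1048576 * ((vl : ℝ) + s3)) / 1048576 ^ 4 := by ring
  rw [e1, e2]
  exact div_lt_div_of_pos_right a1 (by norm_num)

theorem cond_or {b x : Bool} (h : cond b true x = true) : b = true ∨ x = true := by
  cases b
  · exact Or.inr h
  · exact Or.inl rfl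

theorem tR_sound {p q H s1 s2 s3 : ℝ} {a0 s1h b0 b1 s2l s2h f0 f1 s3l vl vu u : ℕ} (hs1 : 0 ≤ s1)
    (hs3 : 0 ≤ s3) (hP : Pos p q) (hK : KC s1 s2 p q)
    (hH : 0 ≤ H) (hH1 : H ≤ 1 / 2) (v0 : (vl : ℝ) ≤ 1048576 * Sn H) (v1 : 1048576 * Sn H ≤ vu)
    (c1 : (a0 : ℝ) ≤ 1048576 * Sn p) (c2 : 1048576 * s1 ≤ s1h) (c3 : (b0 : ℝ) ≤ 1048576 * Sn q)
    (c4 : 1048576 * Sn q ≤ b1) (c5 : (s2l : ℝ) ≤ 1048576 * s2) (c6 : 1048576 * s2 ≤ s2h)
    (c7 : (f0 : ℝ) ≤ 1048576 * Real.sin (Real.pi * (p + q)))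
    (c8 : 1048576 * Real.sin (Real.pi * (p + q)) ≤ f1) (c9 : (s3l : ℝ) ≤ 1048576 * s3)
    (na : 0 < a0) (nb : 0 < b0)
    (h1 : tR a0 s1h b0 b1 s2l s2h f0 f1 s3l vl vu u = true) (hC : Cor s1 s2 s3 p q H) :
    Sq22 s1 s2 s3 p q := by
  unfold tR at h1
  obtain ⟨g1, h1⟩ := cond_and h1
  obtain ⟨g2, h1⟩ := cond_and h1
  obtain ⟨g3, h1⟩ := cond_and h1
  obtain ⟨g4, h1⟩ := cond_and h1
  obtain ⟨g5, h1⟩ := cond_and h1
  obtain ⟨g6, h1⟩ := cond_and h1
  obtain ⟨g7, h1⟩ := cond_and h1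
  obtain ⟨g8, h1⟩ := cond_and h1
  obtain ⟨g9, h1⟩ := cond_and h1
  obtain ⟨g10, g11⟩ := cond_and h1
  have E1 := (cond_or g10).imp tE_real tF_real
  have E2 := (cond_or g11).imp tE_real tF_real
  have s4 := nsub (a := Nat.mul a0 s2h) (b := Nat.mul s1h b0) (Nat.le_of_ble_eq_true g4)
  have s5 := nsub (a := Nat.mul a0 s2l) (b := Nat.mul s1h b1) (Nat.le_of_ble_eq_true g3)
  have a1 := le_of_ble g1
  have a2 := le_of_ble g2
  have a3 := le_of_ble g3
  have a5 := le_of_ble g5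
  have a6 := le_of_ble g6
  have a7 := lt_of_ble g7
  have a8 := lt_of_ble g8
  have a9 := lt_of_ble g9
  have e3 : ∀ x y : ℕ, ((Nat.add x y : ℕ) : ℝ) = (x : ℝ) + y := fun x y => Nat.cast_add x y
  have e4 : ∀ x y : ℕ, ((Nat.mul x y : ℕ) : ℝ) = (x : ℝ) * y := fun x y => Nat.cast_mul x y
  clear g1 g2 g3 g4 g5 g6 g7 g8 g9 g10 g11 h1
  simp only [e3, e4, sq_cast, s4, s5] at a1 a2 a3 a5 a6 a7 a8 a9
  clear s4 s5 e3 e4
  have na' : (0 : ℝ) < a0 := by exact_mod_cast na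
  have nb' : (0 : ℝ) < b0 := by exact_mod_cast nb
  have nu : (0 : ℝ) ≤ u := Nat.cast_nonneg _
  have nf : (0 : ℝ) ≤ f0 := Nat.cast_nonneg _
  have nR : (0 : ℝ) ≤ s3l := Nat.cast_nonneg _
  have nv : (0 : ℝ) ≤ vl := Nat.cast_nonneg _
  push_cast at a1 a2 a3 a5 a6 a7 a8 a9
  generalize (u : ℝ) = U at *
  generalize (vl : ℝ) = VL at *
  generalize (vu : ℝ) = VU at *
  generalize (a0 : ℝ) = A0 at *
  generalize (b0 : ℝ) = B0 at *
  generalize (b1 : ℝ) = B1 at *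
  generalize (s1h : ℝ) = P1 at *
  generalize (s2l : ℝ) = Q0 at *
  generalize (s2h : ℝ) = Q1 at *
  generalize (s3l : ℝ) = R at *
  generalize (f0 : ℝ) = F0 at *
  generalize (f1 : ℝ) = F1 at *
  have q0 : 0 < Q0 := by linarith
  have q1 : 0 < Q1 := by linarith
  refine real_R (A0 := A0 / 1048576) (B0 := B0 / 1048576) (P1 := P1 / 1048576) (Q1 := Q1 / 1048576)
    (R := R / 1048576) (F0 := F0 / 1048576) (F1 := F1 / 1048576) (V0 := VL / 1048576) (V1 := VU / 1048576)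
    (ρ0 := B0 / Q1) (ρ1 := B1 / Q0) (u := U / 1024) (h := H)
    hs1 (by linarith) hs3 hP hK hH hH1 (by positivity) (by linarith) (by positivity) (by linarith)
    (by linarith) (by linarith) (by positivity) (by linarith) (by linarith) (by linarith) (by positivity)
    (by linarith) (by linarith) (by positivity) (by positivity) ?_ ?_ (by positivity) ?_ ?_ ?_ ?_ ?_ ?_
    E1 E2 hC
  · rw [div_mul_eq_mul_div, div_le_iff₀ q1]
    have := mul_le_mul_of_nonneg_left c6 nb'.le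
    have := mul_le_mul_of_nonneg_right c3 q1.le
    linarith
  · rw [div_mul_eq_mul_div, le_div_iff₀ q0]
    have nB1 : 0 ≤ B1 := by
      have := Sn_nonneg q
      linarith
    have := mul_le_mul_of_nonneg_left c5 nB1
    have := mul_le_mul_of_nonneg_right c4 q0.le
    linarith
  · have e1 : P1 / 1048576 * (B1 / Q0) = (P1 * B1) / (1048576 * Q0) := by field_simp
    have e2 : A0 / 1048576 = (A0 * Q0) / (1048576 * Q0) := by field_simp
    rw [e1, e2]
    exact div_le_div_of_nonneg_right a3 (by positivity)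
  · have e1 : (U / 1024) ^ 2 = U ^ 2 * Q1 ^ 2 / (1048576 * Q1 ^ 2) := by
      field_simp
      norm_num
    have e2 : (A0 / 1048576 - P1 / 1048576 * (B0 / Q1)) * (1 + B0 / Q1) =
        (A0 * Q1 - P1 * B0) * (Q1 + B0) / (1048576 * Q1 ^ 2) := by
      field_simp
    rw [e1, e2]
    exact div_le_div_of_nonneg_right a5 (by positivity)
  · have e1 : (U / 1024) ^ 2 = U ^ 2 * Q0 ^ 2 / (1048576 * Q0 ^ 2) := by
      field_simp
      norm_num
    have e2 : (A0 / 1048576 - P1 / 1048576 * (B1 / Q0)) * (1 + B1 / Q0) =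
        (A0 * Q0 - P1 * B1) * (Q0 + B1) / (1048576 * Q0 ^ 2) := by
      field_simp
    rw [e1, e2]
    exact div_le_div_of_nonneg_right a6 (by positivity)
  · have e1 : VU / 1048576 = 1048576 * VU / 1099511627776 := by ring
    have e2 : (F0 / 1048576) ^ 2 = F0 ^ 2 / 1099511627776 := by ring
    rw [e1, e2]
    exact div_lt_div_of_pos_right a7 (by norm_num)
  · have e1 : (F0 / 1048576) ^ 2 = F0 ^ 2 * Q1 / (1099511627776 * Q1) := by
      field_simp
      norm_num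
    have e2 : F0 / 1048576 * (U / 1024) + R / 1048576 * (B0 / Q1) =
        (F0 * U * (1024 * Q1) + R * (1048576 * B0)) / (1099511627776 * Q1) := by
      field_simp
      ring
    rw [e1, e2]
    exact div_lt_div_of_pos_right a8 (by positivity)
  · have e1 : (F1 / 1048576) ^ 2 = F1 ^ 2 * Q1 / (1099511627776 * Q1) := by
      field_simp
      norm_num
    have e2 : F1 / 1048576 * (U / 1024) + R / 1048576 * (B0 / Q1) =
        (F1 * U * (1024 * Q1) + R * (1048576 * B0)) / (1099511627776 * Q1) := by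
      field_simp
      ring
    rw [e1, e2]
    exact div_lt_div_of_pos_right a9 (by positivity)

end Pool.Agent.S5.F
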