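import Pool.Agent.S5.I.F18
import Pool.Agent.S5.I.F16
import Pool.Agent.S5.Fld.YB9

/-!
# Flats of closed nodes: the check of a pair of neighbours
-/

set_option autoImplicit false

namespace Pool.Agent.S5.F

open Pool.Agent.S5.C2 Pool.Agent.S5.Num Pool.Agent.S5.K Complex
open Pool.Agent.S5.E (Vt types adm Tfin)

/-- The numbers of a pair, evaluated. -/
def wPr (pr : Pr) (k : Pr → Bool) : Bool :=
  fN (fun a => fN (fun b => fN (fun c => fN (fun d => fN (fun e => fN (fun f => fN (fun g =>
    fN (fun h => fN (fun i => fN (fun j => fN (fun l => k ⟨a, b, c, d, e, f, g, h, i, j, l⟩)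
      pr.a) pr.e) pr.nk1) pr.nk0) pr.rt1) pr.rk1) pr.rk0) pr.lt1) pr.lt0) pr.lk1) pr.lk0

theorem wPr_eq (pr : Pr) (k : Pr → Bool) : wPr pr k = k pr := by
  unfold wPr
  simp only [fN_eq]

/-- The numbers of a cell, evaluated. -/
def wCl (c : Cl) (k : Cl → Bool) : Bool :=
  fN (fun a1 => fN (fun a2 => fN (fun a3 => fN (fun a4 => fN (fun a5 => fN (fun a6 => fN (fun a7 =>
    fN (fun a8 => k ⟨a1, a2, a3, a4, a5, a6, a7, a8⟩) c.d') c.d) c.c') c.c) c.b') c.b) c.a') c.a

theorem wCl_eq (c : Cl) (k : Cl → Bool) : wCl c k = k c := by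
  unfold wCl
  simp only [fN_eq]

/-- An end with three half twists. -/
def is3 (I : Vt) : Bool := Nat.beq I.a 3 && (!I.s && I.o == none)

/-- The check of a pair; `z1` is the certificate of the square, `z2` the certificate of the strips. -/
def chP (JA IA JB IB : Vt) (z1 z2 : ℕ) : Bool :=
  wPr (prOf Tfin JA IA JB IB) (fun pr => wCl (clOf d9 JA IA JB IB) (fun c =>
    cond (clOK c) (cond (certN pr 60 c z1) (certS pr (is3 IA) (is3 IB) 60 c z2) false) false))

/-- There are certificates for the pair. -/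
structure C92 (JA IA JB IB : Vt) : Prop where
  ok : clOK (clOf d9 JA IA JB IB) = true
  sq : ∃ z, certN (prOf Tfin JA IA JB IB) 60 (clOf d9 JA IA JB IB) z = true
  st : ∃ z, certS (prOf Tfin JA IA JB IB) (is3 IA) (is3 IB) 60 (clOf d9 JA IA JB IB) z = true

theorem chP_C92 {JA IA JB IB : Vt} {z1 z2 : ℕ} (h : chP JA IA JB IB z1 z2 = true) : C92 JA IA JB IB := by
  unfold chP at h
  rw [wPr_eq, wCl_eq] at h
  obtain ⟨h1, h⟩ := cond_and h
  obtain ⟨h2, h3⟩ := cond_and h
  exact ⟨h1, ⟨_, h2⟩, ⟨_, h3⟩⟩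

/-- The entry of a table. -/
def gt' (L : List (List ℕ)) (i j : ℕ) : ℕ := (L.getD i []).getD j 0

/-- The first type is on the left. -/
def dr (I I' : Vt) : Bool :=
  Nat.beq I.ix 2 || (!(Nat.beq I'.ix 2) && Nat.ble I.ix I'.ix)

theorem dr_total (I I' : Vt) : dr I I' = true ∨ dr I' I = true := by
  unfold dr
  rcases h1 : Nat.beq I.ix 2 with _ | _
  · rcases h2 : Nat.beq I'.ix 2 with _ | _
    · rcases le_total I.ix I'.ix with h | h
      · left
        simp [Nat.ble_eq_true_of_le h]
      · right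
        simp [Nat.ble_eq_true_of_le h]
    · right
      simp
  · left
    simp

/-- The check of a row, two `A` edges. -/
def rwA (I : Vt) (r1 r2 : List ℕ) : Bool :=
  (types false).all fun I' => cond I'.ok (cond (dr I I')
    (fN (fun j => chP ⟨2, false, some false⟩ I ⟨2, false, some false⟩ I' (r1.getD j 0) (r2.getD j 0)) I'.ix)
    true) true

/-- The check of a row, an `A` edge on the left and an `S` edge on the right. -/
def rwS (I : Vt) (r1 r2 : List ℕ) : Bool :=
  (types true).all fun I' => cond I'.ok (cond (adm ⟨2, false, some true⟩ I I')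
    (cond (Nat.beq I'.ix 5) true
      (fN (fun j => chP ⟨2, false, some true⟩ I ⟨2, true, some false⟩ I' (r1.getD j 0) (r2.getD j 0)) I'.ix))
    true) true

theorem rwA_sound {I : Vt} {r1 r2 : List ℕ} (h : rwA I r1 r2 = true) {I' : Vt} (hs : I'.s = false)
    (hk : I'.ok = true) (hd : dr I I' = true) :
    C92 ⟨2, false, some false⟩ I ⟨2, false, some false⟩ I' := by
  unfold rwA at h
  rw [List.all_eq_true] at h
  have h1 := E.mem_types hk
  rw [hs] at h1
  have h2 := h I' h1
  rw [hk, cond_true, hd, cond_true, fN_eq] at h2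
  exact chP_C92 h2

theorem rwS_sound {I : Vt} {r1 r2 : List ℕ} (h : rwS I r1 r2 = true) {I' : Vt} (hs : I'.s = true)
    (hk : I'.ok = true) (hd : adm ⟨2, false, some true⟩ I I' = true) (h5 : I'.ix ≠ 5) :
    C92 ⟨2, false, some true⟩ I ⟨2, true, some false⟩ I' := by
  unfold rwS at h
  rw [List.all_eq_true] at h
  have h1 := E.mem_types hk
  rw [hs] at h1
  have h2 := h I' h1
  have h6 : Nat.beq I'.ix 5 = false := by
    rw [Bool.eq_false_iff]
    intro h7
    exact h5 (Nat.eq_of_beq_eq_true h7)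
  rw [hk, cond_true, hd, cond_true, h6, cond_false, fN_eq] at h2
  exact chP_C92 h2

end Pool.Agent.S5.F
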