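import Pool.Agent.S5.I.NumDef

/-!
# Fixed point evaluation of the logarithm and of the arctangent: the programs
-/

set_option autoImplicit false

namespace Pool.Agent.S5.Num

/-- The Horner scheme of `Σ ρ^k / (2 k + 1)`. -/
def hA (r2 n : Nat) : Nat → Nat :=
  Nat.rec (fun a => a) (fun k ih a => ih (Nat.add
    (Nat.div 281474976710656 (Nat.succ (Nat.mul 2 k)))
    (Nat.div (Nat.mul r2 a) 281474976710656))) n

/-- The Horner scheme of `Σ (-ρ)^k / (2 k + 1)`. -/
def hC (r2 n : Nat) : Nat → Nat :=
  Nat.rec (fun a => a) (fun k ih a => ih (Nat.sub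
    (Nat.div 281474976710656 (Nat.succ (Nat.mul 2 k)))
    (Nat.div (Nat.mul r2 a) 281474976710656))) n

/-- The area hyperbolic tangent of `r / U`, `r ≤ U / 2`. -/
def aT (r : Nat) : Nat :=
  Nat.div (Nat.mul r (hA (Nat.div (Nat.mul r r) 281474976710656) 25 0)) 281474976710656

/-- The arctangent of `r / U`, `r ≤ U / 2`. -/
def aC (r : Nat) : Nat :=
  Nat.div (Nat.mul r (hC (Nat.div (Nat.mul r r) 281474976710656) 25 0)) 281474976710656

/-- The arctangent of `p / q`. -/
def atq (p q : Nat) : Nat :=
  cond (Nat.ble (Nat.mul 2 p) q) (fN aC (Nat.div (Nat.mul p 281474976710656) q))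
    (cond (Nat.ble (Nat.mul 2 q) p)
      (Nat.sub 442139859501777 (fN aC (Nat.div (Nat.mul q 281474976710656) p)))
      (cond (Nat.ble q p)
        (Nat.add 221069929750889 (fN aC (Nat.div (Nat.mul (Nat.sub p q) 281474976710656)
          (Nat.add p q))))
        (Nat.sub 221069929750889 (fN aC (Nat.div (Nat.mul (Nat.sub q p) 281474976710656)
          (Nat.add p q))))))

/-- `log v / 2`, for `v < 2 ^ 120`. -/
def lnh (v : Nat) : Nat :=
  fN (fun l => fN (fun m => Nat.add
      (fN aT (Nat.div (Nat.mul (Nat.sub m 281474976710656) 281474976710656)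
        (Nat.add m 281474976710656)))
      (Nat.div (Nat.mul l 195103586505167) 2))
    (Nat.div (Nat.mul v (Nat.pow 2 (Nat.sub 120 l))) 4722366482869645213696)) (Nat.log2 v)

theorem hA_zero (r2 a : Nat) : hA r2 0 a = a := rfl

theorem hA_succ (r2 k a : Nat) : hA r2 (k + 1) a = hA r2 k (Nat.add
    (Nat.div 281474976710656 (Nat.succ (Nat.mul 2 k)))
    (Nat.div (Nat.mul r2 a) 281474976710656)) := by
  unfold hA
  with_reducible rfl

theorem hC_zero (r2 a : Nat) : hC r2 0 a = a := rfl

theorem hC_succ (r2 k a : Nat) : hC r2 (k + 1) a = hC r2 k (Nat.sub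
    (Nat.div 281474976710656 (Nat.succ (Nat.mul 2 k)))
    (Nat.div (Nat.mul r2 a) 281474976710656)) := by
  unfold hC
  with_reducible rfl

/-! ### The point evaluation of the logarithmic derivative -/

/-- The value of `Lg` and `48 log 2`. -/
def lgp (S D a b : Nat) : Nat :=
  Nat.add (Nat.add 4503599627370496 (Nat.div (Nat.mul 884279719003555 S) D))
    (fN lnh (Nat.add (Nat.mul a a) (Nat.mul b b)))

/-- The part of `th` to be subtracted. -/
def thn (X D a b : Nat) : Nat := Nat.add (Nat.div (Nat.mul 884279719003555 X) D) (atq b a)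

/-- The error of `Lg`, `th`. -/
def eLv (M : Nat) : Nat :=
  Nat.add 70 (Nat.div 144115188075855872 (Nat.sub M 512))

/-- The error of the cotangent. -/
def eCv (M : Nat) : Nat :=
  Nat.add 8 (Nat.div 254956226970902638376024432181248 (Nat.mul (Nat.sub M 512) (Nat.sub M 512)))

/-- The basic step. -/
def bsK (X S D : Nat) (k : Nat → Nat → Nat → Nat → Nat → Bool) : Bool :=
  cond (Nat.ble 1 D) (cond (Nat.ble (Nat.mul 2 X) D) (cond (Nat.ble (Nat.mul 2 S) D)
    (wst X S D (fun c d => fN (fun a => fN (fun b => fN (fun M =>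
      cond (Nat.ble 2048 M) (cond (Nat.ble 1 a) (k c d a b M) false) false)
        (mx' a b)) (Nat.sub d 4503599627370496)) (Nat.sub 4785074604081152 c)))
    false) false) false

/-- The values of `Lg`, `th`, their error, the values of `Re`, `-Im` of the derivative, their
error. -/
def ltv (X S D a b M : Nat) (k : Nat → Nat → Nat → Nat → Nat → Nat → Bool) : Bool :=
  fN (fun p => cond (Nat.ble 9364972152248016 p)
    (fN (fun n => cond (Nat.ble n 4945739486872273)
      (fN (fun v => fN (fun cr => fN (fun ci => fN (fun eL => fN (fun eC => fN (fun l => fN (fun t =>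
          k l t eL cr ci eC) (Nat.sub 4945739486872273 n))
        (Nat.sub p 9364972152248016)) (eCv M)) (eLv M))
        (Nat.add 3619319908366941 (Nat.div (Nat.mul 497805226624462151055740764160 a) v)))
        (Nat.add 4503599627370496 (Nat.div (Nat.mul 497805226624462151055740764160 b) v)))
        (Nat.add (Nat.mul a a) (Nat.mul b b)))
      false) (thn X D a b))
    false) (lgp S D a b)

/-- The point evaluation without `Rf`. -/
def ltK (X S D : Nat) (k : Nat → Nat → Nat → Nat → Nat → Nat → Bool) : Bool :=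
  bsK X S D (fun _ _ a b M => ltv X S D a b M k)

/-- The point evaluation. -/
def ptK (N X S D : Nat) (k : Nat → Nat → Nat → Nat → Nat → Nat → Nat → Nat → Bool) : Bool :=
  cond (Nat.ble N 1000) (bsK X S D (fun c d a b M => ser c d (fun _ a' b' s =>
      fN (fun n => fN (fun p => fN (fun e => cond (Nat.ble n p)
        (fN (fun r => ltv X S D a b M (k r e)) (Nat.sub p n)) false)
            (rfe N c d a' b')) (rfp N X S D)) (rfn S D s)) N 1 c d 0)) false

end Pool.Agent.S5.Num
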