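import Pool.Agent.S5.I.RwD
import Pool.Agent.S5.I.NumLd

/-!
# Flats of an end with `a = 4`: the program

Close to the critical point the flats are controlled by a quadratic form, far from it by the branch and
bound. The rectangle of `(Re y, Re v)` is cut into tiles by a tree.
-/

set_option autoImplicit false

namespace Pool.Agent.S5.Tb

/-- A lower bound of the real part of `π cot (π (i / 200 + j / 200 I))`, in units of `2 ^ (-20)`. -/
def kl (i j : Nat) (k : Nat → Bool) : Bool :=
  cond (Nat.ble i 0) (k 0) (Num.bsK i j 200 (fun _ _ a b M => fN k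
    (Nat.div (Nat.sub (Nat.div (Nat.mul 497805226624462151055740764160 b)
      (Nat.add (Nat.mul a a) (Nat.mul b b))) (Num.eCv M)) 268435456)))

/-- The minimum of the values at two points. -/
def kmn (i i' j : Nat) (k : Nat → Bool) : Bool :=
  kl i j (fun a => kl i' j (fun b => fN k (mn a b)))

/-- The form at the edge: units `2 ^ (-20)`. -/
def qA (r : Rd) (ta tb : Nat) (k : Nat → Bool) : Bool :=
  fN (fun lo => fN (fun hi => cond (Nat.ble 1 lo) (cond (Nat.ble hi 100) (kmn lo hi r.ja k) false)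
      false)
    (Nat.div (Nat.add (mx (Nat.sub 115200 ta) (Nat.sub 12800 r.T0)) 127) 128))
    (Nat.div (mn (Nat.sub 115200 tb) (Nat.sub 12800 r.T1)) 128)

/-- The form at the difference, left of the critical point. -/
def qL (r : Rd) (b0 : Nat) (k : Nat → Bool) : Bool :=
  cond (Nat.ble 128 r.M0) (cond (Nat.ble r.M1 12800)
    (kmn (Nat.div r.M0 128) (Nat.div (Nat.add r.M1 127) 128) r.jb (fun m =>
      cond (Nat.ble 102400 b0)
        (fN k (Nat.div (Nat.mul m (Nat.add (Nat.mul 2 r.M1) (Nat.sub b0 102400)))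
          (Nat.mul 3 r.M1)))
        (cond (Nat.ble (Nat.sub 102400 b0) (Nat.mul 2 r.M0))
          (fN k (Nat.div (Nat.mul m (Nat.sub (Nat.mul 2 r.M0) (Nat.sub 102400 b0)))
            (Nat.mul 3 r.M0))) false))) false) false

/-- The form at the difference. -/
def qB (r : Rd) (b0 b1 : Nat) (k : Nat → Bool) : Bool :=
  qL r b0 (fun l => cond (Nat.ble b1 (Nat.add r.M0 102400)) (k l)
    (fN (fun i => cond (Nat.ble i 100) (kmn (Nat.div r.M0 128) i r.jb (fun q => fN k (mn l q)))
        false)
      (Nat.div (Nat.add (mx r.M1 (Nat.sub b1 102400)) 127) 128)))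

/-- The form at the sum (negative). -/
def qC (r : Rd) (c0 c1 : Nat) (k : Nat → Bool) : Bool :=
  cond (Nat.ble 204801 c0)
    (fN (fun d => fN (fun e => fN (fun E =>
      fN (fun κ => cond (Nat.ble 1 κ)
        (fN k (Nat.div (Nat.add (Nat.mul (Nat.mul κ (Nat.add (Nat.mul 2 d) e)) 1048576) 7679999)
          7680000)) false)
        (cond (Nat.ble E 3072) 1037 (cond (Nat.ble E 4096) 1080 (cond (Nat.ble E 5120) 1143 0))))
      (mx d e)) (Nat.sub c1 217600)) (Nat.sub r.P1 12800)) false

/-- The square of the distance of `[a, b]` and `[c, d]`. -/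
def dsq (a b c d : Nat) : Nat :=
  fN (fun s => Nat.mul s s) (Nat.add (Nat.sub a d) (Nat.sub c b))

/-- The square of the maximal distance. -/
def dsm (a b c d : Nat) : Nat := fN (fun s => Nat.mul s s) (mx (Nat.sub b c) (Nat.sub d a))

/-- **A tile, close to the critical point.** -/
def qt (r : Rd) (ta tb xa xb : Nat) : Bool :=
  qA r ta tb (fun A => fN (fun b0 => fN (fun b1 => qB r b0 b1 (fun B =>
    fN (fun c0 => fN (fun c1 => qC r c0 c1 (fun C =>
      cond (cond (Nat.ble (Nat.succ C) B)
          (Nat.ble (Nat.succ (Nat.mul C (Nat.add A (Nat.mul 2 B)))) (Nat.mul A B)) false) true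
        (Nat.ble (Nat.succ (Nat.mul C (dsm c0 c1 (Nat.add r.P0 204800) (Nat.add r.P1 204800))))
          (Nat.add (Nat.mul (Nat.mul 2 A) (dsq ta tb (Nat.add r.T0 102400) (Nat.add r.T1 102400)))
            (Nat.mul B (dsq b0 b1 (Nat.add r.M0 102400) (Nat.add r.M1 102400))))))) (Nat.add tb xb))
      (Nat.add ta xa))) (Nat.sub (Nat.add tb 102400) xa)) (Nat.sub (Nat.add ta 102400) xb))

/-- The branch and bound with the slope `l`. -/
def eF (g : Gd) (l : ℤ) (ta tb xa xb : Nat) : Bool :=
  cl 2 (g.vF - l * g.a + g.k * g.b) (200 * l) (-(200 * g.k)) ta tb g.e0 g.e1 xa xb g.n0 g.n1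

/-- **A tile, far from the critical point.** -/
def et (g : Gd) (ta tb xa xb : Nat) : Bool :=
  cond (Nat.ble tb g.tp) (eF g g.l1 ta tb xa xb)
    (cond (Nat.ble g.tp ta) (eF g g.l0 ta tb xa xb)
      (cond (eF g g.l1 ta g.tp xa xb) (eF g g.l0 g.tp tb xa xb) false))

/-- The tree of the tiles. -/
def tr (r : Rd) (g : Gd) (n : Nat) : Nat → Nat → Nat → Nat → Nat → (Nat → Bool) → Bool :=
  Nat.rec (fun _ _ _ _ _ _ => false)
    (fun _ ih ta tb xa xb c k => fN (fun d => fN (fun c =>
      cond (Nat.ble d 1)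
        (cond (cond (Nat.ble d 0) (qt r ta tb xa xb) (et g ta tb xa xb)) (k c) false)
        (cond (Nat.ble d 2)
          (fN (fun m => ih ta m xa xb c (fun c => ih m tb xa xb c k)) (Nat.div (Nat.add ta tb) 2))
          (fN (fun m => ih ta tb xa m c (fun c => ih ta tb m xb c k)) (Nat.div (Nat.add xa xb) 2))))
      (Nat.div c 4)) (Nat.mod c 4)) n

/-- The certificate of a class. -/
def flt (r : Rd) (g : Gd) (c : Nat) : Bool := tr r g 20 106240 115200 94720 110080 c (fun _ => true)

end Pool.Agent.S5.Tb
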