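import Pool.Agent.S5.I.RwS

/-!
# Rows of an end with `a = 4`: the rows
-/

set_option autoImplicit false

namespace Pool.Agent.S5.Tb

open Pool.Agent.H63.VC3 Pool.Agent.S3 Complex MeasureTheory Filter Topology Set

variable {g : Gd} {ys vs : ℂ}

theorem plf_real {w : ℝ} {y : ℂ} (hy : y.im = 0) : plf w ys vs y = pla w ys vs y := by
  have e : ((y.re : ℝ) : ℂ) = y := by
    apply Complex.ext
    · rw [ofReal_re]
    · rw [ofReal_im, hy]
  unfold plf
  rw [e, hy, abs_zero]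
  ring

theorem rE1_ok (hE : TabOK) (hG : GOK g) {w : ℕ} {h l : ℤ} {ta tb : ℕ}
    (hc : rE1 w g h l ta tb = true) (hP : P4 w g ys vs) {y v : ℂ} (hy : y.im = 0)
    (ht : Ps ta tb y.re)
    (hl : 200 * (l : ℝ) * y.re - l * g.a ≤ (ly w ys vs).re * (y.re - g.a / 200) * 1048576)
    (hv : LimV vs.im (3 / 10) v) : (Vw w y v - pla w ys vs y) * 1048576 < h := by
  unfold rE1 at hc
  rw [← plf_real hy]
  refine box_bd hP hl (x := 0) ?_ (vf_ok hE hc hP.n hG.n0 hG.n1 ht ?_ hv)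
  · rw [hy, abs_zero, Int.cast_zero]
    linarith
  · rw [hy]
    constructor <;> norm_num

theorem rE_ok (hE : TabOK) (hG : GOK g) {w : ℕ} {h : ℤ} {ta : ℕ}
    (hc : rE w g h ta = true) (hP : P4 w g ys vs) {y v : ℂ} (hy : y.im = 0)
    (ht : (ta : ℝ) ≤ y.re * 25600 + 102400) (h2 : y.re ≤ 1 / 2)
    (hv : LimV vs.im (3 / 10) v) : (Vw w y v - pla w ys vs y) * 1048576 < h := by
  unfold rE at hc
  have htp := hG.tp
  have k2 : ((115200 : ℕ) : ℝ) = 115200 := Nat.cast_ofNat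
  rcases hb : Nat.ble g.tp ta with _ | _
  · rw [hb, cond_false] at hc
    obtain ⟨c1, c2⟩ := cond_and hc
    rcases le_total y.re ((g.a : ℝ) / 200) with h3 | h3
    · refine rE1_ok hE hG c1 hP hy ⟨ht, ?_⟩ (hP.left h3) hv
      rw [htp]; linarith
    · refine rE1_ok hE hG c2 hP hy ⟨?_, ?_⟩ (hP.right h3) hv
      · rw [htp]; linarith
      · rw [k2]; linarith
  · rw [hb, cond_true] at hc
    have h4 : g.tp ≤ ta := Nat.le_of_ble_eq_true hb
    have h5 : (g.tp : ℝ) ≤ ta := by exact_mod_cast h4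
    rw [htp] at h5
    refine rE1_ok hE hG hc hP hy ⟨ht, ?_⟩ (hP.right ?_) hv
    · rw [k2]; linarith
    · linarith

/-- The plane on a piece. -/
noncomputable def plp (pc : Pc) (w : ℝ) (ys vs y : ℂ) : ℝ :=
  if pc.box = true then plf w ys vs y else pla w ys vs y

theorem box_cond (hE : TabOK) (hG : GOK g) {w : ℕ} (hw : w = 1 ∨ w = 2 ∨ w = 3) {c : Bool} {h : ℤ}
    (hc : cond (bX c w g h g.l1 102400 g.tp 106240 98560)
      (bX c w g h g.l0 g.tp 115200 106240 98560) false = true)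
    (hP : P4 w g ys vs) {y v : ℂ} (h0 : 0 ≤ y.re) (h1 : y.re ≤ 1 / 2) (hd : |y.im| = 3 / 20)
    (hy : if c = true then 0 ≤ y.im * ys.im else y.im * ys.im ≤ 0)
    (hv : LimV vs.im (3 / 10) v) :
    (Vw w y v - plf w ys vs y) * 1048576 < h := by
  obtain ⟨c1, c2⟩ := cond_and hc
  have htp := hG.tp
  have k0 : ((102400 : ℕ) : ℝ) = 102400 := Nat.cast_ofNat
  have k1 : ((106240 : ℕ) : ℝ) = 106240 := Nat.cast_ofNat
  have k2 : ((115200 : ℕ) : ℝ) = 115200 := Nat.cast_ofNat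
  have k3 : ((98560 : ℕ) : ℝ) = 98560 := Nat.cast_ofNat
  have s1 : 0 ≤ y.im → Ps 106240 106240 y.im := by
    intro h
    rw [abs_of_nonneg h] at hd
    rw [hd]
    constructor <;> norm_num
  have s2 : y.im ≤ 0 → Ps 98560 98560 y.im := by
    intro h
    rw [abs_of_nonpos h] at hd
    have : y.im = -(3 / 20) := by linarith
    rw [this]
    constructor <;> norm_num
  rcases le_total y.re ((g.a : ℝ) / 200) with h3 | h3
  · refine bX_ok hE hG hw c1 hP ⟨?_, ?_⟩ (hP.left h3) hy s1 s2 hv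
    · rw [k0]; linarith
    · rw [htp]; linarith
  · refine bX_ok hE hG hw c2 hP ⟨?_, ?_⟩ (hP.right h3) hy s1 s2 hv
    · rw [htp]; linarith
    · rw [k2]; linarith

/-- **The certificates.** -/
theorem rw4_ok (hE : TabOK) (hG : GOK g) {w : ℕ} (hw : w = 1 ∨ w = 2 ∨ w = 3) {h : ℤ} {pc : Pc}
    (hc : rw4 w g h pc = true) (hP : P4 w g ys vs) {y v : ℂ} {wt : ℝ}
    (hy : pc.In (3 / 20) ys.im y wt) (hv : LimV vs.im (3 / 10) v)
    (hF : pc = .F → v.im = 0 ∧ 3 / 10 ≤ |v.re| ∧ |v.re| ≤ 1 / 2) :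
    (Vw w y v - plp pc w ys vs y) * 1048576 < h := by
  have ga0 : (40 : ℝ) ≤ g.a := by exact_mod_cast hG.a0
  have ga1 : (g.a : ℝ) ≤ 90 := by exact_mod_cast hG.a1
  have i0 : ((102400 : ℕ) : ℝ) = 102400 := Nat.cast_ofNat
  have i1 : ((106240 : ℕ) : ℝ) = 106240 := Nat.cast_ofNat
  have i2 : ((115200 : ℕ) : ℝ) = 115200 := Nat.cast_ofNat
  have i3 : ((98560 : ℕ) : ℝ) = 98560 := Nat.cast_ofNat
  have i4 : ((96000 : ℕ) : ℝ) = 96000 := Nat.cast_ofNat
  have i5 : ((108800 : ℕ) : ℝ) = 108800 := Nat.cast_ofNat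
  have i6 : ((111360 : ℕ) : ℝ) = 111360 := Nat.cast_ofNat
  have pm : ∀ {x : ℝ}, x = -(1 / 4) → Ps 96000 96000 x := by
    intro x h
    rw [h]
    constructor <;> norm_num
  have pp : ∀ {x : ℝ}, x = 1 / 2 → Ps 115200 115200 x := by
    intro x h
    rw [h]
    constructor <;> norm_num
  have s1 : ∀ {x : ℝ}, |x| = 3 / 20 → 0 ≤ x → Ps 106240 106240 x := by
    intro x hd h
    rw [abs_of_nonneg h] at hd
    rw [hd]
    constructor <;> norm_num
  have s2 : ∀ {x : ℝ}, |x| = 3 / 20 → x ≤ 0 → Ps 98560 98560 x := by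
    intro x hd h
    rw [abs_of_nonpos h] at hd
    have : x = -(3 / 20) := by linarith
    rw [this]
    constructor <;> norm_num
  have s3 : ∀ {x : ℝ}, |x| ≤ 3 / 20 → 0 ≤ x → Ps 102400 106240 x := by
    intro x hd h
    have := abs_le.1 hd
    refine ⟨?_, ?_⟩
    · rw [i0]; linarith
    · rw [i1]; linarith
  have s4 : ∀ {x : ℝ}, |x| ≤ 3 / 20 → x ≤ 0 → Ps 98560 102400 x := by
    intro x hd h
    have := abs_le.1 hd
    refine ⟨?_, ?_⟩
    · rw [i3]; linarith
    · rw [i0]; linarith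
  have u1 : ∀ {x : ℝ}, -(1 / 4) ≤ x → x ≤ 0 → Ps 96000 102400 x := by
    intro x h h'
    refine ⟨?_, ?_⟩
    · rw [i4]; linarith
    · rw [i0]; linarith
  cases pc with
  | F =>
    obtain ⟨-, h1, h2, h3⟩ := hy
    obtain ⟨v1, v2, v3⟩ := hF rfl
    exact rF_ok hE hG hc hP h1 h2 h3 v1 v2 v3
  | H =>
    obtain ⟨-, h1, h2, h3⟩ := hy
    refine rG_ok hE hG hc hP h1 ⟨?_, ?_⟩ h3 hv
    · rw [i0]; linarith
    · rw [i1]; linarith
  | G =>
    obtain ⟨-, h1, h2, h3⟩ := hy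
    exact rG_ok hE hG hc hP h1 (u1 h2 h3) (by linarith) hv
  | L =>
    obtain ⟨-, h1, h2⟩ := hy
    exact rL_ok hE hG hc hP (pm h1) (hP.left (by linarith)) h2 hv
  | R =>
    obtain ⟨-, h1, h2⟩ := hy
    exact rL_ok hE hG hc hP (pp h1) (hP.right (by linarith)) h2 hv
  | T =>
    obtain ⟨-, h1, h2, h3, h4⟩ := hy
    exact box_cond hE hG hw hc hP h3 h4 h1 (by rw [if_pos rfl]; exact h2) hv
  | t =>
    obtain ⟨-, h1, h2, h3, h4⟩ := hy
    exact box_cond hE hG hw hc hP h3 h4 h1 (by rw [if_neg (by decide)]; exact h2) hv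
  | U =>
    obtain ⟨-, h1, h2, h3, h4⟩ := hy
    exact bX_ok hE hG hw hc hP (u1 h3 h4) (hP.left (by linarith)) (by rw [if_pos rfl]; exact h2)
      (s1 h1) (s2 h1) hv
  | u =>
    obtain ⟨-, h1, h2, h3, h4⟩ := hy
    exact bX_ok hE hG hw hc hP (u1 h3 h4) (hP.left (by linarith))
      (by rw [if_neg (by decide)]; exact h2) (s1 h1) (s2 h1) hv
  | P =>
    obtain ⟨-, h1, h2, h3⟩ := hy
    exact bX_ok hE hG hw hc hP (pm h1) (hP.left (by linarith)) (by rw [if_pos rfl]; exact h3)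
      (s3 h2) (s4 h2) hv
  | p =>
    obtain ⟨-, h1, h2, h3⟩ := hy
    exact bX_ok hE hG hw hc hP (pm h1) (hP.left (by linarith))
      (by rw [if_neg (by decide)]; exact h3) (s3 h2) (s4 h2) hv
  | Q =>
    obtain ⟨-, h1, h2, h3⟩ := hy
    exact bX_ok hE hG hw hc hP (pp h1) (hP.right (by linarith)) (by rw [if_pos rfl]; exact h3)
      (s3 h2) (s4 h2) hv
  | q =>
    obtain ⟨-, h1, h2, h3⟩ := hy
    exact bX_ok hE hG hw hc hP (pp h1) (hP.right (by linarith))
      (by rw [if_neg (by decide)]; exact h3) (s3 h2) (s4 h2) hv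
  | lo => exact absurd hc (by simp [rw4])
  | re f =>
    obtain ⟨-, h1, h2, h3⟩ := hy
    cases f with
    | own => exact absurd hc (by simp [rw4])
    | both => exact absurd hc (by simp [rw4])
    | far =>
      refine rE_ok hE hG hc hP h1 ?_ h3 hv
      rw [i5]; linarith
  | rz f =>
    obtain ⟨-, h1, h2, h3⟩ := hy
    cases f with
    | own => exact absurd hc (by simp [rw4])
    | both => exact absurd hc (by simp [rw4])
    | far =>
      refine rE_ok hE hG hc hP h1 ?_ h3 hv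
      rw [i6]; linarith

/-- The weight of a piece. -/
theorem wt_eq {pc : Pc} {η wt : ℝ} {y : ℂ} (hy : pc.In (3 / 20) η y wt) :
    wt / 2 = if pc.box = true then Real.pi * |y.im| else 0 := by
  cases pc <;> simp only [Pc.In] at hy <;> simp only [Pc.box, if_true, Bool.false_eq_true, if_false]
  case F => rw [hy.1]; ring
  case H => rw [hy.1]; ring
  case G => rw [hy.1]; ring
  case L => rw [hy.1]; ring
  case R => rw [hy.1]; ring
  case T => rw [hy.1, hy.2.1]; ring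
  case t => rw [hy.1, hy.2.1]; ring
  case U => rw [hy.1, hy.2.1]; ring
  case u => rw [hy.1, hy.2.1]; ring
  case P => rw [hy.1]; ring
  case p => rw [hy.1]; ring
  case Q => rw [hy.1]; ring
  case q => rw [hy.1]; ring
  case lo => rw [hy.1]; ring
  case re => rw [hy.1]; ring
  case rz => rw [hy.1]; ring

/-- The slot function of an end with `a = 4`. -/
theorem Es_four (hi : vs.im ≠ 0) (he : 2 * Real.pi * I * (1 - 4 * vs) + lv ys vs = 0) (δ : ℝ)
    (y v : ℂ) : Es ys vs y v + δ * Td (1 / 2 - ys) (1 / 2 - y) =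
      Vw (2 + δ) y v - pla (2 + δ) ys vs y := by
  have hb : bn ys vs = 4 := by
    have := sum_bn (Finset.univ : Finset (Fin 1)) 4 (fun _ => ys) vs hi (by
      simpa using he)
    simpa using this
  have e0 := gn_eq 4 vs v
  have e1 := sl_eq (2 + δ) ys vs y v
  have e2 : (2 * Real.pi * I * (1 - (4 : ℝ) * vs) * (v - vs)).re + (lv ys vs * (v - vs)).re = 0 := by
    rw [← add_re, ← add_mul]
    have : 2 * (Real.pi : ℂ) * I * (1 - ((4 : ℝ) : ℂ) * vs) + lv ys vs = 0 := by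
      push_cast
      exact he
    rw [this, zero_mul, zero_re]
  have e3 : ∀ y : ℂ, -Rf (1 / 2 - y) = Rf (y + 1 / 2) := by
    intro y
    rw [← Rf_one_sub]
    congr 1
    ring
  unfold Es Ev pla Vw
  rw [hb, e3, e3]
  unfold sl at e1
  linarith

/-- **The rows of an end with `a = 4`.** -/
theorem row4 (hE : TabOK) (hG : GOK g) {w : ℕ} (hw : w = 1 ∨ w = 2 ∨ w = 3) {S : Bool} {x : Nt}
    {pc : Pc} (hd : (w : ℝ) = 2 + dT S ⟨4, true⟩ x pc) {h : ℤ}
    (hT : (h : ℝ) ≤ hT S ⟨4, true⟩ x pc * 1048576) (hc : rw4 w g h pc = true)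
    (hP : P4 w g ys vs) (hi : vs.im ≠ 0)
    (he : 2 * Real.pi * I * (1 - 4 * vs) + lv ys vs = 0) {y v : ℂ} {wt : ℝ}
    (hy : pc.In (3 / 20) ys.im y wt) (hv : LimV vs.im (3 / 10) v)
    (hF : pc = .F → v.im = 0 ∧ 3 / 10 ≤ |v.re| ∧ |v.re| ≤ 1 / 2) :
    Es ys vs y v + slE S ⟨4, true⟩ x pc (ly 2 ys vs) ys y wt < 0 := by
  have h1 := rw4_ok hE hG hw hc hP hy hv hF
  have h2 := Es_four hi he (dT S ⟨4, true⟩ x pc) y v
  rw [← hd] at h2
  have h3 := wt_eq hy
  have h4 : (ly 2 ys vs * (y - pc.eff y)).re - wt / 2 - (pla w ys vs y - plp pc w ys vs y) ≤ 0 := by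
    by_cases hb : pc.box = true
    · rw [if_pos hb] at h3
      unfold plp Pc.eff
      rw [if_pos hb, if_pos hb, h3]
      have e1 : y - (y.re : ℂ) = (y.im : ℂ) * I := by
        apply Complex.ext <;> simp
      have e2 : (ly 2 ys vs * (y - (y.re : ℂ))).re = -((ly 2 ys vs).im * y.im) := by
        rw [e1]
        simp only [mul_re, mul_im, ofReal_re, ofReal_im, I_re, I_im]
        ring
      have e3 : pla w ys vs y = pla w ys vs y.re - (ly w ys vs).im * y.im := by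
        unfold pla
        have : (ly w ys vs * (y - ys)).re = (ly w ys vs * ((y.re : ℂ) - ys)).re +
            (ly w ys vs * (y - (y.re : ℂ))).re := by
          rw [← add_re]
          congr 1
          ring
        rw [this, e1]
        simp only [mul_re, mul_im, ofReal_re, ofReal_im, I_re, I_im]
        ring
      have e4 : (ly w ys vs).im = (ly 2 ys vs).im + ((w : ℝ) - 2) * (hh (1 / 2 - ys)).im := by
        unfold ly
        have e5 : ((w : ℝ) : ℂ) * hh (1 / 2 - ys) = ((2 : ℝ) : ℂ) * hh (1 / 2 - ys) +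
            (((w : ℝ) - 2 : ℝ) : ℂ) * hh (1 / 2 - ys) := by
          push_cast
          ring
        rw [e5, sub_im, sub_im, sub_im, sub_im, add_im, im_ofReal_mul, im_ofReal_mul]
        ring
      rw [e2, e3, e4]
      unfold plf
      apply le_of_eq
      ring
    · rw [if_neg hb] at h3
      have hlo : pc ≠ .lo := by
        rintro rfl
        simp [rw4] at hc
      unfold plp Pc.eff
      rw [if_neg hb, if_neg hb, if_neg hlo, h3, sub_self, mul_zero, zero_re]
      linarith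
  unfold slE
  have h5 : (Vw w y v - plp pc w ys vs y) * 1048576 < Pool.Agent.S5.hT S ⟨4, true⟩ x pc * 1048576 :=
    h1.trans_le hT
  have h6 : Vw w y v - plp pc w ys vs y < Pool.Agent.S5.hT S ⟨4, true⟩ x pc := by
    linarith
  linarith

end Pool.Agent.S5.Tb
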