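import Pool.Agent.S5.I.VB
import Pool.Agent.S5.I.FqD
import Pool.Agent.S5.I.NumPk
import Pool.Agent.S5.I.RwT

/-!
# Flats of an end with `a = 4`: the defects
-/

set_option autoImplicit false

namespace Pool.Agent.S5

open Pool.Agent.H63.VC3 Pool.Agent.S3 Complex MeasureTheory Filter Topology Set

/-- Lower bound of the defect from an affine lower bound of the second derivative. -/
theorem Dd_ge_lin {s w0 w α β : ℝ} (hd : ∀ u ∈ uIcc w0 w, s ≠ 0 ∨ (u ≠ 0 ∧ |u| < 1))
    (hm : ∀ u ∈ uIcc w0 w, α + β * u ≤ Lgd s u) :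
    (3 * α + β * (2 * w0 + w)) / 6 * (w - w0) ^ 2 ≤ Dd s w0 w := by
  have e : (3 * α + β * (2 * w0 + w)) / 6 * (w - w0) ^ 2 =
      ∫ u in w0..w, (α * (u - w0) + β / 2 * (u ^ 2 - w0 ^ 2)) := by
    rw [intervalIntegral.integral_add
      ((by fun_prop : Continuous fun u : ℝ => α * (u - w0)).intervalIntegrable _ _)
      ((by fun_prop : Continuous fun u : ℝ => β / 2 * (u ^ 2 - w0 ^ 2)).intervalIntegrable _ _),
      intervalIntegral.integral_const_mul, intervalIntegral.integral_const_mul,
      intervalIntegral.integral_sub (by exact continuous_id.intervalIntegrable _ _) (by simp),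
      intervalIntegral.integral_sub ((by fun_prop : Continuous fun u : ℝ => u ^ 2).intervalIntegrable
        _ _) (by simp), integral_id, integral_pow,
      intervalIntegral.integral_const, intervalIntegral.integral_const]
    simp only [smul_eq_mul]
    push_cast
    ring
  have hdiff : ∀ u ∈ uIcc w0 w, HasDerivAt (fun u => Lg s u - (α * u + β / 2 * u ^ 2))
      (Lgd s u - (α + β * u)) u := by
    intro u hu
    have h2 := (Lg_hasDerivAt (hd u hu)).sub (((hasDerivAt_id u).const_mul α).add
      ((hasDerivAt_pow 2 u).const_mul (β / 2)))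
    refine h2.congr_deriv ?_
    simp only [Nat.add_one_sub_one, pow_one]
    push_cast
    ring
  have hmono : MonotoneOn (fun u => Lg s u - (α * u + β / 2 * u ^ 2)) (uIcc w0 w) := by
    apply monotoneOn_of_deriv_nonneg (convex_uIcc w0 w)
    · exact fun u hu => (hdiff u hu).continuousAt.continuousWithinAt
    · exact fun u hu => (hdiff u (interior_subset hu)).differentiableAt.differentiableWithinAt
    · intro u hu
      rw [(hdiff u (interior_subset hu)).deriv]
      linarith [hm u (interior_subset hu)]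
  have hcont : Continuous fun u : ℝ => α * (u - w0) + β / 2 * (u ^ 2 - w0 ^ 2) := by fun_prop
  rw [e, Dd_eq]
  rcases le_total w0 w with h | h
  · apply intervalIntegral.integral_mono_on h
    · exact hcont.intervalIntegrable _ _
    · exact (Lg_integrable _ _ _).sub (by simp)
    · intro u hu
      have := hmono (left_mem_uIcc) (Icc_subset_uIcc hu) hu.1
      simp only at this
      linarith
  · rw [intervalIntegral.integral_symm, intervalIntegral.integral_symm w]
    apply neg_le_neg
    apply intervalIntegral.integral_mono_on h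
    · exact (Lg_integrable _ _ _).sub (by simp)
    · exact hcont.intervalIntegrable _ _
    · intro u hu
      have := hmono (Icc_subset_uIcc' hu) (left_mem_uIcc) hu.2
      simp only at this
      linarith

/-- The second derivative decreases with the height. -/
theorem Lgd_anti {s s' u : ℝ} (h0 : 0 < u) (h1 : u ≤ 1 / 2) (hs : |s| ≤ s') :
    Lgd s' u ≤ Lgd s u := by
  have hpi := Real.pi_pos
  have hd : 0 < dn s u := dn_pos (Or.inr ⟨h0.ne', by rw [abs_of_pos h0]; linarith⟩)
  have hc : Real.cosh (2 * Real.pi * s) ≤ Real.cosh (2 * Real.pi * s') := by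
    rw [Real.cosh_le_cosh, abs_mul (2 * Real.pi), abs_mul (2 * Real.pi)]
    exact mul_le_mul_of_nonneg_left (hs.trans (le_abs_self _)) (abs_nonneg _)
  have hd' : dn s u ≤ dn s' u := by
    unfold dn
    linarith
  unfold Lgd
  apply div_le_div_of_nonneg_left _ hd hd'
  apply mul_nonneg hpi.le
  apply Real.sin_nonneg_of_nonneg_of_le_pi <;> nlinarith

/-- The defect beyond `1 / 2`. -/
theorem Dd_ge_beyond {s p c δ e κ E : ℝ} (hk : VB.KB κ E) (hκ : 0 ≤ κ) (hp : 0 < p) (hc : 0 < c)
    (d0 : 0 ≤ δ) (d1 : p - 1 / 2 ≤ δ) (e0 : 0 ≤ e) (e1 : c - 1 / 2 ≤ e) (hδ : δ ≤ E) (he : e ≤ E) :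
    -(κ * (2 * δ + e) / 3 * (c - p) ^ 2) ≤ 2 * Dd s p c := by
  rcases eq_or_ne c p with h | h
  · rw [h, Dd_self, sub_self]
    simp
  have hne : c - p ≠ 0 := sub_ne_zero.2 h
  set b := (e - δ) / (c - p) with hb
  have hE := hk.1
  have hmin : ∀ u ∈ uIcc p c, 0 < u := fun u hu => lt_of_lt_of_le (lt_min hp hc) hu.1
  have hmax : ∀ u ∈ uIcc p c, u ≤ 1 / 2 + E := fun u hu =>
    hu.2.trans (max_le (by linarith) (by linarith))
  have hl : ∀ u ∈ uIcc p c, ∃ τ : ℝ, 0 ≤ τ ∧ τ ≤ 1 ∧ u = p + τ * (c - p) ∧
      δ + b * (u - p) = (1 - τ) * δ + τ * e := by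
    intro u hu
    refine ⟨(u - p) / (c - p), ?_, ?_, ?_, ?_⟩
    · rcases lt_or_gt_of_ne h with h2 | h2
      · rw [uIcc_of_ge h2.le] at hu
        exact div_nonneg_of_nonpos (by linarith [hu.2]) (by linarith)
      · rw [uIcc_of_le h2.le] at hu
        exact div_nonneg (by linarith [hu.1]) (by linarith)
    · rcases lt_or_gt_of_ne h with h2 | h2
      · rw [uIcc_of_ge h2.le] at hu
        rw [div_le_one_of_neg (by linarith)]
        linarith [hu.1]
      · rw [uIcc_of_le h2.le] at hu
        rw [div_le_one (by linarith)]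
        linarith [hu.2]
    · field_simp
      ring
    · rw [hb]
      field_simp
      ring
  have key := Dd_ge_lin (s := s) (w0 := p) (w := c) (α := -(κ * (δ - b * p))) (β := -(κ * b))
    (by
      intro u hu
      have h1 := hmin u hu
      have h2 := hmax u hu
      exact Or.inr ⟨h1.ne', by rw [abs_of_pos h1]; linarith⟩)
    (by
      intro u hu
      obtain ⟨τ, t0, t1, tu, tl⟩ := hl u hu
      have h1 := hmin u hu
      have h2 := hmax u hu
      have e3 : -(κ * (δ - b * p)) + -(κ * b) * u = -(κ * (δ + b * (u - p))) := by ring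
      rw [e3, tl]
      have h3 : 0 ≤ (1 - τ) * δ + τ * e :=
        add_nonneg (mul_nonneg (by linarith) d0) (mul_nonneg t0 e0)
      rcases le_or_gt u (1 / 2) with h4 | h4
      · have := Lgd_nonneg (s := s) h1.le h4
        have := mul_nonneg hκ h3
        linarith
      · have h5 := hk.2 s (u - 1 / 2) (by linarith) (by linarith)
        rw [add_sub_cancel] at h5
        refine le_trans ?_ h5
        apply neg_le_neg
        apply mul_le_mul_of_nonneg_left _ hκ
        have h6 := mul_le_mul_of_nonneg_left d1 (show 0 ≤ 1 - τ by linarith)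
        have h7 := mul_le_mul_of_nonneg_left e1 t0
        rw [tu]
        linarith)
  have e4 : (3 * -(κ * (δ - b * p)) + -(κ * b) * (2 * p + c)) / 6 =
      -(κ * (2 * δ + e) / 3) / 2 := by
    have : b * (c - p) = e - δ := by
      rw [hb]
      field_simp
    linear_combination (-κ / 6) * this
  rw [e4] at key
  linarith

end Pool.Agent.S5
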