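import Pool.Agent.S5.I.Fa

/-!
# Flats of an end with `a = 4`: soundness
-/

set_option autoImplicit false

namespace Pool.Agent.S5.Tb

open Pool.Agent.H63.VC3 Pool.Agent.S3 Complex MeasureTheory Filter Topology Set

theorem kl_ok {i j : ℕ} {k : ℕ → Bool} (h : kl i j k = true) (hi : 1 ≤ i) :
    i ≤ 100 ∧ ∃ m : ℕ, (m : ℝ) ≤ Lgd ((j : ℝ) / 200) ((i : ℝ) / 200) * 1048576 ∧ k m = true := by
  unfold kl at h
  have h0 : Nat.ble i 0 = false := by
    rcases hb : Nat.ble i 0 with _ | _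
    · rfl
    · have := Nat.le_of_ble_eq_true hb
      omega
  rw [h0, cond_false] at h
  obtain ⟨-, h2, -, c, d, a, b, M, -, hB, -, h1⟩ := Num.bsK_sound h
  rw [fN_eq] at h1
  have hi' : i ≤ 100 := by omega
  refine ⟨hi', _, ?_, h1⟩
  have h200 : ((200 : ℕ) : ℝ) = 200 := Nat.cast_ofNat
  rw [h200] at hB
  have hc := abs_le.1 hB.cr
  have e1 : (Real.pi * cot (Real.pi * ((((i : ℝ) / 200 : ℝ) : ℂ) + ((j : ℝ) / 200 : ℝ) * I))).re =
      Lgd ((j : ℝ) / 200) ((i : ℝ) / 200) := by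
    rw [re_ofReal_mul, cot_re]
    unfold Lgd dn
    ring
  rw [e1] at hc
  have hK0 : 0 ≤ Lgd ((j : ℝ) / 200) ((i : ℝ) / 200) := by
    apply Lgd_nonneg
    · positivity
    · rw [div_le_iff₀ (by norm_num)]
      have : (i : ℝ) ≤ 100 := by exact_mod_cast hi'
      linarith
  set K := Lgd ((j : ℝ) / 200) ((i : ℝ) / 200)
  have hU : Num.UU = 281474976710656 := by norm_num [Num.UU]
  have hKK : Num.KK = 4503599627370496 := by norm_num [Num.KK]
  show (((497805226624462151055740764160 * b / (a * a + b * b) - Num.eCv M) / 268435456 : ℕ) : ℝ) ≤ _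
  generalize hq : 497805226624462151055740764160 * b / (a * a + b * b) = q at hc ⊢
  have h3 : ((q : ℕ) : ℝ) - (Num.eCv M : ℝ) ≤ Num.UU * K := by
    have := hc.1
    push_cast at this
    rw [hKK] at this
    linarith [hc.2, hc.1]
  have h4 : (((q - Num.eCv M : ℕ)) : ℝ) ≤ Num.UU * K := by
    rcases le_total (Num.eCv M) q with h5 | h5
    · rw [Nat.cast_sub h5]
      exact h3
    · rw [Nat.sub_eq_zero_of_le h5, Nat.cast_zero]
      rw [hU]
      positivity
  have h5 : (((q - Num.eCv M) / 268435456 : ℕ) : ℝ) ≤ ((q - Num.eCv M : ℕ) : ℝ) / 268435456 := by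
    have := @Nat.cast_div_le ℝ _ _ _ (q - Num.eCv M) 268435456
    simpa using this
  refine h5.trans ?_
  rw [div_le_iff₀ (by norm_num)]
  rw [hU] at h4
  linarith

/-- The minimum on a rectangle. -/
theorem kmn_ok {i i' j : ℕ} {k : ℕ → Bool} (h : kmn i i' j k = true) (hi : 1 ≤ i) :
    i' ≤ 100 ∧ ∃ m : ℕ, k m = true ∧ ∀ s u : ℝ, |s| * 200 ≤ j → (i : ℝ) ≤ u * 200 →
      u * 200 ≤ i' → (m : ℝ) ≤ Lgd s u * 1048576 := by
  unfold kmn at h
  obtain ⟨h1, m1, h2, h3⟩ := kl_ok h hi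
  rcases Nat.eq_zero_or_pos i' with h0 | hi'
  · subst h0
    unfold kl at h3
    have hb : Nat.ble 0 0 = true := rfl
    simp only [hb, cond_true, fN_eq] at h3
    refine ⟨by omega, _, h3, ?_⟩
    intro s u _ h5 h6
    have g1 : (1 : ℝ) ≤ i := by exact_mod_cast hi
    rw [Nat.cast_zero] at h6
    linarith
  obtain ⟨h4, m2, h5, h6⟩ := kl_ok h3 hi'
  rw [fN_eq] at h6
  refine ⟨h4, _, h6, ?_⟩
  intro s u hs hu hu'
  have g1 : (1 : ℝ) ≤ i := by exact_mod_cast hi
  have g1' : (1 : ℝ) ≤ i' := by exact_mod_cast hi'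
  have g2 : (i : ℝ) ≤ 100 := by exact_mod_cast h1
  have g3 : (i' : ℝ) ≤ 100 := by exact_mod_cast h4
  have hsj : |s| ≤ (j : ℝ) / 200 := by
    rw [le_div_iff₀ (by norm_num)]
    exact hs
  have a1 := Lgd_anti (s := s) (s' := (j : ℝ) / 200) (u := (i : ℝ) / 200) (by positivity)
    (by linarith) hsj
  have a2 := Lgd_anti (s := s) (s' := (j : ℝ) / 200) (u := (i' : ℝ) / 200) (by positivity)
    (by linarith) hsj
  have e : ((mn m1 m2 : ℕ) : ℝ) = min (m1 : ℝ) m2 := by
    rw [mn_eq, Nat.cast_min]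
  rw [e]
  have hmin0 : (0 : ℝ) ≤ min (m1 : ℝ) m2 := le_min (Nat.cast_nonneg _) (Nat.cast_nonneg _)
  have key := VB.Lgd_ge_mid (s := s) (u := (i : ℝ) / 200) (v := (i' : ℝ) / 200) (x := u)
    (m := min (m1 : ℝ) m2 / 1048576) (by positivity) (by linarith) (by linarith) (by linarith)
    (by positivity)
    (by
      rw [div_le_iff₀ (by norm_num)]
      exact (min_le_left _ _).trans (h2.trans (mul_le_mul_of_nonneg_right a1 (by norm_num))))
    (by
      rw [div_le_iff₀ (by norm_num)]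
      exact (min_le_right _ _).trans (h5.trans (mul_le_mul_of_nonneg_right a2 (by norm_num))))
  rw [div_le_iff₀ (by norm_num)] at key
  exact key

/-- A rectangle for the defect. -/
theorem box_ge {i i' j m : ℕ} (hi : 1 ≤ i) (hi' : i' ≤ 100)
    (hm : ∀ s u : ℝ, |s| * 200 ≤ j → (i : ℝ) ≤ u * 200 → u * 200 ≤ i' →
      (m : ℝ) ≤ Lgd s u * 1048576) {s w0 w : ℝ} (hs : |s| * 200 ≤ j) (h1 : (i : ℝ) ≤ w0 * 200)
    (h2 : w0 * 200 ≤ i') (h3 : (i : ℝ) ≤ w * 200) (h4 : w * 200 ≤ i') :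
    (m : ℝ) * (w - w0) ^ 2 ≤ 2 * Dd s w0 w * 1048576 := by
  have g1 : (1 : ℝ) ≤ i := by exact_mod_cast hi
  have g3 : (i' : ℝ) ≤ 100 := by exact_mod_cast hi'
  have g4 : (i : ℝ) ≤ i' := h1.trans h2
  have a1 := hm s ((i : ℝ) / 200) hs (by linarith) (by linarith)
  have a2 := hm s ((i' : ℝ) / 200) hs (by linarith) (by linarith)
  have key := VB.Dd_ge_box (s := s) (w0 := w0) (w := w) (u := (i : ℝ) / 200) (v := (i' : ℝ) / 200)
    (m := (m : ℝ) / 1048576) (by positivity) (by linarith) (by linarith) (by linarith)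
    (by linarith) (by linarith) (by positivity)
    (by rw [div_le_iff₀ (by norm_num)]; exact a1) (by rw [div_le_iff₀ (by norm_num)]; exact a2)
  have e : (m : ℝ) / 1048576 / 2 * (w - w0) ^ 2 * (2 * 1048576) = m * (w - w0) ^ 2 := by ring
  have := mul_le_mul_of_nonneg_right key (show (0 : ℝ) ≤ 2 * 1048576 by norm_num)
  rw [e] at this
  linarith

theorem div128_le (n : ℕ) : ((n / 128 : ℕ) : ℝ) * 128 ≤ n := by
  have := Nat.div_mul_le_self n 128
  exact_mod_cast this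

theorem le_div128 (n : ℕ) : (n : ℝ) ≤ (((n + 127) / 128 : ℕ) : ℝ) * 128 := by
  have : n ≤ (n + 127) / 128 * 128 := by omega
  exact_mod_cast this

variable {r : Rd} {g : Gd} {ys vs : ℂ}

theorem sub_cast (a b : ℕ) : (a : ℝ) - b ≤ ((a - b : ℕ) : ℝ) := by
  rcases le_total b a with h | h
  · rw [Nat.cast_sub h]
  · have h' : (a : ℝ) ≤ b := by exact_mod_cast h
    have := Nat.cast_nonneg (α := ℝ) (a - b)
    linarith

theorem sub_cast_pos {a b : ℕ} (h : 0 < a - b) : ((a - b : ℕ) : ℝ) = (a : ℝ) - b := by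
  rw [Nat.cast_sub (by omega)]

/-- The form at the edge. -/
theorem qA_ok {ta tb : ℕ} {k : ℕ → Bool} (h : qA r ta tb k = true) (hQ : Q4 r ys vs) :
    ∃ A : ℕ, k A = true ∧ ∀ t : ℝ, Ps ta tb t →
      (A : ℝ) * (t - ys.re) ^ 2 ≤ 2 * Dd ys.im (1 / 2 - ys.re) (1 / 2 - t) * 1048576 := by
  unfold qA at h
  rw [fN_eq, fN_eq] at h
  obtain ⟨h1, h⟩ := cond_and h
  obtain ⟨h2, h⟩ := cond_and h
  have h1 := Nat.le_of_ble_eq_true h1
  have h2 := Nat.le_of_ble_eq_true h2
  have e1 : ∀ a b : ℕ, Nat.div a b = a / b := fun _ _ => rfl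
  have e2 : ∀ a b : ℕ, Nat.sub a b = a - b := fun _ _ => rfl
  have e3 : ∀ a b : ℕ, Nat.add a b = a + b := fun _ _ => rfl
  simp only [e1, e2, e3, mn_eq, mx_eq] at h h1 h2
  obtain ⟨h3, A, h4, h5⟩ := kmn_ok h h1
  refine ⟨A, h4, ?_⟩
  intro t ht
  have T0 := hQ.T0
  have T1 := hQ.T1
  have d1 := div128_le (min (115200 - tb) (12800 - r.T1))
  have d2 := le_div128 (max (115200 - ta) (12800 - r.T0))
  generalize hlo : min (115200 - tb) (12800 - r.T1) = lo at h1 h5 d1
  generalize hhi : max (115200 - ta) (12800 - r.T0) = hi at h2 h3 h5 d2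
  have p1 : 0 < 115200 - tb := by omega
  have p2 : 0 < 12800 - r.T1 := by omega
  have l1 : (lo : ℝ) ≤ ((115200 - tb : ℕ) : ℝ) := by
    rw [← hlo]; exact_mod_cast min_le_left _ _
  have l2 : (lo : ℝ) ≤ ((12800 - r.T1 : ℕ) : ℝ) := by
    rw [← hlo]; exact_mod_cast min_le_right _ _
  rw [sub_cast_pos p1] at l1
  rw [sub_cast_pos p2] at l2
  have u1 : ((115200 : ℕ) : ℝ) - ta ≤ (hi : ℝ) := by
    refine (sub_cast _ _).trans ?_
    rw [← hhi]; exact_mod_cast le_max_left _ _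
  have u2 : ((12800 : ℕ) : ℝ) - r.T0 ≤ (hi : ℝ) := by
    refine (sub_cast _ _).trans ?_
    rw [← hhi]; exact_mod_cast le_max_right _ _
  have k1 : ((115200 : ℕ) : ℝ) = 115200 := Nat.cast_ofNat
  have k2 : ((12800 : ℕ) : ℝ) = 12800 := Nat.cast_ofNat
  rw [k1] at l1 u1
  rw [k2] at l2 u2
  have t0 := ht.1
  have t1 := ht.2
  have key := box_ge (s := ys.im) (w0 := 1 / 2 - ys.re) (w := 1 / 2 - t) h1 h3 h5 hQ.ja
    (by linarith) (by linarith) (by linarith) (by linarith)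
  have e : (1 / 2 - t - (1 / 2 - ys.re)) ^ 2 = (t - ys.re) ^ 2 := by ring
  rw [e] at key
  exact key

/-- The form at the difference, left of the critical point. -/
theorem qL_ok {b0 : ℕ} {k : ℕ → Bool} (h : qL r b0 k = true) (hQ : Q4 r ys vs) :
    128 ≤ r.M0 ∧ r.M1 ≤ 12800 ∧ ∃ l : ℕ, k l = true ∧ ∀ b : ℝ, -1 < b →
      (b0 : ℝ) ≤ b * 25600 + 102400 → b ≤ ys.re - vs.re →
      (l : ℝ) * (b - (ys.re - vs.re)) ^ 2 ≤
        2 * Dd (ys.im - vs.im) (ys.re - vs.re) b * 1048576 := by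
  unfold qL at h
  obtain ⟨h1, h⟩ := cond_and h
  obtain ⟨h2, h⟩ := cond_and h
  have h1 := Nat.le_of_ble_eq_true h1
  have h2 := Nat.le_of_ble_eq_true h2
  refine ⟨h1, h2, ?_⟩
  have e1 : ∀ a b : ℕ, Nat.div a b = a / b := fun _ _ => rfl
  have e2 : ∀ a b : ℕ, Nat.sub a b = a - b := fun _ _ => rfl
  have e3 : ∀ a b : ℕ, Nat.add a b = a + b := fun _ _ => rfl
  have e4 : ∀ a b : ℕ, Nat.mul a b = a * b := fun _ _ => rfl
  simp only [e1, e2, e3, e4] at h
  obtain ⟨h3, m, h4, h5⟩ := kmn_ok h (by omega)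
  have M0 := hQ.M0
  have M1 := hQ.M1
  have g1 : (128 : ℝ) ≤ r.M0 := by exact_mod_cast h1
  have g2 : (r.M1 : ℝ) ≤ 12800 := by exact_mod_cast h2
  have d1 := div128_le r.M0
  have d2 := le_div128 r.M1
  set w := ys.re - vs.re with hw
  have hw0 : 0 < w := by linarith
  have hw1 : w ≤ 1 / 2 := by linarith
  have hm := h5 (ys.im - vs.im) w hQ.jb (by linarith) (by linarith)
  have hm0 : (0 : ℝ) ≤ m := Nat.cast_nonneg m
  have hM0 : (0 : ℝ) < r.M0 := by linarith
  have hM1 : (0 : ℝ) < r.M1 := by linarith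
  -- the main estimate
  have key : ∀ q b : ℝ, -1 < b → b ≤ w → 0 ≤ q → q * (3 * w) ≤ 2 * w + b →
      m * q * (b - w) ^ 2 ≤ 2 * Dd (ys.im - vs.im) w b * 1048576 := by
    intro q b hb0 hb hq hq1
    have k1 := Dd_ge (s := ys.im - vs.im) hw0 hw1 hb0 hb
    have k2 : m * q ≤ Lgd (ys.im - vs.im) w * 1048576 * ((2 * w + b) / (3 * w)) := by
      have k3 : q ≤ (2 * w + b) / (3 * w) := by
        rw [le_div_iff₀ (by positivity)]
        exact hq1
      have k4 : 0 ≤ (2 * w + b) / (3 * w) := hq.trans k3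
      exact (mul_le_mul_of_nonneg_left k3 hm0).trans (mul_le_mul_of_nonneg_right hm k4)
    have k5 : Lgd (ys.im - vs.im) w * 1048576 * ((2 * w + b) / (3 * w)) * (b - w) ^ 2 =
        2 * (Lgd (ys.im - vs.im) w / (2 * w) * ((w - b) ^ 2 * (2 * w + b) / 3)) * 1048576 := by
      field_simp
      ring
    have k6 := mul_le_mul_of_nonneg_right k2 (sq_nonneg (b - w))
    rw [k5] at k6
    linarith
  rcases hb : Nat.ble 102400 b0 with _ | _
  · rw [hb, cond_false] at h4
    obtain ⟨h6, h7⟩ := cond_and h4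
    have h6 := Nat.le_of_ble_eq_true h6
    rw [fN_eq] at h7
    have hb' : b0 < 102400 := by
      by_contra h8
      rw [Nat.ble_eq_true_of_le (not_lt.1 h8)] at hb
      exact absurd hb (by simp)
    refine ⟨_, h7, ?_⟩
    intro b hb0 hb1 hb2
    have c1 : ((102400 - b0 : ℕ) : ℝ) = 102400 - (b0 : ℝ) := by
      rw [Nat.cast_sub hb'.le]
      norm_num
    have c2 : ((2 * r.M0 - (102400 - b0) : ℕ) : ℝ) = 2 * (r.M0 : ℝ) - (102400 - (b0 : ℝ)) := by
      rw [Nat.cast_sub h6, c1]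
      push_cast
      ring
    have c3 : (0 : ℝ) ≤ 2 * (r.M0 : ℝ) - (102400 - (b0 : ℝ)) := by
      rw [← c2]
      exact Nat.cast_nonneg _
    have c4 : (0 : ℝ) < 102400 - (b0 : ℝ) := by
      rw [← c1]
      exact_mod_cast Nat.sub_pos_of_lt hb'
    have l1 : ((m * (2 * r.M0 - (102400 - b0)) / (3 * r.M0) : ℕ) : ℝ) ≤
        m * ((2 * (r.M0 : ℝ) - (102400 - (b0 : ℝ))) / (3 * r.M0)) := by
      refine (@Nat.cast_div_le ℝ _ _ _ _ _).trans ?_
      rw [Nat.cast_mul, c2, mul_div_assoc]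
      apply le_of_eq
      push_cast
      ring
    have k1 := key ((2 * (r.M0 : ℝ) - (102400 - (b0 : ℝ))) / (3 * r.M0)) b hb0 hb2
      (div_nonneg c3 (by positivity)) (by
        rw [div_mul_eq_mul_div, div_le_iff₀ (by positivity)]
        have q1 : (r.M0 : ℝ) * (b * 25600) ≥ w * 25600 * -(102400 - (b0 : ℝ)) := by
          have q2 : (r.M0 : ℝ) * (b * 25600) ≥ r.M0 * -(102400 - (b0 : ℝ)) :=
            mul_le_mul_of_nonneg_left (by linarith) hM0.le
          have q3 : (r.M0 : ℝ) * -(102400 - (b0 : ℝ)) ≥ w * 25600 * -(102400 - (b0 : ℝ)) := by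
            have := mul_le_mul_of_nonneg_right M0 c4.le
            linarith
          linarith
        nlinarith)
    refine le_trans ?_ k1
    exact mul_le_mul_of_nonneg_right l1 (sq_nonneg _)
  · rw [hb, cond_true, fN_eq] at h4
    have hb' : 102400 ≤ b0 := Nat.le_of_ble_eq_true hb
    refine ⟨_, h4, ?_⟩
    intro b hb0 hb1 hb2
    have c1 : ((b0 - 102400 : ℕ) : ℝ) = (b0 : ℝ) - 102400 := by
      rw [Nat.cast_sub hb']
      norm_num
    have c4 : (0 : ℝ) ≤ (b0 : ℝ) - 102400 := by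
      rw [← c1]
      exact Nat.cast_nonneg _
    have l1 : ((m * (2 * r.M1 + (b0 - 102400)) / (3 * r.M1) : ℕ) : ℝ) ≤
        m * ((2 * (r.M1 : ℝ) + ((b0 : ℝ) - 102400)) / (3 * r.M1)) := by
      refine (@Nat.cast_div_le ℝ _ _ _ _ _).trans ?_
      rw [Nat.cast_mul, Nat.cast_add, c1, mul_div_assoc]
      apply le_of_eq
      push_cast
      ring
    have k1 := key ((2 * (r.M1 : ℝ) + ((b0 : ℝ) - 102400)) / (3 * r.M1)) b hb0 hb2
      (div_nonneg (by positivity) (by positivity)) (by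
        rw [div_mul_eq_mul_div, div_le_iff₀ (by positivity)]
        have q1 : (r.M1 : ℝ) * (b * 25600) ≥ w * 25600 * ((b0 : ℝ) - 102400) := by
          have q2 : (r.M1 : ℝ) * (b * 25600) ≥ r.M1 * ((b0 : ℝ) - 102400) :=
            mul_le_mul_of_nonneg_left (by linarith) hM1.le
          have q3 : (r.M1 : ℝ) * ((b0 : ℝ) - 102400) ≥ w * 25600 * ((b0 : ℝ) - 102400) :=
            mul_le_mul_of_nonneg_right M1 c4
          linarith
        nlinarith)
    refine le_trans ?_ k1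
    exact mul_le_mul_of_nonneg_right l1 (sq_nonneg _)

/-- The form at the difference. -/
theorem qB_ok {b0 b1 : ℕ} {k : ℕ → Bool} (h : qB r b0 b1 k = true) (hQ : Q4 r ys vs) :
    ∃ B : ℕ, k B = true ∧ ∀ b : ℝ, -1 < b → (b0 : ℝ) ≤ b * 25600 + 102400 →
      b * 25600 + 102400 ≤ b1 → (B : ℝ) * (b - (ys.re - vs.re)) ^ 2 ≤
        2 * Dd (ys.im - vs.im) (ys.re - vs.re) b * 1048576 := by
  unfold qB at h
  obtain ⟨g0, g1, l, h1, h2⟩ := qL_ok h hQ
  have e1 : ∀ a b : ℕ, Nat.div a b = a / b := fun _ _ => rfl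
  have e2 : ∀ a b : ℕ, Nat.sub a b = a - b := fun _ _ => rfl
  have e3 : ∀ a b : ℕ, Nat.add a b = a + b := fun _ _ => rfl
  simp only [e1, e2, e3] at h1
  have M0 := hQ.M0
  have M1 := hQ.M1
  rcases hb : Nat.ble b1 (r.M0 + 102400) with _ | _
  · rw [hb, cond_false, fN_eq] at h1
    obtain ⟨h3, h4⟩ := cond_and h1
    have h3 := Nat.le_of_ble_eq_true h3
    obtain ⟨-, q, h5, h6⟩ := kmn_ok h4 (by omega)
    rw [fN_eq] at h5
    refine ⟨_, h5, ?_⟩
    intro b hb0 hb1 hb2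
    have em : ((mn l q : ℕ) : ℝ) = min (l : ℝ) q := by rw [mn_eq, Nat.cast_min]
    rw [em]
    rcases le_total b (ys.re - vs.re) with h7 | h7
    · refine le_trans ?_ (h2 b hb0 hb1 h7)
      exact mul_le_mul_of_nonneg_right (min_le_left _ _) (sq_nonneg _)
    · refine le_trans (mul_le_mul_of_nonneg_right (min_le_right _ _) (sq_nonneg _)) ?_
      have d1 := div128_le r.M0
      rw [mx_eq] at h3 h6
      have d2 := le_div128 (max r.M1 (b1 - 102400))
      generalize hhi : max r.M1 (b1 - 102400) = hi at h3 h6 d2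
      have u1 : (r.M1 : ℝ) ≤ hi := by
        rw [← hhi]; exact_mod_cast le_max_left _ _
      have u2 : (b1 : ℝ) - ((102400 : ℕ) : ℝ) ≤ hi := by
        refine (sub_cast _ _).trans ?_
        rw [← hhi]; exact_mod_cast le_max_right _ _
      have k1 : ((102400 : ℕ) : ℝ) = 102400 := Nat.cast_ofNat
      rw [k1] at u2
      exact box_ge (by omega) h3 h6 hQ.jb (by linarith) (by linarith) (by linarith) (by linarith)
  · rw [hb, cond_true] at h1
    have hb' := Nat.le_of_ble_eq_true hb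
    have hb'' : (b1 : ℝ) ≤ r.M0 + 102400 := by exact_mod_cast hb'
    refine ⟨l, h1, ?_⟩
    intro b hb0 hb1 hb2
    exact h2 b hb0 hb1 (by linarith)

/-- The form at the sum. -/
theorem qC_ok {c0 c1 : ℕ} {k : ℕ → Bool} (h : qC r c0 c1 k = true) (hQ : Q4 r ys vs)
    (hp : 0 < ys.re + vs.re) :
    ∃ C : ℕ, k C = true ∧ ∀ c : ℝ, (c0 : ℝ) ≤ c * 25600 + 204800 →
      c * 25600 + 204800 ≤ c1 → -((C : ℝ) * (c - (ys.re + vs.re)) ^ 2) ≤
        2 * Dd (ys.im + vs.im) (ys.re + vs.re) c * 1048576 := by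
  unfold qC at h
  obtain ⟨h1, h⟩ := cond_and h
  have h1 := Nat.le_of_ble_eq_true h1
  have e1 : ∀ a b : ℕ, Nat.div a b = a / b := fun _ _ => rfl
  have e2 : ∀ a b : ℕ, Nat.sub a b = a - b := fun _ _ => rfl
  have e3 : ∀ a b : ℕ, Nat.add a b = a + b := fun _ _ => rfl
  have e4 : ∀ a b : ℕ, Nat.mul a b = a * b := fun _ _ => rfl
  simp only [e1, e2, e3, e4, fN_eq, mx_eq] at h
  obtain ⟨h2, h3⟩ := cond_and h
  have h2 := Nat.le_of_ble_eq_true h2
  obtain ⟨d, hd⟩ : ∃ d, r.P1 - 12800 = d := ⟨_, rfl⟩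
  obtain ⟨e, he⟩ : ∃ e, c1 - 217600 = e := ⟨_, rfl⟩
  rw [hd, he] at h2 h3
  -- the constant
  have hk : ∃ κ : ℕ, 0 < κ ∧ VB.KB ((κ : ℝ) / 100) (((max d e : ℕ) : ℝ) / 25600) ∧
      k ((κ * (2 * d + e) * 1048576 + 7679999) / 7680000) = true := by
    refine ⟨_, h2, ?_, h3⟩
    rcases hb1 : Nat.ble (max d e) 3072 with _ | _
    · rw [hb1, cond_false] at h2
      rcases hb2 : Nat.ble (max d e) 4096 with _ | _
      · rw [hb2, cond_false] at h2
        rcases hb3 : Nat.ble (max d e) 5120 with _ | _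
        · rw [hb3, cond_false] at h2
          exact absurd h2 (by norm_num)
        · simp only [cond_false, cond_true]
          have h5 : ((max d e : ℕ) : ℝ) ≤ 5120 := by exact_mod_cast Nat.le_of_ble_eq_true hb3
          have h6 := VB.KB_200.mono (e := ((max d e : ℕ) : ℝ) / 25600) (by
            rw [div_le_iff₀ (by norm_num)]
            linarith)
          convert h6 using 2
          norm_num
      · simp only [cond_false, cond_true]
        have h5 : ((max d e : ℕ) : ℝ) ≤ 4096 := by exact_mod_cast Nat.le_of_ble_eq_true hb2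
        have h6 := VB.KB_160.mono (e := ((max d e : ℕ) : ℝ) / 25600) (by
          rw [div_le_iff₀ (by norm_num)]
          linarith)
        convert h6 using 2
        norm_num
    · simp only [cond_true]
      have h5 : ((max d e : ℕ) : ℝ) ≤ 3072 := by exact_mod_cast Nat.le_of_ble_eq_true hb1
      have h6 := VB.KB_120.mono (e := ((max d e : ℕ) : ℝ) / 25600) (by
        rw [div_le_iff₀ (by norm_num)]
        linarith)
      convert h6 using 2
      norm_num
  obtain ⟨κ, hκ, hK, h4⟩ := hk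
  refine ⟨_, h4, ?_⟩
  intro c hc0 hc1
  have g0 : (204801 : ℝ) ≤ c0 := by exact_mod_cast h1
  have hc : 0 < c := by linarith
  have q1 : (r.P1 : ℝ) - ((12800 : ℕ) : ℝ) ≤ d := by
    rw [← hd]
    exact sub_cast _ _
  have q2 : (c1 : ℝ) - ((217600 : ℕ) : ℝ) ≤ e := by
    rw [← he]
    exact sub_cast _ _
  have k1 : ((12800 : ℕ) : ℝ) = 12800 := Nat.cast_ofNat
  have k2 : ((217600 : ℕ) : ℝ) = 217600 := Nat.cast_ofNat
  rw [k1] at q1
  rw [k2] at q2
  have P1 := hQ.P1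
  have m1 : (d : ℝ) ≤ ((max d e : ℕ) : ℝ) := by exact_mod_cast le_max_left _ _
  have m2 : (e : ℝ) ≤ ((max d e : ℕ) : ℝ) := by exact_mod_cast le_max_right _ _
  have z0 : (0 : ℝ) ≤ (κ : ℝ) / 100 := div_nonneg (Nat.cast_nonneg _) (by norm_num)
  have z1 : (0 : ℝ) ≤ (d : ℝ) / 25600 := div_nonneg (Nat.cast_nonneg _) (by norm_num)
  have z2 : (0 : ℝ) ≤ (e : ℝ) / 25600 := div_nonneg (Nat.cast_nonneg _) (by norm_num)
  have key := Dd_ge_beyond (s := ys.im + vs.im) (p := ys.re + vs.re) (c := c)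
    (δ := (d : ℝ) / 25600) (e := (e : ℝ) / 25600) hK z0 hp hc z1
    (by linarith only [q1, P1]) z2 (by linarith only [q2, hc1]) (by linarith only [m1])
    (by linarith only [m2])
  have l1 : (κ : ℝ) / 100 * (2 * ((d : ℝ) / 25600) + (e : ℝ) / 25600) / 3 * 1048576 ≤
      (((κ * (2 * d + e) * 1048576 + 7679999) / 7680000 : ℕ) : ℝ) := by
    have l2 : κ * (2 * d + e) * 1048576 ≤
        (κ * (2 * d + e) * 1048576 + 7679999) / 7680000 * 7680000 := by omega
    have l3 : (κ : ℝ) * (2 * d + e) * 1048576 ≤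
        (((κ * (2 * d + e) * 1048576 + 7679999) / 7680000 : ℕ) : ℝ) * 7680000 := by
      exact_mod_cast l2
    linarith
  have l4 := mul_le_mul_of_nonneg_right l1 (sq_nonneg (c - (ys.re + vs.re)))
  linarith

theorem dsq_le {a b c d : ℕ} {u v : ℝ} (h1 : (a : ℝ) ≤ u) (h2 : u ≤ b) (h3 : (c : ℝ) ≤ v)
    (h4 : v ≤ d) : ((dsq a b c d : ℕ) : ℝ) ≤ (u - v) ^ 2 := by
  unfold dsq
  rw [fN_eq]
  have e4 : ∀ a b : ℕ, Nat.mul a b = a * b := fun _ _ => rfl
  have e3 : ∀ a b : ℕ, Nat.add a b = a + b := fun _ _ => rfl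
  have e2 : ∀ a b : ℕ, Nat.sub a b = a - b := fun _ _ => rfl
  rw [e4, e3, e2, e2, Nat.cast_mul, Nat.cast_add, ← pow_two]
  have hab : a ≤ b := by exact_mod_cast h1.trans h2
  have hcd : c ≤ d := by exact_mod_cast h3.trans h4
  rcases le_total a d with h5 | h5
  · rcases le_total c b with h6 | h6
    · rw [Nat.sub_eq_zero_of_le h5, Nat.sub_eq_zero_of_le h6]
      simp only [Nat.cast_zero, add_zero, ne_eq, OfNat.ofNat_ne_zero, not_false_eq_true, zero_pow]
      exact sq_nonneg _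
    · rw [Nat.sub_eq_zero_of_le h5, Nat.cast_zero, zero_add, Nat.cast_sub h6]
      have h7 : (b : ℝ) ≤ c := by exact_mod_cast h6
      have e : (u - v) ^ 2 = (v - u) ^ 2 := by ring
      rw [e]
      exact pow_le_pow_left₀ (by linarith) (by linarith) 2
  · have h8 : c ≤ b := by omega
    rw [Nat.sub_eq_zero_of_le h8, Nat.cast_zero, add_zero, Nat.cast_sub h5]
    have h7 : (d : ℝ) ≤ a := by exact_mod_cast h5
    exact pow_le_pow_left₀ (by linarith) (by linarith) 2

theorem le_dsm {a b c d : ℕ} {u v : ℝ} (h1 : (a : ℝ) ≤ u) (h2 : u ≤ b) (h3 : (c : ℝ) ≤ v)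
    (h4 : v ≤ d) : (u - v) ^ 2 ≤ ((dsm a b c d : ℕ) : ℝ) := by
  unfold dsm
  rw [fN_eq]
  have e4 : ∀ a b : ℕ, Nat.mul a b = a * b := fun _ _ => rfl
  have e2 : ∀ a b : ℕ, Nat.sub a b = a - b := fun _ _ => rfl
  rw [e4, mx_eq, e2, e2, Nat.cast_mul, ← pow_two, Nat.cast_max]
  have h5 := sub_cast b c
  have h6 := sub_cast d a
  have h7 := le_max_left ((b - c : ℕ) : ℝ) ((d - a : ℕ) : ℝ)
  have h8 := le_max_right ((b - c : ℕ) : ℝ) ((d - a : ℕ) : ℝ)
  apply sq_le_sq'
  · linarith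
  · linarith

/-- The form is positive. -/
theorem form_pos {A B C m p : ℝ} (hA : 0 ≤ A) (hB : 0 ≤ B) (hC : 0 ≤ C) (h1 : C < B)
    (h2 : C * (A + 2 * B) < A * B) (hne : ¬(m = 0 ∧ p = 0)) :
    0 < 2 * A * ((m + p) / 2) ^ 2 + B * m ^ 2 - C * p ^ 2 := by
  have hB' : 0 < B := lt_of_le_of_lt hC h1
  have e : (A / 2 + B) * (2 * A * ((m + p) / 2) ^ 2 + B * m ^ 2 - C * p ^ 2) =
      ((A / 2 + B) * m + A / 2 * p) ^ 2 + (A * B - C * (A + 2 * B)) / 2 * p ^ 2 := by ring
  have hs : 0 < A / 2 + B := by linarith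
  have hd : 0 < (A * B - C * (A + 2 * B)) / 2 := by linarith
  have key : 0 < (A / 2 + B) * (2 * A * ((m + p) / 2) ^ 2 + B * m ^ 2 - C * p ^ 2) := by
    rw [e]
    rcases eq_or_ne p 0 with hp | hp
    · have hm : m ≠ 0 := fun hm => hne ⟨hm, hp⟩
      rw [hp]
      have : 0 < (A / 2 + B) * m ∨ (A / 2 + B) * m < 0 := by
        rcases lt_or_gt_of_ne hm with h | h
        · exact Or.inr (mul_neg_of_pos_of_neg hs h)
        · exact Or.inl (mul_pos hs h)
      have h3 : (A / 2 + B) * m ≠ 0 := mul_ne_zero hs.ne' hm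
      have := pow_pos (abs_pos.2 h3) 2
      rw [sq_abs] at this
      simpa using this
    · have : 0 < (A * B - C * (A + 2 * B)) / 2 * p ^ 2 := mul_pos hd (by positivity)
      have := sq_nonneg ((A / 2 + B) * m + A / 2 * p)
      linarith
  exact (mul_pos_iff_of_pos_left hs).1 key

/-- **A tile close to the critical point.** -/
theorem qt_ok {ta tb xa xb : ℕ} (h : qt r ta tb xa xb = true) (hQ : Q4 r ys vs)
    (hp : 0 < ys.re + vs.re) {t x : ℝ} (ht : Ps ta tb t) (hx : Ps xa xb x) (hb : -1 < t - x)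
    (hne : ¬(t = ys.re ∧ x = vs.re)) : 0 < VB.Fl vs.re vs.im ys.re ys.im t x := by
  unfold qt at h
  obtain ⟨A, h, hA⟩ := qA_ok h hQ
  rw [fN_eq, fN_eq] at h
  obtain ⟨B, h, hB⟩ := qB_ok h hQ
  rw [fN_eq, fN_eq] at h
  obtain ⟨C, h, hC⟩ := qC_ok h hQ hp
  have t0 := ht.1
  have t1 := ht.2
  have x0 := hx.1
  have x1 := hx.2
  have e2 : ∀ a b : ℕ, Nat.sub a b = a - b := fun _ _ => rfl
  have e3 : ∀ a b : ℕ, Nat.add a b = a + b := fun _ _ => rfl
  have e4 : ∀ a b : ℕ, Nat.mul a b = a * b := fun _ _ => rfl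
  rw [e3, e3] at hC
  rw [e2, e2, e3, e3] at hB
  have b0 : (((ta + 102400 - xb : ℕ)) : ℝ) ≤ (t - x) * 25600 + 102400 := by
    rcases le_total xb (ta + 102400) with h1 | h1
    · rw [Nat.cast_sub h1]
      push_cast
      linarith
    · rw [Nat.sub_eq_zero_of_le h1, Nat.cast_zero]
      linarith
  have b1 : (t - x) * 25600 + 102400 ≤ (((tb + 102400 - xa : ℕ)) : ℝ) := by
    refine le_trans ?_ (sub_cast _ _)
    push_cast
    linarith
  have c0 : ((ta + xa : ℕ) : ℝ) ≤ (t + x) * 25600 + 204800 := by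
    push_cast
    linarith
  have c1 : (t + x) * 25600 + 204800 ≤ ((tb + xb : ℕ) : ℝ) := by
    push_cast
    linarith
  have kA := hA t ht
  have kB := hB (t - x) hb b0 b1
  have kC := hC (t + x) c0 c1
  have nA : (0 : ℝ) ≤ A := Nat.cast_nonneg _
  have nB : (0 : ℝ) ≤ B := Nat.cast_nonneg _
  have nC : (0 : ℝ) ≤ C := Nat.cast_nonneg _
  set m := t - x - (ys.re - vs.re) with hm
  set p := t + x - (ys.re + vs.re) with hpp
  have et : t - ys.re = (m + p) / 2 := by
    rw [hm, hpp]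
    ring
  rw [et] at kA
  have hF : 2 * A * ((m + p) / 2) ^ 2 + B * m ^ 2 - C * p ^ 2 ≤
      2 * VB.Fl vs.re vs.im ys.re ys.im t x * 1048576 := by
    unfold VB.Fl
    linarith
  have hne' : ¬(m = 0 ∧ p = 0) := by
    rintro ⟨q1, q2⟩
    apply hne
    constructor
    · linarith
    · linarith
  have hpos : 0 < 2 * (A : ℝ) * ((m + p) / 2) ^ 2 + B * m ^ 2 - C * p ^ 2 := by
    rcases hc : cond (Nat.ble (Nat.succ C) B) (Nat.ble (Nat.succ (Nat.mul C (Nat.add A
        (Nat.mul 2 B)))) (Nat.mul A B)) false with _ | _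
    · rw [hc, cond_false] at h
      have h1 := Nat.le_of_ble_eq_true h
      have h2 : C * dsm (Nat.add ta xa) (Nat.add tb xb) (Nat.add r.P0 204800)
          (Nat.add r.P1 204800) < 2 * A * dsq ta tb (Nat.add r.T0 102400) (Nat.add r.T1 102400) +
          B * dsq (Nat.sub (Nat.add ta 102400) xb) (Nat.sub (Nat.add tb 102400) xa)
            (Nat.add r.M0 102400) (Nat.add r.M1 102400) := h1
      simp only [e2, e3] at h2
      have h3 : (C : ℝ) * ((dsm (ta + xa) (tb + xb) (r.P0 + 204800) (r.P1 + 204800) : ℕ) : ℝ) <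
          2 * A * ((dsq ta tb (r.T0 + 102400) (r.T1 + 102400) : ℕ) : ℝ) +
          B * ((dsq (ta + 102400 - xb) (tb + 102400 - xa) (r.M0 + 102400) (r.M1 + 102400) : ℕ) :
            ℝ) := by exact_mod_cast h2
      have T0 := hQ.T0
      have T1 := hQ.T1
      have M0 := hQ.M0
      have M1 := hQ.M1
      have P0 := hQ.P0
      have P1 := hQ.P1
      have d1 := dsq_le (c := r.T0 + 102400) (d := r.T1 + 102400)
        (v := ys.re * 25600 + 102400) t0 t1 (by push_cast; linarith) (by push_cast; linarith)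
      have d2 := dsq_le (c := r.M0 + 102400) (d := r.M1 + 102400)
        (v := (ys.re - vs.re) * 25600 + 102400) b0 b1 (by push_cast; linarith)
        (by push_cast; linarith)
      have d3 := le_dsm (c := r.P0 + 204800) (d := r.P1 + 204800)
        (v := (ys.re + vs.re) * 25600 + 204800) c0 c1 (by push_cast; linarith)
        (by push_cast; linarith)
      have q1 : (t * 25600 + 102400 - (ys.re * 25600 + 102400)) ^ 2 =
          ((m + p) / 2) ^ 2 * 655360000 := by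
        rw [← et]
        ring
      have q2 : ((t - x) * 25600 + 102400 - ((ys.re - vs.re) * 25600 + 102400)) ^ 2 =
          m ^ 2 * 655360000 := by
        rw [hm]
        ring
      have q3 : ((t + x) * 25600 + 204800 - ((ys.re + vs.re) * 25600 + 204800)) ^ 2 =
          p ^ 2 * 655360000 := by
        rw [hpp]
        ring
      rw [q1] at d1
      rw [q2] at d2
      rw [q3] at d3
      have r1 := mul_le_mul_of_nonneg_left d1 (mul_nonneg zero_le_two nA)
      have r2 := mul_le_mul_of_nonneg_left d2 nB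
      have r3 := mul_le_mul_of_nonneg_left d3 nC
      have r4 : 0 < (2 * (A : ℝ) * ((m + p) / 2) ^ 2 + B * m ^ 2 - C * p ^ 2) * 655360000 := by
        linarith
      linarith
    · obtain ⟨h1, h2⟩ := cond_and hc
      have h1 : C < B := Nat.le_of_ble_eq_true h1
      have h2 : C * (A + 2 * B) < A * B := Nat.le_of_ble_eq_true h2
      have h1' : (C : ℝ) < B := Nat.cast_lt.2 h1
      have h2' : (C : ℝ) * (A + 2 * B) < A * B := by
        have := (Nat.cast_lt (α := ℝ)).2 h2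
        push_cast at this
        exact this
      exact form_pos nA nB nC h1' h2' hne'
  linarith

end Pool.Agent.S5.Tb
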