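import Pool.Agent.S5.I.FqS

/-!
# Flats of an end with `a = 4`
-/

set_option autoImplicit false

namespace Pool.Agent.S5.Tb

open Pool.Agent.H63.VC3 Pool.Agent.S3 Complex MeasureTheory Filter Topology Set

variable {r : Rd} {g : Gd} {ys vs : ℂ}

theorem eF_ok (hE : TabOK) (hG : GOK g) {l : ℤ} {ta tb xa xb : ℕ} (h : eF g l ta tb xa xb = true)
    (hP : P4 ((2 : ℕ) : ℝ) g ys vs) {y v : ℂ} (hy : y.im = ys.im) (hv : v.im = vs.im)
    (ht : Ps ta tb y.re) (hx : Ps xa xb v.re) (hx1 : |v.re| ≤ 1 / 2)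
    (hl : 200 * (l : ℝ) * y.re - l * g.a ≤
      (ly ((2 : ℕ) : ℝ) ys vs).re * (y.re - g.a / 200) * 1048576) :
    Vw ((2 : ℕ) : ℝ) y v - pla ((2 : ℕ) : ℝ) ys vs y < 0 := by
  unfold eF at h
  have n0 := hP.n.1
  have n1 := hP.n.2
  have q0 : (102400 : ℝ) < g.n0 := by exact_mod_cast hG.n0
  have q1 : (g.n1 : ℝ) ≤ 108800 := by exact_mod_cast hG.n1
  have h1 := cl_ok hE h ht (by rw [hy]; exact hP.e) hx (by rw [hv]; exact hP.n) hx1
    (by rw [hv]; linarith) (by rw [hv]; linarith)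
  have h2 := flat_bd (H := 0) hP hy hl (by ring) rfl rfl h1
  rw [Int.cast_zero] at h2
  linarith

theorem et_ok (hE : TabOK) (hG : GOK g) {ta tb xa xb : ℕ} (h : et g ta tb xa xb = true)
    (hP : P4 ((2 : ℕ) : ℝ) g ys vs) {y v : ℂ} (hy : y.im = ys.im) (hv : v.im = vs.im)
    (ht : Ps ta tb y.re) (hx : Ps xa xb v.re) (hx1 : |v.re| ≤ 1 / 2) :
    Vw ((2 : ℕ) : ℝ) y v - pla ((2 : ℕ) : ℝ) ys vs y < 0 := by
  unfold et at h
  have htp := hG.tp
  have t0 := ht.1
  have t1 := ht.2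
  rcases hb : Nat.ble tb g.tp with _ | _
  · rw [hb, cond_false] at h
    rcases hb2 : Nat.ble g.tp ta with _ | _
    · rw [hb2, cond_false] at h
      obtain ⟨h1, h2⟩ := cond_and h
      rcases le_total y.re ((g.a : ℝ) / 200) with h3 | h3
      · exact eF_ok hE hG h1 hP hy hv ⟨t0, by rw [htp]; linarith⟩ hx hx1 (hP.left h3)
      · exact eF_ok hE hG h2 hP hy hv ⟨by rw [htp]; linarith, t1⟩ hx hx1 (hP.right h3)
    · rw [hb2, cond_true] at h
      have h4 : (g.tp : ℝ) ≤ ta := by exact_mod_cast Nat.le_of_ble_eq_true hb2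
      rw [htp] at h4
      exact eF_ok hE hG h hP hy hv ht hx hx1 (hP.right (by linarith))
  · rw [hb, cond_true] at h
    have h4 : (tb : ℝ) ≤ g.tp := by exact_mod_cast Nat.le_of_ble_eq_true hb
    rw [htp] at h4
    exact eF_ok hE hG h hP hy hv ht hx hx1 (hP.left (by linarith))

theorem tr_succ (n ta tb xa xb c : ℕ) (k : ℕ → Bool) : tr r g (n + 1) ta tb xa xb c k =
    fN (fun d => fN (fun c =>
      cond (Nat.ble d 1)
        (cond (cond (Nat.ble d 0) (qt r ta tb xa xb) (et g ta tb xa xb)) (k c) false)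
        (cond (Nat.ble d 2)
          (fN (fun m => tr r g n ta m xa xb c (fun c => tr r g n m tb xa xb c k))
            (Nat.div (Nat.add ta tb) 2))
          (fN (fun m => tr r g n ta tb xa m c (fun c => tr r g n ta tb m xb c k))
            (Nat.div (Nat.add xa xb) 2))))
      (Nat.div c 4)) (Nat.mod c 4) := by
  unfold tr
  with_reducible rfl

/-- Soundness of the tree. -/
theorem tr_ok {R : ℝ → ℝ → Prop}
    (hq : ∀ ta tb xa xb, qt r ta tb xa xb = true → ∀ t x, Ps ta tb t → Ps xa xb x → R t x)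
    (he : ∀ ta tb xa xb, et g ta tb xa xb = true → ∀ t x, Ps ta tb t → Ps xa xb x → R t x) (n : ℕ) :
    ∀ (ta tb xa xb c : ℕ) (k : ℕ → Bool), tr r g n ta tb xa xb c k = true →
      (∀ t x, Ps ta tb t → Ps xa xb x → R t x) ∧ ∃ c', k c' = true := by
  induction n with
  | zero =>
    intro ta tb xa xb c k h
    exact absurd (show false = true from h) (by simp)
  | succ n ih =>
    intro ta tb xa xb c k h
    rw [tr_succ, fN_eq, fN_eq] at h
    generalize Nat.div c 4 = c1 at h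
    rcases hb : Nat.ble (Nat.mod c 4) 1 with _ | _
    · rw [hb, cond_false] at h
      rcases hb2 : Nat.ble (Nat.mod c 4) 2 with _ | _
      · rw [hb2, cond_false, fN_eq] at h
        generalize Nat.div (Nat.add xa xb) 2 = m at h
        obtain ⟨h1, c2, h2⟩ := ih _ _ _ _ _ _ h
        obtain ⟨h3, h4⟩ := ih _ _ _ _ _ _ h2
        refine ⟨?_, h4⟩
        intro t x ht hx
        rcases le_total (x * 25600 + 102400) m with h5 | h5
        · exact h1 t x ht ⟨hx.1, h5⟩
        · exact h3 t x ht ⟨h5, hx.2⟩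
      · rw [hb2, cond_true, fN_eq] at h
        generalize Nat.div (Nat.add ta tb) 2 = m at h
        obtain ⟨h1, c2, h2⟩ := ih _ _ _ _ _ _ h
        obtain ⟨h3, h4⟩ := ih _ _ _ _ _ _ h2
        refine ⟨?_, h4⟩
        intro t x ht hx
        rcases le_total (t * 25600 + 102400) m with h5 | h5
        · exact h1 t x ⟨ht.1, h5⟩ hx
        · exact h3 t x ⟨h5, ht.2⟩ hx
    · rw [hb, cond_true] at h
      obtain ⟨h1, h2⟩ := cond_and h
      refine ⟨?_, c1, h2⟩
      rcases hb2 : Nat.ble (Nat.mod c 4) 0 with _ | _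
      · rw [hb2, cond_false] at h1
        exact he _ _ _ _ h1
      · rw [hb2, cond_true] at h1
        exact hq _ _ _ _ h1

/-- **Flats.** -/
theorem flt_ok (hE : TabOK) (hG : GOK g) {c : ℕ} (h : flt r g c = true)
    (hP : P4 ((2 : ℕ) : ℝ) g ys vs) (hQ : Q4 r ys vs) (hi : vs.im ≠ 0)
    (he : 2 * Real.pi * I * (1 - 4 * vs) + lv ys vs = 0) (hp : 0 < ys.re + vs.re) {y v : ℂ}
    (hy : y.im = ys.im) (h1 : 3 / 20 ≤ y.re) (h2 : y.re ≤ 1 / 2) (hv : v.im = vs.im)
    (h3 : |v.re| ≤ 3 / 10) : Es ys vs y v < 0 ∨ (y = ys ∧ v = vs) := by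
  unfold flt at h
  have hv' := abs_le.1 h3
  have key := (tr_ok (r := r) (g := g) (R := fun t x => -1 < t - x → |x| ≤ 1 / 2 → ∀ y v : ℂ,
      y.re = t → v.re = x → y.im = ys.im → v.im = vs.im →
      Es ys vs y v < 0 ∨ (y = ys ∧ v = vs)) (by
    intro ta tb xa xb h t x ht hx hb _ y v e1 e2 hy hv
    by_cases hne : t = ys.re ∧ x = vs.re
    · right
      exact ⟨Complex.ext (e1.trans hne.1) hy, Complex.ext (e2.trans hne.2) hv⟩
    · left
      rw [Es_flat hy hv, e1, e2]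
      have := qt_ok h hQ hp ht hx hb hne
      linarith) (by
    intro ta tb xa xb h t x ht hx _ hx1 y v e1 e2 hy hv
    left
    rw [← e1] at ht
    rw [← e2] at hx hx1
    have k1 := et_ok hE hG h hP hy hv ht hx hx1
    have k2 := Es_four hi he 0 y v
    rw [zero_mul, add_zero, add_zero] at k2
    rw [k2]
    rw [Nat.cast_ofNat] at k1
    exact k1) 20 _ _ _ _ _ _ h).1
  refine key y.re v.re ⟨?_, ?_⟩ ⟨?_, ?_⟩ (by linarith) (by linarith) y v rfl rfl hy hv
  · rw [Nat.cast_ofNat]; linarith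
  · rw [Nat.cast_ofNat]; linarith
  · rw [Nat.cast_ofNat]; linarith
  · rw [Nat.cast_ofNat]; linarith

end Pool.Agent.S5.Tb
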