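import Pool.Agent.S5.I.VRc

/-!
# The right leg of a slot
-/

set_option autoImplicit false

namespace Pool.Agent.S5

open Pool.Agent.H63.VC3 Pool.Agent.S3 Complex MeasureTheory Filter Topology Set

/-! ### The argument close to the pole -/

private theorem vr_arctan_ge {x : ℝ} (hx : 0 ≤ x) : x - x ^ 3 / 3 ≤ Real.arctan x := by
  have hm : MonotoneOn (fun x : ℝ => Real.arctan x - (x - x ^ 3 / 3)) (Ici 0) := by
    apply monotoneOn_of_hasDerivWithinAt_nonneg (convex_Ici _)
      (f' := fun x => 1 / (1 + x ^ 2) - (1 - x ^ 2))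
    · apply ContinuousOn.sub Real.continuous_arctan.continuousOn (by fun_prop)
    · intro v _
      have h := (Real.hasDerivAt_arctan v).sub ((hasDerivAt_id v).sub
        ((hasDerivAt_pow 3 v).div_const 3))
      refine (h.congr_deriv ?_).hasDerivWithinAt
      simp only [Nat.add_one_sub_one]
      push_cast
      ring
    · intro v _
      have e : 1 / (1 + v ^ 2) - (1 - v ^ 2) = v ^ 4 / (1 + v ^ 2) := by
        field_simp
        ring
      rw [e]
      positivity
  have := hm (mem_Ici.2 le_rfl) (mem_Ici.2 hx) hx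
  simp at this
  linarith

private theorem vr_sinh_le {x : ℝ} (hx : 0 ≤ x) : Real.sinh x ≤ x * Real.cosh x := by
  have hm : MonotoneOn (fun x : ℝ => x * Real.cosh x - Real.sinh x) (Ici 0) := by
    apply monotoneOn_of_hasDerivWithinAt_nonneg (convex_Ici _) (f' := fun x => x * Real.sinh x)
    · fun_prop
    · intro v _
      have h := ((hasDerivAt_id' v).mul (Real.hasDerivAt_cosh v)).sub (Real.hasDerivAt_sinh v)
      refine (h.congr_deriv ?_).hasDerivWithinAt
      ring
    · intro v hv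
      rw [interior_Ici] at hv
      have hv0 : (0 : ℝ) < v := hv
      exact mul_nonneg hv0.le (Real.sinh_nonneg_iff.2 hv0.le)
  have := hm (mem_Ici.2 le_rfl) (mem_Ici.2 hx) hx
  simp at this
  linarith

theorem tv_le_arctan {r b K : ℝ} (h0 : 0 < r) (h1 : r ≤ 1 / 2) (hb : 0 ≤ b)
    (hK : Real.pi * Real.cot (Real.pi * r) ≤ K) : tv r b ≤ Real.arctan (K * b) := by
  have hpi := Real.pi_pos
  have hs : 0 < Real.sin (Real.pi * r) :=
    Real.sin_pos_of_pos_of_lt_pi (by positivity) (by nlinarith)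
  have hc : 0 ≤ Real.cos (Real.pi * r) :=
    Real.cos_nonneg_of_mem_Icc ⟨by nlinarith, by nlinarith⟩
  have hch := Real.cosh_pos (Real.pi * b)
  set z : ℂ := 2 * sin (Real.pi * ((r : ℂ) + b * I)) with hz
  have ez : z = ((2 * (Real.sin (Real.pi * r) * Real.cosh (Real.pi * b)) : ℝ) : ℂ) +
      ((2 * (Real.cos (Real.pi * r) * Real.sinh (Real.pi * b)) : ℝ) : ℂ) * I := by
    rw [hz]
    have e1 : (Real.pi * ((r : ℂ) + b * I)) =
        ((Real.pi * r : ℝ) : ℂ) + ((Real.pi * b : ℝ) : ℂ) * I := by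
      push_cast
      ring
    rw [e1, sin_add_mul_I, ← ofReal_sin, ← ofReal_cosh, ← ofReal_cos, ← ofReal_sinh]
    push_cast
    ring
  have r1 : z.re = 2 * (Real.sin (Real.pi * r) * Real.cosh (Real.pi * b)) := by
    rw [ez, line_re]
  have i1 : z.im = 2 * (Real.cos (Real.pi * r) * Real.sinh (Real.pi * b)) := by
    rw [ez, line_im]
  have hre : 0 < z.re := by
    rw [r1]
    positivity
  have harg : |arg z| < Real.pi / 2 := abs_arg_lt_pi_div_two_iff.2 (Or.inl hre)
  have h2 := abs_lt.1 harg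
  have e3 : tv r b = Real.arctan (z.im / z.re) := by
    rw [← Complex.tan_arg, Real.arctan_tan (by linarith) h2.2, hz, tv, hh, log_im]
  rw [e3]
  apply Real.arctan_mono
  rw [r1, i1, mul_div_mul_left _ _ two_ne_zero, div_le_iff₀ (by positivity)]
  have h4 := vr_sinh_le (x := Real.pi * b) (by positivity)
  have h5 : Real.cos (Real.pi * r) * Real.sinh (Real.pi * b) ≤
      Real.cos (Real.pi * r) * (Real.pi * b * Real.cosh (Real.pi * b)) :=
    mul_le_mul_of_nonneg_left h4 hc
  have h6 : Real.pi * Real.cos (Real.pi * r) ≤ K * Real.sin (Real.pi * r) := by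
    rw [Real.cot_eq_cos_div_sin, ← mul_div_assoc, div_le_iff₀ hs] at hK
    exact hK
  have h7 := mul_le_mul_of_nonneg_right h6 (show 0 ≤ b * Real.cosh (Real.pi * b) by positivity)
  linarith

theorem tv_pole {r b : ℝ} (h0 : 75 / 1000 ≤ r) (h1 : r ≤ 1 / 2) (hb : 0 ≤ b)
    (hb1 : b ≤ 165 / 1000) : tv r b ≤ 11412 / 10000 := by
  have h2 := tv_le_arctan (K := 131 / 10) (by linarith) h1 hb
    (pi_cot_le_of (r0 := 75 / 1000) (by norm_num) h0 h1 (by unfold kz; norm_num))
  refine h2.trans ?_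
  have h3 : Real.arctan (131 / 10 * b) ≤ Real.arctan (21615 / 10000) :=
    Real.arctan_mono (by linarith)
  refine h3.trans ?_
  have h4 := Real.arctan_inv_of_pos (x := 10000 / 21615) (by norm_num)
  have h5 := vr_arctan_ge (x := 10000 / 21615) (by norm_num)
  have h6 := Real.pi_lt_d6
  rw [show ((10000 : ℝ) / 21615)⁻¹ = 21615 / 10000 by norm_num] at h4
  rw [h4]
  norm_num at h5 ⊢
  linarith

theorem hh_im_eq (z : ℂ) : (hh z).im = tv z.re z.im := by
  unfold tv
  rw [re_add_im]

/-! ### Bounds of the arguments at the critical point -/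

theorem VU.q0 {ys vs : ℂ} (H : VU ys vs) : 158 / 1000 ≤ 1 / 2 - ys.re := by
  linarith [H.t1]

theorem VU.q1 {ys vs : ℂ} (H : VU ys vs) : 1 / 2 - ys.re ≤ 1 / 2 := by
  linarith [H.t0]

theorem vP_eq (ys : ℂ) : (hh (1 / 2 - ys)).im = tv (1 / 2 - ys.re) (-ys.im) := by
  rw [hh_im_eq]
  congr 1 <;> simp

theorem vK_q {ys vs : ℂ} (H : VU ys vs) :
    Real.pi * Real.cot (Real.pi * (1 / 2 - ys.re)) ≤ 581 / 100 :=
  pi_cot_le_of (r0 := 158 / 1000) (by norm_num) H.q0 H.q1 (by unfold kz; norm_num)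

theorem vK_A {ys vs : ℂ} (H : VU ys vs) :
    Real.pi * Real.cot (Real.pi * (ys.re - vs.re)) ≤ 131 / 10 :=
  pi_cot_le_of (r0 := 75 / 1000) (by norm_num) H.g (by linarith [H.t1, H.x0])
    (by unfold kz; norm_num)

/-- The edge angle, lower half plane. -/
theorem VU.P_neg {ys vs : ℂ} (H : VU ys vs) (h : ys.im ≤ 0) :
    (hh (1 / 2 - ys)).im ≤ 581 / 100 * (-ys.im) := by
  rw [vP_eq]
  exact tv_le (by linarith [H.q0]) H.q1 (by linarith) (vK_q H)

/-- The edge angle, upper half plane. -/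
theorem VU.P_pos {ys vs : ℂ} (H : VU ys vs) (h : 0 ≤ ys.im) :
    -(581 / 100 * ys.im) ≤ (hh (1 / 2 - ys)).im := by
  rw [vP_eq, tv_neg (by linarith [H.q0]) (by linarith [H.q1])]
  have := tv_le (by linarith [H.q0]) H.q1 h (vK_q H)
  linarith

theorem VU.A_neg {ys vs : ℂ} (H : VU ys vs) (h : ys.im ≤ vs.im) :
    -(hh (ys - vs)).im ≤ 11412 / 10000 ∧ -(hh (ys - vs)).im ≤ 131 / 10 * (vs.im - ys.im) := by
  rw [hh_im_eq, sub_re, sub_im, ← tv_neg (by linarith [H.g]) (by linarith [H.t1, H.x0]), neg_sub]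
  exact ⟨tv_pole H.g (by linarith [H.t1, H.x0]) (by linarith) H.d,
    tv_le (by linarith [H.g]) (by linarith [H.t1, H.x0]) (by linarith) (vK_A H)⟩

theorem VU.A_pos {ys vs : ℂ} (H : VU ys vs) (h : vs.im ≤ ys.im) :
    (hh (ys - vs)).im ≤ 131 / 10 * (ys.im - vs.im) := by
  rw [hh_im_eq, sub_re, sub_im]
  exact tv_le (by linarith [H.g]) (by linarith [H.t1, H.x0]) (by linarith) (vK_A H)

theorem VU.B_bd {ys vs : ℂ} (H : VU ys vs) :
    (0 ≤ ys.im + vs.im → -(701 / 1000 * (ys.im + vs.im)) ≤ (hh (ys + vs)).im ∧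
      (hh (ys + vs)).im ≤ 328 / 100 * (ys.im + vs.im)) ∧
    (ys.im + vs.im ≤ 0 → 328 / 100 * (ys.im + vs.im) ≤ (hh (ys + vs)).im ∧
      (hh (ys + vs)).im ≤ -(701 / 1000 * (ys.im + vs.im))) := by
  rw [hh_im_eq, add_re, add_im]
  have u0 : 245 / 1000 ≤ ys.re + vs.re := by linarith [H.t0, H.x0]
  have u1 := H.p
  set u := ys.re + vs.re
  set b := ys.im + vs.im
  rcases le_total u (1 / 2) with h | h
  · have hK : Real.pi * Real.cot (Real.pi * u) ≤ 328 / 100 :=
      pi_cot_le_of (r0 := 245 / 1000) (by norm_num) u0 h (by unfold kz; norm_num)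
    constructor
    · intro hb
      have k1 := tv_nonneg (by linarith) h hb
      have k2 := tv_le (by linarith) h hb hK
      exact ⟨by linarith, k2⟩
    · intro hb
      have k1 := tv_nonpos (by linarith) h hb
      have k2 := tv_le (by linarith) h (show 0 ≤ -b by linarith) hK
      rw [tv_neg (by linarith) (by linarith)] at k2
      exact ⟨by linarith, by linarith⟩
  · have e : tv u b = -tv (1 - u) b := by
      have := tv_one_sub (r := 1 - u) (by linarith) (by linarith) b
      rwa [sub_sub_cancel] at this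
    have hK : Real.pi * Real.cot (Real.pi * (1 - u)) ≤ 701 / 1000 :=
      pi_cot_le_of (r0 := 455 / 1000) (by norm_num) (by linarith) (by linarith)
        (by unfold kz; norm_num)
    rw [e]
    constructor
    · intro hb
      have k1 := tv_nonneg (r := 1 - u) (by linarith) (by linarith) hb
      have k2 := tv_le (r := 1 - u) (by linarith) (by linarith) hb hK
      exact ⟨by linarith, by linarith⟩
    · intro hb
      have k1 := tv_nonpos (r := 1 - u) (by linarith) (by linarith) hb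
      have k2 := tv_le (r := 1 - u) (by linarith) (by linarith) (show 0 ≤ -b by linarith) hK
      rw [tv_neg (by linarith) (by linarith)] at k2
      exact ⟨by linarith, by linarith⟩

/-! ### Differences of `gv` -/

theorem gk_hasDerivAt_s {r : ℝ} (h0 : 0 < r) (h1 : r ≤ 1 / 2) (h s : ℝ) :
    HasDerivAt (fun s => gv r (s - h) - gv r (s + h)) (tv r (s - h) - tv r (s + h)) s := by
  have d1 := (gv_hasDerivAt h0 (by linarith) (s - h)).comp s ((hasDerivAt_id' s).sub_const h)
  have d2 := (gv_hasDerivAt h0 (by linarith) (s + h)).comp s ((hasDerivAt_id' s).add_const h)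
  refine (d1.sub d2).congr_deriv ?_
  ring

theorem gk_hasDerivAt_h {r : ℝ} (h0 : 0 < r) (h1 : r ≤ 1 / 2) (s h : ℝ) :
    HasDerivAt (fun h => gv r (s - h) - gv r (s + h)) (-tv r (s - h) - tv r (s + h)) h := by
  have d1 := (gv_hasDerivAt h0 (by linarith) (s - h)).comp h ((hasDerivAt_id' h).const_sub s)
  have d2 := (gv_hasDerivAt h0 (by linarith) (s + h)).comp h ((hasDerivAt_id' h).const_add s)
  refine (d1.sub d2).congr_deriv ?_
  ring

theorem gk_anti {r h s1 s2 : ℝ} (h0 : 0 < r) (h1 : r ≤ 1 / 2) (hh : 0 ≤ h) (hs : s1 ≤ s2) :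
    gv r (s2 - h) - gv r (s2 + h) ≤ gv r (s1 - h) - gv r (s1 + h) := by
  have hm : Antitone fun s => gv r (s - h) - gv r (s + h) := by
    apply antitone_of_hasDerivAt_nonpos (f' := fun s => tv r (s - h) - tv r (s + h))
    · exact fun s => gk_hasDerivAt_s h0 h1 h s
    · intro s
      have := tv_mono h0 h1 (show s - h ≤ s + h by linarith)
      simp only [Pi.zero_apply]
      linarith
  exact hm hs

theorem gk_lip {r h s1 s2 K : ℝ} (h0 : 0 < r) (h1 : r ≤ 1 / 2) (hh : 0 ≤ h) (hs : s1 ≤ s2)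
    (hK : Real.pi * Real.cot (Real.pi * r) ≤ K) :
    gv r (s1 - h) - gv r (s1 + h) - (gv r (s2 - h) - gv r (s2 + h)) ≤
      2 * h * K * (s2 - s1) := by
  have hm : Monotone fun s => gv r (s - h) - gv r (s + h) + 2 * h * K * s := by
    apply monotone_of_hasDerivAt_nonneg
      (f' := fun s => tv r (s - h) - tv r (s + h) + 2 * h * K)
    · intro s
      have := (gk_hasDerivAt_s h0 h1 h s).add ((hasDerivAt_id' s).const_mul (2 * h * K))
      rwa [mul_one] at this
    · intro s
      have := tv_sub_le h0 h1 (show s - h ≤ s + h by linarith) hK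
      simp only [Pi.zero_apply]
      linarith
  have := hm hs
  simp only at this
  linarith

/-- Increments in the height of `v`. -/
theorem gk_h {r η K h1 h2 : ℝ} (r0 : 0 < r) (r1 : r ≤ 1 / 2) (hh : 0 ≤ h1) (hs : h1 ≤ h2)
    (hK : Real.pi * Real.cot (Real.pi * r) ≤ K) {c : ℝ} (hc0 : 0 ≤ c) (hc : 2 * K * η ≤ c) :
    gv r (η - h1) - gv r (η + h1) - (gv r (η - h2) - gv r (η + h2)) ≤ c * (h2 - h1) := by
  have hm : MonotoneOn (fun h => gv r (η - h) - gv r (η + h) + c * h) (Icc h1 h2) := by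
    apply monotoneOn_of_hasDerivWithinAt_nonneg (convex_Icc _ _)
      (f' := fun h => -tv r (η - h) - tv r (η + h) + c)
    · exact fun h _ => ((gk_hasDerivAt_h r0 r1 η h).add
        ((hasDerivAt_id' h).const_mul c)).continuousAt.continuousWithinAt
    · intro h _
      have := (gk_hasDerivAt_h r0 r1 η h).add ((hasDerivAt_id' h).const_mul c)
      rw [mul_one] at this
      exact this.hasDerivWithinAt
    · intro h _
      have e : -tv r (η - h) = tv r (h - η) := by
        rw [← tv_neg r0 (by linarith), neg_sub]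
      rw [e]
      rcases le_total η 0 with hη | hη
      · have := tv_mono r0 r1 (show η + h ≤ h - η by linarith)
        linarith
      · have := tv_sub_le r0 r1 (show h - η ≤ η + h by linarith) hK
        have e2 : K * (η + h - (h - η)) = 2 * K * η := by ring
        linarith
  have := hm ⟨le_rfl, hs⟩ ⟨hs, le_rfl⟩ hs
  simp only at this
  linarith

/-! ### The steps -/

theorem vK_r {a : ℝ} (h0 : 0 ≤ a) (h1 : a ≤ 7 / 25) :
    Real.pi * Real.cot (Real.pi * (1 / 2 - a)) ≤ 383 / 100 :=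
  pi_cot_le_of (r0 := 22 / 100) (by norm_num) (by linarith) (by linarith)
    (by unfold kz; norm_num)

theorem vK_a {a : ℝ} (h0 : 0 ≤ a) (h1 : a ≤ 7 / 25) :
    Real.pi * Real.cot (Real.pi * (1 / 2 - a)) ≤ 20 * a := by
  have hpi := Real.pi_pos
  have hpi2 := Real.pi_lt_d2
  have e : Real.pi * (1 / 2 - a) = Real.pi / 2 - Real.pi * a := by ring
  rw [e, Real.cot_eq_cos_div_sin, Real.cos_pi_div_two_sub, Real.sin_pi_div_two_sub]
  have hw0 : 0 ≤ Real.pi * a := by positivity
  have hw1 : Real.pi * a ≤ 882 / 1000 := by nlinarith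
  have hc := Real.one_sub_sq_div_two_le_cos (x := Real.pi * a)
  have hc1 : 6 / 10 ≤ Real.cos (Real.pi * a) := by nlinarith
  have hs := Real.sin_le hw0
  rw [← mul_div_assoc, div_le_iff₀ (by linarith)]
  have k1 : Real.pi * Real.sin (Real.pi * a) ≤ Real.pi * (Real.pi * a) :=
    mul_le_mul_of_nonneg_left hs hpi.le
  have k2 : Real.pi * (Real.pi * a) ≤ 10 * a := by
    have : Real.pi * Real.pi ≤ 10 := by nlinarith
    nlinarith
  have k3 : 20 * a * (6 / 10) ≤ 20 * a * Real.cos (Real.pi * a) :=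
    mul_le_mul_of_nonneg_left hc1 (by positivity)
  linarith

/-- The left pieces of `v` follow from the right pieces. -/
theorem Er_left {ys vs : ℂ} (H : VU ys vs) {s a h : ℝ} (a0 : 0 ≤ a) (a1 : a ≤ 7 / 25)
    (h0 : 0 ≤ h) (hs : |s| + h ≤ 188 / 1000) : Er ys vs s (-a) h ≤ Er ys vs s a h := by
  have hn := H.n0
  have hb := H.b
  have hL : 8 ≤ Lamv ys vs / vs.im := by
    rw [le_div_iff₀ hn]
    exact hb
  have e1 : (1 / 2 - -a : ℝ) = 1 - (1 / 2 - a) := by ring
  have hsa := abs_le.1 (le_refl |s|)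
  have k := gv_sub_le (r := 1 / 2 - a) (b1 := s - h) (b2 := s + h) (B := 188 / 1000)
    (K := 20 * a) (by linarith) (by linarith) (by linarith) (vK_a a0 a1)
    (by linarith [hsa.1]) (by linarith [hsa.2])
  have k2 := (abs_le.1 k).2
  have k3 : 20 * a * (188 / 1000) * (s + h - (s - h)) = 752 / 100 * (a * h) := by ring
  rw [k3] at k2
  have k4 : 8 * (a * h) ≤ Lamv ys vs / vs.im * (a * h) :=
    mul_le_mul_of_nonneg_right hL (by positivity)
  unfold Er
  rw [e1, gv_one_sub, gv_one_sub]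
  have e2 : Lamv ys vs * (-a - vs.re) * h / vs.im =
      Lamv ys vs * (a - vs.re) * h / vs.im - 2 * (Lamv ys vs / vs.im * (a * h)) := by ring
  rw [e2]
  have : 0 ≤ a * h := by positivity
  linarith

/-- Real `v`. -/
theorem Er_real (ys vs : ℂ) (s a a' : ℝ) : Er ys vs s a 0 = Er ys vs s a' 0 := by
  unfold Er
  simp

/-- Motion of `y` along the leg, lower half plane. -/
theorem Er_s_neg {ys vs : ℂ} (H : VU ys vs) {s a h : ℝ} (a0 : 0 ≤ a) (a1 : a ≤ 7 / 25)
    (h0 : 0 ≤ h) (hs0 : ys.im ≤ s) (hs : s ≤ 0) :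
    Er ys vs s a h ≤ Er ys vs ys.im a h + 16 / 10000 := by
  have hη : ys.im ≤ 0 := hs0.trans hs
  have hpi := Real.pi_gt_d4
  have k := gk_anti (r := 1 / 2 - a) (by linarith) (by linarith) h0 hs0
  have p := H.P_neg hη
  have a2 := (H.A_neg (by linarith [H.n0])).1
  have b := H.B_bd
  have hL : 2 * (hh (1 / 2 - ys)).im - (hh (ys - vs)).im - (hh (ys + vs)).im - Real.pi ≤
      115 / 10000 := by
    rcases le_total 0 (ys.im + vs.im) with h2 | h2
    · have b2 := (b.1 h2).1
      have := H.n1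
      have := H.d
      linarith
    · have b2 := (b.2 h2).1
      have := H.e0
      have := H.n0
      linarith
  have m : (2 * (hh (1 / 2 - ys)).im - (hh (ys - vs)).im - (hh (ys + vs)).im - Real.pi) *
      (s - ys.im) ≤ 115 / 10000 * (135 / 1000) := by
    have hsd : s - ys.im ≤ 135 / 1000 := by linarith [H.e0]
    have hsd0 : 0 ≤ s - ys.im := by linarith
    calc _ ≤ 115 / 10000 * (s - ys.im) := mul_le_mul_of_nonneg_right hL hsd0
      _ ≤ _ := mul_le_mul_of_nonneg_left hsd (by norm_num)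
  unfold Er
  rw [abs_of_nonpos hs, abs_of_nonpos hη]
  linarith

/-- Motion of `y` along the leg, upper half plane. -/
theorem Er_s_pos {ys vs : ℂ} (H : VU ys vs) {s a h : ℝ} (a0 : 0 ≤ a) (a1 : a ≤ 7 / 25)
    (h0 : 0 ≤ h) (h1 : h ≤ vs.im) (hs0 : 0 ≤ s) (hs : s ≤ ys.im) :
    Er ys vs s a h ≤ Er ys vs ys.im a h := by
  have hη : 0 ≤ ys.im := hs0.trans hs
  have hpi := Real.pi_gt_d4
  have k := gk_lip (r := 1 / 2 - a) (by linarith) (by linarith) h0 hs (vK_r a0 a1)
  have p := H.P_pos hη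
  have b := (H.B_bd.1 (by linarith [H.n0])).2
  have e1 := H.e1
  have n1 := H.n1
  have hL : 2 * h * (383 / 100) ≤
      2 * (hh (1 / 2 - ys)).im - (hh (ys - vs)).im - (hh (ys + vs)).im + Real.pi := by
    rcases le_total ys.im vs.im with h2 | h2
    · have a2 : (hh (ys - vs)).im ≤ 0 := by
        rw [hh_im_eq, sub_re, sub_im]
        exact tv_nonpos (by linarith [H.g]) (by linarith [H.t1, H.x0]) (by linarith)
      linarith
    · have a2 := H.A_pos h2
      linarith
  have m := mul_le_mul_of_nonneg_right hL (show 0 ≤ ys.im - s by linarith)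
  unfold Er
  rw [abs_of_nonneg hs0, abs_of_nonneg hη]
  linarith

/-- Motion of `v` along the vertical piece. -/
theorem Er_h {ys vs : ℂ} (H : VU ys vs) {h c κ M : ℝ} (h0 : 0 ≤ h) (h1 : h ≤ vs.im)
    (hc0 : 0 ≤ c) (hc : 2 * (383 / 100) * ys.im ≤ c)
    (hκ : -(3 / 4) - (hh (ys - vs)).im + (hh (ys + vs)).im + c ≤ κ) (hκ0 : 0 ≤ κ)
    (hM : vs.im * κ ≤ M) :
    Er ys vs ys.im (7 / 25) h ≤ Er ys vs ys.im (7 / 25) vs.im + M := by
  have hn := H.n0
  have k := gk_h (r := 1 / 2 - 7 / 25) (η := ys.im) (by norm_num) (by norm_num) h0 h1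
    (vK_r (a := 7 / 25) (by norm_num) le_rfl) hc0 hc
  have hL : 3 / 4 ≤ Lamv ys vs * (7 / 25 - vs.re) / vs.im := by
    rw [le_div_iff₀ hn]
    exact H.b2
  have m1 := mul_le_mul_of_nonneg_right hL (show 0 ≤ vs.im - h by linarith)
  have m2 := mul_le_mul_of_nonneg_right hκ (show 0 ≤ vs.im - h by linarith)
  have m3 : κ * (vs.im - h) ≤ M := by nlinarith
  have e1 : Lamv ys vs * (7 / 25 - vs.re) * vs.im / vs.im =
      Lamv ys vs * (7 / 25 - vs.re) * h / vs.im +
        Lamv ys vs * (7 / 25 - vs.re) / vs.im * (vs.im - h) := by ring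
  unfold Er
  rw [e1]
  linarith

/-- The flats. -/
theorem Er_flat {ys vs : ℂ} (H : VU ys vs) {a : ℝ} (a0 : 0 ≤ a) (a1 : a ≤ 7 / 25) :
    Er ys vs ys.im a vs.im ≤ -(2 * Dd ys.im (1 / 2 - ys.re) 0) + 4266 / 100000 := by
  have hn := H.n0
  have e0 := Es_eq_Er (ys := ys) (vs := vs) (y := ((1 / 2 : ℝ) : ℂ) + ys.im * I)
    (v := (a : ℂ) + vs.im * I) hn.ne' (line_re _ _)
  rw [line_im, line_im, line_re] at e0
  rw [← e0]
  have t1 : Td (1 / 2 - ys) (1 / 2 - (((1 / 2 : ℝ) : ℂ) + ys.im * I)) =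
      -Dd ys.im (1 / 2 - ys.re) 0 := by
    have e1 : (1 / 2 - (((1 / 2 : ℝ) : ℂ) + ys.im * I) : ℂ) =
        ((0 : ℝ) : ℂ) + ((-ys.im : ℝ) : ℂ) * I := by
      push_cast
      ring
    have e2 : (1 / 2 - ys : ℂ).im = -ys.im := by simp
    have e3 : (1 / 2 - ys : ℂ).re = 1 / 2 - ys.re := by simp
    rw [e1, Td_eq_Dd (by rw [line_im, e2]), e2, e3, line_re, Dd_neg_im]
  have t2 : Td (ys - vs) (((1 / 2 : ℝ) : ℂ) + ys.im * I - ((a : ℂ) + vs.im * I)) ≤ 0 := by
    have e1 : (((1 / 2 : ℝ) : ℂ) + ys.im * I - ((a : ℂ) + vs.im * I)) =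
        ((1 / 2 - a : ℝ) : ℂ) + ((ys.im - vs.im : ℝ) : ℂ) * I := by
      push_cast
      ring
    rw [e1]
    apply Td_flat
    · rw [line_im, sub_im]
    · rw [line_re]
      linarith
    · rw [line_re]
      linarith
    · rw [sub_re]
      linarith [H.g]
    · rw [sub_re]
      linarith [H.t1, H.x0]
  have t3 : Td (ys + vs) (((1 / 2 : ℝ) : ℂ) + ys.im * I + ((a : ℂ) + vs.im * I)) ≤
      4266 / 100000 := by
    have e1 : (((1 / 2 : ℝ) : ℂ) + ys.im * I + ((a : ℂ) + vs.im * I)) =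
        ((1 / 2 + a : ℝ) : ℂ) + ((ys.im + vs.im : ℝ) : ℂ) * I := by
      push_cast
      ring
    have e2 : ys + vs = ((ys.re + vs.re : ℝ) : ℂ) + ((ys.im + vs.im : ℝ) : ℂ) * I := by
      rw [← add_re, ← add_im, re_add_im]
    rw [e1]
    conv_lhs => rw [e2]
    rw [Td_horizontal]
    exact Tp_le (by linarith [H.t0, H.x0]) H.p a0 a1
  have e4 : Es ys vs (((1 / 2 : ℝ) : ℂ) + ys.im * I) ((a : ℂ) + vs.im * I) =
      2 * Td (1 / 2 - ys) (1 / 2 - (((1 / 2 : ℝ) : ℂ) + ys.im * I)) +
        Td (ys - vs) (((1 / 2 : ℝ) : ℂ) + ys.im * I - ((a : ℂ) + vs.im * I)) +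
          Td (ys + vs) (((1 / 2 : ℝ) : ℂ) + ys.im * I + ((a : ℂ) + vs.im * I)) := by
    unfold Es Ev
    rw [line_im a vs.im, sub_self]
    push_cast
    ring
  rw [e4, t1]
  linarith

/-- The loss on the vertical piece. -/
theorem Er_num {ys vs : ℂ} (H : VU ys vs) : ∃ c κ M : ℝ, 0 ≤ c ∧ 2 * (383 / 100) * ys.im ≤ c ∧
    -(3 / 4) - (hh (ys - vs)).im + (hh (ys + vs)).im + c ≤ κ ∧ 0 ≤ κ ∧ vs.im * κ ≤ M ∧ 0 ≤ M ∧
    M + 4426 / 100000 < 2 * Dd ys.im (1 / 2 - ys.re) 0 := by
  have q0 := H.q0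
  have q1 := H.q1
  have n0 := H.n0
  have n1 := H.n1
  have d := H.d
  have e0 := H.e0
  have e1 := H.e1
  have b := H.B_bd
  rcases le_total ys.im 0 with hη | hη
  · have a2 := (H.A_neg (by linarith)).1
    -- lower half plane
    rcases le_total ys.im (-(1 / 10)) with h1 | h1
    · have b2 := (b.2 (by linarith)).2
      rcases le_total ys.im (-(12 / 100)) with h2 | h2
      · have hH := H135 q0 q1 (s := ys.im) (by rw [abs_of_nonpos hη]; linarith)
        refine ⟨0, 486 / 1000, 22 / 1000, le_rfl, by linarith, by linarith, by norm_num,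
          by linarith, by norm_num, by linarith⟩
      · have hH := H120 q0 q1 (s := ys.im) (by rw [abs_of_nonpos hη]; linarith)
        refine ⟨0, 486 / 1000, 32 / 1000, le_rfl, by linarith, by linarith, by norm_num,
          by linarith, by norm_num, by linarith⟩
    · rcases le_total ys.im (-(5 / 100)) with h2 | h2
      · have hH := H100 q0 q1 (s := ys.im) (by rw [abs_of_nonpos hη]; linarith)
        refine ⟨0, 52 / 100, 46 / 1000, le_rfl, by linarith, ?_, by norm_num,
          by linarith, by norm_num, by linarith⟩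
        rcases le_total 0 (ys.im + vs.im) with h3 | h3
        · have := (b.1 h3).2
          linarith
        · have := (b.2 h3).2
          linarith
      · have hH := H50 q0 q1 (s := ys.im) (by rw [abs_of_nonpos hη]; linarith)
        refine ⟨0, 7 / 10, 62 / 1000, le_rfl, by linarith, ?_, by norm_num,
          by linarith, by norm_num, by linarith⟩
        rcases le_total 0 (ys.im + vs.im) with h3 | h3
        · have := (b.1 h3).2
          linarith
        · have := (b.2 h3).2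
          linarith
  · have b2 := (b.1 (by linarith)).2
    rcases le_total ys.im (5 / 100) with h1 | h1
    · have hH := H50 q0 q1 (s := ys.im) (by rw [abs_of_nonneg hη]; linarith)
      refine ⟨766 / 100 * ys.im, 7 / 10, 62 / 1000, by positivity, by linarith, ?_, by norm_num,
        by linarith, by norm_num, by linarith⟩
      rcases le_total ys.im vs.im with h3 | h3
      · have := (H.A_neg h3).2
        linarith
      · have a2 : 0 ≤ (hh (ys - vs)).im := by
          rw [hh_im_eq, sub_re, sub_im]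
          exact tv_nonneg (by linarith [H.g]) (by linarith [H.t1, H.x0]) (by linarith)
        linarith
    · have hH := H100 q0 q1 (s := ys.im) (by rw [abs_of_nonneg hη]; linarith)
      refine ⟨766 / 100 * ys.im, 6334 / 10000, 558 / 10000, by positivity, by linarith, ?_,
        by norm_num, by linarith, by norm_num, by linarith⟩
      rcases le_total ys.im vs.im with h3 | h3
      · have := (H.A_neg h3).2
        linarith
      · have a2 : 0 ≤ (hh (ys - vs)).im := by
          rw [hh_im_eq, sub_re, sub_im]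
          exact tv_nonneg (by linarith [H.g]) (by linarith [H.t1, H.x0]) (by linarith)
        linarith

/-- All pieces on the right side, and the left side by reflection. -/
theorem Er_neg {ys vs : ℂ} (H : VU ys vs) {s a h : ℝ} (a1 : |a| ≤ 7 / 25)
    (h0 : 0 ≤ h) (h1 : h ≤ vs.im) (hs : s * (s - ys.im) ≤ 0)
    (hp : h = vs.im ∨ |a| = 7 / 25) : Er ys vs s a h < 0 := by
  have a0 := abs_nonneg a
  -- reduction to `a ≥ 0`
  have hsη : |s| ≤ |ys.im| ∧ ((ys.im ≤ s ∧ s ≤ 0) ∨ (0 ≤ s ∧ s ≤ ys.im)) := by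
    rcases lt_trichotomy s 0 with h2 | h2 | h2
    · have h3 : ys.im ≤ s := by
        by_contra h4
        push Not at h4
        nlinarith
      refine ⟨?_, Or.inl ⟨h3, h2.le⟩⟩
      rw [abs_of_neg h2, abs_of_nonpos (by linarith)]
      linarith
    · rw [h2]
      refine ⟨by simp, ?_⟩
      rcases le_total ys.im 0 with h3 | h3
      · exact Or.inl ⟨h3, le_rfl⟩
      · exact Or.inr ⟨le_rfl, h3⟩
    · have h3 : s ≤ ys.im := by
        by_contra h4
        push Not at h4
        nlinarith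
      refine ⟨?_, Or.inr ⟨h2.le, h3⟩⟩
      rw [abs_of_pos h2, abs_of_nonneg (by linarith)]
      linarith
  have hsh : |s| + h ≤ 188 / 1000 := by
    have := hsη.1
    rcases le_total ys.im 0 with h2 | h2
    · rw [abs_of_nonpos h2] at this
      linarith [H.d]
    · rw [abs_of_nonneg h2] at this
      linarith [H.n1, H.e1]
  have r1 : Er ys vs s a h ≤ Er ys vs s |a| h := by
    rcases le_total 0 a with h2 | h2
    · rw [abs_of_nonneg h2]
    · have := Er_left H (s := s) (a := |a|) a0 a1 h0 hsh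
      rw [abs_of_nonpos h2, neg_neg] at this
      rw [abs_of_nonpos h2]
      exact this
  have r2 : Er ys vs s |a| h ≤ Er ys vs ys.im |a| h + 16 / 10000 := by
    rcases hsη.2 with h2 | h2
    · exact Er_s_neg H a0 a1 h0 h2.1 h2.2
    · have := Er_s_pos H a0 a1 h0 h1 h2.1 h2.2
      linarith
  obtain ⟨c, κ, M, hc0, hc, hκ, hκ0, hM, hM0, hN⟩ := Er_num H
  have r3 : Er ys vs ys.im |a| h ≤ Er ys vs ys.im |a| vs.im + M := by
    rcases hp with h2 | h2
    · rw [h2]
      linarith
    · rw [h2]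
      exact Er_h H h0 h1 hc0 hc hκ hκ0 hM
  have r4 := Er_flat H a0 a1
  linarith

/-- The right leg. -/
theorem VNR_holds : VNR := by
  intro ys vs y v H hy hv
  rw [Es_eq_Er H.n0.ne' hy.1]
  rcases hv with hv | hv | hv
  · rw [hv.1]
    exact Er_neg H hv.2 H.n0.le le_rfl hy.2 (Or.inl rfl)
  · exact Er_neg H hv.1.le hv.2.1 hv.2.2 hy.2 (Or.inr hv.1)
  · rw [hv.1, Er_real ys vs y.im v.re (7 / 25)]
    have e : |(7 / 25 : ℝ)| = 7 / 25 := abs_of_pos (by norm_num)
    exact Er_neg H e.le le_rfl H.n0.le hy.2 (Or.inr e)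

end Pool.Agent.S5
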