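import Pool.Agent.S5.I.FqT
import Pool.Agent.S5.I.VR

/-!
# Vertical pieces of the contour of the variable of an end with `a = 4`, `y` on the flat piece
-/

set_option autoImplicit false

namespace Pool.Agent.S5.Tb

open Pool.Agent.H63.VC3 Pool.Agent.S3 Complex MeasureTheory Filter Topology Set

/-! ### The angle function -/

theorem tv_tan {r b : ℝ} (h0 : 0 < r) (h1 : r < 1) : Real.tan (tv r b) =
    (Real.cos (Real.pi * r) * Real.sinh (Real.pi * b)) /
      (Real.sin (Real.pi * r) * Real.cosh (Real.pi * b)) := by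
  have hpi := Real.pi_pos
  have hs : 0 < Real.sin (Real.pi * r) :=
    Real.sin_pos_of_pos_of_lt_pi (by positivity) (by nlinarith)
  have hch := Real.cosh_pos (Real.pi * b)
  set z : ℂ := 2 * sin (Real.pi * ((r : ℂ) + b * I)) with hz
  have ez : z = ((2 * (Real.sin (Real.pi * r) * Real.cosh (Real.pi * b)) : ℝ) : ℂ) +
      ((2 * (Real.cos (Real.pi * r) * Real.sinh (Real.pi * b)) : ℝ) : ℂ) * I := by
    rw [hz]
    have e1 : (Real.pi * ((r : ℂ) + b * I)) =
        ((Real.pi * r : ℝ) : ℂ) + ((Real.pi * b : ℝ) : ℂ) * I := by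
      push_cast
      ring
    rw [e1, sin_add_mul_I, ← ofReal_sin, ← ofReal_cosh, ← ofReal_cos, ← ofReal_sinh]
    push_cast
    ring
  have r1 : z.re = 2 * (Real.sin (Real.pi * r) * Real.cosh (Real.pi * b)) := by
    rw [ez, line_re]
  have i1 : z.im = 2 * (Real.cos (Real.pi * r) * Real.sinh (Real.pi * b)) := by
    rw [ez, line_im]
  rw [tv, hh, log_im, ← hz, Complex.tan_arg, r1, i1, mul_div_mul_left _ _ two_ne_zero]

theorem Lgd_cot (s r : ℝ) : (Real.pi * cot (Real.pi * ((r : ℂ) + s * I))).re = Lgd s r := by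
  rw [re_ofReal_mul, cot_re]
  unfold Lgd dn
  ring

theorem sinh_le_mul_cosh {x : ℝ} (hx : 0 ≤ x) : Real.sinh x ≤ x * Real.cosh x := by
  have hm : MonotoneOn (fun x : ℝ => x * Real.cosh x - Real.sinh x) (Ici 0) := by
    apply monotoneOn_of_hasDerivWithinAt_nonneg (convex_Ici _) (f' := fun x => x * Real.sinh x)
    · fun_prop
    · intro v _
      have h := ((hasDerivAt_id' v).mul (Real.hasDerivAt_cosh v)).sub (Real.hasDerivAt_sinh v)
      refine (h.congr_deriv ?_).hasDerivWithinAt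
      ring
    · intro v hv
      rw [interior_Ici] at hv
      have hv0 : (0 : ℝ) < v := hv
      exact mul_nonneg hv0.le (Real.sinh_nonneg_iff.2 hv0.le)
  have := hm (mem_Ici.2 le_rfl) (mem_Ici.2 hx) hx
  simp at this
  linarith

/-- Close to the pole, as long as the angle is not large. -/
theorem Lgd_pole {b s : ℝ} (h0 : 0 < b) (h1 : b ≤ 1 / 10) (hs0 : 0 ≤ s) (hs : s ≤ 2 / 25)
    (ht : tv b s ≤ 2 / 5 * Real.pi) : 47 / 20 ≤ Lgd s b := by
  have hpi := Real.pi_pos
  have hp1 := Real.pi_gt_d4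
  have hp2 := Real.pi_lt_d4
  have hS : 0 < Real.sin (Real.pi * b) :=
    Real.sin_pos_of_pos_of_lt_pi (by positivity) (by nlinarith)
  have hS1 : Real.sin (Real.pi * b) ≤ 31416 / 100000 :=
    (Real.sin_le (by positivity)).trans (by nlinarith)
  have hC : 95 / 100 ≤ Real.cos (Real.pi * b) := by
    have h2 := Real.one_sub_sq_div_two_le_cos (x := Real.pi * b)
    have h3 : (Real.pi * b) ^ 2 ≤ (31416 / 100000) ^ 2 :=
      pow_le_pow_left₀ (by positivity) (by nlinarith) 2
    norm_num at h3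
    linarith
  have hC1 := Real.cos_le_one (Real.pi * b)
  -- the hyperbolic functions
  set x := Real.pi * s with hx
  have hx0 : 0 ≤ x := by positivity
  have hx1 : x ≤ 25133 / 100000 := by rw [hx]; nlinarith
  have hH0 : 0 ≤ Real.sinh x := Real.sinh_nonneg_iff.2 hx0
  have hCh := Real.cosh_pos x
  have hHC : Real.sinh x * Real.cosh x ≤ 2684 / 10000 := by
    have h2 := sinh_le_mul_cosh hx0
    have h3 := Real.cosh_le_exp_half_sq x
    have h4 : Real.cosh x * Real.cosh x ≤ Real.exp (x ^ 2) := by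
      calc Real.cosh x * Real.cosh x ≤ Real.exp (x ^ 2 / 2) * Real.exp (x ^ 2 / 2) :=
            mul_le_mul h3 h3 hCh.le (Real.exp_pos _).le
        _ = Real.exp (x ^ 2) := by rw [← Real.exp_add]; ring_nf
    have h5 : x ^ 2 ≤ (25133 / 100000) ^ 2 := pow_le_pow_left₀ hx0 hx1 2
    have h6 : Real.exp (x ^ 2) ≤ 10675 / 10000 := by
      have h7 := Real.add_one_le_exp (-(x ^ 2))
      have h8 : Real.exp (-(x ^ 2)) * Real.exp (x ^ 2) = 1 := by
        rw [← Real.exp_add]
        simp
      have h9 := Real.exp_pos (x ^ 2)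
      norm_num at h5
      nlinarith
    calc Real.sinh x * Real.cosh x ≤ x * Real.cosh x * Real.cosh x :=
          mul_le_mul_of_nonneg_right h2 hCh.le
      _ = x * (Real.cosh x * Real.cosh x) := by ring
      _ ≤ 25133 / 100000 * (10675 / 10000) :=
          mul_le_mul hx1 (h4.trans h6) (by positivity) (by norm_num)
      _ ≤ 2684 / 10000 := by norm_num
  -- the angle
  have hT : Real.cos (Real.pi * b) * Real.sinh x ≤
      16 / 5 * (Real.sin (Real.pi * b) * Real.cosh x) := by
    have h2 : Real.tan (tv b s) ≤ 16 / 5 := by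
      have h3 : Real.tan (tv b s) ≤ Real.tan (2 / 5 * Real.pi) := by
        rcases ht.eq_or_lt with h | h
        · rw [h]
        · exact (Real.tan_lt_tan_of_lt_of_lt_pi_div_two
            (by linarith [tv_nonneg h0 (by linarith) hs0]) (by linarith) h).le
      have h4 : Real.tan (2 / 5 * Real.pi) = (Real.tan (Real.pi / 10))⁻¹ := by
        rw [← Real.tan_pi_div_two_sub]
        congr 1
        ring
      have h5 := Real.le_tan (x := Real.pi / 10) (by positivity) (by linarith)
      refine h3.trans ?_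
      rw [h4]
      calc (Real.tan (Real.pi / 10))⁻¹ ≤ (Real.pi / 10)⁻¹ := inv_anti₀ (by positivity) h5
        _ ≤ 16 / 5 := by
          rw [inv_le_comm₀ (by positivity) (by norm_num)]
          norm_num
          linarith
    rw [tv_tan h0 (by linarith), div_le_iff₀ (by positivity), ← hx] at h2
    exact h2
  have hK : Real.cos (Real.pi * b) * Real.sinh x ^ 2 ≤
      8589 / 10000 * Real.sin (Real.pi * b) := by
    have h2 := mul_le_mul_of_nonneg_right hT hH0
    have h3 := mul_le_mul_of_nonneg_left hHC hS.le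
    nlinarith
  -- conclusion
  have hd : dn s b = 2 * (Real.sinh x ^ 2 + Real.sin (Real.pi * b) ^ 2) := by
    unfold dn
    rw [show 2 * Real.pi * s = 2 * x by rw [hx]; ring, show 2 * Real.pi * b = 2 * (Real.pi * b) by ring,
      Real.cosh_two_mul, Real.cosh_sq, Real.cos_two_mul, Real.cos_sq']
    ring
  unfold Lgd
  rw [hd, show 2 * Real.pi * b = 2 * (Real.pi * b) by ring, Real.sin_two_mul,
    le_div_iff₀ (by positivity)]
  set S := Real.sin (Real.pi * b)
  set C := Real.cos (Real.pi * b)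
  set H := Real.sinh x
  have h2 : C * (47 / 20 * (H ^ 2 + S ^ 2)) ≤ C * (Real.pi * (S * C)) := by
    have h3 : 47 / 20 * (8589 / 10000 + C * S) ≤ Real.pi * C ^ 2 := by
      have h4 : C * S ≤ 1 * (31416 / 100000) := mul_le_mul hC1 hS1 hS.le zero_le_one
      have h5 : (95 / 100) ^ 2 ≤ C ^ 2 := pow_le_pow_left₀ (by norm_num) hC 2
      norm_num at h5
      nlinarith
    have h4 := mul_le_mul_of_nonneg_left h3 hS.le
    nlinarith
  have h3 := le_of_mul_le_mul_left h2 (by linarith)
  linarith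

/-! ### The vertical pieces -/

/-- The function of the height on the right vertical piece. -/
noncomputable def Ps0 (η b h : ℝ) : ℝ :=
  2 / 5 * Real.pi * h + gv b (η - h) + gv (b + 3 / 5) (η + h)

theorem gv_lip01 {a : ℝ} (h0 : 0 ≤ a) (h1 : a ≤ 1) (x y : ℝ) :
    |gv a x - gv a y| ≤ Real.pi / 2 * |x - y| := by
  have := Rf_lip01 h0 h1 x y
  unfold gv
  rw [neg_sub_neg, abs_sub_comm]
  exact this

theorem gv_lip11 {a : ℝ} (h0 : -1 ≤ a) (h1 : a ≤ 1) (x y : ℝ) :
    |gv a x - gv a y| ≤ 3 * Real.pi / 2 * |x - y| := by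
  have := Rf_lip11 h0 h1 x y
  unfold gv
  rw [neg_sub_neg, abs_sub_comm]
  exact this

theorem gv_shift (a s : ℝ) : gv a s = gv (a + 1) s + Real.pi * |s| := by
  unfold gv
  have h := Tb.Rf_shift ((a : ℂ) + s * I)
  rw [line_im] at h
  rw [h]
  congr 3
  push_cast
  ring

/-- Left vertical piece. -/
theorem vl_le {η t h : ℝ} (h0 : 3 / 20 ≤ t) (h1 : t ≤ 1 / 2) (hh : 0 ≤ h) :
    -(22 / 5) * Real.pi * h + gv (t + 3 / 10) (η - h) + gv (t - 3 / 10) (η + h) ≤
      gv (t + 3 / 10) η + gv (t - 3 / 10) η := by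
  have hpi := Real.pi_pos
  have a1 := abs_le.1 (gv_lip01 (a := t + 3 / 10) (by linarith) (by linarith) (η - h) η)
  have a2 := abs_le.1 (gv_lip11 (a := t - 3 / 10) (by linarith) (by linarith) (η + h) η)
  rw [show η - h - η = -h by ring, abs_neg, abs_of_nonneg hh] at a1
  rw [show η + h - η = h by ring, abs_of_nonneg hh] at a2
  have : 0 ≤ Real.pi * h := by positivity
  linarith [a1.2, a2.2]

/-- Right vertical piece, `y` to the left of the corner. -/
theorem vr_neg {η ν b h : ℝ} (h0 : -(3 / 20) ≤ b) (h1 : b ≤ 0)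
    (he : η ≤ 2 / 25) (hn : ν ≤ 7 / 100) (hh : 0 ≤ h) (hh1 : h ≤ ν) :
    Ps0 η b h ≤ Ps0 η b 0 ∨ Ps0 η b h ≤ Ps0 η b ν := by
  have hpi := Real.pi_pos
  have hp1 := Real.pi_gt_d4
  rcases le_total h η with hc | hc
  · left
    have e1 := gv_shift b (η - h)
    have e2 := gv_shift b (η - 0)
    have a1 := abs_le.1 (gv_lip01 (a := b + 1) (by linarith) (by linarith) (η - h) (η - 0))
    have a2 : gv (b + 3 / 5) (η + h) - gv (b + 3 / 5) (η + 0) ≤ 1 / 10 * Real.pi * h := by
      rcases le_total (1 / 2) (b + 3 / 5) with hb | hb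
      · -- decreasing
        have e3 : ∀ s, gv (b + 3 / 5) s = -gv (1 - (b + 3 / 5)) s := by
          intro s
          rw [gv_one_sub, neg_neg]
        rw [e3, e3]
        have hm : MonotoneOn (gv (1 - (b + 3 / 5))) (Icc (η + 0) (η + h)) := by
          apply monotoneOn_of_hasDerivWithinAt_nonneg (convex_Icc _ _)
            (f' := tv (1 - (b + 3 / 5)))
          · exact fun s _ => (gv_hasDerivAt (by linarith) (by linarith) s).continuousAt.continuousWithinAt
          · exact fun s _ => (gv_hasDerivAt (by linarith) (by linarith) s).hasDerivWithinAt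
          · intro s hs
            have := interior_subset hs
            exact tv_nonneg (by linarith) (by linarith) (by linarith [this.1])
        have := hm (left_mem_Icc.2 (by linarith)) (right_mem_Icc.2 (by linarith)) (by linarith)
        have : 0 ≤ Real.pi * h := by positivity
        linarith
      · have k := gv_sub_le (r := b + 3 / 5) (b1 := η + 0) (b2 := η + h) (B := 3 / 20)
          (K := 80 / 100) (by linarith) hb (by linarith)
          (pi_cot_le_of (r0 := 45 / 100) (by norm_num) (by linarith) hb (by unfold kz; norm_num))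
          (by linarith) (by linarith)
        have k2 := (abs_le.1 k).2
        have : 0 ≤ h := hh
        nlinarith
    rw [show η - h - (η - 0) = -h by ring, abs_neg, abs_of_nonneg hh] at a1
    rw [abs_of_nonneg (by linarith : 0 ≤ η - h)] at e1
    rw [abs_of_nonneg (by linarith : 0 ≤ η - 0)] at e2
    unfold Ps0
    have : 0 ≤ Real.pi * h := by positivity
    linarith [a1.2]
  · right
    have e1 := gv_shift b (η - h)
    have e2 := gv_shift b (η - ν)
    have a1 := abs_le.1 (gv_lip01 (a := b + 1) (by linarith) (by linarith) (η - h) (η - ν))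
    have a2 := abs_le.1 (gv_lip01 (a := b + 3 / 5) (by linarith) (by linarith) (η + h) (η + ν))
    rw [show η - h - (η - ν) = ν - h by ring, abs_of_nonneg (by linarith)] at a1
    rw [show η + h - (η + ν) = -(ν - h) by ring, abs_neg, abs_of_nonneg (by linarith)] at a2
    rw [abs_of_nonpos (by linarith : η - h ≤ 0)] at e1
    rw [abs_of_nonpos (by linarith : η - ν ≤ 0)] at e2
    unfold Ps0
    have : 0 ≤ Real.pi * (ν - h) := mul_nonneg hpi.le (by linarith)
    linarith [a1.2, a2.2]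

/-- The slope on the right vertical piece. -/
noncomputable def Gs0 (η b h : ℝ) : ℝ :=
  2 / 5 * Real.pi - tv b (η - h) - tv (2 / 5 - b) (η + h)

theorem Ps0_hasDerivAt {b : ℝ} (h0 : 0 < b) (h1 : b ≤ 1 / 5) (η h : ℝ) :
    HasDerivAt (Ps0 η b) (Gs0 η b h) h := by
  have e : Ps0 η b = fun h => 2 / 5 * Real.pi * h + gv b (η - h) - gv (2 / 5 - b) (η + h) := by
    funext h
    unfold Ps0
    rw [show b + 3 / 5 = 1 - (2 / 5 - b) by ring, gv_one_sub]
    ring
  rw [e]
  have h2 := ((hasDerivAt_id h).const_mul (2 / 5 * Real.pi)).add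
    ((gv_hasDerivAt h0 (by linarith) (η - h)).comp h ((hasDerivAt_id h).const_sub η))
  have h3 := h2.sub ((gv_hasDerivAt (r := 2 / 5 - b) (by linarith) (by linarith)
    (η + h)).comp h ((hasDerivAt_id h).const_add η))
  refine h3.congr_deriv ?_
  unfold Gs0
  ring

/-- The slope is positive at a distance of the corner. -/
theorem Gs0_far {η ν b h : ℝ} (h0 : 1 / 10 ≤ b) (h1 : b ≤ 1 / 5)
    (he : η ≤ 2 / 25) (hn : ν ≤ 7 / 100) (hh : 0 ≤ h) (hh1 : h ≤ ν) : 0 ≤ Gs0 η b h := by
  have hp1 := Real.pi_gt_d4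
  have key : ∀ b0 b1 K Q : ℝ, 1 / 10 ≤ b0 → b0 ≤ b → b ≤ b1 → b1 ≤ 1 / 5 → 2 * kz b0 ≤ K →
      2 * kz (2 / 5 - b1) ≤ Q → 0 ≤ K → 0 ≤ Q →
      K * (2 / 25) + Q * (15 / 100) ≤ 12566 / 10000 → 0 ≤ Gs0 η b h := by
    intro b0 b1 K Q g0 g1 g2 g3 hK hQ k0 q0 hs
    have hK' := pi_cot_le_of (r0 := b0) (r := b) (by linarith) g1 (by linarith) hK
    have hQ' := pi_cot_le_of (r0 := 2 / 5 - b1) (r := 2 / 5 - b) (by linarith) (by linarith)
      (by linarith) hQ
    have a1 : tv b (η - h) ≤ K * (2 / 25) := by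
      rcases le_total 0 (η - h) with hc | hc
      · refine (tv_le (by linarith) (by linarith) hc hK').trans ?_
        apply mul_le_mul_of_nonneg_left _ k0
        linarith
      · refine (tv_nonpos (by linarith) (by linarith) hc).trans ?_
        positivity
    have a2 : tv (2 / 5 - b) (η + h) ≤ Q * (15 / 100) := by
      rcases le_total 0 (η + h) with hc | hc
      · refine (tv_le (by linarith) (by linarith) hc hQ').trans ?_
        apply mul_le_mul_of_nonneg_left _ q0
        linarith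
      · refine (tv_nonpos (by linarith) (by linarith) hc).trans ?_
        positivity
    unfold Gs0
    linarith
  rcases le_total b (12 / 100) with c1 | c1
  · exact key (1 / 10) (12 / 100) (9672 / 1000) (2651 / 1000) (by norm_num) h0 c1 (by norm_num)
      (by unfold kz; norm_num) (by unfold kz; norm_num) (by norm_num) (by norm_num) (by norm_num)
  rcases le_total b (15 / 100) with c2 | c2
  · exact key (12 / 100) (15 / 100) (794 / 100) (318 / 100) (by norm_num) c1 c2 (by norm_num)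
      (by unfold kz; norm_num) (by unfold kz; norm_num) (by norm_num) (by norm_num) (by norm_num)
  · exact key (15 / 100) (1 / 5) (6175 / 1000) (4343 / 1000) (by norm_num) c2 h1 (by norm_num)
      (by unfold kz; norm_num) (by unfold kz; norm_num) (by norm_num) (by norm_num) (by norm_num)

/-- A bound of the angle far from the pole. -/
theorem tvq_bd {η h b : ℝ} (h0 : 0 < b) (h1 : b ≤ 1 / 10) (hs : η + h ≤ 15 / 100) :
    tv (2 / 5 - b) (η + h) ≤ 36 / 100 := by
  have hQ' := pi_cot_le_of (r0 := 3 / 10) (r := 2 / 5 - b) (K := 235 / 100) (by norm_num)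
    (by linarith) (by linarith) (by unfold kz; norm_num)
  rcases le_total 0 (η + h) with hc | hc
  · refine (tv_le (by linarith) (by linarith) hc hQ').trans ?_
    linarith
  · refine (tv_nonpos (by linarith) (by linarith) hc).trans ?_
    norm_num

/-- The sign of the slope changes at most once. -/
theorem Gs0_step {η ν b h h' : ℝ} (h0 : 0 < b) (h1 : b ≤ 1 / 5)
    (he : η ≤ 2 / 25) (hn : ν ≤ 7 / 100) (hh : 0 ≤ h) (hhh : h ≤ h') (hh1 : h' ≤ ν)
    (hg : 0 ≤ Gs0 η b h) : 0 ≤ Gs0 η b h' := by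
  have hp1 := Real.pi_gt_d4
  rcases le_total (1 / 10) b with hb | hb
  · exact Gs0_far hb h1 he hn (hh.trans hhh) hh1
  rcases le_total η h' with hc | hc
  · have a1 : tv b (η - h') ≤ 0 := tv_nonpos h0 (by linarith) (by linarith)
    have a2 := tvq_bd (η := η) (h := h') h0 hb (by linarith)
    unfold Gs0
    linarith
  · have a0 : 0 ≤ tv (2 / 5 - b) (η + h) := tv_nonneg (by linarith) (by linarith) (by linarith)
    have a1 : tv b (η - h) ≤ 2 / 5 * Real.pi := by
      unfold Gs0 at hg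
      linarith
    have hQ' := pi_cot_le_of (r0 := 3 / 10) (r := 2 / 5 - b) (K := 235 / 100) (by norm_num)
      (by linarith) (by linarith) (by unfold kz; norm_num)
    have a2 := tv_sub_le (r := 2 / 5 - b) (b1 := η + h) (b2 := η + h') (by linarith) (by linarith)
      (by linarith) hQ'
    have a3 : MonotoneOn (fun s => tv b s - 47 / 20 * s) (Icc (η - h') (η - h)) := by
      apply monotoneOn_of_hasDerivWithinAt_nonneg (convex_Icc _ _)
        (f' := fun s => (Real.pi * cot (Real.pi * ((b : ℂ) + s * I))).re - 47 / 20)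
      · intro s _
        exact (((tv_hasDerivAt h0 (by linarith) s).sub
          ((hasDerivAt_id s).const_mul (47 / 20 : ℝ))).continuousAt).continuousWithinAt
      · intro s _
        have := (tv_hasDerivAt h0 (by linarith) s).sub ((hasDerivAt_id s).const_mul (47 / 20 : ℝ))
        refine (this.congr_deriv ?_).hasDerivWithinAt
        rw [mul_one]
      · intro s hs
        have hs' := interior_subset hs
        have := Lgd_pole h0 hb (s := s) (by linarith [hs'.1]) (by linarith [hs'.2])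
          ((tv_mono h0 (by linarith) hs'.2).trans a1)
        rw [Lgd_cot]
        linarith
    have a4 := a3 (left_mem_Icc.2 (by linarith)) (right_mem_Icc.2 (by linarith)) (by linarith)
    simp only at a4
    unfold Gs0 at hg ⊢
    linarith

/-- Right vertical piece, `y` to the right of the corner. -/
theorem vr_pos {η ν b h : ℝ} (h0 : 0 < b) (h1 : b ≤ 1 / 5)
    (he : η ≤ 2 / 25) (hn : ν ≤ 7 / 100) (hh : 0 ≤ h) (hh1 : h ≤ ν) :
    Ps0 η b h ≤ Ps0 η b 0 ∨ Ps0 η b h ≤ Ps0 η b ν := by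
  rcases le_or_gt 0 (Gs0 η b h) with hg | hg
  · right
    have hm : MonotoneOn (Ps0 η b) (Icc h ν) := by
      apply monotoneOn_of_hasDerivWithinAt_nonneg (convex_Icc _ _) (f' := Gs0 η b)
      · exact fun s _ => (Ps0_hasDerivAt h0 h1 η s).continuousAt.continuousWithinAt
      · exact fun s _ => (Ps0_hasDerivAt h0 h1 η s).hasDerivWithinAt
      · intro s hs
        have hs' := interior_subset hs
        exact Gs0_step h0 h1 he hn hh hs'.1 hs'.2 hg
    exact hm (left_mem_Icc.2 hh1) (right_mem_Icc.2 hh1) hh1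
  · left
    have hm : AntitoneOn (Ps0 η b) (Icc 0 h) := by
      apply antitoneOn_of_hasDerivWithinAt_nonpos (convex_Icc _ _) (f' := Gs0 η b)
      · exact fun s _ => (Ps0_hasDerivAt h0 h1 η s).continuousAt.continuousWithinAt
      · exact fun s _ => (Ps0_hasDerivAt h0 h1 η s).hasDerivWithinAt
      · intro s hs
        have hs' := interior_subset hs
        by_contra hcon
        have k := Gs0_step (h' := h) h0 h1 he hn hs'.1 hs'.2 hh1 (not_le.1 hcon).le
        linarith
    exact hm (left_mem_Icc.2 hh) (right_mem_Icc.2 hh) hh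

theorem vw_eq {y v : ℂ} : Vw ((2 : ℕ) : ℝ) y v = gn 4 v + 2 * -Rf (1 / 2 - y) +
    gv (y.re - v.re) (y.im - v.im) + gv (y.re + v.re) (y.im + v.im) := by
  have e1 : ((y.re - v.re : ℝ) : ℂ) + ((y.im - v.im : ℝ) : ℂ) * I = y - v := by
    apply Complex.ext <;> simp
  have e2 : ((y.re + v.re : ℝ) : ℂ) + ((y.im + v.im : ℝ) : ℂ) * I = y + v := by
    apply Complex.ext <;> simp
  unfold Vw gv
  rw [e1, e2]
  push_cast
  ring

/-- **Vertical pieces**: the maximum is attained at an end. -/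
theorem vert_ok {ν : ℝ} {y v : ℂ} (h0 : 3 / 20 ≤ y.re) (h1 : y.re ≤ 1 / 2)
    (he : y.im ≤ 2 / 25) (hn : ν ≤ 7 / 100) (hv : |v.re| = 3 / 10)
    (hh : 0 ≤ v.im) (hh1 : v.im ≤ ν) :
    Vw ((2 : ℕ) : ℝ) y v ≤ Vw ((2 : ℕ) : ℝ) y (v.re : ℂ) ∨
      Vw ((2 : ℕ) : ℝ) y v ≤ Vw ((2 : ℕ) : ℝ) y ((v.re : ℂ) + (ν : ℂ) * I) := by
  have hpi := Real.pi_pos
  have g : ∀ u : ℂ, gn 4 u = 2 * Real.pi * u.im * (4 * u.re - 1) := by
    intro u
    unfold gn
    ring
  rw [vw_eq, vw_eq, vw_eq, g, g, g, ofReal_re, ofReal_im, line_re, line_im]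
  rcases abs_eq (by norm_num : (0 : ℝ) ≤ 3 / 10) |>.1 hv with h | h
  · rw [h]
    rcases le_or_gt (y.re - 3 / 10) 0 with hb | hb
    · have := vr_neg (η := y.im) (ν := ν) (b := y.re - 3 / 10) (h := v.im) (by linarith) hb he hn
        hh hh1
      unfold Ps0 at this
      rw [show y.re - 3 / 10 + 3 / 5 = y.re + 3 / 10 by ring] at this
      rcases this with k | k
      · left; linarith
      · right; linarith
    · have := vr_pos (η := y.im) (ν := ν) (b := y.re - 3 / 10) (h := v.im) hb (by linarith) he hn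
        hh hh1
      unfold Ps0 at this
      rw [show y.re - 3 / 10 + 3 / 5 = y.re + 3 / 10 by ring] at this
      rcases this with k | k
      · left; linarith
      · right; linarith
  · left
    rw [h]
    have := vl_le (η := y.im) (t := y.re) h0 h1 hh
    rw [show y.re - -(3 / 10) = y.re + 3 / 10 by ring, show y.re + -(3 / 10) = y.re - 3 / 10 by ring,
      sub_zero, add_zero]
    linarith

/-- The range of the heights and of `Re vs`. -/
def fok (r : Rd) (g : Gd) : Bool :=
  Nat.ble g.e1 104448 && Nat.ble g.n1 104192 && Nat.ble r.P1 (Nat.add r.M0 15359) &&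
    Nat.ble r.M1 (Nat.add r.P0 15359)

variable {r : Rd} {g g' : Gd} {ys vs : ℂ}

/-- **The row of the flat piece of `y`.** -/
theorem rowF (hE : TabOK) (hG : GOK g) (hG' : GOK g') {c : ℕ} (h : flt r g c = true)
    (hf : fok r g = true) (hc : rw4 2 g' 0 .F = true) (hP : P4 ((2 : ℕ) : ℝ) g ys vs)
    (hP' : P4 ((2 : ℕ) : ℝ) g' ys vs) (hQ : Q4 r ys vs) (hi : vs.im ≠ 0)
    (he : 2 * Real.pi * I * (1 - 4 * vs) + lv ys vs = 0) (hp : 0 < ys.re + vs.re) {y v : ℂ} {wt : ℝ}
    (hy : Pc.F.In (3 / 20) ys.im y wt) (hv : LimV vs.im (3 / 10) v) :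
    Es ys vs y v < 0 ∨ (y = ys ∧ v = vs) := by
  unfold fok at hf
  simp only [Bool.and_eq_true] at hf
  obtain ⟨⟨⟨f1, f2⟩, f3⟩, f4⟩ := hf
  have f1' : (g.e1 : ℝ) ≤ ((104448 : ℕ) : ℝ) := by exact_mod_cast Nat.le_of_ble_eq_true f1
  have f2' : (g.n1 : ℝ) ≤ ((104192 : ℕ) : ℝ) := by exact_mod_cast Nat.le_of_ble_eq_true f2
  have f3' : (r.P1 : ℝ) ≤ ((Nat.add r.M0 15359 : ℕ) : ℝ) := by
    exact_mod_cast Nat.le_of_ble_eq_true f3
  have f4' : (r.M1 : ℝ) ≤ ((Nat.add r.P0 15359 : ℕ) : ℝ) := by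
    exact_mod_cast Nat.le_of_ble_eq_true f4
  have c1 : ((104448 : ℕ) : ℝ) = 104448 := Nat.cast_ofNat
  have c2 : ((104192 : ℕ) : ℝ) = 104192 := Nat.cast_ofNat
  have c3 : ((Nat.add r.M0 15359 : ℕ) : ℝ) = r.M0 + 15359 := by
    rw [Nat.add_eq, Nat.cast_add, Nat.cast_ofNat]
  have c4 : ((Nat.add r.P0 15359 : ℕ) : ℝ) = r.P0 + 15359 := by
    rw [Nat.add_eq, Nat.cast_add, Nat.cast_ofNat]
  rw [c1] at f1'
  rw [c2] at f2'
  rw [c3] at f3'
  rw [c4] at f4'
  have n0 : ((102400 : ℕ) : ℝ) < g.n0 := by exact_mod_cast hG.n0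
  have c5 : ((102400 : ℕ) : ℝ) = 102400 := Nat.cast_ofNat
  rw [c5] at n0
  have g1 := hP.e.2
  have g2 := hP.n.2
  have g3 := hP.n.1
  obtain ⟨hw, y1, y2, y3⟩ := hy
  have kF : ∀ v : ℂ, v.im = 0 → 3 / 10 ≤ |v.re| → |v.re| ≤ 1 / 2 → Es ys vs y v < 0 := by
    intro v q1 q2 q3
    have k1 := rw4_ok hE hG' (Or.inr (Or.inl rfl)) hc hP' (v := v) ⟨hw, y1, y2, y3⟩
      (Or.inr (Or.inr ⟨q1, q2, q3⟩)) (fun _ => ⟨q1, q2, q3⟩)
    have k2 := Es_four hi he 0 y v
    rw [zero_mul, add_zero, add_zero] at k2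
    rw [k2]
    have k3 : plp .F ((2 : ℕ) : ℝ) ys vs y = pla ((2 : ℕ) : ℝ) ys vs y := rfl
    rw [k3, Int.cast_zero, Nat.cast_ofNat] at k1
    linarith
  have eF : ∀ v v' : ℂ, Vw ((2 : ℕ) : ℝ) y v ≤ Vw ((2 : ℕ) : ℝ) y v' →
      Es ys vs y v ≤ Es ys vs y v' := by
    intro v v' h
    have k2 := Es_four hi he 0 y v
    have k3 := Es_four hi he 0 y v'
    rw [zero_mul, add_zero, add_zero] at k2 k3
    rw [k2, k3]
    rw [Nat.cast_ofNat] at h
    linarith
  rcases hv with ⟨v1, v2⟩ | ⟨v1, v2, v3⟩ | ⟨v1, v2, v3⟩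
  · exact flt_ok hE hG h hP hQ hi he hp y1 y2 y3 v1 v2
  · left
    rcases vert_ok (ν := vs.im) y2 y3 (by rw [y1]; linarith) (by linarith) v1 v2 v3 with k | k
    · refine (eF _ _ k).trans_lt (kF _ (ofReal_im _) ?_ ?_)
      · rw [ofReal_re, v1]
      · rw [ofReal_re, v1]
        norm_num
    · refine (eF _ _ k).trans_lt ?_
      rcases flt_ok hE hG h hP hQ hi he hp y1 y2 y3 (v := (v.re : ℂ) + (vs.im : ℂ) * I)
        (line_im _ _) (by rw [line_re, v1]) with k2 | k2
      · exact k2
      · exfalso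
        have k3 : v.re = vs.re := by
          rw [← k2.2, line_re]
        have k4 := hQ.P1
        have k5 := hQ.M0
        have k6 := hQ.P0
        have k7 := hQ.M1
        rw [k3] at v1
        rcases abs_eq (by norm_num : (0 : ℝ) ≤ 3 / 10) |>.1 v1 with k8 | k8
        · rw [k8] at k4 k5
          linarith
        · rw [k8] at k6 k7
          linarith
  · left
    exact kF v v1 v2 v3

end Pool.Agent.S5.Tb
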