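import Pool.Agent.S5.I.Pcs
import Pool.Agent.S5.I.FrmB
import Pool.Agent.S5.I.AsmB
import Pool.Agent.S5.I.AsmQ

/-!
# Assembly of the inequality
-/

set_option autoImplicit false

namespace Pool.Agent.S5

open Complex Pool.Agent.H63.VC Pool.Agent.H63.VC3 Pool.Agent.S3 Pool.Agent.S5.G
open scoped ComplexConjugate

/-! ### Potentials -/

/-- The potential of an edge, seen from the node `n`. -/
noncomputable def potE (S : Bool) (n x : Nt) (pc : Pc) (lam ys y : ℂ) : ℝ :=
  (lam * (pc.eff y - ys)).re - dT S n x pc * Td (1 / 2 - ys) (1 / 2 - y) + hT S n x pc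

theorem slE_pot (S : Bool) (n x : Nt) (pc : Pc) (lam ys y : ℂ) (w : ℝ) :
    (lam * (y - ys)).re - potE S n x pc lam ys y = slE S n x pc lam ys y w + w / 2 := by
  unfold potE slE
  have e : (lam * (y - ys)).re = (lam * (y - pc.eff y)).re + (lam * (pc.eff y - ys)).re := by
    rw [← add_re]
    congr 1
    ring
  rw [e]
  ring

theorem eff_mir (pc : Pc) (y : ℂ) : pc.mir.eff y = pc.eff y := by
  unfold Pc.eff
  cases pc <;> simp [Pc.mir, Pc.box]

theorem eff_conj (pc : Pc) (y : ℂ) : pc.eff (conj y) = conj (pc.eff y) := by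
  unfold Pc.eff
  split_ifs
  · rw [conj_re, conj_ofReal]
  · rw [map_div₀, map_ofNat, map_ofNat]
  · rfl

theorem potE_mir (s : Bool) (n x : Nt) (pc : Pc) (lam ys y : ℂ) (h0 : 0 < (1 / 2 - ys).re)
    (h1 : (1 / 2 - ys).re < 1) :
    potE s x n pc.mir (-kp s lam) (kp s ys) (kp s y) = -potE s n x pc lam ys y := by
  unfold potE
  rw [hT_mir, dT_mir, eff_mir]
  cases s
  · rw [kp_false, kp_false, kp_false, eff_conj]
    have e1 : Td (1 / 2 - conj ys) (1 / 2 - conj y) = Td (1 / 2 - ys) (1 / 2 - y) := by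
      rw [← Td_conj h0 h1]
      simp only [map_sub, map_div₀, map_one, map_ofNat]
    have e2 : (-conj lam * (conj (pc.eff y) - conj ys)).re = -(lam * (pc.eff y - ys)).re := by
      rw [← map_sub, neg_mul, neg_re, ← map_mul, conj_re]
    rw [e1, e2]
    ring
  · rw [kp_true, kp_true, kp_true, neg_mul, neg_re]
    ring

/-! ### Frames -/

/-- The own variable in the frame. -/
noncomputable def so (s : ℤ) (ty : Ty) (o : ℂ) : ℂ := if s < 0 then o else sO ty o

theorem Vn_fr {s : ℤ} (hs : s ≠ 0) (ty : Ty) (f : Bool) (o A B : ℂ) :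
    Vn s ty f o A B = Vn (-(s.natAbs : ℤ)) ty f (so s ty o) (sg s A) (sg s B) := by
  unfold so sg
  by_cases h : s < 0
  · rw [if_pos h, if_pos h, if_pos h, show -(s.natAbs : ℤ) = s by omega]
  · rw [if_neg h, if_neg h, if_neg h, show -(s.natAbs : ℤ) = -s by omega, Vn_conj]

theorem sg_sg (s : ℤ) (w : ℂ) : sg s (sg s w) = w := by
  unfold sg
  by_cases h : s < 0
  · rw [if_pos h, if_pos h]
  · rw [if_neg h, if_neg h, conj_conj]

theorem sg_half (s : ℤ) : sg s (1 / 2) = 1 / 2 := by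
  unfold sg
  split_ifs
  · rfl
  · rw [map_div₀, map_one, map_ofNat]

theorem sg_inj {s : ℤ} {w w' : ℂ} (h : sg s w = sg s w') : w = w' := by
  rw [← sg_sg s w, h, sg_sg]

theorem In_sg {pc : Pc} {d : ℝ} {ys y : ℂ} {w : ℝ} (s : ℤ) (h : pc.In d ys.im y w) :
    pc.In d (sg s ys).im (sg s y) w := by
  unfold sg
  by_cases hs : s < 0
  · rw [if_pos hs, if_pos hs]
    exact h
  · rw [if_neg hs, if_neg hs, conj_im]
    exact Pc.In_conj h

variable {m : ℕ} {a : ℕ → ℕ} {S fl : ℕ → Bool} {z ql qr : ℕ → ℂ} {r : ℕ → ℤ} {K : Cn m}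

theorem HG.so_oc (h : HG m a S fl z ql qr r K) (i : ℕ) (hi : i ≤ m) :
    so (r i) (tyG m r i) (ocG m r fl z ql qr i) = oF m r fl z ql qr i := by
  unfold so ocG oF vcG sg sO
  by_cases hn : r i < 0
  · rw [if_pos hn]
    cases tyG m r i
    · rfl
    · simp only [if_pos hn]
    · simp only [if_pos hn]
  · rw [if_neg hn]
    cases tyG m r i
    · simp
    · simp only [if_neg hn, conj_conj]
    · simp only [if_neg hn, map_neg, conj_conj, neg_neg]

theorem so_inj {s : ℤ} {ty : Ty} {w w' : ℂ} (h : so s ty w = so s ty w') : w = w' := by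
  have hc : ∀ u v : ℂ, conj u = conj v → u = v := fun u v h => by
    rw [← conj_conj u, h, conj_conj]
  unfold so sO at h
  split_ifs at h
  · exact h
  · cases ty
    · exact hc _ _ h
    · exact hc _ _ h
    · exact hc _ _ (neg_injective h)

/-- The statement of the node `i`. -/
def ND (m : ℕ) (a : ℕ → ℕ) (S fl : ℕ → Bool) (z ql qr : ℕ → ℂ) (r : ℕ → ℤ) (z1 : ℝ)
    (i : ℕ) : Prop :=
  ∃ E : ℂ → ℂ → ℂ → ℝ, NEq (-(a i : ℤ)) (tyG m r i) (fl i) (oF m r fl z ql qr i)
      (slL m a S z ql i) (slR m a S z qr i) E ∧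
    NOK (ntG m a i) (tyG m r i) (fl i) z1 (oF m r fl z ql qr i) (slL m a S z ql i)
      (slR m a S z qr i) E ∧
    (tyG m r i = Ty.vn → ∀ o A B : ℂ, o.im = 0 → E (-o) A B = E o A B) ∧
    (∃ c : ℝ, 0 < c ∧ ∃ ρ : ℝ, 0 < ρ ∧ ∀ x s t : ℝ, |x| ≤ ρ → |s| ≤ ρ → |t| ≤ ρ →
      ((slL m a S z ql i).ex = false → s = 0) → ((slR m a S z qr i).ex = false → t = 0) →
      E (oF m r fl z ql qr i + x) ((slL m a S z ql i).ys + s) ((slR m a S z qr i).ys + t) ≤
        -(c * ((if tyG m r i = Ty.cl then 0 else x ^ 2) + s ^ 2 + t ^ 2)))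

/-- The potentials. -/
noncomputable def potG (m : ℕ) (a : ℕ → ℕ) (S : ℕ → Bool) (z qr : ℕ → ℂ) (r : ℕ → ℤ)
    (pcs : Fin m → Pc) (y : Fin m → ℂ) (j : Fin m) : ℝ :=
  potE (S j) (ntG m a j) (ntG m a (j + 1)) (pcs j) (slR m a S z qr j).lam
    (slR m a S z qr j).ys (sg (r j) (y j))

/-- The potential seen from the right node. -/
theorem HG.pot_next (h : HG m a S fl z ql qr r K) (pcs : Fin m → Pc) (y : Fin m → ℂ) (j : Fin m) :
    potG m a S z qr r pcs y j = -potE (S j) (ntG m a (j + 1)) (ntG m a j) (pcs j).mir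
      (slL m a S z ql (j + 1)).lam (slL m a S z ql (j + 1)).ys (sg (r (j + 1)) (y j)) := by
  have hd := (h.sdr j j.isLt)
  have e1 : (slL m a S z ql (j + 1)).ys = kp (S j) (slR m a S z qr j).ys := h.sy_next j j.isLt
  have e2 : sg (r (j + 1)) (y j) = kp (S j) (sg (r j) (y j)) := by
    have := h.sg_next j j.isLt (kp (S j) (y j))
    rw [show kp (S j) (kp (S j) (y j)) = y j by cases S j <;> simp [kp]] at this
    rw [this]
    unfold sg kp
    split_ifs <;> rfl
  have h3 : 0 < ((1 : ℂ) / 2 - (slR m a S z qr j).ys).re ∧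
      ((1 : ℂ) / 2 - (slR m a S z qr j).ys).re < 1 := by
    have h4 := hd.slot.sy_re
    have h5 := hd.re_lt
    show 0 < ((1 : ℂ) / 2 - sy (qr j) (z j)).re ∧ ((1 : ℂ) / 2 - sy (qr j) (z j)).re < 1
    rw [sub_re, show ((1 : ℂ) / 2).re = 1 / 2 by norm_num]
    constructor <;> linarith [h4.1]
  unfold potG
  rw [h.lam_next j.isLt, e1, e2, potE_mir _ _ _ _ _ _ _ h3.1 h3.2, neg_neg]

/-- **The excess of a node.** -/
theorem HG.Ex_eq (h : HG m a S fl z ql qr r K) (pcs : Fin m → Pc) (o : Fin (m + 1) → ℂ)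
    (y : Fin m → ℂ) (wy : Fin m → ℝ) (i : Fin (m + 1)) {E : ℂ → ℂ → ℂ → ℝ}
    (hE : NEq (-(a i : ℤ)) (tyG m r i) (fl i) (oF m r fl z ql qr i) (slL m a S z ql i)
      (slR m a S z qr i) E) :
    Ex (chG m r fl) K (potG m a S z qr r pcs y) o y i =
      E (so (r i) (tyG m r i) (o i)) (sg (r i) (ye y i)) (sg (r i) (ye y (i + 1))) +
        (slL m a S z ql i).e (ntG m a i) (pl pcs i).mir (sg (r i) (ye y i)) (pe wy i) +
        (slR m a S z qr i).e (ntG m a i) (pl pcs (i + 1)) (sg (r i) (ye y (i + 1)))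
          (pe wy (i + 1)) + pe wy i / 2 + pe wy (i + 1) / 2 := by
  have hi : (i : ℕ) ≤ m := by
    have := i.isLt
    omega
  have hr := h.r_ne i hi
  have hab := h.abs i hi
  have hexL : (slL m a S z ql i).ex = decide (0 < (i : ℕ)) := rfl
  have hexR : (slR m a S z qr i).ex = decide ((i : ℕ) < m) := rfl
  have hA : (slL m a S z ql i).ex = false → sg (r i) (ye y i) = (slL m a S z ql i).ys := by
    intro h0
    rw [hexL, decide_eq_false_iff_not] at h0
    have hi0 : (i : ℕ) = 0 := by omega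
    rw [hi0, ye_zero, sg_half, h.slL_zero]
  have hB : (slR m a S z qr i).ex = false → sg (r i) (ye y (i + 1)) = (slR m a S z qr i).ys := by
    intro h0
    rw [hexR, decide_eq_false_iff_not] at h0
    have hi0 : (i : ℕ) = m := by omega
    rw [hi0, ye_last, sg_half, h.slR_last]
  have k1 := hE (so (r i) (tyG m r i) (o i)) _ _ hA hB
  have eL : ye K.yc i = sg (r i) (slL m a S z ql i).ys := h.ye_l i hi
  have eR : ye K.yc (i + 1) = sg (r i) (slR m a S z qr i).ys := h.ye_r i hi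
  have k2 : Vn ((chG m r fl).c i) ((chG m r fl).ty i) ((chG m r fl).fl i) (K.oc i) (ye K.yc i)
      (ye K.yc (i + 1)) = Vn (-(a i : ℤ)) (tyG m r i) (fl i) (oF m r fl z ql qr i)
        (slL m a S z ql i).ys (slR m a S z qr i).ys := by
    show Vn (r i) (tyG m r i) (fl i) (K.oc i) (ye K.yc i) (ye K.yc (i + 1)) = _
    rw [Vn_fr hr, eL, eR, sg_sg, sg_sg, hab, h.oc]
    show Vn _ _ _ (so (r i) (tyG m r i) (ocG m r fl z ql qr i)) _ _ = _
    rw [h.so_oc i hi]
  have k3 : Vn ((chG m r fl).c i) ((chG m r fl).ty i) ((chG m r fl).fl i) (o i) (ye y i)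
      (ye y (i + 1)) = Vn (-(a i : ℤ)) (tyG m r i) (fl i) (so (r i) (tyG m r i) (o i))
        (sg (r i) (ye y i)) (sg (r i) (ye y (i + 1))) := by
    show Vn (r i) (tyG m r i) (fl i) (o i) (ye y i) (ye y (i + 1)) = _
    rw [Vn_fr hr, hab]
  unfold Ex
  rw [k2, k3, k1]
  -- the left slot
  have l1 : ((slL m a S z ql i).lam * (sg (r i) (ye y i) - (slL m a S z ql i).ys)).re +
      pe (potG m a S z qr r pcs y) i = (slL m a S z ql i).e (ntG m a i) (pl pcs i).mir
        (sg (r i) (ye y i)) (pe wy i) + pe wy i / 2 := by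
    rcases Nat.eq_zero_or_pos (i : ℕ) with h0 | h0
    · have h1 : (slL m a S z ql i).ex = false := by
        rw [hexL, h0]
        rfl
      rw [hA h1, sub_self, mul_zero, zero_re]
      unfold Slt.e
      rw [h1, if_neg (by simp), h0, pe_zero, pe_zero]
      ring
    · obtain ⟨j, hj⟩ : ∃ j : Fin m, (i : ℕ) = j + 1 := ⟨⟨i - 1, by omega⟩, by simp only; omega⟩
      have h1 : (slL m a S z ql i).ex = true := by
        rw [hexL]
        exact decide_eq_true h0
      unfold Slt.e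
      rw [h1, if_pos rfl, hj, pe_succ, pe_succ, ye_sc, pl_succ, h.pot_next pcs y j]
      have := slE_pot (S j) (ntG m a (j + 1)) (ntG m a j) (pcs j).mir
        (slL m a S z ql (j + 1)).lam (slL m a S z ql (j + 1)).ys (sg (r (j + 1)) (y j)) (wy j)
      rw [← sub_eq_add_neg]
      exact this
  have l2 : ((slR m a S z qr i).lam * (sg (r i) (ye y (i + 1)) - (slR m a S z qr i).ys)).re -
      pe (potG m a S z qr r pcs y) (i + 1) = (slR m a S z qr i).e (ntG m a i) (pl pcs (i + 1))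
        (sg (r i) (ye y (i + 1))) (pe wy (i + 1)) + pe wy (i + 1) / 2 := by
    rcases Nat.lt_or_ge (i : ℕ) m with h0 | h0
    · obtain ⟨j, hj⟩ : ∃ j : Fin m, (i : ℕ) = j := ⟨⟨i, h0⟩, rfl⟩
      have h1 : (slR m a S z qr i).ex = true := by
        rw [hexR]
        exact decide_eq_true h0
      unfold Slt.e
      rw [h1, if_pos rfl, hj, pe_succ, pe_succ, ye_sc, pl_succ]
      exact slE_pot (S j) (ntG m a j) (ntG m a (j + 1)) (pcs j) (slR m a S z qr j).lam
        (slR m a S z qr j).ys (sg (r j) (y j)) (wy j)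
    · have hm : (i : ℕ) = m := by omega
      have h1 : (slR m a S z qr i).ex = false := by
        rw [hexR]
        exact decide_eq_false (by omega)
      rw [hB h1, sub_self, mul_zero, zero_re]
      unfold Slt.e
      rw [h1, if_neg (by simp), hm, pe_last, pe_last]
      ring
  linarith

end Pool.Agent.S5
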