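import Pool.Agent.S5.I.Inq

/-!
# Assembly of the inequality: the states of the nodes
-/

set_option autoImplicit false

namespace Pool.Agent.S5

open Complex Pool.Agent.H63.VC Pool.Agent.H63.VC3 Pool.Agent.S3 Pool.Agent.S5.G
open scoped ComplexConjugate

variable {m : ℕ} {a : ℕ → ℕ} {S fl : ℕ → Bool} {z ql qr : ℕ → ℂ} {r : ℕ → ℤ} {K : Cn m}

/-- The parameters of the contours. -/
structure KOK (m : ℕ) (a : ℕ → ℕ) (S : ℕ → Bool) (K : Cn m) : Prop where
  d : K.d = 3 / 20
  dz : ∀ i, K.dz i = 3 / 20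
  z1 : ∀ i : Fin (m + 1), K.z1 i = z1O m a S i

/-- The end of the flat piece of the variable of a node. -/
noncomputable def zx (m : ℕ) (r : ℕ → ℤ) (K : Cn m) (i : Fin (m + 1)) : ℝ :=
  if tyG m r i = Ty.vn then K.x1 i else K.z1 i

/-- The choice of the pieces. -/
def PcsOK {m : ℕ} (C : Ch m) (K : Cn m) (P : Pat m) (y : Fin m → ℂ) (wy : Fin m → ℝ)
    (pcs : Fin m → Pc) : Prop :=
  ∀ j : Fin m, (pcs j).In (3 / 20) (K.yc j).im (y j) (wy j) ∧ (RzOK C K y j (pcs j) ∧ ReOK C j (pcs j)) ∧
    (j ∈ P.S → pcs j = .lo) ∧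
    (j ∉ P.S → View (TT C P j.castSucc) (ZR C P j.castSucc) (pcs j) ∧
      View (TT C P j.succ) (ZL C P j.succ) (pcs j).mir)

theorem Pc.F_free : Pc.F.free := Or.inl trivial

section

variable {C : Ch m} {P : Pat m} {o : Fin (m + 1) → ℂ} {y : Fin m → ℂ} {wo : Fin (m + 1) → ℝ}
  {wy : Fin m → ℝ} {pcs : Fin m → Pc}

/-- The left slot. -/
theorem PcsOK.left (h : PcsOK C K P y wy pcs) (i : Fin (m + 1)) :
    (lowE P.S i → 0 < (i : ℕ) ∧ (pl pcs i).mir = .lo) ∧
    (¬ lowE P.S i → (TT C P i → 0 < (i : ℕ) → (pl pcs i).mir.frcT) ∧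
      (¬ TT C P i → ZL C P i → 0 < (i : ℕ) → (pl pcs i).mir.frcZ) ∧
      (¬ TT C P i → ¬ ZL C P i → (pl pcs i).mir.free)) := by
  rcases Nat.eq_zero_or_pos (i : ℕ) with h0 | h0
  · refine ⟨fun h1 => ?_, fun _ => ⟨fun _ h1 => absurd h1 (by omega),
      fun _ _ h1 => absurd h1 (by omega), fun _ _ => ?_⟩⟩
    · obtain ⟨h2, -⟩ := h1
      exact absurd h2.1 (by omega)
    · rw [h0, pl_zero]
      exact Pc.F_free
  · obtain ⟨j, hj⟩ : ∃ j : Fin m, i = j.succ :=
      ⟨⟨i - 1, by have := i.isLt; omega⟩, Fin.ext (by simp only [Fin.val_succ]; omega)⟩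
    subst hj
    obtain ⟨-, -, h2, h3⟩ := h j
    rw [Fin.val_succ, pl_succ, lowE_succ]
    refine ⟨fun h1 => ⟨Nat.succ_pos _, ?_⟩, fun h1 => ?_⟩
    · rw [h2 h1]
      rfl
    · obtain ⟨-, h4, h5, h6⟩ := h3 h1
      exact ⟨fun t _ => h4 t, fun t u _ => h5 t u, h6⟩

/-- The right slot. -/
theorem PcsOK.right (h : PcsOK C K P y wy pcs) (i : Fin (m + 1)) :
    (lowE P.S (i + 1) → (i : ℕ) < m ∧ pl pcs (i + 1) = .lo) ∧
    (¬ lowE P.S (i + 1) → (TT C P i → (i : ℕ) < m → (pl pcs (i + 1)).frcT) ∧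
      (¬ TT C P i → ZR C P i → (i : ℕ) < m → (pl pcs (i + 1)).frcZ) ∧
      (¬ TT C P i → ¬ ZR C P i → (pl pcs (i + 1)).free)) := by
  rcases Nat.lt_or_ge (i : ℕ) m with h0 | h0
  · obtain ⟨j, hj⟩ : ∃ j : Fin m, i = j.castSucc := ⟨⟨i, h0⟩, Fin.ext (by simp)⟩
    subst hj
    obtain ⟨-, -, h2, h3⟩ := h j
    rw [Fin.val_castSucc, pl_succ, lowE_succ]
    refine ⟨fun h1 => ⟨j.isLt, h2 h1⟩, fun h1 => ?_⟩
    obtain ⟨⟨h4, h5, h6⟩, -⟩ := h3 h1
    exact ⟨fun t _ => h4 t, fun t u _ => h5 t u, h6⟩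
  · have hm : (i : ℕ) = m := by
      have := i.isLt
      omega
    refine ⟨fun h1 => ?_, fun _ => ⟨fun _ h1 => absurd h1 (by omega),
      fun _ _ h1 => absurd h1 (by omega), fun _ _ => ?_⟩⟩
    · obtain ⟨h2, -⟩ := h1
      exact absurd h2.2 (by omega)
    · rw [hm, pl_last]
      exact Pc.F_free

end

theorem sgn_cases (x : SignType) : x = 0 ∨ x = 1 ∨ x = -1 := by
  cases x
  · exact Or.inl rfl
  · exact Or.inr (Or.inr rfl)
  · exact Or.inr (Or.inl rfl)

theorem ys_sg (s : ℤ) (f : Bool) (A B : ℂ) : (ys f (sg s A) (sg s B)).re = (ys f A B).re := by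
  cases f
  · exact sg_re s A
  · exact sg_re s B

theorem yt_sg (s : ℤ) (f : Bool) (A B : ℂ) : (yt f (sg s A) (sg s B)).re = (yt f A B).re := by
  cases f
  · exact sg_re s B
  · exact sg_re s A

theorem so_zn (s : ℤ) (w : ℂ) : so s Ty.zn w = sg s w := rfl

/-- **The states of the nodes.** -/
theorem HG.state (h : HG m a S fl z ql qr r K) (hK : KOK m a S K) {P : Pat m}
    (hP : P.OK (chG m r fl)) {o : Fin (m + 1) → ℂ} {y : Fin m → ℂ} {wo : Fin (m + 1) → ℝ}
    {wy : Fin m → ℝ} (hA : AdmC (chG m r fl) K P o y wo wy) {pcs : Fin m → Pc}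
    (hp : PcsOK (chG m r fl) K P y wy pcs) (i : Fin (m + 1)) :
    NSt (tyG m r i) (fl i) (zx m r K i) (oF m r fl z ql qr i) (slL m a S z ql i) (slR m a S z qr i)
        (pl pcs i).mir (pl pcs (i + 1)) (so (r i) (tyG m r i) (o i)) (sg (r i) (ye y i))
        (sg (r i) (ye y (i + 1))) (wo i) ∨
      (tyG m r i = Ty.vn ∧ (o i).im = 0 ∧ ((pl pcs i).mir = .lo ∨ pl pcs (i + 1) = .lo) ∧
        NSt (tyG m r i) (fl i) (zx m r K i) (oF m r fl z ql qr i) (slL m a S z ql i)
          (slR m a S z qr i) (pl pcs i).mir (pl pcs (i + 1)) (o i) (sg (r i) (ye y i))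
          (sg (r i) (ye y (i + 1))) (wo i)) := by
  have hi : (i : ℕ) ≤ m := by
    have := i.isLt
    omega
  obtain ⟨pL1, pL2⟩ := hp.left i
  obtain ⟨pR1, pR2⟩ := hp.right i
  have hexL : ∀ h0 : 0 < (i : ℕ), (slL m a S z ql i).ex = true := fun h0 => decide_eq_true h0
  have hexR : ∀ h0 : (i : ℕ) < m, (slR m a S z qr i).ex = true := fun h0 => decide_eq_true h0
  have hexL' : (slL m a S z ql i).ex = true → 0 < (i : ℕ) := fun h0 => of_decide_eq_true h0
  have hexR' : (slR m a S z qr i).ex = true → (i : ℕ) < m := fun h0 => of_decide_eq_true h0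
  have hsep := hP.sep.not_both i
  have hTch := Tch_iff P.S i
  have hH : P.H i ≠ 0 → tyG m r i = Ty.zn ∧ ¬ Tch P.S i := fun h0 => hP.H i h0
  -- untouched slots
  have free : ¬ Tch P.S i → P.H i = 0 → (pl pcs i).mir.free ∧ (pl pcs (i + 1)).free := by
    intro h0 h1
    rw [hTch] at h0
    push Not at h0
    have hT : ¬ TT (chG m r fl) P i := fun h2 => by
      rcases hTch.1 h2.2 with h3 | h3
      · exact h0.1 h3
      · exact h0.2 h3
    refine ⟨(pL2 h0.1).2.2 hT ?_, (pR2 h0.2).2.2 hT ?_⟩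
    · rintro (⟨h2, -⟩ | ⟨h2, -⟩) <;> rw [h1] at h2 <;> exact absurd h2 (by decide)
    · rintro (⟨h2, -⟩ | ⟨h2, -⟩) <;> rw [h1] at h2 <;> exact absurd h2 (by decide)
  have hre : ∀ A : ℂ, (sg (r i) A).re = A.re := fun A => sg_re _ A
  have hzz : tyG m r i = Ty.zn → zx m r K i = K.z1 i := fun h0 => by
    unfold zx
    rw [if_neg (by rw [h0]; simp)]
  have hzv : tyG m r i = Ty.vn → zx m r K i = K.x1 i := fun h0 => by
    unfold zx
    rw [if_pos h0]
  rcases hty : tyG m r i with _ | _ | _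
  · -- closed
    left
    have hH0 : P.H i = 0 := by
      by_contra h0
      have := (hH h0).1
      rw [hty] at this
      exact absurd this (by simp)
    obtain ⟨w0, h2⟩ := hA.cl i hty
    refine ⟨w0, ?_⟩
    by_cases ht : Tch P.S i
    · have hs : 0 ≤ (sg (r i) (ye y i) + sg (r i) (ye y (i + 1))).re := by
        rw [add_re, hre, hre, ← add_re]
        exact h2 ht
      have hT : TT (chG m r fl) P i := ⟨by
        show tyG m r i ≠ Ty.vn
        rw [hty]
        simp, ht⟩
      rcases hTch.1 ht with h3 | h3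
      · right
        left
        have h4 : ¬ lowE P.S (i + 1) := fun h0 => hsep ⟨h3, h0⟩
        exact ⟨hexL (pL1 h3).1, (pL1 h3).2, fun h5 => (pR2 h4).1 hT (hexR' h5), hs⟩
      · right
        right
        have h4 : ¬ lowE P.S i := fun h0 => hsep ⟨h0, h3⟩
        exact ⟨hexR (pR1 h3).1, (pR1 h3).2, fun h5 => (pL2 h4).1 hT (hexL' h5), hs⟩
    · exact Or.inl (free ht hH0)
  · -- lattice variable
    rw [hzz hty]
    left
    by_cases ht : Tch P.S i
    · obtain ⟨w0, k1, k2, k3, k4, k5⟩ := hA.zl i hty ht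
      have hT : TT (chG m r fl) P i := ⟨by
        show tyG m r i ≠ Ty.vn
        rw [hty]
        simp, ht⟩
      have k1' : (sg (r i) (o i)).im = 0 := by
        unfold sg
        split_ifs
        · exact k1
        · rw [conj_im, k1, neg_zero]
      right
      right
      right
      refine ⟨w0, ?_, ?_, ?_, ?_, ?_, ?_⟩
      · rw [so_zn]
        exact k1'
      · rw [so_zn, hre]
        exact k2
      · rw [so_zn, hre]
        exact k3
      · rw [so_zn, hre, ys_sg]
        exact k4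
      · rw [so_zn, hre, yt_sg]
        exact k5
      · rcases hTch.1 ht with h3 | h3
        · left
          have h4 : ¬ lowE P.S (i + 1) := fun h0 => hsep ⟨h3, h0⟩
          exact ⟨hexL (pL1 h3).1, (pL1 h3).2, fun h5 => (pR2 h4).1 hT (hexR' h5)⟩
        · right
          have h4 : ¬ lowE P.S i := fun h0 => hsep ⟨h0, h3⟩
          exact ⟨hexR (pR1 h3).1, (pR1 h3).2, fun h5 => (pL2 h4).1 hT (hexL' h5)⟩
    · have hl := hTch
      have nL : ¬ lowE P.S i := fun h0 => ht (hTch.2 (Or.inl h0))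
      have nR : ¬ lowE P.S (i + 1) := fun h0 => ht (hTch.2 (Or.inr h0))
      have hT : ¬ TT (chG m r fl) P i := fun h0 => ht h0.2
      rcases sgn_cases (P.H i) with hH1 | hH1 | hH1
      · left
        obtain ⟨f1, f2⟩ := free ht hH1
        refine ⟨f1, f2, ?_⟩
        have k := hA.zm i hty ht hH1
        rw [hK.dz i] at k
        rw [so_zn]
        have e : oF m r fl z ql qr i = sg (r i) (K.oc i) := by
          have := h.so_oc i hi
          rw [hty, so_zn] at this
          rw [← this, h.oc]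
        rw [e]
        unfold sg
        split_ifs
        · exact k
        · rw [conj_im]
          exact LimR_conj k
      · right
        left
        obtain ⟨w0, k1, k2, k3, k4⟩ := hA.zp i hty ht hH1
        have k1' : (sg (r i) (o i)).im = 0 := by
          unfold sg
          split_ifs
          · exact k1
          · rw [conj_im, k1, neg_zero]
        refine ⟨w0, ?_, ?_, ?_, ?_, ?_⟩
        · rw [so_zn]
          exact k1'
        · rw [so_zn, hre]
          exact k2
        · rw [so_zn, hre]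
          exact k3
        · rw [so_zn, hre, ys_sg]
          exact k4
        · by_cases hf : fl i = true
          · rw [if_pos hf]
            refine ⟨fun h5 => (pR2 nR).2.1 hT (Or.inl ⟨hH1, hf⟩) (hexR' h5),
              (pL2 nL).2.2 hT ?_⟩
            rintro (⟨-, h6⟩ | ⟨h6, -⟩)
            · have h7 : fl i = false := h6
              rw [hf] at h7
              exact absurd h7 (by simp)
            · rw [hH1] at h6
              exact absurd h6 (by decide)
          · rw [if_neg hf]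
            have hf' : fl i = false := by simpa using hf
            refine ⟨fun h5 => (pL2 nL).2.1 hT (Or.inl ⟨hH1, hf'⟩) (hexL' h5),
              (pR2 nR).2.2 hT ?_⟩
            rintro (⟨-, h6⟩ | ⟨h6, -⟩)
            · exact hf h6
            · rw [hH1] at h6
              exact absurd h6 (by decide)
      · right
        right
        left
        obtain ⟨w0, k1, k2, k3, k4⟩ := hA.zq i hty ht hH1
        have k1' : (sg (r i) (o i)).im = 0 := by
          unfold sg
          split_ifs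
          · exact k1
          · rw [conj_im, k1, neg_zero]
        refine ⟨w0, ?_, ?_, ?_, ?_, ?_⟩
        · rw [so_zn]
          exact k1'
        · rw [so_zn, hre]
          exact k2
        · rw [so_zn, hre]
          exact k3
        · rw [so_zn, hre, yt_sg]
          exact k4
        · by_cases hf : fl i = true
          · rw [if_pos hf]
            refine ⟨fun h5 => (pL2 nL).2.1 hT (Or.inr ⟨hH1, hf⟩) (hexL' h5),
              (pR2 nR).2.2 hT ?_⟩
            rintro (⟨h6, -⟩ | ⟨-, h6⟩)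
            · rw [hH1] at h6
              exact absurd h6 (by decide)
            · have h7 : fl i = false := h6
              rw [hf] at h7
              exact absurd h7 (by simp)
          · rw [if_neg hf]
            have hf' : fl i = false := by simpa using hf
            refine ⟨fun h5 => (pR2 nR).2.1 hT (Or.inr ⟨hH1, hf'⟩) (hexR' h5),
              (pL2 nL).2.2 hT ?_⟩
            rintro (⟨h6, -⟩ | ⟨-, h6⟩)
            · rw [hH1] at h6
              exact absurd h6 (by decide)
            · exact hf h6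
  · -- integration variable
    rw [hzv hty]
    have hH0 : P.H i = 0 := by
      by_contra h0
      have := (hH h0).1
      rw [hty] at this
      exact absurd this (by simp)
    have hT : ¬ TT (chG m r fl) P i := fun h0 => h0.1 hty
    have hZL : ¬ ZL (chG m r fl) P i := by
      rintro (⟨h2, -⟩ | ⟨h2, -⟩) <;> rw [hH0] at h2 <;> exact absurd h2 (by decide)
    have hZR : ¬ ZR (chG m r fl) P i := by
      rintro (⟨h2, -⟩ | ⟨h2, -⟩) <;> rw [hH0] at h2 <;> exact absurd h2 (by decide)
    by_cases ht : Tch P.S i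
    · right
      obtain ⟨w0, k1, k2, k3⟩ := hA.vl i hty ht
      rcases hTch.1 ht with h3 | h3
      · have h4 : ¬ lowE P.S (i + 1) := fun h0 => hsep ⟨h3, h0⟩
        refine ⟨rfl, k1, Or.inl (pL1 h3).2, w0, Or.inr ⟨k1, k2, Or.inl ⟨hexL (pL1 h3).1,
          (pL1 h3).2, ?_, (pR2 h4).2.2 hT hZR⟩⟩⟩
        obtain ⟨h5, h6⟩ := h3
        rw [hre]
        have h7 := k3 _ h6 (Or.inr (by apply Fin.ext; simp only [Fin.val_succ]; omega))
        unfold ye
        rw [dif_pos h5]
        exact h7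
      · have h4 : ¬ lowE P.S i := fun h0 => hsep ⟨h0, h3⟩
        refine ⟨rfl, k1, Or.inr (pR1 h3).2, w0, Or.inr ⟨k1, k2, Or.inr ⟨hexR (pR1 h3).1,
          (pR1 h3).2, ?_, (pL2 h4).2.2 hT hZL⟩⟩⟩
        obtain ⟨h5, h6⟩ := h3
        rw [hre]
        have h7 := k3 _ h6 (Or.inl (by apply Fin.ext; simp))
        unfold ye
        rw [dif_pos h5]
        exact h7
    · left
      obtain ⟨w0, k⟩ := hA.vh i hty ht
      obtain ⟨f1, f2⟩ := free ht hH0
      refine ⟨w0, Or.inl ⟨f1, f2, ?_⟩⟩
      have e : oF m r fl z ql qr i = so (r i) Ty.vn (K.oc i) := by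
        have := h.so_oc i hi
        rw [hty] at this
        rw [← this, h.oc]
      rw [e]
      unfold so sO
      split_ifs
      · exact k
      · rw [neg_im, conj_im, neg_neg]
        exact LimV_neg_conj k

end Pool.Agent.S5
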