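import Pool.Agent.S5.I.InqB

/-!
# Assembly of the inequality: the final theorem
-/

set_option autoImplicit false

namespace Pool.Agent.S5

open Complex Pool.Agent.H63.VC Pool.Agent.H63.VC3 Pool.Agent.S3 Pool.Agent.S5.G
open scoped ComplexConjugate

variable {m : ℕ} {a : ℕ → ℕ} {S fl : ℕ → Bool} {z ql qr : ℕ → ℂ} {r : ℕ → ℤ} {K : Cn m}

theorem pe_half (w : Fin m → ℝ) (n : ℕ) : pe (fun j => w j / 2) n = pe w n / 2 := by
  unfold pe
  split_ifs
  · rfl
  · simp

theorem HG.nt_of_zn (h : HG m a S fl z ql qr r K) {i : ℕ} (hi : i ≤ m)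
    (ht : tyG m r i = Ty.zn) : (ntG m a i).a = 3 ∨ ntG m a i = ⟨4, false⟩ := by
  have hab := h.abs i hi
  unfold tyG at ht
  split_ifs at ht with k1 k2
  rcases k2 with k2 | ⟨k2, k3, k4⟩
  · left
    show min (a i) 6 = 3
    omega
  · right
    unfold ntG
    have e1 : min (a i) 6 = 4 := by omega
    have e2 : decide (i = 0 ∨ i = m) = false := decide_eq_false (by omega)
    rw [e1, e2]

theorem HG.nt_of_nv (h : HG m a S fl z ql qr r K) {i : ℕ} (h0 : 0 < i) (hi : i < m)
    (ht : tyG m r i ≠ Ty.vn) : (ntG m a i).e = false ∧ (ntG m a i).a ≤ 4 := by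
  have hab := h.abs i hi.le
  constructor
  · exact decide_eq_false (by omega)
  · show min (a i) 6 ≤ 4
    unfold tyG at ht
    split_ifs at ht with k1 k2
    · omega
    · omega
    · exact absurd rfl ht

/-- The slots of the configuration. -/
theorem HG.In_left (h : HG m a S fl z ql qr r K) (hK : KOK m a S K) {P : Pat m} {y : Fin m → ℂ} {wy : Fin m → ℝ}
    {pcs : Fin m → Pc} (hp : PcsOK (chG m r fl) K P y wy pcs) (i : Fin (m + 1)) :
    (slL m a S z ql i).In (pl pcs i).mir (sg (r i) (ye y i)) (pe wy i) := by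
  have hexL : (slL m a S z ql i).ex = decide (0 < (i : ℕ)) := rfl
  unfold Slt.In
  rcases Nat.eq_zero_or_pos (i : ℕ) with h0 | h0
  · have h1 : (slL m a S z ql i).ex = false := by
      rw [hexL, h0]
      rfl
    rw [h1, if_neg (by simp), h0, pe_zero, ye_zero, pl_zero, sg_half]
    exact ⟨rfl, rfl, rfl⟩
  · obtain ⟨j, hj⟩ : ∃ j : Fin m, (i : ℕ) = j + 1 :=
      ⟨⟨i - 1, by have := i.isLt; omega⟩, by simp only; omega⟩
    have h1 : (slL m a S z ql i).ex = true := by
      rw [hexL]
      exact decide_eq_true h0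
    rw [h1, if_pos rfl, hj, pe_succ, ye_sc, pl_succ]
    have h2 := In_sg (r (j + 1)) (hp j).1
    rw [h.yc_next j, sg_sg] at h2
    refine ⟨Pc.In_mir.2 h2, fun h3 => ?_, fun h3 => ?_⟩
    · have h4 : pcs j = .rz .own ∨ pcs j = .rz .both := by
        rcases h3 with h3 | h3
        · left
          rw [← Pc.mir_mir (pcs j), h3]
          rfl
        · right
          rw [← Pc.mir_mir (pcs j), h3]
          rfl
      obtain ⟨h5, h6⟩ := (hp j).2.1.1.1 h4
      refine ⟨h.nt_of_zn (i := j) (by omega) h5, ?_⟩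
      rw [sg_re]
      rw [hK.z1] at h6
      exact h6
    · have h4 : pcs j = .re .own ∨ pcs j = .re .both := by
        rcases h3 with h3 | h3
        · left
          rw [← Pc.mir_mir (pcs j), h3]
          rfl
        · right
          rw [← Pc.mir_mir (pcs j), h3]
          rfl
      obtain ⟨h5, h6⟩ := (hp j).2.1.2.1 h4
      exact h.nt_of_nv (i := j) h6 (by have := j.isLt; omega) h5

theorem HG.In_right (h : HG m a S fl z ql qr r K) (hK : KOK m a S K) {P : Pat m} {y : Fin m → ℂ} {wy : Fin m → ℝ}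
    {pcs : Fin m → Pc} (hp : PcsOK (chG m r fl) K P y wy pcs) (i : Fin (m + 1)) :
    (slR m a S z qr i).In (pl pcs (i + 1)) (sg (r i) (ye y (i + 1))) (pe wy (i + 1)) := by
  have hexR : (slR m a S z qr i).ex = decide ((i : ℕ) < m) := rfl
  unfold Slt.In
  rcases Nat.lt_or_ge (i : ℕ) m with h0 | h0
  · obtain ⟨j, hj⟩ : ∃ j : Fin m, (i : ℕ) = j := ⟨⟨i, h0⟩, rfl⟩
    have h1 : (slR m a S z qr i).ex = true := by
      rw [hexR]
      exact decide_eq_true h0
    rw [h1, if_pos rfl, hj, pe_succ, ye_sc, pl_succ]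
    have h2 := In_sg (r j) (hp j).1
    have h3 : K.yc j = sg (r j) (sy (qr j) (z j)) := by
      rw [h.yc]
      rfl
    rw [h3, sg_sg] at h2
    refine ⟨h2, fun h4 => ?_, fun h4 => ?_⟩
    · obtain ⟨h5, h6⟩ := (hp j).2.1.1.2 h4
      refine ⟨h.nt_of_zn (i := j + 1) (by omega) h5, ?_⟩
      rw [sg_re]
      rw [hK.z1] at h6
      exact h6
    · obtain ⟨h5, h6⟩ := (hp j).2.1.2.2 h4
      exact h.nt_of_nv (i := j + 1) (by omega) (by omega) h5
  · have hm : (i : ℕ) = m := by
      have := i.isLt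
      omega
    have h1 : (slR m a S z qr i).ex = false := by
      rw [hexR]
      exact decide_eq_false (by omega)
    rw [h1, if_neg (by simp), hm, pe_last, ye_last, pl_last, sg_half]
    exact ⟨rfl, rfl, rfl⟩

/-- A node at its critical point. -/
def CritN (m : ℕ) (a : ℕ → ℕ) (S fl : ℕ → Bool) (z ql qr : ℕ → ℂ) (r : ℕ → ℤ)
    (pcs : Fin m → Pc) (o : Fin (m + 1) → ℂ) (y : Fin m → ℂ) (wo : Fin (m + 1) → ℝ)
    (i : Fin (m + 1)) : Prop :=
  sg (r i) (ye y (i + 1)) = (slR m a S z qr i).ys ∧ (pl pcs i).mir = .F ∧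
    pl pcs (i + 1) = .F ∧ wo i = 0 ∧
    (tyG m r i ≠ Ty.cl → so (r i) (tyG m r i) (o i) = oF m r fl z ql qr i)

theorem Slt.e_crit {s : Slt} {n : Nt} {w : ℝ} (h : s.In .F s.ys w) : s.e n .F s.ys w = 0 := by
  unfold Slt.e
  by_cases hx : s.ex = true
  · rw [if_pos hx]
    unfold Slt.In at h
    rw [if_pos hx] at h
    rw [h.1.1, slE_crit]
  · rw [if_neg hx]

theorem HG.step (h : HG m a S fl z ql qr r K) (hK : KOK m a S K)
    (hD : ∀ i : Fin (m + 1), ND m a S fl z ql qr r (zx m r K i) i) {P : Pat m}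
    (hP : P.OK (chG m r fl)) {o : Fin (m + 1) → ℂ} {y : Fin m → ℂ} {wo : Fin (m + 1) → ℝ}
    {wy : Fin m → ℝ} (hA : AdmC (chG m r fl) K P o y wo wy) {pcs : Fin m → Pc}
    (hp : PcsOK (chG m r fl) K P y wy pcs) (i : Fin (m + 1)) :
    Ex (chG m r fl) K (potG m a S z qr r pcs y) o y i <
        pe (fun j => wy j / 2) (i + 1) + pe (fun j => wy j / 2) i + wo i ∨
      (Ex (chG m r fl) K (potG m a S z qr r pcs y) o y i ≤
        pe (fun j => wy j / 2) (i + 1) + pe (fun j => wy j / 2) i + wo i ∧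
        CritN m a S fl z ql qr r pcs o y wo i) := by
  obtain ⟨E, hE, hN, hev, -⟩ := hD i
  have hL := h.In_left hK hp i
  have hR := h.In_right hK hp i
  rw [h.Ex_eq pcs o y wy i hE, pe_half, pe_half]
  rcases h.state hK hP hA hp i with hs | ⟨h1, h2, h3, hs⟩
  · rcases hN _ _ _ _ _ _ _ _ hL hR hs with k | ⟨k1, k2, k3, k4, k5, k6⟩
    · left
      linarith
    · right
      refine ⟨?_, k2, k3, k4, k5, k6⟩
      rw [k3, k1] at hL
      rw [k4, k2] at hR
      rw [k1, k2, k3, k4, Slt.e_crit hL, Slt.e_crit hR, k5]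
      have hE0 : E (so (r i) (tyG m r i) (o i)) (slL m a S z ql i).ys
          (slR m a S z qr i).ys = 0 := by
        have e1 := hE (so (r i) (tyG m r i) (o i)) _ _ (fun _ => rfl) (fun _ => rfl)
        rw [sub_self, sub_self, mul_zero, mul_zero, zero_re] at e1
        by_cases hc : tyG m r i = Ty.cl
        · rw [hc] at e1 ⊢
          have e2 : Vn (-(a i : ℤ)) Ty.cl (fl i) (so (r i) Ty.cl (o i)) (slL m a S z ql i).ys
            (slR m a S z qr i).ys = Vn (-(a i : ℤ)) Ty.cl (fl i) (oF m r fl z ql qr i)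
              (slL m a S z ql i).ys (slR m a S z qr i).ys := rfl
          linarith
        · rw [k6 hc] at e1 ⊢
          linarith
      rw [hE0]
      linarith
  · have he : E (so (r i) (tyG m r i) (o i)) (sg (r i) (ye y i)) (sg (r i) (ye y (i + 1))) =
        E (o i) (sg (r i) (ye y i)) (sg (r i) (ye y (i + 1))) := by
      rw [h1]
      unfold so sO
      split_ifs
      · rfl
      · have e3 : -conj (o i) = -(o i) := by
          apply Complex.ext
          · simp
          · simp [h2]
        rw [e3]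
        exact hev h1 _ _ _ h2
    rw [he]
    rcases hN _ _ _ _ _ _ _ _ hL hR hs with k | ⟨-, -, k3, k4, -⟩
    · left
      linarith
    · rcases h3 with h3 | h3
      · rw [h3] at k3
        exact absurd k3 (by simp)
      · rw [h3] at k4
        exact absurd k4 (by simp)

theorem Pat.zero_OK {C : Ch m} : (Pat.zero : Pat m).OK C := by
  refine ⟨?_, ?_⟩
  · intro j hj
    exact absurd hj (by simp [Pat.zero])
  · intro i hi
    exact absurd rfl hi

/-- **The inequality from the statements of the nodes.** -/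
theorem HG.inq (h : HG m a S fl z ql qr r K) (hK : KOK m a S K) (hC : Cn.OK (chG m r fl) K)
    (hD : ∀ i : Fin (m + 1), ND m a S fl z ql qr r (zx m r K i) i) :
    Inq (chG m r fl) K ((chG m r fl).G K.oc K.yc) := by
  have hb : ∀ wy : Fin m → ℝ, ∀ j, wy j / 2 + wy j / 2 ≤ wy j := fun wy j => by linarith
  have hpcs : ∀ {P : Pat m}, P.OK (chG m r fl) → ∀ {o : Fin (m + 1) → ℂ} {y : Fin m → ℂ}
      {wo : Fin (m + 1) → ℝ} {wy : Fin m → ℝ}, AdmC (chG m r fl) K P o y wo wy →
      ∃ pcs : Fin m → Pc, PcsOK (chG m r fl) K P y wy pcs := by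
    intro P hP o y wo wy hA
    choose pcs h1 using exists_pcs hP hK.d
      (fun i _ => by rw [hK.z1 i]; exact (z1O_bd m a S i).1) hA
    exact ⟨pcs, h1⟩
  refine ⟨?_, ?_, ?_, rfl⟩
  · intro o y wo wy hA
    obtain ⟨pcs, hp⟩ := hpcs Pat.zero_OK hA
    rcases G_lt_or (hb wy) (h.step hK hD Pat.zero_OK hA hp) with k | k
    · exact Or.inl k
    · right
      refine ⟨fun j => ?_, fun i => ?_⟩
      · obtain ⟨k1, -, k3, -, -⟩ := k j.castSucc
        rw [Fin.val_castSucc, ye_sc] at k1
        rw [Fin.val_castSucc, pl_succ] at k3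
        refine ⟨?_, ?_⟩
        · have h3 : K.yc j = sg (r j) (sy (qr j) (z j)) := by
            rw [h.yc]
            rfl
          rw [h3]
          have h4 : sg (r j) (y j) = sy (qr j) (z j) := k1
          rw [← h4, sg_sg]
        · have h5 := (hp j).1
          rw [k3] at h5
          exact h5.1
      · obtain ⟨-, -, -, k4, k5⟩ := k i
        refine ⟨k4, fun hc => ?_⟩
        have hi : (i : ℕ) ≤ m := by
          have := i.isLt
          omega
        have h6 := k5 hc
        rw [← h.so_oc i hi] at h6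
        have h7 := so_inj h6
        rw [h7, h.oc]
  · intro P hP hne o y wo wy hA
    obtain ⟨pcs, hp⟩ := hpcs hP hA
    rcases G_lt_or (hb wy) (h.step hK hD hP hA hp) with k | k
    · exact k
    · exfalso
      rcases hne with ⟨j, hj⟩ | ⟨i, hi⟩
      · obtain ⟨-, -, k3, -, -⟩ := k j.castSucc
        rw [Fin.val_castSucc, pl_succ, (hp j).2.2.1 hj] at k3
        exact absurd k3 (by simp)
      · obtain ⟨h1, h2⟩ := hP.H i hi
        obtain ⟨-, -, -, -, k5⟩ := k i
        have him : (i : ℕ) ≤ m := by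
          have := i.isLt
          omega
        have hty : tyG m r i = Ty.zn := h1
        have h6 := k5 (by rw [hty]; simp)
        rw [← h.so_oc i him] at h6
        have h7 : o i = K.oc i := by
          rw [so_inj h6, h.oc]
        have h8 := hC.z1 i h1
        rw [← h7, abs_lt] at h8
        rcases sgn_cases (P.H i) with h9 | h9 | h9
        · exact hi h9
        · have := (hA.zp i h1 h2 h9).2.2.1
          linarith
        · have := (hA.zq i h1 h2 h9).2.2.2.1
          linarith
  · -- the quadratic bound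
    apply quad_of (fun j => sg (r j) (slR m a S z qr j).lam)
    intro i
    obtain ⟨E, hE, -, -, c, hc, ρ, hρ, hq⟩ := hD i
    refine ⟨c, hc, ρ, hρ, fun x s t hx hs ht hs0 ht0 => ?_⟩
    have him : (i : ℕ) ≤ m := by
      have := i.isLt
      omega
    have hexL : (slL m a S z ql i).ex = decide (0 < (i : ℕ)) := rfl
    have hexR : (slR m a S z qr i).ex = decide ((i : ℕ) < m) := rfl
    have sL : (slL m a S z ql i).ex = false → s = 0 := by
      intro h0
      rw [hexL, decide_eq_false_iff_not] at h0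
      exact hs0 (by omega)
    have sR : (slR m a S z qr i).ex = false → t = 0 := by
      intro h0
      rw [hexR, decide_eq_false_iff_not] at h0
      exact ht0 (by omega)
    have hr := h.r_ne i him
    have hab := h.abs i him
    have hsgr : ∀ (w : ℂ) (u : ℝ), sg (r i) (w + u) = sg (r i) w + u := by
      intro w u
      unfold sg
      split_ifs
      · rfl
      · rw [map_add, conj_ofReal]
    have eL : ye K.yc i = sg (r i) (slL m a S z ql i).ys := h.ye_l i him
    have eR : ye K.yc (i + 1) = sg (r i) (slR m a S z qr i).ys := h.ye_r i him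
    have k2 : Vn ((chG m r fl).c i) ((chG m r fl).ty i) ((chG m r fl).fl i) (K.oc i) (ye K.yc i)
        (ye K.yc (i + 1)) = Vn (-(a i : ℤ)) (tyG m r i) (fl i) (oF m r fl z ql qr i)
          (slL m a S z ql i).ys (slR m a S z qr i).ys := by
      show Vn (r i) (tyG m r i) (fl i) (K.oc i) (ye K.yc i) (ye K.yc (i + 1)) = _
      rw [Vn_fr hr, eL, eR, sg_sg, sg_sg, hab, h.oc]
      show Vn _ _ _ (so (r i) (tyG m r i) (ocG m r fl z ql qr i)) _ _ = _
      rw [h.so_oc i him]
    have hso : ∃ x' : ℝ, |x'| ≤ ρ ∧ x' ^ 2 = x ^ 2 ∧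
        so (r i) (tyG m r i) (K.oc i + x) = oF m r fl z ql qr i + x' := by
      have e0 : so (r i) (tyG m r i) (K.oc i) = oF m r fl z ql qr i := by
        rw [h.oc]
        exact h.so_oc i him
      rw [← e0]
      unfold so sO
      split_ifs
      · exact ⟨x, hx, rfl, rfl⟩
      · cases tyG m r i
        · exact ⟨x, hx, rfl, by simp only [map_add, conj_ofReal]⟩
        · exact ⟨x, hx, rfl, by simp only [map_add, conj_ofReal]⟩
        · refine ⟨-x, by rw [abs_neg]; exact hx, by ring, ?_⟩
          simp only [map_add, conj_ofReal]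
          push_cast
          ring
    obtain ⟨x', hx', hxx, hso⟩ := hso
    have k3 : Vn ((chG m r fl).c i) ((chG m r fl).ty i) ((chG m r fl).fl i) (K.oc i + x)
        (ye K.yc i + s) (ye K.yc (i + 1) + t) = Vn (-(a i : ℤ)) (tyG m r i) (fl i)
          (oF m r fl z ql qr i + x') ((slL m a S z ql i).ys + s)
          ((slR m a S z qr i).ys + t) := by
      show Vn (r i) (tyG m r i) (fl i) (K.oc i + x) (ye K.yc i + s) (ye K.yc (i + 1) + t) = _
      rw [Vn_fr hr, eL, eR, hsgr, hsgr, sg_sg, sg_sg, hab, hso]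
    have k1 := hE (oF m r fl z ql qr i + x') ((slL m a S z ql i).ys + s)
      ((slR m a S z qr i).ys + t) (fun h0 => by rw [sL h0]; simp) (fun h0 => by rw [sR h0]; simp)
    rw [k2, k3, k1, add_sub_cancel_left, add_sub_cancel_left]
    have q := hq x' s t hx' hs ht sL sR
    rw [hxx] at q
    have l1 : ((slL m a S z ql i).lam * (s : ℂ)).re +
        (lamE (fun j : Fin m => sg (r j) (slR m a S z qr j).lam) i * (s : ℂ)).re = 0 := by
      rcases Nat.eq_zero_or_pos (i : ℕ) with h0 | h0
      · rw [hs0 h0]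
        simp
      · obtain ⟨j, hj⟩ : ∃ j : Fin m, (i : ℕ) = j + 1 :=
          ⟨⟨i - 1, by have := i.isLt; omega⟩, by simp only; omega⟩
        rw [hj, lamE_succ, h.lam_next j.isLt, re_mul_ofReal, re_mul_ofReal, sg_re, neg_re]
        have e4 : (kp (S j) (slR m a S z qr j).lam).re = (slR m a S z qr j).lam.re := by
          cases S j
          · rw [kp_false, conj_re]
          · rw [kp_true]
        rw [e4]
        ring
    have l2 : ((slR m a S z qr i).lam * (t : ℂ)).re -
        (lamE (fun j : Fin m => sg (r j) (slR m a S z qr j).lam) (i + 1) * (t : ℂ)).re = 0 := by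
      rcases Nat.lt_or_ge (i : ℕ) m with h0 | h0
      · obtain ⟨j, hj⟩ : ∃ j : Fin m, (i : ℕ) = j := ⟨⟨i, h0⟩, rfl⟩
        rw [hj, lamE_succ, re_mul_ofReal, re_mul_ofReal, sg_re]
        ring
      · rw [ht0 (by omega)]
        simp
    have hty : (chG m r fl).ty i = tyG m r i := rfl
    rw [hty]
    linarith

end Pool.Agent.S5
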