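import Pool.Agent.H25.RK.DGf
import Pool.Agent.H63.GO.Defs
import Pool.Agent.H63.GO.FNum
import Pool.Agent.H63.GO.PDefs
import Pool.Agent.S3.Gr3b
import Pool.Agent.S5.I.BwP

/-!
# Numerical values of `Lb`: tools
-/

set_option autoImplicit false

namespace Pool.Agent.S5

open Pool.Agent.H63.VC3 Pool.Agent.S3 Complex MeasureTheory Filter Topology Set
open Pool.Agent.H63.GO (Ft Fr_num log_series)

theorem Lb_eq_neg_Fr (x : ℝ) : Lb x = -Fr x := by
  unfold Lb
  have h := Lg_zero_integral (1 / 2) x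
  have h2 : Rf (x : ℂ) = ∫ t in (1 / 2 : ℝ)..x, Lg 0 t := by
    rw [Rf_eq, ofReal_re, ofReal_im]
  rw [h2, h, Fr_half, sub_zero]

/-- `l` is an upper bound of `log c`, `m` a lower bound. -/
structure LC (c m l : ℝ) : Prop where
  pos : 0 < c
  lo : m ≤ Real.log c
  hi : Real.log c ≤ l

theorem LC_two : LC 2 0.6931471803 0.6931471808 :=
  ⟨by norm_num, Real.log_two_gt_d9.le, Real.log_two_lt_d9.le⟩

theorem LC_one : LC 1 0 0 := ⟨by norm_num, by simp, by simp⟩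

theorem LC_half : LC (1 / 2) (-0.6931471808) (-0.6931471803) := by
  refine ⟨by norm_num, ?_, ?_⟩
  · rw [one_div, Real.log_inv]
    linarith [Real.log_two_lt_d9]
  · rw [one_div, Real.log_inv]
    linarith [Real.log_two_gt_d9]

theorem LC_quarter : LC (1 / 4) (-1.3862943616) (-1.3862943606) := by
  have e : Real.log (1 / 4) = -(2 * Real.log 2) := by
    rw [show (1 / 4 : ℝ) = (2 ^ 2)⁻¹ by norm_num, Real.log_inv, Real.log_pow]
    norm_num
  refine ⟨by norm_num, ?_, ?_⟩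
  · rw [e]
    linarith [Real.log_two_lt_d9]
  · rw [e]
    linarith [Real.log_two_gt_d9]

theorem log_le_LC {c m l : ℝ} (hc : LC c m l) {q t : ℝ} (hq0 : 0 < q) (h0 : 0 ≤ t)
    (h1 : t ≤ 1 / 3) (hq : q * (1 - t) ≤ c * (1 + t)) :
    Real.log q ≤ l + (2 * (t + t ^ 3 / 3 + t ^ 5 / 5 + t ^ 7 / 7) + t ^ 9 / 3) := by
  have h2 := (log_series t h0 h1).2
  have h3 : q ≤ c * ((1 + t) / (1 - t)) := by
    rw [← mul_div_assoc, le_div_iff₀ (by linarith)]
    exact hq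
  have h4 := Real.log_le_log hq0 h3
  rw [Real.log_mul hc.pos.ne' (by
    have : 0 < (1 + t) / (1 - t) := div_pos (by linarith) (by linarith)
    exact this.ne')] at h4
  linarith [hc.hi]

theorem LC_le_log {c m l : ℝ} (hc : LC c m l) {q t : ℝ} (h0 : 0 ≤ t)
    (h1 : t ≤ 1 / 3) (hq : c * (1 + t) ≤ q * (1 - t)) :
    m + 2 * (t + t ^ 3 / 3 + t ^ 5 / 5 + t ^ 7 / 7) ≤ Real.log q := by
  have h2 := (log_series t h0 h1).1
  have h3 : c * ((1 + t) / (1 - t)) ≤ q := by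
    rw [← mul_div_assoc, div_le_iff₀ (by linarith)]
    exact hq
  have hp : 0 < (1 + t) / (1 - t) := div_pos (by linarith) (by linarith)
  have h4 := Real.log_le_log (mul_pos hc.pos hp) h3
  rw [Real.log_mul hc.pos.ne' hp.ne'] at h4
  linarith [hc.lo]

/-- Lower bound of `Lb`. -/
theorem Lb_lo {c m l : ℝ} (hc : LC c m l) (a t v : ℝ) (h0 : 0 < a) (h1 : a ≤ 1 / 2)
    (ht0 : 0 ≤ t) (ht1 : t ≤ 1 / 3) (hq : 6.283186 * a * (1 - t) ≤ c * (1 + t))
    (hv : v ≤ a - a * (l + (2 * (t + t ^ 3 / 3 + t ^ 5 / 5 + t ^ 7 / 7) + t ^ 9 / 3)) +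
      9.8696 * a ^ 3 / 18 + 97.409 * a ^ 5 / 900 + 961.38 * a ^ 7 / 19845) : v ≤ Lb a := by
  have hp1 := Real.pi_gt_d6
  have hp2 := Real.pi_lt_d6
  have h := (Fr_num a h0 h1).2
  unfold Ft at h
  have hlog : Real.log (2 * Real.pi * a) ≤
      l + (2 * (t + t ^ 3 / 3 + t ^ 5 / 5 + t ^ 7 / 7) + t ^ 9 / 3) := by
    refine (Real.log_le_log (by positivity) ?_).trans (log_le_LC hc (by positivity) ht0 ht1 hq)
    exact mul_le_mul_of_nonneg_right (by linarith) h0.le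
  have e2 : (9.8696 : ℝ) ≤ Real.pi ^ 2 :=
    le_trans (by norm_num) (pow_le_pow_left₀ (by norm_num) hp1.le 2)
  have e4 : (97.409 : ℝ) ≤ Real.pi ^ 4 :=
    le_trans (by norm_num) (pow_le_pow_left₀ (by norm_num) hp1.le 4)
  have e6 : (961.38 : ℝ) ≤ Real.pi ^ 6 :=
    le_trans (by norm_num) (pow_le_pow_left₀ (by norm_num) hp1.le 6)
  have g0 := mul_le_mul_of_nonneg_left hlog h0.le
  have g2 := mul_le_mul_of_nonneg_right e2 (pow_nonneg h0.le 3)
  have g4 := mul_le_mul_of_nonneg_right e4 (pow_nonneg h0.le 5)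
  have g6 := mul_le_mul_of_nonneg_right e6 (pow_nonneg h0.le 7)
  rw [Lb_eq_neg_Fr]
  linarith

/-- Upper bound of `Lb`. -/
theorem Lb_hi {c m l : ℝ} (hc : LC c m l) (a t v : ℝ) (h0 : 0 < a) (h1 : a ≤ 1 / 2)
    (ht0 : 0 ≤ t) (ht1 : t ≤ 1 / 3) (hq : c * (1 + t) ≤ 6.283184 * a * (1 - t))
    (hv : a - a * (m + 2 * (t + t ^ 3 / 3 + t ^ 5 / 5 + t ^ 7 / 7)) +
      9.8697 * a ^ 3 / 18 + 97.41 * a ^ 5 / 900 + 961.4 * a ^ 7 / 19845 + a ^ 9 / 25 ≤ v) :
    Lb a ≤ v := by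
  have hp1 := Real.pi_gt_d6
  have hp2 := Real.pi_lt_d6
  have h := (Fr_num a h0 h1).1
  unfold Ft at h
  have hlog : m + 2 * (t + t ^ 3 / 3 + t ^ 5 / 5 + t ^ 7 / 7) ≤ Real.log (2 * Real.pi * a) := by
    refine (LC_le_log hc ht0 ht1 hq).trans (Real.log_le_log ?_ ?_)
    · positivity
    · exact mul_le_mul_of_nonneg_right (by linarith) h0.le
  have e2 : Real.pi ^ 2 ≤ (9.8697 : ℝ) :=
    le_trans (pow_le_pow_left₀ Real.pi_pos.le hp2.le 2) (by norm_num)
  have e4 : Real.pi ^ 4 ≤ (97.41 : ℝ) :=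
    le_trans (pow_le_pow_left₀ Real.pi_pos.le hp2.le 4) (by norm_num)
  have e6 : Real.pi ^ 6 ≤ (961.4 : ℝ) :=
    le_trans (pow_le_pow_left₀ Real.pi_pos.le hp2.le 6) (by norm_num)
  have g0 := mul_le_mul_of_nonneg_left hlog h0.le
  have g2 := mul_le_mul_of_nonneg_right e2 (pow_nonneg h0.le 3)
  have g4 := mul_le_mul_of_nonneg_right e4 (pow_nonneg h0.le 5)
  have g6 := mul_le_mul_of_nonneg_right e6 (pow_nonneg h0.le 7)
  rw [Lb_eq_neg_Fr]
  linarith

/-! ### Slopes at special points -/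

theorem Lg_zero_pos {x : ℝ} (h0 : 0 < x) (h1 : x < 1) :
    Lg 0 x = Real.log (2 * Real.sin (Real.pi * x)) := by
  have hs : 0 < Real.sin (Real.pi * x) :=
    Real.sin_pos_of_pos_of_lt_pi (by have := Real.pi_pos; positivity)
      (by have := Real.pi_pos; nlinarith)
  rw [Lg_zero_eq, abs_of_pos (by positivity)]

/-- `Lg` from the square of the sine. -/
theorem Lg_zero_sq {x s : ℝ} (h0 : 0 < x) (h1 : x < 1)
    (hs : 4 * Real.sin (Real.pi * x) ^ 2 = s) : Lg 0 x = Real.log s / 2 := by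
  have hp : 0 < Real.sin (Real.pi * x) :=
    Real.sin_pos_of_pos_of_lt_pi (by have := Real.pi_pos; positivity)
      (by have := Real.pi_pos; nlinarith)
  rw [Lg_zero_pos h0 h1, ← hs, show 4 * Real.sin (Real.pi * x) ^ 2 =
    (2 * Real.sin (Real.pi * x)) ^ 2 by ring, Real.log_pow]
  push_cast
  ring

theorem Lg_quarter : Lg 0 (1 / 4) = Real.log 2 / 2 := by
  apply Lg_zero_sq (by norm_num) (by norm_num)
  rw [show Real.pi * (1 / 4) = Real.pi / 4 by ring, Real.sin_pi_div_four, div_pow,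
    Real.sq_sqrt (by norm_num)]
  norm_num

theorem Lg_sixth : Lg 0 (1 / 6) = 0 := by
  rw [Lg_zero_sq (s := 1) (by norm_num) (by norm_num)]
  · simp
  · rw [show Real.pi * (1 / 6) = Real.pi / 6 by ring, Real.sin_pi_div_six]
    norm_num

theorem Lg_eighth : Lg 0 (1 / 8) = Real.log (2 - √2) / 2 := by
  apply Lg_zero_sq (by norm_num) (by norm_num)
  have h : √2 < 2 := by
    rw [Real.sqrt_lt' (by norm_num)]
    norm_num
  rw [show Real.pi * (1 / 8) = Real.pi / 8 by ring, Real.sin_pi_div_eight, div_pow,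
    Real.sq_sqrt (by linarith)]
  ring

theorem Lg_twelfth : Lg 0 (1 / 12) = Real.log (2 - √3) / 2 := by
  apply Lg_zero_sq (by norm_num) (by norm_num)
  have h := Real.cos_pi_div_six
  rw [show Real.pi / 6 = 2 * (Real.pi * (1 / 12)) by ring, Real.cos_two_mul] at h
  have h2 := Real.sin_sq_add_cos_sq (Real.pi * (1 / 12))
  linarith

theorem Lg_two_fifths : Lg 0 (2 / 5) = Real.log ((5 + √5) / 2) / 2 := by
  apply Lg_zero_sq (by norm_num) (by norm_num)
  have h := Real.cos_pi_div_five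
  have h3 : Real.cos (2 * (Real.pi * (2 / 5))) = -Real.cos (Real.pi / 5) := by
    rw [← Real.cos_pi_sub]
    congr 1
    ring
  rw [Real.cos_two_mul, h] at h3
  have h2 := Real.sin_sq_add_cos_sq (Real.pi * (2 / 5))
  linarith

theorem Lg_quarter_lo : 0.346573 ≤ Lg 0 (1 / 4) := by
  rw [Lg_quarter]
  linarith [Real.log_two_gt_d9]

theorem Lg_quarter_hi : Lg 0 (1 / 4) ≤ 0.346574 := by
  rw [Lg_quarter]
  linarith [Real.log_two_lt_d9]

theorem Lg_eighth_lo : -0.26745 ≤ Lg 0 (1 / 8) := by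
  rw [Lg_eighth]
  have hs : √2 ≤ 1.414214 := Real.sqrt_le_iff.2 ⟨by norm_num, by norm_num⟩
  have h := LC_le_log LC_half (q := 2 - √2) (t := 0.079) (by norm_num) (by norm_num)
    (by linarith)
  norm_num at h ⊢
  linarith

theorem Lg_eighth_hi : Lg 0 (1 / 8) ≤ -0.26735 := by
  rw [Lg_eighth]
  have hs : 1.414213 ≤ √2 := Real.le_sqrt_of_sq_le (by norm_num)
  have h := log_le_LC LC_half (q := 2 - √2) (t := 0.07902) (by
    have : √2 ≤ 1.5 := Real.sqrt_le_iff.2 ⟨by norm_num, by norm_num⟩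
    linarith) (by norm_num) (by norm_num)
    (by linarith)
  norm_num at h ⊢
  linarith

theorem Lg_twelfth_lo : -0.65855 ≤ Lg 0 (1 / 12) := by
  rw [Lg_twelfth]
  have hs : √3 ≤ 1.732051 := Real.sqrt_le_iff.2 ⟨by norm_num, by norm_num⟩
  have h := LC_le_log LC_quarter (q := 2 - √3) (t := 0.03465) (by norm_num) (by norm_num)
    (by linarith)
  norm_num at h ⊢
  linarith

theorem Lg_twelfth_hi : Lg 0 (1 / 12) ≤ -0.65845 := by
  rw [Lg_twelfth]
  have hs : 1.73205 ≤ √3 := Real.le_sqrt_of_sq_le (by norm_num)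
  have h := log_le_LC LC_quarter (q := 2 - √3) (t := 0.03466) (by
    have : √3 ≤ 1.8 := Real.sqrt_le_iff.2 ⟨by norm_num, by norm_num⟩
    linarith) (by norm_num) (by norm_num)
    (by linarith)
  norm_num at h ⊢
  linarith

theorem Lg_two_fifths_lo : 0.64292 ≤ Lg 0 (2 / 5) := by
  rw [Lg_two_fifths]
  have hs : 2.23606 ≤ √5 := Real.le_sqrt_of_sq_le (by norm_num)
  have h := LC_le_log LC_two (q := (5 + √5) / 2) (t := 0.288) (by norm_num) (by norm_num)
    (by linarith)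
  norm_num at h ⊢
  linarith

theorem Lg_two_fifths_hi : Lg 0 (2 / 5) ≤ 0.64302 := by
  rw [Lg_two_fifths]
  have hs : √5 ≤ 2.23607 := Real.sqrt_le_iff.2 ⟨by norm_num, by norm_num⟩
  have h := log_le_LC LC_two (q := (5 + √5) / 2) (t := 0.28801) (by positivity) (by norm_num)
    (by norm_num) (by linarith)
  norm_num at h ⊢
  linarith

end Pool.Agent.S5
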