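import Pool.Agent.S5.I.LbN

/-!
# Numerical values of `Lb`
-/

set_option autoImplicit false

namespace Pool.Agent.S5

open Pool.Agent.H63.VC3 Pool.Agent.S3 Complex MeasureTheory Filter Topology Set

theorem Lbv_008 : 9527 / 100000 ≤ Lb (1 / 25) ∧ Lb (1 / 25) ≤ 9528 / 100000 :=
  ⟨Lb_lo LC_quarter (1 / 25) (2648 / 1000000) _ (by norm_num) (by norm_num) (by norm_num) (by norm_num)
    (by norm_num) (by norm_num),
  Lb_hi LC_quarter (1 / 25) (2647 / 1000000) _ (by norm_num) (by norm_num) (by norm_num) (by norm_num)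
    (by norm_num) (by norm_num)⟩

theorem Lbv_009 : 10189 / 100000 ≤ Lb (9 / 200) ∧ Lb (9 / 200) ≤ 10190 / 100000 :=
  ⟨Lb_lo LC_quarter (9 / 200) (61462 / 1000000) _ (by norm_num) (by norm_num) (by norm_num) (by norm_num)
    (by norm_num) (by norm_num),
  Lb_hi LC_quarter (9 / 200) (61461 / 1000000) _ (by norm_num) (by norm_num) (by norm_num) (by norm_num)
    (by norm_num) (by norm_num)⟩

theorem Lbv_010 : 10796 / 100000 ≤ Lb (1 / 20) ∧ Lb (1 / 20) ≤ 10797 / 100000 :=
  ⟨Lb_lo LC_quarter (1 / 20) (113726 / 1000000) _ (by norm_num) (by norm_num) (by norm_num) (by norm_num)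
    (by norm_num) (by norm_num),
  Lb_hi LC_quarter (1 / 20) (113725 / 1000000) _ (by norm_num) (by norm_num) (by norm_num) (by norm_num)
    (by norm_num) (by norm_num)⟩

theorem Lbv_011 : 11353 / 100000 ≤ Lb (11 / 200) ∧ Lb (11 / 200) ≤ 11354 / 100000 :=
  ⟨Lb_lo LC_quarter (11 / 200) (160476 / 1000000) _ (by norm_num) (by norm_num) (by norm_num) (by norm_num)
    (by norm_num) (by norm_num),
  Lb_hi LC_quarter (11 / 200) (160475 / 1000000) _ (by norm_num) (by norm_num) (by norm_num) (by norm_num)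
    (by norm_num) (by norm_num)⟩

theorem Lbv_012 : 11865 / 100000 ≤ Lb (3 / 50) ∧ Lb (3 / 50) ≤ 11866 / 100000 :=
  ⟨Lb_lo LC_quarter (3 / 50) (202541 / 1000000) _ (by norm_num) (by norm_num) (by norm_num) (by norm_num)
    (by norm_num) (by norm_num),
  Lb_hi LC_quarter (3 / 50) (202540 / 1000000) _ (by norm_num) (by norm_num) (by norm_num) (by norm_num)
    (by norm_num) (by norm_num)⟩

theorem Lbv_013 : 12335 / 100000 ≤ Lb (13 / 200) ∧ Lb (13 / 200) ≤ 12336 / 100000 :=
  ⟨Lb_lo LC_quarter (13 / 200) (240592 / 1000000) _ (by norm_num) (by norm_num) (by norm_num) (by norm_num)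
    (by norm_num) (by norm_num),
  Lb_hi LC_quarter (13 / 200) (240591 / 1000000) _ (by norm_num) (by norm_num) (by norm_num) (by norm_num)
    (by norm_num) (by norm_num)⟩

theorem Lbv_014 : 12768 / 100000 ≤ Lb (7 / 100) ∧ Lb (7 / 100) ≤ 12769 / 100000 :=
  ⟨Lb_lo LC_quarter (7 / 100) (275177 / 1000000) _ (by norm_num) (by norm_num) (by norm_num) (by norm_num)
    (by norm_num) (by norm_num),
  Lb_hi LC_quarter (7 / 100) (275176 / 1000000) _ (by norm_num) (by norm_num) (by norm_num) (by norm_num)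
    (by norm_num) (by norm_num)⟩

theorem Lbv_015 : 13166 / 100000 ≤ Lb (3 / 40) ∧ Lb (3 / 40) ≤ 13167 / 100000 :=
  ⟨Lb_lo LC_quarter (3 / 40) (306749 / 1000000) _ (by norm_num) (by norm_num) (by norm_num) (by norm_num)
    (by norm_num) (by norm_num),
  Lb_hi LC_quarter (3 / 40) (306748 / 1000000) _ (by norm_num) (by norm_num) (by norm_num) (by norm_num)
    (by norm_num) (by norm_num)⟩

theorem Lbv_016 : 13530 / 100000 ≤ Lb (2 / 25) ∧ Lb (2 / 25) ≤ 13531 / 100000 :=
  ⟨Lb_lo LC_half (2 / 25) (2648 / 1000000) _ (by norm_num) (by norm_num) (by norm_num) (by norm_num)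
    (by norm_num) (by norm_num),
  Lb_hi LC_half (2 / 25) (2647 / 1000000) _ (by norm_num) (by norm_num) (by norm_num) (by norm_num)
    (by norm_num) (by norm_num)⟩

theorem Lbv_017 : 13865 / 100000 ≤ Lb (17 / 200) ∧ Lb (17 / 200) ≤ 13866 / 100000 :=
  ⟨Lb_lo LC_half (17 / 200) (32949 / 1000000) _ (by norm_num) (by norm_num) (by norm_num) (by norm_num)
    (by norm_num) (by norm_num),
  Lb_hi LC_half (17 / 200) (32948 / 1000000) _ (by norm_num) (by norm_num) (by norm_num) (by norm_num)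
    (by norm_num) (by norm_num)⟩

theorem Lbv_018 : 14170 / 100000 ≤ Lb (9 / 100) ∧ Lb (9 / 100) ≤ 14171 / 100000 :=
  ⟨Lb_lo LC_half (9 / 100) (61462 / 1000000) _ (by norm_num) (by norm_num) (by norm_num) (by norm_num)
    (by norm_num) (by norm_num),
  Lb_hi LC_half (9 / 100) (61461 / 1000000) _ (by norm_num) (by norm_num) (by norm_num) (by norm_num)
    (by norm_num) (by norm_num)⟩

theorem Lbv_019 : 14449 / 100000 ≤ Lb (19 / 200) ∧ Lb (19 / 200) ≤ 14450 / 100000 :=
  ⟨Lb_lo LC_half (19 / 200) (88343 / 1000000) _ (by norm_num) (by norm_num) (by norm_num) (by norm_num)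
    (by norm_num) (by norm_num),
  Lb_hi LC_half (19 / 200) (88341 / 1000000) _ (by norm_num) (by norm_num) (by norm_num) (by norm_num)
    (by norm_num) (by norm_num)⟩

theorem Lbv_020 : 14702 / 100000 ≤ Lb (1 / 10) ∧ Lb (1 / 10) ≤ 14703 / 100000 :=
  ⟨Lb_lo LC_half (1 / 10) (113726 / 1000000) _ (by norm_num) (by norm_num) (by norm_num) (by norm_num)
    (by norm_num) (by norm_num),
  Lb_hi LC_half (1 / 10) (113725 / 1000000) _ (by norm_num) (by norm_num) (by norm_num) (by norm_num)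
    (by norm_num) (by norm_num)⟩

theorem Lbv_021 : 14930 / 100000 ≤ Lb (21 / 200) ∧ Lb (21 / 200) ≤ 14931 / 100000 :=
  ⟨Lb_lo LC_half (21 / 200) (137734 / 1000000) _ (by norm_num) (by norm_num) (by norm_num) (by norm_num)
    (by norm_num) (by norm_num),
  Lb_hi LC_half (21 / 200) (137733 / 1000000) _ (by norm_num) (by norm_num) (by norm_num) (by norm_num)
    (by norm_num) (by norm_num)⟩

theorem Lbv_022 : 15136 / 100000 ≤ Lb (11 / 100) ∧ Lb (11 / 100) ≤ 15137 / 100000 :=
  ⟨Lb_lo LC_half (11 / 100) (160476 / 1000000) _ (by norm_num) (by norm_num) (by norm_num) (by norm_num)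
    (by norm_num) (by norm_num),
  Lb_hi LC_half (11 / 100) (160475 / 1000000) _ (by norm_num) (by norm_num) (by norm_num) (by norm_num)
    (by norm_num) (by norm_num)⟩

theorem Lbv_023 : 15320 / 100000 ≤ Lb (23 / 200) ∧ Lb (23 / 200) ≤ 15321 / 100000 :=
  ⟨Lb_lo LC_half (23 / 200) (182049 / 1000000) _ (by norm_num) (by norm_num) (by norm_num) (by norm_num)
    (by norm_num) (by norm_num),
  Lb_hi LC_half (23 / 200) (182048 / 1000000) _ (by norm_num) (by norm_num) (by norm_num) (by norm_num)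
    (by norm_num) (by norm_num)⟩

theorem Lbv_024 : 15483 / 100000 ≤ Lb (3 / 25) ∧ Lb (3 / 25) ≤ 15484 / 100000 :=
  ⟨Lb_lo LC_half (3 / 25) (202541 / 1000000) _ (by norm_num) (by norm_num) (by norm_num) (by norm_num)
    (by norm_num) (by norm_num),
  Lb_hi LC_half (3 / 25) (202540 / 1000000) _ (by norm_num) (by norm_num) (by norm_num) (by norm_num)
    (by norm_num) (by norm_num)⟩

theorem Lbv_025 : 15626 / 100000 ≤ Lb (1 / 8) ∧ Lb (1 / 8) ≤ 15628 / 100000 :=
  ⟨Lb_lo LC_half (1 / 8) (222031 / 1000000) _ (by norm_num) (by norm_num) (by norm_num) (by norm_num)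
    (by norm_num) (by norm_num),
  Lb_hi LC_half (1 / 8) (222030 / 1000000) _ (by norm_num) (by norm_num) (by norm_num) (by norm_num)
    (by norm_num) (by norm_num)⟩

theorem Lbv_026 : 15751 / 100000 ≤ Lb (13 / 100) ∧ Lb (13 / 100) ≤ 15752 / 100000 :=
  ⟨Lb_lo LC_half (13 / 100) (240592 / 1000000) _ (by norm_num) (by norm_num) (by norm_num) (by norm_num)
    (by norm_num) (by norm_num),
  Lb_hi LC_half (13 / 100) (240591 / 1000000) _ (by norm_num) (by norm_num) (by norm_num) (by norm_num)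
    (by norm_num) (by norm_num)⟩

theorem Lbv_027 : 15857 / 100000 ≤ Lb (27 / 200) ∧ Lb (27 / 200) ≤ 15858 / 100000 :=
  ⟨Lb_lo LC_half (27 / 200) (258287 / 1000000) _ (by norm_num) (by norm_num) (by norm_num) (by norm_num)
    (by norm_num) (by norm_num),
  Lb_hi LC_half (27 / 200) (258286 / 1000000) _ (by norm_num) (by norm_num) (by norm_num) (by norm_num)
    (by norm_num) (by norm_num)⟩

theorem Lbv_028 : 15946 / 100000 ≤ Lb (7 / 50) ∧ Lb (7 / 50) ≤ 15947 / 100000 :=
  ⟨Lb_lo LC_half (7 / 50) (275177 / 1000000) _ (by norm_num) (by norm_num) (by norm_num) (by norm_num)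
    (by norm_num) (by norm_num),
  Lb_hi LC_half (7 / 50) (275176 / 1000000) _ (by norm_num) (by norm_num) (by norm_num) (by norm_num)
    (by norm_num) (by norm_num)⟩

theorem Lbv_029 : 16018 / 100000 ≤ Lb (29 / 200) ∧ Lb (29 / 200) ≤ 16019 / 100000 :=
  ⟨Lb_lo LC_half (29 / 200) (291314 / 1000000) _ (by norm_num) (by norm_num) (by norm_num) (by norm_num)
    (by norm_num) (by norm_num),
  Lb_hi LC_half (29 / 200) (291313 / 1000000) _ (by norm_num) (by norm_num) (by norm_num) (by norm_num)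
    (by norm_num) (by norm_num)⟩

theorem Lbv_030 : 16074 / 100000 ≤ Lb (3 / 20) ∧ Lb (3 / 20) ≤ 16075 / 100000 :=
  ⟨Lb_lo LC_half (3 / 20) (306749 / 1000000) _ (by norm_num) (by norm_num) (by norm_num) (by norm_num)
    (by norm_num) (by norm_num),
  Lb_hi LC_half (3 / 20) (306748 / 1000000) _ (by norm_num) (by norm_num) (by norm_num) (by norm_num)
    (by norm_num) (by norm_num)⟩

theorem Lbv_031 : 16115 / 100000 ≤ Lb (31 / 200) ∧ Lb (31 / 200) ≤ 16116 / 100000 :=
  ⟨Lb_lo LC_half (31 / 200) (321526 / 1000000) _ (by norm_num) (by norm_num) (by norm_num) (by norm_num)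
    (by norm_num) (by norm_num),
  Lb_hi LC_half (31 / 200) (321524 / 1000000) _ (by norm_num) (by norm_num) (by norm_num) (by norm_num)
    (by norm_num) (by norm_num)⟩

theorem Lbv_032 : 16140 / 100000 ≤ Lb (4 / 25) ∧ Lb (4 / 25) ≤ 16142 / 100000 :=
  ⟨Lb_lo LC_one (4 / 25) (2648 / 1000000) _ (by norm_num) (by norm_num) (by norm_num) (by norm_num)
    (by norm_num) (by norm_num),
  Lb_hi LC_one (4 / 25) (2647 / 1000000) _ (by norm_num) (by norm_num) (by norm_num) (by norm_num)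
    (by norm_num) (by norm_num)⟩

theorem Lbv_033 : 16152 / 100000 ≤ Lb (33 / 200) ∧ Lb (33 / 200) ≤ 16153 / 100000 :=
  ⟨Lb_lo LC_one (33 / 200) (18032 / 1000000) _ (by norm_num) (by norm_num) (by norm_num) (by norm_num)
    (by norm_num) (by norm_num),
  Lb_hi LC_one (33 / 200) (18031 / 1000000) _ (by norm_num) (by norm_num) (by norm_num) (by norm_num)
    (by norm_num) (by norm_num)⟩

theorem Lbv_034 : 16150 / 100000 ≤ Lb (17 / 100) ∧ Lb (17 / 100) ≤ 16151 / 100000 :=
  ⟨Lb_lo LC_one (17 / 100) (32949 / 1000000) _ (by norm_num) (by norm_num) (by norm_num) (by norm_num)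
    (by norm_num) (by norm_num),
  Lb_hi LC_one (17 / 100) (32948 / 1000000) _ (by norm_num) (by norm_num) (by norm_num) (by norm_num)
    (by norm_num) (by norm_num)⟩

theorem Lbv_035 : 16134 / 100000 ≤ Lb (7 / 40) ∧ Lb (7 / 40) ≤ 16135 / 100000 :=
  ⟨Lb_lo LC_one (7 / 40) (47419 / 1000000) _ (by norm_num) (by norm_num) (by norm_num) (by norm_num)
    (by norm_num) (by norm_num),
  Lb_hi LC_one (7 / 40) (47418 / 1000000) _ (by norm_num) (by norm_num) (by norm_num) (by norm_num)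
    (by norm_num) (by norm_num)⟩

theorem Lbv_036 : 16106 / 100000 ≤ Lb (9 / 50) ∧ Lb (9 / 50) ≤ 16107 / 100000 :=
  ⟨Lb_lo LC_one (9 / 50) (61462 / 1000000) _ (by norm_num) (by norm_num) (by norm_num) (by norm_num)
    (by norm_num) (by norm_num),
  Lb_hi LC_one (9 / 50) (61461 / 1000000) _ (by norm_num) (by norm_num) (by norm_num) (by norm_num)
    (by norm_num) (by norm_num)⟩

theorem Lbv_037 : 16065 / 100000 ≤ Lb (37 / 200) ∧ Lb (37 / 200) ≤ 16066 / 100000 :=
  ⟨Lb_lo LC_one (37 / 200) (75098 / 1000000) _ (by norm_num) (by norm_num) (by norm_num) (by norm_num)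
    (by norm_num) (by norm_num),
  Lb_hi LC_one (37 / 200) (75097 / 1000000) _ (by norm_num) (by norm_num) (by norm_num) (by norm_num)
    (by norm_num) (by norm_num)⟩

theorem Lbv_038 : 16013 / 100000 ≤ Lb (19 / 100) ∧ Lb (19 / 100) ≤ 16014 / 100000 :=
  ⟨Lb_lo LC_one (19 / 100) (88343 / 1000000) _ (by norm_num) (by norm_num) (by norm_num) (by norm_num)
    (by norm_num) (by norm_num),
  Lb_hi LC_one (19 / 100) (88341 / 1000000) _ (by norm_num) (by norm_num) (by norm_num) (by norm_num)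
    (by norm_num) (by norm_num)⟩

theorem Lbv_039 : 15948 / 100000 ≤ Lb (39 / 200) ∧ Lb (39 / 200) ≤ 15949 / 100000 :=
  ⟨Lb_lo LC_one (39 / 200) (101213 / 1000000) _ (by norm_num) (by norm_num) (by norm_num) (by norm_num)
    (by norm_num) (by norm_num),
  Lb_hi LC_one (39 / 200) (101212 / 1000000) _ (by norm_num) (by norm_num) (by norm_num) (by norm_num)
    (by norm_num) (by norm_num)⟩

theorem Lbv_040 : 15873 / 100000 ≤ Lb (1 / 5) ∧ Lb (1 / 5) ≤ 15874 / 100000 :=
  ⟨Lb_lo LC_one (1 / 5) (113726 / 1000000) _ (by norm_num) (by norm_num) (by norm_num) (by norm_num)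
    (by norm_num) (by norm_num),
  Lb_hi LC_one (1 / 5) (113725 / 1000000) _ (by norm_num) (by norm_num) (by norm_num) (by norm_num)
    (by norm_num) (by norm_num)⟩

theorem Lbv_041 : 15787 / 100000 ≤ Lb (41 / 200) ∧ Lb (41 / 200) ≤ 15788 / 100000 :=
  ⟨Lb_lo LC_one (41 / 200) (125895 / 1000000) _ (by norm_num) (by norm_num) (by norm_num) (by norm_num)
    (by norm_num) (by norm_num),
  Lb_hi LC_one (41 / 200) (125894 / 1000000) _ (by norm_num) (by norm_num) (by norm_num) (by norm_num)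
    (by norm_num) (by norm_num)⟩

theorem Lbv_042 : 15690 / 100000 ≤ Lb (21 / 100) ∧ Lb (21 / 100) ≤ 15691 / 100000 :=
  ⟨Lb_lo LC_one (21 / 100) (137734 / 1000000) _ (by norm_num) (by norm_num) (by norm_num) (by norm_num)
    (by norm_num) (by norm_num),
  Lb_hi LC_one (21 / 100) (137733 / 1000000) _ (by norm_num) (by norm_num) (by norm_num) (by norm_num)
    (by norm_num) (by norm_num)⟩

theorem Lbv_043 : 15583 / 100000 ≤ Lb (43 / 200) ∧ Lb (43 / 200) ≤ 15584 / 100000 :=
  ⟨Lb_lo LC_one (43 / 200) (149257 / 1000000) _ (by norm_num) (by norm_num) (by norm_num) (by norm_num)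
    (by norm_num) (by norm_num),
  Lb_hi LC_one (43 / 200) (149256 / 1000000) _ (by norm_num) (by norm_num) (by norm_num) (by norm_num)
    (by norm_num) (by norm_num)⟩

theorem Lbv_044 : 15467 / 100000 ≤ Lb (11 / 50) ∧ Lb (11 / 50) ≤ 15468 / 100000 :=
  ⟨Lb_lo LC_one (11 / 50) (160476 / 1000000) _ (by norm_num) (by norm_num) (by norm_num) (by norm_num)
    (by norm_num) (by norm_num),
  Lb_hi LC_one (11 / 50) (160475 / 1000000) _ (by norm_num) (by norm_num) (by norm_num) (by norm_num)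
    (by norm_num) (by norm_num)⟩

theorem Lbv_045 : 15340 / 100000 ≤ Lb (9 / 40) ∧ Lb (9 / 40) ≤ 15341 / 100000 :=
  ⟨Lb_lo LC_one (9 / 40) (171403 / 1000000) _ (by norm_num) (by norm_num) (by norm_num) (by norm_num)
    (by norm_num) (by norm_num),
  Lb_hi LC_one (9 / 40) (171402 / 1000000) _ (by norm_num) (by norm_num) (by norm_num) (by norm_num)
    (by norm_num) (by norm_num)⟩

theorem Lbv_046 : 15205 / 100000 ≤ Lb (23 / 100) ∧ Lb (23 / 100) ≤ 15206 / 100000 :=
  ⟨Lb_lo LC_one (23 / 100) (182049 / 1000000) _ (by norm_num) (by norm_num) (by norm_num) (by norm_num)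
    (by norm_num) (by norm_num),
  Lb_hi LC_one (23 / 100) (182048 / 1000000) _ (by norm_num) (by norm_num) (by norm_num) (by norm_num)
    (by norm_num) (by norm_num)⟩

theorem Lbv_047 : 15061 / 100000 ≤ Lb (47 / 200) ∧ Lb (47 / 200) ≤ 15062 / 100000 :=
  ⟨Lb_lo LC_one (47 / 200) (192425 / 1000000) _ (by norm_num) (by norm_num) (by norm_num) (by norm_num)
    (by norm_num) (by norm_num),
  Lb_hi LC_one (47 / 200) (192424 / 1000000) _ (by norm_num) (by norm_num) (by norm_num) (by norm_num)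
    (by norm_num) (by norm_num)⟩

theorem Lbv_048 : 14908 / 100000 ≤ Lb (6 / 25) ∧ Lb (6 / 25) ≤ 14909 / 100000 :=
  ⟨Lb_lo LC_one (6 / 25) (202541 / 1000000) _ (by norm_num) (by norm_num) (by norm_num) (by norm_num)
    (by norm_num) (by norm_num),
  Lb_hi LC_one (6 / 25) (202540 / 1000000) _ (by norm_num) (by norm_num) (by norm_num) (by norm_num)
    (by norm_num) (by norm_num)⟩

theorem Lbv_049 : 14747 / 100000 ≤ Lb (49 / 200) ∧ Lb (49 / 200) ≤ 14748 / 100000 :=
  ⟨Lb_lo LC_one (49 / 200) (212407 / 1000000) _ (by norm_num) (by norm_num) (by norm_num) (by norm_num)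
    (by norm_num) (by norm_num),
  Lb_hi LC_one (49 / 200) (212406 / 1000000) _ (by norm_num) (by norm_num) (by norm_num) (by norm_num)
    (by norm_num) (by norm_num)⟩

theorem Lbv_050 : 14578 / 100000 ≤ Lb (1 / 4) ∧ Lb (1 / 4) ≤ 14579 / 100000 :=
  ⟨Lb_lo LC_one (1 / 4) (222031 / 1000000) _ (by norm_num) (by norm_num) (by norm_num) (by norm_num)
    (by norm_num) (by norm_num),
  Lb_hi LC_one (1 / 4) (222030 / 1000000) _ (by norm_num) (by norm_num) (by norm_num) (by norm_num)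
    (by norm_num) (by norm_num)⟩

theorem Lbv_051 : 14400 / 100000 ≤ Lb (51 / 200) ∧ Lb (51 / 200) ≤ 14401 / 100000 :=
  ⟨Lb_lo LC_one (51 / 200) (231424 / 1000000) _ (by norm_num) (by norm_num) (by norm_num) (by norm_num)
    (by norm_num) (by norm_num),
  Lb_hi LC_one (51 / 200) (231423 / 1000000) _ (by norm_num) (by norm_num) (by norm_num) (by norm_num)
    (by norm_num) (by norm_num)⟩

theorem Lbv_052 : 14216 / 100000 ≤ Lb (13 / 50) ∧ Lb (13 / 50) ≤ 14217 / 100000 :=
  ⟨Lb_lo LC_one (13 / 50) (240592 / 1000000) _ (by norm_num) (by norm_num) (by norm_num) (by norm_num)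
    (by norm_num) (by norm_num),
  Lb_hi LC_one (13 / 50) (240591 / 1000000) _ (by norm_num) (by norm_num) (by norm_num) (by norm_num)
    (by norm_num) (by norm_num)⟩

theorem Lbv_053 : 14023 / 100000 ≤ Lb (53 / 200) ∧ Lb (53 / 200) ≤ 14024 / 100000 :=
  ⟨Lb_lo LC_one (53 / 200) (249544 / 1000000) _ (by norm_num) (by norm_num) (by norm_num) (by norm_num)
    (by norm_num) (by norm_num),
  Lb_hi LC_one (53 / 200) (249543 / 1000000) _ (by norm_num) (by norm_num) (by norm_num) (by norm_num)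
    (by norm_num) (by norm_num)⟩

theorem Lbv_054 : 13824 / 100000 ≤ Lb (27 / 100) ∧ Lb (27 / 100) ≤ 13825 / 100000 :=
  ⟨Lb_lo LC_one (27 / 100) (258287 / 1000000) _ (by norm_num) (by norm_num) (by norm_num) (by norm_num)
    (by norm_num) (by norm_num),
  Lb_hi LC_one (27 / 100) (258286 / 1000000) _ (by norm_num) (by norm_num) (by norm_num) (by norm_num)
    (by norm_num) (by norm_num)⟩

theorem Lbv_055 : 13618 / 100000 ≤ Lb (11 / 40) ∧ Lb (11 / 40) ≤ 13619 / 100000 :=
  ⟨Lb_lo LC_one (11 / 40) (266829 / 1000000) _ (by norm_num) (by norm_num) (by norm_num) (by norm_num)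
    (by norm_num) (by norm_num),
  Lb_hi LC_one (11 / 40) (266828 / 1000000) _ (by norm_num) (by norm_num) (by norm_num) (by norm_num)
    (by norm_num) (by norm_num)⟩

theorem Lbv_056 : 13405 / 100000 ≤ Lb (7 / 25) ∧ Lb (7 / 25) ≤ 13406 / 100000 :=
  ⟨Lb_lo LC_one (7 / 25) (275177 / 1000000) _ (by norm_num) (by norm_num) (by norm_num) (by norm_num)
    (by norm_num) (by norm_num),
  Lb_hi LC_one (7 / 25) (275176 / 1000000) _ (by norm_num) (by norm_num) (by norm_num) (by norm_num)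
    (by norm_num) (by norm_num)⟩

theorem Lbv_057 : 13185 / 100000 ≤ Lb (57 / 200) ∧ Lb (57 / 200) ≤ 13187 / 100000 :=
  ⟨Lb_lo LC_one (57 / 200) (283336 / 1000000) _ (by norm_num) (by norm_num) (by norm_num) (by norm_num)
    (by norm_num) (by norm_num),
  Lb_hi LC_one (57 / 200) (283335 / 1000000) _ (by norm_num) (by norm_num) (by norm_num) (by norm_num)
    (by norm_num) (by norm_num)⟩

theorem Lbv_058 : 12960 / 100000 ≤ Lb (29 / 100) ∧ Lb (29 / 100) ≤ 12961 / 100000 :=
  ⟨Lb_lo LC_one (29 / 100) (291314 / 1000000) _ (by norm_num) (by norm_num) (by norm_num) (by norm_num)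
    (by norm_num) (by norm_num),
  Lb_hi LC_one (29 / 100) (291313 / 1000000) _ (by norm_num) (by norm_num) (by norm_num) (by norm_num)
    (by norm_num) (by norm_num)⟩

theorem Lbv_059 : 12728 / 100000 ≤ Lb (59 / 200) ∧ Lb (59 / 200) ≤ 12729 / 100000 :=
  ⟨Lb_lo LC_one (59 / 200) (299117 / 1000000) _ (by norm_num) (by norm_num) (by norm_num) (by norm_num)
    (by norm_num) (by norm_num),
  Lb_hi LC_one (59 / 200) (299116 / 1000000) _ (by norm_num) (by norm_num) (by norm_num) (by norm_num)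
    (by norm_num) (by norm_num)⟩

theorem Lbv_060 : 12490 / 100000 ≤ Lb (3 / 10) ∧ Lb (3 / 10) ≤ 12491 / 100000 :=
  ⟨Lb_lo LC_one (3 / 10) (306749 / 1000000) _ (by norm_num) (by norm_num) (by norm_num) (by norm_num)
    (by norm_num) (by norm_num),
  Lb_hi LC_one (3 / 10) (306748 / 1000000) _ (by norm_num) (by norm_num) (by norm_num) (by norm_num)
    (by norm_num) (by norm_num)⟩

theorem Lbv_061 : 12247 / 100000 ≤ Lb (61 / 200) ∧ Lb (61 / 200) ≤ 12248 / 100000 :=
  ⟨Lb_lo LC_one (61 / 200) (314217 / 1000000) _ (by norm_num) (by norm_num) (by norm_num) (by norm_num)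
    (by norm_num) (by norm_num),
  Lb_hi LC_one (61 / 200) (314216 / 1000000) _ (by norm_num) (by norm_num) (by norm_num) (by norm_num)
    (by norm_num) (by norm_num)⟩

theorem Lbv_062 : 11998 / 100000 ≤ Lb (31 / 100) ∧ Lb (31 / 100) ≤ 11999 / 100000 :=
  ⟨Lb_lo LC_one (31 / 100) (321526 / 1000000) _ (by norm_num) (by norm_num) (by norm_num) (by norm_num)
    (by norm_num) (by norm_num),
  Lb_hi LC_one (31 / 100) (321524 / 1000000) _ (by norm_num) (by norm_num) (by norm_num) (by norm_num)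
    (by norm_num) (by norm_num)⟩

theorem Lbv_063 : 11743 / 100000 ≤ Lb (63 / 200) ∧ Lb (63 / 200) ≤ 11745 / 100000 :=
  ⟨Lb_lo LC_one (63 / 200) (328680 / 1000000) _ (by norm_num) (by norm_num) (by norm_num) (by norm_num)
    (by norm_num) (by norm_num),
  Lb_hi LC_one (63 / 200) (328679 / 1000000) _ (by norm_num) (by norm_num) (by norm_num) (by norm_num)
    (by norm_num) (by norm_num)⟩

theorem Lbv_064 : 11484 / 100000 ≤ Lb (8 / 25) ∧ Lb (8 / 25) ≤ 11485 / 100000 :=
  ⟨Lb_lo LC_two (8 / 25) (2648 / 1000000) _ (by norm_num) (by norm_num) (by norm_num) (by norm_num)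
    (by norm_num) (by norm_num),
  Lb_hi LC_two (8 / 25) (2647 / 1000000) _ (by norm_num) (by norm_num) (by norm_num) (by norm_num)
    (by norm_num) (by norm_num)⟩

theorem Lbv_065 : 11220 / 100000 ≤ Lb (13 / 40) ∧ Lb (13 / 40) ≤ 11221 / 100000 :=
  ⟨Lb_lo LC_two (13 / 40) (10400 / 1000000) _ (by norm_num) (by norm_num) (by norm_num) (by norm_num)
    (by norm_num) (by norm_num),
  Lb_hi LC_two (13 / 40) (10399 / 1000000) _ (by norm_num) (by norm_num) (by norm_num) (by norm_num)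
    (by norm_num) (by norm_num)⟩

theorem Lbv_066 : 10950 / 100000 ≤ Lb (33 / 100) ∧ Lb (33 / 100) ≤ 10952 / 100000 :=
  ⟨Lb_lo LC_two (33 / 100) (18032 / 1000000) _ (by norm_num) (by norm_num) (by norm_num) (by norm_num)
    (by norm_num) (by norm_num),
  Lb_hi LC_two (33 / 100) (18031 / 1000000) _ (by norm_num) (by norm_num) (by norm_num) (by norm_num)
    (by norm_num) (by norm_num)⟩

theorem Lbv_067 : 10676 / 100000 ≤ Lb (67 / 200) ∧ Lb (67 / 200) ≤ 10678 / 100000 :=
  ⟨Lb_lo LC_two (67 / 200) (25548 / 1000000) _ (by norm_num) (by norm_num) (by norm_num) (by norm_num)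
    (by norm_num) (by norm_num),
  Lb_hi LC_two (67 / 200) (25546 / 1000000) _ (by norm_num) (by norm_num) (by norm_num) (by norm_num)
    (by norm_num) (by norm_num)⟩

theorem Lbv_068 : 10398 / 100000 ≤ Lb (17 / 50) ∧ Lb (17 / 50) ≤ 10399 / 100000 :=
  ⟨Lb_lo LC_two (17 / 50) (32949 / 1000000) _ (by norm_num) (by norm_num) (by norm_num) (by norm_num)
    (by norm_num) (by norm_num),
  Lb_hi LC_two (17 / 50) (32948 / 1000000) _ (by norm_num) (by norm_num) (by norm_num) (by norm_num)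
    (by norm_num) (by norm_num)⟩

theorem Lbv_069 : 10115 / 100000 ≤ Lb (69 / 200) ∧ Lb (69 / 200) ≤ 10117 / 100000 :=
  ⟨Lb_lo LC_two (69 / 200) (40238 / 1000000) _ (by norm_num) (by norm_num) (by norm_num) (by norm_num)
    (by norm_num) (by norm_num),
  Lb_hi LC_two (69 / 200) (40237 / 1000000) _ (by norm_num) (by norm_num) (by norm_num) (by norm_num)
    (by norm_num) (by norm_num)⟩

theorem Lbv_070 : 9828 / 100000 ≤ Lb (7 / 20) ∧ Lb (7 / 20) ≤ 9830 / 100000 :=
  ⟨Lb_lo LC_two (7 / 20) (47419 / 1000000) _ (by norm_num) (by norm_num) (by norm_num) (by norm_num)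
    (by norm_num) (by norm_num),
  Lb_hi LC_two (7 / 20) (47418 / 1000000) _ (by norm_num) (by norm_num) (by norm_num) (by norm_num)
    (by norm_num) (by norm_num)⟩

theorem Lbv_071 : 9537 / 100000 ≤ Lb (71 / 200) ∧ Lb (71 / 200) ≤ 9539 / 100000 :=
  ⟨Lb_lo LC_two (71 / 200) (54493 / 1000000) _ (by norm_num) (by norm_num) (by norm_num) (by norm_num)
    (by norm_num) (by norm_num),
  Lb_hi LC_two (71 / 200) (54492 / 1000000) _ (by norm_num) (by norm_num) (by norm_num) (by norm_num)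
    (by norm_num) (by norm_num)⟩

theorem Lbv_072 : 9243 / 100000 ≤ Lb (9 / 25) ∧ Lb (9 / 25) ≤ 9244 / 100000 :=
  ⟨Lb_lo LC_two (9 / 25) (61462 / 1000000) _ (by norm_num) (by norm_num) (by norm_num) (by norm_num)
    (by norm_num) (by norm_num),
  Lb_hi LC_two (9 / 25) (61461 / 1000000) _ (by norm_num) (by norm_num) (by norm_num) (by norm_num)
    (by norm_num) (by norm_num)⟩

theorem Lbv_073 : 8944 / 100000 ≤ Lb (73 / 200) ∧ Lb (73 / 200) ≤ 8946 / 100000 :=
  ⟨Lb_lo LC_two (73 / 200) (68330 / 1000000) _ (by norm_num) (by norm_num) (by norm_num) (by norm_num)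
    (by norm_num) (by norm_num),
  Lb_hi LC_two (73 / 200) (68329 / 1000000) _ (by norm_num) (by norm_num) (by norm_num) (by norm_num)
    (by norm_num) (by norm_num)⟩

theorem Lbv_074 : 8642 / 100000 ≤ Lb (37 / 100) ∧ Lb (37 / 100) ≤ 8644 / 100000 :=
  ⟨Lb_lo LC_two (37 / 100) (75098 / 1000000) _ (by norm_num) (by norm_num) (by norm_num) (by norm_num)
    (by norm_num) (by norm_num),
  Lb_hi LC_two (37 / 100) (75097 / 1000000) _ (by norm_num) (by norm_num) (by norm_num) (by norm_num)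
    (by norm_num) (by norm_num)⟩

theorem Lbv_075 : 8337 / 100000 ≤ Lb (3 / 8) ∧ Lb (3 / 8) ≤ 8339 / 100000 :=
  ⟨Lb_lo LC_two (3 / 8) (81768 / 1000000) _ (by norm_num) (by norm_num) (by norm_num) (by norm_num)
    (by norm_num) (by norm_num),
  Lb_hi LC_two (3 / 8) (81767 / 1000000) _ (by norm_num) (by norm_num) (by norm_num) (by norm_num)
    (by norm_num) (by norm_num)⟩

theorem Lbv_076 : 8028 / 100000 ≤ Lb (19 / 50) ∧ Lb (19 / 50) ≤ 8030 / 100000 :=
  ⟨Lb_lo LC_two (19 / 50) (88343 / 1000000) _ (by norm_num) (by norm_num) (by norm_num) (by norm_num)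
    (by norm_num) (by norm_num),
  Lb_hi LC_two (19 / 50) (88341 / 1000000) _ (by norm_num) (by norm_num) (by norm_num) (by norm_num)
    (by norm_num) (by norm_num)⟩

theorem Lbv_077 : 7717 / 100000 ≤ Lb (77 / 200) ∧ Lb (77 / 200) ≤ 7718 / 100000 :=
  ⟨Lb_lo LC_two (77 / 200) (94824 / 1000000) _ (by norm_num) (by norm_num) (by norm_num) (by norm_num)
    (by norm_num) (by norm_num),
  Lb_hi LC_two (77 / 200) (94823 / 1000000) _ (by norm_num) (by norm_num) (by norm_num) (by norm_num)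
    (by norm_num) (by norm_num)⟩

theorem Lbv_078 : 7402 / 100000 ≤ Lb (39 / 100) ∧ Lb (39 / 100) ≤ 7404 / 100000 :=
  ⟨Lb_lo LC_two (39 / 100) (101213 / 1000000) _ (by norm_num) (by norm_num) (by norm_num) (by norm_num)
    (by norm_num) (by norm_num),
  Lb_hi LC_two (39 / 100) (101212 / 1000000) _ (by norm_num) (by norm_num) (by norm_num) (by norm_num)
    (by norm_num) (by norm_num)⟩

theorem Lbv_079 : 7084 / 100000 ≤ Lb (79 / 200) ∧ Lb (79 / 200) ≤ 7086 / 100000 :=
  ⟨Lb_lo LC_two (79 / 200) (107514 / 1000000) _ (by norm_num) (by norm_num) (by norm_num) (by norm_num)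
    (by norm_num) (by norm_num),
  Lb_hi LC_two (79 / 200) (107512 / 1000000) _ (by norm_num) (by norm_num) (by norm_num) (by norm_num)
    (by norm_num) (by norm_num)⟩

theorem Lbv_080 : 6764 / 100000 ≤ Lb (2 / 5) ∧ Lb (2 / 5) ≤ 6766 / 100000 :=
  ⟨Lb_lo LC_two (2 / 5) (113726 / 1000000) _ (by norm_num) (by norm_num) (by norm_num) (by norm_num)
    (by norm_num) (by norm_num),
  Lb_hi LC_two (2 / 5) (113725 / 1000000) _ (by norm_num) (by norm_num) (by norm_num) (by norm_num)
    (by norm_num) (by norm_num)⟩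

theorem Lbv_081 : 6441 / 100000 ≤ Lb (81 / 200) ∧ Lb (81 / 200) ≤ 6443 / 100000 :=
  ⟨Lb_lo LC_two (81 / 200) (119853 / 1000000) _ (by norm_num) (by norm_num) (by norm_num) (by norm_num)
    (by norm_num) (by norm_num),
  Lb_hi LC_two (81 / 200) (119851 / 1000000) _ (by norm_num) (by norm_num) (by norm_num) (by norm_num)
    (by norm_num) (by norm_num)⟩

theorem Lbv_082 : 6116 / 100000 ≤ Lb (41 / 100) ∧ Lb (41 / 100) ≤ 6118 / 100000 :=
  ⟨Lb_lo LC_two (41 / 100) (125895 / 1000000) _ (by norm_num) (by norm_num) (by norm_num) (by norm_num)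
    (by norm_num) (by norm_num),
  Lb_hi LC_two (41 / 100) (125894 / 1000000) _ (by norm_num) (by norm_num) (by norm_num) (by norm_num)
    (by norm_num) (by norm_num)⟩

theorem Lbv_083 : 5788 / 100000 ≤ Lb (83 / 200) ∧ Lb (83 / 200) ≤ 5791 / 100000 :=
  ⟨Lb_lo LC_two (83 / 200) (131855 / 1000000) _ (by norm_num) (by norm_num) (by norm_num) (by norm_num)
    (by norm_num) (by norm_num),
  Lb_hi LC_two (83 / 200) (131854 / 1000000) _ (by norm_num) (by norm_num) (by norm_num) (by norm_num)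
    (by norm_num) (by norm_num)⟩

theorem Lbv_084 : 5459 / 100000 ≤ Lb (21 / 50) ∧ Lb (21 / 50) ≤ 5461 / 100000 :=
  ⟨Lb_lo LC_two (21 / 50) (137734 / 1000000) _ (by norm_num) (by norm_num) (by norm_num) (by norm_num)
    (by norm_num) (by norm_num),
  Lb_hi LC_two (21 / 50) (137733 / 1000000) _ (by norm_num) (by norm_num) (by norm_num) (by norm_num)
    (by norm_num) (by norm_num)⟩

theorem Lbv_085 : 5127 / 100000 ≤ Lb (17 / 40) ∧ Lb (17 / 40) ≤ 5130 / 100000 :=
  ⟨Lb_lo LC_two (17 / 40) (143534 / 1000000) _ (by norm_num) (by norm_num) (by norm_num) (by norm_num)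
    (by norm_num) (by norm_num),
  Lb_hi LC_two (17 / 40) (143533 / 1000000) _ (by norm_num) (by norm_num) (by norm_num) (by norm_num)
    (by norm_num) (by norm_num)⟩

theorem Lbv_086 : 4793 / 100000 ≤ Lb (43 / 100) ∧ Lb (43 / 100) ≤ 4796 / 100000 :=
  ⟨Lb_lo LC_two (43 / 100) (149257 / 1000000) _ (by norm_num) (by norm_num) (by norm_num) (by norm_num)
    (by norm_num) (by norm_num),
  Lb_hi LC_two (43 / 100) (149256 / 1000000) _ (by norm_num) (by norm_num) (by norm_num) (by norm_num)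
    (by norm_num) (by norm_num)⟩

theorem Lbv_087 : 4458 / 100000 ≤ Lb (87 / 200) ∧ Lb (87 / 200) ≤ 4461 / 100000 :=
  ⟨Lb_lo LC_two (87 / 200) (154904 / 1000000) _ (by norm_num) (by norm_num) (by norm_num) (by norm_num)
    (by norm_num) (by norm_num),
  Lb_hi LC_two (87 / 200) (154903 / 1000000) _ (by norm_num) (by norm_num) (by norm_num) (by norm_num)
    (by norm_num) (by norm_num)⟩

theorem Lbv_088 : 4121 / 100000 ≤ Lb (11 / 25) ∧ Lb (11 / 25) ≤ 4124 / 100000 :=
  ⟨Lb_lo LC_two (11 / 25) (160476 / 1000000) _ (by norm_num) (by norm_num) (by norm_num) (by norm_num)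
    (by norm_num) (by norm_num),
  Lb_hi LC_two (11 / 25) (160475 / 1000000) _ (by norm_num) (by norm_num) (by norm_num) (by norm_num)
    (by norm_num) (by norm_num)⟩

theorem Lbv_089 : 3782 / 100000 ≤ Lb (89 / 200) ∧ Lb (89 / 200) ≤ 3786 / 100000 :=
  ⟨Lb_lo LC_two (89 / 200) (165975 / 1000000) _ (by norm_num) (by norm_num) (by norm_num) (by norm_num)
    (by norm_num) (by norm_num),
  Lb_hi LC_two (89 / 200) (165974 / 1000000) _ (by norm_num) (by norm_num) (by norm_num) (by norm_num)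
    (by norm_num) (by norm_num)⟩

theorem Lbv_090 : 3442 / 100000 ≤ Lb (9 / 20) ∧ Lb (9 / 20) ≤ 3446 / 100000 :=
  ⟨Lb_lo LC_two (9 / 20) (171403 / 1000000) _ (by norm_num) (by norm_num) (by norm_num) (by norm_num)
    (by norm_num) (by norm_num),
  Lb_hi LC_two (9 / 20) (171402 / 1000000) _ (by norm_num) (by norm_num) (by norm_num) (by norm_num)
    (by norm_num) (by norm_num)⟩

theorem Lbv_091 : 3101 / 100000 ≤ Lb (91 / 200) ∧ Lb (91 / 200) ≤ 3105 / 100000 :=
  ⟨Lb_lo LC_two (91 / 200) (176760 / 1000000) _ (by norm_num) (by norm_num) (by norm_num) (by norm_num)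
    (by norm_num) (by norm_num),
  Lb_hi LC_two (91 / 200) (176759 / 1000000) _ (by norm_num) (by norm_num) (by norm_num) (by norm_num)
    (by norm_num) (by norm_num)⟩

theorem Lbv_092 : 2758 / 100000 ≤ Lb (23 / 50) ∧ Lb (23 / 50) ≤ 2763 / 100000 :=
  ⟨Lb_lo LC_two (23 / 50) (182049 / 1000000) _ (by norm_num) (by norm_num) (by norm_num) (by norm_num)
    (by norm_num) (by norm_num),
  Lb_hi LC_two (23 / 50) (182048 / 1000000) _ (by norm_num) (by norm_num) (by norm_num) (by norm_num)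
    (by norm_num) (by norm_num)⟩

theorem Lbv_093 : 2415 / 100000 ≤ Lb (93 / 200) ∧ Lb (93 / 200) ≤ 2420 / 100000 :=
  ⟨Lb_lo LC_two (93 / 200) (187270 / 1000000) _ (by norm_num) (by norm_num) (by norm_num) (by norm_num)
    (by norm_num) (by norm_num),
  Lb_hi LC_two (93 / 200) (187269 / 1000000) _ (by norm_num) (by norm_num) (by norm_num) (by norm_num)
    (by norm_num) (by norm_num)⟩

theorem Lbv_094 : 2071 / 100000 ≤ Lb (47 / 100) ∧ Lb (47 / 100) ≤ 2076 / 100000 :=
  ⟨Lb_lo LC_two (47 / 100) (192425 / 1000000) _ (by norm_num) (by norm_num) (by norm_num) (by norm_num)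
    (by norm_num) (by norm_num),
  Lb_hi LC_two (47 / 100) (192424 / 1000000) _ (by norm_num) (by norm_num) (by norm_num) (by norm_num)
    (by norm_num) (by norm_num)⟩

theorem Lbv_095 : 1726 / 100000 ≤ Lb (19 / 40) ∧ Lb (19 / 40) ≤ 1732 / 100000 :=
  ⟨Lb_lo LC_two (19 / 40) (197515 / 1000000) _ (by norm_num) (by norm_num) (by norm_num) (by norm_num)
    (by norm_num) (by norm_num),
  Lb_hi LC_two (19 / 40) (197514 / 1000000) _ (by norm_num) (by norm_num) (by norm_num) (by norm_num)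
    (by norm_num) (by norm_num)⟩

theorem Lbv_096 : 1380 / 100000 ≤ Lb (12 / 25) ∧ Lb (12 / 25) ≤ 1387 / 100000 :=
  ⟨Lb_lo LC_two (12 / 25) (202541 / 1000000) _ (by norm_num) (by norm_num) (by norm_num) (by norm_num)
    (by norm_num) (by norm_num),
  Lb_hi LC_two (12 / 25) (202540 / 1000000) _ (by norm_num) (by norm_num) (by norm_num) (by norm_num)
    (by norm_num) (by norm_num)⟩

theorem Lbv_097 : 1034 / 100000 ≤ Lb (97 / 200) ∧ Lb (97 / 200) ≤ 1041 / 100000 :=
  ⟨Lb_lo LC_two (97 / 200) (207505 / 1000000) _ (by norm_num) (by norm_num) (by norm_num) (by norm_num)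
    (by norm_num) (by norm_num),
  Lb_hi LC_two (97 / 200) (207504 / 1000000) _ (by norm_num) (by norm_num) (by norm_num) (by norm_num)
    (by norm_num) (by norm_num)⟩

theorem Lbv_098 : 687 / 100000 ≤ Lb (49 / 100) ∧ Lb (49 / 100) ≤ 695 / 100000 :=
  ⟨Lb_lo LC_two (49 / 100) (212407 / 1000000) _ (by norm_num) (by norm_num) (by norm_num) (by norm_num)
    (by norm_num) (by norm_num),
  Lb_hi LC_two (49 / 100) (212406 / 1000000) _ (by norm_num) (by norm_num) (by norm_num) (by norm_num)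
    (by norm_num) (by norm_num)⟩

theorem Lbv_099 : 340 / 100000 ≤ Lb (99 / 200) ∧ Lb (99 / 200) ≤ 348 / 100000 :=
  ⟨Lb_lo LC_two (99 / 200) (217249 / 1000000) _ (by norm_num) (by norm_num) (by norm_num) (by norm_num)
    (by norm_num) (by norm_num),
  Lb_hi LC_two (99 / 200) (217248 / 1000000) _ (by norm_num) (by norm_num) (by norm_num) (by norm_num)
    (by norm_num) (by norm_num)⟩

theorem Lbw_6 : 16153 / 100000 ≤ Lb (1 / 6) ∧ Lb (1 / 6) ≤ 16154 / 100000 :=
  ⟨Lb_lo LC_one (1 / 6) (23055 / 1000000) _ (by norm_num) (by norm_num) (by norm_num) (by norm_num)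
    (by norm_num) (by norm_num),
  Lb_hi LC_one (1 / 6) (23054 / 1000000) _ (by norm_num) (by norm_num) (by norm_num) (by norm_num)
    (by norm_num) (by norm_num)⟩

theorem Lbw_12 : 13757 / 100000 ≤ Lb (1 / 12) ∧ Lb (1 / 12) ≤ 13758 / 100000 :=
  ⟨Lb_lo LC_half (1 / 12) (23055 / 1000000) _ (by norm_num) (by norm_num) (by norm_num) (by norm_num)
    (by norm_num) (by norm_num),
  Lb_hi LC_half (1 / 12) (23054 / 1000000) _ (by norm_num) (by norm_num) (by norm_num) (by norm_num)
    (by norm_num) (by norm_num)⟩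

end Pool.Agent.S5
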