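import Pool.Agent.S5.I.YXF
import Pool.Agent.S5.Ctx

/-!
# Rectangles for the critical points of the edges: chains

`ybx S r q Y = true` with the regions `r` (own vertex), `q` (other vertex of the edge) of a table gives
the rectangle `Y` for `y` and the slope `lam` of the slot, in the frame of its node.
-/

set_option autoImplicit false

namespace Pool.Agent.S5.YX

open Complex
open Pool.Agent.S5.E (Vt vL vR)
open Pool.Agent.S5.E.B2 (InR)
open Pool.Agent.S5.G (kp Sd sy)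

/-- The slot of a node. -/
theorem box_sd {s : Bool} {c q z : ℂ} {r t : E.B2.Rg} {Y : YR} (h : ybx s r t Y = true) (d : Sd s c q z)
    (hκ : InR r (cos z).re (-(cos z).im)) (hc : InR t c.re (-c.im)) :
    InY Y (sy q z) (2 * (log (kp s c) - log (cos z))) :=
  ybx_sound h hκ hc d.slot.sy_re.1 d.re_lt (by rw [d.tan_eq, d.tan_sq])

/-- The rectangle in the frame of the other vertex. -/
def YR.mir (Y : YR) (S : Bool) : YR :=
  bif S then ⟨Y.x0, Y.x1, Y.e0, Y.e1, -Y.l1, -Y.l0, -Y.m1, -Y.m0⟩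
  else ⟨Y.x0, Y.x1, -Y.e1, -Y.e0, -Y.l1, -Y.l0, Y.m0, Y.m1⟩

theorem InY.mir {Y : YR} {y l : ℂ} (h : InY Y y l) (S : Bool) :
    InY (Y.mir S) (kp S y) (-kp S l) := by
  obtain ⟨x0, x1, e0, e1, l0, l1, m0, m1⟩ := h
  cases S
  · rw [G.kp_false, G.kp_false]
    refine ⟨?_, ?_, ?_, ?_, ?_, ?_, ?_, ?_⟩ <;>
      simp only [YR.mir, cond_false, conj_re, conj_im, neg_re, neg_im, Int.cast_neg] <;> linarith
  · rw [G.kp_true, G.kp_true]
    refine ⟨?_, ?_, ?_, ?_, ?_, ?_, ?_, ?_⟩ <;>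
      simp only [YR.mir, cond_true, neg_re, neg_im, Int.cast_neg] <;> linarith

/-- A larger rectangle. -/
def YR.le (Y Z : YR) : Bool := Nat.ble Z.x0 Y.x0 && Nat.ble Y.x1 Z.x1 && decide (Z.e0 ≤ Y.e0) &&
  decide (Y.e1 ≤ Z.e1) && decide (Z.l0 ≤ Y.l0) && decide (Y.l1 ≤ Z.l1) && decide (Z.m0 ≤ Y.m0) &&
    decide (Y.m1 ≤ Z.m1)

theorem InY.mono {Y Z : YR} {y l : ℂ} (h : InY Y y l) (hZ : Y.le Z = true) : InY Z y l := by
  unfold YR.le at hZ
  simp only [Bool.and_eq_true, decide_eq_true_eq, Nat.ble_eq] at hZ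
  obtain ⟨⟨⟨⟨⟨⟨⟨h1, h2⟩, h3⟩, h4⟩, h5⟩, h6⟩, h7⟩, h8⟩ := hZ
  obtain ⟨x0, x1, e0, e1, l0, l1, m0, m1⟩ := h
  have g1 : (Z.x0 : ℝ) ≤ Y.x0 := by exact_mod_cast h1
  have g2 : (Y.x1 : ℝ) ≤ Z.x1 := by exact_mod_cast h2
  have g3 : (Z.e0 : ℝ) ≤ Y.e0 := by exact_mod_cast h3
  have g4 : (Y.e1 : ℝ) ≤ Z.e1 := by exact_mod_cast h4
  have g5 : (Z.l0 : ℝ) ≤ Y.l0 := by exact_mod_cast h5
  have g6 : (Y.l1 : ℝ) ≤ Z.l1 := by exact_mod_cast h6
  have g7 : (Z.m0 : ℝ) ≤ Y.m0 := by exact_mod_cast h7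
  have g8 : (Y.m1 : ℝ) ≤ Z.m1 := by exact_mod_cast h8
  constructor <;> linarith

/-! ### The slots of a chain -/

variable {T : Vt → Vt → E.B2.Rg} {R : ℕ} {a : ℕ → ℕ} {S : ℕ → Bool} {r : ℕ → ℤ}
  {z ql qr : ℕ → ℂ} {zF : Fin (R + 1) → ℂ}

/-- The right slot of the node `i`. -/
theorem _root_.Pool.Agent.S5.Ctx.ybR (h : Ctx T R a S r z ql qr zF) {i : ℕ} (hi : i < R) {Y : YR}
    (hb : ybx (S i) (T (vR a S i) (vL R a S (i + 1))) (T (vL R a S (i + 1)) (vR a S i)) Y = true) :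
    InY Y (slR R a S z qr i).ys (slR R a S z qr i).lam :=
  box_sd hb (h.sdr hi) (h.rl hi) (h.rr hi)

/-- The left slot of the node `i + 1`. -/
theorem _root_.Pool.Agent.S5.Ctx.ybL (h : Ctx T R a S r z ql qr zF) {i : ℕ} (hi : i < R) {Y : YR}
    (hb : ybx (S i) (T (vL R a S (i + 1)) (vR a S i)) (T (vR a S i) (vL R a S (i + 1))) Y = true) :
    InY Y (slL R a S z ql (i + 1)).ys (slL R a S z ql (i + 1)).lam :=
  box_sd hb (h.sdl hi) (h.rr hi) (h.rl hi)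

/-- From the other end of the edge. -/
theorem _root_.Pool.Agent.S5.Ctx.ybRL (h : Ctx T R a S r z ql qr zF) {i : ℕ} (hi : i < R) {Y : YR}
    (hY : InY Y (slR R a S z qr i).ys (slR R a S z qr i).lam) :
    InY (Y.mir (S i)) (slL R a S z ql (i + 1)).ys (slL R a S z ql (i + 1)).lam := by
  have k := hY.mir (S i)
  rw [h.hg.lam_next hi]
  have e : (slL R a S z ql (i + 1)).ys = kp (S i) (slR R a S z qr i).ys := h.hg.sy_next i hi
  rw [e]
  exact k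

end Pool.Agent.S5.YX
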