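import Pool.Agent.S5.I.LowS
import Pool.Agent.S5.I.YXG
import Pool.Agent.S5.I.OriD

/-!
# Low edges at inner nodes with four half twists, from the context
-/

set_option autoImplicit false

namespace Pool.Agent.S5

open Complex
open Pool.Agent.S5.E (Vt kd aF nlF nrF nF vL vR types)
open Pool.Agent.S5.G (kp sy zz4 O4)
open Pool.Agent.S5.YX (YR ybx)

variable {T : Vt → Vt → E.B2.Rg} {R : ℕ} {a : ℕ → ℕ} {S : ℕ → Bool} {r : ℕ → ℤ}
  {z ql qr : ℕ → ℂ} {zF : Fin (R + 1) → ℂ}

/-- The test of all slots of the type `⟨4, s, some o⟩`. -/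
def ck4 (T : Vt → Vt → E.B2.Rg) (u v : ℤ) (s o : Bool) (W : Vt → YR) : Bool :=
  (types s).all fun J => !J.ok || (ybx s (T ⟨4, s, some o⟩ J) (T J ⟨4, s, some o⟩) (W J) &&
    loS u v (W J))

theorem ck4_ok {u v : ℤ} {s o : Bool} {W : Vt → YR} (h : ck4 T u v s o W = true) {J : Vt}
    (hJ : J.ok = true) (hs : J.s = s) :
    ybx s (T ⟨4, s, some o⟩ J) (T J ⟨4, s, some o⟩) (W J) = true ∧ loS u v (W J) = true := by
  have h1 := List.all_eq_true.1 h J (hs ▸ E.mem_types hJ)
  rw [hJ] at h1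
  simpa using h1

/-- The four tests. -/
structure Ck4 (T : Vt → Vt → E.B2.Rg) (u v : Bool → Bool → ℤ) : Prop where
  t : ∀ s o : Bool, ∃ W : Vt → YR, ck4 T (u s o) (v s o) s o W = true
  c : ∀ s o : Bool, 121250 + (if o = true then 200000 else 150000) < 880480 + u s o + v o s

theorem Ck4.right {u v : Bool → Bool → ℤ} (c : Ck4 T u v) (h : Ctx T R a S r z ql qr zF) {i : ℕ}
    (hi : i + 1 < R) (ha : a (i + 1) = 4) :
    LoS ((u (S (i + 1)) (S i) : ℝ) / 1000000) ((v (S (i + 1)) (S i) : ℝ) / 1000000)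
      (slR R a S z qr (i + 1)).ys (slR R a S z qr (i + 1)).lam := by
  obtain ⟨W, hW⟩ := c.t (S (i + 1)) (S i)
  have e : vR a S (i + 1) = ⟨4, S (i + 1), some (S i)⟩ := by
    rw [Pre.vR_inner, ha]
    rfl
  have e2 : (vL R a S (i + 2)).s = S (i + 1) := rfl
  obtain ⟨h1, h2⟩ := ck4_ok hW (h.toPre.ok_l hi) e2
  rw [← e] at h1
  exact loS_ok h2 (h.ybR hi h1)

theorem Ck4.left {u v : Bool → Bool → ℤ} (c : Ck4 T u v) (h : Ctx T R a S r z ql qr zF) {i : ℕ}
    (hi : i + 1 < R) (ha : a (i + 1) = 4) :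
    LoS ((u (S i) (S (i + 1)) : ℝ) / 1000000) ((v (S i) (S (i + 1)) : ℝ) / 1000000)
      (slL R a S z ql (i + 1)).ys (slL R a S z ql (i + 1)).lam := by
  obtain ⟨W, hW⟩ := c.t (S i) (S (i + 1))
  have e : vL R a S (i + 1) = ⟨4, S i, some (S (i + 1))⟩ := by
    rw [Pre.vL_inner hi, ha]
    rfl
  have e2 : (vR a S i).s = S i := rfl
  obtain ⟨h1, h2⟩ := ck4_ok hW (h.toPre.ok_r (by omega)) e2
  rw [← e] at h1
  exact loS_ok h2 (h.ybL (by omega) h1)

/-- **The fields `Ty`, `Tb` of an inner node with four half twists.** -/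
theorem Ck4.low {u v : Bool → Bool → ℤ} (c : Ck4 T u v) (h : Ctx T R a S r z ql qr zF) {i : ℕ}
    (hi : i + 1 < R) (ha : a (i + 1) = 4) (n : Nt) :
    (∀ (y o b : ℂ) (wy wb : ℝ) (pb : Pc), (slB R a S (flO R a S) z ql qr (i + 1)).ex = true →
      ((slO R a S (flO R a S) z ql qr (i + 1)).ex = true → pb.frcT) →
      (slB R a S (flO R a S) z ql qr (i + 1)).In .lo y wy →
      (slO R a S (flO R a S) z ql qr (i + 1)).In pb b wb → o.im = 0 → -(1 / 2) ≤ o.re →
      o.re ≤ 1 / 2 → o.re ≤ y.re → 0 ≤ o.re + b.re →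
      Ez4 (slB R a S (flO R a S) z ql qr (i + 1)).ys (zz4 (qB' (flO R a S) ql qr (i + 1)) (qO' (flO R a S) ql qr (i + 1)) (z (i + 1)))
        (slO R a S (flO R a S) z ql qr (i + 1)).ys y o b +
        (slB R a S (flO R a S) z ql qr (i + 1)).e n .lo y wy +
        (slO R a S (flO R a S) z ql qr (i + 1)).e n pb b wb < 0) ∧
    (∀ (y o b : ℂ) (wy wb : ℝ) (py : Pc), (slO R a S (flO R a S) z ql qr (i + 1)).ex = true →
      ((slB R a S (flO R a S) z ql qr (i + 1)).ex = true → py.frcT) →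
      (slB R a S (flO R a S) z ql qr (i + 1)).In py y wy →
      (slO R a S (flO R a S) z ql qr (i + 1)).In .lo b wb → o.im = 0 → -(1 / 2) ≤ o.re →
      o.re ≤ 1 / 2 → o.re ≤ y.re → 0 ≤ o.re + b.re →
      Ez4 (slB R a S (flO R a S) z ql qr (i + 1)).ys (zz4 (qB' (flO R a S) ql qr (i + 1)) (qO' (flO R a S) ql qr (i + 1)) (z (i + 1)))
        (slO R a S (flO R a S) z ql qr (i + 1)).ys y o b +
        (slB R a S (flO R a S) z ql qr (i + 1)).e n py y wy +
        (slO R a S (flO R a S) z ql qr (i + 1)).e n .lo b wb < 0) := by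
  have hR := c.right h hi ha
  have hL := c.left h hi ha
  have hO : O4 (qB' (flO R a S) ql qr (i + 1)) (qO' (flO R a S) ql qr (i + 1)) := by
    have h4 := h.hg.bx.four (i + 1) (by omega) hi ha
    unfold qB' qO'
    split_ifs
    · exact h4.symm
    · exact h4
  have heq := h.hg.crt.eq (i + 1) hi.le
  rw [ha] at heq
  have hz : 4 * z (i + 1) = Real.pi + I * (qB' (flO R a S) ql qr (i + 1) +
      qO' (flO R a S) ql qr (i + 1)) := by
    unfold qB' qO'
    push_cast at heq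
    split_ifs <;> linear_combination heq
  have hN := hO.N4 hz
  obtain ⟨e1, e2, e3⟩ := z4_slopes hN
  have xR : (slR R a S z qr (i + 1)).ex = true := by rw [Ctx.slR_mk hi]
  have xL : (slL R a S z ql (i + 1)).ex = true := by rw [Ctx.slL_mk]
  have xB : (slB R a S (flO R a S) z ql qr (i + 1)).ex = true := by
    unfold slB
    split_ifs
    · exact xR
    · exact xL
  have xO : (slO R a S (flO R a S) z ql qr (i + 1)).ex = true := by
    unfold slO
    split_ifs
    · exact xL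
    · exact xR
  have k1 := (h.hg.slB_lam hi.le xB).trans e1
  have k2 := (h.hg.slO_lam hi.le xO).trans e2
  have hc : ∀ s o : Bool, (12125 / 100000 : ℝ) + shr o <
      88048 / 100000 + (u s o : ℝ) / 1000000 + (v o s : ℝ) / 1000000 := by
    intro s o
    have := c.c s o
    have h1 : (121250 : ℝ) + (if o = true then 200000 else 150000) < 880480 + u s o + v o s := by
      exact_mod_cast this
    unfold shr
    split_ifs at h1 ⊢ <;> linarith
  have sR : (slR R a S z qr (i + 1)).S = S (i + 1) := by rw [Ctx.slR_mk hi]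
  have sL : (slL R a S z ql (i + 1)).S = S i := by rw [Ctx.slL_mk]
  have hg0 := hN.g0
  have hg1 := hN.g1
  have y1 : (slB R a S (flO R a S) z ql qr (i + 1)).ys =
      sy (qB' (flO R a S) ql qr (i + 1)) (z (i + 1)) := slB_ys (i + 1)
  have y2 : (slO R a S (flO R a S) z ql qr (i + 1)).ys =
      sy (qO' (flO R a S) ql qr (i + 1)) (z (i + 1)) := slO_ys (i + 1)
  rw [← y1, ← y2] at e3
  rw [← y1] at k1 hg0
  rw [← y2] at k2 hg1
  obtain ⟨p, p', q, q', hp, hq, c1, c2⟩ : ∃ p p' q q' : ℝ,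
      LoS p p' (slB R a S (flO R a S) z ql qr (i + 1)).ys
        (slB R a S (flO R a S) z ql qr (i + 1)).lam ∧
      LoS q q' (slO R a S (flO R a S) z ql qr (i + 1)).ys
        (slO R a S (flO R a S) z ql qr (i + 1)).lam ∧
      12125 / 100000 + shr (slO R a S (flO R a S) z ql qr (i + 1)).S < 88048 / 100000 + p + q' ∧
      12125 / 100000 + shr (slB R a S (flO R a S) z ql qr (i + 1)).S < 88048 / 100000 + q + p' := by
    by_cases hf : flO R a S (i + 1) = true
    · have b1 : slB R a S (flO R a S) z ql qr (i + 1) = slR R a S z qr (i + 1) := if_pos hf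
      have b2 : slO R a S (flO R a S) z ql qr (i + 1) = slL R a S z ql (i + 1) := if_pos hf
      rw [b1, b2, sR, sL]
      exact ⟨_, _, _, _, hR, hL, hc _ _, hc _ _⟩
    · have b1 : slB R a S (flO R a S) z ql qr (i + 1) = slL R a S z ql (i + 1) := if_neg hf
      have b2 : slO R a S (flO R a S) z ql qr (i + 1) = slR R a S z qr (i + 1) := if_neg hf
      rw [b1, b2, sR, sL]
      exact ⟨_, _, _, _, hL, hR, hc _ _, hc _ _⟩
  clear hR hL sR sL xR xL y1 y2
  generalize slB R a S (flO R a S) z ql qr (i + 1) = sB at *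
  generalize slO R a S (flO R a S) z ql qr (i + 1) = sO at *
  exact low_z4s hp hq c1 c2 e3 k1 k2 hg0.1 hg0.2 hg1.1 hg1.2 xB xO

end Pool.Agent.S5
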