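import Pool.Agent.S5.I.NDefs
import Pool.Agent.S5.I.VDefs

/-!
# The nodes at real points

At real points a node function minus its tangent plane is `V - Vol - ∑ lam (r - Re y)`: `V` is a sum of
values of `Lb`, `Vol` a sum of values of `Bn` at the critical angles.
-/

set_option autoImplicit false

namespace Pool.Agent.S5

open Pool.Agent.H63.VC3 Pool.Agent.S3 Complex MeasureTheory Filter Topology Set

/-! ### The volumes of the nodes -/

/-- The volume of a closed node. -/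
noncomputable def Wcl (as bs : ℂ) : ℝ := 2 * Bn (1 / 2 - as) + 2 * Bn (1 / 2 - bs) + Bn (as + bs)

/-- The volume of a node with three half twists. -/
noncomputable def Wz3 (ys zs bs : ℂ) : ℝ :=
  2 * Bn (1 / 2 - ys) + Bn (1 / 2 - bs) + Bn (ys - zs) + Bn (zs + 1 / 2) + Bn (zs + bs)

/-- The volume of a node with four half twists. -/
noncomputable def Wz4 (ys zs bs : ℂ) : ℝ :=
  2 * Bn (1 / 2 - ys) + 2 * Bn (1 / 2 - bs) + Bn (ys - zs) + Bn (zs + bs)

/-- The volume of a slot of an open node. -/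
noncomputable def Wv (ys vs : ℂ) : ℝ := 2 * Bn (1 / 2 - ys) + Bn (ys - vs) + Bn (ys + vs)

/-! ### The values at real points -/

theorem half_sub_ofReal (r : ℝ) : (1 / 2 : ℂ) - (r : ℂ) = ((1 / 2 - r : ℝ) : ℂ) := by
  push_cast
  rfl

theorem Ecl_ofReal (as bs : ℂ) (a b : ℝ) : Ecl as bs a b =
    (2 * Lb (1 / 2 - a) + 2 * Lb (1 / 2 - b) + Lb (a + b)) - Wcl as bs -
      (lcl as bs).re * (a - as.re) - (lcl bs as).re * (b - bs.re) := by
  unfold Ecl lcl Wcl
  rw [half_sub_ofReal, half_sub_ofReal, ← ofReal_add, Td_ofReal, Td_ofReal, Td_ofReal,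
    add_comm bs as]
  simp only [sub_re, add_re, mul_re, sub_im, add_im, mul_im, ofReal_re, ofReal_im, I_re, I_im,
    hh_re, hh_re, div_ofNat_re, div_ofNat_im, one_re, one_im, re_ofNat, im_ofNat]
  ring

theorem Ez3_ofReal {ys zs bs : ℂ} (h : l3z ys zs bs = 0) (y z b : ℝ) : Ez3 ys zs bs y z b =
    (2 * Lb (1 / 2 - y) + Lb (1 / 2 - b) + Lb (y - z) + Lb (z + 1 / 2) + Lb (z + b)) -
      Wz3 ys zs bs - (l3y ys zs).re * (y - ys.re) - (l3b zs bs).re * (b - bs.re) := by
  have h1 := congrArg Complex.re h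
  have e2 : (z : ℂ) + 1 / 2 = ((z + 1 / 2 : ℝ) : ℂ) := by
    push_cast
    rfl
  unfold l3z at h1
  unfold Ez3 l3y l3b Wz3
  rw [half_sub_ofReal, half_sub_ofReal, e2, ← ofReal_sub, ← ofReal_add, Td_ofReal, Td_ofReal,
    Td_ofReal, Td_ofReal, Td_ofReal]
  simp only [sub_re, add_re, mul_re, sub_im, add_im, mul_im, ofReal_re, ofReal_im, I_re, I_im,
    hh_re, div_ofNat_re, div_ofNat_im, one_re, one_im, re_ofNat, im_ofNat, pow_two, zero_re]
    at h1 ⊢
  linear_combination (-(z - zs.re)) * h1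

theorem Ez4_ofReal {ys zs bs : ℂ} (h : l4z ys zs bs = 0) (y z b : ℝ) : Ez4 ys zs bs y z b =
    (2 * Lb (1 / 2 - y) + 2 * Lb (1 / 2 - b) + Lb (y - z) + Lb (z + b)) -
      Wz4 ys zs bs - (l4y ys zs).re * (y - ys.re) - (l4b zs bs).re * (b - bs.re) := by
  have h1 := congrArg Complex.re h
  unfold l4z at h1
  unfold Ez4 l4y l4b Wz4
  rw [half_sub_ofReal, half_sub_ofReal, ← ofReal_sub, ← ofReal_add, Td_ofReal, Td_ofReal,
    Td_ofReal, Td_ofReal]
  simp only [sub_re, add_re, mul_re, sub_im, add_im, mul_im, ofReal_re, ofReal_im, I_re, I_im,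
    hh_re, div_ofNat_re, div_ofNat_im, one_re, one_im, re_ofNat, im_ofNat, pow_two, zero_re]
    at h1 ⊢
  linear_combination (-(z - zs.re)) * h1

theorem Es_ofReal {ys vs : ℂ} (hv : vs.im ≠ 0) (y v : ℝ) : Es ys vs y v =
    (2 * Lb (1 / 2 - y) + Lb (y - v) + Lb (y + v)) - Wv ys vs - lamv ys vs * (y - ys.re) := by
  have hpi := Real.pi_ne_zero
  have e : 2 * Real.pi * bn ys vs * vs.im =
      Lg (ys + vs).im (ys + vs).re - Lg (ys - vs).im (ys - vs).re := by
    unfold bn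
    field_simp
  unfold Es Ev Wv lamv
  rw [half_sub_ofReal, ← ofReal_sub, ← ofReal_add, Td_ofReal, Td_ofReal, Td_ofReal]
  have e1 : (1 / 2 - ys).im = -ys.im := by simp
  have e2 : Lg (1 / 2 - ys).im (1 / 2 - ys).re = Lg ys.im (1 / 2 - ys.re) := by
    rw [e1]
    have e3 : (1 / 2 - ys).re = 1 / 2 - ys.re := by simp
    rw [e3, Lg_neg_im]
  rw [e2]
  simp only [sub_re, add_re, sub_im, add_im, ofReal_re, ofReal_im, div_ofNat_re, one_re] at e ⊢
  linear_combination (-(v - vs.re)) * e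

end Pool.Agent.S5
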