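import Pool.Agent.S5.I.LbN
import Pool.Agent.S5.I.LbT
import Pool.Agent.S5.I.LowR

/-!
# Low edges: bounds of the values at real points, linear bounds of the volumes
-/

set_option autoImplicit false

namespace Pool.Agent.S5

open Pool.Agent.H63.VC3 Pool.Agent.S3 Complex MeasureTheory Filter Topology Set

/-! ### Linear lower bounds of `Bn` -/

theorem cot_le {u : ℝ} (h0 : 0 < u) (h1 : u ≤ Real.pi / 2) : Real.cot u ≤ 1 / u - u / 3 := by
  have hpi := Real.pi_pos
  have hs : 0 < Real.sin u := Real.sin_pos_of_pos_of_lt_pi h0 (by linarith)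
  -- `sin u - u cos u` is not negative
  have k1 : ∀ v : ℝ, 0 ≤ v → v ≤ Real.pi / 2 → 0 ≤ Real.sin v - v * Real.cos v := by
    have hm : MonotoneOn (fun v : ℝ => Real.sin v - v * Real.cos v) (Icc 0 (Real.pi / 2)) := by
      apply monotoneOn_of_hasDerivWithinAt_nonneg (convex_Icc _ _) (f' := fun v => v * Real.sin v)
      · fun_prop
      · intro v _
        have h := (Real.hasDerivAt_sin v).sub ((hasDerivAt_id v).mul (Real.hasDerivAt_cos v))
        refine (h.congr_deriv ?_).hasDerivWithinAt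
        simp only [id]
        ring
      · intro v hv
        rw [interior_Icc] at hv
        exact mul_nonneg hv.1.le (Real.sin_nonneg_of_nonneg_of_le_pi hv.1.le (by linarith [hv.2]))
    intro v h0 h1
    have := hm (left_mem_Icc.2 (by positivity)) ⟨h0, h1⟩ h0
    simpa using this
  have k2 : 0 ≤ (3 - u ^ 2) * Real.sin u - 3 * u * Real.cos u := by
    have hm : MonotoneOn (fun v : ℝ => (3 - v ^ 2) * Real.sin v - 3 * v * Real.cos v)
        (Icc 0 (Real.pi / 2)) := by
      apply monotoneOn_of_hasDerivWithinAt_nonneg (convex_Icc _ _)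
        (f' := fun v => v * (Real.sin v - v * Real.cos v))
      · fun_prop
      · intro v _
        have h := (((hasDerivAt_pow 2 v).const_sub 3).mul (Real.hasDerivAt_sin v)).sub
          (((hasDerivAt_id v).const_mul 3).mul (Real.hasDerivAt_cos v))
        refine (h.congr_deriv ?_).hasDerivWithinAt
        simp only [id]
        ring
      · intro v hv
        rw [interior_Icc] at hv
        exact mul_nonneg hv.1.le (k1 v hv.1.le hv.2.le)
    have := hm (left_mem_Icc.2 (by positivity)) ⟨h0.le, h1⟩ h0.le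
    simpa using this
  rw [Real.cot_eq_cos_div_sin, div_le_iff₀ hs]
  have e : (1 / u - u / 3) * Real.sin u = ((3 - u ^ 2) * Real.sin u) / (3 * u) := by
    field_simp
  rw [e, le_div_iff₀ (by positivity)]
  linarith

/-- The coefficient of the square of the height. -/
noncomputable def kz (x : ℝ) : ℝ := 1 / (2 * x) - 16449 / 10000 * x

theorem kz_bound {x : ℝ} (h0 : 0 < x) (h1 : x ≤ 1 / 2) :
    Real.pi / 2 * Real.cot (Real.pi * x) ≤ kz x := by
  have hpi := Real.pi_pos
  have h := cot_le (u := Real.pi * x) (by positivity) (by nlinarith)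
  have h2 := mul_le_mul_of_nonneg_left h (show 0 ≤ Real.pi / 2 by positivity)
  have e : Real.pi / 2 * (1 / (Real.pi * x) - Real.pi * x / 3) =
      1 / (2 * x) - Real.pi ^ 2 / 6 * x := by
    field_simp
    ring
  have h3 : (98694 : ℝ) / 10000 ≤ Real.pi ^ 2 := by
    have h4 := Real.pi_gt_d6
    exact le_trans (by norm_num) (pow_le_pow_left₀ (by norm_num) h4.le 2)
  rw [e] at h2
  unfold kz
  nlinarith

theorem kz_nonneg {x : ℝ} (h0 : 0 < x) (h1 : x ≤ 1 / 2) : 0 ≤ kz x := by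
  unfold kz
  have h : 1 ≤ 1 / (2 * x) := by
    rw [le_div_iff₀ (by positivity)]
    linarith
  linarith

/-- `kz` is below its chords. -/
theorem kz_chord {a b x : ℝ} (h0 : 0 < a) (ha : a ≤ x) (hb : x ≤ b) :
    (b - a) * kz x ≤ (b - x) * kz a + (x - a) * kz b := by
  have hx : 0 < x := by linarith
  have hb0 : 0 < b := by linarith
  unfold kz
  have e : (b - x) * (1 / (2 * a) - 16449 / 10000 * a) + (x - a) * (1 / (2 * b) -
      16449 / 10000 * b) - (b - a) * (1 / (2 * x) - 16449 / 10000 * x) =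
      (x - a) * (b - x) * (b - a) * (1 / (2 * a * b * x)) := by
    field_simp
    ring
  have h1 : 0 ≤ (x - a) * (b - x) * (b - a) * (1 / (2 * a * b * x)) := by
    have h2 : 0 ≤ x - a := by linarith
    have h3 : 0 ≤ b - x := by linarith
    have h4 : 0 ≤ b - a := by linarith
    positivity
  linarith

/-- Lower bound of `Bn`. -/
theorem kz_le_Bn {z : ℂ} (h0 : 0 < z.re) (h1 : z.re ≤ 1 / 2) :
    Lb z.re - kz z.re * z.im ^ 2 ≤ Bn z := by
  have h := le_Bn' h0 h1
  have h2 := mul_le_mul_of_nonneg_right (kz_bound h0 h1) (sq_nonneg z.im)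
  linarith

/-- Linear lower bound of `Bn` on a box. -/
theorem Bn_lin {z : ℂ} {a b B u v : ℝ} (h0 : 0 < a) (hb : b ≤ 1 / 2) (h1 : a ≤ z.re)
    (h2 : z.re ≤ b) (h3 : |z.im| ≤ B) (hu : u ≤ Lb a - kz a * B ^ 2)
    (hv : v ≤ Lb b - kz b * B ^ 2) :
    (b - z.re) * u + (z.re - a) * v ≤ (b - a) * Bn z := by
  have hz : z.im ^ 2 ≤ B ^ 2 := by
    rw [← sq_abs]
    exact pow_le_pow_left₀ (abs_nonneg _) h3 2
  have k1 := kz_le_Bn (z := z) (by linarith) (by linarith)
  have k2 := Lb_chord h0.le hb h1 h2 le_rfl le_rfl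
  have k3 := kz_chord h0 h1 h2
  have k4 : kz z.re * z.im ^ 2 ≤ kz z.re * B ^ 2 :=
    mul_le_mul_of_nonneg_left hz (kz_nonneg (by linarith) (by linarith))
  have k5 := mul_le_mul_of_nonneg_left (k1.trans' (sub_le_sub_left k4 _))
    (show 0 ≤ b - a by linarith)
  have k6 := mul_le_mul_of_nonneg_right k3 (sq_nonneg B)
  have k7 := mul_le_mul_of_nonneg_left hu (show 0 ≤ b - z.re by linarith)
  have k8 := mul_le_mul_of_nonneg_left hv (show 0 ≤ z.re - a by linarith)
  nlinarith

/-! ### Tangents of `Lb` -/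

theorem Lb_t4 {x : ℝ} (h0 : 0 ≤ x) (h1 : x ≤ 1 / 2) :
    Lb x ≤ 14579 / 100000 - 0.346573 * (x - 1 / 4) + 0.0000005 := by
  have h := Lb_le_tangent h0 h1 (x0 := 1 / 4) (by norm_num) (by norm_num)
  have h2 := Lbv_050.2
  have h3 := Lg_quarter_lo
  have h4 := Lg_quarter_hi
  rcases le_total x (1 / 4) with h5 | h5 <;> nlinarith

theorem Lb_t6 {x : ℝ} (h0 : 0 ≤ x) (h1 : x ≤ 1 / 2) : Lb x ≤ 16154 / 100000 := by
  have h := Lb_le_max h0 h1
  have h2 := Lbw_6.2
  linarith

theorem Lb_t8 {x : ℝ} (h0 : 0 ≤ x) (h1 : x ≤ 1 / 4) :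
    Lb x ≤ 15628 / 100000 + 0.2674 * (x - 1 / 8) + 0.00001 := by
  have h := Lb_le_tangent h0 (by linarith) (x0 := 1 / 8) (by norm_num) (by norm_num)
  have h2 := Lbv_025.2
  have h3 := Lg_eighth_lo
  have h4 := Lg_eighth_hi
  rcases le_total x (1 / 8) with h5 | h5 <;> nlinarith

theorem Lb_t12 {x : ℝ} (h0 : 0 ≤ x) (h1 : x ≤ 1 / 4) :
    Lb x ≤ 13758 / 100000 + 0.6585 * (x - 1 / 12) + 0.00002 := by
  have h := Lb_le_tangent h0 (by linarith) (x0 := 1 / 12) (by norm_num) (by norm_num)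
  have h2 := Lbw_12.2
  have h3 := Lg_twelfth_lo
  have h4 := Lg_twelfth_hi
  rcases le_total x (1 / 12) with h5 | h5 <;> nlinarith

theorem Lb_t25 {x : ℝ} (h0 : 0 ≤ x) (h1 : x ≤ 1 / 2) :
    Lb x ≤ 6766 / 100000 - 0.64297 * (x - 2 / 5) + 0.00003 := by
  have h := Lb_le_tangent h0 h1 (x0 := 2 / 5) (by norm_num) (by norm_num)
  have h2 := Lbv_080.2
  have h3 := Lg_two_fifths_lo
  have h4 := Lg_two_fifths_hi
  rcases le_total x (2 / 5) with h5 | h5 <;> nlinarith

end Pool.Agent.S5
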