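import Pool.Agent.S5.I.LowV

/-!
# Low edges: open nodes, ends
-/

set_option autoImplicit false

namespace Pool.Agent.S5

open Pool.Agent.H63.VC3 Pool.Agent.S3 Complex MeasureTheory Filter Topology Set

/-! ### Crude bounds of `Lg` -/

theorem Lg_le_cosh (s x : ℝ) : Lg s x ≤ Real.log 2 + (Real.pi * s) ^ 2 / 2 := by
  have hl2 := Real.log_pos (one_lt_two)
  unfold Lg
  rcases eq_or_ne (‖2 * sin (Real.pi * ((x : ℂ) + s * I))‖) 0 with h | h
  · rw [h, Real.log_zero]
    positivity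
  · have h1 : ‖2 * sin (Real.pi * ((x : ℂ) + s * I))‖ ≤ 2 * Real.cosh (Real.pi * s) := by
      rw [norm_mul, norm_ofNat]
      have h2 := norm_sin_pi_sq x s
      have h3 := Real.cosh_sq (Real.pi * s)
      have h4 := Real.sin_sq_le_one (Real.pi * x)
      have h5 : ‖sin (Real.pi * ((x : ℂ) + s * I))‖ ≤ Real.cosh (Real.pi * s) := by
        rw [← sq_le_sq₀ (norm_nonneg _) (Real.cosh_pos _).le, h2, h3]
        linarith
      linarith
    have h2 := Real.log_le_log (lt_of_le_of_ne (norm_nonneg _) (Ne.symm h)) h1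
    rw [Real.log_mul two_ne_zero (Real.cosh_pos _).ne'] at h2
    have h3 := Real.log_le_log (Real.cosh_pos _) (Real.cosh_le_exp_half_sq (Real.pi * s))
    rw [Real.log_exp] at h3
    linarith

/-- `Lg` is at least its value on the real axis. -/
theorem Lg_zero_le_Lg {x : ℝ} (h0 : 0 < x) (h1 : x < 1) (s : ℝ) : Lg 0 x ≤ Lg s x := by
  have hs : 0 < Real.sin (Real.pi * x) :=
    Real.sin_pos_of_pos_of_lt_pi (by have := Real.pi_pos; positivity)
      (by have := Real.pi_pos; nlinarith)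
  rw [Lg_zero_pos h0 h1]
  unfold Lg
  apply Real.log_le_log (by positivity)
  rw [norm_mul, norm_ofNat]
  have h2 := norm_sin_pi_sq x s
  have h5 : Real.sin (Real.pi * x) ≤ ‖sin (Real.pi * ((x : ℂ) + s * I))‖ := by
    rw [← sq_le_sq₀ hs.le (norm_nonneg _), h2]
    nlinarith [sq_nonneg (Real.sinh (Real.pi * s))]
  linarith

/-- A crude lower bound of `Bn` near and beyond the middle of the strip. -/
theorem neg_le_Bn {z : ℂ} {c : ℝ} (h0 : 0 < z.re) (h1 : z.re < 1) (h2 : z.re ≤ 1 - c)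
    (hc : 1 / 6 ≤ c) (hc1 : c ≤ 1 / 2) : -Lb c ≤ Bn z := by
  rcases le_total z.re (1 / 2) with h | h
  · have h3 := Bn_nonneg' h0 h
    have h4 := Lb_nonneg (x := c) (by linarith) hc1
    linarith
  · have h3 : Bn z = -Bn (1 - z) := by rw [Bn_one_sub]; ring
    have h4 := Bn_le' (z := 1 - z) (by simp; linarith) (by simp; linarith)
    have h5 : (1 - z).re = 1 - z.re := by simp
    rw [h5] at h4
    have h6 := Lb_anti (x := c) (y := 1 - z.re) hc (by linarith) (by linarith)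
    linarith

/-! ### Slots of open nodes -/

/-- A low edge at an open node: general form. -/
theorem Es_low_le {ys vs : ℂ} (hv : vs.im ≠ 0) {y v : ℝ} (h0 : -(1 / 2) ≤ y) (h1 : y ≤ -(1 / 4))
    (h2 : -y ≤ v) (h3 : v ≤ 1 / 2) : Es ys vs y v + lamv ys vs * (y - 3 / 10) ≤
      -Wv ys vs - lamv ys vs * (3 / 10 - ys.re) := by
  rw [Es_ofReal hv]
  have h4 := Vv_le (x := y + 1 / 2) (w := 1 / 2 - v) (by linarith) (by linarith) (by linarith)
  have e1 : Lb (1 / 2 - y) = -Lb (y + 1 / 2) := by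
    rw [← Lb_one_sub]
    congr 1
    ring
  have e2 : Lb (y - v) = Lb (y + 1 / 2 + (1 / 2 - v)) := by
    rw [← Lb_add_one (y - v)]
    congr 1
    ring
  have e3 : Lb (y + v) = Lb (y + 1 / 2 - (1 / 2 - v)) := by
    congr 1
    ring
  rw [e1, e2, e3]
  linarith

theorem lamv_ge {ys vs : ℂ} (h : VU ys vs) : -(22 / 10) ≤ lamv ys vs := by
  have hpi := Real.pi_pos
  have hpi2 := Real.pi_lt_d2
  have hx0 := h.x0
  have hn0 := h.n0
  have hn1 := h.n1
  have ht0 := h.t0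
  have ht1 := h.t1
  have he0 := h.e0
  have he1 := h.e1
  have hl2 := Real.log_two_lt_d9
  have k1 : ∀ s x : ℝ, |s| ≤ 223 / 1000 → Lg s x ≤ 1 := by
    intro s x hs
    have h1 := Lg_le_cosh s x
    have h2 : (Real.pi * s) ^ 2 ≤ (3.15 * (223 / 1000)) ^ 2 := by
      rw [← sq_abs, abs_mul, abs_of_pos hpi]
      apply pow_le_pow_left₀ (by positivity)
      exact mul_le_mul (by linarith) hs (abs_nonneg _) (by norm_num)
    norm_num at h2 hl2
    linarith
  have k2 : -(1 / 10) ≤ Lg ys.im (1 / 2 - ys.re) := by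
    have h1 := Lg_zero_le_Lg (x := 1 / 2 - ys.re) (by linarith) (by linarith) ys.im
    have h2 : Lg 0 (31 / 200) ≤ Lg 0 (1 / 2 - ys.re) :=
      Lg_mono_re (by norm_num) (by linarith) (by linarith)
    have h4 := Lb_le_tangent (x := 3 / 20) (x0 := 31 / 200) (by norm_num) (by norm_num)
      (by norm_num) (by norm_num)
    have h6 := Lbv_030.1
    have h7 := Lbv_031.2
    norm_num at h4
    linarith
  have k3 := k1 (ys.im - vs.im) (ys.re - vs.re) (by rw [abs_le]; constructor <;> linarith)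
  have k4 := k1 (ys.im + vs.im) (ys.re + vs.re) (by rw [abs_le]; constructor <;> linarith)
  unfold lamv
  linarith

/-- **A low edge at an open node.** -/
theorem Es_low {ys vs : ℂ} (h : VU ys vs) {y v : ℝ} (h0 : -(1 / 2) ≤ y) (h1 : y ≤ -(1 / 4))
    (h2 : -y ≤ v) (h3 : v ≤ 1 / 2) : Es ys vs y v + lamv ys vs * (y - 3 / 10) < -(1 / 50) := by
  have hv := h.n0.ne'
  have hx0 := h.x0
  have hn1 := h.n1
  have hg := h.g
  have ht0 := h.t0
  have ht1 := h.t1
  have hp := h.p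
  have he0 := h.e0
  have he1 := h.e1
  have hl := h.l
  have hlm := lamv_ge h
  refine (Es_low_le hv h0 h1 h2 h3).trans_lt ?_
  have e1 : (1 / 2 - ys).re = 1 / 2 - ys.re := by simp
  have e2 : (1 / 2 - ys).im = -ys.im := by simp
  have w1 := Bn_lin (z := 1 / 2 - ys) (a := 31 / 200) (b := 51 / 200) (B := 27 / 200)
    (u := 106 / 1000) (v := 11 / 100) (by norm_num) (by norm_num) (by rw [e1]; linarith)
    (by rw [e1]; linarith) (by rw [e2, abs_le]; constructor <;> linarith)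
    (by have := Lbv_031.1; unfold kz; norm_num at this ⊢; linarith)
    (by have := Lbv_051.1; unfold kz; norm_num at this ⊢; linarith)
  have w2 : 0 ≤ Bn (ys - vs) :=
    Bn_nonneg' (by rw [sub_re]; linarith) (by rw [sub_re]; linarith)
  have w3 : -Lb (9 / 20) ≤ Bn (ys + vs) :=
    neg_le_Bn (by rw [add_re]; linarith) (by rw [add_re]; linarith) (by rw [add_re]; linarith)
      (by norm_num) (by norm_num)
  have w4 := Lbv_090.2
  rw [e1] at w1
  unfold Wv
  have hb : 106 / 1000 ≤ Bn (1 / 2 - ys) := by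
    nlinarith
  nlinarith

/-- A low edge at the end with four half twists (and all other open nodes with a small slope). -/
theorem Es_low_four {ys vs : ℂ} (hv : vs.im ≠ 0) (hy : 265 / 1000 ≤ ys.re) (hy1 : ys.re ≤ 355 / 1000)
    (hi : |ys.im| ≤ 11 / 100) (hg : 0 < (ys - vs).re) (hg1 : (ys - vs).re ≤ 1 / 2)
    (hp : 0 < (ys + vs).re) (hp1 : (ys + vs).re ≤ 61 / 100) (hl : |lamv ys vs| ≤ 3 / 4) {y v : ℝ}
    (h0 : -(1 / 2) ≤ y) (h1 : y ≤ -(1 / 4)) (h2 : -y ≤ v) (h3 : v ≤ 1 / 2) :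
    Es ys vs y v + lamv ys vs * (y - 3 / 10) < -(1 / 50) := by
  refine (Es_low_le hv h0 h1 h2 h3).trans_lt ?_
  have e1 : (1 / 2 - ys).re = 1 / 2 - ys.re := by simp
  have e2 : (1 / 2 - ys).im = -ys.im := by simp
  have w1 := Bn_lin (z := 1 / 2 - ys) (a := 29 / 200) (b := 47 / 200) (B := 11 / 100)
    (u := 121 / 1000) (v := 121 / 1000) (by norm_num) (by norm_num) (by rw [e1]; linarith)
    (by rw [e1]; linarith) (by rw [e2, abs_neg]; exact hi)
    (by have := Lbv_029.1; unfold kz; norm_num at this ⊢; linarith)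
    (by have := Lbv_047.1; unfold kz; norm_num at this ⊢; linarith)
  have w2 : 0 ≤ Bn (ys - vs) := Bn_nonneg' hg hg1
  have w3 : -Lb (39 / 100) ≤ Bn (ys + vs) :=
    neg_le_Bn hp (by linarith) (by linarith) (by norm_num) (by norm_num)
  have w4 := Lbv_078.2
  rw [e1] at w1
  have hb : 121 / 1000 ≤ Bn (1 / 2 - ys) := by
    nlinarith
  obtain ⟨l1, l2⟩ := abs_le.1 hl
  unfold Wv
  have k1 : -(lamv ys vs * (3 / 10 - ys.re)) ≤ 3 / 4 * (55 / 1000) := by
    rcases le_total (3 / 10) ys.re with h | h <;> nlinarith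
  linarith

/-! ### Ends -/

theorem Bn_half_sub (z : ℂ) : Bn (1 / 2 - z) = -Bn (z + 1 / 2) := by
  rw [← Bn_one_sub]
  congr 1
  ring

theorem Bn_zero : Bn 0 = 0 := by
  have h := Bn_ofReal (x := 0)
  rw [ofReal_zero] at h
  rw [h, Lb_zero]

/-- The volume of the end with two half twists. -/
theorem Wcl_end (as : ℂ) : Wcl as (1 / 2) = Bn (1 / 2 - as) := by
  unfold Wcl
  rw [sub_self, Bn_zero, Bn_half_sub]
  ring

/-- The volume of the end with three half twists. -/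
theorem Wz3_end (zs bs : ℂ) : Wz3 (1 / 2) zs bs = Bn (1 / 2 - bs) + Bn (zs + bs) := by
  unfold Wz3
  rw [sub_self, Bn_zero, Bn_half_sub zs]
  ring

/-- **A low edge at the end with two half twists.** -/
theorem Ecl_low_end {as : ℂ} (ha : 1 / 4 ≤ as.re) (ha1 : as.re ≤ 345 / 1000)
    (hi : |as.im| ≤ 27 / 200) (hl : |(lcl as (1 / 2)).re| ≤ 3 / 4) {a : ℝ}
    (h0 : -(1 / 2) ≤ a) (h1 : a ≤ -(1 / 4)) :
    Ecl as (1 / 2) a (1 / 2) + (lcl as (1 / 2)).re * (a - 3 / 10) < 0 := by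
  have e1 : (1 / 2 - as).re = 1 / 2 - as.re := by simp
  have e2 : (1 / 2 - as).im = -as.im := by simp
  have w1 := Bn_lin (z := 1 / 2 - as) (a := 31 / 200) (b := 1 / 4) (B := 27 / 200)
    (u := 106 / 1000) (v := 109 / 1000) (by norm_num) (by norm_num) (by rw [e1]; linarith)
    (by rw [e1]; linarith) (by rw [e2, abs_neg]; exact hi)
    (by have := Lbv_031.1; unfold kz; norm_num at this ⊢; linarith)
    (by have := Lbv_050.1; unfold kz; norm_num at this ⊢; linarith)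
  rw [e1] at w1
  have hb : 106 / 1000 ≤ Bn (1 / 2 - as) := by
    nlinarith
  have h := Ecl_ofReal as (1 / 2) a (1 / 2)
  have e3 : (((1 / 2 : ℝ)) : ℂ) = 1 / 2 := by push_cast; rfl
  have e4 : (1 / 2 : ℂ).re = 1 / 2 := by simp
  rw [e3, e4, sub_self, mul_zero, Lb_zero, Wcl_end] at h
  have e5 : Lb (1 / 2 - a) = -Lb (a + 1 / 2) := by
    rw [← Lb_one_sub]
    congr 1
    ring
  rw [h, e5]
  have h2 := Lb_nonneg (x := a + 1 / 2) (by linarith) (by linarith)
  obtain ⟨l1, l2⟩ := abs_le.1 hl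
  have k1 : -((lcl as (1 / 2)).re * (3 / 10 - as.re)) ≤ 3 / 4 * (50 / 1000) := by
    rcases le_total (3 / 10) as.re with h | h <;> nlinarith
  linarith

/-- **A low edge at the end with three half twists.** -/
theorem Ez3_low_end {zs bs : ℂ} (hz : l3z (1 / 2) zs bs = 0) (hb : 26 / 100 ≤ bs.re)
    (hb1 : bs.re ≤ 385 / 1000) (hi : |bs.im| ≤ 1 / 10) (hg : 0 < (zs + bs).re)
    (hg1 : (zs + bs).re ≤ 1 / 2) (hl : |(l3b zs bs).re| ≤ 3 / 4) {b z : ℝ}
    (h0 : -(1 / 2) ≤ b) (h1 : b ≤ -(1 / 4)) (h2 : 0 ≤ z + b) (h3 : z ≤ 1 / 2) :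
    Ez3 (1 / 2) zs bs (1 / 2) z b + (l3b zs bs).re * (b - 3 / 10) < 0 := by
  have e1 : (1 / 2 - bs).re = 1 / 2 - bs.re := by simp
  have e2 : (1 / 2 - bs).im = -bs.im := by simp
  have w1 := Bn_lin (z := 1 / 2 - bs) (a := 23 / 200) (b := 6 / 25) (B := 1 / 10)
    (u := 111 / 1000) (v := 111 / 1000) (by norm_num) (by norm_num) (by rw [e1]; linarith)
    (by rw [e1]; linarith) (by rw [e2, abs_neg]; exact hi)
    (by have := Lbv_023.1; unfold kz; norm_num at this ⊢; linarith)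
    (by have := Lbv_048.1; unfold kz; norm_num at this ⊢; linarith)
  rw [e1] at w1
  have hb2 : 111 / 1000 ≤ Bn (1 / 2 - bs) := by
    nlinarith
  have hw := Bn_nonneg' hg hg1
  have h := Ez3_ofReal hz (1 / 2) z b
  have e3 : (((1 / 2 : ℝ)) : ℂ) = 1 / 2 := by push_cast; rfl
  have e4 : (1 / 2 : ℂ).re = 1 / 2 := by simp
  rw [e3, e4, sub_self, mul_zero, Lb_zero, Wz3_end] at h
  have e5 : Lb (1 / 2 - b) = -Lb (b + 1 / 2) := by
    rw [← Lb_one_sub]
    congr 1
    ring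
  have e6 : Lb (1 / 2 - z) = -Lb (z + 1 / 2) := by
    rw [← Lb_one_sub]
    congr 1
    ring
  rw [h, e5, e6]
  have k2 := V3e_le (x := b + 1 / 2) (u := z + b) h2 (by linarith) (by linarith)
  obtain ⟨l1, l2⟩ := abs_le.1 hl
  have k1 : -((l3b zs bs).re * (3 / 10 - bs.re)) ≤ 3 / 4 * (85 / 1000) := by
    rcases le_total (3 / 10) bs.re with h | h <;> nlinarith
  linarith

end Pool.Agent.S5
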