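import Pool.Agent.S5.I.LowB

/-!
# Low edges: closed inner nodes
-/

set_option autoImplicit false

namespace Pool.Agent.S5

open Pool.Agent.H63.VC3 Pool.Agent.S3 Complex MeasureTheory Filter Topology Set

/-- The box of a slot: `y` the critical value of the edge, `l` its real slope. -/
structure SBx (y : ℂ) (l a0 a1 B l0 l1 : ℝ) : Prop where
  a0 : a0 ≤ 1 / 2 - y.re
  a1 : 1 / 2 - y.re ≤ a1
  b : |y.im| ≤ B
  l0 : l0 ≤ l
  l1 : l ≤ l1

/-- Linear upper bound of `Bn` beyond the middle of the strip. -/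
theorem Bn_up {z : ℂ} {X H K κ : ℝ} (h0 : 0 < z.re) (h1 : z.re ≤ X) (hX : 1 / 2 ≤ X) (hX1 : X < 1)
    (hi : |z.im| ≤ H) (ht : ∀ x : ℝ, 0 ≤ x → x ≤ 1 / 2 → Lb x ≤ K - κ * x)
    (hm : kz (1 / 2) * H ^ 2 ≤ K - κ / 2) (he : -Lb (1 - X) + kz (1 - X) * H ^ 2 ≤ K - κ * X) :
    Bn z ≤ K - κ * z.re := by
  rcases le_total z.re (1 / 2) with h | h
  · exact (Bn_le' h0 h).trans (ht _ h0.le h)
  · have h3 : Bn z = -Bn (1 - z) := by rw [Bn_one_sub]; ring
    have e1 : (1 - z).re = 1 - z.re := by simp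
    have e2 : (1 - z).im = -z.im := by simp
    have h4 := Bn_lin (z := 1 - z) (a := 1 - X) (b := 1 / 2) (B := H)
      (u := Lb (1 - X) - kz (1 - X) * H ^ 2) (v := Lb (1 / 2) - kz (1 / 2) * H ^ 2)
      (by linarith) le_rfl (by rw [e1]; linarith) (by rw [e1]; linarith)
      (by rw [e2, abs_neg]; exact hi) le_rfl le_rfl
    rw [e1, Lb_half] at h4
    rcases eq_or_lt_of_le hX with h5 | h5
    · have h6 : z.re = 1 / 2 := le_antisymm (h5 ▸ h1) h
      have h7 := Bn_half z.im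
      have h8 : z = ((1 / 2 : ℝ) : ℂ) + z.im * I := by
        conv_lhs => rw [← re_add_im z, h6]
      rw [← h8] at h7
      rw [h7, h6]
      have h9 : 0 ≤ kz (1 / 2) * H ^ 2 := mul_nonneg (kz_nonneg (by norm_num) le_rfl) (sq_nonneg _)
      linarith
    · have hd : 0 < 1 / 2 - (1 - X) := by linarith
      have m1 := mul_le_mul_of_nonneg_left he (show 0 ≤ 1 / 2 - (1 - z.re) by linarith)
      have m2 := mul_le_mul_of_nonneg_left hm (show 0 ≤ 1 - z.re - (1 - X) by linarith)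
      have h6 : (1 / 2 - (1 - X)) * Bn z ≤ (1 / 2 - (1 - X)) * (K - κ * z.re) := by
        rw [h3]
        nlinarith
      exact le_of_mul_le_mul_left h6 hd

/-- A low edge at a closed node. -/
theorem Ecl_low_le {as bs : ℂ} {a b : ℝ} (h0 : -(1 / 2) ≤ a) (h1 : a ≤ -(1 / 4)) (h2 : 0 ≤ a + b)
    (h3 : b ≤ 1 / 2) : Ecl as bs a b + (lcl as bs).re * (a - 3 / 10) ≤
      Lb (1 / 2 - b) + 21 / 1000 - Wcl as bs - (lcl as bs).re * (3 / 10 - as.re) -
        (lcl bs as).re * (b - bs.re) := by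
  rw [Ecl_ofReal]
  have h4 := V2_le (x := a + 1 / 2) (q := 1 / 2 - b) (by linarith) (by linarith) (by linarith)
  have e1 : Lb (1 / 2 - a) = -Lb (a + 1 / 2) := by
    rw [← Lb_one_sub]
    congr 1
    ring
  have e2 : Lb (a + b) = Lb (a + 1 / 2 - (1 / 2 - b)) := by
    congr 1
    ring
  rw [e1, e2]
  linarith

theorem Wcl_eq (as bs : ℂ) : Wcl as bs =
    2 * Bn (1 / 2 - as) + 2 * Bn (1 / 2 - bs) - Bn ((1 / 2 - as) + (1 / 2 - bs)) := by
  unfold Wcl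
  have h : Bn ((1 / 2 - as) + (1 / 2 - bs)) = -Bn (as + bs) := by
    rw [← Bn_one_sub]
    congr 1
    ring
  rw [h]
  ring

/-- A function which is linear in each of two variables, on a rectangle. -/
theorem bilin_ge {α l a0 a1 l0 l1 c0 c1 c2 c3 s : ℝ} (h0 : a0 ≤ α) (h1 : α ≤ a1) (h2 : l0 ≤ l)
    (h3 : l ≤ l1) (k00 : s ≤ c0 + c1 * a0 + c2 * l0 + c3 * a0 * l0)
    (k01 : s ≤ c0 + c1 * a0 + c2 * l1 + c3 * a0 * l1)
    (k10 : s ≤ c0 + c1 * a1 + c2 * l0 + c3 * a1 * l0)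
    (k11 : s ≤ c0 + c1 * a1 + c2 * l1 + c3 * a1 * l1) :
    s ≤ c0 + c1 * α + c2 * l + c3 * α * l := by
  have hl : ∀ x m0 m1 k0 k1 t : ℝ, m0 ≤ x → x ≤ m1 → t ≤ k0 + k1 * m0 → t ≤ k0 + k1 * m1 →
      t ≤ k0 + k1 * x := by
    intro x m0 m1 k0 k1 t g0 g1 g2 g3
    rcases le_total 0 k1 with h | h
    · have := mul_le_mul_of_nonneg_left g0 h
      linarith
    · have := mul_le_mul_of_nonpos_left g1 h
      linarith
  have j0 := hl l l0 l1 (c0 + c1 * a0) (c2 + c3 * a0) s h2 h3 (by linarith) (by linarith)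
  have j1 := hl l l0 l1 (c0 + c1 * a1) (c2 + c3 * a1) s h2 h3 (by linarith) (by linarith)
  have j2 := hl α a0 a1 (c0 + c2 * l) (c1 + c3 * l) s h0 h1 (by linarith) (by linarith)
  linarith

/-- The certificate of a pair of boxes. -/
structure CertC (a0 a1 B l0 l1 c0 c1 D m0 m1 u0 u1 w0 w1 K κ S0 S1 σ τ e : ℝ) : Prop where
  pa : 0 < a0
  pa1 : a1 ≤ 1 / 2
  paa : a0 < a1
  pc : 0 < c0
  pc1 : c1 ≤ 1 / 2
  pcc : c0 < c1
  hu0 : u0 ≤ Lb a0 - kz a0 * B ^ 2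
  hu1 : u1 ≤ Lb a1 - kz a1 * B ^ 2
  hw0 : w0 ≤ Lb c0 - kz c0 * D ^ 2
  hw1 : w1 ≤ Lb c1 - kz c1 * D ^ 2
  hK : ∀ z : ℂ, 0 < z.re → z.re ≤ a1 + c1 → |z.im| ≤ B + D → Bn z ≤ K - κ * z.re
  hS0 : ∀ q : ℝ, 0 ≤ q → q ≤ 1 / 4 → Lb q + m0 * q ≤ S0
  hS1 : ∀ q : ℝ, 0 ≤ q → q ≤ 1 / 4 → Lb q + m1 * q ≤ S1
  s00 : σ ≤ 2 * u0 + κ * a0 + l0 * (a0 - 1 / 5)
  s01 : σ ≤ 2 * u0 + κ * a0 + l1 * (a0 - 1 / 5)
  s10 : σ ≤ 2 * u1 + κ * a1 + l0 * (a1 - 1 / 5)
  s11 : σ ≤ 2 * u1 + κ * a1 + l1 * (a1 - 1 / 5)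
  t00 : τ ≤ 2 * w0 + κ * c0 + m0 * c0 - S0
  t01 : τ ≤ 2 * w0 + κ * c0 + m1 * c0 - S1
  t10 : τ ≤ 2 * w1 + κ * c1 + m0 * c1 - S0
  t11 : τ ≤ 2 * w1 + κ * c1 + m1 * c1 - S1
  fin : K + 21 / 1000 + e ≤ σ + τ

/-- **A low edge at a closed inner node.** -/
theorem Ecl_low {a0 a1 B l0 l1 c0 c1 D m0 m1 u0 u1 w0 w1 K κ S0 S1 σ τ e : ℝ}
    (c : CertC a0 a1 B l0 l1 c0 c1 D m0 m1 u0 u1 w0 w1 K κ S0 S1 σ τ e) {as bs : ℂ}
    (ha : SBx as (lcl as bs).re a0 a1 B l0 l1) (hb : SBx bs (lcl bs as).re c0 c1 D m0 m1)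
    {a b : ℝ} (h0 : -(1 / 2) ≤ a) (h1 : a ≤ -(1 / 4)) (h2 : 0 ≤ a + b) (h3 : b ≤ 1 / 2) :
    Ecl as bs a b + (lcl as bs).re * (a - 3 / 10) ≤ -e := by
  refine (Ecl_low_le h0 h1 h2 h3).trans ?_
  rw [Wcl_eq]
  have pa := c.pa
  have pa1 := c.pa1
  have paa := c.paa
  have pc := c.pc
  have pc1 := c.pc1
  have pcc := c.pcc
  obtain ⟨a0', a1', ab, al0, al1⟩ := ha
  obtain ⟨b0', b1', bb, bl0, bl1⟩ := hb
  have e1 : (1 / 2 - as).re = 1 / 2 - as.re := by simp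
  have e2 : (1 / 2 - as).im = -as.im := by simp
  have e3 : (1 / 2 - bs).re = 1 / 2 - bs.re := by simp
  have e4 : (1 / 2 - bs).im = -bs.im := by simp
  have v1 := Bn_lin (z := 1 / 2 - as) pa pa1 (by rw [e1]; exact a0') (by rw [e1]; exact a1')
    (by rw [e2, abs_neg]; exact ab) c.hu0 c.hu1
  have v2 := Bn_lin (z := 1 / 2 - bs) pc pc1 (by rw [e3]; exact b0') (by rw [e3]; exact b1')
    (by rw [e4, abs_neg]; exact bb) c.hw0 c.hw1
  have v3 := c.hK ((1 / 2 - as) + (1 / 2 - bs)) (by rw [add_re, e1, e3]; linarith)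
    (by rw [add_re, e1, e3]; linarith) (by
      rw [add_im, e2, e4]
      have := abs_add_le (-as.im) (-bs.im)
      rw [abs_neg, abs_neg] at this
      linarith)
  rw [add_re, e1, e3] at v3
  rw [e1] at v1
  rw [e3] at v2
  set α := 1 / 2 - as.re with hα
  set β := 1 / 2 - bs.re with hβ
  set l := (lcl as bs).re with hl
  set m := (lcl bs as).re with hm
  have hda : 0 < a1 - a0 := by linarith
  have hdc : 0 < c1 - c0 := by linarith
  -- the first bracket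
  have s1 : (a1 - a0) * σ ≤ (a1 - a0) * (2 * Bn (1 / 2 - as) + κ * α + l * (α - 1 / 5)) := by
    have k := bilin_ge (α := α) (l := l) (a0 := a0) (a1 := a1) (l0 := l0) (l1 := l1)
      (c0 := 2 * (a1 * u0 - a0 * u1)) (c1 := 2 * (u1 - u0) + (a1 - a0) * κ)
      (c2 := -(a1 - a0) / 5) (c3 := a1 - a0) (s := (a1 - a0) * σ) a0' a1' al0 al1
      (by
        have := mul_le_mul_of_nonneg_left c.s00 hda.le
        linarith)
      (by
        have := mul_le_mul_of_nonneg_left c.s01 hda.le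
        linarith)
      (by
        have := mul_le_mul_of_nonneg_left c.s10 hda.le
        linarith)
      (by
        have := mul_le_mul_of_nonneg_left c.s11 hda.le
        linarith)
    linarith
  have s2 := le_of_mul_le_mul_left s1 hda
  -- the second bracket
  have t1 : (c1 - c0) * τ ≤ (c1 - c0) * (2 * Bn (1 / 2 - bs) + κ * β + m * β -
      (Lb (1 / 2 - b) + m * (1 / 2 - b))) := by
    have q0 := c.hS0 (1 / 2 - b) (by linarith) (by linarith)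
    have q1 := c.hS1 (1 / 2 - b) (by linarith) (by linarith)
    have k := bilin_ge (α := β) (l := m) (a0 := c0) (a1 := c1) (l0 := m0) (l1 := m1)
      (c0 := 2 * (c1 * w0 - c0 * w1) - (c1 - c0) * Lb (1 / 2 - b))
      (c1 := 2 * (w1 - w0) + (c1 - c0) * κ)
      (c2 := -(c1 - c0) * (1 / 2 - b)) (c3 := c1 - c0) (s := (c1 - c0) * τ) b0' b1' bl0 bl1
      (by
        have := mul_le_mul_of_nonneg_left (c.t00.trans (sub_le_sub_left q0 _)) hdc.le
        linarith)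
      (by
        have := mul_le_mul_of_nonneg_left (c.t01.trans (sub_le_sub_left q1 _)) hdc.le
        linarith)
      (by
        have := mul_le_mul_of_nonneg_left (c.t10.trans (sub_le_sub_left q0 _)) hdc.le
        linarith)
      (by
        have := mul_le_mul_of_nonneg_left (c.t11.trans (sub_le_sub_left q1 _)) hdc.le
        linarith)
    linarith
  have t2 := le_of_mul_le_mul_left t1 hdc
  have f := c.fin
  have e5 : 3 / 10 - as.re = α - 1 / 5 := by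
    rw [hα]
    ring
  have e6 : b - bs.re = β - (1 / 2 - b) := by
    rw [hβ]
    ring
  rw [e5, e6]
  linarith

end Pool.Agent.S5
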