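import Pool.Agent.S5.I.LowZ
import Pool.Agent.S5.I.VOK

/-!
# Low edges: the fields of the statements for the nodes
-/

set_option autoImplicit false

namespace Pool.Agent.S5

open Pool.Agent.H63.VC3 Pool.Agent.S3 Complex MeasureTheory Filter Topology Set

/-- What a slot has to receive if its edge is forced to be real by the other edge. -/
noncomputable def shr (S : Bool) : ℝ := if S = true then 20 / 100 else 15 / 100

theorem slE_lo {S : Bool} {n x : Nt} {lam ys y : ℂ} {w : ℝ} (hw : w = 0) :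
    slE S n x .lo lam ys y w = lam.re * (y.re - 3 / 10) - lam.im * y.im := by
  have h1 : hT S n x .lo = 0 := by simp [hT, r0, Pc.mir]
  have h2 : dT S n x .lo = 0 := by simp [dT, d0, Pc.mir]
  unfold slE
  rw [h1, h2, hw]
  have e : Pc.eff .lo y = 3 / 10 := rfl
  rw [e, mul_re, sub_re, sub_im]
  have e1 : (3 / 10 : ℂ).re = 3 / 10 := by
    rw [show (3 / 10 : ℂ) = ((3 / 10 : ℝ) : ℂ) by push_cast; ring, ofReal_re]
  have e2 : (3 / 10 : ℂ).im = 0 := by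
    rw [show (3 / 10 : ℂ) = ((3 / 10 : ℝ) : ℂ) by push_cast; ring, ofReal_im]
  rw [e1, e2]
  ring

theorem slE_re {S : Bool} {n x : Nt} {pc : Pc} (hp : pc.frcT) {lam ys y : ℂ} {w : ℝ}
    (hw : w = 0) : slE S n x pc lam ys y w ≤ shr S := by
  unfold slE shr
  rcases hp with rfl | rfl
  · have h1 : hT S n x (.re .own) = if S = true then -(20 / 100) else -(15 / 100) := by
      cases S <;> simp [hT, r0, Pc.mir, Fc.mir] <;> norm_num
    have h2 : dT S n x (.re .own) = 0 := by simp [dT, d0, Pc.mir, Fc.mir]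
    have e : Pc.eff (.re .own) y = y := rfl
    rw [h1, h2, hw, e]
    cases S <;> simp
  · have h1 : hT S n x (.re .both) = 0 := by
      cases S <;> simp [hT, r0, Pc.mir, Fc.mir]
    have h2 : dT S n x (.re .both) = 0 := by simp [dT, d0, Pc.mir, Fc.mir]
    have e : Pc.eff (.re .both) y = y := rfl
    rw [h1, h2, hw, e]
    cases S <;> simp <;> norm_num

theorem In_re {pc : Pc} (hp : pc.frcT) {d η : ℝ} {y : ℂ} {w : ℝ} (h : pc.In d η y w) :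
    w = 0 ∧ y.im = 0 ∧ 1 / 4 ≤ y.re ∧ y.re ≤ 1 / 2 := by
  rcases hp with rfl | rfl <;> exact h

theorem real_eq {y : ℂ} (h : y.im = 0) : y = (y.re : ℂ) := by
  apply Complex.ext
  · simp
  · simp [h]

/-- The contribution of the slot of a low edge. -/
theorem Slt.e_lo {s : Slt} (hs : s.ex = true) {n : Nt} {y : ℂ} {w : ℝ}
    (h : s.In .lo y w) : s.e n .lo y w = s.lam.re * (y.re - 3 / 10) ∧ y = (y.re : ℂ) ∧
      -(1 / 2) ≤ y.re ∧ y.re ≤ -(1 / 4) := by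
  unfold Slt.In at h
  rw [if_pos hs] at h
  obtain ⟨⟨h1, h2, h3, h4⟩, -⟩ := h
  refine ⟨?_, real_eq h2, h3, h4⟩
  unfold Slt.e
  rw [if_pos hs, slE_lo h1, h2]
  ring

/-- The contribution of the slot of a real edge. -/
theorem Slt.e_re {s : Slt} (hs : s.ex = true) {n : Nt} {pc : Pc} (hp : pc.frcT) {y : ℂ} {w : ℝ}
    (h : s.In pc y w) : s.e n pc y w ≤ shr s.S ∧ y = (y.re : ℂ) ∧ 1 / 4 ≤ y.re ∧
      y.re ≤ 1 / 2 := by
  unfold Slt.In at h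
  rw [if_pos hs] at h
  obtain ⟨h1, h2, h3, h4⟩ := In_re hp h.1
  refine ⟨?_, real_eq h2, h3, h4⟩
  unfold Slt.e
  rw [if_pos hs]
  exact slE_re hp h1

/-- The contribution of a missing slot. -/
theorem Slt.e_no {s : Slt} (hs : s.ex = false) {n : Nt} {pc : Pc} {y : ℂ} {w : ℝ}
    (h : s.In pc y w) : s.e n pc y w = 0 ∧ y = 1 / 2 := by
  unfold Slt.In at h
  rw [if_neg (by rw [hs]; decide)] at h
  refine ⟨?_, h.2.1⟩
  unfold Slt.e
  rw [if_neg (by rw [hs]; decide)]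

/-! ### Two half twists -/

/-- The field `Ta` of an inner node. -/
theorem VCl_Ta {n : Nt} {sa sb : Slt} (hl : sa.lam = lcl sa.ys sb.ys) (hb : sb.ex = true)
    (H : ∀ a b : ℝ, -(1 / 2) ≤ a → a ≤ -(1 / 4) → 0 ≤ a + b → b ≤ 1 / 2 →
      Ecl sa.ys sb.ys a b + (lcl sa.ys sb.ys).re * (a - 3 / 10) < -shr sb.S) :
    ∀ (a b : ℂ) (wa wb : ℝ) (pb : Pc), sa.ex = true → (sb.ex = true → pb.frcT) →
      sa.In .lo a wa → sb.In pb b wb → 0 ≤ (a + b).re →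
      Ecl sa.ys sb.ys a b + sa.e n .lo a wa + sb.e n pb b wb < 0 := by
  intro a b wa wb pb ha hf hA hB h0
  obtain ⟨e1, e2, h1, h2⟩ := Slt.e_lo ha (n := n) hA
  obtain ⟨g1, g2, h3, h4⟩ := Slt.e_re hb (hf hb) (n := n) hB
  have k := H a.re b.re h1 h2 (by rw [add_re] at h0; exact h0) h4
  rw [← e2, ← g2] at k
  rw [e1, hl]
  linarith

theorem Ecl_comm (as bs a b : ℂ) : Ecl bs as b a = Ecl as bs a b := by
  unfold Ecl
  rw [add_comm bs as, add_comm b a]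
  have e1 : ((b - bs) - (a - as)).re = -((a - as) - (b - bs)).re := by
    simp only [sub_re]
    ring
  have e2 : ((b - bs) - (a - as)).im = -((a - as) - (b - bs)).im := by
    simp only [sub_im]
    ring
  rw [e1, e2]
  ring

/-- The field `Tb` of an inner node. -/
theorem VCl_Tb {n : Nt} {sa sb : Slt} (hl : sb.lam = lcl sb.ys sa.ys) (ha : sa.ex = true)
    (H : ∀ b a : ℝ, -(1 / 2) ≤ b → b ≤ -(1 / 4) → 0 ≤ b + a → a ≤ 1 / 2 →
      Ecl sb.ys sa.ys b a + (lcl sb.ys sa.ys).re * (b - 3 / 10) < -shr sa.S) :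
    ∀ (a b : ℂ) (wa wb : ℝ) (pa : Pc), sb.ex = true → (sa.ex = true → pa.frcT) →
      sa.In pa a wa → sb.In .lo b wb → 0 ≤ (a + b).re →
      Ecl sa.ys sb.ys a b + sa.e n pa a wa + sb.e n .lo b wb < 0 := by
  intro a b wa wb pa hb hf hA hB h0
  have k := VCl_Ta (n := n) (sa := sb) (sb := sa) hl ha H b a wb wa pa hb hf hB hA
    (by rw [add_comm]; exact h0)
  have e : Ecl sb.ys sa.ys b a = Ecl sa.ys sb.ys a b := Ecl_comm _ _ _ _
  rw [e] at k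
  linarith

/-- The field `Ta` of an end. -/
theorem VCl_Ta_end {n : Nt} {sa sb : Slt} (hl : sa.ex = true → sa.lam = lcl sa.ys (1 / 2))
    (hb : sb.ex = false) (hy : sb.ys = 1 / 2) (h0 : 1 / 4 ≤ sa.ys.re)
    (h1 : sa.ys.re ≤ 345 / 1000) (hi : |sa.ys.im| ≤ 27 / 200) (hm : |sa.lam.re| ≤ 3 / 4) :
    ∀ (a b : ℂ) (wa wb : ℝ) (pb : Pc), sa.ex = true → (sb.ex = true → pb.frcT) →
      sa.In .lo a wa → sb.In pb b wb → 0 ≤ (a + b).re →
      Ecl sa.ys sb.ys a b + sa.e n .lo a wa + sb.e n pb b wb < 0 := by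
  intro a b wa wb pb ha hf hA hB h2
  obtain ⟨e1, e2, h3, h4⟩ := Slt.e_lo ha (n := n) hA
  obtain ⟨g1, g2⟩ := Slt.e_no hb (n := n) hB
  have k := Ecl_low_end h0 h1 hi (by rw [← hl ha]; exact hm) h3 h4
  rw [e1, g1, g2, hy, hl ha]
  rw [← e2] at k
  linarith

/-- The field `Tb` of an end. -/
theorem VCl_Tb_end {n : Nt} {sa sb : Slt} (hl : sb.ex = true → sb.lam = lcl sb.ys (1 / 2))
    (ha : sa.ex = false) (hy : sa.ys = 1 / 2) (h0 : 1 / 4 ≤ sb.ys.re)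
    (h1 : sb.ys.re ≤ 345 / 1000) (hi : |sb.ys.im| ≤ 27 / 200) (hm : |sb.lam.re| ≤ 3 / 4) :
    ∀ (a b : ℂ) (wa wb : ℝ) (pa : Pc), sb.ex = true → (sa.ex = true → pa.frcT) →
      sa.In pa a wa → sb.In .lo b wb → 0 ≤ (a + b).re →
      Ecl sa.ys sb.ys a b + sa.e n pa a wa + sb.e n .lo b wb < 0 := by
  intro a b wa wb pa hb hf hA hB h2
  have k := VCl_Ta_end (n := n) (sa := sb) (sb := sa) hl ha hy h0 h1 hi hm b a wb wa pa hb hf hB
    hA (by rw [add_comm]; exact h2)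
  rw [Ecl_comm] at k
  linarith

/-- If a slot is missing, there is no low edge in it. -/
theorem VCl_no {n : Nt} {sa sb : Slt} (ha : sa.ex = false) :
    ∀ (a b : ℂ) (wa wb : ℝ) (pb : Pc), sa.ex = true → (sb.ex = true → pb.frcT) →
      sa.In .lo a wa → sb.In pb b wb → 0 ≤ (a + b).re →
      Ecl sa.ys sb.ys a b + sa.e n .lo a wa + sb.e n pb b wb < 0 := by
  intro a b wa wb pb h
  rw [ha] at h
  exact absurd h (by decide)

/-! ### Nodes with a lattice variable -/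

/-- The field `Ty`. -/
theorem VZ_Ty {E : ℂ → ℂ → ℂ → ℝ} {n : Nt} {sy sb : Slt} (hb : sb.ex = true)
    (H : ∀ y z b : ℝ, -(1 / 2) ≤ y → y ≤ -(1 / 4) → 1 / 4 ≤ b → b ≤ 1 / 2 → z ≤ y → 0 ≤ z + b →
      E y z b + sy.lam.re * (y - 3 / 10) < -shr sb.S) :
    ∀ (y z b : ℂ) (wy wb : ℝ) (pb : Pc), sy.ex = true → (sb.ex = true → pb.frcT) →
      sy.In .lo y wy → sb.In pb b wb → z.im = 0 → -(1 / 2) ≤ z.re → z.re ≤ 1 / 2 → z.re ≤ y.re →
      0 ≤ z.re + b.re → E y z b + sy.e n .lo y wy + sb.e n pb b wb < 0 := by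
  intro y z b wy wb pb hy hf hY hB hz h0 h1 h2 h3
  obtain ⟨e1, e2, h4, h5⟩ := Slt.e_lo hy (n := n) hY
  obtain ⟨g1, g2, h6, h7⟩ := Slt.e_re hb (hf hb) (n := n) hB
  have k := H y.re z.re b.re h4 h5 h6 h7 h2 h3
  rw [← e2, ← g2, ← real_eq hz] at k
  rw [e1]
  linarith

/-- The field `Tb`. -/
theorem VZ_Tb {E : ℂ → ℂ → ℂ → ℝ} {n : Nt} {sy sb : Slt} (hy : sy.ex = true)
    (H : ∀ y z b : ℝ, -(1 / 2) ≤ b → b ≤ -(1 / 4) → 1 / 4 ≤ y → y ≤ 1 / 2 → z ≤ y → 0 ≤ z + b →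
      E y z b + sb.lam.re * (b - 3 / 10) < -shr sy.S) :
    ∀ (y z b : ℂ) (wy wb : ℝ) (py : Pc), sb.ex = true → (sy.ex = true → py.frcT) →
      sy.In py y wy → sb.In .lo b wb → z.im = 0 → -(1 / 2) ≤ z.re → z.re ≤ 1 / 2 → z.re ≤ y.re →
      0 ≤ z.re + b.re → E y z b + sy.e n py y wy + sb.e n .lo b wb < 0 := by
  intro y z b wy wb py hb hf hY hB hz h0 h1 h2 h3
  obtain ⟨e1, e2, h4, h5⟩ := Slt.e_lo hb (n := n) hB
  obtain ⟨g1, g2, h6, h7⟩ := Slt.e_re hy (hf hy) (n := n) hY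
  have k := H y.re z.re b.re h4 h5 h6 h7 h2 h3
  rw [← e2, ← g2, ← real_eq hz] at k
  rw [e1]
  linarith

/-- The field `Ty` of an end. -/
theorem VZ_Ty_no {E : ℂ → ℂ → ℂ → ℝ} {n : Nt} {sy sb : Slt} (hy : sy.ex = false) :
    ∀ (y z b : ℂ) (wy wb : ℝ) (pb : Pc), sy.ex = true → (sb.ex = true → pb.frcT) →
      sy.In .lo y wy → sb.In pb b wb → z.im = 0 → -(1 / 2) ≤ z.re → z.re ≤ 1 / 2 → z.re ≤ y.re →
      0 ≤ z.re + b.re → E y z b + sy.e n .lo y wy + sb.e n pb b wb < 0 := by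
  intro y z b wy wb pb h
  rw [hy] at h
  exact absurd h (by decide)

/-- The field `Tb` of the end with three half twists. -/
theorem VZ_Tb_end {n : Nt} {zs : ℂ} {sy sb : Slt} (hz : l3z (1 / 2) zs sb.ys = 0)
    (hl : sb.lam = l3b zs sb.ys) (hy : sy.ex = false) (h0 : 26 / 100 ≤ sb.ys.re)
    (h1 : sb.ys.re ≤ 385 / 1000) (hi : |sb.ys.im| ≤ 1 / 10) (hg : 0 < (zs + sb.ys).re)
    (hg1 : (zs + sb.ys).re ≤ 1 / 2) (hm : |sb.lam.re| ≤ 3 / 4) :
    ∀ (y z b : ℂ) (wy wb : ℝ) (py : Pc), sb.ex = true → (sy.ex = true → py.frcT) →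
      sy.In py y wy → sb.In .lo b wb → z.im = 0 → -(1 / 2) ≤ z.re → z.re ≤ 1 / 2 → z.re ≤ y.re →
      0 ≤ z.re + b.re →
      Ez3 (1 / 2) zs sb.ys y z b + sy.e n py y wy + sb.e n .lo b wb < 0 := by
  intro y z b wy wb py hb hf hY hB hz0 h2 h3 h4 h5
  obtain ⟨e1, e2, h6, h7⟩ := Slt.e_lo hb (n := n) hB
  obtain ⟨g1, g2⟩ := Slt.e_no hy (n := n) hY
  have k := Ez3_low_end hz h0 h1 hi hg hg1 (by rw [← hl]; exact hm) (b := b.re) (z := z.re) h6 h7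
    h5 h3
  rw [e1, g1, g2, hl]
  rw [← e2, ← real_eq hz0] at k
  linarith

/-! ### Nodes with an integration variable -/

/-- The field `L` at nodes with five or more half twists. -/
theorem VS_L {n : Nt} {vs : ℂ} {s : Slt} (h : VU s.ys vs) (hl : s.lam.re = lamv s.ys vs) :
    ∀ (y v : ℂ) (w : ℝ), s.InE .lo y w → v.im = 0 → -y.re ≤ v.re →
    v.re ≤ 1 / 2 → Es s.ys vs y v + slE s.S n s.x .lo s.lam s.ys y w < -(1 / 50) := by
  intro y v w hy hv h1 h2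
  obtain ⟨⟨g1, g2, g3, g4⟩, -⟩ := hy
  rw [slE_lo g1, g2, hl, mul_zero, sub_zero]
  have k := Es_low h g3 g4 h1 h2
  rw [← real_eq g2, ← real_eq hv] at k
  exact k

/-- The field `L` at the end with four half twists. -/
theorem VS_L_four {n : Nt} {vs : ℂ} {s : Slt} (hv0 : vs.im ≠ 0) (hy0 : 265 / 1000 ≤ s.ys.re)
    (hy1 : s.ys.re ≤ 355 / 1000) (hi : |s.ys.im| ≤ 11 / 100) (hg : 0 < (s.ys - vs).re)
    (hg1 : (s.ys - vs).re ≤ 1 / 2) (hp : 0 < (s.ys + vs).re) (hp1 : (s.ys + vs).re ≤ 61 / 100)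
    (hm : |s.lam.re| ≤ 3 / 4) (hl : s.lam.re = lamv s.ys vs) :
    ∀ (y v : ℂ) (w : ℝ), s.InE .lo y w → v.im = 0 → -y.re ≤ v.re →
    v.re ≤ 1 / 2 → Es s.ys vs y v + slE s.S n s.x .lo s.lam s.ys y w < -(1 / 50) := by
  intro y v w hy hv h1 h2
  obtain ⟨⟨g1, g2, g3, g4⟩, -⟩ := hy
  rw [slE_lo g1, g2, hl, mul_zero, sub_zero]
  have k := Es_low_four hv0 hy0 hy1 hi hg hg1 hp hp1 (by rw [← hl]; exact hm) g3 g4 h1 h2
  rw [← real_eq g2, ← real_eq hv] at k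
  exact k

end Pool.Agent.S5
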