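import Pool.Agent.S5.I.LowT

/-!
# Low edges: the test for closed nodes
-/

set_option autoImplicit false

namespace Pool.Agent.S5

open Pool.Agent.H63.VC3 Pool.Agent.S3 Complex MeasureTheory Filter Topology Set

/-! ### Suprema of `Lb q + m q` -/

theorem Lb_l1 {q : ℝ} (h0 : 0 ≤ q) (h1 : q ≤ 1 / 4) :
    Lb q ≤ 232434 / 1000000 + -(346573 / 1000000) * q := by
  have := Lb_t4 h0 (by linarith only [h1])
  linarith only [this]

theorem Lb_l2 {q : ℝ} (h0 : 0 ≤ q) (h1 : q ≤ 1 / 4) : Lb q ≤ 161540 / 1000000 + 0 * q := by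
  have := Lb_t6 h0 (by linarith only [h1])
  linarith only [this]

theorem Lb_l3 {q : ℝ} (h0 : 0 ≤ q) (h1 : q ≤ 1 / 4) :
    Lb q ≤ 122865 / 1000000 + 267400 / 1000000 * q := by
  have := Lb_t8 h0 h1
  linarith only [this]

theorem Lb_l4 {q : ℝ} (h0 : 0 ≤ q) (h1 : q ≤ 1 / 4) :
    Lb q ≤ 82725 / 1000000 + 658500 / 1000000 * q := by
  have := Lb_t12 h0 h1
  linarith only [this]

/-- Two tangents. -/
theorem sup_two {f q M A B s t T : ℝ} (h1 : f ≤ A + s * q) (h2 : f ≤ B + t * q) (hst : s < t)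
    (g1 : s ≤ -M) (g2 : -M ≤ t) (hT : A * (t + M) + B * (-M - s) ≤ T * (t - s)) : f + M * q ≤ T := by
  have k1 := mul_le_mul_of_nonneg_left h1 (show 0 ≤ t + M by linarith only [g2])
  have k2 := mul_le_mul_of_nonneg_left h2 (show 0 ≤ -M - s by linarith only [g1])
  have k3 : (t - s) * (f + M * q) ≤ (t - s) * T := by linarith only [k2, k1, hT]
  exact le_of_mul_le_mul_left k3 (by linarith only [hst])

/-- Upper bound of `Lb q + (m / 1000) q` on `[0, 1 / 4]`, in units of `1 / 1000000`. -/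
def supU (m : ℤ) : ℤ :=
  if 1000 * m ≤ -658500 then 82725
  else if 1000 * m ≤ -267400 then
    (122865 * (658500 + 1000 * m) + 82725 * (-(1000 * m) - 267400)) / 391100 + 1
  else if m ≤ 0 then (161540 * (267400 + 1000 * m) + 122865 * (-(1000 * m))) / 267400 + 1
  else if 1000 * m ≤ 346573 then
    (232434 * (1000 * m) + 161540 * (346573 - 1000 * m)) / 346573 + 1
  else 232434 + (1000 * m - 346573) / 4 + 1

theorem ediv_up (a b : ℤ) (hb : 0 < b) : (a : ℝ) ≤ ((a / b + 1 : ℤ) : ℝ) * b := by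
  have h := (Int.lt_ediv_add_one_mul_self a hb).le
  exact_mod_cast h

theorem supU_ok {m : ℤ} {q : ℝ} (h0 : 0 ≤ q) (h1 : q ≤ 1 / 4) :
    Lb q + (m : ℝ) / 1000 * q ≤ (supU m : ℝ) / 1000000 := by
  have l1 := Lb_l1 h0 h1
  have l2 := Lb_l2 h0 h1
  have l3 := Lb_l3 h0 h1
  have l4 := Lb_l4 h0 h1
  unfold supU
  split_ifs with c1 c2 c3 c4
  · have c1' : (1000 : ℝ) * m ≤ -658500 := by exact_mod_cast c1
    have : (658500 / 1000000 + (m : ℝ) / 1000) * q ≤ 0 :=
      mul_nonpos_of_nonpos_of_nonneg (by linarith only [c1']) h0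
    push_cast
    linarith only [this, l4]
  · have c1' : -658500 < (1000 : ℝ) * m := by exact_mod_cast not_le.1 c1
    have c2' : (1000 : ℝ) * m ≤ -267400 := by exact_mod_cast c2
    have k := ediv_up (122865 * (658500 + 1000 * m) + 82725 * (-(1000 * m) - 267400)) 391100
      (by norm_num)
    refine sup_two l3 l4 (by norm_num) (by linarith only [c2']) (by linarith only [c1']) ?_
    generalize ((122865 * (658500 + 1000 * m) + 82725 * (-(1000 * m) - 267400)) / 391100 + 1 : ℤ)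
      = T at k ⊢
    push_cast at k
    linarith only [k]
  · have c2' : -267400 < (1000 : ℝ) * m := by exact_mod_cast not_le.1 c2
    have c3' : (m : ℝ) ≤ 0 := by exact_mod_cast c3
    have k := ediv_up (161540 * (267400 + 1000 * m) + 122865 * (-(1000 * m))) 267400
      (by norm_num)
    refine sup_two l2 l3 (by norm_num) (by linarith only [c3']) (by linarith only [c2']) ?_
    generalize ((161540 * (267400 + 1000 * m) + 122865 * (-(1000 * m))) / 267400 + 1 : ℤ)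
      = T at k ⊢
    push_cast at k
    linarith only [k]
  · have c3' : (0 : ℝ) < m := by exact_mod_cast not_le.1 c3
    have c4' : (1000 : ℝ) * m ≤ 346573 := by exact_mod_cast c4
    have k := ediv_up (232434 * (1000 * m) + 161540 * (346573 - 1000 * m)) 346573
      (by norm_num)
    refine sup_two l1 l2 (by norm_num) (by linarith only [c4']) (by linarith only [c3']) ?_
    generalize ((232434 * (1000 * m) + 161540 * (346573 - 1000 * m)) / 346573 + 1 : ℤ)
      = T at k ⊢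
    push_cast at k
    linarith only [k]
  · have c4' : 346573 < (1000 : ℝ) * m := by exact_mod_cast not_le.1 c4
    have k := ediv_up (1000 * m - 346573) 4 (by norm_num)
    have k2 : (232434 + (1000 * m - 346573) / 4 + 1 : ℤ) =
      232434 + ((1000 * m - 346573) / 4 + 1) := by ring
    rw [k2]
    generalize ((1000 * m - 346573) / 4 + 1 : ℤ) = T at k ⊢
    push_cast at k ⊢
    have : (-(346573 / 1000000) + (m : ℝ) / 1000) * q ≤
        (-(346573 / 1000000) + (m : ℝ) / 1000) * (1 / 4) :=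
      mul_le_mul_of_nonneg_left h1 (by linarith only [c4'])
    linarith only [this, k, l1]

/-! ### The bound beyond the middle of the strip -/

/-- The constant `K`, in units of `1 / 1000000`. -/
def KU (X H : ℕ) : ℤ :=
  if X ≤ 500 then 324878 else
    max 324878 (max (321486 + (kzu 500 * (H : ℤ) ^ 2 / 1000000 + 1))
      (((64297 * X / 100 + 1 : ℕ) : ℤ) - bnp (1000 - X) H))

theorem KU_ok {X H : ℕ} (hX : X < 960) {z : ℂ} (h0 : 0 < z.re) (h1 : z.re ≤ (X : ℝ) / 1000)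
    (h2 : |z.im| ≤ (H : ℝ) / 1000) :
    Bn z ≤ (KU X H : ℝ) / 1000000 - 64297 / 100000 * z.re := by
  unfold KU
  split_ifs with h
  · have hX' : (X : ℝ) ≤ 500 := by exact_mod_cast h
    have k := Bn_le' h0 (by linarith only [hX', h1])
    have k2 := Lb_t25 h0.le (show z.re ≤ 1 / 2 by linarith only [hX', h1])
    push_cast
    linarith only [k2, k]
  · have hX' : (500 : ℝ) ≤ X := by exact_mod_cast (not_le.1 h).le
    have hX2 : (X : ℝ) < 960 := by exact_mod_cast hX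
    have a1 : (324878 : ℤ) ≤ max 324878 (max (321486 + (kzu 500 * (H : ℤ) ^ 2 / 1000000 + 1))
      (((64297 * X / 100 + 1 : ℕ) : ℤ) - bnp (1000 - X) H)) := le_max_left _ _
    have a2 := (le_max_left (321486 + (kzu 500 * (H : ℤ) ^ 2 / 1000000 + 1))
      (((64297 * X / 100 + 1 : ℕ) : ℤ) - bnp (1000 - X) H)).trans
        (le_max_right (324878 : ℤ) _)
    have a3 := (le_max_right (321486 + (kzu 500 * (H : ℤ) ^ 2 / 1000000 + 1))
      (((64297 * X / 100 + 1 : ℕ) : ℤ) - bnp (1000 - X) H)).trans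
        (le_max_right (324878 : ℤ) _)
    generalize max 324878 (max (321486 + (kzu 500 * (H : ℤ) ^ 2 / 1000000 + 1))
      (((64297 * X / 100 + 1 : ℕ) : ℤ) - bnp (1000 - X) H)) = K at a1 a2 a3 ⊢
    have c2 := ediv_up (kzu 500 * (H : ℤ) ^ 2) 1000000 (by norm_num)
    have c3 : (64297 : ℝ) * X / 100 ≤ ((64297 * X / 100 + 1 : ℕ) : ℝ) := by
      have := (Nat.lt_mul_div_succ (64297 * X) (show 0 < 100 by norm_num)).le
      rw [div_le_iff₀ (by norm_num), mul_comm]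
      have h5 : ((64297 * X : ℕ) : ℝ) ≤ ((100 * (64297 * X / 100 + 1) : ℕ) : ℝ) := by
        exact_mod_cast this
      push_cast at h5 ⊢
      linarith only [h5]
    generalize (kzu 500 * (H : ℤ) ^ 2 / 1000000 + 1 : ℤ) = u at a2 c2
    generalize (64297 * X / 100 + 1 : ℕ) = N at a3 c3
    have b1 : (324878 : ℝ) ≤ K := by exact_mod_cast a1
    have b2 : (321486 : ℝ) + (u : ℝ) ≤ K := by exact_mod_cast a2
    have b3 : (N : ℝ) - bnp (1000 - X) H ≤ K := by exact_mod_cast a3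
    have d1 := kzu_ok (X := 500) (by norm_num)
    have d2 := bnp_ok (X := 1000 - X) (by omega) (by omega) H
    have e1 : (((1000 - X : ℕ) : ℕ) : ℝ) = 1000 - X := by
      rw [Nat.cast_sub (by omega)]
      push_cast
      ring
    rw [e1] at d2
    have e2 : (1000 - (X : ℝ)) / 1000 = 1 - (X : ℝ) / 1000 := by ring
    rw [e2] at d2
    have e3 : ((500 : ℕ) : ℝ) / 1000 = 1 / 2 := by norm_num
    rw [e3] at d1
    have d3 : kz (1 / 2) * ((H : ℝ) / 1000) ^ 2 ≤ (kzu 500 : ℝ) / 1000000 * ((H : ℝ) / 1000) ^ 2 :=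
      mul_le_mul_of_nonneg_right d1 (sq_nonneg _)
    apply Bn_up h0 h1 (by linarith only [hX']) (by linarith only [hX2]) h2
    · intro x g0 g1
      have := Lb_t25 g0 g1
      linarith only [this, b1]
    · push_cast at c2
      linarith only [c2, d3, b2, hX2, h1, h0]
    · linarith only [d2, b3, c3]

/-! ### The test -/

/-- The boxes of a closed node, in units of `1 / 1000`: `a`, `c` for `1 / 2 - as`, `1 / 2 - bs`
(`B`, `D` bound the imaginary parts), `l` and `m` for the real slopes in the two slots. -/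
structure CD where
  a0 : ℕ
  a1 : ℕ
  B : ℕ
  l0 : ℤ
  l1 : ℤ
  c0 : ℕ
  c1 : ℕ
  D : ℕ
  m0 : ℤ
  m1 : ℤ

/-- The node is in the boxes. -/
structure CD.In (d : CD) (as bs : ℂ) (l m : ℝ) : Prop where
  a : InX d.a0 d.a1 d.B (1 / 2 - as)
  c : InX d.c0 d.c1 d.D (1 / 2 - bs)
  l0 : (d.l0 : ℝ) / 1000 ≤ l
  l1 : l ≤ (d.l1 : ℝ) / 1000
  m0 : (d.m0 : ℝ) / 1000 ≤ m
  m1 : m ≤ (d.m1 : ℝ) / 1000

/-- The boxes of the two slots exchanged. -/
def CD.sw (d : CD) : CD := ⟨d.c0, d.c1, d.D, d.m0, d.m1, d.a0, d.a1, d.B, d.l0, d.l1⟩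

theorem CD.In.sw {d : CD} {as bs : ℂ} {l m : ℝ} (h : d.In as bs l m) : d.sw.In bs as m l :=
  ⟨h.c, h.a, h.m0, h.m1, h.l0, h.l1⟩

/-- The contribution of the low slot. -/
def sgm (X B : ℕ) (l : ℤ) : ℤ := 2 * bnp X B + ((64297 * X / 100 : ℕ) : ℤ) + l * ((X : ℤ) - 200)

/-- The contribution of the other slot. -/
def tau (X B : ℕ) (m : ℤ) : ℤ :=
  2 * bnp X B + ((64297 * X / 100 : ℕ) : ℤ) + m * (X : ℤ) - supU m

/-- The test for a low edge in the first slot; `S` is the kind of the other slot. -/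
def CD.t (d : CD) (S : Bool) : Bool :=
  decide (40 ≤ d.a0) && decide (d.a0 < d.a1) && decide (d.a1 ≤ 500) && decide (40 ≤ d.c0) &&
  decide (d.c0 < d.c1) && decide (d.c1 ≤ 500) && decide (d.a1 + d.c1 < 960) &&
  decide (KU (d.a1 + d.c1) (d.B + d.D) + 21000 + sh S + 1 ≤
    min (min (sgm d.a0 d.B d.l0) (sgm d.a0 d.B d.l1)) (min (sgm d.a1 d.B d.l0) (sgm d.a1 d.B d.l1)) +
    min (min (tau d.c0 d.D d.m0) (tau d.c0 d.D d.m1)) (min (tau d.c1 d.D d.m0) (tau d.c1 d.D d.m1)))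

theorem sgm_ok (X B : ℕ) (l : ℤ) : (sgm X B l : ℝ) / 1000000 ≤
    2 * ((bnp X B : ℝ) / 1000000) + 64297 / 100000 * ((X : ℝ) / 1000) +
      (l : ℝ) / 1000 * ((X : ℝ) / 1000 - 1 / 5) := by
  unfold sgm
  have h : 64297 * X / 100 * 100 ≤ 64297 * X := Nat.div_mul_le_self _ _
  have h2 : ((64297 * X / 100 : ℕ) : ℝ) * 100 ≤ 64297 * X := by exact_mod_cast h
  generalize (64297 * X / 100 : ℕ) = N at h2 ⊢
  push_cast
  linarith only [h2]

theorem tau_ok (X B : ℕ) (m : ℤ) : (tau X B m : ℝ) / 1000000 ≤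
    2 * ((bnp X B : ℝ) / 1000000) + 64297 / 100000 * ((X : ℝ) / 1000) +
      (m : ℝ) / 1000 * ((X : ℝ) / 1000) - (supU m : ℝ) / 1000000 := by
  unfold tau
  have h : 64297 * X / 100 * 100 ≤ 64297 * X := Nat.div_mul_le_self _ _
  have h2 : ((64297 * X / 100 : ℕ) : ℝ) * 100 ≤ 64297 * X := by exact_mod_cast h
  generalize (64297 * X / 100 : ℕ) = N at h2 ⊢
  push_cast
  linarith only [h2]

theorem CD.cert {d : CD} {S : Bool} (h : d.t S = true) :
    ∃ σ τ : ℝ, CertC ((d.a0 : ℝ) / 1000) ((d.a1 : ℝ) / 1000) ((d.B : ℝ) / 1000)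
      ((d.l0 : ℝ) / 1000) ((d.l1 : ℝ) / 1000) ((d.c0 : ℝ) / 1000) ((d.c1 : ℝ) / 1000)
      ((d.D : ℝ) / 1000) ((d.m0 : ℝ) / 1000) ((d.m1 : ℝ) / 1000) ((bnp d.a0 d.B : ℝ) / 1000000)
      ((bnp d.a1 d.B : ℝ) / 1000000) ((bnp d.c0 d.D : ℝ) / 1000000)
      ((bnp d.c1 d.D : ℝ) / 1000000) ((KU (d.a1 + d.c1) (d.B + d.D) : ℝ) / 1000000)
      (64297 / 100000) ((supU d.m0 : ℝ) / 1000000) ((supU d.m1 : ℝ) / 1000000) σ τ
      (shr S + 1 / 1000000) := by
  simp only [CD.t, Bool.and_eq_true, decide_eq_true_eq] at h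
  obtain ⟨⟨⟨⟨⟨⟨⟨h1, h2⟩, h3⟩, h4⟩, h5⟩, h6⟩, h7⟩, h8⟩ := h
  have b1 : (40 : ℝ) ≤ d.a0 := by exact_mod_cast h1
  have b2 : (d.a0 : ℝ) < d.a1 := by exact_mod_cast h2
  have b3 : (d.a1 : ℝ) ≤ 500 := by exact_mod_cast h3
  have b4 : (40 : ℝ) ≤ d.c0 := by exact_mod_cast h4
  have b5 : (d.c0 : ℝ) < d.c1 := by exact_mod_cast h5
  have b6 : (d.c1 : ℝ) ≤ 500 := by exact_mod_cast h6
  set s := min (min (sgm d.a0 d.B d.l0) (sgm d.a0 d.B d.l1))
    (min (sgm d.a1 d.B d.l0) (sgm d.a1 d.B d.l1)) with hs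
  set t := min (min (tau d.c0 d.D d.m0) (tau d.c0 d.D d.m1))
    (min (tau d.c1 d.D d.m0) (tau d.c1 d.D d.m1)) with ht
  have s1 : s ≤ sgm d.a0 d.B d.l0 := (min_le_left _ _).trans (min_le_left _ _)
  have s2 : s ≤ sgm d.a0 d.B d.l1 := (min_le_left _ _).trans (min_le_right _ _)
  have s3 : s ≤ sgm d.a1 d.B d.l0 := (min_le_right _ _).trans (min_le_left _ _)
  have s4 : s ≤ sgm d.a1 d.B d.l1 := (min_le_right _ _).trans (min_le_right _ _)
  have t1 : t ≤ tau d.c0 d.D d.m0 := (min_le_left _ _).trans (min_le_left _ _)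
  have t2 : t ≤ tau d.c0 d.D d.m1 := (min_le_left _ _).trans (min_le_right _ _)
  have t3 : t ≤ tau d.c1 d.D d.m0 := (min_le_right _ _).trans (min_le_left _ _)
  have t4 : t ≤ tau d.c1 d.D d.m1 := (min_le_right _ _).trans (min_le_right _ _)
  clear_value s t
  have s1' : (s : ℝ) ≤ sgm d.a0 d.B d.l0 := by exact_mod_cast s1
  have s2' : (s : ℝ) ≤ sgm d.a0 d.B d.l1 := by exact_mod_cast s2
  have s3' : (s : ℝ) ≤ sgm d.a1 d.B d.l0 := by exact_mod_cast s3
  have s4' : (s : ℝ) ≤ sgm d.a1 d.B d.l1 := by exact_mod_cast s4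
  have t1' : (t : ℝ) ≤ tau d.c0 d.D d.m0 := by exact_mod_cast t1
  have t2' : (t : ℝ) ≤ tau d.c0 d.D d.m1 := by exact_mod_cast t2
  have t3' : (t : ℝ) ≤ tau d.c1 d.D d.m0 := by exact_mod_cast t3
  have t4' : (t : ℝ) ≤ tau d.c1 d.D d.m1 := by exact_mod_cast t4
  have h8' : (KU (d.a1 + d.c1) (d.B + d.D) : ℝ) + 21000 + sh S + 1 ≤ s + t := by
    exact_mod_cast h8
  have hsh := sh_ok S
  have e1 := sgm_ok d.a0 d.B d.l0
  have e2 := sgm_ok d.a0 d.B d.l1
  have e3 := sgm_ok d.a1 d.B d.l0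
  have e4 := sgm_ok d.a1 d.B d.l1
  have f1 := tau_ok d.c0 d.D d.m0
  have f2 := tau_ok d.c0 d.D d.m1
  have f3 := tau_ok d.c1 d.D d.m0
  have f4 := tau_ok d.c1 d.D d.m1
  refine ⟨(s : ℝ) / 1000000, (t : ℝ) / 1000000, ?_⟩
  constructor
  · linarith only [b1]
  · linarith only [b3]
  · linarith only [b2]
  · linarith only [b4]
  · linarith only [b6]
  · linarith only [b5]
  · exact bnp_ok h1 (by omega) _
  · exact bnp_ok (by omega) h3 _
  · exact bnp_ok h4 (by omega) _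
  · exact bnp_ok (by omega) h6 _
  · intro z g0 g1 g2
    refine KU_ok h7 g0 ?_ ?_
    · push_cast
      linarith only [g1]
    · push_cast
      linarith only [g2]
  · intro q g0 g1
    exact supU_ok g0 g1
  · intro q g0 g1
    exact supU_ok g0 g1
  · linarith only [e1, s1']
  · linarith only [e2, s2']
  · linarith only [e3, s3']
  · linarith only [e4, s4']
  · linarith only [f1, t1']
  · linarith only [f2, t2']
  · linarith only [f3, t3']
  · linarith only [f4, t4']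
  · linarith only [hsh, h8']

/-- **A low edge in the first slot of a closed inner node.** -/
theorem CD.t_ok {d : CD} {S : Bool} (h : d.t S = true) {as bs : ℂ}
    (hd : d.In as bs (lcl as bs).re (lcl bs as).re) :
    ∀ a b : ℝ, -(1 / 2) ≤ a → a ≤ -(1 / 4) → 0 ≤ a + b → b ≤ 1 / 2 →
      Ecl as bs a b + (lcl as bs).re * (a - 3 / 10) < -shr S := by
  intro a b h0 h1 h2 h3
  obtain ⟨σ, τ, hc⟩ := CD.cert h
  have e1 : (1 / 2 - as).re = 1 / 2 - as.re := by simp
  have e2 : (1 / 2 - as).im = -as.im := by simp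
  have e3 : (1 / 2 - bs).re = 1 / 2 - bs.re := by simp
  have e4 : (1 / 2 - bs).im = -bs.im := by simp
  have ha := hd.a
  have hb := hd.c
  unfold InX at ha hb
  rw [e1, e2, abs_neg] at ha
  rw [e3, e4, abs_neg] at hb
  have k := Ecl_low hc (as := as) (bs := bs) ⟨ha.1, ha.2.1, ha.2.2, hd.l0, hd.l1⟩
    ⟨hb.1, hb.2.1, hb.2.2, hd.m0, hd.m1⟩ h0 h1 h2 h3
  linarith only [k]

/-- The two tests of a closed inner node. -/
def CD.tst (d : CD) (sa sb : Bool) : Bool := d.t sb && d.sw.t sa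

/-- **Low edges at closed inner nodes.** -/
theorem low_cl {d : CD} {n : Nt} {sa sb : Slt} (ht : d.tst sa.S sb.S = true)
    (hla : sa.lam = lcl sa.ys sb.ys) (hlb : sb.lam = lcl sb.ys sa.ys) (ha : sa.ex = true)
    (hb : sb.ex = true) (hd : d.In sa.ys sb.ys sa.lam.re sb.lam.re) :
    (∀ (a b : ℂ) (wa wb : ℝ) (pb : Pc), sa.ex = true → (sb.ex = true → pb.frcT) →
      sa.In .lo a wa → sb.In pb b wb → 0 ≤ (a + b).re →
      Ecl sa.ys sb.ys a b + sa.e n .lo a wa + sb.e n pb b wb < 0) ∧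
    (∀ (a b : ℂ) (wa wb : ℝ) (pa : Pc), sb.ex = true → (sa.ex = true → pa.frcT) →
      sa.In pa a wa → sb.In .lo b wb → 0 ≤ (a + b).re →
      Ecl sa.ys sb.ys a b + sa.e n pa a wa + sb.e n .lo b wb < 0) := by
  simp only [CD.tst, Bool.and_eq_true] at ht
  rw [hla, hlb] at hd
  exact ⟨VCl_Ta hla hb (CD.t_ok ht.1 hd), VCl_Tb hlb ha (CD.t_ok ht.2 hd.sw)⟩

end Pool.Agent.S5
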