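import Pool.Agent.S5.I.YXS
import Pool.Agent.S5.I.FrmB

/-!
# Rectangles for the critical points of the edges: the theorem
-/

set_option autoImplicit false

namespace Pool.Agent.S5.YX

open Pool.Agent.S3.NI

/-- The critical point and the slope are in the rectangle. -/
structure InY (Y : YR) (y l : ℂ) : Prop where
  x0 : (Y.x0 : ℝ) / 1000 ≤ y.re
  x1 : y.re ≤ (Y.x1 : ℝ) / 1000
  e0 : (Y.e0 : ℝ) / 1000 ≤ y.im
  e1 : y.im ≤ (Y.e1 : ℝ) / 1000
  l0 : (Y.l0 : ℝ) / 1000 ≤ l.re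
  l1 : l.re ≤ (Y.l1 : ℝ) / 1000
  m0 : (Y.m0 : ℝ) / 1000 ≤ l.im
  m1 : l.im ≤ (Y.m1 : ℝ) / 1000

theorem EN_lo (n : ℕ) : 1073741824 ≤ (EN n).lo := by
  have h : 1073741824 ≤ Nat.div (Nat.mul (Nat.pow 1113415677134 n) 1073741824) (Nat.pow 2 (Nat.mul 40 n)) := by
    refine (Nat.le_div_iff_mul_le (show 0 < 2 ^ (40 * n) by positivity)).2 ?_
    show 1073741824 * 2 ^ (40 * n) ≤ 1113415677134 ^ n * 1073741824
    rw [pow_mul, mul_comm]
    exact Nat.mul_le_mul_right _ (Nat.pow_le_pow_left (by norm_num) n)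
  exact h

theorem EN_hi (n : ℕ) : 1073741824 ≤ (EN n).hi := by
  have h := (mem_EN n).2
  have h1 : (1 : ℝ) ≤ Real.exp (4 * Real.pi * (n / 1000)) :=
    Real.one_le_exp (by have := Real.pi_pos; positivity)
  have h2 : ((1073741824 : ℕ) : ℝ) ≤ ((EN n).hi : ℝ) := by
    rw [cU]
    nlinarith
  exact Nat.cast_le.1 h2

theorem DN_lo {n : ℕ} (hn : n ≤ 500) : (DN n).lo ≤ 2147483648 := by
  have h := (mem_DN hn).1
  have h1 := Real.cos_le_one (2 * Real.pi * (n / 1000))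
  have h2 : ((DN n).lo : ℝ) ≤ ((2147483648 : ℕ) : ℝ) := by
    rw [c2U]
    nlinarith
  exact Nat.cast_le.1 h2

theorem exp_le_of {e h : ℝ} (k : Real.sinh h * (e + 1) ≤ (e - 1) * Real.cosh h) :
    Real.exp (2 * h) ≤ e := by
  rw [Real.sinh_eq, Real.cosh_eq] at k
  have h0 := Real.exp_pos (-h)
  have h1 : Real.exp h ≤ e * Real.exp (-h) := by linarith
  have h2 : Real.exp (2 * h) * Real.exp (-h) = Real.exp h := by
    rw [← Real.exp_add]
    congr 1
    ring
  rw [← h2] at h1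
  exact le_of_mul_le_mul_right h1 h0

theorem le_exp_of {e h : ℝ} (k : (e - 1) * Real.cosh h ≤ Real.sinh h * (e + 1)) :
    e ≤ Real.exp (2 * h) := by
  rw [Real.sinh_eq, Real.cosh_eq] at k
  have h0 := Real.exp_pos (-h)
  have h1 : e * Real.exp (-h) ≤ Real.exp h := by linarith
  have h2 : Real.exp (2 * h) * Real.exp (-h) = Real.exp h := by
    rw [← Real.exp_add]
    congr 1
    ring
  rw [← h2] at h1
  exact le_of_mul_le_mul_right h1 h0

/-- The number of the critical point: `s`. -/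
structure Sdat (s y : ℂ) : Prop where
  y0 : 0 < y.re
  y1 : y.re < 1 / 2
  ht : Complex.tan (Real.pi * y) ^ 2 = s - 1

theorem re_le_of_Q0 {s y : ℂ} (h : Sdat s y) {n : ℕ} (hn : n ≤ 500)
    (hQ : Q0 (DN n).hi s.re s.im ‖s - 1‖ (‖s‖ ^ 2)) : y.re ≤ (n : ℝ) / 1000 := by
  obtain ⟨k1, k2, _, _⟩ := tan_parts h.y0 h.y1 h.ht
  unfold Q0 at hQ
  rw [Real.sqrt_sq k1.le] at hQ
  have hU : (0 : ℝ) < 1073741824 := by norm_num
  have h1 : ((DN n).hi : ℝ) / 1073741824 - 1 ≤ Real.cos (2 * Real.pi * y.re) := by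
    have : (((DN n).hi : ℝ) / 1073741824 - 1) * ‖s‖ ≤ Real.cos (2 * Real.pi * y.re) * ‖s‖ := by
      rw [k2]
      linarith
    exact le_of_mul_le_mul_right this k1
  have h2 := (mem_DN hn).2
  rw [← le_div_iff₀ hU] at h2
  by_contra hc
  push Not at hc
  have hpi := Real.pi_pos
  have h3 := Real.cos_lt_cos_of_nonneg_of_le_pi (x := 2 * Real.pi * (n / 1000))
    (y := 2 * Real.pi * y.re) (by positivity) (by nlinarith [h.y1]) (by nlinarith)
  linarith

theorem le_re_of_Q1 {s y : ℂ} (h : Sdat s y) {n : ℕ} (hn : n ≤ 500)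
    (hQ : Q1 (DN n).lo s.re s.im ‖s - 1‖ (‖s‖ ^ 2)) : (n : ℝ) / 1000 ≤ y.re := by
  obtain ⟨k1, k2, _, _⟩ := tan_parts h.y0 h.y1 h.ht
  unfold Q1 at hQ
  rw [Real.sqrt_sq k1.le] at hQ
  have hU : (0 : ℝ) < 1073741824 := by norm_num
  have h1 : Real.cos (2 * Real.pi * y.re) ≤ ((DN n).lo : ℝ) / 1073741824 - 1 := by
    have : Real.cos (2 * Real.pi * y.re) * ‖s‖ ≤ (((DN n).lo : ℝ) / 1073741824 - 1) * ‖s‖ := by
      rw [k2]
      linarith
    exact le_of_mul_le_mul_right this k1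
  have h2 := (mem_DN hn).1
  rw [← div_le_iff₀ hU] at h2
  by_contra hc
  push Not at hc
  have hpi := Real.pi_pos
  have hy := h.y0
  have hn1 : (n : ℝ) ≤ 500 := by exact_mod_cast hn
  have h3 := Real.cos_lt_cos_of_nonneg_of_le_pi (x := 2 * Real.pi * y.re)
    (y := 2 * Real.pi * (n / 1000)) (by positivity) (by nlinarith) (by nlinarith)
  linarith

theorem im_le_of_Q2 {s y : ℂ} (h : Sdat s y) {n : ℕ}
    (hQ : Q2 (EN n).lo s.re s.im ‖s - 1‖ (‖s‖ ^ 2)) : y.im ≤ (n : ℝ) / 1000 := by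
  obtain ⟨k1, _, k3, k4⟩ := tan_parts h.y0 h.y1 h.ht
  unfold Q2 at hQ
  have hU : (0 : ℝ) < 1073741824 := by norm_num
  have hch := Real.cosh_pos (2 * Real.pi * y.im)
  set W := Real.sqrt ((‖s - 1‖ + s.re - 1) / 2) * (1 + ‖s - 1‖) with hW
  set e := ((EN n).lo : ℝ) / 1073741824 with he
  have h1 : (Real.sinh (2 * Real.pi * y.im) * (e + 1)) * W ≤
      ((e - 1) * Real.cosh (2 * Real.pi * y.im)) * W := by
    calc (Real.sinh (2 * Real.pi * y.im) * (e + 1)) * W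
        = (W * Real.sinh (2 * Real.pi * y.im)) * (e + 1) := by ring
      _ = (s.im * (e + 1)) * Real.cosh (2 * Real.pi * y.im) := by rw [← k4]; ring
      _ ≤ ((e - 1) * Real.sqrt ((‖s - 1‖ + s.re - 1) / 2) * (1 + ‖s - 1‖)) *
          Real.cosh (2 * Real.pi * y.im) := mul_le_mul_of_nonneg_right hQ hch.le
      _ = ((e - 1) * Real.cosh (2 * Real.pi * y.im)) * W := by rw [hW]; ring
  have h2 := exp_le_of (le_of_mul_le_mul_right h1 k3)
  have h3 := (mem_EN n).1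
  rw [← div_le_iff₀ hU] at h3
  have h4 := Real.exp_le_exp.1 (h2.trans h3)
  have hpi := Real.pi_pos
  by_contra hc
  push Not at hc
  nlinarith

theorem le_im_of_Q4 {s y : ℂ} (h : Sdat s y) {n : ℕ}
    (hQ : Q4 (EN n).hi s.re s.im ‖s - 1‖ (‖s‖ ^ 2)) : (n : ℝ) / 1000 ≤ y.im := by
  obtain ⟨k1, _, k3, k4⟩ := tan_parts h.y0 h.y1 h.ht
  obtain ⟨_, hQ⟩ := hQ
  have hU : (0 : ℝ) < 1073741824 := by norm_num
  have hch := Real.cosh_pos (2 * Real.pi * y.im)
  set W := Real.sqrt ((‖s - 1‖ + s.re - 1) / 2) * (1 + ‖s - 1‖) with hW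
  set e := ((EN n).hi : ℝ) / 1073741824 with he
  have h1 : ((e - 1) * Real.cosh (2 * Real.pi * y.im)) * W ≤
      (Real.sinh (2 * Real.pi * y.im) * (e + 1)) * W := by
    calc ((e - 1) * Real.cosh (2 * Real.pi * y.im)) * W =
          ((e - 1) * Real.sqrt ((‖s - 1‖ + s.re - 1) / 2) * (1 + ‖s - 1‖)) *
          Real.cosh (2 * Real.pi * y.im) := by rw [hW]; ring
      _ ≤ (s.im * (e + 1)) * Real.cosh (2 * Real.pi * y.im) := mul_le_mul_of_nonneg_right hQ hch.le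
      _ = (W * Real.sinh (2 * Real.pi * y.im)) * (e + 1) := by rw [← k4]; ring
      _ = (Real.sinh (2 * Real.pi * y.im) * (e + 1)) * W := by ring
  have h2 := le_exp_of (le_of_mul_le_mul_right h1 k3)
  have h3 := (mem_EN n).2
  rw [← le_div_iff₀ hU] at h3
  have h4 := Real.exp_le_exp.1 (h3.trans h2)
  have hpi := Real.pi_pos
  by_contra hc
  push Not at hc
  nlinarith

open ComplexConjugate in
/-- The conjugate. -/
theorem Sdat.conj {s y : ℂ} (h : Sdat s y) : Sdat (conj s) (conj y) := by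
  refine ⟨by simpa using h.y0, by simpa using h.y1, ?_⟩
  rw [show ((Real.pi : ℝ) : ℂ) * conj y = conj (Real.pi * y) by simp, Complex.tan_conj, ← map_pow, h.ht]
  simp

theorem Cl_main {S : Bool} {Q : ℝ → ℝ → ℝ → ℝ → Prop} {X t Z u : ℝ} (h : Cl S Q X t Z u) {s : ℂ}
    (h1 : s.re = X * rc t + Z * rc u) (h2 : s.im = X * rs t + sgb S * (Z * rs u))
    (t0 : 0 ≤ t ∧ t ≤ 1) (u0 : 0 ≤ u ∧ u ≤ 1) : Q s.re s.im ‖s - 1‖ (‖s‖ ^ 2) := by
  have k := h t0.1 t0.2 u0.1 u0.2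
  rw [← h1, ← h2] at k
  have e1 : ‖s - 1‖ = Real.sqrt ((s.re - 1) ^ 2 + s.im ^ 2) := by
    rw [norm_eq_sqrt]
    simp
  have e2 : ‖s‖ ^ 2 = s.re ^ 2 + s.im ^ 2 := by
    rw [Complex.sq_norm, Complex.normSq_apply]
    ring
  rw [e1, e2]
  exact k

theorem cast_pow2 (n : ℕ) : ((Nat.pow 2 (Nat.mul 40 n) : ℕ) : ℝ) = (1099511627776 : ℝ) ^ n := by
  show ((2 ^ (40 * n) : ℕ) : ℝ) = _
  push_cast
  rw [pow_mul]
  norm_num

theorem cast_powa (a n : ℕ) : ((Nat.pow a n : ℕ) : ℝ) = (a : ℝ) ^ n := by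
  show ((a ^ n : ℕ) : ℝ) = _
  push_cast
  rfl

theorem exp_nat_lo (n : ℕ) : (1100611689342 : ℝ) ^ n ≤
    Real.exp ((n : ℝ) / 1000) * (1099511627776 : ℝ) ^ n := by
  have h1 := pow_le_pow_left₀ (by norm_num) exp1_lo n
  have e : Real.exp ((n : ℝ) / 1000) = Real.exp (1 / 1000) ^ n := by
    rw [← exp_nat]
    congr 1
    ring
  rw [e, div_pow, div_le_iff₀ (by positivity)] at *
  exact h1

theorem exp_nat_hi (n : ℕ) : Real.exp ((n : ℝ) / 1000) * (1099511627776 : ℝ) ^ n ≤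
    (1100611689343 : ℝ) ^ n := by
  have h1 := pow_le_pow_left₀ (Real.exp_pos _).le exp1_hi n
  have e : Real.exp ((n : ℝ) / 1000) = Real.exp (1 / 1000) ^ n := by
    rw [← exp_nat]
    congr 1
    ring
  rw [e, div_pow, le_div_iff₀ (by positivity)] at *
  exact h1

theorem La {p q A B E : ℝ} (k : p * p * B ≤ q * q * A) (k1 : A ≤ E * B) (hB : 0 < B) :
    p ^ 2 ≤ E * q ^ 2 := by
  have h1 : p ^ 2 * B ≤ (E * q ^ 2) * B := by
    have := mul_le_mul_of_nonneg_left k1 (sq_nonneg q)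
    linarith
  exact le_of_mul_le_mul_right h1 hB

theorem Lb {p q A B E : ℝ} (k : p * p * A ≤ q * q * B) (k1 : E * B ≤ A) (hB : 0 < B) :
    p ^ 2 * E ≤ q ^ 2 := by
  have h1 : (p ^ 2 * E) * B ≤ q ^ 2 * B := by
    have := mul_le_mul_of_nonneg_left k1 (sq_nonneg p)
    linarith
  exact le_of_mul_le_mul_right h1 hB

theorem neg_cast (n : ℕ) : Real.exp (((Int.negSucc n : ℤ) : ℝ) / 1000) =
    (Real.exp (((n + 1 : ℕ) : ℝ) / 1000))⁻¹ := by
  rw [← Real.exp_neg]
  congr 1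
  rw [Int.cast_negSucc]
  ring

theorem ckL1_sound {p q : ℕ} {l : ℤ} (h : ckL1 p q l = true) :
    (p : ℝ) ^ 2 ≤ Real.exp ((l : ℝ) / 1000) * (q : ℝ) ^ 2 := by
  cases l with
  | ofNat n =>
    have k := ble_cast h
    rw [cast_mul', cast_mul', cast_mul', cast_mul', cast_pow2, cast_powa, Nat.cast_ofNat] at k
    have := La k (exp_nat_lo n) (by positivity)
    simpa using this
  | negSucc n =>
    have k := ble_cast h
    rw [cast_mul', cast_mul', cast_mul', cast_mul', cast_pow2, cast_powa, Nat.cast_ofNat] at k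
    have hE := Real.exp_pos (((n + 1 : ℕ) : ℝ) / 1000)
    rw [neg_cast, inv_mul_eq_div, le_div_iff₀ hE]
    exact Lb k (exp_nat_hi (n + 1)) (by positivity)

theorem ckL0_sound {p q : ℕ} {l : ℤ} (h : ckL0 p q l = true) :
    Real.exp ((l : ℝ) / 1000) * (q : ℝ) ^ 2 ≤ (p : ℝ) ^ 2 := by
  cases l with
  | ofNat n =>
    have k := ble_cast h
    rw [cast_mul', cast_mul', cast_mul', cast_mul', cast_pow2, cast_powa, Nat.cast_ofNat] at k
    have := Lb k (exp_nat_hi n) (by positivity)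
    rw [mul_comm]
    simpa using this
  | negSucc n =>
    have k := ble_cast h
    rw [cast_mul', cast_mul', cast_mul', cast_mul', cast_pow2, cast_powa, Nat.cast_ofNat] at k
    have hE := Real.exp_pos (((n + 1 : ℕ) : ℝ) / 1000)
    rw [neg_cast, inv_mul_eq_div, div_le_iff₀ hE, mul_comm]
    exact La k (exp_nat_lo (n + 1)) (by positivity)

theorem leI_sound {a b : ℕ} {l : ℤ} (h : leI a b l = true) :
    (a : ℝ) - b ≤ (l : ℝ) * 1073741824 := by
  cases l with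
  | ofNat n =>
    have k := ble_cast h
    rw [cast_add', cast_mul', cU] at k
    simp only [Int.ofNat_eq_natCast, Int.cast_natCast]
    linarith
  | negSucc n =>
    have k := ble_cast h
    rw [cast_add', cast_mul', cU] at k
    rw [Int.cast_negSucc]
    linarith

theorem geI_sound {a b : ℕ} {l : ℤ} (h : geI a b l = true) :
    (l : ℝ) * 1073741824 ≤ (a : ℝ) - b := by
  cases l with
  | ofNat n =>
    have k := ble_cast h
    rw [cast_add', cast_mul', cU] at k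
    simp only [Int.ofNat_eq_natCast, Int.cast_natCast]
    linarith
  | negSucc n =>
    have k := ble_cast h
    rw [cast_add', cast_mul', cU] at k
    rw [Int.cast_negSucc]
    linarith

/-- The angle of an end. -/
theorem ang_bd {r : E.B2.Rg} {κ : ℂ} (h : E.B2.InR r κ.re (-κ.im)) (h0 : 1 ≤ r.k0) :
    ((AT (cst r.t0 1000)).lo : ℝ) ≤ Real.arctan (-κ.im / κ.re) * 1073741824 ∧
      Real.arctan (-κ.im / κ.re) * 1073741824 ≤ ((AT (cst r.t1 1000)).hi : ℝ) := by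
  have hk := re_pos h h0
  have hU : (0 : ℝ) < 1073741824 := by norm_num
  have c0 := mem_AT (x := (r.t0 : ℝ) / 1000) (by positivity)
    (by have := mem_cst (n := r.t0) (d := 1000) (by norm_num)
        push_cast at this
        exact this)
  have c1 := mem_AT (x := (r.t1 : ℝ) / 1000) (by positivity)
    (by have := mem_cst (n := r.t1) (d := 1000) (by norm_num)
        push_cast at this
        exact this)
  constructor
  · refine c0.1.trans (mul_le_mul_of_nonneg_right (Real.arctan_strictMono.monotone ?_) hU.le)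
    rw [le_div_iff₀ hk]
    exact h.a0
  · refine le_trans (mul_le_mul_of_nonneg_right (Real.arctan_strictMono.monotone ?_) hU.le) c1.2
    rw [div_le_iff₀ hk]
    exact h.a1

theorem arg_eq {κ : ℂ} (h : 0 < κ.re) : κ.arg = -Real.arctan (-κ.im / κ.re) := by
  rw [Complex.arg_of_re_nonneg h.le, Real.arctan_eq_arcsin, ← Real.arcsin_neg]
  congr 1
  have hn : ‖κ‖ = κ.re * Real.sqrt (1 + (-κ.im / κ.re) ^ 2) := by
    have e : 1 + (-κ.im / κ.re) ^ 2 = (κ.re ^ 2 + κ.im ^ 2) / κ.re ^ 2 := by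
      field_simp
    rw [norm_eq_sqrt, e, Real.sqrt_div' _ (by positivity), Real.sqrt_sq h.le]
    field_simp
  rw [hn]
  have : 0 < Real.sqrt (1 + (-κ.im / κ.re) ^ 2) := by positivity
  field_simp

theorem ckM_sound {S : Bool} {r q : E.B2.Rg} {m0 m1 : ℤ} (h : ckM S r q m0 m1 = true) {κ c : ℂ}
    (hκ : E.B2.InR r κ.re (-κ.im)) (hc : E.B2.InR q c.re (-c.im)) (r0 : 1 ≤ r.k0)
    (q0 : 1 ≤ q.k0) : (m0 : ℝ) / 1000 ≤ 2 * ((G.kp S c).arg - κ.arg) ∧
      2 * ((G.kp S c).arg - κ.arg) ≤ (m1 : ℝ) / 1000 := by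
  have hκ0 := re_pos hκ r0
  have hc0 := re_pos hc q0
  obtain ⟨a1, a2⟩ := ang_bd hκ r0
  obtain ⟨b1, b2⟩ := ang_bd hc q0
  have eκ := arg_eq hκ0
  have ec := arg_eq hc0
  unfold ckM ckM' at h
  cases S
  · have e : (G.kp false c).arg = -c.arg := by
      show ((starRingEnd ℂ) c).arg = _
      rw [Complex.arg_conj, if_neg]
      intro hp
      have := Real.arctan_lt_pi_div_two (-c.im / c.re)
      have h2 := Real.neg_pi_div_two_lt_arctan (-c.im / c.re)
      have := Real.pi_pos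
      linarith
    simp only [Bool.cond_false, Bool.and_eq_true] at h
    have h1 := leI_sound h.1
    have h2 := geI_sound h.2
    rw [cast_mul', cast_add', Nat.cast_zero, sub_zero, Nat.cast_ofNat] at h1 h2
    rw [e, ec, eκ]
    constructor <;> linarith
  · have e : (G.kp true c).arg = c.arg := rfl
    simp only [Bool.cond_true, Bool.and_eq_true] at h
    have h1 := leI_sound h.1
    have h2 := geI_sound h.2
    rw [cast_mul', cast_mul', Nat.cast_ofNat] at h1 h2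
    rw [e, ec, eκ]
    constructor <;> linarith

theorem norm_kp (S : Bool) (c : ℂ) : ‖G.kp S c‖ = ‖c‖ := by
  cases S
  · show ‖(starRingEnd ℂ) c‖ = _
    exact Complex.norm_conj c
  · rfl

theorem norm_bd {r : E.B2.Rg} {κ : ℂ} (h : E.B2.InR r κ.re (-κ.im)) (h0 : 1 ≤ r.k0) :
    0 < ‖κ‖ ∧ ((r.k0 : ℝ) / 1000) ^ 2 ≤ ‖κ‖ ^ 2 ∧ ‖κ‖ ^ 2 ≤ ((r.k1 : ℝ) / 1000) ^ 2 := by
  have hk := re_pos h h0
  have e : ‖κ‖ ^ 2 = κ.re ^ 2 + (-κ.im) ^ 2 := by
    rw [Complex.sq_norm, Complex.normSq_apply]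
    ring
  refine ⟨norm_pos_iff.2 (fun hh => by rw [hh] at hk; simp at hk), ?_, ?_⟩
  · rw [e]
    exact h.lo
  · rw [e]
    exact h.hi

theorem ckE0_sound {S : Bool} {r q : E.B2.Rg} {e : ℤ} {y : ℝ} (h : ckE0 S r q e = true)
    (imt : S = true → 0 ≤ y)
    (lo : ∀ n : ℕ, bbf (f4 (EN n).hi) S r q = true → (n : ℝ) / 1000 ≤ y)
    (up' : ∀ n : ℕ, S = false → bbf (f2 (EN n).lo) false q r = true → -y ≤ (n : ℝ) / 1000) :
    (e : ℝ) / 1000 ≤ y := by
  match e, h with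
  | Int.ofNat 0, hb =>
    rw [Int.ofNat_eq_natCast, Int.cast_natCast]
    cases hS : S
    · rw [ckE0, hS, cond_false] at hb
      have := up' 0 hS hb
      rw [Nat.cast_zero, zero_div] at this ⊢
      linarith
    · have := imt hS
      rw [Nat.cast_zero, zero_div]
      exact this
  | Int.ofNat (n + 1), hb =>
    rw [Int.ofNat_eq_natCast, Int.cast_natCast]
    rw [ckE0] at hb
    exact lo _ hb
  | Int.negSucc n, hb =>
    rw [Int.cast_negSucc, neg_div]
    cases hS : S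
    · rw [ckE0, hS, cond_false] at hb
      have := up' _ hS hb
      linarith
    · have := imt hS
      have : 0 ≤ ((n + 1 : ℕ) : ℝ) / 1000 := by positivity
      linarith

theorem ckE1_sound {S : Bool} {r q : E.B2.Rg} {e : ℤ} {y : ℝ} (h : ckE1 S r q e = true)
    (up : ∀ n : ℕ, bbf (f2 (EN n).lo) S r q = true → y ≤ (n : ℝ) / 1000)
    (lo' : ∀ n : ℕ, S = false → bbf (f4 (EN n).hi) false q r = true → (n : ℝ) / 1000 ≤ -y) :
    y ≤ (e : ℝ) / 1000 := by
  match e, h with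
  | Int.ofNat n, hb =>
    rw [Int.ofNat_eq_natCast, Int.cast_natCast]
    rw [ckE1] at hb
    exact up _ hb
  | Int.negSucc n, hb =>
    rw [Int.cast_negSucc, neg_div]
    cases hS : S
    · rw [ckE1, hS, cond_false] at hb
      have := lo' _ hS hb
      linarith
    · rw [ckE1, hS, cond_true] at hb
      exact absurd hb Bool.false_ne_true

/-- **The rectangle of the critical point and of the slope of an edge.** -/
theorem ybx_sound {S : Bool} {r q : E.B2.Rg} {Y : YR} (h : ybx S r q Y = true) {κ c y : ℂ}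
    (hκ : E.B2.InR r κ.re (-κ.im)) (hc : E.B2.InR q c.re (-c.im)) (y0 : 0 < y.re)
    (y1 : y.re < 1 / 2) (ht : Complex.tan (Real.pi * y) ^ 2 = 1 / κ ^ 2 + 1 / (G.kp S c) ^ 2 - 1) :
    InY Y y (2 * (Complex.log (G.kp S c) - Complex.log κ)) := by
  unfold ybx at h
  simp only [Bool.and_eq_true] at h
  obtain ⟨r0, q0, r1, q1, b0, b1, hl1, hl0, hm, hx1, hx0, he1, he0⟩ := h
  have r0 : 1 ≤ r.k0 := Nat.le_of_ble_eq_true r0
  have q0 : 1 ≤ q.k0 := Nat.le_of_ble_eq_true q0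
  have r1 : r.t1 ≤ 1000 := Nat.le_of_ble_eq_true r1
  have q1 : q.t1 ≤ 1000 := Nat.le_of_ble_eq_true q1
  have b0 : Y.x0 ≤ 500 := Nat.le_of_ble_eq_true b0
  have b1 : Y.x1 ≤ 500 := Nat.le_of_ble_eq_true b1
  have hκ0 := re_pos hκ r0
  have hc0 := re_pos hc q0
  have tt := tr01 hκ r0 r1
  have uu := tr01 hc q0 q1
  obtain ⟨nκ, lκ, uκ⟩ := norm_bd hκ r0
  obtain ⟨nc, lc, uc⟩ := norm_bd hc q0
  have hM := ckM_sound hm hκ hc r0 q0
  set X : ℝ := 1 / (κ.re ^ 2 + κ.im ^ 2)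
  set t : ℝ := -κ.im / κ.re
  set Z : ℝ := 1 / (c.re ^ 2 + c.im ^ 2)
  set u : ℝ := -c.im / c.re
  have hX : 0 ≤ X := by positivity
  have hZ : 0 ≤ Z := by positivity
  set s : ℂ := 1 / κ ^ 2 + 1 / (G.kp S c) ^ 2 with hs
  have hd : Sdat s y := ⟨y0, y1, ht⟩
  have sre : s.re = X * rc t + Z * rc u := by
    rw [hs, inv_sq_parts hκ0, kp_inv_sq S hc0]
    rfl
  have sim : s.im = X * rs t + sgb S * (Z * rs u) := by
    rw [hs, inv_sq_parts hκ0, kp_inv_sq S hc0]
    rfl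
  have rst : 0 ≤ rs t := by unfold rs; have := tt.1; positivity
  have rsu : 0 ≤ rs u := by unfold rs; have := uu.1; positivity
  -- the mirrored data
  have cre : (starRingEnd ℂ s).re = Z * rc u + X * rc t := by
    rw [Complex.conj_re, sre]
    ring
  have cim : S = false → (starRingEnd ℂ s).im = Z * rs u + sgb false * (X * rs t) := by
    intro hS
    rw [Complex.conj_im, sim, hS]
    show -(X * rs t + (if false = true then (1 : ℝ) else -1) * (Z * rs u)) =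
      Z * rs u + (if false = true then (1 : ℝ) else -1) * (X * rs t)
    rw [if_neg (by decide)]
    ring
  have imt : S = true → 0 ≤ y.im := by
    intro hS
    have h1 : 0 ≤ s.im := by
      rw [sim, hS]
      show 0 ≤ X * rs t + (if true = true then (1 : ℝ) else -1) * (Z * rs u)
      rw [if_pos rfl, one_mul]
      positivity
    obtain ⟨_, _, k3, k4⟩ := tan_parts hd.y0 hd.y1 hd.ht
    have hch := Real.cosh_pos (2 * Real.pi * y.im)
    have h2 : 0 ≤ Real.sinh (2 * Real.pi * y.im) := by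
      by_contra hcc
      push Not at hcc
      nlinarith [mul_nonneg h1 hch.le, mul_neg_of_pos_of_neg k3 hcc]
    have h3 := Real.sinh_nonneg_iff.1 h2
    have hpi := Real.pi_pos
    by_contra hcc
    push Not at hcc
    nlinarith
  have up : ∀ {n : ℕ}, bbf (f2 (EN n).lo) S r q = true → y.im ≤ (n : ℝ) / 1000 :=
    fun {n} hb => im_le_of_Q2 hd (Cl_main (bbf_sound (f2_snd (EN_lo n)) hb hκ hc r0 q0 r1 q1)
      sre sim tt uu)
  have lo : ∀ {n : ℕ}, bbf (f4 (EN n).hi) S r q = true → (n : ℝ) / 1000 ≤ y.im :=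
    fun {n} hb => le_im_of_Q4 hd (Cl_main (bbf_sound (f4_snd (EN_hi n)) hb hκ hc r0 q0 r1 q1)
      sre sim tt uu)
  have up' : ∀ {n : ℕ}, S = false → bbf (f2 (EN n).lo) false q r = true → -y.im ≤ (n : ℝ) / 1000 :=
    fun {n} hS hb => im_le_of_Q2 hd.conj (Cl_main (bbf_sound (f2_snd (EN_lo n)) hb hc hκ q0 r0 q1 r1)
      cre (cim hS) uu tt)
  have lo' : ∀ {n : ℕ}, S = false → bbf (f4 (EN n).hi) false q r = true → (n : ℝ) / 1000 ≤ -y.im :=
    fun {n} hS hb => le_im_of_Q4 hd.conj (Cl_main (bbf_sound (f4_snd (EN_hi n)) hb hc hκ q0 r0 q1 r1)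
      cre (cim hS) uu tt)
  have lre : (2 * (Complex.log (G.kp S c) - Complex.log κ)).re = Real.log (‖c‖ ^ 2) - Real.log (‖κ‖ ^ 2) := by
    rw [Real.log_pow, Real.log_pow]
    simp only [Complex.mul_re, Complex.sub_re, Complex.log_re, norm_kp, Complex.re_ofNat,
      Complex.im_ofNat, zero_mul, sub_zero]
    push_cast
    ring
  have lim : (2 * (Complex.log (G.kp S c) - Complex.log κ)).im = 2 * ((G.kp S c).arg - κ.arg) := by
    simp only [Complex.mul_im, Complex.sub_im, Complex.log_im, Complex.re_ofNat,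
      Complex.im_ofNat, zero_mul, add_zero]
  refine ⟨?_, ?_, ?_, ?_, ?_, ?_, ?_, ?_⟩
  · exact le_re_of_Q1 hd b0 (Cl_main (bbf_sound (f1_snd (DN_lo b0)) hx0 hκ hc r0 q0 r1 q1)
      sre sim tt uu)
  · exact re_le_of_Q0 hd b1 (Cl_main (bbf_sound (f0_snd _) hx1 hκ hc r0 q0 r1 q1) sre sim tt uu)
  · exact ckE0_sound he0 imt (fun n => lo) (fun n => up')
  · exact ckE1_sound he1 (fun n => up) (fun n => lo')
  · rw [lre]
    have k := ckL0_sound hl0
    have q0' : (0 : ℝ) < (q.k0 : ℝ) := by exact_mod_cast q0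
    have h1 : Real.exp ((Y.l0 : ℝ) / 1000) * ‖κ‖ ^ 2 ≤ ‖c‖ ^ 2 := by
      have hE := Real.exp_pos ((Y.l0 : ℝ) / 1000)
      have := mul_le_mul_of_nonneg_left uκ hE.le
      have e1 : Real.exp ((Y.l0 : ℝ) / 1000) * ((r.k1 : ℝ) / 1000) ^ 2 ≤ ((q.k0 : ℝ) / 1000) ^ 2 := by
        rw [div_pow, div_pow, ← mul_div_assoc]
        exact div_le_div_of_nonneg_right k (by norm_num)
      linarith
    have h2 := Real.log_le_log (by positivity) h1
    rw [Real.log_mul (Real.exp_pos _).ne' (by positivity), Real.log_exp] at h2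
    linarith
  · rw [lre]
    have k := ckL1_sound hl1
    have h1 : ‖c‖ ^ 2 ≤ Real.exp ((Y.l1 : ℝ) / 1000) * ‖κ‖ ^ 2 := by
      have hE := Real.exp_pos ((Y.l1 : ℝ) / 1000)
      have := mul_le_mul_of_nonneg_left lκ hE.le
      have e1 : ((q.k1 : ℝ) / 1000) ^ 2 ≤ Real.exp ((Y.l1 : ℝ) / 1000) * ((r.k0 : ℝ) / 1000) ^ 2 := by
        rw [div_pow, div_pow, ← mul_div_assoc]
        exact div_le_div_of_nonneg_right k (by norm_num)
      linarith
    have h2 := Real.log_le_log (by positivity) h1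
    rw [Real.log_mul (Real.exp_pos _).ne' (by positivity), Real.log_exp] at h2
    linarith
  · rw [lim]
    exact hM.1
  · rw [lim]
    exact hM.2

end Pool.Agent.S5.YX
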