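import Pool.Agent.S5.I.Sad
import Pool.Agent.S5.I.LowU
import Pool.Agent.S5.I.YXF
import Pool.Agent.S5.G.Sh

/-!
# Low edges at inner nodes with four half twists, from the data of the two slots
-/

set_option autoImplicit false

namespace Pool.Agent.S5

open Pool.Agent.H63.VC3 Pool.Agent.S3 Complex MeasureTheory Filter Topology Set

/-! ### The variable of the node -/

theorem four_exp {y z b : ℂ} (h : l4z y z b = 0) (g0 : 0 < (y - z).re) (g1 : (y - z).re < 1)
    (h0 : 0 < (z + b).re) (h1 : (z + b).re < 1) :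
    exp (2 * Real.pi * I * z) - exp (-(2 * Real.pi * I * z)) =
      exp (-(2 * Real.pi * I * b)) - exp (-(2 * Real.pi * I * y)) := by
  have e1 := G.exp_hh g0 g1
  have e2 := G.exp_hh h0 h1
  have e3 : hh (y - z) = Real.pi * I * (y + 2 * z - b) + hh (z + b) := by
    unfold l4z at h
    linear_combination h
  rw [e3, exp_add, e2] at e1
  have s1 : ∀ w : ℂ, 2 * sin w = (exp (-(w * I)) - exp (w * I)) * I := by
    intro w
    have := two_sin w
    rw [neg_mul] at this
    exact this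
  rw [s1, s1] at e1
  have e4 : exp (Real.pi * I * (y + 2 * z - b)) * (exp (-(Real.pi * (z + b) * I)) -
      exp (Real.pi * (z + b) * I)) = exp (-(Real.pi * (y - z) * I)) - exp (Real.pi * (y - z) * I) := by
    have h5 := mul_right_cancel₀ I_ne_zero (show exp (Real.pi * I * (y + 2 * z - b)) *
      (exp (-(Real.pi * (z + b) * I)) - exp (Real.pi * (z + b) * I)) * I =
      (exp (-(Real.pi * (y - z) * I)) - exp (Real.pi * (y - z) * I)) * I by
        rw [mul_assoc]
        exact e1)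
    exact h5
  rw [mul_sub, ← exp_add, ← exp_add] at e4
  have a1 : -(Real.pi * I * (y + z)) + (Real.pi * I * (y + 2 * z - b) + -(Real.pi * (z + b) * I)) =
      -(2 * Real.pi * I * b) := by ring
  have a2 : -(Real.pi * I * (y + z)) + (Real.pi * I * (y + 2 * z - b) + Real.pi * (z + b) * I) =
      2 * Real.pi * I * z := by ring
  have a3 : -(Real.pi * I * (y + z)) + -(Real.pi * (y - z) * I) = -(2 * Real.pi * I * y) := by ring
  have a4 : -(Real.pi * I * (y + z)) + Real.pi * (y - z) * I = -(2 * Real.pi * I * z) := by ring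
  have e5 : exp (-(2 * Real.pi * I * b)) - exp (2 * Real.pi * I * z) =
      exp (-(Real.pi * I * (y + z))) * (exp (Real.pi * I * (y + 2 * z - b) +
        -(Real.pi * (z + b) * I)) - exp (Real.pi * I * (y + 2 * z - b) + Real.pi * (z + b) * I)) := by
    rw [mul_sub, ← exp_add, ← exp_add, a1, a2]
  have e6 : exp (-(2 * Real.pi * I * y)) - exp (-(2 * Real.pi * I * z)) =
      exp (-(Real.pi * I * (y + z))) * (exp (-(Real.pi * (y - z) * I)) -
        exp (Real.pi * (y - z) * I)) := by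
    rw [mul_sub, ← exp_add, ← exp_add, a3, a4]
  rw [e4, ← e6] at e5
  linear_combination -e5

theorem exp_pi_im (w : ℂ) : (exp (2 * Real.pi * I * w)).im =
    Real.exp (-(2 * Real.pi * w.im)) * Real.sin (2 * Real.pi * w.re) := by
  rw [exp_im]
  have e1 : (2 * Real.pi * I * w : ℂ).re = -(2 * Real.pi * w.im) := by simp
  have e2 : (2 * Real.pi * I * w : ℂ).im = 2 * Real.pi * w.re := by simp
  rw [e1, e2]

theorem exp_npi_im (w : ℂ) : (exp (-(2 * Real.pi * I * w))).im =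
    -(Real.exp (2 * Real.pi * w.im) * Real.sin (2 * Real.pi * w.re)) := by
  rw [exp_im]
  have e1 : (-(2 * Real.pi * I * w) : ℂ).re = 2 * Real.pi * w.im := by simp
  have e2 : (-(2 * Real.pi * I * w) : ℂ).im = -(2 * Real.pi * w.re) := by simp
  rw [e1, e2, Real.sin_neg]
  ring

theorem four_sin {y z b : ℂ} (h : l4z y z b = 0) (g0 : 0 < (y - z).re) (g1 : (y - z).re < 1)
    (h0 : 0 < (z + b).re) (h1 : (z + b).re < 1) :
    (Real.exp (-(2 * Real.pi * z.im)) + Real.exp (2 * Real.pi * z.im)) *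
      Real.sin (2 * Real.pi * z.re) = Real.exp (2 * Real.pi * y.im) * Real.sin (2 * Real.pi * y.re) -
        Real.exp (2 * Real.pi * b.im) * Real.sin (2 * Real.pi * b.re) := by
  have k := congrArg Complex.im (four_exp h g0 g1 h0 h1)
  rw [sub_im, sub_im, exp_pi_im, exp_npi_im, exp_npi_im, exp_npi_im] at k
  linarith

/-- The region of a slot. -/
structure HS (t e : ℝ) : Prop where
  t0 : 22 / 100 ≤ t
  t1 : t ≤ 356 / 1000
  e0 : -(110 / 1000) ≤ e
  e1 : e ≤ 112 / 1000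
  te : t ≤ 346 / 1000 ∨ 0 ≤ e

theorem sin_lo {t : ℝ} {c : ℝ} (h0 : 1 / 4 - c ≤ t) (h1 : t ≤ 1 / 4 + c) (hc : 0 ≤ c) :
    1 - 20 * c ^ 2 ≤ Real.sin (2 * Real.pi * t) := by
  have e : Real.sin (2 * Real.pi * t) = Real.cos (2 * Real.pi * (t - 1 / 4)) := by
    rw [show 2 * Real.pi * (t - 1 / 4) = 2 * Real.pi * t - Real.pi / 2 by ring,
      Real.cos_sub_pi_div_two]
  rw [e]
  have k := Real.one_sub_sq_div_two_le_cos (x := 2 * Real.pi * (t - 1 / 4))
  have h2 : (t - 1 / 4) ^ 2 ≤ c ^ 2 := sq_le_sq' (by linarith) (by linarith)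
  have h3 : Real.pi ^ 2 ≤ 10 := by
    have h4 := Real.pi_lt_d2
    have h5 := Real.pi_pos
    nlinarith
  have h6 : Real.pi ^ 2 * (t - 1 / 4) ^ 2 ≤ 10 * c ^ 2 :=
    mul_le_mul h3 h2 (sq_nonneg _) (by norm_num)
  nlinarith

theorem exp_112 {e : ℝ} (h : e ≤ 112 / 1000) : Real.exp (2 * Real.pi * e) ≤ 203 / 100 := by
  have h5 := Real.pi_lt_d4
  have h6 := Real.pi_pos
  have h1 : 2 * Real.pi * e ≤ 0.7038 := by
    have : Real.pi * e ≤ Real.pi * (112 / 1000) := mul_le_mul_of_nonneg_left h h6.le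
    nlinarith
  refine (Real.exp_le_exp.2 h1).trans ?_
  have := Real.exp_bound' (x := 0.7038) (by norm_num) (by norm_num) (n := 5) (by norm_num)
  refine this.trans ?_
  norm_num [Finset.sum_range_succ, Nat.factorial]

theorem exp_110 {e : ℝ} (h : -(110 / 1000) ≤ e) : 1 / 2 ≤ Real.exp (2 * Real.pi * e) := by
  have h5 := Real.pi_lt_d4
  have h6 := Real.pi_pos
  have h1 : -0.6912 ≤ 2 * Real.pi * e := by
    have : Real.pi * (-(110 / 1000)) ≤ Real.pi * e := mul_le_mul_of_nonneg_left h h6.le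
    nlinarith
  refine le_trans ?_ (Real.exp_le_exp.2 h1)
  rw [Real.exp_neg]
  have h7 : Real.exp 0.6912 ≤ 2 := by
    have := Real.exp_bound' (x := 0.6912) (by norm_num) (by norm_num) (n := 6) (by norm_num)
    refine this.trans ?_
    norm_num [Finset.sum_range_succ, Nat.factorial]
  rw [one_div]
  exact inv_anti₀ (Real.exp_pos _) h7

theorem half_core {t e t' e' X ν : ℝ} (h : HS t e) (h' : HS t' e') (g : -t' < X)
    (H : (Real.exp (-(2 * Real.pi * ν)) + Real.exp (2 * Real.pi * ν)) * Real.sin (2 * Real.pi * X) =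
      Real.exp (2 * Real.pi * e) * Real.sin (2 * Real.pi * t) -
        Real.exp (2 * Real.pi * e') * Real.sin (2 * Real.pi * t')) : t - X ≤ 1 / 2 := by
  by_contra hc
  push Not at hc
  have hpi := Real.pi_pos
  have q1 := exp_112 h'.e1
  have q2 := exp_110 h.e0
  have s1 := sin_lo (t := t) (c := 106 / 1000) (by linarith [h.t0]) (by linarith [h.t1]) (by norm_num)
  have s1' := sin_lo (t := t') (c := 106 / 1000) (by linarith [h'.t0]) (by linarith [h'.t1])
    (by norm_num)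
  have u' := Real.sin_le_one (2 * Real.pi * t')
  have hcosh : 2 ≤ Real.exp (-(2 * Real.pi * ν)) + Real.exp (2 * Real.pi * ν) := by
    have a1 := Real.add_one_le_exp (-(2 * Real.pi * ν))
    have a2 := Real.add_one_le_exp (2 * Real.pi * ν)
    linarith
  set s := Real.sin (2 * Real.pi * t) with hs
  set s' := Real.sin (2 * Real.pi * t') with hs'
  have e0 : Real.sin (2 * Real.pi * X) = -Real.sin (-(2 * Real.pi * X)) := by
    rw [Real.sin_neg]
    ring
  rcases le_total (-(2 * Real.pi * X)) (Real.pi / 2) with hθ | hθ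
  · -- the angle is at least `π - 2 π t`
    have k : s ≤ Real.sin (-(2 * Real.pi * X)) := by
      rw [hs, show 2 * Real.pi * t = Real.pi - (Real.pi - 2 * Real.pi * t) by ring, Real.sin_pi_sub]
      apply Real.sin_le_sin_of_le_of_le_pi_div_two
      · nlinarith [h.t1]
      · exact hθ
      · nlinarith
    have k2 : 2 * s ≤ (Real.exp (-(2 * Real.pi * ν)) + Real.exp (2 * Real.pi * ν)) *
        Real.sin (-(2 * Real.pi * X)) := by
      apply mul_le_mul hcosh k (by linarith) (by linarith)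
    rw [e0] at H
    have k3 : Real.exp (2 * Real.pi * e') * s' ≤ 203 / 100 := by
      have := mul_le_mul q1 u' (by linarith) (by norm_num)
      linarith
    rcases h.te with ht | he
    · have s2 := sin_lo (t := t) (c := 96 / 1000) (by linarith [h.t0]) (by linarith) (by norm_num)
      have k4 : 1 / 2 * (1 - 20 * (96 / 1000) ^ 2) ≤ Real.exp (2 * Real.pi * e) * s :=
        mul_le_mul q2 s2 (by norm_num) (by linarith)
      rw [← hs] at s2
      norm_num at k4 s2
      linarith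
    · have k5 : 1 ≤ Real.exp (2 * Real.pi * e) := Real.one_le_exp (by positivity)
      have k4 : 1 * (1 - 20 * (106 / 1000) ^ 2) ≤ Real.exp (2 * Real.pi * e) * s :=
        mul_le_mul k5 s1 (by norm_num) (by linarith)
      norm_num at k4 s1
      linarith
  · have k : s' ≤ Real.sin (-(2 * Real.pi * X)) := by
      have : Real.sin (Real.pi - 2 * Real.pi * t') ≤ Real.sin (Real.pi - -(2 * Real.pi * X)) := by
        apply Real.sin_le_sin_of_le_of_le_pi_div_two
        · nlinarith [h'.t1]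
        · linarith
        · nlinarith
      rw [Real.sin_pi_sub, Real.sin_pi_sub] at this
      exact this
    have k2 : 2 * s' ≤ (Real.exp (-(2 * Real.pi * ν)) + Real.exp (2 * Real.pi * ν)) *
        Real.sin (-(2 * Real.pi * X)) := by
      apply mul_le_mul hcosh k _ (by linarith)
      norm_num at s1'
      linarith
    rw [e0] at H
    have k3 : Real.exp (2 * Real.pi * e') * s' ≤ 203 / 100 * s' := by
      apply mul_le_mul_of_nonneg_right q1
      norm_num at s1'
      linarith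
    have k4 : 1 / 2 * (1 - 20 * (106 / 1000) ^ 2) ≤ Real.exp (2 * Real.pi * e) * s :=
      mul_le_mul q2 s1 (by norm_num) (by linarith)
    norm_num at k4
    linarith

/-- The two angles are in the left half of the strip. -/
theorem four_half {y z b : ℂ} (h : l4z y z b = 0) (g0 : 0 < (y - z).re) (g1 : (y - z).re < 1)
    (h0 : 0 < (z + b).re) (h1 : (z + b).re < 1) (hy : HS y.re y.im) (hb : HS b.re b.im) :
    (y - z).re ≤ 1 / 2 ∧ (z + b).re ≤ 1 / 2 := by
  have H := four_sin h g0 g1 h0 h1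
  rw [sub_re] at *
  rw [add_re] at *
  refine ⟨half_core hy hb (by linarith) H, ?_⟩
  have k := half_core (X := -z.re) (ν := z.im) hb hy (by linarith) (by
    rw [show 2 * Real.pi * -z.re = -(2 * Real.pi * z.re) by ring, Real.sin_neg]
    linarith)
  linarith

/-! ### The plane at real points -/

theorem re_piI_mul_real (x : ℝ) : ((Real.pi : ℂ) * I * (x : ℂ)).re = 0 := by simp

theorem Gz4_real (y z b : ℝ) : Gz4 y z b =
    2 * Lb (1 / 2 - y) + 2 * Lb (1 / 2 - b) + Lb (y - z) + Lb (z + b) := by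
  unfold Gz4 gB gC qB qC Lb
  rw [Rf_half_add, Rf_half_add]
  have e1 : ((((-1 : ℤ) : ℂ)) * Real.pi * I * (((y : ℂ) + z) ^ 2 / 2 - ((y : ℂ) - z) / 2)).re = 0 := by
    have : ((((-1 : ℤ) : ℂ)) * Real.pi * I * (((y : ℂ) + z) ^ 2 / 2 - ((y : ℂ) - z) / 2)) =
        Real.pi * I * ((-((y + z) ^ 2 / 2 - (y - z) / 2) : ℝ) : ℂ) := by
      push_cast
      ring
    rw [this, re_piI_mul_real]
  have e2 : ((((-1 : ℤ) : ℂ)) * Real.pi * I * (((z : ℂ) - b) ^ 2 / 2 + (1 - (z : ℂ) - b) / 2)).re = 0 := by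
    have : ((((-1 : ℤ) : ℂ)) * Real.pi * I * (((z : ℂ) - b) ^ 2 / 2 + (1 - (z : ℂ) - b) / 2)) =
        Real.pi * I * ((-((z - b) ^ 2 / 2 + (1 - z - b) / 2) : ℝ) : ℂ) := by
      push_cast
      ring
    rw [this, re_piI_mul_real]
  rw [e1, e2]
  push_cast
  ring

theorem hh_im_real {x : ℝ} (h0 : 0 < x) (h1 : x < 1) : (hh (x : ℂ)).im = 0 := by
  rw [hh_real x h0 h1, ofReal_im]

/-- The base point. -/
noncomputable def pB4 : ℂ := ((31 / 100 : ℝ) : ℂ)

theorem l4y_base : (l4y pB4 0).im = Real.pi * (19 / 100) := by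
  unfold l4y pB4
  have e1 : (1 / 2 : ℂ) - ((31 / 100 : ℝ) : ℂ) = ((19 / 100 : ℝ) : ℂ) := by
    push_cast
    norm_num
  have e2 : ((31 / 100 : ℝ) : ℂ) + 0 - 1 / 2 = ((-(19 / 100) : ℝ) : ℂ) := by
    push_cast
    norm_num
  rw [e1, sub_zero, e2]
  have k1 := hh_im_real (x := 19 / 100) (by norm_num) (by norm_num)
  have k2 := hh_im_real (x := 31 / 100) (by norm_num) (by norm_num)
  simp only [sub_im, mul_im, mul_re, ofReal_re, ofReal_im, I_re, I_im, k1, k2, re_ofNat, im_ofNat]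
  ring

theorem l4b_base : (l4b 0 pB4).im = Real.pi * (19 / 100) := by
  unfold l4b pB4
  have e1 : (1 / 2 : ℂ) - ((31 / 100 : ℝ) : ℂ) = ((19 / 100 : ℝ) : ℂ) := by
    push_cast
    norm_num
  have e2 : (0 : ℂ) - ((31 / 100 : ℝ) : ℂ) + 1 / 2 = (((19 / 100) : ℝ) : ℂ) := by
    push_cast
    norm_num
  rw [e1, zero_add, e2]
  have k1 := hh_im_real (x := 19 / 100) (by norm_num) (by norm_num)
  have k2 := hh_im_real (x := 31 / 100) (by norm_num) (by norm_num)
  simp only [sub_im, add_im, mul_im, mul_re, ofReal_re, ofReal_im, I_re, I_im, k1, k2, re_ofNat,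
    im_ofNat]
  ring

theorem l4z_base : l4z pB4 0 pB4 = 0 := by
  unfold l4z
  rw [sub_zero, zero_add]
  ring

/-- **The plane at a real point**, from the data of the slots. -/
theorem pl4 {ys zs bs : ℂ} (hz : l4z ys zs bs = 0) (y0 : 0 ≤ ys.re) (y1 : ys.re < 1 / 2)
    (b0 : 0 ≤ bs.re) (b1 : bs.re < 1 / 2) (g0 : 0 < (ys - zs).re) (g1 : (ys - zs).re ≤ 1 / 2)
    (h0 : 0 < (zs + bs).re) (h1 : (zs + bs).re ≤ 1 / 2) (y z b yh bh : ℝ) :
    Ez4 ys zs bs y z b + (l4y ys zs).re * (y - yh) + (l4b zs bs).re * (b - bh) ≤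
      (2 * Lb (1 / 2 - y) + 2 * Lb (1 / 2 - b) + Lb (y - z) + Lb (z + b)) -
      (4 * Lb (19 / 100) + 2 * Lb (31 / 100)) - (l4y ys zs).re * (yh - 31 / 100) -
      ys.im * ((l4y ys zs).im - Real.pi * (19 / 100)) - (l4b zs bs).re * (bh - 31 / 100) -
      bs.im * ((l4b zs bs).im - Real.pi * (19 / 100)) := by
  have c0 : pB4.re = 31 / 100 := by simp [pB4]
  have c1 : pB4.im = 0 := by simp [pB4]
  have a1 := An_zero (w0 := 1 / 2 - pB4) (w := 1 / 2 - ys) (by simp [c0]; norm_num)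
    (by simp [c0]; norm_num) (by simp; linarith) (by simp; linarith)
  have a2 := An_zero (w0 := 1 / 2 - pB4) (w := 1 / 2 - bs) (by simp [c0]; norm_num)
    (by simp [c0]; norm_num) (by simp; linarith) (by simp; linarith)
  have a3 := An_zero (w0 := pB4 - 0) (w := ys - zs) (by simp [c0]) (by simp [c0]; norm_num) g0 g1
  have a4 := An_zero (w0 := 0 + pB4) (w := zs + bs) (by simp [c0]) (by simp [c0]; norm_num) h0 h1
  have k := sad_z4 (y : ℂ) (z : ℂ) (b : ℂ) (yh : ℂ) (bh : ℂ) hz a1 a2 a3 a4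
  have g := Gz4_gen pB4 0 pB4 (y : ℂ) (z : ℂ) (b : ℂ)
  have g2 : Gz4 pB4 0 pB4 = 4 * Lb (19 / 100) + 2 * Lb (31 / 100) := by
    have := Gz4_real (31 / 100) 0 (31 / 100)
    rw [show ((0 : ℝ) : ℂ) = 0 by simp] at this
    unfold pB4
    rw [this]
    norm_num
    ring
  rw [Gz4_real, g2] at g
  have r1 : (l4y ys zs * ((y : ℂ) - yh)).re = (l4y ys zs).re * (y - yh) := by
    rw [← ofReal_sub, re_mul_ofReal]
  have r2 : (l4b zs bs * ((b : ℂ) - bh)).re = (l4b zs bs).re * (b - bh) := by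
    rw [← ofReal_sub, re_mul_ofReal]
  have r3 : (l4y ys zs * ((yh : ℂ) - cr pB4 ys)).re =
      (l4y ys zs).re * (yh - 31 / 100) + (l4y ys zs).im * ys.im := by
    have e : (yh : ℂ) - cr pB4 ys = ((yh - 31 / 100 : ℝ) : ℂ) - ((ys.im : ℝ) : ℂ) * I := by
      unfold cr
      rw [c0]
      push_cast
      ring
    rw [e, mul_sub, sub_re, re_mul_ofReal]
    simp only [mul_re, mul_im, ofReal_re, ofReal_im, I_re, I_im]
    ring
  have r4 : (l4b zs bs * ((bh : ℂ) - cr pB4 bs)).re =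
      (l4b zs bs).re * (bh - 31 / 100) + (l4b zs bs).im * bs.im := by
    have e : (bh : ℂ) - cr pB4 bs = ((bh - 31 / 100 : ℝ) : ℂ) - ((bs.im : ℝ) : ℂ) * I := by
      unfold cr
      rw [c0]
      push_cast
      ring
    rw [e, mul_sub, sub_re, re_mul_ofReal]
    simp only [mul_re, mul_im, ofReal_re, ofReal_im, I_re, I_im]
    ring
  rw [r1, r2, r3, r4, l4y_base, l4b_base, l4z_base, c1] at k
  rw [l4z_base] at g
  simp only [zero_mul, zero_re, zero_im, sub_zero, add_zero, mul_zero] at k g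
  linarith

/-! ### The data of a slot -/

/-- The data of a slot: `u` is the contribution as a low slot, `v` as the other slot. -/
structure LoS (u v : ℝ) (y l : ℂ) : Prop where
  hs : HS y.re y.im
  a : u ≤ l.re * (3 / 10 - 31 / 100) + y.im * (l.im - Real.pi * (19 / 100))
  b : ∀ q : ℝ, 0 ≤ q → q ≤ 1 / 4 → Lb q + l.re * q + v ≤
    l.re * (19 / 100) + y.im * (l.im - Real.pi * (19 / 100))

/-- **Low edges at inner nodes with four half twists.** -/
theorem low_z4s {u v u' v' : ℝ} {n : Nt} {zs : ℂ} {sy sb : Slt} (hY : LoS u v sy.ys sy.lam)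
    (hB : LoS u' v' sb.ys sb.lam) (h1 : 12125 / 100000 + shr sb.S < 88048 / 100000 + u + v')
    (h2 : 12125 / 100000 + shr sy.S < 88048 / 100000 + u' + v)
    (hz : l4z sy.ys zs sb.ys = 0) (hly : sy.lam = l4y sy.ys zs) (hlb : sb.lam = l4b zs sb.ys)
    (g0 : 0 < (sy.ys - zs).re) (g1 : (sy.ys - zs).re < 1) (k0 : 0 < (zs + sb.ys).re)
    (k1 : (zs + sb.ys).re < 1) (hy : sy.ex = true) (hb : sb.ex = true) :
    (∀ (y z b : ℂ) (wy wb : ℝ) (pb : Pc), sy.ex = true → (sb.ex = true → pb.frcT) →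
      sy.In .lo y wy → sb.In pb b wb → z.im = 0 → -(1 / 2) ≤ z.re → z.re ≤ 1 / 2 → z.re ≤ y.re →
      0 ≤ z.re + b.re → Ez4 sy.ys zs sb.ys y z b + sy.e n .lo y wy + sb.e n pb b wb < 0) ∧
    (∀ (y z b : ℂ) (wy wb : ℝ) (py : Pc), sb.ex = true → (sy.ex = true → py.frcT) →
      sy.In py y wy → sb.In .lo b wb → z.im = 0 → -(1 / 2) ≤ z.re → z.re ≤ 1 / 2 → z.re ≤ y.re →
      0 ≤ z.re + b.re → Ez4 sy.ys zs sb.ys y z b + sy.e n py y wy + sb.e n .lo b wb < 0) := by
  obtain ⟨m1, m2⟩ := four_half hz g0 g1 k0 k1 hY.hs hB.hs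
  have L1 := Lbv_038.1
  have L2 := Lbv_062.1
  have hp : ∀ y z b yh bh : ℝ, _ := pl4 hz (by linarith [hY.hs.t0]) (by linarith [hY.hs.t1])
    (by linarith [hB.hs.t0]) (by linarith [hB.hs.t1]) g0 m1 k0 m2
  rw [← hly, ← hlb] at hp
  refine ⟨VZ_Ty hb ?_, VZ_Tb hy ?_⟩
  · intro y z b c0 c1 c2 c3 c4 c5
    have k := hp y z b (3 / 10) (1 / 2)
    have V := V4_le (x := y + 1 / 2) (q := 1 / 2 - b) (ζ := z + 1 / 2) (by linarith) (by linarith)
      (by linarith) (by linarith)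
    have e1 : Lb (1 / 2 - y) = -Lb (y + 1 / 2) := by
      rw [← Lb_one_sub]
      congr 1
      ring
    have e2 : Lb (y - z) = Lb (y + 1 / 2 - (z + 1 / 2)) := by
      congr 1
      ring
    have e3 : Lb (z + b) = Lb (z + 1 / 2 - (1 / 2 - b)) := by
      congr 1
      ring
    rw [e1, e2, e3] at k
    have a := hY.a
    have b' := hB.b (1 / 2 - b) (by linarith) (by linarith)
    have e4 : sb.lam.re * (1 / 2 - 31 / 100) = sb.lam.re * (19 / 100) := by norm_num
    rw [e4] at k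
    linarith
  · intro y z b c0 c1 c2 c3 c4 c5
    have k := hp y z b (1 / 2) (3 / 10)
    have V := V4_le (x := b + 1 / 2) (q := 1 / 2 - y) (ζ := 1 / 2 - z) (by linarith) (by linarith)
      (by linarith) (by linarith)
    have e1 : Lb (1 / 2 - b) = -Lb (b + 1 / 2) := by
      rw [← Lb_one_sub]
      congr 1
      ring
    have e2 : Lb (y - z) = Lb (1 / 2 - z - (1 / 2 - y)) := by
      congr 1
      ring
    have e3 : Lb (z + b) = Lb (b + 1 / 2 - (1 / 2 - z)) := by
      congr 1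
      ring
    rw [e1, e2, e3] at k
    have a := hB.a
    have b' := hY.b (1 / 2 - y) (by linarith) (by linarith)
    have e4 : sy.lam.re * (1 / 2 - 31 / 100) = sy.lam.re * (19 / 100) := by norm_num
    rw [e4] at k
    linarith

/-! ### The test -/

/-- Lower bound of the product of two intervals. -/
def pmn (a b c d : ℤ) : ℤ := min (min (a * c) (a * d)) (min (b * c) (b * d))

theorem pmn_ok {a b c d : ℤ} {x y : ℝ} (h0 : (a : ℝ) / 1000 ≤ x) (h1 : x ≤ (b : ℝ) / 1000)
    (g0 : (c : ℝ) / 1000 ≤ y) (g1 : y ≤ (d : ℝ) / 1000) :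
    (pmn a b c d : ℝ) / 1000000 ≤ x * y := by
  have k1 : pmn a b c d ≤ a * c := (min_le_left _ _).trans (min_le_left _ _)
  have k2 : pmn a b c d ≤ a * d := (min_le_left _ _).trans (min_le_right _ _)
  have k3 : pmn a b c d ≤ b * c := (min_le_right _ _).trans (min_le_left _ _)
  have k4 : pmn a b c d ≤ b * d := (min_le_right _ _).trans (min_le_right _ _)
  generalize pmn a b c d = m at k1 k2 k3 k4
  have k1 : (m : ℝ) ≤ a * c := by exact_mod_cast k1
  have k2 : (m : ℝ) ≤ a * d := by exact_mod_cast k2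
  have k3 : (m : ℝ) ≤ b * c := by exact_mod_cast k3
  have k4 : (m : ℝ) ≤ b * d := by exact_mod_cast k4
  rcases le_total 0 y with hy | hy
  · have q1 := mul_le_mul_of_nonneg_right h0 hy
    rcases le_total 0 (a : ℝ) with ha | ha
    · have := mul_le_mul_of_nonneg_left g0 (show 0 ≤ (a : ℝ) / 1000 by positivity)
      linarith
    · have := mul_le_mul_of_nonpos_left g1 (show (a : ℝ) / 1000 ≤ 0 by linarith)
      linarith
  · have q1 := mul_le_mul_of_nonpos_right h1 hy
    rcases le_total 0 (b : ℝ) with ha | ha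
    · have := mul_le_mul_of_nonneg_left g0 (show 0 ≤ (b : ℝ) / 1000 by positivity)
      linarith
    · have := mul_le_mul_of_nonpos_left g1 (show (b : ℝ) / 1000 ≤ 0 by linarith)
      linarith

/-- The test of a slot, in units of `1 / 1000000`. -/
def loS (u v : ℤ) (Y : YX.YR) : Bool :=
  decide (220 ≤ Y.x0) && decide (Y.x1 ≤ 356) && decide (-110 ≤ Y.e0) && decide (Y.e1 ≤ 112) &&
  (decide (Y.x1 ≤ 346) || decide (0 ≤ Y.e0)) &&
  decide (u + 10 * Y.l0 ≤ pmn Y.e0 Y.e1 (Y.m0 - 597) (Y.m1 - 596)) &&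
  decide (u + 10 * Y.l1 ≤ pmn Y.e0 Y.e1 (Y.m0 - 597) (Y.m1 - 596)) &&
  decide (v + supU Y.l0 ≤ 190 * Y.l0 + pmn Y.e0 Y.e1 (Y.m0 - 597) (Y.m1 - 596)) &&
  decide (v + supU Y.l1 ≤ 190 * Y.l1 + pmn Y.e0 Y.e1 (Y.m0 - 597) (Y.m1 - 596))

theorem loS_ok {u v : ℤ} {Y : YX.YR} (h : loS u v Y = true) {y l : ℂ} (hY : YX.InY Y y l) :
    LoS ((u : ℝ) / 1000000) ((v : ℝ) / 1000000) y l := by
  simp only [loS, Bool.and_eq_true, Bool.or_eq_true, decide_eq_true_eq] at h
  obtain ⟨⟨⟨⟨⟨⟨⟨⟨h1, h2⟩, h3⟩, h4⟩, h5⟩, h6⟩, h7⟩, h8⟩, h9⟩ := h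
  have p1 := Real.pi_gt_d4
  have p2 := Real.pi_lt_d4
  have g0 : (((Y.m0 - 597 : ℤ)) : ℝ) / 1000 ≤ l.im - Real.pi * (19 / 100) := by
    push_cast
    linarith [hY.m0]
  have g1 : l.im - Real.pi * (19 / 100) ≤ (((Y.m1 - 596 : ℤ)) : ℝ) / 1000 := by
    push_cast
    linarith [hY.m1]
  have hp := pmn_ok hY.e0 hY.e1 g0 g1
  generalize pmn Y.e0 Y.e1 (Y.m0 - 597) (Y.m1 - 596) = P at hp h6 h7 h8 h9
  obtain ⟨Q, hQ⟩ : ∃ Q, Q = y.im * (l.im - Real.pi * (19 / 100)) := ⟨_, rfl⟩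
  rw [← hQ] at hp
  have h1 : (220 : ℝ) ≤ Y.x0 := by exact_mod_cast h1
  have h2 : (Y.x1 : ℝ) ≤ 356 := by exact_mod_cast h2
  have h3 : (-110 : ℝ) ≤ Y.e0 := by exact_mod_cast h3
  have h4 : (Y.e1 : ℝ) ≤ 112 := by exact_mod_cast h4
  have h6 : (u : ℝ) + 10 * Y.l0 ≤ P := by exact_mod_cast h6
  have h7 : (u : ℝ) + 10 * Y.l1 ≤ P := by exact_mod_cast h7
  have h8 : (v : ℝ) + supU Y.l0 ≤ 190 * Y.l0 + P := by exact_mod_cast h8
  have h9 : (v : ℝ) + supU Y.l1 ≤ 190 * Y.l1 + P := by exact_mod_cast h9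
  have y0 := hY.x0
  have y1 := hY.x1
  have y2 := hY.e0
  have y3 := hY.e1
  have l0 := hY.l0
  have l1 := hY.l1
  constructor
  · constructor
    · linarith
    · linarith
    · linarith
    · linarith
    · rcases h5 with h5 | h5
      · left
        have h5 : (Y.x1 : ℝ) ≤ 346 := by exact_mod_cast h5
        linarith
      · right
        have h5 : (0 : ℝ) ≤ Y.e0 := by exact_mod_cast h5
        linarith
  · rw [← hQ]
    linarith
  · intro q q0 q1
    rw [← hQ]
    have s0 := supU_ok (m := Y.l0) q0 q1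
    have s1 := supU_ok (m := Y.l1) q0 q1
    have t0 : Lb q + (Y.l0 : ℝ) / 1000 * q + (v : ℝ) / 1000000 ≤ (Y.l0 : ℝ) / 1000 * (19 / 100) + Q := by
      linarith
    have t1 : Lb q + (Y.l1 : ℝ) / 1000 * q + (v : ℝ) / 1000000 ≤ (Y.l1 : ℝ) / 1000 * (19 / 100) + Q := by
      linarith
    rcases le_total q (19 / 100) with hq | hq
    · have := mul_le_mul_of_nonneg_right l0 (show 0 ≤ 19 / 100 - q by linarith)
      linarith
    · have := mul_le_mul_of_nonneg_right l1 (show 0 ≤ q - 19 / 100 by linarith)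
      linarith

end Pool.Agent.S5
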