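import Pool.Agent.S5.I.LowA

/-!
# Low edges: the values at real points
-/

set_option autoImplicit false

namespace Pool.Agent.S5

open Pool.Agent.H63.VC3 Pool.Agent.S3 Complex MeasureTheory Filter Topology Set

/-! ### Jensen -/

theorem Lb_jen2 {x y : ℝ} (hx : 0 ≤ x) (hy : 0 ≤ y) (h : x + y ≤ 1) (hx1 : x ≤ 1 / 2)
    (hy1 : y ≤ 1 / 2) : Lb x + Lb y ≤ 2 * Lb ((x + y) / 2) := by
  have h2 := Lb_concave.2 (x := x) (y := y) ⟨hx, hx1⟩ ⟨hy, hy1⟩
    (show (0 : ℝ) ≤ 1 / 2 by norm_num) (show (0 : ℝ) ≤ 1 / 2 by norm_num) (by norm_num)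
  simp only [smul_eq_mul] at h2
  rw [show 1 / 2 * x + 1 / 2 * y = (x + y) / 2 by ring] at h2
  linarith

theorem Lb_jen3 {x y z : ℝ} (hx : 0 ≤ x) (hy : 0 ≤ y) (hz : 0 ≤ z) (hx1 : x ≤ 1 / 2)
    (hy1 : y ≤ 1 / 2) (hz1 : z ≤ 1 / 2) : Lb x + Lb y + Lb z ≤ 3 * Lb ((x + y + z) / 3) := by
  rcases eq_or_lt_of_le (show 0 ≤ (x + y + z) / 3 by positivity) with h | h
  · have e1 : x = 0 := by linarith
    have e2 : y = 0 := by linarith
    have e3 : z = 0 := by linarith
    rw [e1, e2, e3]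
    norm_num [Lb_zero]
  · have h1 := Lb_le_tangent hx hx1 h (by linarith)
    have h2 := Lb_le_tangent hy hy1 h (by linarith)
    have h3 := Lb_le_tangent hz hz1 h (by linarith)
    linarith

/-! ### Two convex functions -/

theorem f2_slope {x : ℝ} (h0 : 0 < x) (h1 : x ≤ 1 / 4) : -Lg 0 (x / 2) + 2 * Lg 0 x =
    Real.log (8 * (Real.sin (Real.pi * x / 2) * (1 - Real.sin (Real.pi * x / 2) ^ 2))) := by
  have hpi := Real.pi_pos
  set u := Real.sin (Real.pi * x / 2) with hu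
  have hu0 : 0 < u := Real.sin_pos_of_pos_of_lt_pi (by positivity) (by nlinarith)
  have hc : 0 < Real.cos (Real.pi * x / 2) :=
    Real.cos_pos_of_mem_Ioo ⟨by nlinarith, by nlinarith⟩
  have e0 : Real.cos (Real.pi * x / 2) ^ 2 = 1 - u ^ 2 := by
    rw [hu]
    linarith [Real.sin_sq_add_cos_sq (Real.pi * x / 2)]
  have hd : 0 < 1 - u ^ 2 := by
    rw [← e0]
    positivity
  have e1 : Lg 0 x = Real.log (16 * u ^ 2 * (1 - u ^ 2)) / 2 := by
    apply Lg_zero_sq h0 (by linarith)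
    rw [show Real.pi * x = 2 * (Real.pi * x / 2) by ring, Real.sin_two_mul, mul_pow, mul_pow, e0,
      ← hu]
    ring
  have e2 : Lg 0 (x / 2) = Real.log (2 * u) := by
    rw [Lg_zero_pos (by linarith) (by linarith), ← mul_div_assoc]
  have e3 : Real.log (16 * u ^ 2 * (1 - u ^ 2)) =
      Real.log (2 * u) + Real.log (8 * (u * (1 - u ^ 2))) := by
    rw [← Real.log_mul (by positivity) (by positivity)]
    congr 1
    ring
  rw [e1, e2, e3]
  ring

theorem f3_slope {x : ℝ} (h0 : 0 < x) (h1 : x ≤ 1 / 4) : -Lg 0 (x / 3) + 2 * Lg 0 x =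
    Real.log (2 * (Real.sin (Real.pi * x / 3) * (3 - 4 * Real.sin (Real.pi * x / 3) ^ 2) ^ 2)) := by
  have hpi := Real.pi_pos
  set u := Real.sin (Real.pi * x / 3) with hu
  have hu0 : 0 < u := Real.sin_pos_of_pos_of_lt_pi (by positivity) (by nlinarith)
  have hu1 : u ≤ 1 / 2 := by
    have h3 := Real.sin_le (show 0 ≤ Real.pi * x / 3 by positivity)
    have h4 := Real.pi_lt_d2
    nlinarith
  have hd : 0 < 3 - 4 * u ^ 2 := by nlinarith
  have e1 : Lg 0 x = Real.log (4 * (3 * u - 4 * u ^ 3) ^ 2) / 2 := by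
    apply Lg_zero_sq h0 (by linarith)
    rw [show Real.pi * x = 3 * (Real.pi * x / 3) by ring, Real.sin_three_mul, ← hu]
  have e2 : Lg 0 (x / 3) = Real.log (2 * u) := by
    rw [Lg_zero_pos (by linarith) (by linarith), ← mul_div_assoc]
  have e3 : Real.log (4 * (3 * u - 4 * u ^ 3) ^ 2) =
      Real.log (2 * u) + Real.log (2 * (u * (3 - 4 * u ^ 2) ^ 2)) := by
    rw [← Real.log_mul (by positivity) (by positivity)]
    congr 1
    ring
  rw [e1, e2, e3]
  ring

theorem f2_convex : ConvexOn ℝ (Icc 0 (1 / 4)) fun x : ℝ => 2 * Lb (x / 2) - 2 * Lb x := by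
  have hpi := Real.pi_pos
  have hpi2 := Real.pi_lt_d2
  have hd : ∀ x : ℝ, 0 < x → x ≤ 1 / 4 → HasDerivAt (fun x : ℝ => 2 * Lb (x / 2) - 2 * Lb x)
      (-Lg 0 (x / 2) + 2 * Lg 0 x) x := by
    intro x h0 h1
    have h2 := HasDerivAt.comp x (Lb_hasDerivAt (x := x / 2) (by linarith) (by linarith))
      ((hasDerivAt_id x).div_const 2)
    have h3 := (h2.const_mul 2).sub ((Lb_hasDerivAt h0 (by linarith)).const_mul 2)
    refine h3.congr_deriv ?_
    ring
  apply MonotoneOn.convexOn_of_deriv (convex_Icc _ _)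
  · have := Lb_continuous
    fun_prop
  · intro x hx
    rw [interior_Icc] at hx
    exact (hd x hx.1 hx.2.le).differentiableAt.differentiableWithinAt
  · intro x hx y hy hxy
    rw [interior_Icc] at hx hy
    rw [(hd x hx.1 hx.2.le).deriv, (hd y hy.1 hy.2.le).deriv, f2_slope hx.1 hx.2.le,
      f2_slope hy.1 hy.2.le]
    set u := Real.sin (Real.pi * x / 2) with hu
    set v := Real.sin (Real.pi * y / 2) with hv
    have hx0 := hx.1
    have hy1 := hy.2
    have hu0 : 0 < u := Real.sin_pos_of_pos_of_lt_pi (by positivity) (by nlinarith)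
    have huv : u ≤ v := by
      apply Real.sin_le_sin_of_le_of_le_pi_div_two <;> nlinarith
    have hv1 : v ≤ 2 / 5 := by
      have h3 := Real.sin_le (show 0 ≤ Real.pi * y / 2 by nlinarith)
      nlinarith
    apply Real.log_le_log
    · have : 0 < 1 - u ^ 2 := by nlinarith
      positivity
    · have h5 : u * (1 - u ^ 2) ≤ v * (1 - v ^ 2) := by
        have e : v * (1 - v ^ 2) - u * (1 - u ^ 2) =
            (v - u) * (1 - (u ^ 2 + u * v + v ^ 2)) := by ring
        have h6 : 0 ≤ (v - u) * (1 - (u ^ 2 + u * v + v ^ 2)) :=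
          mul_nonneg (by linarith) (by nlinarith)
        linarith
      linarith

theorem f3_convex : ConvexOn ℝ (Icc 0 (1 / 4)) fun x : ℝ => 3 * Lb (x / 3) - 2 * Lb x := by
  have hpi := Real.pi_pos
  have hpi2 := Real.pi_lt_d2
  have hd : ∀ x : ℝ, 0 < x → x ≤ 1 / 4 → HasDerivAt (fun x : ℝ => 3 * Lb (x / 3) - 2 * Lb x)
      (-Lg 0 (x / 3) + 2 * Lg 0 x) x := by
    intro x h0 h1
    have h2 := HasDerivAt.comp x (Lb_hasDerivAt (x := x / 3) (by linarith) (by linarith))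
      ((hasDerivAt_id x).div_const 3)
    have h3 := (h2.const_mul 3).sub ((Lb_hasDerivAt h0 (by linarith)).const_mul 2)
    refine h3.congr_deriv ?_
    ring
  apply MonotoneOn.convexOn_of_deriv (convex_Icc _ _)
  · have := Lb_continuous
    fun_prop
  · intro x hx
    rw [interior_Icc] at hx
    exact (hd x hx.1 hx.2.le).differentiableAt.differentiableWithinAt
  · intro x hx y hy hxy
    rw [interior_Icc] at hx hy
    rw [(hd x hx.1 hx.2.le).deriv, (hd y hy.1 hy.2.le).deriv, f3_slope hx.1 hx.2.le,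
      f3_slope hy.1 hy.2.le]
    set u := Real.sin (Real.pi * x / 3) with hu
    set v := Real.sin (Real.pi * y / 3) with hv
    have hx0 := hx.1
    have hy1 := hy.2
    have hu0 : 0 < u := Real.sin_pos_of_pos_of_lt_pi (by positivity) (by nlinarith)
    have huv : u ≤ v := by
      apply Real.sin_le_sin_of_le_of_le_pi_div_two <;> nlinarith
    have hv1 : v ≤ 3 / 10 := by
      have h3 := Real.sin_le (show 0 ≤ Real.pi * y / 3 by nlinarith)
      nlinarith
    apply Real.log_le_log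
    · have : 0 < 3 - 4 * u ^ 2 := by nlinarith
      positivity
    · have h5 : u * (3 - 4 * u ^ 2) ^ 2 ≤ v * (3 - 4 * v ^ 2) ^ 2 := by
        have e : v * (3 - 4 * v ^ 2) ^ 2 - u * (3 - 4 * u ^ 2) ^ 2 =
            (v - u) * (9 - 24 * (u ^ 2 + u * v + v ^ 2) +
              16 * (u ^ 4 + u ^ 3 * v + u ^ 2 * v ^ 2 + u * v ^ 3 + v ^ 4)) := by ring
        have hv0 : 0 < v := by linarith
        have h7 : 0 ≤ 16 * (u ^ 4 + u ^ 3 * v + u ^ 2 * v ^ 2 + u * v ^ 3 + v ^ 4) := by positivity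
        have h8 : 24 * (u ^ 2 + u * v + v ^ 2) ≤ 9 := by nlinarith
        have h6 : 0 ≤ (v - u) * (9 - 24 * (u ^ 2 + u * v + v ^ 2) +
              16 * (u ^ 4 + u ^ 3 * v + u ^ 2 * v ^ 2 + u * v ^ 3 + v ^ 4)) :=
          mul_nonneg (by linarith) (by linarith)
        linarith
      linarith

theorem convex_le_chord {f : ℝ → ℝ} (hf : ConvexOn ℝ (Icc 0 (1 / 4)) f) (h0 : f 0 = 0) {x : ℝ}
    (hx : 0 ≤ x) (hx1 : x ≤ 1 / 4) : f x ≤ 4 * x * f (1 / 4) := by
  have h := hf.2 (left_mem_Icc.2 (by norm_num)) (right_mem_Icc.2 (by norm_num))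
    (show (0 : ℝ) ≤ 1 - 4 * x by linarith) (show (0 : ℝ) ≤ 4 * x by linarith) (by ring)
  rw [h0] at h
  simp only [smul_eq_mul, mul_zero, zero_add] at h
  rwa [show 4 * x * (1 / 4) = x by ring] at h

theorem f2_le {x : ℝ} (hx : 0 ≤ x) (hx1 : x ≤ 1 / 4) :
    2 * Lb (x / 2) - 2 * Lb x ≤ 84 / 1000 * x := by
  have h := convex_le_chord f2_convex (by norm_num [Lb_zero]) hx hx1
  have h2 := Lbv_025.2
  have h3 := Lbv_050.1
  norm_num at h
  nlinarith

theorem f3_le {x : ℝ} (hx : 0 ≤ x) (hx1 : x ≤ 1 / 4) :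
    3 * Lb (x / 3) - 2 * Lb x ≤ 485 / 1000 * x := by
  have h := convex_le_chord f3_convex (by norm_num [Lb_zero]) hx hx1
  have h2 := Lbw_12.2
  have h3 := Lbv_050.1
  norm_num at h
  nlinarith

/-! ### The values -/

/-- Closed nodes. -/
theorem V2_le {x q : ℝ} (h0 : 0 ≤ q) (h1 : q ≤ x) (h2 : x ≤ 1 / 4) :
    -(2 * Lb x) + 2 * Lb q + Lb (x - q) ≤ Lb q + 84 / 1000 * x := by
  have h3 := Lb_jen2 (x := q) (y := x - q) h0 (by linarith) (by linarith) (by linarith)
    (by linarith)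
  rw [show q + (x - q) = x by ring] at h3
  have h4 := f2_le (x := x) (by linarith) h2
  linarith

/-- Three half twists, the slot of the Bailey step. -/
theorem V3y_le {x q ζ : ℝ} (h0 : 0 ≤ q) (h1 : q ≤ ζ) (h2 : ζ ≤ x) (h3 : x ≤ 1 / 4) :
    -(2 * Lb x) + Lb q + Lb (x - ζ) + Lb ζ + Lb (ζ - q) ≤ Lb ζ + 485 / 1000 * x := by
  have h4 := Lb_jen3 (x := q) (y := x - ζ) (z := ζ - q) h0 (by linarith) (by linarith)
    (by linarith) (by linarith) (by linarith)
  rw [show q + (x - ζ) + (ζ - q) = x by ring] at h4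
  have h5 := f3_le (x := x) (by linarith) h3
  linarith

/-- Three half twists, the other slot. -/
theorem V3p_le {x q ζ : ℝ} (h0 : 0 ≤ q) (h1 : q ≤ ζ) (h2 : ζ ≤ x) (h3 : x ≤ 1 / 4) :
    2 * Lb q - Lb x + Lb (ζ - q) - Lb ζ + Lb (x - ζ) ≤ 16154 / 100000 + 485 / 1000 * x := by
  have h4 := Lb_jen3 (x := q) (y := x - ζ) (z := ζ - q) h0 (by linarith) (by linarith)
    (by linarith) (by linarith) (by linarith)
  rw [show q + (x - ζ) + (ζ - q) = x by ring] at h4
  have h5 := f3_le (x := x) (by linarith) h3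
  have h6 : Lb x - Lb ζ + Lb q ≤ 16154 / 100000 := by
    rcases le_total ζ (1 / 6) with h | h
    · have h7 := Lb_mono h0 h1 h
      have h8 := Lb_t6 (x := x) (by linarith) (by linarith)
      linarith
    · have h7 := Lb_anti h h2 (by linarith)
      have h8 := Lb_t6 (x := q) h0 (by linarith)
      linarith
  linarith

/-- Four half twists. -/
theorem V4_le {x q ζ : ℝ} (h0 : 0 ≤ q) (h1 : q ≤ ζ) (h2 : ζ ≤ x) (h3 : x ≤ 1 / 4) :
    -(2 * Lb x) + 2 * Lb q + Lb (x - ζ) + Lb (ζ - q) ≤ Lb q + 485 / 1000 * x := by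
  have h4 := Lb_jen3 (x := q) (y := x - ζ) (z := ζ - q) h0 (by linarith) (by linarith)
    (by linarith) (by linarith) (by linarith)
  rw [show q + (x - ζ) + (ζ - q) = x by ring] at h4
  have h5 := f3_le (x := x) (by linarith) h3
  linarith

/-- The end with three half twists. -/
theorem V3e_le {x u : ℝ} (h0 : 0 ≤ u) (h1 : u ≤ x) (h2 : x ≤ 1 / 4) :
    -Lb x + Lb u ≤ 16 / 1000 := by
  rcases le_total x (1 / 6) with h | h
  · have := Lb_mono h0 h1 h
    linarith
  · have h3 := Lb_anti h h2 (by norm_num)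
    have h4 := Lb_t6 (x := u) h0 (by linarith)
    have h5 := Lbv_050.1
    linarith

/-- Open nodes. -/
theorem Vv_le {x w : ℝ} (h0 : 0 ≤ w) (h1 : w ≤ x) (h2 : x ≤ 1 / 4) :
    -(2 * Lb x) + Lb (x + w) + Lb (x - w) ≤ 0 := by
  have h3 := Lb_jen2 (x := x + w) (y := x - w) (by linarith) (by linarith) (by linarith)
    (by linarith) (by linarith)
  rw [show (x + w + (x - w)) / 2 = x by ring] at h3
  linarith

end Pool.Agent.S5
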