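import Pool.Agent.S5.I.LowC

/-!
# Low edges: nodes with a lattice variable
-/

set_option autoImplicit false

namespace Pool.Agent.S5

open Pool.Agent.H63.VC3 Pool.Agent.S3 Complex MeasureTheory Filter Topology Set

/-- Lower bound of `Bn` on a box. -/
theorem Bn_box {z : ℂ} (a b B u : ℝ) (h0 : 0 < a) (hb : b ≤ 1 / 2) (h1 : a ≤ z.re)
    (h2 : z.re ≤ b) (h3 : |z.im| ≤ B) (hu : u ≤ Lb a - kz a * B ^ 2)
    (hv : u ≤ Lb b - kz b * B ^ 2) : u ≤ Bn z := by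
  rcases eq_or_lt_of_le (h1.trans h2) with h | h
  · have e : z.re = a := le_antisymm (h ▸ h2) h1
    have k := kz_le_Bn (z := z) (by rw [e]; exact h0) (by rw [e]; linarith)
    rw [e] at k
    have hz : z.im ^ 2 ≤ B ^ 2 := by
      rw [← sq_abs]
      exact pow_le_pow_left₀ (abs_nonneg _) h3 2
    have k4 : kz a * z.im ^ 2 ≤ kz a * B ^ 2 :=
      mul_le_mul_of_nonneg_left hz (kz_nonneg (by linarith) (by linarith))
    linarith
  · have k := Bn_lin h0 hb h1 h2 h3 hu hv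
    have hd : 0 < b - a := by linarith
    have : (b - a) * u ≤ (b - a) * Bn z := by linarith
    exact le_of_mul_le_mul_left this hd

/-- The slope term of the low slot. -/
theorem low_slot {l t L : ℝ} (l0 l1 t0 t1 : ℝ) (h0 : l0 ≤ l) (h1 : l ≤ l1) (g0 : t0 ≤ t)
    (g1 : t ≤ t1) (k00 : -(l0 * (3 / 10 - t0)) ≤ L) (k01 : -(l0 * (3 / 10 - t1)) ≤ L)
    (k10 : -(l1 * (3 / 10 - t0)) ≤ L) (k11 : -(l1 * (3 / 10 - t1)) ≤ L) :
    -(l * (3 / 10 - t)) ≤ L := by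
  have k := bilin_ge (α := t) (l := l) (a0 := t0) (a1 := t1) (l0 := l0) (l1 := l1) (c0 := 0)
    (c1 := 0) (c2 := 3 / 10) (c3 := -1) (s := -L) g0 g1 h0 h1 (by linarith) (by linarith)
    (by linarith) (by linarith)
  linarith

/-- The slope term of the other slot: its variable is real and at least `1 / 4`. -/
theorem oth_slot {l t b L : ℝ} (l0 l1 t0 t1 : ℝ) (h0 : l0 ≤ l) (h1 : l ≤ l1) (g0 : t0 ≤ t)
    (g1 : t ≤ t1) (hb : 1 / 4 ≤ b) (hb1 : b ≤ 1 / 2)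
    (k00 : -(l0 * (1 / 4 - t0)) ≤ L) (k01 : -(l0 * (1 / 4 - t1)) ≤ L)
    (k10 : -(l1 * (1 / 4 - t0)) ≤ L) (k11 : -(l1 * (1 / 4 - t1)) ≤ L)
    (j00 : -(l0 * (1 / 2 - t0)) ≤ L) (j01 : -(l0 * (1 / 2 - t1)) ≤ L)
    (j10 : -(l1 * (1 / 2 - t0)) ≤ L) (j11 : -(l1 * (1 / 2 - t1)) ≤ L) :
    -(l * (b - t)) ≤ L := by
  have k := bilin_ge (α := t) (l := l) (a0 := t0) (a1 := t1) (l0 := l0) (l1 := l1) (c0 := 0)
    (c1 := 0) (c2 := 1 / 4) (c3 := -1) (s := -L) g0 g1 h0 h1 (by linarith) (by linarith)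
    (by linarith) (by linarith)
  have j := bilin_ge (α := t) (l := l) (a0 := t0) (a1 := t1) (l0 := l0) (l1 := l1) (c0 := 0)
    (c1 := 0) (c2 := 1 / 2) (c3 := -1) (s := -L) g0 g1 h0 h1 (by linarith) (by linarith)
    (by linarith) (by linarith)
  rcases le_total 0 l with h | h
  · have := mul_le_mul_of_nonneg_left hb h
    linarith
  · have := mul_le_mul_of_nonpos_left hb1 h
    linarith

/-! ### Three half twists -/

/-- A low edge in the slot of the Bailey step. -/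
theorem Ez3_low_y {ys zs bs : ℂ} (hz : l3z ys zs bs = 0) {y z b : ℝ} (h0 : -(1 / 2) ≤ y)
    (h1 : y ≤ -(1 / 4)) (h2 : b ≤ 1 / 2) (h3 : z ≤ y) (h4 : 0 ≤ z + b) :
    Ez3 ys zs bs y z b + (l3y ys zs).re * (y - 3 / 10) ≤ 283 / 1000 - Wz3 ys zs bs -
      (l3y ys zs).re * (3 / 10 - ys.re) - (l3b zs bs).re * (b - bs.re) := by
  rw [Ez3_ofReal hz]
  have k := V3y_le (x := y + 1 / 2) (q := 1 / 2 - b) (ζ := z + 1 / 2) (by linarith) (by linarith)
    (by linarith) (by linarith)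
  have k2 := Lb_t6 (x := z + 1 / 2) (by linarith) (by linarith)
  have e1 : Lb (1 / 2 - y) = -Lb (y + 1 / 2) := by
    rw [← Lb_one_sub]
    congr 1
    ring
  have e2 : Lb (y - z) = Lb (y + 1 / 2 - (z + 1 / 2)) := by
    congr 1
    ring
  have e3 : Lb (z + b) = Lb (z + 1 / 2 - (1 / 2 - b)) := by
    congr 1
    ring
  rw [e1, e2, e3]
  linarith

/-- A low edge in the other slot. -/
theorem Ez3_low_b {ys zs bs : ℂ} (hz : l3z ys zs bs = 0) {y z b : ℝ} (h0 : -(1 / 2) ≤ b)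
    (h1 : b ≤ -(1 / 4)) (h2 : y ≤ 1 / 2) (h3 : z ≤ y) (h4 : 0 ≤ z + b) :
    Ez3 ys zs bs y z b + (l3b zs bs).re * (b - 3 / 10) ≤ 283 / 1000 - Wz3 ys zs bs -
      (l3b zs bs).re * (3 / 10 - bs.re) - (l3y ys zs).re * (y - ys.re) := by
  rw [Ez3_ofReal hz]
  have k := V3p_le (x := b + 1 / 2) (q := 1 / 2 - y) (ζ := 1 / 2 - z) (by linarith) (by linarith)
    (by linarith) (by linarith)
  have e1 : Lb (1 / 2 - b) = -Lb (b + 1 / 2) := by
    rw [← Lb_one_sub]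
    congr 1
    ring
  have e2 : Lb (y - z) = Lb (1 / 2 - z - (1 / 2 - y)) := by
    congr 1
    ring
  have e3 : Lb (z + b) = Lb (b + 1 / 2 - (1 / 2 - z)) := by
    congr 1
    ring
  have e4 : Lb (z + 1 / 2) = -Lb (1 / 2 - z) := by
    rw [← Lb_one_sub]
    congr 1
    ring
  rw [e1, e2, e3, e4]
  linarith

/-! ### Four half twists -/

/-- A low edge in the slot of the Bailey step. -/
theorem Ez4_low_y {ys zs bs : ℂ} (hz : l4z ys zs bs = 0) {y z b : ℝ} (h0 : -(1 / 2) ≤ y)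
    (h1 : y ≤ -(1 / 4)) (h2 : b ≤ 1 / 2) (h3 : z ≤ y) (h4 : 0 ≤ z + b) :
    Ez4 ys zs bs y z b + (l4y ys zs).re * (y - 3 / 10) ≤ 283 / 1000 - Wz4 ys zs bs -
      (l4y ys zs).re * (3 / 10 - ys.re) - (l4b zs bs).re * (b - bs.re) := by
  rw [Ez4_ofReal hz]
  have k := V4_le (x := y + 1 / 2) (q := 1 / 2 - b) (ζ := z + 1 / 2) (by linarith) (by linarith)
    (by linarith) (by linarith)
  have k2 := Lb_t6 (x := 1 / 2 - b) (by linarith) (by linarith)
  have e1 : Lb (1 / 2 - y) = -Lb (y + 1 / 2) := by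
    rw [← Lb_one_sub]
    congr 1
    ring
  have e2 : Lb (y - z) = Lb (y + 1 / 2 - (z + 1 / 2)) := by
    congr 1
    ring
  have e3 : Lb (z + b) = Lb (z + 1 / 2 - (1 / 2 - b)) := by
    congr 1
    ring
  rw [e1, e2, e3]
  linarith

/-- A low edge in the other slot. -/
theorem Ez4_low_b {ys zs bs : ℂ} (hz : l4z ys zs bs = 0) {y z b : ℝ} (h0 : -(1 / 2) ≤ b)
    (h1 : b ≤ -(1 / 4)) (h2 : y ≤ 1 / 2) (h3 : z ≤ y) (h4 : 0 ≤ z + b) :
    Ez4 ys zs bs y z b + (l4b zs bs).re * (b - 3 / 10) ≤ 283 / 1000 - Wz4 ys zs bs -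
      (l4b zs bs).re * (3 / 10 - bs.re) - (l4y ys zs).re * (y - ys.re) := by
  rw [Ez4_ofReal hz]
  have k := V4_le (x := b + 1 / 2) (q := 1 / 2 - y) (ζ := 1 / 2 - z) (by linarith) (by linarith)
    (by linarith) (by linarith)
  have k2 := Lb_t6 (x := 1 / 2 - y) (by linarith) (by linarith)
  have e1 : Lb (1 / 2 - b) = -Lb (b + 1 / 2) := by
    rw [← Lb_one_sub]
    congr 1
    ring
  have e2 : Lb (y - z) = Lb (1 / 2 - z - (1 / 2 - y)) := by
    congr 1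
    ring
  have e3 : Lb (z + b) = Lb (b + 1 / 2 - (1 / 2 - z)) := by
    congr 1
    ring
  rw [e1, e2, e3]
  linarith

/-- The box of a node with four half twists. -/
structure BZ4 (ys zs bs : ℂ) : Prop where
  y0 : 24 / 100 ≤ ys.re
  y1 : ys.re ≤ 35 / 100
  yi : |ys.im| ≤ 105 / 1000
  b0 : 24 / 100 ≤ bs.re
  b1 : bs.re ≤ 35 / 100
  bi : |bs.im| ≤ 105 / 1000
  g0 : 2 / 10 ≤ (ys - zs).re
  g1 : (ys - zs).re ≤ 42 / 100
  gi : |(ys - zs).im| ≤ 15 / 100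
  h0 : 2 / 10 ≤ (zs + bs).re
  h1 : (zs + bs).re ≤ 42 / 100
  hi : |(zs + bs).im| ≤ 15 / 100
  l0 : |(l4y ys zs).re| ≤ 6 / 10
  m0 : |(l4b zs bs).re| ≤ 6 / 10

theorem BZ4.vol {ys zs bs : ℂ} (h : BZ4 ys zs bs) : 58 / 100 ≤ Wz4 ys zs bs := by
  have e1 : (1 / 2 - ys).re = 1 / 2 - ys.re := by simp
  have e2 : (1 / 2 - ys).im = -ys.im := by simp
  have e3 : (1 / 2 - bs).re = 1 / 2 - bs.re := by simp
  have e4 : (1 / 2 - bs).im = -bs.im := by simp
  have w1 := Bn_box (z := 1 / 2 - ys) (3 / 20) (13 / 50) (105 / 1000) (124 / 1000) (by norm_num)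
    (by norm_num) (by rw [e1]; linarith [h.y1]) (by rw [e1]; linarith [h.y0])
    (by rw [e2, abs_neg]; exact h.yi)
    (by have := Lbv_030.1; unfold kz; norm_num at this ⊢; linarith)
    (by have := Lbv_052.1; unfold kz; norm_num at this ⊢; linarith)
  have w2 := Bn_box (z := 1 / 2 - bs) (3 / 20) (13 / 50) (105 / 1000) (124 / 1000) (by norm_num)
    (by norm_num) (by rw [e3]; linarith [h.b1]) (by rw [e3]; linarith [h.b0])
    (by rw [e4, abs_neg]; exact h.bi)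
    (by have := Lbv_030.1; unfold kz; norm_num at this ⊢; linarith)
    (by have := Lbv_052.1; unfold kz; norm_num at this ⊢; linarith)
  have w3 := Bn_box (z := ys - zs) (1 / 5) (21 / 50) (15 / 100) (42 / 1000) (by norm_num)
    (by norm_num) (by linarith [h.g0]) (by linarith [h.g1]) h.gi
    (by have := Lbv_040.1; unfold kz; norm_num at this ⊢; linarith)
    (by have := Lbv_084.1; unfold kz; norm_num at this ⊢; linarith)
  have w4 := Bn_box (z := zs + bs) (1 / 5) (21 / 50) (15 / 100) (42 / 1000) (by norm_num)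
    (by norm_num) (by linarith [h.h0]) (by linarith [h.h1]) h.hi
    (by have := Lbv_040.1; unfold kz; norm_num at this ⊢; linarith)
    (by have := Lbv_084.1; unfold kz; norm_num at this ⊢; linarith)
  unfold Wz4
  linarith

end Pool.Agent.S5
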