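import Pool.Agent.S5.I.BwP
import Pool.Agent.S5.S.Defs

/-!
# The closed nodes and the nodes with lattice variables: tangent defects

Everything is in the frame of the vertex (`s = -1`). `2 Rf (y + 1 / 2)` is the share of an edge.
-/

set_option autoImplicit false

namespace Pool.Agent.S5

open Pool.Agent.H63.VC3 Pool.Agent.S3 Complex MeasureTheory Filter Topology Set

/-! ### The nodes minus their tangent planes -/

/-- A closed node (two half twists) minus its tangent plane. -/
noncomputable def Ecl (as bs a b : ℂ) : ℝ :=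
  2 * Td (1 / 2 - as) (1 / 2 - a) + 2 * Td (1 / 2 - bs) (1 / 2 - b) + Td (as + bs) (a + b) +
    Real.pi * (((a - as) - (b - bs)).re * ((a - as) - (b - bs)).im)

/-- A node with three half twists minus its tangent plane. -/
noncomputable def Ez3 (ys zs bs y z b : ℂ) : ℝ :=
  2 * Td (1 / 2 - ys) (1 / 2 - y) + Td (1 / 2 - bs) (1 / 2 - b) + Td (ys - zs) (y - z) +
    Td (zs + 1 / 2) (z + 1 / 2) + Td (zs + bs) (z + b) +
      Real.pi / 2 * (((y - ys) + (z - zs)) ^ 2).im - Real.pi * ((z - zs) * (b - bs)).im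

/-- A node with four half twists minus its tangent plane. -/
noncomputable def Ez4 (ys zs bs y z b : ℂ) : ℝ :=
  2 * Td (1 / 2 - ys) (1 / 2 - y) + 2 * Td (1 / 2 - bs) (1 / 2 - b) + Td (ys - zs) (y - z) +
    Td (zs + bs) (z + b) + Real.pi / 2 * (((y - ys) + (z - zs)) ^ 2).im +
      Real.pi / 2 * (((z - zs) - (b - bs)) ^ 2).im

/-! ### The slopes -/

/-- The slope of a closed node in the slot `a`. -/
noncomputable def lcl (as bs : ℂ) : ℂ :=
  2 * hh (1 / 2 - as) - hh (as + bs) - Real.pi * I * ((as - bs) - 1 / 2)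

/-- The slope of a node with three half twists in the slot of the Bailey step. -/
noncomputable def l3y (ys zs : ℂ) : ℂ :=
  2 * hh (1 / 2 - ys) - hh (ys - zs) - Real.pi * I * ((ys + zs) - 1 / 2)

/-- The slope of a node with three half twists in the other slot. -/
noncomputable def l3b (zs bs : ℂ) : ℂ :=
  hh (1 / 2 - bs) - hh (zs + bs) + Real.pi * I * (zs + 1 / 2)

/-- The slope of a node with three half twists in its own variable. -/
noncomputable def l3z (ys zs bs : ℂ) : ℂ :=
  hh (ys - zs) - hh (zs + 1 / 2) - hh (zs + bs) - Real.pi * I * ((ys + zs) + 1 / 2) +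
    Real.pi * I * (bs + 1 / 2)

/-- The slope of a node with four half twists in the slot of the Bailey step. -/
noncomputable def l4y (ys zs : ℂ) : ℂ :=
  2 * hh (1 / 2 - ys) - hh (ys - zs) - Real.pi * I * ((ys + zs) - 1 / 2)

/-- The slope of a node with four half twists in the other slot. -/
noncomputable def l4b (zs bs : ℂ) : ℂ :=
  2 * hh (1 / 2 - bs) - hh (zs + bs) + Real.pi * I * ((zs - bs) + 1 / 2)

/-- The slope of a node with four half twists in its own variable. -/
noncomputable def l4z (ys zs bs : ℂ) : ℂ :=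
  hh (ys - zs) - hh (zs + bs) - Real.pi * I * ((ys + zs) + 1 / 2) -
    Real.pi * I * ((zs - bs) - 1 / 2)

/-! ### The identities -/

theorem Rf_half_add (y : ℂ) : Rf (y + 1 / 2) = -Rf (1 / 2 - y) := by
  have h := Rf_one_sub (1 / 2 - y)
  rw [show (1 : ℂ) - (1 / 2 - y) = y + 1 / 2 by ring] at h
  rw [h]

/-- The growth of a closed node with the shares of its edges. -/
noncomputable def Gcl (a b : ℂ) : ℝ := gC (-1) a b + 2 * Rf (a + 1 / 2) + 2 * Rf (b + 1 / 2)

/-- The growth of a node with three half twists with the shares of its edges. -/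
noncomputable def Gz3 (y z b : ℂ) : ℝ :=
  gB (-1) y z + gH (-1) z b + 2 * Rf (y + 1 / 2) + 2 * Rf (b + 1 / 2)

/-- The growth of a node with four half twists with the shares of its edges. -/
noncomputable def Gz4 (y z b : ℂ) : ℝ :=
  gB (-1) y z + gC (-1) z b + 2 * Rf (y + 1 / 2) + 2 * Rf (b + 1 / 2)

theorem Gcl_eq (as bs a b : ℂ) : Gcl a b = Gcl as bs + (lcl as bs * (a - as)).re +
    (lcl bs as * (b - bs)).re + Ecl as bs a b := by
  unfold Gcl gC qC Ecl Td lcl
  rw [Rf_half_add, Rf_half_add, Rf_half_add, Rf_half_add, add_comm bs as]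
  simp only [Int.cast_neg, Int.cast_one, neg_mul, one_mul, sub_re, add_re, neg_re, mul_re, sub_im,
    add_im, neg_im, mul_im, ofReal_re, ofReal_im, I_re, I_im, div_ofNat_re, div_ofNat_im, one_re,
    one_im, re_ofNat, im_ofNat, pow_two]
  ring

theorem Gz3_eq (ys zs bs y z b : ℂ) (h : l3z ys zs bs = 0) : Gz3 y z b = Gz3 ys zs bs +
    (l3y ys zs * (y - ys)).re + (l3b zs bs * (b - bs)).re + Ez3 ys zs bs y z b := by
  have h2 : Gz3 y z b = Gz3 ys zs bs + (l3y ys zs * (y - ys)).re + (l3b zs bs * (b - bs)).re +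
      (l3z ys zs bs * (z - zs)).re + Ez3 ys zs bs y z b := by
    unfold Gz3 gB gH qB qH Ez3 Td l3y l3b l3z
    rw [Rf_half_add y, Rf_half_add b, Rf_half_add ys, Rf_half_add bs]
    simp only [Int.cast_neg, Int.cast_one, neg_mul, one_mul, sub_re, add_re, neg_re, mul_re, sub_im,
      add_im, neg_im, mul_im, ofReal_re, ofReal_im, I_re, I_im, div_ofNat_re, div_ofNat_im, one_re,
      one_im, re_ofNat, im_ofNat, pow_two]
    ring
  rw [h2, h, zero_mul, zero_re]
  ring

theorem Gz4_eq (ys zs bs y z b : ℂ) (h : l4z ys zs bs = 0) : Gz4 y z b = Gz4 ys zs bs +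
    (l4y ys zs * (y - ys)).re + (l4b zs bs * (b - bs)).re + Ez4 ys zs bs y z b := by
  have h2 : Gz4 y z b = Gz4 ys zs bs + (l4y ys zs * (y - ys)).re + (l4b zs bs * (b - bs)).re +
      (l4z ys zs bs * (z - zs)).re + Ez4 ys zs bs y z b := by
    unfold Gz4 gB gC qB qC Ez4 Td l4y l4b l4z
    rw [Rf_half_add y, Rf_half_add b, Rf_half_add ys, Rf_half_add bs]
    simp only [Int.cast_neg, Int.cast_one, neg_mul, one_mul, sub_re, add_re, neg_re, mul_re, sub_im,
      add_im, neg_im, mul_im, ofReal_re, ofReal_im, I_re, I_im, div_ofNat_re, div_ofNat_im, one_re,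
      one_im, re_ofNat, im_ofNat, pow_two]
    ring
  rw [h2, h, zero_mul, zero_re]
  ring

end Pool.Agent.S5
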