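import Pool.Agent.S5.I.VOK

/-!
# One form of the statements for all types of nodes
-/

set_option autoImplicit false

namespace Pool.Agent.S5

open Complex Pool.Agent.H63.VC3 Pool.Agent.S3

/-- The states of a node in a pattern; `z1` is the end of the flat piece of its variable. -/
def NSt (ty : Ty) (f : Bool) (z1 : ℝ) (os : ℂ) (sa sb : Slt) (pa pb : Pc) (o A B : ℂ)
    (w : ℝ) : Prop :=
  match ty with
  | .cl => w = 0 ∧ ((pa.free ∧ pb.free) ∨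
      (sa.ex = true ∧ pa = .lo ∧ (sb.ex = true → pb.frcT) ∧ 0 ≤ (A + B).re) ∨
      (sb.ex = true ∧ pb = .lo ∧ (sa.ex = true → pa.frcT) ∧ 0 ≤ (A + B).re))
  | .zn => (pa.free ∧ pb.free ∧ LimR (-z1) z1 (3 / 20) os.im o w) ∨
      (w = 0 ∧ o.im = 0 ∧ z1 ≤ o.re ∧ o.re ≤ 1 / 2 ∧ o.re ≤ (ys f A B).re ∧
        (if f = true then (sb.ex = true → pb.frcZ) ∧ pa.free
          else (sa.ex = true → pa.frcZ) ∧ pb.free)) ∨
      (w = 0 ∧ o.im = 0 ∧ -(1 / 2) ≤ o.re ∧ o.re ≤ -z1 ∧ 0 ≤ o.re + (yt f A B).re ∧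
        (if f = true then (sa.ex = true → pa.frcZ) ∧ pb.free
          else (sb.ex = true → pb.frcZ) ∧ pa.free)) ∨
      (w = 0 ∧ o.im = 0 ∧ -(1 / 2) ≤ o.re ∧ o.re ≤ 1 / 2 ∧ o.re ≤ (ys f A B).re ∧
        0 ≤ o.re + (yt f A B).re ∧ ((sa.ex = true ∧ pa = .lo ∧ (sb.ex = true → pb.frcT)) ∨
          (sb.ex = true ∧ pb = .lo ∧ (sa.ex = true → pa.frcT))))
  | .vn => w = 0 ∧ ((pa.free ∧ pb.free ∧ LimV os.im z1 o) ∨
      (o.im = 0 ∧ o.re ≤ 1 / 2 ∧ ((sa.ex = true ∧ pa = .lo ∧ -A.re ≤ o.re ∧ pb.free) ∨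
        (sb.ex = true ∧ pb = .lo ∧ -B.re ≤ o.re ∧ pa.free))))

/-- **The statement of a node.** -/
def NOK (n : Nt) (ty : Ty) (f : Bool) (z1 : ℝ) (os : ℂ) (sa sb : Slt) (E : ℂ → ℂ → ℂ → ℝ) :
    Prop :=
  ∀ (o A B : ℂ) (w wa wb : ℝ) (pa pb : Pc), sa.In pa A wa → sb.In pb B wb →
    NSt ty f z1 os sa sb pa pb o A B w →
    E o A B + sa.e n pa A wa + sb.e n pb B wb < w ∨
      (A = sa.ys ∧ B = sb.ys ∧ pa = .F ∧ pb = .F ∧ w = 0 ∧ (ty ≠ Ty.cl → o = os))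

theorem VCl.nok {n : Nt} {sa sb : Slt} (h : VCl n sa sb) (f : Bool) (z1 : ℝ) (os : ℂ) :
    NOK n Ty.cl f z1 os sa sb (fun _ A B => Ecl sa.ys sb.ys A B) := by
  intro o A B w wa wb pa pb ha hb hs
  obtain ⟨hw, hs⟩ := hs
  subst hw
  rcases hs with ⟨h1, h2⟩ | ⟨h1, h2, h3, h4⟩ | ⟨h1, h2, h3, h4⟩
  · rcases h.U A B wa wb pa pb h1 h2 ha hb with h5 | ⟨h5, h6, h7, h8⟩
    · exact Or.inl h5
    · exact Or.inr ⟨h5, h6, h7, h8, rfl, fun h0 => absurd rfl h0⟩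
  · subst h2
    exact Or.inl (h.Ta A B wa wb pb h1 h3 ha hb h4)
  · subst h2
    exact Or.inl (h.Tb A B wa wb pa h1 h3 ha hb h4)

theorem VZ.nok {E : ℂ → ℂ → ℂ → ℝ} {n : Nt} {z1 : ℝ} {os : ℂ} {sa sb : Slt}
    (h : VZ E n z1 os sa sb) :
    NOK n Ty.zn false z1 os sa sb (fun o A B => E A o B) := by
  intro o A B w wa wb pa pb ha hb hs
  rcases hs with ⟨h1, h2, h3⟩ | ⟨h1, h2, h3, h4, h5, h6⟩ | ⟨h1, h2, h3, h4, h5, h6⟩ |
    ⟨h1, h2, h3, h4, h5, h6, h7⟩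
  · rcases h.U A o B wa w wb pa pb h1 h2 ha hb h3 with h5 | ⟨h5, h6, h7, h8, h9, h10⟩
    · exact Or.inl h5
    · exact Or.inr ⟨h5, h7, h8, h9, h10, fun _ => h6⟩
  · subst h1
    rw [if_neg (by simp)] at h6
    exact Or.inl (h.P A o B wa wb pa pb h6.1 h6.2 ha hb h2 h3 h4 h5)
  · subst h1
    rw [if_neg (by simp)] at h6
    exact Or.inl (h.N A o B wa wb pa pb h6.2 h6.1 ha hb h2 h3 h4 h5)
  · subst h1
    rcases h7 with ⟨h8, h9, h10⟩ | ⟨h8, h9, h10⟩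
    · subst h9
      exact Or.inl (h.Ty A o B wa wb pb h8 h10 ha hb h2 h3 h4 h5 h6)
    · subst h9
      exact Or.inl (h.Tb A o B wa wb pa h8 h10 ha hb h2 h3 h4 h5 h6)

theorem VZ.nok' {E : ℂ → ℂ → ℂ → ℝ} {n : Nt} {z1 : ℝ} {os : ℂ} {sa sb : Slt}
    (h : VZ E n z1 os sb sa) :
    NOK n Ty.zn true z1 os sa sb (fun o A B => E B o A) := by
  intro o A B w wa wb pa pb ha hb hs
  have key : ∀ x : ℝ, E B o A + sb.e n pb B wb + sa.e n pa A wa < x →
      E B o A + sa.e n pa A wa + sb.e n pb B wb < x := fun x h0 => by linarith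
  rcases hs with ⟨h1, h2, h3⟩ | ⟨h1, h2, h3, h4, h5, h6⟩ | ⟨h1, h2, h3, h4, h5, h6⟩ |
    ⟨h1, h2, h3, h4, h5, h6, h7⟩
  · rcases h.U B o A wb w wa pb pa h2 h1 hb ha h3 with h5 | ⟨h5, h6, h7, h8, h9, h10⟩
    · exact Or.inl (key _ h5)
    · exact Or.inr ⟨h7, h5, h9, h8, h10, fun _ => h6⟩
  · subst h1
    rw [if_pos rfl] at h6
    exact Or.inl (key _ (h.P B o A wb wa pb pa h6.1 h6.2 hb ha h2 h3 h4 h5))
  · subst h1
    rw [if_pos rfl] at h6
    exact Or.inl (key _ (h.N B o A wb wa pb pa h6.2 h6.1 hb ha h2 h3 h4 h5))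
  · subst h1
    rcases h7 with ⟨h8, h9, h10⟩ | ⟨h8, h9, h10⟩
    · subst h9
      exact Or.inl (key _ (h.Tb B o A wb wa pb h8 h10 hb ha h2 h3 h4 h5 h6))
    · subst h9
      exact Or.inl (key _ (h.Ty B o A wb wa pa h8 h10 hb ha h2 h3 h4 h5 h6))

theorem slE_crit (S : Bool) (n x : Nt) (lam ys : ℂ) : slE S n x .F lam ys ys 0 = 0 := by
  have e : hT S n x .F = 0 := by simp [hT, r0, Pc.mir]
  unfold slE
  rw [e, Td_self]
  simp [Pc.eff, Pc.box]

theorem Es_crit (ys vs : ℂ) : Es ys vs ys vs = 0 := by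
  unfold Es Ev
  rw [Td_self, Td_self, Td_self]
  ring

/-- Open nodes: both slots exist, or only one. -/
theorem VS.nok {n : Nt} {z1 : ℝ} {os : ℂ} {sa sb : Slt} (ha : sa.ex = true → VS n z1 os sa)
    (hb : sb.ex = true → VS n z1 os sb) (hx : sa.ex = true ∨ sb.ex = true)
    (he : sa.ex = true → sb.ex = true → n.e = false)
    (ha' : sa.ex = false → sa.ys = 1 / 2) (hb' : sb.ex = false → sb.ys = 1 / 2)
    (f : Bool) :
    NOK n Ty.vn f z1 os sa sb (fun o A B => sa.v os A o + sb.v os B o) := by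
  intro o A B w wa wb pa pb hA hB hs
  obtain ⟨hw, hs⟩ := hs
  subst hw
  -- the statement for one slot
  have U : ∀ (s : Slt) (y : ℂ) (w : ℝ) (pc : Pc), (s.ex = true → VS n z1 os s) →
      (s.ex = false → s.ys = 1 / 2) → s.In pc y w → pc.free → LimV os.im z1 o →
      (s.v os y o + s.e n pc y w < 0 ∨ (s.v os y o + s.e n pc y w = 0 ∧ s.ex = false ∧
        y = s.ys ∧ pc = .F) ∨ (s.v os y o + s.e n pc y w ≤ 0 ∧ y = s.ys ∧ o = os ∧ pc = .F)) := by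
    intro s y w pc h1 h2 h3 h4 h5
    rcases hx' : s.ex with _ | _
    · right
      left
      unfold Slt.In at h3
      rw [hx', if_neg (by simp)] at h3
      unfold Slt.v Slt.e
      rw [hx', if_neg (by simp), if_neg (by simp)]
      exact ⟨add_zero _, rfl, h3.2.1.trans (h2 hx').symm, h3.1⟩
    · unfold Slt.In at h3
      rw [hx', if_pos rfl] at h3
      have h6 := (h1 hx').U y o w pc h4 h3 h5
      unfold Slt.v Slt.e
      rw [hx', if_pos rfl, if_pos rfl]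
      rcases h6 with h6 | ⟨h6, h7, h8⟩
      · exact Or.inl h6
      · right
        right
        refine ⟨?_, h6, h7, h8⟩
        subst h8
        obtain ⟨⟨h9, -⟩, -⟩ := h3
        rw [h6, h7, h9, slE_crit, Es_crit, add_zero]
  have Q : ∀ (s : Slt) (y : ℂ) (w : ℝ) (pc : Pc), (s.ex = true → VS n z1 os s) →
      (s.ex = true → n.e = false) →
      s.In pc y w → pc.free → o.im = 0 → 1 / 4 ≤ o.re → o.re ≤ 1 / 2 →
      s.v os y o + s.e n pc y w < 1 / 50 := by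
    intro s y w pc h1 h2 h3 h4 h5 h6 h7
    rcases hx' : s.ex with _ | _
    · unfold Slt.v Slt.e
      rw [hx', if_neg (by simp), if_neg (by simp)]
      norm_num
    · unfold Slt.In at h3
      rw [hx', if_pos rfl] at h3
      unfold Slt.v Slt.e
      rw [hx', if_pos rfl, if_pos rfl]
      exact (h1 hx').Q (h2 hx') y o w pc h4 h3 h5 h6 h7
  have L : ∀ (s : Slt) (y : ℂ) (w : ℝ), (s.ex = true → VS n z1 os s) → s.ex = true →
      s.In .lo y w → o.im = 0 → -y.re ≤ o.re → o.re ≤ 1 / 2 →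
      s.v os y o + s.e n .lo y w < -(1 / 50) ∧ 1 / 4 ≤ o.re := by
    intro s y w h1 hx' h3 h5 h6 h7
    unfold Slt.In at h3
    rw [hx', if_pos rfl] at h3
    refine ⟨?_, ?_⟩
    · unfold Slt.v Slt.e
      rw [hx', if_pos rfl, if_pos rfl]
      exact (h1 hx').L y o w h3 h5 h6 h7
    · obtain ⟨⟨-, -, -, h8⟩, -⟩ := h3
      linarith
  rcases hs with ⟨h1, h2, h3⟩ | ⟨h1, h2, h3⟩
  · have k1 := U sa A wa pa ha ha' hA h1 h3
    have k2 := U sb B wb pb hb hb' hB h2 h3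
    rcases k1 with k1 | ⟨k1, k1', k1'', k1'''⟩ | ⟨k1, k1', k1'', k1'''⟩
    · left
      rcases k2 with k2 | ⟨k2, -⟩ | ⟨k2, -⟩ <;> linarith
    · rcases k2 with k2 | ⟨k2, k2', -⟩ | ⟨k2, k2', k2'', k2'''⟩
      · left
        linarith
      · rcases hx with hx | hx
        · rw [hx] at k1'
          exact absurd k1' (by simp)
        · rw [hx] at k2'
          exact absurd k2' (by simp)
      · exact Or.inr ⟨k1'', k2', k1''', k2''', rfl, fun _ => k2''⟩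
    · rcases k2 with k2 | ⟨k2, k2', k2'', k2'''⟩ | ⟨k2, k2', k2'', k2'''⟩
      · left
        linarith
      · exact Or.inr ⟨k1', k2'', k1''', k2''', rfl, fun _ => k1''⟩
      · exact Or.inr ⟨k1', k2', k1''', k2''', rfl, fun _ => k1''⟩
  · left
    rcases h3 with ⟨h4, h5, h6, h7⟩ | ⟨h4, h5, h6, h7⟩
    · subst h5
      have k1 := L sa A wa ha h4 hA h1 h6 h2
      have k2 := Q sb B wb pb hb (he h4) hB h7 h1 k1.2 h2
      linarith [k1.1]
    · subst h5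
      have k1 := L sb B wb hb h4 hB h1 h6 h2
      have k2 := Q sa A wa pa ha (fun h0 => he h0 h4) hA h7 h1 k1.2 h2
      linarith [k1.1]

end Pool.Agent.S5
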