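import Pool.Agent.S5.I.NumSe

/-!
# The derivative of the potential in terms of `w = exp (2 π i z)`
-/

set_option autoImplicit false

namespace Pool.Agent.S5.Num

open Complex Pool.Agent.H63.VC3 Pool.Agent.H63.VC5 Pool.Agent.S3

/-- The upper half of the strip. -/
theorem ww_im_nonneg {x : ℝ} (h0 : 0 ≤ x) (h1 : x ≤ 1 / 2) (s : ℝ) : 0 ≤ (ww x s).im := by
  unfold ww
  rw [exp_im]
  apply mul_nonneg (Real.exp_nonneg _)
  have e : (2 * Real.pi * I * ((x : ℂ) + s * I)).im = 2 * Real.pi * x := by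
    simp only [mul_re, mul_im, add_re, add_im, ofReal_re, ofReal_im, I_re, I_im, re_ofNat, im_ofNat]
    ring
  rw [e]
  have hpi := Real.pi_pos
  apply Real.sin_nonneg_of_nonneg_of_le_pi
  · exact mul_nonneg (by linarith) h0
  · nlinarith

theorem ww_re_le {x s : ℝ} (hs : 0 ≤ s) : (ww x s).re ≤ 1 :=
  (re_le_norm _).trans (ww_norm_le hs)

theorem sin_eq_ww (x s : ℝ) : 2 * sin (Real.pi * ((x : ℂ) + s * I)) =
    I * exp (-(Real.pi * ((x : ℂ) + s * I) * I)) * (1 - ww x s) := by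
  have e1 : ww x s = exp (Real.pi * ((x : ℂ) + s * I) * I) * exp (Real.pi * ((x : ℂ) + s * I) * I) := by
    unfold ww
    rw [← exp_add]
    congr 1
    ring
  rw [e1]
  unfold Complex.sin
  have e2 : exp (-(Real.pi * ((x : ℂ) + s * I) * I)) * exp (Real.pi * ((x : ℂ) + s * I) * I) = 1 := by
    rw [← exp_add, neg_add_cancel, exp_zero]
  rw [neg_mul]
  generalize exp (-(Real.pi * ((x : ℂ) + s * I) * I)) = P at *
  generalize exp (Real.pi * ((x : ℂ) + s * I) * I) = Q at *
  linear_combination (I * Q) * e2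

theorem one_sub_ww_arg {x s : ℝ} (h : (ww x s).re < 1) :
    (1 - ww x s).arg = -Real.arctan ((ww x s).im / (1 - (ww x s).re)) := by
  have hre : 0 < (1 - ww x s).re := by
    rw [sub_re, one_re]
    linarith
  have h1 : |(1 - ww x s).arg| < Real.pi / 2 := by
    rw [Complex.abs_arg_lt_pi_div_two_iff]
    exact Or.inl hre
  have h2 := abs_lt.1 h1
  have h3 := Complex.tan_arg (1 - ww x s)
  rw [← Real.arctan_tan h2.1 h2.2, h3, sub_re, sub_im, one_re, one_im, zero_sub, neg_div,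
    Real.arctan_neg]

/-- The logarithmic derivative of the potential. -/
theorem hh_ww {x s : ℝ} (h0 : 0 ≤ x) (h1 : x ≤ 1 / 2) (h : (ww x s).re < 1) :
    hh ((x : ℂ) + s * I) = log (1 - ww x s) - Real.pi * I * ((x : ℂ) + s * I - 1 / 2) := by
  have hpi := Real.pi_pos
  unfold hh
  symm
  have hre : 0 < (1 - ww x s).re := by
    rw [sub_re, one_re]
    linarith
  have hne : (1 - ww x s) ≠ 0 := by
    intro h2
    rw [h2] at hre
    simp at hre
  have him : (log (1 - ww x s) - Real.pi * I * ((x : ℂ) + s * I - 1 / 2)).im =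
      (1 - ww x s).arg + Real.pi * (1 / 2 - x) := by
    rw [sub_im, log_im]
    simp only [mul_re, mul_im, add_re, sub_re, sub_im, add_im, ofReal_re, ofReal_im, I_re, I_im,
      div_ofNat_re, div_ofNat_im, one_re, one_im]
    ring
  have h2 : |(1 - ww x s).arg| < Real.pi / 2 := by
    rw [Complex.abs_arg_lt_pi_div_two_iff]
    exact Or.inl hre
  have h3 := abs_lt.1 h2
  apply eq_log_of
  · rw [exp_sub, exp_log hne, sin_eq_ww]
    have e1 : Real.pi * I * ((x : ℂ) + s * I - 1 / 2) = Real.pi * ((x : ℂ) + s * I) * I -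
        Real.pi / 2 * I := by ring
    rw [e1, exp_sub, exp_pi_div_two_mul_I, exp_neg, div_div_eq_mul_div]
    ring
  · rw [him]
    nlinarith [h3.1]
  · rw [him]
    nlinarith [h3.2]

theorem Lg_ww {x s : ℝ} (h0 : 0 ≤ x) (h1 : x ≤ 1 / 2) (h : (ww x s).re < 1) :
    Lg s x = Real.pi * s + Real.log ‖1 - ww x s‖ := by
  rw [← hh_re', hh_ww h0 h1 h, sub_re, log_re]
  simp only [mul_re, mul_im, add_re, sub_re, sub_im, add_im, ofReal_re, ofReal_im, I_re, I_im,
      div_ofNat_re, div_ofNat_im, one_re, one_im]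
  ring

theorem th_ww {x s : ℝ} (h0 : 0 ≤ x) (h1 : x ≤ 1 / 2) (h : (ww x s).re < 1) :
    (hh ((x : ℂ) + s * I)).im = Real.pi / 2 - (Real.pi * x +
      Real.arctan ((ww x s).im / (1 - (ww x s).re))) := by
  rw [hh_ww h0 h1 h, sub_im, log_im, one_sub_ww_arg h]
  simp only [mul_re, mul_im, add_re, sub_re, sub_im, add_im, ofReal_re, ofReal_im, I_re, I_im,
      div_ofNat_re, div_ofNat_im, one_re, one_im]
  ring

/-- The second derivative. -/
theorem cot_ww {x s : ℝ} (h : (ww x s).re < 1) : Real.pi * cot (Real.pi * ((x : ℂ) + s * I)) =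
    Real.pi * I - 2 * Real.pi * I * (1 - ww x s)⁻¹ := by
  have hne : (1 - ww x s) ≠ 0 := by
    intro h2
    have : (1 - ww x s).re = 0 := by rw [h2]; simp
    rw [sub_re, one_re] at this
    linarith
  have e1 : ww x s = exp (Real.pi * ((x : ℂ) + s * I) * I) * exp (Real.pi * ((x : ℂ) + s * I) * I) := by
    unfold ww
    rw [← exp_add]
    congr 1
    ring
  have e2 : exp (-(Real.pi * ((x : ℂ) + s * I) * I)) * exp (Real.pi * ((x : ℂ) + s * I) * I) = 1 := by
    rw [← exp_add, neg_add_cancel, exp_zero]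
  rw [e1] at hne ⊢
  rw [cot_eq_cos_div_sin]
  unfold Complex.sin Complex.cos
  rw [neg_mul]
  have hQ : exp (-(Real.pi * ((x : ℂ) + s * I) * I)) ≠ 0 := exp_ne_zero _
  generalize exp (-(Real.pi * ((x : ℂ) + s * I) * I)) = P at *
  generalize exp (Real.pi * ((x : ℂ) + s * I) * I) = Q at *
  have hPQ : P - Q = P * (1 - Q * Q) := by linear_combination Q * e2
  have hPQ2 : Q + P = P * (1 + Q * Q) := by linear_combination -Q * e2
  have hd : P - Q ≠ 0 := by rw [hPQ]; exact mul_ne_zero hQ hne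
  have e3 : (1 - Q * Q)⁻¹ * (1 - Q * Q) = 1 := inv_mul_cancel₀ hne
  have hPQ3 : P - Q ≠ 0 := hd
  have e4 : (Q + P) / 2 / ((P - Q) * I / 2) = -I * (1 + Q * Q) * (1 - Q * Q)⁻¹ := by
    rw [div_eq_iff (div_ne_zero (mul_ne_zero hd I_ne_zero) two_ne_zero), hPQ, hPQ2]
    generalize (1 - Q * Q)⁻¹ = R at e3
    linear_combination (P * (1 + Q * Q) / 2 * I ^ 2) * e3 + (P * (1 + Q * Q) / 2) * I_sq
  rw [e4]
  generalize (1 - Q * Q)⁻¹ = R at e3
  linear_combination (Real.pi * I : ℂ) * e3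

theorem cot_re_ww {x s : ℝ} (h : (ww x s).re < 1) :
    (Real.pi * cot (Real.pi * ((x : ℂ) + s * I))).re =
      2 * Real.pi * (ww x s).im / ((1 - (ww x s).re) ^ 2 + (ww x s).im ^ 2) := by
  rw [cot_ww h]
  simp only [sub_re, mul_re, mul_im, inv_re, inv_im, ofReal_re, ofReal_im, I_re, I_im, re_ofNat,
    im_ofNat, normSq_apply, sub_im, one_re, one_im]
  ring

theorem cot_im_ww {x s : ℝ} (h : (ww x s).re < 1) :
    (Real.pi * cot (Real.pi * ((x : ℂ) + s * I))).im =
      Real.pi - 2 * Real.pi * (1 - (ww x s).re) / ((1 - (ww x s).re) ^ 2 + (ww x s).im ^ 2) := by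
  rw [cot_ww h]
  simp only [sub_re, mul_re, mul_im, inv_re, inv_im, ofReal_re, ofReal_im, I_re, I_im, re_ofNat,
    im_ofNat, normSq_apply, sub_im, one_re, one_im]
  ring

end Pool.Agent.S5.Num
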