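import Pool.Agent.H25.RK.DGI
import Pool.Agent.H63.GO.MTaylor
import Pool.Agent.H63.VC4.GaussN
import Pool.Agent.H63.VC4.LaplaceN
import Pool.Agent.S3.Asm.Def
import Pool.Agent.S3.Chain
import Pool.Agent.S3.CritQ
import Pool.Agent.S3.FeL
import Pool.Agent.S5.I.Defs

/-!
# The power series of `Rf`, with an explicit remainder
-/

set_option autoImplicit false

namespace Pool.Agent.S5.Num

open Pool.Agent.H63.VC3 Pool.Agent.H63.VC5 Pool.Agent.S3 Complex MeasureTheory Filter Topology Set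

/-- The series of the dilogarithm. -/
theorem dilog_hasSum {z : ℂ} (h : ‖z‖ < 1) :
    HasSum (fun n : ℕ => z ^ (n + 1) / ((n : ℂ) + 1) ^ 2) (dilog z) := by
  have h1 : HasSum (fun n : ℕ => ∫ t in (0 : ℝ)..1, (t : ℂ) ^ n * z ^ (n + 1) / ((n : ℂ) + 1))
      (∫ t in (0 : ℝ)..1, -(Complex.log (1 - t * z) / t)) := by
    apply intervalIntegral.hasSum_integral_of_dominated_convergence
      (bound := fun n _ => ‖z‖ ^ (n + 1))
    · intro n
      apply Continuous.aestronglyMeasurable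
      fun_prop
    · intro n
      refine Eventually.of_forall fun t ht => ?_
      rw [uIoc_of_le zero_le_one] at ht
      rw [norm_div, norm_mul, norm_pow, norm_pow, norm_real, Real.norm_of_nonneg ht.1.le]
      have e : ‖(n : ℂ) + 1‖ = (n : ℝ) + 1 := by
        have : (n : ℂ) + 1 = (((n : ℝ) + 1 : ℝ) : ℂ) := by push_cast; rfl
        rw [this, norm_real, Real.norm_of_nonneg (by positivity)]
      rw [e]
      have h2 : t ^ n ≤ 1 := pow_le_one₀ ht.1.le ht.2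
      have h3 : (0 : ℝ) ≤ ‖z‖ ^ (n + 1) := by positivity
      have h4 : (0 : ℝ) ≤ t ^ n := pow_nonneg ht.1.le n
      rw [div_le_iff₀ (by positivity)]
      have h5 : (0 : ℝ) ≤ (n : ℝ) := Nat.cast_nonneg n
      nlinarith [mul_le_mul_of_nonneg_right h2 h3, mul_nonneg h3 h5]
    · refine Eventually.of_forall fun t _ => ?_
      exact (summable_nat_add_iff 1).2 (summable_geometric_of_lt_one (norm_nonneg z) h)
    · exact intervalIntegrable_const
    · refine Eventually.of_forall fun t ht => ?_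
      rw [uIoc_of_le zero_le_one] at ht
      have h2 : ‖(t : ℂ) * z‖ < 1 := by
        rw [norm_mul, norm_real, Real.norm_of_nonneg ht.1.le]
        nlinarith [norm_nonneg z, ht.1, ht.2]
      have h3 := Complex.hasSum_taylorSeries_neg_log h2
      have h4 := (hasSum_nat_add_iff' 1).2 h3
      simp only [Finset.range_one, Finset.sum_singleton, pow_zero, Nat.cast_zero, div_zero,
        sub_zero] at h4
      have h5 := h4.mul_right ((t : ℂ)⁻¹)
      have ht0 : (t : ℂ) ≠ 0 := by exact_mod_cast ht.1.ne'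
      have e1 : (fun n : ℕ => (t : ℂ) ^ n * z ^ (n + 1) / ((n : ℂ) + 1)) =
          fun n : ℕ => ((t : ℂ) * z) ^ (n + 1) / ((n + 1 : ℕ) : ℂ) * (t : ℂ)⁻¹ := by
        funext n
        rw [mul_pow, pow_succ (t : ℂ) n]
        push_cast
        field_simp
      have e2 : -(Complex.log (1 - (t : ℂ) * z) / t) = -Complex.log (1 - (t : ℂ) * z) * (t : ℂ)⁻¹ := by
        rw [div_eq_mul_inv]
        ring
      rw [e1, e2]
      exact h5
  have e2 : ∀ n : ℕ, (∫ t in (0 : ℝ)..1, (t : ℂ) ^ n * z ^ (n + 1) / ((n : ℂ) + 1)) =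
      z ^ (n + 1) / ((n : ℂ) + 1) ^ 2 := by
    intro n
    have e3 : ∀ t : ℝ, (t : ℂ) ^ n * z ^ (n + 1) / ((n : ℂ) + 1) =
        ((t ^ n : ℝ) : ℂ) * (z ^ (n + 1) / ((n : ℂ) + 1)) := by
      intro t
      push_cast
      ring
    simp_rw [e3]
    rw [intervalIntegral.integral_mul_const, intervalIntegral.integral_ofReal, integral_pow]
    have h5 : ((n : ℂ) + 1) ≠ 0 := by
      have : ((n + 1 : ℕ) : ℂ) ≠ 0 := Nat.cast_ne_zero.2 (Nat.succ_ne_zero n)
      push_cast at this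
      exact this
    push_cast
    simp only [one_pow, zero_pow (Nat.succ_ne_zero n), sub_zero]
    field_simp
  simp_rw [e2] at h1
  rw [intervalIntegral.integral_neg] at h1
  exact h1

/-- Partial sums of the dilogarithm. -/
noncomputable def ds (N : ℕ) (w : ℂ) : ℂ := ∑ n ∈ Finset.range N, w ^ (n + 1) / ((n : ℂ) + 1) ^ 2

theorem ds_tail (N M : ℕ) (hM : N + 1 ≤ M) (w : ℂ) (h : ‖w‖ ≤ 1) :
    ‖(1 - w) * (ds M w - ds N w) + (1 / ((M : ℂ)) ^ 2) * w ^ (M + 1) -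
      (1 / ((N : ℂ) + 1) ^ 2) * w ^ (N + 1)‖ ≤
      ‖w‖ ^ (N + 1) * (1 / ((N : ℝ) + 1) ^ 2 - 1 / (M : ℝ) ^ 2) := by
  induction M, hM using Nat.le_induction with
  | base =>
    have e : (1 - w) * (ds (N + 1) w - ds N w) + (1 / (((N + 1 : ℕ) : ℂ)) ^ 2) * w ^ (N + 1 + 1) -
      (1 / ((N : ℂ) + 1) ^ 2) * w ^ (N + 1) = 0 := by
      unfold ds
      rw [Finset.sum_range_succ]
      push_cast
      ring
    rw [e]
    push_cast
    simp
  | succ M hM ih =>
    have hM0 : 0 < (M : ℝ) := by exact_mod_cast (by omega : 0 < M)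
    have e : (1 - w) * (ds (M + 1) w - ds N w) + (1 / (((M + 1 : ℕ) : ℂ)) ^ 2) * w ^ (M + 1 + 1) -
        (1 / ((N : ℂ) + 1) ^ 2) * w ^ (N + 1) =
        ((1 - w) * (ds M w - ds N w) + (1 / ((M : ℂ)) ^ 2) * w ^ (M + 1) -
          (1 / ((N : ℂ) + 1) ^ 2) * w ^ (N + 1)) +
        ((1 / ((M : ℂ) + 1) ^ 2 - 1 / (M : ℂ) ^ 2)) * w ^ (M + 1) := by
      unfold ds
      rw [Finset.sum_range_succ]
      push_cast
      ring
    rw [e]
    refine (norm_add_le _ _).trans ?_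
    have e2 : ‖((1 / ((M : ℂ) + 1) ^ 2 - 1 / (M : ℂ) ^ 2)) * w ^ (M + 1)‖ ≤
        ‖w‖ ^ (N + 1) * (1 / (M : ℝ) ^ 2 - 1 / ((M : ℝ) + 1) ^ 2) := by
      have e3 : (1 / ((M : ℂ) + 1) ^ 2 - 1 / (M : ℂ) ^ 2) =
          (((1 / ((M : ℝ) + 1) ^ 2 - 1 / (M : ℝ) ^ 2) : ℝ) : ℂ) := by push_cast; rfl
      rw [norm_mul, e3, norm_real, norm_pow, Real.norm_eq_abs, abs_sub_comm,
        abs_of_nonneg, mul_comm]
      · apply mul_le_mul_of_nonneg_right
        · exact pow_le_pow_of_le_one (norm_nonneg w) h (by omega)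
        · rw [sub_nonneg]
          apply one_div_le_one_div_of_le (by positivity)
          nlinarith
      · rw [sub_nonneg]
        apply one_div_le_one_div_of_le (by positivity)
        nlinarith
    push_cast
    nlinarith [ih, e2]

/-- The remainder of the dilogarithm. -/
theorem dilog_rem {w : ℂ} (h : ‖w‖ < 1) (N : ℕ) :
    ‖1 - w‖ * ‖dilog w - ds N w‖ ≤ 2 * ‖w‖ ^ (N + 1) / ((N : ℝ) + 1) ^ 2 := by
  have h1 := (dilog_hasSum h).tendsto_sum_nat
  have h2 : Tendsto (fun M : ℕ => ‖(1 - w) * (ds M w - ds N w) + (1 / ((M : ℂ)) ^ 2) * w ^ (M + 1) -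
      (1 / ((N : ℂ) + 1) ^ 2) * w ^ (N + 1)‖) atTop
      (𝓝 ‖(1 - w) * (dilog w - ds N w) + 0 * 0 - (1 / ((N : ℂ) + 1) ^ 2) * w ^ (N + 1)‖) := by
    apply Tendsto.norm
    apply Tendsto.sub_const
    apply Tendsto.add
    · exact (h1.sub_const _).const_mul _
    · apply Tendsto.mul
      · have h3 : Tendsto (fun M : ℕ => ((M : ℂ))⁻¹) atTop (𝓝 0) :=
          tendsto_inv_atTop_nhds_zero_nat
        have h4 := h3.pow 2
        simpa using h4
      · have h3 := tendsto_pow_atTop_nhds_zero_of_norm_lt_one h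
        exact (tendsto_add_atTop_iff_nat 1).2 h3
  have h3 : Tendsto (fun M : ℕ => ‖w‖ ^ (N + 1) * (1 / ((N : ℝ) + 1) ^ 2 - 1 / (M : ℝ) ^ 2)) atTop
      (𝓝 (‖w‖ ^ (N + 1) * (1 / ((N : ℝ) + 1) ^ 2 - 0))) := by
    apply Tendsto.const_mul
    apply Tendsto.const_sub
    have h3 : Tendsto (fun M : ℕ => ((M : ℝ))⁻¹) atTop (𝓝 0) :=
      tendsto_inv_atTop_nhds_zero_nat
    have h4 := h3.pow 2
    simpa using h4
  have h4 := le_of_tendsto_of_tendsto h2 h3 (by
    filter_upwards [eventually_ge_atTop (N + 1)] with M hM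
    exact ds_tail N M hM w h.le)
  rw [← norm_mul]
  have h5 : (1 - w) * (dilog w - ds N w) = ((1 - w) * (dilog w - ds N w) + 0 * 0 -
      (1 / ((N : ℂ) + 1) ^ 2) * w ^ (N + 1)) + (1 / ((N : ℂ) + 1) ^ 2) * w ^ (N + 1) := by ring
  rw [h5]
  refine (norm_add_le _ _).trans ?_
  have h6 : ‖(1 / ((N : ℂ) + 1) ^ 2) * w ^ (N + 1)‖ = ‖w‖ ^ (N + 1) * (1 / ((N : ℝ) + 1) ^ 2) := by
    have e3 : (1 / ((N : ℂ) + 1) ^ 2) = (((1 / ((N : ℝ) + 1) ^ 2) : ℝ) : ℂ) := by push_cast; rfl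
    rw [norm_mul, e3, norm_real, norm_pow, Real.norm_of_nonneg (by positivity), mul_comm]
  rw [h6]
  have h7 : 2 * ‖w‖ ^ (N + 1) / ((N : ℝ) + 1) ^ 2 = ‖w‖ ^ (N + 1) * (1 / ((N : ℝ) + 1) ^ 2 - 0) +
      ‖w‖ ^ (N + 1) * (1 / ((N : ℝ) + 1) ^ 2) := by ring
  rw [h7]
  linarith

/-- The variable of the series. -/
noncomputable def ww (x s : ℝ) : ℂ := exp (2 * Real.pi * I * ((x : ℂ) + s * I))

theorem ww_norm (x s : ℝ) : ‖ww x s‖ = Real.exp (-(2 * Real.pi * s)) := by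
  unfold ww
  rw [norm_exp]
  congr 1
  simp only [mul_re, mul_im, add_re, add_im, ofReal_re, ofReal_im, I_re, I_im, re_ofNat, im_ofNat]
  ring

theorem ww_norm_le {x s : ℝ} (hs : 0 ≤ s) : ‖ww x s‖ ≤ 1 := by
  rw [ww_norm, Real.exp_le_one_iff]
  have := Real.pi_pos
  nlinarith [mul_nonneg this.le hs]

/-- The real part of the potential by the dilogarithm. -/
theorem Rf_dilog {x s : ℝ} (hs : 0 < s) : Rf ((x : ℂ) + s * I) =
    Real.pi * s * (x - 1 / 2) - (dilog (ww x s)).im / (2 * Real.pi) := by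
  have hpi := Real.pi_pos
  have him : ((x : ℂ) + s * I).im = s := by simp
  have h1 : fdom ((x : ℂ) + s * I) := Or.inl (by rw [him]; exact hs.ne')
  rw [Rf_eq_re_fe h1, fe, if_pos (by rw [him]; exact hs)]
  have e1 : (-dilog (exp (2 * Real.pi * I * ((x : ℂ) + s * I))) +
      (Real.pi : ℂ) ^ 2 * (((x : ℂ) + s * I) ^ 2 - ((x : ℂ) + s * I) + 1 / 6)) /
      (2 * Real.pi * I) = (((1 / (2 * Real.pi)) : ℝ) : ℂ) * (-I * (-dilog (ww x s) +
      ((Real.pi ^ 2 : ℝ) : ℂ) * (((x : ℂ) + s * I) ^ 2 - ((x : ℂ) + s * I) + 1 / 6))) := by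
    have hpi' : (Real.pi : ℂ) ≠ 0 := ofReal_ne_zero.2 hpi.ne'
    unfold ww
    push_cast
    rw [div_eq_iff (by simp [hpi'])]
    generalize dilog (exp (2 * Real.pi * I * ((x : ℂ) + s * I))) = Z
    generalize ((x : ℂ) + s * I) ^ 2 - ((x : ℂ) + s * I) + 1 / 6 = Y
    have e3 : (1 / (2 * (Real.pi : ℂ))) * (-I * (-Z + (Real.pi : ℂ) ^ 2 * Y)) * (2 * Real.pi * I) =
        (1 / (2 * (Real.pi : ℂ)) * (2 * Real.pi)) * (-(I * I)) * (-Z + (Real.pi : ℂ) ^ 2 * Y) := by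
      ring
    rw [e3, I_mul_I, one_div, inv_mul_cancel₀ (by simp [hpi'])]
    ring
  rw [e1, re_ofReal_mul]
  have e2 : (-I * (-dilog (ww x s) +
      ((Real.pi ^ 2 : ℝ) : ℂ) * (((x : ℂ) + s * I) ^ 2 - ((x : ℂ) + s * I) + 1 / 6))).re =
      -(dilog (ww x s)).im + Real.pi ^ 2 * (2 * x * s - s) := by
    simp only [pow_two, mul_re, mul_im, add_re, add_im, sub_re, sub_im, neg_re, neg_im,
      ofReal_re, ofReal_im, I_re, I_im, div_ofNat_re, div_ofNat_im, one_re, one_im]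
    ring
  rw [e2]
  field_simp
  ring

/-- The truncated series of `Rf`. -/
noncomputable def rs (N : ℕ) (x s : ℝ) : ℝ :=
  Real.pi * s * (x - 1 / 2) - (ds N (ww x s)).im / (2 * Real.pi)

theorem ds_continuous (N : ℕ) : Continuous (ds N) := by
  unfold ds
  fun_prop

theorem ww_continuous (x : ℝ) : Continuous (fun s : ℝ => ww x s) := by
  unfold ww
  fun_prop

theorem rs_continuous (N : ℕ) (x : ℝ) : Continuous (fun s : ℝ => rs N x s) := by
  unfold rs
  have h1 : Continuous (fun s : ℝ => (ds N (ww x s)).im) :=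
    continuous_im.comp ((ds_continuous N).comp (ww_continuous x))
  fun_prop

/-- The truncation error of the series of `Rf`. -/
theorem Rf_series (N : ℕ) {x s : ℝ} (hs : 0 ≤ s) :
    ‖1 - ww x s‖ * |Rf ((x : ℂ) + s * I) - rs N x s| ≤
      ‖ww x s‖ ^ (N + 1) / (Real.pi * ((N : ℝ) + 1) ^ 2) := by
  have hpi := Real.pi_pos
  have key : ∀ s : ℝ, 0 < s → ‖1 - ww x s‖ * |Rf ((x : ℂ) + s * I) - rs N x s| ≤
      ‖ww x s‖ ^ (N + 1) / (Real.pi * ((N : ℝ) + 1) ^ 2) := by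
    intro s hs
    have h1 : ‖ww x s‖ < 1 := by
      rw [ww_norm, Real.exp_lt_one_iff]
      nlinarith [mul_pos hpi hs]
    have h2 := dilog_rem h1 N
    have h3 : |Rf ((x : ℂ) + s * I) - rs N x s| ≤ ‖dilog (ww x s) - ds N (ww x s)‖ / (2 * Real.pi) := by
      rw [Rf_dilog hs, rs]
      have e : Real.pi * s * (x - 1 / 2) - (dilog (ww x s)).im / (2 * Real.pi) -
          (Real.pi * s * (x - 1 / 2) - (ds N (ww x s)).im / (2 * Real.pi)) =
          -((dilog (ww x s) - ds N (ww x s)).im / (2 * Real.pi)) := by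
        rw [sub_im]
        ring
      rw [e, abs_neg, abs_div, abs_of_pos (by positivity : 0 < 2 * Real.pi)]
      apply div_le_div_of_nonneg_right (abs_im_le_norm _) (by positivity)
    calc ‖1 - ww x s‖ * |Rf ((x : ℂ) + s * I) - rs N x s|
        ≤ ‖1 - ww x s‖ * (‖dilog (ww x s) - ds N (ww x s)‖ / (2 * Real.pi)) :=
          mul_le_mul_of_nonneg_left h3 (norm_nonneg _)
      _ = ‖1 - ww x s‖ * ‖dilog (ww x s) - ds N (ww x s)‖ / (2 * Real.pi) := by ring
      _ ≤ (2 * ‖ww x s‖ ^ (N + 1) / ((N : ℝ) + 1) ^ 2) / (2 * Real.pi) :=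
          div_le_div_of_nonneg_right h2 (by positivity)
      _ = ‖ww x s‖ ^ (N + 1) / (Real.pi * ((N : ℝ) + 1) ^ 2) := by
          field_simp
  rcases hs.eq_or_lt with h | h
  · subst h
    have hc1 : Continuous (fun s : ℝ => ‖1 - ww x s‖ * |Rf ((x : ℂ) + s * I) - rs N x s|) := by
      have h1 : Continuous (fun s : ℝ => Rf ((x : ℂ) + s * I)) := Rf_continuous.comp (by fun_prop)
      have h2 := rs_continuous N x
      have h3 := ww_continuous x
      fun_prop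
    have hc2 : Continuous (fun s : ℝ => ‖ww x s‖ ^ (N + 1) / (Real.pi * ((N : ℝ) + 1) ^ 2)) := by
      have h3 := ww_continuous x
      fun_prop
    have t1 := (hc1.tendsto 0).mono_left (nhdsWithin_le_nhds (s := Ioi (0 : ℝ)))
    have t2 := (hc2.tendsto 0).mono_left (nhdsWithin_le_nhds (s := Ioi (0 : ℝ)))
    refine le_of_tendsto_of_tendsto t1 t2 ?_
    filter_upwards [self_mem_nhdsWithin] with s hs
    exact key s hs
  · exact key s h

end Pool.Agent.S5.Num
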