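import Pool.Agent.S5.I.NumDef
import Pool.Agent.S5.I.RfSer

/-!
# Fixed point evaluation of the potential: soundness
-/

set_option autoImplicit false

namespace Pool.Agent.S5.Num

open Complex

/-- The unit. -/
def UU : ℝ := 281474976710656

/-- The offset. -/
def KK : ℝ := 4503599627370496

theorem UU_pos : 0 < UU := by norm_num [UU]

theorem KK_eq : KK = 16 * UU := by norm_num [KK, UU]

theorem fN_eq {α : Type} (f : Nat → α) (n : Nat) : fN f n = f n := by
  cases n <;> rfl

/-- The complex number of a pair. -/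
noncomputable def cx (a b : ℕ) : ℂ := (((a : ℝ) - KK : ℝ) : ℂ) + (((b : ℝ) - KK : ℝ) : ℂ) * I

theorem cx_re (a b : ℕ) : (cx a b).re = (a : ℝ) - KK := by simp [cx]

theorem cx_im (a b : ℕ) : (cx a b).im = (b : ℝ) - KK := by simp [cx]

theorem div_bounds (n : ℕ) {m : ℕ} (hm : 0 < m) :
    (n : ℝ) / m - 1 ≤ ((n / m : ℕ) : ℝ) ∧ ((n / m : ℕ) : ℝ) ≤ (n : ℝ) / m := by
  have hm' : (0 : ℝ) < m := by exact_mod_cast hm
  have h1 := Nat.div_add_mod n m
  have h2 := Nat.mod_lt n hm
  have h3 : (m : ℝ) * ((n / m : ℕ) : ℝ) + ((n % m : ℕ) : ℝ) = n := by exact_mod_cast h1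
  have h4 : ((n % m : ℕ) : ℝ) < m := by exact_mod_cast h2
  have h5 : (0 : ℝ) ≤ ((n % m : ℕ) : ℝ) := Nat.cast_nonneg _
  constructor
  · rw [sub_le_iff_le_add, div_le_iff₀ hm']
    nlinarith
  · rw [le_div_iff₀ hm']
    nlinarith

theorem norm_le_two {z : ℂ} (h1 : |z.re| ≤ 1) (h2 : |z.im| ≤ 1) : ‖z‖ ≤ 2 :=
  (Complex.norm_le_abs_re_add_abs_im z).trans (by linarith)

/-- Products. -/
theorem gr_gi (p q a b : ℕ) {m : ℕ} (hm : 0 < m) (h : ‖cx p q‖ * ‖cx a b‖ ≤ KK * UU * m) :
    ‖cx (gr p q a b m) (gi p q a b m) - cx p q * cx a b / (UU * m)‖ ≤ 2 := by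
  have hm' : (0 : ℝ) < m := by exact_mod_cast hm
  have hU := UU_pos
  have hre : |(cx p q * cx a b).re| ≤ KK * UU * m := by
    refine (abs_re_le_norm _).trans ?_
    rw [norm_mul]
    exact h
  have him : |(cx p q * cx a b).im| ≤ KK * UU * m := by
    refine (abs_im_le_norm _).trans ?_
    rw [norm_mul]
    exact h
  rw [mul_re, cx_re, cx_re, cx_im, cx_im] at hre
  rw [mul_im, cx_re, cx_re, cx_im, cx_im] at him
  have hre' := abs_le.1 hre
  have him' := abs_le.1 him
  -- the real part
  have r1 : ((gr p q a b m : ℕ) : ℝ) - KK ≤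
      (((p : ℝ) - KK) * (a - KK) - (q - KK) * (b - KK)) / (UU * m) ∧
      (((p : ℝ) - KK) * (a - KK) - (q - KK) * (b - KK)) / (UU * m) - 1 ≤
      ((gr p q a b m : ℕ) : ℝ) - KK := by
    have e : gr p q a b m = ((p * a + 4503599627370496 * (q + b) +
        1267650600228229401496703205376 * m) - (q * b + 4503599627370496 * (p + a))) /
        (281474976710656 * m) := rfl
    have hle : q * b + 4503599627370496 * (p + a) ≤ p * a + 4503599627370496 * (q + b) +
        1267650600228229401496703205376 * m := by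
      have : ((q * b + 4503599627370496 * (p + a) : ℕ) : ℝ) ≤
          ((p * a + 4503599627370496 * (q + b) + 1267650600228229401496703205376 * m : ℕ) : ℝ) := by
        push_cast
        simp only [KK, UU] at hre'
        nlinarith [hre'.1]
      exact_mod_cast this
    have hb := div_bounds ((p * a + 4503599627370496 * (q + b) +
        1267650600228229401496703205376 * m) - (q * b + 4503599627370496 * (p + a)))
        (show 0 < 281474976710656 * m by positivity)
    rw [← e, Nat.cast_sub hle] at hb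
    push_cast at hb
    have e2 : ((p : ℝ) * a + 4503599627370496 * (q + b) + 1267650600228229401496703205376 * m -
        (q * b + 4503599627370496 * (p + a))) / (281474976710656 * m) =
        (((p : ℝ) - KK) * (a - KK) - (q - KK) * (b - KK)) / (UU * m) + KK := by
      rw [eq_comm, div_add' _ _ _ (by positivity), div_eq_div_iff (by positivity) (by positivity)]
      simp only [KK, UU]
      ring
    rw [e2] at hb
    constructor <;> linarith [hb.1, hb.2]
  have r2 : ((gi p q a b m : ℕ) : ℝ) - KK ≤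
      (((p : ℝ) - KK) * (b - KK) + (q - KK) * (a - KK)) / (UU * m) ∧
      (((p : ℝ) - KK) * (b - KK) + (q - KK) * (a - KK)) / (UU * m) - 1 ≤
      ((gi p q a b m : ℕ) : ℝ) - KK := by
    have e : gi p q a b m = ((p * b + q * a + (40564819207303340847894502572032 +
        1267650600228229401496703205376 * m)) - 4503599627370496 * ((p + b) + (q + a))) /
        (281474976710656 * m) := rfl
    have hle : 4503599627370496 * ((p + b) + (q + a)) ≤ p * b + q * a +
        (40564819207303340847894502572032 + 1267650600228229401496703205376 * m) := by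
      have : ((4503599627370496 * ((p + b) + (q + a)) : ℕ) : ℝ) ≤
          ((p * b + q * a + (40564819207303340847894502572032 +
            1267650600228229401496703205376 * m) : ℕ) : ℝ) := by
        push_cast
        simp only [KK, UU] at him'
        nlinarith [him'.1]
      exact_mod_cast this
    have hb := div_bounds ((p * b + q * a + (40564819207303340847894502572032 +
        1267650600228229401496703205376 * m)) - 4503599627370496 * ((p + b) + (q + a)))
        (show 0 < 281474976710656 * m by positivity)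
    rw [← e, Nat.cast_sub hle] at hb
    push_cast at hb
    have e2 : ((p : ℝ) * b + q * a + (40564819207303340847894502572032 +
        1267650600228229401496703205376 * m) - 4503599627370496 * ((p + b) + (q + a))) /
        (281474976710656 * m) =
        (((p : ℝ) - KK) * (b - KK) + (q - KK) * (a - KK)) / (UU * m) + KK := by
      rw [eq_comm, div_add' _ _ _ (by positivity), div_eq_div_iff (by positivity) (by positivity)]
      simp only [KK, UU]
      ring
    rw [e2] at hb
    constructor <;> linarith [hb.1, hb.2]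
  have e3 : (cx p q * cx a b / (UU * m) : ℂ) =
      (((1 / (UU * m) : ℝ)) : ℂ) * (cx p q * cx a b) := by
    push_cast
    ring
  apply norm_le_two
  · rw [sub_re, e3, re_ofReal_mul, cx_re, mul_re, cx_re, cx_re, cx_im, cx_im]
    rw [show 1 / (UU * m) * (((p : ℝ) - KK) * (a - KK) - (q - KK) * (b - KK)) =
      (((p : ℝ) - KK) * (a - KK) - (q - KK) * (b - KK)) / (UU * m) by ring]
    rw [abs_le]
    constructor <;> linarith [r1.1, r1.2]
  · rw [sub_im, e3, im_ofReal_mul, cx_im, mul_im, cx_re, cx_re, cx_im, cx_im]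
    rw [show 1 / (UU * m) * (((p : ℝ) - KK) * (b - KK) + (q - KK) * (a - KK)) =
      (((p : ℝ) - KK) * (b - KK) + (q - KK) * (a - KK)) / (UU * m) by ring]
    rw [abs_le]
    constructor <;> linarith [r2.1, r2.2]

/-- The approximation relation. -/
def Ap (w : ℂ) (a b : ℕ) (e : ℝ) : Prop := ‖w * UU - cx a b‖ ≤ e

theorem Ap.norm_le {w : ℂ} {a b : ℕ} {e : ℝ} (h : Ap w a b e) : ‖cx a b‖ ≤ ‖w‖ * UU + e := by
  have h1 : cx a b = w * UU - (w * UU - cx a b) := by ring
  rw [h1]
  refine (norm_sub_le _ _).trans ?_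
  rw [norm_mul, norm_real, Real.norm_of_nonneg UU_pos.le]
  have := h
  unfold Ap at this
  linarith

theorem Ap.mono {w : ℂ} {a b : ℕ} {e e' : ℝ} (h : Ap w a b e) (h' : e ≤ e') : Ap w a b e' :=
  h.trans h'

/-- Products of approximations. -/
theorem Ap.mul {w v : ℂ} {p q a b : ℕ} {e e' : ℝ} (h : Ap w p q e) (h' : Ap v a b e')
    {m : ℕ} (hm : 0 < m) (hw : ‖w‖ ≤ 1) (hv : ‖v‖ ≤ 2) (he : e ≤ UU) (he' : e' ≤ UU) :
    Ap (w * v / m) (gr p q a b m) (gi p q a b m) ((e' + e * (‖v‖ + e' / UU)) / m + 2) := by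
  have hm' : (0 : ℝ) < m := by exact_mod_cast hm
  have hm1 : (1 : ℝ) ≤ m := by exact_mod_cast hm
  have hU := UU_pos
  have n1 := h.norm_le
  have n2 := h'.norm_le
  have e0 : 0 ≤ e := (norm_nonneg _).trans h
  have e0' : 0 ≤ e' := (norm_nonneg _).trans h'
  have hw0 := norm_nonneg w
  have hv0 := norm_nonneg v
  have n3 : ‖cx p q‖ * ‖cx a b‖ ≤ KK * UU * m := by
    have h1 : ‖cx p q‖ ≤ 2 * UU := by nlinarith
    have h2 : ‖cx a b‖ ≤ 3 * UU := by nlinarith
    have h3 : ‖cx p q‖ * ‖cx a b‖ ≤ (2 * UU) * (3 * UU) :=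
      mul_le_mul h1 h2 (norm_nonneg _) (by positivity)
    rw [KK_eq]
    nlinarith [mul_pos hU hU, mul_nonneg (mul_nonneg hU.le hU.le) (sub_nonneg.2 hm1)]
  have h1 := gr_gi p q a b hm n3
  unfold Ap
  have hUc : (UU : ℂ) ≠ 0 := ofReal_ne_zero.2 hU.ne'
  have hmc : (m : ℂ) ≠ 0 := Nat.cast_ne_zero.2 hm.ne'
  have e1 : w * v / m * UU - cx (gr p q a b m) (gi p q a b m) =
      -(cx (gr p q a b m) (gi p q a b m) - cx p q * cx a b / (UU * m)) +
      (((1 / m : ℝ)) : ℂ) * (w * (v * UU - cx a b) + (w * UU - cx p q) *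
        (cx a b * (((1 / UU : ℝ)) : ℂ))) := by
    push_cast
    field_simp
    ring
  rw [e1]
  refine (norm_add_le _ _).trans ?_
  rw [norm_neg, norm_mul, norm_real, Real.norm_of_nonneg (by positivity)]
  have h2 : ‖w * (v * UU - cx a b) + (w * UU - cx p q) * (cx a b * (((1 / UU : ℝ)) : ℂ))‖ ≤
      e' + e * (‖v‖ + e' / UU) := by
    refine (norm_add_le _ _).trans ?_
    rw [norm_mul, norm_mul, norm_mul, norm_real, Real.norm_of_nonneg (by positivity)]
    apply add_le_add
    · have h3 : ‖w‖ * ‖v * UU - cx a b‖ ≤ 1 * e' :=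
        mul_le_mul hw h' (norm_nonneg _) zero_le_one
      linarith
    · apply mul_le_mul h _ (by positivity) e0
      rw [mul_one_div, div_le_iff₀ hU, add_mul, div_mul_cancel₀ _ hU.ne']
      exact n2
  have h3 : 1 / (m : ℝ) * ‖w * (v * UU - cx a b) + (w * UU - cx p q) *
      (cx a b * (((1 / UU : ℝ)) : ℂ))‖ ≤ (e' + e * (‖v‖ + e' / UU)) / m := by
    rw [one_div, inv_mul_eq_div]
    exact div_le_div_of_nonneg_right h2 hm'.le
  linarith

end Pool.Agent.S5.Num
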