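import Pool.Agent.S5.I.NumLd
import Pool.Agent.S5.I.NumSnd

/-!
# Fixed point evaluation of the logarithm and of the arctangent: soundness
-/

set_option autoImplicit false

namespace Pool.Agent.S5.Num

/-- The Horner scheme. -/
noncomputable def Tr (ρ : ℝ) : ℕ → ℝ → ℝ
  | 0, v => v
  | (k + 1), v => Tr ρ k (1 / (2 * k + 1) + ρ * v)

theorem Tr_eq (ρ : ℝ) (n : ℕ) (v : ℝ) :
    Tr ρ n v = ∑ k ∈ Finset.range n, ρ ^ k / (2 * k + 1) + ρ ^ n * v := by
  induction n generalizing v with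
  | zero => simp [Tr]
  | succ n ih =>
    rw [Tr, ih, Finset.sum_range_succ]
    ring

theorem U_div_bounds (k : ℕ) : UU * (1 / (2 * (k : ℝ) + 1)) - 1 ≤
    ((Nat.div 281474976710656 (Nat.succ (Nat.mul 2 k)) : ℕ) : ℝ) ∧
    ((Nat.div 281474976710656 (Nat.succ (Nat.mul 2 k)) : ℕ) : ℝ) ≤ UU * (1 / (2 * (k : ℝ) + 1)) := by
  have h := div_bounds 281474976710656 (Nat.succ_pos (Nat.mul 2 k))
  have e : (((Nat.succ (Nat.mul 2 k) : ℕ)) : ℝ) = 2 * k + 1 := by
    rw [mul_eq']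
    push_cast
    ring
  rw [e] at h
  have e2 : ((281474976710656 : ℕ) : ℝ) / (2 * (k : ℝ) + 1) = UU * (1 / (2 * (k : ℝ) + 1)) := by
    unfold UU
    push_cast
    ring
  rw [e2] at h
  exact h

theorem mul_div_bounds (a b : ℕ) : (a : ℝ) * b / UU - 1 ≤
    ((Nat.div (Nat.mul a b) 281474976710656 : ℕ) : ℝ) ∧
    ((Nat.div (Nat.mul a b) 281474976710656 : ℕ) : ℝ) ≤ (a : ℝ) * b / UU := by
  have h := div_bounds (a * b) (show 0 < 281474976710656 by norm_num)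
  have e2 : ((a * b : ℕ) : ℝ) / ((281474976710656 : ℕ) : ℝ) = (a : ℝ) * b / UU := by
    unfold UU
    push_cast
    ring
  rw [e2] at h
  exact h

/-- Error of a product. -/
theorem prod_err {r a ρ v e e' : ℝ} (h : |r - UU * ρ| ≤ e) (h' : |a - UU * v| ≤ e')
    (hρ0 : 0 ≤ ρ) (hv0 : 0 ≤ v) (he : e ≤ 1000) (he' : e' ≤ 1000) :
    |r * a / UU - UU * (ρ * v)| ≤ e * v + e' * ρ + 1 / 100000 := by
  have hU := UU_pos
  have e0 : 0 ≤ e := (abs_nonneg _).trans h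
  have e0' : 0 ≤ e' := (abs_nonneg _).trans h'
  have e1 : r * a / UU - UU * (ρ * v) = (r - UU * ρ) * v + (a - UU * v) * ρ +
      (r - UU * ρ) * (a - UU * v) / UU := by
    field_simp
    ring
  rw [e1]
  have h1 : |(r - UU * ρ) * v| ≤ e * v := by
    rw [abs_mul, abs_of_nonneg hv0]
    exact mul_le_mul_of_nonneg_right h hv0
  have h2 : |(a - UU * v) * ρ| ≤ e' * ρ := by
    rw [abs_mul, abs_of_nonneg hρ0]
    exact mul_le_mul_of_nonneg_right h' hρ0
  have h3 : |(r - UU * ρ) * (a - UU * v) / UU| ≤ 1 / 100000 := by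
    rw [abs_div, abs_of_pos hU, abs_mul, div_le_iff₀ hU]
    have := mul_le_mul h h' (abs_nonneg _) e0
    have := mul_le_mul he he' e0' (by norm_num : (0 : ℝ) ≤ 1000)
    have h5 : (1000 : ℝ) * 1000 ≤ 1 / 100000 * UU := by norm_num [UU]
    linarith
  have h4 := abs_add_three ((r - UU * ρ) * v) ((a - UU * v) * ρ)
    ((r - UU * ρ) * (a - UU * v) / UU)
  linarith

theorem hA_sound {r2 : ℕ} {ρ : ℝ} (hρ0 : 0 ≤ ρ) (hρ : ρ ≤ 1 / 4) (hr : |(r2 : ℝ) - UU * ρ| ≤ 1)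
    (n : ℕ) {a : ℕ} {v : ℝ} (hv0 : 0 ≤ v) (hv : v ≤ 2) (ha : |(a : ℝ) - UU * v| ≤ 6) :
    |((hA r2 n a : ℕ) : ℝ) - UU * Tr ρ n v| ≤ 6 := by
  induction n generalizing a v with
  | zero =>
    rw [hA_zero, Tr]
    exact ha
  | succ k ih =>
    rw [hA_succ, Tr]
    have hk : (0 : ℝ) ≤ k := Nat.cast_nonneg k
    have h1 : 1 / (2 * (k : ℝ) + 1) ≤ 1 := by
      rw [div_le_iff₀ (by linarith)]
      linarith
    have h10 : 0 ≤ 1 / (2 * (k : ℝ) + 1) := by positivity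
    have h2 : 0 ≤ ρ * v := mul_nonneg hρ0 hv0
    have h3 : ρ * v ≤ 1 / 4 * 2 := mul_le_mul hρ hv hv0 (by norm_num)
    apply ih
    · linarith
    · linarith
    · rw [add_eq', Nat.cast_add]
      have b1 := U_div_bounds k
      have b2 := mul_div_bounds r2 a
      have b3 := abs_le.1 (prod_err hr ha hρ0 hv0 (by norm_num) (by norm_num))
      rw [mul_add, abs_le]
      constructor <;> linarith [b1.1, b1.2, b2.1, b2.2, b3.1, b3.2]

theorem hC_sound {r2 : ℕ} {ρ : ℝ} (hρ0 : 0 ≤ ρ) (hρ : ρ ≤ 1 / 4) (hr : |(r2 : ℝ) - UU * ρ| ≤ 1)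
    (n : ℕ) (hn : n ≤ 100) {a : ℕ} {v : ℝ} (hv0 : 0 ≤ v) (hv : v ≤ 1 / (2 * n + 1))
    (ha : |(a : ℝ) - UU * v| ≤ 6) :
    |((hC r2 n a : ℕ) : ℝ) - UU * Tr (-ρ) n v| ≤ 6 := by
  induction n generalizing a v with
  | zero =>
    rw [hC_zero, Tr]
    exact ha
  | succ k ih =>
    rw [hC_succ, Tr]
    have hk : (0 : ℝ) ≤ k := Nat.cast_nonneg k
    have hk2 : (k : ℝ) ≤ 99 := by exact_mod_cast (by omega : k ≤ 99)
    have h1 : 1 / (2 * (k : ℝ) + 1) ≤ 1 := by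
      rw [div_le_iff₀ (by linarith)]
      linarith
    have h11 : 1 / 199 ≤ 1 / (2 * (k : ℝ) + 1) := by
      apply one_div_le_one_div_of_le (by linarith)
      linarith
    have h10 : 0 ≤ 1 / (2 * (k : ℝ) + 1) := by positivity
    have hv2 : v ≤ 1 / (2 * (k : ℝ) + 1) := by
      refine hv.trans ?_
      apply one_div_le_one_div_of_le (by linarith)
      push_cast
      linarith
    have h2 : 0 ≤ ρ * v := mul_nonneg hρ0 hv0
    have h3 : ρ * v ≤ 1 / 4 * (1 / (2 * (k : ℝ) + 1)) := mul_le_mul hρ hv2 hv0 (by norm_num)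
    have b1 := U_div_bounds k
    have b2 := mul_div_bounds r2 a
    have b3 := abs_le.1 (prod_err hr ha hρ0 hv0 (by norm_num) (by norm_num))
    have hle : Nat.div (Nat.mul r2 a) 281474976710656 ≤
        Nat.div 281474976710656 (Nat.succ (Nat.mul 2 k)) := by
      have : ((Nat.div (Nat.mul r2 a) 281474976710656 : ℕ) : ℝ) ≤
          ((Nat.div 281474976710656 (Nat.succ (Nat.mul 2 k)) : ℕ) : ℝ) := by
        have h5 : UU * (1 / 199) ≤ UU * (1 / (2 * (k : ℝ) + 1)) :=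
          mul_le_mul_of_nonneg_left h11 UU_pos.le
        have h6 : UU * (ρ * v) ≤ UU * (1 / 4 * (1 / (2 * (k : ℝ) + 1))) :=
          mul_le_mul_of_nonneg_left h3 UU_pos.le
        have h7 : (1000 : ℝ) ≤ UU * (1 / 199) := by norm_num [UU]
        linarith [b1.1, b2.2, b3.2]
      exact_mod_cast this
    apply ih (by omega)
    · linarith
    · linarith
    · rw [sub_eq', Nat.cast_sub hle]
      clear hle
      rw [mul_add, neg_mul, mul_neg, abs_le]
      constructor <;> linarith [b1.1, b1.2, b2.1, b2.2, b3.1, b3.2]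

/-- The series of the area hyperbolic tangent. -/
theorem atanh_rem' {x : ℝ} (h0 : 0 ≤ x) (h1 : x ≤ 1 / 2) :
    |1 / 2 * Real.log ((1 + x) / (1 - x)) - x * Tr (x ^ 2) 25 0| ≤ 2 * x ^ 51 := by
  have hx : |x| < 1 := by rw [abs_of_nonneg h0]; linarith
  have h2 := (Real.hasSum_log_sub_log_of_abs_lt_one hx).mul_left (1 / 2)
  have h3 := (hasSum_nat_add_iff' 25).2 h2
  have e1 : Real.log (1 + x) - Real.log (1 - x) = Real.log ((1 + x) / (1 - x)) := by
    rw [Real.log_div (by linarith) (by linarith)]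
  rw [e1] at h3
  have e2 : (∑ i ∈ Finset.range 25, 1 / 2 * ((2 : ℝ) * (1 / (2 * i + 1)) * x ^ (2 * i + 1))) =
      x * Tr (x ^ 2) 25 0 := by
    rw [Tr_eq, mul_zero, add_zero, Finset.mul_sum]
    apply Finset.sum_congr rfl
    intro i _
    rw [pow_succ, pow_mul]
    ring
  rw [e2] at h3
  have hg : HasSum (fun n : ℕ => (x ^ 2) ^ n * (x ^ 51)) ((1 - x ^ 2)⁻¹ * x ^ 51) := by
    apply HasSum.mul_right
    apply hasSum_geometric_of_lt_one (by positivity)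
    nlinarith
  have h4 := h3.norm_le_of_bounded hg (fun n => by
    rw [Real.norm_of_nonneg (by positivity)]
    have e3 : 1 / 2 * ((2 : ℝ) * (1 / (2 * ((n + 25 : ℕ) : ℝ) + 1)) * x ^ (2 * (n + 25) + 1)) =
        (x ^ 2) ^ n * x ^ 51 / (2 * ((n + 25 : ℕ) : ℝ) + 1) := by
      rw [← pow_mul, ← pow_add, show 2 * (n + 25) + 1 = 2 * n + 51 by ring]
      ring
    rw [e3]
    apply div_le_self (by positivity)
    have : (0 : ℝ) ≤ ((n + 25 : ℕ) : ℝ) := Nat.cast_nonneg _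
    linarith)
  rw [Real.norm_eq_abs] at h4
  refine h4.trans ?_
  have h5 : (1 - x ^ 2)⁻¹ ≤ 2 := by
    rw [inv_le_comm₀ (by nlinarith) (by norm_num)]
    nlinarith
  exact mul_le_mul_of_nonneg_right h5 (pow_nonneg h0 51)

/-- The series of the area hyperbolic tangent. -/
theorem atanh_rem {x : ℝ} (h0 : 0 ≤ x) (h1 : x ≤ 1 / 2) :
    |1 / 2 * Real.log ((1 + x) / (1 - x)) - x * Tr (x ^ 2) 25 0| ≤ 1 / (2 * UU) := by
  refine (atanh_rem' h0 h1).trans ?_
  have h6 : x ^ 51 ≤ (1 / 2) ^ 51 := pow_le_pow_left₀ h0 h1 51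
  have h7 : 2 * x ^ 51 ≤ 2 * (1 / 2) ^ 51 := mul_le_mul_of_nonneg_left h6 (by norm_num)
  refine h7.trans ?_
  norm_num [UU]

/-- The logarithm of `2`. -/
theorem log_two_U : |UU * Real.log 2 - 195103586505167| ≤ 1 / 2 := by
  have h := atanh_rem' (x := 1 / 3) (by norm_num) (by norm_num)
  have e : (1 + 1 / 3 : ℝ) / (1 - 1 / 3) = 2 := by norm_num
  rw [e, Tr_eq] at h
  simp only [Finset.sum_range_succ, Finset.sum_range_zero] at h
  norm_num at h
  have h' := abs_le.1 h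
  rw [abs_le]
  unfold UU
  constructor <;> linarith [h'.1, h'.2]

/-- The series of the arctangent. -/
theorem arctan_rem {x : ℝ} (h0 : 0 ≤ x) (h1 : x ≤ 1 / 2) :
    |Real.arctan x - x * Tr (-x ^ 2) 25 0| ≤ 1 / (2 * UU) := by
  have hx : ‖x‖ < 1 := by rw [Real.norm_eq_abs, abs_of_nonneg h0]; linarith
  have h2 := Real.hasSum_arctan hx
  have h3 := (hasSum_nat_add_iff' 25).2 h2
  have e2 : (∑ i ∈ Finset.range 25, (-1 : ℝ) ^ i * x ^ (2 * i + 1) / ((2 * i + 1 : ℕ) : ℝ)) =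
      x * Tr (-x ^ 2) 25 0 := by
    rw [Tr_eq, mul_zero, add_zero, Finset.mul_sum]
    apply Finset.sum_congr rfl
    intro i _
    rw [pow_succ, pow_mul, neg_pow (x ^ 2)]
    push_cast
    ring
  rw [e2] at h3
  have hg : HasSum (fun n : ℕ => (x ^ 2) ^ n * (x ^ 51)) ((1 - x ^ 2)⁻¹ * x ^ 51) := by
    apply HasSum.mul_right
    apply hasSum_geometric_of_lt_one (by positivity)
    nlinarith
  have h4 := h3.norm_le_of_bounded hg (fun n => by
    rw [norm_div, norm_mul, norm_pow, norm_neg, norm_one, one_pow, one_mul,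
      Real.norm_of_nonneg (by positivity), Real.norm_of_nonneg (by positivity),
      show 2 * (n + 25) + 1 = 2 * n + 51 by ring, pow_add, pow_mul]
    apply div_le_self (by positivity)
    have : (0 : ℝ) ≤ (n : ℝ) := Nat.cast_nonneg _
    push_cast
    linarith)
  rw [Real.norm_eq_abs] at h4
  refine h4.trans ?_
  have h5 : (1 - x ^ 2)⁻¹ ≤ 2 := by
    rw [inv_le_comm₀ (by nlinarith) (by norm_num)]
    nlinarith
  have h6 : x ^ 51 ≤ (1 / 2) ^ 51 := pow_le_pow_left₀ h0 h1 51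
  have h7 : (1 - x ^ 2)⁻¹ * x ^ 51 ≤ 2 * (1 / 2) ^ 51 := by
    exact mul_le_mul h5 h6 (pow_nonneg h0 51) (by norm_num)
  refine h7.trans ?_
  norm_num [UU]

theorem Tr_bound {x : ℝ} (h0 : 0 ≤ x) (h1 : x ≤ 1 / 4) : 0 ≤ Tr x 25 0 ∧ Tr x 25 0 ≤ 2 := by
  have key : ∀ n : ℕ, ∀ v : ℝ, 0 ≤ v → v ≤ 2 → 0 ≤ Tr x n v ∧ Tr x n v ≤ 2 := by
    intro n
    induction n with
    | zero => intro v hv0 hv; exact ⟨hv0, hv⟩
    | succ n ih =>
      intro v hv0 hv
      rw [Tr]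
      have hk : (0 : ℝ) ≤ n := Nat.cast_nonneg n
      have h2 : 1 / (2 * (n : ℝ) + 1) ≤ 1 := by
        rw [div_le_iff₀ (by linarith)]
        linarith
      have h10 : 0 ≤ 1 / (2 * (n : ℝ) + 1) := by positivity
      have h3 : 0 ≤ x * v := mul_nonneg h0 hv0
      have h4 : x * v ≤ 1 / 4 * 2 := mul_le_mul h1 hv hv0 (by norm_num)
      apply ih <;> linarith
  exact key 25 0 le_rfl (by norm_num)

theorem Tr_bound_neg {x : ℝ} (h0 : 0 ≤ x) (h1 : x ≤ 1 / 4) :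
    0 ≤ Tr (-x) 25 0 ∧ Tr (-x) 25 0 ≤ 2 := by
  have key : ∀ n : ℕ, ∀ v : ℝ, 0 ≤ v → v ≤ 1 / (2 * n + 1) → 0 ≤ Tr (-x) n v ∧ Tr (-x) n v ≤ 2 := by
    intro n
    induction n with
    | zero => intro v hv0 hv; norm_num at hv; exact ⟨hv0, by rw [Tr]; linarith⟩
    | succ n ih =>
      intro v hv0 hv
      rw [Tr]
      have hk : (0 : ℝ) ≤ n := Nat.cast_nonneg n
      have hv2 : v ≤ 1 / (2 * (n : ℝ) + 1) := by
        refine hv.trans ?_
        apply one_div_le_one_div_of_le (by linarith)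
        push_cast
        linarith
      have h10 : 0 ≤ 1 / (2 * (n : ℝ) + 1) := by positivity
      have h3 : 0 ≤ x * v := mul_nonneg h0 hv0
      have h4 : x * v ≤ 1 / 4 * (1 / (2 * (n : ℝ) + 1)) := mul_le_mul h1 hv2 hv0 (by norm_num)
      apply ih <;> linarith
  exact key 25 0 le_rfl (by positivity)

/-- Soundness of `aT`. -/
theorem aT_sound {r : ℕ} {x : ℝ} (h0 : 0 ≤ x) (h1 : x ≤ 1 / 2) (hr : (r : ℝ) = UU * x) :
    |((aT r : ℕ) : ℝ) - UU * (1 / 2 * Real.log ((1 + x) / (1 - x)))| ≤ 5 := by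
  have hx2 : x ^ 2 ≤ 1 / 4 := by nlinarith
  have b1 := mul_div_bounds r r
  have e1 : (r : ℝ) * r / UU = UU * x ^ 2 := by
    rw [hr]
    have := UU_pos.ne'
    field_simp
  rw [e1] at b1
  have h2 := hA_sound (r2 := Nat.div (Nat.mul r r) 281474976710656) (sq_nonneg x) hx2
    (by rw [abs_le]; constructor <;> linarith [b1.1, b1.2]) 25 (a := 0) (v := 0) le_rfl
    (by norm_num) (by norm_num)
  have h3 := mul_div_bounds r (hA (Nat.div (Nat.mul r r) 281474976710656) 25 0)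
  have h4 := atanh_rem h0 h1
  have ht := Tr_bound (sq_nonneg x) hx2
  have h5 := prod_err (e := 0) (r := (r : ℝ)) (ρ := x) (by rw [hr]; simp) h2 h0 ht.1 (by norm_num)
    (by norm_num)
  have h6 : |UU * (1 / 2 * Real.log ((1 + x) / (1 - x))) - UU * (x * Tr (x ^ 2) 25 0)| ≤ 1 / 2 := by
    rw [← mul_sub, abs_mul, abs_of_pos UU_pos]
    have := mul_le_mul_of_nonneg_left h4 UU_pos.le
    refine this.trans (le_of_eq ?_)
    have := UU_pos.ne'
    field_simp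
  have a5 := abs_le.1 h5
  have a6 := abs_le.1 h6
  unfold aT
  rw [abs_le]
  constructor <;> linarith [h3.1, h3.2, a5.1, a5.2, a6.1, a6.2]

/-- Soundness of `aC`. -/
theorem aC_sound {r : ℕ} {x : ℝ} (h0 : 0 ≤ x) (h1 : x ≤ 1 / 2) (hr : (r : ℝ) = UU * x) :
    |((aC r : ℕ) : ℝ) - UU * Real.arctan x| ≤ 5 := by
  have hx2 : x ^ 2 ≤ 1 / 4 := by nlinarith
  have b1 := mul_div_bounds r r
  have e1 : (r : ℝ) * r / UU = UU * x ^ 2 := by
    rw [hr]
    have := UU_pos.ne'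
    field_simp
  rw [e1] at b1
  have h2 := hC_sound (r2 := Nat.div (Nat.mul r r) 281474976710656) (sq_nonneg x) hx2
    (by rw [abs_le]; constructor <;> linarith [b1.1, b1.2]) 25 (by norm_num) (a := 0) (v := 0)
    le_rfl (by positivity) (by norm_num)
  have h3 := mul_div_bounds r (hC (Nat.div (Nat.mul r r) 281474976710656) 25 0)
  have h4 := arctan_rem h0 h1
  have ht := Tr_bound_neg (sq_nonneg x) hx2
  have h5 := prod_err (e := 0) (r := (r : ℝ)) (ρ := x) (by rw [hr]; simp) h2 h0 ht.1 (by norm_num)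
    (by norm_num)
  have h6 : |UU * Real.arctan x - UU * (x * Tr (-x ^ 2) 25 0)| ≤ 1 / 2 := by
    rw [← mul_sub, abs_mul, abs_of_pos UU_pos]
    have := mul_le_mul_of_nonneg_left h4 UU_pos.le
    refine this.trans (le_of_eq ?_)
    have := UU_pos.ne'
    field_simp
  have a5 := abs_le.1 h5
  have a6 := abs_le.1 h6
  unfold aC
  rw [abs_le]
  constructor <;> linarith [h3.1, h3.2, a5.1, a5.2, a6.1, a6.2]

end Pool.Agent.S5.Num
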