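import Pool.Agent.S5.I.NumLa

/-!
# Errors of angle and norm
-/

set_option autoImplicit false

namespace Pool.Agent.S5.Num

/-- The error of angle and norm. -/
theorem angle_err {A B a b e M : ℝ} (hA : 0 < A) (hB : 0 ≤ B) (ha : 0 < a) (hb : 0 ≤ b)
    (he : 0 < e) (hM : e < M) (hM2 : M ^ 2 ≤ a ^ 2 + b ^ 2)
    (h : (A - a) ^ 2 + (B - b) ^ 2 ≤ e ^ 2) :
    |Real.arctan (B / A) - Real.arctan (b / a)| ≤ e / (M - e) := by
  set n := √(a ^ 2 + b ^ 2) with hn
  have hn2 : n ^ 2 = a ^ 2 + b ^ 2 := Real.sq_sqrt (by positivity)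
  have hn0 : 0 ≤ n := Real.sqrt_nonneg _
  have hMn : M ≤ n := by
    by_contra hc
    push Not at hc
    nlinarith
  have h1 := Real.arctan_add (x := B / A) (y := -(b / a)) (by
    have h2 : 0 ≤ B / A := by positivity
    have h3 : 0 ≤ b / a := by positivity
    nlinarith [mul_nonneg h2 h3])
  rw [Real.arctan_neg] at h1
  have h4 : (B / A + -(b / a)) / (1 - B / A * -(b / a)) = (B * a - b * A) / (A * a + B * b) := by
    have hAa : A * a ≠ 0 := (mul_pos hA ha).ne'
    have e1 : B / A + -(b / a) = (B * a - b * A) / (A * a) := by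
      field_simp
      ring
    have e2 : 1 - B / A * -(b / a) = (A * a + B * b) / (A * a) := by
      field_simp
      ring
    rw [e1, e2, div_div_div_cancel_right₀ hAa]
  have h5 : |B * a - b * A| ≤ e * n := by
    apply abs_le_of_sq_le_sq _ (by positivity)
    rw [mul_pow, hn2]
    have e1 : B * a - b * A = (B - b) * a - b * (A - a) := by ring
    rw [e1]
    nlinarith [sq_nonneg ((B - b) * b + (A - a) * a), sq_nonneg a, sq_nonneg b,
      mul_nonneg (sub_nonneg.2 h) (by positivity : 0 ≤ a ^ 2 + b ^ 2)]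
  have h6 : n ^ 2 - e * n ≤ A * a + B * b := by
    have e1 : A * a + B * b = n ^ 2 + ((A - a) * a + (B - b) * b) := by rw [hn2]; ring
    have h7 : |(A - a) * a + (B - b) * b| ≤ e * n := by
      apply abs_le_of_sq_le_sq _ (by positivity)
      rw [mul_pow, hn2]
      nlinarith [sq_nonneg ((A - a) * b - (B - b) * a),
        mul_nonneg (sub_nonneg.2 h) (by positivity : 0 ≤ a ^ 2 + b ^ 2)]
    linarith [(abs_le.1 h7).1]
  have hne : 0 < n - e := by linarith
  have hn1 : 0 < n := by linarith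
  have h8 : |(B * a - b * A) / (A * a + B * b)| ≤ e / (M - e) := by
    have h9 : 0 < A * a + B * b := by positivity
    rw [abs_div, abs_of_pos h9, div_le_div_iff₀ h9 (by linarith)]
    have h10 : |B * a - b * A| * (M - e) ≤ e * n * (M - e) :=
      mul_le_mul_of_nonneg_right h5 (by linarith)
    have h11 : e * (n * (M - e)) ≤ e * (n ^ 2 - e * n) := by
      apply mul_le_mul_of_nonneg_left _ he.le
      nlinarith
    nlinarith
  have e2 : Real.arctan (B / A) - Real.arctan (b / a) = Real.arctan ((B * a - b * A) / (A * a + B * b)) := by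
    rw [← h4, ← h1]
    ring
  rw [e2]
  refine le_trans ?_ h8
  rcases le_total 0 ((B * a - b * A) / (A * a + B * b)) with h | h
  · have h12 := arctan_lip h
    rw [Real.arctan_zero, sub_zero, sub_zero] at h12
    rw [abs_of_nonneg h, abs_of_nonneg (Real.arctan_nonneg.2 h)]
    exact h12
  · have h12 := arctan_lip h
    rw [Real.arctan_zero, zero_sub, zero_sub] at h12
    rw [abs_of_nonpos h, abs_of_nonpos (by
      have := Real.arctan_strictMono.monotone h
      rwa [Real.arctan_zero] at this)]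
    exact h12

theorem norm_err {A B a b e M : ℝ} 
    (he : 0 < e) (hM : e < M) (hM2 : M ^ 2 ≤ a ^ 2 + b ^ 2)
    (h : (A - a) ^ 2 + (B - b) ^ 2 ≤ e ^ 2) :
    |Real.log √(A ^ 2 + B ^ 2) - Real.log √(a ^ 2 + b ^ 2)| ≤ e / (M - e) := by
  set n := √(a ^ 2 + b ^ 2) with hn
  set R := √(A ^ 2 + B ^ 2) with hR
  have hn2 : n ^ 2 = a ^ 2 + b ^ 2 := Real.sq_sqrt (by positivity)
  have hR2 : R ^ 2 = A ^ 2 + B ^ 2 := Real.sq_sqrt (by positivity)
  have hn0 : 0 ≤ n := Real.sqrt_nonneg _
  have hR0 : 0 ≤ R := Real.sqrt_nonneg _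
  have hMn : M ≤ n := by
    by_contra hc
    push Not at hc
    nlinarith
  have hRn : |R - n| ≤ e := by
    apply abs_le_of_sq_le_sq _ he.le
    have h1 : A * a + B * b ≤ R * n := by
      apply le_of_sq_le_sq _ (by positivity)
      rw [mul_pow, hR2, hn2]
      nlinarith [sq_nonneg (A * b - B * a)]
    nlinarith
  have h1 := abs_le.1 hRn
  have hn1 : 0 < n := by linarith
  have hR1 : 0 < R := by linarith
  have hMe : 0 < M - e := by linarith
  have l1 := Real.log_le_sub_one_of_pos (div_pos hR1 hn1)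
  have l2 := Real.log_le_sub_one_of_pos (div_pos hn1 hR1)
  rw [Real.log_div hR1.ne' hn1.ne'] at l1
  rw [Real.log_div hn1.ne' hR1.ne'] at l2
  have k1 : R / n - 1 ≤ e / (M - e) := by
    have e1 : R / n - 1 = (R - n) / n := by field_simp
    rw [e1, div_le_div_iff₀ hn1 hMe]
    nlinarith
  have k2 : n / R - 1 ≤ e / (M - e) := by
    have e1 : n / R - 1 = (n - R) / R := by field_simp
    rw [e1, div_le_div_iff₀ hR1 hMe]
    nlinarith
  rw [abs_le]
  constructor <;> linarith

end Pool.Agent.S5.Num
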