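import Pool.Agent.S5.I.NumSe

/-!
# Fixed point evaluation of the real part of the potential
-/

set_option autoImplicit false

namespace Pool.Agent.S5.Num

open Complex Pool.Agent.H63.VC3 Pool.Agent.H63.VC5 Pool.Agent.S3

theorem ds_norm_le (N : ℕ) {w : ℂ} (hw : ‖w‖ ≤ 1) : ‖ds N w‖ ≤ 2 := by
  rcases N with _ | N
  · simp [ds]
  · have h : ‖ds (N + 1) w‖ ≤ 2 - 1 / ((N : ℝ) + 1) := by
      induction N with
      | zero =>
        simp only [ds, zero_add, Finset.range_one, Finset.sum_singleton]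
        norm_num
        exact hw
      | succ N ih =>
        unfold ds at ih ⊢
        rw [Finset.sum_range_succ]
        refine (norm_add_le _ _).trans ?_
        have h1 : ‖w ^ (N + 1 + 1) / (((N + 1 : ℕ) : ℂ) + 1) ^ 2‖ ≤ 1 / ((N : ℝ) + 2) ^ 2 := by
          have e : ((N + 1 : ℕ) : ℂ) + 1 = (((N : ℝ) + 2 : ℝ) : ℂ) := by push_cast; ring
          rw [norm_div, norm_pow, norm_pow, e, norm_real, Real.norm_of_nonneg (by positivity)]
          apply div_le_div_of_nonneg_right _ (by positivity)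
          exact pow_le_one₀ (norm_nonneg w) hw
        have h2 : 1 / ((N : ℝ) + 2) ^ 2 ≤ 1 / ((N : ℝ) + 1) - 1 / ((N : ℝ) + 1 + 1) := by
          have e : 1 / ((N : ℝ) + 1) - 1 / ((N : ℝ) + 1 + 1) = 1 / (((N : ℝ) + 1) * (N + 2)) := by
            field_simp
            ring
          rw [e]
          apply one_div_le_one_div_of_le (by positivity)
          linarith only []
        push_cast at h1 ⊢
        linarith only [h1, h2, ih]
    have h2 : 0 ≤ 1 / ((N : ℝ) + 1) := by positivity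
    linarith only [h2, h]

/-- The program `ser`. -/
theorem ser_sound {α : Type} {w : ℂ} {c d : ℕ} (hw : ‖w‖ ≤ 1) (h : Ap w c d 512)
    (k : ℕ → ℕ → ℕ → ℕ → α) (n : ℕ) {i a b s : ℕ} (hi : i + n ≤ 1000)
    (ha : Ap (w ^ (i + 1)) a b (515 * (i + 1)))
    (hs : |(s : ℝ) - hk i - UU * (ds i w).im| ≤ 516 * i) :
    ∃ a' b' s', ser c d k n (i + 1) a b s = k (i + n + 1) a' b' s' ∧
      Ap (w ^ (i + n + 1)) a' b' (515 * (i + n + 1)) ∧
      |(s' : ℝ) - hk (i + n) - UU * (ds (i + n) w).im| ≤ 516 * (i + n) := by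
  induction n generalizing i a b s with
  | zero =>
    rw [ser_zero]
    refine ⟨a, b, s, rfl, ?_, ?_⟩
    · simpa using ha
    · simpa using hs
  | succ n ih =>
    rw [ser_succ]
    have hi1 : (i : ℝ) ≤ 1000 := by exact_mod_cast (by omega : i ≤ 1000)
    have hi0 : (0 : ℝ) ≤ i := Nat.cast_nonneg i
    have h1 := ha.mul h one_pos (by rw [norm_pow]; exact pow_le_one₀ (norm_nonneg w) hw)
      (hw.trans (by norm_num)) (by norm_num [UU]; linarith only [hi1]) (by norm_num [UU])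
    have e1 : w ^ (i + 1) * w / ((1 : ℕ) : ℂ) = w ^ (i + 1 + 1) := by
      rw [Nat.cast_one, div_one, pow_succ w (i + 1)]
    rw [e1] at h1
    have h2 : Ap (w ^ (i + 1 + 1)) (gr a b c d 1) (gi a b c d 1) (515 * ((i + 1 : ℕ) + 1)) := by
      refine h1.mono ?_
      have h3 : (515 * ((i : ℝ) + 1)) * (512 / UU) ≤ 1 := by
        norm_num [UU]
        linarith only [hi1]
      have h4 : (515 * ((i : ℝ) + 1)) * ‖w‖ ≤ (515 * ((i : ℝ) + 1)) * 1 :=
        mul_le_mul_of_nonneg_left hw (by positivity)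
      push_cast
      rw [div_one, mul_add]
      linarith only [h4, h3]
    have h3 : |((Nat.add s (Nat.div b (Nat.mul (i + 1) (i + 1))) : ℕ) : ℝ) - hk (i + 1) -
        UU * (ds (i + 1) w).im| ≤ 516 * ((i + 1 : ℕ) : ℝ) := by
      have b1 := div_bounds b (show 0 < (i + 1) * (i + 1) by positivity)
      have b2 := div_bounds 4503599627370496 (show 0 < (i + 1) * (i + 1) by positivity)
      rw [add_eq', div_eq', mul_eq', hk_succ, add_eq', div_eq', mul_eq', Nat.cast_add, Nat.cast_add]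
      change _ ∧ (((4503599627370496 / ((i + 1) * (i + 1)) : ℕ)) : ℝ) ≤ _ at b2
      generalize (((b / ((i + 1) * (i + 1)) : ℕ)) : ℝ) = B at b1 ⊢
      have e3 : Nat.succ i * Nat.succ i = (i + 1) * (i + 1) := rfl
      rw [e3]
      generalize (((4503599627370496 / ((i + 1) * (i + 1)) : ℕ)) : ℝ) = C at b2 ⊢
      have e4 : (ds (i + 1) w).im = (ds i w).im + (w ^ (i + 1)).im / ((i : ℝ) + 1) ^ 2 := by
        unfold ds
        rw [Finset.sum_range_succ, add_im]
        congr 1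
        have : ((i : ℂ) + 1) ^ 2 = ((((i : ℝ) + 1) ^ 2 : ℝ) : ℂ) := by push_cast; rfl
        rw [this, div_ofReal_im]
      rw [e4]
      have h5 : |(w ^ (i + 1)).im * UU - ((b : ℝ) - KK)| ≤ 515 * (i + 1) := by
        have := (abs_im_le_norm _).trans ha
        rwa [sub_im, mul_comm, im_ofReal_mul, cx_im, mul_comm] at this
      have h6 : |(w ^ (i + 1)).im * UU / ((i : ℝ) + 1) ^ 2 - ((b : ℝ) / ((i + 1) * (i + 1)) -
          KK / ((i + 1) * (i + 1)))| ≤ 515 := by
        have e5 : (w ^ (i + 1)).im * UU / ((i : ℝ) + 1) ^ 2 - ((b : ℝ) / ((i + 1) * (i + 1)) -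
          KK / ((i + 1) * (i + 1))) = ((w ^ (i + 1)).im * UU - ((b : ℝ) - KK)) /
          ((i : ℝ) + 1) ^ 2 := by
          field_simp
        rw [e5, abs_div, abs_of_pos (by positivity : 0 < ((i : ℝ) + 1) ^ 2),
          div_le_iff₀ (by positivity)]
        have hi0 : (0 : ℝ) ≤ i := Nat.cast_nonneg i
        linarith only [h5, hi0, mul_nonneg hi0 hi0]
      push_cast at b1 b2
      have h7 := abs_le.1 h6
      have h8 := abs_le.1 hs
      simp only [KK] at h7
      have e6 : UU * ((ds i w).im + (w ^ (i + 1)).im / ((i : ℝ) + 1) ^ 2) = UU * (ds i w).im +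
        (w ^ (i + 1)).im * UU / ((i : ℝ) + 1) ^ 2 := by ring
      rw [e6]
      push_cast
      rw [abs_le]
      constructor <;> linarith [b1.1, b1.2, b2.1, b2.2, h7.1, h7.2, h8.1, h8.2]
    obtain ⟨a', b', s', h4, h5, h6⟩ := ih (by omega) h2 h3
    refine ⟨a', b', s', ?_, ?_, ?_⟩
    · rw [show i + (n + 1) + 1 = i + 1 + n + 1 by ring]
      exact h4
    · rw [show i + (n + 1) + 1 = i + 1 + n + 1 by ring]
      refine h5.mono ?_
      push_cast
      linarith only []
    · rw [show i + (n + 1) = i + 1 + n by ring]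
      refine h6.trans ?_
      push_cast
      linarith only []

theorem ds'_eq (a b : ℕ) : ((ds' a b : ℕ) : ℝ) = |(a : ℝ) - b| := by
  have e : ds' a b = (a - b) + (b - a) := rfl
  rw [e]
  rcases le_total a b with h | h
  · rw [Nat.sub_eq_zero_of_le h, zero_add, Nat.cast_sub h, abs_sub_comm,
      abs_of_nonneg (sub_nonneg.2 (by exact_mod_cast h))]
  · rw [Nat.sub_eq_zero_of_le h, add_zero, Nat.cast_sub h,
      abs_of_nonneg (sub_nonneg.2 (by exact_mod_cast h))]

theorem mx'_eq (a b : ℕ) : mx' a b = max a b := by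
  unfold mx'
  rcases le_total a b with h | h
  · rw [Nat.ble_eq_true_of_le h, max_eq_right h]
    rfl
  · rcases h.eq_or_lt with h1 | h1
    · subst h1
      rw [Nat.ble_eq_true_of_le le_rfl, max_self]
      rfl
    · have : Nat.ble a b = false := by
        by_contra h2
        rw [Bool.not_eq_false, Nat.ble_eq] at h2
        omega
      rw [this, max_eq_left h]
      rfl

/-- The bound of the error term. -/
theorem rfe_ge {N c d a b : ℕ} {M : ℝ}
    (hM : ((mx' (ds' 4785074604081152 c) (ds' d 4503599627370496) : ℕ) : ℝ) = M)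
    (hM1 : 513 ≤ M) :
    83 * (N : ℝ) + 6 + (|(a : ℝ) - KK| + |(b : ℝ) - KK| + 515 * (N + 1)) * UU /
      (3 * ((N + 1) * (N + 1)) * (M - 512)) ≤ ((rfe N c d a b : ℕ) : ℝ) := by
  have e : rfe N c d a b = 83 * N + 7 + ((ds' a 4503599627370496 + ds' b 4503599627370496 +
    515 * (N + 1)) * 281474976710656) / (3 * ((N + 1) * (N + 1)) *
      (mx' (ds' 4785074604081152 c) (ds' d 4503599627370496) - 512)) := rfl
  rw [e]
  generalize mx' (ds' 4785074604081152 c) (ds' d 4503599627370496) = m at hM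
  have hm : 513 ≤ m := by
    have : ((513 : ℕ) : ℝ) ≤ m := by rw [hM]; norm_num; exact hM1
    exact_mod_cast this
  have hb := (div_bounds ((ds' a 4503599627370496 + ds' b 4503599627370496 +
    515 * (N + 1)) * 281474976710656) (show 0 < 3 * ((N + 1) * (N + 1)) * (m - 512) from
      Nat.mul_pos (by positivity) (by omega))).1
  rw [Nat.cast_add, Nat.cast_add]
  generalize ((((ds' a 4503599627370496 + ds' b 4503599627370496 +
    515 * (N + 1)) * 281474976710656) / (3 * ((N + 1) * (N + 1)) * (m - 512)) : ℕ) : ℝ) = q at hb ⊢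
  rw [Nat.cast_mul, Nat.cast_add, Nat.cast_add, Nat.cast_mul, Nat.cast_mul,
    Nat.cast_sub (by omega), ds'_eq, ds'_eq, hM] at hb
  have e2 : (|(a : ℝ) - (4503599627370496 : ℕ)| + |(b : ℝ) - (4503599627370496 : ℕ)| +
    ((515 : ℕ) : ℝ) * ((N + 1 : ℕ) : ℝ)) * ((281474976710656 : ℕ) : ℝ) /
      (((3 * ((N + 1) * (N + 1)) : ℕ) : ℝ) * (M - (512 : ℕ))) =
    (|(a : ℝ) - KK| + |(b : ℝ) - KK| + 515 * (N + 1)) * UU /
      (3 * ((N + 1) * (N + 1)) * (M - 512)) := by
    simp only [KK, UU]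
    push_cast
    ring
  rw [Nat.cast_mul] at e2
  rw [Nat.cast_mul] at hb
  rw [e2] at hb
  push_cast
  linarith only [hb]

theorem mx_le {c d : ℕ} :
    ((mx' (ds' 4785074604081152 c) (ds' d 4503599627370496) : ℕ) : ℝ) ≤ ‖(UU : ℂ) - cx c d‖ := by
  rw [mx'_eq, Nat.cast_max, ds'_eq, ds'_eq]
  apply max_le
  · have := abs_re_le_norm ((UU : ℂ) - cx c d)
    rw [sub_re, cx_re, ofReal_re] at this
    refine le_trans (le_of_eq ?_) this
    congr 1
    simp only [UU, KK]
    push_cast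
    ring
  · have := abs_im_le_norm ((UU : ℂ) - cx c d)
    rw [sub_im, cx_im, ofReal_im, zero_sub, abs_neg] at this
    refine le_trans (le_of_eq ?_) this
    congr 1

/-- The value. -/
theorem rf_val {N X S D s : ℕ} (hD : 1 ≤ D) (hnp : rfn S D s ≤ rfp N X S D) :
    ∃ n1 n2 n3 n4 : ℝ, ((rfp N X S D - rfn S D s : ℕ) : ℝ) = KK + n1 + n2 - (n3 + n4) ∧
      (884279719003555 * ((S : ℝ) / D * (X / D)) - 1 ≤ n1 ∧
        n1 ≤ 884279719003555 * ((S : ℝ) / D * (X / D))) ∧
      ((44798133900177 : ℝ) * hk N / 281474976710656 - 1 ≤ n2 ∧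
        n2 ≤ (44798133900177 : ℝ) * hk N / 281474976710656) ∧
      (884279719003555 * ((S : ℝ) / D / 2) - 1 ≤ n3 ∧ n3 ≤ 884279719003555 * ((S : ℝ) / D / 2)) ∧
      ((44798133900177 : ℝ) * s / 281474976710656 - 1 ≤ n4 ∧
        n4 ≤ (44798133900177 : ℝ) * s / 281474976710656) := by
  have b1 := div_bounds (884279719003555 * S * X) (show 0 < D * D from Nat.mul_pos hD hD)
  have b2 := div_bounds (44798133900177 * hk N) (show 0 < 281474976710656 by norm_num)
  have b3 := div_bounds (884279719003555 * S) (show 0 < 2 * D by omega)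
  have b4 := div_bounds (44798133900177 * s) (show 0 < 281474976710656 by norm_num)
  have ep : rfp N X S D = 4503599627370496 + 884279719003555 * S * X / (D * D) +
    44798133900177 * hk N / 281474976710656 := rfl
  have en : rfn S D s = 884279719003555 * S / (2 * D) + 44798133900177 * s / 281474976710656 := rfl
  have hc : ((rfp N X S D - rfn S D s : ℕ) : ℝ) = KK + ((884279719003555 * S * X / (D * D) : ℕ) : ℝ) +
      ((44798133900177 * hk N / 281474976710656 : ℕ) : ℝ) -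
      (((884279719003555 * S / (2 * D) : ℕ) : ℝ) +
      ((44798133900177 * s / 281474976710656 : ℕ) : ℝ)) := by
    rw [Nat.cast_sub hnp, ep, en, Nat.cast_add, Nat.cast_add, Nat.cast_add]
    rfl
  clear ep en hnp
  generalize ((884279719003555 * S * X / (D * D) : ℕ) : ℝ) = n1 at b1 hc
  generalize ((44798133900177 * hk N / 281474976710656 : ℕ) : ℝ) = n2 at b2 hc
  generalize ((884279719003555 * S / (2 * D) : ℕ) : ℝ) = n3 at b3 hc
  generalize ((44798133900177 * s / 281474976710656 : ℕ) : ℝ) = n4 at b4 hc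
  push_cast at b1 b2 b3 b4
  have hD' : (D : ℝ) ≠ 0 := by
    have : (0 : ℝ) < D := by exact_mod_cast hD
    exact this.ne'
  have e1 : (884279719003555 : ℝ) * S * X / (D * D) = 884279719003555 * (S / D * (X / D)) := by
    field_simp
  have e3 : (884279719003555 : ℝ) * S / (2 * D) = 884279719003555 * (S / D / 2) := by
    field_simp
  rw [e1] at b1
  rw [e3] at b3
  exact ⟨n1, n2, n3, n4, hc, b1, b2, b3, b4⟩

/-- The final step, in terms of real numbers. -/
theorem rf_fin {N a b c d : ℕ} {x σ M E s H n1 n2 n3 n4 : ℝ} (hx0 : 0 ≤ x) (hx : x ≤ 1)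
    (hs0 : 0 ≤ σ) (hs' : σ ≤ 1 / 2)
    (hM : 513 ≤ M) (hM' : M ≤ ‖(UU : ℂ) - cx c d‖)
    (hE : 83 * (N : ℝ) + 6 + (|(a : ℝ) - KK| + |(b : ℝ) - KK| + 515 * (N + 1)) * UU /
      (3 * ((N + 1) * (N + 1)) * (M - 512)) ≤ E)
    (h : Ap (ww x σ) c d 512)
    (ha : Ap (ww x σ ^ (N + 1)) a b (515 * (N + 1)))
    (hs : |s - H - UU * (ds N (ww x σ)).im| ≤ 516 * N)
    (b1 : 884279719003555 * (σ * x) - 1 ≤ n1 ∧ n1 ≤ 884279719003555 * (σ * x))
    (b2 : (44798133900177 : ℝ) * H / 281474976710656 - 1 ≤ n2 ∧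
        n2 ≤ (44798133900177 : ℝ) * H / 281474976710656)
    (b3 : 884279719003555 * (σ / 2) - 1 ≤ n3 ∧ n3 ≤ 884279719003555 * (σ / 2))
    (b4 : (44798133900177 : ℝ) * s / 281474976710656 - 1 ≤ n4 ∧
        n4 ≤ (44798133900177 : ℝ) * s / 281474976710656) :
    |Rf ((x : ℂ) + σ * I) * UU + KK - (KK + n1 + n2 - (n3 + n4))| ≤ E := by
  have hr := Rf_series N (x := x) hs0
  have hw := ww_norm_le (x := x) hs0
  set w := ww x σ with hwdef
  have pi1 := Real.pi_gt_d20
  have pi2 := Real.pi_lt_d20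
  have hpi : (0 : ℝ) < Real.pi := Real.pi_pos
  have hU : UU = 281474976710656 := rfl
  have hUp : 0 < UU := UU_pos
  have hN0 : (0 : ℝ) ≤ N := Nat.cast_nonneg N
  -- the tail
  set A : ℝ := |(a : ℝ) - KK| + |(b : ℝ) - KK| + 515 * (N + 1) with hA
  have hM1 : (1 : ℝ) ≤ M - 512 := by linarith only [hM]
  have hMle : M - 512 ≤ ‖1 - w‖ * UU := by
    have e1 : ‖1 - w‖ * UU = ‖(UU : ℂ) - w * UU‖ := by
      have : (UU : ℂ) - w * UU = (1 - w) * UU := by ring
      rw [this, norm_mul, norm_real, Real.norm_of_nonneg hUp.le]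
    rw [e1]
    have e2 : (UU : ℂ) - w * UU = ((UU : ℂ) - cx c d) - (w * UU - cx c d) := by ring
    rw [e2]
    have h1 := norm_sub_norm_le ((UU : ℂ) - cx c d) (w * UU - cx c d)
    have h3 : ‖w * UU - cx c d‖ ≤ 512 := h
    linarith only [h3, h1, hM']
  have hAle : ‖w‖ ^ (N + 1) * UU ≤ A := by
    have e1 : ‖w‖ ^ (N + 1) * UU = ‖w ^ (N + 1) * UU‖ := by
      rw [norm_mul, norm_pow, norm_real, Real.norm_of_nonneg hUp.le]
    rw [e1]
    have e2 : w ^ (N + 1) * UU = cx a b + (w ^ (N + 1) * UU - cx a b) := by ring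
    rw [e2]
    refine (norm_add_le _ _).trans ?_
    have h1 := Complex.norm_le_abs_re_add_abs_im (cx a b)
    rw [cx_re, cx_im] at h1
    have h3 : ‖w ^ (N + 1) * UU - cx a b‖ ≤ 515 * (N + 1) := ha
    linarith only [h3, h1]
  have hA0 : 0 ≤ A := by
    rw [hA]
    have := abs_nonneg ((a : ℝ) - KK)
    have := abs_nonneg ((b : ℝ) - KK)
    linarith [this, pi2, pi1]
  set r := Rf ((x : ℂ) + σ * I) with hrdef
  have hT : |r - rs N x σ| * UU ≤ A * UU / (3 * ((N + 1) * (N + 1)) * (M - 512)) := by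
    have hq : 0 < 3 * (((N : ℝ) + 1) * (N + 1)) * (M - 512) :=
      mul_pos (by positivity) (by linarith only [hM])
    rw [le_div_iff₀ hq]
    have h1 : ‖1 - w‖ * |r - rs N x σ| * UU * (Real.pi * ((N : ℝ) + 1) ^ 2) ≤
        ‖w‖ ^ (N + 1) * UU := by
      have := mul_le_mul_of_nonneg_right hr
        (mul_nonneg hUp.le (mul_nonneg hpi.le (sq_nonneg ((N : ℝ) + 1))))
      have e : ‖w‖ ^ (N + 1) / (Real.pi * ((N : ℝ) + 1) ^ 2) * (UU * (Real.pi * ((N : ℝ) + 1) ^ 2)) =
        ‖w‖ ^ (N + 1) * UU := by field_simp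
      rw [e] at this
      linarith only [this]
    have h2 : (M - 512) * |r - rs N x σ| * (3 * ((N : ℝ) + 1) ^ 2) ≤ A := by
      refine le_trans ?_ (h1.trans hAle)
      have h3 : (M - 512) * |r - rs N x σ| ≤ ‖1 - w‖ * UU * |r - rs N x σ| :=
        mul_le_mul_of_nonneg_right hMle (abs_nonneg _)
      have h4 : (3 * ((N : ℝ) + 1) ^ 2) ≤ (Real.pi * ((N : ℝ) + 1) ^ 2) :=
        mul_le_mul_of_nonneg_right (by linarith only [pi1]) (sq_nonneg _)
      have h5 := mul_le_mul h3 h4 (mul_nonneg (by norm_num) (sq_nonneg _))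
        (mul_nonneg (mul_nonneg (norm_nonneg _) hUp.le) (abs_nonneg _))
      linarith only [h5]
    have h6 := mul_le_mul_of_nonneg_right h2 hUp.le
    linarith only [h6]
  have hPI : |Real.pi * UU - 884279719003555| ≤ 1 := by
    rw [hU, abs_le]
    constructor <;> linarith only [pi1, pi2]
  have hIP : |UU / (2 * Real.pi) - 44798133900177| ≤ 1 := by
    have h2pi : 0 < 2 * Real.pi := by linarith only [pi1]
    rw [hU, abs_le]
    constructor
    · rw [le_sub_iff_add_le, le_div_iff₀ h2pi]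
      linarith only [pi2]
    · rw [sub_le_iff_le_add, div_le_iff₀ h2pi]
      linarith only [pi1]
  have hds : |(ds N w).im| ≤ 2 := (abs_im_le_norm _).trans (ds_norm_le N hw)
  set δ : ℝ := s - H - UU * (ds N w).im with hδ
  have e24 : (44798133900177 : ℝ) * s / 281474976710656 - 44798133900177 * H / 281474976710656 =
      44798133900177 * (ds N w).im + 44798133900177 / 281474976710656 * δ := by
    rw [hδ, hU]
    ring
  have h24 : |(44798133900177 : ℝ) / 281474976710656 * δ| ≤ 83 * N := by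
    rw [abs_mul, abs_of_pos (by norm_num : (0 : ℝ) < 44798133900177 / 281474976710656)]
    have := mul_le_mul_of_nonneg_left hs (by norm_num : (0 : ℝ) ≤ 44798133900177 / 281474976710656)
    refine this.trans ?_
    have h9 : (44798133900177 : ℝ) / 281474976710656 * 516 ≤ 83 := by norm_num
    have := mul_le_mul_of_nonneg_right h9 hN0
    linarith only []
  have hIds : |(ds N w).im * (UU / (2 * Real.pi) - 44798133900177)| ≤ 2 := by
    rw [abs_mul]
    have := mul_le_mul hds hIP (abs_nonneg _) (by norm_num)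
    linarith only [this]
  have hσx : |σ * x * (Real.pi * UU - 884279719003555)| ≤ 1 / 2 := by
    rw [abs_mul, abs_of_nonneg (mul_nonneg hs0 hx0)]
    have h1 : σ * x ≤ 1 / 2 * 1 := mul_le_mul hs' hx hx0 (by norm_num)
    have := mul_le_mul h1 hPI (abs_nonneg _) (by norm_num)
    linarith only [this]
  have hσ2 : |σ / 2 * (Real.pi * UU - 884279719003555)| ≤ 1 / 4 := by
    have h0 : 0 ≤ σ / 2 := by linarith only [hs0]
    rw [abs_mul, abs_of_nonneg h0]
    have h1 : σ / 2 ≤ 1 / 4 := by linarith only [hs']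
    have := mul_le_mul h1 hPI (abs_nonneg _) (by norm_num)
    linarith only [this]
  have hrs : rs N x σ * UU = σ * x * (Real.pi * UU - 884279719003555) + 884279719003555 * (σ * x) -
      (σ / 2 * (Real.pi * UU - 884279719003555) + 884279719003555 * (σ / 2)) -
      ((ds N w).im * (UU / (2 * Real.pi) - 44798133900177) + 44798133900177 * (ds N w).im) := by
    unfold rs
    rw [← hwdef]
    field_simp
    ring
  have hfin : |rs N x σ * UU + KK - (KK + n1 + n2 - (n3 + n4))| ≤ 83 * N + 5 := by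
    rw [hrs]
    have a1 := abs_le.1 h24
    have a2 := abs_le.1 hIds
    have a3 := abs_le.1 hσx
    have a4 := abs_le.1 hσ2
    rw [abs_le]
    constructor <;>
      linarith [a1.1, a1.2, a2.1, a2.2, a3.1, a3.2, a4.1, a4.2, b1.1, b1.2, b2.1, b2.2, b3.1, b3.2,
        b4.1, b4.2, e24]
  have e9 : r * UU + KK - (KK + n1 + n2 - (n3 + n4)) = (r - rs N x σ) * UU +
      (rs N x σ * UU + KK - (KK + n1 + n2 - (n3 + n4))) := by ring
  rw [e9]
  refine (abs_add_le _ _).trans ?_
  rw [abs_mul, abs_of_pos hUp]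
  linarith only [hfin, hT, hE, pi2, pi1]

/-- The final step. -/
theorem rf_final {N X S D c d a b s : ℕ} (hD : 1 ≤ D) (hX : X ≤ D) (hS : 2 * S ≤ D)
    (hM : 513 ≤ mx' (ds' 4785074604081152 c) (ds' d 4503599627370496))
    (h : Ap (ww ((X : ℝ) / D) ((S : ℝ) / D)) c d 512)
    (ha : Ap (ww ((X : ℝ) / D) ((S : ℝ) / D) ^ (N + 1)) a b (515 * (N + 1)))
    (hs : |(s : ℝ) - hk N - UU * (ds N (ww ((X : ℝ) / D) ((S : ℝ) / D))).im| ≤ 516 * N)
    (hnp : rfn S D s ≤ rfp N X S D) :
    |Rf (((X : ℝ) / D : ℝ) + ((S : ℝ) / D : ℝ) * I) * UU + KK -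
      ((rfp N X S D - rfn S D s : ℕ) : ℝ)| ≤ rfe N c d a b := by
  have hD' : (0 : ℝ) < D := by exact_mod_cast hD
  have hX' : (X : ℝ) ≤ D := by exact_mod_cast hX
  have hS' : 2 * (S : ℝ) ≤ D := by exact_mod_cast hS
  have hX0 : (0 : ℝ) ≤ X := Nat.cast_nonneg X
  have hS0 : (0 : ℝ) ≤ S := Nat.cast_nonneg S
  have hx : (X : ℝ) / D ≤ 1 := by rw [div_le_iff₀ hD']; linarith only [hX']
  have hs' : (S : ℝ) / D ≤ 1 / 2 := by rw [div_le_iff₀ hD']; linarith only [hS']
  have hx0 : 0 ≤ (X : ℝ) / D := div_nonneg hX0 hD'.le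
  have hs0 : 0 ≤ (S : ℝ) / D := div_nonneg hS0 hD'.le
  obtain ⟨n1, n2, n3, n4, e, b1, b2, b3, b4⟩ := rf_val (N := N) (X := X) hD hnp
  have hM' : (513 : ℝ) ≤ ((mx' (ds' 4785074604081152 c) (ds' d 4503599627370496) : ℕ) : ℝ) := by
    have h1 : (513 : ℝ) = ((513 : ℕ) : ℝ) := Nat.cast_ofNat.symm
    exact h1.le.trans (Nat.cast_le.2 hM)
  rw [e]
  exact rf_fin hx0 hx hs0 hs' hM' mx_le (rfe_ge rfl hM') h ha hs b1 b2 b3 b4

theorem cond_true_iff (a b : Bool) : cond a b false = true ↔ a = true ∧ b = true := by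
  cases a <;> simp

/-- Soundness of the evaluation of `Rf`. -/
theorem rfK_sound {N X S D : ℕ} {k : ℕ → ℕ → Bool} (h : rfK N X S D k = true) :
    ∃ c e : ℕ, |Rf (((X : ℝ) / D : ℝ) + ((S : ℝ) / D : ℝ) * I) * UU + KK - c| ≤ e ∧
      k c e = true := by
  unfold rfK at h
  simp only [cond_true_iff] at h
  obtain ⟨hD, hX, hS, hN, h⟩ := h
  have hD : 1 ≤ D := Nat.ble_eq.mp hD
  have hX : X ≤ D := Nat.ble_eq.mp hX
  have hS : 2 * S ≤ D := Nat.ble_eq.mp hS
  have hN : N ≤ 1000 := Nat.ble_eq.mp hN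
  have hS0 : (0 : ℝ) ≤ (S : ℝ) / D := by positivity
  have hw := ww_norm_le (x := (X : ℝ) / D) hS0
  obtain ⟨c, d, h1, h2⟩ := wst_sound hD hX hS (fun c d =>
      cond (Nat.ble 513 (mx' (ds' 4785074604081152 c) (ds' d 4503599627370496)))
        (ser c d (fun _ a b s =>
          fN (fun n => fN (fun p => fN (fun e => cond (Nat.ble n p) (k (Nat.sub p n) e) false)
            (rfe N c d a b)) (rfp N X S D)) (rfn S D s)) N 1 c d 0)
        false)
  rw [h1] at h
  simp only [cond_true_iff] at h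
  obtain ⟨hM, h⟩ := h
  have hM := Nat.ble_eq.mp hM
  have ha : Ap (ww ((X : ℝ) / D) ((S : ℝ) / D) ^ (0 + 1)) c d (515 * ((0 : ℕ) + 1)) := by
    rw [zero_add, pow_one]
    exact h2.mono (by norm_num)
  have hs : |((0 : ℕ) : ℝ) - hk 0 - UU * (ds 0 (ww ((X : ℝ) / D) ((S : ℝ) / D))).im| ≤
      516 * ((0 : ℕ) : ℝ) := by
    simp [hk, ds]
  obtain ⟨a, b, s, h3, h4, h5⟩ := ser_sound hw h2 (fun _ a b s =>
          fN (fun n => fN (fun p => fN (fun e => cond (Nat.ble n p) (k (Nat.sub p n) e) false)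
            (rfe N c d a b)) (rfp N X S D)) (rfn S D s)) N (i := 0) (by omega) ha hs
  rw [h3] at h
  simp only [fN_eq, cond_true_iff] at h
  obtain ⟨h6, h7⟩ := h
  have h6 := Nat.ble_eq.mp h6
  rw [zero_add] at h4 h5
  refine ⟨_, _, rf_final hD hX hS hM h2 ?_ ?_ h6, h7⟩
  · refine h4.mono ?_
    push_cast
    linarith only []
  · refine h5.trans ?_
    push_cast
    linarith only []

/-- The check of `Rf ≤ (p - n) / m`. -/
def rfLe (N X S D p n m : Nat) : Bool :=
  rfK N X S D (fun c e => Nat.ble (Nat.add (Nat.mul m (Nat.add c e)) (Nat.mul n 281474976710656))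
    (Nat.add (Nat.mul m 4503599627370496) (Nat.mul p 281474976710656)))

/-- The check of `(p - n) / m ≤ Rf`. -/
def rfGe (N X S D p n m : Nat) : Bool :=
  rfK N X S D (fun c e => Nat.ble (Nat.add (Nat.add (Nat.mul m 4503599627370496)
    (Nat.mul p 281474976710656)) (Nat.mul m e)) (Nat.add (Nat.mul m c) (Nat.mul n 281474976710656)))

theorem rfLe_sound {N X S D p n m : ℕ} (hm : 0 < m) (h : rfLe N X S D p n m = true) :
    Rf (((X : ℝ) / D : ℝ) + ((S : ℝ) / D : ℝ) * I) ≤ ((p : ℝ) - n) / m := by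
  obtain ⟨c, e, h1, h2⟩ := rfK_sound h
  have h3 : m * (c + e) + n * 281474976710656 ≤ m * 4503599627370496 + p * 281474976710656 :=
    Nat.ble_eq.mp h2
  have h4 : (m : ℝ) * (c + e) + n * 281474976710656 ≤ m * 4503599627370496 + p * 281474976710656 := by
    exact_mod_cast h3
  clear h2 h3 h
  have h5 := (abs_le.1 h1).2
  have hm' : (0 : ℝ) < m := by exact_mod_cast hm
  rw [le_div_iff₀ hm']
  generalize Rf (((X : ℝ) / D : ℝ) + ((S : ℝ) / D : ℝ) * I) = r at h5
  have h6 := mul_le_mul_of_nonneg_left h5 hm'.le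
  simp only [UU, KK] at h6
  linarith only [h6, h4]

theorem rfGe_sound {N X S D p n m : ℕ} (hm : 0 < m) (h : rfGe N X S D p n m = true) :
    ((p : ℝ) - n) / m ≤ Rf (((X : ℝ) / D : ℝ) + ((S : ℝ) / D : ℝ) * I) := by
  obtain ⟨c, e, h1, h2⟩ := rfK_sound h
  have h3 : m * 4503599627370496 + p * 281474976710656 + m * e ≤ m * c + n * 281474976710656 :=
    Nat.ble_eq.mp h2
  have h4 : (m : ℝ) * 4503599627370496 + p * 281474976710656 + m * e ≤ m * c +
      n * 281474976710656 := by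
    exact_mod_cast h3
  clear h2 h3 h
  have h5 := (abs_le.1 h1).1
  have hm' : (0 : ℝ) < m := by exact_mod_cast hm
  rw [div_le_iff₀ hm']
  generalize Rf (((X : ℝ) / D : ℝ) + ((S : ℝ) / D : ℝ) * I) = r at h5
  have h6 := mul_le_mul_of_nonneg_left h5 hm'.le
  simp only [UU, KK] at h6
  linarith only [h6, h4]

end Pool.Agent.S5.Num
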