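import Pool.Agent.S5.I.NumLb
import Pool.Agent.S5.I.NumPa
import Pool.Agent.S5.I.NumLh
import Pool.Agent.S5.I.NumRf

/-!
# The point evaluation
-/

set_option autoImplicit false

namespace Pool.Agent.S5.Num

open Complex Pool.Agent.H63.VC3 Pool.Agent.H63.VC5 Pool.Agent.S3

/-- The data after the basic step. -/
structure Bsp (x s a b M : ℝ) : Prop where
  ha : 1 ≤ a
  hM : 2048 ≤ M
  hMe : M = max a b
  hn : ((1 - (ww x s).re) * UU - a) ^ 2 + ((ww x s).im * UU - b) ^ 2 ≤ 512 ^ 2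
  hα : (ww x s).re < 1
  hβ : 0 ≤ (ww x s).im
  hb : 0 ≤ b
  hbU : b ≤ 2 * UU
  haU : a ≤ 3 * UU

theorem trunc_sq {u : ℝ} (hu : 0 ≤ u) (m n : ℕ) :
    (u - ((Nat.sub m n : ℕ) : ℝ)) ^ 2 ≤ (u - ((m : ℝ) - n)) ^ 2 := by
  rcases le_total n m with h | h
  · rw [sub_eq', Nat.cast_sub h]
  · have e : Nat.sub m n = 0 := Nat.sub_eq_zero_of_le h
    rw [e, Nat.cast_zero]
    have : (m : ℝ) ≤ n := by exact_mod_cast h
    nlinarith

theorem bsp_of {x s : ℝ} {c d : ℕ} (h0 : 0 ≤ x) (h1 : x ≤ 1 / 2) (hs : 0 ≤ s)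
    (h : Ap (ww x s) c d 512)
    (hM : 2048 ≤ mx' (Nat.sub 4785074604081152 c) (Nat.sub d 4503599627370496))
    (ha : 1 ≤ Nat.sub 4785074604081152 c) :
    Bsp x s ((Nat.sub 4785074604081152 c : ℕ) : ℝ) ((Nat.sub d 4503599627370496 : ℕ) : ℝ)
      ((mx' (Nat.sub 4785074604081152 c) (Nat.sub d 4503599627370496) : ℕ) : ℝ) := by
  have hβ := ww_im_nonneg h0 h1 s
  have hα := ww_re_le (x := x) hs
  have hU := UU_pos
  have hn1 := ww_norm_le (x := x) hs
  have n1 : ‖ww x s * UU - cx c d‖ ^ 2 ≤ 512 ^ 2 :=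
    pow_le_pow_left₀ (norm_nonneg _) h 2
  rw [Complex.sq_norm, normSq_apply, sub_re, sub_im, cx_re, cx_im, mul_comm (ww x s),
    re_ofReal_mul, im_ofReal_mul] at n1
  have t1 := trunc_sq (u := (1 - (ww x s).re) * UU) (mul_nonneg (by linarith) hU.le)
    4785074604081152 c
  have t2 := trunc_sq (u := (ww x s).im * UU) (mul_nonneg hβ hU.le) d 4503599627370496
  have e1 : ((4785074604081152 : ℕ) : ℝ) = UU + KK := by norm_num [UU, KK]
  have e2 : ((4503599627370496 : ℕ) : ℝ) = KK := by norm_num [KK]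
  rw [e1] at t1
  rw [e2] at t2
  have hM' : (2048 : ℝ) ≤ ((mx' (Nat.sub 4785074604081152 c) (Nat.sub d 4503599627370496) : ℕ) : ℝ) := by
    have h5 : (2048 : ℝ) = ((2048 : ℕ) : ℝ) := Nat.cast_ofNat.symm
    exact h5.le.trans (Nat.cast_le.2 hM)
  have hMe : ((mx' (Nat.sub 4785074604081152 c) (Nat.sub d 4503599627370496) : ℕ) : ℝ) =
      max ((Nat.sub 4785074604081152 c : ℕ) : ℝ) ((Nat.sub d 4503599627370496 : ℕ) : ℝ) := by
    rw [mx'_eq, Nat.cast_max]
  have ha' : (1 : ℝ) ≤ ((Nat.sub 4785074604081152 c : ℕ) : ℝ) := by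
    have h5 : (1 : ℝ) = ((1 : ℕ) : ℝ) := Nat.cast_one.symm
    exact h5.le.trans (Nat.cast_le.2 ha)
  have hb0 : (0 : ℝ) ≤ ((Nat.sub d 4503599627370496 : ℕ) : ℝ) := Nat.cast_nonneg _
  clear hM ha e1 e2
  generalize ((mx' (Nat.sub 4785074604081152 c) (Nat.sub d 4503599627370496) : ℕ) : ℝ) = M
    at hM' hMe ⊢
  generalize ((Nat.sub 4785074604081152 c : ℕ) : ℝ) = a at t1 ha' hMe ⊢
  generalize ((Nat.sub d 4503599627370496 : ℕ) : ℝ) = b at t2 hb0 hMe ⊢
  have hn : ((1 - (ww x s).re) * UU - a) ^ 2 + ((ww x s).im * UU - b) ^ 2 ≤ 512 ^ 2 := by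
    have e3 : (1 - (ww x s).re) * UU - (UU + KK - (c : ℝ)) = -(UU * (ww x s).re - (c - KK)) := by
      ring
    rw [e3, neg_sq, pow_two (UU * (ww x s).re - (c - KK))] at t1
    have e4 : (ww x s).im * UU - ((d : ℝ) - KK) = UU * (ww x s).im - (d - KK) := by ring
    rw [e4, pow_two (UU * (ww x s).im - (d - KK))] at t2
    linarith only [t1, t2, n1]
  have hb : b ≤ 2 * UU := by
    have h6 : |(ww x s).im * UU - b| ≤ 512 := by
      apply abs_le_of_sq_le_sq _ (by norm_num)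
      have := sq_nonneg ((1 - (ww x s).re) * UU - a)
      linarith only [this, hn]
    have h7 := (abs_im_le_norm (ww x s)).trans hn1
    have h8 : (ww x s).im * UU ≤ 1 * UU := mul_le_mul_of_nonneg_right (abs_le.1 h7).2 hU.le
    have h9 : (512 : ℝ) ≤ UU := by norm_num [UU]
    linarith [(abs_le.1 h6).1]
  have haa : a ≤ 3 * UU := by
    have h6 : |(1 - (ww x s).re) * UU - a| ≤ 512 := by
      apply abs_le_of_sq_le_sq _ (by norm_num)
      have := sq_nonneg ((ww x s).im * UU - b)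
      linarith only [this, hn]
    have h7 := (abs_re_le_norm (ww x s)).trans hn1
    have h8 : (1 - (ww x s).re) * UU ≤ 2 * UU := 
      mul_le_mul_of_nonneg_right (by linarith [(abs_le.1 h7).1]) hU.le
    have h9 : (512 : ℝ) ≤ UU := by norm_num [UU]
    linarith [(abs_le.1 h6).1]
  refine ⟨ha', hM', hMe, hn, lt_of_le_of_ne hα ?_, hβ, hb0, hb, haa⟩
  intro h2
  have h3 : (ww x s).im = 0 := by
    have h4 : ‖ww x s‖ ^ 2 ≤ 1 := pow_le_one₀ (norm_nonneg _) hn1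
    rw [Complex.sq_norm, normSq_apply, h2] at h4
    have h5 : (ww x s).im * (ww x s).im ≤ 0 := by linarith only [h4]
    exact mul_self_eq_zero.1 (le_antisymm h5 (mul_self_nonneg _))
  have h6 : M ^ 2 ≤ a ^ 2 + b ^ 2 := by
    rw [hMe]
    rcases max_choice a b with h7 | h7
    · rw [h7]
      linarith only [sq_nonneg b]
    · rw [h7]
      linarith only [sq_nonneg a]
  have h8 : (2048 : ℝ) ^ 2 ≤ M ^ 2 := pow_le_pow_left₀ (by norm_num) hM' 2
  rw [h2, h3] at hn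
  linarith only [hn, h6, h8]


end Pool.Agent.S5.Num
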