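import Pool.Agent.S5.I.NumPt

/-!
# The point evaluation: values
-/

set_option autoImplicit false

namespace Pool.Agent.S5.Num

open Complex Pool.Agent.H63.VC3 Pool.Agent.H63.VC5 Pool.Agent.S3

theorem Bsp.sq_le {x s a b M : ℝ} (h : Bsp x s a b M) : M ^ 2 ≤ a ^ 2 + b ^ 2 := by
  rw [h.hMe]
  rcases max_choice a b with h7 | h7
  · rw [h7]
    linarith only [sq_nonneg b]
  · rw [h7]
    linarith only [sq_nonneg a]

theorem Bsp.M_le {x s a b M : ℝ} (h : Bsp x s a b M) : M ≤ 3 * UU := by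
  have hU := UU_pos
  rw [h.hMe]
  exact max_le h.haU (h.hbU.trans (by linarith))

theorem Bsp.log_norm {x s a b M : ℝ} (h : Bsp x s a b M) :
    |UU * Real.log ‖1 - ww x s‖ - (UU * Real.log √(a ^ 2 + b ^ 2) - 48 * (UU * Real.log 2))| ≤
      UU * (512 / (M - 512)) := by
  have hU := UU_pos
  have h1 := norm_err (by norm_num : (0 : ℝ) < 512) (by linarith [h.hM]) h.sq_le h.hn
  have hA : 0 < 1 - (ww x s).re := by linarith [h.hα]
  have e1 : √(((1 - (ww x s).re) * UU) ^ 2 + ((ww x s).im * UU) ^ 2) = ‖1 - ww x s‖ * 2 ^ 48 := by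
    have e2 : ((1 - (ww x s).re) * UU) ^ 2 + ((ww x s).im * UU) ^ 2 =
        (‖1 - ww x s‖ * 2 ^ 48) ^ 2 := by
      rw [mul_pow ‖1 - ww x s‖, Complex.sq_norm, normSq_apply, sub_re, sub_im, one_re, one_im]
      have : UU = 2 ^ 48 := by norm_num [UU]
      rw [this]
      ring
    rw [e2, Real.sqrt_sq (mul_nonneg (norm_nonneg _) (by norm_num))]
  have hne : ‖1 - ww x s‖ ≠ 0 := by
    rw [norm_ne_zero_iff]
    intro h2
    have : (1 - ww x s).re = 0 := by rw [h2]; simp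
    rw [sub_re, one_re] at this
    linarith
  rw [e1, Real.log_mul hne (by norm_num), Real.log_pow] at h1
  push_cast at h1
  have h2 := mul_le_mul_of_nonneg_left h1 hU.le
  rw [← abs_of_pos hU, ← abs_mul, abs_of_pos hU] at h2
  refine le_trans (le_of_eq ?_) h2
  congr 1
  ring

/-- The value of `Lg`. -/
theorem lgp_sound {S D a b : ℕ} {x M : ℝ} (hD : 1 ≤ D) (hS : 2 * S ≤ D) (h0 : 0 ≤ x)
    (h1 : x ≤ 1 / 2) (h : Bsp x ((S : ℝ) / D) a b M) :
    |((lgp S D a b : ℕ) : ℝ) - 9364972152248016 - (KK + UU * Lg ((S : ℝ) / D) x)| ≤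
      68 + UU * (512 / (M - 512)) := by
  have hU := UU_pos
  have hD' : (0 : ℝ) < D := by exact_mod_cast hD
  have hS' : 2 * (S : ℝ) ≤ D := by exact_mod_cast hS
  have hs' : (S : ℝ) / D ≤ 1 / 2 := by rw [div_le_iff₀ hD']; linarith
  have hs0 : 0 ≤ (S : ℝ) / D := div_nonneg (Nat.cast_nonneg S) hD'.le
  have pi1 := Real.pi_gt_d20
  have pi2 := Real.pi_lt_d20
  have b1 := div_bounds (884279719003555 * S) (show 0 < D from hD)
  have e1 : lgp S D a b = 4503599627370496 + 884279719003555 * S / D + lnh (a * a + b * b) := by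
    unfold lgp
    rw [fN_eq]
    rfl
  rw [e1]
  have hv0 : 0 < a * a + b * b := by
    have : (0 : ℝ) < ((a * a + b * b : ℕ) : ℝ) := by
      push_cast
      have := h.ha
      have := h.hb
      positivity
    exact_mod_cast this
  have hv1 : a * a + b * b < 2 ^ 120 := by
    have : ((a * a + b * b : ℕ) : ℝ) < ((2 ^ 120 : ℕ) : ℝ) := by
      have k1 := h.haU
      have k2 := h.hbU
      have k3 := h.ha
      have k4 := h.hb
      have k5 : (a : ℝ) * a ≤ (3 * UU) * (3 * UU) := mul_le_mul k1 k1 (by linarith) (by linarith)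
      have k6 : (b : ℝ) * b ≤ (2 * UU) * (2 * UU) := mul_le_mul k2 k2 k4 (by linarith)
      have k7 : (3 * UU) * (3 * UU) + (2 * UU) * (2 * UU) < ((2 ^ 120 : ℕ) : ℝ) := by
        norm_num [UU]
      push_cast
      push_cast at k7
      linarith
    exact_mod_cast this
  have h2 := abs_le.1 (lnh_sound hv0 hv1)
  have e2 : 1 / 2 * Real.log ((a * a + b * b : ℕ) : ℝ) = Real.log √((a : ℝ) ^ 2 + b ^ 2) := by
    rw [Real.log_sqrt (by positivity)]
    push_cast
    rw [pow_two, pow_two]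
    ring
  rw [e2] at h2
  have h3 := abs_le.1 h.log_norm
  have h4 := abs_le.1 log_two_U
  rw [Lg_ww h0 h1 h.hα, Nat.cast_add, Nat.cast_add]
  clear hv0 hv1 e1
  generalize ((884279719003555 * S / D : ℕ) : ℝ) = n1 at b1 ⊢
  generalize ((lnh (a * a + b * b) : ℕ) : ℝ) = n2 at h2 ⊢
  push_cast at b1
  have e3 : (884279719003555 : ℝ) * S / D = 884279719003555 * ((S : ℝ) / D) := by ring
  rw [e3] at b1
  have e4 : ((4503599627370496 : ℕ) : ℝ) = KK := by norm_num [KK]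
  rw [e4]
  have h5 : |(S : ℝ) / D * (Real.pi * UU - 884279719003555)| ≤ 1 / 2 := by
    rw [abs_mul, abs_of_nonneg hs0]
    have hPI : |Real.pi * UU - 884279719003555| ≤ 1 := by
      unfold UU
      rw [abs_le]
      constructor <;> linarith
    have := mul_le_mul hs' hPI (abs_nonneg _) (by norm_num)
    linarith
  have h6 := abs_le.1 h5
  rw [mul_add, abs_le]
  constructor <;>
    linarith only [h2.1, h2.2, h3.1, h3.2, h4.1, h4.2, h6.1, h6.2, b1.1, b1.2]

/-- The value of `th`. -/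
theorem thn_sound {X D a b : ℕ} {s M : ℝ} (hD : 1 ≤ D) (hX : 2 * X ≤ D)
    (h : Bsp ((X : ℝ) / D) s a b M) :
    |KK + 442139859501777 - ((thn X D a b : ℕ) : ℝ) -
      (KK + UU * (hh ((((X : ℝ) / D : ℝ) : ℂ) + s * I)).im)| ≤
      12 + UU * (512 / (M - 512)) := by
  have hU := UU_pos
  have hD' : (0 : ℝ) < D := by exact_mod_cast hD
  have hX' : 2 * (X : ℝ) ≤ D := by exact_mod_cast hX
  have h1 : (X : ℝ) / D ≤ 1 / 2 := by rw [div_le_iff₀ hD']; linarith
  have h0 : 0 ≤ (X : ℝ) / D := div_nonneg (Nat.cast_nonneg X) hD'.le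
  have pi1 := Real.pi_gt_d20
  have pi2 := Real.pi_lt_d20
  have b1 := div_bounds (884279719003555 * X) (show 0 < D from hD)
  have e1 : thn X D a b = 884279719003555 * X / D + atq b a := rfl
  have ha1 : 0 < a := by
    have : (0 : ℝ) < a := by linarith [h.ha]
    exact_mod_cast this
  have h2 := abs_le.1 (atq_sound (p := b) ha1)
  have hA : 0 < (1 - (ww ((X : ℝ) / D) s).re) * UU := mul_pos (by linarith [h.hα]) hU
  have hB : 0 ≤ (ww ((X : ℝ) / D) s).im * UU := mul_nonneg h.hβ hU.le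
  have h3 := angle_err hA hB (by linarith [h.ha] : (0 : ℝ) < a) h.hb
    (by norm_num : (0 : ℝ) < 512) (by linarith [h.hM]) h.sq_le h.hn
  rw [mul_div_mul_right _ _ hU.ne'] at h3
  have h4 := mul_le_mul_of_nonneg_left h3 hU.le
  rw [← abs_of_pos hU, ← abs_mul, abs_of_pos hU, mul_sub] at h4
  have h5 := abs_le.1 h4
  rw [e1, th_ww h0 h1 h.hα, Nat.cast_add]
  clear e1 ha1
  generalize ((884279719003555 * X / D : ℕ) : ℝ) = n1 at b1 ⊢
  push_cast at b1
  have e3 : (884279719003555 : ℝ) * X / D = 884279719003555 * ((X : ℝ) / D) := by ring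
  rw [e3] at b1
  have h6 : |(X : ℝ) / D * (Real.pi * UU - 884279719003555)| ≤ 1 / 2 := by
    rw [abs_mul, abs_of_nonneg h0]
    have hPI : |Real.pi * UU - 884279719003555| ≤ 1 := by
      unfold UU
      rw [abs_le]
      constructor <;> linarith
    have := mul_le_mul h1 hPI (abs_nonneg _) (by norm_num)
    linarith
  have h7 := abs_le.1 h6
  have hPH : |UU * (Real.pi / 2) - 442139859501777| ≤ 1 := by
    unfold UU
    rw [abs_le]
    constructor <;> linarith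
  have h8 := abs_le.1 hPH
  rw [mul_sub, mul_add, abs_le]
  constructor <;> linarith only [h2.1, h2.2, h5.1, h5.2, h7.1, h7.2, h8.1, h8.2, b1.1, b1.2]

/-- The error of a quotient. -/
theorem quot_err {A B a b e M : ℝ} (he : 0 < e) (hM : e < M) (hM2 : M ^ 2 ≤ a ^ 2 + b ^ 2)
    (h : (A - a) ^ 2 + (B - b) ^ 2 ≤ e ^ 2) :
    |A / (A ^ 2 + B ^ 2) - a / (a ^ 2 + b ^ 2)| ≤ e / (M - e) ^ 2 ∧
    |B / (A ^ 2 + B ^ 2) - b / (a ^ 2 + b ^ 2)| ≤ e / (M - e) ^ 2 := by
  set z : ℂ := (A : ℂ) - B * I with hz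
  set ζ : ℂ := (a : ℂ) - b * I with hζ
  have n1 : ‖ζ‖ ^ 2 = a ^ 2 + b ^ 2 := by
    rw [Complex.sq_norm, normSq_apply, hζ]
    simp
    ring
  have n2 : ‖z‖ ^ 2 = A ^ 2 + B ^ 2 := by
    rw [Complex.sq_norm, normSq_apply, hz]
    simp
    ring
  have n3 : ‖ζ - z‖ ≤ e := by
    have : ‖ζ - z‖ ^ 2 ≤ e ^ 2 := by
      rw [Complex.sq_norm, normSq_apply, hz, hζ]
      simp
      linarith
    exact le_of_sq_le_sq this he.le
  have n4 : M ≤ ‖ζ‖ := by
    apply le_of_sq_le_sq _ (norm_nonneg _)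
    rw [n1]
    exact hM2
  have n5 : M - e ≤ ‖z‖ := by
    have := norm_sub_norm_le ζ z
    linarith
  have hMe : 0 < M - e := by linarith
  have hz0 : z ≠ 0 := by
    rw [← norm_pos_iff]
    linarith
  have hζ0 : ζ ≠ 0 := by
    rw [← norm_pos_iff]
    linarith
  have n6 : ‖z⁻¹ - ζ⁻¹‖ ≤ e / (M - e) ^ 2 := by
    have e1 : z⁻¹ - ζ⁻¹ = (ζ - z) / (z * ζ) := by field_simp
    rw [e1, norm_div, norm_mul]
    apply div_le_div₀ he.le n3 (by positivity)
    rw [pow_two]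
    exact mul_le_mul n5 (by linarith) hMe.le (norm_nonneg _)
  have r1 : (z⁻¹ - ζ⁻¹).re = A / (A ^ 2 + B ^ 2) - a / (a ^ 2 + b ^ 2) := by
    rw [sub_re, inv_re, inv_re, ← Complex.sq_norm, ← Complex.sq_norm, n1, n2, hz, hζ]
    simp
  have r2 : (z⁻¹ - ζ⁻¹).im = B / (A ^ 2 + B ^ 2) - b / (a ^ 2 + b ^ 2) := by
    rw [sub_im, inv_im, inv_im, ← Complex.sq_norm, ← Complex.sq_norm, n1, n2, hz, hζ]
    simp
  rw [← r1, ← r2]
  exact ⟨(abs_re_le_norm _).trans n6, (abs_im_le_norm _).trans n6⟩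

/-- Rounding of the quotient. -/
theorem quot_round {a b n : ℕ} {M : ℝ} (hM0 : 0 < M) (hM2 : M ^ 2 ≤ (a : ℝ) ^ 2 + b ^ 2)
    (hn : (n : ℝ) ^ 2 ≤ (a : ℝ) ^ 2 + b ^ 2) :
    |(((497805226624462151055740764160 * n) / (a * a + b * b) : ℕ) : ℝ) -
      2 * Real.pi * UU ^ 2 * ((n : ℝ) / (a ^ 2 + b ^ 2))| ≤ 1 + UU / M / 10 := by
  have hU := UU_pos
  have pi1 := Real.pi_gt_d20
  have pi2 := Real.pi_lt_d20
  have hv : (0 : ℝ) < (a : ℝ) ^ 2 + b ^ 2 := lt_of_lt_of_le (by positivity) hM2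
  have hv' : 0 < a * a + b * b := by
    have : (0 : ℝ) < ((a * a + b * b : ℕ) : ℝ) := by
      push_cast
      nlinarith
    exact_mod_cast this
  have b1 := div_bounds (497805226624462151055740764160 * n) hv'
  clear hv'
  generalize (((497805226624462151055740764160 * n) / (a * a + b * b) : ℕ) : ℝ) = r at b1 ⊢
  push_cast at b1
  have e1 : (497805226624462151055740764160 : ℝ) * n / (a * a + b * b) =
      1768559438007110 * UU * ((n : ℝ) / (a ^ 2 + b ^ 2)) := by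
    unfold UU
    rw [pow_two, pow_two]
    ring
  rw [e1] at b1
  have h1 : (n : ℝ) / (a ^ 2 + b ^ 2) ≤ 1 / M := by
    rw [div_le_div_iff₀ hv hM0, one_mul]
    apply le_of_sq_le_sq _ hv.le
    rw [mul_pow, pow_two ((a : ℝ) ^ 2 + b ^ 2)]
    exact mul_le_mul hn hM2 (by positivity) hv.le
  have h0 : 0 ≤ (n : ℝ) / (a ^ 2 + b ^ 2) := div_nonneg (Nat.cast_nonneg n) hv.le
  have h2 : |(2 * Real.pi * UU - 1768559438007110) * (UU * ((n : ℝ) / (a ^ 2 + b ^ 2)))| ≤
      UU / M / 10 := by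
    have hP : |2 * Real.pi * UU - 1768559438007110| ≤ 1 / 10 := by
      unfold UU
      rw [abs_le]
      constructor <;> linarith
    have h3 : UU * ((n : ℝ) / (a ^ 2 + b ^ 2)) ≤ UU * (1 / M) := mul_le_mul_of_nonneg_left h1 hU.le
    have h4 : 0 ≤ UU * ((n : ℝ) / (a ^ 2 + b ^ 2)) := mul_nonneg hU.le h0
    rw [abs_mul, abs_of_nonneg h4]
    refine (mul_le_mul hP h3 h4 (by norm_num)).trans (le_of_eq ?_)
    ring
  have h3 := abs_le.1 h2
  have e2 : 2 * Real.pi * UU ^ 2 * ((n : ℝ) / (a ^ 2 + b ^ 2)) =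
      (2 * Real.pi * UU - 1768559438007110) * (UU * ((n : ℝ) / (a ^ 2 + b ^ 2))) +
      1768559438007110 * UU * ((n : ℝ) / (a ^ 2 + b ^ 2)) := by ring
  rw [e2, abs_le]
  constructor <;> linarith only [h3.1, h3.2, b1.1, b1.2]

end Pool.Agent.S5.Num
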