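import Pool.Agent.S5.I.Tl
import Pool.Agent.S5.I.CxK

/-!
# Second order Taylor formulas for the tangent planes
-/

set_option autoImplicit false

namespace Pool.Agent.S5.Pa

open Pool.Agent.H63.VC3 Pool.Agent.S3 Complex Set Pool.Agent.S5.Tb Pool.Agent.S5.Cx

theorem sin_pi_ne {z : ℂ} (h0 : 0 < z.re) (h1 : z.re < 1) : sin (Real.pi * z) ≠ 0 := by
  intro h
  have h2 := norm_sin_pi_sq z.re z.im
  rw [re_add_im, h, norm_zero] at h2
  have h3 : 0 < Real.sin (Real.pi * z.re) :=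
    Real.sin_pos_of_pos_of_lt_pi (mul_pos Real.pi_pos h0) (by nlinarith [Real.pi_pos])
  have h4 := sq_nonneg (Real.sinh (Real.pi * z.im))
  have h5 : 0 < Real.sin (Real.pi * z.re) ^ 2 := by positivity
  norm_num at h2
  linarith

/-- The derivative of the cotangent. -/
theorem cc_hasDerivAt {z : ℂ} (h0 : 0 < z.re) (h1 : z.re < 1) :
    HasDerivAt (fun z : ℂ => (Real.pi : ℂ) * cot (Real.pi * z))
      (-((Real.pi : ℂ) ^ 2 / sin (Real.pi * z) ^ 2)) z := by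
  have hs := sin_pi_ne h0 h1
  have h2 : HasDerivAt (fun z : ℂ => (Real.pi : ℂ) * z) Real.pi z := by
    simpa using (hasDerivAt_id z).const_mul (Real.pi : ℂ)
  have h3 : HasDerivAt (fun z : ℂ => cos (Real.pi * z)) (-sin (Real.pi * z) * Real.pi) z :=
    (Complex.hasDerivAt_cos _).comp z h2
  have h4 : HasDerivAt (fun z : ℂ => sin (Real.pi * z)) (cos (Real.pi * z) * Real.pi) z :=
    (Complex.hasDerivAt_sin _).comp z h2
  have h5 := (h3.div h4 hs).const_mul (Real.pi : ℂ)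
  have e : (fun z : ℂ => (Real.pi : ℂ) * cot (Real.pi * z)) =
      fun z : ℂ => (Real.pi : ℂ) * (cos (Real.pi * z) / sin (Real.pi * z)) := by
    funext u
    rw [Complex.cot]
  rw [e]
  refine h5.congr_deriv ?_
  have h6 := Complex.sin_sq_add_cos_sq (Real.pi * z)
  field_simp
  linear_combination (-1 : ℂ) * h6

/-- The segment stays in the strip. -/
theorem seg_re {z0 z : ℂ} {a b : ℝ} (h0 : a ≤ z0.re) (h1 : z0.re ≤ b) (h2 : a ≤ z.re)
    (h3 : z.re ≤ b) {τ : ℝ} (t0 : 0 ≤ τ) (t1 : τ ≤ 1) :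
    a ≤ (z0 + τ * (z - z0)).re ∧ (z0 + τ * (z - z0)).re ≤ b := by
  have e : (z0 + τ * (z - z0)).re = (1 - τ) * z0.re + τ * z.re := by
    rw [add_re, re_ofReal_mul, sub_re]
    ring
  rw [e]
  constructor <;> nlinarith

/-- Second order Taylor formula for `hh`. -/
theorem hh_taylor {z0 z : ℂ} {K : ℝ} (h0 : 0 < z0.re) (h1 : z0.re < 1) (h2 : 0 < z.re)
    (h3 : z.re < 1) (hK : ∀ τ : ℝ, 0 ≤ τ → τ ≤ 1 →
      ‖(Real.pi : ℂ) ^ 2 / sin (Real.pi * (z0 + τ * (z - z0))) ^ 2‖ ≤ K) :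
    ‖hh z - hh z0 - Real.pi * cot (Real.pi * z0) * (z - z0)‖ ≤ K / 2 * ‖z - z0‖ ^ 2 := by
  set w := z - z0 with hw
  have hdom : ∀ τ : ℝ, 0 ≤ τ → τ ≤ 1 → 0 < (z0 + τ * w).re ∧ (z0 + τ * w).re < 1 := by
    intro τ t0 t1
    have e : (z0 + τ * w).re = (1 - τ) * z0.re + τ * z.re := by
      rw [hw, add_re, re_ofReal_mul, sub_re]
      ring
    rw [e]
    rcases eq_or_lt_of_le t0 with h | h
    · subst h
      simp only [sub_zero, one_mul, zero_mul, add_zero]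
      exact ⟨h0, h1⟩
    · have h5 : 0 ≤ (1 - τ) * z0.re := mul_nonneg (by linarith) h0.le
      have h6 : 0 < τ * z.re := mul_pos h h2
      constructor
      · linarith
      · nlinarith
  have hl : ∀ τ : ℝ, HasDerivAt (fun τ : ℝ => z0 + τ * w) w τ := by
    intro τ
    have := ((Complex.ofRealCLM.hasDerivAt (x := τ)).mul_const w).const_add z0
    simpa using this
  have hc1 : ∀ τ ∈ Icc (0 : ℝ) 1, HasDerivWithinAt
      (fun τ : ℝ => (Real.pi : ℂ) * cot (Real.pi * (z0 + τ * w)))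
      (w • (-((Real.pi : ℂ) ^ 2 / sin (Real.pi * (z0 + τ * w)) ^ 2))) (Icc (0 : ℝ) 1) τ := by
    intro τ hτ
    obtain ⟨d0, d1⟩ := hdom τ hτ.1 hτ.2
    exact (HasDerivAt.scomp (g₁ := fun z : ℂ => (Real.pi : ℂ) * cot (Real.pi * z))
      (h := fun τ : ℝ => z0 + τ * w) τ (cc_hasDerivAt d0 d1) (hl τ)).hasDerivWithinAt
  have hb : ∀ τ ∈ Icc (0 : ℝ) 1, ‖(Real.pi : ℂ) * cot (Real.pi * (z0 + τ * w)) -
      Real.pi * cot (Real.pi * z0)‖ ≤ ‖w‖ * K * τ := by
    intro τ hτ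
    have h := (convex_Icc (0 : ℝ) 1).norm_image_sub_le_of_norm_hasDerivWithin_le
      (C := ‖w‖ * K) (fun x hx => hc1 x hx) (fun x hx => by
        rw [norm_smul, norm_neg]
        exact mul_le_mul_of_nonneg_left (hK x hx.1 hx.2) (norm_nonneg _))
      (left_mem_Icc.2 zero_le_one) hτ
    simp only [ofReal_zero, zero_mul, add_zero, sub_zero, Real.norm_eq_abs] at h
    rwa [abs_of_nonneg hτ.1] at h
  have hder : ∀ τ ∈ Icc (0 : ℝ) 1, HasDerivAt
      (fun τ : ℝ => hh (z0 + τ * w) - hh z0 - τ * (Real.pi * cot (Real.pi * z0) * w))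
      (w * (Real.pi * cot (Real.pi * (z0 + τ * w))) - Real.pi * cot (Real.pi * z0) * w) τ := by
    intro τ hτ
    obtain ⟨d0, d1⟩ := hdom τ hτ.1 hτ.2
    have a1 : HasDerivAt (fun τ : ℝ => hh (z0 + τ * w))
        (w • ((Real.pi : ℂ) * cot (Real.pi * (z0 + τ * w)))) τ :=
      HasDerivAt.scomp (g₁ := hh) (h := fun τ : ℝ => z0 + τ * w) τ (hh_hasDerivAt _ d0 d1) (hl τ)
    have a2 : HasDerivAt (fun τ : ℝ => (τ : ℂ) * (Real.pi * cot (Real.pi * z0) * w))
        (Real.pi * cot (Real.pi * z0) * w) τ := by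
      have := (Complex.ofRealCLM.hasDerivAt (x := τ)).mul_const
        ((Real.pi : ℂ) * cot (Real.pi * z0) * w)
      simpa using this
    exact (a1.sub_const (hh z0)).sub a2
  have key := image_norm_le_of_norm_deriv_right_le_deriv_boundary
    (f := fun τ : ℝ => hh (z0 + τ * w) - hh z0 - τ * (Real.pi * cot (Real.pi * z0) * w))
    (f' := fun τ : ℝ => w * (Real.pi * cot (Real.pi * (z0 + τ * w))) -
      Real.pi * cot (Real.pi * z0) * w) (a := 0) (b := 1)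
    (B := fun τ : ℝ => ‖w‖ ^ 2 * K / 2 * τ ^ 2) (B' := fun τ : ℝ => ‖w‖ ^ 2 * K * τ)
    (fun τ hτ => (hder τ hτ).continuousAt.continuousWithinAt)
    (fun τ hτ => (hder τ (Ico_subset_Icc_self hτ)).hasDerivWithinAt)
    (by simp) (fun τ => by
      refine ((hasDerivAt_pow 2 τ).const_mul (‖w‖ ^ 2 * K / 2)).congr_deriv ?_
      push_cast
      ring) (fun τ hτ => by
      have h5 := hb τ (Ico_subset_Icc_self hτ)
      have e : w * (Real.pi * cot (Real.pi * (z0 + τ * w))) - Real.pi * cot (Real.pi * z0) * w =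
          w * (Real.pi * cot (Real.pi * (z0 + τ * w)) - Real.pi * cot (Real.pi * z0)) := by ring
      rw [e, norm_mul]
      have h6 := mul_le_mul_of_nonneg_left h5 (norm_nonneg w)
      calc _ ≤ ‖w‖ * (‖w‖ * K * τ) := h6
        _ = _ := by ring) (right_mem_Icc.2 zero_le_one)
  simp only [ofReal_one, one_mul, one_pow, mul_one] at key
  have e1 : z0 + w = z := by rw [hw]; ring
  rw [e1] at key
  calc _ ≤ _ := key
    _ = _ := by ring

/-- The tangent plane at `z`, evaluated at `w`, in terms of `z0`. -/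
theorem phi_le {z0 z w : ℂ} {K L : ℝ} (h0 : 0 < z0.re) (h1 : z0.re < 1) (h2 : 0 < z.re)
    (h3 : z.re < 1) (hK : ∀ τ : ℝ, 0 ≤ τ → τ ≤ 1 → ‖ct (z0 + τ * (z - z0))‖ ≤ K)
    (hL : ∀ τ : ℝ, 0 ≤ τ → τ ≤ 1 →
      ‖(Real.pi : ℂ) ^ 2 / sin (Real.pi * (z0 + τ * (z - z0))) ^ 2‖ ≤ L) :
    Rf z + (hh z * (w - z)).re ≤ Rf z0 + (hh z0 * (w - z0)).re +
      (Real.pi * cot (Real.pi * z0) * (z - z0) * (w - z0)).re +
        1 / 2 * (K + L * ‖w - z0‖) * ‖z - z0‖ ^ 2 := by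
  have hs := fun (τ : ℝ) (t0 : 0 ≤ τ) (t1 : τ ≤ 1) =>
    seg_re (z0 := z0) (z := z) (a := min z0.re z.re) (b := max z0.re z.re) (min_le_left _ _)
      (le_max_left _ _) (min_le_right _ _) (le_max_right _ _) t0 t1
  have m0 : 0 < min z0.re z.re := lt_min h0 h2
  have m1 : max z0.re z.re < 1 := max_lt h1 h3
  have e0 : ∀ τ : ℝ, z + τ * (z0 - z) = z0 + ((1 - τ : ℝ) : ℂ) * (z - z0) := by
    intro τ
    push_cast
    ring
  have t := taylor (g := z) (z := z0) (K := K) (fun τ t0 t1 => by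
    rw [e0]
    obtain ⟨a1, a2⟩ := hs (1 - τ) (by linarith) (by linarith)
    exact Or.inr ⟨m0.trans_le a1, a2.trans_lt m1⟩) (fun τ t0 t1 => by
    rw [e0]
    exact hK _ (by linarith) (by linarith))
  rw [he_eq_hh h2 h3] at t
  have u := hh_taylor h0 h1 h2 h3 hL
  have v : ((hh z - hh z0 - Real.pi * cot (Real.pi * z0) * (z - z0)) * (w - z0)).re ≤
      L / 2 * ‖z - z0‖ ^ 2 * ‖w - z0‖ := by
    refine (re_le_norm _).trans ?_
    rw [norm_mul]
    exact mul_le_mul_of_nonneg_right u (norm_nonneg _)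
  have e1 : ‖z - z0‖ ^ 2 = (z0.re - z.re) ^ 2 + (z0.im - z.im) ^ 2 := by
    rw [← normSq_eq_norm_sq, normSq_apply, sub_re, sub_im]
    ring
  have e2 : ((hh z - hh z0 - Real.pi * cot (Real.pi * z0) * (z - z0)) * (w - z0)).re =
      (hh z * (w - z)).re + (hh z * (z - z0)).re - (hh z0 * (w - z0)).re -
        (Real.pi * cot (Real.pi * z0) * (z - z0) * (w - z0)).re := by
    rw [← add_re, ← sub_re, ← sub_re]
    congr 1
    ring
  have e3 : (hh z * (z - z0)).re = -((hh z).re * (z0.re - z.re) - (hh z).im * (z0.im - z.im)) := by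
    rw [mul_re, sub_re, sub_im]
    ring
  rw [← e1] at t
  rw [e2, e3] at v
  linarith

/-- Bounds of the derivatives by the table. -/
theorem der_le {i j : ℕ} (hi : i ≤ 100) (hi0 : 0 < i) (h : EntOK i j (ent i j)) {z : ℂ}
    (h1 : (i : ℝ) / 200 ≤ z.re) (h2 : z.re ≤ 1 - (i : ℝ) / 200) (h3 : (j : ℝ) / 200 ≤ |z.im|) :
    ‖ct z‖ ≤ (kE (ent i j) : ℝ) / 16 ∧
      ‖(Real.pi : ℂ) ^ 2 / sin (Real.pi * z) ^ 2‖ ≤ ((kE (ent i j) : ℝ) ^ 2 - 2526) / 256 := by
  have hpi := Real.pi_pos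
  have hi0' : (0 : ℝ) < (i : ℝ) / 200 := by positivity
  have hr : |z.re| = z.re := abs_of_nonneg (by linarith)
  refine ⟨ct_le hi (by omega) h (by rw [hr]; exact h1) (by rw [hr]; exact h2) h3, ?_⟩
  have hk := h.k
  set D0 := Real.sin (Real.pi * (i / 200)) ^ 2 + Real.sinh (Real.pi * (j / 200)) ^ 2 with hD0
  have hi' : (i : ℝ) / 200 ≤ 1 / 2 := by
    have : (i : ℝ) ≤ 100 := by exact_mod_cast hi
    linarith
  have hj0 : (0 : ℝ) ≤ (j : ℝ) / 200 := by positivity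
  have hD : 0 < D0 := by
    have : 0 < Real.sin (Real.pi * (i / 200)) :=
      Real.sin_pos_of_pos_of_lt_pi (by positivity) (by nlinarith)
    rw [hD0]
    positivity
  set D := Real.sin (Real.pi * z.re) ^ 2 + Real.sinh (Real.pi * z.im) ^ 2 with hDd
  have hDD : D0 ≤ D := by
    have a1 := abs_sin_ge hi0'.le (by rw [hr]; exact h1) (by rw [hr]; exact h2)
    have a2 := sinh_sq_le (x := Real.pi * (j / 200)) (y := Real.pi * z.im) (by
      rw [abs_mul, abs_mul, abs_of_nonneg hj0]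
      exact mul_le_mul_of_nonneg_left h3 (abs_nonneg _))
    linarith
  have hDp : 0 < D := hD.trans_le hDD
  have hs : ‖sin (Real.pi * z)‖ ^ 2 = D := by
    have := norm_sin_pi_sq z.re z.im
    rw [re_add_im] at this
    exact this
  rw [norm_div, norm_pow, norm_pow, norm_real, Real.norm_eq_abs, abs_of_pos hpi, hs]
  have h9 : 1 / D ≤ 1 / D0 := div_le_div_of_nonneg_left zero_le_one hD hDD
  have h10 : Real.pi ^ 2 / D ≤ Real.pi ^ 2 * (1 / D0) := by
    rw [div_eq_mul_one_div]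
    exact mul_le_mul_of_nonneg_left h9 (by positivity)
  have pi1 := Real.pi_gt_d6
  have pi2 : 2526 / 256 ≤ Real.pi ^ 2 := by nlinarith
  linarith

end Pool.Agent.S5.Pa
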