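import Pool.Agent.S5.I.PaA

/-!
# One atom of the functional
-/

set_option autoImplicit false

namespace Pool.Agent.S5.Pa

open Pool.Agent.H63.VC3 Pool.Agent.S3 Complex Set Pool.Agent.S5.Tb Pool.Agent.S5.Cx

/-- The data are right at the point `z`. -/
structure Gd (z : ℂ) (qp qn tp tn l ap an bp bn : ℕ) : Prop where
  q : |-Rf z * 1048576 - ((qp : ℝ) - qn)| ≤ 32
  l : |(hh z).re * 1048576 - ((l : ℝ) - 8388608)| ≤ 4
  t : |(hh z).im * 1048576 - ((tp : ℝ) - tn)| ≤ 4
  a : |(Real.pi * cot (Real.pi * z)).re * 4096 - ((ap : ℝ) - an)| ≤ 1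
  b : |(Real.pi * cot (Real.pi * z)).im * 4096 - ((bp : ℝ) - bn)| ≤ 1

theorem cot_conj' (z : ℂ) : (Real.pi : ℂ) * cot (Real.pi * (starRingEnd ℂ) z) =
    (starRingEnd ℂ) (Real.pi * cot (Real.pi * z)) := by
  have e : (Real.pi : ℂ) * (starRingEnd ℂ) z = (starRingEnd ℂ) (Real.pi * z) := by
    rw [map_mul, conj_ofReal]
  have h : ∀ w : ℂ, cot ((starRingEnd ℂ) w) = (starRingEnd ℂ) (cot w) := by
    intro w
    rw [Complex.cot, Complex.cot, map_div₀, Complex.cos_conj, Complex.sin_conj]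
  rw [e, h, map_mul (starRingEnd ℂ) (Real.pi : ℂ) (cot _), conj_ofReal]

theorem Gd.conj {z : ℂ} {qp qn tp tn l ap an bp bn : ℕ} (h : Gd z qp qn tp tn l ap an bp bn)
    (h0 : 0 < z.re) (h1 : z.re < 1) : Gd ((starRingEnd ℂ) z) qp qn tn tp l ap an bn bp := by
  refine ⟨?_, ?_, ?_, ?_, ?_⟩
  · rw [Rf_conj]
    exact h.q
  · rw [hh_conj z h0 h1, conj_re]
    exact h.l
  · rw [hh_conj z h0 h1, conj_im]
    have := h.t
    rw [abs_le] at this ⊢
    constructor <;> linarith [this.1, this.2]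
  · rw [cot_conj', conj_re]
    exact h.a
  · rw [cot_conj', conj_im]
    have := h.b
    rw [abs_le] at this ⊢
    constructor <;> linarith [this.1, this.2]

theorem Gd.rfl' {z : ℂ} {qp qn tp tn l ap an bp bn : ℕ} (h : Gd z qp qn tp tn l ap an bp bn) :
    Gd (1 - z) qn qp tp tn l an ap bn bp := by
  have e : (Real.pi : ℂ) * cot (Real.pi * (1 - z)) = -(Real.pi * cot (Real.pi * z)) := by
    rw [Complex.cot, Complex.cot, show (Real.pi * (1 - z) : ℂ) = Real.pi - Real.pi * z by ring,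
      Complex.sin_pi_sub, Complex.cos_pi_sub]
    ring
  refine ⟨?_, ?_, ?_, ?_, ?_⟩
  · rw [Rf_one_sub]
    have := h.q
    rw [abs_le] at this ⊢
    constructor <;> linarith [this.1, this.2]
  · rw [Pot_hh_reflect]
    exact h.l
  · rw [Pot_hh_reflect]
    exact h.t
  · rw [e, neg_re]
    have := h.a
    rw [abs_le] at this ⊢
    constructor <;> linarith [this.1, this.2]
  · rw [e, neg_im]
    have := h.b
    rw [abs_le] at this ⊢
    constructor <;> linarith [this.1, this.2]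

theorem gd_pt {i j : ℕ} (h0 : 13 ≤ i) (h1 : i ≤ 100) (hj : j ≤ 38)
    (hE : EntOK i j (ent i j)) : Gd (pt i j) (qE (ent i j)) 0 (tE (ent i j)) 0 (lE (ent i j))
      (aE (entC i j)) 0 0 (bE (entC i j)) := by
  have hC := entC_ok i j h0 h1 hj
  have hL : (hh (pt i j)).re = Lg ((j : ℝ) / 200) ((i : ℝ) / 200) := by
    unfold pt
    exact hh_re' _ _
  refine ⟨?_, ?_, ?_, ?_, ?_⟩
  · simpa using hE.q
  · rw [hL]
    have := hE.l
    rw [abs_le] at this ⊢
    constructor <;> linarith [this.1, this.2]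
  · simpa using hE.t
  · simpa using hC.a
  · have := hC.b
    rw [abs_le] at this ⊢
    rw [Nat.cast_zero]
    constructor <;> linarith [this.1, this.2]

theorem norm_le_mx {z : ℂ} {A B : ℝ} (hA : |z.re| ≤ A) (hB : |z.im| ≤ B) :
    ‖z‖ ≤ max A B + min A B / 2 := by
  have h1 : ‖z‖ ^ 2 = z.re ^ 2 + z.im ^ 2 := by
    rw [← normSq_eq_norm_sq, normSq_apply]
    ring
  have hA0 := (abs_nonneg _).trans hA
  have hB0 := (abs_nonneg _).trans hB
  have h2 : z.re ^ 2 ≤ A ^ 2 := sq_le_sq' (by linarith only [(abs_le.1 hA).1]) (abs_le.1 hA).2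
  have h3 : z.im ^ 2 ≤ B ^ 2 := sq_le_sq' (by linarith only [(abs_le.1 hB).1]) (abs_le.1 hB).2
  have h4 : A ^ 2 + B ^ 2 ≤ (max A B + min A B / 2) ^ 2 := by
    rcases le_total A B with h | h
    · rw [max_eq_right h, min_eq_left h]
      linarith only [mul_nonneg (sub_nonneg.2 hA0) (sub_nonneg.2 h),
        mul_nonneg (sub_nonneg.2 hA0) (sub_nonneg.2 hB0)]
    · rw [max_eq_left h, min_eq_right h]
      linarith only [mul_nonneg (sub_nonneg.2 hB0) (sub_nonneg.2 h),
        mul_nonneg (sub_nonneg.2 hA0) (sub_nonneg.2 hB0)]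
  have h5 : 0 ≤ max A B + min A B / 2 := by
    have := le_min hA0 hB0
    have := hA0.trans (le_max_left A B)
    linarith [this]
  exact abs_le_of_sq_le_sq' (by linarith only [h4, h3, h2, h1]) h5 |>.2

/-- The bound of an atom. -/
theorem atom_le {z0 z w : ℂ} {q l t a b K am bm P R e1 e2 dn : ℝ}
    (hq : |-Rf z0 * 1048576 - q| ≤ 32) (hl : |(hh z0).re * 1048576 - l| ≤ 4)
    (ht : |(hh z0).im * 1048576 - t| ≤ 4)
    (ha : |(Real.pi * cot (Real.pi * z0)).re * 4096 - a| ≤ 1)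
    (hb : |(Real.pi * cot (Real.pi * z0)).im * 4096 - b| ≤ 1)
    (h0 : 0 < z0.re) (h1 : z0.re < 1) (h2 : 0 < z.re) (h3 : z.re < 1)
    (hK : ∀ τ : ℝ, 0 ≤ τ → τ ≤ 1 → ‖ct (z0 + τ * (z - z0))‖ ≤ K / 16)
    (hL : ∀ τ : ℝ, 0 ≤ τ → τ ≤ 1 →
      ‖(Real.pi : ℂ) ^ 2 / sin (Real.pi * (z0 + τ * (z - z0))) ^ 2‖ ≤ (K ^ 2 - 2526) / 256)
    (hα : |2000 * (z.re - z0.re)| ≤ am) (hβ : |2000 * (z.im - z0.im)| ≤ bm)
    (hwr : w.re - z0.re = P / 200 + e1 / 2000) (hwi : w.im - z0.im = R / 200 + e2 / 2000)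
    (he : e1 ^ 2 + e2 ^ 2 ≤ dn ^ 2) (hdn : 0 ≤ dn) :
    (Rf z + (hh z * (w - z)).re) * 838860800000 ≤
      -800000 * q + 4000 * (l * P - t * R) +
        512 * ((a * P - b * R) * (2000 * (z.re - z0.re)) -
          (b * P + a * R) * (2000 * (z.im - z0.im))) + 400 * (l * e1 - t * e2) +
        ((65536000 * K * ((am ^ 2 + bm ^ 2) + (2 * max am bm + min am bm) * dn) +
          2048 * (K ^ 2 - 2526) * ((10 * max |P| |R| + 5 * min |P| |R| + dn) *
            (am ^ 2 + bm ^ 2))) / 10000 + 25600000 +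
          ((|P| + |R|) * (16000 + 512 * (am + bm)) + 3200 * dn)) := by
  have hphi := phi_le (w := w) h0 h1 h2 h3 hK hL
  have hK0 : 0 ≤ K := by
    have := (norm_nonneg _).trans (hK 0 le_rfl zero_le_one)
    linarith only [this]
  have hL0 : 0 ≤ K ^ 2 - 2526 := by
    have := (norm_nonneg _).trans (hL 0 le_rfl zero_le_one)
    linarith only [this]
  have hc : ‖(Real.pi : ℂ) * cot (Real.pi * z0)‖ ≤ K / 16 := by
    have := hK 0 le_rfl zero_le_one
    rw [ofReal_zero, zero_mul, add_zero] at this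
    have e : ct z0 = (Real.pi : ℂ) * cot (Real.pi * z0) := by
      unfold ct
      rw [Complex.cot, mul_div_assoc]
    rwa [e] at this
  have hδ : ‖z - z0‖ ≤ (2 * max am bm + min am bm) / 4000 := by
    have h := norm_le_mx (z := z - z0) (A := am / 2000) (B := bm / 2000) (by
      rw [sub_re]
      rw [abs_mul, abs_of_pos (by norm_num : (0 : ℝ) < 2000)] at hα
      linarith only [hα]) (by
      rw [sub_im]
      rw [abs_mul, abs_of_pos (by norm_num : (0 : ℝ) < 2000)] at hβ
      linarith only [hβ])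
    rw [max_div_div_right (by norm_num : (0 : ℝ) ≤ 2000),
      min_div_div_right (by norm_num : (0 : ℝ) ≤ 2000)] at h
    linarith only [h]
  have hδ2 : ‖z - z0‖ ^ 2 ≤ (am ^ 2 + bm ^ 2) / 4000000 := by
    have e : ‖z - z0‖ ^ 2 = (z.re - z0.re) ^ 2 + (z.im - z0.im) ^ 2 := by
      rw [← normSq_eq_norm_sq, normSq_apply, sub_re, sub_im]
      ring
    have a1 : (2000 * (z.re - z0.re)) ^ 2 ≤ am ^ 2 :=
      sq_le_sq' (by linarith only [(abs_le.1 hα).1]) (abs_le.1 hα).2
    have a2 : (2000 * (z.im - z0.im)) ^ 2 ≤ bm ^ 2 :=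
      sq_le_sq' (by linarith only [(abs_le.1 hβ).1]) (abs_le.1 hβ).2
    rw [e]
    linarith only [a2, a1]
  set ε : ℂ := ((e1 / 2000 : ℝ) : ℂ) + ((e2 / 2000 : ℝ) : ℂ) * I with hε
  have hεr : ε.re = e1 / 2000 := by rw [hε]; exact line_re _ _
  have hεi : ε.im = e2 / 2000 := by rw [hε]; exact line_im _ _
  have hεn : ‖ε‖ ≤ dn / 2000 := by
    have e : ‖ε‖ ^ 2 = (e1 ^ 2 + e2 ^ 2) / 4000000 := by
      rw [← normSq_eq_norm_sq, normSq_apply, hεr, hεi]
      ring
    have h6 : ‖ε‖ ^ 2 ≤ (dn / 2000) ^ 2 := by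
      rw [e]
      have : (dn / 2000) ^ 2 = dn ^ 2 / 4000000 := by ring
      rw [this]
      linarith only [he]
    exact (abs_le_of_sq_le_sq' h6 (by positivity)).2
  have he1 : |e1| ≤ dn := abs_le_of_sq_le_sq (by linarith only [sq_nonneg e2, he]) hdn
  have he2 : |e2| ≤ dn := abs_le_of_sq_le_sq (by linarith only [sq_nonneg e1, he]) hdn
  have hw : ‖w - z0‖ ≤ (10 * max |P| |R| + 5 * min |P| |R| + dn) / 2000 := by
    have e : w - z0 = (((P / 200 : ℝ) : ℂ) + ((R / 200 : ℝ) : ℂ) * I) + ε := by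
      apply Complex.ext
      · rw [sub_re, hwr, add_re, line_re, hεr]
      · rw [sub_im, hwi, add_im, line_im, hεi]
    have h7 := norm_le_mx (z := ((P / 200 : ℝ) : ℂ) + ((R / 200 : ℝ) : ℂ) * I) (A := |P| / 200)
      (B := |R| / 200) (by
        rw [line_re, abs_div, abs_of_pos (by norm_num : (0 : ℝ) < 200)]) (by
        rw [line_im, abs_div, abs_of_pos (by norm_num : (0 : ℝ) < 200)])
    rw [max_div_div_right (by norm_num : (0 : ℝ) ≤ 200),
      min_div_div_right (by norm_num : (0 : ℝ) ≤ 200)] at h7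
    rw [e]
    have := norm_add_le (((P / 200 : ℝ) : ℂ) + ((R / 200 : ℝ) : ℂ) * I) ε
    linarith only [this, h7, hεn]
  -- the second order terms
  have T5 : 1 / 2 * (K / 16 + (K ^ 2 - 2526) / 256 * ‖w - z0‖) * ‖z - z0‖ ^ 2 * 838860800000 ≤
      (65536000 * K * (am ^ 2 + bm ^ 2) + 2048 * (K ^ 2 - 2526) *
        ((10 * max |P| |R| + 5 * min |P| |R| + dn) * (am ^ 2 + bm ^ 2))) / 10000 := by
    set R' := 10 * max |P| |R| + 5 * min |P| |R| + dn with hR'
    have hR0 : 0 ≤ R' := by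
      have := (norm_nonneg (w - z0)).trans hw
      linarith only [this]
    have a1 : (K ^ 2 - 2526) / 256 * ‖w - z0‖ ≤ (K ^ 2 - 2526) / 256 * (R' / 2000) :=
      mul_le_mul_of_nonneg_left hw (by positivity)
    have a2 : 0 ≤ K / 16 + (K ^ 2 - 2526) / 256 * ‖w - z0‖ := by positivity
    have a3 : (K / 16 + (K ^ 2 - 2526) / 256 * ‖w - z0‖) * ‖z - z0‖ ^ 2 ≤
        (K / 16 + (K ^ 2 - 2526) / 256 * (R' / 2000)) * ((am ^ 2 + bm ^ 2) / 4000000) :=
      mul_le_mul (by linarith only [a1]) hδ2 (by positivity) (by linarith only [a2, a1])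
    have e : (K / 16 + (K ^ 2 - 2526) / 256 * (R' / 2000)) * ((am ^ 2 + bm ^ 2) / 4000000) *
        (838860800000 / 2) = (65536000 * K * (am ^ 2 + bm ^ 2) + 2048 * (K ^ 2 - 2526) *
          (R' * (am ^ 2 + bm ^ 2))) / 10000 := by ring
    rw [← e]
    linarith only [a3]
  have T4 : (Real.pi * cot (Real.pi * z0) * (z - z0) * ε).re * 838860800000 ≤
      65536000 * K * ((2 * max am bm + min am bm) * dn) / 10000 := by
    have a1 := re_le_norm (Real.pi * cot (Real.pi * z0) * (z - z0) * ε)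
    rw [norm_mul, norm_mul] at a1
    have a2 : ‖(Real.pi : ℂ) * cot (Real.pi * z0)‖ * ‖z - z0‖ ≤
        K / 16 * ((2 * max am bm + min am bm) / 4000) :=
      mul_le_mul hc hδ (norm_nonneg _) (by positivity)
    have a3 : ‖(Real.pi : ℂ) * cot (Real.pi * z0)‖ * ‖z - z0‖ * ‖ε‖ ≤
        K / 16 * ((2 * max am bm + min am bm) / 4000) * (dn / 2000) :=
      mul_le_mul a2 hεn (norm_nonneg _) (le_trans (by positivity) a2)
    have e : K / 16 * ((2 * max am bm + min am bm) / 4000) * (dn / 2000) * 838860800000 =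
      65536000 * K * ((2 * max am bm + min am bm) * dn) / 10000 := by ring
    rw [← e]
    linarith only [a3, a1]
  -- expansion of the first order terms
  set l0 := (hh z0).re with hl0
  set t0 := (hh z0).im with ht0
  set a0 := ((Real.pi : ℂ) * cot (Real.pi * z0)).re with ha0
  set b0 := ((Real.pi : ℂ) * cot (Real.pi * z0)).im with hb0
  have E1 : (hh z0 * (w - z0)).re = l0 * (P / 200 + e1 / 2000) - t0 * (R / 200 + e2 / 2000) := by
    rw [mul_re, sub_re, sub_im, hwr, hwi]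
  have E2 : (Real.pi * cot (Real.pi * z0) * (z - z0) * (w - z0)).re =
      (Real.pi * cot (Real.pi * z0) * (z - z0) * ε).re +
        ((a0 * (z.re - z0.re) - b0 * (z.im - z0.im)) * (P / 200) -
          (a0 * (z.im - z0.im) + b0 * (z.re - z0.re)) * (R / 200)) := by
    rw [mul_re (_ * _) (w - z0), mul_re (_ * _) ε, hεr, hεi, sub_re, sub_im, hwr, hwi,
      mul_re _ (z - z0), mul_im _ (z - z0), sub_re, sub_im]
    ring
  rw [E1, E2] at hphi
  have T1 : Rf z0 * 838860800000 ≤ -800000 * q + 25600000 := by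
    have := (abs_le.1 hq).1
    linarith only [this]
  have T2 : (l0 * (P / 200 + e1 / 2000) - t0 * (R / 200 + e2 / 2000)) * 838860800000 ≤
      4000 * (l * P - t * R) + 400 * (l * e1 - t * e2) + 16000 * (|P| + |R|) + 3200 * dn := by
    set εl := l0 * 1048576 - l with hεl
    set εt := t0 * 1048576 - t with hεt
    have e : (l0 * (P / 200 + e1 / 2000) - t0 * (R / 200 + e2 / 2000)) * 838860800000 =
        4000 * (l * P - t * R) + 400 * (l * e1 - t * e2) +
          (4000 * (εl * P) + 400 * (εl * e1) - 4000 * (εt * R) - 400 * (εt * e2)) := by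
      rw [hεl, hεt]
      ring
    have b1 : εl * P ≤ 4 * |P| := by
      refine (le_abs_self _).trans ?_
      rw [abs_mul]
      exact mul_le_mul_of_nonneg_right hl (abs_nonneg _)
    have b2 : εl * e1 ≤ 4 * dn := by
      refine (le_abs_self _).trans ?_
      rw [abs_mul]
      exact mul_le_mul hl he1 (abs_nonneg _) (by norm_num)
    have b3 : -(εt * R) ≤ 4 * |R| := by
      refine (neg_le_abs _).trans ?_
      rw [abs_mul]
      exact mul_le_mul_of_nonneg_right ht (abs_nonneg _)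
    have b4 : -(εt * e2) ≤ 4 * dn := by
      refine (neg_le_abs _).trans ?_
      rw [abs_mul]
      exact mul_le_mul ht he2 (abs_nonneg _) (by norm_num)
    rw [e]
    linarith only [b4, b3, b2, b1]
  have T3 : ((a0 * (z.re - z0.re) - b0 * (z.im - z0.im)) * (P / 200) -
      (a0 * (z.im - z0.im) + b0 * (z.re - z0.re)) * (R / 200)) * 838860800000 ≤
      512 * ((a * P - b * R) * (2000 * (z.re - z0.re)) -
          (b * P + a * R) * (2000 * (z.im - z0.im))) + (|P| + |R|) * (512 * (am + bm)) := by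
    set εa := a0 * 4096 - a with hεa
    set εb := b0 * 4096 - b with hεb
    set α := 2000 * (z.re - z0.re) with hα'
    set β := 2000 * (z.im - z0.im) with hβ'
    have e : ((a0 * (z.re - z0.re) - b0 * (z.im - z0.im)) * (P / 200) -
        (a0 * (z.im - z0.im) + b0 * (z.re - z0.re)) * (R / 200)) * 838860800000 =
        512 * ((a * P - b * R) * α - (b * P + a * R) * β) +
          512 * ((εa * P - εb * R) * α - (εb * P + εa * R) * β) := by
      rw [hεa, hεb, hα', hβ']
      ring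
    have c1 : |εa * P - εb * R| ≤ |P| + |R| := by
      refine (abs_sub _ _).trans ?_
      rw [abs_mul, abs_mul]
      have d1 := mul_le_mul_of_nonneg_right ha (abs_nonneg P)
      have d2 := mul_le_mul_of_nonneg_right hb (abs_nonneg R)
      linarith only [d2, d1]
    have c2 : |εb * P + εa * R| ≤ |P| + |R| := by
      refine (abs_add_le _ _).trans ?_
      rw [abs_mul, abs_mul]
      have d1 := mul_le_mul_of_nonneg_right hb (abs_nonneg P)
      have d2 := mul_le_mul_of_nonneg_right ha (abs_nonneg R)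
      linarith only [d2, d1]
    have hPR : 0 ≤ |P| + |R| := by positivity
    have c3 : (εa * P - εb * R) * α ≤ (|P| + |R|) * am := by
      refine (le_abs_self _).trans ?_
      rw [abs_mul]
      exact mul_le_mul c1 hα (abs_nonneg _) hPR
    have c4 : -((εb * P + εa * R) * β) ≤ (|P| + |R|) * bm := by
      refine (neg_le_abs _).trans ?_
      rw [abs_mul]
      exact mul_le_mul c2 hβ (abs_nonneg _) hPR
    rw [e]
    linarith only [c4, c3]
  have hfin := mul_le_mul_of_nonneg_right hphi (by norm_num : (0 : ℝ) ≤ 838860800000)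
  have e : (65536000 * K * ((am ^ 2 + bm ^ 2) + (2 * max am bm + min am bm) * dn) +
      2048 * (K ^ 2 - 2526) * ((10 * max |P| |R| + 5 * min |P| |R| + dn) *
        (am ^ 2 + bm ^ 2))) / 10000 =
      (65536000 * K * (am ^ 2 + bm ^ 2) + 2048 * (K ^ 2 - 2526) *
        ((10 * max |P| |R| + 5 * min |P| |R| + dn) * (am ^ 2 + bm ^ 2))) / 10000 +
      65536000 * K * ((2 * max am bm + min am bm) * dn) / 10000 := by ring
  rw [e]
  linarith only [T3, T2, T1, hphi, T4, T5]

end Pool.Agent.S5.Pa
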