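import Pool.Agent.S5.I.CxT

/-!
# Branch and bound for the parameters of the slots: the program

The four parameters are natural numbers in units of `1 / 2000`: `x`, `ν`, `t`, and `η` with origin
`400`; the points of the tables are the multiples of `10`. The common unit of the values is
`2 ^ (-20) / 800000`.

The functional is `F = w Rf z₁ + Rf z₂ + Rf z₃ - λ (X - t) - cm μ (η - s) + al Λ (u - x) + be k ν`
with `z₁ = 1 / 2 - ys`, `z₂ = ys - vs`, `z₃ = ys + vs`, `λ + i μ = ly w ys vs`, `k = - Im (lv ys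
  vs)`.
The numbers `X`, `s`, `u` are in units of `1 / 200` with origins `100`, `40`, `100`.
-/

set_option autoImplicit false

noncomputable section

namespace Pool.Agent.S5.Pa

open Pool.Agent.S5.Tb (qE tE lE kE)
open Pool.Agent.S5.Cx (aE bE)
open Pool.Agent.S5.Num (fN ds')

def mx (a b : Nat) : Nat := Bool.rec (motive := fun _ => _) a b (Nat.ble a b)
def mn (a b : Nat) : Nat := Bool.rec (motive := fun _ => _) b a (Nat.ble a b)

/-- The value and the gradient of an atom: value, gradient, `Im hh`, `Lg + 8`, error. -/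
def atk {α : Type} (qp qn tp tn l ap an bp bn pp pn rp rn Q : Nat)
    (k : Nat → Nat → Nat → Nat → Nat → Nat → Nat → Nat → Nat → Nat → α) : α :=
  k (Nat.add (Nat.mul 800000 qn) (Nat.mul 4000 (Nat.add
      (Nat.add (Nat.mul l pp) (Nat.mul 8388608 pn)) (Nat.add (Nat.mul tp rn) (Nat.mul tn rp)))))
    (Nat.add (Nat.mul 800000 qp) (Nat.mul 4000 (Nat.add
      (Nat.add (Nat.mul l pn) (Nat.mul 8388608 pp)) (Nat.add (Nat.mul tp rp) (Nat.mul tn rn)))))
    (Nat.add (Nat.add (Nat.mul ap pp) (Nat.mul an pn)) (Nat.add (Nat.mul bp rn) (Nat.mul bn rp)))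
    (Nat.add (Nat.add (Nat.mul ap pn) (Nat.mul an pp)) (Nat.add (Nat.mul bp rp) (Nat.mul bn rn)))
    (Nat.add (Nat.add (Nat.mul bp pn) (Nat.mul bn pp)) (Nat.add (Nat.mul ap rn) (Nat.mul an rp)))
    (Nat.add (Nat.add (Nat.mul bp pp) (Nat.mul bn pn)) (Nat.add (Nat.mul ap rp) (Nat.mul an rn)))
    tp tn l Q

/-- The error term of an atom. -/
def erq (kk am bm P r dn : Nat) : Nat :=
  (fun D => Nat.add (Nat.add (Nat.div (Nat.add
      (Nat.mul (Nat.mul 65536000 kk)
        (Nat.add D (Nat.mul (Nat.add (Nat.mul 2 (mx am bm)) (mn am bm)) dn)))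
      (Nat.mul (Nat.mul 2048 (Nat.sub (Nat.mul kk kk) 2526))
        (Nat.mul (Nat.add (Nat.add (Nat.mul 10 (mx P r)) (Nat.mul 5 (mn P r))) dn) D)))
      10000) 25600001)
    (Nat.add (Nat.mul (Nat.add P r) (Nat.add 16000 (Nat.mul 512 (Nat.add am bm))))
      (Nat.mul 3200 dn))) (Nat.add (Nat.mul am am) (Nat.mul bm bm))

/-- The signs of the data: `lf`: left half of the strip, `up`: upper half plane; `e`, `f` are the
entries of the tables. -/
def atf {α : Type} (lf up : Bool) (e f pp pn rp rn Q : Nat)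
    (k : Nat → Nat → Nat → Nat → Nat → Nat → Nat → Nat → Nat → Nat → α) : α :=
  Bool.rec (motive := fun _ => _) (Bool.rec (motive := fun _ => _) (atk 0 (qE e) (tE e) 0 (lE e) 0
    (aE f) (bE f) 0 pp pn rp rn Q k) (atk 0 (qE e) 0 (tE e) (lE e) 0 (aE f) 0 (bE f) pp pn rp rn Q
      k) up) (Bool.rec (motive := fun _ => _) (atk (qE e) 0 0 (tE e) (lE e) (aE f) 0 (bE f) 0 pp pn
        rp rn Q k) (atk (qE e) 0 (tE e) 0 (lE e) (aE f) 0 0 (bE f) pp pn rp rn Q k) up) lf

/-- The entry of the table. -/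
def atT {α : Type} (lf : Bool) (s T pp pn rp rn Q : Nat)
    (k : Nat → Nat → Nat → Nat → Nat → Nat → Nat → Nat → Nat → Nat → α) : α :=
  atf lf (Nat.ble 40 s) (Nat.mod T 1208925819614629174706176) (Nat.shiftRight T 80)
    pp pn rp rn Q k

/-- The second part of `atg`. -/
def ath {α : Type} (b U i10 s10 i s u1 u2 s1 s2 pp pn rp rn dn : Nat)
    (k : Nat → Nat → Nat → Nat → Nat → Nat → Nat → Nat → Nat → Nat → α) (z : α) : α :=
  Bool.rec (motive := fun _ => _) z (Bool.rec (motive := fun _ => _) z (Bool.rec (motive := fun _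
    => _) z (Bool.rec (motive := fun _ => _) z (Bool.rec (motive := fun _ => _) (atT false s (cT
      (Nat.sub 200 i) b) pp pn rp rn
        (erq (kE (Nat.mod (cT (Nat.div U 10) (Nat.div (Nat.add (Nat.sub (mn s1 s10) 400)
          (Nat.sub 400 (mx s2 s10))) 10)) 1208925819614629174706176))
        (mx (Nat.sub i10 u1) (Nat.sub u2 i10)) (mx (Nat.sub s10 s1) (Nat.sub s2 s10)) (ds' pp pn)
          (ds' rp rn) dn) k) (atT true s (cT i b) pp pn rp rn
        (erq (kE (Nat.mod (cT (Nat.div U 10) (Nat.div (Nat.add (Nat.sub (mn s1 s10) 400)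
          (Nat.sub 400 (mx s2 s10))) 10)) 1208925819614629174706176))
        (mx (Nat.sub i10 u1) (Nat.sub u2 i10)) (mx (Nat.sub s10 s1) (Nat.sub s2 s10)) (ds' pp pn)
          (ds' rp rn) dn) k) (Nat.ble i 100)) (Nat.ble 10 U)) (Nat.ble i 187)) (Nat.ble 13 i))
            (Nat.ble b 38)

/-- An atom: the point `(i, s)` of the table (origin `40` for `s`), the rectangle of the cell, the
distance to the base point of the plane. -/
def atg {α : Type} (i s u1 u2 s1 s2 pp pn rp rn dn : Nat)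
    (k : Nat → Nat → Nat → Nat → Nat → Nat → Nat → Nat → Nat → Nat → α) (z : α) : α :=
  ath (ds' s 40) (mn (mn (Nat.mul 10 i) u1) (Nat.sub 2000 (mx (Nat.mul 10 i) u2)))
    (Nat.mul 10 i) (Nat.mul 10 s) i s u1 u2 s1 s2 pp pn rp rn dn k z

/-- The nearest point of the table. -/
def ctr' (a b : Nat) : Nat := Nat.div (Nat.add (Nat.add a b) 10) 20

/-- A linear term is added. -/
def acc (p n a b G P M : Nat) (k : Nat → Nat → Bool) : Bool :=
  k (Nat.add P (Nat.add (Nat.add (Nat.mul p (Nat.add a b)) (Nat.mul (Nat.mul 20 n) G))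
      (Nat.mul (ds' p n) (Nat.sub b a))))
    (Nat.add M (Nat.add (Nat.mul n (Nat.add a b)) (Nat.mul (Nat.mul 20 p) G)))

/-- The last step. -/
def fin' (w c' a' b' Ap An Bp Bn Cp Cn th2 th4 v L2 K1 K2
    xa xb na nb ta tb ea eb Gx Gn Gt Ge
    V1p V1n g1p g1n h1p h1n t1p t1n Q1 V2p V2n g2p g2n h2p h2n t2p t2n l2 Q2
    V3p V3n g3p g3n h3p h3n t3p t3n l3 Q3 : Nat) : Bool :=
  acc (Nat.mul 256 (Nat.add (Nat.mul w g1n) (Nat.add g2p g3p)))
    (Nat.mul 256 (Nat.add (Nat.mul w g1p) (Nat.add g2n g3n))) ta tb Gt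
    (Nat.add (Nat.add (Nat.add (Nat.mul w (Nat.add V1p Q1)) (Nat.add V2p Q2)) (Nat.add V3p Q3))
      (Nat.add K1 (Nat.add (Nat.mul 800000 An) (Nat.mul 4000
        (Nat.add (Nat.mul Bp Gn) (Nat.add (Nat.mul Cp Ge) (Nat.mul 40 Cn)))))))
    (Nat.add (Nat.add (Nat.mul w V1n) (Nat.add V2n V3n))
      (Nat.add (Nat.add K2 (Nat.mul (Nat.mul 167772160 v) Gn)) (Nat.add (Nat.mul 800000 Ap)
        (Nat.mul 4000 (Nat.add (Nat.mul Bn Gn) (Nat.add (Nat.mul Cn Ge) (Nat.mul 40 Cp)))))))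
    (fun P M => acc
      (Nat.add (Nat.mul 256 (Nat.add (Nat.mul w h1n) (Nat.add h2p h3p)))
        (Nat.mul 200 (Nat.add Cp (Nat.mul c' (Nat.add (Nat.mul w t1p) (Nat.add t2n t3n))))))
      (Nat.add (Nat.add (Nat.mul 256 (Nat.add (Nat.mul w h1p) (Nat.add h2n h3n)))
        (Nat.mul 200 (Nat.add Cn (Nat.mul c' (Nat.add (Nat.mul w t1n) (Nat.add t2p t3p))))))
        (Nat.mul th4 L2)) ea eb Ge P M
    (fun P M => acc
      (Nat.add (Nat.mul 256 (Nat.add g2n g3p)) (Nat.mul 200 (Nat.mul a' l3)))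
      (Nat.add (Nat.mul 256 (Nat.add g2p g3n)) (Nat.mul 200 (Nat.mul a' l2))) xa xb Gx P M
    (fun P M => acc
      (Nat.add (Nat.mul 256 (Nat.add h2n h3p))
        (Nat.mul 200 (Nat.add Bp (Nat.mul b' (Nat.add t2p t3n)))))
      (Nat.add (Nat.add (Nat.mul 256 (Nat.add h2p h3n))
        (Nat.mul 200 (Nat.add Bn (Nat.mul b' (Nat.add t2n t3p)))))
        (Nat.add (Nat.mul th2 L2) (Nat.mul 8388608 v)))
      na nb Gn P M (fun P M => Nat.ble P M))))

/-- The test of a cell: third part. -/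
def leaf3 (w cm al be X s u Ap An Bp Bn Cp Cn Lp Ln q Y v xa xb na nb ta tb ea eb
    Gx Gn Gt Ge c' a' b' w1 th de dn : Nat) : Bool :=
  atg (Nat.sub 100 Gt) (Nat.sub 80 Ge) (Nat.sub 1000 tb) (Nat.sub 1000 ta) (Nat.sub 800 eb)
      (Nat.sub 800 ea) (Nat.add (Nat.add Gt 100) (Nat.mul w1 X)) (Nat.mul (Nat.succ w1) Y)
      (Nat.mul cm Ge) (Nat.mul cm s) de
    (fun V1p V1n g1p g1n h1p h1n t1p t1n _ Q1 =>
  atg (Nat.sub Gt Gx) (Nat.sub Ge Gn) (mx (Nat.sub ta xb) 150) (Nat.sub tb xa)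
      (mx (Nat.sub ea nb) 70) (Nat.sub eb na)
      (Nat.add Y (Nat.mul al (Nat.add Gx 100))) (Nat.add (Nat.add Gt 100) (Nat.add (Nat.mul al u)
        v))
      (Nat.add (Nat.mul cm s) (Nat.mul be Gn)) (Nat.mul cm Ge) dn
    (fun V2p V2n g2p g2n h2p h2n t2p t2n l2 Q2 =>
  atg (Nat.add Gt Gx) (Nat.add Ge Gn) (Nat.add ta xa) (mn (Nat.add tb xb) 1090)
      (Nat.add ea na) (Nat.add eb nb)
      (Nat.add Y (Nat.add (Nat.mul al u) v)) (Nat.add (Nat.add Gt 100) (Nat.mul al (Nat.add Gx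
        100)))
      (Nat.mul cm s) (Nat.add (Nat.mul cm Ge) (Nat.mul be Gn)) dn
    (fun V3p V3n g3p g3n h3p h3n t3p t3n l3 Q3 =>
  Bool.rec (motive := fun _ => _) (fin' w c' a' b' Ap An Bp Bn Cp Cn th (Nat.mul 2 th) v 1048576
      (Nat.mul th 3774873600) (Nat.mul (Nat.mul th 20971520) (Nat.add (Nat.mul 2 Ge) Gn))
      xa xb na nb ta tb ea eb Gx Gn Gt Ge
      V1p V1n g1p g1n h1p h1n t1p t1n Q1 V2p V2n g2p g2n h2p h2n t2p t2n l2 Q2
      V3p V3n g3p g3n h3p h3n t3p t3n l3 Q3) (fin' w c' a' b' Ap An Bp Bn Cp Cn th (Nat.mul 2 th) v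
        0
      (Nat.mul (Nat.mul th 4000) Lp) (Nat.mul (Nat.mul th 4000) Ln)
      xa xb na nb ta tb ea eb Gx Gn Gt Ge
      V1p V1n g1p g1n h1p h1n t1p t1n Q1 V2p V2n g2p g2n h2p h2n t2p t2n l2 Q2
      V3p V3n g3p g3n h3p h3n t3p t3n l3 Q3) (Nat.beq q 0)) false) false) false

/-- The test of a cell: second part. -/
def leaf2 (w cm al be X s u Ap An Bp Bn Cp Cn Lp Ln q Y v xa xb na nb ta tb ea eb
    Gx Gn Gt Ge c' a' b' w1 th dx de dd : Nat) : Bool :=
  leaf3 w cm al be X s u Ap An Bp Bn Cp Cn Lp Ln q Y v xa xb na nb ta tb ea eb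
    Gx Gn Gt Ge c' a' b' w1 th de (Nat.add (mx dx dd) (Nat.div (Nat.succ (mn dx dd)) 2))

/-- The test of a cell: first part. -/
def leaf1 (w cm al be X s u Ap An Bp Bn Cp Cn Lp Ln q Y v xa xb na nb ta tb ea eb
    Gx Gn Gt Ge c' a' b' w1 th : Nat) : Bool :=
  leaf2 w cm al be X s u Ap An Bp Bn Cp Cn Lp Ln q Y v xa xb na nb ta tb ea eb
    Gx Gn Gt Ge c' a' b' w1 th (Nat.mul a' (mx (Nat.sub (Nat.mul 10 Gx) xa) (Nat.sub xb (Nat.mul 10
      Gx))))
    (Nat.mul c' (mx (Nat.sub (Nat.mul 10 Ge) ea) (Nat.sub eb (Nat.mul 10 Ge))))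
    (Nat.add (Nat.mul c' (mx (Nat.sub (Nat.mul 10 Ge) ea) (Nat.sub eb (Nat.mul 10 Ge))))
      (Nat.mul b' (mx (Nat.sub (Nat.mul 10 Gn) na) (Nat.sub nb (Nat.mul 10 Gn)))))

/-- The test of a cell. -/
def leaf0 (w cm al be X s u Ap An Bp Bn Cp Cn Lp Ln q Y v xa xb na nb ta tb ea eb : Nat) : Bool :=
  Bool.rec (motive := fun _ => _) false (leaf1 w cm al be X s u Ap An Bp Bn Cp Cn Lp Ln q Y v xa xb
    na nb ta tb ea eb
      (ctr' xa xb) (ctr' na nb) (ctr' ta tb) (ctr' ea eb) (Nat.sub 1 cm) (Nat.sub 1 al)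
      (Nat.sub 1 be) (Nat.sub 2 w) (Nat.sub Y X)) (Nat.ble X Y)

/-- The test of a cell: `q` is the kind of the bound of `λ`, `g` encodes the multipliers. -/
def leaf (w cm al be X s u Ap An Bp Bn Cp Cn Lp Ln q g xa xb na nb ta tb ea eb : Nat) : Bool :=
  leaf0 w cm al be X s u Ap An Bp Bn Cp Cn Lp Ln q (Nat.mod g 512) (Nat.div g 512)
    xa xb na nb ta tb ea eb

/-- The cell is outside the region. -/
def skp (xa na ta tb eb : Nat) : Bool :=
  Bool.rec (motive := fun _ => _) true (Bool.rec (motive := fun _ => _) true (Nat.ble (Nat.succ eb)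
    (Nat.add na 70)) (Nat.ble (Nat.add ta xa) 1090)) (Nat.ble (Nat.add xa 150) tb)

/-- The point where an interval is cut. -/
def cut (a b : Nat) : Nat :=
  (fun m m' => Bool.rec (motive := fun _ => _) m' (Bool.rec (motive := fun _ => _) m' (Bool.rec
    (motive := fun _ => _) m' m (Nat.ble (Nat.add a 11) b)) (Nat.ble (Nat.succ a) m)) (Nat.ble
      (Nat.succ m) b))
    (Nat.add (Nat.mul 10 (Nat.div (Nat.add a b) 20)) 5) (Nat.div (Nat.add a b) 2)

/-- Branch and bound with the help of the code `h`; `T` is the test of a cell. -/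
def go (T : Nat → Nat → Nat → Nat → Nat → Nat → Nat → Nat → Nat → Nat → Bool) (n : Nat) :
    Nat → Nat → Nat → Nat → Nat → Nat → Nat → Nat → Nat → (Nat → Bool) → Bool :=
  Nat.rec (fun _ _ _ _ _ _ _ _ _ _ => false)
    (fun _ ih h xa xb na nb ta tb ea eb k =>
      (fun c => fN (fun h => Bool.rec (motive := fun _ => _) (Bool.rec (motive := fun _ => _)
        (Bool.rec (motive := fun _ => _) false (fN k (Nat.shiftRight h 16)) (T (Nat.sub c 5)
          (Nat.mod h 65536) xa xb na nb ta tb ea eb)) (Bool.rec (motive := fun _ => _) false (k h)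
            (skp xa na ta tb eb)) (Nat.ble c 4)) (Bool.rec (motive := fun _ => _) (Bool.rec (motive
              := fun _ => _) (fN (fun m => ih h xa xb na nb ta tb ea m (fun h => ih h xa xb na nb
                ta tb m eb k))
              (cut ea eb)) (fN (fun m => ih h xa xb na nb ta m ea eb (fun h => ih h xa xb na nb m
                tb ea eb k))
              (cut ta tb)) (Nat.ble c 2)) (Bool.rec (motive := fun _ => _) (fN (fun m => ih h xa xb
                na m ta tb ea eb (fun h => ih h xa xb m nb ta tb ea eb k))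
              (cut na nb)) (fN (fun m => ih h xa m na nb ta tb ea eb (fun h => ih h m xb na nb ta
                tb ea eb k))
              (cut xa xb)) (Nat.ble c 0)) (Nat.ble c 1)) (Nat.ble c 3))
        (Nat.shiftRight h 3)) (Nat.mod h 8)) n

end Pool.Agent.S5.Pa

end
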