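import Pool.Agent.S5.I.PaB
import Pool.Agent.S5.I.PaD
import Pool.Agent.S5.I.TbOK
import Pool.Agent.S5.I.NumRf

/-!
# Soundness of the evaluation of an atom
-/

set_option autoImplicit false

namespace Pool.Agent.S5.Pa

open Pool.Agent.H63.VC3 Pool.Agent.S3 Complex Set Pool.Agent.S5.Tb Pool.Agent.S5.Cx

theorem sel_false {c a : Bool} : (Bool.rec (motive := fun _ => Bool) false a c) = true ↔
    c = true ∧ a = true := by
  cases c <;> simp

theorem sel_true_of {c a b : Bool} (h : (Bool.rec (motive := fun _ => Bool) b a c) = true) :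
    (c = true ∧ a = true) ∨ (c = false ∧ b = true) := by
  cases c
  · exact Or.inr ⟨rfl, h⟩
  · exact Or.inl ⟨rfl, h⟩

theorem ble_false {a b : ℕ} (h : Nat.ble a b = false) : b < a := by
  by_contra h1
  push Not at h1
  rw [Nat.ble_eq_true_of_le h1] at h
  exact absurd h (by simp)

theorem mx_eq (a b : ℕ) : mx a b = max a b := by
  unfold mx
  rcases h : Nat.ble a b with _ | _
  · exact (max_eq_left (ble_false h).le).symm
  · exact (max_eq_right (Nat.ble_eq.mp h)).symm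

theorem mn_eq (a b : ℕ) : mn a b = min a b := by
  unfold mn
  rcases h : Nat.ble a b with _ | _
  · exact (min_eq_right (ble_false h).le).symm
  · exact (min_eq_left (Nat.ble_eq.mp h)).symm

theorem div_ge (n : ℕ) : (n : ℝ) / 10000 ≤ ((n / 10000 : ℕ) : ℝ) + 1 := by
  have h := Nat.lt_div_mul_add (a := n) (b := 10000) (by norm_num)
  have h1 : (n : ℝ) < ((n / 10000 : ℕ) : ℝ) * 10000 + 10000 := by exact_mod_cast h
  linarith only [h1]

/-- The integer error term. -/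
theorem erq_ge (kk am bm P r dn : ℕ) :
    (65536000 * (kk : ℝ) * (((am : ℝ) ^ 2 + (bm : ℝ) ^ 2) +
        (2 * max (am : ℝ) bm + min (am : ℝ) bm) * dn) +
      2048 * ((kk : ℝ) ^ 2 - 2526) * ((10 * max (P : ℝ) r + 5 * min (P : ℝ) r + dn) *
        ((am : ℝ) ^ 2 + (bm : ℝ) ^ 2))) / 10000 + 25600000 +
      (((P : ℝ) + r) * (16000 + 512 * ((am : ℝ) + bm)) + 3200 * dn) ≤
      (erq kk am bm P r dn : ℝ) := by
  have e : erq kk am bm P r dn = ((65536000 * kk * ((am * am + bm * bm) +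
      (2 * max am bm + min am bm) * dn) + 2048 * (kk * kk - 2526) *
        ((10 * max P r + 5 * min P r + dn) * (am * am + bm * bm))) / 10000 + 25600001) +
      ((P + r) * (16000 + 512 * (am + bm)) + 3200 * dn) := by
    unfold erq
    simp only [mx_eq, mn_eq, Num.add_eq', Num.mul_eq', Num.div_eq', Num.sub_eq']
  have h1 := div_ge (65536000 * kk * ((am * am + bm * bm) +
      (2 * max am bm + min am bm) * dn) + 2048 * (kk * kk - 2526) *
        ((10 * max P r + 5 * min P r + dn) * (am * am + bm * bm)))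
  have h2 : (kk : ℝ) ^ 2 - 2526 ≤ ((kk * kk - 2526 : ℕ) : ℝ) := by
    have h3 : (kk : ℝ) * kk ≤ ((kk * kk - 2526 + 2526 : ℕ) : ℝ) := by
      have : kk * kk ≤ kk * kk - 2526 + 2526 := le_tsub_add
      exact_mod_cast this
    push_cast at h3
    linarith only [h3]
  have h4 : 0 ≤ (10 * max (P : ℝ) r + 5 * min (P : ℝ) r + dn) * ((am : ℝ) ^ 2 + (bm : ℝ) ^ 2) := by
    have a1 : 0 ≤ max (P : ℝ) r := (Nat.cast_nonneg P).trans (le_max_left _ _)
    have a2 : 0 ≤ min (P : ℝ) r := le_min (Nat.cast_nonneg P) (Nat.cast_nonneg r)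
    have a3 := Nat.cast_nonneg (α := ℝ) dn
    exact mul_nonneg (by linarith only [a2, a1]) (add_nonneg (sq_nonneg _) (sq_nonneg _))
  have h5 := mul_le_mul_of_nonneg_right h2 h4
  rw [e]
  generalize ((kk * kk - 2526 : ℕ)) = Z at h1 h5 ⊢
  push_cast at h1 ⊢
  generalize (((65536000 * kk * ((am * am + bm * bm) + (2 * max am bm + min am bm) * dn) +
    2048 * Z * ((10 * max P r + 5 * min P r + dn) * (am * am + bm * bm))) / 10000 : ℕ) : ℝ) = D at h1 ⊢
  have e2 : ∀ W : ℝ, 2048 * W * ((10 * max (P : ℝ) r + 5 * min (P : ℝ) r + dn) *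
      ((am : ℝ) ^ 2 + (bm : ℝ) ^ 2)) = 2048 * (W * ((10 * max (P : ℝ) r + 5 * min (P : ℝ) r + dn) *
      ((am : ℝ) ^ 2 + (bm : ℝ) ^ 2))) := fun W => by ring
  have e3 : (am : ℝ) * am + bm * bm = (am : ℝ) ^ 2 + (bm : ℝ) ^ 2 := by ring
  rw [e3, e2] at h1
  rw [e2]
  linarith only [h1, h5]

/-- The bounds of the derivatives on a segment. -/
theorem seg_der {iU jS : ℕ} (hi : 1 ≤ iU) (hi' : iU ≤ 100) (hj : jS ≤ 50) {z0 z : ℂ}
    (a1 : (iU : ℝ) / 200 ≤ z0.re) (a2 : z0.re ≤ 1 - (iU : ℝ) / 200)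
    (b1 : (iU : ℝ) / 200 ≤ z.re) (b2 : z.re ≤ 1 - (iU : ℝ) / 200) {m M : ℝ}
    (c1 : m ≤ 2000 * z0.im + 400) (c2 : 2000 * z0.im + 400 ≤ M)
    (d1 : m ≤ 2000 * z.im + 400) (d2 : 2000 * z.im + 400 ≤ M)
    (hS : ∀ x : ℝ, m ≤ x → x ≤ M → 10 * (jS : ℝ) ≤ |x - 400|) (τ : ℝ) (t0 : 0 ≤ τ) (t1 : τ ≤ 1) :
    ‖ct (z0 + τ * (z - z0))‖ ≤ (kE (ent iU jS) : ℝ) / 16 ∧
      ‖(Real.pi : ℂ) ^ 2 / sin (Real.pi * (z0 + τ * (z - z0))) ^ 2‖ ≤
        ((kE (ent iU jS) : ℝ) ^ 2 - 2526) / 256 := by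
  obtain ⟨r1, r2⟩ := seg_re a1 a2 b1 b2 t0 t1
  have e : 2000 * (z0 + τ * (z - z0)).im + 400 =
      (1 - τ) * (2000 * z0.im + 400) + τ * (2000 * z.im + 400) := by
    rw [add_im, im_ofReal_mul, sub_im]
    ring
  have m1 : m ≤ 2000 * (z0 + τ * (z - z0)).im + 400 := by
    rw [e]
    linarith only [mul_nonneg (sub_nonneg.2 d1) (sub_nonneg.2 t0),
      mul_nonneg (sub_nonneg.2 c1) (sub_nonneg.2 t1)]
  have m2 : 2000 * (z0 + τ * (z - z0)).im + 400 ≤ M := by
    rw [e]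
    linarith only [mul_nonneg (sub_nonneg.2 d2) (sub_nonneg.2 t0),
      mul_nonneg (sub_nonneg.2 c2) (sub_nonneg.2 t1)]
  have h := hS _ m1 m2
  rw [show 2000 * (z0 + τ * (z - z0)).im + 400 - 400 = 2000 * (z0 + τ * (z - z0)).im by ring,
    abs_mul, abs_of_pos (by norm_num : (0 : ℝ) < 2000)] at h
  exact der_le hi' hi (ent_ok iU jS hi' hj (by omega)) r1 r2 (by linarith only [h])

/-- The value of the index of the height. -/
theorem idx_S {m M : ℕ} (hmM : m ≤ M) {x : ℝ} (h1 : (m : ℝ) ≤ x) (h2 : x ≤ M) :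
    (((m - 400) + (400 - M) : ℕ) : ℝ) ≤ |x - 400| := by
  rcases le_total 400 m with h | h
  · rw [Nat.sub_eq_zero_of_le (h.trans hmM), add_zero, Nat.cast_sub h]
    refine le_trans ?_ (le_abs_self _)
    push_cast
    linarith only [h1]
  · rw [Nat.sub_eq_zero_of_le h, zero_add]
    rcases le_total M 400 with h3 | h3
    · rw [Nat.cast_sub h3]
      refine le_trans ?_ (neg_le_abs _)
      push_cast
      linarith only [h2]
    · rw [Nat.sub_eq_zero_of_le h3, Nat.cast_zero]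
      exact abs_nonneg _

/-- What an atom delivers. -/
structure AtR (i s u1 u2 s1 s2 pp pn rp rn dn Vp Vn gp gn hp hn tp tn l Q : ℕ) : Prop where
  i1 : 13 ≤ i
  i2 : i ≤ 187
  s1' : 2 ≤ s
  s2' : s ≤ 78
  u1' : 10 ≤ u1
  le : ∀ (z w : ℂ) (e1 e2 : ℝ), (u1 : ℝ) ≤ 2000 * z.re → 2000 * z.re ≤ u2 →
    (s1 : ℝ) ≤ 2000 * z.im + 400 → 2000 * z.im + 400 ≤ s2 →
    w.re = (i : ℝ) / 200 + ((pp : ℝ) - pn) / 200 + e1 / 2000 →
    w.im = ((s : ℝ) - 40) / 200 + ((rp : ℝ) - rn) / 200 + e2 / 2000 →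
    e1 ^ 2 + e2 ^ 2 ≤ (dn : ℝ) ^ 2 →
    (Rf z + (hh z * (w - z)).re) * 838860800000 ≤ ((Vp : ℝ) - Vn) +
      512 * (((gp : ℝ) - gn) * (2000 * z.re - 10 * i) +
        ((hp : ℝ) - hn) * (2000 * z.im + 400 - 10 * s)) +
      400 * (((l : ℝ) - 8388608) * e1 - ((tp : ℝ) - tn) * e2) + Q

theorem atk_ok {z0 : ℂ} {i s u1 u2 s1 s2 pp pn rp rn dn : ℕ} {qp qn tp tn l ap an bp bn : ℕ}
    {k : ℕ → ℕ → ℕ → ℕ → ℕ → ℕ → ℕ → ℕ → ℕ → ℕ → Bool} {kk : ℕ}
    (h : atk qp qn tp tn l ap an bp bn pp pn rp rn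
      (erq kk (mx (Nat.sub (Nat.mul 10 i) u1) (Nat.sub u2 (Nat.mul 10 i)))
        (mx (Nat.sub (Nat.mul 10 s) s1) (Nat.sub s2 (Nat.mul 10 s))) (Num.ds' pp pn)
        (Num.ds' rp rn) dn) k = true)
    (g : Gd z0 qp qn tp tn l ap an bp bn)
    (hz0r : z0.re = (i : ℝ) / 200) (hz0i : z0.im = ((s : ℝ) - 40) / 200)
    (i1 : 13 ≤ i) (i2 : i ≤ 187) (q1 : 2 ≤ s) (q2 : s ≤ 78) (q3 : 10 ≤ u1)
    (hd : ∀ z : ℂ, (u1 : ℝ) ≤ 2000 * z.re → 2000 * z.re ≤ u2 →
      (s1 : ℝ) ≤ 2000 * z.im + 400 → 2000 * z.im + 400 ≤ s2 → 0 < z.re ∧ z.re < 1 ∧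
        ∀ τ : ℝ, 0 ≤ τ → τ ≤ 1 → ‖ct (z0 + τ * (z - z0))‖ ≤ (kk : ℝ) / 16 ∧
          ‖(Real.pi : ℂ) ^ 2 / sin (Real.pi * (z0 + τ * (z - z0))) ^ 2‖ ≤
            ((kk : ℝ) ^ 2 - 2526) / 256) :
    ∃ Vp Vn gp gn hp hn tp tn l Q : ℕ, k Vp Vn gp gn hp hn tp tn l Q = true ∧
      AtR i s u1 u2 s1 s2 pp pn rp rn dn Vp Vn gp gn hp hn tp tn l Q := by
  unfold atk at h
  refine ⟨_, _, _, _, _, _, _, _, _, _, h, i1, i2, q1, q2, q3, ?_⟩
  intro z w e1 e2 hu1 hu2 hs1 hs2 hwr hwi he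
  obtain ⟨z1, z2, hder⟩ := hd z hu1 hu2 hs1 hs2
  have i1' : (13 : ℝ) ≤ i := by exact_mod_cast i1
  have i2' : (i : ℝ) ≤ 187 := by exact_mod_cast i2
  have ha : |2000 * (z.re - z0.re)| ≤
      ((mx (Nat.sub (Nat.mul 10 i) u1) (Nat.sub u2 (Nat.mul 10 i)) : ℕ) : ℝ) := by
    rw [mx_eq, Nat.cast_max, hz0r, abs_le]
    have a1 : 10 * (i : ℝ) ≤ ((10 * i - u1 : ℕ) : ℝ) + u1 := by
      have : 10 * i ≤ 10 * i - u1 + u1 := le_tsub_add
      exact_mod_cast this
    have a2 : (u2 : ℝ) ≤ ((u2 - 10 * i : ℕ) : ℝ) + 10 * i := by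
      have : u2 ≤ u2 - 10 * i + 10 * i := le_tsub_add
      exact_mod_cast this
    have a3 := le_max_left ((10 * i - u1 : ℕ) : ℝ) ((u2 - 10 * i : ℕ) : ℝ)
    have a4 := le_max_right ((10 * i - u1 : ℕ) : ℝ) ((u2 - 10 * i : ℕ) : ℝ)
    have e5 : Nat.sub (Nat.mul 10 i) u1 = 10 * i - u1 := rfl
    have e6 : Nat.sub u2 (Nat.mul 10 i) = u2 - 10 * i := rfl
    rw [e5, e6]
    constructor <;> linarith
  have hb : |2000 * (z.im - z0.im)| ≤
      ((mx (Nat.sub (Nat.mul 10 s) s1) (Nat.sub s2 (Nat.mul 10 s)) : ℕ) : ℝ) := by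
    rw [mx_eq, Nat.cast_max, hz0i, abs_le]
    have a1 : 10 * (s : ℝ) ≤ ((10 * s - s1 : ℕ) : ℝ) + s1 := by
      have : 10 * s ≤ 10 * s - s1 + s1 := le_tsub_add
      exact_mod_cast this
    have a2 : (s2 : ℝ) ≤ ((s2 - 10 * s : ℕ) : ℝ) + 10 * s := by
      have : s2 ≤ s2 - 10 * s + 10 * s := le_tsub_add
      exact_mod_cast this
    have a3 := le_max_left ((10 * s - s1 : ℕ) : ℝ) ((s2 - 10 * s : ℕ) : ℝ)
    have a4 := le_max_right ((10 * s - s1 : ℕ) : ℝ) ((s2 - 10 * s : ℕ) : ℝ)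
    have e5 : Nat.sub (Nat.mul 10 s) s1 = 10 * s - s1 := rfl
    have e6 : Nat.sub s2 (Nat.mul 10 s) = s2 - 10 * s := rfl
    rw [e5, e6]
    constructor <;> linarith
  have main := atom_le (z0 := z0) (z := z) (w := w) (P := (pp : ℝ) - pn) (R := (rp : ℝ) - rn)
    (e1 := e1) (e2 := e2) (dn := (dn : ℝ)) (K := (kk : ℝ)) g.q g.l g.t g.a g.b
    (by rw [hz0r]; linarith only [i1', z2, z1]) (by rw [hz0r]; linarith only [i2', z2, z1]) z1 z2 (fun τ t0 t1 => (hder τ t0 t1).1)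
    (fun τ t0 t1 => (hder τ t0 t1).2) ha hb (by rw [hwr, hz0r]; ring) (by rw [hwi, hz0i]; ring) he
    (Nat.cast_nonneg _)
  have er := erq_ge kk (mx (Nat.sub (Nat.mul 10 i) u1) (Nat.sub u2 (Nat.mul 10 i)))
    (mx (Nat.sub (Nat.mul 10 s) s1) (Nat.sub s2 (Nat.mul 10 s))) (Num.ds' pp pn)
        (Num.ds' rp rn) dn
  rw [Num.ds'_eq, Num.ds'_eq] at er
  have main2 := main.trans (add_le_add_right er _)
  generalize (erq kk (mx (Nat.sub (Nat.mul 10 i) u1) (Nat.sub u2 (Nat.mul 10 i)))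
    (mx (Nat.sub (Nat.mul 10 s) s1) (Nat.sub s2 (Nat.mul 10 s))) (Num.ds' pp pn)
        (Num.ds' rp rn) dn) = Q at main2 ⊢
  refine main2.trans (le_of_eq ?_)
  simp only [Num.add_eq', Num.mul_eq', Nat.cast_add, Nat.cast_mul, Nat.cast_ofNat]
  rw [hz0r, hz0i]
  ring

theorem atg_ok {i s u1 u2 s1 s2 pp pn rp rn dn : ℕ}
    {k : ℕ → ℕ → ℕ → ℕ → ℕ → ℕ → ℕ → ℕ → ℕ → ℕ → Bool} (hu : u1 ≤ u2) (hs : s1 ≤ s2)
    (h : atg i s u1 u2 s1 s2 pp pn rp rn dn k false = true) :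
    ∃ Vp Vn gp gn hp hn tp tn l Q : ℕ, k Vp Vn gp gn hp hn tp tn l Q = true ∧
      AtR i s u1 u2 s1 s2 pp pn rp rn dn Vp Vn gp gn hp hn tp tn l Q := by
  unfold atg ath at h
  rw [sel_false, sel_false, sel_false, sel_false] at h
  obtain ⟨c1, c2, c3, c4, h⟩ := h
  have c1 := Nat.ble_eq.mp c1
  have c2 := Nat.ble_eq.mp c2
  have c3 := Nat.ble_eq.mp c3
  have c4 := Nat.ble_eq.mp c4
  rw [mn_eq, mn_eq, mx_eq] at c4
  have e10 : Nat.mul 10 i = 10 * i := rfl
  have e10s : Nat.mul 10 s = 10 * s := rfl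
  have esb : Nat.sub 2000 (max (10 * i) u2) = 2000 - max (10 * i) u2 := rfl
  rw [e10, esb] at c4
  set b := Num.ds' s 40 with hb
  have hb' : (b : ℝ) = |(s : ℝ) - 40| := by
    rw [hb, Num.ds'_eq]
    norm_num
  have hs2 : 2 ≤ s ∧ s ≤ 78 := by
    have h1 : |(s : ℝ) - 40| ≤ 38 := by
      rw [← hb']
      exact_mod_cast c1
    have h2 := abs_le.1 h1
    constructor
    · have : (2 : ℝ) ≤ s := by linarith only [h2.1]
      exact_mod_cast this
    · have : (s : ℝ) ≤ 78 := by linarith only [h2.2]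
      exact_mod_cast this
  -- the indices of the bounds
  set U := min (min (10 * i) u1) (2000 - max (10 * i) u2) with hU
  have hUi : U ≤ 10 * i := (min_le_left _ _).trans (min_le_left _ _)
  have hUu : U ≤ u1 := (min_le_left _ _).trans (min_le_right _ _)
  have hU2 : U ≤ 2000 - max (10 * i) u2 := min_le_right _ _
  have hmi := le_max_left (10 * i) u2
  have hmu := le_max_right (10 * i) u2
  set S := (min s1 (10 * s) - 400) + (400 - max s2 (10 * s)) with hS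
  have hmM : min s1 (10 * s) ≤ max s2 (10 * s) := (min_le_left _ _).trans (hs.trans (le_max_left _ _))
  set iU := U / 10 with hiU
  set jS := S / 10 with hjS
  have hiU1 : 1 ≤ iU := by omega
  have hiU2 : iU ≤ 100 := by omega
  have hSx : ∀ x : ℝ, ((min s1 (10 * s) : ℕ) : ℝ) ≤ x → x ≤ ((max s2 (10 * s) : ℕ) : ℝ) →
      10 * (jS : ℝ) ≤ |x - 400| := by
    intro x h1 h2
    refine le_trans ?_ (idx_S hmM h1 h2)
    rw [← hS]
    have : 10 * jS ≤ S := by omega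
    exact_mod_cast this
  have hjS2 : jS ≤ 38 := by
    have h1 := hSx (10 * (s : ℝ)) (by
      have : min s1 (10 * s) ≤ 10 * s := min_le_right _ _
      exact_mod_cast this) (by
      have : 10 * s ≤ max s2 (10 * s) := le_max_right _ _
      exact_mod_cast this)
    rw [show 10 * (s : ℝ) - 400 = 10 * ((s : ℝ) - 40) by ring, abs_mul,
      abs_of_pos (by norm_num : (0 : ℝ) < 10), ← hb'] at h1
    have h2 : (jS : ℝ) ≤ b := by linarith only [h1]
    have h3 : jS ≤ b := by exact_mod_cast h2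
    omega
  have hcT := (cT_eq iU jS hiU2 hjS2).1
  have hkk : kE (Nat.mod (cT (Nat.div (mn (mn (Nat.mul 10 i) u1) (Nat.sub 2000 (mx (Nat.mul 10 i) u2)))
      10) (Nat.div (Nat.add (Nat.sub (mn s1 (Nat.mul 10 s)) 400)
          (Nat.sub 400 (mx s2 (Nat.mul 10 s)))) 10)) 1208925819614629174706176) = kE (ent iU jS) := by
    rw [← hcT, mn_eq, mn_eq, mx_eq, mn_eq, mx_eq]
    rfl
  have hd : ∀ z0 : ℂ, z0.re = (i : ℝ) / 200 → z0.im = ((s : ℝ) - 40) / 200 →
      ∀ z : ℂ, (u1 : ℝ) ≤ 2000 * z.re → 2000 * z.re ≤ u2 →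
      (s1 : ℝ) ≤ 2000 * z.im + 400 → 2000 * z.im + 400 ≤ s2 → 0 < z.re ∧ z.re < 1 ∧
        ∀ τ : ℝ, 0 ≤ τ → τ ≤ 1 → ‖ct (z0 + τ * (z - z0))‖ ≤ (kE (ent iU jS) : ℝ) / 16 ∧
          ‖(Real.pi : ℂ) ^ 2 / sin (Real.pi * (z0 + τ * (z - z0))) ^ 2‖ ≤
            ((kE (ent iU jS) : ℝ) ^ 2 - 2526) / 256 := by
    intro z0 hr hi z h1 h2 h3 h4
    have f1 : 10 * (iU : ℝ) ≤ u1 := by
      have : 10 * iU ≤ u1 := by omega
      exact_mod_cast this
    have f2 : 10 * (iU : ℝ) + u2 ≤ 2000 := by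
      have : 10 * iU + u2 ≤ 2000 := by omega
      exact_mod_cast this
    have f3 : 10 * (iU : ℝ) ≤ 10 * i := by
      have : 10 * iU ≤ 10 * i := by omega
      exact_mod_cast this
    have f4 : 10 * (iU : ℝ) + 10 * i ≤ 2000 := by
      have : 10 * iU + 10 * i ≤ 2000 := by omega
      exact_mod_cast this
    have f5 : (1 : ℝ) ≤ iU := by exact_mod_cast hiU1
    have g1 : ((min s1 (10 * s) : ℕ) : ℝ) ≤ s1 := by
      have : min s1 (10 * s) ≤ s1 := min_le_left _ _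
      exact_mod_cast this
    have g2 : (s2 : ℝ) ≤ ((max s2 (10 * s) : ℕ) : ℝ) := by
      have : s2 ≤ max s2 (10 * s) := le_max_left _ _
      exact_mod_cast this
    have g3 : ((min s1 (10 * s) : ℕ) : ℝ) ≤ 10 * s := by
      have : min s1 (10 * s) ≤ 10 * s := min_le_right _ _
      exact_mod_cast this
    have g4 : 10 * (s : ℝ) ≤ ((max s2 (10 * s) : ℕ) : ℝ) := by
      have : 10 * s ≤ max s2 (10 * s) := le_max_right _ _
      exact_mod_cast this
    refine ⟨by linarith only [f5, f1, h1], by linarith only [f5, f2, h2], fun τ t0 t1 => ?_⟩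
    exact seg_der hiU1 hiU2 (by omega) (by rw [hr]; linarith only [f3]) (by rw [hr]; linarith only [f4]) (by linarith only [f1,
                                                                                                               h1])
      (by linarith only [f2, h2]) (by rw [hi]; linarith only [g3]) (by rw [hi]; linarith only [g4]) (by linarith only [g1,
                                                                                                          h3]) (by linarith only [g2,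
                                                                                                                     h4]) hSx τ
      t0 t1
  rw [hkk] at h
  have hE : ∀ a : ℕ, 13 ≤ a → a ≤ 100 → Gd (pt a b) (qE (ent a b)) 0 (tE (ent a b)) 0
      (lE (ent a b)) (aE (entC a b)) 0 0 (bE (entC a b)) := fun a a1 a2 =>
    gd_pt a1 a2 c1 (ent_ok a b a2 (by omega) (by omega))
  have ptre : ∀ a : ℕ, (pt a b).re = (a : ℝ) / 200 := fun a => by unfold pt; exact line_re _ _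
  have ptim : ∀ a : ℕ, (pt a b).im = (b : ℝ) / 200 := fun a => by unfold pt; exact line_im _ _
  rcases sel_true_of h with ⟨l1, h⟩ | ⟨l1, h⟩
  · -- the left half
    have l1 := Nat.ble_eq.mp l1
    unfold atT atf at h
    obtain ⟨t1, t2⟩ := cT_eq i b l1 (by omega)
    rw [t1, t2] at h
    have p0 : 0 < (pt i b).re := by
      rw [ptre]
      have : (13 : ℝ) ≤ i := by exact_mod_cast c2
      linarith only [this]
    have p1 : (pt i b).re < 1 := by
      rw [ptre]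
      have : (i : ℝ) ≤ 187 := by exact_mod_cast c3
      linarith only [this]
    have h : Bool.rec (motive := fun _ => Bool)
        (atk (qE (ent i b)) 0 0 (tE (ent i b)) (lE (ent i b)) (aE (entC i b)) 0 (bE (entC i b)) 0
          pp pn rp rn (erq (kE (ent iU jS)) (mx (Nat.sub (Nat.mul 10 i) u1) (Nat.sub u2 (Nat.mul 10 i)))
        (mx (Nat.sub (Nat.mul 10 s) s1) (Nat.sub s2 (Nat.mul 10 s))) (Num.ds' pp pn)
        (Num.ds' rp rn) dn) k)
        (atk (qE (ent i b)) 0 (tE (ent i b)) 0 (lE (ent i b)) (aE (entC i b)) 0 0 (bE (entC i b))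
          pp pn rp rn (erq (kE (ent iU jS)) (mx (Nat.sub (Nat.mul 10 i) u1) (Nat.sub u2 (Nat.mul 10 i)))
        (mx (Nat.sub (Nat.mul 10 s) s1) (Nat.sub s2 (Nat.mul 10 s))) (Num.ds' pp pn)
        (Num.ds' rp rn) dn) k) (Nat.ble 40 s) = true := h
    rcases sel_true_of h with ⟨v1, h⟩ | ⟨v1, h⟩
    · have v1 := Nat.ble_eq.mp v1
      have v1' : (40 : ℝ) ≤ s := by exact_mod_cast v1
      have e2 : (b : ℝ) = s - 40 := by rw [hb', abs_of_nonneg (by linarith only [v1'])]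
      exact atk_ok h (hE i c2 l1) (ptre i) (by rw [ptim, e2]) c2 c3 hs2.1 hs2.2 (c4.trans hUu)
        (hd _ (ptre i) (by rw [ptim, e2]))
    · have v1 := ble_false v1
      have v1' : (s : ℝ) < 40 := by exact_mod_cast v1
      have e2 : (b : ℝ) = -(s - 40) := by rw [hb', abs_of_neg (by linarith only [v1'])]
      have r1 : ((starRingEnd ℂ) (pt i b)).re = (i : ℝ) / 200 := by rw [conj_re, ptre]
      have r2 : ((starRingEnd ℂ) (pt i b)).im = ((s : ℝ) - 40) / 200 := by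
        rw [conj_im, ptim, e2]
        ring
      exact atk_ok h ((hE i c2 l1).conj p0 p1) r1 r2 c2 c3 hs2.1 hs2.2 (c4.trans hUu) (hd _ r1 r2)
  · -- the right half
    have l1 := ble_false l1
    unfold atT atf at h
    have esub : Nat.sub 200 i = 200 - i := rfl
    rw [esub] at h
    obtain ⟨t1, t2⟩ := cT_eq (200 - i) b (by omega) (by omega)
    rw [t1, t2] at h
    have hcast : (((200 - i : ℕ)) : ℝ) = 200 - (i : ℝ) := by
      rw [Nat.cast_sub (by omega)]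
      norm_num
    have p0 : 0 < (pt (200 - i) b).re := by
      rw [ptre, hcast]
      have : (i : ℝ) ≤ 187 := by exact_mod_cast c3
      linarith only [this]
    have p1 : (pt (200 - i) b).re < 1 := by
      rw [ptre, hcast]
      have : (13 : ℝ) ≤ i := by exact_mod_cast c2
      linarith only [this]
    have h : Bool.rec (motive := fun _ => Bool)
        (atk 0 (qE (ent (200 - i) b)) (tE (ent (200 - i) b)) 0 (lE (ent (200 - i) b)) 0
          (aE (entC (200 - i) b)) (bE (entC (200 - i) b)) 0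
          pp pn rp rn (erq (kE (ent iU jS)) (mx (Nat.sub (Nat.mul 10 i) u1) (Nat.sub u2 (Nat.mul 10 i)))
        (mx (Nat.sub (Nat.mul 10 s) s1) (Nat.sub s2 (Nat.mul 10 s))) (Num.ds' pp pn)
        (Num.ds' rp rn) dn) k)
        (atk 0 (qE (ent (200 - i) b)) 0 (tE (ent (200 - i) b)) (lE (ent (200 - i) b)) 0
          (aE (entC (200 - i) b)) 0 (bE (entC (200 - i) b))
          pp pn rp rn (erq (kE (ent iU jS)) (mx (Nat.sub (Nat.mul 10 i) u1) (Nat.sub u2 (Nat.mul 10 i)))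
        (mx (Nat.sub (Nat.mul 10 s) s1) (Nat.sub s2 (Nat.mul 10 s))) (Num.ds' pp pn)
        (Num.ds' rp rn) dn) k) (Nat.ble 40 s) = true := h
    have hG := hE (200 - i) (by omega) (by omega)
    rcases sel_true_of h with ⟨v1, h⟩ | ⟨v1, h⟩
    · have v1 := Nat.ble_eq.mp v1
      have v1' : (40 : ℝ) ≤ s := by exact_mod_cast v1
      have e2 : (b : ℝ) = s - 40 := by rw [hb', abs_of_nonneg (by linarith only [v1'])]
      have r1 : (1 - (starRingEnd ℂ) (pt (200 - i) b)).re = (i : ℝ) / 200 := by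
        rw [sub_re, one_re, conj_re, ptre, hcast]
        ring
      have r2 : (1 - (starRingEnd ℂ) (pt (200 - i) b)).im = ((s : ℝ) - 40) / 200 := by
        rw [sub_im, one_im, conj_im, ptim, e2]
        ring
      exact atk_ok h (hG.conj p0 p1).rfl' r1 r2 c2 c3 hs2.1 hs2.2 (c4.trans hUu) (hd _ r1 r2)
    · have v1 := ble_false v1
      have v1' : (s : ℝ) < 40 := by exact_mod_cast v1
      have e2 : (b : ℝ) = -(s - 40) := by rw [hb', abs_of_neg (by linarith only [v1'])]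
      have r1 : (1 - pt (200 - i) b).re = (i : ℝ) / 200 := by
        rw [sub_re, one_re, ptre, hcast]
        ring
      have r2 : (1 - pt (200 - i) b).im = ((s : ℝ) - 40) / 200 := by
        rw [sub_im, one_im, ptim, e2]
        ring
      exact atk_ok h hG.rfl' r1 r2 c2 c3 hs2.1 hs2.2 (c4.trans hUu) (hd _ r1 r2)

end Pool.Agent.S5.Pa
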