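import Pool.Agent.S5.I.PaT

/-!
# Soundness of the branch and bound
-/

set_option autoImplicit false

namespace Pool.Agent.S5.Pa

open Pool.Agent.H63.VC3 Pool.Agent.S3 Complex Set Pool.Agent.S5

theorem go_succ (T : Nat → Nat → Nat → Nat → Nat → Nat → Nat → Nat → Nat → Nat → Bool)
    (n h xa xb na nb ta tb ea eb : Nat) (k : Nat → Bool) :
    go T (n + 1) h xa xb na nb ta tb ea eb k =
      (fun c => Num.fN (fun h => Bool.rec (motive := fun _ => _) (Bool.rec (motive := fun _ => _)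
        (Bool.rec (motive := fun _ => _) false (Num.fN k (Nat.shiftRight h 16)) (T (Nat.sub c 5)
          (Nat.mod h 65536) xa xb na nb ta tb ea eb)) (Bool.rec (motive := fun _ => _) false (k h)
            (skp xa na ta tb eb)) (Nat.ble c 4)) (Bool.rec (motive := fun _ => _) (Bool.rec (motive
              := fun _ => _) (Num.fN (fun m => go T n h xa xb na nb ta tb ea m
              (fun h => go T n h xa xb na nb ta tb m eb k)) (cut ea eb)) (Num.fN (fun m => go T n h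
                xa xb na nb ta m ea eb
              (fun h => go T n h xa xb na nb m tb ea eb k)) (cut ta tb)) (Nat.ble c 2)) (Bool.rec
                (motive := fun _ => _) (Num.fN (fun m => go T n h xa xb na m ta tb ea eb
              (fun h => go T n h xa xb m nb ta tb ea eb k)) (cut na nb)) (Num.fN (fun m => go T n h
                xa m na nb ta tb ea eb
              (fun h => go T n h m xb na nb ta tb ea eb k)) (cut xa xb)) (Nat.ble c 0)) (Nat.ble c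
                1)) (Nat.ble c 3))
        (Nat.shiftRight h 3)) (Nat.mod h 8) := by
  unfold go
  with_reducible rfl

/-- A property holds on a cell. -/
def On (L : ℝ) (G : ℂ → ℂ → Prop) (xa xb na nb ta tb ea eb : ℕ) : Prop :=
  ∀ ys vs : ℂ, Sd L ys vs → Cl xa xb na nb ta tb ea eb ys vs → G ys vs

theorem On.cutx {L : ℝ} {G : ℂ → ℂ → Prop} {xa xb na nb ta tb ea eb : ℕ} (m : ℕ)
    (h1 : On L G xa m na nb ta tb ea eb) (h2 : On L G m xb na nb ta tb ea eb) :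
    On L G xa xb na nb ta tb ea eb := by
  rintro ys vs hS ⟨x1, x2, n1, n2, t1, t2, f1, f2⟩
  rcases le_total (2000 * vs.re) m with h | h
  · exact h1 ys vs hS ⟨x1, h, n1, n2, t1, t2, f1, f2⟩
  · exact h2 ys vs hS ⟨h, x2, n1, n2, t1, t2, f1, f2⟩

theorem On.cutn {L : ℝ} {G : ℂ → ℂ → Prop} {xa xb na nb ta tb ea eb : ℕ} (m : ℕ)
    (h1 : On L G xa xb na m ta tb ea eb) (h2 : On L G xa xb m nb ta tb ea eb) :
    On L G xa xb na nb ta tb ea eb := by
  rintro ys vs hS ⟨x1, x2, n1, n2, t1, t2, f1, f2⟩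
  rcases le_total (2000 * vs.im) m with h | h
  · exact h1 ys vs hS ⟨x1, x2, n1, h, t1, t2, f1, f2⟩
  · exact h2 ys vs hS ⟨x1, x2, h, n2, t1, t2, f1, f2⟩

theorem On.cutt {L : ℝ} {G : ℂ → ℂ → Prop} {xa xb na nb ta tb ea eb : ℕ} (m : ℕ)
    (h1 : On L G xa xb na nb ta m ea eb) (h2 : On L G xa xb na nb m tb ea eb) :
    On L G xa xb na nb ta tb ea eb := by
  rintro ys vs hS ⟨x1, x2, n1, n2, t1, t2, f1, f2⟩
  rcases le_total (2000 * ys.re) m with h | h
  · exact h1 ys vs hS ⟨x1, x2, n1, n2, t1, h, f1, f2⟩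
  · exact h2 ys vs hS ⟨x1, x2, n1, n2, h, t2, f1, f2⟩

theorem On.cute {L : ℝ} {G : ℂ → ℂ → Prop} {xa xb na nb ta tb ea eb : ℕ} (m : ℕ)
    (h1 : On L G xa xb na nb ta tb ea m) (h2 : On L G xa xb na nb ta tb m eb) :
    On L G xa xb na nb ta tb ea eb := by
  rintro ys vs hS ⟨x1, x2, n1, n2, t1, t2, f1, f2⟩
  rcases le_total (2000 * ys.im + 400) m with h | h
  · exact h1 ys vs hS ⟨x1, x2, n1, n2, t1, t2, f1, h⟩
  · exact h2 ys vs hS ⟨x1, x2, n1, n2, t1, t2, h, f2⟩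

theorem skp_ok {L : ℝ} {G : ℂ → ℂ → Prop} {xa xb na nb ta tb ea eb : ℕ}
    (h : skp xa na ta tb eb = true) : On L G xa xb na nb ta tb ea eb := by
  rintro ys vs hS ⟨x1, x2, n1, n2, t1, t2, f1, f2⟩
  exfalso
  have hg := hS.g
  have hp := hS.p
  have hd := hS.d
  unfold skp at h
  rcases sel_true_of h with ⟨_, h⟩ | ⟨h, _⟩
  · rcases sel_true_of h with ⟨_, h⟩ | ⟨h, _⟩
    · have h := Nat.ble_eq.mp h
      have h : eb + 1 ≤ na + 70 := h
      have h' : (eb : ℝ) + 1 ≤ na + 70 := by exact_mod_cast h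
      linarith
    · have h := ble_false h
      have h : 1090 < ta + xa := h
      have h' : (1090 : ℝ) < ta + xa := by exact_mod_cast h
      linarith
  · have h := ble_false h
    have h : tb < xa + 150 := h
    have h' : (tb : ℝ) < xa + 150 := by exact_mod_cast h
    linarith

theorem go_ok {L : ℝ} {G : ℂ → ℂ → Prop}
    {T : Nat → Nat → Nat → Nat → Nat → Nat → Nat → Nat → Nat → Nat → Bool}
    (hT : ∀ q g xa xb na nb ta tb ea eb : ℕ, T q g xa xb na nb ta tb ea eb = true →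
      On L G xa xb na nb ta tb ea eb) (n : ℕ) :
    ∀ (h xa xb na nb ta tb ea eb : ℕ) (k : ℕ → Bool), go T n h xa xb na nb ta tb ea eb k = true →
      On L G xa xb na nb ta tb ea eb ∧ ∃ h' : ℕ, k h' = true := by
  induction n with
  | zero =>
    intro h xa xb na nb ta tb ea eb k hk
    exact absurd hk (by unfold go; exact Bool.false_ne_true)
  | succ n ih =>
    intro h xa xb na nb ta tb ea eb k hk
    rw [go_succ] at hk
    simp only [Num.fN_eq] at hk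
    rcases sel_true_of hk with ⟨_, hk⟩ | ⟨_, hk⟩
    · rcases sel_true_of hk with ⟨_, hk⟩ | ⟨_, hk⟩
      · rcases sel_true_of hk with ⟨_, hk⟩ | ⟨_, hk⟩
        · obtain ⟨a, h1, hk⟩ := ih _ _ _ _ _ _ _ _ _ _ hk
          obtain ⟨b, c⟩ := ih _ _ _ _ _ _ _ _ _ _ hk
          exact ⟨a.cutx _ b, c⟩
        · obtain ⟨a, h1, hk⟩ := ih _ _ _ _ _ _ _ _ _ _ hk
          obtain ⟨b, c⟩ := ih _ _ _ _ _ _ _ _ _ _ hk
          exact ⟨a.cutn _ b, c⟩
      · rcases sel_true_of hk with ⟨_, hk⟩ | ⟨_, hk⟩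
        · obtain ⟨a, h1, hk⟩ := ih _ _ _ _ _ _ _ _ _ _ hk
          obtain ⟨b, c⟩ := ih _ _ _ _ _ _ _ _ _ _ hk
          exact ⟨a.cutt _ b, c⟩
        · obtain ⟨a, h1, hk⟩ := ih _ _ _ _ _ _ _ _ _ _ hk
          obtain ⟨b, c⟩ := ih _ _ _ _ _ _ _ _ _ _ hk
          exact ⟨a.cute _ b, c⟩
    · rcases sel_true_of hk with ⟨_, hk⟩ | ⟨_, hk⟩
      · obtain ⟨h1, h2⟩ := sel_false.1 hk
        exact ⟨skp_ok h1, _, h2⟩
      · obtain ⟨h1, h2⟩ := sel_false.1 hk
        exact ⟨hT _ _ _ _ _ _ _ _ _ _ h1, _, h2⟩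

/-- The side conditions follow from `VU`. -/
theorem Sd.of {L : ℝ} {ys vs : ℂ} (h : VU ys vs) (hL : lamv ys vs ≤ L) : Sd L ys vs := by
  obtain ⟨x0, x1, n0, n1, g, t0, t1, p, e0, e1, d, l, l2, b, b2⟩ := h
  exact ⟨x0.le, n0.le, by linarith, by linarith, by linarith, by linarith, by linarith, b, hL,
    by linarith⟩

/-- **Soundness.** -/
theorem run_ok {w cm al be X s u Ap An Bp Bn Cp Cn Lp Ln n h x0 x1 n0 n1 t0 t1 e0 e1 : ℕ}
    (hw : w = 1 ∨ w = 2) (hcm : cm ≤ 1) (hal : al ≤ 1) (hbe : be ≤ 1)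
    (hr : go (leaf w cm al be X s u Ap An Bp Bn Cp Cn Lp Ln) n h x0 x1 n0 n1 t0 t1 e0 e1
      (fun _ => true) = true) {ys vs : ℂ} (hV : VU ys vs)
    (hx : (x0 : ℝ) ≤ 2000 * vs.re ∧ 2000 * vs.re ≤ x1)
    (hn : (n0 : ℝ) ≤ 2000 * vs.im ∧ 2000 * vs.im ≤ n1)
    (ht : (t0 : ℝ) ≤ 2000 * ys.re ∧ 2000 * ys.re ≤ t1)
    (he : (e0 : ℝ) ≤ 2000 * ys.im + 400 ∧ 2000 * ys.im + 400 ≤ e1)
    (hL : lamv ys vs ≤ ((Lp : ℝ) - Ln) / 1048576) :
    FF w cm al be (((X : ℝ) - 100) / 200) (((s : ℝ) - 40) / 200) (((u : ℝ) - 100) / 200) ys vs ≤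
      ((Ap : ℝ) - An) / 1048576 - ((Bp : ℝ) - Bn) / 1048576 * vs.im -
        ((Cp : ℝ) - Cn) / 1048576 * ys.im := by
  have hT : ∀ q g xa xb na nb ta tb ea eb : ℕ,
      leaf w cm al be X s u Ap An Bp Bn Cp Cn Lp Ln q g xa xb na nb ta tb ea eb = true →
      On (((Lp : ℝ) - Ln) / 1048576) (fun ys vs => FF w cm al be (((X : ℝ) - 100) / 200)
        (((s : ℝ) - 40) / 200) (((u : ℝ) - 100) / 200) ys vs ≤
      ((Ap : ℝ) - An) / 1048576 - ((Bp : ℝ) - Bn) / 1048576 * vs.im -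
        ((Cp : ℝ) - Cn) / 1048576 * ys.im) xa xb na nb ta tb ea eb := by
    intro q g xa xb na nb ta tb ea eb h0 ys vs hS hC
    unfold leaf at h0
    exact leaf0_ok hw hcm hal hbe h0 hS hC
  exact (go_ok hT n _ _ _ _ _ _ _ _ _ _ hr).1 ys vs (Sd.of hV hL)
    ⟨hx.1, hx.2, hn.1, hn.2, ht.1, ht.2, he.1, he.2⟩

end Pool.Agent.S5.Pa
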