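import Pool.Agent.S5.I.PaJ

/-!
# The slope in the height of the node: the run
-/

set_option autoImplicit false
set_option maxRecDepth 10000

namespace Pool.Agent.S5.Pa

theorem kap_go : goj 34
    0x5b2b14aaecb2b14b56d42976cac2a6cb656852d5b290a995cb2b52995a055b656acad10889652259486ad95a064ae4a58324b290e4b2b4582d595d22595d21a21a16574ab2b96569895cac140892b96262d8ab05c96562989c92981cacc1131298ac54b962a60315822b1160b0adad5a8daa9b6baa916b56a3659504ed76b0ad829725ae0b0149db5342ca9d564aa94ed681b4d953aad75106d96d61db2942b2ab14d74daa9680b62b1015d35d8a0b03b1415982c15d3031626adb50a45b05358ad10c5b5d2abb458ab94cb111158aba6c562762ac8615aadad076c5686adaa90c822d168368b41b601682ad1682d5b50b4176d009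
    150 684 200 730 490 1090 130 776 (fun _ => true) = true := by
  decide +kernel

end Pool.Agent.S5.Pa
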