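import Pool.Agent.S5.I.PaJa
import Pool.Agent.S5.I.PaJk

/-!
# The slope in the height of the node
-/

set_option autoImplicit false

namespace Pool.Agent.S5.Pa

open Pool.Agent.H63.VC3 Pool.Agent.S3 Complex Set Pool.Agent.S5

/-- The side conditions. -/
structure RJ (z2 z3 : ℂ) : Prop where
  c1 : 2000 * z3.re ≤ 2000 * z2.re + 860
  c2 : 2000 * z2.re ≤ 2000 * z3.re
  c3 : 980 ≤ 2000 * z3.re + 2000 * z2.re
  c4 : 2000 * z3.re + 2000 * z2.re ≤ 1368
  c5 : 800 ≤ (400 - 2000 * z2.im) + (2000 * z3.im + 400)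
  c6 : (400 - 2000 * z2.im) + (2000 * z3.im + 400) ≤ 1152
  c7 : 400 - 2000 * z2.im ≤ (2000 * z3.im + 400) + 540
  c8 : 2000 * z3.im + 400 ≤ (400 - 2000 * z2.im) + 400
  c9 : 400 - 2000 * z2.im ≤ 800

/-- The point is in the cell. -/
structure CJ (aa ab ba bb ca cb da db : ℕ) (z2 z3 : ℂ) : Prop where
  a1 : (aa : ℝ) ≤ 2000 * z2.re
  a2 : 2000 * z2.re ≤ (ab : ℝ)
  b1 : (ba : ℝ) ≤ 400 - 2000 * z2.im
  b2 : 400 - 2000 * z2.im ≤ (bb : ℝ)
  c1 : (ca : ℝ) ≤ 2000 * z3.re
  c2 : 2000 * z3.re ≤ (cb : ℝ)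
  d1 : (da : ℝ) ≤ 2000 * z3.im + 400
  d2 : 2000 * z3.im + 400 ≤ (db : ℝ)

/-- The bound holds on the cell. -/
def OJ (aa ab ba bb ca cb da db : ℕ) : Prop :=
  ∀ z2 z3 : ℂ, RJ z2 z3 → CJ aa ab ba bb ca cb da db z2 z3 → (hh z3).im - (hh z2).im ≤ 9 / 8

theorem kap0_ok {aa ab ba bb ca cb da db : ℕ} (h : kap0 aa ab ba bb ca cb da db = true) :
    OJ aa ab ba bb ca cb da db := by
  rintro z2 z3 hR ⟨a1, a2, b1, b2, c1, c2, d1, d2⟩
  have h9 := hR.c9
  unfold kap0 kap1 at h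
  generalize ctr' aa ab = Ga at h
  generalize ctr' ba bb = Gb at h
  generalize ctr' ca cb = Gc at h
  generalize ctr' da db = Gd' at h
  have eaa : aa ≤ ab := by exact_mod_cast a1.trans a2
  have ebb : ba ≤ bb := by exact_mod_cast b1.trans b2
  have ecc : ca ≤ cb := by exact_mod_cast c1.trans c2
  have edd : da ≤ db := by exact_mod_cast d1.trans d2
  have esub : Nat.sub 800 bb ≤ Nat.sub 800 ba := Nat.sub_le_sub_left ebb 800
  obtain ⟨t2p, t2n, a2p, a2n, b2p, b2n, E2, h, R2⟩ := rwg_ok eaa esub h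
  obtain ⟨t3p, t3n, a3p, a3n, b3p, b3n, E3, h, R3⟩ := rwg_ok ecc edd h
  have k2 := R2.le z2 a1 a2 (sub_le' (by push_cast; linarith) (by linarith))
    (le_sub' (by push_cast; linarith))
  have k3 := R3.le z3 c1 c2 d1 d2
  have g2 := R2.q1
  have hGb : ((Nat.sub 80 Gb : ℕ) : ℝ) = 80 - (Gb : ℝ) := by
    have e : Nat.sub 80 Gb = 80 - Gb := rfl
    rw [e] at g2 ⊢
    rw [Nat.cast_sub (by omega)]
    norm_num
  rw [hGb] at k2
  unfold kap2 at h
  obtain ⟨P1, M1, h, m1⟩ := acc_le (d := 2000 * z2.re - 10 * Ga) h (by linarith) (by linarith)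
  obtain ⟨P2, M2, h, m2⟩ := acc_le (d := 400 - 2000 * z2.im - 10 * Gb) h (by linarith) (by linarith)
  obtain ⟨P3, M3, h, m3⟩ := acc_le (d := 2000 * z3.re - 10 * Gc) h (by linarith) (by linarith)
  obtain ⟨P4, M4, h, m4⟩ := acc_le (d := 2000 * z3.im + 400 - 10 * Gd') h (by linarith) (by linarith)
  have h := Nat.ble_eq.mp h
  have k5 : (P4 : ℝ) ≤ M4 := by exact_mod_cast h
  simp only [Num.add_eq', Num.mul_eq', Nat.cast_add, Nat.cast_mul, Nat.cast_ofNat] at m1 m2 m3 m4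
  have l2 := (abs_le.1 k2).1
  have l3 := (abs_le.1 k3).2
  have e2 : 512 * (((a2p : ℝ) - a2n) * (2000 * z2.im + 400 - 10 * (80 - (Gb : ℝ))) +
      ((b2p : ℝ) - b2n) * (2000 * z2.re - 10 * Ga)) =
      -(2 * ((256 * (a2p : ℝ) - 256 * a2n) * (400 - 2000 * z2.im - 10 * Gb))) -
        2 * ((256 * (b2n : ℝ) - 256 * b2p) * (2000 * z2.re - 10 * Ga)) := by ring
  have e3 : 512 * (((a3p : ℝ) - a3n) * (2000 * z3.im + 400 - 10 * (Gd' : ℝ)) +
      ((b3p : ℝ) - b3n) * (2000 * z3.re - 10 * Gc)) =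
      2 * ((256 * (a3p : ℝ) - 256 * a3n) * (2000 * z3.im + 400 - 10 * Gd')) +
        2 * ((256 * (b3p : ℝ) - 256 * b3n) * (2000 * z3.re - 10 * Gc)) := by ring
  rw [e2] at l2
  rw [e3] at l3
  linarith

theorem skj_ok {aa ab ba bb ca cb da db : ℕ} (h : skj aa ab ba bb ca cb da db = true) :
    OJ aa ab ba bb ca cb da db := by
  rintro z2 z3 ⟨r1, r2, r3, r4, r5, r6, r7, r8, _⟩ ⟨a1, a2, b1, b2, c1, c2, d1, d2⟩
  exfalso
  unfold skj at h
  rcases sel_true_of h with ⟨_, h⟩ | ⟨h, _⟩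
  · rcases sel_true_of h with ⟨_, h⟩ | ⟨h, _⟩
    · rcases sel_true_of h with ⟨_, h⟩ | ⟨h, _⟩
      · rcases sel_true_of h with ⟨_, h⟩ | ⟨h, _⟩
        · rcases sel_true_of h with ⟨_, h⟩ | ⟨h, _⟩
          · rcases sel_true_of h with ⟨_, h⟩ | ⟨h, _⟩
            · rcases sel_true_of h with ⟨_, h⟩ | ⟨h, _⟩
              · rcases sel_true_of h with ⟨_, h⟩ | ⟨h, _⟩
                · exact absurd h Bool.false_ne_true
                · have h : bb + 400 < da := ble_false h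
                  have h' : (bb : ℝ) + 400 < da := by exact_mod_cast h
                  linarith
              · have h : db + 540 < ba := ble_false h
                have h' : (db : ℝ) + 540 < ba := by exact_mod_cast h
                linarith
            · have h : 1152 < ba + da := ble_false h
              have h' : (1152 : ℝ) < ba + da := by exact_mod_cast h
              linarith
          · have h : bb + db < 800 := ble_false h
            have h' : (bb : ℝ) + db < 800 := by exact_mod_cast h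
            linarith
        · have h : 1368 < ca + aa := ble_false h
          have h' : (1368 : ℝ) < ca + aa := by exact_mod_cast h
          linarith
      · have h : cb + ab < 980 := ble_false h
        have h' : (cb : ℝ) + ab < 980 := by exact_mod_cast h
        linarith
    · have h : cb < aa := ble_false h
      have h' : (cb : ℝ) < aa := by exact_mod_cast h
      linarith
  · have h : ab + 860 < ca := ble_false h
    have h' : (ab : ℝ) + 860 < ca := by exact_mod_cast h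
    linarith

theorem OJ.cuta {aa ab ba bb ca cb da db : ℕ} (m : ℕ)
    (h1 : OJ aa m ba bb ca cb da db) (h2 : OJ m ab ba bb ca cb da db) :
    OJ aa ab ba bb ca cb da db := by
  rintro z2 z3 hR ⟨a1, a2, b1, b2, c1, c2, d1, d2⟩
  rcases le_total (2000 * z2.re) m with h | h
  · exact h1 z2 z3 hR ⟨a1, h, b1, b2, c1, c2, d1, d2⟩
  · exact h2 z2 z3 hR ⟨h, a2, b1, b2, c1, c2, d1, d2⟩

theorem OJ.cutb {aa ab ba bb ca cb da db : ℕ} (m : ℕ)
    (h1 : OJ aa ab ba m ca cb da db) (h2 : OJ aa ab m bb ca cb da db) :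
    OJ aa ab ba bb ca cb da db := by
  rintro z2 z3 hR ⟨a1, a2, b1, b2, c1, c2, d1, d2⟩
  rcases le_total (400 - 2000 * z2.im) m with h | h
  · exact h1 z2 z3 hR ⟨a1, a2, b1, h, c1, c2, d1, d2⟩
  · exact h2 z2 z3 hR ⟨a1, a2, h, b2, c1, c2, d1, d2⟩

theorem OJ.cutc {aa ab ba bb ca cb da db : ℕ} (m : ℕ)
    (h1 : OJ aa ab ba bb ca m da db) (h2 : OJ aa ab ba bb m cb da db) :
    OJ aa ab ba bb ca cb da db := by
  rintro z2 z3 hR ⟨a1, a2, b1, b2, c1, c2, d1, d2⟩
  rcases le_total (2000 * z3.re) m with h | h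
  · exact h1 z2 z3 hR ⟨a1, a2, b1, b2, c1, h, d1, d2⟩
  · exact h2 z2 z3 hR ⟨a1, a2, b1, b2, h, c2, d1, d2⟩

theorem OJ.cutd {aa ab ba bb ca cb da db : ℕ} (m : ℕ)
    (h1 : OJ aa ab ba bb ca cb da m) (h2 : OJ aa ab ba bb ca cb m db) :
    OJ aa ab ba bb ca cb da db := by
  rintro z2 z3 hR ⟨a1, a2, b1, b2, c1, c2, d1, d2⟩
  rcases le_total (2000 * z3.im + 400) m with h | h
  · exact h1 z2 z3 hR ⟨a1, a2, b1, b2, c1, c2, d1, h⟩
  · exact h2 z2 z3 hR ⟨a1, a2, b1, b2, c1, c2, h, d2⟩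

theorem goj_succ (n h aa ab ba bb ca cb da db : Nat) (k : Nat → Bool) :
    goj (n + 1) h aa ab ba bb ca cb da db k =
      (fun c => Num.fN (fun h => Bool.rec (motive := fun _ => _) (Bool.rec (motive := fun _ => _)
        (Bool.rec (motive := fun _ => _) false (k h) (kap0 aa ab ba bb ca cb da db))
        (Bool.rec (motive := fun _ => _) false (k h) (skj aa ab ba bb ca cb da db)) (Nat.ble c 4))
        (Bool.rec (motive := fun _ => _) (Bool.rec (motive := fun _ => _)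
          (Num.fN (fun m => goj n h aa ab ba bb ca cb da m
            (fun h => goj n h aa ab ba bb ca cb m db k)) (cut da db))
          (Num.fN (fun m => goj n h aa ab ba bb ca m da db
            (fun h => goj n h aa ab ba bb m cb da db k)) (cut ca cb)) (Nat.ble c 2))
          (Bool.rec (motive := fun _ => _)
          (Num.fN (fun m => goj n h aa ab ba m ca cb da db
            (fun h => goj n h aa ab m bb ca cb da db k)) (cut ba bb))
          (Num.fN (fun m => goj n h aa m ba bb ca cb da db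
            (fun h => goj n h m ab ba bb ca cb da db k)) (cut aa ab)) (Nat.ble c 0))
          (Nat.ble c 1)) (Nat.ble c 3))
        (Nat.shiftRight h 3)) (Nat.mod h 8) := by
  unfold goj
  with_reducible rfl

theorem goj_ok (n : ℕ) :
    ∀ (h aa ab ba bb ca cb da db : ℕ) (k : ℕ → Bool), goj n h aa ab ba bb ca cb da db k = true →
      OJ aa ab ba bb ca cb da db ∧ ∃ h' : ℕ, k h' = true := by
  induction n with
  | zero =>
    intro h aa ab ba bb ca cb da db k hk
    exact absurd hk (by unfold goj; exact Bool.false_ne_true)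
  | succ n ih =>
    intro h aa ab ba bb ca cb da db k hk
    rw [goj_succ] at hk
    simp only [Num.fN_eq] at hk
    rcases sel_true_of hk with ⟨_, hk⟩ | ⟨_, hk⟩
    · rcases sel_true_of hk with ⟨_, hk⟩ | ⟨_, hk⟩
      · rcases sel_true_of hk with ⟨_, hk⟩ | ⟨_, hk⟩
        · obtain ⟨a, h1, hk⟩ := ih _ _ _ _ _ _ _ _ _ _ hk
          obtain ⟨b, c⟩ := ih _ _ _ _ _ _ _ _ _ _ hk
          exact ⟨a.cuta _ b, c⟩
        · obtain ⟨a, h1, hk⟩ := ih _ _ _ _ _ _ _ _ _ _ hk
          obtain ⟨b, c⟩ := ih _ _ _ _ _ _ _ _ _ _ hk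
          exact ⟨a.cutb _ b, c⟩
      · rcases sel_true_of hk with ⟨_, hk⟩ | ⟨_, hk⟩
        · obtain ⟨a, h1, hk⟩ := ih _ _ _ _ _ _ _ _ _ _ hk
          obtain ⟨b, c⟩ := ih _ _ _ _ _ _ _ _ _ _ hk
          exact ⟨a.cutc _ b, c⟩
        · obtain ⟨a, h1, hk⟩ := ih _ _ _ _ _ _ _ _ _ _ hk
          obtain ⟨b, c⟩ := ih _ _ _ _ _ _ _ _ _ _ hk
          exact ⟨a.cutd _ b, c⟩
    · rcases sel_true_of hk with ⟨_, hk⟩ | ⟨_, hk⟩
      · obtain ⟨h1, h2⟩ := sel_false.1 hk
        exact ⟨skj_ok h1, _, h2⟩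
      · obtain ⟨h1, h2⟩ := sel_false.1 hk
        exact ⟨kap0_ok h1, _, h2⟩

/-- **The slope in the height of the node.** -/
theorem kap_le {ys vs : ℂ} (h : VU ys vs) : -(lv ys vs).im ≤ 9 / 8 := by
  obtain ⟨x0, x1, n0, n1, g, t0, t1, p, e0, e1, d, _, _, _, _⟩ := h
  have e : -(lv ys vs).im = (hh (ys + vs)).im - (hh (ys - vs)).im := by
    unfold lv
    rw [sub_im]
    ring
  rw [e]
  have r1 : (ys - vs).re = ys.re - vs.re := sub_re _ _
  have r2 : (ys - vs).im = ys.im - vs.im := sub_im _ _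
  have r3 : (ys + vs).re = ys.re + vs.re := add_re _ _
  have r4 : (ys + vs).im = ys.im + vs.im := add_im _ _
  refine (goj_ok _ _ _ _ _ _ _ _ _ _ _ kap_go).1 (ys - vs) (ys + vs) ?_ ?_
  · constructor <;> linarith
  · constructor <;> push_cast <;> linarith

end Pool.Agent.S5.Pa
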