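import Pool.Agent.S5.I.NDefs

/-!
# The table of the potentials

The pieces of the contours of the edge variables, the potentials of the edges on the pieces, and the form
of the statements for the nodes. All functions are seen from a node `n`; `x` is the node at the other end
of the edge, `S = true` for edges between half twists of the same sign.
-/

set_option autoImplicit false

namespace Pool.Agent.S5

open Pool.Agent.H63.VC3 Pool.Agent.S3 Complex Set

/-- An edge is forced to be real by the node, by the other node, by both. -/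
inductive Fc where
  | own | far | both
  deriving DecidableEq

/-- The pieces of an edge variable: flats `F`, `H`, `G`, legs `L`, `R`; the rectangle: `T`, `U` top and
bottom, `P` left and `Q` right side, on the side of the flat (capitals) and on the other side of the real
line (small letters); `lo` small indices; `re`, `rz` real (forced by a small index, by the variable of
a node). -/
inductive Pc where
  | F | H | G | L | R | T | t | U | u | P | p | Q | q | lo | re (f : Fc) | rz (f : Fc)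
  deriving DecidableEq

/-- The piece contains `y`; `η` is the height of the flat, `w` the weight. -/
def Pc.In : Pc → ℝ → ℝ → ℂ → ℝ → Prop
  | .F, _, η, y, w => w = 0 ∧ y.im = η ∧ 3 / 20 ≤ y.re ∧ y.re ≤ 1 / 2
  | .H, _, η, y, w => w = 0 ∧ y.im = η ∧ 0 ≤ y.re ∧ y.re ≤ 3 / 20
  | .G, _, η, y, w => w = 0 ∧ y.im = η ∧ -(1 / 4) ≤ y.re ∧ y.re ≤ 0
  | .L, _, η, y, w => w = 0 ∧ y.re = -(1 / 4) ∧ y.im ∈ uIcc 0 η
  | .R, _, η, y, w => w = 0 ∧ y.re = 1 / 2 ∧ y.im ∈ uIcc 0 η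
  | .T, d, η, y, w => w = 2 * Real.pi * d ∧ |y.im| = d ∧ 0 ≤ y.im * η ∧ 0 ≤ y.re ∧ y.re ≤ 1 / 2
  | .t, d, η, y, w => w = 2 * Real.pi * d ∧ |y.im| = d ∧ y.im * η ≤ 0 ∧ 0 ≤ y.re ∧ y.re ≤ 1 / 2
  | .U, d, η, y, w => w = 2 * Real.pi * d ∧ |y.im| = d ∧ 0 ≤ y.im * η ∧ -(1 / 4) ≤ y.re ∧ y.re ≤ 0
  | .u, d, η, y, w => w = 2 * Real.pi * d ∧ |y.im| = d ∧ y.im * η ≤ 0 ∧ -(1 / 4) ≤ y.re ∧ y.re ≤ 0
  | .P, d, η, y, w => w = 2 * Real.pi * |y.im| ∧ y.re = -(1 / 4) ∧ |y.im| ≤ d ∧ 0 ≤ y.im * η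
  | .p, d, η, y, w => w = 2 * Real.pi * |y.im| ∧ y.re = -(1 / 4) ∧ |y.im| ≤ d ∧ y.im * η ≤ 0
  | .Q, d, η, y, w => w = 2 * Real.pi * |y.im| ∧ y.re = 1 / 2 ∧ |y.im| ≤ d ∧ 0 ≤ y.im * η
  | .q, d, η, y, w => w = 2 * Real.pi * |y.im| ∧ y.re = 1 / 2 ∧ |y.im| ≤ d ∧ y.im * η ≤ 0
  | .lo, _, _, y, w => w = 0 ∧ y.im = 0 ∧ -(1 / 2) ≤ y.re ∧ y.re ≤ -(1 / 4)
  | .re _, _, _, y, w => w = 0 ∧ y.im = 0 ∧ 1 / 4 ≤ y.re ∧ y.re ≤ 1 / 2
  | .rz _, _, _, y, w => w = 0 ∧ y.im = 0 ∧ 7 / 20 ≤ y.re ∧ y.re ≤ 1 / 2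

/-- The standard pieces. -/
def Pc.std : Pc → Prop
  | .lo => False
  | .re _ => False
  | .rz _ => False
  | _ => True

/-- The pieces of the rectangle. -/
def Pc.box : Pc → Bool
  | .T => true
  | .t => true
  | .U => true
  | .u => true
  | .P => true
  | .p => true
  | .Q => true
  | .q => true
  | _ => false

theorem LimY_In {d η : ℝ} {y : ℂ} {w : ℝ} (h : LimY (-(1 / 4)) d η y w) :
    ∃ pc : Pc, pc.std ∧ pc.In d η y w := by
  rcases h with ⟨h1, h2, h3, h4⟩ | ⟨h1, h2, h3⟩ | ⟨h1, h2, h3⟩ | ⟨h1, h2, h3, h4⟩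
  · rcases le_total y.re 0 with h5 | h5
    · exact ⟨.G, trivial, h1, h2, h3, h5⟩
    · rcases le_total y.re (3 / 20) with h6 | h6
      · exact ⟨.H, trivial, h1, h2, h5, h6⟩
      · exact ⟨.F, trivial, h1, h2, h6, h4⟩
  · rcases h2 with h2 | h2
    · exact ⟨.L, trivial, h1, h2, h3⟩
    · exact ⟨.R, trivial, h1, h2, h3⟩
  · rcases h2 with h2 | h2 <;> rcases le_total 0 (y.im * η) with h4 | h4
    · exact ⟨.P, trivial, h1, h2, h3, h4⟩
    · exact ⟨.p, trivial, h1, h2, h3, h4⟩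
    · exact ⟨.Q, trivial, h1, h2, h3, h4⟩
    · exact ⟨.q, trivial, h1, h2, h3, h4⟩
  · rcases le_total 0 (y.im * η) with h5 | h5 <;> rcases le_total y.re 0 with h6 | h6
    · exact ⟨.U, trivial, h1, h2, h5, h3, h6⟩
    · exact ⟨.T, trivial, h1, h2, h5, h6, h4⟩
    · exact ⟨.u, trivial, h1, h2, h5, h3, h6⟩
    · exact ⟨.t, trivial, h1, h2, h5, h6, h4⟩

/-- The point where the tangent plane is evaluated: frozen at the real line on the rectangle, and at
`3 / 10` for small indices. -/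
noncomputable def Pc.eff (pc : Pc) (y : ℂ) : ℂ :=
  if pc.box then (y.re : ℂ) else if pc = .lo then 3 / 10 else y

/-- The same piece seen from the other node. -/
def Fc.mir : Fc → Fc
  | .own => .far
  | .far => .own
  | .both => .both

/-- The same piece seen from the other node. -/
def Pc.mir : Pc → Pc
  | .re f => .re f.mir
  | .rz f => .rz f.mir
  | c => c

theorem Pc.mir_mir (pc : Pc) : pc.mir.mir = pc := by
  cases pc <;> first | rfl | (rename_i f; cases f <;> rfl)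

/-- The type of a node: the number `a` of half twists (`6` if there are more), `e` for the ends. -/
structure Nt where
  a : ℕ
  e : Bool
  deriving DecidableEq

/-- What the node `n` receives on the piece, in hundredths. -/
def r0 (S : Bool) (n x : Nt) : Pc → ℤ
  | .p => if n = ⟨2, true⟩ then (if x = ⟨3, false⟩ then 13 else if x = ⟨3, true⟩ then 6 else if x.a = 2 then 16 else 24)
      else if n = ⟨3, true⟩ then (if S ∧ x = ⟨2, false⟩ then 9 else if S ∧ x = ⟨3, false⟩ then -2 else if 5 ≤ x.a then 5 else 0)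
      else if n = ⟨4, true⟩ then (if S ∧ x = ⟨2, false⟩ then 20 else if S ∧ x = ⟨3, false⟩ then 5 else if 6 ≤ x.a then 15 else 0)
      else if n = ⟨3, false⟩ ∧ 6 ≤ x.a then 3 else 0
  | .u => if n = ⟨2, true⟩ then (if x = ⟨3, false⟩ then 13 else if x = ⟨3, true⟩ then 6 else if x.a = 2 then 16 else 24)
      else if n = ⟨3, true⟩ then (if S ∧ x = ⟨2, false⟩ then 9 else if 5 ≤ x.a then 5 else 0)
      else if n = ⟨4, true⟩ then (if S ∧ x = ⟨2, false⟩ then 14 else if S ∧ x = ⟨3, false⟩ then 3 else if 6 ≤ x.a then 15 else 0)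
      else if n = ⟨3, false⟩ ∧ 6 ≤ x.a then 3 else 0
  | .L => if n = ⟨2, true⟩ then (if x = ⟨3, false⟩ then 13 else if x = ⟨3, true⟩ then 6 else if x.a = 2 then 8 else 24)
      else if n = ⟨3, true⟩ then (if S ∧ x = ⟨2, false⟩ then 5 else if S ∧ x = ⟨3, false⟩ then -6 else if 5 ≤ x.a then 5 else 0)
      else if n = ⟨4, true⟩ then (if S ∧ x = ⟨2, false⟩ then 20 else if S ∧ x = ⟨3, false⟩ then 5 else if 6 ≤ x.a then 15 else 0)
      else if n = ⟨3, false⟩ ∧ 6 ≤ x.a then 3 else 0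
  | .P => if n = ⟨2, true⟩ then (if x = ⟨3, false⟩ then 13 else if x = ⟨3, true⟩ then 6 else if x.a = 2 then 8 else 24)
      else if n = ⟨3, true⟩ then (if S ∧ x = ⟨2, false⟩ then 5 else if S ∧ x = ⟨3, false⟩ then -2 else if 5 ≤ x.a then 5 else 0)
      else if n = ⟨4, true⟩ then (if S ∧ x = ⟨2, false⟩ then 20 else if S ∧ x = ⟨3, false⟩ then 5 else if 6 ≤ x.a then 15 else 0)
      else if n = ⟨3, false⟩ ∧ 6 ≤ x.a then 3 else 0
  | .G => if n = ⟨3, true⟩ then (if S ∧ x = ⟨2, false⟩ then 5 else if S ∧ x = ⟨3, false⟩ then -6 else if 5 ≤ x.a then 5 else 0)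
      else if n = ⟨4, true⟩ then (if S ∧ x = ⟨2, false⟩ then 16 else if S ∧ x = ⟨3, false⟩ then 5 else if 6 ≤ x.a then 8 else 0) else 0
  | .t => if n = ⟨2, true⟩ then (if x = ⟨4, false⟩ then 12 else if x.a = 2 then 5 else 13)
      else if n = ⟨3, true⟩ then (if x = ⟨2, false⟩ then (if S then 13 else -6) else if S ∧ x = ⟨3, false⟩ then 3 else if 5 ≤ x.a then 5 else 0)
      else if n = ⟨4, true⟩ then (if S ∧ x = ⟨2, false⟩ then 10 else if S ∧ x = ⟨3, false⟩ then 3 else if 6 ≤ x.a then 4 else 0)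
      else if n = ⟨3, false⟩ then (if 6 ≤ x.a then 3 else if !S ∧ x = ⟨2, false⟩ then -6 else 0) else 0
  | .q => if n = ⟨2, true⟩ then (if x = ⟨4, false⟩ then -5 else 0)
      else if (n = ⟨3, true⟩ ∨ n = ⟨3, false⟩) ∧ !S ∧ x = ⟨2, false⟩ then -6 else 0
  | .Q => if n = ⟨2, true⟩ ∧ x.a = 2 then -10 else 0
  | .T => if n = ⟨2, true⟩ ∧ x.a = 2 then -11 else 0
  | .re .own => if S then -20 else -15
  | .rz .own => if S then (if n = ⟨3, true⟩ ∧ x = ⟨3, true⟩ then -5 else -8)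
      else (if x = ⟨2, true⟩ then -2 else -3)
  | _ => 0

/-- The additional share of the node `n` (`0` or `1`). -/
def d0 (S : Bool) (n x : Nt) : Pc → ℤ
  | .F => if n = ⟨3, true⟩ ∧ S ∧ (x = ⟨2, false⟩ ∨ x = ⟨3, false⟩) then 1 else 0
  | .t => if n = ⟨2, true⟩ ∧ x = ⟨4, false⟩ then 1 else if (n = ⟨3, true⟩ ∨ n = ⟨4, true⟩) ∧ S ∧ x = ⟨2, false⟩ then 1 else 0
  | .H => if n = ⟨3, true⟩ ∧ x ≠ ⟨2, true⟩ then 1 else 0
  | .G => if n = ⟨3, true⟩ ∧ x ≠ ⟨2, true⟩ then 1 else 0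
  | .L => if n = ⟨3, true⟩ ∧ x ≠ ⟨2, true⟩ then 1 else 0
  | .U => if n = ⟨3, true⟩ ∧ x ≠ ⟨2, true⟩ then 1 else 0
  | .u => if n = ⟨3, true⟩ ∧ x ≠ ⟨2, true⟩ then 1 else 0
  | .P => if n = ⟨3, true⟩ ∧ x ≠ ⟨2, true⟩ then 1 else 0
  | .p => if n = ⟨3, true⟩ ∧ x ≠ ⟨2, true⟩ then 1 else 0
  | _ => 0

/-- The constant of the potential, as received by the node `n`. -/
noncomputable def hT (S : Bool) (n x : Nt) (pc : Pc) : ℝ :=
  ((r0 S n x pc - r0 S x n pc.mir : ℤ) : ℝ) / 100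

/-- The change of the share of the node `n` (`0`, `1` or `-1`). -/
noncomputable def dT (S : Bool) (n x : Nt) (pc : Pc) : ℝ :=
  ((d0 S n x pc - d0 S x n pc.mir : ℤ) : ℝ)

theorem hT_mir (S : Bool) (n x : Nt) (pc : Pc) : hT S x n pc.mir = -hT S n x pc := by
  unfold hT
  rw [Pc.mir_mir]
  push_cast
  ring

theorem dT_mir (S : Bool) (n x : Nt) (pc : Pc) : dT S x n pc.mir = -dT S n x pc := by
  unfold dT
  rw [Pc.mir_mir]
  push_cast
  ring

/-- The contribution of a slot to the statement of a node: `lam` is the complex slope of the node in the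
slot (with share `2`), `ys` the critical point, `w` the weight of the edge variable. -/
noncomputable def slE (S : Bool) (n x : Nt) (pc : Pc) (lam ys y : ℂ) (w : ℝ) : ℝ :=
  (lam * (y - pc.eff y)).re + dT S n x pc * Td (1 / 2 - ys) (1 / 2 - y) - hT S n x pc - w / 2

/-- Both ends of an edge together. -/
theorem slE_add (S : Bool) (n x : Nt) (pc : Pc) (lam ys y : ℂ) (w : ℝ) :
    slE S n x pc lam ys y w + slE S x n pc.mir (-lam) ys y w = -w := by
  have e : pc.mir.eff y = pc.eff y := by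
    unfold Pc.eff
    cases pc <;> simp [Pc.mir, Pc.box]
  unfold slE
  rw [hT_mir, dT_mir, e, neg_mul, neg_re]
  ring

end Pool.Agent.S5
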