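import Pool.Agent.S5.I.LowA
import Pool.Agent.S5.I.VDefs
import Pool.Agent.S5.I.Tab

/-!
# The slots of the open nodes: separation of the parameters

`SS` is the function of a slot with weight two, `b1v` collects the critical point. On the rectangle of the
edge variable the tangent plane is frozen at the real line.
-/

set_option autoImplicit false

namespace Pool.Agent.S5

open Pool.Agent.H63.VC3 Pool.Agent.S3 Complex MeasureTheory Filter Topology Set
open scoped ComplexConjugate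

/-- The function of a slot. -/
noncomputable def SS (y v : ℂ) : ℝ := -2 * Rf (1 / 2 - y) - Rf (y - v) - Rf (y + v)

/-- The constant of the separated bound, an affine function of `X`. -/
noncomputable def b1v (ys vs : ℂ) (X : ℝ) : ℝ :=
  -SS ys vs - lamv ys vs * (X - ys.re) - (ly 2 ys vs).im * ys.im + Lamv ys vs * (7 / 25 - vs.re)

/-- The bounds of the constant at the nodes `-1/4`, `1/10`, `3/10`, `1/2`. -/
structure B1N (ys vs : ℂ) : Prop where
  n0 : vs.im ≤ 1 / 25 → b1v ys vs (-(1 / 4)) ≤ -(108 / 1000) - 6 / 10 * vs.im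
  n0' : 1 / 25 ≤ vs.im → b1v ys vs (-(1 / 4)) ≤ -(95 / 1000) - 98 / 100 * vs.im
  n1 : vs.im ≤ 1 / 25 → b1v ys vs (1 / 10) ≤ -(231 / 1000)
  n1' : 1 / 25 ≤ vs.im → b1v ys vs (1 / 10) ≤ -(210 / 1000) - 1 / 2 * vs.im
  n2 : vs.im ≤ 1 / 25 → b1v ys vs (3 / 10) ≤ -(276 / 1000) - 2 / 10 * vs.im
  n2' : 1 / 25 ≤ vs.im → b1v ys vs (3 / 10) ≤ -(266 / 1000) - 35 / 100 * vs.im
  n3 : b1v ys vs (1 / 2) ≤ -(21 / 100)
  kap : -(lv ys vs).im ≤ 9 / 8

theorem ly_re (ys vs : ℂ) : (ly 2 ys vs).re = lamv ys vs := by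
  unfold ly lamv
  rw [sub_re, sub_re, hh_re, hh_re, mul_re, hh_re]
  have a1 : (1 / 2 - ys : ℂ).im = -ys.im := by
    simp
  have a2 : (1 / 2 - ys : ℂ).re = 1 / 2 - ys.re := by
    simp
  rw [a1, a2, Lg_neg_im]
  simp only [ofReal_re, ofReal_im, zero_mul, sub_zero, sub_im, sub_re, add_im, add_re]

theorem lv_re (ys vs : ℂ) : (lv ys vs).re = -Lamv ys vs := by
  unfold lv Lamv
  rw [sub_re, hh_re, hh_re]
  simp only [sub_im, sub_re, add_im, add_re]
  ring

theorem sl_two (y v : ℂ) : sl 2 y v = SS y v := by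
  unfold sl SS
  rw [Rf_half_add]
  ring

/-- **The slot function without its tangent plane.** -/
theorem Es_eq_SS {ys vs y v : ℂ} (hn : vs.im ≠ 0) : Es ys vs y v = SS y v - SS ys vs -
    lamv ys vs * (y.re - ys.re) + (ly 2 ys vs).im * (y.im - ys.im) +
      (lv ys vs).im * (v.im - vs.im) + Lamv ys vs * (v.re - vs.re) * v.im / vs.im := by
  have hpi := Real.pi_ne_zero
  have h := sl_eq 2 ys vs y v
  rw [sl_two, sl_two] at h
  have d1 : (ly 2 ys vs * (y - ys)).re =
      lamv ys vs * (y.re - ys.re) - (ly 2 ys vs).im * (y.im - ys.im) := by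
    rw [mul_re, ly_re, sub_re, sub_im]
  have d2 : (lv ys vs * (v - vs)).re =
      -Lamv ys vs * (v.re - vs.re) - (lv ys vs).im * (v.im - vs.im) := by
    rw [mul_re, lv_re, sub_re, sub_im]
  have b1 : 2 * Real.pi * bn ys vs * ((v.re - vs.re) * (v.im - vs.im)) =
      Lamv ys vs * (v.re - vs.re) * v.im / vs.im - Lamv ys vs * (v.re - vs.re) := by
    unfold bn Lamv
    simp only [add_im, add_re, sub_im, sub_re]
    field_simp
  unfold Es Ev
  rw [b1]
  rw [d1, d2] at h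
  linarith

/-- The slope on the frozen plane. -/
theorem ly_frozen (ys vs y : ℂ) : (ly 2 ys vs * (y - (y.re : ℂ))).re = -(ly 2 ys vs).im * y.im := by
  rw [mul_re, sub_re, sub_im, ofReal_re, ofReal_im]
  ring

/-- The slot function with the frozen plane. -/
theorem Es_frozen {ys vs y v : ℂ} (hn : vs.im ≠ 0) :
    Es ys vs y v + (ly 2 ys vs * (y - (y.re : ℂ))).re = SS y v + b1v ys vs y.re +
      (lv ys vs).im * (v.im - vs.im) + Lamv ys vs * (v.re - vs.re) * v.im / vs.im -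
        Lamv ys vs * (7 / 25 - vs.re) := by
  rw [Es_eq_SS hn, ly_frozen]
  unfold b1v
  ring

theorem VU.Lam0 {ys vs : ℂ} (h : VU ys vs) : 0 ≤ Lamv ys vs := by
  linarith [h.b, h.n0]

/-- `v` on its flat piece. -/
theorem frozen_flat {ys vs y v : ℂ} (h : VU ys vs) (hv : v.im = vs.im) (hu : v.re ≤ 7 / 25) :
    Es ys vs y v + (ly 2 ys vs * (y - (y.re : ℂ))).re ≤
      SS y v + b1v ys vs y.re - 8 * v.im * (7 / 25 - v.re) := by
  have hn := h.n0.ne'
  rw [Es_frozen hn, hv, mul_div_cancel_right₀ _ hn]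
  have h1 := mul_le_mul_of_nonneg_right h.b (show 0 ≤ 7 / 25 - v.re by linarith)
  nlinarith [h1]

/-- `v` on a vertical piece. -/
theorem frozen_vert {ys vs y v : ℂ} (h : VU ys vs) (hk : -(lv ys vs).im ≤ 9 / 8)
    (h0 : 0 ≤ v.im) (h1 : v.im ≤ vs.im) (hu : v.re ≤ 7 / 25) :
    Es ys vs y v + (ly 2 ys vs * (y - (y.re : ℂ))).re ≤
      SS y v + b1v ys vs y.re + 3 / 8 * (vs.im - v.im) := by
  have hn := h.n0
  rw [Es_frozen hn.ne']
  have hL := h.Lam0
  obtain ⟨r, hr⟩ : ∃ r, r = v.im / vs.im := ⟨_, rfl⟩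
  have hr0 : 0 ≤ r := by
    rw [hr]
    positivity
  have hr1 : r ≤ 1 := by
    rw [hr, div_le_one hn]
    exact h1
  have hrv : v.im = r * vs.im := by
    rw [hr, div_mul_cancel₀ _ hn.ne']
  have e1 : Lamv ys vs * (v.re - vs.re) * v.im / vs.im = Lamv ys vs * (v.re - vs.re) * r := by
    rw [hr]
    ring
  have a1 : Lamv ys vs * (v.re - vs.re) * r ≤ Lamv ys vs * (7 / 25 - vs.re) * r := by
    apply mul_le_mul_of_nonneg_right _ hr0
    exact mul_le_mul_of_nonneg_left (by linarith) hL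
  have a2 : (1 - r) * (3 / 4 * vs.im) ≤ (1 - r) * (Lamv ys vs * (7 / 25 - vs.re)) :=
    mul_le_mul_of_nonneg_left h.b2 (by linarith)
  have a3 : -(lv ys vs).im * (vs.im - v.im) ≤ 9 / 8 * (vs.im - v.im) :=
    mul_le_mul_of_nonneg_right hk (by linarith)
  rw [e1]
  rw [hrv] at a3 ⊢
  nlinarith [a1, a2, a3]

/-- `v` on a real piece. -/
theorem frozen_real {ys vs y v : ℂ} (h : VU ys vs) (hk : -(lv ys vs).im ≤ 9 / 8)
    (h0 : v.im = 0) :
    Es ys vs y v + (ly 2 ys vs * (y - (y.re : ℂ))).re ≤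
      SS y v + b1v ys vs y.re + 3 / 8 * vs.im := by
  have hn := h.n0
  rw [Es_frozen hn.ne', h0]
  have a2 := h.b2
  have a3 : -(lv ys vs).im * vs.im ≤ 9 / 8 * vs.im :=
    mul_le_mul_of_nonneg_right hk hn.le
  have e1 : Lamv ys vs * (v.re - vs.re) * 0 / vs.im = 0 := by
    rw [mul_zero, zero_div]
  rw [e1]
  linarith

/-- The symmetry of the function. -/
theorem SS_conj (y v : ℂ) : SS (conj y) (-conj v) = SS y v := by
  unfold SS
  have e1 : (1 : ℂ) / 2 - conj y = conj (1 / 2 - y) := by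
    rw [map_sub, map_div₀, map_one, map_ofNat]
  have e2 : conj y - -conj v = conj (y + v) := by
    simp
  have e3 : conj y + -conj v = conj (y - v) := by
    simp [sub_eq_add_neg]
  rw [e1, e2, e3, Rf_conj, Rf_conj, Rf_conj]
  ring

theorem b1v_affine (ys vs : ℂ) (X : ℝ) :
    b1v ys vs X = b1v ys vs (3 / 10) - lamv ys vs * (X - 3 / 10) := by
  unfold b1v
  ring

/-- Interpolation of the constant. -/
theorem b1v_le {ys vs : ℂ} {X0 X1 M0 M1 X : ℝ} (h0 : b1v ys vs X0 ≤ M0) (h1 : b1v ys vs X1 ≤ M1)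
    (hX0 : X0 ≤ X) (hX1 : X ≤ X1) :
    b1v ys vs X * (X1 - X0) ≤ M0 * (X1 - X) + M1 * (X - X0) := by
  have e : b1v ys vs X * (X1 - X0) = b1v ys vs X0 * (X1 - X) + b1v ys vs X1 * (X - X0) := by
    unfold b1v
    ring
  rw [e]
  exact add_le_add (mul_le_mul_of_nonneg_right h0 (by linarith))
    (mul_le_mul_of_nonneg_right h1 (by linarith))

end Pool.Agent.S5
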