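import Pool.Agent.S5.I.PaE
import Pool.Agent.S5.I.PaK1
import Pool.Agent.S5.I.PaK2
import Pool.Agent.S5.I.PaK3
import Pool.Agent.S5.I.VPa
import Pool.Agent.S5.I.PaJb

/-!
# The constant of the separated bound
-/

set_option autoImplicit false

namespace Pool.Agent.S5.Pa

open Pool.Agent.H63.VC3 Pool.Agent.S3 Complex Set Pool.Agent.S5

theorem b1v_FF (ys vs : ℂ) (X : ℝ) : b1v ys vs X = FF 2 1 1 0 X 0 (7 / 25) ys vs := by
  have h := ly_re ys vs
  unfold b1v FF SS
  rw [show ly ((2 : ℝ)) ys vs = ly 2 ys vs from rfl, h]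
  ring

/-- One bound of the constant from the program. -/
theorem b1v_run {X Ap An Bp Bn n h n0 n1 : ℕ} {ys vs : ℂ}
    (hr : go (leaf 2 1 1 0 X 40 156 Ap An Bp Bn 0 0 398459 0) n h 0 430 n0 n1 490 684 130 600
      (fun _ => true) = true) (hV : VU ys vs)
    (hn : (n0 : ℝ) ≤ 2000 * vs.im ∧ 2000 * vs.im ≤ n1) {Y : ℝ} (hX : Y = ((X : ℝ) - 100) / 200) :
    b1v ys vs Y ≤ ((Ap : ℝ) - An) / 1048576 - ((Bp : ℝ) - Bn) / 1048576 * vs.im := by
  have u0 := hV.x0
  have u1 := hV.x1
  have u2 := hV.t0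
  have u3 := hV.t1
  have u4 := hV.e0
  have u5 := hV.e1
  have u6 := hV.l
  have h := run_ok (Or.inr rfl) le_rfl le_rfl (by norm_num) hr hV
    ⟨by push_cast; linarith, by push_cast; linarith⟩ hn
    ⟨by push_cast; linarith, by push_cast; linarith⟩
    ⟨by push_cast; linarith, by push_cast; linarith⟩
    (by push_cast; linarith)
  rw [b1v_FF, hX]
  push_cast at h
  norm_num at h
  norm_num
  linarith

end Pool.Agent.S5.Pa

namespace Pool.Agent.S5

open Pool.Agent.H63.VC3 Pool.Agent.S3 Complex Pool.Agent.S5.Pa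

/-- **The bounds of the constant of the separated bound.** -/
theorem b1n_of_VU {ys vs : ℂ} (h : VU ys vs) : B1N ys vs := by
  have n0 := h.n0
  have n1 := h.n1
  have l0 : vs.im ≤ 1 / 25 → ((0 : ℕ) : ℝ) ≤ 2000 * vs.im ∧ 2000 * vs.im ≤ ((80 : ℕ) : ℝ) := by
    intro hn
    constructor
    · rw [Nat.cast_zero]
      linarith
    · push_cast
      linarith
  have l1 : 1 / 25 ≤ vs.im → ((80 : ℕ) : ℝ) ≤ 2000 * vs.im ∧ 2000 * vs.im ≤ ((176 : ℕ) : ℝ) := by
    intro hn
    constructor
    · push_cast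
      linarith
    · push_cast
      linarith
  refine ⟨?_, ?_, ?_, ?_, ?_, ?_, ?_, kap_le h⟩
  · intro hn
    have := b1v_run b00 h (l0 hn) (Y := -(1 / 4)) (by norm_num)
    norm_num at this ⊢
    linarith
  · intro hn
    have := b1v_run b10 h (l1 hn) (Y := -(1 / 4)) (by norm_num)
    norm_num at this ⊢
    linarith
  · intro hn
    have := b1v_run b01 h (l0 hn) (Y := 1 / 10) (by norm_num)
    norm_num at this ⊢
    linarith
  · intro hn
    have := b1v_run b11 h (l1 hn) (Y := 1 / 10) (by norm_num)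
    norm_num at this ⊢
    linarith
  · intro hn
    have := b1v_run b02 h (l0 hn) (Y := 3 / 10) (by norm_num)
    norm_num at this ⊢
    linarith
  · intro hn
    have := b1v_run b12 h (l1 hn) (Y := 3 / 10) (by norm_num)
    norm_num at this ⊢
    linarith
  · rcases le_total vs.im (1 / 25) with hn | hn
    · have := b1v_run b03 h (l0 hn) (Y := 1 / 2) (by norm_num)
      norm_num at this ⊢
      linarith
    · have := b1v_run b13 h (l1 hn) (Y := 1 / 2) (by norm_num)
      norm_num at this ⊢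
      linarith

end Pool.Agent.S5
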