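import Pool.Agent.S5.I.PaD

/-!
# The slope in the height of the node: the program

The imaginary part of `hh (ys + vs) - hh (ys - vs)` is a difference of two functions of one complex
variable. The four coordinates are natural numbers in units of `1 / 2000`: the real part of
`ys - vs`, minus its imaginary part (origin `400`), the real part of `ys + vs`, its imaginary part
(origin `400`). The common unit of the values is `2 ^ (-20) / 4000`.
-/

set_option autoImplicit false

noncomputable section

namespace Pool.Agent.S5.Pa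

open Pool.Agent.S5.Tb (tE kE)
open Pool.Agent.S5.Cx (aE bE)
open Pool.Agent.S5.Num (fN ds')

/-- The error term of an expansion of first order. -/
def erj (kk am bm : Nat) : Nat :=
  Nat.add (Nat.div (Nat.mul (Nat.mul 2048 (Nat.sub (Nat.mul kk kk) 2526))
    (Nat.add (Nat.mul am am) (Nat.mul bm bm))) 1000)
    (Nat.add 16001 (Nat.mul 512 (Nat.add am bm)))

/-- The signs of the data. -/
def rwf {α : Type} (lf up : Bool) (t a b E : Nat)
    (k : Nat → Nat → Nat → Nat → Nat → Nat → Nat → α) : α :=
  Bool.rec (motive := fun _ => _) (Bool.rec (motive := fun _ => _) (k t 0 0 a b 0 E)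
    (k 0 t 0 a 0 b E) up) (Bool.rec (motive := fun _ => _) (k 0 t a 0 b 0 E)
      (k t 0 a 0 0 b E) up) lf

/-- The entry of the table. -/
def rwT {α : Type} (lf : Bool) (s T E : Nat)
    (k : Nat → Nat → Nat → Nat → Nat → Nat → Nat → α) : α :=
  rwf lf (Nat.ble 40 s) (tE (Nat.mod T 1208925819614629174706176)) (aE (Nat.shiftRight T 80))
    (bE (Nat.shiftRight T 80)) E k

/-- The second part of `rwg`. -/
def rwh {α : Type} (b U i10 s10 i s u1 u2 s1 s2 : Nat)
    (k : Nat → Nat → Nat → Nat → Nat → Nat → Nat → α) (z : α) : α :=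
  Bool.rec (motive := fun _ => _) z (Bool.rec (motive := fun _ => _) z (Bool.rec (motive := fun _
    => _) z (Bool.rec (motive := fun _ => _) z (Bool.rec (motive := fun _ => _) (rwT false s (cT
      (Nat.sub 200 i) b)
        (erj (kE (Nat.mod (cT (Nat.div U 10) (Nat.div (Nat.add (Nat.sub (mn s1 s10) 400)
          (Nat.sub 400 (mx s2 s10))) 10)) 1208925819614629174706176))
        (mx (Nat.sub i10 u1) (Nat.sub u2 i10)) (mx (Nat.sub s10 s1) (Nat.sub s2 s10))) k)
          (rwT true s (cT i b)
        (erj (kE (Nat.mod (cT (Nat.div U 10) (Nat.div (Nat.add (Nat.sub (mn s1 s10) 400)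
          (Nat.sub 400 (mx s2 s10))) 10)) 1208925819614629174706176))
        (mx (Nat.sub i10 u1) (Nat.sub u2 i10)) (mx (Nat.sub s10 s1) (Nat.sub s2 s10))) k)
          (Nat.ble i 100)) (Nat.ble 10 U)) (Nat.ble i 187)) (Nat.ble 13 i))
            (Nat.ble b 38)

/-- The raw data of the point `(i, s)` of the table (origin `40` for `s`) with the error on the
rectangle of the cell. -/
def rwg {α : Type} (i s u1 u2 s1 s2 : Nat)
    (k : Nat → Nat → Nat → Nat → Nat → Nat → Nat → α) (z : α) : α :=
  rwh (ds' s 40) (mn (mn (Nat.mul 10 i) u1) (Nat.sub 2000 (mx (Nat.mul 10 i) u2)))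
    (Nat.mul 10 i) (Nat.mul 10 s) i s u1 u2 s1 s2 k z

/-- The test of a cell: last part. -/
def kap2 (aa ab ba bb ca cb da db Ga Gb Gc Gd t2p t2n a2p a2n b2p b2n E2
    t3p t3n a3p a3n b3p b3n E3 : Nat) : Bool :=
  acc (Nat.mul 256 b2n) (Nat.mul 256 b2p) aa ab Ga
    (Nat.add (Nat.mul 4000 (Nat.add t2n t3p)) (Nat.add E2 E3))
    (Nat.add (Nat.mul 4000 (Nat.add t2p t3n)) 4718592000)
    (fun P M => acc (Nat.mul 256 a2p) (Nat.mul 256 a2n) ba bb Gb P M
    (fun P M => acc (Nat.mul 256 b3p) (Nat.mul 256 b3n) ca cb Gc P M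
    (fun P M => acc (Nat.mul 256 a3p) (Nat.mul 256 a3n) da db Gd P M
    (fun P M => Nat.ble P M))))

/-- The test of a cell: first part. -/
def kap1 (aa ab ba bb ca cb da db Ga Gb Gc Gd : Nat) : Bool :=
  rwg Ga (Nat.sub 80 Gb) aa ab (Nat.sub 800 bb) (Nat.sub 800 ba)
    (fun t2p t2n a2p a2n b2p b2n E2 =>
  rwg Gc Gd ca cb da db (fun t3p t3n a3p a3n b3p b3n E3 =>
    kap2 aa ab ba bb ca cb da db Ga Gb Gc Gd t2p t2n a2p a2n b2p b2n E2
      t3p t3n a3p a3n b3p b3n E3) false) false

/-- The test of a cell. -/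
def kap0 (aa ab ba bb ca cb da db : Nat) : Bool :=
  kap1 aa ab ba bb ca cb da db (ctr' aa ab) (ctr' ba bb) (ctr' ca cb) (ctr' da db)

/-- The cell is outside the region. -/
def skj (aa ab ba bb ca cb da db : Nat) : Bool :=
  Bool.rec (motive := fun _ => _) true (Bool.rec (motive := fun _ => _) true
    (Bool.rec (motive := fun _ => _) true (Bool.rec (motive := fun _ => _) true
    (Bool.rec (motive := fun _ => _) true (Bool.rec (motive := fun _ => _) true
    (Bool.rec (motive := fun _ => _) true (Bool.rec (motive := fun _ => _) true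
      false (Nat.ble da (Nat.add bb 400))) (Nat.ble ba (Nat.add db 540)))
      (Nat.ble (Nat.add ba da) 1152)) (Nat.ble 800 (Nat.add bb db)))
      (Nat.ble (Nat.add ca aa) 1368)) (Nat.ble 980 (Nat.add cb ab)))
      (Nat.ble aa cb)) (Nat.ble ca (Nat.add ab 860))

/-- Branch and bound with the help of the code `h`. -/
def goj (n : Nat) :
    Nat → Nat → Nat → Nat → Nat → Nat → Nat → Nat → Nat → (Nat → Bool) → Bool :=
  Nat.rec (fun _ _ _ _ _ _ _ _ _ _ => false)
    (fun _ ih h aa ab ba bb ca cb da db k =>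
      (fun c => fN (fun h => Bool.rec (motive := fun _ => _) (Bool.rec (motive := fun _ => _)
        (Bool.rec (motive := fun _ => _) false (k h) (kap0 aa ab ba bb ca cb da db))
        (Bool.rec (motive := fun _ => _) false (k h) (skj aa ab ba bb ca cb da db)) (Nat.ble c 4))
        (Bool.rec (motive := fun _ => _) (Bool.rec (motive := fun _ => _)
          (fN (fun m => ih h aa ab ba bb ca cb da m (fun h => ih h aa ab ba bb ca cb m db k))
              (cut da db))
          (fN (fun m => ih h aa ab ba bb ca m da db (fun h => ih h aa ab ba bb m cb da db k))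
              (cut ca cb)) (Nat.ble c 2)) (Bool.rec (motive := fun _ => _)
          (fN (fun m => ih h aa ab ba m ca cb da db (fun h => ih h aa ab m bb ca cb da db k))
              (cut ba bb))
          (fN (fun m => ih h aa m ba bb ca cb da db (fun h => ih h m ab ba bb ca cb da db k))
              (cut aa ab)) (Nat.ble c 0)) (Nat.ble c 1)) (Nat.ble c 3))
        (Nat.shiftRight h 3)) (Nat.mod h 8)) n

end Pool.Agent.S5.Pa

end
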