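import Pool.Agent.S5.I.PaS

/-!
# Soundness of the test of a cell
-/

set_option autoImplicit false

namespace Pool.Agent.S5.Pa

open Pool.Agent.H63.VC3 Pool.Agent.S3 Complex Set Pool.Agent.S5.Tb Pool.Agent.S5.Cx Pool.Agent.S5

/-- The side conditions. -/
structure Sd (L : ℝ) (ys vs : ℂ) : Prop where
  x0 : 0 ≤ vs.re
  n0 : 0 ≤ vs.im
  g : 150 ≤ 2000 * (ys.re - vs.re)
  t : ys.re ≤ 1 / 2
  p : 2000 * (ys.re + vs.re) ≤ 1090
  e : 2000 * ys.im + 400 ≤ 800
  d : 2000 * (vs.im - ys.im) ≤ 330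
  b : 8 * vs.im ≤ Lamv ys vs
  l : lamv ys vs ≤ L
  l2 : lamv ys vs + 2 * ys.im + vs.im ≤ 1 / 2

/-- The point is in the cell. -/
structure Cl (xa xb na nb ta tb ea eb : ℕ) (ys vs : ℂ) : Prop where
  x1 : (xa : ℝ) ≤ 2000 * vs.re
  x2 : 2000 * vs.re ≤ (xb : ℝ)
  n1 : (na : ℝ) ≤ 2000 * vs.im
  n2 : 2000 * vs.im ≤ (nb : ℝ)
  t1 : (ta : ℝ) ≤ 2000 * ys.re
  t2 : 2000 * ys.re ≤ (tb : ℝ)
  e1 : (ea : ℝ) ≤ 2000 * ys.im + 400
  e2 : 2000 * ys.im + 400 ≤ (eb : ℝ)

theorem sub_le' {a b : ℕ} {c : ℝ} (h : (a : ℝ) - b ≤ c) (hc : 0 ≤ c) :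
    ((Nat.sub a b : ℕ) : ℝ) ≤ c := by
  show ((a - b : ℕ) : ℝ) ≤ c
  rcases le_total b a with h1 | h1
  · rw [Nat.cast_sub h1]
    exact h
  · rw [Nat.sub_eq_zero_of_le h1, Nat.cast_zero]
    exact hc

theorem le_sub' {a b : ℕ} {c : ℝ} (h : c ≤ (a : ℝ) - b) : c ≤ ((Nat.sub a b : ℕ) : ℝ) := by
  show c ≤ ((a - b : ℕ) : ℝ)
  have : (a : ℝ) ≤ ((a - b + b : ℕ) : ℝ) := by
    have : a ≤ a - b + b := le_tsub_add
    exact_mod_cast this
  push_cast at this
  linarith only [this, h]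

/-- The distance from the point of the table. -/
theorem dist_mx {a b G : ℕ} {d : ℝ} (h1 : (a : ℝ) ≤ 10 * G + d) (h2 : 10 * G + d ≤ (b : ℝ)) :
    |d| ≤ ((mx (Nat.sub (Nat.mul 10 G) a) (Nat.sub b (Nat.mul 10 G)) : ℕ) : ℝ) := by
  rw [mx_eq, Nat.cast_max]
  have a1 : -d ≤ ((Nat.sub (Nat.mul 10 G) a : ℕ) : ℝ) := by
    apply le_sub'
    rw [Num.mul_eq']
    push_cast
    linarith only [h1]
  have a2 : d ≤ ((Nat.sub b (Nat.mul 10 G) : ℕ) : ℝ) := by
    apply le_sub'
    rw [Num.mul_eq']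
    push_cast
    linarith only [h2]
  rw [abs_le]
  constructor
  · have := a1.trans (le_max_left _ ((Nat.sub b (Nat.mul 10 G) : ℕ) : ℝ))
    linarith only [this]
  · exact a2.trans (le_max_right _ _)

theorem sq_add_le {a b : ℕ} {x y : ℝ} (hx : |x| ≤ a) (hy : |y| ≤ b) :
    x ^ 2 + y ^ 2 ≤ ((Nat.add (mx a b) (Nat.div (Nat.succ (mn a b)) 2) : ℕ) : ℝ) ^ 2 := by
  have h1 : ((mn a b : ℕ) : ℝ) / 2 ≤ ((Nat.div (Nat.succ (mn a b)) 2 : ℕ) : ℝ) := by
    have : mn a b ≤ 2 * (Nat.div (Nat.succ (mn a b)) 2) := by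
      show mn a b ≤ 2 * ((mn a b + 1) / 2)
      omega
    have h2 : ((mn a b : ℕ) : ℝ) ≤ 2 * ((Nat.div (Nat.succ (mn a b)) 2 : ℕ) : ℝ) := by
      exact_mod_cast this
    linarith only [h2]
  have h3 : max (a : ℝ) b + min (a : ℝ) b / 2 ≤
      ((Nat.add (mx a b) (Nat.div (Nat.succ (mn a b)) 2) : ℕ) : ℝ) := by
    rw [Num.add_eq', Nat.cast_add]
    rw [mn_eq, Nat.cast_min] at h1
    rw [mn_eq, mx_eq, Nat.cast_max]
    linarith only [h1]
  have h4 := norm_le_mx (z := (x : ℂ) + (y : ℂ) * I) (A := a) (B := b) (by rw [line_re]; exact hx)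
    (by rw [line_im]; exact hy)
  have h5 : ‖(x : ℂ) + (y : ℂ) * I‖ ^ 2 = x ^ 2 + y ^ 2 := by
    rw [← normSq_eq_norm_sq, normSq_apply, line_re, line_im]
    ring
  rw [← h5]
  exact pow_le_pow_left₀ (norm_nonneg _) (h4.trans h3) 2

/-- Soundness of the test of a cell. -/
theorem leaf0_ok {w cm al be X s u Ap An Bp Bn Cp Cn Lp Ln q Y v xa xb na nb ta tb ea eb : ℕ}
    (hw : w = 1 ∨ w = 2) (hcm : cm ≤ 1) (hal : al ≤ 1) (hbe : be ≤ 1)
    (h : leaf0 w cm al be X s u Ap An Bp Bn Cp Cn Lp Ln q Y v xa xb na nb ta tb ea eb = true)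
    {ys vs : ℂ} (hS : Sd (((Lp : ℝ) - Ln) / 1048576) ys vs) (hC : Cl xa xb na nb ta tb ea eb ys vs) :
    FF w cm al be (((X : ℝ) - 100) / 200) (((s : ℝ) - 40) / 200) (((u : ℝ) - 100) / 200) ys vs ≤
      ((Ap : ℝ) - An) / 1048576 - ((Bp : ℝ) - Bn) / 1048576 * vs.im -
        ((Cp : ℝ) - Cn) / 1048576 * ys.im := by
  obtain ⟨sx0, sn0, sg, st, sp, se, sd, sb, sl, sl2⟩ := hS
  obtain ⟨x1, x2, n1, n2, t1, t2, f1, f2⟩ := hC
  unfold leaf0 leaf1 leaf2 leaf3 at h
  rw [sel_false] at h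
  obtain ⟨hXY, h⟩ := h
  have hXY := Nat.ble_eq.mp hXY
  generalize ctr' xa xb = Gx at h
  generalize ctr' na nb = Gn at h
  generalize ctr' ta tb = Gt at h
  generalize ctr' ea eb = Ge at h
  -- the flags
  obtain ⟨c', hc'⟩ : ∃ c' : ℕ, c' = Nat.sub 1 cm := ⟨_, rfl⟩
  obtain ⟨a', ha'⟩ : ∃ a' : ℕ, a' = Nat.sub 1 al := ⟨_, rfl⟩
  obtain ⟨b', hb'⟩ : ∃ b' : ℕ, b' = Nat.sub 1 be := ⟨_, rfl⟩
  obtain ⟨w1, hw1⟩ : ∃ w1 : ℕ, w1 = Nat.sub 2 w := ⟨_, rfl⟩
  obtain ⟨th, hth⟩ : ∃ th : ℕ, th = Nat.sub Y X := ⟨_, rfl⟩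
  rw [← hc', ← ha', ← hb', ← hw1, ← hth] at h
  have rc : (c' : ℝ) = 1 - cm := by
    rw [hc', Num.sub_eq', Nat.cast_sub hcm, Nat.cast_one]
  have ra : (a' : ℝ) = 1 - al := by
    rw [ha', Num.sub_eq', Nat.cast_sub hal, Nat.cast_one]
  have rb : (b' : ℝ) = 1 - be := by
    rw [hb', Num.sub_eq', Nat.cast_sub hbe, Nat.cast_one]
  have rw1 : (w1 : ℝ) = 2 - w := by
    rw [hw1, Num.sub_eq', Nat.cast_sub (by omega)]
    norm_num
  have rth : (th : ℝ) = Y - X := by
    rw [hth, Num.sub_eq', Nat.cast_sub hXY]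
  clear hc' ha' hb' hw1 hth
  -- the distances
  obtain ⟨dt, hdt⟩ : ∃ dt : ℝ, dt = 2000 * ys.re - 10 * Gt := ⟨_, rfl⟩
  obtain ⟨de, hde⟩ : ∃ de : ℝ, de = 2000 * ys.im + 400 - 10 * Ge := ⟨_, rfl⟩
  obtain ⟨dx, hdx⟩ : ∃ dx : ℝ, dx = 2000 * vs.re - 10 * Gx := ⟨_, rfl⟩
  obtain ⟨dn, hdn⟩ : ∃ dn : ℝ, dn = 2000 * vs.im - 10 * Gn := ⟨_, rfl⟩
  have mx_x := dist_mx (a := xa) (b := xb) (G := Gx) (d := dx) (by linarith only [hdx, x1]) (by linarith only [hdx,
                                                                                                  x2])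
  have mx_e := dist_mx (a := ea) (b := eb) (G := Ge) (d := de) (by linarith only [hde, f1]) (by linarith only [hde,
                                                                                                  f2])
  have mx_n := dist_mx (a := na) (b := nb) (G := Gn) (d := dn) (by linarith only [hdn, n1]) (by linarith only [hdn,
                                                                                                  n2])
  obtain ⟨Dx, hDx⟩ : ∃ Dx : ℕ, Dx = Nat.mul a' (mx (Nat.sub (Nat.mul 10 Gx) xa)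
    (Nat.sub xb (Nat.mul 10 Gx))) := ⟨_, rfl⟩
  obtain ⟨De, hDe⟩ : ∃ De : ℕ, De = Nat.mul c' (mx (Nat.sub (Nat.mul 10 Ge) ea)
    (Nat.sub eb (Nat.mul 10 Ge))) := ⟨_, rfl⟩
  obtain ⟨Dn, hDn⟩ : ∃ Dn : ℕ, Dn = Nat.mul b' (mx (Nat.sub (Nat.mul 10 Gn) na)
    (Nat.sub nb (Nat.mul 10 Gn))) := ⟨_, rfl⟩
  rw [← hDx, ← hDe, ← hDn] at h
  have bx : |(a' : ℝ) * dx| ≤ Dx := by
    rw [hDx, Num.mul_eq', Nat.cast_mul, abs_mul, abs_of_nonneg (Nat.cast_nonneg a')]
    exact mul_le_mul_of_nonneg_left mx_x (Nat.cast_nonneg _)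
  have be' : |(c' : ℝ) * de| ≤ De := by
    rw [hDe, Num.mul_eq', Nat.cast_mul, abs_mul, abs_of_nonneg (Nat.cast_nonneg c')]
    exact mul_le_mul_of_nonneg_left mx_e (Nat.cast_nonneg _)
  have bn' : |(b' : ℝ) * dn| ≤ Dn := by
    rw [hDn, Num.mul_eq', Nat.cast_mul, abs_mul, abs_of_nonneg (Nat.cast_nonneg b')]
    exact mul_le_mul_of_nonneg_left mx_n (Nat.cast_nonneg _)
  clear hDx hDe hDn mx_x mx_e mx_n
  have bd1 : |(c' : ℝ) * de - b' * dn| ≤ ((Nat.add De Dn : ℕ) : ℝ) := by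
    rw [Num.add_eq', Nat.cast_add]
    exact (abs_sub _ _).trans (add_le_add be' bn')
  have bd2 : |(c' : ℝ) * de + b' * dn| ≤ ((Nat.add De Dn : ℕ) : ℝ) := by
    rw [Num.add_eq', Nat.cast_add]
    exact (abs_add_le _ _).trans (add_le_add be' bn')
  have q2 := sq_add_le (x := -(a' * dx)) (by rw [abs_neg]; exact bx) bd1
  have q3 := sq_add_le bx bd2
  have q1 : (0 : ℝ) ^ 2 + (-(c' * de)) ^ 2 ≤ (De : ℝ) ^ 2 := by
    rw [zero_pow (by norm_num), zero_add, neg_sq]
    exact sq_le_sq' (by linarith only [(abs_le.1 be').1]) (abs_le.1 be').2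
  generalize Nat.add (mx Dx (Nat.add De Dn)) (Nat.div (Nat.succ (mn Dx (Nat.add De Dn))) 2) = DD
    at h q2 q3
  clear bx be' bn' bd1 bd2
  -- the order of the corners
  have oT : ta ≤ tb := by exact_mod_cast t1.trans t2
  have oX : xa ≤ xb := by exact_mod_cast x1.trans x2
  have oN : na ≤ nb := by exact_mod_cast n1.trans n2
  have oE : ea ≤ eb := by exact_mod_cast f1.trans f2
  have hu2 : mx (Nat.sub ta xb) 150 ≤ Nat.sub tb xa := by
    rw [mx_eq, Num.sub_eq', Num.sub_eq']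
    have : 150 + xa ≤ tb := by
      have : (150 : ℝ) + xa ≤ tb := by linarith only [t2, x1, sg]
      exact_mod_cast this
    apply max_le <;> omega
  have hs2 : mx (Nat.sub ea nb) 70 ≤ Nat.sub eb na := by
    rw [mx_eq, Num.sub_eq', Num.sub_eq']
    have : 70 + na ≤ eb := by
      have : (70 : ℝ) + na ≤ eb := by linarith only [f2, n1, sd]
      exact_mod_cast this
    apply max_le <;> omega
  have hu3 : Nat.add ta xa ≤ mn (Nat.add tb xb) 1090 := by
    rw [mn_eq, Num.add_eq', Num.add_eq']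
    have : ta + xa ≤ 1090 := by
      have : (ta : ℝ) + xa ≤ 1090 := by linarith only [t1, x1, sp]
      exact_mod_cast this
    apply le_min <;> omega
  -- the atoms
  obtain ⟨V1p, V1n, g1p, g1n, h1p, h1n, t1p, t1n, l1, Q1, h, R1⟩ := atg_ok
    (by rw [Num.sub_eq', Num.sub_eq']; omega) (by rw [Num.sub_eq', Num.sub_eq']; omega) h
  obtain ⟨V2p, V2n, g2p, g2n, h2p, h2n, t2p, t2n, l2, Q2, h, R2⟩ := atg_ok hu2 hs2 h
  obtain ⟨V3p, V3n, g3p, g3n, h3p, h3n, t3p, t3n, l3, Q3, h, R3⟩ := atg_ok hu3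
    (by rw [Num.add_eq', Num.add_eq']; omega) h
  -- casts
  have z1i : ((Nat.sub 100 Gt : ℕ) : ℝ) = 100 - Gt := by
    have := R1.i1
    rw [Num.sub_eq'] at this ⊢
    rw [Nat.cast_sub (by omega)]
    norm_num
  have z1s : ((Nat.sub 80 Ge : ℕ) : ℝ) = 80 - Ge := by
    have := R1.s1'
    rw [Num.sub_eq'] at this ⊢
    rw [Nat.cast_sub (by omega)]
    norm_num
  have z2i : ((Nat.sub Gt Gx : ℕ) : ℝ) = Gt - Gx := by
    have := R2.i1
    rw [Num.sub_eq'] at this ⊢
    rw [Nat.cast_sub (by omega)]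
  have z2s : ((Nat.sub Ge Gn : ℕ) : ℝ) = Ge - Gn := by
    have := R2.s1'
    rw [Num.sub_eq'] at this ⊢
    rw [Nat.cast_sub (by omega)]
  have e1 : (1 / 2 - ys : ℂ).re = 1 / 2 - ys.re := by
    rw [sub_re]
    norm_num
  have e2 : (1 / 2 - ys : ℂ).im = -ys.im := by
    rw [sub_im]
    norm_num
  have e3 : (ys - vs).re = ys.re - vs.re := sub_re _ _
  have e4 : (ys - vs).im = ys.im - vs.im := sub_im _ _
  have e5 : (ys + vs).re = ys.re + vs.re := add_re _ _
  have e6 : (ys + vs).im = ys.im + vs.im := add_im _ _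
  obtain ⟨Xr, hXr⟩ : ∃ Xr : ℝ, Xr = ((X : ℝ) - 100) / 200 := ⟨_, rfl⟩
  obtain ⟨sr, hsr⟩ : ∃ sr : ℝ, sr = ((s : ℝ) - 40) / 200 := ⟨_, rfl⟩
  obtain ⟨ur, hur⟩ : ∃ ur : ℝ, ur = ((u : ℝ) - 100) / 200 := ⟨_, rfl⟩
  rw [← hXr, ← hsr, ← hur]
  have hκ : (w : ℝ) * (3 - w) = 2 := by
    rcases hw with hw | hw <;> rw [hw] <;> norm_num
  have A1 := R1.le (1 / 2 - ys)
    ⟨1 / 2 - ys.re - (Xr - ys.re) - (3 - w) * (th / 200), -ys.im + cm * (ys.im - sr)⟩
    0 (-(c' * de)) (by
      apply sub_le'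
      · rw [e1]; push_cast; linarith only [t2]
      · rw [e1]; linarith only [st]) (by
      apply le_sub'
      rw [e1]; push_cast; linarith only [t1]) (by
      apply sub_le'
      · rw [e2]; push_cast; linarith only [f2]
      · rw [e2]; linarith only [se]) (by
      apply le_sub'
      rw [e2]; push_cast; linarith only [f1]) (by
      rw [z1i]
      simp only [Num.add_eq', Num.mul_eq', Nat.succ_eq_add_one, Nat.cast_add, Nat.cast_mul,
        Nat.cast_ofNat, Nat.cast_one]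
      rw [rw1, hXr, rth]
      ring) (by
      rw [z1s]
      simp only [Num.add_eq', Num.mul_eq', Nat.cast_add, Nat.cast_mul, Nat.cast_ofNat]
      rw [rc, hsr, hde]
      ring) q1
  have A2 := R2.le (ys - vs)
    ⟨ys.re - vs.re + (Xr - ys.re) + th / 200 - al * (ur - vs.re) - v / 200,
      ys.im - vs.im - cm * (ys.im - sr) + be * vs.im⟩
    (-(a' * dx)) (c' * de - b' * dn) (by
      rw [mx_eq, Nat.cast_max, e3]
      apply max_le
      · apply sub_le' <;> linarith
      · push_cast; linarith only [sg]) (by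
      apply le_sub'
      rw [e3]; linarith only [t2, x1]) (by
      rw [mx_eq, Nat.cast_max, e4]
      apply max_le
      · apply sub_le' <;> linarith
      · push_cast; linarith only [sd]) (by
      apply le_sub'
      rw [e4]; linarith only [f2, n1]) (by
      rw [z2i]
      simp only [Num.add_eq', Num.mul_eq', Nat.cast_add, Nat.cast_mul, Nat.cast_ofNat]
      rw [ra, hXr, rth, hur, hdx]
      ring) (by
      rw [z2s]
      simp only [Num.add_eq', Num.mul_eq', Nat.cast_add, Nat.cast_mul, Nat.cast_ofNat]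
      rw [rc, rb, hsr, hde, hdn]
      ring) q2
  have A3 := R3.le (ys + vs)
    ⟨ys.re + vs.re + (Xr - ys.re) + th / 200 + al * (ur - vs.re) + v / 200,
      ys.im + vs.im - cm * (ys.im - sr) - be * vs.im⟩
    (a' * dx) (c' * de + b' * dn) (by
      rw [Num.add_eq', Nat.cast_add, e5]
      linarith only [t1, x1]) (by
      rw [mn_eq, Nat.cast_min, e5]
      apply le_min
      · rw [Num.add_eq', Nat.cast_add]
        linarith only [t2, x2]
      · push_cast; linarith only [sp]) (by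
      rw [Num.add_eq', Nat.cast_add, e6]
      linarith only [f1, n1]) (by
      rw [Num.add_eq', Nat.cast_add, e6]
      linarith only [f2, n2]) (by
      simp only [Num.add_eq', Num.mul_eq', Nat.cast_add, Nat.cast_mul, Nat.cast_ofNat]
      rw [ra, hXr, rth, hur, hdx]
      ring) (by
      simp only [Num.add_eq', Num.mul_eq', Nat.cast_add, Nat.cast_mul, Nat.cast_ofNat]
      rw [rc, rb, hsr, hde, hdn]
      ring) q3
  have hF := FF_eq (w := w) (cm := cm) (al := al) (be := be) (X := Xr) (s := sr) (u := ur)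
    (κ := 3 - w) (θ := th / 200) (ϑ := v / 200) (ys := ys) (vs := vs)
    (W1 := ⟨1 / 2 - ys.re - (Xr - ys.re) - (3 - w) * (th / 200), -ys.im + cm * (ys.im - sr)⟩)
    (W2 := ⟨ys.re - vs.re + (Xr - ys.re) + th / 200 - al * (ur - vs.re) - v / 200,
      ys.im - vs.im - cm * (ys.im - sr) + be * vs.im⟩)
    (W3 := ⟨ys.re + vs.re + (Xr - ys.re) + th / 200 + al * (ur - vs.re) + v / 200,
      ys.im + vs.im - cm * (ys.im - sr) - be * vs.im⟩) hκ rfl rfl rfl rfl rfl rfl
  clear R1 R2 R3 q1 q2 q3 hu2 hs2 hu3 oT oX oN oE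
  rw [hF]
  clear hF
  generalize (Rf (1 / 2 - ys) + (hh (1 / 2 - ys) * ((⟨1 / 2 - ys.re - (Xr - ys.re) - (3 - w) * (th / 200),
    -ys.im + cm * (ys.im - sr)⟩ : ℂ) - (1 / 2 - ys))).re) = Y1 at A1 ⊢
  generalize (Rf (ys - vs) + (hh (ys - vs) * ((⟨ys.re - vs.re + (Xr - ys.re) + th / 200 -
    al * (ur - vs.re) - v / 200, ys.im - vs.im - cm * (ys.im - sr) + be * vs.im⟩ : ℂ) -
      (ys - vs))).re) = Y2 at A2 ⊢
  generalize (Rf (ys + vs) + (hh (ys + vs) * ((⟨ys.re + vs.re + (Xr - ys.re) + th / 200 +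
    al * (ur - vs.re) + v / 200, ys.im + vs.im - cm * (ys.im - sr) - be * vs.im⟩ : ℂ) -
      (ys + vs))).re) = Y3 at A3 ⊢
  have hw0 : (0 : ℝ) ≤ w := Nat.cast_nonneg _
  have A1 := mul_le_mul_of_nonneg_left A1 hw0
  have hth0 : (0 : ℝ) ≤ th := Nat.cast_nonneg _
  have hv0 : (0 : ℝ) ≤ v := Nat.cast_nonneg _
  have B3 := mul_le_mul_of_nonneg_left sb hv0
  have zt : 2000 * (1 / 2 - ys).re - 10 * ((Nat.sub 100 Gt : ℕ) : ℝ) = -dt := by
    rw [e1, z1i, hdt]
    ring
  have ze : 2000 * (1 / 2 - ys).im + 400 - 10 * ((Nat.sub 80 Ge : ℕ) : ℝ) = -de := by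
    rw [e2, z1s, hde]
    ring
  have z2a : 2000 * (ys - vs).re - 10 * ((Nat.sub Gt Gx : ℕ) : ℝ) = dt - dx := by
    rw [e3, z2i, hdt, hdx]
    ring
  have z2b : 2000 * (ys - vs).im + 400 - 10 * ((Nat.sub Ge Gn : ℕ) : ℝ) = de - dn := by
    rw [e4, z2s, hde, hdn]
    ring
  have z3a : 2000 * (ys + vs).re - 10 * ((Nat.add Gt Gx : ℕ) : ℝ) = dt + dx := by
    rw [e5, Num.add_eq', Nat.cast_add, hdt, hdx]
    ring
  have z3b : 2000 * (ys + vs).im + 400 - 10 * ((Nat.add Ge Gn : ℕ) : ℝ) = de + dn := by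
    rw [e6, Num.add_eq', Nat.cast_add, hde, hdn]
    ring
  rw [zt, ze] at A1
  rw [z2a, z2b] at A2
  rw [z3a, z3b] at A3
  have yi : ys.im = (10 * Ge + de - 400) / 2000 := by linarith only [hde]
  have vi : vs.im = (10 * Gn + dn) / 2000 := by linarith only [hdn]
  rw [yi, vi]
  rw [vi] at B3
  rcases sel_true_of h with ⟨_, h⟩ | ⟨_, h⟩
  · have F := fin_le h (dt := dt) (de := de) (dx := dx) (dn := dn) (by linarith only [hdt, t1]) (by linarith only [hdt,
                                                                                                      t2])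
      (by linarith only [hde, f1]) (by linarith only [hde, f2]) (by linarith only [hdx, x1]) (by linarith only [hdx,
                                                                                                   x2]) (by linarith only [hdn,
                                                                                                              n1]) (by linarith only [hdn,
                                                                                                                         n2])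
    have B1 := mul_le_mul_of_nonneg_left sl hth0
    simp only [Num.add_eq', Num.mul_eq', Nat.cast_add, Nat.cast_mul, Nat.cast_ofNat,
      Nat.cast_zero] at F
    generalize lamv ys vs = lam at B1 ⊢
    generalize Lamv ys vs = Lam at B3 ⊢
    clear h hXr hsr hur sl sl2 sb zt ze z2a z2b z3a z3b yi vi
    rw [rc, rb, ra] at *
    have : ((w : ℝ) * Y1 + Y2 + Y3 + (th : ℝ) / 200 * lam - (v : ℝ) / 200 * Lam -
      (((Ap : ℝ) - An) / 1048576 - ((Bp : ℝ) - Bn) / 1048576 * ((10 * Gn + dn) / 2000) -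
        ((Cp : ℝ) - Cn) / 1048576 * ((10 * Ge + de - 400) / 2000))) * 838860800000 ≤ 0 := by
      linarith only [B3, B1, F, A1, A3, A2]
    linarith only [B3, B1, F, A1, A3, A2]
  · have F := fin_le h (dt := dt) (de := de) (dx := dx) (dn := dn) (by linarith only [hdt, t1]) (by linarith only [hdt,
                                                                                                      t2])
      (by linarith only [hde, f1]) (by linarith only [hde, f2]) (by linarith only [hdx, x1]) (by linarith only [hdx,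
                                                                                                   x2]) (by linarith only [hdn,
                                                                                                              n1]) (by linarith only [hdn,
                                                                                                                         n2])
    have B1 := mul_le_mul_of_nonneg_left sl2 hth0
    rw [yi, vi] at B1
    simp only [Num.add_eq', Num.mul_eq', Nat.cast_add, Nat.cast_mul, Nat.cast_ofNat,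
      Nat.cast_zero] at F
    generalize lamv ys vs = lam at B1 ⊢
    generalize Lamv ys vs = Lam at B3 ⊢
    clear h hXr hsr hur sl sl2 sb zt ze z2a z2b z3a z3b yi vi
    rw [rc, rb, ra] at *
    have : ((w : ℝ) * Y1 + Y2 + Y3 + (th : ℝ) / 200 * lam - (v : ℝ) / 200 * Lam -
      (((Ap : ℝ) - An) / 1048576 - ((Bp : ℝ) - Bn) / 1048576 * ((10 * Gn + dn) / 2000) -
        ((Cp : ℝ) - Cn) / 1048576 * ((10 * Ge + de - 400) / 2000))) * 838860800000 ≤ 0 := by
      linarith only [B3, B1, F, A1, A3, A2]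
    linarith only [B3, B1, F, A1, A3, A2]

end Pool.Agent.S5.Pa
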