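import Pool.Agent.S5.I.PaJ
import Pool.Agent.S5.I.PaT

/-!
# Soundness of the raw atoms
-/

set_option autoImplicit false

namespace Pool.Agent.S5.Pa

open Pool.Agent.H63.VC3 Pool.Agent.S3 Complex Set Pool.Agent.S5.Tb Pool.Agent.S5.Cx

/-- First order expansion of the imaginary part of `hh`. -/
theorem im_taylor {z0 z : ℂ} {t a b K am bm : ℝ}
    (ht : |(hh z0).im * 1048576 - t| ≤ 4)
    (ha : |(Real.pi * cot (Real.pi * z0)).re * 4096 - a| ≤ 1)
    (hb : |(Real.pi * cot (Real.pi * z0)).im * 4096 - b| ≤ 1)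
    (h0 : 0 < z0.re) (h1 : z0.re < 1) (h2 : 0 < z.re) (h3 : z.re < 1)
    (hL : ∀ τ : ℝ, 0 ≤ τ → τ ≤ 1 →
      ‖(Real.pi : ℂ) ^ 2 / sin (Real.pi * (z0 + τ * (z - z0))) ^ 2‖ ≤ (K ^ 2 - 2526) / 256)
    (hα : |2000 * (z.re - z0.re)| ≤ am) (hβ : |2000 * (z.im - z0.im)| ≤ bm) :
    |(hh z).im * 4194304000 - (4000 * t + 512 * (a * (2000 * (z.im - z0.im)) +
      b * (2000 * (z.re - z0.re))))| ≤
        2048 * (K ^ 2 - 2526) * (am ^ 2 + bm ^ 2) / 1000 + (16000 + 512 * (am + bm)) := by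
  have hT := hh_taylor h0 h1 h2 h3 hL
  have hL0 : 0 ≤ K ^ 2 - 2526 := by
    have := (norm_nonneg _).trans (hL 0 le_rfl zero_le_one)
    linarith only [this]
  have hδ2 : ‖z - z0‖ ^ 2 ≤ (am ^ 2 + bm ^ 2) / 4000000 := by
    have e : ‖z - z0‖ ^ 2 = (z.re - z0.re) ^ 2 + (z.im - z0.im) ^ 2 := by
      rw [← normSq_eq_norm_sq, normSq_apply, sub_re, sub_im]
      ring
    have a1 : (2000 * (z.re - z0.re)) ^ 2 ≤ am ^ 2 :=
      sq_le_sq' (by linarith only [(abs_le.1 hα).1]) (abs_le.1 hα).2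
    have a2 : (2000 * (z.im - z0.im)) ^ 2 ≤ bm ^ 2 :=
      sq_le_sq' (by linarith only [(abs_le.1 hβ).1]) (abs_le.1 hβ).2
    rw [e]
    linarith only [a2, a1]
  have h4 := (abs_im_le_norm _).trans hT
  rw [sub_im, sub_im, mul_im, sub_re, sub_im] at h4
  set t0 := (hh z0).im with ht0
  set a0 := ((Real.pi : ℂ) * cot (Real.pi * z0)).re with ha0
  set b0 := ((Real.pi : ℂ) * cot (Real.pi * z0)).im with hb0
  have h5 : (K ^ 2 - 2526) / 256 / 2 * ‖z - z0‖ ^ 2 ≤
      (K ^ 2 - 2526) / 256 / 2 * ((am ^ 2 + bm ^ 2) / 4000000) :=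
    mul_le_mul_of_nonneg_left hδ2 (by positivity)
  have e5 : (K ^ 2 - 2526) / 256 / 2 * ((am ^ 2 + bm ^ 2) / 4000000) * 4194304000 =
      2048 * (K ^ 2 - 2526) * (am ^ 2 + bm ^ 2) / 1000 := by ring
  set α := 2000 * (z.re - z0.re) with hα'
  set β := 2000 * (z.im - z0.im) with hβ'
  have c1 : |(a0 * 4096 - a) * β| ≤ bm := by
    rw [abs_mul]
    have := mul_le_mul ha hβ (abs_nonneg _) zero_le_one
    linarith only [this]
  have c2 : |(b0 * 4096 - b) * α| ≤ am := by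
    rw [abs_mul]
    have := mul_le_mul hb hα (abs_nonneg _) zero_le_one
    linarith only [this]
  obtain ⟨l1, l2⟩ := abs_le.1 (h4.trans h5)
  obtain ⟨l3, l4⟩ := abs_le.1 ht
  obtain ⟨l5, l6⟩ := abs_le.1 c1
  obtain ⟨l7, l8⟩ := abs_le.1 c2
  have e6 : (hh z).im * 4194304000 - (4000 * t + 512 * (a * β + b * α)) =
      ((hh z).im - t0 - (a0 * (z.im - z0.im) + b0 * (z.re - z0.re))) * 4194304000 +
        4000 * (t0 * 1048576 - t) + 512 * ((a0 * 4096 - a) * β) + 512 * ((b0 * 4096 - b) * α) := by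
    rw [hα', hβ']
    ring
  rw [e6, ← e5, abs_le]
  constructor <;> linarith

/-- The integer error term. -/
theorem erj_ge (kk am bm : ℕ) :
    2048 * ((kk : ℝ) ^ 2 - 2526) * ((am : ℝ) ^ 2 + (bm : ℝ) ^ 2) / 1000 +
      (16000 + 512 * ((am : ℝ) + bm)) ≤ (erj kk am bm : ℝ) := by
  have e : erj kk am bm = (2048 * (kk * kk - 2526) * (am * am + bm * bm)) / 1000 +
      (16001 + 512 * (am + bm)) := by
    unfold erj
    simp only [Num.add_eq', Num.mul_eq', Num.div_eq', Num.sub_eq']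
  have h2 : (kk : ℝ) ^ 2 - 2526 ≤ ((kk * kk - 2526 : ℕ) : ℝ) := by
    have h3 : (kk : ℝ) * kk ≤ ((kk * kk - 2526 + 2526 : ℕ) : ℝ) := by
      have : kk * kk ≤ kk * kk - 2526 + 2526 := le_tsub_add
      exact_mod_cast this
    push_cast at h3
    linarith only [h3]
  have h5 := mul_le_mul_of_nonneg_right h2
    (show 0 ≤ (am : ℝ) ^ 2 + (bm : ℝ) ^ 2 from add_nonneg (sq_nonneg _) (sq_nonneg _))
  rw [e]
  generalize ((kk * kk - 2526 : ℕ)) = Z at h5 ⊢
  have h1 : (((2048 * Z * (am * am + bm * bm) : ℕ)) : ℝ) / 1000 ≤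
      (((2048 * Z * (am * am + bm * bm)) / 1000 : ℕ) : ℝ) + 1 := by
    have h := Nat.lt_div_mul_add (a := 2048 * Z * (am * am + bm * bm)) (b := 1000) (by norm_num)
    have h1 : ((2048 * Z * (am * am + bm * bm) : ℕ) : ℝ) <
      (((2048 * Z * (am * am + bm * bm)) / 1000 : ℕ) : ℝ) * 1000 + 1000 := by exact_mod_cast h
    linarith only [h1]
  push_cast at h1 ⊢
  generalize (((2048 * Z * (am * am + bm * bm) / 1000 : ℕ)) : ℝ) = D at h1 ⊢
  have e3 : (am : ℝ) * am + bm * bm = (am : ℝ) ^ 2 + (bm : ℝ) ^ 2 := by ring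
  rw [e3] at h1
  linarith only [h1, h5]

/-- What a raw atom delivers. -/
structure RwR (i s u1 u2 s1 s2 tp tn ap an bp bn E : ℕ) : Prop where
  q1 : 2 ≤ s
  q2 : s ≤ 78
  le : ∀ z : ℂ, (u1 : ℝ) ≤ 2000 * z.re → 2000 * z.re ≤ u2 →
    (s1 : ℝ) ≤ 2000 * z.im + 400 → 2000 * z.im + 400 ≤ s2 →
    |(hh z).im * 4194304000 - (4000 * ((tp : ℝ) - tn) +
      512 * (((ap : ℝ) - an) * (2000 * z.im + 400 - 10 * s) +
        ((bp : ℝ) - bn) * (2000 * z.re - 10 * i)))| ≤ E

theorem rwk_ok {z0 : ℂ} {i s u1 u2 s1 s2 : ℕ} {qp qn tp tn l ap an bp bn : ℕ}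
    {k : ℕ → ℕ → ℕ → ℕ → ℕ → ℕ → ℕ → Bool} {kk : ℕ}
    (h : k tp tn ap an bp bn
      (erj kk (mx (Nat.sub (Nat.mul 10 i) u1) (Nat.sub u2 (Nat.mul 10 i)))
        (mx (Nat.sub (Nat.mul 10 s) s1) (Nat.sub s2 (Nat.mul 10 s)))) = true)
    (g : Gd z0 qp qn tp tn l ap an bp bn)
    (hz0r : z0.re = (i : ℝ) / 200) (hz0i : z0.im = ((s : ℝ) - 40) / 200)
    (i1 : 13 ≤ i) (i2 : i ≤ 187) (q1 : 2 ≤ s) (q2 : s ≤ 78) (_q3 : 10 ≤ u1)
    (hd : ∀ z : ℂ, (u1 : ℝ) ≤ 2000 * z.re → 2000 * z.re ≤ u2 →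
      (s1 : ℝ) ≤ 2000 * z.im + 400 → 2000 * z.im + 400 ≤ s2 → 0 < z.re ∧ z.re < 1 ∧
        ∀ τ : ℝ, 0 ≤ τ → τ ≤ 1 → ‖ct (z0 + τ * (z - z0))‖ ≤ (kk : ℝ) / 16 ∧
          ‖(Real.pi : ℂ) ^ 2 / sin (Real.pi * (z0 + τ * (z - z0))) ^ 2‖ ≤
            ((kk : ℝ) ^ 2 - 2526) / 256) :
    ∃ tp tn ap an bp bn E : ℕ, k tp tn ap an bp bn E = true ∧
      RwR i s u1 u2 s1 s2 tp tn ap an bp bn E := by
  refine ⟨_, _, _, _, _, _, _, h, q1, q2, ?_⟩
  intro z hu1 hu2 hs1 hs2
  obtain ⟨z1, z2, hder⟩ := hd z hu1 hu2 hs1 hs2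
  have i1' : (13 : ℝ) ≤ i := by exact_mod_cast i1
  have i2' : (i : ℝ) ≤ 187 := by exact_mod_cast i2
  have ha : |2000 * (z.re - z0.re)| ≤
      ((mx (Nat.sub (Nat.mul 10 i) u1) (Nat.sub u2 (Nat.mul 10 i)) : ℕ) : ℝ) := by
    apply dist_mx
    · rw [hz0r]
      linarith only [hu1]
    · rw [hz0r]
      linarith only [hu2]
  have hb : |2000 * (z.im - z0.im)| ≤
      ((mx (Nat.sub (Nat.mul 10 s) s1) (Nat.sub s2 (Nat.mul 10 s)) : ℕ) : ℝ) := by
    apply dist_mx
    · rw [hz0i]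
      linarith only [hs1]
    · rw [hz0i]
      linarith only [hs2]
  have main := im_taylor (z0 := z0) (z := z) (K := (kk : ℝ)) g.t g.a g.b
    (by rw [hz0r]; linarith only [i1', z2, z1]) (by rw [hz0r]; linarith only [i2', z2, z1]) z1 z2
    (fun τ t0 t1 => (hder τ t0 t1).2) ha hb
  have er := erj_ge kk (mx (Nat.sub (Nat.mul 10 i) u1) (Nat.sub u2 (Nat.mul 10 i)))
    (mx (Nat.sub (Nat.mul 10 s) s1) (Nat.sub s2 (Nat.mul 10 s)))
  have main2 := main.trans er
  refine le_trans (le_of_eq ?_) main2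
  rw [hz0r, hz0i]
  congr 1
  ring

theorem rwg_ok {i s u1 u2 s1 s2 : ℕ}
    {k : ℕ → ℕ → ℕ → ℕ → ℕ → ℕ → ℕ → Bool} (hu : u1 ≤ u2) (hs : s1 ≤ s2)
    (h : rwg i s u1 u2 s1 s2 k false = true) :
    ∃ tp tn ap an bp bn E : ℕ, k tp tn ap an bp bn E = true ∧
      RwR i s u1 u2 s1 s2 tp tn ap an bp bn E := by
  unfold rwg rwh at h
  rw [sel_false, sel_false, sel_false, sel_false] at h
  obtain ⟨c1, c2, c3, c4, h⟩ := h
  have c1 := Nat.ble_eq.mp c1
  have c2 := Nat.ble_eq.mp c2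
  have c3 := Nat.ble_eq.mp c3
  have c4 := Nat.ble_eq.mp c4
  rw [mn_eq, mn_eq, mx_eq] at c4
  have e10 : Nat.mul 10 i = 10 * i := rfl
  have e10s : Nat.mul 10 s = 10 * s := rfl
  have esb : Nat.sub 2000 (max (10 * i) u2) = 2000 - max (10 * i) u2 := rfl
  rw [e10, esb] at c4
  set b := Num.ds' s 40 with hb
  have hb' : (b : ℝ) = |(s : ℝ) - 40| := by
    rw [hb, Num.ds'_eq]
    norm_num
  have hs2 : 2 ≤ s ∧ s ≤ 78 := by
    have h1 : |(s : ℝ) - 40| ≤ 38 := by
      rw [← hb']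
      exact_mod_cast c1
    have h2 := abs_le.1 h1
    constructor
    · have : (2 : ℝ) ≤ s := by linarith only [h2.1]
      exact_mod_cast this
    · have : (s : ℝ) ≤ 78 := by linarith only [h2.2]
      exact_mod_cast this
  -- the indices of the bounds
  set U := min (min (10 * i) u1) (2000 - max (10 * i) u2) with hU
  have hUi : U ≤ 10 * i := (min_le_left _ _).trans (min_le_left _ _)
  have hUu : U ≤ u1 := (min_le_left _ _).trans (min_le_right _ _)
  have hU2 : U ≤ 2000 - max (10 * i) u2 := min_le_right _ _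
  have hmi := le_max_left (10 * i) u2
  have hmu := le_max_right (10 * i) u2
  set S := (min s1 (10 * s) - 400) + (400 - max s2 (10 * s)) with hS
  have hmM : min s1 (10 * s) ≤ max s2 (10 * s) := (min_le_left _ _).trans (hs.trans (le_max_left _ _))
  set iU := U / 10 with hiU
  set jS := S / 10 with hjS
  have hiU1 : 1 ≤ iU := by omega
  have hiU2 : iU ≤ 100 := by omega
  have hSx : ∀ x : ℝ, ((min s1 (10 * s) : ℕ) : ℝ) ≤ x → x ≤ ((max s2 (10 * s) : ℕ) : ℝ) →
      10 * (jS : ℝ) ≤ |x - 400| := by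
    intro x h1 h2
    refine le_trans ?_ (idx_S hmM h1 h2)
    rw [← hS]
    have : 10 * jS ≤ S := by omega
    exact_mod_cast this
  have hjS2 : jS ≤ 38 := by
    have h1 := hSx (10 * (s : ℝ)) (by
      have : min s1 (10 * s) ≤ 10 * s := min_le_right _ _
      exact_mod_cast this) (by
      have : 10 * s ≤ max s2 (10 * s) := le_max_right _ _
      exact_mod_cast this)
    rw [show 10 * (s : ℝ) - 400 = 10 * ((s : ℝ) - 40) by ring, abs_mul,
      abs_of_pos (by norm_num : (0 : ℝ) < 10), ← hb'] at h1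
    have h2 : (jS : ℝ) ≤ b := by linarith only [h1]
    have h3 : jS ≤ b := by exact_mod_cast h2
    omega
  have hcT := (cT_eq iU jS hiU2 hjS2).1
  have hkk : kE (Nat.mod (cT (Nat.div (mn (mn (Nat.mul 10 i) u1) (Nat.sub 2000 (mx (Nat.mul 10 i) u2)))
      10) (Nat.div (Nat.add (Nat.sub (mn s1 (Nat.mul 10 s)) 400)
          (Nat.sub 400 (mx s2 (Nat.mul 10 s)))) 10)) 1208925819614629174706176) = kE (ent iU jS) := by
    rw [← hcT, mn_eq, mn_eq, mx_eq, mn_eq, mx_eq]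
    rfl
  have hd : ∀ z0 : ℂ, z0.re = (i : ℝ) / 200 → z0.im = ((s : ℝ) - 40) / 200 →
      ∀ z : ℂ, (u1 : ℝ) ≤ 2000 * z.re → 2000 * z.re ≤ u2 →
      (s1 : ℝ) ≤ 2000 * z.im + 400 → 2000 * z.im + 400 ≤ s2 → 0 < z.re ∧ z.re < 1 ∧
        ∀ τ : ℝ, 0 ≤ τ → τ ≤ 1 → ‖ct (z0 + τ * (z - z0))‖ ≤ (kE (ent iU jS) : ℝ) / 16 ∧
          ‖(Real.pi : ℂ) ^ 2 / sin (Real.pi * (z0 + τ * (z - z0))) ^ 2‖ ≤
            ((kE (ent iU jS) : ℝ) ^ 2 - 2526) / 256 := by
    intro z0 hr hi z h1 h2 h3 h4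
    have f1 : 10 * (iU : ℝ) ≤ u1 := by
      have : 10 * iU ≤ u1 := by omega
      exact_mod_cast this
    have f2 : 10 * (iU : ℝ) + u2 ≤ 2000 := by
      have : 10 * iU + u2 ≤ 2000 := by omega
      exact_mod_cast this
    have f3 : 10 * (iU : ℝ) ≤ 10 * i := by
      have : 10 * iU ≤ 10 * i := by omega
      exact_mod_cast this
    have f4 : 10 * (iU : ℝ) + 10 * i ≤ 2000 := by
      have : 10 * iU + 10 * i ≤ 2000 := by omega
      exact_mod_cast this
    have f5 : (1 : ℝ) ≤ iU := by exact_mod_cast hiU1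
    have g1 : ((min s1 (10 * s) : ℕ) : ℝ) ≤ s1 := by
      have : min s1 (10 * s) ≤ s1 := min_le_left _ _
      exact_mod_cast this
    have g2 : (s2 : ℝ) ≤ ((max s2 (10 * s) : ℕ) : ℝ) := by
      have : s2 ≤ max s2 (10 * s) := le_max_left _ _
      exact_mod_cast this
    have g3 : ((min s1 (10 * s) : ℕ) : ℝ) ≤ 10 * s := by
      have : min s1 (10 * s) ≤ 10 * s := min_le_right _ _
      exact_mod_cast this
    have g4 : 10 * (s : ℝ) ≤ ((max s2 (10 * s) : ℕ) : ℝ) := by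
      have : 10 * s ≤ max s2 (10 * s) := le_max_right _ _
      exact_mod_cast this
    refine ⟨by linarith only [f5, f1, h1], by linarith only [f5, f2, h2], fun τ t0 t1 => ?_⟩
    exact seg_der hiU1 hiU2 (by omega) (by rw [hr]; linarith only [f3]) (by rw [hr]; linarith only [f4]) (by linarith only [f1,
                                                                                                               h1])
      (by linarith only [f2, h2]) (by rw [hi]; linarith only [g3]) (by rw [hi]; linarith only [g4]) (by linarith only [g1,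
                                                                                                          h3]) (by linarith only [g2,
                                                                                                                     h4]) hSx τ
      t0 t1
  rw [hkk] at h
  have hE : ∀ a : ℕ, 13 ≤ a → a ≤ 100 → Gd (pt a b) (qE (ent a b)) 0 (tE (ent a b)) 0
      (lE (ent a b)) (aE (entC a b)) 0 0 (bE (entC a b)) := fun a a1 a2 =>
    gd_pt a1 a2 c1 (ent_ok a b a2 (by omega) (by omega))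
  have ptre : ∀ a : ℕ, (pt a b).re = (a : ℝ) / 200 := fun a => by unfold pt; exact line_re _ _
  have ptim : ∀ a : ℕ, (pt a b).im = (b : ℝ) / 200 := fun a => by unfold pt; exact line_im _ _
  rcases sel_true_of h with ⟨l1, h⟩ | ⟨l1, h⟩
  · -- the left half
    have l1 := Nat.ble_eq.mp l1
    unfold rwT rwf at h
    obtain ⟨t1, t2⟩ := cT_eq i b l1 (by omega)
    rw [t1, t2] at h
    have p0 : 0 < (pt i b).re := by
      rw [ptre]
      have : (13 : ℝ) ≤ i := by exact_mod_cast c2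
      linarith only [this]
    have p1 : (pt i b).re < 1 := by
      rw [ptre]
      have : (i : ℝ) ≤ 187 := by exact_mod_cast c3
      linarith only [this]
    have h : Bool.rec (motive := fun _ => Bool)
        (k 0 (tE (ent i b)) (aE (entC i b)) 0 (bE (entC i b)) 0
          (erj (kE (ent iU jS)) (mx (Nat.sub (Nat.mul 10 i) u1) (Nat.sub u2 (Nat.mul 10 i)))
        (mx (Nat.sub (Nat.mul 10 s) s1) (Nat.sub s2 (Nat.mul 10 s)))))
        (k (tE (ent i b)) 0 (aE (entC i b)) 0 0 (bE (entC i b))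
          (erj (kE (ent iU jS)) (mx (Nat.sub (Nat.mul 10 i) u1) (Nat.sub u2 (Nat.mul 10 i)))
        (mx (Nat.sub (Nat.mul 10 s) s1) (Nat.sub s2 (Nat.mul 10 s))))) (Nat.ble 40 s) = true := h
    rcases sel_true_of h with ⟨v1, h⟩ | ⟨v1, h⟩
    · have v1 := Nat.ble_eq.mp v1
      have v1' : (40 : ℝ) ≤ s := by exact_mod_cast v1
      have e2 : (b : ℝ) = s - 40 := by rw [hb', abs_of_nonneg (by linarith only [v1'])]
      exact rwk_ok h (hE i c2 l1) (ptre i) (by rw [ptim, e2]) c2 c3 hs2.1 hs2.2 (c4.trans hUu)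
        (hd _ (ptre i) (by rw [ptim, e2]))
    · have v1 := ble_false v1
      have v1' : (s : ℝ) < 40 := by exact_mod_cast v1
      have e2 : (b : ℝ) = -(s - 40) := by rw [hb', abs_of_neg (by linarith only [v1'])]
      have r1 : ((starRingEnd ℂ) (pt i b)).re = (i : ℝ) / 200 := by rw [conj_re, ptre]
      have r2 : ((starRingEnd ℂ) (pt i b)).im = ((s : ℝ) - 40) / 200 := by
        rw [conj_im, ptim, e2]
        ring
      exact rwk_ok h ((hE i c2 l1).conj p0 p1) r1 r2 c2 c3 hs2.1 hs2.2 (c4.trans hUu) (hd _ r1 r2)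
  · -- the right half
    have l1 := ble_false l1
    unfold rwT rwf at h
    have esub : Nat.sub 200 i = 200 - i := rfl
    rw [esub] at h
    obtain ⟨t1, t2⟩ := cT_eq (200 - i) b (by omega) (by omega)
    rw [t1, t2] at h
    have hcast : (((200 - i : ℕ)) : ℝ) = 200 - (i : ℝ) := by
      rw [Nat.cast_sub (by omega)]
      norm_num
    have p0 : 0 < (pt (200 - i) b).re := by
      rw [ptre, hcast]
      have : (i : ℝ) ≤ 187 := by exact_mod_cast c3
      linarith only [this]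
    have p1 : (pt (200 - i) b).re < 1 := by
      rw [ptre, hcast]
      have : (13 : ℝ) ≤ i := by exact_mod_cast c2
      linarith only [this]
    have h : Bool.rec (motive := fun _ => Bool)
        (k (tE (ent (200 - i) b)) 0 0 (aE (entC (200 - i) b)) (bE (entC (200 - i) b)) 0
          (erj (kE (ent iU jS)) (mx (Nat.sub (Nat.mul 10 i) u1) (Nat.sub u2 (Nat.mul 10 i)))
        (mx (Nat.sub (Nat.mul 10 s) s1) (Nat.sub s2 (Nat.mul 10 s)))))
        (k 0 (tE (ent (200 - i) b)) 0 (aE (entC (200 - i) b)) 0 (bE (entC (200 - i) b))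
          (erj (kE (ent iU jS)) (mx (Nat.sub (Nat.mul 10 i) u1) (Nat.sub u2 (Nat.mul 10 i)))
        (mx (Nat.sub (Nat.mul 10 s) s1) (Nat.sub s2 (Nat.mul 10 s))))) (Nat.ble 40 s) = true := h
    have hG := hE (200 - i) (by omega) (by omega)
    rcases sel_true_of h with ⟨v1, h⟩ | ⟨v1, h⟩
    · have v1 := Nat.ble_eq.mp v1
      have v1' : (40 : ℝ) ≤ s := by exact_mod_cast v1
      have e2 : (b : ℝ) = s - 40 := by rw [hb', abs_of_nonneg (by linarith only [v1'])]
      have r1 : (1 - (starRingEnd ℂ) (pt (200 - i) b)).re = (i : ℝ) / 200 := by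
        rw [sub_re, one_re, conj_re, ptre, hcast]
        ring
      have r2 : (1 - (starRingEnd ℂ) (pt (200 - i) b)).im = ((s : ℝ) - 40) / 200 := by
        rw [sub_im, one_im, conj_im, ptim, e2]
        ring
      exact rwk_ok h (hG.conj p0 p1).rfl' r1 r2 c2 c3 hs2.1 hs2.2 (c4.trans hUu) (hd _ r1 r2)
    · have v1 := ble_false v1
      have v1' : (s : ℝ) < 40 := by exact_mod_cast v1
      have e2 : (b : ℝ) = -(s - 40) := by rw [hb', abs_of_neg (by linarith only [v1'])]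
      have r1 : (1 - pt (200 - i) b).re = (i : ℝ) / 200 := by
        rw [sub_re, one_re, ptre, hcast]
        ring
      have r2 : (1 - pt (200 - i) b).im = ((s : ℝ) - 40) / 200 := by
        rw [sub_im, one_im, ptim, e2]
        ring
      exact rwk_ok h hG.rfl' r1 r2 c2 c3 hs2.1 hs2.2 (c4.trans hUu) (hd _ r1 r2)

end Pool.Agent.S5.Pa
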