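import Pool.Agent.S5.I.PaC
import Pool.Agent.S5.I.VDefs

/-!
# Soundness of the branch and bound for the parameters
-/

set_option autoImplicit false

namespace Pool.Agent.S5.Pa

open Pool.Agent.H63.VC3 Pool.Agent.S3 Complex Set Pool.Agent.S5.Tb Pool.Agent.S5.Cx Pool.Agent.S5

/-- The functional. -/
noncomputable def FF (w cm al be X s u : ℝ) (ys vs : ℂ) : ℝ :=
  w * Rf (1 / 2 - ys) + Rf (ys - vs) + Rf (ys + vs) - (ly w ys vs).re * (X - ys.re) -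
    cm * (ly w ys vs).im * (ys.im - s) + al * Lamv ys vs * (u - vs.re) -
    be * (lv ys vs).im * vs.im

theorem lamv_hh (ys vs : ℂ) : lamv ys vs =
    2 * (hh (1 / 2 - ys)).re - (hh (ys - vs)).re - (hh (ys + vs)).re := by
  have e1 : (1 / 2 - ys : ℂ).re = 1 / 2 - ys.re := by
    rw [sub_re]
    norm_num
  have e2 : (1 / 2 - ys : ℂ).im = -ys.im := by
    rw [sub_im]
    norm_num
  rw [hh_re, hh_re, hh_re, e1, e2, Lg_neg_im, sub_re, sub_im, add_re, add_im]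
  rfl

theorem Lamv_hh (ys vs : ℂ) : Lamv ys vs = (hh (ys + vs)).re - (hh (ys - vs)).re := by
  rw [hh_re, hh_re, sub_re, sub_im, add_re, add_im]
  rfl

/-- The functional as a sum of planes at shifted points. -/
theorem FF_eq {w cm al be X s u κ θ ϑ : ℝ} {ys vs W1 W2 W3 : ℂ} (hκ : w * κ = 2)
    (r1 : W1.re = 1 / 2 - ys.re - (X - ys.re) - κ * θ) (i1 : W1.im = -ys.im + cm * (ys.im - s))
    (r2 : W2.re = ys.re - vs.re + (X - ys.re) + θ - al * (u - vs.re) - ϑ)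
    (i2 : W2.im = ys.im - vs.im - cm * (ys.im - s) + be * vs.im)
    (r3 : W3.re = ys.re + vs.re + (X - ys.re) + θ + al * (u - vs.re) + ϑ)
    (i3 : W3.im = ys.im + vs.im - cm * (ys.im - s) - be * vs.im) :
    FF w cm al be X s u ys vs = w * (Rf (1 / 2 - ys) + (hh (1 / 2 - ys) * (W1 - (1 / 2 - ys))).re) +
      (Rf (ys - vs) + (hh (ys - vs) * (W2 - (ys - vs))).re) +
      (Rf (ys + vs) + (hh (ys + vs) * (W3 - (ys + vs))).re) + θ * lamv ys vs -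
      ϑ * Lamv ys vs := by
  have e1 : (1 / 2 - ys : ℂ).re = 1 / 2 - ys.re := by
    rw [sub_re]
    norm_num
  have e2 : (1 / 2 - ys : ℂ).im = -ys.im := by
    rw [sub_im]
    norm_num
  have hl1 : (ly w ys vs).re = w * (hh (1 / 2 - ys)).re - (hh (ys - vs)).re - (hh (ys + vs)).re := by
    unfold ly
    rw [sub_re, sub_re, re_ofReal_mul]
  have hl2 : (ly w ys vs).im = w * (hh (1 / 2 - ys)).im - (hh (ys - vs)).im - (hh (ys + vs)).im := by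
    unfold ly
    rw [sub_im, sub_im, im_ofReal_mul]
  have hl3 : (lv ys vs).im = (hh (ys - vs)).im - (hh (ys + vs)).im := by
    unfold lv
    rw [sub_im]
  unfold FF
  rw [hl1, hl2, hl3, lamv_hh, Lamv_hh, mul_re, mul_re, mul_re, sub_re W1, sub_im W1, sub_re W2,
    sub_im W2, sub_re W3, sub_im W3, e1, e2, sub_re ys, sub_im ys, add_re ys, add_im ys, r1, i1, r2,
    i2, r3, i3]
  linear_combination ((hh (1 / 2 - ys)).re * θ) * hκ

/-- A linear term. -/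
theorem acc_le {p n a b G P M : ℕ} {k : ℕ → ℕ → Bool} (h : acc p n a b G P M k = true) {d : ℝ}
    (h1 : (a : ℝ) ≤ 10 * G + d) (h2 : 10 * G + d ≤ (b : ℝ)) :
    ∃ P' M' : ℕ, k P' M' = true ∧ (P : ℝ) - M + 2 * (((p : ℝ) - n) * d) ≤ (P' : ℝ) - M' := by
  unfold acc at h
  refine ⟨_, _, h, ?_⟩
  have hab : a ≤ b := by exact_mod_cast h1.trans h2
  simp only [Num.add_eq', Num.mul_eq', Num.sub_eq', Nat.cast_add, Nat.cast_mul, Nat.cast_ofNat,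
    Num.ds'_eq, Nat.cast_sub hab]
  have h3 : |2 * d - ((a : ℝ) + b - 20 * G)| ≤ (b : ℝ) - a := by
    rw [abs_le]
    constructor <;> linarith
  have h4 : ((p : ℝ) - n) * (2 * d - ((a : ℝ) + b - 20 * G)) ≤ |(p : ℝ) - n| * ((b : ℝ) - a) := by
    refine (le_abs_self _).trans ?_
    rw [abs_mul]
    exact mul_le_mul_of_nonneg_left h3 (abs_nonneg _)
  linarith

/-- The last step. -/
theorem fin_le {w c' a' b' Ap An Bp Bn Cp Cn th2 th4 v L2 K1 K2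
    xa xb na nb ta tb ea eb Gx Gn Gt Ge
    V1p V1n g1p g1n h1p h1n t1p t1n Q1 V2p V2n g2p g2n h2p h2n t2p t2n l2 Q2
    V3p V3n g3p g3n h3p h3n t3p t3n l3 Q3 : ℕ}
    (h : fin' w c' a' b' Ap An Bp Bn Cp Cn th2 th4 v L2 K1 K2
      xa xb na nb ta tb ea eb Gx Gn Gt Ge
      V1p V1n g1p g1n h1p h1n t1p t1n Q1 V2p V2n g2p g2n h2p h2n t2p t2n l2 Q2
      V3p V3n g3p g3n h3p h3n t3p t3n l3 Q3 = true) {dt de dx dn : ℝ}
    (t1 : (ta : ℝ) ≤ 10 * Gt + dt) (t2 : 10 * Gt + dt ≤ (tb : ℝ))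
    (f1 : (ea : ℝ) ≤ 10 * Ge + de) (f2 : 10 * Ge + de ≤ (eb : ℝ))
    (x1 : (xa : ℝ) ≤ 10 * Gx + dx) (x2 : 10 * Gx + dx ≤ (xb : ℝ))
    (n1 : (na : ℝ) ≤ 10 * Gn + dn) (n2 : 10 * Gn + dn ≤ (nb : ℝ)) :
    (w * ((V1p : ℝ) - V1n + Q1) + ((V2p : ℝ) - V2n + Q2) + ((V3p : ℝ) - V3n + Q3)) +
      ((K1 : ℝ) - K2) - 167772160 * v * Gn + 800000 * ((An : ℝ) - Ap) +
      4000 * (((Bp : ℝ) - Bn) * Gn + ((Cp : ℝ) - Cn) * (Ge - 40)) +
      2 * ((256 * (w * ((g1n : ℝ) - g1p) + (g2p - g2n) + (g3p - g3n))) * dt) +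
      2 * ((256 * (w * ((h1n : ℝ) - h1p) + (h2p - h2n) + (h3p - h3n)) +
        200 * ((Cp : ℝ) - Cn + c' * (w * ((t1p : ℝ) - t1n) - (t2p - t2n) - (t3p - t3n))) -
        th4 * L2) * de) +
      2 * ((256 * (((g2n : ℝ) - g2p) + (g3p - g3n)) + 200 * (a' * ((l3 : ℝ) - l2))) * dx) +
      2 * ((256 * (((h2n : ℝ) - h2p) + (h3p - h3n)) +
        200 * ((Bp : ℝ) - Bn + b' * (((t2p : ℝ) - t2n) - (t3p - t3n))) - th2 * L2 - 8388608 * v) * dn)
      ≤ 0 := by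
  unfold fin' at h
  obtain ⟨P1, M1, h, k1⟩ := acc_le h t1 t2
  obtain ⟨P2, M2, h, k2⟩ := acc_le h f1 f2
  obtain ⟨P3, M3, h, k3⟩ := acc_le h x1 x2
  obtain ⟨P4, M4, h, k4⟩ := acc_le h n1 n2
  have h := Nat.ble_eq.mp h
  have k5 : (P4 : ℝ) ≤ M4 := by exact_mod_cast h
  simp only [Num.add_eq', Num.mul_eq', Nat.cast_add, Nat.cast_mul, Nat.cast_ofNat] at k1 k2 k3 k4
  linarith

end Pool.Agent.S5.Pa
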