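import Pool.Agent.S5.I.Nok
import Pool.Agent.S5.I.Asm0

/-!
# The pieces of the edges in a pattern
-/

set_option autoImplicit false

namespace Pool.Agent.S5

open Complex Pool.Agent.H63.VC3 Pool.Agent.S3
open scoped ComplexConjugate

/-- The pieces of the edges, extended by `F`. -/
def pl {m : ℕ} (p : Fin m → Pc) (n : ℕ) : Pc := if h : 0 < n ∧ n ≤ m then p ⟨n - 1, by omega⟩ else .F

theorem pl_zero {m : ℕ} (p : Fin m → Pc) : pl p 0 = .F := dif_neg (by omega)

theorem pl_last {m : ℕ} (p : Fin m → Pc) : pl p (m + 1) = .F := dif_neg (by omega)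

theorem pl_succ {m : ℕ} (p : Fin m → Pc) (j : Fin m) : pl p (j + 1) = p j := by
  rw [pl, dif_pos ⟨Nat.succ_pos _, j.isLt⟩]
  congr 1

/-- The edge `n` (between the nodes `n - 1` and `n`) has a small index. -/
def lowE {m : ℕ} (S : Finset (Fin m)) (n : ℕ) : Prop := ∃ h : 0 < n ∧ n ≤ m, (⟨n - 1, by omega⟩ : Fin m) ∈ S

theorem lowE_succ {m : ℕ} (S : Finset (Fin m)) (j : Fin m) : lowE S (j + 1) ↔ j ∈ S := by
  constructor
  · rintro ⟨h, h1⟩
    exact h1
  · intro h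
    exact ⟨⟨Nat.succ_pos _, j.isLt⟩, h⟩

theorem Tch_iff {m : ℕ} (S : Finset (Fin m)) (i : Fin (m + 1)) :
    Tch S i ↔ lowE S i ∨ lowE S (i + 1) := by
  constructor
  · rintro ⟨j, hj, h | h⟩
    · right
      subst h
      exact (lowE_succ S j).2 hj
    · left
      subst h
      rw [Fin.val_succ]
      exact (lowE_succ S j).2 hj
  · rintro (⟨h, h1⟩ | ⟨h, h1⟩)
    · refine ⟨_, h1, Or.inr ?_⟩
      apply Fin.ext
      simp only [Fin.val_succ]
      omega
    · refine ⟨_, h1, Or.inl ?_⟩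
      apply Fin.ext
      simp

theorem Sep.not_both {m : ℕ} {S : Finset (Fin m)} (h : Sep S) (i : Fin (m + 1)) :
    ¬ (lowE S i ∧ lowE S (i + 1)) := by
  rintro ⟨⟨h1, h2⟩, ⟨h3, h4⟩⟩
  have h5 := h _ h2 _ h4 i (Or.inr (by apply Fin.ext; simp only [Fin.val_succ]; omega))
    (Or.inl (by apply Fin.ext; simp))
  have h6 := congrArg Fin.val h5
  simp only at h6
  omega

/-- The node forces the edge by a small index. -/
def TT {m : ℕ} (C : Ch m) (P : Pat m) (i : Fin (m + 1)) : Prop := C.ty i ≠ Ty.vn ∧ Tch P.S i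

/-- The variable of the node forces the edge of its left slot. -/
def ZL {m : ℕ} (C : Ch m) (P : Pat m) (i : Fin (m + 1)) : Prop :=
  (P.H i = 1 ∧ C.fl i = false) ∨ (P.H i = -1 ∧ C.fl i = true)

/-- The variable of the node forces the edge of its right slot. -/
def ZR {m : ℕ} (C : Ch m) (P : Pat m) (i : Fin (m + 1)) : Prop :=
  (P.H i = 1 ∧ C.fl i = true) ∨ (P.H i = -1 ∧ C.fl i = false)

/-- The piece seen from a node. -/
def View (T Z : Prop) (pc : Pc) : Prop :=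
  (T → pc.frcT) ∧ (¬ T → Z → pc.frcZ) ∧ (¬ T → ¬ Z → pc.free)

theorem Pc.In_mir {pc : Pc} {d η : ℝ} {y : ℂ} {w : ℝ} : pc.mir.In d η y w ↔ pc.In d η y w := by
  cases pc <;> rfl

theorem Pc.std_mir {pc : Pc} (h : pc.std) : pc.mir = pc := by
  cases pc <;> first | rfl | exact absurd h (by simp [Pc.std])

theorem Pc.In_conj {pc : Pc} {d η : ℝ} {y : ℂ} {w : ℝ} (h : pc.In d η y w) :
    pc.In d (-η) (conj y) w := by
  have huc : ∀ x : ℝ, x ∈ Set.uIcc 0 η → -x ∈ Set.uIcc 0 (-η) := by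
    intro x hx
    rw [Set.mem_uIcc] at hx ⊢
    rcases hx with ⟨h1, h2⟩ | ⟨h1, h2⟩
    · right
      constructor <;> linarith
    · left
      constructor <;> linarith
  cases pc <;> simp only [Pc.In, conj_re, conj_im, abs_neg, neg_mul_neg] at h ⊢ <;>
    first
    | exact h
    | (obtain ⟨h1, h2, h3⟩ := h; exact ⟨h1, by simp [h2], h3⟩)
    | (obtain ⟨h1, h2, h3⟩ := h; exact ⟨h1, h2, huc _ h3⟩)

theorem LimR_conj {x0 x1 d η : ℝ} {z : ℂ} {w : ℝ} (h : LimR x0 x1 d η z w) :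
    LimR x0 x1 d (-η) (conj z) w := by
  have huc : ∀ x : ℝ, x ∈ Set.uIcc 0 η → -x ∈ Set.uIcc 0 (-η) := by
    intro x hx
    rw [Set.mem_uIcc] at hx ⊢
    rcases hx with ⟨h1, h2⟩ | ⟨h1, h2⟩
    · right
      constructor <;> linarith
    · left
      constructor <;> linarith
  unfold LimR at h ⊢
  rw [conj_re, conj_im, abs_neg]
  rcases h with ⟨h1, h2, h3⟩ | ⟨h1, h2, h3⟩ | h | h
  · exact Or.inl ⟨h1, by rw [h2], h3⟩
  · exact Or.inr (Or.inl ⟨h1, h2, huc _ h3⟩)
  · exact Or.inr (Or.inr (Or.inl h))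
  · exact Or.inr (Or.inr (Or.inr h))

theorem LimV_neg_conj {ν x1 : ℝ} {v : ℂ} (h : LimV ν x1 v) : LimV ν x1 (-conj v) := by
  unfold LimV at h ⊢
  rw [neg_re, neg_im, conj_re, conj_im, neg_neg, abs_neg]
  exact h

/-- The edges which are forced by variables of nodes. -/
def RzOK {m : ℕ} (C : Ch m) (K : Cn m) (y : Fin m → ℂ) (j : Fin m) (pc : Pc) : Prop :=
  (pc = .rz .own ∨ pc = .rz .both → C.ty j.castSucc = Ty.zn ∧ K.z1 j.castSucc ≤ (y j).re) ∧
    (pc = .rz .far ∨ pc = .rz .both → C.ty j.succ = Ty.zn ∧ K.z1 j.succ ≤ (y j).re)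

theorem RzOK_of {m : ℕ} {C : Ch m} {K : Cn m} {y : Fin m → ℂ} {j : Fin m} {pc : Pc}
    (h : ∀ f, pc ≠ .rz f) : RzOK C K y j pc := by
  constructor
  · rintro (h0 | h0)
    · exact absurd h0 (h _)
    · exact absurd h0 (h _)
  · rintro (h0 | h0)
    · exact absurd h0 (h _)
    · exact absurd h0 (h _)

/-- The edges which are forced by small indices. -/
def ReOK {m : ℕ} (C : Ch m) (j : Fin m) (pc : Pc) : Prop :=
  (pc = .re .own ∨ pc = .re .both → C.ty j.castSucc ≠ Ty.vn ∧ 0 < (j : ℕ)) ∧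
    (pc = .re .far ∨ pc = .re .both → C.ty j.succ ≠ Ty.vn ∧ (j : ℕ) + 1 < m)

theorem ReOK_of {m : ℕ} {C : Ch m} {j : Fin m} {pc : Pc} (h : ∀ f, pc ≠ .re f) : ReOK C j pc := by
  constructor
  · rintro (h0 | h0)
    · exact absurd h0 (h _)
    · exact absurd h0 (h _)
  · rintro (h0 | h0)
    · exact absurd h0 (h _)
    · exact absurd h0 (h _)

theorem TT.left {m : ℕ} {C : Ch m} {P : Pat m} {j : Fin m} (hj : j ∉ P.S)
    (h : TT C P j.castSucc) : C.ty j.castSucc ≠ Ty.vn ∧ 0 < (j : ℕ) := by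
  refine ⟨h.1, ?_⟩
  rcases (Tch_iff P.S j.castSucc).1 h.2 with ⟨h1, -⟩ | h1
  · exact h1.1
  · exact absurd ((lowE_succ P.S j).1 h1) hj

theorem TT.right {m : ℕ} {C : Ch m} {P : Pat m} {j : Fin m} (hj : j ∉ P.S)
    (h : TT C P j.succ) : C.ty j.succ ≠ Ty.vn ∧ (j : ℕ) + 1 < m := by
  refine ⟨h.1, ?_⟩
  rcases (Tch_iff P.S j.succ).1 h.2 with h1 | ⟨h1, -⟩
  · exact absurd ((lowE_succ P.S j).1 h1) hj
  · have := h1.2
    rw [Fin.val_succ] at this
    omega

/-- **The pieces of the edges.** -/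
theorem exists_pcs {m : ℕ} {C : Ch m} {K : Cn m} {P : Pat m} {o : Fin (m + 1) → ℂ}
    {y : Fin m → ℂ} {wo : Fin (m + 1) → ℝ} {wy : Fin m → ℝ} (hP : P.OK C) (hd : K.d = 3 / 20)
    (hz1 : ∀ i, C.ty i = Ty.zn → 7 / 20 ≤ K.z1 i) (h : AdmC C K P o y wo wy) (j : Fin m) :
    ∃ pc : Pc, pc.In (3 / 20) (K.yc j).im (y j) (wy j) ∧ (RzOK C K y j pc ∧ ReOK C j pc) ∧
      (j ∈ P.S → pc = .lo) ∧
      (j ∉ P.S → View (TT C P j.castSucc) (ZR C P j.castSucc) pc ∧
        View (TT C P j.succ) (ZL C P j.succ) pc.mir) := by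
  classical
  by_cases hj : j ∈ P.S
  · obtain ⟨h1, h2, h3, h4⟩ := h.low j hj
    exact ⟨.lo, ⟨h4, h1, h2, h3⟩, ⟨RzOK_of (by simp), ReOK_of (by simp)⟩, fun _ => rfl,
      fun h0 => absurd hj h0⟩
  have hne : ∀ i, P.H i ≠ 0 → C.ty i ≠ Ty.vn := by
    intro i h0 h1
    have := (hP.H i h0).1
    rw [h1] at this
    exact absurd this (by simp)
  have hys : ∀ i : Fin (m + 1), j.castSucc = i → (IsYs C i j ↔ C.fl i = true) := by
    intro i hi
    subst hi
    unfold IsYs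
    by_cases hf : C.fl j.castSucc = true
    · rw [if_pos hf]
      simp [hf]
    · rw [if_neg hf]
      constructor
      · intro h0
        have := congrArg Fin.val h0
        simp at this
      · intro h0
        exact absurd h0 hf
  have hyt : ∀ i : Fin (m + 1), j.castSucc = i → (IsYt C i j ↔ C.fl i = false) := by
    intro i hi
    subst hi
    unfold IsYt
    by_cases hf : C.fl j.castSucc = true
    · rw [if_pos hf]
      constructor
      · intro h0
        have := congrArg Fin.val h0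
        simp at this
      · intro h0
        rw [hf] at h0
        exact absurd h0 (by simp)
    · rw [if_neg hf]
      simp [hf]
  have hys' : ∀ i : Fin (m + 1), j.succ = i → (IsYs C i j ↔ C.fl i = false) := by
    intro i hi
    subst hi
    unfold IsYs
    by_cases hf : C.fl j.succ = true
    · rw [if_pos hf]
      constructor
      · intro h0
        have := congrArg Fin.val h0
        simp at this
      · intro h0
        rw [hf] at h0
        exact absurd h0 (by simp)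
    · rw [if_neg hf]
      simp [hf]
  have hyt' : ∀ i : Fin (m + 1), j.succ = i → (IsYt C i j ↔ C.fl i = true) := by
    intro i hi
    subst hi
    unfold IsYt
    by_cases hf : C.fl j.succ = true
    · rw [if_pos hf]
      simp [hf]
    · rw [if_neg hf]
      constructor
      · intro h0
        have := congrArg Fin.val h0
        simp at this
      · intro h0
        exact absurd h0 hf
  -- the values
  have hH0 : ∀ i, P.H i = 1 → P.H i ≠ 0 := by
    intro i h0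
    rw [h0]
    decide
  have hH1 : ∀ i, P.H i = -1 → P.H i ≠ 0 := by
    intro i h0
    rw [h0]
    decide
  have hprt : (TT C P j.castSucc ∨ ZR C P j.castSucc ∨ TT C P j.succ ∨ ZL C P j.succ) →
      Prt C P j := by
    rintro (⟨h1, h2⟩ | (⟨h1, h2⟩ | ⟨h1, h2⟩) | ⟨h1, h2⟩ | (⟨h1, h2⟩ | ⟨h1, h2⟩))
    · exact ⟨hj, _, Or.inl rfl, h1, Or.inl h2⟩
    · exact ⟨hj, _, Or.inl rfl, hne _ (hH0 _ h1), Or.inr (Or.inl ⟨h1, (hys _ rfl).2 h2⟩)⟩
    · exact ⟨hj, _, Or.inl rfl, hne _ (hH1 _ h1), Or.inr (Or.inr ⟨h1, (hyt _ rfl).2 h2⟩)⟩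
    · exact ⟨hj, _, Or.inr rfl, h1, Or.inl h2⟩
    · exact ⟨hj, _, Or.inr rfl, hne _ (hH0 _ h1), Or.inr (Or.inl ⟨h1, (hys' _ rfl).2 h2⟩)⟩
    · exact ⟨hj, _, Or.inr rfl, hne _ (hH1 _ h1), Or.inr (Or.inr ⟨h1, (hyt' _ rfl).2 h2⟩)⟩
  have hnprt : ¬ (TT C P j.castSucc ∨ ZR C P j.castSucc ∨ TT C P j.succ ∨ ZL C P j.succ) →
      ¬ Prt C P j := by
    rintro h0 ⟨-, i, h1 | h1, h2, h3 | ⟨h3, h4⟩ | ⟨h3, h4⟩⟩
    · subst h1
      exact h0 (Or.inl ⟨h2, h3⟩)
    · subst h1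
      exact h0 (Or.inr (Or.inl (Or.inl ⟨h3, (hys _ rfl).1 h4⟩)))
    · subst h1
      exact h0 (Or.inr (Or.inl (Or.inr ⟨h3, (hyt _ rfl).1 h4⟩)))
    · subst h1
      exact h0 (Or.inr (Or.inr (Or.inl ⟨h2, h3⟩)))
    · subst h1
      exact h0 (Or.inr (Or.inr (Or.inr (Or.inl ⟨h3, (hys' _ rfl).1 h4⟩))))
    · subst h1
      exact h0 (Or.inr (Or.inr (Or.inr (Or.inr ⟨h3, (hyt' _ rfl).1 h4⟩))))
  by_cases hp : TT C P j.castSucc ∨ ZR C P j.castSucc ∨ TT C P j.succ ∨ ZL C P j.succ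
  · obtain ⟨r1, r2, r3, r4⟩ := h.prt j (hprt hp)
    have hre : ∀ f, (Pc.re f).In (3 / 20) (K.yc j).im (y j) (wy j) := fun f => ⟨r4, r1, r2, r3⟩
    have hzl : ZR C P j.castSucc → C.ty j.castSucc = Ty.zn ∧ K.z1 j.castSucc ≤ (y j).re := by
      intro h0
      have el : ye y (j.castSucc : Fin (m + 1)).val.succ = y j := ye_sc y j
      rcases h0 with ⟨h1, h2⟩ | ⟨h1, h2⟩
      · obtain ⟨k1, k2⟩ := hP.H _ (hH0 _ h1)
        obtain ⟨-, -, k3, -, k4⟩ := h.zp _ k1 k2 h1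
        rw [h2] at k4
        have k5 : ys true (ye y (j.castSucc : Fin (m + 1))) (ye y ((j.castSucc : Fin (m + 1)) + 1)) =
          y j := el
        rw [k5] at k4
        exact ⟨k1, by linarith⟩
      · obtain ⟨k1, k2⟩ := hP.H _ (hH1 _ h1)
        obtain ⟨-, -, -, k3, k4⟩ := h.zq _ k1 k2 h1
        rw [h2] at k4
        have k5 : yt false (ye y (j.castSucc : Fin (m + 1))) (ye y ((j.castSucc : Fin (m + 1)) + 1)) =
          y j := el
        rw [k5] at k4
        exact ⟨k1, by linarith⟩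
    have hzr : ZL C P j.succ → C.ty j.succ = Ty.zn ∧ K.z1 j.succ ≤ (y j).re := by
      intro h0
      have el : ye y ((j.succ : Fin (m + 1)) : ℕ) = y j := by
        rw [Fin.val_succ]
        exact ye_sc y j
      rcases h0 with ⟨h1, h2⟩ | ⟨h1, h2⟩
      · obtain ⟨k1, k2⟩ := hP.H _ (hH0 _ h1)
        obtain ⟨-, -, k3, -, k4⟩ := h.zp _ k1 k2 h1
        rw [h2] at k4
        have k5 : ys false (ye y (j.succ : Fin (m + 1))) (ye y ((j.succ : Fin (m + 1)) + 1)) =
          y j := el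
        rw [k5] at k4
        exact ⟨k1, by linarith⟩
      · obtain ⟨k1, k2⟩ := hP.H _ (hH1 _ h1)
        obtain ⟨-, -, -, k3, k4⟩ := h.zq _ k1 k2 h1
        rw [h2] at k4
        have k5 : yt true (ye y (j.succ : Fin (m + 1))) (ye y ((j.succ : Fin (m + 1)) + 1)) =
          y j := el
        rw [k5] at k4
        exact ⟨k1, by linarith⟩
    have hrz : (ZR C P j.castSucc ∨ ZL C P j.succ) →
        ∀ f, (Pc.rz f).In (3 / 20) (K.yc j).im (y j) (wy j) := by
      intro h0 f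
      have key : 7 / 20 ≤ (y j).re := by
        rcases h0 with h0 | h0
        · obtain ⟨k1, k2⟩ := hzl h0
          linarith [hz1 _ k1]
        · obtain ⟨k1, k2⟩ := hzr h0
          linarith [hz1 _ k1]
      exact ⟨r4, r1, key, r3⟩
    by_cases t1 : TT C P j.castSucc
    · by_cases t2 : TT C P j.succ
      · exact ⟨.re .both, hre _, ⟨RzOK_of (by simp), fun _ => t1.left hj, fun _ => t2.right hj⟩,
          fun h0 => absurd h0 hj, fun _ =>
          ⟨⟨fun _ => Or.inr rfl, fun h0 => absurd t1 h0, fun h0 => absurd t1 h0⟩,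
            ⟨fun _ => Or.inr rfl, fun h0 => absurd t2 h0, fun h0 => absurd t2 h0⟩⟩⟩
      · exact ⟨.re .own, hre _, ⟨RzOK_of (by simp), fun _ => t1.left hj, by simp⟩,
          fun h0 => absurd h0 hj, fun _ =>
          ⟨⟨fun _ => Or.inl rfl, fun h0 => absurd t1 h0, fun h0 => absurd t1 h0⟩,
            ⟨fun h0 => absurd h0 t2, fun _ _ => Or.inr (Or.inr rfl),
              fun _ _ => Or.inr (Or.inl rfl)⟩⟩⟩
    · by_cases t2 : TT C P j.succ
      · exact ⟨.re .far, hre _, ⟨RzOK_of (by simp), by simp, fun _ => t2.right hj⟩,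
          fun h0 => absurd h0 hj, fun _ =>
          ⟨⟨fun h0 => absurd h0 t1, fun _ _ => Or.inr (Or.inr rfl),
              fun _ _ => Or.inr (Or.inl rfl)⟩,
            ⟨fun _ => Or.inl rfl, fun h0 => absurd t2 h0, fun h0 => absurd t2 h0⟩⟩⟩
      · by_cases z1 : ZR C P j.castSucc
        · by_cases z2 : ZL C P j.succ
          · exact ⟨.rz .both, hrz (Or.inl z1) _, ⟨⟨fun _ => hzl z1, fun _ => hzr z2⟩,
              ReOK_of (by simp)⟩, fun h0 => absurd h0 hj, fun _ =>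
              ⟨⟨fun h0 => absurd h0 t1, fun _ _ => Or.inr (Or.inl rfl), fun _ h0 => absurd z1 h0⟩,
                ⟨fun h0 => absurd h0 t2, fun _ _ => Or.inr (Or.inl rfl),
                  fun _ h0 => absurd z2 h0⟩⟩⟩
          · exact ⟨.rz .own, hrz (Or.inl z1) _, ⟨⟨fun _ => hzl z1, by simp⟩, ReOK_of (by simp)⟩,
              fun h0 => absurd h0 hj, fun _ =>
              ⟨⟨fun h0 => absurd h0 t1, fun _ _ => Or.inl rfl, fun _ h0 => absurd z1 h0⟩,
                ⟨fun h0 => absurd h0 t2, fun _ h0 => absurd h0 z2,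
                  fun _ _ => Or.inr (Or.inr rfl)⟩⟩⟩
        · have z2 : ZL C P j.succ := by
            rcases hp with h0 | h0 | h0 | h0
            · exact absurd h0 t1
            · exact absurd h0 z1
            · exact absurd h0 t2
            · exact h0
          exact ⟨.rz .far, hrz (Or.inr z2) _, ⟨⟨by simp, fun _ => hzr z2⟩, ReOK_of (by simp)⟩,
            fun h0 => absurd h0 hj, fun _ =>
            ⟨⟨fun h0 => absurd h0 t1, fun _ h0 => absurd h0 z1,
                fun _ _ => Or.inr (Or.inr rfl)⟩,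
              ⟨fun h0 => absurd h0 t2, fun _ _ => Or.inl rfl, fun _ h0 => absurd z2 h0⟩⟩⟩
  · have h1 := h.hi j hj (hnprt hp)
    rw [hd] at h1
    obtain ⟨pc, k1, k2⟩ := LimY_In h1
    refine ⟨pc, k2, ⟨RzOK_of (fun f h0 => by rw [h0] at k1; exact k1),
      ReOK_of (fun f h0 => by rw [h0] at k1; exact k1)⟩, fun h0 => absurd h0 hj, fun _ => ?_⟩
    rw [Pc.std_mir k1]
    push Not at hp
    obtain ⟨p1, p2, p3, p4⟩ := hp
    exact ⟨⟨fun h0 => absurd h0 p1, fun _ h0 => absurd h0 p2, fun _ _ => Or.inl k1⟩,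
      ⟨fun h0 => absurd h0 p3, fun _ h0 => absurd h0 p4, fun _ _ => Or.inl k1⟩⟩

end Pool.Agent.S5
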