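import Pool.Agent.S5.I.Rw

/-!
# Rows of an end with `a = 4`: soundness
-/

set_option autoImplicit false

namespace Pool.Agent.S5.Tb

open Pool.Agent.H63.VC3 Pool.Agent.S3 Complex MeasureTheory Filter Topology Set

theorem toC_ok {z : ℤ} {k : ℕ → ℕ → Bool} (h : toC z k = true) :
    ∃ p n : ℕ, (p : ℝ) - n = z ∧ k p n = true := by
  unfold toC at h
  rw [fN_eq, fN_eq] at h
  refine ⟨_, _, ?_, h⟩
  have := Int.toNat_sub_toNat_neg z
  exact_mod_cast this

theorem cl_ok (hE : TabOK) {w : ℕ} {c0 c1 c2 : ℤ} {ta tb sa sb xa xb ha hb : ℕ}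
    (h : cl w c0 c1 c2 ta tb sa sb xa xb ha hb = true) {y v : ℂ} (h1 : Ps ta tb y.re)
    (h2 : Ps sa sb y.im) (h3 : Ps xa xb v.re) (h4 : Ps ha hb v.im) (x1 : |v.re| ≤ 1 / 2)
    (n0 : 0 ≤ v.im) (n1 : v.im ≤ 1 / 4) :
    Vw w y v * 1048576 < (c0 : ℝ) + (c1 : ℝ) * y.re + (c2 : ℝ) * y.im := by
  unfold cl at h
  obtain ⟨p0, m0, e0, h⟩ := toC_ok h
  obtain ⟨p1, m1, e1, h⟩ := toC_ok h
  obtain ⟨p2, m2, e2, h⟩ := toC_ok h
  have key := bb_sound hE h h1 h2 h3 h4
  rw [e0, e1, e2] at key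
  have k1 : ((6588397 : ℕ) : ℝ) = 6588397 := Nat.cast_ofNat
  have k2 : ((26353589 : ℕ) : ℝ) = 26353589 := Nat.cast_ofNat
  have k3 : ((0 : ℕ) : ℝ) = 0 := Nat.cast_zero
  rw [k1, k2, k3] at key
  have e : ((c0 - 1 : ℤ) : ℝ) = (c0 : ℝ) - 1 := by push_cast; ring
  rw [e] at key
  have g1 := Real.pi_gt_d20
  have g2 := Real.pi_lt_d20
  have a1 : (6588397 - 2 * Real.pi * 1048576) * v.im ≤ 1 / 2 * (1 / 4) := by
    have : 6588397 - 2 * Real.pi * 1048576 ≤ 1 / 2 := by linarith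
    calc (6588397 - 2 * Real.pi * 1048576) * v.im ≤ 1 / 2 * v.im :=
          mul_le_mul_of_nonneg_right this n0
      _ ≤ 1 / 2 * (1 / 4) := by linarith
  have a2 : (8 * Real.pi * 1048576 - 26353589) * (v.re * v.im) ≤ 1 * (1 / 2 * (1 / 4)) := by
    have b1 : 0 ≤ 8 * Real.pi * 1048576 - 26353589 := by linarith
    have b2 : 8 * Real.pi * 1048576 - 26353589 ≤ 1 := by linarith
    have b3 : v.re * v.im ≤ 1 / 2 * (1 / 4) := by
      calc v.re * v.im ≤ |v.re| * v.im := mul_le_mul_of_nonneg_right (le_abs_self _) n0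
        _ ≤ 1 / 2 * (1 / 4) := mul_le_mul x1 n1 n0 (by norm_num)
    calc (8 * Real.pi * 1048576 - 26353589) * (v.re * v.im) ≤
          (8 * Real.pi * 1048576 - 26353589) * (1 / 2 * (1 / 4)) := mul_le_mul_of_nonneg_left b3 b1
      _ ≤ 1 * (1 / 2 * (1 / 4)) := by linarith
  unfold Vw gn
  linarith

/-- The real pieces. -/
theorem vr_ok (hE : TabOK) {w : ℕ} {c0 c1 c2 : ℤ} {ta tb sa sb : ℕ}
    (h : vr w c0 c1 c2 ta tb sa sb = true) {y v : ℂ} (h1 : Ps ta tb y.re)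
    (h2 : Ps sa sb y.im) (h3 : v.im = 0) (h4 : 3 / 10 ≤ |v.re|) (h5 : |v.re| ≤ 1 / 2) :
    Vw w y v * 1048576 < (c0 : ℝ) + (c1 : ℝ) * y.re + (c2 : ℝ) * y.im := by
  unfold vr at h
  have c := cond_and h
  have hh : Ps 102400 102400 v.im := by
    rw [h3]
    constructor <;> norm_num
  rcases le_total 0 v.re with h6 | h6
  · rw [abs_of_nonneg h6] at h4 h5
    refine cl_ok hE c.1 h1 h2 ⟨?_, ?_⟩ hh (by rw [abs_of_nonneg h6]; exact h5) h3.ge
      (by rw [h3]; norm_num)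
    · have : ((110080 : ℕ) : ℝ) = 110080 := Nat.cast_ofNat
      rw [this]
      linarith
    · have : ((115200 : ℕ) : ℝ) = 115200 := Nat.cast_ofNat
      rw [this]
      linarith
  · rw [abs_of_nonpos h6] at h4 h5
    refine cl_ok hE c.2 h1 h2 ⟨?_, ?_⟩ hh (by rw [abs_of_nonpos h6]; exact h5) h3.ge
      (by rw [h3]; norm_num)
    · have : ((89600 : ℕ) : ℝ) = 89600 := Nat.cast_ofNat
      rw [this]
      linarith
    · have : ((94720 : ℕ) : ℝ) = 94720 := Nat.cast_ofNat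
      rw [this]
      linarith

/-- The whole contour. -/
theorem vf_ok (hE : TabOK) {w : ℕ} {c0 c1 c2 : ℤ} {ta tb sa sb n0 n1 : ℕ}
    (h : vf w c0 c1 c2 ta tb sa sb n0 n1 = true) {ν : ℝ} (hn : Ps n0 n1 ν) (hn0 : 102400 < n0)
    (hn1 : n1 ≤ 108800) {y v : ℂ} (h1 : Ps ta tb y.re)
    (h2 : Ps sa sb y.im) (hv : LimV ν (3 / 10) v) :
    Vw w y v * 1048576 < (c0 : ℝ) + (c1 : ℝ) * y.re + (c2 : ℝ) * y.im := by
  unfold vf at h
  obtain ⟨d1, h⟩ := cond_and h
  obtain ⟨d2, h⟩ := cond_and h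
  obtain ⟨d3, d4⟩ := cond_and h
  have q0 : (102400 : ℝ) < n0 := by exact_mod_cast hn0
  have q1 : (n1 : ℝ) ≤ 108800 := by exact_mod_cast hn1
  have r0 := hn.1
  have r1 := hn.2
  have k1 : ((110080 : ℕ) : ℝ) = 110080 := Nat.cast_ofNat
  have k2 : ((94720 : ℕ) : ℝ) = 94720 := Nat.cast_ofNat
  have k3 : ((102400 : ℕ) : ℝ) = 102400 := Nat.cast_ofNat
  rcases hv with ⟨v1, v2⟩ | ⟨v1, v2, v3⟩ | ⟨v1, v2, v3⟩
  · have := abs_le.1 v2
    refine cl_ok hE d1 h1 h2 ⟨?_, ?_⟩ (by rw [v1]; exact hn) (by linarith) (by linarith)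
      (by linarith)
    · rw [k2]; linarith
    · rw [k1]; linarith
  · rcases le_total 0 v.re with h6 | h6
    · rw [abs_of_nonneg h6] at v1
      refine cl_ok hE d2 h1 h2 ⟨?_, ?_⟩ ⟨?_, ?_⟩ (by rw [v1, abs_of_pos (by norm_num)]; norm_num) v2
        (by linarith)
      · rw [k1, v1]; norm_num
      · rw [k1, v1]; norm_num
      · rw [k3]; linarith
      · linarith
    · rw [abs_of_nonpos h6] at v1
      have v4 : v.re = -(3 / 10) := by linarith
      refine cl_ok hE d3 h1 h2 ⟨?_, ?_⟩ ⟨?_, ?_⟩ (by rw [v4, abs_neg, abs_of_pos (by norm_num)]; norm_num)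
        v2 (by linarith)
      · rw [k2, v4]; norm_num
      · rw [k2, v4]; norm_num
      · rw [k3]; linarith
      · linarith
  · exact vr_ok hE d4 h1 h2 v1 v2 v3

section

variable {g : Gd}

/-- Good data. -/
structure GOK (g : Gd) : Prop where
  a0 : 40 ≤ g.a
  a1 : g.a ≤ 90
  b0 : -90 ≤ g.b
  b1 : g.b ≤ 90
  n0 : 102400 < g.n0
  n1 : g.n1 ≤ 108800

/-- Good data. -/
def gok (g : Gd) : Bool :=
  decide (40 ≤ g.a ∧ g.a ≤ 90 ∧ -90 ≤ g.b ∧ g.b ≤ 90 ∧ 102400 < g.n0 ∧ g.n1 ≤ 108800)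

theorem GOK_of (h : gok g = true) : GOK g := by
  unfold gok at h
  obtain ⟨h1, h2, h3, h4, h7, h8⟩ := of_decide_eq_true h
  exact ⟨h1, h2, h3, h4, h7, h8⟩

theorem GOK.tp (h : GOK g) : (g.tp : ℝ) = 102400 + 128 * g.a := by
  have h0 := h.a0
  have : ((Int.toNat (102400 + 128 * g.a) : ℕ) : ℤ) = 102400 + 128 * g.a :=
    Int.toNat_of_nonneg (by omega)
  unfold Gd.tp
  exact_mod_cast this

theorem GOK.sp (h : GOK g) : (g.sp : ℝ) = 102400 + 128 * g.b := by
  have h0 := h.b0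
  have : ((Int.toNat (102400 + 128 * g.b) : ℕ) : ℤ) = 102400 + 128 * g.b :=
    Int.toNat_of_nonneg (by omega)
  unfold Gd.sp
  exact_mod_cast this

theorem y0_re : g.y0.re = g.a / 200 := by
  unfold Gd.y0
  rw [Pool.Agent.S5.line_re]

theorem y0_im : g.y0.im = g.b / 200 := by
  unfold Gd.y0
  rw [Pool.Agent.S5.line_im]

/-- The plane at `y`. -/
theorem pla_eq (w : ℝ) (ys vs y : ℂ) (g : Gd) : pla w ys vs y = pla w ys vs g.y0 +
    (ly w ys vs).re * (y.re - g.a / 200) - (ly w ys vs).im * (y.im - g.b / 200) := by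
  unfold pla
  have e : (ly w ys vs * (y - ys)).re = (ly w ys vs * (g.y0 - ys)).re +
      (ly w ys vs * (y - g.y0)).re := by
    rw [← add_re]
    congr 1
    ring
  have e2 : (ly w ys vs * (y - g.y0)).re =
      (ly w ys vs).re * (y.re - g.a / 200) - (ly w ys vs).im * (y.im - g.b / 200) := by
    rw [mul_re, sub_re, sub_im, y0_re, y0_im]
  rw [e, e2]
  ring

variable {w : ℝ} {ys vs : ℂ}

/-- The slope, left of the point of normalization. -/
theorem P4.left (h : P4 w g ys vs) {t : ℝ} (ht : t ≤ g.a / 200) :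
    200 * (g.l1 : ℝ) * t - g.l1 * g.a ≤ (ly w ys vs).re * (t - g.a / 200) * 1048576 := by
  have := mul_le_mul_of_nonneg_right h.l1 (sub_nonneg.2 ht)
  linarith

/-- The slope, right of the point of normalization. -/
theorem P4.right (h : P4 w g ys vs) {t : ℝ} (ht : g.a / 200 ≤ t) :
    200 * (g.l0 : ℝ) * t - g.l0 * g.a ≤ (ly w ys vs).re * (t - g.a / 200) * 1048576 := by
  have := mul_le_mul_of_nonneg_right h.l0 (sub_nonneg.2 ht)
  linarith

/-- The plane on flats, from the bound of the slope. -/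
theorem flat_bd (h : P4 w g ys vs) {y : ℂ} {l : ℤ} {H : ℤ} {c0 c1 c2 : ℤ} {V : ℝ} (hy : y.im = ys.im)
    (hl : 200 * (l : ℝ) * y.re - l * g.a ≤ (ly w ys vs).re * (y.re - g.a / 200) * 1048576)
    (e0 : c0 = g.vF + H - l * g.a + g.k * g.b) (e1 : c1 = 200 * l) (e2 : c2 = -(200 * g.k))
    (hV : V * 1048576 < (c0 : ℝ) + (c1 : ℝ) * y.re + (c2 : ℝ) * y.im) :
    (V - pla w ys vs y) * 1048576 < H := by
  have hF := h.vF
  rw [pla_eq w ys vs y g, hy]
  rw [e0, e1, e2, hy] at hV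
  push_cast at hV
  linarith

/-- The plane on legs. -/
theorem leg_bd (h : P4 w g ys vs) {y : ℂ} {l m : ℤ} {H : ℤ} {c0 c1 c2 : ℤ} {V : ℝ}
    (hl : 200 * (l : ℝ) * y.re - l * g.a ≤ (ly w ys vs).re * (y.re - g.a / 200) * 1048576)
    (hm : (ly w ys vs).im * (y.im - g.b / 200) * 1048576 ≤ 200 * (m : ℝ) * y.im - m * g.b)
    (e0 : c0 = g.v0 + H - l * g.a + m * g.b) (e1 : c1 = 200 * l) (e2 : c2 = -(200 * m))
    (hV : V * 1048576 < (c0 : ℝ) + (c1 : ℝ) * y.re + (c2 : ℝ) * y.im) :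
    (V - pla w ys vs y) * 1048576 < H := by
  have hF := h.v0
  rw [pla_eq w ys vs y g]
  rw [e0, e1, e2] at hV
  push_cast at hV
  linarith

/-- The frozen plane. -/
noncomputable def plf (w : ℝ) (ys vs y : ℂ) : ℝ :=
  pla w ys vs y.re - (w - 2) * (hh (1 / 2 - ys)).im * y.im + Real.pi * |y.im|

/-- The plane on the rectangle. -/
theorem box_bd (h : P4 w g ys vs) {y : ℂ} {l x : ℤ} {H : ℤ} {V : ℝ}
    (hl : 200 * (l : ℝ) * y.re - l * g.a ≤ (ly w ys vs).re * (y.re - g.a / 200) * 1048576)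
    (hx : (x : ℝ) * y.im ≤ (Real.pi * |y.im| - (w - 2) * (hh (1 / 2 - ys)).im * y.im) * 1048576)
    (hV : V * 1048576 < ((cB g H l : ℤ) : ℝ) + ((200 * l : ℤ) : ℝ) * y.re + (x : ℝ) * y.im) :
    (V - plf w ys vs y) * 1048576 < H := by
  have hF := h.v0
  have hm : (((cond (decide (0 ≤ g.b)) g.m0 g.m1) * g.b : ℤ) : ℝ) ≤
      (ly w ys vs).im * (g.b / 200) * 1048576 := by
    rcases le_or_gt 0 g.b with hb | hb
    · have e : cond (decide (0 ≤ g.b)) g.m0 g.m1 = g.m0 := by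
        rw [decide_eq_true hb]
        rfl
      rw [e]
      have hb' : (0 : ℝ) ≤ g.b := by exact_mod_cast hb
      have := mul_le_mul_of_nonneg_right h.m0 hb'
      push_cast
      linarith
    · have e : cond (decide (0 ≤ g.b)) g.m0 g.m1 = g.m1 := by
        rw [decide_eq_false (not_le.2 hb)]
        rfl
      rw [e]
      have hb' : (g.b : ℝ) ≤ 0 := by exact_mod_cast hb.le
      have := mul_le_mul_of_nonpos_right h.m1 hb'
      push_cast
      linarith
  unfold plf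
  rw [pla_eq w ys vs (y.re : ℂ) g, ofReal_re, ofReal_im]
  unfold cB at hV
  have e3 : ((g.v0 + H - l * g.a + (cond (decide (0 ≤ g.b)) g.m0 g.m1) * g.b : ℤ) : ℝ) =
      (g.v0 : ℝ) + H - l * g.a + (((cond (decide (0 ≤ g.b)) g.m0 g.m1) * g.b : ℤ) : ℝ) := by
    push_cast
    ring
  rw [e3] at hV
  have e4 : ((200 * l : ℤ) : ℝ) = 200 * (l : ℝ) := by push_cast; ring
  rw [e4] at hV
  linarith

theorem nat_c {n : ℕ} [n.AtLeastTwo] : ((OfNat.ofNat n : ℕ) : ℝ) = OfNat.ofNat n := Nat.cast_ofNat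

theorem rG_ok (hE : TabOK) (hG : GOK g) {w : ℕ} {h : ℤ} {ta tb : ℕ} (hc : rG w g h ta tb = true)
    (hP : P4 w g ys vs) {y v : ℂ} (hy : y.im = ys.im) (ht : Ps ta tb y.re) (h2 : y.re ≤ 3 / 20)
    (hv : LimV vs.im (3 / 10) v) : (Vw w y v - pla w ys vs y) * 1048576 < h := by
  unfold rG at hc
  have h0 : (40 : ℝ) ≤ g.a := by exact_mod_cast hG.a0
  refine flat_bd hP hy (hP.left (by linarith)) rfl rfl rfl
    (vf_ok hE hc hP.n hG.n0 hG.n1 ht (by rw [hy]; exact hP.e) hv)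

theorem rF_ok (hE : TabOK) (hG : GOK g) {w : ℕ} {h : ℤ} (hc : rF w g h = true)
    (hP : P4 w g ys vs) {y v : ℂ} (hy : y.im = ys.im) (h1 : 3 / 20 ≤ y.re) (h2 : y.re ≤ 1 / 2)
    (v1 : v.im = 0) (v2 : 3 / 10 ≤ |v.re|) (v3 : |v.re| ≤ 1 / 2) :
    (Vw w y v - pla w ys vs y) * 1048576 < h := by
  unfold rF at hc
  obtain ⟨c1, c2⟩ := cond_and hc
  have htp := hG.tp
  have k1 : ((106240 : ℕ) : ℝ) = 106240 := Nat.cast_ofNat
  have k2 : ((115200 : ℕ) : ℝ) = 115200 := Nat.cast_ofNat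
  rcases le_total y.re ((g.a : ℝ) / 200) with h3 | h3
  · refine flat_bd hP hy (hP.left h3) rfl rfl rfl
      (vr_ok hE c1 ⟨?_, ?_⟩ (by rw [hy]; exact hP.e) v1 v2 v3)
    · rw [k1]; linarith
    · rw [htp]; linarith
  · refine flat_bd hP hy (hP.right h3) rfl rfl rfl
      (vr_ok hE c2 ⟨?_, ?_⟩ (by rw [hy]; exact hP.e) v1 v2 v3)
    · rw [htp]; linarith
    · rw [k2]; linarith

theorem rL_ok (hE : TabOK) (hG : GOK g) {w : ℕ} {h l : ℤ} {t : ℕ} (hc : rL w g h l t = true)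
    (hP : P4 w g ys vs) {y v : ℂ} (ht : Ps t t y.re)
    (hl : 200 * (l : ℝ) * y.re - l * g.a ≤ (ly w ys vs).re * (y.re - g.a / 200) * 1048576)
    (hy : y.im ∈ uIcc 0 ys.im) (hv : LimV vs.im (3 / 10) v) :
    (Vw w y v - pla w ys vs y) * 1048576 < h := by
  unfold rL at hc
  obtain ⟨c1, c2⟩ := cond_and hc
  have hsp := hG.sp
  have e0 := hP.e.1
  have e1 := hP.e.2
  have k3 : ((102400 : ℕ) : ℝ) = 102400 := Nat.cast_ofNat
  have lo : ((mn g.e0 102400 : ℕ) : ℝ) ≤ y.im * 25600 + 102400 := by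
    rw [mn_eq, Nat.cast_min, k3]
    rcases le_total 0 ys.im with h0 | h0
    · rw [uIcc_of_le h0] at hy
      exact (min_le_right _ _).trans (by linarith [hy.1])
    · rw [uIcc_of_ge h0] at hy
      exact (min_le_left _ _).trans (by linarith [hy.1])
  have hi : y.im * 25600 + 102400 ≤ ((mx g.e1 102400 : ℕ) : ℝ) := by
    rw [mx_eq, Nat.cast_max, k3]
    rcases le_total 0 ys.im with h0 | h0
    · rw [uIcc_of_le h0] at hy
      exact le_trans (by linarith [hy.2]) (le_max_left _ _)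
    · rw [uIcc_of_ge h0] at hy
      exact le_trans (by linarith [hy.2]) (le_max_right _ _)
  rcases le_total y.im ((g.b : ℝ) / 200) with h3 | h3
  · refine leg_bd hP hl ?_ rfl rfl rfl (vf_ok hE c1 hP.n hG.n0 hG.n1 ht ⟨lo, ?_⟩ hv)
    · have := mul_le_mul_of_nonpos_right hP.m0 (sub_nonpos.2 h3)
      linarith
    · rw [hsp]; linarith
  · refine leg_bd hP hl ?_ rfl rfl rfl (vf_ok hE c2 hP.n hG.n0 hG.n1 ht ⟨?_, hi⟩ hv)
    · have := mul_le_mul_of_nonneg_right hP.m1 (sub_nonneg.2 h3)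
      linarith
    · rw [hsp]; linarith

theorem cU_ok {w : ℕ} (hw : w = 1 ∨ w = 2 ∨ w = 3) (hP : P4 w g ys vs) {s : ℝ} (hs : 0 ≤ s) :
    ((cU w g : ℤ) : ℝ) * s ≤
      (Real.pi * |s| - ((w : ℝ) - 2) * (hh (1 / 2 - ys)).im * s) * 1048576 := by
  have hp := pi_gt'
  rw [abs_of_nonneg hs]
  have h1 := mul_le_mul_of_nonneg_right hp.le hs
  rcases hw with rfl | rfl | rfl
  · have q := mul_le_mul_of_nonneg_right (hP.q0 (by norm_num)) hs
    have e : cU 1 g = 3294198 + g.q0 := rfl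
    rw [e]
    push_cast
    linarith
  · have e : cU 2 g = 3294198 + 0 := rfl
    rw [e]
    push_cast
    linarith
  · have q := mul_le_mul_of_nonneg_right (hP.q1 (by norm_num)) hs
    have e : cU 3 g = 3294198 + -g.q1 := rfl
    rw [e]
    push_cast
    linarith

theorem cD_ok {w : ℕ} (hw : w = 1 ∨ w = 2 ∨ w = 3) (hP : P4 w g ys vs) {s : ℝ} (hs : s ≤ 0) :
    ((cD w g : ℤ) : ℝ) * s ≤
      (Real.pi * |s| - ((w : ℝ) - 2) * (hh (1 / 2 - ys)).im * s) * 1048576 := by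
  have hp := pi_gt'
  rw [abs_of_nonpos hs]
  have h1 := mul_le_mul_of_nonneg_right hp.le (neg_nonneg.2 hs)
  rcases hw with rfl | rfl | rfl
  · have q := mul_le_mul_of_nonpos_right (hP.q1 (by norm_num)) hs
    have e : cD 1 g = -3294198 + g.q1 := rfl
    rw [e]
    push_cast
    linarith
  · have e : cD 2 g = -3294198 + 0 := rfl
    rw [e]
    push_cast
    linarith
  · have q := mul_le_mul_of_nonpos_right (hP.q0 (by norm_num)) hs
    have e : cD 3 g = -3294198 + -g.q0 := rfl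
    rw [e]
    push_cast
    linarith

theorem bX_ok (hE : TabOK) (hG : GOK g) {w : ℕ} (hw : w = 1 ∨ w = 2 ∨ w = 3) {c : Bool} {h l : ℤ}
    {ta tb sa sb : ℕ} (hc : bX c w g h l ta tb sa sb = true)
    (hP : P4 w g ys vs) {y v : ℂ} (ht : Ps ta tb y.re)
    (hl : 200 * (l : ℝ) * y.re - l * g.a ≤ (ly w ys vs).re * (y.re - g.a / 200) * 1048576)
    (hy : if c = true then 0 ≤ y.im * ys.im else y.im * ys.im ≤ 0)
    (hs1 : 0 ≤ y.im → Ps sa 106240 y.im) (hs2 : y.im ≤ 0 → Ps 98560 sb y.im)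
    (hv : LimV vs.im (3 / 10) v) :
    (Vw w y v - plf w ys vs y) * 1048576 < h := by
  unfold bX at hc
  obtain ⟨c1, c2⟩ := cond_and hc
  have e0 := hP.e.1
  have e1 := hP.e.2
  -- the upper half
  have up : 0 ≤ y.im → (0 ≤ ys.im ∧ c = true) ∨ (ys.im ≤ 0 ∧ c = false) →
      (Vw w y v - plf w ys vs y) * 1048576 < h := by
    intro h1 h2
    have hb : cond c (Nat.ble 102400 g.e1) (Nat.ble g.e0 102400) = true := by
      rcases h2 with ⟨h2, h3⟩ | ⟨h2, h3⟩
      · rw [h3, cond_true]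
        apply Nat.ble_eq_true_of_le
        have : (102400 : ℝ) ≤ g.e1 := by linarith
        exact_mod_cast this
      · rw [h3, cond_false]
        apply Nat.ble_eq_true_of_le
        have : (g.e0 : ℝ) ≤ 102400 := by linarith
        exact_mod_cast this
    rw [hb, cond_true] at c1
    unfold bU at c1
    exact box_bd hP hl (cU_ok hw hP h1) (vf_ok hE c1 hP.n hG.n0 hG.n1 ht (hs1 h1) hv)
  have dn : y.im ≤ 0 → (0 ≤ ys.im ∧ c = false) ∨ (ys.im ≤ 0 ∧ c = true) →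
      (Vw w y v - plf w ys vs y) * 1048576 < h := by
    intro h1 h2
    have hb : cond c (Nat.ble g.e0 102400) (Nat.ble 102400 g.e1) = true := by
      rcases h2 with ⟨h2, h3⟩ | ⟨h2, h3⟩
      · rw [h3, cond_false]
        apply Nat.ble_eq_true_of_le
        have : (102400 : ℝ) ≤ g.e1 := by linarith
        exact_mod_cast this
      · rw [h3, cond_true]
        apply Nat.ble_eq_true_of_le
        have : (g.e0 : ℝ) ≤ 102400 := by linarith
        exact_mod_cast this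
    rw [hb, cond_true] at c2
    unfold bD at c2
    exact box_bd hP hl (cD_ok hw hP h1) (vf_ok hE c2 hP.n hG.n0 hG.n1 ht (hs2 h1) hv)
  cases c with
  | true =>
    rw [if_pos rfl] at hy
    rcases le_total 0 ys.im with h0 | h0
    · rcases le_total 0 y.im with h1 | h1
      · exact up h1 (Or.inl ⟨h0, rfl⟩)
      · rcases h1.eq_or_lt with h2 | h2
        · exact up h2.ge (Or.inl ⟨h0, rfl⟩)
        · have h3 : ys.im ≤ 0 := by
            by_contra h4
            have := mul_neg_of_neg_of_pos h2 (not_le.1 h4)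
            linarith
          exact dn h1 (Or.inr ⟨h3, rfl⟩)
    · rcases le_total 0 y.im with h1 | h1
      · rcases h1.eq_or_lt with h2 | h2
        · exact dn h2.ge (Or.inr ⟨h0, rfl⟩)
        · have h3 : 0 ≤ ys.im := by
            by_contra h4
            have := mul_neg_of_pos_of_neg h2 (not_le.1 h4)
            linarith
          exact up h1 (Or.inl ⟨h3, rfl⟩)
      · exact dn h1 (Or.inr ⟨h0, rfl⟩)
  | false =>
    rw [if_neg (by decide)] at hy
    rcases le_total 0 ys.im with h0 | h0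
    · rcases le_total 0 y.im with h1 | h1
      · rcases h1.eq_or_lt with h2 | h2
        · exact dn h2.ge (Or.inl ⟨h0, rfl⟩)
        · have h3 : ys.im ≤ 0 := by
            by_contra h4
            have := mul_pos h2 (not_le.1 h4)
            linarith
          exact up h1 (Or.inr ⟨h3, rfl⟩)
      · exact dn h1 (Or.inl ⟨h0, rfl⟩)
    · rcases le_total 0 y.im with h1 | h1
      · exact up h1 (Or.inr ⟨h0, rfl⟩)
      · rcases h1.eq_or_lt with h2 | h2
        · exact up h2.ge (Or.inr ⟨h0, rfl⟩)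
        · have h3 : 0 ≤ ys.im := by
            by_contra h4
            have := mul_pos_of_neg_of_neg h2 (not_le.1 h4)
            linarith
          exact dn h1 (Or.inl ⟨h3, rfl⟩)

end

end Pool.Agent.S5.Tb
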