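import Pool.Agent.S5.I.VBn

/-!
# The defects beyond `1/2`, and the elementary inequalities
-/

set_option autoImplicit false

namespace Pool.Agent.S5.VB

open Pool.Agent.H63.VC3 Pool.Agent.S3 Pool.Agent.S5 MeasureTheory Filter Topology Set

/-! ### `Lgd` beyond `1/2` -/

theorem kz {κ z Z : ℝ} (hκ : 99 / 10 ≤ κ) (h0 : 0 ≤ z) (h1 : z ≤ Z) (hZ : Z ≤ 16 / 5)
    (h : 197393 / 10000 * (1 - Z / 6 + Z ^ 2 / 120) ≤
      κ * (2 - Z / 2 + Z ^ 2 / 24 - Z ^ 3 / 720)) :
    197393 / 10000 * (1 - z / 6 + z ^ 2 / 120) ≤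
      κ * (2 - z / 2 + z ^ 2 / 24 - z ^ 3 / 720) := by
  have e : κ * (2 - z / 2 + z ^ 2 / 24 - z ^ 3 / 720) -
      197393 / 10000 * (1 - z / 6 + z ^ 2 / 120) =
      κ * (2 - Z / 2 + Z ^ 2 / 24 - Z ^ 3 / 720) - 197393 / 10000 * (1 - Z / 6 + Z ^ 2 / 120) +
      (Z - z) * (κ * (1 / 2 - (Z + z) / 24) - 197393 / 10000 * (1 / 6 - (Z + z) / 120)) +
      κ * ((Z - z) * (Z ^ 2 + Z * z + z ^ 2) / 720) := by ring
  have h2 : 0 ≤ κ * (1 / 2 - (Z + z) / 24) - 197393 / 10000 * (1 / 6 - (Z + z) / 120) := by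
    have h3 : 0 ≤ 1 / 2 - (Z + z) / 24 := by linarith only [hZ, h1]
    have := mul_le_mul_of_nonneg_right hκ h3
    linarith only [this, hZ, h1]
  have h3 : 0 ≤ Z - z := by linarith only [h1]
  have h4 := mul_nonneg h3 h2
  have h5 : 0 ≤ κ * ((Z - z) * (Z ^ 2 + Z * z + z ^ 2) / 720) := by
    have : 0 ≤ κ := by linarith only [hκ]
    have : 0 ≤ Z := by linarith only [h1, h0]
    positivity
  linarith only [h5, h4, h]

/-- `Lgd s (1/2 + v) ≥ -κ v`. -/
theorem Lgd_half {s v κ E : ℝ} (hκ : 99 / 10 ≤ κ) (h0 : 0 ≤ v) (h1 : v ≤ E) (hE : E ≤ 7 / 25)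
    (h : 197393 / 10000 * (1 - (394785 / 10000 * E ^ 2) / 6 +
      (394785 / 10000 * E ^ 2) ^ 2 / 120) ≤
      κ * (2 - (394785 / 10000 * E ^ 2) / 2 + (394785 / 10000 * E ^ 2) ^ 2 / 24 -
        (394785 / 10000 * E ^ 2) ^ 3 / 720)) :
    -(κ * v) ≤ Lgd s (1 / 2 + v) := by
  have hpi := Real.pi_pos
  have p1 := Real.pi_lt_d6
  have p2 := Real.pi_gt_d6
  set θ := 2 * Real.pi * v with hθ
  have hθ0 : 0 ≤ θ := by positivity
  have hpi2 : Real.pi ^ 2 ≤ 98696066 / 10000000 := by (refine le_of_not_gt fun hng => ?_; linarith only [p2,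
                                                        p1, mul_pos (sub_pos.2 hpi) (sub_pos.2 p1),
                                                        mul_pos (sub_pos.2 hng) (sub_pos.2 p2),
                                                        mul_pos (sub_pos.2 hng) (sub_pos.2 p1)])
  have hz : θ ^ 2 ≤ 394785 / 10000 * E ^ 2 := by
    have e : θ ^ 2 = 4 * Real.pi ^ 2 * v ^ 2 := by rw [hθ]; ring
    rw [e]
    have : v ^ 2 ≤ E ^ 2 := by (refine le_of_not_gt fun hng => ?_; linarith only [mul_nonneg (sub_nonneg.2 h1) (sub_nonneg.2 h1),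
                                 mul_nonneg (sub_nonneg.2 h0) (sub_nonneg.2 h1),
                                 mul_pos (sub_pos.2 hng) (sub_pos.2 p2),
                                 mul_pos (sub_pos.2 hng) (sub_pos.2 p1)])
    have h2 : 0 ≤ v ^ 2 := sq_nonneg v
    linarith only [this, sq_nonneg (E), mul_nonneg (sq_nonneg (v)) (sub_nonneg.2 hpi2)]
  have hZ : 394785 / 10000 * E ^ 2 ≤ 16 / 5 := by
    have : 0 ≤ E := h0.trans h1
    (refine le_of_not_gt fun hng => ?_; linarith only [p2, p1, hE,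
      mul_nonneg (sub_nonneg.2 h1) (sub_nonneg.2 hE),
      mul_nonneg (sub_nonneg.2 h0) (sub_nonneg.2 hE), mul_pos (sub_pos.2 hng) (sub_pos.2 p2),
      mul_pos (sub_pos.2 hng) (sub_pos.2 p1)])
  have h2 := kz hκ (sq_nonneg θ) hz hZ h
  have h3 := tr_s5 hθ0
  have h4 := tr_c6 hθ0
  have e1 : 2 * Real.pi * (1 / 2 + v) = θ + Real.pi := by rw [hθ]; ring
  have h5 : dn s (1 / 2 + v) = Real.cosh (2 * Real.pi * s) + Real.cos θ := by
    unfold dn
    rw [e1, Real.cos_add_pi]
    ring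
  have h6 := Real.one_le_cosh (2 * Real.pi * s)
  have h7 : 0 < 1 + Real.cos θ := by
    have : θ ^ 2 ≤ 16 / 5 := hz.trans hZ
    have := Real.one_sub_sq_div_two_le_cos (x := θ)
    linarith only [this, hZ, hz, p2, p1]
  have h8 : 0 < dn s (1 / 2 + v) := by rw [h5]; linarith only [h7, h6]
  have h9 : 0 ≤ κ := by linarith only [hκ]
  have h10 : Real.pi * Real.sin θ ≤ κ * v * (1 + Real.cos θ) := by
    have h11 : 2 * Real.pi ^ 2 * Real.sin θ ≤ κ * θ * (1 + Real.cos θ) := by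
      have h12 : 2 * Real.pi ^ 2 * Real.sin θ ≤ 197393 / 10000 * (θ * (1 - θ ^ 2 / 6 +
          (θ ^ 2) ^ 2 / 120)) := by
        have h13 : 0 ≤ θ * (1 - θ ^ 2 / 6 + (θ ^ 2) ^ 2 / 120) := by
          apply mul_nonneg hθ0
          have : θ ^ 2 ≤ 16 / 5 := hz.trans hZ
          have : 0 ≤ (θ ^ 2) ^ 2 := sq_nonneg _
          linarith only [this, hZ, hz, p2, p1]
        have h14 : Real.sin θ ≤ θ * (1 - θ ^ 2 / 6 + (θ ^ 2) ^ 2 / 120) := by
          have e : θ * (1 - θ ^ 2 / 6 + (θ ^ 2) ^ 2 / 120) = θ - θ ^ 3 / 6 + θ ^ 5 / 120 := by ring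
          rw [e]; exact h3
        have h15 : 2 * Real.pi ^ 2 * Real.sin θ ≤ 2 * Real.pi ^ 2 * (θ * (1 - θ ^ 2 / 6 +
            (θ ^ 2) ^ 2 / 120)) := mul_le_mul_of_nonneg_left h14 (by positivity)
        have h16 : 2 * Real.pi ^ 2 * (θ * (1 - θ ^ 2 / 6 + (θ ^ 2) ^ 2 / 120)) ≤
            197393 / 10000 * (θ * (1 - θ ^ 2 / 6 + (θ ^ 2) ^ 2 / 120)) :=
          mul_le_mul_of_nonneg_right (by linarith only [hpi2, p2, p1]) h13
        linarith only [h16, h15]
      have h17 : κ * θ * (2 - θ ^ 2 / 2 + (θ ^ 2) ^ 2 / 24 - (θ ^ 2) ^ 3 / 720) ≤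
          κ * θ * (1 + Real.cos θ) := by
        apply mul_le_mul_of_nonneg_left _ (by positivity)
        have e : 2 - θ ^ 2 / 2 + (θ ^ 2) ^ 2 / 24 - (θ ^ 2) ^ 3 / 720 =
          1 + (1 - θ ^ 2 / 2 + θ ^ 4 / 24 - θ ^ 6 / 720) := by ring
        rw [e]
        linarith only [h4]
      have h18 := mul_le_mul_of_nonneg_left h2 hθ0
      have e2 : θ * (κ * (2 - θ ^ 2 / 2 + (θ ^ 2) ^ 2 / 24 - (θ ^ 2) ^ 3 / 720)) =
        κ * θ * (2 - θ ^ 2 / 2 + (θ ^ 2) ^ 2 / 24 - (θ ^ 2) ^ 3 / 720) := by ring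
      have e3 : θ * (197393 / 10000 * (1 - θ ^ 2 / 6 + (θ ^ 2) ^ 2 / 120)) =
        197393 / 10000 * (θ * (1 - θ ^ 2 / 6 + (θ ^ 2) ^ 2 / 120)) := by ring
      rw [e2, e3] at h18
      linarith only [h18, h17, h12]
    have e4 : 2 * Real.pi ^ 2 * Real.sin θ = (2 * Real.pi) * (Real.pi * Real.sin θ) := by ring
    have e5 : κ * θ * (1 + Real.cos θ) = (2 * Real.pi) * (κ * v * (1 + Real.cos θ)) := by
      rw [hθ]; ring
    rw [e4, e5] at h11
    exact le_of_mul_le_mul_left h11 (by positivity)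
  unfold Lgd
  rw [le_div_iff₀ h8, e1, Real.sin_add_pi, h5]
  have h11 : κ * v * (1 + Real.cos θ) ≤ κ * v * (Real.cosh (2 * Real.pi * s) + Real.cos θ) :=
    mul_le_mul_of_nonneg_left (by linarith only [h6]) (by positivity)
  linarith only [h11, h10]

/-- The bound `κ` on `[0, E]`. -/
def KB (κ E : ℝ) : Prop := E ≤ 7 / 25 ∧ ∀ s v : ℝ, 0 ≤ v → v ≤ E → -(κ * v) ≤ Lgd s (1 / 2 + v)

theorem KB_of {κ E : ℝ} (hκ : 99 / 10 ≤ κ) (hE : E ≤ 7 / 25)
    (h : 197393 / 10000 * (1 - (394785 / 10000 * E ^ 2) / 6 +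
      (394785 / 10000 * E ^ 2) ^ 2 / 120) ≤
      κ * (2 - (394785 / 10000 * E ^ 2) / 2 + (394785 / 10000 * E ^ 2) ^ 2 / 24 -
        (394785 / 10000 * E ^ 2) ^ 3 / 720)) : KB κ E :=
  ⟨hE, fun _ _ h0 h1 => Lgd_half hκ h0 h1 hE h⟩

theorem KB_045 : KB (995 / 100) (45 / 1000) := by
  apply KB_of <;> norm_num
theorem KB_060 : KB (10) (60 / 1000) := by
  apply KB_of <;> norm_num
theorem KB_122 : KB (104 / 10) (122 / 1000) := by
  apply KB_of <;> norm_num
theorem KB_120 : KB (1037 / 100) (120 / 1000) := by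
  apply KB_of <;> norm_num
theorem KB_135 : KB (1051 / 100) (135 / 1000) := by
  apply KB_of <;> norm_num
theorem KB_140 : KB (1057 / 100) (140 / 1000) := by
  apply KB_of <;> norm_num
theorem KB_145 : KB (1062 / 100) (145 / 1000) := by
  apply KB_of <;> norm_num
theorem KB_150 : KB (1068 / 100) (150 / 1000) := by
  apply KB_of <;> norm_num
theorem KB_160 : KB (1080 / 100) (160 / 1000) := by
  apply KB_of <;> norm_num
theorem KB_170 : KB (1094 / 100) (170 / 1000) := by
  apply KB_of <;> norm_num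
theorem KB_200 : KB (1143 / 100) (200 / 1000) := by
  apply KB_of <;> norm_num
theorem KB_230 : KB (1210 / 100) (230 / 1000) := by
  apply KB_of <;> norm_num
theorem KB_280 : KB (1374 / 100) (280 / 1000) := by
  apply KB_of <;> norm_num

theorem KB.mono {κ E e : ℝ} (h : KB κ E) (he : e ≤ E) : KB κ e :=
  ⟨he.trans h.1, fun s v h0 h1 => h.2 s v h0 (h1.trans he)⟩

theorem mono_half {s κ E : ℝ} (h : KB κ E) :
    MonotoneOn (fun u => Lg s u + κ / 2 * (u - 1 / 2) ^ 2) (Icc (1 / 2) (1 / 2 + E)) := by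
  have hE := h.1
  have hd : ∀ u ∈ Icc (1 / 2 : ℝ) (1 / 2 + E), HasDerivAt
      (fun u => Lg s u + κ / 2 * (u - 1 / 2) ^ 2) (Lgd s u + κ * (u - 1 / 2)) u := by
    intro u hu
    have h2 : 0 < u := by linarith only [hu.1]
    have h1 := (Lg_hasDerivAt (s := s) (x := u) (Or.inr ⟨h2.ne', by
      rw [abs_of_pos h2]; linarith only [hu.2, hE]⟩)).add
      ((((hasDerivAt_id u).sub_const (1 / 2)).pow 2).const_mul (κ / 2))
    refine h1.congr_deriv ?_
    simp only [id, Nat.cast_ofNat, mul_one]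
    ring
  apply monotoneOn_of_deriv_nonneg (convex_Icc _ _)
  · exact fun u hu => (hd u hu).continuousAt.continuousWithinAt
  · exact fun u hu => (hd u (interior_subset hu)).differentiableAt.differentiableWithinAt
  · intro u hu
    have hu' := interior_subset hu
    rw [(hd u hu').deriv]
    have h1 := h.2 s (u - 1 / 2) (by linarith only [hu'.1]) (by linarith only [hu'.2])
    rw [show 1 / 2 + (u - 1 / 2) = u by ring] at h1
    linarith only [h1]

theorem Lg_half_sub {s κ E u v : ℝ} (h : KB κ E) (h0 : 0 ≤ u) (h1 : u ≤ v) (h2 : v ≤ E) :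
    Lg s (1 / 2 + u) - κ / 2 * (v ^ 2 - u ^ 2) ≤ Lg s (1 / 2 + v) := by
  have := mono_half (s := s) h (show 1 / 2 + u ∈ Icc (1 / 2) (1 / 2 + E) from
    ⟨by linarith only [h0], by linarith only [h2, h1]⟩) (show 1 / 2 + v ∈ Icc (1 / 2) (1 / 2 + E) from
    ⟨by linarith only [h1, h0], by linarith only [h2]⟩) (by linarith only [h1])
  simp only [add_sub_cancel_left] at this
  linarith only [this]

/-- The defect at a point `1/2 + δ` beyond `1/2`. -/
theorem Dd_half_ge {s κ E δ e : ℝ} (h : KB κ E) (h0 : 0 ≤ δ) (h1 : δ ≤ e) (h2 : e ≤ E) :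
    -(κ / 6 * ((e + 2 * δ) * (e - δ) ^ 2)) ≤ Dd s (1 / 2 + δ) (1 / 2 + e) := by
  have e1 : -(κ / 6 * ((e + 2 * δ) * (e - δ) ^ 2)) =
      ∫ u in (1 / 2 + δ)..(1 / 2 + e), -(κ / 2) * ((u - 1 / 2) ^ 2 - δ ^ 2) := by
    rw [intervalIntegral.integral_const_mul, intervalIntegral.integral_sub
      (by exact (by fun_prop : Continuous fun u : ℝ => (u - 1 / 2) ^ 2).intervalIntegrable _ _)
      (by simp), intervalIntegral.integral_const,
      intervalIntegral.integral_comp_sub_right (fun u => u ^ 2) (1 / 2), integral_pow]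
    simp only [smul_eq_mul]
    push_cast
    ring
  rw [e1, Dd_eq]
  apply intervalIntegral.integral_mono_on (by linarith only [h1])
  · exact (by fun_prop : Continuous fun u : ℝ =>
      -(κ / 2) * ((u - 1 / 2) ^ 2 - δ ^ 2)).intervalIntegrable _ _
  · exact (Lg_integrable _ _ _).sub (by simp)
  · intro u hu
    have := Lg_half_sub (s := s) (u := δ) (v := u - 1 / 2) h h0 (by linarith only [hu.1])
      (by linarith only [hu.2, h2])
    rw [show 1 / 2 + (u - 1 / 2) = u by ring] at this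
    linarith only [this]

theorem Lg_le_half {s u : ℝ} (h0 : 0 < u) (h1 : u < 1) : Lg s u ≤ Lg s (1 / 2) := by
  apply Lg_le (dn_pos (Or.inr ⟨h0.ne', by rw [abs_of_pos h0]; exact h1⟩))
  rw [show 2 * Real.pi * (1 / 2) = Real.pi by ring, Real.cos_pi]
  exact Real.neg_one_le_cos _

theorem Dd_half_ge' {s κ E q e : ℝ} (h : KB κ E) (h0 : 0 < q) (h1 : q ≤ 1 / 2) (he : 0 ≤ e)
    (h2 : e ≤ E) : -(κ / 6 * e ^ 3) ≤ Dd s q (1 / 2 + e) := by
  have h3 := Dd_half_ge (s := s) h le_rfl he h2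
  have h4 := Dd_sub s q (1 / 2) (1 / 2 + e)
  have h5 : 0 ≤ Dd s q (1 / 2) := Dd_nonneg_right h0 h1 (by linarith only [h1])
  have h6 : Dd s (1 / 2 + 0) (1 / 2 + e) ≤ ∫ u in (1 / 2)..(1 / 2 + e), (Lg s u - Lg s q) := by
    rw [Dd_eq, add_zero]
    apply intervalIntegral.integral_mono_on (by linarith only [he])
    · exact (Lg_integrable _ _ _).sub (by simp)
    · exact (Lg_integrable _ _ _).sub (by simp)
    · intro u _
      have := Lg_le_half (s := s) h0 (by linarith only [h1])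
      linarith only [this]
  have e1 : κ / 6 * ((e + 2 * 0) * (e - 0) ^ 2) = κ / 6 * e ^ 3 := by ring
  rw [e1] at h3
  linarith only [h6, h5, h4, h3]

/-- Both cases at once. -/
theorem Dp_ge {s κ E q e : ℝ} (h : KB κ E) (h0 : 0 < q) (he : 0 ≤ e)
    (hqe : q - 1 / 2 ≤ e) (h2 : e ≤ E) :
    -(κ / 6 * ((e + 2 * max (q - 1 / 2) 0) * (e - max (q - 1 / 2) 0) ^ 2)) ≤
      Dd s q (1 / 2 + e) := by
  rcases le_total q (1 / 2) with h1 | h1
  · rw [max_eq_right (by linarith only [h1])]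
    have := Dd_half_ge' (s := s) h h0 h1 he h2
    have e1 : κ / 6 * ((e + 2 * 0) * (e - 0) ^ 2) = κ / 6 * e ^ 3 := by ring
    rw [e1]
    exact this
  · rw [max_eq_left (by linarith only [h1])]
    have := Dd_half_ge (s := s) h (δ := q - 1 / 2) (by linarith only [h1]) hqe h2
    rwa [show 1 / 2 + (q - 1 / 2) = q by ring] at this

theorem cube_ge {δ e : ℝ} (h0 : 0 ≤ δ) (h1 : δ ≤ e) : (e + 2 * δ) * (e - δ) ^ 2 ≤ e ^ 3 := by
  have : 0 ≤ δ ^ 2 * (3 * e - 2 * δ) := mul_nonneg (sq_nonneg _) (by linarith only [h1, h0])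
  linarith only [this]

/-- Left of a point beyond `1/2`: quadratic bound. -/
theorem Dd_half_left {s κ E ε w : ℝ} (h : KB κ E) (hκ : 0 ≤ κ) (h0 : 0 ≤ ε) (h1 : ε ≤ E)
    (h2 : w ≤ 1 / 2 + ε) (h3 : 0 < w) :
    -(κ * ε / 2 * (1 / 2 + ε - w) ^ 2) ≤ Dd s (1 / 2 + ε) w := by
  have hE := h.1
  have e1 : -(κ * ε / 2 * (1 / 2 + ε - w) ^ 2) =
      ∫ u in w..(1 / 2 + ε), -(κ * ε) * (1 / 2 + ε - u) := by
    rw [intervalIntegral.integral_const_mul, intervalIntegral.integral_sub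
      (by simp) (by exact continuous_id.intervalIntegrable _ _),
      intervalIntegral.integral_const, integral_id]
    simp only [smul_eq_mul]
    ring
  rw [e1, Dd_eq']
  apply intervalIntegral.integral_mono_on h2
  · exact (by fun_prop : Continuous fun u : ℝ =>
      -(κ * ε) * (1 / 2 + ε - u)).intervalIntegrable _ _
  · exact (by simp : IntervalIntegrable (fun _ : ℝ => Lg s (1 / 2 + ε)) volume w
      (1 / 2 + ε)).sub (Lg_integrable _ _ _)
  · intro u hu
    rcases le_total (1 / 2) u with h4 | h4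
    · have := Lg_half_sub (s := s) (u := u - 1 / 2) (v := ε) h (by linarith only [h4])
        (by linarith only [hu.2]) h1
      rw [show 1 / 2 + (u - 1 / 2) = u by ring] at this
      have h5 : ε ^ 2 - (u - 1 / 2) ^ 2 ≤ 2 * ε * (1 / 2 + ε - u) := by
        linarith only [sq_nonneg (1 / 2 + ε - u)]
      have h6 := mul_le_mul_of_nonneg_left h5 (show 0 ≤ κ / 2 by linarith only [hκ])
      linarith only [h6, this]
    · have h5 := Lg_half_sub (s := s) (u := 0) (v := ε) h le_rfl h0 h1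
      rw [add_zero] at h5
      have h6 := Lg_le_half (s := s) (u := u) (by linarith only [hu.1, h3]) (by linarith only [h4])
      have h7 : κ / 2 * (ε ^ 2 - 0 ^ 2) ≤ κ * ε * (1 / 2 + ε - u) := by
        have : 0 ≤ κ * ε := by positivity
        linarith only [mul_nonneg (sub_nonneg.2 h4) (sub_nonneg.2 this),
          mul_nonneg (sq_nonneg (1 * ε)) (sub_nonneg.2 hκ)]
      linarith only [h7, h6, h5]

/-- Left of a point beyond `1/2`: cubic bound. -/
theorem Dd_half_left' {s κ E ε w : ℝ} (h : KB κ E) (h0 : 0 ≤ ε) (h1 : ε ≤ E)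
    (hE : ε ≤ 1 / 10) (h2 : w ≤ 1 / 2 + ε) (h3 : -(2 * (1 / 2 - ε)) ≤ w) (hw : -1 < w) :
    -(κ * ε ^ 3) ≤ Dd s (1 / 2 + ε) w := by
  -- reflect the base point
  have hL : Lg s (1 / 2 + ε) = Lg s (1 / 2 - ε) := by
    rw [show 1 / 2 + ε = -(1 / 2 - ε) + 1 by ring, Lg_add_one, Lg_neg]
  have e1 : Dd s (1 / 2 + ε) w = Dd s (1 / 2 - ε) w - Dd s (1 / 2 - ε) (1 / 2 + ε) := by
    unfold Dd
    rw [hL]
    ring
  have h5 : Dd s (1 / 2 - ε) (1 / 2 + ε) ≤ κ * ε ^ 3 := by
    have e2 : κ * ε ^ 3 = ∫ _u in (1 / 2 - ε)..(1 / 2 + ε), κ / 2 * ε ^ 2 := by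
      rw [intervalIntegral.integral_const, smul_eq_mul]
      ring
    rw [e2, Dd_eq]
    apply intervalIntegral.integral_mono_on (by linarith only [h0])
    · exact (Lg_integrable _ _ _).sub (by simp)
    · simp
    · intro u hu
      have h6 := Lg_le_half (s := s) (u := u) (by linarith only [hu.1, hE]) (by linarith only [hu.2,
                                                                                  hE])
      have h7 := Lg_half_sub (s := s) (u := 0) (v := ε) h le_rfl h0 h1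
      rw [add_zero, hL] at h7
      linarith only [h7, h6]
  have h6 : 0 ≤ Dd s (1 / 2 - ε) w := by
    rcases le_total w (1 / 2 - ε) with h7 | h7
    · exact Dd_nonneg_left (by linarith only [hE]) (by linarith only [h0]) hw h3 h7
    · exact Dd_nonneg_right (by linarith only [hE]) h7 (by linarith only [h2])
  linarith only [h6, h5, e1]

/-! ### Upper bound -/

/-- Quadratic upper bound. -/
theorem Dd_le_quad {s w0 w m : ℝ} (hd : ∀ u ∈ uIcc w0 w, s ≠ 0 ∨ (u ≠ 0 ∧ |u| < 1))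
    (hm : ∀ u ∈ uIcc w0 w, Lgd s u ≤ m) : Dd s w0 w ≤ m / 2 * (w - w0) ^ 2 := by
  have e : m / 2 * (w - w0) ^ 2 = ∫ u in w0..w, m * (u - w0) := by
    rw [intervalIntegral.integral_const_mul, intervalIntegral.integral_sub
      (by exact continuous_id.intervalIntegrable _ _) (by simp), integral_id,
      intervalIntegral.integral_const]
    simp only [smul_eq_mul]
    ring
  have hdiff : ∀ u ∈ uIcc w0 w, HasDerivAt (fun u => m * u - Lg s u) (m - Lgd s u) u := by
    intro u hu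
    have h2 := ((hasDerivAt_id u).const_mul m).sub (Lg_hasDerivAt (hd u hu))
    refine h2.congr_deriv ?_
    rw [mul_one]
  have hmono : MonotoneOn (fun u => m * u - Lg s u) (uIcc w0 w) := by
    apply monotoneOn_of_deriv_nonneg (convex_uIcc w0 w)
    · exact fun u hu => (hdiff u hu).continuousAt.continuousWithinAt
    · exact fun u hu => (hdiff u (interior_subset hu)).differentiableAt.differentiableWithinAt
    · intro u hu
      rw [(hdiff u (interior_subset hu)).deriv]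
      linarith only [hm u (interior_subset hu)]
  rw [e, Dd_eq]
  rcases le_total w0 w with h | h
  · apply intervalIntegral.integral_mono_on h
    · exact (Lg_integrable _ _ _).sub (by simp)
    · exact (by fun_prop : Continuous fun u : ℝ => m * (u - w0)).intervalIntegrable _ _
    · intro u hu
      have := hmono (left_mem_uIcc) (Icc_subset_uIcc hu) hu.1
      simp only at this
      linarith only [this]
  · rw [intervalIntegral.integral_symm, intervalIntegral.integral_symm w]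
    apply neg_le_neg
    apply intervalIntegral.integral_mono_on h
    · exact (by fun_prop : Continuous fun u : ℝ => m * (u - w0)).intervalIntegrable _ _
    · exact (Lg_integrable _ _ _).sub (by simp)
    · intro u hu
      have := hmono (Icc_subset_uIcc' hu) (left_mem_uIcc) hu.2
      simp only at this
      linarith only [this]

/-- Upper bound of `Lgd`. -/
theorem Lgd_hi {s x γ m : ℝ} (hγ : Real.cos (2 * Real.pi * x) ≤ γ) (h1 : γ < 1)
    (hm : 3141593 / 1000000 ≤ m * (1 - γ)) : Lgd s x ≤ m := by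
  have p1 := Real.pi_lt_d6
  have hpi := Real.pi_pos
  have h2 := Real.one_le_cosh (2 * Real.pi * s)
  have hd : 1 - γ ≤ dn s x := by
    unfold dn
    linarith only [h2, hγ]
  have hd0 : 0 < dn s x := by linarith only [hd, h1]
  have hm0 : 0 ≤ m := by
    by_contra h
    push Not at h
    have : m * (1 - γ) ≤ 0 := mul_nonpos_of_nonpos_of_nonneg h.le (by linarith only [h1])
    linarith only [this, hm]
  unfold Lgd
  rw [div_le_iff₀ hd0]
  have h3 : Real.pi * Real.sin (2 * Real.pi * x) ≤ Real.pi := by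
    have := Real.sin_le_one (2 * Real.pi * x)
    linarith only [mul_nonneg (sub_nonneg.2 hpi.le) (sub_nonneg.2 this)]
  have h4 := mul_le_mul_of_nonneg_left hd hm0
  linarith only [h4, h3, p1, hm]

/-! ### Algebra -/

theorem cs {A B K a b g : ℝ} (hA : 0 < A) (hB : 0 < B) (hK : 0 ≤ K) (hg0 : 0 ≤ g)
    (hg : g ≤ 2 * a + b) (h : K * (4 * B + 2 * A) < A * B) (hab : 0 < a ∨ 0 < b) :
    K * g ^ 2 < A * a ^ 2 + B / 2 * b ^ 2 := by
  have hQ : 0 < A * a ^ 2 + B / 2 * b ^ 2 := by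
    rcases hab with h | h
    · have : 0 ≤ B / 2 * b ^ 2 := by positivity
      have : 0 < A * a ^ 2 := by positivity
      linarith [this]
    · have : 0 ≤ A * a ^ 2 := by positivity
      have : 0 < B / 2 * b ^ 2 := by positivity
      linarith [this]
  have h1 : g ^ 2 ≤ (2 * a + b) ^ 2 := by linarith only [mul_nonneg (sub_nonneg.2 hg) (sub_nonneg.2 hg),
                                            mul_nonneg (sub_nonneg.2 hg0) (sub_nonneg.2 hg)]
  have h2 : A * B * (2 * a + b) ^ 2 ≤ (4 * B + 2 * A) * (A * a ^ 2 + B / 2 * b ^ 2) := by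
    linarith only [sq_nonneg (A * a - B * b)]
  have h3 : A * B * (K * g ^ 2) < A * B * (A * a ^ 2 + B / 2 * b ^ 2) := by
    calc A * B * (K * g ^ 2) = K * (A * B * g ^ 2) := by ring
      _ ≤ K * (A * B * (2 * a + b) ^ 2) := by
          apply mul_le_mul_of_nonneg_left _ hK
          exact mul_le_mul_of_nonneg_left h1 (by positivity)
      _ ≤ K * ((4 * B + 2 * A) * (A * a ^ 2 + B / 2 * b ^ 2)) := mul_le_mul_of_nonneg_left h2 hK
      _ = K * (4 * B + 2 * A) * (A * a ^ 2 + B / 2 * b ^ 2) := by ring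
      _ < A * B * (A * a ^ 2 + B / 2 * b ^ 2) := mul_lt_mul_of_pos_right h hQ
  exact lt_of_mul_lt_mul_left h3 (by positivity)

/-- The minimum on the boundary `a = a0`. -/
theorem cb {A B a b a0 b1 : ℝ} (hA : 0 ≤ A) (hB : 0 ≤ B) (ha : a0 ≤ a) (hb1 : 0 ≤ b1)
    (hb : b1 - 2 * (a - a0) ≤ b) (h : B * b1 ≤ A * a0) :
    A * a0 ^ 2 + B / 2 * b1 ^ 2 ≤ A * a ^ 2 + B / 2 * b ^ 2 := by
  have h1 : b1 ^ 2 - 4 * b1 * (a - a0) ≤ b ^ 2 := by
    linarith only [mul_nonneg hb1 (sub_nonneg.2 hb), sq_nonneg (b - b1)]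
  have h2 := mul_le_mul_of_nonneg_left h1 (show 0 ≤ B / 2 by linarith only [hB])
  have h3 : 0 ≤ (A * a0 - B * b1) * (a - a0) := mul_nonneg (by linarith only [h]) (by linarith only [ha])
  have h4 : 0 ≤ A * (a - a0) ^ 2 := by positivity
  linarith only [h4, h3, h2]

end Pool.Agent.S5.VB
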