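import Pool.Agent.S5.I.NDefs
import Pool.Agent.S5.I.VB1

/-!
# The saddle certificate

The node functions minus their tangent planes at the critical point, bounded with the tangent plane
at any other base point (a saddle argument: down on horizontal lines, up on vertical lines).
-/

set_option autoImplicit false

namespace Pool.Agent.S5

open Pool.Agent.H63.VC3 Pool.Agent.S3 Complex MeasureTheory Filter Topology Set

/-- The corner: the real part of `w0`, the imaginary part of `w`. -/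
noncomputable def cr (w0 w : ℂ) : ℂ := (w0.re : ℂ) + w.im * I

theorem cr_re (w0 w : ℂ) : (cr w0 w).re = w0.re := by simp [cr]

theorem cr_im (w0 w : ℂ) : (cr w0 w).im = w.im := by simp [cr]

/-- The hypothesis on an angle. -/
def An (e : ℝ) (w0 w : ℂ) : Prop := -e ≤ Td w0 (cr w0 w) - Td w (cr w0 w)

/-- Up on vertical lines. -/
theorem Td_vert {w0 w : ℂ} (h0 : 0 < w0.re) (h1 : w0.re ≤ 1 / 2) : 0 ≤ Td w0 (cr w0 w) := by
  unfold cr
  set g : ℝ → ℝ := fun s : ℝ => Td w0 ((w0.re : ℂ) + s * I) with hg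
  have hc : ConvexOn ℝ univ g := Td_convex h0.le h1
  have hd : HasDerivAt g 0 w0.im := by
    have h2 := neg_Rf_hasDerivAt_im h0 (by linarith) w0.im
    have e : g = fun s : ℝ => (-Rf ((w0.re : ℂ) + s * I)) + (Rf w0 + (-(hh w0).im) * (s - w0.im)) := by
      funext s
      rw [hg]
      simp only [Td]
      have e1 : hh w0 * ((w0.re : ℂ) + s * I - w0) = hh w0 * I * ((s - w0.im : ℝ) : ℂ) := by
        have e2 : (w0.re : ℂ) + s * I - w0 = I * ((s - w0.im : ℝ) : ℂ) := by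
          apply Complex.ext <;> simp
        rw [e2]
        ring
      rw [e1, re_mul_ofReal]
      simp only [mul_re, I_re, I_im, mul_zero, mul_one, zero_sub]
      ring
    rw [e]
    have h3 : HasDerivAt (fun s : ℝ => Rf w0 + (-(hh w0).im) * (s - w0.im)) (-(hh w0).im) w0.im := by
      have := (((hasDerivAt_id w0.im).sub_const w0.im).const_mul (-(hh w0).im)).const_add (Rf w0)
      simpa using this
    refine (h2.add h3).congr_deriv ?_
    rw [re_add_im]
    ring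
  have h00 : g w0.im = 0 := by
    rw [hg]
    simp only [re_add_im, Td_self]
  change 0 ≤ g w.im
  rcases lt_trichotomy w.im w0.im with h | h | h
  · have h4 := hc.slope_le_of_hasDerivAt (mem_univ _) (mem_univ _) h hd
    rw [slope_def_field, h00] at h4
    have h5 : 0 < w0.im - w.im := by linarith
    rw [div_le_iff₀ h5] at h4
    linarith
  · rw [h, h00]
  · have h4 := hc.le_slope_of_hasDerivAt (mem_univ _) (mem_univ _) h hd
    rw [slope_def_field, h00] at h4
    have h5 : 0 < w.im - w0.im := by linarith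
    rw [le_div_iff₀ h5] at h4
    linarith

/-- Angles in the left half of the strip. -/
theorem An_zero {w0 w : ℂ} (h0 : 0 < w0.re) (h1 : w0.re ≤ 1 / 2) (h2 : 0 < w.re)
    (h3 : w.re ≤ 1 / 2) : An 0 w0 w := by
  unfold An
  have h4 := Td_vert (w := w) h0 h1
  have h5 : Td w (cr w0 w) ≤ 0 :=
    Td_flat (cr_im _ _) (by rw [cr_re]; exact h0.le) (by rw [cr_re]; exact h1) h2 h3
  linarith

/-- Angles a little beyond the middle of the strip. -/
theorem An_half {w0 w : ℂ} {κ ε : ℝ} (hk : VB.KB κ ε) (hκ : 0 ≤ κ) (h0 : 0 < w0.re)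
    (h1 : w0.re ≤ 1 / 2) (h2 : 0 < w.re) (h3 : w.re ≤ 1 / 2 + ε) (hε : 0 ≤ ε) (hε1 : ε ≤ 1 / 10) :
    An (κ * ε ^ 3) w0 w := by
  rcases le_total w.re (1 / 2) with h | h
  · have h4 := An_zero h0 h1 h2 h
    unfold An at h4 ⊢
    have : 0 ≤ κ * ε ^ 3 := by positivity
    linarith
  · unfold An
    have h4 := Td_vert (w := w) h0 h1
    have h5 : Td w (cr w0 w) ≤ κ * ε ^ 3 := by
      rw [Td_eq_Dd (cr_im _ _), cr_re]
      have h6 := VB.Dd_half_left' (s := w.im) (ε := w.re - 1 / 2) (w := w0.re) hk (by linarith)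
        (by linarith) (by linarith) (by linarith) (by linarith) (by linarith)
      rw [show (1 : ℝ) / 2 + (w.re - 1 / 2) = w.re by ring] at h6
      have h7 : (w.re - 1 / 2) ^ 3 ≤ ε ^ 3 := pow_le_pow_left₀ (by linarith) (by linarith) 3
      have h8 := mul_le_mul_of_nonneg_left h7 hκ
      linarith
    linarith

theorem An.mono {e e' : ℝ} {w0 w : ℂ} (h : An e w0 w) (he : e ≤ e') : An e' w0 w := by
  unfold An at *
  linarith

/-! ### The identities with a general base point -/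

theorem Gz3_gen (ys zs bs y z b : ℂ) : Gz3 y z b = Gz3 ys zs bs +
    (l3y ys zs * (y - ys)).re + (l3b zs bs * (b - bs)).re + (l3z ys zs bs * (z - zs)).re +
      Ez3 ys zs bs y z b := by
  unfold Gz3 gB gH qB qH Ez3 Td l3y l3b l3z
  rw [Rf_half_add y, Rf_half_add b, Rf_half_add ys, Rf_half_add bs]
  simp only [Int.cast_neg, Int.cast_one, neg_mul, one_mul, sub_re, add_re, neg_re, mul_re, sub_im,
    add_im, neg_im, mul_im, ofReal_re, ofReal_im, I_re, I_im, div_ofNat_re, div_ofNat_im, one_re,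
    one_im, re_ofNat, im_ofNat, pow_two]
  ring

theorem Gz4_gen (ys zs bs y z b : ℂ) : Gz4 y z b = Gz4 ys zs bs +
    (l4y ys zs * (y - ys)).re + (l4b zs bs * (b - bs)).re + (l4z ys zs bs * (z - zs)).re +
      Ez4 ys zs bs y z b := by
  unfold Gz4 gB gC qB qC Ez4 Td l4y l4b l4z
  rw [Rf_half_add y, Rf_half_add b, Rf_half_add ys, Rf_half_add bs]
  simp only [Int.cast_neg, Int.cast_one, neg_mul, one_mul, sub_re, add_re, neg_re, mul_re, sub_im,
    add_im, neg_im, mul_im, ofReal_re, ofReal_im, I_re, I_im, div_ofNat_re, div_ofNat_im, one_re,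
    one_im, re_ofNat, im_ofNat, pow_two]
  ring

/-- The plane at the corner, seen from the base point. -/
theorem re_mul_cr (l w0 w : ℂ) : (l * (cr w0 w - w0)).re = -(l.im * (w.im - w0.im)) := by
  have e : cr w0 w - w0 = I * ((w.im - w0.im : ℝ) : ℂ) := by
    unfold cr
    apply Complex.ext <;> simp
  rw [e, ← mul_assoc, re_mul_ofReal]
  simp only [mul_re, I_re, I_im, mul_zero, mul_one, zero_sub]
  ring

/-- Differences. -/
theorem re_mul_sub3 (l u v w : ℂ) : (l * (u - v)).re = (l * (u - w)).re + (l * (w - v)).re := by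
  rw [← add_re]
  congr 1
  ring

theorem cr_half_sub (w0 w : ℂ) : cr (1 / 2 - w0) (1 / 2 - w) = 1 / 2 - cr w0 w := by
  unfold cr
  apply Complex.ext <;> simp

theorem cr_add_half (w0 w : ℂ) : cr (w0 + 1 / 2) (w + 1 / 2) = cr w0 w + 1 / 2 := by
  unfold cr
  apply Complex.ext <;> simp

theorem cr_sub (u0 u w0 w : ℂ) : cr (u0 - w0) (u - w) = cr u0 u - cr w0 w := by
  unfold cr
  apply Complex.ext <;> simp

theorem cr_add (u0 u w0 w : ℂ) : cr (u0 + w0) (u + w) = cr u0 u + cr w0 w := by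
  unfold cr
  apply Complex.ext <;> simp

/-! ### The certificates -/

/-- The saddle certificate of a closed node. -/
theorem sad_cl {a0 b0 as bs : ℂ} (a b ah bh : ℂ) {e1 e2 e3 : ℝ}
    (h1 : An e1 (1 / 2 - a0) (1 / 2 - as)) (h2 : An e2 (1 / 2 - b0) (1 / 2 - bs))
    (h3 : An e3 (a0 + b0) (as + bs)) :
    Ecl as bs a b + (lcl as bs * (a - ah)).re + (lcl bs as * (b - bh)).re ≤
      Ecl a0 b0 a b + (lcl a0 b0 * (a - a0)).re + (lcl b0 a0 * (b - b0)).re +
        ((lcl a0 b0).im * (as.im - a0.im) - (lcl as bs * (ah - cr a0 as)).re) +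
        ((lcl b0 a0).im * (bs.im - b0.im) - (lcl bs as * (bh - cr b0 bs)).re) +
        (2 * e1 + 2 * e2 + e3) := by
  have g1 := Gcl_eq as bs a b
  have g2 := Gcl_eq a0 b0 a b
  have g3 := Gcl_eq as bs (cr a0 as) (cr b0 bs)
  have g4 := Gcl_eq a0 b0 (cr a0 as) (cr b0 bs)
  rw [re_mul_cr, re_mul_cr] at g4
  have s1 := re_mul_sub3 (lcl as bs) a ah as
  have s2 := re_mul_sub3 (lcl bs as) b bh bs
  have s3 := re_mul_sub3 (lcl as bs) ah (cr a0 as) as
  have s4 := re_mul_sub3 (lcl bs as) bh (cr b0 bs) bs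
  have n1 : (lcl as bs * (as - ah)).re = -(lcl as bs * (ah - as)).re := by
    rw [← neg_re]
    congr 1
    ring
  have n2 : (lcl bs as * (bs - bh)).re = -(lcl bs as * (bh - bs)).re := by
    rw [← neg_re]
    congr 1
    ring
  have n3 : (lcl as bs * (as - cr a0 as)).re = -(lcl as bs * (cr a0 as - as)).re := by
    rw [← neg_re]
    congr 1
    ring
  have n4 : (lcl bs as * (bs - cr b0 bs)).re = -(lcl bs as * (cr b0 bs - bs)).re := by
    rw [← neg_re]
    congr 1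
    ring
  have c1 : Ecl as bs (cr a0 as) (cr b0 bs) = 2 * Td (1 / 2 - as) (1 / 2 - cr a0 as) +
      2 * Td (1 / 2 - bs) (1 / 2 - cr b0 bs) + Td (as + bs) (cr a0 as + cr b0 bs) := by
    unfold Ecl
    have : ((cr a0 as - as) - (cr b0 bs - bs)).im = 0 := by
      simp [cr_im]
    rw [this]
    ring
  have c2 : Ecl a0 b0 (cr a0 as) (cr b0 bs) = 2 * Td (1 / 2 - a0) (1 / 2 - cr a0 as) +
      2 * Td (1 / 2 - b0) (1 / 2 - cr b0 bs) + Td (a0 + b0) (cr a0 as + cr b0 bs) := by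
    unfold Ecl
    have : ((cr a0 as - a0) - (cr b0 bs - b0)).re = 0 := by
      simp [cr_re]
    rw [this]
    ring
  unfold An at h1 h2 h3
  rw [cr_half_sub] at h1 h2
  rw [cr_add] at h3
  linarith

/-- The saddle certificate of a node with three half twists. -/
theorem sad_z3 {y0 z0 b0 ys zs bs : ℂ} (y z b yh bh : ℂ) {e1 e2 e3 e4 e5 : ℝ}
    (h : l3z ys zs bs = 0)
    (h1 : An e1 (1 / 2 - y0) (1 / 2 - ys)) (h2 : An e2 (1 / 2 - b0) (1 / 2 - bs))
    (h3 : An e3 (y0 - z0) (ys - zs)) (h4 : An e4 (z0 + 1 / 2) (zs + 1 / 2))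
    (h5 : An e5 (z0 + b0) (zs + bs)) :
    Ez3 ys zs bs y z b + (l3y ys zs * (y - yh)).re + (l3b zs bs * (b - bh)).re ≤
      Ez3 y0 z0 b0 y z b + (l3y y0 z0 * (y - y0)).re + (l3b z0 b0 * (b - b0)).re +
        (l3z y0 z0 b0 * (z - z0)).re + (l3z y0 z0 b0).im * (zs.im - z0.im) +
        ((l3y y0 z0).im * (ys.im - y0.im) - (l3y ys zs * (yh - cr y0 ys)).re) +
        ((l3b z0 b0).im * (bs.im - b0.im) - (l3b zs bs * (bh - cr b0 bs)).re) +
        (2 * e1 + e2 + e3 + e4 + e5) := by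
  have g1 := Gz3_eq ys zs bs y z b h
  have g2 := Gz3_gen y0 z0 b0 y z b
  have g3 := Gz3_eq ys zs bs (cr y0 ys) (cr z0 zs) (cr b0 bs) h
  have g4 := Gz3_gen y0 z0 b0 (cr y0 ys) (cr z0 zs) (cr b0 bs)
  rw [re_mul_cr, re_mul_cr, re_mul_cr] at g4
  have s1 := re_mul_sub3 (l3y ys zs) y yh ys
  have s2 := re_mul_sub3 (l3b zs bs) b bh bs
  have s3 := re_mul_sub3 (l3y ys zs) yh (cr y0 ys) ys
  have s4 := re_mul_sub3 (l3b zs bs) bh (cr b0 bs) bs
  have n1 : (l3y ys zs * (ys - yh)).re = -(l3y ys zs * (yh - ys)).re := by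
    rw [← neg_re]
    congr 1
    ring
  have n2 : (l3b zs bs * (bs - bh)).re = -(l3b zs bs * (bh - bs)).re := by
    rw [← neg_re]
    congr 1
    ring
  have n3 : (l3y ys zs * (ys - cr y0 ys)).re = -(l3y ys zs * (cr y0 ys - ys)).re := by
    rw [← neg_re]
    congr 1
    ring
  have n4 : (l3b zs bs * (bs - cr b0 bs)).re = -(l3b zs bs * (cr b0 bs - bs)).re := by
    rw [← neg_re]
    congr 1
    ring
  have c1 : Ez3 ys zs bs (cr y0 ys) (cr z0 zs) (cr b0 bs) =
      2 * Td (1 / 2 - ys) (1 / 2 - cr y0 ys) + Td (1 / 2 - bs) (1 / 2 - cr b0 bs) +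
        Td (ys - zs) (cr y0 ys - cr z0 zs) + Td (zs + 1 / 2) (cr z0 zs + 1 / 2) +
          Td (zs + bs) (cr z0 zs + cr b0 bs) := by
    unfold Ez3
    have i1 : (cr y0 ys - ys).im = 0 := by simp [cr_im]
    have i2 : (cr z0 zs - zs).im = 0 := by simp [cr_im]
    have i3 : (cr b0 bs - bs).im = 0 := by simp [cr_im]
    have j1 : (((cr y0 ys - ys) + (cr z0 zs - zs)) ^ 2).im = 0 := by
      rw [pow_two, mul_im, add_im, i1, i2]
      ring
    have j2 : ((cr z0 zs - zs) * (cr b0 bs - bs)).im = 0 := by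
      rw [mul_im, i2, i3]
      ring
    rw [j1, j2]
    ring
  have c2 : Ez3 y0 z0 b0 (cr y0 ys) (cr z0 zs) (cr b0 bs) =
      2 * Td (1 / 2 - y0) (1 / 2 - cr y0 ys) + Td (1 / 2 - b0) (1 / 2 - cr b0 bs) +
        Td (y0 - z0) (cr y0 ys - cr z0 zs) + Td (z0 + 1 / 2) (cr z0 zs + 1 / 2) +
          Td (z0 + b0) (cr z0 zs + cr b0 bs) := by
    unfold Ez3
    have i1 : (cr y0 ys - y0).re = 0 := by simp [cr_re]
    have i2 : (cr z0 zs - z0).re = 0 := by simp [cr_re]
    have i3 : (cr b0 bs - b0).re = 0 := by simp [cr_re]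
    have j1 : (((cr y0 ys - y0) + (cr z0 zs - z0)) ^ 2).im = 0 := by
      rw [pow_two, mul_im, add_re, i1, i2]
      ring
    have j2 : ((cr z0 zs - z0) * (cr b0 bs - b0)).im = 0 := by
      rw [mul_im, i2, i3]
      ring
    rw [j1, j2]
    ring
  unfold An at h1 h2 h3 h4 h5
  rw [cr_half_sub] at h1 h2
  rw [cr_sub] at h3
  rw [cr_add_half] at h4
  rw [cr_add] at h5
  linarith

/-- The saddle certificate of a node with four half twists. -/
theorem sad_z4 {y0 z0 b0 ys zs bs : ℂ} (y z b yh bh : ℂ) {e1 e2 e3 e5 : ℝ}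
    (h : l4z ys zs bs = 0)
    (h1 : An e1 (1 / 2 - y0) (1 / 2 - ys)) (h2 : An e2 (1 / 2 - b0) (1 / 2 - bs))
    (h3 : An e3 (y0 - z0) (ys - zs)) (h5 : An e5 (z0 + b0) (zs + bs)) :
    Ez4 ys zs bs y z b + (l4y ys zs * (y - yh)).re + (l4b zs bs * (b - bh)).re ≤
      Ez4 y0 z0 b0 y z b + (l4y y0 z0 * (y - y0)).re + (l4b z0 b0 * (b - b0)).re +
        (l4z y0 z0 b0 * (z - z0)).re + (l4z y0 z0 b0).im * (zs.im - z0.im) +
        ((l4y y0 z0).im * (ys.im - y0.im) - (l4y ys zs * (yh - cr y0 ys)).re) +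
        ((l4b z0 b0).im * (bs.im - b0.im) - (l4b zs bs * (bh - cr b0 bs)).re) +
        (2 * e1 + 2 * e2 + e3 + e5) := by
  have g1 := Gz4_eq ys zs bs y z b h
  have g2 := Gz4_gen y0 z0 b0 y z b
  have g3 := Gz4_eq ys zs bs (cr y0 ys) (cr z0 zs) (cr b0 bs) h
  have g4 := Gz4_gen y0 z0 b0 (cr y0 ys) (cr z0 zs) (cr b0 bs)
  rw [re_mul_cr, re_mul_cr, re_mul_cr] at g4
  have s1 := re_mul_sub3 (l4y ys zs) y yh ys
  have s2 := re_mul_sub3 (l4b zs bs) b bh bs
  have s3 := re_mul_sub3 (l4y ys zs) yh (cr y0 ys) ys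
  have s4 := re_mul_sub3 (l4b zs bs) bh (cr b0 bs) bs
  have n1 : (l4y ys zs * (ys - yh)).re = -(l4y ys zs * (yh - ys)).re := by
    rw [← neg_re]
    congr 1
    ring
  have n2 : (l4b zs bs * (bs - bh)).re = -(l4b zs bs * (bh - bs)).re := by
    rw [← neg_re]
    congr 1
    ring
  have n3 : (l4y ys zs * (ys - cr y0 ys)).re = -(l4y ys zs * (cr y0 ys - ys)).re := by
    rw [← neg_re]
    congr 1
    ring
  have n4 : (l4b zs bs * (bs - cr b0 bs)).re = -(l4b zs bs * (cr b0 bs - bs)).re := by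
    rw [← neg_re]
    congr 1
    ring
  have c1 : Ez4 ys zs bs (cr y0 ys) (cr z0 zs) (cr b0 bs) =
      2 * Td (1 / 2 - ys) (1 / 2 - cr y0 ys) + 2 * Td (1 / 2 - bs) (1 / 2 - cr b0 bs) +
        Td (ys - zs) (cr y0 ys - cr z0 zs) + Td (zs + bs) (cr z0 zs + cr b0 bs) := by
    unfold Ez4
    have i1 : (cr y0 ys - ys).im = 0 := by simp [cr_im]
    have i2 : (cr z0 zs - zs).im = 0 := by simp [cr_im]
    have i3 : (cr b0 bs - bs).im = 0 := by simp [cr_im]
    have j1 : (((cr y0 ys - ys) + (cr z0 zs - zs)) ^ 2).im = 0 := by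
      rw [pow_two, mul_im, add_im, i1, i2]
      ring
    have j2 : (((cr z0 zs - zs) - (cr b0 bs - bs)) ^ 2).im = 0 := by
      rw [pow_two, mul_im, sub_im, i2, i3]
      ring
    rw [j1, j2]
    ring
  have c2 : Ez4 y0 z0 b0 (cr y0 ys) (cr z0 zs) (cr b0 bs) =
      2 * Td (1 / 2 - y0) (1 / 2 - cr y0 ys) + 2 * Td (1 / 2 - b0) (1 / 2 - cr b0 bs) +
        Td (y0 - z0) (cr y0 ys - cr z0 zs) + Td (z0 + b0) (cr z0 zs + cr b0 bs) := by
    unfold Ez4
    have i1 : (cr y0 ys - y0).re = 0 := by simp [cr_re]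
    have i2 : (cr z0 zs - z0).re = 0 := by simp [cr_re]
    have i3 : (cr b0 bs - b0).re = 0 := by simp [cr_re]
    have j1 : (((cr y0 ys - y0) + (cr z0 zs - z0)) ^ 2).im = 0 := by
      rw [pow_two, mul_im, add_re, i1, i2]
      ring
    have j2 : (((cr z0 zs - z0) - (cr b0 bs - b0)) ^ 2).im = 0 := by
      rw [pow_two, mul_im, sub_re, i2, i3]
      ring
    rw [j1, j2]
    ring
  unfold An at h1 h2 h3 h5
  rw [cr_half_sub] at h1 h2
  rw [cr_sub] at h3
  rw [cr_add] at h5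
  linarith

end Pool.Agent.S5
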