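import Pool.Agent.S5.I.TbDef
import Pool.Agent.S5.I.NumLd

/-!
# The check of the rows of the table: the program
-/

set_option autoImplicit false

namespace Pool.Agent.S5.Tb

open Pool.Agent.S5.Num

/-- `|u - v| + e ≤ t`. -/
def clB (u v e t : Nat) : Bool := Nat.ble (Nat.add (ds' u v) e) t

/-- The check of the bound of the cotangent; `V` is a lower bound of `|1 - w| ^ 2`, `W` an upper
bound of `|w|`. -/
def ckk (k V W : Nat) : Bool :=
  cond (Nat.ble 1 V) (Nat.ble (Nat.mul 25266187520 (Nat.add V (Nat.mul 1125899906842624 W)))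
    (Nat.mul 10000000 (Nat.mul (Nat.mul k k) V))) false

/-- The check of one entry. -/
def ckE (W N i j e : Nat) : Bool :=
  cond (Nat.ble N 1000) (bsK i j 200 (fun c d a b M =>
    cond (ckk (kE e) (Nat.sub (Nat.add (Nat.mul a a) (Nat.mul b b))
      (Nat.mul 1024 (Nat.add (Nat.add a b) 1024))) W)
    (ltv i j 200 a b M (fun l t eL _ _ _ =>
      cond (clB t (Nat.add 4503599627370496 (Nat.mul 268435456 (tE e))) eL 1073741824)
      (cond (clB (Nat.add l 2251799813685248)
        (Nat.add 4503599627370496 (Nat.mul 268435456 (lE e))) eL 1073741824)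
      (ser c d (fun _ a' b' s =>
        fN (fun n => fN (fun p => fN (fun er => cond (Nat.ble n p)
          (clB 4503599627370496 (Nat.add (Nat.sub p n) (Nat.mul 268435456 (qE e))) er 8589934592)
          false)
        (rfe N c d a' b')) (rfp N i j 200)) (rfn j 200 s)) N 1 c d 0) false) false)) false)) false

/-- The check of the entries `i0 ≤ i < i0 + n` of a row; `R` is the row shifted, `L` the list of the
numbers of terms, 10 bits each. -/
def ckR (W j : Nat) (n : Nat) : Nat → Nat → Nat → Bool :=
  Nat.rec (fun _ _ _ => true) (fun _ ih i R L =>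
    cond (ckE W (Nat.mod L 1024) i j (Nat.mod R 1208925819614629174706176))
      (fN (fun i => fN (fun R => fN (fun L => ih i R L) (Nat.shiftRight L 10))
        (Nat.shiftRight R 80)) (Nat.succ i)) false) n

/-- `|w|` on the row. -/
def Wj (j : Nat) (k : Nat → Bool) : Bool :=
  wst 0 j 200 (fun c _ => fN k (Nat.add (Nat.sub c 4503599627370496) 512))

/-- The check of a row. -/
def rowK (j i0 n R L : Nat) : Bool := Wj j (fun W => ckR W j n i0 (Nat.shiftRight R (Nat.mul 80 i0)) L)

theorem ckR_succ (W j n i R L : Nat) : ckR W j (n + 1) i R L =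
    cond (ckE W (Nat.mod L 1024) i j (Nat.mod R 1208925819614629174706176))
      (fN (fun i => fN (fun R => fN (fun L => ckR W j n i R L) (Nat.shiftRight L 10))
        (Nat.shiftRight R 80)) (Nat.succ i)) false := by
  unfold ckR
  with_reducible rfl

end Pool.Agent.S5.Tb
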