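import Pool.Agent.S5.I.TbDef

/-!
# Branch and bound for the slot functions: the program

Positions are natural numbers, in units of `1 / 25600`, with the origin at `102400`; the points of the table
are the multiples of `128`. Signed values are differences of two natural numbers, in units of `2 ^ (-20)`.
-/

set_option autoImplicit false

namespace Pool.Agent.S5.Tb

/-- Evaluation of a natural number before it is used. -/
@[reducible] def fN {α : Type} (f : Nat → α) (n : Nat) : α :=
  Nat.rec (f 0) (fun m _ => f (Nat.succ m)) n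

def mx (a b : Nat) : Nat := cond (Nat.ble a b) b a
def mn (a b : Nat) : Nat := cond (Nat.ble a b) a b

/-- The nearest point of the table. -/
def ctr (a b : Nat) : Nat := Nat.div (Nat.add (Nat.add a b) 128) 256

/-- Linear term: the maximum of `(p - n) d` for `-l ≤ d ≤ h`. -/
def lin (p n l h : Nat) : Nat :=
  cond (Nat.ble n p) (Nat.mul (Nat.sub p n) h) (Nat.mul (Nat.sub n p) l)

/-- The data of the table at the point `(a, b)`, `a ≤ 200`: `-Rf` and `Im he` as differences. -/
def dat {α : Type} (a b : Nat) (k : Nat → Nat → Nat → Nat → Nat → α) : α :=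
  cond (Nat.ble a 100)
    (fN (fun e => fN (fun q => fN (fun t => fN (fun l => k q 0 t 0 l) (lE e)) (tE e)) (qE e))
      (ent a b))
    (fN (fun e => fN (fun q => fN (fun t => fN (fun l => k 0 q 0 t l) (lE e)) (tE e)) (qE e))
      (ent (Nat.sub 200 a) b))

/-- The value and the derivatives at a point: `b` is the distance from the real line, `up` is true in the
upper half plane. -/
def atv {α : Type} (Gu b : Nat) (up : Bool) (k : Nat → Nat → Nat → Nat → Nat → α) : α :=
  cond (Nat.ble 800 Gu)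
    (dat (Nat.sub Gu 800) b (fun qp qn tp tn l => cond up (k qp qn l tp tn) (k qp qn l tn tp)))
    (dat (Nat.sub Gu 600) b (fun qp qn tp tn l =>
      fN (fun vp => cond up (k vp qn l (Nat.add tp 3294199) tn) (k vp qn l tn (Nat.add tp 3294199)))
        (Nat.add qp (Nat.succ (Nat.div (Nat.mul 3294199 b) 200)))))

/-- The same, left of zero, if the imaginary part changes its sign. -/
def atx {α : Type} (Gu b sm : Nat) (up : Bool) (k : Nat → Nat → Nat → Nat → Nat → α) : α :=
  dat (Nat.sub Gu 600) b (fun qp qn tp tn l =>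
    fN (fun vp => cond up (k vp qn l tp tn) (k vp qn l tn tp))
      (Nat.add qp (Nat.succ (Nat.div (Nat.mul 3294199 sm) 25600))))

/-- The quadratic term. -/
def quo (K lu hu ls hs : Nat) : Nat :=
  Nat.succ (Nat.div (Nat.mul (Nat.mul K (Nat.add (Nat.mul (mx lu hu) (mx lu hu))
    (Nat.mul (mx ls hs) (mx ls hs)))) 32) 25)

/-- The index of the bound of the second derivative. -/
def kIx (U1 U2 : Nat) : Nat :=
  Nat.div (mn (Nat.add (Nat.sub U1 102400) (Nat.sub 102400 U2))
    (Nat.sub 25600 (mx (Nat.sub U2 102400) (Nat.sub 102400 U1)))) 128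

/-- An atom: `-Rf z` for `z` in the rectangle with `Re z` between `U1` and `U2`,
`Im z` between `S1` and `S2`; the value at the point `(Gu, Gs)` of the table, with the derivatives. -/
def at0 {α : Type} (Gu Gs U1 U2 S1 S2 Q K : Nat) (k : Nat → Nat → Nat → Nat → Nat → Nat → α)
    (z : α) : α :=
  cond (Nat.ble 16383 K) z
    (cond (Nat.ble U1 76800) z
      (cond (Nat.ble 128001 U2) z
        (cond (Nat.ble 108801 S2) z
          (cond (Nat.ble S1 95999) z
            (cond (cond (cond (Nat.ble 102401 S1) true (Nat.ble S2 102399)) true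
                (cond (Nat.ble U1 102400) false (Nat.ble U2 127999)))
              (atv Gu (Nat.add (Nat.sub Gs 800) (Nat.sub 800 Gs))
                (cond (Nat.ble S2 102400) false (Nat.ble 800 Gs))
                (fun vp vn l tp tn => k vp vn l tp tn Q))
              (cond (Nat.ble U2 102399)
                (cond (cond (Nat.ble 102400 S1) true (Nat.ble S2 102400))
                  (atv Gu (Nat.add (Nat.sub Gs 800) (Nat.sub 800 Gs))
                    (cond (Nat.ble S2 102400) false (Nat.ble 800 Gs))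
                    (fun vp vn l tp tn => k vp vn l tp tn Q))
                  (atx Gu (Nat.add (Nat.sub Gs 800) (Nat.sub 800 Gs))
                    (mx (Nat.sub S2 102400) (Nat.sub 102400 S1)) (Nat.ble 800 Gs)
                    (fun vp vn l tp tn => k vp vn l tp tn Q)))
                z))))))

/-- An atom with the bounds near `0` and `1`. -/
def at1 {α : Type} (Gu Gs U1 U2 S1 S2 Q K : Nat) (k : Nat → Nat → Nat → Nat → Nat → Nat → α)
    (z : α) : α :=
  cond (Nat.ble 40000000 Q)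
    (cond (cond (Nat.ble 115200 U1) (cond (Nat.ble U2 128000) (Nat.ble 1 S1) false) false)
        (k 0 0 8388608 0 0 0)
      (cond (cond (cond (Nat.ble U2 104960) (Nat.ble 99840 U1) false)
          (cond (Nat.ble S2 104960) (Nat.ble 99840 S1) false) false)
        (fN (fun i => fN (fun j => cond (Nat.ble (Nat.add i j) 0) (k 0 0 8388608 0 0 0)
              (fN (fun q => k q 0 8388608 0 0 0) (qE (ent i j))))
            (Nat.div (Nat.add (mx (Nat.sub S2 102400) (Nat.sub 102400 S1)) 127) 128))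
          (Nat.div (Nat.add (Nat.sub U2 102400) 127) 128))
        (at0 Gu Gs U1 U2 S1 S2 Q K k z)))
    (at0 Gu Gs U1 U2 S1 S2 Q K k z)

/-- An atom: the rectangle is given by the distances from the point of the table. -/
def atm {α : Type} (Gu Gs lu hu ls hs : Nat) (k : Nat → Nat → Nat → Nat → Nat → Nat → α)
    (z : α) : α :=
  fN (fun U1 => fN (fun U2 => fN (fun S1 => fN (fun S2 =>
    fN (fun K => fN (fun Q => at1 Gu Gs U1 U2 S1 S2 Q K k z) (quo K lu hu ls hs))
      (kE (ent (kIx U1 U2) (mn 50 (Nat.div (Nat.add (Nat.sub S1 102400) (Nat.sub 102400 S2)) 128)))))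
    (Nat.add (Nat.mul 128 Gs) hs)) (Nat.sub (Nat.mul 128 Gs) ls))
    (Nat.add (Nat.mul 128 Gu) hu)) (Nat.sub (Nat.mul 128 Gu) lu)

/-- The choice of the variable, by scores. -/
def pick (a b c d : Nat) : Nat :=
  cond (Nat.ble a b)
    (cond (Nat.ble c d) (cond (Nat.ble b d) 3 1) (cond (Nat.ble b c) 2 1))
    (cond (Nat.ble c d) (cond (Nat.ble a d) 3 0) (cond (Nat.ble a c) 2 0))

/-- The score of a variable. -/
def scr (L l h : Nat) : Nat := Nat.add L (Nat.mul 300 (Nat.mul (Nat.add l h) (Nat.add l h)))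

/-- The last step. -/
def fin (A B Lt Ls Lx Lh lt ht ls hs lx hx lh hh : Nat) : Nat :=
  cond (Nat.ble (Nat.succ (Nat.add A (Nat.add (Nat.add Lt Ls) (Nat.add Lx Lh)))) B) 4
    (pick (scr Lt lt ht) (scr Ls ls hs) (scr Lx lx hx) (scr Lh lh hh))

/-- The last step: all terms. -/
def sm (w c0p c0n c1p c1n c2p c2n c3p c3n c4p c4n c5 Gt Gs Gx Gh lt ht ls hs lx hx lh hh
    vp vn l tp tn Q vp1 vn1 l1 tp1 tn1 Q1 vp2 vn2 l2 tp2 tn2 Q2 : Nat) : Nat :=
  fN (fun A => fN (fun B => fN (fun Lt => fN (fun Ls => fN (fun Lx => fN (fun Lh =>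
    fin A B Lt Ls Lx Lh lt ht ls hs lx hx lh hh)
    (lin (Nat.add (Nat.add tn1 tp2) (Nat.add c4n (Nat.div (Nat.mul c5 Gx) 200)))
      (Nat.add (Nat.add tp1 tn2) (Nat.add c4p (Nat.mul 4 c5))) lh hh))
    (lin (Nat.add l1 (Nat.add c3n (Nat.div (Nat.mul c5 Gh) 200)))
      (Nat.add l2 (Nat.add c3p (Nat.mul 4 c5))) lx hx))
    (lin (Nat.add (Nat.add (Nat.mul w tn) c2n) (Nat.add tp1 tp2))
      (Nat.add (Nat.add (Nat.mul w tp) c2p) (Nat.add tn1 tn2)) ls hs))
    (lin (Nat.add (Nat.add (Nat.mul w l) c1n) 16777216)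
      (Nat.add (Nat.add (Nat.mul w 8388608) c1p) (Nat.add l1 l2)) lt ht))
    (Nat.add (Nat.add (Nat.mul 25600 (Nat.add (Nat.add (Nat.mul w vn) c0p) (Nat.add vn1 vn2)))
        (Nat.mul 128 (Nat.add (Nat.add (Nat.add (Nat.mul c1p Gt) (Nat.mul c2p Gs))
            (Nat.add (Nat.mul c3p Gx) (Nat.mul c4p Gh)))
          (Nat.mul 800 (Nat.add (Nat.add c1n c2n) (Nat.add c3n c4n))))))
      (Nat.mul (Nat.mul 512 c5) (Nat.add Gx Gh))))
    (Nat.add (Nat.add (Nat.mul 25600 (Nat.add (Nat.add (Nat.mul w vp) (Nat.add c0n (Nat.mul 48 w)))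
        (Nat.add (Nat.add vp1 vp2) 100)))
        (Nat.mul 128 (Nat.add (Nat.add (Nat.add (Nat.mul c1n Gt) (Nat.mul c2n Gs))
            (Nat.add (Nat.mul c3n Gx) (Nat.mul c4n Gh)))
          (Nat.mul 800 (Nat.add (Nat.add c1p c2p) (Nat.add c3p c4p))))))
      (Nat.add (Nat.div (Nat.mul (Nat.mul 16 c5) (Nat.add (Nat.mul Gx Gh) 640000)) 25)
        (Nat.add (Nat.add (Nat.div (Nat.mul c5 (Nat.mul (mx lx hx) (mx lh hh))) 25600)
          (Nat.add (mx lx hx) (mx lh hh))) (Nat.add (Nat.mul w Q) (Nat.add Q1 Q2)))))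

/-- The test of a cell: `4` if the inequality holds, the number of a variable otherwise. -/
def tst (w c0p c0n c1p c1n c2p c2n c3p c3n c4p c4n c5 ta tb sa sb xa xb ha hb : Nat) : Nat :=
  fN (fun Gt => fN (fun lt => fN (fun ht => fN (fun Gs => fN (fun ls => fN (fun hs =>
  fN (fun Gx => fN (fun lx => fN (fun hx => fN (fun Gh => fN (fun lh => fN (fun hh =>
    atm (Nat.sub 1700 Gt) (Nat.sub 1600 Gs) ht lt hs ls (fun vp vn l tp tn Q =>
      atm (Nat.sub (Nat.add Gt 800) Gx) (Nat.sub (Nat.add Gs 800) Gh) (Nat.add lt hx) (Nat.add ht lx)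
          (Nat.add ls hh) (Nat.add hs lh) (fun vp1 vn1 l1 tp1 tn1 Q1 =>
        atm (Nat.sub (Nat.add Gt Gx) 800) (Nat.sub (Nat.add Gs Gh) 800) (Nat.add lt lx) (Nat.add ht hx)
            (Nat.add ls lh) (Nat.add hs hh) (fun vp2 vn2 l2 tp2 tn2 Q2 =>
          sm w c0p c0n c1p c1n c2p c2n c3p c3n c4p c4n c5 Gt Gs Gx Gh lt ht ls hs lx hx lh hh
            vp vn l tp tn Q vp1 vn1 l1 tp1 tn1 Q1 vp2 vn2 l2 tp2 tn2 Q2)
        (pick (Nat.add lt ht) (Nat.add ls hs) (Nat.add lx hx) (Nat.add lh hh)))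
      (pick (Nat.add lt ht) (Nat.add ls hs) (Nat.add lx hx) (Nat.add lh hh)))
    (pick (Nat.add lt ht) (Nat.add ls hs) (Nat.add lx hx) (Nat.add lh hh)))
  (Nat.sub hb (Nat.mul 128 Gh))) (Nat.sub (Nat.mul 128 Gh) ha)) (ctr ha hb))
  (Nat.sub xb (Nat.mul 128 Gx))) (Nat.sub (Nat.mul 128 Gx) xa)) (ctr xa xb))
  (Nat.sub sb (Nat.mul 128 Gs))) (Nat.sub (Nat.mul 128 Gs) sa)) (ctr sa sb))
  (Nat.sub tb (Nat.mul 128 Gt))) (Nat.sub (Nat.mul 128 Gt) ta)) (ctr ta tb)

/-- Branch and bound: `T` is the test, `n` the fuel. -/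
def bb (T : Nat → Nat → Nat → Nat → Nat → Nat → Nat → Nat → Nat) (n : Nat) :
    Nat → Nat → Nat → Nat → Nat → Nat → Nat → Nat → Bool :=
  Nat.rec (fun ta tb sa sb xa xb ha hb => Nat.beq (T ta tb sa sb xa xb ha hb) 4)
    (fun _ ih ta tb sa sb xa xb ha hb =>
      fN (fun r => cond (Nat.beq r 4) true
        (cond (Nat.ble r 1)
          (cond (Nat.ble r 0)
            (fN (fun m => cond (ih ta m sa sb xa xb ha hb) (ih m tb sa sb xa xb ha hb) false)
              (Nat.div (Nat.add ta tb) 2))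
            (fN (fun m => cond (ih ta tb sa m xa xb ha hb) (ih ta tb m sb xa xb ha hb) false)
              (Nat.div (Nat.add sa sb) 2)))
          (cond (Nat.ble r 2)
            (fN (fun m => cond (ih ta tb sa sb xa m ha hb) (ih ta tb sa sb m xb ha hb) false)
              (Nat.div (Nat.add xa xb) 2))
            (fN (fun m => cond (ih ta tb sa sb xa xb ha m) (ih ta tb sa sb xa xb m hb) false)
              (Nat.div (Nat.add ha hb) 2)))))
        (T ta tb sa sb xa xb ha hb)) n

end Pool.Agent.S5.Tb
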