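import Pool.Agent.S5.I.Defs

/-!
# The functions `Lg s` and the defects `Dd s w0 w` on horizontal lines
-/

set_option autoImplicit false

namespace Pool.Agent.S5

open Pool.Agent.H63.VC3 Pool.Agent.S3 Complex MeasureTheory Filter Topology Set

/-- The denominator. -/
noncomputable def dn (s x : ℝ) : ℝ := Real.cosh (2 * Real.pi * s) - Real.cos (2 * Real.pi * x)

/-- The derivative of `Lg s`. -/
noncomputable def Lgd (s x : ℝ) : ℝ := Real.pi * Real.sin (2 * Real.pi * x) / dn s x

theorem dn_nonneg (s x : ℝ) : 0 ≤ dn s x := by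
  unfold dn
  linarith [Real.one_le_cosh (2 * Real.pi * s), Real.cos_le_one (2 * Real.pi * x)]

theorem cos_two_pi_lt {x : ℝ} (h0 : x ≠ 0) (h1 : |x| < 1) : Real.cos (2 * Real.pi * x) < 1 := by
  have hpi := Real.pi_pos
  have hx := abs_lt.1 h1
  refine lt_of_le_of_ne (Real.cos_le_one _) fun h => ?_
  rw [Real.cos_eq_one_iff_of_lt_of_lt (by nlinarith) (by nlinarith)] at h
  rcases mul_eq_zero.1 h with h2 | h2
  · linarith
  · exact h0 h2

theorem dn_pos {s x : ℝ} (h : s ≠ 0 ∨ (x ≠ 0 ∧ |x| < 1)) : 0 < dn s x := by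
  unfold dn
  rcases h with h | ⟨h0, h1⟩
  · have h2 : 1 < Real.cosh (2 * Real.pi * s) := by
      rw [Real.one_lt_cosh]
      have := Real.pi_pos
      exact mul_ne_zero (by positivity) h
    linarith [Real.cos_le_one (2 * Real.pi * x)]
  · linarith [Real.one_le_cosh (2 * Real.pi * s), cos_two_pi_lt h0 h1]

theorem norm_two_sin_sq (s x : ℝ) : ‖2 * sin (Real.pi * ((x : ℂ) + s * I))‖ ^ 2 = 2 * dn s x := by
  rw [norm_mul, norm_ofNat, mul_pow, norm_sin_pi_sq]
  unfold dn
  have e1 : 2 * Real.pi * s = 2 * (Real.pi * s) := by ring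
  have e2 : 2 * Real.pi * x = 2 * (Real.pi * x) := by ring
  have h1 := Real.cosh_sq (Real.pi * s)
  have h2 := Real.sin_sq_add_cos_sq (Real.pi * x)
  rw [e1, e2, Real.cosh_two_mul, Real.cos_two_mul]
  nlinarith [h1, h2]

theorem Lg_eq_log (s x : ℝ) : Lg s x = Real.log (2 * dn s x) / 2 := by
  rw [← norm_two_sin_sq, Real.log_pow]
  unfold Lg
  push_cast
  ring

theorem Lg_hasDerivAt {s x : ℝ} (h : s ≠ 0 ∨ (x ≠ 0 ∧ |x| < 1)) :
    HasDerivAt (Lg s) (Lgd s x) x := by
  have hp := dn_pos h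
  have e : Lg s = fun x => Real.log (2 * dn s x) / 2 := funext fun x => Lg_eq_log s x
  rw [e]
  have h1 : HasDerivAt (fun x => 2 * dn s x) (2 * (0 - -(Real.sin (2 * Real.pi * x) *
      (2 * Real.pi)))) x := by
    unfold dn
    refine HasDerivAt.const_mul 2 ?_
    refine (hasDerivAt_const x _).sub ?_
    have h2 := (Real.hasDerivAt_cos (2 * Real.pi * x)).comp x
      ((hasDerivAt_id x).const_mul (2 * Real.pi))
    refine h2.congr_deriv ?_
    simp
  have h3 := (h1.log (by positivity)).div_const 2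
  refine h3.congr_deriv ?_
  unfold Lgd
  field_simp
  ring

theorem Lg_le {s x x' : ℝ} (hp : 0 < dn s x)
    (h : Real.cos (2 * Real.pi * x') ≤ Real.cos (2 * Real.pi * x)) : Lg s x ≤ Lg s x' := by
  rw [Lg_eq_log, Lg_eq_log]
  have : dn s x ≤ dn s x' := by
    unfold dn
    linarith
  have := Real.log_le_log (by positivity) (show 2 * dn s x ≤ 2 * dn s x' by linarith)
  linarith

theorem Lg_lt {s x x' : ℝ} (hp : 0 < dn s x)
    (h : Real.cos (2 * Real.pi * x') < Real.cos (2 * Real.pi * x)) : Lg s x < Lg s x' := by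
  rw [Lg_eq_log, Lg_eq_log]
  have : dn s x < dn s x' := by
    unfold dn
    linarith
  have := Real.log_lt_log (by positivity) (show 2 * dn s x < 2 * dn s x' by linarith)
  linarith

/-! ### The ratio `Lgd s x / x` is decreasing -/

theorem sin_ratio {u v : ℝ} (h0 : 0 < u) (h1 : u ≤ v) (h2 : v ≤ Real.pi) :
    Real.sin v * u ≤ Real.sin u * v := by
  have hv : 0 < v := by linarith
  have hc := strictConcaveOn_sin_Icc.concaveOn
  have h := hc.2 (show v ∈ Icc 0 Real.pi from ⟨hv.le, h2⟩)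
    (show (0 : ℝ) ∈ Icc 0 Real.pi from ⟨le_rfl, Real.pi_pos.le⟩)
    (show 0 ≤ u / v by positivity) (show 0 ≤ 1 - u / v by
      rw [sub_nonneg, div_le_one hv]; exact h1) (by ring)
  simp only [smul_eq_mul, mul_zero, add_zero, Real.sin_zero] at h
  rw [div_mul_cancel₀ _ hv.ne'] at h
  have := mul_le_mul_of_nonneg_right h hv.le
  have e : u / v * Real.sin v * v = Real.sin v * u := by
    field_simp
  rw [e] at this
  exact this

theorem cos_anti {u v : ℝ} (h0 : 0 ≤ u) (h1 : u ≤ v) (h2 : v ≤ 1 / 2) :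
    Real.cos (2 * Real.pi * v) ≤ Real.cos (2 * Real.pi * u) := by
  have hpi := Real.pi_pos
  apply Real.cos_le_cos_of_nonneg_of_le_pi <;> nlinarith

theorem Lgd_nonneg {s x : ℝ} (h0 : 0 ≤ x) (h1 : x ≤ 1 / 2) : 0 ≤ Lgd s x := by
  have hpi := Real.pi_pos
  have hs : 0 ≤ Real.sin (2 * Real.pi * x) :=
    Real.sin_nonneg_of_nonneg_of_le_pi (by positivity) (by nlinarith)
  exact div_nonneg (by positivity) (dn_nonneg _ _)

theorem Lgd_pos {s x : ℝ} (h0 : 0 < x) (h1 : x < 1 / 2) : 0 < Lgd s x := by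
  have hpi := Real.pi_pos
  have hs : 0 < Real.sin (2 * Real.pi * x) :=
    Real.sin_pos_of_pos_of_lt_pi (by positivity) (by nlinarith)
  exact div_pos (by positivity) (dn_pos (Or.inr ⟨h0.ne', by rw [abs_of_pos h0]; linarith⟩))

theorem Lgd_nonpos {s x : ℝ} (h0 : 1 / 2 ≤ x) (h1 : x ≤ 1) : Lgd s x ≤ 0 := by
  have hpi := Real.pi_pos
  have hs : Real.sin (2 * Real.pi * x) ≤ 0 := by
    have e : Real.sin (2 * Real.pi * x) = -Real.sin (2 * Real.pi * x - Real.pi) := by
      rw [Real.sin_sub_pi, neg_neg]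
    rw [e]
    have := Real.sin_nonneg_of_nonneg_of_le_pi (x := 2 * Real.pi * x - Real.pi) (by nlinarith)
      (by nlinarith)
    linarith
  exact div_nonpos_of_nonpos_of_nonneg (mul_nonpos_of_nonneg_of_nonpos hpi.le hs) (dn_nonneg _ _)

theorem Lgd_neg (s x : ℝ) : Lgd s (-x) = -Lgd s x := by
  unfold Lgd dn
  rw [mul_neg, Real.sin_neg, Real.cos_neg]
  ring

theorem Lgd_ratio {s u v : ℝ} (h0 : 0 < u) (h1 : u ≤ v) (h2 : v ≤ 1 / 2) :
    Lgd s v * u ≤ Lgd s u * v := by
  have hpi := Real.pi_pos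
  have hv : 0 < v := by linarith
  have hdu : 0 < dn s u := dn_pos (Or.inr ⟨h0.ne', by rw [abs_of_pos h0]; linarith⟩)
  have hdv : 0 < dn s v := dn_pos (Or.inr ⟨hv.ne', by rw [abs_of_pos hv]; linarith⟩)
  have hd : dn s u ≤ dn s v := by
    unfold dn
    linarith [cos_anti h0.le h1 h2]
  have hs := sin_ratio (u := 2 * Real.pi * u) (v := 2 * Real.pi * v) (by positivity)
    (by nlinarith) (by nlinarith)
  have hs2 : Real.sin (2 * Real.pi * v) * u ≤ Real.sin (2 * Real.pi * u) * v := by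
    have e1 : Real.sin (2 * Real.pi * v) * (2 * Real.pi * u) =
        (Real.sin (2 * Real.pi * v) * u) * (2 * Real.pi) := by ring
    have e2 : Real.sin (2 * Real.pi * u) * (2 * Real.pi * v) =
        (Real.sin (2 * Real.pi * u) * v) * (2 * Real.pi) := by ring
    rw [e1, e2] at hs
    exact le_of_mul_le_mul_right hs (by positivity)
  have hsv : 0 ≤ Real.sin (2 * Real.pi * v) :=
    Real.sin_nonneg_of_nonneg_of_le_pi (by positivity) (by nlinarith)
  unfold Lgd
  rw [div_mul_eq_mul_div, div_mul_eq_mul_div, div_le_div_iff₀ hdv hdu]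
  have h3 : Real.pi * Real.sin (2 * Real.pi * v) * u * dn s u ≤
      Real.pi * (Real.sin (2 * Real.pi * u) * v) * dn s v := by
    have h4 : Real.pi * (Real.sin (2 * Real.pi * v) * u) ≤
        Real.pi * (Real.sin (2 * Real.pi * u) * v) := mul_le_mul_of_nonneg_left hs2 hpi.le
    calc Real.pi * Real.sin (2 * Real.pi * v) * u * dn s u
        = Real.pi * (Real.sin (2 * Real.pi * v) * u) * dn s u := by ring
      _ ≤ Real.pi * (Real.sin (2 * Real.pi * u) * v) * dn s u :=
          mul_le_mul_of_nonneg_right h4 hdu.le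
      _ ≤ Real.pi * (Real.sin (2 * Real.pi * u) * v) * dn s v := by
          refine mul_le_mul_of_nonneg_left hd ?_
          exact le_trans (by positivity) h4
  linarith

/-- `Lg s` is a concave function of the square: it lies below the parabola through `w0`. -/
theorem Lg_quad {s v w0 : ℝ} (h0 : 0 < w0) (h1 : w0 ≤ 1 / 2) (hv : |v| < 1) (hs : s ≠ 0 ∨ v ≠ 0) :
    Lg s v - Lg s w0 ≤ Lgd s w0 / (2 * w0) * (v ^ 2 - w0 ^ 2) := by
  set c := Lgd s w0 / (2 * w0) with hc
  have hc0 : 0 ≤ c := div_nonneg (Lgd_nonneg h0.le h1) (by linarith)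
  have hcw : Lgd s w0 = 2 * c * w0 := by
    rw [hc]
    field_simp
  -- the case of nonnegative `v`
  have key : ∀ v : ℝ, 0 ≤ v → v < 1 → (s ≠ 0 ∨ v ≠ 0) →
      Lg s v - c * v ^ 2 ≤ Lg s w0 - c * w0 ^ 2 := by
    intro v hv0 hv1 hsv
    have hd : ∀ u, 0 < u → u < 1 → HasDerivAt (fun u => Lg s u - c * u ^ 2)
        (Lgd s u - 2 * c * u) u := by
      intro u hu0 hu1
      have h2 := (Lg_hasDerivAt (s := s) (x := u) (Or.inr ⟨hu0.ne', by
        rw [abs_of_pos hu0]; exact hu1⟩)).sub ((hasDerivAt_pow 2 u).const_mul c)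
      refine h2.congr_deriv ?_
      push_cast
      ring
    have hcont : ∀ a, 0 ≤ a → (s ≠ 0 ∨ a ≠ 0) → ∀ u, a ≤ u → u < 1 →
        ContinuousAt (fun u => Lg s u - c * u ^ 2) u := by
      intro a ha hsa u hau hu1
      have h2 : s ≠ 0 ∨ (u ≠ 0 ∧ |u| < 1) := by
        rcases hsa with h | h
        · exact Or.inl h
        · have : 0 < a := lt_of_le_of_ne ha (Ne.symm h)
          exact Or.inr ⟨(lt_of_lt_of_le this hau).ne', by
            rw [abs_of_nonneg (by linarith)]
            exact hu1⟩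
      exact (Lg_hasDerivAt h2).continuousAt.sub (by fun_prop)
    rcases le_total v w0 with h | h
    · have hm : MonotoneOn (fun u => Lg s u - c * u ^ 2) (Icc v w0) := by
        apply monotoneOn_of_deriv_nonneg (convex_Icc v w0)
        · intro u hu
          exact (hcont v hv0 hsv u hu.1 (by linarith [hu.2])).continuousWithinAt
        · intro u hu
          rw [interior_Icc] at hu
          exact (hd u (by linarith [hu.1]) (by linarith [hu.2])).differentiableAt.differentiableWithinAt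
        · intro u hu
          rw [interior_Icc] at hu
          have hu0 : 0 < u := by linarith [hu.1]
          rw [(hd u hu0 (by linarith [hu.2])).deriv]
          have h3 := Lgd_ratio (s := s) hu0 hu.2.le h1
          rw [hcw] at h3
          have h4 : 2 * c * u * w0 ≤ Lgd s u * w0 := by linarith
          have := le_of_mul_le_mul_right h4 h0
          linarith
      exact hm ⟨le_rfl, h⟩ ⟨h, le_rfl⟩ h
    · have hm : AntitoneOn (fun u => Lg s u - c * u ^ 2) (Icc w0 v) := by
        apply antitoneOn_of_deriv_nonpos (convex_Icc w0 v)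
        · intro u hu
          exact (hcont w0 h0.le (Or.inr h0.ne') u hu.1
            (by linarith [hu.2])).continuousWithinAt
        · intro u hu
          rw [interior_Icc] at hu
          exact (hd u (by linarith [hu.1]) (by linarith [hu.2])).differentiableAt.differentiableWithinAt
        · intro u hu
          rw [interior_Icc] at hu
          have hu0 : 0 < u := by linarith [hu.1]
          rw [(hd u hu0 (by linarith [hu.2])).deriv]
          rcases le_total u (1 / 2) with h5 | h5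
          · have h3 := Lgd_ratio (s := s) h0 hu.1.le h5
            rw [hcw] at h3
            have h4 : Lgd s u * w0 ≤ 2 * c * u * w0 := by linarith
            have := le_of_mul_le_mul_right h4 h0
            linarith
          · have h3 := Lgd_nonpos (s := s) h5 (by linarith [hu.2])
            have : 0 ≤ 2 * c * u := by positivity
            linarith
      exact hm ⟨le_rfl, h⟩ ⟨h, le_rfl⟩ h
  have h2 : Lg s |v| - c * |v| ^ 2 ≤ Lg s w0 - c * w0 ^ 2 :=
    key |v| (abs_nonneg v) hv (by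
      rcases hs with h | h
      · exact Or.inl h
      · exact Or.inr (abs_ne_zero.2 h))
  have h3 : Lg s |v| = Lg s v := by
    rcases abs_choice v with h | h
    · rw [h]
    · rw [h, Lg_neg]
  rw [h3, sq_abs] at h2
  linarith

/-! ### The defects -/

/-- The defect on a horizontal line: `Dd s w0 w = ∫_{w0}^w (Lg s - Lg s w0)`. -/
noncomputable def Dd (s w0 w : ℝ) : ℝ :=
  Rf ((w : ℂ) + s * I) - Rf ((w0 : ℂ) + s * I) - Lg s w0 * (w - w0)

theorem Dd_self (s w : ℝ) : Dd s w w = 0 := by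
  simp [Dd]

theorem Td_eq_Dd {z0 z : ℂ} (h : z.im = z0.im) : Td z0 z = -Dd z0.im z0.re z.re := by
  have h1 := Td_horizontal z0.im z0.re z.re
  rw [re_add_im, ← h, re_add_im, h] at h1
  rw [h1]
  unfold Dd
  rw [re_add_im, ← h, re_add_im, h]
  ring

theorem Dd_eq (s w0 w : ℝ) : Dd s w0 w = ∫ u in w0..w, (Lg s u - Lg s w0) := by
  rw [intervalIntegral.integral_sub (Lg_integrable _ _ _) (by simp), Lg_integral,
    intervalIntegral.integral_const, smul_eq_mul]
  unfold Dd
  ring

theorem Dd_eq' (s w0 w : ℝ) : Dd s w0 w = ∫ u in w..w0, (Lg s w0 - Lg s u) := by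
  rw [Dd_eq, intervalIntegral.integral_symm, ← intervalIntegral.integral_neg]
  refine intervalIntegral.integral_congr fun u _ => ?_
  ring

theorem Dd_sub (s w0 w w' : ℝ) : Dd s w0 w' - Dd s w0 w = ∫ u in w..w', (Lg s u - Lg s w0) := by
  rw [Dd_eq, Dd_eq]
  exact intervalIntegral.integral_interval_sub_left
    ((Lg_integrable _ _ _).sub (by simp)) ((Lg_integrable _ _ _).sub (by simp))

/-- Td on a horizontal line, at any height. -/
theorem Td_line_sub (z0 : ℂ) (σ x x' : ℝ) : Td z0 ((x' : ℂ) + σ * I) - Td z0 ((x : ℂ) + σ * I) =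
    ∫ u in x..x', (Lg z0.im z0.re - Lg σ u) := by
  rw [intervalIntegral.integral_sub (by simp) (Lg_integrable _ _ _), Lg_integral,
    intervalIntegral.integral_const, smul_eq_mul]
  unfold Td
  have e : (hh z0 * ((x' : ℂ) + σ * I - z0)).re - (hh z0 * ((x : ℂ) + σ * I - z0)).re =
      (hh z0).re * (x' - x) := by
    rw [← sub_re, ← mul_sub]
    have : (x' : ℂ) + σ * I - z0 - ((x : ℂ) + σ * I - z0) = ((x' - x : ℝ) : ℂ) := by
      push_cast
      ring
    rw [this, re_mul_ofReal]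
  rw [hh_re] at e
  linarith

theorem Dd_neg_im (s w0 w : ℝ) : Dd (-s) w0 w = Dd s w0 w := by
  rw [Dd_eq, Dd_eq]
  refine intervalIntegral.integral_congr fun u _ => ?_
  simp only [Lg_neg_im]

/-- Comparison of the defect with a polynomial. -/
theorem Dd_ge {s w0 w : ℝ} (h0 : 0 < w0) (h1 : w0 ≤ 1 / 2) (hw : -1 < w) (hw0 : w ≤ w0) :
    Lgd s w0 / (2 * w0) * ((w0 - w) ^ 2 * (2 * w0 + w) / 3) ≤ Dd s w0 w := by
  set c := Lgd s w0 / (2 * w0) with hc
  have e : c * ((w0 - w) ^ 2 * (2 * w0 + w) / 3) = ∫ u in w..w0, c * (w0 ^ 2 - u ^ 2) := by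
    rw [intervalIntegral.integral_const_mul, intervalIntegral.integral_sub (by simp)
      (by exact (continuous_pow 2).intervalIntegrable _ _), intervalIntegral.integral_const,
      integral_pow]
    simp only [smul_eq_mul]
    push_cast
    ring
  rw [e, Dd_eq']
  apply intervalIntegral.integral_mono_ae_restrict hw0
  · exact (by fun_prop : Continuous fun u : ℝ => c * (w0 ^ 2 - u ^ 2)).intervalIntegrable _ _
  · exact (by simp : IntervalIntegrable (fun _ : ℝ => Lg s w0) volume w w0).sub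
      (Lg_integrable _ _ _)
  · rw [Filter.EventuallyLE, ae_restrict_iff' measurableSet_Icc]
    have h2 : ∀ᵐ u : ℝ, u ≠ 0 := by
      simp [ae_iff, measure_singleton]
    filter_upwards [h2] with u hu hu2
    have h3 := Lg_quad (s := s) h0 h1 (v := u) (abs_lt.2 ⟨by linarith [hu2.1],
      by linarith [hu2.2]⟩) (Or.inr hu)
    rw [← hc] at h3
    linarith

theorem Dd_nonneg_left {s w0 w : ℝ} (h0 : 0 < w0) (h1 : w0 ≤ 1 / 2) (hw : -1 < w)
    (hw1 : -(2 * w0) ≤ w) (hw0 : w ≤ w0) : 0 ≤ Dd s w0 w := by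
  refine le_trans ?_ (Dd_ge h0 h1 hw hw0)
  have h2 : 0 ≤ Lgd s w0 / (2 * w0) := div_nonneg (Lgd_nonneg h0.le h1) (by linarith)
  refine mul_nonneg h2 ?_
  have : 0 ≤ 2 * w0 + w := by linarith
  positivity

theorem Dd_pos_left {s w0 w : ℝ} (h0 : 0 < w0) (h1 : w0 < 1 / 2) (hw : -1 < w)
    (hw1 : -(2 * w0) < w) (hw0 : w < w0) : 0 < Dd s w0 w := by
  refine lt_of_lt_of_le ?_ (Dd_ge h0 h1.le hw hw0.le)
  have h2 : 0 < Lgd s w0 / (2 * w0) := div_pos (Lgd_pos h0 h1) (by linarith)
  have h3 : 0 < 2 * w0 + w := by linarith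
  have h4 : 0 < w0 - w := by linarith
  positivity

theorem cos_le_mid {w0 u : ℝ} (h0 : 0 ≤ w0) (hu : w0 ≤ u) (hu1 : u ≤ 1 - w0) :
    Real.cos (2 * Real.pi * u) ≤ Real.cos (2 * Real.pi * w0) := by
  rcases le_total u (1 / 2) with h | h
  · exact cos_anti h0 hu h
  · have e : Real.cos (2 * Real.pi * u) = Real.cos (2 * Real.pi * (1 - u)) := by
      rw [show 2 * Real.pi * (1 - u) = 2 * Real.pi - 2 * Real.pi * u by ring,
        Real.cos_two_pi_sub]
    rw [e]
    exact cos_anti h0 (by linarith) (by linarith)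

theorem cos_lt_mid {w0 u : ℝ} (h0 : 0 ≤ w0) (hu : w0 < u) (hu1 : u < 1 - w0) :
    Real.cos (2 * Real.pi * u) < Real.cos (2 * Real.pi * w0) := by
  have hpi := Real.pi_pos
  have key : ∀ v, w0 < v → v ≤ 1 / 2 → Real.cos (2 * Real.pi * v) < Real.cos (2 * Real.pi * w0) := by
    intro v h2 h3
    apply Real.cos_lt_cos_of_nonneg_of_le_pi <;> nlinarith
  rcases le_total u (1 / 2) with h | h
  · exact key u hu h
  · have e : Real.cos (2 * Real.pi * u) = Real.cos (2 * Real.pi * (1 - u)) := by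
      rw [show 2 * Real.pi * (1 - u) = 2 * Real.pi - 2 * Real.pi * u by ring,
        Real.cos_two_pi_sub]
    rw [e]
    exact key _ (by linarith) (by linarith)

theorem Dd_nonneg_right {s w0 w : ℝ} (h0 : 0 < w0) (hw0 : w0 ≤ w)
    (hw1 : w ≤ 1 - w0) : 0 ≤ Dd s w0 w := by
  rw [Dd_eq]
  apply intervalIntegral.integral_nonneg hw0
  intro u hu
  have hd : 0 < dn s w0 := dn_pos (Or.inr ⟨h0.ne', by rw [abs_of_pos h0]; linarith⟩)
  have := Lg_le (s := s) hd (cos_le_mid h0.le hu.1 (by linarith [hu.2]))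
  linarith

theorem Dd_pos_right {s w0 w : ℝ} (h0 : 0 < w0) (hw0 : w0 < w) (hw1 : w ≤ 1 - w0) :
    0 < Dd s w0 w := by
  rw [Dd_eq]
  apply intervalIntegral.intervalIntegral_pos_of_pos_on
  · exact (Lg_integrable _ _ _).sub (by simp)
  · intro u hu
    have hd : 0 < dn s w0 := dn_pos (Or.inr ⟨h0.ne', by rw [abs_of_pos h0]; linarith⟩)
    have := Lg_lt (s := s) hd (cos_lt_mid h0.le hu.1 (by linarith [hu.2]))
    linarith
  · exact hw0

/-- Reflection of the defect at `1/2`. -/
theorem Dd_reflect (s w0 w : ℝ) : Dd s w0 w = Dd s w0 (1 - w0) - Dd s w0 (1 - w) := by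
  have e : ∫ u in (1 - w0)..w, (Lg s u - Lg s w0) =
      ∫ u in (1 - w)..w0, (Lg s u - Lg s w0) := by
    have h1 : ∀ u, Lg s (1 - u) = Lg s u := by
      intro u
      rw [show 1 - u = -u + 1 by ring, Lg_add_one, Lg_neg]
    have h2 := intervalIntegral.integral_comp_sub_left
      (fun u => Lg s u - Lg s w0) (1 : ℝ) (a := 1 - w) (b := w0)
    rw [sub_sub_cancel] at h2
    rw [← h2]
    refine intervalIntegral.integral_congr fun u _ => ?_
    simp only [h1]
  have h3 := Dd_sub s w0 (1 - w0) w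
  rw [e, intervalIntegral.integral_symm, ← Dd_eq] at h3
  linarith

/-- Quadratic lower bound. -/
theorem Dd_ge_quad {s w0 w m : ℝ} (hd : ∀ u ∈ uIcc w0 w, s ≠ 0 ∨ (u ≠ 0 ∧ |u| < 1))
    (hm : ∀ u ∈ uIcc w0 w, m ≤ Lgd s u) : m / 2 * (w - w0) ^ 2 ≤ Dd s w0 w := by
  have e : m / 2 * (w - w0) ^ 2 = ∫ u in w0..w, m * (u - w0) := by
    rw [intervalIntegral.integral_const_mul, intervalIntegral.integral_sub
      (by exact continuous_id.intervalIntegrable _ _) (by simp), integral_id,
      intervalIntegral.integral_const]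
    simp only [smul_eq_mul]
    ring
  have hdiff : ∀ u ∈ uIcc w0 w, HasDerivAt (fun u => Lg s u - m * u) (Lgd s u - m) u := by
    intro u hu
    have h2 := (Lg_hasDerivAt (hd u hu)).sub ((hasDerivAt_id u).const_mul m)
    refine h2.congr_deriv ?_
    rw [mul_one]
  have hmono : MonotoneOn (fun u => Lg s u - m * u) (uIcc w0 w) := by
    apply monotoneOn_of_deriv_nonneg (convex_uIcc w0 w)
    · exact fun u hu => (hdiff u hu).continuousAt.continuousWithinAt
    · exact fun u hu => (hdiff u (interior_subset hu)).differentiableAt.differentiableWithinAt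
    · intro u hu
      rw [(hdiff u (interior_subset hu)).deriv]
      linarith [hm u (interior_subset hu)]
  rw [e, Dd_eq]
  rcases le_total w0 w with h | h
  · apply intervalIntegral.integral_mono_on h
    · exact (by fun_prop : Continuous fun u : ℝ => m * (u - w0)).intervalIntegrable _ _
    · exact (Lg_integrable _ _ _).sub (by simp)
    · intro u hu
      have := hmono (left_mem_uIcc) (Icc_subset_uIcc hu) hu.1
      simp only at this
      linarith
  · rw [intervalIntegral.integral_symm, intervalIntegral.integral_symm w]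
    apply neg_le_neg
    apply intervalIntegral.integral_mono_on h
    · exact (Lg_integrable _ _ _).sub (by simp)
    · exact (by fun_prop : Continuous fun u : ℝ => m * (u - w0)).intervalIntegrable _ _
    · intro u hu
      have := hmono (Icc_subset_uIcc' hu) (left_mem_uIcc) hu.2
      simp only at this
      linarith

/-! ### Product formula -/

theorem dn_mul (η ν t x : ℝ) : dn (η - ν) (t - x) * dn (η + ν) (t + x) =
    (Real.cosh (2 * Real.pi * η) * Real.cos (2 * Real.pi * t) -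
      Real.cosh (2 * Real.pi * ν) * Real.cos (2 * Real.pi * x)) ^ 2 +
    (Real.sinh (2 * Real.pi * η) * Real.sin (2 * Real.pi * t) -
      Real.sinh (2 * Real.pi * ν) * Real.sin (2 * Real.pi * x)) ^ 2 := by
  unfold dn
  have a1 : 2 * Real.pi * (η - ν) = 2 * Real.pi * η - 2 * Real.pi * ν := by ring
  have a2 : 2 * Real.pi * (η + ν) = 2 * Real.pi * η + 2 * Real.pi * ν := by ring
  have a3 : 2 * Real.pi * (t - x) = 2 * Real.pi * t - 2 * Real.pi * x := by ring
  have a4 : 2 * Real.pi * (t + x) = 2 * Real.pi * t + 2 * Real.pi * x := by ring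
  rw [a1, a2, a3, a4, Real.cosh_sub, Real.cosh_add, Real.cos_sub, Real.cos_add]
  have h1 := Real.cosh_sq (2 * Real.pi * η)
  have h2 := Real.cosh_sq (2 * Real.pi * ν)
  have h3 := Real.sin_sq_add_cos_sq (2 * Real.pi * t)
  have h4 := Real.sin_sq_add_cos_sq (2 * Real.pi * x)
  generalize Real.cosh (2 * Real.pi * η) = C at *
  generalize Real.cosh (2 * Real.pi * ν) = C' at *
  generalize Real.sinh (2 * Real.pi * η) = S at *
  generalize Real.sinh (2 * Real.pi * ν) = S' at *
  generalize Real.cos (2 * Real.pi * t) = c at *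
  generalize Real.cos (2 * Real.pi * x) = c' at *
  generalize Real.sin (2 * Real.pi * t) = d at *
  generalize Real.sin (2 * Real.pi * x) = d' at *
  have e1 : S ^ 2 = C ^ 2 - 1 := by linarith
  have e2 : S' ^ 2 = C' ^ 2 - 1 := by linarith
  have e3 : d ^ 2 = 1 - c ^ 2 := by linarith
  have e4 : d' ^ 2 = 1 - c' ^ 2 := by linarith
  have e : (C * C' - S * S' - (c * c' + d * d')) * (C * C' + S * S' - (c * c' - d * d')) -
      ((C * c - C' * c') ^ 2 + (S * d - S' * d') ^ 2) =
      C ^ 2 * C' ^ 2 + c ^ 2 * c' ^ 2 - S ^ 2 * S' ^ 2 - d ^ 2 * d' ^ 2 -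
        (C ^ 2 * c ^ 2 + C' ^ 2 * c' ^ 2 + S ^ 2 * d ^ 2 + S' ^ 2 * d' ^ 2) := by ring
  rw [e1, e2, e3, e4] at e
  have e5 : C ^ 2 * C' ^ 2 + c ^ 2 * c' ^ 2 - (C ^ 2 - 1) * (C' ^ 2 - 1) -
      (1 - c ^ 2) * (1 - c' ^ 2) - (C ^ 2 * c ^ 2 + C' ^ 2 * c' ^ 2 +
        (C ^ 2 - 1) * (1 - c ^ 2) + (C' ^ 2 - 1) * (1 - c' ^ 2)) = 0 := by ring
  linarith

theorem dn_half (s t : ℝ) : dn s (1 / 2 - t) =
    Real.cosh (2 * Real.pi * s) + Real.cos (2 * Real.pi * t) := by
  unfold dn
  rw [show 2 * Real.pi * (1 / 2 - t) = Real.pi - 2 * Real.pi * t by ring, Real.cos_pi_sub]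
  ring

/-- The slope of a slot: `exp S = (cosh 2πη + cos 2πt) / |cos 2πv - cos 2πy|`. -/
theorem slope_eq {η ν t x : ℝ} (h1 : 0 < dn (η - ν) (t - x)) (h2 : 0 < dn (η + ν) (t + x))
    (h3 : 0 < Real.cosh (2 * Real.pi * η) + Real.cos (2 * Real.pi * t)) :
    2 * Lg η (1 / 2 - t) - Lg (η - ν) (t - x) - Lg (η + ν) (t + x) =
      Real.log (Real.cosh (2 * Real.pi * η) + Real.cos (2 * Real.pi * t)) -
        Real.log (dn (η - ν) (t - x) * dn (η + ν) (t + x)) / 2 := by
  rw [Lg_eq_log, Lg_eq_log, Lg_eq_log, dn_half, Real.log_mul h1.ne' h2.ne',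
    Real.log_mul two_ne_zero h1.ne', Real.log_mul two_ne_zero h2.ne']
  rw [Real.log_mul two_ne_zero h3.ne']
  ring

end Pool.Agent.S5
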