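import Pool.Agent.S5.I.Te0

/-!
# Branch and bound for general slot functions: the program

The function is `w0 (-Rf (1 / 2 - u)) + w1 (-Rf (u + v)) + w2 (-Rf (u - v)) + w3 (-Rf (v + 1 / 2))` plus `pi`
times a bilinear form plus an affine function. The variables are the real and the imaginary part of `u`
(numbers 1 and 2) and of `v` (numbers 3 and 4).
-/

set_option autoImplicit false

namespace Pool.Agent.S5.Tb

/-- An atom with a weight. -/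
def atw {α : Type} (w Gu Gs lu hu ls hs : Nat) (k : Nat → Nat → Nat → Nat → Nat → Nat → α)
    (z : α) : α :=
  cond (Nat.beq w 0) (k 0 0 8388608 0 0 0) (atm6 Gu Gs lu hu ls hs k z)

/-- Linear term: `(p - n) (X - g)` for `a ≤ X ≤ b`, the two sides and the slope. -/
def ln2 {α : Type} (p n a b g : Nat) (k : Nat → Nat → Nat → α) : α :=
  fN (fun p => fN (fun n =>
    cond (Nat.ble n p) (fN (fun d => k (Nat.mul d b) (Nat.mul d g) d) (Nat.sub p n))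
      (fN (fun d => k (Nat.mul d g) (Nat.mul d a) d) (Nat.sub n p))) n) p

/-- The score of a variable: the slope and the width. -/
def scr6 (d w : Nat) : Nat := Nat.mul w (Nat.add d (Nat.mul 1229 w))

/-- The last step. -/
def fin6 (A B s1 s2 s3 s4 : Nat) : Nat :=
  cond (Nat.ble (Nat.succ A) B) 4 (pick s1 s2 s3 s4)

/-- `pi` times the slope of the bilinear form, one sign. -/
def blN (kp kn kp' kn' G G' : Nat) : Nat :=
  Nat.div (Nat.mul 3294199 (Nat.add (Nat.add (Nat.mul kp G) (Nat.mul kp' G'))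
    (Nat.mul 800 (Nat.add kn kn')))) 200

/-- The bilinear form at the point of the table, one sign. -/
def blC (kp1 kn1 kp2 kn2 kp3 kn3 kp4 kn4 G1 G2 G3 G4 : Nat) : Nat :=
  Nat.div (Nat.mul 52707184 (Nat.add
    (Nat.add (Nat.add (Nat.mul kp1 (Nat.add (Nat.mul G1 G4) 640000))
        (Nat.mul kp2 (Nat.add (Nat.mul G3 G2) 640000)))
      (Nat.add (Nat.mul kp3 (Nat.add (Nat.mul G1 G2) 640000))
        (Nat.mul kp4 (Nat.add (Nat.mul G3 G4) 640000))))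
    (Nat.mul 800 (Nat.add (Nat.add (Nat.mul kn1 (Nat.add G1 G4)) (Nat.mul kn2 (Nat.add G3 G2)))
      (Nat.add (Nat.mul kn3 (Nat.add G1 G2)) (Nat.mul kn4 (Nat.add G3 G4))))))) 25

/-- The constant term, one sign, without the bilinear form. -/
def cst6 (w0 w1 w2 w3 c0 c1 c2 c3 c4 d1 d2 d3 d4 G1 G2 G3 G4 v v1 v2 v3 : Nat) : Nat :=
  Nat.add (Nat.mul 25600 (Nat.add (Nat.add (Nat.add (Nat.mul w0 v) (Nat.mul w1 v1))
      (Nat.add (Nat.mul w2 v2) (Nat.mul w3 v3))) c0))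
    (Nat.mul 128 (Nat.add (Nat.add (Nat.add (Nat.mul c1 G1) (Nat.mul c2 G2))
      (Nat.add (Nat.mul c3 G3) (Nat.mul c4 G4)))
      (Nat.mul 800 (Nat.add (Nat.add d1 d2) (Nat.add d3 d4)))))

/-- The error terms. -/
def err6 (w0 w1 w2 w3 kp1 kn1 kp2 kn2 kp3 kn3 kp4 kn4 m1 m2 m3 m4 Q Q1 Q2 Q3 : Nat) : Nat :=
  Nat.add
    (Nat.add (Nat.mul 25600 (Nat.add (Nat.mul 48 (Nat.add (Nat.add w0 w1) (Nat.add w2 w3)))
        (Nat.add (Nat.add (Nat.add kp1 kn1) (Nat.add kp2 kn2))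
          (Nat.add (Nat.add kp3 kn3) (Nat.add kp4 kn4)))))
      (Nat.add (Nat.add (Nat.mul w0 Q) (Nat.mul w1 Q1)) (Nat.add (Nat.mul w2 Q2) (Nat.mul w3 Q3))))
    (Nat.add (Nat.add (Nat.add m1 m2) (Nat.add m3 m4))
      (Nat.succ (Nat.div (Nat.mul 3294199 (Nat.add
        (Nat.add (Nat.mul (Nat.add kp1 kn1) (Nat.mul m1 m4))
          (Nat.mul (Nat.add kp2 kn2) (Nat.mul m3 m2)))
        (Nat.add (Nat.mul (Nat.add kp3 kn3) (Nat.mul m1 m2))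
          (Nat.mul (Nat.add kp4 kn4) (Nat.mul m3 m4))))) 25600)))

/-- The last step: the slopes and the constants. -/
def sm7 (p1 n1 p2 n2 p3 n3 p4 n4 A B a1 b1 a2 b2 a3 b3 a4 b4 G1 G2 G3 G4 : Nat) : Nat :=
  ln2 p1 n1 a1 b1 (Nat.mul 128 G1) (fun A1 B1 e1 =>
  ln2 p2 n2 a2 b2 (Nat.mul 128 G2) (fun A2 B2 e2 =>
  ln2 p3 n3 a3 b3 (Nat.mul 128 G3) (fun A3 B3 e3 =>
  ln2 p4 n4 a4 b4 (Nat.mul 128 G4) (fun A4 B4 e4 =>
  fN (fun A' => fN (fun B' => fN (fun s1 => fN (fun s2 => fN (fun s3 => fN (fun s4 =>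
      fin6 A' B' s1 s2 s3 s4)
    (scr6 e4 (Nat.sub b4 a4))) (scr6 e3 (Nat.sub b3 a3)))
    (scr6 e2 (Nat.sub b2 a2))) (scr6 e1 (Nat.sub b1 a1)))
    (Nat.add (Nat.add (Nat.add B1 B2) (Nat.add B3 B4)) B))
    (Nat.add (Nat.add (Nat.add A1 A2) (Nat.add A3 A4)) A)))))

/-- The last step: all terms. -/
def sm6 (w0 w1 w2 w3 kp1 kn1 kp2 kn2 kp3 kn3 kp4 kn4 c0p c0n c1p c1n c2p c2n c3p c3n c4p c4n
    a1 b1 a2 b2 a3 b3 a4 b4 G1 G2 G3 G4 m1 m2 m3 m4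
    vp vn l tp tn Q vp1 vn1 l1 tp1 tn1 Q1 vp2 vn2 l2 tp2 tn2 Q2 vp3 vn3 l3 tp3 tn3 Q3 : Nat) : Nat :=
  sm7
    (Nat.add (Nat.add (Nat.mul (Nat.add w1 w2) 8388608) (Nat.add (Nat.mul w0 l) c1p))
      (blN kp1 kn1 kp3 kn3 G4 G2))
    (Nat.add (Nat.add (Nat.mul w0 8388608) (Nat.add (Nat.add (Nat.mul w1 l1) (Nat.mul w2 l2)) c1n))
      (blN kn1 kp1 kn3 kp3 G4 G2))
    (Nat.add (Nat.add (Nat.add (Nat.mul w0 tn) (Nat.mul w1 tp1)) (Nat.add (Nat.mul w2 tp2) c2p))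
      (blN kp2 kn2 kp3 kn3 G3 G1))
    (Nat.add (Nat.add (Nat.add (Nat.mul w0 tp) (Nat.mul w1 tn1)) (Nat.add (Nat.mul w2 tn2) c2n))
      (blN kn2 kp2 kn3 kp3 G3 G1))
    (Nat.add (Nat.add (Nat.mul (Nat.add w1 w3) 8388608) (Nat.add (Nat.mul w2 l2) c3p))
      (blN kp2 kn2 kp4 kn4 G2 G4))
    (Nat.add (Nat.add (Nat.mul w2 8388608) (Nat.add (Nat.add (Nat.mul w1 l1) (Nat.mul w3 l3)) c3n))
      (blN kn2 kp2 kn4 kp4 G2 G4))
    (Nat.add (Nat.add (Nat.add (Nat.mul w1 tp1) (Nat.mul w2 tn2)) (Nat.add (Nat.mul w3 tp3) c4p))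
      (blN kp1 kn1 kp4 kn4 G1 G3))
    (Nat.add (Nat.add (Nat.add (Nat.mul w1 tn1) (Nat.mul w2 tp2)) (Nat.add (Nat.mul w3 tn3) c4n))
      (blN kn1 kp1 kn4 kp4 G1 G3))
    (Nat.add (Nat.add (cst6 w0 w1 w2 w3 c0p c1p c2p c3p c4p c1n c2n c3n c4n G1 G2 G3 G4 vp vp1 vp2 vp3)
          (Nat.succ (blC kp1 kn1 kp2 kn2 kp3 kn3 kp4 kn4 G1 G2 G3 G4)))
      (err6 w0 w1 w2 w3 kp1 kn1 kp2 kn2 kp3 kn3 kp4 kn4 m1 m2 m3 m4 Q Q1 Q2 Q3))
    (Nat.add (cst6 w0 w1 w2 w3 c0n c1n c2n c3n c4n c1p c2p c3p c4p G1 G2 G3 G4 vn vn1 vn2 vn3)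
        (blC kn1 kp1 kn2 kp2 kn3 kp3 kn4 kp4 G1 G2 G3 G4))
    a1 b1 a2 b2 a3 b3 a4 b4 G1 G2 G3 G4

/-- The test of a cell: `4` if the inequality holds, the number of a variable otherwise. If `sd` is not zero,
cells in which the real part of `u + v` is negative are not considered. -/
def tst6 (sd w0 w1 w2 w3 kp1 kn1 kp2 kn2 kp3 kn3 kp4 kn4 c0p c0n c1p c1n c2p c2n c3p c3n c4p c4n
    a1 b1 a2 b2 a3 b3 a4 b4 : Nat) : Nat :=
  cond (cond (Nat.beq sd 0) false (Nat.ble (Nat.add b1 b3) 204799)) 4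
  (fN (fun G1 => fN (fun l1 => fN (fun h1 => fN (fun G2 => fN (fun l2 => fN (fun h2 =>
  fN (fun G3 => fN (fun l3 => fN (fun h3 => fN (fun G4 => fN (fun l4 => fN (fun h4 =>
    atw w0 (Nat.sub 1700 G1) (Nat.sub 1600 G2) h1 l1 h2 l2 (fun vp vn l tp tn Q =>
      atw w1 (Nat.sub (Nat.add G1 G3) 800) (Nat.sub (Nat.add G2 G4) 800) (Nat.add l1 l3)
          (Nat.add h1 h3) (Nat.add l2 l4) (Nat.add h2 h4) (fun vp1 vn1 l1' tp1 tn1 Q1 =>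
        atw w2 (Nat.sub (Nat.add G1 800) G3) (Nat.sub (Nat.add G2 800) G4) (Nat.add l1 h3)
            (Nat.add h1 l3) (Nat.add l2 h4) (Nat.add h2 l4) (fun vp2 vn2 l2' tp2 tn2 Q2 =>
          atw w3 (Nat.add G3 100) G4 l3 h3 l4 h4 (fun vp3 vn3 l3' tp3 tn3 Q3 =>
            fN (fun m1 => fN (fun m2 => fN (fun m3 => fN (fun m4 =>
              sm6 w0 w1 w2 w3 kp1 kn1 kp2 kn2 kp3 kn3 kp4 kn4 c0p c0n c1p c1n c2p c2n c3p c3n c4p c4n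
                a1 b1 a2 b2 a3 b3 a4 b4 G1 G2 G3 G4 m1 m2 m3 m4 vp vn l tp tn Q
                vp1 vn1 l1' tp1 tn1 Q1 vp2 vn2 l2' tp2 tn2 Q2 vp3 vn3 l3' tp3 tn3 Q3)
              (mx l4 h4)) (mx l3 h3)) (mx l2 h2)) (mx l1 h1))
          (pick (Nat.sub b1 a1) (Nat.sub b2 a2) (Nat.sub b3 a3) (Nat.sub b4 a4)))
        (pick (Nat.sub b1 a1) (Nat.sub b2 a2) (Nat.sub b3 a3) (Nat.sub b4 a4)))
      (pick (Nat.sub b1 a1) (Nat.sub b2 a2) (Nat.sub b3 a3) (Nat.sub b4 a4)))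
    (pick (Nat.sub b1 a1) (Nat.sub b2 a2) (Nat.sub b3 a3) (Nat.sub b4 a4)))
  (Nat.sub b4 (Nat.mul 128 G4))) (Nat.sub (Nat.mul 128 G4) a4)) (ctr a4 b4))
  (Nat.sub b3 (Nat.mul 128 G3))) (Nat.sub (Nat.mul 128 G3) a3)) (ctr a3 b3))
  (Nat.sub b2 (Nat.mul 128 G2))) (Nat.sub (Nat.mul 128 G2) a2)) (ctr a2 b2))
  (Nat.sub b1 (Nat.mul 128 G1))) (Nat.sub (Nat.mul 128 G1) a1)) (ctr a1 b1))

end Pool.Agent.S5.Tb
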