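import Pool.Agent.S5.I.Tc
import Pool.Agent.S5.I.TbX

/-!
# Branch and bound for general slot functions: the atoms

As in `Tc`, with imaginary parts up to `3 / 10`.
-/

set_option autoImplicit false

namespace Pool.Agent.S5.Tb

/-- The data of the table at the point `(a, b)`, `a ≤ 200`: `-Rf` and `Im he` as differences. -/
def dat6 {α : Type} (a b : Nat) (k : Nat → Nat → Nat → Nat → Nat → α) : α :=
  cond (Nat.ble a 100)
    (fN (fun e => fN (fun q => fN (fun t => fN (fun l => k q 0 t 0 l) (lE e)) (tE e)) (qE e))
      (ent6 a b))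
    (fN (fun e => fN (fun q => fN (fun t => fN (fun l => k 0 q 0 t l) (lE e)) (tE e)) (qE e))
      (ent6 (Nat.sub 200 a) b))

/-- The value and the derivatives at a point: `b` is the distance from the real line, `up` is true in the
upper half plane. -/
def atv6 {α : Type} (Gu b : Nat) (up : Bool) (k : Nat → Nat → Nat → Nat → Nat → α) : α :=
  cond (Nat.ble 800 Gu)
    (dat6 (Nat.sub Gu 800) b (fun qp qn tp tn l => cond up (k qp qn l tp tn) (k qp qn l tn tp)))
    (dat6 (Nat.sub Gu 600) b (fun qp qn tp tn l =>
      fN (fun vp => cond up (k vp qn l (Nat.add tp 3294199) tn) (k vp qn l tn (Nat.add tp 3294199)))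
        (Nat.add qp (Nat.succ (Nat.div (Nat.mul 3294199 b) 200)))))

/-- The same, left of zero, if the imaginary part changes its sign. -/
def atx6 {α : Type} (Gu b sm : Nat) (up : Bool) (k : Nat → Nat → Nat → Nat → Nat → α) : α :=
  dat6 (Nat.sub Gu 600) b (fun qp qn tp tn l =>
    fN (fun vp => cond up (k vp qn l tp tn) (k vp qn l tn tp))
      (Nat.add qp (Nat.succ (Nat.div (Nat.mul 3294199 sm) 25600))))

/-- An atom: `-Rf z` for `z` in the rectangle with `Re z` between `U1` and `U2`,
`Im z` between `S1` and `S2`; the value at the point `(Gu, Gs)` of the table, with the derivatives. -/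
def at06 {α : Type} (Gu Gs U1 U2 S1 S2 Q K : Nat) (k : Nat → Nat → Nat → Nat → Nat → Nat → α)
    (z : α) : α :=
  cond (Nat.ble 16383 K) z
    (cond (Nat.ble U1 76800) z
      (cond (Nat.ble 128001 U2) z
        (cond (Nat.ble 110081 S2) z
          (cond (Nat.ble S1 94719) z
            (cond (cond (cond (Nat.ble 102401 S1) true (Nat.ble S2 102399)) true
                (cond (Nat.ble U1 102400) false (Nat.ble U2 127999)))
              (atv6 Gu (Nat.add (Nat.sub Gs 800) (Nat.sub 800 Gs))
                (cond (Nat.ble S2 102400) false (Nat.ble 800 Gs))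
                (fun vp vn l tp tn => k vp vn l tp tn Q))
              (cond (Nat.ble U2 102399)
                (cond (cond (Nat.ble 102400 S1) true (Nat.ble S2 102400))
                  (atv6 Gu (Nat.add (Nat.sub Gs 800) (Nat.sub 800 Gs))
                    (cond (Nat.ble S2 102400) false (Nat.ble 800 Gs))
                    (fun vp vn l tp tn => k vp vn l tp tn Q))
                  (atx6 Gu (Nat.add (Nat.sub Gs 800) (Nat.sub 800 Gs))
                    (mx (Nat.sub S2 102400) (Nat.sub 102400 S1)) (Nat.ble 800 Gs)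
                    (fun vp vn l tp tn => k vp vn l tp tn Q)))
                z))))))

/-- An atom with the bounds near `0` and `1`. -/
def at16 {α : Type} (Gu Gs U1 U2 S1 S2 Q K : Nat) (k : Nat → Nat → Nat → Nat → Nat → Nat → α)
    (z : α) : α :=
  cond (Nat.ble 40000000 Q)
    (cond (cond (Nat.ble 115200 U1) (cond (Nat.ble U2 128000) (Nat.ble 1 S1) false) false)
        (k 0 0 8388608 0 0 0)
      (cond (cond (cond (Nat.ble U2 104960) (Nat.ble 99840 U1) false)
          (cond (Nat.ble S2 104960) (Nat.ble 99840 S1) false) false)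
        (fN (fun i => fN (fun j => cond (Nat.ble (Nat.add i j) 0) (k 0 0 8388608 0 0 0)
              (fN (fun q => k q 0 8388608 0 0 0) (qE (ent i j))))
            (Nat.div (Nat.add (mx (Nat.sub S2 102400) (Nat.sub 102400 S1)) 127) 128))
          (Nat.div (Nat.add (Nat.sub U2 102400) 127) 128))
        (at06 Gu Gs U1 U2 S1 S2 Q K k z)))
    (at06 Gu Gs U1 U2 S1 S2 Q K k z)

/-- An atom: the rectangle is given by the distances from the point of the table. -/
def atm6 {α : Type} (Gu Gs lu hu ls hs : Nat) (k : Nat → Nat → Nat → Nat → Nat → Nat → α)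
    (z : α) : α :=
  fN (fun U1 => fN (fun U2 => fN (fun S1 => fN (fun S2 =>
    fN (fun K => fN (fun Q => at16 Gu Gs U1 U2 S1 S2 Q K k z) (quo K lu hu ls hs))
      (kE (ent (kIx U1 U2) (mn 50 (Nat.div (Nat.add (Nat.sub S1 102400) (Nat.sub 102400 S2)) 128)))))
    (Nat.add (Nat.mul 128 Gs) hs)) (Nat.sub (Nat.mul 128 Gs) ls))
    (Nat.add (Nat.mul 128 Gu) hu)) (Nat.sub (Nat.mul 128 Gu) lu)

end Pool.Agent.S5.Tb
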