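import Pool.Agent.S5.I.Tl

/-!
# Branch and bound for the slot functions: soundness
-/

set_option autoImplicit false

namespace Pool.Agent.S5.Tb

open Pool.Agent.H63.VC3 Pool.Agent.S3 Complex MeasureTheory Filter Topology Set

theorem mx_eq (a b : ℕ) : mx a b = max a b := by
  unfold mx
  rcases le_or_gt a b with h | h
  · rw [Nat.ble_eq_true_of_le h, max_eq_right h]
    rfl
  · rw [Bool.eq_false_iff.2 (fun h2 => absurd (Nat.le_of_ble_eq_true h2) (not_le.2 h)),
      max_eq_left h.le]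
    rfl

theorem mn_eq (a b : ℕ) : mn a b = min a b := by
  unfold mn
  rcases le_or_gt a b with h | h
  · rw [Nat.ble_eq_true_of_le h, min_eq_left h]
    rfl
  · rw [Bool.eq_false_iff.2 (fun h2 => absurd (Nat.le_of_ble_eq_true h2) (not_le.2 h)),
      min_eq_right h.le]
    rfl

theorem ble_f {a b : ℕ} (h : Nat.ble a b = false) : b < a := by
  by_contra h2
  rw [Nat.ble_eq_true_of_le (not_lt.1 h2)] at h
  exact absurd h (by decide)

theorem ble_t {a b : ℕ} (h : Nat.ble a b = true) : a ≤ b := Nat.le_of_ble_eq_true h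

theorem lin_ge {p n l h : ℕ} {d : ℝ} (h1 : -(l : ℝ) ≤ d) (h2 : d ≤ h) :
    ((p : ℝ) - n) * d ≤ lin p n l h := by
  unfold lin
  cases e : Nat.ble n p
  · have h3 : p < n := ble_f e
    have h4 : (p : ℝ) < n := by exact_mod_cast h3
    show ((p : ℝ) - n) * d ≤ (((n - p) * l : ℕ) : ℝ)
    rw [Nat.cast_mul, Nat.cast_sub h3.le]
    nlinarith
  · have h3 : n ≤ p := ble_t e
    have h4 : (n : ℝ) ≤ p := by exact_mod_cast h3
    show ((p : ℝ) - n) * d ≤ (((p - n) * h : ℕ) : ℝ)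
    rw [Nat.cast_mul, Nat.cast_sub h3]
    nlinarith

theorem pi_lt' : Real.pi * 1048576 < 3294199 := by
  have := Real.pi_lt_d20
  linarith only [this]

theorem pi_gt' : 3294198 < Real.pi * 1048576 := by
  have := Real.pi_gt_d20
  linarith only [this]

/-- The bound of an atom. -/
def AtOK (Gu Gs lu hu ls hs vp vn l tp tn Q : ℕ) : Prop :=
  ∀ z : ℂ, (128 * Gu : ℝ) - lu ≤ z.re * 25600 + 102400 → z.re * 25600 + 102400 ≤ 128 * Gu + hu →
    (128 * Gs : ℝ) - ls ≤ z.im * 25600 + 102400 → z.im * 25600 + 102400 ≤ 128 * Gs + hs →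
    -Rf z * 1048576 ≤ ((vp : ℝ) - vn) + 48 + (8388608 - (l : ℝ)) * (z.re - ((Gu : ℝ) - 800) / 200) +
      ((tp : ℝ) - tn) * (z.im - ((Gs : ℝ) - 800) / 200) + (Q : ℝ) / 25600

theorem quo_ge {K lu hu ls hs : ℕ} {du ds : ℝ} (h1 : -(lu : ℝ) ≤ du * 25600) (h2 : du * 25600 ≤ hu)
    (h3 : -(ls : ℝ) ≤ ds * 25600) (h4 : ds * 25600 ≤ hs) :
    (K : ℝ) / 32 * (du ^ 2 + ds ^ 2) * 1048576 ≤ (quo K lu hu ls hs : ℝ) / 25600 := by
  have e : quo K lu hu ls hs = K * (max lu hu * max lu hu + max ls hs * max ls hs) * 32 / 25 + 1 := by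
    unfold quo
    rw [mx_eq, mx_eq]
    rfl
  rw [e]
  have hf : ∀ a : ℕ, (a : ℝ) / 25 ≤ ((a / 25 + 1 : ℕ) : ℝ) := by
    intro a
    have h5 : a < (a / 25 + 1) * 25 := by omega
    have h6 : (a : ℝ) < ((a / 25 + 1 : ℕ) : ℝ) * 25 := by exact_mod_cast h5
    linarith only [h6]
  have h5 := hf (K * (max lu hu * max lu hu + max ls hs * max ls hs) * 32)
  have hU : (du * 25600) ^ 2 ≤ ((max lu hu : ℕ) : ℝ) * ((max lu hu : ℕ) : ℝ) := by
    have m1 : (lu : ℝ) ≤ ((max lu hu : ℕ) : ℝ) := by exact_mod_cast le_max_left _ _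
    have m2 : (hu : ℝ) ≤ ((max lu hu : ℕ) : ℝ) := by exact_mod_cast le_max_right _ _
    nlinarith
  have hS : (ds * 25600) ^ 2 ≤ ((max ls hs : ℕ) : ℝ) * ((max ls hs : ℕ) : ℝ) := by
    have m1 : (ls : ℝ) ≤ ((max ls hs : ℕ) : ℝ) := by exact_mod_cast le_max_left _ _
    have m2 : (hs : ℝ) ≤ ((max ls hs : ℕ) : ℝ) := by exact_mod_cast le_max_right _ _
    nlinarith
  rw [le_div_iff₀ (by norm_num)]
  refine le_trans ?_ h5
  rw [Nat.cast_mul, Nat.cast_mul, Nat.cast_add, Nat.cast_mul, Nat.cast_mul]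
  have hK : (0 : ℝ) ≤ K := Nat.cast_nonneg K
  have h6 := mul_le_mul_of_nonneg_left (add_le_add hU hS) hK
  push_cast at h6 ⊢
  linarith only [h6]

/-- Taylor formula with the data of the table. -/
theorem tay {g z : ℂ} {up : Bool} {qp qn tp tn l K : ℕ} (hd : DatOK g up qp qn tp tn l)
    (hf : ∀ τ : ℝ, 0 ≤ τ → τ ≤ 1 → fdom (g + τ * (z - g)))
    (hK : ∀ τ : ℝ, 0 ≤ τ → τ ≤ 1 → ‖ct (g + τ * (z - g))‖ ≤ (K : ℝ) / 16) :
    -Rf z * 1048576 ≤ ((qp : ℝ) - qn) + 32 + (8388608 - (l : ℝ)) * (z.re - g.re) +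
      (if up = true then 1 else -1) * ((tp : ℝ) - tn) * (z.im - g.im) + 4 * |z.re - g.re| +
        4 * |z.im - g.im| + (K : ℝ) / 32 * ((z.re - g.re) ^ 2 + (z.im - g.im) ^ 2) * 1048576 := by
  have h := taylor hf hK
  have h1 := abs_le.1 hd.q
  have h2 := abs_le.1 hd.l
  have h3 := abs_le.1 hd.t
  have h4 : -((he g).re * 1048576) * (z.re - g.re) ≤
      (8388608 - (l : ℝ)) * (z.re - g.re) + 4 * |z.re - g.re| := by
    have : |((he g).re * 1048576 - ((l : ℝ) - 8388608)) * (z.re - g.re)| ≤ 4 * |z.re - g.re| := by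
      rw [abs_mul]
      exact mul_le_mul_of_nonneg_right hd.l (abs_nonneg _)
    have := (abs_le.1 this).1
    linarith only [this]
  have h5 : ((he g).im * 1048576) * (z.im - g.im) ≤
      (if up = true then 1 else -1) * ((tp : ℝ) - tn) * (z.im - g.im) + 4 * |z.im - g.im| := by
    have : |((he g).im * 1048576 - (if up = true then 1 else -1) * ((tp : ℝ) - tn)) *
        (z.im - g.im)| ≤ 4 * |z.im - g.im| := by
      rw [abs_mul]
      exact mul_le_mul_of_nonneg_right hd.t (abs_nonneg _)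
    have := (abs_le.1 this).2
    linarith only [this]
  linarith only [h5, h4, h1.2, h]

/-- The point of the table. -/
noncomputable def gp (Gu Gs : ℕ) : ℂ :=
  ((((Gu : ℝ) - 800) / 200 : ℝ) : ℂ) + ((((Gs : ℝ) - 800) / 200 : ℝ) : ℂ) * I

theorem gp_re (Gu Gs : ℕ) : (gp Gu Gs).re = ((Gu : ℝ) - 800) / 200 := by
  unfold gp
  rw [Pool.Agent.S5.line_re]

theorem gp_im (Gu Gs : ℕ) : (gp Gu Gs).im = ((Gs : ℝ) - 800) / 200 := by
  unfold gp
  rw [Pool.Agent.S5.line_im]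

/-- The rectangle. -/
structure Rc (U1 U2 S1 S2 : ℕ) (z : ℂ) : Prop where
  u1 : (U1 : ℝ) ≤ z.re * 25600 + 102400
  u2 : z.re * 25600 + 102400 ≤ U2
  s1 : (S1 : ℝ) ≤ z.im * 25600 + 102400
  s2 : z.im * 25600 + 102400 ≤ S2

theorem Rc.seg {U1 U2 S1 S2 : ℕ} {g z : ℂ} (hg : Rc U1 U2 S1 S2 g) (hz : Rc U1 U2 S1 S2 z)
    {τ : ℝ} (h0 : 0 ≤ τ) (h1 : τ ≤ 1) : Rc U1 U2 S1 S2 (g + τ * (z - g)) := by
  have e1 : (g + τ * (z - g)).re = (1 - τ) * g.re + τ * z.re := by
    simp only [add_re, mul_re, ofReal_re, ofReal_im, sub_re, zero_mul, sub_zero]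
    ring
  have e2 : (g + τ * (z - g)).im = (1 - τ) * g.im + τ * z.im := by
    simp only [add_im, mul_im, ofReal_re, ofReal_im, sub_im, zero_mul, add_zero]
    ring
  have h2 : 0 ≤ 1 - τ := by linarith only [h1]
  have a1 := mul_le_mul_of_nonneg_left hg.u1 h2
  have a2 := mul_le_mul_of_nonneg_left hg.u2 h2
  have a3 := mul_le_mul_of_nonneg_left hg.s1 h2
  have a4 := mul_le_mul_of_nonneg_left hg.s2 h2
  have b1 := mul_le_mul_of_nonneg_left hz.u1 h0
  have b2 := mul_le_mul_of_nonneg_left hz.u2 h0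
  have b3 := mul_le_mul_of_nonneg_left hz.s1 h0
  have b4 := mul_le_mul_of_nonneg_left hz.s2 h0
  constructor
  · rw [e1]; linarith only [b1, a1]
  · rw [e1]; linarith only [b2, a2]
  · rw [e2]; linarith only [b3, a3]
  · rw [e2]; linarith only [b4, a4]

theorem kE0 : kE (ent 0 0) = 16383 := by decide +kernel

/-- The hypothesis on the table. -/
def TabOK : Prop := ∀ i j : ℕ, i ≤ 100 → j ≤ 50 → 0 < i + j → EntOK i j (ent i j)

/-- The index of the imaginary part. -/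
def jIx (S1 S2 : ℕ) : ℕ :=
  mn 50 (Nat.div (Nat.add (Nat.sub S1 102400) (Nat.sub 102400 S2)) 128)

theorem kIx_eq (U1 U2 : ℕ) : kIx U1 U2 =
    min (U1 - 102400 + (102400 - U2)) (25600 - max (U2 - 102400) (102400 - U1)) / 128 := by
  unfold kIx
  rw [mn_eq, mx_eq]
  rfl

theorem jIx_eq (S1 S2 : ℕ) : jIx S1 S2 = min 50 ((S1 - 102400 + (102400 - S2)) / 128) := by
  unfold jIx
  rw [mn_eq]
  rfl

theorem kIx_facts {U1 U2 S1 S2 i j : ℕ} (hi : i = kIx U1 U2) (hj : j = jIx S1 S2) (h1 : 76801 ≤ U1)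
    (h2 : U2 ≤ 128000) (hU : U1 ≤ U2) : i ≤ 100 ∧ j ≤ 50 ∧ 128 * i ≤ U1 - 102400 + (102400 - U2) ∧
      U2 - 102400 ≤ 25600 - 128 * i ∧ 102400 - U1 ≤ 25600 - 128 * i ∧ 128 * i ≤ 25600 ∧
        128 * j ≤ S1 - 102400 + (102400 - S2) := by
  rw [kIx_eq] at hi
  rw [jIx_eq] at hj
  have a1 := Nat.div_mul_le_self (min (U1 - 102400 + (102400 - U2))
      (25600 - max (U2 - 102400) (102400 - U1))) 128
  rw [← hi] at a1
  have a3 := a1.trans (min_le_left _ _)
  have a4 := a1.trans (min_le_right _ _)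
  have a5 := le_max_left (U2 - 102400) (102400 - U1)
  have a6 := le_max_right (U2 - 102400) (102400 - U1)
  have a2 := Nat.div_mul_le_self (S1 - 102400 + (102400 - S2)) 128
  have a7 : j ≤ 50 := by rw [hj]; exact min_le_left _ _
  have a8 : j ≤ (S1 - 102400 + (102400 - S2)) / 128 := by rw [hj]; exact min_le_right _ _
  generalize max (U2 - 102400) (102400 - U1) = m at a4 a5 a6
  generalize (S1 - 102400 + (102400 - S2)) / 128 = m2 at a2 a8
  clear hi hj a1
  refine ⟨?_, a7, ?_, ?_, ?_, ?_, ?_⟩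
  · omega
  · omega
  · omega
  · omega
  · omega
  · omega

/-- The bound of the second derivative. -/
theorem kb (hE : TabOK) {U1 U2 S1 S2 : ℕ} {w : ℂ} (hw : Rc U1 U2 S1 S2 w) (h1 : 76801 ≤ U1)
    (h2 : U2 ≤ 128000) (hK : kE (ent (kIx U1 U2) (jIx S1 S2)) < 16383) :
    0 < kIx U1 U2 + jIx S1 S2 ∧
    ‖ct w‖ ≤ (kE (ent (kIx U1 U2) (jIx S1 S2)) : ℝ) / 16 ∧
      ‖ct (w + 1)‖ ≤ (kE (ent (kIx U1 U2) (jIx S1 S2)) : ℝ) / 16 := by
  have hU : U1 ≤ U2 := by
    have := hw.u1.trans hw.u2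
    exact_mod_cast this
  have hS : S1 ≤ S2 := by
    have := hw.s1.trans hw.s2
    exact_mod_cast this
  obtain ⟨i, hi⟩ : ∃ i, i = kIx U1 U2 := ⟨_, rfl⟩
  obtain ⟨j, hj⟩ : ∃ j, j = jIx S1 S2 := ⟨_, rfl⟩
  rw [← hi, ← hj] at hK ⊢
  obtain ⟨hi100, hj50, hi1, hm1, hm2, hi3, hj1⟩ := kIx_facts hi hj h1 h2 hU
  have hij : 0 < i + j := by
    rcases Nat.eq_zero_or_pos (i + j) with h | h
    · exfalso
      have e1 : i = 0 := Nat.eq_zero_of_add_eq_zero_right h
      have e2 : j = 0 := Nat.eq_zero_of_add_eq_zero_left h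
      rw [e1, e2, kE0] at hK
      exact absurd hK (lt_irrefl _)
    · exact h
  have hEn := hE i j hi100 hj50 hij
  clear hK
  have q1 := hw.u1
  have q2 := hw.u2
  have q3 := hw.s1
  have q4 := hw.s2
  have r1 : (i : ℝ) / 200 ≤ |w.re| := by
    rw [div_le_iff₀ (by norm_num)]
    rcases Nat.lt_or_ge 102400 U1 with h | h
    · have : 128 * i + 102400 ≤ U1 := by omega
      have : 128 * (i : ℝ) + 102400 ≤ U1 := by exact_mod_cast this
      have := le_abs_self w.re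
      linarith [this, q1]
    · rcases Nat.lt_or_ge U2 102400 with h3 | h3
      · have : 128 * i + U2 ≤ 102400 := by omega
        have : 128 * (i : ℝ) + U2 ≤ 102400 := by exact_mod_cast this
        have := neg_abs_le w.re
        linarith [this, q2]
      · have : i = 0 := by omega
        rw [this]
        push_cast
        positivity
  have r2 : |w.re| ≤ 1 - (i : ℝ) / 200 := by
    rw [abs_le]
    have c1 : 102400 ≤ U1 + (25600 - 128 * i) := by omega
    have c2 : U2 ≤ 102400 + (25600 - 128 * i) := by omega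
    have c3 : 128 * i ≤ 25600 := by omega
    have d1 : (102400 : ℝ) ≤ U1 + (25600 - 128 * i) := by
      have := (Nat.cast_le (α := ℝ)).2 c1
      push_cast [Nat.cast_sub c3] at this
      exact this
    have d2 : (U2 : ℝ) ≤ 102400 + (25600 - 128 * i) := by
      have := (Nat.cast_le (α := ℝ)).2 c2
      push_cast [Nat.cast_sub c3] at this
      exact this
    constructor <;> linarith
  have r3 : (j : ℝ) / 200 ≤ |w.im| := by
    rw [div_le_iff₀ (by norm_num)]
    rcases Nat.lt_or_ge 102400 S1 with h | h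
    · have : 128 * j + 102400 ≤ S1 := by omega
      have : 128 * (j : ℝ) + 102400 ≤ S1 := by exact_mod_cast this
      have := le_abs_self w.im
      linarith [this, q3]
    · rcases Nat.lt_or_ge S2 102400 with h3 | h3
      · have : 128 * j + S2 ≤ 102400 := by omega
        have : 128 * (j : ℝ) + S2 ≤ 102400 := by exact_mod_cast this
        have := neg_abs_le w.im
        linarith [this, q4]
      · have : j = 0 := by omega
        rw [this]
        push_cast
        positivity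
  refine ⟨hij, ct_le hi100 hij hEn r1 r2 r3, ?_⟩
  have e : ct (w + 1) = ct w := by
    unfold ct
    have e1 : (Real.pi : ℂ) * (w + 1) = Real.pi * w + Real.pi := by ring
    rw [e1, cos_add_pi, sin_add_pi, mul_neg, neg_div_neg_eq]
  rw [e]
  exact ct_le hi100 hij hEn r1 r2 r3

/-- The bound at a point. -/
def PB (z : ℂ) (Gu Gs vp vn l tp tn K : ℕ) : Prop :=
  -Rf z * 1048576 ≤ ((vp : ℝ) - vn) + 32 + (8388608 - (l : ℝ)) * (z.re - (gp Gu Gs).re) +
    ((tp : ℝ) - tn) * (z.im - (gp Gu Gs).im) + 4 * |z.re - (gp Gu Gs).re| +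
      5 * |z.im - (gp Gu Gs).im| +
        (K : ℝ) / 32 * ((z.re - (gp Gu Gs).re) ^ 2 + (z.im - (gp Gu Gs).im) ^ 2) * 1048576

/-- The sign. -/
noncomputable def sgn' (up : Bool) : ℝ := if up = true then 1 else -1

theorem gp_eq {a b Gu Gs : ℕ} {up : Bool} (h1 : (a : ℝ) = (Gu : ℝ) - 800)
    (h2 : sgn' up * (b : ℝ) = (Gs : ℝ) - 800) :
    ((((a : ℝ) / 200 : ℝ) : ℂ) + (((if up = true then 1 else -1) * ((b : ℝ) / 200) : ℝ) : ℂ) * I) =
      gp Gu Gs := by
  unfold gp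
  rw [← h1, ← h2]
  unfold sgn'
  push_cast
  ring

theorem gp_eq1 {a b Gu Gs : ℕ} {up : Bool} (h1 : (a : ℝ) = (Gu : ℝ) - 600)
    (h2 : sgn' up * (b : ℝ) = (Gs : ℝ) - 800) :
    ((((a : ℝ) / 200 : ℝ) : ℂ) + (((if up = true then 1 else -1) * ((b : ℝ) / 200) : ℝ) : ℂ) * I) =
      gp Gu Gs + 1 := by
  unfold gp
  rw [h1, ← h2]
  unfold sgn'
  push_cast
  ring

theorem add_cast' (a b : ℕ) : ((Nat.add a b : ℕ) : ℝ) = (a : ℝ) + b := Nat.cast_add a b

theorem mul_cast' (a b : ℕ) : ((Nat.mul a b : ℕ) : ℝ) = (a : ℝ) * b := Nat.cast_mul a b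

theorem succ_div_ge (a n : ℕ) (hn : 0 < n) : (a : ℝ) / n ≤ ((Nat.succ (Nat.div a n) : ℕ) : ℝ) := by
  have h := Nat.div_add_mod a n
  have h1 := Nat.mod_lt a hn
  have h2 : (n : ℝ) * ((a / n : ℕ) : ℝ) + ((a % n : ℕ) : ℝ) = a := by exact_mod_cast h
  have h3 : ((a % n : ℕ) : ℝ) < n := by exact_mod_cast h1
  have h4 : (0 : ℝ) < n := by exact_mod_cast hn
  rw [div_le_iff₀ h4]
  show (a : ℝ) ≤ ((a / n + 1 : ℕ) : ℝ) * n
  rw [Nat.cast_add, Nat.cast_one]
  linarith only [h3, h2]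

theorem atv_right (hE : TabOK) {α : Type} {Gu Gs b : ℕ} {up : Bool} (h0 : 800 ≤ Gu) (h1 : Gu ≤ 1000)
    (hb : b ≤ 50) (h2 : sgn' up * (b : ℝ) = (Gs : ℝ) - 800) (hne : 0 < b ∨ (800 < Gu ∧ Gu < 1000))
    (k : ℕ → ℕ → ℕ → ℕ → ℕ → α) : ∃ vp vn l tp tn : ℕ, atv Gu b up k = k vp vn l tp tn ∧
      ∀ (z : ℂ) (K : ℕ), (∀ τ : ℝ, 0 ≤ τ → τ ≤ 1 → fdom (gp Gu Gs + τ * (z - gp Gu Gs))) →
        (∀ τ : ℝ, 0 ≤ τ → τ ≤ 1 → ‖ct (gp Gu Gs + τ * (z - gp Gu Gs))‖ ≤ (K : ℝ) / 16) →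
          PB z Gu Gs vp vn l tp tn K := by
  obtain ⟨a, ea⟩ : ∃ a, a = Nat.sub Gu 800 := ⟨_, rfl⟩
  have ea2 : a = Gu - 800 := ea
  obtain ⟨qp, qn, tp, tn, l, e, hd⟩ := dat_ok hE (a := a) (b := b) (by omega) hb (by omega) up
    (fun qp qn tp tn l => cond up (k qp qn l tp tn) (k qp qn l tn tp))
  have ha : (a : ℝ) = (Gu : ℝ) - 800 := by
    rw [ea2, Nat.cast_sub h0]
    norm_num
  rw [gp_eq ha h2] at hd
  rw [ea] at e
  have e0 : atv Gu b up k = cond up (k qp qn l tp tn) (k qp qn l tn tp) := by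
    unfold atv
    rw [Nat.ble_eq_true_of_le h0, cond_true]
    exact e
  cases up with
  | true =>
    refine ⟨qp, qn, l, tp, tn, e0, ?_⟩
    intro z K hf hK
    have h := tay hd hf hK
    unfold PB
    rw [if_pos rfl, one_mul] at h
    have := abs_nonneg (z.im - (gp Gu Gs).im)
    linarith only [this, h]
  | false =>
    refine ⟨qp, qn, l, tn, tp, e0, ?_⟩
    intro z K hf hK
    have h := tay hd hf hK
    unfold PB
    rw [if_neg (by decide)] at h
    have := abs_nonneg (z.im - (gp Gu Gs).im)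
    linarith only [this, h]

/-- The sum with `pi |Im z|`. -/
theorem shift_sum {z : ℂ} {Gu Gs b qp qn tp tn l K : ℕ} {up : Bool} {X : ℝ}
    (h2 : sgn' up * (b : ℝ) = (Gs : ℝ) - 800)
    (hX : X ≤ ((qp : ℝ) - qn) + 32 + (8388608 - (l : ℝ)) * (z.re - (gp Gu Gs).re) +
      (if up = true then 1 else -1) * ((tp : ℝ) - tn) * (z.im - (gp Gu Gs).im) +
        4 * |z.re - (gp Gu Gs).re| + 4 * |z.im - (gp Gu Gs).im| + (K : ℝ) / 32 *
          ((z.re - (gp Gu Gs).re) ^ 2 + (z.im - (gp Gu Gs).im) ^ 2) * 1048576)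
    (hz : -Rf z * 1048576 ≤ X + Real.pi * 1048576 * (sgn' up * z.im)) :
    PB z Gu Gs (Nat.add qp (Nat.succ (Nat.div (Nat.mul 3294199 b) 200))) qn l
      (if up = true then Nat.add tp 3294199 else tn) (if up = true then tn else Nat.add tp 3294199) K := by
  have p1 := pi_lt'
  have p2 := pi_gt'
  have h3 := succ_div_ge (Nat.mul 3294199 b) 200 (by norm_num)
  rw [mul_cast'] at h3
  have h4 : sgn' up * ((gp Gu Gs).im * 200) = b := by
    rw [gp_im]
    have : ((Gs : ℝ) - 800) / 200 * 200 = (Gs : ℝ) - 800 := by ring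
    rw [this, ← h2]
    cases up
    · unfold sgn'; norm_num
    · unfold sgn'; norm_num
  have hb : (0 : ℝ) ≤ b := Nat.cast_nonneg b
  obtain ⟨d, hd⟩ : ∃ d, d = z.im - (gp Gu Gs).im := ⟨_, rfl⟩
  have hz2 : z.im = (gp Gu Gs).im + d := by rw [hd]; ring
  have ha := abs_nonneg d
  have h5 : Real.pi * 1048576 * (sgn' up * z.im) ≤ 3294199 * (b / 200) +
      3294199 * (sgn' up * d) + |d| := by
    have e : Real.pi * 1048576 * (sgn' up * z.im) = Real.pi * 1048576 * (b / 200) +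
        Real.pi * 1048576 * (sgn' up * d) := by
      rw [hz2, ← h4]
      ring
    rw [e]
    have e1 : Real.pi * 1048576 * ((b : ℝ) / 200) ≤ 3294199 * (b / 200) :=
      mul_le_mul_of_nonneg_right p1.le (by positivity)
    have e2 : (3294199 - Real.pi * 1048576) * (-(sgn' up * d)) ≤ |d| := by
      have h6 : -(sgn' up * d) ≤ |d| := by
        cases up
        · unfold sgn'
          rw [if_neg (by decide)]
          have := le_abs_self d
          linarith only [this]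
        · unfold sgn'
          rw [if_pos rfl]
          have := neg_abs_le d
          linarith only [this]
      have h7 : 0 ≤ 3294199 - Real.pi * 1048576 := by linarith only [p1]
      calc (3294199 - Real.pi * 1048576) * (-(sgn' up * d)) ≤ (3294199 - Real.pi * 1048576) * |d| :=
            mul_le_mul_of_nonneg_left h6 h7
        _ ≤ 1 * |d| := mul_le_mul_of_nonneg_right (by linarith only [p2]) ha
        _ = |d| := one_mul _
    linarith only [e2, e1]
  have c1 : ((3294199 : ℕ) : ℝ) = 3294199 := Nat.cast_ofNat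
  have c2 : ((200 : ℕ) : ℝ) = 200 := Nat.cast_ofNat
  rw [c1, c2] at h3
  unfold PB
  rw [← hd] at hX ⊢
  rw [add_cast']
  cases up with
  | true =>
    rw [if_pos rfl] at hX
    rw [if_pos rfl, if_pos rfl, add_cast', c1]
    unfold sgn' at h5 hz
    rw [if_pos rfl] at h5 hz
    linarith only [h5, hX, hz, h3]
  | false =>
    rw [if_neg (by decide)] at hX
    rw [if_neg (by decide), if_neg (by decide), add_cast', c1]
    unfold sgn' at h5 hz
    rw [if_neg (by decide)] at h5 hz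
    linarith only [h5, hX, hz, h3]

theorem atv_left (hE : TabOK) {α : Type} {Gu Gs b : ℕ} {up : Bool} (h0 : 601 ≤ Gu) (h1 : Gu < 800)
    (hb : b ≤ 50) (h2 : sgn' up * (b : ℝ) = (Gs : ℝ) - 800)
    (k : ℕ → ℕ → ℕ → ℕ → ℕ → α) : ∃ vp vn l tp tn : ℕ, atv Gu b up k = k vp vn l tp tn ∧
      (∀ (z : ℂ) (K : ℕ), 0 < b → 0 ≤ sgn' up * z.im →
        (∀ τ : ℝ, 0 ≤ τ → τ ≤ 1 → fdom (gp Gu Gs + τ * (z - gp Gu Gs))) →
        (∀ τ : ℝ, 0 ≤ τ → τ ≤ 1 → ‖ct (gp Gu Gs + τ * (z - gp Gu Gs))‖ ≤ (K : ℝ) / 16) →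
          PB z Gu Gs vp vn l tp tn K) ∧
      (∀ (z : ℂ) (K : ℕ), 0 ≤ sgn' up * z.im →
        (∀ τ : ℝ, 0 ≤ τ → τ ≤ 1 → fdom (gp Gu Gs + 1 + τ * (z + 1 - (gp Gu Gs + 1)))) →
        (∀ τ : ℝ, 0 ≤ τ → τ ≤ 1 → ‖ct (gp Gu Gs + 1 + τ * (z + 1 - (gp Gu Gs + 1)))‖ ≤ (K : ℝ) / 16) →
          PB z Gu Gs vp vn l tp tn K) := by
  obtain ⟨a, ea⟩ : ∃ a, a = Nat.sub Gu 600 := ⟨_, rfl⟩
  have ea2 : a = Gu - 600 := ea
  obtain ⟨qp, qn, tp, tn, l, e, hd⟩ := dat_ok hE (a := a) (b := b) (by omega) hb (by omega) up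
    (fun qp qn tp tn l =>
      fN (fun vp => cond up (k vp qn l (Nat.add tp 3294199) tn) (k vp qn l tn (Nat.add tp 3294199)))
        (Nat.add qp (Nat.succ (Nat.div (Nat.mul 3294199 b) 200))))
  have ha : (a : ℝ) = (Gu : ℝ) - 600 := by
    rw [ea2, Nat.cast_sub (by omega)]
    norm_num
  rw [gp_eq1 ha h2] at hd
  rw [ea] at e
  have e0 : atv Gu b up k = k (Nat.add qp (Nat.succ (Nat.div (Nat.mul 3294199 b) 200))) qn l
      (if up = true then Nat.add tp 3294199 else tn) (if up = true then tn else Nat.add tp 3294199) := by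
    unfold atv
    rw [Bool.eq_false_iff.2 (fun h3 => absurd (ble_t h3) (not_le.2 h1)), cond_false]
    rw [e, fN_eq]
    cases up
    · rw [if_neg (by decide), if_neg (by decide)]
      rfl
    · rw [if_pos rfl, if_pos rfl]
      rfl
  have hre : (gp Gu Gs + 1).re = (gp Gu Gs).re + 1 := by rw [add_re, one_re]
  have him : (gp Gu Gs + 1).im = (gp Gu Gs).im := by rw [add_im, one_im, add_zero]
  have p1 := pi_lt'
  have p2 := pi_gt'
  refine ⟨_, _, _, _, _, e0, ?_, ?_⟩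
  · intro z K hb0 hz hf hK
    have h := taylor hf hK
    have q1 := (abs_le.1 hd.q).2
    have q2 := hd.l
    have q3 := hd.t
    have hgim : 0 < sgn' up * (gp Gu Gs).im := by
      rw [gp_im, ← h2]
      have hb1 : (0 : ℝ) < b := by exact_mod_cast hb0
      cases up
      · unfold sgn'
        rw [if_neg (by decide)]
        linarith only [hb1]
      · unfold sgn'
        rw [if_pos rfl]
        linarith only [hb1]
    have hA : |(gp Gu Gs).im| = sgn' up * (gp Gu Gs).im := by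
      cases up
      · unfold sgn' at hgim ⊢
        rw [if_neg (by decide)] at hgim ⊢
        rw [abs_of_neg (by linarith only [hgim])]
        ring
      · unfold sgn' at hgim ⊢
        rw [if_pos rfl] at hgim ⊢
        rw [abs_of_pos (by linarith only [hgim])]
        ring
    have hR : -Rf (gp Gu Gs) = -Rf (gp Gu Gs + 1) + Real.pi * (sgn' up * (gp Gu Gs).im) := by
      rw [Rf_shift (gp Gu Gs), hA]
    have hH : (he (gp Gu Gs)).re = (he (gp Gu Gs + 1)).re ∧
        (he (gp Gu Gs)).im = (he (gp Gu Gs + 1)).im + Real.pi * sgn' up := by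
      cases up
      · unfold sgn' at hgim ⊢
        rw [if_neg (by decide)] at hgim ⊢
        rw [he_shift_dn (by linarith only [hgim])]
        simp only [sub_re, sub_im, mul_re, mul_im, ofReal_re, ofReal_im, I_re, I_im]
        constructor <;> ring
      · unfold sgn' at hgim ⊢
        rw [if_pos rfl] at hgim ⊢
        rw [he_shift_up (by linarith only [hgim])]
        simp only [add_re, add_im, mul_re, mul_im, ofReal_re, ofReal_im, I_re, I_im]
        constructor <;> ring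
    rw [hR, hH.1, hH.2] at h
    have h4 : -((he (gp Gu Gs + 1)).re * 1048576) * (z.re - (gp Gu Gs).re) ≤
        (8388608 - (l : ℝ)) * (z.re - (gp Gu Gs).re) + 4 * |z.re - (gp Gu Gs).re| := by
      have : |((he (gp Gu Gs + 1)).re * 1048576 - ((l : ℝ) - 8388608)) * (z.re - (gp Gu Gs).re)| ≤
          4 * |z.re - (gp Gu Gs).re| := by
        rw [abs_mul]
        exact mul_le_mul_of_nonneg_right hd.l (abs_nonneg _)
      have := (abs_le.1 this).1
      linarith only [this]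
    have h5 : ((he (gp Gu Gs + 1)).im * 1048576) * (z.im - (gp Gu Gs).im) ≤
        (if up = true then 1 else -1) * ((tp : ℝ) - tn) * (z.im - (gp Gu Gs).im) +
          4 * |z.im - (gp Gu Gs).im| := by
      have : |((he (gp Gu Gs + 1)).im * 1048576 - (if up = true then 1 else -1) * ((tp : ℝ) - tn)) *
          (z.im - (gp Gu Gs).im)| ≤ 4 * |z.im - (gp Gu Gs).im| := by
        rw [abs_mul]
        exact mul_le_mul_of_nonneg_right hd.t (abs_nonneg _)
      have := (abs_le.1 this).2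
      linarith only [this]
    refine shift_sum (X := -Rf z * 1048576 - Real.pi * 1048576 * (sgn' up * z.im)) h2 ?_ (by linarith only [])
    linarith only [h5, h4, q1, h]
  · intro z K hz hf hK
    have h := tay hd hf hK
    rw [hre, him] at h
    have e1 : (z + 1).re - ((gp Gu Gs).re + 1) = z.re - (gp Gu Gs).re := by
      rw [add_re, one_re]
      ring
    have e2 : (z + 1).im = z.im := by rw [add_im, one_im, add_zero]
    rw [e1, e2] at h
    refine shift_sum (X := -Rf (z + 1) * 1048576) h2 h ?_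
    rw [Rf_shift z]
    have e3 : |z.im| = sgn' up * z.im := by
      cases up
      · unfold sgn' at hz ⊢
        rw [if_neg (by decide)] at hz ⊢
        rw [abs_of_nonpos (by linarith only [hz])]
        ring
      · unfold sgn' at hz ⊢
        rw [if_pos rfl] at hz ⊢
        rw [abs_of_nonneg (by linarith only [hz])]
        ring
    rw [e3]
    apply le_of_eq
    ring

theorem atx_ok (hE : TabOK) {α : Type} {Gu Gs b sm : ℕ} {up : Bool} (h0 : 601 ≤ Gu) (h1 : Gu < 800)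
    (hb : b ≤ 50) (h2 : sgn' up * (b : ℝ) = (Gs : ℝ) - 800)
    (k : ℕ → ℕ → ℕ → ℕ → ℕ → α) : ∃ vp vn l tp tn : ℕ, atx Gu b sm up k = k vp vn l tp tn ∧
      (∀ (z : ℂ) (K : ℕ), |z.im| * 25600 ≤ sm →
        (∀ τ : ℝ, 0 ≤ τ → τ ≤ 1 → fdom (gp Gu Gs + 1 + τ * (z + 1 - (gp Gu Gs + 1)))) →
        (∀ τ : ℝ, 0 ≤ τ → τ ≤ 1 → ‖ct (gp Gu Gs + 1 + τ * (z + 1 - (gp Gu Gs + 1)))‖ ≤ (K : ℝ) / 16) →
          PB z Gu Gs vp vn l tp tn K) := by
  obtain ⟨a, ea⟩ : ∃ a, a = Nat.sub Gu 600 := ⟨_, rfl⟩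
  have ea2 : a = Gu - 600 := ea
  obtain ⟨qp, qn, tp, tn, l, e, hd⟩ := dat_ok hE (a := a) (b := b) (by omega) hb (by omega) up
    (fun qp qn tp tn l =>
      fN (fun vp => cond up (k vp qn l tp tn) (k vp qn l tn tp))
        (Nat.add qp (Nat.succ (Nat.div (Nat.mul 3294199 sm) 25600))))
  have ha : (a : ℝ) = (Gu : ℝ) - 600 := by
    rw [ea2, Nat.cast_sub (by omega)]
    norm_num
  rw [gp_eq1 ha h2] at hd
  rw [ea] at e
  have e0 : atx Gu b sm up k = k (Nat.add qp (Nat.succ (Nat.div (Nat.mul 3294199 sm) 25600))) qn l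
      (if up = true then tp else tn) (if up = true then tn else tp) := by
    unfold atx
    rw [e, fN_eq]
    cases up
    · rw [if_neg (by decide), if_neg (by decide)]
      rfl
    · rw [if_pos rfl, if_pos rfl]
      rfl
  have hre : (gp Gu Gs + 1).re = (gp Gu Gs).re + 1 := by rw [add_re, one_re]
  have him : (gp Gu Gs + 1).im = (gp Gu Gs).im := by rw [add_im, one_im, add_zero]
  have p1 := pi_lt'
  refine ⟨_, _, _, _, _, e0, ?_⟩
  intro z K hz hf hK
  have h := tay hd hf hK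
  rw [hre, him] at h
  have e1 : (z + 1).re - ((gp Gu Gs).re + 1) = z.re - (gp Gu Gs).re := by
    rw [add_re, one_re]
    ring
  have e2 : (z + 1).im = z.im := by rw [add_im, one_im, add_zero]
  rw [e1, e2] at h
  have h3 := succ_div_ge (Nat.mul 3294199 sm) 25600 (by norm_num)
  have c1 : ((3294199 : ℕ) : ℝ) = 3294199 := Nat.cast_ofNat
  have c2 : ((25600 : ℕ) : ℝ) = 25600 := Nat.cast_ofNat
  rw [mul_cast', c1, c2] at h3
  have h4 : Real.pi * 1048576 * |z.im| ≤ 3294199 * sm / 25600 := by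
    rw [le_div_iff₀ (by norm_num)]
    calc Real.pi * 1048576 * |z.im| * 25600 = Real.pi * 1048576 * (|z.im| * 25600) := by ring
      _ ≤ 3294199 * (|z.im| * 25600) := mul_le_mul_of_nonneg_right p1.le (by positivity)
      _ ≤ 3294199 * sm := mul_le_mul_of_nonneg_left hz (by norm_num)
  have ha2 := abs_nonneg (z.im - (gp Gu Gs).im)
  unfold PB
  rw [Rf_shift z, add_cast']
  cases up with
  | true =>
    rw [if_pos rfl] at h
    rw [if_pos rfl, if_pos rfl]
    linarith only [h, ha2, h4, h3]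
  | false =>
    rw [if_neg (by decide)] at h
    rw [if_neg (by decide), if_neg (by decide)]
    linarith only [h, ha2, h4, h3]

theorem gp_Rc {Gu Gs U1 U2 S1 S2 : ℕ} (h1 : U1 ≤ 128 * Gu) (h2 : 128 * Gu ≤ U2) (h3 : S1 ≤ 128 * Gs)
    (h4 : 128 * Gs ≤ S2) : Rc U1 U2 S1 S2 (gp Gu Gs) := by
  have e1 : (gp Gu Gs).re * 25600 + 102400 = 128 * Gu := by rw [gp_re]; ring
  have e2 : (gp Gu Gs).im * 25600 + 102400 = 128 * Gs := by rw [gp_im]; ring
  constructor
  · rw [e1]; exact_mod_cast h1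
  · rw [e1]; exact_mod_cast h2
  · rw [e2]; exact_mod_cast h3
  · rw [e2]; exact_mod_cast h4

/-- The rectangle, shifted by one, is in the strip. -/
theorem Rc.fdom1 {U1 U2 S1 S2 : ℕ} {z : ℂ} (h : Rc U1 U2 S1 S2 z) (h1 : 76801 ≤ U1)
    (h2 : U2 ≤ 102399) : fdom (z + 1) := by
  right
  have a1 : (76801 : ℝ) ≤ U1 := by exact_mod_cast h1
  have a2 : (U2 : ℝ) ≤ 102399 := by exact_mod_cast h2
  have := h.u1
  have := h.u2
  rw [add_re, one_re]
  constructor <;> linarith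

theorem Rc.fdom0 {U1 U2 S1 S2 : ℕ} {z : ℂ} (h : Rc U1 U2 S1 S2 z)
    (h1 : (102401 ≤ S1 ∨ S2 ≤ 102399) ∨ 102401 ≤ U1 ∧ U2 ≤ 127999) : fdom z := by
  rcases h1 with (h1 | h1) | ⟨h1, h2⟩
  · left
    have a1 : (102401 : ℝ) ≤ S1 := by exact_mod_cast h1
    have := h.s1
    intro h3
    rw [h3] at this
    linarith only [this, a1]
  · left
    have a1 : (S2 : ℝ) ≤ 102399 := by exact_mod_cast h1
    have := h.s2
    intro h3
    rw [h3] at this
    linarith only [this, a1]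
  · right
    have a1 : (102401 : ℝ) ≤ U1 := by exact_mod_cast h1
    have a2 : (U2 : ℝ) ≤ 127999 := by exact_mod_cast h2
    have := h.u1
    have := h.u2
    constructor <;> linarith

theorem seg1 (g z : ℂ) (τ : ℝ) : g + 1 + τ * (z + 1 - (g + 1)) = g + τ * (z - g) + 1 := by ring

theorem sgn_b {Gs : ℕ} {up : Bool} (h : up = true ↔ 800 ≤ Gs) :
    sgn' up * ((Nat.add (Nat.sub Gs 800) (Nat.sub 800 Gs) : ℕ) : ℝ) = (Gs : ℝ) - 800 := by
  show sgn' up * ((Gs - 800 + (800 - Gs) : ℕ) : ℝ) = (Gs : ℝ) - 800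
  cases up
  · have h1 : Gs < 800 := by
      by_contra h2
      exact absurd (h.2 (not_lt.1 h2)) (by decide)
    unfold sgn'
    rw [if_neg (by decide), Nat.sub_eq_zero_of_le h1.le, zero_add, Nat.cast_sub h1.le]
    have c : ((800 : ℕ) : ℝ) = 800 := Nat.cast_ofNat
    rw [c]
    ring
  · have h1 : 800 ≤ Gs := h.1 rfl
    unfold sgn'
    rw [if_pos rfl, Nat.sub_eq_zero_of_le h1, add_zero, Nat.cast_sub h1]
    have c : ((800 : ℕ) : ℝ) = 800 := Nat.cast_ofNat
    rw [c]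
    ring

theorem sgn_b' {Gs : ℕ} {up : Bool} (h : up = false) (h1 : Gs ≤ 800) :
    sgn' up * ((Nat.add (Nat.sub Gs 800) (Nat.sub 800 Gs) : ℕ) : ℝ) = (Gs : ℝ) - 800 := by
  show sgn' up * ((Gs - 800 + (800 - Gs) : ℕ) : ℝ) = (Gs : ℝ) - 800
  rw [h]
  unfold sgn'
  rw [if_neg (by decide), Nat.sub_eq_zero_of_le h1, zero_add, Nat.cast_sub h1]
  have c : ((800 : ℕ) : ℝ) = 800 := Nat.cast_ofNat
  rw [c]
  ring

theorem cond_tt {α : Type} {c : Bool} (h : c = true) (x y : α) : cond c x y = x := by rw [h]; rfl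

theorem cond_ff {α : Type} {c : Bool} (h : c = false) (x y : α) : cond c x y = y := by rw [h]; rfl

/-- The direction. -/
def dir (S2 Gs : ℕ) : Bool := cond (Nat.ble S2 102400) false (Nat.ble 800 Gs)

theorem dir_eq {S2 Gs : ℕ} (h4 : 128 * Gs ≤ S2) :
    sgn' (dir S2 Gs) * ((Nat.add (Nat.sub Gs 800) (Nat.sub 800 Gs) : ℕ) : ℝ) = (Gs : ℝ) - 800 := by
  unfold dir
  cases h : Nat.ble S2 102400
  · rw [cond_false]
    apply sgn_b
    constructor
    · exact fun h => ble_t h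
    · exact fun h => Nat.ble_eq_true_of_le h
  · rw [cond_true]
    have := ble_t h
    exact sgn_b' rfl (by omega)

theorem dir_im {U1 U2 S1 S2 Gs : ℕ} {z : ℂ} (h : Rc U1 U2 S1 S2 z) (h3 : S1 ≤ 128 * Gs)
    (h1 : 102400 ≤ S1 ∨ S2 ≤ 102400) : 0 ≤ sgn' (dir S2 Gs) * z.im := by
  unfold dir
  have a1 := h.s1
  have a2 := h.s2
  cases h5 : Nat.ble S2 102400
  · rw [cond_false]
    have h6 := ble_f h5
    have h7 : 102400 ≤ S1 := by omega
    have h8 : 800 ≤ Gs := by omega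
    rw [Nat.ble_eq_true_of_le h8]
    unfold sgn'
    rw [if_pos rfl]
    have a3 : (102400 : ℝ) ≤ S1 := by exact_mod_cast h7
    linarith only [a3, a1]
  · rw [cond_true]
    have h6 := ble_t h5
    unfold sgn'
    rw [if_neg (by decide)]
    have a3 : (S2 : ℝ) ≤ 102400 := by exact_mod_cast h6
    linarith only [a3, a2]

theorem at0_ok (hE : TabOK) {α : Type} {Gu Gs U1 U2 S1 S2 Q K : ℕ} (h1 : U1 ≤ 128 * Gu)
    (h2 : 128 * Gu ≤ U2) (h3 : S1 ≤ 128 * Gs) (h4 : 128 * Gs ≤ S2)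
    (hK : K = kE (ent (kIx U1 U2) (jIx S1 S2))) (k : ℕ → ℕ → ℕ → ℕ → ℕ → ℕ → α) (z : α) :
    at0 Gu Gs U1 U2 S1 S2 Q K k z = z ∨ ∃ vp vn l tp tn : ℕ,
      at0 Gu Gs U1 U2 S1 S2 Q K k z = k vp vn l tp tn Q ∧ 76801 ≤ U1 ∧ 96000 ≤ S1 ∧ U2 ≤ 128000 ∧
        S2 ≤ 108800 ∧ ∀ p, Rc U1 U2 S1 S2 p → PB p Gu Gs vp vn l tp tn K := by
  unfold at0
  cases b1 : Nat.ble 16383 K
  swap
  · left; rfl
  cases b2 : Nat.ble U1 76800
  swap
  · left; rfl
  cases b3 : Nat.ble 128001 U2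
  swap
  · left; rfl
  cases b4 : Nat.ble 108801 S2
  swap
  · left; rfl
  cases b5 : Nat.ble S1 95999
  swap
  · left; rfl
  rw [cond_false, cond_false, cond_false, cond_false, cond_false]
  have c1 := ble_f b1
  have c2 := ble_f b2
  have c3 := ble_f b3
  have c4 := ble_f b4
  have c5 := ble_f b5
  clear b1 b2 b3 b4 b5
  have hg : Rc U1 U2 S1 S2 (gp Gu Gs) := gp_Rc h1 h2 h3 h4
  have hb : Nat.add (Nat.sub Gs 800) (Nat.sub 800 Gs) ≤ 50 := by
    show Gs - 800 + (800 - Gs) ≤ 50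
    omega
  have hkb : ∀ w, Rc U1 U2 S1 S2 w → ‖ct w‖ ≤ (K : ℝ) / 16 ∧ ‖ct (w + 1)‖ ≤ (K : ℝ) / 16 := by
    intro w hw
    rw [hK] at c1 ⊢
    exact (kb hE hw (by omega) (by omega) c1).2
  clear hK c1
  have hdir := dir_eq h4
  cases b6 : cond (cond (Nat.ble 102401 S1) true (Nat.ble S2 102399)) true
      (cond (Nat.ble U1 102400) false (Nat.ble U2 127999))
  · rw [cond_false]
    cases b7 : Nat.ble U2 102399
    · left; rfl
    · rw [cond_true]
      have c7 := ble_t b7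
      clear b6
      cases b8 : cond (Nat.ble 102400 S1) true (Nat.ble S2 102400)
      · rw [cond_false]
        right
        have hup : (Nat.ble 800 Gs = true ↔ 800 ≤ Gs) :=
          ⟨fun h => ble_t h, fun h => Nat.ble_eq_true_of_le h⟩
        obtain ⟨vp, vn, l, tp, tn, e, hp⟩ := atx_ok hE (Gu := Gu) (Gs := Gs)
          (sm := mx (Nat.sub S2 102400) (Nat.sub 102400 S1)) (by omega) (by omega) hb (sgn_b hup)
          (fun vp vn l tp tn => k vp vn l tp tn Q)
        refine ⟨vp, vn, l, tp, tn, e, by omega, by omega, by omega, by omega, ?_⟩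
        intro p hpc
        apply hp p K
        · rw [mx_eq]
          have a1 := hpc.s1
          have a2 := hpc.s2
          rcases le_total 0 p.im with h | h
          · rw [abs_of_nonneg h]
            have hS : 102400 ≤ S2 := by
              have : (102400 : ℝ) ≤ S2 := by linarith only [h, a2]
              exact_mod_cast this
            have : ((Nat.sub S2 102400 : ℕ) : ℝ) = (S2 : ℝ) - 102400 := by
              show ((S2 - 102400 : ℕ) : ℝ) = _
              rw [Nat.cast_sub hS, Nat.cast_ofNat]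
            rw [Nat.cast_max]
            refine le_trans ?_ (le_max_left _ _)
            rw [this]
            linarith only [a2]
          · rw [abs_of_nonpos h]
            have hS : S1 ≤ 102400 := by
              have : (S1 : ℝ) ≤ 102400 := by linarith only [h, a1]
              exact_mod_cast this
            have : ((Nat.sub 102400 S1 : ℕ) : ℝ) = 102400 - (S1 : ℝ) := by
              show ((102400 - S1 : ℕ) : ℝ) = _
              rw [Nat.cast_sub hS, Nat.cast_ofNat]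
            rw [Nat.cast_max]
            refine le_trans ?_ (le_max_right _ _)
            rw [this]
            linarith only [a1]
        · intro τ t0 t1
          rw [seg1]
          exact (hg.seg hpc t0 t1).fdom1 (by omega) c7
        · intro τ t0 t1
          rw [seg1]
          exact (hkb _ (hg.seg hpc t0 t1)).2
      · rw [cond_true]
        right
        have h12 : 102400 ≤ S1 ∨ S2 ≤ 102400 := by
          cases b9 : Nat.ble 102400 S1
          · rw [b9, cond_false] at b8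
            exact Or.inr (ble_t b8)
          · exact Or.inl (ble_t b9)
        obtain ⟨vp, vn, l, tp, tn, e, hp1, hp2⟩ := atv_left hE (Gu := Gu) (Gs := Gs)
          (by omega) (by omega) hb hdir (fun vp vn l tp tn => k vp vn l tp tn Q)
        refine ⟨vp, vn, l, tp, tn, e, by omega, by omega, by omega, by omega, ?_⟩
        intro p hpc
        apply hp2 p K (dir_im hpc h3 h12)
        · intro τ t0 t1
          rw [seg1]
          exact (hg.seg hpc t0 t1).fdom1 (by omega) c7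
        · intro τ t0 t1
          rw [seg1]
          exact (hkb _ (hg.seg hpc t0 t1)).2
  · rw [cond_true]
    right
    have h12 : (102401 ≤ S1 ∨ S2 ≤ 102399) ∨ 102401 ≤ U1 ∧ U2 ≤ 127999 := by
      cases b9 : Nat.ble 102401 S1
      · rw [b9, cond_false] at b6
        cases b10 : Nat.ble S2 102399
        · rw [b10, cond_false] at b6
          cases b11 : Nat.ble U1 102400
          · rw [b11, cond_false] at b6
            have := ble_f b11
            exact Or.inr ⟨by omega, ble_t b6⟩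
          · rw [b11, cond_true] at b6
            exact absurd b6 (by decide)
        · exact Or.inl (Or.inr (ble_t b10))
      · exact Or.inl (Or.inl (ble_t b9))
    clear b6
    rcases Nat.lt_or_ge Gu 800 with h8 | h8
    · obtain ⟨vp, vn, l, tp, tn, e, hp1, hp2⟩ := atv_left hE (Gu := Gu) (Gs := Gs)
        (by omega) h8 hb hdir (fun vp vn l tp tn => k vp vn l tp tn Q)
      refine ⟨vp, vn, l, tp, tn, e, by omega, by omega, by omega, by omega, ?_⟩
      intro p hpc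
      have hb0 : 0 < Nat.add (Nat.sub Gs 800) (Nat.sub 800 Gs) := by
        show 0 < Gs - 800 + (800 - Gs)
        omega
      apply hp1 p K hb0 (dir_im hpc h3 (by omega))
      · intro τ t0 t1
        exact (hg.seg hpc t0 t1).fdom0 h12
      · intro τ t0 t1
        exact (hkb _ (hg.seg hpc t0 t1)).1
    · have hne : 0 < Nat.add (Nat.sub Gs 800) (Nat.sub 800 Gs) ∨ (800 < Gu ∧ Gu < 1000) := by
        show 0 < Gs - 800 + (800 - Gs) ∨ (800 < Gu ∧ Gu < 1000)
        omega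
      obtain ⟨vp, vn, l, tp, tn, e, hp⟩ := atv_right hE (Gu := Gu) (Gs := Gs)
        h8 (by omega) hb hdir hne (fun vp vn l tp tn => k vp vn l tp tn Q)
      refine ⟨vp, vn, l, tp, tn, e, by omega, by omega, by omega, by omega, ?_⟩
      intro p hpc
      apply hp p K
      · intro τ t0 t1
        exact (hg.seg hpc t0 t1).fdom0 h12
      · intro τ t0 t1
        exact (hkb _ (hg.seg hpc t0 t1)).1

/-- The bound of an atom on the rectangle. -/
def RB (U1 U2 S1 S2 Gu Gs vp vn l tp tn Q : ℕ) : Prop :=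
  ∀ p : ℂ, Rc U1 U2 S1 S2 p → -Rf p * 1048576 ≤ ((vp : ℝ) - vn) + 48 +
    (8388608 - (l : ℝ)) * (p.re - (gp Gu Gs).re) + ((tp : ℝ) - tn) * (p.im - (gp Gu Gs).im) +
      (Q : ℝ) / 25600

theorem natmax_ge {S1 S2 : ℕ} {x : ℝ} (h1 : (S1 : ℝ) ≤ x + 102400) (h2 : x + 102400 ≤ S2) :
    |x| ≤ ((mx (Nat.sub S2 102400) (Nat.sub 102400 S1) : ℕ) : ℝ) := by
  rw [mx_eq, Nat.cast_max]
  rcases le_total 0 x with h | h
  · rw [abs_of_nonneg h]
    have hS : 102400 ≤ S2 := by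
      have : (102400 : ℝ) ≤ S2 := by linarith only [h, h2]
      exact_mod_cast this
    have : ((Nat.sub S2 102400 : ℕ) : ℝ) = (S2 : ℝ) - 102400 := by
      show ((S2 - 102400 : ℕ) : ℝ) = _
      rw [Nat.cast_sub hS, Nat.cast_ofNat]
    refine le_trans ?_ (le_max_left _ _)
    rw [this]
    linarith only [h2]
  · rw [abs_of_nonpos h]
    have hS : S1 ≤ 102400 := by
      have : (S1 : ℝ) ≤ 102400 := by linarith only [h, h1]
      exact_mod_cast this
    have : ((Nat.sub 102400 S1 : ℕ) : ℝ) = 102400 - (S1 : ℝ) := by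
      show ((102400 - S1 : ℕ) : ℝ) = _
      rw [Nat.cast_sub hS, Nat.cast_ofNat]
    refine le_trans ?_ (le_max_right _ _)
    rw [this]
    linarith only [h1]

theorem at1_ok (hE : TabOK) {α : Type} {Gu Gs U1 U2 S1 S2 Q K : ℕ} (h1 : U1 ≤ 128 * Gu)
    (h2 : 128 * Gu ≤ U2) (h3 : S1 ≤ 128 * Gs) (h4 : 128 * Gs ≤ S2)
    (hK : K = kE (ent (kIx U1 U2) (jIx S1 S2)))
    (hQ : ∀ p, Rc U1 U2 S1 S2 p → (K : ℝ) / 32 * ((p.re - (gp Gu Gs).re) ^ 2 +
      (p.im - (gp Gu Gs).im) ^ 2) * 1048576 ≤ (Q : ℝ) / 25600)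
    (k : ℕ → ℕ → ℕ → ℕ → ℕ → ℕ → α) (z : α) :
    at1 Gu Gs U1 U2 S1 S2 Q K k z = z ∨ ∃ vp vn l tp tn Q' : ℕ,
      at1 Gu Gs U1 U2 S1 S2 Q K k z = k vp vn l tp tn Q' ∧ 0 < U1 ∧ 0 < S1 ∧
        RB U1 U2 S1 S2 Gu Gs vp vn l tp tn Q' := by
  have key : at0 Gu Gs U1 U2 S1 S2 Q K k z = z ∨ ∃ vp vn l tp tn Q' : ℕ,
      at0 Gu Gs U1 U2 S1 S2 Q K k z = k vp vn l tp tn Q' ∧ 0 < U1 ∧ 0 < S1 ∧
        RB U1 U2 S1 S2 Gu Gs vp vn l tp tn Q' := by
    rcases at0_ok hE h1 h2 h3 h4 hK (Q := Q) k z with h | ⟨vp, vn, l, tp, tn, e, g1, g2, g3, g4, hp⟩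
    · exact Or.inl h
    · right
      refine ⟨vp, vn, l, tp, tn, Q, e, by omega, by omega, ?_⟩
      intro p hpc
      have a := hp p hpc
      have b := hQ p hpc
      unfold PB at a
      have hg : Rc U1 U2 S1 S2 (gp Gu Gs) := gp_Rc h1 h2 h3 h4
      have r1 : (76801 : ℝ) ≤ U1 := by exact_mod_cast g1
      have r2 : (96000 : ℝ) ≤ S1 := by exact_mod_cast g2
      have r3 : (U2 : ℝ) ≤ 128000 := by exact_mod_cast g3
      have r4 : (S2 : ℝ) ≤ 108800 := by exact_mod_cast g4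
      have s1 : |p.re - (gp Gu Gs).re| ≤ 2 := by
        rw [abs_le]
        have := hg.u1
        have := hg.u2
        have := hpc.u1
        have := hpc.u2
        constructor <;> linarith
      have s2 : |p.im - (gp Gu Gs).im| ≤ 1 / 2 := by
        rw [abs_le]
        have := hg.s1
        have := hg.s2
        have := hpc.s1
        have := hpc.s2
        constructor <;> linarith
      linarith only [s2, s1, b, a]
  unfold at1
  cases b1 : Nat.ble 40000000 Q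
  · rw [cond_false]
    exact key
  rw [cond_true]
  cases b2 : cond (Nat.ble 115200 U1) (cond (Nat.ble U2 128000) (Nat.ble 1 S1) false) false
  · rw [cond_false]
    cases b3 : cond (cond (Nat.ble U2 104960) (Nat.ble 99840 U1) false)
          (cond (Nat.ble S2 104960) (Nat.ble 99840 S1) false) false
    · rw [cond_false]
      exact key
    · rw [cond_true]
      clear b2
      have c : (U2 ≤ 104960 ∧ 99840 ≤ U1) ∧ (S2 ≤ 104960 ∧ 99840 ≤ S1) := by
        cases d1 : Nat.ble U2 104960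
        · rw [d1, cond_false, cond_false] at b3
          exact absurd b3 (by decide)
        cases d2 : Nat.ble 99840 U1
        · rw [d1, d2, cond_true, cond_false] at b3
          exact absurd b3 (by decide)
        cases d3 : Nat.ble S2 104960
        · rw [d1, d2, d3, cond_true, cond_true, cond_false] at b3
          exact absurd b3 (by decide)
        cases d4 : Nat.ble 99840 S1
        · rw [d1, d2, d3, d4, cond_true, cond_true, cond_true] at b3
          exact absurd b3 (by decide)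
        exact ⟨⟨ble_t d1, ble_t d2⟩, ⟨ble_t d3, ble_t d4⟩⟩
      clear b3
      obtain ⟨⟨c1, c2⟩, c3, c4⟩ := c
      rw [fN_eq, fN_eq, fN_eq]
      obtain ⟨i, hi⟩ : ∃ i, i = Nat.div (Nat.add (Nat.sub U2 102400) 127) 128 := ⟨_, rfl⟩
      obtain ⟨m, hm⟩ : ∃ m, m = mx (Nat.sub S2 102400) (Nat.sub 102400 S1) := ⟨_, rfl⟩
      obtain ⟨j, hj⟩ : ∃ j, j = Nat.div (Nat.add m 127) 128 := ⟨_, rfl⟩
      rw [← hi, ← hm, ← hj]
      have hi' : i = (U2 - 102400 + 127) / 128 := hi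
      have hj' : j = (m + 127) / 128 := hj
      have hm' : m ≤ 2560 := by
        rw [hm, mx_eq]
        apply max_le
        · show S2 - 102400 ≤ 2560
          omega
        · show 102400 - S1 ≤ 2560
          omega
      have hi20 : i ≤ 20 := by omega
      have hj20 : j ≤ 20 := by omega
      have hi1 : U2 - 102400 ≤ 128 * i := by omega
      have hj1 : m ≤ 128 * j := by omega
      have r1 : (99840 : ℝ) ≤ U1 := by exact_mod_cast c2
      have r3 : (U2 : ℝ) ≤ 104960 := by exact_mod_cast c1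
      have r4 : (S2 : ℝ) ≤ 104960 := by exact_mod_cast c3
      have r5 : (99840 : ℝ) ≤ S1 := by exact_mod_cast c4
      have r6 : (U2 : ℝ) - 102400 ≤ 128 * i := by
        have : U2 ≤ 102400 + 128 * i := by omega
        have : (U2 : ℝ) ≤ 102400 + 128 * i := by exact_mod_cast this
        linarith only [this]
      have r7 : (m : ℝ) ≤ 128 * j := by exact_mod_cast hj1
      have r8 : (i : ℝ) ≤ 20 := by exact_mod_cast hi20
      have r9 : (j : ℝ) ≤ 20 := by exact_mod_cast hj20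
      have i0 : (0 : ℝ) ≤ i := Nat.cast_nonneg i
      have main : ∀ p, Rc U1 U2 S1 S2 p → -Rf p ≤ -Rf (pt i j) := by
        intro p hpc
        have e1 := hpc.u1
        have e2 := hpc.u2
        have e3 := natmax_ge hpc.s1 hpc.s2
        rw [← hm] at e3
        unfold pt
        have e4 : |p.im| * 25600 ≤ 128 * j := by
          have : |p.im * 25600| = |p.im| * 25600 := by
            rw [abs_mul]
            norm_num
          linarith only [this, e3, r7]
        apply near_zero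
        · rw [abs_le]
          constructor <;> linarith
        · linarith only [e2, r6]
        · exact div_nonneg i0 (by norm_num)
        · linarith only [r8]
        · linarith only [e4]
        · linarith only [r9]
      cases b4 : Nat.ble (Nat.add i j) 0
      · rw [cond_false]
        right
        refine ⟨_, _, _, _, _, _, rfl, by omega, by omega, ?_⟩
        have hij : 0 < i + j := ble_f b4
        intro p hpc
        have a := main p hpc
        have b := (abs_le.1 (hE i j (by omega) (by omega) hij).q).2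
        push_cast
        linarith only [b, a]
      · rw [cond_true]
        right
        refine ⟨_, _, _, _, _, _, rfl, by omega, by omega, ?_⟩
        have hij : i + j ≤ 0 := ble_t b4
        intro p hpc
        have a := main p hpc
        have e1 : i = 0 := by omega
        have e2 : j = 0 := by omega
        have e3 : Rf (pt i j) = 0 := by
          rw [e1, e2]
          unfold pt
          have h0 := Rf_zero_line 0
          rw [abs_zero, mul_zero, zero_div, neg_zero] at h0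
          rw [Nat.cast_zero, zero_div]
          exact h0
        rw [e3] at a
        push_cast
        linarith only [a]
  · rw [cond_true]
    right
    have c : 115200 ≤ U1 ∧ U2 ≤ 128000 ∧ 1 ≤ S1 := by
      cases d1 : Nat.ble 115200 U1
      · rw [d1, cond_false] at b2
        exact absurd b2 (by decide)
      cases d2 : Nat.ble U2 128000
      · rw [d1, d2, cond_true, cond_false] at b2
        exact absurd b2 (by decide)
      rw [d1, d2, cond_true, cond_true] at b2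
      exact ⟨ble_t d1, ble_t d2, ble_t b2⟩
    clear b2
    obtain ⟨c1, c2, c3⟩ := c
    refine ⟨_, _, _, _, _, _, rfl, by omega, by omega, ?_⟩
    intro p hpc
    have r1 : (115200 : ℝ) ≤ U1 := by exact_mod_cast c1
    have r2 : (U2 : ℝ) ≤ 128000 := by exact_mod_cast c2
    have e1 := hpc.u1
    have e2 := hpc.u2
    have := near_one (z := p) (by linarith only [e1, r1]) (by linarith only [e2, r2])
    push_cast
    linarith only [this]

/-- **An atom.** -/
theorem atm_ok (hE : TabOK) {α : Type} (Gu Gs lu hu ls hs : ℕ) (k : ℕ → ℕ → ℕ → ℕ → ℕ → ℕ → α) (z : α) :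
    atm Gu Gs lu hu ls hs k z = z ∨ ∃ vp vn l tp tn Q : ℕ,
      atm Gu Gs lu hu ls hs k z = k vp vn l tp tn Q ∧ 0 < Gu ∧ 0 < Gs ∧
        AtOK Gu Gs lu hu ls hs vp vn l tp tn Q := by
  obtain ⟨U1, hU1⟩ : ∃ U1, U1 = Nat.sub (Nat.mul 128 Gu) lu := ⟨_, rfl⟩
  obtain ⟨U2, hU2⟩ : ∃ U2, U2 = Nat.add (Nat.mul 128 Gu) hu := ⟨_, rfl⟩
  obtain ⟨S1, hS1⟩ : ∃ S1, S1 = Nat.sub (Nat.mul 128 Gs) ls := ⟨_, rfl⟩
  obtain ⟨S2, hS2⟩ : ∃ S2, S2 = Nat.add (Nat.mul 128 Gs) hs := ⟨_, rfl⟩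
  have e : atm Gu Gs lu hu ls hs k z = at1 Gu Gs U1 U2 S1 S2
      (quo (kE (ent (kIx U1 U2) (jIx S1 S2))) lu hu ls hs) (kE (ent (kIx U1 U2) (jIx S1 S2))) k z := by
    unfold atm
    rw [fN_eq, fN_eq, fN_eq, fN_eq, fN_eq, fN_eq, ← hU1, ← hU2, ← hS1, ← hS2]
    rfl
  have hU1' : U1 = 128 * Gu - lu := hU1
  have hU2' : U2 = 128 * Gu + hu := hU2
  have hS1' : S1 = 128 * Gs - ls := hS1
  have hS2' : S2 = 128 * Gs + hs := hS2
  have h1 : U1 ≤ 128 * Gu := by omega
  have h2 : 128 * Gu ≤ U2 := by omega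
  have h3 : S1 ≤ 128 * Gs := by omega
  have h4 : 128 * Gs ≤ S2 := by omega
  have c2 : (U2 : ℝ) = 128 * Gu + hu := by rw [hU2']; push_cast; ring
  have d2 : (S2 : ℝ) = 128 * Gs + hs := by rw [hS2']; push_cast; ring
  have c1 : (128 * Gu : ℝ) - lu ≤ U1 := by
    have : 128 * Gu ≤ U1 + lu := by omega
    have : (128 * Gu : ℝ) ≤ U1 + lu := by exact_mod_cast this
    linarith only [this]
  have d1 : (128 * Gs : ℝ) - ls ≤ S1 := by
    have : 128 * Gs ≤ S1 + ls := by omega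
    have : (128 * Gs : ℝ) ≤ S1 + ls := by exact_mod_cast this
    linarith only [this]
  have hQ : ∀ p, Rc U1 U2 S1 S2 p → ((kE (ent (kIx U1 U2) (jIx S1 S2)) : ℕ) : ℝ) / 32 *
      ((p.re - (gp Gu Gs).re) ^ 2 + (p.im - (gp Gu Gs).im) ^ 2) * 1048576 ≤
        ((quo (kE (ent (kIx U1 U2) (jIx S1 S2))) lu hu ls hs : ℕ) : ℝ) / 25600 := by
    intro p hpc
    have e1 := hpc.u1
    have e2 := hpc.u2
    have e3 := hpc.s1
    have e4 := hpc.s2
    have g1 := gp_re Gu Gs
    have g2 := gp_im Gu Gs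
    apply quo_ge
    · rw [g1]; linarith only [e1, c1]
    · rw [g1]; linarith only [e2, c2]
    · rw [g2]; linarith only [e3, d1]
    · rw [g2]; linarith only [e4, d2]
  rcases at1_ok hE h1 h2 h3 h4 rfl hQ k z with h | ⟨vp, vn, l, tp, tn, Q', e2, g1, g2, hp⟩
  · left
    rw [e]
    exact h
  · right
    rw [e]
    refine ⟨vp, vn, l, tp, tn, Q', e2, by omega, by omega, ?_⟩
    intro p a1 a2 a3 a4
    have f1 : (U1 : ℝ) = 128 * Gu - lu := by
      have : U1 + lu = 128 * Gu := by omega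
      have : (U1 : ℝ) + lu = 128 * Gu := by exact_mod_cast this
      linarith only [c1, this]
    have f2 : (S1 : ℝ) = 128 * Gs - ls := by
      have : S1 + ls = 128 * Gs := by omega
      have : (S1 : ℝ) + ls = 128 * Gs := by exact_mod_cast this
      linarith only [d1, this]
    have := hp p ⟨by rw [f1]; exact a1, by rw [c2]; exact a2, by rw [f2]; exact a3, by rw [d2]; exact a4⟩
    rw [gp_re, gp_im] at this
    exact this

theorem pick_ne (a b c d : ℕ) : pick a b c d ≠ 4 := by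
  unfold pick
  cases Nat.ble a b
  · rw [cond_false]
    cases Nat.ble c d
    · rw [cond_false]
      cases Nat.ble a c
      · rw [cond_false]; decide
      · rw [cond_true]; decide
    · rw [cond_true]
      cases Nat.ble a d
      · rw [cond_false]; decide
      · rw [cond_true]; decide
  · rw [cond_true]
    cases Nat.ble c d
    · rw [cond_false]
      cases Nat.ble b c
      · rw [cond_false]; decide
      · rw [cond_true]; decide
    · rw [cond_true]
      cases Nat.ble b d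
      · rw [cond_false]; decide
      · rw [cond_true]; decide

theorem fin_four {A B Lt Ls Lx Lh lt ht ls hs lx hx lh hh : ℕ}
    (h : fin A B Lt Ls Lx Lh lt ht ls hs lx hx lh hh = 4) :
    (A : ℝ) + ((Lt + Ls) + (Lx + Lh)) + 1 ≤ B := by
  unfold fin at h
  cases b : Nat.ble (Nat.succ (Nat.add A (Nat.add (Nat.add Lt Ls) (Nat.add Lx Lh)))) B
  · rw [b, cond_false] at h
    exact absurd h (pick_ne _ _ _ _)
  · have h2 : A + ((Lt + Ls) + (Lx + Lh)) + 1 ≤ B := ble_t b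
    exact_mod_cast h2

theorem cN (n : ℕ) [n.AtLeastTwo] : ((OfNat.ofNat n : ℕ) : ℝ) = OfNat.ofNat n := Nat.cast_ofNat

/-- **The last step.** -/
theorem sm_ok {w c0p c0n c1p c1n c2p c2n c3p c3n c4p c4n c5 Gt Gs Gx Gh lt ht ls hs lx hx lh hh
    vp vn l tp tn Q vp1 vn1 l1 tp1 tn1 Q1 vp2 vn2 l2 tp2 tn2 Q2 : ℕ}
    (h : sm w c0p c0n c1p c1n c2p c2n c3p c3n c4p c4n c5 Gt Gs Gx Gh lt ht ls hs lx hx lh hh
      vp vn l tp tn Q vp1 vn1 l1 tp1 tn1 Q1 vp2 vn2 l2 tp2 tn2 Q2 = 4) {P B A dt ds dx dh : ℝ}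
    (t1 : -(lt : ℝ) ≤ dt * 25600) (t2 : dt * 25600 ≤ ht)
    (s1 : -(ls : ℝ) ≤ ds * 25600) (s2 : ds * 25600 ≤ hs)
    (x1 : -(lx : ℝ) ≤ dx * 25600) (x2 : dx * 25600 ≤ hx)
    (y1 : -(lh : ℝ) ≤ dh * 25600) (y2 : dh * 25600 ≤ hh)
    (hP : P ≤ ((vp : ℝ) - vn) + 48 + (8388608 - (l : ℝ)) * (-dt) + ((tp : ℝ) - tn) * (-ds) +
      (Q : ℝ) / 25600)
    (hB : B ≤ ((vp1 : ℝ) - vn1) + 48 + (8388608 - (l1 : ℝ)) * (dt - dx) +
      ((tp1 : ℝ) - tn1) * (ds - dh) + (Q1 : ℝ) / 25600)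
    (hA : A ≤ ((vp2 : ℝ) - vn2) + 48 + (8388608 - (l2 : ℝ)) * (dt + dx) +
      ((tp2 : ℝ) - tn2) * (ds + dh) + (Q2 : ℝ) / 25600) :
    w * P + B + A < ((c0p : ℝ) - c0n) + ((c1p : ℝ) - c1n) * (((Gt : ℝ) - 800) / 200 + dt) +
      ((c2p : ℝ) - c2n) * (((Gs : ℝ) - 800) / 200 + ds) +
      ((c3p : ℝ) - c3n) * (((Gx : ℝ) - 800) / 200 + dx) +
      ((c4p : ℝ) - c4n) * (((Gh : ℝ) - 800) / 200 + dh) -
      c5 * ((((Gx : ℝ) - 800) / 200 + dx) * (((Gh : ℝ) - 800) / 200 + dh)) := by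
  unfold sm at h
  rw [fN_eq, fN_eq, fN_eq, fN_eq, fN_eq, fN_eq] at h
  have h := fin_four h
  have hLt := lin_ge (p := Nat.add (Nat.add (Nat.mul w l) c1n) 16777216)
    (n := Nat.add (Nat.add (Nat.mul w 8388608) c1p) (Nat.add l1 l2)) t1 t2
  have hLs := lin_ge (p := Nat.add (Nat.add (Nat.mul w tn) c2n) (Nat.add tp1 tp2))
    (n := Nat.add (Nat.add (Nat.mul w tp) c2p) (Nat.add tn1 tn2)) s1 s2
  have hLx := lin_ge (p := Nat.add l1 (Nat.add c3n (Nat.div (Nat.mul c5 Gh) 200)))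
    (n := Nat.add l2 (Nat.add c3p (Nat.mul 4 c5))) x1 x2
  have hLh := lin_ge (p := Nat.add (Nat.add tn1 tp2) (Nat.add c4n (Nat.div (Nat.mul c5 Gx) 200)))
    (n := Nat.add (Nat.add tp1 tn2) (Nat.add c4p (Nat.mul 4 c5))) y1 y2
  have d1 : ∀ a n : ℕ, 0 < n → (a : ℝ) / n - 1 ≤ ((Nat.div a n : ℕ) : ℝ) ∧
      ((Nat.div a n : ℕ) : ℝ) ≤ (a : ℝ) / n := by
    intro a n hn
    have h1 := succ_div_ge a n hn
    have h2 : ((Nat.succ (Nat.div a n) : ℕ) : ℝ) = ((Nat.div a n : ℕ) : ℝ) + 1 := Nat.cast_succ _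
    rw [h2] at h1
    exact ⟨by linarith only [h1], Nat.cast_div_le⟩
  obtain ⟨f1, f2⟩ := d1 (Nat.mul c5 Gh) 200 (by norm_num)
  obtain ⟨f3, f4⟩ := d1 (Nat.mul c5 Gx) 200 (by norm_num)
  obtain ⟨f5, f6⟩ := d1 (Nat.mul (Nat.mul 16 c5) (Nat.add (Nat.mul Gx Gh) 640000)) 25 (by norm_num)
  obtain ⟨f7, f8⟩ := d1 (Nat.mul c5 (Nat.mul (mx lx hx) (mx lh hh))) 25600 (by norm_num)
  clear d1
  obtain ⟨mX, hmX⟩ : ∃ m, m = mx lx hx := ⟨_, rfl⟩
  obtain ⟨mH, hmH⟩ : ∃ m, m = mx lh hh := ⟨_, rfl⟩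
  have a1 : |dx * 25600| ≤ (mX : ℝ) := by
    rw [hmX, mx_eq, Nat.cast_max, abs_le]
    have := le_max_left (lx : ℝ) hx
    have := le_max_right (lx : ℝ) hx
    constructor <;> linarith
  have a2 : |dh * 25600| ≤ (mH : ℝ) := by
    rw [hmH, mx_eq, Nat.cast_max, abs_le]
    have := le_max_left (lh : ℝ) hh
    have := le_max_right (lh : ℝ) hh
    constructor <;> linarith
  rw [← hmX, ← hmH] at f7 f8 h
  clear hmX hmH
  obtain ⟨F1, hF1⟩ : ∃ F, F = Nat.div (Nat.mul c5 Gh) 200 := ⟨_, rfl⟩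
  obtain ⟨F2, hF2⟩ : ∃ F, F = Nat.div (Nat.mul c5 Gx) 200 := ⟨_, rfl⟩
  obtain ⟨F3, hF3⟩ : ∃ F, F = Nat.div (Nat.mul (Nat.mul 16 c5) (Nat.add (Nat.mul Gx Gh) 640000)) 25 :=
    ⟨_, rfl⟩
  obtain ⟨F4, hF4⟩ : ∃ F, F = Nat.div (Nat.mul c5 (Nat.mul mX mH)) 25600 := ⟨_, rfl⟩
  rw [← hF1] at f1 f2 hLx h
  rw [← hF2] at f3 f4 hLh h
  rw [← hF3] at f5 f6 h
  rw [← hF4] at f7 f8 h
  clear hF1 hF2 hF3 hF4
  obtain ⟨L1, hL1⟩ : ∃ F, F = lin (Nat.add (Nat.add (Nat.mul w l) c1n) 16777216)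
    (Nat.add (Nat.add (Nat.mul w 8388608) c1p) (Nat.add l1 l2)) lt ht := ⟨_, rfl⟩
  obtain ⟨L2, hL2⟩ : ∃ F, F = lin (Nat.add (Nat.add (Nat.mul w tn) c2n) (Nat.add tp1 tp2))
    (Nat.add (Nat.add (Nat.mul w tp) c2p) (Nat.add tn1 tn2)) ls hs := ⟨_, rfl⟩
  obtain ⟨L3, hL3⟩ : ∃ F, F = lin (Nat.add l1 (Nat.add c3n F1))
    (Nat.add l2 (Nat.add c3p (Nat.mul 4 c5))) lx hx := ⟨_, rfl⟩
  obtain ⟨L4, hL4⟩ : ∃ F, F = lin (Nat.add (Nat.add tn1 tp2) (Nat.add c4n F2))
    (Nat.add (Nat.add tp1 tn2) (Nat.add c4p (Nat.mul 4 c5))) lh hh := ⟨_, rfl⟩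
  rw [← hL1] at hLt h
  rw [← hL2] at hLs h
  rw [← hL3] at hLx h
  rw [← hL4] at hLh h
  clear hL1 hL2 hL3 hL4
  simp only [add_cast', mul_cast'] at h hLt hLs hLx hLh f1 f2 f3 f4 f5 f6 f7 f8
  have k1 : ((16777216 : ℕ) : ℝ) = 16777216 := Nat.cast_ofNat
  have k2 : ((8388608 : ℕ) : ℝ) = 8388608 := Nat.cast_ofNat
  have k3 : ((4 : ℕ) : ℝ) = 4 := Nat.cast_ofNat
  have k4 : ((200 : ℕ) : ℝ) = 200 := Nat.cast_ofNat
  have k5 : ((25 : ℕ) : ℝ) = 25 := Nat.cast_ofNat
  have k6 : ((25600 : ℕ) : ℝ) = 25600 := Nat.cast_ofNat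
  have k7 : ((16 : ℕ) : ℝ) = 16 := Nat.cast_ofNat
  have k8 : ((640000 : ℕ) : ℝ) = 640000 := Nat.cast_ofNat
  have k9 : ((512 : ℕ) : ℝ) = 512 := Nat.cast_ofNat
  have k10 : ((128 : ℕ) : ℝ) = 128 := Nat.cast_ofNat
  have k11 : ((800 : ℕ) : ℝ) = 800 := Nat.cast_ofNat
  have k12 : ((48 : ℕ) : ℝ) = 48 := Nat.cast_ofNat
  have k13 : ((100 : ℕ) : ℝ) = 100 := Nat.cast_ofNat
  rw [k1, k2] at hLt
  rw [k3] at hLx hLh
  rw [k4] at f1 f2 f3 f4
  rw [k5, k7, k8] at f5 f6
  rw [k6] at f7 f8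
  rw [k6, k9, k10, k11, k12, k13] at h
  clear k1 k2 k3 k4 k5 k6 k7 k8 k9 k10 k11 k12 k13
  have hw : (0 : ℝ) ≤ w := Nat.cast_nonneg w
  have hc5 : (0 : ℝ) ≤ c5 := Nat.cast_nonneg c5
  have hwP := mul_le_mul_of_nonneg_left hP hw
  have g1 : (((c5 : ℝ) * Gh) / 200 - F1) * (dx * 25600) ≤ mX := by
    have b1 : 0 ≤ ((c5 : ℝ) * Gh) / 200 - F1 := by linarith only [f2]
    have b2 : ((c5 : ℝ) * Gh) / 200 - F1 ≤ 1 := by linarith only [f1]
    have b3 := le_abs_self (dx * 25600)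
    calc (((c5 : ℝ) * Gh) / 200 - F1) * (dx * 25600) ≤ (((c5 : ℝ) * Gh) / 200 - F1) * |dx * 25600| :=
          mul_le_mul_of_nonneg_left b3 b1
      _ ≤ 1 * |dx * 25600| := mul_le_mul_of_nonneg_right b2 (abs_nonneg _)
      _ ≤ mX := by linarith only [a1]
  have g2 : (((c5 : ℝ) * Gx) / 200 - F2) * (dh * 25600) ≤ mH := by
    have b1 : 0 ≤ ((c5 : ℝ) * Gx) / 200 - F2 := by linarith only [f4]
    have b2 : ((c5 : ℝ) * Gx) / 200 - F2 ≤ 1 := by linarith only [f3]
    have b3 := le_abs_self (dh * 25600)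
    calc (((c5 : ℝ) * Gx) / 200 - F2) * (dh * 25600) ≤ (((c5 : ℝ) * Gx) / 200 - F2) * |dh * 25600| :=
          mul_le_mul_of_nonneg_left b3 b1
      _ ≤ 1 * |dh * 25600| := mul_le_mul_of_nonneg_right b2 (abs_nonneg _)
      _ ≤ mH := by linarith only [a2]
  have g3 : (c5 : ℝ) * ((dx * 25600) * (dh * 25600)) ≤ c5 * (mX * mH) := by
    apply mul_le_mul_of_nonneg_left _ hc5
    calc (dx * 25600) * (dh * 25600) ≤ |(dx * 25600) * (dh * 25600)| := le_abs_self _
      _ = |dx * 25600| * |dh * 25600| := abs_mul _ _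
      _ ≤ mX * mH := mul_le_mul a1 a2 (abs_nonneg _) (by positivity)
  linarith only [g3, g2, g1, hwP, f7, f5, hLh, hLx, hLs, hLt, h, hA, hB]

/-- The position of a number. -/
def Ps (a b : ℕ) (x : ℝ) : Prop := (a : ℝ) ≤ x * 25600 + 102400 ∧ x * 25600 + 102400 ≤ b

theorem ctr_d {a b : ℕ} {x : ℝ} (h : Ps a b x) (G : ℕ) :
    -((Nat.sub (Nat.mul 128 G) a : ℕ) : ℝ) ≤ (x - ((G : ℝ) - 800) / 200) * 25600 ∧
      (x - ((G : ℝ) - 800) / 200) * 25600 ≤ ((Nat.sub b (Nat.mul 128 G) : ℕ) : ℝ) := by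
  have h1 : 128 * G ≤ Nat.sub (Nat.mul 128 G) a + a := by
    show 128 * G ≤ 128 * G - a + a
    omega
  have h2 : b ≤ Nat.sub b (Nat.mul 128 G) + 128 * G := by
    show b ≤ b - 128 * G + 128 * G
    omega
  have h3 : 128 * (G : ℝ) ≤ ((Nat.sub (Nat.mul 128 G) a : ℕ) : ℝ) + a := by exact_mod_cast h1
  have h4 : (b : ℝ) ≤ ((Nat.sub b (Nat.mul 128 G) : ℕ) : ℝ) + 128 * G := by exact_mod_cast h2
  have := h.1
  have := h.2
  constructor <;> linarith

/-- **The test of a cell.** -/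
theorem tst_ok (hE : TabOK) {w c0p c0n c1p c1n c2p c2n c3p c3n c4p c4n c5 ta tb sa sb xa xb ha hb : ℕ}
    (h : tst w c0p c0n c1p c1n c2p c2n c3p c3n c4p c4n c5 ta tb sa sb xa xb ha hb = 4) {y v : ℂ}
    (ht : Ps ta tb y.re) (hs : Ps sa sb y.im) (hx : Ps xa xb v.re) (hh : Ps ha hb v.im) :
    ((w : ℝ) * -Rf (1 / 2 - y) - Rf (y - v) - Rf (y + v)) * 1048576 < ((c0p : ℝ) - c0n) +
      ((c1p : ℝ) - c1n) * y.re + ((c2p : ℝ) - c2n) * y.im + ((c3p : ℝ) - c3n) * v.re +
      ((c4p : ℝ) - c4n) * v.im - c5 * (v.re * v.im) := by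
  unfold tst at h
  simp only [fN_eq] at h
  generalize ctr ta tb = Gt at h
  generalize ctr sa sb = Gs at h
  generalize ctr xa xb = Gx at h
  generalize ctr ha hb = Gh at h
  have et := ctr_d ht Gt
  have es := ctr_d hs Gs
  have ex := ctr_d hx Gx
  have eh := ctr_d hh Gh
  generalize Nat.sub (Nat.mul 128 Gt) ta = lt at h et
  generalize Nat.sub tb (Nat.mul 128 Gt) = ht' at h et
  generalize Nat.sub (Nat.mul 128 Gs) sa = ls at h es
  generalize Nat.sub sb (Nat.mul 128 Gs) = hs' at h es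
  generalize Nat.sub (Nat.mul 128 Gx) xa = lx at h ex
  generalize Nat.sub xb (Nat.mul 128 Gx) = hx' at h ex
  generalize Nat.sub (Nat.mul 128 Gh) ha = lh at h eh
  generalize Nat.sub hb (Nat.mul 128 Gh) = hh' at h eh
  have np := pick_ne (Nat.add lt ht') (Nat.add ls hs') (Nat.add lx hx') (Nat.add lh hh')
  rcases atm_ok hE (Nat.sub 1700 Gt) (Nat.sub 1600 Gs) ht' lt hs' ls _ _ with
    e | ⟨vp, vn, l, tp, tn, Q, e, p1, p2, hP⟩
  · exact absurd (e.symm.trans h) np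
  replace h := e.symm.trans h
  clear e
  beta_reduce at h
  rcases atm_ok hE (Nat.sub (Nat.add Gt 800) Gx) (Nat.sub (Nat.add Gs 800) Gh) (Nat.add lt hx')
      (Nat.add ht' lx) (Nat.add ls hh') (Nat.add hs' lh) _ _ with
    e | ⟨vp1, vn1, l1, tp1, tn1, Q1, e, p3, p4, hB⟩
  · exact absurd (e.symm.trans h) np
  replace h := e.symm.trans h
  clear e
  beta_reduce at h
  rcases atm_ok hE (Nat.sub (Nat.add Gt Gx) 800) (Nat.sub (Nat.add Gs Gh) 800) (Nat.add lt lx)
      (Nat.add ht' hx') (Nat.add ls lh) (Nat.add hs' hh') _ _ with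
    e | ⟨vp2, vn2, l2, tp2, tn2, Q2, e, p5, p6, hA⟩
  · exact absurd (e.symm.trans h) np
  replace h := e.symm.trans h
  clear e np
  beta_reduce at h
  have q1 : ((Nat.sub 1700 Gt : ℕ) : ℝ) = 1700 - Gt := by
    have h1 : 0 < 1700 - Gt := p1
    have h2 : (1700 - Gt) + Gt = 1700 := by omega
    have h3 : ((1700 - Gt : ℕ) : ℝ) + Gt = 1700 := by exact_mod_cast h2
    have h4 : ((Nat.sub 1700 Gt : ℕ) : ℝ) = ((1700 - Gt : ℕ) : ℝ) := rfl
    rw [h4]
    linarith only [h3]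
  have q2 : ((Nat.sub 1600 Gs : ℕ) : ℝ) = 1600 - Gs := by
    have h1 : 0 < 1600 - Gs := p2
    have h2 : (1600 - Gs) + Gs = 1600 := by omega
    have h3 : ((1600 - Gs : ℕ) : ℝ) + Gs = 1600 := by exact_mod_cast h2
    have h4 : ((Nat.sub 1600 Gs : ℕ) : ℝ) = ((1600 - Gs : ℕ) : ℝ) := rfl
    rw [h4]
    linarith only [h3]
  have q3 : ((Nat.sub (Nat.add Gt 800) Gx : ℕ) : ℝ) = Gt + 800 - Gx := by
    have h1 : 0 < Gt + 800 - Gx := p3
    have h2 : (Gt + 800 - Gx) + Gx = Gt + 800 := by omega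
    have h3 : ((Gt + 800 - Gx : ℕ) : ℝ) + Gx = Gt + 800 := by exact_mod_cast h2
    have h4 : ((Nat.sub (Nat.add Gt 800) Gx : ℕ) : ℝ) = ((Gt + 800 - Gx : ℕ) : ℝ) := rfl
    rw [h4]
    linarith only [h3]
  have q4 : ((Nat.sub (Nat.add Gs 800) Gh : ℕ) : ℝ) = Gs + 800 - Gh := by
    have h1 : 0 < Gs + 800 - Gh := p4
    have h2 : (Gs + 800 - Gh) + Gh = Gs + 800 := by omega
    have h3 : ((Gs + 800 - Gh : ℕ) : ℝ) + Gh = Gs + 800 := by exact_mod_cast h2
    have h4 : ((Nat.sub (Nat.add Gs 800) Gh : ℕ) : ℝ) = ((Gs + 800 - Gh : ℕ) : ℝ) := rfl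
    rw [h4]
    linarith only [h3]
  have q5 : ((Nat.sub (Nat.add Gt Gx) 800 : ℕ) : ℝ) = Gt + Gx - 800 := by
    have h1 : 0 < Gt + Gx - 800 := p5
    have h2 : (Gt + Gx - 800) + 800 = Gt + Gx := by omega
    have h3 : ((Gt + Gx - 800 : ℕ) : ℝ) + 800 = Gt + Gx := by exact_mod_cast h2
    have h4 : ((Nat.sub (Nat.add Gt Gx) 800 : ℕ) : ℝ) = ((Gt + Gx - 800 : ℕ) : ℝ) := rfl
    rw [h4]
    linarith only [h3]
  have q6 : ((Nat.sub (Nat.add Gs Gh) 800 : ℕ) : ℝ) = Gs + Gh - 800 := by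
    have h1 : 0 < Gs + Gh - 800 := p6
    have h2 : (Gs + Gh - 800) + 800 = Gs + Gh := by omega
    have h3 : ((Gs + Gh - 800 : ℕ) : ℝ) + 800 = Gs + Gh := by exact_mod_cast h2
    have h4 : ((Nat.sub (Nat.add Gs Gh) 800 : ℕ) : ℝ) = ((Gs + Gh - 800 : ℕ) : ℝ) := rfl
    rw [h4]
    linarith only [h3]
  have r1 : (1 / 2 - y).re = 1 / 2 - y.re := by
    simp
  have r2 : (1 / 2 - y).im = -y.im := by
    simp
  have hP' := hP (1 / 2 - y) (by rw [q1, r1]; linarith only [et.2]) (by rw [q1, r1]; linarith only [et.1])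
    (by rw [q2, r2]; linarith only [es.2]) (by rw [q2, r2]; linarith only [es.1])
  have hB' := hB (y - v) (by rw [q3, add_cast', sub_re]; linarith only [ex.2, et.1])
    (by rw [q3, add_cast', sub_re]; linarith only [ex.1, et.2])
    (by rw [q4, add_cast', sub_im]; linarith only [eh.2, es.1])
    (by rw [q4, add_cast', sub_im]; linarith only [eh.1, es.2])
  have hA' := hA (y + v) (by rw [q5, add_cast', add_re]; linarith only [ex.1, et.1])
    (by rw [q5, add_cast', add_re]; linarith only [ex.2, et.2])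
    (by rw [q6, add_cast', add_im]; linarith only [eh.1, es.1])
    (by rw [q6, add_cast', add_im]; linarith only [eh.2, es.2])
  rw [q1, q2, r1, r2] at hP'
  rw [q3, q4, sub_re, sub_im] at hB'
  rw [q5, q6, add_re, add_im] at hA'
  have key := sm_ok h et.1 et.2 es.1 es.2 ex.1 ex.2 eh.1 eh.2 (P := -Rf (1 / 2 - y) * 1048576)
    (B := -Rf (y - v) * 1048576) (A := -Rf (y + v) * 1048576) (by
      refine hP'.trans (le_of_eq ?_)
      ring) (by
      refine hB'.trans (le_of_eq ?_)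
      ring) (by
      refine hA'.trans (le_of_eq ?_)
      ring)
  have u1 : ((Gt : ℝ) - 800) / 200 + (y.re - ((Gt : ℝ) - 800) / 200) = y.re := by ring
  have u2 : ((Gs : ℝ) - 800) / 200 + (y.im - ((Gs : ℝ) - 800) / 200) = y.im := by ring
  have u3 : ((Gx : ℝ) - 800) / 200 + (v.re - ((Gx : ℝ) - 800) / 200) = v.re := by ring
  have u4 : ((Gh : ℝ) - 800) / 200 + (v.im - ((Gh : ℝ) - 800) / 200) = v.im := by ring
  rw [u1, u2, u3, u4] at key
  refine lt_of_eq_of_lt ?_ key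
  ring

theorem Ps.split {a b : ℕ} {x : ℝ} (h : Ps a b x) (m : ℕ) : Ps a m x ∨ Ps m b x := by
  rcases le_total (x * 25600 + 102400) (m : ℝ) with h1 | h1
  · exact Or.inl ⟨h.1, h1⟩
  · exact Or.inr ⟨h1, h.2⟩

theorem cond_and {a b : Bool} (h : cond a b false = true) : a = true ∧ b = true := by
  cases a
  · rw [cond_false] at h
    exact absurd h (by decide)
  · exact ⟨rfl, h⟩

/-- **Branch and bound.** -/
theorem bb_ok {T : ℕ → ℕ → ℕ → ℕ → ℕ → ℕ → ℕ → ℕ → ℕ} {R : ℝ → ℝ → ℝ → ℝ → Prop}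
    (hT : ∀ ta tb sa sb xa xb ha hb, T ta tb sa sb xa xb ha hb = 4 → ∀ t s x h, Ps ta tb t →
      Ps sa sb s → Ps xa xb x → Ps ha hb h → R t s x h) (n : ℕ) :
    ∀ ta tb sa sb xa xb ha hb, bb T n ta tb sa sb xa xb ha hb = true → ∀ t s x h, Ps ta tb t →
      Ps sa sb s → Ps xa xb x → Ps ha hb h → R t s x h := by
  induction n with
  | zero =>
    intro ta tb sa sb xa xb ha hb h
    exact hT _ _ _ _ _ _ _ _ (Nat.eq_of_beq_eq_true h)
  | succ n ih =>
    intro ta tb sa sb xa xb ha hb hb2 t s x h h1 h2 h3 h4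
    have e : bb T (n + 1) ta tb sa sb xa xb ha hb = fN (fun r => cond (Nat.beq r 4) true
        (cond (Nat.ble r 1)
          (cond (Nat.ble r 0)
            (fN (fun m => cond (bb T n ta m sa sb xa xb ha hb) (bb T n m tb sa sb xa xb ha hb) false)
              (Nat.div (Nat.add ta tb) 2))
            (fN (fun m => cond (bb T n ta tb sa m xa xb ha hb) (bb T n ta tb m sb xa xb ha hb) false)
              (Nat.div (Nat.add sa sb) 2)))
          (cond (Nat.ble r 2)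
            (fN (fun m => cond (bb T n ta tb sa sb xa m ha hb) (bb T n ta tb sa sb m xb ha hb) false)
              (Nat.div (Nat.add xa xb) 2))
            (fN (fun m => cond (bb T n ta tb sa sb xa xb ha m) (bb T n ta tb sa sb xa xb m hb) false)
              (Nat.div (Nat.add ha hb) 2)))))
        (T ta tb sa sb xa xb ha hb) := rfl
    rw [e, fN_eq] at hb2
    generalize hr : T ta tb sa sb xa xb ha hb = r at hb2
    cases b1 : Nat.beq r 4
    · rw [b1, cond_false] at hb2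
      cases b2 : Nat.ble r 1
      · rw [b2, cond_false] at hb2
        cases b3 : Nat.ble r 2
        · rw [b3, cond_false, fN_eq] at hb2
          have c := cond_and hb2
          rcases h4.split (Nat.div (Nat.add ha hb) 2) with d | d
          · exact ih _ _ _ _ _ _ _ _ c.1 t s x h h1 h2 h3 d
          · exact ih _ _ _ _ _ _ _ _ c.2 t s x h h1 h2 h3 d
        · rw [b3, cond_true, fN_eq] at hb2
          have c := cond_and hb2
          rcases h3.split (Nat.div (Nat.add xa xb) 2) with d | d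
          · exact ih _ _ _ _ _ _ _ _ c.1 t s x h h1 h2 d h4
          · exact ih _ _ _ _ _ _ _ _ c.2 t s x h h1 h2 d h4
      · rw [b2, cond_true] at hb2
        cases b3 : Nat.ble r 0
        · rw [b3, cond_false, fN_eq] at hb2
          have c := cond_and hb2
          rcases h2.split (Nat.div (Nat.add sa sb) 2) with d | d
          · exact ih _ _ _ _ _ _ _ _ c.1 t s x h h1 d h3 h4
          · exact ih _ _ _ _ _ _ _ _ c.2 t s x h h1 d h3 h4
        · rw [b3, cond_true, fN_eq] at hb2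
          have c := cond_and hb2
          rcases h1.split (Nat.div (Nat.add ta tb) 2) with d | d
          · exact ih _ _ _ _ _ _ _ _ c.1 t s x h d h2 h3 h4
          · exact ih _ _ _ _ _ _ _ _ c.2 t s x h d h2 h3 h4
    · exact hT _ _ _ _ _ _ _ _ (hr.trans (Nat.eq_of_beq_eq_true b1)) t s x h h1 h2 h3 h4

/-- **The certificate.** -/
theorem bb_sound (hE : TabOK) {w c0p c0n c1p c1n c2p c2n c3p c3n c4p c4n c5 n ta tb sa sb xa xb ha hb : ℕ}
    (h : bb (tst w c0p c0n c1p c1n c2p c2n c3p c3n c4p c4n c5) n ta tb sa sb xa xb ha hb = true)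
    {y v : ℂ} (h1 : Ps ta tb y.re) (h2 : Ps sa sb y.im) (h3 : Ps xa xb v.re) (h4 : Ps ha hb v.im) :
    ((w : ℝ) * -Rf (1 / 2 - y) - Rf (y - v) - Rf (y + v)) * 1048576 < ((c0p : ℝ) - c0n) +
      ((c1p : ℝ) - c1n) * y.re + ((c2p : ℝ) - c2n) * y.im + ((c3p : ℝ) - c3n) * v.re +
      ((c4p : ℝ) - c4n) * v.im - c5 * (v.re * v.im) := by
  have key := bb_ok (R := fun t s x h => ∀ y v : ℂ, y.re = t → y.im = s → v.re = x → v.im = h →
    ((w : ℝ) * -Rf (1 / 2 - y) - Rf (y - v) - Rf (y + v)) * 1048576 < ((c0p : ℝ) - c0n) +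
      ((c1p : ℝ) - c1n) * y.re + ((c2p : ℝ) - c2n) * y.im + ((c3p : ℝ) - c3n) * v.re +
      ((c4p : ℝ) - c4n) * v.im - c5 * (v.re * v.im)) (by
    intro ta tb sa sb xa xb ha hb h t s x h' h1 h2 h3 h4 y v e1 e2 e3 e4
    rw [← e1] at h1
    rw [← e2] at h2
    rw [← e3] at h3
    rw [← e4] at h4
    exact tst_ok hE h h1 h2 h3 h4) n ta tb sa sb xa xb ha hb h _ _ _ _ h1 h2 h3 h4
  exact key y v rfl rfl rfl rfl

end Pool.Agent.S5.Tb
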