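import Pool.Agent.S5.I.Te0
import Pool.Agent.S5.I.Ts

/-!
# Branch and bound for general slot functions: the atoms are right
-/

set_option autoImplicit false

namespace Pool.Agent.S5.Tb

open Pool.Agent.H63.VC3 Pool.Agent.S3 Complex MeasureTheory Filter Topology Set

/-- The left half of the strip. -/
theorem dat_left6 {i j ee : ℕ} (hi : i ≤ 100) (h0 : 0 < i + j) (h : EntOK i j ee) (up : Bool) :
    DatOK ((((i : ℝ) / 200 : ℝ) : ℂ) + (((if up = true then 1 else -1) * ((j : ℝ) / 200) : ℝ) : ℂ) * I)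
      up (qE ee) 0 (tE ee) 0 (lE ee) := by
  have hi' : (i : ℝ) / 200 ≤ 1 / 2 := by
    have : (i : ℝ) ≤ 100 := by exact_mod_cast hi
    linarith
  have hi0 : (0 : ℝ) ≤ (i : ℝ) / 200 := by positivity
  have hre : (pt i j).re = (i : ℝ) / 200 := by
    unfold pt
    exact line_re _ _
  have him : (pt i j).im = (j : ℝ) / 200 := by
    unfold pt
    exact line_im _ _
  have hf : fdom (pt i j) := by
    unfold fdom
    rw [hre, him]
    rcases Nat.eq_zero_or_pos j with hz | hz
    · right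
      have : 0 < i := by omega
      exact ⟨by positivity, by linarith⟩
    · left
      positivity
  have hh1 : he (pt i j) = hh (pt i j) := by
    rw [he_eq_log hf (by rw [hre]; linarith) (by rw [hre]; linarith)]
    rfl
  have hL : (he (pt i j)).re = Lg ((j : ℝ) / 200) ((i : ℝ) / 200) := by
    rw [re_he hf]
    rfl
  have hq := h.q
  have ht := h.t
  have hl := h.l
  rw [← hh1] at ht
  rw [← hL] at hl
  cases up with
  | true =>
    have e : (((i : ℝ) / 200 : ℝ) : ℂ) + (((if true = true then 1 else -1) * ((j : ℝ) / 200) : ℝ) : ℂ) * I =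
        pt i j := by
      unfold pt
      simp
    rw [e]
    refine ⟨?_, ?_, ?_⟩
    · simpa using hq
    · rw [abs_le] at hl ⊢
      constructor <;> linarith [hl.1, hl.2]
    · simpa using ht
  | false =>
    have e : (((i : ℝ) / 200 : ℝ) : ℂ) + (((if false = true then 1 else -1) * ((j : ℝ) / 200) : ℝ) : ℂ) * I =
        (starRingEnd ℂ) (pt i j) := by
      unfold pt
      rw [conj_line]
      simp
    rw [e]
    refine ⟨?_, ?_, ?_⟩
    · rw [Rf_conj]
      simpa using hq
    · rw [he_conj' hf, conj_re]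
      rw [abs_le] at hl ⊢
      constructor <;> linarith [hl.1, hl.2]
    · rw [he_conj' hf, conj_im]
      simp only [Bool.false_eq_true, if_false]
      rw [abs_le] at ht ⊢
      push_cast
      constructor <;> linarith [ht.1, ht.2]

/-- The values at the points of the table in the strip. -/
theorem dat_ok6 (hE : ∀ i j : ℕ, i ≤ 100 → j ≤ 60 → 0 < i + j → EntOK i j (ent6 i j))
    {α : Type} {a b : ℕ} (ha : a ≤ 200) (hb : b ≤ 60) (h : 0 < b ∨ (0 < a ∧ a < 200)) (up : Bool)
    (k : ℕ → ℕ → ℕ → ℕ → ℕ → α) : ∃ qp qn tp tn l : ℕ, dat6 a b k = k qp qn tp tn l ∧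
      DatOK ((((a : ℝ) / 200 : ℝ) : ℂ) + (((if up = true then 1 else -1) * ((b : ℝ) / 200) : ℝ) : ℂ) * I)
        up qp qn tp tn l := by
  rcases le_or_gt a 100 with h1 | h1
  · refine ⟨qE (ent6 a b), 0, tE (ent6 a b), 0, lE (ent6 a b), ?_, ?_⟩
    · unfold dat6
      rw [Nat.ble_eq_true_of_le h1]
      simp only [cond_true, fN_eq]
    · exact dat_left6 h1 (by omega) (hE a b h1 hb (by omega)) up
  · refine ⟨0, qE (ent6 (200 - a) b), 0, tE (ent6 (200 - a) b), lE (ent6 (200 - a) b), ?_, ?_⟩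
    · unfold dat6
      have : Nat.ble a 100 = false := by
        rw [← Bool.not_eq_true, Nat.ble_eq]
        omega
      rw [this]
      simp only [cond_false, fN_eq, Nat.sub_eq]
    · have h2 : 200 - a ≤ 100 := by omega
      have h3 : 0 < 200 - a + b := by omega
      have hd := dat_left6 h2 h3 (hE (200 - a) b h2 hb h3) (!up)
      set g' : ℂ := (((200 - a : ℕ) : ℝ) / 200 : ℝ) +
        (((if (!up) = true then 1 else -1) * ((b : ℝ) / 200) : ℝ) : ℂ) * I with hg'
      have hcast : (((200 - a : ℕ) : ℝ)) = 200 - (a : ℝ) := by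
        rw [Nat.cast_sub ha]
        norm_num
      have hg : (((a : ℝ) / 200 : ℝ) : ℂ) +
          (((if up = true then 1 else -1) * ((b : ℝ) / 200) : ℝ) : ℂ) * I = 1 - g' := by
        rw [hg', hcast]
        cases up <;> simp <;> ring
      have hf : fdom g' := by
        unfold fdom
        rw [hg', line_re, line_im, hcast]
        rcases Nat.eq_zero_or_pos b with hz | hz
        · right
          have h5 : a < 200 := by omega
          have h6 : (a : ℝ) < 200 := by exact_mod_cast h5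
          have h7 : (100 : ℝ) < a := by exact_mod_cast h1
          constructor <;> linarith
        · left
          have : (0 : ℝ) < b := by exact_mod_cast hz
          cases up <;> simp <;> omega
      rw [hg]
      obtain ⟨q, l, t⟩ := hd
      refine ⟨?_, ?_, ?_⟩
      · rw [Rf_one_sub]
        rw [abs_le] at q ⊢
        push_cast at q ⊢
        constructor <;> linarith [q.1, q.2]
      · rw [he_one_sub hf]
        exact l
      · rw [he_one_sub hf]
        rw [abs_le] at t ⊢
        cases up <;> simp at t ⊢ <;> constructor <;> linarith [t.1, t.2]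

/-- The hypothesis on the table. -/
def TabOK6 : Prop := ∀ i j : ℕ, i ≤ 100 → j ≤ 60 → 0 < i + j → EntOK i j (ent6 i j)

theorem TabOK6.tab (h : TabOK6) : TabOK := by
  intro i j hi hj h0
  rw [← ent6_eq i j hj]
  exact h i j hi (by omega) h0

theorem atv_right6 (hE : TabOK6) {α : Type} {Gu Gs b : ℕ} {up : Bool} (h0 : 800 ≤ Gu) (h1 : Gu ≤ 1000)
    (hb : b ≤ 60) (h2 : sgn' up * (b : ℝ) = (Gs : ℝ) - 800) (hne : 0 < b ∨ (800 < Gu ∧ Gu < 1000))
    (k : ℕ → ℕ → ℕ → ℕ → ℕ → α) : ∃ vp vn l tp tn : ℕ, atv6 Gu b up k = k vp vn l tp tn ∧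
      ∀ (z : ℂ) (K : ℕ), (∀ τ : ℝ, 0 ≤ τ → τ ≤ 1 → fdom (gp Gu Gs + τ * (z - gp Gu Gs))) →
        (∀ τ : ℝ, 0 ≤ τ → τ ≤ 1 → ‖ct (gp Gu Gs + τ * (z - gp Gu Gs))‖ ≤ (K : ℝ) / 16) →
          PB z Gu Gs vp vn l tp tn K := by
  obtain ⟨a, ea⟩ : ∃ a, a = Nat.sub Gu 800 := ⟨_, rfl⟩
  have ea2 : a = Gu - 800 := ea
  obtain ⟨qp, qn, tp, tn, l, e, hd⟩ := dat_ok6 hE (a := a) (b := b) (by omega) hb (by omega) up
    (fun qp qn tp tn l => cond up (k qp qn l tp tn) (k qp qn l tn tp))
  have ha : (a : ℝ) = (Gu : ℝ) - 800 := by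
    rw [ea2, Nat.cast_sub h0]
    norm_num
  rw [gp_eq ha h2] at hd
  rw [ea] at e
  have e0 : atv6 Gu b up k = cond up (k qp qn l tp tn) (k qp qn l tn tp) := by
    unfold atv6
    rw [Nat.ble_eq_true_of_le h0, cond_true]
    exact e
  cases up with
  | true =>
    refine ⟨qp, qn, l, tp, tn, e0, ?_⟩
    intro z K hf hK
    have h := tay hd hf hK
    unfold PB
    rw [if_pos rfl, one_mul] at h
    have := abs_nonneg (z.im - (gp Gu Gs).im)
    linarith
  | false =>
    refine ⟨qp, qn, l, tn, tp, e0, ?_⟩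
    intro z K hf hK
    have h := tay hd hf hK
    unfold PB
    rw [if_neg (by decide)] at h
    have := abs_nonneg (z.im - (gp Gu Gs).im)
    linarith

/-- The sum with `pi |Im z|`. -/
theorem atv_left6 (hE : TabOK6) {α : Type} {Gu Gs b : ℕ} {up : Bool} (h0 : 601 ≤ Gu) (h1 : Gu < 800)
    (hb : b ≤ 60) (h2 : sgn' up * (b : ℝ) = (Gs : ℝ) - 800)
    (k : ℕ → ℕ → ℕ → ℕ → ℕ → α) : ∃ vp vn l tp tn : ℕ, atv6 Gu b up k = k vp vn l tp tn ∧
      (∀ (z : ℂ) (K : ℕ), 0 < b → 0 ≤ sgn' up * z.im →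
        (∀ τ : ℝ, 0 ≤ τ → τ ≤ 1 → fdom (gp Gu Gs + τ * (z - gp Gu Gs))) →
        (∀ τ : ℝ, 0 ≤ τ → τ ≤ 1 → ‖ct (gp Gu Gs + τ * (z - gp Gu Gs))‖ ≤ (K : ℝ) / 16) →
          PB z Gu Gs vp vn l tp tn K) ∧
      (∀ (z : ℂ) (K : ℕ), 0 ≤ sgn' up * z.im →
        (∀ τ : ℝ, 0 ≤ τ → τ ≤ 1 → fdom (gp Gu Gs + 1 + τ * (z + 1 - (gp Gu Gs + 1)))) →
        (∀ τ : ℝ, 0 ≤ τ → τ ≤ 1 → ‖ct (gp Gu Gs + 1 + τ * (z + 1 - (gp Gu Gs + 1)))‖ ≤ (K : ℝ) / 16) →
          PB z Gu Gs vp vn l tp tn K) := by
  obtain ⟨a, ea⟩ : ∃ a, a = Nat.sub Gu 600 := ⟨_, rfl⟩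
  have ea2 : a = Gu - 600 := ea
  obtain ⟨qp, qn, tp, tn, l, e, hd⟩ := dat_ok6 hE (a := a) (b := b) (by omega) hb (by omega) up
    (fun qp qn tp tn l =>
      fN (fun vp => cond up (k vp qn l (Nat.add tp 3294199) tn) (k vp qn l tn (Nat.add tp 3294199)))
        (Nat.add qp (Nat.succ (Nat.div (Nat.mul 3294199 b) 200))))
  have ha : (a : ℝ) = (Gu : ℝ) - 600 := by
    rw [ea2, Nat.cast_sub (by omega)]
    norm_num
  rw [gp_eq1 ha h2] at hd
  rw [ea] at e
  have e0 : atv6 Gu b up k = k (Nat.add qp (Nat.succ (Nat.div (Nat.mul 3294199 b) 200))) qn l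
      (if up = true then Nat.add tp 3294199 else tn) (if up = true then tn else Nat.add tp 3294199) := by
    unfold atv6
    rw [Bool.eq_false_iff.2 (fun h3 => absurd (ble_t h3) (not_le.2 h1)), cond_false]
    rw [e, fN_eq]
    cases up
    · rw [if_neg (by decide), if_neg (by decide)]
      rfl
    · rw [if_pos rfl, if_pos rfl]
      rfl
  have hre : (gp Gu Gs + 1).re = (gp Gu Gs).re + 1 := by rw [add_re, one_re]
  have him : (gp Gu Gs + 1).im = (gp Gu Gs).im := by rw [add_im, one_im, add_zero]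
  have p1 := pi_lt'
  have p2 := pi_gt'
  refine ⟨_, _, _, _, _, e0, ?_, ?_⟩
  · intro z K hb0 hz hf hK
    have h := taylor hf hK
    have q1 := (abs_le.1 hd.q).2
    have q2 := hd.l
    have q3 := hd.t
    have hgim : 0 < sgn' up * (gp Gu Gs).im := by
      rw [gp_im, ← h2]
      have hb1 : (0 : ℝ) < b := by exact_mod_cast hb0
      cases up
      · unfold sgn'
        rw [if_neg (by decide)]
        linarith
      · unfold sgn'
        rw [if_pos rfl]
        linarith
    have hA : |(gp Gu Gs).im| = sgn' up * (gp Gu Gs).im := by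
      cases up
      · unfold sgn' at hgim ⊢
        rw [if_neg (by decide)] at hgim ⊢
        rw [abs_of_neg (by linarith)]
        ring
      · unfold sgn' at hgim ⊢
        rw [if_pos rfl] at hgim ⊢
        rw [abs_of_pos (by linarith)]
        ring
    have hR : -Rf (gp Gu Gs) = -Rf (gp Gu Gs + 1) + Real.pi * (sgn' up * (gp Gu Gs).im) := by
      rw [Rf_shift (gp Gu Gs), hA]
    have hH : (he (gp Gu Gs)).re = (he (gp Gu Gs + 1)).re ∧
        (he (gp Gu Gs)).im = (he (gp Gu Gs + 1)).im + Real.pi * sgn' up := by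
      cases up
      · unfold sgn' at hgim ⊢
        rw [if_neg (by decide)] at hgim ⊢
        rw [he_shift_dn (by linarith)]
        simp only [sub_re, sub_im, mul_re, mul_im, ofReal_re, ofReal_im, I_re, I_im]
        constructor <;> ring
      · unfold sgn' at hgim ⊢
        rw [if_pos rfl] at hgim ⊢
        rw [he_shift_up (by linarith)]
        simp only [add_re, add_im, mul_re, mul_im, ofReal_re, ofReal_im, I_re, I_im]
        constructor <;> ring
    rw [hR, hH.1, hH.2] at h
    have h4 : -((he (gp Gu Gs + 1)).re * 1048576) * (z.re - (gp Gu Gs).re) ≤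
        (8388608 - (l : ℝ)) * (z.re - (gp Gu Gs).re) + 4 * |z.re - (gp Gu Gs).re| := by
      have : |((he (gp Gu Gs + 1)).re * 1048576 - ((l : ℝ) - 8388608)) * (z.re - (gp Gu Gs).re)| ≤
          4 * |z.re - (gp Gu Gs).re| := by
        rw [abs_mul]
        exact mul_le_mul_of_nonneg_right hd.l (abs_nonneg _)
      have := (abs_le.1 this).1
      linarith
    have h5 : ((he (gp Gu Gs + 1)).im * 1048576) * (z.im - (gp Gu Gs).im) ≤
        (if up = true then 1 else -1) * ((tp : ℝ) - tn) * (z.im - (gp Gu Gs).im) +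
          4 * |z.im - (gp Gu Gs).im| := by
      have : |((he (gp Gu Gs + 1)).im * 1048576 - (if up = true then 1 else -1) * ((tp : ℝ) - tn)) *
          (z.im - (gp Gu Gs).im)| ≤ 4 * |z.im - (gp Gu Gs).im| := by
        rw [abs_mul]
        exact mul_le_mul_of_nonneg_right hd.t (abs_nonneg _)
      have := (abs_le.1 this).2
      linarith
    refine shift_sum (X := -Rf z * 1048576 - Real.pi * 1048576 * (sgn' up * z.im)) h2 ?_ (by linarith)
    linarith
  · intro z K hz hf hK
    have h := tay hd hf hK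
    rw [hre, him] at h
    have e1 : (z + 1).re - ((gp Gu Gs).re + 1) = z.re - (gp Gu Gs).re := by
      rw [add_re, one_re]
      ring
    have e2 : (z + 1).im = z.im := by rw [add_im, one_im, add_zero]
    rw [e1, e2] at h
    refine shift_sum (X := -Rf (z + 1) * 1048576) h2 h ?_
    rw [Rf_shift z]
    have e3 : |z.im| = sgn' up * z.im := by
      cases up
      · unfold sgn' at hz ⊢
        rw [if_neg (by decide)] at hz ⊢
        rw [abs_of_nonpos (by linarith)]
        ring
      · unfold sgn' at hz ⊢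
        rw [if_pos rfl] at hz ⊢
        rw [abs_of_nonneg (by linarith)]
        ring
    rw [e3]
    apply le_of_eq
    ring

theorem atx_ok6 (hE : TabOK6) {α : Type} {Gu Gs b sm : ℕ} {up : Bool} (h0 : 601 ≤ Gu) (h1 : Gu < 800)
    (hb : b ≤ 60) (h2 : sgn' up * (b : ℝ) = (Gs : ℝ) - 800)
    (k : ℕ → ℕ → ℕ → ℕ → ℕ → α) : ∃ vp vn l tp tn : ℕ, atx6 Gu b sm up k = k vp vn l tp tn ∧
      (∀ (z : ℂ) (K : ℕ), |z.im| * 25600 ≤ sm →
        (∀ τ : ℝ, 0 ≤ τ → τ ≤ 1 → fdom (gp Gu Gs + 1 + τ * (z + 1 - (gp Gu Gs + 1)))) →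
        (∀ τ : ℝ, 0 ≤ τ → τ ≤ 1 → ‖ct (gp Gu Gs + 1 + τ * (z + 1 - (gp Gu Gs + 1)))‖ ≤ (K : ℝ) / 16) →
          PB z Gu Gs vp vn l tp tn K) := by
  obtain ⟨a, ea⟩ : ∃ a, a = Nat.sub Gu 600 := ⟨_, rfl⟩
  have ea2 : a = Gu - 600 := ea
  obtain ⟨qp, qn, tp, tn, l, e, hd⟩ := dat_ok6 hE (a := a) (b := b) (by omega) hb (by omega) up
    (fun qp qn tp tn l =>
      fN (fun vp => cond up (k vp qn l tp tn) (k vp qn l tn tp))
        (Nat.add qp (Nat.succ (Nat.div (Nat.mul 3294199 sm) 25600))))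
  have ha : (a : ℝ) = (Gu : ℝ) - 600 := by
    rw [ea2, Nat.cast_sub (by omega)]
    norm_num
  rw [gp_eq1 ha h2] at hd
  rw [ea] at e
  have e0 : atx6 Gu b sm up k = k (Nat.add qp (Nat.succ (Nat.div (Nat.mul 3294199 sm) 25600))) qn l
      (if up = true then tp else tn) (if up = true then tn else tp) := by
    unfold atx6
    rw [e, fN_eq]
    cases up
    · rw [if_neg (by decide), if_neg (by decide)]
      rfl
    · rw [if_pos rfl, if_pos rfl]
      rfl
  have hre : (gp Gu Gs + 1).re = (gp Gu Gs).re + 1 := by rw [add_re, one_re]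
  have him : (gp Gu Gs + 1).im = (gp Gu Gs).im := by rw [add_im, one_im, add_zero]
  have p1 := pi_lt'
  refine ⟨_, _, _, _, _, e0, ?_⟩
  intro z K hz hf hK
  have h := tay hd hf hK
  rw [hre, him] at h
  have e1 : (z + 1).re - ((gp Gu Gs).re + 1) = z.re - (gp Gu Gs).re := by
    rw [add_re, one_re]
    ring
  have e2 : (z + 1).im = z.im := by rw [add_im, one_im, add_zero]
  rw [e1, e2] at h
  have h3 := succ_div_ge (Nat.mul 3294199 sm) 25600 (by norm_num)
  have c1 : ((3294199 : ℕ) : ℝ) = 3294199 := Nat.cast_ofNat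
  have c2 : ((25600 : ℕ) : ℝ) = 25600 := Nat.cast_ofNat
  rw [mul_cast', c1, c2] at h3
  have h4 : Real.pi * 1048576 * |z.im| ≤ 3294199 * sm / 25600 := by
    rw [le_div_iff₀ (by norm_num)]
    calc Real.pi * 1048576 * |z.im| * 25600 = Real.pi * 1048576 * (|z.im| * 25600) := by ring
      _ ≤ 3294199 * (|z.im| * 25600) := mul_le_mul_of_nonneg_right p1.le (by positivity)
      _ ≤ 3294199 * sm := mul_le_mul_of_nonneg_left hz (by norm_num)
  have ha2 := abs_nonneg (z.im - (gp Gu Gs).im)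
  unfold PB
  rw [Rf_shift z, add_cast']
  cases up with
  | true =>
    rw [if_pos rfl] at h
    rw [if_pos rfl, if_pos rfl]
    linarith
  | false =>
    rw [if_neg (by decide)] at h
    rw [if_neg (by decide), if_neg (by decide)]
    linarith

theorem at0_ok6 (hE : TabOK6) {α : Type} {Gu Gs U1 U2 S1 S2 Q K : ℕ} (h1 : U1 ≤ 128 * Gu)
    (h2 : 128 * Gu ≤ U2) (h3 : S1 ≤ 128 * Gs) (h4 : 128 * Gs ≤ S2)
    (hK : K = kE (ent (kIx U1 U2) (jIx S1 S2))) (k : ℕ → ℕ → ℕ → ℕ → ℕ → ℕ → α) (z : α) :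
    at06 Gu Gs U1 U2 S1 S2 Q K k z = z ∨ ∃ vp vn l tp tn : ℕ,
      at06 Gu Gs U1 U2 S1 S2 Q K k z = k vp vn l tp tn Q ∧ 76801 ≤ U1 ∧ 94720 ≤ S1 ∧ U2 ≤ 128000 ∧
        S2 ≤ 110080 ∧ ∀ p, Rc U1 U2 S1 S2 p → PB p Gu Gs vp vn l tp tn K := by
  unfold at06
  cases b1 : Nat.ble 16383 K
  swap
  · left; rfl
  cases b2 : Nat.ble U1 76800
  swap
  · left; rfl
  cases b3 : Nat.ble 128001 U2
  swap
  · left; rfl
  cases b4 : Nat.ble 110081 S2
  swap
  · left; rfl
  cases b5 : Nat.ble S1 94719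
  swap
  · left; rfl
  rw [cond_false, cond_false, cond_false, cond_false, cond_false]
  have c1 := ble_f b1
  have c2 := ble_f b2
  have c3 := ble_f b3
  have c4 := ble_f b4
  have c5 := ble_f b5
  clear b1 b2 b3 b4 b5
  have hg : Rc U1 U2 S1 S2 (gp Gu Gs) := gp_Rc h1 h2 h3 h4
  have hb : Nat.add (Nat.sub Gs 800) (Nat.sub 800 Gs) ≤ 60 := by
    show Gs - 800 + (800 - Gs) ≤ 60
    omega
  have hkb : ∀ w, Rc U1 U2 S1 S2 w → ‖ct w‖ ≤ (K : ℝ) / 16 ∧ ‖ct (w + 1)‖ ≤ (K : ℝ) / 16 := by
    intro w hw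
    rw [hK] at c1 ⊢
    exact (kb hE.tab hw (by omega) (by omega) c1).2
  clear hK c1
  have hdir := dir_eq h4
  cases b6 : cond (cond (Nat.ble 102401 S1) true (Nat.ble S2 102399)) true
      (cond (Nat.ble U1 102400) false (Nat.ble U2 127999))
  · rw [cond_false]
    cases b7 : Nat.ble U2 102399
    · left; rfl
    · rw [cond_true]
      have c7 := ble_t b7
      clear b6
      cases b8 : cond (Nat.ble 102400 S1) true (Nat.ble S2 102400)
      · rw [cond_false]
        right
        have hup : (Nat.ble 800 Gs = true ↔ 800 ≤ Gs) :=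
          ⟨fun h => ble_t h, fun h => Nat.ble_eq_true_of_le h⟩
        obtain ⟨vp, vn, l, tp, tn, e, hp⟩ := atx_ok6 hE (Gu := Gu) (Gs := Gs)
          (sm := mx (Nat.sub S2 102400) (Nat.sub 102400 S1)) (by omega) (by omega) hb (sgn_b hup)
          (fun vp vn l tp tn => k vp vn l tp tn Q)
        refine ⟨vp, vn, l, tp, tn, e, by omega, by omega, by omega, by omega, ?_⟩
        intro p hpc
        apply hp p K
        · rw [mx_eq]
          have a1 := hpc.s1
          have a2 := hpc.s2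
          rcases le_total 0 p.im with h | h
          · rw [abs_of_nonneg h]
            have hS : 102400 ≤ S2 := by
              have : (102400 : ℝ) ≤ S2 := by linarith
              exact_mod_cast this
            have : ((Nat.sub S2 102400 : ℕ) : ℝ) = (S2 : ℝ) - 102400 := by
              show ((S2 - 102400 : ℕ) : ℝ) = _
              rw [Nat.cast_sub hS, Nat.cast_ofNat]
            rw [Nat.cast_max]
            refine le_trans ?_ (le_max_left _ _)
            rw [this]
            linarith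
          · rw [abs_of_nonpos h]
            have hS : S1 ≤ 102400 := by
              have : (S1 : ℝ) ≤ 102400 := by linarith
              exact_mod_cast this
            have : ((Nat.sub 102400 S1 : ℕ) : ℝ) = 102400 - (S1 : ℝ) := by
              show ((102400 - S1 : ℕ) : ℝ) = _
              rw [Nat.cast_sub hS, Nat.cast_ofNat]
            rw [Nat.cast_max]
            refine le_trans ?_ (le_max_right _ _)
            rw [this]
            linarith
        · intro τ t0 t1
          rw [seg1]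
          exact (hg.seg hpc t0 t1).fdom1 (by omega) c7
        · intro τ t0 t1
          rw [seg1]
          exact (hkb _ (hg.seg hpc t0 t1)).2
      · rw [cond_true]
        right
        have h12 : 102400 ≤ S1 ∨ S2 ≤ 102400 := by
          cases b9 : Nat.ble 102400 S1
          · rw [b9, cond_false] at b8
            exact Or.inr (ble_t b8)
          · exact Or.inl (ble_t b9)
        obtain ⟨vp, vn, l, tp, tn, e, hp1, hp2⟩ := atv_left6 hE (Gu := Gu) (Gs := Gs)
          (by omega) (by omega) hb hdir (fun vp vn l tp tn => k vp vn l tp tn Q)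
        refine ⟨vp, vn, l, tp, tn, e, by omega, by omega, by omega, by omega, ?_⟩
        intro p hpc
        apply hp2 p K (dir_im hpc h3 h12)
        · intro τ t0 t1
          rw [seg1]
          exact (hg.seg hpc t0 t1).fdom1 (by omega) c7
        · intro τ t0 t1
          rw [seg1]
          exact (hkb _ (hg.seg hpc t0 t1)).2
  · rw [cond_true]
    right
    have h12 : (102401 ≤ S1 ∨ S2 ≤ 102399) ∨ 102401 ≤ U1 ∧ U2 ≤ 127999 := by
      cases b9 : Nat.ble 102401 S1
      · rw [b9, cond_false] at b6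
        cases b10 : Nat.ble S2 102399
        · rw [b10, cond_false] at b6
          cases b11 : Nat.ble U1 102400
          · rw [b11, cond_false] at b6
            have := ble_f b11
            exact Or.inr ⟨by omega, ble_t b6⟩
          · rw [b11, cond_true] at b6
            exact absurd b6 (by decide)
        · exact Or.inl (Or.inr (ble_t b10))
      · exact Or.inl (Or.inl (ble_t b9))
    clear b6
    rcases Nat.lt_or_ge Gu 800 with h8 | h8
    · obtain ⟨vp, vn, l, tp, tn, e, hp1, hp2⟩ := atv_left6 hE (Gu := Gu) (Gs := Gs)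
        (by omega) h8 hb hdir (fun vp vn l tp tn => k vp vn l tp tn Q)
      refine ⟨vp, vn, l, tp, tn, e, by omega, by omega, by omega, by omega, ?_⟩
      intro p hpc
      have hb0 : 0 < Nat.add (Nat.sub Gs 800) (Nat.sub 800 Gs) := by
        show 0 < Gs - 800 + (800 - Gs)
        omega
      apply hp1 p K hb0 (dir_im hpc h3 (by omega))
      · intro τ t0 t1
        exact (hg.seg hpc t0 t1).fdom0 h12
      · intro τ t0 t1
        exact (hkb _ (hg.seg hpc t0 t1)).1
    · have hne : 0 < Nat.add (Nat.sub Gs 800) (Nat.sub 800 Gs) ∨ (800 < Gu ∧ Gu < 1000) := by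
        show 0 < Gs - 800 + (800 - Gs) ∨ (800 < Gu ∧ Gu < 1000)
        omega
      obtain ⟨vp, vn, l, tp, tn, e, hp⟩ := atv_right6 hE (Gu := Gu) (Gs := Gs)
        h8 (by omega) hb hdir hne (fun vp vn l tp tn => k vp vn l tp tn Q)
      refine ⟨vp, vn, l, tp, tn, e, by omega, by omega, by omega, by omega, ?_⟩
      intro p hpc
      apply hp p K
      · intro τ t0 t1
        exact (hg.seg hpc t0 t1).fdom0 h12
      · intro τ t0 t1
        exact (hkb _ (hg.seg hpc t0 t1)).1

theorem at1_ok6 (hE : TabOK6) {α : Type} {Gu Gs U1 U2 S1 S2 Q K : ℕ} (h1 : U1 ≤ 128 * Gu)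
    (h2 : 128 * Gu ≤ U2) (h3 : S1 ≤ 128 * Gs) (h4 : 128 * Gs ≤ S2)
    (hK : K = kE (ent (kIx U1 U2) (jIx S1 S2)))
    (hQ : ∀ p, Rc U1 U2 S1 S2 p → (K : ℝ) / 32 * ((p.re - (gp Gu Gs).re) ^ 2 +
      (p.im - (gp Gu Gs).im) ^ 2) * 1048576 ≤ (Q : ℝ) / 25600)
    (k : ℕ → ℕ → ℕ → ℕ → ℕ → ℕ → α) (z : α) :
    at16 Gu Gs U1 U2 S1 S2 Q K k z = z ∨ ∃ vp vn l tp tn Q' : ℕ,
      at16 Gu Gs U1 U2 S1 S2 Q K k z = k vp vn l tp tn Q' ∧ 0 < U1 ∧ 0 < S1 ∧
        RB U1 U2 S1 S2 Gu Gs vp vn l tp tn Q' := by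
  have key : at06 Gu Gs U1 U2 S1 S2 Q K k z = z ∨ ∃ vp vn l tp tn Q' : ℕ,
      at06 Gu Gs U1 U2 S1 S2 Q K k z = k vp vn l tp tn Q' ∧ 0 < U1 ∧ 0 < S1 ∧
        RB U1 U2 S1 S2 Gu Gs vp vn l tp tn Q' := by
    rcases at0_ok6 hE h1 h2 h3 h4 hK (Q := Q) k z with h | ⟨vp, vn, l, tp, tn, e, g1, g2, g3, g4, hp⟩
    · exact Or.inl h
    · right
      refine ⟨vp, vn, l, tp, tn, Q, e, by omega, by omega, ?_⟩
      intro p hpc
      have a := hp p hpc
      have b := hQ p hpc
      unfold PB at a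
      have hg : Rc U1 U2 S1 S2 (gp Gu Gs) := gp_Rc h1 h2 h3 h4
      have r1 : (76801 : ℝ) ≤ U1 := by exact_mod_cast g1
      have r2 : (94720 : ℝ) ≤ S1 := by exact_mod_cast g2
      have r3 : (U2 : ℝ) ≤ 128000 := by exact_mod_cast g3
      have r4 : (S2 : ℝ) ≤ 110080 := by exact_mod_cast g4
      have s1 : |p.re - (gp Gu Gs).re| ≤ 2 := by
        rw [abs_le]
        have := hg.u1
        have := hg.u2
        have := hpc.u1
        have := hpc.u2
        constructor <;> linarith
      have s2 : |p.im - (gp Gu Gs).im| ≤ 1 := by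
        rw [abs_le]
        have := hg.s1
        have := hg.s2
        have := hpc.s1
        have := hpc.s2
        constructor <;> linarith
      linarith
  unfold at16
  cases b1 : Nat.ble 40000000 Q
  · rw [cond_false]
    exact key
  rw [cond_true]
  cases b2 : cond (Nat.ble 115200 U1) (cond (Nat.ble U2 128000) (Nat.ble 1 S1) false) false
  · rw [cond_false]
    cases b3 : cond (cond (Nat.ble U2 104960) (Nat.ble 99840 U1) false)
          (cond (Nat.ble S2 104960) (Nat.ble 99840 S1) false) false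
    · rw [cond_false]
      exact key
    · rw [cond_true]
      clear b2
      have c : (U2 ≤ 104960 ∧ 99840 ≤ U1) ∧ (S2 ≤ 104960 ∧ 99840 ≤ S1) := by
        cases d1 : Nat.ble U2 104960
        · rw [d1, cond_false, cond_false] at b3
          exact absurd b3 (by decide)
        cases d2 : Nat.ble 99840 U1
        · rw [d1, d2, cond_true, cond_false] at b3
          exact absurd b3 (by decide)
        cases d3 : Nat.ble S2 104960
        · rw [d1, d2, d3, cond_true, cond_true, cond_false] at b3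
          exact absurd b3 (by decide)
        cases d4 : Nat.ble 99840 S1
        · rw [d1, d2, d3, d4, cond_true, cond_true, cond_true] at b3
          exact absurd b3 (by decide)
        exact ⟨⟨ble_t d1, ble_t d2⟩, ⟨ble_t d3, ble_t d4⟩⟩
      clear b3
      obtain ⟨⟨c1, c2⟩, c3, c4⟩ := c
      rw [fN_eq, fN_eq, fN_eq]
      obtain ⟨i, hi⟩ : ∃ i, i = Nat.div (Nat.add (Nat.sub U2 102400) 127) 128 := ⟨_, rfl⟩
      obtain ⟨m, hm⟩ : ∃ m, m = mx (Nat.sub S2 102400) (Nat.sub 102400 S1) := ⟨_, rfl⟩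
      obtain ⟨j, hj⟩ : ∃ j, j = Nat.div (Nat.add m 127) 128 := ⟨_, rfl⟩
      rw [← hi, ← hm, ← hj]
      have hi' : i = (U2 - 102400 + 127) / 128 := hi
      have hj' : j = (m + 127) / 128 := hj
      have hm' : m ≤ 2560 := by
        rw [hm, mx_eq]
        apply max_le
        · show S2 - 102400 ≤ 2560
          omega
        · show 102400 - S1 ≤ 2560
          omega
      have hi20 : i ≤ 20 := by omega
      have hj20 : j ≤ 20 := by omega
      have hi1 : U2 - 102400 ≤ 128 * i := by omega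
      have hj1 : m ≤ 128 * j := by omega
      have r1 : (99840 : ℝ) ≤ U1 := by exact_mod_cast c2
      have r3 : (U2 : ℝ) ≤ 104960 := by exact_mod_cast c1
      have r4 : (S2 : ℝ) ≤ 104960 := by exact_mod_cast c3
      have r5 : (99840 : ℝ) ≤ S1 := by exact_mod_cast c4
      have r6 : (U2 : ℝ) - 102400 ≤ 128 * i := by
        have : U2 ≤ 102400 + 128 * i := by omega
        have : (U2 : ℝ) ≤ 102400 + 128 * i := by exact_mod_cast this
        linarith
      have r7 : (m : ℝ) ≤ 128 * j := by exact_mod_cast hj1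
      have r8 : (i : ℝ) ≤ 20 := by exact_mod_cast hi20
      have r9 : (j : ℝ) ≤ 20 := by exact_mod_cast hj20
      have i0 : (0 : ℝ) ≤ i := Nat.cast_nonneg i
      have main : ∀ p, Rc U1 U2 S1 S2 p → -Rf p ≤ -Rf (pt i j) := by
        intro p hpc
        have e1 := hpc.u1
        have e2 := hpc.u2
        have e3 := natmax_ge hpc.s1 hpc.s2
        rw [← hm] at e3
        unfold pt
        have e4 : |p.im| * 25600 ≤ 128 * j := by
          have : |p.im * 25600| = |p.im| * 25600 := by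
            rw [abs_mul]
            norm_num
          linarith
        apply near_zero
        · rw [abs_le]
          constructor <;> linarith
        · linarith
        · exact div_nonneg i0 (by norm_num)
        · linarith
        · linarith
        · linarith
      cases b4 : Nat.ble (Nat.add i j) 0
      · rw [cond_false]
        right
        refine ⟨_, _, _, _, _, _, rfl, by omega, by omega, ?_⟩
        have hij : 0 < i + j := ble_f b4
        intro p hpc
        have a := main p hpc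
        have b := (abs_le.1 (hE.tab i j (by omega) (by omega) hij).q).2
        push_cast
        linarith
      · rw [cond_true]
        right
        refine ⟨_, _, _, _, _, _, rfl, by omega, by omega, ?_⟩
        have hij : i + j ≤ 0 := ble_t b4
        intro p hpc
        have a := main p hpc
        have e1 : i = 0 := by omega
        have e2 : j = 0 := by omega
        have e3 : Rf (pt i j) = 0 := by
          rw [e1, e2]
          unfold pt
          have h0 := Rf_zero_line 0
          rw [abs_zero, mul_zero, zero_div, neg_zero] at h0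
          rw [Nat.cast_zero, zero_div]
          exact h0
        rw [e3] at a
        push_cast
        linarith
  · rw [cond_true]
    right
    have c : 115200 ≤ U1 ∧ U2 ≤ 128000 ∧ 1 ≤ S1 := by
      cases d1 : Nat.ble 115200 U1
      · rw [d1, cond_false] at b2
        exact absurd b2 (by decide)
      cases d2 : Nat.ble U2 128000
      · rw [d1, d2, cond_true, cond_false] at b2
        exact absurd b2 (by decide)
      rw [d1, d2, cond_true, cond_true] at b2
      exact ⟨ble_t d1, ble_t d2, ble_t b2⟩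
    clear b2
    obtain ⟨c1, c2, c3⟩ := c
    refine ⟨_, _, _, _, _, _, rfl, by omega, by omega, ?_⟩
    intro p hpc
    have r1 : (115200 : ℝ) ≤ U1 := by exact_mod_cast c1
    have r2 : (U2 : ℝ) ≤ 128000 := by exact_mod_cast c2
    have e1 := hpc.u1
    have e2 := hpc.u2
    have := near_one (z := p) (by linarith) (by linarith)
    push_cast
    linarith

/-- **An atom.** -/
theorem atm_ok6 (hE : TabOK6) {α : Type} (Gu Gs lu hu ls hs : ℕ) (k : ℕ → ℕ → ℕ → ℕ → ℕ → ℕ → α) (z : α) :
    atm6 Gu Gs lu hu ls hs k z = z ∨ ∃ vp vn l tp tn Q : ℕ,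
      atm6 Gu Gs lu hu ls hs k z = k vp vn l tp tn Q ∧ 0 < Gu ∧ 0 < Gs ∧
        AtOK Gu Gs lu hu ls hs vp vn l tp tn Q := by
  obtain ⟨U1, hU1⟩ : ∃ U1, U1 = Nat.sub (Nat.mul 128 Gu) lu := ⟨_, rfl⟩
  obtain ⟨U2, hU2⟩ : ∃ U2, U2 = Nat.add (Nat.mul 128 Gu) hu := ⟨_, rfl⟩
  obtain ⟨S1, hS1⟩ : ∃ S1, S1 = Nat.sub (Nat.mul 128 Gs) ls := ⟨_, rfl⟩
  obtain ⟨S2, hS2⟩ : ∃ S2, S2 = Nat.add (Nat.mul 128 Gs) hs := ⟨_, rfl⟩
  have e : atm6 Gu Gs lu hu ls hs k z = at16 Gu Gs U1 U2 S1 S2
      (quo (kE (ent (kIx U1 U2) (jIx S1 S2))) lu hu ls hs) (kE (ent (kIx U1 U2) (jIx S1 S2))) k z := by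
    unfold atm6
    rw [fN_eq, fN_eq, fN_eq, fN_eq, fN_eq, fN_eq, ← hU1, ← hU2, ← hS1, ← hS2]
    rfl
  have hU1' : U1 = 128 * Gu - lu := hU1
  have hU2' : U2 = 128 * Gu + hu := hU2
  have hS1' : S1 = 128 * Gs - ls := hS1
  have hS2' : S2 = 128 * Gs + hs := hS2
  have h1 : U1 ≤ 128 * Gu := by omega
  have h2 : 128 * Gu ≤ U2 := by omega
  have h3 : S1 ≤ 128 * Gs := by omega
  have h4 : 128 * Gs ≤ S2 := by omega
  have c2 : (U2 : ℝ) = 128 * Gu + hu := by rw [hU2']; push_cast; ring
  have d2 : (S2 : ℝ) = 128 * Gs + hs := by rw [hS2']; push_cast; ring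
  have c1 : (128 * Gu : ℝ) - lu ≤ U1 := by
    have : 128 * Gu ≤ U1 + lu := by omega
    have : (128 * Gu : ℝ) ≤ U1 + lu := by exact_mod_cast this
    linarith
  have d1 : (128 * Gs : ℝ) - ls ≤ S1 := by
    have : 128 * Gs ≤ S1 + ls := by omega
    have : (128 * Gs : ℝ) ≤ S1 + ls := by exact_mod_cast this
    linarith
  have hQ : ∀ p, Rc U1 U2 S1 S2 p → ((kE (ent (kIx U1 U2) (jIx S1 S2)) : ℕ) : ℝ) / 32 *
      ((p.re - (gp Gu Gs).re) ^ 2 + (p.im - (gp Gu Gs).im) ^ 2) * 1048576 ≤
        ((quo (kE (ent (kIx U1 U2) (jIx S1 S2))) lu hu ls hs : ℕ) : ℝ) / 25600 := by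
    intro p hpc
    have e1 := hpc.u1
    have e2 := hpc.u2
    have e3 := hpc.s1
    have e4 := hpc.s2
    have g1 := gp_re Gu Gs
    have g2 := gp_im Gu Gs
    apply quo_ge
    · rw [g1]; linarith
    · rw [g1]; linarith
    · rw [g2]; linarith
    · rw [g2]; linarith
  rcases at1_ok6 hE h1 h2 h3 h4 rfl hQ k z with h | ⟨vp, vn, l, tp, tn, Q', e2, g1, g2, hp⟩
  · left
    rw [e]
    exact h
  · right
    rw [e]
    refine ⟨vp, vn, l, tp, tn, Q', e2, by omega, by omega, ?_⟩
    intro p a1 a2 a3 a4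
    have f1 : (U1 : ℝ) = 128 * Gu - lu := by
      have : U1 + lu = 128 * Gu := by omega
      have : (U1 : ℝ) + lu = 128 * Gu := by exact_mod_cast this
      linarith
    have f2 : (S1 : ℝ) = 128 * Gs - ls := by
      have : S1 + ls = 128 * Gs := by omega
      have : (S1 : ℝ) + ls = 128 * Gs := by exact_mod_cast this
      linarith
    have := hp p ⟨by rw [f1]; exact a1, by rw [c2]; exact a2, by rw [f2]; exact a3, by rw [d2]; exact a4⟩
    rw [gp_re, gp_im] at this
    exact this

theorem tab6_ok : TabOK6 := ent6_ok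

end Pool.Agent.S5.Tb
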