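import Pool.Agent.S5.I.Te
import Pool.Agent.S5.I.Te1

/-!
# Branch and bound for general slot functions: the test is right
-/

set_option autoImplicit false
set_option maxRecDepth 4000

namespace Pool.Agent.S5.Tb

open Pool.Agent.H63.VC3 Pool.Agent.S3 Complex

def lnA (p n b g : ℕ) : ℕ := cond (Nat.ble n p) (Nat.mul (Nat.sub p n) b) (Nat.mul (Nat.sub n p) g)

def lnB (p n a g : ℕ) : ℕ := cond (Nat.ble n p) (Nat.mul (Nat.sub p n) g) (Nat.mul (Nat.sub n p) a)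

def lnD (p n : ℕ) : ℕ := cond (Nat.ble n p) (Nat.sub p n) (Nat.sub n p)

theorem ln2_eq {α : Type} (p n a b g : ℕ) (k : ℕ → ℕ → ℕ → α) :
    ln2 p n a b g k = k (lnA p n b g) (lnB p n a g) (lnD p n) := by
  unfold ln2 lnA lnB lnD
  rw [fN_eq, fN_eq]
  cases Nat.ble n p
  · rw [cond_false, cond_false, cond_false, cond_false, fN_eq]
  · rw [cond_true, cond_true, cond_true, cond_true, fN_eq]

theorem ln_ge {p n a b g : ℕ} {D : ℝ} (h1 : (a : ℝ) - g ≤ D) (h2 : D ≤ (b : ℝ) - g) :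
    ((p : ℝ) - n) * D ≤ (lnA p n b g : ℝ) - (lnB p n a g : ℝ) := by
  unfold lnA lnB
  cases e : Nat.ble n p
  · have h3 : p < n := ble_f e
    have h4 : (p : ℝ) < n := by exact_mod_cast h3
    show ((p : ℝ) - n) * D ≤ (((n - p) * g : ℕ) : ℝ) - (((n - p) * a : ℕ) : ℝ)
    rw [Nat.cast_mul, Nat.cast_mul, Nat.cast_sub h3.le]
    nlinarith
  · have h3 : n ≤ p := ble_t e
    have h4 : (n : ℝ) ≤ p := by exact_mod_cast h3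
    show ((p : ℝ) - n) * D ≤ (((p - n) * b : ℕ) : ℝ) - (((p - n) * g : ℕ) : ℝ)
    rw [Nat.cast_mul, Nat.cast_mul, Nat.cast_sub h3]
    nlinarith

theorem fin6_four {A B s1 s2 s3 s4 : ℕ} (h : fin6 A B s1 s2 s3 s4 = 4) : (A : ℝ) + 1 ≤ B := by
  unfold fin6 at h
  cases b : Nat.ble (Nat.succ A) B
  · rw [b, cond_false] at h
    exact absurd h (pick_ne _ _ _ _)
  · have h2 : A + 1 ≤ B := ble_t b
    exact_mod_cast h2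

theorem div_bd (a n : ℕ) (hn : 0 < n) : (a : ℝ) / n - 1 ≤ ((Nat.div a n : ℕ) : ℝ) ∧
    ((Nat.div a n : ℕ) : ℝ) ≤ (a : ℝ) / n := by
  have h1 := succ_div_ge a n hn
  have h2 : ((Nat.succ (Nat.div a n) : ℕ) : ℝ) = ((Nat.div a n : ℕ) : ℝ) + 1 := Nat.cast_succ _
  rw [h2] at h1
  exact ⟨by linarith, Nat.cast_div_le⟩

theorem blN_bd (kp kn kp' kn' G G' : ℕ) :
    3294199 * ((kp : ℝ) * G + kp' * G' + 800 * ((kn : ℝ) + kn')) / 200 - 1 ≤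
      (blN kp kn kp' kn' G G' : ℝ) ∧
    (blN kp kn kp' kn' G G' : ℝ) ≤
      3294199 * ((kp : ℝ) * G + kp' * G' + 800 * ((kn : ℝ) + kn')) / 200 := by
  have h := div_bd (Nat.mul 3294199 (Nat.add (Nat.add (Nat.mul kp G) (Nat.mul kp' G'))
    (Nat.mul 800 (Nat.add kn kn')))) 200 (by norm_num)
  unfold blN
  simp only [add_cast', mul_cast', Nat.cast_ofNat] at h
  exact h

/-- The slopes of the bilinear form. -/
theorem bl_slope (kp kn kp' kn' G G' : ℕ) {D : ℝ} {m : ℕ} (h : |D| ≤ m) :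
    3294199 * (((kp : ℝ) - kn) * ((G : ℝ) - 800) + ((kp' : ℝ) - kn') * ((G' : ℝ) - 800)) / 200 * D ≤
      ((blN kp kn kp' kn' G G' : ℝ) - (blN kn kp kn' kp' G G' : ℝ)) * D + m := by
  have h1 := blN_bd kp kn kp' kn' G G'
  have h2 := blN_bd kn kp kn' kp' G G'
  set F := (blN kp kn kp' kn' G G' : ℝ)
  set F' := (blN kn kp kn' kp' G G' : ℝ)
  set X := 3294199 * (((kp : ℝ) - kn) * ((G : ℝ) - 800) + ((kp' : ℝ) - kn') * ((G' : ℝ) - 800)) / 200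
    with hX
  have e : |X - (F - F')| ≤ 1 := by
    rw [abs_le]
    constructor <;> linarith [h1.1, h1.2, h2.1, h2.2]
  have e2 : (X - (F - F')) * D ≤ 1 * |D| := by
    calc (X - (F - F')) * D ≤ |(X - (F - F')) * D| := le_abs_self _
      _ = |X - (F - F')| * |D| := abs_mul _ _
      _ ≤ 1 * |D| := mul_le_mul_of_nonneg_right e (abs_nonneg _)
  linarith

theorem quad_bd (kp kn : ℕ) {D D' : ℝ} {m m' : ℕ} (h : |D| ≤ m) (h' : |D'| ≤ m') :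
    ((kp : ℝ) - kn) * (D * D') ≤ ((kp : ℝ) + kn) * ((m : ℝ) * m') := by
  have a : |D * D'| ≤ (m : ℝ) * m' := by
    rw [abs_mul]
    exact mul_le_mul h h' (abs_nonneg _) (Nat.cast_nonneg _)
  have b := abs_le.1 a
  have c : (0 : ℝ) ≤ kp := Nat.cast_nonneg _
  have d : (0 : ℝ) ≤ kn := Nat.cast_nonneg _
  nlinarith [b.1, b.2]

/-- The bilinear form. -/
theorem bil_ge (kp1 kn1 kp2 kn2 kp3 kn3 kp4 kn4 G1 G2 G3 G4 m1 m2 m3 m4 : ℕ) {D1 D2 D3 D4 : ℝ}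
    (h1 : |D1| ≤ m1) (h2 : |D2| ≤ m2) (h3 : |D3| ≤ m3) (h4 : |D4| ≤ m4) :
    25600 * (3294199 * (((kp1 : ℝ) - kn1) *
        ((((G1 : ℝ) - 800) / 200 + D1 / 25600) * (((G4 : ℝ) - 800) / 200 + D4 / 25600)) +
      ((kp2 : ℝ) - kn2) *
        ((((G3 : ℝ) - 800) / 200 + D3 / 25600) * (((G2 : ℝ) - 800) / 200 + D2 / 25600)) +
      ((kp3 : ℝ) - kn3) *
        ((((G1 : ℝ) - 800) / 200 + D1 / 25600) * (((G2 : ℝ) - 800) / 200 + D2 / 25600)) +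
      ((kp4 : ℝ) - kn4) *
        ((((G3 : ℝ) - 800) / 200 + D3 / 25600) * (((G4 : ℝ) - 800) / 200 + D4 / 25600)))) ≤
      ((Nat.succ (blC kp1 kn1 kp2 kn2 kp3 kn3 kp4 kn4 G1 G2 G3 G4) : ℕ) : ℝ) -
        (blC kn1 kp1 kn2 kp2 kn3 kp3 kn4 kp4 G1 G2 G3 G4 : ℝ) +
      ((blN kp1 kn1 kp3 kn3 G4 G2 : ℝ) - (blN kn1 kp1 kn3 kp3 G4 G2 : ℝ)) * D1 +
      ((blN kp2 kn2 kp3 kn3 G3 G1 : ℝ) - (blN kn2 kp2 kn3 kp3 G3 G1 : ℝ)) * D2 +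
      ((blN kp2 kn2 kp4 kn4 G2 G4 : ℝ) - (blN kn2 kp2 kn4 kp4 G2 G4 : ℝ)) * D3 +
      ((blN kp1 kn1 kp4 kn4 G1 G3 : ℝ) - (blN kn1 kp1 kn4 kp4 G1 G3 : ℝ)) * D4 +
      ((m1 : ℝ) + m2 + (m3 + m4)) +
      ((Nat.succ (Nat.div (Nat.mul 3294199 (Nat.add
        (Nat.add (Nat.mul (Nat.add kp1 kn1) (Nat.mul m1 m4))
          (Nat.mul (Nat.add kp2 kn2) (Nat.mul m3 m2)))
        (Nat.add (Nat.mul (Nat.add kp3 kn3) (Nat.mul m1 m2))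
          (Nat.mul (Nat.add kp4 kn4) (Nat.mul m3 m4))))) 25600) : ℕ) : ℝ) := by
  have s1 := bl_slope kp1 kn1 kp3 kn3 G4 G2 h1
  have s2 := bl_slope kp2 kn2 kp3 kn3 G3 G1 h2
  have s3 := bl_slope kp2 kn2 kp4 kn4 G2 G4 h3
  have s4 := bl_slope kp1 kn1 kp4 kn4 G1 G3 h4
  have q1 := quad_bd kp1 kn1 h1 h4
  have q2 := quad_bd kp2 kn2 h3 h2
  have q3 := quad_bd kp3 kn3 h1 h2
  have q4 := quad_bd kp4 kn4 h3 h4
  have c1 := succ_div_ge (Nat.mul 3294199 (Nat.add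
        (Nat.add (Nat.mul (Nat.add kp1 kn1) (Nat.mul m1 m4))
          (Nat.mul (Nat.add kp2 kn2) (Nat.mul m3 m2)))
        (Nat.add (Nat.mul (Nat.add kp3 kn3) (Nat.mul m1 m2))
          (Nat.mul (Nat.add kp4 kn4) (Nat.mul m3 m4))))) 25600 (by norm_num)
  have c2 := succ_div_ge (Nat.mul 52707184 (Nat.add
    (Nat.add (Nat.add (Nat.mul kp1 (Nat.add (Nat.mul G1 G4) 640000))
        (Nat.mul kp2 (Nat.add (Nat.mul G3 G2) 640000)))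
      (Nat.add (Nat.mul kp3 (Nat.add (Nat.mul G1 G2) 640000))
        (Nat.mul kp4 (Nat.add (Nat.mul G3 G4) 640000))))
    (Nat.mul 800 (Nat.add (Nat.add (Nat.mul kn1 (Nat.add G1 G4)) (Nat.mul kn2 (Nat.add G3 G2)))
      (Nat.add (Nat.mul kn3 (Nat.add G1 G2)) (Nat.mul kn4 (Nat.add G3 G4))))))) 25 (by norm_num)
  have c3 := (div_bd (Nat.mul 52707184 (Nat.add
    (Nat.add (Nat.add (Nat.mul kn1 (Nat.add (Nat.mul G1 G4) 640000))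
        (Nat.mul kn2 (Nat.add (Nat.mul G3 G2) 640000)))
      (Nat.add (Nat.mul kn3 (Nat.add (Nat.mul G1 G2) 640000))
        (Nat.mul kn4 (Nat.add (Nat.mul G3 G4) 640000))))
    (Nat.mul 800 (Nat.add (Nat.add (Nat.mul kp1 (Nat.add G1 G4)) (Nat.mul kp2 (Nat.add G3 G2)))
      (Nat.add (Nat.mul kp3 (Nat.add G1 G2)) (Nat.mul kp4 (Nat.add G3 G4))))))) 25 (by norm_num)).2
  unfold blC
  generalize ((Nat.succ (Nat.div (Nat.mul 3294199 (Nat.add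
        (Nat.add (Nat.mul (Nat.add kp1 kn1) (Nat.mul m1 m4))
          (Nat.mul (Nat.add kp2 kn2) (Nat.mul m3 m2)))
        (Nat.add (Nat.mul (Nat.add kp3 kn3) (Nat.mul m1 m2))
          (Nat.mul (Nat.add kp4 kn4) (Nat.mul m3 m4))))) 25600) : ℕ) : ℝ) = E at c1 ⊢
  generalize ((Nat.succ (Nat.div (Nat.mul 52707184 (Nat.add
    (Nat.add (Nat.add (Nat.mul kp1 (Nat.add (Nat.mul G1 G4) 640000))
        (Nat.mul kp2 (Nat.add (Nat.mul G3 G2) 640000)))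
      (Nat.add (Nat.mul kp3 (Nat.add (Nat.mul G1 G2) 640000))
        (Nat.mul kp4 (Nat.add (Nat.mul G3 G4) 640000))))
    (Nat.mul 800 (Nat.add (Nat.add (Nat.mul kn1 (Nat.add G1 G4)) (Nat.mul kn2 (Nat.add G3 G2)))
      (Nat.add (Nat.mul kn3 (Nat.add G1 G2)) (Nat.mul kn4 (Nat.add G3 G4))))))) 25) : ℕ) : ℝ) = C
    at c2 ⊢
  generalize ((Nat.div (Nat.mul 52707184 (Nat.add
    (Nat.add (Nat.add (Nat.mul kn1 (Nat.add (Nat.mul G1 G4) 640000))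
        (Nat.mul kn2 (Nat.add (Nat.mul G3 G2) 640000)))
      (Nat.add (Nat.mul kn3 (Nat.add (Nat.mul G1 G2) 640000))
        (Nat.mul kn4 (Nat.add (Nat.mul G3 G4) 640000))))
    (Nat.mul 800 (Nat.add (Nat.add (Nat.mul kp1 (Nat.add G1 G4)) (Nat.mul kp2 (Nat.add G3 G2)))
      (Nat.add (Nat.mul kp3 (Nat.add G1 G2)) (Nat.mul kp4 (Nat.add G3 G4))))))) 25 : ℕ) : ℝ) = C'
    at c3 ⊢
  simp only [add_cast', mul_cast', Nat.cast_ofNat] at c1 c2 c3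
  generalize (blN kp1 kn1 kp3 kn3 G4 G2 : ℝ) = F1 at s1 ⊢
  generalize (blN kn1 kp1 kn3 kp3 G4 G2 : ℝ) = F1' at s1 ⊢
  generalize (blN kp2 kn2 kp3 kn3 G3 G1 : ℝ) = F2 at s2 ⊢
  generalize (blN kn2 kp2 kn3 kp3 G3 G1 : ℝ) = F2' at s2 ⊢
  generalize (blN kp2 kn2 kp4 kn4 G2 G4 : ℝ) = F3 at s3 ⊢
  generalize (blN kn2 kp2 kn4 kp4 G2 G4 : ℝ) = F3' at s3 ⊢
  generalize (blN kp1 kn1 kp4 kn4 G1 G3 : ℝ) = F4 at s4 ⊢
  generalize (blN kn1 kp1 kn4 kp4 G1 G3 : ℝ) = F4' at s4 ⊢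
  have key : 25600 * (3294199 * (((kp1 : ℝ) - kn1) *
        ((((G1 : ℝ) - 800) / 200 + D1 / 25600) * (((G4 : ℝ) - 800) / 200 + D4 / 25600)) +
      ((kp2 : ℝ) - kn2) *
        ((((G3 : ℝ) - 800) / 200 + D3 / 25600) * (((G2 : ℝ) - 800) / 200 + D2 / 25600)) +
      ((kp3 : ℝ) - kn3) *
        ((((G1 : ℝ) - 800) / 200 + D1 / 25600) * (((G2 : ℝ) - 800) / 200 + D2 / 25600)) +
      ((kp4 : ℝ) - kn4) *
        ((((G3 : ℝ) - 800) / 200 + D3 / 25600) * (((G4 : ℝ) - 800) / 200 + D4 / 25600)))) =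
      52707184 * ((((kp1 : ℝ) * (G1 * G4 + 640000) + kp2 * (G3 * G2 + 640000)) +
        (kp3 * (G1 * G2 + 640000) + kp4 * (G3 * G4 + 640000))) +
        800 * ((kn1 * (G1 + G4) + kn2 * (G3 + G2)) + (kn3 * (G1 + G2) + kn4 * (G3 + G4)))) / 25 -
      52707184 * ((((kn1 : ℝ) * (G1 * G4 + 640000) + kn2 * (G3 * G2 + 640000)) +
        (kn3 * (G1 * G2 + 640000) + kn4 * (G3 * G4 + 640000))) +
        800 * ((kp1 * (G1 + G4) + kp2 * (G3 + G2)) + (kp3 * (G1 + G2) + kp4 * (G3 + G4)))) / 25 +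
      3294199 * (((kp1 : ℝ) - kn1) * ((G4 : ℝ) - 800) + ((kp3 : ℝ) - kn3) * ((G2 : ℝ) - 800)) / 200 * D1 +
      3294199 * (((kp2 : ℝ) - kn2) * ((G3 : ℝ) - 800) + ((kp3 : ℝ) - kn3) * ((G1 : ℝ) - 800)) / 200 * D2 +
      3294199 * (((kp2 : ℝ) - kn2) * ((G2 : ℝ) - 800) + ((kp4 : ℝ) - kn4) * ((G4 : ℝ) - 800)) / 200 * D3 +
      3294199 * (((kp1 : ℝ) - kn1) * ((G1 : ℝ) - 800) + ((kp4 : ℝ) - kn4) * ((G3 : ℝ) - 800)) / 200 * D4 +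
      3294199 / 25600 * ((((kp1 : ℝ) - kn1) * (D1 * D4) + ((kp2 : ℝ) - kn2) * (D3 * D2)) +
        (((kp3 : ℝ) - kn3) * (D1 * D2) + ((kp4 : ℝ) - kn4) * (D3 * D4))) := by ring
  rw [key]
  have hq : 3294199 / 25600 * ((((kp1 : ℝ) - kn1) * (D1 * D4) + ((kp2 : ℝ) - kn2) * (D3 * D2)) +
        (((kp3 : ℝ) - kn3) * (D1 * D2) + ((kp4 : ℝ) - kn4) * (D3 * D4))) ≤ E := by
    refine le_trans ?_ c1
    rw [div_mul_eq_mul_div]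
    apply div_le_div_of_nonneg_right _ (by norm_num)
    apply mul_le_mul_of_nonneg_left _ (by norm_num)
    exact add_le_add (add_le_add q1 q2) (add_le_add q3 q4)
  linarith

/-- The last step. -/
theorem sm7_ok {p1 n1 p2 n2 p3 n3 p4 n4 A B a1 b1 a2 b2 a3 b3 a4 b4 G1 G2 G3 G4 : ℕ}
    (h : sm7 p1 n1 p2 n2 p3 n3 p4 n4 A B a1 b1 a2 b2 a3 b3 a4 b4 G1 G2 G3 G4 = 4)
    {D1 D2 D3 D4 : ℝ}
    (x1 : (a1 : ℝ) - 128 * G1 ≤ D1) (y1 : D1 ≤ (b1 : ℝ) - 128 * G1)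
    (x2 : (a2 : ℝ) - 128 * G2 ≤ D2) (y2 : D2 ≤ (b2 : ℝ) - 128 * G2)
    (x3 : (a3 : ℝ) - 128 * G3 ≤ D3) (y3 : D3 ≤ (b3 : ℝ) - 128 * G3)
    (x4 : (a4 : ℝ) - 128 * G4 ≤ D4) (y4 : D4 ≤ (b4 : ℝ) - 128 * G4) :
    ((p1 : ℝ) - n1) * D1 + ((p2 : ℝ) - n2) * D2 + ((p3 : ℝ) - n3) * D3 + ((p4 : ℝ) - n4) * D4 +
      ((A : ℝ) - B) < 0 := by
  unfold sm7 at h
  simp only [ln2_eq, fN_eq] at h
  have h := fin6_four h
  have g : ∀ G : ℕ, ((Nat.mul 128 G : ℕ) : ℝ) = 128 * G := fun G => by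
    rw [mul_cast', Nat.cast_ofNat]
  rw [← g G1] at x1 y1
  rw [← g G2] at x2 y2
  rw [← g G3] at x3 y3
  rw [← g G4] at x4 y4
  have e1 := ln_ge (p := p1) (n := n1) x1 y1
  have e2 := ln_ge (p := p2) (n := n2) x2 y2
  have e3 := ln_ge (p := p3) (n := n3) x3 y3
  have e4 := ln_ge (p := p4) (n := n4) x4 y4
  simp only [add_cast'] at h
  linarith

/-- **The last step.** -/
theorem sm6_ok {w0 w1 w2 w3 kp1 kn1 kp2 kn2 kp3 kn3 kp4 kn4 c0p c0n c1p c1n c2p c2n c3p c3n c4p c4n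
    a1 b1 a2 b2 a3 b3 a4 b4 G1 G2 G3 G4 m1 m2 m3 m4
    vp vn l tp tn Q vp1 vn1 l1 tp1 tn1 Q1 vp2 vn2 l2 tp2 tn2 Q2 vp3 vn3 l3 tp3 tn3 Q3 : ℕ}
    (h : sm6 w0 w1 w2 w3 kp1 kn1 kp2 kn2 kp3 kn3 kp4 kn4 c0p c0n c1p c1n c2p c2n c3p c3n c4p c4n
      a1 b1 a2 b2 a3 b3 a4 b4 G1 G2 G3 G4 m1 m2 m3 m4
      vp vn l tp tn Q vp1 vn1 l1 tp1 tn1 Q1 vp2 vn2 l2 tp2 tn2 Q2 vp3 vn3 l3 tp3 tn3 Q3 = 4)
    {P0 P1 P2 P3 D1 D2 D3 D4 : ℝ}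
    (x1 : (a1 : ℝ) - 128 * G1 ≤ D1) (y1 : D1 ≤ (b1 : ℝ) - 128 * G1) (z1 : |D1| ≤ m1)
    (x2 : (a2 : ℝ) - 128 * G2 ≤ D2) (y2 : D2 ≤ (b2 : ℝ) - 128 * G2) (z2 : |D2| ≤ m2)
    (x3 : (a3 : ℝ) - 128 * G3 ≤ D3) (y3 : D3 ≤ (b3 : ℝ) - 128 * G3) (z3 : |D3| ≤ m3)
    (x4 : (a4 : ℝ) - 128 * G4 ≤ D4) (y4 : D4 ≤ (b4 : ℝ) - 128 * G4) (z4 : |D4| ≤ m4)
    (hP0 : (w0 : ℝ) * P0 ≤ w0 * (((vp : ℝ) - vn) + 48 + (8388608 - (l : ℝ)) * (-(D1 / 25600)) +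
      ((tp : ℝ) - tn) * (-(D2 / 25600)) + (Q : ℝ) / 25600))
    (hP1 : (w1 : ℝ) * P1 ≤ w1 * (((vp1 : ℝ) - vn1) + 48 + (8388608 - (l1 : ℝ)) * (D1 / 25600 + D3 / 25600) +
      ((tp1 : ℝ) - tn1) * (D2 / 25600 + D4 / 25600) + (Q1 : ℝ) / 25600))
    (hP2 : (w2 : ℝ) * P2 ≤ w2 * (((vp2 : ℝ) - vn2) + 48 + (8388608 - (l2 : ℝ)) * (D1 / 25600 - D3 / 25600) +
      ((tp2 : ℝ) - tn2) * (D2 / 25600 - D4 / 25600) + (Q2 : ℝ) / 25600))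
    (hP3 : (w3 : ℝ) * P3 ≤ w3 * (((vp3 : ℝ) - vn3) + 48 + (8388608 - (l3 : ℝ)) * (D3 / 25600) +
      ((tp3 : ℝ) - tn3) * (D4 / 25600) + (Q3 : ℝ) / 25600)) :
    w0 * P0 + w1 * P1 + w2 * P2 + w3 * P3 +
      (3294199 * (((kp1 : ℝ) - kn1) *
        ((((G1 : ℝ) - 800) / 200 + D1 / 25600) * (((G4 : ℝ) - 800) / 200 + D4 / 25600)) +
      ((kp2 : ℝ) - kn2) *
        ((((G3 : ℝ) - 800) / 200 + D3 / 25600) * (((G2 : ℝ) - 800) / 200 + D2 / 25600)) +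
      ((kp3 : ℝ) - kn3) *
        ((((G1 : ℝ) - 800) / 200 + D1 / 25600) * (((G2 : ℝ) - 800) / 200 + D2 / 25600)) +
      ((kp4 : ℝ) - kn4) *
        ((((G3 : ℝ) - 800) / 200 + D3 / 25600) * (((G4 : ℝ) - 800) / 200 + D4 / 25600)))) +
      (((kp1 : ℝ) + kn1) + (kp2 + kn2) + ((kp3 + kn3) + (kp4 + kn4))) +
      ((c1p : ℝ) - c1n) * (((G1 : ℝ) - 800) / 200 + D1 / 25600) +
      ((c2p : ℝ) - c2n) * (((G2 : ℝ) - 800) / 200 + D2 / 25600) +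
      ((c3p : ℝ) - c3n) * (((G3 : ℝ) - 800) / 200 + D3 / 25600) +
      ((c4p : ℝ) - c4n) * (((G4 : ℝ) - 800) / 200 + D4 / 25600) + ((c0p : ℝ) - c0n) < 0 := by
  have hb := bil_ge kp1 kn1 kp2 kn2 kp3 kn3 kp4 kn4 G1 G2 G3 G4 m1 m2 m3 m4 z1 z2 z3 z4
  unfold sm6 at h
  have key := sm7_ok h x1 y1 x2 y2 x3 y3 x4 y4
  clear h x1 y1 z1 x2 y2 z2 x3 y3 z3 x4 y4
  unfold cst6 err6 at key
  generalize Nat.succ (Nat.div (Nat.mul 3294199 (Nat.add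
        (Nat.add (Nat.mul (Nat.add kp1 kn1) (Nat.mul m1 m4))
          (Nat.mul (Nat.add kp2 kn2) (Nat.mul m3 m2)))
        (Nat.add (Nat.mul (Nat.add kp3 kn3) (Nat.mul m1 m2))
          (Nat.mul (Nat.add kp4 kn4) (Nat.mul m3 m4))))) 25600) = E at key hb
  generalize Nat.succ (blC kp1 kn1 kp2 kn2 kp3 kn3 kp4 kn4 G1 G2 G3 G4) = C at key hb
  generalize blC kn1 kp1 kn2 kp2 kn3 kp3 kn4 kp4 G1 G2 G3 G4 = C' at key hb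
  generalize blN kp1 kn1 kp3 kn3 G4 G2 = F1 at key hb
  generalize blN kn1 kp1 kn3 kp3 G4 G2 = F1' at key hb
  generalize blN kp2 kn2 kp3 kn3 G3 G1 = F2 at key hb
  generalize blN kn2 kp2 kn3 kp3 G3 G1 = F2' at key hb
  generalize blN kp2 kn2 kp4 kn4 G2 G4 = F3 at key hb
  generalize blN kn2 kp2 kn4 kp4 G2 G4 = F3' at key hb
  generalize blN kp1 kn1 kp4 kn4 G1 G3 = F4 at key hb
  generalize blN kn1 kp1 kn4 kp4 G1 G3 = F4' at key hb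
  simp only [add_cast', mul_cast', Nat.cast_ofNat] at key
  generalize 3294199 * (((kp1 : ℝ) - kn1) *
        ((((G1 : ℝ) - 800) / 200 + D1 / 25600) * (((G4 : ℝ) - 800) / 200 + D4 / 25600)) +
      ((kp2 : ℝ) - kn2) *
        ((((G3 : ℝ) - 800) / 200 + D3 / 25600) * (((G2 : ℝ) - 800) / 200 + D2 / 25600)) +
      ((kp3 : ℝ) - kn3) *
        ((((G1 : ℝ) - 800) / 200 + D1 / 25600) * (((G2 : ℝ) - 800) / 200 + D2 / 25600)) +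
      ((kp4 : ℝ) - kn4) *
        ((((G3 : ℝ) - 800) / 200 + D3 / 25600) * (((G4 : ℝ) - 800) / 200 + D4 / 25600))) = BL
    at hb ⊢
  linarith

end Pool.Agent.S5.Tb
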