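import Pool.Agent.S5.I.Te2

/-!
# Branch and bound for general slot functions: soundness
-/

set_option autoImplicit false

namespace Pool.Agent.S5.Tb

open Pool.Agent.H63.VC3 Pool.Agent.S3 Complex

theorem atw_ok (hE : TabOK6) {α : Type} (w Gu Gs lu hu ls hs : ℕ)
    (k : ℕ → ℕ → ℕ → ℕ → ℕ → ℕ → α) (z : α) :
    atw w Gu Gs lu hu ls hs k z = z ∨ ∃ vp vn l tp tn Q : ℕ,
      atw w Gu Gs lu hu ls hs k z = k vp vn l tp tn Q ∧
        (w = 0 ∨ (0 < Gu ∧ 0 < Gs ∧ AtOK Gu Gs lu hu ls hs vp vn l tp tn Q)) := by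
  unfold atw
  cases b : Nat.beq w 0
  · rw [cond_false]
    rcases atm_ok6 hE Gu Gs lu hu ls hs k z with h | ⟨vp, vn, l, tp, tn, Q, h1, h2, h3, h4⟩
    · exact Or.inl h
    · exact Or.inr ⟨vp, vn, l, tp, tn, Q, h1, Or.inr ⟨h2, h3, h4⟩⟩
  · rw [cond_true]
    exact Or.inr ⟨_, _, _, _, _, _, rfl, Or.inl (Nat.eq_of_beq_eq_true b)⟩

/-- The distances from the point of the table. -/
theorem ctr_e {a b : ℕ} {x : ℝ} (h : Ps a b x) (G : ℕ) :
    (a : ℝ) - 128 * G ≤ (x - ((G : ℝ) - 800) / 200) * 25600 ∧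
      (x - ((G : ℝ) - 800) / 200) * 25600 ≤ (b : ℝ) - 128 * G ∧
        |(x - ((G : ℝ) - 800) / 200) * 25600| ≤
          (mx (Nat.sub (Nat.mul 128 G) a) (Nat.sub b (Nat.mul 128 G)) : ℝ) := by
  have h1 := h.1
  have h2 := h.2
  have h3 := ctr_d h G
  refine ⟨by linarith only [h1], by linarith only [h2], ?_⟩
  rw [mx_eq, Nat.cast_max, abs_le]
  have m1 := le_max_left ((Nat.sub (Nat.mul 128 G) a : ℕ) : ℝ) ((Nat.sub b (Nat.mul 128 G) : ℕ) : ℝ)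
  have m2 := le_max_right ((Nat.sub (Nat.mul 128 G) a : ℕ) : ℝ) ((Nat.sub b (Nat.mul 128 G) : ℕ) : ℝ)
  constructor <;> linarith [h3.1, h3.2]

theorem wt_le {w : ℕ} {P X : ℝ} (h : w = 0 ∨ P ≤ X) : (w : ℝ) * P ≤ w * X := by
  rcases h with h | h
  · rw [h]
    simp
  · exact mul_le_mul_of_nonneg_left h (Nat.cast_nonneg w)

theorem sub_cast' {a b : ℕ} (h : 0 < Nat.sub a b) : ((Nat.sub a b : ℕ) : ℝ) = (a : ℝ) - b := by
  have h1 : 0 < a - b := h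
  have h2 : (a - b) + b = a := by omega
  have h3 : ((a - b : ℕ) : ℝ) + b = a := by exact_mod_cast h2
  have h4 : ((Nat.sub a b : ℕ) : ℝ) = ((a - b : ℕ) : ℝ) := rfl
  rw [h4]
  linarith only [h3]

/-- The value of the function of the test. -/
noncomputable def F6 (w0 w1 w2 w3 kp1 kn1 kp2 kn2 kp3 kn3 kp4 kn4 c0p c0n c1p c1n c2p c2n c3p c3n
    c4p c4n : ℕ) (u v : ℂ) : ℝ :=
  ((w0 : ℝ) * -Rf (1 / 2 - u) + w1 * -Rf (u + v) + w2 * -Rf (u - v) + w3 * -Rf (v + 1 / 2)) * 1048576 +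
    Real.pi * 1048576 * (((kp1 : ℝ) - kn1) * (u.re * v.im) + ((kp2 : ℝ) - kn2) * (v.re * u.im) +
      ((kp3 : ℝ) - kn3) * (u.re * u.im) + ((kp4 : ℝ) - kn4) * (v.re * v.im)) +
    ((c1p : ℝ) - c1n) * u.re + ((c2p : ℝ) - c2n) * u.im + ((c3p : ℝ) - c3n) * v.re +
    ((c4p : ℝ) - c4n) * v.im + ((c0p : ℝ) - c0n)

theorem pi_X (X : ℝ) : Real.pi * 1048576 * X ≤ 3294199 * X + |X| := by
  have p1 := pi_lt'
  have p2 := pi_gt'
  rcases abs_cases X with ⟨e, h⟩ | ⟨e, h⟩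
  · rw [e]
    nlinarith
  · rw [e]
    nlinarith

/-- **The test of a cell.** -/
theorem tst6_ok (hE : TabOK6) {sd w0 w1 w2 w3 kp1 kn1 kp2 kn2 kp3 kn3 kp4 kn4 c0p c0n c1p c1n c2p c2n
    c3p c3n c4p c4n a1 b1 a2 b2 a3 b3 a4 b4 : ℕ}
    (h : tst6 sd w0 w1 w2 w3 kp1 kn1 kp2 kn2 kp3 kn3 kp4 kn4 c0p c0n c1p c1n c2p c2n c3p c3n c4p c4n
      a1 b1 a2 b2 a3 b3 a4 b4 = 4) {u v : ℂ}
    (g1 : Ps a1 b1 u.re) (g2 : Ps a2 b2 u.im) (g3 : Ps a3 b3 v.re) (g4 : Ps a4 b4 v.im)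
    (hsd : sd = 0 ∨ 0 ≤ u.re + v.re)
    (i1 : |u.re| ≤ 1) (i2 : |u.im| ≤ 1) (i3 : |v.re| ≤ 1) (i4 : |v.im| ≤ 1) :
    F6 w0 w1 w2 w3 kp1 kn1 kp2 kn2 kp3 kn3 kp4 kn4 c0p c0n c1p c1n c2p c2n c3p c3n c4p c4n u v < 0 := by
  unfold tst6 at h
  have hc : cond (Nat.beq sd 0) false (Nat.ble (Nat.add b1 b3) 204799) = false := by
    cases e : Nat.beq sd 0
    · rw [cond_false]
      cases e2 : Nat.ble (Nat.add b1 b3) 204799
      · rfl
      · exfalso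
        have h1 : b1 + b3 ≤ 204799 := ble_t e2
        have h2 : (b1 : ℝ) + b3 ≤ 204799 := by exact_mod_cast h1
        rcases hsd with h3 | h3
        · rw [h3] at e
          exact absurd e (by decide)
        · have := g1.2
          have := g3.2
          linarith [this, h3, h2]
    · rw [cond_true]
  rw [hc, cond_false] at h
  simp only [fN_eq] at h
  clear hc hsd
  generalize ctr a1 b1 = G1 at h
  generalize ctr a2 b2 = G2 at h
  generalize ctr a3 b3 = G3 at h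
  generalize ctr a4 b4 = G4 at h
  have f1 := ctr_d g1 G1
  have f2 := ctr_d g2 G2
  have f3 := ctr_d g3 G3
  have f4 := ctr_d g4 G4
  obtain ⟨d1, d1', d1''⟩ := ctr_e g1 G1
  obtain ⟨d2, d2', d2''⟩ := ctr_e g2 G2
  obtain ⟨d3, d3', d3''⟩ := ctr_e g3 G3
  obtain ⟨d4, d4', d4''⟩ := ctr_e g4 G4
  generalize Nat.sub (Nat.mul 128 G1) a1 = l1 at h f1 d1''
  generalize Nat.sub b1 (Nat.mul 128 G1) = h1 at h f1 d1''
  generalize Nat.sub (Nat.mul 128 G2) a2 = l2 at h f2 d2''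
  generalize Nat.sub b2 (Nat.mul 128 G2) = h2 at h f2 d2''
  generalize Nat.sub (Nat.mul 128 G3) a3 = l3 at h f3 d3''
  generalize Nat.sub b3 (Nat.mul 128 G3) = h3 at h f3 d3''
  generalize Nat.sub (Nat.mul 128 G4) a4 = l4 at h f4 d4''
  generalize Nat.sub b4 (Nat.mul 128 G4) = h4 at h f4 d4''
  have np := pick_ne (Nat.sub b1 a1) (Nat.sub b2 a2) (Nat.sub b3 a3) (Nat.sub b4 a4)
  rcases atw_ok hE w0 (Nat.sub 1700 G1) (Nat.sub 1600 G2) h1 l1 h2 l2 _ _ with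
    e | ⟨vp, vn, l, tp, tn, Q, e, hP0⟩
  · exact absurd (e.symm.trans h) np
  replace h := e.symm.trans h
  clear e
  beta_reduce at h
  rcases atw_ok hE w1 (Nat.sub (Nat.add G1 G3) 800) (Nat.sub (Nat.add G2 G4) 800) (Nat.add l1 l3)
      (Nat.add h1 h3) (Nat.add l2 l4) (Nat.add h2 h4) _ _ with
    e | ⟨vp1, vn1, l1', tp1, tn1, Q1, e, hP1⟩
  · exact absurd (e.symm.trans h) np
  replace h := e.symm.trans h
  clear e
  beta_reduce at h
  rcases atw_ok hE w2 (Nat.sub (Nat.add G1 800) G3) (Nat.sub (Nat.add G2 800) G4) (Nat.add l1 h3)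
      (Nat.add h1 l3) (Nat.add l2 h4) (Nat.add h2 l4) _ _ with
    e | ⟨vp2, vn2, l2', tp2, tn2, Q2, e, hP2⟩
  · exact absurd (e.symm.trans h) np
  replace h := e.symm.trans h
  clear e
  beta_reduce at h
  rcases atw_ok hE w3 (Nat.add G3 100) G4 l3 h3 l4 h4 _ _ with
    e | ⟨vp3, vn3, l3', tp3, tn3, Q3, e, hP3⟩
  · exact absurd (e.symm.trans h) np
  replace h := e.symm.trans h
  clear e np
  beta_reduce at h
  have r1 : (1 / 2 - u).re = 1 / 2 - u.re := by simp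
  have r2 : (1 / 2 - u).im = -u.im := by simp
  have r3 : (v + 1 / 2).re = v.re + 1 / 2 := by simp
  have r4 : (v + 1 / 2).im = v.im := by simp
  have q0 : w0 = 0 ∨ -Rf (1 / 2 - u) * 1048576 ≤ (((vp : ℝ) - vn) + 48 + (8388608 - (l : ℝ)) *
      (-((u.re - ((G1 : ℝ) - 800) / 200) * 25600 / 25600)) +
      ((tp : ℝ) - tn) * (-((u.im - ((G2 : ℝ) - 800) / 200) * 25600 / 25600)) + (Q : ℝ) / 25600) := by
    rcases hP0 with h0 | ⟨p1, p2, hP⟩
    · exact Or.inl h0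
    · right
      have c1 := sub_cast' p1
      have c2 := sub_cast' p2
      rw [Nat.cast_ofNat] at c1 c2
      have k := hP (1 / 2 - u) (by rw [c1, r1]; linarith only [f1.2]) (by rw [c1, r1]; linarith only [f1.1])
        (by rw [c2, r2]; linarith only [f2.2]) (by rw [c2, r2]; linarith only [f2.1])
      rw [c1, c2, r1, r2] at k
      refine k.trans (le_of_eq ?_)
      ring
  have q1 : w1 = 0 ∨ -Rf (u + v) * 1048576 ≤ (((vp1 : ℝ) - vn1) + 48 + (8388608 - (l1' : ℝ)) *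
      ((u.re - ((G1 : ℝ) - 800) / 200) * 25600 / 25600 + (v.re - ((G3 : ℝ) - 800) / 200) * 25600 / 25600) +
      ((tp1 : ℝ) - tn1) * ((u.im - ((G2 : ℝ) - 800) / 200) * 25600 / 25600 +
        (v.im - ((G4 : ℝ) - 800) / 200) * 25600 / 25600) + (Q1 : ℝ) / 25600) := by
    rcases hP1 with h0 | ⟨p1, p2, hP⟩
    · exact Or.inl h0
    · right
      have c1 := sub_cast' p1
      have c2 := sub_cast' p2
      rw [Nat.cast_ofNat, add_cast'] at c1 c2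
      have k := hP (u + v)
        (by rw [c1, add_cast', add_re]; linarith only [f3.1, f1.1])
        (by rw [c1, add_cast', add_re]; linarith only [f3.2, f1.2])
        (by rw [c2, add_cast', add_im]; linarith only [f4.1, f2.1])
        (by rw [c2, add_cast', add_im]; linarith only [f4.2, f2.2])
      rw [c1, c2, add_re, add_im] at k
      refine k.trans (le_of_eq ?_)
      ring
  have q2 : w2 = 0 ∨ -Rf (u - v) * 1048576 ≤ (((vp2 : ℝ) - vn2) + 48 + (8388608 - (l2' : ℝ)) *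
      ((u.re - ((G1 : ℝ) - 800) / 200) * 25600 / 25600 - (v.re - ((G3 : ℝ) - 800) / 200) * 25600 / 25600) +
      ((tp2 : ℝ) - tn2) * ((u.im - ((G2 : ℝ) - 800) / 200) * 25600 / 25600 -
        (v.im - ((G4 : ℝ) - 800) / 200) * 25600 / 25600) + (Q2 : ℝ) / 25600) := by
    rcases hP2 with h0 | ⟨p1, p2, hP⟩
    · exact Or.inl h0
    · right
      have c1 := sub_cast' p1
      have c2 := sub_cast' p2
      rw [add_cast', Nat.cast_ofNat] at c1 c2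
      have k := hP (u - v)
        (by rw [c1, add_cast', sub_re]; linarith only [f3.2, f1.1])
        (by rw [c1, add_cast', sub_re]; linarith only [f3.1, f1.2])
        (by rw [c2, add_cast', sub_im]; linarith only [f4.2, f2.1])
        (by rw [c2, add_cast', sub_im]; linarith only [f4.1, f2.2])
      rw [c1, c2, sub_re, sub_im] at k
      refine k.trans (le_of_eq ?_)
      ring
  have q3 : w3 = 0 ∨ -Rf (v + 1 / 2) * 1048576 ≤ (((vp3 : ℝ) - vn3) + 48 + (8388608 - (l3' : ℝ)) *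
      ((v.re - ((G3 : ℝ) - 800) / 200) * 25600 / 25600) +
      ((tp3 : ℝ) - tn3) * ((v.im - ((G4 : ℝ) - 800) / 200) * 25600 / 25600) + (Q3 : ℝ) / 25600) := by
    rcases hP3 with h0 | ⟨p1, p2, hP⟩
    · exact Or.inl h0
    · right
      have c1 : ((Nat.add G3 100 : ℕ) : ℝ) = G3 + 100 := by rw [add_cast', Nat.cast_ofNat]
      have k := hP (v + 1 / 2)
        (by rw [c1, r3]; linarith only [f3.1])
        (by rw [c1, r3]; linarith only [f3.2])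
        (by rw [r4]; linarith only [f4.1])
        (by rw [r4]; linarith only [f4.2])
      rw [c1, r3, r4] at k
      refine k.trans (le_of_eq ?_)
      ring
  clear hP0 hP1 hP2 hP3
  have key := sm6_ok h d1 d1' d1'' d2 d2' d2'' d3 d3' d3'' d4 d4' d4'' (wt_le q0) (wt_le q1)
    (wt_le q2) (wt_le q3)
  clear h q0 q1 q2 q3 d1 d1' d1'' d2 d2' d2'' d3 d3' d3'' d4 d4' d4'' f1 f2 f3 f4
  have u1 : ((G1 : ℝ) - 800) / 200 + (u.re - ((G1 : ℝ) - 800) / 200) * 25600 / 25600 = u.re := by ring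
  have u2 : ((G2 : ℝ) - 800) / 200 + (u.im - ((G2 : ℝ) - 800) / 200) * 25600 / 25600 = u.im := by ring
  have u3 : ((G3 : ℝ) - 800) / 200 + (v.re - ((G3 : ℝ) - 800) / 200) * 25600 / 25600 = v.re := by ring
  have u4 : ((G4 : ℝ) - 800) / 200 + (v.im - ((G4 : ℝ) - 800) / 200) * 25600 / 25600 = v.im := by ring
  rw [u1, u2, u3, u4] at key
  set X : ℝ := ((kp1 : ℝ) - kn1) * (u.re * v.im) + ((kp2 : ℝ) - kn2) * (v.re * u.im) +
      ((kp3 : ℝ) - kn3) * (u.re * u.im) + ((kp4 : ℝ) - kn4) * (v.re * v.im) with hX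
  have one : ∀ (kp kn : ℕ) (a b : ℝ), |a| ≤ 1 → |b| ≤ 1 →
      |((kp : ℝ) - kn) * (a * b)| ≤ (kp : ℝ) + kn := by
    intro kp kn a b ha hb
    have m : |a * b| ≤ 1 := by
      rw [abs_mul]
      exact mul_le_one₀ ha (abs_nonneg _) hb
    have m2 : |(kp : ℝ) - kn| ≤ (kp : ℝ) + kn := by
      have c : (0 : ℝ) ≤ kp := Nat.cast_nonneg _
      have d : (0 : ℝ) ≤ kn := Nat.cast_nonneg _
      rw [abs_le]
      constructor <;> linarith only []
    rw [abs_mul]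
    calc |(kp : ℝ) - kn| * |a * b| ≤ ((kp : ℝ) + kn) * 1 :=
          mul_le_mul m2 m (abs_nonneg _) (by positivity)
      _ = (kp : ℝ) + kn := mul_one _
  have hX1 : |X| ≤ ((kp1 : ℝ) + kn1) + (kp2 + kn2) + ((kp3 + kn3) + (kp4 + kn4)) := by
    have a1 := one kp1 kn1 _ _ i1 i4
    have a2 := one kp2 kn2 _ _ i3 i2
    have a3 := one kp3 kn3 _ _ i1 i2
    have a4 := one kp4 kn4 _ _ i3 i4
    rw [abs_le] at a1 a2 a3 a4 ⊢
    rw [hX]
    constructor <;> linarith [a1.1, a1.2, a2.1, a2.2, a3.1, a3.2, a4.1, a4.2]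
  have hX2 := pi_X X
  unfold F6
  rw [← hX]
  linarith only [hX2, hX1, key]

/-- **The certificate.** -/
theorem bb6_sound (hE : TabOK6) {sd w0 w1 w2 w3 kp1 kn1 kp2 kn2 kp3 kn3 kp4 kn4 c0p c0n c1p c1n c2p c2n
    c3p c3n c4p c4n n a1 b1 a2 b2 a3 b3 a4 b4 : ℕ}
    (h : bb (tst6 sd w0 w1 w2 w3 kp1 kn1 kp2 kn2 kp3 kn3 kp4 kn4 c0p c0n c1p c1n c2p c2n c3p c3n c4p c4n)
      n a1 b1 a2 b2 a3 b3 a4 b4 = true) {u v : ℂ}
    (g1 : Ps a1 b1 u.re) (g2 : Ps a2 b2 u.im) (g3 : Ps a3 b3 v.re) (g4 : Ps a4 b4 v.im)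
    (hsd : sd = 0 ∨ 0 ≤ u.re + v.re)
    (i1 : |u.re| ≤ 1) (i2 : |u.im| ≤ 1) (i3 : |v.re| ≤ 1) (i4 : |v.im| ≤ 1) :
    F6 w0 w1 w2 w3 kp1 kn1 kp2 kn2 kp3 kn3 kp4 kn4 c0p c0n c1p c1n c2p c2n c3p c3n c4p c4n u v < 0 := by
  have key := bb_ok (R := fun t s x h => ∀ u v : ℂ, u.re = t → u.im = s → v.re = x → v.im = h →
    (sd = 0 ∨ 0 ≤ u.re + v.re) → |u.re| ≤ 1 → |u.im| ≤ 1 → |v.re| ≤ 1 → |v.im| ≤ 1 →
    F6 w0 w1 w2 w3 kp1 kn1 kp2 kn2 kp3 kn3 kp4 kn4 c0p c0n c1p c1n c2p c2n c3p c3n c4p c4n u v < 0) (by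
    intro ta tb sa sb xa xb ha hb h t s x h' h1 h2 h3 h4 u v e1 e2 e3 e4 e5 e6 e7 e8 e9
    rw [← e1] at h1
    rw [← e2] at h2
    rw [← e3] at h3
    rw [← e4] at h4
    exact tst6_ok hE h h1 h2 h3 h4 e5 e6 e7 e8 e9) n a1 b1 a2 b2 a3 b3 a4 b4 h _ _ _ _ g1 g2 g3 g4
  exact key u v rfl rfl rfl rfl hsd i1 i2 i3 i4

end Pool.Agent.S5.Tb
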