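import Pool.Agent.H25.RK.DGI
import Pool.Agent.H25.RK.DGf
import Pool.Agent.H63.GO.MTaylor
import Pool.Agent.H63.VC4.GaussN
import Pool.Agent.H63.VC4.LaplaceN
import Pool.Agent.S3.Asm.Def
import Pool.Agent.S3.Chain
import Pool.Agent.S3.CritC
import Pool.Agent.S3.E.Crit
import Pool.Agent.S3.E.Geo
import Pool.Agent.S3.E.Sl
import Pool.Agent.S3.E.Two
import Pool.Agent.S3.LowE
import Pool.Agent.S3.W2.Slide
import Pool.Agent.S5.I.TbSt
import Pool.Agent.S5.I.Tc

/-!
# The analysis for the table
-/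

set_option autoImplicit false

namespace Pool.Agent.S5.Tb

open Pool.Agent.H63.VC3 Pool.Agent.S3 Complex MeasureTheory Filter Topology Set

/-- First order Taylor formula for `-Rf`. -/
theorem taylor {g z : ℂ} {K : ℝ} (hd : ∀ τ : ℝ, 0 ≤ τ → τ ≤ 1 → fdom (g + τ * (z - g)))
    (hK : ∀ τ : ℝ, 0 ≤ τ → τ ≤ 1 → ‖ct (g + τ * (z - g))‖ ≤ K) :
    -Rf z ≤ -Rf g - (he g).re * (z.re - g.re) + (he g).im * (z.im - g.im) +
      K / 2 * ((z.re - g.re) ^ 2 + (z.im - g.im) ^ 2) := by
  set w := z - g with hw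
  have hl : ∀ τ : ℝ, HasDerivAt (fun τ : ℝ => g + τ * w) w τ := by
    intro τ
    have := ((Complex.ofRealCLM.hasDerivAt (x := τ)).mul_const w).const_add g
    simpa using this
  have hh1 : ∀ τ ∈ Icc (0 : ℝ) 1, HasDerivWithinAt (fun τ : ℝ => he (g + τ * w))
      (w • ct (g + τ * w)) (Icc (0 : ℝ) 1) τ := fun τ hτ =>
    (HasDerivAt.scomp (g₁ := he) (h := fun τ : ℝ => g + τ * w) τ
      (he_hasDerivAt (hd τ hτ.1 hτ.2)) (hl τ)).hasDerivWithinAt
  have hb : ∀ τ ∈ Icc (0 : ℝ) 1, ‖he (g + τ * w) - he g‖ ≤ ‖w‖ * K * τ := by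
    intro τ hτ
    have h := (convex_Icc (0 : ℝ) 1).norm_image_sub_le_of_norm_hasDerivWithin_le
      (C := ‖w‖ * K) (fun x hx => hh1 x hx) (fun x hx => by
        rw [norm_smul]
        exact mul_le_mul_of_nonneg_left (hK x hx.1 hx.2) (norm_nonneg _))
      (left_mem_Icc.2 zero_le_one) hτ
    simp only [ofReal_zero, zero_mul, add_zero, sub_zero, Real.norm_eq_abs] at h
    rwa [abs_of_nonneg hτ.1] at h
  have hF : AntitoneOn (fun τ : ℝ => -Rf (g + τ * w) + (he g * w).re * τ - ‖w‖ ^ 2 * K / 2 * τ ^ 2)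
      (Icc 0 1) := by
    have hder : ∀ τ ∈ Icc (0 : ℝ) 1, HasDerivAt
        (fun τ : ℝ => -Rf (g + τ * w) + (he g * w).re * τ - ‖w‖ ^ 2 * K / 2 * τ ^ 2)
        (-(he (g + τ * w) * w).re + (he g * w).re - ‖w‖ ^ 2 * K * τ) τ := by
      intro τ hτ
      have d1 := (Rf_curve (hl τ) (hd τ hτ.1 hτ.2)).neg
      have d2 := (d1.add ((hasDerivAt_id' τ).const_mul (he g * w).re)).sub
        ((hasDerivAt_pow 2 τ).const_mul (‖w‖ ^ 2 * K / 2))
      refine d2.congr_deriv ?_
      push_cast
      ring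
    apply antitoneOn_of_deriv_nonpos (convex_Icc _ _)
    · exact fun τ hτ => (hder τ hτ).continuousAt.continuousWithinAt
    · exact fun τ hτ => (hder τ (interior_subset hτ)).differentiableAt.differentiableWithinAt
    · intro τ hτ
      rw [(hder τ (interior_subset hτ)).deriv]
      have h1 := hb τ (interior_subset hτ)
      have h2 : -((he (g + τ * w) - he g) * w).re ≤ ‖w‖ ^ 2 * K * τ := by
        have h3 := neg_le_abs ((he (g + τ * w) - he g) * w).re
        have h4 := abs_re_le_norm ((he (g + τ * w) - he g) * w)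
        rw [norm_mul] at h4
        have h5 := mul_le_mul_of_nonneg_right h1 (norm_nonneg w)
        nlinarith
      rw [sub_mul, sub_re] at h2
      linarith
  have h0 := hF (left_mem_Icc.2 zero_le_one) (right_mem_Icc.2 zero_le_one) zero_le_one
  simp only [ofReal_zero, zero_mul, add_zero, mul_zero, ofReal_one, one_mul, mul_one, one_pow,
    ne_eq, OfNat.ofNat_ne_zero, not_false_eq_true, zero_pow, sub_zero] at h0
  have e1 : g + w = z := by rw [hw]; ring
  have e2 : (he g * w).re = (he g).re * (z.re - g.re) - (he g).im * (z.im - g.im) := by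
    rw [hw, mul_re, sub_re, sub_im]
  have e3 : ‖w‖ ^ 2 = (z.re - g.re) ^ 2 + (z.im - g.im) ^ 2 := by
    rw [← normSq_eq_norm_sq, normSq_apply, hw, sub_re, sub_im]
    ring
  rw [e1, e2, e3] at h0
  linarith

theorem abs_sin_ge {u x : ℝ} (h0 : 0 ≤ u) (h1 : u ≤ |x|) (h2 : |x| ≤ 1 - u) :
    Real.sin (Real.pi * u) ^ 2 ≤ Real.sin (Real.pi * x) ^ 2 := by
  have hpi := Real.pi_pos
  have e : Real.sin (Real.pi * x) ^ 2 = Real.sin (Real.pi * |x|) ^ 2 := by
    rcases abs_choice x with h | h
    · rw [h]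
    · rw [h, mul_neg, Real.sin_neg, neg_sq]
  rw [e]
  have hs0 : 0 ≤ Real.sin (Real.pi * u) :=
    Real.sin_nonneg_of_nonneg_of_le_pi (by positivity) (by nlinarith)
  apply pow_le_pow_left₀ hs0
  have hu : u ≤ 1 / 2 := by linarith
  rcases le_total |x| (1 / 2) with h | h
  · apply Real.sin_le_sin_of_le_of_le_pi_div_two <;> nlinarith
  · have e2 : Real.sin (Real.pi * |x|) = Real.sin (Real.pi * (1 - |x|)) := by
      rw [show Real.pi * (1 - |x|) = Real.pi - Real.pi * |x| by ring, Real.sin_pi_sub]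
    rw [e2]
    apply Real.sin_le_sin_of_le_of_le_pi_div_two <;> nlinarith

theorem norm_cos_pi_sq (z : ℂ) : ‖cos (Real.pi * z)‖ ^ 2 =
    1 - Real.sin (Real.pi * z.re) ^ 2 + Real.sinh (Real.pi * z.im) ^ 2 := by
  have e1 : (Real.pi : ℂ) * z = ((Real.pi * z.re : ℝ) : ℂ) + ((Real.pi * z.im : ℝ) : ℂ) * I := by
    apply Complex.ext <;> simp
  rw [e1, cos_add_mul_I, ← ofReal_sin, ← ofReal_cosh, ← ofReal_cos, ← ofReal_sinh,
    ← normSq_eq_norm_sq, normSq_apply]
  simp only [sub_re, mul_re, ofReal_re, ofReal_im, mul_zero, sub_zero, I_re, I_im, mul_one,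
    mul_im, zero_mul, add_zero, sub_im, zero_add, zero_sub]
  have h1 := Real.cosh_sq (Real.pi * z.im)
  have h2 := Real.sin_sq_add_cos_sq (Real.pi * z.re)
  have e3 : Real.cos (Real.pi * z.re) ^ 2 = 1 - Real.sin (Real.pi * z.re) ^ 2 := by linarith
  have e4 : Real.cos (Real.pi * z.re) * Real.cosh (Real.pi * z.im) *
      (Real.cos (Real.pi * z.re) * Real.cosh (Real.pi * z.im)) +
      -(Real.sin (Real.pi * z.re) * Real.sinh (Real.pi * z.im)) *
      -(Real.sin (Real.pi * z.re) * Real.sinh (Real.pi * z.im)) =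
      Real.cos (Real.pi * z.re) ^ 2 * Real.cosh (Real.pi * z.im) ^ 2 +
        Real.sin (Real.pi * z.re) ^ 2 * Real.sinh (Real.pi * z.im) ^ 2 := by ring
  rw [e4, e3, h1]
  ring

/-- The bound of the second derivative. -/
theorem ct_le {i j : ℕ} (hi : i ≤ 100) (h0 : 0 < i + j) (h : EntOK i j (ent i j)) {z : ℂ}
    (h1 : (i : ℝ) / 200 ≤ |z.re|) (h2 : |z.re| ≤ 1 - (i : ℝ) / 200) (h3 : (j : ℝ) / 200 ≤ |z.im|) :
    ‖ct z‖ ≤ (kE (ent i j) : ℝ) / 16 := by
  have hpi := Real.pi_pos
  have hk := h.k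
  set D0 := Real.sin (Real.pi * (i / 200)) ^ 2 + Real.sinh (Real.pi * (j / 200)) ^ 2 with hD0
  have hi' : (i : ℝ) / 200 ≤ 1 / 2 := by
    have : (i : ℝ) ≤ 100 := by exact_mod_cast hi
    linarith
  have hi0 : (0 : ℝ) ≤ (i : ℝ) / 200 := by positivity
  have hj0 : (0 : ℝ) ≤ (j : ℝ) / 200 := by positivity
  have hD : 0 < D0 := by
    rcases Nat.eq_zero_or_pos i with hz | hz
    · have hj : 0 < j := by omega
      have : 0 < Real.sinh (Real.pi * (j / 200)) := Real.sinh_pos_iff.2 (by positivity)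
      rw [hD0]
      positivity
    · have : 0 < Real.sin (Real.pi * (i / 200)) :=
        Real.sin_pos_of_pos_of_lt_pi (by positivity) (by nlinarith)
      rw [hD0]
      positivity
  set D := Real.sin (Real.pi * z.re) ^ 2 + Real.sinh (Real.pi * z.im) ^ 2 with hDd
  have hDD : D0 ≤ D := by
    have a1 := abs_sin_ge hi0 h1 h2
    have a2 := sinh_sq_le (x := Real.pi * (j / 200)) (y := Real.pi * z.im) (by
      rw [abs_mul, abs_mul, abs_of_nonneg hj0]
      exact mul_le_mul_of_nonneg_left h3 (abs_nonneg _))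
    linarith
  have hDp : 0 < D := hD.trans_le hDD
  have hs : ‖sin (Real.pi * z)‖ ^ 2 = D := by
    have := norm_sin_pi_sq z.re z.im
    rw [re_add_im] at this
    exact this
  have hsn : 0 < ‖sin (Real.pi * z)‖ := by
    rcases (norm_nonneg (sin (Real.pi * z))).lt_or_eq with h5 | h5
    · exact h5
    · rw [← h5] at hs
      norm_num at hs
      linarith
  have hc := norm_cos_pi_sq z
  have e : ‖ct z‖ ^ 2 = Real.pi ^ 2 * ((1 - Real.sin (Real.pi * z.re) ^ 2 +
      Real.sinh (Real.pi * z.im) ^ 2) / D) := by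
    unfold ct
    rw [norm_div, norm_mul, norm_real, Real.norm_eq_abs, abs_of_pos hpi, div_pow, mul_pow, hs, hc]
    ring
  have h6 : ‖ct z‖ ^ 2 ≤ Real.pi ^ 2 * (1 + 1 / D0) := by
    rw [e]
    apply mul_le_mul_of_nonneg_left _ (by positivity)
    have h7 : (1 - Real.sin (Real.pi * z.re) ^ 2 + Real.sinh (Real.pi * z.im) ^ 2) / D ≤
        (D + 1) / D := by
      apply div_le_div_of_nonneg_right _ hDp.le
      have := sq_nonneg (Real.sin (Real.pi * z.re))
      linarith
    have h8 : (D + 1) / D = 1 + 1 / D := by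
      field_simp
    have h9 : 1 / D ≤ 1 / D0 := div_le_div_of_nonneg_left zero_le_one hD hDD
    linarith
  have h10 : (16 * ‖ct z‖) ^ 2 ≤ (kE (ent i j) : ℝ) ^ 2 := by nlinarith
  have h11 := (sq_le_sq₀ (by positivity) (by positivity)).1 h10
  linarith

/-- The data are right at the point `g` in the strip; `up`: upper half plane. -/
structure DatOK (g : ℂ) (up : Bool) (qp qn tp tn l : ℕ) : Prop where
  q : |-Rf g * 1048576 - ((qp : ℝ) - qn)| ≤ 32
  l : |(he g).re * 1048576 - ((l : ℝ) - 8388608)| ≤ 4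
  t : |(he g).im * 1048576 - (if up = true then 1 else -1) * ((tp : ℝ) - tn)| ≤ 4

theorem fN_eq {α : Type} (f : ℕ → α) (n : ℕ) : fN f n = f n := by
  cases n <;> rfl

theorem he_one_sub {z : ℂ} (h : fdom z) : he (1 - z) = he z := by
  rcases lt_trichotomy z.im 0 with h1 | h1 | h1
  · have h2 : 0 < (1 - z).im := by rw [sub_im, one_im]; linarith
    rw [he, if_pos h2, he, if_neg (not_lt.2 h1.le), if_pos h1, Pot_exp_reflect]
    ring
  · have h2 : 0 < z.re ∧ z.re < 1 := by
      rcases h with h | h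
      · exact absurd h1 h
      · exact h
    rw [he_eq_hh h2.1 h2.2, he_eq_hh (by rw [sub_re, one_re]; linarith [h2.2])
      (by rw [sub_re, one_re]; linarith [h2.1]), Pot_hh_reflect]
  · have h2 : ¬ 0 < (1 - z).im := by rw [sub_im, one_im]; linarith
    have h3 : (1 - z).im < 0 := by rw [sub_im, one_im]; linarith
    have e : exp (-(2 * Real.pi * I * (1 - z))) = exp (2 * Real.pi * I * z) := by
      have := Pot_exp_reflect (1 - z)
      rw [sub_sub_cancel] at this
      rw [this]
    rw [he, if_neg h2, if_pos h3, he, if_pos h1, e]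
    ring

/-- The left half of the strip. -/
theorem dat_left {i j : ℕ} (hi : i ≤ 100) (h0 : 0 < i + j) (h : EntOK i j (ent i j)) (up : Bool) :
    DatOK ((((i : ℝ) / 200 : ℝ) : ℂ) + (((if up = true then 1 else -1) * ((j : ℝ) / 200) : ℝ) : ℂ) * I)
      up (qE (ent i j)) 0 (tE (ent i j)) 0 (lE (ent i j)) := by
  have hi' : (i : ℝ) / 200 ≤ 1 / 2 := by
    have : (i : ℝ) ≤ 100 := by exact_mod_cast hi
    linarith
  have hi0 : (0 : ℝ) ≤ (i : ℝ) / 200 := by positivity
  have hre : (pt i j).re = (i : ℝ) / 200 := by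
    unfold pt
    exact line_re _ _
  have him : (pt i j).im = (j : ℝ) / 200 := by
    unfold pt
    exact line_im _ _
  have hf : fdom (pt i j) := by
    unfold fdom
    rw [hre, him]
    rcases Nat.eq_zero_or_pos j with hz | hz
    · right
      have : 0 < i := by omega
      exact ⟨by positivity, by linarith⟩
    · left
      positivity
  have hh1 : he (pt i j) = hh (pt i j) := by
    rw [he_eq_log hf (by rw [hre]; linarith) (by rw [hre]; linarith)]
    rfl
  have hL : (he (pt i j)).re = Lg ((j : ℝ) / 200) ((i : ℝ) / 200) := by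
    rw [re_he hf]
    rfl
  have hq := h.q
  have ht := h.t
  have hl := h.l
  rw [← hh1] at ht
  rw [← hL] at hl
  cases up with
  | true =>
    have e : (((i : ℝ) / 200 : ℝ) : ℂ) + (((if true = true then 1 else -1) * ((j : ℝ) / 200) : ℝ) : ℂ) * I =
        pt i j := by
      unfold pt
      simp
    rw [e]
    refine ⟨?_, ?_, ?_⟩
    · simpa using hq
    · rw [abs_le] at hl ⊢
      constructor <;> linarith [hl.1, hl.2]
    · simpa using ht
  | false =>
    have e : (((i : ℝ) / 200 : ℝ) : ℂ) + (((if false = true then 1 else -1) * ((j : ℝ) / 200) : ℝ) : ℂ) * I =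
        (starRingEnd ℂ) (pt i j) := by
      unfold pt
      rw [conj_line]
      simp
    rw [e]
    refine ⟨?_, ?_, ?_⟩
    · rw [Rf_conj]
      simpa using hq
    · rw [he_conj' hf, conj_re]
      rw [abs_le] at hl ⊢
      constructor <;> linarith [hl.1, hl.2]
    · rw [he_conj' hf, conj_im]
      simp only [Bool.false_eq_true, if_false]
      rw [abs_le] at ht ⊢
      push_cast
      constructor <;> linarith [ht.1, ht.2]

/-- The values at the points of the table in the strip. -/
theorem dat_ok (hE : ∀ i j : ℕ, i ≤ 100 → j ≤ 50 → 0 < i + j → EntOK i j (ent i j))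
    {α : Type} {a b : ℕ} (ha : a ≤ 200) (hb : b ≤ 50) (h : 0 < b ∨ (0 < a ∧ a < 200)) (up : Bool)
    (k : ℕ → ℕ → ℕ → ℕ → ℕ → α) : ∃ qp qn tp tn l : ℕ, dat a b k = k qp qn tp tn l ∧
      DatOK ((((a : ℝ) / 200 : ℝ) : ℂ) + (((if up = true then 1 else -1) * ((b : ℝ) / 200) : ℝ) : ℂ) * I)
        up qp qn tp tn l := by
  rcases le_or_gt a 100 with h1 | h1
  · refine ⟨qE (ent a b), 0, tE (ent a b), 0, lE (ent a b), ?_, ?_⟩
    · unfold dat
      rw [Nat.ble_eq_true_of_le h1]
      simp only [cond_true, fN_eq]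
    · exact dat_left h1 (by omega) (hE a b h1 hb (by omega)) up
  · refine ⟨0, qE (ent (200 - a) b), 0, tE (ent (200 - a) b), lE (ent (200 - a) b), ?_, ?_⟩
    · unfold dat
      have : Nat.ble a 100 = false := by
        rw [← Bool.not_eq_true, Nat.ble_eq]
        omega
      rw [this]
      simp only [cond_false, fN_eq, Nat.sub_eq]
    · have h2 : 200 - a ≤ 100 := by omega
      have h3 : 0 < 200 - a + b := by omega
      have hd := dat_left h2 h3 (hE (200 - a) b h2 hb h3) (!up)
      set g' : ℂ := (((200 - a : ℕ) : ℝ) / 200 : ℝ) +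
        (((if (!up) = true then 1 else -1) * ((b : ℝ) / 200) : ℝ) : ℂ) * I with hg'
      have hcast : (((200 - a : ℕ) : ℝ)) = 200 - (a : ℝ) := by
        rw [Nat.cast_sub ha]
        norm_num
      have hg : (((a : ℝ) / 200 : ℝ) : ℂ) +
          (((if up = true then 1 else -1) * ((b : ℝ) / 200) : ℝ) : ℂ) * I = 1 - g' := by
        rw [hg', hcast]
        cases up <;> simp <;> ring
      have hf : fdom g' := by
        unfold fdom
        rw [hg', line_re, line_im, hcast]
        rcases Nat.eq_zero_or_pos b with hz | hz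
        · right
          have h5 : a < 200 := by omega
          have h6 : (a : ℝ) < 200 := by exact_mod_cast h5
          have h7 : (100 : ℝ) < a := by exact_mod_cast h1
          constructor <;> linarith
        · left
          have : (0 : ℝ) < b := by exact_mod_cast hz
          cases up <;> simp <;> omega
      rw [hg]
      obtain ⟨q, l, t⟩ := hd
      refine ⟨?_, ?_, ?_⟩
      · rw [Rf_one_sub]
        rw [abs_le] at q ⊢
        push_cast at q ⊢
        constructor <;> linarith [q.1, q.2]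
      · rw [he_one_sub hf]
        exact l
      · rw [he_one_sub hf]
        rw [abs_le] at t ⊢
        cases up <;> simp at t ⊢ <;> constructor <;> linarith [t.1, t.2]

/-- Near zero. -/
theorem near_zero {z : ℂ} {u s : ℝ} (h1 : |z.re| ≤ 1 / 10) (h2 : z.re ≤ u) (h3 : 0 ≤ u)
    (h4 : u ≤ 1 / 10) (h5 : |z.im| ≤ s) (h6 : s ≤ 1 / 10) :
    -Rf z ≤ -Rf ((u : ℂ) + s * I) := by
  have hpi := Real.pi_pos
  have hs0 : 0 ≤ s := (abs_nonneg _).trans h5
  have a1 := abs_le.1 h1
  -- the height
  have b1 : -Rf z ≤ -Rf ((z.re : ℂ) + s * I) := by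
    have h := Rf_incr (η1 := z.im) (η2 := s) (a := z.re) (b := 1 / 2)
      (by rw [abs_of_nonneg hs0]; exact h5) (by linarith [a1.2])
    rw [Rf_half, Rf_half, re_add_im] at h
    linarith
  refine b1.trans ?_
  have h7 : ∫ t in z.re..u, Lg s t = Rf ((u : ℂ) + s * I) - Rf ((z.re : ℂ) + s * I) :=
    Lg_integral s z.re u
  have h8 : ∫ t in z.re..u, Lg s t ≤ 0 := by
    have h9 : ∀ t ∈ Icc z.re u, Lg s t ≤ 0 := by
      intro t ht
      unfold Lg
      apply Real.log_nonpos (norm_nonneg _)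
      have e1 : ‖2 * sin (Real.pi * ((t : ℂ) + s * I))‖ ^ 2 =
          4 * (Real.sin (Real.pi * t) ^ 2 + Real.sinh (Real.pi * s) ^ 2) := by
        rw [norm_mul, norm_ofNat, mul_pow, norm_sin_pi_sq]
        norm_num
      have hpi2 := Real.pi_lt_d4
      have c1 : Real.sin (Real.pi * t) ^ 2 ≤ 1 / 10 := by
        have h10 := Real.abs_sin_le_abs (x := Real.pi * t)
        have h11 : |Real.pi * t| ≤ 31416 / 100000 := by
          rw [abs_mul, abs_of_pos hpi]
          have : |t| ≤ 1 / 10 := abs_le.2 ⟨by linarith [ht.1, a1.1], by linarith [ht.2]⟩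
          have h12 := abs_nonneg t
          nlinarith
        have h13 : |Real.sin (Real.pi * t)| ≤ 31416 / 100000 := h10.trans h11
        rw [← sq_abs]
        nlinarith [abs_nonneg (Real.sin (Real.pi * t))]
      have c2 : Real.sinh (Real.pi * s) ^ 2 ≤ 12 / 100 := by
        have h10 : Real.sinh (Real.pi * s) ≤ Real.sinh (31416 / 100000) := by
          rw [Real.sinh_le_sinh]
          nlinarith
        have h11 : Real.sinh (31416 / 100000) ≤ 34 / 100 := by
          have k1 := Real.exp_bound' (x := 31416 / 100000) (by norm_num) (by norm_num) (n := 4)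
            (by norm_num)
          simp [Finset.sum_range_succ, Nat.factorial] at k1
          norm_num at k1
          have k2 : (0 : ℝ) < Real.exp (31416 / 100000) := Real.exp_pos _
          have k3 : Real.exp (31416 / 100000) ≤ 137 / 100 := by
            norm_num
            linarith
          have k4 : Real.exp (-(31416 / 100000)) * Real.exp (31416 / 100000) = 1 := by
            rw [← Real.exp_add]
            norm_num
          have k5 : (100 / 137 : ℝ) ≤ Real.exp (-(31416 / 100000)) := by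
            have k6 : (0 : ℝ) < Real.exp (-(31416 / 100000)) := Real.exp_pos _
            have k7 : 1 ≤ Real.exp (-(31416 / 100000)) * (137 / 100) := by
              rw [← k4]
              exact mul_le_mul_of_nonneg_left k3 k6.le
            linarith
          rw [Real.sinh_eq]
          linarith
        have h12 : 0 ≤ Real.sinh (Real.pi * s) := Real.sinh_nonneg_iff.2 (by positivity)
        nlinarith
      have c3 : ‖2 * sin (Real.pi * ((t : ℂ) + s * I))‖ ^ 2 ≤ 1 := by
        rw [e1]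
        linarith
      exact (sq_le_one_iff₀ (norm_nonneg _)).1 c3
    have h10 : ∫ t in z.re..u, Lg s t ≤ ∫ _t in z.re..u, (0 : ℝ) :=
      intervalIntegral.integral_mono_on h2 (Lg_integrable _ _ _) (by simp) h9
    simpa using h10
  linarith

/-- Near one. -/
theorem near_one {z : ℂ} (h1 : 1 / 2 ≤ z.re) (h2 : z.re ≤ 1) : -Rf z ≤ 0 := by
  have h := Rf_one_sub z
  have h3 := Rf_incr (η1 := 0) (η2 := (1 - z).im) (a := (1 - z).re) (b := 1 / 2)
    (by rw [abs_zero]; exact abs_nonneg _) (by rw [sub_re, one_re]; linarith)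
  rw [Rf_half, Rf_half, re_add_im, ofReal_zero, zero_mul, add_zero] at h3
  have h4 := Rf_nonpos (x := (1 - z).re) (by rw [sub_re, one_re]; linarith)
    (by rw [sub_re, one_re]; linarith)
  linarith

/-- Left of zero. -/
theorem Rf_shift (z : ℂ) : -Rf z = -Rf (z + 1) + Real.pi * |z.im| := by
  rw [Rf_add_one]
  ring

theorem exp_shift (z : ℂ) : exp (2 * Real.pi * I * (z + 1)) = exp (2 * Real.pi * I * z) := by
  rw [show (2 * Real.pi * I * (z + 1) : ℂ) = 2 * Real.pi * I * z + 2 * Real.pi * I by ring,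
    exp_add, exp_two_pi_mul_I, mul_one]

theorem exp_shift' (z : ℂ) : exp (-(2 * Real.pi * I * (z + 1))) = exp (-(2 * Real.pi * I * z)) := by
  rw [exp_neg, exp_shift, ← exp_neg]

/-- Left of zero. -/
theorem he_shift_up {z : ℂ} (h : 0 < z.im) : he z = he (z + 1) + Real.pi * I := by
  have h2 : 0 < (z + 1).im := by rw [add_im, one_im, add_zero]; exact h
  rw [he, if_pos h, he, if_pos h2, exp_shift]
  ring

/-- Left of zero. -/
theorem he_shift_dn {z : ℂ} (h : z.im < 0) : he z = he (z + 1) - Real.pi * I := by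
  have h2 : (z + 1).im < 0 := by rw [add_im, one_im, add_zero]; exact h
  rw [he, if_neg (not_lt.2 h.le), if_pos h, he, if_neg (not_lt.2 h2.le), if_pos h2, exp_shift']
  ring

end Pool.Agent.S5.Tb
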