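import Pool.Agent.S5.I.VB7a

/-!
# `Re v = 7/25`: `Im y ≤ 0`
-/

set_option autoImplicit false

namespace Pool.Agent.S5.VB

open Pool.Agent.H63.VC3 Pool.Agent.S3 Pool.Agent.S5 MeasureTheory Filter Topology Set

theorem p0_0 {H N u : ℝ} (hN0 : 0 ≤ N) (hN : N ≤ 9 / 200) (hH0 : -(27 / 200) ≤ H) (hH1 : H ≤ 0)
    (h1 : -(1 / 4) < u) (h2 : u < -(1 / 5)) : 3099 / 10000 ≤ sg H N u := by
  have ha : 1 / 5 ≤ |u| := by
    rw [abs_of_nonpos (by linarith only [h2])]
    linarith only [h2]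
  have hb : |u| ≤ 1 / 4 := by
    rw [abs_of_nonpos (by linarith only [h2])]
    linarith only [h1]
  have hN' : |N| ≤ 9 / 200 := by
    rw [abs_of_nonneg hN0]
    exact hN
  have hH' : |H| ≤ 27 / 200 := by
    rw [abs_le]
    constructor <;> linarith
  refine pc (A := 1 / 5) (B := 1 / 4) (E := 1859 / 1000) (Cn := 10403 / 10000) (Sn := 717 / 2500)
    (Cb := 13819 / 10000) (c1 := 0) (c2 := 3091 / 10000) (γ := 0)
    (by norm_num) (by norm_num) ha hb (ex_up (by norm_num) (by norm_num) (by norm_num))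
    (by norm_num) (cz_135 hH') (cz_045 hN') (by norm_num) cl_250 (by norm_num) cu_200
    (gam0 (by (refine le_of_not_gt fun hng => ?_; linarith only [hH1,
                mul_nonneg (sub_nonneg.2 hH1) (sub_nonneg.2 h2.le),
                mul_pos (sub_pos.2 hng) (sub_pos.2 h2), mul_pos (sub_pos.2 hng) (sub_pos.2 h1)])) hN0 (by rw [abs_le]; constructor <;> linarith)) ?_ ?_ ?_ ?_ <;> (unfold ft; norm_num)

theorem p0_1 {H N u : ℝ} (hN0 : 0 ≤ N) (hN : N ≤ 9 / 200) (hH0 : -(27 / 200) ≤ H) (hH1 : H ≤ 0)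
    (h1 : -(1 / 5) < u) (h2 : u < -(3 / 20)) : 1991 / 5000 ≤ sg H N u := by
  have ha : 3 / 20 ≤ |u| := by
    rw [abs_of_nonpos (by linarith only [h2])]
    linarith only [h2]
  have hb : |u| ≤ 1 / 5 := by
    rw [abs_of_nonpos (by linarith only [h2])]
    linarith only [h1]
  have hN' : |N| ≤ 9 / 200 := by
    rw [abs_of_nonneg hN0]
    exact hN
  have hH' : |H| ≤ 27 / 200 := by
    rw [abs_le]
    constructor <;> linarith
  refine pc (A := 3 / 20) (B := 1 / 5) (E := 1109 / 500) (Cn := 10403 / 10000) (Sn := 717 / 2500)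
    (Cb := 13819 / 10000) (c1 := 193 / 625) (c2 := 2939 / 5000) (γ := 0)
    (by norm_num) (by norm_num) ha hb (ex_up (by norm_num) (by norm_num) (by norm_num))
    (by norm_num) (cz_135 hH') (cz_045 hN') (by norm_num) cl_200 (by norm_num) cu_150
    (gam0 (by (refine le_of_not_gt fun hng => ?_; linarith only [hH1,
                mul_nonneg (sub_nonneg.2 hH1) (sub_nonneg.2 h2.le),
                mul_pos (sub_pos.2 hng) (sub_pos.2 h2), mul_pos (sub_pos.2 hng) (sub_pos.2 h1)])) hN0 (by rw [abs_le]; constructor <;> linarith)) ?_ ?_ ?_ ?_ <;> (unfold ft; norm_num)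

theorem p0_2 {H N u : ℝ} (hN0 : 0 ≤ N) (hN : N ≤ 9 / 200) (hH0 : -(27 / 200) ≤ H) (hH1 : H ≤ 0)
    (h1 : -(3 / 20) < u) (h2 : u < -(1 / 10)) : 4089 / 10000 ≤ sg H N u := by
  have ha : 1 / 10 ≤ |u| := by
    rw [abs_of_nonpos (by linarith only [h2])]
    linarith only [h2]
  have hb : |u| ≤ 3 / 20 := by
    rw [abs_of_nonpos (by linarith only [h2])]
    linarith only [h1]
  have hN' : |N| ≤ 9 / 200 := by
    rw [abs_of_nonneg hN0]
    exact hN
  have hH' : |H| ≤ 27 / 200 := by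
    rw [abs_le]
    constructor <;> linarith
  refine pc (A := 1 / 10) (B := 3 / 20) (E := 1133 / 500) (Cn := 10403 / 10000) (Sn := 717 / 2500)
    (Cb := 13819 / 10000) (c1 := 5877 / 10000) (c2 := 8091 / 10000) (γ := 0)
    (by norm_num) (by norm_num) ha hb (ex_up (by norm_num) (by norm_num) (by norm_num))
    (by norm_num) (cz_135 hH') (cz_045 hN') (by norm_num) cl_150 (by norm_num) cu_100
    (gam0 (by (refine le_of_not_gt fun hng => ?_; linarith only [hH1,
                mul_nonneg (sub_nonneg.2 hH1) (sub_nonneg.2 h2.le),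
                mul_pos (sub_pos.2 hng) (sub_pos.2 h2), mul_pos (sub_pos.2 hng) (sub_pos.2 h1)])) hN0 (by rw [abs_le]; constructor <;> linarith)) ?_ ?_ ?_ ?_ <;> (unfold ft; norm_num)

theorem p0_3 {H N u : ℝ} (hN0 : 0 ≤ N) (hN : N ≤ 9 / 200) (hH0 : -(27 / 200) ≤ H) (hH1 : H ≤ 0)
    (h1 : -(1 / 10) < u) (h2 : u < 0) : 3967 / 10000 ≤ sg H N u := by
  have ha : 0 ≤ |u| := by
    rw [abs_of_nonpos (by linarith only [h2])]
    linarith only [h2]
  have hb : |u| ≤ 1 / 10 := by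
    rw [abs_of_nonpos (by linarith only [h2])]
    linarith only [h1]
  have hN' : |N| ≤ 9 / 200 := by
    rw [abs_of_nonneg hN0]
    exact hN
  have hH' : |H| ≤ 27 / 200 := by
    rw [abs_le]
    constructor <;> linarith
  refine pc (A := 0) (B := 1 / 10) (E := 2211 / 1000) (Cn := 10403 / 10000) (Sn := 717 / 2500)
    (Cb := 13819 / 10000) (c1 := 809 / 1000) (c2 := 1) (γ := 0)
    (by norm_num) (by norm_num) ha hb (ex_up (by norm_num) (by norm_num) (by norm_num))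
    (by norm_num) (cz_135 hH') (cz_045 hN') (by norm_num) cl_100 (by norm_num) cu_000
    (gam0 (by (refine le_of_not_gt fun hng => ?_; linarith only [mul_nonneg (sub_nonneg.2 hH1) (sub_nonneg.2 h2.le),
                mul_pos (sub_pos.2 hng) (sub_pos.2 h2), mul_pos (sub_pos.2 hng) (sub_pos.2 h1)])) hN0 (by rw [abs_le]; constructor <;> linarith)) ?_ ?_ ?_ ?_ <;> (unfold ft; norm_num)

theorem p0_4 {H N u : ℝ} (hN0 : 0 ≤ N) (hN : N ≤ 9 / 200) (hH0 : -(27 / 200) ≤ H) (hH1 : H ≤ 0)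
    (h1 : 0 < u) (h2 : u < 7 / 100) : 3539 / 10000 ≤ sg H N u := by
  have ha : 0 ≤ |u| := by
    rw [abs_of_nonneg (by linarith only [h1])]
    linarith only [h1]
  have hb : |u| ≤ 7 / 100 := by
    rw [abs_of_nonneg (by linarith only [h1])]
    linarith only [h2]
  have hN' : |N| ≤ 9 / 200 := by
    rw [abs_of_nonneg hN0]
    exact hN
  have hH' : |H| ≤ 27 / 200 := by
    rw [abs_le]
    constructor <;> linarith
  refine pc (A := 0) (B := 7 / 100) (E := 203 / 100) (Cn := 10403 / 10000) (Sn := 717 / 2500)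
    (Cb := 13819 / 10000) (c1 := 1131 / 1250) (c2 := 1) (γ := 2 * (4769 / 5000 * (717 / 2500) * (2129 / 5000) * (9824 / 10000)))
    (by norm_num) (by norm_num) ha hb (ex_up (by norm_num) (by norm_num) (by norm_num))
    (by norm_num) (cz_135 hH') (cz_045 hN') (by norm_num) cl_070 (by norm_num) cu_000
    (gamB (cz_135 hH') (cz_045 hN') (by norm_num) (by norm_num) (by norm_num) (by norm_num)
      su_070 hb (by norm_num)) ?_ ?_ ?_ ?_ <;> (unfold ft; norm_num)

theorem p0_5 {H N u : ℝ} (hN0 : 0 ≤ N) (hN : N ≤ 9 / 200) (hH0 : -(27 / 200) ≤ H) (hH1 : H ≤ 0)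
    (h1 : 7 / 100 < u) (h2 : u < 13 / 100) : 3187 / 10000 ≤ sg H N u := by
  have ha : 7 / 100 ≤ |u| := by
    rw [abs_of_nonneg (by linarith only [h1])]
    linarith only [h1]
  have hb : |u| ≤ 13 / 100 := by
    rw [abs_of_nonneg (by linarith only [h1])]
    linarith only [h2]
  have hN' : |N| ≤ 9 / 200 := by
    rw [abs_of_nonneg hN0]
    exact hN
  have hH' : |H| ≤ 27 / 200 := by
    rw [abs_le]
    constructor <;> linarith
  refine pc (A := 7 / 100) (B := 13 / 100) (E := 473 / 250) (Cn := 10403 / 10000) (Sn := 717 / 2500)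
    (Cb := 13819 / 10000) (c1 := 1369 / 2000) (c2 := 9049 / 10000) (γ := 2 * (4769 / 5000 * (717 / 2500) * (729 / 1000) * (9824 / 10000)))
    (by norm_num) (by norm_num) ha hb (ex_up (by norm_num) (by norm_num) (by norm_num))
    (by norm_num) (cz_135 hH') (cz_045 hN') (by norm_num) cl_130 (by norm_num) cu_070
    (gamB (cz_135 hH') (cz_045 hN') (by norm_num) (by norm_num) (by norm_num) (by norm_num)
      su_130 hb (by norm_num)) ?_ ?_ ?_ ?_ <;> (unfold ft; norm_num)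

theorem bx0 {X N T H t : ℝ} (h : RG X N T H) (hN0 : 0 ≤ N) (hN : N ≤ 9 / 200)
    (hH0 : -(27 / 200) ≤ H) (hH1 : H ≤ 0)
    (hL : 2 * Lg H (1 / 2 - T) - Lg (H - N) (T - X) - Lg (H + N) (T + X) ≤ 19 / 50)
    (ht0 : -(1 / 4) ≤ t) (ht1 : t ≤ 13 / 100) : 0 < Fl X N T H t (7 / 25) := by
  have s5 : 99 / 5000 ≤ Fl X N T H (13 / 100) (7 / 25) := le_trans (by norm_num) (Fl_13 h)
  have e5 : ∀ t, 7 / 100 ≤ t → t ≤ 13 / 100 →
      99 / 5000 + (13 / 100 - t) * (3187 / 10000 - 19 / 50) ≤ Fl X N T H t (7 / 25) := fun t a b =>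
    step s5 hL (fun u c d => p0_5 hN0 hN hH0 hH1 c d) a b
  have s4 : 403 / 25000 ≤ Fl X N T H (7 / 100) (7 / 25) :=
    le_trans (by norm_num) (e5 (7 / 100) le_rfl (by norm_num))
  have e4 : ∀ t, 0 ≤ t → t ≤ 7 / 100 →
      403 / 25000 + (7 / 100 - t) * (3539 / 10000 - 19 / 50) ≤ Fl X N T H t (7 / 25) := fun t a b =>
    step s4 hL (fun u c d => p0_4 hN0 hN hH0 hH1 c d) a b
  have s3 : 1429 / 100000 ≤ Fl X N T H (0) (7 / 25) :=
    le_trans (by norm_num) (e4 (0) le_rfl (by norm_num))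
  have e3 : ∀ t, -(1 / 10) ≤ t → t ≤ 0 →
      1429 / 100000 + (0 - t) * (3967 / 10000 - 19 / 50) ≤ Fl X N T H t (7 / 25) := fun t a b =>
    step s3 hL (fun u c d => p0_3 hN0 hN hH0 hH1 c d) a b
  have s2 : 399 / 25000 ≤ Fl X N T H (-(1 / 10)) (7 / 25) :=
    le_trans (by norm_num) (e3 (-(1 / 10)) le_rfl (by norm_num))
  have e2 : ∀ t, -(3 / 20) ≤ t → t ≤ -(1 / 10) →
      399 / 25000 + (-(1 / 10) - t) * (4089 / 10000 - 19 / 50) ≤ Fl X N T H t (7 / 25) := fun t a b =>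
    step s2 hL (fun u c d => p0_2 hN0 hN hH0 hH1 c d) a b
  have s1 : 87 / 5000 ≤ Fl X N T H (-(3 / 20)) (7 / 25) :=
    le_trans (by norm_num) (e2 (-(3 / 20)) le_rfl (by norm_num))
  have e1 : ∀ t, -(1 / 5) ≤ t → t ≤ -(3 / 20) →
      87 / 5000 + (-(3 / 20) - t) * (1991 / 5000 - 19 / 50) ≤ Fl X N T H t (7 / 25) := fun t a b =>
    step s1 hL (fun u c d => p0_1 hN0 hN hH0 hH1 c d) a b
  have s0 : 1831 / 100000 ≤ Fl X N T H (-(1 / 5)) (7 / 25) :=
    le_trans (by norm_num) (e1 (-(1 / 5)) le_rfl (by norm_num))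
  have e0 : ∀ t, -(1 / 4) ≤ t → t ≤ -(1 / 5) →
      1831 / 100000 + (-(1 / 5) - t) * (3099 / 10000 - 19 / 50) ≤ Fl X N T H t (7 / 25) := fun t a b =>
    step s0 hL (fun u c d => p0_0 hN0 hN hH0 hH1 c d) a b
  rcases le_total t 0 with a | a
  · rcases le_total t (-(1 / 10)) with b | b
    · rcases le_total t (-(3 / 20)) with c | c
      · rcases le_total t (-(1 / 5)) with d | d
        · linarith only [e0 t ht0 d, ht0]
        · linarith only [e1 t d c, ht1]
      · linarith only [e2 t c b, ht1]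
    · linarith only [e3 t b a, ht1]
  · rcases le_total t (7 / 100) with b | b
    · linarith only [e4 t a b, a]
    · linarith only [e5 t b ht1, b]

theorem p1_0 {H N u : ℝ} (hN0 : 0 ≤ N) (hN : N ≤ 3 / 50) (hH0 : -(3 / 25) ≤ H) (hH1 : H ≤ 0)
    (h1 : -(1 / 4) < u) (h2 : u < -(1 / 5)) : 827 / 2500 ≤ sg H N u := by
  have ha : 1 / 5 ≤ |u| := by
    rw [abs_of_nonpos (by linarith only [h2])]
    linarith only [h2]
  have hb : |u| ≤ 1 / 4 := by
    rw [abs_of_nonpos (by linarith only [h2])]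
    linarith only [h1]
  have hN' : |N| ≤ 3 / 50 := by
    rw [abs_of_nonneg hN0]
    exact hN
  have hH' : |H| ≤ 3 / 25 := by
    rw [abs_le]
    constructor <;> linarith
  refine pc (A := 1 / 5) (B := 1 / 4) (E := 969 / 500) (Cn := 134 / 125) (Sn := 3863 / 10000)
    (Cb := 649 / 500) (c1 := 0) (c2 := 3091 / 10000) (γ := 0)
    (by norm_num) (by norm_num) ha hb (ex_up (by norm_num) (by norm_num) (by norm_num))
    (by norm_num) (cz_120 hH') (cz_060 hN') (by norm_num) cl_250 (by norm_num) cu_200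
    (gam0 (by (refine le_of_not_gt fun hng => ?_; linarith only [hH1,
                mul_nonneg (sub_nonneg.2 hH1) (sub_nonneg.2 h2.le),
                mul_pos (sub_pos.2 hng) (sub_pos.2 h2), mul_pos (sub_pos.2 hng) (sub_pos.2 h1)])) hN0 (by rw [abs_le]; constructor <;> linarith)) ?_ ?_ ?_ ?_ <;> (unfold ft; norm_num)

theorem p1_1 {H N u : ℝ} (hN0 : 0 ≤ N) (hN : N ≤ 3 / 50) (hH0 : -(3 / 25) ≤ H) (hH1 : H ≤ 0)
    (h1 : -(1 / 5) < u) (h2 : u < -(3 / 20)) : 4149 / 10000 ≤ sg H N u := by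
  have ha : 3 / 20 ≤ |u| := by
    rw [abs_of_nonpos (by linarith only [h2])]
    linarith only [h2]
  have hb : |u| ≤ 1 / 5 := by
    rw [abs_of_nonpos (by linarith only [h2])]
    linarith only [h1]
  have hN' : |N| ≤ 3 / 50 := by
    rw [abs_of_nonneg hN0]
    exact hN
  have hH' : |H| ≤ 3 / 25 := by
    rw [abs_le]
    constructor <;> linarith
  refine pc (A := 3 / 20) (B := 1 / 5) (E := 2293 / 1000) (Cn := 134 / 125) (Sn := 3863 / 10000)
    (Cb := 649 / 500) (c1 := 193 / 625) (c2 := 2939 / 5000) (γ := 0)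
    (by norm_num) (by norm_num) ha hb (ex_up (by norm_num) (by norm_num) (by norm_num))
    (by norm_num) (cz_120 hH') (cz_060 hN') (by norm_num) cl_200 (by norm_num) cu_150
    (gam0 (by (refine le_of_not_gt fun hng => ?_; linarith only [hH1,
                mul_nonneg (sub_nonneg.2 hH1) (sub_nonneg.2 h2.le),
                mul_pos (sub_pos.2 hng) (sub_pos.2 h2), mul_pos (sub_pos.2 hng) (sub_pos.2 h1)])) hN0 (by rw [abs_le]; constructor <;> linarith)) ?_ ?_ ?_ ?_ <;> (unfold ft; norm_num)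

theorem p1_2 {H N u : ℝ} (hN0 : 0 ≤ N) (hN : N ≤ 3 / 50) (hH0 : -(3 / 25) ≤ H) (hH1 : H ≤ 0)
    (h1 : -(3 / 20) < u) (h2 : u < -(1 / 10)) : 2061 / 5000 ≤ sg H N u := by
  have ha : 1 / 10 ≤ |u| := by
    rw [abs_of_nonpos (by linarith only [h2])]
    linarith only [h2]
  have hb : |u| ≤ 3 / 20 := by
    rw [abs_of_nonpos (by linarith only [h2])]
    linarith only [h1]
  have hN' : |N| ≤ 3 / 50 := by
    rw [abs_of_nonneg hN0]
    exact hN
  have hH' : |H| ≤ 3 / 25 := by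
    rw [abs_le]
    constructor <;> linarith
  refine pc (A := 1 / 10) (B := 3 / 20) (E := 2281 / 1000) (Cn := 134 / 125) (Sn := 3863 / 10000)
    (Cb := 649 / 500) (c1 := 5877 / 10000) (c2 := 8091 / 10000) (γ := 0)
    (by norm_num) (by norm_num) ha hb (ex_up (by norm_num) (by norm_num) (by norm_num))
    (by norm_num) (cz_120 hH') (cz_060 hN') (by norm_num) cl_150 (by norm_num) cu_100
    (gam0 (by (refine le_of_not_gt fun hng => ?_; linarith only [hH1,
                mul_nonneg (sub_nonneg.2 hH1) (sub_nonneg.2 h2.le),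
                mul_pos (sub_pos.2 hng) (sub_pos.2 h2), mul_pos (sub_pos.2 hng) (sub_pos.2 h1)])) hN0 (by rw [abs_le]; constructor <;> linarith)) ?_ ?_ ?_ ?_ <;> (unfold ft; norm_num)

theorem p1_3 {H N u : ℝ} (hN0 : 0 ≤ N) (hN : N ≤ 3 / 50) (hH0 : -(3 / 25) ≤ H) (hH1 : H ≤ 0)
    (h1 : -(1 / 10) < u) (h2 : u < 0) : 99 / 250 ≤ sg H N u := by
  have ha : 0 ≤ |u| := by
    rw [abs_of_nonpos (by linarith only [h2])]
    linarith only [h2]
  have hb : |u| ≤ 1 / 10 := by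
    rw [abs_of_nonpos (by linarith only [h2])]
    linarith only [h1]
  have hN' : |N| ≤ 3 / 50 := by
    rw [abs_of_nonneg hN0]
    exact hN
  have hH' : |H| ≤ 3 / 25 := by
    rw [abs_le]
    constructor <;> linarith
  refine pc (A := 0) (B := 1 / 10) (E := 276 / 125) (Cn := 134 / 125) (Sn := 3863 / 10000)
    (Cb := 649 / 500) (c1 := 809 / 1000) (c2 := 1) (γ := 0)
    (by norm_num) (by norm_num) ha hb (ex_up (by norm_num) (by norm_num) (by norm_num))
    (by norm_num) (cz_120 hH') (cz_060 hN') (by norm_num) cl_100 (by norm_num) cu_000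
    (gam0 (by (refine le_of_not_gt fun hng => ?_; linarith only [mul_nonneg (sub_nonneg.2 hH1) (sub_nonneg.2 h2.le),
                mul_pos (sub_pos.2 hng) (sub_pos.2 h2), mul_pos (sub_pos.2 hng) (sub_pos.2 h1)])) hN0 (by rw [abs_le]; constructor <;> linarith)) ?_ ?_ ?_ ?_ <;> (unfold ft; norm_num)

theorem p1_4 {H N u : ℝ} (hN0 : 0 ≤ N) (hN : N ≤ 3 / 50) (hH0 : -(3 / 25) ≤ H) (hH1 : H ≤ 0)
    (h1 : 0 < u) (h2 : u < 7 / 100) : 343 / 1000 ≤ sg H N u := by
  have ha : 0 ≤ |u| := by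
    rw [abs_of_nonneg (by linarith only [h1])]
    linarith only [h1]
  have hb : |u| ≤ 7 / 100 := by
    rw [abs_of_nonneg (by linarith only [h1])]
    linarith only [h2]
  have hN' : |N| ≤ 3 / 50 := by
    rw [abs_of_nonneg hN0]
    exact hN
  have hH' : |H| ≤ 3 / 25 := by
    rw [abs_le]
    constructor <;> linarith
  refine pc (A := 0) (B := 7 / 100) (E := 993 / 500) (Cn := 134 / 125) (Sn := 3863 / 10000)
    (Cb := 649 / 500) (c1 := 1131 / 1250) (c2 := 1) (γ := 2 * (2069 / 2500 * (3863 / 10000) * (2129 / 5000) * (9824 / 10000)))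
    (by norm_num) (by norm_num) ha hb (ex_up (by norm_num) (by norm_num) (by norm_num))
    (by norm_num) (cz_120 hH') (cz_060 hN') (by norm_num) cl_070 (by norm_num) cu_000
    (gamB (cz_120 hH') (cz_060 hN') (by norm_num) (by norm_num) (by norm_num) (by norm_num)
      su_070 hb (by norm_num)) ?_ ?_ ?_ ?_ <;> (unfold ft; norm_num)

theorem p1_5 {H N u : ℝ} (hN0 : 0 ≤ N) (hN : N ≤ 3 / 50) (hH0 : -(3 / 25) ≤ H) (hH1 : H ≤ 0)
    (h1 : 7 / 100 < u) (h2 : u < 13 / 100) : 3007 / 10000 ≤ sg H N u := by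
  have ha : 7 / 100 ≤ |u| := by
    rw [abs_of_nonneg (by linarith only [h1])]
    linarith only [h1]
  have hb : |u| ≤ 13 / 100 := by
    rw [abs_of_nonneg (by linarith only [h1])]
    linarith only [h2]
  have hN' : |N| ≤ 3 / 50 := by
    rw [abs_of_nonneg hN0]
    exact hN
  have hH' : |H| ≤ 3 / 25 := by
    rw [abs_le]
    constructor <;> linarith
  refine pc (A := 7 / 100) (B := 13 / 100) (E := 73 / 40) (Cn := 134 / 125) (Sn := 3863 / 10000)
    (Cb := 649 / 500) (c1 := 1369 / 2000) (c2 := 9049 / 10000) (γ := 2 * (2069 / 2500 * (3863 / 10000) * (729 / 1000) * (9824 / 10000)))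
    (by norm_num) (by norm_num) ha hb (ex_up (by norm_num) (by norm_num) (by norm_num))
    (by norm_num) (cz_120 hH') (cz_060 hN') (by norm_num) cl_130 (by norm_num) cu_070
    (gamB (cz_120 hH') (cz_060 hN') (by norm_num) (by norm_num) (by norm_num) (by norm_num)
      su_130 hb (by norm_num)) ?_ ?_ ?_ ?_ <;> (unfold ft; norm_num)

theorem bx1 {X N T H t : ℝ} (h : RG X N T H) (hN0 : 0 ≤ N) (hN : N ≤ 3 / 50)
    (hH0 : -(3 / 25) ≤ H) (hH1 : H ≤ 0)
    (hL : 2 * Lg H (1 / 2 - T) - Lg (H - N) (T - X) - Lg (H + N) (T + X) ≤ 19 / 50)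
    (ht0 : -(1 / 4) ≤ t) (ht1 : t ≤ 13 / 100) : 0 < Fl X N T H t (7 / 25) := by
  have s5 : 99 / 5000 ≤ Fl X N T H (13 / 100) (7 / 25) := le_trans (by norm_num) (Fl_13 h)
  have e5 : ∀ t, 7 / 100 ≤ t → t ≤ 13 / 100 →
      99 / 5000 + (13 / 100 - t) * (3007 / 10000 - 19 / 50) ≤ Fl X N T H t (7 / 25) := fun t a b =>
    step s5 hL (fun u c d => p1_5 hN0 hN hH0 hH1 c d) a b
  have s4 : 47 / 3125 ≤ Fl X N T H (7 / 100) (7 / 25) :=
    le_trans (by norm_num) (e5 (7 / 100) le_rfl (by norm_num))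
  have e4 : ∀ t, 0 ≤ t → t ≤ 7 / 100 →
      47 / 3125 + (7 / 100 - t) * (343 / 1000 - 19 / 50) ≤ Fl X N T H t (7 / 25) := fun t a b =>
    step s4 hL (fun u c d => p1_4 hN0 hN hH0 hH1 c d) a b
  have s3 : 249 / 20000 ≤ Fl X N T H (0) (7 / 25) :=
    le_trans (by norm_num) (e4 (0) le_rfl (by norm_num))
  have e3 : ∀ t, -(1 / 10) ≤ t → t ≤ 0 →
      249 / 20000 + (0 - t) * (99 / 250 - 19 / 50) ≤ Fl X N T H t (7 / 25) := fun t a b =>
    step s3 hL (fun u c d => p1_3 hN0 hN hH0 hH1 c d) a b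
  have s2 : 281 / 20000 ≤ Fl X N T H (-(1 / 10)) (7 / 25) :=
    le_trans (by norm_num) (e3 (-(1 / 10)) le_rfl (by norm_num))
  have e2 : ∀ t, -(3 / 20) ≤ t → t ≤ -(1 / 10) →
      281 / 20000 + (-(1 / 10) - t) * (2061 / 5000 - 19 / 50) ≤ Fl X N T H t (7 / 25) := fun t a b =>
    step s2 hL (fun u c d => p1_2 hN0 hN hH0 hH1 c d) a b
  have s1 : 783 / 50000 ≤ Fl X N T H (-(3 / 20)) (7 / 25) :=
    le_trans (by norm_num) (e2 (-(3 / 20)) le_rfl (by norm_num))
  have e1 : ∀ t, -(1 / 5) ≤ t → t ≤ -(3 / 20) →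
      783 / 50000 + (-(3 / 20) - t) * (4149 / 10000 - 19 / 50) ≤ Fl X N T H t (7 / 25) := fun t a b =>
    step s1 hL (fun u c d => p1_1 hN0 hN hH0 hH1 c d) a b
  have s0 : 87 / 5000 ≤ Fl X N T H (-(1 / 5)) (7 / 25) :=
    le_trans (by norm_num) (e1 (-(1 / 5)) le_rfl (by norm_num))
  have e0 : ∀ t, -(1 / 4) ≤ t → t ≤ -(1 / 5) →
      87 / 5000 + (-(1 / 5) - t) * (827 / 2500 - 19 / 50) ≤ Fl X N T H t (7 / 25) := fun t a b =>
    step s0 hL (fun u c d => p1_0 hN0 hN hH0 hH1 c d) a b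
  rcases le_total t 0 with a | a
  · rcases le_total t (-(1 / 10)) with b | b
    · rcases le_total t (-(3 / 20)) with c | c
      · rcases le_total t (-(1 / 5)) with d | d
        · linarith only [e0 t ht0 d, ht0]
        · linarith only [e1 t d c, ht1]
      · linarith only [e2 t c b, ht1]
    · linarith only [e3 t b a, ht1]
  · rcases le_total t (7 / 100) with b | b
    · linarith only [e4 t a b, a]
    · linarith only [e5 t b ht1, b]

theorem p2_0 {H N u : ℝ} (hN0 : 0 ≤ N) (hN : N ≤ 3 / 40) (hH0 : -(21 / 200) ≤ H) (hH1 : H ≤ 0)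
    (h1 : -(1 / 4) < u) (h2 : u < -(1 / 5)) : 3297 / 10000 ≤ sg H N u := by
  have ha : 1 / 5 ≤ |u| := by
    rw [abs_of_nonpos (by linarith only [h2])]
    linarith only [h2]
  have hb : |u| ≤ 1 / 4 := by
    rw [abs_of_nonpos (by linarith only [h2])]
    linarith only [h1]
  have hN' : |N| ≤ 3 / 40 := by
    rw [abs_of_nonneg hN0]
    exact hN
  have hH' : |H| ≤ 21 / 200 := by
    rw [abs_le]
    constructor <;> linarith
  refine pc (A := 1 / 5) (B := 1 / 4) (E := 967 / 500) (Cn := 2783 / 2500) (Sn := 4891 / 10000)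
    (Cb := 12257 / 10000) (c1 := 0) (c2 := 3091 / 10000) (γ := 0)
    (by norm_num) (by norm_num) ha hb (ex_up (by norm_num) (by norm_num) (by norm_num))
    (by norm_num) (cz_105 hH') (cz_075 hN') (by norm_num) cl_250 (by norm_num) cu_200
    (gam0 (by (refine le_of_not_gt fun hng => ?_; linarith only [hH1,
                mul_nonneg (sub_nonneg.2 hH1) (sub_nonneg.2 h2.le),
                mul_pos (sub_pos.2 hng) (sub_pos.2 h2), mul_pos (sub_pos.2 hng) (sub_pos.2 h1)])) hN0 (by rw [abs_le]; constructor <;> linarith)) ?_ ?_ ?_ ?_ <;> (unfold ft; norm_num)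

theorem p2_1 {H N u : ℝ} (hN0 : 0 ≤ N) (hN : N ≤ 3 / 40) (hH0 : -(21 / 200) ≤ H) (hH1 : H ≤ 0)
    (h1 : -(1 / 5) < u) (h2 : u < -(3 / 20)) : 4133 / 10000 ≤ sg H N u := by
  have ha : 3 / 20 ≤ |u| := by
    rw [abs_of_nonpos (by linarith only [h2])]
    linarith only [h2]
  have hb : |u| ≤ 1 / 5 := by
    rw [abs_of_nonpos (by linarith only [h2])]
    linarith only [h1]
  have hN' : |N| ≤ 3 / 40 := by
    rw [abs_of_nonneg hN0]
    exact hN
  have hH' : |H| ≤ 21 / 200 := by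
    rw [abs_le]
    constructor <;> linarith
  refine pc (A := 3 / 20) (B := 1 / 5) (E := 1143 / 500) (Cn := 2783 / 2500) (Sn := 4891 / 10000)
    (Cb := 12257 / 10000) (c1 := 193 / 625) (c2 := 2939 / 5000) (γ := 0)
    (by norm_num) (by norm_num) ha hb (ex_up (by norm_num) (by norm_num) (by norm_num))
    (by norm_num) (cz_105 hH') (cz_075 hN') (by norm_num) cl_200 (by norm_num) cu_150
    (gam0 (by (refine le_of_not_gt fun hng => ?_; linarith only [hH1,
                mul_nonneg (sub_nonneg.2 hH1) (sub_nonneg.2 h2.le),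
                mul_pos (sub_pos.2 hng) (sub_pos.2 h2), mul_pos (sub_pos.2 hng) (sub_pos.2 h1)])) hN0 (by rw [abs_le]; constructor <;> linarith)) ?_ ?_ ?_ ?_ <;> (unfold ft; norm_num)

theorem p2_2 {H N u : ℝ} (hN0 : 0 ≤ N) (hN : N ≤ 3 / 40) (hH0 : -(21 / 200) ≤ H) (hH1 : H ≤ 0)
    (h1 : -(3 / 20) < u) (h2 : u < -(1 / 10)) : 4041 / 10000 ≤ sg H N u := by
  have ha : 1 / 10 ≤ |u| := by
    rw [abs_of_nonpos (by linarith only [h2])]
    linarith only [h2]
  have hb : |u| ≤ 3 / 20 := by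
    rw [abs_of_nonpos (by linarith only [h2])]
    linarith only [h1]
  have hN' : |N| ≤ 3 / 40 := by
    rw [abs_of_nonneg hN0]
    exact hN
  have hH' : |H| ≤ 21 / 200 := by
    rw [abs_le]
    constructor <;> linarith
  refine pc (A := 1 / 10) (B := 3 / 20) (E := 561 / 250) (Cn := 2783 / 2500) (Sn := 4891 / 10000)
    (Cb := 12257 / 10000) (c1 := 5877 / 10000) (c2 := 8091 / 10000) (γ := 0)
    (by norm_num) (by norm_num) ha hb (ex_up (by norm_num) (by norm_num) (by norm_num))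
    (by norm_num) (cz_105 hH') (cz_075 hN') (by norm_num) cl_150 (by norm_num) cu_100
    (gam0 (by (refine le_of_not_gt fun hng => ?_; linarith only [hH1,
                mul_nonneg (sub_nonneg.2 hH1) (sub_nonneg.2 h2.le),
                mul_pos (sub_pos.2 hng) (sub_pos.2 h2), mul_pos (sub_pos.2 hng) (sub_pos.2 h1)])) hN0 (by rw [abs_le]; constructor <;> linarith)) ?_ ?_ ?_ ?_ <;> (unfold ft; norm_num)

theorem p2_3 {H N u : ℝ} (hN0 : 0 ≤ N) (hN : N ≤ 3 / 40) (hH0 : -(21 / 200) ≤ H) (hH1 : H ≤ 0)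
    (h1 : -(1 / 10) < u) (h2 : u < 0) : 3861 / 10000 ≤ sg H N u := by
  have ha : 0 ≤ |u| := by
    rw [abs_of_nonpos (by linarith only [h2])]
    linarith only [h2]
  have hb : |u| ≤ 1 / 10 := by
    rw [abs_of_nonpos (by linarith only [h2])]
    linarith only [h1]
  have hN' : |N| ≤ 3 / 40 := by
    rw [abs_of_nonneg hN0]
    exact hN
  have hH' : |H| ≤ 21 / 200 := by
    rw [abs_le]
    constructor <;> linarith
  refine pc (A := 0) (B := 1 / 10) (E := 433 / 200) (Cn := 2783 / 2500) (Sn := 4891 / 10000)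
    (Cb := 12257 / 10000) (c1 := 809 / 1000) (c2 := 1) (γ := 0)
    (by norm_num) (by norm_num) ha hb (ex_up (by norm_num) (by norm_num) (by norm_num))
    (by norm_num) (cz_105 hH') (cz_075 hN') (by norm_num) cl_100 (by norm_num) cu_000
    (gam0 (by (refine le_of_not_gt fun hng => ?_; linarith only [mul_nonneg (sub_nonneg.2 hH1) (sub_nonneg.2 h2.le),
                mul_pos (sub_pos.2 hng) (sub_pos.2 h2), mul_pos (sub_pos.2 hng) (sub_pos.2 h1)])) hN0 (by rw [abs_le]; constructor <;> linarith)) ?_ ?_ ?_ ?_ <;> (unfold ft; norm_num)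

theorem p2_4 {H N u : ℝ} (hN0 : 0 ≤ N) (hN : N ≤ 3 / 40) (hH0 : -(21 / 200) ≤ H) (hH1 : H ≤ 0)
    (h1 : 0 < u) (h2 : u < 7 / 100) : 204 / 625 ≤ sg H N u := by
  have ha : 0 ≤ |u| := by
    rw [abs_of_nonneg (by linarith only [h1])]
    linarith only [h1]
  have hb : |u| ≤ 7 / 100 := by
    rw [abs_of_nonneg (by linarith only [h1])]
    linarith only [h2]
  have hN' : |N| ≤ 3 / 40 := by
    rw [abs_of_nonneg hN0]
    exact hN
  have hH' : |H| ≤ 21 / 200 := by
    rw [abs_le]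
    constructor <;> linarith
  refine pc (A := 0) (B := 7 / 100) (E := 1921 / 1000) (Cn := 2783 / 2500) (Sn := 4891 / 10000)
    (Cb := 12257 / 10000) (c1 := 1131 / 1250) (c2 := 1) (γ := 2 * (443 / 625 * (4891 / 10000) * (2129 / 5000) * (9824 / 10000)))
    (by norm_num) (by norm_num) ha hb (ex_up (by norm_num) (by norm_num) (by norm_num))
    (by norm_num) (cz_105 hH') (cz_075 hN') (by norm_num) cl_070 (by norm_num) cu_000
    (gamB (cz_105 hH') (cz_075 hN') (by norm_num) (by norm_num) (by norm_num) (by norm_num)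
      su_070 hb (by norm_num)) ?_ ?_ ?_ ?_ <;> (unfold ft; norm_num)

theorem p2_5 {H N u : ℝ} (hN0 : 0 ≤ N) (hN : N ≤ 3 / 40) (hH0 : -(21 / 200) ≤ H) (hH1 : H ≤ 0)
    (h1 : 7 / 100 < u) (h2 : u < 13 / 100) : 139 / 500 ≤ sg H N u := by
  have ha : 7 / 100 ≤ |u| := by
    rw [abs_of_nonneg (by linarith only [h1])]
    linarith only [h1]
  have hb : |u| ≤ 13 / 100 := by
    rw [abs_of_nonneg (by linarith only [h1])]
    linarith only [h2]
  have hN' : |N| ≤ 3 / 40 := by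
    rw [abs_of_nonneg hN0]
    exact hN
  have hH' : |H| ≤ 21 / 200 := by
    rw [abs_le]
    constructor <;> linarith
  refine pc (A := 7 / 100) (B := 13 / 100) (E := 218 / 125) (Cn := 2783 / 2500) (Sn := 4891 / 10000)
    (Cb := 12257 / 10000) (c1 := 1369 / 2000) (c2 := 9049 / 10000) (γ := 2 * (443 / 625 * (4891 / 10000) * (729 / 1000) * (9824 / 10000)))
    (by norm_num) (by norm_num) ha hb (ex_up (by norm_num) (by norm_num) (by norm_num))
    (by norm_num) (cz_105 hH') (cz_075 hN') (by norm_num) cl_130 (by norm_num) cu_070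
    (gamB (cz_105 hH') (cz_075 hN') (by norm_num) (by norm_num) (by norm_num) (by norm_num)
      su_130 hb (by norm_num)) ?_ ?_ ?_ ?_ <;> (unfold ft; norm_num)

theorem bx2 {X N T H t : ℝ} (h : RG X N T H) (hN0 : 0 ≤ N) (hN : N ≤ 3 / 40)
    (hH0 : -(21 / 200) ≤ H) (hH1 : H ≤ 0)
    (hL : 2 * Lg H (1 / 2 - T) - Lg (H - N) (T - X) - Lg (H + N) (T + X) ≤ 19 / 50)
    (ht0 : -(1 / 4) ≤ t) (ht1 : t ≤ 13 / 100) : 0 < Fl X N T H t (7 / 25) := by
  have s5 : 99 / 5000 ≤ Fl X N T H (13 / 100) (7 / 25) := le_trans (by norm_num) (Fl_13 h)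
  have e5 : ∀ t, 7 / 100 ≤ t → t ≤ 13 / 100 →
      99 / 5000 + (13 / 100 - t) * (139 / 500 - 19 / 50) ≤ Fl X N T H t (7 / 25) := fun t a b =>
    step s5 hL (fun u c d => p2_5 hN0 hN hH0 hH1 c d) a b
  have s4 : 171 / 12500 ≤ Fl X N T H (7 / 100) (7 / 25) :=
    le_trans (by norm_num) (e5 (7 / 100) le_rfl (by norm_num))
  have e4 : ∀ t, 0 ≤ t → t ≤ 7 / 100 →
      171 / 12500 + (7 / 100 - t) * (204 / 625 - 19 / 50) ≤ Fl X N T H t (7 / 25) := fun t a b =>
    step s4 hL (fun u c d => p2_4 hN0 hN hH0 hH1 c d) a b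
  have s3 : 31 / 3125 ≤ Fl X N T H (0) (7 / 25) :=
    le_trans (by norm_num) (e4 (0) le_rfl (by norm_num))
  have e3 : ∀ t, -(1 / 10) ≤ t → t ≤ 0 →
      31 / 3125 + (0 - t) * (3861 / 10000 - 19 / 50) ≤ Fl X N T H t (7 / 25) := fun t a b =>
    step s3 hL (fun u c d => p2_3 hN0 hN hH0 hH1 c d) a b
  have s2 : 1053 / 100000 ≤ Fl X N T H (-(1 / 10)) (7 / 25) :=
    le_trans (by norm_num) (e3 (-(1 / 10)) le_rfl (by norm_num))
  have e2 : ∀ t, -(3 / 20) ≤ t → t ≤ -(1 / 10) →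
      1053 / 100000 + (-(1 / 10) - t) * (4041 / 10000 - 19 / 50) ≤ Fl X N T H t (7 / 25) := fun t a b =>
    step s2 hL (fun u c d => p2_2 hN0 hN hH0 hH1 c d) a b
  have s1 : 1173 / 100000 ≤ Fl X N T H (-(3 / 20)) (7 / 25) :=
    le_trans (by norm_num) (e2 (-(3 / 20)) le_rfl (by norm_num))
  have e1 : ∀ t, -(1 / 5) ≤ t → t ≤ -(3 / 20) →
      1173 / 100000 + (-(3 / 20) - t) * (4133 / 10000 - 19 / 50) ≤ Fl X N T H t (7 / 25) := fun t a b =>
    step s1 hL (fun u c d => p2_1 hN0 hN hH0 hH1 c d) a b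
  have s0 : 1339 / 100000 ≤ Fl X N T H (-(1 / 5)) (7 / 25) :=
    le_trans (by norm_num) (e1 (-(1 / 5)) le_rfl (by norm_num))
  have e0 : ∀ t, -(1 / 4) ≤ t → t ≤ -(1 / 5) →
      1339 / 100000 + (-(1 / 5) - t) * (3297 / 10000 - 19 / 50) ≤ Fl X N T H t (7 / 25) := fun t a b =>
    step s0 hL (fun u c d => p2_0 hN0 hN hH0 hH1 c d) a b
  rcases le_total t 0 with a | a
  · rcases le_total t (-(1 / 10)) with b | b
    · rcases le_total t (-(3 / 20)) with c | c
      · rcases le_total t (-(1 / 5)) with d | d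
        · linarith only [e0 t ht0 d, ht0]
        · linarith only [e1 t d c, ht1]
      · linarith only [e2 t c b, ht1]
    · linarith only [e3 t b a, ht1]
  · rcases le_total t (7 / 100) with b | b
    · linarith only [e4 t a b, a]
    · linarith only [e5 t b ht1, b]

theorem p3_0 {H N u : ℝ} (hN0 : 0 ≤ N) (hN : N ≤ 11 / 125) (hH0 : -(9 / 100) ≤ H) (hH1 : H ≤ 0)
    (h1 : -(1 / 4) < u) (h2 : u < -(1 / 5)) : 3099 / 10000 ≤ sg H N u := by
  have ha : 1 / 5 ≤ |u| := by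
    rw [abs_of_nonpos (by linarith only [h2])]
    linarith only [h2]
  have hb : |u| ≤ 1 / 4 := by
    rw [abs_of_nonpos (by linarith only [h2])]
    linarith only [h1]
  have hN' : |N| ≤ 11 / 125 := by
    rw [abs_of_nonneg hN0]
    exact hN
  have hH' : |H| ≤ 9 / 100 := by
    rw [abs_le]
    constructor <;> linarith
  refine pc (A := 1 / 5) (B := 1 / 4) (E := 1859 / 1000) (Cn := 723 / 625) (Sn := 727 / 1250)
    (Cb := 5821 / 5000) (c1 := 0) (c2 := 3091 / 10000) (γ := 0)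
    (by norm_num) (by norm_num) ha hb (ex_up (by norm_num) (by norm_num) (by norm_num))
    (by norm_num) (cz_090 hH') (cz_088 hN') (by norm_num) cl_250 (by norm_num) cu_200
    (gam0 (by (refine le_of_not_gt fun hng => ?_; linarith only [hH1,
                mul_nonneg (sub_nonneg.2 hH1) (sub_nonneg.2 h2.le),
                mul_pos (sub_pos.2 hng) (sub_pos.2 h2), mul_pos (sub_pos.2 hng) (sub_pos.2 h1)])) hN0 (by rw [abs_le]; constructor <;> linarith)) ?_ ?_ ?_ ?_ <;> (unfold ft; norm_num)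

theorem p3_1 {H N u : ℝ} (hN0 : 0 ≤ N) (hN : N ≤ 11 / 125) (hH0 : -(9 / 100) ≤ H) (hH1 : H ≤ 0)
    (h1 : -(1 / 5) < u) (h2 : u < -(3 / 20)) : 3973 / 10000 ≤ sg H N u := by
  have ha : 3 / 20 ≤ |u| := by
    rw [abs_of_nonpos (by linarith only [h2])]
    linarith only [h2]
  have hb : |u| ≤ 1 / 5 := by
    rw [abs_of_nonpos (by linarith only [h2])]
    linarith only [h1]
  have hN' : |N| ≤ 11 / 125 := by
    rw [abs_of_nonneg hN0]
    exact hN
  have hH' : |H| ≤ 9 / 100 := by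
    rw [abs_le]
    constructor <;> linarith
  refine pc (A := 3 / 20) (B := 1 / 5) (E := 1107 / 500) (Cn := 723 / 625) (Sn := 727 / 1250)
    (Cb := 5821 / 5000) (c1 := 193 / 625) (c2 := 2939 / 5000) (γ := 0)
    (by norm_num) (by norm_num) ha hb (ex_up (by norm_num) (by norm_num) (by norm_num))
    (by norm_num) (cz_090 hH') (cz_088 hN') (by norm_num) cl_200 (by norm_num) cu_150
    (gam0 (by (refine le_of_not_gt fun hng => ?_; linarith only [hH1,
                mul_nonneg (sub_nonneg.2 hH1) (sub_nonneg.2 h2.le),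
                mul_pos (sub_pos.2 hng) (sub_pos.2 h2), mul_pos (sub_pos.2 hng) (sub_pos.2 h1)])) hN0 (by rw [abs_le]; constructor <;> linarith)) ?_ ?_ ?_ ?_ <;> (unfold ft; norm_num)

theorem p3_2 {H N u : ℝ} (hN0 : 0 ≤ N) (hN : N ≤ 11 / 125) (hH0 : -(9 / 100) ≤ H) (hH1 : H ≤ 0)
    (h1 : -(3 / 20) < u) (h2 : u < -(1 / 10)) : 97 / 250 ≤ sg H N u := by
  have ha : 1 / 10 ≤ |u| := by
    rw [abs_of_nonpos (by linarith only [h2])]
    linarith only [h2]
  have hb : |u| ≤ 3 / 20 := by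
    rw [abs_of_nonpos (by linarith only [h2])]
    linarith only [h1]
  have hN' : |N| ≤ 11 / 125 := by
    rw [abs_of_nonneg hN0]
    exact hN
  have hH' : |H| ≤ 9 / 100 := by
    rw [abs_le]
    constructor <;> linarith
  refine pc (A := 1 / 10) (B := 3 / 20) (E := 2173 / 1000) (Cn := 723 / 625) (Sn := 727 / 1250)
    (Cb := 5821 / 5000) (c1 := 5877 / 10000) (c2 := 8091 / 10000) (γ := 0)
    (by norm_num) (by norm_num) ha hb (ex_up (by norm_num) (by norm_num) (by norm_num))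
    (by norm_num) (cz_090 hH') (cz_088 hN') (by norm_num) cl_150 (by norm_num) cu_100
    (gam0 (by (refine le_of_not_gt fun hng => ?_; linarith only [hH1,
                mul_nonneg (sub_nonneg.2 hH1) (sub_nonneg.2 h2.le),
                mul_pos (sub_pos.2 hng) (sub_pos.2 h2), mul_pos (sub_pos.2 hng) (sub_pos.2 h1)])) hN0 (by rw [abs_le]; constructor <;> linarith)) ?_ ?_ ?_ ?_ <;> (unfold ft; norm_num)

theorem p3_3 {H N u : ℝ} (hN0 : 0 ≤ N) (hN : N ≤ 11 / 125) (hH0 : -(9 / 100) ≤ H) (hH1 : H ≤ 0)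
    (h1 : -(1 / 10) < u) (h2 : u < 0) : 1851 / 5000 ≤ sg H N u := by
  have ha : 0 ≤ |u| := by
    rw [abs_of_nonpos (by linarith only [h2])]
    linarith only [h2]
  have hb : |u| ≤ 1 / 10 := by
    rw [abs_of_nonpos (by linarith only [h2])]
    linarith only [h1]
  have hN' : |N| ≤ 11 / 125 := by
    rw [abs_of_nonneg hN0]
    exact hN
  have hH' : |H| ≤ 9 / 100 := by
    rw [abs_le]
    constructor <;> linarith
  refine pc (A := 0) (B := 1 / 10) (E := 2097 / 1000) (Cn := 723 / 625) (Sn := 727 / 1250)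
    (Cb := 5821 / 5000) (c1 := 809 / 1000) (c2 := 1) (γ := 0)
    (by norm_num) (by norm_num) ha hb (ex_up (by norm_num) (by norm_num) (by norm_num))
    (by norm_num) (cz_090 hH') (cz_088 hN') (by norm_num) cl_100 (by norm_num) cu_000
    (gam0 (by (refine le_of_not_gt fun hng => ?_; linarith only [mul_nonneg (sub_nonneg.2 hH1) (sub_nonneg.2 h2.le),
                mul_pos (sub_pos.2 hng) (sub_pos.2 h2), mul_pos (sub_pos.2 hng) (sub_pos.2 h1)])) hN0 (by rw [abs_le]; constructor <;> linarith)) ?_ ?_ ?_ ?_ <;> (unfold ft; norm_num)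

theorem p3_4 {H N u : ℝ} (hN0 : 0 ≤ N) (hN : N ≤ 11 / 125) (hH0 : -(9 / 100) ≤ H) (hH1 : H ≤ 0)
    (h1 : 0 < u) (h2 : u < 7 / 100) : 3091 / 10000 ≤ sg H N u := by
  have ha : 0 ≤ |u| := by
    rw [abs_of_nonneg (by linarith only [h1])]
    linarith only [h1]
  have hb : |u| ≤ 7 / 100 := by
    rw [abs_of_nonneg (by linarith only [h1])]
    linarith only [h2]
  have hN' : |N| ≤ 11 / 125 := by
    rw [abs_of_nonneg hN0]
    exact hN
  have hH' : |H| ≤ 9 / 100 := by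
    rw [abs_le]
    constructor <;> linarith
  refine pc (A := 0) (B := 7 / 100) (E := 232 / 125) (Cn := 723 / 625) (Sn := 727 / 1250)
    (Cb := 5821 / 5000) (c1 := 1131 / 1250) (c2 := 1) (γ := 2 * (2981 / 5000 * (727 / 1250) * (2129 / 5000) * (9824 / 10000)))
    (by norm_num) (by norm_num) ha hb (ex_up (by norm_num) (by norm_num) (by norm_num))
    (by norm_num) (cz_090 hH') (cz_088 hN') (by norm_num) cl_070 (by norm_num) cu_000
    (gamB (cz_090 hH') (cz_088 hN') (by norm_num) (by norm_num) (by norm_num) (by norm_num)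
      su_070 hb (by norm_num)) ?_ ?_ ?_ ?_ <;> (unfold ft; norm_num)

theorem p3_5 {H N u : ℝ} (hN0 : 0 ≤ N) (hN : N ≤ 11 / 125) (hH0 : -(9 / 100) ≤ H) (hH1 : H ≤ 0)
    (h1 : 7 / 100 < u) (h2 : u < 13 / 100) : 1289 / 5000 ≤ sg H N u := by
  have ha : 7 / 100 ≤ |u| := by
    rw [abs_of_nonneg (by linarith only [h1])]
    linarith only [h1]
  have hb : |u| ≤ 13 / 100 := by
    rw [abs_of_nonneg (by linarith only [h1])]
    linarith only [h2]
  have hN' : |N| ≤ 11 / 125 := by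
    rw [abs_of_nonneg hN0]
    exact hN
  have hH' : |H| ≤ 9 / 100 := by
    rw [abs_le]
    constructor <;> linarith
  refine pc (A := 7 / 100) (B := 13 / 100) (E := 67 / 40) (Cn := 723 / 625) (Sn := 727 / 1250)
    (Cb := 5821 / 5000) (c1 := 1369 / 2000) (c2 := 9049 / 10000) (γ := 2 * (2981 / 5000 * (727 / 1250) * (729 / 1000) * (9824 / 10000)))
    (by norm_num) (by norm_num) ha hb (ex_up (by norm_num) (by norm_num) (by norm_num))
    (by norm_num) (cz_090 hH') (cz_088 hN') (by norm_num) cl_130 (by norm_num) cu_070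
    (gamB (cz_090 hH') (cz_088 hN') (by norm_num) (by norm_num) (by norm_num) (by norm_num)
      su_130 hb (by norm_num)) ?_ ?_ ?_ ?_ <;> (unfold ft; norm_num)

theorem bx3 {X N T H t : ℝ} (h : RG X N T H) (hN0 : 0 ≤ N) (hN : N ≤ 11 / 125)
    (hH0 : -(9 / 100) ≤ H) (hH1 : H ≤ 0)
    (hL : 2 * Lg H (1 / 2 - T) - Lg (H - N) (T - X) - Lg (H + N) (T + X) ≤ 19 / 50)
    (ht0 : -(1 / 4) ≤ t) (ht1 : t ≤ 13 / 100) : 0 < Fl X N T H t (7 / 25) := by
  have s5 : 99 / 5000 ≤ Fl X N T H (13 / 100) (7 / 25) := le_trans (by norm_num) (Fl_13 h)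
  have e5 : ∀ t, 7 / 100 ≤ t → t ≤ 13 / 100 →
      99 / 5000 + (13 / 100 - t) * (1289 / 5000 - 19 / 50) ≤ Fl X N T H t (7 / 25) := fun t a b =>
    step s5 hL (fun u c d => p3_5 hN0 hN hH0 hH1 c d) a b
  have s4 : 623 / 50000 ≤ Fl X N T H (7 / 100) (7 / 25) :=
    le_trans (by norm_num) (e5 (7 / 100) le_rfl (by norm_num))
  have e4 : ∀ t, 0 ≤ t → t ≤ 7 / 100 →
      623 / 50000 + (7 / 100 - t) * (3091 / 10000 - 19 / 50) ≤ Fl X N T H t (7 / 25) := fun t a b =>
    step s4 hL (fun u c d => p3_4 hN0 hN hH0 hH1 c d) a b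
  have s3 : 749 / 100000 ≤ Fl X N T H (0) (7 / 25) :=
    le_trans (by norm_num) (e4 (0) le_rfl (by norm_num))
  have e3 : ∀ t, -(1 / 10) ≤ t → t ≤ 0 →
      749 / 100000 + (0 - t) * (1851 / 5000 - 19 / 50) ≤ Fl X N T H t (7 / 25) := fun t a b =>
    step s3 hL (fun u c d => p3_3 hN0 hN hH0 hH1 c d) a b
  have s2 : 651 / 100000 ≤ Fl X N T H (-(1 / 10)) (7 / 25) :=
    le_trans (by norm_num) (e3 (-(1 / 10)) le_rfl (by norm_num))
  have e2 : ∀ t, -(3 / 20) ≤ t → t ≤ -(1 / 10) →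
      651 / 100000 + (-(1 / 10) - t) * (97 / 250 - 19 / 50) ≤ Fl X N T H t (7 / 25) := fun t a b =>
    step s2 hL (fun u c d => p3_2 hN0 hN hH0 hH1 c d) a b
  have s1 : 691 / 100000 ≤ Fl X N T H (-(3 / 20)) (7 / 25) :=
    le_trans (by norm_num) (e2 (-(3 / 20)) le_rfl (by norm_num))
  have e1 : ∀ t, -(1 / 5) ≤ t → t ≤ -(3 / 20) →
      691 / 100000 + (-(3 / 20) - t) * (3973 / 10000 - 19 / 50) ≤ Fl X N T H t (7 / 25) := fun t a b =>
    step s1 hL (fun u c d => p3_1 hN0 hN hH0 hH1 c d) a b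
  have s0 : 777 / 100000 ≤ Fl X N T H (-(1 / 5)) (7 / 25) :=
    le_trans (by norm_num) (e1 (-(1 / 5)) le_rfl (by norm_num))
  have e0 : ∀ t, -(1 / 4) ≤ t → t ≤ -(1 / 5) →
      777 / 100000 + (-(1 / 5) - t) * (3099 / 10000 - 19 / 50) ≤ Fl X N T H t (7 / 25) := fun t a b =>
    step s0 hL (fun u c d => p3_0 hN0 hN hH0 hH1 c d) a b
  rcases le_total t 0 with a | a
  · rcases le_total t (-(1 / 10)) with b | b
    · rcases le_total t (-(3 / 20)) with c | c
      · rcases le_total t (-(1 / 5)) with d | d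
        · linarith only [e0 t ht0 d, ht0]
        · linarith only [e1 t d c, ht1]
      · linarith only [e2 t c b, ht1]
    · linarith only [e3 t b a, b]
  · rcases le_total t (7 / 100) with b | b
    · linarith only [e4 t a b, a]
    · linarith only [e5 t b ht1, b]

end Pool.Agent.S5.VB
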