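import Pool.Agent.S5.I.VB7a

/-!
# `Re v = 7/25`: `Im y ≥ 0`
-/

set_option autoImplicit false

namespace Pool.Agent.S5.VB

open Pool.Agent.H63.VC3 Pool.Agent.S3 Pool.Agent.S5 MeasureTheory Filter Topology Set

theorem p4_0 {H N u : ℝ} (hN0 : 0 ≤ N) (hN : N ≤ 11 / 125) (hH0 : 0 ≤ H) (hH1 : H ≤ 1 / 25)
    (h1 : -(1 / 4) < u) (h2 : u < -(1 / 5)) : 379 / 2000 ≤ sg H N u := by
  have ha : 1 / 5 ≤ |u| := by
    rw [abs_of_nonpos (by linarith)]
    linarith
  have hb : |u| ≤ 1 / 4 := by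
    rw [abs_of_nonpos (by linarith)]
    linarith
  have hN' : |N| ≤ 11 / 125 := by
    rw [abs_of_nonneg hN0]
    exact hN
  have hH' : |H| ≤ 1 / 25 := by
    rw [abs_le]
    constructor <;> linarith
  refine pc (A := 1 / 5) (B := 1 / 4) (E := 1461 / 1000) (Cn := 723 / 625) (Sn := 727 / 1250)
    (Cb := 5159 / 5000) (c1 := 0) (c2 := 3091 / 10000) (γ := 2 * (1271 / 5000 * (727 / 1250) * (1) * (9824 / 10000)))
    (by norm_num) (by norm_num) ha hb (ex_up (by norm_num) (by norm_num) (by norm_num))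
    (by norm_num) (cz_040 hH') (cz_088 hN') (by norm_num) cl_250 (by norm_num) cu_200
    (gamB (cz_040 hH') (cz_088 hN') (by norm_num) (by norm_num) (by norm_num) (by norm_num)
      su_250 hb (by norm_num)) ?_ ?_ ?_ ?_ <;> (unfold ft; norm_num)

theorem p4_1 {H N u : ℝ} (hN0 : 0 ≤ N) (hN : N ≤ 11 / 125) (hH0 : 0 ≤ H) (hH1 : H ≤ 1 / 25)
    (h1 : -(1 / 5) < u) (h2 : u < -(3 / 20)) : 1599 / 5000 ≤ sg H N u := by
  have ha : 3 / 20 ≤ |u| := by
    rw [abs_of_nonpos (by linarith)]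
    linarith
  have hb : |u| ≤ 1 / 5 := by
    rw [abs_of_nonpos (by linarith)]
    linarith
  have hN' : |N| ≤ 11 / 125 := by
    rw [abs_of_nonneg hN0]
    exact hN
  have hH' : |H| ≤ 1 / 25 := by
    rw [abs_le]
    constructor <;> linarith
  refine pc (A := 3 / 20) (B := 1 / 5) (E := 237 / 125) (Cn := 723 / 625) (Sn := 727 / 1250)
    (Cb := 5159 / 5000) (c1 := 193 / 625) (c2 := 2939 / 5000) (γ := 2 * (1271 / 5000 * (727 / 1250) * (9511 / 10000) * (9824 / 10000)))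
    (by norm_num) (by norm_num) ha hb (ex_up (by norm_num) (by norm_num) (by norm_num))
    (by norm_num) (cz_040 hH') (cz_088 hN') (by norm_num) cl_200 (by norm_num) cu_150
    (gamB (cz_040 hH') (cz_088 hN') (by norm_num) (by norm_num) (by norm_num) (by norm_num)
      su_200 hb (by norm_num)) ?_ ?_ ?_ ?_ <;> (unfold ft; norm_num)

theorem p4_2 {H N u : ℝ} (hN0 : 0 ≤ N) (hN : N ≤ 11 / 125) (hH0 : 0 ≤ H) (hH1 : H ≤ 1 / 25)
    (h1 : -(3 / 20) < u) (h2 : u < -(1 / 10)) : 1739 / 5000 ≤ sg H N u := by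
  have ha : 1 / 10 ≤ |u| := by
    rw [abs_of_nonpos (by linarith)]
    linarith
  have hb : |u| ≤ 3 / 20 := by
    rw [abs_of_nonpos (by linarith)]
    linarith
  have hN' : |N| ≤ 11 / 125 := by
    rw [abs_of_nonneg hN0]
    exact hN
  have hH' : |H| ≤ 1 / 25 := by
    rw [abs_le]
    constructor <;> linarith
  refine pc (A := 1 / 10) (B := 3 / 20) (E := 401 / 200) (Cn := 723 / 625) (Sn := 727 / 1250)
    (Cb := 5159 / 5000) (c1 := 5877 / 10000) (c2 := 8091 / 10000) (γ := 2 * (1271 / 5000 * (727 / 1250) * (8091 / 10000) * (9824 / 10000)))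
    (by norm_num) (by norm_num) ha hb (ex_up (by norm_num) (by norm_num) (by norm_num))
    (by norm_num) (cz_040 hH') (cz_088 hN') (by norm_num) cl_150 (by norm_num) cu_100
    (gamB (cz_040 hH') (cz_088 hN') (by norm_num) (by norm_num) (by norm_num) (by norm_num)
      su_150 hb (by norm_num)) ?_ ?_ ?_ ?_ <;> (unfold ft; norm_num)

theorem p4_3 {H N u : ℝ} (hN0 : 0 ≤ N) (hN : N ≤ 11 / 125) (hH0 : 0 ≤ H) (hH1 : H ≤ 1 / 25)
    (h1 : -(1 / 10) < u) (h2 : u < 0) : 3483 / 10000 ≤ sg H N u := by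
  have ha : 0 ≤ |u| := by
    rw [abs_of_nonpos (by linarith)]
    linarith
  have hb : |u| ≤ 1 / 10 := by
    rw [abs_of_nonpos (by linarith)]
    linarith
  have hN' : |N| ≤ 11 / 125 := by
    rw [abs_of_nonneg hN0]
    exact hN
  have hH' : |H| ≤ 1 / 25 := by
    rw [abs_le]
    constructor <;> linarith
  refine pc (A := 0) (B := 1 / 10) (E := 2007 / 1000) (Cn := 723 / 625) (Sn := 727 / 1250)
    (Cb := 5159 / 5000) (c1 := 809 / 1000) (c2 := 1) (γ := 2 * (1271 / 5000 * (727 / 1250) * (2939 / 5000) * (9824 / 10000)))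
    (by norm_num) (by norm_num) ha hb (ex_up (by norm_num) (by norm_num) (by norm_num))
    (by norm_num) (cz_040 hH') (cz_088 hN') (by norm_num) cl_100 (by norm_num) cu_000
    (gamB (cz_040 hH') (cz_088 hN') (by norm_num) (by norm_num) (by norm_num) (by norm_num)
      su_100 hb (by norm_num)) ?_ ?_ ?_ ?_ <;> (unfold ft; norm_num)

theorem p4_4 {H N u : ℝ} (hN0 : 0 ≤ N) (hN : N ≤ 11 / 125) (hH0 : 0 ≤ H) (hH1 : H ≤ 1 / 25)
    (h1 : 0 < u) (h2 : u < 7 / 100) : 3917 / 10000 ≤ sg H N u := by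
  have ha : 0 ≤ |u| := by
    rw [abs_of_nonneg (by linarith)]
    linarith
  have hb : |u| ≤ 7 / 100 := by
    rw [abs_of_nonneg (by linarith)]
    linarith
  have hN' : |N| ≤ 11 / 125 := by
    rw [abs_of_nonneg hN0]
    exact hN
  have hH' : |H| ≤ 1 / 25 := by
    rw [abs_le]
    constructor <;> linarith
  refine pc (A := 0) (B := 7 / 100) (E := 2189 / 1000) (Cn := 723 / 625) (Sn := 727 / 1250)
    (Cb := 5159 / 5000) (c1 := 1131 / 1250) (c2 := 1) (γ := 0)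
    (by norm_num) (by norm_num) ha hb (ex_up (by norm_num) (by norm_num) (by norm_num))
    (by norm_num) (cz_040 hH') (cz_088 hN') (by norm_num) cl_070 (by norm_num) cu_000
    (gam0 (by nlinarith) hN0 (by rw [abs_le]; constructor <;> linarith)) ?_ ?_ ?_ ?_ <;> (unfold ft; norm_num)

theorem p4_5 {H N u : ℝ} (hN0 : 0 ≤ N) (hN : N ≤ 11 / 125) (hH0 : 0 ≤ H) (hH1 : H ≤ 1 / 25)
    (h1 : 7 / 100 < u) (h2 : u < 13 / 100) : 4069 / 10000 ≤ sg H N u := by
  have ha : 7 / 100 ≤ |u| := by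
    rw [abs_of_nonneg (by linarith)]
    linarith
  have hb : |u| ≤ 13 / 100 := by
    rw [abs_of_nonneg (by linarith)]
    linarith
  have hN' : |N| ≤ 11 / 125 := by
    rw [abs_of_nonneg hN0]
    exact hN
  have hH' : |H| ≤ 1 / 25 := by
    rw [abs_le]
    constructor <;> linarith
  refine pc (A := 7 / 100) (B := 13 / 100) (E := 2257 / 1000) (Cn := 723 / 625) (Sn := 727 / 1250)
    (Cb := 5159 / 5000) (c1 := 1369 / 2000) (c2 := 9049 / 10000) (γ := 0)
    (by norm_num) (by norm_num) ha hb (ex_up (by norm_num) (by norm_num) (by norm_num))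
    (by norm_num) (cz_040 hH') (cz_088 hN') (by norm_num) cl_130 (by norm_num) cu_070
    (gam0 (by nlinarith) hN0 (by rw [abs_le]; constructor <;> linarith)) ?_ ?_ ?_ ?_ <;> (unfold ft; norm_num)

theorem bx4 {X N T H t : ℝ} (h : RG X N T H) (hN0 : 0 ≤ N) (hN : N ≤ 11 / 125)
    (hH0 : 0 ≤ H) (hH1 : H ≤ 1 / 25)
    (hL : 2 * Lg H (1 / 2 - T) - Lg (H - N) (T - X) - Lg (H + N) (T + X) ≤ 19 / 50)
    (ht0 : -(1 / 4) ≤ t) (ht1 : t ≤ 13 / 100) : 0 < Fl X N T H t (7 / 25) := by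
  have s5 : 99 / 5000 ≤ Fl X N T H (13 / 100) (7 / 25) := le_trans (by norm_num) (Fl_13 h)
  have e5 : ∀ t, 7 / 100 ≤ t → t ≤ 13 / 100 →
      99 / 5000 + (13 / 100 - t) * (4069 / 10000 - 19 / 50) ≤ Fl X N T H t (7 / 25) := fun t a b =>
    step s5 hL (fun u c d => p4_5 hN0 hN hH0 hH1 c d) a b
  have s4 : 2141 / 100000 ≤ Fl X N T H (7 / 100) (7 / 25) :=
    le_trans (by norm_num) (e5 (7 / 100) le_rfl (by norm_num))
  have e4 : ∀ t, 0 ≤ t → t ≤ 7 / 100 →
      2141 / 100000 + (7 / 100 - t) * (3917 / 10000 - 19 / 50) ≤ Fl X N T H t (7 / 25) := fun t a b =>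
    step s4 hL (fun u c d => p4_4 hN0 hN hH0 hH1 c d) a b
  have s3 : 1111 / 50000 ≤ Fl X N T H (0) (7 / 25) :=
    le_trans (by norm_num) (e4 (0) le_rfl (by norm_num))
  have e3 : ∀ t, -(1 / 10) ≤ t → t ≤ 0 →
      1111 / 50000 + (0 - t) * (3483 / 10000 - 19 / 50) ≤ Fl X N T H t (7 / 25) := fun t a b =>
    step s3 hL (fun u c d => p4_3 hN0 hN hH0 hH1 c d) a b
  have s2 : 381 / 20000 ≤ Fl X N T H (-(1 / 10)) (7 / 25) :=
    le_trans (by norm_num) (e3 (-(1 / 10)) le_rfl (by norm_num))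
  have e2 : ∀ t, -(3 / 20) ≤ t → t ≤ -(1 / 10) →
      381 / 20000 + (-(1 / 10) - t) * (1739 / 5000 - 19 / 50) ≤ Fl X N T H t (7 / 25) := fun t a b =>
    step s2 hL (fun u c d => p4_2 hN0 hN hH0 hH1 c d) a b
  have s1 : 109 / 6250 ≤ Fl X N T H (-(3 / 20)) (7 / 25) :=
    le_trans (by norm_num) (e2 (-(3 / 20)) le_rfl (by norm_num))
  have e1 : ∀ t, -(1 / 5) ≤ t → t ≤ -(3 / 20) →
      109 / 6250 + (-(3 / 20) - t) * (1599 / 5000 - 19 / 50) ≤ Fl X N T H t (7 / 25) := fun t a b =>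
    step s1 hL (fun u c d => p4_1 hN0 hN hH0 hH1 c d) a b
  have s0 : 1443 / 100000 ≤ Fl X N T H (-(1 / 5)) (7 / 25) :=
    le_trans (by norm_num) (e1 (-(1 / 5)) le_rfl (by norm_num))
  have e0 : ∀ t, -(1 / 4) ≤ t → t ≤ -(1 / 5) →
      1443 / 100000 + (-(1 / 5) - t) * (379 / 2000 - 19 / 50) ≤ Fl X N T H t (7 / 25) := fun t a b =>
    step s0 hL (fun u c d => p4_0 hN0 hN hH0 hH1 c d) a b
  rcases le_total t 0 with a | a
  · rcases le_total t (-(1 / 10)) with b | b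
    · rcases le_total t (-(3 / 20)) with c | c
      · rcases le_total t (-(1 / 5)) with d | d
        · linarith [e0 t ht0 d]
        · linarith [e1 t d c]
      · linarith [e2 t c b]
    · linarith [e3 t b a]
  · rcases le_total t (7 / 100) with b | b
    · linarith [e4 t a b]
    · linarith [e5 t b ht1]

theorem p5_0 {H N u : ℝ} (hN0 : 0 ≤ N) (hN : N ≤ 7 / 100) (hH0 : 0 ≤ H) (hH1 : H ≤ 3 / 50)
    (h1 : -(1 / 4) < u) (h2 : u < -(1 / 5)) : 2229 / 10000 ≤ sg H N u := by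
  have ha : 1 / 5 ≤ |u| := by
    rw [abs_of_nonpos (by linarith)]
    linarith
  have hb : |u| ≤ 1 / 4 := by
    rw [abs_of_nonpos (by linarith)]
    linarith
  have hN' : |N| ≤ 7 / 100 := by
    rw [abs_of_nonneg hN0]
    exact hN
  have hH' : |H| ≤ 3 / 50 := by
    rw [abs_le]
    constructor <;> linarith
  refine pc (A := 1 / 5) (B := 1 / 4) (E := 781 / 500) (Cn := 10983 / 10000) (Sn := 2271 / 5000)
    (Cb := 134 / 125) (c1 := 0) (c2 := 3091 / 10000) (γ := 2 * (3863 / 10000 * (2271 / 5000) * (1) * (9824 / 10000)))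
    (by norm_num) (by norm_num) ha hb (ex_up (by norm_num) (by norm_num) (by norm_num))
    (by norm_num) (cz_060 hH') (cz_070 hN') (by norm_num) cl_250 (by norm_num) cu_200
    (gamB (cz_060 hH') (cz_070 hN') (by norm_num) (by norm_num) (by norm_num) (by norm_num)
      su_250 hb (by norm_num)) ?_ ?_ ?_ ?_ <;> (unfold ft; norm_num)

theorem p5_1 {H N u : ℝ} (hN0 : 0 ≤ N) (hN : N ≤ 7 / 100) (hH0 : 0 ≤ H) (hH1 : H ≤ 3 / 50)
    (h1 : -(1 / 5) < u) (h2 : u < -(3 / 20)) : 87 / 250 ≤ sg H N u := by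
  have ha : 3 / 20 ≤ |u| := by
    rw [abs_of_nonpos (by linarith)]
    linarith
  have hb : |u| ≤ 1 / 5 := by
    rw [abs_of_nonpos (by linarith)]
    linarith
  have hN' : |N| ≤ 7 / 100 := by
    rw [abs_of_nonneg hN0]
    exact hN
  have hH' : |H| ≤ 3 / 50 := by
    rw [abs_le]
    constructor <;> linarith
  refine pc (A := 3 / 20) (B := 1 / 5) (E := 1003 / 500) (Cn := 10983 / 10000) (Sn := 2271 / 5000)
    (Cb := 134 / 125) (c1 := 193 / 625) (c2 := 2939 / 5000) (γ := 2 * (3863 / 10000 * (2271 / 5000) * (9511 / 10000) * (9824 / 10000)))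
    (by norm_num) (by norm_num) ha hb (ex_up (by norm_num) (by norm_num) (by norm_num))
    (by norm_num) (cz_060 hH') (cz_070 hN') (by norm_num) cl_200 (by norm_num) cu_150
    (gamB (cz_060 hH') (cz_070 hN') (by norm_num) (by norm_num) (by norm_num) (by norm_num)
      su_200 hb (by norm_num)) ?_ ?_ ?_ ?_ <;> (unfold ft; norm_num)

theorem p5_2 {H N u : ℝ} (hN0 : 0 ≤ N) (hN : N ≤ 7 / 100) (hH0 : 0 ≤ H) (hH1 : H ≤ 3 / 50)
    (h1 : -(3 / 20) < u) (h2 : u < -(1 / 10)) : 3719 / 10000 ≤ sg H N u := by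
  have ha : 1 / 10 ≤ |u| := by
    rw [abs_of_nonpos (by linarith)]
    linarith
  have hb : |u| ≤ 3 / 20 := by
    rw [abs_of_nonpos (by linarith)]
    linarith
  have hN' : |N| ≤ 7 / 100 := by
    rw [abs_of_nonneg hN0]
    exact hN
  have hH' : |H| ≤ 3 / 50 := by
    rw [abs_le]
    constructor <;> linarith
  refine pc (A := 1 / 10) (B := 3 / 20) (E := 263 / 125) (Cn := 10983 / 10000) (Sn := 2271 / 5000)
    (Cb := 134 / 125) (c1 := 5877 / 10000) (c2 := 8091 / 10000) (γ := 2 * (3863 / 10000 * (2271 / 5000) * (8091 / 10000) * (9824 / 10000)))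
    (by norm_num) (by norm_num) ha hb (ex_up (by norm_num) (by norm_num) (by norm_num))
    (by norm_num) (cz_060 hH') (cz_070 hN') (by norm_num) cl_150 (by norm_num) cu_100
    (gamB (cz_060 hH') (cz_070 hN') (by norm_num) (by norm_num) (by norm_num) (by norm_num)
      su_150 hb (by norm_num)) ?_ ?_ ?_ ?_ <;> (unfold ft; norm_num)

theorem p5_3 {H N u : ℝ} (hN0 : 0 ≤ N) (hN : N ≤ 7 / 100) (hH0 : 0 ≤ H) (hH1 : H ≤ 3 / 50)
    (h1 : -(1 / 10) < u) (h2 : u < 0) : 3733 / 10000 ≤ sg H N u := by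
  have ha : 0 ≤ |u| := by
    rw [abs_of_nonpos (by linarith)]
    linarith
  have hb : |u| ≤ 1 / 10 := by
    rw [abs_of_nonpos (by linarith)]
    linarith
  have hN' : |N| ≤ 7 / 100 := by
    rw [abs_of_nonneg hN0]
    exact hN
  have hH' : |H| ≤ 3 / 50 := by
    rw [abs_le]
    constructor <;> linarith
  refine pc (A := 0) (B := 1 / 10) (E := 211 / 100) (Cn := 10983 / 10000) (Sn := 2271 / 5000)
    (Cb := 134 / 125) (c1 := 809 / 1000) (c2 := 1) (γ := 2 * (3863 / 10000 * (2271 / 5000) * (2939 / 5000) * (9824 / 10000)))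
    (by norm_num) (by norm_num) ha hb (ex_up (by norm_num) (by norm_num) (by norm_num))
    (by norm_num) (cz_060 hH') (cz_070 hN') (by norm_num) cl_100 (by norm_num) cu_000
    (gamB (cz_060 hH') (cz_070 hN') (by norm_num) (by norm_num) (by norm_num) (by norm_num)
      su_100 hb (by norm_num)) ?_ ?_ ?_ ?_ <;> (unfold ft; norm_num)

theorem p5_4 {H N u : ℝ} (hN0 : 0 ≤ N) (hN : N ≤ 7 / 100) (hH0 : 0 ≤ H) (hH1 : H ≤ 3 / 50)
    (h1 : 0 < u) (h2 : u < 7 / 100) : 266 / 625 ≤ sg H N u := by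
  have ha : 0 ≤ |u| := by
    rw [abs_of_nonneg (by linarith)]
    linarith
  have hb : |u| ≤ 7 / 100 := by
    rw [abs_of_nonneg (by linarith)]
    linarith
  have hN' : |N| ≤ 7 / 100 := by
    rw [abs_of_nonneg hN0]
    exact hN
  have hH' : |H| ≤ 3 / 50 := by
    rw [abs_le]
    constructor <;> linarith
  refine pc (A := 0) (B := 7 / 100) (E := 2343 / 1000) (Cn := 10983 / 10000) (Sn := 2271 / 5000)
    (Cb := 134 / 125) (c1 := 1131 / 1250) (c2 := 1) (γ := 0)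
    (by norm_num) (by norm_num) ha hb (ex_up (by norm_num) (by norm_num) (by norm_num))
    (by norm_num) (cz_060 hH') (cz_070 hN') (by norm_num) cl_070 (by norm_num) cu_000
    (gam0 (by nlinarith) hN0 (by rw [abs_le]; constructor <;> linarith)) ?_ ?_ ?_ ?_ <;> (unfold ft; norm_num)

theorem p5_5 {H N u : ℝ} (hN0 : 0 ≤ N) (hN : N ≤ 7 / 100) (hH0 : 0 ≤ H) (hH1 : H ≤ 3 / 50)
    (h1 : 7 / 100 < u) (h2 : u < 13 / 100) : 4437 / 10000 ≤ sg H N u := by
  have ha : 7 / 100 ≤ |u| := by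
    rw [abs_of_nonneg (by linarith)]
    linarith
  have hb : |u| ≤ 13 / 100 := by
    rw [abs_of_nonneg (by linarith)]
    linarith
  have hN' : |N| ≤ 7 / 100 := by
    rw [abs_of_nonneg hN0]
    exact hN
  have hH' : |H| ≤ 3 / 50 := by
    rw [abs_le]
    constructor <;> linarith
  refine pc (A := 7 / 100) (B := 13 / 100) (E := 2429 / 1000) (Cn := 10983 / 10000) (Sn := 2271 / 5000)
    (Cb := 134 / 125) (c1 := 1369 / 2000) (c2 := 9049 / 10000) (γ := 0)
    (by norm_num) (by norm_num) ha hb (ex_up (by norm_num) (by norm_num) (by norm_num))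
    (by norm_num) (cz_060 hH') (cz_070 hN') (by norm_num) cl_130 (by norm_num) cu_070
    (gam0 (by nlinarith) hN0 (by rw [abs_le]; constructor <;> linarith)) ?_ ?_ ?_ ?_ <;> (unfold ft; norm_num)

theorem bx5 {X N T H t : ℝ} (h : RG X N T H) (hN0 : 0 ≤ N) (hN : N ≤ 7 / 100)
    (hH0 : 0 ≤ H) (hH1 : H ≤ 3 / 50)
    (hL : 2 * Lg H (1 / 2 - T) - Lg (H - N) (T - X) - Lg (H + N) (T + X) ≤ 19 / 50)
    (ht0 : -(1 / 4) ≤ t) (ht1 : t ≤ 13 / 100) : 0 < Fl X N T H t (7 / 25) := by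
  have s5 : 99 / 5000 ≤ Fl X N T H (13 / 100) (7 / 25) := le_trans (by norm_num) (Fl_13 h)
  have e5 : ∀ t, 7 / 100 ≤ t → t ≤ 13 / 100 →
      99 / 5000 + (13 / 100 - t) * (4437 / 10000 - 19 / 50) ≤ Fl X N T H t (7 / 25) := fun t a b =>
    step s5 hL (fun u c d => p5_5 hN0 hN hH0 hH1 c d) a b
  have s4 : 1181 / 50000 ≤ Fl X N T H (7 / 100) (7 / 25) :=
    le_trans (by norm_num) (e5 (7 / 100) le_rfl (by norm_num))
  have e4 : ∀ t, 0 ≤ t → t ≤ 7 / 100 →
      1181 / 50000 + (7 / 100 - t) * (266 / 625 - 19 / 50) ≤ Fl X N T H t (7 / 25) := fun t a b =>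
    step s4 hL (fun u c d => p5_4 hN0 hN hH0 hH1 c d) a b
  have s3 : 2681 / 100000 ≤ Fl X N T H (0) (7 / 25) :=
    le_trans (by norm_num) (e4 (0) le_rfl (by norm_num))
  have e3 : ∀ t, -(1 / 10) ≤ t → t ≤ 0 →
      2681 / 100000 + (0 - t) * (3733 / 10000 - 19 / 50) ≤ Fl X N T H t (7 / 25) := fun t a b =>
    step s3 hL (fun u c d => p5_3 hN0 hN hH0 hH1 c d) a b
  have s2 : 1307 / 50000 ≤ Fl X N T H (-(1 / 10)) (7 / 25) :=
    le_trans (by norm_num) (e3 (-(1 / 10)) le_rfl (by norm_num))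
  have e2 : ∀ t, -(3 / 20) ≤ t → t ≤ -(1 / 10) →
      1307 / 50000 + (-(1 / 10) - t) * (3719 / 10000 - 19 / 50) ≤ Fl X N T H t (7 / 25) := fun t a b =>
    step s2 hL (fun u c d => p5_2 hN0 hN hH0 hH1 c d) a b
  have s1 : 2573 / 100000 ≤ Fl X N T H (-(3 / 20)) (7 / 25) :=
    le_trans (by norm_num) (e2 (-(3 / 20)) le_rfl (by norm_num))
  have e1 : ∀ t, -(1 / 5) ≤ t → t ≤ -(3 / 20) →
      2573 / 100000 + (-(3 / 20) - t) * (87 / 250 - 19 / 50) ≤ Fl X N T H t (7 / 25) := fun t a b =>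
    step s1 hL (fun u c d => p5_1 hN0 hN hH0 hH1 c d) a b
  have s0 : 2413 / 100000 ≤ Fl X N T H (-(1 / 5)) (7 / 25) :=
    le_trans (by norm_num) (e1 (-(1 / 5)) le_rfl (by norm_num))
  have e0 : ∀ t, -(1 / 4) ≤ t → t ≤ -(1 / 5) →
      2413 / 100000 + (-(1 / 5) - t) * (2229 / 10000 - 19 / 50) ≤ Fl X N T H t (7 / 25) := fun t a b =>
    step s0 hL (fun u c d => p5_0 hN0 hN hH0 hH1 c d) a b
  rcases le_total t 0 with a | a
  · rcases le_total t (-(1 / 10)) with b | b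
    · rcases le_total t (-(3 / 20)) with c | c
      · rcases le_total t (-(1 / 5)) with d | d
        · linarith [e0 t ht0 d]
        · linarith [e1 t d c]
      · linarith [e2 t c b]
    · linarith [e3 t b a]
  · rcases le_total t (7 / 100) with b | b
    · linarith [e4 t a b]
    · linarith [e5 t b ht1]

theorem p6_0 {H N u : ℝ} (hN0 : 0 ≤ N) (hN : N ≤ 11 / 125) (hH0 : 0 ≤ H) (hH1 : H ≤ 3 / 50)
    (h1 : -(1 / 4) < u) (h2 : u < -(1 / 5)) : 877 / 10000 ≤ sg H N u := by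
  have ha : 1 / 5 ≤ |u| := by
    rw [abs_of_nonpos (by linarith)]
    linarith
  have hb : |u| ≤ 1 / 4 := by
    rw [abs_of_nonpos (by linarith)]
    linarith
  have hN' : |N| ≤ 11 / 125 := by
    rw [abs_of_nonneg hN0]
    exact hN
  have hH' : |H| ≤ 3 / 50 := by
    rw [abs_le]
    constructor <;> linarith
  refine pc (A := 1 / 5) (B := 1 / 4) (E := 149 / 125) (Cn := 723 / 625) (Sn := 727 / 1250)
    (Cb := 134 / 125) (c1 := 0) (c2 := 3091 / 10000) (γ := 2 * (3863 / 10000 * (727 / 1250) * (1) * (9824 / 10000)))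
    (by norm_num) (by norm_num) ha hb (ex_up (by norm_num) (by norm_num) (by norm_num))
    (by norm_num) (cz_060 hH') (cz_088 hN') (by norm_num) cl_250 (by norm_num) cu_200
    (gamB (cz_060 hH') (cz_088 hN') (by norm_num) (by norm_num) (by norm_num) (by norm_num)
      su_250 hb (by norm_num)) ?_ ?_ ?_ ?_ <;> (unfold ft; norm_num)

theorem p6_1 {H N u : ℝ} (hN0 : 0 ≤ N) (hN : N ≤ 11 / 125) (hH0 : 0 ≤ H) (hH1 : H ≤ 3 / 50)
    (h1 : -(1 / 5) < u) (h2 : u < -(3 / 20)) : 2393 / 10000 ≤ sg H N u := by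
  have ha : 3 / 20 ≤ |u| := by
    rw [abs_of_nonpos (by linarith)]
    linarith
  have hb : |u| ≤ 1 / 5 := by
    rw [abs_of_nonpos (by linarith)]
    linarith
  have hN' : |N| ≤ 11 / 125 := by
    rw [abs_of_nonneg hN0]
    exact hN
  have hH' : |H| ≤ 3 / 50 := by
    rw [abs_le]
    constructor <;> linarith
  refine pc (A := 3 / 20) (B := 1 / 5) (E := 807 / 500) (Cn := 723 / 625) (Sn := 727 / 1250)
    (Cb := 134 / 125) (c1 := 193 / 625) (c2 := 2939 / 5000) (γ := 2 * (3863 / 10000 * (727 / 1250) * (9511 / 10000) * (9824 / 10000)))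
    (by norm_num) (by norm_num) ha hb (ex_up (by norm_num) (by norm_num) (by norm_num))
    (by norm_num) (cz_060 hH') (cz_088 hN') (by norm_num) cl_200 (by norm_num) cu_150
    (gamB (cz_060 hH') (cz_088 hN') (by norm_num) (by norm_num) (by norm_num) (by norm_num)
      su_200 hb (by norm_num)) ?_ ?_ ?_ ?_ <;> (unfold ft; norm_num)

theorem p6_2 {H N u : ℝ} (hN0 : 0 ≤ N) (hN : N ≤ 11 / 125) (hH0 : 0 ≤ H) (hH1 : H ≤ 3 / 50)
    (h1 : -(3 / 20) < u) (h2 : u < -(1 / 10)) : 3043 / 10000 ≤ sg H N u := by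
  have ha : 1 / 10 ≤ |u| := by
    rw [abs_of_nonpos (by linarith)]
    linarith
  have hb : |u| ≤ 3 / 20 := by
    rw [abs_of_nonpos (by linarith)]
    linarith
  have hN' : |N| ≤ 11 / 125 := by
    rw [abs_of_nonneg hN0]
    exact hN
  have hH' : |H| ≤ 3 / 50 := by
    rw [abs_le]
    constructor <;> linarith
  refine pc (A := 1 / 10) (B := 3 / 20) (E := 919 / 500) (Cn := 723 / 625) (Sn := 727 / 1250)
    (Cb := 134 / 125) (c1 := 5877 / 10000) (c2 := 8091 / 10000) (γ := 2 * (3863 / 10000 * (727 / 1250) * (8091 / 10000) * (9824 / 10000)))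
    (by norm_num) (by norm_num) ha hb (ex_up (by norm_num) (by norm_num) (by norm_num))
    (by norm_num) (cz_060 hH') (cz_088 hN') (by norm_num) cl_150 (by norm_num) cu_100
    (gamB (cz_060 hH') (cz_088 hN') (by norm_num) (by norm_num) (by norm_num) (by norm_num)
      su_150 hb (by norm_num)) ?_ ?_ ?_ ?_ <;> (unfold ft; norm_num)

theorem p6_3 {H N u : ℝ} (hN0 : 0 ≤ N) (hN : N ≤ 11 / 125) (hH0 : 0 ≤ H) (hH1 : H ≤ 3 / 50)
    (h1 : -(1 / 10) < u) (h2 : u < 0) : 647 / 2000 ≤ sg H N u := by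
  have ha : 0 ≤ |u| := by
    rw [abs_of_nonpos (by linarith)]
    linarith
  have hb : |u| ≤ 1 / 10 := by
    rw [abs_of_nonpos (by linarith)]
    linarith
  have hN' : |N| ≤ 11 / 125 := by
    rw [abs_of_nonneg hN0]
    exact hN
  have hH' : |H| ≤ 3 / 50 := by
    rw [abs_le]
    constructor <;> linarith
  refine pc (A := 0) (B := 1 / 10) (E := 191 / 100) (Cn := 723 / 625) (Sn := 727 / 1250)
    (Cb := 134 / 125) (c1 := 809 / 1000) (c2 := 1) (γ := 2 * (3863 / 10000 * (727 / 1250) * (2939 / 5000) * (9824 / 10000)))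
    (by norm_num) (by norm_num) ha hb (ex_up (by norm_num) (by norm_num) (by norm_num))
    (by norm_num) (cz_060 hH') (cz_088 hN') (by norm_num) cl_100 (by norm_num) cu_000
    (gamB (cz_060 hH') (cz_088 hN') (by norm_num) (by norm_num) (by norm_num) (by norm_num)
      su_100 hb (by norm_num)) ?_ ?_ ?_ ?_ <;> (unfold ft; norm_num)

theorem p6_4 {H N u : ℝ} (hN0 : 0 ≤ N) (hN : N ≤ 11 / 125) (hH0 : 0 ≤ H) (hH1 : H ≤ 3 / 50)
    (h1 : 0 < u) (h2 : u < 7 / 100) : 77 / 200 ≤ sg H N u := by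
  have ha : 0 ≤ |u| := by
    rw [abs_of_nonneg (by linarith)]
    linarith
  have hb : |u| ≤ 7 / 100 := by
    rw [abs_of_nonneg (by linarith)]
    linarith
  have hN' : |N| ≤ 11 / 125 := by
    rw [abs_of_nonneg hN0]
    exact hN
  have hH' : |H| ≤ 3 / 50 := by
    rw [abs_le]
    constructor <;> linarith
  refine pc (A := 0) (B := 7 / 100) (E := 54 / 25) (Cn := 723 / 625) (Sn := 727 / 1250)
    (Cb := 134 / 125) (c1 := 1131 / 1250) (c2 := 1) (γ := 0)
    (by norm_num) (by norm_num) ha hb (ex_up (by norm_num) (by norm_num) (by norm_num))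
    (by norm_num) (cz_060 hH') (cz_088 hN') (by norm_num) cl_070 (by norm_num) cu_000
    (gam0 (by nlinarith) hN0 (by rw [abs_le]; constructor <;> linarith)) ?_ ?_ ?_ ?_ <;> (unfold ft; norm_num)

theorem p6_5 {H N u : ℝ} (hN0 : 0 ≤ N) (hN : N ≤ 11 / 125) (hH0 : 0 ≤ H) (hH1 : H ≤ 3 / 50)
    (h1 : 7 / 100 < u) (h2 : u < 13 / 100) : 1991 / 5000 ≤ sg H N u := by
  have ha : 7 / 100 ≤ |u| := by
    rw [abs_of_nonneg (by linarith)]
    linarith
  have hb : |u| ≤ 13 / 100 := by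
    rw [abs_of_nonneg (by linarith)]
    linarith
  have hN' : |N| ≤ 11 / 125 := by
    rw [abs_of_nonneg hN0]
    exact hN
  have hH' : |H| ≤ 3 / 50 := by
    rw [abs_le]
    constructor <;> linarith
  refine pc (A := 7 / 100) (B := 13 / 100) (E := 1109 / 500) (Cn := 723 / 625) (Sn := 727 / 1250)
    (Cb := 134 / 125) (c1 := 1369 / 2000) (c2 := 9049 / 10000) (γ := 0)
    (by norm_num) (by norm_num) ha hb (ex_up (by norm_num) (by norm_num) (by norm_num))
    (by norm_num) (cz_060 hH') (cz_088 hN') (by norm_num) cl_130 (by norm_num) cu_070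
    (gam0 (by nlinarith) hN0 (by rw [abs_le]; constructor <;> linarith)) ?_ ?_ ?_ ?_ <;> (unfold ft; norm_num)

theorem bx6 {X N T H t : ℝ} (h : RG X N T H) (hN0 : 0 ≤ N) (hN : N ≤ 11 / 125)
    (hH0 : 0 ≤ H) (hH1 : H ≤ 3 / 50)
    (hL : 2 * Lg H (1 / 2 - T) - Lg (H - N) (T - X) - Lg (H + N) (T + X) ≤ 7 / 20)
    (ht0 : -(1 / 4) ≤ t) (ht1 : t ≤ 13 / 100) : 0 < Fl X N T H t (7 / 25) := by
  have s5 : 99 / 5000 ≤ Fl X N T H (13 / 100) (7 / 25) := le_trans (by norm_num) (Fl_13 h)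
  have e5 : ∀ t, 7 / 100 ≤ t → t ≤ 13 / 100 →
      99 / 5000 + (13 / 100 - t) * (1991 / 5000 - 7 / 20) ≤ Fl X N T H t (7 / 25) := fun t a b =>
    step s5 hL (fun u c d => p6_5 hN0 hN hH0 hH1 c d) a b
  have s4 : 2269 / 100000 ≤ Fl X N T H (7 / 100) (7 / 25) :=
    le_trans (by norm_num) (e5 (7 / 100) le_rfl (by norm_num))
  have e4 : ∀ t, 0 ≤ t → t ≤ 7 / 100 →
      2269 / 100000 + (7 / 100 - t) * (77 / 200 - 7 / 20) ≤ Fl X N T H t (7 / 25) := fun t a b =>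
    step s4 hL (fun u c d => p6_4 hN0 hN hH0 hH1 c d) a b
  have s3 : 1257 / 50000 ≤ Fl X N T H (0) (7 / 25) :=
    le_trans (by norm_num) (e4 (0) le_rfl (by norm_num))
  have e3 : ∀ t, -(1 / 10) ≤ t → t ≤ 0 →
      1257 / 50000 + (0 - t) * (647 / 2000 - 7 / 20) ≤ Fl X N T H t (7 / 25) := fun t a b =>
    step s3 hL (fun u c d => p6_3 hN0 hN hH0 hH1 c d) a b
  have s2 : 2249 / 100000 ≤ Fl X N T H (-(1 / 10)) (7 / 25) :=
    le_trans (by norm_num) (e3 (-(1 / 10)) le_rfl (by norm_num))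
  have e2 : ∀ t, -(3 / 20) ≤ t → t ≤ -(1 / 10) →
      2249 / 100000 + (-(1 / 10) - t) * (3043 / 10000 - 7 / 20) ≤ Fl X N T H t (7 / 25) := fun t a b =>
    step s2 hL (fun u c d => p6_2 hN0 hN hH0 hH1 c d) a b
  have s1 : 101 / 5000 ≤ Fl X N T H (-(3 / 20)) (7 / 25) :=
    le_trans (by norm_num) (e2 (-(3 / 20)) le_rfl (by norm_num))
  have e1 : ∀ t, -(1 / 5) ≤ t → t ≤ -(3 / 20) →
      101 / 5000 + (-(3 / 20) - t) * (2393 / 10000 - 7 / 20) ≤ Fl X N T H t (7 / 25) := fun t a b =>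
    step s1 hL (fun u c d => p6_1 hN0 hN hH0 hH1 c d) a b
  have s0 : 733 / 50000 ≤ Fl X N T H (-(1 / 5)) (7 / 25) :=
    le_trans (by norm_num) (e1 (-(1 / 5)) le_rfl (by norm_num))
  have e0 : ∀ t, -(1 / 4) ≤ t → t ≤ -(1 / 5) →
      733 / 50000 + (-(1 / 5) - t) * (877 / 10000 - 7 / 20) ≤ Fl X N T H t (7 / 25) := fun t a b =>
    step s0 hL (fun u c d => p6_0 hN0 hN hH0 hH1 c d) a b
  rcases le_total t 0 with a | a
  · rcases le_total t (-(1 / 10)) with b | b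
    · rcases le_total t (-(3 / 20)) with c | c
      · rcases le_total t (-(1 / 5)) with d | d
        · linarith [e0 t ht0 d]
        · linarith [e1 t d c]
      · linarith [e2 t c b]
    · linarith [e3 t b a]
  · rcases le_total t (7 / 100) with b | b
    · linarith [e4 t a b]
    · linarith [e5 t b ht1]

end Pool.Agent.S5.VB
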