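import Pool.Agent.S5.I.VB7a

/-!
# `Re v = 7/25`: large `Im y ≥ 0`
-/

set_option autoImplicit false

namespace Pool.Agent.S5.VB

open Pool.Agent.H63.VC3 Pool.Agent.S3 Pool.Agent.S5 MeasureTheory Filter Topology Set

theorem p7_0 {H N u : ℝ} (hN0 : 0 ≤ N) (hN : N ≤ 1 / 20) (hH0 : 0 ≤ H) (hH1 : H ≤ 1 / 10)
    (h1 : -(1 / 4) < u) (h2 : u < -(1 / 5)) : 227 / 1250 ≤ sg H N u := by
  have ha : 1 / 5 ≤ |u| := by
    rw [abs_of_nonpos (by linarith only [h2])]
    linarith only [h2]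
  have hb : |u| ≤ 1 / 4 := by
    rw [abs_of_nonpos (by linarith only [h2])]
    linarith only [h1]
  have hN' : |N| ≤ 1 / 20 := by
    rw [abs_of_nonneg hN0]
    exact hN
  have hH' : |H| ≤ 1 / 10 := by
    rw [abs_le]
    constructor <;> linarith
  refine pc (A := 1 / 5) (B := 1 / 4) (E := 719 / 500) (Cn := 5249 / 5000) (Sn := 639 / 2000)
    (Cb := 301 / 250) (c1 := 0) (c2 := 3091 / 10000) (γ := 2 * (3353 / 5000 * (639 / 2000) * (1) * (9824 / 10000)))
    (by norm_num) (by norm_num) ha hb (ex_up (by norm_num) (by norm_num) (by norm_num))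
    (by norm_num) (cz_100 hH') (cz_050 hN') (by norm_num) cl_250 (by norm_num) cu_200
    (gamB (cz_100 hH') (cz_050 hN') (by norm_num) (by norm_num) (by norm_num) (by norm_num)
      su_250 hb (by norm_num)) ?_ ?_ ?_ ?_ <;> (unfold ft; norm_num)

theorem p7_1 {H N u : ℝ} (hN0 : 0 ≤ N) (hN : N ≤ 1 / 20) (hH0 : 0 ≤ H) (hH1 : H ≤ 1 / 10)
    (h1 : -(1 / 5) < u) (h2 : u < -(3 / 20)) : 777 / 2500 ≤ sg H N u := by
  have ha : 3 / 20 ≤ |u| := by
    rw [abs_of_nonpos (by linarith only [h2])]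
    linarith only [h2]
  have hb : |u| ≤ 1 / 5 := by
    rw [abs_of_nonpos (by linarith only [h2])]
    linarith only [h1]
  have hN' : |N| ≤ 1 / 20 := by
    rw [abs_of_nonneg hN0]
    exact hN
  have hH' : |H| ≤ 1 / 10 := by
    rw [abs_le]
    constructor <;> linarith
  refine pc (A := 3 / 20) (B := 1 / 5) (E := 931 / 500) (Cn := 5249 / 5000) (Sn := 639 / 2000)
    (Cb := 301 / 250) (c1 := 193 / 625) (c2 := 2939 / 5000) (γ := 2 * (3353 / 5000 * (639 / 2000) * (9511 / 10000) * (9824 / 10000)))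
    (by norm_num) (by norm_num) ha hb (ex_up (by norm_num) (by norm_num) (by norm_num))
    (by norm_num) (cz_100 hH') (cz_050 hN') (by norm_num) cl_200 (by norm_num) cu_150
    (gamB (cz_100 hH') (cz_050 hN') (by norm_num) (by norm_num) (by norm_num) (by norm_num)
      su_200 hb (by norm_num)) ?_ ?_ ?_ ?_ <;> (unfold ft; norm_num)

theorem p7_2 {H N u : ℝ} (hN0 : 0 ≤ N) (hN : N ≤ 1 / 20) (hH0 : 0 ≤ H) (hH1 : H ≤ 1 / 10)
    (h1 : -(3 / 20) < u) (h2 : u < -(1 / 10)) : 1809 / 5000 ≤ sg H N u := by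
  have ha : 1 / 10 ≤ |u| := by
    rw [abs_of_nonpos (by linarith only [h2])]
    linarith only [h2]
  have hb : |u| ≤ 3 / 20 := by
    rw [abs_of_nonpos (by linarith only [h2])]
    linarith only [h1]
  have hN' : |N| ≤ 1 / 20 := by
    rw [abs_of_nonneg hN0]
    exact hN
  have hH' : |H| ≤ 1 / 10 := by
    rw [abs_le]
    constructor <;> linarith
  refine pc (A := 1 / 10) (B := 3 / 20) (E := 1031 / 500) (Cn := 5249 / 5000) (Sn := 639 / 2000)
    (Cb := 301 / 250) (c1 := 5877 / 10000) (c2 := 8091 / 10000) (γ := 2 * (3353 / 5000 * (639 / 2000) * (8091 / 10000) * (9824 / 10000)))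
    (by norm_num) (by norm_num) ha hb (ex_up (by norm_num) (by norm_num) (by norm_num))
    (by norm_num) (cz_100 hH') (cz_050 hN') (by norm_num) cl_150 (by norm_num) cu_100
    (gamB (cz_100 hH') (cz_050 hN') (by norm_num) (by norm_num) (by norm_num) (by norm_num)
      su_150 hb (by norm_num)) ?_ ?_ ?_ ?_ <;> (unfold ft; norm_num)

theorem p7_3 {H N u : ℝ} (hN0 : 0 ≤ N) (hN : N ≤ 1 / 20) (hH0 : 0 ≤ H) (hH1 : H ≤ 1 / 10)
    (h1 : -(1 / 10) < u) (h2 : u < 0) : 3719 / 10000 ≤ sg H N u := by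
  have ha : 0 ≤ |u| := by
    rw [abs_of_nonpos (by linarith only [h2])]
    linarith only [h2]
  have hb : |u| ≤ 1 / 10 := by
    rw [abs_of_nonpos (by linarith only [h2])]
    linarith only [h1]
  have hN' : |N| ≤ 1 / 20 := by
    rw [abs_of_nonneg hN0]
    exact hN
  have hH' : |H| ≤ 1 / 10 := by
    rw [abs_le]
    constructor <;> linarith
  refine pc (A := 0) (B := 1 / 10) (E := 263 / 125) (Cn := 5249 / 5000) (Sn := 639 / 2000)
    (Cb := 301 / 250) (c1 := 809 / 1000) (c2 := 1) (γ := 2 * (3353 / 5000 * (639 / 2000) * (2939 / 5000) * (9824 / 10000)))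
    (by norm_num) (by norm_num) ha hb (ex_up (by norm_num) (by norm_num) (by norm_num))
    (by norm_num) (cz_100 hH') (cz_050 hN') (by norm_num) cl_100 (by norm_num) cu_000
    (gamB (cz_100 hH') (cz_050 hN') (by norm_num) (by norm_num) (by norm_num) (by norm_num)
      su_100 hb (by norm_num)) ?_ ?_ ?_ ?_ <;> (unfold ft; norm_num)

theorem p7_4 {H N u : ℝ} (hN0 : 0 ≤ N) (hN : N ≤ 1 / 20) (hH0 : 0 ≤ H) (hH1 : H ≤ 1 / 10)
    (h1 : 0 < u) (h2 : u < 7 / 100) : 2143 / 5000 ≤ sg H N u := by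
  have ha : 0 ≤ |u| := by
    rw [abs_of_nonneg (by linarith only [h1])]
    linarith only [h1]
  have hb : |u| ≤ 7 / 100 := by
    rw [abs_of_nonneg (by linarith only [h1])]
    linarith only [h2]
  have hN' : |N| ≤ 1 / 20 := by
    rw [abs_of_nonneg hN0]
    exact hN
  have hH' : |H| ≤ 1 / 10 := by
    rw [abs_le]
    constructor <;> linarith
  refine pc (A := 0) (B := 7 / 100) (E := 2357 / 1000) (Cn := 5249 / 5000) (Sn := 639 / 2000)
    (Cb := 301 / 250) (c1 := 1131 / 1250) (c2 := 1) (γ := 0)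
    (by norm_num) (by norm_num) ha hb (ex_up (by norm_num) (by norm_num) (by norm_num))
    (by norm_num) (cz_100 hH') (cz_050 hN') (by norm_num) cl_070 (by norm_num) cu_000
    (gam0 (by (refine le_of_not_gt fun hng => ?_; linarith only [mul_nonneg (sub_nonneg.2 hH0) (sub_nonneg.2 h1.le),
                mul_pos (sub_pos.2 hng) (sub_pos.2 h2), mul_pos (sub_pos.2 hng) (sub_pos.2 h1)])) hN0 (by rw [abs_le]; constructor <;> linarith)) ?_ ?_ ?_ ?_ <;> (unfold ft; norm_num)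

theorem p7_5 {H N u : ℝ} (hN0 : 0 ≤ N) (hN : N ≤ 1 / 20) (hH0 : 0 ≤ H) (hH1 : H ≤ 1 / 10)
    (h1 : 7 / 100 < u) (h2 : u < 13 / 100) : 2213 / 5000 ≤ sg H N u := by
  have ha : 7 / 100 ≤ |u| := by
    rw [abs_of_nonneg (by linarith only [h1])]
    linarith only [h1]
  have hb : |u| ≤ 13 / 100 := by
    rw [abs_of_nonneg (by linarith only [h1])]
    linarith only [h2]
  have hN' : |N| ≤ 1 / 20 := by
    rw [abs_of_nonneg hN0]
    exact hN
  have hH' : |H| ≤ 1 / 10 := by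
    rw [abs_le]
    constructor <;> linarith
  refine pc (A := 7 / 100) (B := 13 / 100) (E := 303 / 125) (Cn := 5249 / 5000) (Sn := 639 / 2000)
    (Cb := 301 / 250) (c1 := 1369 / 2000) (c2 := 9049 / 10000) (γ := 0)
    (by norm_num) (by norm_num) ha hb (ex_up (by norm_num) (by norm_num) (by norm_num))
    (by norm_num) (cz_100 hH') (cz_050 hN') (by norm_num) cl_130 (by norm_num) cu_070
    (gam0 (by linarith only [hH0, mul_nonneg (sub_nonneg.2 hH0) (sub_nonneg.2 h1.le)]) hN0 (by rw [abs_le]; constructor <;> linarith)) ?_ ?_ ?_ ?_ <;> (unfold ft; norm_num)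

theorem bx7 {X N T H t : ℝ} (h : RG X N T H) (hN0 : 0 ≤ N) (hN : N ≤ 1 / 20)
    (hH0 : 0 ≤ H) (hH1 : H ≤ 1 / 10)
    (hL : 2 * Lg H (1 / 2 - T) - Lg (H - N) (T - X) - Lg (H + N) (T + X) ≤ 19 / 50)
    (ht0 : -(1 / 4) ≤ t) (ht1 : t ≤ 13 / 100) : 0 < Fl X N T H t (7 / 25) := by
  have s5 : 99 / 5000 ≤ Fl X N T H (13 / 100) (7 / 25) := le_trans (by norm_num) (Fl_13 h)
  have e5 : ∀ t, 7 / 100 ≤ t → t ≤ 13 / 100 →
      99 / 5000 + (13 / 100 - t) * (2213 / 5000 - 19 / 50) ≤ Fl X N T H t (7 / 25) := fun t a b =>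
    step s5 hL (fun u c d => p7_5 hN0 hN hH0 hH1 c d) a b
  have s4 : 471 / 20000 ≤ Fl X N T H (7 / 100) (7 / 25) :=
    le_trans (by norm_num) (e5 (7 / 100) le_rfl (by norm_num))
  have e4 : ∀ t, 0 ≤ t → t ≤ 7 / 100 →
      471 / 20000 + (7 / 100 - t) * (2143 / 5000 - 19 / 50) ≤ Fl X N T H t (7 / 25) := fun t a b =>
    step s4 hL (fun u c d => p7_4 hN0 hN hH0 hH1 c d) a b
  have s3 : 539 / 20000 ≤ Fl X N T H (0) (7 / 25) :=
    le_trans (by norm_num) (e4 (0) le_rfl (by norm_num))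
  have e3 : ∀ t, -(1 / 10) ≤ t → t ≤ 0 →
      539 / 20000 + (0 - t) * (3719 / 10000 - 19 / 50) ≤ Fl X N T H t (7 / 25) := fun t a b =>
    step s3 hL (fun u c d => p7_3 hN0 hN hH0 hH1 c d) a b
  have s2 : 1307 / 50000 ≤ Fl X N T H (-(1 / 10)) (7 / 25) :=
    le_trans (by norm_num) (e3 (-(1 / 10)) le_rfl (by norm_num))
  have e2 : ∀ t, -(3 / 20) ≤ t → t ≤ -(1 / 10) →
      1307 / 50000 + (-(1 / 10) - t) * (1809 / 5000 - 19 / 50) ≤ Fl X N T H t (7 / 25) := fun t a b =>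
    step s2 hL (fun u c d => p7_2 hN0 hN hH0 hH1 c d) a b
  have s1 : 2523 / 100000 ≤ Fl X N T H (-(3 / 20)) (7 / 25) :=
    le_trans (by norm_num) (e2 (-(3 / 20)) le_rfl (by norm_num))
  have e1 : ∀ t, -(1 / 5) ≤ t → t ≤ -(3 / 20) →
      2523 / 100000 + (-(3 / 20) - t) * (777 / 2500 - 19 / 50) ≤ Fl X N T H t (7 / 25) := fun t a b =>
    step s1 hL (fun u c d => p7_1 hN0 hN hH0 hH1 c d) a b
  have s0 : 2177 / 100000 ≤ Fl X N T H (-(1 / 5)) (7 / 25) :=
    le_trans (by norm_num) (e1 (-(1 / 5)) le_rfl (by norm_num))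
  have e0 : ∀ t, -(1 / 4) ≤ t → t ≤ -(1 / 5) →
      2177 / 100000 + (-(1 / 5) - t) * (227 / 1250 - 19 / 50) ≤ Fl X N T H t (7 / 25) := fun t a b =>
    step s0 hL (fun u c d => p7_0 hN0 hN hH0 hH1 c d) a b
  rcases le_total t 0 with a | a
  · rcases le_total t (-(1 / 10)) with b | b
    · rcases le_total t (-(3 / 20)) with c | c
      · rcases le_total t (-(1 / 5)) with d | d
        · linarith only [e0 t ht0 d, ht0]
        · linarith only [e1 t d c, d]
      · linarith only [e2 t c b, c]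
    · linarith only [e3 t b a, b]
  · rcases le_total t (7 / 100) with b | b
    · linarith only [e4 t a b, ht1]
    · linarith only [e5 t b ht1, ht1]

theorem p8_0 {H N u : ℝ} (hN0 : 0 ≤ N) (hN : N ≤ 7 / 100) (hH0 : 0 ≤ H) (hH1 : H ≤ 1 / 10)
    (h1 : -(1 / 4) < u) (h2 : u < -(1 / 5)) : 73 / 1250 ≤ sg H N u := by
  have ha : 1 / 5 ≤ |u| := by
    rw [abs_of_nonpos (by linarith only [h2])]
    linarith only [h2]
  have hb : |u| ≤ 1 / 4 := by
    rw [abs_of_nonpos (by linarith only [h2])]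
    linarith only [h1]
  have hN' : |N| ≤ 7 / 100 := by
    rw [abs_of_nonneg hN0]
    exact hN
  have hH' : |H| ≤ 1 / 10 := by
    rw [abs_le]
    constructor <;> linarith
  refine pc (A := 1 / 5) (B := 1 / 4) (E := 281 / 250) (Cn := 10983 / 10000) (Sn := 2271 / 5000)
    (Cb := 301 / 250) (c1 := 0) (c2 := 3091 / 10000) (γ := 2 * (3353 / 5000 * (2271 / 5000) * (1) * (9824 / 10000)))
    (by norm_num) (by norm_num) ha hb (ex_up (by norm_num) (by norm_num) (by norm_num))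
    (by norm_num) (cz_100 hH') (cz_070 hN') (by norm_num) cl_250 (by norm_num) cu_200
    (gamB (cz_100 hH') (cz_070 hN') (by norm_num) (by norm_num) (by norm_num) (by norm_num)
      su_250 hb (by norm_num)) ?_ ?_ ?_ ?_ <;> (unfold ft; norm_num)

theorem p8_1 {H N u : ℝ} (hN0 : 0 ≤ N) (hN : N ≤ 7 / 100) (hH0 : 0 ≤ H) (hH1 : H ≤ 1 / 10)
    (h1 : -(1 / 5) < u) (h2 : u < -(3 / 20)) : 26 / 125 ≤ sg H N u := by
  have ha : 3 / 20 ≤ |u| := by
    rw [abs_of_nonpos (by linarith only [h2])]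
    linarith only [h2]
  have hb : |u| ≤ 1 / 5 := by
    rw [abs_of_nonpos (by linarith only [h2])]
    linarith only [h1]
  have hN' : |N| ≤ 7 / 100 := by
    rw [abs_of_nonneg hN0]
    exact hN
  have hH' : |H| ≤ 1 / 10 := by
    rw [abs_le]
    constructor <;> linarith
  refine pc (A := 3 / 20) (B := 1 / 5) (E := 379 / 250) (Cn := 10983 / 10000) (Sn := 2271 / 5000)
    (Cb := 301 / 250) (c1 := 193 / 625) (c2 := 2939 / 5000) (γ := 2 * (3353 / 5000 * (2271 / 5000) * (9511 / 10000) * (9824 / 10000)))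
    (by norm_num) (by norm_num) ha hb (ex_up (by norm_num) (by norm_num) (by norm_num))
    (by norm_num) (cz_100 hH') (cz_070 hN') (by norm_num) cl_200 (by norm_num) cu_150
    (gamB (cz_100 hH') (cz_070 hN') (by norm_num) (by norm_num) (by norm_num) (by norm_num)
      su_200 hb (by norm_num)) ?_ ?_ ?_ ?_ <;> (unfold ft; norm_num)

theorem p8_2 {H N u : ℝ} (hN0 : 0 ≤ N) (hN : N ≤ 7 / 100) (hH0 : 0 ≤ H) (hH1 : H ≤ 1 / 10)
    (h1 : -(3 / 20) < u) (h2 : u < -(1 / 10)) : 2857 / 10000 ≤ sg H N u := by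
  have ha : 1 / 10 ≤ |u| := by
    rw [abs_of_nonpos (by linarith only [h2])]
    linarith only [h2]
  have hb : |u| ≤ 3 / 20 := by
    rw [abs_of_nonpos (by linarith only [h2])]
    linarith only [h1]
  have hN' : |N| ≤ 7 / 100 := by
    rw [abs_of_nonneg hN0]
    exact hN
  have hH' : |H| ≤ 1 / 10 := by
    rw [abs_le]
    constructor <;> linarith
  refine pc (A := 1 / 10) (B := 3 / 20) (E := 1771 / 1000) (Cn := 10983 / 10000) (Sn := 2271 / 5000)
    (Cb := 301 / 250) (c1 := 5877 / 10000) (c2 := 8091 / 10000) (γ := 2 * (3353 / 5000 * (2271 / 5000) * (8091 / 10000) * (9824 / 10000)))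
    (by norm_num) (by norm_num) ha hb (ex_up (by norm_num) (by norm_num) (by norm_num))
    (by norm_num) (cz_100 hH') (cz_070 hN') (by norm_num) cl_150 (by norm_num) cu_100
    (gamB (cz_100 hH') (cz_070 hN') (by norm_num) (by norm_num) (by norm_num) (by norm_num)
      su_150 hb (by norm_num)) ?_ ?_ ?_ ?_ <;> (unfold ft; norm_num)

theorem p8_3 {H N u : ℝ} (hN0 : 0 ≤ N) (hN : N ≤ 7 / 100) (hH0 : 0 ≤ H) (hH1 : H ≤ 1 / 10)
    (h1 : -(1 / 10) < u) (h2 : u < 0) : 3243 / 10000 ≤ sg H N u := by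
  have ha : 0 ≤ |u| := by
    rw [abs_of_nonpos (by linarith only [h2])]
    linarith only [h2]
  have hb : |u| ≤ 1 / 10 := by
    rw [abs_of_nonpos (by linarith only [h2])]
    linarith only [h1]
  have hN' : |N| ≤ 7 / 100 := by
    rw [abs_of_nonneg hN0]
    exact hN
  have hH' : |H| ≤ 1 / 10 := by
    rw [abs_le]
    constructor <;> linarith
  refine pc (A := 0) (B := 1 / 10) (E := 1913 / 1000) (Cn := 10983 / 10000) (Sn := 2271 / 5000)
    (Cb := 301 / 250) (c1 := 809 / 1000) (c2 := 1) (γ := 2 * (3353 / 5000 * (2271 / 5000) * (2939 / 5000) * (9824 / 10000)))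
    (by norm_num) (by norm_num) ha hb (ex_up (by norm_num) (by norm_num) (by norm_num))
    (by norm_num) (cz_100 hH') (cz_070 hN') (by norm_num) cl_100 (by norm_num) cu_000
    (gamB (cz_100 hH') (cz_070 hN') (by norm_num) (by norm_num) (by norm_num) (by norm_num)
      su_100 hb (by norm_num)) ?_ ?_ ?_ ?_ <;> (unfold ft; norm_num)

theorem p8_4 {H N u : ℝ} (hN0 : 0 ≤ N) (hN : N ≤ 7 / 100) (hH0 : 0 ≤ H) (hH1 : H ≤ 1 / 10)
    (h1 : 0 < u) (h2 : u < 7 / 100) : 3989 / 10000 ≤ sg H N u := by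
  have ha : 0 ≤ |u| := by
    rw [abs_of_nonneg (by linarith only [h1])]
    linarith only [h1]
  have hb : |u| ≤ 7 / 100 := by
    rw [abs_of_nonneg (by linarith only [h1])]
    linarith only [h2]
  have hN' : |N| ≤ 7 / 100 := by
    rw [abs_of_nonneg hN0]
    exact hN
  have hH' : |H| ≤ 1 / 10 := by
    rw [abs_le]
    constructor <;> linarith
  refine pc (A := 0) (B := 7 / 100) (E := 2221 / 1000) (Cn := 10983 / 10000) (Sn := 2271 / 5000)
    (Cb := 301 / 250) (c1 := 1131 / 1250) (c2 := 1) (γ := 0)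
    (by norm_num) (by norm_num) ha hb (ex_up (by norm_num) (by norm_num) (by norm_num))
    (by norm_num) (cz_100 hH') (cz_070 hN') (by norm_num) cl_070 (by norm_num) cu_000
    (gam0 (by (refine le_of_not_gt fun hng => ?_; linarith only [mul_nonneg (sub_nonneg.2 hH0) (sub_nonneg.2 h1.le),
                mul_pos (sub_pos.2 hng) (sub_pos.2 h2), mul_pos (sub_pos.2 hng) (sub_pos.2 h1)])) hN0 (by rw [abs_le]; constructor <;> linarith)) ?_ ?_ ?_ ?_ <;> (unfold ft; norm_num)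

theorem p8_5 {H N u : ℝ} (hN0 : 0 ≤ N) (hN : N ≤ 7 / 100) (hH0 : 0 ≤ H) (hH1 : H ≤ 1 / 10)
    (h1 : 7 / 100 < u) (h2 : u < 13 / 100) : 41 / 100 ≤ sg H N u := by
  have ha : 7 / 100 ≤ |u| := by
    rw [abs_of_nonneg (by linarith only [h1])]
    linarith only [h1]
  have hb : |u| ≤ 13 / 100 := by
    rw [abs_of_nonneg (by linarith only [h1])]
    linarith only [h2]
  have hN' : |N| ≤ 7 / 100 := by
    rw [abs_of_nonneg hN0]
    exact hN
  have hH' : |H| ≤ 1 / 10 := by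
    rw [abs_le]
    constructor <;> linarith
  refine pc (A := 7 / 100) (B := 13 / 100) (E := 2271 / 1000) (Cn := 10983 / 10000) (Sn := 2271 / 5000)
    (Cb := 301 / 250) (c1 := 1369 / 2000) (c2 := 9049 / 10000) (γ := 0)
    (by norm_num) (by norm_num) ha hb (ex_up (by norm_num) (by norm_num) (by norm_num))
    (by norm_num) (cz_100 hH') (cz_070 hN') (by norm_num) cl_130 (by norm_num) cu_070
    (gam0 (by linarith only [hH0, mul_nonneg (sub_nonneg.2 hH0) (sub_nonneg.2 h1.le)]) hN0 (by rw [abs_le]; constructor <;> linarith)) ?_ ?_ ?_ ?_ <;> (unfold ft; norm_num)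

theorem bx8 {X N T H t : ℝ} (h : RG X N T H) (hN0 : 0 ≤ N) (hN : N ≤ 7 / 100)
    (hH0 : 0 ≤ H) (hH1 : H ≤ 1 / 10)
    (hL : 2 * Lg H (1 / 2 - T) - Lg (H - N) (T - X) - Lg (H + N) (T + X) ≤ 33 / 100)
    (ht0 : -(1 / 4) ≤ t) (ht1 : t ≤ 13 / 100) : 0 < Fl X N T H t (7 / 25) := by
  have s5 : 99 / 5000 ≤ Fl X N T H (13 / 100) (7 / 25) := le_trans (by norm_num) (Fl_13 h)
  have e5 : ∀ t, 7 / 100 ≤ t → t ≤ 13 / 100 →
      99 / 5000 + (13 / 100 - t) * (41 / 100 - 33 / 100) ≤ Fl X N T H t (7 / 25) := fun t a b =>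
    step s5 hL (fun u c d => p8_5 hN0 hN hH0 hH1 c d) a b
  have s4 : 123 / 5000 ≤ Fl X N T H (7 / 100) (7 / 25) :=
    le_trans (by norm_num) (e5 (7 / 100) le_rfl (by norm_num))
  have e4 : ∀ t, 0 ≤ t → t ≤ 7 / 100 →
      123 / 5000 + (7 / 100 - t) * (3989 / 10000 - 33 / 100) ≤ Fl X N T H t (7 / 25) := fun t a b =>
    step s4 hL (fun u c d => p8_4 hN0 hN hH0 hH1 c d) a b
  have s3 : 1471 / 50000 ≤ Fl X N T H (0) (7 / 25) :=
    le_trans (by norm_num) (e4 (0) le_rfl (by norm_num))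
  have e3 : ∀ t, -(1 / 10) ≤ t → t ≤ 0 →
      1471 / 50000 + (0 - t) * (3243 / 10000 - 33 / 100) ≤ Fl X N T H t (7 / 25) := fun t a b =>
    step s3 hL (fun u c d => p8_3 hN0 hN hH0 hH1 c d) a b
  have s2 : 577 / 20000 ≤ Fl X N T H (-(1 / 10)) (7 / 25) :=
    le_trans (by norm_num) (e3 (-(1 / 10)) le_rfl (by norm_num))
  have e2 : ∀ t, -(3 / 20) ≤ t → t ≤ -(1 / 10) →
      577 / 20000 + (-(1 / 10) - t) * (2857 / 10000 - 33 / 100) ≤ Fl X N T H t (7 / 25) := fun t a b =>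
    step s2 hL (fun u c d => p8_2 hN0 hN hH0 hH1 c d) a b
  have s1 : 2663 / 100000 ≤ Fl X N T H (-(3 / 20)) (7 / 25) :=
    le_trans (by norm_num) (e2 (-(3 / 20)) le_rfl (by norm_num))
  have e1 : ∀ t, -(1 / 5) ≤ t → t ≤ -(3 / 20) →
      2663 / 100000 + (-(3 / 20) - t) * (26 / 125 - 33 / 100) ≤ Fl X N T H t (7 / 25) := fun t a b =>
    step s1 hL (fun u c d => p8_1 hN0 hN hH0 hH1 c d) a b
  have s0 : 2053 / 100000 ≤ Fl X N T H (-(1 / 5)) (7 / 25) :=
    le_trans (by norm_num) (e1 (-(1 / 5)) le_rfl (by norm_num))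
  have e0 : ∀ t, -(1 / 4) ≤ t → t ≤ -(1 / 5) →
      2053 / 100000 + (-(1 / 5) - t) * (73 / 1250 - 33 / 100) ≤ Fl X N T H t (7 / 25) := fun t a b =>
    step s0 hL (fun u c d => p8_0 hN0 hN hH0 hH1 c d) a b
  rcases le_total t 0 with a | a
  · rcases le_total t (-(1 / 10)) with b | b
    · rcases le_total t (-(3 / 20)) with c | c
      · rcases le_total t (-(1 / 5)) with d | d
        · linarith only [e0 t ht0 d, ht0]
        · linarith only [e1 t d c, d]
      · linarith only [e2 t c b, c]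
    · linarith only [e3 t b a, b]
  · rcases le_total t (7 / 100) with b | b
    · linarith only [e4 t a b, ht1]
    · linarith only [e5 t b ht1, ht1]

theorem p9_0 {H N u : ℝ} (hN0 : 0 ≤ N) (hN : N ≤ 11 / 125) (hH0 : 0 ≤ H) (hH1 : H ≤ 2 / 25)
    (h1 : -(1 / 4) < u) (h2 : u < -(1 / 5)) : 27 / 2500 ≤ sg H N u := by
  have ha : 1 / 5 ≤ |u| := by
    rw [abs_of_nonpos (by linarith only [h2])]
    linarith only [h2]
  have hb : |u| ≤ 1 / 4 := by
    rw [abs_of_nonpos (by linarith only [h2])]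
    linarith only [h1]
  have hN' : |N| ≤ 11 / 125 := by
    rw [abs_of_nonneg hN0]
    exact hN
  have hH' : |H| ≤ 2 / 25 := by
    rw [abs_le]
    constructor <;> linarith
  refine pc (A := 1 / 5) (B := 1 / 4) (E := 511 / 500) (Cn := 723 / 625) (Sn := 727 / 1250)
    (Cb := 11291 / 10000) (c1 := 0) (c2 := 3091 / 10000) (γ := 2 * (5243 / 10000 * (727 / 1250) * (1) * (9824 / 10000)))
    (by norm_num) (by norm_num) ha hb (ex_up (by norm_num) (by norm_num) (by norm_num))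
    (by norm_num) (cz_080 hH') (cz_088 hN') (by norm_num) cl_250 (by norm_num) cu_200
    (gamB (cz_080 hH') (cz_088 hN') (by norm_num) (by norm_num) (by norm_num) (by norm_num)
      su_250 hb (by norm_num)) ?_ ?_ ?_ ?_ <;> (unfold ft; norm_num)

theorem p9_1 {H N u : ℝ} (hN0 : 0 ≤ N) (hN : N ≤ 11 / 125) (hH0 : 0 ≤ H) (hH1 : H ≤ 2 / 25)
    (h1 : -(1 / 5) < u) (h2 : u < -(3 / 20)) : 1721 / 10000 ≤ sg H N u := by
  have ha : 3 / 20 ≤ |u| := by
    rw [abs_of_nonpos (by linarith only [h2])]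
    linarith only [h2]
  have hb : |u| ≤ 1 / 5 := by
    rw [abs_of_nonpos (by linarith only [h2])]
    linarith only [h1]
  have hN' : |N| ≤ 11 / 125 := by
    rw [abs_of_nonneg hN0]
    exact hN
  have hH' : |H| ≤ 2 / 25 := by
    rw [abs_le]
    constructor <;> linarith
  refine pc (A := 3 / 20) (B := 1 / 5) (E := 1411 / 1000) (Cn := 723 / 625) (Sn := 727 / 1250)
    (Cb := 11291 / 10000) (c1 := 193 / 625) (c2 := 2939 / 5000) (γ := 2 * (5243 / 10000 * (727 / 1250) * (9511 / 10000) * (9824 / 10000)))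
    (by norm_num) (by norm_num) ha hb (ex_up (by norm_num) (by norm_num) (by norm_num))
    (by norm_num) (cz_080 hH') (cz_088 hN') (by norm_num) cl_200 (by norm_num) cu_150
    (gamB (cz_080 hH') (cz_088 hN') (by norm_num) (by norm_num) (by norm_num) (by norm_num)
      su_200 hb (by norm_num)) ?_ ?_ ?_ ?_ <;> (unfold ft; norm_num)

theorem p9_2 {H N u : ℝ} (hN0 : 0 ≤ N) (hN : N ≤ 11 / 125) (hH0 : 0 ≤ H) (hH1 : H ≤ 2 / 25)
    (h1 : -(3 / 20) < u) (h2 : u < -(1 / 10)) : 2557 / 10000 ≤ sg H N u := by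
  have ha : 1 / 10 ≤ |u| := by
    rw [abs_of_nonpos (by linarith only [h2])]
    linarith only [h2]
  have hb : |u| ≤ 3 / 20 := by
    rw [abs_of_nonpos (by linarith only [h2])]
    linarith only [h1]
  have hN' : |N| ≤ 11 / 125 := by
    rw [abs_of_nonneg hN0]
    exact hN
  have hH' : |H| ≤ 2 / 25 := by
    rw [abs_le]
    constructor <;> linarith
  refine pc (A := 1 / 10) (B := 3 / 20) (E := 417 / 250) (Cn := 723 / 625) (Sn := 727 / 1250)
    (Cb := 11291 / 10000) (c1 := 5877 / 10000) (c2 := 8091 / 10000) (γ := 2 * (5243 / 10000 * (727 / 1250) * (8091 / 10000) * (9824 / 10000)))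
    (by norm_num) (by norm_num) ha hb (ex_up (by norm_num) (by norm_num) (by norm_num))
    (by norm_num) (cz_080 hH') (cz_088 hN') (by norm_num) cl_150 (by norm_num) cu_100
    (gamB (cz_080 hH') (cz_088 hN') (by norm_num) (by norm_num) (by norm_num) (by norm_num)
      su_150 hb (by norm_num)) ?_ ?_ ?_ ?_ <;> (unfold ft; norm_num)

theorem p9_3 {H N u : ℝ} (hN0 : 0 ≤ N) (hN : N ≤ 11 / 125) (hH0 : 0 ≤ H) (hH1 : H ≤ 2 / 25)
    (h1 : -(1 / 10) < u) (h2 : u < 0) : 2993 / 10000 ≤ sg H N u := by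
  have ha : 0 ≤ |u| := by
    rw [abs_of_nonpos (by linarith only [h2])]
    linarith only [h2]
  have hb : |u| ≤ 1 / 10 := by
    rw [abs_of_nonpos (by linarith only [h2])]
    linarith only [h1]
  have hN' : |N| ≤ 11 / 125 := by
    rw [abs_of_nonneg hN0]
    exact hN
  have hH' : |H| ≤ 2 / 25 := by
    rw [abs_le]
    constructor <;> linarith
  refine pc (A := 0) (B := 1 / 10) (E := 91 / 50) (Cn := 723 / 625) (Sn := 727 / 1250)
    (Cb := 11291 / 10000) (c1 := 809 / 1000) (c2 := 1) (γ := 2 * (5243 / 10000 * (727 / 1250) * (2939 / 5000) * (9824 / 10000)))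
    (by norm_num) (by norm_num) ha hb (ex_up (by norm_num) (by norm_num) (by norm_num))
    (by norm_num) (cz_080 hH') (cz_088 hN') (by norm_num) cl_100 (by norm_num) cu_000
    (gamB (cz_080 hH') (cz_088 hN') (by norm_num) (by norm_num) (by norm_num) (by norm_num)
      su_100 hb (by norm_num)) ?_ ?_ ?_ ?_ <;> (unfold ft; norm_num)

theorem p9_4 {H N u : ℝ} (hN0 : 0 ≤ N) (hN : N ≤ 11 / 125) (hH0 : 0 ≤ H) (hH1 : H ≤ 2 / 25)
    (h1 : 0 < u) (h2 : u < 7 / 100) : 939 / 2500 ≤ sg H N u := by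
  have ha : 0 ≤ |u| := by
    rw [abs_of_nonneg (by linarith only [h1])]
    linarith only [h1]
  have hb : |u| ≤ 7 / 100 := by
    rw [abs_of_nonneg (by linarith only [h1])]
    linarith only [h2]
  have hN' : |N| ≤ 11 / 125 := by
    rw [abs_of_nonneg hN0]
    exact hN
  have hH' : |H| ≤ 2 / 25 := by
    rw [abs_le]
    constructor <;> linarith
  refine pc (A := 0) (B := 7 / 100) (E := 53 / 25) (Cn := 723 / 625) (Sn := 727 / 1250)
    (Cb := 11291 / 10000) (c1 := 1131 / 1250) (c2 := 1) (γ := 0)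
    (by norm_num) (by norm_num) ha hb (ex_up (by norm_num) (by norm_num) (by norm_num))
    (by norm_num) (cz_080 hH') (cz_088 hN') (by norm_num) cl_070 (by norm_num) cu_000
    (gam0 (by (refine le_of_not_gt fun hng => ?_; linarith only [mul_nonneg (sub_nonneg.2 hH0) (sub_nonneg.2 h1.le),
                mul_pos (sub_pos.2 hng) (sub_pos.2 h2), mul_pos (sub_pos.2 hng) (sub_pos.2 h1)])) hN0 (by rw [abs_le]; constructor <;> linarith)) ?_ ?_ ?_ ?_ <;> (unfold ft; norm_num)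

theorem p9_5 {H N u : ℝ} (hN0 : 0 ≤ N) (hN : N ≤ 11 / 125) (hH0 : 0 ≤ H) (hH1 : H ≤ 2 / 25)
    (h1 : 7 / 100 < u) (h2 : u < 13 / 100) : 3861 / 10000 ≤ sg H N u := by
  have ha : 7 / 100 ≤ |u| := by
    rw [abs_of_nonneg (by linarith only [h1])]
    linarith only [h1]
  have hb : |u| ≤ 13 / 100 := by
    rw [abs_of_nonneg (by linarith only [h1])]
    linarith only [h2]
  have hN' : |N| ≤ 11 / 125 := by
    rw [abs_of_nonneg hN0]
    exact hN
  have hH' : |H| ≤ 2 / 25 := by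
    rw [abs_le]
    constructor <;> linarith
  refine pc (A := 7 / 100) (B := 13 / 100) (E := 433 / 200) (Cn := 723 / 625) (Sn := 727 / 1250)
    (Cb := 11291 / 10000) (c1 := 1369 / 2000) (c2 := 9049 / 10000) (γ := 0)
    (by norm_num) (by norm_num) ha hb (ex_up (by norm_num) (by norm_num) (by norm_num))
    (by norm_num) (cz_080 hH') (cz_088 hN') (by norm_num) cl_130 (by norm_num) cu_070
    (gam0 (by linarith only [hH0, mul_nonneg (sub_nonneg.2 hH0) (sub_nonneg.2 h1.le)]) hN0 (by rw [abs_le]; constructor <;> linarith)) ?_ ?_ ?_ ?_ <;> (unfold ft; norm_num)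

theorem bx9 {X N T H t : ℝ} (h : RG X N T H) (hN0 : 0 ≤ N) (hN : N ≤ 11 / 125)
    (hH0 : 0 ≤ H) (hH1 : H ≤ 2 / 25)
    (hL : 2 * Lg H (1 / 2 - T) - Lg (H - N) (T - X) - Lg (H + N) (T + X) ≤ 31 / 100)
    (ht0 : -(1 / 4) ≤ t) (ht1 : t ≤ 13 / 100) : 0 < Fl X N T H t (7 / 25) := by
  have s5 : 99 / 5000 ≤ Fl X N T H (13 / 100) (7 / 25) := le_trans (by norm_num) (Fl_13 h)
  have e5 : ∀ t, 7 / 100 ≤ t → t ≤ 13 / 100 →
      99 / 5000 + (13 / 100 - t) * (3861 / 10000 - 31 / 100) ≤ Fl X N T H t (7 / 25) := fun t a b =>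
    step s5 hL (fun u c d => p9_5 hN0 hN hH0 hH1 c d) a b
  have s4 : 609 / 25000 ≤ Fl X N T H (7 / 100) (7 / 25) :=
    le_trans (by norm_num) (e5 (7 / 100) le_rfl (by norm_num))
  have e4 : ∀ t, 0 ≤ t → t ≤ 7 / 100 →
      609 / 25000 + (7 / 100 - t) * (939 / 2500 - 31 / 100) ≤ Fl X N T H t (7 / 25) := fun t a b =>
    step s4 hL (fun u c d => p9_4 hN0 hN hH0 hH1 c d) a b
  have s3 : 579 / 20000 ≤ Fl X N T H (0) (7 / 25) :=
    le_trans (by norm_num) (e4 (0) le_rfl (by norm_num))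
  have e3 : ∀ t, -(1 / 10) ≤ t → t ≤ 0 →
      579 / 20000 + (0 - t) * (2993 / 10000 - 31 / 100) ≤ Fl X N T H t (7 / 25) := fun t a b =>
    step s3 hL (fun u c d => p9_3 hN0 hN hH0 hH1 c d) a b
  have s2 : 697 / 25000 ≤ Fl X N T H (-(1 / 10)) (7 / 25) :=
    le_trans (by norm_num) (e3 (-(1 / 10)) le_rfl (by norm_num))
  have e2 : ∀ t, -(3 / 20) ≤ t → t ≤ -(1 / 10) →
      697 / 25000 + (-(1 / 10) - t) * (2557 / 10000 - 31 / 100) ≤ Fl X N T H t (7 / 25) := fun t a b =>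
    step s2 hL (fun u c d => p9_2 hN0 hN hH0 hH1 c d) a b
  have s1 : 629 / 25000 ≤ Fl X N T H (-(3 / 20)) (7 / 25) :=
    le_trans (by norm_num) (e2 (-(3 / 20)) le_rfl (by norm_num))
  have e1 : ∀ t, -(1 / 5) ≤ t → t ≤ -(3 / 20) →
      629 / 25000 + (-(3 / 20) - t) * (1721 / 10000 - 31 / 100) ≤ Fl X N T H t (7 / 25) := fun t a b =>
    step s1 hL (fun u c d => p9_1 hN0 hN hH0 hH1 c d) a b
  have s0 : 913 / 50000 ≤ Fl X N T H (-(1 / 5)) (7 / 25) :=
    le_trans (by norm_num) (e1 (-(1 / 5)) le_rfl (by norm_num))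
  have e0 : ∀ t, -(1 / 4) ≤ t → t ≤ -(1 / 5) →
      913 / 50000 + (-(1 / 5) - t) * (27 / 2500 - 31 / 100) ≤ Fl X N T H t (7 / 25) := fun t a b =>
    step s0 hL (fun u c d => p9_0 hN0 hN hH0 hH1 c d) a b
  rcases le_total t 0 with a | a
  · rcases le_total t (-(1 / 10)) with b | b
    · rcases le_total t (-(3 / 20)) with c | c
      · rcases le_total t (-(1 / 5)) with d | d
        · linarith only [e0 t ht0 d, ht0]
        · linarith only [e1 t d c, d]
      · linarith only [e2 t c b, c]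
    · linarith only [e3 t b a, b]
  · rcases le_total t (7 / 100) with b | b
    · linarith only [e4 t a b, ht1]
    · linarith only [e5 t b ht1, ht1]

theorem p10_0 {H N u : ℝ} (hN0 : 0 ≤ N) (hN : N ≤ 11 / 125) (hH0 : 0 ≤ H) (hH1 : H ≤ 1 / 10)
    (h1 : -(1 / 4) < u) (h2 : u < -(1 / 5)) : -(331 / 5000) ≤ sg H N u := by
  have ha : 1 / 5 ≤ |u| := by
    rw [abs_of_nonpos (by linarith only [h2])]
    linarith only [h2]
  have hb : |u| ≤ 1 / 4 := by
    rw [abs_of_nonpos (by linarith only [h2])]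
    linarith only [h1]
  have hN' : |N| ≤ 11 / 125 := by
    rw [abs_of_nonneg hN0]
    exact hN
  have hH' : |H| ≤ 1 / 10 := by
    rw [abs_le]
    constructor <;> linarith
  refine pc' (B := 1 / 4) (E := 877 / 1000) (Cn := 723 / 625) (Sn := 727 / 1250)
    (c1 := 0) (γ := 2 * (3353 / 5000 * (727 / 1250) * (1) * (9824 / 10000)))
    (by norm_num) hb (by
      have h := ex_up' (x := 331 / 2500) (E := 877 / 1000) (by norm_num) (by norm_num) (by norm_num)
      have e : (2 * (-(331 / 5000)) : ℝ) = -(331 / 2500) := by norm_num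
      rw [e]
      exact h)
    (by norm_num) (cz_088 hN') (by norm_num) (by norm_num) cl_250 (by norm_num)
    (gamB (cz_100 hH') (cz_088 hN') (by norm_num) (by norm_num) (by norm_num) (by norm_num)
      su_250 hb (by norm_num)) ?_
  unfold ft
  norm_num

theorem p10_1 {H N u : ℝ} (hN0 : 0 ≤ N) (hN : N ≤ 11 / 125) (hH0 : 0 ≤ H) (hH1 : H ≤ 1 / 10)
    (h1 : -(1 / 5) < u) (h2 : u < -(3 / 20)) : 47 / 400 ≤ sg H N u := by
  have ha : 3 / 20 ≤ |u| := by
    rw [abs_of_nonpos (by linarith only [h2])]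
    linarith only [h2]
  have hb : |u| ≤ 1 / 5 := by
    rw [abs_of_nonpos (by linarith only [h2])]
    linarith only [h1]
  have hN' : |N| ≤ 11 / 125 := by
    rw [abs_of_nonneg hN0]
    exact hN
  have hH' : |H| ≤ 1 / 10 := by
    rw [abs_le]
    constructor <;> linarith
  refine pc (A := 3 / 20) (B := 1 / 5) (E := 253 / 200) (Cn := 723 / 625) (Sn := 727 / 1250)
    (Cb := 301 / 250) (c1 := 193 / 625) (c2 := 2939 / 5000) (γ := 2 * (3353 / 5000 * (727 / 1250) * (9511 / 10000) * (9824 / 10000)))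
    (by norm_num) (by norm_num) ha hb (ex_up (by norm_num) (by norm_num) (by norm_num))
    (by norm_num) (cz_100 hH') (cz_088 hN') (by norm_num) cl_200 (by norm_num) cu_150
    (gamB (cz_100 hH') (cz_088 hN') (by norm_num) (by norm_num) (by norm_num) (by norm_num)
      su_200 hb (by norm_num)) ?_ ?_ ?_ ?_ <;> (unfold ft; norm_num)

theorem p10_2 {H N u : ℝ} (hN0 : 0 ≤ N) (hN : N ≤ 11 / 125) (hH0 : 0 ≤ H) (hH1 : H ≤ 1 / 10)
    (h1 : -(3 / 20) < u) (h2 : u < -(1 / 10)) : 533 / 2500 ≤ sg H N u := by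
  have ha : 1 / 10 ≤ |u| := by
    rw [abs_of_nonpos (by linarith only [h2])]
    linarith only [h2]
  have hb : |u| ≤ 3 / 20 := by
    rw [abs_of_nonpos (by linarith only [h2])]
    linarith only [h1]
  have hN' : |N| ≤ 11 / 125 := by
    rw [abs_of_nonneg hN0]
    exact hN
  have hH' : |H| ≤ 1 / 10 := by
    rw [abs_le]
    constructor <;> linarith
  refine pc (A := 1 / 10) (B := 3 / 20) (E := 383 / 250) (Cn := 723 / 625) (Sn := 727 / 1250)
    (Cb := 301 / 250) (c1 := 5877 / 10000) (c2 := 8091 / 10000) (γ := 2 * (3353 / 5000 * (727 / 1250) * (8091 / 10000) * (9824 / 10000)))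
    (by norm_num) (by norm_num) ha hb (ex_up (by norm_num) (by norm_num) (by norm_num))
    (by norm_num) (cz_100 hH') (cz_088 hN') (by norm_num) cl_150 (by norm_num) cu_100
    (gamB (cz_100 hH') (cz_088 hN') (by norm_num) (by norm_num) (by norm_num) (by norm_num)
      su_150 hb (by norm_num)) ?_ ?_ ?_ ?_ <;> (unfold ft; norm_num)

theorem p10_3 {H N u : ℝ} (hN0 : 0 ≤ N) (hN : N ≤ 11 / 125) (hH0 : 0 ≤ H) (hH1 : H ≤ 1 / 10)
    (h1 : -(1 / 10) < u) (h2 : u < 0) : 2723 / 10000 ≤ sg H N u := by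
  have ha : 0 ≤ |u| := by
    rw [abs_of_nonpos (by linarith only [h2])]
    linarith only [h2]
  have hb : |u| ≤ 1 / 10 := by
    rw [abs_of_nonpos (by linarith only [h2])]
    linarith only [h1]
  have hN' : |N| ≤ 11 / 125 := by
    rw [abs_of_nonneg hN0]
    exact hN
  have hH' : |H| ≤ 1 / 10 := by
    rw [abs_le]
    constructor <;> linarith
  refine pc (A := 0) (B := 1 / 10) (E := 431 / 250) (Cn := 723 / 625) (Sn := 727 / 1250)
    (Cb := 301 / 250) (c1 := 809 / 1000) (c2 := 1) (γ := 2 * (3353 / 5000 * (727 / 1250) * (2939 / 5000) * (9824 / 10000)))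
    (by norm_num) (by norm_num) ha hb (ex_up (by norm_num) (by norm_num) (by norm_num))
    (by norm_num) (cz_100 hH') (cz_088 hN') (by norm_num) cl_100 (by norm_num) cu_000
    (gamB (cz_100 hH') (cz_088 hN') (by norm_num) (by norm_num) (by norm_num) (by norm_num)
      su_100 hb (by norm_num)) ?_ ?_ ?_ ?_ <;> (unfold ft; norm_num)

theorem p10_4 {H N u : ℝ} (hN0 : 0 ≤ N) (hN : N ≤ 11 / 125) (hH0 : 0 ≤ H) (hH1 : H ≤ 1 / 10)
    (h1 : 0 < u) (h2 : u < 7 / 100) : 3639 / 10000 ≤ sg H N u := by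
  have ha : 0 ≤ |u| := by
    rw [abs_of_nonneg (by linarith only [h1])]
    linarith only [h1]
  have hb : |u| ≤ 7 / 100 := by
    rw [abs_of_nonneg (by linarith only [h1])]
    linarith only [h2]
  have hN' : |N| ≤ 11 / 125 := by
    rw [abs_of_nonneg hN0]
    exact hN
  have hH' : |H| ≤ 1 / 10 := by
    rw [abs_le]
    constructor <;> linarith
  refine pc (A := 0) (B := 7 / 100) (E := 2071 / 1000) (Cn := 723 / 625) (Sn := 727 / 1250)
    (Cb := 301 / 250) (c1 := 1131 / 1250) (c2 := 1) (γ := 0)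
    (by norm_num) (by norm_num) ha hb (ex_up (by norm_num) (by norm_num) (by norm_num))
    (by norm_num) (cz_100 hH') (cz_088 hN') (by norm_num) cl_070 (by norm_num) cu_000
    (gam0 (by (refine le_of_not_gt fun hng => ?_; linarith only [mul_nonneg (sub_nonneg.2 hH0) (sub_nonneg.2 h1.le),
                mul_pos (sub_pos.2 hng) (sub_pos.2 h2), mul_pos (sub_pos.2 hng) (sub_pos.2 h1)])) hN0 (by rw [abs_le]; constructor <;> linarith)) ?_ ?_ ?_ ?_ <;> (unfold ft; norm_num)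

theorem p10_5 {H N u : ℝ} (hN0 : 0 ≤ N) (hN : N ≤ 11 / 125) (hH0 : 0 ≤ H) (hH1 : H ≤ 1 / 10)
    (h1 : 7 / 100 < u) (h2 : u < 13 / 100) : 929 / 2500 ≤ sg H N u := by
  have ha : 7 / 100 ≤ |u| := by
    rw [abs_of_nonneg (by linarith only [h1])]
    linarith only [h1]
  have hb : |u| ≤ 13 / 100 := by
    rw [abs_of_nonneg (by linarith only [h1])]
    linarith only [h2]
  have hN' : |N| ≤ 11 / 125 := by
    rw [abs_of_nonneg hN0]
    exact hN
  have hH' : |H| ≤ 1 / 10 := by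
    rw [abs_le]
    constructor <;> linarith
  refine pc (A := 7 / 100) (B := 13 / 100) (E := 2103 / 1000) (Cn := 723 / 625) (Sn := 727 / 1250)
    (Cb := 301 / 250) (c1 := 1369 / 2000) (c2 := 9049 / 10000) (γ := 0)
    (by norm_num) (by norm_num) ha hb (ex_up (by norm_num) (by norm_num) (by norm_num))
    (by norm_num) (cz_100 hH') (cz_088 hN') (by norm_num) cl_130 (by norm_num) cu_070
    (gam0 (by linarith only [hH0, mul_nonneg (sub_nonneg.2 hH0) (sub_nonneg.2 h1.le)]) hN0 (by rw [abs_le]; constructor <;> linarith)) ?_ ?_ ?_ ?_ <;> (unfold ft; norm_num)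

theorem bx10 {X N T H t : ℝ} (h : RG X N T H) (hN0 : 0 ≤ N) (hN : N ≤ 11 / 125)
    (hH0 : 0 ≤ H) (hH1 : H ≤ 1 / 10)
    (hL : 2 * Lg H (1 / 2 - T) - Lg (H - N) (T - X) - Lg (H + N) (T + X) ≤ 27 / 100)
    (ht0 : -(1 / 4) ≤ t) (ht1 : t ≤ 13 / 100) : 0 < Fl X N T H t (7 / 25) := by
  have s5 : 99 / 5000 ≤ Fl X N T H (13 / 100) (7 / 25) := le_trans (by norm_num) (Fl_13 h)
  have e5 : ∀ t, 7 / 100 ≤ t → t ≤ 13 / 100 →
      99 / 5000 + (13 / 100 - t) * (929 / 2500 - 27 / 100) ≤ Fl X N T H t (7 / 25) := fun t a b =>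
    step s5 hL (fun u c d => p10_5 hN0 hN hH0 hH1 c d) a b
  have s4 : 2589 / 100000 ≤ Fl X N T H (7 / 100) (7 / 25) :=
    le_trans (by norm_num) (e5 (7 / 100) le_rfl (by norm_num))
  have e4 : ∀ t, 0 ≤ t → t ≤ 7 / 100 →
      2589 / 100000 + (7 / 100 - t) * (3639 / 10000 - 27 / 100) ≤ Fl X N T H t (7 / 25) := fun t a b =>
    step s4 hL (fun u c d => p10_4 hN0 hN hH0 hH1 c d) a b
  have s3 : 1623 / 50000 ≤ Fl X N T H (0) (7 / 25) :=
    le_trans (by norm_num) (e4 (0) le_rfl (by norm_num))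
  have e3 : ∀ t, -(1 / 10) ≤ t → t ≤ 0 →
      1623 / 50000 + (0 - t) * (2723 / 10000 - 27 / 100) ≤ Fl X N T H t (7 / 25) := fun t a b =>
    step s3 hL (fun u c d => p10_3 hN0 hN hH0 hH1 c d) a b
  have s2 : 3269 / 100000 ≤ Fl X N T H (-(1 / 10)) (7 / 25) :=
    le_trans (by norm_num) (e3 (-(1 / 10)) le_rfl (by norm_num))
  have e2 : ∀ t, -(3 / 20) ≤ t → t ≤ -(1 / 10) →
      3269 / 100000 + (-(1 / 10) - t) * (533 / 2500 - 27 / 100) ≤ Fl X N T H t (7 / 25) := fun t a b =>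
    step s2 hL (fun u c d => p10_2 hN0 hN hH0 hH1 c d) a b
  have s1 : 597 / 20000 ≤ Fl X N T H (-(3 / 20)) (7 / 25) :=
    le_trans (by norm_num) (e2 (-(3 / 20)) le_rfl (by norm_num))
  have e1 : ∀ t, -(1 / 5) ≤ t → t ≤ -(3 / 20) →
      597 / 20000 + (-(3 / 20) - t) * (47 / 400 - 27 / 100) ≤ Fl X N T H t (7 / 25) := fun t a b =>
    step s1 hL (fun u c d => p10_1 hN0 hN hH0 hH1 c d) a b
  have s0 : 1111 / 50000 ≤ Fl X N T H (-(1 / 5)) (7 / 25) :=
    le_trans (by norm_num) (e1 (-(1 / 5)) le_rfl (by norm_num))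
  have e0 : ∀ t, -(1 / 4) ≤ t → t ≤ -(1 / 5) →
      1111 / 50000 + (-(1 / 5) - t) * (-(331 / 5000) - 27 / 100) ≤ Fl X N T H t (7 / 25) := fun t a b =>
    step s0 hL (fun u c d => p10_0 hN0 hN hH0 hH1 c d) a b
  rcases le_total t 0 with a | a
  · rcases le_total t (-(1 / 10)) with b | b
    · rcases le_total t (-(3 / 20)) with c | c
      · rcases le_total t (-(1 / 5)) with d | d
        · linarith only [e0 t ht0 d, ht0]
        · linarith only [e1 t d c, d]
      · linarith only [e2 t c b, c]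
    · linarith only [e3 t b a, ht1]
  · rcases le_total t (7 / 100) with b | b
    · linarith only [e4 t a b, ht1]
    · linarith only [e5 t b ht1, ht1]

end Pool.Agent.S5.VB
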