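import Pool.Agent.S5.I.VB
import Pool.Agent.S5.I.VB7b
import Pool.Agent.S5.I.VB7c
import Pool.Agent.S5.I.VB7d

/-!
# The flats of the slots of the open nodes
-/

set_option autoImplicit false

namespace Pool.Agent.S5

open Pool.Agent.H63.VC3 Pool.Agent.S3 Complex MeasureTheory Filter Topology Set

theorem VNB7_holds : VNB7 := by
  intro ys vs y v h hy hy0 hy1 hv hv1
  rw [Es_flat hy hv, hv1]
  have r := h.rg
  have n0 := h.n0.le
  have n1 : vs.im ≤ 11 / 125 := by linarith [h.n1]
  have e0 : -(27 / 200) ≤ ys.im := by linarith [h.e0]
  have e1 := h.e1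
  have d := h.d
  have l := h.l
  have l2 := h.l2
  unfold lamv at l l2
  have key : 0 < VB.Fl vs.re vs.im ys.re ys.im y.re (7 / 25) := by
    rcases le_total ys.im 0 with a | a
    · rcases le_total ys.im (-(3 / 25)) with b | b
      · exact VB.bx0 r n0 (by linarith) e0 a (by linarith) hy0 hy1
      · rcases le_total ys.im (-(21 / 200)) with c | c
        · exact VB.bx1 r n0 (by linarith) b a (by linarith) hy0 hy1
        · rcases le_total ys.im (-(9 / 100)) with f | f
          · exact VB.bx2 r n0 (by linarith) c a (by linarith) hy0 hy1
          · exact VB.bx3 r n0 n1 f a (by linarith) hy0 hy1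
    · rcases le_total ys.im (1 / 25) with b | b
      · exact VB.bx4 r n0 n1 a b (by linarith) hy0 hy1
      · rcases le_total ys.im (3 / 50) with c | c
        · rcases le_total vs.im (7 / 100) with f | f
          · exact VB.bx5 r n0 f a c (by linarith) hy0 hy1
          · exact VB.bx6 r n0 n1 a c (by linarith) hy0 hy1
        · rcases le_total vs.im (1 / 20) with f | f
          · exact VB.bx7 r n0 f a e1 (by linarith) hy0 hy1
          · rcases le_total vs.im (7 / 100) with g | g
            · exact VB.bx8 r n0 g a e1 (by linarith) hy0 hy1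
            · rcases le_total ys.im (2 / 25) with q | q
              · exact VB.bx9 r n0 n1 a q (by linarith) hy0 hy1
              · exact VB.bx10 r n0 n1 a e1 (by linarith) hy0 hy1
  linarith

/-- Flats of a slot of an open node. -/
theorem VNB_holds : VNB := VNB_of VNB7_holds

end Pool.Agent.S5
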