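import Pool.Agent.S5.I.VQe

/-!
# The payments of the open nodes: the statements with the table
-/

set_option autoImplicit false

namespace Pool.Agent.S5

open Pool.Agent.H63.VC3 Pool.Agent.S3 Complex Set

theorem Slp.sl {S : Bool} {n x : Nt} {pc : Pc} {ys vs y v : ℂ} {w d h : ℝ}
    (hd : dT S n x pc = -d) (hh : -hT S n x pc ≤ h) (k : Slp d h pc ys vs y v w < 0) :
    Es ys vs y v + slE S n x pc (ly 2 ys vs) ys y w < 0 := by
  unfold slE
  unfold Slp at k
  rw [hd]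
  linarith

/-- The nodes with `a ≥ 5` receive nothing on the standard pieces. -/
theorem r0_big {S : Bool} {n x : Nt} {pc : Pc} (h : 5 ≤ n.a) (hp : pc.std) : r0 S n x pc = 0 := by
  obtain ⟨a, e⟩ := n
  have h' : 5 ≤ a := h
  have h2 : a ≠ 2 := by omega
  have h3 : a ≠ 3 := by omega
  have h4 : a ≠ 4 := by omega
  cases pc <;> first
    | exact absurd hp id
    | simp [r0, h2, h3, h4]

theorem d0_big {S : Bool} {n x : Nt} {pc : Pc} (h : 5 ≤ n.a) (hp : pc.std) : d0 S n x pc = 0 := by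
  obtain ⟨a, e⟩ := n
  have h' : 5 ≤ a := h
  have h2 : a ≠ 2 := by omega
  have h3 : a ≠ 3 := by omega
  have h4 : a ≠ 4 := by omega
  cases pc <;> first
    | exact absurd hp id
    | simp [d0, h2, h3, h4]

theorem hT_big {S : Bool} {n x : Nt} {pc : Pc} (h : 5 ≤ n.a) (hp : pc.std) :
    -hT S n x pc = (r0 S x n pc : ℝ) / 100 := by
  have hm : pc.mir = pc := by
    cases pc <;> first
      | rfl
      | exact absurd hp id
  unfold hT
  rw [r0_big h hp, hm]
  push_cast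
  ring

theorem dT_big {S : Bool} {n x : Nt} {pc : Pc} (h : 5 ≤ n.a) (hp : pc.std) :
    dT S n x pc = -(d0 S x n pc : ℝ) := by
  have hm : pc.mir = pc := by
    cases pc <;> first
      | rfl
      | exact absurd hp id
  unfold dT
  rw [d0_big h hp, hm]
  push_cast
  ring

/-- The paid pieces, `x = ⟨2, true⟩`. -/
theorem VC2.sl {S : Bool} {n : Nt} {pc : Pc} {ys vs y v : ℂ} {w : ℝ} (hn : 5 ≤ n.a)
    (hU : VU ys vs) (hC : VC2 ys vs)
    (hp : pc = .p ∨ pc = .P ∨ pc = .u ∨ pc = .L ∨ pc = .t)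
    (hy : pc.In (3 / 20) ys.im y w) (hv : Vq vs v) :
    Es ys vs y v + slE S n ⟨2, true⟩ pc (ly 2 ys vs) ys y w < 0 := by
  have hB := B2.of hU hC
  have h5 : 5 ≤ n.a := by omega
  obtain ⟨a, e⟩ := n
  have h6 : 5 ≤ a := hn
  have h7 : 5 ≤ a := by omega
  have h2 : a ≠ 2 := by omega
  have h3 : a ≠ 3 := by omega
  have h4 : a ≠ 4 := by omega
  rcases hp with rfl | rfl | rfl | rfl | rfl
  · refine Slp.sl (d := 0) (h := 24 / 100) ?_ ?_ (hC.p hU hB hy hv)
    · rw [dT_big (pc := .p) h5 trivial]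
      norm_num [d0, h2, h3, h4, h6, h7]
    · rw [hT_big (pc := .p) h5 trivial]
      norm_num [r0, h2, h3, h4, h6, h7]
  · refine Slp.sl (d := 0) (h := 24 / 100) ?_ ?_ (hC.P hU hB hy hv)
    · rw [dT_big (pc := .P) h5 trivial]
      norm_num [d0, h2, h3, h4, h6, h7]
    · rw [hT_big (pc := .P) h5 trivial]
      norm_num [r0, h2, h3, h4, h6, h7]
  · refine Slp.sl (d := 0) (h := 24 / 100) ?_ ?_ (hC.u hU hB hy hv)
    · rw [dT_big (pc := .u) h5 trivial]
      norm_num [d0, h2, h3, h4, h6, h7]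
    · rw [hT_big (pc := .u) h5 trivial]
      norm_num [r0, h2, h3, h4, h6, h7]
  · refine Slp.sl (d := 0) (h := 24 / 100) ?_ ?_ (hC.L hU hB hy hv)
    · rw [dT_big (pc := .L) h5 trivial]
      norm_num [d0, h2, h3, h4, h6, h7]
    · rw [hT_big (pc := .L) h5 trivial]
      norm_num [r0, h2, h3, h4, h6, h7]
  · refine Slp.sl (d := 0) (h := 13 / 100) ?_ ?_ (hC.t hU hB hy hv)
    · rw [dT_big (pc := .t) h5 trivial]
      norm_num [d0, h2, h3, h4, h6, h7]
    · rw [hT_big (pc := .t) h5 trivial]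
      norm_num [r0, h2, h3, h4, h6, h7]

/-- The other pieces, `x = ⟨2, true⟩`: natural share, no payment. -/
theorem VC2.rest {S : Bool} {n : Nt} {pc : Pc} (hn : 5 ≤ n.a) (hs : pc.std)
    (hp : ¬(pc = .p ∨ pc = .P ∨ pc = .u ∨ pc = .L ∨ pc = .t)) : dT S n ⟨2, true⟩ pc = 0 ∧ hT S n ⟨2, true⟩ pc = 0 := by
  have h5 : 5 ≤ n.a := by omega
  have e1 := dT_big (S := S) (x := ⟨2, true⟩) h5 hs
  have e2 := hT_big (S := S) (x := ⟨2, true⟩) h5 hs
  obtain ⟨a, e⟩ := n
  have h6 : 5 ≤ a := hn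
  have h7 : 5 ≤ a := by omega
  have h2 : a ≠ 2 := by omega
  have h3 : a ≠ 3 := by omega
  have h4 : a ≠ 4 := by omega
  cases pc <;> first
    | exact absurd hs id
    | (exfalso; apply hp; simp; done)
    | (constructor
       · rw [e1]
         norm_num [d0, h2, h3, h4, h6, h7]
       · rw [← neg_eq_zero, e2]
         norm_num [r0, h2, h3, h4, h6, h7])

/-- The paid pieces, `x = ⟨3, true⟩`. -/
theorem VC3a.sl {n : Nt} {pc : Pc} {ys vs y v : ℂ} {w : ℝ} (hn : 5 ≤ n.a)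
    (hU : VU ys vs) (hC : VC3a ys vs)
    (hp : pc = .p ∨ pc = .P ∨ pc = .u ∨ pc = .U ∨ pc = .L ∨ pc = .G ∨ pc = .H ∨ pc = .t)
    (hy : pc.In (3 / 20) ys.im y w) (hv : Vq vs v) :
    Es ys vs y v + slE false n ⟨3, true⟩ pc (ly 2 ys vs) ys y w < 0 := by
  have hB := B3a.of hU hC
  have h5 : 5 ≤ n.a := by omega
  obtain ⟨a, e⟩ := n
  have h6 : 5 ≤ a := hn
  have h7 : 5 ≤ a := by omega
  have h2 : a ≠ 2 := by omega
  have h3 : a ≠ 3 := by omega
  have h4 : a ≠ 4 := by omega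
  rcases hp with rfl | rfl | rfl | rfl | rfl | rfl | rfl | rfl
  · refine Slp.sl (d := 1) (h := 5 / 100) ?_ ?_ (hC.p hU hB hy hv)
    · rw [dT_big (pc := .p) h5 trivial]
      norm_num [d0, h2, h3, h4, h6, h7]
    · rw [hT_big (pc := .p) h5 trivial]
      norm_num [r0, h2, h3, h4, h6, h7]
  · refine Slp.sl (d := 1) (h := 5 / 100) ?_ ?_ (hC.P hU hB hy hv)
    · rw [dT_big (pc := .P) h5 trivial]
      norm_num [d0, h2, h3, h4, h6, h7]
    · rw [hT_big (pc := .P) h5 trivial]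
      norm_num [r0, h2, h3, h4, h6, h7]
  · refine Slp.sl (d := 1) (h := 5 / 100) ?_ ?_ (hC.u hU hB hy hv)
    · rw [dT_big (pc := .u) h5 trivial]
      norm_num [d0, h2, h3, h4, h6, h7]
    · rw [hT_big (pc := .u) h5 trivial]
      norm_num [r0, h2, h3, h4, h6, h7]
  · refine Slp.sl (d := 1) (h := 0) ?_ ?_ (hC.U hU hB hy hv)
    · rw [dT_big (pc := .U) h5 trivial]
      norm_num [d0, h2, h3, h4, h6, h7]
    · rw [hT_big (pc := .U) h5 trivial]
      norm_num [r0, h2, h3, h4, h6, h7]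
  · refine Slp.sl (d := 1) (h := 5 / 100) ?_ ?_ (hC.L hU hB hy hv)
    · rw [dT_big (pc := .L) h5 trivial]
      norm_num [d0, h2, h3, h4, h6, h7]
    · rw [hT_big (pc := .L) h5 trivial]
      norm_num [r0, h2, h3, h4, h6, h7]
  · refine Slp.sl (d := 1) (h := 5 / 100) ?_ ?_ (hC.G hU hB hy hv)
    · rw [dT_big (pc := .G) h5 trivial]
      norm_num [d0, h2, h3, h4, h6, h7]
    · rw [hT_big (pc := .G) h5 trivial]
      norm_num [r0, h2, h3, h4, h6, h7]
  · refine Slp.sl (d := 1) (h := 0) ?_ ?_ (hC.H hU hB hy hv)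
    · rw [dT_big (pc := .H) h5 trivial]
      norm_num [d0, h2, h3, h4, h6, h7]
    · rw [hT_big (pc := .H) h5 trivial]
      norm_num [r0, h2, h3, h4, h6, h7]
  · refine Slp.sl (d := 0) (h := 5 / 100) ?_ ?_ (hC.t hU hB hy hv)
    · rw [dT_big (pc := .t) h5 trivial]
      norm_num [d0, h2, h3, h4, h6, h7]
    · rw [hT_big (pc := .t) h5 trivial]
      norm_num [r0, h2, h3, h4, h6, h7]

/-- The other pieces, `x = ⟨3, true⟩`: natural share, no payment. -/
theorem VC3a.rest {n : Nt} {pc : Pc} (hn : 5 ≤ n.a) (hs : pc.std)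
    (hp : ¬(pc = .p ∨ pc = .P ∨ pc = .u ∨ pc = .U ∨ pc = .L ∨ pc = .G ∨ pc = .H ∨ pc = .t)) : dT false n ⟨3, true⟩ pc = 0 ∧ hT false n ⟨3, true⟩ pc = 0 := by
  have h5 : 5 ≤ n.a := by omega
  have e1 := dT_big (S := false) (x := ⟨3, true⟩) h5 hs
  have e2 := hT_big (S := false) (x := ⟨3, true⟩) h5 hs
  obtain ⟨a, e⟩ := n
  have h6 : 5 ≤ a := hn
  have h7 : 5 ≤ a := by omega
  have h2 : a ≠ 2 := by omega
  have h3 : a ≠ 3 := by omega
  have h4 : a ≠ 4 := by omega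
  cases pc <;> first
    | exact absurd hs id
    | (exfalso; apply hp; simp; done)
    | (constructor
       · rw [e1]
         norm_num [d0, h2, h3, h4, h6, h7]
       · rw [← neg_eq_zero, e2]
         norm_num [r0, h2, h3, h4, h6, h7])

/-- The paid pieces, `x = ⟨3, true⟩`. -/
theorem VC3s.sl {n : Nt} {pc : Pc} {ys vs y v : ℂ} {w : ℝ} (hn : 5 ≤ n.a)
    (hU : VU ys vs) (hC : VC3s ys vs)
    (hp : pc = .p ∨ pc = .P ∨ pc = .u ∨ pc = .U ∨ pc = .L ∨ pc = .G ∨ pc = .H ∨ pc = .t)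
    (hy : pc.In (3 / 20) ys.im y w) (hv : Vq vs v) :
    Es ys vs y v + slE true n ⟨3, true⟩ pc (ly 2 ys vs) ys y w < 0 := by
  have hB := B3s.of hU hC
  have h5 : 5 ≤ n.a := by omega
  obtain ⟨a, e⟩ := n
  have h6 : 5 ≤ a := hn
  have h7 : 5 ≤ a := by omega
  have h2 : a ≠ 2 := by omega
  have h3 : a ≠ 3 := by omega
  have h4 : a ≠ 4 := by omega
  rcases hp with rfl | rfl | rfl | rfl | rfl | rfl | rfl | rfl
  · refine Slp.sl (d := 1) (h := 5 / 100) ?_ ?_ (hC.p hU hB hy hv)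
    · rw [dT_big (pc := .p) h5 trivial]
      norm_num [d0, h2, h3, h4, h6, h7]
    · rw [hT_big (pc := .p) h5 trivial]
      norm_num [r0, h2, h3, h4, h6, h7]
  · refine Slp.sl (d := 1) (h := 5 / 100) ?_ ?_ (hC.P hU hB hy hv)
    · rw [dT_big (pc := .P) h5 trivial]
      norm_num [d0, h2, h3, h4, h6, h7]
    · rw [hT_big (pc := .P) h5 trivial]
      norm_num [r0, h2, h3, h4, h6, h7]
  · refine Slp.sl (d := 1) (h := 5 / 100) ?_ ?_ (hC.u hU hB hy hv)
    · rw [dT_big (pc := .u) h5 trivial]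
      norm_num [d0, h2, h3, h4, h6, h7]
    · rw [hT_big (pc := .u) h5 trivial]
      norm_num [r0, h2, h3, h4, h6, h7]
  · refine Slp.sl (d := 1) (h := 0) ?_ ?_ (hC.U hU hB hy hv)
    · rw [dT_big (pc := .U) h5 trivial]
      norm_num [d0, h2, h3, h4, h6, h7]
    · rw [hT_big (pc := .U) h5 trivial]
      norm_num [r0, h2, h3, h4, h6, h7]
  · refine Slp.sl (d := 1) (h := 5 / 100) ?_ ?_ (hC.L hU hB hy hv)
    · rw [dT_big (pc := .L) h5 trivial]
      norm_num [d0, h2, h3, h4, h6, h7]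
    · rw [hT_big (pc := .L) h5 trivial]
      norm_num [r0, h2, h3, h4, h6, h7]
  · refine Slp.sl (d := 1) (h := 5 / 100) ?_ ?_ (hC.G hU hB hy hv)
    · rw [dT_big (pc := .G) h5 trivial]
      norm_num [d0, h2, h3, h4, h6, h7]
    · rw [hT_big (pc := .G) h5 trivial]
      norm_num [r0, h2, h3, h4, h6, h7]
  · refine Slp.sl (d := 1) (h := 0) ?_ ?_ (hC.H hU hB hy hv)
    · rw [dT_big (pc := .H) h5 trivial]
      norm_num [d0, h2, h3, h4, h6, h7]
    · rw [hT_big (pc := .H) h5 trivial]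
      norm_num [r0, h2, h3, h4, h6, h7]
  · refine Slp.sl (d := 0) (h := 5 / 100) ?_ ?_ (hC.t hU hB hy hv)
    · rw [dT_big (pc := .t) h5 trivial]
      norm_num [d0, h2, h3, h4, h6, h7]
    · rw [hT_big (pc := .t) h5 trivial]
      norm_num [r0, h2, h3, h4, h6, h7]

/-- The other pieces, `x = ⟨3, true⟩`: natural share, no payment. -/
theorem VC3s.rest {n : Nt} {pc : Pc} (hn : 5 ≤ n.a) (hs : pc.std)
    (hp : ¬(pc = .p ∨ pc = .P ∨ pc = .u ∨ pc = .U ∨ pc = .L ∨ pc = .G ∨ pc = .H ∨ pc = .t)) : dT true n ⟨3, true⟩ pc = 0 ∧ hT true n ⟨3, true⟩ pc = 0 := by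
  have h5 : 5 ≤ n.a := by omega
  have e1 := dT_big (S := true) (x := ⟨3, true⟩) h5 hs
  have e2 := hT_big (S := true) (x := ⟨3, true⟩) h5 hs
  obtain ⟨a, e⟩ := n
  have h6 : 5 ≤ a := hn
  have h7 : 5 ≤ a := by omega
  have h2 : a ≠ 2 := by omega
  have h3 : a ≠ 3 := by omega
  have h4 : a ≠ 4 := by omega
  cases pc <;> first
    | exact absurd hs id
    | (exfalso; apply hp; simp; done)
    | (constructor
       · rw [e1]
         norm_num [d0, h2, h3, h4, h6, h7]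
       · rw [← neg_eq_zero, e2]
         norm_num [r0, h2, h3, h4, h6, h7])

/-- The paid pieces, `x = ⟨4, true⟩`. -/
theorem VC4.sl {S : Bool} {n : Nt} {pc : Pc} {ys vs y v : ℂ} {w : ℝ} (hn : 6 ≤ n.a)
    (hU : VU ys vs) (hC : VC4 ys vs)
    (hp : pc = .p ∨ pc = .P ∨ pc = .u ∨ pc = .L ∨ pc = .G ∨ pc = .t)
    (hy : pc.In (3 / 20) ys.im y w) (hv : Vq vs v) :
    Es ys vs y v + slE S n ⟨4, true⟩ pc (ly 2 ys vs) ys y w < 0 := by
  have hB := B4.of hU hC
  have h5 : 5 ≤ n.a := by omega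
  obtain ⟨a, e⟩ := n
  have h6 : 6 ≤ a := hn
  have h7 : 5 ≤ a := by omega
  have h2 : a ≠ 2 := by omega
  have h3 : a ≠ 3 := by omega
  have h4 : a ≠ 4 := by omega
  rcases hp with rfl | rfl | rfl | rfl | rfl | rfl
  · refine Slp.sl (d := 0) (h := 15 / 100) ?_ ?_ (hC.p hU hB hy hv)
    · rw [dT_big (pc := .p) h5 trivial]
      norm_num [d0, h2, h3, h4, h6, h7]
    · rw [hT_big (pc := .p) h5 trivial]
      norm_num [r0, h2, h3, h4, h6, h7]
  · refine Slp.sl (d := 0) (h := 15 / 100) ?_ ?_ (hC.P hU hB hy hv)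
    · rw [dT_big (pc := .P) h5 trivial]
      norm_num [d0, h2, h3, h4, h6, h7]
    · rw [hT_big (pc := .P) h5 trivial]
      norm_num [r0, h2, h3, h4, h6, h7]
  · refine Slp.sl (d := 0) (h := 15 / 100) ?_ ?_ (hC.u hU hB hy hv)
    · rw [dT_big (pc := .u) h5 trivial]
      norm_num [d0, h2, h3, h4, h6, h7]
    · rw [hT_big (pc := .u) h5 trivial]
      norm_num [r0, h2, h3, h4, h6, h7]
  · refine Slp.sl (d := 0) (h := 15 / 100) ?_ ?_ (hC.L hU hB hy hv)
    · rw [dT_big (pc := .L) h5 trivial]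
      norm_num [d0, h2, h3, h4, h6, h7]
    · rw [hT_big (pc := .L) h5 trivial]
      norm_num [r0, h2, h3, h4, h6, h7]
  · refine Slp.sl (d := 0) (h := 8 / 100) ?_ ?_ (hC.G hU hB hy hv)
    · rw [dT_big (pc := .G) h5 trivial]
      norm_num [d0, h2, h3, h4, h6, h7]
    · rw [hT_big (pc := .G) h5 trivial]
      norm_num [r0, h2, h3, h4, h6, h7]
  · refine Slp.sl (d := 0) (h := 4 / 100) ?_ ?_ (hC.t hU hB hy hv)
    · rw [dT_big (pc := .t) h5 trivial]
      norm_num [d0, h2, h3, h4, h6, h7]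
    · rw [hT_big (pc := .t) h5 trivial]
      norm_num [r0, h2, h3, h4, h6, h7]

/-- The other pieces, `x = ⟨4, true⟩`: natural share, no payment. -/
theorem VC4.rest {S : Bool} {n : Nt} {pc : Pc} (hn : 6 ≤ n.a) (hs : pc.std)
    (hp : ¬(pc = .p ∨ pc = .P ∨ pc = .u ∨ pc = .L ∨ pc = .G ∨ pc = .t)) : dT S n ⟨4, true⟩ pc = 0 ∧ hT S n ⟨4, true⟩ pc = 0 := by
  have h5 : 5 ≤ n.a := by omega
  have e1 := dT_big (S := S) (x := ⟨4, true⟩) h5 hs
  have e2 := hT_big (S := S) (x := ⟨4, true⟩) h5 hs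
  obtain ⟨a, e⟩ := n
  have h6 : 6 ≤ a := hn
  have h7 : 5 ≤ a := by omega
  have h2 : a ≠ 2 := by omega
  have h3 : a ≠ 3 := by omega
  have h4 : a ≠ 4 := by omega
  cases pc <;> first
    | exact absurd hs id
    | (exfalso; apply hp; simp; done)
    | (constructor
       · rw [e1]
         norm_num [d0, h2, h3, h4, h6, h7]
       · rw [← neg_eq_zero, e2]
         norm_num [r0, h2, h3, h4, h6, h7])

/-- The paid pieces, `x = ⟨3, false⟩`. -/
theorem VC5.sl {S : Bool} {n : Nt} {pc : Pc} {ys vs y v : ℂ} {w : ℝ} (hn : 6 ≤ n.a)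
    (hU : VU ys vs) (hC : VC5 ys vs)
    (hp : pc = .p ∨ pc = .P ∨ pc = .u ∨ pc = .L ∨ pc = .t)
    (hy : pc.In (3 / 20) ys.im y w) (hv : Vq vs v) :
    Es ys vs y v + slE S n ⟨3, false⟩ pc (ly 2 ys vs) ys y w < 0 := by
  have hB := B5.of hU hC
  have h5 : 5 ≤ n.a := by omega
  obtain ⟨a, e⟩ := n
  have h6 : 6 ≤ a := hn
  have h7 : 5 ≤ a := by omega
  have h2 : a ≠ 2 := by omega
  have h3 : a ≠ 3 := by omega
  have h4 : a ≠ 4 := by omega
  rcases hp with rfl | rfl | rfl | rfl | rfl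
  · refine Slp.sl (d := 0) (h := 3 / 100) ?_ ?_ (hC.p hU hB hy hv)
    · rw [dT_big (pc := .p) h5 trivial]
      norm_num [d0, h2, h3, h4, h6, h7]
    · rw [hT_big (pc := .p) h5 trivial]
      norm_num [r0, h2, h3, h4, h6, h7]
  · refine Slp.sl (d := 0) (h := 3 / 100) ?_ ?_ (hC.P hU hB hy hv)
    · rw [dT_big (pc := .P) h5 trivial]
      norm_num [d0, h2, h3, h4, h6, h7]
    · rw [hT_big (pc := .P) h5 trivial]
      norm_num [r0, h2, h3, h4, h6, h7]
  · refine Slp.sl (d := 0) (h := 3 / 100) ?_ ?_ (hC.u hU hB hy hv)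
    · rw [dT_big (pc := .u) h5 trivial]
      norm_num [d0, h2, h3, h4, h6, h7]
    · rw [hT_big (pc := .u) h5 trivial]
      norm_num [r0, h2, h3, h4, h6, h7]
  · refine Slp.sl (d := 0) (h := 3 / 100) ?_ ?_ (hC.L hU hB hy hv)
    · rw [dT_big (pc := .L) h5 trivial]
      norm_num [d0, h2, h3, h4, h6, h7]
    · rw [hT_big (pc := .L) h5 trivial]
      norm_num [r0, h2, h3, h4, h6, h7]
  · refine Slp.sl (d := 0) (h := 3 / 100) ?_ ?_ (hC.t hU hB hy hv)
    · rw [dT_big (pc := .t) h5 trivial]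
      norm_num [d0, h2, h3, h4, h6, h7]
    · rw [hT_big (pc := .t) h5 trivial]
      norm_num [r0, h2, h3, h4, h6, h7]

/-- The other pieces, `x = ⟨3, false⟩`: natural share, no payment. -/
theorem VC5.rest {S : Bool} {n : Nt} {pc : Pc} (hn : 6 ≤ n.a) (hs : pc.std)
    (hp : ¬(pc = .p ∨ pc = .P ∨ pc = .u ∨ pc = .L ∨ pc = .t)) : dT S n ⟨3, false⟩ pc = 0 ∧ hT S n ⟨3, false⟩ pc = 0 := by
  have h5 : 5 ≤ n.a := by omega
  have e1 := dT_big (S := S) (x := ⟨3, false⟩) h5 hs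
  have e2 := hT_big (S := S) (x := ⟨3, false⟩) h5 hs
  obtain ⟨a, e⟩ := n
  have h6 : 6 ≤ a := hn
  have h7 : 5 ≤ a := by omega
  have h2 : a ≠ 2 := by omega
  have h3 : a ≠ 3 := by omega
  have h4 : a ≠ 4 := by omega
  cases pc <;> first
    | exact absurd hs id
    | (exfalso; apply hp; simp; done)
    | (constructor
       · rw [e1]
         norm_num [d0, h2, h3, h4, h6, h7]
       · rw [← neg_eq_zero, e2]
         norm_num [r0, h2, h3, h4, h6, h7])

/-- The neighbours without payments on standard pieces. -/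
theorem none.rest {S : Bool} {n x : Nt} {pc : Pc} (hn : 5 ≤ n.a) (hs : pc.std)
    (h2 : x ≠ ⟨2, true⟩) (h3 : x ≠ ⟨3, true⟩) (h4 : x = ⟨4, true⟩ → n.a < 6)
    (h5 : x = ⟨3, false⟩ → n.a < 6) : dT S n x pc = 0 ∧ hT S n x pc = 0 := by
  have e1 := dT_big (S := S) (x := x) hn hs
  have e2 := hT_big (S := S) (x := x) hn hs
  obtain ⟨a, e⟩ := n
  have h7 : 5 ≤ a := hn
  have k2 : a ≠ 2 := by omega
  have k3 : a ≠ 3 := by omega
  have k4 : a ≠ 4 := by omega
  have g4 : x = ⟨4, true⟩ → ¬(6 ≤ a) := fun h => by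
    have := h4 h
    simp only at this
    omega
  have g5 : x = ⟨3, false⟩ → ¬(6 ≤ a) := fun h => by
    have := h5 h
    simp only at this
    omega
  by_cases c4 : x = ⟨4, true⟩
  · have g6 := g4 c4
    subst c4
    cases pc <;> first
      | exact absurd hs id
      | (constructor
         · rw [e1]
           norm_num [d0, k2, k3, k4, h7, g6]
         · rw [← neg_eq_zero, e2]
           norm_num [r0, k2, k3, k4, h7, g6])
  by_cases c5 : x = ⟨3, false⟩
  · have g6 := g5 c5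
    subst c5
    cases pc <;> first
      | exact absurd hs id
      | (constructor
         · rw [e1]
           norm_num [d0, k2, k3, k4, h7, g6]
         · rw [← neg_eq_zero, e2]
           norm_num [r0, k2, k3, k4, h7, g6])
  cases pc <;> first
    | exact absurd hs id
    | (constructor
       · rw [e1]
         norm_num [d0, k2, k3, k4, h7, h2, h3, c4, c5]
       · rw [← neg_eq_zero, e2]
         norm_num [r0, k2, k3, k4, h7, h2, h3, c4, c5])

end Pool.Agent.S5
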