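import Pool.Agent.S5.I.VZn

/-!
# The slots of the open nodes: the left leg, rows
-/

set_option autoImplicit false

namespace Pool.Agent.S5

open Pool.Agent.H63.VC3 Pool.Agent.S3 Complex Tb

namespace VZ

theorem k_lpf0_0 :
    bb (tst 2 113238 0 0 0 358613 0 0 0 2034237 0 8388608) 60
      96000 96000 102400 103680 95232 109568 102400 103424 = true := by
  decide +kernel

theorem lpf0_0 {ys vs y v : ℂ} (hU : VU ys vs) (B : B1N ys vs) (N : NAll ys vs) (e0 : 0 ≤ ys.im) (e1 : ys.im ≤ 1 / 10) (n0 : 0 ≤ vs.im) (n1 : vs.im ≤ 1 / 25)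
    (hx : y.re = -(1 / 4)) (m : y.im ≤ ys.im) (a0 : 0 ≤ y.im) (a1 : y.im ≤ 1 / 20) (hv : v.im = vs.im) (b0 : -(7 / 25) ≤ v.re) (b1 : v.re ≤ 7 / 25) :
    SS y v + Phi ys vs y.re y.im v.re < 0 := by
  have h := bb_sound tab_ok k_lpf0_0 (y := y) (v := v) ⟨by rw [hx]; norm_num, by rw [hx]; norm_num⟩
    ⟨by norm_num; linarith only [a0], by norm_num; linarith only [a1]⟩
    ⟨by norm_num; linarith only [b0], by norm_num; linarith only [b1]⟩
    ⟨by norm_num; linarith only [hv, n0], by norm_num; linarith only [hv, n1]⟩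
  have hB := B.n0 n1
  rw [b1v_eq_Phi] at hB
  have hP := Phi_s (ys := ys) (vs := vs) (X := -(1 / 4)) (u := 7 / 25) (s0 := 0) (s1 := 1 / 20)
    (c0 := -113238 - 2034237 * vs.im + 8 * 7 / 25 * 1048576 * vs.im) (c2 := -358613)
    (by linarith only [hB, n0])
    (by linarith only [N.lp0_10 (by linarith) (by linarith) (by linarith) (by linarith), n0]) a0 a1
  have hu := Phi_u hU (X := -(1 / 4)) (s := y.im) b1
  push_cast at h
  rw [hx] at h ⊢
  rw [hv] at h
  unfold SS
  linarith only [h, hu, hP]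

theorem k_lpf0_1 :
    bb (tst 2 45814 0 0 0 1707082 0 0 0 1142948 0 8388608) 60
      96000 96000 103680 104960 95232 109568 102400 103424 = true := by
  decide +kernel

theorem lpf0_1 {ys vs y v : ℂ} (hU : VU ys vs) (B : B1N ys vs) (N : NAll ys vs) (e0 : 0 ≤ ys.im) (e1 : ys.im ≤ 1 / 10) (n0 : 0 ≤ vs.im) (n1 : vs.im ≤ 1 / 25)
    (hx : y.re = -(1 / 4)) (m : y.im ≤ ys.im) (a0 : 1 / 20 ≤ y.im) (a1 : y.im ≤ 1 / 10) (hv : v.im = vs.im) (b0 : -(7 / 25) ≤ v.re) (b1 : v.re ≤ 7 / 25) :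
    SS y v + Phi ys vs y.re y.im v.re < 0 := by
  have h := bb_sound tab_ok k_lpf0_1 (y := y) (v := v) ⟨by rw [hx]; norm_num, by rw [hx]; norm_num⟩
    ⟨by norm_num; linarith only [a0], by norm_num; linarith only [m, e1]⟩
    ⟨by norm_num; linarith only [b0], by norm_num; linarith only [b1]⟩
    ⟨by norm_num; linarith only [hv, n0], by norm_num; linarith only [hv, n1]⟩
  have hP := Phi_s (ys := ys) (vs := vs) (X := -(1 / 4)) (u := 7 / 25) (s0 := 1 / 20) (s1 := 1 / 10)
    (c0 := -45814 - 1142948 * vs.im + 8 * 7 / 25 * 1048576 * vs.im) (c2 := -1707082)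
    (by linarith only [N.lp0_10 (by linarith) (by linarith) (by linarith) (by linarith), n0])
    (by linarith only [N.lp0_20 (by linarith) (by linarith) (by linarith) (by linarith), n1]) a0 a1
  have hu := Phi_u hU (X := -(1 / 4)) (s := y.im) b1
  push_cast at h
  rw [hx] at h ⊢
  rw [hv] at h
  unfold SS
  linarith only [h, hu, hP]

theorem k_lnf0_0 :
    bb (tst 2 113238 0 0 0 0 689064 0 0 2977956 0 8388608) 60
      96000 96000 101504 102400 95232 109568 102400 103424 = true := by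
  decide +kernel

theorem lnf0_0 {ys vs y v : ℂ} (hU : VU ys vs) (B : B1N ys vs) (N : NAll ys vs) (e0 : -(13 / 100) ≤ ys.im) (e1 : ys.im ≤ 0) (n0 : 0 ≤ vs.im) (n1 : vs.im ≤ 1 / 25)
    (hx : y.re = -(1 / 4)) (m : ys.im ≤ y.im) (a0 : -(7 / 200) ≤ y.im) (a1 : y.im ≤ 0) (hv : v.im = vs.im) (b0 : -(7 / 25) ≤ v.re) (b1 : v.re ≤ 7 / 25) :
    SS y v + Phi ys vs y.re y.im v.re < 0 := by
  have h := bb_sound tab_ok k_lnf0_0 (y := y) (v := v) ⟨by rw [hx]; norm_num, by rw [hx]; norm_num⟩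
    ⟨by norm_num; linarith only [a0], by norm_num; linarith only [a1]⟩
    ⟨by norm_num; linarith only [b0], by norm_num; linarith only [b1]⟩
    ⟨by norm_num; linarith only [hv, n0], by norm_num; linarith only [hv, n1]⟩
  have hB := B.n0 n1
  rw [b1v_eq_Phi] at hB
  have hP := Phi_s (ys := ys) (vs := vs) (X := -(1 / 4)) (u := 7 / 25) (s0 := -(7 / 200)) (s1 := 0)
    (c0 := -113238 - 2977956 * vs.im + 8 * 7 / 25 * 1048576 * vs.im) (c2 := 689064)
    (by linarith only [N.ln0_7 (by linarith) (by linarith) (by linarith) (by linarith), n0])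
    (by linarith only [hB, n1]) a0 a1
  have hu := Phi_u hU (X := -(1 / 4)) (s := y.im) b1
  push_cast at h
  rw [hx] at h ⊢
  rw [hv] at h
  unfold SS
  linarith only [h, hu, hP]

theorem k_lnf0_1 :
    bb (tst 2 68673 0 0 0 0 1602823 0 0 3449815 0 8388608) 60
      96000 96000 100608 101504 95232 109568 102400 103424 = true := by
  decide +kernel

theorem lnf0_1 {ys vs y v : ℂ} (hU : VU ys vs) (B : B1N ys vs) (N : NAll ys vs) (e0 : -(13 / 100) ≤ ys.im) (e1 : ys.im ≤ 0) (n0 : 0 ≤ vs.im) (n1 : vs.im ≤ 1 / 25)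
    (hx : y.re = -(1 / 4)) (m : ys.im ≤ y.im) (a0 : -(7 / 100) ≤ y.im) (a1 : y.im ≤ -(7 / 200)) (hv : v.im = vs.im) (b0 : -(7 / 25) ≤ v.re) (b1 : v.re ≤ 7 / 25) :
    SS y v + Phi ys vs y.re y.im v.re < 0 := by
  have h := bb_sound tab_ok k_lnf0_1 (y := y) (v := v) ⟨by rw [hx]; norm_num, by rw [hx]; norm_num⟩
    ⟨by norm_num; linarith only [a0], by norm_num; linarith only [a1]⟩
    ⟨by norm_num; linarith only [b0], by norm_num; linarith only [b1]⟩
    ⟨by norm_num; linarith only [hv, n0], by norm_num; linarith only [hv, n1]⟩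
  have hP := Phi_s (ys := ys) (vs := vs) (X := -(1 / 4)) (u := 7 / 25) (s0 := -(7 / 100)) (s1 := -(7 / 200))
    (c0 := -68673 - 3449815 * vs.im + 8 * 7 / 25 * 1048576 * vs.im) (c2 := 1602823)
    (by linarith only [N.ln0_14 (by linarith) (by linarith) (by linarith) (by linarith), n0])
    (by linarith only [N.ln0_7 (by linarith) (by linarith) (by linarith) (by linarith), n1]) a0 a1
  have hu := Phi_u hU (X := -(1 / 4)) (s := y.im) b1
  push_cast at h
  rw [hx] at h ⊢
  rw [hv] at h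
  unfold SS
  linarith only [h, hu, hP]

theorem k_lnf0_2 :
    bb (tst 2 0 30802 0 0 0 2754260 0 0 4236247 0 8388608) 60
      96000 96000 99840 100608 95232 109568 102400 103424 = true := by
  decide +kernel

theorem lnf0_2 {ys vs y v : ℂ} (hU : VU ys vs) (B : B1N ys vs) (N : NAll ys vs) (e0 : -(13 / 100) ≤ ys.im) (e1 : ys.im ≤ 0) (n0 : 0 ≤ vs.im) (n1 : vs.im ≤ 1 / 25)
    (hx : y.re = -(1 / 4)) (m : ys.im ≤ y.im) (a0 : -(1 / 10) ≤ y.im) (a1 : y.im ≤ -(7 / 100)) (hv : v.im = vs.im) (b0 : -(7 / 25) ≤ v.re) (b1 : v.re ≤ 7 / 25) :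
    SS y v + Phi ys vs y.re y.im v.re < 0 := by
  have h := bb_sound tab_ok k_lnf0_2 (y := y) (v := v) ⟨by rw [hx]; norm_num, by rw [hx]; norm_num⟩
    ⟨by norm_num; linarith only [a0], by norm_num; linarith only [a1]⟩
    ⟨by norm_num; linarith only [b0], by norm_num; linarith only [b1]⟩
    ⟨by norm_num; linarith only [hv, n0], by norm_num; linarith only [hv, n1]⟩
  have hP := Phi_s (ys := ys) (vs := vs) (X := -(1 / 4)) (u := 7 / 25) (s0 := -(1 / 10)) (s1 := -(7 / 100))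
    (c0 := 30802 - 4236247 * vs.im + 8 * 7 / 25 * 1048576 * vs.im) (c2 := 2754260)
    (by linarith only [N.ln0_20 (by linarith) (by linarith) (by linarith) (by linarith), n0])
    (by linarith only [N.ln0_14 (by linarith) (by linarith) (by linarith) (by linarith), n1]) a0 a1
  have hu := Phi_u hU (X := -(1 / 4)) (s := y.im) b1
  push_cast at h
  rw [hx] at h ⊢
  rw [hv] at h
  unfold SS
  linarith only [h, hu, hP]

theorem k_lnf0_3 :
    bb (tst 2 64793 0 0 0 0 1798308 0 0 4236247 0 8388608) 60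
      96000 96000 99328 99840 95232 109568 102400 103424 = true := by
  decide +kernel

theorem lnf0_3 {ys vs y v : ℂ} (hU : VU ys vs) (B : B1N ys vs) (N : NAll ys vs) (e0 : -(13 / 100) ≤ ys.im) (e1 : ys.im ≤ 0) (n0 : 0 ≤ vs.im) (n1 : vs.im ≤ 1 / 25)
    (hx : y.re = -(1 / 4)) (m : ys.im ≤ y.im) (a0 : -(3 / 25) ≤ y.im) (a1 : y.im ≤ -(1 / 10)) (hv : v.im = vs.im) (b0 : -(7 / 25) ≤ v.re) (b1 : v.re ≤ 7 / 25) :
    SS y v + Phi ys vs y.re y.im v.re < 0 := by
  have h := bb_sound tab_ok k_lnf0_3 (y := y) (v := v) ⟨by rw [hx]; norm_num, by rw [hx]; norm_num⟩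
    ⟨by norm_num; linarith only [a0], by norm_num; linarith only [a1]⟩
    ⟨by norm_num; linarith only [b0], by norm_num; linarith only [b1]⟩
    ⟨by norm_num; linarith only [hv, n0], by norm_num; linarith only [hv, n1]⟩
  have hP := Phi_s (ys := ys) (vs := vs) (X := -(1 / 4)) (u := 7 / 25) (s0 := -(3 / 25)) (s1 := -(1 / 10))
    (c0 := -64793 - 4236247 * vs.im + 8 * 7 / 25 * 1048576 * vs.im) (c2 := 1798308)
    (by linarith only [N.ln0_24 (by linarith) (by linarith) (by linarith) (by linarith), n0])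
    (by linarith only [N.ln0_20 (by linarith) (by linarith) (by linarith) (by linarith), n0]) a0 a1
  have hu := Phi_u hU (X := -(1 / 4)) (s := y.im) b1
  push_cast at h
  rw [hx] at h ⊢
  rw [hv] at h
  unfold SS
  linarith only [h, hu, hP]

theorem k_lnf0_4 :
    bb (tst 2 0 464318 0 0 0 6207570 0 0 7067402 0 8388608) 60
      96000 96000 99072 99328 95232 109568 102400 103424 = true := by
  decide +kernel

theorem lnf0_4 {ys vs y v : ℂ} (hU : VU ys vs) (B : B1N ys vs) (N : NAll ys vs) (e0 : -(13 / 100) ≤ ys.im) (e1 : ys.im ≤ 0) (n0 : 0 ≤ vs.im) (n1 : vs.im ≤ 1 / 25)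
    (hx : y.re = -(1 / 4)) (m : ys.im ≤ y.im) (a0 : -(13 / 100) ≤ y.im) (a1 : y.im ≤ -(3 / 25)) (hv : v.im = vs.im) (b0 : -(7 / 25) ≤ v.re) (b1 : v.re ≤ 7 / 25) :
    SS y v + Phi ys vs y.re y.im v.re < 0 := by
  have h := bb_sound tab_ok k_lnf0_4 (y := y) (v := v) ⟨by rw [hx]; norm_num, by rw [hx]; norm_num⟩
    ⟨by norm_num; linarith only [m, e0], by norm_num; linarith only [a1]⟩
    ⟨by norm_num; linarith only [b0], by norm_num; linarith only [b1]⟩
    ⟨by norm_num; linarith only [hv, n0], by norm_num; linarith only [hv, n1]⟩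
  have hP := Phi_s (ys := ys) (vs := vs) (X := -(1 / 4)) (u := 7 / 25) (s0 := -(13 / 100)) (s1 := -(3 / 25))
    (c0 := 464318 - 7067402 * vs.im + 8 * 7 / 25 * 1048576 * vs.im) (c2 := 6207570)
    (by linarith only [N.ln0_26 (by linarith) (by linarith) (by linarith) (by linarith), n1])
    (by linarith only [N.ln0_24 (by linarith) (by linarith) (by linarith) (by linarith), n0]) a0 a1
  have hu := Phi_u hU (X := -(1 / 4)) (s := y.im) b1
  push_cast at h
  rw [hx] at h ⊢
  rw [hv] at h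
  unfold SS
  linarith only [h, hu, hP]

theorem k_lpf1_0 :
    bb (tst 2 99606 0 0 0 0 579653 0 0 3376415 0 8388608) 60
      96000 96000 102400 103680 95232 109568 103424 104653 = true := by
  decide +kernel

theorem lpf1_0 {ys vs y v : ℂ} (hU : VU ys vs) (B : B1N ys vs) (N : NAll ys vs) (e0 : 0 ≤ ys.im) (e1 : ys.im ≤ 1 / 10) (n0 : 1 / 25 ≤ vs.im) (n1 : vs.im ≤ 11 / 125)
    (hx : y.re = -(1 / 4)) (m : y.im ≤ ys.im) (a0 : 0 ≤ y.im) (a1 : y.im ≤ 1 / 20) (hv : v.im = vs.im) (b0 : -(7 / 25) ≤ v.re) (b1 : v.re ≤ 7 / 25) :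
    SS y v + Phi ys vs y.re y.im v.re < 0 := by
  have h := bb_sound tab_ok k_lpf1_0 (y := y) (v := v) ⟨by rw [hx]; norm_num, by rw [hx]; norm_num⟩
    ⟨by norm_num; linarith only [a0], by norm_num; linarith only [a1]⟩
    ⟨by norm_num; linarith only [b0], by norm_num; linarith only [b1]⟩
    ⟨by norm_num; linarith only [hv, n0], by norm_num; linarith only [hv, n1]⟩
  have hB := B.n0' n0
  rw [b1v_eq_Phi] at hB
  have hP := Phi_s (ys := ys) (vs := vs) (X := -(1 / 4)) (u := 7 / 25) (s0 := 0) (s1 := 1 / 20)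
    (c0 := -99606 - 3376415 * vs.im + 8 * 7 / 25 * 1048576 * vs.im) (c2 := 579653)
    (by linarith only [hB, n1])
    (by linarith only [N.lp1_10 (by linarith) (by linarith) (by linarith) (by linarith), n1]) a0 a1
  have hu := Phi_u hU (X := -(1 / 4)) (s := y.im) b1
  push_cast at h
  rw [hx] at h ⊢
  rw [hv] at h
  unfold SS
  linarith only [h, hu, hP]

theorem k_lpf1_1 :
    bb (tst 2 65423 0 0 0 436208 0 0 0 3187671 0 8388608) 60
      96000 96000 103680 104960 95232 109568 103424 104653 = true := by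
  decide +kernel

theorem lpf1_1 {ys vs y v : ℂ} (hU : VU ys vs) (B : B1N ys vs) (N : NAll ys vs) (e0 : 0 ≤ ys.im) (e1 : ys.im ≤ 1 / 10) (n0 : 1 / 25 ≤ vs.im) (n1 : vs.im ≤ 11 / 125)
    (hx : y.re = -(1 / 4)) (m : y.im ≤ ys.im) (a0 : 1 / 20 ≤ y.im) (a1 : y.im ≤ 1 / 10) (hv : v.im = vs.im) (b0 : -(7 / 25) ≤ v.re) (b1 : v.re ≤ 7 / 25) :
    SS y v + Phi ys vs y.re y.im v.re < 0 := by
  have h := bb_sound tab_ok k_lpf1_1 (y := y) (v := v) ⟨by rw [hx]; norm_num, by rw [hx]; norm_num⟩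
    ⟨by norm_num; linarith only [a0], by norm_num; linarith only [m, e1]⟩
    ⟨by norm_num; linarith only [b0], by norm_num; linarith only [b1]⟩
    ⟨by norm_num; linarith only [hv, n0], by norm_num; linarith only [hv, n1]⟩
  have hP := Phi_s (ys := ys) (vs := vs) (X := -(1 / 4)) (u := 7 / 25) (s0 := 1 / 20) (s1 := 1 / 10)
    (c0 := -65423 - 3187671 * vs.im + 8 * 7 / 25 * 1048576 * vs.im) (c2 := -436208)
    (by linarith only [N.lp1_10 (by linarith) (by linarith) (by linarith) (by linarith), n0])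
    (by linarith only [N.lp1_20 (by linarith) (by linarith) (by linarith) (by linarith), n1]) a0 a1
  have hu := Phi_u hU (X := -(1 / 4)) (s := y.im) b1
  push_cast at h
  rw [hx] at h ⊢
  rw [hv] at h
  unfold SS
  linarith only [h, hu, hP]

theorem k_lnf1_0 :
    bb (tst 2 47010 0 0 0 0 1613609 0 0 3974103 0 8388608) 60
      96000 96000 101504 102400 95232 109568 103424 104653 = true := by
  decide +kernel

theorem lnf1_0 {ys vs y v : ℂ} (hU : VU ys vs) (B : B1N ys vs) (N : NAll ys vs) (e0 : -(13 / 100) ≤ ys.im) (e1 : ys.im ≤ 0) (n0 : 1 / 25 ≤ vs.im) (n1 : vs.im ≤ 11 / 125)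
    (hx : y.re = -(1 / 4)) (m : ys.im ≤ y.im) (a0 : -(7 / 200) ≤ y.im) (a1 : y.im ≤ 0) (hv : v.im = vs.im) (b0 : -(7 / 25) ≤ v.re) (b1 : v.re ≤ 7 / 25) :
    SS y v + Phi ys vs y.re y.im v.re < 0 := by
  have h := bb_sound tab_ok k_lnf1_0 (y := y) (v := v) ⟨by rw [hx]; norm_num, by rw [hx]; norm_num⟩
    ⟨by norm_num; linarith only [a0], by norm_num; linarith only [a1]⟩
    ⟨by norm_num; linarith only [b0], by norm_num; linarith only [b1]⟩
    ⟨by norm_num; linarith only [hv, n0], by norm_num; linarith only [hv, n1]⟩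
  have hB := B.n0' n0
  rw [b1v_eq_Phi] at hB
  have hP := Phi_s (ys := ys) (vs := vs) (X := -(1 / 4)) (u := 7 / 25) (s0 := -(7 / 200)) (s1 := 0)
    (c0 := -47010 - 3974103 * vs.im + 8 * 7 / 25 * 1048576 * vs.im) (c2 := 1613609)
    (by linarith only [N.ln1_7 (by linarith) (by linarith) (by linarith) (by linarith), n0])
    (by linarith only [hB, n1]) a0 a1
  have hu := Phi_u hU (X := -(1 / 4)) (s := y.im) b1
  push_cast at h
  rw [hx] at h ⊢
  rw [hv] at h
  unfold SS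
  linarith only [h, hu, hP]

theorem k_lnf1_1 :
    bb (tst 2 0 133702 0 0 0 2888078 0 0 5520753 0 8388608) 60
      96000 96000 100608 101504 95232 109568 103424 104653 = true := by
  decide +kernel

theorem lnf1_1 {ys vs y v : ℂ} (hU : VU ys vs) (B : B1N ys vs) (N : NAll ys vs) (e0 : -(13 / 100) ≤ ys.im) (e1 : ys.im ≤ 0) (n0 : 1 / 25 ≤ vs.im) (n1 : vs.im ≤ 11 / 125)
    (hx : y.re = -(1 / 4)) (m : ys.im ≤ y.im) (a0 : -(7 / 100) ≤ y.im) (a1 : y.im ≤ -(7 / 200)) (hv : v.im = vs.im) (b0 : -(7 / 25) ≤ v.re) (b1 : v.re ≤ 7 / 25) :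
    SS y v + Phi ys vs y.re y.im v.re < 0 := by
  have h := bb_sound tab_ok k_lnf1_1 (y := y) (v := v) ⟨by rw [hx]; norm_num, by rw [hx]; norm_num⟩
    ⟨by norm_num; linarith only [a0], by norm_num; linarith only [a1]⟩
    ⟨by norm_num; linarith only [b0], by norm_num; linarith only [b1]⟩
    ⟨by norm_num; linarith only [hv, n0], by norm_num; linarith only [hv, n1]⟩
  have hP := Phi_s (ys := ys) (vs := vs) (X := -(1 / 4)) (u := 7 / 25) (s0 := -(7 / 100)) (s1 := -(7 / 200))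
    (c0 := 133702 - 5520753 * vs.im + 8 * 7 / 25 * 1048576 * vs.im) (c2 := 2888078)
    (by linarith only [N.ln1_14 (by linarith) (by linarith) (by linarith) (by linarith), n0])
    (by linarith only [N.ln1_7 (by linarith) (by linarith) (by linarith) (by linarith), n1]) a0 a1
  have hu := Phi_u hU (X := -(1 / 4)) (s := y.im) b1
  push_cast at h
  rw [hx] at h ⊢
  rw [hv] at h
  unfold SS
  linarith only [h, hu, hP]

theorem k_lnf1_2 :
    bb (tst 2 0 355755 0 0 0 5176470 0 0 7067402 0 8388608) 60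
      96000 96000 99840 100608 95232 109568 103424 104653 = true := by
  decide +kernel

theorem lnf1_2 {ys vs y v : ℂ} (hU : VU ys vs) (B : B1N ys vs) (N : NAll ys vs) (e0 : -(13 / 100) ≤ ys.im) (e1 : ys.im ≤ 0) (n0 : 1 / 25 ≤ vs.im) (n1 : vs.im ≤ 11 / 125)
    (hx : y.re = -(1 / 4)) (m : ys.im ≤ y.im) (a0 : -(1 / 10) ≤ y.im) (a1 : y.im ≤ -(7 / 100)) (hv : v.im = vs.im) (b0 : -(7 / 25) ≤ v.re) (b1 : v.re ≤ 7 / 25) :
    SS y v + Phi ys vs y.re y.im v.re < 0 := by
  have h := bb_sound tab_ok k_lnf1_2 (y := y) (v := v) ⟨by rw [hx]; norm_num, by rw [hx]; norm_num⟩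
    ⟨by norm_num; linarith only [a0], by norm_num; linarith only [a1]⟩
    ⟨by norm_num; linarith only [b0], by norm_num; linarith only [b1]⟩
    ⟨by norm_num; linarith only [hv, n0], by norm_num; linarith only [hv, n1]⟩
  have hP := Phi_s (ys := ys) (vs := vs) (X := -(1 / 4)) (u := 7 / 25) (s0 := -(1 / 10)) (s1 := -(7 / 100))
    (c0 := 355755 - 7067402 * vs.im + 8 * 7 / 25 * 1048576 * vs.im) (c2 := 5176470)
    (by linarith only [N.ln1_20 (by linarith) (by linarith) (by linarith) (by linarith), n0])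
    (by linarith only [N.ln1_14 (by linarith) (by linarith) (by linarith) (by linarith), n0]) a0 a1
  have hu := Phi_u hU (X := -(1 / 4)) (s := y.im) b1
  push_cast at h
  rw [hx] at h ⊢
  rw [hv] at h
  unfold SS
  linarith only [h, hu, hP]

theorem k_lnf1_3 :
    bb (tst 2 0 403291 0 0 0 5651825 0 0 7067402 0 8388608) 60
      96000 96000 99328 99840 95232 109568 103424 104653 = true := by
  decide +kernel

theorem lnf1_3 {ys vs y v : ℂ} (hU : VU ys vs) (B : B1N ys vs) (N : NAll ys vs) (e0 : -(13 / 100) ≤ ys.im) (e1 : ys.im ≤ 0) (n0 : 1 / 25 ≤ vs.im) (n1 : vs.im ≤ 11 / 125)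
    (hx : y.re = -(1 / 4)) (m : ys.im ≤ y.im) (a0 : -(3 / 25) ≤ y.im) (a1 : y.im ≤ -(1 / 10)) (hv : v.im = vs.im) (b0 : -(7 / 25) ≤ v.re) (b1 : v.re ≤ 7 / 25) :
    SS y v + Phi ys vs y.re y.im v.re < 0 := by
  have h := bb_sound tab_ok k_lnf1_3 (y := y) (v := v) ⟨by rw [hx]; norm_num, by rw [hx]; norm_num⟩
    ⟨by norm_num; linarith only [a0], by norm_num; linarith only [a1]⟩
    ⟨by norm_num; linarith only [b0], by norm_num; linarith only [b1]⟩
    ⟨by norm_num; linarith only [hv, n0], by norm_num; linarith only [hv, n1]⟩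
  have hP := Phi_s (ys := ys) (vs := vs) (X := -(1 / 4)) (u := 7 / 25) (s0 := -(3 / 25)) (s1 := -(1 / 10))
    (c0 := 403291 - 7067402 * vs.im + 8 * 7 / 25 * 1048576 * vs.im) (c2 := 5651825)
    (by linarith only [N.ln1_24 (by linarith) (by linarith) (by linarith) (by linarith), n1])
    (by linarith only [N.ln1_20 (by linarith) (by linarith) (by linarith) (by linarith), n0]) a0 a1
  have hu := Phi_u hU (X := -(1 / 4)) (s := y.im) b1
  push_cast at h
  rw [hx] at h ⊢
  rw [hv] at h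
  unfold SS
  linarith only [h, hu, hP]

theorem k_lnf1_4 :
    bb (tst 2 0 475852 0 0 0 6333399 0 0 6962545 0 8388608) 60
      96000 96000 99072 99328 95232 109568 103424 104653 = true := by
  decide +kernel

theorem lnf1_4 {ys vs y v : ℂ} (hU : VU ys vs) (B : B1N ys vs) (N : NAll ys vs) (e0 : -(13 / 100) ≤ ys.im) (e1 : ys.im ≤ 0) (n0 : 1 / 25 ≤ vs.im) (n1 : vs.im ≤ 11 / 125)
    (hx : y.re = -(1 / 4)) (m : ys.im ≤ y.im) (a0 : -(13 / 100) ≤ y.im) (a1 : y.im ≤ -(3 / 25)) (hv : v.im = vs.im) (b0 : -(7 / 25) ≤ v.re) (b1 : v.re ≤ 7 / 25) :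
    SS y v + Phi ys vs y.re y.im v.re < 0 := by
  have h := bb_sound tab_ok k_lnf1_4 (y := y) (v := v) ⟨by rw [hx]; norm_num, by rw [hx]; norm_num⟩
    ⟨by norm_num; linarith only [m, e0], by norm_num; linarith only [a1]⟩
    ⟨by norm_num; linarith only [b0], by norm_num; linarith only [b1]⟩
    ⟨by norm_num; linarith only [hv, n0], by norm_num; linarith only [hv, n1]⟩
  have hP := Phi_s (ys := ys) (vs := vs) (X := -(1 / 4)) (u := 7 / 25) (s0 := -(13 / 100)) (s1 := -(3 / 25))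
    (c0 := 475852 - 6962545 * vs.im + 8 * 7 / 25 * 1048576 * vs.im) (c2 := 6333399)
    (by linarith only [N.ln1_26 (by linarith) (by linarith) (by linarith) (by linarith), n0])
    (by linarith only [N.ln1_24 (by linarith) (by linarith) (by linarith) (by linarith), n1]) a0 a1
  have hu := Phi_u hU (X := -(1 / 4)) (s := y.im) b1
  push_cast at h
  rw [hx] at h ⊢
  rw [hv] at h
  unfold SS
  linarith only [h, hu, hP]

end VZ

end Pool.Agent.S5
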