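import Pool.Agent.S5.I.VZn

/-!
# The slots of the open nodes: the other slot, rows
-/

set_option autoImplicit false

namespace Pool.Agent.S5

open Pool.Agent.H63.VC3 Pool.Agent.S3 Complex Tb

namespace VZ

theorem k_qf0_0 :
    bb (tst 2 294012 0 256901 0 0 1939866 0 0 0 0 0) 60
      102400 110080 99072 100864 108800 108800 102400 102400 = true := by
  decide +kernel

theorem qf0_0 {ys vs y v : ℂ} (N : NAll ys vs) (e0 : -(13 / 100) ≤ ys.im) (e1 : ys.im ≤ -(3 / 50)) (n0 : 0 ≤ vs.im) (n1 : vs.im ≤ 11 / 125)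
    (hy : y.im = ys.im) (a0 : 0 ≤ y.re) (a1 : y.re ≤ 3 / 10) (hv : v = ((1 / 4 : ℝ) : ℂ)) :
    SS y v + Psi ys vs y.re y.im < 1 / 50 := by
  have h1 : v.re = 1 / 4 := by rw [hv, ofReal_re]
  have h2 : v.im = 0 := by rw [hv, ofReal_im]
  have h := bb_sound tab_ok k_qf0_0 (y := y) (v := v) ⟨by norm_num; linarith, by norm_num; linarith⟩
    ⟨by rw [hy]; norm_num; linarith, by rw [hy]; norm_num; linarith⟩
    ⟨by rw [h1]; norm_num, by rw [h1]; norm_num⟩
    ⟨by rw [h2]; norm_num, by rw [h2]; norm_num⟩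
  have hP := Psi_X (ys := ys) (vs := vs) (s := ys.im) (X0 := 0) (X1 := 3 / 10)
    (c0 := 524288 / 25 - 294012 - (-1939866) * ys.im) (c1 := -256901)
    (by linarith [N.q0_0 (by linarith) (by linarith) (by linarith) (by linarith)])
    (by linarith [N.q0_60 (by linarith) (by linarith) (by linarith) (by linarith)]) a0 a1
  push_cast at h
  rw [hy] at h ⊢
  rw [h1, h2] at h
  unfold SS
  linarith

theorem k_qf0_1 :
    bb (tst 2 467342 0 0 320864 0 1939866 0 0 0 0 0) 60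
      110080 111360 99072 100864 108800 108800 102400 102400 = true := by
  decide +kernel

theorem qf0_1 {ys vs y v : ℂ} (N : NAll ys vs) (e0 : -(13 / 100) ≤ ys.im) (e1 : ys.im ≤ -(3 / 50)) (n0 : 0 ≤ vs.im) (n1 : vs.im ≤ 11 / 125)
    (hy : y.im = ys.im) (a0 : 3 / 10 ≤ y.re) (a1 : y.re ≤ 7 / 20) (hv : v = ((1 / 4 : ℝ) : ℂ)) :
    SS y v + Psi ys vs y.re y.im < 1 / 50 := by
  have h1 : v.re = 1 / 4 := by rw [hv, ofReal_re]
  have h2 : v.im = 0 := by rw [hv, ofReal_im]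
  have h := bb_sound tab_ok k_qf0_1 (y := y) (v := v) ⟨by norm_num; linarith, by norm_num; linarith⟩
    ⟨by rw [hy]; norm_num; linarith, by rw [hy]; norm_num; linarith⟩
    ⟨by rw [h1]; norm_num, by rw [h1]; norm_num⟩
    ⟨by rw [h2]; norm_num, by rw [h2]; norm_num⟩
  have hP := Psi_X (ys := ys) (vs := vs) (s := ys.im) (X0 := 3 / 10) (X1 := 7 / 20)
    (c0 := 524288 / 25 - 467342 - (-1939866) * ys.im) (c1 := 320864)
    (by linarith [N.q0_60 (by linarith) (by linarith) (by linarith) (by linarith)])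
    (by linarith [N.q0_70 (by linarith) (by linarith) (by linarith) (by linarith)]) a0 a1
  push_cast at h
  rw [hy] at h ⊢
  rw [h1, h2] at h
  unfold SS
  linarith

theorem k_qf0_2 :
    bb (tst 2 619805 0 0 765460 0 1992294 0 0 0 0 0) 60
      111360 112640 99072 100864 108800 108800 102400 102400 = true := by
  decide +kernel

theorem qf0_2 {ys vs y v : ℂ} (N : NAll ys vs) (e0 : -(13 / 100) ≤ ys.im) (e1 : ys.im ≤ -(3 / 50)) (n0 : 0 ≤ vs.im) (n1 : vs.im ≤ 11 / 125)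
    (hy : y.im = ys.im) (a0 : 7 / 20 ≤ y.re) (a1 : y.re ≤ 2 / 5) (hv : v = ((1 / 4 : ℝ) : ℂ)) :
    SS y v + Psi ys vs y.re y.im < 1 / 50 := by
  have h1 : v.re = 1 / 4 := by rw [hv, ofReal_re]
  have h2 : v.im = 0 := by rw [hv, ofReal_im]
  have h := bb_sound tab_ok k_qf0_2 (y := y) (v := v) ⟨by norm_num; linarith, by norm_num; linarith⟩
    ⟨by rw [hy]; norm_num; linarith, by rw [hy]; norm_num; linarith⟩
    ⟨by rw [h1]; norm_num, by rw [h1]; norm_num⟩
    ⟨by rw [h2]; norm_num, by rw [h2]; norm_num⟩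
  have hP := Psi_X (ys := ys) (vs := vs) (s := ys.im) (X0 := 7 / 20) (X1 := 2 / 5)
    (c0 := 524288 / 25 - 619805 - (-1992294) * ys.im) (c1 := 765460)
    (by linarith [N.q0_70 (by linarith) (by linarith) (by linarith) (by linarith)])
    (by linarith [N.q0_80 (by linarith) (by linarith) (by linarith) (by linarith)]) a0 a1
  push_cast at h
  rw [hy] at h ⊢
  rw [h1, h2] at h
  unfold SS
  linarith

theorem k_qf0_3 :
    bb (tst 2 685236 0 0 960496 0 2202010 0 0 0 0 0) 60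
      112640 115200 99072 100864 108800 108800 102400 102400 = true := by
  decide +kernel

theorem qf0_3 {ys vs y v : ℂ} (N : NAll ys vs) (e0 : -(13 / 100) ≤ ys.im) (e1 : ys.im ≤ -(3 / 50)) (n0 : 0 ≤ vs.im) (n1 : vs.im ≤ 11 / 125)
    (hy : y.im = ys.im) (a0 : 2 / 5 ≤ y.re) (a1 : y.re ≤ 1 / 2) (hv : v = ((1 / 4 : ℝ) : ℂ)) :
    SS y v + Psi ys vs y.re y.im < 1 / 50 := by
  have h1 : v.re = 1 / 4 := by rw [hv, ofReal_re]
  have h2 : v.im = 0 := by rw [hv, ofReal_im]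
  have h := bb_sound tab_ok k_qf0_3 (y := y) (v := v) ⟨by norm_num; linarith, by norm_num; linarith⟩
    ⟨by rw [hy]; norm_num; linarith, by rw [hy]; norm_num; linarith⟩
    ⟨by rw [h1]; norm_num, by rw [h1]; norm_num⟩
    ⟨by rw [h2]; norm_num, by rw [h2]; norm_num⟩
  have hP := Psi_X (ys := ys) (vs := vs) (s := ys.im) (X0 := 2 / 5) (X1 := 1 / 2)
    (c0 := 524288 / 25 - 685236 - (-2202010) * ys.im) (c1 := 960496)
    (by linarith [N.q0_80 (by linarith) (by linarith) (by linarith) (by linarith)])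
    (by linarith [N.q0_100 (by linarith) (by linarith) (by linarith) (by linarith)]) a0 a1
  push_cast at h
  rw [hy] at h ⊢
  rw [h1, h2] at h
  unfold SS
  linarith

theorem k_qf1_0 :
    bb (tst 2 341093 0 321563 0 0 838861 0 0 0 0 0) 60
      102400 110080 100864 102656 108800 108800 102400 102400 = true := by
  decide +kernel

theorem qf1_0 {ys vs y v : ℂ} (N : NAll ys vs) (e0 : -(3 / 50) ≤ ys.im) (e1 : ys.im ≤ 1 / 100) (n0 : 0 ≤ vs.im) (n1 : vs.im ≤ 11 / 125)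
    (hy : y.im = ys.im) (a0 : 0 ≤ y.re) (a1 : y.re ≤ 3 / 10) (hv : v = ((1 / 4 : ℝ) : ℂ)) :
    SS y v + Psi ys vs y.re y.im < 1 / 50 := by
  have h1 : v.re = 1 / 4 := by rw [hv, ofReal_re]
  have h2 : v.im = 0 := by rw [hv, ofReal_im]
  have h := bb_sound tab_ok k_qf1_0 (y := y) (v := v) ⟨by norm_num; linarith, by norm_num; linarith⟩
    ⟨by rw [hy]; norm_num; linarith, by rw [hy]; norm_num; linarith⟩
    ⟨by rw [h1]; norm_num, by rw [h1]; norm_num⟩
    ⟨by rw [h2]; norm_num, by rw [h2]; norm_num⟩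
  have hP := Psi_X (ys := ys) (vs := vs) (s := ys.im) (X0 := 0) (X1 := 3 / 10)
    (c0 := 524288 / 25 - 341093 - (-838861) * ys.im) (c1 := -321563)
    (by linarith [N.q1_0 (by linarith) (by linarith) (by linarith) (by linarith)])
    (by linarith [N.q1_60 (by linarith) (by linarith) (by linarith) (by linarith)]) a0 a1
  push_cast at h
  rw [hy] at h ⊢
  rw [h1, h2] at h
  unfold SS
  linarith

theorem k_qf1_1 :
    bb (tst 2 439869 0 0 14680 0 629146 0 0 0 0 0) 60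
      110080 111360 100864 102656 108800 108800 102400 102400 = true := by
  decide +kernel

theorem qf1_1 {ys vs y v : ℂ} (N : NAll ys vs) (e0 : -(3 / 50) ≤ ys.im) (e1 : ys.im ≤ 1 / 100) (n0 : 0 ≤ vs.im) (n1 : vs.im ≤ 11 / 125)
    (hy : y.im = ys.im) (a0 : 3 / 10 ≤ y.re) (a1 : y.re ≤ 7 / 20) (hv : v = ((1 / 4 : ℝ) : ℂ)) :
    SS y v + Psi ys vs y.re y.im < 1 / 50 := by
  have h1 : v.re = 1 / 4 := by rw [hv, ofReal_re]
  have h2 : v.im = 0 := by rw [hv, ofReal_im]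
  have h := bb_sound tab_ok k_qf1_1 (y := y) (v := v) ⟨by norm_num; linarith, by norm_num; linarith⟩
    ⟨by rw [hy]; norm_num; linarith, by rw [hy]; norm_num; linarith⟩
    ⟨by rw [h1]; norm_num, by rw [h1]; norm_num⟩
    ⟨by rw [h2]; norm_num, by rw [h2]; norm_num⟩
  have hP := Psi_X (ys := ys) (vs := vs) (s := ys.im) (X0 := 3 / 10) (X1 := 7 / 20)
    (c0 := 524288 / 25 - 439869 - (-629146) * ys.im) (c1 := 14680)
    (by linarith [N.q1_60 (by linarith) (by linarith) (by linarith) (by linarith)])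
    (by linarith [N.q1_70 (by linarith) (by linarith) (by linarith) (by linarith)]) a0 a1
  push_cast at h
  rw [hy] at h ⊢
  rw [h1, h2] at h
  unfold SS
  linarith

theorem k_qf1_2 :
    bb (tst 2 672548 0 0 679477 0 629146 0 0 0 0 0) 60
      111360 112640 100864 102656 108800 108800 102400 102400 = true := by
  decide +kernel

theorem qf1_2 {ys vs y v : ℂ} (N : NAll ys vs) (e0 : -(3 / 50) ≤ ys.im) (e1 : ys.im ≤ 1 / 100) (n0 : 0 ≤ vs.im) (n1 : vs.im ≤ 11 / 125)
    (hy : y.im = ys.im) (a0 : 7 / 20 ≤ y.re) (a1 : y.re ≤ 2 / 5) (hv : v = ((1 / 4 : ℝ) : ℂ)) :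
    SS y v + Psi ys vs y.re y.im < 1 / 50 := by
  have h1 : v.re = 1 / 4 := by rw [hv, ofReal_re]
  have h2 : v.im = 0 := by rw [hv, ofReal_im]
  have h := bb_sound tab_ok k_qf1_2 (y := y) (v := v) ⟨by norm_num; linarith, by norm_num; linarith⟩
    ⟨by rw [hy]; norm_num; linarith, by rw [hy]; norm_num; linarith⟩
    ⟨by rw [h1]; norm_num, by rw [h1]; norm_num⟩
    ⟨by rw [h2]; norm_num, by rw [h2]; norm_num⟩
  have hP := Psi_X (ys := ys) (vs := vs) (s := ys.im) (X0 := 7 / 20) (X1 := 2 / 5)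
    (c0 := 524288 / 25 - 672548 - (-629146) * ys.im) (c1 := 679477)
    (by linarith [N.q1_70 (by linarith) (by linarith) (by linarith) (by linarith)])
    (by linarith [N.q1_80 (by linarith) (by linarith) (by linarith) (by linarith)]) a0 a1
  push_cast at h
  rw [hy] at h ⊢
  rw [h1, h2] at h
  unfold SS
  linarith

theorem k_qf1_3 :
    bb (tst 2 770905 0 0 917504 0 576717 0 0 0 0 0) 60
      112640 115200 100864 102656 108800 108800 102400 102400 = true := by
  decide +kernel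

theorem qf1_3 {ys vs y v : ℂ} (N : NAll ys vs) (e0 : -(3 / 50) ≤ ys.im) (e1 : ys.im ≤ 1 / 100) (n0 : 0 ≤ vs.im) (n1 : vs.im ≤ 11 / 125)
    (hy : y.im = ys.im) (a0 : 2 / 5 ≤ y.re) (a1 : y.re ≤ 1 / 2) (hv : v = ((1 / 4 : ℝ) : ℂ)) :
    SS y v + Psi ys vs y.re y.im < 1 / 50 := by
  have h1 : v.re = 1 / 4 := by rw [hv, ofReal_re]
  have h2 : v.im = 0 := by rw [hv, ofReal_im]
  have h := bb_sound tab_ok k_qf1_3 (y := y) (v := v) ⟨by norm_num; linarith, by norm_num; linarith⟩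
    ⟨by rw [hy]; norm_num; linarith, by rw [hy]; norm_num; linarith⟩
    ⟨by rw [h1]; norm_num, by rw [h1]; norm_num⟩
    ⟨by rw [h2]; norm_num, by rw [h2]; norm_num⟩
  have hP := Psi_X (ys := ys) (vs := vs) (s := ys.im) (X0 := 2 / 5) (X1 := 1 / 2)
    (c0 := 524288 / 25 - 770905 - (-576717) * ys.im) (c1 := 917504)
    (by linarith [N.q1_80 (by linarith) (by linarith) (by linarith) (by linarith)])
    (by linarith [N.q1_100 (by linarith) (by linarith) (by linarith) (by linarith)]) a0 a1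
  push_cast at h
  rw [hy] at h ⊢
  rw [h1, h2] at h
  unfold SS
  linarith

theorem k_qf2_0 :
    bb (tst 2 330503 0 339040 0 419430 0 0 0 0 0 0) 60
      102400 110080 102656 103808 108800 108800 102400 102400 = true := by
  decide +kernel

theorem qf2_0 {ys vs y v : ℂ} (N : NAll ys vs) (e0 : 1 / 100 ≤ ys.im) (e1 : ys.im ≤ 11 / 200) (n0 : 0 ≤ vs.im) (n1 : vs.im ≤ 11 / 125)
    (hy : y.im = ys.im) (a0 : 0 ≤ y.re) (a1 : y.re ≤ 3 / 10) (hv : v = ((1 / 4 : ℝ) : ℂ)) :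
    SS y v + Psi ys vs y.re y.im < 1 / 50 := by
  have h1 : v.re = 1 / 4 := by rw [hv, ofReal_re]
  have h2 : v.im = 0 := by rw [hv, ofReal_im]
  have h := bb_sound tab_ok k_qf2_0 (y := y) (v := v) ⟨by norm_num; linarith, by norm_num; linarith⟩
    ⟨by rw [hy]; norm_num; linarith, by rw [hy]; norm_num; linarith⟩
    ⟨by rw [h1]; norm_num, by rw [h1]; norm_num⟩
    ⟨by rw [h2]; norm_num, by rw [h2]; norm_num⟩
  have hP := Psi_X (ys := ys) (vs := vs) (s := ys.im) (X0 := 0) (X1 := 3 / 10)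
    (c0 := 524288 / 25 - 330503 - 419430 * ys.im) (c1 := -339040)
    (by linarith [N.q2_0 (by linarith) (by linarith) (by linarith) (by linarith)])
    (by linarith [N.q2_60 (by linarith) (by linarith) (by linarith) (by linarith)]) a0 a1
  push_cast at h
  rw [hy] at h ⊢
  rw [h1, h2] at h
  unfold SS
  linarith

theorem k_qf2_1 :
    bb (tst 2 369143 0 181404 0 576717 0 0 0 0 0 0) 60
      110080 111360 102656 103808 108800 108800 102400 102400 = true := by
  decide +kernel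

theorem qf2_1 {ys vs y v : ℂ} (N : NAll ys vs) (e0 : 1 / 100 ≤ ys.im) (e1 : ys.im ≤ 11 / 200) (n0 : 0 ≤ vs.im) (n1 : vs.im ≤ 11 / 125)
    (hy : y.im = ys.im) (a0 : 3 / 10 ≤ y.re) (a1 : y.re ≤ 7 / 20) (hv : v = ((1 / 4 : ℝ) : ℂ)) :
    SS y v + Psi ys vs y.re y.im < 1 / 50 := by
  have h1 : v.re = 1 / 4 := by rw [hv, ofReal_re]
  have h2 : v.im = 0 := by rw [hv, ofReal_im]
  have h := bb_sound tab_ok k_qf2_1 (y := y) (v := v) ⟨by norm_num; linarith, by norm_num; linarith⟩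
    ⟨by rw [hy]; norm_num; linarith, by rw [hy]; norm_num; linarith⟩
    ⟨by rw [h1]; norm_num, by rw [h1]; norm_num⟩
    ⟨by rw [h2]; norm_num, by rw [h2]; norm_num⟩
  have hP := Psi_X (ys := ys) (vs := vs) (s := ys.im) (X0 := 3 / 10) (X1 := 7 / 20)
    (c0 := 524288 / 25 - 369143 - 576717 * ys.im) (c1 := -181404)
    (by linarith [N.q2_60 (by linarith) (by linarith) (by linarith) (by linarith)])
    (by linarith [N.q2_70 (by linarith) (by linarith) (by linarith) (by linarith)]) a0 a1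
  push_cast at h
  rw [hy] at h ⊢
  rw [h1, h2] at h
  unfold SS
  linarith

theorem k_qf2_2 :
    bb (tst 2 626411 0 0 553648 576717 0 0 0 0 0 0) 60
      111360 112640 102656 103808 108800 108800 102400 102400 = true := by
  decide +kernel

theorem qf2_2 {ys vs y v : ℂ} (N : NAll ys vs) (e0 : 1 / 100 ≤ ys.im) (e1 : ys.im ≤ 11 / 200) (n0 : 0 ≤ vs.im) (n1 : vs.im ≤ 11 / 125)
    (hy : y.im = ys.im) (a0 : 7 / 20 ≤ y.re) (a1 : y.re ≤ 2 / 5) (hv : v = ((1 / 4 : ℝ) : ℂ)) :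
    SS y v + Psi ys vs y.re y.im < 1 / 50 := by
  have h1 : v.re = 1 / 4 := by rw [hv, ofReal_re]
  have h2 : v.im = 0 := by rw [hv, ofReal_im]
  have h := bb_sound tab_ok k_qf2_2 (y := y) (v := v) ⟨by norm_num; linarith, by norm_num; linarith⟩
    ⟨by rw [hy]; norm_num; linarith, by rw [hy]; norm_num; linarith⟩
    ⟨by rw [h1]; norm_num, by rw [h1]; norm_num⟩
    ⟨by rw [h2]; norm_num, by rw [h2]; norm_num⟩
  have hP := Psi_X (ys := ys) (vs := vs) (s := ys.im) (X0 := 7 / 20) (X1 := 2 / 5)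
    (c0 := 524288 / 25 - 626411 - 576717 * ys.im) (c1 := 553648)
    (by linarith [N.q2_70 (by linarith) (by linarith) (by linarith) (by linarith)])
    (by linarith [N.q2_80 (by linarith) (by linarith) (by linarith) (by linarith)]) a0 a1
  push_cast at h
  rw [hy] at h ⊢
  rw [h1, h2] at h
  unfold SS
  linarith

theorem k_qf2_3 :
    bb (tst 2 719944 0 0 792723 786432 0 0 0 0 0 0) 60
      112640 115200 102656 103808 108800 108800 102400 102400 = true := by
  decide +kernel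

theorem qf2_3 {ys vs y v : ℂ} (N : NAll ys vs) (e0 : 1 / 100 ≤ ys.im) (e1 : ys.im ≤ 11 / 200) (n0 : 0 ≤ vs.im) (n1 : vs.im ≤ 11 / 125)
    (hy : y.im = ys.im) (a0 : 2 / 5 ≤ y.re) (a1 : y.re ≤ 1 / 2) (hv : v = ((1 / 4 : ℝ) : ℂ)) :
    SS y v + Psi ys vs y.re y.im < 1 / 50 := by
  have h1 : v.re = 1 / 4 := by rw [hv, ofReal_re]
  have h2 : v.im = 0 := by rw [hv, ofReal_im]
  have h := bb_sound tab_ok k_qf2_3 (y := y) (v := v) ⟨by norm_num; linarith, by norm_num; linarith⟩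
    ⟨by rw [hy]; norm_num; linarith, by rw [hy]; norm_num; linarith⟩
    ⟨by rw [h1]; norm_num, by rw [h1]; norm_num⟩
    ⟨by rw [h2]; norm_num, by rw [h2]; norm_num⟩
  have hP := Psi_X (ys := ys) (vs := vs) (s := ys.im) (X0 := 2 / 5) (X1 := 1 / 2)
    (c0 := 524288 / 25 - 719944 - 786432 * ys.im) (c1 := 792723)
    (by linarith [N.q2_80 (by linarith) (by linarith) (by linarith) (by linarith)])
    (by linarith [N.q2_100 (by linarith) (by linarith) (by linarith) (by linarith)]) a0 a1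
  push_cast at h
  rw [hy] at h ⊢
  rw [h1, h2] at h
  unfold SS
  linarith

theorem k_qf3_0 :
    bb (tst 2 276711 0 316670 0 1625293 0 0 0 0 0 0) 60
      102400 110080 103808 104960 108800 108800 102400 102400 = true := by
  decide +kernel

theorem qf3_0 {ys vs y v : ℂ} (N : NAll ys vs) (e0 : 11 / 200 ≤ ys.im) (e1 : ys.im ≤ 1 / 10) (n0 : 0 ≤ vs.im) (n1 : vs.im ≤ 11 / 125)
    (hy : y.im = ys.im) (a0 : 0 ≤ y.re) (a1 : y.re ≤ 3 / 10) (hv : v = ((1 / 4 : ℝ) : ℂ)) :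
    SS y v + Psi ys vs y.re y.im < 1 / 50 := by
  have h1 : v.re = 1 / 4 := by rw [hv, ofReal_re]
  have h2 : v.im = 0 := by rw [hv, ofReal_im]
  have h := bb_sound tab_ok k_qf3_0 (y := y) (v := v) ⟨by norm_num; linarith, by norm_num; linarith⟩
    ⟨by rw [hy]; norm_num; linarith, by rw [hy]; norm_num; linarith⟩
    ⟨by rw [h1]; norm_num, by rw [h1]; norm_num⟩
    ⟨by rw [h2]; norm_num, by rw [h2]; norm_num⟩
  have hP := Psi_X (ys := ys) (vs := vs) (s := ys.im) (X0 := 0) (X1 := 3 / 10)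
    (c0 := 524288 / 25 - 276711 - 1625293 * ys.im) (c1 := -316670)
    (by linarith [N.q3_0 (by linarith) (by linarith) (by linarith) (by linarith)])
    (by linarith [N.q3_60 (by linarith) (by linarith) (by linarith) (by linarith)]) a0 a1
  push_cast at h
  rw [hy] at h ⊢
  rw [h1, h2] at h
  unfold SS
  linarith

theorem k_qf3_1 :
    bb (tst 2 369195 0 8389 0 1625293 0 0 0 0 0 0) 60
      110080 111360 103808 104960 108800 108800 102400 102400 = true := by
  decide +kernel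

theorem qf3_1 {ys vs y v : ℂ} (N : NAll ys vs) (e0 : 11 / 200 ≤ ys.im) (e1 : ys.im ≤ 1 / 10) (n0 : 0 ≤ vs.im) (n1 : vs.im ≤ 11 / 125)
    (hy : y.im = ys.im) (a0 : 3 / 10 ≤ y.re) (a1 : y.re ≤ 7 / 20) (hv : v = ((1 / 4 : ℝ) : ℂ)) :
    SS y v + Psi ys vs y.re y.im < 1 / 50 := by
  have h1 : v.re = 1 / 4 := by rw [hv, ofReal_re]
  have h2 : v.im = 0 := by rw [hv, ofReal_im]
  have h := bb_sound tab_ok k_qf3_1 (y := y) (v := v) ⟨by norm_num; linarith, by norm_num; linarith⟩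
    ⟨by rw [hy]; norm_num; linarith, by rw [hy]; norm_num; linarith⟩
    ⟨by rw [h1]; norm_num, by rw [h1]; norm_num⟩
    ⟨by rw [h2]; norm_num, by rw [h2]; norm_num⟩
  have hP := Psi_X (ys := ys) (vs := vs) (s := ys.im) (X0 := 3 / 10) (X1 := 7 / 20)
    (c0 := 524288 / 25 - 369195 - 1625293 * ys.im) (c1 := -8389)
    (by linarith [N.q3_60 (by linarith) (by linarith) (by linarith) (by linarith)])
    (by linarith [N.q3_70 (by linarith) (by linarith) (by linarith) (by linarith)]) a0 a1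
  push_cast at h
  rw [hy] at h ⊢
  rw [h1, h2] at h
  unfold SS
  linarith

theorem k_qf3_2 :
    bb (tst 2 511801 0 0 369099 1520435 0 0 0 0 0 0) 60
      111360 112640 103808 104960 108800 108800 102400 102400 = true := by
  decide +kernel

theorem qf3_2 {ys vs y v : ℂ} (N : NAll ys vs) (e0 : 11 / 200 ≤ ys.im) (e1 : ys.im ≤ 1 / 10) (n0 : 0 ≤ vs.im) (n1 : vs.im ≤ 11 / 125)
    (hy : y.im = ys.im) (a0 : 7 / 20 ≤ y.re) (a1 : y.re ≤ 2 / 5) (hv : v = ((1 / 4 : ℝ) : ℂ)) :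
    SS y v + Psi ys vs y.re y.im < 1 / 50 := by
  have h1 : v.re = 1 / 4 := by rw [hv, ofReal_re]
  have h2 : v.im = 0 := by rw [hv, ofReal_im]
  have h := bb_sound tab_ok k_qf3_2 (y := y) (v := v) ⟨by norm_num; linarith, by norm_num; linarith⟩
    ⟨by rw [hy]; norm_num; linarith, by rw [hy]; norm_num; linarith⟩
    ⟨by rw [h1]; norm_num, by rw [h1]; norm_num⟩
    ⟨by rw [h2]; norm_num, by rw [h2]; norm_num⟩
  have hP := Psi_X (ys := ys) (vs := vs) (s := ys.im) (X0 := 7 / 20) (X1 := 2 / 5)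
    (c0 := 524288 / 25 - 511801 - 1520435 * ys.im) (c1 := 369099)
    (by linarith [N.q3_70 (by linarith) (by linarith) (by linarith) (by linarith)])
    (by linarith [N.q3_80 (by linarith) (by linarith) (by linarith) (by linarith)]) a0 a1
  push_cast at h
  rw [hy] at h ⊢
  rw [h1, h2] at h
  unfold SS
  linarith

theorem k_qf3_3 :
    bb (tst 2 670241 0 0 779616 1625293 0 0 0 0 0 0) 60
      112640 115200 103808 104960 108800 108800 102400 102400 = true := by
  decide +kernel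

theorem qf3_3 {ys vs y v : ℂ} (N : NAll ys vs) (e0 : 11 / 200 ≤ ys.im) (e1 : ys.im ≤ 1 / 10) (n0 : 0 ≤ vs.im) (n1 : vs.im ≤ 11 / 125)
    (hy : y.im = ys.im) (a0 : 2 / 5 ≤ y.re) (a1 : y.re ≤ 1 / 2) (hv : v = ((1 / 4 : ℝ) : ℂ)) :
    SS y v + Psi ys vs y.re y.im < 1 / 50 := by
  have h1 : v.re = 1 / 4 := by rw [hv, ofReal_re]
  have h2 : v.im = 0 := by rw [hv, ofReal_im]
  have h := bb_sound tab_ok k_qf3_3 (y := y) (v := v) ⟨by norm_num; linarith, by norm_num; linarith⟩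
    ⟨by rw [hy]; norm_num; linarith, by rw [hy]; norm_num; linarith⟩
    ⟨by rw [h1]; norm_num, by rw [h1]; norm_num⟩
    ⟨by rw [h2]; norm_num, by rw [h2]; norm_num⟩
  have hP := Psi_X (ys := ys) (vs := vs) (s := ys.im) (X0 := 2 / 5) (X1 := 1 / 2)
    (c0 := 524288 / 25 - 670241 - 1625293 * ys.im) (c1 := 779616)
    (by linarith [N.q3_80 (by linarith) (by linarith) (by linarith) (by linarith)])
    (by linarith [N.q3_100 (by linarith) (by linarith) (by linarith) (by linarith)]) a0 a1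
  push_cast at h
  rw [hy] at h ⊢
  rw [h1, h2] at h
  unfold SS
  linarith

end VZ

end Pool.Agent.S5
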