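import Pool.Agent.S5.I.VZe
import Pool.Agent.S5.I.VZl
import Pool.Agent.S5.I.VZq

/-!
# The slots of the open nodes: a real edge, the left leg, the other slot
-/

set_option autoImplicit false

namespace Pool.Agent.S5

open Pool.Agent.H63.VC3 Pool.Agent.S3 Complex Tb VZ
open scoped ComplexConjugate

/-- Real `y`: only `v` in the right half matters. -/
theorem Es_refl {ys vs y v : ℂ} (h : VU ys vs) (hy : y.im = 0) (hv : 0 ≤ v.im) :
    ∃ v' : ℂ, v'.re = |v.re| ∧ v'.im = v.im ∧ Es ys vs y v ≤ Es ys vs y v' := by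
  have hn := h.n0
  rcases le_total 0 v.re with h0 | h0
  · exact ⟨v, (abs_of_nonneg h0).symm, rfl, le_rfl⟩
  · refine ⟨-conj v, ?_, ?_, ?_⟩
    · rw [neg_re, conj_re, abs_of_nonpos h0]
    · rw [neg_im, conj_im, neg_neg]
    · have hc : conj y = y := by
        apply Complex.ext
        · exact conj_re y
        · rw [conj_im, hy, neg_zero]
      have e := SS_conj y v
      rw [hc] at e
      rw [Es_eq_SS hn.ne', Es_eq_SS hn.ne', e]
      have e1 : (-conj v).im = v.im := by rw [neg_im, conj_im, neg_neg]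
      have e2 : (-conj v).re = -v.re := by rw [neg_re, conj_re]
      rw [e1, e2]
      have h1 : Lamv ys vs * (v.re - vs.re) * v.im / vs.im ≤
          Lamv ys vs * (-v.re - vs.re) * v.im / vs.im := by
        apply div_le_div_of_nonneg_right _ hn.le
        apply mul_le_mul_of_nonneg_right _ hv
        exact mul_le_mul_of_nonneg_left (by linarith) h.Lam0
      linarith

theorem Vq.im_nonneg {ys vs v : ℂ} (h : VU ys vs) (hv : Vq vs v) : 0 ≤ v.im := by
  have hn := h.n0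
  rcases hv with ⟨v1, v2⟩ | ⟨v1, v2, v3⟩ | ⟨v1, v2, v3⟩
  · rw [v1]
    exact hn.le
  · exact v2
  · exact v1.ge

/-- The pieces of `v` in the right half. -/
theorem Vq.right {ys vs y v : ℂ} {T : ℝ} (h : VU ys vs) (B : B1N ys vs) (hy : y.im = 0)
    (hv : Vq vs v)
    (F : ∀ v : ℂ, v.im = vs.im → 0 ≤ v.re → v.re ≤ 7 / 25 →
      SS y v + Phi ys vs y.re y.im v.re < T)
    (V : ∀ v : ℂ, v.re = 7 / 25 → 0 ≤ v.im → v.im ≤ vs.im →
      SS y v + Phi ys vs y.re y.im (7 / 25) + 3 / 8 * (vs.im - v.im) < T)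
    (R : ∀ v : ℂ, v.im = 0 → 1 / 4 ≤ v.re → v.re ≤ 1 / 2 → SS y v + Psi ys vs y.re y.im < T) :
    Es ys vs y v < T := by
  have hn := h.n0
  obtain ⟨v', h1, h2, h3⟩ := Es_refl h hy (Vq.im_nonneg h hv)
  refine h3.trans_lt ?_
  rcases hv with ⟨v1, v2⟩ | ⟨v1, v2, v3⟩ | ⟨v1, v2, v3⟩
  · rw [Es_flatv hn.ne' (h2.trans v1)]
    exact F v' (h2.trans v1) (by rw [h1]; exact abs_nonneg _) (by rw [h1]; exact v2)
  · refine (Es_vert h B.kap (by rw [h2]; exact v2) (by rw [h2]; exact v3)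
      (by rw [h1, v1])).trans_lt ?_
    exact V v' (h1.trans v1) (by rw [h2]; exact v2) (by rw [h2]; exact v3)
  · rw [Es_real hn.ne' (h2.trans v1)]
    exact R v' (h2.trans v1) (by rw [h1]; exact v2) (by rw [h1]; exact v3)

/-- **A real edge.** -/
theorem VE1 {ys vs y v : ℂ} (h : VU ys vs) (B : B1N ys vs) (N : NAll ys vs)
    (e0 : -(1 / 10) ≤ ys.im) (hy : y.im = 0) (a0 : 1 / 4 ≤ y.re) (a1 : y.re ≤ 1 / 2)
    (hv : Vq vs v) : Es ys vs y v < 3 / 20 := by
  have e1 := h.e1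
  have n0 := h.n0.le
  have n1 : vs.im ≤ 11 / 125 := by linarith [h.n1]
  apply Vq.right h B hy hv
  · intro v hv b0 b1
    rcases le_total y.re (3 / 10) with c | c
    · rcases le_total v.re (7 / 50) with d | d
      · exact e1f_0_0 N e0 e1 n0 n1 hy a0 c hv b0 d
      · exact e1f_0_1 N e0 e1 n0 n1 hy a0 c hv d b1
    · rcases le_total y.re (7 / 20) with c' | c'
      · rcases le_total v.re (7 / 50) with d | d
        · exact e1f_1_0 N e0 e1 n0 n1 hy c c' hv b0 d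
        · exact e1f_1_1 N e0 e1 n0 n1 hy c c' hv d b1
      · rcases le_total v.re (7 / 50) with d | d
        · exact e1f_2_0 N e0 e1 n0 n1 hy c' a1 hv b0 d
        · exact e1f_2_1 N e0 e1 n0 n1 hy c' a1 hv d b1
  · intro v hv b0 b1
    rcases le_total y.re (3 / 10) with c | c
    · exact e1v_0 N e0 e1 n0 n1 hy a0 c hv b0 b1
    · rcases le_total y.re (7 / 20) with c' | c'
      · exact e1v_1 N e0 e1 n0 n1 hy c c' hv b0 b1
      · exact e1v_2 N e0 e1 n0 n1 hy c' a1 hv b0 b1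
  · intro v hv b0 b1
    exact e1r N e0 e1 n0 n1 hy a0 a1 hv b0 b1

/-- **A real edge far to the right**, neighbour of the other sign. -/
theorem VE2a {ys vs y v : ℂ} (h : VU ys vs) (B : B1N ys vs) (N : NAll ys vs)
    (e0 : -(3 / 40) ≤ ys.im) (e1 : ys.im ≤ 1 / 200) (hy : y.im = 0) (a0 : 2 / 5 ≤ y.re)
    (a1 : y.re ≤ 1 / 2) (hv : Vq vs v) : Es ys vs y v < 3 / 100 := by
  have n0 := h.n0.le
  have n1 : vs.im ≤ 11 / 125 := by linarith [h.n1]
  apply Vq.right h B hy hv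
  · intro v hv b0 b1
    rcases le_total v.re (1 / 5) with d | d
    · exact eaf_0 N e0 e1 n0 n1 hy a0 a1 hv b0 d
    · exact eaf_1 N e0 e1 n0 n1 hy a0 a1 hv d b1
  · intro v hv b0 b1
    exact eav N e0 e1 n0 n1 hy a0 a1 hv b0 b1
  · intro v hv b0 b1
    exact ear N h e0 e1 n0 n1 hy a0 a1 hv b0 b1

/-- **A real edge far to the right**, neighbour of the same sign. -/
theorem VE2s {ys vs y v : ℂ} (h : VU ys vs) (B : B1N ys vs) (N : NAll ys vs)
    (e0 : 0 ≤ ys.im) (e1 : ys.im ≤ 2 / 25) (hy : y.im = 0) (a0 : 2 / 5 ≤ y.re)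
    (a1 : y.re ≤ 1 / 2) (hv : Vq vs v) : Es ys vs y v < 2 / 25 := by
  have n0 := h.n0.le
  have n1 : vs.im ≤ 11 / 125 := by linarith [h.n1]
  apply Vq.right h B hy hv
  · intro v hv b0 b1
    exact esf N e0 e1 n0 n1 hy a0 a1 hv b0 b1
  · intro v hv b0 b1
    exact esv N e0 e1 n0 n1 hy a0 a1 hv b0 b1
  · intro v hv b0 b1
    exact esr N e0 e1 n0 n1 hy a0 a1 hv b0 b1

end Pool.Agent.S5
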