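import Pool.Agent.S5.I.VZg

/-!
# The slots of the open nodes: the other slot of a node with a low edge
-/

set_option autoImplicit false

namespace Pool.Agent.S5

open Pool.Agent.H63.VC3 Pool.Agent.S3 Complex Tb VZ MeasureTheory Filter Topology Set

/-- **Real `v`**: the bound for the other slot. -/
theorem VNQ_of {ys vs y v : ℂ} (h : VU ys vs) (B : B1N ys vs) (N : NAll ys vs)
    (e0 : -(13 / 100) ≤ ys.im) (hy : Yf ys y ∨ Yr ys y ∨ Yl ys y) (hv : v.im = 0)
    (h0 : 1 / 4 ≤ |v.re|) (h1 : |v.re| ≤ 1 / 2) : Es ys vs y v < 1 / 50 := by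
  have hn := h.n0
  have e1 := h.e1
  have n0 := hn.le
  have n1 : vs.im ≤ 11 / 125 := by linarith [h.n1]
  rcases hy with ⟨hy, b0, b1⟩ | hy | hy
  · rcases le_total y.re 0 with c | c
    · exact (VNC_neg h N hy b0 c hv h1).trans (by norm_num)
    · rw [Es_real hn.ne' hv, SS_abs hv]
      refine (add_le_add_left (SS_real_anti c b1 (by norm_num) h0 h1) _).trans_lt ?_
      rcases le_total ys.im (-(3 / 50)) with s | s
      · rcases le_total y.re (3 / 10) with d | d
        · exact qf0_0 N e0 s n0 n1 hy c d rfl
        · rcases le_total y.re (7 / 20) with d2 | d2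
          · exact qf0_1 N e0 s n0 n1 hy d d2 rfl
          · rcases le_total y.re (2 / 5) with d3 | d3
            · exact qf0_2 N e0 s n0 n1 hy d2 d3 rfl
            · exact qf0_3 N e0 s n0 n1 hy d3 b1 rfl
      · rcases le_total ys.im (1 / 100) with s2 | s2
        · rcases le_total y.re (3 / 10) with d | d
          · exact qf1_0 N s s2 n0 n1 hy c d rfl
          · rcases le_total y.re (7 / 20) with d2 | d2
            · exact qf1_1 N s s2 n0 n1 hy d d2 rfl
            · rcases le_total y.re (2 / 5) with d3 | d3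
              · exact qf1_2 N s s2 n0 n1 hy d2 d3 rfl
              · exact qf1_3 N s s2 n0 n1 hy d3 b1 rfl
        · rcases le_total ys.im (11 / 200) with s3 | s3
          · rcases le_total y.re (3 / 10) with d | d
            · exact qf2_0 N s2 s3 n0 n1 hy c d rfl
            · rcases le_total y.re (7 / 20) with d2 | d2
              · exact qf2_1 N s2 s3 n0 n1 hy d d2 rfl
              · rcases le_total y.re (2 / 5) with d3 | d3
                · exact qf2_2 N s2 s3 n0 n1 hy d2 d3 rfl
                · exact qf2_3 N s2 s3 n0 n1 hy d3 b1 rfl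
          · rcases le_total y.re (3 / 10) with d | d
            · exact qf3_0 N s3 e1 n0 n1 hy c d rfl
            · rcases le_total y.re (7 / 20) with d2 | d2
              · exact qf3_1 N s3 e1 n0 n1 hy d d2 rfl
              · rcases le_total y.re (2 / 5) with d3 | d3
                · exact qf3_2 N s3 e1 n0 n1 hy d2 d3 rfl
                · exact qf3_3 N s3 e1 n0 n1 hy d3 b1 rfl
  · have hv2 : Vc vs ((1 / 2 : ℝ) : ℂ) := by
      refine Or.inr (Or.inr ⟨by simp, ?_, ?_⟩)
      · rw [ofReal_re, abs_of_pos (by norm_num)]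
        norm_num
      · rw [ofReal_re, abs_of_pos (by norm_num)]
    have k := VNR_holds ys vs _ _ h hy hv2
    rw [Es_eq_Er hn.ne' hy.1] at k ⊢
    rw [hv, Er_real ys vs y.im v.re (1 / 2)]
    rw [ofReal_re, ofReal_im] at k
    linarith
  · exact (VNL_real h B N hy hv h1).trans (by norm_num)

end Pool.Agent.S5
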