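import Pool.Agent.S5.I.VZf

/-!
# The slots of the open nodes: a real edge to the right of `3 / 8`, neighbour of the same sign
-/

set_option autoImplicit false

namespace Pool.Agent.S5

open Pool.Agent.H63.VC3 Pool.Agent.S3 Complex Tb

/-- The additional bounds of the functionals of the critical point. -/
structure NB3 (ys vs : ℂ) : Prop where
  es_75_0 : 0 ≤ ys.im → ys.im ≤ 2 / 25 → 0 ≤ vs.im → vs.im ≤ 11 / 125 →
    Phi ys vs (3 / 8) 0 0 ≤ -(1091 / 2500) - 3 / 20 * vs.im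
  es_75_56 : 0 ≤ ys.im → ys.im ≤ 2 / 25 → 0 ≤ vs.im → vs.im ≤ 11 / 125 →
    Phi ys vs (3 / 8) 0 (7 / 25) ≤ -(769 / 2500) - 1 / 20 * vs.im
  es_75_24 : 0 ≤ ys.im → ys.im ≤ 2 / 25 → 0 ≤ vs.im → vs.im ≤ 11 / 125 →
    Phi ys vs (3 / 8) 0 (3 / 25) ≤ -(2079 / 5000) - 1 / 10 * vs.im
  es_80_24 : 0 ≤ ys.im → ys.im ≤ 2 / 25 → 0 ≤ vs.im → vs.im ≤ 11 / 125 →
    Phi ys vs (2 / 5) 0 (3 / 25) ≤ -(1967 / 5000) - 1 / 20 * vs.im
  esr_75 : 0 ≤ ys.im → ys.im ≤ 2 / 25 → 0 ≤ vs.im → vs.im ≤ 11 / 125 →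
    Psi ys vs (3 / 8) 0 ≤ -(219 / 625)

namespace VZ

theorem k_esg :
    bb (tst 2 956398 0 0 1124073 0 0 0 163403 157286 0 0) 60
      112000 112640 102400 102400 102400 105472 102400 104653 = true := by
  decide +kernel

theorem esg {ys vs y v : ℂ} (N : NAll ys vs) (M : NB3 ys vs) (e0 : 0 ≤ ys.im) (e1 : ys.im ≤ 2 / 25) (n0 : 0 ≤ vs.im) (n1 : vs.im ≤ 11 / 125)
    (hy : y.im = 0) (a0 : 3 / 8 ≤ y.re) (a1 : y.re ≤ 2 / 5) (hv : v.im = vs.im) (b0 : 0 ≤ v.re) (b1 : v.re ≤ 3 / 25) :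
    SS y v + Phi ys vs y.re y.im v.re < 2 / 25 := by
  have h := bb_sound tab_ok k_esg (y := y) (v := v) ⟨by norm_num; linarith, by norm_num; linarith⟩
    ⟨by rw [hy]; norm_num, by rw [hy]; norm_num⟩
    ⟨by norm_num; linarith, by norm_num; linarith⟩
    ⟨by norm_num; linarith, by norm_num; linarith⟩
  have hP := Phi_Xu (ys := ys) (vs := vs) (s := 0) (X0 := 3 / 8) (X1 := 2 / 5) (u0 := 0) (u1 := 3 / 25)
    (c0 := 2097152 / 25 - (956398 + 157286 * vs.im)) (c1 := 1124073) (c3 := 163403)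
    (by linarith [M.es_75_0 (by linarith) (by linarith) (by linarith) (by linarith)])
    (by linarith [N.es_80_0 (by linarith) (by linarith) (by linarith) (by linarith)])
    (by linarith [M.es_75_24 (by linarith) (by linarith) (by linarith) (by linarith)])
    (by linarith [M.es_80_24 (by linarith) (by linarith) (by linarith) (by linarith)]) a0 a1 b0 b1
  push_cast at h
  rw [hy] at h ⊢
  rw [hv] at h
  unfold SS
  linarith

theorem k_esh :
    bb (tst 2 1029955 0 0 1124073 0 0 0 737935 104858 0 0) 60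
      112000 112640 102400 102400 105472 109568 102400 104653 = true := by
  decide +kernel

theorem esh {ys vs y v : ℂ} (N : NAll ys vs) (M : NB3 ys vs) (e0 : 0 ≤ ys.im) (e1 : ys.im ≤ 2 / 25) (n0 : 0 ≤ vs.im) (n1 : vs.im ≤ 11 / 125)
    (hy : y.im = 0) (a0 : 3 / 8 ≤ y.re) (a1 : y.re ≤ 2 / 5) (hv : v.im = vs.im) (b0 : 3 / 25 ≤ v.re) (b1 : v.re ≤ 7 / 25) :
    SS y v + Phi ys vs y.re y.im v.re < 2 / 25 := by
  have h := bb_sound tab_ok k_esh (y := y) (v := v) ⟨by norm_num; linarith, by norm_num; linarith⟩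
    ⟨by rw [hy]; norm_num, by rw [hy]; norm_num⟩
    ⟨by norm_num; linarith, by norm_num; linarith⟩
    ⟨by norm_num; linarith, by norm_num; linarith⟩
  have hP := Phi_Xu (ys := ys) (vs := vs) (s := 0) (X0 := 3 / 8) (X1 := 2 / 5) (u0 := 3 / 25) (u1 := 7 / 25)
    (c0 := 2097152 / 25 - (1029955 + 104858 * vs.im)) (c1 := 1124073) (c3 := 737935)
    (by linarith [M.es_75_24 (by linarith) (by linarith) (by linarith) (by linarith)])
    (by linarith [M.es_80_24 (by linarith) (by linarith) (by linarith) (by linarith)])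
    (by linarith [M.es_75_56 (by linarith) (by linarith) (by linarith) (by linarith)])
    (by linarith [N.es_80_56 (by linarith) (by linarith) (by linarith) (by linarith)]) a0 a1 b0 b1
  push_cast at h
  rw [hy] at h ⊢
  rw [hv] at h
  unfold SS
  linarith

theorem k_esw :
    bb (tst 2 620224 0 0 650117 0 0 0 0 393216 0 0) 60
      112000 112640 102400 102400 109568 109568 102400 104653 = true := by
  decide +kernel

theorem esw {ys vs y v : ℂ} (N : NAll ys vs) (M : NB3 ys vs) (e0 : 0 ≤ ys.im) (e1 : ys.im ≤ 2 / 25) (n0 : 0 ≤ vs.im) (n1 : vs.im ≤ 11 / 125)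
    (hy : y.im = 0) (a0 : 3 / 8 ≤ y.re) (a1 : y.re ≤ 2 / 5) (hv : v.re = 7 / 25) (b0 : 0 ≤ v.im) (b1 : v.im ≤ vs.im) :
    SS y v + Phi ys vs y.re y.im (7 / 25) + 3 / 8 * (vs.im - v.im) < 2 / 25 := by
  have h := bb_sound tab_ok k_esw (y := y) (v := v) ⟨by norm_num; linarith, by norm_num; linarith⟩
    ⟨by rw [hy]; norm_num, by rw [hy]; norm_num⟩
    ⟨by rw [hv]; norm_num, by rw [hv]; norm_num⟩
    ⟨by norm_num; linarith, by norm_num; linarith⟩
  have hP := Phi_X (ys := ys) (vs := vs) (s := 0) (u := 7 / 25) (X0 := 3 / 8) (X1 := 2 / 5)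
    (c0 := 2097152 / 25 - 620224 - 393216 * vs.im) (c1 := 650117)
    (by linarith [M.es_75_56 (by linarith) (by linarith) (by linarith) (by linarith)])
    (by linarith [N.es_80_56 (by linarith) (by linarith) (by linarith) (by linarith)]) a0 a1
  push_cast at h
  rw [hy] at h ⊢
  unfold SS
  linarith

theorem k_est :
    bb (tst 2 624314 0 0 461373 0 0 0 0 0 0 0) 60
      112000 112640 102400 102400 108800 115200 102400 102400 = true := by
  decide +kernel

theorem est {ys vs y v : ℂ} (N : NAll ys vs) (M : NB3 ys vs) (e0 : 0 ≤ ys.im) (e1 : ys.im ≤ 2 / 25) (n0 : 0 ≤ vs.im) (n1 : vs.im ≤ 11 / 125)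
    (hy : y.im = 0) (a0 : 3 / 8 ≤ y.re) (a1 : y.re ≤ 2 / 5) (hv : v.im = 0) (b0 : 1 / 4 ≤ v.re) (b1 : v.re ≤ 1 / 2) :
    SS y v + Psi ys vs y.re y.im < 2 / 25 := by
  have h := bb_sound tab_ok k_est (y := y) (v := v) ⟨by norm_num; linarith, by norm_num; linarith⟩
    ⟨by rw [hy]; norm_num, by rw [hy]; norm_num⟩
    ⟨by norm_num; linarith, by norm_num; linarith⟩
    ⟨by rw [hv]; norm_num, by rw [hv]; norm_num⟩
  have hP := Psi_X (ys := ys) (vs := vs) (s := 0) (X0 := 3 / 8) (X1 := 2 / 5)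
    (c0 := 2097152 / 25 - 624314) (c1 := 461373)
    (by linarith [M.esr_75 (by linarith) (by linarith) (by linarith) (by linarith)]) (by linarith [N.esr_80 (by linarith) (by linarith) (by linarith) (by linarith)]) a0 a1
  push_cast at h
  rw [hy] at h ⊢
  rw [hv] at h
  unfold SS
  linarith

end VZ

open VZ in
/-- **A real edge to the right of `3 / 8`**, neighbour of the same sign. -/
theorem VE2t {ys vs y v : ℂ} (h : VU ys vs) (B : B1N ys vs) (N : NAll ys vs) (M : NB3 ys vs)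
    (e0 : 0 ≤ ys.im) (e1 : ys.im ≤ 2 / 25) (hy : y.im = 0) (a0 : 3 / 8 ≤ y.re)
    (a1 : y.re ≤ 1 / 2) (hv : Vq vs v) : Es ys vs y v < 2 / 25 := by
  have n0 := h.n0.le
  have n1 : vs.im ≤ 11 / 125 := by linarith [h.n1]
  rcases le_total (2 / 5) y.re with c | c
  · exact VE2s h B N e0 e1 hy c a1 hv
  apply Vq.right h B hy hv
  · intro v hv b0 b1
    rcases le_total v.re (3 / 25) with d | d
    · exact esg N M e0 e1 n0 n1 hy a0 c hv b0 d
    · exact esh N M e0 e1 n0 n1 hy a0 c hv d b1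
  · intro v hv b0 b1
    exact esw N M e0 e1 n0 n1 hy a0 c hv b0 b1
  · intro v hv b0 b1
    exact est N M e0 e1 n0 n1 hy a0 c hv b0 b1

end Pool.Agent.S5
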