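import Pool.Agent.S5.I.VZi
import Pool.Agent.S5.I.VZs
import Pool.Agent.S5.I.VY6

/-!
# The slots of the open nodes: the additional bounds of the functionals
-/

set_option autoImplicit false

namespace Pool.Agent.S5.Pa

open Pool.Agent.H63.VC3 Pool.Agent.S3 Complex

/-- **The additional bounds.** -/
theorem NB3_of {ys vs : ℂ} (hV : VU ys vs) : NB3 ys vs := by
  constructor
  · -- es_75_0
    intro e0 e1 n0 n1
    have h := run2 hV le_rfl le_rfl (Nat.zero_le 1) z_es_75_0
      (by norm_num; linarith) (by norm_num; linarith) (by norm_num; linarith) (by norm_num; linarith)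
    rw [FF_Phi, show (((175 : ℕ) : ℝ) - 100) / 200 = 3 / 8 by norm_num, show (((40 : ℕ) : ℝ) - 40) / 200 = 0 by norm_num, show (((100 : ℕ) : ℝ) - 100) / 200 = 0 by norm_num] at h
    push_cast at h
    linarith
  · -- es_75_56
    intro e0 e1 n0 n1
    have h := run2 hV le_rfl le_rfl (Nat.zero_le 1) z_es_75_56
      (by norm_num; linarith) (by norm_num; linarith) (by norm_num; linarith) (by norm_num; linarith)
    rw [FF_Phi, show (((175 : ℕ) : ℝ) - 100) / 200 = 3 / 8 by norm_num, show (((40 : ℕ) : ℝ) - 40) / 200 = 0 by norm_num, show (((156 : ℕ) : ℝ) - 100) / 200 = 7 / 25 by norm_num] at h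
    push_cast at h
    linarith
  · -- es_75_24
    intro e0 e1 n0 n1
    have h := run2 hV le_rfl le_rfl (Nat.zero_le 1) z_es_75_24
      (by norm_num; linarith) (by norm_num; linarith) (by norm_num; linarith) (by norm_num; linarith)
    rw [FF_Phi, show (((175 : ℕ) : ℝ) - 100) / 200 = 3 / 8 by norm_num, show (((40 : ℕ) : ℝ) - 40) / 200 = 0 by norm_num, show (((124 : ℕ) : ℝ) - 100) / 200 = 3 / 25 by norm_num] at h
    push_cast at h
    linarith
  · -- es_80_24
    intro e0 e1 n0 n1
    have h := run2 hV le_rfl le_rfl (Nat.zero_le 1) z_es_80_24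
      (by norm_num; linarith) (by norm_num; linarith) (by norm_num; linarith) (by norm_num; linarith)
    rw [FF_Phi, show (((180 : ℕ) : ℝ) - 100) / 200 = 2 / 5 by norm_num, show (((40 : ℕ) : ℝ) - 40) / 200 = 0 by norm_num, show (((124 : ℕ) : ℝ) - 100) / 200 = 3 / 25 by norm_num] at h
    push_cast at h
    linarith
  · -- esr_75
    intro e0 e1 n0 n1
    have h := run2 hV le_rfl (Nat.zero_le 1) le_rfl z_esr_75
      (by norm_num; linarith) (by norm_num; linarith) (by norm_num; linarith) (by norm_num; linarith)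
    rw [FF_Psi, show (((175 : ℕ) : ℝ) - 100) / 200 = 3 / 8 by norm_num, show (((40 : ℕ) : ℝ) - 40) / 200 = 0 by norm_num] at h
    push_cast at h
    linarith

end Pool.Agent.S5.Pa
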