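import Pool.Agent.S5.I.LowD
import Pool.Agent.S5.I.QuadV
import Pool.Agent.S5.I.VB7
import Pool.Agent.S5.I.VR
import Pool.Agent.S5.I.VQf
import Pool.Agent.S5.I.VZf
import Pool.Agent.S5.I.VZg
import Pool.Agent.S5.I.VZh
import Pool.Agent.S5.I.VZi
import Pool.Agent.S5.I.VZs
import Pool.Agent.S5.I.VZt
import Pool.Agent.S5.I.PaF

/-!
# The slots of the nodes with five or more half twists: assembly of `VS`
-/

set_option autoImplicit false

namespace Pool.Agent.S5

open Pool.Agent.H63.VC3 Pool.Agent.S3 Complex Set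

/-- Everything that is needed at a slot of a node with five or more half twists. -/
structure SlV (n : Nt) (vs : ℂ) (s : Slt) : Prop where
  U : VU s.ys vs
  hl : s.lam = ly 2 s.ys vs
  zs : s.S = true → 3 / 8 ≤ s.z1
  za : s.S = false → 2 / 5 ≤ s.z1
  na : 5 ≤ n.a
  e0 : -(13 / 100) ≤ s.ys.im
  /-- for real edges forced by a small index at the other node -/
  re : s.x.e = false → s.x.a ≤ 4 → -(1 / 10) ≤ s.ys.im
  /-- for real edges forced by the variable of the other node -/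
  rs : s.x.a = 3 ∨ s.x = ⟨4, false⟩ → s.S = true → 0 ≤ s.ys.im ∧ s.ys.im ≤ 2 / 25
  ra : s.x.a = 3 ∨ s.x = ⟨4, false⟩ → s.S = false → -(3 / 40) ≤ s.ys.im ∧ s.ys.im ≤ 1 / 200
  /-- the regions of the payments -/
  c2 : s.x = ⟨2, true⟩ → VC2 s.ys vs
  c3a : s.x = ⟨3, true⟩ → s.S = false → VC3a s.ys vs
  c3s : s.x = ⟨3, true⟩ → s.S = true → VC3s s.ys vs
  c4 : s.x = ⟨4, true⟩ → 6 ≤ n.a → VC4 s.ys vs
  c5 : s.x = ⟨3, false⟩ → 6 ≤ n.a → VC5 s.ys vs

theorem eff_flat {pc : Pc} (h : pc.box = false) (h1 : pc ≠ .lo) (y : ℂ) : pc.eff y = y := by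
  unfold Pc.eff
  rw [if_neg (by simp [h]), if_neg h1]

theorem slE_flat {S : Bool} {n x : Nt} {pc : Pc} {lam ys y : ℂ} {w : ℝ} (h : pc.box = false)
    (h1 : pc ≠ .lo) (hw : w = 0) (hd : dT S n x pc = 0) :
    slE S n x pc lam ys y w = -hT S n x pc := by
  unfold slE
  rw [eff_flat h h1, hw, hd]
  simp

theorem slE_std {S : Bool} {n x : Nt} {pc : Pc} {lam ys y : ℂ} {w : ℝ}
    (hd : dT S n x pc = 0 ∧ hT S n x pc = 0) :
    slE S n x pc lam ys y w = (lam * (y - pc.eff y)).re - w / 2 := by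
  unfold slE
  rw [hd.1, hd.2]
  ring

theorem dT_re (S : Bool) (n x : Nt) (f : Fc) : dT S n x (.re f) = 0 := by
  unfold dT
  simp [d0, Pc.mir]

theorem dT_rz (S : Bool) (n x : Nt) (f : Fc) : dT S n x (.rz f) = 0 := by
  unfold dT
  simp [d0, Pc.mir]

theorem hT_re_far (S : Bool) (n x : Nt) : 15 / 100 ≤ hT S n x (.re .far) := by
  unfold hT
  cases S <;> norm_num [r0, Pc.mir, Fc.mir]

theorem hT_rz_far {S : Bool} {n x : Nt} (h : 5 ≤ n.a) :
    (if S = true then 8 / 100 else 3 / 100 : ℝ) ≤ hT S n x (.rz .far) := by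
  obtain ⟨a, e⟩ := n
  have h' : 5 ≤ a := h
  have h2 : a ≠ 2 := by omega
  have h3 : a ≠ 3 := by omega
  unfold hT
  cases S <;> norm_num [r0, Pc.mir, Fc.mir, h2, h3]

/-- The payments on the standard pieces. -/
theorem SlV.pay {n : Nt} {vs : ℂ} {s : Slt} (h : SlV n vs s) {y v : ℂ} {w : ℝ} {pc : Pc}
    (hs : pc.std) (hy : pc.In (3 / 20) s.ys.im y w) (hv : Vq vs v) :
    (dT s.S n s.x pc = 0 ∧ hT s.S n s.x pc = 0) ∨
      Es s.ys vs y v + slE s.S n s.x pc s.lam s.ys y w < 0 := by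
  obtain ⟨ex, S, x, z1, ys, lam⟩ := s
  have hU := h.U
  have hl := h.hl
  have hn := h.na
  have c2 := h.c2
  have c3a := h.c3a
  have c3s := h.c3s
  have c4 := h.c4
  have c5 := h.c5
  simp only at hU hl c2 c3a c3s c4 c5 hy ⊢
  rw [hl]
  by_cases x2 : x = ⟨2, true⟩
  · rw [x2]
    by_cases hp : pc = .p ∨ pc = .P ∨ pc = .u ∨ pc = .L ∨ pc = .t
    · exact Or.inr (VC2.sl hn hU (c2 x2) hp hy hv)
    · exact Or.inl (VC2.rest hn hs hp)
  by_cases x3 : x = ⟨3, true⟩
  · rw [x3]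
    by_cases hp : pc = .p ∨ pc = .P ∨ pc = .u ∨ pc = .U ∨ pc = .L ∨ pc = .G ∨ pc = .H ∨ pc = .t
    · cases S
      · exact Or.inr (VC3a.sl hn hU (c3a x3 rfl) hp hy hv)
      · exact Or.inr (VC3s.sl hn hU (c3s x3 rfl) hp hy hv)
    · cases S
      · exact Or.inl (VC3a.rest hn hs hp)
      · exact Or.inl (VC3s.rest hn hs hp)
  rcases Nat.lt_or_ge n.a 6 with h6 | h6
  · exact Or.inl (none.rest hn hs x2 x3 (fun _ => h6) (fun _ => h6))
  by_cases x4 : x = ⟨4, true⟩
  · rw [x4]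
    by_cases hp : pc = .p ∨ pc = .P ∨ pc = .u ∨ pc = .L ∨ pc = .G ∨ pc = .t
    · exact Or.inr (VC4.sl h6 hU (c4 x4 h6) hp hy hv)
    · exact Or.inl (VC4.rest h6 hs hp)
  by_cases x5 : x = ⟨3, false⟩
  · rw [x5]
    by_cases hp : pc = .p ∨ pc = .P ∨ pc = .u ∨ pc = .L ∨ pc = .t
    · exact Or.inr (VC5.sl h6 hU (c5 x5 h6) hp hy hv)
    · exact Or.inl (VC5.rest h6 hs hp)
  exact Or.inl (none.rest hn hs x2 x3 (fun h => absurd h x4) (fun h => absurd h x5))

theorem uIcc_mul {s η : ℝ} (h : s ∈ uIcc 0 η) : s * (s - η) ≤ 0 := by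
  rcases le_total 0 η with h0 | h0
  · rw [uIcc_of_le h0] at h
    nlinarith [h.1, h.2]
  · rw [uIcc_of_ge h0] at h
    nlinarith [h.1, h.2]

/-- The flats, legs and the rectangle without payments. -/
theorem std_cases {ys y : ℂ} {w : ℝ} {pc : Pc} (hs : pc.std) (hy : pc.In (3 / 20) ys.im y w) :
    (pc.eff y = y ∧ w = 0 ∧ Yf ys y ∧ (y.re ≤ 3 / 20 ∨ pc = .F)) ∨
      (pc.eff y = y ∧ w = 0 ∧ Yl ys y) ∨ (pc.eff y = y ∧ w = 0 ∧ Yr ys y) ∨ pc.box = true := by
  cases pc with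
  | F =>
    obtain ⟨h1, h2, h3, h4⟩ := hy
    exact Or.inl ⟨eff_flat rfl (by simp) y, h1, ⟨h2, by linarith, h4⟩, Or.inr rfl⟩
  | H =>
    obtain ⟨h1, h2, h3, h4⟩ := hy
    exact Or.inl ⟨eff_flat rfl (by simp) y, h1, ⟨h2, by linarith, by linarith⟩, Or.inl h4⟩
  | G =>
    obtain ⟨h1, h2, h3, h4⟩ := hy
    exact Or.inl ⟨eff_flat rfl (by simp) y, h1, ⟨h2, by linarith, by linarith⟩,
      Or.inl (by linarith)⟩
  | L =>
    obtain ⟨h1, h2, h3⟩ := hy
    exact Or.inr (Or.inl ⟨eff_flat rfl (by simp) y, h1, h2, uIcc_mul h3⟩)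
  | R =>
    obtain ⟨h1, h2, h3⟩ := hy
    exact Or.inr (Or.inr (Or.inl ⟨eff_flat rfl (by simp) y, h1, h2, uIcc_mul h3⟩))
  | lo => exact absurd hs id
  | re f => exact absurd hs id
  | rz f => exact absurd hs id
  | _ => exact Or.inr (Or.inr (Or.inr rfl))

/-- The real edges. -/
theorem SlV.far {n : Nt} {vs : ℂ} {s : Slt} (h : SlV n vs s) {y v : ℂ} {w : ℝ} {pc : Pc}
    (hp : pc = .re .far ∨ pc = .rz .far) (hy : s.InE pc y w) (hv : Vq vs v) :
    Es s.ys vs y v + slE s.S n s.x pc s.lam s.ys y w < 0 := by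
  have B := b1n_of_VU h.U
  have N := Pa.NAll_of h.U
  obtain ⟨hI, hz, hr⟩ := hy
  rcases hp with rfl | rfl
  · obtain ⟨k1, k2⟩ := hr (Or.inl rfl)
    obtain ⟨h1, h2, h3, h4⟩ := hI
    rw [slE_flat rfl (by simp) h1 (dT_re _ _ _ _)]
    have e1 := VE1 h.U B N (h.re k1 k2) h2 h3 h4 hv
    have e2 := hT_re_far s.S n s.x
    linarith
  · obtain ⟨k1, k2⟩ := hz (Or.inl rfl)
    obtain ⟨h1, h2, h3, h4⟩ := hI
    rw [slE_flat rfl (by simp) h1 (dT_rz _ _ _ _)]
    have e2 := hT_rz_far (S := s.S) (x := s.x) h.na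
    by_cases hS : s.S = true
    · rw [if_pos hS] at e2
      obtain ⟨q1, q2⟩ := h.rs k1 hS
      have hz := h.zs hS
      have e1 := VE2t h.U B N (Pa.NB3_of h.U) q1 q2 h2 (by linarith) h4 hv
      linarith
    · rw [if_neg hS] at e2
      have hS' : s.S = false := by simpa using hS
      obtain ⟨q1, q2⟩ := h.ra k1 hS'
      have hz := h.za hS'
      have e1 := VE2a h.U B N q1 q2 h2 (by linarith) h4 hv
      linarith

/-- **The slots of the nodes with five or more half twists.** -/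
theorem SlV.vs {n : Nt} {vs : ℂ} {s : Slt} (h : SlV n vs s) (C : VNC) : VS n (7 / 25) vs s := by
  have B := b1n_of_VU h.U
  have N := Pa.NAll_of h.U
  refine ⟨fun y v w pc hf hy hv => ?_, ?_, fun _ y v w pc hf hy hv0 hv1 hv2 => ?_, ?_⟩
  · have hq := hv.vq
    have hs : pc.std ∨ (pc = .re .far ∨ pc = .rz .far) := hf
    rcases hs with hs | hs
    · have hI := hy.1
      rcases h.pay hs hI hq with h0 | h0
      · rw [slE_std h0]
        rcases std_cases hs hI with ⟨k1, k2, k3, k4⟩ | ⟨k1, k2, k3⟩ | ⟨k1, k2, k3⟩ | k1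
        · rw [k1, k2, sub_self, mul_zero, zero_re, zero_div, sub_zero, add_zero]
          have key : Es s.ys vs y v < 0 ∨ (Es s.ys vs y v ≤ 0 ∧
              (Es s.ys vs y v = 0 → y = s.ys ∧ v = vs)) := by
            rcases hv with hv | hv | hv
            · exact Or.inr (VNB_holds _ _ _ _ h.U k3 hv)
            · exact Or.inl (C _ _ _ _ h.U k3 (Or.inl hv))
            · exact Or.inl (C _ _ _ _ h.U k3 (Or.inr hv))
          rcases key with key | ⟨key, key'⟩
          · exact Or.inl key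
          rcases key.lt_or_eq with key | key
          · exact Or.inl key
          obtain ⟨e1, e2⟩ := key' key
          rcases k4 with k4 | k4
          · have := h.U.t0
            rw [e1] at k4
            linarith
          · exact Or.inr ⟨e1, e2, k4⟩
        · left
          rw [k1, k2, sub_self, mul_zero, zero_re, zero_div, sub_zero, add_zero]
          exact VNL_of h.U B N h.e0 k3 hq
        · left
          rw [k1, k2, sub_self, mul_zero, zero_re, zero_div, sub_zero, add_zero]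
          exact VNR_holds _ _ _ _ h.U k3 hv
        · left
          have := h.U.box B k1 hI hq
          rw [h.hl]
          linarith
      · exact Or.inl h0
    · exact Or.inl (h.far hs hy hq)
  · exact VS_L h.U (by rw [h.hl, ly_re])
  · have ha : |v.re| = v.re := abs_of_nonneg (by linarith)
    have hq : Vq vs v := Or.inr (Or.inr ⟨hv0, by rw [ha]; exact hv1, by rw [ha]; exact hv2⟩)
    have hs : pc.std ∨ (pc = .re .far ∨ pc = .rz .far) := hf
    rcases hs with hs | hs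
    · have hI := hy.1
      rcases h.pay hs hI hq with h0 | h0
      · rw [slE_std h0]
        have q : Yf s.ys y ∨ Yr s.ys y ∨ Yl s.ys y → Es s.ys vs y v < 1 / 50 := fun k =>
          VNQ_of h.U B N h.e0 k hv0 (by rw [ha]; exact hv1) (by rw [ha]; exact hv2)
        rcases std_cases hs hI with ⟨k1, k2, k3, k4⟩ | ⟨k1, k2, k3⟩ | ⟨k1, k2, k3⟩ | k1
        · rw [k1, k2, sub_self, mul_zero, zero_re, zero_div, sub_zero, add_zero]
          exact q (Or.inl k3)
        · rw [k1, k2, sub_self, mul_zero, zero_re, zero_div, sub_zero, add_zero]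
          exact q (Or.inr (Or.inr k3))
        · rw [k1, k2, sub_self, mul_zero, zero_re, zero_div, sub_zero, add_zero]
          exact q (Or.inr (Or.inl k3))
        · have := h.U.box B k1 hI hq
          rw [h.hl]
          linarith
      · linarith
    · have := h.far hs hy hq
      linarith
  · exact h.U.quad

end Pool.Agent.S5
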