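import Pool.Agent.S5.I.VB4

/-!
# Flats of a slot: all cases with `Re v - Re y ≤ 2 (Re y* - Re v*)`
-/

set_option autoImplicit false

namespace Pool.Agent.S5.VB

open Pool.Agent.H63.VC3 Pool.Agent.S3 Pool.Agent.S5 MeasureTheory Filter Topology Set

variable {X N T H t x : ℝ}

theorem pp {a b p e δ : ℝ} (h : PT X N T H t x a b p e δ) : 0 < Fl X N T H t x := by
  rcases le_total T (30 / 100) with h1 | h1
  · exact zone1 h h1
  rcases le_total T (315 / 1000) with h2 | h2
  · exact zone2 h h1 h2
  rcases le_total T (33 / 100) with h3 | h3
  · exact zone3 h h2 h3
  · exact zone4 h h3

/-- Beyond `1/2`, `t ≤ 42/100`. -/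
theorem beyond (h : RG X N T H) (ht : t ≤ 42 / 100) (hx : x ≤ 7 / 25) (he : 1 / 2 ≤ t + x)
    (hq : T + X ≤ t + x) (hne : ¬(t = T ∧ x = X)) : 0 < Fl X N T H t x := by
  have x0 := h.x0
  have x1 := h.x1
  have g := h.g
  have t0 := h.t0
  have t1 := h.t1
  have p' := h.p
  obtain ⟨a, ha⟩ : ∃ a, a = t - T := ⟨_, rfl⟩
  obtain ⟨b, hb⟩ : ∃ b, b = T - X - (t - x) := ⟨_, rfl⟩
  obtain ⟨p, hp⟩ : ∃ p, p = T - X := ⟨_, rfl⟩
  obtain ⟨e, hee⟩ : ∃ e, e = t + x - 1 / 2 := ⟨_, rfl⟩
  obtain ⟨δ, hδ⟩ : ∃ δ, δ = max (T + X - 1 / 2) 0 := ⟨_, rfl⟩
  have d0 : 0 ≤ δ := by rw [hδ]; exact le_max_right _ _
  have d1 : T + X - 1 / 2 ≤ δ := by rw [hδ]; exact le_max_left _ _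
  have de : δ ≤ e := by
    rw [hδ]
    exact max_le (by linarith only [hee, hq]) (by linarith only [hee, he])
  have d3 : δ ≤ 45 / 1000 := by
    rw [hδ]
    exact max_le (by linarith only [p']) (by norm_num)
  have e0 : 0 ≤ e := by linarith only [hee, he]
  have c3 : e - δ ≤ 2 * a + b := by linarith only [d1, hee, hb, ha]
  have hDp : ∀ κ E : ℝ, KB κ E → e ≤ E →
      -(κ / 6 * ((e + 2 * δ) * (e - δ) ^ 2)) ≤ Dd (H + N) (T + X) (t + x) := by
    intro κ E hk hE
    have h3 := Dp_ge (s := H + N) (q := T + X) (e := e) hk (by linarith only [g, x1, x0]) e0 (by linarith only [hee,
                                                                                                   hq]) hE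
    rw [← hδ] at h3
    rwa [show 1 / 2 + e = t + x by linarith only [hee]] at h3
  rcases lt_or_ge b 0 with hb0 | hb0
  · -- `b < 0`
    have ha0 : 0 < a := by linarith only [hb0, hb, ha, hq]
    have h1 := D0_222 h (t := t) (by linarith only [hb0, hb, hq]) ht
    rw [← ha] at h1
    have h2 := hDp _ _ KB_200 (by linarith only [hee, hx, ht])
    have h3 : 0 ≤ Dd (H - N) (T - X) (t - x) :=
      Dd_nonneg_right (by linarith only [g, x1, x0]) (by linarith only [hb0, hb]) (by linarith only [x0,
                                                                                        hq, ht])
    have h4 : (e - δ) ^ 2 ≤ (2 * a) ^ 2 := pow_le_pow_left₀ (by linarith only [de]) (by linarith only [hb0,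
                                                                                          d1, hee,
                                                                                          hb, ha]) 2
    have h5 : (e + 2 * δ) * (e - δ) ^ 2 ≤ 29 / 100 * (2 * a) ^ 2 :=
      mul_le_mul (by linarith only [d3, hee, hx, ht]) h4 (sq_nonneg _) (by norm_num)
    have h6 : 0 < a ^ 2 := by positivity
    unfold Fl
    linarith only [h6, h5, h3, h2, h1]
  rcases lt_or_ge a 0 with ha0 | ha0
  · -- `a < 0`
    have hb1 : 0 < b := by linarith only [ha0, hb, ha, hq]
    have h1 : 0 ≤ Dd H (1 / 2 - T) (1 / 2 - t) :=
      D0_nonneg h (by linarith only [he, hx]) (by linarith only [ht])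
    have h2 : 0 < b ^ 2 := by positivity
    have h3 : (e - δ) ^ 2 ≤ b ^ 2 := pow_le_pow_left₀ (by linarith only [de]) (by linarith only [ha0,
                                                                                    d1, hee, hb, ha]) 2
    have hw : t - x = p - b := by linarith only [hp, hb]
    have hDm : ∀ m B : ℝ, m ≤ Lgd (H - N) p → 0 ≤ m → B * (3 * p) ≤ m * (2 * p - 6 / 100 + e) →
        B / 2 * b ^ 2 ≤ Dd (H - N) (T - X) (t - x) := by
      intro m B hm hm0 hB
      rw [hw, ← hp]
      have h4 : m * (2 * p - 6 / 100 + e) ≤ m * (2 * p + (p - b)) :=
        mul_le_mul_of_nonneg_left (by linarith only [hee, hp, hb, hx]) hm0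
      have := Dm_cub (s := H - N) (p := p) (w := p - b) (m := m) (B := B) (by linarith only [hp, g,
                                                                                x1, x0])
        (by linarith only [hp, p', t1, x0]) (by linarith only [hp, hb, g, x1, x0, hq, hx]) (by linarith only [hb0]) hm (by linarith only [hp,
                                                                                                                             hb,
                                                                                                                             g,
                                                                                                                             x0,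
                                                                                                                             hq,
                                                                                                                             he,
                                                                                                                             hx]) (by linarith only [h4,
                                                                                                                                        hB])
      rwa [show p - (p - b) = b by ring] at this
    rcases le_total e (6 / 100) with he6 | he6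
    · have h4 : 697 / 1000 / 2 * b ^ 2 ≤ Dd (H - N) (T - X) (t - x) := by
        rcases le_total p (1 / 5) with h5 | h5
        · exact hDm (204 / 100) _ (Lp_204 h.sm (by linarith only [hp, g]) h5) (by norm_num) (by linarith only [hee,
                                                                                                  hp,
                                                                                                  g,
                                                                                                  x1,
                                                                                                  x0,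
                                                                                                  he])
        · exact hDm (123 / 100) _ (Lp_123 h.sm (by linarith only [hp, g, x1, x0]) (by linarith only [hp,
                                                                                        t1, x0])) (by norm_num)
            (by linarith only [h5, hee, he])
      have h5 := hDp _ _ KB_060 (by linarith only [he6])
      have h6 : (e + 2 * δ) * (e - δ) ^ 2 ≤ 15 / 100 * b ^ 2 :=
        mul_le_mul (by linarith only [he6, d3]) h3 (sq_nonneg _) (by norm_num)
      unfold Fl
      linarith only [h6, h5, h4, h2, h1]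
    · have h4 : 82 / 100 / 2 * b ^ 2 ≤ Dd (H - N) (T - X) (t - x) := by
        rcases le_total p (1 / 5) with h5 | h5
        · exact hDm (204 / 100) _ (Lp_204 h.sm (by linarith only [hp, g]) h5) (by norm_num) (by linarith only [he6,
                                                                                                  ha0,
                                                                                                  hp,
                                                                                                  ha,
                                                                                                  x1,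
                                                                                                  he,
                                                                                                  hx])
        · exact hDm (123 / 100) _ (Lp_123 h.sm (by linarith only [hp, g, x1, x0]) (by linarith only [hp,
                                                                                        t1, x0])) (by norm_num)
            (by linarith only [he6])
      have h5 := hDp _ _ KB_122 (by linarith only [ha0, hee, ha, t1, hx])
      have h6 : (e + 2 * δ) * (e - δ) ^ 2 ≤ 212 / 1000 * b ^ 2 :=
        mul_le_mul (by linarith only [ha0, d3, hee, ha, t1, hx]) h3 (sq_nonneg _) (by norm_num)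
      unfold Fl
      linarith only [h6, h5, h4, h2, h1]
  -- both nonnegative
  have hab : 0 < a ∨ 0 < b := by
    by_contra hh
    push Not at hh
    exact hne ⟨by linarith only [ha0, ha, hh.1], by linarith only [hb0, hb, hq, hh.2, hh.1, ha]⟩
  have hd2 : δ = 0 ∨ δ = T + X - 1 / 2 := by
    rcases max_choice (T + X - 1 / 2) 0 with h1 | h1
    · right; rw [hδ, h1]
    · left; rw [hδ, h1]
  exact pp (a := a) (b := b) (p := p) (e := e) (δ := δ)
    ⟨h, ha, hb, hp, hee, hx, ht, ha0, hb0, hab, e0, d0, de, d1, hd2⟩

/-- Beyond `1/2`, `t ≥ 42/100`. -/
theorem beyond2 (h : RG X N T H) (ht : 42 / 100 ≤ t) (ht1 : t ≤ 1 / 2) (hx : x ≤ 7 / 25)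
    (he : 1 / 2 ≤ t + x) (hq : T + X ≤ t + x) : 0 < Fl X N T H t x := by
  have x0 := h.x0
  have x1 := h.x1
  have g := h.g
  have t0 := h.t0
  have t1 := h.t1
  have p' := h.p
  have h1 := D0_far h ht ht1
  obtain ⟨e, hee⟩ : ∃ e, e = t + x - 1 / 2 := ⟨_, rfl⟩
  have e0 : 0 ≤ e := by linarith only [hee, he]
  have hDp : ∀ κ E : ℝ, KB κ E → 0 ≤ κ → t - 22 / 100 ≤ E →
      -(κ / 6 * (t - 22 / 100) ^ 3) ≤ Dd (H + N) (T + X) (t + x) := by
    intro κ E hk hκ hE
    have h3 := Dp_ge (s := H + N) (q := T + X) (e := e) hk (by linarith only [g, x1, x0]) e0 (by linarith only [hee,
                                                                                                   hq])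
      (by linarith only [hE, hee, hx])
    rw [show 1 / 2 + e = t + x by linarith only [hee]] at h3
    refine le_trans ?_ h3
    have h4 := cube_ge (δ := max (T + X - 1 / 2) 0) (e := e) (le_max_right _ _)
      (max_le (by linarith only [hee, hq]) e0)
    have h5 : e ^ 3 ≤ (t - 22 / 100) ^ 3 := pow_le_pow_left₀ e0 (by linarith only [hee, hx]) 3
    have h6 := mul_le_mul_of_nonneg_left (h4.trans h5) (show 0 ≤ κ / 6 by linarith only [hκ])
    linarith only [h6]
  have h2 : 0 ≤ Dd (H - N) (T - X) (t - x) := by
    rcases le_total (t - x) (T - X) with h3 | h3
    · exact Dd_nonneg_left (by linarith only [g, x1, x0]) (by linarith only [t1, x0]) (by linarith only [hx,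
                                                                                            ht]) (by linarith only [g,
                                                                                                       x1,
                                                                                                       x0,
                                                                                                       hx,
                                                                                                       ht]) h3
    · exact Dd_nonneg_right (by linarith only [g, x1, x0]) h3 (by linarith only [x0, hq, ht1])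
  unfold Fl
  rcases le_total t (45 / 100) with h3 | h3
  · have h4 := hDp _ _ KB_230 (by norm_num) (by linarith only [h3])
    obtain ⟨u, hu⟩ : ∃ u, u = t - 42 / 100 := ⟨_, rfl⟩
    have et : t - 22 / 100 = u + 1 / 5 := by linarith only [hu]
    have hu0 : 0 ≤ u := by linarith only [hu, ht]
    have hu1 : 0 ≤ 3 / 100 - u := by linarith only [hu, h3]
    rw [et] at h4
    have h5 : 0 ≤ u * (3 / 100 - u) := mul_nonneg hu0 hu1
    have h6 : 0 ≤ u ^ 2 * (3 / 100 - u) := mul_nonneg (sq_nonneg _) hu1
    linarith only [h6, h5, hu, h4, h2, h1, x1, x0, ht]
  · have h4 := hDp _ _ KB_280 (by norm_num) (by linarith only [ht1])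
    obtain ⟨u, hu⟩ : ∃ u, u = t - 45 / 100 := ⟨_, rfl⟩
    have et : t - 22 / 100 = u + 23 / 100 := by linarith only [hu]
    have hu0 : 0 ≤ u := by linarith only [hu, h3]
    have hu1 : 0 ≤ 5 / 100 - u := by linarith only [hu, ht1]
    rw [et] at h4
    have h5 : 0 ≤ u * (5 / 100 - u) := mul_nonneg hu0 hu1
    have h6 : 0 ≤ u ^ 2 * (5 / 100 - u) := mul_nonneg (sq_nonneg _) hu1
    linarith only [h6, h5, hu, h4, h3, h2, h1, x1, x0]

/-- The defect at the edge at distance `3/100`. -/
theorem D0_03 (h : RG X N T H) (h0 : 285 / 1000 ≤ T) (ht0 : -(1 / 4) ≤ t) (ht1 : t ≤ 1 / 2)
    (ht : 3 / 100 ≤ |t - T|) : 13 / 10000 ≤ 2 * Dd H (1 / 2 - T) (1 / 2 - t) := by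
  have t1 := h.t1
  have hm : 222 / 100 ≤ Lgd H (1 / 2 - T) :=
    Lgd_ge_mid (u := 2 / 25) (v := 51 / 200) (by norm_num) (by norm_num) (by linarith only [t1])
      (by linarith only [h0]) (by norm_num) (le_trans (by norm_num) (gA_080 h.s0))
      (le_trans (by norm_num) (gA_255 h.s0))
  rcases le_total T t with h1 | h1
  · rw [abs_of_nonneg (by linarith only [h1])] at ht
    have h2 := Dd_ge (s := H) (w0 := 1 / 2 - T) (w := 1 / 2 - t) (by linarith only [ht, ht1]) (by linarith only [h0])
      (by linarith only [ht1]) (by linarith only [ht])
    have h3 : 222 / 100 * ((3 / 100) ^ 2 / 3) ≤ Lgd H (1 / 2 - T) / (2 * (1 / 2 - T)) *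
        ((1 / 2 - T - (1 / 2 - t)) ^ 2 * (2 * (1 / 2 - T) + (1 / 2 - t)) / 3) := by
      have e1 : Lgd H (1 / 2 - T) / (2 * (1 / 2 - T)) *
        ((1 / 2 - T - (1 / 2 - t)) ^ 2 * (2 * (1 / 2 - T) + (1 / 2 - t)) / 3) =
        Lgd H (1 / 2 - T) * (((t - T) ^ 2 / 3) *
          ((2 * (1 / 2 - T) + (1 / 2 - t)) / (2 * (1 / 2 - T)))) := by
        rw [show 1 / 2 - T - (1 / 2 - t) = t - T by ring]
        ring
      rw [e1]
      apply mul_le_mul hm _ (by norm_num) (le_trans (by norm_num) hm)
      have h4 : 1 ≤ (2 * (1 / 2 - T) + (1 / 2 - t)) / (2 * (1 / 2 - T)) := by
        rw [le_div_iff₀ (by linarith only [ht, ht1])]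
        linarith only [ht1]
      have h5 : (3 / 100 : ℝ) ^ 2 ≤ (t - T) ^ 2 := pow_le_pow_left₀ (by norm_num) ht 2
      have h6 : (3 / 100 : ℝ) ^ 2 / 3 ≤ (t - T) ^ 2 / 3 := by linarith only [h5]
      calc (3 / 100 : ℝ) ^ 2 / 3 = (3 / 100 : ℝ) ^ 2 / 3 * 1 := by ring
        _ ≤ _ := mul_le_mul h6 h4 (by norm_num) (by positivity)
    linarith only [h3, h2]
  · rw [abs_of_nonpos (by linarith only [h1])] at ht
    have h2 := D0_A (s := H) (w0 := 1 / 2 - T) (w := 1 / 2 - T + 3 / 100) (u := 2 / 25)
      (v := 51 / 200) (m := 222 / 100) (by norm_num) (by norm_num) (by linarith only [t1]) (by linarith only [h0])
      (by linarith only [t1]) (by linarith only [h0]) (by norm_num) (le_trans (by norm_num) (gA_080 h.s0))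
      (le_trans (by norm_num) (gA_255 h.s0))
    have h3 := Dd_sub H (1 / 2 - T) (1 / 2 - T + 3 / 100) (1 / 2 - t)
    have h4 : 0 ≤ ∫ u in (1 / 2 - T + 3 / 100)..(1 / 2 - t), (Lg H u - Lg H (1 / 2 - T)) := by
      apply intervalIntegral.integral_nonneg (by linarith only [ht])
      intro u hu
      have hd : 0 < dn H (1 / 2 - T) := dn_pos (Or.inr ⟨by linarith only [t1], by
        rw [abs_of_pos (by linarith only [t1])]; linarith only [h0]⟩)
      have := Lg_le (s := H) hd (cos_le_mid (u := u) (by linarith only [t1]) (by linarith only [hu.1])
        (by linarith only [hu.2, ht0, h0]))
      linarith only [this]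
    linarith only [h4, h3, h2]

/-- `q > 1/2` and `t + x < q`. -/
theorem leftq (h : RG X N T H) (hq : 1 / 2 < T + X) (hw : t + x < T + X)
    (ht0 : -(1 / 4) ≤ t) (ht1 : t ≤ 1 / 2) (hx0 : -(7 / 25) ≤ x) (hx : x ≤ 7 / 25)
    (hm : -(2 * (T - X)) ≤ t - x) : 0 < Fl X N T H t x := by
  have x0 := h.x0
  have x1 := h.x1
  have g := h.g
  have t0 := h.t0
  have t1 := h.t1
  have p' := h.p
  obtain ⟨ε, hε⟩ : ∃ ε, ε = T + X - 1 / 2 := ⟨_, rfl⟩
  have eq : T + X = 1 / 2 + ε := by linarith only [hε]
  have hε0 : 0 ≤ ε := by linarith only [hε, hq]
  have hε1 : ε ≤ 45 / 1000 := by linarith only [hε, p']
  have hT : 285 / 1000 ≤ T := by linarith only [x1, hq]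
  have hDm : 0 ≤ Dd (H - N) (T - X) (t - x) := by
    rcases le_total (t - x) (T - X) with h3 | h3
    · exact Dd_nonneg_left (by linarith only [x1, x0, hq]) (by linarith only [t1, x1, x0]) (by linarith only [hx,
                                                                                                 ht0]) hm h3
    · exact Dd_nonneg_right (by linarith only [x1, x0, hq]) h3 (by linarith only [t1, x1, hx0, ht1,
                                                                     hq])
  have hDp : -(91 / 100000) ≤ Dd (H + N) (T + X) (t + x) := by
    have h1 := Dd_half_left' (s := H + N) (w := t + x) KB_045 hε0 hε1 (by linarith only [hε, p', hq])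
      (by linarith only [hε, hw]) (by linarith only [hε, p', hx0, ht0, hq]) (by linarith only [hx0,
                                                                                  ht0])
    rw [← eq] at h1
    have h2 : ε ^ 3 ≤ (45 / 1000) ^ 3 := pow_le_pow_left₀ hε0 hε1 3
    linarith only [h2, h1, p', hq]
  rcases le_or_gt (3 / 100) |t - T| with h1 | h1
  · have := D0_03 h hT ht0 ht1 h1
    unfold Fl
    linarith only [this, hDp, hDm, p', hq]
  have h2 := abs_lt.1 h1
  obtain ⟨a, ha⟩ : ∃ a, a = T - t := ⟨_, rfl⟩
  obtain ⟨b, hb⟩ : ∃ b, b = t - x - (T - X) := ⟨_, rfl⟩
  have hD0 : 222 / 100 * a ^ 2 ≤ 2 * Dd H (1 / 2 - T) (1 / 2 - t) := by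
    have := D0_A (s := H) (w0 := 1 / 2 - T) (w := 1 / 2 - t) (u := 2 / 25)
      (v := 51 / 200) (m := 222 / 100) (by norm_num) (by norm_num) (by linarith only [t1, x1, x0]) (by linarith only [x1,
                                                                                                         hq])
      (by linarith only [h2.2, p', t1, hq]) (by linarith only [h2.1, x1, hq]) (by norm_num) (le_trans (by norm_num) (gA_080 h.s0))
      (le_trans (by norm_num) (gA_255 h.s0))
    rw [show 1 / 2 - T - (1 / 2 - t) = -a by linarith only [ha]] at this
    linarith only [this]
  rcases lt_or_ge (1 / 10) b with h3 | h3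
  · -- far to the right
    have h4 := Dd_ge_box (s := H - N) (w0 := T - X) (w := T - X + 1 / 10) (u := 3 / 40)
      (v := 71 / 250) (m := 170 / 100) (by norm_num) (by norm_num) (by linarith only [g]) (by linarith only [t1,
                                                                                                x0,
                                                                                                hq])
      (by linarith only [x1, x0, hq]) (by linarith only [t1, hq]) (by norm_num) (le_trans (by norm_num) (gB_075 h.sm))
      (le_trans (by norm_num) (gB_284 h.sm))
    have h5 := Dd_sub (H - N) (T - X) (T - X + 1 / 10) (t - x)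
    have h6 : 0 ≤ ∫ u in (T - X + 1 / 10)..(t - x), (Lg (H - N) u - Lg (H - N) (T - X)) := by
      apply intervalIntegral.integral_nonneg (by linarith only [h3, hb])
      intro u hu
      have hd : 0 < dn (H - N) (T - X) := dn_pos (Or.inr ⟨by linarith only [x1, x0, hq], by
        rw [abs_of_pos (by linarith only [x1, x0, hq])]; linarith only [t1, x1, x0]⟩)
      have := Lg_le (s := H - N) hd (cos_le_mid (u := u) (by linarith only [x1, hq]) (by linarith only [hu.1,
                                                                                           p', hq])
        (by linarith only [hu.2, p', t1, hx0, ht1, hq]))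
      linarith only [this]
    have h7 : 0 ≤ Dd H (1 / 2 - T) (1 / 2 - t) := D0_nonneg h ht0 ht1
    have e1 : (T - X + 1 / 10 - (T - X)) ^ 2 = 1 / 100 := by ring
    rw [e1] at h4
    unfold Fl
    linarith only [h7, h6, h5, h4, hDp, p', hq]
  have hK : -(22388 / 100000 * (2 * a + b) ^ 2) ≤ Dd (H + N) (T + X) (t + x) := by
    have h4 := Dd_half_left (s := H + N) (w := t + x) KB_045 (by norm_num) hε0 hε1
      (by linarith only [hε, hw]) (by linarith only [h3, hb, h2.1, x1, hx0, hq])
    rw [← eq] at h4
    rw [show T + X - (t + x) = 2 * a + b by linarith only [hb, ha]] at h4
    have h5 : 995 / 100 * ε / 2 * (2 * a + b) ^ 2 ≤ 22388 / 100000 * (2 * a + b) ^ 2 :=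
      mul_le_mul_of_nonneg_right (by linarith only [hε, p', hq]) (sq_nonneg _)
    linarith only [h5, h4]
  have hab : 0 < a ∨ 0 < b := by
    rcases lt_or_ge 0 a with hh | hh
    · exact Or.inl hh
    · exact Or.inr (by linarith only [hh, hb, ha, hw])
  rcases le_total 0 b with h4 | h4
  · have h5 := Dd_ge_box (s := H - N) (w0 := T - X) (w := t - x) (u := 3 / 40)
      (v := 71 / 250) (m := 170 / 100) (by norm_num) (by norm_num) (by linarith only [g]) (by linarith only [t1,
                                                                                                x0,
                                                                                                hq])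
      (by linarith only [h4, hb, g]) (by linarith only [h3, hb, t1, hq]) (by norm_num) (le_trans (by norm_num) (gB_075 h.sm))
      (le_trans (by norm_num) (gB_284 h.sm))
    rw [← hb] at h5
    have h6 := cs (A := 222 / 100) (B := 170 / 100) (K := 22388 / 100000) (a := a) (b := b)
      (g := 2 * a + b) (by norm_num) (by norm_num) (by norm_num) (by linarith only [hb, ha, hw]) le_rfl
      (by norm_num) hab
    unfold Fl
    linarith only [h6, h5, hK, hD0]
  · have h5 := Dm_cub (s := H - N) (p := T - X) (w := t - x) (m := 204 / 100) (B := 149 / 100)
      (by linarith only [x1, x0, hq]) (by linarith only [t1, x1, x0]) (by linarith only [hx, ht0]) (by linarith only [h4,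
                                                                                                         hb])
      (Lp_204 h.sm (by linarith only [g]) (by linarith only [t1, x0, hq])) (by linarith only [hm]) (by linarith only [h2.1,
                                                                                                         g,
                                                                                                         x1,
                                                                                                         hw,
                                                                                                         hq])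
    rw [show T - X - (t - x) = -b by linarith only [hb], neg_sq] at h5
    have h6 := cs (A := 222 / 100) (B := 149 / 100) (K := 22388 / 100000) (a := a) (b := b)
      (g := 2 * a + b) (by norm_num) (by norm_num) (by norm_num) (by linarith only [hb, ha, hw]) le_rfl
      (by norm_num) hab
    unfold Fl
    linarith only [h6, h5, hK, hD0]

theorem cn_hi_220 : Real.cos (2 * Real.pi * (11 / 50)) ≤ 1875 / 10000 := by
  apply cn_hi (x := 11 / 50) (y := 2 * (3141592 / 1000000) * (11 / 50)) <;> norm_num

theorem cn_hi_245 : Real.cos (2 * Real.pi * (49 / 200)) ≤ 315 / 10000 := by
  apply cn_hi (x := 49 / 200) (y := 2 * (3141592 / 1000000) * (49 / 200)) <;> norm_num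

/-- `t - x > 1 - p`. -/
theorem farm (h : RG X N T H) (ht1 : t ≤ 1 / 2) (hx0 : -(7 / 25) ≤ x)
    (hm : 1 - (T - X) < t - x) : 0 < Fl X N T H t x := by
  have x0 := h.x0
  have x1 := h.x1
  have g := h.g
  have t0 := h.t0
  have t1 := h.t1
  have hDp : 0 ≤ Dd (H + N) (T + X) (t + x) :=
    Dd_nonneg_left (by linarith only [x0, hm, hx0, ht1]) (by linarith only [t1, x0, hm, hx0, ht1]) (by linarith only [t1,
                                                                                                         x1,
                                                                                                         x0,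
                                                                                                         hm,
                                                                                                         hx0]) (by linarith only [x0,
                                                                                                                     hm,
                                                                                                                     hx0,
                                                                                                                     ht1]) (by linarith only [x0,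
                                                                                                                                 hm,
                                                                                                                                 ht1])
  have h1 := Dd_reflect (H - N) (T - X) (t - x)
  have h2 : 0 ≤ Dd (H - N) (T - X) (1 - (T - X)) :=
    Dd_nonneg_right (by linarith only [hm, hx0, ht1]) (by linarith only [t1, x1, x0]) (by linarith only [])
  have h3 : Dd (H - N) (T - X) (1 - (t - x)) ≤
      (387 / 100) / 2 * (1 - (t - x) - (T - X)) ^ 2 := by
    have hsub : uIcc (T - X) (1 - (t - x)) ⊆ Icc (11 / 50) (1 / 2) :=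
      uIcc_subset_Icc ⟨by linarith only [hm, hx0, ht1], by linarith only [t1, x1, x0]⟩ ⟨by linarith only [hx0,
                                                                                             ht1], by linarith only [t1,
                                                                                                        x1,
                                                                                                        x0,
                                                                                                        hm]⟩
    apply Dd_le_quad
    · intro u hu
      have := hsub hu
      have h5 : 0 < u := by linarith only [this.1, t1, x0, hm, hx0, ht1]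
      exact Or.inr ⟨h5.ne', by rw [abs_of_pos h5]; linarith only [this.2, t1, x0, hm, hx0, ht1]⟩
    · intro u hu
      have := hsub hu
      exact Lgd_hi ((cos_anti (by norm_num) this.1 this.2).trans cn_hi_220) (by norm_num)
        (by norm_num)
  obtain ⟨r, hr⟩ : ∃ r, r = t - x - (1 - (T - X)) := ⟨_, rfl⟩
  have hr0 : 0 < r := by linarith only [hr, hm]
  rw [show 1 - (t - x) - (T - X) = -r by linarith only [hr]] at h3
  have hr1 : r ≤ t - 378 / 1000 := by linarith only [hr, t1, x0, hx0]
  have h4 : r ^ 2 ≤ (t - 378 / 1000) ^ 2 := pow_le_pow_left₀ hr0.le hr1 2
  unfold Fl
  rcases le_total t (42 / 100) with h5 | h5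
  · have h6 := D0_222 h (t := t) (by linarith only [t1, x1, x0, hm, hx0]) h5
    have h7 : (t - 378 / 1000 + 36 / 1000) ^ 2 ≤ (t - T) ^ 2 :=
      pow_le_pow_left₀ (by linarith only [t1, x1, x0, hm, hx0]) (by linarith only [t1]) 2
    linarith only [h7, h6, h5, h4, h3, h2, h1, hDp, t1, x0, hm, hx0, sq_nonneg (500 * t - 1 * 189)]
  · have h6 := D0_far h h5 ht1
    have h7 : 0 ≤ (t - 378 / 1000) * (1 / 2 - t) := mul_nonneg (by linarith only [t1, x0, hm, hx0]) (by linarith only [ht1])
    linarith only [h7, h6, h5, h4, h3, h2, h1, hDp, t1, x0, hm, hx0]

/-- `t + x < -2 q`. -/
theorem lowp (h : RG X N T H) (ht0 : -(1 / 4) ≤ t) (hx0 : -(7 / 25) ≤ x)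
    (hm : t + x < -(2 * (T + X))) : 0 < Fl X N T H t x := by
  have x0 := h.x0
  have x1 := h.x1
  have g := h.g
  have t0 := h.t0
  have t1 := h.t1
  have hDm : 0 ≤ Dd (H - N) (T - X) (t - x) := by
    rcases le_total (t - x) (T - X) with h3 | h3
    · exact Dd_nonneg_left (by linarith only [g, x0, hm, hx0, ht0]) (by linarith only [x0, hm, hx0,
                                                                          ht0]) (by linarith only [g,
                                                                                      x1, x0, hm,
                                                                                      ht0]) (by linarith only [t0,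
                                                                                                  g,
                                                                                                  x0,
                                                                                                  hm,
                                                                                                  ht0]) h3
    · exact Dd_nonneg_right (by linarith only [g, x0, hm, hx0, ht0]) h3 (by linarith only [g, x1,
                                                                              x0, hm, hx0])
  have hD0 := D0_low h (t := t) (by linarith only [x0, hm, hx0, ht0]) (by linarith only [t0, x0, hm,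
                                                                            hx0]) ht0
  have h1 := Dd_ge (s := H + N) (w0 := T + X) (w := t + x) (by linarith only [g, x1, x0]) (by linarith only [hm,
                                                                                                hx0,
                                                                                                ht0])
    (by linarith only [hx0, ht0]) (by linarith only [g, x1, x0, hm])
  have h2 : Lgd (H + N) (T + X) ≤ 325 / 100 :=
    Lgd_hi ((cos_anti (by norm_num) (by linarith only [t0, x0]) (by linarith only [hm, hx0, ht0])).trans cn_hi_245) (by norm_num)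
      (by norm_num)
  have h3 : 0 ≤ Lgd (H + N) (T + X) := Lgd_nonneg (by linarith only [g, x1, x0]) (by linarith only [hm,
                                                                                       hx0, ht0])
  have h4 : Lgd (H + N) (T + X) / (2 * (T + X)) ≤ 664 / 100 := by
    rw [div_le_iff₀ (by linarith only [g, x1, x0])]
    linarith only [h2, t0, x0, hm, hx0, ht0]
  have h5 : 0 ≤ Lgd (H + N) (T + X) / (2 * (T + X)) := div_nonneg h3 (by linarith only [g, x1, x0])
  have h6 : (T + X - (t + x)) ^ 2 ≤ (795 / 1000) ^ 2 :=
    pow_le_pow_left₀ (by linarith only [g, x1, x0, hm]) (by linarith only [hm, hx0, ht0]) 2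
  have h7 : -(843 / 100000) ≤ (T + X - (t + x)) ^ 2 * (2 * (T + X) + (t + x)) / 3 := by
    have h8 : (T + X - (t + x)) ^ 2 * -(2 * (T + X) + (t + x)) ≤ (795 / 1000) ^ 2 * (4 / 100) :=
      mul_le_mul h6 (by linarith only [t0, x0, hx0, ht0]) (by linarith only [hm]) (by norm_num)
    linarith only [h8, t0, x0, hm, hx0, ht0]
  have h8 : -(56 / 1000) ≤ Lgd (H + N) (T + X) / (2 * (T + X)) *
      ((T + X - (t + x)) ^ 2 * (2 * (T + X) + (t + x)) / 3) := by
    have h9 := mul_le_mul_of_nonneg_left h7 h5
    have h10 := mul_le_mul_of_nonneg_right h4 (show (0 : ℝ) ≤ 843 / 100000 by norm_num)
    linarith only [h9, h4, t0, x0, hm, hx0, ht0]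
  unfold Fl
  linarith only [h8, h1, hD0, hDm, t0, x0, hm, hx0, ht0]

/-- All points with `x - t ≤ 2 p`. -/
theorem Fl_pos (h : RG X N T H) (ht0 : -(1 / 4) ≤ t) (ht1 : t ≤ 1 / 2) (hx0 : -(7 / 25) ≤ x)
    (hx : x ≤ 7 / 25) (hm : -(2 * (T - X)) ≤ t - x) (hne : ¬(t = T ∧ x = X)) :
    0 < Fl X N T H t x := by
  have x0 := h.x0
  have x1 := h.x1
  have g := h.g
  have t0 := h.t0
  have t1 := h.t1
  have p' := h.p
  rcases lt_or_ge (1 - (T - X)) (t - x) with h1 | h1
  · exact farm h ht1 hx0 h1
  rcases lt_or_ge (t + x) (-(2 * (T + X))) with h2 | h2
  · exact lowp h ht0 hx0 h2
  have hb : ∀ (_ : 1 / 2 ≤ t + x) (_ : T + X ≤ t + x), 0 < Fl X N T H t x := by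
    intro h3 h4
    rcases le_total t (42 / 100) with h5 | h5
    · exact beyond h h5 hx h3 h4 hne
    · exact beyond2 h h5 ht1 hx h3 h4
  rcases lt_or_ge (1 / 2) (T + X) with h3 | h3
  · rcases lt_or_ge (t + x) (T + X) with h4 | h4
    · exact leftq h h3 h4 ht0 ht1 hx0 hx hm
    · exact hb (by linarith only [h4, h3]) h4
  rcases lt_or_ge (1 - (T + X)) (t + x) with h4 | h4
  · exact hb (by linarith only [h4, h3]) (by linarith only [h4, h3])
  -- all defects are nonnegative
  have hD0 := D0_nonneg h ht0 ht1
  have hDp : 0 ≤ Dd (H + N) (T + X) (t + x) := by
    rcases le_total (t + x) (T + X) with h5 | h5
    · exact Dd_nonneg_left (by linarith only [g, x0]) (by linarith only [h3]) (by linarith only [hx0,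
                                                                                    ht0]) (by linarith only [h2]) h5
    · exact Dd_nonneg_right (by linarith only [g, x0]) h5 (by linarith only [h4])
  by_cases h5 : t = T
  · have h6 : t - x ≠ T - X := fun h7 => hne ⟨h5, by linarith only [h7, h5]⟩
    have hDm : 0 < Dd (H - N) (T - X) (t - x) := by
      rcases lt_or_gt_of_ne h6 with h7 | h7
      · exact Dd_pos_left (by linarith only [g, x1, x0]) (by linarith only [t1, x1, x0]) (by linarith only [hx,
                                                                                               ht0]) (by linarith only [h5,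
                                                                                                           t0,
                                                                                                           g,
                                                                                                           x0,
                                                                                                           hx]) h7
      · exact Dd_pos_right (by linarith only [g, x1, x0]) h7 h1
    unfold Fl
    linarith only [hDm, hDp, hD0]
  · have hDm : 0 ≤ Dd (H - N) (T - X) (t - x) := by
      rcases le_total (t - x) (T - X) with h3 | h3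
      · exact Dd_nonneg_left (by linarith only [g, x1, x0]) (by linarith only [t1, x1, x0]) (by linarith only [hx,
                                                                                                  ht0]) hm h3
      · exact Dd_nonneg_right (by linarith only [g, x1, x0]) h3 h1
    have := D0_pos h ht0 ht1 h5
    unfold Fl
    linarith only [this, hDm, hDp]

/-- The reduction to `x = 7/25`. -/
theorem Fl_mono (h : RG X N T H) (ht0 : -(1 / 4) ≤ t) (hx : x ≤ 7 / 25)
    (hm : t - x < -(2 * (T - X))) : Fl X N T H t (7 / 25) ≤ Fl X N T H t x := by
  have x0 := h.x0
  have x1 := h.x1
  have g := h.g
  have t0 := h.t0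
  have t1 := h.t1
  have p' := h.p
  have h1 := Dd_sub (H - N) (T - X) (t - 7 / 25) (t - x)
  have h2 := Dd_sub (H + N) (T + X) (t + x) (t + 7 / 25)
  have h3 : 0 ≤ ∫ u in (t - 7 / 25)..(t - x), (Lg (H - N) u - Lg (H - N) (T - X)) := by
    apply intervalIntegral.integral_nonneg (by linarith only [hx])
    intro u hu
    have hd : 0 < dn (H - N) (T - X) := dn_pos (Or.inr ⟨by linarith only [g, x1, x0], by
      rw [abs_of_pos (by linarith only [g, x1, x0])]; linarith only [hm, hx, ht0]⟩)
    have h4 : Lg (H - N) u = Lg (H - N) (-u) := by rw [Lg_neg]
    rw [h4]
    have := Lg_le (s := H - N) hd (cos_le_mid (u := -u) (by linarith only [g, x1, x0]) (by linarith only [hu.2,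
                                                                                             g, x1,
                                                                                             x0, hm])
      (by linarith only [hu.1, p', t1, x0, ht0]))
    linarith only [this]
  have h4 : ∫ u in (t + x)..(t + 7 / 25), (Lg (H + N) u - Lg (H + N) (T + X)) ≤
      ∫ _u in (t + x)..(t + 7 / 25), (0 : ℝ) := by
    apply intervalIntegral.integral_mono_ae_restrict (by linarith only [hx])
    · exact (Lg_integrable _ _ _).sub (by simp)
    · simp
    · rw [Filter.EventuallyLE, ae_restrict_iff' measurableSet_Icc]
      have h2 : ∀ᵐ u : ℝ, u ≠ 0 := by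
        simp [ae_iff, measure_singleton]
      filter_upwards [h2] with u hu0 hu
      have hau : Lg (H + N) u = Lg (H + N) |u| := by
        rcases abs_choice u with h | h
        · rw [h]
        · rw [h, Lg_neg]
      have hu1 : |u| < T + X ∧ |u| ≤ 1 - (T + X) := by
        constructor
        · rw [abs_lt]
          exact ⟨by linarith only [hu.1, t0, g, x0, hm, ht0], by linarith only [hu.2, t0, g, x0, hm,
                                                                   hx]⟩
        · rw [abs_le]
          exact ⟨by linarith only [hu.1, g, x1, x0, hm, ht0], by linarith only [hu.2, g, x1, x0, hm,
                                                                   hx]⟩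
      have hu3 : 0 < |u| := abs_pos.2 hu0
      have h5 : Lg (H + N) |u| ≤ Lg (H + N) (T + X) := by
        apply Lg_le (dn_pos (Or.inr ⟨hu3.ne', by rw [abs_abs]; linarith only [hu1.1, p']⟩))
        exact cos_le_mid hu3.le hu1.1.le (by linarith only [hu1.2])
      rw [hau]
      linarith only [h5]
  rw [intervalIntegral.integral_zero] at h4
  unfold Fl
  linarith only [h4, h3, h2, h1]

end Pool.Agent.S5.VB
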