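import Pool.Agent.S5.I.VDefs
import Pool.Agent.S5.I.VB5

/-!
# Flats of a slot of an open node

`VNB_of`: the statement `VNB` follows from its case `Re v = 7/25`, `Re y ≤ 13/100`.
-/

set_option autoImplicit false

namespace Pool.Agent.S5

open Pool.Agent.H63.VC3 Pool.Agent.S3 Complex MeasureTheory Filter Topology Set

theorem VU.rg {ys vs : ℂ} (h : VU ys vs) : VB.RG vs.re vs.im ys.re ys.im := by
  have := h.x0
  have := h.g
  have := h.t0
  have := h.t1
  have := h.n0
  have := h.n1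
  have := h.e0
  have := h.e1
  have := h.d
  refine ⟨h.x0, h.x1, by linarith [h.g], h.t0, h.t1, h.p, ?_, ?_⟩
  · rw [abs_le]
    constructor <;> linarith
  · rw [abs_le]
    constructor <;> linarith

/-- On the flats the slot function is `-Fl`. -/
theorem Es_flat {ys vs y v : ℂ} (hy : y.im = ys.im) (hv : v.im = vs.im) :
    Es ys vs y v = -VB.Fl vs.re vs.im ys.re ys.im y.re v.re := by
  unfold Es Ev VB.Fl
  rw [Td_eq_Dd (z0 := 1 / 2 - ys) (z := 1 / 2 - y) (by simp [hy]),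
    Td_eq_Dd (z0 := ys - vs) (z := y - v) (by simp [hy, hv]),
    Td_eq_Dd (z0 := ys + vs) (z := y + v) (by simp [hy, hv])]
  have e1 : (1 / 2 - ys : ℂ).re = 1 / 2 - ys.re := by
    rw [sub_re]
    norm_num
  have e2 : (1 / 2 - y : ℂ).re = 1 / 2 - y.re := by
    rw [sub_re]
    norm_num
  have e3 : (1 / 2 - ys : ℂ).im = -ys.im := by
    rw [sub_im]
    norm_num
  rw [e1, e2, e3, Dd_neg_im, hv]
  simp only [sub_re, sub_im, add_re, add_im, sub_self, mul_zero]
  ring

/-- The remaining case of the flats. -/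
def VNB7 : Prop := ∀ ys vs y v : ℂ, VU ys vs → y.im = ys.im → -(1 / 4) ≤ y.re →
  y.re ≤ 13 / 100 → v.im = vs.im → v.re = 7 / 25 → Es ys vs y v < 0

/-- Flats, `Re v - Re y ≤ 2 Re (y* - v*)`. -/
theorem VNB_near {ys vs y v : ℂ} (h : VU ys vs) (hy : Yf ys y) (hv : Vf vs v)
    (hm : v.re - y.re ≤ 2 * (ys.re - vs.re)) (hne : ¬(y = ys ∧ v = vs)) : Es ys vs y v < 0 := by
  rw [Es_flat hy.1 hv.1]
  have hx := abs_le.1 hv.2
  have := VB.Fl_pos h.rg hy.2.1 hy.2.2 hx.1 hx.2 (by linarith) (fun hh => hne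
    ⟨Complex.ext hh.1 hy.1, Complex.ext hh.2 hv.1⟩)
  linarith

/-- Flats. -/
theorem VNB_of (h7 : VNB7) : VNB := by
  intro ys vs y v h hy hv
  by_cases hne : y = ys ∧ v = vs
  · refine ⟨?_, fun _ => hne⟩
    rw [hne.1, hne.2]
    unfold Es Ev
    rw [Td_self, Td_self, Td_self]
    simp
  have key : Es ys vs y v < 0 := by
    rcases le_or_gt (v.re - y.re) (2 * (ys.re - vs.re)) with hm | hm
    · exact VNB_near h hy hv hm hne
    · have hx := abs_le.1 hv.2
      have h1 := VB.Fl_mono h.rg hy.2.1 hx.2 (show y.re - v.re < -(2 * (ys.re - vs.re)) by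
        linarith)
      have h2 := h7 ys vs y ((7 / 25 : ℝ) + vs.im * I) h hy.1 hy.2.1 (by linarith [h.g])
        (line_im _ _) (line_re _ _)
      rw [Es_flat hy.1 (line_im _ _), line_re] at h2
      rw [Es_flat hy.1 hv.1]
      linarith
  exact ⟨key.le, fun h0 => absurd h0 key.ne⟩

end Pool.Agent.S5
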