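import Pool.Agent.S5.I.VB1

/-!
# Flats of a slot: elementary estimates
-/

set_option autoImplicit false

namespace Pool.Agent.S5.VB

open Pool.Agent.H63.VC3 Pool.Agent.S3 Pool.Agent.S5 MeasureTheory Filter Topology Set

/-- The region of the parameters. -/
structure RG (X N T H : ℝ) : Prop where
  x0 : 0 < X
  x1 : X ≤ 215 / 1000
  g : 75 / 1000 ≤ T - X
  t0 : 245 / 1000 ≤ T
  t1 : T ≤ 342 / 1000
  p : T + X ≤ 545 / 1000
  s0 : |H| ≤ 135 / 1000
  sm : |H - N| ≤ 165 / 1000

/-! ### The defect at the edge -/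

theorem D0_A {s w0 w u v m : ℝ} (hu : 0 < u) (hv : v ≤ 1 / 2) (h1 : u ≤ w0) (h2 : w0 ≤ v)
    (h3 : u ≤ w) (h4 : w ≤ v) (hm : 0 ≤ m) (hmu : m ≤ Lgd s u) (hmv : m ≤ Lgd s v) :
    m * (w0 - w) ^ 2 ≤ 2 * Dd s w0 w := by
  have := Dd_ge_box hu hv h1 h2 h3 h4 hm hmu hmv
  linarith only [this]

theorem Lg_sub_ge {s u w0 v m : ℝ} (hu : 0 < u) (hv : v ≤ 1 / 2) (h1 : u ≤ w0) (h2 : w0 ≤ v)
    (hm : 0 ≤ m) (hmu : m ≤ Lgd s u) (hmv : m ≤ Lgd s v) :
    m * (w0 - u) ≤ Lg s w0 - Lg s u := by
  have hd : ∀ y ∈ Icc u w0, HasDerivAt (fun y => Lg s y - m * y) (Lgd s y - m) y := by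
    intro y hy
    have h5 : 0 < y := by linarith only [hy.1, hu]
    have h6 := (Lg_hasDerivAt (s := s) (x := y) (Or.inr ⟨h5.ne', by
      rw [abs_of_pos h5]; linarith only [hy.2, h2, h1, hv, hu]⟩)).sub ((hasDerivAt_id y).const_mul m)
    refine h6.congr_deriv ?_
    rw [mul_one]
  have hmono : MonotoneOn (fun y => Lg s y - m * y) (Icc u w0) := by
    apply monotoneOn_of_deriv_nonneg (convex_Icc _ _)
    · exact fun y hy => (hd y hy).continuousAt.continuousWithinAt
    · exact fun y hy => (hd y (interior_subset hy)).differentiableAt.differentiableWithinAt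
    · intro y hy
      have hy' := interior_subset hy
      rw [(hd y hy').deriv]
      have := Lgd_ge_mid (s := s) hu hv hy'.1 (hy'.2.trans h2) hm hmu hmv
      linarith only [this]
  have := hmono ⟨le_rfl, h1⟩ ⟨h1, le_rfl⟩ h1
  simp only at this
  linarith only [this]

theorem D0_far_aux {s w0 w m : ℝ} (h1 : 2 / 25 ≤ w0) (h2 : w0 ≤ 1 / 2) (h0 : 0 ≤ w)
    (hw : w ≤ 2 / 25) (hm : 0 ≤ m) (hmu : m ≤ Lgd s (2 / 25)) (hmv : m ≤ Lgd s w0) :
    m * (w0 - 2 / 25) ^ 2 + 2 * m * (w0 - 2 / 25) * (2 / 25 - w) ≤ 2 * Dd s w0 w := by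
  have e1 := D0_A (s := s) (u := 2 / 25) (v := w0) (w0 := w0) (w := 2 / 25) (by norm_num) h2 h1
    le_rfl le_rfl h1 hm hmu hmv
  have e2 := Lg_sub_ge (s := s) (u := 2 / 25) (v := w0) (w0 := w0) (by norm_num) h2 h1
    le_rfl hm hmu hmv
  have e3 := Dd_sub s w0 w (2 / 25)
  have e4 : ∫ u in w..(2 / 25), (Lg s u - Lg s w0) ≤
      ∫ _u in w..(2 / 25), -(m * (w0 - 2 / 25)) := by
    apply intervalIntegral.integral_mono_on_of_le_Ioo hw
    · exact (Lg_integrable _ _ _).sub (by simp)
    · simp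
    · intro u hu
      have hu0 : 0 < u := lt_of_le_of_lt h0 hu.1
      have : Lg s u ≤ Lg s (2 / 25) := by
        apply Lg_le (dn_pos (Or.inr ⟨hu0.ne', by rw [abs_of_pos hu0]; linarith only [hu.2]⟩))
        exact cos_anti hu0.le hu.2.le (by norm_num)
      linarith only [this, e2]
  rw [intervalIntegral.integral_const, smul_eq_mul] at e4
  linarith only [e4, e3, e1]

theorem D0_far {X N T H t : ℝ} (h : RG X N T H) (h1 : 42 / 100 ≤ t) (h2 : t ≤ 1 / 2) :
    179 / 10000 + 466 / 1000 * (t - 42 / 100) ≤ 2 * Dd H (1 / 2 - T) (1 / 2 - t) := by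
  have t0 := h.t0
  have t1 := h.t1
  have a1 := gA_080 h.s0
  have key : ∀ m c : ℝ, 0 ≤ m → m ≤ Lgd H (2 / 25) → m ≤ Lgd H (1 / 2 - T) → 0 ≤ c →
      c ≤ 42 / 100 - T → 179 / 10000 ≤ m * c ^ 2 → 233 / 1000 ≤ m * c →
      179 / 10000 + 466 / 1000 * (t - 42 / 100) ≤ 2 * Dd H (1 / 2 - T) (1 / 2 - t) := by
    intro m c hm hm1 hm2 hc0 hc h3 h4
    have h5 := D0_far_aux (s := H) (w0 := 1 / 2 - T) (w := 1 / 2 - t) (m := m) (by linarith only [t1])
      (by linarith only [t0]) (by linarith only [h2]) (by linarith only [h1]) hm hm1 hm2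
    have h6 : m * c ^ 2 ≤ m * (1 / 2 - T - 2 / 25) ^ 2 := by
      apply mul_le_mul_of_nonneg_left _ hm
      linarith only [hc, mul_nonneg (sub_nonneg.2 hc0) (sub_nonneg.2 hc),
        mul_nonneg (sub_nonneg.2 t1) (sub_nonneg.2 hc)]
    have h7 : m * c ≤ m * (1 / 2 - T - 2 / 25) := mul_le_mul_of_nonneg_left (by linarith only [hc]) hm
    have h8 : 233 / 1000 * (t - 42 / 100) ≤
        m * (1 / 2 - T - 2 / 25) * (2 / 25 - (1 / 2 - t)) := by
      have : 2 / 25 - (1 / 2 - t) = t - 42 / 100 := by ring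
      rw [this]
      exact mul_le_mul_of_nonneg_right (by linarith only [h7, h4]) (by linarith only [h1])
    linarith only [h8, h6, h5, h3]
  rcases le_total (33 / 100) T with h3 | h3
  · apply key (299 / 100) (78 / 1000) (by norm_num) a1 _ (by norm_num) (by linarith only [t1])
      (by norm_num) (by norm_num)
    exact Lgd_ge_mid (u := 2 / 25) (v := 17 / 100) (by norm_num) (by norm_num) (by linarith only [t1])
      (by linarith only [h3]) (by norm_num) a1 (le_trans (by norm_num) (gA_170 h.s0))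
  rcases le_total (30 / 100) T with h4 | h4
  · have a2 := gA_200 h.s0
    apply key (278 / 100) (90 / 1000) (by norm_num) (le_trans (by norm_num) a1) _ (by norm_num)
      (by linarith only [h3]) (by norm_num) (by norm_num)
    exact Lgd_ge_mid (u := 2 / 25) (v := 1 / 5) (by norm_num) (by norm_num) (by linarith only [t1])
      (by linarith only [h4]) (by norm_num) (le_trans (by norm_num) a1) (le_trans (by norm_num) a2)
  · have a2 := gA_255 h.s0
    apply key (222 / 100) (120 / 1000) (by norm_num) (le_trans (by norm_num) a1) _ (by norm_num)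
      (by linarith only [h4]) (by norm_num) (by norm_num)
    exact Lgd_ge_mid (u := 2 / 25) (v := 51 / 200) (by norm_num) (by norm_num) (by linarith only [t1])
      (by linarith only [t0]) (by norm_num) (le_trans (by norm_num) a1) (le_trans (by norm_num) a2)

/-- `A (t - T)² ≤ 2 D₀` for `T ≤ t ≤ 42/100`. -/
theorem D0_222 {X N T H t : ℝ} (h : RG X N T H) (h1 : T ≤ t) (h2 : t ≤ 42 / 100) :
    222 / 100 * (t - T) ^ 2 ≤ 2 * Dd H (1 / 2 - T) (1 / 2 - t) := by
  have := D0_A (s := H) (w0 := 1 / 2 - T) (w := 1 / 2 - t) (u := 2 / 25) (v := 51 / 200)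
    (m := 222 / 100) (by norm_num) (by norm_num) (by linarith only [h2, h1]) (by linarith only [h.t0])
    (by linarith only [h2]) (by linarith only [h.t0, h1]) (by norm_num) (le_trans (by norm_num) (gA_080 h.s0))
    (le_trans (by norm_num) (gA_255 h.s0))
  rwa [show 1 / 2 - T - (1 / 2 - t) = t - T by ring] at this

theorem D0_278 {X N T H t : ℝ} (h : RG X N T H) (h0 : 30 / 100 ≤ T) (h1 : T ≤ t)
    (h2 : t ≤ 42 / 100) :
    278 / 100 * (t - T) ^ 2 ≤ 2 * Dd H (1 / 2 - T) (1 / 2 - t) := by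
  have := D0_A (s := H) (w0 := 1 / 2 - T) (w := 1 / 2 - t) (u := 2 / 25) (v := 1 / 5)
    (m := 278 / 100) (by norm_num) (by norm_num) (by linarith only [h2, h1]) (by linarith only [h0])
    (by linarith only [h2]) (by linarith only [h1, h0]) (by norm_num) (le_trans (by norm_num) (gA_080 h.s0))
    (le_trans (by norm_num) (gA_200 h.s0))
  rwa [show 1 / 2 - T - (1 / 2 - t) = t - T by ring] at this

theorem D0_292 {X N T H t : ℝ} (h : RG X N T H) (h0 : 315 / 1000 ≤ T) (h1 : T ≤ t)
    (h2 : t ≤ 42 / 100) :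
    292 / 100 * (t - T) ^ 2 ≤ 2 * Dd H (1 / 2 - T) (1 / 2 - t) := by
  have := D0_A (s := H) (w0 := 1 / 2 - T) (w := 1 / 2 - t) (u := 2 / 25) (v := 37 / 200)
    (m := 292 / 100) (by norm_num) (by norm_num) (by linarith only [h2, h1]) (by linarith only [h0])
    (by linarith only [h2]) (by linarith only [h1, h0]) (by norm_num) (le_trans (by norm_num) (gA_080 h.s0))
    (le_trans (by norm_num) (gA_185 h.s0))
  rwa [show 1 / 2 - T - (1 / 2 - t) = t - T by ring] at this

theorem D0_299 {X N T H t : ℝ} (h : RG X N T H) (h0 : 33 / 100 ≤ T) (h1 : T ≤ t)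
    (h2 : t ≤ 42 / 100) :
    299 / 100 * (t - T) ^ 2 ≤ 2 * Dd H (1 / 2 - T) (1 / 2 - t) := by
  have := D0_A (s := H) (w0 := 1 / 2 - T) (w := 1 / 2 - t) (u := 2 / 25) (v := 17 / 100)
    (m := 299 / 100) (by norm_num) (by norm_num) (by linarith only [h2, h1]) (by linarith only [h0])
    (by linarith only [h2]) (by linarith only [h1, h0]) (by norm_num) (le_trans (by norm_num) (gA_080 h.s0))
    (le_trans (by norm_num) (gA_170 h.s0))
  rwa [show 1 / 2 - T - (1 / 2 - t) = t - T by ring] at this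

theorem D0_305 {X N T H t : ℝ} (h : RG X N T H) (h0 : 33 / 100 ≤ T) (h1 : T ≤ t)
    (h2 : t ≤ 415 / 1000) :
    305 / 100 * (t - T) ^ 2 ≤ 2 * Dd H (1 / 2 - T) (1 / 2 - t) := by
  have := D0_A (s := H) (w0 := 1 / 2 - T) (w := 1 / 2 - t) (u := 17 / 200) (v := 17 / 100)
    (m := 305 / 100) (by norm_num) (by norm_num) (by linarith only [h2, h1]) (by linarith only [h0])
    (by linarith only [h2]) (by linarith only [h1, h0]) (by norm_num) (le_trans (by norm_num) (gA_085 h.s0))
    (le_trans (by norm_num) (gA_170 h.s0))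
  rwa [show 1 / 2 - T - (1 / 2 - t) = t - T by ring] at this

/-- The defect at the edge for `t ≤ -21/100`. -/
theorem D0_low {X N T H t : ℝ} (h : RG X N T H) (h0 : T ≤ 265 / 1000) (h1 : t ≤ -(21 / 100))
    (h2 : -(1 / 4) ≤ t) : 34 / 1000 ≤ Dd H (1 / 2 - T) (1 / 2 - t) := by
  have hpi := Real.pi_pos
  have t0 := h.t0
  set w0 := 1 / 2 - T with hw0
  set w := 1 / 2 - t with hw
  have hdp : ∀ u : ℝ, 0 < u → u < 1 → 0 < dn H u := fun u h h' =>
    dn_pos (Or.inr ⟨h.ne', by rw [abs_of_pos h]; exact h'⟩)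
  have e1 := Dd_sub H w0 (7 / 20) (13 / 20)
  have e2 := Dd_sub H w0 (13 / 20) w
  have h3 : 0 ≤ Dd H w0 (7 / 20) := Dd_nonneg_right (by linarith only [hw0, h0]) (by linarith only [hw0,
                                                                                       t0]) (by linarith only [hw0,
                                                                                                  t0])
  have a1 : 129 / 100 * (7 / 20 - 51 / 200) ≤ Lg H (7 / 20) - Lg H (51 / 200) :=
    Lg_sub_ge (by norm_num) (by norm_num) (by norm_num) le_rfl (by norm_num)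
      (le_trans (by norm_num) (gA_255 h.s0)) (le_trans (by norm_num) (gA_350 h.s0))
  have a2 : Lg H w0 ≤ Lg H (51 / 200) := by
    apply Lg_le (hdp _ (by linarith only [hw0, h0]) (by linarith only [hw0, t0]))
    exact cos_anti (by linarith only [hw0, h0]) (by linarith only [hw0, t0]) (by norm_num)
  have h4 : ∫ _u in (7 / 20 : ℝ)..(13 / 20), 1225 / 10000 ≤
      ∫ u in (7 / 20 : ℝ)..(13 / 20), (Lg H u - Lg H w0) := by
    apply intervalIntegral.integral_mono_on (by norm_num) (by simp)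
    · exact (Lg_integrable _ _ _).sub (by simp)
    · intro u hu
      have : Lg H (7 / 20) ≤ Lg H u :=
        Lg_le (hdp _ (by norm_num) (by norm_num)) (cos_le_mid (by norm_num) hu.1
          (by linarith only [hu.2]))
      linarith only [this, a2, a1]
  rw [intervalIntegral.integral_const, smul_eq_mul] at h4
  -- the last piece
  have a3 : Lg H (51 / 200) - Lg H (1 / 4) ≤ 4 * (51 / 200 - 1 / 4) := by
    have hd : ∀ y ∈ Icc (1 / 4 : ℝ) (51 / 200), HasDerivAt (fun y => 4 * y - Lg H y)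
        (4 - Lgd H y) y := by
      intro y hy
      have h5 : 0 < y := by linarith only [hy.1]
      have h6 := ((hasDerivAt_id y).const_mul 4).sub (Lg_hasDerivAt (s := H) (x := y)
        (Or.inr ⟨h5.ne', by rw [abs_of_pos h5]; linarith only [hy.2]⟩))
      refine h6.congr_deriv ?_
      rw [mul_one]
    have hmono : MonotoneOn (fun y => 4 * y - Lg H y) (Icc (1 / 4 : ℝ) (51 / 200)) := by
      apply monotoneOn_of_deriv_nonneg (convex_Icc _ _)
      · exact fun y hy => (hd y hy).continuousAt.continuousWithinAt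
      · exact fun y hy => (hd y (interior_subset hy)).differentiableAt.differentiableWithinAt
      · intro y hy
        have hy' := interior_subset hy
        rw [(hd y hy').deriv]
        have h7 : Real.cos (2 * Real.pi * y) ≤ 0 := by
          apply Real.cos_nonpos_of_pi_div_two_le_of_le
          · linarith only [mul_nonneg (sub_nonneg.2 hpi.le) (sub_nonneg.2 hy'.1)]
          · linarith only [hpi, mul_nonneg (sub_nonneg.2 hpi.le) (sub_nonneg.2 hy'.2)]
        have := Lgd_hi (s := H) (m := 4) h7 (by norm_num) (by norm_num)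
        linarith only [this]
    have := hmono ⟨le_rfl, by norm_num⟩ ⟨by norm_num, le_rfl⟩ (by norm_num)
    simp only at this
    linarith only [this]
  have h5 : ∫ _u in (13 / 20 : ℝ)..w, -(2 / 100 : ℝ) ≤
      ∫ u in (13 / 20 : ℝ)..w, (Lg H u - Lg H w0) := by
    apply intervalIntegral.integral_mono_on (by linarith only [hw0, h1]) (by simp)
    · exact (Lg_integrable _ _ _).sub (by simp)
    · intro u hu
      have : Lg H (1 / 4) ≤ Lg H u :=
        Lg_le (hdp _ (by norm_num) (by norm_num)) (cos_le_mid (by norm_num) (by linarith only [hu.1])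
          (by linarith only [hu.2, hw0, h2]))
      linarith only [this, a3, a2]
  rw [intervalIntegral.integral_const, smul_eq_mul] at h5
  linarith only [h5, h4, h3, e2, e1, hw0, h2]

theorem D0_pos {X N T H t : ℝ} (h : RG X N T H) (h1 : -(1 / 4) ≤ t) (h2 : t ≤ 1 / 2)
    (h3 : t ≠ T) : 0 < Dd H (1 / 2 - T) (1 / 2 - t) := by
  have t0 := h.t0
  have t1 := h.t1
  rcases lt_or_gt_of_ne h3 with h4 | h4
  · rcases le_or_gt (1 / 2 - t) (1 - (1 / 2 - T)) with h5 | h5
    · exact Dd_pos_right (by linarith only [t1]) (by linarith only [h4]) h5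
    · have := D0_low h (by linarith only [h5, h4, h1]) (by linarith only [h5, h4, t0]) h1
      linarith only [this, h5, t0, h1]
  · exact Dd_pos_left (by linarith only [t1]) (by linarith only [t0]) (by linarith only [h2]) (by linarith only [t1,
                                                                                                    h2]) (by linarith only [h4])

theorem D0_nonneg {X N T H t : ℝ} (h : RG X N T H) (h1 : -(1 / 4) ≤ t) (h2 : t ≤ 1 / 2) :
    0 ≤ Dd H (1 / 2 - T) (1 / 2 - t) := by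
  by_cases h3 : t = T
  · rw [h3, Dd_self]
  · exact (D0_pos h h1 h2 h3).le

/-! ### The defect at the difference -/

theorem Dm_cub {s p w m B : ℝ} (hp : 0 < p) (hp1 : p ≤ 1 / 2) (hw : -1 < w) (hwp : w ≤ p)
    (hm : m ≤ Lgd s p) (h0 : 0 ≤ 2 * p + w) (h : B * (3 * p) ≤ m * (2 * p + w)) :
    B / 2 * (p - w) ^ 2 ≤ Dd s p w := by
  refine le_trans ?_ (Dd_ge hp hp1 hw hwp)
  have h1 : m / (2 * p) * ((p - w) ^ 2 * (2 * p + w) / 3) ≤
      Lgd s p / (2 * p) * ((p - w) ^ 2 * (2 * p + w) / 3) := by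
    apply mul_le_mul_of_nonneg_right _ (by positivity)
    exact div_le_div_of_nonneg_right hm (by positivity)
  refine le_trans ?_ h1
  have e1 : m / (2 * p) * ((p - w) ^ 2 * (2 * p + w) / 3) =
      (m * (2 * p + w)) * ((p - w) ^ 2 / (6 * p)) := by
    field_simp
    ring
  have e2 : B / 2 * (p - w) ^ 2 = (B * (3 * p)) * ((p - w) ^ 2 / (6 * p)) := by
    field_simp
    ring
  rw [e1, e2]
  exact mul_le_mul_of_nonneg_right h (by positivity)

theorem Lp_123 {s p : ℝ} (hs : |s| ≤ 165 / 1000) (h0 : 60 / 1000 ≤ p) (h1 : p ≤ 342 / 1000) :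
    123 / 100 ≤ Lgd s p :=
  Lgd_ge_mid (u := 3 / 50) (v := 171 / 500) (by norm_num) (by norm_num) (by linarith only [h0])
    (by linarith only [h1]) (by norm_num) (le_trans (by norm_num) (gB_060 hs))
    (le_trans (by norm_num) (gB_342 hs))

theorem Lp_204 {s p : ℝ} (hs : |s| ≤ 165 / 1000) (h0 : 75 / 1000 ≤ p) (h1 : p ≤ 1 / 5) :
    204 / 100 ≤ Lgd s p :=
  Lgd_ge_mid (u := 3 / 40) (v := 1 / 5) (by norm_num) (by norm_num) (by linarith only [h0])
    (by linarith only [h1]) (by norm_num) (le_trans (by norm_num) (gB_075 hs))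
    (le_trans (by norm_num) (gB_200 hs))

theorem Lp_220 {s p : ℝ} (hs : |s| ≤ 165 / 1000) (h0 : 85 / 1000 ≤ p) (h1 : p ≤ 1 / 5) :
    220 / 100 ≤ Lgd s p :=
  Lgd_ge_mid (u := 17 / 200) (v := 1 / 5) (by norm_num) (by norm_num) (by linarith only [h0])
    (by linarith only [h1]) (by norm_num) (le_trans (by norm_num) (gB_085 hs))
    (le_trans (by norm_num) (gB_200 hs))

theorem Lp_233 {s p : ℝ} (hs : |s| ≤ 165 / 1000) (h0 : 100 / 1000 ≤ p) (h1 : p ≤ 1 / 5) :
    233 / 100 ≤ Lgd s p :=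
  Lgd_ge_mid (u := 1 / 10) (v := 1 / 5) (by norm_num) (by norm_num) (by linarith only [h0])
    (by linarith only [h1]) (by norm_num) (le_trans (by norm_num) (gB_100 hs))
    (le_trans (by norm_num) (gB_200 hs))

/-! ### The final step -/

theorem fin_cs {A B K κ a b e δ D0 Dm Dp : ℝ} (hA : 0 < A) (hB : 0 < B) (hK0 : 0 ≤ K)
    (h0 : A * a ^ 2 ≤ 2 * D0) (hm : B / 2 * b ^ 2 ≤ Dm)
    (hp : -(κ / 6 * ((e + 2 * δ) * (e - δ) ^ 2)) ≤ Dp) (hK : κ / 6 * (e + 2 * δ) ≤ K)
    (hg0 : δ ≤ e) (hg : e - δ ≤ 2 * a + b) (h : K * (4 * B + 2 * A) < A * B)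
    (hab : 0 < a ∨ 0 < b) : 0 < 2 * D0 + Dm + Dp := by
  have h1 := cs hA hB hK0 (show 0 ≤ e - δ by linarith only [hg0]) hg h hab
  have h2 : κ / 6 * ((e + 2 * δ) * (e - δ) ^ 2) ≤ K * (e - δ) ^ 2 := by
    have := mul_le_mul_of_nonneg_right hK (sq_nonneg (e - δ))
    linarith only [this]
  linarith only [h2, h1, hp, hm, h0]

end Pool.Agent.S5.VB
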