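import Pool.Agent.S5.I.VB2

/-!
# Flats of a slot: beyond `1/2`
-/

set_option autoImplicit false

namespace Pool.Agent.S5.VB

open Pool.Agent.H63.VC3 Pool.Agent.S3 Pool.Agent.S5 MeasureTheory Filter Topology Set

/-- The data of a point with both differences on the critical side. -/
structure PT (X N T H t x a b p e δ : ℝ) : Prop where
  rg : RG X N T H
  ea : a = t - T
  eb : b = T - X - (t - x)
  ep : p = T - X
  ee : e = t + x - 1 / 2
  x1 : x ≤ 7 / 25
  t1 : t ≤ 42 / 100
  a0 : 0 ≤ a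
  b0 : 0 ≤ b
  ab : 0 < a ∨ 0 < b
  e0 : 0 ≤ e
  d0 : 0 ≤ δ
  de : δ ≤ e
  d1 : T + X - 1 / 2 ≤ δ
  d2 : δ = 0 ∨ δ = T + X - 1 / 2

/-- The function. -/
noncomputable def Fl (X N T H t x : ℝ) : ℝ :=
  2 * Dd H (1 / 2 - T) (1 / 2 - t) + Dd (H - N) (T - X) (t - x) + Dd (H + N) (T + X) (t + x)

section

variable {X N T H t x a b p e δ : ℝ}

theorem PT.c1 (h : PT X N T H t x a b p e δ) : e + 22 / 100 - T ≤ a := by
  linarith [h.ea, h.ee, h.x1]

theorem PT.c2 (h : PT X N T H t x a b p e δ) : b ≤ p + 6 / 100 - e := by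
  linarith [h.eb, h.ee, h.x1, h.ep]

theorem PT.c3 (h : PT X N T H t x a b p e δ) : e - δ ≤ 2 * a + b := by
  linarith [h.eb, h.ee, h.ea, h.d1]

theorem PT.c4 (h : PT X N T H t x a b p e δ) : e ≤ 1 / 5 := by
  linarith [h.ee, h.x1, h.t1]

theorem PT.p0 (h : PT X N T H t x a b p e δ) : 75 / 1000 ≤ p := by
  linarith [h.ep, h.rg.g]

theorem PT.p1 (h : PT X N T H t x a b p e δ) : p ≤ 342 / 1000 := by
  linarith [h.ep, h.rg.t1, h.rg.x0]

theorem PT.p2 (h : PT X N T H t x a b p e δ) : T - 215 / 1000 ≤ p := by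
  linarith [h.ep, h.rg.x1]

theorem PT.p3 (h : PT X N T H t x a b p e δ) : 2 * T - 545 / 1000 ≤ p := by
  linarith [h.ep, h.rg.p]

theorem PT.d3 (h : PT X N T H t x a b p e δ) : δ ≤ 45 / 1000 := by
  rcases h.d2 with h2 | h2
  · linarith
  · linarith [h.rg.p]

/-- `δ = 0` or `δ = 2 T - p - 1/2`. -/
theorem PT.d4 (h : PT X N T H t x a b p e δ) : δ = 0 ∨ δ = 2 * T - p - 1 / 2 := by
  rcases h.d2 with h2 | h2
  · exact Or.inl h2
  · right
    linarith [h.ep]

theorem PT.d5 (h : PT X N T H t x a b p e δ) {τ : ℝ} (h0 : 0 ≤ τ) (h1 : T - 285 / 1000 ≤ τ) :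
    δ ≤ τ := by
  rcases h.d4 with h2 | h2
  · linarith
  · linarith [h.p2]

theorem PT.d6 (h : PT X N T H t x a b p e δ) (hp : 1 / 5 ≤ p) : δ = 0 := by
  rcases h.d4 with h2 | h2
  · exact h2
  · linarith [h.d0, h.rg.t1]

theorem PT.Dp (h : PT X N T H t x a b p e δ) {κ E : ℝ} (hk : KB κ E) (he : e ≤ E) :
    -(κ / 6 * ((e + 2 * δ) * (e - δ) ^ 2)) ≤ Dd (H + N) (T + X) (t + x) := by
  have hd : δ = max (T + X - 1 / 2) 0 := by
    rcases h.d2 with h2 | h2
    · rw [h2, max_eq_right (by linarith [h.d1])]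
    · rw [h2, max_eq_left (by linarith [h.d0])]
  have h3 := Dp_ge (s := H + N) (q := T + X) (e := e) hk (by linarith [h.rg.x0, h.rg.t0]) h.e0
    (h.d1.trans h.de) he
  rw [← hd] at h3
  rwa [show 1 / 2 + e = t + x by linarith [h.ee]] at h3

theorem PT.Dcub (h : PT X N T H t x a b p e δ) {m B : ℝ} (hm : m ≤ Lgd (H - N) p)
    (h1 : B * (3 * p) ≤ m * (2 * p - 6 / 100 + e)) (hm0 : 0 ≤ m) :
    B / 2 * b ^ 2 ≤ Dd (H - N) (T - X) (t - x) := by
  have hp0 := h.p0
  have hp1 := h.p1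
  have c2 := h.c2
  have e0 := h.e0
  have hw : t - x = p - b := by linarith [h.eb, h.ep]
  rw [hw, ← h.ep]
  have h2 : m * (2 * p - 6 / 100 + e) ≤ m * (2 * p + (p - b)) :=
    mul_le_mul_of_nonneg_left (by linarith) hm0
  have := Dm_cub (s := H - N) (p := p) (w := p - b) (m := m) (B := B) (by linarith)
    (by linarith) (by linarith) (by linarith [h.b0]) hm (by linarith) (by linarith)
  rwa [show p - (p - b) = b by ring] at this

theorem PT.Dquad (h : PT X N T H t x a b p e δ) {m u v : ℝ} (hu : 0 < u) (hv : v ≤ 1 / 2)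
    (h1 : u ≤ e - 6 / 100) (h2 : p ≤ v) (hm0 : 0 ≤ m) (hmu : m ≤ Lgd (H - N) u)
    (hmv : m ≤ Lgd (H - N) v) : m / 2 * b ^ 2 ≤ Dd (H - N) (T - X) (t - x) := by
  have c2 := h.c2
  have hw : t - x = p - b := by linarith [h.eb, h.ep]
  rw [hw, ← h.ep]
  have := Dd_ge_box (s := H - N) (w0 := p) (w := p - b) (u := u) (v := v) (m := m) hu hv
    (by linarith [h.b0]) h2 (by linarith) (by linarith [h.b0]) hm0 hmu hmv
  rwa [show (p - b - p) ^ 2 = b ^ 2 by ring] at this

/-- Cauchy-Schwarz. -/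
theorem PT.cs (h : PT X N T H t x a b p e δ) {A B K κ E : ℝ}
    (h0 : A * (t - T) ^ 2 ≤ 2 * Dd H (1 / 2 - T) (1 / 2 - t))
    (hm : B / 2 * b ^ 2 ≤ Dd (H - N) (T - X) (t - x)) (hk : KB κ E) (he : e ≤ E)
    (hK : κ / 6 * (e + 2 * δ) ≤ K) (hA : 0 < A) (hB : 0 < B) (hK0 : 0 ≤ K)
    (h1 : K * (4 * B + 2 * A) < A * B) : 0 < Fl X N T H t x := by
  rw [← h.ea] at h0
  exact fin_cs hA hB hK0 h0 hm (h.Dp hk he) hK h.de h.c3 h1 h.ab

/-- The boundary `x = 7/25`. -/
theorem PT.cb (h : PT X N T H t x a b p e δ) {A B κ E a0 b1 : ℝ}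
    (h0 : A * (t - T) ^ 2 ≤ 2 * Dd H (1 / 2 - T) (1 / 2 - t))
    (hm : B / 2 * b ^ 2 ≤ Dd (H - N) (T - X) (t - x)) (hk : KB κ E) (he : e ≤ E)
    (hA : 0 ≤ A) (hB : 0 ≤ B) (ha : a0 ≤ a) (hb1 : 0 ≤ b1) (hb : b1 - 2 * (a - a0) ≤ b)
    (h1 : B * b1 ≤ A * a0)
    (h2 : κ / 6 * ((e + 2 * δ) * (e - δ) ^ 2) < A * a0 ^ 2 + B / 2 * b1 ^ 2) :
    0 < Fl X N T H t x := by
  rw [← h.ea] at h0
  have h3 := VB.cb hA hB ha hb1 hb h1
  have h4 := h.Dp hk he
  unfold Fl
  linarith

/-- The defect at the edge alone. -/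
theorem PT.one (h : PT X N T H t x a b p e δ) {A κ E a0 : ℝ}
    (h0 : A * (t - T) ^ 2 ≤ 2 * Dd H (1 / 2 - T) (1 / 2 - t)) (hk : KB κ E) (he : e ≤ E)
    (hκ : 0 ≤ κ) (hA : 0 ≤ A) (ha0 : 0 ≤ a0) (ha : a0 ≤ a)
    (h2 : κ / 6 * e ^ 3 < A * a0 ^ 2) : 0 < Fl X N T H t x := by
  rw [← h.ea] at h0
  have h4 := h.Dp hk he
  have h5 : A * a0 ^ 2 ≤ A * a ^ 2 := by
    apply mul_le_mul_of_nonneg_left _ hA
    nlinarith
  have h6 := cube_ge h.d0 h.de
  have h7 := mul_le_mul_of_nonneg_left h6 (show 0 ≤ κ / 6 by linarith)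
  have h8 : 0 ≤ Dd (H - N) (T - X) (t - x) := by
    have hw : t - x = p - b := by linarith [h.eb, h.ep]
    have hp0 := h.p0
    have hp1 := h.p1
    have c2 := h.c2
    have e0 := h.e0
    rw [hw, ← h.ep]
    exact Dd_nonneg_left (by linarith) (by linarith) (by linarith) (by linarith)
      (by linarith [h.b0])
  unfold Fl
  linarith

/-! ### The zones -/

/-- `T ≤ 3/10`. -/
theorem zone1 (h : PT X N T H t x a b p e δ) (hT : T ≤ 30 / 100) : 0 < Fl X N T H t x := by
  have hd : δ ≤ 15 / 1000 := h.d5 (by norm_num) (by linarith)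
  have hA := D0_222 h.rg (by linarith [h.a0, h.ea]) h.t1
  have e0 := h.e0
  have p0 := h.p0
  have p1 := h.p1
  have c1 := h.c1
  have c4 := h.c4
  have d0 := h.d0
  have hs := h.rg.sm
  rcases le_total e (12 / 100) with he | he
  · rcases le_total (1 / 5) p with hp | hp
    · have hd0 := h.d6 hp
      have hB := h.Dcub (m := 123 / 100) (B := 697 / 1000) (Lp_123 hs (by linarith) p1)
        (by linarith) (by norm_num)
      exact h.cs hA hB KB_120 (by linarith) (K := 2074 / 10000) (by linarith) (by norm_num)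
        (by norm_num) (by norm_num) (by norm_num)
    · rcases le_total e (6 / 100) with he2 | he2
      · have hB := h.Dcub (m := 204 / 100) (B := 816 / 1000) (Lp_204 hs (by linarith) hp)
          (by linarith) (by norm_num)
        exact h.cs hA hB KB_060 (by linarith) (K := 15 / 100) (by linarith) (by norm_num)
          (by norm_num) (by norm_num) (by norm_num)
      · have hB := h.Dcub (m := 204 / 100) (B := 136 / 100) (Lp_204 hs (by linarith) hp)
          (by linarith) (by norm_num)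
        exact h.cs hA hB KB_120 (by linarith) (K := 2593 / 10000) (by linarith) (by norm_num)
          (by norm_num) (by norm_num) (by norm_num)
  · apply h.one hA KB_200 (by linarith) (by norm_num) (by norm_num) (a0 := e - 8 / 100)
      (by linarith) (by linarith)
    have h3 : 0 ≤ (e - 12 / 100) * (1 / 5 - e) := mul_nonneg (by linarith) (by linarith)
    nlinarith

/-- `3/10 ≤ T ≤ 315/1000`. -/
theorem zone2 (h : PT X N T H t x a b p e δ) (hT0 : 30 / 100 ≤ T) (hT : T ≤ 315 / 1000) :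
    0 < Fl X N T H t x := by
  have hd : δ ≤ 30 / 1000 := h.d5 (by norm_num) (by linarith)
  have hA := D0_278 h.rg hT0 (by linarith [h.a0, h.ea]) h.t1
  have e0 := h.e0
  have p2 := h.p2
  have p1 := h.p1
  have c1 := h.c1
  have c4 := h.c4
  have d0 := h.d0
  have hs := h.rg.sm
  rcases le_total e (14 / 100) with he | he
  · rcases le_total (1 / 5) p with hp | hp
    · have hd0 := h.d6 hp
      rcases le_total e (6 / 100) with he2 | he2
      · have hB := h.Dcub (m := 123 / 100) (B := 697 / 1000) (Lp_123 hs (by linarith) p1)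
          (by linarith) (by norm_num)
        exact h.cs hA hB KB_060 (by linarith) (K := 1 / 10) (by linarith) (by norm_num)
          (by norm_num) (by norm_num) (by norm_num)
      · have hB := h.Dcub (m := 123 / 100) (B := 82 / 100) (Lp_123 hs (by linarith) p1)
          (by linarith) (by norm_num)
        exact h.cs hA hB KB_140 (by linarith) (K := 2467 / 10000) (by linarith) (by norm_num)
          (by norm_num) (by norm_num) (by norm_num)
    · rcases le_total e (6 / 100) with he2 | he2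
      · have hB := h.Dcub (m := 220 / 100) (B := 94 / 100) (Lp_220 hs (by linarith) hp)
          (by linarith) (by norm_num)
        exact h.cs hA hB KB_060 (by linarith) (K := 20 / 100) (by linarith) (by norm_num)
          (by norm_num) (by norm_num) (by norm_num)
      · have hB := h.Dcub (m := 220 / 100) (B := 1466 / 1000) (Lp_220 hs (by linarith) hp)
          (by linarith) (by norm_num)
        exact h.cs hA hB KB_140 (by linarith) (K := 35234 / 100000) (by linarith) (by norm_num)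
          (by norm_num) (by norm_num) (by norm_num)
  · apply h.one hA KB_200 (by linarith) (by norm_num) (by norm_num) (a0 := e - 95 / 1000)
      (by linarith) (by linarith)
    have h3 : 0 ≤ (e - 14 / 100) * (1 / 5 - e) := mul_nonneg (by linarith) (by linarith)
    nlinarith

end

end Pool.Agent.S5.VB
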