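import Pool.Agent.S5.I.VB3

/-!
# Flats of a slot: beyond `1/2`, large `Re y*`
-/

set_option autoImplicit false

namespace Pool.Agent.S5.VB

open Pool.Agent.H63.VC3 Pool.Agent.S3 Pool.Agent.S5 MeasureTheory Filter Topology Set

variable {X N T H t x a b p e δ : ℝ}

/-- Large `p`: Cauchy-Schwarz for `e ≤ 17/100`. -/
theorem zone_p (h : PT X N T H t x a b p e δ) (hT0 : 315 / 1000 ≤ T) (hp : 1 / 5 ≤ p)
    (he : e ≤ 17 / 100) : 0 < Fl X N T H t x := by
  have hA := D0_292 h.rg hT0 (by linarith [h.a0, h.ea]) h.t1
  have hd0 := h.d6 hp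
  have hs := h.rg.sm
  have p1 := h.p1
  have e0 := h.e0
  rcases le_total e (6 / 100) with he2 | he2
  · have hB := h.Dcub (m := 123 / 100) (B := 697 / 1000) (Lp_123 hs (by linarith) p1)
      (by linarith) (by norm_num)
    exact h.cs hA hB KB_060 (by linarith) (K := 1 / 10) (by linarith) (by norm_num)
      (by norm_num) (by norm_num) (by norm_num)
  rcases le_total e (12 / 100) with he3 | he3
  · have hB := h.Dcub (m := 123 / 100) (B := 82 / 100) (Lp_123 hs (by linarith) p1)
      (by linarith) (by norm_num)
    exact h.cs hA hB KB_120 (by linarith) (K := 2074 / 10000) (by linarith) (by norm_num)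
      (by norm_num) (by norm_num) (by norm_num)
  · have hB := h.Dquad (m := 123 / 100) (u := 3 / 50) (v := 171 / 500) (by norm_num) (by norm_num)
      (by linarith) (by linarith) (by norm_num) (le_trans (by norm_num) (gB_060 hs))
      (le_trans (by norm_num) (gB_342 hs))
    exact h.cs hA hB KB_170 (by linarith) (K := 30997 / 100000) (by linarith) (by norm_num)
      (by norm_num) (by norm_num) (by norm_num)

/-- Small `e`. -/
theorem zone_e (h : PT X N T H t x a b p e δ) (hT0 : 315 / 1000 ≤ T) (hp : p ≤ 1 / 5)
    (he : e ≤ 12 / 100) : 0 < Fl X N T H t x := by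
  have hA := D0_292 h.rg hT0 (by linarith [h.a0, h.ea]) h.t1
  have hs := h.rg.sm
  have p2 := h.p2
  have e0 := h.e0
  have hd := h.d3
  rcases le_total e (6 / 100) with he2 | he2
  · have hB := h.Dcub (m := 233 / 100) (B := 1087 / 1000) (Lp_233 hs (by linarith) hp)
      (by linarith) (by norm_num)
    exact h.cs hA hB KB_060 (by linarith) (K := 25 / 100) (by linarith) (by norm_num)
      (by norm_num) (by norm_num) (by norm_num)
  · have hB := h.Dcub (m := 233 / 100) (B := 1553 / 1000) (Lp_233 hs (by linarith) hp)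
      (by linarith) (by norm_num)
    exact h.cs hA hB KB_120 (by linarith) (K := 36295 / 100000) (by linarith) (by norm_num)
      (by norm_num) (by norm_num) (by norm_num)

/-- The quadratic bound of the difference. -/
theorem PT.q175 (h : PT X N T H t x a b p e δ) (hp : p ≤ 1 / 5) (he : 12 / 100 ≤ e) :
    175 / 100 / 2 * b ^ 2 ≤ Dd (H - N) (T - X) (t - x) :=
  h.Dquad (u := 3 / 50) (v := 1 / 5) (by norm_num) (by norm_num)
    (by linarith) (by linarith) (by norm_num) (le_trans (by norm_num) (gB_060 h.rg.sm))
    (le_trans (by norm_num) (gB_200 h.rg.sm))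

theorem PT.q204 (h : PT X N T H t x a b p e δ) (hp : p ≤ 1 / 5) (he : 135 / 1000 ≤ e) :
    204 / 100 / 2 * b ^ 2 ≤ Dd (H - N) (T - X) (t - x) :=
  h.Dquad (u := 3 / 40) (v := 1 / 5) (by norm_num) (by norm_num)
    (by linarith) (by linarith) (by norm_num) (le_trans (by norm_num) (gB_075 h.rg.sm))
    (le_trans (by norm_num) (gB_200 h.rg.sm))

theorem PT.q220 (h : PT X N T H t x a b p e δ) (hp : p ≤ 1 / 5) (he : 145 / 1000 ≤ e) :
    220 / 100 / 2 * b ^ 2 ≤ Dd (H - N) (T - X) (t - x) :=
  h.Dquad (u := 17 / 200) (v := 1 / 5) (by norm_num) (by norm_num)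
    (by linarith) (by linarith) (by norm_num) (le_trans (by norm_num) (gB_085 h.rg.sm))
    (le_trans (by norm_num) (gB_200 h.rg.sm))

theorem PT.q226 (h : PT X N T H t x a b p e δ) (hp : p ≤ 1 / 5) (he : 15 / 100 ≤ e) :
    226 / 100 / 2 * b ^ 2 ≤ Dd (H - N) (T - X) (t - x) :=
  h.Dquad (u := 9 / 100) (v := 1 / 5) (by norm_num) (by norm_num)
    (by linarith) (by linarith) (by norm_num) (le_trans (by norm_num) (gB_090 h.rg.sm))
    (le_trans (by norm_num) (gB_200 h.rg.sm))

theorem PT.q233 (h : PT X N T H t x a b p e δ) (hp : p ≤ 1 / 5) (he : 16 / 100 ≤ e) :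
    233 / 100 / 2 * b ^ 2 ≤ Dd (H - N) (T - X) (t - x) :=
  h.Dquad (u := 1 / 10) (v := 1 / 5) (by norm_num) (by norm_num)
    (by linarith) (by linarith) (by norm_num) (le_trans (by norm_num) (gB_100 h.rg.sm))
    (le_trans (by norm_num) (gB_200 h.rg.sm))

/-- `315/1000 ≤ T ≤ 33/100`. -/
theorem zone3 (h : PT X N T H t x a b p e δ) (hT0 : 315 / 1000 ≤ T) (hT : T ≤ 33 / 100) :
    0 < Fl X N T H t x := by
  have hd := h.d3
  have hA := D0_292 h.rg hT0 (by linarith [h.a0, h.ea]) h.t1
  have e0 := h.e0
  have p2 := h.p2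
  have c1 := h.c1
  have c3 := h.c3
  have c4 := h.c4
  have d0 := h.d0
  rcases le_total e (17 / 100) with he | he
  · rcases le_total (1 / 5) p with hp | hp
    · exact zone_p h hT0 hp he
    rcases le_total e (12 / 100) with he1 | he1
    · exact zone_e h hT0 hp he1
    rcases le_total e (135 / 1000) with he2 | he2
    · exact h.cs hA (h.q175 hp he1) KB_135 (by linarith) (K := 394125 / 1000000) (by linarith)
        (by norm_num) (by norm_num) (by norm_num) (by norm_num)
    rcases le_total e (145 / 1000) with he3 | he3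
    · exact h.cs hA (h.q204 hp he2) KB_145 (by linarith) (K := 41595 / 100000) (by linarith)
        (by norm_num) (by norm_num) (by norm_num) (by norm_num)
    have hB := h.q220 hp he3
    rcases le_total (e + 2 * δ) (24 / 100) with h4 | h4
    · exact h.cs hA hB KB_170 (by linarith) (K := 4376 / 10000) (by linarith)
        (by norm_num) (by norm_num) (by norm_num) (by norm_num)
    · rcases le_total (e + δ) (22 / 100) with h6 | h6
      · refine h.cb (a0 := e - 11 / 100) (b1 := 22 / 100 - e - δ) hA hB KB_170 (by linarith)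
          (by norm_num) (by norm_num) (by linarith) (by linarith) (by linarith) (by linarith) ?_
        have h5 : (e + 2 * δ) * (e - δ) ^ 2 ≤ (26 / 100) * (e - δ) ^ 2 :=
          mul_le_mul_of_nonneg_right (by linarith) (sq_nonneg _)
        have h7 : 0 ≤ 22 / 100 - e - δ := by linarith
        have h8 : 0 ≤ (e - 145 / 1000) * (17 / 100 - e) := mul_nonneg (by linarith) (by linarith)
        have h9 : 0 ≤ (45 / 1000 - δ) * (e + 2 * δ - 24 / 100) :=
          mul_nonneg (by linarith) (by linarith)
        nlinarith
      · exfalso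
        linarith
  · apply h.one hA KB_200 (by linarith) (by norm_num) (by norm_num) (a0 := e - 11 / 100)
      (by linarith) (by linarith)
    have h3 : 0 ≤ (e - 17 / 100) * (1 / 5 - e) := mul_nonneg (by linarith) (by linarith)
    nlinarith

/-- `33/100 ≤ T`. -/
theorem zone4 (h : PT X N T H t x a b p e δ) (hT0 : 33 / 100 ≤ T) : 0 < Fl X N T H t x := by
  have hd := h.d3
  have e0 := h.e0
  have p3 := h.p3
  have c1 := h.c1
  have c3 := h.c3
  have c4 := h.c4
  have d0 := h.d0
  have t1 := h.rg.t1
  have hT : 315 / 1000 ≤ T := by linarith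
  rcases le_total (415 / 1000) t with ht | ht
  · -- large `t`
    have hA := D0_299 h.rg hT0 (by linarith [h.a0, h.ea]) h.t1
    apply h.one hA KB_200 (by linarith) (by norm_num) (by norm_num) (a0 := 73 / 1000)
      (by norm_num) (by linarith [h.ea])
    have : e ^ 3 ≤ (1 / 5) ^ 3 := pow_le_pow_left₀ e0 c4 3
    linarith
  have hA := D0_305 h.rg hT0 (by linarith [h.a0, h.ea]) ht
  rcases le_total (1 / 5) p with hp | hp
  · rcases le_total e (17 / 100) with he | he
    · exact zone_p h hT hp he
    · have hd0 := h.d6 hp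
      have hB := h.Dquad (m := 123 / 100) (u := 3 / 50) (v := 171 / 500) (by norm_num)
        (by norm_num) (by linarith) (by linarith [h.p1]) (by norm_num)
        (le_trans (by norm_num) (gB_060 h.rg.sm)) (le_trans (by norm_num) (gB_342 h.rg.sm))
      refine h.cb (a0 := e - 122 / 1000) (b1 := 244 / 1000 - e) hA hB KB_200 (by linarith)
          (by norm_num) (by norm_num) (by linarith) (by linarith) (by linarith) (by linarith) ?_
      rw [hd0]
      have h8 : 0 ≤ (e - 17 / 100) * (1 / 5 - e) := mul_nonneg (by linarith) (by linarith)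
      nlinarith
  rcases le_total e (12 / 100) with he1 | he1
  · exact zone_e h hT hp he1
  rcases le_total e (135 / 1000) with he2 | he2
  · exact h.cs hA (h.q175 hp he1) KB_135 (by linarith) (K := 394125 / 1000000) (by linarith)
      (by norm_num) (by norm_num) (by norm_num) (by norm_num)
  rcases le_total e (15 / 100) with he3 | he3
  · exact h.cs hA (h.q204 hp he2) KB_150 (by linarith) (K := 4272 / 10000) (by linarith)
      (by norm_num) (by norm_num) (by norm_num) (by norm_num)
  rcases le_total e (16 / 100) with he4 | he4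
  · exact h.cs hA (h.q226 hp he3) KB_160 (by linarith) (K := 45 / 100) (by linarith)
      (by norm_num) (by norm_num) (by norm_num) (by norm_num)
  have hB := h.q233 hp he4
  rcases le_total e (17 / 100) with he5 | he5
  · rcases le_total (e + 2 * δ) (25 / 100) with h4 | h4
    · exact h.cs hA hB KB_170 (by linarith) (K := 45584 / 100000) (by linarith)
        (by norm_num) (by norm_num) (by norm_num) (by norm_num)
    · refine h.cb (a0 := e - 122 / 1000) (b1 := 244 / 1000 - e - δ) hA hB KB_170 (by linarith)
          (by norm_num) (by norm_num) (by linarith) (by linarith) (by linarith) (by linarith) ?_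
      have h8 : 0 ≤ (e - 16 / 100) * (17 / 100 - e) := mul_nonneg (by linarith) (by linarith)
      have h9 : 0 ≤ (45 / 1000 - δ) * (e + 2 * δ - 25 / 100) :=
        mul_nonneg (by linarith) (by linarith)
      nlinarith
  · rcases le_total (e + 2 * δ) (24 / 100) with h4 | h4
    · exact h.cs hA hB KB_200 (by linarith) (K := 4572 / 10000) (by linarith)
        (by norm_num) (by norm_num) (by norm_num) (by norm_num)
    · rcases le_total (e + δ) (244 / 1000) with h6 | h6
      · refine h.cb (a0 := e - 122 / 1000) (b1 := 244 / 1000 - e - δ) hA hB KB_200 (by linarith)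
            (by norm_num) (by norm_num) (by linarith) (by linarith) (by linarith) (by linarith) ?_
        obtain ⟨u, hu⟩ : ∃ u, u = e - 17 / 100 := ⟨_, rfl⟩
        obtain ⟨v, hv⟩ : ∃ v, v = 45 / 1000 - δ := ⟨_, rfl⟩
        have eu : e = u + 17 / 100 := by linarith
        have ev : δ = 45 / 1000 - v := by linarith
        have hu0 : 0 ≤ u := by linarith
        have hv0 : 0 ≤ v := by linarith
        have hc : (u - 2 * v) * (u + v) ^ 2 ≤ u * (55 / 1000) ^ 2 := by
          have h7 : (u - 2 * v) * (u + v) ^ 2 ≤ u * (u + v) ^ 2 :=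
            mul_le_mul_of_nonneg_right (by linarith) (sq_nonneg _)
          have h8 : u * (u + v) ^ 2 ≤ u * (55 / 1000) ^ 2 := by
            apply mul_le_mul_of_nonneg_left _ hu0
            apply pow_le_pow_left₀ (by linarith)
            linarith
          linarith
        rw [eu, ev]
        nlinarith [sq_nonneg (v - 877 / 1000 * u), sq_nonneg u]
      · apply h.one hA KB_200 (by linarith) (by norm_num) (by norm_num) (a0 := 77 / 1000)
          (by norm_num) (by linarith)
        have : e ^ 3 ≤ (1 / 5) ^ 3 := pow_le_pow_left₀ e0 c4 3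
        linarith

end Pool.Agent.S5.VB
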