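import Pool.Agent.S5.I.VB5

/-!
# The slope on a horizontal line against `v = 7/25 + i h`
-/

set_option autoImplicit false

namespace Pool.Agent.S5.VB

open Pool.Agent.H63.VC3 Pool.Agent.S3 Pool.Agent.S5 MeasureTheory Filter Topology Set

theorem tr_s9 {x : ℝ} (hx : 0 ≤ x) :
    Real.sin x ≤ x - x ^ 3 / 6 + x ^ 5 / 120 - x ^ 7 / 5040 + x ^ 9 / 362880 := by
  have h := pos_of_deriv
    (f := fun x => x - x ^ 3 / 6 + x ^ 5 / 120 - x ^ 7 / 5040 + x ^ 9 / 362880 - Real.sin x)
    (f' := fun x => 1 - x ^ 2 / 2 + x ^ 4 / 24 - x ^ 6 / 720 + x ^ 8 / 40320 - Real.cos x)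
    (fun x => by
      have h1 := (((((hasDerivAt_id' x).sub
        ((hasDerivAt_pow 3 x).div_const 6)).add
        ((hasDerivAt_pow 5 x).div_const 120)).sub ((hasDerivAt_pow 7 x).div_const 5040)).add
        ((hasDerivAt_pow 9 x).div_const 362880)).sub (Real.hasDerivAt_sin x)
      refine h1.congr_deriv ?_
      norm_num
      try ring)
    (by simp) (fun x hx => by linarith [tr_c8 hx]) hx
  linarith

theorem sn_hi {x y s : ℝ} (h0 : 0 ≤ x) (h1 : x ≤ 6 / 25) (hy : 2 * (3141593 / 1000000) * x = y)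
    (hs : y - y ^ 3 / 6 + y ^ 5 / 120 - y ^ 7 / 5040 + y ^ 9 / 362880 ≤ s) :
    Real.sin (2 * Real.pi * x) ≤ s := by
  have p1 := Real.pi_lt_d6
  have p2 := Real.pi_gt_d6
  have hpi := Real.pi_pos
  have h2 : 2 * Real.pi * x ≤ y := by
    rw [← hy]
    exact mul_le_mul_of_nonneg_right (by linarith) h0
  have h3 : 0 ≤ 2 * Real.pi * x := by positivity
  have h5 : y ≤ Real.pi / 2 := by rw [← hy]; linarith
  have h4 := Real.sin_le_sin_of_le_of_le_pi_div_two (by linarith) h5 h2
  exact (h4.trans (tr_s9 (by linarith))).trans hs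

/-- The slope at `y = t + i H`, `v = 7/25 + i h`. -/
noncomputable def sg (H h t : ℝ) : ℝ :=
  2 * Lg H (1 / 2 - t) - Lg (H - h) (t - 7 / 25) - Lg (H + h) (t + 7 / 25)

theorem cx_bd : -(18739 / 100000) ≤ Real.cos (2 * Real.pi * (7 / 25)) ∧
    Real.cos (2 * Real.pi * (7 / 25)) ≤ -(187 / 1000) := by
  constructor
  · apply cn_lo' (x := 7 / 25) (y := 2 * (3141592 / 1000000) * (1 / 2 - 7 / 25)) <;> norm_num
  · have h := cn_lo (x := 11 / 50) (y := 2 * (3141593 / 1000000) * (11 / 50))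
      (s := 187 / 1000) (by norm_num) (by norm_num) rfl (by norm_num)
    have e : 2 * Real.pi * (7 / 25) = Real.pi - 2 * Real.pi * (11 / 50) := by ring
    rw [e, Real.cos_pi_sub]
    linarith

theorem sx_bd : 0 ≤ Real.sin (2 * Real.pi * (7 / 25)) ∧
    Real.sin (2 * Real.pi * (7 / 25)) ≤ 9824 / 10000 := by
  have hpi := Real.pi_pos
  constructor
  · apply Real.sin_nonneg_of_nonneg_of_le_pi <;> nlinarith
  · have h1 := Real.sin_sq_add_cos_sq (2 * Real.pi * (7 / 25))
    have h2 := cx_bd.2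
    nlinarith

/-- The test function. -/
def ft (E κ g C c : ℝ) : ℝ := (C + c) ^ 2 - E * (c ^ 2 + C ^ 2 + 2 * κ * C * c + g)

theorem conc {p q r a b x : ℝ} (hp : 0 ≤ p) (ha : a ≤ x) (hb : x ≤ b)
    (h1 : 0 ≤ -p * a ^ 2 + q * a + r) (h2 : 0 ≤ -p * b ^ 2 + q * b + r) :
    0 ≤ -p * x ^ 2 + q * x + r := by
  rcases ha.eq_or_lt with h | h
  · rw [← h]; exact h1
  have hab : 0 < b - a := by linarith
  have e : (b - a) * (-p * x ^ 2 + q * x + r) = (b - x) * (-p * a ^ 2 + q * a + r) +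
      (x - a) * (-p * b ^ 2 + q * b + r) + p * ((x - a) * (b - x) * (b - a)) := by ring
  have h3 : 0 ≤ (b - a) * (-p * x ^ 2 + q * x + r) := by
    rw [e]
    have h4 : 0 ≤ (b - x) * (-p * a ^ 2 + q * a + r) := mul_nonneg (by linarith) h1
    have h5 : 0 ≤ (x - a) * (-p * b ^ 2 + q * b + r) := mul_nonneg (by linarith) h2
    have h6 : 0 ≤ p * ((x - a) * (b - x) * (b - a)) :=
      mul_nonneg hp (mul_nonneg (mul_nonneg (by linarith) (by linarith)) hab.le)
    linarith
  exact nonneg_of_mul_nonneg_right h3 hab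

theorem ft_nonneg {E κ g C c Cb c1 c2 : ℝ} (hE : 1 ≤ E) (hC : 1 ≤ C) (hC2 : C ≤ Cb)
    (hc : c1 ≤ c) (hc2 : c ≤ c2) (h1 : 0 ≤ ft E κ g 1 c1) (h2 : 0 ≤ ft E κ g 1 c2)
    (h3 : 0 ≤ ft E κ g Cb c1) (h4 : 0 ≤ ft E κ g Cb c2) : 0 ≤ ft E κ g C c := by
  unfold ft at *
  have key : ∀ D, 0 ≤ (D + c1) ^ 2 - E * (c1 ^ 2 + D ^ 2 + 2 * κ * D * c1 + g) →
      0 ≤ (D + c2) ^ 2 - E * (c2 ^ 2 + D ^ 2 + 2 * κ * D * c2 + g) →
      0 ≤ (D + c) ^ 2 - E * (c ^ 2 + D ^ 2 + 2 * κ * D * c + g) := by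
    intro D h5 h6
    have := conc (p := E - 1) (q := 2 * D - E * (2 * κ * D)) (r := D ^ 2 - E * (D ^ 2 + g))
      (a := c1) (b := c2) (x := c) (by linarith) hc hc2 (by linarith) (by linarith)
    linarith
  have h5 := key 1 h1 h2
  have h6 := key Cb h3 h4
  have := conc (p := E - 1) (q := 2 * c - E * (2 * κ * c)) (r := c ^ 2 - E * (c ^ 2 + g))
    (a := 1) (b := Cb) (x := C) (by linarith) hC hC2 (by linarith) (by linarith)
  linarith

theorem ft_nonneg' {E κ g C c c1 : ℝ} (hE0 : 0 ≤ E) (hE : E ≤ 1) (hκ : κ ≤ 1)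
    (hC : 1 ≤ C) (hc : c1 ≤ c) (hc0 : 0 ≤ c1) (h1 : 0 ≤ ft E κ g 1 c1) : 0 ≤ ft E κ g C c := by
  unfold ft at *
  have hEκ : E * κ ≤ 1 := by nlinarith
  have e : (C + c) ^ 2 - E * (c ^ 2 + C ^ 2 + 2 * κ * C * c + g) =
      (1 - E) * C ^ 2 + (1 - E) * c ^ 2 + 2 * (1 - E * κ) * (C * c) - E * g := by ring
  have e1 : (1 + c1) ^ 2 - E * (c1 ^ 2 + 1 ^ 2 + 2 * κ * 1 * c1 + g) =
      (1 - E) * 1 ^ 2 + (1 - E) * c1 ^ 2 + 2 * (1 - E * κ) * (1 * c1) - E * g := by ring
  rw [e]
  rw [e1] at h1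
  have h2 : (1 - E) * 1 ^ 2 ≤ (1 - E) * C ^ 2 :=
    mul_le_mul_of_nonneg_left (pow_le_pow_left₀ (by norm_num) hC 2) (by linarith)
  have h3 : (1 - E) * c1 ^ 2 ≤ (1 - E) * c ^ 2 :=
    mul_le_mul_of_nonneg_left (pow_le_pow_left₀ hc0 hc 2) (by linarith)
  have h4 : 2 * (1 - E * κ) * (1 * c1) ≤ 2 * (1 - E * κ) * (C * c) :=
    mul_le_mul_of_nonneg_left (mul_le_mul hC hc hc0 (by linarith)) (by linarith)
  linarith

/-- Lower bound of the slope. -/
theorem sg_ge {H h t l E Cn Sn g : ℝ} (ht0 : -(1 / 4) ≤ t) (ht1 : t < 7 / 25)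
    (hl : Real.exp (2 * l) ≤ E)
    (hCn : Real.cosh (2 * Real.pi * h) ≤ Cn) (hSn : Cn ^ 2 - 1 ≤ Sn ^ 2)
    (hc : 0 ≤ Real.cos (2 * Real.pi * t))
    (hg : (18739 / 100000) ^ 2 - 1 + Sn ^ 2 - 2 * (Real.sinh (2 * Real.pi * H) *
      Real.sinh (2 * Real.pi * h) * Real.sin (2 * Real.pi * t) *
        Real.sin (2 * Real.pi * (7 / 25))) ≤ g)
    (hf : 0 ≤ ft E (Cn * (18739 / 100000)) g (Real.cosh (2 * Real.pi * H))
      (Real.cos (2 * Real.pi * t))) : l ≤ sg H h t := by
  have hE : 0 < E := lt_of_lt_of_le (Real.exp_pos _) hl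
  have hd1 : 0 < dn (H - h) (t - 7 / 25) :=
    dn_pos (Or.inr ⟨by linarith, by rw [abs_lt]; constructor <;> linarith⟩)
  have hd2 : 0 < dn (H + h) (t + 7 / 25) :=
    dn_pos (Or.inr ⟨by linarith, by rw [abs_lt]; constructor <;> linarith⟩)
  have hC1 := Real.one_le_cosh (2 * Real.pi * H)
  have hCh1 := Real.one_le_cosh (2 * Real.pi * h)
  have hd3 : 0 < Real.cosh (2 * Real.pi * H) + Real.cos (2 * Real.pi * t) := by linarith
  have hs := slope_eq hd1 hd2 hd3
  unfold sg
  rw [hs]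
  have hP : 0 < dn (H - h) (t - 7 / 25) * dn (H + h) (t + 7 / 25) := mul_pos hd1 hd2
  have hk := cx_bd.1
  have hk2 := cx_bd.2
  -- the product
  have hPle : dn (H - h) (t - 7 / 25) * dn (H + h) (t + 7 / 25) ≤
      Real.cos (2 * Real.pi * t) ^ 2 + Real.cosh (2 * Real.pi * H) ^ 2 +
        2 * (Cn * (18739 / 100000)) * Real.cosh (2 * Real.pi * H) * Real.cos (2 * Real.pi * t) +
          g := by
    rw [dn_mul]
    have h1 := Real.cosh_sq (2 * Real.pi * H)
    have h2 := Real.cosh_sq (2 * Real.pi * h)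
    have h3 := Real.sin_sq_add_cos_sq (2 * Real.pi * t)
    have h4 := Real.sin_sq_add_cos_sq (2 * Real.pi * (7 / 25))
    generalize Real.cosh (2 * Real.pi * H) = C at *
    generalize Real.cosh (2 * Real.pi * h) = C' at *
    generalize Real.sinh (2 * Real.pi * H) = S at *
    generalize Real.sinh (2 * Real.pi * h) = S' at *
    generalize Real.cos (2 * Real.pi * t) = c at *
    generalize Real.cos (2 * Real.pi * (7 / 25)) = k at *
    generalize Real.sin (2 * Real.pi * t) = d at *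
    generalize Real.sin (2 * Real.pi * (7 / 25)) = m at *
    have e : (C * c - C' * k) ^ 2 + (S * d - S' * m) ^ 2 =
        c ^ 2 + k ^ 2 + C ^ 2 - 1 + S' ^ 2 - 2 * C * C' * c * k - 2 * (S * S' * d * m) := by
      have e1 : S ^ 2 = C ^ 2 - 1 := by linarith
      have e2 : C' ^ 2 = S' ^ 2 + 1 := by linarith
      have e3 : d ^ 2 = 1 - c ^ 2 := by linarith
      have e4 : m ^ 2 = 1 - k ^ 2 := by linarith
      have e5 : (C * c - C' * k) ^ 2 + (S * d - S' * m) ^ 2 =
        C ^ 2 * c ^ 2 + C' ^ 2 * k ^ 2 + S ^ 2 * d ^ 2 + S' ^ 2 * m ^ 2 -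
          2 * C * C' * c * k - 2 * (S * S' * d * m) := by ring
      rw [e5, e1, e2, e3, e4]
      ring
    rw [e]
    have h5 : k ^ 2 ≤ (18739 / 100000) ^ 2 := by nlinarith
    have h6 : S' ^ 2 ≤ Sn ^ 2 := by nlinarith
    have h7 : -(2 * C * C' * c * k) ≤ 2 * (Cn * (18739 / 100000)) * C * c := by
      have h8 : C' * (-k) ≤ Cn * (18739 / 100000) :=
        mul_le_mul hCn (by linarith) (by linarith) (by linarith)
      have h9 : 0 ≤ 2 * C * c := by positivity
      have := mul_le_mul_of_nonneg_left h8 h9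
      linarith
    linarith
  have h5 : Real.exp (2 * l) * (dn (H - h) (t - 7 / 25) * dn (H + h) (t + 7 / 25)) ≤
      (Real.cosh (2 * Real.pi * H) + Real.cos (2 * Real.pi * t)) ^ 2 := by
    have h6 : Real.exp (2 * l) * (dn (H - h) (t - 7 / 25) * dn (H + h) (t + 7 / 25)) ≤
        E * (dn (H - h) (t - 7 / 25) * dn (H + h) (t + 7 / 25)) :=
      mul_le_mul_of_nonneg_right hl hP.le
    have h7 := mul_le_mul_of_nonneg_left hPle hE.le
    unfold ft at hf
    linarith
  have h6 := Real.log_le_log (by positivity) h5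
  rw [Real.log_mul (Real.exp_pos _).ne' hP.ne', Real.log_exp, Real.log_pow] at h6
  push_cast at h6
  linarith

/-! ### Differences of `Fl` along `x = 7/25` -/

theorem Fl_sub (X N T H t t' : ℝ) : Fl X N T H t (7 / 25) - Fl X N T H t' (7 / 25) =
    ∫ u in t..t', (sg H N u - (2 * Lg H (1 / 2 - T) - Lg (H - N) (T - X) -
      Lg (H + N) (T + X))) := by
  have h1 := Dd_sub H (1 / 2 - T) (1 / 2 - t') (1 / 2 - t)
  have h2 := Dd_sub (H - N) (T - X) (t - 7 / 25) (t' - 7 / 25)
  have h3 := Dd_sub (H + N) (T + X) (t + 7 / 25) (t' + 7 / 25)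
  rw [← intervalIntegral.integral_comp_sub_left
    (fun u => Lg H u - Lg H (1 / 2 - T)) (1 / 2 : ℝ)] at h1
  rw [← intervalIntegral.integral_comp_sub_right
    (fun u => Lg (H - N) u - Lg (H - N) (T - X)) (7 / 25 : ℝ)] at h2
  rw [← intervalIntegral.integral_comp_add_right
    (fun u => Lg (H + N) u - Lg (H + N) (T + X)) (7 / 25 : ℝ)] at h3
  have i1 : IntervalIntegrable (fun u => Lg H (1 / 2 - u)) volume t t' := by
    have := (Lg_integrable H (1 / 2 - t) (1 / 2 - t')).comp_sub_left (1 / 2)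
    simpa using this
  have i2 : IntervalIntegrable (fun u => Lg (H - N) (u - 7 / 25)) volume t t' := by
    have := (Lg_integrable (H - N) (t - 7 / 25) (t' - 7 / 25)).comp_sub_right (7 / 25)
    simpa using this
  have i3 : IntervalIntegrable (fun u => Lg (H + N) (u + 7 / 25)) volume t t' := by
    have := (Lg_integrable (H + N) (t + 7 / 25) (t' + 7 / 25)).comp_add_right (7 / 25)
    simpa using this
  have e : ∫ u in t..t', (sg H N u - (2 * Lg H (1 / 2 - T) - Lg (H - N) (T - X) -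
      Lg (H + N) (T + X))) = 2 * (∫ u in t..t', (Lg H (1 / 2 - u) - Lg H (1 / 2 - T))) -
      (∫ u in t..t', (Lg (H - N) (u - 7 / 25) - Lg (H - N) (T - X))) -
      ∫ u in t..t', (Lg (H + N) (u + 7 / 25) - Lg (H + N) (T + X)) := by
    rw [← intervalIntegral.integral_const_mul, ← intervalIntegral.integral_sub,
      ← intervalIntegral.integral_sub]
    · refine intervalIntegral.integral_congr fun u _ => ?_
      simp only [sg]
      ring
    · exact ((i1.sub (by simp)).const_mul 2).sub (i2.sub (by simp))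
    · exact i3.sub (by simp)
    · exact (i1.sub (by simp)).const_mul 2
    · exact i2.sub (by simp)
  rw [e]
  unfold Fl
  linarith

theorem step {X N T H a b B l L t : ℝ} (hB : B ≤ Fl X N T H b (7 / 25))
    (hL : 2 * Lg H (1 / 2 - T) - Lg (H - N) (T - X) - Lg (H + N) (T + X) ≤ L)
    (hs : ∀ u, a < u → u < b → l ≤ sg H N u) (h1 : a ≤ t) (h2 : t ≤ b) :
    B + (b - t) * (l - L) ≤ Fl X N T H t (7 / 25) := by
  have h := Fl_sub X N T H t b
  have h3 : ∫ _u in t..b, (l - L) ≤ ∫ u in t..b, (sg H N u - (2 * Lg H (1 / 2 - T) -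
      Lg (H - N) (T - X) - Lg (H + N) (T + X))) := by
    apply intervalIntegral.integral_mono_on_of_le_Ioo h2 (by simp)
    · unfold sg
      have i1 : IntervalIntegrable (fun u => Lg H (1 / 2 - u)) volume t b := by
        have := (Lg_integrable H (1 / 2 - t) (1 / 2 - b)).comp_sub_left (1 / 2)
        simpa using this
      have i2 : IntervalIntegrable (fun u => Lg (H - N) (u - 7 / 25)) volume t b := by
        have := (Lg_integrable (H - N) (t - 7 / 25) (b - 7 / 25)).comp_sub_right (7 / 25)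
        simpa using this
      have i3 : IntervalIntegrable (fun u => Lg (H + N) (u + 7 / 25)) volume t b := by
        have := (Lg_integrable (H + N) (t + 7 / 25) (b + 7 / 25)).comp_add_right (7 / 25)
        simpa using this
      exact (((i1.const_mul 2).sub i2).sub i3).sub (by simp)
    · intro u hu
      have := hs u (by linarith [hu.1]) hu.2
      linarith
  rw [intervalIntegral.integral_const, smul_eq_mul] at h3
  linarith

/-! ### The starting point `t = 13/100` -/

theorem gA_310 {s : ℝ} (hs : |s| ≤ 135 / 1000) : 166 / 100 ≤ Lgd s (31 / 100) := by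
  have h1 : 92976 / 100000 ≤ Real.sin (2 * Real.pi * (31 / 100)) := by
    apply sn_lo' (x := 31 / 100) (y := 2 * (3141592 / 1000000) * (1 / 2 - 31 / 100)) <;> norm_num
  have h2 : -(36814 / 100000) ≤ Real.cos (2 * Real.pi * (31 / 100)) := by
    apply cn_lo' (x := 31 / 100) (y := 2 * (3141592 / 1000000) * (1 / 2 - 31 / 100)) <;> norm_num
  exact Lgd_lo (ch_135 hs) h1 h2 (by norm_num) (by norm_num) (by norm_num) (by norm_num)

theorem gA_370 {s : ℝ} (hs : |s| ≤ 135 / 1000) : 110 / 100 ≤ Lgd s (37 / 100) := by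
  have h1 : 7289 / 10000 ≤ Real.sin (2 * Real.pi * (37 / 100)) := by
    apply sn_lo' (x := 37 / 100) (y := 2 * (3141592 / 1000000) * (1 / 2 - 37 / 100)) <;> norm_num
  have h2 : -(68456 / 100000) ≤ Real.cos (2 * Real.pi * (37 / 100)) := by
    apply cn_lo' (x := 37 / 100) (y := 2 * (3141592 / 1000000) * (1 / 2 - 37 / 100)) <;> norm_num
  exact Lgd_lo (ch_135 hs) h1 h2 (by norm_num) (by norm_num) (by norm_num) (by norm_num)

/-- The value at `t = 13/100`. -/
theorem D0_13 {X N T H : ℝ} (h : RG X N T H) :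
    198 / 10000 ≤ 2 * Dd H (1 / 2 - T) (1 / 2 - 13 / 100) := by
  have t0 := h.t0
  have t1 := h.t1
  have hdp : ∀ u : ℝ, 0 < u → u < 1 → 0 < dn H u := fun u h h' =>
    dn_pos (Or.inr ⟨h.ne', by rw [abs_of_pos h]; exact h'⟩)
  obtain ⟨w0, hw0⟩ : ∃ w0, w0 = 1 / 2 - T := ⟨_, rfl⟩
  rw [← hw0, show (1 / 2 - 13 / 100 : ℝ) = 37 / 100 by norm_num]
  have a2 : Lg H w0 ≤ Lg H (51 / 200) := by
    apply Lg_le (hdp _ (by linarith) (by linarith))
    exact cos_anti (by linarith) (by linarith) (by norm_num)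
  have e0 : 0 ≤ Dd H w0 (51 / 200) := Dd_nonneg_right (by linarith) (by linarith) (by linarith)
  have e1 := Dd_sub H w0 (51 / 200) (31 / 100)
  have e2 := Dd_sub H w0 (31 / 100) (37 / 100)
  have a3 : ∀ u, 51 / 200 ≤ u → u ≤ 31 / 100 →
      166 / 100 * (u - 51 / 200) ≤ Lg H u - Lg H (51 / 200) := fun u h1 h2 =>
    Lg_sub_ge (by norm_num) (by norm_num) h1 h2 (by norm_num)
      (le_trans (by norm_num) (gA_255 h.s0)) (le_trans (by norm_num) (gA_310 h.s0))
  have a4 : ∀ u, 31 / 100 ≤ u → u ≤ 37 / 100 →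
      110 / 100 * (u - 31 / 100) ≤ Lg H u - Lg H (31 / 100) := fun u h1 h2 =>
    Lg_sub_ge (by norm_num) (by norm_num) h1 h2 (by norm_num)
      (le_trans (by norm_num) (gA_310 h.s0)) (le_trans (by norm_num) (gA_370 h.s0))
  have a5 := a3 (31 / 100) (by norm_num) le_rfl
  have h4 : ∫ u in (51 / 200 : ℝ)..(31 / 100), 166 / 100 * (u - 51 / 200) ≤
      ∫ u in (51 / 200 : ℝ)..(31 / 100), (Lg H u - Lg H w0) := by
    apply intervalIntegral.integral_mono_on (by norm_num)
    · exact (by fun_prop : Continuous fun u : ℝ => 166 / 100 * (u - 51 / 200)).intervalIntegrable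
        _ _
    · exact (Lg_integrable _ _ _).sub (by simp)
    · intro u hu
      linarith [a3 u hu.1 hu.2]
  have h5 : ∫ u in (31 / 100 : ℝ)..(37 / 100), (913 / 10000 + 110 / 100 * (u - 31 / 100)) ≤
      ∫ u in (31 / 100 : ℝ)..(37 / 100), (Lg H u - Lg H w0) := by
    apply intervalIntegral.integral_mono_on (by norm_num)
    · exact (by fun_prop : Continuous fun u : ℝ =>
        913 / 10000 + 110 / 100 * (u - 31 / 100)).intervalIntegrable _ _
    · exact (Lg_integrable _ _ _).sub (by simp)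
    · intro u hu
      linarith [a4 u hu.1 hu.2]
  have v4 : ∫ u in (51 / 200 : ℝ)..(31 / 100), 166 / 100 * (u - 51 / 200) =
      166 / 100 * (11 / 200) ^ 2 / 2 := by
    rw [intervalIntegral.integral_const_mul, intervalIntegral.integral_sub
      (by exact continuous_id.intervalIntegrable _ _) (by simp), integral_id,
      intervalIntegral.integral_const]
    norm_num
  have v5 : ∫ u in (31 / 100 : ℝ)..(37 / 100), (913 / 10000 + 110 / 100 * (u - 31 / 100)) =
      913 / 10000 * (6 / 100) + 110 / 100 * (6 / 100) ^ 2 / 2 := by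
    rw [intervalIntegral.integral_add (by simp)
      (by exact (by fun_prop : Continuous fun u : ℝ =>
        110 / 100 * (u - 31 / 100)).intervalIntegrable _ _),
      intervalIntegral.integral_const_mul, intervalIntegral.integral_sub
      (by exact continuous_id.intervalIntegrable _ _) (by simp), integral_id,
      intervalIntegral.integral_const, intervalIntegral.integral_const]
    norm_num
  rw [v4] at h4
  rw [v5] at h5
  linarith

/-- The value of `Fl` at `t = 13/100`, `x = 7/25`. -/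
theorem Fl_13 {X N T H : ℝ} (h : RG X N T H) : 198 / 10000 ≤ Fl X N T H (13 / 100) (7 / 25) := by
  have x0 := h.x0
  have x1 := h.x1
  have g := h.g
  have t0 := h.t0
  have t1 := h.t1
  have p' := h.p
  have hDm : 0 ≤ Dd (H - N) (T - X) (13 / 100 - 7 / 25) :=
    Dd_nonneg_left (by linarith) (by linarith) (by linarith) (by linarith) (by linarith)
  rcases le_total (T + X) (1 / 2) with h1 | h1
  · have hDp : 0 ≤ Dd (H + N) (T + X) (13 / 100 + 7 / 25) := by
      rcases le_total (13 / 100 + 7 / 25) (T + X) with h5 | h5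
      · exact Dd_nonneg_left (by linarith) (by linarith) (by linarith) (by linarith) h5
      · exact Dd_nonneg_right (by linarith) h5 (by linarith)
    have := D0_13 h
    unfold Fl
    linarith
  · obtain ⟨ε, hε⟩ : ∃ ε, ε = T + X - 1 / 2 := ⟨_, rfl⟩
    have eq : T + X = 1 / 2 + ε := by linarith
    have hDp : -(91 / 100000) ≤ Dd (H + N) (T + X) (13 / 100 + 7 / 25) := by
      have h1 := Dd_half_left' (s := H + N) (w := 13 / 100 + 7 / 25) KB_045
        (show 0 ≤ ε by linarith) (by linarith) (by linarith)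
        (by linarith) (by linarith) (by linarith)
      rw [← eq] at h1
      have h2 : ε ^ 3 ≤ (45 / 1000) ^ 3 := pow_le_pow_left₀ (by linarith) (by linarith) 3
      linarith
    have h2 := D0_A (s := H) (w0 := 1 / 2 - T) (w := 1 / 2 - 13 / 100) (u := 2 / 25)
      (v := 37 / 100) (m := 110 / 100) (by norm_num) (by norm_num) (by linarith) (by linarith)
      (by norm_num) (by norm_num) (by norm_num) (le_trans (by norm_num) (gA_080 h.s0))
      (le_trans (by norm_num) (gA_370 h.s0))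
    have h3 : (155 / 1000) ^ 2 ≤ (1 / 2 - T - (1 / 2 - 13 / 100)) ^ 2 := by
      have : (1 / 2 - T - (1 / 2 - 13 / 100)) ^ 2 = (T - 13 / 100) ^ 2 := by ring
      rw [this]
      exact pow_le_pow_left₀ (by norm_num) (by linarith) 2
    unfold Fl
    linarith

end Pool.Agent.S5.VB
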