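import Pool.Agent.S5.I.VB6

/-!
# Tables for `Re v = 7/25`
-/

set_option autoImplicit false

namespace Pool.Agent.S5.VB

open Pool.Agent.H63.VC3 Pool.Agent.S3 Pool.Agent.S5 MeasureTheory Filter Topology Set

theorem cz_045 {s : ℝ} (hs : |s| ≤ 9 / 200) : Real.cosh (2 * Real.pi * s) ≤ 10403 / 10000 := by
  apply ch_mono hs
  apply ch_hi (n := 8) (E := 132677 / 100000) (E' := 33169 / 25000) (by norm_num) (by norm_num)
    (by norm_num)
  · norm_num [Finset.sum_range_succ, Nat.factorial]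
  · norm_num [Finset.sum_range_succ, Nat.factorial]
  · norm_num
  · norm_num

theorem cz_050 {s : ℝ} (hs : |s| ≤ 1 / 20) : Real.cosh (2 * Real.pi * s) ≤ 5249 / 5000 := by
  apply ch_mono hs
  apply ch_hi (n := 8) (E := 136911 / 100000) (E' := 13691 / 10000) (by norm_num) (by norm_num)
    (by norm_num)
  · norm_num [Finset.sum_range_succ, Nat.factorial]
  · norm_num [Finset.sum_range_succ, Nat.factorial]
  · norm_num
  · norm_num

theorem cz_060 {s : ℝ} (hs : |s| ≤ 3 / 50) : Real.cosh (2 * Real.pi * s) ≤ 134 / 125 := by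
  apply ch_mono hs
  apply ch_hi (n := 8) (E := 14579 / 10000) (E' := 145789 / 100000) (by norm_num) (by norm_num)
    (by norm_num)
  · norm_num [Finset.sum_range_succ, Nat.factorial]
  · norm_num [Finset.sum_range_succ, Nat.factorial]
  · norm_num
  · norm_num

theorem cz_070 {s : ℝ} (hs : |s| ≤ 7 / 100) : Real.cosh (2 * Real.pi * s) ≤ 10983 / 10000 := by
  apply ch_mono hs
  apply ch_hi (n := 8) (E := 38811 / 25000) (E' := 155243 / 100000) (by norm_num) (by norm_num)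
    (by norm_num)
  · norm_num [Finset.sum_range_succ, Nat.factorial]
  · norm_num [Finset.sum_range_succ, Nat.factorial]
  · norm_num
  · norm_num

theorem cz_075 {s : ℝ} (hs : |s| ≤ 3 / 40) : Real.cosh (2 * Real.pi * s) ≤ 2783 / 2500 := by
  apply ch_mono hs
  apply ch_hi (n := 8) (E := 80099 / 50000) (E' := 160197 / 100000) (by norm_num) (by norm_num)
    (by norm_num)
  · norm_num [Finset.sum_range_succ, Nat.factorial]
  · norm_num [Finset.sum_range_succ, Nat.factorial]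
  · norm_num
  · norm_num

theorem cz_088 {s : ℝ} (hs : |s| ≤ 11 / 125) : Real.cosh (2 * Real.pi * s) ≤ 723 / 625 := by
  apply ch_mono hs
  apply ch_hi (n := 8) (E := 173833 / 100000) (E' := 21729 / 12500) (by norm_num) (by norm_num)
    (by norm_num)
  · norm_num [Finset.sum_range_succ, Nat.factorial]
  · norm_num [Finset.sum_range_succ, Nat.factorial]
  · norm_num
  · norm_num

theorem cz_040 {s : ℝ} (hs : |s| ≤ 1 / 25) : Real.cosh (2 * Real.pi * s) ≤ 5159 / 5000 := by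
  apply ch_mono hs
  apply ch_hi (n := 8) (E := 64287 / 50000) (E' := 128573 / 100000) (by norm_num) (by norm_num)
    (by norm_num)
  · norm_num [Finset.sum_range_succ, Nat.factorial]
  · norm_num [Finset.sum_range_succ, Nat.factorial]
  · norm_num
  · norm_num

theorem cz_080 {s : ℝ} (hs : |s| ≤ 2 / 25) : Real.cosh (2 * Real.pi * s) ≤ 11291 / 10000 := by
  apply ch_mono hs
  apply ch_hi (n := 8) (E := 165311 / 100000) (E' := 16531 / 10000) (by norm_num) (by norm_num)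
    (by norm_num)
  · norm_num [Finset.sum_range_succ, Nat.factorial]
  · norm_num [Finset.sum_range_succ, Nat.factorial]
  · norm_num
  · norm_num

theorem cz_090 {s : ℝ} (hs : |s| ≤ 9 / 100) : Real.cosh (2 * Real.pi * s) ≤ 5821 / 5000 := by
  apply ch_mono hs
  apply ch_hi (n := 8) (E := 176031 / 100000) (E' := 17603 / 10000) (by norm_num) (by norm_num)
    (by norm_num)
  · norm_num [Finset.sum_range_succ, Nat.factorial]
  · norm_num [Finset.sum_range_succ, Nat.factorial]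
  · norm_num
  · norm_num

theorem cz_100 {s : ℝ} (hs : |s| ≤ 1 / 10) : Real.cosh (2 * Real.pi * s) ≤ 301 / 250 := by
  apply ch_mono hs
  apply ch_hi (n := 8) (E := 93723 / 50000) (E' := 37489 / 20000) (by norm_num) (by norm_num)
    (by norm_num)
  · norm_num [Finset.sum_range_succ, Nat.factorial]
  · norm_num [Finset.sum_range_succ, Nat.factorial]
  · norm_num
  · norm_num

theorem cz_105 {s : ℝ} (hs : |s| ≤ 21 / 200) : Real.cosh (2 * Real.pi * s) ≤ 12257 / 10000 := by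
  apply ch_mono hs
  apply ch_hi (n := 8) (E := 48357 / 25000) (E' := 193427 / 100000) (by norm_num) (by norm_num)
    (by norm_num)
  · norm_num [Finset.sum_range_succ, Nat.factorial]
  · norm_num [Finset.sum_range_succ, Nat.factorial]
  · norm_num
  · norm_num

theorem cz_120 {s : ℝ} (hs : |s| ≤ 3 / 25) : Real.cosh (2 * Real.pi * s) ≤ 649 / 500 := by
  apply ch_mono hs
  apply ch_hi (n := 8) (E := 42509 / 20000) (E' := 6642 / 3125) (by norm_num) (by norm_num)
    (by norm_num)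
  · norm_num [Finset.sum_range_succ, Nat.factorial]
  · norm_num [Finset.sum_range_succ, Nat.factorial]
  · norm_num
  · norm_num

theorem cz_135 {s : ℝ} (hs : |s| ≤ 27 / 200) : Real.cosh (2 * Real.pi * s) ≤ 13819 / 10000 := by
  apply ch_mono hs
  apply ch_hi (n := 8) (E := 233551 / 100000) (E' := 4671 / 2000) (by norm_num) (by norm_num)
    (by norm_num)
  · norm_num [Finset.sum_range_succ, Nat.factorial]
  · norm_num [Finset.sum_range_succ, Nat.factorial]
  · norm_num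
  · norm_num

theorem cu_000 : Real.cos (2 * Real.pi * 0) ≤ 1 := Real.cos_le_one _

theorem cl_070 : 1131 / 1250 ≤ Real.cos (2 * Real.pi * (7 / 100)) := by
  apply cn_lo (x := 7 / 100) (y := 21991151 / 50000000) <;> norm_num

theorem cu_070 : Real.cos (2 * Real.pi * (7 / 100)) ≤ 9049 / 10000 := by
  apply cn_hi (x := 7 / 100) (y := 2748893 / 6250000) <;> norm_num

theorem su_070 : Real.sin (2 * Real.pi * (7 / 100)) ≤ 2129 / 5000 := by
  apply sn_hi (x := 7 / 100) (y := 21991151 / 50000000) <;> norm_num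

theorem cl_100 : 809 / 1000 ≤ Real.cos (2 * Real.pi * (1 / 10)) := by
  apply cn_lo (x := 1 / 10) (y := 3141593 / 5000000) <;> norm_num

theorem cu_100 : Real.cos (2 * Real.pi * (1 / 10)) ≤ 8091 / 10000 := by
  apply cn_hi (x := 1 / 10) (y := 392699 / 625000) <;> norm_num

theorem su_100 : Real.sin (2 * Real.pi * (1 / 10)) ≤ 2939 / 5000 := by
  apply sn_hi (x := 1 / 10) (y := 3141593 / 5000000) <;> norm_num

theorem cl_130 : 1369 / 2000 ≤ Real.cos (2 * Real.pi * (13 / 100)) := by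
  apply cn_lo (x := 13 / 100) (y := 40840709 / 50000000) <;> norm_num

theorem cu_130 : Real.cos (2 * Real.pi * (13 / 100)) ≤ 3423 / 5000 := by
  apply cn_hi (x := 13 / 100) (y := 5105087 / 6250000) <;> norm_num

theorem su_130 : Real.sin (2 * Real.pi * (13 / 100)) ≤ 729 / 1000 := by
  apply sn_hi (x := 13 / 100) (y := 40840709 / 50000000) <;> norm_num

theorem cl_150 : 5877 / 10000 ≤ Real.cos (2 * Real.pi * (3 / 20)) := by
  apply cn_lo (x := 3 / 20) (y := 9424779 / 10000000) <;> norm_num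

theorem cu_150 : Real.cos (2 * Real.pi * (3 / 20)) ≤ 2939 / 5000 := by
  apply cn_hi (x := 3 / 20) (y := 1178097 / 1250000) <;> norm_num

theorem su_150 : Real.sin (2 * Real.pi * (3 / 20)) ≤ 8091 / 10000 := by
  apply sn_hi (x := 3 / 20) (y := 9424779 / 10000000) <;> norm_num

theorem cl_200 : 193 / 625 ≤ Real.cos (2 * Real.pi * (1 / 5)) := by
  apply cn_lo (x := 1 / 5) (y := 3141593 / 2500000) <;> norm_num

theorem cu_200 : Real.cos (2 * Real.pi * (1 / 5)) ≤ 3091 / 10000 := by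
  apply cn_hi (x := 1 / 5) (y := 392699 / 312500) <;> norm_num

theorem su_200 : Real.sin (2 * Real.pi * (1 / 5)) ≤ 9511 / 10000 := by
  apply sn_hi (x := 1 / 5) (y := 3141593 / 2500000) <;> norm_num

theorem cl_250 : 0 ≤ Real.cos (2 * Real.pi * (1 / 4)) := by
  have e : 2 * Real.pi * (1 / 4) = Real.pi / 2 := by ring
  rw [e, Real.cos_pi_div_two]

theorem su_250 : Real.sin (2 * Real.pi * (1 / 4)) ≤ 1 := Real.sin_le_one _

theorem ex_up {x E : ℝ} (h0 : 0 ≤ x) (h1 : x ≤ 1)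
    (h : 1 + x + x ^ 2 / 2 + x ^ 3 / 6 + x ^ 4 / 24 + x ^ 5 / 120 + x ^ 6 * (7 / 4320) ≤ E) :
    Real.exp x ≤ E := by
  have h2 := Real.exp_bound' h0 h1 (n := 6) (by norm_num)
  norm_num [Finset.sum_range_succ, Nat.factorial] at h2
  linarith

theorem ex_up' {x E : ℝ} (h0 : 0 ≤ x) (hE : 0 < E) (h : 1 / E ≤ 1 + x + x ^ 2 / 2) :
    Real.exp (-x) ≤ E := by
  have h1 := Real.quadratic_le_exp_of_nonneg h0
  rw [Real.exp_neg]
  rw [div_le_iff₀ hE] at h
  rw [inv_le_iff_one_le_mul₀ (Real.exp_pos _)]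
  nlinarith

theorem gam0 {H N t : ℝ} (hH : 0 ≤ H * t) (hN : 0 ≤ N) (ht : |t| ≤ 1 / 4) :
    -2 * (Real.sinh (2 * Real.pi * H) * Real.sinh (2 * Real.pi * N) *
      Real.sin (2 * Real.pi * t) * Real.sin (2 * Real.pi * (7 / 25))) ≤ 0 := by
  have hpi := Real.pi_pos
  have h1 := sx_bd.1
  have h2 : 0 ≤ Real.sinh (2 * Real.pi * N) := Real.sinh_nonneg_iff.2 (by positivity)
  have ht' := abs_le.1 ht
  have h3 : 0 ≤ Real.sinh (2 * Real.pi * H) * Real.sin (2 * Real.pi * t) := by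
    rcases mul_nonneg_iff.1 hH with ⟨a, b⟩ | ⟨a, b⟩
    · exact mul_nonneg (Real.sinh_nonneg_iff.2 (by positivity))
        (Real.sin_nonneg_of_nonneg_of_le_pi (by positivity) (by nlinarith))
    · apply mul_nonneg_of_nonpos_of_nonpos
      · exact Real.sinh_nonpos_iff.2 (by nlinarith)
      · exact Real.sin_nonpos_of_nonpos_of_neg_pi_le (by nlinarith) (by nlinarith)
  have h4 := mul_nonneg (mul_nonneg h3 h2) h1
  linarith

theorem gamB {H N t B Cb Sb Cn Sn sb : ℝ} (hCb : Real.cosh (2 * Real.pi * H) ≤ Cb)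
    (hCn : Real.cosh (2 * Real.pi * N) ≤ Cn) (hSb : Cb ^ 2 - 1 ≤ Sb ^ 2)
    (hSn : Cn ^ 2 - 1 ≤ Sn ^ 2) (hSb0 : 0 ≤ Sb) (hSn0 : 0 ≤ Sn)
    (hsb : Real.sin (2 * Real.pi * B) ≤ sb) (ht : |t| ≤ B) (hB : B ≤ 1 / 4) :
    -2 * (Real.sinh (2 * Real.pi * H) * Real.sinh (2 * Real.pi * N) *
      Real.sin (2 * Real.pi * t) * Real.sin (2 * Real.pi * (7 / 25))) ≤
        2 * (Sb * Sn * sb * (9824 / 10000)) := by
  have hpi := Real.pi_pos
  have key : ∀ u C S : ℝ, Real.cosh u ≤ C → C ^ 2 - 1 ≤ S ^ 2 → 0 ≤ S → |Real.sinh u| ≤ S := by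
    intro u C S h1 h2 h3
    have h4 := Real.cosh_sq u
    have h5 := Real.cosh_pos u
    exact abs_le_of_sq_le_sq (by nlinarith) h3
  have h1 := key _ _ _ hCb hSb hSb0
  have h2 := key _ _ _ hCn hSn hSn0
  have h3 : |Real.sin (2 * Real.pi * t)| ≤ sb := by
    have h4 : |Real.sin (2 * Real.pi * t)| = Real.sin (2 * Real.pi * |t|) := by
      rcases le_total 0 t with h | h
      · rw [abs_of_nonneg h, abs_of_nonneg]
        rw [abs_of_nonneg h] at ht
        exact Real.sin_nonneg_of_nonneg_of_le_pi (by positivity) (by nlinarith)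
      · rw [abs_of_nonpos h] at ht ⊢
        have e : 2 * Real.pi * -t = -(2 * Real.pi * t) := by ring
        rw [e, Real.sin_neg, abs_of_nonpos]
        exact Real.sin_nonpos_of_nonpos_of_neg_pi_le (by nlinarith) (by nlinarith)
    rw [h4]
    refine le_trans ?_ hsb
    apply Real.sin_le_sin_of_le_of_le_pi_div_two
    · have := abs_nonneg t
      have : 0 ≤ 2 * Real.pi * |t| := by positivity
      linarith
    · nlinarith
    · exact mul_le_mul_of_nonneg_left ht (by positivity)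
  have h4 : |Real.sin (2 * Real.pi * (7 / 25))| ≤ 9824 / 10000 := by
    rw [abs_of_nonneg sx_bd.1]
    exact sx_bd.2
  have h5 : |Real.sinh (2 * Real.pi * H) * Real.sinh (2 * Real.pi * N) *
      Real.sin (2 * Real.pi * t) * Real.sin (2 * Real.pi * (7 / 25))| ≤
        Sb * Sn * sb * (9824 / 10000) := by
    rw [abs_mul, abs_mul, abs_mul]
    have a0 := abs_nonneg (Real.sinh (2 * Real.pi * H))
    have b0 := abs_nonneg (Real.sinh (2 * Real.pi * N))
    have c0 := abs_nonneg (Real.sin (2 * Real.pi * t))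
    have d0 := abs_nonneg (Real.sin (2 * Real.pi * (7 / 25)))
    have sb0 : 0 ≤ sb := c0.trans h3
    exact mul_le_mul (mul_le_mul (mul_le_mul h1 h2 b0 hSb0) h3 c0 (by positivity)) h4 d0
      (by positivity)
  have := (abs_le.1 h5).1
  linarith

/-- A piece, `E ≥ 1`. -/
theorem pc {H N t A B E l Cn Sn Cb c1 c2 γ : ℝ} (hA : 0 ≤ A) (hB : B ≤ 1 / 4) (h1 : A ≤ |t|)
    (h2 : |t| ≤ B) (hl : Real.exp (2 * l) ≤ E) (hE : 1 ≤ E)
    (hCb : Real.cosh (2 * Real.pi * H) ≤ Cb)
    (hCn : Real.cosh (2 * Real.pi * N) ≤ Cn) (hSn : Cn ^ 2 - 1 ≤ Sn ^ 2)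
    (hc1 : c1 ≤ Real.cos (2 * Real.pi * B)) (hc0 : 0 ≤ c1)
    (hc2 : Real.cos (2 * Real.pi * A) ≤ c2)
    (hγ : -2 * (Real.sinh (2 * Real.pi * H) * Real.sinh (2 * Real.pi * N) *
      Real.sin (2 * Real.pi * t) * Real.sin (2 * Real.pi * (7 / 25))) ≤ γ)
    (q1 : 0 ≤ ft E (Cn * (18739 / 100000)) ((18739 / 100000) ^ 2 - 1 + Sn ^ 2 + γ) 1 c1)
    (q2 : 0 ≤ ft E (Cn * (18739 / 100000)) ((18739 / 100000) ^ 2 - 1 + Sn ^ 2 + γ) 1 c2)
    (q3 : 0 ≤ ft E (Cn * (18739 / 100000)) ((18739 / 100000) ^ 2 - 1 + Sn ^ 2 + γ) Cb c1)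
    (q4 : 0 ≤ ft E (Cn * (18739 / 100000)) ((18739 / 100000) ^ 2 - 1 + Sn ^ 2 + γ) Cb c2) :
    l ≤ sg H N t := by
  have hpi := Real.pi_pos
  have ht := abs_le.1 (h2.trans hB)
  have e : Real.cos (2 * Real.pi * t) = Real.cos (2 * Real.pi * |t|) := by
    rw [← Real.cos_abs (2 * Real.pi * t), abs_mul, abs_of_pos (by positivity : 0 < 2 * Real.pi)]
  have t0 := abs_nonneg t
  have g1 : c1 ≤ Real.cos (2 * Real.pi * t) := by
    rw [e]
    refine hc1.trans ?_
    apply Real.cos_le_cos_of_nonneg_of_le_pi (by positivity) (by nlinarith)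
    exact mul_le_mul_of_nonneg_left h2 (by positivity)
  have g2 : Real.cos (2 * Real.pi * t) ≤ c2 := by
    rw [e]
    refine le_trans ?_ hc2
    apply Real.cos_le_cos_of_nonneg_of_le_pi (by positivity) (by nlinarith)
    exact mul_le_mul_of_nonneg_left h1 (by positivity)
  refine sg_ge (by linarith) (by linarith) hl hCn hSn (hc0.trans g1)
    (g := (18739 / 100000) ^ 2 - 1 + Sn ^ 2 + γ) (by linarith) ?_
  exact ft_nonneg hE (Real.one_le_cosh _) hCb g1 g2 q1 q2 q3 q4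

/-- A piece, `E ≤ 1`. -/
theorem pc' {H N t B E l Cn Sn c1 γ : ℝ} (hB : B ≤ 1 / 4)
    (h2 : |t| ≤ B) (hl : Real.exp (2 * l) ≤ E) (hE : E ≤ 1)
    (hCn : Real.cosh (2 * Real.pi * N) ≤ Cn) (hSn : Cn ^ 2 - 1 ≤ Sn ^ 2)
    (hκ : Cn * (18739 / 100000) ≤ 1)
    (hc1 : c1 ≤ Real.cos (2 * Real.pi * B)) (hc0 : 0 ≤ c1)
    (hγ : -2 * (Real.sinh (2 * Real.pi * H) * Real.sinh (2 * Real.pi * N) *
      Real.sin (2 * Real.pi * t) * Real.sin (2 * Real.pi * (7 / 25))) ≤ γ)
    (q1 : 0 ≤ ft E (Cn * (18739 / 100000)) ((18739 / 100000) ^ 2 - 1 + Sn ^ 2 + γ) 1 c1) :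
    l ≤ sg H N t := by
  have hpi := Real.pi_pos
  have ht := abs_le.1 (h2.trans hB)
  have e : Real.cos (2 * Real.pi * t) = Real.cos (2 * Real.pi * |t|) := by
    rw [← Real.cos_abs (2 * Real.pi * t), abs_mul, abs_of_pos (by positivity : 0 < 2 * Real.pi)]
  have t0 := abs_nonneg t
  have g1 : c1 ≤ Real.cos (2 * Real.pi * t) := by
    rw [e]
    refine hc1.trans ?_
    apply Real.cos_le_cos_of_nonneg_of_le_pi (by positivity) (by nlinarith)
    exact mul_le_mul_of_nonneg_left h2 (by positivity)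
  refine sg_ge (by linarith) (by linarith) hl hCn hSn (hc0.trans g1)
    (g := (18739 / 100000) ^ 2 - 1 + Sn ^ 2 + γ) (by linarith) ?_
  exact ft_nonneg' ((Real.exp_pos _).le.trans hl) hE hκ (Real.one_le_cosh _) g1 hc0 q1

end Pool.Agent.S5.VB
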