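import Pool.Agent.S5.I.TdL

/-!
# Numerical bounds for `Lgd`
-/

set_option autoImplicit false

namespace Pool.Agent.S5.VB

open Pool.Agent.H63.VC3 Pool.Agent.S3 Pool.Agent.S5 MeasureTheory Filter Topology Set

/-! ### Taylor polynomials -/

theorem pos_of_deriv {f f' : ℝ → ℝ} (hd : ∀ x, HasDerivAt f (f' x) x) (h0 : 0 ≤ f 0)
    (h : ∀ x, 0 ≤ x → 0 ≤ f' x) {x : ℝ} (hx : 0 ≤ x) : 0 ≤ f x := by
  have hm : MonotoneOn f (Ici 0) := by
    apply monotoneOn_of_deriv_nonneg (convex_Ici 0)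
    · exact fun x _ => (hd x).continuousAt.continuousWithinAt
    · exact fun x _ => (hd x).differentiableAt.differentiableWithinAt
    · intro x hx
      rw [(hd x).deriv]
      exact h x (interior_subset hx)
  exact h0.trans (hm (mem_Ici.2 le_rfl) hx hx)

theorem tr_s3 {x : ℝ} (hx : 0 ≤ x) : x - x ^ 3 / 6 ≤ Real.sin x := by
  have h := pos_of_deriv (f := fun x => Real.sin x - (x - x ^ 3 / 6))
    (f' := fun x => Real.cos x - (1 - x ^ 2 / 2))
    (fun x => by
      have h1 := (Real.hasDerivAt_sin x).sub ((hasDerivAt_id' x).sub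
        ((hasDerivAt_pow 3 x).div_const 6))
      refine h1.congr_deriv ?_
      norm_num
      try ring)
    (by simp) (fun x hx => by linarith [Real.one_sub_sq_div_two_le_cos (x := x)]) hx
  linarith

theorem tr_c4 {x : ℝ} (hx : 0 ≤ x) : Real.cos x ≤ 1 - x ^ 2 / 2 + x ^ 4 / 24 := by
  have h := pos_of_deriv (f := fun x => 1 - x ^ 2 / 2 + x ^ 4 / 24 - Real.cos x)
    (f' := fun x => Real.sin x - (x - x ^ 3 / 6))
    (fun x => by
      have h1 := (((hasDerivAt_const x (1 : ℝ)).sub ((hasDerivAt_pow 2 x).div_const 2)).add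
        ((hasDerivAt_pow 4 x).div_const 24)).sub (Real.hasDerivAt_cos x)
      refine h1.congr_deriv ?_
      norm_num
      try ring)
    (by simp) (fun x hx => by linarith [tr_s3 hx]) hx
  linarith

theorem tr_s5 {x : ℝ} (hx : 0 ≤ x) : Real.sin x ≤ x - x ^ 3 / 6 + x ^ 5 / 120 := by
  have h := pos_of_deriv (f := fun x => x - x ^ 3 / 6 + x ^ 5 / 120 - Real.sin x)
    (f' := fun x => 1 - x ^ 2 / 2 + x ^ 4 / 24 - Real.cos x)
    (fun x => by
      have h1 := (((hasDerivAt_id' x).sub ((hasDerivAt_pow 3 x).div_const 6)).add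
        ((hasDerivAt_pow 5 x).div_const 120)).sub (Real.hasDerivAt_sin x)
      refine h1.congr_deriv ?_
      norm_num
      try ring)
    (by simp) (fun x hx => by linarith [tr_c4 hx]) hx
  linarith

theorem tr_c6 {x : ℝ} (hx : 0 ≤ x) :
    1 - x ^ 2 / 2 + x ^ 4 / 24 - x ^ 6 / 720 ≤ Real.cos x := by
  have h := pos_of_deriv (f := fun x => Real.cos x - (1 - x ^ 2 / 2 + x ^ 4 / 24 - x ^ 6 / 720))
    (f' := fun x => x - x ^ 3 / 6 + x ^ 5 / 120 - Real.sin x)
    (fun x => by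
      have h1 := (Real.hasDerivAt_cos x).sub ((((hasDerivAt_const x (1 : ℝ)).sub
        ((hasDerivAt_pow 2 x).div_const 2)).add
        ((hasDerivAt_pow 4 x).div_const 24)).sub ((hasDerivAt_pow 6 x).div_const 720))
      refine h1.congr_deriv ?_
      norm_num
      try ring)
    (by simp) (fun x hx => by linarith [tr_s5 hx]) hx
  linarith

theorem tr_s7 {x : ℝ} (hx : 0 ≤ x) :
    x - x ^ 3 / 6 + x ^ 5 / 120 - x ^ 7 / 5040 ≤ Real.sin x := by
  have h := pos_of_deriv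
    (f := fun x => Real.sin x - (x - x ^ 3 / 6 + x ^ 5 / 120 - x ^ 7 / 5040))
    (f' := fun x => Real.cos x - (1 - x ^ 2 / 2 + x ^ 4 / 24 - x ^ 6 / 720))
    (fun x => by
      have h1 := (Real.hasDerivAt_sin x).sub ((((hasDerivAt_id' x).sub
        ((hasDerivAt_pow 3 x).div_const 6)).add
        ((hasDerivAt_pow 5 x).div_const 120)).sub ((hasDerivAt_pow 7 x).div_const 5040))
      refine h1.congr_deriv ?_
      norm_num
      try ring)
    (by simp) (fun x hx => by linarith [tr_c6 hx]) hx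
  linarith

theorem tr_c8 {x : ℝ} (hx : 0 ≤ x) :
    Real.cos x ≤ 1 - x ^ 2 / 2 + x ^ 4 / 24 - x ^ 6 / 720 + x ^ 8 / 40320 := by
  have h := pos_of_deriv
    (f := fun x => 1 - x ^ 2 / 2 + x ^ 4 / 24 - x ^ 6 / 720 + x ^ 8 / 40320 - Real.cos x)
    (f' := fun x => Real.sin x - (x - x ^ 3 / 6 + x ^ 5 / 120 - x ^ 7 / 5040))
    (fun x => by
      have h1 := (((((hasDerivAt_const x (1 : ℝ)).sub
        ((hasDerivAt_pow 2 x).div_const 2)).add
        ((hasDerivAt_pow 4 x).div_const 24)).sub ((hasDerivAt_pow 6 x).div_const 720)).add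
        ((hasDerivAt_pow 8 x).div_const 40320)).sub (Real.hasDerivAt_cos x)
      refine h1.congr_deriv ?_
      norm_num
      try ring)
    (by simp) (fun x hx => by linarith [tr_s7 hx]) hx
  linarith

/-! ### Sine and cosine at rational multiples of `2π` -/

theorem sn_lo {x y s : ℝ} (h0 : 0 ≤ x) (h1 : x ≤ 1 / 4) (hy : 2 * (3141592 / 1000000) * x = y)
    (hs : s ≤ y - y ^ 3 / 6 + y ^ 5 / 120 - y ^ 7 / 5040) :
    s ≤ Real.sin (2 * Real.pi * x) := by
  have p2 := Real.pi_gt_d6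
  have hpi := Real.pi_pos
  have h2 : y ≤ 2 * Real.pi * x := by
    rw [← hy]
    exact mul_le_mul_of_nonneg_right (by linarith) h0
  have h3 : 0 ≤ y := by rw [← hy]; positivity
  have h4 := Real.sin_le_sin_of_le_of_le_pi_div_two (by linarith) (by nlinarith) h2
  exact (hs.trans (tr_s7 h3)).trans h4

theorem sn_lo' {x y s : ℝ} (h0 : x ≤ 1 / 2) (h1 : 1 / 4 ≤ x)
    (hy : 2 * (3141592 / 1000000) * (1 / 2 - x) = y)
    (hs : s ≤ y - y ^ 3 / 6 + y ^ 5 / 120 - y ^ 7 / 5040) :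
    s ≤ Real.sin (2 * Real.pi * x) := by
  have h := sn_lo (x := 1 / 2 - x) (by linarith) (by linarith) hy hs
  rwa [show 2 * Real.pi * (1 / 2 - x) = Real.pi - 2 * Real.pi * x by ring, Real.sin_pi_sub] at h

theorem cn_lo {x y s : ℝ} (h0 : 0 ≤ x) (h1 : x ≤ 1 / 4) (hy : 2 * (3141593 / 1000000) * x = y)
    (hs : s ≤ 1 - y ^ 2 / 2 + y ^ 4 / 24 - y ^ 6 / 720) :
    s ≤ Real.cos (2 * Real.pi * x) := by
  have p1 := Real.pi_lt_d6
  have p2 := Real.pi_gt_d6
  have hpi := Real.pi_pos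
  have h2 : 2 * Real.pi * x ≤ y := by
    rw [← hy]
    exact mul_le_mul_of_nonneg_right (by linarith) h0
  have h3 : 0 ≤ 2 * Real.pi * x := by positivity
  have h4 := Real.cos_le_cos_of_nonneg_of_le_pi h3 (by nlinarith) h2
  exact (hs.trans (tr_c6 (by linarith))).trans h4

theorem cn_hi {x y s : ℝ} (h0 : 0 ≤ x) (h1 : x ≤ 1 / 4) (hy : 2 * (3141592 / 1000000) * x = y)
    (hs : 1 - y ^ 2 / 2 + y ^ 4 / 24 - y ^ 6 / 720 + y ^ 8 / 40320 ≤ s) :
    Real.cos (2 * Real.pi * x) ≤ s := by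
  have p1 := Real.pi_lt_d6
  have p2 := Real.pi_gt_d6
  have hpi := Real.pi_pos
  have h2 : y ≤ 2 * Real.pi * x := by
    rw [← hy]
    exact mul_le_mul_of_nonneg_right (by linarith) h0
  have h3 : 0 ≤ y := by rw [← hy]; positivity
  have h4 := Real.cos_le_cos_of_nonneg_of_le_pi h3 (by nlinarith) h2
  exact h4.trans ((tr_c8 h3).trans hs)

theorem cn_lo' {x y s : ℝ} (h0 : x ≤ 1 / 2) (h1 : 1 / 4 ≤ x)
    (hy : 2 * (3141592 / 1000000) * (1 / 2 - x) = y)
    (hs : s ≤ -(1 - y ^ 2 / 2 + y ^ 4 / 24 - y ^ 6 / 720 + y ^ 8 / 40320)) :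
    s ≤ Real.cos (2 * Real.pi * x) := by
  have h := cn_hi (x := 1 / 2 - x) (s := -s) (by linarith) (by linarith) hy (by linarith)
  rw [show 2 * Real.pi * (1 / 2 - x) = Real.pi - 2 * Real.pi * x by ring, Real.cos_pi_sub] at h
  linarith

/-! ### Hyperbolic cosine -/

theorem ch_hi {x C : ℝ} {n : ℕ} (hx : 0 ≤ x) (h1 : x ≤ 1) {E E' : ℝ} (hn : 0 < n)
    (hE : (∑ m ∈ Finset.range n, x ^ m / m.factorial) + x ^ n * (n + 1) / (n.factorial * n) ≤ E)
    (hE' : E' ≤ ∑ m ∈ Finset.range n, x ^ m / m.factorial) (h0 : 0 < E')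
    (h : (E + E'⁻¹) / 2 ≤ C) : Real.cosh x ≤ C := by
  have h2 := Real.exp_bound' hx h1 hn
  have h3 := Real.sum_le_exp_of_nonneg hx n
  have h4 : Real.exp (-x) ≤ E'⁻¹ := by
    rw [Real.exp_neg]
    exact inv_anti₀ h0 (hE'.trans h3)
  rw [Real.cosh_eq]
  linarith [h2.trans hE]

theorem ch_mono {s s0 C : ℝ} (hs : |s| ≤ s0) (h : Real.cosh (2 * (3141593 / 1000000) * s0) ≤ C) :
    Real.cosh (2 * Real.pi * s) ≤ C := by
  refine le_trans ?_ h
  rw [Real.cosh_le_cosh]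
  have p1 := Real.pi_lt_d6
  have hpi := Real.pi_pos
  have h0 : 0 ≤ s0 := (abs_nonneg s).trans hs
  rw [abs_mul, abs_of_pos (by positivity : 0 < 2 * Real.pi),
    abs_of_nonneg (by positivity : 0 ≤ 2 * (3141593 / 1000000) * s0)]
  have := abs_nonneg s
  nlinarith

theorem ch_135 {s : ℝ} (hs : |s| ≤ 135 / 1000) : Real.cosh (2 * Real.pi * s) ≤ 13819 / 10000 := by
  apply ch_mono hs
  apply ch_hi (n := 8) (E := 23356 / 10000) (E' := 23355 / 10000) (by norm_num) (by norm_num)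
    (by norm_num)
  · norm_num [Finset.sum_range_succ, Nat.factorial]
  · norm_num [Finset.sum_range_succ, Nat.factorial]
  · norm_num
  · norm_num

theorem ch_165 {s : ℝ} (hs : |s| ≤ 165 / 1000) : Real.cosh (2 * Real.pi * s) ≤ 15873 / 10000 := by
  apply ch_mono hs
  have e : 2 * (3141593 / 1000000) * (165 / 1000 : ℝ) =
      2 * ((3141593 / 1000000) * (165 / 1000)) := by ring
  have h : Real.cosh ((3141593 / 1000000) * (165 / 1000 : ℝ)) ≤ 1137386 / 1000000 := by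
    apply ch_hi (n := 9) (E := 16792762 / 10000000) (E' := 16792761 / 10000000) (by norm_num)
      (by norm_num) (by norm_num)
    · norm_num [Finset.sum_range_succ, Nat.factorial]
    · norm_num [Finset.sum_range_succ, Nat.factorial]
    · norm_num
    · norm_num
  have h1 := Real.one_le_cosh ((3141593 / 1000000) * (165 / 1000 : ℝ))
  rw [e, Real.cosh_two_mul, Real.sinh_sq]
  nlinarith

/-! ### Lower bounds of `Lgd` -/

theorem Lgd_lo {s x C σ γ m : ℝ} (hC : Real.cosh (2 * Real.pi * s) ≤ C)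
    (hσ : σ ≤ Real.sin (2 * Real.pi * x)) (hγ : γ ≤ Real.cos (2 * Real.pi * x)) (h0 : 0 < σ)
    (hm : 0 ≤ m) (hd : m * (C - γ) ≤ 3141592 / 1000000 * σ) (hx : x ≠ 0 ∧ |x| < 1) :
    m ≤ Lgd s x := by
  have p2 := Real.pi_gt_d6
  have hd0 : 0 < dn s x := dn_pos (Or.inr hx)
  have hd1 : dn s x ≤ C - γ := by
    unfold dn
    linarith
  unfold Lgd
  rw [le_div_iff₀ hd0]
  have h1 : m * dn s x ≤ m * (C - γ) := mul_le_mul_of_nonneg_left hd1 hm
  have h2 : 3141592 / 1000000 * σ ≤ Real.pi * Real.sin (2 * Real.pi * x) :=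
    mul_le_mul (by linarith) hσ h0.le (by positivity)
  linarith

/-- `Lgd s` is quasiconcave on `(0, 1/2]`. -/
theorem Lgd_ge_mid {s u v x m : ℝ} (hu : 0 < u) (hv : v ≤ 1 / 2) (h1 : u ≤ x) (h2 : x ≤ v)
    (hm : 0 ≤ m) (hmu : m ≤ Lgd s u) (hmv : m ≤ Lgd s v) : m ≤ Lgd s x := by
  have hpi := Real.pi_pos
  rcases h1.eq_or_lt with h1 | h1
  · rw [← h1]; exact hmu
  rcases h2.eq_or_lt with h2 | h2
  · rw [h2]; exact hmv
  have hp : ∀ y, 0 < y → y ≤ 1 / 2 → 0 < dn s y := fun y h h' =>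
    dn_pos (Or.inr ⟨h.ne', by rw [abs_of_pos h]; linarith⟩)
  have hdu := hp u hu (by linarith)
  have hdv := hp v (by linarith) hv
  have hdx := hp x (by linarith) (by linarith)
  unfold Lgd at hmu hmv ⊢
  rw [le_div_iff₀ hdu] at hmu
  rw [le_div_iff₀ hdv] at hmv
  rw [le_div_iff₀ hdx]
  unfold dn at hmu hmv ⊢
  set C := Real.cosh (2 * Real.pi * s)
  have hC : 0 < C := lt_of_lt_of_le one_pos (Real.one_le_cosh _)
  set U := 2 * Real.pi * u with hU
  set V := 2 * Real.pi * v with hV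
  set X := 2 * Real.pi * x with hX
  have hUX : U < X := by rw [hU, hX]; nlinarith
  have hXV : X < V := by rw [hV, hX]; nlinarith
  have hU0 : 0 < U := by rw [hU]; positivity
  have hVp : V ≤ Real.pi := by rw [hV]; nlinarith
  -- the relation between the values of `π sin + m cos`
  have key : Real.sin (V - U) * (Real.pi * Real.sin X + m * Real.cos X) =
      Real.sin (V - X) * (Real.pi * Real.sin U + m * Real.cos U) +
        Real.sin (X - U) * (Real.pi * Real.sin V + m * Real.cos V) := by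
    rw [Real.sin_sub, Real.sin_sub, Real.sin_sub]
    linear_combination (0 : ℝ) * Real.sin_sq_add_cos_sq X
  have hs1 : 0 < Real.sin (V - U) := Real.sin_pos_of_pos_of_lt_pi (by linarith) (by linarith)
  have hs2 : 0 ≤ Real.sin (V - X) :=
    Real.sin_nonneg_of_nonneg_of_le_pi (by linarith) (by linarith)
  have hs3 : 0 ≤ Real.sin (X - U) :=
    Real.sin_nonneg_of_nonneg_of_le_pi (by linarith) (by linarith)
  have hs4 : Real.sin (V - U) ≤ Real.sin (V - X) + Real.sin (X - U) := by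
    have e : V - U = (V - X) + (X - U) := by ring
    rw [e, Real.sin_add]
    have h3 := Real.cos_le_one (X - U)
    have h4 := Real.cos_le_one (V - X)
    nlinarith
  have h5 : m * C ≤ Real.pi * Real.sin U + m * Real.cos U := by linarith
  have h6 : m * C ≤ Real.pi * Real.sin V + m * Real.cos V := by linarith
  have h7 : Real.sin (V - U) * (m * C) ≤
      Real.sin (V - U) * (Real.pi * Real.sin X + m * Real.cos X) := by
    rw [key]
    have h8 := mul_le_mul_of_nonneg_left h5 hs2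
    have h9 := mul_le_mul_of_nonneg_left h6 hs3
    have h10 : Real.sin (V - U) * (m * C) ≤ (Real.sin (V - X) + Real.sin (X - U)) * (m * C) :=
      mul_le_mul_of_nonneg_right hs4 (by positivity)
    linarith
  have := le_of_mul_le_mul_left h7 hs1
  linarith

theorem Dd_ge_box {s w0 w u v m : ℝ} (hu : 0 < u) (hv : v ≤ 1 / 2) (h1 : u ≤ w0) (h2 : w0 ≤ v)
    (h3 : u ≤ w) (h4 : w ≤ v) (hm : 0 ≤ m) (hmu : m ≤ Lgd s u) (hmv : m ≤ Lgd s v) :
    m / 2 * (w - w0) ^ 2 ≤ Dd s w0 w := by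
  have hsub : uIcc w0 w ⊆ Icc u v := uIcc_subset_Icc ⟨h1, h2⟩ ⟨h3, h4⟩
  apply Dd_ge_quad
  · intro y hy
    have := hsub hy
    have h5 : 0 < y := by linarith [this.1]
    exact Or.inr ⟨h5.ne', by rw [abs_of_pos h5]; linarith [this.2]⟩
  · intro y hy
    have := hsub hy
    exact Lgd_ge_mid hu hv this.1 this.2 hm hmu hmv

/-! ### Tables -/

theorem sn_060 : 9203 / 25000 ≤ Real.sin (2 * Real.pi * (3 / 50)) := by
  apply sn_lo (x := 3 / 50) (y := 1178097 / 3125000) <;> norm_num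

theorem cn_060 : 92977 / 100000 ≤ Real.cos (2 * Real.pi * (3 / 50)) := by
  apply cn_lo (x := 3 / 50) (y := 9424779 / 25000000) <;> norm_num

theorem sn_075 : 45399 / 100000 ≤ Real.sin (2 * Real.pi * (3 / 40)) := by
  apply sn_lo (x := 3 / 40) (y := 1178097 / 2500000) <;> norm_num

theorem cn_075 : 891 / 1000 ≤ Real.cos (2 * Real.pi * (3 / 40)) := by
  apply cn_lo (x := 3 / 40) (y := 9424779 / 20000000) <;> norm_num

theorem sn_080 : 1927 / 4000 ≤ Real.sin (2 * Real.pi * (2 / 25)) := by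
  apply sn_lo (x := 2 / 25) (y := 392699 / 781250) <;> norm_num

theorem cn_080 : 8763 / 10000 ≤ Real.cos (2 * Real.pi * (2 / 25)) := by
  apply cn_lo (x := 2 / 25) (y := 3141593 / 6250000) <;> norm_num

theorem sn_085 : 6363 / 12500 ≤ Real.sin (2 * Real.pi * (17 / 200)) := by
  apply sn_lo (x := 17 / 200) (y := 6675883 / 12500000) <;> norm_num

theorem cn_085 : 43037 / 50000 ≤ Real.cos (2 * Real.pi * (17 / 200)) := by
  apply cn_lo (x := 17 / 200) (y := 53407081 / 100000000) <;> norm_num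

theorem sn_090 : 26791 / 50000 ≤ Real.sin (2 * Real.pi * (9 / 100)) := by
  apply sn_lo (x := 9 / 100) (y := 3534291 / 6250000) <;> norm_num

theorem cn_090 : 5277 / 6250 ≤ Real.cos (2 * Real.pi * (9 / 100)) := by
  apply cn_lo (x := 9 / 100) (y := 28274337 / 50000000) <;> norm_num

theorem sn_100 : 29389 / 50000 ≤ Real.sin (2 * Real.pi * (1 / 10)) := by
  apply sn_lo (x := 1 / 10) (y := 392699 / 625000) <;> norm_num

theorem cn_100 : 80901 / 100000 ≤ Real.cos (2 * Real.pi * (1 / 10)) := by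
  apply cn_lo (x := 1 / 10) (y := 3141593 / 5000000) <;> norm_num

theorem sn_160 : 5277 / 6250 ≤ Real.sin (2 * Real.pi * (4 / 25)) := by
  apply sn_lo (x := 4 / 25) (y := 392699 / 390625) <;> norm_num

theorem cn_160 : 2679 / 5000 ≤ Real.cos (2 * Real.pi * (4 / 25)) := by
  apply cn_lo (x := 4 / 25) (y := 3141593 / 3125000) <;> norm_num

theorem sn_170 : 8763 / 10000 ≤ Real.sin (2 * Real.pi * (17 / 100)) := by
  apply sn_lo (x := 17 / 100) (y := 6675883 / 6250000) <;> norm_num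

theorem cn_170 : 48171 / 100000 ≤ Real.cos (2 * Real.pi * (17 / 100)) := by
  apply cn_lo (x := 17 / 100) (y := 53407081 / 50000000) <;> norm_num

theorem sn_185 : 45887 / 50000 ≤ Real.sin (2 * Real.pi * (37 / 200)) := by
  apply sn_lo (x := 37 / 200) (y := 14529863 / 12500000) <;> norm_num

theorem cn_185 : 19853 / 50000 ≤ Real.cos (2 * Real.pi * (37 / 200)) := by
  apply cn_lo (x := 37 / 200) (y := 116238941 / 100000000) <;> norm_num

theorem sn_200 : 95103 / 100000 ≤ Real.sin (2 * Real.pi * (1 / 5)) := by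
  apply sn_lo (x := 1 / 5) (y := 392699 / 312500) <;> norm_num

theorem cn_200 : 15443 / 50000 ≤ Real.cos (2 * Real.pi * (1 / 5)) := by
  apply cn_lo (x := 1 / 5) (y := 3141593 / 2500000) <;> norm_num

theorem sn_215 : 97587 / 100000 ≤ Real.sin (2 * Real.pi * (43 / 200)) := by
  apply sn_lo (x := 43 / 200) (y := 16886057 / 12500000) <;> norm_num

theorem cn_215 : 21787 / 100000 ≤ Real.cos (2 * Real.pi * (43 / 200)) := by
  apply cn_lo (x := 43 / 200) (y := 135088499 / 100000000) <;> norm_num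

theorem sn_245 : 99937 / 100000 ≤ Real.sin (2 * Real.pi * (49 / 200)) := by
  apply sn_lo (x := 49 / 200) (y := 19242251 / 12500000) <;> norm_num

theorem cn_245 : 383 / 12500 ≤ Real.cos (2 * Real.pi * (49 / 200)) := by
  apply cn_lo (x := 49 / 200) (y := 153938057 / 100000000) <;> norm_num

theorem sn_255 : 99937 / 100000 ≤ Real.sin (2 * Real.pi * (51 / 200)) := by
  apply sn_lo' (x := 51 / 200) (y := 19242251 / 12500000) <;> norm_num

theorem cn_255 : -393 / 12500 ≤ Real.cos (2 * Real.pi * (51 / 200)) := by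
  apply cn_lo' (x := 51 / 200) (y := 19242251 / 12500000) <;> norm_num

theorem sn_284 : 48861 / 50000 ≤ Real.sin (2 * Real.pi * (71 / 250)) := by
  apply sn_lo' (x := 71 / 250) (y := 10602873 / 7812500) <;> norm_num

theorem cn_284 : -10601 / 50000 ≤ Real.cos (2 * Real.pi * (71 / 250)) := by
  apply cn_lo' (x := 71 / 250) (y := 10602873 / 7812500) <;> norm_num

theorem sn_342 : 10469 / 12500 ≤ Real.sin (2 * Real.pi * (171 / 500)) := by
  apply sn_lo' (x := 171 / 500) (y := 31023221 / 31250000) <;> norm_num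

theorem cn_342 : -683 / 1250 ≤ Real.cos (2 * Real.pi * (171 / 500)) := by
  apply cn_lo' (x := 171 / 500) (y := 31023221 / 31250000) <;> norm_num

theorem sn_350 : 80901 / 100000 ≤ Real.sin (2 * Real.pi * (7 / 20)) := by
  apply sn_lo' (x := 7 / 20) (y := 1178097 / 1250000) <;> norm_num

theorem cn_350 : -58779 / 100000 ≤ Real.cos (2 * Real.pi * (7 / 20)) := by
  apply cn_lo' (x := 7 / 20) (y := 1178097 / 1250000) <;> norm_num

theorem gA_080 {s : ℝ} (hs : |s| ≤ 135 / 1000) : 299 / 100 ≤ Lgd s (2 / 25) :=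
  Lgd_lo (ch_135 hs) sn_080 cn_080 (by norm_num) (by norm_num) (by norm_num) (by norm_num)

theorem gA_085 {s : ℝ} (hs : |s| ≤ 135 / 1000) : 153 / 50 ≤ Lgd s (17 / 200) :=
  Lgd_lo (ch_135 hs) sn_085 cn_085 (by norm_num) (by norm_num) (by norm_num) (by norm_num)

theorem gA_170 {s : ℝ} (hs : |s| ≤ 135 / 1000) : 61 / 20 ≤ Lgd s (17 / 100) :=
  Lgd_lo (ch_135 hs) sn_170 cn_170 (by norm_num) (by norm_num) (by norm_num) (by norm_num)

theorem gA_185 {s : ℝ} (hs : |s| ≤ 135 / 1000) : 73 / 25 ≤ Lgd s (37 / 200) :=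
  Lgd_lo (ch_135 hs) sn_185 cn_185 (by norm_num) (by norm_num) (by norm_num) (by norm_num)

theorem gA_200 {s : ℝ} (hs : |s| ≤ 135 / 1000) : 139 / 50 ≤ Lgd s (1 / 5) :=
  Lgd_lo (ch_135 hs) sn_200 cn_200 (by norm_num) (by norm_num) (by norm_num) (by norm_num)

theorem gA_215 {s : ℝ} (hs : |s| ≤ 135 / 1000) : 263 / 100 ≤ Lgd s (43 / 200) :=
  Lgd_lo (ch_135 hs) sn_215 cn_215 (by norm_num) (by norm_num) (by norm_num) (by norm_num)

theorem gA_245 {s : ℝ} (hs : |s| ≤ 135 / 1000) : 58 / 25 ≤ Lgd s (49 / 200) :=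
  Lgd_lo (ch_135 hs) sn_245 cn_245 (by norm_num) (by norm_num) (by norm_num) (by norm_num)

theorem gA_255 {s : ℝ} (hs : |s| ≤ 135 / 1000) : 111 / 50 ≤ Lgd s (51 / 200) :=
  Lgd_lo (ch_135 hs) sn_255 cn_255 (by norm_num) (by norm_num) (by norm_num) (by norm_num)

theorem gA_350 {s : ℝ} (hs : |s| ≤ 135 / 1000) : 129 / 100 ≤ Lgd s (7 / 20) :=
  Lgd_lo (ch_135 hs) sn_350 cn_350 (by norm_num) (by norm_num) (by norm_num) (by norm_num)

theorem gB_060 {s : ℝ} (hs : |s| ≤ 165 / 1000) : 7 / 4 ≤ Lgd s (3 / 50) :=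
  Lgd_lo (ch_165 hs) sn_060 cn_060 (by norm_num) (by norm_num) (by norm_num) (by norm_num)

theorem gB_075 {s : ℝ} (hs : |s| ≤ 165 / 1000) : 51 / 25 ≤ Lgd s (3 / 40) :=
  Lgd_lo (ch_165 hs) sn_075 cn_075 (by norm_num) (by norm_num) (by norm_num) (by norm_num)

theorem gB_085 {s : ℝ} (hs : |s| ≤ 165 / 1000) : 11 / 5 ≤ Lgd s (17 / 200) :=
  Lgd_lo (ch_165 hs) sn_085 cn_085 (by norm_num) (by norm_num) (by norm_num) (by norm_num)

theorem gB_090 {s : ℝ} (hs : |s| ≤ 165 / 1000) : 113 / 50 ≤ Lgd s (9 / 100) :=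
  Lgd_lo (ch_165 hs) sn_090 cn_090 (by norm_num) (by norm_num) (by norm_num) (by norm_num)

theorem gB_100 {s : ℝ} (hs : |s| ≤ 165 / 1000) : 237 / 100 ≤ Lgd s (1 / 10) :=
  Lgd_lo (ch_165 hs) sn_100 cn_100 (by norm_num) (by norm_num) (by norm_num) (by norm_num)

theorem gB_160 {s : ℝ} (hs : |s| ≤ 165 / 1000) : 63 / 25 ≤ Lgd s (4 / 25) :=
  Lgd_lo (ch_165 hs) sn_160 cn_160 (by norm_num) (by norm_num) (by norm_num) (by norm_num)

theorem gB_200 {s : ℝ} (hs : |s| ≤ 165 / 1000) : 233 / 100 ≤ Lgd s (1 / 5) :=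
  Lgd_lo (ch_165 hs) sn_200 cn_200 (by norm_num) (by norm_num) (by norm_num) (by norm_num)

theorem gB_284 {s : ℝ} (hs : |s| ≤ 165 / 1000) : 17 / 10 ≤ Lgd s (71 / 250) :=
  Lgd_lo (ch_165 hs) sn_284 cn_284 (by norm_num) (by norm_num) (by norm_num) (by norm_num)

theorem gB_342 {s : ℝ} (hs : |s| ≤ 165 / 1000) : 123 / 100 ≤ Lgd s (171 / 500) :=
  Lgd_lo (ch_165 hs) sn_342 cn_342 (by norm_num) (by norm_num) (by norm_num) (by norm_num)

end Pool.Agent.S5.VB
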