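import Pool.Agent.S5.I.LowA
import Pool.Agent.S5.I.VDefs
import Pool.Agent.S5.I.TdL
import Pool.Agent.S3.Ks1

/-!
# The right leg of a slot: the angle functions on vertical lines, closed form of the slot function
-/

set_option autoImplicit false

namespace Pool.Agent.S5

open Pool.Agent.H63.VC3 Pool.Agent.S3 Complex MeasureTheory Filter Topology Set

/-! ### The functions on vertical lines -/

/-- The argument of `2 sin (π (r + i b))`. -/
noncomputable def tv (r b : ℝ) : ℝ := (hh ((r : ℂ) + b * I)).im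

/-- The function `-Rf` on a vertical line. -/
noncomputable def gv (r b : ℝ) : ℝ := -Rf ((r : ℂ) + b * I)

theorem gv_hasDerivAt {r : ℝ} (h0 : 0 < r) (h1 : r < 1) (b : ℝ) :
    HasDerivAt (gv r) (tv r b) b := neg_Rf_hasDerivAt_im h0 h1 b

theorem tv_hasDerivAt {r : ℝ} (h0 : 0 < r) (h1 : r < 1) (b : ℝ) :
    HasDerivAt (tv r) (Real.pi * cot (Real.pi * ((r : ℂ) + b * I))).re b :=
  hh_im_hasDerivAt_im h0 h1 b

theorem tv_zero {r : ℝ} (h0 : 0 < r) (h1 : r < 1) : tv r 0 = 0 := by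
  unfold tv
  rw [ofReal_zero, zero_mul, add_zero]
  exact hh_im_ofReal h0 h1

theorem tv_neg {r : ℝ} (h0 : 0 < r) (h1 : r < 1) (b : ℝ) : tv r (-b) = -tv r b := by
  unfold tv
  rw [← conj_line, hh_conj _ (by rw [line_re]; exact h0) (by rw [line_re]; exact h1), conj_im]

theorem tv_one_sub {r : ℝ} (h0 : 0 < r) (h1 : r < 1) (b : ℝ) : tv (1 - r) b = -tv r b := by
  rw [← tv_neg h0 h1]
  unfold tv
  rw [← hh_one_sub]
  congr 2
  push_cast
  ring

theorem gv_one_sub (r b : ℝ) : gv (1 - r) b = -gv r b := by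
  unfold gv
  rw [Rf_one_sub_line]

theorem gv_neg (r b : ℝ) : gv r (-b) = gv r b := by
  unfold gv
  rw [Rf_line_neg]

theorem tv_mono {r : ℝ} (h0 : 0 < r) (h1 : r ≤ 1 / 2) : Monotone (tv r) :=
  monotone_of_hasDerivAt_nonneg (fun s => tv_hasDerivAt h0 (by linarith) s)
    fun s => cot_re_nonneg h0.le h1 s

theorem tv_sub_le {r b1 b2 K : ℝ} (h0 : 0 < r) (h1 : r ≤ 1 / 2) (hb : b1 ≤ b2)
    (hK : Real.pi * Real.cot (Real.pi * r) ≤ K) : tv r b2 - tv r b1 ≤ K * (b2 - b1) := by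
  have hm : Monotone fun b => K * b - tv r b := by
    apply monotone_of_hasDerivAt_nonneg (f' := fun b => K - (Real.pi * cot (Real.pi * ((r : ℂ) + b * I))).re)
    · intro b
      have h := ((hasDerivAt_id b).const_mul K).sub (tv_hasDerivAt h0 (by linarith) b)
      refine h.congr_deriv ?_
      rw [mul_one]
    · intro b
      have := cot_re_le h0 h1 b
      simp only [Pi.zero_apply]
      linarith
  have := hm hb
  simp only at this
  linarith

theorem tv_nonneg {r b : ℝ} (h0 : 0 < r) (h1 : r ≤ 1 / 2) (hb : 0 ≤ b) : 0 ≤ tv r b := by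
  have := tv_mono h0 h1 hb
  rwa [tv_zero h0 (by linarith)] at this

theorem tv_nonpos {r b : ℝ} (h0 : 0 < r) (h1 : r ≤ 1 / 2) (hb : b ≤ 0) : tv r b ≤ 0 := by
  have := tv_mono h0 h1 hb
  rwa [tv_zero h0 (by linarith)] at this

theorem tv_le {r b K : ℝ} (h0 : 0 < r) (h1 : r ≤ 1 / 2) (hb : 0 ≤ b)
    (hK : Real.pi * Real.cot (Real.pi * r) ≤ K) : tv r b ≤ K * b := by
  have := tv_sub_le h0 h1 hb hK
  rw [tv_zero h0 (by linarith), sub_zero, sub_zero] at this
  exact this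

theorem tv_abs_le {r b K : ℝ} (h0 : 0 < r) (h1 : r ≤ 1 / 2)
    (hK : Real.pi * Real.cot (Real.pi * r) ≤ K) : |tv r b| ≤ K * |b| := by
  rcases le_total 0 b with h | h
  · rw [abs_of_nonneg (tv_nonneg h0 h1 h), abs_of_nonneg h]
    exact tv_le h0 h1 h hK
  · rw [abs_of_nonpos (tv_nonpos h0 h1 h), abs_of_nonpos h, ← tv_neg h0 (by linarith)]
    exact tv_le h0 h1 (by linarith) hK

theorem pi_cot_nonneg {r : ℝ} (h0 : 0 < r) (h1 : r ≤ 1 / 2) :
    0 ≤ Real.pi * Real.cot (Real.pi * r) :=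
  (cot_re_nonneg h0.le h1 0).trans (cot_re_le h0 h1 0)

/-- Numerical bound of the cotangent. -/
theorem pi_cot_le {r : ℝ} (h0 : 0 < r) (h1 : r ≤ 1 / 2) :
    Real.pi * Real.cot (Real.pi * r) ≤ 2 * kz r := by
  have := kz_bound h0 h1
  linarith

theorem kz_anti {r r' : ℝ} (h0 : 0 < r) (h1 : r ≤ r') : kz r' ≤ kz r := by
  unfold kz
  have h2 : 1 / (2 * r') ≤ 1 / (2 * r) := by
    apply div_le_div_of_nonneg_left zero_le_one (by positivity)
    linarith
  linarith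

theorem pi_cot_le_of {r0 r K : ℝ} (h0 : 0 < r0) (h : r0 ≤ r) (h1 : r ≤ 1 / 2)
    (hK : 2 * kz r0 ≤ K) : Real.pi * Real.cot (Real.pi * r) ≤ K := by
  have h2 := pi_cot_le (h0.trans_le h) h1
  have h3 := kz_anti h0 h
  linarith

/-- Lipschitz bound of `gv`. -/
theorem gv_sub_le {r b1 b2 B K : ℝ} (h0 : 0 < r) (h1 : r ≤ 1 / 2) (hb : b1 ≤ b2)
    (hK : Real.pi * Real.cot (Real.pi * r) ≤ K) (hB1 : -B ≤ b1) (hB2 : b2 ≤ B) :
    |gv r b2 - gv r b1| ≤ K * B * (b2 - b1) := by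
  have hK0 : 0 ≤ K := (pi_cot_nonneg h0 h1).trans hK
  have hs : ∀ b ∈ Icc b1 b2, |tv r b| ≤ K * B := by
    intro b hb
    refine (tv_abs_le h0 h1 hK).trans ?_
    apply mul_le_mul_of_nonneg_left _ hK0
    exact abs_le.2 ⟨by linarith [hb.1], by linarith [hb.2]⟩
  rcases hb.eq_or_lt with h | h
  · rw [h]
    simp
  obtain ⟨c, hc, he⟩ := exists_hasDerivAt_eq_slope (gv r) (tv r) h
    (fun b _ => (gv_hasDerivAt h0 (by linarith) b).continuousAt.continuousWithinAt)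
    (fun b _ => gv_hasDerivAt h0 (by linarith) b)
  have h2 : gv r b2 - gv r b1 = tv r c * (b2 - b1) := by
    rw [he, div_mul_cancel₀ _ (by linarith : b2 - b1 ≠ 0)]
  rw [h2, abs_mul, abs_of_nonneg (show 0 ≤ b2 - b1 by linarith)]
  exact mul_le_mul_of_nonneg_right (hs c ⟨hc.1.le, hc.2.le⟩) (by linarith)

/-! ### The closed form on the right leg -/

/-- The slot function on the right leg of `y`: `y = 1/2 + i s`, `v = a + i h`. -/
noncomputable def Er (ys vs : ℂ) (s a h : ℝ) : ℝ :=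
  -lamv ys vs * (1 / 2 - ys.re) + 2 * Rf (1 / 2 - ys) + Rf (ys - vs) + Rf (ys + vs) +
    Lamv ys vs * (a - vs.re) * h / vs.im + Real.pi * |s| +
      (2 * (hh (1 / 2 - ys)).im - (hh (ys - vs)).im - (hh (ys + vs)).im) * (s - ys.im) +
        ((hh (ys - vs)).im - (hh (ys + vs)).im) * (h - vs.im) +
          (gv (1 / 2 - a) (s - h) - gv (1 / 2 - a) (s + h))

theorem Es_eq_Er {ys vs y v : ℂ} (hn : vs.im ≠ 0) (hy : y.re = 1 / 2) :
    Es ys vs y v = Er ys vs y.im v.re v.im := by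
  have hpi := Real.pi_ne_zero
  have e0 : y = ((1 / 2 : ℝ) : ℂ) + y.im * I := by
    rw [← hy, re_add_im]
  have e1 : (1 / 2 : ℂ) - y = ((-y.im : ℝ) : ℂ) * I := by
    conv_lhs => rw [e0]
    push_cast
    ring
  have e2 : y - v = ((1 / 2 - v.re : ℝ) : ℂ) + ((y.im - v.im : ℝ) : ℂ) * I := by
    conv_lhs => rw [e0, ← re_add_im v]
    push_cast
    ring
  have e3 : y + v = ((1 - (1 / 2 - v.re) : ℝ) : ℂ) + ((y.im + v.im : ℝ) : ℂ) * I := by
    conv_lhs => rw [e0, ← re_add_im v]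
    push_cast
    ring
  have r1 : Rf (1 / 2 - y) = -(Real.pi * |y.im| / 2) := by
    rw [e1, Rf_im, abs_neg]
  have r2 : Rf (y - v) = -gv (1 / 2 - v.re) (y.im - v.im) := by
    rw [e2, gv, neg_neg]
  have r3 : Rf (y + v) = gv (1 / 2 - v.re) (y.im + v.im) := by
    rw [e3, Rf_one_sub_line, gv]
  have d1 : (hh (1 / 2 - ys) * (1 / 2 - y - (1 / 2 - ys))).re =
      -(1 / 2 - ys.re) * Lg ys.im (1 / 2 - ys.re) + (hh (1 / 2 - ys)).im * (y.im - ys.im) := by
    rw [mul_re, hh_re]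
    have a1 : (1 / 2 - ys : ℂ).im = -ys.im := by
      simp
    have a2 : (1 / 2 - ys : ℂ).re = 1 / 2 - ys.re := by
      simp
    have a3 : (1 / 2 - y - (1 / 2 - ys)).re = -(1 / 2 - ys.re) := by
      simp only [sub_re]
      rw [hy]
      simp
    have a4 : (1 / 2 - y - (1 / 2 - ys)).im = -(y.im - ys.im) := by
      simp
    rw [a1, a2, a3, a4, Lg_neg_im]
    ring
  have d2 : (hh (ys - vs) * (y - v - (ys - vs))).re =
      Lg (ys.im - vs.im) (ys.re - vs.re) * (1 / 2 - v.re - (ys.re - vs.re)) -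
        (hh (ys - vs)).im * (y.im - v.im - (ys.im - vs.im)) := by
    rw [mul_re, hh_re]
    simp only [sub_re, sub_im]
    rw [hy]
  have d3 : (hh (ys + vs) * (y + v - (ys + vs))).re =
      Lg (ys.im + vs.im) (ys.re + vs.re) * (1 / 2 + v.re - (ys.re + vs.re)) -
        (hh (ys + vs)).im * (y.im + v.im - (ys.im + vs.im)) := by
    rw [mul_re, hh_re]
    simp only [sub_re, sub_im, add_re, add_im]
    rw [hy]
  have b1 : 2 * Real.pi * bn ys vs * ((v.re - vs.re) * (v.im - vs.im)) =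
      Lamv ys vs * (v.re - vs.re) * v.im / vs.im - Lamv ys vs * (v.re - vs.re) := by
    unfold bn Lamv
    simp only [add_im, add_re, sub_im, sub_re]
    field_simp
  unfold Es Ev Td Er
  rw [b1, d1, d2, d3, r1, r2, r3]
  unfold lamv Lamv
  ring

end Pool.Agent.S5
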