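import Pool.Agent.S5.I.VRa

/-!
# The right leg of a slot: numerical bounds on horizontal lines
-/

set_option autoImplicit false

namespace Pool.Agent.S5

open Pool.Agent.H63.VC3 Pool.Agent.S3 Complex MeasureTheory Filter Topology Set

/-! ### Elementary inequalities -/

/-- `log x ≤ (x - 1 / x) / 2` for `x ≥ 1`. -/
private theorem vr_log {x : ℝ} (hx : 1 ≤ x) : Real.log x ≤ (x - 1 / x) / 2 := by
  have hm : MonotoneOn (fun x : ℝ => (x - 1 / x) / 2 - Real.log x) (Ici 1) := by
    apply monotoneOn_of_hasDerivWithinAt_nonneg (convex_Ici _)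
      (f' := fun x => (1 + 1 / x ^ 2) / 2 - 1 / x)
    · intro v hv
      have hv1 : (1 : ℝ) ≤ v := hv
      have hv0 : v ≠ 0 := by linarith
      apply ContinuousAt.continuousWithinAt
      have : ContinuousAt Real.log v := Real.continuousAt_log hv0
      fun_prop (disch := assumption)
    · intro v hv
      rw [interior_Ici] at hv
      have hv1 : (1 : ℝ) < v := hv
      have hv0 : v ≠ 0 := by linarith
      have h := (((hasDerivAt_id v).sub ((hasDerivAt_const v (1 : ℝ)).div (hasDerivAt_id v)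
        hv0)).div_const 2).sub (Real.hasDerivAt_log hv0)
      refine (h.congr_deriv ?_).hasDerivWithinAt
      simp only [id]
      field_simp
      ring
    · intro v hv
      rw [interior_Ici] at hv
      have hv1 : (1 : ℝ) < v := hv
      have hv0 : v ≠ 0 := by linarith
      have e : (1 + 1 / v ^ 2) / 2 - 1 / v = (1 - 1 / v) ^ 2 / 2 := by
        field_simp
        ring
      rw [e]
      positivity
  have := hm (mem_Ici.2 le_rfl) (mem_Ici.2 hx) hx
  simp at this
  simp
  linarith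

/-! ### The function `Lg` near `1/2` -/

private theorem vr_pi_sq : Real.pi ^ 2 ≤ 98697 / 10000 := by
  have h4 := Real.pi_lt_d6
  have hp := Real.pi_pos
  exact le_trans (pow_le_pow_left₀ hp.le h4.le 2) (by norm_num)

/-- `-log (cos (π a))`, upper bound. -/
private theorem vr_neg_log_cos {a : ℝ} (h0 : 0 ≤ a) (h1 : a ≤ 7 / 25) :
    -Real.log (Real.cos (Real.pi * a)) ≤ (Real.pi * a) ^ 2 / 2 + (Real.pi * a) ^ 4 / 8 +
      102 / 1000 * (Real.pi * a) ^ 6 := by
  have hpi := Real.pi_pos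
  have hp2 := vr_pi_sq
  set w := Real.pi * a with hw
  have hw2 : w ^ 2 / 2 ≤ 387 / 1000 := by
    have e : w ^ 2 / 2 = Real.pi ^ 2 * a ^ 2 / 2 := by rw [hw]; ring
    rw [e]
    have h3 : a ^ 2 ≤ (7 / 25) ^ 2 := pow_le_pow_left₀ h0 h1 2
    have h4 : Real.pi ^ 2 * a ^ 2 ≤ 98697 / 10000 * (7 / 25) ^ 2 :=
      mul_le_mul hp2 h3 (sq_nonneg _) (by norm_num)
    linarith
  have hc := Real.one_sub_sq_div_two_le_cos (x := w)
  have hc0 : 0 < Real.cos w := by linarith
  have hc1 := Real.cos_le_one w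
  have h5 := vr_log (x := 1 / Real.cos w) (by rw [le_div_iff₀ hc0]; linarith)
  rw [Real.log_div one_ne_zero hc0.ne', Real.log_one, zero_sub, one_div_one_div] at h5
  refine h5.trans ?_
  set y := w ^ 2 / 2 with hy
  have hy0 : 0 ≤ y := by positivity
  have hy1 : 0 < 1 - y := by linarith
  have h6 : 1 / Real.cos w ≤ 1 / (1 - y) := div_le_div_of_nonneg_left zero_le_one hy1 hc
  have h7 : (1 / Real.cos w - Real.cos w) / 2 ≤ (1 / (1 - y) - (1 - y)) / 2 := by linarith
  refine h7.trans ?_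
  have e2 : w ^ 2 / 2 + w ^ 4 / 8 + 102 / 1000 * w ^ 6 = y + y ^ 2 / 2 + 816 / 1000 * y ^ 3 := by
    rw [hy]
    ring
  rw [e2, div_sub' hy1.ne', div_div, div_le_iff₀ (by positivity)]
  have h8 : 0 ≤ y ^ 3 * (2 * (816 / 1000) * (1 - y) - 1) := by
    apply mul_nonneg (by positivity)
    nlinarith
  nlinarith

theorem Lg_half_sub_le (s : ℝ) {a : ℝ} (h0 : 0 ≤ a) (h1 : a ≤ 7 / 25) :
    Lg s (1 / 2) - Lg s (1 / 2 + a) ≤ (Real.pi * a) ^ 2 / 2 + (Real.pi * a) ^ 4 / 8 +
      102 / 1000 * (Real.pi * a) ^ 6 := by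
  refine le_trans ?_ (vr_neg_log_cos h0 h1)
  have hpi := Real.pi_pos
  have hc0 : 0 < Real.cos (Real.pi * a) := by
    apply Real.cos_pos_of_mem_Ioo
    constructor <;> nlinarith
  have hC := Real.one_le_cosh (2 * Real.pi * s)
  have e1 : dn s (1 / 2) = Real.cosh (2 * Real.pi * s) + 1 := by
    unfold dn
    rw [show 2 * Real.pi * (1 / 2) = Real.pi by ring, Real.cos_pi]
    ring
  have e2 : dn s (1 / 2 + a) = Real.cosh (2 * Real.pi * s) + (2 * Real.cos (Real.pi * a) ^ 2 - 1) := by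
    unfold dn
    rw [show 2 * Real.pi * (1 / 2 + a) = 2 * (Real.pi * a) + Real.pi by ring, Real.cos_add_pi,
      Real.cos_two_mul]
    ring
  have hc1 : Real.cos (Real.pi * a) ^ 2 ≤ 1 := by
    rw [sq_le_one_iff₀ hc0.le]
    exact Real.cos_le_one _
  have hd1 : 0 < dn s (1 / 2) := by rw [e1]; linarith
  have hd2 : 0 < dn s (1 / 2 + a) := by
    rw [e2]
    have : 0 < Real.cos (Real.pi * a) ^ 2 := by positivity
    linarith
  rw [Lg_eq_log, Lg_eq_log]
  have h3 : Real.log (2 * dn s (1 / 2)) + 2 * Real.log (Real.cos (Real.pi * a)) ≤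
      Real.log (2 * dn s (1 / 2 + a)) := by
    have e3 : 2 * Real.log (Real.cos (Real.pi * a)) = Real.log (Real.cos (Real.pi * a) ^ 2) := by
      rw [Real.log_pow]
      push_cast
      ring
    rw [e3, ← Real.log_mul (by positivity) (by positivity)]
    apply Real.log_le_log (by positivity)
    rw [e1, e2]
    nlinarith
  linarith

/-- The polynomial bound of the right part. -/
noncomputable def Gp (a : ℝ) : ℝ := Real.pi ^ 2 * a ^ 3 / 6 + Real.pi ^ 4 * a ^ 5 / 40 +
  102 / 7000 * Real.pi ^ 6 * a ^ 7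

theorem Gp_le {a : ℝ} (h0 : 0 ≤ a) (h1 : a ≤ 7 / 25) : Gp a ≤ 422 / 10000 := by
  have hpi := Real.pi_pos
  have hp2 := vr_pi_sq
  have hp4 : Real.pi ^ 4 ≤ (98697 / 10000) ^ 2 := by
    have := pow_le_pow_left₀ (by positivity) hp2 2
    calc Real.pi ^ 4 = (Real.pi ^ 2) ^ 2 := by ring
      _ ≤ _ := this
  have hp6 : Real.pi ^ 6 ≤ (98697 / 10000) ^ 3 := by
    have := pow_le_pow_left₀ (by positivity) hp2 3
    calc Real.pi ^ 6 = (Real.pi ^ 2) ^ 3 := by ring
      _ ≤ _ := this
  have h3 : a ^ 3 ≤ (7 / 25) ^ 3 := pow_le_pow_left₀ h0 h1 3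
  have h5 : a ^ 5 ≤ (7 / 25) ^ 5 := pow_le_pow_left₀ h0 h1 5
  have h7 : a ^ 7 ≤ (7 / 25) ^ 7 := pow_le_pow_left₀ h0 h1 7
  have m3 := mul_le_mul hp2 h3 (by positivity) (by norm_num)
  have m5 := mul_le_mul hp4 h5 (by positivity) (by norm_num)
  have m7 := mul_le_mul hp6 h7 (by positivity) (by norm_num)
  unfold Gp
  norm_num at m3 m5 m7 ⊢
  linarith

/-- The main part of the right flat. -/
theorem G_le (s : ℝ) {a : ℝ} (h0 : 0 ≤ a) (h1 : a ≤ 7 / 25) :
    Lg s (1 / 2) * a - Rf (((1 / 2 + a : ℝ) : ℂ) + s * I) ≤ Gp a := by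
  have hm : MonotoneOn (fun a : ℝ => Gp a - (Lg s (1 / 2) * a - Rf (((1 / 2 + a : ℝ) : ℂ) + s * I)))
      (Icc 0 (7 / 25)) := by
    have hd : ∀ a ∈ Icc (0 : ℝ) (7 / 25), HasDerivAt
        (fun a : ℝ => Gp a - (Lg s (1 / 2) * a - Rf (((1 / 2 + a : ℝ) : ℂ) + s * I)))
        ((Real.pi * a) ^ 2 / 2 + (Real.pi * a) ^ 4 / 8 + 102 / 1000 * (Real.pi * a) ^ 6 -
          (Lg s (1 / 2) - Lg s (1 / 2 + a))) a := by
      intro a ha
      have d1 : HasDerivAt Gp ((Real.pi * a) ^ 2 / 2 + (Real.pi * a) ^ 4 / 8 +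
          102 / 1000 * (Real.pi * a) ^ 6) a := by
        have h := ((((hasDerivAt_pow 3 a).const_mul (Real.pi ^ 2)).div_const 6).add
          (((hasDerivAt_pow 5 a).const_mul (Real.pi ^ 4)).div_const 40)).add
            ((hasDerivAt_pow 7 a).const_mul (102 / 7000 * Real.pi ^ 6))
        refine h.congr_deriv ?_
        simp only [Nat.add_one_sub_one]
        push_cast
        ring
      have d2 := neg_Rf_hasDerivAt_re (x := 1 / 2 + a) (by linarith [ha.1]) (by linarith [ha.2]) s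
      have d3 : HasDerivAt (fun a : ℝ => 1 / 2 + a) 1 a := by
        exact (hasDerivAt_id' a).const_add (1 / 2)
      have d4 := d2.comp a d3
      have d5 := ((hasDerivAt_id a).const_mul (Lg s (1 / 2))).add d4
      refine (d1.sub d5).congr_deriv ?_ |>.congr_of_eventuallyEq ?_
      · ring
      · apply Eventually.of_forall
        intro a
        simp only [Function.comp, Pi.add_apply, Pi.sub_apply, id]
        ring
    apply monotoneOn_of_deriv_nonneg (convex_Icc _ _)
    · exact fun a ha => (hd a ha).continuousAt.continuousWithinAt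
    · exact fun a ha => (hd a (interior_subset ha)).differentiableAt.differentiableWithinAt
    · intro a ha
      rw [(hd a (interior_subset ha)).deriv]
      rw [interior_Icc] at ha
      have := Lg_half_sub_le s ha.1.le ha.2.le
      linarith
  have h2 := hm (left_mem_Icc.2 (by norm_num)) ⟨h0, h1⟩ h0
  have e : Rf (((1 / 2 + 0 : ℝ) : ℂ) + s * I) = 0 := by
    rw [add_zero]
    exact Rf_half s
  simp only [e] at h2
  have e0 : Gp 0 = 0 := by
    unfold Gp
    norm_num
  rw [e0] at h2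
  linarith

/-- The right part of the flats. -/
theorem Tp_le {s u a : ℝ} (hu : 0 < u) (hu1 : u ≤ 545 / 1000) (h0 : 0 ≤ a) (h1 : a ≤ 7 / 25) :
    Rf ((u : ℂ) + s * I) - Rf (((1 / 2 + a : ℝ) : ℂ) + s * I) + Lg s u * (1 / 2 + a - u) ≤
      4266 / 100000 := by
  have hG := (G_le s h0 h1).trans (Gp_le h0 h1)
  rcases le_total u (1 / 2) with h | h
  · have h2 := Rf_tangent (s := s) (x := 1 / 2) (x0 := u) (by norm_num) le_rfl hu h
    rw [Rf_half] at h2
    have h3 := Lg_mono_re (s := s) hu h le_rfl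
    have h4 := mul_le_mul_of_nonneg_right h3 h0
    nlinarith
  · -- reflection
    have e1 : Rf ((u : ℂ) + s * I) = -Rf (((1 - u : ℝ) : ℂ) + s * I) := by
      rw [Rf_one_sub_line, neg_neg]
    have e2 : Lg s u = Lg s (1 - u) := by
      rw [show 1 - u = -u + 1 by ring, Lg_add_one, Lg_neg]
    have hu' : 0 < 1 - u := by linarith
    have h2 := Rf_tangent (s := s) (x := 1 - u) (x0 := 1 / 2) (by linarith) (by linarith)
      (by norm_num) le_rfl
    rw [Rf_half, sub_zero] at h2
    have h3 := Lg_mono_re (s := s) hu' (show 1 - u ≤ 1 / 2 by linarith) le_rfl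
    have h5 := Lg_half_sub_le s (a := u - 1 / 2) (by linarith) (by linarith)
    rw [show 1 / 2 + (u - 1 / 2) = u by ring, e2] at h5
    have hpi := Real.pi_pos
    have hp2 := vr_pi_sq
    set d := u - 1 / 2 with hd
    have hd0 : 0 ≤ d := by linarith
    have hd1 : d ≤ 45 / 1000 := by linarith
    have h6 : (Real.pi * d) ^ 2 ≤ 2 / 100 := by
      have : (Real.pi * d) ^ 2 = Real.pi ^ 2 * d ^ 2 := by ring
      rw [this]
      have h7 : d ^ 2 ≤ (45 / 1000) ^ 2 := pow_le_pow_left₀ hd0 hd1 2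
      have := mul_le_mul hp2 h7 (by positivity) (by norm_num)
      norm_num at this ⊢
      linarith
    have h8 : Lg s (1 / 2) - Lg s (1 - u) ≤ 102 / 10000 := by
      set w := (Real.pi * d) ^ 2 with hw
      have hw0 : 0 ≤ w := by positivity
      have e4 : (Real.pi * d) ^ 4 = w ^ 2 := by rw [hw]; ring
      have e6 : (Real.pi * d) ^ 6 = w ^ 3 := by rw [hw]; ring
      rw [e4, e6] at h5
      have k2 : w ^ 2 ≤ (2 / 100) ^ 2 := pow_le_pow_left₀ hw0 h6 2
      have k3 : w ^ 3 ≤ (2 / 100) ^ 3 := pow_le_pow_left₀ hw0 h6 3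
      linarith
    rw [e1, e2]
    have e3 : 1 / 2 + a - u = a - d := by rw [hd]; ring
    rw [e3]
    have e7 : 1 - u - 1 / 2 = -d := by rw [hd]; ring
    rw [e7] at h2
    -- `-Rf(1 - u) ≤ Lg (1/2) d`
    rcases le_total d a with h9 | h9
    · have := mul_le_mul_of_nonneg_right h3 (show 0 ≤ a - d by linarith)
      linarith
    · have k1 : (Lg s (1 / 2) - Lg s (1 - u)) * (d - a) ≤ 102 / 10000 * (45 / 1000) := by
        apply mul_le_mul h8 (by linarith) (by linarith) (by norm_num)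
      linarith

end Pool.Agent.S5
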