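import Pool.Agent.S5.I.VB
import Pool.Agent.S5.I.VRa
import Pool.Agent.S5.I.VRb

/-!
# Vertical and real pieces of `v`: the slot function at fixed height of `y`
-/

set_option autoImplicit false

namespace Pool.Agent.S5.VK

open Pool.Agent.H63.VC3 Pool.Agent.S3 Pool.Agent.S5 Complex MeasureTheory Filter Topology Set

/-- The slot function at `y = t + i H`, `v = x + i h`. -/
noncomputable def Ez (X N T H t x h : ℝ) : ℝ :=
  -(2 * Dd H (1 / 2 - T) (1 / 2 - t)) +
    (Lg (H + N) (T + X) - Lg (H - N) (T - X)) * (x - X) * (h - N) / N +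
      (gv (t - x) (H - h) - gv (T - X) (H - N) + Lg (H - N) (T - X) * (t - x - (T - X)) -
        tv (T - X) (H - N) * (N - h)) +
        (gv (t + x) (H + h) - gv (T + X) (H + N) + Lg (H + N) (T + X) * (t + x - (T + X)) -
          tv (T + X) (H + N) * (h - N))

theorem Es_eq_Ez {ys vs y v : ℂ} (hn : vs.im ≠ 0) (hy : y.im = ys.im) :
    Es ys vs y v = Ez vs.re vs.im ys.re ys.im y.re v.re v.im := by
  have hpi := Real.pi_ne_zero
  have e2 : ∀ z w : ℂ, z - w = ((z.re - w.re : ℝ) : ℂ) + ((z.im - w.im : ℝ) : ℂ) * I := by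
    intro z w
    rw [← sub_re, ← sub_im, re_add_im]
  have e3 : ∀ z w : ℂ, z + w = ((z.re + w.re : ℝ) : ℂ) + ((z.im + w.im : ℝ) : ℂ) * I := by
    intro z w
    rw [← add_re, ← add_im, re_add_im]
  have d0 : Td (1 / 2 - ys) (1 / 2 - y) = -Dd ys.im (1 / 2 - ys.re) (1 / 2 - y.re) := by
    rw [Td_eq_Dd (z0 := 1 / 2 - ys) (z := 1 / 2 - y) (by simp [hy])]
    have a1 : (1 / 2 - ys : ℂ).re = 1 / 2 - ys.re := by
      rw [sub_re]
      norm_num
    have a2 : (1 / 2 - y : ℂ).re = 1 / 2 - y.re := by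
      rw [sub_re]
      norm_num
    have a3 : (1 / 2 - ys : ℂ).im = -ys.im := by
      rw [sub_im]
      norm_num
    rw [a1, a2, a3, Dd_neg_im]
  have d2 : Td (ys - vs) (y - v) = gv (y.re - v.re) (ys.im - v.im) -
      gv (ys.re - vs.re) (ys.im - vs.im) +
        Lg (ys.im - vs.im) (ys.re - vs.re) * (y.re - v.re - (ys.re - vs.re)) -
          tv (ys.re - vs.re) (ys.im - vs.im) * (vs.im - v.im) := by
    have e4 : (hh (ys - vs) * (y - v - (ys - vs))).re =
        Lg (ys.im - vs.im) (ys.re - vs.re) * (y.re - v.re - (ys.re - vs.re)) -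
          tv (ys.re - vs.re) (ys.im - vs.im) * (vs.im - v.im) := by
      rw [mul_re, hh_re]
      have e5 : (hh (ys - vs)).im = tv (ys.re - vs.re) (ys.im - vs.im) := by
        unfold tv
        rw [← e2]
      rw [e5]
      simp only [sub_re, sub_im]
      rw [hy]
      ring
    unfold Td
    rw [e4]
    unfold gv
    rw [← e2 ys vs, ← hy, ← e2 y v]
    ring
  have d3 : Td (ys + vs) (y + v) = gv (y.re + v.re) (ys.im + v.im) -
      gv (ys.re + vs.re) (ys.im + vs.im) +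
        Lg (ys.im + vs.im) (ys.re + vs.re) * (y.re + v.re - (ys.re + vs.re)) -
          tv (ys.re + vs.re) (ys.im + vs.im) * (v.im - vs.im) := by
    have e4 : (hh (ys + vs) * (y + v - (ys + vs))).re =
        Lg (ys.im + vs.im) (ys.re + vs.re) * (y.re + v.re - (ys.re + vs.re)) -
          tv (ys.re + vs.re) (ys.im + vs.im) * (v.im - vs.im) := by
      rw [mul_re, hh_re]
      have e5 : (hh (ys + vs)).im = tv (ys.re + vs.re) (ys.im + vs.im) := by
        unfold tv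
        rw [← e3]
      rw [e5]
      simp only [sub_re, sub_im, add_re, add_im]
      rw [hy]
      ring
    unfold Td
    rw [e4]
    unfold gv
    rw [← e3 ys vs, ← hy, ← e3 y v]
    ring
  have b1 : 2 * Real.pi * bn ys vs * ((v.re - vs.re) * (v.im - vs.im)) =
      (Lg (ys.im + vs.im) (ys.re + vs.re) - Lg (ys.im - vs.im) (ys.re - vs.re)) *
        (v.re - vs.re) * (v.im - vs.im) / vs.im := by
    unfold bn
    simp only [add_im, add_re, sub_im, sub_re]
    field_simp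
  unfold Es Ev Ez
  rw [d0, d2, d3, b1]
  ring

/-- At the height of the node. -/
theorem Ez_flat {X N T H t x : ℝ} : Ez X N T H t x N = -VB.Fl X N T H t x := by
  have e : ∀ s a b : ℝ, Dd s a b = gv a s - gv b s - Lg s a * (b - a) := by
    intro s a b
    unfold Dd gv
    ring
  unfold Ez VB.Fl
  rw [e (H - N), e (H + N), sub_self]
  ring

/-! ### Real `v` -/

/-- The quadratic parts. -/
noncomputable def Vm (p H N : ℝ) : ℝ := gv p H - gv p (H - N) - tv p (H - N) * N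

/-- The function on the real line. -/
noncomputable def Rt (X N T H t : ℝ) : ℝ := Ez X N T H t (7 / 25) 0

theorem Dd_gv (s a b : ℝ) : Dd s a b = gv a s - gv b s - Lg s a * (b - a) := by
  unfold Dd gv
  ring

theorem Rt_eq {X N T H t : ℝ} (hN : N ≠ 0) (h0 : 0 < T + X) (h1 : T + X < 1) :
    Rt X N T H t = Vm (T - X) H N + Vm (T + X) (-H) N -
      (2 * Dd H (1 / 2 - T) (1 / 2 - t) + Dd H (T - X) (t - 7 / 25) +
        Dd H (T + X) (t + 7 / 25)) - (7 / 25 - X) * (Lg H (T + X) - Lg H (T - X)) +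
      (t - T) * ((Lg (H - N) (T - X) - Lg H (T - X)) + (Lg (H + N) (T + X) - Lg H (T + X))) := by
  unfold Rt Ez Vm
  rw [Dd_gv H (T - X), Dd_gv H (T + X), show -H - N = -(H + N) by ring, gv_neg, gv_neg,
    tv_neg h0 h1, sub_zero, add_zero, zero_sub]
  have e : (Lg (H + N) (T + X) - Lg (H - N) (T - X)) * (7 / 25 - X) * -N / N =
      -((Lg (H + N) (T + X) - Lg (H - N) (T - X)) * (7 / 25 - X)) := by
    field_simp
  rw [e]
  ring

theorem Ez_neg_x {X N T H t x : ℝ} (hN : N ≠ 0) : Ez X N T H t (-x) 0 = Ez X N T H t x 0 := by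
  unfold Ez
  rw [sub_zero, add_zero, zero_sub, sub_neg_eq_add, ← sub_eq_add_neg]
  have e : ∀ y, (Lg (H + N) (T + X) - Lg (H - N) (T - X)) * (y - X) * -N / N =
      -((Lg (H + N) (T + X) - Lg (H - N) (T - X)) * (y - X)) := by
    intro y
    field_simp
  rw [e, e]
  ring

/-! ### The second derivative -/

theorem cot_Lgd (r b : ℝ) : (Real.pi * cot (Real.pi * ((r : ℂ) + b * I))).re = Lgd b r := by
  rw [re_ofReal_mul, cot_re]
  unfold Lgd dn
  ring

theorem tv_hasDerivAt' {r : ℝ} (h0 : 0 < r) (h1 : r < 1) (b : ℝ) :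
    HasDerivAt (tv r) (Lgd b r) b := by
  have := tv_hasDerivAt h0 h1 b
  rwa [cot_Lgd] at this

/-- `Lgd` decreases in the height. -/
theorem Lgd_anti {s s' x : ℝ} (h : |s| ≤ |s'|) (hx0 : 0 < x) (hx1 : x ≤ 1 / 2) :
    Lgd s' x ≤ Lgd s x := by
  have hpi := Real.pi_pos
  have hs : 0 ≤ Real.sin (2 * Real.pi * x) :=
    Real.sin_nonneg_of_nonneg_of_le_pi (by positivity) (by nlinarith)
  unfold Lgd
  apply div_le_div_of_nonneg_left (by positivity)
    (dn_pos (Or.inr ⟨hx0.ne', by rw [abs_of_pos hx0]; linarith⟩))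
  unfold dn
  have : Real.cosh (2 * Real.pi * s) ≤ Real.cosh (2 * Real.pi * s') := by
    rw [Real.cosh_le_cosh, abs_mul (2 * Real.pi), abs_mul (2 * Real.pi)]
    exact mul_le_mul_of_nonneg_left h (abs_nonneg _)
  linarith

/-- `Lgd` decreases in the position, right of its maximum. -/
theorem Lgd_anti_x {s x0 x : ℝ} (h0 : 0 < x0) (h : x0 ≤ x) (h1 : x ≤ 1 / 2)
    (hc : Real.cosh (2 * Real.pi * s) * Real.cos (2 * Real.pi * x0) ≤ 1) :
    Lgd s x ≤ Lgd s x0 := by
  have hpi := Real.pi_pos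
  have hx : 0 < x := by linarith
  have d0 : 0 < dn s x0 := dn_pos (Or.inr ⟨h0.ne', by rw [abs_of_pos h0]; linarith⟩)
  have d1 : 0 < dn s x := dn_pos (Or.inr ⟨hx.ne', by rw [abs_of_pos hx]; linarith⟩)
  unfold Lgd
  rw [div_le_div_iff₀ d1 d0]
  unfold dn
  set C := Real.cosh (2 * Real.pi * s) with hC
  have hC1 : 1 ≤ C := Real.one_le_cosh _
  set θ := 2 * Real.pi * x0 with hθ
  set δ := Real.pi * (x - x0) with hδ
  have e : 2 * Real.pi * x = θ + 2 * δ := by rw [hθ, hδ]; ring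
  have hδ0 : 0 ≤ δ := mul_nonneg hpi.le (by linarith)
  have hδ1 : δ ≤ Real.pi / 2 := by
    rw [hδ]
    nlinarith
  have hs0 : 0 ≤ Real.sin θ :=
    Real.sin_nonneg_of_nonneg_of_le_pi (by positivity) (by rw [hθ]; nlinarith)
  have hsd : 0 ≤ Real.sin δ := Real.sin_nonneg_of_nonneg_of_le_pi hδ0 (by linarith)
  have hcd : 0 ≤ Real.cos δ := Real.cos_nonneg_of_neg_pi_div_two_le_of_le (by linarith) hδ1
  have key : C * Real.cos (θ + δ) ≤ Real.cos δ := by
    rw [Real.cos_add]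
    have h2 : C * Real.cos θ * Real.cos δ ≤ 1 * Real.cos δ :=
      mul_le_mul_of_nonneg_right hc hcd
    have h3 : 0 ≤ C * (Real.sin θ * Real.sin δ) := by positivity
    nlinarith
  have e1 : Real.sin (θ + 2 * δ) - Real.sin θ = 2 * Real.cos (θ + δ) * Real.sin δ := by
    rw [Real.sin_sub_sin]
    rw [show (θ + 2 * δ - θ) / 2 = δ by ring, show (θ + 2 * δ + θ) / 2 = θ + δ by ring]
    ring
  have e2 : Real.sin (θ + 2 * δ) * Real.cos θ - Real.cos (θ + 2 * δ) * Real.sin θ =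
      2 * Real.sin δ * Real.cos δ := by
    rw [← Real.sin_sub, show θ + 2 * δ - θ = 2 * δ by ring, Real.sin_two_mul]
  rw [e]
  have h4 : C * (Real.sin (θ + 2 * δ) - Real.sin θ) ≤
      Real.sin (θ + 2 * δ) * Real.cos θ - Real.cos (θ + 2 * δ) * Real.sin θ := by
    rw [e1, e2]
    have := mul_le_mul_of_nonneg_right key (show 0 ≤ 2 * Real.sin δ by positivity)
    linarith
  have h5 := mul_le_mul_of_nonneg_left h4 hpi.le
  linarith

/-- Both together; also beyond `1/2`. -/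
theorem kap_le {s s0 x0 x : ℝ} (h0 : 0 < x0) (h : x0 ≤ x) (h1 : x ≤ 1) (hx0 : x0 ≤ 1 / 2)
    (hs : |s0| ≤ |s|) (hc : Real.cosh (2 * Real.pi * s0) * Real.cos (2 * Real.pi * x0) ≤ 1) :
    Lgd s x ≤ Lgd s0 x0 := by
  rcases le_total x (1 / 2) with h2 | h2
  · exact (Lgd_anti hs (by linarith) h2).trans (Lgd_anti_x h0 h h2 hc)
  · exact (Lgd_nonpos h2 h1).trans (Lgd_nonneg h0.le hx0)

theorem kap_le' {s x : ℝ} (h0 : 1 / 2 ≤ x) (h1 : x ≤ 1) : Lgd s x ≤ 0 := Lgd_nonpos h0 h1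

theorem Lgd_neg_s (s x : ℝ) : Lgd (-s) x = Lgd s x := by
  unfold Lgd dn
  rw [mul_neg, Real.cosh_neg]

theorem Vm_hasDerivAt {p : ℝ} (h0 : 0 < p) (h1 : p < 1) (H u : ℝ) :
    HasDerivAt (Vm p H) (u * Lgd (H - u) p) u := by
  have d1 := (gv_hasDerivAt h0 h1 (H - u)).comp u ((hasDerivAt_id' u).const_sub H)
  have d2 := (tv_hasDerivAt' h0 h1 (H - u)).comp u ((hasDerivAt_id' u).const_sub H)
  have d3 := ((hasDerivAt_const u (gv p H)).sub d1).sub (d2.mul (hasDerivAt_id' u))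
  refine (d3.congr_deriv ?_).congr_of_eventuallyEq ?_
  · simp only [Function.comp]
    ring
  · apply Eventually.of_forall
    intro u
    simp [Vm, Function.comp]

/-- Increment of `Vm`. -/
theorem Vm_incr {p H a b K : ℝ} (h0 : 0 < p) (h1 : p < 1) (ha : 0 ≤ a) (hab : a ≤ b)
    (hK : ∀ u, a ≤ u → u ≤ b → Lgd (H - u) p ≤ K) :
    Vm p H b - Vm p H a ≤ K / 2 * (b ^ 2 - a ^ 2) := by
  have hm : MonotoneOn (fun u => K / 2 * u ^ 2 - Vm p H u) (Icc a b) := by
    have hd : ∀ u, HasDerivAt (fun u => K / 2 * u ^ 2 - Vm p H u) (u * (K - Lgd (H - u) p)) u := by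
      intro u
      refine (((hasDerivAt_pow 2 u).const_mul (K / 2)).sub (Vm_hasDerivAt h0 h1 H u)).congr_deriv ?_
      push_cast
      ring
    apply monotoneOn_of_deriv_nonneg (convex_Icc a b)
    · exact fun u _ => (hd u).continuousAt.continuousWithinAt
    · exact fun u _ => (hd u).differentiableAt.differentiableWithinAt
    · intro u hu
      rw [interior_Icc] at hu
      rw [(hd u).deriv]
      exact mul_nonneg (by linarith [hu.1]) (by linarith [hK u hu.1.le hu.2.le])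
  have := hm ⟨le_rfl, hab⟩ ⟨hab, le_rfl⟩ hab
  simp only at this
  linarith

theorem Vm_zero (p H : ℝ) : Vm p H 0 = 0 := by simp [Vm]

/-- Two levels: `A` near the height `H`, `B` farther. -/
theorem Vm_le {p H N Nb d A B : ℝ} (h0 : 0 < p) (h1 : p < 1) (hN : 0 ≤ N) (hNb : N ≤ Nb)
    (hd : 0 ≤ d) (hdN : d ≤ Nb) (hA0 : 0 ≤ A) (hB0 : 0 ≤ B)
    (hA : ∀ u, 0 ≤ u → u ≤ d → u ≤ N → Lgd (H - u) p ≤ A)
    (hB : ∀ u, d ≤ u → u ≤ N → Lgd (H - u) p ≤ B) :
    Vm p H N ≤ (A * d ^ 2 + B * (Nb ^ 2 - d ^ 2)) / 2 := by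
  have hNd : 0 ≤ Nb ^ 2 - d ^ 2 := by nlinarith
  have k2 := mul_nonneg hB0 hNd
  rcases le_total N d with h | h
  · have h2 := Vm_incr (p := p) (H := H) h0 h1 le_rfl hN (fun u a b => hA u a (b.trans h) b)
    rw [Vm_zero] at h2
    have h3 : A * N ^ 2 ≤ A * d ^ 2 := mul_le_mul_of_nonneg_left (by nlinarith) hA0
    linarith
  · have h2 := Vm_incr (p := p) (H := H) h0 h1 le_rfl hd (fun u a b => hA u a b (b.trans h))
    have h3 := Vm_incr (p := p) (H := H) h0 h1 hd h (fun u a b => hB u a b)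
    rw [Vm_zero] at h2
    have h4 : B * (N ^ 2 - d ^ 2) ≤ B * (Nb ^ 2 - d ^ 2) :=
      mul_le_mul_of_nonneg_left (by nlinarith) hB0
    linarith

end Pool.Agent.S5.VK
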