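import Pool.Agent.S5.I.VKa

/-!
# Real `v`: the bounds of the parts
-/

set_option autoImplicit false

namespace Pool.Agent.S5.VK

open Pool.Agent.H63.VC3 Pool.Agent.S3 Pool.Agent.S5 MeasureTheory Filter Topology Set

theorem sin_pi_ne {x : ℝ} (h0 : 0 < x) (h1 : x < 1) : Real.sin (Real.pi * x) ≠ 0 := by
  have hpi := Real.pi_pos
  exact (Real.sin_pos_of_pos_of_lt_pi (by positivity) (by nlinarith)).ne'

theorem dn_pos' {s x : ℝ} (h0 : 0 < x) (h1 : x < 1) : 0 < dn s x :=
  dn_pos (Or.inr ⟨h0.ne', by rw [abs_of_pos h0]; exact h1⟩)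

/-- The difference of `Lg` at two heights decreases towards the middle. -/
theorem Ldiff {σ1 σ2 p p0 : ℝ} (hσ : |σ1| ≤ |σ2|) (h0 : 0 < p0) (h1 : p0 ≤ p) (h2 : p ≤ 1 - p0) :
    Lg σ2 p - Lg σ1 p ≤ Lg σ2 p0 - Lg σ1 p0 := by
  have hc := cos_le_mid (w0 := p0) (u := p) h0.le h1 h2
  have a1 : 0 < dn σ1 p := dn_pos' (by linarith) (by linarith)
  have a2 : 0 < dn σ2 p := dn_pos' (by linarith) (by linarith)
  have b1 : 0 < dn σ1 p0 := dn_pos' h0 (by linarith)
  have b2 : 0 < dn σ2 p0 := dn_pos' h0 (by linarith)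
  have hC : Real.cosh (2 * Real.pi * σ1) ≤ Real.cosh (2 * Real.pi * σ2) := by
    rw [Real.cosh_le_cosh, abs_mul (2 * Real.pi), abs_mul (2 * Real.pi)]
    exact mul_le_mul_of_nonneg_left hσ (abs_nonneg _)
  rw [Lg_eq_log, Lg_eq_log, Lg_eq_log, Lg_eq_log]
  have h3 : Real.log (2 * dn σ2 p) + Real.log (2 * dn σ1 p0) ≤
      Real.log (2 * dn σ2 p0) + Real.log (2 * dn σ1 p) := by
    rw [← Real.log_mul (by positivity) (by positivity),
      ← Real.log_mul (by positivity) (by positivity)]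
    apply Real.log_le_log (by positivity)
    unfold dn
    nlinarith
  linarith

theorem Lg_mono' {s1 s2 x : ℝ} (h : |s1| ≤ |s2|) (h0 : 0 < x) (h1 : x < 1) : Lg s1 x ≤ Lg s2 x :=
  Lg_mono h (sin_pi_ne h0 h1)

theorem Lg_symm (s x : ℝ) : Lg s (1 - x) = Lg s x := by
  rw [show 1 - x = -x + 1 by ring, Lg_add_one, Lg_neg]

/-- The defect at the sum. -/
theorem NDq {s u a : ℝ} (hu : 0 < u) (hu1 : u ≤ 545 / 1000) (h0 : 45 / 1000 ≤ a)
    (h1 : a ≤ 7 / 25) : -Dd s u (1 / 2 + a) ≤ Gp a := by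
  have hG := G_le s (a := a) (by linarith) h1
  unfold Dd
  rcases le_total u (1 / 2) with h | h
  · have h2 := Rf_tangent (s := s) (x := 1 / 2) (x0 := u) (by norm_num) le_rfl hu h
    rw [Rf_half] at h2
    have h3 := Lg_mono_re (s := s) hu h le_rfl
    have h4 := mul_le_mul_of_nonneg_right h3 (show 0 ≤ a by linarith)
    nlinarith
  · have h2 := Rf_tangent (s := s) (x := 1 - u) (x0 := 1 / 2) (by linarith) (by linarith)
      (by norm_num) le_rfl
    rw [Rf_half, sub_zero, Rf_one_sub_line] at h2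
    have h3 := Lg_mono_re (s := s) (show 0 < 1 - u by linarith) (show 1 - u ≤ 1 / 2 by linarith)
      le_rfl
    rw [Lg_symm] at h3
    have h4 := mul_le_mul_of_nonneg_right h3 (show 0 ≤ a - (u - 1 / 2) by linarith)
    nlinarith

theorem NDq' {s u a : ℝ} (hu : 0 < u) (hu1 : u ≤ 1 / 2) (h0 : 0 ≤ a) (h1 : a ≤ 7 / 25) :
    -Dd s u (1 / 2 + a) ≤ Gp a - Dd s u (1 / 2) := by
  have hG := G_le s (a := a) h0 h1
  have h3 := Lg_mono_re (s := s) hu hu1 le_rfl
  have h4 := mul_le_mul_of_nonneg_right h3 h0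
  unfold Dd
  have h5 := Rf_half s
  rw [h5]
  linarith

/-- `Dd s q (1/2)` decreases in `q` and in the height. -/
theorem Dd_half_mono {s σ q q' : ℝ} (hs : |s| ≤ |σ|) (h0 : 0 < q) (h1 : q ≤ q')
    (h2 : q' ≤ 1 / 2) : Dd σ q' (1 / 2) ≤ Dd s q (1 / 2) := by
  have m3 : Dd σ q' (1 / 2) ≤ Dd s q' (1 / 2) := by
    rw [Dd_eq, Dd_eq]
    apply intervalIntegral.integral_mono_on h2
    · exact (Lg_integrable _ _ _).sub (by simp)
    · exact (Lg_integrable _ _ _).sub (by simp)
    · intro u hu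
      have := Ldiff (σ1 := s) (σ2 := σ) (p := u) (p0 := q') hs (by linarith) hu.1
        (by linarith [hu.2])
      linarith
  have e : Dd s q (1 / 2) = Dd s q' (1 / 2) + Dd s q q' + (Lg s q' - Lg s q) * (1 / 2 - q') := by
    unfold Dd
    ring
  have k1 : 0 ≤ Dd s q q' := Dd_nonneg_right h0 h1 (by linarith)
  have k2 := mul_nonneg (sub_nonneg.2 (Lg_mono_re (s := s) h0 h1 h2))
    (show 0 ≤ 1 / 2 - q' by linarith)
  linarith

/-- The defect at the edge for `t ≥ 11/25`. -/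
theorem D0_hi {s w0 w v m μ : ℝ} (hv : v ≤ 1 / 2) (h1 : 6 / 100 ≤ w0) (h2 : w0 ≤ v)
    (h3 : 0 ≤ w) (h4 : w ≤ 6 / 100) (hm : 0 ≤ m) (hmu : m ≤ Lgd s (6 / 100)) (hmv : m ≤ Lgd s v)
    (hμ : μ ≤ Lgd s (6 / 100)) :
    m * (w0 - w) ^ 2 - (m - 2 / 3 * μ) * (6 / 100 - w) ^ 2 ≤ 2 * Dd s w0 w := by
  have k1 := VB.Dd_ge_box (s := s) (w0 := w0) (w := 6 / 100) (u := 6 / 100) (v := v) (m := m)
    (by norm_num) hv h1 h2 le_rfl (by linarith) hm hmu hmv
  have k2 := Dd_ge (s := s) (w0 := 6 / 100) (w := w) (by norm_num) (by norm_num) (by linarith) h4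
  have k3 := VB.Lg_sub_ge (s := s) (u := 6 / 100) (w0 := w0) (v := v) (m := m) (by norm_num) hv h1
    h2 hm hmu hmv
  have k4 : Dd s w0 w = Dd s w0 (6 / 100) + Dd s (6 / 100) w +
      (Lg s w0 - Lg s (6 / 100)) * (6 / 100 - w) := by
    unfold Dd
    ring
  have k5 : μ * ((6 / 100 - w) ^ 2 / 3) ≤
      Lgd s (6 / 100) / (2 * (6 / 100)) * ((6 / 100 - w) ^ 2 * (2 * (6 / 100) + w) / 3) := by
    have e : Lgd s (6 / 100) / (2 * (6 / 100)) * ((6 / 100 - w) ^ 2 * (2 * (6 / 100) + w) / 3) =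
        Lgd s (6 / 100) * ((6 / 100 - w) ^ 2 / 3) + Lgd s (6 / 100) * ((6 / 100 - w) ^ 2 / 3) *
          (w / (12 / 100)) := by
      ring
    rw [e]
    have a1 : 0 ≤ Lgd s (6 / 100) := hm.trans hmu
    have a2 : μ * ((6 / 100 - w) ^ 2 / 3) ≤ Lgd s (6 / 100) * ((6 / 100 - w) ^ 2 / 3) :=
      mul_le_mul_of_nonneg_right hμ (by positivity)
    have a3 : 0 ≤ Lgd s (6 / 100) * ((6 / 100 - w) ^ 2 / 3) * (w / (12 / 100)) := by positivity
    linarith
  have k6 := mul_le_mul_of_nonneg_right k3 (show 0 ≤ 6 / 100 - w by linarith)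
  rw [k4]
  nlinarith

/-! ### Convexity in the height -/

theorem dn_hasDerivAt_s (s x : ℝ) :
    HasDerivAt (fun s => dn s x) (2 * Real.pi * Real.sinh (2 * Real.pi * s)) s := by
  have h := ((Real.hasDerivAt_cosh (2 * Real.pi * s)).comp s
    ((hasDerivAt_id' s).const_mul (2 * Real.pi))).sub_const (Real.cos (2 * Real.pi * x))
  refine h.congr_deriv ?_
  ring

/-- The derivative of `Lg` in the height. -/
noncomputable def mu (s x : ℝ) : ℝ := Real.pi * Real.sinh (2 * Real.pi * s) / dn s x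

theorem Lg_hasDerivAt_s {s x : ℝ} (h0 : 0 < x) (h1 : x < 1) :
    HasDerivAt (fun s => Lg s x) (mu s x) s := by
  have hp : 0 < dn s x := dn_pos' h0 h1
  have e : (fun s => Lg s x) = fun s => Real.log (2 * dn s x) / 2 :=
    funext fun s => Lg_eq_log s x
  rw [e]
  have h2 := (((dn_hasDerivAt_s s x).const_mul 2).log (by positivity)).div_const 2
  refine h2.congr_deriv ?_
  unfold mu
  field_simp

theorem mu_mono {x s s' S : ℝ} (h0 : 0 < x) (h1 : x < 1) (hs : 0 ≤ s) (h : s ≤ s') (hS : s' ≤ S)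
    (hc : Real.cosh (2 * Real.pi * S) * Real.cos (2 * Real.pi * x) ≤ 1) : mu s x ≤ mu s' x := by
  have hpi := Real.pi_pos
  unfold mu
  rw [div_le_div_iff₀ (dn_pos' h0 h1) (dn_pos' h0 h1)]
  unfold dn
  set k := Real.cos (2 * Real.pi * x) with hk
  set a := Real.pi * s with ha
  set d := Real.pi * (s' - s) with hd
  have ha0 : 0 ≤ a := by positivity
  have hd0 : 0 ≤ d := mul_nonneg hpi.le (by linarith)
  have e1 : 2 * Real.pi * s = 2 * a := by rw [ha]; ring
  have e2 : 2 * Real.pi * s' = 2 * a + 2 * d := by rw [ha, hd]; ring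
  have key : k * Real.cosh (2 * a + d) ≤ Real.cosh d := by
    rcases le_total k 0 with h3 | h3
    · have := Real.cosh_pos (2 * a + d)
      have := Real.cosh_pos d
      nlinarith
    · have h4 : Real.cosh (2 * a + d) ≤ Real.cosh (2 * Real.pi * S) := by
        rw [Real.cosh_le_cosh, abs_of_nonneg (by positivity), abs_of_nonneg (by
          have : 0 ≤ S := by linarith
          positivity)]
        rw [ha, hd]
        nlinarith
      have h5 := mul_le_mul_of_nonneg_left h4 h3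
      have h6 := Real.one_le_cosh d
      linarith
  have f1 : Real.sinh (2 * a + 2 * d) * Real.cosh (2 * a) -
      Real.cosh (2 * a + 2 * d) * Real.sinh (2 * a) = 2 * Real.sinh d * Real.cosh d := by
    rw [← Real.sinh_sub, show 2 * a + 2 * d - 2 * a = 2 * d by ring, Real.sinh_two_mul]
  have f2 : Real.sinh (2 * a + 2 * d) - Real.sinh (2 * a) =
      2 * Real.cosh (2 * a + d) * Real.sinh d := by
    have g1 : Real.sinh (2 * a + 2 * d) = Real.sinh ((2 * a + d) + d) := by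
      congr 1
      ring
    have g2 : Real.sinh (2 * a) = Real.sinh ((2 * a + d) - d) := by
      congr 1
      ring
    rw [g1, g2, Real.sinh_add, Real.sinh_sub]
    ring
  have hsd : 0 ≤ Real.sinh d := Real.sinh_nonneg_iff.2 hd0
  rw [e1, e2]
  have h7 : k * (Real.sinh (2 * a + 2 * d) - Real.sinh (2 * a)) ≤
      Real.sinh (2 * a + 2 * d) * Real.cosh (2 * a) -
        Real.cosh (2 * a + 2 * d) * Real.sinh (2 * a) := by
    rw [f1, f2]
    have := mul_le_mul_of_nonneg_right key (show 0 ≤ 2 * Real.sinh d by positivity)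
    linarith
  have h8 := mul_le_mul_of_nonneg_left h7 hpi.le
  linarith

/-- Convexity of `Lg` in the height. -/
theorem Lg_convex {x S : ℝ} (h0 : 0 < x) (h1 : x < 1)
    (hc : Real.cosh (2 * Real.pi * S) * Real.cos (2 * Real.pi * x) ≤ 1) :
    ConvexOn ℝ (Icc 0 S) fun s => Lg s x := by
  apply MonotoneOn.convexOn_of_deriv (convex_Icc 0 S)
  · exact fun s _ => (Lg_hasDerivAt_s h0 h1).continuousAt.continuousWithinAt
  · exact fun s _ => (Lg_hasDerivAt_s h0 h1).differentiableAt.differentiableWithinAt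
  · intro s hs s' hs' h
    rw [interior_Icc] at hs hs'
    rw [(Lg_hasDerivAt_s h0 h1).deriv, (Lg_hasDerivAt_s h0 h1).deriv]
    exact mu_mono h0 h1 hs.1.le h hs'.2.le hc

/-- The increment in the height, from `H ≤ h1`, `N ≤ 88/1000`. -/
theorem c_le {x H N h1 : ℝ} (h0 : 0 < x) (hx : x < 1) (hH : 0 ≤ H) (hH1 : H ≤ h1) (hN : 0 ≤ N)
    (hN1 : N ≤ 88 / 1000)
    (hc : Real.cosh (2 * Real.pi * (h1 + 9 / 100)) * Real.cos (2 * Real.pi * x) ≤ 1) :
    Lg (H + N) x - Lg H x ≤ 44 / 45 * (Lg (h1 + 9 / 100) x - Lg h1 x) := by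
  have hm : ∀ s s' S : ℝ, 0 ≤ s → s ≤ s' → S ≤ h1 + 9 / 100 → s' ≤ S → mu s x ≤ mu s' x := by
    intro s s' S a b c d
    refine mu_mono h0 hx a b (d.trans c) hc
  -- first `H` to `h1`
  have k1 : Lg (H + N) x - Lg H x ≤ Lg (h1 + N) x - Lg h1 x := by
    have hmo : MonotoneOn (fun s => Lg (s + N) x - Lg s x) (Icc H h1) := by
      have hd : ∀ s, HasDerivAt (fun s => Lg (s + N) x - Lg s x) (mu (s + N) x - mu s x) s := by
        intro s
        have d1 := (Lg_hasDerivAt_s (s := s + N) h0 hx).comp s ((hasDerivAt_id' s).add_const N)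
        have d2 := d1.sub (Lg_hasDerivAt_s (s := s) h0 hx)
        refine d2.congr_deriv ?_
        ring
      apply monotoneOn_of_deriv_nonneg (convex_Icc _ _)
      · exact fun u _ => (hd u).continuousAt.continuousWithinAt
      · exact fun u _ => (hd u).differentiableAt.differentiableWithinAt
      · intro u hu
        rw [interior_Icc] at hu
        rw [(hd u).deriv]
        have := hm u (u + N) (u + N) (by linarith [hu.1]) (by linarith) (by linarith [hu.2]) le_rfl
        linarith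
    exact hmo ⟨le_rfl, hH1⟩ ⟨hH1, le_rfl⟩ hH1
  have hcv := Lg_convex h0 hx hc
  have h10 : 0 ≤ h1 := by linarith
  have k2 := hcv.2 (show h1 ∈ Icc 0 (h1 + 9 / 100) from ⟨h10, by linarith⟩)
    (show h1 + 9 / 100 ∈ Icc 0 (h1 + 9 / 100) from ⟨by linarith, le_rfl⟩)
    (show 0 ≤ 1 - N / (9 / 100) by
      rw [sub_nonneg, div_le_one (by norm_num)]
      linarith) (show 0 ≤ N / (9 / 100) by positivity) (by ring)
  simp only [smul_eq_mul] at k2
  rw [show (1 - N / (9 / 100)) * h1 + N / (9 / 100) * (h1 + 9 / 100) = h1 + N by ring] at k2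
  have k3 : 0 ≤ Lg (h1 + 9 / 100) x - Lg h1 x := by
    have := Lg_mono' (s1 := h1) (s2 := h1 + 9 / 100) (x := x) (by
      rw [abs_of_nonneg h10, abs_of_nonneg (by linarith)]
      linarith) h0 hx
    linarith
  have k4 : N / (9 / 100) * (Lg (h1 + 9 / 100) x - Lg h1 x) ≤
      44 / 45 * (Lg (h1 + 9 / 100) x - Lg h1 x) := by
    apply mul_le_mul_of_nonneg_right _ k3
    rw [div_le_iff₀ (by norm_num)]
    linarith
  linarith

/-! ### Monotonicity of the defect at the difference -/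

/-- `Dd s p w` for `w ≤ p ≤ 1/2`: increasing in `p`, decreasing in `w` and in the height. -/
theorem Dd_mono {s σ p p0 w w1 : ℝ} (hs : |s| ≤ |σ|) (h0 : 0 ≤ w) (hw : w ≤ w1) (hp : w1 ≤ p0)
    (hpp : p0 ≤ p) (hp1 : p ≤ 1 / 2) (hp0 : 0 < p0) : Dd σ p0 w1 ≤ Dd s p w := by
  have m1 : ∀ s w p : ℝ, 0 ≤ w → w ≤ p → p ≤ 1 / 2 → 0 < p → ∀ w', w' ≤ w → 0 ≤ w' →
      Dd s p w ≤ Dd s p w' := by
    intro s w p a b c d w' e f
    have h1 := Dd_sub s p w' w
    have h2 : 0 ≤ ∫ u in w'..w, (Lg s p - Lg s u) := by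
      apply intervalIntegral.integral_nonneg_of_ae_restrict e
      rw [EventuallyLE, ae_restrict_iff' measurableSet_Icc]
      have h3 : ∀ᵐ u ∂(volume : Measure ℝ), u ≠ 0 := by
        simp [ae_iff, measure_singleton]
      filter_upwards [h3] with u hu0 hu
      have : 0 < u := lt_of_le_of_ne (f.trans hu.1) (Ne.symm hu0)
      have := Lg_mono_re (s := s) this (hu.2.trans b) c
      simp only [Pi.zero_apply]
      linarith
    have h4 : ∫ u in w'..w, (Lg s p - Lg s u) = -∫ u in w'..w, (Lg s u - Lg s p) := by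
      rw [← intervalIntegral.integral_neg]
      refine intervalIntegral.integral_congr fun u _ => ?_
      ring
    linarith
  have m2 : ∀ s p p0 w : ℝ, 0 ≤ w → w ≤ p0 → p0 ≤ p → p ≤ 1 / 2 → 0 < p0 →
      Dd s p0 w ≤ Dd s p w := by
    intro s p p0 w a b c d e
    have h1 : Dd s p w = Dd s p p0 + Dd s p0 w + (Lg s p - Lg s p0) * (p0 - w) := by
      unfold Dd
      ring
    have h2 : 0 ≤ Dd s p p0 := by
      have := Dd_nonneg_left (s := s) (w0 := p) (w := p0) (by linarith) d (by linarith)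
        (by linarith) c
      exact this
    have h3 := Lg_mono_re (s := s) e c d
    have h4 := mul_nonneg (sub_nonneg.2 h3) (sub_nonneg.2 b)
    linarith
  have m3 : Dd σ p0 w1 ≤ Dd s p0 w1 := by
    rw [Dd_eq', Dd_eq']
    apply intervalIntegral.integral_mono_ae_restrict hp
    · exact (by simp : IntervalIntegrable (fun _ => Lg σ p0) volume w1 p0).sub
        (Lg_integrable _ _ _)
    · exact (by simp : IntervalIntegrable (fun _ => Lg s p0) volume w1 p0).sub
        (Lg_integrable _ _ _)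
    · rw [EventuallyLE, ae_restrict_iff' measurableSet_Icc]
      have h3 : ∀ᵐ u ∂(volume : Measure ℝ), u ≠ 0 := by
        simp [ae_iff, measure_singleton]
      filter_upwards [h3] with u hu0 hu
      have hu1 : 0 < u := lt_of_le_of_ne (by linarith [hu.1]) (Ne.symm hu0)
      have := Ldiff (σ1 := s) (σ2 := σ) (p := p0) (p0 := u) hs hu1 hu.2 (by linarith [hu.2])
      linarith
  exact m3.trans ((m2 s p p0 w1 (by linarith) hp hpp hp1 hp0).trans
    (m1 s w1 p (by linarith) (by linarith) hp1 (by linarith) w hw h0))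

end Pool.Agent.S5.VK
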