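import Pool.Agent.S5.I.Tc

/-!
# Real `v`: the test of a cell

Positions in units of `1 / 200`, values in units of `2 ^ (-20)`.
-/

set_option autoImplicit false

namespace Pool.Agent.S5.VK

open Pool.Agent.S5.Tb

def sP : Nat := 0xf4240f4053f3a8bf30eaf2373f1228efd0fee42dec787ea726e8311e5b51e2ff0e00fbdce7bd987fd5f13d2246ce228c9ec9c5839c0e8bbc1d1b721fb1f89aca23a7203a17409b9f095a2b8f809893a382d137c471759da6ed6667f3360f5c59dfd52b324b719441cf3cb723541f2dbf5263121e99516f9c0f54707ab300000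
def cP : Nat := 0x3070b77a41eb8aedda35b6c156358d88a8ae8d28db686c833ce309b5904c33e65674525f0490785c70e8a2f96d13a3587e07c308ce1192905b23816ea40126dfbedefbe457d08b3e1f69ee514f61227a9cebd27dde885cf4240

/-- `sin (pi i / 100)`, units `10 ^ (-6)`, `i ≤ 50`. -/
def sT (i : Nat) : Nat := Nat.mod (Nat.shiftRight sP (Nat.mul 20 i)) 1048576
/-- `cosh (pi j / 100)`, units `10 ^ (-6)`, `j ≤ 33`. -/
def cT (j : Nat) : Nat := Nat.mod (Nat.shiftRight cP (Nat.mul 21 j)) 2097152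

/-- Upper bound of `Lgd (j / 200) (i / 200)`, `12 ≤ i ≤ 100`. -/
def kU (i j : Nat) : Nat :=
  cond (Nat.ble i 50)
    (Nat.succ (Nat.div (Nat.mul 3294199 (Nat.add (sT i) 8))
      (Nat.sub (cT j) (Nat.add (sT (Nat.sub 50 i)) 10))))
    (Nat.succ (Nat.div (Nat.mul 3294199 (Nat.add (sT (Nat.sub 100 i)) 8))
      (Nat.sub (Nat.add (cT j) (sT (Nat.sub i 50))) 10)))

/-- Lower bound of `Lgd (j / 200) (i / 200)`. -/
def kL (i j : Nat) : Nat :=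
  cond (Nat.ble i 50)
    (Nat.div (Nat.mul 3294198 (Nat.sub (sT i) 8))
      (Nat.sub (Nat.add (cT j) 10) (sT (Nat.sub 50 i))))
    (Nat.div (Nat.mul 3294198 (Nat.sub (sT (Nat.sub 100 i)) 8))
      (Nat.add (Nat.add (cT j) (sT (Nat.sub i 50))) 10))

/-- `cosh (2 pi j / 200) cos (2 pi i / 200) ≤ 1`. -/
def cnd (i j : Nat) : Bool :=
  cond (Nat.ble 50 i) true
    (Nat.ble (Nat.mul (Nat.add (cT j) 2) (Nat.add (sT (Nat.sub 50 i)) 8)) 1000000000000)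

/-- `Gp (b / 1000)`. -/
def gq (b : Nat) : Nat :=
  Nat.succ (Nat.div (Nat.mul 1048576 (Nat.add (Nat.add
    (Nat.mul 1644950000000000000 (Nat.mul b (Nat.mul b b)))
    (Nat.mul 2435228000000 (Nat.mul (Nat.mul b b) (Nat.mul b (Nat.mul b b)))))
    (Nat.mul 14008830 (Nat.mul (Nat.mul (Nat.mul b b) (Nat.mul b b)) (Nat.mul b (Nat.mul b b))))))
    1000000000000000000000000000)

/-- `Lg + 8`, positions up to `200`. -/
def lq (i j : Nat) : Nat := lE (ent (cond (Nat.ble i 100) i (Nat.sub 200 i)) j)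

/-- One level of the quadratic part: `A` on the distance `d`, `B` beyond. -/
def vv (A B d Nb : Nat) : Nat :=
  Nat.add (Nat.mul A (Nat.mul d d)) (Nat.mul B (Nat.sub (Nat.mul Nb Nb) (Nat.mul d d)))

/-- A candidate for `H ≤ 0`. -/
def vn (K0 p0 s1 h0 Nb : Nat) : Nat :=
  fN (fun d => cond (cond (cnd p0 s1) (Nat.ble d Nb) false) (vv K0 (kU p0 s1) d Nb)
    (vv K0 K0 0 Nb)) (Nat.mul 5 (Nat.sub s1 h0))

/-- The quadratic part at the difference, `H ≤ 0`; units `10 ^ (-6) 2 ^ (-20) / 2`. -/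
def vN (K0 p0 h0 Nb : Nat) : Nat :=
  mn (mn (vn K0 p0 10 h0 Nb) (vn K0 p0 14 h0 Nb)) (vn K0 p0 h0 h0 Nb)

/-- The quadratic part at the difference, `H ≥ 0`. -/
def vP (K0 p0 h0 h1 : Nat) : Nat :=
  cond (cnd p0 9)
    (fN (fun K1 => mn
      (cond (Nat.ble h0 9) (vv K0 K0 0 88) (vv K1 K0 (Nat.mul 5 (Nat.sub h0 9)) 88))
      (cond (Nat.ble (Nat.mul 5 (Nat.add h1 9)) 88) (vv K0 K1 (Nat.mul 5 (Nat.add h1 9)) 88)
        (vv K0 K0 0 88))) (kU p0 9))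
    (vv K0 K0 0 88)

/-- The upper bound of `a + c` for the side `t ≥ T`. -/
def hiN (p0 qm h0 h1 : Nat) : Nat :=
  Nat.add (Nat.sub (Nat.add (lE (ent p0 (mn (Nat.add h1 18) 33))) 8) (lE (ent p0 h0)))
    (cond (Nat.ble 9 h0) 0 (Nat.sub (Nat.add (lE (ent qm (Nat.sub 18 h0))) 8) (lE (ent qm h0))))
def loN (qm h1 : Nat) : Nat := Nat.sub (Nat.add (lE (ent qm h1)) 8) (lE (ent qm 0))
def hiP (p0 qm h0 h1 : Nat) : Nat :=
  Nat.add (cond (Nat.ble 9 h0) 0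
      (Nat.sub (Nat.add (lE (ent p0 (Nat.sub 18 h0))) 8) (lE (ent p0 h0))))
    (Nat.succ (Nat.div (Nat.mul (Nat.sub (Nat.add (lE (ent qm (Nat.add h1 18))) 8)
      (lE (ent qm h1))) 44) 45))
def loP (p0 h0 h1 : Nat) : Nat :=
  Nat.sub (Nat.add (lE (ent p0 h1)) 8) (lE (ent p0 (Nat.sub h0 18)))

/-- The defect at the difference. -/
def dm (p0 w h1 : Nat) : Nat :=
  cond (Nat.ble p0 w) 0
    (Nat.div (Nat.sub (Nat.add (Nat.mul 200 (qE (ent p0 h1)))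
        (Nat.mul (Nat.sub p0 w) (lE (ent p0 h1))))
      (Nat.add (Nat.mul 200 (qE (ent w h1))) (Nat.add 14000 (Nat.mul 8388608 (Nat.sub p0 w)))))
      200)

/-- The defect at the sum, up to `1/2`. -/
def dq (q1 h1 : Nat) : Nat :=
  cond (Nat.ble 100 q1) 0
    (Nat.div (Nat.sub (Nat.add (Nat.mul 200 (qE (ent q1 h1))) (Nat.mul 8388608 (Nat.sub 100 q1)))
      (Nat.add 7000 (Nat.mul (Nat.sub 100 q1) (lE (ent q1 h1))))) 200)

/-- The maximum of `D δ - k δ ^ 2`, `δ` between `a / 1000` and `b / 1000`: the test `A + max ≤ B`. -/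
def sf (D k a b A B : Nat) : Bool :=
  cond (Nat.ble (Nat.mul 1000 D) (Nat.mul (Nat.mul 2 k) a))
    (Nat.ble (Nat.add A (Nat.succ (Nat.div (Nat.mul D a) 1000)))
      (Nat.add B (Nat.div (Nat.mul k (Nat.mul a a)) 1000000)))
    (cond (Nat.ble (Nat.mul (Nat.mul 2 k) b) (Nat.mul 1000 D))
      (Nat.ble (Nat.add A (Nat.succ (Nat.div (Nat.mul D b) 1000)))
        (Nat.add B (Nat.div (Nat.mul k (Nat.mul b b)) 1000000)))
      (Nat.ble (Nat.add A (Nat.succ (Nat.div (Nat.mul D D) (Nat.mul 4 k)))) B))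

/-- Both sides. -/
def sb (hi L k T0m T1m t0 t1 A B : Nat) : Bool :=
  cond
    (cond (Nat.ble T0m (Nat.mul 5 t1))
      (sf hi k (Nat.sub (Nat.mul 5 t0) T1m) (Nat.sub (Nat.mul 5 t1) T0m) A B) true)
    (cond (Nat.ble (Nat.mul 5 t0) T1m)
      (sf L k (Nat.sub T0m (Nat.mul 5 t1)) (Nat.sub T1m (Nat.mul 5 t0)) A B) true) false

/-- The correction for `t ≥ 11/25`. -/
def e4 (k0 h1 t1 : Nat) : Nat :=
  cond (Nat.ble t1 88) 0
    (Nat.succ (Nat.div (Nat.mul (Nat.sub (Nat.mul 3 k0) (Nat.mul 2 (kL 12 h1)))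
      (Nat.mul (Nat.sub t1 88) (Nat.sub t1 88))) 120000))

/-- The test, after the reduction of the cell. -/
def lg (m2 ex : Nat) (neg : Bool) (p0 p1 X0 X1 h0 h1 t0 t1 : Nat) : Bool :=
  fN (fun Nb => fN (fun q0 => fN (fun q1 => fN (fun T0 => fN (fun T1 =>
  fN (fun K0 => fN (fun V => fN (fun k0 => fN (fun qm => fN (fun J =>
  fN (fun A => fN (fun B => fN (fun hi => fN (fun L =>
    sb hi L k0 (Nat.mul 5 T0) (mn 342 (Nat.mul 5 T1)) t0 t1 A B)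
  (cond neg (loN qm h1) (loP p0 h0 h1)))
  (cond neg (hiN p0 qm h0 h1) (hiP p0 qm h0 h1)))
  (Nat.add (Nat.div (Nat.mul (Nat.sub 56 X1) J) 200)
    (Nat.add (dm p0 (Nat.sub t1 56) h1) (dq q1 h1))))
  (Nat.add (Nat.add (Nat.succ (Nat.div V 2000000)) (gq (Nat.sub (Nat.mul 5 t1) 220)))
    (Nat.add (Nat.succ (e4 k0 h1 t1)) ex)))
  (Nat.sub (cond (Nat.ble q1 100) (lq q0 h1) (mn (lq q0 h1) (lq q1 h1)))
    (Nat.add (lE (ent p1 h1)) 8)))
  (cond (Nat.ble q1 100) q0 (mn q0 (Nat.sub 200 q1))))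
  (mn (kL (Nat.sub 100 (mx T1 (mn t1 88))) h1) (kL (Nat.sub 100 (mn T0 (mn t0 88))) h1)))
  (Nat.add (cond neg (vN K0 p0 h0 Nb) (vP K0 p0 h0 h1))
    (Nat.mul (Nat.add (cond (Nat.ble 100 q0) 0 (kU q0 (cond neg 0 h0))) m2) (Nat.mul Nb Nb))))
  (kU p0 0))
  (mn 69 (Nat.add p1 X1))) (mx 49 (Nat.add p0 X0)))
  (mn 109 (Nat.add p1 (Nat.mul 2 X1))))
  (mx (Nat.add p0 (Nat.mul 2 X0)) (Nat.add 49 X0)))
  (cond neg (mn 88 (Nat.sub 165 (Nat.mul 5 h0))) 88)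

/-- The test. -/
def lf (m2 ex : Nat) (neg : Bool) (p0 p1 X0 X1 h0 h1 t0 t1 : Nat) : Bool :=
  fN (fun X1 => fN (fun X0 => fN (fun a0 => fN (fun a1 =>
    cond (Nat.ble (Nat.succ X1) X0) true (cond (Nat.ble (Nat.succ a1) a0) true
      (lg m2 ex neg a0 a1 X0 X1 h0 h1 t0 t1)))
    (mn p1 (mn (Nat.sub 69 X0) (Nat.sub 109 (Nat.mul 2 X0)))))
    (mx p0 (Nat.sub 49 X1)))
    (mx X0 (Nat.sub 49 p1)))
    (mn X1 (mn (Nat.sub 69 p0) (Nat.div (Nat.sub 110 p0) 2)))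

/-- Branch and bound. -/
def bv (m2 ex : Nat) (neg : Bool) (n : Nat) :
    Nat → Nat → Nat → Nat → Nat → Nat → Nat → Nat → Bool :=
  Nat.rec (fun _ _ _ _ _ _ _ _ => false)
    (fun _ ih p0 p1 X0 X1 h0 h1 t0 t1 =>
      cond (lf m2 ex neg p0 p1 X0 X1 h0 h1 t0 t1) true
        (fN (fun a => fN (fun b => fN (fun c => fN (fun d =>
          cond (cond (Nat.ble b a) (cond (Nat.ble c a) (Nat.ble d a) false) false)
            (fN (fun m => cond (ih p0 m X0 X1 h0 h1 t0 t1) (ih m p1 X0 X1 h0 h1 t0 t1) false)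
              (Nat.div (Nat.add p0 p1) 2))
            (cond (cond (Nat.ble c b) (Nat.ble d b) false)
              (fN (fun m => cond (ih p0 p1 X0 m h0 h1 t0 t1) (ih p0 p1 m X1 h0 h1 t0 t1) false)
                (Nat.div (Nat.add X0 X1) 2))
              (cond (Nat.ble d c)
                (fN (fun m => cond (ih p0 p1 X0 X1 h0 m t0 t1) (ih p0 p1 X0 X1 m h1 t0 t1) false)
                  (Nat.div (Nat.add h0 h1) 2))
                (fN (fun m => cond (ih p0 p1 X0 X1 h0 h1 t0 m) (ih p0 p1 X0 X1 h0 h1 m t1) false)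
                  (Nat.div (Nat.add t0 t1) 2)))))
          (Nat.sub t1 t0)) (Nat.sub h1 h0)) (Nat.sub X1 X0)) (Nat.sub p1 p0))) n

end Pool.Agent.S5.VK
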