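import Pool.Agent.S5.I.VKb
import Pool.Agent.S5.I.VKt
import Pool.Agent.S5.I.TbOK
import Pool.Agent.S5.I.Ts
import Pool.Agent.S5.I.VB6

/-!
# Real `v`: the tables
-/

set_option autoImplicit false

namespace Pool.Agent.S5.VK

open Pool.Agent.H63.VC3 Pool.Agent.S3 Pool.Agent.S5 Pool.Agent.S5.Tb MeasureTheory Filter Topology
  Set

theorem fN_eq {α : Type} (f : ℕ → α) (n : ℕ) : fN f n = f n := by
  cases n <;> rfl

theorem div_up (A B : ℕ) (hB : 0 < B) : (A : ℝ) / B ≤ (Nat.succ (Nat.div A B) : ℕ) := by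
  have hB' : (0 : ℝ) < B := by exact_mod_cast hB
  rw [div_le_iff₀ hB']
  have h : A < (Nat.succ (A / B)) * B := by
    have := Nat.div_add_mod A B
    have := Nat.mod_lt A hB
    rw [Nat.succ_mul, mul_comm]
    omega
  exact_mod_cast h.le

theorem div_dn (A B : ℕ) : ((Nat.div A B : ℕ) : ℝ) ≤ (A : ℝ) / B := Nat.cast_div_le

/-! ### Sine and cosine -/

def ck1 (i : ℕ) : Bool :=
  Nat.ble (sT i * (5040 * 10 ^ 56) +
      10 ^ 6 * (840 * (3141592 * i) ^ 3 * 10 ^ 32 + (3141592 * i) ^ 7))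
    (10 ^ 6 * (5040 * (3141592 * i) * 10 ^ 48 + 42 * (3141592 * i) ^ 5 * 10 ^ 16) +
      8 * (5040 * 10 ^ 56))

def ck2 (i : ℕ) : Bool :=
  Nat.ble (10 ^ 6 * (362880 * (3141593 * i) * 10 ^ 64 + 3024 * (3141593 * i) ^ 5 * 10 ^ 32 +
      (3141593 * i) ^ 9))
    ((sT i + 8) * (362880 * 10 ^ 72) + 10 ^ 6 * (60480 * (3141593 * i) ^ 3 * 10 ^ 48 +
      72 * (3141593 * i) ^ 7 * 10 ^ 16))

def ck3 (i : ℕ) : Bool :=
  Nat.ble (sT (50 - i) * (720 * 10 ^ 48) +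
      10 ^ 6 * (360 * (3141593 * i) ^ 2 * 10 ^ 32 + (3141593 * i) ^ 6))
    (10 ^ 6 * (720 * 10 ^ 48 + 30 * (3141593 * i) ^ 4 * 10 ^ 16) + 8 * (720 * 10 ^ 48))

def ck4 (i : ℕ) : Bool :=
  Nat.ble (10 ^ 6 * (40320 * 10 ^ 64 + 1680 * (3141592 * i) ^ 4 * 10 ^ 32 + (3141592 * i) ^ 8))
    ((sT (50 - i) + 8) * (40320 * 10 ^ 64) + 10 ^ 6 * (20160 * (3141592 * i) ^ 2 * 10 ^ 48 +
      56 * (3141592 * i) ^ 6 * 10 ^ 16))

theorem ck_all : ∀ i, i < 26 → (ck1 i && ck2 i && ck3 i && ck4 i) = true := by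
  decide +kernel

theorem sin_small {i : ℕ} (hi : i ≤ 25) :
    |Real.sin (Real.pi * (i / 100)) * 1000000 - sT i| ≤ 8 := by
  have h := ck_all i (by omega)
  simp only [Bool.and_eq_true] at h
  obtain ⟨⟨⟨h1, h2⟩, -⟩, -⟩ := h
  have p1 := Real.pi_lt_d6
  have p2 := Real.pi_gt_d6
  have hi0 : (0 : ℝ) ≤ i := Nat.cast_nonneg i
  have hi1 : (i : ℝ) ≤ 25 := by exact_mod_cast hi
  rw [abs_le]
  constructor
  · have h3 := Nat.le_of_ble_eq_true h1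
    have h4 : ((sT i * (5040 * 10 ^ 56) +
      10 ^ 6 * (840 * (3141592 * i) ^ 3 * 10 ^ 32 + (3141592 * i) ^ 7) : ℕ) : ℝ) ≤
      ((10 ^ 6 * (5040 * (3141592 * i) * 10 ^ 48 + 42 * (3141592 * i) ^ 5 * 10 ^ 16) +
      8 * (5040 * 10 ^ 56) : ℕ) : ℝ) := by exact_mod_cast h3
    push_cast at h4
    obtain ⟨y, hy⟩ : ∃ y : ℝ, y = 3141592 * i / 10 ^ 8 := ⟨_, rfl⟩
    have hy0 : 0 ≤ y := by rw [hy]; positivity
    have h5 := VB.tr_s7 hy0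
    have h6 : Real.sin y ≤ Real.sin (Real.pi * (i / 100)) := by
      apply Real.sin_le_sin_of_le_of_le_pi_div_two (by linarith)
      · nlinarith
      · rw [hy]
        have := mul_le_mul_of_nonneg_right p2.le (show (0 : ℝ) ≤ i / 100 by positivity)
        norm_num at this ⊢
        linarith
    have h7 : (y - y ^ 3 / 6 + y ^ 5 / 120 - y ^ 7 / 5040) * 1000000 - ((sT i : ℝ) - 8) =
        ((10 ^ 6 * (5040 * (3141592 * (i : ℝ)) * 10 ^ 48 + 42 * (3141592 * (i : ℝ)) ^ 5 * 10 ^ 16) +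
      8 * (5040 * 10 ^ 56)) - ((sT i : ℝ) * (5040 * 10 ^ 56) +
      10 ^ 6 * (840 * (3141592 * (i : ℝ)) ^ 3 * 10 ^ 32 + (3141592 * (i : ℝ)) ^ 7))) /
        (5040 * 10 ^ 56) := by
      rw [hy]
      ring
    have h8 : 0 ≤ (y - y ^ 3 / 6 + y ^ 5 / 120 - y ^ 7 / 5040) * 1000000 - ((sT i : ℝ) - 8) := by
      rw [h7]
      refine div_nonneg ?_ (by positivity)
      linarith
    linarith
  · have h3 := Nat.le_of_ble_eq_true h2
    have h4 : ((10 ^ 6 * (362880 * (3141593 * i) * 10 ^ 64 + 3024 * (3141593 * i) ^ 5 * 10 ^ 32 +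
      (3141593 * i) ^ 9) : ℕ) : ℝ) ≤
      (((sT i + 8) * (362880 * 10 ^ 72) + 10 ^ 6 * (60480 * (3141593 * i) ^ 3 * 10 ^ 48 +
      72 * (3141593 * i) ^ 7 * 10 ^ 16) : ℕ) : ℝ) := by exact_mod_cast h3
    push_cast at h4
    obtain ⟨y, hy⟩ : ∃ y : ℝ, y = 3141593 * i / 10 ^ 8 := ⟨_, rfl⟩
    have hy0 : 0 ≤ y := by rw [hy]; positivity
    have h5 := VB.tr_s9 hy0
    have h6 : Real.sin (Real.pi * (i / 100)) ≤ Real.sin y := by
      apply Real.sin_le_sin_of_le_of_le_pi_div_two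
      · have := Real.pi_pos
        have : 0 ≤ Real.pi * ((i : ℝ) / 100) := by positivity
        linarith
      · rw [hy]
        norm_num
        linarith
      · rw [hy]
        have := mul_le_mul_of_nonneg_right p1.le (show (0 : ℝ) ≤ i / 100 by positivity)
        norm_num at this ⊢
        linarith
    have h7 : ((sT i : ℝ) + 8) - (y - y ^ 3 / 6 + y ^ 5 / 120 - y ^ 7 / 5040 + y ^ 9 / 362880) *
        1000000 =
        ((((sT i : ℝ) + 8) * (362880 * 10 ^ 72) + 10 ^ 6 * (60480 * (3141593 * (i : ℝ)) ^ 3 *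
        10 ^ 48 + 72 * (3141593 * (i : ℝ)) ^ 7 * 10 ^ 16)) -
        (10 ^ 6 * (362880 * (3141593 * (i : ℝ)) * 10 ^ 64 + 3024 * (3141593 * (i : ℝ)) ^ 5 *
          10 ^ 32 + (3141593 * (i : ℝ)) ^ 9))) /
        (362880 * 10 ^ 72) := by
      rw [hy]
      ring
    have h8 : 0 ≤ ((sT i : ℝ) + 8) -
        (y - y ^ 3 / 6 + y ^ 5 / 120 - y ^ 7 / 5040 + y ^ 9 / 362880) * 1000000 := by
      rw [h7]
      refine div_nonneg ?_ (by positivity)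
      linarith
    linarith

theorem cos_small {i : ℕ} (hi : i ≤ 25) :
    |Real.cos (Real.pi * (i / 100)) * 1000000 - sT (50 - i)| ≤ 8 := by
  have h := ck_all i (by omega)
  simp only [Bool.and_eq_true] at h
  obtain ⟨⟨⟨-, -⟩, h1⟩, h2⟩ := h
  have p1 := Real.pi_lt_d6
  have p2 := Real.pi_gt_d6
  have hi0 : (0 : ℝ) ≤ i := Nat.cast_nonneg i
  have hi1 : (i : ℝ) ≤ 25 := by exact_mod_cast hi
  have hx0 : 0 ≤ Real.pi * ((i : ℝ) / 100) := mul_nonneg Real.pi_pos.le (by positivity)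
  rw [abs_le]
  constructor
  · have h3 := Nat.le_of_ble_eq_true h1
    have h4 : ((sT (50 - i) * (720 * 10 ^ 48) +
      10 ^ 6 * (360 * (3141593 * i) ^ 2 * 10 ^ 32 + (3141593 * i) ^ 6) : ℕ) : ℝ) ≤
      ((10 ^ 6 * (720 * 10 ^ 48 + 30 * (3141593 * i) ^ 4 * 10 ^ 16) + 8 * (720 * 10 ^ 48) : ℕ) :
        ℝ) := by exact_mod_cast h3
    push_cast at h4
    obtain ⟨y, hy⟩ : ∃ y : ℝ, y = 3141593 * i / 10 ^ 8 := ⟨_, rfl⟩
    have hy0 : 0 ≤ y := by rw [hy]; positivity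
    have h5 := VB.tr_c6 hy0
    have h6 : Real.cos y ≤ Real.cos (Real.pi * (i / 100)) := by
      apply Real.cos_le_cos_of_nonneg_of_le_pi hx0
      · rw [hy]
        norm_num
        linarith
      · rw [hy]
        have := mul_le_mul_of_nonneg_right p1.le (show (0 : ℝ) ≤ i / 100 by positivity)
        norm_num at this ⊢
        linarith
    have h7 : (1 - y ^ 2 / 2 + y ^ 4 / 24 - y ^ 6 / 720) * 1000000 - ((sT (50 - i) : ℝ) - 8) =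
        ((10 ^ 6 * (720 * 10 ^ 48 + 30 * (3141593 * (i : ℝ)) ^ 4 * 10 ^ 16) + 8 * (720 * 10 ^ 48))
        - ((sT (50 - i) : ℝ) * (720 * 10 ^ 48) +
      10 ^ 6 * (360 * (3141593 * (i : ℝ)) ^ 2 * 10 ^ 32 + (3141593 * (i : ℝ)) ^ 6))) /
        (720 * 10 ^ 48) := by
      rw [hy]
      ring
    have h8 : 0 ≤ (1 - y ^ 2 / 2 + y ^ 4 / 24 - y ^ 6 / 720) * 1000000 -
        ((sT (50 - i) : ℝ) - 8) := by
      rw [h7]
      refine div_nonneg ?_ (by positivity)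
      linarith
    linarith
  · have h3 := Nat.le_of_ble_eq_true h2
    have h4 : ((10 ^ 6 * (40320 * 10 ^ 64 + 1680 * (3141592 * i) ^ 4 * 10 ^ 32 +
      (3141592 * i) ^ 8) : ℕ) : ℝ) ≤
      (((sT (50 - i) + 8) * (40320 * 10 ^ 64) + 10 ^ 6 * (20160 * (3141592 * i) ^ 2 * 10 ^ 48 +
      56 * (3141592 * i) ^ 6 * 10 ^ 16) : ℕ) : ℝ) := by exact_mod_cast h3
    push_cast at h4
    obtain ⟨y, hy⟩ : ∃ y : ℝ, y = 3141592 * i / 10 ^ 8 := ⟨_, rfl⟩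
    have hy0 : 0 ≤ y := by rw [hy]; positivity
    have h5 := VB.tr_c8 hy0
    have h6 : Real.cos (Real.pi * (i / 100)) ≤ Real.cos y := by
      apply Real.cos_le_cos_of_nonneg_of_le_pi hy0
      · nlinarith
      · rw [hy]
        have := mul_le_mul_of_nonneg_right p2.le (show (0 : ℝ) ≤ i / 100 by positivity)
        norm_num at this ⊢
        linarith
    have h7 : ((sT (50 - i) : ℝ) + 8) - (1 - y ^ 2 / 2 + y ^ 4 / 24 - y ^ 6 / 720 +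
        y ^ 8 / 40320) * 1000000 =
        ((((sT (50 - i) : ℝ) + 8) * (40320 * 10 ^ 64) + 10 ^ 6 * (20160 * (3141592 * (i : ℝ)) ^ 2 *
        10 ^ 48 + 56 * (3141592 * (i : ℝ)) ^ 6 * 10 ^ 16)) -
        (10 ^ 6 * (40320 * 10 ^ 64 + 1680 * (3141592 * (i : ℝ)) ^ 4 * 10 ^ 32 +
          (3141592 * (i : ℝ)) ^ 8))) /
        (40320 * 10 ^ 64) := by
      rw [hy]
      ring
    have h8 : 0 ≤ ((sT (50 - i) : ℝ) + 8) - (1 - y ^ 2 / 2 + y ^ 4 / 24 - y ^ 6 / 720 +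
        y ^ 8 / 40320) * 1000000 := by
      rw [h7]
      refine div_nonneg ?_ (by positivity)
      linarith
    linarith

/-- The table of the sine. -/
theorem sT_ok {i : ℕ} (hi : i ≤ 50) :
    |Real.sin (Real.pi * (i / 100)) * 1000000 - sT i| ≤ 8 := by
  rcases le_total i 25 with h | h
  · exact sin_small h
  · have h2 := cos_small (i := 50 - i) (by omega)
    rw [show 50 - (50 - i) = i by omega, Nat.cast_sub hi] at h2
    have e : Real.pi * (((50 : ℕ) : ℝ) - i) / 100 = Real.pi / 2 - Real.pi * (i / 100) := by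
      push_cast
      ring
    rw [show Real.pi * ((((50 : ℕ) : ℝ) - i) / 100) = Real.pi / 2 - Real.pi * (i / 100) by
      push_cast
      ring, Real.cos_pi_div_two_sub] at h2
    exact h2

/-! ### Hyperbolic cosine -/

def ck5 (j : ℕ) : Bool :=
  (fun z D => (fun n d => Nat.ble (10 ^ 6 * (n ^ 4 + d ^ 4)) (2 * (cT j + 2) * n ^ 2 * d ^ 2))
    (8 * (40320 * D ^ 8 + 40320 * z * D ^ 7 + 20160 * z ^ 2 * D ^ 6 + 6720 * z ^ 3 * D ^ 5 +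
      1680 * z ^ 4 * D ^ 4 + 336 * z ^ 5 * D ^ 3 + 56 * z ^ 6 * D ^ 2 + 8 * z ^ 7 * D) + 9 * z ^ 8)
    (322560 * D ^ 8)) (3141593 * j) (2 * 10 ^ 8)

def ck6 (j : ℕ) : Bool :=
  (fun z D => (fun n d => Nat.ble (2 * cT j * n ^ 2 * d ^ 2)
      (10 ^ 6 * (n ^ 4 + d ^ 4) + 4 * n ^ 2 * d ^ 2))
    (40320 * D ^ 7 + 40320 * z * D ^ 6 + 20160 * z ^ 2 * D ^ 5 + 6720 * z ^ 3 * D ^ 4 +
      1680 * z ^ 4 * D ^ 3 + 336 * z ^ 5 * D ^ 2 + 56 * z ^ 6 * D + 8 * z ^ 7)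
    (40320 * D ^ 7)) (3141592 * j) (2 * 10 ^ 8)

theorem ck_all2 : ∀ j, j < 34 → (ck5 j && ck6 j) = true := by
  decide +kernel

theorem cosh_of_exp (y : ℝ) :
    Real.cosh (2 * y) = (Real.exp y ^ 2 + (Real.exp y ^ 2)⁻¹) / 2 := by
  rw [Real.cosh_eq, ← Real.exp_nat_mul]
  push_cast
  rw [← Real.exp_neg]

theorem f_mono {a b : ℝ} (ha : 1 ≤ a) (h : a ≤ b) :
    (a ^ 2 + (a ^ 2)⁻¹) / 2 ≤ (b ^ 2 + (b ^ 2)⁻¹) / 2 := by
  have h1 : 1 ≤ a ^ 2 := one_le_pow₀ ha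
  have h2 : a ^ 2 ≤ b ^ 2 := pow_le_pow_left₀ (by linarith) h 2
  have h3 : (a ^ 2)⁻¹ - (b ^ 2)⁻¹ = (b ^ 2 - a ^ 2) / (a ^ 2 * b ^ 2) :=
    inv_sub_inv (by positivity) (by nlinarith)
  have h4 : (b ^ 2 - a ^ 2) / (a ^ 2 * b ^ 2) ≤ b ^ 2 - a ^ 2 := by
    apply div_le_self (by linarith)
    nlinarith
  linarith

theorem cT_ok {j : ℕ} (hj : j ≤ 33) :
    |Real.cosh (Real.pi * (j / 100)) * 1000000 - cT j| ≤ 2 := by
  have h := ck_all2 j (by omega)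
  simp only [Bool.and_eq_true] at h
  obtain ⟨h1, h2⟩ := h
  have p1 := Real.pi_lt_d6
  have p2 := Real.pi_gt_d6
  have hj0 : (0 : ℝ) ≤ j := Nat.cast_nonneg j
  have hj1 : (j : ℝ) ≤ 33 := by exact_mod_cast hj
  have e : Real.pi * ((j : ℝ) / 100) = 2 * (Real.pi * (j / 200)) := by ring
  obtain ⟨y, hy⟩ : ∃ y : ℝ, y = Real.pi * (j / 200) := ⟨_, rfl⟩
  have hy0 : 0 ≤ y := by
    rw [hy]
    exact mul_nonneg Real.pi_pos.le (by positivity)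
  rw [e, ← hy, cosh_of_exp]
  have hE1 : 1 ≤ Real.exp y := Real.one_le_exp hy0
  rw [abs_le]
  constructor
  · -- lower bound
    obtain ⟨z, hz⟩ : ∃ z : ℝ, z = 3141592 * j / (2 * 10 ^ 8) := ⟨_, rfl⟩
    have hz0 : 0 ≤ z := by rw [hz]; positivity
    have hzy : z ≤ y := by
      rw [hz, hy]
      have := mul_le_mul_of_nonneg_right p2.le (show (0 : ℝ) ≤ j / 200 by positivity)
      norm_num at this ⊢
      linarith
    have h3 := Real.sum_le_exp_of_nonneg hz0 8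
    have h4 : Real.exp z ≤ Real.exp y := Real.exp_le_exp.2 hzy
    obtain ⟨P, hP⟩ : ∃ P : ℝ, P = 1 + z + z ^ 2 / 2 + z ^ 3 / 6 + z ^ 4 / 24 + z ^ 5 / 120 +
      z ^ 6 / 720 + z ^ 7 / 5040 := ⟨_, rfl⟩
    have h5 : P ≤ Real.exp y := by
      refine le_trans (le_of_eq ?_) (h3.trans h4)
      rw [hP]
      simp only [Finset.sum_range_succ, Finset.sum_range_zero, Nat.factorial]
      push_cast
      ring
    have hP1 : 1 ≤ P := by
      rw [hP]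
      have : 0 ≤ z + z ^ 2 / 2 + z ^ 3 / 6 + z ^ 4 / 24 + z ^ 5 / 120 + z ^ 6 / 720 +
        z ^ 7 / 5040 := by positivity
      linarith
    have h6 := f_mono hP1 h5
    have h7 := Nat.le_of_ble_eq_true h2
    obtain ⟨d, hd⟩ : ∃ d : ℕ, d = 40320 * (2 * 10 ^ 8) ^ 7 := ⟨_, rfl⟩
    obtain ⟨n, hn⟩ : ∃ n : ℕ, n = 40320 * (2 * 10 ^ 8) ^ 7 + 40320 * (3141592 * j) *
      (2 * 10 ^ 8) ^ 6 + 20160 * (3141592 * j) ^ 2 * (2 * 10 ^ 8) ^ 5 + 6720 * (3141592 * j) ^ 3 *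
      (2 * 10 ^ 8) ^ 4 + 1680 * (3141592 * j) ^ 4 * (2 * 10 ^ 8) ^ 3 + 336 * (3141592 * j) ^ 5 *
      (2 * 10 ^ 8) ^ 2 + 56 * (3141592 * j) ^ 6 * (2 * 10 ^ 8) + 8 * (3141592 * j) ^ 7 := ⟨_, rfl⟩
    rw [← hn, ← hd] at h7
    have h8 : (2 * (cT j : ℝ) * (n : ℝ) ^ 2 * (d : ℝ) ^ 2) ≤
        10 ^ 6 * ((n : ℝ) ^ 4 + (d : ℝ) ^ 4) + 4 * (n : ℝ) ^ 2 * (d : ℝ) ^ 2 := by
      exact_mod_cast h7
    have hd0 : (0 : ℝ) < d := by
      rw [hd]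
      positivity
    have hnP : (n : ℝ) = P * d := by
      rw [hn, hd, hP, hz]
      push_cast
      ring
    have hn0 : (0 : ℝ) < n := by
      rw [hnP]
      positivity
    have h9 : ((cT j : ℝ) - 2) ≤ (P ^ 2 + (P ^ 2)⁻¹) / 2 * 1000000 := by
      have hP0 : (0 : ℝ) < P := by linarith
      have e2 : (P ^ 2 + (P ^ 2)⁻¹) / 2 * 1000000 - ((cT j : ℝ) - 2) =
          (10 ^ 6 * ((n : ℝ) ^ 4 + (d : ℝ) ^ 4) + 4 * (n : ℝ) ^ 2 * (d : ℝ) ^ 2 -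
            2 * (cT j : ℝ) * (n : ℝ) ^ 2 * (d : ℝ) ^ 2) / (2 * (n : ℝ) ^ 2 * (d : ℝ) ^ 2) := by
        rw [hnP]
        field_simp
        ring
      have : 0 ≤ (P ^ 2 + (P ^ 2)⁻¹) / 2 * 1000000 - ((cT j : ℝ) - 2) := by
        rw [e2]
        exact div_nonneg (sub_nonneg.2 h8) (by positivity)
      linarith
    linarith
  · -- upper bound
    obtain ⟨z, hz⟩ : ∃ z : ℝ, z = 3141593 * j / (2 * 10 ^ 8) := ⟨_, rfl⟩
    have hz0 : 0 ≤ z := by rw [hz]; positivity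
    have hzy : y ≤ z := by
      rw [hz, hy]
      have := mul_le_mul_of_nonneg_right p1.le (show (0 : ℝ) ≤ j / 200 by positivity)
      norm_num at this ⊢
      linarith
    have hz1 : z ≤ 1 := by
      rw [hz]
      norm_num
      linarith
    have h3 := Real.exp_bound' hz0 hz1 (n := 8) (by norm_num)
    have h4 : Real.exp y ≤ Real.exp z := Real.exp_le_exp.2 hzy
    obtain ⟨P, hP⟩ : ∃ P : ℝ, P = 1 + z + z ^ 2 / 2 + z ^ 3 / 6 + z ^ 4 / 24 + z ^ 5 / 120 +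
      z ^ 6 / 720 + z ^ 7 / 5040 + z ^ 8 * 9 / 322560 := ⟨_, rfl⟩
    have h5 : Real.exp y ≤ P := by
      refine (h4.trans h3).trans (le_of_eq ?_)
      rw [hP]
      simp only [Finset.sum_range_succ, Finset.sum_range_zero, Nat.factorial]
      push_cast
      ring
    have h6 := f_mono hE1 h5
    have h7 := Nat.le_of_ble_eq_true h1
    obtain ⟨d, hd⟩ : ∃ d : ℕ, d = 322560 * (2 * 10 ^ 8) ^ 8 := ⟨_, rfl⟩
    obtain ⟨n, hn⟩ : ∃ n : ℕ, n = 8 * (40320 * (2 * 10 ^ 8) ^ 8 + 40320 * (3141593 * j) *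
      (2 * 10 ^ 8) ^ 7 + 20160 * (3141593 * j) ^ 2 * (2 * 10 ^ 8) ^ 6 + 6720 * (3141593 * j) ^ 3 *
      (2 * 10 ^ 8) ^ 5 + 1680 * (3141593 * j) ^ 4 * (2 * 10 ^ 8) ^ 4 + 336 * (3141593 * j) ^ 5 *
      (2 * 10 ^ 8) ^ 3 + 56 * (3141593 * j) ^ 6 * (2 * 10 ^ 8) ^ 2 +
      8 * (3141593 * j) ^ 7 * (2 * 10 ^ 8)) + 9 * (3141593 * j) ^ 8 := ⟨_, rfl⟩
    rw [← hn, ← hd] at h7
    have h8 : 10 ^ 6 * ((n : ℝ) ^ 4 + (d : ℝ) ^ 4) ≤
        2 * ((cT j : ℝ) + 2) * (n : ℝ) ^ 2 * (d : ℝ) ^ 2 := by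
      exact_mod_cast h7
    have hd0 : (0 : ℝ) < d := by
      rw [hd]
      positivity
    have hnP : (n : ℝ) = P * d := by
      rw [hn, hd, hP, hz]
      push_cast
      ring
    have hP0 : (0 : ℝ) < P := by linarith
    have hn0 : (0 : ℝ) < n := by
      rw [hnP]
      positivity
    have h9 : (P ^ 2 + (P ^ 2)⁻¹) / 2 * 1000000 ≤ (cT j : ℝ) + 2 := by
      have e2 : (cT j : ℝ) + 2 - (P ^ 2 + (P ^ 2)⁻¹) / 2 * 1000000 =
          (2 * ((cT j : ℝ) + 2) * (n : ℝ) ^ 2 * (d : ℝ) ^ 2 - 10 ^ 6 * ((n : ℝ) ^ 4 + (d : ℝ) ^ 4))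
            / (2 * (n : ℝ) ^ 2 * (d : ℝ) ^ 2) := by
        rw [hnP]
        field_simp
        ring
      have : 0 ≤ (cT j : ℝ) + 2 - (P ^ 2 + (P ^ 2)⁻¹) / 2 * 1000000 := by
        rw [e2]
        exact div_nonneg (sub_nonneg.2 h8) (by positivity)
      linarith
    linarith

end Pool.Agent.S5.VK
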