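import Pool.Agent.S5.I.VKc

/-!
# Real `v`: the functions of the test
-/

set_option autoImplicit false

namespace Pool.Agent.S5.VK

open Pool.Agent.H63.VC3 Pool.Agent.S3 Pool.Agent.S5 Pool.Agent.S5.Tb MeasureTheory Filter Topology
  Set

/-! ### The second derivative -/

theorem sT_big : ∀ i, i < 51 → 12 ≤ i → sT (50 - i) + 10 < 1000000 := by decide +kernel
theorem sT_pos : ∀ i, i < 51 → 1 ≤ i → 1000 ≤ sT i := by decide +kernel
theorem cT_big : ∀ j, j < 34 → 1000000 ≤ cT j := by decide +kernel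
theorem cnd_q : ∀ i, i < 101 → 49 ≤ i → ∀ j, j < 21 → cnd i j = true := by decide +kernel
theorem cnd_0 : ∀ i, i < 101 → 1 ≤ i → cnd i 0 = true := by decide +kernel

/-- The position and the height of the table. -/
theorem trig_lo {i : ℕ} (hi : i ≤ 50) :
    Real.sin (2 * Real.pi * ((i : ℝ) / 200)) = Real.sin (Real.pi * (i / 100)) ∧
    Real.cos (2 * Real.pi * ((i : ℝ) / 200)) = Real.sin (Real.pi * (((50 - i : ℕ) : ℝ) / 100)) := by
  constructor
  · congr 1
    ring
  · rw [Nat.cast_sub hi, ← Real.cos_pi_div_two_sub]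
    congr 1
    push_cast
    ring

theorem trig_hi {i : ℕ} (hi : 50 ≤ i) (h1 : i ≤ 100) :
    Real.sin (2 * Real.pi * ((i : ℝ) / 200)) =
      Real.sin (Real.pi * (((100 - i : ℕ) : ℝ) / 100)) ∧
    Real.cos (2 * Real.pi * ((i : ℝ) / 200)) = -Real.sin (Real.pi * (((i - 50 : ℕ) : ℝ) / 100)) := by
  constructor
  · rw [Nat.cast_sub h1, ← Real.sin_pi_sub]
    congr 1
    push_cast
    ring
  · rw [Nat.cast_sub hi, ← Real.cos_add_pi_div_two]
    congr 1
    push_cast
    ring

theorem cosh_tab {j : ℕ} (hj : j ≤ 33) :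
    |Real.cosh (2 * Real.pi * ((j : ℝ) / 200)) * 1000000 - cT j| ≤ 2 := by
  have := cT_ok hj
  rwa [show Real.pi * ((j : ℝ) / 100) = 2 * Real.pi * ((j : ℝ) / 200) by ring] at this

theorem kU_ok {i j : ℕ} (h0 : 12 ≤ i) (h1 : i ≤ 100) (hj : j ≤ 33) :
    Lgd ((j : ℝ) / 200) ((i : ℝ) / 200) * 1048576 ≤ kU i j := by
  have hc := abs_le.1 (cosh_tab hj)
  have hcb := cT_big j (by omega)
  have hpi := Real.pi_pos
  have hp := pi_lt'
  have key : ∀ (S D : ℕ), (0 < D) → 0 ≤ Real.sin (2 * Real.pi * ((i : ℝ) / 200)) →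
      Real.sin (2 * Real.pi * ((i : ℝ) / 200)) * 1000000 ≤ (S : ℝ) →
      (D : ℝ) ≤ dn ((j : ℝ) / 200) ((i : ℝ) / 200) * 1000000 →
      Lgd ((j : ℝ) / 200) ((i : ℝ) / 200) * 1048576 ≤
        (Nat.succ (Nat.div (3294199 * S) D) : ℕ) := by
    intro S D hD hs0 hs hd
    have hD' : (0 : ℝ) < D := by exact_mod_cast hD
    have hdn : 0 < dn ((j : ℝ) / 200) ((i : ℝ) / 200) := by linarith
    refine le_trans ?_ (div_up (3294199 * S) D hD)
    unfold Lgd
    rw [div_mul_eq_mul_div, div_le_div_iff₀ hdn hD']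
    push_cast
    have a1 : Real.pi * Real.sin (2 * Real.pi * ((i : ℝ) / 200)) * 1048576 * D ≤
        Real.pi * Real.sin (2 * Real.pi * ((i : ℝ) / 200)) * 1048576 *
          (dn ((j : ℝ) / 200) ((i : ℝ) / 200) * 1000000) :=
      mul_le_mul_of_nonneg_left hd (by positivity)
    have a2 : Real.pi * 1048576 * (Real.sin (2 * Real.pi * ((i : ℝ) / 200)) * 1000000) ≤
        3294199 * S := by
      apply mul_le_mul hp.le hs (by positivity) (by norm_num)
    have a3 := mul_le_mul_of_nonneg_right a2 hdn.le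
    linarith
  unfold kU
  rcases le_or_gt i 50 with h | h
  · rw [Nat.ble_eq_true_of_le h]
    have hb := sT_big i (by omega) h0
    obtain ⟨e1, e2⟩ := trig_lo h
    have s1 := abs_le.1 (sT_ok (i := i) h)
    have s2 := abs_le.1 (sT_ok (i := 50 - i) (by omega))
    refine key (sT i + 8) (cT j - (sT (50 - i) + 10)) (by omega) ?_ ?_ ?_
    · rw [e1]
      apply Real.sin_nonneg_of_nonneg_of_le_pi
      · positivity
      · have : (i : ℝ) ≤ 50 := by exact_mod_cast h
        nlinarith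
    · rw [e1]
      push_cast
      linarith
    · rw [Nat.cast_sub (by omega)]
      unfold dn
      rw [e2]
      push_cast
      linarith
  · rw [Bool.eq_false_iff.2 (fun h2 => absurd (Nat.le_of_ble_eq_true h2) (not_le.2 h))]
    obtain ⟨e1, e2⟩ := trig_hi h.le h1
    have s1 := abs_le.1 (sT_ok (i := 100 - i) (by omega))
    have s2 := abs_le.1 (sT_ok (i := i - 50) (by omega))
    refine key (sT (100 - i) + 8) (cT j + sT (i - 50) - 10) (by omega) ?_ ?_ ?_
    · rw [e1]
      apply Real.sin_nonneg_of_nonneg_of_le_pi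
      · positivity
      · have : ((100 - i : ℕ) : ℝ) ≤ 50 := by exact_mod_cast (by omega : 100 - i ≤ 50)
        nlinarith
    · rw [e1]
      push_cast
      linarith
    · rw [Nat.cast_sub (by omega)]
      unfold dn
      rw [e2]
      push_cast
      linarith

theorem kL_ok {i j : ℕ} (h0 : 1 ≤ i) (h1 : i ≤ 100) (hj : j ≤ 33) :
    (kL i j : ℝ) ≤ Lgd ((j : ℝ) / 200) ((i : ℝ) / 200) * 1048576 := by
  have hc := abs_le.1 (cosh_tab hj)
  have hcb := cT_big j (by omega)
  have hpi := Real.pi_pos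
  have hp := pi_gt'
  have hi0 : (0 : ℝ) < i := by exact_mod_cast (by omega : 0 < i)
  have hi1 : (i : ℝ) ≤ 100 := by exact_mod_cast h1
  have hdn : 0 < dn ((j : ℝ) / 200) ((i : ℝ) / 200) := dn_pos' (by positivity) (by linarith)
  have key : ∀ (S D : ℕ), 0 ≤ Real.sin (2 * Real.pi * ((i : ℝ) / 200)) →
      (S : ℝ) ≤ Real.sin (2 * Real.pi * ((i : ℝ) / 200)) * 1000000 →
      dn ((j : ℝ) / 200) ((i : ℝ) / 200) * 1000000 ≤ D →
      (Nat.div (3294198 * S) D : ℕ) ≤ Lgd ((j : ℝ) / 200) ((i : ℝ) / 200) * 1048576 := by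
    intro S D hs0 hs hd
    have hD' : (0 : ℝ) < D := by nlinarith
    refine (div_dn _ _).trans ?_
    unfold Lgd
    rw [div_mul_eq_mul_div, div_le_div_iff₀ hD' hdn]
    push_cast
    have a1 : Real.pi * Real.sin (2 * Real.pi * ((i : ℝ) / 200)) * 1048576 *
          (dn ((j : ℝ) / 200) ((i : ℝ) / 200) * 1000000) ≤
        Real.pi * Real.sin (2 * Real.pi * ((i : ℝ) / 200)) * 1048576 * D :=
      mul_le_mul_of_nonneg_left hd (by positivity)
    have a2 : (3294198 : ℝ) * S ≤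
        Real.pi * 1048576 * (Real.sin (2 * Real.pi * ((i : ℝ) / 200)) * 1000000) := by
      apply mul_le_mul hp.le hs (by positivity) (by positivity)
    have a3 := mul_le_mul_of_nonneg_right a2 hdn.le
    linarith
  unfold kL
  rcases le_or_gt i 50 with h | h
  · rw [Nat.ble_eq_true_of_le h]
    obtain ⟨e1, e2⟩ := trig_lo h
    have s1 := abs_le.1 (sT_ok (i := i) h)
    have s2 := abs_le.1 (sT_ok (i := 50 - i) (by omega))
    have hp1 := sT_pos i (by omega) h0
    have hcs : sT (50 - i) ≤ cT j + 10 := by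
      have h5 : (sT (50 - i) : ℝ) ≤ cT j + 10 := by
        have h6 := Real.sin_le_one (Real.pi * (((50 - i : ℕ) : ℝ) / 100))
        have h7 : (1000000 : ℝ) ≤ cT j := by exact_mod_cast hcb
        linarith
      exact_mod_cast h5
    refine key (sT i - 8) (cT j + 10 - sT (50 - i)) ?_ ?_ ?_
    · rw [e1]
      apply Real.sin_nonneg_of_nonneg_of_le_pi
      · positivity
      · have : (i : ℝ) ≤ 50 := by exact_mod_cast h
        nlinarith
    · rw [e1, Nat.cast_sub (by omega)]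
      push_cast
      linarith
    · rw [Nat.cast_sub hcs]
      unfold dn
      rw [e2]
      push_cast
      linarith
  · rw [Bool.eq_false_iff.2 (fun h2 => absurd (Nat.le_of_ble_eq_true h2) (not_le.2 h))]
    obtain ⟨e1, e2⟩ := trig_hi h.le h1
    have s1 := abs_le.1 (sT_ok (i := 100 - i) (by omega))
    have s2 := abs_le.1 (sT_ok (i := i - 50) (by omega))
    have hsn : 0 ≤ Real.sin (2 * Real.pi * ((i : ℝ) / 200)) := by
      rw [e1]
      apply Real.sin_nonneg_of_nonneg_of_le_pi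
      · positivity
      · have : ((100 - i : ℕ) : ℝ) ≤ 50 := by exact_mod_cast (by omega : 100 - i ≤ 50)
        nlinarith
    refine key (sT (100 - i) - 8) (cT j + sT (i - 50) + 10) hsn ?_ ?_
    · rcases le_total (sT (100 - i)) 8 with h5 | h5
      · rw [Nat.sub_eq_zero_of_le h5]
        push_cast
        positivity
      · rw [e1, Nat.cast_sub h5]
        push_cast
        linarith
    · unfold dn
      rw [e2]
      push_cast
      linarith

theorem cnd_ok {i j : ℕ} (h1 : i ≤ 100) (hj : j ≤ 33) (h : cnd i j = true) :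
    Real.cosh (2 * Real.pi * ((j : ℝ) / 200)) * Real.cos (2 * Real.pi * ((i : ℝ) / 200)) ≤ 1 := by
  have hpi := Real.pi_pos
  have hC := Real.one_le_cosh (2 * Real.pi * ((j : ℝ) / 200))
  unfold cnd at h
  rcases le_or_gt 50 i with h2 | h2
  · obtain ⟨-, e2⟩ := trig_hi h2 h1
    rw [e2]
    have : 0 ≤ Real.sin (Real.pi * (((i - 50 : ℕ) : ℝ) / 100)) := by
      apply Real.sin_nonneg_of_nonneg_of_le_pi
      · positivity
      · have : ((i - 50 : ℕ) : ℝ) ≤ 50 := by exact_mod_cast (by omega : i - 50 ≤ 50)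
        nlinarith
    nlinarith
  · rw [Bool.eq_false_iff.2 (fun h3 => absurd (Nat.le_of_ble_eq_true h3) (not_le.2 h2))] at h
    have h3 := Nat.le_of_ble_eq_true h
    obtain ⟨-, e2⟩ := trig_lo h2.le
    have s2 := abs_le.1 (sT_ok (i := 50 - i) (by omega))
    have hc := abs_le.1 (cosh_tab hj)
    rw [← e2] at s2
    have h4 : ((cT j : ℝ) + 2) * ((sT (50 - i) : ℝ) + 8) ≤ 1000000000000 := by
      exact_mod_cast h3
    have h5 : Real.cosh (2 * Real.pi * ((j : ℝ) / 200)) ≤ ((cT j : ℝ) + 2) / 1000000 := by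
      rw [le_div_iff₀ (by norm_num)]
      linarith
    have h6 : Real.cos (2 * Real.pi * ((i : ℝ) / 200)) ≤ ((sT (50 - i) : ℝ) + 8) / 1000000 := by
      rw [le_div_iff₀ (by norm_num)]
      linarith
    have h7 : 0 ≤ Real.cos (2 * Real.pi * ((i : ℝ) / 200)) := by
      apply Real.cos_nonneg_of_neg_pi_div_two_le_of_le
      · have : 0 ≤ 2 * Real.pi * ((i : ℝ) / 200) := by positivity
        linarith
      · have : (i : ℝ) ≤ 50 := by exact_mod_cast h2.le
        nlinarith
    have h8 := mul_le_mul h5 h6 h7 (by positivity)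
    have h9 : ((cT j : ℝ) + 2) / 1000000 * (((sT (50 - i) : ℝ) + 8) / 1000000) =
        ((cT j : ℝ) + 2) * ((sT (50 - i) : ℝ) + 8) / 1000000000000 := by ring
    rw [h9] at h8
    refine h8.trans ?_
    rw [div_le_one (by norm_num)]
    exact h4

/-! ### The cubic term -/

theorem Gp_mono {a b : ℝ} (h0 : 0 ≤ a) (h1 : a ≤ b) : Gp a ≤ Gp b := by
  have hpi := Real.pi_pos
  unfold Gp
  have h3 := pow_le_pow_left₀ h0 h1 3
  have h5 := pow_le_pow_left₀ h0 h1 5
  have h7 := pow_le_pow_left₀ h0 h1 7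
  have k3 := mul_le_mul_of_nonneg_left h3 (show 0 ≤ Real.pi ^ 2 by positivity)
  have k5 := mul_le_mul_of_nonneg_left h5 (show 0 ≤ Real.pi ^ 4 by positivity)
  have k7 := mul_le_mul_of_nonneg_left h7 (show 0 ≤ 102 / 7000 * Real.pi ^ 6 by positivity)
  linarith

theorem gq_ok (b : ℕ) : Gp ((b : ℝ) / 1000) * 1048576 ≤ gq b := by
  have hpi := Real.pi_pos
  have hp := Real.pi_lt_d20
  have hb0 : (0 : ℝ) ≤ b := Nat.cast_nonneg b
  have p2 : Real.pi ^ 2 ≤ (3.14159265358979323847 : ℝ) ^ 2 := pow_le_pow_left₀ hpi.le hp.le 2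
  have p4 : Real.pi ^ 4 ≤ (3.14159265358979323847 : ℝ) ^ 4 := pow_le_pow_left₀ hpi.le hp.le 4
  have p6 : Real.pi ^ 6 ≤ (3.14159265358979323847 : ℝ) ^ 6 := pow_le_pow_left₀ hpi.le hp.le 6
  have q2 : Real.pi ^ 2 / 6 ≤ 1644950 / 1000000 := by
    norm_num at p2
    linarith
  have q4 : Real.pi ^ 4 / 40 ≤ 2435228 / 1000000 := by
    norm_num at p4
    linarith
  have q6 : 102 / 7000 * Real.pi ^ 6 ≤ 14008830 / 1000000 := by
    norm_num at p6
    linarith
  have h := div_up (1048576 * (1644950000000000000 * (b * (b * b)) +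
    2435228000000 * (b * b * (b * (b * b))) + 14008830 * (b * b * (b * b) * (b * (b * b)))))
      1000000000000000000000000000 (by norm_num)
  refine le_trans ?_ h
  push_cast
  unfold Gp
  have k3 := mul_le_mul_of_nonneg_right q2 (show 0 ≤ ((b : ℝ) / 1000) ^ 3 by positivity)
  have k5 := mul_le_mul_of_nonneg_right q4 (show 0 ≤ ((b : ℝ) / 1000) ^ 5 by positivity)
  have k7 := mul_le_mul_of_nonneg_right q6 (show 0 ≤ ((b : ℝ) / 1000) ^ 7 by positivity)
  have e : 1048576 * (1644950000000000000 * ((b : ℝ) * (b * b)) +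
      2435228000000 * (b * b * (b * (b * b))) + 14008830 * (b * b * (b * b) * (b * (b * b)))) /
      1000000000000000000000000000 =
      (1644950 / 1000000 * ((b : ℝ) / 1000) ^ 3 + 2435228 / 1000000 * ((b : ℝ) / 1000) ^ 5 +
        14008830 / 1000000 * ((b : ℝ) / 1000) ^ 7) * 1048576 := by
    ring
  rw [e]
  apply mul_le_mul_of_nonneg_right _ (by norm_num)
  linarith

/-! ### The logarithm -/

theorem lE_ok {i j : ℕ} (hi : i ≤ 100) (hj : j ≤ 50) (h : 0 < i + j) :
    |(Lg ((j : ℝ) / 200) ((i : ℝ) / 200) + 8) * 1048576 - (lE (ent i j) : ℝ)| ≤ 4 :=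
  (ent_ok i j hi hj h).l

theorem lq_ok {i j : ℕ} (hi : i ≤ 199) (hj : j ≤ 50) (h : 0 < i) :
    |(Lg ((j : ℝ) / 200) ((i : ℝ) / 200) + 8) * 1048576 - (lq i j : ℝ)| ≤ 4 := by
  unfold lq
  rcases le_or_gt i 100 with h2 | h2
  · rw [Nat.ble_eq_true_of_le h2]
    exact lE_ok h2 hj (by omega)
  · rw [Bool.eq_false_iff.2 (fun h3 => absurd (Nat.le_of_ble_eq_true h3) (not_le.2 h2))]
    have h4 := lE_ok (i := 200 - i) (j := j) (by omega) hj (by omega)
    rw [Nat.cast_sub (by omega)] at h4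
    rw [← Lg_symm]
    rw [show (((200 : ℕ) : ℝ) - i) / 200 = 1 - (i : ℝ) / 200 by
      push_cast
      ring] at h4
    exact h4

theorem qE_ok {i j : ℕ} (hi : i ≤ 100) (hj : j ≤ 50) (h : 0 < i + j) :
    |gv ((i : ℝ) / 200) ((j : ℝ) / 200) * 1048576 - (qE (ent i j) : ℝ)| ≤ 32 := by
  have := (ent_ok i j hi hj h).q
  unfold pt at this
  unfold gv
  exact this

end Pool.Agent.S5.VK
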