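import Pool.Agent.S5.I.VKd

/-!
# Real `v`: soundness of the parts of the test
-/

set_option autoImplicit false

namespace Pool.Agent.S5.VK

open Pool.Agent.H63.VC3 Pool.Agent.S3 Pool.Agent.S5 Pool.Agent.S5.Tb MeasureTheory Filter Topology
  Set

theorem Lg_abs (s x : ℝ) : Lg |s| x = Lg s x := by
  rcases abs_choice s with h | h
  · rw [h]
  · rw [h, Lg_neg_im]

/-! ### The quadratic parts -/

theorem vv_ok {p H N : ℝ} {A B d Nb : ℕ} (h0 : 0 < p) (h1 : p < 1) (hN : 0 ≤ N)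
    (hNb : N ≤ (Nb : ℝ) / 1000) (hd : d ≤ Nb)
    (hA : ∀ u, 0 ≤ u → u ≤ (d : ℝ) / 1000 → u ≤ N → Lgd (H - u) p * 1048576 ≤ A)
    (hB : ∀ u, (d : ℝ) / 1000 ≤ u → u ≤ N → Lgd (H - u) p * 1048576 ≤ B) :
    Vm p H N * 1048576 ≤ (vv A B d Nb : ℝ) / 2000000 := by
  have hd' : (d : ℝ) ≤ Nb := by exact_mod_cast hd
  have h := Vm_le (p := p) (H := H) (N := N) (Nb := (Nb : ℝ) / 1000) (d := (d : ℝ) / 1000)
    (A := (A : ℝ) / 1048576) (B := (B : ℝ) / 1048576) h0 h1 hN hNb (by positivity) (by linarith)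
    (by positivity) (by positivity)
    (fun u a b c => by
      rw [le_div_iff₀ (by norm_num)]
      exact hA u a b c)
    (fun u a b => by
      rw [le_div_iff₀ (by norm_num)]
      exact hB u a b)
  have e : vv A B d Nb = A * (d * d) + B * (Nb * Nb - d * d) := rfl
  rw [e, Nat.cast_add, Nat.cast_mul A, Nat.cast_mul B, Nat.cast_sub (Nat.mul_le_mul hd hd)]
  push_cast
  nlinarith

/-- The bound at height zero. -/
theorem K0_ok {p s : ℝ} {p0 : ℕ} (h0 : 12 ≤ p0) (h1 : p0 ≤ 100) (hp : (p0 : ℝ) / 200 ≤ p)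
    (hp1 : p ≤ 1) : Lgd s p * 1048576 ≤ kU p0 0 := by
  have h2 := kU_ok (i := p0) (j := 0) h0 h1 (by norm_num)
  have h3 : (0 : ℝ) < p0 := by exact_mod_cast (by omega : 0 < p0)
  have h4 : (p0 : ℝ) ≤ 100 := by exact_mod_cast h1
  have h5 := kap_le (s := s) (s0 := ((0 : ℕ) : ℝ) / 200) (x0 := (p0 : ℝ) / 200) (x := p)
    (by positivity) hp hp1 (by linarith) (by simp)
    (cnd_ok h1 (by norm_num) (cnd_0 p0 (by omega) (by omega)))
  linarith

theorem K1_ok {p s : ℝ} {p0 s1 : ℕ} (h0 : 12 ≤ p0) (h1 : p0 ≤ 100) (hs1 : s1 ≤ 33)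
    (hc : cnd p0 s1 = true) (hp : (p0 : ℝ) / 200 ≤ p) (hp1 : p ≤ 1) (hs : (s1 : ℝ) / 200 ≤ |s|) :
    Lgd s p * 1048576 ≤ kU p0 s1 := by
  have h2 := kU_ok (i := p0) (j := s1) h0 h1 hs1
  have h3 : (0 : ℝ) < p0 := by exact_mod_cast (by omega : 0 < p0)
  have h4 : (p0 : ℝ) ≤ 100 := by exact_mod_cast h1
  have h5 := kap_le (s := s) (s0 := (s1 : ℝ) / 200) (x0 := (p0 : ℝ) / 200) (x := p)
    (by positivity) hp hp1 (by linarith) (by
      rw [abs_of_nonneg (by positivity)]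
      exact hs) (cnd_ok h1 hs1 hc)
  linarith

theorem vv0_ok {p H N : ℝ} {p0 Nb : ℕ} (h0 : 12 ≤ p0) (h1 : p0 ≤ 100) (hp : (p0 : ℝ) / 200 ≤ p)
    (hp1 : p < 1) (hN : 0 ≤ N) (hNb : N ≤ (Nb : ℝ) / 1000) :
    Vm p H N * 1048576 ≤ (vv (kU p0 0) (kU p0 0) 0 Nb : ℝ) / 2000000 := by
  have h3 : (0 : ℝ) < p0 := by exact_mod_cast (by omega : 0 < p0)
  exact vv_ok (lt_of_lt_of_le (by positivity) hp) hp1 hN hNb (Nat.zero_le _)
    (fun _ _ _ _ => K0_ok h0 h1 hp hp1.le) (fun _ _ _ => K0_ok h0 h1 hp hp1.le)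

theorem vn_ok {p H N : ℝ} {p0 s1 h0 Nb : ℕ} (a0 : 12 ≤ p0) (a1 : p0 ≤ 100)
    (hp : (p0 : ℝ) / 200 ≤ p) (hp1 : p < 1) (hN : 0 ≤ N) (hNb : N ≤ (Nb : ℝ) / 1000)
    (hs : s1 ≤ 33) (hH : H ≤ 0) (hh : (h0 : ℝ) / 200 ≤ |H|) :
    Vm p H N * 1048576 ≤ (vn (kU p0 0) p0 s1 h0 Nb : ℝ) / 2000000 := by
  have h3 : (0 : ℝ) < p0 := by exact_mod_cast (by omega : 0 < p0)
  unfold vn
  rw [fN_eq]
  cases hc : (bif bif cnd p0 s1 then Nat.ble (Nat.mul 5 (Nat.sub s1 h0)) Nb else false then true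
    else false)
  · have : (bif cnd p0 s1 then Nat.ble (Nat.mul 5 (Nat.sub s1 h0)) Nb else false) = false := by
      cases h : (bif cnd p0 s1 then Nat.ble (Nat.mul 5 (Nat.sub s1 h0)) Nb else false)
      · rfl
      · rw [h] at hc
        exact hc
    simp only [this, cond_false]
    exact vv0_ok a0 a1 hp hp1 hN hNb
  · have h4 : (bif cnd p0 s1 then Nat.ble (Nat.mul 5 (Nat.sub s1 h0)) Nb else false) = true := by
      cases h : (bif cnd p0 s1 then Nat.ble (Nat.mul 5 (Nat.sub s1 h0)) Nb else false)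
      · rw [h] at hc
        exact absurd hc (by decide)
      · rfl
    simp only [h4, cond_true]
    have hc1 : cnd p0 s1 = true := by
      cases h : cnd p0 s1
      · rw [h] at h4
        simp at h4
      · rfl
    rw [hc1] at h4
    have hd : Nat.mul 5 (Nat.sub s1 h0) ≤ Nb := Nat.le_of_ble_eq_true h4
    refine vv_ok (lt_of_lt_of_le (by positivity) hp) hp1 hN hNb hd
      (fun _ _ _ _ => K0_ok a0 a1 hp hp1.le) (fun u hu _ => ?_)
    apply K1_ok a0 a1 hs hc1 hp hp1.le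
    rw [abs_of_nonpos hH] at hh
    have hu0 : 0 ≤ u := le_trans (by positivity) hu
    rw [abs_of_nonpos (by linarith)]
    rcases le_total h0 s1 with h5 | h5
    · have e : ((Nat.mul 5 (Nat.sub s1 h0) : ℕ) : ℝ) = 5 * ((s1 : ℝ) - h0) := by
        have : Nat.mul 5 (Nat.sub s1 h0) = 5 * (s1 - h0) := rfl
        rw [this, Nat.cast_mul, Nat.cast_sub h5]
        norm_num
      rw [e] at hu
      linarith
    · have h6 : (s1 : ℝ) ≤ h0 := by exact_mod_cast h5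
      linarith

theorem vN_ok {p H N : ℝ} {p0 h0 Nb : ℕ} (a0 : 12 ≤ p0) (a1 : p0 ≤ 100)
    (hp : (p0 : ℝ) / 200 ≤ p) (hp1 : p < 1) (hN : 0 ≤ N) (hNb : N ≤ (Nb : ℝ) / 1000)
    (hh0 : h0 ≤ 33) (hH : H ≤ 0) (hh : (h0 : ℝ) / 200 ≤ |H|) :
    Vm p H N * 1048576 ≤ (vN (kU p0 0) p0 h0 Nb : ℝ) / 2000000 := by
  unfold vN
  rw [mn_eq, mn_eq]
  have b1 := vn_ok (s1 := 10) a0 a1 hp hp1 hN hNb (by norm_num) hH hh
  have b2 := vn_ok (s1 := 14) a0 a1 hp hp1 hN hNb (by norm_num) hH hh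
  have b3 := vn_ok (s1 := h0) a0 a1 hp hp1 hN hNb hh0 hH hh
  push_cast
  rw [le_div_iff₀ (by norm_num)] at b1 b2 b3 ⊢
  exact le_min (le_min b1 b2) b3

theorem vP_ok {p H N : ℝ} {p0 h0 h1 : ℕ} (a0 : 12 ≤ p0) (a1 : p0 ≤ 100)
    (hp : (p0 : ℝ) / 200 ≤ p) (hp1 : p < 1) (hN : 0 ≤ N) (hNb : N ≤ 88 / 1000)
    (hh1 : h0 ≤ 26) (hl : (h0 : ℝ) / 200 ≤ H) (hr : H ≤ (h1 : ℝ) / 200) :
    Vm p H N * 1048576 ≤ (vP (kU p0 0) p0 h0 h1 : ℝ) / 2000000 := by
  have h3 : (0 : ℝ) < p0 := by exact_mod_cast (by omega : 0 < p0)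
  have hpp : 0 < p := lt_of_lt_of_le (by positivity) hp
  have hNb' : N ≤ ((88 : ℕ) : ℝ) / 1000 := by
    push_cast
    exact hNb
  unfold vP
  cases hc : cnd p0 9
  · simp only [cond_false]
    exact vv0_ok a0 a1 hp hp1 hN hNb'
  · simp only [cond_true]
    rw [fN_eq, mn_eq]
    have b1 : Vm p H N * 1048576 ≤ ((cond (Nat.ble h0 9) (vv (kU p0 0) (kU p0 0) 0 88)
        (vv (kU p0 9) (kU p0 0) (Nat.mul 5 (Nat.sub h0 9)) 88) : ℕ) : ℝ) / 2000000 := by
      rcases le_or_gt h0 9 with h4 | h4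
      · rw [Nat.ble_eq_true_of_le h4]
        exact vv0_ok a0 a1 hp hp1 hN hNb'
      · rw [Bool.eq_false_iff.2 (fun h2 => absurd (Nat.le_of_ble_eq_true h2) (not_le.2 h4))]
        have e : Nat.mul 5 (Nat.sub h0 9) = 5 * (h0 - 9) := rfl
        refine vv_ok hpp hp1 hN hNb' (by rw [e]; omega) (fun u _ hu _ => ?_)
          (fun _ _ _ => K0_ok a0 a1 hp hp1.le)
        apply K1_ok a0 a1 (by norm_num) hc hp hp1.le
        rw [e, Nat.cast_mul, Nat.cast_sub h4.le] at hu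
        push_cast at hu ⊢
        have h9 : (10 : ℝ) ≤ h0 := by exact_mod_cast h4
        rw [abs_of_nonneg (by linarith)]
        linarith
    have b2 : Vm p H N * 1048576 ≤ ((cond (Nat.ble (Nat.mul 5 (Nat.add h1 9)) 88)
        (vv (kU p0 0) (kU p0 9) (Nat.mul 5 (Nat.add h1 9)) 88)
        (vv (kU p0 0) (kU p0 0) 0 88) : ℕ) : ℝ) / 2000000 := by
      rcases le_or_gt (Nat.mul 5 (Nat.add h1 9)) 88 with h4 | h4
      · rw [Nat.ble_eq_true_of_le h4]
        refine vv_ok hpp hp1 hN hNb' h4 (fun _ _ _ _ => K0_ok a0 a1 hp hp1.le)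
          (fun u hu _ => ?_)
        apply K1_ok a0 a1 (by norm_num) hc hp hp1.le
        have e : ((Nat.mul 5 (Nat.add h1 9) : ℕ) : ℝ) = 5 * ((h1 : ℝ) + 9) := by
          have : Nat.mul 5 (Nat.add h1 9) = 5 * (h1 + 9) := rfl
          rw [this]
          push_cast
          ring
        rw [e] at hu
        push_cast
        rw [abs_of_nonpos (by linarith)]
        linarith
      · rw [Bool.eq_false_iff.2 (fun h2 => absurd (Nat.le_of_ble_eq_true h2) (not_le.2 h4))]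
        exact vv0_ok a0 a1 hp hp1 hN hNb'
    push_cast
    rw [le_div_iff₀ (by norm_num)] at b1 b2 ⊢
    exact le_min b1 b2

/-- The quadratic part at the sum. -/
theorem vq_ok {q H N : ℝ} {q0 j Nb : ℕ} (a0 : 49 ≤ q0) (hq : (q0 : ℝ) / 200 ≤ q)
    (hq1 : q < 1) (hN : 0 ≤ N) (hNb : N ≤ (Nb : ℝ) / 1000) (hj : j ≤ 20)
    (hs : j = 0 ∨ (j : ℝ) / 200 ≤ H) :
    Vm q (-H) N * 1048576 ≤
      ((cond (Nat.ble 100 q0) 0 (kU q0 j) * (Nb * Nb) : ℕ) : ℝ) / 2000000 := by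
  have h3 : (0 : ℝ) < q0 := by exact_mod_cast (by omega : 0 < q0)
  have hqq : 0 < q := lt_of_lt_of_le (by positivity) hq
  have hb : ∀ u, 0 ≤ u → u ≤ N → Lgd (-H - u) q * 1048576 ≤
      ((cond (Nat.ble 100 q0) 0 (kU q0 j) : ℕ) : ℝ) := by
    intro u hu _
    rcases le_or_gt 100 q0 with h4 | h4
    · rw [Nat.ble_eq_true_of_le h4]
      have h5 : (100 : ℝ) ≤ q0 := by exact_mod_cast h4
      have := Lgd_nonpos (s := -H - u) (show 1 / 2 ≤ q by linarith) hq1.le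
      simp only [cond_true, Nat.cast_zero]
      linarith
    · rw [Bool.eq_false_iff.2 (fun h2 => absurd (Nat.le_of_ble_eq_true h2) (not_le.2 h4))]
      simp only [cond_false]
      apply K1_ok (by omega) h4.le (by omega) (cnd_q q0 (by omega) a0 j (by omega)) hq hq1.le
      rcases hs with h6 | h6
      · rw [h6]
        simp
      · rw [abs_of_nonpos (by
          have : (0 : ℝ) ≤ (j : ℝ) / 200 := by positivity
          linarith)]
        linarith
  have h7 := vv_ok (p := q) (H := -H) (A := cond (Nat.ble 100 q0) 0 (kU q0 j))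
    (B := cond (Nat.ble 100 q0) 0 (kU q0 j)) (d := 0) (Nb := Nb) hqq hq1 hN hNb (Nat.zero_le _)
    (fun u a _ c => hb u a c) (fun u a b => hb u (by simpa using a) b)
  refine h7.trans (le_of_eq ?_)
  have e : vv (cond (Nat.ble 100 q0) 0 (kU q0 j)) (cond (Nat.ble 100 q0) 0 (kU q0 j)) 0 Nb =
    cond (Nat.ble 100 q0) 0 (kU q0 j) * (0 * 0) +
      cond (Nat.ble 100 q0) 0 (kU q0 j) * (Nb * Nb - 0 * 0) := rfl
  rw [e]
  simp

/-! ### The last step -/

theorem sf_ok {D k a b A B : ℕ} (hk : 0 < k) (h : sf D k a b A B = true) {δ : ℝ}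
    (h1 : (a : ℝ) / 1000 ≤ δ) (h2 : δ ≤ (b : ℝ) / 1000) :
    (A : ℝ) + (D * δ - k * δ ^ 2) ≤ B := by
  have hk' : (0 : ℝ) < k := by exact_mod_cast hk
  unfold sf at h
  rcases le_or_gt (Nat.mul 1000 D) (Nat.mul (Nat.mul 2 k) a) with h3 | h3
  · rw [Nat.ble_eq_true_of_le h3] at h
    simp only [cond_true] at h
    have h4 := Nat.le_of_ble_eq_true h
    have h5 : (A : ℝ) + (Nat.succ (Nat.div (D * a) 1000) : ℕ) ≤
        B + (Nat.div (k * (a * a)) 1000000 : ℕ) := by exact_mod_cast h4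
    have h6 := div_up (D * a) 1000 (by norm_num)
    have h7 := div_dn (k * (a * a)) 1000000
    have h8 : (1000 * D : ℝ) ≤ 2 * k * a := by exact_mod_cast h3
    push_cast at h5 h6 h7
    have h9 : (D : ℝ) * δ - k * δ ^ 2 ≤ D * (a / 1000) - k * (a / 1000) ^ 2 := by
      have : 0 ≤ (δ - a / 1000) * (k * (δ - a / 1000) + (2 * k * (a / 1000) - D)) := by
        apply mul_nonneg (by linarith)
        have : 0 ≤ (k : ℝ) * (δ - a / 1000) := mul_nonneg hk'.le (by linarith)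
        linarith
      nlinarith
    nlinarith
  · rw [Bool.eq_false_iff.2 (fun h2 => absurd (Nat.le_of_ble_eq_true h2) (not_le.2 h3))] at h
    simp only [cond_false] at h
    rcases le_or_gt (Nat.mul (Nat.mul 2 k) b) (Nat.mul 1000 D) with h3' | h3'
    · rw [Nat.ble_eq_true_of_le h3'] at h
      simp only [cond_true] at h
      have h4 := Nat.le_of_ble_eq_true h
      have h5 : (A : ℝ) + (Nat.succ (Nat.div (D * b) 1000) : ℕ) ≤
          B + (Nat.div (k * (b * b)) 1000000 : ℕ) := by exact_mod_cast h4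
      have h6 := div_up (D * b) 1000 (by norm_num)
      have h7 := div_dn (k * (b * b)) 1000000
      have h8 : (2 * k * b : ℝ) ≤ 1000 * D := by exact_mod_cast h3'
      push_cast at h5 h6 h7
      have h9 : (D : ℝ) * δ - k * δ ^ 2 ≤ D * (b / 1000) - k * (b / 1000) ^ 2 := by
        have : 0 ≤ (b / 1000 - δ) * (k * (b / 1000 - δ) + (D - 2 * k * (b / 1000))) := by
          apply mul_nonneg (by linarith)
          have : 0 ≤ (k : ℝ) * (b / 1000 - δ) := mul_nonneg hk'.le (by linarith)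
          linarith
        nlinarith
      nlinarith
    · rw [Bool.eq_false_iff.2 (fun h2 => absurd (Nat.le_of_ble_eq_true h2) (not_le.2 h3'))] at h
      simp only [cond_false] at h
      have h4 := Nat.le_of_ble_eq_true h
      have h5 : (A : ℝ) + (Nat.succ (Nat.div (D * D) (4 * k)) : ℕ) ≤ B := by exact_mod_cast h4
      have h6 := div_up (D * D) (4 * k) (by omega)
      push_cast at h5 h6
      have h9 : (D : ℝ) * δ - k * δ ^ 2 ≤ D * D / (4 * k) := by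
        rw [le_div_iff₀ (by positivity)]
        nlinarith [sq_nonneg ((D : ℝ) - 2 * k * δ)]
      linarith

end Pool.Agent.S5.VK
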