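import Pool.Agent.S5.I.VKe

/-!
# Real `v`: soundness of the parts of the test, differences in the height
-/

set_option autoImplicit false

namespace Pool.Agent.S5.VK

open Pool.Agent.H63.VC3 Pool.Agent.S3 Pool.Agent.S5 Pool.Agent.S5.Tb MeasureTheory Filter Topology
  Set

theorem sub_ge (a b : ℕ) : (a : ℝ) - b ≤ ((a - b : ℕ) : ℝ) := by
  rcases le_total b a with h | h
  · rw [Nat.cast_sub h]
  · rw [Nat.sub_eq_zero_of_le h]
    have : (a : ℝ) ≤ b := by exact_mod_cast h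
    push_cast
    linarith

/-- The increment between two heights of the table. -/
theorem df_ok {p : ℝ} {s s' : ℝ} {i j j' : ℕ} (hi : 0 < i) (hi1 : i ≤ 100) (hj : j ≤ j')
    (hj' : j' ≤ 50) (h0 : (i : ℝ) / 200 ≤ p) (h1 : p ≤ 1 - (i : ℝ) / 200)
    (hs : (j : ℝ) / 200 ≤ |s|) (hs' : |s'| ≤ (j' : ℝ) / 200) :
    (Lg s' p - Lg s p) * 1048576 ≤ ((lE (ent i j') + 8 - lE (ent i j) : ℕ) : ℝ) := by
  have hi' : (0 : ℝ) < i := by exact_mod_cast hi
  have hp : 0 < p := lt_of_lt_of_le (by positivity) h0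
  have hp1 : p < 1 := lt_of_le_of_lt h1 (by linarith [show 0 < (i : ℝ) / 200 by positivity])
  have hjj : (j : ℝ) ≤ j' := by exact_mod_cast hj
  have a1 := Lg_mono' (s1 := s') (s2 := (j' : ℝ) / 200) (x := p) (by
    rw [abs_of_nonneg (show 0 ≤ (j' : ℝ) / 200 by positivity)]
    exact hs') hp hp1
  have a2 := Lg_mono' (s1 := (j : ℝ) / 200) (s2 := s) (x := p) (by
    rw [abs_of_nonneg (show 0 ≤ (j : ℝ) / 200 by positivity)]
    exact hs) hp hp1
  have a3 := Ldiff (σ1 := (j : ℝ) / 200) (σ2 := (j' : ℝ) / 200) (p := p) (p0 := (i : ℝ) / 200) (by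
    rw [abs_of_nonneg (show 0 ≤ (j : ℝ) / 200 by positivity),
      abs_of_nonneg (show 0 ≤ (j' : ℝ) / 200 by positivity)]
    linarith) (by positivity) h0 h1
  have b1 := abs_le.1 (lE_ok (i := i) (j := j) hi1 (by omega) (by omega))
  have b2 := abs_le.1 (lE_ok (i := i) (j := j') hi1 hj' (by omega))
  have c1 := sub_ge (lE (ent i j') + 8) (lE (ent i j))
  push_cast at c1
  linarith

theorem hiN_ok {H N p q : ℝ} {p0 qm h0 h1 : ℕ} (a0 : 12 ≤ p0) (a1 : p0 ≤ 100) (a2 : 1 ≤ qm)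
    (a3 : qm ≤ 100) (hp : (p0 : ℝ) / 200 ≤ p) (hp1 : p ≤ 1 / 2) (hq : (qm : ℝ) / 200 ≤ q)
    (hq1 : q ≤ 1 - (qm : ℝ) / 200) (hN : 0 ≤ N) (hN1 : N ≤ 88 / 1000) (hNH : N - H ≤ 165 / 1000)
    (hH : H ≤ 0) (hl : (h0 : ℝ) / 200 ≤ |H|) (hr : |H| ≤ (h1 : ℝ) / 200) (hh : h0 ≤ 33) :
    ((Lg (H - N) p - Lg H p) + (Lg (H + N) q - Lg H q)) * 1048576 ≤ hiN p0 qm h0 h1 := by
  have hp0 : (0 : ℝ) < p0 := by exact_mod_cast (by omega : 0 < p0)
  have hp01 : (p0 : ℝ) ≤ 100 := by exact_mod_cast a1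
  have hqm : (0 : ℝ) < qm := by exact_mod_cast (by omega : 0 < qm)
  have hq0 : 0 < q := lt_of_lt_of_le (by positivity) hq
  have hq2 : q < 1 := by linarith
  have hHa : |H| = -H := abs_of_nonpos hH
  have h01 : h0 ≤ h1 := by
    have : (h0 : ℝ) ≤ h1 := by linarith
    exact_mod_cast this
  have k1 : (Lg (H - N) p - Lg H p) * 1048576 ≤
      ((lE (ent p0 (mn (Nat.add h1 18) 33)) + 8 - lE (ent p0 h0) : ℕ) : ℝ) := by
    rw [mn_eq]
    have e : Nat.add h1 18 = h1 + 18 := rfl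
    rw [e]
    apply df_ok (by omega) a1 (le_min (by omega) hh) (by omega) hp (by linarith) hl
    rw [abs_of_nonpos (by linarith), Nat.cast_min]
    push_cast
    rw [le_div_iff₀ (by norm_num)]
    apply le_min
    · rw [hHa] at hr
      linarith
    · linarith
  have k2 : (Lg (H + N) q - Lg H q) * 1048576 ≤ ((cond (Nat.ble 9 h0) 0
      (lE (ent qm (18 - h0)) + 8 - lE (ent qm h0)) : ℕ) : ℝ) := by
    rcases le_or_gt |H + N| |H| with h5 | h5
    · have := Lg_mono' h5 hq0 hq2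
      have h6 : (0 : ℝ) ≤ ((cond (Nat.ble 9 h0) 0
        (lE (ent qm (18 - h0)) + 8 - lE (ent qm h0)) : ℕ) : ℝ) := Nat.cast_nonneg _
      linarith
    · have h6 : 0 < H + N := by
        by_contra h7
        rw [abs_of_nonpos (show H + N ≤ 0 by linarith), hHa] at h5
        linarith
      rw [abs_of_pos h6, hHa] at h5
      rcases le_or_gt 9 h0 with h7 | h7
      · have h8 : (9 : ℝ) ≤ h0 := by exact_mod_cast h7
        rw [hHa] at hl
        linarith
      · rw [Bool.eq_false_iff.2 (fun h2 => absurd (Nat.le_of_ble_eq_true h2) (not_le.2 h7))]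
        simp only [cond_false]
        apply df_ok (by omega) a3 (by omega) (by omega) hq hq1 hl
        rw [abs_of_pos h6, Nat.cast_sub (by omega)]
        rw [hHa] at hl
        push_cast
        linarith
  have e : hiN p0 qm h0 h1 = (lE (ent p0 (mn (Nat.add h1 18) 33)) + 8 - lE (ent p0 h0)) +
    (cond (Nat.ble 9 h0) 0 (lE (ent qm (18 - h0)) + 8 - lE (ent qm h0))) := rfl
  rw [e, Nat.cast_add]
  linarith

theorem loN_ok {H N p q : ℝ} {qm h1 : ℕ} (a2 : 1 ≤ qm)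
    (a3 : qm ≤ 100) (hp0 : 0 < p) (hp1 : p ≤ 1 / 2) (hq : (qm : ℝ) / 200 ≤ q)
    (hq1 : q ≤ 1 - (qm : ℝ) / 200) (hN : 0 ≤ N)
    (hH : H ≤ 0) (hr : |H| ≤ (h1 : ℝ) / 200) (hh : h1 ≤ 50) :
    -((Lg (H - N) p - Lg H p) + (Lg (H + N) q - Lg H q)) * 1048576 ≤ loN qm h1 := by
  have k1 := Lg_mono' (s1 := H) (s2 := H - N) (x := p) (by
    rw [abs_of_nonpos hH, abs_of_nonpos (by linarith)]
    linarith) hp0 (by linarith)
  have k2 : (Lg H q - Lg (H + N) q) * 1048576 ≤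
      ((lE (ent qm h1) + 8 - lE (ent qm 0) : ℕ) : ℝ) := by
    apply df_ok (by omega) a3 (by omega) hh hq hq1 _ hr
    simp
  have e : loN qm h1 = lE (ent qm h1) + 8 - lE (ent qm 0) := rfl
  rw [e]
  linarith

/-- The condition of convexity. -/
theorem chc {S q : ℝ} (hS : 0 ≤ S) (hS1 : S ≤ 38 / 200) (hq : 49 / 200 ≤ q) (hq1 : q ≤ 151 / 200) :
    Real.cosh (2 * Real.pi * S) * Real.cos (2 * Real.pi * q) ≤ 1 := by
  have hpi := Real.pi_pos
  have p1 := Real.pi_lt_d6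
  have h1 : Real.cos (2 * Real.pi * q) ≤ 4 / 100 := by
    refine (cos_le_mid (w0 := 49 / 200) (by norm_num) hq (by linarith)).trans ?_
    rw [show 2 * Real.pi * (49 / 200) = Real.pi / 2 - Real.pi / 100 by ring,
      Real.cos_pi_div_two_sub]
    refine (Real.sin_le (by positivity)).trans ?_
    linarith
  have h2 : Real.cosh (2 * Real.pi * S) ≤ 8 := by
    have h3 : Real.cosh (2 * Real.pi * S) ≤ Real.exp (2 * Real.pi * S) := by
      rw [Real.cosh_eq]
      have : Real.exp (-(2 * Real.pi * S)) ≤ Real.exp (2 * Real.pi * S) := by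
        apply Real.exp_le_exp.2
        have : 0 ≤ 2 * Real.pi * S := by positivity
        linarith
      linarith
    have h4 : Real.exp (2 * Real.pi * S) ≤ Real.exp (1 + 1) := by
      apply Real.exp_le_exp.2
      nlinarith
    rw [Real.exp_add] at h4
    have h5 := Real.exp_one_lt_d9
    have h6 := Real.exp_pos 1
    nlinarith
  have h7 := Real.cosh_pos (2 * Real.pi * S)
  rcases le_total (Real.cos (2 * Real.pi * q)) 0 with h8 | h8
  · nlinarith
  · nlinarith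

theorem hiP_ok {H N p q : ℝ} {p0 qm h0 h1 : ℕ} (a0 : 12 ≤ p0) (a1 : p0 ≤ 100) (a2 : 49 ≤ qm)
    (a3 : qm ≤ 100) (hp : (p0 : ℝ) / 200 ≤ p) (hp1 : p ≤ 1 / 2) (hq : (qm : ℝ) / 200 ≤ q)
    (hq1 : q ≤ 1 - (qm : ℝ) / 200) (hN : 0 ≤ N) (hN1 : N ≤ 88 / 1000)
    (hl : (h0 : ℝ) / 200 ≤ H) (hr : H ≤ (h1 : ℝ) / 200) (hh : h1 ≤ 20) :
    ((Lg (H - N) p - Lg H p) + (Lg (H + N) q - Lg H q)) * 1048576 ≤ hiP p0 qm h0 h1 := by
  have hp0 : (0 : ℝ) < p0 := by exact_mod_cast (by omega : 0 < p0)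
  have hp01 : (p0 : ℝ) ≤ 100 := by exact_mod_cast a1
  have hqm : (49 : ℝ) ≤ qm := by exact_mod_cast a2
  have hq0 : 0 < q := lt_of_lt_of_le (by positivity) hq
  have hpp : 0 < p := lt_of_lt_of_le (by positivity) hp
  have hq2 : q < 1 := by linarith
  have hH : 0 ≤ H := le_trans (by positivity) hl
  have hHa : |H| = H := abs_of_nonneg hH
  have hh1 : (h1 : ℝ) ≤ 20 := by exact_mod_cast hh
  have k2 : (Lg (H - N) p - Lg H p) * 1048576 ≤ ((cond (Nat.ble 9 h0) 0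
      (lE (ent p0 (18 - h0)) + 8 - lE (ent p0 h0)) : ℕ) : ℝ) := by
    rcases le_or_gt |H - N| |H| with h5 | h5
    · have := Lg_mono' (x := p) h5 hpp (by linarith)
      have h6 : (0 : ℝ) ≤ ((cond (Nat.ble 9 h0) 0
        (lE (ent p0 (18 - h0)) + 8 - lE (ent p0 h0)) : ℕ) : ℝ) := Nat.cast_nonneg _
      linarith
    · have h6 : H - N < 0 := by
        by_contra h7
        rw [abs_of_nonneg (show 0 ≤ H - N by linarith), hHa] at h5
        linarith
      rw [abs_of_neg h6, hHa] at h5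
      rcases le_or_gt 9 h0 with h7 | h7
      · have h8 : (9 : ℝ) ≤ h0 := by exact_mod_cast h7
        linarith
      · rw [Bool.eq_false_iff.2 (fun h2 => absurd (Nat.le_of_ble_eq_true h2) (not_le.2 h7))]
        simp only [cond_false]
        apply df_ok (by omega) a1 (by omega) (by omega) hp (by linarith) (by rw [hHa]; exact hl)
        rw [abs_of_neg h6, Nat.cast_sub (by omega)]
        push_cast
        linarith
  have k3 : (Lg (H + N) q - Lg H q) * 1048576 ≤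
      ((Nat.succ (Nat.div ((lE (ent qm (h1 + 18)) + 8 - lE (ent qm h1)) * 44) 45) : ℕ) : ℝ) := by
    have b1 := c_le (x := q) (H := H) (N := N) (h1 := (h1 : ℝ) / 200) hq0 hq2 hH hr hN hN1
      (chc (by positivity) (by linarith) (by linarith) (by linarith))
    have b2 := df_ok (p := q) (s := (h1 : ℝ) / 200) (s' := (h1 : ℝ) / 200 + 9 / 100)
      (i := qm) (j := h1) (j' := h1 + 18) (by omega) a3 (by omega) (by omega) hq hq1
      (by rw [abs_of_nonneg (by positivity)]) (by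
        rw [abs_of_nonneg (by positivity)]
        push_cast
        linarith)
    have b3 := div_up ((lE (ent qm (h1 + 18)) + 8 - lE (ent qm h1)) * 44) 45 (by norm_num)
    refine le_trans ?_ b3
    rw [Nat.cast_mul, le_div_iff₀ (by norm_num)]
    push_cast at b2 ⊢
    nlinarith
  have e : hiP p0 qm h0 h1 = (cond (Nat.ble 9 h0) 0
      (lE (ent p0 (18 - h0)) + 8 - lE (ent p0 h0))) +
      (Nat.succ (Nat.div ((lE (ent qm (h1 + 18)) + 8 - lE (ent qm h1)) * 44) 45)) := rfl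
  rw [e, Nat.cast_add]
  linarith

theorem loP_ok {H N p q : ℝ} {p0 h0 h1 : ℕ} (a0 : 12 ≤ p0) (a1 : p0 ≤ 100)
    (hp : (p0 : ℝ) / 200 ≤ p) (hp1 : p ≤ 1 / 2) (hq0 : 0 < q) (hq1 : q < 1)
    (hN : 0 ≤ N) (hN1 : N ≤ 88 / 1000)
    (hl : (h0 : ℝ) / 200 ≤ H) (hr : H ≤ (h1 : ℝ) / 200) (hh : h1 ≤ 50) :
    -((Lg (H - N) p - Lg H p) + (Lg (H + N) q - Lg H q)) * 1048576 ≤ loP p0 h0 h1 := by
  have hp01 : (p0 : ℝ) ≤ 100 := by exact_mod_cast a1
  have hH : 0 ≤ H := le_trans (by positivity) hl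
  have h01 : h0 ≤ h1 := by
    have : (h0 : ℝ) ≤ h1 := by linarith
    exact_mod_cast this
  have k1 := Lg_mono' (s1 := H) (s2 := H + N) (x := q) (by
    rw [abs_of_nonneg hH, abs_of_nonneg (by linarith)]
    linarith) hq0 hq1
  have k2 : (Lg H p - Lg (H - N) p) * 1048576 ≤
      ((lE (ent p0 h1) + 8 - lE (ent p0 (h0 - 18)) : ℕ) : ℝ) := by
    apply df_ok (by omega) a1 (by omega) hh hp (by linarith) _ (by
      rw [abs_of_nonneg hH]
      exact hr)
    rcases le_total 18 h0 with h5 | h5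
    · rw [Nat.cast_sub h5]
      have h6 : (18 : ℝ) ≤ h0 := by exact_mod_cast h5
      push_cast
      refine le_trans ?_ (le_abs_self _)
      linarith
    · rw [Nat.sub_eq_zero_of_le h5]
      simp
  have e : loP p0 h0 h1 = lE (ent p0 h1) + 8 - lE (ent p0 (h0 - 18)) := rfl
  rw [e]
  linarith

/-! ### The defect at the difference -/

theorem na (a b : ℕ) : Nat.add a b = a + b := by cases b <;> rfl
theorem nm (a b : ℕ) : Nat.mul a b = a * b := by cases b <;> rfl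
theorem ns (a b : ℕ) : Nat.sub a b = a - b := by cases b <;> rfl

theorem dm_real {A B : ℕ} {q1 q2 D l : ℕ} (hA : A = 200 * q1 + D * l)
    (hB : B = 200 * q2 + (14000 + 8388608 * D)) {g1 g2 L : ℝ}
    (b1 : (q1 : ℝ) ≤ g1 * 1048576 + 32) (b2 : g2 * 1048576 - 32 ≤ q2)
    (b3 : (l : ℝ) ≤ (L + 8) * 1048576 + 4) (hD : D ≤ 100) :
    ((A : ℝ) - B) / 200 ≤ (g1 - g2 + L * ((D : ℝ) / 200)) * 1048576 := by
  rw [hA, hB, div_le_iff₀ (by norm_num)]
  push_cast
  have hD' : (D : ℝ) ≤ 100 := by exact_mod_cast hD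
  have c3 := mul_le_mul_of_nonneg_left b3 (Nat.cast_nonneg (α := ℝ) D)
  linarith

theorem dm_ok {s p w : ℝ} {p0 w1 h1 : ℕ} (a0 : 1 ≤ p0) (a1 : p0 ≤ 100) (hh : h1 ≤ 50) (hh0 : 1 ≤ h1)
    (hp : (p0 : ℝ) / 200 ≤ p) (hp1 : p ≤ 1 / 2) (hw0 : 0 ≤ w) (hw : w ≤ (w1 : ℝ) / 200)
    (hs : |s| ≤ (h1 : ℝ) / 200) (hwp : w ≤ 1 - p) :
    (dm p0 w1 h1 : ℝ) ≤ Dd s p w * 1048576 := by
  have hp0 : (1 : ℝ) ≤ p0 := by exact_mod_cast a0
  have hpp : 0 < p := lt_of_lt_of_le (by positivity) hp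
  have hnn : 0 ≤ Dd s p w := by
    rcases le_total w p with h | h
    · exact Dd_nonneg_left hpp hp1 (by linarith) (by linarith) h
    · exact Dd_nonneg_right hpp h hwp
  unfold dm
  rcases le_or_gt p0 w1 with h | h
  · rw [Nat.ble_eq_true_of_le h]
    simp only [cond_true, Nat.cast_zero]
    positivity
  · rw [Bool.eq_false_iff.2 (fun h2 => absurd (Nat.le_of_ble_eq_true h2) (not_le.2 h))]
    simp only [cond_false]
    refine (div_dn _ _).trans ?_
    obtain ⟨A, hA⟩ : ∃ A : ℕ, A = 200 * qE (ent p0 h1) + (p0 - w1) * lE (ent p0 h1) := ⟨_, rfl⟩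
    obtain ⟨B, hB⟩ : ∃ B : ℕ, B = 200 * qE (ent w1 h1) + (14000 + 8388608 * (p0 - w1)) := ⟨_, rfl⟩
    simp only [na, nm, ns]
    rw [← hA, ← hB]
    rcases le_total B A with h3 | h3
    · rw [Nat.cast_sub h3]
      have hww : (w1 : ℝ) ≤ p0 := by exact_mod_cast h.le
      have hp01 : (p0 : ℝ) ≤ 100 := by exact_mod_cast a1
      have c1 := Dd_mono (s := s) (σ := (h1 : ℝ) / 200) (p := p) (p0 := (p0 : ℝ) / 200) (w := w)
        (w1 := (w1 : ℝ) / 200) (by
          rw [abs_of_nonneg (show 0 ≤ (h1 : ℝ) / 200 by positivity)]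
          exact hs) hw0 hw (by linarith) hp hp1 (by positivity)
      have b1 := abs_le.1 (qE_ok (i := p0) (j := h1) a1 hh (by omega))
      have b2 := abs_le.1 (qE_ok (i := w1) (j := h1) (by omega) hh (by omega))
      have b3 := abs_le.1 (lE_ok (i := p0) (j := h1) a1 hh (by omega))
      have c2 : Dd ((h1 : ℝ) / 200) ((p0 : ℝ) / 200) ((w1 : ℝ) / 200) =
          gv ((p0 : ℝ) / 200) ((h1 : ℝ) / 200) - gv ((w1 : ℝ) / 200) ((h1 : ℝ) / 200) +
            Lg ((h1 : ℝ) / 200) ((p0 : ℝ) / 200) * (((p0 - w1 : ℕ) : ℝ) / 200) := by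
        rw [Dd_gv, Nat.cast_sub h.le]
        ring
      rw [c2] at c1
      have c4 := dm_real hA hB (g1 := gv ((p0 : ℝ) / 200) ((h1 : ℝ) / 200))
        (g2 := gv ((w1 : ℝ) / 200) ((h1 : ℝ) / 200)) (L := Lg ((h1 : ℝ) / 200) ((p0 : ℝ) / 200))
        (by linarith) (by linarith) (by linarith) (by omega)
      refine c4.trans ?_
      exact mul_le_mul_of_nonneg_right c1 (by norm_num)
    · rw [Nat.sub_eq_zero_of_le h3]
      push_cast
      rw [zero_div]
      positivity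

theorem dq_real {A B : ℕ} {q1 D l : ℕ} (hA : A = 200 * q1 + 8388608 * D)
    (hB : B = 7000 + D * l) {g1 L : ℝ}
    (b1 : (q1 : ℝ) ≤ g1 * 1048576 + 32)
    (b3 : (L + 8) * 1048576 - 4 ≤ (l : ℝ)) (hD : D ≤ 100) :
    ((A : ℝ) - B) / 200 ≤ (g1 - L * ((D : ℝ) / 200)) * 1048576 := by
  rw [hA, hB, div_le_iff₀ (by norm_num)]
  push_cast
  have hD' : (D : ℝ) ≤ 100 := by exact_mod_cast hD
  have c3 := mul_le_mul_of_nonneg_left b3 (Nat.cast_nonneg (α := ℝ) D)
  linarith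

theorem dq_ok {s q : ℝ} {q1 h1 : ℕ} (a0 : 1 ≤ q1) (a1 : q1 < 100) (hh : h1 ≤ 50)
    (hq0 : 0 < q) (hq : q ≤ (q1 : ℝ) / 200) (hs : |s| ≤ (h1 : ℝ) / 200) :
    (dq q1 h1 : ℝ) ≤ Dd s q (1 / 2) * 1048576 := by
  have hq1' : (q1 : ℝ) ≤ 100 := by exact_mod_cast a1.le
  have hnn : 0 ≤ Dd s q (1 / 2) := Dd_nonneg_right hq0 (by linarith) (by linarith)
  unfold dq
  rw [Bool.eq_false_iff.2 (fun h2 => absurd (Nat.le_of_ble_eq_true h2) (not_le.2 a1))]
  simp only [cond_false]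
  refine (div_dn _ _).trans ?_
  obtain ⟨A, hA⟩ : ∃ A : ℕ, A = 200 * qE (ent q1 h1) + 8388608 * (100 - q1) := ⟨_, rfl⟩
  obtain ⟨B, hB⟩ : ∃ B : ℕ, B = 7000 + (100 - q1) * lE (ent q1 h1) := ⟨_, rfl⟩
  simp only [na, nm, ns]
  rw [← hA, ← hB]
  rcases le_total B A with h3 | h3
  · rw [Nat.cast_sub h3]
    have c1 := Dd_half_mono (s := s) (σ := (h1 : ℝ) / 200) (q := q) (q' := (q1 : ℝ) / 200) (by
      rw [abs_of_nonneg (show 0 ≤ (h1 : ℝ) / 200 by positivity)]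
      exact hs) hq0 hq (by linarith)
    have b1 := abs_le.1 (qE_ok (i := q1) (j := h1) (by omega) hh (by omega))
    have b3 := abs_le.1 (lE_ok (i := q1) (j := h1) (by omega) hh (by omega))
    have c2 : Dd ((h1 : ℝ) / 200) ((q1 : ℝ) / 200) (1 / 2) =
        gv ((q1 : ℝ) / 200) ((h1 : ℝ) / 200) -
          Lg ((h1 : ℝ) / 200) ((q1 : ℝ) / 200) * (((100 - q1 : ℕ) : ℝ) / 200) := by
      rw [Dd_gv, Nat.cast_sub (by omega)]
      have h5 : gv (1 / 2) ((h1 : ℝ) / 200) = 0 := by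
        unfold gv
        rw [Rf_half, neg_zero]
      rw [h5]
      push_cast
      ring
    rw [c2] at c1
    have c4 := dq_real hA hB (g1 := gv ((q1 : ℝ) / 200) ((h1 : ℝ) / 200))
      (L := Lg ((h1 : ℝ) / 200) ((q1 : ℝ) / 200))
      (by linarith) (by linarith) (by omega)
    refine c4.trans ?_
    exact mul_le_mul_of_nonneg_right c1 (by norm_num)
  · rw [Nat.sub_eq_zero_of_le h3]
    push_cast
    rw [zero_div]
    positivity

/-! ### The slope -/

/-- `L_H (q) - L_H (p)`. -/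
theorem J_ok {H p q : ℝ} {p1 q0 q1 h1 : ℕ} (hp : 0 < p) (hpr : p ≤ (p1 : ℝ) / 200)
    (a1 : p1 ≤ 100) (hpq : p ≤ q) (hqp : q ≤ 1 - p) (hq0 : (q0 : ℝ) / 200 ≤ q)
    (hq1 : q ≤ (q1 : ℝ) / 200) (b0 : 1 ≤ q0) (b1 : q1 ≤ 109) (hh : |H| ≤ (h1 : ℝ) / 200)
    (hh1 : h1 ≤ 50) :
    (((cond (Nat.ble q1 100) (lq q0 h1) (mn (lq q0 h1) (lq q1 h1))) -
      (lE (ent p1 h1) + 8) : ℕ) : ℝ) ≤ (Lg H q - Lg H p) * 1048576 := by
  have hq00 : (1 : ℝ) ≤ q0 := by exact_mod_cast b0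
  have q01 : q0 ≤ q1 := by
    have : (q0 : ℝ) ≤ q1 := by linarith
    exact_mod_cast this
  have hq11 : (q1 : ℝ) ≤ 109 := by exact_mod_cast b1
  have hp11 : (p1 : ℝ) ≤ 100 := by exact_mod_cast a1
  have hqpos : 0 < q := by linarith
  have hσ : |H| ≤ |(h1 : ℝ) / 200| := by
    rw [abs_of_nonneg (show 0 ≤ (h1 : ℝ) / 200 by positivity)]
    exact hh
  have k1 := Ldiff (σ1 := H) (σ2 := (h1 : ℝ) / 200) (p := q) (p0 := p) hσ hp hpq hqp
  have k2 : Lg ((h1 : ℝ) / 200) p ≤ Lg ((h1 : ℝ) / 200) ((p1 : ℝ) / 200) :=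
    Lg_mono_re hp hpr (by linarith)
  have hp1pos : 1 ≤ p1 := by
    by_contra h
    have : p1 = 0 := by omega
    rw [this] at hpr
    norm_num at hpr
    linarith
  have k3 := abs_le.1 (lE_ok (i := p1) (j := h1) a1 hh1 (by omega))
  have k4 := abs_le.1 (lq_ok (i := q0) (j := h1) (by omega) hh1 (by omega))
  have k5 := abs_le.1 (lq_ok (i := q1) (j := h1) (by omega) hh1 (by omega))
  have hJ0 : 0 ≤ Lg H q - Lg H p := by
    have := Lg_le (s := H) (x := p) (x' := q) (dn_pos' hp (by linarith))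
      (cos_le_mid hp.le hpq hqp)
    linarith
  have key : ((cond (Nat.ble q1 100) (lq q0 h1) (mn (lq q0 h1) (lq q1 h1)) : ℕ) : ℝ) ≤
      (Lg ((h1 : ℝ) / 200) q + 8) * 1048576 + 4 := by
    rcases le_or_gt q1 100 with h | h
    · rw [Nat.ble_eq_true_of_le h]
      simp only [cond_true]
      have h5 : (q1 : ℝ) ≤ 100 := by exact_mod_cast h
      have := Lg_mono_re (s := (h1 : ℝ) / 200) (t := (q0 : ℝ) / 200) (t' := q) (by positivity) hq0
        (by linarith)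
      linarith
    · rw [Bool.eq_false_iff.2 (fun h2 => absurd (Nat.le_of_ble_eq_true h2) (not_le.2 h))]
      simp only [cond_false]
      rw [mn_eq, Nat.cast_min]
      rcases le_total q (1 / 2) with h6 | h6
      · refine (min_le_left _ _).trans ?_
        have := Lg_mono_re (s := (h1 : ℝ) / 200) (t := (q0 : ℝ) / 200) (t' := q) (by positivity)
          hq0 h6
        linarith
      · refine (min_le_right _ _).trans ?_
        have := Lg_mono_re (s := (h1 : ℝ) / 200) (t := 1 - (q1 : ℝ) / 200) (t' := 1 - q)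
          (by linarith) (by linarith) (by linarith)
        rw [Lg_symm, Lg_symm] at this
        linarith
  set M := cond (Nat.ble q1 100) (lq q0 h1) (mn (lq q0 h1) (lq q1 h1)) with hM
  rcases le_total (lE (ent p1 h1) + 8) M with h | h
  · rw [Nat.cast_sub h]
    push_cast
    linarith
  · rw [Nat.sub_eq_zero_of_le h]
    push_cast
    positivity

end Pool.Agent.S5.VK
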