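import Pool.Agent.S5.I.VKf

/-!
# Real `v`: soundness of the test of a cell
-/

set_option autoImplicit false

namespace Pool.Agent.S5.VK

open Pool.Agent.H63.VC3 Pool.Agent.S3 Pool.Agent.S5 Pool.Agent.S5.Tb MeasureTheory Filter Topology
  Set

theorem nd (a b : ℕ) : Nat.div a b = a / b := by
  cases b <;> rfl

theorem nsc (a : ℕ) : Nat.succ a = a + 1 := by
  cases a <;> rfl

theorem kL_pos : ∀ i, i < 52 → 12 ≤ i → ∀ j, j < 28 → 0 < kL i j := by decide +kernel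

theorem kL_ok' {i j : ℕ} {H : ℝ} (h0 : 1 ≤ i) (h1 : i ≤ 100) (hj : j ≤ 33)
    (hH : |H| ≤ (j : ℝ) / 200) : (kL i j : ℝ) ≤ Lgd H ((i : ℝ) / 200) * 1048576 := by
  have hi0 : (1 : ℝ) ≤ i := by exact_mod_cast h0
  have hi1 : (i : ℝ) ≤ 100 := by exact_mod_cast h1
  have h2 := Lgd_anti (s := H) (s' := (j : ℝ) / 200) (x := (i : ℝ) / 200) (by
    rw [abs_of_nonneg (show 0 ≤ (j : ℝ) / 200 by positivity)]
    exact hH) (by positivity) (by linarith)
  have h3 := kL_ok h0 h1 hj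
  linarith

theorem D0_ok {T H t : ℝ} {T0 T1 t0 t1 h1 : ℕ} (hT0 : (T0 : ℝ) / 200 ≤ T)
    (hT1 : T ≤ (T1 : ℝ) / 200) (ht0 : (t0 : ℝ) / 200 ≤ t) (ht1 : t ≤ (t1 : ℝ) / 200)
    (a1 : 49 ≤ T0) (a2 : T1 ≤ 69) (a3 : 56 ≤ t0) (a4 : t1 ≤ 100) (a5 : h1 ≤ 33)
    (hH : |H| ≤ (h1 : ℝ) / 200) {k0 : ℕ}
    (hk : k0 = mn (kL (100 - mx T1 (mn t1 88)) h1) (kL (100 - mn T0 (mn t0 88)) h1)) :
    (k0 : ℝ) * (t - T) ^ 2 - e4 k0 h1 t1 ≤ 2 * Dd H (1 / 2 - T) (1 / 2 - t) * 1048576 := by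
  simp only [mx_eq, mn_eq] at hk
  have r1 : (49 : ℝ) ≤ T0 := by exact_mod_cast a1
  have r2 : (T1 : ℝ) ≤ 69 := by exact_mod_cast a2
  have r3 : (56 : ℝ) ≤ t0 := by exact_mod_cast a3
  have r4 : (t1 : ℝ) ≤ 100 := by exact_mod_cast a4
  have k1 : (k0 : ℝ) ≤ Lgd H ((((100 - max T1 (min t1 88) : ℕ) : ℝ)) / 200) * 1048576 := by
    refine le_trans ?_ (kL_ok' (by omega) (by omega) a5 hH)
    rw [hk, Nat.cast_min]
    exact min_le_left (_ : ℝ) _
  have k2 : (k0 : ℝ) ≤ Lgd H ((((100 - min T0 (min t0 88) : ℕ) : ℝ)) / 200) * 1048576 := by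
    refine le_trans ?_ (kL_ok' (by omega) (by omega) a5 hH)
    rw [hk, Nat.cast_min]
    exact min_le_right (_ : ℝ) _
  obtain ⟨k, hkk⟩ : ∃ k : ℝ, k = (k0 : ℝ) / 1048576 := ⟨_, rfl⟩
  have hk0 : 0 ≤ k := by
    rw [hkk]
    positivity
  have kk : (k0 : ℝ) = k * 1048576 := by
    rw [hkk]
    ring
  have e1 : (((100 - max T1 (min t1 88) : ℕ) : ℝ)) = 100 - max (T1 : ℝ) (min (t1 : ℝ) 88) := by
    rw [Nat.cast_sub (by omega)]
    push_cast
    rfl
  have e2 : (((100 - min T0 (min t0 88) : ℕ) : ℝ)) = 100 - min (T0 : ℝ) (min (t0 : ℝ) 88) := by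
    rw [Nat.cast_sub (by omega)]
    push_cast
    rfl
  rw [e1] at k1
  rw [e2] at k2
  obtain ⟨u, hu⟩ : ∃ u : ℝ, u = (100 - max (T1 : ℝ) (min (t1 : ℝ) 88)) / 200 := ⟨_, rfl⟩
  obtain ⟨v, hv⟩ : ∃ v : ℝ, v = (100 - min (T0 : ℝ) (min (t0 : ℝ) 88)) / 200 := ⟨_, rfl⟩
  rw [← hu, kk] at k1
  rw [← hv, kk] at k2
  have m1 := le_max_left (T1 : ℝ) (min (t1 : ℝ) 88)
  have m2 := le_max_right (T1 : ℝ) (min (t1 : ℝ) 88)
  have m3 := min_le_left (T0 : ℝ) (min (t0 : ℝ) 88)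
  have m4 := min_le_right (T0 : ℝ) (min (t0 : ℝ) 88)
  have m5 := min_le_left (t0 : ℝ) 88
  have m6 := min_le_right (t0 : ℝ) 88
  have m7 := min_le_right (t1 : ℝ) 88
  have m8 : max (T1 : ℝ) (min (t1 : ℝ) 88) ≤ 88 := max_le (by linarith) m7
  have m9 : 49 ≤ min (T0 : ℝ) (min (t0 : ℝ) 88) := le_min r1 (le_min (by linarith) (by norm_num))
  have hu0 : 6 / 100 ≤ u := by rw [hu]; linarith
  have hv0 : v ≤ 1 / 2 := by rw [hv]; linarith
  have hw1 : u ≤ 1 / 2 - T := by rw [hu]; linarith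
  have hw2 : 1 / 2 - T ≤ v := by rw [hv]; linarith
  have hc1 : k ≤ Lgd H u := by linarith
  have hc2 : k ≤ Lgd H v := by linarith
  have hx : (1 / 2 - T - (1 / 2 - t)) ^ 2 = (t - T) ^ 2 := by ring
  rcases le_or_gt t (88 / 200) with h | h
  · have hh1 : u ≤ 1 / 2 - t := by
      rw [hu]
      have : t * 200 ≤ min (t1 : ℝ) 88 := le_min (by linarith) (by linarith)
      linarith
    have hh2 : 1 / 2 - t ≤ v := by
      rw [hv]
      linarith
    have h5 := VB.D0_A (s := H) (w0 := 1 / 2 - T) (w := 1 / 2 - t) (u := u) (v := v) (m := k)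
      (by linarith) hv0 hw1 hw2 hh1 hh2 hk0 hc1 hc2
    rw [hx] at h5
    have : (0 : ℝ) ≤ e4 k0 h1 t1 := Nat.cast_nonneg _
    rw [kk]
    linarith
  · have h88 : 88 < t1 := by
      have : (88 : ℝ) < t1 := by linarith
      exact_mod_cast this
    have h88' : (88 : ℝ) < t1 := by exact_mod_cast h88
    have eu : u = 6 / 100 := by
      rw [hu, min_eq_right h88'.le, max_eq_right (by linarith)]
      norm_num
    have hL := kL_ok' (i := 12) (j := h1) (H := H) (by norm_num) (by norm_num) a5 hH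
    rw [show (((12 : ℕ) : ℝ) / 200) = 6 / 100 by norm_num] at hL
    rw [eu] at hc1 hw1
    have h5 := D0_hi (s := H) (w0 := 1 / 2 - T) (w := 1 / 2 - t) (v := v) (m := k)
      (μ := (kL 12 h1 : ℝ) / 1048576) hv0 hw1 hw2 (by linarith) (by linarith) hk0 hc1 hc2
      (by linarith)
    rw [hx] at h5
    have h6 : ((k - 2 / 3 * ((kL 12 h1 : ℝ) / 1048576)) * (6 / 100 - (1 / 2 - t)) ^ 2) * 1048576 ≤
        (e4 k0 h1 t1 : ℝ) := by
      unfold e4
      rw [Bool.eq_false_iff.2 (fun h2 => absurd (Nat.le_of_ble_eq_true h2) (not_le.2 h88))]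
      simp only [cond_false]
      refine le_trans ?_ (div_up _ 120000 (by norm_num))
      rw [nm, nm, nm, nm, ns, ns, Nat.cast_mul, Nat.cast_mul, Nat.cast_sub h88.le]
      have s1 := sub_ge (3 * k0) (2 * kL 12 h1)
      push_cast at s1 ⊢
      have s2 : 0 ≤ (t1 : ℝ) - 88 := by linarith
      have s3 : (6 / 100 - (1 / 2 - t)) ^ 2 ≤ (((t1 : ℝ) - 88) / 200) ^ 2 :=
        pow_le_pow_left₀ (by linarith) (by linarith) 2
      rcases le_total 0 (3 * (k0 : ℝ) - 2 * (kL 12 h1 : ℝ)) with s4 | s4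
      · have s5 := mul_le_mul_of_nonneg_left s3 s4
        have s6 := mul_le_mul_of_nonneg_right s1 (mul_nonneg s2 s2)
        rw [le_div_iff₀ (by norm_num), hkk]
        nlinarith
      · have s5 : (k - 2 / 3 * ((kL 12 h1 : ℝ) / 1048576)) ≤ 0 := by
          rw [hkk]
          linarith
        have s6 := mul_nonpos_of_nonpos_of_nonneg s5 (sq_nonneg (6 / 100 - (1 / 2 - t)))
        have s7 : 0 ≤ ((3 * k0 - 2 * kL 12 h1 : ℕ) : ℝ) * (((t1 : ℝ) - 88) * ((t1 : ℝ) - 88)) /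
            120000 := by positivity
        linarith
    rw [kk]
    linarith

/-- The cell. -/
structure Cl (X N T H t : ℝ) (neg : Bool) (p0 p1 X0 X1 h0 h1 t0 t1 : ℕ) : Prop where
  rg : VB.RG X N T H
  n0 : 0 < N
  n1 : N ≤ 88 / 1000
  nd : N - H ≤ 165 / 1000
  sn : neg = true → H ≤ 0
  sp : neg = false → 0 ≤ H
  pl : (p0 : ℝ) ≤ 200 * (T - X)
  pr : 200 * (T - X) ≤ p1
  xl : (X0 : ℝ) ≤ 200 * X
  xr : 200 * X ≤ X1
  hl : (h0 : ℝ) ≤ 200 * |H|
  hr : 200 * |H| ≤ h1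
  tl : (t0 : ℝ) ≤ 200 * t
  tr : 200 * t ≤ t1

theorem fN_ex {f : ℕ → Bool} {n : ℕ} (h : fN f n = true) : ∃ m, m = n ∧ f m = true :=
  ⟨n, rfl, by rwa [fN_eq] at h⟩

theorem sb_ok {hi L k T0m T1m t0 t1 A B : ℕ} (hk : 0 < k)
    (h : sb hi L k T0m T1m t0 t1 A B = true) {t T c : ℝ} (h1 : (T0m : ℝ) / 1000 ≤ T)
    (h2 : T ≤ (T1m : ℝ) / 1000) (h3 : (t0 : ℝ) / 200 ≤ t) (h4 : t ≤ (t1 : ℝ) / 200)
    (hc1 : c ≤ hi) (hc2 : -c ≤ L) :
    (A : ℝ) + ((t - T) * c - k * (t - T) ^ 2) ≤ B := by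
  unfold sb at h
  rw [nm, nm] at h
  rcases le_total T t with h5 | h5
  · have e : Nat.ble T0m (5 * t1) = true := by
      apply Nat.ble_eq_true_of_le
      have : (T0m : ℝ) ≤ 5 * t1 := by linarith
      exact_mod_cast this
    rw [e] at h
    simp only [cond_true] at h
    have h6 : sf hi k (5 * t0 - T1m) (5 * t1 - T0m) A B = true := by
      cases h7 : sf hi k (Nat.sub (5 * t0) T1m) (Nat.sub (5 * t1) T0m) A B
      · rw [h7] at h
        simp at h
      · rfl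
    have h8 := sf_ok hk h6 (δ := t - T) (by
      rcases le_total T1m (5 * t0) with g | g
      · rw [Nat.cast_sub g]
        push_cast
        linarith
      · rw [Nat.sub_eq_zero_of_le g]
        push_cast
        linarith) (by
      have := sub_ge (5 * t1) T0m
      push_cast at this
      linarith)
    have h9 : (t - T) * c ≤ hi * (t - T) := by
      have := mul_le_mul_of_nonneg_left hc1 (sub_nonneg.2 h5)
      linarith
    linarith
  · have e : Nat.ble (5 * t0) T1m = true := by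
      apply Nat.ble_eq_true_of_le
      have : 5 * (t0 : ℝ) ≤ T1m := by linarith
      exact_mod_cast this
    rw [e] at h
    simp only [cond_true] at h
    have h6 : sf L k (T0m - 5 * t1) (T1m - 5 * t0) A B = true := by
      cases h7 : sf L k (Nat.sub T0m (5 * t1)) (Nat.sub T1m (5 * t0)) A B
      · rw [h7] at h
        simp at h
      · rfl
    have h8 := sf_ok hk h6 (δ := T - t) (by
      rcases le_total (5 * t1) T0m with g | g
      · rw [Nat.cast_sub g]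
        push_cast
        linarith
      · rw [Nat.sub_eq_zero_of_le g]
        push_cast
        linarith) (by
      have := sub_ge T1m (5 * t0)
      push_cast at this
      linarith)
    have h9 : (t - T) * c ≤ L * (T - t) := by
      have := mul_le_mul_of_nonneg_left hc2 (sub_nonneg.2 h5)
      linarith
    have h10 : (T - t) ^ 2 = (t - T) ^ 2 := by ring
    rw [h10] at h8
    linarith

end Pool.Agent.S5.VK
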