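import Pool.Agent.S5.I.VKg

/-!
# Real `v`: soundness of the branch and bound
-/

set_option autoImplicit false

namespace Pool.Agent.S5.VK

open Pool.Agent.H63.VC3 Pool.Agent.S3 Pool.Agent.S5 Pool.Agent.S5.Tb MeasureTheory Filter Topology
  Set

theorem succ_ge {A B : ℕ} {x : ℝ} (hB : 0 < B) (h : x ≤ (A : ℝ) / B) :
    x ≤ ((Nat.succ (Nat.div A B) : ℕ) : ℝ) := h.trans (div_up A B hB)

theorem lg_ok {X N T H t : ℝ} {m2 ex : ℕ} {neg : Bool} {p0 p1 X0 X1 h0 h1 t0 t1 : ℕ}
    (C : Cl X N T H t neg p0 p1 X0 X1 h0 h1 t0 t1) (b1 : 15 ≤ p0) (b2 : p1 ≤ 69) (b3 : X1 ≤ 43)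
    (b4 : h1 ≤ 27) (b4' : neg = false → h1 ≤ 20) (b5 : 56 ≤ t0) (b6 : t1 ≤ 100) (b7 : 1 ≤ h1)
    (h : lg m2 ex neg p0 p1 X0 X1 h0 h1 t0 t1 = true) :
    Rt X N T H t * 1048576 + (m2 : ℝ) / 2 * N ^ 2 + ex < 0 := by
  unfold lg at h
  obtain ⟨Nb, hNb, h⟩ := fN_ex h
  obtain ⟨q0, hq0, h⟩ := fN_ex h
  obtain ⟨q1, hq1, h⟩ := fN_ex h
  obtain ⟨T0, hT0, h⟩ := fN_ex h
  obtain ⟨T1, hT1, h⟩ := fN_ex h
  obtain ⟨K0, hK0, h⟩ := fN_ex h
  obtain ⟨V, hV, h⟩ := fN_ex h
  obtain ⟨k0, hk0, h⟩ := fN_ex h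
  obtain ⟨qm, hqm, h⟩ := fN_ex h
  obtain ⟨J, hJ, h⟩ := fN_ex h
  obtain ⟨A, hA, h⟩ := fN_ex h
  obtain ⟨B, hB, h⟩ := fN_ex h
  obtain ⟨hi, hhi, h⟩ := fN_ex h
  obtain ⟨L, hL, h⟩ := fN_ex h
  -- the real data
  have c1 := C.rg.x0
  have c2 := C.rg.x1
  have c3 := C.rg.g
  have c4 := C.rg.t0
  have c5 := C.rg.t1
  have c6 := C.rg.p
  have c7 := C.n0
  have c8 := C.n1
  have c9 := C.nd
  have cpl := C.pl
  have cpr := C.pr
  have cxl := C.xl
  have cxr := C.xr
  have chl := C.hl
  have chr := C.hr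
  have ctl := C.tl
  have ctr := C.tr
  have p01 : p0 ≤ p1 := by
    have : (p0 : ℝ) ≤ p1 := by linarith only [cpr, cpl]
    exact_mod_cast this
  have h01 : h0 ≤ h1 := by
    have : (h0 : ℝ) ≤ h1 := by linarith only [chr, chl]
    exact_mod_cast this
  have t01 : t0 ≤ t1 := by
    have : (t0 : ℝ) ≤ t1 := by linarith only [ctr, ctl]
    exact_mod_cast this
  have p1r : (p1 : ℝ) ≤ 69 := by exact_mod_cast b2
  have p0r : (15 : ℝ) ≤ p0 := by exact_mod_cast b1
  have X1r : (X1 : ℝ) ≤ 43 := by exact_mod_cast b3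
  have t0r : (56 : ℝ) ≤ t0 := by exact_mod_cast b5
  have t1r : (t1 : ℝ) ≤ 100 := by exact_mod_cast b6
  -- positions
  have eq0 : q0 = max (p0 + 2 * X0) (49 + X0) := by
    rw [hq0, mx_eq, na, na, nm]
  have eq1 : q1 = min 109 (p1 + 2 * X1) := by
    rw [hq1, mn_eq, na, nm]
  have eT0 : T0 = max 49 (p0 + X0) := by
    rw [hT0, mx_eq, na]
  have eT1 : T1 = min 69 (p1 + X1) := by
    rw [hT1, mn_eq, na]
  have rq0 : (q0 : ℝ) / 200 ≤ T + X := by
    rw [eq0, Nat.cast_max, div_le_iff₀ (by norm_num)]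
    push_cast
    exact max_le (by linarith only [cxl, cpl]) (by linarith only [cxl, c4])
  have rq1 : T + X ≤ (q1 : ℝ) / 200 := by
    rw [eq1, Nat.cast_min, le_div_iff₀ (by norm_num)]
    push_cast
    exact le_min (by linarith only [c6]) (by linarith only [cxr, cpr])
  have rT0 : (T0 : ℝ) / 200 ≤ T := by
    rw [eT0, Nat.cast_max, div_le_iff₀ (by norm_num)]
    push_cast
    exact max_le (by linarith only [c4]) (by linarith only [cxl, cpl])
  have rT1 : T ≤ (T1 : ℝ) / 200 := by
    rw [eT1, Nat.cast_min, le_div_iff₀ (by norm_num)]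
    push_cast
    exact le_min (by linarith only [c5, c2, c1]) (by linarith only [cxr, cpr])
  have nq0 : 49 ≤ q0 := by
    rw [eq0]
    exact le_trans (by omega) (le_max_right _ _)
  have nq1 : q1 ≤ 109 := by
    rw [eq1]
    exact min_le_left _ _
  have q01 : q0 ≤ q1 := by
    have : (q0 : ℝ) ≤ q1 := by linarith only [rq1, rq0]
    exact_mod_cast this
  have nT0 : 49 ≤ T0 := by
    rw [eT0]
    exact le_max_left _ _
  have nT1 : T1 ≤ 69 := by
    rw [eT1]
    exact min_le_left _ _
  have hp0 : (p0 : ℝ) / 200 ≤ T - X := by linarith only [cpl]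
  have hp1 : T - X ≤ (p1 : ℝ) / 200 := by linarith only [cpr]
  have hp2 : T - X ≤ 1 / 2 := by linarith only [c5, c2, c1]
  have hpos : 0 < T - X := by linarith only [c3, c2, c1]
  have hh0 : (h0 : ℝ) / 200 ≤ |H| := by linarith only [chl]
  have hh1 : |H| ≤ (h1 : ℝ) / 200 := by linarith only [chr]
  -- `N`
  have rNb : N ≤ (Nb : ℝ) / 1000 := by
    rw [hNb]
    cases hn : neg
    · simp only [cond_false]
      push_cast
      linarith only [c8]
    · simp only [cond_true]
      rw [mn_eq, nm, ns, Nat.cast_min, le_div_iff₀ (by norm_num)]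
      have hH := C.sn hn
      rw [abs_of_nonpos hH] at chl
      have := sub_ge 165 (5 * h0)
      push_cast at this ⊢
      exact le_min (by linarith only [c8]) (by linarith only [this, chl, c9])
  -- the quadratic part
  have hVm : Vm (T - X) H N * 1048576 ≤
      ((cond neg (vN K0 p0 h0 Nb) (vP K0 p0 h0 h1) : ℕ) : ℝ) / 2000000 := by
    rw [hK0]
    cases hn : neg
    · simp only [cond_false]
      have hH := C.sp hn
      rw [abs_of_nonneg hH] at hh0 hh1
      exact vP_ok (by omega) (by omega) hp0 (by linarith only [c5, c2, c1]) c7.le c8 (by have := b4' hn; omega) hh0 hh1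
    · simp only [cond_true]
      exact vN_ok (by omega) (by omega) hp0 (by linarith only [c5, c2, c1]) c7.le rNb (by omega) (C.sn hn) hh0
  have hVq : Vm (T + X) (-H) N * 1048576 ≤
      ((cond (Nat.ble 100 q0) 0 (kU q0 (cond neg 0 h0)) * (Nb * Nb) : ℕ) : ℝ) / 2000000 := by
    apply vq_ok nq0 rq0 (by linarith only [c5, c2, c1]) c7.le rNb
    · cases hn : neg
      · simp only [cond_false]
        have := b4' hn
        omega
      · simp
    · cases hn : neg
      · right
        simp only [cond_false]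
        rw [abs_of_nonneg (C.sp hn)] at hh0
        exact hh0
      · left
        rfl
  have hV1 : Vm (T - X) H N * 1048576 + Vm (T + X) (-H) N * 1048576 + (m2 : ℝ) / 2 * N ^ 2 ≤
      (V : ℝ) / 2000000 := by
    rw [hV, na, nm, na, nm]
    have hm : (m2 : ℝ) / 2 * N ^ 2 ≤ (m2 : ℝ) / 2 * ((Nb : ℝ) / 1000) ^ 2 := by
      apply mul_le_mul_of_nonneg_left _ (by positivity)
      exact pow_le_pow_left₀ c7.le rNb 2
    push_cast at hVm hVq ⊢
    linarith only [hVq, hm, hVm]
  -- the defects
  have hH33 : h1 ≤ 33 := by omega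
  have hD0 := D0_ok (T := T) (H := H) (t := t) (T0 := T0) (T1 := T1) (t0 := t0) (t1 := t1)
    (h1 := h1) rT0 rT1 (by linarith only [ctl]) (by linarith only [ctr]) nT0 nT1 b5 b6 hH33 hh1 (k0 := k0) hk0
  have hDq : -Dd H (T + X) (t + 7 / 25) * 1048576 ≤ (gq (5 * t1 - 220) : ℝ) - dq q1 h1 := by
    have e1 : t + 7 / 25 = 1 / 2 + (t - 22 / 100) := by ring
    have g2 : Gp (t - 22 / 100) ≤ Gp (((5 * t1 - 220 : ℕ) : ℝ) / 1000) := by
      apply Gp_mono (by linarith only [t0r, ctl, c8, c7])
      rw [Nat.cast_sub (by omega)]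
      push_cast
      linarith only [ctr]
    have g3 := gq_ok (5 * t1 - 220)
    rcases le_or_gt 100 q1 with g5 | g5
    · have g1 := NDq (s := H) (u := T + X) (a := t - 22 / 100) (by linarith only [c3, c2, c1]) (by linarith only [c6])
        (by linarith only [t0r, ctl, c8, c7]) (by linarith only [t1r, ctr])
      rw [← e1] at g1
      have g6 : dq q1 h1 = 0 := by
        unfold dq
        rw [Nat.ble_eq_true_of_le g5]
        rfl
      rw [g6]
      push_cast
      linarith only [g1, g3, g2]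
    · have g7 : (q1 : ℝ) ≤ 100 := by exact_mod_cast g5.le
      have g1 := NDq' (s := H) (u := T + X) (a := t - 22 / 100) (by linarith only [c3, c2, c1]) (by linarith only [g7,
                                                                                                      rq1])
        (by linarith only [t0r, ctl, c8, c7]) (by linarith only [t1r, ctr])
      rw [← e1] at g1
      have g6 := dq_ok (s := H) (q := T + X) (q1 := q1) (h1 := h1) (by omega) g5 (by omega)
        (by linarith only [c3, c2, c1]) rq1 hh1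
      linarith only [g6, g1, g3, g2]
  have hDp : (dm p0 (t1 - 56) h1 : ℝ) ≤ Dd H (T - X) (t - 7 / 25) * 1048576 := by
    apply dm_ok (by omega) (by omega) (by omega) b7 hp0 hp2 (by linarith only [t0r, ctl]) _ hh1 (by linarith only [t1r,
                                                                                                      ctr,
                                                                                                      c8,
                                                                                                      c7,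
                                                                                                      c5,
                                                                                                      c1])
    rw [Nat.cast_sub (by omega)]
    push_cast
    linarith only [ctr]
  have hJ' : (J : ℝ) ≤ (Lg H (T + X) - Lg H (T - X)) * 1048576 := by
    have := J_ok (H := H) (p := T - X) (q := T + X) (p1 := p1) (q0 := q0) (q1 := q1) (h1 := h1)
      hpos hp1 (by omega) (by linarith only [c1]) (by linarith only [c5, c2, c1]) rq0 rq1 (by omega) nq1 hh1 (by omega)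
    rw [hJ]
    exact this
  -- the position of the minimum of the distance
  have hqm1 : qm ≤ 100 ∧ 49 ≤ qm ∧ (qm : ℝ) / 200 ≤ T + X ∧ T + X ≤ 1 - (qm : ℝ) / 200 := by
    rcases le_or_gt q1 100 with h5 | h5
    · rw [Nat.ble_eq_true_of_le h5] at hqm
      simp only [cond_true] at hqm
      rw [hqm]
      have h6 : (q1 : ℝ) ≤ 100 := by exact_mod_cast h5
      have h7 : (q0 : ℝ) ≤ q1 := by exact_mod_cast q01
      exact ⟨by omega, nq0, rq0, by linarith only [h6, rq1, rq0]⟩
    · rw [Bool.eq_false_iff.2 (fun h2 => absurd (Nat.le_of_ble_eq_true h2) (not_le.2 h5))] at hqm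
      simp only [cond_false] at hqm
      rw [mn_eq, ns] at hqm
      have h6 : qm ≤ q0 := by
        rw [hqm]
        exact min_le_left _ _
      have h7 : qm ≤ 200 - q1 := by
        rw [hqm]
        exact min_le_right _ _
      have h8 : (qm : ℝ) ≤ q0 := by exact_mod_cast h6
      have h9 : (qm : ℝ) ≤ 200 - q1 := by
        have : ((200 - q1 : ℕ) : ℝ) = 200 - q1 := by
          rw [Nat.cast_sub (by omega)]
          norm_num
        rw [← this]
        exact_mod_cast h7
      exact ⟨by omega, by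
        rw [hqm]
        exact le_min nq0 (by omega), by linarith only [h8, rq0], by linarith only [h9, rq1]⟩
  obtain ⟨m1, m2', m3, m4⟩ := hqm1
  obtain ⟨c, hc⟩ : ∃ c : ℝ, c = ((Lg (H - N) (T - X) - Lg H (T - X)) +
    (Lg (H + N) (T + X) - Lg H (T + X))) * 1048576 := ⟨_, rfl⟩
  have hc1 : c ≤ hi := by
    rw [hc, hhi]
    cases hn : neg
    · simp only [cond_false]
      rw [abs_of_nonneg (C.sp hn)] at hh0 hh1
      exact hiP_ok (by omega) (by omega) m2' m1 hp0 hp2 m3 m4 c7.le c8 hh0 hh1 (b4' hn)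
    · simp only [cond_true]
      exact hiN_ok (by omega) (by omega) (by omega) m1 hp0 hp2 m3 m4 c7.le c8 c9 (C.sn hn) hh0 hh1
        (by omega)
  have hc2 : -c ≤ L := by
    rw [hc, hL, ← neg_mul]
    cases hn : neg
    · simp only [cond_false]
      rw [abs_of_nonneg (C.sp hn)] at hh0 hh1
      exact loP_ok (by omega) (by omega) hp0 hp2 (by linarith only [c3, c2, c1]) (by linarith only [c5,
                                                                                       c2, c1]) c7.le c8 hh0 hh1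
        (by omega)
    · simp only [cond_true]
      exact loN_ok (by omega) m1 hpos hp2 m3 m4 c7.le (C.sn hn) hh1 (by omega)
  have hk : 0 < k0 := by
    rw [hk0, mn_eq, mx_eq, mn_eq, mn_eq, ns, ns, mn_eq]
    apply lt_min
    · exact kL_pos _ (by omega) (by omega) _ (by omega)
    · exact kL_pos _ (by omega) (by omega) _ (by omega)
  have hs := sb_ok hk h (t := t) (T := T) (c := c) (by
      rw [nm]
      push_cast
      linarith only [rT0]) (by
      rw [mn_eq, nm, Nat.cast_min, le_div_iff₀ (by norm_num)]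
      push_cast
      exact le_min (by linarith only [c5]) (by linarith only [rT1])) (by linarith only [ctl]) (by linarith only [ctr]) hc1 hc2
  -- the sums
  have hA1 : (V : ℝ) / 2000000 + gq (5 * t1 - 220) + e4 k0 h1 t1 + 1 + ex ≤ A := by
    rw [hA, na, na, na, nm, ns, nsc (e4 k0 h1 t1)]
    have := succ_ge (A := V) (B := 2000000) (by norm_num) (le_refl ((V : ℝ) / ((2000000 : ℕ) : ℝ)))
    rw [Nat.cast_add, Nat.cast_add, Nat.cast_add, Nat.cast_add (e4 k0 h1 t1)]
    push_cast at this ⊢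
    linarith only [this]
  have hB1 : (B : ℝ) ≤ (7 / 25 - X) * ((Lg H (T + X) - Lg H (T - X)) * 1048576) +
      (dm p0 (t1 - 56) h1 + dq q1 h1) := by
    rw [hB, na, Nat.cast_add, na, Nat.cast_add, nm, ns, ns]
    have g1 := div_dn ((56 - X1) * J) 200
    rw [Nat.cast_mul, Nat.cast_sub (by omega)] at g1
    have g2 : (((56 : ℕ) : ℝ) - X1) * (J : ℝ) / ((200 : ℕ) : ℝ) ≤
        (7 / 25 - X) * ((Lg H (T + X) - Lg H (T - X)) * 1048576) := by
      have g3 : (((56 : ℕ) : ℝ) - X1) / 200 ≤ 7 / 25 - X := by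
        push_cast
        linarith only [cxr]
      have g4 := mul_le_mul g3 hJ' (Nat.cast_nonneg _) (by linarith only [c2, c1])
      push_cast at g4 ⊢
      linarith only [g4]
    linarith only [g2, g1]
  have hR := Rt_eq (X := X) (N := N) (T := T) (H := H) (t := t) c7.ne' (by linarith only [c3, c2,
                                                                             c1]) (by linarith only [c5,
                                                                                        c2, c1])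
  rw [hR]
  have hfin : (t - T) * ((Lg (H - N) (T - X) - Lg H (T - X)) +
      (Lg (H + N) (T + X) - Lg H (T + X))) * 1048576 = (t - T) * c := by
    rw [hc]
    ring
  linarith only [hfin, hB1, hA1, hs, hDp, hDq, hD0, hV1, c8, c7]

theorem lf_ok {X N T H t : ℝ} {m2 ex : ℕ} {neg : Bool} {p0 p1 X0 X1 h0 h1 t0 t1 : ℕ}
    (C : Cl X N T H t neg p0 p1 X0 X1 h0 h1 t0 t1) (b1 : 15 ≤ p0) (b2 : p1 ≤ 69) (b3 : X1 ≤ 43)
    (b4 : h1 ≤ 27) (b4' : neg = false → h1 ≤ 20) (b5 : 56 ≤ t0) (b6 : t1 ≤ 100) (b7 : 1 ≤ h1)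
    (h : lf m2 ex neg p0 p1 X0 X1 h0 h1 t0 t1 = true) :
    Rt X N T H t * 1048576 + (m2 : ℝ) / 2 * N ^ 2 + ex < 0 := by
  unfold lf at h
  obtain ⟨Y1, hY1, h⟩ := fN_ex h
  obtain ⟨Y0, hY0, h⟩ := fN_ex h
  obtain ⟨a0, ha0, h⟩ := fN_ex h
  obtain ⟨a1, ha1, h⟩ := fN_ex h
  have c1 := C.rg.x0
  have c2 := C.rg.x1
  have c3 := C.rg.g
  have c4 := C.rg.t0
  have c5 := C.rg.t1
  have c6 := C.rg.p
  have cpl := C.pl
  have cpr := C.pr
  have cxl := C.xl
  have cxr := C.xr
  have p01 : p0 ≤ p1 := by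
    have : (p0 : ℝ) ≤ p1 := by linarith only [cpr, cpl]
    exact_mod_cast this
  have X01 : X0 ≤ X1 := by
    have : (X0 : ℝ) ≤ X1 := by linarith only [cxr, cxl]
    exact_mod_cast this
  have eY1 : Y1 = min X1 (min (69 - p0) ((110 - p0) / 2)) := by
    rw [hY1, mn_eq, mn_eq, ns, ns, nd]
  have eY0 : Y0 = max X0 (49 - p1) := by
    rw [hY0, mx_eq, ns]
  have ea0 : a0 = max p0 (49 - Y1) := by
    rw [ha0, mx_eq, ns]
  have ea1 : a1 = min p1 (min (69 - Y0) (109 - 2 * Y0)) := by
    rw [ha1, mn_eq, mn_eq, ns, ns, nm]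
  have X0r : X0 ≤ 43 := by omega
  have rY1 : 200 * X ≤ Y1 := by
    rw [eY1, Nat.cast_min, Nat.cast_min, Nat.cast_sub (by omega)]
    refine le_min cxr (le_min ?_ ?_)
    · push_cast
      linarith only [cpl, c5, c2, c1]
    · have h5 : 109 - p0 ≤ 2 * ((110 - p0) / 2) := by omega
      have h6 : ((109 - p0 : ℕ) : ℝ) ≤ 2 * (((110 - p0) / 2 : ℕ) : ℝ) := by exact_mod_cast h5
      rw [Nat.cast_sub (by omega)] at h6
      push_cast at h6 ⊢
      linarith only [h6, cpl, c6]
  have rY0 : (Y0 : ℝ) ≤ 200 * X := by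
    rw [eY0, Nat.cast_max]
    refine max_le cxl ?_
    rcases le_total p1 49 with h5 | h5
    · rw [Nat.cast_sub h5]
      push_cast
      linarith only [cpr, c4]
    · rw [Nat.sub_eq_zero_of_le h5]
      push_cast
      linarith only [c1]
  have hY43 : Y1 ≤ 43 := by
    rw [eY1]
    exact (min_le_left _ _).trans b3
  have Y01 : Y0 ≤ Y1 := by
    have : (Y0 : ℝ) ≤ Y1 := by linarith only [rY0, rY1]
    exact_mod_cast this
  have ra0 : (a0 : ℝ) ≤ 200 * (T - X) := by
    rw [ea0, Nat.cast_max, Nat.cast_sub (by omega)]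
    refine max_le cpl ?_
    push_cast
    linarith only [rY1, c4]
  have ra1 : 200 * (T - X) ≤ a1 := by
    rw [ea1, Nat.cast_min, Nat.cast_min, Nat.cast_sub (by omega), Nat.cast_sub (by omega)]
    refine le_min cpr (le_min ?_ ?_)
    · push_cast
      linarith only [rY0, c5, c2, c1]
    · push_cast
      linarith only [rY0, c6]
  have a01 : a0 ≤ a1 := by
    have : (a0 : ℝ) ≤ a1 := by linarith only [ra1, ra0]
    exact_mod_cast this
  have e1 : Nat.ble (Nat.succ Y1) Y0 = false :=
    Bool.eq_false_iff.2 (fun h2 => absurd (Nat.le_of_ble_eq_true h2) (by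
      rw [nsc]
      omega))
  have e2 : Nat.ble (Nat.succ a1) a0 = false :=
    Bool.eq_false_iff.2 (fun h2 => absurd (Nat.le_of_ble_eq_true h2) (by
      rw [nsc]
      omega))
  simp only [e1, e2, cond_false] at h
  exact lg_ok ⟨C.rg, C.n0, C.n1, C.nd, C.sn, C.sp, ra0, ra1, rY0, rY1, C.hl, C.hr, C.tl, C.tr⟩
    (by rw [ea0]; exact b1.trans (le_max_left _ _)) (by rw [ea1]; exact (min_le_left _ _).trans b2)
    hY43 b4 b4' b5 b6 b7 h

theorem bv_ok {X N T H t : ℝ} {m2 ex : ℕ} {neg : Bool} (n : ℕ) :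
    ∀ {p0 p1 X0 X1 h0 h1 t0 t1 : ℕ},
    Cl X N T H t neg p0 p1 X0 X1 h0 h1 t0 t1 → 15 ≤ p0 → p1 ≤ 69 → X1 ≤ 43 →
    h1 ≤ 27 → (neg = false → h1 ≤ 20) → 56 ≤ t0 → t1 ≤ 100 → 1 ≤ h1 →
    bv m2 ex neg n p0 p1 X0 X1 h0 h1 t0 t1 = true →
    Rt X N T H t * 1048576 + (m2 : ℝ) / 2 * N ^ 2 + ex < 0 := by
  induction n with
  | zero =>
    intro p0 p1 X0 X1 h0 h1 t0 t1 _ _ _ _ _ _ _ _ _ h
    exact absurd h (by
      show ¬(false = true)
      decide)
  | succ n ih =>
    intro p0 p1 X0 X1 h0 h1 t0 t1 C b1 b2 b3 b4 b4' b5 b6 b7 h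
    have h' : cond (lf m2 ex neg p0 p1 X0 X1 h0 h1 t0 t1) true
        (fN (fun a => fN (fun b => fN (fun c => fN (fun d =>
          cond (cond (Nat.ble b a) (cond (Nat.ble c a) (Nat.ble d a) false) false)
            (fN (fun m => cond (bv m2 ex neg n p0 m X0 X1 h0 h1 t0 t1)
                (bv m2 ex neg n m p1 X0 X1 h0 h1 t0 t1) false)
              (Nat.div (Nat.add p0 p1) 2))
            (cond (cond (Nat.ble c b) (Nat.ble d b) false)
              (fN (fun m => cond (bv m2 ex neg n p0 p1 X0 m h0 h1 t0 t1)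
                  (bv m2 ex neg n p0 p1 m X1 h0 h1 t0 t1) false)
                (Nat.div (Nat.add X0 X1) 2))
              (cond (Nat.ble d c)
                (fN (fun m => cond (bv m2 ex neg n p0 p1 X0 X1 h0 m t0 t1)
                    (bv m2 ex neg n p0 p1 X0 X1 m h1 t0 t1) false)
                  (Nat.div (Nat.add h0 h1) 2))
                (fN (fun m => cond (bv m2 ex neg n p0 p1 X0 X1 h0 h1 t0 m)
                    (bv m2 ex neg n p0 p1 X0 X1 h0 h1 m t1) false)
                  (Nat.div (Nat.add t0 t1) 2)))))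
          (Nat.sub t1 t0)) (Nat.sub h1 h0)) (Nat.sub X1 X0)) (Nat.sub p1 p0)) = true := h
    clear h
    cases hl : lf m2 ex neg p0 p1 X0 X1 h0 h1 t0 t1
    · rw [hl] at h'
      simp only [cond_false, fN_eq] at h'
      have both : ∀ a b : Bool, cond a b false = true → a = true ∧ b = true := by decide
      have c3 : ∀ u a b : Bool, cond u a b = true → a = true ∨ b = true := by decide
      have p01 : p0 ≤ p1 := by
        have := C.pl.trans C.pr
        exact_mod_cast this
      have X01 : X0 ≤ X1 := by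
        have := C.xl.trans C.xr
        exact_mod_cast this
      have h01 : h0 ≤ h1 := by
        have := C.hl.trans C.hr
        exact_mod_cast this
      have t01 : t0 ≤ t1 := by
        have := C.tl.trans C.tr
        exact_mod_cast this
      rcases c3 _ _ _ h' with h2 | h2
      · obtain ⟨g1, g2⟩ := both _ _ h2
        obtain ⟨m, hm⟩ : ∃ m, m = Nat.div (Nat.add p0 p1) 2 := ⟨_, rfl⟩
        rw [← hm] at g1 g2
        rw [nd, na] at hm
        rcases le_or_gt (m : ℝ) (200 * (T - X)) with h5 | h5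
        · exact ih ⟨C.rg, C.n0, C.n1, C.nd, C.sn, C.sp, h5, C.pr, C.xl, C.xr, C.hl, C.hr, C.tl,
            C.tr⟩ (by omega) b2 b3 b4 b4' b5 b6 b7 g2
        · exact ih ⟨C.rg, C.n0, C.n1, C.nd, C.sn, C.sp, C.pl, h5.le, C.xl, C.xr, C.hl, C.hr, C.tl,
            C.tr⟩ b1 (by omega) b3 b4 b4' b5 b6 b7 g1
      · rcases c3 _ _ _ h2 with h3 | h3
        · obtain ⟨g1, g2⟩ := both _ _ h3
          obtain ⟨m, hm⟩ : ∃ m, m = Nat.div (Nat.add X0 X1) 2 := ⟨_, rfl⟩
          rw [← hm] at g1 g2
          rw [nd, na] at hm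
          rcases le_or_gt (m : ℝ) (200 * X) with h5 | h5
          · exact ih ⟨C.rg, C.n0, C.n1, C.nd, C.sn, C.sp, C.pl, C.pr, h5, C.xr, C.hl, C.hr, C.tl,
              C.tr⟩ b1 b2 b3 b4 b4' b5 b6 b7 g2
          · exact ih ⟨C.rg, C.n0, C.n1, C.nd, C.sn, C.sp, C.pl, C.pr, C.xl, h5.le, C.hl, C.hr,
              C.tl, C.tr⟩ b1 b2 (by omega) b4 b4' b5 b6 b7 g1
        · rcases c3 _ _ _ h3 with h4 | h4
          · obtain ⟨g1, g2⟩ := both _ _ h4
            obtain ⟨m, hm⟩ : ∃ m, m = Nat.div (Nat.add h0 h1) 2 := ⟨_, rfl⟩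
            rw [← hm] at g1 g2
            rw [nd, na] at hm
            rcases le_or_gt (m : ℝ) (200 * |H|) with h5 | h5
            · exact ih ⟨C.rg, C.n0, C.n1, C.nd, C.sn, C.sp, C.pl, C.pr, C.xl, C.xr, h5, C.hr, C.tl,
                C.tr⟩ b1 b2 b3 b4 b4' b5 b6 b7 g2
            · have hm1 : 1 ≤ m := by
                have : (0 : ℝ) < m := lt_of_le_of_lt (by positivity) h5
                exact_mod_cast this
              exact ih ⟨C.rg, C.n0, C.n1, C.nd, C.sn, C.sp, C.pl, C.pr, C.xl, C.xr, C.hl, h5.le,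
                C.tl, C.tr⟩ b1 b2 b3 (by omega) (fun hn => by have := b4' hn; omega) b5 b6 hm1 g1
          · obtain ⟨g1, g2⟩ := both _ _ h4
            obtain ⟨m, hm⟩ : ∃ m, m = Nat.div (Nat.add t0 t1) 2 := ⟨_, rfl⟩
            rw [← hm] at g1 g2
            rw [nd, na] at hm
            rcases le_or_gt (m : ℝ) (200 * t) with h5 | h5
            · exact ih ⟨C.rg, C.n0, C.n1, C.nd, C.sn, C.sp, C.pl, C.pr, C.xl, C.xr, C.hl, C.hr, h5,
                C.tr⟩ b1 b2 b3 b4 b4' (by omega) b6 b7 g2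
            · exact ih ⟨C.rg, C.n0, C.n1, C.nd, C.sn, C.sp, C.pl, C.pr, C.xl, C.xr, C.hl, C.hr, C.tl,
                h5.le⟩ b1 b2 b3 b4 b4' b5 (by omega) b7 g1
    · exact lf_ok C b1 b2 b3 b4 b4' b5 b6 b7 hl

end Pool.Agent.S5.VK
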