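import Pool.Agent.S5.I.VKh

/-!
# Real `v`: the numerical statements
-/

set_option autoImplicit false
set_option maxRecDepth 100000

namespace Pool.Agent.S5.VK

open Pool.Agent.H63.VC3 Pool.Agent.S3 Pool.Agent.S5 Pool.Agent.S5.Tb MeasureTheory Filter Topology
  Set

theorem ckA0 : bv 1153434 0 true 40 15 69 0 43 0 27 56 88 = true := by decide +kernel
theorem ckA1 : bv 1153434 0 false 40 15 69 0 43 0 20 56 88 = true := by decide +kernel
theorem ckB0 : bv 1887437 0 true 40 15 69 0 43 0 27 88 100 = true := by decide +kernel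
theorem ckB1 : bv 1887437 0 false 40 15 69 0 43 0 20 88 100 = true := by decide +kernel
theorem ckC0 : bv 2789213 30409 true 40 15 69 0 43 0 27 56 56 = true := by decide +kernel
theorem ckC1 : bv 2789213 0 false 40 15 69 0 43 0 20 56 56 = true := by decide +kernel
theorem ckD0 : bv 0 87032 false 40 15 69 0 24 0 20 56 56 = true := by decide +kernel
theorem ckD1 : bv 0 23069 false 40 15 69 24 36 0 20 56 56 = true := by decide +kernel
theorem ckD2 : bv 0 16778 false 40 15 69 36 43 0 20 56 56 = true := by decide +kernel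

/-- The parameters. -/
structure PU (X N T H : ℝ) : Prop where
  rg : VB.RG X N T H
  n0 : 0 < N
  n1 : N ≤ 88 / 1000
  H1 : H ≤ 1 / 10
  nd : N - H ≤ 165 / 1000

section

variable {X N T H t : ℝ}

theorem run_neg {m2 ex t0 t1 : ℕ} (P : PU X N T H) (hH : H ≤ 0) (h0 : (t0 : ℝ) ≤ 200 * t)
    (h1 : 200 * t ≤ t1) (a0 : 56 ≤ t0) (a1 : t1 ≤ 100)
    (h : bv m2 ex true 40 15 69 0 43 0 27 t0 t1 = true) :
    Rt X N T H t * 1048576 + (m2 : ℝ) / 2 * N ^ 2 + ex < 0 := by
  have c1 := P.rg.x0
  have c2 := P.rg.x1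
  have c3 := P.rg.g
  have c5 := P.rg.t1
  have c6 := P.rg.s0
  refine bv_ok 40 (p0 := 15) (p1 := 69) (X0 := 0) (X1 := 43) (h0 := 0) (h1 := 27) (t0 := t0)
    (t1 := t1) ⟨P.rg, P.n0, P.n1, P.nd, fun _ => hH, fun hh => absurd hh (by decide), ?_, ?_, ?_,
      ?_, ?_, ?_, h0, h1⟩ le_rfl le_rfl le_rfl le_rfl (fun hh => absurd hh (by decide)) a0 a1
      (by norm_num) h
  · push_cast
    linarith
  · push_cast
    linarith
  · push_cast
    linarith
  · push_cast
    linarith
  · push_cast
    positivity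
  · push_cast
    linarith

theorem run_pos {m2 ex X0 X1 h0 h1 t0 t1 : ℕ} (P : PU X N T H) (hH0 : (h0 : ℝ) ≤ 200 * H)
    (hH1 : 200 * H ≤ h1) (hX0 : (X0 : ℝ) ≤ 200 * X) (hX1 : 200 * X ≤ X1)
    (ht0 : (t0 : ℝ) ≤ 200 * t) (ht1 : 200 * t ≤ t1) (a0 : 56 ≤ t0) (a1 : t1 ≤ 100)
    (a2 : X1 ≤ 43) (a3 : h1 ≤ 20) (a4 : 1 ≤ h1)
    (h : bv m2 ex false 40 15 69 X0 X1 h0 h1 t0 t1 = true) :
    Rt X N T H t * 1048576 + (m2 : ℝ) / 2 * N ^ 2 + ex < 0 := by
  have c3 := P.rg.g
  have c1 := P.rg.x0
  have c5 := P.rg.t1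
  have hH : 0 ≤ H := by
    have : (0 : ℝ) ≤ h0 := Nat.cast_nonneg _
    linarith
  refine bv_ok 40 (p0 := 15) (p1 := 69) (X0 := X0) (X1 := X1) (h0 := h0) (h1 := h1) (t0 := t0)
    (t1 := t1) ⟨P.rg, P.n0, P.n1, P.nd, fun hh => absurd hh (by decide), fun _ => hH, ?_, ?_, hX0,
      hX1, ?_, ?_, ht0, ht1⟩ le_rfl le_rfl a2 (by omega) (fun _ => a3) a0 a1 a4 h
  · push_cast
    linarith
  · push_cast
    linarith
  · rwa [abs_of_nonneg hH]
  · rwa [abs_of_nonneg hH]

theorem R_mid (P : PU X N T H) (h0 : 7 / 25 ≤ t) (h1 : t ≤ 11 / 25) :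
    Rt X N T H t + 55 / 100 * N ^ 2 < 0 := by
  have c1 := P.rg.x0
  have c2 := P.rg.x1
  have c3 := P.H1
  have hn : 0 ≤ N ^ 2 := sq_nonneg N
  rcases le_total H 0 with h | h
  · have := run_neg (t0 := 56) (t1 := 88) (t := t) P h (by push_cast; linarith)
      (by push_cast; linarith) le_rfl (by norm_num) ckA0
    push_cast at this
    linarith
  · have := run_pos (t0 := 56) (t1 := 88) (t := t) P (h0 := 0) (h1 := 20) (X0 := 0) (X1 := 43)
      (by push_cast; linarith) (by push_cast; linarith) (by push_cast; linarith)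
      (by push_cast; linarith) (by push_cast; linarith) (by push_cast; linarith) le_rfl
      (by norm_num) le_rfl le_rfl (by norm_num) ckA1
    push_cast at this
    linarith

theorem R_hi (P : PU X N T H) (h0 : 11 / 25 ≤ t) (h1 : t ≤ 1 / 2) :
    Rt X N T H t + 90 / 100 * N ^ 2 < 0 := by
  have c1 := P.rg.x0
  have c2 := P.rg.x1
  have c3 := P.H1
  have hn : 0 ≤ N ^ 2 := sq_nonneg N
  rcases le_total H 0 with h | h
  · have := run_neg (t0 := 88) (t1 := 100) (t := t) P h (by push_cast; linarith)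
      (by push_cast; linarith) (by norm_num) (by norm_num) ckB0
    push_cast at this
    linarith
  · have := run_pos (t0 := 88) (t1 := 100) (t := t) P (h0 := 0) (h1 := 20) (X0 := 0) (X1 := 43)
      (by push_cast; linarith) (by push_cast; linarith) (by push_cast; linarith)
      (by push_cast; linarith) (by push_cast; linarith) (by push_cast; linarith) (by norm_num)
      (by norm_num) le_rfl le_rfl (by norm_num) ckB1
    push_cast at this
    linarith

theorem R28_neg (P : PU X N T H) (h : H ≤ 0) :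
    Rt X N T H (7 / 25) + 133 / 100 * N ^ 2 + 29 / 1000 < 0 := by
  have hn : 0 ≤ N ^ 2 := sq_nonneg N
  have := run_neg (t0 := 56) (t1 := 56) (t := 7 / 25) P h (by norm_num)
    (by norm_num) le_rfl (by norm_num) ckC0
  push_cast at this
  linarith

theorem R28_pos (P : PU X N T H) (h : 0 ≤ H) :
    Rt X N T H (7 / 25) + 133 / 100 * N ^ 2 < 0 := by
  have c1 := P.rg.x0
  have c2 := P.rg.x1
  have c3 := P.H1
  have hn : 0 ≤ N ^ 2 := sq_nonneg N
  have := run_pos (t0 := 56) (t1 := 56) (t := 7 / 25) P (h0 := 0) (h1 := 20) (X0 := 0) (X1 := 43)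
      (by push_cast; linarith) (by push_cast; linarith) (by push_cast; linarith)
      (by push_cast; linarith) (by norm_num) (by norm_num) (by norm_num)
      (by norm_num) le_rfl le_rfl (by norm_num) ckC1
  push_cast at this
  linarith

theorem R28_a (P : PU X N T H) (h : 0 ≤ H) (hx : X ≤ 12 / 100) :
    Rt X N T H (7 / 25) + 83 / 1000 < 0 := by
  have c1 := P.rg.x0
  have c3 := P.H1
  have := run_pos (t0 := 56) (t1 := 56) (t := 7 / 25) P (h0 := 0) (h1 := 20) (X0 := 0) (X1 := 24)
      (by push_cast; linarith) (by push_cast; linarith) (by push_cast; linarith)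
      (by push_cast; linarith) (by norm_num) (by norm_num) (by norm_num)
      (by norm_num) (by norm_num) (by norm_num) (by norm_num) ckD0
  push_cast at this
  linarith

theorem R28_b (P : PU X N T H) (h : 0 ≤ H) (hx : 12 / 100 ≤ X) (hx1 : X ≤ 18 / 100) :
    Rt X N T H (7 / 25) + 22 / 1000 < 0 := by
  have c3 := P.H1
  have := run_pos (t0 := 56) (t1 := 56) (t := 7 / 25) P (h0 := 0) (h1 := 20) (X0 := 24) (X1 := 36)
      (by push_cast; linarith) (by push_cast; linarith) (by push_cast; linarith)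
      (by push_cast; linarith) (by norm_num) (by norm_num) (by norm_num)
      (by norm_num) (by norm_num) (by norm_num) (by norm_num) ckD1
  push_cast at this
  linarith

theorem R28_c (P : PU X N T H) (h : 0 ≤ H) (hx : 18 / 100 ≤ X) :
    Rt X N T H (7 / 25) + 16 / 1000 < 0 := by
  have c2 := P.rg.x1
  have c3 := P.H1
  have := run_pos (t0 := 56) (t1 := 56) (t := 7 / 25) P (h0 := 0) (h1 := 20) (X0 := 36) (X1 := 43)
      (by push_cast; linarith) (by push_cast; linarith) (by push_cast; linarith)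
      (by push_cast; linarith) (by norm_num) (by norm_num) (by norm_num)
      (by norm_num) (by norm_num) (by norm_num) (by norm_num) ckD2
  push_cast at this
  linarith

end

end Pool.Agent.S5.VK
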