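import Pool.Agent.S5.I.VKf

/-!
# The slope in `t` along `x = 7/25`, heights up to `H`
-/

set_option autoImplicit false
set_option maxRecDepth 100000

namespace Pool.Agent.S5.VK

open Pool.Agent.H63.VC3 Pool.Agent.S3 Pool.Agent.S5 Pool.Agent.S5.Tb MeasureTheory Filter Topology
  Set

theorem nsc' (a : ℕ) : Nat.succ a = a + 1 := by
  cases a <;> rfl

/-- Conjunction over `i < n`. -/
def allB (n : Nat) (f : Nat → Bool) : Bool :=
  Nat.rec true (fun i ih => cond (f i) ih false) n

theorem allB_ok {n : ℕ} {f : ℕ → Bool} (h : allB n f = true) : ∀ i, i < n → f i = true := by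
  induction n with
  | zero =>
    intro i hi
    omega
  | succ n ih =>
    intro i hi
    have h2 : cond (f n) (allB n f) false = true := h
    cases h3 : f n
    · rw [h3] at h2
      exact absurd h2 (by simp)
    · rw [h3] at h2
      rcases Nat.lt_succ_iff_lt_or_eq.1 hi with h4 | h4
      · exact ih h2 i h4
      · rw [h4]
        exact h3

def ix (i : Nat) : Nat := mn (Nat.add 57 i) (Nat.sub 144 i)

def sgc (i j k : Nat) : Bool :=
  Nat.ble (Nat.add (Nat.add (lE (ent (Nat.sub 56 i) (Nat.sub (Nat.add j 1) k)))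
      (lE (ent (ix i) (Nat.add j (Nat.add k 2)))))
    (Nat.add 16 (mn 398459 (Nat.succ (Nat.div (Nat.mul 1048576
      (Nat.sub (Nat.sub 100 (Nat.mul 2 j)) k)) 200)))))
    (Nat.mul 2 (lE (ent (Nat.sub 99 i) j)))

def sgm (i j : Nat) : Bool :=
  Nat.ble (Nat.add (Nat.add (lE (ent (Nat.sub 56 i) (Nat.add j 1)))
      (lE (ent (ix i) (Nat.add j 1))))
    (Nat.add 16 (cond (Nat.ble i 47) 356516 209716)))
    (Nat.mul 2 (lE (ent (Nat.sub 99 i) j)))

theorem ckS : allB 56 (fun i => allB 20 (fun j => allB (mn 18 (Nat.succ j)) (fun k =>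
    sgc i j k))) = true := by decide +kernel

theorem ckT : allB 56 (fun i => allB 27 (fun j => sgm i j)) = true := by decide +kernel

theorem grid {x : ℝ} {n : ℕ} (hn : 0 < n) (h0 : 0 ≤ x) (h1 : x ≤ (n : ℝ) / 200) :
    ∃ k, k < n ∧ (k : ℝ) / 200 ≤ x ∧ x ≤ ((k : ℝ) + 1) / 200 := by
  rcases lt_or_ge x ((n : ℝ) / 200) with h | h
  · refine ⟨⌊200 * x⌋₊, ?_, ?_, ?_⟩
    · rw [Nat.floor_lt (by positivity)]
      linarith
    · have := Nat.floor_le (show 0 ≤ 200 * x by positivity)
      linarith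
    · have := Nat.lt_floor_add_one (200 * x)
      linarith
  · have e : (((n - 1 : ℕ) : ℝ)) = n - 1 := by
      rw [Nat.cast_sub hn]
      norm_num
    refine ⟨n - 1, by omega, ?_, ?_⟩
    · rw [e]
      linarith
    · rw [e]
      linarith

theorem sg_cell {H h u : ℝ} {i j a b : ℕ} (hi : i < 56) (hu0 : (i : ℝ) / 200 ≤ u)
    (hu1 : u ≤ ((i : ℝ) + 1) / 200) (hu2 : u < 7 / 25) (hj : (j : ℝ) / 200 ≤ |H|)
    (ha : |H - h| ≤ (a : ℝ) / 200) (hb : |H + h| ≤ (b : ℝ) / 200) (j1 : j ≤ 50) (a1 : a ≤ 50)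
    (b1 : b ≤ 50) : 2 * (lE (ent (99 - i) j) : ℝ) - lE (ent (56 - i) a) - lE (ent (ix i) b) - 16 ≤
      VB.sg H h u * 1048576 := by
  have hi' : (i : ℝ) ≤ 55 := by exact_mod_cast (by omega : i ≤ 55)
  have hi0 : (0 : ℝ) ≤ i := Nat.cast_nonneg i
  have e99 : ((99 - i : ℕ) : ℝ) = 99 - i := by
    rw [Nat.cast_sub (by omega)]
    norm_num
  have e56 : ((56 - i : ℕ) : ℝ) = 56 - i := by
    rw [Nat.cast_sub (by omega)]
    norm_num
  -- the edge
  have k1 : Lg ((j : ℝ) / 200) (((99 - i : ℕ) : ℝ) / 200) ≤ Lg H (1 / 2 - u) := by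
    refine (Lg_mono_re (s := (j : ℝ) / 200) (t' := 1 / 2 - u) ?_ ?_ ?_).trans
      (Lg_mono' ?_ ?_ ?_)
    · rw [e99]
      linarith
    · rw [e99]
      linarith
    · linarith
    · rw [abs_of_nonneg (by positivity)]
      exact hj
    · linarith
    · linarith
  have k2 : Lg (H - h) (u - 7 / 25) ≤ Lg ((a : ℝ) / 200) (((56 - i : ℕ) : ℝ) / 200) := by
    rw [show u - 7 / 25 = -(7 / 25 - u) by ring, Lg_neg]
    refine (Lg_mono_re (s := H - h) (t' := ((56 - i : ℕ) : ℝ) / 200) ?_ ?_ ?_).trans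
      (Lg_mono' ?_ ?_ ?_)
    · linarith
    · rw [e56]
      linarith
    · rw [e56]
      linarith
    · rw [abs_of_nonneg (show 0 ≤ (a : ℝ) / 200 by positivity)]
      exact ha
    · rw [e56]
      linarith
    · rw [e56]
      linarith
  have k3 : Lg (H + h) (u + 7 / 25) ≤ Lg ((b : ℝ) / 200) ((ix i : ℝ) / 200) := by
    have k4 : Lg (H + h) (u + 7 / 25) ≤ Lg (H + h) ((ix i : ℝ) / 200) := by
      unfold ix
      rw [mn_eq, na, ns]
      rcases le_total (57 + i) (144 - i) with h5 | h5
      · rw [min_eq_left h5]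
        have h6 : i ≤ 43 := by omega
        have h7 : (i : ℝ) ≤ 43 := by exact_mod_cast h6
        push_cast
        exact Lg_mono_re (by linarith) (by linarith) (by linarith)
      · rw [min_eq_right h5]
        have h6 : 44 ≤ i := by omega
        have h7 : (44 : ℝ) ≤ i := by exact_mod_cast h6
        have e144 : ((144 - i : ℕ) : ℝ) = 144 - i := by
          rw [Nat.cast_sub (by omega)]
          norm_num
        rw [← Lg_symm (H + h) (u + 7 / 25), e144]
        exact Lg_mono_re (by linarith) (by linarith) (by linarith)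
    refine k4.trans (Lg_mono' ?_ ?_ ?_)
    · rw [abs_of_nonneg (show 0 ≤ (b : ℝ) / 200 by positivity)]
      exact hb
    · unfold ix
      rw [mn_eq, na, ns]
      have : 0 < min (57 + i) (144 - i) := lt_min (by omega) (by omega)
      have : (0 : ℝ) < ((min (57 + i) (144 - i) : ℕ) : ℝ) := by exact_mod_cast this
      positivity
    · unfold ix
      rw [mn_eq, na, ns]
      have h6 : min (57 + i) (144 - i) ≤ 100 := by omega
      have : ((min (57 + i) (144 - i) : ℕ) : ℝ) ≤ 100 := by exact_mod_cast h6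
      linarith
  have hix : ix i ≤ 100 ∧ 0 < ix i := by
    unfold ix
    rw [mn_eq, na, ns]
    omega
  have c1 := abs_le.1 (lE_ok (i := 99 - i) (j := j) (by omega) j1 (by omega))
  have c2 := abs_le.1 (lE_ok (i := 56 - i) (j := a) (by omega) a1 (by omega))
  have c3 := abs_le.1 (lE_ok (i := ix i) (j := b) hix.1 b1 (by omega))
  unfold VB.sg
  linarith

/-- `0 ≤ h ≤ H`. -/
theorem sg_pos {H h u l : ℝ} (hu0 : 0 ≤ u) (hu1 : u < 7 / 25) (h0 : 0 ≤ h) (hH : h ≤ H)
    (hH1 : H ≤ 1 / 10) (hh : h ≤ 88 / 1000) (l1 : l ≤ 38 / 100) (l2 : l + 2 * H + h ≤ 1 / 2) :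
    l ≤ VB.sg H h u := by
  obtain ⟨i, i1, i2, i3⟩ := grid (x := u) (n := 56) (by norm_num) hu0 (by push_cast; linarith)
  obtain ⟨j, j1, j2, j3⟩ := grid (x := H) (n := 20) (by norm_num) (by linarith)
    (by push_cast; linarith)
  have hn : 0 < min 18 (j + 1) := lt_min (by norm_num) (by omega)
  obtain ⟨k, k1, k2, k3⟩ := grid (x := h) (n := min 18 (j + 1)) hn h0 (by
    rw [Nat.cast_min, le_div_iff₀ (by norm_num)]
    push_cast
    exact le_min (by linarith) (by linarith))
  have hk1 : k < 18 := lt_of_lt_of_le k1 (min_le_left _ _)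
  have hk2 : k ≤ j := by
    have := lt_of_lt_of_le k1 (min_le_right _ _)
    omega
  have hc := allB_ok (allB_ok (allB_ok ckS i i1) j j1) k (by
    rw [mn_eq]
    exact k1)
  have ek : ((j + 1 - k : ℕ) : ℝ) = j + 1 - k := by
    rw [Nat.cast_sub (by omega)]
    push_cast
    ring
  have hs := sg_cell (H := H) (h := h) (u := u) (i := i) (j := j) (a := j + 1 - k)
    (b := j + (k + 2)) i1 i2 i3 hu1 (by rw [abs_of_nonneg (by linarith)]; exact j2) (by
      rw [ek, abs_of_nonneg (by linarith)]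
      linarith) (by
      push_cast
      rw [abs_of_nonneg (by linarith)]
      linarith) (by omega) (by omega) (by omega)
  unfold sgc at hc
  simp only [na, nm, ns, nsc', mn_eq] at hc
  have h6 := Nat.le_of_ble_eq_true hc
  have h7 : (lE (ent (56 - i) (j + 1 - k)) : ℝ) + lE (ent (ix i) (j + (k + 2))) +
      (16 + ((min 398459 (Nat.div (1048576 * (100 - 2 * j - k)) 200 + 1) : ℕ) : ℝ)) ≤
      2 * lE (ent (99 - i) j) := by exact_mod_cast h6
  have h8 : l * 1048576 ≤ ((min 398459 (Nat.div (1048576 * (100 - 2 * j - k)) 200 + 1) : ℕ) : ℝ) := by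
    rw [Nat.cast_min]
    refine le_min ?_ ?_
    · push_cast
      linarith
    · have h9 := div_up (1048576 * (100 - 2 * j - k)) 200 (by norm_num)
      rw [nsc'] at h9
      refine le_trans ?_ h9
      rw [Nat.cast_mul, Nat.cast_sub (by omega), Nat.cast_sub (by omega), le_div_iff₀ (by norm_num)]
      push_cast
      linarith
  linarith

theorem sg_neg {H u : ℝ} (hu0 : 0 ≤ u) (hu1 : u < 7 / 25) (hH : |H| ≤ 135 / 1000) :
    (u < 24 / 100 → 34 / 100 ≤ VB.sg H 0 u) ∧ 2 / 10 ≤ VB.sg H 0 u := by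
  obtain ⟨i, i1, i2, i3⟩ := grid (x := u) (n := 56) (by norm_num) hu0 (by push_cast; linarith)
  obtain ⟨j, j1, j2, j3⟩ := grid (x := |H|) (n := 27) (by norm_num) (abs_nonneg _)
    (by push_cast; linarith)
  have hc := allB_ok (allB_ok ckT i i1) j j1
  have hs := sg_cell (H := H) (h := 0) (u := u) (i := i) (j := j) (a := j + 1)
    (b := j + 1) i1 i2 i3 hu1 j2 (by
      rw [sub_zero]
      push_cast
      exact j3) (by
      rw [add_zero]
      push_cast
      exact j3) (by omega) (by omega) (by omega)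
  unfold sgm at hc
  simp only [na, nm, ns] at hc
  have h6 := Nat.le_of_ble_eq_true hc
  have h7 : (lE (ent (56 - i) (j + 1)) : ℝ) + lE (ent (ix i) (j + 1)) +
      (16 + ((cond (Nat.ble i 47) 356516 209716 : ℕ) : ℝ)) ≤
      2 * lE (ent (99 - i) j) := by exact_mod_cast h6
  constructor
  · intro hu
    have h8 : i ≤ 47 := by
      have : (i : ℝ) < 48 := by linarith
      have : i < 48 := by exact_mod_cast this
      omega
    rw [Nat.ble_eq_true_of_le h8] at h7
    simp only [cond_true] at h7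
    push_cast at h7
    linarith
  · have h8 : (209716 : ℝ) ≤ ((cond (Nat.ble i 47) 356516 209716 : ℕ) : ℝ) := by
      cases Nat.ble i 47
      · simp
      · simp only [cond_true]
        norm_num
    linarith

theorem sg_even (H u : ℝ) : VB.sg H 0 (-u) = VB.sg H 0 u := by
  unfold VB.sg
  rw [sub_zero, add_zero, show 1 / 2 - -u = 1 - (1 / 2 - u) by ring, Lg_symm,
    show -u - 7 / 25 = -(u + 7 / 25) by ring, Lg_neg,
    show -u + 7 / 25 = -(u - 7 / 25) by ring, Lg_neg]
  ring

/-! ### Increments in `t` -/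

theorem gv_incr (s b b' : ℝ) : gv b' s - gv b s = -∫ u in b..b', Lg s u := by
  rw [Lg_integral]
  unfold gv
  ring

theorem Ez_sub (X N T H h t t' : ℝ) : Ez X N T H t' (7 / 25) h - Ez X N T H t (7 / 25) h =
    ∫ u in t..t', (VB.sg H h u - (2 * Lg H (1 / 2 - T) - Lg (H - N) (T - X) -
      Lg (H + N) (T + X))) := by
  have h1 := Dd_sub H (1 / 2 - T) (1 / 2 - t') (1 / 2 - t)
  have h2 := gv_incr (H - h) (t - 7 / 25) (t' - 7 / 25)
  have h3 := gv_incr (H + h) (t + 7 / 25) (t' + 7 / 25)
  rw [← intervalIntegral.integral_comp_sub_left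
    (fun u => Lg H u - Lg H (1 / 2 - T)) (1 / 2 : ℝ)] at h1
  rw [← intervalIntegral.integral_comp_sub_right
    (fun u => Lg (H - h) u) (7 / 25 : ℝ)] at h2
  rw [← intervalIntegral.integral_comp_add_right
    (fun u => Lg (H + h) u) (7 / 25 : ℝ)] at h3
  have i1 : IntervalIntegrable (fun u => Lg H (1 / 2 - u)) volume t t' := by
    have := (Lg_integrable H (1 / 2 - t) (1 / 2 - t')).comp_sub_left (1 / 2)
    simpa using this
  have i2 : IntervalIntegrable (fun u => Lg (H - h) (u - 7 / 25)) volume t t' := by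
    have := (Lg_integrable (H - h) (t - 7 / 25) (t' - 7 / 25)).comp_sub_right (7 / 25)
    simpa using this
  have i3 : IntervalIntegrable (fun u => Lg (H + h) (u + 7 / 25)) volume t t' := by
    have := (Lg_integrable (H + h) (t + 7 / 25) (t' + 7 / 25)).comp_add_right (7 / 25)
    simpa using this
  have e : ∫ u in t..t', (VB.sg H h u - (2 * Lg H (1 / 2 - T) - Lg (H - N) (T - X) -
      Lg (H + N) (T + X))) = 2 * (∫ u in t..t', (Lg H (1 / 2 - u) - Lg H (1 / 2 - T))) -
      (∫ u in t..t', Lg (H - h) (u - 7 / 25)) -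
      (∫ u in t..t', Lg (H + h) (u + 7 / 25)) +
      (t' - t) * (Lg (H - N) (T - X) + Lg (H + N) (T + X)) := by
    have e0 : (t' - t) * (Lg (H - N) (T - X) + Lg (H + N) (T + X)) =
        ∫ _u in t..t', (Lg (H - N) (T - X) + Lg (H + N) (T + X)) := by
      rw [intervalIntegral.integral_const, smul_eq_mul]
    rw [e0, ← intervalIntegral.integral_const_mul, ← intervalIntegral.integral_sub,
      ← intervalIntegral.integral_sub, ← intervalIntegral.integral_add]
    · refine intervalIntegral.integral_congr fun u _ => ?_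
      simp only [VB.sg]
      ring
    · exact (((i1.sub (by simp)).const_mul 2).sub i2).sub i3
    · simp
    · exact ((i1.sub (by simp)).const_mul 2).sub i2
    · exact i3
    · exact (i1.sub (by simp)).const_mul 2
    · exact i2
  rw [e]
  unfold Ez
  have e5 : ((H - h : ℝ)) = H - h := rfl
  nlinarith

/-- Step to the left. -/
theorem Ez_step {X N T H h a b l L : ℝ}
    (hL : 2 * Lg H (1 / 2 - T) - Lg (H - N) (T - X) - Lg (H + N) (T + X) ≤ L)
    (hs : ∀ u, a < u → u < b → l ≤ VB.sg H h u) (hab : a ≤ b) :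
    Ez X N T H a (7 / 25) h ≤ Ez X N T H b (7 / 25) h + (b - a) * (L - l) := by
  have hz := Ez_sub X N T H h a b
  have h3 : ∫ _u in a..b, (l - L) ≤ ∫ u in a..b, (VB.sg H h u - (2 * Lg H (1 / 2 - T) -
      Lg (H - N) (T - X) - Lg (H + N) (T + X))) := by
    apply intervalIntegral.integral_mono_on_of_le_Ioo hab (by simp)
    · unfold VB.sg
      have i1 : IntervalIntegrable (fun u => Lg H (1 / 2 - u)) volume a b := by
        have := (Lg_integrable H (1 / 2 - a) (1 / 2 - b)).comp_sub_left (1 / 2)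
        simpa using this
      have i2 : IntervalIntegrable (fun u => Lg (H - h) (u - 7 / 25)) volume a b := by
        have := (Lg_integrable (H - h) (a - 7 / 25) (b - 7 / 25)).comp_sub_right (7 / 25)
        simpa using this
      have i3 : IntervalIntegrable (fun u => Lg (H + h) (u + 7 / 25)) volume a b := by
        have := (Lg_integrable (H + h) (a + 7 / 25) (b + 7 / 25)).comp_add_right (7 / 25)
        simpa using this
      exact (((i1.const_mul 2).sub i2).sub i3).sub (by simp)
    · intro u hu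
      have := hs u hu.1 hu.2
      linarith
  rw [intervalIntegral.integral_const, smul_eq_mul] at h3
  linarith

end Pool.Agent.S5.VK
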