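import Pool.Agent.S5.I.VKa

/-!
# Vertical pieces of `v`: convexity in the height
-/

set_option autoImplicit false

namespace Pool.Agent.S5.VK

open Pool.Agent.H63.VC3 Pool.Agent.S3 Pool.Agent.S5 MeasureTheory Filter Topology Set

/-! ### Monotonicity of `gv` -/

/-- The increments of `gv` decrease in the position. -/
theorem gv_inc {r r' b1 b2 : ℝ} (hr : r ≤ r') (hb : |b1| ≤ |b2|) :
    gv r' b2 - gv r' b1 ≤ gv r b2 - gv r b1 := by
  have := Rf_incr hb hr
  unfold gv
  linarith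

theorem gv_half (b : ℝ) : gv (1 / 2) b = 0 := by
  unfold gv
  rw [Rf_half, neg_zero]

theorem gv_mono {r b1 b2 : ℝ} (hr : r ≤ 1 / 2) (hb : |b1| ≤ |b2|) : gv r b1 ≤ gv r b2 := by
  have := gv_inc hr hb
  rw [gv_half, gv_half] at this
  linarith

theorem gv_zero (b : ℝ) : gv 0 b = Real.pi * |b| / 2 := by
  unfold gv
  rw [Rf_zero_line]
  ring

theorem gv_lip {r b1 b2 : ℝ} (hr : 0 ≤ r) (hb : |b1| ≤ |b2|) :
    gv r b2 - gv r b1 ≤ Real.pi / 2 * (|b2| - |b1|) := by
  have := gv_inc hr hb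
  rw [gv_zero, gv_zero] at this
  linarith

theorem gv_neg_line (r b : ℝ) : gv (-r) b = Real.pi * |b| - gv r b := by
  unfold gv
  rw [Rf_neg_line]
  ring

/-! ### Convexity -/

theorem cvx_add {f : ℝ → ℝ} (hf : ConvexOn ℝ univ f) (c a b : ℝ) :
    ConvexOn ℝ (Icc a b) fun h => f (c + h) := by
  refine ⟨convex_Icc a b, fun x _ y _ p q hp hq hpq => ?_⟩
  have h := hf.2 (mem_univ (c + x)) (mem_univ (c + y)) hp hq hpq
  have e : p • (c + x) + q • (c + y) = c + (p • x + q • y) := by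
    simp only [smul_eq_mul]
    linear_combination c * hpq
  rw [e] at h
  exact h

theorem cvx_sub {f : ℝ → ℝ} (hf : ConvexOn ℝ univ f) (c a b : ℝ) :
    ConvexOn ℝ (Icc a b) fun h => f (c - h) := by
  refine ⟨convex_Icc a b, fun x _ y _ p q hp hq hpq => ?_⟩
  have h := hf.2 (mem_univ (c - x)) (mem_univ (c - y)) hp hq hpq
  have e : p • (c - x) + q • (c - y) = c - (p • x + q • y) := by
    simp only [smul_eq_mul]
    linear_combination c * hpq
  rw [e] at h
  exact h

theorem abs_cvx : ConvexOn ℝ univ fun s : ℝ => Real.pi * |s| := by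
  have h := (convexOn_univ_norm (E := ℝ)).smul Real.pi_pos.le
  simpa [Real.norm_eq_abs] using h

theorem gv_cvx {r : ℝ} (h0 : 0 ≤ r) (h1 : r ≤ 1 / 2) : ConvexOn ℝ univ (gv r) := by
  rcases h0.eq_or_lt with h | h
  · have h2 := (convexOn_univ_norm (E := ℝ)).smul (c := Real.pi / 2) (by positivity)
    refine h2.congr fun s _ => ?_
    rw [← h, gv_zero]
    simp only [smul_eq_mul, Real.norm_eq_abs]
    ring
  · apply Monotone.convexOn_univ_of_deriv
    · exact fun s => (gv_hasDerivAt h (by linarith) s).differentiableAt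
    · have e : deriv (gv r) = tv r := funext fun s => (gv_hasDerivAt h (by linarith) s).deriv
      rw [e]
      exact tv_mono h h1

/-- Convexity from a monotone derivative. -/
theorem cvx_deriv {f f' : ℝ → ℝ} {a b : ℝ} (hd : ∀ x, HasDerivAt f (f' x) x)
    (hm : MonotoneOn f' (Icc a b)) : ConvexOn ℝ (Icc a b) f := by
  apply MonotoneOn.convexOn_of_deriv (convex_Icc a b)
  · exact fun x _ => (hd x).continuousAt.continuousWithinAt
  · exact fun x _ => (hd x).differentiableAt.differentiableWithinAt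
  · have e : deriv f = f' := funext fun x => (hd x).deriv
    rw [e]
    exact hm.mono interior_subset

/-- Convexity from the second derivative. -/
theorem cvx_deriv2 {f f' f'' : ℝ → ℝ} {a b : ℝ} (hd : ∀ x, HasDerivAt f (f' x) x)
    (hd2 : ∀ x, HasDerivAt f' (f'' x) x) (hp : ∀ x, a ≤ x → x ≤ b → 0 ≤ f'' x) :
    ConvexOn ℝ (Icc a b) f := by
  apply cvx_deriv hd
  apply monotoneOn_of_deriv_nonneg (convex_Icc a b)
  · exact fun u _ => (hd2 u).continuousAt.continuousWithinAt
  · exact fun u _ => (hd2 u).differentiableAt.differentiableWithinAt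
  · intro u hu
    have hu' := interior_subset hu
    rw [(hd2 u).deriv]
    exact hp u hu'.1 hu'.2

theorem gv_add_deriv {r : ℝ} (h0 : 0 < r) (h1 : r < 1) (c x : ℝ) :
    HasDerivAt (fun h => gv r (c + h)) (tv r (c + x)) x := by
  have h := (gv_hasDerivAt h0 h1 (c + x)).comp x ((hasDerivAt_id' x).const_add c)
  rw [mul_one] at h
  exact h

theorem tv_add_deriv {r : ℝ} (h0 : 0 < r) (h1 : r < 1) (c x : ℝ) :
    HasDerivAt (fun h => tv r (c + h)) (Lgd (c + x) r) x := by
  have h := (tv_hasDerivAt' h0 h1 (c + x)).comp x ((hasDerivAt_id' x).const_add c)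
  rw [mul_one] at h
  exact h

theorem gv_sub_deriv {r : ℝ} (h0 : 0 < r) (h1 : r < 1) (c x : ℝ) :
    HasDerivAt (fun h => gv r (c - h)) (-tv r (c - x)) x := by
  have h := (gv_hasDerivAt h0 h1 (c - x)).comp x ((hasDerivAt_id' x).const_sub c)
  rw [mul_neg_one] at h
  exact h

theorem tv_sub_deriv {r : ℝ} (h0 : 0 < r) (h1 : r < 1) (c x : ℝ) :
    HasDerivAt (fun h => tv r (c - h)) (-Lgd (c - x) r) x := by
  have h := (tv_hasDerivAt' h0 h1 (c - x)).comp x ((hasDerivAt_id' x).const_sub c)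
  rw [mul_neg_one] at h
  exact h

/-- The pole term with a quadratic. -/
theorem cvx_pole {w K c a b : ℝ} (h0 : 0 < w) (h1 : w ≤ 1 / 2)
    (hK : Real.pi * Real.cot (Real.pi * w) ≤ K) :
    ConvexOn ℝ (Icc a b) fun h => K / 2 * h ^ 2 - gv w (c + h) := by
  apply cvx_deriv (f' := fun h => K * h - tv w (c + h))
  · intro x
    have h2 := ((hasDerivAt_pow 2 x).const_mul (K / 2)).sub (gv_add_deriv h0 (by linarith) c x)
    refine h2.congr_deriv ?_
    push_cast
    ring
  · intro x _ y _ hxy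
    have := tv_sub_le (r := w) (b1 := c + x) (b2 := c + y) h0 h1 (by linarith) hK
    simp only
    linarith

theorem sq_cvx {m a b : ℝ} (hm : 0 ≤ m) : ConvexOn ℝ (Icc a b) fun h => m / 2 * h ^ 2 := by
  apply cvx_deriv (f' := fun h => m * h)
  · intro x
    have h2 := (hasDerivAt_pow 2 x).const_mul (m / 2)
    refine h2.congr_deriv ?_
    push_cast
    ring
  · intro x _ y _ hxy
    exact mul_le_mul_of_nonneg_left hxy hm

/-- The pole terms of the left half. -/
theorem cvx_w {w m c a b : ℝ} (h0 : 28 / 100 ≤ w) (h1 : w ≤ 53 / 100) (hm : 266 / 100 ≤ m) :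
    ConvexOn ℝ (Icc a b) fun h => m / 2 * h ^ 2 - gv w (c + h) := by
  rcases le_total w (1 / 2) with h | h
  · exact cvx_pole (by linarith) h (pi_cot_le_of (r0 := 28 / 100) (by norm_num) h0 h (by
      unfold Pool.Agent.S5.kz
      norm_num
      linarith))
  · have h2 := (sq_cvx (m := m) (a := a) (b := b) (by linarith)).add
      (cvx_add (gv_cvx (r := 1 - w) (by linarith) (by linarith)) c a b)
    refine h2.congr fun s _ => ?_
    simp only [Pi.add_apply]
    rw [gv_one_sub]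
    ring

/-! ### The end points -/

theorem end_neg {A B m N : ℝ} {F : ℝ → ℝ} (hN : 0 < N) (hm : 0 ≤ m)
    (hc : ConvexOn ℝ (Icc 0 N) fun h => F h + m / 2 * h ^ 2)
    (h0 : A + F 0 + m / 2 * N ^ 2 < 0) (h1 : A + B * N + F N < 0) {h : ℝ} (a : 0 ≤ h)
    (b : h ≤ N) : A + B * h + F h < 0 := by
  obtain ⟨q, hq⟩ : ∃ q, q = h / N := ⟨_, rfl⟩
  have eq : q * N = h := by
    rw [hq]
    field_simp
  have q0 : 0 ≤ q := by
    rw [hq]
    positivity
  have q1 : q ≤ 1 := by
    rw [hq, div_le_one hN]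
    exact b
  have h2 := hc.2 (left_mem_Icc.2 hN.le) (right_mem_Icc.2 hN.le) (show 0 ≤ 1 - q by linarith) q0
    (by ring)
  simp only [smul_eq_mul, mul_zero, zero_add, eq] at h2
  have e : h ^ 2 = q * (q * N ^ 2) := by
    rw [← eq]
    ring
  have h3 : m / 2 * (q * (q * N ^ 2)) = m / 2 * h ^ 2 := by rw [e]
  have h4 : (1 - q) * (m / 2 * (q * N ^ 2)) ≤ (1 - q) * (m / 2 * N ^ 2) := by
    apply mul_le_mul_of_nonneg_left _ (by linarith)
    apply mul_le_mul_of_nonneg_left _ (by linarith)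
    have : 0 ≤ N ^ 2 := sq_nonneg N
    nlinarith
  have h5 : A + B * h + F h ≤ (1 - q) * (A + F 0 + m / 2 * N ^ 2) + q * (A + B * N + F N) := by
    have e2 : B * h = q * (B * N) := by
      rw [← eq]
      ring
    nlinarith
  rcases q0.eq_or_lt with h6 | h6
  · rw [← h6] at h5
    linarith
  · have h7 : q * (A + B * N + F N) < 0 := mul_neg_of_pos_of_neg h6 h1
    have h8 : (1 - q) * (A + F 0 + m / 2 * N ^ 2) ≤ 0 :=
      mul_nonpos_of_nonneg_of_nonpos (by linarith) h0.le
    linarith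

/-- The linear coefficient in the height. -/
noncomputable def Bx (X N T H x : ℝ) : ℝ :=
  (Lg (H + N) (T + X) - Lg (H - N) (T - X)) * (x - X) / N + tv (T - X) (H - N) -
    tv (T + X) (H + N)

theorem Ez_form (X N T H t x : ℝ) : ∃ A, ∀ h, Ez X N T H t x h =
    A + Bx X N T H x * h + (gv (t - x) (H - h) + gv (t + x) (H + h)) := by
  refine ⟨-(2 * Dd H (1 / 2 - T) (1 / 2 - t)) +
    (Lg (H + N) (T + X) - Lg (H - N) (T - X)) * (x - X) * (-N) / N +
      (-gv (T - X) (H - N) + Lg (H - N) (T - X) * (t - x - (T - X)) -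
        tv (T - X) (H - N) * N) +
        (-gv (T + X) (H + N) + Lg (H + N) (T + X) * (t + x - (T + X)) +
          tv (T + X) (H + N) * N), fun h => ?_⟩
  unfold Ez Bx
  ring

/-- The vertical pieces. -/
theorem vneg {X N T H t x m : ℝ} (hN : 0 < N) (hm : 0 ≤ m)
    (hc : ConvexOn ℝ (Icc 0 N) fun h => gv (t - x) (H - h) + gv (t + x) (H + h) + m / 2 * h ^ 2)
    (h0 : Ez X N T H t x 0 + m / 2 * N ^ 2 < 0) (h1 : Ez X N T H t x N < 0) {h : ℝ} (a : 0 ≤ h)
    (b : h ≤ N) : Ez X N T H t x h < 0 := by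
  obtain ⟨A, hA⟩ := Ez_form X N T H t x
  rw [hA] at h0 h1 ⊢
  rw [mul_zero, add_zero] at h0
  exact end_neg (F := fun h => gv (t - x) (H - h) + gv (t + x) (H + h)) hN hm hc h0 h1 a b

end Pool.Agent.S5.VK
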