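import Pool.Agent.S5.I.VKi
import Pool.Agent.S5.I.VKj
import Pool.Agent.S5.I.VKk
import Pool.Agent.S5.I.VR

/-!
# Vertical pieces of `v`: the right piece
-/

set_option autoImplicit false
set_option maxRecDepth 100000

namespace Pool.Agent.S5.VK

open Pool.Agent.H63.VC3 Pool.Agent.S3 Pool.Agent.S5 Pool.Agent.S5.Tb MeasureTheory Filter Topology
  Set

/-- The parameters, with the slopes and the flats. -/
structure QU (X N T H : ℝ) : Prop extends PU X N T H where
  lam : 2 * Lg H (1 / 2 - T) - Lg (H - N) (T - X) - Lg (H + N) (T + X) ≤ 38 / 100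
  lam2 : 2 * Lg H (1 / 2 - T) - Lg (H - N) (T - X) - Lg (H + N) (T + X) + 2 * H + N ≤ 1 / 2
  b : 8 * N ≤ Lg (H + N) (T + X) - Lg (H - N) (T - X)
  b2 : 3 / 4 * N ≤ (Lg (H + N) (T + X) - Lg (H - N) (T - X)) * (7 / 25 - X)
  fl : ∀ t x, -(1 / 4) ≤ t → t ≤ 1 / 2 → |x| ≤ 7 / 25 → x ≠ X → Ez X N T H t x N < 0

variable {X N T H t h : ℝ}

/-! ### The real function on the left -/

theorem R_left_pos (Q : QU X N T H) (hH : 0 ≤ H) (h0 : -(1 / 4) ≤ t) (h1 : t ≤ 7 / 25) :
    Rt X N T H t ≤ Rt X N T H (7 / 25) := by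
  have c1 := Q.lam
  have c2 := Q.lam2
  have c3 := Q.n0
  have h2 := Ez_step (X := X) (N := N) (T := T) (H := H) (h := 0) (a := t) (b := 7 / 25)
    (L := 2 * Lg H (1 / 2 - T) - Lg (H - N) (T - X) - Lg (H + N) (T + X))
    (l := 2 * Lg H (1 / 2 - T) - Lg (H - N) (T - X) - Lg (H + N) (T + X)) le_rfl (by
      intro u hu hu1
      rcases le_total 0 u with h | h
      · exact sg_pos h hu1 le_rfl hH Q.H1 (by norm_num) c1 (by linarith)
      · rw [← sg_even]
        exact sg_pos (by linarith) (by linarith) le_rfl hH Q.H1 (by norm_num) c1 (by linarith))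
    h1
  rw [sub_self, mul_zero, add_zero] at h2
  exact h2

theorem R_left_neg (Q : QU X N T H) (h0 : -(1 / 4) ≤ t) (h1 : t ≤ 7 / 25) :
    Rt X N T H t ≤ Rt X N T H (7 / 25) + 282 / 10000 := by
  have c4 := Q.rg.s0
  have key : ∀ a b l : ℝ, a ≤ b → (∀ u, a < u → u < b → l ≤ VB.sg H 0 u) →
      Rt X N T H a ≤ Rt X N T H b + (b - a) * (38 / 100 - l) := fun a b l hab hs =>
    Ez_step (X := X) (N := N) (T := T) (H := H) (h := 0) Q.lam hs hab
  have s1 : ∀ u, |u| < 7 / 25 → 2 / 10 ≤ VB.sg H 0 u := by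
    intro u hu
    have hu' := abs_lt.1 hu
    rcases le_total 0 u with h | h
    · exact (sg_neg h hu'.2 c4).2
    · rw [← sg_even]
      exact (sg_neg (by linarith) (by linarith) c4).2
  have s2 : ∀ u, |u| < 24 / 100 → 34 / 100 ≤ VB.sg H 0 u := by
    intro u hu
    have hu' := abs_lt.1 hu
    rcases le_total 0 u with h | h
    · exact (sg_neg h (by linarith) c4).1 hu'.2
    · rw [← sg_even]
      exact (sg_neg (by linarith) (by linarith) c4).1 (by linarith)
  rcases le_total (24 / 100) t with h2 | h2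
  · have := key t (7 / 25) (2 / 10) h1 (fun u a b => s1 u (abs_lt.2 ⟨by linarith, b⟩))
    linarith
  have k1 := key (24 / 100) (7 / 25) (2 / 10) (by norm_num)
    (fun u a b => s1 u (abs_lt.2 ⟨by linarith, b⟩))
  rcases le_total (-(24 / 100)) t with h3 | h3
  · have := key t (24 / 100) (34 / 100) h2
      (fun u a b => s2 u (abs_lt.2 ⟨by linarith, by linarith⟩))
    linarith
  have k2 := key (-(24 / 100)) (24 / 100) (34 / 100) (by norm_num)
    (fun u a b => s2 u (abs_lt.2 ⟨by linarith, by linarith⟩))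
  have := key t (-(24 / 100)) (2 / 10) h3
      (fun u a b => s1 u (abs_lt.2 ⟨by linarith, by linarith⟩))
  linarith

theorem R_left (Q : QU X N T H) (h0 : -(1 / 4) ≤ t) (h1 : t ≤ 7 / 25) :
    Rt X N T H t + 133 / 100 * N ^ 2 < 0 := by
  rcases le_total 0 H with h | h
  · have := R_left_pos Q h h0 h1
    have := R28_pos Q.toPU h
    linarith
  · have := R_left_neg Q h0 h1
    have := R28_neg Q.toPU h
    linarith

theorem R_neg (Q : QU X N T H) (h0 : -(1 / 4) ≤ t) (h1 : t ≤ 1 / 2) : Rt X N T H t < 0 := by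
  have hn : 0 ≤ N ^ 2 := sq_nonneg N
  rcases le_total t (7 / 25) with h | h
  · have := R_left Q h0 h
    linarith
  rcases le_total t (11 / 25) with h2 | h2
  · have := R_mid Q.toPU h h2
    linarith
  · have := R_hi Q.toPU h2 h1
    linarith

/-! ### The right piece, `7/25 ≤ t` -/

theorem PU.hb (P : PU X N T H) : |H| ≤ 135 / 1000 ∧ |H - N| ≤ 165 / 1000 ∧ |H + N| ≤ 188 / 1000 ∧
    (∀ h, 0 ≤ h → h ≤ N → |H - h| ≤ 165 / 1000 ∧ |H + h| ≤ 188 / 1000) := by
  have c1 := P.rg.s0
  have c2 := P.rg.sm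
  have c3 := P.n0
  have c4 := P.n1
  have c5 := P.H1
  have e1 := abs_le.1 c1
  have e2 := abs_le.1 c2
  refine ⟨c1, c2, abs_le.2 ⟨by linarith, by linarith⟩, fun h a b => ⟨abs_le.2 ⟨?_, ?_⟩,
    abs_le.2 ⟨by linarith, by linarith⟩⟩⟩
  · linarith
  · linarith

theorem kz_val (r K : ℝ) (hr : 0 < r) (h : 1 / r - 32898 / 10000 * r ≤ K) :
    2 * Pool.Agent.S5.kz r ≤ K := by
  unfold Pool.Agent.S5.kz
  have : 2 * (1 / (2 * r) - 16449 / 10000 * r) = 1 / r - 32898 / 10000 * r := by
    field_simp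
    ring
  linarith

/-- Numerical bound of the cotangent. -/
theorem pc {r : ℝ} (r0 K : ℝ) (h0 : 0 < r0) (h : r0 ≤ r) (h1 : r ≤ 1 / 2)
    (hK : 1 / r0 - 32898 / 10000 * r0 ≤ K) : Real.pi * Real.cot (Real.pi * r) ≤ K :=
  pi_cot_le_of h0 h h1 (kz_val r0 K h0 hK)

theorem cot_Lgd0 (r : ℝ) : Real.pi * Real.cot (Real.pi * r) = Lgd 0 r := by
  rw [← cot_Lgd]
  rw [Complex.ofReal_zero, zero_mul, add_zero, ← Complex.ofReal_mul, ← Complex.ofReal_cot,
    ← Complex.ofReal_mul, Complex.ofReal_re]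

theorem Lgd_le_cot {r s K : ℝ} (h0 : 0 < r) (h1 : r ≤ 1 / 2)
    (hK : Real.pi * Real.cot (Real.pi * r) ≤ K) : Lgd s r ≤ K := by
  rw [cot_Lgd0] at hK
  exact (Lgd_anti (s := 0) (s' := s) (by simp) h0 h1).trans hK

/-- Convexity along the right piece, `7/25 < t`. -/
theorem cvx_hi {m c K : ℝ} (P : PU X N T H) (h0 : 7 / 25 < t) (h1 : t ≤ 1 / 2)
    (hc : ∀ s, |s| ≤ 165 / 1000 → c ≤ Lgd s (t - 7 / 25))
    (hK : Real.pi * Real.cot (Real.pi * (18 / 25 - t)) ≤ K) (hm : K ≤ c + m) :
    ConvexOn ℝ (Icc 0 N) fun h => gv (t - 7 / 25) (H - h) + gv (t + 7 / 25) (H + h) +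
      m / 2 * h ^ 2 := by
  have hb := P.hb
  have ew : ∀ s, gv (t + 7 / 25) s = -gv (18 / 25 - t) s := by
    intro s
    rw [show t + 7 / 25 = 1 - (18 / 25 - t) by ring, gv_one_sub]
  simp only [ew]
  apply cvx_deriv2 (f' := fun h => -tv (t - 7 / 25) (H - h) - tv (18 / 25 - t) (H + h) + m * h)
    (f'' := fun h => Lgd (H - h) (t - 7 / 25) - Lgd (H + h) (18 / 25 - t) + m)
  · intro x
    have d1 := gv_sub_deriv (r := t - 7 / 25) (by linarith) (by linarith) H x
    have d2 := gv_add_deriv (r := 18 / 25 - t) (by linarith) (by linarith) H x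
    have d3 := (hasDerivAt_pow 2 x).const_mul (m / 2)
    have d4 := (d1.add d2.neg).add d3
    refine (d4.congr_deriv ?_)
    push_cast
    ring
  · intro x
    have d1 := tv_sub_deriv (r := t - 7 / 25) (by linarith) (by linarith) H x
    have d2 := tv_add_deriv (r := 18 / 25 - t) (by linarith) (by linarith) H x
    have d3 := (hasDerivAt_id' x).const_mul m
    have d4 := (d1.neg.sub d2).add d3
    refine (d4.congr_deriv ?_)
    ring
  · intro x a b
    have k1 := hc (H - x) (hb.2.2.2 x a b).1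
    have k2 := Lgd_le_cot (s := H + x) (by linarith) (by linarith) hK
    linarith

theorem kL_6 : kL 6 33 = kL 6 33 := rfl

theorem lgd_03 {s : ℝ} (hs : |s| ≤ 165 / 1000) : 1 / 2 ≤ Lgd s (3 / 100) := by
  have h := kL_ok' (i := 6) (j := 33) (H := s) (by norm_num) (by norm_num) (by norm_num)
    (by push_cast; linarith)
  have h2 : 524288 ≤ kL 6 33 := by decide +kernel
  have h3 : (524288 : ℝ) ≤ kL 6 33 := by exact_mod_cast h2
  rw [show ((6 : ℕ) : ℝ) / 200 = 3 / 100 by norm_num] at h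
  linarith

theorem lgd_08 {s : ℝ} (hs : |s| ≤ 165 / 1000) : 16 / 10 ≤ Lgd s (8 / 100) := by
  have h := kL_ok' (i := 16) (j := 33) (H := s) (by norm_num) (by norm_num) (by norm_num)
    (by push_cast; linarith)
  have h2 : 1677722 ≤ kL 16 33 := by decide +kernel
  have h3 : (1677722 : ℝ) ≤ kL 16 33 := by exact_mod_cast h2
  rw [show ((16 : ℕ) : ℝ) / 200 = 8 / 100 by norm_num] at h
  linarith

theorem lgd_16 {s : ℝ} (hs : |s| ≤ 165 / 1000) : 21 / 10 ≤ Lgd s (16 / 100) := by
  have h := kL_ok' (i := 32) (j := 33) (H := s) (by norm_num) (by norm_num) (by norm_num)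
    (by push_cast; linarith)
  have h2 : 2202010 ≤ kL 32 33 := by decide +kernel
  have h3 : (2202010 : ℝ) ≤ kL 32 33 := by exact_mod_cast h2
  rw [show ((32 : ℕ) : ℝ) / 200 = 16 / 100 by norm_num] at h
  linarith

theorem lgd_22 {s : ℝ} (hs : |s| ≤ 165 / 1000) : 21 / 10 ≤ Lgd s (22 / 100) := by
  have h := kL_ok' (i := 44) (j := 33) (H := s) (by norm_num) (by norm_num) (by norm_num)
    (by push_cast; linarith)
  have h2 : 2202010 ≤ kL 44 33 := by decide +kernel
  have h3 : (2202010 : ℝ) ≤ kL 44 33 := by exact_mod_cast h2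
  rw [show ((44 : ℕ) : ℝ) / 200 = 22 / 100 by norm_num] at h
  linarith

/-- The right piece, `7/25 ≤ t`. -/
theorem right_hi (Q : QU X N T H) (h0 : 7 / 25 ≤ t) (h1 : t ≤ 1 / 2) (a : 0 ≤ h) (b : h ≤ N) :
    Ez X N T H t (7 / 25) h < 0 := by
  have hN := Q.n0
  have c2 := Q.rg.x1
  have hfl : Ez X N T H t (7 / 25) N < 0 := Q.fl t (7 / 25) (by linarith) h1
    (by rw [abs_of_pos (by norm_num)]) (by linarith)
  rcases le_total t (31 / 100) with h2 | h2
  · refine vneg (m := 11 / 10) hN (by norm_num) ?_ ?_ hfl a b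
    · have k1 := cvx_sub (gv_cvx (r := t - 7 / 25) (by linarith) (by linarith)) H 0 N
      have k2 := cvx_pole (w := 18 / 25 - t) (K := 11 / 10) (c := H) (a := 0) (b := N)
        (by linarith) (by linarith) (pc (41 / 100) (11 / 10) (by norm_num) (by linarith)
          (by linarith) (by norm_num))
      refine (k1.add k2).congr fun s _ => ?_
      simp only [Pi.add_apply]
      rw [show t + 7 / 25 = 1 - (18 / 25 - t) by ring, gv_one_sub]
      ring
    · have := R_mid Q.toPU h0 (by linarith)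
      unfold Rt at this
      linarith
  rcases le_total t (36 / 100) with h3 | h3
  · refine vneg (m := 11 / 10) hN (by norm_num) (cvx_hi (c := 1 / 2) (K := 16 / 10) Q.toPU
      (by linarith) h1 (fun s hs => Pool.Agent.S5.VB.Lgd_ge_mid (u := 3 / 100) (v := 8 / 100)
        (by norm_num) (by norm_num) (by linarith) (by linarith) (by norm_num) (lgd_03 hs)
        (by linarith [lgd_08 hs])) (pc (36 / 100) _ (by norm_num) (by linarith) (by linarith)
          (by norm_num)) (by norm_num)) ?_ hfl a b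
    have := R_mid Q.toPU h0 (by linarith)
    unfold Rt at this
    linarith
  rcases le_total t (11 / 25) with h4 | h4
  · refine vneg (m := 11 / 10) hN (by norm_num) (cvx_hi (c := 16 / 10) (K := 27 / 10) Q.toPU
      (by linarith) h1 (fun s hs => Pool.Agent.S5.VB.Lgd_ge_mid (u := 8 / 100) (v := 16 / 100)
        (by norm_num) (by norm_num) (by linarith) (by linarith) (by norm_num) (lgd_08 hs)
        (by linarith [lgd_16 hs])) (pc (28 / 100) _ (by norm_num) (by linarith) (by linarith)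
          (by norm_num)) (by norm_num)) ?_ hfl a b
    have := R_mid Q.toPU h0 (by linarith)
    unfold Rt at this
    linarith
  · refine vneg (m := 18 / 10) hN (by norm_num) (cvx_hi (c := 21 / 10) (K := 39 / 10) Q.toPU
      (by linarith) h1 (fun s hs => Pool.Agent.S5.VB.Lgd_ge_mid (u := 16 / 100) (v := 22 / 100)
        (by norm_num) (by norm_num) (by linarith) (by linarith) (by norm_num) (lgd_16 hs)
        (lgd_22 hs)) (pc (22 / 100) _ (by norm_num) (by linarith) (by linarith)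
          (by norm_num)) (by norm_num)) ?_ hfl a b
    have := R_hi Q.toPU h4 h1
    unfold Rt at this
    linarith

/-! ### `t ≤ 0` -/

theorem right_lo (Q : QU X N T H) (h0 : -(1 / 4) ≤ t) (h1 : t ≤ 0) (a : 0 ≤ h) (b : h ≤ N) :
    Ez X N T H t (7 / 25) h < 0 := by
  have hN := Q.n0
  have c2 := Q.rg.x1
  have hfl : Ez X N T H t (7 / 25) N < 0 := Q.fl t (7 / 25) (by linarith) (by linarith)
    (by rw [abs_of_pos (by norm_num)]) (by linarith)
  refine vneg (m := 266 / 100) hN (by norm_num) ?_ ?_ hfl a b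
  · have k1 := cvx_sub abs_cvx H 0 N
    have k2 := cvx_w (w := 7 / 25 - t) (m := 266 / 100) (c := -H) (a := 0) (b := N)
      (by linarith) (by linarith) le_rfl
    have k3 := cvx_add (gv_cvx (r := t + 7 / 25) (by linarith) (by linarith)) H 0 N
    refine ((k1.add k2).add k3).congr fun s _ => ?_
    simp only [Pi.add_apply]
    rw [show t - 7 / 25 = -(7 / 25 - t) by ring, gv_neg_line, ← gv_neg (7 / 25 - t) (H - s),
      show -(H - s) = -H + s by ring]
    ring
  · have := R_left Q h0 (by linarith)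
    unfold Rt at this
    linarith

theorem left_lo (Q : QU X N T H) (h0 : -(1 / 4) ≤ t) (h1 : t ≤ 0) (a : 0 ≤ h) (b : h ≤ N) :
    Ez X N T H t (-(7 / 25)) h < 0 := by
  have hN := Q.n0
  have c1 := Q.rg.x0
  have hfl : Ez X N T H t (-(7 / 25)) N < 0 := Q.fl t (-(7 / 25)) (by linarith) (by linarith)
    (by rw [abs_neg, abs_of_pos (by norm_num)]) (by linarith)
  refine vneg (m := 266 / 100) hN (by norm_num) ?_ ?_ hfl a b
  · have k1 := cvx_add abs_cvx H 0 N
    have k2 := cvx_w (w := 7 / 25 - t) (m := 266 / 100) (c := H) (a := 0) (b := N)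
      (by linarith) (by linarith) le_rfl
    have k3 := cvx_sub (gv_cvx (r := t + 7 / 25) (by linarith) (by linarith)) H 0 N
    refine ((k1.add k2).add k3).congr fun s _ => ?_
    simp only [Pi.add_apply]
    rw [show t + -(7 / 25) = -(7 / 25 - t) by ring, gv_neg_line, sub_neg_eq_add]
    ring
  · have := R_left Q h0 (by linarith)
    unfold Rt at this
    rw [Ez_neg_x hN.ne']
    linarith

/-! ### The right piece, `0 ≤ t < 7/25` -/

theorem tv_q_abs {u b : ℝ} (u0 : 245 / 1000 ≤ u) (u1 : u ≤ 545 / 1000) :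
    |tv u b| ≤ 328 / 100 * |b| := by
  rcases le_total u (1 / 2) with h | h
  · exact tv_abs_le (by linarith) h (pc (245 / 1000) _ (by norm_num) u0 h (by norm_num))
  · have e : tv u b = -tv (1 - u) b := by
      have := tv_one_sub (r := 1 - u) (by linarith) (by linarith) b
      rwa [sub_sub_cancel] at this
    rw [e, abs_neg]
    exact tv_abs_le (by linarith) (by linarith) (pc (245 / 1000) _ (by norm_num) (by linarith)
      (by linarith) (by norm_num))

theorem gv_p_lip {p b1 b2 : ℝ} (p0 : 7 / 25 ≤ p) (p1 : p ≤ 14 / 25) (hb : b1 ≤ b2)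
    (h1 : |b1| ≤ 188 / 1000) (h2 : |b2| ≤ 188 / 1000) :
    |gv p b2 - gv p b1| ≤ 266 / 100 * (188 / 1000) * (b2 - b1) := by
  have e1 := abs_le.1 h1
  have e2 := abs_le.1 h2
  rcases le_total p (1 / 2) with h | h
  · exact gv_sub_le (by linarith) h hb (pc (7 / 25) _ (by norm_num) p0 h (by norm_num)) e1.1 e2.2
  · have e : ∀ b, gv p b = -gv (1 - p) b := by
      intro b
      have := gv_one_sub (1 - p) b
      rwa [sub_sub_cancel] at this
    rw [e, e, show -gv (1 - p) b2 - -gv (1 - p) b1 = -(gv (1 - p) b2 - gv (1 - p) b1) by ring,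
      abs_neg]
    exact gv_sub_le (by linarith) (by linarith) hb (pc (7 / 25) _ (by norm_num) (by linarith)
      (by linarith) (by norm_num)) e1.1 e2.2

theorem right_up (Q : QU X N T H) (h0 : 0 ≤ t) (h1 : t ≤ 7 / 25) (a : 0 ≤ h) (a' : H ≤ h)
    (b : h ≤ N) : Ez X N T H t (7 / 25) h < 0 := by
  have hN := Q.n0
  have c1 := Q.rg.x0
  have c2 := Q.rg.x1
  have c3 := Q.nd
  have c4 := Q.rg.t1
  have c5 := Q.rg.g
  have c6 := Q.rg.t0
  have c7 := Q.rg.p
  have hb := Q.toPU.hb
  have hpi := Real.pi_pos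
  have p1 := Real.pi_lt_d6
  have p2 := Real.pi_gt_d6
  have hfl : Ez X N T H t (7 / 25) N < 0 := Q.fl t (7 / 25) (by linarith) (by linarith)
    (by rw [abs_of_pos (by norm_num)]) (by linarith)
  obtain ⟨A, hA⟩ := Ez_form X N T H t (7 / 25)
  -- the coefficient
  have hB : 75 / 100 - 11412 / 10000 - 328 / 100 * (188 / 1000) ≤ Bx X N T H (7 / 25) := by
    unfold Bx
    have k1 : 3 / 4 ≤ (Lg (H + N) (T + X) - Lg (H - N) (T - X)) * (7 / 25 - X) / N := by
      rw [le_div_iff₀ hN]
      exact Q.b2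
    have k2 : -(11412 / 10000) ≤ tv (T - X) (H - N) := by
      have := tv_pole (r := T - X) (b := N - H) c5 (by linarith) (by linarith) c3
      have e : tv (T - X) (H - N) = -tv (T - X) (N - H) := by
        rw [← tv_neg (by linarith) (by linarith), neg_sub]
      rw [e]
      linarith
    have k3 := tv_q_abs (u := T + X) (b := H + N) (by linarith) c7
    have k4 := (abs_le.1 k3).2
    have k5 := hb.2.2.1
    linarith
  have e1 : |H - N| = N - H := by
    rw [abs_sub_comm, abs_of_nonneg (by linarith)]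
  have e2 : |H - h| = h - H := by
    rw [abs_sub_comm, abs_of_nonneg (by linarith)]
  have k1 := gv_lip (r := 7 / 25 - t) (b1 := H - h) (b2 := H - N) (by linarith) (by
    rw [e1, e2]
    linarith)
  have k2 := gv_p_lip (p := t + 7 / 25) (b1 := H + h) (b2 := H + N) (by linarith) (by linarith)
    (by linarith) (hb.2.2.2 h a b).2 hb.2.2.1
  have k3 := (abs_le.1 k2).1
  rw [e1, e2] at k1
  rw [hA] at hfl ⊢
  rw [show t - 7 / 25 = -(7 / 25 - t) by ring, gv_neg_line, e1] at hfl
  rw [show t - 7 / 25 = -(7 / 25 - t) by ring, gv_neg_line, e2]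
  have k4 := mul_le_mul_of_nonneg_right hB (show 0 ≤ N - h by linarith)
  have k5 : 0 ≤ (N - h) * (Real.pi - 3141592 / 1000000) :=
    mul_nonneg (by linarith) (by linarith)
  nlinarith

theorem right_mid (Q : QU X N T H) (h0 : 0 ≤ t) (h1 : t ≤ 7 / 25) (a : 0 ≤ h) (b : h ≤ N) :
    Ez X N T H t (7 / 25) h < 0 := by
  rcases le_total H h with h2 | h2
  · exact right_up Q h0 h1 a h2 b
  · have c1 := Q.lam
    have c2 := Q.lam2
    have c3 := Q.n1
    have k1 := right_hi (t := 7 / 25) Q le_rfl (by norm_num) a b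
    have k2 := Ez_step (X := X) (N := N) (T := T) (H := H) (h := h) (a := t) (b := 7 / 25)
      (L := 2 * Lg H (1 / 2 - T) - Lg (H - N) (T - X) - Lg (H + N) (T + X))
      (l := 2 * Lg H (1 / 2 - T) - Lg (H - N) (T - X) - Lg (H + N) (T + X)) le_rfl
      (fun u hu hu1 => sg_pos (by linarith) hu1 a h2 Q.H1 (by linarith) c1 (by linarith)) h1
    rw [sub_self, mul_zero, add_zero] at k2
    linarith

/-- The right piece. -/
theorem right (Q : QU X N T H) (h0 : -(1 / 4) ≤ t) (h1 : t ≤ 1 / 2) (a : 0 ≤ h) (b : h ≤ N) :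
    Ez X N T H t (7 / 25) h < 0 := by
  rcases le_total t 0 with h2 | h2
  · exact right_lo Q h0 h2 a b
  rcases le_total t (7 / 25) with h3 | h3
  · exact right_mid Q h2 h3 a b
  · exact right_hi Q h3 h1 a b

end Pool.Agent.S5.VK
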