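import Pool.Agent.S5.I.VKl

/-!
# Vertical pieces of `v`: the left piece, and the real pieces
-/

set_option autoImplicit false
set_option maxRecDepth 100000

namespace Pool.Agent.S5.VK

open Pool.Agent.H63.VC3 Pool.Agent.S3 Pool.Agent.S5 MeasureTheory Filter Topology Set

variable {X N T H t h : ℝ}

/-- Left and right piece. -/
theorem Ez_left (X T H t h : ℝ) {N : ℝ} (hN : N ≠ 0) : Ez X N T H t (-(7 / 25)) h =
    Ez X N T H t (7 / 25) h - (14 / 25 * ((Lg (H + N) (T + X) - Lg (H - N) (T - X)) / N * h) +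
      (gv (t - 7 / 25) (H - h) - gv (t + 7 / 25) (H - h)) -
        (gv (t - 7 / 25) (H + h) - gv (t + 7 / 25) (H + h))) := by
  unfold Ez
  rw [sub_neg_eq_add, ← sub_eq_add_neg]
  generalize Lg (H + N) (T + X) = L2
  generalize Lg (H - N) (T - X) = L1
  generalize gv (t - 7 / 25) (H - h) = g1
  generalize gv (t + 7 / 25) (H - h) = g2
  generalize gv (t - 7 / 25) (H + h) = g3
  generalize gv (t + 7 / 25) (H + h) = g4
  field_simp
  ring

theorem QU.b' (Q : QU X N T H) : 8 ≤ (Lg (H + N) (T + X) - Lg (H - N) (T - X)) / N := by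
  rw [le_div_iff₀ Q.n0]
  exact Q.b

theorem left_neg (Q : QU X N T H) (hH : H ≤ 0) (h0 : -(1 / 4) ≤ t) (h1 : t ≤ 1 / 2)
    (a : 0 ≤ h) (b : h ≤ N) : Ez X N T H t (-(7 / 25)) h < 0 := by
  have k1 := right Q h0 h1 a b
  have k2 := Q.b'
  have k3 : |H + h| ≤ |H - h| := by
    rw [abs_of_nonpos (show H - h ≤ 0 by linarith)]
    exact abs_le.2 ⟨by linarith, by linarith⟩
  have k4 := gv_inc (r := t - 7 / 25) (r' := t + 7 / 25) (by linarith) k3
  have k5 : 0 ≤ (Lg (H + N) (T + X) - Lg (H - N) (T - X)) / N * h := mul_nonneg (by linarith) a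
  rw [Ez_left X T H t h Q.n0.ne']
  linarith

/-- `H ≥ 0`, `t ≥ 7/25`. -/
theorem left_hi (Q : QU X N T H) (hH : 0 ≤ H) (h0 : 7 / 25 ≤ t) (h1 : t ≤ 1 / 2)
    (a : 0 ≤ h) (b : h ≤ N) : Ez X N T H t (-(7 / 25)) h < 0 := by
  have p1 := Real.pi_lt_d6
  have hb := Q.toPU.hb
  have k1 := right_hi Q h0 h1 a b
  have k2 := mul_le_mul_of_nonneg_right Q.b' a
  have k3 : |H - h| ≤ |H + h| := by
    rw [abs_of_nonneg (show 0 ≤ H + h by linarith)]
    exact abs_le.2 ⟨by linarith, by linarith⟩
  have k3' : |H + h| - |H - h| ≤ 2 * h := by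
    rw [abs_of_nonneg (show 0 ≤ H + h by linarith)]
    have := le_abs_self (H - h)
    linarith
  have k4 := (hb.2.2.2 h a b).2
  have k5 := abs_le.1 k4
  have k6 := abs_le.1 (k3.trans k4)
  have ew : ∀ s, gv (t + 7 / 25) s = -gv (18 / 25 - t) s := by
    intro s
    rw [show t + 7 / 25 = 1 - (18 / 25 - t) by ring, gv_one_sub]
  rw [Ez_left X T H t h Q.n0.ne', ew, ew]
  rcases le_total t (2 / 5) with h2 | h2
  · have m1 := gv_lip (r := t - 7 / 25) (by linarith) k3
    have m2 := gv_sub_le (r := 18 / 25 - t) (b1 := H - h) (b2 := H + h) (B := 188 / 1000)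
      (K := 208 / 100) (by linarith) (by linarith) (by linarith)
      (pc (32 / 100) _ (by norm_num) (by linarith) (by linarith) (by norm_num)) k6.1 k5.2
    have m3 := (abs_le.1 m2).2
    have m4 : Real.pi / 2 * (|H + h| - |H - h|) ≤ 1570797 / 1000000 * (2 * h) := by
      have q1 : Real.pi / 2 * (|H + h| - |H - h|) ≤ Real.pi / 2 * (2 * h) :=
        mul_le_mul_of_nonneg_left k3' (by positivity)
      have q2 : Real.pi / 2 * (2 * h) ≤ 1570797 / 1000000 * (2 * h) :=
        mul_le_mul_of_nonneg_right (by linarith) (by linarith)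
      linarith
    linarith
  · have m1 := gv_sub_le (r := t - 7 / 25) (b1 := H - h) (b2 := H + h) (B := 188 / 1000)
      (K := 794 / 100) (by linarith) (by linarith) (by linarith)
      (pc (12 / 100) _ (by norm_num) (by linarith) (by linarith) (by norm_num)) k6.1 k5.2
    have m2 := gv_sub_le (r := 18 / 25 - t) (b1 := H - h) (b2 := H + h) (B := 188 / 1000)
      (K := 383 / 100) (by linarith) (by linarith) (by linarith)
      (pc (22 / 100) _ (by norm_num) (by linarith) (by linarith) (by norm_num)) k6.1 k5.2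
    have m3 := (abs_le.1 m2).2
    have m4 := (abs_le.1 m1).2
    linarith

/-! ### `H ≥ 0`, `0 ≤ t ≤ 7/25` -/

theorem left_lin (Q : QU X N T H) (hH : 0 ≤ H) (h0 : 0 ≤ t) (h1 : t ≤ 7 / 25)
    (a : 0 ≤ h) : Ez X N T H t (-(7 / 25)) h ≤
      Rt X N T H t + (Bx X N T H (-(7 / 25)) + Real.pi) * h := by
  obtain ⟨A, hA⟩ := Ez_form X N T H t (-(7 / 25))
  have e0 : Rt X N T H t = Ez X N T H t (-(7 / 25)) 0 := (Ez_neg_x Q.n0.ne').symm
  have claim : gv (t + 7 / 25) (H - h) - gv (t + 7 / 25) H ≤
      gv (7 / 25 - t) (H + h) - gv (7 / 25 - t) H := by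
    have b1 : |H - h| ≤ |H + h| := by
      rw [abs_of_nonneg (show 0 ≤ H + h by linarith)]
      exact abs_le.2 ⟨by linarith, by linarith⟩
    have b2 : |H| ≤ |H + h| := by
      rw [abs_of_nonneg (show 0 ≤ H + h by linarith), abs_of_nonneg hH]
      linarith
    rcases le_total (t + 7 / 25) (1 / 2) with hp | hp
    · have k1 := gv_mono hp b1
      have k2 := gv_inc (r := 7 / 25 - t) (r' := t + 7 / 25) (by linarith) b2
      linarith
    · have e : ∀ s, gv (t + 7 / 25) s = -gv (1 - (t + 7 / 25)) s := by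
        intro s
        have := gv_one_sub (1 - (t + 7 / 25)) s
        rwa [sub_sub_cancel] at this
      have k1 := (gv_cvx (r := 1 - (t + 7 / 25)) (by linarith) (by linarith)).2
        (mem_univ (H - h)) (mem_univ (H + h)) (show (0 : ℝ) ≤ 1 / 2 by norm_num)
        (show (0 : ℝ) ≤ 1 / 2 by norm_num) (by norm_num)
      simp only [smul_eq_mul] at k1
      rw [show 1 / 2 * (H - h) + 1 / 2 * (H + h) = H by ring] at k1
      have k2 := gv_inc (r := 7 / 25 - t) (r' := 1 - (t + 7 / 25)) (by linarith) b2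
      rw [e, e]
      linarith
  rw [e0, hA, hA, sub_neg_eq_add, ← sub_eq_add_neg,
    show t - 7 / 25 = -(7 / 25 - t) by ring, gv_neg_line, gv_neg_line, sub_zero, add_zero,
    abs_of_nonneg hH, abs_of_nonneg (show 0 ≤ H + h by linarith)]
  linarith

/-- The slope of the left piece. -/
theorem Bl_le (Q : QU X N T H) {K e : ℝ}
    (hK : Real.pi * Real.cot (Real.pi * (T - X)) ≤ K)
    (he : -tv (T + X) (H + N) ≤ e) : Bx X N T H (-(7 / 25)) + Real.pi ≤
      3141593 / 1000000 - 8 * (7 / 25 + X) + e + K * (1 / 10 - N) := by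
  have c1 := Q.rg.x0
  have c3 := Q.n1
  have c4 := Q.rg.t1
  have c5 := Q.rg.g
  have c7 := Q.H1
  have p1 := Real.pi_lt_d6
  have hK0 : 0 ≤ K := (pi_cot_nonneg (by linarith) (by linarith)).trans hK
  have k1 : tv (T - X) (H - N) ≤ K * (1 / 10 - N) := by
    rcases le_total N H with h | h
    · have m1 := tv_le (r := T - X) (b := H - N) (by linarith) (by linarith) (by linarith) hK
      have m2 : K * (H - N) ≤ K * (1 / 10 - N) := mul_le_mul_of_nonneg_left (by linarith) hK0
      linarith
    · have m1 := tv_nonpos (r := T - X) (b := H - N) (by linarith) (by linarith) (by linarith)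
      have m2 : 0 ≤ K * (1 / 10 - N) := mul_nonneg hK0 (by linarith)
      linarith
  have k2 : (Lg (H + N) (T + X) - Lg (H - N) (T - X)) * (-(7 / 25) - X) / N ≤
      -(8 * (7 / 25 + X)) := by
    have e2 : (Lg (H + N) (T + X) - Lg (H - N) (T - X)) * (-(7 / 25) - X) / N =
        -((Lg (H + N) (T + X) - Lg (H - N) (T - X)) / N * (7 / 25 + X)) := by ring
    rw [e2]
    have := mul_le_mul_of_nonneg_right Q.b' (show 0 ≤ 7 / 25 + X by linarith)
    linarith
  unfold Bx
  linarith

theorem q1 {N A K c G : ℝ} (hN : 0 < N) (h1 : N ≤ 88 / 1000) (hG : G ≤ A + K * (1 / 10 - N))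
    (h2 : 0 ≤ A + K * (1 / 10) - K * (176 / 1000)) (hK : 0 ≤ K)
    (h3 : 88 / 1000 * (A + K * (12 / 1000)) ≤ c) : N * G ≤ c := by
  have k1 := mul_le_mul_of_nonneg_left hG hN.le
  have k2 : 0 ≤ (88 / 1000 - N) * (A + K * (1 / 10) - K * (88 / 1000 + N)) := by
    apply mul_nonneg (by linarith)
    have : K * (88 / 1000 + N) ≤ K * (176 / 1000) := mul_le_mul_of_nonneg_left (by linarith) hK
    linarith
  nlinarith

theorem q2 {N A K c G : ℝ} (hN : 0 < N) (hG : G ≤ A + K * (1 / 10 - N)) (hK : 0 < K)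
    (h3 : (A + K / 10) ^ 2 ≤ 4 * K * c) : N * G ≤ c := by
  have k1 := mul_le_mul_of_nonneg_left hG hN.le
  have k2 : 0 ≤ 4 * K * (c - N * (A + K * (1 / 10 - N))) := by
    have e : 4 * K * (c - N * (A + K * (1 / 10 - N))) =
      (2 * K * N - (A + K / 10)) ^ 2 + (4 * K * c - (A + K / 10) ^ 2) := by ring
    rw [e]
    have := sq_nonneg (2 * K * N - (A + K / 10))
    linarith
  have k3 : 0 ≤ c - N * (A + K * (1 / 10 - N)) := by
    by_contra hh
    push Not at hh
    have : 4 * K * (c - N * (A + K * (1 / 10 - N))) < 0 :=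
      mul_neg_of_pos_of_neg (by linarith) hh
    linarith
  linarith

theorem tv_q0 (P : PU X N T H) (hH : 0 ≤ H) (hp : T + X ≤ 1 / 2) : -tv (T + X) (H + N) ≤ 0 := by
  have c1 := P.rg.x0
  have c2 := P.rg.t0
  have c3 := P.n0
  have := tv_nonneg (r := T + X) (b := H + N) (by linarith) hp (by linarith)
  linarith

theorem tv_q1 (P : PU X N T H) (hH : 0 ≤ H) : -tv (T + X) (H + N) ≤ 1318 / 10000 := by
  rcases le_total (T + X) (1 / 2) with h | h
  · have := tv_q0 P hH h
    linarith
  · have c1 := P.rg.p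
    have c3 := P.n0
    have c4 := P.n1
    have c5 := P.H1
    have e : tv (T + X) (H + N) = -tv (1 - (T + X)) (H + N) := by
      have := tv_one_sub (r := 1 - (T + X)) (by linarith) (by linarith) (H + N)
      rwa [sub_sub_cancel] at this
    rw [e, neg_neg]
    have := tv_le (r := 1 - (T + X)) (b := H + N) (K := 701 / 1000) (by linarith) (by linarith)
      (by linarith) (pc (455 / 1000) _ (by norm_num) (by linarith) (by linarith) (by norm_num))
    linarith

theorem left_num (Q : QU X N T H) (hH : 0 ≤ H) (a : 0 ≤ h) (b : h ≤ N) :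
    Rt X N T H (7 / 25) + (Bx X N T H (-(7 / 25)) + Real.pi) * h < 0 := by
  have c1 := Q.rg.x0
  have c2 := Q.rg.x1
  have c3 := Q.n1
  have c4 := Q.rg.t1
  have c5 := Q.rg.g
  have c6 := Q.rg.t0
  have c7 := Q.H1
  have hN := Q.n0
  have hn : 0 ≤ N ^ 2 := sq_nonneg N
  rcases le_total (Bx X N T H (-(7 / 25)) + Real.pi) 0 with h1 | h1
  · have k1 := R28_pos Q.toPU hH
    have k2 : (Bx X N T H (-(7 / 25)) + Real.pi) * h ≤ 0 := mul_nonpos_of_nonpos_of_nonneg h1 a
    linarith
  have k2 : (Bx X N T H (-(7 / 25)) + Real.pi) * h ≤ N * (Bx X N T H (-(7 / 25)) + Real.pi) := by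
    rw [mul_comm]
    exact mul_le_mul_of_nonneg_right b h1
  rcases le_total X (12 / 100) with hx | hx
  · have k3 := R28_a Q.toPU hH hx
    have e0 := tv_q0 Q.toPU hH (by linarith)
    rcases le_total X (5 / 1000) with hx2 | hx2
    · have k4 := Bl_le Q (pc (24 / 100) (33772 / 10000) (by norm_num) (by linarith)
        (by linarith) (by norm_num)) e0
      have k5 := q1 (K := 33772 / 10000) (A := 3141593 / 1000000 - 224 / 100) (c := 83 / 1000) hN c3
        (k4.trans (by linarith)) (by norm_num) (by norm_num) (by norm_num)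
      linarith
    rcases le_total X (3 / 100) with hx3 | hx3
    · have k4 := Bl_le Q (pc (215 / 1000) (395 / 100) (by norm_num) (by linarith)
        (by linarith) (by norm_num)) e0
      have k5 := q1 (K := 395 / 100) (A := 3141593 / 1000000 - 224 / 100 - 4 / 100) (c := 83 / 1000) hN c3
        (k4.trans (by linarith)) (by norm_num) (by norm_num) (by norm_num)
      linarith
    · have k4 := Bl_le Q (pc (125 / 1000) (76 / 10) (by norm_num) (by linarith)
        (by linarith) (by norm_num)) e0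
      have k5 := q1 (K := 76 / 10) (A := 3141593 / 1000000 - 224 / 100 - 24 / 100) (c := 83 / 1000) hN c3
        (k4.trans (by linarith)) (by norm_num) (by norm_num) (by norm_num)
      linarith
  rcases le_total X (18 / 100) with hx1 | hx1
  · have k3 := R28_b Q.toPU hH hx hx1
    rcases le_total X (14 / 100) with hx2 | hx2
    · have e0 := tv_q0 Q.toPU hH (by linarith)
      have k4 := Bl_le Q (pc (105 / 1000) (918 / 100) (by norm_num) (by linarith)
        (by linarith) (by norm_num)) e0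
      have k5 := q2 (K := 918 / 100) (A := 3141593 / 1000000 - 224 / 100 - 96 / 100) (c := 22 / 1000) hN
        (k4.trans (by linarith)) (by norm_num) (by norm_num)
      linarith
    rcases le_total X (158 / 1000) with hx3 | hx3
    · have e0 := tv_q0 Q.toPU hH (by linarith)
      have k4 := Bl_le Q (pc (87 / 1000) (113 / 10) (by norm_num) (by linarith)
        (by linarith) (by norm_num)) e0
      have k5 := q2 (K := 113 / 10) (A := 3141593 / 1000000 - 224 / 100 - 112 / 100) (c := 22 / 1000) hN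
        (k4.trans (by linarith)) (by norm_num) (by norm_num)
      linarith
    have e0 := tv_q1 Q.toPU hH
    rcases le_total X (165 / 1000) with hx4 | hx4
    · have k4 := Bl_le Q (pc (80 / 1000) (1224 / 100) (by norm_num) (by linarith)
        (by linarith) (by norm_num)) e0
      have k5 := q2 (K := 1224 / 100) (A := 3141593 / 1000000 - 224 / 100 - 1264 / 1000 + 1318 / 10000)
        (c := 22 / 1000) hN (k4.trans (by linarith)) (by norm_num) (by norm_num)
      linarith
    · have k4 := Bl_le Q (pc (75 / 1000) (131 / 10) (by norm_num) (by linarith)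
        (by linarith) (by norm_num)) e0
      have k5 := q2 (K := 131 / 10) (A := 3141593 / 1000000 - 224 / 100 - 132 / 100 + 1318 / 10000)
        (c := 22 / 1000) hN (k4.trans (by linarith)) (by norm_num) (by norm_num)
      linarith
  · have k3 := R28_c Q.toPU hH hx1
    have e0 := tv_q1 Q.toPU hH
    have k4 := Bl_le Q (pc (75 / 1000) (131 / 10) (by norm_num) (by linarith)
      (by linarith) (by norm_num)) e0
    have k5 := q2 (K := 131 / 10) (A := 3141593 / 1000000 - 224 / 100 - 144 / 100 + 1318 / 10000)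
      (c := 16 / 1000) hN (k4.trans (by linarith)) (by norm_num) (by norm_num)
    linarith

/-- The left piece. -/
theorem left (Q : QU X N T H) (h0 : -(1 / 4) ≤ t) (h1 : t ≤ 1 / 2) (a : 0 ≤ h) (b : h ≤ N) :
    Ez X N T H t (-(7 / 25)) h < 0 := by
  rcases le_total H 0 with hH | hH
  · exact left_neg Q hH h0 h1 a b
  rcases le_total t 0 with h2 | h2
  · exact left_lo Q h0 h2 a b
  rcases le_total t (7 / 25) with h3 | h3
  · have k1 := left_lin Q hH h2 h3 a
    have k2 := R_left_pos Q hH h0 h3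
    have k3 := left_num Q hH a b
    linarith
  · exact left_hi Q hH h3 h1 a b

/-! ### Real `v` -/

theorem real_le {x : ℝ} (hN : N ≠ 0) (h0 : 0 ≤ t) (h1 : t ≤ 1 / 2) (hx : 7 / 25 ≤ x)
    (hx1 : x ≤ 1 / 2) : Ez X N T H t x 0 ≤ Rt X N T H t := by
  have hpi := Real.pi_pos
  have e1 : Ez X N T H t x 0 - Rt X N T H t = (gv (t - x) H - gv (t - 7 / 25) H) +
      (gv (t + x) H - gv (t + 7 / 25) H) := by
    unfold Rt Ez
    rw [sub_zero, add_zero]
    generalize Lg (H + N) (T + X) = L2
    generalize Lg (H - N) (T - X) = L1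
    field_simp
    ring
  have e2 : gv (t - x) H - gv (t - 7 / 25) H = ∫ u in (7 / 25)..x, Lg H (t - u) := by
    rw [intervalIntegral.integral_comp_sub_left (fun u => Lg H u) t]
    have := gv_incr H (t - x) (t - 7 / 25)
    linarith
  have e3 : gv (t + x) H - gv (t + 7 / 25) H = -∫ u in (7 / 25)..x, Lg H (t + u) := by
    rw [intervalIntegral.integral_comp_add_left (fun u => Lg H u) t]
    exact gv_incr H (t + 7 / 25) (t + x)
  have i1 : IntervalIntegrable (fun u => Lg H (t - u)) volume (7 / 25) x := by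
    have := (Lg_integrable H (t - 7 / 25) (t - x)).comp_sub_left t
    simpa using this
  have i2 : IntervalIntegrable (fun u => Lg H (t + u)) volume (7 / 25) x := by
    have := (Lg_integrable H (t + 7 / 25) (t + x)).comp_add_left t
    simpa using this
  have e4 : ∫ u in (7 / 25)..x, Lg H (t - u) ≤ ∫ u in (7 / 25)..x, Lg H (t + u) := by
    apply intervalIntegral.integral_mono_ae_restrict hx i1 i2
    have hne : ∀ᵐ u ∂(volume : Measure ℝ), u ∈ ({t}ᶜ : Set ℝ) :=
      compl_mem_ae_iff.2 (measure_singleton t)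
    filter_upwards [ae_restrict_mem measurableSet_Icc, ae_restrict_of_ae hne] with u hu hu2
    have hu3 : t - u ≠ 0 := fun h => hu2 (by
      rw [mem_singleton_iff]
      linarith)
    apply Lg_le (dn_pos (Or.inr ⟨hu3, abs_lt.2 ⟨by linarith [hu.2], by linarith [hu.1]⟩⟩))
    have e5 : Real.cos (2 * Real.pi * (t - u)) - Real.cos (2 * Real.pi * (t + u)) =
        2 * (Real.sin (2 * Real.pi * t) * Real.sin (2 * Real.pi * u)) := by
      rw [show 2 * Real.pi * (t - u) = 2 * Real.pi * t - 2 * Real.pi * u by ring,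
        show 2 * Real.pi * (t + u) = 2 * Real.pi * t + 2 * Real.pi * u by ring,
        Real.cos_sub, Real.cos_add]
      ring
    have s1 : 0 ≤ Real.sin (2 * Real.pi * t) :=
      Real.sin_nonneg_of_nonneg_of_le_pi (by positivity) (by nlinarith)
    have s2 : 0 ≤ Real.sin (2 * Real.pi * u) :=
      Real.sin_nonneg_of_nonneg_of_le_pi (mul_nonneg (by positivity) (by linarith [hu.1]))
        (by nlinarith [hu.2])
    have := mul_nonneg s1 s2
    linarith
  linarith

/-- The real pieces, `t ≥ 0`. -/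
theorem real_neg {x : ℝ} (Q : QU X N T H) (h0 : 0 ≤ t) (h1 : t ≤ 1 / 2) (hx : 7 / 25 ≤ |x|)
    (hx1 : |x| ≤ 1 / 2) : Ez X N T H t x 0 < 0 := by
  have k1 := R_neg (t := t) Q (by linarith) h1
  have k2 := real_le (X := X) (T := T) (H := H) Q.n0.ne' h0 h1 hx hx1
  have k3 : Ez X N T H t x 0 = Ez X N T H t |x| 0 := by
    rcases abs_choice x with h | h
    · rw [h]
    · rw [h, Ez_neg_x Q.n0.ne']
  rw [k3]
  linarith

end Pool.Agent.S5.VK
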