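import Pool.Agent.S5.I.VKm
import Pool.Agent.S5.I.VB7

/-!
# Vertical and real pieces of `v`
-/

set_option autoImplicit false

namespace Pool.Agent.S5

open Pool.Agent.H63.VC3 Pool.Agent.S3 Complex MeasureTheory Filter Topology Set

theorem VU.qu {ys vs : ℂ} (h : VU ys vs) : VK.QU vs.re vs.im ys.re ys.im where
  rg := h.rg
  n0 := h.n0
  n1 := h.n1
  H1 := h.e1
  nd := h.d
  lam := h.l
  lam2 := h.l2
  b := h.b
  b2 := h.b2
  fl := fun t x h0 h1 hx hne => by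
    have k := VNB_holds ys vs ((t : ℂ) + ys.im * I) ((x : ℂ) + vs.im * I) h
      ⟨line_im _ _, by rw [line_re]; exact h0, by rw [line_re]; exact h1⟩
      ⟨line_im _ _, by rw [line_re]; exact hx⟩
    have k2 : Es ys vs ((t : ℂ) + ys.im * I) ((x : ℂ) + vs.im * I) < 0 := by
      rcases k.1.lt_or_eq with h2 | h2
      · exact h2
      · exact absurd (by rw [← (k.2 h2).2, line_re]) hne
    rw [VK.Es_eq_Ez h.n0.ne' (line_im _ _), line_re, line_re, line_im] at k2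
    exact k2

/-- The vertical pieces. -/
theorem VNC_vert {ys vs y v : ℂ} (h : VU ys vs) (hy : Yf ys y) (hv : Vv vs v) :
    Es ys vs y v < 0 := by
  rw [VK.Es_eq_Ez h.n0.ne' hy.1]
  rcases abs_choice v.re with h2 | h2
  · have e : v.re = 7 / 25 := by rw [← h2]; exact hv.1
    rw [e]
    exact VK.right h.qu hy.2.1 hy.2.2 hv.2.1 hv.2.2
  · have e : v.re = -(7 / 25) := by
      have := hv.1
      rw [h2] at this
      linarith
    rw [e]
    exact VK.left h.qu hy.2.1 hy.2.2 hv.2.1 hv.2.2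

/-- The real pieces, `Re y ≥ 0`. -/
theorem VNC_real {ys vs y v : ℂ} (h : VU ys vs) (hy : Yf ys y) (h0 : 0 ≤ y.re) (hv : Vr v) :
    Es ys vs y v < 0 := by
  rw [VK.Es_eq_Ez h.n0.ne' hy.1, hv.1]
  exact VK.real_neg h.qu h0 hy.2.2 hv.2.1 hv.2.2

/-- `v = ±7/25`, all `y`. -/
theorem VNC_end {ys vs y v : ℂ} (h : VU ys vs) (hy : Yf ys y) (hv : v.im = 0)
    (hx : |v.re| = 7 / 25) : Es ys vs y v < 0 :=
  VNC_vert h hy ⟨hx, hv.ge, by rw [hv]; exact h.n0.le⟩

theorem VNC_of (hneg : ∀ ys vs y v : ℂ, VU ys vs → y.im = ys.im → -(1 / 4) ≤ y.re → y.re ≤ 0 →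
    v.im = 0 → |v.re| ≤ 1 / 2 → Es ys vs y v < 0) : VNC := by
  intro ys vs y v h hy hv
  rcases hv with hv | hv
  · exact VNC_vert h hy hv
  · rcases le_total 0 y.re with h0 | h0
    · exact VNC_real h hy h0 hv
    · exact hneg ys vs y v h hy.1 hy.2.1 h0 hv.1 hv.2.2

end Pool.Agent.S5
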