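import Pool.Agent.S5.I.VPr

/-!
# The slots of the open nodes on the rectangle
-/

set_option autoImplicit false

namespace Pool.Agent.S5

open Pool.Agent.H63.VC3 Pool.Agent.S3 Complex Tb
open scoped ComplexConjugate

/-- `y` is on the rectangle. -/
def Yb (y : ℂ) : Prop := (|y.im| = 3 / 20 ∧ -(1 / 4) ≤ y.re ∧ y.re ≤ 1 / 2) ∨
  ((y.re = -(1 / 4) ∨ y.re = 1 / 2) ∧ |y.im| ≤ 3 / 20)

/-- An affine function. -/
def Aff (β : ℝ → ℝ) : Prop :=
  ∀ X0 X1 X : ℝ, β X * (X1 - X0) = β X0 * (X1 - X) + β X1 * (X - X0)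

theorem Aff.le {β : ℝ → ℝ} (hβ : Aff β) {X0 X1 X M0 M1 : ℝ} (h0 : β X0 ≤ M0) (h1 : β X1 ≤ M1)
    (hX0 : X0 ≤ X) (hX1 : X ≤ X1) : β X * (X1 - X0) ≤ M0 * (X1 - X) + M1 * (X - X0) := by
  rw [hβ]
  exact add_le_add (mul_le_mul_of_nonneg_right h0 (by linarith))
    (mul_le_mul_of_nonneg_right h1 (by linarith))

theorem aff_b1v (ys vs : ℂ) (c : ℝ) : Aff (fun X => b1v ys vs X + c) := by
  intro X0 X1 X
  unfold b1v
  ring

namespace VP

theorem gF0 {y v : ℂ} {β : ℝ → ℝ} (hβ : Aff β) (hy : Yb y) (u0 : -(7 / 25) ≤ v.re) (u1 : v.re ≤ 7 / 25) (t0 : 0 ≤ v.im) (t1 : v.im ≤ 1 / 25)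
    (n0 : β (-(1 / 4)) ≤ -(27 / 250) - 3 / 5 * v.im)
    (n1 : β (1 / 10) ≤ -(231 / 1000) - 0 * v.im)
    (n2 : β (3 / 10) ≤ -(69 / 250) - 1 / 5 * v.im)
    (n3 : β (1 / 2) ≤ -(21 / 100) - 0 * v.im) :
    SS y v + β y.re - 8 * v.im * (7 / 25 - v.re) < Real.pi * |y.im| := by
  rcases hy with ⟨hs, x0, x1⟩ | ⟨hx | hx, hs⟩
  · have hs2 : y.im = 3 / 20 ∨ y.im = -(3 / 20) := by
      rcases abs_cases y.im with ⟨e, -⟩ | ⟨e, -⟩
      · left
        linarith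
      · right
        linarith
    rcases hs2 with hs2 | hs2
    · rcases le_total y.re (1 / 10) with x2 | x2
      · exact rF0_p0 x0 x2 hs2 u0 u1 t0 t1 (hβ.le n0 n1 x0 x2)
      · rcases le_total y.re (3 / 10) with x3 | x3
        · exact rF0_p1 x2 x3 hs2 u0 u1 t0 t1 (hβ.le n1 n2 x2 x3)
        · exact rF0_p2 x3 x1 hs2 u0 u1 t0 t1 (hβ.le n2 n3 x3 x1)
    · rcases le_total y.re (1 / 10) with x2 | x2
      · exact rF0_m0 x0 x2 hs2 u0 u1 t0 t1 (hβ.le n0 n1 x0 x2)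
      · rcases le_total y.re (3 / 10) with x3 | x3
        · exact rF0_m1 x2 x3 hs2 u0 u1 t0 t1 (hβ.le n1 n2 x2 x3)
        · exact rF0_m2 x3 x1 hs2 u0 u1 t0 t1 (hβ.le n2 n3 x3 x1)
  · obtain ⟨s0, s1⟩ := abs_le.1 hs
    rw [← hx] at n0
    rcases le_total 0 y.im with s2 | s2
    · exact rF0_pP hx s2 s1 u0 u1 t0 t1 n0
    · exact rF0_mP hx s0 s2 u0 u1 t0 t1 n0
  · obtain ⟨s0, s1⟩ := abs_le.1 hs
    rw [← hx] at n3
    rcases le_total 0 y.im with s2 | s2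
    · exact rF0_pQ hx s2 s1 u0 u1 t0 t1 n3
    · exact rF0_mQ hx s0 s2 u0 u1 t0 t1 n3

theorem gF1 {y v : ℂ} {β : ℝ → ℝ} (hβ : Aff β) (hy : Yb y) (u0 : -(7 / 25) ≤ v.re) (u1 : v.re ≤ 7 / 25) (t0 : 1 / 25 ≤ v.im) (t1 : v.im ≤ 11 / 125)
    (n0 : β (-(1 / 4)) ≤ -(19 / 200) - 49 / 50 * v.im)
    (n1 : β (1 / 10) ≤ -(21 / 100) - 1 / 2 * v.im)
    (n2 : β (3 / 10) ≤ -(133 / 500) - 7 / 20 * v.im)
    (n3 : β (1 / 2) ≤ -(21 / 100) - 0 * v.im) :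
    SS y v + β y.re - 8 * v.im * (7 / 25 - v.re) < Real.pi * |y.im| := by
  rcases hy with ⟨hs, x0, x1⟩ | ⟨hx | hx, hs⟩
  · have hs2 : y.im = 3 / 20 ∨ y.im = -(3 / 20) := by
      rcases abs_cases y.im with ⟨e, -⟩ | ⟨e, -⟩
      · left
        linarith
      · right
        linarith
    rcases hs2 with hs2 | hs2
    · rcases le_total y.re (1 / 10) with x2 | x2
      · exact rF1_p0 x0 x2 hs2 u0 u1 t0 t1 (hβ.le n0 n1 x0 x2)
      · rcases le_total y.re (3 / 10) with x3 | x3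
        · exact rF1_p1 x2 x3 hs2 u0 u1 t0 t1 (hβ.le n1 n2 x2 x3)
        · exact rF1_p2 x3 x1 hs2 u0 u1 t0 t1 (hβ.le n2 n3 x3 x1)
    · rcases le_total y.re (1 / 10) with x2 | x2
      · exact rF1_m0 x0 x2 hs2 u0 u1 t0 t1 (hβ.le n0 n1 x0 x2)
      · rcases le_total y.re (3 / 10) with x3 | x3
        · exact rF1_m1 x2 x3 hs2 u0 u1 t0 t1 (hβ.le n1 n2 x2 x3)
        · exact rF1_m2 x3 x1 hs2 u0 u1 t0 t1 (hβ.le n2 n3 x3 x1)
  · obtain ⟨s0, s1⟩ := abs_le.1 hs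
    rw [← hx] at n0
    rcases le_total 0 y.im with s2 | s2
    · exact rF1_pP hx s2 s1 u0 u1 t0 t1 n0
    · exact rF1_mP hx s0 s2 u0 u1 t0 t1 n0
  · obtain ⟨s0, s1⟩ := abs_le.1 hs
    rw [← hx] at n3
    rcases le_total 0 y.im with s2 | s2
    · exact rF1_pQ hx s2 s1 u0 u1 t0 t1 n3
    · exact rF1_mQ hx s0 s2 u0 u1 t0 t1 n3

theorem gV0 {y v : ℂ} {β : ℝ → ℝ} (hβ : Aff β) (hy : Yb y) (u0 : v.re = 7 / 25) (t0 : 0 ≤ v.im) (t1 : v.im ≤ 1 / 25)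
    (n0 : β (-(1 / 4)) ≤ -(27 / 250) - 3 / 5 * v.im)
    (n1 : β (1 / 10) ≤ -(43 / 200) - 3 / 8 * v.im)
    (n2 : β (3 / 10) ≤ -(1319 / 5000) - 3 / 8 * v.im)
    (n3 : β (1 / 2) ≤ -(177 / 1000) - 3 / 8 * v.im) :
    SS y v + β y.re < Real.pi * |y.im| := by
  rcases hy with ⟨hs, x0, x1⟩ | ⟨hx | hx, hs⟩
  · have hs2 : y.im = 3 / 20 ∨ y.im = -(3 / 20) := by
      rcases abs_cases y.im with ⟨e, -⟩ | ⟨e, -⟩
      · left
        linarith
      · right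
        linarith
    rcases hs2 with hs2 | hs2
    · rcases le_total y.re (1 / 10) with x2 | x2
      · exact rV0_p0 x0 x2 hs2 u0 t0 t1 (hβ.le n0 n1 x0 x2)
      · rcases le_total y.re (3 / 10) with x3 | x3
        · exact rV0_p1 x2 x3 hs2 u0 t0 t1 (hβ.le n1 n2 x2 x3)
        · exact rV0_p2 x3 x1 hs2 u0 t0 t1 (hβ.le n2 n3 x3 x1)
    · rcases le_total y.re (1 / 10) with x2 | x2
      · exact rV0_m0 x0 x2 hs2 u0 t0 t1 (hβ.le n0 n1 x0 x2)
      · rcases le_total y.re (3 / 10) with x3 | x3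
        · exact rV0_m1 x2 x3 hs2 u0 t0 t1 (hβ.le n1 n2 x2 x3)
        · exact rV0_m2 x3 x1 hs2 u0 t0 t1 (hβ.le n2 n3 x3 x1)
  · obtain ⟨s0, s1⟩ := abs_le.1 hs
    rw [← hx] at n0
    rcases le_total 0 y.im with s2 | s2
    · exact rV0_pP hx s2 s1 u0 t0 t1 n0
    · exact rV0_mP hx s0 s2 u0 t0 t1 n0
  · obtain ⟨s0, s1⟩ := abs_le.1 hs
    rw [← hx] at n3
    rcases le_total 0 y.im with s2 | s2
    · exact rV0_pQ hx s2 s1 u0 t0 t1 n3
    · exact rV0_mQ hx s0 s2 u0 t0 t1 n3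

theorem gV1 {y v : ℂ} {β : ℝ → ℝ} (hβ : Aff β) (hy : Yb y) (u0 : v.re = 7 / 25) (t0 : 1 / 25 ≤ v.im) (t1 : v.im ≤ 11 / 125)
    (n0 : β (-(1 / 4)) ≤ -(19 / 200) - 49 / 50 * v.im)
    (n1 : β (1 / 10) ≤ -(21 / 100) - 1 / 2 * v.im)
    (n2 : β (3 / 10) ≤ -(1319 / 5000) - 3 / 8 * v.im)
    (n3 : β (1 / 2) ≤ -(177 / 1000) - 3 / 8 * v.im) :
    SS y v + β y.re < Real.pi * |y.im| := by
  rcases hy with ⟨hs, x0, x1⟩ | ⟨hx | hx, hs⟩
  · have hs2 : y.im = 3 / 20 ∨ y.im = -(3 / 20) := by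
      rcases abs_cases y.im with ⟨e, -⟩ | ⟨e, -⟩
      · left
        linarith
      · right
        linarith
    rcases hs2 with hs2 | hs2
    · rcases le_total y.re (1 / 10) with x2 | x2
      · exact rV1_p0 x0 x2 hs2 u0 t0 t1 (hβ.le n0 n1 x0 x2)
      · rcases le_total y.re (3 / 10) with x3 | x3
        · exact rV1_p1 x2 x3 hs2 u0 t0 t1 (hβ.le n1 n2 x2 x3)
        · exact rV1_p2 x3 x1 hs2 u0 t0 t1 (hβ.le n2 n3 x3 x1)
    · rcases le_total y.re (1 / 10) with x2 | x2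
      · exact rV1_m0 x0 x2 hs2 u0 t0 t1 (hβ.le n0 n1 x0 x2)
      · rcases le_total y.re (3 / 10) with x3 | x3
        · exact rV1_m1 x2 x3 hs2 u0 t0 t1 (hβ.le n1 n2 x2 x3)
        · exact rV1_m2 x3 x1 hs2 u0 t0 t1 (hβ.le n2 n3 x3 x1)
  · obtain ⟨s0, s1⟩ := abs_le.1 hs
    rw [← hx] at n0
    rcases le_total 0 y.im with s2 | s2
    · exact rV1_pP hx s2 s1 u0 t0 t1 n0
    · exact rV1_mP hx s0 s2 u0 t0 t1 n0
  · obtain ⟨s0, s1⟩ := abs_le.1 hs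
    rw [← hx] at n3
    rcases le_total 0 y.im with s2 | s2
    · exact rV1_pQ hx s2 s1 u0 t0 t1 n3
    · exact rV1_mQ hx s0 s2 u0 t0 t1 n3

theorem gR0 {y v : ℂ} {β : ℝ → ℝ} (hβ : Aff β) (hy : Yb y) (u0 : 1 / 4 ≤ v.re) (u1 : v.re ≤ 1 / 2) (t0 : v.im = 0)
    (n0 : β (-(1 / 4)) ≤ -(27 / 250) - 0 * v.im)
    (n1 : β (1 / 10) ≤ -(43 / 200) - 0 * v.im)
    (n2 : β (3 / 10) ≤ -(1319 / 5000) - 0 * v.im)
    (n3 : β (1 / 2) ≤ -(177 / 1000) - 0 * v.im) :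
    SS y v + β y.re < Real.pi * |y.im| := by
  rcases hy with ⟨hs, x0, x1⟩ | ⟨hx | hx, hs⟩
  · have hs2 : y.im = 3 / 20 ∨ y.im = -(3 / 20) := by
      rcases abs_cases y.im with ⟨e, -⟩ | ⟨e, -⟩
      · left
        linarith
      · right
        linarith
    rcases hs2 with hs2 | hs2
    · rcases le_total y.re (1 / 10) with x2 | x2
      · exact rR0_p0 x0 x2 hs2 u0 u1 t0 (hβ.le n0 n1 x0 x2)
      · rcases le_total y.re (3 / 10) with x3 | x3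
        · exact rR0_p1 x2 x3 hs2 u0 u1 t0 (hβ.le n1 n2 x2 x3)
        · exact rR0_p2 x3 x1 hs2 u0 u1 t0 (hβ.le n2 n3 x3 x1)
    · rcases le_total y.re (1 / 10) with x2 | x2
      · exact rR0_m0 x0 x2 hs2 u0 u1 t0 (hβ.le n0 n1 x0 x2)
      · rcases le_total y.re (3 / 10) with x3 | x3
        · exact rR0_m1 x2 x3 hs2 u0 u1 t0 (hβ.le n1 n2 x2 x3)
        · exact rR0_m2 x3 x1 hs2 u0 u1 t0 (hβ.le n2 n3 x3 x1)
  · obtain ⟨s0, s1⟩ := abs_le.1 hs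
    rw [← hx] at n0
    rcases le_total 0 y.im with s2 | s2
    · exact rR0_pP hx s2 s1 u0 u1 t0 n0
    · exact rR0_mP hx s0 s2 u0 u1 t0 n0
  · obtain ⟨s0, s1⟩ := abs_le.1 hs
    rw [← hx] at n3
    rcases le_total 0 y.im with s2 | s2
    · exact rR0_pQ hx s2 s1 u0 u1 t0 n3
    · exact rR0_mQ hx s0 s2 u0 u1 t0 n3

end VP

/-- The positions of `v`. -/
def Vq (vs v : ℂ) : Prop := Vf vs v ∨ Vv vs v ∨ (v.im = 0 ∧ 1 / 4 ≤ |v.re| ∧ |v.re| ≤ 1 / 2)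

theorem LimV.vq {vs v : ℂ} (h : LimV vs.im (7 / 25) v) : Vq vs v := by
  rcases h with h | h | ⟨h1, h2, h3⟩
  · exact Or.inl h
  · exact Or.inr (Or.inl h)
  · exact Or.inr (Or.inr ⟨h1, by linarith, h3⟩)

theorem Yb.conj {y : ℂ} (h : Yb y) : Yb (conj y) := by
  unfold Yb at h ⊢
  rw [conj_re, conj_im, abs_neg]
  exact h

theorem Pc.In.yb {pc : Pc} {η w : ℝ} {y : ℂ} (h : pc.In (3 / 20) η y w) (hpc : pc.box = true) :
    Yb y ∧ w = 2 * Real.pi * |y.im| := by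
  unfold Yb
  cases pc <;> simp only [Pc.box, Bool.false_eq_true] at hpc <;> simp only [Pc.In] at h
  · obtain ⟨h1, h2, h3, h4, h5⟩ := h
    exact ⟨Or.inl ⟨h2, by linarith, h5⟩, by rw [h1, h2]⟩
  · obtain ⟨h1, h2, h3, h4, h5⟩ := h
    exact ⟨Or.inl ⟨h2, by linarith, h5⟩, by rw [h1, h2]⟩
  · obtain ⟨h1, h2, h3, h4, h5⟩ := h
    exact ⟨Or.inl ⟨h2, h4, by linarith⟩, by rw [h1, h2]⟩
  · obtain ⟨h1, h2, h3, h4, h5⟩ := h
    exact ⟨Or.inl ⟨h2, h4, by linarith⟩, by rw [h1, h2]⟩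
  · obtain ⟨h1, h2, h3, h4⟩ := h
    exact ⟨Or.inr ⟨Or.inl h2, h3⟩, h1⟩
  · obtain ⟨h1, h2, h3, h4⟩ := h
    exact ⟨Or.inr ⟨Or.inl h2, h3⟩, h1⟩
  · obtain ⟨h1, h2, h3, h4⟩ := h
    exact ⟨Or.inr ⟨Or.inr h2, h3⟩, h1⟩
  · obtain ⟨h1, h2, h3, h4⟩ := h
    exact ⟨Or.inr ⟨Or.inr h2, h3⟩, h1⟩

/-- **The rectangle**, separated form. -/
theorem VU.box_aux {ys vs y v : ℂ} (h : VU ys vs) (hb : B1N ys vs) (hy : Yb y) (hv : Vq vs v) :
    Es ys vs y v + (ly 2 ys vs * (y - (y.re : ℂ))).re < Real.pi * |y.im| := by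
  have hn := h.n0
  have hn1 := h.n1
  have hk := hb.kap
  rcases hv with ⟨v1, v2⟩ | ⟨v1, v2, v3⟩ | ⟨v1, v2, v3⟩
  · obtain ⟨u0, u1⟩ := abs_le.1 v2
    refine (frozen_flat h v1 u1).trans_lt ?_
    have e : b1v ys vs y.re = (fun X => b1v ys vs X + 0) y.re := by simp
    rw [e]
    rcases le_total vs.im (1 / 25) with h1 | h1
    · have a0 := hb.n0 h1
      have a1 := hb.n1 h1
      have a2 := hb.n2 h1
      have a3 := hb.n3
      apply VP.gF0 (aff_b1v ys vs 0) hy u0 u1 (by linarith) (by linarith)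
      all_goals rw [v1]
      all_goals linarith
    · have a0 := hb.n0' h1
      have a1 := hb.n1' h1
      have a2 := hb.n2' h1
      have a3 := hb.n3
      apply VP.gF1 (aff_b1v ys vs 0) hy u0 u1 (by linarith) (by linarith)
      all_goals rw [v1]
      all_goals linarith
  · -- vertical
    obtain ⟨y', v', hy', hu, him, hSS, hre, hab⟩ : ∃ y' v' : ℂ, Yb y' ∧ v'.re = 7 / 25 ∧
        v'.im = v.im ∧ SS y' v' = SS y v ∧ y'.re = y.re ∧ |y'.im| = |y.im| := by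
      rcases abs_cases v.re with ⟨e, -⟩ | ⟨e, -⟩
      · exact ⟨y, v, hy, by linarith, rfl, rfl, rfl, rfl⟩
      · refine ⟨conj y, -conj v, hy.conj, ?_, ?_, SS_conj y v, conj_re y, ?_⟩
        · rw [neg_re, conj_re]
          linarith
        · rw [neg_im, conj_im, neg_neg]
        · rw [conj_im, abs_neg]
    have hvr : v.re ≤ 7 / 25 := by
      rw [← v1]
      exact le_abs_self _
    refine (frozen_vert h hk v2 v3 hvr).trans_lt ?_
    rw [← hSS, ← hre, ← hab, add_assoc]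
    have e : b1v ys vs y'.re + 3 / 8 * (vs.im - v.im) =
      (fun X => b1v ys vs X + 3 / 8 * (vs.im - v.im)) y'.re := rfl
    rw [e]
    have c0 : v'.im ≤ 1 / 25 → b1v ys vs (-(1 / 4)) + 3 / 8 * (vs.im - v.im) ≤ -(27 / 250) - 3 / 5 * v'.im := by
      intro h1
      rcases le_total vs.im (1 / 25) with h2 | h2
      · have := hb.n0 h2
        linarith
      · have := hb.n0' h2
        linarith
    have c0' : 1 / 25 ≤ v'.im → b1v ys vs (-(1 / 4)) + 3 / 8 * (vs.im - v.im) ≤ -(19 / 200) - 49 / 50 * v'.im := by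
      intro h1
      have := hb.n0' (by linarith)
      linarith
    have c1 : v'.im ≤ 1 / 25 → b1v ys vs (1 / 10) + 3 / 8 * (vs.im - v.im) ≤ -(43 / 200) - 3 / 8 * v'.im := by
      intro h1
      rcases le_total vs.im (1 / 25) with h2 | h2
      · have := hb.n1 h2
        linarith
      · have := hb.n1' h2
        linarith
    have c1' : 1 / 25 ≤ v'.im → b1v ys vs (1 / 10) + 3 / 8 * (vs.im - v.im) ≤ -(21 / 100) - 1 / 2 * v'.im := by
      intro h1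
      have := hb.n1' (by linarith)
      linarith
    have c2 : b1v ys vs (3 / 10) + 3 / 8 * (vs.im - v.im) ≤ -(1319 / 5000) - 3 / 8 * v'.im := by
      rcases le_total vs.im (1 / 25) with h2 | h2
      · have := hb.n2 h2
        linarith
      · have := hb.n2' h2
        linarith
    have c3 : b1v ys vs (1 / 2) + 3 / 8 * (vs.im - v.im) ≤ -(177 / 1000) - 3 / 8 * v'.im := by
      have := hb.n3
      linarith
    rcases le_total v'.im (1 / 25) with h1 | h1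
    · exact VP.gV0 (aff_b1v ys vs _) hy' hu (by linarith) h1 (c0 h1) (c1 h1) c2 c3
    · exact VP.gV1 (aff_b1v ys vs _) hy' hu h1 (by linarith) (c0' h1) (c1' h1) c2 c3
  · -- real
    obtain ⟨y', v', hy', hu, hu', him, hSS, hre, hab⟩ : ∃ y' v' : ℂ, Yb y' ∧ 1 / 4 ≤ v'.re ∧
        v'.re ≤ 1 / 2 ∧ v'.im = 0 ∧ SS y' v' = SS y v ∧ y'.re = y.re ∧ |y'.im| = |y.im| := by
      rcases abs_cases v.re with ⟨e, -⟩ | ⟨e, -⟩
      · exact ⟨y, v, hy, by linarith, by linarith, v1, rfl, rfl, rfl⟩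
      · refine ⟨conj y, -conj v, hy.conj, ?_, ?_, ?_, SS_conj y v, conj_re y, ?_⟩
        · rw [neg_re, conj_re]
          linarith
        · rw [neg_re, conj_re]
          linarith
        · rw [neg_im, conj_im, neg_neg, v1]
        · rw [conj_im, abs_neg]
    refine (frozen_real h hk v1).trans_lt ?_
    rw [← hSS, ← hre, ← hab, add_assoc]
    have e : b1v ys vs y'.re + 3 / 8 * vs.im =
      (fun X => b1v ys vs X + 3 / 8 * vs.im) y'.re := rfl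
    rw [e]
    have c0 : b1v ys vs (-(1 / 4)) + 3 / 8 * vs.im ≤ -(27 / 250) - 0 * v'.im := by
      rcases le_total vs.im (1 / 25) with h2 | h2
      · have := hb.n0 h2
        linarith
      · have := hb.n0' h2
        linarith
    have c1 : b1v ys vs (1 / 10) + 3 / 8 * vs.im ≤ -(43 / 200) - 0 * v'.im := by
      rcases le_total vs.im (1 / 25) with h2 | h2
      · have := hb.n1 h2
        linarith
      · have := hb.n1' h2
        linarith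
    have c2 : b1v ys vs (3 / 10) + 3 / 8 * vs.im ≤ -(1319 / 5000) - 0 * v'.im := by
      rcases le_total vs.im (1 / 25) with h2 | h2
      · have := hb.n2 h2
        linarith
      · have := hb.n2' h2
        linarith
    have c3 : b1v ys vs (1 / 2) + 3 / 8 * vs.im ≤ -(177 / 1000) - 0 * v'.im := by
      have := hb.n3
      linarith
    exact VP.gR0 (aff_b1v ys vs _) hy' hu hu' him c0 c1 c2 c3

/-- **The rectangle.** -/
theorem VU.box {ys vs y v : ℂ} {w : ℝ} {pc : Pc} (h : VU ys vs) (hb : B1N ys vs)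
    (hpc : pc.box = true) (hy : pc.In (3 / 20) ys.im y w) (hv : Vq vs v) :
    Es ys vs y v + (ly 2 ys vs * (y - pc.eff y)).re - w / 2 < 0 := by
  obtain ⟨h1, h2⟩ := hy.yb hpc
  have h3 := VU.box_aux h hb h1 hv
  unfold Pc.eff
  rw [if_pos hpc, h2]
  linarith

end Pool.Agent.S5
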