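import Pool.Agent.S5.I.VPa
import Pool.Agent.S5.I.TsK

/-!
# The slots of the open nodes on the rectangle: the parameter-free inequalities
-/

set_option autoImplicit false

namespace Pool.Agent.S5

open Pool.Agent.H63.VC3 Pool.Agent.S3 Complex Tb

namespace VP

theorem kF0_p0 :
    bb (tst 2 681524 0 296597 0 0 0 0 0 2977955 0 8388608) 60
      96000 104960 106240 106240 95232 109568 102400 103424 = true := by
  decide +kernel

theorem rF0_p0 {y v : ℂ} {b : ℝ} (a1 : -(1 / 4) ≤ y.re) (a2 : y.re ≤ 1 / 10) (a3 : y.im = 3 / 20) (a4 : -(7 / 25) ≤ v.re) (a5 : v.re ≤ 7 / 25) (a6 : 0 ≤ v.im) (a7 : v.im ≤ 1 / 25)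
    (hb : b * (1 / 10 - (-(1 / 4))) ≤ (-(27 / 250) - 3 / 5 * v.im) * (1 / 10 - y.re) +
      (-(231 / 1000) - 0 * v.im) * (y.re - (-(1 / 4)))) :
    SS y v + b - 8 * v.im * (7 / 25 - v.re) < Real.pi * |y.im| := by
  have h := bb_sound tab_ok kF0_p0 (y := y) (v := v) ⟨by norm_num; linarith only [a1], by norm_num; linarith only [a2]⟩
    ⟨by rw [a3]; norm_num, by rw [a3]; norm_num⟩
    ⟨by norm_num; linarith only [a4], by norm_num; linarith only [a5]⟩
    ⟨by norm_num; linarith only [a6], by norm_num; linarith only [a7]⟩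
  have hp := Real.pi_gt_d6
  have ha : |y.im| = 3 / 20 := by rw [a3]; norm_num [abs_of_pos]
  rw [ha]
  unfold SS
  push_cast at h
  rw [a3] at h
  linarith only [mul_nonneg (show (0 : ℝ) ≤ y.re - (-(1 / 4)) by linarith only [a1]) (show (0 : ℝ) ≤ 1 / 25 - v.im by linarith only [a7]),
    h, hp, hb, a6, a1]

theorem kF0_p1 :
    bb (tst 2 712757 0 235929 0 0 0 0 0 2348810 0 8388608) 60
      104960 110080 106240 106240 95232 109568 102400 103424 = true := by
  decide +kernel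

theorem rF0_p1 {y v : ℂ} {b : ℝ} (a1 : 1 / 10 ≤ y.re) (a2 : y.re ≤ 3 / 10) (a3 : y.im = 3 / 20) (a4 : -(7 / 25) ≤ v.re) (a5 : v.re ≤ 7 / 25) (a6 : 0 ≤ v.im) (a7 : v.im ≤ 1 / 25)
    (hb : b * (3 / 10 - 1 / 10) ≤ (-(231 / 1000) - 0 * v.im) * (3 / 10 - y.re) +
      (-(69 / 250) - 1 / 5 * v.im) * (y.re - 1 / 10)) :
    SS y v + b - 8 * v.im * (7 / 25 - v.re) < Real.pi * |y.im| := by
  have h := bb_sound tab_ok kF0_p1 (y := y) (v := v) ⟨by norm_num; linarith only [a1], by norm_num; linarith only [a2]⟩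
    ⟨by rw [a3]; norm_num, by rw [a3]; norm_num⟩
    ⟨by norm_num; linarith only [a4], by norm_num; linarith only [a5]⟩
    ⟨by norm_num; linarith only [a6], by norm_num; linarith only [a7]⟩
  have hp := Real.pi_gt_d6
  have ha : |y.im| = 3 / 20 := by rw [a3]; norm_num [abs_of_pos]
  rw [ha]
  unfold SS
  push_cast at h
  rw [a3] at h
  linarith only [mul_nonneg (show (0 : ℝ) ≤ y.re - 1 / 10 by linarith only [a1]) (show (0 : ℝ) ≤ v.im - 0 by linarith only [a6]),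
    h, hp, hb, a6, a1]

theorem kF0_p2 :
    bb (tst 2 899928 0 0 387974 0 0 0 0 2558525 0 8388608) 60
      110080 115200 106240 106240 95232 109568 102400 103424 = true := by
  decide +kernel

theorem rF0_p2 {y v : ℂ} {b : ℝ} (a1 : 3 / 10 ≤ y.re) (a2 : y.re ≤ 1 / 2) (a3 : y.im = 3 / 20) (a4 : -(7 / 25) ≤ v.re) (a5 : v.re ≤ 7 / 25) (a6 : 0 ≤ v.im) (a7 : v.im ≤ 1 / 25)
    (hb : b * (1 / 2 - 3 / 10) ≤ (-(69 / 250) - 1 / 5 * v.im) * (1 / 2 - y.re) +
      (-(21 / 100) - 0 * v.im) * (y.re - 3 / 10)) :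
    SS y v + b - 8 * v.im * (7 / 25 - v.re) < Real.pi * |y.im| := by
  have h := bb_sound tab_ok kF0_p2 (y := y) (v := v) ⟨by norm_num; linarith only [a1], by norm_num; linarith only [a2]⟩
    ⟨by rw [a3]; norm_num, by rw [a3]; norm_num⟩
    ⟨by norm_num; linarith only [a4], by norm_num; linarith only [a5]⟩
    ⟨by norm_num; linarith only [a6], by norm_num; linarith only [a7]⟩
  have hp := Real.pi_gt_d6
  have ha : |y.im| = 3 / 20 := by rw [a3]; norm_num [abs_of_pos]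
  rw [ha]
  unfold SS
  push_cast at h
  rw [a3] at h
  linarith only [mul_nonneg (show (0 : ℝ) ≤ y.re - 3 / 10 by linarith only [a1]) (show (0 : ℝ) ≤ 1 / 25 - v.im by linarith only [a7]),
    h, hp, hb, a6, a1]

theorem kF0_pP :
    bb (tst 2 113246 0 0 0 3294195 0 0 0 2977955 0 8388608) 60
      96000 96000 102400 106240 95232 109568 102400 103424 = true := by
  decide +kernel

theorem rF0_pP {y v : ℂ} {b : ℝ} (a1 : y.re = -(1 / 4)) (a2 : 0 ≤ y.im) (a3 : y.im ≤ 3 / 20) (a4 : -(7 / 25) ≤ v.re) (a5 : v.re ≤ 7 / 25) (a6 : 0 ≤ v.im) (a7 : v.im ≤ 1 / 25)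
    (hb : b ≤ -(27 / 250) - 3 / 5 * v.im) :
    SS y v + b - 8 * v.im * (7 / 25 - v.re) < Real.pi * |y.im| := by
  have h := bb_sound tab_ok kF0_pP (y := y) (v := v) ⟨by rw [a1]; norm_num, by rw [a1]; norm_num⟩
    ⟨by norm_num; linarith only [a2], by norm_num; linarith only [a3]⟩
    ⟨by norm_num; linarith only [a4], by norm_num; linarith only [a5]⟩
    ⟨by norm_num; linarith only [a6], by norm_num; linarith only [a7]⟩
  have hp := Real.pi_gt_d6
  have ha : Real.pi * |y.im| ≥ 3.14159 * y.im := by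
    rw [abs_of_nonneg a2]
    linarith only [mul_nonneg (sub_nonneg.2 a2) (sub_nonneg.2 hp.le), a2]
  unfold SS
  push_cast at h
  rw [a1] at h
  linarith only [a2, a6, hb, ha, h]

theorem kF0_pQ :
    bb (tst 2 220200 0 0 0 3294195 0 0 0 2348810 0 8388608) 60
      115200 115200 102400 106240 95232 109568 102400 103424 = true := by
  decide +kernel

theorem rF0_pQ {y v : ℂ} {b : ℝ} (a1 : y.re = 1 / 2) (a2 : 0 ≤ y.im) (a3 : y.im ≤ 3 / 20) (a4 : -(7 / 25) ≤ v.re) (a5 : v.re ≤ 7 / 25) (a6 : 0 ≤ v.im) (a7 : v.im ≤ 1 / 25)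
    (hb : b ≤ -(21 / 100) - 0 * v.im) :
    SS y v + b - 8 * v.im * (7 / 25 - v.re) < Real.pi * |y.im| := by
  have h := bb_sound tab_ok kF0_pQ (y := y) (v := v) ⟨by rw [a1]; norm_num, by rw [a1]; norm_num⟩
    ⟨by norm_num; linarith only [a2], by norm_num; linarith only [a3]⟩
    ⟨by norm_num; linarith only [a4], by norm_num; linarith only [a5]⟩
    ⟨by norm_num; linarith only [a6], by norm_num; linarith only [a7]⟩
  have hp := Real.pi_gt_d6
  have ha : Real.pi * |y.im| ≥ 3.14159 * y.im := by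
    rw [abs_of_nonneg a2]
    linarith only [mul_nonneg (sub_nonneg.2 a2) (sub_nonneg.2 hp.le), a2]
  unfold SS
  push_cast at h
  rw [a1] at h
  linarith only [a2, a6, hb, ha, h]

theorem kF0_m0 :
    bb (tst 2 681524 0 296597 0 0 0 0 0 2977955 0 8388608) 60
      96000 104960 98560 98560 95232 109568 102400 103424 = true := by
  decide +kernel

theorem rF0_m0 {y v : ℂ} {b : ℝ} (a1 : -(1 / 4) ≤ y.re) (a2 : y.re ≤ 1 / 10) (a3 : y.im = -(3 / 20)) (a4 : -(7 / 25) ≤ v.re) (a5 : v.re ≤ 7 / 25) (a6 : 0 ≤ v.im) (a7 : v.im ≤ 1 / 25)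
    (hb : b * (1 / 10 - (-(1 / 4))) ≤ (-(27 / 250) - 3 / 5 * v.im) * (1 / 10 - y.re) +
      (-(231 / 1000) - 0 * v.im) * (y.re - (-(1 / 4)))) :
    SS y v + b - 8 * v.im * (7 / 25 - v.re) < Real.pi * |y.im| := by
  have h := bb_sound tab_ok kF0_m0 (y := y) (v := v) ⟨by norm_num; linarith only [a1], by norm_num; linarith only [a2]⟩
    ⟨by rw [a3]; norm_num, by rw [a3]; norm_num⟩
    ⟨by norm_num; linarith only [a4], by norm_num; linarith only [a5]⟩
    ⟨by norm_num; linarith only [a6], by norm_num; linarith only [a7]⟩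
  have hp := Real.pi_gt_d6
  have ha : |y.im| = 3 / 20 := by rw [a3]; norm_num [abs_neg, abs_of_pos]
  rw [ha]
  unfold SS
  push_cast at h
  rw [a3] at h
  linarith only [mul_nonneg (show (0 : ℝ) ≤ y.re - (-(1 / 4)) by linarith only [a1]) (show (0 : ℝ) ≤ 1 / 25 - v.im by linarith only [a7]),
    h, hp, hb, a6, a1]

theorem kF0_m1 :
    bb (tst 2 712757 0 235929 0 0 0 0 0 2348810 0 8388608) 60
      104960 110080 98560 98560 95232 109568 102400 103424 = true := by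
  decide +kernel

theorem rF0_m1 {y v : ℂ} {b : ℝ} (a1 : 1 / 10 ≤ y.re) (a2 : y.re ≤ 3 / 10) (a3 : y.im = -(3 / 20)) (a4 : -(7 / 25) ≤ v.re) (a5 : v.re ≤ 7 / 25) (a6 : 0 ≤ v.im) (a7 : v.im ≤ 1 / 25)
    (hb : b * (3 / 10 - 1 / 10) ≤ (-(231 / 1000) - 0 * v.im) * (3 / 10 - y.re) +
      (-(69 / 250) - 1 / 5 * v.im) * (y.re - 1 / 10)) :
    SS y v + b - 8 * v.im * (7 / 25 - v.re) < Real.pi * |y.im| := by
  have h := bb_sound tab_ok kF0_m1 (y := y) (v := v) ⟨by norm_num; linarith only [a1], by norm_num; linarith only [a2]⟩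
    ⟨by rw [a3]; norm_num, by rw [a3]; norm_num⟩
    ⟨by norm_num; linarith only [a4], by norm_num; linarith only [a5]⟩
    ⟨by norm_num; linarith only [a6], by norm_num; linarith only [a7]⟩
  have hp := Real.pi_gt_d6
  have ha : |y.im| = 3 / 20 := by rw [a3]; norm_num [abs_neg, abs_of_pos]
  rw [ha]
  unfold SS
  push_cast at h
  rw [a3] at h
  linarith only [mul_nonneg (show (0 : ℝ) ≤ y.re - 1 / 10 by linarith only [a1]) (show (0 : ℝ) ≤ v.im - 0 by linarith only [a6]),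
    h, hp, hb, a6, a1]

theorem kF0_m2 :
    bb (tst 2 899928 0 0 387974 0 0 0 0 2558525 0 8388608) 60
      110080 115200 98560 98560 95232 109568 102400 103424 = true := by
  decide +kernel

theorem rF0_m2 {y v : ℂ} {b : ℝ} (a1 : 3 / 10 ≤ y.re) (a2 : y.re ≤ 1 / 2) (a3 : y.im = -(3 / 20)) (a4 : -(7 / 25) ≤ v.re) (a5 : v.re ≤ 7 / 25) (a6 : 0 ≤ v.im) (a7 : v.im ≤ 1 / 25)
    (hb : b * (1 / 2 - 3 / 10) ≤ (-(69 / 250) - 1 / 5 * v.im) * (1 / 2 - y.re) +
      (-(21 / 100) - 0 * v.im) * (y.re - 3 / 10)) :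
    SS y v + b - 8 * v.im * (7 / 25 - v.re) < Real.pi * |y.im| := by
  have h := bb_sound tab_ok kF0_m2 (y := y) (v := v) ⟨by norm_num; linarith only [a1], by norm_num; linarith only [a2]⟩
    ⟨by rw [a3]; norm_num, by rw [a3]; norm_num⟩
    ⟨by norm_num; linarith only [a4], by norm_num; linarith only [a5]⟩
    ⟨by norm_num; linarith only [a6], by norm_num; linarith only [a7]⟩
  have hp := Real.pi_gt_d6
  have ha : |y.im| = 3 / 20 := by rw [a3]; norm_num [abs_neg, abs_of_pos]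
  rw [ha]
  unfold SS
  push_cast at h
  rw [a3] at h
  linarith only [mul_nonneg (show (0 : ℝ) ≤ y.re - 3 / 10 by linarith only [a1]) (show (0 : ℝ) ≤ 1 / 25 - v.im by linarith only [a7]),
    h, hp, hb, a6, a1]

theorem kF0_mP :
    bb (tst 2 113246 0 0 0 0 3294195 0 0 2977955 0 8388608) 60
      96000 96000 98560 102400 95232 109568 102400 103424 = true := by
  decide +kernel

theorem rF0_mP {y v : ℂ} {b : ℝ} (a1 : y.re = -(1 / 4)) (a2 : -(3 / 20) ≤ y.im) (a3 : y.im ≤ 0) (a4 : -(7 / 25) ≤ v.re) (a5 : v.re ≤ 7 / 25) (a6 : 0 ≤ v.im) (a7 : v.im ≤ 1 / 25)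
    (hb : b ≤ -(27 / 250) - 3 / 5 * v.im) :
    SS y v + b - 8 * v.im * (7 / 25 - v.re) < Real.pi * |y.im| := by
  have h := bb_sound tab_ok kF0_mP (y := y) (v := v) ⟨by rw [a1]; norm_num, by rw [a1]; norm_num⟩
    ⟨by norm_num; linarith only [a2], by norm_num; linarith only [a3]⟩
    ⟨by norm_num; linarith only [a4], by norm_num; linarith only [a5]⟩
    ⟨by norm_num; linarith only [a6], by norm_num; linarith only [a7]⟩
  have hp := Real.pi_gt_d6
  have ha : Real.pi * |y.im| ≥ 3.14159 * -y.im := by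
    rw [abs_of_nonpos a3]
    linarith only [mul_nonneg (sub_nonneg.2 a3) (sub_nonneg.2 hp.le), a3]
  unfold SS
  push_cast at h
  rw [a1] at h
  linarith only [a3, a6, hb, ha, h]

theorem kF0_mQ :
    bb (tst 2 220200 0 0 0 0 3294195 0 0 2348810 0 8388608) 60
      115200 115200 98560 102400 95232 109568 102400 103424 = true := by
  decide +kernel

theorem rF0_mQ {y v : ℂ} {b : ℝ} (a1 : y.re = 1 / 2) (a2 : -(3 / 20) ≤ y.im) (a3 : y.im ≤ 0) (a4 : -(7 / 25) ≤ v.re) (a5 : v.re ≤ 7 / 25) (a6 : 0 ≤ v.im) (a7 : v.im ≤ 1 / 25)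
    (hb : b ≤ -(21 / 100) - 0 * v.im) :
    SS y v + b - 8 * v.im * (7 / 25 - v.re) < Real.pi * |y.im| := by
  have h := bb_sound tab_ok kF0_mQ (y := y) (v := v) ⟨by rw [a1]; norm_num, by rw [a1]; norm_num⟩
    ⟨by norm_num; linarith only [a2], by norm_num; linarith only [a3]⟩
    ⟨by norm_num; linarith only [a4], by norm_num; linarith only [a5]⟩
    ⟨by norm_num; linarith only [a6], by norm_num; linarith only [a7]⟩
  have hp := Real.pi_gt_d6
  have ha : Real.pi * |y.im| ≥ 3.14159 * -y.im := by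
    rw [abs_of_nonpos a3]
    linarith only [mul_nonneg (sub_nonneg.2 a3) (sub_nonneg.2 hp.le), a3]
  unfold SS
  push_cast at h
  rw [a1] at h
  linarith only [a3, a6, hb, ha, h]

theorem kF1_p0 :
    bb (tst 2 648240 0 217983 0 0 0 0 0 3376414 0 8388608) 60
      96000 104960 106240 106240 95232 109568 103424 104653 = true := by
  decide +kernel

theorem rF1_p0 {y v : ℂ} {b : ℝ} (a1 : -(1 / 4) ≤ y.re) (a2 : y.re ≤ 1 / 10) (a3 : y.im = 3 / 20) (a4 : -(7 / 25) ≤ v.re) (a5 : v.re ≤ 7 / 25) (a6 : 1 / 25 ≤ v.im) (a7 : v.im ≤ 11 / 125)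
    (hb : b * (1 / 10 - (-(1 / 4))) ≤ (-(19 / 200) - 49 / 50 * v.im) * (1 / 10 - y.re) +
      (-(21 / 100) - 1 / 2 * v.im) * (y.re - (-(1 / 4)))) :
    SS y v + b - 8 * v.im * (7 / 25 - v.re) < Real.pi * |y.im| := by
  have h := bb_sound tab_ok kF1_p0 (y := y) (v := v) ⟨by norm_num; linarith only [a1], by norm_num; linarith only [a2]⟩
    ⟨by rw [a3]; norm_num, by rw [a3]; norm_num⟩
    ⟨by norm_num; linarith only [a4], by norm_num; linarith only [a5]⟩
    ⟨by norm_num; linarith only [a6], by norm_num; linarith only [a7]⟩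
  have hp := Real.pi_gt_d6
  have ha : |y.im| = 3 / 20 := by rw [a3]; norm_num [abs_of_pos]
  rw [ha]
  unfold SS
  push_cast at h
  rw [a3] at h
  linarith only [mul_nonneg (show (0 : ℝ) ≤ y.re - (-(1 / 4)) by linarith only [a1]) (show (0 : ℝ) ≤ 11 / 125 - v.im by linarith only [a7]),
    h, hp, hb, a6, a1]

theorem kF1_p1 :
    bb (tst 2 691890 0 224395 0 0 0 0 0 2873098 0 8388608) 60
      104960 110080 106240 106240 95232 109568 103424 104653 = true := by
  decide +kernel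

theorem rF1_p1 {y v : ℂ} {b : ℝ} (a1 : 1 / 10 ≤ y.re) (a2 : y.re ≤ 3 / 10) (a3 : y.im = 3 / 20) (a4 : -(7 / 25) ≤ v.re) (a5 : v.re ≤ 7 / 25) (a6 : 1 / 25 ≤ v.im) (a7 : v.im ≤ 11 / 125)
    (hb : b * (3 / 10 - 1 / 10) ≤ (-(21 / 100) - 1 / 2 * v.im) * (3 / 10 - y.re) +
      (-(133 / 500) - 7 / 20 * v.im) * (y.re - 1 / 10)) :
    SS y v + b - 8 * v.im * (7 / 25 - v.re) < Real.pi * |y.im| := by
  have h := bb_sound tab_ok kF1_p1 (y := y) (v := v) ⟨by norm_num; linarith only [a1], by norm_num; linarith only [a2]⟩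
    ⟨by rw [a3]; norm_num, by rw [a3]; norm_num⟩
    ⟨by norm_num; linarith only [a4], by norm_num; linarith only [a5]⟩
    ⟨by norm_num; linarith only [a6], by norm_num; linarith only [a7]⟩
  have hp := Real.pi_gt_d6
  have ha : |y.im| = 3 / 20 := by rw [a3]; norm_num [abs_of_pos]
  rw [ha]
  unfold SS
  push_cast at h
  rw [a3] at h
  linarith only [mul_nonneg (show (0 : ℝ) ≤ y.re - 1 / 10 by linarith only [a1]) (show (0 : ℝ) ≤ 11 / 125 - v.im by linarith only [a7]),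
    h, hp, hb, a6, a1]

theorem kF1_p2 :
    bb (tst 2 909575 0 0 455082 0 0 0 0 2715811 0 8388608) 60
      110080 115200 106240 106240 95232 109568 103424 104653 = true := by
  decide +kernel

theorem rF1_p2 {y v : ℂ} {b : ℝ} (a1 : 3 / 10 ≤ y.re) (a2 : y.re ≤ 1 / 2) (a3 : y.im = 3 / 20) (a4 : -(7 / 25) ≤ v.re) (a5 : v.re ≤ 7 / 25) (a6 : 1 / 25 ≤ v.im) (a7 : v.im ≤ 11 / 125)
    (hb : b * (1 / 2 - 3 / 10) ≤ (-(133 / 500) - 7 / 20 * v.im) * (1 / 2 - y.re) +
      (-(21 / 100) - 0 * v.im) * (y.re - 3 / 10)) :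
    SS y v + b - 8 * v.im * (7 / 25 - v.re) < Real.pi * |y.im| := by
  have h := bb_sound tab_ok kF1_p2 (y := y) (v := v) ⟨by norm_num; linarith only [a1], by norm_num; linarith only [a2]⟩
    ⟨by rw [a3]; norm_num, by rw [a3]; norm_num⟩
    ⟨by norm_num; linarith only [a4], by norm_num; linarith only [a5]⟩
    ⟨by norm_num; linarith only [a6], by norm_num; linarith only [a7]⟩
  have hp := Real.pi_gt_d6
  have ha : |y.im| = 3 / 20 := by rw [a3]; norm_num [abs_of_pos]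
  rw [ha]
  unfold SS
  push_cast at h
  rw [a3] at h
  linarith only [mul_nonneg (show (0 : ℝ) ≤ y.re - 3 / 10 by linarith only [a1]) (show (0 : ℝ) ≤ 11 / 125 - v.im by linarith only [a7]),
    h, hp, hb, a6, a1]

theorem kF1_pP :
    bb (tst 2 99614 0 0 0 3294195 0 0 0 3376414 0 8388608) 60
      96000 96000 102400 106240 95232 109568 103424 104653 = true := by
  decide +kernel

theorem rF1_pP {y v : ℂ} {b : ℝ} (a1 : y.re = -(1 / 4)) (a2 : 0 ≤ y.im) (a3 : y.im ≤ 3 / 20) (a4 : -(7 / 25) ≤ v.re) (a5 : v.re ≤ 7 / 25) (a6 : 1 / 25 ≤ v.im) (a7 : v.im ≤ 11 / 125)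
    (hb : b ≤ -(19 / 200) - 49 / 50 * v.im) :
    SS y v + b - 8 * v.im * (7 / 25 - v.re) < Real.pi * |y.im| := by
  have h := bb_sound tab_ok kF1_pP (y := y) (v := v) ⟨by rw [a1]; norm_num, by rw [a1]; norm_num⟩
    ⟨by norm_num; linarith only [a2], by norm_num; linarith only [a3]⟩
    ⟨by norm_num; linarith only [a4], by norm_num; linarith only [a5]⟩
    ⟨by norm_num; linarith only [a6], by norm_num; linarith only [a7]⟩
  have hp := Real.pi_gt_d6
  have ha : Real.pi * |y.im| ≥ 3.14159 * y.im := by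
    rw [abs_of_nonneg a2]
    linarith only [mul_nonneg (sub_nonneg.2 a2) (sub_nonneg.2 hp.le), a2]
  unfold SS
  push_cast at h
  rw [a1] at h
  linarith only [a2, a6, hb, ha, h]

theorem kF1_pQ :
    bb (tst 2 220200 0 0 0 3294195 0 0 0 2348810 0 8388608) 60
      115200 115200 102400 106240 95232 109568 103424 104653 = true := by
  decide +kernel

theorem rF1_pQ {y v : ℂ} {b : ℝ} (a1 : y.re = 1 / 2) (a2 : 0 ≤ y.im) (a3 : y.im ≤ 3 / 20) (a4 : -(7 / 25) ≤ v.re) (a5 : v.re ≤ 7 / 25) (a6 : 1 / 25 ≤ v.im) (a7 : v.im ≤ 11 / 125)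
    (hb : b ≤ -(21 / 100) - 0 * v.im) :
    SS y v + b - 8 * v.im * (7 / 25 - v.re) < Real.pi * |y.im| := by
  have h := bb_sound tab_ok kF1_pQ (y := y) (v := v) ⟨by rw [a1]; norm_num, by rw [a1]; norm_num⟩
    ⟨by norm_num; linarith only [a2], by norm_num; linarith only [a3]⟩
    ⟨by norm_num; linarith only [a4], by norm_num; linarith only [a5]⟩
    ⟨by norm_num; linarith only [a6], by norm_num; linarith only [a7]⟩
  have hp := Real.pi_gt_d6
  have ha : Real.pi * |y.im| ≥ 3.14159 * y.im := by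
    rw [abs_of_nonneg a2]
    linarith only [mul_nonneg (sub_nonneg.2 a2) (sub_nonneg.2 hp.le), a2]
  unfold SS
  push_cast at h
  rw [a1] at h
  linarith only [a2, a6, hb, ha, h]

theorem kF1_m0 :
    bb (tst 2 648240 0 217983 0 0 0 0 0 3376414 0 8388608) 60
      96000 104960 98560 98560 95232 109568 103424 104653 = true := by
  decide +kernel

theorem rF1_m0 {y v : ℂ} {b : ℝ} (a1 : -(1 / 4) ≤ y.re) (a2 : y.re ≤ 1 / 10) (a3 : y.im = -(3 / 20)) (a4 : -(7 / 25) ≤ v.re) (a5 : v.re ≤ 7 / 25) (a6 : 1 / 25 ≤ v.im) (a7 : v.im ≤ 11 / 125)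
    (hb : b * (1 / 10 - (-(1 / 4))) ≤ (-(19 / 200) - 49 / 50 * v.im) * (1 / 10 - y.re) +
      (-(21 / 100) - 1 / 2 * v.im) * (y.re - (-(1 / 4)))) :
    SS y v + b - 8 * v.im * (7 / 25 - v.re) < Real.pi * |y.im| := by
  have h := bb_sound tab_ok kF1_m0 (y := y) (v := v) ⟨by norm_num; linarith only [a1], by norm_num; linarith only [a2]⟩
    ⟨by rw [a3]; norm_num, by rw [a3]; norm_num⟩
    ⟨by norm_num; linarith only [a4], by norm_num; linarith only [a5]⟩
    ⟨by norm_num; linarith only [a6], by norm_num; linarith only [a7]⟩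
  have hp := Real.pi_gt_d6
  have ha : |y.im| = 3 / 20 := by rw [a3]; norm_num [abs_neg, abs_of_pos]
  rw [ha]
  unfold SS
  push_cast at h
  rw [a3] at h
  linarith only [mul_nonneg (show (0 : ℝ) ≤ y.re - (-(1 / 4)) by linarith only [a1]) (show (0 : ℝ) ≤ 11 / 125 - v.im by linarith only [a7]),
    h, hp, hb, a6, a1]

theorem kF1_m1 :
    bb (tst 2 691890 0 224395 0 0 0 0 0 2873098 0 8388608) 60
      104960 110080 98560 98560 95232 109568 103424 104653 = true := by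
  decide +kernel

theorem rF1_m1 {y v : ℂ} {b : ℝ} (a1 : 1 / 10 ≤ y.re) (a2 : y.re ≤ 3 / 10) (a3 : y.im = -(3 / 20)) (a4 : -(7 / 25) ≤ v.re) (a5 : v.re ≤ 7 / 25) (a6 : 1 / 25 ≤ v.im) (a7 : v.im ≤ 11 / 125)
    (hb : b * (3 / 10 - 1 / 10) ≤ (-(21 / 100) - 1 / 2 * v.im) * (3 / 10 - y.re) +
      (-(133 / 500) - 7 / 20 * v.im) * (y.re - 1 / 10)) :
    SS y v + b - 8 * v.im * (7 / 25 - v.re) < Real.pi * |y.im| := by
  have h := bb_sound tab_ok kF1_m1 (y := y) (v := v) ⟨by norm_num; linarith only [a1], by norm_num; linarith only [a2]⟩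
    ⟨by rw [a3]; norm_num, by rw [a3]; norm_num⟩
    ⟨by norm_num; linarith only [a4], by norm_num; linarith only [a5]⟩
    ⟨by norm_num; linarith only [a6], by norm_num; linarith only [a7]⟩
  have hp := Real.pi_gt_d6
  have ha : |y.im| = 3 / 20 := by rw [a3]; norm_num [abs_neg, abs_of_pos]
  rw [ha]
  unfold SS
  push_cast at h
  rw [a3] at h
  linarith only [mul_nonneg (show (0 : ℝ) ≤ y.re - 1 / 10 by linarith only [a1]) (show (0 : ℝ) ≤ 11 / 125 - v.im by linarith only [a7]),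
    h, hp, hb, a6, a1]

theorem kF1_m2 :
    bb (tst 2 909575 0 0 455082 0 0 0 0 2715811 0 8388608) 60
      110080 115200 98560 98560 95232 109568 103424 104653 = true := by
  decide +kernel

theorem rF1_m2 {y v : ℂ} {b : ℝ} (a1 : 3 / 10 ≤ y.re) (a2 : y.re ≤ 1 / 2) (a3 : y.im = -(3 / 20)) (a4 : -(7 / 25) ≤ v.re) (a5 : v.re ≤ 7 / 25) (a6 : 1 / 25 ≤ v.im) (a7 : v.im ≤ 11 / 125)
    (hb : b * (1 / 2 - 3 / 10) ≤ (-(133 / 500) - 7 / 20 * v.im) * (1 / 2 - y.re) +
      (-(21 / 100) - 0 * v.im) * (y.re - 3 / 10)) :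
    SS y v + b - 8 * v.im * (7 / 25 - v.re) < Real.pi * |y.im| := by
  have h := bb_sound tab_ok kF1_m2 (y := y) (v := v) ⟨by norm_num; linarith only [a1], by norm_num; linarith only [a2]⟩
    ⟨by rw [a3]; norm_num, by rw [a3]; norm_num⟩
    ⟨by norm_num; linarith only [a4], by norm_num; linarith only [a5]⟩
    ⟨by norm_num; linarith only [a6], by norm_num; linarith only [a7]⟩
  have hp := Real.pi_gt_d6
  have ha : |y.im| = 3 / 20 := by rw [a3]; norm_num [abs_neg, abs_of_pos]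
  rw [ha]
  unfold SS
  push_cast at h
  rw [a3] at h
  linarith only [mul_nonneg (show (0 : ℝ) ≤ y.re - 3 / 10 by linarith only [a1]) (show (0 : ℝ) ≤ 11 / 125 - v.im by linarith only [a7]),
    h, hp, hb, a6, a1]

theorem kF1_mP :
    bb (tst 2 99614 0 0 0 0 3294195 0 0 3376414 0 8388608) 60
      96000 96000 98560 102400 95232 109568 103424 104653 = true := by
  decide +kernel

theorem rF1_mP {y v : ℂ} {b : ℝ} (a1 : y.re = -(1 / 4)) (a2 : -(3 / 20) ≤ y.im) (a3 : y.im ≤ 0) (a4 : -(7 / 25) ≤ v.re) (a5 : v.re ≤ 7 / 25) (a6 : 1 / 25 ≤ v.im) (a7 : v.im ≤ 11 / 125)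
    (hb : b ≤ -(19 / 200) - 49 / 50 * v.im) :
    SS y v + b - 8 * v.im * (7 / 25 - v.re) < Real.pi * |y.im| := by
  have h := bb_sound tab_ok kF1_mP (y := y) (v := v) ⟨by rw [a1]; norm_num, by rw [a1]; norm_num⟩
    ⟨by norm_num; linarith only [a2], by norm_num; linarith only [a3]⟩
    ⟨by norm_num; linarith only [a4], by norm_num; linarith only [a5]⟩
    ⟨by norm_num; linarith only [a6], by norm_num; linarith only [a7]⟩
  have hp := Real.pi_gt_d6
  have ha : Real.pi * |y.im| ≥ 3.14159 * -y.im := by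
    rw [abs_of_nonpos a3]
    linarith only [mul_nonneg (sub_nonneg.2 a3) (sub_nonneg.2 hp.le), a3]
  unfold SS
  push_cast at h
  rw [a1] at h
  linarith only [a3, a6, hb, ha, h]

theorem kF1_mQ :
    bb (tst 2 220200 0 0 0 0 3294195 0 0 2348810 0 8388608) 60
      115200 115200 98560 102400 95232 109568 103424 104653 = true := by
  decide +kernel

theorem rF1_mQ {y v : ℂ} {b : ℝ} (a1 : y.re = 1 / 2) (a2 : -(3 / 20) ≤ y.im) (a3 : y.im ≤ 0) (a4 : -(7 / 25) ≤ v.re) (a5 : v.re ≤ 7 / 25) (a6 : 1 / 25 ≤ v.im) (a7 : v.im ≤ 11 / 125)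
    (hb : b ≤ -(21 / 100) - 0 * v.im) :
    SS y v + b - 8 * v.im * (7 / 25 - v.re) < Real.pi * |y.im| := by
  have h := bb_sound tab_ok kF1_mQ (y := y) (v := v) ⟨by rw [a1]; norm_num, by rw [a1]; norm_num⟩
    ⟨by norm_num; linarith only [a2], by norm_num; linarith only [a3]⟩
    ⟨by norm_num; linarith only [a4], by norm_num; linarith only [a5]⟩
    ⟨by norm_num; linarith only [a6], by norm_num; linarith only [a7]⟩
  have hp := Real.pi_gt_d6
  have ha : Real.pi * |y.im| ≥ 3.14159 * -y.im := by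
    rw [abs_of_nonpos a3]
    linarith only [mul_nonneg (sub_nonneg.2 a3) (sub_nonneg.2 hp.le), a3]
  unfold SS
  push_cast at h
  rw [a1] at h
  linarith only [a3, a6, hb, ha, h]

theorem kV0_p0 :
    bb (tst 2 680775 0 293601 0 0 0 0 0 629145 0 0) 60
      96000 104960 106240 106240 109568 109568 102400 103424 = true := by
  decide +kernel

theorem rV0_p0 {y v : ℂ} {b : ℝ} (a1 : -(1 / 4) ≤ y.re) (a2 : y.re ≤ 1 / 10) (a3 : y.im = 3 / 20) (a4 : v.re = 7 / 25) (a5 : 0 ≤ v.im) (a6 : v.im ≤ 1 / 25)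
    (hb : b * (1 / 10 - (-(1 / 4))) ≤ (-(27 / 250) - 3 / 5 * v.im) * (1 / 10 - y.re) +
      (-(43 / 200) - 3 / 8 * v.im) * (y.re - (-(1 / 4)))) :
    SS y v + b < Real.pi * |y.im| := by
  have h := bb_sound tab_ok kV0_p0 (y := y) (v := v) ⟨by norm_num; linarith only [a1], by norm_num; linarith only [a2]⟩
    ⟨by rw [a3]; norm_num, by rw [a3]; norm_num⟩
    ⟨by rw [a4]; norm_num, by rw [a4]; norm_num⟩
    ⟨by norm_num; linarith only [a5], by norm_num; linarith only [a6]⟩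
  have hp := Real.pi_gt_d6
  have ha : |y.im| = 3 / 20 := by rw [a3]; norm_num [abs_of_pos]
  rw [ha]
  unfold SS
  push_cast at h
  rw [a3, a4] at h
  linarith only [mul_nonneg (show (0 : ℝ) ≤ y.re - (-(1 / 4)) by linarith only [a1]) (show (0 : ℝ) ≤ 1 / 25 - v.im by linarith only [a6]),
    h, hp, hb, a5, a1]

theorem kV0_p1 :
    bb (tst 2 693987 0 255852 0 0 0 0 0 393216 0 0) 60
      104960 110080 106240 106240 109568 109568 102400 103424 = true := by
  decide +kernel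

theorem rV0_p1 {y v : ℂ} {b : ℝ} (a1 : 1 / 10 ≤ y.re) (a2 : y.re ≤ 3 / 10) (a3 : y.im = 3 / 20) (a4 : v.re = 7 / 25) (a5 : 0 ≤ v.im) (a6 : v.im ≤ 1 / 25)
    (hb : b * (3 / 10 - 1 / 10) ≤ (-(43 / 200) - 3 / 8 * v.im) * (3 / 10 - y.re) +
      (-(1319 / 5000) - 3 / 8 * v.im) * (y.re - 1 / 10)) :
    SS y v + b < Real.pi * |y.im| := by
  have h := bb_sound tab_ok kV0_p1 (y := y) (v := v) ⟨by norm_num; linarith only [a1], by norm_num; linarith only [a2]⟩
    ⟨by rw [a3]; norm_num, by rw [a3]; norm_num⟩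
    ⟨by rw [a4]; norm_num, by rw [a4]; norm_num⟩
    ⟨by norm_num; linarith only [a5], by norm_num; linarith only [a6]⟩
  have hp := Real.pi_gt_d6
  have ha : |y.im| = 3 / 20 := by rw [a3]; norm_num [abs_of_pos]
  rw [ha]
  unfold SS
  push_cast at h
  rw [a3, a4] at h
  linarith only [h, hp, hb, a1]

theorem kV0_p2 :
    bb (tst 2 907268 0 0 455082 0 0 0 0 393216 0 0) 60
      110080 115200 106240 106240 109568 109568 102400 103424 = true := by
  decide +kernel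

theorem rV0_p2 {y v : ℂ} {b : ℝ} (a1 : 3 / 10 ≤ y.re) (a2 : y.re ≤ 1 / 2) (a3 : y.im = 3 / 20) (a4 : v.re = 7 / 25) (a5 : 0 ≤ v.im) (a6 : v.im ≤ 1 / 25)
    (hb : b * (1 / 2 - 3 / 10) ≤ (-(1319 / 5000) - 3 / 8 * v.im) * (1 / 2 - y.re) +
      (-(177 / 1000) - 3 / 8 * v.im) * (y.re - 3 / 10)) :
    SS y v + b < Real.pi * |y.im| := by
  have h := bb_sound tab_ok kV0_p2 (y := y) (v := v) ⟨by norm_num; linarith only [a1], by norm_num; linarith only [a2]⟩
    ⟨by rw [a3]; norm_num, by rw [a3]; norm_num⟩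
    ⟨by rw [a4]; norm_num, by rw [a4]; norm_num⟩
    ⟨by norm_num; linarith only [a5], by norm_num; linarith only [a6]⟩
  have hp := Real.pi_gt_d6
  have ha : |y.im| = 3 / 20 := by rw [a3]; norm_num [abs_of_pos]
  rw [ha]
  unfold SS
  push_cast at h
  rw [a3, a4] at h
  linarith only [h, hp, hb, a1]

theorem kV0_pP :
    bb (tst 2 113246 0 0 0 3294195 0 0 0 629145 0 0) 60
      96000 96000 102400 106240 109568 109568 102400 103424 = true := by
  decide +kernel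

theorem rV0_pP {y v : ℂ} {b : ℝ} (a1 : y.re = -(1 / 4)) (a2 : 0 ≤ y.im) (a3 : y.im ≤ 3 / 20) (a4 : v.re = 7 / 25) (a5 : 0 ≤ v.im) (a6 : v.im ≤ 1 / 25)
    (hb : b ≤ -(27 / 250) - 3 / 5 * v.im) :
    SS y v + b < Real.pi * |y.im| := by
  have h := bb_sound tab_ok kV0_pP (y := y) (v := v) ⟨by rw [a1]; norm_num, by rw [a1]; norm_num⟩
    ⟨by norm_num; linarith only [a2], by norm_num; linarith only [a3]⟩
    ⟨by rw [a4]; norm_num, by rw [a4]; norm_num⟩
    ⟨by norm_num; linarith only [a5], by norm_num; linarith only [a6]⟩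
  have hp := Real.pi_gt_d6
  have ha : Real.pi * |y.im| ≥ 3.14159 * y.im := by
    rw [abs_of_nonneg a2]
    linarith only [mul_nonneg (sub_nonneg.2 a2) (sub_nonneg.2 hp.le), a2]
  unfold SS
  push_cast at h
  rw [a1, a4] at h
  linarith only [a2, a5, hb, ha, h]

theorem kV0_pQ :
    bb (tst 2 185597 0 0 0 3294195 0 0 0 393216 0 0) 60
      115200 115200 102400 106240 109568 109568 102400 103424 = true := by
  decide +kernel

theorem rV0_pQ {y v : ℂ} {b : ℝ} (a1 : y.re = 1 / 2) (a2 : 0 ≤ y.im) (a3 : y.im ≤ 3 / 20) (a4 : v.re = 7 / 25) (a5 : 0 ≤ v.im) (a6 : v.im ≤ 1 / 25)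
    (hb : b ≤ -(177 / 1000) - 3 / 8 * v.im) :
    SS y v + b < Real.pi * |y.im| := by
  have h := bb_sound tab_ok kV0_pQ (y := y) (v := v) ⟨by rw [a1]; norm_num, by rw [a1]; norm_num⟩
    ⟨by norm_num; linarith only [a2], by norm_num; linarith only [a3]⟩
    ⟨by rw [a4]; norm_num, by rw [a4]; norm_num⟩
    ⟨by norm_num; linarith only [a5], by norm_num; linarith only [a6]⟩
  have hp := Real.pi_gt_d6
  have ha : Real.pi * |y.im| ≥ 3.14159 * y.im := by
    rw [abs_of_nonneg a2]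
    linarith only [mul_nonneg (sub_nonneg.2 a2) (sub_nonneg.2 hp.le), a2]
  unfold SS
  push_cast at h
  rw [a1, a4] at h
  linarith only [a2, hb, ha, h]

theorem kV0_m0 :
    bb (tst 2 680775 0 293601 0 0 0 0 0 629145 0 0) 60
      96000 104960 98560 98560 109568 109568 102400 103424 = true := by
  decide +kernel

theorem rV0_m0 {y v : ℂ} {b : ℝ} (a1 : -(1 / 4) ≤ y.re) (a2 : y.re ≤ 1 / 10) (a3 : y.im = -(3 / 20)) (a4 : v.re = 7 / 25) (a5 : 0 ≤ v.im) (a6 : v.im ≤ 1 / 25)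
    (hb : b * (1 / 10 - (-(1 / 4))) ≤ (-(27 / 250) - 3 / 5 * v.im) * (1 / 10 - y.re) +
      (-(43 / 200) - 3 / 8 * v.im) * (y.re - (-(1 / 4)))) :
    SS y v + b < Real.pi * |y.im| := by
  have h := bb_sound tab_ok kV0_m0 (y := y) (v := v) ⟨by norm_num; linarith only [a1], by norm_num; linarith only [a2]⟩
    ⟨by rw [a3]; norm_num, by rw [a3]; norm_num⟩
    ⟨by rw [a4]; norm_num, by rw [a4]; norm_num⟩
    ⟨by norm_num; linarith only [a5], by norm_num; linarith only [a6]⟩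
  have hp := Real.pi_gt_d6
  have ha : |y.im| = 3 / 20 := by rw [a3]; norm_num [abs_neg, abs_of_pos]
  rw [ha]
  unfold SS
  push_cast at h
  rw [a3, a4] at h
  linarith only [mul_nonneg (show (0 : ℝ) ≤ y.re - (-(1 / 4)) by linarith only [a1]) (show (0 : ℝ) ≤ 1 / 25 - v.im by linarith only [a6]),
    h, hp, hb, a5, a1]

theorem kV0_m1 :
    bb (tst 2 693987 0 255852 0 0 0 0 0 393216 0 0) 60
      104960 110080 98560 98560 109568 109568 102400 103424 = true := by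
  decide +kernel

theorem rV0_m1 {y v : ℂ} {b : ℝ} (a1 : 1 / 10 ≤ y.re) (a2 : y.re ≤ 3 / 10) (a3 : y.im = -(3 / 20)) (a4 : v.re = 7 / 25) (a5 : 0 ≤ v.im) (a6 : v.im ≤ 1 / 25)
    (hb : b * (3 / 10 - 1 / 10) ≤ (-(43 / 200) - 3 / 8 * v.im) * (3 / 10 - y.re) +
      (-(1319 / 5000) - 3 / 8 * v.im) * (y.re - 1 / 10)) :
    SS y v + b < Real.pi * |y.im| := by
  have h := bb_sound tab_ok kV0_m1 (y := y) (v := v) ⟨by norm_num; linarith only [a1], by norm_num; linarith only [a2]⟩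
    ⟨by rw [a3]; norm_num, by rw [a3]; norm_num⟩
    ⟨by rw [a4]; norm_num, by rw [a4]; norm_num⟩
    ⟨by norm_num; linarith only [a5], by norm_num; linarith only [a6]⟩
  have hp := Real.pi_gt_d6
  have ha : |y.im| = 3 / 20 := by rw [a3]; norm_num [abs_neg, abs_of_pos]
  rw [ha]
  unfold SS
  push_cast at h
  rw [a3, a4] at h
  linarith only [h, hp, hb, a1]

theorem kV0_m2 :
    bb (tst 2 907268 0 0 455082 0 0 0 0 393216 0 0) 60
      110080 115200 98560 98560 109568 109568 102400 103424 = true := by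
  decide +kernel

theorem rV0_m2 {y v : ℂ} {b : ℝ} (a1 : 3 / 10 ≤ y.re) (a2 : y.re ≤ 1 / 2) (a3 : y.im = -(3 / 20)) (a4 : v.re = 7 / 25) (a5 : 0 ≤ v.im) (a6 : v.im ≤ 1 / 25)
    (hb : b * (1 / 2 - 3 / 10) ≤ (-(1319 / 5000) - 3 / 8 * v.im) * (1 / 2 - y.re) +
      (-(177 / 1000) - 3 / 8 * v.im) * (y.re - 3 / 10)) :
    SS y v + b < Real.pi * |y.im| := by
  have h := bb_sound tab_ok kV0_m2 (y := y) (v := v) ⟨by norm_num; linarith only [a1], by norm_num; linarith only [a2]⟩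
    ⟨by rw [a3]; norm_num, by rw [a3]; norm_num⟩
    ⟨by rw [a4]; norm_num, by rw [a4]; norm_num⟩
    ⟨by norm_num; linarith only [a5], by norm_num; linarith only [a6]⟩
  have hp := Real.pi_gt_d6
  have ha : |y.im| = 3 / 20 := by rw [a3]; norm_num [abs_neg, abs_of_pos]
  rw [ha]
  unfold SS
  push_cast at h
  rw [a3, a4] at h
  linarith only [h, hp, hb, a1]

theorem kV0_mP :
    bb (tst 2 113246 0 0 0 0 3294195 0 0 629145 0 0) 60
      96000 96000 98560 102400 109568 109568 102400 103424 = true := by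
  decide +kernel

theorem rV0_mP {y v : ℂ} {b : ℝ} (a1 : y.re = -(1 / 4)) (a2 : -(3 / 20) ≤ y.im) (a3 : y.im ≤ 0) (a4 : v.re = 7 / 25) (a5 : 0 ≤ v.im) (a6 : v.im ≤ 1 / 25)
    (hb : b ≤ -(27 / 250) - 3 / 5 * v.im) :
    SS y v + b < Real.pi * |y.im| := by
  have h := bb_sound tab_ok kV0_mP (y := y) (v := v) ⟨by rw [a1]; norm_num, by rw [a1]; norm_num⟩
    ⟨by norm_num; linarith only [a2], by norm_num; linarith only [a3]⟩
    ⟨by rw [a4]; norm_num, by rw [a4]; norm_num⟩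
    ⟨by norm_num; linarith only [a5], by norm_num; linarith only [a6]⟩
  have hp := Real.pi_gt_d6
  have ha : Real.pi * |y.im| ≥ 3.14159 * -y.im := by
    rw [abs_of_nonpos a3]
    linarith only [mul_nonneg (sub_nonneg.2 a3) (sub_nonneg.2 hp.le), a3]
  unfold SS
  push_cast at h
  rw [a1, a4] at h
  linarith only [a3, a5, hb, ha, h]

theorem kV0_mQ :
    bb (tst 2 185597 0 0 0 0 3294195 0 0 393216 0 0) 60
      115200 115200 98560 102400 109568 109568 102400 103424 = true := by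
  decide +kernel

theorem rV0_mQ {y v : ℂ} {b : ℝ} (a1 : y.re = 1 / 2) (a2 : -(3 / 20) ≤ y.im) (a3 : y.im ≤ 0) (a4 : v.re = 7 / 25) (a5 : 0 ≤ v.im) (a6 : v.im ≤ 1 / 25)
    (hb : b ≤ -(177 / 1000) - 3 / 8 * v.im) :
    SS y v + b < Real.pi * |y.im| := by
  have h := bb_sound tab_ok kV0_mQ (y := y) (v := v) ⟨by rw [a1]; norm_num, by rw [a1]; norm_num⟩
    ⟨by norm_num; linarith only [a2], by norm_num; linarith only [a3]⟩
    ⟨by rw [a4]; norm_num, by rw [a4]; norm_num⟩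
    ⟨by norm_num; linarith only [a5], by norm_num; linarith only [a6]⟩
  have hp := Real.pi_gt_d6
  have ha : Real.pi * |y.im| ≥ 3.14159 * -y.im := by
    rw [abs_of_nonpos a3]
    linarith only [mul_nonneg (sub_nonneg.2 a3) (sub_nonneg.2 hp.le), a3]
  unfold SS
  push_cast at h
  rw [a1, a4] at h
  linarith only [a3, hb, ha, h]

theorem kV1_p0 :
    bb (tst 2 648240 0 217983 0 0 0 0 0 1027604 0 0) 60
      96000 104960 106240 106240 109568 109568 103424 104653 = true := by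
  decide +kernel

theorem rV1_p0 {y v : ℂ} {b : ℝ} (a1 : -(1 / 4) ≤ y.re) (a2 : y.re ≤ 1 / 10) (a3 : y.im = 3 / 20) (a4 : v.re = 7 / 25) (a5 : 1 / 25 ≤ v.im) (a6 : v.im ≤ 11 / 125)
    (hb : b * (1 / 10 - (-(1 / 4))) ≤ (-(19 / 200) - 49 / 50 * v.im) * (1 / 10 - y.re) +
      (-(21 / 100) - 1 / 2 * v.im) * (y.re - (-(1 / 4)))) :
    SS y v + b < Real.pi * |y.im| := by
  have h := bb_sound tab_ok kV1_p0 (y := y) (v := v) ⟨by norm_num; linarith only [a1], by norm_num; linarith only [a2]⟩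
    ⟨by rw [a3]; norm_num, by rw [a3]; norm_num⟩
    ⟨by rw [a4]; norm_num, by rw [a4]; norm_num⟩
    ⟨by norm_num; linarith only [a5], by norm_num; linarith only [a6]⟩
  have hp := Real.pi_gt_d6
  have ha : |y.im| = 3 / 20 := by rw [a3]; norm_num [abs_of_pos]
  rw [ha]
  unfold SS
  push_cast at h
  rw [a3, a4] at h
  linarith only [mul_nonneg (show (0 : ℝ) ≤ y.re - (-(1 / 4)) by linarith only [a1]) (show (0 : ℝ) ≤ 11 / 125 - v.im by linarith only [a6]),
    h, hp, hb, a5, a1]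

theorem kV1_p1 :
    bb (tst 2 691890 0 224395 0 0 0 0 0 524288 0 0) 60
      104960 110080 106240 106240 109568 109568 103424 104653 = true := by
  decide +kernel

theorem rV1_p1 {y v : ℂ} {b : ℝ} (a1 : 1 / 10 ≤ y.re) (a2 : y.re ≤ 3 / 10) (a3 : y.im = 3 / 20) (a4 : v.re = 7 / 25) (a5 : 1 / 25 ≤ v.im) (a6 : v.im ≤ 11 / 125)
    (hb : b * (3 / 10 - 1 / 10) ≤ (-(21 / 100) - 1 / 2 * v.im) * (3 / 10 - y.re) +
      (-(1319 / 5000) - 3 / 8 * v.im) * (y.re - 1 / 10)) :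
    SS y v + b < Real.pi * |y.im| := by
  have h := bb_sound tab_ok kV1_p1 (y := y) (v := v) ⟨by norm_num; linarith only [a1], by norm_num; linarith only [a2]⟩
    ⟨by rw [a3]; norm_num, by rw [a3]; norm_num⟩
    ⟨by rw [a4]; norm_num, by rw [a4]; norm_num⟩
    ⟨by norm_num; linarith only [a5], by norm_num; linarith only [a6]⟩
  have hp := Real.pi_gt_d6
  have ha : |y.im| = 3 / 20 := by rw [a3]; norm_num [abs_of_pos]
  rw [ha]
  unfold SS
  push_cast at h
  rw [a3, a4] at h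
  linarith only [mul_nonneg (show (0 : ℝ) ≤ y.re - 1 / 10 by linarith only [a1]) (show (0 : ℝ) ≤ 11 / 125 - v.im by linarith only [a6]),
    h, hp, hb, a1]

theorem kV1_p2 :
    bb (tst 2 907268 0 0 455082 0 0 0 0 393216 0 0) 60
      110080 115200 106240 106240 109568 109568 103424 104653 = true := by
  decide +kernel

theorem rV1_p2 {y v : ℂ} {b : ℝ} (a1 : 3 / 10 ≤ y.re) (a2 : y.re ≤ 1 / 2) (a3 : y.im = 3 / 20) (a4 : v.re = 7 / 25) (a5 : 1 / 25 ≤ v.im) (a6 : v.im ≤ 11 / 125)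
    (hb : b * (1 / 2 - 3 / 10) ≤ (-(1319 / 5000) - 3 / 8 * v.im) * (1 / 2 - y.re) +
      (-(177 / 1000) - 3 / 8 * v.im) * (y.re - 3 / 10)) :
    SS y v + b < Real.pi * |y.im| := by
  have h := bb_sound tab_ok kV1_p2 (y := y) (v := v) ⟨by norm_num; linarith only [a1], by norm_num; linarith only [a2]⟩
    ⟨by rw [a3]; norm_num, by rw [a3]; norm_num⟩
    ⟨by rw [a4]; norm_num, by rw [a4]; norm_num⟩
    ⟨by norm_num; linarith only [a5], by norm_num; linarith only [a6]⟩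
  have hp := Real.pi_gt_d6
  have ha : |y.im| = 3 / 20 := by rw [a3]; norm_num [abs_of_pos]
  rw [ha]
  unfold SS
  push_cast at h
  rw [a3, a4] at h
  linarith only [h, hp, hb, a1]

theorem kV1_pP :
    bb (tst 2 99614 0 0 0 3294195 0 0 0 1027604 0 0) 60
      96000 96000 102400 106240 109568 109568 103424 104653 = true := by
  decide +kernel

theorem rV1_pP {y v : ℂ} {b : ℝ} (a1 : y.re = -(1 / 4)) (a2 : 0 ≤ y.im) (a3 : y.im ≤ 3 / 20) (a4 : v.re = 7 / 25) (a5 : 1 / 25 ≤ v.im) (a6 : v.im ≤ 11 / 125)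
    (hb : b ≤ -(19 / 200) - 49 / 50 * v.im) :
    SS y v + b < Real.pi * |y.im| := by
  have h := bb_sound tab_ok kV1_pP (y := y) (v := v) ⟨by rw [a1]; norm_num, by rw [a1]; norm_num⟩
    ⟨by norm_num; linarith only [a2], by norm_num; linarith only [a3]⟩
    ⟨by rw [a4]; norm_num, by rw [a4]; norm_num⟩
    ⟨by norm_num; linarith only [a5], by norm_num; linarith only [a6]⟩
  have hp := Real.pi_gt_d6
  have ha : Real.pi * |y.im| ≥ 3.14159 * y.im := by
    rw [abs_of_nonneg a2]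
    linarith only [mul_nonneg (sub_nonneg.2 a2) (sub_nonneg.2 hp.le), a2]
  unfold SS
  push_cast at h
  rw [a1, a4] at h
  linarith only [a2, a5, hb, ha, h]

theorem kV1_pQ :
    bb (tst 2 185597 0 0 0 3294195 0 0 0 393216 0 0) 60
      115200 115200 102400 106240 109568 109568 103424 104653 = true := by
  decide +kernel

theorem rV1_pQ {y v : ℂ} {b : ℝ} (a1 : y.re = 1 / 2) (a2 : 0 ≤ y.im) (a3 : y.im ≤ 3 / 20) (a4 : v.re = 7 / 25) (a5 : 1 / 25 ≤ v.im) (a6 : v.im ≤ 11 / 125)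
    (hb : b ≤ -(177 / 1000) - 3 / 8 * v.im) :
    SS y v + b < Real.pi * |y.im| := by
  have h := bb_sound tab_ok kV1_pQ (y := y) (v := v) ⟨by rw [a1]; norm_num, by rw [a1]; norm_num⟩
    ⟨by norm_num; linarith only [a2], by norm_num; linarith only [a3]⟩
    ⟨by rw [a4]; norm_num, by rw [a4]; norm_num⟩
    ⟨by norm_num; linarith only [a5], by norm_num; linarith only [a6]⟩
  have hp := Real.pi_gt_d6
  have ha : Real.pi * |y.im| ≥ 3.14159 * y.im := by
    rw [abs_of_nonneg a2]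
    linarith only [mul_nonneg (sub_nonneg.2 a2) (sub_nonneg.2 hp.le), a2]
  unfold SS
  push_cast at h
  rw [a1, a4] at h
  linarith only [a2, hb, ha, h]

theorem kV1_m0 :
    bb (tst 2 648240 0 217983 0 0 0 0 0 1027604 0 0) 60
      96000 104960 98560 98560 109568 109568 103424 104653 = true := by
  decide +kernel

theorem rV1_m0 {y v : ℂ} {b : ℝ} (a1 : -(1 / 4) ≤ y.re) (a2 : y.re ≤ 1 / 10) (a3 : y.im = -(3 / 20)) (a4 : v.re = 7 / 25) (a5 : 1 / 25 ≤ v.im) (a6 : v.im ≤ 11 / 125)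
    (hb : b * (1 / 10 - (-(1 / 4))) ≤ (-(19 / 200) - 49 / 50 * v.im) * (1 / 10 - y.re) +
      (-(21 / 100) - 1 / 2 * v.im) * (y.re - (-(1 / 4)))) :
    SS y v + b < Real.pi * |y.im| := by
  have h := bb_sound tab_ok kV1_m0 (y := y) (v := v) ⟨by norm_num; linarith only [a1], by norm_num; linarith only [a2]⟩
    ⟨by rw [a3]; norm_num, by rw [a3]; norm_num⟩
    ⟨by rw [a4]; norm_num, by rw [a4]; norm_num⟩
    ⟨by norm_num; linarith only [a5], by norm_num; linarith only [a6]⟩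
  have hp := Real.pi_gt_d6
  have ha : |y.im| = 3 / 20 := by rw [a3]; norm_num [abs_neg, abs_of_pos]
  rw [ha]
  unfold SS
  push_cast at h
  rw [a3, a4] at h
  linarith only [mul_nonneg (show (0 : ℝ) ≤ y.re - (-(1 / 4)) by linarith only [a1]) (show (0 : ℝ) ≤ 11 / 125 - v.im by linarith only [a6]),
    h, hp, hb, a5, a1]

theorem kV1_m1 :
    bb (tst 2 691890 0 224395 0 0 0 0 0 524288 0 0) 60
      104960 110080 98560 98560 109568 109568 103424 104653 = true := by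
  decide +kernel

theorem rV1_m1 {y v : ℂ} {b : ℝ} (a1 : 1 / 10 ≤ y.re) (a2 : y.re ≤ 3 / 10) (a3 : y.im = -(3 / 20)) (a4 : v.re = 7 / 25) (a5 : 1 / 25 ≤ v.im) (a6 : v.im ≤ 11 / 125)
    (hb : b * (3 / 10 - 1 / 10) ≤ (-(21 / 100) - 1 / 2 * v.im) * (3 / 10 - y.re) +
      (-(1319 / 5000) - 3 / 8 * v.im) * (y.re - 1 / 10)) :
    SS y v + b < Real.pi * |y.im| := by
  have h := bb_sound tab_ok kV1_m1 (y := y) (v := v) ⟨by norm_num; linarith only [a1], by norm_num; linarith only [a2]⟩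
    ⟨by rw [a3]; norm_num, by rw [a3]; norm_num⟩
    ⟨by rw [a4]; norm_num, by rw [a4]; norm_num⟩
    ⟨by norm_num; linarith only [a5], by norm_num; linarith only [a6]⟩
  have hp := Real.pi_gt_d6
  have ha : |y.im| = 3 / 20 := by rw [a3]; norm_num [abs_neg, abs_of_pos]
  rw [ha]
  unfold SS
  push_cast at h
  rw [a3, a4] at h
  linarith only [mul_nonneg (show (0 : ℝ) ≤ y.re - 1 / 10 by linarith only [a1]) (show (0 : ℝ) ≤ 11 / 125 - v.im by linarith only [a6]),
    h, hp, hb, a1]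

theorem kV1_m2 :
    bb (tst 2 907268 0 0 455082 0 0 0 0 393216 0 0) 60
      110080 115200 98560 98560 109568 109568 103424 104653 = true := by
  decide +kernel

theorem rV1_m2 {y v : ℂ} {b : ℝ} (a1 : 3 / 10 ≤ y.re) (a2 : y.re ≤ 1 / 2) (a3 : y.im = -(3 / 20)) (a4 : v.re = 7 / 25) (a5 : 1 / 25 ≤ v.im) (a6 : v.im ≤ 11 / 125)
    (hb : b * (1 / 2 - 3 / 10) ≤ (-(1319 / 5000) - 3 / 8 * v.im) * (1 / 2 - y.re) +
      (-(177 / 1000) - 3 / 8 * v.im) * (y.re - 3 / 10)) :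
    SS y v + b < Real.pi * |y.im| := by
  have h := bb_sound tab_ok kV1_m2 (y := y) (v := v) ⟨by norm_num; linarith only [a1], by norm_num; linarith only [a2]⟩
    ⟨by rw [a3]; norm_num, by rw [a3]; norm_num⟩
    ⟨by rw [a4]; norm_num, by rw [a4]; norm_num⟩
    ⟨by norm_num; linarith only [a5], by norm_num; linarith only [a6]⟩
  have hp := Real.pi_gt_d6
  have ha : |y.im| = 3 / 20 := by rw [a3]; norm_num [abs_neg, abs_of_pos]
  rw [ha]
  unfold SS
  push_cast at h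
  rw [a3, a4] at h
  linarith only [h, hp, hb, a1]

theorem kV1_mP :
    bb (tst 2 99614 0 0 0 0 3294195 0 0 1027604 0 0) 60
      96000 96000 98560 102400 109568 109568 103424 104653 = true := by
  decide +kernel

theorem rV1_mP {y v : ℂ} {b : ℝ} (a1 : y.re = -(1 / 4)) (a2 : -(3 / 20) ≤ y.im) (a3 : y.im ≤ 0) (a4 : v.re = 7 / 25) (a5 : 1 / 25 ≤ v.im) (a6 : v.im ≤ 11 / 125)
    (hb : b ≤ -(19 / 200) - 49 / 50 * v.im) :
    SS y v + b < Real.pi * |y.im| := by
  have h := bb_sound tab_ok kV1_mP (y := y) (v := v) ⟨by rw [a1]; norm_num, by rw [a1]; norm_num⟩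
    ⟨by norm_num; linarith only [a2], by norm_num; linarith only [a3]⟩
    ⟨by rw [a4]; norm_num, by rw [a4]; norm_num⟩
    ⟨by norm_num; linarith only [a5], by norm_num; linarith only [a6]⟩
  have hp := Real.pi_gt_d6
  have ha : Real.pi * |y.im| ≥ 3.14159 * -y.im := by
    rw [abs_of_nonpos a3]
    linarith only [mul_nonneg (sub_nonneg.2 a3) (sub_nonneg.2 hp.le), a3]
  unfold SS
  push_cast at h
  rw [a1, a4] at h
  linarith only [a3, a5, hb, ha, h]

theorem kV1_mQ :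
    bb (tst 2 185597 0 0 0 0 3294195 0 0 393216 0 0) 60
      115200 115200 98560 102400 109568 109568 103424 104653 = true := by
  decide +kernel

theorem rV1_mQ {y v : ℂ} {b : ℝ} (a1 : y.re = 1 / 2) (a2 : -(3 / 20) ≤ y.im) (a3 : y.im ≤ 0) (a4 : v.re = 7 / 25) (a5 : 1 / 25 ≤ v.im) (a6 : v.im ≤ 11 / 125)
    (hb : b ≤ -(177 / 1000) - 3 / 8 * v.im) :
    SS y v + b < Real.pi * |y.im| := by
  have h := bb_sound tab_ok kV1_mQ (y := y) (v := v) ⟨by rw [a1]; norm_num, by rw [a1]; norm_num⟩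
    ⟨by norm_num; linarith only [a2], by norm_num; linarith only [a3]⟩
    ⟨by rw [a4]; norm_num, by rw [a4]; norm_num⟩
    ⟨by norm_num; linarith only [a5], by norm_num; linarith only [a6]⟩
  have hp := Real.pi_gt_d6
  have ha : Real.pi * |y.im| ≥ 3.14159 * -y.im := by
    rw [abs_of_nonpos a3]
    linarith only [mul_nonneg (sub_nonneg.2 a3) (sub_nonneg.2 hp.le), a3]
  unfold SS
  push_cast at h
  rw [a1, a4] at h
  linarith only [a3, hb, ha, h]

theorem kR0_p0 :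
    bb (tst 2 687516 0 320564 0 0 0 0 0 0 0 0) 60
      96000 104960 106240 106240 108800 115200 102400 102400 = true := by
  decide +kernel

theorem rR0_p0 {y v : ℂ} {b : ℝ} (a1 : -(1 / 4) ≤ y.re) (a2 : y.re ≤ 1 / 10) (a3 : y.im = 3 / 20) (a4 : 1 / 4 ≤ v.re) (a5 : v.re ≤ 1 / 2) (a6 : v.im = 0)
    (hb : b * (1 / 10 - (-(1 / 4))) ≤ (-(27 / 250) - 0 * v.im) * (1 / 10 - y.re) +
      (-(43 / 200) - 0 * v.im) * (y.re - (-(1 / 4)))) :
    SS y v + b < Real.pi * |y.im| := by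
  have h := bb_sound tab_ok kR0_p0 (y := y) (v := v) ⟨by norm_num; linarith only [a1], by norm_num; linarith only [a2]⟩
    ⟨by rw [a3]; norm_num, by rw [a3]; norm_num⟩
    ⟨by norm_num; linarith only [a4], by norm_num; linarith only [a5]⟩
    ⟨by rw [a6]; norm_num, by rw [a6]; norm_num⟩
  have hp := Real.pi_gt_d6
  have ha : |y.im| = 3 / 20 := by rw [a3]; norm_num [abs_of_pos]
  rw [ha]
  unfold SS
  push_cast at h
  rw [a3, a6] at h
  rw [a6] at hb
  linarith only [a1, hb, hp, h]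

theorem kR0_p1 :
    bb (tst 2 693987 0 255852 0 0 0 0 0 0 0 0) 60
      104960 110080 106240 106240 108800 115200 102400 102400 = true := by
  decide +kernel

theorem rR0_p1 {y v : ℂ} {b : ℝ} (a1 : 1 / 10 ≤ y.re) (a2 : y.re ≤ 3 / 10) (a3 : y.im = 3 / 20) (a4 : 1 / 4 ≤ v.re) (a5 : v.re ≤ 1 / 2) (a6 : v.im = 0)
    (hb : b * (3 / 10 - 1 / 10) ≤ (-(43 / 200) - 0 * v.im) * (3 / 10 - y.re) +
      (-(1319 / 5000) - 0 * v.im) * (y.re - 1 / 10)) :
    SS y v + b < Real.pi * |y.im| := by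
  have h := bb_sound tab_ok kR0_p1 (y := y) (v := v) ⟨by norm_num; linarith only [a1], by norm_num; linarith only [a2]⟩
    ⟨by rw [a3]; norm_num, by rw [a3]; norm_num⟩
    ⟨by norm_num; linarith only [a4], by norm_num; linarith only [a5]⟩
    ⟨by rw [a6]; norm_num, by rw [a6]; norm_num⟩
  have hp := Real.pi_gt_d6
  have ha : |y.im| = 3 / 20 := by rw [a3]; norm_num [abs_of_pos]
  rw [ha]
  unfold SS
  push_cast at h
  rw [a3, a6] at h
  rw [a6] at hb
  linarith only [a1, hb, hp, h]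

theorem kR0_p2 :
    bb (tst 2 907268 0 0 455082 0 0 0 0 0 0 0) 60
      110080 115200 106240 106240 108800 115200 102400 102400 = true := by
  decide +kernel

theorem rR0_p2 {y v : ℂ} {b : ℝ} (a1 : 3 / 10 ≤ y.re) (a2 : y.re ≤ 1 / 2) (a3 : y.im = 3 / 20) (a4 : 1 / 4 ≤ v.re) (a5 : v.re ≤ 1 / 2) (a6 : v.im = 0)
    (hb : b * (1 / 2 - 3 / 10) ≤ (-(1319 / 5000) - 0 * v.im) * (1 / 2 - y.re) +
      (-(177 / 1000) - 0 * v.im) * (y.re - 3 / 10)) :
    SS y v + b < Real.pi * |y.im| := by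
  have h := bb_sound tab_ok kR0_p2 (y := y) (v := v) ⟨by norm_num; linarith only [a1], by norm_num; linarith only [a2]⟩
    ⟨by rw [a3]; norm_num, by rw [a3]; norm_num⟩
    ⟨by norm_num; linarith only [a4], by norm_num; linarith only [a5]⟩
    ⟨by rw [a6]; norm_num, by rw [a6]; norm_num⟩
  have hp := Real.pi_gt_d6
  have ha : |y.im| = 3 / 20 := by rw [a3]; norm_num [abs_of_pos]
  rw [ha]
  unfold SS
  push_cast at h
  rw [a3, a6] at h
  rw [a6] at hb
  linarith only [a1, hb, hp, h]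

theorem kR0_pP :
    bb (tst 2 113246 0 0 0 3294195 0 0 0 0 0 0) 60
      96000 96000 102400 106240 108800 115200 102400 102400 = true := by
  decide +kernel

theorem rR0_pP {y v : ℂ} {b : ℝ} (a1 : y.re = -(1 / 4)) (a2 : 0 ≤ y.im) (a3 : y.im ≤ 3 / 20) (a4 : 1 / 4 ≤ v.re) (a5 : v.re ≤ 1 / 2) (a6 : v.im = 0)
    (hb : b ≤ -(27 / 250) - 0 * v.im) :
    SS y v + b < Real.pi * |y.im| := by
  have h := bb_sound tab_ok kR0_pP (y := y) (v := v) ⟨by rw [a1]; norm_num, by rw [a1]; norm_num⟩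
    ⟨by norm_num; linarith only [a2], by norm_num; linarith only [a3]⟩
    ⟨by norm_num; linarith only [a4], by norm_num; linarith only [a5]⟩
    ⟨by rw [a6]; norm_num, by rw [a6]; norm_num⟩
  have hp := Real.pi_gt_d6
  have ha : Real.pi * |y.im| ≥ 3.14159 * y.im := by
    rw [abs_of_nonneg a2]
    linarith only [mul_nonneg (sub_nonneg.2 a2) (sub_nonneg.2 hp.le), a2]
  unfold SS
  push_cast at h
  rw [a1, a6] at h
  rw [a6] at hb
  linarith only [a2, hb, ha, h]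

theorem kR0_pQ :
    bb (tst 2 185597 0 0 0 3294195 0 0 0 0 0 0) 60
      115200 115200 102400 106240 108800 115200 102400 102400 = true := by
  decide +kernel

theorem rR0_pQ {y v : ℂ} {b : ℝ} (a1 : y.re = 1 / 2) (a2 : 0 ≤ y.im) (a3 : y.im ≤ 3 / 20) (a4 : 1 / 4 ≤ v.re) (a5 : v.re ≤ 1 / 2) (a6 : v.im = 0)
    (hb : b ≤ -(177 / 1000) - 0 * v.im) :
    SS y v + b < Real.pi * |y.im| := by
  have h := bb_sound tab_ok kR0_pQ (y := y) (v := v) ⟨by rw [a1]; norm_num, by rw [a1]; norm_num⟩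
    ⟨by norm_num; linarith only [a2], by norm_num; linarith only [a3]⟩
    ⟨by norm_num; linarith only [a4], by norm_num; linarith only [a5]⟩
    ⟨by rw [a6]; norm_num, by rw [a6]; norm_num⟩
  have hp := Real.pi_gt_d6
  have ha : Real.pi * |y.im| ≥ 3.14159 * y.im := by
    rw [abs_of_nonneg a2]
    linarith only [mul_nonneg (sub_nonneg.2 a2) (sub_nonneg.2 hp.le), a2]
  unfold SS
  push_cast at h
  rw [a1, a6] at h
  rw [a6] at hb
  linarith only [a2, hb, ha, h]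

theorem kR0_m0 :
    bb (tst 2 687516 0 320564 0 0 0 0 0 0 0 0) 60
      96000 104960 98560 98560 108800 115200 102400 102400 = true := by
  decide +kernel

theorem rR0_m0 {y v : ℂ} {b : ℝ} (a1 : -(1 / 4) ≤ y.re) (a2 : y.re ≤ 1 / 10) (a3 : y.im = -(3 / 20)) (a4 : 1 / 4 ≤ v.re) (a5 : v.re ≤ 1 / 2) (a6 : v.im = 0)
    (hb : b * (1 / 10 - (-(1 / 4))) ≤ (-(27 / 250) - 0 * v.im) * (1 / 10 - y.re) +
      (-(43 / 200) - 0 * v.im) * (y.re - (-(1 / 4)))) :
    SS y v + b < Real.pi * |y.im| := by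
  have h := bb_sound tab_ok kR0_m0 (y := y) (v := v) ⟨by norm_num; linarith only [a1], by norm_num; linarith only [a2]⟩
    ⟨by rw [a3]; norm_num, by rw [a3]; norm_num⟩
    ⟨by norm_num; linarith only [a4], by norm_num; linarith only [a5]⟩
    ⟨by rw [a6]; norm_num, by rw [a6]; norm_num⟩
  have hp := Real.pi_gt_d6
  have ha : |y.im| = 3 / 20 := by rw [a3]; norm_num [abs_neg, abs_of_pos]
  rw [ha]
  unfold SS
  push_cast at h
  rw [a3, a6] at h
  rw [a6] at hb
  linarith only [a1, hb, hp, h]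

theorem kR0_m1 :
    bb (tst 2 693987 0 255852 0 0 0 0 0 0 0 0) 60
      104960 110080 98560 98560 108800 115200 102400 102400 = true := by
  decide +kernel

theorem rR0_m1 {y v : ℂ} {b : ℝ} (a1 : 1 / 10 ≤ y.re) (a2 : y.re ≤ 3 / 10) (a3 : y.im = -(3 / 20)) (a4 : 1 / 4 ≤ v.re) (a5 : v.re ≤ 1 / 2) (a6 : v.im = 0)
    (hb : b * (3 / 10 - 1 / 10) ≤ (-(43 / 200) - 0 * v.im) * (3 / 10 - y.re) +
      (-(1319 / 5000) - 0 * v.im) * (y.re - 1 / 10)) :
    SS y v + b < Real.pi * |y.im| := by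
  have h := bb_sound tab_ok kR0_m1 (y := y) (v := v) ⟨by norm_num; linarith only [a1], by norm_num; linarith only [a2]⟩
    ⟨by rw [a3]; norm_num, by rw [a3]; norm_num⟩
    ⟨by norm_num; linarith only [a4], by norm_num; linarith only [a5]⟩
    ⟨by rw [a6]; norm_num, by rw [a6]; norm_num⟩
  have hp := Real.pi_gt_d6
  have ha : |y.im| = 3 / 20 := by rw [a3]; norm_num [abs_neg, abs_of_pos]
  rw [ha]
  unfold SS
  push_cast at h
  rw [a3, a6] at h
  rw [a6] at hb
  linarith only [a1, hb, hp, h]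

theorem kR0_m2 :
    bb (tst 2 907268 0 0 455082 0 0 0 0 0 0 0) 60
      110080 115200 98560 98560 108800 115200 102400 102400 = true := by
  decide +kernel

theorem rR0_m2 {y v : ℂ} {b : ℝ} (a1 : 3 / 10 ≤ y.re) (a2 : y.re ≤ 1 / 2) (a3 : y.im = -(3 / 20)) (a4 : 1 / 4 ≤ v.re) (a5 : v.re ≤ 1 / 2) (a6 : v.im = 0)
    (hb : b * (1 / 2 - 3 / 10) ≤ (-(1319 / 5000) - 0 * v.im) * (1 / 2 - y.re) +
      (-(177 / 1000) - 0 * v.im) * (y.re - 3 / 10)) :
    SS y v + b < Real.pi * |y.im| := by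
  have h := bb_sound tab_ok kR0_m2 (y := y) (v := v) ⟨by norm_num; linarith only [a1], by norm_num; linarith only [a2]⟩
    ⟨by rw [a3]; norm_num, by rw [a3]; norm_num⟩
    ⟨by norm_num; linarith only [a4], by norm_num; linarith only [a5]⟩
    ⟨by rw [a6]; norm_num, by rw [a6]; norm_num⟩
  have hp := Real.pi_gt_d6
  have ha : |y.im| = 3 / 20 := by rw [a3]; norm_num [abs_neg, abs_of_pos]
  rw [ha]
  unfold SS
  push_cast at h
  rw [a3, a6] at h
  rw [a6] at hb
  linarith only [a1, hb, hp, h]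

theorem kR0_mP :
    bb (tst 2 113246 0 0 0 0 3294195 0 0 0 0 0) 60
      96000 96000 98560 102400 108800 115200 102400 102400 = true := by
  decide +kernel

theorem rR0_mP {y v : ℂ} {b : ℝ} (a1 : y.re = -(1 / 4)) (a2 : -(3 / 20) ≤ y.im) (a3 : y.im ≤ 0) (a4 : 1 / 4 ≤ v.re) (a5 : v.re ≤ 1 / 2) (a6 : v.im = 0)
    (hb : b ≤ -(27 / 250) - 0 * v.im) :
    SS y v + b < Real.pi * |y.im| := by
  have h := bb_sound tab_ok kR0_mP (y := y) (v := v) ⟨by rw [a1]; norm_num, by rw [a1]; norm_num⟩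
    ⟨by norm_num; linarith only [a2], by norm_num; linarith only [a3]⟩
    ⟨by norm_num; linarith only [a4], by norm_num; linarith only [a5]⟩
    ⟨by rw [a6]; norm_num, by rw [a6]; norm_num⟩
  have hp := Real.pi_gt_d6
  have ha : Real.pi * |y.im| ≥ 3.14159 * -y.im := by
    rw [abs_of_nonpos a3]
    linarith only [mul_nonneg (sub_nonneg.2 a3) (sub_nonneg.2 hp.le), a3]
  unfold SS
  push_cast at h
  rw [a1, a6] at h
  rw [a6] at hb
  linarith only [a3, hb, ha, h]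

theorem kR0_mQ :
    bb (tst 2 185597 0 0 0 0 3294195 0 0 0 0 0) 60
      115200 115200 98560 102400 108800 115200 102400 102400 = true := by
  decide +kernel

theorem rR0_mQ {y v : ℂ} {b : ℝ} (a1 : y.re = 1 / 2) (a2 : -(3 / 20) ≤ y.im) (a3 : y.im ≤ 0) (a4 : 1 / 4 ≤ v.re) (a5 : v.re ≤ 1 / 2) (a6 : v.im = 0)
    (hb : b ≤ -(177 / 1000) - 0 * v.im) :
    SS y v + b < Real.pi * |y.im| := by
  have h := bb_sound tab_ok kR0_mQ (y := y) (v := v) ⟨by rw [a1]; norm_num, by rw [a1]; norm_num⟩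
    ⟨by norm_num; linarith only [a2], by norm_num; linarith only [a3]⟩
    ⟨by norm_num; linarith only [a4], by norm_num; linarith only [a5]⟩
    ⟨by rw [a6]; norm_num, by rw [a6]; norm_num⟩
  have hp := Real.pi_gt_d6
  have ha : Real.pi * |y.im| ≥ 3.14159 * -y.im := by
    rw [abs_of_nonpos a3]
    linarith only [mul_nonneg (sub_nonneg.2 a3) (sub_nonneg.2 hp.le), a3]
  unfold SS
  push_cast at h
  rw [a1, a6] at h
  rw [a6] at hb
  linarith only [a3, hb, ha, h]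

end VP

end Pool.Agent.S5
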