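import Pool.Agent.S5.I.VPb

/-!
# The payments of the open nodes: general functional

`SW w` is the function of a slot of weight `w`. The functional `GF w f g ys vs X u` of the critical point
is affine in each of `f`, `g`, `X`, `u`: `f = 1` for `y` on the rectangle (frozen plane) and `f = 0` for
`y` on the flat; `g = 1` for `v` on its flat and `g = 0` for real `v`.
-/

set_option autoImplicit false

namespace Pool.Agent.S5

open Pool.Agent.H63.VC3 Pool.Agent.S3 Complex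
open scoped ComplexConjugate

/-- The function of a slot of weight `w`. -/
noncomputable def SW (w : ℝ) (y v : ℂ) : ℝ := w * -Rf (1 / 2 - y) - Rf (y - v) - Rf (y + v)

/-- The functional of the critical point. -/
noncomputable def GF (w f g : ℝ) (ys vs : ℂ) (X u : ℝ) : ℝ :=
  -SW w ys vs - (ly w ys vs).re * (X - ys.re) - f * ((ly w ys vs).im * ys.im) +
    g * (Lamv ys vs * (u - vs.re)) - (1 - g) * ((lv ys vs).im * vs.im)

/-- The functional at a point `v`. -/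
noncomputable def GG (w f : ℝ) (ys vs : ℂ) (X : ℝ) (v : ℂ) : ℝ :=
  v.im / vs.im * GF w f 1 ys vs X v.re + (1 - v.im / vs.im) * GF w f 0 ys vs X 0

theorem sl_SW (w : ℝ) (y v : ℂ) : sl w y v = SW w y v := by
  unfold sl SW
  rw [Rf_half_add]

theorem SS_SW (y v : ℂ) : SS y v = SW 2 y v := by
  unfold SS SW
  ring

/-- The slot function with share `w`. -/
theorem Ew_eq {w : ℝ} {ys vs y v : ℂ} (hn : vs.im ≠ 0) :
    Es ys vs y v - (2 - w) * Td (1 / 2 - ys) (1 / 2 - y) = SW w y v - SW w ys vs -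
      (ly w ys vs).re * (y.re - ys.re) + (ly w ys vs).im * (y.im - ys.im) +
        (lv ys vs).im * (v.im - vs.im) + Lamv ys vs * (v.re - vs.re) * v.im / vs.im := by
  have hpi := Real.pi_ne_zero
  have h := sl_eq w ys vs y v
  rw [sl_SW, sl_SW] at h
  have d1 : (ly w ys vs * (y - ys)).re =
      (ly w ys vs).re * (y.re - ys.re) - (ly w ys vs).im * (y.im - ys.im) := by
    rw [mul_re, sub_re, sub_im]
  have d2 : (lv ys vs * (v - vs)).re =
      -Lamv ys vs * (v.re - vs.re) - (lv ys vs).im * (v.im - vs.im) := by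
    rw [mul_re, lv_re, sub_re, sub_im]
  have b1 : 2 * Real.pi * bn ys vs * ((v.re - vs.re) * (v.im - vs.im)) =
      Lamv ys vs * (v.re - vs.re) * v.im / vs.im - Lamv ys vs * (v.re - vs.re) := by
    unfold bn Lamv
    simp only [add_im, add_re, sub_im, sub_re]
    field_simp
  unfold Es Ev
  rw [b1]
  rw [d1, d2] at h
  linarith

/-- `y` on a leg (`σ` is the relative height) or on the flat (`σ = 1`). -/
theorem Ew_leg {w σ : ℝ} {ys vs y v : ℂ} (hn : vs.im ≠ 0) (hs : y.im = σ * ys.im) :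
    Es ys vs y v - (2 - w) * Td (1 / 2 - ys) (1 / 2 - y) =
      SW w y v + GG w (1 - σ) ys vs y.re v := by
  rw [Ew_eq hn, hs]
  obtain ⟨r, hr⟩ : ∃ r, r = v.im / vs.im := ⟨_, rfl⟩
  have h1 : v.im = r * vs.im := by
    rw [hr, div_mul_cancel₀ _ hn]
  have e1 : Lamv ys vs * (v.re - vs.re) * v.im / vs.im = Lamv ys vs * (v.re - vs.re) * r := by
    rw [hr]
    ring
  unfold GG GF
  rw [e1, ← hr, h1]
  ring

theorem ly_im_two (w : ℝ) (ys vs : ℂ) :
    (ly w ys vs).im - (ly 2 ys vs).im = -((2 - w) * (hh (1 / 2 - ys)).im) := by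
  unfold ly
  simp only [sub_im, mul_im, ofReal_im, ofReal_re]
  ring

/-- `y` on the rectangle. -/
theorem Ew_froz {w : ℝ} {ys vs y v : ℂ} (hn : vs.im ≠ 0) :
    Es ys vs y v + (ly 2 ys vs * (y - (y.re : ℂ))).re - (2 - w) * Td (1 / 2 - ys) (1 / 2 - y) =
      SW w y v + GG w 1 ys vs y.re v - (2 - w) * (hh (1 / 2 - ys)).im * y.im := by
  have h := Ew_eq (w := w) (ys := ys) (vs := vs) (y := y) (v := v) hn
  have h2 := ly_im_two w ys vs
  rw [ly_frozen]
  obtain ⟨r, hr⟩ : ∃ r, r = v.im / vs.im := ⟨_, rfl⟩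
  have h1 : v.im = r * vs.im := by
    rw [hr, div_mul_cancel₀ _ hn]
  have e1 : Lamv ys vs * (v.re - vs.re) * v.im / vs.im = Lamv ys vs * (v.re - vs.re) * r := by
    rw [hr]
    ring
  have e2 : (ly 2 ys vs).im = (ly w ys vs).im + (2 - w) * (hh (1 / 2 - ys)).im := by linarith
  rw [e1] at h
  unfold GG GF
  rw [← hr, e2]
  rw [h1] at h
  linear_combination h

/-! ### Interpolation -/

theorem GF_X {w f g : ℝ} {ys vs : ℂ} {X0 X1 X u A d r : ℝ}
    (h0 : GF w f g ys vs X0 u ≤ A + d * X0 + r) (h1 : GF w f g ys vs X1 u ≤ A + d * X1 + r)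
    (hX0 : X0 ≤ X) (hX1 : X ≤ X1) : GF w f g ys vs X u ≤ A + d * X + r := by
  have e : ∀ Z, GF w f g ys vs Z u = GF w f g ys vs 0 u - (ly w ys vs).re * Z := by
    intro Z
    unfold GF
    ring
  rw [e] at h0 h1 ⊢
  rcases le_total 0 (d + (ly w ys vs).re) with h | h
  · have := mul_le_mul_of_nonneg_left hX0 h
    linarith
  · have := mul_le_mul_of_nonpos_left hX1 h
    linarith

theorem GF_u {w f : ℝ} {ys vs : ℂ} {u0 u1 X u A d r : ℝ}
    (h0 : GF w f 1 ys vs X u0 ≤ A + d * u0 + r) (h1 : GF w f 1 ys vs X u1 ≤ A + d * u1 + r)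
    (hu0 : u0 ≤ u) (hu1 : u ≤ u1) : GF w f 1 ys vs X u ≤ A + d * u + r := by
  have e : ∀ Z, GF w f 1 ys vs X Z = GF w f 1 ys vs X 0 + Lamv ys vs * Z := by
    intro Z
    unfold GF
    ring
  rw [e] at h0 h1 ⊢
  rcases le_total 0 (d - Lamv ys vs) with h | h
  · have := mul_le_mul_of_nonneg_left hu0 h
    linarith
  · have := mul_le_mul_of_nonpos_left hu1 h
    linarith

/-- Interpolation in both variables. -/
theorem GF_Xu {w f : ℝ} {ys vs : ℂ} {X0 X1 u0 u1 X u A d e r : ℝ}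
    (h00 : GF w f 1 ys vs X0 u0 ≤ A + d * X0 + e * u0 + r)
    (h01 : GF w f 1 ys vs X0 u1 ≤ A + d * X0 + e * u1 + r)
    (h10 : GF w f 1 ys vs X1 u0 ≤ A + d * X1 + e * u0 + r)
    (h11 : GF w f 1 ys vs X1 u1 ≤ A + d * X1 + e * u1 + r)
    (hX0 : X0 ≤ X) (hX1 : X ≤ X1) (hu0 : u0 ≤ u) (hu1 : u ≤ u1) :
    GF w f 1 ys vs X u ≤ A + d * X + e * u + r := by
  have k0 := GF_X (A := A) (d := d) (r := e * u0 + r) (by linarith) (by linarith) hX0 hX1
    (w := w) (f := f) (g := 1) (ys := ys) (vs := vs) (u := u0)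
  have k1 := GF_X (A := A) (d := d) (r := e * u1 + r) (by linarith) (by linarith) hX0 hX1
    (w := w) (f := f) (g := 1) (ys := ys) (vs := vs) (u := u1)
  have := GF_u (A := A + d * X) (d := e) (r := r) (w := w) (f := f) (ys := ys) (vs := vs) (X := X)
    (by linarith) (by linarith) hu0 hu1
  linarith

theorem GF_f {w f g : ℝ} {ys vs : ℂ} {X u P : ℝ} (h0 : 0 ≤ f) (h1 : f ≤ 1)
    (k1 : GF w 1 g ys vs X u ≤ P) (k0 : GF w 0 g ys vs X u ≤ P) : GF w f g ys vs X u ≤ P := by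
  have e : GF w f g ys vs X u = f * GF w 1 g ys vs X u + (1 - f) * GF w 0 g ys vs X u := by
    unfold GF
    ring
  rw [e]
  have a1 := mul_le_mul_of_nonneg_left k1 h0
  have a2 := mul_le_mul_of_nonneg_left k0 (show 0 ≤ 1 - f by linarith)
  linarith

/-- The slope in the relative height. -/
theorem GF_f' {w f g : ℝ} {ys vs : ℂ} {X u P Q : ℝ} (h0 : 0 ≤ f) (h1 : f ≤ 1)
    (k1 : GF w 1 g ys vs X u ≤ P) (k0 : GF w 0 g ys vs X u ≤ Q) :
    GF w f g ys vs X u ≤ P - (1 - f) * (P - Q) := by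
  have e : GF w f g ys vs X u = f * GF w 1 g ys vs X u + (1 - f) * GF w 0 g ys vs X u := by
    unfold GF
    ring
  rw [e]
  have a1 := mul_le_mul_of_nonneg_left k1 h0
  have a2 := mul_le_mul_of_nonneg_left k0 (show 0 ≤ 1 - f by linarith)
  linarith

/-- The functional for real `v` does not depend on `u`. -/
theorem GF_real {w f : ℝ} {ys vs : ℂ} {X : ℝ} (u : ℝ) :
    GF w f 0 ys vs X u = GF w f 0 ys vs X 0 := by
  unfold GF
  ring

/-! ### The positions of `v` -/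

/-- To the left of a point. -/
theorem GF_left {w f : ℝ} {ys vs : ℂ} (h : VU ys vs) {X u u1 P : ℝ}
    (h1 : GF w f 1 ys vs X u1 ≤ P) (hu : u ≤ u1) :
    GF w f 1 ys vs X u ≤ P - 8 * vs.im * (u1 - u) := by
  have e : GF w f 1 ys vs X u = GF w f 1 ys vs X u1 - Lamv ys vs * (u1 - u) := by
    unfold GF
    ring
  have := mul_le_mul_of_nonneg_right h.b (show 0 ≤ u1 - u by linarith)
  rw [e]
  linarith

theorem GG_flat {w f : ℝ} {ys vs : ℂ} (h : VU ys vs) {X : ℝ} {v : ℂ} (hv : v.im = vs.im) :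
    GG w f ys vs X v = GF w f 1 ys vs X v.re := by
  unfold GG
  rw [hv, div_self h.n0.ne']
  ring

theorem GG_real {w f : ℝ} {ys vs : ℂ} {X : ℝ} {v : ℂ} (hv : v.im = 0) :
    GG w f ys vs X v = GF w f 0 ys vs X 0 := by
  unfold GG
  rw [hv, zero_div]
  ring

theorem GG_vert {w f : ℝ} {ys vs : ℂ} (h : VU ys vs) {X P q : ℝ} {v : ℂ} (h0 : 0 ≤ v.im)
    (h1 : v.im ≤ vs.im) (hg : GF w f 1 ys vs X v.re ≤ P + q * vs.im)
    (hr : GF w f 0 ys vs X 0 ≤ P) : GG w f ys vs X v ≤ P + q * v.im := by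
  have hn := h.n0
  obtain ⟨r, hr'⟩ : ∃ r, r = v.im / vs.im := ⟨_, rfl⟩
  have hr0 : 0 ≤ r := by
    rw [hr']
    positivity
  have hr1 : r ≤ 1 := by
    rw [hr', div_le_one hn]
    exact h1
  have hrv : v.im = r * vs.im := by
    rw [hr', div_mul_cancel₀ _ hn.ne']
  unfold GG
  rw [← hr']
  have a1 := mul_le_mul_of_nonneg_left hg hr0
  have a2 := mul_le_mul_of_nonneg_left hr (show 0 ≤ 1 - r by linarith)
  rw [hrv]
  linarith

/-- The positions of `v`, listed. -/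
theorem Vq.cases {vs v : ℂ} (h : Vq vs v) :
    (v.im = vs.im ∧ -(7 / 25) ≤ v.re ∧ v.re ≤ 7 / 25) ∨
      (v.re = 7 / 25 ∧ 0 ≤ v.im ∧ v.im ≤ vs.im) ∨ (v.re = -(7 / 25) ∧ 0 ≤ v.im ∧ v.im ≤ vs.im) ∨
        (v.im = 0 ∧ 1 / 4 ≤ v.re ∧ v.re ≤ 1 / 2) ∨ (v.im = 0 ∧ -(1 / 2) ≤ v.re ∧ v.re ≤ -(1 / 4)) := by
  rcases h with ⟨h1, h2⟩ | ⟨h1, h2, h3⟩ | ⟨h1, h2, h3⟩
  · obtain ⟨a, b⟩ := abs_le.1 h2
    exact Or.inl ⟨h1, a, b⟩
  · rcases abs_cases v.re with ⟨e, -⟩ | ⟨e, -⟩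
    · exact Or.inr (Or.inl ⟨by linarith, h2, h3⟩)
    · exact Or.inr (Or.inr (Or.inl ⟨by linarith, h2, h3⟩))
  · rcases abs_cases v.re with ⟨e, -⟩ | ⟨e, -⟩
    · exact Or.inr (Or.inr (Or.inr (Or.inl ⟨h1, by linarith, by linarith⟩)))
    · exact Or.inr (Or.inr (Or.inr (Or.inr ⟨h1, by linarith, by linarith⟩)))

/-- A parameter-free inequality. -/
def Row (w X0 X1 s0 s1 u0 u1 h1 A dX dU b c q cs : ℝ) : Prop :=
  ∀ y v : ℂ, X0 ≤ y.re → y.re ≤ X1 → s0 ≤ y.im → y.im ≤ s1 → u0 ≤ v.re → v.re ≤ u1 → 0 ≤ v.im →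
    v.im ≤ h1 → SW w y v + (A + dX * y.re + dU * v.re + b * y.im + c * v.im + q * (v.im * v.re)) <
      cs * |y.im|

end Pool.Agent.S5
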