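import Pool.Agent.S5.I.VQa

/-!
# The payments of the open nodes: one piece of the edge variable
-/

set_option autoImplicit false

namespace Pool.Agent.S5

open Pool.Agent.H63.VC3 Pool.Agent.S3 Complex

/-- A piece, with one bound on the flat of `v` (at `u = 7/25`). -/
theorem cellF {w f X0 X1 s0 s1 nu P d Pr dr cs pay e : ℝ} {ys vs y v : ℂ} (hU : VU ys vs)
    (rF : Row w X0 X1 s0 s1 (-(7 / 25)) (7 / 25) nu P d 0 0 (-(56 / 25)) 8 cs)
    (rV : Row w X0 X1 s0 s1 (7 / 25) (7 / 25) nu P d 0 0 0 0 cs)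
    (rW : Row w X0 X1 s0 s1 (-(7 / 25)) (-(7 / 25)) nu P d 0 0 (-(112 / 25)) 0 cs)
    (rR : Row w X0 X1 s0 s1 (1 / 4) (1 / 2) 0 Pr dr 0 0 0 0 cs)
    (rS : Row w X0 X1 s0 s1 (-(1 / 2)) (-(1 / 4)) 0 Pr dr 0 0 0 0 cs)
    (hnu : vs.im ≤ nu) (x0 : X0 ≤ y.re) (x1 : y.re ≤ X1) (t0 : s0 ≤ y.im) (t1 : y.im ≤ s1)
    (h28 : GF w f 1 ys vs y.re (7 / 25) ≤ P - pay + d * y.re + e)
    (hr : GF w f 0 ys vs y.re 0 ≤ Pr - pay + dr * y.re + e)
    (hle : Pr + dr * y.re ≤ P + d * y.re) (hv : Vq vs v) :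
    SW w y v + GG w f ys vs y.re v + pay < cs * |y.im| + e := by
  have hn := hU.n0
  rcases hv.cases with ⟨v1, v2, v3⟩ | ⟨v1, v2, v3⟩ | ⟨v1, v2, v3⟩ | ⟨v1, v2, v3⟩ | ⟨v1, v2, v3⟩
  · rw [GG_flat hU v1]
    have k := GF_left hU h28 v3
    have r := rF y v x0 x1 t0 t1 v2 v3 (by linarith) (by linarith)
    rw [← v1] at k
    linarith
  · have k := GG_vert (w := w) (f := f) hU (X := y.re) (P := P - pay + d * y.re + e) (q := 0) v2 v3
      (by rw [v1]; linarith) (by linarith)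
    have r := rV y v x0 x1 t0 t1 v1.ge v1.le v2 (by linarith)
    linarith
  · have k0 := GF_left hU h28 (show v.re ≤ 7 / 25 by rw [v1]; norm_num)
    have k := GG_vert (w := w) (f := f) hU (X := y.re) (P := P - pay + d * y.re + e)
      (q := -(112 / 25)) v2 v3 (by rw [v1] at k0 ⊢; linarith) (by linarith)
    have r := rW y v x0 x1 t0 t1 v1.ge v1.le v2 (by linarith)
    linarith
  · rw [GG_real v1]
    have r := rR y v x0 x1 t0 t1 v2 v3 v1.ge v1.le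
    rw [v1] at r
    linarith
  · rw [GG_real v1]
    have r := rS y v x0 x1 t0 t1 v2 v3 v1.ge v1.le
    rw [v1] at r
    linarith

/-- A piece, with bounds at `u = 0` and on `[0, 7/25]`. -/
theorem cellN {w f X0 X1 s0 s1 nu P0 d0 P d Pr dr PW dW cW b c cs pay : ℝ} {ys vs y v : ℂ}
    (hU : VU ys vs)
    (rN : Row w X0 X1 s0 s1 (-(7 / 25)) 0 nu P0 d0 0 b c 8 cs)
    (rV : Row w X0 X1 s0 s1 (7 / 25) (7 / 25) nu P d 0 b c 0 cs)
    (rW : Row w X0 X1 s0 s1 (-(7 / 25)) (-(7 / 25)) nu PW dW 0 0 cW 0 cs)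
    (rR : Row w X0 X1 s0 s1 (1 / 4) (1 / 2) 0 Pr dr 0 0 0 0 cs)
    (rS : Row w X0 X1 s0 s1 (-(1 / 2)) (-(1 / 4)) 0 Pr dr 0 0 0 0 cs)
    (hnu : vs.im ≤ nu) (x0 : X0 ≤ y.re) (x1 : y.re ≤ X1) (t0 : s0 ≤ y.im) (t1 : y.im ≤ s1)
    (h0 : GF w f 1 ys vs y.re 0 ≤ P0 - pay + d0 * y.re + (b * y.im + c * vs.im))
    (h28 : GF w f 1 ys vs y.re (7 / 25) ≤ P - pay + d * y.re + (b * y.im + c * vs.im))
    (hA : v.im = vs.im → 0 ≤ v.re → v.re ≤ 7 / 25 →
      SW w y v + GF w f 1 ys vs y.re v.re + pay < cs * |y.im|)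
    (hr : GF w f 0 ys vs y.re 0 ≤ Pr - pay + dr * y.re)
    (hle : Pr + dr * y.re ≤ P + d * y.re + b * y.im) (hle' : Pr + dr * y.re ≤ PW + dW * y.re)
    (hle0 : P0 + d0 * y.re + b * y.im ≤ PW + dW * y.re) (hc : c - 56 / 25 ≤ cW)
    (hv : Vq vs v) :
    SW w y v + GG w f ys vs y.re v + pay < cs * |y.im| := by
  have hn := hU.n0
  rcases hv.cases with ⟨v1, v2, v3⟩ | ⟨v1, v2, v3⟩ | ⟨v1, v2, v3⟩ | ⟨v1, v2, v3⟩ | ⟨v1, v2, v3⟩
  · rw [GG_flat hU v1]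
    rcases le_total v.re 0 with h | h
    · have k := GF_left hU h0 h
      have r := rN y v x0 x1 t0 t1 v2 h (by linarith) (by linarith)
      rw [← v1] at k
      linarith
    · exact hA v1 h v3
  · have k := GG_vert (w := w) (f := f) hU (X := y.re) (P := P - pay + d * y.re + b * y.im)
      (q := c) v2 v3 (by rw [v1]; linarith) (by linarith)
    have r := rV y v x0 x1 t0 t1 v1.ge v1.le v2 (by linarith)
    linarith
  · have k0 := GF_left hU h0 (show v.re ≤ 0 by rw [v1]; norm_num)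
    have k2 := mul_le_mul_of_nonneg_right hc hn.le
    have k := GG_vert (w := w) (f := f) hU (X := y.re) (P := PW - pay + dW * y.re)
      (q := cW) v2 v3 (by rw [v1] at k0 ⊢; linarith) (by linarith)
    have r := rW y v x0 x1 t0 t1 v1.ge v1.le v2 (by linarith)
    linarith
  · rw [GG_real v1]
    have r := rR y v x0 x1 t0 t1 v2 v3 v1.ge v1.le
    rw [v1] at r
    linarith
  · rw [GG_real v1]
    have r := rS y v x0 x1 t0 t1 v2 v3 v1.ge v1.le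
    rw [v1] at r
    linarith

/-- The part `[u0, u1]` of the flat of `v`. -/
theorem cellA {w f X0 X1 s0 s1 u0 u1 nu PA dX dU b c cs pay : ℝ} {ys vs y v : ℂ}
    (hU : VU ys vs) (rA : Row w X0 X1 s0 s1 u0 u1 nu PA dX dU b c 0 cs)
    (hnu : vs.im ≤ nu) (x0 : X0 ≤ y.re) (x1 : y.re ≤ X1) (t0 : s0 ≤ y.im) (t1 : y.im ≤ s1)
    (g0 : GF w f 1 ys vs y.re u0 ≤ PA - pay + dX * y.re + dU * u0 + (b * y.im + c * vs.im))
    (g1 : GF w f 1 ys vs y.re u1 ≤ PA - pay + dX * y.re + dU * u1 + (b * y.im + c * vs.im))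
    (hv : v.im = vs.im) (v0 : u0 ≤ v.re) (v1 : v.re ≤ u1) :
    SW w y v + GF w f 1 ys vs y.re v.re + pay < cs * |y.im| := by
  have hn := hU.n0
  have k := GF_u (A := PA - pay + dX * y.re) (d := dU) (r := b * y.im + c * vs.im) g0 g1 v0 v1
  have r := rA y v x0 x1 t0 t1 v0 v1 (by linarith) (by linarith)
  rw [hv] at r
  linarith

end Pool.Agent.S5
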