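import Pool.Agent.S5.I.VQa
import Pool.Agent.S5.I.TsK

/-!
# The payments of the open nodes: parameter-free inequalities
-/

set_option autoImplicit false

namespace Pool.Agent.S5

open Pool.Agent.H63.VC3 Pool.Agent.S3 Complex Tb

namespace VQ

theorem k_c2uF : bb (tst 2 214637 0 0 491783 3294195 0 0 0 2348810 0 8388608) 60
    96000 102400 106240 106240 95232 109568 102400 103936 = true := by
  decide +kernel

theorem r_c2uF : Row 2 (-(1 / 4)) 0 (3 / 20) (3 / 20) (-(7 / 25)) (7 / 25) (3 / 50) (-(2047 / 10000)) (469 / 1000) 0 0 (-(56 / 25)) 8 (314159 / 100000) := by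
  intro y v a1 a2 a3 a4 a5 a6 a7 a8
  have h := bb_sound tab_ok k_c2uF (y := y) (v := v)
    ⟨by norm_num; linarith only [a1], by norm_num; linarith only [a2]⟩ ⟨by norm_num; linarith only [a3], by norm_num; linarith only [a4]⟩
    ⟨by norm_num; linarith only [a5], by norm_num; linarith only [a6]⟩ ⟨by norm_num; linarith only [a7], by norm_num; linarith only [a8]⟩
  rw [abs_of_nonneg (by linarith only [a3])]
  unfold SW
  push_cast at h
  linarith only [h, a7, a3, a1]

theorem k_c2uV : bb (tst 2 214637 0 0 491783 3294195 0 0 0 0 0 0) 60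
    96000 102400 106240 106240 109568 109568 102400 103936 = true := by
  decide +kernel

theorem r_c2uV : Row 2 (-(1 / 4)) 0 (3 / 20) (3 / 20) (7 / 25) (7 / 25) (3 / 50) (-(2047 / 10000)) (469 / 1000) 0 0 0 0 (314159 / 100000) := by
  intro y v a1 a2 a3 a4 a5 a6 a7 a8
  have h := bb_sound tab_ok k_c2uV (y := y) (v := v)
    ⟨by norm_num; linarith only [a1], by norm_num; linarith only [a2]⟩ ⟨by norm_num; linarith only [a3], by norm_num; linarith only [a4]⟩
    ⟨by norm_num; linarith only [a5], by norm_num; linarith only [a6]⟩ ⟨by norm_num; linarith only [a7], by norm_num; linarith only [a8]⟩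
  rw [abs_of_nonneg (by linarith only [a3])]
  unfold SW
  push_cast at h
  linarith only [h, a3, a1]

theorem k_c2uW : bb (tst 2 214637 0 0 491783 3294195 0 0 0 4697620 0 0) 60
    96000 102400 106240 106240 95232 95232 102400 103936 = true := by
  decide +kernel

theorem r_c2uW : Row 2 (-(1 / 4)) 0 (3 / 20) (3 / 20) (-(7 / 25)) (-(7 / 25)) (3 / 50) (-(2047 / 10000)) (469 / 1000) 0 0 (-(112 / 25)) 0 (314159 / 100000) := by
  intro y v a1 a2 a3 a4 a5 a6 a7 a8
  have h := bb_sound tab_ok k_c2uW (y := y) (v := v)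
    ⟨by norm_num; linarith only [a1], by norm_num; linarith only [a2]⟩ ⟨by norm_num; linarith only [a3], by norm_num; linarith only [a4]⟩
    ⟨by norm_num; linarith only [a5], by norm_num; linarith only [a6]⟩ ⟨by norm_num; linarith only [a7], by norm_num; linarith only [a8]⟩
  rw [abs_of_nonneg (by linarith only [a3])]
  unfold SW
  push_cast at h
  linarith only [h, a7, a3, a1]

theorem k_c2uR : bb (tst 2 249345 0 0 499123 3294195 0 0 0 0 0 0) 60
    96000 102400 106240 106240 108800 115200 102400 102400 = true := by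
  decide +kernel

theorem r_c2uR : Row 2 (-(1 / 4)) 0 (3 / 20) (3 / 20) (1 / 4) (1 / 2) 0 (-(1189 / 5000)) (119 / 250) 0 0 0 0 (314159 / 100000) := by
  intro y v a1 a2 a3 a4 a5 a6 a7 a8
  have h := bb_sound tab_ok k_c2uR (y := y) (v := v)
    ⟨by norm_num; linarith only [a1], by norm_num; linarith only [a2]⟩ ⟨by norm_num; linarith only [a3], by norm_num; linarith only [a4]⟩
    ⟨by norm_num; linarith only [a5], by norm_num; linarith only [a6]⟩ ⟨by norm_num; linarith only [a7], by norm_num; linarith only [a8]⟩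
  rw [abs_of_nonneg (by linarith only [a3])]
  unfold SW
  push_cast at h
  linarith only [h, a3, a1]

theorem k_c2uS : bb (tst 2 249345 0 0 499123 3294195 0 0 0 0 0 0) 60
    96000 102400 106240 106240 89600 96000 102400 102400 = true := by
  decide +kernel

theorem r_c2uS : Row 2 (-(1 / 4)) 0 (3 / 20) (3 / 20) (-(1 / 2)) (-(1 / 4)) 0 (-(1189 / 5000)) (119 / 250) 0 0 0 0 (314159 / 100000) := by
  intro y v a1 a2 a3 a4 a5 a6 a7 a8
  have h := bb_sound tab_ok k_c2uS (y := y) (v := v)
    ⟨by norm_num; linarith only [a1], by norm_num; linarith only [a2]⟩ ⟨by norm_num; linarith only [a3], by norm_num; linarith only [a4]⟩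
    ⟨by norm_num; linarith only [a5], by norm_num; linarith only [a6]⟩ ⟨by norm_num; linarith only [a7], by norm_num; linarith only [a8]⟩
  rw [abs_of_nonneg (by linarith only [a3])]
  unfold SW
  push_cast at h
  linarith only [h, a3, a1]

theorem k_c2PF : bb (tst 2 337635 0 0 0 0 3294196 0 0 2348810 0 8388608) 60
    96000 96000 98560 102400 95232 109568 102400 103936 = true := by
  decide +kernel

theorem r_c2PF : Row 2 (-(1 / 4)) (-(1 / 4)) (-(3 / 20)) 0 (-(7 / 25)) (7 / 25) (3 / 50) (-(161 / 500)) 0 0 0 (-(56 / 25)) 8 (314159 / 100000) := by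
  intro y v a1 a2 a3 a4 a5 a6 a7 a8
  have h := bb_sound tab_ok k_c2PF (y := y) (v := v)
    ⟨by norm_num; linarith only [a1], by norm_num; linarith only [a2]⟩ ⟨by norm_num; linarith only [a3], by norm_num; linarith only [a4]⟩
    ⟨by norm_num; linarith only [a5], by norm_num; linarith only [a6]⟩ ⟨by norm_num; linarith only [a7], by norm_num; linarith only [a8]⟩
  rw [abs_of_nonpos (by linarith only [a4])]
  unfold SW
  push_cast at h
  linarith only [h, a7, a3]

theorem k_c2PV : bb (tst 2 337635 0 0 0 0 3294196 0 0 0 0 0) 60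
    96000 96000 98560 102400 109568 109568 102400 103936 = true := by
  decide +kernel

theorem r_c2PV : Row 2 (-(1 / 4)) (-(1 / 4)) (-(3 / 20)) 0 (7 / 25) (7 / 25) (3 / 50) (-(161 / 500)) 0 0 0 0 0 (314159 / 100000) := by
  intro y v a1 a2 a3 a4 a5 a6 a7 a8
  have h := bb_sound tab_ok k_c2PV (y := y) (v := v)
    ⟨by norm_num; linarith only [a1], by norm_num; linarith only [a2]⟩ ⟨by norm_num; linarith only [a3], by norm_num; linarith only [a4]⟩
    ⟨by norm_num; linarith only [a5], by norm_num; linarith only [a6]⟩ ⟨by norm_num; linarith only [a7], by norm_num; linarith only [a8]⟩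
  rw [abs_of_nonpos (by linarith only [a4])]
  unfold SW
  push_cast at h
  linarith only [h, a3]

theorem k_c2PW : bb (tst 2 337635 0 0 0 0 3294196 0 0 4697620 0 0) 60
    96000 96000 98560 102400 95232 95232 102400 103936 = true := by
  decide +kernel

theorem r_c2PW : Row 2 (-(1 / 4)) (-(1 / 4)) (-(3 / 20)) 0 (-(7 / 25)) (-(7 / 25)) (3 / 50) (-(161 / 500)) 0 0 0 (-(112 / 25)) 0 (314159 / 100000) := by
  intro y v a1 a2 a3 a4 a5 a6 a7 a8
  have h := bb_sound tab_ok k_c2PW (y := y) (v := v)
    ⟨by norm_num; linarith only [a1], by norm_num; linarith only [a2]⟩ ⟨by norm_num; linarith only [a3], by norm_num; linarith only [a4]⟩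
    ⟨by norm_num; linarith only [a5], by norm_num; linarith only [a6]⟩ ⟨by norm_num; linarith only [a7], by norm_num; linarith only [a8]⟩
  rw [abs_of_nonpos (by linarith only [a4])]
  unfold SW
  push_cast at h
  linarith only [h, a7, a3]

theorem k_c2PR : bb (tst 2 374335 0 0 0 0 3294196 0 0 0 0 0) 60
    96000 96000 98560 102400 108800 115200 102400 102400 = true := by
  decide +kernel

theorem r_c2PR : Row 2 (-(1 / 4)) (-(1 / 4)) (-(3 / 20)) 0 (1 / 4) (1 / 2) 0 (-(357 / 1000)) 0 0 0 0 0 (314159 / 100000) := by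
  intro y v a1 a2 a3 a4 a5 a6 a7 a8
  have h := bb_sound tab_ok k_c2PR (y := y) (v := v)
    ⟨by norm_num; linarith only [a1], by norm_num; linarith only [a2]⟩ ⟨by norm_num; linarith only [a3], by norm_num; linarith only [a4]⟩
    ⟨by norm_num; linarith only [a5], by norm_num; linarith only [a6]⟩ ⟨by norm_num; linarith only [a7], by norm_num; linarith only [a8]⟩
  rw [abs_of_nonpos (by linarith only [a4])]
  unfold SW
  push_cast at h
  linarith only [h, a3]

theorem k_c2PS : bb (tst 2 374335 0 0 0 0 3294196 0 0 0 0 0) 60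
    96000 96000 98560 102400 89600 96000 102400 102400 = true := by
  decide +kernel

theorem r_c2PS : Row 2 (-(1 / 4)) (-(1 / 4)) (-(3 / 20)) 0 (-(1 / 2)) (-(1 / 4)) 0 (-(357 / 1000)) 0 0 0 0 0 (314159 / 100000) := by
  intro y v a1 a2 a3 a4 a5 a6 a7 a8
  have h := bb_sound tab_ok k_c2PS (y := y) (v := v)
    ⟨by norm_num; linarith only [a1], by norm_num; linarith only [a2]⟩ ⟨by norm_num; linarith only [a3], by norm_num; linarith only [a4]⟩
    ⟨by norm_num; linarith only [a5], by norm_num; linarith only [a6]⟩ ⟨by norm_num; linarith only [a7], by norm_num; linarith only [a8]⟩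
  rw [abs_of_nonpos (by linarith only [a4])]
  unfold SW
  push_cast at h
  linarith only [h, a3]

theorem k_c2pF : bb (tst 2 337635 0 0 0 3294195 0 0 0 2348810 0 8388608) 60
    96000 96000 102400 106240 95232 109568 102400 103936 = true := by
  decide +kernel

theorem r_c2pF : Row 2 (-(1 / 4)) (-(1 / 4)) 0 (3 / 20) (-(7 / 25)) (7 / 25) (3 / 50) (-(161 / 500)) 0 0 0 (-(56 / 25)) 8 (314159 / 100000) := by
  intro y v a1 a2 a3 a4 a5 a6 a7 a8
  have h := bb_sound tab_ok k_c2pF (y := y) (v := v)
    ⟨by norm_num; linarith only [a1], by norm_num; linarith only [a2]⟩ ⟨by norm_num; linarith only [a3], by norm_num; linarith only [a4]⟩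
    ⟨by norm_num; linarith only [a5], by norm_num; linarith only [a6]⟩ ⟨by norm_num; linarith only [a7], by norm_num; linarith only [a8]⟩
  rw [abs_of_nonneg (by linarith only [a3])]
  unfold SW
  push_cast at h
  linarith only [h, a7, a3]

theorem k_c2pV : bb (tst 2 337635 0 0 0 3294195 0 0 0 0 0 0) 60
    96000 96000 102400 106240 109568 109568 102400 103936 = true := by
  decide +kernel

theorem r_c2pV : Row 2 (-(1 / 4)) (-(1 / 4)) 0 (3 / 20) (7 / 25) (7 / 25) (3 / 50) (-(161 / 500)) 0 0 0 0 0 (314159 / 100000) := by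
  intro y v a1 a2 a3 a4 a5 a6 a7 a8
  have h := bb_sound tab_ok k_c2pV (y := y) (v := v)
    ⟨by norm_num; linarith only [a1], by norm_num; linarith only [a2]⟩ ⟨by norm_num; linarith only [a3], by norm_num; linarith only [a4]⟩
    ⟨by norm_num; linarith only [a5], by norm_num; linarith only [a6]⟩ ⟨by norm_num; linarith only [a7], by norm_num; linarith only [a8]⟩
  rw [abs_of_nonneg (by linarith only [a3])]
  unfold SW
  push_cast at h
  linarith only [h, a3]

theorem k_c2pW : bb (tst 2 337635 0 0 0 3294195 0 0 0 4697620 0 0) 60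
    96000 96000 102400 106240 95232 95232 102400 103936 = true := by
  decide +kernel

theorem r_c2pW : Row 2 (-(1 / 4)) (-(1 / 4)) 0 (3 / 20) (-(7 / 25)) (-(7 / 25)) (3 / 50) (-(161 / 500)) 0 0 0 (-(112 / 25)) 0 (314159 / 100000) := by
  intro y v a1 a2 a3 a4 a5 a6 a7 a8
  have h := bb_sound tab_ok k_c2pW (y := y) (v := v)
    ⟨by norm_num; linarith only [a1], by norm_num; linarith only [a2]⟩ ⟨by norm_num; linarith only [a3], by norm_num; linarith only [a4]⟩
    ⟨by norm_num; linarith only [a5], by norm_num; linarith only [a6]⟩ ⟨by norm_num; linarith only [a7], by norm_num; linarith only [a8]⟩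
  rw [abs_of_nonneg (by linarith only [a3])]
  unfold SW
  push_cast at h
  linarith only [h, a7, a3]

theorem k_c2pR : bb (tst 2 374335 0 0 0 3294195 0 0 0 0 0 0) 60
    96000 96000 102400 106240 108800 115200 102400 102400 = true := by
  decide +kernel

theorem r_c2pR : Row 2 (-(1 / 4)) (-(1 / 4)) 0 (3 / 20) (1 / 4) (1 / 2) 0 (-(357 / 1000)) 0 0 0 0 0 (314159 / 100000) := by
  intro y v a1 a2 a3 a4 a5 a6 a7 a8
  have h := bb_sound tab_ok k_c2pR (y := y) (v := v)
    ⟨by norm_num; linarith only [a1], by norm_num; linarith only [a2]⟩ ⟨by norm_num; linarith only [a3], by norm_num; linarith only [a4]⟩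
    ⟨by norm_num; linarith only [a5], by norm_num; linarith only [a6]⟩ ⟨by norm_num; linarith only [a7], by norm_num; linarith only [a8]⟩
  rw [abs_of_nonneg (by linarith only [a3])]
  unfold SW
  push_cast at h
  linarith only [h, a3]

theorem k_c2pS : bb (tst 2 374335 0 0 0 3294195 0 0 0 0 0 0) 60
    96000 96000 102400 106240 89600 96000 102400 102400 = true := by
  decide +kernel

theorem r_c2pS : Row 2 (-(1 / 4)) (-(1 / 4)) 0 (3 / 20) (-(1 / 2)) (-(1 / 4)) 0 (-(357 / 1000)) 0 0 0 0 0 (314159 / 100000) := by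
  intro y v a1 a2 a3 a4 a5 a6 a7 a8
  have h := bb_sound tab_ok k_c2pS (y := y) (v := v)
    ⟨by norm_num; linarith only [a1], by norm_num; linarith only [a2]⟩ ⟨by norm_num; linarith only [a3], by norm_num; linarith only [a4]⟩
    ⟨by norm_num; linarith only [a5], by norm_num; linarith only [a6]⟩ ⟨by norm_num; linarith only [a7], by norm_num; linarith only [a8]⟩
  rw [abs_of_nonneg (by linarith only [a3])]
  unfold SW
  push_cast at h
  linarith only [h, a3]

theorem k_c2taN : bb (tst 2 480346 0 0 510657 3294195 0 0 0 0 0 8388608) 60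
    102400 110080 106240 106240 95232 102400 102400 103936 = true := by
  decide +kernel

theorem r_c2taN : Row 2 0 (3 / 10) (3 / 20) (3 / 20) (-(7 / 25)) 0 (3 / 50) (-(4581 / 10000)) (487 / 1000) 0 0 0 8 (314159 / 100000) := by
  intro y v a1 a2 a3 a4 a5 a6 a7 a8
  have h := bb_sound tab_ok k_c2taN (y := y) (v := v)
    ⟨by norm_num; linarith only [a1], by norm_num; linarith only [a2]⟩ ⟨by norm_num; linarith only [a3], by norm_num; linarith only [a4]⟩
    ⟨by norm_num; linarith only [a5], by norm_num; linarith only [a6]⟩ ⟨by norm_num; linarith only [a7], by norm_num; linarith only [a8]⟩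
  rw [abs_of_nonneg (by linarith only [a3])]
  unfold SW
  push_cast at h
  linarith only [h, a3, a1]

theorem k_c2taA0 : bb (tst 2 474684 0 0 491783 3294195 0 0 516948 0 0 0) 60
    102400 110080 106240 106240 102400 109568 102400 103936 = true := by
  decide +kernel

theorem r_c2taA0 : Row 2 0 (3 / 10) (3 / 20) (3 / 20) 0 (7 / 25) (3 / 50) (-(4527 / 10000)) (469 / 1000) (493 / 1000) 0 0 0 (314159 / 100000) := by
  intro y v a1 a2 a3 a4 a5 a6 a7 a8
  have h := bb_sound tab_ok k_c2taA0 (y := y) (v := v)
    ⟨by norm_num; linarith only [a1], by norm_num; linarith only [a2]⟩ ⟨by norm_num; linarith only [a3], by norm_num; linarith only [a4]⟩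
    ⟨by norm_num; linarith only [a5], by norm_num; linarith only [a6]⟩ ⟨by norm_num; linarith only [a7], by norm_num; linarith only [a8]⟩
  rw [abs_of_nonneg (by linarith only [a3])]
  unfold SW
  push_cast at h
  linarith only [h, a5, a3, a1]

theorem k_c2taV : bb (tst 2 329980 0 0 491783 3294195 0 0 0 0 0 0) 60
    102400 110080 106240 106240 109568 109568 102400 103936 = true := by
  decide +kernel

theorem r_c2taV : Row 2 0 (3 / 10) (3 / 20) (3 / 20) (7 / 25) (7 / 25) (3 / 50) (-(3147 / 10000)) (469 / 1000) 0 0 0 0 (314159 / 100000) := by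
  intro y v a1 a2 a3 a4 a5 a6 a7 a8
  have h := bb_sound tab_ok k_c2taV (y := y) (v := v)
    ⟨by norm_num; linarith only [a1], by norm_num; linarith only [a2]⟩ ⟨by norm_num; linarith only [a3], by norm_num; linarith only [a4]⟩
    ⟨by norm_num; linarith only [a5], by norm_num; linarith only [a6]⟩ ⟨by norm_num; linarith only [a7], by norm_num; linarith only [a8]⟩
  rw [abs_of_nonneg (by linarith only [a3])]
  unfold SW
  push_cast at h
  linarith only [h, a3, a1]

theorem k_c2taW : bb (tst 2 364688 0 0 499123 3294195 0 0 0 2348810 0 0) 60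
    102400 110080 106240 106240 95232 95232 102400 103936 = true := by
  decide +kernel

theorem r_c2taW : Row 2 0 (3 / 10) (3 / 20) (3 / 20) (-(7 / 25)) (-(7 / 25)) (3 / 50) (-(1739 / 5000)) (119 / 250) 0 0 (-(56 / 25)) 0 (314159 / 100000) := by
  intro y v a1 a2 a3 a4 a5 a6 a7 a8
  have h := bb_sound tab_ok k_c2taW (y := y) (v := v)
    ⟨by norm_num; linarith only [a1], by norm_num; linarith only [a2]⟩ ⟨by norm_num; linarith only [a3], by norm_num; linarith only [a4]⟩
    ⟨by norm_num; linarith only [a5], by norm_num; linarith only [a6]⟩ ⟨by norm_num; linarith only [a7], by norm_num; linarith only [a8]⟩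
  rw [abs_of_nonneg (by linarith only [a3])]
  unfold SW
  push_cast at h
  linarith only [h, a7, a3, a1]

theorem k_c2taR : bb (tst 2 364688 0 0 499123 3294195 0 0 0 0 0 0) 60
    102400 110080 106240 106240 108800 115200 102400 102400 = true := by
  decide +kernel

theorem r_c2taR : Row 2 0 (3 / 10) (3 / 20) (3 / 20) (1 / 4) (1 / 2) 0 (-(1739 / 5000)) (119 / 250) 0 0 0 0 (314159 / 100000) := by
  intro y v a1 a2 a3 a4 a5 a6 a7 a8
  have h := bb_sound tab_ok k_c2taR (y := y) (v := v)
    ⟨by norm_num; linarith only [a1], by norm_num; linarith only [a2]⟩ ⟨by norm_num; linarith only [a3], by norm_num; linarith only [a4]⟩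
    ⟨by norm_num; linarith only [a5], by norm_num; linarith only [a6]⟩ ⟨by norm_num; linarith only [a7], by norm_num; linarith only [a8]⟩
  rw [abs_of_nonneg (by linarith only [a3])]
  unfold SW
  push_cast at h
  linarith only [h, a3, a1]

theorem k_c2taS : bb (tst 2 364688 0 0 499123 3294195 0 0 0 0 0 0) 60
    102400 110080 106240 106240 89600 96000 102400 102400 = true := by
  decide +kernel

theorem r_c2taS : Row 2 0 (3 / 10) (3 / 20) (3 / 20) (-(1 / 2)) (-(1 / 4)) 0 (-(1739 / 5000)) (119 / 250) 0 0 0 0 (314159 / 100000) := by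
  intro y v a1 a2 a3 a4 a5 a6 a7 a8
  have h := bb_sound tab_ok k_c2taS (y := y) (v := v)
    ⟨by norm_num; linarith only [a1], by norm_num; linarith only [a2]⟩ ⟨by norm_num; linarith only [a3], by norm_num; linarith only [a4]⟩
    ⟨by norm_num; linarith only [a5], by norm_num; linarith only [a6]⟩ ⟨by norm_num; linarith only [a7], by norm_num; linarith only [a8]⟩
  rw [abs_of_nonneg (by linarith only [a3])]
  unfold SW
  push_cast at h
  linarith only [h, a3, a1]

theorem k_c2tbN : bb (tst 2 585099 0 0 859833 3294195 0 0 0 0 0 8388608) 60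
    110080 115200 106240 106240 95232 102400 102400 103936 = true := by
  decide +kernel

theorem r_c2tbN : Row 2 (3 / 10) (1 / 2) (3 / 20) (3 / 20) (-(7 / 25)) 0 (3 / 50) (-(279 / 500)) (41 / 50) 0 0 0 8 (314159 / 100000) := by
  intro y v a1 a2 a3 a4 a5 a6 a7 a8
  have h := bb_sound tab_ok k_c2tbN (y := y) (v := v)
    ⟨by norm_num; linarith only [a1], by norm_num; linarith only [a2]⟩ ⟨by norm_num; linarith only [a3], by norm_num; linarith only [a4]⟩
    ⟨by norm_num; linarith only [a5], by norm_num; linarith only [a6]⟩ ⟨by norm_num; linarith only [a7], by norm_num; linarith only [a8]⟩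
  rw [abs_of_nonneg (by linarith only [a3])]
  unfold SW
  push_cast at h
  linarith only [h, a3, a1]

theorem k_c2tbA0 : bb (tst 2 585099 0 0 859833 3294195 0 0 516948 0 0 0) 60
    110080 115200 106240 106240 102400 109568 102400 103936 = true := by
  decide +kernel

theorem r_c2tbA0 : Row 2 (3 / 10) (1 / 2) (3 / 20) (3 / 20) 0 (7 / 25) (3 / 50) (-(279 / 500)) (41 / 50) (493 / 1000) 0 0 0 (314159 / 100000) := by
  intro y v a1 a2 a3 a4 a5 a6 a7 a8
  have h := bb_sound tab_ok k_c2tbA0 (y := y) (v := v)
    ⟨by norm_num; linarith only [a1], by norm_num; linarith only [a2]⟩ ⟨by norm_num; linarith only [a3], by norm_num; linarith only [a4]⟩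
    ⟨by norm_num; linarith only [a5], by norm_num; linarith only [a6]⟩ ⟨by norm_num; linarith only [a7], by norm_num; linarith only [a8]⟩
  rw [abs_of_nonneg (by linarith only [a3])]
  unfold SW
  push_cast at h
  linarith only [h, a5, a3, a1]

theorem k_c2tbV : bb (tst 2 341305 0 0 529531 3294195 0 0 0 0 0 0) 60
    110080 115200 106240 106240 109568 109568 102400 103936 = true := by
  decide +kernel

theorem r_c2tbV : Row 2 (3 / 10) (1 / 2) (3 / 20) (3 / 20) (7 / 25) (7 / 25) (3 / 50) (-(651 / 2000)) (101 / 200) 0 0 0 0 (314159 / 100000) := by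
  intro y v a1 a2 a3 a4 a5 a6 a7 a8
  have h := bb_sound tab_ok k_c2tbV (y := y) (v := v)
    ⟨by norm_num; linarith only [a1], by norm_num; linarith only [a2]⟩ ⟨by norm_num; linarith only [a3], by norm_num; linarith only [a4]⟩
    ⟨by norm_num; linarith only [a5], by norm_num; linarith only [a6]⟩ ⟨by norm_num; linarith only [a7], by norm_num; linarith only [a8]⟩
  rw [abs_of_nonneg (by linarith only [a3])]
  unfold SW
  push_cast at h
  linarith only [h, a3, a1]

theorem k_c2tbW : bb (tst 2 400550 0 0 618660 3294195 0 0 0 2348810 0 0) 60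
    110080 115200 106240 106240 95232 95232 102400 103936 = true := by
  decide +kernel

theorem r_c2tbW : Row 2 (3 / 10) (1 / 2) (3 / 20) (3 / 20) (-(7 / 25)) (-(7 / 25)) (3 / 50) (-(191 / 500)) (59 / 100) 0 0 (-(56 / 25)) 0 (314159 / 100000) := by
  intro y v a1 a2 a3 a4 a5 a6 a7 a8
  have h := bb_sound tab_ok k_c2tbW (y := y) (v := v)
    ⟨by norm_num; linarith only [a1], by norm_num; linarith only [a2]⟩ ⟨by norm_num; linarith only [a3], by norm_num; linarith only [a4]⟩
    ⟨by norm_num; linarith only [a5], by norm_num; linarith only [a6]⟩ ⟨by norm_num; linarith only [a7], by norm_num; linarith only [a8]⟩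
  rw [abs_of_nonneg (by linarith only [a3])]
  unfold SW
  push_cast at h
  linarith only [h, a7, a3, a1]

theorem k_c2tbR : bb (tst 2 400550 0 0 618660 3294195 0 0 0 0 0 0) 60
    110080 115200 106240 106240 108800 115200 102400 102400 = true := by
  decide +kernel

theorem r_c2tbR : Row 2 (3 / 10) (1 / 2) (3 / 20) (3 / 20) (1 / 4) (1 / 2) 0 (-(191 / 500)) (59 / 100) 0 0 0 0 (314159 / 100000) := by
  intro y v a1 a2 a3 a4 a5 a6 a7 a8
  have h := bb_sound tab_ok k_c2tbR (y := y) (v := v)
    ⟨by norm_num; linarith only [a1], by norm_num; linarith only [a2]⟩ ⟨by norm_num; linarith only [a3], by norm_num; linarith only [a4]⟩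
    ⟨by norm_num; linarith only [a5], by norm_num; linarith only [a6]⟩ ⟨by norm_num; linarith only [a7], by norm_num; linarith only [a8]⟩
  rw [abs_of_nonneg (by linarith only [a3])]
  unfold SW
  push_cast at h
  linarith only [h, a3, a1]

theorem k_c2tbS : bb (tst 2 400550 0 0 618660 3294195 0 0 0 0 0 0) 60
    110080 115200 106240 106240 89600 96000 102400 102400 = true := by
  decide +kernel

theorem r_c2tbS : Row 2 (3 / 10) (1 / 2) (3 / 20) (3 / 20) (-(1 / 2)) (-(1 / 4)) 0 (-(191 / 500)) (59 / 100) 0 0 0 0 (314159 / 100000) := by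
  intro y v a1 a2 a3 a4 a5 a6 a7 a8
  have h := bb_sound tab_ok k_c2tbS (y := y) (v := v)
    ⟨by norm_num; linarith only [a1], by norm_num; linarith only [a2]⟩ ⟨by norm_num; linarith only [a3], by norm_num; linarith only [a4]⟩
    ⟨by norm_num; linarith only [a5], by norm_num; linarith only [a6]⟩ ⟨by norm_num; linarith only [a7], by norm_num; linarith only [a8]⟩
  rw [abs_of_nonneg (by linarith only [a3])]
  unfold SW
  push_cast at h
  linarith only [h, a3, a1]

theorem k_c2LF : bb (tst 2 337635 0 0 0 0 1258292 0 0 2348810 0 8388608) 60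
    96000 96000 99072 102400 95232 109568 102400 103936 = true := by
  decide +kernel

theorem r_c2LF : Row 2 (-(1 / 4)) (-(1 / 4)) (-(13 / 100)) 0 (-(7 / 25)) (7 / 25) (3 / 50) (-(161 / 500)) 0 0 0 (-(56 / 25)) 8 (6 / 5) := by
  intro y v a1 a2 a3 a4 a5 a6 a7 a8
  have h := bb_sound tab_ok k_c2LF (y := y) (v := v)
    ⟨by norm_num; linarith only [a1], by norm_num; linarith only [a2]⟩ ⟨by norm_num; linarith only [a3], by norm_num; linarith only [a4]⟩
    ⟨by norm_num; linarith only [a5], by norm_num; linarith only [a6]⟩ ⟨by norm_num; linarith only [a7], by norm_num; linarith only [a8]⟩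
  rw [abs_of_nonpos (by linarith only [a4])]
  unfold SW
  push_cast at h
  linarith only [h, a7, a3]

theorem k_c2LV : bb (tst 2 337635 0 0 0 0 1258292 0 0 0 0 0) 60
    96000 96000 99072 102400 109568 109568 102400 103936 = true := by
  decide +kernel

theorem r_c2LV : Row 2 (-(1 / 4)) (-(1 / 4)) (-(13 / 100)) 0 (7 / 25) (7 / 25) (3 / 50) (-(161 / 500)) 0 0 0 0 0 (6 / 5) := by
  intro y v a1 a2 a3 a4 a5 a6 a7 a8
  have h := bb_sound tab_ok k_c2LV (y := y) (v := v)
    ⟨by norm_num; linarith only [a1], by norm_num; linarith only [a2]⟩ ⟨by norm_num; linarith only [a3], by norm_num; linarith only [a4]⟩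
    ⟨by norm_num; linarith only [a5], by norm_num; linarith only [a6]⟩ ⟨by norm_num; linarith only [a7], by norm_num; linarith only [a8]⟩
  rw [abs_of_nonpos (by linarith only [a4])]
  unfold SW
  push_cast at h
  linarith only [h, a3]

theorem k_c2LW : bb (tst 2 337635 0 0 0 0 1258292 0 0 4697620 0 0) 60
    96000 96000 99072 102400 95232 95232 102400 103936 = true := by
  decide +kernel

theorem r_c2LW : Row 2 (-(1 / 4)) (-(1 / 4)) (-(13 / 100)) 0 (-(7 / 25)) (-(7 / 25)) (3 / 50) (-(161 / 500)) 0 0 0 (-(112 / 25)) 0 (6 / 5) := by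
  intro y v a1 a2 a3 a4 a5 a6 a7 a8
  have h := bb_sound tab_ok k_c2LW (y := y) (v := v)
    ⟨by norm_num; linarith only [a1], by norm_num; linarith only [a2]⟩ ⟨by norm_num; linarith only [a3], by norm_num; linarith only [a4]⟩
    ⟨by norm_num; linarith only [a5], by norm_num; linarith only [a6]⟩ ⟨by norm_num; linarith only [a7], by norm_num; linarith only [a8]⟩
  rw [abs_of_nonpos (by linarith only [a4])]
  unfold SW
  push_cast at h
  linarith only [h, a7, a3]

theorem k_c2LR : bb (tst 2 374335 0 0 0 0 1258292 0 0 0 0 0) 60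
    96000 96000 99072 102400 108800 115200 102400 102400 = true := by
  decide +kernel

theorem r_c2LR : Row 2 (-(1 / 4)) (-(1 / 4)) (-(13 / 100)) 0 (1 / 4) (1 / 2) 0 (-(357 / 1000)) 0 0 0 0 0 (6 / 5) := by
  intro y v a1 a2 a3 a4 a5 a6 a7 a8
  have h := bb_sound tab_ok k_c2LR (y := y) (v := v)
    ⟨by norm_num; linarith only [a1], by norm_num; linarith only [a2]⟩ ⟨by norm_num; linarith only [a3], by norm_num; linarith only [a4]⟩
    ⟨by norm_num; linarith only [a5], by norm_num; linarith only [a6]⟩ ⟨by norm_num; linarith only [a7], by norm_num; linarith only [a8]⟩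
  rw [abs_of_nonpos (by linarith only [a4])]
  unfold SW
  push_cast at h
  linarith only [h, a3]

theorem k_c2LS : bb (tst 2 374335 0 0 0 0 1258292 0 0 0 0 0) 60
    96000 96000 99072 102400 89600 96000 102400 102400 = true := by
  decide +kernel

theorem r_c2LS : Row 2 (-(1 / 4)) (-(1 / 4)) (-(13 / 100)) 0 (-(1 / 2)) (-(1 / 4)) 0 (-(357 / 1000)) 0 0 0 0 0 (6 / 5) := by
  intro y v a1 a2 a3 a4 a5 a6 a7 a8
  have h := bb_sound tab_ok k_c2LS (y := y) (v := v)
    ⟨by norm_num; linarith only [a1], by norm_num; linarith only [a2]⟩ ⟨by norm_num; linarith only [a3], by norm_num; linarith only [a4]⟩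
    ⟨by norm_num; linarith only [a5], by norm_num; linarith only [a6]⟩ ⟨by norm_num; linarith only [a7], by norm_num; linarith only [a8]⟩
  rw [abs_of_nonpos (by linarith only [a4])]
  unfold SW
  push_cast at h
  linarith only [h, a3]

end VQ

end Pool.Agent.S5
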