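import Pool.Agent.S5.I.VQa
import Pool.Agent.S5.I.TsK

/-!
# The payments of the open nodes: parameter-free inequalities
-/

set_option autoImplicit false

namespace Pool.Agent.S5

open Pool.Agent.H63.VC3 Pool.Agent.S3 Complex Tb

namespace VQ

theorem k_c3AtaF : bb (tst 2 432951 0 0 370148 3294195 0 0 0 2348810 0 8388608) 60
    102400 110080 106240 106240 95232 109568 102400 104192 = true := by
  decide +kernel

theorem r_c3AtaF : Row 2 0 (3 / 10) (3 / 20) (3 / 20) (-(7 / 25)) (7 / 25) (7 / 100) (-(4129 / 10000)) (353 / 1000) 0 0 (-(56 / 25)) 8 (314159 / 100000) := by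
  intro y v a1 a2 a3 a4 a5 a6 a7 a8
  have h := bb_sound tab_ok k_c3AtaF (y := y) (v := v)
    ⟨by norm_num; linarith only [a1], by norm_num; linarith only [a2]⟩ ⟨by norm_num; linarith only [a3], by norm_num; linarith only [a4]⟩
    ⟨by norm_num; linarith only [a5], by norm_num; linarith only [a6]⟩ ⟨by norm_num; linarith only [a7], by norm_num; linarith only [a8]⟩
  rw [abs_of_nonneg (by linarith only [a3])]
  unfold SW
  push_cast at h
  linarith only [h, a7, a3, a1]

theorem k_c3AtaV : bb (tst 2 432951 0 0 370148 3294195 0 0 0 0 0 0) 60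
    102400 110080 106240 106240 109568 109568 102400 104192 = true := by
  decide +kernel

theorem r_c3AtaV : Row 2 0 (3 / 10) (3 / 20) (3 / 20) (7 / 25) (7 / 25) (7 / 100) (-(4129 / 10000)) (353 / 1000) 0 0 0 0 (314159 / 100000) := by
  intro y v a1 a2 a3 a4 a5 a6 a7 a8
  have h := bb_sound tab_ok k_c3AtaV (y := y) (v := v)
    ⟨by norm_num; linarith only [a1], by norm_num; linarith only [a2]⟩ ⟨by norm_num; linarith only [a3], by norm_num; linarith only [a4]⟩
    ⟨by norm_num; linarith only [a5], by norm_num; linarith only [a6]⟩ ⟨by norm_num; linarith only [a7], by norm_num; linarith only [a8]⟩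
  rw [abs_of_nonneg (by linarith only [a3])]
  unfold SW
  push_cast at h
  linarith only [h, a3, a1]

theorem k_c3AtaW : bb (tst 2 432951 0 0 370148 3294195 0 0 0 4697620 0 0) 60
    102400 110080 106240 106240 95232 95232 102400 104192 = true := by
  decide +kernel

theorem r_c3AtaW : Row 2 0 (3 / 10) (3 / 20) (3 / 20) (-(7 / 25)) (-(7 / 25)) (7 / 100) (-(4129 / 10000)) (353 / 1000) 0 0 (-(112 / 25)) 0 (314159 / 100000) := by
  intro y v a1 a2 a3 a4 a5 a6 a7 a8
  have h := bb_sound tab_ok k_c3AtaW (y := y) (v := v)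
    ⟨by norm_num; linarith only [a1], by norm_num; linarith only [a2]⟩ ⟨by norm_num; linarith only [a3], by norm_num; linarith only [a4]⟩
    ⟨by norm_num; linarith only [a5], by norm_num; linarith only [a6]⟩ ⟨by norm_num; linarith only [a7], by norm_num; linarith only [a8]⟩
  rw [abs_of_nonneg (by linarith only [a3])]
  unfold SW
  push_cast at h
  linarith only [h, a7, a3, a1]

theorem k_c3AtaR : bb (tst 2 470804 0 0 377488 3294195 0 0 0 0 0 0) 60
    102400 110080 106240 106240 108800 115200 102400 102400 = true := by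
  decide +kernel

theorem r_c3AtaR : Row 2 0 (3 / 10) (3 / 20) (3 / 20) (1 / 4) (1 / 2) 0 (-(449 / 1000)) (9 / 25) 0 0 0 0 (314159 / 100000) := by
  intro y v a1 a2 a3 a4 a5 a6 a7 a8
  have h := bb_sound tab_ok k_c3AtaR (y := y) (v := v)
    ⟨by norm_num; linarith only [a1], by norm_num; linarith only [a2]⟩ ⟨by norm_num; linarith only [a3], by norm_num; linarith only [a4]⟩
    ⟨by norm_num; linarith only [a5], by norm_num; linarith only [a6]⟩ ⟨by norm_num; linarith only [a7], by norm_num; linarith only [a8]⟩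
  rw [abs_of_nonneg (by linarith only [a3])]
  unfold SW
  push_cast at h
  linarith only [h, a3, a1]

theorem k_c3AtaS : bb (tst 2 470804 0 0 377488 3294195 0 0 0 0 0 0) 60
    102400 110080 106240 106240 89600 96000 102400 102400 = true := by
  decide +kernel

theorem r_c3AtaS : Row 2 0 (3 / 10) (3 / 20) (3 / 20) (-(1 / 2)) (-(1 / 4)) 0 (-(449 / 1000)) (9 / 25) 0 0 0 0 (314159 / 100000) := by
  intro y v a1 a2 a3 a4 a5 a6 a7 a8
  have h := bb_sound tab_ok k_c3AtaS (y := y) (v := v)
    ⟨by norm_num; linarith only [a1], by norm_num; linarith only [a2]⟩ ⟨by norm_num; linarith only [a3], by norm_num; linarith only [a4]⟩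
    ⟨by norm_num; linarith only [a5], by norm_num; linarith only [a6]⟩ ⟨by norm_num; linarith only [a7], by norm_num; linarith only [a8]⟩
  rw [abs_of_nonneg (by linarith only [a3])]
  unfold SW
  push_cast at h
  linarith only [h, a3, a1]

theorem k_c3AtbF : bb (tst 2 502786 0 0 602932 3294195 0 0 0 2348810 0 8388608) 60
    110080 115200 106240 106240 95232 109568 102400 104192 = true := by
  decide +kernel

theorem r_c3AtbF : Row 2 (3 / 10) (1 / 2) (3 / 20) (3 / 20) (-(7 / 25)) (7 / 25) (7 / 100) (-(959 / 2000)) (23 / 40) 0 0 (-(56 / 25)) 8 (314159 / 100000) := by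
  intro y v a1 a2 a3 a4 a5 a6 a7 a8
  have h := bb_sound tab_ok k_c3AtbF (y := y) (v := v)
    ⟨by norm_num; linarith only [a1], by norm_num; linarith only [a2]⟩ ⟨by norm_num; linarith only [a3], by norm_num; linarith only [a4]⟩
    ⟨by norm_num; linarith only [a5], by norm_num; linarith only [a6]⟩ ⟨by norm_num; linarith only [a7], by norm_num; linarith only [a8]⟩
  rw [abs_of_nonneg (by linarith only [a3])]
  unfold SW
  push_cast at h
  linarith only [h, a7, a3, a1]

theorem k_c3AtbV : bb (tst 2 502786 0 0 602932 3294195 0 0 0 0 0 0) 60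
    110080 115200 106240 106240 109568 109568 102400 104192 = true := by
  decide +kernel

theorem r_c3AtbV : Row 2 (3 / 10) (1 / 2) (3 / 20) (3 / 20) (7 / 25) (7 / 25) (7 / 100) (-(959 / 2000)) (23 / 40) 0 0 0 0 (314159 / 100000) := by
  intro y v a1 a2 a3 a4 a5 a6 a7 a8
  have h := bb_sound tab_ok k_c3AtbV (y := y) (v := v)
    ⟨by norm_num; linarith only [a1], by norm_num; linarith only [a2]⟩ ⟨by norm_num; linarith only [a3], by norm_num; linarith only [a4]⟩
    ⟨by norm_num; linarith only [a5], by norm_num; linarith only [a6]⟩ ⟨by norm_num; linarith only [a7], by norm_num; linarith only [a8]⟩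
  rw [abs_of_nonneg (by linarith only [a3])]
  unfold SW
  push_cast at h
  linarith only [h, a3, a1]

theorem k_c3AtbW : bb (tst 2 502786 0 0 602932 3294195 0 0 0 4697620 0 0) 60
    110080 115200 106240 106240 95232 95232 102400 104192 = true := by
  decide +kernel

theorem r_c3AtbW : Row 2 (3 / 10) (1 / 2) (3 / 20) (3 / 20) (-(7 / 25)) (-(7 / 25)) (7 / 100) (-(959 / 2000)) (23 / 40) 0 0 (-(112 / 25)) 0 (314159 / 100000) := by
  intro y v a1 a2 a3 a4 a5 a6 a7 a8
  have h := bb_sound tab_ok k_c3AtbW (y := y) (v := v)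
    ⟨by norm_num; linarith only [a1], by norm_num; linarith only [a2]⟩ ⟨by norm_num; linarith only [a3], by norm_num; linarith only [a4]⟩
    ⟨by norm_num; linarith only [a5], by norm_num; linarith only [a6]⟩ ⟨by norm_num; linarith only [a7], by norm_num; linarith only [a8]⟩
  rw [abs_of_nonneg (by linarith only [a3])]
  unfold SW
  push_cast at h
  linarith only [h, a7, a3, a1]

theorem k_c3AtbR : bb (tst 2 579332 0 0 739247 3294195 0 0 0 0 0 0) 60
    110080 115200 106240 106240 108800 115200 102400 102400 = true := by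
  decide +kernel

theorem r_c3AtbR : Row 2 (3 / 10) (1 / 2) (3 / 20) (3 / 20) (1 / 4) (1 / 2) 0 (-(221 / 400)) (141 / 200) 0 0 0 0 (314159 / 100000) := by
  intro y v a1 a2 a3 a4 a5 a6 a7 a8
  have h := bb_sound tab_ok k_c3AtbR (y := y) (v := v)
    ⟨by norm_num; linarith only [a1], by norm_num; linarith only [a2]⟩ ⟨by norm_num; linarith only [a3], by norm_num; linarith only [a4]⟩
    ⟨by norm_num; linarith only [a5], by norm_num; linarith only [a6]⟩ ⟨by norm_num; linarith only [a7], by norm_num; linarith only [a8]⟩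
  rw [abs_of_nonneg (by linarith only [a3])]
  unfold SW
  push_cast at h
  linarith only [h, a3, a1]

theorem k_c3AtbS : bb (tst 2 579332 0 0 739247 3294195 0 0 0 0 0 0) 60
    110080 115200 106240 106240 89600 96000 102400 102400 = true := by
  decide +kernel

theorem r_c3AtbS : Row 2 (3 / 10) (1 / 2) (3 / 20) (3 / 20) (-(1 / 2)) (-(1 / 4)) 0 (-(221 / 400)) (141 / 200) 0 0 0 0 (314159 / 100000) := by
  intro y v a1 a2 a3 a4 a5 a6 a7 a8
  have h := bb_sound tab_ok k_c3AtbS (y := y) (v := v)
    ⟨by norm_num; linarith only [a1], by norm_num; linarith only [a2]⟩ ⟨by norm_num; linarith only [a3], by norm_num; linarith only [a4]⟩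
    ⟨by norm_num; linarith only [a5], by norm_num; linarith only [a6]⟩ ⟨by norm_num; linarith only [a7], by norm_num; linarith only [a8]⟩
  rw [abs_of_nonneg (by linarith only [a3])]
  unfold SW
  push_cast at h
  linarith only [h, a3, a1]

theorem k_c3AUF : bb (tst 1 356509 0 0 436208 0 2927195 0 0 2348810 0 8388608) 60
    96000 102400 98560 98560 95232 109568 102400 104192 = true := by
  decide +kernel

theorem r_c3AUF : Row 1 (-(1 / 4)) 0 (-(3 / 20)) (-(3 / 20)) (-(7 / 25)) (7 / 25) (7 / 100) (-(17 / 50)) (52 / 125) 0 0 (-(56 / 25)) 8 (279159 / 100000) := by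
  intro y v a1 a2 a3 a4 a5 a6 a7 a8
  have h := bb_sound tab_ok k_c3AUF (y := y) (v := v)
    ⟨by norm_num; linarith only [a1], by norm_num; linarith only [a2]⟩ ⟨by norm_num; linarith only [a3], by norm_num; linarith only [a4]⟩
    ⟨by norm_num; linarith only [a5], by norm_num; linarith only [a6]⟩ ⟨by norm_num; linarith only [a7], by norm_num; linarith only [a8]⟩
  rw [abs_of_nonpos (by linarith only [a4])]
  unfold SW
  push_cast at h
  linarith only [h, a7, a3, a1]

theorem k_c3AUV : bb (tst 1 356509 0 0 436208 0 2927195 0 0 0 0 0) 60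
    96000 102400 98560 98560 109568 109568 102400 104192 = true := by
  decide +kernel

theorem r_c3AUV : Row 1 (-(1 / 4)) 0 (-(3 / 20)) (-(3 / 20)) (7 / 25) (7 / 25) (7 / 100) (-(17 / 50)) (52 / 125) 0 0 0 0 (279159 / 100000) := by
  intro y v a1 a2 a3 a4 a5 a6 a7 a8
  have h := bb_sound tab_ok k_c3AUV (y := y) (v := v)
    ⟨by norm_num; linarith only [a1], by norm_num; linarith only [a2]⟩ ⟨by norm_num; linarith only [a3], by norm_num; linarith only [a4]⟩
    ⟨by norm_num; linarith only [a5], by norm_num; linarith only [a6]⟩ ⟨by norm_num; linarith only [a7], by norm_num; linarith only [a8]⟩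
  rw [abs_of_nonpos (by linarith only [a4])]
  unfold SW
  push_cast at h
  linarith only [h, a3, a1]

theorem k_c3AUW : bb (tst 1 356509 0 0 436208 0 2927195 0 0 4697620 0 0) 60
    96000 102400 98560 98560 95232 95232 102400 104192 = true := by
  decide +kernel

theorem r_c3AUW : Row 1 (-(1 / 4)) 0 (-(3 / 20)) (-(3 / 20)) (-(7 / 25)) (-(7 / 25)) (7 / 100) (-(17 / 50)) (52 / 125) 0 0 (-(112 / 25)) 0 (279159 / 100000) := by
  intro y v a1 a2 a3 a4 a5 a6 a7 a8
  have h := bb_sound tab_ok k_c3AUW (y := y) (v := v)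
    ⟨by norm_num; linarith only [a1], by norm_num; linarith only [a2]⟩ ⟨by norm_num; linarith only [a3], by norm_num; linarith only [a4]⟩
    ⟨by norm_num; linarith only [a5], by norm_num; linarith only [a6]⟩ ⟨by norm_num; linarith only [a7], by norm_num; linarith only [a8]⟩
  rw [abs_of_nonpos (by linarith only [a4])]
  unfold SW
  push_cast at h
  linarith only [h, a7, a3, a1]

theorem k_c3AUR : bb (tst 1 430958 0 0 465568 0 2927195 0 0 0 0 0) 60
    96000 102400 98560 98560 108800 115200 102400 102400 = true := by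
  decide +kernel

theorem r_c3AUR : Row 1 (-(1 / 4)) 0 (-(3 / 20)) (-(3 / 20)) (1 / 4) (1 / 2) 0 (-(411 / 1000)) (111 / 250) 0 0 0 0 (279159 / 100000) := by
  intro y v a1 a2 a3 a4 a5 a6 a7 a8
  have h := bb_sound tab_ok k_c3AUR (y := y) (v := v)
    ⟨by norm_num; linarith only [a1], by norm_num; linarith only [a2]⟩ ⟨by norm_num; linarith only [a3], by norm_num; linarith only [a4]⟩
    ⟨by norm_num; linarith only [a5], by norm_num; linarith only [a6]⟩ ⟨by norm_num; linarith only [a7], by norm_num; linarith only [a8]⟩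
  rw [abs_of_nonpos (by linarith only [a4])]
  unfold SW
  push_cast at h
  linarith only [h, a3, a1]

theorem k_c3AUS : bb (tst 1 430958 0 0 465568 0 2927195 0 0 0 0 0) 60
    96000 102400 98560 98560 89600 96000 102400 102400 = true := by
  decide +kernel

theorem r_c3AUS : Row 1 (-(1 / 4)) 0 (-(3 / 20)) (-(3 / 20)) (-(1 / 2)) (-(1 / 4)) 0 (-(411 / 1000)) (111 / 250) 0 0 0 0 (279159 / 100000) := by
  intro y v a1 a2 a3 a4 a5 a6 a7 a8
  have h := bb_sound tab_ok k_c3AUS (y := y) (v := v)
    ⟨by norm_num; linarith only [a1], by norm_num; linarith only [a2]⟩ ⟨by norm_num; linarith only [a3], by norm_num; linarith only [a4]⟩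
    ⟨by norm_num; linarith only [a5], by norm_num; linarith only [a6]⟩ ⟨by norm_num; linarith only [a7], by norm_num; linarith only [a8]⟩
  rw [abs_of_nonpos (by linarith only [a4])]
  unfold SW
  push_cast at h
  linarith only [h, a3, a1]

theorem k_c3AuF : bb (tst 1 304081 0 0 436208 3294195 0 0 0 2348810 0 8388608) 60
    96000 102400 106240 106240 95232 109568 102400 104192 = true := by
  decide +kernel

theorem r_c3AuF : Row 1 (-(1 / 4)) 0 (3 / 20) (3 / 20) (-(7 / 25)) (7 / 25) (7 / 100) (-(29 / 100)) (52 / 125) 0 0 (-(56 / 25)) 8 (314159 / 100000) := by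
  intro y v a1 a2 a3 a4 a5 a6 a7 a8
  have h := bb_sound tab_ok k_c3AuF (y := y) (v := v)
    ⟨by norm_num; linarith only [a1], by norm_num; linarith only [a2]⟩ ⟨by norm_num; linarith only [a3], by norm_num; linarith only [a4]⟩
    ⟨by norm_num; linarith only [a5], by norm_num; linarith only [a6]⟩ ⟨by norm_num; linarith only [a7], by norm_num; linarith only [a8]⟩
  rw [abs_of_nonneg (by linarith only [a3])]
  unfold SW
  push_cast at h
  linarith only [h, a7, a3, a1]

theorem k_c3AuV : bb (tst 1 304081 0 0 436208 3294195 0 0 0 0 0 0) 60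
    96000 102400 106240 106240 109568 109568 102400 104192 = true := by
  decide +kernel

theorem r_c3AuV : Row 1 (-(1 / 4)) 0 (3 / 20) (3 / 20) (7 / 25) (7 / 25) (7 / 100) (-(29 / 100)) (52 / 125) 0 0 0 0 (314159 / 100000) := by
  intro y v a1 a2 a3 a4 a5 a6 a7 a8
  have h := bb_sound tab_ok k_c3AuV (y := y) (v := v)
    ⟨by norm_num; linarith only [a1], by norm_num; linarith only [a2]⟩ ⟨by norm_num; linarith only [a3], by norm_num; linarith only [a4]⟩
    ⟨by norm_num; linarith only [a5], by norm_num; linarith only [a6]⟩ ⟨by norm_num; linarith only [a7], by norm_num; linarith only [a8]⟩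
  rw [abs_of_nonneg (by linarith only [a3])]
  unfold SW
  push_cast at h
  linarith only [h, a3, a1]

theorem k_c3AuW : bb (tst 1 304081 0 0 436208 3294195 0 0 0 4697620 0 0) 60
    96000 102400 106240 106240 95232 95232 102400 104192 = true := by
  decide +kernel

theorem r_c3AuW : Row 1 (-(1 / 4)) 0 (3 / 20) (3 / 20) (-(7 / 25)) (-(7 / 25)) (7 / 100) (-(29 / 100)) (52 / 125) 0 0 (-(112 / 25)) 0 (314159 / 100000) := by
  intro y v a1 a2 a3 a4 a5 a6 a7 a8
  have h := bb_sound tab_ok k_c3AuW (y := y) (v := v)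
    ⟨by norm_num; linarith only [a1], by norm_num; linarith only [a2]⟩ ⟨by norm_num; linarith only [a3], by norm_num; linarith only [a4]⟩
    ⟨by norm_num; linarith only [a5], by norm_num; linarith only [a6]⟩ ⟨by norm_num; linarith only [a7], by norm_num; linarith only [a8]⟩
  rw [abs_of_nonneg (by linarith only [a3])]
  unfold SW
  push_cast at h
  linarith only [h, a7, a3, a1]

theorem k_c3AuR : bb (tst 1 378529 0 0 465568 3294195 0 0 0 0 0 0) 60
    96000 102400 106240 106240 108800 115200 102400 102400 = true := by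
  decide +kernel

theorem r_c3AuR : Row 1 (-(1 / 4)) 0 (3 / 20) (3 / 20) (1 / 4) (1 / 2) 0 (-(361 / 1000)) (111 / 250) 0 0 0 0 (314159 / 100000) := by
  intro y v a1 a2 a3 a4 a5 a6 a7 a8
  have h := bb_sound tab_ok k_c3AuR (y := y) (v := v)
    ⟨by norm_num; linarith only [a1], by norm_num; linarith only [a2]⟩ ⟨by norm_num; linarith only [a3], by norm_num; linarith only [a4]⟩
    ⟨by norm_num; linarith only [a5], by norm_num; linarith only [a6]⟩ ⟨by norm_num; linarith only [a7], by norm_num; linarith only [a8]⟩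
  rw [abs_of_nonneg (by linarith only [a3])]
  unfold SW
  push_cast at h
  linarith only [h, a3, a1]

theorem k_c3AuS : bb (tst 1 378529 0 0 465568 3294195 0 0 0 0 0 0) 60
    96000 102400 106240 106240 89600 96000 102400 102400 = true := by
  decide +kernel

theorem r_c3AuS : Row 1 (-(1 / 4)) 0 (3 / 20) (3 / 20) (-(1 / 2)) (-(1 / 4)) 0 (-(361 / 1000)) (111 / 250) 0 0 0 0 (314159 / 100000) := by
  intro y v a1 a2 a3 a4 a5 a6 a7 a8
  have h := bb_sound tab_ok k_c3AuS (y := y) (v := v)
    ⟨by norm_num; linarith only [a1], by norm_num; linarith only [a2]⟩ ⟨by norm_num; linarith only [a3], by norm_num; linarith only [a4]⟩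
    ⟨by norm_num; linarith only [a5], by norm_num; linarith only [a6]⟩ ⟨by norm_num; linarith only [a7], by norm_num; linarith only [a8]⟩
  rw [abs_of_nonneg (by linarith only [a3])]
  unfold SW
  push_cast at h
  linarith only [h, a3, a1]

theorem k_c3APF : bb (tst 1 413132 0 0 0 0 2927195 0 0 2348810 0 8388608) 60
    96000 96000 98560 102400 95232 109568 102400 104192 = true := by
  decide +kernel

theorem r_c3APF : Row 1 (-(1 / 4)) (-(1 / 4)) (-(3 / 20)) 0 (-(7 / 25)) (7 / 25) (7 / 100) (-(197 / 500)) 0 0 0 (-(56 / 25)) 8 (279159 / 100000) := by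
  intro y v a1 a2 a3 a4 a5 a6 a7 a8
  have h := bb_sound tab_ok k_c3APF (y := y) (v := v)
    ⟨by norm_num; linarith only [a1], by norm_num; linarith only [a2]⟩ ⟨by norm_num; linarith only [a3], by norm_num; linarith only [a4]⟩
    ⟨by norm_num; linarith only [a5], by norm_num; linarith only [a6]⟩ ⟨by norm_num; linarith only [a7], by norm_num; linarith only [a8]⟩
  rw [abs_of_nonpos (by linarith only [a4])]
  unfold SW
  push_cast at h
  linarith only [h, a7, a3]

theorem k_c3APV : bb (tst 1 413132 0 0 0 0 2927195 0 0 0 0 0) 60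
    96000 96000 98560 102400 109568 109568 102400 104192 = true := by
  decide +kernel

theorem r_c3APV : Row 1 (-(1 / 4)) (-(1 / 4)) (-(3 / 20)) 0 (7 / 25) (7 / 25) (7 / 100) (-(197 / 500)) 0 0 0 0 0 (279159 / 100000) := by
  intro y v a1 a2 a3 a4 a5 a6 a7 a8
  have h := bb_sound tab_ok k_c3APV (y := y) (v := v)
    ⟨by norm_num; linarith only [a1], by norm_num; linarith only [a2]⟩ ⟨by norm_num; linarith only [a3], by norm_num; linarith only [a4]⟩
    ⟨by norm_num; linarith only [a5], by norm_num; linarith only [a6]⟩ ⟨by norm_num; linarith only [a7], by norm_num; linarith only [a8]⟩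
  rw [abs_of_nonpos (by linarith only [a4])]
  unfold SW
  push_cast at h
  linarith only [h, a3]

theorem k_c3APW : bb (tst 1 413132 0 0 0 0 2927195 0 0 4697620 0 0) 60
    96000 96000 98560 102400 95232 95232 102400 104192 = true := by
  decide +kernel

theorem r_c3APW : Row 1 (-(1 / 4)) (-(1 / 4)) (-(3 / 20)) 0 (-(7 / 25)) (-(7 / 25)) (7 / 100) (-(197 / 500)) 0 0 0 (-(112 / 25)) 0 (279159 / 100000) := by
  intro y v a1 a2 a3 a4 a5 a6 a7 a8
  have h := bb_sound tab_ok k_c3APW (y := y) (v := v)
    ⟨by norm_num; linarith only [a1], by norm_num; linarith only [a2]⟩ ⟨by norm_num; linarith only [a3], by norm_num; linarith only [a4]⟩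
    ⟨by norm_num; linarith only [a5], by norm_num; linarith only [a6]⟩ ⟨by norm_num; linarith only [a7], by norm_num; linarith only [a8]⟩
  rw [abs_of_nonpos (by linarith only [a4])]
  unfold SW
  push_cast at h
  linarith only [h, a7, a3]

theorem k_c3APR : bb (tst 1 494921 0 0 0 0 2927195 0 0 0 0 0) 60
    96000 96000 98560 102400 108800 115200 102400 102400 = true := by
  decide +kernel

theorem r_c3APR : Row 1 (-(1 / 4)) (-(1 / 4)) (-(3 / 20)) 0 (1 / 4) (1 / 2) 0 (-(59 / 125)) 0 0 0 0 0 (279159 / 100000) := by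
  intro y v a1 a2 a3 a4 a5 a6 a7 a8
  have h := bb_sound tab_ok k_c3APR (y := y) (v := v)
    ⟨by norm_num; linarith only [a1], by norm_num; linarith only [a2]⟩ ⟨by norm_num; linarith only [a3], by norm_num; linarith only [a4]⟩
    ⟨by norm_num; linarith only [a5], by norm_num; linarith only [a6]⟩ ⟨by norm_num; linarith only [a7], by norm_num; linarith only [a8]⟩
  rw [abs_of_nonpos (by linarith only [a4])]
  unfold SW
  push_cast at h
  linarith only [h, a3]

theorem k_c3APS : bb (tst 1 494921 0 0 0 0 2927195 0 0 0 0 0) 60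
    96000 96000 98560 102400 89600 96000 102400 102400 = true := by
  decide +kernel

theorem r_c3APS : Row 1 (-(1 / 4)) (-(1 / 4)) (-(3 / 20)) 0 (-(1 / 2)) (-(1 / 4)) 0 (-(59 / 125)) 0 0 0 0 0 (279159 / 100000) := by
  intro y v a1 a2 a3 a4 a5 a6 a7 a8
  have h := bb_sound tab_ok k_c3APS (y := y) (v := v)
    ⟨by norm_num; linarith only [a1], by norm_num; linarith only [a2]⟩ ⟨by norm_num; linarith only [a3], by norm_num; linarith only [a4]⟩
    ⟨by norm_num; linarith only [a5], by norm_num; linarith only [a6]⟩ ⟨by norm_num; linarith only [a7], by norm_num; linarith only [a8]⟩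
  rw [abs_of_nonpos (by linarith only [a4])]
  unfold SW
  push_cast at h
  linarith only [h, a3]

theorem k_c3ApF : bb (tst 1 413132 0 0 0 3294195 0 0 0 2348810 0 8388608) 60
    96000 96000 102400 106240 95232 109568 102400 104192 = true := by
  decide +kernel

theorem r_c3ApF : Row 1 (-(1 / 4)) (-(1 / 4)) 0 (3 / 20) (-(7 / 25)) (7 / 25) (7 / 100) (-(197 / 500)) 0 0 0 (-(56 / 25)) 8 (314159 / 100000) := by
  intro y v a1 a2 a3 a4 a5 a6 a7 a8
  have h := bb_sound tab_ok k_c3ApF (y := y) (v := v)
    ⟨by norm_num; linarith only [a1], by norm_num; linarith only [a2]⟩ ⟨by norm_num; linarith only [a3], by norm_num; linarith only [a4]⟩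
    ⟨by norm_num; linarith only [a5], by norm_num; linarith only [a6]⟩ ⟨by norm_num; linarith only [a7], by norm_num; linarith only [a8]⟩
  rw [abs_of_nonneg (by linarith only [a3])]
  unfold SW
  push_cast at h
  linarith only [h, a7, a3]

theorem k_c3ApV : bb (tst 1 413132 0 0 0 3294195 0 0 0 0 0 0) 60
    96000 96000 102400 106240 109568 109568 102400 104192 = true := by
  decide +kernel

theorem r_c3ApV : Row 1 (-(1 / 4)) (-(1 / 4)) 0 (3 / 20) (7 / 25) (7 / 25) (7 / 100) (-(197 / 500)) 0 0 0 0 0 (314159 / 100000) := by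
  intro y v a1 a2 a3 a4 a5 a6 a7 a8
  have h := bb_sound tab_ok k_c3ApV (y := y) (v := v)
    ⟨by norm_num; linarith only [a1], by norm_num; linarith only [a2]⟩ ⟨by norm_num; linarith only [a3], by norm_num; linarith only [a4]⟩
    ⟨by norm_num; linarith only [a5], by norm_num; linarith only [a6]⟩ ⟨by norm_num; linarith only [a7], by norm_num; linarith only [a8]⟩
  rw [abs_of_nonneg (by linarith only [a3])]
  unfold SW
  push_cast at h
  linarith only [h, a3]

theorem k_c3ApW : bb (tst 1 413132 0 0 0 3294195 0 0 0 4697620 0 0) 60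
    96000 96000 102400 106240 95232 95232 102400 104192 = true := by
  decide +kernel

theorem r_c3ApW : Row 1 (-(1 / 4)) (-(1 / 4)) 0 (3 / 20) (-(7 / 25)) (-(7 / 25)) (7 / 100) (-(197 / 500)) 0 0 0 (-(112 / 25)) 0 (314159 / 100000) := by
  intro y v a1 a2 a3 a4 a5 a6 a7 a8
  have h := bb_sound tab_ok k_c3ApW (y := y) (v := v)
    ⟨by norm_num; linarith only [a1], by norm_num; linarith only [a2]⟩ ⟨by norm_num; linarith only [a3], by norm_num; linarith only [a4]⟩
    ⟨by norm_num; linarith only [a5], by norm_num; linarith only [a6]⟩ ⟨by norm_num; linarith only [a7], by norm_num; linarith only [a8]⟩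
  rw [abs_of_nonneg (by linarith only [a3])]
  unfold SW
  push_cast at h
  linarith only [h, a7, a3]

theorem k_c3ApR : bb (tst 1 494921 0 0 0 3294195 0 0 0 0 0 0) 60
    96000 96000 102400 106240 108800 115200 102400 102400 = true := by
  decide +kernel

theorem r_c3ApR : Row 1 (-(1 / 4)) (-(1 / 4)) 0 (3 / 20) (1 / 4) (1 / 2) 0 (-(59 / 125)) 0 0 0 0 0 (314159 / 100000) := by
  intro y v a1 a2 a3 a4 a5 a6 a7 a8
  have h := bb_sound tab_ok k_c3ApR (y := y) (v := v)
    ⟨by norm_num; linarith only [a1], by norm_num; linarith only [a2]⟩ ⟨by norm_num; linarith only [a3], by norm_num; linarith only [a4]⟩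
    ⟨by norm_num; linarith only [a5], by norm_num; linarith only [a6]⟩ ⟨by norm_num; linarith only [a7], by norm_num; linarith only [a8]⟩
  rw [abs_of_nonneg (by linarith only [a3])]
  unfold SW
  push_cast at h
  linarith only [h, a3]

theorem k_c3ApS : bb (tst 1 494921 0 0 0 3294195 0 0 0 0 0 0) 60
    96000 96000 102400 106240 89600 96000 102400 102400 = true := by
  decide +kernel

theorem r_c3ApS : Row 1 (-(1 / 4)) (-(1 / 4)) 0 (3 / 20) (-(1 / 2)) (-(1 / 4)) 0 (-(59 / 125)) 0 0 0 0 0 (314159 / 100000) := by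
  intro y v a1 a2 a3 a4 a5 a6 a7 a8
  have h := bb_sound tab_ok k_c3ApS (y := y) (v := v)
    ⟨by norm_num; linarith only [a1], by norm_num; linarith only [a2]⟩ ⟨by norm_num; linarith only [a3], by norm_num; linarith only [a4]⟩
    ⟨by norm_num; linarith only [a5], by norm_num; linarith only [a6]⟩ ⟨by norm_num; linarith only [a7], by norm_num; linarith only [a8]⟩
  rw [abs_of_nonneg (by linarith only [a3])]
  unfold SW
  push_cast at h
  linarith only [h, a3]

theorem k_c3ALF : bb (tst 1 413132 0 0 0 0 0 0 0 2348810 0 8388608) 60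
    96000 96000 100864 102400 95232 109568 102400 104192 = true := by
  decide +kernel

theorem r_c3ALF : Row 1 (-(1 / 4)) (-(1 / 4)) (-(3 / 50)) 0 (-(7 / 25)) (7 / 25) (7 / 100) (-(197 / 500)) 0 0 0 (-(56 / 25)) 8 0 := by
  intro y v a1 a2 a3 a4 a5 a6 a7 a8
  have h := bb_sound tab_ok k_c3ALF (y := y) (v := v)
    ⟨by norm_num; linarith only [a1], by norm_num; linarith only [a2]⟩ ⟨by norm_num; linarith only [a3], by norm_num; linarith only [a4]⟩
    ⟨by norm_num; linarith only [a5], by norm_num; linarith only [a6]⟩ ⟨by norm_num; linarith only [a7], by norm_num; linarith only [a8]⟩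
  rw [abs_of_nonpos (by linarith only [a4])]
  unfold SW
  push_cast at h
  linarith only [h, a7]

theorem k_c3ALV : bb (tst 1 413132 0 0 0 0 0 0 0 0 0 0) 60
    96000 96000 100864 102400 109568 109568 102400 104192 = true := by
  decide +kernel

theorem r_c3ALV : Row 1 (-(1 / 4)) (-(1 / 4)) (-(3 / 50)) 0 (7 / 25) (7 / 25) (7 / 100) (-(197 / 500)) 0 0 0 0 0 0 := by
  intro y v a1 a2 a3 a4 a5 a6 a7 a8
  have h := bb_sound tab_ok k_c3ALV (y := y) (v := v)
    ⟨by norm_num; linarith only [a1], by norm_num; linarith only [a2]⟩ ⟨by norm_num; linarith only [a3], by norm_num; linarith only [a4]⟩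
    ⟨by norm_num; linarith only [a5], by norm_num; linarith only [a6]⟩ ⟨by norm_num; linarith only [a7], by norm_num; linarith only [a8]⟩
  rw [abs_of_nonpos (by linarith only [a4])]
  unfold SW
  push_cast at h
  linarith only [h]

theorem k_c3ALW : bb (tst 1 413132 0 0 0 0 0 0 0 4697620 0 0) 60
    96000 96000 100864 102400 95232 95232 102400 104192 = true := by
  decide +kernel

theorem r_c3ALW : Row 1 (-(1 / 4)) (-(1 / 4)) (-(3 / 50)) 0 (-(7 / 25)) (-(7 / 25)) (7 / 100) (-(197 / 500)) 0 0 0 (-(112 / 25)) 0 0 := by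
  intro y v a1 a2 a3 a4 a5 a6 a7 a8
  have h := bb_sound tab_ok k_c3ALW (y := y) (v := v)
    ⟨by norm_num; linarith only [a1], by norm_num; linarith only [a2]⟩ ⟨by norm_num; linarith only [a3], by norm_num; linarith only [a4]⟩
    ⟨by norm_num; linarith only [a5], by norm_num; linarith only [a6]⟩ ⟨by norm_num; linarith only [a7], by norm_num; linarith only [a8]⟩
  rw [abs_of_nonpos (by linarith only [a4])]
  unfold SW
  push_cast at h
  linarith only [h, a7]

theorem k_c3ALR : bb (tst 1 494921 0 0 0 0 0 0 0 0 0 0) 60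
    96000 96000 100864 102400 108800 115200 102400 102400 = true := by
  decide +kernel

theorem r_c3ALR : Row 1 (-(1 / 4)) (-(1 / 4)) (-(3 / 50)) 0 (1 / 4) (1 / 2) 0 (-(59 / 125)) 0 0 0 0 0 0 := by
  intro y v a1 a2 a3 a4 a5 a6 a7 a8
  have h := bb_sound tab_ok k_c3ALR (y := y) (v := v)
    ⟨by norm_num; linarith only [a1], by norm_num; linarith only [a2]⟩ ⟨by norm_num; linarith only [a3], by norm_num; linarith only [a4]⟩
    ⟨by norm_num; linarith only [a5], by norm_num; linarith only [a6]⟩ ⟨by norm_num; linarith only [a7], by norm_num; linarith only [a8]⟩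
  rw [abs_of_nonpos (by linarith only [a4])]
  unfold SW
  push_cast at h
  linarith only [h]

theorem k_c3ALS : bb (tst 1 494921 0 0 0 0 0 0 0 0 0 0) 60
    96000 96000 100864 102400 89600 96000 102400 102400 = true := by
  decide +kernel

theorem r_c3ALS : Row 1 (-(1 / 4)) (-(1 / 4)) (-(3 / 50)) 0 (-(1 / 2)) (-(1 / 4)) 0 (-(59 / 125)) 0 0 0 0 0 0 := by
  intro y v a1 a2 a3 a4 a5 a6 a7 a8
  have h := bb_sound tab_ok k_c3ALS (y := y) (v := v)
    ⟨by norm_num; linarith only [a1], by norm_num; linarith only [a2]⟩ ⟨by norm_num; linarith only [a3], by norm_num; linarith only [a4]⟩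
    ⟨by norm_num; linarith only [a5], by norm_num; linarith only [a6]⟩ ⟨by norm_num; linarith only [a7], by norm_num; linarith only [a8]⟩
  rw [abs_of_nonpos (by linarith only [a4])]
  unfold SW
  push_cast at h
  linarith only [h]

theorem k_c3AHN : bb (tst 1 540010 0 0 629146 0 1048576 0 0 1048576 0 8388608) 60
    102400 106240 100864 101786 95232 102400 102400 104192 = true := by
  decide +kernel

theorem r_c3AHN : Row 1 0 (3 / 20) (-(3 / 50)) (-(3 / 125)) (-(7 / 25)) 0 (7 / 100) (-(103 / 200)) (3 / 5) 0 1 (-1) 8 0 := by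
  intro y v a1 a2 a3 a4 a5 a6 a7 a8
  have h := bb_sound tab_ok k_c3AHN (y := y) (v := v)
    ⟨by norm_num; linarith only [a1], by norm_num; linarith only [a2]⟩ ⟨by norm_num; linarith only [a3], by norm_num; linarith only [a4]⟩
    ⟨by norm_num; linarith only [a5], by norm_num; linarith only [a6]⟩ ⟨by norm_num; linarith only [a7], by norm_num; linarith only [a8]⟩
  rw [abs_of_nonpos (by linarith only [a4])]
  unfold SW
  push_cast at h
  linarith only [h, a1]

theorem k_c3AHA0 : bb (tst 1 523810 0 0 521143 0 1048576 0 528483 1048576 0 0) 60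
    102400 106240 100864 101786 102400 105984 102400 104192 = true := by
  decide +kernel

theorem r_c3AHA0 : Row 1 0 (3 / 20) (-(3 / 50)) (-(3 / 125)) 0 (7 / 50) (7 / 100) (-(9991 / 20000)) (497 / 1000) (63 / 125) 1 (-1) 0 0 := by
  intro y v a1 a2 a3 a4 a5 a6 a7 a8
  have h := bb_sound tab_ok k_c3AHA0 (y := y) (v := v)
    ⟨by norm_num; linarith only [a1], by norm_num; linarith only [a2]⟩ ⟨by norm_num; linarith only [a3], by norm_num; linarith only [a4]⟩
    ⟨by norm_num; linarith only [a5], by norm_num; linarith only [a6]⟩ ⟨by norm_num; linarith only [a7], by norm_num; linarith only [a8]⟩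
  rw [abs_of_nonpos (by linarith only [a4])]
  unfold SW
  push_cast at h
  linarith only [h, a5, a1]

theorem k_c3AHA1 : bb (tst 1 558895 0 0 485491 0 1048576 0 816841 1048576 0 0) 60
    102400 106240 100864 101786 105984 109568 102400 104192 = true := by
  decide +kernel

theorem r_c3AHA1 : Row 1 0 (3 / 20) (-(3 / 50)) (-(3 / 125)) (7 / 50) (7 / 25) (7 / 100) (-(53301 / 100000)) (463 / 1000) (779 / 1000) 1 (-1) 0 0 := by
  intro y v a1 a2 a3 a4 a5 a6 a7 a8
  have h := bb_sound tab_ok k_c3AHA1 (y := y) (v := v)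
    ⟨by norm_num; linarith only [a1], by norm_num; linarith only [a2]⟩ ⟨by norm_num; linarith only [a3], by norm_num; linarith only [a4]⟩
    ⟨by norm_num; linarith only [a5], by norm_num; linarith only [a6]⟩ ⟨by norm_num; linarith only [a7], by norm_num; linarith only [a8]⟩
  rw [abs_of_nonpos (by linarith only [a4])]
  unfold SW
  push_cast at h
  linarith only [h, a5, a1]

theorem k_c3AHV : bb (tst 1 330243 0 0 485491 0 1048576 0 0 1048576 0 0) 60
    102400 106240 100864 101786 109568 109568 102400 104192 = true := by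
  decide +kernel

theorem r_c3AHV : Row 1 0 (3 / 20) (-(3 / 50)) (-(3 / 125)) (7 / 25) (7 / 25) (7 / 100) (-(6299 / 20000)) (463 / 1000) 0 1 (-1) 0 0 := by
  intro y v a1 a2 a3 a4 a5 a6 a7 a8
  have h := bb_sound tab_ok k_c3AHV (y := y) (v := v)
    ⟨by norm_num; linarith only [a1], by norm_num; linarith only [a2]⟩ ⟨by norm_num; linarith only [a3], by norm_num; linarith only [a4]⟩
    ⟨by norm_num; linarith only [a5], by norm_num; linarith only [a6]⟩ ⟨by norm_num; linarith only [a7], by norm_num; linarith only [a8]⟩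
  rw [abs_of_nonpos (by linarith only [a4])]
  unfold SW
  push_cast at h
  linarith only [h, a1]

theorem k_c3AHW : bb (tst 1 444590 0 0 468714 0 0 0 0 3397386 0 0) 60
    102400 106240 100864 101786 95232 95232 102400 104192 = true := by
  decide +kernel

theorem r_c3AHW : Row 1 0 (3 / 20) (-(3 / 50)) (-(3 / 125)) (-(7 / 25)) (-(7 / 25)) (7 / 100) (-(53 / 125)) (447 / 1000) 0 0 (-(81 / 25)) 0 0 := by
  intro y v a1 a2 a3 a4 a5 a6 a7 a8
  have h := bb_sound tab_ok k_c3AHW (y := y) (v := v)
    ⟨by norm_num; linarith only [a1], by norm_num; linarith only [a2]⟩ ⟨by norm_num; linarith only [a3], by norm_num; linarith only [a4]⟩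
    ⟨by norm_num; linarith only [a5], by norm_num; linarith only [a6]⟩ ⟨by norm_num; linarith only [a7], by norm_num; linarith only [a8]⟩
  rw [abs_of_nonpos (by linarith only [a4])]
  unfold SW
  push_cast at h
  linarith only [h, a7, a1]

theorem k_c3AHR : bb (tst 1 444590 0 0 468714 0 0 0 0 0 0 0) 60
    102400 106240 100864 101786 108800 115200 102400 102400 = true := by
  decide +kernel

theorem r_c3AHR : Row 1 0 (3 / 20) (-(3 / 50)) (-(3 / 125)) (1 / 4) (1 / 2) 0 (-(53 / 125)) (447 / 1000) 0 0 0 0 0 := by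
  intro y v a1 a2 a3 a4 a5 a6 a7 a8
  have h := bb_sound tab_ok k_c3AHR (y := y) (v := v)
    ⟨by norm_num; linarith only [a1], by norm_num; linarith only [a2]⟩ ⟨by norm_num; linarith only [a3], by norm_num; linarith only [a4]⟩
    ⟨by norm_num; linarith only [a5], by norm_num; linarith only [a6]⟩ ⟨by norm_num; linarith only [a7], by norm_num; linarith only [a8]⟩
  rw [abs_of_nonpos (by linarith only [a4])]
  unfold SW
  push_cast at h
  linarith only [h, a1]

theorem k_c3AHS : bb (tst 1 444590 0 0 468714 0 0 0 0 0 0 0) 60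
    102400 106240 100864 101786 89600 96000 102400 102400 = true := by
  decide +kernel

theorem r_c3AHS : Row 1 0 (3 / 20) (-(3 / 50)) (-(3 / 125)) (-(1 / 2)) (-(1 / 4)) 0 (-(53 / 125)) (447 / 1000) 0 0 0 0 0 := by
  intro y v a1 a2 a3 a4 a5 a6 a7 a8
  have h := bb_sound tab_ok k_c3AHS (y := y) (v := v)
    ⟨by norm_num; linarith only [a1], by norm_num; linarith only [a2]⟩ ⟨by norm_num; linarith only [a3], by norm_num; linarith only [a4]⟩
    ⟨by norm_num; linarith only [a5], by norm_num; linarith only [a6]⟩ ⟨by norm_num; linarith only [a7], by norm_num; linarith only [a8]⟩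
  rw [abs_of_nonpos (by linarith only [a4])]
  unfold SW
  push_cast at h
  linarith only [h, a1]

theorem k_c3AGN : bb (tst 1 326101 0 0 599786 0 2621440 0 0 2097152 0 8388608) 60
    96000 102400 100864 101786 95232 102400 102400 104192 = true := by
  decide +kernel

theorem r_c3AGN : Row 1 (-(1 / 4)) 0 (-(3 / 50)) (-(3 / 125)) (-(7 / 25)) 0 (7 / 100) (-(311 / 1000)) (143 / 250) 0 (5 / 2) (-2) 8 0 := by
  intro y v a1 a2 a3 a4 a5 a6 a7 a8
  have h := bb_sound tab_ok k_c3AGN (y := y) (v := v)
    ⟨by norm_num; linarith only [a1], by norm_num; linarith only [a2]⟩ ⟨by norm_num; linarith only [a3], by norm_num; linarith only [a4]⟩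
    ⟨by norm_num; linarith only [a5], by norm_num; linarith only [a6]⟩ ⟨by norm_num; linarith only [a7], by norm_num; linarith only [a8]⟩
  rw [abs_of_nonpos (by linarith only [a4])]
  unfold SW
  push_cast at h
  linarith only [h, a1]

theorem k_c3AGA0 : bb (tst 1 325975 0 0 570426 0 2621440 0 624952 2097152 0 0) 60
    96000 102400 100864 101786 102400 109568 102400 104192 = true := by
  decide +kernel

theorem r_c3AGA0 : Row 1 (-(1 / 4)) 0 (-(3 / 50)) (-(3 / 125)) 0 (7 / 25) (7 / 100) (-(1943 / 6250)) (68 / 125) (149 / 250) (5 / 2) (-2) 0 0 := by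
  intro y v a1 a2 a3 a4 a5 a6 a7 a8
  have h := bb_sound tab_ok k_c3AGA0 (y := y) (v := v)
    ⟨by norm_num; linarith only [a1], by norm_num; linarith only [a2]⟩ ⟨by norm_num; linarith only [a3], by norm_num; linarith only [a4]⟩
    ⟨by norm_num; linarith only [a5], by norm_num; linarith only [a6]⟩ ⟨by norm_num; linarith only [a7], by norm_num; linarith only [a8]⟩
  rw [abs_of_nonpos (by linarith only [a4])]
  unfold SW
  push_cast at h
  linarith only [h, a5, a1]

theorem k_c3AGV : bb (tst 1 150988 0 0 570426 0 2621440 0 0 2097152 0 0) 60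
    96000 102400 100864 101786 109568 109568 102400 104192 = true := by
  decide +kernel

theorem r_c3AGV : Row 1 (-(1 / 4)) 0 (-(3 / 50)) (-(3 / 125)) (7 / 25) (7 / 25) (7 / 100) (-(18 / 125)) (68 / 125) 0 (5 / 2) (-2) 0 0 := by
  intro y v a1 a2 a3 a4 a5 a6 a7 a8
  have h := bb_sound tab_ok k_c3AGV (y := y) (v := v)
    ⟨by norm_num; linarith only [a1], by norm_num; linarith only [a2]⟩ ⟨by norm_num; linarith only [a3], by norm_num; linarith only [a4]⟩
    ⟨by norm_num; linarith only [a5], by norm_num; linarith only [a6]⟩ ⟨by norm_num; linarith only [a7], by norm_num; linarith only [a8]⟩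
  rw [abs_of_nonpos (by linarith only [a4])]
  unfold SW
  push_cast at h
  linarith only [h, a1]

theorem k_c3AGW : bb (tst 1 389015 0 0 469763 0 0 0 0 4445962 0 0) 60
    96000 102400 100864 101786 95232 95232 102400 104192 = true := by
  decide +kernel

theorem r_c3AGW : Row 1 (-(1 / 4)) 0 (-(3 / 50)) (-(3 / 125)) (-(7 / 25)) (-(7 / 25)) (7 / 100) (-(371 / 1000)) (56 / 125) 0 0 (-(106 / 25)) 0 0 := by
  intro y v a1 a2 a3 a4 a5 a6 a7 a8
  have h := bb_sound tab_ok k_c3AGW (y := y) (v := v)
    ⟨by norm_num; linarith only [a1], by norm_num; linarith only [a2]⟩ ⟨by norm_num; linarith only [a3], by norm_num; linarith only [a4]⟩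
    ⟨by norm_num; linarith only [a5], by norm_num; linarith only [a6]⟩ ⟨by norm_num; linarith only [a7], by norm_num; linarith only [a8]⟩
  rw [abs_of_nonpos (by linarith only [a4])]
  unfold SW
  push_cast at h
  linarith only [h, a7, a1]

theorem k_c3AGR : bb (tst 1 392161 0 0 457180 0 0 0 0 0 0 0) 60
    96000 102400 100864 101786 108800 115200 102400 102400 = true := by
  decide +kernel

theorem r_c3AGR : Row 1 (-(1 / 4)) 0 (-(3 / 50)) (-(3 / 125)) (1 / 4) (1 / 2) 0 (-(187 / 500)) (109 / 250) 0 0 0 0 0 := by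
  intro y v a1 a2 a3 a4 a5 a6 a7 a8
  have h := bb_sound tab_ok k_c3AGR (y := y) (v := v)
    ⟨by norm_num; linarith only [a1], by norm_num; linarith only [a2]⟩ ⟨by norm_num; linarith only [a3], by norm_num; linarith only [a4]⟩
    ⟨by norm_num; linarith only [a5], by norm_num; linarith only [a6]⟩ ⟨by norm_num; linarith only [a7], by norm_num; linarith only [a8]⟩
  rw [abs_of_nonpos (by linarith only [a4])]
  unfold SW
  push_cast at h
  linarith only [h, a1]

theorem k_c3AGS : bb (tst 1 392161 0 0 457180 0 0 0 0 0 0 0) 60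
    96000 102400 100864 101786 89600 96000 102400 102400 = true := by
  decide +kernel

theorem r_c3AGS : Row 1 (-(1 / 4)) 0 (-(3 / 50)) (-(3 / 125)) (-(1 / 2)) (-(1 / 4)) 0 (-(187 / 500)) (109 / 250) 0 0 0 0 0 := by
  intro y v a1 a2 a3 a4 a5 a6 a7 a8
  have h := bb_sound tab_ok k_c3AGS (y := y) (v := v)
    ⟨by norm_num; linarith only [a1], by norm_num; linarith only [a2]⟩ ⟨by norm_num; linarith only [a3], by norm_num; linarith only [a4]⟩
    ⟨by norm_num; linarith only [a5], by norm_num; linarith only [a6]⟩ ⟨by norm_num; linarith only [a7], by norm_num; linarith only [a8]⟩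
  rw [abs_of_nonpos (by linarith only [a4])]
  unfold SW
  push_cast at h
  linarith only [h, a1]

end VQ

end Pool.Agent.S5
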