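import Pool.Agent.S5.I.VQa
import Pool.Agent.S5.I.TsK

/-!
# The payments of the open nodes: parameter-free inequalities
-/

set_option autoImplicit false

namespace Pool.Agent.S5

open Pool.Agent.H63.VC3 Pool.Agent.S3 Complex Tb

namespace VQ

theorem k_c3StaF : bb (tst 2 411035 0 0 356516 0 3294196 0 0 2348810 0 8388608) 60
    102400 110080 98560 98560 95232 109568 102400 104448 = true := by
  decide +kernel

theorem r_c3StaF : Row 2 0 (3 / 10) (-(3 / 20)) (-(3 / 20)) (-(7 / 25)) (7 / 25) (2 / 25) (-(49 / 125)) (17 / 50) 0 0 (-(56 / 25)) 8 (314159 / 100000) := by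
  intro y v a1 a2 a3 a4 a5 a6 a7 a8
  have h := bb_sound tab_ok k_c3StaF (y := y) (v := v)
    ⟨by norm_num; linarith only [a1], by norm_num; linarith only [a2]⟩ ⟨by norm_num; linarith only [a3], by norm_num; linarith only [a4]⟩
    ⟨by norm_num; linarith only [a5], by norm_num; linarith only [a6]⟩ ⟨by norm_num; linarith only [a7], by norm_num; linarith only [a8]⟩
  rw [abs_of_nonpos (by linarith only [a4])]
  unfold SW
  push_cast at h
  linarith only [h, a7, a3, a1]

theorem k_c3StaV : bb (tst 2 411035 0 0 356516 0 3294196 0 0 0 0 0) 60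
    102400 110080 98560 98560 109568 109568 102400 104448 = true := by
  decide +kernel

theorem r_c3StaV : Row 2 0 (3 / 10) (-(3 / 20)) (-(3 / 20)) (7 / 25) (7 / 25) (2 / 25) (-(49 / 125)) (17 / 50) 0 0 0 0 (314159 / 100000) := by
  intro y v a1 a2 a3 a4 a5 a6 a7 a8
  have h := bb_sound tab_ok k_c3StaV (y := y) (v := v)
    ⟨by norm_num; linarith only [a1], by norm_num; linarith only [a2]⟩ ⟨by norm_num; linarith only [a3], by norm_num; linarith only [a4]⟩
    ⟨by norm_num; linarith only [a5], by norm_num; linarith only [a6]⟩ ⟨by norm_num; linarith only [a7], by norm_num; linarith only [a8]⟩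
  rw [abs_of_nonpos (by linarith only [a4])]
  unfold SW
  push_cast at h
  linarith only [h, a3, a1]

theorem k_c3StaW : bb (tst 2 411035 0 0 356516 0 3294196 0 0 4697620 0 0) 60
    102400 110080 98560 98560 95232 95232 102400 104448 = true := by
  decide +kernel

theorem r_c3StaW : Row 2 0 (3 / 10) (-(3 / 20)) (-(3 / 20)) (-(7 / 25)) (-(7 / 25)) (2 / 25) (-(49 / 125)) (17 / 50) 0 0 (-(112 / 25)) 0 (314159 / 100000) := by
  intro y v a1 a2 a3 a4 a5 a6 a7 a8
  have h := bb_sound tab_ok k_c3StaW (y := y) (v := v)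
    ⟨by norm_num; linarith only [a1], by norm_num; linarith only [a2]⟩ ⟨by norm_num; linarith only [a3], by norm_num; linarith only [a4]⟩
    ⟨by norm_num; linarith only [a5], by norm_num; linarith only [a6]⟩ ⟨by norm_num; linarith only [a7], by norm_num; linarith only [a8]⟩
  rw [abs_of_nonpos (by linarith only [a4])]
  unfold SW
  push_cast at h
  linarith only [h, a7, a3, a1]

theorem k_c3StaR : bb (tst 2 479193 0 0 356516 0 3294196 0 0 0 0 0) 60
    102400 110080 98560 98560 108800 115200 102400 102400 = true := by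
  decide +kernel

theorem r_c3StaR : Row 2 0 (3 / 10) (-(3 / 20)) (-(3 / 20)) (1 / 4) (1 / 2) 0 (-(457 / 1000)) (17 / 50) 0 0 0 0 (314159 / 100000) := by
  intro y v a1 a2 a3 a4 a5 a6 a7 a8
  have h := bb_sound tab_ok k_c3StaR (y := y) (v := v)
    ⟨by norm_num; linarith only [a1], by norm_num; linarith only [a2]⟩ ⟨by norm_num; linarith only [a3], by norm_num; linarith only [a4]⟩
    ⟨by norm_num; linarith only [a5], by norm_num; linarith only [a6]⟩ ⟨by norm_num; linarith only [a7], by norm_num; linarith only [a8]⟩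
  rw [abs_of_nonpos (by linarith only [a4])]
  unfold SW
  push_cast at h
  linarith only [h, a3, a1]

theorem k_c3StaS : bb (tst 2 479193 0 0 356516 0 3294196 0 0 0 0 0) 60
    102400 110080 98560 98560 89600 96000 102400 102400 = true := by
  decide +kernel

theorem r_c3StaS : Row 2 0 (3 / 10) (-(3 / 20)) (-(3 / 20)) (-(1 / 2)) (-(1 / 4)) 0 (-(457 / 1000)) (17 / 50) 0 0 0 0 (314159 / 100000) := by
  intro y v a1 a2 a3 a4 a5 a6 a7 a8
  have h := bb_sound tab_ok k_c3StaS (y := y) (v := v)
    ⟨by norm_num; linarith only [a1], by norm_num; linarith only [a2]⟩ ⟨by norm_num; linarith only [a3], by norm_num; linarith only [a4]⟩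
    ⟨by norm_num; linarith only [a5], by norm_num; linarith only [a6]⟩ ⟨by norm_num; linarith only [a7], by norm_num; linarith only [a8]⟩
  rw [abs_of_nonpos (by linarith only [a4])]
  unfold SW
  push_cast at h
  linarith only [h, a3, a1]

theorem k_c3StbF : bb (tst 2 478668 0 0 581960 0 3294196 0 0 2348810 0 8388608) 60
    110080 115200 98560 98560 95232 109568 102400 104448 = true := by
  decide +kernel

theorem r_c3StbF : Row 2 (3 / 10) (1 / 2) (-(3 / 20)) (-(3 / 20)) (-(7 / 25)) (7 / 25) (2 / 25) (-(913 / 2000)) (111 / 200) 0 0 (-(56 / 25)) 8 (314159 / 100000) := by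
  intro y v a1 a2 a3 a4 a5 a6 a7 a8
  have h := bb_sound tab_ok k_c3StbF (y := y) (v := v)
    ⟨by norm_num; linarith only [a1], by norm_num; linarith only [a2]⟩ ⟨by norm_num; linarith only [a3], by norm_num; linarith only [a4]⟩
    ⟨by norm_num; linarith only [a5], by norm_num; linarith only [a6]⟩ ⟨by norm_num; linarith only [a7], by norm_num; linarith only [a8]⟩
  rw [abs_of_nonpos (by linarith only [a4])]
  unfold SW
  push_cast at h
  linarith only [h, a7, a3, a1]

theorem k_c3StbV : bb (tst 2 478668 0 0 581960 0 3294196 0 0 0 0 0) 60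
    110080 115200 98560 98560 109568 109568 102400 104448 = true := by
  decide +kernel

theorem r_c3StbV : Row 2 (3 / 10) (1 / 2) (-(3 / 20)) (-(3 / 20)) (7 / 25) (7 / 25) (2 / 25) (-(913 / 2000)) (111 / 200) 0 0 0 0 (314159 / 100000) := by
  intro y v a1 a2 a3 a4 a5 a6 a7 a8
  have h := bb_sound tab_ok k_c3StbV (y := y) (v := v)
    ⟨by norm_num; linarith only [a1], by norm_num; linarith only [a2]⟩ ⟨by norm_num; linarith only [a3], by norm_num; linarith only [a4]⟩
    ⟨by norm_num; linarith only [a5], by norm_num; linarith only [a6]⟩ ⟨by norm_num; linarith only [a7], by norm_num; linarith only [a8]⟩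
  rw [abs_of_nonpos (by linarith only [a4])]
  unfold SW
  push_cast at h
  linarith only [h, a3, a1]

theorem k_c3StbW : bb (tst 2 478668 0 0 581960 0 3294196 0 0 4697620 0 0) 60
    110080 115200 98560 98560 95232 95232 102400 104448 = true := by
  decide +kernel

theorem r_c3StbW : Row 2 (3 / 10) (1 / 2) (-(3 / 20)) (-(3 / 20)) (-(7 / 25)) (-(7 / 25)) (2 / 25) (-(913 / 2000)) (111 / 200) 0 0 (-(112 / 25)) 0 (314159 / 100000) := by
  intro y v a1 a2 a3 a4 a5 a6 a7 a8
  have h := bb_sound tab_ok k_c3StbW (y := y) (v := v)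
    ⟨by norm_num; linarith only [a1], by norm_num; linarith only [a2]⟩ ⟨by norm_num; linarith only [a3], by norm_num; linarith only [a4]⟩
    ⟨by norm_num; linarith only [a5], by norm_num; linarith only [a6]⟩ ⟨by norm_num; linarith only [a7], by norm_num; linarith only [a8]⟩
  rw [abs_of_nonpos (by linarith only [a4])]
  unfold SW
  push_cast at h
  linarith only [h, a7, a3, a1]

theorem k_c3StbR : bb (tst 2 564127 0 0 639632 0 3294196 0 0 0 0 0) 60
    110080 115200 98560 98560 108800 115200 102400 102400 = true := by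
  decide +kernel

theorem r_c3StbR : Row 2 (3 / 10) (1 / 2) (-(3 / 20)) (-(3 / 20)) (1 / 4) (1 / 2) 0 (-(269 / 500)) (61 / 100) 0 0 0 0 (314159 / 100000) := by
  intro y v a1 a2 a3 a4 a5 a6 a7 a8
  have h := bb_sound tab_ok k_c3StbR (y := y) (v := v)
    ⟨by norm_num; linarith only [a1], by norm_num; linarith only [a2]⟩ ⟨by norm_num; linarith only [a3], by norm_num; linarith only [a4]⟩
    ⟨by norm_num; linarith only [a5], by norm_num; linarith only [a6]⟩ ⟨by norm_num; linarith only [a7], by norm_num; linarith only [a8]⟩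
  rw [abs_of_nonpos (by linarith only [a4])]
  unfold SW
  push_cast at h
  linarith only [h, a3, a1]

theorem k_c3StbS : bb (tst 2 564127 0 0 639632 0 3294196 0 0 0 0 0) 60
    110080 115200 98560 98560 89600 96000 102400 102400 = true := by
  decide +kernel

theorem r_c3StbS : Row 2 (3 / 10) (1 / 2) (-(3 / 20)) (-(3 / 20)) (-(1 / 2)) (-(1 / 4)) 0 (-(269 / 500)) (61 / 100) 0 0 0 0 (314159 / 100000) := by
  intro y v a1 a2 a3 a4 a5 a6 a7 a8
  have h := bb_sound tab_ok k_c3StbS (y := y) (v := v)
    ⟨by norm_num; linarith only [a1], by norm_num; linarith only [a2]⟩ ⟨by norm_num; linarith only [a3], by norm_num; linarith only [a4]⟩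
    ⟨by norm_num; linarith only [a5], by norm_num; linarith only [a6]⟩ ⟨by norm_num; linarith only [a7], by norm_num; linarith only [a8]⟩
  rw [abs_of_nonpos (by linarith only [a4])]
  unfold SW
  push_cast at h
  linarith only [h, a3, a1]

theorem k_c3SUF : bb (tst 1 330295 0 0 394265 2895736 0 0 0 2348810 0 8388608) 60
    96000 102400 106240 106240 95232 109568 102400 104448 = true := by
  decide +kernel

theorem r_c3SUF : Row 1 (-(1 / 4)) 0 (3 / 20) (3 / 20) (-(7 / 25)) (7 / 25) (2 / 25) (-(63 / 200)) (47 / 125) 0 0 (-(56 / 25)) 8 (276159 / 100000) := by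
  intro y v a1 a2 a3 a4 a5 a6 a7 a8
  have h := bb_sound tab_ok k_c3SUF (y := y) (v := v)
    ⟨by norm_num; linarith only [a1], by norm_num; linarith only [a2]⟩ ⟨by norm_num; linarith only [a3], by norm_num; linarith only [a4]⟩
    ⟨by norm_num; linarith only [a5], by norm_num; linarith only [a6]⟩ ⟨by norm_num; linarith only [a7], by norm_num; linarith only [a8]⟩
  rw [abs_of_nonneg (by linarith only [a3])]
  unfold SW
  push_cast at h
  linarith only [h, a7, a3, a1]

theorem k_c3SUV : bb (tst 1 330295 0 0 394265 2895736 0 0 0 0 0 0) 60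
    96000 102400 106240 106240 109568 109568 102400 104448 = true := by
  decide +kernel

theorem r_c3SUV : Row 1 (-(1 / 4)) 0 (3 / 20) (3 / 20) (7 / 25) (7 / 25) (2 / 25) (-(63 / 200)) (47 / 125) 0 0 0 0 (276159 / 100000) := by
  intro y v a1 a2 a3 a4 a5 a6 a7 a8
  have h := bb_sound tab_ok k_c3SUV (y := y) (v := v)
    ⟨by norm_num; linarith only [a1], by norm_num; linarith only [a2]⟩ ⟨by norm_num; linarith only [a3], by norm_num; linarith only [a4]⟩
    ⟨by norm_num; linarith only [a5], by norm_num; linarith only [a6]⟩ ⟨by norm_num; linarith only [a7], by norm_num; linarith only [a8]⟩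
  rw [abs_of_nonneg (by linarith only [a3])]
  unfold SW
  push_cast at h
  linarith only [h, a3, a1]

theorem k_c3SUW : bb (tst 1 330295 0 0 394265 2895736 0 0 0 4697620 0 0) 60
    96000 102400 106240 106240 95232 95232 102400 104448 = true := by
  decide +kernel

theorem r_c3SUW : Row 1 (-(1 / 4)) 0 (3 / 20) (3 / 20) (-(7 / 25)) (-(7 / 25)) (2 / 25) (-(63 / 200)) (47 / 125) 0 0 (-(112 / 25)) 0 (276159 / 100000) := by
  intro y v a1 a2 a3 a4 a5 a6 a7 a8
  have h := bb_sound tab_ok k_c3SUW (y := y) (v := v)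
    ⟨by norm_num; linarith only [a1], by norm_num; linarith only [a2]⟩ ⟨by norm_num; linarith only [a3], by norm_num; linarith only [a4]⟩
    ⟨by norm_num; linarith only [a5], by norm_num; linarith only [a6]⟩ ⟨by norm_num; linarith only [a7], by norm_num; linarith only [a8]⟩
  rw [abs_of_nonneg (by linarith only [a3])]
  unfold SW
  push_cast at h
  linarith only [h, a7, a3, a1]

theorem k_c3SUR : bb (tst 1 402647 0 0 402654 2895736 0 0 0 0 0 0) 60
    96000 102400 106240 106240 108800 115200 102400 102400 = true := by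
  decide +kernel

theorem r_c3SUR : Row 1 (-(1 / 4)) 0 (3 / 20) (3 / 20) (1 / 4) (1 / 2) 0 (-(48 / 125)) (48 / 125) 0 0 0 0 (276159 / 100000) := by
  intro y v a1 a2 a3 a4 a5 a6 a7 a8
  have h := bb_sound tab_ok k_c3SUR (y := y) (v := v)
    ⟨by norm_num; linarith only [a1], by norm_num; linarith only [a2]⟩ ⟨by norm_num; linarith only [a3], by norm_num; linarith only [a4]⟩
    ⟨by norm_num; linarith only [a5], by norm_num; linarith only [a6]⟩ ⟨by norm_num; linarith only [a7], by norm_num; linarith only [a8]⟩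
  rw [abs_of_nonneg (by linarith only [a3])]
  unfold SW
  push_cast at h
  linarith only [h, a3, a1]

theorem k_c3SUS : bb (tst 1 402647 0 0 402654 2895736 0 0 0 0 0 0) 60
    96000 102400 106240 106240 89600 96000 102400 102400 = true := by
  decide +kernel

theorem r_c3SUS : Row 1 (-(1 / 4)) 0 (3 / 20) (3 / 20) (-(1 / 2)) (-(1 / 4)) 0 (-(48 / 125)) (48 / 125) 0 0 0 0 (276159 / 100000) := by
  intro y v a1 a2 a3 a4 a5 a6 a7 a8
  have h := bb_sound tab_ok k_c3SUS (y := y) (v := v)
    ⟨by norm_num; linarith only [a1], by norm_num; linarith only [a2]⟩ ⟨by norm_num; linarith only [a3], by norm_num; linarith only [a4]⟩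
    ⟨by norm_num; linarith only [a5], by norm_num; linarith only [a6]⟩ ⟨by norm_num; linarith only [a7], by norm_num; linarith only [a8]⟩
  rw [abs_of_nonneg (by linarith only [a3])]
  unfold SW
  push_cast at h
  linarith only [h, a3, a1]

theorem k_c3SuF : bb (tst 1 277866 0 0 394265 0 3294196 0 0 2348810 0 8388608) 60
    96000 102400 98560 98560 95232 109568 102400 104448 = true := by
  decide +kernel

theorem r_c3SuF : Row 1 (-(1 / 4)) 0 (-(3 / 20)) (-(3 / 20)) (-(7 / 25)) (7 / 25) (2 / 25) (-(53 / 200)) (47 / 125) 0 0 (-(56 / 25)) 8 (314159 / 100000) := by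
  intro y v a1 a2 a3 a4 a5 a6 a7 a8
  have h := bb_sound tab_ok k_c3SuF (y := y) (v := v)
    ⟨by norm_num; linarith only [a1], by norm_num; linarith only [a2]⟩ ⟨by norm_num; linarith only [a3], by norm_num; linarith only [a4]⟩
    ⟨by norm_num; linarith only [a5], by norm_num; linarith only [a6]⟩ ⟨by norm_num; linarith only [a7], by norm_num; linarith only [a8]⟩
  rw [abs_of_nonpos (by linarith only [a4])]
  unfold SW
  push_cast at h
  linarith only [h, a7, a3, a1]

theorem k_c3SuV : bb (tst 1 277866 0 0 394265 0 3294196 0 0 0 0 0) 60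
    96000 102400 98560 98560 109568 109568 102400 104448 = true := by
  decide +kernel

theorem r_c3SuV : Row 1 (-(1 / 4)) 0 (-(3 / 20)) (-(3 / 20)) (7 / 25) (7 / 25) (2 / 25) (-(53 / 200)) (47 / 125) 0 0 0 0 (314159 / 100000) := by
  intro y v a1 a2 a3 a4 a5 a6 a7 a8
  have h := bb_sound tab_ok k_c3SuV (y := y) (v := v)
    ⟨by norm_num; linarith only [a1], by norm_num; linarith only [a2]⟩ ⟨by norm_num; linarith only [a3], by norm_num; linarith only [a4]⟩
    ⟨by norm_num; linarith only [a5], by norm_num; linarith only [a6]⟩ ⟨by norm_num; linarith only [a7], by norm_num; linarith only [a8]⟩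
  rw [abs_of_nonpos (by linarith only [a4])]
  unfold SW
  push_cast at h
  linarith only [h, a3, a1]

theorem k_c3SuW : bb (tst 1 277866 0 0 394265 0 3294196 0 0 4697620 0 0) 60
    96000 102400 98560 98560 95232 95232 102400 104448 = true := by
  decide +kernel

theorem r_c3SuW : Row 1 (-(1 / 4)) 0 (-(3 / 20)) (-(3 / 20)) (-(7 / 25)) (-(7 / 25)) (2 / 25) (-(53 / 200)) (47 / 125) 0 0 (-(112 / 25)) 0 (314159 / 100000) := by
  intro y v a1 a2 a3 a4 a5 a6 a7 a8
  have h := bb_sound tab_ok k_c3SuW (y := y) (v := v)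
    ⟨by norm_num; linarith only [a1], by norm_num; linarith only [a2]⟩ ⟨by norm_num; linarith only [a3], by norm_num; linarith only [a4]⟩
    ⟨by norm_num; linarith only [a5], by norm_num; linarith only [a6]⟩ ⟨by norm_num; linarith only [a7], by norm_num; linarith only [a8]⟩
  rw [abs_of_nonpos (by linarith only [a4])]
  unfold SW
  push_cast at h
  linarith only [h, a7, a3, a1]

theorem k_c3SuR : bb (tst 1 350218 0 0 402654 0 3294196 0 0 0 0 0) 60
    96000 102400 98560 98560 108800 115200 102400 102400 = true := by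
  decide +kernel

theorem r_c3SuR : Row 1 (-(1 / 4)) 0 (-(3 / 20)) (-(3 / 20)) (1 / 4) (1 / 2) 0 (-(167 / 500)) (48 / 125) 0 0 0 0 (314159 / 100000) := by
  intro y v a1 a2 a3 a4 a5 a6 a7 a8
  have h := bb_sound tab_ok k_c3SuR (y := y) (v := v)
    ⟨by norm_num; linarith only [a1], by norm_num; linarith only [a2]⟩ ⟨by norm_num; linarith only [a3], by norm_num; linarith only [a4]⟩
    ⟨by norm_num; linarith only [a5], by norm_num; linarith only [a6]⟩ ⟨by norm_num; linarith only [a7], by norm_num; linarith only [a8]⟩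
  rw [abs_of_nonpos (by linarith only [a4])]
  unfold SW
  push_cast at h
  linarith only [h, a3, a1]

theorem k_c3SuS : bb (tst 1 350218 0 0 402654 0 3294196 0 0 0 0 0) 60
    96000 102400 98560 98560 89600 96000 102400 102400 = true := by
  decide +kernel

theorem r_c3SuS : Row 1 (-(1 / 4)) 0 (-(3 / 20)) (-(3 / 20)) (-(1 / 2)) (-(1 / 4)) 0 (-(167 / 500)) (48 / 125) 0 0 0 0 (314159 / 100000) := by
  intro y v a1 a2 a3 a4 a5 a6 a7 a8
  have h := bb_sound tab_ok k_c3SuS (y := y) (v := v)
    ⟨by norm_num; linarith only [a1], by norm_num; linarith only [a2]⟩ ⟨by norm_num; linarith only [a3], by norm_num; linarith only [a4]⟩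
    ⟨by norm_num; linarith only [a5], by norm_num; linarith only [a6]⟩ ⟨by norm_num; linarith only [a7], by norm_num; linarith only [a8]⟩
  rw [abs_of_nonpos (by linarith only [a4])]
  unfold SW
  push_cast at h
  linarith only [h, a3, a1]

theorem k_c3SPF : bb (tst 1 376432 0 0 0 2895736 0 0 0 2348810 0 8388608) 60
    96000 96000 102400 106240 95232 109568 102400 104448 = true := by
  decide +kernel

theorem r_c3SPF : Row 1 (-(1 / 4)) (-(1 / 4)) 0 (3 / 20) (-(7 / 25)) (7 / 25) (2 / 25) (-(359 / 1000)) 0 0 0 (-(56 / 25)) 8 (276159 / 100000) := by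
  intro y v a1 a2 a3 a4 a5 a6 a7 a8
  have h := bb_sound tab_ok k_c3SPF (y := y) (v := v)
    ⟨by norm_num; linarith only [a1], by norm_num; linarith only [a2]⟩ ⟨by norm_num; linarith only [a3], by norm_num; linarith only [a4]⟩
    ⟨by norm_num; linarith only [a5], by norm_num; linarith only [a6]⟩ ⟨by norm_num; linarith only [a7], by norm_num; linarith only [a8]⟩
  rw [abs_of_nonneg (by linarith only [a3])]
  unfold SW
  push_cast at h
  linarith only [h, a7, a3]

theorem k_c3SPV : bb (tst 1 376432 0 0 0 2895736 0 0 0 0 0 0) 60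
    96000 96000 102400 106240 109568 109568 102400 104448 = true := by
  decide +kernel

theorem r_c3SPV : Row 1 (-(1 / 4)) (-(1 / 4)) 0 (3 / 20) (7 / 25) (7 / 25) (2 / 25) (-(359 / 1000)) 0 0 0 0 0 (276159 / 100000) := by
  intro y v a1 a2 a3 a4 a5 a6 a7 a8
  have h := bb_sound tab_ok k_c3SPV (y := y) (v := v)
    ⟨by norm_num; linarith only [a1], by norm_num; linarith only [a2]⟩ ⟨by norm_num; linarith only [a3], by norm_num; linarith only [a4]⟩
    ⟨by norm_num; linarith only [a5], by norm_num; linarith only [a6]⟩ ⟨by norm_num; linarith only [a7], by norm_num; linarith only [a8]⟩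
  rw [abs_of_nonneg (by linarith only [a3])]
  unfold SW
  push_cast at h
  linarith only [h, a3]

theorem k_c3SPW : bb (tst 1 376432 0 0 0 2895736 0 0 0 4697620 0 0) 60
    96000 96000 102400 106240 95232 95232 102400 104448 = true := by
  decide +kernel

theorem r_c3SPW : Row 1 (-(1 / 4)) (-(1 / 4)) 0 (3 / 20) (-(7 / 25)) (-(7 / 25)) (2 / 25) (-(359 / 1000)) 0 0 0 (-(112 / 25)) 0 (276159 / 100000) := by
  intro y v a1 a2 a3 a4 a5 a6 a7 a8
  have h := bb_sound tab_ok k_c3SPW (y := y) (v := v)
    ⟨by norm_num; linarith only [a1], by norm_num; linarith only [a2]⟩ ⟨by norm_num; linarith only [a3], by norm_num; linarith only [a4]⟩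
    ⟨by norm_num; linarith only [a5], by norm_num; linarith only [a6]⟩ ⟨by norm_num; linarith only [a7], by norm_num; linarith only [a8]⟩
  rw [abs_of_nonneg (by linarith only [a3])]
  unfold SW
  push_cast at h
  linarith only [h, a7, a3]

theorem k_c3SPR : bb (tst 1 450881 0 0 0 2895736 0 0 0 0 0 0) 60
    96000 96000 102400 106240 108800 115200 102400 102400 = true := by
  decide +kernel

theorem r_c3SPR : Row 1 (-(1 / 4)) (-(1 / 4)) 0 (3 / 20) (1 / 4) (1 / 2) 0 (-(43 / 100)) 0 0 0 0 0 (276159 / 100000) := by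
  intro y v a1 a2 a3 a4 a5 a6 a7 a8
  have h := bb_sound tab_ok k_c3SPR (y := y) (v := v)
    ⟨by norm_num; linarith only [a1], by norm_num; linarith only [a2]⟩ ⟨by norm_num; linarith only [a3], by norm_num; linarith only [a4]⟩
    ⟨by norm_num; linarith only [a5], by norm_num; linarith only [a6]⟩ ⟨by norm_num; linarith only [a7], by norm_num; linarith only [a8]⟩
  rw [abs_of_nonneg (by linarith only [a3])]
  unfold SW
  push_cast at h
  linarith only [h, a3]

theorem k_c3SPS : bb (tst 1 450881 0 0 0 2895736 0 0 0 0 0 0) 60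
    96000 96000 102400 106240 89600 96000 102400 102400 = true := by
  decide +kernel

theorem r_c3SPS : Row 1 (-(1 / 4)) (-(1 / 4)) 0 (3 / 20) (-(1 / 2)) (-(1 / 4)) 0 (-(43 / 100)) 0 0 0 0 0 (276159 / 100000) := by
  intro y v a1 a2 a3 a4 a5 a6 a7 a8
  have h := bb_sound tab_ok k_c3SPS (y := y) (v := v)
    ⟨by norm_num; linarith only [a1], by norm_num; linarith only [a2]⟩ ⟨by norm_num; linarith only [a3], by norm_num; linarith only [a4]⟩
    ⟨by norm_num; linarith only [a5], by norm_num; linarith only [a6]⟩ ⟨by norm_num; linarith only [a7], by norm_num; linarith only [a8]⟩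
  rw [abs_of_nonneg (by linarith only [a3])]
  unfold SW
  push_cast at h
  linarith only [h, a3]

theorem k_c3SpF : bb (tst 1 376432 0 0 0 0 3294196 0 0 2348810 0 8388608) 60
    96000 96000 98560 102400 95232 109568 102400 104448 = true := by
  decide +kernel

theorem r_c3SpF : Row 1 (-(1 / 4)) (-(1 / 4)) (-(3 / 20)) 0 (-(7 / 25)) (7 / 25) (2 / 25) (-(359 / 1000)) 0 0 0 (-(56 / 25)) 8 (314159 / 100000) := by
  intro y v a1 a2 a3 a4 a5 a6 a7 a8
  have h := bb_sound tab_ok k_c3SpF (y := y) (v := v)
    ⟨by norm_num; linarith only [a1], by norm_num; linarith only [a2]⟩ ⟨by norm_num; linarith only [a3], by norm_num; linarith only [a4]⟩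
    ⟨by norm_num; linarith only [a5], by norm_num; linarith only [a6]⟩ ⟨by norm_num; linarith only [a7], by norm_num; linarith only [a8]⟩
  rw [abs_of_nonpos (by linarith only [a4])]
  unfold SW
  push_cast at h
  linarith only [h, a7, a3]

theorem k_c3SpV : bb (tst 1 376432 0 0 0 0 3294196 0 0 0 0 0) 60
    96000 96000 98560 102400 109568 109568 102400 104448 = true := by
  decide +kernel

theorem r_c3SpV : Row 1 (-(1 / 4)) (-(1 / 4)) (-(3 / 20)) 0 (7 / 25) (7 / 25) (2 / 25) (-(359 / 1000)) 0 0 0 0 0 (314159 / 100000) := by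
  intro y v a1 a2 a3 a4 a5 a6 a7 a8
  have h := bb_sound tab_ok k_c3SpV (y := y) (v := v)
    ⟨by norm_num; linarith only [a1], by norm_num; linarith only [a2]⟩ ⟨by norm_num; linarith only [a3], by norm_num; linarith only [a4]⟩
    ⟨by norm_num; linarith only [a5], by norm_num; linarith only [a6]⟩ ⟨by norm_num; linarith only [a7], by norm_num; linarith only [a8]⟩
  rw [abs_of_nonpos (by linarith only [a4])]
  unfold SW
  push_cast at h
  linarith only [h, a3]

theorem k_c3SpW : bb (tst 1 376432 0 0 0 0 3294196 0 0 4697620 0 0) 60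
    96000 96000 98560 102400 95232 95232 102400 104448 = true := by
  decide +kernel

theorem r_c3SpW : Row 1 (-(1 / 4)) (-(1 / 4)) (-(3 / 20)) 0 (-(7 / 25)) (-(7 / 25)) (2 / 25) (-(359 / 1000)) 0 0 0 (-(112 / 25)) 0 (314159 / 100000) := by
  intro y v a1 a2 a3 a4 a5 a6 a7 a8
  have h := bb_sound tab_ok k_c3SpW (y := y) (v := v)
    ⟨by norm_num; linarith only [a1], by norm_num; linarith only [a2]⟩ ⟨by norm_num; linarith only [a3], by norm_num; linarith only [a4]⟩
    ⟨by norm_num; linarith only [a5], by norm_num; linarith only [a6]⟩ ⟨by norm_num; linarith only [a7], by norm_num; linarith only [a8]⟩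
  rw [abs_of_nonpos (by linarith only [a4])]
  unfold SW
  push_cast at h
  linarith only [h, a7, a3]

theorem k_c3SpR : bb (tst 1 450881 0 0 0 0 3294196 0 0 0 0 0) 60
    96000 96000 98560 102400 108800 115200 102400 102400 = true := by
  decide +kernel

theorem r_c3SpR : Row 1 (-(1 / 4)) (-(1 / 4)) (-(3 / 20)) 0 (1 / 4) (1 / 2) 0 (-(43 / 100)) 0 0 0 0 0 (314159 / 100000) := by
  intro y v a1 a2 a3 a4 a5 a6 a7 a8
  have h := bb_sound tab_ok k_c3SpR (y := y) (v := v)
    ⟨by norm_num; linarith only [a1], by norm_num; linarith only [a2]⟩ ⟨by norm_num; linarith only [a3], by norm_num; linarith only [a4]⟩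
    ⟨by norm_num; linarith only [a5], by norm_num; linarith only [a6]⟩ ⟨by norm_num; linarith only [a7], by norm_num; linarith only [a8]⟩
  rw [abs_of_nonpos (by linarith only [a4])]
  unfold SW
  push_cast at h
  linarith only [h, a3]

theorem k_c3SpS : bb (tst 1 450881 0 0 0 0 3294196 0 0 0 0 0) 60
    96000 96000 98560 102400 89600 96000 102400 102400 = true := by
  decide +kernel

theorem r_c3SpS : Row 1 (-(1 / 4)) (-(1 / 4)) (-(3 / 20)) 0 (-(1 / 2)) (-(1 / 4)) 0 (-(43 / 100)) 0 0 0 0 0 (314159 / 100000) := by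
  intro y v a1 a2 a3 a4 a5 a6 a7 a8
  have h := bb_sound tab_ok k_c3SpS (y := y) (v := v)
    ⟨by norm_num; linarith only [a1], by norm_num; linarith only [a2]⟩ ⟨by norm_num; linarith only [a3], by norm_num; linarith only [a4]⟩
    ⟨by norm_num; linarith only [a5], by norm_num; linarith only [a6]⟩ ⟨by norm_num; linarith only [a7], by norm_num; linarith only [a8]⟩
  rw [abs_of_nonpos (by linarith only [a4])]
  unfold SW
  push_cast at h
  linarith only [h, a3]

theorem k_c3SLF : bb (tst 1 376432 0 0 0 0 0 0 0 2348810 0 8388608) 60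
    96000 96000 102400 104039 95232 109568 102400 104448 = true := by
  decide +kernel

theorem r_c3SLF : Row 1 (-(1 / 4)) (-(1 / 4)) 0 (8 / 125) (-(7 / 25)) (7 / 25) (2 / 25) (-(359 / 1000)) 0 0 0 (-(56 / 25)) 8 0 := by
  intro y v a1 a2 a3 a4 a5 a6 a7 a8
  have h := bb_sound tab_ok k_c3SLF (y := y) (v := v)
    ⟨by norm_num; linarith only [a1], by norm_num; linarith only [a2]⟩ ⟨by norm_num; linarith only [a3], by norm_num; linarith only [a4]⟩
    ⟨by norm_num; linarith only [a5], by norm_num; linarith only [a6]⟩ ⟨by norm_num; linarith only [a7], by norm_num; linarith only [a8]⟩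
  rw [abs_of_nonneg (by linarith only [a3])]
  unfold SW
  push_cast at h
  linarith only [h, a7]

theorem k_c3SLV : bb (tst 1 376432 0 0 0 0 0 0 0 0 0 0) 60
    96000 96000 102400 104039 109568 109568 102400 104448 = true := by
  decide +kernel

theorem r_c3SLV : Row 1 (-(1 / 4)) (-(1 / 4)) 0 (8 / 125) (7 / 25) (7 / 25) (2 / 25) (-(359 / 1000)) 0 0 0 0 0 0 := by
  intro y v a1 a2 a3 a4 a5 a6 a7 a8
  have h := bb_sound tab_ok k_c3SLV (y := y) (v := v)
    ⟨by norm_num; linarith only [a1], by norm_num; linarith only [a2]⟩ ⟨by norm_num; linarith only [a3], by norm_num; linarith only [a4]⟩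
    ⟨by norm_num; linarith only [a5], by norm_num; linarith only [a6]⟩ ⟨by norm_num; linarith only [a7], by norm_num; linarith only [a8]⟩
  rw [abs_of_nonneg (by linarith only [a3])]
  unfold SW
  push_cast at h
  linarith only [h]

theorem k_c3SLW : bb (tst 1 376432 0 0 0 0 0 0 0 4697620 0 0) 60
    96000 96000 102400 104039 95232 95232 102400 104448 = true := by
  decide +kernel

theorem r_c3SLW : Row 1 (-(1 / 4)) (-(1 / 4)) 0 (8 / 125) (-(7 / 25)) (-(7 / 25)) (2 / 25) (-(359 / 1000)) 0 0 0 (-(112 / 25)) 0 0 := by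
  intro y v a1 a2 a3 a4 a5 a6 a7 a8
  have h := bb_sound tab_ok k_c3SLW (y := y) (v := v)
    ⟨by norm_num; linarith only [a1], by norm_num; linarith only [a2]⟩ ⟨by norm_num; linarith only [a3], by norm_num; linarith only [a4]⟩
    ⟨by norm_num; linarith only [a5], by norm_num; linarith only [a6]⟩ ⟨by norm_num; linarith only [a7], by norm_num; linarith only [a8]⟩
  rw [abs_of_nonneg (by linarith only [a3])]
  unfold SW
  push_cast at h
  linarith only [h, a7]

theorem k_c3SLR : bb (tst 1 450881 0 0 0 0 0 0 0 0 0 0) 60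
    96000 96000 102400 104039 108800 115200 102400 102400 = true := by
  decide +kernel

theorem r_c3SLR : Row 1 (-(1 / 4)) (-(1 / 4)) 0 (8 / 125) (1 / 4) (1 / 2) 0 (-(43 / 100)) 0 0 0 0 0 0 := by
  intro y v a1 a2 a3 a4 a5 a6 a7 a8
  have h := bb_sound tab_ok k_c3SLR (y := y) (v := v)
    ⟨by norm_num; linarith only [a1], by norm_num; linarith only [a2]⟩ ⟨by norm_num; linarith only [a3], by norm_num; linarith only [a4]⟩
    ⟨by norm_num; linarith only [a5], by norm_num; linarith only [a6]⟩ ⟨by norm_num; linarith only [a7], by norm_num; linarith only [a8]⟩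
  rw [abs_of_nonneg (by linarith only [a3])]
  unfold SW
  push_cast at h
  linarith only [h]

theorem k_c3SLS : bb (tst 1 450881 0 0 0 0 0 0 0 0 0 0) 60
    96000 96000 102400 104039 89600 96000 102400 102400 = true := by
  decide +kernel

theorem r_c3SLS : Row 1 (-(1 / 4)) (-(1 / 4)) 0 (8 / 125) (-(1 / 2)) (-(1 / 4)) 0 (-(43 / 100)) 0 0 0 0 0 0 := by
  intro y v a1 a2 a3 a4 a5 a6 a7 a8
  have h := bb_sound tab_ok k_c3SLS (y := y) (v := v)
    ⟨by norm_num; linarith only [a1], by norm_num; linarith only [a2]⟩ ⟨by norm_num; linarith only [a3], by norm_num; linarith only [a4]⟩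
    ⟨by norm_num; linarith only [a5], by norm_num; linarith only [a6]⟩ ⟨by norm_num; linarith only [a7], by norm_num; linarith only [a8]⟩
  rw [abs_of_nonneg (by linarith only [a3])]
  unfold SW
  push_cast at h
  linarith only [h]

theorem k_c3SHN : bb (tst 1 589241 0 0 642778 524288 0 0 0 0 0 8388608) 60
    102400 106240 103424 104039 95232 102400 102400 104448 = true := by
  decide +kernel

theorem r_c3SHN : Row 1 0 (3 / 20) (1 / 25) (8 / 125) (-(7 / 25)) 0 (2 / 25) (-(11239 / 20000)) (613 / 1000) 0 (-(1 / 2)) 0 8 0 := by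
  intro y v a1 a2 a3 a4 a5 a6 a7 a8
  have h := bb_sound tab_ok k_c3SHN (y := y) (v := v)
    ⟨by norm_num; linarith only [a1], by norm_num; linarith only [a2]⟩ ⟨by norm_num; linarith only [a3], by norm_num; linarith only [a4]⟩
    ⟨by norm_num; linarith only [a5], by norm_num; linarith only [a6]⟩ ⟨by norm_num; linarith only [a7], by norm_num; linarith only [a8]⟩
  rw [abs_of_nonneg (by linarith only [a3])]
  unfold SW
  push_cast at h
  linarith only [h, a1]

theorem k_c3SHA0 : bb (tst 1 552090 0 0 395314 524288 0 0 595592 0 0 0) 60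
    102400 106240 103424 104039 102400 105984 102400 104448 = true := by
  decide +kernel

theorem r_c3SHA0 : Row 1 0 (3 / 20) (1 / 25) (8 / 125) 0 (7 / 50) (2 / 25) (-(13163 / 25000)) (377 / 1000) (71 / 125) (-(1 / 2)) 0 0 0 := by
  intro y v a1 a2 a3 a4 a5 a6 a7 a8
  have h := bb_sound tab_ok k_c3SHA0 (y := y) (v := v)
    ⟨by norm_num; linarith only [a1], by norm_num; linarith only [a2]⟩ ⟨by norm_num; linarith only [a3], by norm_num; linarith only [a4]⟩
    ⟨by norm_num; linarith only [a5], by norm_num; linarith only [a6]⟩ ⟨by norm_num; linarith only [a7], by norm_num; linarith only [a8]⟩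
  rw [abs_of_nonneg (by linarith only [a3])]
  unfold SW
  push_cast at h
  linarith only [h, a5, a1]

theorem k_c3SHA1 : bb (tst 1 615958 0 0 395314 524288 0 0 1070597 0 0 0) 60
    102400 106240 103424 104039 105984 109568 102400 104448 = true := by
  decide +kernel

theorem r_c3SHA1 : Row 1 0 (3 / 20) (1 / 25) (8 / 125) (7 / 50) (7 / 25) (2 / 25) (-(58743 / 100000)) (377 / 1000) (1021 / 1000) (-(1 / 2)) 0 0 0 := by
  intro y v a1 a2 a3 a4 a5 a6 a7 a8
  have h := bb_sound tab_ok k_c3SHA1 (y := y) (v := v)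
    ⟨by norm_num; linarith only [a1], by norm_num; linarith only [a2]⟩ ⟨by norm_num; linarith only [a3], by norm_num; linarith only [a4]⟩
    ⟨by norm_num; linarith only [a5], by norm_num; linarith only [a6]⟩ ⟨by norm_num; linarith only [a7], by norm_num; linarith only [a8]⟩
  rw [abs_of_nonneg (by linarith only [a3])]
  unfold SW
  push_cast at h
  linarith only [h, a5, a1]

theorem k_c3SHV : bb (tst 1 318708 0 0 412091 524288 0 0 0 0 0 0) 60
    102400 106240 103424 104039 109568 109568 102400 104448 = true := by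
  decide +kernel

theorem r_c3SHV : Row 1 0 (3 / 20) (1 / 25) (8 / 125) (7 / 25) (7 / 25) (2 / 25) (-(6079 / 20000)) (393 / 1000) 0 (-(1 / 2)) 0 0 0 := by
  intro y v a1 a2 a3 a4 a5 a6 a7 a8
  have h := bb_sound tab_ok k_c3SHV (y := y) (v := v)
    ⟨by norm_num; linarith only [a1], by norm_num; linarith only [a2]⟩ ⟨by norm_num; linarith only [a3], by norm_num; linarith only [a4]⟩
    ⟨by norm_num; linarith only [a5], by norm_num; linarith only [a6]⟩ ⟨by norm_num; linarith only [a7], by norm_num; linarith only [a8]⟩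
  rw [abs_of_nonneg (by linarith only [a3])]
  unfold SW
  push_cast at h
  linarith only [h, a1]

theorem k_c3SHW : bb (tst 1 404744 0 0 426771 0 0 0 0 2348810 0 0) 60
    102400 106240 103424 104039 95232 95232 102400 104448 = true := by
  decide +kernel

theorem r_c3SHW : Row 1 0 (3 / 20) (1 / 25) (8 / 125) (-(7 / 25)) (-(7 / 25)) (2 / 25) (-(193 / 500)) (407 / 1000) 0 0 (-(56 / 25)) 0 0 := by
  intro y v a1 a2 a3 a4 a5 a6 a7 a8
  have h := bb_sound tab_ok k_c3SHW (y := y) (v := v)
    ⟨by norm_num; linarith only [a1], by norm_num; linarith only [a2]⟩ ⟨by norm_num; linarith only [a3], by norm_num; linarith only [a4]⟩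
    ⟨by norm_num; linarith only [a5], by norm_num; linarith only [a6]⟩ ⟨by norm_num; linarith only [a7], by norm_num; linarith only [a8]⟩
  rw [abs_of_nonneg (by linarith only [a3])]
  unfold SW
  push_cast at h
  linarith only [h, a7, a1]

theorem k_c3SHR : bb (tst 1 404744 0 0 426771 0 0 0 0 0 0 0) 60
    102400 106240 103424 104039 108800 115200 102400 102400 = true := by
  decide +kernel

theorem r_c3SHR : Row 1 0 (3 / 20) (1 / 25) (8 / 125) (1 / 4) (1 / 2) 0 (-(193 / 500)) (407 / 1000) 0 0 0 0 0 := by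
  intro y v a1 a2 a3 a4 a5 a6 a7 a8
  have h := bb_sound tab_ok k_c3SHR (y := y) (v := v)
    ⟨by norm_num; linarith only [a1], by norm_num; linarith only [a2]⟩ ⟨by norm_num; linarith only [a3], by norm_num; linarith only [a4]⟩
    ⟨by norm_num; linarith only [a5], by norm_num; linarith only [a6]⟩ ⟨by norm_num; linarith only [a7], by norm_num; linarith only [a8]⟩
  rw [abs_of_nonneg (by linarith only [a3])]
  unfold SW
  push_cast at h
  linarith only [h, a1]

theorem k_c3SHS : bb (tst 1 404744 0 0 426771 0 0 0 0 0 0 0) 60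
    102400 106240 103424 104039 89600 96000 102400 102400 = true := by
  decide +kernel

theorem r_c3SHS : Row 1 0 (3 / 20) (1 / 25) (8 / 125) (-(1 / 2)) (-(1 / 4)) 0 (-(193 / 500)) (407 / 1000) 0 0 0 0 0 := by
  intro y v a1 a2 a3 a4 a5 a6 a7 a8
  have h := bb_sound tab_ok k_c3SHS (y := y) (v := v)
    ⟨by norm_num; linarith only [a1], by norm_num; linarith only [a2]⟩ ⟨by norm_num; linarith only [a3], by norm_num; linarith only [a4]⟩
    ⟨by norm_num; linarith only [a5], by norm_num; linarith only [a6]⟩ ⟨by norm_num; linarith only [a7], by norm_num; linarith only [a8]⟩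
  rw [abs_of_nonneg (by linarith only [a3])]
  unfold SW
  push_cast at h
  linarith only [h, a1]

theorem k_c3SGN : bb (tst 1 507347 0 0 544211 1048576 0 0 0 0 524288 8388608) 60
    96000 102400 103424 104039 95232 102400 102400 104448 = true := by
  decide +kernel

theorem r_c3SGN : Row 1 (-(1 / 4)) 0 (1 / 25) (8 / 125) (-(7 / 25)) 0 (2 / 25) (-(9677 / 20000)) (519 / 1000) 0 (-1) (1 / 2) 8 0 := by
  intro y v a1 a2 a3 a4 a5 a6 a7 a8
  have h := bb_sound tab_ok k_c3SGN (y := y) (v := v)
    ⟨by norm_num; linarith only [a1], by norm_num; linarith only [a2]⟩ ⟨by norm_num; linarith only [a3], by norm_num; linarith only [a4]⟩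
    ⟨by norm_num; linarith only [a5], by norm_num; linarith only [a6]⟩ ⟨by norm_num; linarith only [a7], by norm_num; linarith only [a8]⟩
  rw [abs_of_nonneg (by linarith only [a3])]
  unfold SW
  push_cast at h
  linarith only [h, a1]

theorem k_c3SGA0 : bb (tst 1 507399 0 0 394265 1048576 0 0 881853 0 524288 0) 60
    96000 102400 103424 104039 102400 109568 102400 104448 = true := by
  decide +kernel

theorem r_c3SGA0 : Row 1 (-(1 / 4)) 0 (1 / 25) (8 / 125) 0 (7 / 25) (2 / 25) (-(4839 / 10000)) (47 / 125) (841 / 1000) (-1) (1 / 2) 0 0 := by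
  intro y v a1 a2 a3 a4 a5 a6 a7 a8
  have h := bb_sound tab_ok k_c3SGA0 (y := y) (v := v)
    ⟨by norm_num; linarith only [a1], by norm_num; linarith only [a2]⟩ ⟨by norm_num; linarith only [a3], by norm_num; linarith only [a4]⟩
    ⟨by norm_num; linarith only [a5], by norm_num; linarith only [a6]⟩ ⟨by norm_num; linarith only [a7], by norm_num; linarith only [a8]⟩
  rw [abs_of_nonneg (by linarith only [a3])]
  unfold SW
  push_cast at h
  linarith only [h, a5, a1]

theorem k_c3SGV : bb (tst 1 260565 0 0 394265 1048576 0 0 0 0 524288 0) 60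
    96000 102400 103424 104039 109568 109568 102400 104448 = true := by
  decide +kernel

theorem r_c3SGV : Row 1 (-(1 / 4)) 0 (1 / 25) (8 / 125) (7 / 25) (7 / 25) (2 / 25) (-(497 / 2000)) (47 / 125) 0 (-1) (1 / 2) 0 0 := by
  intro y v a1 a2 a3 a4 a5 a6 a7 a8
  have h := bb_sound tab_ok k_c3SGV (y := y) (v := v)
    ⟨by norm_num; linarith only [a1], by norm_num; linarith only [a2]⟩ ⟨by norm_num; linarith only [a3], by norm_num; linarith only [a4]⟩
    ⟨by norm_num; linarith only [a5], by norm_num; linarith only [a6]⟩ ⟨by norm_num; linarith only [a7], by norm_num; linarith only [a8]⟩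
  rw [abs_of_nonneg (by linarith only [a3])]
  unfold SW
  push_cast at h
  linarith only [h, a1]

theorem k_c3SGW : bb (tst 1 352315 0 0 427820 0 0 0 0 1824522 0 0) 60
    96000 102400 103424 104039 95232 95232 102400 104448 = true := by
  decide +kernel

theorem r_c3SGW : Row 1 (-(1 / 4)) 0 (1 / 25) (8 / 125) (-(7 / 25)) (-(7 / 25)) (2 / 25) (-(42 / 125)) (51 / 125) 0 0 (-(87 / 50)) 0 0 := by
  intro y v a1 a2 a3 a4 a5 a6 a7 a8
  have h := bb_sound tab_ok k_c3SGW (y := y) (v := v)
    ⟨by norm_num; linarith only [a1], by norm_num; linarith only [a2]⟩ ⟨by norm_num; linarith only [a3], by norm_num; linarith only [a4]⟩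
    ⟨by norm_num; linarith only [a5], by norm_num; linarith only [a6]⟩ ⟨by norm_num; linarith only [a7], by norm_num; linarith only [a8]⟩
  rw [abs_of_nonneg (by linarith only [a3])]
  unfold SW
  push_cast at h
  linarith only [h, a7, a1]

theorem k_c3SGR : bb (tst 1 352315 0 0 427820 0 0 0 0 0 0 0) 60
    96000 102400 103424 104039 108800 115200 102400 102400 = true := by
  decide +kernel

theorem r_c3SGR : Row 1 (-(1 / 4)) 0 (1 / 25) (8 / 125) (1 / 4) (1 / 2) 0 (-(42 / 125)) (51 / 125) 0 0 0 0 0 := by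
  intro y v a1 a2 a3 a4 a5 a6 a7 a8
  have h := bb_sound tab_ok k_c3SGR (y := y) (v := v)
    ⟨by norm_num; linarith only [a1], by norm_num; linarith only [a2]⟩ ⟨by norm_num; linarith only [a3], by norm_num; linarith only [a4]⟩
    ⟨by norm_num; linarith only [a5], by norm_num; linarith only [a6]⟩ ⟨by norm_num; linarith only [a7], by norm_num; linarith only [a8]⟩
  rw [abs_of_nonneg (by linarith only [a3])]
  unfold SW
  push_cast at h
  linarith only [h, a1]

theorem k_c3SGS : bb (tst 1 352315 0 0 427820 0 0 0 0 0 0 0) 60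
    96000 102400 103424 104039 89600 96000 102400 102400 = true := by
  decide +kernel

theorem r_c3SGS : Row 1 (-(1 / 4)) 0 (1 / 25) (8 / 125) (-(1 / 2)) (-(1 / 4)) 0 (-(42 / 125)) (51 / 125) 0 0 0 0 0 := by
  intro y v a1 a2 a3 a4 a5 a6 a7 a8
  have h := bb_sound tab_ok k_c3SGS (y := y) (v := v)
    ⟨by norm_num; linarith only [a1], by norm_num; linarith only [a2]⟩ ⟨by norm_num; linarith only [a3], by norm_num; linarith only [a4]⟩
    ⟨by norm_num; linarith only [a5], by norm_num; linarith only [a6]⟩ ⟨by norm_num; linarith only [a7], by norm_num; linarith only [a8]⟩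
  rw [abs_of_nonneg (by linarith only [a3])]
  unfold SW
  push_cast at h
  linarith only [h, a1]

end VQ

end Pool.Agent.S5
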