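import Pool.Agent.S5.I.VQa
import Pool.Agent.S5.I.TsK

/-!
# The payments of the open nodes: parameter-free inequalities
-/

set_option autoImplicit false

namespace Pool.Agent.S5

open Pool.Agent.H63.VC3 Pool.Agent.S3 Complex Tb

namespace VQ

theorem k_c4tapF : bb (tst 2 409672 0 0 219153 3294195 0 0 0 2348810 0 8388608) 60
    102400 110080 106240 106240 95232 109568 102400 103860 = true := by
  decide +kernel

theorem r_c4tapF : Row 2 0 (3 / 10) (3 / 20) (3 / 20) (-(7 / 25)) (7 / 25) (57 / 1000) (-(3907 / 10000)) (209 / 1000) 0 0 (-(56 / 25)) 8 (314159 / 100000) := by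
  intro y v a1 a2 a3 a4 a5 a6 a7 a8
  have h := bb_sound tab_ok k_c4tapF (y := y) (v := v)
    ⟨by norm_num; linarith only [a1], by norm_num; linarith only [a2]⟩ ⟨by norm_num; linarith only [a3], by norm_num; linarith only [a4]⟩
    ⟨by norm_num; linarith only [a5], by norm_num; linarith only [a6]⟩ ⟨by norm_num; linarith only [a7], by norm_num; linarith only [a8]⟩
  rw [abs_of_nonneg (by linarith only [a3])]
  unfold SW
  push_cast at h
  linarith only [h, a7, a3, a1]

theorem k_c4tapV : bb (tst 2 409672 0 0 219153 3294195 0 0 0 0 0 0) 60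
    102400 110080 106240 106240 109568 109568 102400 103860 = true := by
  decide +kernel

theorem r_c4tapV : Row 2 0 (3 / 10) (3 / 20) (3 / 20) (7 / 25) (7 / 25) (57 / 1000) (-(3907 / 10000)) (209 / 1000) 0 0 0 0 (314159 / 100000) := by
  intro y v a1 a2 a3 a4 a5 a6 a7 a8
  have h := bb_sound tab_ok k_c4tapV (y := y) (v := v)
    ⟨by norm_num; linarith only [a1], by norm_num; linarith only [a2]⟩ ⟨by norm_num; linarith only [a3], by norm_num; linarith only [a4]⟩
    ⟨by norm_num; linarith only [a5], by norm_num; linarith only [a6]⟩ ⟨by norm_num; linarith only [a7], by norm_num; linarith only [a8]⟩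
  rw [abs_of_nonneg (by linarith only [a3])]
  unfold SW
  push_cast at h
  linarith only [h, a3, a1]

theorem k_c4tapW : bb (tst 2 409672 0 0 219153 3294195 0 0 0 4697620 0 0) 60
    102400 110080 106240 106240 95232 95232 102400 103860 = true := by
  decide +kernel

theorem r_c4tapW : Row 2 0 (3 / 10) (3 / 20) (3 / 20) (-(7 / 25)) (-(7 / 25)) (57 / 1000) (-(3907 / 10000)) (209 / 1000) 0 0 (-(112 / 25)) 0 (314159 / 100000) := by
  intro y v a1 a2 a3 a4 a5 a6 a7 a8
  have h := bb_sound tab_ok k_c4tapW (y := y) (v := v)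
    ⟨by norm_num; linarith only [a1], by norm_num; linarith only [a2]⟩ ⟨by norm_num; linarith only [a3], by norm_num; linarith only [a4]⟩
    ⟨by norm_num; linarith only [a5], by norm_num; linarith only [a6]⟩ ⟨by norm_num; linarith only [a7], by norm_num; linarith only [a8]⟩
  rw [abs_of_nonneg (by linarith only [a3])]
  unfold SW
  push_cast at h
  linarith only [h, a7, a3, a1]

theorem k_c4tapR : bb (tst 2 488106 0 0 232784 3294195 0 0 0 0 0 0) 60
    102400 110080 106240 106240 108800 115200 102400 102400 = true := by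
  decide +kernel

theorem r_c4tapR : Row 2 0 (3 / 10) (3 / 20) (3 / 20) (1 / 4) (1 / 2) 0 (-(931 / 2000)) (111 / 500) 0 0 0 0 (314159 / 100000) := by
  intro y v a1 a2 a3 a4 a5 a6 a7 a8
  have h := bb_sound tab_ok k_c4tapR (y := y) (v := v)
    ⟨by norm_num; linarith only [a1], by norm_num; linarith only [a2]⟩ ⟨by norm_num; linarith only [a3], by norm_num; linarith only [a4]⟩
    ⟨by norm_num; linarith only [a5], by norm_num; linarith only [a6]⟩ ⟨by norm_num; linarith only [a7], by norm_num; linarith only [a8]⟩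
  rw [abs_of_nonneg (by linarith only [a3])]
  unfold SW
  push_cast at h
  linarith only [h, a3, a1]

theorem k_c4tapS : bb (tst 2 488106 0 0 232784 3294195 0 0 0 0 0 0) 60
    102400 110080 106240 106240 89600 96000 102400 102400 = true := by
  decide +kernel

theorem r_c4tapS : Row 2 0 (3 / 10) (3 / 20) (3 / 20) (-(1 / 2)) (-(1 / 4)) 0 (-(931 / 2000)) (111 / 500) 0 0 0 0 (314159 / 100000) := by
  intro y v a1 a2 a3 a4 a5 a6 a7 a8
  have h := bb_sound tab_ok k_c4tapS (y := y) (v := v)
    ⟨by norm_num; linarith only [a1], by norm_num; linarith only [a2]⟩ ⟨by norm_num; linarith only [a3], by norm_num; linarith only [a4]⟩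
    ⟨by norm_num; linarith only [a5], by norm_num; linarith only [a6]⟩ ⟨by norm_num; linarith only [a7], by norm_num; linarith only [a8]⟩
  rw [abs_of_nonneg (by linarith only [a3])]
  unfold SW
  push_cast at h
  linarith only [h, a3, a1]

theorem k_c4tbpF : bb (tst 2 540534 0 0 655360 3294195 0 0 0 2348810 0 8388608) 60
    110080 115200 106240 106240 95232 109568 102400 103860 = true := by
  decide +kernel

theorem r_c4tbpF : Row 2 (3 / 10) (1 / 2) (3 / 20) (3 / 20) (-(7 / 25)) (7 / 25) (57 / 1000) (-(1031 / 2000)) (5 / 8) 0 0 (-(56 / 25)) 8 (314159 / 100000) := by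
  intro y v a1 a2 a3 a4 a5 a6 a7 a8
  have h := bb_sound tab_ok k_c4tbpF (y := y) (v := v)
    ⟨by norm_num; linarith only [a1], by norm_num; linarith only [a2]⟩ ⟨by norm_num; linarith only [a3], by norm_num; linarith only [a4]⟩
    ⟨by norm_num; linarith only [a5], by norm_num; linarith only [a6]⟩ ⟨by norm_num; linarith only [a7], by norm_num; linarith only [a8]⟩
  rw [abs_of_nonneg (by linarith only [a3])]
  unfold SW
  push_cast at h
  linarith only [h, a7, a3]

theorem k_c4tbpV : bb (tst 2 540534 0 0 655360 3294195 0 0 0 0 0 0) 60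
    110080 115200 106240 106240 109568 109568 102400 103860 = true := by
  decide +kernel

theorem r_c4tbpV : Row 2 (3 / 10) (1 / 2) (3 / 20) (3 / 20) (7 / 25) (7 / 25) (57 / 1000) (-(1031 / 2000)) (5 / 8) 0 0 0 0 (314159 / 100000) := by
  intro y v a1 a2 a3 a4 a5 a6 a7 a8
  have h := bb_sound tab_ok k_c4tbpV (y := y) (v := v)
    ⟨by norm_num; linarith only [a1], by norm_num; linarith only [a2]⟩ ⟨by norm_num; linarith only [a3], by norm_num; linarith only [a4]⟩
    ⟨by norm_num; linarith only [a5], by norm_num; linarith only [a6]⟩ ⟨by norm_num; linarith only [a7], by norm_num; linarith only [a8]⟩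
  rw [abs_of_nonneg (by linarith only [a3])]
  unfold SW
  push_cast at h
  linarith only [h, a3]

theorem k_c4tbpW : bb (tst 2 540534 0 0 655360 3294195 0 0 0 4697620 0 0) 60
    110080 115200 106240 106240 95232 95232 102400 103860 = true := by
  decide +kernel

theorem r_c4tbpW : Row 2 (3 / 10) (1 / 2) (3 / 20) (3 / 20) (-(7 / 25)) (-(7 / 25)) (57 / 1000) (-(1031 / 2000)) (5 / 8) 0 0 (-(112 / 25)) 0 (314159 / 100000) := by
  intro y v a1 a2 a3 a4 a5 a6 a7 a8
  have h := bb_sound tab_ok k_c4tbpW (y := y) (v := v)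
    ⟨by norm_num; linarith only [a1], by norm_num; linarith only [a2]⟩ ⟨by norm_num; linarith only [a3], by norm_num; linarith only [a4]⟩
    ⟨by norm_num; linarith only [a5], by norm_num; linarith only [a6]⟩ ⟨by norm_num; linarith only [a7], by norm_num; linarith only [a8]⟩
  rw [abs_of_nonneg (by linarith only [a3])]
  unfold SW
  push_cast at h
  linarith only [h, a7, a3]

theorem k_c4tbpR : bb (tst 2 660596 0 0 807404 3294195 0 0 0 0 0 0) 60
    110080 115200 106240 106240 108800 115200 102400 102400 = true := by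
  decide +kernel

theorem r_c4tbpR : Row 2 (3 / 10) (1 / 2) (3 / 20) (3 / 20) (1 / 4) (1 / 2) 0 (-(63 / 100)) (77 / 100) 0 0 0 0 (314159 / 100000) := by
  intro y v a1 a2 a3 a4 a5 a6 a7 a8
  have h := bb_sound tab_ok k_c4tbpR (y := y) (v := v)
    ⟨by norm_num; linarith only [a1], by norm_num; linarith only [a2]⟩ ⟨by norm_num; linarith only [a3], by norm_num; linarith only [a4]⟩
    ⟨by norm_num; linarith only [a5], by norm_num; linarith only [a6]⟩ ⟨by norm_num; linarith only [a7], by norm_num; linarith only [a8]⟩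
  rw [abs_of_nonneg (by linarith only [a3])]
  unfold SW
  push_cast at h
  linarith only [h, a3, a1]

theorem k_c4tbpS : bb (tst 2 660596 0 0 807404 3294195 0 0 0 0 0 0) 60
    110080 115200 106240 106240 89600 96000 102400 102400 = true := by
  decide +kernel

theorem r_c4tbpS : Row 2 (3 / 10) (1 / 2) (3 / 20) (3 / 20) (-(1 / 2)) (-(1 / 4)) 0 (-(63 / 100)) (77 / 100) 0 0 0 0 (314159 / 100000) := by
  intro y v a1 a2 a3 a4 a5 a6 a7 a8
  have h := bb_sound tab_ok k_c4tbpS (y := y) (v := v)
    ⟨by norm_num; linarith only [a1], by norm_num; linarith only [a2]⟩ ⟨by norm_num; linarith only [a3], by norm_num; linarith only [a4]⟩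
    ⟨by norm_num; linarith only [a5], by norm_num; linarith only [a6]⟩ ⟨by norm_num; linarith only [a7], by norm_num; linarith only [a8]⟩
  rw [abs_of_nonneg (by linarith only [a3])]
  unfold SW
  push_cast at h
  linarith only [h, a3, a1]

theorem k_c4upF : bb (tst 2 294329 0 0 219153 3294195 0 0 0 2348810 0 8388608) 60
    96000 102400 106240 106240 95232 109568 102400 103860 = true := by
  decide +kernel

theorem r_c4upF : Row 2 (-(1 / 4)) 0 (3 / 20) (3 / 20) (-(7 / 25)) (7 / 25) (57 / 1000) (-(2807 / 10000)) (209 / 1000) 0 0 (-(56 / 25)) 8 (314159 / 100000) := by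
  intro y v a1 a2 a3 a4 a5 a6 a7 a8
  have h := bb_sound tab_ok k_c4upF (y := y) (v := v)
    ⟨by norm_num; linarith only [a1], by norm_num; linarith only [a2]⟩ ⟨by norm_num; linarith only [a3], by norm_num; linarith only [a4]⟩
    ⟨by norm_num; linarith only [a5], by norm_num; linarith only [a6]⟩ ⟨by norm_num; linarith only [a7], by norm_num; linarith only [a8]⟩
  rw [abs_of_nonneg (by linarith only [a3])]
  unfold SW
  push_cast at h
  linarith only [h, a7, a3, a1]

theorem k_c4upV : bb (tst 2 294329 0 0 219153 3294195 0 0 0 0 0 0) 60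
    96000 102400 106240 106240 109568 109568 102400 103860 = true := by
  decide +kernel

theorem r_c4upV : Row 2 (-(1 / 4)) 0 (3 / 20) (3 / 20) (7 / 25) (7 / 25) (57 / 1000) (-(2807 / 10000)) (209 / 1000) 0 0 0 0 (314159 / 100000) := by
  intro y v a1 a2 a3 a4 a5 a6 a7 a8
  have h := bb_sound tab_ok k_c4upV (y := y) (v := v)
    ⟨by norm_num; linarith only [a1], by norm_num; linarith only [a2]⟩ ⟨by norm_num; linarith only [a3], by norm_num; linarith only [a4]⟩
    ⟨by norm_num; linarith only [a5], by norm_num; linarith only [a6]⟩ ⟨by norm_num; linarith only [a7], by norm_num; linarith only [a8]⟩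
  rw [abs_of_nonneg (by linarith only [a3])]
  unfold SW
  push_cast at h
  linarith only [h, a3, a1]

theorem k_c4upW : bb (tst 2 294329 0 0 219153 3294195 0 0 0 4697620 0 0) 60
    96000 102400 106240 106240 95232 95232 102400 103860 = true := by
  decide +kernel

theorem r_c4upW : Row 2 (-(1 / 4)) 0 (3 / 20) (3 / 20) (-(7 / 25)) (-(7 / 25)) (57 / 1000) (-(2807 / 10000)) (209 / 1000) 0 0 (-(112 / 25)) 0 (314159 / 100000) := by
  intro y v a1 a2 a3 a4 a5 a6 a7 a8
  have h := bb_sound tab_ok k_c4upW (y := y) (v := v)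
    ⟨by norm_num; linarith only [a1], by norm_num; linarith only [a2]⟩ ⟨by norm_num; linarith only [a3], by norm_num; linarith only [a4]⟩
    ⟨by norm_num; linarith only [a5], by norm_num; linarith only [a6]⟩ ⟨by norm_num; linarith only [a7], by norm_num; linarith only [a8]⟩
  rw [abs_of_nonneg (by linarith only [a3])]
  unfold SW
  push_cast at h
  linarith only [h, a7, a3, a1]

theorem k_c4upR : bb (tst 2 372762 0 0 232784 3294195 0 0 0 0 0 0) 60
    96000 102400 106240 106240 108800 115200 102400 102400 = true := by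
  decide +kernel

theorem r_c4upR : Row 2 (-(1 / 4)) 0 (3 / 20) (3 / 20) (1 / 4) (1 / 2) 0 (-(711 / 2000)) (111 / 500) 0 0 0 0 (314159 / 100000) := by
  intro y v a1 a2 a3 a4 a5 a6 a7 a8
  have h := bb_sound tab_ok k_c4upR (y := y) (v := v)
    ⟨by norm_num; linarith only [a1], by norm_num; linarith only [a2]⟩ ⟨by norm_num; linarith only [a3], by norm_num; linarith only [a4]⟩
    ⟨by norm_num; linarith only [a5], by norm_num; linarith only [a6]⟩ ⟨by norm_num; linarith only [a7], by norm_num; linarith only [a8]⟩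
  rw [abs_of_nonneg (by linarith only [a3])]
  unfold SW
  push_cast at h
  linarith only [h, a3, a1]

theorem k_c4upS : bb (tst 2 372762 0 0 232784 3294195 0 0 0 0 0 0) 60
    96000 102400 106240 106240 89600 96000 102400 102400 = true := by
  decide +kernel

theorem r_c4upS : Row 2 (-(1 / 4)) 0 (3 / 20) (3 / 20) (-(1 / 2)) (-(1 / 4)) 0 (-(711 / 2000)) (111 / 500) 0 0 0 0 (314159 / 100000) := by
  intro y v a1 a2 a3 a4 a5 a6 a7 a8
  have h := bb_sound tab_ok k_c4upS (y := y) (v := v)
    ⟨by norm_num; linarith only [a1], by norm_num; linarith only [a2]⟩ ⟨by norm_num; linarith only [a3], by norm_num; linarith only [a4]⟩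
    ⟨by norm_num; linarith only [a5], by norm_num; linarith only [a6]⟩ ⟨by norm_num; linarith only [a7], by norm_num; linarith only [a8]⟩
  rw [abs_of_nonneg (by linarith only [a3])]
  unfold SW
  push_cast at h
  linarith only [h, a3, a1]

theorem k_c4PpF : bb (tst 2 349169 0 0 0 3294195 0 0 0 2348810 0 8388608) 60
    96000 96000 102400 106240 95232 109568 102400 103860 = true := by
  decide +kernel

theorem r_c4PpF : Row 2 (-(1 / 4)) (-(1 / 4)) 0 (3 / 20) (-(7 / 25)) (7 / 25) (57 / 1000) (-(333 / 1000)) 0 0 0 (-(56 / 25)) 8 (314159 / 100000) := by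
  intro y v a1 a2 a3 a4 a5 a6 a7 a8
  have h := bb_sound tab_ok k_c4PpF (y := y) (v := v)
    ⟨by norm_num; linarith only [a1], by norm_num; linarith only [a2]⟩ ⟨by norm_num; linarith only [a3], by norm_num; linarith only [a4]⟩
    ⟨by norm_num; linarith only [a5], by norm_num; linarith only [a6]⟩ ⟨by norm_num; linarith only [a7], by norm_num; linarith only [a8]⟩
  rw [abs_of_nonneg (by linarith only [a3])]
  unfold SW
  push_cast at h
  linarith only [h, a7, a3]

theorem k_c4PpV : bb (tst 2 349169 0 0 0 3294195 0 0 0 0 0 0) 60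
    96000 96000 102400 106240 109568 109568 102400 103860 = true := by
  decide +kernel

theorem r_c4PpV : Row 2 (-(1 / 4)) (-(1 / 4)) 0 (3 / 20) (7 / 25) (7 / 25) (57 / 1000) (-(333 / 1000)) 0 0 0 0 0 (314159 / 100000) := by
  intro y v a1 a2 a3 a4 a5 a6 a7 a8
  have h := bb_sound tab_ok k_c4PpV (y := y) (v := v)
    ⟨by norm_num; linarith only [a1], by norm_num; linarith only [a2]⟩ ⟨by norm_num; linarith only [a3], by norm_num; linarith only [a4]⟩
    ⟨by norm_num; linarith only [a5], by norm_num; linarith only [a6]⟩ ⟨by norm_num; linarith only [a7], by norm_num; linarith only [a8]⟩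
  rw [abs_of_nonneg (by linarith only [a3])]
  unfold SW
  push_cast at h
  linarith only [h, a3]

theorem k_c4PpW : bb (tst 2 349169 0 0 0 3294195 0 0 0 4697620 0 0) 60
    96000 96000 102400 106240 95232 95232 102400 103860 = true := by
  decide +kernel

theorem r_c4PpW : Row 2 (-(1 / 4)) (-(1 / 4)) 0 (3 / 20) (-(7 / 25)) (-(7 / 25)) (57 / 1000) (-(333 / 1000)) 0 0 0 (-(112 / 25)) 0 (314159 / 100000) := by
  intro y v a1 a2 a3 a4 a5 a6 a7 a8
  have h := bb_sound tab_ok k_c4PpW (y := y) (v := v)
    ⟨by norm_num; linarith only [a1], by norm_num; linarith only [a2]⟩ ⟨by norm_num; linarith only [a3], by norm_num; linarith only [a4]⟩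
    ⟨by norm_num; linarith only [a5], by norm_num; linarith only [a6]⟩ ⟨by norm_num; linarith only [a7], by norm_num; linarith only [a8]⟩
  rw [abs_of_nonneg (by linarith only [a3])]
  unfold SW
  push_cast at h
  linarith only [h, a7, a3]

theorem k_c4PpR : bb (tst 2 430958 0 0 0 3294195 0 0 0 0 0 0) 60
    96000 96000 102400 106240 108800 115200 102400 102400 = true := by
  decide +kernel

theorem r_c4PpR : Row 2 (-(1 / 4)) (-(1 / 4)) 0 (3 / 20) (1 / 4) (1 / 2) 0 (-(411 / 1000)) 0 0 0 0 0 (314159 / 100000) := by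
  intro y v a1 a2 a3 a4 a5 a6 a7 a8
  have h := bb_sound tab_ok k_c4PpR (y := y) (v := v)
    ⟨by norm_num; linarith only [a1], by norm_num; linarith only [a2]⟩ ⟨by norm_num; linarith only [a3], by norm_num; linarith only [a4]⟩
    ⟨by norm_num; linarith only [a5], by norm_num; linarith only [a6]⟩ ⟨by norm_num; linarith only [a7], by norm_num; linarith only [a8]⟩
  rw [abs_of_nonneg (by linarith only [a3])]
  unfold SW
  push_cast at h
  linarith only [h, a3]

theorem k_c4PpS : bb (tst 2 430958 0 0 0 3294195 0 0 0 0 0 0) 60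
    96000 96000 102400 106240 89600 96000 102400 102400 = true := by
  decide +kernel

theorem r_c4PpS : Row 2 (-(1 / 4)) (-(1 / 4)) 0 (3 / 20) (-(1 / 2)) (-(1 / 4)) 0 (-(411 / 1000)) 0 0 0 0 0 (314159 / 100000) := by
  intro y v a1 a2 a3 a4 a5 a6 a7 a8
  have h := bb_sound tab_ok k_c4PpS (y := y) (v := v)
    ⟨by norm_num; linarith only [a1], by norm_num; linarith only [a2]⟩ ⟨by norm_num; linarith only [a3], by norm_num; linarith only [a4]⟩
    ⟨by norm_num; linarith only [a5], by norm_num; linarith only [a6]⟩ ⟨by norm_num; linarith only [a7], by norm_num; linarith only [a8]⟩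
  rw [abs_of_nonneg (by linarith only [a3])]
  unfold SW
  push_cast at h
  linarith only [h, a3]

theorem k_c4LpF : bb (tst 2 349169 0 0 0 0 0 0 0 2348810 0 8388608) 60
    96000 96000 102400 103296 95232 109568 102400 103860 = true := by
  decide +kernel

theorem r_c4LpF : Row 2 (-(1 / 4)) (-(1 / 4)) 0 (7 / 200) (-(7 / 25)) (7 / 25) (57 / 1000) (-(333 / 1000)) 0 0 0 (-(56 / 25)) 8 0 := by
  intro y v a1 a2 a3 a4 a5 a6 a7 a8
  have h := bb_sound tab_ok k_c4LpF (y := y) (v := v)
    ⟨by norm_num; linarith only [a1], by norm_num; linarith only [a2]⟩ ⟨by norm_num; linarith only [a3], by norm_num; linarith only [a4]⟩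
    ⟨by norm_num; linarith only [a5], by norm_num; linarith only [a6]⟩ ⟨by norm_num; linarith only [a7], by norm_num; linarith only [a8]⟩
  rw [abs_of_nonneg (by linarith only [a3])]
  unfold SW
  push_cast at h
  linarith only [h, a7]

theorem k_c4LpV : bb (tst 2 349169 0 0 0 0 0 0 0 0 0 0) 60
    96000 96000 102400 103296 109568 109568 102400 103860 = true := by
  decide +kernel

theorem r_c4LpV : Row 2 (-(1 / 4)) (-(1 / 4)) 0 (7 / 200) (7 / 25) (7 / 25) (57 / 1000) (-(333 / 1000)) 0 0 0 0 0 0 := by
  intro y v a1 a2 a3 a4 a5 a6 a7 a8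
  have h := bb_sound tab_ok k_c4LpV (y := y) (v := v)
    ⟨by norm_num; linarith only [a1], by norm_num; linarith only [a2]⟩ ⟨by norm_num; linarith only [a3], by norm_num; linarith only [a4]⟩
    ⟨by norm_num; linarith only [a5], by norm_num; linarith only [a6]⟩ ⟨by norm_num; linarith only [a7], by norm_num; linarith only [a8]⟩
  rw [abs_of_nonneg (by linarith only [a3])]
  unfold SW
  push_cast at h
  linarith only [h]

theorem k_c4LpW : bb (tst 2 349169 0 0 0 0 0 0 0 4697620 0 0) 60
    96000 96000 102400 103296 95232 95232 102400 103860 = true := by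
  decide +kernel

theorem r_c4LpW : Row 2 (-(1 / 4)) (-(1 / 4)) 0 (7 / 200) (-(7 / 25)) (-(7 / 25)) (57 / 1000) (-(333 / 1000)) 0 0 0 (-(112 / 25)) 0 0 := by
  intro y v a1 a2 a3 a4 a5 a6 a7 a8
  have h := bb_sound tab_ok k_c4LpW (y := y) (v := v)
    ⟨by norm_num; linarith only [a1], by norm_num; linarith only [a2]⟩ ⟨by norm_num; linarith only [a3], by norm_num; linarith only [a4]⟩
    ⟨by norm_num; linarith only [a5], by norm_num; linarith only [a6]⟩ ⟨by norm_num; linarith only [a7], by norm_num; linarith only [a8]⟩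
  rw [abs_of_nonneg (by linarith only [a3])]
  unfold SW
  push_cast at h
  linarith only [h, a7]

theorem k_c4LpR : bb (tst 2 430958 0 0 0 0 0 0 0 0 0 0) 60
    96000 96000 102400 103296 108800 115200 102400 102400 = true := by
  decide +kernel

theorem r_c4LpR : Row 2 (-(1 / 4)) (-(1 / 4)) 0 (7 / 200) (1 / 4) (1 / 2) 0 (-(411 / 1000)) 0 0 0 0 0 0 := by
  intro y v a1 a2 a3 a4 a5 a6 a7 a8
  have h := bb_sound tab_ok k_c4LpR (y := y) (v := v)
    ⟨by norm_num; linarith only [a1], by norm_num; linarith only [a2]⟩ ⟨by norm_num; linarith only [a3], by norm_num; linarith only [a4]⟩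
    ⟨by norm_num; linarith only [a5], by norm_num; linarith only [a6]⟩ ⟨by norm_num; linarith only [a7], by norm_num; linarith only [a8]⟩
  rw [abs_of_nonneg (by linarith only [a3])]
  unfold SW
  push_cast at h
  linarith only [h]

theorem k_c4LpS : bb (tst 2 430958 0 0 0 0 0 0 0 0 0 0) 60
    96000 96000 102400 103296 89600 96000 102400 102400 = true := by
  decide +kernel

theorem r_c4LpS : Row 2 (-(1 / 4)) (-(1 / 4)) 0 (7 / 200) (-(1 / 2)) (-(1 / 4)) 0 (-(411 / 1000)) 0 0 0 0 0 0 := by
  intro y v a1 a2 a3 a4 a5 a6 a7 a8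
  have h := bb_sound tab_ok k_c4LpS (y := y) (v := v)
    ⟨by norm_num; linarith only [a1], by norm_num; linarith only [a2]⟩ ⟨by norm_num; linarith only [a3], by norm_num; linarith only [a4]⟩
    ⟨by norm_num; linarith only [a5], by norm_num; linarith only [a6]⟩ ⟨by norm_num; linarith only [a7], by norm_num; linarith only [a8]⟩
  rw [abs_of_nonneg (by linarith only [a3])]
  unfold SW
  push_cast at h
  linarith only [h]

theorem k_c4GpF : bb (tst 2 376432 0 0 222299 0 0 0 0 2348810 0 8388608) 60
    96000 102400 102400 103296 95232 109568 102400 103860 = true := by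
  decide +kernel

theorem r_c4GpF : Row 2 (-(1 / 4)) 0 0 (7 / 200) (-(7 / 25)) (7 / 25) (57 / 1000) (-(359 / 1000)) (53 / 250) 0 0 (-(56 / 25)) 8 0 := by
  intro y v a1 a2 a3 a4 a5 a6 a7 a8
  have h := bb_sound tab_ok k_c4GpF (y := y) (v := v)
    ⟨by norm_num; linarith only [a1], by norm_num; linarith only [a2]⟩ ⟨by norm_num; linarith only [a3], by norm_num; linarith only [a4]⟩
    ⟨by norm_num; linarith only [a5], by norm_num; linarith only [a6]⟩ ⟨by norm_num; linarith only [a7], by norm_num; linarith only [a8]⟩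
  rw [abs_of_nonneg (by linarith only [a3])]
  unfold SW
  push_cast at h
  linarith only [h, a7, a1]

theorem k_c4GpV : bb (tst 2 376432 0 0 222299 0 0 0 0 0 0 0) 60
    96000 102400 102400 103296 109568 109568 102400 103860 = true := by
  decide +kernel

theorem r_c4GpV : Row 2 (-(1 / 4)) 0 0 (7 / 200) (7 / 25) (7 / 25) (57 / 1000) (-(359 / 1000)) (53 / 250) 0 0 0 0 0 := by
  intro y v a1 a2 a3 a4 a5 a6 a7 a8
  have h := bb_sound tab_ok k_c4GpV (y := y) (v := v)
    ⟨by norm_num; linarith only [a1], by norm_num; linarith only [a2]⟩ ⟨by norm_num; linarith only [a3], by norm_num; linarith only [a4]⟩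
    ⟨by norm_num; linarith only [a5], by norm_num; linarith only [a6]⟩ ⟨by norm_num; linarith only [a7], by norm_num; linarith only [a8]⟩
  rw [abs_of_nonneg (by linarith only [a3])]
  unfold SW
  push_cast at h
  linarith only [h, a1]

theorem k_c4GpW : bb (tst 2 376432 0 0 222299 0 0 0 0 4697620 0 0) 60
    96000 102400 102400 103296 95232 95232 102400 103860 = true := by
  decide +kernel

theorem r_c4GpW : Row 2 (-(1 / 4)) 0 0 (7 / 200) (-(7 / 25)) (-(7 / 25)) (57 / 1000) (-(359 / 1000)) (53 / 250) 0 0 (-(112 / 25)) 0 0 := by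
  intro y v a1 a2 a3 a4 a5 a6 a7 a8
  have h := bb_sound tab_ok k_c4GpW (y := y) (v := v)
    ⟨by norm_num; linarith only [a1], by norm_num; linarith only [a2]⟩ ⟨by norm_num; linarith only [a3], by norm_num; linarith only [a4]⟩
    ⟨by norm_num; linarith only [a5], by norm_num; linarith only [a6]⟩ ⟨by norm_num; linarith only [a7], by norm_num; linarith only [a8]⟩
  rw [abs_of_nonneg (by linarith only [a3])]
  unfold SW
  push_cast at h
  linarith only [h, a7, a1]

theorem k_c4GpR : bb (tst 2 464513 0 0 234882 0 0 0 0 0 0 0) 60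
    96000 102400 102400 103296 108800 115200 102400 102400 = true := by
  decide +kernel

theorem r_c4GpR : Row 2 (-(1 / 4)) 0 0 (7 / 200) (1 / 4) (1 / 2) 0 (-(443 / 1000)) (28 / 125) 0 0 0 0 0 := by
  intro y v a1 a2 a3 a4 a5 a6 a7 a8
  have h := bb_sound tab_ok k_c4GpR (y := y) (v := v)
    ⟨by norm_num; linarith only [a1], by norm_num; linarith only [a2]⟩ ⟨by norm_num; linarith only [a3], by norm_num; linarith only [a4]⟩
    ⟨by norm_num; linarith only [a5], by norm_num; linarith only [a6]⟩ ⟨by norm_num; linarith only [a7], by norm_num; linarith only [a8]⟩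
  rw [abs_of_nonneg (by linarith only [a3])]
  unfold SW
  push_cast at h
  linarith only [h, a1]

theorem k_c4GpS : bb (tst 2 464513 0 0 234882 0 0 0 0 0 0 0) 60
    96000 102400 102400 103296 89600 96000 102400 102400 = true := by
  decide +kernel

theorem r_c4GpS : Row 2 (-(1 / 4)) 0 0 (7 / 200) (-(1 / 2)) (-(1 / 4)) 0 (-(443 / 1000)) (28 / 125) 0 0 0 0 0 := by
  intro y v a1 a2 a3 a4 a5 a6 a7 a8
  have h := bb_sound tab_ok k_c4GpS (y := y) (v := v)
    ⟨by norm_num; linarith only [a1], by norm_num; linarith only [a2]⟩ ⟨by norm_num; linarith only [a3], by norm_num; linarith only [a4]⟩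
    ⟨by norm_num; linarith only [a5], by norm_num; linarith only [a6]⟩ ⟨by norm_num; linarith only [a7], by norm_num; linarith only [a8]⟩
  rw [abs_of_nonneg (by linarith only [a3])]
  unfold SW
  push_cast at h
  linarith only [h, a1]

theorem k_c4tamF : bb (tst 2 409672 0 0 219153 0 3294196 0 0 2348810 0 8388608) 60
    102400 110080 98560 98560 95232 109568 102400 103860 = true := by
  decide +kernel

theorem r_c4tamF : Row 2 0 (3 / 10) (-(3 / 20)) (-(3 / 20)) (-(7 / 25)) (7 / 25) (57 / 1000) (-(3907 / 10000)) (209 / 1000) 0 0 (-(56 / 25)) 8 (314159 / 100000) := by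
  intro y v a1 a2 a3 a4 a5 a6 a7 a8
  have h := bb_sound tab_ok k_c4tamF (y := y) (v := v)
    ⟨by norm_num; linarith only [a1], by norm_num; linarith only [a2]⟩ ⟨by norm_num; linarith only [a3], by norm_num; linarith only [a4]⟩
    ⟨by norm_num; linarith only [a5], by norm_num; linarith only [a6]⟩ ⟨by norm_num; linarith only [a7], by norm_num; linarith only [a8]⟩
  rw [abs_of_nonpos (by linarith only [a4])]
  unfold SW
  push_cast at h
  linarith only [h, a7, a3, a1]

theorem k_c4tamV : bb (tst 2 409672 0 0 219153 0 3294196 0 0 0 0 0) 60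
    102400 110080 98560 98560 109568 109568 102400 103860 = true := by
  decide +kernel

theorem r_c4tamV : Row 2 0 (3 / 10) (-(3 / 20)) (-(3 / 20)) (7 / 25) (7 / 25) (57 / 1000) (-(3907 / 10000)) (209 / 1000) 0 0 0 0 (314159 / 100000) := by
  intro y v a1 a2 a3 a4 a5 a6 a7 a8
  have h := bb_sound tab_ok k_c4tamV (y := y) (v := v)
    ⟨by norm_num; linarith only [a1], by norm_num; linarith only [a2]⟩ ⟨by norm_num; linarith only [a3], by norm_num; linarith only [a4]⟩
    ⟨by norm_num; linarith only [a5], by norm_num; linarith only [a6]⟩ ⟨by norm_num; linarith only [a7], by norm_num; linarith only [a8]⟩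
  rw [abs_of_nonpos (by linarith only [a4])]
  unfold SW
  push_cast at h
  linarith only [h, a3, a1]

theorem k_c4tamW : bb (tst 2 409672 0 0 219153 0 3294196 0 0 4697620 0 0) 60
    102400 110080 98560 98560 95232 95232 102400 103860 = true := by
  decide +kernel

theorem r_c4tamW : Row 2 0 (3 / 10) (-(3 / 20)) (-(3 / 20)) (-(7 / 25)) (-(7 / 25)) (57 / 1000) (-(3907 / 10000)) (209 / 1000) 0 0 (-(112 / 25)) 0 (314159 / 100000) := by
  intro y v a1 a2 a3 a4 a5 a6 a7 a8
  have h := bb_sound tab_ok k_c4tamW (y := y) (v := v)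
    ⟨by norm_num; linarith only [a1], by norm_num; linarith only [a2]⟩ ⟨by norm_num; linarith only [a3], by norm_num; linarith only [a4]⟩
    ⟨by norm_num; linarith only [a5], by norm_num; linarith only [a6]⟩ ⟨by norm_num; linarith only [a7], by norm_num; linarith only [a8]⟩
  rw [abs_of_nonpos (by linarith only [a4])]
  unfold SW
  push_cast at h
  linarith only [h, a7, a3, a1]

theorem k_c4tamR : bb (tst 2 488106 0 0 232784 0 3294196 0 0 0 0 0) 60
    102400 110080 98560 98560 108800 115200 102400 102400 = true := by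
  decide +kernel

theorem r_c4tamR : Row 2 0 (3 / 10) (-(3 / 20)) (-(3 / 20)) (1 / 4) (1 / 2) 0 (-(931 / 2000)) (111 / 500) 0 0 0 0 (314159 / 100000) := by
  intro y v a1 a2 a3 a4 a5 a6 a7 a8
  have h := bb_sound tab_ok k_c4tamR (y := y) (v := v)
    ⟨by norm_num; linarith only [a1], by norm_num; linarith only [a2]⟩ ⟨by norm_num; linarith only [a3], by norm_num; linarith only [a4]⟩
    ⟨by norm_num; linarith only [a5], by norm_num; linarith only [a6]⟩ ⟨by norm_num; linarith only [a7], by norm_num; linarith only [a8]⟩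
  rw [abs_of_nonpos (by linarith only [a4])]
  unfold SW
  push_cast at h
  linarith only [h, a3, a1]

theorem k_c4tamS : bb (tst 2 488106 0 0 232784 0 3294196 0 0 0 0 0) 60
    102400 110080 98560 98560 89600 96000 102400 102400 = true := by
  decide +kernel

theorem r_c4tamS : Row 2 0 (3 / 10) (-(3 / 20)) (-(3 / 20)) (-(1 / 2)) (-(1 / 4)) 0 (-(931 / 2000)) (111 / 500) 0 0 0 0 (314159 / 100000) := by
  intro y v a1 a2 a3 a4 a5 a6 a7 a8
  have h := bb_sound tab_ok k_c4tamS (y := y) (v := v)
    ⟨by norm_num; linarith only [a1], by norm_num; linarith only [a2]⟩ ⟨by norm_num; linarith only [a3], by norm_num; linarith only [a4]⟩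
    ⟨by norm_num; linarith only [a5], by norm_num; linarith only [a6]⟩ ⟨by norm_num; linarith only [a7], by norm_num; linarith only [a8]⟩
  rw [abs_of_nonpos (by linarith only [a4])]
  unfold SW
  push_cast at h
  linarith only [h, a3, a1]

theorem k_c4tbmF : bb (tst 2 540534 0 0 655360 0 3294196 0 0 2348810 0 8388608) 60
    110080 115200 98560 98560 95232 109568 102400 103860 = true := by
  decide +kernel

theorem r_c4tbmF : Row 2 (3 / 10) (1 / 2) (-(3 / 20)) (-(3 / 20)) (-(7 / 25)) (7 / 25) (57 / 1000) (-(1031 / 2000)) (5 / 8) 0 0 (-(56 / 25)) 8 (314159 / 100000) := by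
  intro y v a1 a2 a3 a4 a5 a6 a7 a8
  have h := bb_sound tab_ok k_c4tbmF (y := y) (v := v)
    ⟨by norm_num; linarith only [a1], by norm_num; linarith only [a2]⟩ ⟨by norm_num; linarith only [a3], by norm_num; linarith only [a4]⟩
    ⟨by norm_num; linarith only [a5], by norm_num; linarith only [a6]⟩ ⟨by norm_num; linarith only [a7], by norm_num; linarith only [a8]⟩
  rw [abs_of_nonpos (by linarith only [a4])]
  unfold SW
  push_cast at h
  linarith only [h, a7, a3]

theorem k_c4tbmV : bb (tst 2 540534 0 0 655360 0 3294196 0 0 0 0 0) 60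
    110080 115200 98560 98560 109568 109568 102400 103860 = true := by
  decide +kernel

theorem r_c4tbmV : Row 2 (3 / 10) (1 / 2) (-(3 / 20)) (-(3 / 20)) (7 / 25) (7 / 25) (57 / 1000) (-(1031 / 2000)) (5 / 8) 0 0 0 0 (314159 / 100000) := by
  intro y v a1 a2 a3 a4 a5 a6 a7 a8
  have h := bb_sound tab_ok k_c4tbmV (y := y) (v := v)
    ⟨by norm_num; linarith only [a1], by norm_num; linarith only [a2]⟩ ⟨by norm_num; linarith only [a3], by norm_num; linarith only [a4]⟩
    ⟨by norm_num; linarith only [a5], by norm_num; linarith only [a6]⟩ ⟨by norm_num; linarith only [a7], by norm_num; linarith only [a8]⟩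
  rw [abs_of_nonpos (by linarith only [a4])]
  unfold SW
  push_cast at h
  linarith only [h, a3]

theorem k_c4tbmW : bb (tst 2 540534 0 0 655360 0 3294196 0 0 4697620 0 0) 60
    110080 115200 98560 98560 95232 95232 102400 103860 = true := by
  decide +kernel

theorem r_c4tbmW : Row 2 (3 / 10) (1 / 2) (-(3 / 20)) (-(3 / 20)) (-(7 / 25)) (-(7 / 25)) (57 / 1000) (-(1031 / 2000)) (5 / 8) 0 0 (-(112 / 25)) 0 (314159 / 100000) := by
  intro y v a1 a2 a3 a4 a5 a6 a7 a8
  have h := bb_sound tab_ok k_c4tbmW (y := y) (v := v)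
    ⟨by norm_num; linarith only [a1], by norm_num; linarith only [a2]⟩ ⟨by norm_num; linarith only [a3], by norm_num; linarith only [a4]⟩
    ⟨by norm_num; linarith only [a5], by norm_num; linarith only [a6]⟩ ⟨by norm_num; linarith only [a7], by norm_num; linarith only [a8]⟩
  rw [abs_of_nonpos (by linarith only [a4])]
  unfold SW
  push_cast at h
  linarith only [h, a7, a3]

theorem k_c4tbmR : bb (tst 2 660596 0 0 807404 0 3294196 0 0 0 0 0) 60
    110080 115200 98560 98560 108800 115200 102400 102400 = true := by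
  decide +kernel

theorem r_c4tbmR : Row 2 (3 / 10) (1 / 2) (-(3 / 20)) (-(3 / 20)) (1 / 4) (1 / 2) 0 (-(63 / 100)) (77 / 100) 0 0 0 0 (314159 / 100000) := by
  intro y v a1 a2 a3 a4 a5 a6 a7 a8
  have h := bb_sound tab_ok k_c4tbmR (y := y) (v := v)
    ⟨by norm_num; linarith only [a1], by norm_num; linarith only [a2]⟩ ⟨by norm_num; linarith only [a3], by norm_num; linarith only [a4]⟩
    ⟨by norm_num; linarith only [a5], by norm_num; linarith only [a6]⟩ ⟨by norm_num; linarith only [a7], by norm_num; linarith only [a8]⟩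
  rw [abs_of_nonpos (by linarith only [a4])]
  unfold SW
  push_cast at h
  linarith only [h, a3, a1]

theorem k_c4tbmS : bb (tst 2 660596 0 0 807404 0 3294196 0 0 0 0 0) 60
    110080 115200 98560 98560 89600 96000 102400 102400 = true := by
  decide +kernel

theorem r_c4tbmS : Row 2 (3 / 10) (1 / 2) (-(3 / 20)) (-(3 / 20)) (-(1 / 2)) (-(1 / 4)) 0 (-(63 / 100)) (77 / 100) 0 0 0 0 (314159 / 100000) := by
  intro y v a1 a2 a3 a4 a5 a6 a7 a8
  have h := bb_sound tab_ok k_c4tbmS (y := y) (v := v)
    ⟨by norm_num; linarith only [a1], by norm_num; linarith only [a2]⟩ ⟨by norm_num; linarith only [a3], by norm_num; linarith only [a4]⟩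
    ⟨by norm_num; linarith only [a5], by norm_num; linarith only [a6]⟩ ⟨by norm_num; linarith only [a7], by norm_num; linarith only [a8]⟩
  rw [abs_of_nonpos (by linarith only [a4])]
  unfold SW
  push_cast at h
  linarith only [h, a3, a1]

theorem k_c4umF : bb (tst 2 294329 0 0 219153 0 3294196 0 0 2348810 0 8388608) 60
    96000 102400 98560 98560 95232 109568 102400 103860 = true := by
  decide +kernel

theorem r_c4umF : Row 2 (-(1 / 4)) 0 (-(3 / 20)) (-(3 / 20)) (-(7 / 25)) (7 / 25) (57 / 1000) (-(2807 / 10000)) (209 / 1000) 0 0 (-(56 / 25)) 8 (314159 / 100000) := by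
  intro y v a1 a2 a3 a4 a5 a6 a7 a8
  have h := bb_sound tab_ok k_c4umF (y := y) (v := v)
    ⟨by norm_num; linarith only [a1], by norm_num; linarith only [a2]⟩ ⟨by norm_num; linarith only [a3], by norm_num; linarith only [a4]⟩
    ⟨by norm_num; linarith only [a5], by norm_num; linarith only [a6]⟩ ⟨by norm_num; linarith only [a7], by norm_num; linarith only [a8]⟩
  rw [abs_of_nonpos (by linarith only [a4])]
  unfold SW
  push_cast at h
  linarith only [h, a7, a3, a1]

theorem k_c4umV : bb (tst 2 294329 0 0 219153 0 3294196 0 0 0 0 0) 60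
    96000 102400 98560 98560 109568 109568 102400 103860 = true := by
  decide +kernel

theorem r_c4umV : Row 2 (-(1 / 4)) 0 (-(3 / 20)) (-(3 / 20)) (7 / 25) (7 / 25) (57 / 1000) (-(2807 / 10000)) (209 / 1000) 0 0 0 0 (314159 / 100000) := by
  intro y v a1 a2 a3 a4 a5 a6 a7 a8
  have h := bb_sound tab_ok k_c4umV (y := y) (v := v)
    ⟨by norm_num; linarith only [a1], by norm_num; linarith only [a2]⟩ ⟨by norm_num; linarith only [a3], by norm_num; linarith only [a4]⟩
    ⟨by norm_num; linarith only [a5], by norm_num; linarith only [a6]⟩ ⟨by norm_num; linarith only [a7], by norm_num; linarith only [a8]⟩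
  rw [abs_of_nonpos (by linarith only [a4])]
  unfold SW
  push_cast at h
  linarith only [h, a3, a1]

theorem k_c4umW : bb (tst 2 294329 0 0 219153 0 3294196 0 0 4697620 0 0) 60
    96000 102400 98560 98560 95232 95232 102400 103860 = true := by
  decide +kernel

theorem r_c4umW : Row 2 (-(1 / 4)) 0 (-(3 / 20)) (-(3 / 20)) (-(7 / 25)) (-(7 / 25)) (57 / 1000) (-(2807 / 10000)) (209 / 1000) 0 0 (-(112 / 25)) 0 (314159 / 100000) := by
  intro y v a1 a2 a3 a4 a5 a6 a7 a8
  have h := bb_sound tab_ok k_c4umW (y := y) (v := v)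
    ⟨by norm_num; linarith only [a1], by norm_num; linarith only [a2]⟩ ⟨by norm_num; linarith only [a3], by norm_num; linarith only [a4]⟩
    ⟨by norm_num; linarith only [a5], by norm_num; linarith only [a6]⟩ ⟨by norm_num; linarith only [a7], by norm_num; linarith only [a8]⟩
  rw [abs_of_nonpos (by linarith only [a4])]
  unfold SW
  push_cast at h
  linarith only [h, a7, a3, a1]

theorem k_c4umR : bb (tst 2 372762 0 0 232784 0 3294196 0 0 0 0 0) 60
    96000 102400 98560 98560 108800 115200 102400 102400 = true := by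
  decide +kernel

theorem r_c4umR : Row 2 (-(1 / 4)) 0 (-(3 / 20)) (-(3 / 20)) (1 / 4) (1 / 2) 0 (-(711 / 2000)) (111 / 500) 0 0 0 0 (314159 / 100000) := by
  intro y v a1 a2 a3 a4 a5 a6 a7 a8
  have h := bb_sound tab_ok k_c4umR (y := y) (v := v)
    ⟨by norm_num; linarith only [a1], by norm_num; linarith only [a2]⟩ ⟨by norm_num; linarith only [a3], by norm_num; linarith only [a4]⟩
    ⟨by norm_num; linarith only [a5], by norm_num; linarith only [a6]⟩ ⟨by norm_num; linarith only [a7], by norm_num; linarith only [a8]⟩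
  rw [abs_of_nonpos (by linarith only [a4])]
  unfold SW
  push_cast at h
  linarith only [h, a3, a1]

theorem k_c4umS : bb (tst 2 372762 0 0 232784 0 3294196 0 0 0 0 0) 60
    96000 102400 98560 98560 89600 96000 102400 102400 = true := by
  decide +kernel

theorem r_c4umS : Row 2 (-(1 / 4)) 0 (-(3 / 20)) (-(3 / 20)) (-(1 / 2)) (-(1 / 4)) 0 (-(711 / 2000)) (111 / 500) 0 0 0 0 (314159 / 100000) := by
  intro y v a1 a2 a3 a4 a5 a6 a7 a8
  have h := bb_sound tab_ok k_c4umS (y := y) (v := v)
    ⟨by norm_num; linarith only [a1], by norm_num; linarith only [a2]⟩ ⟨by norm_num; linarith only [a3], by norm_num; linarith only [a4]⟩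
    ⟨by norm_num; linarith only [a5], by norm_num; linarith only [a6]⟩ ⟨by norm_num; linarith only [a7], by norm_num; linarith only [a8]⟩
  rw [abs_of_nonpos (by linarith only [a4])]
  unfold SW
  push_cast at h
  linarith only [h, a3, a1]

theorem k_c4PmF : bb (tst 2 349169 0 0 0 0 3294196 0 0 2348810 0 8388608) 60
    96000 96000 98560 102400 95232 109568 102400 103860 = true := by
  decide +kernel

theorem r_c4PmF : Row 2 (-(1 / 4)) (-(1 / 4)) (-(3 / 20)) 0 (-(7 / 25)) (7 / 25) (57 / 1000) (-(333 / 1000)) 0 0 0 (-(56 / 25)) 8 (314159 / 100000) := by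
  intro y v a1 a2 a3 a4 a5 a6 a7 a8
  have h := bb_sound tab_ok k_c4PmF (y := y) (v := v)
    ⟨by norm_num; linarith only [a1], by norm_num; linarith only [a2]⟩ ⟨by norm_num; linarith only [a3], by norm_num; linarith only [a4]⟩
    ⟨by norm_num; linarith only [a5], by norm_num; linarith only [a6]⟩ ⟨by norm_num; linarith only [a7], by norm_num; linarith only [a8]⟩
  rw [abs_of_nonpos (by linarith only [a4])]
  unfold SW
  push_cast at h
  linarith only [h, a7, a3]

theorem k_c4PmV : bb (tst 2 349169 0 0 0 0 3294196 0 0 0 0 0) 60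
    96000 96000 98560 102400 109568 109568 102400 103860 = true := by
  decide +kernel

theorem r_c4PmV : Row 2 (-(1 / 4)) (-(1 / 4)) (-(3 / 20)) 0 (7 / 25) (7 / 25) (57 / 1000) (-(333 / 1000)) 0 0 0 0 0 (314159 / 100000) := by
  intro y v a1 a2 a3 a4 a5 a6 a7 a8
  have h := bb_sound tab_ok k_c4PmV (y := y) (v := v)
    ⟨by norm_num; linarith only [a1], by norm_num; linarith only [a2]⟩ ⟨by norm_num; linarith only [a3], by norm_num; linarith only [a4]⟩
    ⟨by norm_num; linarith only [a5], by norm_num; linarith only [a6]⟩ ⟨by norm_num; linarith only [a7], by norm_num; linarith only [a8]⟩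
  rw [abs_of_nonpos (by linarith only [a4])]
  unfold SW
  push_cast at h
  linarith only [h, a3]

theorem k_c4PmW : bb (tst 2 349169 0 0 0 0 3294196 0 0 4697620 0 0) 60
    96000 96000 98560 102400 95232 95232 102400 103860 = true := by
  decide +kernel

theorem r_c4PmW : Row 2 (-(1 / 4)) (-(1 / 4)) (-(3 / 20)) 0 (-(7 / 25)) (-(7 / 25)) (57 / 1000) (-(333 / 1000)) 0 0 0 (-(112 / 25)) 0 (314159 / 100000) := by
  intro y v a1 a2 a3 a4 a5 a6 a7 a8
  have h := bb_sound tab_ok k_c4PmW (y := y) (v := v)
    ⟨by norm_num; linarith only [a1], by norm_num; linarith only [a2]⟩ ⟨by norm_num; linarith only [a3], by norm_num; linarith only [a4]⟩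
    ⟨by norm_num; linarith only [a5], by norm_num; linarith only [a6]⟩ ⟨by norm_num; linarith only [a7], by norm_num; linarith only [a8]⟩
  rw [abs_of_nonpos (by linarith only [a4])]
  unfold SW
  push_cast at h
  linarith only [h, a7, a3]

theorem k_c4PmR : bb (tst 2 430958 0 0 0 0 3294196 0 0 0 0 0) 60
    96000 96000 98560 102400 108800 115200 102400 102400 = true := by
  decide +kernel

theorem r_c4PmR : Row 2 (-(1 / 4)) (-(1 / 4)) (-(3 / 20)) 0 (1 / 4) (1 / 2) 0 (-(411 / 1000)) 0 0 0 0 0 (314159 / 100000) := by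
  intro y v a1 a2 a3 a4 a5 a6 a7 a8
  have h := bb_sound tab_ok k_c4PmR (y := y) (v := v)
    ⟨by norm_num; linarith only [a1], by norm_num; linarith only [a2]⟩ ⟨by norm_num; linarith only [a3], by norm_num; linarith only [a4]⟩
    ⟨by norm_num; linarith only [a5], by norm_num; linarith only [a6]⟩ ⟨by norm_num; linarith only [a7], by norm_num; linarith only [a8]⟩
  rw [abs_of_nonpos (by linarith only [a4])]
  unfold SW
  push_cast at h
  linarith only [h, a3]

theorem k_c4PmS : bb (tst 2 430958 0 0 0 0 3294196 0 0 0 0 0) 60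
    96000 96000 98560 102400 89600 96000 102400 102400 = true := by
  decide +kernel

theorem r_c4PmS : Row 2 (-(1 / 4)) (-(1 / 4)) (-(3 / 20)) 0 (-(1 / 2)) (-(1 / 4)) 0 (-(411 / 1000)) 0 0 0 0 0 (314159 / 100000) := by
  intro y v a1 a2 a3 a4 a5 a6 a7 a8
  have h := bb_sound tab_ok k_c4PmS (y := y) (v := v)
    ⟨by norm_num; linarith only [a1], by norm_num; linarith only [a2]⟩ ⟨by norm_num; linarith only [a3], by norm_num; linarith only [a4]⟩
    ⟨by norm_num; linarith only [a5], by norm_num; linarith only [a6]⟩ ⟨by norm_num; linarith only [a7], by norm_num; linarith only [a8]⟩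
  rw [abs_of_nonpos (by linarith only [a4])]
  unfold SW
  push_cast at h
  linarith only [h, a3]

theorem k_c4LmF : bb (tst 2 349169 0 0 0 0 0 0 0 2348810 0 8388608) 60
    96000 96000 101504 102400 95232 109568 102400 103860 = true := by
  decide +kernel

theorem r_c4LmF : Row 2 (-(1 / 4)) (-(1 / 4)) (-(7 / 200)) 0 (-(7 / 25)) (7 / 25) (57 / 1000) (-(333 / 1000)) 0 0 0 (-(56 / 25)) 8 0 := by
  intro y v a1 a2 a3 a4 a5 a6 a7 a8
  have h := bb_sound tab_ok k_c4LmF (y := y) (v := v)
    ⟨by norm_num; linarith only [a1], by norm_num; linarith only [a2]⟩ ⟨by norm_num; linarith only [a3], by norm_num; linarith only [a4]⟩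
    ⟨by norm_num; linarith only [a5], by norm_num; linarith only [a6]⟩ ⟨by norm_num; linarith only [a7], by norm_num; linarith only [a8]⟩
  rw [abs_of_nonpos (by linarith only [a4])]
  unfold SW
  push_cast at h
  linarith only [h, a7]

theorem k_c4LmV : bb (tst 2 349169 0 0 0 0 0 0 0 0 0 0) 60
    96000 96000 101504 102400 109568 109568 102400 103860 = true := by
  decide +kernel

theorem r_c4LmV : Row 2 (-(1 / 4)) (-(1 / 4)) (-(7 / 200)) 0 (7 / 25) (7 / 25) (57 / 1000) (-(333 / 1000)) 0 0 0 0 0 0 := by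
  intro y v a1 a2 a3 a4 a5 a6 a7 a8
  have h := bb_sound tab_ok k_c4LmV (y := y) (v := v)
    ⟨by norm_num; linarith only [a1], by norm_num; linarith only [a2]⟩ ⟨by norm_num; linarith only [a3], by norm_num; linarith only [a4]⟩
    ⟨by norm_num; linarith only [a5], by norm_num; linarith only [a6]⟩ ⟨by norm_num; linarith only [a7], by norm_num; linarith only [a8]⟩
  rw [abs_of_nonpos (by linarith only [a4])]
  unfold SW
  push_cast at h
  linarith only [h]

theorem k_c4LmW : bb (tst 2 349169 0 0 0 0 0 0 0 4697620 0 0) 60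
    96000 96000 101504 102400 95232 95232 102400 103860 = true := by
  decide +kernel

theorem r_c4LmW : Row 2 (-(1 / 4)) (-(1 / 4)) (-(7 / 200)) 0 (-(7 / 25)) (-(7 / 25)) (57 / 1000) (-(333 / 1000)) 0 0 0 (-(112 / 25)) 0 0 := by
  intro y v a1 a2 a3 a4 a5 a6 a7 a8
  have h := bb_sound tab_ok k_c4LmW (y := y) (v := v)
    ⟨by norm_num; linarith only [a1], by norm_num; linarith only [a2]⟩ ⟨by norm_num; linarith only [a3], by norm_num; linarith only [a4]⟩
    ⟨by norm_num; linarith only [a5], by norm_num; linarith only [a6]⟩ ⟨by norm_num; linarith only [a7], by norm_num; linarith only [a8]⟩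
  rw [abs_of_nonpos (by linarith only [a4])]
  unfold SW
  push_cast at h
  linarith only [h, a7]

theorem k_c4LmR : bb (tst 2 430958 0 0 0 0 0 0 0 0 0 0) 60
    96000 96000 101504 102400 108800 115200 102400 102400 = true := by
  decide +kernel

theorem r_c4LmR : Row 2 (-(1 / 4)) (-(1 / 4)) (-(7 / 200)) 0 (1 / 4) (1 / 2) 0 (-(411 / 1000)) 0 0 0 0 0 0 := by
  intro y v a1 a2 a3 a4 a5 a6 a7 a8
  have h := bb_sound tab_ok k_c4LmR (y := y) (v := v)
    ⟨by norm_num; linarith only [a1], by norm_num; linarith only [a2]⟩ ⟨by norm_num; linarith only [a3], by norm_num; linarith only [a4]⟩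
    ⟨by norm_num; linarith only [a5], by norm_num; linarith only [a6]⟩ ⟨by norm_num; linarith only [a7], by norm_num; linarith only [a8]⟩
  rw [abs_of_nonpos (by linarith only [a4])]
  unfold SW
  push_cast at h
  linarith only [h]

theorem k_c4LmS : bb (tst 2 430958 0 0 0 0 0 0 0 0 0 0) 60
    96000 96000 101504 102400 89600 96000 102400 102400 = true := by
  decide +kernel

theorem r_c4LmS : Row 2 (-(1 / 4)) (-(1 / 4)) (-(7 / 200)) 0 (-(1 / 2)) (-(1 / 4)) 0 (-(411 / 1000)) 0 0 0 0 0 0 := by
  intro y v a1 a2 a3 a4 a5 a6 a7 a8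
  have h := bb_sound tab_ok k_c4LmS (y := y) (v := v)
    ⟨by norm_num; linarith only [a1], by norm_num; linarith only [a2]⟩ ⟨by norm_num; linarith only [a3], by norm_num; linarith only [a4]⟩
    ⟨by norm_num; linarith only [a5], by norm_num; linarith only [a6]⟩ ⟨by norm_num; linarith only [a7], by norm_num; linarith only [a8]⟩
  rw [abs_of_nonpos (by linarith only [a4])]
  unfold SW
  push_cast at h
  linarith only [h]

theorem k_c4GmF : bb (tst 2 376432 0 0 222299 0 0 0 0 2348810 0 8388608) 60
    96000 102400 101504 102400 95232 109568 102400 103860 = true := by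
  decide +kernel

theorem r_c4GmF : Row 2 (-(1 / 4)) 0 (-(7 / 200)) 0 (-(7 / 25)) (7 / 25) (57 / 1000) (-(359 / 1000)) (53 / 250) 0 0 (-(56 / 25)) 8 0 := by
  intro y v a1 a2 a3 a4 a5 a6 a7 a8
  have h := bb_sound tab_ok k_c4GmF (y := y) (v := v)
    ⟨by norm_num; linarith only [a1], by norm_num; linarith only [a2]⟩ ⟨by norm_num; linarith only [a3], by norm_num; linarith only [a4]⟩
    ⟨by norm_num; linarith only [a5], by norm_num; linarith only [a6]⟩ ⟨by norm_num; linarith only [a7], by norm_num; linarith only [a8]⟩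
  rw [abs_of_nonpos (by linarith only [a4])]
  unfold SW
  push_cast at h
  linarith only [h, a7, a1]

theorem k_c4GmV : bb (tst 2 376432 0 0 222299 0 0 0 0 0 0 0) 60
    96000 102400 101504 102400 109568 109568 102400 103860 = true := by
  decide +kernel

theorem r_c4GmV : Row 2 (-(1 / 4)) 0 (-(7 / 200)) 0 (7 / 25) (7 / 25) (57 / 1000) (-(359 / 1000)) (53 / 250) 0 0 0 0 0 := by
  intro y v a1 a2 a3 a4 a5 a6 a7 a8
  have h := bb_sound tab_ok k_c4GmV (y := y) (v := v)
    ⟨by norm_num; linarith only [a1], by norm_num; linarith only [a2]⟩ ⟨by norm_num; linarith only [a3], by norm_num; linarith only [a4]⟩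
    ⟨by norm_num; linarith only [a5], by norm_num; linarith only [a6]⟩ ⟨by norm_num; linarith only [a7], by norm_num; linarith only [a8]⟩
  rw [abs_of_nonpos (by linarith only [a4])]
  unfold SW
  push_cast at h
  linarith only [h, a1]

theorem k_c4GmW : bb (tst 2 376432 0 0 222299 0 0 0 0 4697620 0 0) 60
    96000 102400 101504 102400 95232 95232 102400 103860 = true := by
  decide +kernel

theorem r_c4GmW : Row 2 (-(1 / 4)) 0 (-(7 / 200)) 0 (-(7 / 25)) (-(7 / 25)) (57 / 1000) (-(359 / 1000)) (53 / 250) 0 0 (-(112 / 25)) 0 0 := by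
  intro y v a1 a2 a3 a4 a5 a6 a7 a8
  have h := bb_sound tab_ok k_c4GmW (y := y) (v := v)
    ⟨by norm_num; linarith only [a1], by norm_num; linarith only [a2]⟩ ⟨by norm_num; linarith only [a3], by norm_num; linarith only [a4]⟩
    ⟨by norm_num; linarith only [a5], by norm_num; linarith only [a6]⟩ ⟨by norm_num; linarith only [a7], by norm_num; linarith only [a8]⟩
  rw [abs_of_nonpos (by linarith only [a4])]
  unfold SW
  push_cast at h
  linarith only [h, a7, a1]

theorem k_c4GmR : bb (tst 2 464513 0 0 234882 0 0 0 0 0 0 0) 60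
    96000 102400 101504 102400 108800 115200 102400 102400 = true := by
  decide +kernel

theorem r_c4GmR : Row 2 (-(1 / 4)) 0 (-(7 / 200)) 0 (1 / 4) (1 / 2) 0 (-(443 / 1000)) (28 / 125) 0 0 0 0 0 := by
  intro y v a1 a2 a3 a4 a5 a6 a7 a8
  have h := bb_sound tab_ok k_c4GmR (y := y) (v := v)
    ⟨by norm_num; linarith only [a1], by norm_num; linarith only [a2]⟩ ⟨by norm_num; linarith only [a3], by norm_num; linarith only [a4]⟩
    ⟨by norm_num; linarith only [a5], by norm_num; linarith only [a6]⟩ ⟨by norm_num; linarith only [a7], by norm_num; linarith only [a8]⟩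
  rw [abs_of_nonpos (by linarith only [a4])]
  unfold SW
  push_cast at h
  linarith only [h, a1]

theorem k_c4GmS : bb (tst 2 464513 0 0 234882 0 0 0 0 0 0 0) 60
    96000 102400 101504 102400 89600 96000 102400 102400 = true := by
  decide +kernel

theorem r_c4GmS : Row 2 (-(1 / 4)) 0 (-(7 / 200)) 0 (-(1 / 2)) (-(1 / 4)) 0 (-(443 / 1000)) (28 / 125) 0 0 0 0 0 := by
  intro y v a1 a2 a3 a4 a5 a6 a7 a8
  have h := bb_sound tab_ok k_c4GmS (y := y) (v := v)
    ⟨by norm_num; linarith only [a1], by norm_num; linarith only [a2]⟩ ⟨by norm_num; linarith only [a3], by norm_num; linarith only [a4]⟩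
    ⟨by norm_num; linarith only [a5], by norm_num; linarith only [a6]⟩ ⟨by norm_num; linarith only [a7], by norm_num; linarith only [a8]⟩
  rw [abs_of_nonpos (by linarith only [a4])]
  unfold SW
  push_cast at h
  linarith only [h, a1]

end VQ

end Pool.Agent.S5
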