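import Pool.Agent.S5.I.VQa
import Pool.Agent.S5.I.TsK

/-!
# The payments of the open nodes: parameter-free inequalities
-/

set_option autoImplicit false

namespace Pool.Agent.S5

open Pool.Agent.H63.VC3 Pool.Agent.S3 Complex Tb

namespace VQ

theorem k_c5tapF : bb (tst 2 264654 0 127926 0 3294195 0 0 0 2348810 0 8388608) 60
    102400 110080 106240 106240 95232 109568 102400 103988 = true := by
  decide +kernel

theorem r_c5tapF : Row 2 0 (3 / 10) (3 / 20) (3 / 20) (-(7 / 25)) (7 / 25) (31 / 500) (-(631 / 2500)) (-(61 / 500)) 0 0 (-(56 / 25)) 8 (314159 / 100000) := by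
  intro y v a1 a2 a3 a4 a5 a6 a7 a8
  have h := bb_sound tab_ok k_c5tapF (y := y) (v := v)
    ⟨by norm_num; linarith only [a1], by norm_num; linarith only [a2]⟩ ⟨by norm_num; linarith only [a3], by norm_num; linarith only [a4]⟩
    ⟨by norm_num; linarith only [a5], by norm_num; linarith only [a6]⟩ ⟨by norm_num; linarith only [a7], by norm_num; linarith only [a8]⟩
  rw [abs_of_nonneg (by linarith only [a3])]
  unfold SW
  push_cast at h
  linarith only [h, a7, a3, a1]

theorem k_c5tapV : bb (tst 2 264654 0 127926 0 3294195 0 0 0 0 0 0) 60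
    102400 110080 106240 106240 109568 109568 102400 103988 = true := by
  decide +kernel

theorem r_c5tapV : Row 2 0 (3 / 10) (3 / 20) (3 / 20) (7 / 25) (7 / 25) (31 / 500) (-(631 / 2500)) (-(61 / 500)) 0 0 0 0 (314159 / 100000) := by
  intro y v a1 a2 a3 a4 a5 a6 a7 a8
  have h := bb_sound tab_ok k_c5tapV (y := y) (v := v)
    ⟨by norm_num; linarith only [a1], by norm_num; linarith only [a2]⟩ ⟨by norm_num; linarith only [a3], by norm_num; linarith only [a4]⟩
    ⟨by norm_num; linarith only [a5], by norm_num; linarith only [a6]⟩ ⟨by norm_num; linarith only [a7], by norm_num; linarith only [a8]⟩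
  rw [abs_of_nonneg (by linarith only [a3])]
  unfold SW
  push_cast at h
  linarith only [h, a3, a1]

theorem k_c5tapW : bb (tst 2 264654 0 127926 0 3294195 0 0 0 4697620 0 0) 60
    102400 110080 106240 106240 95232 95232 102400 103988 = true := by
  decide +kernel

theorem r_c5tapW : Row 2 0 (3 / 10) (3 / 20) (3 / 20) (-(7 / 25)) (-(7 / 25)) (31 / 500) (-(631 / 2500)) (-(61 / 500)) 0 0 (-(112 / 25)) 0 (314159 / 100000) := by
  intro y v a1 a2 a3 a4 a5 a6 a7 a8
  have h := bb_sound tab_ok k_c5tapW (y := y) (v := v)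
    ⟨by norm_num; linarith only [a1], by norm_num; linarith only [a2]⟩ ⟨by norm_num; linarith only [a3], by norm_num; linarith only [a4]⟩
    ⟨by norm_num; linarith only [a5], by norm_num; linarith only [a6]⟩ ⟨by norm_num; linarith only [a7], by norm_num; linarith only [a8]⟩
  rw [abs_of_nonneg (by linarith only [a3])]
  unfold SW
  push_cast at h
  linarith only [h, a7, a3, a1]

theorem k_c5tapR : bb (tst 2 334175 0 116391 0 3294195 0 0 0 0 0 0) 60
    102400 110080 106240 106240 108800 115200 102400 102400 = true := by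
  decide +kernel

theorem r_c5tapR : Row 2 0 (3 / 10) (3 / 20) (3 / 20) (1 / 4) (1 / 2) 0 (-(3187 / 10000)) (-(111 / 1000)) 0 0 0 0 (314159 / 100000) := by
  intro y v a1 a2 a3 a4 a5 a6 a7 a8
  have h := bb_sound tab_ok k_c5tapR (y := y) (v := v)
    ⟨by norm_num; linarith only [a1], by norm_num; linarith only [a2]⟩ ⟨by norm_num; linarith only [a3], by norm_num; linarith only [a4]⟩
    ⟨by norm_num; linarith only [a5], by norm_num; linarith only [a6]⟩ ⟨by norm_num; linarith only [a7], by norm_num; linarith only [a8]⟩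
  rw [abs_of_nonneg (by linarith only [a3])]
  unfold SW
  push_cast at h
  linarith only [h, a3, a1]

theorem k_c5tapS : bb (tst 2 334175 0 116391 0 3294195 0 0 0 0 0 0) 60
    102400 110080 106240 106240 89600 96000 102400 102400 = true := by
  decide +kernel

theorem r_c5tapS : Row 2 0 (3 / 10) (3 / 20) (3 / 20) (-(1 / 2)) (-(1 / 4)) 0 (-(3187 / 10000)) (-(111 / 1000)) 0 0 0 0 (314159 / 100000) := by
  intro y v a1 a2 a3 a4 a5 a6 a7 a8
  have h := bb_sound tab_ok k_c5tapS (y := y) (v := v)
    ⟨by norm_num; linarith only [a1], by norm_num; linarith only [a2]⟩ ⟨by norm_num; linarith only [a3], by norm_num; linarith only [a4]⟩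
    ⟨by norm_num; linarith only [a5], by norm_num; linarith only [a6]⟩ ⟨by norm_num; linarith only [a7], by norm_num; linarith only [a8]⟩
  rw [abs_of_nonneg (by linarith only [a3])]
  unfold SW
  push_cast at h
  linarith only [h, a3, a1]

theorem k_c5tbpF : bb (tst 2 450881 0 0 492831 3294195 0 0 0 2348810 0 8388608) 60
    110080 115200 106240 106240 95232 109568 102400 103988 = true := by
  decide +kernel

theorem r_c5tbpF : Row 2 (3 / 10) (1 / 2) (3 / 20) (3 / 20) (-(7 / 25)) (7 / 25) (31 / 500) (-(43 / 100)) (47 / 100) 0 0 (-(56 / 25)) 8 (314159 / 100000) := by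
  intro y v a1 a2 a3 a4 a5 a6 a7 a8
  have h := bb_sound tab_ok k_c5tbpF (y := y) (v := v)
    ⟨by norm_num; linarith only [a1], by norm_num; linarith only [a2]⟩ ⟨by norm_num; linarith only [a3], by norm_num; linarith only [a4]⟩
    ⟨by norm_num; linarith only [a5], by norm_num; linarith only [a6]⟩ ⟨by norm_num; linarith only [a7], by norm_num; linarith only [a8]⟩
  rw [abs_of_nonneg (by linarith only [a3])]
  unfold SW
  push_cast at h
  linarith only [h, a7, a3, a1]

theorem k_c5tbpV : bb (tst 2 450881 0 0 492831 3294195 0 0 0 0 0 0) 60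
    110080 115200 106240 106240 109568 109568 102400 103988 = true := by
  decide +kernel

theorem r_c5tbpV : Row 2 (3 / 10) (1 / 2) (3 / 20) (3 / 20) (7 / 25) (7 / 25) (31 / 500) (-(43 / 100)) (47 / 100) 0 0 0 0 (314159 / 100000) := by
  intro y v a1 a2 a3 a4 a5 a6 a7 a8
  have h := bb_sound tab_ok k_c5tbpV (y := y) (v := v)
    ⟨by norm_num; linarith only [a1], by norm_num; linarith only [a2]⟩ ⟨by norm_num; linarith only [a3], by norm_num; linarith only [a4]⟩
    ⟨by norm_num; linarith only [a5], by norm_num; linarith only [a6]⟩ ⟨by norm_num; linarith only [a7], by norm_num; linarith only [a8]⟩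
  rw [abs_of_nonneg (by linarith only [a3])]
  unfold SW
  push_cast at h
  linarith only [h, a3, a1]

theorem k_c5tbpW : bb (tst 2 450881 0 0 492831 3294195 0 0 0 4697620 0 0) 60
    110080 115200 106240 106240 95232 95232 102400 103988 = true := by
  decide +kernel

theorem r_c5tbpW : Row 2 (3 / 10) (1 / 2) (3 / 20) (3 / 20) (-(7 / 25)) (-(7 / 25)) (31 / 500) (-(43 / 100)) (47 / 100) 0 0 (-(112 / 25)) 0 (314159 / 100000) := by
  intro y v a1 a2 a3 a4 a5 a6 a7 a8
  have h := bb_sound tab_ok k_c5tbpW (y := y) (v := v)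
    ⟨by norm_num; linarith only [a1], by norm_num; linarith only [a2]⟩ ⟨by norm_num; linarith only [a3], by norm_num; linarith only [a4]⟩
    ⟨by norm_num; linarith only [a5], by norm_num; linarith only [a6]⟩ ⟨by norm_num; linarith only [a7], by norm_num; linarith only [a8]⟩
  rw [abs_of_nonneg (by linarith only [a3])]
  unfold SW
  push_cast at h
  linarith only [h, a7, a3, a1]

theorem k_c5tbpR : bb (tst 2 584575 0 0 718275 3294195 0 0 0 0 0 0) 60
    110080 115200 106240 106240 108800 115200 102400 102400 = true := by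
  decide +kernel

theorem r_c5tbpR : Row 2 (3 / 10) (1 / 2) (3 / 20) (3 / 20) (1 / 4) (1 / 2) 0 (-(223 / 400)) (137 / 200) 0 0 0 0 (314159 / 100000) := by
  intro y v a1 a2 a3 a4 a5 a6 a7 a8
  have h := bb_sound tab_ok k_c5tbpR (y := y) (v := v)
    ⟨by norm_num; linarith only [a1], by norm_num; linarith only [a2]⟩ ⟨by norm_num; linarith only [a3], by norm_num; linarith only [a4]⟩
    ⟨by norm_num; linarith only [a5], by norm_num; linarith only [a6]⟩ ⟨by norm_num; linarith only [a7], by norm_num; linarith only [a8]⟩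
  rw [abs_of_nonneg (by linarith only [a3])]
  unfold SW
  push_cast at h
  linarith only [h, a3, a1]

theorem k_c5tbpS : bb (tst 2 584575 0 0 718275 3294195 0 0 0 0 0 0) 60
    110080 115200 106240 106240 89600 96000 102400 102400 = true := by
  decide +kernel

theorem r_c5tbpS : Row 2 (3 / 10) (1 / 2) (3 / 20) (3 / 20) (-(1 / 2)) (-(1 / 4)) 0 (-(223 / 400)) (137 / 200) 0 0 0 0 (314159 / 100000) := by
  intro y v a1 a2 a3 a4 a5 a6 a7 a8
  have h := bb_sound tab_ok k_c5tbpS (y := y) (v := v)
    ⟨by norm_num; linarith only [a1], by norm_num; linarith only [a2]⟩ ⟨by norm_num; linarith only [a3], by norm_num; linarith only [a4]⟩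
    ⟨by norm_num; linarith only [a5], by norm_num; linarith only [a6]⟩ ⟨by norm_num; linarith only [a7], by norm_num; linarith only [a8]⟩
  rw [abs_of_nonneg (by linarith only [a3])]
  unfold SW
  push_cast at h
  linarith only [h, a3, a1]

theorem k_c5upF : bb (tst 2 264654 0 127926 0 3294195 0 0 0 2348810 0 8388608) 60
    96000 102400 106240 106240 95232 109568 102400 103988 = true := by
  decide +kernel

theorem r_c5upF : Row 2 (-(1 / 4)) 0 (3 / 20) (3 / 20) (-(7 / 25)) (7 / 25) (31 / 500) (-(631 / 2500)) (-(61 / 500)) 0 0 (-(56 / 25)) 8 (314159 / 100000) := by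
  intro y v a1 a2 a3 a4 a5 a6 a7 a8
  have h := bb_sound tab_ok k_c5upF (y := y) (v := v)
    ⟨by norm_num; linarith only [a1], by norm_num; linarith only [a2]⟩ ⟨by norm_num; linarith only [a3], by norm_num; linarith only [a4]⟩
    ⟨by norm_num; linarith only [a5], by norm_num; linarith only [a6]⟩ ⟨by norm_num; linarith only [a7], by norm_num; linarith only [a8]⟩
  rw [abs_of_nonneg (by linarith only [a3])]
  unfold SW
  push_cast at h
  linarith only [h, a7, a3, a1]

theorem k_c5upV : bb (tst 2 264654 0 127926 0 3294195 0 0 0 0 0 0) 60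
    96000 102400 106240 106240 109568 109568 102400 103988 = true := by
  decide +kernel

theorem r_c5upV : Row 2 (-(1 / 4)) 0 (3 / 20) (3 / 20) (7 / 25) (7 / 25) (31 / 500) (-(631 / 2500)) (-(61 / 500)) 0 0 0 0 (314159 / 100000) := by
  intro y v a1 a2 a3 a4 a5 a6 a7 a8
  have h := bb_sound tab_ok k_c5upV (y := y) (v := v)
    ⟨by norm_num; linarith only [a1], by norm_num; linarith only [a2]⟩ ⟨by norm_num; linarith only [a3], by norm_num; linarith only [a4]⟩
    ⟨by norm_num; linarith only [a5], by norm_num; linarith only [a6]⟩ ⟨by norm_num; linarith only [a7], by norm_num; linarith only [a8]⟩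
  rw [abs_of_nonneg (by linarith only [a3])]
  unfold SW
  push_cast at h
  linarith only [h, a3, a1]

theorem k_c5upW : bb (tst 2 264654 0 127926 0 3294195 0 0 0 4697620 0 0) 60
    96000 102400 106240 106240 95232 95232 102400 103988 = true := by
  decide +kernel

theorem r_c5upW : Row 2 (-(1 / 4)) 0 (3 / 20) (3 / 20) (-(7 / 25)) (-(7 / 25)) (31 / 500) (-(631 / 2500)) (-(61 / 500)) 0 0 (-(112 / 25)) 0 (314159 / 100000) := by
  intro y v a1 a2 a3 a4 a5 a6 a7 a8
  have h := bb_sound tab_ok k_c5upW (y := y) (v := v)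
    ⟨by norm_num; linarith only [a1], by norm_num; linarith only [a2]⟩ ⟨by norm_num; linarith only [a3], by norm_num; linarith only [a4]⟩
    ⟨by norm_num; linarith only [a5], by norm_num; linarith only [a6]⟩ ⟨by norm_num; linarith only [a7], by norm_num; linarith only [a8]⟩
  rw [abs_of_nonneg (by linarith only [a3])]
  unfold SW
  push_cast at h
  linarith only [h, a7, a3, a1]

theorem k_c5upR : bb (tst 2 334175 0 116391 0 3294195 0 0 0 0 0 0) 60
    96000 102400 106240 106240 108800 115200 102400 102400 = true := by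
  decide +kernel

theorem r_c5upR : Row 2 (-(1 / 4)) 0 (3 / 20) (3 / 20) (1 / 4) (1 / 2) 0 (-(3187 / 10000)) (-(111 / 1000)) 0 0 0 0 (314159 / 100000) := by
  intro y v a1 a2 a3 a4 a5 a6 a7 a8
  have h := bb_sound tab_ok k_c5upR (y := y) (v := v)
    ⟨by norm_num; linarith only [a1], by norm_num; linarith only [a2]⟩ ⟨by norm_num; linarith only [a3], by norm_num; linarith only [a4]⟩
    ⟨by norm_num; linarith only [a5], by norm_num; linarith only [a6]⟩ ⟨by norm_num; linarith only [a7], by norm_num; linarith only [a8]⟩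
  rw [abs_of_nonneg (by linarith only [a3])]
  unfold SW
  push_cast at h
  linarith only [h, a3, a1]

theorem k_c5upS : bb (tst 2 334175 0 116391 0 3294195 0 0 0 0 0 0) 60
    96000 102400 106240 106240 89600 96000 102400 102400 = true := by
  decide +kernel

theorem r_c5upS : Row 2 (-(1 / 4)) 0 (3 / 20) (3 / 20) (-(1 / 2)) (-(1 / 4)) 0 (-(3187 / 10000)) (-(111 / 1000)) 0 0 0 0 (314159 / 100000) := by
  intro y v a1 a2 a3 a4 a5 a6 a7 a8
  have h := bb_sound tab_ok k_c5upS (y := y) (v := v)
    ⟨by norm_num; linarith only [a1], by norm_num; linarith only [a2]⟩ ⟨by norm_num; linarith only [a3], by norm_num; linarith only [a4]⟩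
    ⟨by norm_num; linarith only [a5], by norm_num; linarith only [a6]⟩ ⟨by norm_num; linarith only [a7], by norm_num; linarith only [a8]⟩
  rw [abs_of_nonneg (by linarith only [a3])]
  unfold SW
  push_cast at h
  linarith only [h, a3, a1]

theorem k_c5PpF : bb (tst 2 232777 0 0 0 3294195 0 0 0 2348810 0 8388608) 60
    96000 96000 102400 106240 95232 109568 102400 103988 = true := by
  decide +kernel

theorem r_c5PpF : Row 2 (-(1 / 4)) (-(1 / 4)) 0 (3 / 20) (-(7 / 25)) (7 / 25) (31 / 500) (-(111 / 500)) 0 0 0 (-(56 / 25)) 8 (314159 / 100000) := by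
  intro y v a1 a2 a3 a4 a5 a6 a7 a8
  have h := bb_sound tab_ok k_c5PpF (y := y) (v := v)
    ⟨by norm_num; linarith only [a1], by norm_num; linarith only [a2]⟩ ⟨by norm_num; linarith only [a3], by norm_num; linarith only [a4]⟩
    ⟨by norm_num; linarith only [a5], by norm_num; linarith only [a6]⟩ ⟨by norm_num; linarith only [a7], by norm_num; linarith only [a8]⟩
  rw [abs_of_nonneg (by linarith only [a3])]
  unfold SW
  push_cast at h
  linarith only [h, a7, a3]

theorem k_c5PpV : bb (tst 2 232777 0 0 0 3294195 0 0 0 0 0 0) 60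
    96000 96000 102400 106240 109568 109568 102400 103988 = true := by
  decide +kernel

theorem r_c5PpV : Row 2 (-(1 / 4)) (-(1 / 4)) 0 (3 / 20) (7 / 25) (7 / 25) (31 / 500) (-(111 / 500)) 0 0 0 0 0 (314159 / 100000) := by
  intro y v a1 a2 a3 a4 a5 a6 a7 a8
  have h := bb_sound tab_ok k_c5PpV (y := y) (v := v)
    ⟨by norm_num; linarith only [a1], by norm_num; linarith only [a2]⟩ ⟨by norm_num; linarith only [a3], by norm_num; linarith only [a4]⟩
    ⟨by norm_num; linarith only [a5], by norm_num; linarith only [a6]⟩ ⟨by norm_num; linarith only [a7], by norm_num; linarith only [a8]⟩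
  rw [abs_of_nonneg (by linarith only [a3])]
  unfold SW
  push_cast at h
  linarith only [h, a3]

theorem k_c5PpW : bb (tst 2 232777 0 0 0 3294195 0 0 0 4697620 0 0) 60
    96000 96000 102400 106240 95232 95232 102400 103988 = true := by
  decide +kernel

theorem r_c5PpW : Row 2 (-(1 / 4)) (-(1 / 4)) 0 (3 / 20) (-(7 / 25)) (-(7 / 25)) (31 / 500) (-(111 / 500)) 0 0 0 (-(112 / 25)) 0 (314159 / 100000) := by
  intro y v a1 a2 a3 a4 a5 a6 a7 a8
  have h := bb_sound tab_ok k_c5PpW (y := y) (v := v)
    ⟨by norm_num; linarith only [a1], by norm_num; linarith only [a2]⟩ ⟨by norm_num; linarith only [a3], by norm_num; linarith only [a4]⟩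
    ⟨by norm_num; linarith only [a5], by norm_num; linarith only [a6]⟩ ⟨by norm_num; linarith only [a7], by norm_num; linarith only [a8]⟩
  rw [abs_of_nonneg (by linarith only [a3])]
  unfold SW
  push_cast at h
  linarith only [h, a7, a3]

theorem k_c5PpR : bb (tst 2 305129 0 0 0 3294195 0 0 0 0 0 0) 60
    96000 96000 102400 106240 108800 115200 102400 102400 = true := by
  decide +kernel

theorem r_c5PpR : Row 2 (-(1 / 4)) (-(1 / 4)) 0 (3 / 20) (1 / 4) (1 / 2) 0 (-(291 / 1000)) 0 0 0 0 0 (314159 / 100000) := by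
  intro y v a1 a2 a3 a4 a5 a6 a7 a8
  have h := bb_sound tab_ok k_c5PpR (y := y) (v := v)
    ⟨by norm_num; linarith only [a1], by norm_num; linarith only [a2]⟩ ⟨by norm_num; linarith only [a3], by norm_num; linarith only [a4]⟩
    ⟨by norm_num; linarith only [a5], by norm_num; linarith only [a6]⟩ ⟨by norm_num; linarith only [a7], by norm_num; linarith only [a8]⟩
  rw [abs_of_nonneg (by linarith only [a3])]
  unfold SW
  push_cast at h
  linarith only [h, a3]

theorem k_c5PpS : bb (tst 2 305129 0 0 0 3294195 0 0 0 0 0 0) 60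
    96000 96000 102400 106240 89600 96000 102400 102400 = true := by
  decide +kernel

theorem r_c5PpS : Row 2 (-(1 / 4)) (-(1 / 4)) 0 (3 / 20) (-(1 / 2)) (-(1 / 4)) 0 (-(291 / 1000)) 0 0 0 0 0 (314159 / 100000) := by
  intro y v a1 a2 a3 a4 a5 a6 a7 a8
  have h := bb_sound tab_ok k_c5PpS (y := y) (v := v)
    ⟨by norm_num; linarith only [a1], by norm_num; linarith only [a2]⟩ ⟨by norm_num; linarith only [a3], by norm_num; linarith only [a4]⟩
    ⟨by norm_num; linarith only [a5], by norm_num; linarith only [a6]⟩ ⟨by norm_num; linarith only [a7], by norm_num; linarith only [a8]⟩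
  rw [abs_of_nonneg (by linarith only [a3])]
  unfold SW
  push_cast at h
  linarith only [h, a3]

theorem k_c5LpF : bb (tst 2 232777 0 0 0 524288 0 0 0 2348810 0 8388608) 60
    96000 96000 102400 104397 95232 109568 102400 103988 = true := by
  decide +kernel

theorem r_c5LpF : Row 2 (-(1 / 4)) (-(1 / 4)) 0 (39 / 500) (-(7 / 25)) (7 / 25) (31 / 500) (-(111 / 500)) 0 0 0 (-(56 / 25)) 8 (1 / 2) := by
  intro y v a1 a2 a3 a4 a5 a6 a7 a8
  have h := bb_sound tab_ok k_c5LpF (y := y) (v := v)
    ⟨by norm_num; linarith only [a1], by norm_num; linarith only [a2]⟩ ⟨by norm_num; linarith only [a3], by norm_num; linarith only [a4]⟩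
    ⟨by norm_num; linarith only [a5], by norm_num; linarith only [a6]⟩ ⟨by norm_num; linarith only [a7], by norm_num; linarith only [a8]⟩
  rw [abs_of_nonneg (by linarith only [a3])]
  unfold SW
  push_cast at h
  linarith only [h, a7]

theorem k_c5LpV : bb (tst 2 232777 0 0 0 524288 0 0 0 0 0 0) 60
    96000 96000 102400 104397 109568 109568 102400 103988 = true := by
  decide +kernel

theorem r_c5LpV : Row 2 (-(1 / 4)) (-(1 / 4)) 0 (39 / 500) (7 / 25) (7 / 25) (31 / 500) (-(111 / 500)) 0 0 0 0 0 (1 / 2) := by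
  intro y v a1 a2 a3 a4 a5 a6 a7 a8
  have h := bb_sound tab_ok k_c5LpV (y := y) (v := v)
    ⟨by norm_num; linarith only [a1], by norm_num; linarith only [a2]⟩ ⟨by norm_num; linarith only [a3], by norm_num; linarith only [a4]⟩
    ⟨by norm_num; linarith only [a5], by norm_num; linarith only [a6]⟩ ⟨by norm_num; linarith only [a7], by norm_num; linarith only [a8]⟩
  rw [abs_of_nonneg (by linarith only [a3])]
  unfold SW
  push_cast at h
  linarith only [h]

theorem k_c5LpW : bb (tst 2 232777 0 0 0 524288 0 0 0 4697620 0 0) 60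
    96000 96000 102400 104397 95232 95232 102400 103988 = true := by
  decide +kernel

theorem r_c5LpW : Row 2 (-(1 / 4)) (-(1 / 4)) 0 (39 / 500) (-(7 / 25)) (-(7 / 25)) (31 / 500) (-(111 / 500)) 0 0 0 (-(112 / 25)) 0 (1 / 2) := by
  intro y v a1 a2 a3 a4 a5 a6 a7 a8
  have h := bb_sound tab_ok k_c5LpW (y := y) (v := v)
    ⟨by norm_num; linarith only [a1], by norm_num; linarith only [a2]⟩ ⟨by norm_num; linarith only [a3], by norm_num; linarith only [a4]⟩
    ⟨by norm_num; linarith only [a5], by norm_num; linarith only [a6]⟩ ⟨by norm_num; linarith only [a7], by norm_num; linarith only [a8]⟩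
  rw [abs_of_nonneg (by linarith only [a3])]
  unfold SW
  push_cast at h
  linarith only [h, a7]

theorem k_c5LpR : bb (tst 2 305129 0 0 0 524288 0 0 0 0 0 0) 60
    96000 96000 102400 104397 108800 115200 102400 102400 = true := by
  decide +kernel

theorem r_c5LpR : Row 2 (-(1 / 4)) (-(1 / 4)) 0 (39 / 500) (1 / 4) (1 / 2) 0 (-(291 / 1000)) 0 0 0 0 0 (1 / 2) := by
  intro y v a1 a2 a3 a4 a5 a6 a7 a8
  have h := bb_sound tab_ok k_c5LpR (y := y) (v := v)
    ⟨by norm_num; linarith only [a1], by norm_num; linarith only [a2]⟩ ⟨by norm_num; linarith only [a3], by norm_num; linarith only [a4]⟩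
    ⟨by norm_num; linarith only [a5], by norm_num; linarith only [a6]⟩ ⟨by norm_num; linarith only [a7], by norm_num; linarith only [a8]⟩
  rw [abs_of_nonneg (by linarith only [a3])]
  unfold SW
  push_cast at h
  linarith only [h]

theorem k_c5LpS : bb (tst 2 305129 0 0 0 524288 0 0 0 0 0 0) 60
    96000 96000 102400 104397 89600 96000 102400 102400 = true := by
  decide +kernel

theorem r_c5LpS : Row 2 (-(1 / 4)) (-(1 / 4)) 0 (39 / 500) (-(1 / 2)) (-(1 / 4)) 0 (-(291 / 1000)) 0 0 0 0 0 (1 / 2) := by
  intro y v a1 a2 a3 a4 a5 a6 a7 a8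
  have h := bb_sound tab_ok k_c5LpS (y := y) (v := v)
    ⟨by norm_num; linarith only [a1], by norm_num; linarith only [a2]⟩ ⟨by norm_num; linarith only [a3], by norm_num; linarith only [a4]⟩
    ⟨by norm_num; linarith only [a5], by norm_num; linarith only [a6]⟩ ⟨by norm_num; linarith only [a7], by norm_num; linarith only [a8]⟩
  rw [abs_of_nonneg (by linarith only [a3])]
  unfold SW
  push_cast at h
  linarith only [h]

theorem k_c5tamF : bb (tst 2 264654 0 127926 0 0 3294196 0 0 2348810 0 8388608) 60
    102400 110080 98560 98560 95232 109568 102400 103988 = true := by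
  decide +kernel

theorem r_c5tamF : Row 2 0 (3 / 10) (-(3 / 20)) (-(3 / 20)) (-(7 / 25)) (7 / 25) (31 / 500) (-(631 / 2500)) (-(61 / 500)) 0 0 (-(56 / 25)) 8 (314159 / 100000) := by
  intro y v a1 a2 a3 a4 a5 a6 a7 a8
  have h := bb_sound tab_ok k_c5tamF (y := y) (v := v)
    ⟨by norm_num; linarith only [a1], by norm_num; linarith only [a2]⟩ ⟨by norm_num; linarith only [a3], by norm_num; linarith only [a4]⟩
    ⟨by norm_num; linarith only [a5], by norm_num; linarith only [a6]⟩ ⟨by norm_num; linarith only [a7], by norm_num; linarith only [a8]⟩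
  rw [abs_of_nonpos (by linarith only [a4])]
  unfold SW
  push_cast at h
  linarith only [h, a7, a3, a1]

theorem k_c5tamV : bb (tst 2 264654 0 127926 0 0 3294196 0 0 0 0 0) 60
    102400 110080 98560 98560 109568 109568 102400 103988 = true := by
  decide +kernel

theorem r_c5tamV : Row 2 0 (3 / 10) (-(3 / 20)) (-(3 / 20)) (7 / 25) (7 / 25) (31 / 500) (-(631 / 2500)) (-(61 / 500)) 0 0 0 0 (314159 / 100000) := by
  intro y v a1 a2 a3 a4 a5 a6 a7 a8
  have h := bb_sound tab_ok k_c5tamV (y := y) (v := v)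
    ⟨by norm_num; linarith only [a1], by norm_num; linarith only [a2]⟩ ⟨by norm_num; linarith only [a3], by norm_num; linarith only [a4]⟩
    ⟨by norm_num; linarith only [a5], by norm_num; linarith only [a6]⟩ ⟨by norm_num; linarith only [a7], by norm_num; linarith only [a8]⟩
  rw [abs_of_nonpos (by linarith only [a4])]
  unfold SW
  push_cast at h
  linarith only [h, a3, a1]

theorem k_c5tamW : bb (tst 2 264654 0 127926 0 0 3294196 0 0 4697620 0 0) 60
    102400 110080 98560 98560 95232 95232 102400 103988 = true := by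
  decide +kernel

theorem r_c5tamW : Row 2 0 (3 / 10) (-(3 / 20)) (-(3 / 20)) (-(7 / 25)) (-(7 / 25)) (31 / 500) (-(631 / 2500)) (-(61 / 500)) 0 0 (-(112 / 25)) 0 (314159 / 100000) := by
  intro y v a1 a2 a3 a4 a5 a6 a7 a8
  have h := bb_sound tab_ok k_c5tamW (y := y) (v := v)
    ⟨by norm_num; linarith only [a1], by norm_num; linarith only [a2]⟩ ⟨by norm_num; linarith only [a3], by norm_num; linarith only [a4]⟩
    ⟨by norm_num; linarith only [a5], by norm_num; linarith only [a6]⟩ ⟨by norm_num; linarith only [a7], by norm_num; linarith only [a8]⟩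
  rw [abs_of_nonpos (by linarith only [a4])]
  unfold SW
  push_cast at h
  linarith only [h, a7, a3, a1]

theorem k_c5tamR : bb (tst 2 334175 0 116391 0 0 3294196 0 0 0 0 0) 60
    102400 110080 98560 98560 108800 115200 102400 102400 = true := by
  decide +kernel

theorem r_c5tamR : Row 2 0 (3 / 10) (-(3 / 20)) (-(3 / 20)) (1 / 4) (1 / 2) 0 (-(3187 / 10000)) (-(111 / 1000)) 0 0 0 0 (314159 / 100000) := by
  intro y v a1 a2 a3 a4 a5 a6 a7 a8
  have h := bb_sound tab_ok k_c5tamR (y := y) (v := v)
    ⟨by norm_num; linarith only [a1], by norm_num; linarith only [a2]⟩ ⟨by norm_num; linarith only [a3], by norm_num; linarith only [a4]⟩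
    ⟨by norm_num; linarith only [a5], by norm_num; linarith only [a6]⟩ ⟨by norm_num; linarith only [a7], by norm_num; linarith only [a8]⟩
  rw [abs_of_nonpos (by linarith only [a4])]
  unfold SW
  push_cast at h
  linarith only [h, a3, a1]

theorem k_c5tamS : bb (tst 2 334175 0 116391 0 0 3294196 0 0 0 0 0) 60
    102400 110080 98560 98560 89600 96000 102400 102400 = true := by
  decide +kernel

theorem r_c5tamS : Row 2 0 (3 / 10) (-(3 / 20)) (-(3 / 20)) (-(1 / 2)) (-(1 / 4)) 0 (-(3187 / 10000)) (-(111 / 1000)) 0 0 0 0 (314159 / 100000) := by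
  intro y v a1 a2 a3 a4 a5 a6 a7 a8
  have h := bb_sound tab_ok k_c5tamS (y := y) (v := v)
    ⟨by norm_num; linarith only [a1], by norm_num; linarith only [a2]⟩ ⟨by norm_num; linarith only [a3], by norm_num; linarith only [a4]⟩
    ⟨by norm_num; linarith only [a5], by norm_num; linarith only [a6]⟩ ⟨by norm_num; linarith only [a7], by norm_num; linarith only [a8]⟩
  rw [abs_of_nonpos (by linarith only [a4])]
  unfold SW
  push_cast at h
  linarith only [h, a3, a1]

theorem k_c5tbmF : bb (tst 2 450881 0 0 492831 0 3294196 0 0 2348810 0 8388608) 60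
    110080 115200 98560 98560 95232 109568 102400 103988 = true := by
  decide +kernel

theorem r_c5tbmF : Row 2 (3 / 10) (1 / 2) (-(3 / 20)) (-(3 / 20)) (-(7 / 25)) (7 / 25) (31 / 500) (-(43 / 100)) (47 / 100) 0 0 (-(56 / 25)) 8 (314159 / 100000) := by
  intro y v a1 a2 a3 a4 a5 a6 a7 a8
  have h := bb_sound tab_ok k_c5tbmF (y := y) (v := v)
    ⟨by norm_num; linarith only [a1], by norm_num; linarith only [a2]⟩ ⟨by norm_num; linarith only [a3], by norm_num; linarith only [a4]⟩
    ⟨by norm_num; linarith only [a5], by norm_num; linarith only [a6]⟩ ⟨by norm_num; linarith only [a7], by norm_num; linarith only [a8]⟩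
  rw [abs_of_nonpos (by linarith only [a4])]
  unfold SW
  push_cast at h
  linarith only [h, a7, a3, a1]

theorem k_c5tbmV : bb (tst 2 450881 0 0 492831 0 3294196 0 0 0 0 0) 60
    110080 115200 98560 98560 109568 109568 102400 103988 = true := by
  decide +kernel

theorem r_c5tbmV : Row 2 (3 / 10) (1 / 2) (-(3 / 20)) (-(3 / 20)) (7 / 25) (7 / 25) (31 / 500) (-(43 / 100)) (47 / 100) 0 0 0 0 (314159 / 100000) := by
  intro y v a1 a2 a3 a4 a5 a6 a7 a8
  have h := bb_sound tab_ok k_c5tbmV (y := y) (v := v)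
    ⟨by norm_num; linarith only [a1], by norm_num; linarith only [a2]⟩ ⟨by norm_num; linarith only [a3], by norm_num; linarith only [a4]⟩
    ⟨by norm_num; linarith only [a5], by norm_num; linarith only [a6]⟩ ⟨by norm_num; linarith only [a7], by norm_num; linarith only [a8]⟩
  rw [abs_of_nonpos (by linarith only [a4])]
  unfold SW
  push_cast at h
  linarith only [h, a3, a1]

theorem k_c5tbmW : bb (tst 2 450881 0 0 492831 0 3294196 0 0 4697620 0 0) 60
    110080 115200 98560 98560 95232 95232 102400 103988 = true := by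
  decide +kernel

theorem r_c5tbmW : Row 2 (3 / 10) (1 / 2) (-(3 / 20)) (-(3 / 20)) (-(7 / 25)) (-(7 / 25)) (31 / 500) (-(43 / 100)) (47 / 100) 0 0 (-(112 / 25)) 0 (314159 / 100000) := by
  intro y v a1 a2 a3 a4 a5 a6 a7 a8
  have h := bb_sound tab_ok k_c5tbmW (y := y) (v := v)
    ⟨by norm_num; linarith only [a1], by norm_num; linarith only [a2]⟩ ⟨by norm_num; linarith only [a3], by norm_num; linarith only [a4]⟩
    ⟨by norm_num; linarith only [a5], by norm_num; linarith only [a6]⟩ ⟨by norm_num; linarith only [a7], by norm_num; linarith only [a8]⟩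
  rw [abs_of_nonpos (by linarith only [a4])]
  unfold SW
  push_cast at h
  linarith only [h, a7, a3, a1]

theorem k_c5tbmR : bb (tst 2 584575 0 0 718275 0 3294196 0 0 0 0 0) 60
    110080 115200 98560 98560 108800 115200 102400 102400 = true := by
  decide +kernel

theorem r_c5tbmR : Row 2 (3 / 10) (1 / 2) (-(3 / 20)) (-(3 / 20)) (1 / 4) (1 / 2) 0 (-(223 / 400)) (137 / 200) 0 0 0 0 (314159 / 100000) := by
  intro y v a1 a2 a3 a4 a5 a6 a7 a8
  have h := bb_sound tab_ok k_c5tbmR (y := y) (v := v)
    ⟨by norm_num; linarith only [a1], by norm_num; linarith only [a2]⟩ ⟨by norm_num; linarith only [a3], by norm_num; linarith only [a4]⟩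
    ⟨by norm_num; linarith only [a5], by norm_num; linarith only [a6]⟩ ⟨by norm_num; linarith only [a7], by norm_num; linarith only [a8]⟩
  rw [abs_of_nonpos (by linarith only [a4])]
  unfold SW
  push_cast at h
  linarith only [h, a3, a1]

theorem k_c5tbmS : bb (tst 2 584575 0 0 718275 0 3294196 0 0 0 0 0) 60
    110080 115200 98560 98560 89600 96000 102400 102400 = true := by
  decide +kernel

theorem r_c5tbmS : Row 2 (3 / 10) (1 / 2) (-(3 / 20)) (-(3 / 20)) (-(1 / 2)) (-(1 / 4)) 0 (-(223 / 400)) (137 / 200) 0 0 0 0 (314159 / 100000) := by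
  intro y v a1 a2 a3 a4 a5 a6 a7 a8
  have h := bb_sound tab_ok k_c5tbmS (y := y) (v := v)
    ⟨by norm_num; linarith only [a1], by norm_num; linarith only [a2]⟩ ⟨by norm_num; linarith only [a3], by norm_num; linarith only [a4]⟩
    ⟨by norm_num; linarith only [a5], by norm_num; linarith only [a6]⟩ ⟨by norm_num; linarith only [a7], by norm_num; linarith only [a8]⟩
  rw [abs_of_nonpos (by linarith only [a4])]
  unfold SW
  push_cast at h
  linarith only [h, a3, a1]

theorem k_c5umF : bb (tst 2 264654 0 127926 0 0 3294196 0 0 2348810 0 8388608) 60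
    96000 102400 98560 98560 95232 109568 102400 103988 = true := by
  decide +kernel

theorem r_c5umF : Row 2 (-(1 / 4)) 0 (-(3 / 20)) (-(3 / 20)) (-(7 / 25)) (7 / 25) (31 / 500) (-(631 / 2500)) (-(61 / 500)) 0 0 (-(56 / 25)) 8 (314159 / 100000) := by
  intro y v a1 a2 a3 a4 a5 a6 a7 a8
  have h := bb_sound tab_ok k_c5umF (y := y) (v := v)
    ⟨by norm_num; linarith only [a1], by norm_num; linarith only [a2]⟩ ⟨by norm_num; linarith only [a3], by norm_num; linarith only [a4]⟩
    ⟨by norm_num; linarith only [a5], by norm_num; linarith only [a6]⟩ ⟨by norm_num; linarith only [a7], by norm_num; linarith only [a8]⟩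
  rw [abs_of_nonpos (by linarith only [a4])]
  unfold SW
  push_cast at h
  linarith only [h, a7, a3, a1]

theorem k_c5umV : bb (tst 2 264654 0 127926 0 0 3294196 0 0 0 0 0) 60
    96000 102400 98560 98560 109568 109568 102400 103988 = true := by
  decide +kernel

theorem r_c5umV : Row 2 (-(1 / 4)) 0 (-(3 / 20)) (-(3 / 20)) (7 / 25) (7 / 25) (31 / 500) (-(631 / 2500)) (-(61 / 500)) 0 0 0 0 (314159 / 100000) := by
  intro y v a1 a2 a3 a4 a5 a6 a7 a8
  have h := bb_sound tab_ok k_c5umV (y := y) (v := v)
    ⟨by norm_num; linarith only [a1], by norm_num; linarith only [a2]⟩ ⟨by norm_num; linarith only [a3], by norm_num; linarith only [a4]⟩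
    ⟨by norm_num; linarith only [a5], by norm_num; linarith only [a6]⟩ ⟨by norm_num; linarith only [a7], by norm_num; linarith only [a8]⟩
  rw [abs_of_nonpos (by linarith only [a4])]
  unfold SW
  push_cast at h
  linarith only [h, a3, a1]

theorem k_c5umW : bb (tst 2 264654 0 127926 0 0 3294196 0 0 4697620 0 0) 60
    96000 102400 98560 98560 95232 95232 102400 103988 = true := by
  decide +kernel

theorem r_c5umW : Row 2 (-(1 / 4)) 0 (-(3 / 20)) (-(3 / 20)) (-(7 / 25)) (-(7 / 25)) (31 / 500) (-(631 / 2500)) (-(61 / 500)) 0 0 (-(112 / 25)) 0 (314159 / 100000) := by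
  intro y v a1 a2 a3 a4 a5 a6 a7 a8
  have h := bb_sound tab_ok k_c5umW (y := y) (v := v)
    ⟨by norm_num; linarith only [a1], by norm_num; linarith only [a2]⟩ ⟨by norm_num; linarith only [a3], by norm_num; linarith only [a4]⟩
    ⟨by norm_num; linarith only [a5], by norm_num; linarith only [a6]⟩ ⟨by norm_num; linarith only [a7], by norm_num; linarith only [a8]⟩
  rw [abs_of_nonpos (by linarith only [a4])]
  unfold SW
  push_cast at h
  linarith only [h, a7, a3, a1]

theorem k_c5umR : bb (tst 2 334175 0 116391 0 0 3294196 0 0 0 0 0) 60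
    96000 102400 98560 98560 108800 115200 102400 102400 = true := by
  decide +kernel

theorem r_c5umR : Row 2 (-(1 / 4)) 0 (-(3 / 20)) (-(3 / 20)) (1 / 4) (1 / 2) 0 (-(3187 / 10000)) (-(111 / 1000)) 0 0 0 0 (314159 / 100000) := by
  intro y v a1 a2 a3 a4 a5 a6 a7 a8
  have h := bb_sound tab_ok k_c5umR (y := y) (v := v)
    ⟨by norm_num; linarith only [a1], by norm_num; linarith only [a2]⟩ ⟨by norm_num; linarith only [a3], by norm_num; linarith only [a4]⟩
    ⟨by norm_num; linarith only [a5], by norm_num; linarith only [a6]⟩ ⟨by norm_num; linarith only [a7], by norm_num; linarith only [a8]⟩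
  rw [abs_of_nonpos (by linarith only [a4])]
  unfold SW
  push_cast at h
  linarith only [h, a3, a1]

theorem k_c5umS : bb (tst 2 334175 0 116391 0 0 3294196 0 0 0 0 0) 60
    96000 102400 98560 98560 89600 96000 102400 102400 = true := by
  decide +kernel

theorem r_c5umS : Row 2 (-(1 / 4)) 0 (-(3 / 20)) (-(3 / 20)) (-(1 / 2)) (-(1 / 4)) 0 (-(3187 / 10000)) (-(111 / 1000)) 0 0 0 0 (314159 / 100000) := by
  intro y v a1 a2 a3 a4 a5 a6 a7 a8
  have h := bb_sound tab_ok k_c5umS (y := y) (v := v)
    ⟨by norm_num; linarith only [a1], by norm_num; linarith only [a2]⟩ ⟨by norm_num; linarith only [a3], by norm_num; linarith only [a4]⟩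
    ⟨by norm_num; linarith only [a5], by norm_num; linarith only [a6]⟩ ⟨by norm_num; linarith only [a7], by norm_num; linarith only [a8]⟩
  rw [abs_of_nonpos (by linarith only [a4])]
  unfold SW
  push_cast at h
  linarith only [h, a3, a1]

theorem k_c5PmF : bb (tst 2 232777 0 0 0 0 3294196 0 0 2348810 0 8388608) 60
    96000 96000 98560 102400 95232 109568 102400 103988 = true := by
  decide +kernel

theorem r_c5PmF : Row 2 (-(1 / 4)) (-(1 / 4)) (-(3 / 20)) 0 (-(7 / 25)) (7 / 25) (31 / 500) (-(111 / 500)) 0 0 0 (-(56 / 25)) 8 (314159 / 100000) := by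
  intro y v a1 a2 a3 a4 a5 a6 a7 a8
  have h := bb_sound tab_ok k_c5PmF (y := y) (v := v)
    ⟨by norm_num; linarith only [a1], by norm_num; linarith only [a2]⟩ ⟨by norm_num; linarith only [a3], by norm_num; linarith only [a4]⟩
    ⟨by norm_num; linarith only [a5], by norm_num; linarith only [a6]⟩ ⟨by norm_num; linarith only [a7], by norm_num; linarith only [a8]⟩
  rw [abs_of_nonpos (by linarith only [a4])]
  unfold SW
  push_cast at h
  linarith only [h, a7, a3]

theorem k_c5PmV : bb (tst 2 232777 0 0 0 0 3294196 0 0 0 0 0) 60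
    96000 96000 98560 102400 109568 109568 102400 103988 = true := by
  decide +kernel

theorem r_c5PmV : Row 2 (-(1 / 4)) (-(1 / 4)) (-(3 / 20)) 0 (7 / 25) (7 / 25) (31 / 500) (-(111 / 500)) 0 0 0 0 0 (314159 / 100000) := by
  intro y v a1 a2 a3 a4 a5 a6 a7 a8
  have h := bb_sound tab_ok k_c5PmV (y := y) (v := v)
    ⟨by norm_num; linarith only [a1], by norm_num; linarith only [a2]⟩ ⟨by norm_num; linarith only [a3], by norm_num; linarith only [a4]⟩
    ⟨by norm_num; linarith only [a5], by norm_num; linarith only [a6]⟩ ⟨by norm_num; linarith only [a7], by norm_num; linarith only [a8]⟩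
  rw [abs_of_nonpos (by linarith only [a4])]
  unfold SW
  push_cast at h
  linarith only [h, a3]

theorem k_c5PmW : bb (tst 2 232777 0 0 0 0 3294196 0 0 4697620 0 0) 60
    96000 96000 98560 102400 95232 95232 102400 103988 = true := by
  decide +kernel

theorem r_c5PmW : Row 2 (-(1 / 4)) (-(1 / 4)) (-(3 / 20)) 0 (-(7 / 25)) (-(7 / 25)) (31 / 500) (-(111 / 500)) 0 0 0 (-(112 / 25)) 0 (314159 / 100000) := by
  intro y v a1 a2 a3 a4 a5 a6 a7 a8
  have h := bb_sound tab_ok k_c5PmW (y := y) (v := v)
    ⟨by norm_num; linarith only [a1], by norm_num; linarith only [a2]⟩ ⟨by norm_num; linarith only [a3], by norm_num; linarith only [a4]⟩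
    ⟨by norm_num; linarith only [a5], by norm_num; linarith only [a6]⟩ ⟨by norm_num; linarith only [a7], by norm_num; linarith only [a8]⟩
  rw [abs_of_nonpos (by linarith only [a4])]
  unfold SW
  push_cast at h
  linarith only [h, a7, a3]

theorem k_c5PmR : bb (tst 2 305129 0 0 0 0 3294196 0 0 0 0 0) 60
    96000 96000 98560 102400 108800 115200 102400 102400 = true := by
  decide +kernel

theorem r_c5PmR : Row 2 (-(1 / 4)) (-(1 / 4)) (-(3 / 20)) 0 (1 / 4) (1 / 2) 0 (-(291 / 1000)) 0 0 0 0 0 (314159 / 100000) := by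
  intro y v a1 a2 a3 a4 a5 a6 a7 a8
  have h := bb_sound tab_ok k_c5PmR (y := y) (v := v)
    ⟨by norm_num; linarith only [a1], by norm_num; linarith only [a2]⟩ ⟨by norm_num; linarith only [a3], by norm_num; linarith only [a4]⟩
    ⟨by norm_num; linarith only [a5], by norm_num; linarith only [a6]⟩ ⟨by norm_num; linarith only [a7], by norm_num; linarith only [a8]⟩
  rw [abs_of_nonpos (by linarith only [a4])]
  unfold SW
  push_cast at h
  linarith only [h, a3]

theorem k_c5PmS : bb (tst 2 305129 0 0 0 0 3294196 0 0 0 0 0) 60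
    96000 96000 98560 102400 89600 96000 102400 102400 = true := by
  decide +kernel

theorem r_c5PmS : Row 2 (-(1 / 4)) (-(1 / 4)) (-(3 / 20)) 0 (-(1 / 2)) (-(1 / 4)) 0 (-(291 / 1000)) 0 0 0 0 0 (314159 / 100000) := by
  intro y v a1 a2 a3 a4 a5 a6 a7 a8
  have h := bb_sound tab_ok k_c5PmS (y := y) (v := v)
    ⟨by norm_num; linarith only [a1], by norm_num; linarith only [a2]⟩ ⟨by norm_num; linarith only [a3], by norm_num; linarith only [a4]⟩
    ⟨by norm_num; linarith only [a5], by norm_num; linarith only [a6]⟩ ⟨by norm_num; linarith only [a7], by norm_num; linarith only [a8]⟩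
  rw [abs_of_nonpos (by linarith only [a4])]
  unfold SW
  push_cast at h
  linarith only [h, a3]

theorem k_c5LmF : bb (tst 2 232777 0 0 0 0 524288 0 0 2348810 0 8388608) 60
    96000 96000 100403 102400 95232 109568 102400 103988 = true := by
  decide +kernel

theorem r_c5LmF : Row 2 (-(1 / 4)) (-(1 / 4)) (-(39 / 500)) 0 (-(7 / 25)) (7 / 25) (31 / 500) (-(111 / 500)) 0 0 0 (-(56 / 25)) 8 (1 / 2) := by
  intro y v a1 a2 a3 a4 a5 a6 a7 a8
  have h := bb_sound tab_ok k_c5LmF (y := y) (v := v)
    ⟨by norm_num; linarith only [a1], by norm_num; linarith only [a2]⟩ ⟨by norm_num; linarith only [a3], by norm_num; linarith only [a4]⟩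
    ⟨by norm_num; linarith only [a5], by norm_num; linarith only [a6]⟩ ⟨by norm_num; linarith only [a7], by norm_num; linarith only [a8]⟩
  rw [abs_of_nonpos (by linarith only [a4])]
  unfold SW
  push_cast at h
  linarith only [h, a7]

theorem k_c5LmV : bb (tst 2 232777 0 0 0 0 524288 0 0 0 0 0) 60
    96000 96000 100403 102400 109568 109568 102400 103988 = true := by
  decide +kernel

theorem r_c5LmV : Row 2 (-(1 / 4)) (-(1 / 4)) (-(39 / 500)) 0 (7 / 25) (7 / 25) (31 / 500) (-(111 / 500)) 0 0 0 0 0 (1 / 2) := by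
  intro y v a1 a2 a3 a4 a5 a6 a7 a8
  have h := bb_sound tab_ok k_c5LmV (y := y) (v := v)
    ⟨by norm_num; linarith only [a1], by norm_num; linarith only [a2]⟩ ⟨by norm_num; linarith only [a3], by norm_num; linarith only [a4]⟩
    ⟨by norm_num; linarith only [a5], by norm_num; linarith only [a6]⟩ ⟨by norm_num; linarith only [a7], by norm_num; linarith only [a8]⟩
  rw [abs_of_nonpos (by linarith only [a4])]
  unfold SW
  push_cast at h
  linarith only [h]

theorem k_c5LmW : bb (tst 2 232777 0 0 0 0 524288 0 0 4697620 0 0) 60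
    96000 96000 100403 102400 95232 95232 102400 103988 = true := by
  decide +kernel

theorem r_c5LmW : Row 2 (-(1 / 4)) (-(1 / 4)) (-(39 / 500)) 0 (-(7 / 25)) (-(7 / 25)) (31 / 500) (-(111 / 500)) 0 0 0 (-(112 / 25)) 0 (1 / 2) := by
  intro y v a1 a2 a3 a4 a5 a6 a7 a8
  have h := bb_sound tab_ok k_c5LmW (y := y) (v := v)
    ⟨by norm_num; linarith only [a1], by norm_num; linarith only [a2]⟩ ⟨by norm_num; linarith only [a3], by norm_num; linarith only [a4]⟩
    ⟨by norm_num; linarith only [a5], by norm_num; linarith only [a6]⟩ ⟨by norm_num; linarith only [a7], by norm_num; linarith only [a8]⟩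
  rw [abs_of_nonpos (by linarith only [a4])]
  unfold SW
  push_cast at h
  linarith only [h, a7]

theorem k_c5LmR : bb (tst 2 305129 0 0 0 0 524288 0 0 0 0 0) 60
    96000 96000 100403 102400 108800 115200 102400 102400 = true := by
  decide +kernel

theorem r_c5LmR : Row 2 (-(1 / 4)) (-(1 / 4)) (-(39 / 500)) 0 (1 / 4) (1 / 2) 0 (-(291 / 1000)) 0 0 0 0 0 (1 / 2) := by
  intro y v a1 a2 a3 a4 a5 a6 a7 a8
  have h := bb_sound tab_ok k_c5LmR (y := y) (v := v)
    ⟨by norm_num; linarith only [a1], by norm_num; linarith only [a2]⟩ ⟨by norm_num; linarith only [a3], by norm_num; linarith only [a4]⟩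
    ⟨by norm_num; linarith only [a5], by norm_num; linarith only [a6]⟩ ⟨by norm_num; linarith only [a7], by norm_num; linarith only [a8]⟩
  rw [abs_of_nonpos (by linarith only [a4])]
  unfold SW
  push_cast at h
  linarith only [h]

theorem k_c5LmS : bb (tst 2 305129 0 0 0 0 524288 0 0 0 0 0) 60
    96000 96000 100403 102400 89600 96000 102400 102400 = true := by
  decide +kernel

theorem r_c5LmS : Row 2 (-(1 / 4)) (-(1 / 4)) (-(39 / 500)) 0 (-(1 / 2)) (-(1 / 4)) 0 (-(291 / 1000)) 0 0 0 0 0 (1 / 2) := by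
  intro y v a1 a2 a3 a4 a5 a6 a7 a8
  have h := bb_sound tab_ok k_c5LmS (y := y) (v := v)
    ⟨by norm_num; linarith only [a1], by norm_num; linarith only [a2]⟩ ⟨by norm_num; linarith only [a3], by norm_num; linarith only [a4]⟩
    ⟨by norm_num; linarith only [a5], by norm_num; linarith only [a6]⟩ ⟨by norm_num; linarith only [a7], by norm_num; linarith only [a8]⟩
  rw [abs_of_nonpos (by linarith only [a4])]
  unfold SW
  push_cast at h
  linarith only [h]

end VQ

end Pool.Agent.S5
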