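import Pool.Agent.S5.I.VQb
import Pool.Agent.S5.I.VQr2
import Pool.Agent.S5.I.VQr3
import Pool.Agent.S5.I.VQr4
import Pool.Agent.S5.I.VQr5
import Pool.Agent.S5.I.VQr6

/-!
# The payments of the open nodes: all pieces
-/

set_option autoImplicit false

namespace Pool.Agent.S5

open Pool.Agent.H63.VC3 Pool.Agent.S3 Complex

/-- The bounds of the functional at a slot with a neighbour `2`, end. -/
structure B2 (ys vs : ℂ) : Prop where
  a0 : GF 2 1 1 ys vs (-(1 / 4)) (7 / 25) ≤ (-(281 / 500))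
  a1 : GF 2 1 1 ys vs (3 / 10) (7 / 25) ≤ (-(38 / 125))
  a2 : GF 2 1 1 ys vs (1 / 2) (7 / 25) ≤ (-(203 / 1000))
  r0 : GF 2 1 0 ys vs (-(1 / 4)) 0 ≤ (-(597 / 1000))
  r1 : GF 2 1 0 ys vs (3 / 10) 0 ≤ (-(67 / 200))
  r2 : GF 2 1 0 ys vs (1 / 2) 0 ≤ (-(217 / 1000))
  z0 : GF 2 1 1 ys vs (-(1 / 4)) 0 ≤ (-(71 / 100))
  z1 : GF 2 1 1 ys vs (3 / 10) 0 ≤ (-(221 / 500))
  z2 : GF 2 1 1 ys vs (1 / 2) 0 ≤ (-(139 / 500))
  la : GF 2 0 1 ys vs (-(1 / 4)) (7 / 25) ≤ (-(359 / 500))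
  lr : GF 2 0 0 ys vs (-(1 / 4)) 0 ≤ (-(753 / 1000))

/-- The bounds of the functional at a slot with a neighbour `3`, end, of the other sign. -/
structure B3a (ys vs : ℂ) : Prop where
  a0 : GF 2 1 1 ys vs 0 (7 / 25) ≤ (-(463 / 1000))
  a1 : GF 2 1 1 ys vs (3 / 10) (7 / 25) ≤ (-(357 / 1000))
  a2 : GF 2 1 1 ys vs (1 / 2) (7 / 25) ≤ (-(121 / 500))
  r0 : GF 2 1 0 ys vs 0 0 ≤ (-(499 / 1000))
  r1 : GF 2 1 0 ys vs (3 / 10) 0 ≤ (-(391 / 1000))
  r2 : GF 2 1 0 ys vs (1 / 2) 0 ≤ (-(1 / 4))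
  b0 : GF 1 1 1 ys vs (-(1 / 4)) (7 / 25) ≤ (-(111 / 250))
  b1 : GF 1 1 1 ys vs 0 (7 / 25) ≤ (-(17 / 50))
  s0 : GF 1 1 0 ys vs (-(1 / 4)) 0 ≤ (-(261 / 500))
  s1 : GF 1 1 0 ys vs 0 0 ≤ (-(411 / 1000))
  la : GF 1 0 1 ys vs (-(1 / 4)) (7 / 25) ≤ (-(111 / 250))
  h00 : GF 1 0 1 ys vs 0 0 ≤ (-(103 / 200)) + (1 * ys.im + (-1) * vs.im)
  h01 : GF 1 0 1 ys vs 0 (7 / 50) ≤ (-(429 / 1000)) + (1 * ys.im + (-1) * vs.im)
  h02 : GF 1 0 1 ys vs 0 (7 / 25) ≤ (-(63 / 200)) + (1 * ys.im + (-1) * vs.im)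
  h10 : GF 1 0 1 ys vs (3 / 20) 0 ≤ (-(17 / 40)) + (1 * ys.im + (-1) * vs.im)
  h11 : GF 1 0 1 ys vs (3 / 20) (7 / 50) ≤ (-(709 / 2000)) + (1 * ys.im + (-1) * vs.im)
  h12 : GF 1 0 1 ys vs (3 / 20) (7 / 25) ≤ (-(491 / 2000)) + (1 * ys.im + (-1) * vs.im)
  g00 : GF 1 0 1 ys vs (-(1 / 4)) 0 ≤ (-(63 / 125)) + ((5 / 2) * ys.im + (-2) * vs.im)
  g01 : GF 1 0 1 ys vs (-(1 / 4)) (7 / 25) ≤ (-(33 / 100)) + ((5 / 2) * ys.im + (-2) * vs.im)
  g10 : GF 1 0 1 ys vs 0 0 ≤ (-(361 / 1000)) + ((5 / 2) * ys.im + (-2) * vs.im)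
  g11 : GF 1 0 1 ys vs 0 (7 / 25) ≤ (-(97 / 500)) + ((5 / 2) * ys.im + (-2) * vs.im)
  q0 : GF 1 0 0 ys vs (-(1 / 4)) 0 ≤ (-(533 / 1000))
  q1 : GF 1 0 0 ys vs 0 0 ≤ (-(53 / 125))
  q2 : GF 1 0 0 ys vs (3 / 20) 0 ≤ (-(357 / 1000))

/-- The bounds of the functional at a slot with a neighbour `3`, end, of the same sign. -/
structure B3s (ys vs : ℂ) : Prop where
  a0 : GF 2 1 1 ys vs 0 (7 / 25) ≤ (-(221 / 500))
  a1 : GF 2 1 1 ys vs (3 / 10) (7 / 25) ≤ (-(17 / 50))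
  a2 : GF 2 1 1 ys vs (1 / 2) (7 / 25) ≤ (-(229 / 1000))
  r0 : GF 2 1 0 ys vs 0 0 ≤ (-(507 / 1000))
  r1 : GF 2 1 0 ys vs (3 / 10) 0 ≤ (-(81 / 200))
  r2 : GF 2 1 0 ys vs (1 / 2) 0 ≤ (-(283 / 1000))
  b0 : GF 1 1 1 ys vs (-(1 / 4)) (7 / 25) ≤ (-(409 / 1000))
  b1 : GF 1 1 1 ys vs 0 (7 / 25) ≤ (-(63 / 200))
  s0 : GF 1 1 0 ys vs (-(1 / 4)) 0 ≤ (-(12 / 25))
  s1 : GF 1 1 0 ys vs 0 0 ≤ (-(48 / 125))
  la : GF 1 0 1 ys vs (-(1 / 4)) (7 / 25) ≤ (-(409 / 1000))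
  h00 : GF 1 0 1 ys vs 0 0 ≤ (-(281 / 500)) + ((-(1 / 2)) * ys.im + 0 * vs.im)
  h01 : GF 1 0 1 ys vs 0 (7 / 50) ≤ (-(447 / 1000)) + ((-(1 / 2)) * ys.im + 0 * vs.im)
  h02 : GF 1 0 1 ys vs 0 (7 / 25) ≤ (-(38 / 125)) + ((-(1 / 2)) * ys.im + 0 * vs.im)
  h10 : GF 1 0 1 ys vs (3 / 20) 0 ≤ (-(47 / 100)) + ((-(1 / 2)) * ys.im + 0 * vs.im)
  h11 : GF 1 0 1 ys vs (3 / 20) (7 / 50) ≤ (-(781 / 2000)) + ((-(1 / 2)) * ys.im + 0 * vs.im)
  h12 : GF 1 0 1 ys vs (3 / 20) (7 / 25) ≤ (-(49 / 200)) + ((-(1 / 2)) * ys.im + 0 * vs.im)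
  g00 : GF 1 0 1 ys vs (-(1 / 4)) 0 ≤ (-(1659 / 2500)) + ((-1) * ys.im + (1 / 2) * vs.im)
  g01 : GF 1 0 1 ys vs (-(1 / 4)) (7 / 25) ≤ (-(157 / 400)) + ((-1) * ys.im + (1 / 2) * vs.im)
  g10 : GF 1 0 1 ys vs 0 0 ≤ (-(5339 / 10000)) + ((-1) * ys.im + (1 / 2) * vs.im)
  g11 : GF 1 0 1 ys vs 0 (7 / 25) ≤ (-(597 / 2000)) + ((-1) * ys.im + (1 / 2) * vs.im)
  q0 : GF 1 0 0 ys vs (-(1 / 4)) 0 ≤ (-(61 / 125))
  q1 : GF 1 0 0 ys vs 0 0 ≤ (-(193 / 500))
  q2 : GF 1 0 0 ys vs (3 / 20) 0 ≤ (-(13 / 40))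

/-- The bounds of the functional at a slot with a neighbour `4`, end. -/
structure B4 (ys vs : ℂ) : Prop where
  a0 : GF 2 1 1 ys vs (-(1 / 4)) (7 / 25) ≤ (-(483 / 1000))
  a1 : GF 2 1 1 ys vs (3 / 10) (7 / 25) ≤ (-(46 / 125))
  a2 : GF 2 1 1 ys vs (1 / 2) (7 / 25) ≤ (-(243 / 1000))
  r0 : GF 2 1 0 ys vs (-(1 / 4)) 0 ≤ (-(561 / 1000))
  r1 : GF 2 1 0 ys vs (3 / 10) 0 ≤ (-(439 / 1000))
  r2 : GF 2 1 0 ys vs (1 / 2) 0 ≤ (-(57 / 200))
  la : GF 2 0 1 ys vs (-(1 / 4)) (7 / 25) ≤ (-(123 / 250))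
  lb : GF 2 0 1 ys vs 0 (7 / 25) ≤ (-(439 / 1000))
  q0 : GF 2 0 0 ys vs (-(1 / 4)) 0 ≤ (-(579 / 1000))
  q1 : GF 2 0 0 ys vs 0 0 ≤ (-(523 / 1000))

/-- The bounds of the functional at a slot with an inner neighbour `3`. -/
structure B5 (ys vs : ℂ) : Prop where
  a0 : GF 2 1 1 ys vs (-(1 / 4)) (7 / 25) ≤ (-(63 / 250))
  a1 : GF 2 1 1 ys vs (3 / 10) (7 / 25) ≤ (-(319 / 1000))
  a2 : GF 2 1 1 ys vs (1 / 2) (7 / 25) ≤ (-(9 / 40))
  r0 : GF 2 1 0 ys vs (-(1 / 4)) 0 ≤ (-(321 / 1000))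
  r1 : GF 2 1 0 ys vs (3 / 10) 0 ≤ (-(191 / 500))
  r2 : GF 2 1 0 ys vs (1 / 2) 0 ≤ (-(49 / 200))
  la : GF 2 0 1 ys vs (-(1 / 4)) (7 / 25) ≤ (-(291 / 1000))
  lr : GF 2 0 0 ys vs (-(1 / 4)) 0 ≤ (-(9 / 25))

namespace VQ

theorem c2u {ys vs y v : ℂ} (hU : VU ys vs) (hB : B2 ys vs)
    (hnu : vs.im ≤ (3 / 50)) (x0 : (-(1 / 4)) ≤ y.re) (x1 : y.re ≤ 0)
    (t0 : (3 / 20) ≤ y.im) (t1 : y.im ≤ (3 / 20))
    (hv : Vq vs v) :
    SW 2 y v + GG 2 1 ys vs y.re v + (6 / 25) < (314159 / 100000) * |y.im| := by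
  have h1 : GF 2 1 1 ys vs y.re (7 / 25) ≤ (-(4447 / 10000)) + (469 / 1000) * y.re + (0 * ys.im + 0 * vs.im) :=
    GF_X (X0 := (-(1 / 4))) (X1 := (3 / 10)) (by linarith only [hB.a0]) (by linarith only [hB.a1]) (by linarith only [x0]) (by linarith only [x1])
  have h2 : GF 2 1 0 ys vs y.re 0 ≤ (-(2389 / 5000)) + (119 / 250) * y.re + (0 * ys.im + 0 * vs.im) :=
    GF_X (X0 := (-(1 / 4))) (X1 := (3 / 10)) (by linarith only [hB.r0]) (by linarith only [hB.r1]) (by linarith only [x0]) (by linarith only [x1])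
  have h := cellF (f := 1) (pay := (6 / 25)) (e := 0) hU r_c2uF r_c2uV r_c2uW r_c2uR r_c2uS hnu x0 x1 t0 t1
    (by linarith only [h1]) (by linarith only [h2]) (by linarith only [x1]) hv
  linarith only [h]

theorem c2P {ys vs y v : ℂ} (hU : VU ys vs) (hB : B2 ys vs)
    (hnu : vs.im ≤ (3 / 50)) (hx : y.re = (-(1 / 4)))
    (t0 : (-(3 / 20)) ≤ y.im) (t1 : y.im ≤ 0)
    (hv : Vq vs v) :
    SW 2 y v + GG 2 1 ys vs y.re v + (6 / 25) < (314159 / 100000) * |y.im| := by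
  have x0 : (-(1 / 4)) ≤ y.re := hx.ge
  have x1 : y.re ≤ (-(1 / 4)) := hx.le
  have h1 : GF 2 1 1 ys vs y.re (7 / 25) ≤ (-(281 / 500)) + 0 * y.re + (0 * ys.im + 0 * vs.im) := by
    rw [hx]
    linarith only [hB.a0]
  have h2 : GF 2 1 0 ys vs y.re 0 ≤ (-(597 / 1000)) + 0 * y.re + (0 * ys.im + 0 * vs.im) := by
    rw [hx]
    linarith only [hB.r0]
  have h := cellF (f := 1) (pay := (6 / 25)) (e := 0) hU r_c2PF r_c2PV r_c2PW r_c2PR r_c2PS hnu x0 x1 t0 t1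
    (by linarith only [h1]) (by linarith only [h2]) (by linarith only []) hv
  linarith only [h]

theorem c2p {ys vs y v : ℂ} (hU : VU ys vs) (hB : B2 ys vs)
    (hnu : vs.im ≤ (3 / 50)) (hx : y.re = (-(1 / 4)))
    (t0 : 0 ≤ y.im) (t1 : y.im ≤ (3 / 20))
    (hv : Vq vs v) :
    SW 2 y v + GG 2 1 ys vs y.re v + (6 / 25) < (314159 / 100000) * |y.im| := by
  have x0 : (-(1 / 4)) ≤ y.re := hx.ge
  have x1 : y.re ≤ (-(1 / 4)) := hx.le
  have h1 : GF 2 1 1 ys vs y.re (7 / 25) ≤ (-(281 / 500)) + 0 * y.re + (0 * ys.im + 0 * vs.im) := by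
    rw [hx]
    linarith only [hB.a0]
  have h2 : GF 2 1 0 ys vs y.re 0 ≤ (-(597 / 1000)) + 0 * y.re + (0 * ys.im + 0 * vs.im) := by
    rw [hx]
    linarith only [hB.r0]
  have h := cellF (f := 1) (pay := (6 / 25)) (e := 0) hU r_c2pF r_c2pV r_c2pW r_c2pR r_c2pS hnu x0 x1 t0 t1
    (by linarith only [h1]) (by linarith only [h2]) (by linarith only []) hv
  linarith only [h]

theorem c2ta {ys vs y v : ℂ} (hU : VU ys vs) (hB : B2 ys vs)
    (hnu : vs.im ≤ (3 / 50)) (x0 : 0 ≤ y.re) (x1 : y.re ≤ (3 / 10))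
    (t0 : (3 / 20) ≤ y.im) (t1 : y.im ≤ (3 / 20))
    (hv : Vq vs v) :
    SW 2 y v + GG 2 1 ys vs y.re v + (13 / 100) < (314159 / 100000) * |y.im| := by
  have h0 : GF 2 1 1 ys vs y.re 0 ≤ (-(5881 / 10000)) + (487 / 1000) * y.re + (0 * ys.im + 0 * vs.im) :=
    GF_X (X0 := (-(1 / 4))) (X1 := (3 / 10)) (by linarith only [hB.z0]) (by linarith only [hB.z1]) (by linarith only [x0]) (by linarith only [x1])
  have h1 : GF 2 1 1 ys vs y.re (7 / 25) ≤ (-(4447 / 10000)) + (469 / 1000) * y.re + (0 * ys.im + 0 * vs.im) :=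
    GF_X (X0 := (-(1 / 4))) (X1 := (3 / 10)) (by linarith only [hB.a0]) (by linarith only [hB.a1]) (by linarith only [x0]) (by linarith only [x1])
  have h2 : GF 2 1 0 ys vs y.re 0 ≤ (-(2389 / 5000)) + (119 / 250) * y.re + (0 * ys.im + 0 * vs.im) :=
    GF_X (X0 := (-(1 / 4))) (X1 := (3 / 10)) (by linarith only [hB.r0]) (by linarith only [hB.r1]) (by linarith only [x0]) (by linarith only [x1])
  have k00 : GF 2 1 1 ys vs y.re 0 ≤ (-(647 / 1100)) + (134 / 275) * y.re + (0 * ys.im + 0 * vs.im) :=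
    GF_X (X0 := (-(1 / 4))) (X1 := (3 / 10)) (by linarith only [hB.z0]) (by linarith only [hB.z1]) (by linarith only [x0]) (by linarith only [x1])
  have k01 : GF 2 1 1 ys vs y.re (7 / 25) ≤ (-(1223 / 2750)) + (129 / 275) * y.re + (0 * ys.im + 0 * vs.im) :=
    GF_X (X0 := (-(1 / 4))) (X1 := (3 / 10)) (by linarith only [hB.a0]) (by linarith only [hB.a1]) (by linarith only [x0]) (by linarith only [x1])
  have hA : v.im = vs.im → 0 ≤ v.re → v.re ≤ 7 / 25 →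
      SW 2 y v + GF 2 1 1 ys vs y.re v.re + (13 / 100) < (314159 / 100000) * |y.im| := by
    intro v1 v2 v3
    exact cellA hU r_c2taA0 hnu x0 x1 t0 t1 (by linarith only [h0, x1]) (by linarith only [h1]) v1 v2 v3
  have h := cellN (f := 1) (pay := (13 / 100)) hU r_c2taN r_c2taV r_c2taW r_c2taR r_c2taS hnu x0 x1 t0 t1
    (by linarith only [h0]) (by linarith only [h1]) hA (by linarith only [h2]) (by linarith only [x1]) (by linarith only []) (by linarith only [x1]) (by norm_num) hv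
  linarith only [h]

theorem c2tb {ys vs y v : ℂ} (hU : VU ys vs) (hB : B2 ys vs)
    (hnu : vs.im ≤ (3 / 50)) (x0 : (3 / 10) ≤ y.re) (x1 : y.re ≤ (1 / 2))
    (t0 : (3 / 20) ≤ y.im) (t1 : y.im ≤ (3 / 20))
    (hv : Vq vs v) :
    SW 2 y v + GG 2 1 ys vs y.re v + (13 / 100) < (314159 / 100000) * |y.im| := by
  have h0 : GF 2 1 1 ys vs y.re 0 ≤ (-(86 / 125)) + (41 / 50) * y.re + (0 * ys.im + 0 * vs.im) :=
    GF_X (X0 := (3 / 10)) (X1 := (1 / 2)) (by linarith only [hB.z1]) (by linarith only [hB.z2]) (by linarith only [x0]) (by linarith only [x1])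
  have h1 : GF 2 1 1 ys vs y.re (7 / 25) ≤ (-(911 / 2000)) + (101 / 200) * y.re + (0 * ys.im + 0 * vs.im) :=
    GF_X (X0 := (3 / 10)) (X1 := (1 / 2)) (by linarith only [hB.a1]) (by linarith only [hB.a2]) (by linarith only [x0]) (by linarith only [x1])
  have h2 : GF 2 1 0 ys vs y.re 0 ≤ (-(64 / 125)) + (59 / 100) * y.re + (0 * ys.im + 0 * vs.im) :=
    GF_X (X0 := (3 / 10)) (X1 := (1 / 2)) (by linarith only [hB.r1]) (by linarith only [hB.r2]) (by linarith only [x0]) (by linarith only [x1])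
  have k00 : GF 2 1 1 ys vs y.re 0 ≤ (-(86 / 125)) + (41 / 50) * y.re + (0 * ys.im + 0 * vs.im) :=
    GF_X (X0 := (3 / 10)) (X1 := (1 / 2)) (by linarith only [hB.z1]) (by linarith only [hB.z2]) (by linarith only [x0]) (by linarith only [x1])
  have k01 : GF 2 1 1 ys vs y.re (7 / 25) ≤ (-(911 / 2000)) + (101 / 200) * y.re + (0 * ys.im + 0 * vs.im) :=
    GF_X (X0 := (3 / 10)) (X1 := (1 / 2)) (by linarith only [hB.a1]) (by linarith only [hB.a2]) (by linarith only [x0]) (by linarith only [x1])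
  have hA : v.im = vs.im → 0 ≤ v.re → v.re ≤ 7 / 25 →
      SW 2 y v + GF 2 1 1 ys vs y.re v.re + (13 / 100) < (314159 / 100000) * |y.im| := by
    intro v1 v2 v3
    exact cellA hU r_c2tbA0 hnu x0 x1 t0 t1 (by linarith only [h0]) (by linarith only [h1, x0]) v1 v2 v3
  have h := cellN (f := 1) (pay := (13 / 100)) hU r_c2tbN r_c2tbV r_c2tbW r_c2tbR r_c2tbS hnu x0 x1 t0 t1
    (by linarith only [h0]) (by linarith only [h1]) hA (by linarith only [h2]) (by linarith only [x1]) (by linarith only []) (by linarith only [x1]) (by norm_num) hv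
  linarith only [h]

theorem c2L {ys vs y v : ℂ} (hU : VU ys vs) (hB : B2 ys vs)
    (hnu : vs.im ≤ (3 / 50)) (hx : y.re = (-(1 / 4)))
    (t0 : (-(13 / 100)) ≤ ys.im) (t1 : ys.im ≤ 0) {σ : ℝ} (z0 : 0 ≤ σ) (z1 : σ ≤ 1) (hs : y.im = σ * ys.im)
    (hv : Vq vs v) :
    SW 2 y v + GG 2 (1 - σ) ys vs y.re v + (6 / 25) < 0 := by
  have x0 : (-(1 / 4)) ≤ y.re := hx.ge
  have x1 : y.re ≤ (-(1 / 4)) := hx.le
  have h1 : GF 2 (1 - σ) 1 ys vs y.re (7 / 25) ≤ (-(281 / 500)) - (1 - (1 - σ)) * ((-(281 / 500)) - (-(359 / 500))) := by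
    rw [hx]
    exact GF_f' (by linarith only [z1]) (by linarith only [z0]) (by linarith only [hB.a0]) (by linarith only [hB.la])
  have h2 : GF 2 (1 - σ) 0 ys vs y.re 0 ≤ (-(597 / 1000)) - (1 - (1 - σ)) * ((-(597 / 1000)) - (-(753 / 1000))) := by
    rw [hx]
    exact GF_f' (by linarith only [z1]) (by linarith only [z0]) (by linarith only [hB.r0]) (by linarith only [hB.lr])
  have ha : |y.im| ≤ (13 / 100) * σ := by
    rw [hs, abs_mul, abs_of_nonneg z0, mul_comm]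
    exact mul_le_mul_of_nonneg_right (abs_le.2 ⟨by linarith only [t0], by linarith only [t1]⟩) z0
  have s0 : (-(13 / 100)) ≤ y.im := by
    rw [hs]
    linarith only [z1, mul_nonneg (sub_nonneg.2 t0) (sub_nonneg.2 z0)]
  have s1 : y.im ≤ 0 := by
    rw [hs]
    linarith only [mul_nonneg (sub_nonneg.2 t1) (sub_nonneg.2 z0)]
  have h := cellF (f := 1 - σ) (pay := (6 / 25)) (e := -((6 / 5) * |y.im|)) hU r_c2LF r_c2LV r_c2LW r_c2LR r_c2LS hnu x0 x1 s0 s1
    (by linarith only [ha, h1]) (by linarith only [ha, h2]) (by linarith only []) hv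
  linarith only [h]

theorem c3Ata {ys vs y v : ℂ} (hU : VU ys vs) (hB : B3a ys vs)
    (hnu : vs.im ≤ (7 / 100)) (x0 : 0 ≤ y.re) (x1 : y.re ≤ (3 / 10))
    (t0 : (3 / 20) ≤ y.im) (t1 : y.im ≤ (3 / 20))
    (hv : Vq vs v) :
    SW 2 y v + GG 2 1 ys vs y.re v + (1 / 20) < (314159 / 100000) * |y.im| := by
  have h1 : GF 2 1 1 ys vs y.re (7 / 25) ≤ (-(4629 / 10000)) + (353 / 1000) * y.re + (0 * ys.im + 0 * vs.im) :=
    GF_X (X0 := 0) (X1 := (3 / 10)) (by linarith only [hB.a0]) (by linarith only [hB.a1]) (by linarith only [x0]) (by linarith only [x1])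
  have h2 : GF 2 1 0 ys vs y.re 0 ≤ (-(499 / 1000)) + (9 / 25) * y.re + (0 * ys.im + 0 * vs.im) :=
    GF_X (X0 := 0) (X1 := (3 / 10)) (by linarith only [hB.r0]) (by linarith only [hB.r1]) (by linarith only [x0]) (by linarith only [x1])
  have h := cellF (f := 1) (pay := (1 / 20)) (e := 0) hU r_c3AtaF r_c3AtaV r_c3AtaW r_c3AtaR r_c3AtaS hnu x0 x1 t0 t1
    (by linarith only [h1]) (by linarith only [h2]) (by linarith only [x1]) hv
  linarith only [h]

theorem c3Atb {ys vs y v : ℂ} (hU : VU ys vs) (hB : B3a ys vs)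
    (hnu : vs.im ≤ (7 / 100)) (x0 : (3 / 10) ≤ y.re) (x1 : y.re ≤ (1 / 2))
    (t0 : (3 / 20) ≤ y.im) (t1 : y.im ≤ (3 / 20))
    (hv : Vq vs v) :
    SW 2 y v + GG 2 1 ys vs y.re v + (1 / 20) < (314159 / 100000) * |y.im| := by
  have h1 : GF 2 1 1 ys vs y.re (7 / 25) ≤ (-(1059 / 2000)) + (23 / 40) * y.re + (0 * ys.im + 0 * vs.im) :=
    GF_X (X0 := (3 / 10)) (X1 := (1 / 2)) (by linarith only [hB.a1]) (by linarith only [hB.a2]) (by linarith only [x0]) (by linarith only [x1])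
  have h2 : GF 2 1 0 ys vs y.re 0 ≤ (-(241 / 400)) + (141 / 200) * y.re + (0 * ys.im + 0 * vs.im) :=
    GF_X (X0 := (3 / 10)) (X1 := (1 / 2)) (by linarith only [hB.r1]) (by linarith only [hB.r2]) (by linarith only [x0]) (by linarith only [x1])
  have h := cellF (f := 1) (pay := (1 / 20)) (e := 0) hU r_c3AtbF r_c3AtbV r_c3AtbW r_c3AtbR r_c3AtbS hnu x0 x1 t0 t1
    (by linarith only [h1]) (by linarith only [h2]) (by linarith only [x1]) hv
  linarith only [h]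

theorem c3AU {ys vs y v : ℂ} (hU : VU ys vs) (hB : B3a ys vs)
    (hnu : vs.im ≤ (7 / 100)) (x0 : (-(1 / 4)) ≤ y.re) (x1 : y.re ≤ 0)
    (t0 : (-(3 / 20)) ≤ y.im) (t1 : y.im ≤ (-(3 / 20)))
    (hv : Vq vs v) :
    SW 1 y v + GG 1 1 ys vs y.re v < (279159 / 100000) * |y.im| := by
  have h1 : GF 1 1 1 ys vs y.re (7 / 25) ≤ (-(17 / 50)) + (52 / 125) * y.re + (0 * ys.im + 0 * vs.im) :=
    GF_X (X0 := (-(1 / 4))) (X1 := 0) (by linarith only [hB.b0]) (by linarith only [hB.b1]) (by linarith only [x0]) (by linarith only [x1])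
  have h2 : GF 1 1 0 ys vs y.re 0 ≤ (-(411 / 1000)) + (111 / 250) * y.re + (0 * ys.im + 0 * vs.im) :=
    GF_X (X0 := (-(1 / 4))) (X1 := 0) (by linarith only [hB.s0]) (by linarith only [hB.s1]) (by linarith only [x0]) (by linarith only [x1])
  have h := cellF (f := 1) (pay := 0) (e := 0) hU r_c3AUF r_c3AUV r_c3AUW r_c3AUR r_c3AUS hnu x0 x1 t0 t1
    (by linarith only [h1]) (by linarith only [h2]) (by linarith only [x1]) hv
  linarith only [h]

theorem c3Au {ys vs y v : ℂ} (hU : VU ys vs) (hB : B3a ys vs)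
    (hnu : vs.im ≤ (7 / 100)) (x0 : (-(1 / 4)) ≤ y.re) (x1 : y.re ≤ 0)
    (t0 : (3 / 20) ≤ y.im) (t1 : y.im ≤ (3 / 20))
    (hv : Vq vs v) :
    SW 1 y v + GG 1 1 ys vs y.re v + (1 / 20) < (314159 / 100000) * |y.im| := by
  have h1 : GF 1 1 1 ys vs y.re (7 / 25) ≤ (-(17 / 50)) + (52 / 125) * y.re + (0 * ys.im + 0 * vs.im) :=
    GF_X (X0 := (-(1 / 4))) (X1 := 0) (by linarith only [hB.b0]) (by linarith only [hB.b1]) (by linarith only [x0]) (by linarith only [x1])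
  have h2 : GF 1 1 0 ys vs y.re 0 ≤ (-(411 / 1000)) + (111 / 250) * y.re + (0 * ys.im + 0 * vs.im) :=
    GF_X (X0 := (-(1 / 4))) (X1 := 0) (by linarith only [hB.s0]) (by linarith only [hB.s1]) (by linarith only [x0]) (by linarith only [x1])
  have h := cellF (f := 1) (pay := (1 / 20)) (e := 0) hU r_c3AuF r_c3AuV r_c3AuW r_c3AuR r_c3AuS hnu x0 x1 t0 t1
    (by linarith only [h1]) (by linarith only [h2]) (by linarith only [x1]) hv
  linarith only [h]

theorem c3AP {ys vs y v : ℂ} (hU : VU ys vs) (hB : B3a ys vs)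
    (hnu : vs.im ≤ (7 / 100)) (hx : y.re = (-(1 / 4)))
    (t0 : (-(3 / 20)) ≤ y.im) (t1 : y.im ≤ 0)
    (hv : Vq vs v) :
    SW 1 y v + GG 1 1 ys vs y.re v + (1 / 20) < (279159 / 100000) * |y.im| := by
  have x0 : (-(1 / 4)) ≤ y.re := hx.ge
  have x1 : y.re ≤ (-(1 / 4)) := hx.le
  have h1 : GF 1 1 1 ys vs y.re (7 / 25) ≤ (-(111 / 250)) + 0 * y.re + (0 * ys.im + 0 * vs.im) := by
    rw [hx]
    linarith only [hB.b0]
  have h2 : GF 1 1 0 ys vs y.re 0 ≤ (-(261 / 500)) + 0 * y.re + (0 * ys.im + 0 * vs.im) := by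
    rw [hx]
    linarith only [hB.s0]
  have h := cellF (f := 1) (pay := (1 / 20)) (e := 0) hU r_c3APF r_c3APV r_c3APW r_c3APR r_c3APS hnu x0 x1 t0 t1
    (by linarith only [h1]) (by linarith only [h2]) (by linarith only []) hv
  linarith only [h]

theorem c3Ap {ys vs y v : ℂ} (hU : VU ys vs) (hB : B3a ys vs)
    (hnu : vs.im ≤ (7 / 100)) (hx : y.re = (-(1 / 4)))
    (t0 : 0 ≤ y.im) (t1 : y.im ≤ (3 / 20))
    (hv : Vq vs v) :
    SW 1 y v + GG 1 1 ys vs y.re v + (1 / 20) < (314159 / 100000) * |y.im| := by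
  have x0 : (-(1 / 4)) ≤ y.re := hx.ge
  have x1 : y.re ≤ (-(1 / 4)) := hx.le
  have h1 : GF 1 1 1 ys vs y.re (7 / 25) ≤ (-(111 / 250)) + 0 * y.re + (0 * ys.im + 0 * vs.im) := by
    rw [hx]
    linarith only [hB.b0]
  have h2 : GF 1 1 0 ys vs y.re 0 ≤ (-(261 / 500)) + 0 * y.re + (0 * ys.im + 0 * vs.im) := by
    rw [hx]
    linarith only [hB.s0]
  have h := cellF (f := 1) (pay := (1 / 20)) (e := 0) hU r_c3ApF r_c3ApV r_c3ApW r_c3ApR r_c3ApS hnu x0 x1 t0 t1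
    (by linarith only [h1]) (by linarith only [h2]) (by linarith only []) hv
  linarith only [h]

theorem c3AL {ys vs y v : ℂ} (hU : VU ys vs) (hB : B3a ys vs)
    (hnu : vs.im ≤ (7 / 100)) (hx : y.re = (-(1 / 4)))
    (t0 : (-(3 / 50)) ≤ ys.im) (t1 : ys.im ≤ 0) {σ : ℝ} (z0 : 0 ≤ σ) (z1 : σ ≤ 1) (hs : y.im = σ * ys.im)
    (hv : Vq vs v) :
    SW 1 y v + GG 1 (1 - σ) ys vs y.re v + (1 / 20) < 0 := by
  have x0 : (-(1 / 4)) ≤ y.re := hx.ge
  have x1 : y.re ≤ (-(1 / 4)) := hx.le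
  have h1 : GF 1 (1 - σ) 1 ys vs y.re (7 / 25) ≤ (-(111 / 250)) - (1 - (1 - σ)) * ((-(111 / 250)) - (-(111 / 250))) := by
    rw [hx]
    exact GF_f' (by linarith only [z1]) (by linarith only [z0]) (by linarith only [hB.b0]) (by linarith only [hB.la])
  have h2 : GF 1 (1 - σ) 0 ys vs y.re 0 ≤ (-(261 / 500)) - (1 - (1 - σ)) * ((-(261 / 500)) - (-(261 / 500))) := by
    rw [hx]
    exact GF_f' (by linarith only [z1]) (by linarith only [z0]) (by linarith only [hB.s0]) (by linarith only [hB.q0])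
  have ha : |y.im| ≤ (3 / 50) * σ := by
    rw [hs, abs_mul, abs_of_nonneg z0, mul_comm]
    exact mul_le_mul_of_nonneg_right (abs_le.2 ⟨by linarith only [t0], by linarith only [t1]⟩) z0
  have s0 : (-(3 / 50)) ≤ y.im := by
    rw [hs]
    linarith only [z1, mul_nonneg (sub_nonneg.2 t0) (sub_nonneg.2 z0)]
  have s1 : y.im ≤ 0 := by
    rw [hs]
    linarith only [mul_nonneg (sub_nonneg.2 t1) (sub_nonneg.2 z0)]
  have h := cellF (f := 1 - σ) (pay := (1 / 20)) (e := -(0 * |y.im|)) hU r_c3ALF r_c3ALV r_c3ALW r_c3ALR r_c3ALS hnu x0 x1 s0 s1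
    (by linarith only [h1]) (by linarith only [h2]) (by linarith only []) hv
  linarith only [h]

theorem c3AH {ys vs y v : ℂ} (hU : VU ys vs) (hB : B3a ys vs)
    (hnu : vs.im ≤ (7 / 100)) (x0 : 0 ≤ y.re) (x1 : y.re ≤ (3 / 20))
    (t0 : (-(3 / 50)) ≤ ys.im) (t1 : ys.im ≤ (-(3 / 125))) (hs : y.im = ys.im)
    (hv : Vq vs v) :
    SW 1 y v + GG 1 0 ys vs y.re v < 0 := by
  have h0 : GF 1 0 1 ys vs y.re 0 ≤ (-(103 / 200)) + (3 / 5) * y.re + (1 * ys.im + (-1) * vs.im) :=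
    GF_X (X0 := 0) (X1 := (3 / 20)) (by linarith only [hB.h00]) (by linarith only [hB.h10]) (by linarith only [x0]) (by linarith only [x1])
  have h1 : GF 1 0 1 ys vs y.re (7 / 25) ≤ (-(6299 / 20000)) + (463 / 1000) * y.re + (1 * ys.im + (-1) * vs.im) :=
    GF_X (X0 := 0) (X1 := (3 / 20)) (by linarith only [hB.h02]) (by linarith only [hB.h12]) (by linarith only [x0]) (by linarith only [x1])
  have h2 : GF 1 0 0 ys vs y.re 0 ≤ (-(53 / 125)) + (447 / 1000) * y.re + (0 * ys.im + 0 * vs.im) :=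
    GF_X (X0 := 0) (X1 := (3 / 20)) (by linarith only [hB.q1]) (by linarith only [hB.q2]) (by linarith only [x0]) (by linarith only [x1])
  rw [← hs] at h0 h1 t0 t1
  have k00 : GF 1 0 1 ys vs y.re 0 ≤ (-(103 / 200)) + (3 / 5) * y.re + (1 * ys.im + (-1) * vs.im) :=
    GF_X (X0 := 0) (X1 := (3 / 20)) (by linarith only [hB.h00]) (by linarith only [hB.h10]) (by linarith only [x0]) (by linarith only [x1])
  rw [← hs] at k00
  have k01 : GF 1 0 1 ys vs y.re (7 / 50) ≤ (-(429 / 1000)) + (149 / 300) * y.re + (1 * ys.im + (-1) * vs.im) :=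
    GF_X (X0 := 0) (X1 := (3 / 20)) (by linarith only [hB.h01]) (by linarith only [hB.h11]) (by linarith only [x0]) (by linarith only [x1])
  rw [← hs] at k01
  have k10 : GF 1 0 1 ys vs y.re (7 / 50) ≤ (-(429 / 1000)) + (149 / 300) * y.re + (1 * ys.im + (-1) * vs.im) :=
    GF_X (X0 := 0) (X1 := (3 / 20)) (by linarith only [hB.h01]) (by linarith only [hB.h11]) (by linarith only [x0]) (by linarith only [x1])
  rw [← hs] at k10
  have k11 : GF 1 0 1 ys vs y.re (7 / 25) ≤ (-(63 / 200)) + (139 / 300) * y.re + (1 * ys.im + (-1) * vs.im) :=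
    GF_X (X0 := 0) (X1 := (3 / 20)) (by linarith only [hB.h02]) (by linarith only [hB.h12]) (by linarith only [x0]) (by linarith only [x1])
  rw [← hs] at k11
  have hA : v.im = vs.im → 0 ≤ v.re → v.re ≤ 7 / 25 →
      SW 1 y v + GF 1 0 1 ys vs y.re v.re + 0 < 0 * |y.im| := by
    intro v1 v2 v3
    rcases le_total v.re (7 / 50) with v4 | v4
    · exact cellA hU r_c3AHA0 hnu x0 x1 t0 t1 (by linarith only [h0, x1]) (by linarith only [k01,
                                                                                x0]) v1 v2 v4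
    · exact cellA hU r_c3AHA1 hnu x0 x1 t0 t1 (by linarith only [k01, x1]) (by linarith only [h1]) v1 v4 v3
  have h := cellN (f := 0) (pay := 0) hU r_c3AHN r_c3AHV r_c3AHW r_c3AHR r_c3AHS hnu x0 x1 t0 t1
    (by linarith only [h0]) (by linarith only [h1]) hA (by linarith only [h2]) (by linarith only [t0,
                                                                                     x0]) (by linarith only []) (by linarith only [t1,
                                                                                                                      x1]) (by norm_num) hv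
  linarith only [h]

theorem c3AG {ys vs y v : ℂ} (hU : VU ys vs) (hB : B3a ys vs)
    (hnu : vs.im ≤ (7 / 100)) (x0 : (-(1 / 4)) ≤ y.re) (x1 : y.re ≤ 0)
    (t0 : (-(3 / 50)) ≤ ys.im) (t1 : ys.im ≤ (-(3 / 125))) (hs : y.im = ys.im)
    (hv : Vq vs v) :
    SW 1 y v + GG 1 0 ys vs y.re v + (1 / 20) < 0 := by
  have h0 : GF 1 0 1 ys vs y.re 0 ≤ (-(361 / 1000)) + (143 / 250) * y.re + ((5 / 2) * ys.im + (-2) * vs.im) :=
    GF_X (X0 := (-(1 / 4))) (X1 := 0) (by linarith only [hB.g00]) (by linarith only [hB.g10]) (by linarith only [x0]) (by linarith only [x1])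
  have h1 : GF 1 0 1 ys vs y.re (7 / 25) ≤ (-(97 / 500)) + (68 / 125) * y.re + ((5 / 2) * ys.im + (-2) * vs.im) :=
    GF_X (X0 := (-(1 / 4))) (X1 := 0) (by linarith only [hB.g01]) (by linarith only [hB.g11]) (by linarith only [x0]) (by linarith only [x1])
  have h2 : GF 1 0 0 ys vs y.re 0 ≤ (-(53 / 125)) + (109 / 250) * y.re + (0 * ys.im + 0 * vs.im) :=
    GF_X (X0 := (-(1 / 4))) (X1 := 0) (by linarith only [hB.q0]) (by linarith only [hB.q1]) (by linarith only [x0]) (by linarith only [x1])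
  rw [← hs] at h0 h1 t0 t1
  have k00 : GF 1 0 1 ys vs y.re 0 ≤ (-(361 / 1000)) + (143 / 250) * y.re + ((5 / 2) * ys.im + (-2) * vs.im) :=
    GF_X (X0 := (-(1 / 4))) (X1 := 0) (by linarith only [hB.g00]) (by linarith only [hB.g10]) (by linarith only [x0]) (by linarith only [x1])
  rw [← hs] at k00
  have k01 : GF 1 0 1 ys vs y.re (7 / 25) ≤ (-(97 / 500)) + (68 / 125) * y.re + ((5 / 2) * ys.im + (-2) * vs.im) :=
    GF_X (X0 := (-(1 / 4))) (X1 := 0) (by linarith only [hB.g01]) (by linarith only [hB.g11]) (by linarith only [x0]) (by linarith only [x1])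
  rw [← hs] at k01
  have hA : v.im = vs.im → 0 ≤ v.re → v.re ≤ 7 / 25 →
      SW 1 y v + GF 1 0 1 ys vs y.re v.re + (1 / 20) < 0 * |y.im| := by
    intro v1 v2 v3
    exact cellA hU r_c3AGA0 hnu x0 x1 t0 t1 (by linarith only [h0, x1]) (by linarith only [h1]) v1 v2 v3
  have h := cellN (f := 0) (pay := (1 / 20)) hU r_c3AGN r_c3AGV r_c3AGW r_c3AGR r_c3AGS hnu x0 x1 t0 t1
    (by linarith only [h0]) (by linarith only [h1]) hA (by linarith only [h2]) (by linarith only [t0,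
                                                                                     x0]) (by linarith only [x0]) (by linarith only [t1,
                                                                                                                        x1]) (by norm_num) hv
  linarith only [h]

theorem c3Sta {ys vs y v : ℂ} (hU : VU ys vs) (hB : B3s ys vs)
    (hnu : vs.im ≤ (2 / 25)) (x0 : 0 ≤ y.re) (x1 : y.re ≤ (3 / 10))
    (t0 : (-(3 / 20)) ≤ y.im) (t1 : y.im ≤ (-(3 / 20)))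
    (hv : Vq vs v) :
    SW 2 y v + GG 2 1 ys vs y.re v + (1 / 20) < (314159 / 100000) * |y.im| := by
  have h1 : GF 2 1 1 ys vs y.re (7 / 25) ≤ (-(221 / 500)) + (17 / 50) * y.re + (0 * ys.im + 0 * vs.im) :=
    GF_X (X0 := 0) (X1 := (3 / 10)) (by linarith only [hB.a0]) (by linarith only [hB.a1]) (by linarith only [x0]) (by linarith only [x1])
  have h2 : GF 2 1 0 ys vs y.re 0 ≤ (-(507 / 1000)) + (17 / 50) * y.re + (0 * ys.im + 0 * vs.im) :=
    GF_X (X0 := 0) (X1 := (3 / 10)) (by linarith only [hB.r0]) (by linarith only [hB.r1]) (by linarith only [x0]) (by linarith only [x1])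
  have h := cellF (f := 1) (pay := (1 / 20)) (e := 0) hU r_c3StaF r_c3StaV r_c3StaW r_c3StaR r_c3StaS hnu x0 x1 t0 t1
    (by linarith only [h1]) (by linarith only [h2]) (by linarith only []) hv
  linarith only [h]

theorem c3Stb {ys vs y v : ℂ} (hU : VU ys vs) (hB : B3s ys vs)
    (hnu : vs.im ≤ (2 / 25)) (x0 : (3 / 10) ≤ y.re) (x1 : y.re ≤ (1 / 2))
    (t0 : (-(3 / 20)) ≤ y.im) (t1 : y.im ≤ (-(3 / 20)))
    (hv : Vq vs v) :
    SW 2 y v + GG 2 1 ys vs y.re v + (1 / 20) < (314159 / 100000) * |y.im| := by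
  have h1 : GF 2 1 1 ys vs y.re (7 / 25) ≤ (-(1013 / 2000)) + (111 / 200) * y.re + (0 * ys.im + 0 * vs.im) :=
    GF_X (X0 := (3 / 10)) (X1 := (1 / 2)) (by linarith only [hB.a1]) (by linarith only [hB.a2]) (by linarith only [x0]) (by linarith only [x1])
  have h2 : GF 2 1 0 ys vs y.re 0 ≤ (-(147 / 250)) + (61 / 100) * y.re + (0 * ys.im + 0 * vs.im) :=
    GF_X (X0 := (3 / 10)) (X1 := (1 / 2)) (by linarith only [hB.r1]) (by linarith only [hB.r2]) (by linarith only [x0]) (by linarith only [x1])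
  have h := cellF (f := 1) (pay := (1 / 20)) (e := 0) hU r_c3StbF r_c3StbV r_c3StbW r_c3StbR r_c3StbS hnu x0 x1 t0 t1
    (by linarith only [h1]) (by linarith only [h2]) (by linarith only [x1]) hv
  linarith only [h]

theorem c3SU {ys vs y v : ℂ} (hU : VU ys vs) (hB : B3s ys vs)
    (hnu : vs.im ≤ (2 / 25)) (x0 : (-(1 / 4)) ≤ y.re) (x1 : y.re ≤ 0)
    (t0 : (3 / 20) ≤ y.im) (t1 : y.im ≤ (3 / 20))
    (hv : Vq vs v) :
    SW 1 y v + GG 1 1 ys vs y.re v < (276159 / 100000) * |y.im| := by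
  have h1 : GF 1 1 1 ys vs y.re (7 / 25) ≤ (-(63 / 200)) + (47 / 125) * y.re + (0 * ys.im + 0 * vs.im) :=
    GF_X (X0 := (-(1 / 4))) (X1 := 0) (by linarith only [hB.b0]) (by linarith only [hB.b1]) (by linarith only [x0]) (by linarith only [x1])
  have h2 : GF 1 1 0 ys vs y.re 0 ≤ (-(48 / 125)) + (48 / 125) * y.re + (0 * ys.im + 0 * vs.im) :=
    GF_X (X0 := (-(1 / 4))) (X1 := 0) (by linarith only [hB.s0]) (by linarith only [hB.s1]) (by linarith only [x0]) (by linarith only [x1])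
  have h := cellF (f := 1) (pay := 0) (e := 0) hU r_c3SUF r_c3SUV r_c3SUW r_c3SUR r_c3SUS hnu x0 x1 t0 t1
    (by linarith only [h1]) (by linarith only [h2]) (by linarith only [x1]) hv
  linarith only [h]

theorem c3Su {ys vs y v : ℂ} (hU : VU ys vs) (hB : B3s ys vs)
    (hnu : vs.im ≤ (2 / 25)) (x0 : (-(1 / 4)) ≤ y.re) (x1 : y.re ≤ 0)
    (t0 : (-(3 / 20)) ≤ y.im) (t1 : y.im ≤ (-(3 / 20)))
    (hv : Vq vs v) :
    SW 1 y v + GG 1 1 ys vs y.re v + (1 / 20) < (314159 / 100000) * |y.im| := by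
  have h1 : GF 1 1 1 ys vs y.re (7 / 25) ≤ (-(63 / 200)) + (47 / 125) * y.re + (0 * ys.im + 0 * vs.im) :=
    GF_X (X0 := (-(1 / 4))) (X1 := 0) (by linarith only [hB.b0]) (by linarith only [hB.b1]) (by linarith only [x0]) (by linarith only [x1])
  have h2 : GF 1 1 0 ys vs y.re 0 ≤ (-(48 / 125)) + (48 / 125) * y.re + (0 * ys.im + 0 * vs.im) :=
    GF_X (X0 := (-(1 / 4))) (X1 := 0) (by linarith only [hB.s0]) (by linarith only [hB.s1]) (by linarith only [x0]) (by linarith only [x1])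
  have h := cellF (f := 1) (pay := (1 / 20)) (e := 0) hU r_c3SuF r_c3SuV r_c3SuW r_c3SuR r_c3SuS hnu x0 x1 t0 t1
    (by linarith only [h1]) (by linarith only [h2]) (by linarith only [x1]) hv
  linarith only [h]

theorem c3SP {ys vs y v : ℂ} (hU : VU ys vs) (hB : B3s ys vs)
    (hnu : vs.im ≤ (2 / 25)) (hx : y.re = (-(1 / 4)))
    (t0 : 0 ≤ y.im) (t1 : y.im ≤ (3 / 20))
    (hv : Vq vs v) :
    SW 1 y v + GG 1 1 ys vs y.re v + (1 / 20) < (276159 / 100000) * |y.im| := by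
  have x0 : (-(1 / 4)) ≤ y.re := hx.ge
  have x1 : y.re ≤ (-(1 / 4)) := hx.le
  have h1 : GF 1 1 1 ys vs y.re (7 / 25) ≤ (-(409 / 1000)) + 0 * y.re + (0 * ys.im + 0 * vs.im) := by
    rw [hx]
    linarith only [hB.b0]
  have h2 : GF 1 1 0 ys vs y.re 0 ≤ (-(12 / 25)) + 0 * y.re + (0 * ys.im + 0 * vs.im) := by
    rw [hx]
    linarith only [hB.s0]
  have h := cellF (f := 1) (pay := (1 / 20)) (e := 0) hU r_c3SPF r_c3SPV r_c3SPW r_c3SPR r_c3SPS hnu x0 x1 t0 t1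
    (by linarith only [h1]) (by linarith only [h2]) (by linarith only []) hv
  linarith only [h]

theorem c3Sp {ys vs y v : ℂ} (hU : VU ys vs) (hB : B3s ys vs)
    (hnu : vs.im ≤ (2 / 25)) (hx : y.re = (-(1 / 4)))
    (t0 : (-(3 / 20)) ≤ y.im) (t1 : y.im ≤ 0)
    (hv : Vq vs v) :
    SW 1 y v + GG 1 1 ys vs y.re v + (1 / 20) < (314159 / 100000) * |y.im| := by
  have x0 : (-(1 / 4)) ≤ y.re := hx.ge
  have x1 : y.re ≤ (-(1 / 4)) := hx.le
  have h1 : GF 1 1 1 ys vs y.re (7 / 25) ≤ (-(409 / 1000)) + 0 * y.re + (0 * ys.im + 0 * vs.im) := by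
    rw [hx]
    linarith only [hB.b0]
  have h2 : GF 1 1 0 ys vs y.re 0 ≤ (-(12 / 25)) + 0 * y.re + (0 * ys.im + 0 * vs.im) := by
    rw [hx]
    linarith only [hB.s0]
  have h := cellF (f := 1) (pay := (1 / 20)) (e := 0) hU r_c3SpF r_c3SpV r_c3SpW r_c3SpR r_c3SpS hnu x0 x1 t0 t1
    (by linarith only [h1]) (by linarith only [h2]) (by linarith only []) hv
  linarith only [h]

theorem c3SL {ys vs y v : ℂ} (hU : VU ys vs) (hB : B3s ys vs)
    (hnu : vs.im ≤ (2 / 25)) (hx : y.re = (-(1 / 4)))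
    (t0 : 0 ≤ ys.im) (t1 : ys.im ≤ (8 / 125)) {σ : ℝ} (z0 : 0 ≤ σ) (z1 : σ ≤ 1) (hs : y.im = σ * ys.im)
    (hv : Vq vs v) :
    SW 1 y v + GG 1 (1 - σ) ys vs y.re v + (1 / 20) < 0 := by
  have x0 : (-(1 / 4)) ≤ y.re := hx.ge
  have x1 : y.re ≤ (-(1 / 4)) := hx.le
  have h1 : GF 1 (1 - σ) 1 ys vs y.re (7 / 25) ≤ (-(409 / 1000)) - (1 - (1 - σ)) * ((-(409 / 1000)) - (-(409 / 1000))) := by
    rw [hx]
    exact GF_f' (by linarith only [z1]) (by linarith only [z0]) (by linarith only [hB.b0]) (by linarith only [hB.la])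
  have h2 : GF 1 (1 - σ) 0 ys vs y.re 0 ≤ (-(12 / 25)) - (1 - (1 - σ)) * ((-(12 / 25)) - (-(12 / 25))) := by
    rw [hx]
    exact GF_f' (by linarith only [z1]) (by linarith only [z0]) (by linarith only [hB.s0]) (by linarith only [hB.q0])
  have ha : |y.im| ≤ (8 / 125) * σ := by
    rw [hs, abs_mul, abs_of_nonneg z0, mul_comm]
    exact mul_le_mul_of_nonneg_right (abs_le.2 ⟨by linarith only [t0], by linarith only [t1]⟩) z0
  have s0 : 0 ≤ y.im := by
    rw [hs]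
    linarith only [mul_nonneg (sub_nonneg.2 t0) (sub_nonneg.2 z0)]
  have s1 : y.im ≤ (8 / 125) := by
    rw [hs]
    linarith only [t1, mul_nonneg (sub_nonneg.2 t0) (sub_nonneg.2 z1)]
  have h := cellF (f := 1 - σ) (pay := (1 / 20)) (e := -(0 * |y.im|)) hU r_c3SLF r_c3SLV r_c3SLW r_c3SLR r_c3SLS hnu x0 x1 s0 s1
    (by linarith only [h1]) (by linarith only [h2]) (by linarith only []) hv
  linarith only [h]

theorem c3SH {ys vs y v : ℂ} (hU : VU ys vs) (hB : B3s ys vs)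
    (hnu : vs.im ≤ (2 / 25)) (x0 : 0 ≤ y.re) (x1 : y.re ≤ (3 / 20))
    (t0 : (1 / 25) ≤ ys.im) (t1 : ys.im ≤ (8 / 125)) (hs : y.im = ys.im)
    (hv : Vq vs v) :
    SW 1 y v + GG 1 0 ys vs y.re v < 0 := by
  have h0 : GF 1 0 1 ys vs y.re 0 ≤ (-(11239 / 20000)) + (613 / 1000) * y.re + ((-(1 / 2)) * ys.im + 0 * vs.im) :=
    GF_X (X0 := 0) (X1 := (3 / 20)) (by linarith only [hB.h00]) (by linarith only [hB.h10]) (by linarith only [x0]) (by linarith only [x1])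
  have h1 : GF 1 0 1 ys vs y.re (7 / 25) ≤ (-(6079 / 20000)) + (393 / 1000) * y.re + ((-(1 / 2)) * ys.im + 0 * vs.im) :=
    GF_X (X0 := 0) (X1 := (3 / 20)) (by linarith only [hB.h02]) (by linarith only [hB.h12]) (by linarith only [x0]) (by linarith only [x1])
  have h2 : GF 1 0 0 ys vs y.re 0 ≤ (-(193 / 500)) + (407 / 1000) * y.re + (0 * ys.im + 0 * vs.im) :=
    GF_X (X0 := 0) (X1 := (3 / 20)) (by linarith only [hB.q1]) (by linarith only [hB.q2]) (by linarith only [x0]) (by linarith only [x1])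
  rw [← hs] at h0 h1 t0 t1
  have k00 : GF 1 0 1 ys vs y.re 0 ≤ (-(281 / 500)) + (46 / 75) * y.re + ((-(1 / 2)) * ys.im + 0 * vs.im) :=
    GF_X (X0 := 0) (X1 := (3 / 20)) (by linarith only [hB.h00]) (by linarith only [hB.h10]) (by linarith only [x0]) (by linarith only [x1])
  rw [← hs] at k00
  have k01 : GF 1 0 1 ys vs y.re (7 / 50) ≤ (-(447 / 1000)) + (113 / 300) * y.re + ((-(1 / 2)) * ys.im + 0 * vs.im) :=
    GF_X (X0 := 0) (X1 := (3 / 20)) (by linarith only [hB.h01]) (by linarith only [hB.h11]) (by linarith only [x0]) (by linarith only [x1])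
  rw [← hs] at k01
  have k10 : GF 1 0 1 ys vs y.re (7 / 50) ≤ (-(447 / 1000)) + (113 / 300) * y.re + ((-(1 / 2)) * ys.im + 0 * vs.im) :=
    GF_X (X0 := 0) (X1 := (3 / 20)) (by linarith only [hB.h01]) (by linarith only [hB.h11]) (by linarith only [x0]) (by linarith only [x1])
  rw [← hs] at k10
  have k11 : GF 1 0 1 ys vs y.re (7 / 25) ≤ (-(38 / 125)) + (59 / 150) * y.re + ((-(1 / 2)) * ys.im + 0 * vs.im) :=
    GF_X (X0 := 0) (X1 := (3 / 20)) (by linarith only [hB.h02]) (by linarith only [hB.h12]) (by linarith only [x0]) (by linarith only [x1])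
  rw [← hs] at k11
  have hA : v.im = vs.im → 0 ≤ v.re → v.re ≤ 7 / 25 →
      SW 1 y v + GF 1 0 1 ys vs y.re v.re + 0 < 0 * |y.im| := by
    intro v1 v2 v3
    rcases le_total v.re (7 / 50) with v4 | v4
    · exact cellA hU r_c3SHA0 hnu x0 x1 t0 t1 (by linarith only [h0, x1]) (by linarith only [k01,
                                                                                x0]) v1 v2 v4
    · exact cellA hU r_c3SHA1 hnu x0 x1 t0 t1 (by linarith only [k01, x0]) (by linarith only [h1,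
                                                                                 x1]) v1 v4 v3
  have h := cellN (f := 0) (pay := 0) hU r_c3SHN r_c3SHV r_c3SHW r_c3SHR r_c3SHS hnu x0 x1 t0 t1
    (by linarith only [h0]) (by linarith only [h1]) hA (by linarith only [h2]) (by linarith only [t1,
                                                                                     x1]) (by linarith only []) (by linarith only [t0,
                                                                                                                      x1]) (by norm_num) hv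
  linarith only [h]

theorem c3SG {ys vs y v : ℂ} (hU : VU ys vs) (hB : B3s ys vs)
    (hnu : vs.im ≤ (2 / 25)) (x0 : (-(1 / 4)) ≤ y.re) (x1 : y.re ≤ 0)
    (t0 : (1 / 25) ≤ ys.im) (t1 : ys.im ≤ (8 / 125)) (hs : y.im = ys.im)
    (hv : Vq vs v) :
    SW 1 y v + GG 1 0 ys vs y.re v + (1 / 20) < 0 := by
  have h0 : GF 1 0 1 ys vs y.re 0 ≤ (-(10677 / 20000)) + (519 / 1000) * y.re + ((-1) * ys.im + (1 / 2) * vs.im) :=
    GF_X (X0 := (-(1 / 4))) (X1 := 0) (by linarith only [hB.g00]) (by linarith only [hB.g10]) (by linarith only [x0]) (by linarith only [x1])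
  have h1 : GF 1 0 1 ys vs y.re (7 / 25) ≤ (-(597 / 2000)) + (47 / 125) * y.re + ((-1) * ys.im + (1 / 2) * vs.im) :=
    GF_X (X0 := (-(1 / 4))) (X1 := 0) (by linarith only [hB.g01]) (by linarith only [hB.g11]) (by linarith only [x0]) (by linarith only [x1])
  have h2 : GF 1 0 0 ys vs y.re 0 ≤ (-(193 / 500)) + (51 / 125) * y.re + (0 * ys.im + 0 * vs.im) :=
    GF_X (X0 := (-(1 / 4))) (X1 := 0) (by linarith only [hB.q0]) (by linarith only [hB.q1]) (by linarith only [x0]) (by linarith only [x1])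
  rw [← hs] at h0 h1 t0 t1
  have k00 : GF 1 0 1 ys vs y.re 0 ≤ (-(5339 / 10000)) + (1297 / 2500) * y.re + ((-1) * ys.im + (1 / 2) * vs.im) :=
    GF_X (X0 := (-(1 / 4))) (X1 := 0) (by linarith only [hB.g00]) (by linarith only [hB.g10]) (by linarith only [x0]) (by linarith only [x1])
  rw [← hs] at k00
  have k01 : GF 1 0 1 ys vs y.re (7 / 25) ≤ (-(597 / 2000)) + (47 / 125) * y.re + ((-1) * ys.im + (1 / 2) * vs.im) :=
    GF_X (X0 := (-(1 / 4))) (X1 := 0) (by linarith only [hB.g01]) (by linarith only [hB.g11]) (by linarith only [x0]) (by linarith only [x1])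
  rw [← hs] at k01
  have hA : v.im = vs.im → 0 ≤ v.re → v.re ≤ 7 / 25 →
      SW 1 y v + GF 1 0 1 ys vs y.re v.re + (1 / 20) < 0 * |y.im| := by
    intro v1 v2 v3
    exact cellA hU r_c3SGA0 hnu x0 x1 t0 t1 (by linarith only [k00, x1]) (by linarith only [h1]) v1 v2 v3
  have h := cellN (f := 0) (pay := (1 / 20)) hU r_c3SGN r_c3SGV r_c3SGW r_c3SGR r_c3SGS hnu x0 x1 t0 t1
    (by linarith only [h0]) (by linarith only [h1]) hA (by linarith only [h2]) (by linarith only [t1,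
                                                                                     x1]) (by linarith only []) (by linarith only [t0,
                                                                                                                      x1]) (by norm_num) hv
  linarith only [h]

theorem c4tap {ys vs y v : ℂ} (hU : VU ys vs) (hB : B4 ys vs)
    (hnu : vs.im ≤ (57 / 1000)) (x0 : 0 ≤ y.re) (x1 : y.re ≤ (3 / 10))
    (t0 : (3 / 20) ≤ y.im) (t1 : y.im ≤ (3 / 20))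
    (hv : Vq vs v) :
    SW 2 y v + GG 2 1 ys vs y.re v + (1 / 25) < (314159 / 100000) * |y.im| := by
  have h1 : GF 2 1 1 ys vs y.re (7 / 25) ≤ (-(4307 / 10000)) + (209 / 1000) * y.re + (0 * ys.im + 0 * vs.im) :=
    GF_X (X0 := (-(1 / 4))) (X1 := (3 / 10)) (by linarith only [hB.a0]) (by linarith only [hB.a1]) (by linarith only [x0]) (by linarith only [x1])
  have h2 : GF 2 1 0 ys vs y.re 0 ≤ (-(1011 / 2000)) + (111 / 500) * y.re + (0 * ys.im + 0 * vs.im) :=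
    GF_X (X0 := (-(1 / 4))) (X1 := (3 / 10)) (by linarith only [hB.r0]) (by linarith only [hB.r1]) (by linarith only [x0]) (by linarith only [x1])
  have h := cellF (f := 1) (pay := (1 / 25)) (e := 0) hU r_c4tapF r_c4tapV r_c4tapW r_c4tapR r_c4tapS hnu x0 x1 t0 t1
    (by linarith only [h1]) (by linarith only [h2]) (by linarith only [x1]) hv
  linarith only [h]

theorem c4tbp {ys vs y v : ℂ} (hU : VU ys vs) (hB : B4 ys vs)
    (hnu : vs.im ≤ (57 / 1000)) (x0 : (3 / 10) ≤ y.re) (x1 : y.re ≤ (1 / 2))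
    (t0 : (3 / 20) ≤ y.im) (t1 : y.im ≤ (3 / 20))
    (hv : Vq vs v) :
    SW 2 y v + GG 2 1 ys vs y.re v + (1 / 25) < (314159 / 100000) * |y.im| := by
  have h1 : GF 2 1 1 ys vs y.re (7 / 25) ≤ (-(1111 / 2000)) + (5 / 8) * y.re + (0 * ys.im + 0 * vs.im) :=
    GF_X (X0 := (3 / 10)) (X1 := (1 / 2)) (by linarith only [hB.a1]) (by linarith only [hB.a2]) (by linarith only [x0]) (by linarith only [x1])
  have h2 : GF 2 1 0 ys vs y.re 0 ≤ (-(67 / 100)) + (77 / 100) * y.re + (0 * ys.im + 0 * vs.im) :=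
    GF_X (X0 := (3 / 10)) (X1 := (1 / 2)) (by linarith only [hB.r1]) (by linarith only [hB.r2]) (by linarith only [x0]) (by linarith only [x1])
  have h := cellF (f := 1) (pay := (1 / 25)) (e := 0) hU r_c4tbpF r_c4tbpV r_c4tbpW r_c4tbpR r_c4tbpS hnu x0 x1 t0 t1
    (by linarith only [h1]) (by linarith only [h2]) (by linarith only [x1]) hv
  linarith only [h]

theorem c4up {ys vs y v : ℂ} (hU : VU ys vs) (hB : B4 ys vs)
    (hnu : vs.im ≤ (57 / 1000)) (x0 : (-(1 / 4)) ≤ y.re) (x1 : y.re ≤ 0)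
    (t0 : (3 / 20) ≤ y.im) (t1 : y.im ≤ (3 / 20))
    (hv : Vq vs v) :
    SW 2 y v + GG 2 1 ys vs y.re v + (3 / 20) < (314159 / 100000) * |y.im| := by
  have h1 : GF 2 1 1 ys vs y.re (7 / 25) ≤ (-(4307 / 10000)) + (209 / 1000) * y.re + (0 * ys.im + 0 * vs.im) :=
    GF_X (X0 := (-(1 / 4))) (X1 := (3 / 10)) (by linarith only [hB.a0]) (by linarith only [hB.a1]) (by linarith only [x0]) (by linarith only [x1])
  have h2 : GF 2 1 0 ys vs y.re 0 ≤ (-(1011 / 2000)) + (111 / 500) * y.re + (0 * ys.im + 0 * vs.im) :=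
    GF_X (X0 := (-(1 / 4))) (X1 := (3 / 10)) (by linarith only [hB.r0]) (by linarith only [hB.r1]) (by linarith only [x0]) (by linarith only [x1])
  have h := cellF (f := 1) (pay := (3 / 20)) (e := 0) hU r_c4upF r_c4upV r_c4upW r_c4upR r_c4upS hnu x0 x1 t0 t1
    (by linarith only [h1]) (by linarith only [h2]) (by linarith only [x1]) hv
  linarith only [h]

theorem c4Pp {ys vs y v : ℂ} (hU : VU ys vs) (hB : B4 ys vs)
    (hnu : vs.im ≤ (57 / 1000)) (hx : y.re = (-(1 / 4)))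
    (t0 : 0 ≤ y.im) (t1 : y.im ≤ (3 / 20))
    (hv : Vq vs v) :
    SW 2 y v + GG 2 1 ys vs y.re v + (3 / 20) < (314159 / 100000) * |y.im| := by
  have x0 : (-(1 / 4)) ≤ y.re := hx.ge
  have x1 : y.re ≤ (-(1 / 4)) := hx.le
  have h1 : GF 2 1 1 ys vs y.re (7 / 25) ≤ (-(483 / 1000)) + 0 * y.re + (0 * ys.im + 0 * vs.im) := by
    rw [hx]
    linarith only [hB.a0]
  have h2 : GF 2 1 0 ys vs y.re 0 ≤ (-(561 / 1000)) + 0 * y.re + (0 * ys.im + 0 * vs.im) := by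
    rw [hx]
    linarith only [hB.r0]
  have h := cellF (f := 1) (pay := (3 / 20)) (e := 0) hU r_c4PpF r_c4PpV r_c4PpW r_c4PpR r_c4PpS hnu x0 x1 t0 t1
    (by linarith only [h1]) (by linarith only [h2]) (by linarith only []) hv
  linarith only [h]

theorem c4Lp {ys vs y v : ℂ} (hU : VU ys vs) (hB : B4 ys vs)
    (hnu : vs.im ≤ (57 / 1000)) (hx : y.re = (-(1 / 4)))
    (t0 : 0 ≤ ys.im) (t1 : ys.im ≤ (7 / 200)) {σ : ℝ} (z0 : 0 ≤ σ) (z1 : σ ≤ 1) (hs : y.im = σ * ys.im)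
    (hv : Vq vs v) :
    SW 2 y v + GG 2 (1 - σ) ys vs y.re v + (3 / 20) < 0 := by
  have x0 : (-(1 / 4)) ≤ y.re := hx.ge
  have x1 : y.re ≤ (-(1 / 4)) := hx.le
  have h1 : GF 2 (1 - σ) 1 ys vs y.re (7 / 25) ≤ (-(483 / 1000)) - (1 - (1 - σ)) * ((-(483 / 1000)) - (-(483 / 1000))) := by
    rw [hx]
    exact GF_f' (by linarith only [z1]) (by linarith only [z0]) (by linarith only [hB.a0]) (by linarith only [hB.la])
  have h2 : GF 2 (1 - σ) 0 ys vs y.re 0 ≤ (-(561 / 1000)) - (1 - (1 - σ)) * ((-(561 / 1000)) - (-(561 / 1000))) := by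
    rw [hx]
    exact GF_f' (by linarith only [z1]) (by linarith only [z0]) (by linarith only [hB.r0]) (by linarith only [hB.q0])
  have ha : |y.im| ≤ (7 / 200) * σ := by
    rw [hs, abs_mul, abs_of_nonneg z0, mul_comm]
    exact mul_le_mul_of_nonneg_right (abs_le.2 ⟨by linarith only [t0], by linarith only [t1]⟩) z0
  have s0 : 0 ≤ y.im := by
    rw [hs]
    linarith only [mul_nonneg (sub_nonneg.2 t0) (sub_nonneg.2 z0)]
  have s1 : y.im ≤ (7 / 200) := by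
    rw [hs]
    linarith only [t1, mul_nonneg (sub_nonneg.2 t0) (sub_nonneg.2 z1)]
  have h := cellF (f := 1 - σ) (pay := (3 / 20)) (e := -(0 * |y.im|)) hU r_c4LpF r_c4LpV r_c4LpW r_c4LpR r_c4LpS hnu x0 x1 s0 s1
    (by linarith only [h1]) (by linarith only [h2]) (by linarith only []) hv
  linarith only [h]

theorem c4Gp {ys vs y v : ℂ} (hU : VU ys vs) (hB : B4 ys vs)
    (hnu : vs.im ≤ (57 / 1000)) (x0 : (-(1 / 4)) ≤ y.re) (x1 : y.re ≤ 0)
    (t0 : 0 ≤ ys.im) (t1 : ys.im ≤ (7 / 200)) (hs : y.im = ys.im)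
    (hv : Vq vs v) :
    SW 2 y v + GG 2 0 ys vs y.re v + (2 / 25) < 0 := by
  have h1 : GF 2 0 1 ys vs y.re (7 / 25) ≤ (-(439 / 1000)) + (53 / 250) * y.re + (0 * ys.im + 0 * vs.im) :=
    GF_X (X0 := (-(1 / 4))) (X1 := 0) (by linarith only [hB.la]) (by linarith only [hB.lb]) (by linarith only [x0]) (by linarith only [x1])
  have h2 : GF 2 0 0 ys vs y.re 0 ≤ (-(523 / 1000)) + (28 / 125) * y.re + (0 * ys.im + 0 * vs.im) :=
    GF_X (X0 := (-(1 / 4))) (X1 := 0) (by linarith only [hB.q0]) (by linarith only [hB.q1]) (by linarith only [x0]) (by linarith only [x1])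
  have h := cellF (f := 0) (pay := (2 / 25)) (e := 0) hU r_c4GpF r_c4GpV r_c4GpW r_c4GpR r_c4GpS hnu x0 x1
    (by linarith only [hs, t0]) (by linarith only [hs, t1]) (by linarith only [h1]) (by linarith only [h2]) (by linarith only [x1]) hv
  linarith only [h]

theorem c4tam {ys vs y v : ℂ} (hU : VU ys vs) (hB : B4 ys vs)
    (hnu : vs.im ≤ (57 / 1000)) (x0 : 0 ≤ y.re) (x1 : y.re ≤ (3 / 10))
    (t0 : (-(3 / 20)) ≤ y.im) (t1 : y.im ≤ (-(3 / 20)))
    (hv : Vq vs v) :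
    SW 2 y v + GG 2 1 ys vs y.re v + (1 / 25) < (314159 / 100000) * |y.im| := by
  have h1 : GF 2 1 1 ys vs y.re (7 / 25) ≤ (-(4307 / 10000)) + (209 / 1000) * y.re + (0 * ys.im + 0 * vs.im) :=
    GF_X (X0 := (-(1 / 4))) (X1 := (3 / 10)) (by linarith only [hB.a0]) (by linarith only [hB.a1]) (by linarith only [x0]) (by linarith only [x1])
  have h2 : GF 2 1 0 ys vs y.re 0 ≤ (-(1011 / 2000)) + (111 / 500) * y.re + (0 * ys.im + 0 * vs.im) :=
    GF_X (X0 := (-(1 / 4))) (X1 := (3 / 10)) (by linarith only [hB.r0]) (by linarith only [hB.r1]) (by linarith only [x0]) (by linarith only [x1])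
  have h := cellF (f := 1) (pay := (1 / 25)) (e := 0) hU r_c4tamF r_c4tamV r_c4tamW r_c4tamR r_c4tamS hnu x0 x1 t0 t1
    (by linarith only [h1]) (by linarith only [h2]) (by linarith only [x1]) hv
  linarith only [h]

theorem c4tbm {ys vs y v : ℂ} (hU : VU ys vs) (hB : B4 ys vs)
    (hnu : vs.im ≤ (57 / 1000)) (x0 : (3 / 10) ≤ y.re) (x1 : y.re ≤ (1 / 2))
    (t0 : (-(3 / 20)) ≤ y.im) (t1 : y.im ≤ (-(3 / 20)))
    (hv : Vq vs v) :
    SW 2 y v + GG 2 1 ys vs y.re v + (1 / 25) < (314159 / 100000) * |y.im| := by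
  have h1 : GF 2 1 1 ys vs y.re (7 / 25) ≤ (-(1111 / 2000)) + (5 / 8) * y.re + (0 * ys.im + 0 * vs.im) :=
    GF_X (X0 := (3 / 10)) (X1 := (1 / 2)) (by linarith only [hB.a1]) (by linarith only [hB.a2]) (by linarith only [x0]) (by linarith only [x1])
  have h2 : GF 2 1 0 ys vs y.re 0 ≤ (-(67 / 100)) + (77 / 100) * y.re + (0 * ys.im + 0 * vs.im) :=
    GF_X (X0 := (3 / 10)) (X1 := (1 / 2)) (by linarith only [hB.r1]) (by linarith only [hB.r2]) (by linarith only [x0]) (by linarith only [x1])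
  have h := cellF (f := 1) (pay := (1 / 25)) (e := 0) hU r_c4tbmF r_c4tbmV r_c4tbmW r_c4tbmR r_c4tbmS hnu x0 x1 t0 t1
    (by linarith only [h1]) (by linarith only [h2]) (by linarith only [x1]) hv
  linarith only [h]

theorem c4um {ys vs y v : ℂ} (hU : VU ys vs) (hB : B4 ys vs)
    (hnu : vs.im ≤ (57 / 1000)) (x0 : (-(1 / 4)) ≤ y.re) (x1 : y.re ≤ 0)
    (t0 : (-(3 / 20)) ≤ y.im) (t1 : y.im ≤ (-(3 / 20)))
    (hv : Vq vs v) :
    SW 2 y v + GG 2 1 ys vs y.re v + (3 / 20) < (314159 / 100000) * |y.im| := by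
  have h1 : GF 2 1 1 ys vs y.re (7 / 25) ≤ (-(4307 / 10000)) + (209 / 1000) * y.re + (0 * ys.im + 0 * vs.im) :=
    GF_X (X0 := (-(1 / 4))) (X1 := (3 / 10)) (by linarith only [hB.a0]) (by linarith only [hB.a1]) (by linarith only [x0]) (by linarith only [x1])
  have h2 : GF 2 1 0 ys vs y.re 0 ≤ (-(1011 / 2000)) + (111 / 500) * y.re + (0 * ys.im + 0 * vs.im) :=
    GF_X (X0 := (-(1 / 4))) (X1 := (3 / 10)) (by linarith only [hB.r0]) (by linarith only [hB.r1]) (by linarith only [x0]) (by linarith only [x1])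
  have h := cellF (f := 1) (pay := (3 / 20)) (e := 0) hU r_c4umF r_c4umV r_c4umW r_c4umR r_c4umS hnu x0 x1 t0 t1
    (by linarith only [h1]) (by linarith only [h2]) (by linarith only [x1]) hv
  linarith only [h]

theorem c4Pm {ys vs y v : ℂ} (hU : VU ys vs) (hB : B4 ys vs)
    (hnu : vs.im ≤ (57 / 1000)) (hx : y.re = (-(1 / 4)))
    (t0 : (-(3 / 20)) ≤ y.im) (t1 : y.im ≤ 0)
    (hv : Vq vs v) :
    SW 2 y v + GG 2 1 ys vs y.re v + (3 / 20) < (314159 / 100000) * |y.im| := by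
  have x0 : (-(1 / 4)) ≤ y.re := hx.ge
  have x1 : y.re ≤ (-(1 / 4)) := hx.le
  have h1 : GF 2 1 1 ys vs y.re (7 / 25) ≤ (-(483 / 1000)) + 0 * y.re + (0 * ys.im + 0 * vs.im) := by
    rw [hx]
    linarith only [hB.a0]
  have h2 : GF 2 1 0 ys vs y.re 0 ≤ (-(561 / 1000)) + 0 * y.re + (0 * ys.im + 0 * vs.im) := by
    rw [hx]
    linarith only [hB.r0]
  have h := cellF (f := 1) (pay := (3 / 20)) (e := 0) hU r_c4PmF r_c4PmV r_c4PmW r_c4PmR r_c4PmS hnu x0 x1 t0 t1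
    (by linarith only [h1]) (by linarith only [h2]) (by linarith only []) hv
  linarith only [h]

theorem c4Lm {ys vs y v : ℂ} (hU : VU ys vs) (hB : B4 ys vs)
    (hnu : vs.im ≤ (57 / 1000)) (hx : y.re = (-(1 / 4)))
    (t0 : (-(7 / 200)) ≤ ys.im) (t1 : ys.im ≤ 0) {σ : ℝ} (z0 : 0 ≤ σ) (z1 : σ ≤ 1) (hs : y.im = σ * ys.im)
    (hv : Vq vs v) :
    SW 2 y v + GG 2 (1 - σ) ys vs y.re v + (3 / 20) < 0 := by
  have x0 : (-(1 / 4)) ≤ y.re := hx.ge
  have x1 : y.re ≤ (-(1 / 4)) := hx.le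
  have h1 : GF 2 (1 - σ) 1 ys vs y.re (7 / 25) ≤ (-(483 / 1000)) - (1 - (1 - σ)) * ((-(483 / 1000)) - (-(483 / 1000))) := by
    rw [hx]
    exact GF_f' (by linarith only [z1]) (by linarith only [z0]) (by linarith only [hB.a0]) (by linarith only [hB.la])
  have h2 : GF 2 (1 - σ) 0 ys vs y.re 0 ≤ (-(561 / 1000)) - (1 - (1 - σ)) * ((-(561 / 1000)) - (-(561 / 1000))) := by
    rw [hx]
    exact GF_f' (by linarith only [z1]) (by linarith only [z0]) (by linarith only [hB.r0]) (by linarith only [hB.q0])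
  have ha : |y.im| ≤ (7 / 200) * σ := by
    rw [hs, abs_mul, abs_of_nonneg z0, mul_comm]
    exact mul_le_mul_of_nonneg_right (abs_le.2 ⟨by linarith only [t0], by linarith only [t1]⟩) z0
  have s0 : (-(7 / 200)) ≤ y.im := by
    rw [hs]
    linarith only [z1, mul_nonneg (sub_nonneg.2 t0) (sub_nonneg.2 z0)]
  have s1 : y.im ≤ 0 := by
    rw [hs]
    linarith only [mul_nonneg (sub_nonneg.2 t1) (sub_nonneg.2 z0)]
  have h := cellF (f := 1 - σ) (pay := (3 / 20)) (e := -(0 * |y.im|)) hU r_c4LmF r_c4LmV r_c4LmW r_c4LmR r_c4LmS hnu x0 x1 s0 s1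
    (by linarith only [h1]) (by linarith only [h2]) (by linarith only []) hv
  linarith only [h]

theorem c4Gm {ys vs y v : ℂ} (hU : VU ys vs) (hB : B4 ys vs)
    (hnu : vs.im ≤ (57 / 1000)) (x0 : (-(1 / 4)) ≤ y.re) (x1 : y.re ≤ 0)
    (t0 : (-(7 / 200)) ≤ ys.im) (t1 : ys.im ≤ 0) (hs : y.im = ys.im)
    (hv : Vq vs v) :
    SW 2 y v + GG 2 0 ys vs y.re v + (2 / 25) < 0 := by
  have h1 : GF 2 0 1 ys vs y.re (7 / 25) ≤ (-(439 / 1000)) + (53 / 250) * y.re + (0 * ys.im + 0 * vs.im) :=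
    GF_X (X0 := (-(1 / 4))) (X1 := 0) (by linarith only [hB.la]) (by linarith only [hB.lb]) (by linarith only [x0]) (by linarith only [x1])
  have h2 : GF 2 0 0 ys vs y.re 0 ≤ (-(523 / 1000)) + (28 / 125) * y.re + (0 * ys.im + 0 * vs.im) :=
    GF_X (X0 := (-(1 / 4))) (X1 := 0) (by linarith only [hB.q0]) (by linarith only [hB.q1]) (by linarith only [x0]) (by linarith only [x1])
  have h := cellF (f := 0) (pay := (2 / 25)) (e := 0) hU r_c4GmF r_c4GmV r_c4GmW r_c4GmR r_c4GmS hnu x0 x1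
    (by linarith only [hs, t0]) (by linarith only [hs, t1]) (by linarith only [h1]) (by linarith only [h2]) (by linarith only [x1]) hv
  linarith only [h]

theorem c5tap {ys vs y v : ℂ} (hU : VU ys vs) (hB : B5 ys vs)
    (hnu : vs.im ≤ (31 / 500)) (x0 : 0 ≤ y.re) (x1 : y.re ≤ (3 / 10))
    (t0 : (3 / 20) ≤ y.im) (t1 : y.im ≤ (3 / 20))
    (hv : Vq vs v) :
    SW 2 y v + GG 2 1 ys vs y.re v + (3 / 100) < (314159 / 100000) * |y.im| := by
  have h1 : GF 2 1 1 ys vs y.re (7 / 25) ≤ (-(353 / 1250)) + (-(61 / 500)) * y.re + (0 * ys.im + 0 * vs.im) :=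
    GF_X (X0 := (-(1 / 4))) (X1 := (3 / 10)) (by linarith only [hB.a0]) (by linarith only [hB.a1]) (by linarith only [x0]) (by linarith only [x1])
  have h2 : GF 2 1 0 ys vs y.re 0 ≤ (-(3487 / 10000)) + (-(111 / 1000)) * y.re + (0 * ys.im + 0 * vs.im) :=
    GF_X (X0 := (-(1 / 4))) (X1 := (3 / 10)) (by linarith only [hB.r0]) (by linarith only [hB.r1]) (by linarith only [x0]) (by linarith only [x1])
  have h := cellF (f := 1) (pay := (3 / 100)) (e := 0) hU r_c5tapF r_c5tapV r_c5tapW r_c5tapR r_c5tapS hnu x0 x1 t0 t1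
    (by linarith only [h1]) (by linarith only [h2]) (by linarith only [x1]) hv
  linarith only [h]

theorem c5tbp {ys vs y v : ℂ} (hU : VU ys vs) (hB : B5 ys vs)
    (hnu : vs.im ≤ (31 / 500)) (x0 : (3 / 10) ≤ y.re) (x1 : y.re ≤ (1 / 2))
    (t0 : (3 / 20) ≤ y.im) (t1 : y.im ≤ (3 / 20))
    (hv : Vq vs v) :
    SW 2 y v + GG 2 1 ys vs y.re v + (3 / 100) < (314159 / 100000) * |y.im| := by
  have h1 : GF 2 1 1 ys vs y.re (7 / 25) ≤ (-(23 / 50)) + (47 / 100) * y.re + (0 * ys.im + 0 * vs.im) :=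
    GF_X (X0 := (3 / 10)) (X1 := (1 / 2)) (by linarith only [hB.a1]) (by linarith only [hB.a2]) (by linarith only [x0]) (by linarith only [x1])
  have h2 : GF 2 1 0 ys vs y.re 0 ≤ (-(47 / 80)) + (137 / 200) * y.re + (0 * ys.im + 0 * vs.im) :=
    GF_X (X0 := (3 / 10)) (X1 := (1 / 2)) (by linarith only [hB.r1]) (by linarith only [hB.r2]) (by linarith only [x0]) (by linarith only [x1])
  have h := cellF (f := 1) (pay := (3 / 100)) (e := 0) hU r_c5tbpF r_c5tbpV r_c5tbpW r_c5tbpR r_c5tbpS hnu x0 x1 t0 t1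
    (by linarith only [h1]) (by linarith only [h2]) (by linarith only [x1]) hv
  linarith only [h]

theorem c5up {ys vs y v : ℂ} (hU : VU ys vs) (hB : B5 ys vs)
    (hnu : vs.im ≤ (31 / 500)) (x0 : (-(1 / 4)) ≤ y.re) (x1 : y.re ≤ 0)
    (t0 : (3 / 20) ≤ y.im) (t1 : y.im ≤ (3 / 20))
    (hv : Vq vs v) :
    SW 2 y v + GG 2 1 ys vs y.re v + (3 / 100) < (314159 / 100000) * |y.im| := by
  have h1 : GF 2 1 1 ys vs y.re (7 / 25) ≤ (-(353 / 1250)) + (-(61 / 500)) * y.re + (0 * ys.im + 0 * vs.im) :=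
    GF_X (X0 := (-(1 / 4))) (X1 := (3 / 10)) (by linarith only [hB.a0]) (by linarith only [hB.a1]) (by linarith only [x0]) (by linarith only [x1])
  have h2 : GF 2 1 0 ys vs y.re 0 ≤ (-(3487 / 10000)) + (-(111 / 1000)) * y.re + (0 * ys.im + 0 * vs.im) :=
    GF_X (X0 := (-(1 / 4))) (X1 := (3 / 10)) (by linarith only [hB.r0]) (by linarith only [hB.r1]) (by linarith only [x0]) (by linarith only [x1])
  have h := cellF (f := 1) (pay := (3 / 100)) (e := 0) hU r_c5upF r_c5upV r_c5upW r_c5upR r_c5upS hnu x0 x1 t0 t1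
    (by linarith only [h1]) (by linarith only [h2]) (by linarith only [x1]) hv
  linarith only [h]

theorem c5Pp {ys vs y v : ℂ} (hU : VU ys vs) (hB : B5 ys vs)
    (hnu : vs.im ≤ (31 / 500)) (hx : y.re = (-(1 / 4)))
    (t0 : 0 ≤ y.im) (t1 : y.im ≤ (3 / 20))
    (hv : Vq vs v) :
    SW 2 y v + GG 2 1 ys vs y.re v + (3 / 100) < (314159 / 100000) * |y.im| := by
  have x0 : (-(1 / 4)) ≤ y.re := hx.ge
  have x1 : y.re ≤ (-(1 / 4)) := hx.le
  have h1 : GF 2 1 1 ys vs y.re (7 / 25) ≤ (-(63 / 250)) + 0 * y.re + (0 * ys.im + 0 * vs.im) := by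
    rw [hx]
    linarith only [hB.a0]
  have h2 : GF 2 1 0 ys vs y.re 0 ≤ (-(321 / 1000)) + 0 * y.re + (0 * ys.im + 0 * vs.im) := by
    rw [hx]
    linarith only [hB.r0]
  have h := cellF (f := 1) (pay := (3 / 100)) (e := 0) hU r_c5PpF r_c5PpV r_c5PpW r_c5PpR r_c5PpS hnu x0 x1 t0 t1
    (by linarith only [h1]) (by linarith only [h2]) (by linarith only []) hv
  linarith only [h]

theorem c5Lp {ys vs y v : ℂ} (hU : VU ys vs) (hB : B5 ys vs)
    (hnu : vs.im ≤ (31 / 500)) (hx : y.re = (-(1 / 4)))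
    (t0 : 0 ≤ ys.im) (t1 : ys.im ≤ (39 / 500)) {σ : ℝ} (z0 : 0 ≤ σ) (z1 : σ ≤ 1) (hs : y.im = σ * ys.im)
    (hv : Vq vs v) :
    SW 2 y v + GG 2 (1 - σ) ys vs y.re v + (3 / 100) < 0 := by
  have x0 : (-(1 / 4)) ≤ y.re := hx.ge
  have x1 : y.re ≤ (-(1 / 4)) := hx.le
  have h1 : GF 2 (1 - σ) 1 ys vs y.re (7 / 25) ≤ (-(63 / 250)) - (1 - (1 - σ)) * ((-(63 / 250)) - (-(291 / 1000))) := by
    rw [hx]
    exact GF_f' (by linarith only [z1]) (by linarith only [z0]) (by linarith only [hB.a0]) (by linarith only [hB.la])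
  have h2 : GF 2 (1 - σ) 0 ys vs y.re 0 ≤ (-(321 / 1000)) - (1 - (1 - σ)) * ((-(321 / 1000)) - (-(9 / 25))) := by
    rw [hx]
    exact GF_f' (by linarith only [z1]) (by linarith only [z0]) (by linarith only [hB.r0]) (by linarith only [hB.lr])
  have ha : |y.im| ≤ (39 / 500) * σ := by
    rw [hs, abs_mul, abs_of_nonneg z0, mul_comm]
    exact mul_le_mul_of_nonneg_right (abs_le.2 ⟨by linarith only [t0], by linarith only [t1]⟩) z0
  have s0 : 0 ≤ y.im := by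
    rw [hs]
    linarith only [mul_nonneg (sub_nonneg.2 t0) (sub_nonneg.2 z0)]
  have s1 : y.im ≤ (39 / 500) := by
    rw [hs]
    linarith only [t1, mul_nonneg (sub_nonneg.2 t0) (sub_nonneg.2 z1)]
  have h := cellF (f := 1 - σ) (pay := (3 / 100)) (e := -((1 / 2) * |y.im|)) hU r_c5LpF r_c5LpV r_c5LpW r_c5LpR r_c5LpS hnu x0 x1 s0 s1
    (by linarith only [ha, h1]) (by linarith only [ha, h2]) (by linarith only []) hv
  linarith only [h]

theorem c5tam {ys vs y v : ℂ} (hU : VU ys vs) (hB : B5 ys vs)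
    (hnu : vs.im ≤ (31 / 500)) (x0 : 0 ≤ y.re) (x1 : y.re ≤ (3 / 10))
    (t0 : (-(3 / 20)) ≤ y.im) (t1 : y.im ≤ (-(3 / 20)))
    (hv : Vq vs v) :
    SW 2 y v + GG 2 1 ys vs y.re v + (3 / 100) < (314159 / 100000) * |y.im| := by
  have h1 : GF 2 1 1 ys vs y.re (7 / 25) ≤ (-(353 / 1250)) + (-(61 / 500)) * y.re + (0 * ys.im + 0 * vs.im) :=
    GF_X (X0 := (-(1 / 4))) (X1 := (3 / 10)) (by linarith only [hB.a0]) (by linarith only [hB.a1]) (by linarith only [x0]) (by linarith only [x1])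
  have h2 : GF 2 1 0 ys vs y.re 0 ≤ (-(3487 / 10000)) + (-(111 / 1000)) * y.re + (0 * ys.im + 0 * vs.im) :=
    GF_X (X0 := (-(1 / 4))) (X1 := (3 / 10)) (by linarith only [hB.r0]) (by linarith only [hB.r1]) (by linarith only [x0]) (by linarith only [x1])
  have h := cellF (f := 1) (pay := (3 / 100)) (e := 0) hU r_c5tamF r_c5tamV r_c5tamW r_c5tamR r_c5tamS hnu x0 x1 t0 t1
    (by linarith only [h1]) (by linarith only [h2]) (by linarith only [x1]) hv
  linarith only [h]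

theorem c5tbm {ys vs y v : ℂ} (hU : VU ys vs) (hB : B5 ys vs)
    (hnu : vs.im ≤ (31 / 500)) (x0 : (3 / 10) ≤ y.re) (x1 : y.re ≤ (1 / 2))
    (t0 : (-(3 / 20)) ≤ y.im) (t1 : y.im ≤ (-(3 / 20)))
    (hv : Vq vs v) :
    SW 2 y v + GG 2 1 ys vs y.re v + (3 / 100) < (314159 / 100000) * |y.im| := by
  have h1 : GF 2 1 1 ys vs y.re (7 / 25) ≤ (-(23 / 50)) + (47 / 100) * y.re + (0 * ys.im + 0 * vs.im) :=
    GF_X (X0 := (3 / 10)) (X1 := (1 / 2)) (by linarith only [hB.a1]) (by linarith only [hB.a2]) (by linarith only [x0]) (by linarith only [x1])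
  have h2 : GF 2 1 0 ys vs y.re 0 ≤ (-(47 / 80)) + (137 / 200) * y.re + (0 * ys.im + 0 * vs.im) :=
    GF_X (X0 := (3 / 10)) (X1 := (1 / 2)) (by linarith only [hB.r1]) (by linarith only [hB.r2]) (by linarith only [x0]) (by linarith only [x1])
  have h := cellF (f := 1) (pay := (3 / 100)) (e := 0) hU r_c5tbmF r_c5tbmV r_c5tbmW r_c5tbmR r_c5tbmS hnu x0 x1 t0 t1
    (by linarith only [h1]) (by linarith only [h2]) (by linarith only [x1]) hv
  linarith only [h]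

theorem c5um {ys vs y v : ℂ} (hU : VU ys vs) (hB : B5 ys vs)
    (hnu : vs.im ≤ (31 / 500)) (x0 : (-(1 / 4)) ≤ y.re) (x1 : y.re ≤ 0)
    (t0 : (-(3 / 20)) ≤ y.im) (t1 : y.im ≤ (-(3 / 20)))
    (hv : Vq vs v) :
    SW 2 y v + GG 2 1 ys vs y.re v + (3 / 100) < (314159 / 100000) * |y.im| := by
  have h1 : GF 2 1 1 ys vs y.re (7 / 25) ≤ (-(353 / 1250)) + (-(61 / 500)) * y.re + (0 * ys.im + 0 * vs.im) :=
    GF_X (X0 := (-(1 / 4))) (X1 := (3 / 10)) (by linarith only [hB.a0]) (by linarith only [hB.a1]) (by linarith only [x0]) (by linarith only [x1])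
  have h2 : GF 2 1 0 ys vs y.re 0 ≤ (-(3487 / 10000)) + (-(111 / 1000)) * y.re + (0 * ys.im + 0 * vs.im) :=
    GF_X (X0 := (-(1 / 4))) (X1 := (3 / 10)) (by linarith only [hB.r0]) (by linarith only [hB.r1]) (by linarith only [x0]) (by linarith only [x1])
  have h := cellF (f := 1) (pay := (3 / 100)) (e := 0) hU r_c5umF r_c5umV r_c5umW r_c5umR r_c5umS hnu x0 x1 t0 t1
    (by linarith only [h1]) (by linarith only [h2]) (by linarith only [x1]) hv
  linarith only [h]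

theorem c5Pm {ys vs y v : ℂ} (hU : VU ys vs) (hB : B5 ys vs)
    (hnu : vs.im ≤ (31 / 500)) (hx : y.re = (-(1 / 4)))
    (t0 : (-(3 / 20)) ≤ y.im) (t1 : y.im ≤ 0)
    (hv : Vq vs v) :
    SW 2 y v + GG 2 1 ys vs y.re v + (3 / 100) < (314159 / 100000) * |y.im| := by
  have x0 : (-(1 / 4)) ≤ y.re := hx.ge
  have x1 : y.re ≤ (-(1 / 4)) := hx.le
  have h1 : GF 2 1 1 ys vs y.re (7 / 25) ≤ (-(63 / 250)) + 0 * y.re + (0 * ys.im + 0 * vs.im) := by
    rw [hx]
    linarith only [hB.a0]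
  have h2 : GF 2 1 0 ys vs y.re 0 ≤ (-(321 / 1000)) + 0 * y.re + (0 * ys.im + 0 * vs.im) := by
    rw [hx]
    linarith only [hB.r0]
  have h := cellF (f := 1) (pay := (3 / 100)) (e := 0) hU r_c5PmF r_c5PmV r_c5PmW r_c5PmR r_c5PmS hnu x0 x1 t0 t1
    (by linarith only [h1]) (by linarith only [h2]) (by linarith only []) hv
  linarith only [h]

theorem c5Lm {ys vs y v : ℂ} (hU : VU ys vs) (hB : B5 ys vs)
    (hnu : vs.im ≤ (31 / 500)) (hx : y.re = (-(1 / 4)))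
    (t0 : (-(39 / 500)) ≤ ys.im) (t1 : ys.im ≤ 0) {σ : ℝ} (z0 : 0 ≤ σ) (z1 : σ ≤ 1) (hs : y.im = σ * ys.im)
    (hv : Vq vs v) :
    SW 2 y v + GG 2 (1 - σ) ys vs y.re v + (3 / 100) < 0 := by
  have x0 : (-(1 / 4)) ≤ y.re := hx.ge
  have x1 : y.re ≤ (-(1 / 4)) := hx.le
  have h1 : GF 2 (1 - σ) 1 ys vs y.re (7 / 25) ≤ (-(63 / 250)) - (1 - (1 - σ)) * ((-(63 / 250)) - (-(291 / 1000))) := by
    rw [hx]
    exact GF_f' (by linarith only [z1]) (by linarith only [z0]) (by linarith only [hB.a0]) (by linarith only [hB.la])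
  have h2 : GF 2 (1 - σ) 0 ys vs y.re 0 ≤ (-(321 / 1000)) - (1 - (1 - σ)) * ((-(321 / 1000)) - (-(9 / 25))) := by
    rw [hx]
    exact GF_f' (by linarith only [z1]) (by linarith only [z0]) (by linarith only [hB.r0]) (by linarith only [hB.lr])
  have ha : |y.im| ≤ (39 / 500) * σ := by
    rw [hs, abs_mul, abs_of_nonneg z0, mul_comm]
    exact mul_le_mul_of_nonneg_right (abs_le.2 ⟨by linarith only [t0], by linarith only [t1]⟩) z0
  have s0 : (-(39 / 500)) ≤ y.im := by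
    rw [hs]
    linarith only [z1, mul_nonneg (sub_nonneg.2 t0) (sub_nonneg.2 z0)]
  have s1 : y.im ≤ 0 := by
    rw [hs]
    linarith only [mul_nonneg (sub_nonneg.2 t1) (sub_nonneg.2 z0)]
  have h := cellF (f := 1 - σ) (pay := (3 / 100)) (e := -((1 / 2) * |y.im|)) hU r_c5LmF r_c5LmV r_c5LmW r_c5LmR r_c5LmS hnu x0 x1 s0 s1
    (by linarith only [ha, h1]) (by linarith only [ha, h2]) (by linarith only []) hv
  linarith only [h]

end VQ

end Pool.Agent.S5
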