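import Pool.Agent.S5.I.VQc
import Pool.Agent.S5.I.VR

/-!
# The payments of the open nodes: assembly

`Slp d h` is the slot function with the contribution of the edge when the node gives the share `d` and
the amount `h`. The regions `VC2`, ... are those of the slots with a given neighbour.
-/

set_option autoImplicit false

namespace Pool.Agent.S5

open Pool.Agent.H63.VC3 Pool.Agent.S3 Complex Set

/-- The slot function when the node gives the share `d` and the amount `h`. -/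
noncomputable def Slp (d h : ℝ) (pc : Pc) (ys vs y v : ℂ) (w : ℝ) : ℝ :=
  Es ys vs y v + (ly 2 ys vs * (y - pc.eff y)).re - d * Td (1 / 2 - ys) (1 / 2 - y) + h - w / 2

theorem Slp_mono {d h h' : ℝ} {pc : Pc} {ys vs y v : ℂ} {w : ℝ} (hh : h ≤ h')
    (k : Slp d h' pc ys vs y v w < 0) : Slp d h pc ys vs y v w < 0 := by
  unfold Slp at k ⊢
  linarith

/-- A neighbour `2`, end. -/
structure VC2 (ys vs : ℂ) : Prop where
  e0 : -(13 / 100) ≤ ys.im
  e1 : ys.im ≤ -(9 / 100)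
  x1 : vs.re ≤ 195 / 1000
  n1 : vs.im ≤ 6 / 100
  l : lamv ys vs ≤ -(475 / 1000)

/-- A neighbour `3`, end, of the other sign. -/
structure VC3a (ys vs : ℂ) : Prop where
  e0 : -(6 / 100) ≤ ys.im
  e1 : ys.im ≤ -(24 / 1000)
  x1 : vs.re ≤ 195 / 1000
  n1 : vs.im ≤ 7 / 100
  l : lamv ys vs ≤ -(36 / 100)

/-- A neighbour `3`, end, of the same sign. -/
structure VC3s (ys vs : ℂ) : Prop where
  e0 : 4 / 100 ≤ ys.im
  e1 : ys.im ≤ 64 / 1000
  x1 : vs.re ≤ 212 / 1000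
  n1 : vs.im ≤ 8 / 100
  l : lamv ys vs ≤ -(34 / 100)

/-- A neighbour `4`, end (`a ≥ 6`). -/
structure VC4 (ys vs : ℂ) : Prop where
  e0 : -(35 / 1000) ≤ ys.im
  e1 : ys.im ≤ 35 / 1000
  x1 : vs.re ≤ 174 / 1000
  n1 : vs.im ≤ 57 / 1000
  l : lamv ys vs ≤ -(21 / 100)

/-- An inner neighbour `3` (`a ≥ 6`). -/
structure VC5 (ys vs : ℂ) : Prop where
  e0 : -(78 / 1000) ≤ ys.im
  e1 : ys.im ≤ 78 / 1000
  x1 : vs.re ≤ 18 / 100
  n1 : vs.im ≤ 62 / 1000
  l : lamv ys vs ≤ 12 / 100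

namespace VQ

theorem s_neg {η s : ℝ} (hη : η < 0) (h : s * η ≤ 0) : 0 ≤ s := by
  by_contra hs
  have := mul_pos_of_neg_of_neg (not_le.1 hs) hη
  linarith

theorem s_neg' {η s : ℝ} (hη : η < 0) (h : 0 ≤ s * η) : s ≤ 0 := by
  by_contra hs
  have := mul_neg_of_pos_of_neg (not_le.1 hs) hη
  linarith

theorem s_pos {η s : ℝ} (hη : 0 < η) (h : s * η ≤ 0) : s ≤ 0 := by
  by_contra hs
  have := mul_pos (not_le.1 hs) hη
  linarith

theorem s_pos' {η s : ℝ} (hη : 0 < η) (h : 0 ≤ s * η) : 0 ≤ s := by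
  by_contra hs
  have := mul_neg_of_neg_of_pos (not_le.1 hs) hη
  linarith

theorem a_pos {s : ℝ} (h : |s| = 3 / 20) (h0 : 0 ≤ s) : s = 3 / 20 := by
  rwa [abs_of_nonneg h0] at h

theorem a_neg {s : ℝ} (h : |s| = 3 / 20) (h0 : s ≤ 0) : s = -(3 / 20) := by
  rw [abs_of_nonpos h0] at h
  linarith

theorem a_or {s : ℝ} (h : |s| = 3 / 20) : s = 3 / 20 ∨ s = -(3 / 20) := by
  rcases le_total 0 s with h0 | h0
  · exact Or.inl (a_pos h h0)
  · exact Or.inr (a_neg h h0)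

/-- The relative height on a leg. -/
theorem leg {η s : ℝ} (h : s ∈ uIcc 0 η) : ∃ σ : ℝ, 0 ≤ σ ∧ σ ≤ 1 ∧ s = σ * η := by
  rcases lt_trichotomy η 0 with h0 | h0 | h0
  · rw [uIcc_of_ge h0.le] at h
    refine ⟨s / η, div_nonneg_of_nonpos h.2 h0.le, ?_, by rw [div_mul_cancel₀ _ h0.ne]⟩
    rw [div_le_one_of_neg h0]
    exact h.1
  · rw [h0, uIcc_self] at h
    exact ⟨0, le_rfl, zero_le_one, by rw [h, zero_mul]⟩
  · rw [uIcc_of_le h0.le] at h
    refine ⟨s / η, div_nonneg h.1 h0.le, ?_, by rw [div_mul_cancel₀ _ h0.ne']⟩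
    rw [div_le_one h0]
    exact h.2

/-- The rectangle with the natural share. -/
theorem fz2 {ys vs y v : ℂ} {w p : ℝ} {pc : Pc} (hU : VU ys vs) (hpc : pc.box = true)
    (hy : pc.In (3 / 20) ys.im y w)
    (k : SW 2 y v + GG 2 1 ys vs y.re v + p < (314159 / 100000) * |y.im|) :
    Slp 0 p pc ys vs y v w < 0 := by
  obtain ⟨-, h2⟩ := hy.yb hpc
  have h := Ew_froz (w := 2) (ys := ys) (vs := vs) (y := y) (v := v) hU.n0.ne'
  have hpi := mul_le_mul_of_nonneg_right (show (314159 / 100000 : ℝ) ≤ Real.pi by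
    linarith [Real.pi_gt_d6]) (abs_nonneg y.im)
  unfold Slp Pc.eff
  rw [if_pos hpc, h2]
  linarith

/-- The rectangle with the additional share. -/
theorem fz1 {ys vs y v : ℂ} {w p c : ℝ} {pc : Pc} (hU : VU ys vs) (hpc : pc.box = true)
    (hy : pc.In (3 / 20) ys.im y w)
    (hc : -((hh (1 / 2 - ys)).im * y.im) ≤ (314159 / 100000 - c) * |y.im|)
    (k : SW 1 y v + GG 1 1 ys vs y.re v + p < c * |y.im|) :
    Slp 1 p pc ys vs y v w < 0 := by
  obtain ⟨-, h2⟩ := hy.yb hpc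
  have h := Ew_froz (w := 1) (ys := ys) (vs := vs) (y := y) (v := v) hU.n0.ne'
  have hpi := mul_le_mul_of_nonneg_right (show (314159 / 100000 : ℝ) ≤ Real.pi by
    linarith [Real.pi_gt_d6]) (abs_nonneg y.im)
  unfold Slp Pc.eff
  rw [if_pos hpc, h2]
  linarith

/-- Legs and flats with the natural share. -/
theorem lg2 {ys vs y v : ℂ} {w p σ : ℝ} {pc : Pc} (hU : VU ys vs) (hpc : pc.eff y = y)
    (hw : w = 0) (hs : y.im = σ * ys.im) (k : SW 2 y v + GG 2 (1 - σ) ys vs y.re v + p < 0) :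
    Slp 0 p pc ys vs y v w < 0 := by
  have h := Ew_leg (w := 2) (ys := ys) (vs := vs) (y := y) (v := v) hU.n0.ne' hs
  unfold Slp
  rw [hpc, sub_self, mul_zero, zero_re, hw]
  linarith

/-- Legs and flats with the additional share. -/
theorem lg1 {ys vs y v : ℂ} {w p σ : ℝ} {pc : Pc} (hU : VU ys vs) (hpc : pc.eff y = y)
    (hw : w = 0) (hs : y.im = σ * ys.im) (k : SW 1 y v + GG 1 (1 - σ) ys vs y.re v + p < 0) :
    Slp 1 p pc ys vs y v w < 0 := by
  have h := Ew_leg (w := 1) (ys := ys) (vs := vs) (y := y) (v := v) hU.n0.ne' hs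
  unfold Slp
  rw [hpc, sub_self, mul_zero, zero_re, hw]
  linarith

theorem eff_L (y : ℂ) : Pc.L.eff y = y := by
  unfold Pc.eff
  simp [Pc.box]

theorem eff_G (y : ℂ) : Pc.G.eff y = y := by
  unfold Pc.eff
  simp [Pc.box]

theorem eff_H (y : ℂ) : Pc.H.eff y = y := by
  unfold Pc.eff
  simp [Pc.box]

/-- The angle of the edge. -/
theorem th_le {ys vs : ℂ} (hU : VU ys vs) {K : ℝ} (h0 : ys.im ≤ 0) (hK : -(583 / 100 * ys.im) ≤ K) :
    0 ≤ (hh (1 / 2 - ys)).im ∧ (hh (1 / 2 - ys)).im ≤ K := by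
  have t1 := hU.t1
  have t0 := hU.t0
  have e1 : (1 / 2 - ys).re = 1 / 2 - ys.re := by
    rw [sub_re]
    norm_num
  have e2 : (1 / 2 - ys).im = -ys.im := by
    rw [sub_im]
    norm_num
  rw [hh_im_eq, e1, e2]
  refine ⟨tv_nonneg (by linarith) (by linarith) (by linarith), ?_⟩
  have h := tv_le (r := 1 / 2 - ys.re) (b := -ys.im) (K := 583 / 100) (by linarith) (by linarith)
    (by linarith) (pi_cot_le_of (r0 := 158 / 1000) (by norm_num) (by linarith) (by linarith)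
      (by unfold kz; norm_num))
  linarith

theorem th_ge {ys vs : ℂ} (hU : VU ys vs) {K : ℝ} (h0 : 0 ≤ ys.im) (hK : 583 / 100 * ys.im ≤ K) :
    (hh (1 / 2 - ys)).im ≤ 0 ∧ -K ≤ (hh (1 / 2 - ys)).im := by
  have t1 := hU.t1
  have t0 := hU.t0
  have e1 : (1 / 2 - ys).re = 1 / 2 - ys.re := by
    rw [sub_re]
    norm_num
  have e2 : (1 / 2 - ys).im = -ys.im := by
    rw [sub_im]
    norm_num
  rw [hh_im_eq, e1, e2, tv_neg (by linarith) (by linarith)]
  have h1 := tv_nonneg (r := 1 / 2 - ys.re) (b := ys.im) (by linarith) (by linarith) h0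
  have h := tv_le (r := 1 / 2 - ys.re) (b := ys.im) (K := 583 / 100) (by linarith) (by linarith)
    h0 (pi_cot_le_of (r0 := 158 / 1000) (by norm_num) (by linarith) (by linarith)
      (by unfold kz; norm_num))
  constructor <;> linarith

/-- Both angles together: the term is harmless on the other side. -/
theorem th_far {th s c : ℝ} (h : 0 ≤ th * s) (hc : 0 ≤ c) : -(th * s) ≤ c * |s| := by
  have := mul_nonneg hc (abs_nonneg s)
  linarith

end VQ

/-! ### A neighbour `2`, end -/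

theorem VC2.p {ys vs y v : ℂ} {w : ℝ} (hU : VU ys vs) (hC : VC2 ys vs) (hB : B2 ys vs)
    (hy : Pc.p.In (3 / 20) ys.im y w) (hv : Vq vs v) :
    Slp 0 (24 / 100) .p ys vs y v w < 0 := by
  have c0 := hC.e0
  have c1 := hC.e1
  have c2 := hC.n1
  obtain ⟨h1, h2, h3, h4⟩ := id hy
  have hs := VQ.s_neg (by linarith : ys.im < 0) h4
  obtain ⟨g0, g1⟩ := abs_le.1 h3
  have k := VQ.c2p hU hB (by linarith) (by linarith) hs g1 hv
  exact VQ.fz2 hU rfl hy (by linarith)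

theorem VC2.P {ys vs y v : ℂ} {w : ℝ} (hU : VU ys vs) (hC : VC2 ys vs) (hB : B2 ys vs)
    (hy : Pc.P.In (3 / 20) ys.im y w) (hv : Vq vs v) :
    Slp 0 (24 / 100) .P ys vs y v w < 0 := by
  have c0 := hC.e0
  have c1 := hC.e1
  have c2 := hC.n1
  obtain ⟨h1, h2, h3, h4⟩ := id hy
  have hs := VQ.s_neg' (by linarith : ys.im < 0) h4
  obtain ⟨g0, g1⟩ := abs_le.1 h3
  have k := VQ.c2P hU hB (by linarith) (by linarith) (by linarith) hs hv
  exact VQ.fz2 hU rfl hy (by linarith)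

theorem VC2.u {ys vs y v : ℂ} {w : ℝ} (hU : VU ys vs) (hC : VC2 ys vs) (hB : B2 ys vs)
    (hy : Pc.u.In (3 / 20) ys.im y w) (hv : Vq vs v) :
    Slp 0 (24 / 100) .u ys vs y v w < 0 := by
  have c0 := hC.e0
  have c1 := hC.e1
  have c2 := hC.n1
  obtain ⟨h1, h2, h3, h4, h5⟩ := id hy
  have hs := VQ.s_neg (by linarith : ys.im < 0) h3
  have he := VQ.a_pos h2 hs
  have k := VQ.c2u hU hB (by linarith) h4 h5 (by linarith) (by linarith) hv
  exact VQ.fz2 hU rfl hy (by linarith)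

theorem VC2.t {ys vs y v : ℂ} {w : ℝ} (hU : VU ys vs) (hC : VC2 ys vs) (hB : B2 ys vs)
    (hy : Pc.t.In (3 / 20) ys.im y w) (hv : Vq vs v) :
    Slp 0 (13 / 100) .t ys vs y v w < 0 := by
  have c0 := hC.e0
  have c1 := hC.e1
  have c2 := hC.n1
  obtain ⟨h1, h2, h3, h4, h5⟩ := id hy
  have hs := VQ.s_neg (by linarith : ys.im < 0) h3
  have he := VQ.a_pos h2 hs
  rcases le_total y.re (3 / 10) with g | g
  · have k := VQ.c2ta hU hB (by linarith) h4 g (by linarith) (by linarith) hv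
    exact VQ.fz2 hU rfl hy (by linarith)
  · have k := VQ.c2tb hU hB (by linarith) g h5 (by linarith) (by linarith) hv
    exact VQ.fz2 hU rfl hy (by linarith)

theorem VC2.L {ys vs y v : ℂ} {w : ℝ} (hU : VU ys vs) (hC : VC2 ys vs) (hB : B2 ys vs)
    (hy : Pc.L.In (3 / 20) ys.im y w) (hv : Vq vs v) :
    Slp 0 (24 / 100) .L ys vs y v w < 0 := by
  have c0 := hC.e0
  have c1 := hC.e1
  have c2 := hC.n1
  obtain ⟨h1, h2, h3⟩ := id hy
  obtain ⟨σ, z0, z1, hs⟩ := VQ.leg h3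
  have k := VQ.c2L hU hB (by linarith) (by linarith) (by linarith) (by linarith) z0 z1 hs hv
  exact VQ.lg2 hU (VQ.eff_L y) h1 hs (by linarith)

/-! ### A neighbour `3`, end -/

theorem VC3a.p {ys vs y v : ℂ} {w : ℝ} (hU : VU ys vs) (hC : VC3a ys vs) (hB : B3a ys vs)
    (hy : Pc.p.In (3 / 20) ys.im y w) (hv : Vq vs v) :
    Slp 1 (5 / 100) .p ys vs y v w < 0 := by
  have c0 := hC.e0
  have c1 := hC.e1
  have c2 := hC.n1
  obtain ⟨h1, h2, h3, h4⟩ := id hy
  have hs := VQ.s_neg (by linarith : ys.im < 0) h4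
  obtain ⟨g0, g1⟩ := abs_le.1 h3
  obtain ⟨q0, q1⟩ := VQ.th_le hU (K := 35 / 100) (by linarith) (by linarith)
  have hc : -((hh (1 / 2 - ys)).im * y.im) ≤ (314159 / 100000 - 314159 / 100000) * |y.im| :=
    VQ.th_far (mul_nonneg q0 hs) (by norm_num)
  have k := VQ.c3Ap hU hB (by linarith) (by linarith) hs g1 hv
  exact VQ.fz1 hU rfl hy hc (by linarith)

theorem VC3a.P {ys vs y v : ℂ} {w : ℝ} (hU : VU ys vs) (hC : VC3a ys vs) (hB : B3a ys vs)
    (hy : Pc.P.In (3 / 20) ys.im y w) (hv : Vq vs v) :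
    Slp 1 (5 / 100) .P ys vs y v w < 0 := by
  have c0 := hC.e0
  have c1 := hC.e1
  have c2 := hC.n1
  obtain ⟨h1, h2, h3, h4⟩ := id hy
  have hs := VQ.s_neg' (by linarith : ys.im < 0) h4
  obtain ⟨g0, g1⟩ := abs_le.1 h3
  obtain ⟨q0, q1⟩ := VQ.th_le hU (K := 35 / 100) (by linarith) (by linarith)
  have hc : -((hh (1 / 2 - ys)).im * y.im) ≤ (314159 / 100000 - 279159 / 100000) * |y.im| := by
    rw [abs_of_nonpos hs]
    have := mul_le_mul_of_nonneg_right q1 (show 0 ≤ -y.im by linarith)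
    linarith
  have k := VQ.c3AP hU hB (by linarith) (by linarith) (by linarith) hs hv
  exact VQ.fz1 hU rfl hy hc (by linarith)

theorem VC3a.u {ys vs y v : ℂ} {w : ℝ} (hU : VU ys vs) (hC : VC3a ys vs) (hB : B3a ys vs)
    (hy : Pc.u.In (3 / 20) ys.im y w) (hv : Vq vs v) :
    Slp 1 (5 / 100) .u ys vs y v w < 0 := by
  have c0 := hC.e0
  have c1 := hC.e1
  have c2 := hC.n1
  obtain ⟨h1, h2, h3, h4, h5⟩ := id hy
  have hs := VQ.s_neg (by linarith : ys.im < 0) h3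
  have he := VQ.a_pos h2 hs
  obtain ⟨q0, q1⟩ := VQ.th_le hU (K := 35 / 100) (by linarith) (by linarith)
  have hc : -((hh (1 / 2 - ys)).im * y.im) ≤ (314159 / 100000 - 314159 / 100000) * |y.im| :=
    VQ.th_far (mul_nonneg q0 hs) (by norm_num)
  have k := VQ.c3Au hU hB (by linarith) h4 h5 (by linarith) (by linarith) hv
  exact VQ.fz1 hU rfl hy hc (by linarith)

theorem VC3a.U {ys vs y v : ℂ} {w : ℝ} (hU : VU ys vs) (hC : VC3a ys vs) (hB : B3a ys vs)
    (hy : Pc.U.In (3 / 20) ys.im y w) (hv : Vq vs v) :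
    Slp 1 (0) .U ys vs y v w < 0 := by
  have c0 := hC.e0
  have c1 := hC.e1
  have c2 := hC.n1
  obtain ⟨h1, h2, h3, h4, h5⟩ := id hy
  have hs := VQ.s_neg' (by linarith : ys.im < 0) h3
  have he := VQ.a_neg h2 hs
  obtain ⟨q0, q1⟩ := VQ.th_le hU (K := 35 / 100) (by linarith) (by linarith)
  have hc : -((hh (1 / 2 - ys)).im * y.im) ≤ (314159 / 100000 - 279159 / 100000) * |y.im| := by
    rw [abs_of_nonpos hs]
    have := mul_le_mul_of_nonneg_right q1 (show 0 ≤ -y.im by linarith)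
    linarith
  have k := VQ.c3AU hU hB (by linarith) h4 h5 (by linarith) (by linarith) hv
  exact VQ.fz1 hU rfl hy hc (by linarith)

theorem VC3a.t {ys vs y v : ℂ} {w : ℝ} (hU : VU ys vs) (hC : VC3a ys vs) (hB : B3a ys vs)
    (hy : Pc.t.In (3 / 20) ys.im y w) (hv : Vq vs v) :
    Slp 0 (5 / 100) .t ys vs y v w < 0 := by
  have c0 := hC.e0
  have c1 := hC.e1
  have c2 := hC.n1
  obtain ⟨h1, h2, h3, h4, h5⟩ := id hy
  have hs := VQ.s_neg (by linarith : ys.im < 0) h3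
  have he := VQ.a_pos h2 hs
  rcases le_total y.re (3 / 10) with g | g
  · have k := VQ.c3Ata hU hB (by linarith) h4 g (by linarith) (by linarith) hv
    exact VQ.fz2 hU rfl hy (by linarith)
  · have k := VQ.c3Atb hU hB (by linarith) g h5 (by linarith) (by linarith) hv
    exact VQ.fz2 hU rfl hy (by linarith)

theorem VC3a.L {ys vs y v : ℂ} {w : ℝ} (hU : VU ys vs) (hC : VC3a ys vs) (hB : B3a ys vs)
    (hy : Pc.L.In (3 / 20) ys.im y w) (hv : Vq vs v) :
    Slp 1 (5 / 100) .L ys vs y v w < 0 := by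
  have c0 := hC.e0
  have c1 := hC.e1
  have c2 := hC.n1
  obtain ⟨h1, h2, h3⟩ := id hy
  obtain ⟨σ, z0, z1, hs⟩ := VQ.leg h3
  have k := VQ.c3AL hU hB (by linarith) (by linarith) (by linarith) (by linarith) z0 z1 hs hv
  exact VQ.lg1 hU (VQ.eff_L y) h1 hs (by linarith)

theorem VC3a.G {ys vs y v : ℂ} {w : ℝ} (hU : VU ys vs) (hC : VC3a ys vs) (hB : B3a ys vs)
    (hy : Pc.G.In (3 / 20) ys.im y w) (hv : Vq vs v) :
    Slp 1 (5 / 100) .G ys vs y v w < 0 := by
  have c0 := hC.e0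
  have c1 := hC.e1
  have c2 := hC.n1
  obtain ⟨h1, h2, h3, h4⟩ := id hy
  have hs : y.im = 1 * ys.im := by rw [h2, one_mul]
  have k := VQ.c3AG hU hB (by linarith) h3 h4 (by linarith) (by linarith) h2 hv
  exact VQ.lg1 hU (VQ.eff_G y) h1 hs (by rw [sub_self]; linarith)

theorem VC3a.H {ys vs y v : ℂ} {w : ℝ} (hU : VU ys vs) (hC : VC3a ys vs) (hB : B3a ys vs)
    (hy : Pc.H.In (3 / 20) ys.im y w) (hv : Vq vs v) :
    Slp 1 (0) .H ys vs y v w < 0 := by
  have c0 := hC.e0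
  have c1 := hC.e1
  have c2 := hC.n1
  obtain ⟨h1, h2, h3, h4⟩ := id hy
  have hs : y.im = 1 * ys.im := by rw [h2, one_mul]
  have k := VQ.c3AH hU hB (by linarith) h3 h4 (by linarith) (by linarith) h2 hv
  exact VQ.lg1 hU (VQ.eff_H y) h1 hs (by rw [sub_self]; linarith)

/-! ### A neighbour `3`, end -/

theorem VC3s.p {ys vs y v : ℂ} {w : ℝ} (hU : VU ys vs) (hC : VC3s ys vs) (hB : B3s ys vs)
    (hy : Pc.p.In (3 / 20) ys.im y w) (hv : Vq vs v) :
    Slp 1 (5 / 100) .p ys vs y v w < 0 := by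
  have c0 := hC.e0
  have c1 := hC.e1
  have c2 := hC.n1
  obtain ⟨h1, h2, h3, h4⟩ := id hy
  have hs := VQ.s_pos (by linarith : 0 < ys.im) h4
  obtain ⟨g0, g1⟩ := abs_le.1 h3
  obtain ⟨q0, q1⟩ := VQ.th_ge hU (K := 38 / 100) (by linarith) (by linarith)
  have hc : -((hh (1 / 2 - ys)).im * y.im) ≤ (314159 / 100000 - 314159 / 100000) * |y.im| :=
    VQ.th_far (mul_nonneg_of_nonpos_of_nonpos q0 hs) (by norm_num)
  have k := VQ.c3Sp hU hB (by linarith) (by linarith) (by linarith) hs hv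
  exact VQ.fz1 hU rfl hy hc (by linarith)

theorem VC3s.P {ys vs y v : ℂ} {w : ℝ} (hU : VU ys vs) (hC : VC3s ys vs) (hB : B3s ys vs)
    (hy : Pc.P.In (3 / 20) ys.im y w) (hv : Vq vs v) :
    Slp 1 (5 / 100) .P ys vs y v w < 0 := by
  have c0 := hC.e0
  have c1 := hC.e1
  have c2 := hC.n1
  obtain ⟨h1, h2, h3, h4⟩ := id hy
  have hs := VQ.s_pos' (by linarith : 0 < ys.im) h4
  obtain ⟨g0, g1⟩ := abs_le.1 h3
  obtain ⟨q0, q1⟩ := VQ.th_ge hU (K := 38 / 100) (by linarith) (by linarith)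
  have hc : -((hh (1 / 2 - ys)).im * y.im) ≤ (314159 / 100000 - 276159 / 100000) * |y.im| := by
    rw [abs_of_nonneg hs]
    have := mul_le_mul_of_nonneg_right q1 hs
    linarith
  have k := VQ.c3SP hU hB (by linarith) (by linarith) hs g1 hv
  exact VQ.fz1 hU rfl hy hc (by linarith)

theorem VC3s.u {ys vs y v : ℂ} {w : ℝ} (hU : VU ys vs) (hC : VC3s ys vs) (hB : B3s ys vs)
    (hy : Pc.u.In (3 / 20) ys.im y w) (hv : Vq vs v) :
    Slp 1 (5 / 100) .u ys vs y v w < 0 := by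
  have c0 := hC.e0
  have c1 := hC.e1
  have c2 := hC.n1
  obtain ⟨h1, h2, h3, h4, h5⟩ := id hy
  have hs := VQ.s_pos (by linarith : 0 < ys.im) h3
  have he := VQ.a_neg h2 hs
  obtain ⟨q0, q1⟩ := VQ.th_ge hU (K := 38 / 100) (by linarith) (by linarith)
  have hc : -((hh (1 / 2 - ys)).im * y.im) ≤ (314159 / 100000 - 314159 / 100000) * |y.im| :=
    VQ.th_far (mul_nonneg_of_nonpos_of_nonpos q0 hs) (by norm_num)
  have k := VQ.c3Su hU hB (by linarith) h4 h5 (by linarith) (by linarith) hv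
  exact VQ.fz1 hU rfl hy hc (by linarith)

theorem VC3s.U {ys vs y v : ℂ} {w : ℝ} (hU : VU ys vs) (hC : VC3s ys vs) (hB : B3s ys vs)
    (hy : Pc.U.In (3 / 20) ys.im y w) (hv : Vq vs v) :
    Slp 1 (0) .U ys vs y v w < 0 := by
  have c0 := hC.e0
  have c1 := hC.e1
  have c2 := hC.n1
  obtain ⟨h1, h2, h3, h4, h5⟩ := id hy
  have hs := VQ.s_pos' (by linarith : 0 < ys.im) h3
  have he := VQ.a_pos h2 hs
  obtain ⟨q0, q1⟩ := VQ.th_ge hU (K := 38 / 100) (by linarith) (by linarith)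
  have hc : -((hh (1 / 2 - ys)).im * y.im) ≤ (314159 / 100000 - 276159 / 100000) * |y.im| := by
    rw [abs_of_nonneg hs]
    have := mul_le_mul_of_nonneg_right q1 hs
    linarith
  have k := VQ.c3SU hU hB (by linarith) h4 h5 (by linarith) (by linarith) hv
  exact VQ.fz1 hU rfl hy hc (by linarith)

theorem VC3s.t {ys vs y v : ℂ} {w : ℝ} (hU : VU ys vs) (hC : VC3s ys vs) (hB : B3s ys vs)
    (hy : Pc.t.In (3 / 20) ys.im y w) (hv : Vq vs v) :
    Slp 0 (5 / 100) .t ys vs y v w < 0 := by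
  have c0 := hC.e0
  have c1 := hC.e1
  have c2 := hC.n1
  obtain ⟨h1, h2, h3, h4, h5⟩ := id hy
  have hs := VQ.s_pos (by linarith : 0 < ys.im) h3
  have he := VQ.a_neg h2 hs
  rcases le_total y.re (3 / 10) with g | g
  · have k := VQ.c3Sta hU hB (by linarith) h4 g (by linarith) (by linarith) hv
    exact VQ.fz2 hU rfl hy (by linarith)
  · have k := VQ.c3Stb hU hB (by linarith) g h5 (by linarith) (by linarith) hv
    exact VQ.fz2 hU rfl hy (by linarith)

theorem VC3s.L {ys vs y v : ℂ} {w : ℝ} (hU : VU ys vs) (hC : VC3s ys vs) (hB : B3s ys vs)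
    (hy : Pc.L.In (3 / 20) ys.im y w) (hv : Vq vs v) :
    Slp 1 (5 / 100) .L ys vs y v w < 0 := by
  have c0 := hC.e0
  have c1 := hC.e1
  have c2 := hC.n1
  obtain ⟨h1, h2, h3⟩ := id hy
  obtain ⟨σ, z0, z1, hs⟩ := VQ.leg h3
  have k := VQ.c3SL hU hB (by linarith) (by linarith) (by linarith) (by linarith) z0 z1 hs hv
  exact VQ.lg1 hU (VQ.eff_L y) h1 hs (by linarith)

theorem VC3s.G {ys vs y v : ℂ} {w : ℝ} (hU : VU ys vs) (hC : VC3s ys vs) (hB : B3s ys vs)
    (hy : Pc.G.In (3 / 20) ys.im y w) (hv : Vq vs v) :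
    Slp 1 (5 / 100) .G ys vs y v w < 0 := by
  have c0 := hC.e0
  have c1 := hC.e1
  have c2 := hC.n1
  obtain ⟨h1, h2, h3, h4⟩ := id hy
  have hs : y.im = 1 * ys.im := by rw [h2, one_mul]
  have k := VQ.c3SG hU hB (by linarith) h3 h4 (by linarith) (by linarith) h2 hv
  exact VQ.lg1 hU (VQ.eff_G y) h1 hs (by rw [sub_self]; linarith)

theorem VC3s.H {ys vs y v : ℂ} {w : ℝ} (hU : VU ys vs) (hC : VC3s ys vs) (hB : B3s ys vs)
    (hy : Pc.H.In (3 / 20) ys.im y w) (hv : Vq vs v) :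
    Slp 1 (0) .H ys vs y v w < 0 := by
  have c0 := hC.e0
  have c1 := hC.e1
  have c2 := hC.n1
  obtain ⟨h1, h2, h3, h4⟩ := id hy
  have hs : y.im = 1 * ys.im := by rw [h2, one_mul]
  have k := VQ.c3SH hU hB (by linarith) h3 h4 (by linarith) (by linarith) h2 hv
  exact VQ.lg1 hU (VQ.eff_H y) h1 hs (by rw [sub_self]; linarith)

/-! ### A neighbour `4`, end -/

theorem VC4.p {ys vs y v : ℂ} {w : ℝ} (hU : VU ys vs) (hC : VC4 ys vs) (hB : B4 ys vs)
    (hy : Pc.p.In (3 / 20) ys.im y w) (hv : Vq vs v) :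
    Slp 0 (15 / 100) .p ys vs y v w < 0 := by
  have c0 := hC.e0
  have c1 := hC.e1
  have c2 := hC.n1
  obtain ⟨h1, h2, h3, h4⟩ := id hy
  obtain ⟨g0, g1⟩ := abs_le.1 h3
  rcases le_total 0 y.im with g | g
  · exact VQ.fz2 hU rfl hy (by
      have k := VQ.c4Pp hU hB (by linarith) (by linarith) g (by linarith) hv
      linarith)
  · exact VQ.fz2 hU rfl hy (by
      have k := VQ.c4Pm hU hB (by linarith) (by linarith) (by linarith) g hv
      linarith)

theorem VC4.P {ys vs y v : ℂ} {w : ℝ} (hU : VU ys vs) (hC : VC4 ys vs) (hB : B4 ys vs)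
    (hy : Pc.P.In (3 / 20) ys.im y w) (hv : Vq vs v) :
    Slp 0 (15 / 100) .P ys vs y v w < 0 := by
  have c0 := hC.e0
  have c1 := hC.e1
  have c2 := hC.n1
  obtain ⟨h1, h2, h3, h4⟩ := id hy
  obtain ⟨g0, g1⟩ := abs_le.1 h3
  rcases le_total 0 y.im with g | g
  · exact VQ.fz2 hU rfl hy (by
      have k := VQ.c4Pp hU hB (by linarith) (by linarith) g (by linarith) hv
      linarith)
  · exact VQ.fz2 hU rfl hy (by
      have k := VQ.c4Pm hU hB (by linarith) (by linarith) (by linarith) g hv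
      linarith)

theorem VC4.u {ys vs y v : ℂ} {w : ℝ} (hU : VU ys vs) (hC : VC4 ys vs) (hB : B4 ys vs)
    (hy : Pc.u.In (3 / 20) ys.im y w) (hv : Vq vs v) :
    Slp 0 (15 / 100) .u ys vs y v w < 0 := by
  have c0 := hC.e0
  have c1 := hC.e1
  have c2 := hC.n1
  obtain ⟨h1, h2, h3, h4, h5⟩ := id hy
  rcases VQ.a_or h2 with he | he
  · exact VQ.fz2 hU rfl hy (by
      have k := VQ.c4up hU hB (by linarith) h4 h5 (by linarith) (by linarith) hv
      linarith)
  · exact VQ.fz2 hU rfl hy (by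
      have k := VQ.c4um hU hB (by linarith) h4 h5 (by linarith) (by linarith) hv
      linarith)

theorem VC4.t {ys vs y v : ℂ} {w : ℝ} (hU : VU ys vs) (hC : VC4 ys vs) (hB : B4 ys vs)
    (hy : Pc.t.In (3 / 20) ys.im y w) (hv : Vq vs v) :
    Slp 0 (4 / 100) .t ys vs y v w < 0 := by
  have c0 := hC.e0
  have c1 := hC.e1
  have c2 := hC.n1
  obtain ⟨h1, h2, h3, h4, h5⟩ := id hy
  rcases VQ.a_or h2 with he | he <;> rcases le_total y.re (3 / 10) with g | g
  · exact VQ.fz2 hU rfl hy (by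
      have k := VQ.c4tap hU hB (by linarith) h4 g (by linarith) (by linarith) hv
      linarith)
  · exact VQ.fz2 hU rfl hy (by
      have k := VQ.c4tbp hU hB (by linarith) g h5 (by linarith) (by linarith) hv
      linarith)
  · exact VQ.fz2 hU rfl hy (by
      have k := VQ.c4tam hU hB (by linarith) h4 g (by linarith) (by linarith) hv
      linarith)
  · exact VQ.fz2 hU rfl hy (by
      have k := VQ.c4tbm hU hB (by linarith) g h5 (by linarith) (by linarith) hv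
      linarith)

theorem VC4.L {ys vs y v : ℂ} {w : ℝ} (hU : VU ys vs) (hC : VC4 ys vs) (hB : B4 ys vs)
    (hy : Pc.L.In (3 / 20) ys.im y w) (hv : Vq vs v) :
    Slp 0 (15 / 100) .L ys vs y v w < 0 := by
  have c0 := hC.e0
  have c1 := hC.e1
  have c2 := hC.n1
  obtain ⟨h1, h2, h3⟩ := id hy
  obtain ⟨σ, z0, z1, hs⟩ := VQ.leg h3
  rcases le_total 0 ys.im with g | g
  · exact VQ.lg2 hU (VQ.eff_L y) h1 hs (by
      have k := VQ.c4Lp hU hB (by linarith) (by linarith) (by linarith) (by linarith) z0 z1 hs hv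
      linarith)
  · exact VQ.lg2 hU (VQ.eff_L y) h1 hs (by
      have k := VQ.c4Lm hU hB (by linarith) (by linarith) (by linarith) (by linarith) z0 z1 hs hv
      linarith)

theorem VC4.G {ys vs y v : ℂ} {w : ℝ} (hU : VU ys vs) (hC : VC4 ys vs) (hB : B4 ys vs)
    (hy : Pc.G.In (3 / 20) ys.im y w) (hv : Vq vs v) :
    Slp 0 (8 / 100) .G ys vs y v w < 0 := by
  have c0 := hC.e0
  have c1 := hC.e1
  have c2 := hC.n1
  obtain ⟨h1, h2, h3, h4⟩ := id hy
  have hs : y.im = 1 * ys.im := by rw [h2, one_mul]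
  rcases le_total 0 ys.im with g | g
  · have k := VQ.c4Gp hU hB (by linarith) h3 h4 (by linarith) (by linarith) h2 hv
    exact VQ.lg2 hU (VQ.eff_G y) h1 hs (by rw [sub_self]; linarith)
  · have k := VQ.c4Gm hU hB (by linarith) h3 h4 (by linarith) (by linarith) h2 hv
    exact VQ.lg2 hU (VQ.eff_G y) h1 hs (by rw [sub_self]; linarith)

/-! ### An inner neighbour `3` -/

theorem VC5.p {ys vs y v : ℂ} {w : ℝ} (hU : VU ys vs) (hC : VC5 ys vs) (hB : B5 ys vs)
    (hy : Pc.p.In (3 / 20) ys.im y w) (hv : Vq vs v) :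
    Slp 0 (3 / 100) .p ys vs y v w < 0 := by
  have c0 := hC.e0
  have c1 := hC.e1
  have c2 := hC.n1
  obtain ⟨h1, h2, h3, h4⟩ := id hy
  obtain ⟨g0, g1⟩ := abs_le.1 h3
  rcases le_total 0 y.im with g | g
  · exact VQ.fz2 hU rfl hy (by
      have k := VQ.c5Pp hU hB (by linarith) (by linarith) g (by linarith) hv
      linarith)
  · exact VQ.fz2 hU rfl hy (by
      have k := VQ.c5Pm hU hB (by linarith) (by linarith) (by linarith) g hv
      linarith)

theorem VC5.P {ys vs y v : ℂ} {w : ℝ} (hU : VU ys vs) (hC : VC5 ys vs) (hB : B5 ys vs)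
    (hy : Pc.P.In (3 / 20) ys.im y w) (hv : Vq vs v) :
    Slp 0 (3 / 100) .P ys vs y v w < 0 := by
  have c0 := hC.e0
  have c1 := hC.e1
  have c2 := hC.n1
  obtain ⟨h1, h2, h3, h4⟩ := id hy
  obtain ⟨g0, g1⟩ := abs_le.1 h3
  rcases le_total 0 y.im with g | g
  · exact VQ.fz2 hU rfl hy (by
      have k := VQ.c5Pp hU hB (by linarith) (by linarith) g (by linarith) hv
      linarith)
  · exact VQ.fz2 hU rfl hy (by
      have k := VQ.c5Pm hU hB (by linarith) (by linarith) (by linarith) g hv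
      linarith)

theorem VC5.u {ys vs y v : ℂ} {w : ℝ} (hU : VU ys vs) (hC : VC5 ys vs) (hB : B5 ys vs)
    (hy : Pc.u.In (3 / 20) ys.im y w) (hv : Vq vs v) :
    Slp 0 (3 / 100) .u ys vs y v w < 0 := by
  have c0 := hC.e0
  have c1 := hC.e1
  have c2 := hC.n1
  obtain ⟨h1, h2, h3, h4, h5⟩ := id hy
  rcases VQ.a_or h2 with he | he
  · exact VQ.fz2 hU rfl hy (by
      have k := VQ.c5up hU hB (by linarith) h4 h5 (by linarith) (by linarith) hv
      linarith)
  · exact VQ.fz2 hU rfl hy (by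
      have k := VQ.c5um hU hB (by linarith) h4 h5 (by linarith) (by linarith) hv
      linarith)

theorem VC5.t {ys vs y v : ℂ} {w : ℝ} (hU : VU ys vs) (hC : VC5 ys vs) (hB : B5 ys vs)
    (hy : Pc.t.In (3 / 20) ys.im y w) (hv : Vq vs v) :
    Slp 0 (3 / 100) .t ys vs y v w < 0 := by
  have c0 := hC.e0
  have c1 := hC.e1
  have c2 := hC.n1
  obtain ⟨h1, h2, h3, h4, h5⟩ := id hy
  rcases VQ.a_or h2 with he | he <;> rcases le_total y.re (3 / 10) with g | g
  · exact VQ.fz2 hU rfl hy (by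
      have k := VQ.c5tap hU hB (by linarith) h4 g (by linarith) (by linarith) hv
      linarith)
  · exact VQ.fz2 hU rfl hy (by
      have k := VQ.c5tbp hU hB (by linarith) g h5 (by linarith) (by linarith) hv
      linarith)
  · exact VQ.fz2 hU rfl hy (by
      have k := VQ.c5tam hU hB (by linarith) h4 g (by linarith) (by linarith) hv
      linarith)
  · exact VQ.fz2 hU rfl hy (by
      have k := VQ.c5tbm hU hB (by linarith) g h5 (by linarith) (by linarith) hv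
      linarith)

theorem VC5.L {ys vs y v : ℂ} {w : ℝ} (hU : VU ys vs) (hC : VC5 ys vs) (hB : B5 ys vs)
    (hy : Pc.L.In (3 / 20) ys.im y w) (hv : Vq vs v) :
    Slp 0 (3 / 100) .L ys vs y v w < 0 := by
  have c0 := hC.e0
  have c1 := hC.e1
  have c2 := hC.n1
  obtain ⟨h1, h2, h3⟩ := id hy
  obtain ⟨σ, z0, z1, hs⟩ := VQ.leg h3
  rcases le_total 0 ys.im with g | g
  · exact VQ.lg2 hU (VQ.eff_L y) h1 hs (by
      have k := VQ.c5Lp hU hB (by linarith) (by linarith) (by linarith) (by linarith) z0 z1 hs hv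
      linarith)
  · exact VQ.lg2 hU (VQ.eff_L y) h1 hs (by
      have k := VQ.c5Lm hU hB (by linarith) (by linarith) (by linarith) (by linarith) z0 z1 hs hv
      linarith)

end Pool.Agent.S5
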