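import Pool.Agent.S5.I.VQd
import Pool.Agent.S5.I.VQk1
import Pool.Agent.S5.I.VQk2
import Pool.Agent.S5.I.PaE

/-!
# The payments of the open nodes: the bounds of the functional
-/

set_option autoImplicit false

namespace Pool.Agent.S5

open Pool.Agent.H63.VC3 Pool.Agent.S3 Complex

namespace VQ

theorem gfb {w f g b : ℕ} {ys vs : ℂ} {x s z P X u : ℝ} (hb : (b : ℝ) = 1 - g)
    (h : Pa.FF w f g b x s z ys vs ≤ P) (hs : s = 0) (hX : x = X) (hu : z = u) :
    GF w f g ys vs X u ≤ P := by
  refine le_trans (le_of_eq ?_) h
  rw [← hX, ← hu, hs]
  unfold GF SW Pa.FF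
  rw [hb]
  ring

end VQ

theorem B2.of {ys vs : ℂ} (hU : VU ys vs) (hC : VC2 ys vs) : B2 ys vs := by
  have u0 := hU.x0
  have u1 := hU.n0
  have u2 := hU.t0
  have u3 := hU.t1
  have c0 := hC.e0
  have c1 := hC.e1
  have c2 := hC.x1
  have c3 := hC.n1
  have c4 := hC.l
  have hx : ((0 : ℕ) : ℝ) ≤ 2000 * vs.re ∧ 2000 * vs.re ≤ ((390 : ℕ) : ℝ) := by
    constructor <;> push_cast <;> linarith
  have hn : ((0 : ℕ) : ℝ) ≤ 2000 * vs.im ∧ 2000 * vs.im ≤ ((120 : ℕ) : ℝ) := by
    constructor <;> push_cast <;> linarith
  have ht : ((490 : ℕ) : ℝ) ≤ 2000 * ys.re ∧ 2000 * ys.re ≤ ((684 : ℕ) : ℝ) := by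
    constructor <;> push_cast <;> linarith
  have he : ((140 : ℕ) : ℝ) ≤ 2000 * ys.im + 400 ∧ 2000 * ys.im + 400 ≤ ((220 : ℕ) : ℝ) := by
    constructor <;> push_cast <;> linarith
  have hL : lamv ys vs ≤ (((0 : ℕ) : ℝ) - ((498073 : ℕ) : ℝ)) / 1048576 := by
    push_cast
    linarith
  exact
    { a0 := by
        have h := VQ.gfb (by norm_num) (Pa.run_ok (by norm_num) (by norm_num) (by norm_num) (by norm_num)
          Pa.C2_a0 hU hx hn ht he hL) (by norm_num) (X := (-(1 / 4))) (by norm_num) (u := (7 / 25)) (by norm_num)
        push_cast at h
        refine h.trans ?_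
        linarith
      a1 := by
        have h := VQ.gfb (by norm_num) (Pa.run_ok (by norm_num) (by norm_num) (by norm_num) (by norm_num)
          Pa.C2_a1 hU hx hn ht he hL) (by norm_num) (X := (3 / 10)) (by norm_num) (u := (7 / 25)) (by norm_num)
        push_cast at h
        refine h.trans ?_
        linarith
      a2 := by
        have h := VQ.gfb (by norm_num) (Pa.run_ok (by norm_num) (by norm_num) (by norm_num) (by norm_num)
          Pa.C2_a2 hU hx hn ht he hL) (by norm_num) (X := (1 / 2)) (by norm_num) (u := (7 / 25)) (by norm_num)
        push_cast at h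
        refine h.trans ?_
        linarith
      r0 := by
        have h := VQ.gfb (by norm_num) (Pa.run_ok (by norm_num) (by norm_num) (by norm_num) (by norm_num)
          Pa.C2_r0 hU hx hn ht he hL) (by norm_num) (X := (-(1 / 4))) (by norm_num) (u := 0) (by norm_num)
        push_cast at h
        refine h.trans ?_
        linarith
      r1 := by
        have h := VQ.gfb (by norm_num) (Pa.run_ok (by norm_num) (by norm_num) (by norm_num) (by norm_num)
          Pa.C2_r1 hU hx hn ht he hL) (by norm_num) (X := (3 / 10)) (by norm_num) (u := 0) (by norm_num)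
        push_cast at h
        refine h.trans ?_
        linarith
      r2 := by
        have h := VQ.gfb (by norm_num) (Pa.run_ok (by norm_num) (by norm_num) (by norm_num) (by norm_num)
          Pa.C2_r2 hU hx hn ht he hL) (by norm_num) (X := (1 / 2)) (by norm_num) (u := 0) (by norm_num)
        push_cast at h
        refine h.trans ?_
        linarith
      z0 := by
        have h := VQ.gfb (by norm_num) (Pa.run_ok (by norm_num) (by norm_num) (by norm_num) (by norm_num)
          Pa.C2_z0 hU hx hn ht he hL) (by norm_num) (X := (-(1 / 4))) (by norm_num) (u := 0) (by norm_num)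
        push_cast at h
        refine h.trans ?_
        linarith
      z1 := by
        have h := VQ.gfb (by norm_num) (Pa.run_ok (by norm_num) (by norm_num) (by norm_num) (by norm_num)
          Pa.C2_z1 hU hx hn ht he hL) (by norm_num) (X := (3 / 10)) (by norm_num) (u := 0) (by norm_num)
        push_cast at h
        refine h.trans ?_
        linarith
      z2 := by
        have h := VQ.gfb (by norm_num) (Pa.run_ok (by norm_num) (by norm_num) (by norm_num) (by norm_num)
          Pa.C2_z2 hU hx hn ht he hL) (by norm_num) (X := (1 / 2)) (by norm_num) (u := 0) (by norm_num)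
        push_cast at h
        refine h.trans ?_
        linarith
      la := by
        have h := VQ.gfb (by norm_num) (Pa.run_ok (by norm_num) (by norm_num) (by norm_num) (by norm_num)
          Pa.C2_la hU hx hn ht he hL) (by norm_num) (X := (-(1 / 4))) (by norm_num) (u := (7 / 25)) (by norm_num)
        push_cast at h
        refine h.trans ?_
        linarith
      lr := by
        have h := VQ.gfb (by norm_num) (Pa.run_ok (by norm_num) (by norm_num) (by norm_num) (by norm_num)
          Pa.C2_lr hU hx hn ht he hL) (by norm_num) (X := (-(1 / 4))) (by norm_num) (u := 0) (by norm_num)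
        push_cast at h
        refine h.trans ?_
        linarith }

theorem B3a.of {ys vs : ℂ} (hU : VU ys vs) (hC : VC3a ys vs) : B3a ys vs := by
  have u0 := hU.x0
  have u1 := hU.n0
  have u2 := hU.t0
  have u3 := hU.t1
  have c0 := hC.e0
  have c1 := hC.e1
  have c2 := hC.x1
  have c3 := hC.n1
  have c4 := hC.l
  have hx : ((0 : ℕ) : ℝ) ≤ 2000 * vs.re ∧ 2000 * vs.re ≤ ((390 : ℕ) : ℝ) := by
    constructor <;> push_cast <;> linarith
  have hn : ((0 : ℕ) : ℝ) ≤ 2000 * vs.im ∧ 2000 * vs.im ≤ ((140 : ℕ) : ℝ) := by
    constructor <;> push_cast <;> linarith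
  have ht : ((490 : ℕ) : ℝ) ≤ 2000 * ys.re ∧ 2000 * ys.re ≤ ((684 : ℕ) : ℝ) := by
    constructor <;> push_cast <;> linarith
  have he : ((280 : ℕ) : ℝ) ≤ 2000 * ys.im + 400 ∧ 2000 * ys.im + 400 ≤ ((352 : ℕ) : ℝ) := by
    constructor <;> push_cast <;> linarith
  have hL : lamv ys vs ≤ (((0 : ℕ) : ℝ) - ((377487 : ℕ) : ℝ)) / 1048576 := by
    push_cast
    linarith
  exact
    { a0 := by
        have h := VQ.gfb (by norm_num) (Pa.run_ok (by norm_num) (by norm_num) (by norm_num) (by norm_num)
          Pa.C3A_a0 hU hx hn ht he hL) (by norm_num) (X := 0) (by norm_num) (u := (7 / 25)) (by norm_num)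
        push_cast at h
        refine h.trans ?_
        linarith
      a1 := by
        have h := VQ.gfb (by norm_num) (Pa.run_ok (by norm_num) (by norm_num) (by norm_num) (by norm_num)
          Pa.C3A_a1 hU hx hn ht he hL) (by norm_num) (X := (3 / 10)) (by norm_num) (u := (7 / 25)) (by norm_num)
        push_cast at h
        refine h.trans ?_
        linarith
      a2 := by
        have h := VQ.gfb (by norm_num) (Pa.run_ok (by norm_num) (by norm_num) (by norm_num) (by norm_num)
          Pa.C3A_a2 hU hx hn ht he hL) (by norm_num) (X := (1 / 2)) (by norm_num) (u := (7 / 25)) (by norm_num)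
        push_cast at h
        refine h.trans ?_
        linarith
      r0 := by
        have h := VQ.gfb (by norm_num) (Pa.run_ok (by norm_num) (by norm_num) (by norm_num) (by norm_num)
          Pa.C3A_r0 hU hx hn ht he hL) (by norm_num) (X := 0) (by norm_num) (u := 0) (by norm_num)
        push_cast at h
        refine h.trans ?_
        linarith
      r1 := by
        have h := VQ.gfb (by norm_num) (Pa.run_ok (by norm_num) (by norm_num) (by norm_num) (by norm_num)
          Pa.C3A_r1 hU hx hn ht he hL) (by norm_num) (X := (3 / 10)) (by norm_num) (u := 0) (by norm_num)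
        push_cast at h
        refine h.trans ?_
        linarith
      r2 := by
        have h := VQ.gfb (by norm_num) (Pa.run_ok (by norm_num) (by norm_num) (by norm_num) (by norm_num)
          Pa.C3A_r2 hU hx hn ht he hL) (by norm_num) (X := (1 / 2)) (by norm_num) (u := 0) (by norm_num)
        push_cast at h
        refine h.trans ?_
        linarith
      b0 := by
        have h := VQ.gfb (by norm_num) (Pa.run_ok (by norm_num) (by norm_num) (by norm_num) (by norm_num)
          Pa.C3A_b0 hU hx hn ht he hL) (by norm_num) (X := (-(1 / 4))) (by norm_num) (u := (7 / 25)) (by norm_num)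
        push_cast at h
        refine h.trans ?_
        linarith
      b1 := by
        have h := VQ.gfb (by norm_num) (Pa.run_ok (by norm_num) (by norm_num) (by norm_num) (by norm_num)
          Pa.C3A_b1 hU hx hn ht he hL) (by norm_num) (X := 0) (by norm_num) (u := (7 / 25)) (by norm_num)
        push_cast at h
        refine h.trans ?_
        linarith
      s0 := by
        have h := VQ.gfb (by norm_num) (Pa.run_ok (by norm_num) (by norm_num) (by norm_num) (by norm_num)
          Pa.C3A_s0 hU hx hn ht he hL) (by norm_num) (X := (-(1 / 4))) (by norm_num) (u := 0) (by norm_num)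
        push_cast at h
        refine h.trans ?_
        linarith
      s1 := by
        have h := VQ.gfb (by norm_num) (Pa.run_ok (by norm_num) (by norm_num) (by norm_num) (by norm_num)
          Pa.C3A_s1 hU hx hn ht he hL) (by norm_num) (X := 0) (by norm_num) (u := 0) (by norm_num)
        push_cast at h
        refine h.trans ?_
        linarith
      la := by
        have h := VQ.gfb (by norm_num) (Pa.run_ok (by norm_num) (by norm_num) (by norm_num) (by norm_num)
          Pa.C3A_la hU hx hn ht he hL) (by norm_num) (X := (-(1 / 4))) (by norm_num) (u := (7 / 25)) (by norm_num)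
        push_cast at h
        refine h.trans ?_
        linarith
      h00 := by
        have h := VQ.gfb (by norm_num) (Pa.run_ok (by norm_num) (by norm_num) (by norm_num) (by norm_num)
          Pa.C3A_h00 hU hx hn ht he hL) (by norm_num) (X := 0) (by norm_num) (u := 0) (by norm_num)
        push_cast at h
        refine h.trans ?_
        linarith
      h01 := by
        have h := VQ.gfb (by norm_num) (Pa.run_ok (by norm_num) (by norm_num) (by norm_num) (by norm_num)
          Pa.C3A_h01 hU hx hn ht he hL) (by norm_num) (X := 0) (by norm_num) (u := (7 / 50)) (by norm_num)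
        push_cast at h
        refine h.trans ?_
        linarith
      h02 := by
        have h := VQ.gfb (by norm_num) (Pa.run_ok (by norm_num) (by norm_num) (by norm_num) (by norm_num)
          Pa.C3A_h02 hU hx hn ht he hL) (by norm_num) (X := 0) (by norm_num) (u := (7 / 25)) (by norm_num)
        push_cast at h
        refine h.trans ?_
        linarith
      h10 := by
        have h := VQ.gfb (by norm_num) (Pa.run_ok (by norm_num) (by norm_num) (by norm_num) (by norm_num)
          Pa.C3A_h10 hU hx hn ht he hL) (by norm_num) (X := (3 / 20)) (by norm_num) (u := 0) (by norm_num)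
        push_cast at h
        refine h.trans ?_
        linarith
      h11 := by
        have h := VQ.gfb (by norm_num) (Pa.run_ok (by norm_num) (by norm_num) (by norm_num) (by norm_num)
          Pa.C3A_h11 hU hx hn ht he hL) (by norm_num) (X := (3 / 20)) (by norm_num) (u := (7 / 50)) (by norm_num)
        push_cast at h
        refine h.trans ?_
        linarith
      h12 := by
        have h := VQ.gfb (by norm_num) (Pa.run_ok (by norm_num) (by norm_num) (by norm_num) (by norm_num)
          Pa.C3A_h12 hU hx hn ht he hL) (by norm_num) (X := (3 / 20)) (by norm_num) (u := (7 / 25)) (by norm_num)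
        push_cast at h
        refine h.trans ?_
        linarith
      g00 := by
        have h := VQ.gfb (by norm_num) (Pa.run_ok (by norm_num) (by norm_num) (by norm_num) (by norm_num)
          Pa.C3A_g00 hU hx hn ht he hL) (by norm_num) (X := (-(1 / 4))) (by norm_num) (u := 0) (by norm_num)
        push_cast at h
        refine h.trans ?_
        linarith
      g01 := by
        have h := VQ.gfb (by norm_num) (Pa.run_ok (by norm_num) (by norm_num) (by norm_num) (by norm_num)
          Pa.C3A_g01 hU hx hn ht he hL) (by norm_num) (X := (-(1 / 4))) (by norm_num) (u := (7 / 25)) (by norm_num)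
        push_cast at h
        refine h.trans ?_
        linarith
      g10 := by
        have h := VQ.gfb (by norm_num) (Pa.run_ok (by norm_num) (by norm_num) (by norm_num) (by norm_num)
          Pa.C3A_g10 hU hx hn ht he hL) (by norm_num) (X := 0) (by norm_num) (u := 0) (by norm_num)
        push_cast at h
        refine h.trans ?_
        linarith
      g11 := by
        have h := VQ.gfb (by norm_num) (Pa.run_ok (by norm_num) (by norm_num) (by norm_num) (by norm_num)
          Pa.C3A_g11 hU hx hn ht he hL) (by norm_num) (X := 0) (by norm_num) (u := (7 / 25)) (by norm_num)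
        push_cast at h
        refine h.trans ?_
        linarith
      q0 := by
        have h := VQ.gfb (by norm_num) (Pa.run_ok (by norm_num) (by norm_num) (by norm_num) (by norm_num)
          Pa.C3A_q0 hU hx hn ht he hL) (by norm_num) (X := (-(1 / 4))) (by norm_num) (u := 0) (by norm_num)
        push_cast at h
        refine h.trans ?_
        linarith
      q1 := by
        have h := VQ.gfb (by norm_num) (Pa.run_ok (by norm_num) (by norm_num) (by norm_num) (by norm_num)
          Pa.C3A_q1 hU hx hn ht he hL) (by norm_num) (X := 0) (by norm_num) (u := 0) (by norm_num)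
        push_cast at h
        refine h.trans ?_
        linarith
      q2 := by
        have h := VQ.gfb (by norm_num) (Pa.run_ok (by norm_num) (by norm_num) (by norm_num) (by norm_num)
          Pa.C3A_q2 hU hx hn ht he hL) (by norm_num) (X := (3 / 20)) (by norm_num) (u := 0) (by norm_num)
        push_cast at h
        refine h.trans ?_
        linarith }

theorem B3s.of {ys vs : ℂ} (hU : VU ys vs) (hC : VC3s ys vs) : B3s ys vs := by
  have u0 := hU.x0
  have u1 := hU.n0
  have u2 := hU.t0
  have u3 := hU.t1
  have c0 := hC.e0
  have c1 := hC.e1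
  have c2 := hC.x1
  have c3 := hC.n1
  have c4 := hC.l
  have hx : ((0 : ℕ) : ℝ) ≤ 2000 * vs.re ∧ 2000 * vs.re ≤ ((424 : ℕ) : ℝ) := by
    constructor <;> push_cast <;> linarith
  have hn : ((0 : ℕ) : ℝ) ≤ 2000 * vs.im ∧ 2000 * vs.im ≤ ((160 : ℕ) : ℝ) := by
    constructor <;> push_cast <;> linarith
  have ht : ((490 : ℕ) : ℝ) ≤ 2000 * ys.re ∧ 2000 * ys.re ≤ ((684 : ℕ) : ℝ) := by
    constructor <;> push_cast <;> linarith
  have he : ((480 : ℕ) : ℝ) ≤ 2000 * ys.im + 400 ∧ 2000 * ys.im + 400 ≤ ((528 : ℕ) : ℝ) := by
    constructor <;> push_cast <;> linarith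
  have hL : lamv ys vs ≤ (((0 : ℕ) : ℝ) - ((356515 : ℕ) : ℝ)) / 1048576 := by
    push_cast
    linarith
  exact
    { a0 := by
        have h := VQ.gfb (by norm_num) (Pa.run_ok (by norm_num) (by norm_num) (by norm_num) (by norm_num)
          Pa.C3S_a0 hU hx hn ht he hL) (by norm_num) (X := 0) (by norm_num) (u := (7 / 25)) (by norm_num)
        push_cast at h
        refine h.trans ?_
        linarith
      a1 := by
        have h := VQ.gfb (by norm_num) (Pa.run_ok (by norm_num) (by norm_num) (by norm_num) (by norm_num)
          Pa.C3S_a1 hU hx hn ht he hL) (by norm_num) (X := (3 / 10)) (by norm_num) (u := (7 / 25)) (by norm_num)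
        push_cast at h
        refine h.trans ?_
        linarith
      a2 := by
        have h := VQ.gfb (by norm_num) (Pa.run_ok (by norm_num) (by norm_num) (by norm_num) (by norm_num)
          Pa.C3S_a2 hU hx hn ht he hL) (by norm_num) (X := (1 / 2)) (by norm_num) (u := (7 / 25)) (by norm_num)
        push_cast at h
        refine h.trans ?_
        linarith
      r0 := by
        have h := VQ.gfb (by norm_num) (Pa.run_ok (by norm_num) (by norm_num) (by norm_num) (by norm_num)
          Pa.C3S_r0 hU hx hn ht he hL) (by norm_num) (X := 0) (by norm_num) (u := 0) (by norm_num)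
        push_cast at h
        refine h.trans ?_
        linarith
      r1 := by
        have h := VQ.gfb (by norm_num) (Pa.run_ok (by norm_num) (by norm_num) (by norm_num) (by norm_num)
          Pa.C3S_r1 hU hx hn ht he hL) (by norm_num) (X := (3 / 10)) (by norm_num) (u := 0) (by norm_num)
        push_cast at h
        refine h.trans ?_
        linarith
      r2 := by
        have h := VQ.gfb (by norm_num) (Pa.run_ok (by norm_num) (by norm_num) (by norm_num) (by norm_num)
          Pa.C3S_r2 hU hx hn ht he hL) (by norm_num) (X := (1 / 2)) (by norm_num) (u := 0) (by norm_num)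
        push_cast at h
        refine h.trans ?_
        linarith
      b0 := by
        have h := VQ.gfb (by norm_num) (Pa.run_ok (by norm_num) (by norm_num) (by norm_num) (by norm_num)
          Pa.C3S_b0 hU hx hn ht he hL) (by norm_num) (X := (-(1 / 4))) (by norm_num) (u := (7 / 25)) (by norm_num)
        push_cast at h
        refine h.trans ?_
        linarith
      b1 := by
        have h := VQ.gfb (by norm_num) (Pa.run_ok (by norm_num) (by norm_num) (by norm_num) (by norm_num)
          Pa.C3S_b1 hU hx hn ht he hL) (by norm_num) (X := 0) (by norm_num) (u := (7 / 25)) (by norm_num)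
        push_cast at h
        refine h.trans ?_
        linarith
      s0 := by
        have h := VQ.gfb (by norm_num) (Pa.run_ok (by norm_num) (by norm_num) (by norm_num) (by norm_num)
          Pa.C3S_s0 hU hx hn ht he hL) (by norm_num) (X := (-(1 / 4))) (by norm_num) (u := 0) (by norm_num)
        push_cast at h
        refine h.trans ?_
        linarith
      s1 := by
        have h := VQ.gfb (by norm_num) (Pa.run_ok (by norm_num) (by norm_num) (by norm_num) (by norm_num)
          Pa.C3S_s1 hU hx hn ht he hL) (by norm_num) (X := 0) (by norm_num) (u := 0) (by norm_num)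
        push_cast at h
        refine h.trans ?_
        linarith
      la := by
        have h := VQ.gfb (by norm_num) (Pa.run_ok (by norm_num) (by norm_num) (by norm_num) (by norm_num)
          Pa.C3S_la hU hx hn ht he hL) (by norm_num) (X := (-(1 / 4))) (by norm_num) (u := (7 / 25)) (by norm_num)
        push_cast at h
        refine h.trans ?_
        linarith
      h00 := by
        have h := VQ.gfb (by norm_num) (Pa.run_ok (by norm_num) (by norm_num) (by norm_num) (by norm_num)
          Pa.C3S_h00 hU hx hn ht he hL) (by norm_num) (X := 0) (by norm_num) (u := 0) (by norm_num)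
        push_cast at h
        refine h.trans ?_
        linarith
      h01 := by
        have h := VQ.gfb (by norm_num) (Pa.run_ok (by norm_num) (by norm_num) (by norm_num) (by norm_num)
          Pa.C3S_h01 hU hx hn ht he hL) (by norm_num) (X := 0) (by norm_num) (u := (7 / 50)) (by norm_num)
        push_cast at h
        refine h.trans ?_
        linarith
      h02 := by
        have h := VQ.gfb (by norm_num) (Pa.run_ok (by norm_num) (by norm_num) (by norm_num) (by norm_num)
          Pa.C3S_h02 hU hx hn ht he hL) (by norm_num) (X := 0) (by norm_num) (u := (7 / 25)) (by norm_num)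
        push_cast at h
        refine h.trans ?_
        linarith
      h10 := by
        have h := VQ.gfb (by norm_num) (Pa.run_ok (by norm_num) (by norm_num) (by norm_num) (by norm_num)
          Pa.C3S_h10 hU hx hn ht he hL) (by norm_num) (X := (3 / 20)) (by norm_num) (u := 0) (by norm_num)
        push_cast at h
        refine h.trans ?_
        linarith
      h11 := by
        have h := VQ.gfb (by norm_num) (Pa.run_ok (by norm_num) (by norm_num) (by norm_num) (by norm_num)
          Pa.C3S_h11 hU hx hn ht he hL) (by norm_num) (X := (3 / 20)) (by norm_num) (u := (7 / 50)) (by norm_num)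
        push_cast at h
        refine h.trans ?_
        linarith
      h12 := by
        have h := VQ.gfb (by norm_num) (Pa.run_ok (by norm_num) (by norm_num) (by norm_num) (by norm_num)
          Pa.C3S_h12 hU hx hn ht he hL) (by norm_num) (X := (3 / 20)) (by norm_num) (u := (7 / 25)) (by norm_num)
        push_cast at h
        refine h.trans ?_
        linarith
      g00 := by
        have h := VQ.gfb (by norm_num) (Pa.run_ok (by norm_num) (by norm_num) (by norm_num) (by norm_num)
          Pa.C3S_g00 hU hx hn ht he hL) (by norm_num) (X := (-(1 / 4))) (by norm_num) (u := 0) (by norm_num)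
        push_cast at h
        refine h.trans ?_
        linarith
      g01 := by
        have h := VQ.gfb (by norm_num) (Pa.run_ok (by norm_num) (by norm_num) (by norm_num) (by norm_num)
          Pa.C3S_g01 hU hx hn ht he hL) (by norm_num) (X := (-(1 / 4))) (by norm_num) (u := (7 / 25)) (by norm_num)
        push_cast at h
        refine h.trans ?_
        linarith
      g10 := by
        have h := VQ.gfb (by norm_num) (Pa.run_ok (by norm_num) (by norm_num) (by norm_num) (by norm_num)
          Pa.C3S_g10 hU hx hn ht he hL) (by norm_num) (X := 0) (by norm_num) (u := 0) (by norm_num)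
        push_cast at h
        refine h.trans ?_
        linarith
      g11 := by
        have h := VQ.gfb (by norm_num) (Pa.run_ok (by norm_num) (by norm_num) (by norm_num) (by norm_num)
          Pa.C3S_g11 hU hx hn ht he hL) (by norm_num) (X := 0) (by norm_num) (u := (7 / 25)) (by norm_num)
        push_cast at h
        refine h.trans ?_
        linarith
      q0 := by
        have h := VQ.gfb (by norm_num) (Pa.run_ok (by norm_num) (by norm_num) (by norm_num) (by norm_num)
          Pa.C3S_q0 hU hx hn ht he hL) (by norm_num) (X := (-(1 / 4))) (by norm_num) (u := 0) (by norm_num)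
        push_cast at h
        refine h.trans ?_
        linarith
      q1 := by
        have h := VQ.gfb (by norm_num) (Pa.run_ok (by norm_num) (by norm_num) (by norm_num) (by norm_num)
          Pa.C3S_q1 hU hx hn ht he hL) (by norm_num) (X := 0) (by norm_num) (u := 0) (by norm_num)
        push_cast at h
        refine h.trans ?_
        linarith
      q2 := by
        have h := VQ.gfb (by norm_num) (Pa.run_ok (by norm_num) (by norm_num) (by norm_num) (by norm_num)
          Pa.C3S_q2 hU hx hn ht he hL) (by norm_num) (X := (3 / 20)) (by norm_num) (u := 0) (by norm_num)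
        push_cast at h
        refine h.trans ?_
        linarith }

theorem B4.of {ys vs : ℂ} (hU : VU ys vs) (hC : VC4 ys vs) : B4 ys vs := by
  have u0 := hU.x0
  have u1 := hU.n0
  have u2 := hU.t0
  have u3 := hU.t1
  have c0 := hC.e0
  have c1 := hC.e1
  have c2 := hC.x1
  have c3 := hC.n1
  have c4 := hC.l
  have hx : ((0 : ℕ) : ℝ) ≤ 2000 * vs.re ∧ 2000 * vs.re ≤ ((348 : ℕ) : ℝ) := by
    constructor <;> push_cast <;> linarith
  have hn : ((0 : ℕ) : ℝ) ≤ 2000 * vs.im ∧ 2000 * vs.im ≤ ((114 : ℕ) : ℝ) := by
    constructor <;> push_cast <;> linarith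
  have ht : ((490 : ℕ) : ℝ) ≤ 2000 * ys.re ∧ 2000 * ys.re ≤ ((684 : ℕ) : ℝ) := by
    constructor <;> push_cast <;> linarith
  have he : ((330 : ℕ) : ℝ) ≤ 2000 * ys.im + 400 ∧ 2000 * ys.im + 400 ≤ ((470 : ℕ) : ℝ) := by
    constructor <;> push_cast <;> linarith
  have hL : lamv ys vs ≤ (((0 : ℕ) : ℝ) - ((220200 : ℕ) : ℝ)) / 1048576 := by
    push_cast
    linarith
  exact
    { a0 := by
        have h := VQ.gfb (by norm_num) (Pa.run_ok (by norm_num) (by norm_num) (by norm_num) (by norm_num)
          Pa.C4_a0 hU hx hn ht he hL) (by norm_num) (X := (-(1 / 4))) (by norm_num) (u := (7 / 25)) (by norm_num)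
        push_cast at h
        refine h.trans ?_
        linarith
      a1 := by
        have h := VQ.gfb (by norm_num) (Pa.run_ok (by norm_num) (by norm_num) (by norm_num) (by norm_num)
          Pa.C4_a1 hU hx hn ht he hL) (by norm_num) (X := (3 / 10)) (by norm_num) (u := (7 / 25)) (by norm_num)
        push_cast at h
        refine h.trans ?_
        linarith
      a2 := by
        have h := VQ.gfb (by norm_num) (Pa.run_ok (by norm_num) (by norm_num) (by norm_num) (by norm_num)
          Pa.C4_a2 hU hx hn ht he hL) (by norm_num) (X := (1 / 2)) (by norm_num) (u := (7 / 25)) (by norm_num)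
        push_cast at h
        refine h.trans ?_
        linarith
      r0 := by
        have h := VQ.gfb (by norm_num) (Pa.run_ok (by norm_num) (by norm_num) (by norm_num) (by norm_num)
          Pa.C4_r0 hU hx hn ht he hL) (by norm_num) (X := (-(1 / 4))) (by norm_num) (u := 0) (by norm_num)
        push_cast at h
        refine h.trans ?_
        linarith
      r1 := by
        have h := VQ.gfb (by norm_num) (Pa.run_ok (by norm_num) (by norm_num) (by norm_num) (by norm_num)
          Pa.C4_r1 hU hx hn ht he hL) (by norm_num) (X := (3 / 10)) (by norm_num) (u := 0) (by norm_num)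
        push_cast at h
        refine h.trans ?_
        linarith
      r2 := by
        have h := VQ.gfb (by norm_num) (Pa.run_ok (by norm_num) (by norm_num) (by norm_num) (by norm_num)
          Pa.C4_r2 hU hx hn ht he hL) (by norm_num) (X := (1 / 2)) (by norm_num) (u := 0) (by norm_num)
        push_cast at h
        refine h.trans ?_
        linarith
      la := by
        have h := VQ.gfb (by norm_num) (Pa.run_ok (by norm_num) (by norm_num) (by norm_num) (by norm_num)
          Pa.C4_la hU hx hn ht he hL) (by norm_num) (X := (-(1 / 4))) (by norm_num) (u := (7 / 25)) (by norm_num)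
        push_cast at h
        refine h.trans ?_
        linarith
      lb := by
        have h := VQ.gfb (by norm_num) (Pa.run_ok (by norm_num) (by norm_num) (by norm_num) (by norm_num)
          Pa.C4_lb hU hx hn ht he hL) (by norm_num) (X := 0) (by norm_num) (u := (7 / 25)) (by norm_num)
        push_cast at h
        refine h.trans ?_
        linarith
      q0 := by
        have h := VQ.gfb (by norm_num) (Pa.run_ok (by norm_num) (by norm_num) (by norm_num) (by norm_num)
          Pa.C4_q0 hU hx hn ht he hL) (by norm_num) (X := (-(1 / 4))) (by norm_num) (u := 0) (by norm_num)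
        push_cast at h
        refine h.trans ?_
        linarith
      q1 := by
        have h := VQ.gfb (by norm_num) (Pa.run_ok (by norm_num) (by norm_num) (by norm_num) (by norm_num)
          Pa.C4_q1 hU hx hn ht he hL) (by norm_num) (X := 0) (by norm_num) (u := 0) (by norm_num)
        push_cast at h
        refine h.trans ?_
        linarith }

theorem B5.of {ys vs : ℂ} (hU : VU ys vs) (hC : VC5 ys vs) : B5 ys vs := by
  have u0 := hU.x0
  have u1 := hU.n0
  have u2 := hU.t0
  have u3 := hU.t1
  have c0 := hC.e0
  have c1 := hC.e1
  have c2 := hC.x1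
  have c3 := hC.n1
  have c4 := hC.l
  have hx : ((0 : ℕ) : ℝ) ≤ 2000 * vs.re ∧ 2000 * vs.re ≤ ((360 : ℕ) : ℝ) := by
    constructor <;> push_cast <;> linarith
  have hn : ((0 : ℕ) : ℝ) ≤ 2000 * vs.im ∧ 2000 * vs.im ≤ ((124 : ℕ) : ℝ) := by
    constructor <;> push_cast <;> linarith
  have ht : ((490 : ℕ) : ℝ) ≤ 2000 * ys.re ∧ 2000 * ys.re ≤ ((684 : ℕ) : ℝ) := by
    constructor <;> push_cast <;> linarith
  have he : ((244 : ℕ) : ℝ) ≤ 2000 * ys.im + 400 ∧ 2000 * ys.im + 400 ≤ ((556 : ℕ) : ℝ) := by
    constructor <;> push_cast <;> linarith
  have hL : lamv ys vs ≤ (((125830 : ℕ) : ℝ) - ((0 : ℕ) : ℝ)) / 1048576 := by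
    push_cast
    linarith
  exact
    { a0 := by
        have h := VQ.gfb (by norm_num) (Pa.run_ok (by norm_num) (by norm_num) (by norm_num) (by norm_num)
          Pa.C5_a0 hU hx hn ht he hL) (by norm_num) (X := (-(1 / 4))) (by norm_num) (u := (7 / 25)) (by norm_num)
        push_cast at h
        refine h.trans ?_
        linarith
      a1 := by
        have h := VQ.gfb (by norm_num) (Pa.run_ok (by norm_num) (by norm_num) (by norm_num) (by norm_num)
          Pa.C5_a1 hU hx hn ht he hL) (by norm_num) (X := (3 / 10)) (by norm_num) (u := (7 / 25)) (by norm_num)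
        push_cast at h
        refine h.trans ?_
        linarith
      a2 := by
        have h := VQ.gfb (by norm_num) (Pa.run_ok (by norm_num) (by norm_num) (by norm_num) (by norm_num)
          Pa.C5_a2 hU hx hn ht he hL) (by norm_num) (X := (1 / 2)) (by norm_num) (u := (7 / 25)) (by norm_num)
        push_cast at h
        refine h.trans ?_
        linarith
      r0 := by
        have h := VQ.gfb (by norm_num) (Pa.run_ok (by norm_num) (by norm_num) (by norm_num) (by norm_num)
          Pa.C5_r0 hU hx hn ht he hL) (by norm_num) (X := (-(1 / 4))) (by norm_num) (u := 0) (by norm_num)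
        push_cast at h
        refine h.trans ?_
        linarith
      r1 := by
        have h := VQ.gfb (by norm_num) (Pa.run_ok (by norm_num) (by norm_num) (by norm_num) (by norm_num)
          Pa.C5_r1 hU hx hn ht he hL) (by norm_num) (X := (3 / 10)) (by norm_num) (u := 0) (by norm_num)
        push_cast at h
        refine h.trans ?_
        linarith
      r2 := by
        have h := VQ.gfb (by norm_num) (Pa.run_ok (by norm_num) (by norm_num) (by norm_num) (by norm_num)
          Pa.C5_r2 hU hx hn ht he hL) (by norm_num) (X := (1 / 2)) (by norm_num) (u := 0) (by norm_num)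
        push_cast at h
        refine h.trans ?_
        linarith
      la := by
        have h := VQ.gfb (by norm_num) (Pa.run_ok (by norm_num) (by norm_num) (by norm_num) (by norm_num)
          Pa.C5_la hU hx hn ht he hL) (by norm_num) (X := (-(1 / 4))) (by norm_num) (u := (7 / 25)) (by norm_num)
        push_cast at h
        refine h.trans ?_
        linarith
      lr := by
        have h := VQ.gfb (by norm_num) (Pa.run_ok (by norm_num) (by norm_num) (by norm_num) (by norm_num)
          Pa.C5_lr hU hx hn ht he hL) (by norm_num) (X := (-(1 / 4))) (by norm_num) (u := 0) (by norm_num)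
        push_cast at h
        refine h.trans ?_
        linarith }

end Pool.Agent.S5
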