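import Pool.Agent.S5.I.VRb

/-!
# The right leg of a slot: the defect of the edge
-/

set_option autoImplicit false

namespace Pool.Agent.S5

open Pool.Agent.H63.VC3 Pool.Agent.S3 Complex MeasureTheory Filter Topology Set

private theorem vr_sin' {x : ℝ} (hx : 0 ≤ x) : x - x ^ 3 / 6 ≤ Real.sin x := by
  have hm : MonotoneOn (fun x : ℝ => Real.sin x - (x - x ^ 3 / 6)) (Ici 0) := by
    apply monotoneOn_of_hasDerivWithinAt_nonneg (convex_Ici _)
      (f' := fun x => Real.cos x - (1 - x ^ 2 / 2))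
    · fun_prop
    · intro v _
      have h := (Real.hasDerivAt_sin v).sub ((hasDerivAt_id v).sub ((hasDerivAt_pow 3 v).div_const 6))
      refine (h.congr_deriv ?_).hasDerivWithinAt
      simp only [Nat.add_one_sub_one]
      push_cast
      ring
    · intro v hv
      have := Real.one_sub_sq_div_two_le_cos (x := v)
      linarith
  have := hm (mem_Ici.2 le_rfl) (mem_Ici.2 hx) hx
  simp at this
  linarith

/-- The defect decreases with the height. -/
theorem Dd_zero_height {s e q : ℝ} (h : |s| ≤ |e|) (h0 : 0 < q) (h1 : q ≤ 1 / 2) :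
    Dd e q 0 ≤ Dd s q 0 := by
  rw [Dd_eq', Dd_eq']
  apply intervalIntegral.integral_mono_on_of_le_Ioo h0.le
  · exact (by simp : IntervalIntegrable (fun _ : ℝ => Lg e q) volume 0 q).sub
      (Lg_integrable _ _ _)
  · exact (by simp : IntervalIntegrable (fun _ : ℝ => Lg s q) volume 0 q).sub
      (Lg_integrable _ _ _)
  · intro u hu
    have hC : Real.cosh (2 * Real.pi * s) ≤ Real.cosh (2 * Real.pi * e) := by
      rw [Real.cosh_le_cosh, abs_mul (2 * Real.pi) s, abs_mul (2 * Real.pi) e]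
      exact mul_le_mul_of_nonneg_left h (abs_nonneg _)
    have hc : Real.cos (2 * Real.pi * q) ≤ Real.cos (2 * Real.pi * u) :=
      cos_anti hu.1.le hu.2.le h1
    have p1 : ∀ s, 0 < dn s q := fun s => dn_pos (Or.inr ⟨h0.ne', by
      rw [abs_of_pos h0]; linarith⟩)
    have p2 : ∀ s, 0 < dn s u := fun s => dn_pos (Or.inr ⟨hu.1.ne', by
      rw [abs_of_pos hu.1]; linarith [hu.2]⟩)
    rw [Lg_eq_log, Lg_eq_log, Lg_eq_log, Lg_eq_log]
    have k : Real.log (2 * dn e q) + Real.log (2 * dn s u) ≤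
        Real.log (2 * dn s q) + Real.log (2 * dn e u) := by
      have a1 := p1 s
      have a2 := p1 e
      have a3 := p2 s
      have a4 := p2 e
      rw [← Real.log_mul (by positivity) (by positivity), ← Real.log_mul (by positivity)
        (by positivity)]
      apply Real.log_le_log (by positivity)
      unfold dn
      have := mul_nonneg (sub_nonneg.2 hC) (sub_nonneg.2 hc)
      nlinarith
    linarith

theorem Dd_zero_hasDerivAt {e : ℝ} (he : e ≠ 0) (q : ℝ) :
    HasDerivAt (fun q => Dd e q 0) (q * Lgd e q) q := by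
  unfold Dd
  have d1 := Rf_hasDerivAt (t := q) (η := e) (sin_ne_of_ne he)
  have d2 := Lg_hasDerivAt (s := e) (x := q) (Or.inl he)
  have d3 := (d1.const_sub (Rf (((0 : ℝ) : ℂ) + e * I))).sub
    (d2.mul ((hasDerivAt_id' q).const_sub 0))
  refine d3.congr_deriv ?_
  have e1 : Lg e q = Real.log ‖2 * sin (Real.pi * ((q : ℂ) + e * I))‖ := rfl
  rw [e1]
  ring

theorem Dd_zero_mono {e q q' : ℝ} (he : e ≠ 0) (h0 : 0 ≤ q) (h1 : q ≤ q') (h2 : q' ≤ 1 / 2) :
    Dd e q 0 ≤ Dd e q' 0 := by
  have hm : MonotoneOn (fun q => Dd e q 0) (Icc 0 (1 / 2)) := by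
    apply monotoneOn_of_deriv_nonneg (convex_Icc _ _)
    · exact fun a _ => (Dd_zero_hasDerivAt he a).continuousAt.continuousWithinAt
    · exact fun a _ => (Dd_zero_hasDerivAt he a).differentiableAt.differentiableWithinAt
    · intro a ha
      rw [(Dd_zero_hasDerivAt he a).deriv]
      rw [interior_Icc] at ha
      exact mul_nonneg ha.1.le (Lgd_nonneg ha.1.le ha.2.le)
  exact hm ⟨h0, h1.trans h2⟩ ⟨h0.trans h1, h2⟩ h1

/-- The explicit lower bound. -/
noncomputable def Pq (c q : ℝ) : ℝ := q * (1 + 2 / 3 * c ^ 2) - 2 / 9 * Real.pi ^ 2 * q ^ 3 -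
  (c + 2 / 3 * c ^ 3) / Real.pi * Real.arctan (Real.pi * q / c)

theorem Dd_zero_ge {e c q : ℝ} (he : 0 < e) (hc : Real.sinh (Real.pi * e) ≤ c)
    (h0 : 0 ≤ q) (h1 : q ≤ 1 / 6) : Pq c q ≤ Dd e q 0 := by
  have hpi := Real.pi_pos
  have hsh : 0 < Real.sinh (Real.pi * e) := Real.sinh_pos_iff.2 (by positivity)
  have hc0 : 0 < c := by linarith
  have hm : MonotoneOn (fun q => Dd e q 0 - Pq c q) (Icc 0 (1 / 6)) := by
    have hd : ∀ q : ℝ, HasDerivAt (fun q => Dd e q 0 - Pq c q)
        (q * Lgd e q - (Real.pi * q) ^ 2 * (1 - 2 / 3 * (Real.pi * q) ^ 2) /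
          (c ^ 2 + (Real.pi * q) ^ 2)) q := by
      intro q
      have d1 := Dd_zero_hasDerivAt he.ne' q
      have d2 : HasDerivAt (Pq c) ((Real.pi * q) ^ 2 * (1 - 2 / 3 * (Real.pi * q) ^ 2) /
          (c ^ 2 + (Real.pi * q) ^ 2)) q := by
        have a1 : HasDerivAt (fun q => Real.pi * q / c) (Real.pi / c) q := by
          have := ((hasDerivAt_id' q).const_mul Real.pi).div_const c
          rwa [mul_one] at this
        have a2 := (Real.hasDerivAt_arctan (Real.pi * q / c)).comp q a1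
        have a3 := ((((hasDerivAt_id' q).mul_const (1 + 2 / 3 * c ^ 2)).sub
          ((hasDerivAt_pow 3 q).const_mul (2 / 9 * Real.pi ^ 2))).sub
            (a2.const_mul ((c + 2 / 3 * c ^ 3) / Real.pi)))
        refine a3.congr_deriv ?_
        simp only [Nat.add_one_sub_one]
        push_cast
        have p1 : c ^ 2 + (Real.pi * q) ^ 2 ≠ 0 := by positivity
        have p2 : 1 + (Real.pi * q / c) ^ 2 ≠ 0 := by positivity
        have p3 : 1 + (Real.pi * q / c) ^ 2 = (c ^ 2 + (Real.pi * q) ^ 2) / c ^ 2 := by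
          field_simp
        rw [p3]
        field_simp
        ring
      exact d1.sub d2
    apply monotoneOn_of_deriv_nonneg (convex_Icc _ _)
    · exact fun a _ => (hd a).continuousAt.continuousWithinAt
    · exact fun a _ => (hd a).differentiableAt.differentiableWithinAt
    · intro q hq
      rw [(hd q).deriv]
      rw [interior_Icc] at hq
      have hq0 := hq.1
      have hw : 0 < Real.pi * q := by positivity
      have hs := vr_sin' (x := 2 * (Real.pi * q)) (by positivity)
      have hsw : Real.sin (Real.pi * q) ≤ Real.pi * q := Real.sin_le hw.le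
      have hsw0 : 0 ≤ Real.sin (Real.pi * q) :=
        Real.sin_nonneg_of_nonneg_of_le_pi hw.le (by nlinarith [hq.2])
      have e1 : dn e q = 2 * (Real.sinh (Real.pi * e) ^ 2 + Real.sin (Real.pi * q) ^ 2) := by
        have := norm_two_sin_sq e q
        rw [norm_mul, norm_ofNat, mul_pow, norm_sin_pi_sq] at this
        linarith
      have hd0 : 0 < dn e q := by
        rw [e1]
        positivity
      have hd1 : dn e q ≤ 2 * (c ^ 2 + (Real.pi * q) ^ 2) := by
        rw [e1]
        have := pow_le_pow_left₀ hsh.le hc 2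
        have := pow_le_pow_left₀ hsw0 hsw 2
        linarith
      have hw3 : (Real.pi * q) ^ 2 ≤ 1 := by
        have : Real.pi * q ≤ 1 := by
          have := Real.pi_lt_d2
          nlinarith [hq.2]
        exact pow_le_one₀ hw.le this
      unfold Lgd
      rw [show 2 * Real.pi * q = 2 * (Real.pi * q) by ring, sub_nonneg, ← mul_div_assoc,
        div_le_div_iff₀ (by positivity) hd0]
      have k1 : 0 ≤ 1 - 2 / 3 * (Real.pi * q) ^ 2 := by linarith
      calc (Real.pi * q) ^ 2 * (1 - 2 / 3 * (Real.pi * q) ^ 2) * dn e q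
          ≤ (Real.pi * q) ^ 2 * (1 - 2 / 3 * (Real.pi * q) ^ 2) *
            (2 * (c ^ 2 + (Real.pi * q) ^ 2)) :=
            mul_le_mul_of_nonneg_left hd1 (by positivity)
        _ = (Real.pi * q) * (2 * (Real.pi * q) - (2 * (Real.pi * q)) ^ 3 / 6) *
            (c ^ 2 + (Real.pi * q) ^ 2) := by ring
        _ ≤ (Real.pi * q) * Real.sin (2 * (Real.pi * q)) * (c ^ 2 + (Real.pi * q) ^ 2) := by
            apply mul_le_mul_of_nonneg_right _ (by positivity)
            exact mul_le_mul_of_nonneg_left hs hw.le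
        _ = q * (Real.pi * Real.sin (2 * (Real.pi * q))) * (c ^ 2 + (Real.pi * q) ^ 2) := by ring
  have h2 := hm (left_mem_Icc.2 (by norm_num)) ⟨h0, h1⟩ h0
  have e0 : Pq c 0 = 0 := by
    unfold Pq
    simp
  simp only [Dd_self, e0] at h2
  linarith

private theorem vr_arctan_le' {x : ℝ} (hx : 1 ≤ x) :
    Real.arctan x ≤ Real.pi / 4 + (x - 1) / (x + 1) := by
  have hm : MonotoneOn (fun x : ℝ => (x - 1) / (x + 1) - Real.arctan x) (Ici 1) := by
    apply monotoneOn_of_hasDerivWithinAt_nonneg (convex_Ici _)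
      (f' := fun x => 2 / (x + 1) ^ 2 - 1 / (1 + x ^ 2))
    · intro v hv
      have hv1 : (1 : ℝ) ≤ v := hv
      have hv0 : v + 1 ≠ 0 := by linarith
      apply ContinuousAt.continuousWithinAt
      have : ContinuousAt Real.arctan v := Real.continuous_arctan.continuousAt
      fun_prop (disch := assumption)
    · intro v hv
      rw [interior_Ici] at hv
      have hv1 : (1 : ℝ) < v := hv
      have hv0 : v + 1 ≠ 0 := by linarith
      have h := (((hasDerivAt_id v).sub_const 1).div ((hasDerivAt_id v).add_const 1) hv0).sub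
        (Real.hasDerivAt_arctan v)
      refine (h.congr_deriv ?_).hasDerivWithinAt
      simp only [id]
      congr 1
      field_simp
      ring
    · intro v hv
      rw [interior_Ici] at hv
      have hv1 : (1 : ℝ) < v := hv
      have hv0 : v + 1 ≠ 0 := by linarith
      have e : 2 / (v + 1) ^ 2 - 1 / (1 + v ^ 2) = (v - 1) ^ 2 / ((v + 1) ^ 2 * (1 + v ^ 2)) := by
        field_simp
        ring
      rw [e]
      positivity
  have := hm (mem_Ici.2 le_rfl) (mem_Ici.2 hx) hx
  simp [Real.arctan_one] at this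
  linarith

/-- Numerical form of the lower bound. -/
theorem Pq_ge {c k : ℝ} (hc0 : 0 < c) (hc : c ≤ 496 / 1000)
    (hk : 49638 / 100000 - c ≤ k * (49636 / 100000 + c)) (_hk1 : k < 1) :
    158 / 1000 * (1 + 2 / 3 * c ^ 2) - 2 / 9 * (98697 / 10000) * (158 / 1000) ^ 3 -
      (c + 2 / 3 * c ^ 3) * (1 / 4 + k * (31831 / 100000)) ≤ Pq c (158 / 1000) := by
  have hpi := Real.pi_pos
  have h1 := Real.pi_gt_d6
  have h2 := Real.pi_lt_d6
  have hp2 : Real.pi ^ 2 ≤ 98697 / 10000 :=
    le_trans (pow_le_pow_left₀ hpi.le h2.le 2) (by norm_num)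
  set W := Real.pi * (158 / 1000) with hW
  have hW1 : 49636 / 100000 ≤ W := by rw [hW]; linarith
  have hW2 : W ≤ 49638 / 100000 := by rw [hW]; linarith
  have hx : 1 ≤ W / c := by
    rw [le_div_iff₀ hc0]
    linarith
  have h3 := vr_arctan_le' hx
  have hk0 : 0 ≤ k := by
    by_contra h
    push Not at h
    nlinarith
  have h4 : (W / c - 1) / (W / c + 1) ≤ k := by
    rw [div_le_iff₀ (by linarith)]
    have e : W / c - 1 = (W - c) / c := by field_simp
    have e' : k * (W / c + 1) = k * (W + c) / c := by field_simp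
    rw [e, e']
    apply div_le_div_of_nonneg_right _ hc0.le
    nlinarith
  unfold Pq
  rw [← hW]
  have h5 : (c + 2 / 3 * c ^ 3) / Real.pi * Real.arctan (W / c) ≤
      (c + 2 / 3 * c ^ 3) * (1 / 4 + k * (31831 / 100000)) := by
    have h6 : (c + 2 / 3 * c ^ 3) / Real.pi * Real.arctan (W / c) ≤
        (c + 2 / 3 * c ^ 3) / Real.pi * (Real.pi / 4 + k) :=
      mul_le_mul_of_nonneg_left (by linarith) (by positivity)
    refine h6.trans ?_
    have e : (c + 2 / 3 * c ^ 3) / Real.pi * (Real.pi / 4 + k) =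
        (c + 2 / 3 * c ^ 3) * (1 / 4 + k * (1 / Real.pi)) := by
      field_simp
    rw [e]
    apply mul_le_mul_of_nonneg_left _ (by positivity)
    have h7 : 1 / Real.pi ≤ 31831 / 100000 := by
      rw [div_le_div_iff₀ hpi (by norm_num)]
      linarith
    have := mul_le_mul_of_nonneg_left h7 hk0
    linarith
  have h8 : 2 / 9 * Real.pi ^ 2 * (158 / 1000) ^ 3 ≤ 2 / 9 * (98697 / 10000) * (158 / 1000) ^ 3 := by
    nlinarith
  linarith

/-- Upper bound of `sinh`. -/
private theorem vr_sinh {x : ℝ} (h0 : 0 ≤ x) (h1 : x ≤ 1) :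
    Real.sinh x ≤ x + x ^ 3 / 6 + x ^ 5 / 100 := by
  have h := Real.exp_bound' h0 h1 (n := 5) (by norm_num)
  have h2 := Real.exp_bound' (x := x) h0 h1 (n := 5) (by norm_num)
  have h3 := Real.sum_le_exp_of_nonneg h0 5
  have h4 := (abs_le.1 (Real.exp_bound (x := -x) (by rw [abs_neg, abs_of_nonneg h0]; exact h1)
    (n := 5) (by norm_num))).1
  rw [abs_neg, abs_of_nonneg h0] at h4
  simp [Finset.sum_range_succ, Nat.factorial] at h h4
  rw [Real.sinh_eq]
  nlinarith [pow_nonneg h0 5]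

theorem H_ge {q s e c k B : ℝ} (hq : 158 / 1000 ≤ q) (hq1 : q ≤ 1 / 2) (hs : |s| ≤ e)
    (he : 0 < e) (he1 : e ≤ 3 / 10)
    (hc : 31416 / 10000 * e + (31416 / 10000 * e) ^ 3 / 6 + (31416 / 10000 * e) ^ 5 / 100 ≤ c)
    (hc1 : c ≤ 496 / 1000)
    (hk : 49638 / 100000 - c ≤ k * (49636 / 100000 + c)) (hk1 : k < 1)
    (hB : B ≤ 2 * (158 / 1000 * (1 + 2 / 3 * c ^ 2) - 2 / 9 * (98697 / 10000) * (158 / 1000) ^ 3 -
      (c + 2 / 3 * c ^ 3) * (1 / 4 + k * (31831 / 100000)))) :
    B ≤ 2 * Dd s q 0 := by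
  have hpi := Real.pi_pos
  have h2 := Real.pi_lt_d6
  have hsh : Real.sinh (Real.pi * e) ≤ c := by
    refine le_trans ?_ hc
    have k1 : Real.sinh (Real.pi * e) ≤ Real.sinh (31416 / 10000 * e) := by
      rw [Real.sinh_le_sinh]
      nlinarith
    refine k1.trans (vr_sinh (by positivity) (by linarith))
  have hc0 : 0 < c := lt_of_lt_of_le (Real.sinh_pos_iff.2 (by positivity)) hsh
  have a1 := Dd_zero_height (s := s) (e := e) (q := q) (by rw [abs_of_pos he]; exact hs)
    (by linarith) hq1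
  have a2 := Dd_zero_mono (e := e) (q := 158 / 1000) (q' := q) he.ne' (by norm_num) hq hq1
  have a3 := Dd_zero_ge (q := 158 / 1000) he hsh (by norm_num) (by norm_num)
  have a4 := Pq_ge hc0 hc1 hk hk1
  linarith

theorem H135 {q s : ℝ} (hq : 158 / 1000 ≤ q) (hq1 : q ≤ 1 / 2) (hs : |s| ≤ 135 / 1000) :
    725 / 10000 ≤ 2 * Dd s q 0 :=
  H_ge (c := 437 / 1000) (k := 64 / 1000) hq hq1 hs (by norm_num) (by norm_num) (by norm_num)
    (by norm_num) (by norm_num) (by norm_num) (by norm_num)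

theorem H120 {q s : ℝ} (hq : 158 / 1000 ≤ q) (hq1 : q ≤ 1 / 2) (hs : |s| ≤ 120 / 1000) :
    839 / 10000 ≤ 2 * Dd s q 0 :=
  H_ge (c := 38605 / 100000) (k := 1251 / 10000) hq hq1 hs (by norm_num) (by norm_num)
    (by norm_num) (by norm_num) (by norm_num) (by norm_num) (by norm_num)

theorem H100 {q s : ℝ} (hq : 158 / 1000 ≤ q) (hq1 : q ≤ 1 / 2) (hs : |s| ≤ 100 / 1000) :
    1023 / 10000 ≤ 2 * Dd s q 0 :=
  H_ge (c := 3194 / 10000) (k := 2171 / 10000) hq hq1 hs (by norm_num) (by norm_num)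
    (by norm_num) (by norm_num) (by norm_num) (by norm_num) (by norm_num)

theorem H50 {q s : ℝ} (hq : 158 / 1000 ≤ q) (hq1 : q ≤ 1 / 2) (hs : |s| ≤ 50 / 1000) :
    1700 / 10000 ≤ 2 * Dd s q 0 :=
  H_ge (c := 158 / 1000) (k := 5173 / 10000) hq hq1 hs (by norm_num) (by norm_num)
    (by norm_num) (by norm_num) (by norm_num) (by norm_num) (by norm_num)

end Pool.Agent.S5
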