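import Pool.Agent.S5.I.VPb
import Pool.Agent.S5.I.VR
import Pool.Agent.S5.I.TdL

/-!
# The slots of the open nodes: real edges, left leg, the other slot. The functionals

`Phi` and `Psi` collect the critical point, for `v` on the flat piece and on the real line.
-/

set_option autoImplicit false

namespace Pool.Agent.S5

open Pool.Agent.H63.VC3 Pool.Agent.S3 Complex MeasureTheory Filter Topology Set
open scoped ComplexConjugate

/-- The constant of the separated bound, `v` on its flat piece. -/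
noncomputable def Phi (ys vs : ℂ) (X s u : ℝ) : ℝ :=
  -SS ys vs - lamv ys vs * (X - ys.re) - (ly 2 ys vs).im * (ys.im - s) + Lamv ys vs * (u - vs.re)

/-- The constant of the separated bound, `v` on the real line. -/
noncomputable def Psi (ys vs : ℂ) (X s : ℝ) : ℝ :=
  -SS ys vs - lamv ys vs * (X - ys.re) - (ly 2 ys vs).im * (ys.im - s) - (lv ys vs).im * vs.im

theorem b1v_eq_Phi (ys vs : ℂ) (X : ℝ) : b1v ys vs X = Phi ys vs X 0 (7 / 25) := by
  unfold b1v Phi
  ring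

theorem Es_flatv {ys vs y v : ℂ} (hn : vs.im ≠ 0) (hv : v.im = vs.im) :
    Es ys vs y v = SS y v + Phi ys vs y.re y.im v.re := by
  rw [Es_eq_SS hn, hv, mul_div_cancel_right₀ _ hn]
  unfold Phi
  ring

theorem Es_real {ys vs y v : ℂ} (hn : vs.im ≠ 0) (hv : v.im = 0) :
    Es ys vs y v = SS y v + Psi ys vs y.re y.im := by
  rw [Es_eq_SS hn, hv, mul_zero, zero_div]
  unfold Psi
  ring

/-- `v` on a vertical piece. -/
theorem Es_vert {ys vs y v : ℂ} (h : VU ys vs) (hk : -(lv ys vs).im ≤ 9 / 8)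
    (h0 : 0 ≤ v.im) (h1 : v.im ≤ vs.im) (hu : v.re ≤ 7 / 25) :
    Es ys vs y v ≤ SS y v + Phi ys vs y.re y.im (7 / 25) + 3 / 8 * (vs.im - v.im) := by
  have := frozen_vert h hk h0 h1 hu (y := y)
  rw [ly_frozen] at this
  have e : Phi ys vs y.re y.im (7 / 25) = b1v ys vs y.re + (ly 2 ys vs).im * y.im := by
    unfold Phi b1v
    ring
  rw [e]
  linarith

/-- The slope of the node variable at the right end. -/
theorem Psi_le_mix {ys vs : ℂ} (h : VU ys vs) {θ : ℝ} (hθ : 0 ≤ θ) (X s : ℝ) :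
    Psi ys vs X s ≤ Psi ys vs X s + θ * (Lamv ys vs * (7 / 25 - vs.re)) - θ * (3 / 4 * vs.im) := by
  have := mul_le_mul_of_nonneg_left h.b2 hθ
  linarith

/-- Lower slope of the flat piece. -/
theorem Phi_u {ys vs : ℂ} (h : VU ys vs) {X s u : ℝ} (hu : u ≤ 7 / 25) :
    Phi ys vs X s u ≤ Phi ys vs X s (7 / 25) - 8 * vs.im * (7 / 25 - u) := by
  have h1 := mul_le_mul_of_nonneg_right h.b (show 0 ≤ 7 / 25 - u by linarith)
  unfold Phi
  nlinarith [h1]

theorem Psi_affine (ys vs : ℂ) (X s : ℝ) :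
    Psi ys vs X s = Psi ys vs (1 / 2) s + lamv ys vs * (1 / 2 - X) := by
  unfold Psi
  ring

/-- An affine function on a rectangle. -/
theorem rect_le {p q r X0 X1 u0 u1 X u : ℝ} (h00 : p * X0 + q * u0 + r ≤ 0)
    (h10 : p * X1 + q * u0 + r ≤ 0) (h01 : p * X0 + q * u1 + r ≤ 0)
    (h11 : p * X1 + q * u1 + r ≤ 0) (hX0 : X0 ≤ X) (hX1 : X ≤ X1) (hu0 : u0 ≤ u) (hu1 : u ≤ u1) :
    p * X + q * u + r ≤ 0 := by
  rcases le_total 0 p with hp | hp <;> rcases le_total 0 q with hq | hq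
  · nlinarith [mul_le_mul_of_nonneg_left hX1 hp, mul_le_mul_of_nonneg_left hu1 hq]
  · nlinarith [mul_le_mul_of_nonneg_left hX1 hp, mul_le_mul_of_nonpos_left hu0 hq]
  · nlinarith [mul_le_mul_of_nonpos_left hX0 hp, mul_le_mul_of_nonneg_left hu1 hq]
  · nlinarith [mul_le_mul_of_nonpos_left hX0 hp, mul_le_mul_of_nonpos_left hu0 hq]

/-- An affine function on a segment. -/
theorem seg_le {p r X0 X1 X : ℝ} (h0 : p * X0 + r ≤ 0) (h1 : p * X1 + r ≤ 0) (hX0 : X0 ≤ X)
    (hX1 : X ≤ X1) : p * X + r ≤ 0 := by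
  rcases le_total 0 p with hp | hp
  · nlinarith [mul_le_mul_of_nonneg_left hX1 hp]
  · nlinarith [mul_le_mul_of_nonpos_left hX0 hp]

/-- `Phi` on a rectangle of `X` and `u`. -/
theorem Phi_Xu {ys vs : ℂ} {s X0 X1 u0 u1 X u c0 c1 c3 : ℝ}
    (h00 : Phi ys vs X0 s u0 * 1048576 ≤ c0 + c1 * X0 + c3 * u0)
    (h10 : Phi ys vs X1 s u0 * 1048576 ≤ c0 + c1 * X1 + c3 * u0)
    (h01 : Phi ys vs X0 s u1 * 1048576 ≤ c0 + c1 * X0 + c3 * u1)
    (h11 : Phi ys vs X1 s u1 * 1048576 ≤ c0 + c1 * X1 + c3 * u1)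
    (hX0 : X0 ≤ X) (hX1 : X ≤ X1) (hu0 : u0 ≤ u) (hu1 : u ≤ u1) :
    Phi ys vs X s u * 1048576 ≤ c0 + c1 * X + c3 * u := by
  have e : ∀ X u : ℝ, Phi ys vs X s u * 1048576 - (c0 + c1 * X + c3 * u) =
      (-(lamv ys vs * 1048576) - c1) * X + (Lamv ys vs * 1048576 - c3) * u +
        ((-SS ys vs + lamv ys vs * ys.re - (ly 2 ys vs).im * (ys.im - s) -
          Lamv ys vs * vs.re) * 1048576 - c0) := by
    intro X u
    unfold Phi
    ring
  have := rect_le (p := -(lamv ys vs * 1048576) - c1) (q := Lamv ys vs * 1048576 - c3)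
    (r := (-SS ys vs + lamv ys vs * ys.re - (ly 2 ys vs).im * (ys.im - s) -
          Lamv ys vs * vs.re) * 1048576 - c0) (X0 := X0) (X1 := X1) (u0 := u0) (u1 := u1)
    (by rw [← e]; linarith) (by rw [← e]; linarith) (by rw [← e]; linarith)
    (by rw [← e]; linarith) hX0 hX1 hu0 hu1
  rw [← e] at this
  linarith

/-- `Phi` on a segment of `X`. -/
theorem Phi_X {ys vs : ℂ} {s u X0 X1 X c0 c1 : ℝ}
    (h0 : Phi ys vs X0 s u * 1048576 ≤ c0 + c1 * X0)
    (h1 : Phi ys vs X1 s u * 1048576 ≤ c0 + c1 * X1) (hX0 : X0 ≤ X) (hX1 : X ≤ X1) :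
    Phi ys vs X s u * 1048576 ≤ c0 + c1 * X := by
  have e : ∀ X : ℝ, Phi ys vs X s u * 1048576 - (c0 + c1 * X) =
      (-(lamv ys vs * 1048576) - c1) * X +
        ((-SS ys vs + lamv ys vs * ys.re - (ly 2 ys vs).im * (ys.im - s) +
          Lamv ys vs * (u - vs.re)) * 1048576 - c0) := by
    intro X
    unfold Phi
    ring
  have := seg_le (p := -(lamv ys vs * 1048576) - c1)
    (r := (-SS ys vs + lamv ys vs * ys.re - (ly 2 ys vs).im * (ys.im - s) +
          Lamv ys vs * (u - vs.re)) * 1048576 - c0) (X0 := X0) (X1 := X1)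
    (by rw [← e]; linarith) (by rw [← e]; linarith) hX0 hX1
  rw [← e] at this
  linarith

/-- `Phi` on a segment of `s`. -/
theorem Phi_s {ys vs : ℂ} {X u s0 s1 s c0 c2 : ℝ}
    (h0 : Phi ys vs X s0 u * 1048576 ≤ c0 + c2 * s0)
    (h1 : Phi ys vs X s1 u * 1048576 ≤ c0 + c2 * s1) (hs0 : s0 ≤ s) (hs1 : s ≤ s1) :
    Phi ys vs X s u * 1048576 ≤ c0 + c2 * s := by
  have e : ∀ s : ℝ, Phi ys vs X s u * 1048576 - (c0 + c2 * s) =
      ((ly 2 ys vs).im * 1048576 - c2) * s +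
        ((-SS ys vs - lamv ys vs * (X - ys.re) - (ly 2 ys vs).im * ys.im +
          Lamv ys vs * (u - vs.re)) * 1048576 - c0) := by
    intro s
    unfold Phi
    ring
  have := seg_le (p := (ly 2 ys vs).im * 1048576 - c2)
    (r := (-SS ys vs - lamv ys vs * (X - ys.re) - (ly 2 ys vs).im * ys.im +
          Lamv ys vs * (u - vs.re)) * 1048576 - c0) (X0 := s0) (X1 := s1)
    (by rw [← e]; linarith) (by rw [← e]; linarith) hs0 hs1
  rw [← e] at this
  linarith

/-- `Psi` on a segment of `X`. -/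
theorem Psi_X {ys vs : ℂ} {s X0 X1 X c0 c1 : ℝ}
    (h0 : Psi ys vs X0 s * 1048576 ≤ c0 + c1 * X0)
    (h1 : Psi ys vs X1 s * 1048576 ≤ c0 + c1 * X1) (hX0 : X0 ≤ X) (hX1 : X ≤ X1) :
    Psi ys vs X s * 1048576 ≤ c0 + c1 * X := by
  have e : ∀ X : ℝ, Psi ys vs X s * 1048576 - (c0 + c1 * X) =
      (-(lamv ys vs * 1048576) - c1) * X +
        ((-SS ys vs + lamv ys vs * ys.re - (ly 2 ys vs).im * (ys.im - s) -
          (lv ys vs).im * vs.im) * 1048576 - c0) := by
    intro X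
    unfold Psi
    ring
  have := seg_le (p := -(lamv ys vs * 1048576) - c1)
    (r := (-SS ys vs + lamv ys vs * ys.re - (ly 2 ys vs).im * (ys.im - s) -
          (lv ys vs).im * vs.im) * 1048576 - c0) (X0 := X0) (X1 := X1)
    (by rw [← e]; linarith) (by rw [← e]; linarith) hX0 hX1
  rw [← e] at this
  linarith

/-! ### `v` real: the slot function is monotone in `|v|` -/

theorem Rf_pair (b η a a' : ℝ) :
    (Rf ((b - a' : ℝ) + η * I) + Rf ((b + a' : ℝ) + η * I)) -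
      (Rf ((b - a : ℝ) + η * I) + Rf ((b + a : ℝ) + η * I)) =
        ∫ t in a..a', (Lg η (b + t) - Lg η (b - t)) := by
  have h1 : ∫ t in a..a', Lg η (b + t) = Rf ((b + a' : ℝ) + η * I) - Rf ((b + a : ℝ) + η * I) := by
    rw [intervalIntegral.integral_comp_add_left (fun t => Lg η t) b, Lg_integral]
  have h2 : ∫ t in a..a', Lg η (b - t) = Rf ((b - a : ℝ) + η * I) - Rf ((b - a' : ℝ) + η * I) := by
    rw [intervalIntegral.integral_comp_sub_left (fun t => Lg η t) b, Lg_integral]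
  have i1 : IntervalIntegrable (fun t => Lg η (b + t)) volume a a' := by
    have := (Lg_integrable η (b + a) (b + a')).comp_add_left b
    simpa using this
  have i2 : IntervalIntegrable (fun t => Lg η (b - t)) volume a a' := by
    have := (Lg_integrable η (b - a) (b - a')).comp_sub_left b
    simpa using this
  rw [intervalIntegral.integral_sub i1 i2, h1, h2]
  ring

theorem Rf_pair_mono {b η a a' : ℝ} (hb0 : 0 ≤ b) (hb1 : b ≤ 1 / 2) (h0 : 0 ≤ a) (h : a ≤ a')
    (h1 : a' ≤ 1 / 2) : Rf ((b - a : ℝ) + η * I) + Rf ((b + a : ℝ) + η * I) ≤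
      Rf ((b - a' : ℝ) + η * I) + Rf ((b + a' : ℝ) + η * I) := by
  have key : 0 ≤ ∫ t in a..a', (Lg η (b + t) - Lg η (b - t)) := by
    apply intervalIntegral.integral_nonneg_of_ae_restrict h
    have hae : ∀ᵐ t : ℝ ∂(volume.restrict (Icc a a')), t ≠ b :=
      ae_restrict_of_ae ((Set.countable_singleton b).ae_notMem volume)
    filter_upwards [hae, ae_restrict_mem measurableSet_Icc] with t ht hm
    have hpi := Real.pi_pos
    have ht0 : 0 ≤ t := h0.trans hm.1
    have ht1 : t ≤ 1 / 2 := hm.2.trans h1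
    rw [Pi.zero_apply, sub_nonneg]
    apply Lg_le
    · apply dn_pos
      right
      constructor
      · intro h2
        exact ht (by linarith)
      · rw [abs_lt]
        constructor
        · linarith
        · linarith
    · have e1 : 2 * Real.pi * (b + t) = 2 * Real.pi * b + 2 * Real.pi * t := by ring
      have e2 : 2 * Real.pi * (b - t) = 2 * Real.pi * b - 2 * Real.pi * t := by ring
      rw [e1, e2, Real.cos_add, Real.cos_sub]
      have s1 : 0 ≤ Real.sin (2 * Real.pi * b) := by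
        apply Real.sin_nonneg_of_nonneg_of_le_pi <;> nlinarith
      have s2 : 0 ≤ Real.sin (2 * Real.pi * t) := by
        apply Real.sin_nonneg_of_nonneg_of_le_pi <;> nlinarith
      nlinarith [mul_nonneg s1 s2]
  rw [← Rf_pair] at key
  linarith

theorem line_eq (z : ℂ) : ((z.re : ℝ) : ℂ) + z.im * I = z := re_add_im z

theorem SS_real (y : ℂ) (a : ℝ) : SS y a = -2 * Rf (1 / 2 - y) -
    (Rf ((y.re - a : ℝ) + y.im * I) + Rf ((y.re + a : ℝ) + y.im * I)) := by
  have e1 : y - (a : ℂ) = ((y.re - a : ℝ) : ℂ) + y.im * I := by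
    apply Complex.ext <;> simp
  have e2 : y + (a : ℂ) = ((y.re + a : ℝ) : ℂ) + y.im * I := by
    apply Complex.ext <;> simp
  unfold SS
  rw [← e1, ← e2]
  ring

/-- Right half: the slot function decreases in `|v|`. -/
theorem SS_real_anti {y : ℂ} {a a' : ℝ} (hb0 : 0 ≤ y.re) (hb1 : y.re ≤ 1 / 2) (h0 : 0 ≤ a)
    (h : a ≤ a') (h1 : a' ≤ 1 / 2) : SS y a' ≤ SS y a := by
  rw [SS_real, SS_real]
  have := Rf_pair_mono (η := y.im) hb0 hb1 h0 h h1
  linarith

/-- Left half: the slot function increases in `|v|`. -/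
theorem SS_real_mono {y : ℂ} {a a' : ℝ} (hb0 : -(1 / 2) ≤ y.re) (hb1 : y.re ≤ 0) (h0 : 0 ≤ a)
    (h : a ≤ a') (h1 : a' ≤ 1 / 2) : SS y a ≤ SS y a' := by
  rw [SS_real, SS_real]
  have h2 := Rf_pair_mono (b := -y.re) (η := -y.im) (by linarith) (by linarith) h0 h h1
  have e : ∀ x : ℝ, Rf ((x : ℂ) + y.im * I) = -Rf (((-x : ℝ) : ℂ) + ((-y.im : ℝ) : ℂ) * I) -
      Real.pi * |y.im| := by
    intro x
    have h3 := Rf_neg ((x : ℂ) + y.im * I)
    have e1 : -((x : ℂ) + y.im * I) = ((-x : ℝ) : ℂ) + ((-y.im : ℝ) : ℂ) * I := by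
      push_cast
      ring
    rw [e1] at h3
    have e2 : ((x : ℂ) + y.im * I).im = y.im := by simp
    rw [e2] at h3
    linarith
  rw [e (y.re - a), e (y.re + a), e (y.re - a'), e (y.re + a')]
  have f1 : ∀ c : ℝ, -(y.re - c) = -y.re + c := fun c => by ring
  have f2 : ∀ c : ℝ, -(y.re + c) = -y.re - c := fun c => by ring
  rw [f1, f2, f1, f2]
  linarith

theorem SS_real_neg (y : ℂ) (a : ℝ) : SS y ((-a : ℝ) : ℂ) = SS y a := by
  rw [SS_real, SS_real]
  have f1 : y.re - -a = y.re + a := by ring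
  have f2 : y.re + -a = y.re - a := by ring
  rw [f1, f2]
  ring

/-- The value at `v = 1 / 2`. -/
theorem SS_half (y : ℂ) : SS y ((1 / 2 : ℝ) : ℂ) = Real.pi * |y.im| := by
  unfold SS
  have e1 : y - ((1 / 2 : ℝ) : ℂ) = -(1 / 2 - y) := by
    push_cast
    ring
  have e2 : y + ((1 / 2 : ℝ) : ℂ) = 1 - (1 / 2 - y) := by
    push_cast
    ring
  rw [e1, e2, Rf_neg, Rf_one_sub]
  have e3 : (1 / 2 - y : ℂ).im = -y.im := by simp
  rw [e3, abs_neg]
  ring

end Pool.Agent.S5
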