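import Pool.Agent.S5.I.VZn

/-!
# The slots of the open nodes: a real edge, rows
-/

set_option autoImplicit false

namespace Pool.Agent.S5

open Pool.Agent.H63.VC3 Pool.Agent.S3 Complex Tb

namespace VZ

theorem k_e1f_0_0 :
    bb (tst 2 721307 0 0 212861 0 0 0 556120 262144 0 0) 60
      108800 110080 102400 102400 102400 105984 102400 104653 = true := by
  decide +kernel

theorem e1f_0_0 {ys vs y v : ℂ} (N : NAll ys vs) (e0 : -(1 / 10) ≤ ys.im) (e1 : ys.im ≤ 1 / 10) (n0 : 0 ≤ vs.im) (n1 : vs.im ≤ 11 / 125)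
    (hy : y.im = 0) (a0 : 1 / 4 ≤ y.re) (a1 : y.re ≤ 3 / 10) (hv : v.im = vs.im) (b0 : 0 ≤ v.re) (b1 : v.re ≤ 7 / 50) :
    SS y v + Phi ys vs y.re y.im v.re < 3 / 20 := by
  have h := bb_sound tab_ok k_e1f_0_0 (y := y) (v := v) ⟨by norm_num; linarith only [a0], by norm_num; linarith only [a1]⟩
    ⟨by rw [hy]; norm_num, by rw [hy]; norm_num⟩
    ⟨by norm_num; linarith only [b0], by norm_num; linarith only [b1]⟩
    ⟨by norm_num; linarith only [hv, n0], by norm_num; linarith only [hv, n1]⟩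
  have hP := Phi_Xu (ys := ys) (vs := vs) (s := 0) (X0 := 1 / 4) (X1 := 3 / 10) (u0 := 0) (u1 := 7 / 50)
    (c0 := 786432 / 5 - (721307 + 262144 * vs.im)) (c1 := 212861) (c3 := 556120)
    (by linarith only [N.e1_50_0 (by linarith) (by linarith) (by linarith) (by linarith), n1])
    (by linarith only [N.e1_60_0 (by linarith) (by linarith) (by linarith) (by linarith), n1])
    (by linarith only [N.e1_50_28 (by linarith) (by linarith) (by linarith) (by linarith), n0])
    (by linarith only [N.e1_60_28 (by linarith) (by linarith) (by linarith) (by linarith)]) a0 a1 b0 b1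
  push_cast at h
  rw [hy] at h ⊢
  rw [hv] at h
  unfold SS
  linarith only [h, hP]

theorem k_e1f_0_1 :
    bb (tst 2 710192 0 222298 0 0 0 0 1258291 262144 0 0) 60
      108800 110080 102400 102400 105984 109568 102400 104653 = true := by
  decide +kernel

theorem e1f_0_1 {ys vs y v : ℂ} (N : NAll ys vs) (e0 : -(1 / 10) ≤ ys.im) (e1 : ys.im ≤ 1 / 10) (n0 : 0 ≤ vs.im) (n1 : vs.im ≤ 11 / 125)
    (hy : y.im = 0) (a0 : 1 / 4 ≤ y.re) (a1 : y.re ≤ 3 / 10) (hv : v.im = vs.im) (b0 : 7 / 50 ≤ v.re) (b1 : v.re ≤ 7 / 25) :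
    SS y v + Phi ys vs y.re y.im v.re < 3 / 20 := by
  have h := bb_sound tab_ok k_e1f_0_1 (y := y) (v := v) ⟨by norm_num; linarith only [a0], by norm_num; linarith only [a1]⟩
    ⟨by rw [hy]; norm_num, by rw [hy]; norm_num⟩
    ⟨by norm_num; linarith only [b0], by norm_num; linarith only [b1]⟩
    ⟨by norm_num; linarith only [hv, n0], by norm_num; linarith only [hv, n1]⟩
  have hP := Phi_Xu (ys := ys) (vs := vs) (s := 0) (X0 := 1 / 4) (X1 := 3 / 10) (u0 := 7 / 50) (u1 := 7 / 25)
    (c0 := 786432 / 5 - (710192 + 262144 * vs.im)) (c1 := -222298) (c3 := 1258291)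
    (by linarith only [N.e1_50_28 (by linarith) (by linarith) (by linarith) (by linarith), n0])
    (by linarith only [N.e1_60_28 (by linarith) (by linarith) (by linarith) (by linarith)])
    (by linarith only [N.e1_50_56 (by linarith) (by linarith) (by linarith) (by linarith), n1])
    (by linarith only [N.e1_60_56 (by linarith) (by linarith) (by linarith) (by linarith), n1]) a0 a1 b0 b1
  push_cast at h
  rw [hy] at h ⊢
  rw [hv] at h
  unfold SS
  linarith only [h, hP]

theorem k_e1f_1_0 :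
    bb (tst 2 915189 0 0 882901 0 0 0 354269 262144 0 0) 60
      110080 111360 102400 102400 102400 105984 102400 104653 = true := by
  decide +kernel

theorem e1f_1_0 {ys vs y v : ℂ} (N : NAll ys vs) (e0 : -(1 / 10) ≤ ys.im) (e1 : ys.im ≤ 1 / 10) (n0 : 0 ≤ vs.im) (n1 : vs.im ≤ 11 / 125)
    (hy : y.im = 0) (a0 : 3 / 10 ≤ y.re) (a1 : y.re ≤ 7 / 20) (hv : v.im = vs.im) (b0 : 0 ≤ v.re) (b1 : v.re ≤ 7 / 50) :
    SS y v + Phi ys vs y.re y.im v.re < 3 / 20 := by
  have h := bb_sound tab_ok k_e1f_1_0 (y := y) (v := v) ⟨by norm_num; linarith only [a0], by norm_num; linarith only [a1]⟩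
    ⟨by rw [hy]; norm_num, by rw [hy]; norm_num⟩
    ⟨by norm_num; linarith only [b0], by norm_num; linarith only [b1]⟩
    ⟨by norm_num; linarith only [hv, n0], by norm_num; linarith only [hv, n1]⟩
  have hP := Phi_Xu (ys := ys) (vs := vs) (s := 0) (X0 := 3 / 10) (X1 := 7 / 20) (u0 := 0) (u1 := 7 / 50)
    (c0 := 786432 / 5 - (915189 + 262144 * vs.im)) (c1 := 882901) (c3 := 354269)
    (by linarith only [N.e1_60_0 (by linarith) (by linarith) (by linarith) (by linarith), n1])
    (by linarith only [N.e1_70_0 (by linarith) (by linarith) (by linarith) (by linarith), n1])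
    (by linarith only [N.e1_60_28 (by linarith) (by linarith) (by linarith) (by linarith)])
    (by linarith only [N.e1_70_28 (by linarith) (by linarith) (by linarith) (by linarith), n1]) a0 a1 b0 b1
  push_cast at h
  rw [hy] at h ⊢
  rw [hv] at h
  unfold SS
  linarith only [h, hP]

theorem k_e1f_1_1 :
    bb (tst 2 902081 0 0 463471 0 0 0 1159425 104858 0 0) 60
      110080 111360 102400 102400 105984 109568 102400 104653 = true := by
  decide +kernel

theorem e1f_1_1 {ys vs y v : ℂ} (N : NAll ys vs) (e0 : -(1 / 10) ≤ ys.im) (e1 : ys.im ≤ 1 / 10) (n0 : 0 ≤ vs.im) (n1 : vs.im ≤ 11 / 125)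
    (hy : y.im = 0) (a0 : 3 / 10 ≤ y.re) (a1 : y.re ≤ 7 / 20) (hv : v.im = vs.im) (b0 : 7 / 50 ≤ v.re) (b1 : v.re ≤ 7 / 25) :
    SS y v + Phi ys vs y.re y.im v.re < 3 / 20 := by
  have h := bb_sound tab_ok k_e1f_1_1 (y := y) (v := v) ⟨by norm_num; linarith only [a0], by norm_num; linarith only [a1]⟩
    ⟨by rw [hy]; norm_num, by rw [hy]; norm_num⟩
    ⟨by norm_num; linarith only [b0], by norm_num; linarith only [b1]⟩
    ⟨by norm_num; linarith only [hv, n0], by norm_num; linarith only [hv, n1]⟩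
  have hP := Phi_Xu (ys := ys) (vs := vs) (s := 0) (X0 := 3 / 10) (X1 := 7 / 20) (u0 := 7 / 50) (u1 := 7 / 25)
    (c0 := 786432 / 5 - (902081 + 104858 * vs.im)) (c1 := 463471) (c3 := 1159425)
    (by linarith only [N.e1_60_28 (by linarith) (by linarith) (by linarith) (by linarith), n0])
    (by linarith only [N.e1_70_28 (by linarith) (by linarith) (by linarith) (by linarith), n1])
    (by linarith only [N.e1_60_56 (by linarith) (by linarith) (by linarith) (by linarith), n1])
    (by linarith only [N.e1_70_56 (by linarith) (by linarith) (by linarith) (by linarith), n1]) a0 a1 b0 b1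
  push_cast at h
  rw [hy] at h ⊢
  rw [hv] at h
  unfold SS
  linarith only [h, hP]

theorem k_e1f_2_0 :
    bb (tst 2 933014 0 0 941621 0 0 0 184999 52429 0 0) 60
      111360 115200 102400 102400 102400 105984 102400 104653 = true := by
  decide +kernel

theorem e1f_2_0 {ys vs y v : ℂ} (N : NAll ys vs) (e0 : -(1 / 10) ≤ ys.im) (e1 : ys.im ≤ 1 / 10) (n0 : 0 ≤ vs.im) (n1 : vs.im ≤ 11 / 125)
    (hy : y.im = 0) (a0 : 7 / 20 ≤ y.re) (a1 : y.re ≤ 1 / 2) (hv : v.im = vs.im) (b0 : 0 ≤ v.re) (b1 : v.re ≤ 7 / 50) :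
    SS y v + Phi ys vs y.re y.im v.re < 3 / 20 := by
  have h := bb_sound tab_ok k_e1f_2_0 (y := y) (v := v) ⟨by norm_num; linarith only [a0], by norm_num; linarith only [a1]⟩
    ⟨by rw [hy]; norm_num, by rw [hy]; norm_num⟩
    ⟨by norm_num; linarith only [b0], by norm_num; linarith only [b1]⟩
    ⟨by norm_num; linarith only [hv, n0], by norm_num; linarith only [hv, n1]⟩
  have hP := Phi_Xu (ys := ys) (vs := vs) (s := 0) (X0 := 7 / 20) (X1 := 1 / 2) (u0 := 0) (u1 := 7 / 50)
    (c0 := 786432 / 5 - (933014 + 52429 * vs.im)) (c1 := 941621) (c3 := 184999)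
    (by linarith only [N.e1_70_0 (by linarith) (by linarith) (by linarith) (by linarith), n1])
    (by linarith only [N.e1_100_0 (by linarith) (by linarith) (by linarith) (by linarith), n1])
    (by linarith only [N.e1_70_28 (by linarith) (by linarith) (by linarith) (by linarith), n0])
    (by linarith only [N.e1_100_28 (by linarith) (by linarith) (by linarith) (by linarith), n1]) a0 a1 b0 b1
  push_cast at h
  rw [hy] at h ⊢
  rw [hv] at h
  unfold SS
  linarith only [h, hP]

theorem k_e1f_2_1 :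
    bb (tst 2 1015153 0 0 910863 0 0 0 848598 0 0 0) 60
      111360 115200 102400 102400 105984 109568 102400 104653 = true := by
  decide +kernel

theorem e1f_2_1 {ys vs y v : ℂ} (N : NAll ys vs) (e0 : -(1 / 10) ≤ ys.im) (e1 : ys.im ≤ 1 / 10) (n0 : 0 ≤ vs.im) (n1 : vs.im ≤ 11 / 125)
    (hy : y.im = 0) (a0 : 7 / 20 ≤ y.re) (a1 : y.re ≤ 1 / 2) (hv : v.im = vs.im) (b0 : 7 / 50 ≤ v.re) (b1 : v.re ≤ 7 / 25) :
    SS y v + Phi ys vs y.re y.im v.re < 3 / 20 := by
  have h := bb_sound tab_ok k_e1f_2_1 (y := y) (v := v) ⟨by norm_num; linarith only [a0], by norm_num; linarith only [a1]⟩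
    ⟨by rw [hy]; norm_num, by rw [hy]; norm_num⟩
    ⟨by norm_num; linarith only [b0], by norm_num; linarith only [b1]⟩
    ⟨by norm_num; linarith only [hv, n0], by norm_num; linarith only [hv, n1]⟩
  have hP := Phi_Xu (ys := ys) (vs := vs) (s := 0) (X0 := 7 / 20) (X1 := 1 / 2) (u0 := 7 / 50) (u1 := 7 / 25)
    (c0 := 786432 / 5 - (1015153 + 0 * vs.im)) (c1 := 910863) (c3 := 848598)
    (by linarith only [N.e1_70_28 (by linarith) (by linarith) (by linarith) (by linarith), n0])
    (by linarith only [N.e1_100_28 (by linarith) (by linarith) (by linarith) (by linarith), n1])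
    (by linarith only [N.e1_70_56 (by linarith) (by linarith) (by linarith) (by linarith), n1])
    (by linarith only [N.e1_100_56 (by linarith) (by linarith) (by linarith) (by linarith), n1]) a0 a1 b0 b1
  push_cast at h
  rw [hy] at h ⊢
  rw [hv] at h
  unfold SS
  linarith only [h, hP]

theorem k_e1v_0 :
    bb (tst 2 346336 0 222298 0 0 0 0 0 393216 0 0) 60
      108800 110080 102400 102400 109568 109568 102400 104653 = true := by
  decide +kernel

theorem e1v_0 {ys vs y v : ℂ} (N : NAll ys vs) (e0 : -(1 / 10) ≤ ys.im) (e1 : ys.im ≤ 1 / 10) (n0 : 0 ≤ vs.im) (n1 : vs.im ≤ 11 / 125)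
    (hy : y.im = 0) (a0 : 1 / 4 ≤ y.re) (a1 : y.re ≤ 3 / 10) (hv : v.re = 7 / 25) (b0 : 0 ≤ v.im) (b1 : v.im ≤ vs.im) :
    SS y v + Phi ys vs y.re y.im (7 / 25) + 3 / 8 * (vs.im - v.im) < 3 / 20 := by
  have h := bb_sound tab_ok k_e1v_0 (y := y) (v := v) ⟨by norm_num; linarith only [a0], by norm_num; linarith only [a1]⟩
    ⟨by rw [hy]; norm_num, by rw [hy]; norm_num⟩
    ⟨by rw [hv]; norm_num, by rw [hv]; norm_num⟩
    ⟨by norm_num; linarith only [b0], by norm_num; linarith only [b1, n1]⟩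
  have hP := Phi_X (ys := ys) (vs := vs) (s := 0) (u := 7 / 25) (X0 := 1 / 4) (X1 := 3 / 10)
    (c0 := 786432 / 5 - 346336 - 393216 * vs.im) (c1 := -222298)
    (by linarith only [N.e1_50_56 (by linarith) (by linarith) (by linarith) (by linarith), n1])
    (by linarith only [N.e1_60_56 (by linarith) (by linarith) (by linarith) (by linarith), n1]) a0 a1
  push_cast at h
  rw [hy] at h ⊢
  unfold SS
  linarith only [h, hP]

theorem k_e1v_1 :
    bb (tst 2 346336 0 222298 0 0 0 0 0 393216 0 0) 60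
      110080 111360 102400 102400 109568 109568 102400 104653 = true := by
  decide +kernel

theorem e1v_1 {ys vs y v : ℂ} (N : NAll ys vs) (e0 : -(1 / 10) ≤ ys.im) (e1 : ys.im ≤ 1 / 10) (n0 : 0 ≤ vs.im) (n1 : vs.im ≤ 11 / 125)
    (hy : y.im = 0) (a0 : 3 / 10 ≤ y.re) (a1 : y.re ≤ 7 / 20) (hv : v.re = 7 / 25) (b0 : 0 ≤ v.im) (b1 : v.im ≤ vs.im) :
    SS y v + Phi ys vs y.re y.im (7 / 25) + 3 / 8 * (vs.im - v.im) < 3 / 20 := by
  have h := bb_sound tab_ok k_e1v_1 (y := y) (v := v) ⟨by norm_num; linarith only [a0], by norm_num; linarith only [a1]⟩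
    ⟨by rw [hy]; norm_num, by rw [hy]; norm_num⟩
    ⟨by rw [hv]; norm_num, by rw [hv]; norm_num⟩
    ⟨by norm_num; linarith only [b0], by norm_num; linarith only [b1, n1]⟩
  have hP := Phi_X (ys := ys) (vs := vs) (s := 0) (u := 7 / 25) (X0 := 3 / 10) (X1 := 7 / 20)
    (c0 := 786432 / 5 - 346336 - 393216 * vs.im) (c1 := -222298)
    (by linarith only [N.e1_60_56 (by linarith) (by linarith) (by linarith) (by linarith), n1])
    (by linarith only [N.e1_70_56 (by linarith) (by linarith) (by linarith) (by linarith), n1]) a0 a1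
  push_cast at h
  rw [hy] at h ⊢
  unfold SS
  linarith only [h, hP]

theorem k_e1v_2 :
    bb (tst 2 606418 0 0 520793 0 0 0 0 393216 0 0) 60
      111360 115200 102400 102400 109568 109568 102400 104653 = true := by
  decide +kernel

theorem e1v_2 {ys vs y v : ℂ} (N : NAll ys vs) (e0 : -(1 / 10) ≤ ys.im) (e1 : ys.im ≤ 1 / 10) (n0 : 0 ≤ vs.im) (n1 : vs.im ≤ 11 / 125)
    (hy : y.im = 0) (a0 : 7 / 20 ≤ y.re) (a1 : y.re ≤ 1 / 2) (hv : v.re = 7 / 25) (b0 : 0 ≤ v.im) (b1 : v.im ≤ vs.im) :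
    SS y v + Phi ys vs y.re y.im (7 / 25) + 3 / 8 * (vs.im - v.im) < 3 / 20 := by
  have h := bb_sound tab_ok k_e1v_2 (y := y) (v := v) ⟨by norm_num; linarith only [a0], by norm_num; linarith only [a1]⟩
    ⟨by rw [hy]; norm_num, by rw [hy]; norm_num⟩
    ⟨by rw [hv]; norm_num, by rw [hv]; norm_num⟩
    ⟨by norm_num; linarith only [b0], by norm_num; linarith only [b1, n1]⟩
  have hP := Phi_X (ys := ys) (vs := vs) (s := 0) (u := 7 / 25) (X0 := 7 / 20) (X1 := 1 / 2)
    (c0 := 786432 / 5 - 606418 - 393216 * vs.im) (c1 := 520793)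
    (by linarith only [N.e1_70_56 (by linarith) (by linarith) (by linarith) (by linarith), n1])
    (by linarith only [N.e1_100_56 (by linarith) (by linarith) (by linarith) (by linarith), n1]) a0 a1
  push_cast at h
  rw [hy] at h ⊢
  unfold SS
  linarith only [h, hP]

theorem k_e1r :
    bb (tst 2 625782 0 0 520513 0 0 0 0 0 0 0) 60
      108800 115200 102400 102400 108800 115200 102400 102400 = true := by
  decide +kernel

theorem e1r {ys vs y v : ℂ} (N : NAll ys vs) (e0 : -(1 / 10) ≤ ys.im) (e1 : ys.im ≤ 1 / 10) (n0 : 0 ≤ vs.im) (n1 : vs.im ≤ 11 / 125)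
    (hy : y.im = 0) (a0 : 1 / 4 ≤ y.re) (a1 : y.re ≤ 1 / 2) (hv : v.im = 0) (b0 : 1 / 4 ≤ v.re) (b1 : v.re ≤ 1 / 2) :
    SS y v + Psi ys vs y.re y.im < 3 / 20 := by
  have h := bb_sound tab_ok k_e1r (y := y) (v := v) ⟨by norm_num; linarith only [a0], by norm_num; linarith only [a1]⟩
    ⟨by rw [hy]; norm_num, by rw [hy]; norm_num⟩
    ⟨by norm_num; linarith only [b0], by norm_num; linarith only [b1]⟩
    ⟨by rw [hv]; norm_num, by rw [hv]; norm_num⟩
  have hP := Psi_X (ys := ys) (vs := vs) (s := 0) (X0 := 1 / 4) (X1 := 1 / 2)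
    (c0 := 786432 / 5 - 625782) (c1 := 520513)
    (by linarith only [N.e1r_50 (by linarith) (by linarith) (by linarith) (by linarith)]) (by linarith only [N.e1r_100 (by linarith) (by linarith) (by linarith) (by linarith)]) a0 a1
  push_cast at h
  rw [hy] at h ⊢
  rw [hv] at h
  unfold SS
  linarith only [h, hP]

theorem k_eaf_0 :
    bb (tst 2 952623 0 0 1207960 0 0 0 267911 104858 0 0) 60
      112640 115200 102400 102400 102400 107520 102400 104653 = true := by
  decide +kernel

theorem eaf_0 {ys vs y v : ℂ} (N : NAll ys vs) (e0 : -(3 / 40) ≤ ys.im) (e1 : ys.im ≤ 1 / 200) (n0 : 0 ≤ vs.im) (n1 : vs.im ≤ 11 / 125)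
    (hy : y.im = 0) (a0 : 2 / 5 ≤ y.re) (a1 : y.re ≤ 1 / 2) (hv : v.im = vs.im) (b0 : 0 ≤ v.re) (b1 : v.re ≤ 1 / 5) :
    SS y v + Phi ys vs y.re y.im v.re < 3 / 100 := by
  have h := bb_sound tab_ok k_eaf_0 (y := y) (v := v) ⟨by norm_num; linarith only [a0], by norm_num; linarith only [a1]⟩
    ⟨by rw [hy]; norm_num, by rw [hy]; norm_num⟩
    ⟨by norm_num; linarith only [b0], by norm_num; linarith only [b1]⟩
    ⟨by norm_num; linarith only [hv, n0], by norm_num; linarith only [hv, n1]⟩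
  have hP := Phi_Xu (ys := ys) (vs := vs) (s := 0) (X0 := 2 / 5) (X1 := 1 / 2) (u0 := 0) (u1 := 1 / 5)
    (c0 := 786432 / 25 - (952623 + 104858 * vs.im)) (c1 := 1207960) (c3 := 267911)
    (by linarith only [N.ea_80_0 (by linarith) (by linarith) (by linarith) (by linarith), n1])
    (by linarith only [N.ea_100_0 (by linarith) (by linarith) (by linarith) (by linarith), n1])
    (by linarith only [N.ea_80_40 (by linarith) (by linarith) (by linarith) (by linarith), n0])
    (by linarith only [N.ea_100_40 (by linarith) (by linarith) (by linarith) (by linarith), n1]) a0 a1 b0 b1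
  push_cast at h
  rw [hy] at h ⊢
  rw [hv] at h
  unfold SS
  linarith only [h, hP]

theorem k_eaf_1 :
    bb (tst 2 923001 0 0 930087 0 0 0 698614 209715 0 0) 60
      112640 115200 102400 102400 107520 109568 102400 104653 = true := by
  decide +kernel

theorem eaf_1 {ys vs y v : ℂ} (N : NAll ys vs) (e0 : -(3 / 40) ≤ ys.im) (e1 : ys.im ≤ 1 / 200) (n0 : 0 ≤ vs.im) (n1 : vs.im ≤ 11 / 125)
    (hy : y.im = 0) (a0 : 2 / 5 ≤ y.re) (a1 : y.re ≤ 1 / 2) (hv : v.im = vs.im) (b0 : 1 / 5 ≤ v.re) (b1 : v.re ≤ 7 / 25) :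
    SS y v + Phi ys vs y.re y.im v.re < 3 / 100 := by
  have h := bb_sound tab_ok k_eaf_1 (y := y) (v := v) ⟨by norm_num; linarith only [a0], by norm_num; linarith only [a1]⟩
    ⟨by rw [hy]; norm_num, by rw [hy]; norm_num⟩
    ⟨by norm_num; linarith only [b0], by norm_num; linarith only [b1]⟩
    ⟨by norm_num; linarith only [hv, n0], by norm_num; linarith only [hv, n1]⟩
  have hP := Phi_Xu (ys := ys) (vs := vs) (s := 0) (X0 := 2 / 5) (X1 := 1 / 2) (u0 := 1 / 5) (u1 := 7 / 25)
    (c0 := 786432 / 25 - (923001 + 209715 * vs.im)) (c1 := 930087) (c3 := 698614)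
    (by linarith only [N.ea_80_40 (by linarith) (by linarith) (by linarith) (by linarith), n1])
    (by linarith only [N.ea_100_40 (by linarith) (by linarith) (by linarith) (by linarith), n1])
    (by linarith only [N.ea_80_56 (by linarith) (by linarith) (by linarith) (by linarith), n0])
    (by linarith only [N.ea_100_56 (by linarith) (by linarith) (by linarith) (by linarith), n0]) a0 a1 b0 b1
  push_cast at h
  rw [hy] at h ⊢
  rw [hv] at h
  unfold SS
  linarith only [h, hP]

theorem k_eav :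
    bb (tst 2 673282 0 0 794821 0 0 0 0 393216 0 0) 60
      112640 115200 102400 102400 109568 109568 102400 104653 = true := by
  decide +kernel

theorem eav {ys vs y v : ℂ} (N : NAll ys vs) (e0 : -(3 / 40) ≤ ys.im) (e1 : ys.im ≤ 1 / 200) (n0 : 0 ≤ vs.im) (n1 : vs.im ≤ 11 / 125)
    (hy : y.im = 0) (a0 : 2 / 5 ≤ y.re) (a1 : y.re ≤ 1 / 2) (hv : v.re = 7 / 25) (b0 : 0 ≤ v.im) (b1 : v.im ≤ vs.im) :
    SS y v + Phi ys vs y.re y.im (7 / 25) + 3 / 8 * (vs.im - v.im) < 3 / 100 := by
  have h := bb_sound tab_ok k_eav (y := y) (v := v) ⟨by norm_num; linarith only [a0], by norm_num; linarith only [a1]⟩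
    ⟨by rw [hy]; norm_num, by rw [hy]; norm_num⟩
    ⟨by rw [hv]; norm_num, by rw [hv]; norm_num⟩
    ⟨by norm_num; linarith only [b0], by norm_num; linarith only [b1, n1]⟩
  have hP := Phi_X (ys := ys) (vs := vs) (s := 0) (u := 7 / 25) (X0 := 2 / 5) (X1 := 1 / 2)
    (c0 := 786432 / 25 - 673282 - 393216 * vs.im) (c1 := 794821)
    (by linarith only [N.ea_80_56 (by linarith) (by linarith) (by linarith) (by linarith), n0])
    (by linarith only [N.ea_100_56 (by linarith) (by linarith) (by linarith) (by linarith), n1]) a0 a1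
  push_cast at h
  rw [hy] at h ⊢
  unfold SS
  linarith only [h, hP]

theorem k_ear :
    bb (tst 2 661538 0 0 711983 0 0 0 0 0 0 0) 60
      112640 115200 102400 102400 108800 115200 102400 102400 = true := by
  decide +kernel

theorem ear {ys vs y v : ℂ} (N : NAll ys vs) (hU : VU ys vs) (e0 : -(3 / 40) ≤ ys.im) (e1 : ys.im ≤ 1 / 200) (n0 : 0 ≤ vs.im) (n1 : vs.im ≤ 11 / 125)
    (hy : y.im = 0) (a0 : 2 / 5 ≤ y.re) (a1 : y.re ≤ 1 / 2) (hv : v.im = 0) (b0 : 1 / 4 ≤ v.re) (b1 : v.re ≤ 1 / 2) :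
    SS y v + Psi ys vs y.re y.im < 3 / 100 := by
  have h := bb_sound tab_ok k_ear (y := y) (v := v) ⟨by norm_num; linarith only [a0], by norm_num; linarith only [a1]⟩
    ⟨by rw [hy]; norm_num, by rw [hy]; norm_num⟩
    ⟨by norm_num; linarith only [b0], by norm_num; linarith only [b1]⟩
    ⟨by rw [hv]; norm_num, by rw [hv]; norm_num⟩
  have hm := hU.b2
  have p0 : Psi ys vs (2 / 5) 0 ≤ -(3293 / 10000) := by
    rcases le_total vs.im (11 / 250) with hq | hq
    · linarith only [N.ear_80 (by linarith) (by linarith) (by linarith) (by linarith)]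
    · linarith only [N.eas_80 (by linarith) (by linarith) (by linarith) (by linarith), hm]
  have p1 : Psi ys vs (1 / 2) 0 ≤ -(1307 / 5000) := by
    rcases le_total vs.im (11 / 250) with hq | hq
    · linarith only [N.ear_100 (by linarith) (by linarith) (by linarith) (by linarith)]
    · linarith only [N.eas_100 (by linarith) (by linarith) (by linarith) (by linarith), hm]
  have hP := Psi_X (ys := ys) (vs := vs) (s := 0) (X0 := 2 / 5) (X1 := 1 / 2)
    (c0 := 786432 / 25 - 661538) (c1 := 711983)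
    (by linarith only [p0]) (by linarith only [p1]) a0 a1
  push_cast at h
  rw [hy] at h ⊢
  rw [hv] at h
  unfold SS
  linarith only [h, hP]

theorem k_esf :
    bb (tst 2 874399 0 0 952107 0 0 0 369249 52429 0 0) 60
      112640 115200 102400 102400 102400 109568 102400 104653 = true := by
  decide +kernel

theorem esf {ys vs y v : ℂ} (N : NAll ys vs) (e0 : 0 ≤ ys.im) (e1 : ys.im ≤ 2 / 25) (n0 : 0 ≤ vs.im) (n1 : vs.im ≤ 11 / 125)
    (hy : y.im = 0) (a0 : 2 / 5 ≤ y.re) (a1 : y.re ≤ 1 / 2) (hv : v.im = vs.im) (b0 : 0 ≤ v.re) (b1 : v.re ≤ 7 / 25) :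
    SS y v + Phi ys vs y.re y.im v.re < 2 / 25 := by
  have h := bb_sound tab_ok k_esf (y := y) (v := v) ⟨by norm_num; linarith only [a0], by norm_num; linarith only [a1]⟩
    ⟨by rw [hy]; norm_num, by rw [hy]; norm_num⟩
    ⟨by norm_num; linarith only [b0], by norm_num; linarith only [b1]⟩
    ⟨by norm_num; linarith only [hv, n0], by norm_num; linarith only [hv, n1]⟩
  have hP := Phi_Xu (ys := ys) (vs := vs) (s := 0) (X0 := 2 / 5) (X1 := 1 / 2) (u0 := 0) (u1 := 7 / 25)
    (c0 := 2097152 / 25 - (874399 + 52429 * vs.im)) (c1 := 952107) (c3 := 369249)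
    (by linarith only [N.es_80_0 (by linarith) (by linarith) (by linarith) (by linarith), n0])
    (by linarith only [N.es_100_0 (by linarith) (by linarith) (by linarith) (by linarith), n1])
    (by linarith only [N.es_80_56 (by linarith) (by linarith) (by linarith) (by linarith), n1])
    (by linarith only [N.es_100_56 (by linarith) (by linarith) (by linarith) (by linarith), n1]) a0 a1 b0 b1
  push_cast at h
  rw [hy] at h ⊢
  rw [hv] at h
  unfold SS
  linarith only [h, hP]

theorem k_esv :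
    bb (tst 2 669717 0 0 773849 0 0 0 0 393216 0 0) 60
      112640 115200 102400 102400 109568 109568 102400 104653 = true := by
  decide +kernel

theorem esv {ys vs y v : ℂ} (N : NAll ys vs) (e0 : 0 ≤ ys.im) (e1 : ys.im ≤ 2 / 25) (n0 : 0 ≤ vs.im) (n1 : vs.im ≤ 11 / 125)
    (hy : y.im = 0) (a0 : 2 / 5 ≤ y.re) (a1 : y.re ≤ 1 / 2) (hv : v.re = 7 / 25) (b0 : 0 ≤ v.im) (b1 : v.im ≤ vs.im) :
    SS y v + Phi ys vs y.re y.im (7 / 25) + 3 / 8 * (vs.im - v.im) < 2 / 25 := by
  have h := bb_sound tab_ok k_esv (y := y) (v := v) ⟨by norm_num; linarith only [a0], by norm_num; linarith only [a1]⟩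
    ⟨by rw [hy]; norm_num, by rw [hy]; norm_num⟩
    ⟨by rw [hv]; norm_num, by rw [hv]; norm_num⟩
    ⟨by norm_num; linarith only [b0], by norm_num; linarith only [b1, n1]⟩
  have hP := Phi_X (ys := ys) (vs := vs) (s := 0) (u := 7 / 25) (X0 := 2 / 5) (X1 := 1 / 2)
    (c0 := 2097152 / 25 - 669717 - 393216 * vs.im) (c1 := 773849)
    (by linarith only [N.es_80_56 (by linarith) (by linarith) (by linarith) (by linarith), n1])
    (by linarith only [N.es_100_56 (by linarith) (by linarith) (by linarith) (by linarith), n1]) a0 a1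
  push_cast at h
  rw [hy] at h ⊢
  unfold SS
  linarith only [h, hP]

theorem k_esr :
    bb (tst 2 753498 0 0 784335 0 0 0 0 0 0 0) 60
      112640 115200 102400 102400 108800 115200 102400 102400 = true := by
  decide +kernel

theorem esr {ys vs y v : ℂ} (N : NAll ys vs) (e0 : 0 ≤ ys.im) (e1 : ys.im ≤ 2 / 25) (n0 : 0 ≤ vs.im) (n1 : vs.im ≤ 11 / 125)
    (hy : y.im = 0) (a0 : 2 / 5 ≤ y.re) (a1 : y.re ≤ 1 / 2) (hv : v.im = 0) (b0 : 1 / 4 ≤ v.re) (b1 : v.re ≤ 1 / 2) :
    SS y v + Psi ys vs y.re y.im < 2 / 25 := by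
  have h := bb_sound tab_ok k_esr (y := y) (v := v) ⟨by norm_num; linarith only [a0], by norm_num; linarith only [a1]⟩
    ⟨by rw [hy]; norm_num, by rw [hy]; norm_num⟩
    ⟨by norm_num; linarith only [b0], by norm_num; linarith only [b1]⟩
    ⟨by rw [hv]; norm_num, by rw [hv]; norm_num⟩
  have hP := Psi_X (ys := ys) (vs := vs) (s := 0) (X0 := 2 / 5) (X1 := 1 / 2)
    (c0 := 2097152 / 25 - 753498) (c1 := 784335)
    (by linarith only [N.esr_80 (by linarith) (by linarith) (by linarith) (by linarith)]) (by linarith only [N.esr_100 (by linarith) (by linarith) (by linarith) (by linarith)]) a0 a1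
  push_cast at h
  rw [hy] at h ⊢
  rw [hv] at h
  unfold SS
  linarith only [h, hP]

end VZ

end Pool.Agent.S5
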