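import Pool.Agent.S5.I.C2m

/-!
# Closed vertices with two half twists, weights `2` and `1`: no other critical points
-/

set_option autoImplicit false

namespace Pool.Agent.S5.C2

open MeasureTheory Filter Topology Set

/-- The defect with the weights `2` and `1`. -/
noncomputable def SW (s1 s2 s3 p0 q0 p q : ℝ) : ℝ :=
  2 * Dq s1 p0 p + Dq s2 q0 q - Dq s3 (p0 + q0) (p + q)

theorem SW_eq (s1 s2 s3 p0 q0 p q : ℝ) :
    SW s1 s2 s3 p0 q0 p q = SS s1 s2 s3 p0 q0 p q - Dq s2 q0 q := by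
  unfold SW SS
  ring

theorem SW_self (s1 s2 s3 p0 q0 : ℝ) : SW s1 s2 s3 p0 q0 p0 q0 = 0 := by
  unfold SW
  rw [Dq_self, Dq_self, Dq_self]
  ring

theorem SW_continuous {s1 s2 s3 : ℝ} (hs1 : 0 ≤ s1) (hs2 : 0 ≤ s2) (hs3 : 0 ≤ s3) (p0 q0 : ℝ) :
    Continuous (fun z : ℝ × ℝ => SW s1 s2 s3 p0 q0 z.1 z.2) := by
  have c1 : Continuous (fun z : ℝ × ℝ => Dq s1 p0 z.1) := (Dq_continuous hs1 p0).comp continuous_fst
  have c2 : Continuous (fun z : ℝ × ℝ => Dq s2 q0 z.2) := (Dq_continuous hs2 q0).comp continuous_snd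
  have c3 : Continuous (fun z : ℝ × ℝ => Dq s3 (p0 + q0) (z.1 + z.2)) :=
    (Dq_continuous hs3 (p0 + q0)).comp (continuous_fst.add continuous_snd)
  unfold SW
  exact ((c1.const_mul 2).add c2).sub c3

/-- One weight one term. -/
noncomputable def H1 (s s3 x0 X0 c x : ℝ) : ℝ := Dq s x0 x - Dq s3 X0 (x + c)

theorem H1_hasDerivAt {s s3 x0 X0 c x : ℝ} (hs : 0 ≤ s) (hs3 : 0 ≤ s3)
    (h1 : 0 < Sn x + s) (h3 : 0 < Sn (x + c) + s3) :
    HasDerivAt (H1 s s3 x0 X0 c) ((Lq s x - Lq s x0) - (Lq s3 (x + c) - Lq s3 X0)) x := by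
  have d1 := Dq_hasDerivAt hs x0 (x := x) h1
  have d3 : HasDerivAt (fun t => Dq s3 X0 (t + c)) (Lq s3 (x + c) - Lq s3 X0) x := by
    have h := Dq_hasDerivAt hs3 X0 (x := x + c) h3
    exact HasDerivAt.comp_add_const x c h
  exact d1.sub d3

theorem H1_continuous {s s3 : ℝ} (hs : 0 ≤ s) (hs3 : 0 ≤ s3) (x0 X0 c : ℝ) :
    Continuous (H1 s s3 x0 X0 c) := by
  have c1 : Continuous (fun t => Dq s x0 t) := Dq_continuous hs x0
  have c3 : Continuous (fun t => Dq s3 X0 (t + c)) :=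
    (Dq_continuous hs3 X0).comp (continuous_id.add continuous_const)
  exact c1.sub c3

theorem dir1_lt {s s3 t x x0 X0 : ℝ} (h0 : 0 < Sn t + s) (hA : 0 < Sn x0 + s) (h3 : 0 < Sn x + s3)
    (hB : 0 < Sn X0 + s3) (h : (Sn t + s) * (Sn X0 + s3) < (Sn x0 + s) * (Sn x + s3)) :
    Lq s t - Lq s x0 < Lq s3 x - Lq s3 X0 := by
  simp only [Lq_eq]
  rw [Real.log_mul (by norm_num) h0.ne', Real.log_mul (by norm_num) hA.ne',
    Real.log_mul (by norm_num) h3.ne', Real.log_mul (by norm_num) hB.ne']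
  have h5 := Real.log_lt_log (by positivity) h
  rw [Real.log_mul h0.ne' hB.ne', Real.log_mul hA.ne' h3.ne'] at h5
  linarith only [h5]

theorem dir1_gt {s s3 t x x0 X0 : ℝ} (h0 : 0 < Sn t + s) (hA : 0 < Sn x0 + s) (h3 : 0 < Sn x + s3)
    (hB : 0 < Sn X0 + s3) (h : (Sn x0 + s) * (Sn x + s3) < (Sn t + s) * (Sn X0 + s3)) :
    Lq s3 x - Lq s3 X0 < Lq s t - Lq s x0 := by
  simp only [Lq_eq]
  rw [Real.log_mul (by norm_num) h0.ne', Real.log_mul (by norm_num) hA.ne',
    Real.log_mul (by norm_num) h3.ne', Real.log_mul (by norm_num) hB.ne']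
  have h5 := Real.log_lt_log (by positivity) h
  rw [Real.log_mul h0.ne' hB.ne', Real.log_mul hA.ne' h3.ne'] at h5
  linarith only [h5]

theorem H1_lt {s s3 x0 X0 c x x' : ℝ} (hs : 0 ≤ s) (hs3 : 0 ≤ s3) (hA : 0 < Sn x0 + s)
    (hB : 0 < Sn X0 + s3) (h0 : 0 ≤ x) (hx : x < x') (h1 : x' ≤ 1 / 2) (hc : 0 ≤ c)
    (hc' : c ≤ 1 / 2) (h : ∀ t ∈ Ioo x x', (Sn t + s) * (Sn X0 + s3) <
      (Sn x0 + s) * (Sn (t + c) + s3)) : H1 s s3 x0 X0 c x' < H1 s s3 x0 X0 c x := by
  have hanti : StrictAntiOn (H1 s s3 x0 X0 c) (Icc x x') := by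
    apply strictAntiOn_of_deriv_neg (convex_Icc _ _) (H1_continuous hs hs3 x0 X0 c).continuousOn
    intro t ht
    rw [interior_Icc] at ht
    have ht0 : 0 < Sn t + s := by
      have := Sn_pos (t := t) (by linarith only [ht.1, h0]) (by linarith only [ht.2, h1, hx, h0])
      linarith only [this, hs]
    have ht3 : 0 < Sn (t + c) + s3 := by
      have := Sn_pos (t := t + c) (by linarith only [ht.1, hc, h0]) (by linarith only [ht.2, hc',
                                                                          h1])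
      linarith only [this, hs3]
    rw [(H1_hasDerivAt (x0 := x0) (X0 := X0) hs hs3 ht0 ht3).deriv]
    have := dir1_lt ht0 hA ht3 hB (h t ht)
    linarith only [this]
  exact hanti ⟨le_rfl, hx.le⟩ ⟨hx.le, le_rfl⟩ hx

theorem H1_gt {s s3 x0 X0 c x x' : ℝ} (hs : 0 ≤ s) (hs3 : 0 ≤ s3) (hA : 0 < Sn x0 + s)
    (hB : 0 < Sn X0 + s3) (h0 : 0 ≤ x) (hx : x < x') (h1 : x' ≤ 1 / 2) (hc : 0 ≤ c)
    (hc' : c ≤ 1 / 2) (h : ∀ t ∈ Ioo x x', (Sn x0 + s) * (Sn (t + c) + s3) <
      (Sn t + s) * (Sn X0 + s3)) : H1 s s3 x0 X0 c x < H1 s s3 x0 X0 c x' := by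
  have hanti : StrictMonoOn (H1 s s3 x0 X0 c) (Icc x x') := by
    apply strictMonoOn_of_deriv_pos (convex_Icc _ _) (H1_continuous hs hs3 x0 X0 c).continuousOn
    intro t ht
    rw [interior_Icc] at ht
    have ht0 : 0 < Sn t + s := by
      have := Sn_pos (t := t) (by linarith only [ht.1, h0]) (by linarith only [ht.2, h1, hx, h0])
      linarith only [this, hs]
    have ht3 : 0 < Sn (t + c) + s3 := by
      have := Sn_pos (t := t + c) (by linarith only [ht.1, hc, h0]) (by linarith only [ht.2, hc',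
                                                                          h1])
      linarith only [this, hs3]
    rw [(H1_hasDerivAt (x0 := x0) (X0 := X0) hs hs3 ht0 ht3).deriv]
    have := dir1_gt ht0 hA ht3 hB (h t ht)
    linarith only [this]
  exact hanti ⟨le_rfl, hx.le⟩ ⟨hx.le, le_rfl⟩ hx

/-- First-order condition at a minimum, weight one, from the right. -/
theorem foc1_right {s s3 x0 X0 c x : ℝ} (hs : 0 ≤ s) (hs3 : 0 ≤ s3) (hA : 0 < Sn x0 + s)
    (hB : 0 < Sn X0 + s3) (h0 : 0 ≤ x) (h1 : x < 1 / 2) (hc : 0 ≤ c) (hc' : c ≤ 1 / 2)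
    (hm : ∀ x' ∈ Icc (0 : ℝ) (1 / 2), H1 s s3 x0 X0 c x ≤ H1 s s3 x0 X0 c x') :
    (Sn x0 + s) * (Sn (x + c) + s3) ≤ (Sn x + s) * (Sn X0 + s3) := by
  by_contra hcc
  rw [not_le] at hcc
  have hcont : ContinuousAt (fun t => (Sn x0 + s) * (Sn (t + c) + s3) -
      (Sn t + s) * (Sn X0 + s3)) x := by
    have c1 := Sn_continuous
    have c2 : Continuous (fun t => Sn (t + c)) := Sn_continuous.comp (by fun_prop)
    fun_prop
  have hev := hcont.eventually (lt_mem_nhds (show 0 < (Sn x0 + s) * (Sn (x + c) + s3) -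
      (Sn x + s) * (Sn X0 + s3) by linarith only [hcc]))
  obtain ⟨ε, hε, hb⟩ := Metric.eventually_nhds_iff.1 hev
  set x' := min (x + ε) (1 / 2) with hx'
  have h2 : x < x' := lt_min (by linarith only [hε]) h1
  have h3 := H1_lt hs hs3 hA hB h0 h2 (min_le_right _ _) hc hc' (by
    intro t ht
    have h4 : dist t x < ε := by
      rw [Real.dist_eq, abs_of_pos (by linarith only [ht.1])]
      have := min_le_left (x + ε) (1 / 2)
      linarith only [ht.2, this]
    have := hb h4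
    linarith only [this])
  have h5 := hm x' ⟨by linarith only [h2, h0], min_le_right _ _⟩
  linarith only [h5, h3]

/-- First-order condition at a minimum, weight one, from the left. -/
theorem foc1_left {s s3 x0 X0 c x : ℝ} (hs : 0 ≤ s) (hs3 : 0 ≤ s3) (hA : 0 < Sn x0 + s)
    (hB : 0 < Sn X0 + s3) (h0 : 0 < x) (h1 : x ≤ 1 / 2) (hc : 0 ≤ c) (hc' : c ≤ 1 / 2)
    (hm : ∀ x' ∈ Icc (0 : ℝ) (1 / 2), H1 s s3 x0 X0 c x ≤ H1 s s3 x0 X0 c x') :
    (Sn x + s) * (Sn X0 + s3) ≤ (Sn x0 + s) * (Sn (x + c) + s3) := by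
  by_contra hcc
  rw [not_le] at hcc
  have hcont : ContinuousAt (fun t => (Sn t + s) * (Sn X0 + s3) -
      (Sn x0 + s) * (Sn (t + c) + s3)) x := by
    have c1 := Sn_continuous
    have c2 : Continuous (fun t => Sn (t + c)) := Sn_continuous.comp (by fun_prop)
    fun_prop
  have hev := hcont.eventually (lt_mem_nhds (show 0 < (Sn x + s) * (Sn X0 + s3) -
      (Sn x0 + s) * (Sn (x + c) + s3) by linarith only [hcc]))
  obtain ⟨ε, hε, hb⟩ := Metric.eventually_nhds_iff.1 hev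
  set x' := max (x - ε) 0 with hx'
  have h2 : x' < x := max_lt (by linarith only [hε]) h0
  have h3 := H1_gt hs hs3 hA hB (le_max_right _ _) h2 h1 hc hc' (by
    intro t ht
    have h4 : dist t x < ε := by
      rw [Real.dist_eq, abs_of_neg (by linarith only [ht.2])]
      have := le_max_left (x - ε) 0
      linarith only [ht.1, this]
    have := hb h4
    linarith only [this])
  have h5 := hm x' ⟨le_max_right _ _, by linarith only [h2, h1]⟩
  linarith only [h5, h3]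

/-- Taylor on `[0, 1]`. -/
theorem taylor2 {g G Q : ℝ → ℝ} {κ : ℝ} (hg : ∀ r ∈ Icc (0 : ℝ) 1, HasDerivAt g (G r) r)
    (hG : ∀ r ∈ Icc (0 : ℝ) 1, HasDerivAt G (Q r) r) (h0 : g 0 = 0) (h1 : G 0 = 0)
    (hQ : ∀ r ∈ Icc (0 : ℝ) 1, κ ≤ Q r) : κ / 2 ≤ g 1 := by
  have m1 : MonotoneOn (fun r => G r - κ * r) (Icc (0 : ℝ) 1) := by
    apply monotoneOn_of_deriv_nonneg (convex_Icc 0 1)
    · intro r hr
      exact ((hG r hr).sub ((hasDerivAt_id r).const_mul κ)).continuousAt.continuousWithinAt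
    · intro r hr
      have hr' := interior_subset hr
      exact ((hG r hr').sub ((hasDerivAt_id r).const_mul κ)).differentiableAt.differentiableWithinAt
    · intro r hr
      have hr' := interior_subset hr
      have h := ((hG r hr').sub ((hasDerivAt_id r).const_mul κ)).deriv
      have h' : deriv (fun r => G r - κ * r) r = _ := h
      rw [h']
      have := hQ r hr'
      linarith only [this]
  have hGr : ∀ r ∈ Icc (0 : ℝ) 1, κ * r ≤ G r := by
    intro r hr
    have h := m1 (left_mem_Icc.2 zero_le_one) hr hr.1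
    simp only [h1, mul_zero, sub_zero] at h
    linarith only [h]
  have hd : ∀ r ∈ Icc (0 : ℝ) 1, HasDerivAt (fun r => g r - κ * r ^ 2 / 2) (G r - κ * r) r := by
    intro r hr
    have h6 := (hg r hr).sub (((hasDerivAt_pow 2 r).const_mul κ).div_const 2)
    refine h6.congr_deriv ?_
    norm_num
    ring
  have m2 : MonotoneOn (fun r => g r - κ * r ^ 2 / 2) (Icc (0 : ℝ) 1) := by
    apply monotoneOn_of_deriv_nonneg (convex_Icc 0 1)
    · intro r hr
      exact (hd r hr).continuousAt.continuousWithinAt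
    · intro r hr
      exact (hd r (interior_subset hr)).differentiableAt.differentiableWithinAt
    · intro r hr
      have hr' := interior_subset hr
      rw [(hd r hr').deriv]
      linarith only [hGr r hr']
  have h := m2 (left_mem_Icc.2 zero_le_one) (right_mem_Icc.2 zero_le_one) zero_le_one
  simp only [h0, ne_eq, OfNat.ofNat_ne_zero, not_false_eq_true, zero_pow, mul_zero, zero_div,
    sub_zero, one_pow, mul_one] at h
  linarith only [h]

/-- A positive definite form. -/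
theorem form2_nonneg {a b k d e : ℝ} (ha : 0 < a) (hd : 0 < a * b - k ^ 2) :
    0 ≤ a * d ^ 2 - 2 * k * (d * e) + b * e ^ 2 := by
  have h : 0 ≤ a * (a * d ^ 2 - 2 * k * (d * e) + b * e ^ 2) := by
    have e1 : a * (a * d ^ 2 - 2 * k * (d * e) + b * e ^ 2) =
        (a * d - k * e) ^ 2 + (a * b - k ^ 2) * e ^ 2 := by ring
    rw [e1]
    positivity
  exact nonneg_of_mul_nonneg_right h ha

/-- The neighbourhood of the critical point. -/
theorem SW_near {s1 s2 s3 p0 q0 : ℝ} (hs1 : 0 ≤ s1) (hs2 : 0 ≤ s2) (hs3 : 0 ≤ s3)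
    (hp0 : 0 < p0) (hp1 : p0 < 1 / 2) (hq0 : 0 < q0) (hq1 : q0 < 1 / 2)
    (k1 : 0 < 2 * Lp s1 p0 - Lp s3 (p0 + q0))
    (k2 : 0 < (2 * Lp s1 p0 - Lp s3 (p0 + q0)) * (Lp s2 q0 - Lp s3 (p0 + q0)) -
      Lp s3 (p0 + q0) ^ 2) :
    ∃ δ > 0, ∃ c > 0, ∀ p q : ℝ, |p - p0| < δ → |q - q0| < δ →
      c * ((p - p0) ^ 2 + (q - q0) ^ 2) ≤ SW s1 s2 s3 p0 q0 p q := by
  have hpos : ∀ {s t : ℝ}, 0 ≤ s → 0 < t → t < 1 → 0 < Real.sin (Real.pi * t) ^ 2 + s := by
    intro s t hs h0 h1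
    have := Sn_pos h0 h1
    unfold Sn at this
    linarith only [this, hs]
  -- continuity of the second derivatives
  have cA : ContinuousAt (fun z : ℝ × ℝ × ℝ => Lp s1 z.2.1) (0, p0, q0) :=
    ContinuousAt.comp (g := Lp s1) (f := fun z : ℝ × ℝ × ℝ => z.2.1)
      (Lp_continuousAt (hpos hs1 hp0 (by linarith only [hp1]))) (by fun_prop)
  have cB : ContinuousAt (fun z : ℝ × ℝ × ℝ => Lp s2 z.2.2) (0, p0, q0) :=
    ContinuousAt.comp (g := Lp s2) (f := fun z : ℝ × ℝ × ℝ => z.2.2)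
      (Lp_continuousAt (hpos hs2 hq0 (by linarith only [hq1, hp1, hp0]))) (by fun_prop)
  have cK : ContinuousAt (fun z : ℝ × ℝ × ℝ => Lp s3 (z.2.1 + z.2.2)) (0, p0, q0) :=
    ContinuousAt.comp (g := Lp s3) (f := fun z : ℝ × ℝ × ℝ => z.2.1 + z.2.2)
      (Lp_continuousAt (hpos hs3 (show 0 < p0 + q0 by linarith only [hq0, hp0]) (show p0 + q0 < 1 by linarith only [hq1,
                                                                                                       hp1])))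
      (by fun_prop)
  have c0 : ContinuousAt (fun z : ℝ × ℝ × ℝ => z.1) (0, p0, q0) := by fun_prop
  have c1 : ContinuousAt (fun z : ℝ × ℝ × ℝ => 2 * Lp s1 z.2.1 - Lp s3 (z.2.1 + z.2.2) - z.1)
      (0, p0, q0) := ((cA.const_mul 2).sub cK).sub c0
  have c2 : ContinuousAt (fun z : ℝ × ℝ × ℝ => (2 * Lp s1 z.2.1 - Lp s3 (z.2.1 + z.2.2) - z.1) *
      (Lp s2 z.2.2 - Lp s3 (z.2.1 + z.2.2) - z.1) - Lp s3 (z.2.1 + z.2.2) ^ 2)
      (0, p0, q0) := (c1.mul ((cB.sub cK).sub c0)).sub (cK.pow 2)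
  have e1 := c1.eventually (lt_mem_nhds (show (0 : ℝ) < 2 * Lp s1 p0 - Lp s3 (p0 + q0) - 0 by
    rw [sub_zero]
    exact k1))
  have e2 := c2.eventually (lt_mem_nhds (show (0 : ℝ) < (2 * Lp s1 p0 - Lp s3 (p0 + q0) - 0) *
      (Lp s2 q0 - Lp s3 (p0 + q0) - 0) - Lp s3 (p0 + q0) ^ 2 by
    rw [sub_zero, sub_zero]
    exact k2))
  obtain ⟨δ, hδ, hb⟩ := Metric.eventually_nhds_iff.1 (e1.and e2)
  set δ' := min (δ / 2) (min (min p0 q0) (min (1 / 2 - p0) (1 / 2 - q0))) with hδ'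
  have d1 : 0 < δ' := by
    rw [hδ']
    refine lt_min (by linarith only [hδ]) (lt_min (lt_min hp0 hq0) (lt_min (by linarith only [hp1]) (by linarith only [hq1])))
  have d2 : δ' ≤ δ / 2 := min_le_left _ _
  have d3 : δ' ≤ p0 := (min_le_right _ _).trans ((min_le_left _ _).trans (min_le_left _ _))
  have d4 : δ' ≤ q0 := (min_le_right _ _).trans ((min_le_left _ _).trans (min_le_right _ _))
  have d5 : δ' ≤ 1 / 2 - p0 := (min_le_right _ _).trans ((min_le_right _ _).trans (min_le_left _ _))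
  have d6 : δ' ≤ 1 / 2 - q0 := (min_le_right _ _).trans ((min_le_right _ _).trans (min_le_right _ _))
  refine ⟨δ', d1, δ / 4, by linarith only [hδ], ?_⟩
  intro p q hp hq
  rw [abs_lt] at hp hq
  set d := p - p0 with hd
  set e := q - q0 with he
  -- the points of the segment
  have hseg : ∀ r ∈ Icc (0 : ℝ) 1, 0 < p0 + r * d ∧ p0 + r * d < 1 / 2 ∧ 0 < q0 + r * e ∧
      q0 + r * e < 1 / 2 ∧ |r * d| < δ' ∧ |r * e| < δ' := by
    intro r hr
    have h1 : |r * d| < δ' := by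
      rw [abs_mul, abs_of_nonneg hr.1]
      have h2 : |d| < δ' := abs_lt.2 hp
      have h3 : r * |d| ≤ 1 * |d| := mul_le_mul_of_nonneg_right hr.2 (abs_nonneg _)
      linarith only [h3, h2]
    have h1' : |r * e| < δ' := by
      rw [abs_mul, abs_of_nonneg hr.1]
      have h2 : |e| < δ' := abs_lt.2 hq
      have h3 : r * |e| ≤ 1 * |e| := mul_le_mul_of_nonneg_right hr.2 (abs_nonneg _)
      linarith only [h3, h2]
    have h4 := abs_lt.1 h1
    have h5 := abs_lt.1 h1'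
    exact ⟨by linarith only [h4.1, d3], by linarith only [h4.2, d5], by linarith only [h5.1, d4], by linarith only [h5.2,
                                                                                                       d6], h1, h1'⟩
  have hl : ∀ (x0 c r : ℝ), HasDerivAt (fun r : ℝ => x0 + r * c) c r := fun x0 c r => by
    have h := ((hasDerivAt_id r).mul_const c).const_add x0
    simpa using h
  have hL : ∀ {s x0 c r : ℝ}, 0 < Real.sin (Real.pi * (x0 + r * c)) ^ 2 + s →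
      HasDerivAt (fun r : ℝ => Lq s (x0 + r * c)) (Lp s (x0 + r * c) * c) r := by
    intro s x0 c r h
    exact (Lq_hasDerivAt h).comp r (hl x0 c r)
  have hD : ∀ {s x0 c r : ℝ}, 0 ≤ s → 0 < Real.sin (Real.pi * (x0 + r * c)) ^ 2 + s →
      HasDerivAt (fun r : ℝ => Dq s x0 (x0 + r * c)) ((Lq s (x0 + r * c) - Lq s x0) * c) r := by
    intro s x0 c r hs h
    exact (Dq_hasDerivAt hs x0 h).comp r (hl x0 c r)
  have key := taylor2 (κ := δ / 2 * (d ^ 2 + e ^ 2))
    (g := fun r => 2 * Dq s1 p0 (p0 + r * d) + Dq s2 q0 (q0 + r * e) -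
      Dq s3 (p0 + q0) (p0 + q0 + r * (d + e)))
    (G := fun r => 2 * ((Lq s1 (p0 + r * d) - Lq s1 p0) * d) +
      (Lq s2 (q0 + r * e) - Lq s2 q0) * e -
      (Lq s3 (p0 + q0 + r * (d + e)) - Lq s3 (p0 + q0)) * (d + e))
    (Q := fun r => 2 * (Lp s1 (p0 + r * d) * d * d) + Lp s2 (q0 + r * e) * e * e -
      Lp s3 (p0 + q0 + r * (d + e)) * (d + e) * (d + e)) ?_ ?_ ?_ ?_ ?_
  · simp only [one_mul] at key
    have e3 : p0 + d = p := by rw [hd]; ring
    have e4 : q0 + e = q := by rw [he]; ring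
    have e5 : p0 + q0 + (d + e) = p + q := by rw [hd, he]; ring
    rw [e3, e4, e5] at key
    unfold SW
    linarith only [key]
  · intro r hr
    obtain ⟨a1, a2, a3, a4, a5, a6⟩ := hseg r hr
    have b1 := (hD hs1 (hpos hs1 a1 (by linarith only [a2, d5, d1, hp0]))).const_mul 2
    have b2 := hD hs2 (hpos hs2 a3 (by linarith only [a4, d5, d1, hp0]))
    have b3 : HasDerivAt (fun r : ℝ => Dq s3 (p0 + q0) (p0 + q0 + r * (d + e)))
        ((Lq s3 (p0 + q0 + r * (d + e)) - Lq s3 (p0 + q0)) * (d + e)) r :=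
      hD hs3 (hpos hs3 (by linarith only [a3, a1]) (by linarith only [a4, a2]))
    exact (b1.add b2).sub b3
  · intro r hr
    obtain ⟨a1, a2, a3, a4, a5, a6⟩ := hseg r hr
    have b1 := (((hL (hpos hs1 a1 (by linarith only [a2, d5, d1, hp0]))).sub_const (Lq s1 p0)).mul_const d).const_mul 2
    have b2 := ((hL (hpos hs2 a3 (by linarith only [a4, d5, d1, hp0]))).sub_const (Lq s2 q0)).mul_const e
    have b3 : HasDerivAt (fun r : ℝ => (Lq s3 (p0 + q0 + r * (d + e)) - Lq s3 (p0 + q0)) * (d + e))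
        (Lp s3 (p0 + q0 + r * (d + e)) * (d + e) * (d + e)) r :=
      ((hL (hpos hs3 (by linarith only [a3, a1]) (by linarith only [a4, a2]))).sub_const (Lq s3 (p0 + q0))).mul_const (d + e)
    exact (b1.add b2).sub b3
  · simp [Dq_self]
  · simp
  · intro r hr
    obtain ⟨a1, a2, a3, a4, a5, a6⟩ := hseg r hr
    have hz : dist ((δ / 2, p0 + r * d, q0 + r * e) : ℝ × ℝ × ℝ) (0, p0, q0) < δ := by
      rw [Prod.dist_eq, Prod.dist_eq]
      simp only [Real.dist_eq, sub_zero, add_sub_cancel_left]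
      rw [abs_of_pos (by linarith only [hδ] : 0 < δ / 2)]
      exact max_lt (by linarith only [hδ]) (max_lt (by linarith only [a5, d2, d1]) (by linarith only [a6,
                                                                                         d2, d1]))
    have hh := hb hz
    simp only at hh
    obtain ⟨h1, h2⟩ := hh
    have e3 : p0 + q0 + r * (d + e) = p0 + r * d + (q0 + r * e) := by ring
    rw [e3]
    have h3 := form2_nonneg (d := d) (e := e) h1 h2
    linarith only [h3]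

/-- **Positivity from the absence of other critical points**, weights `2` and `1`. -/
theorem SW_of_foc {s1 s2 s3 p0 q0 h : ℝ} (hs1 : 0 ≤ s1) (hs2 : 0 ≤ s2) (hs3 : 0 ≤ s3)
    (hp0 : 0 < p0) (hp1 : p0 < 1 / 2) (hq0 : 0 < q0) (hq1 : q0 < 1 / 2)
    (k1 : 0 < 2 * Lp s1 p0 - Lp s3 (p0 + q0))
    (k2 : 0 < (2 * Lp s1 p0 - Lp s3 (p0 + q0)) * (Lp s2 q0 - Lp s3 (p0 + q0)) -
      Lp s3 (p0 + q0) ^ 2)
    (hC : ∀ p q : ℝ, 0 ≤ p → 0 ≤ q → p + q < h → 0 < SW s1 s2 s3 p0 q0 p q)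
    (hN : ∀ p ∈ Icc (0 : ℝ) (1 / 2), ∀ q ∈ Icc (0 : ℝ) (1 / 2), h ≤ p + q →
      (p < 1 / 2 →
        (Sn p0 + s1) ^ 2 * (Sn (p + q) + s3) ≤ (Sn p + s1) ^ 2 * (Sn (p0 + q0) + s3)) →
      (0 < p → (Sn p + s1) ^ 2 * (Sn (p0 + q0) + s3) ≤ (Sn p0 + s1) ^ 2 * (Sn (p + q) + s3)) →
      (q < 1 / 2 → (Sn q0 + s2) * (Sn (p + q) + s3) ≤ (Sn q + s2) * (Sn (p0 + q0) + s3)) →
      (0 < q → (Sn q + s2) * (Sn (p0 + q0) + s3) ≤ (Sn q0 + s2) * (Sn (p + q) + s3)) →
      p = p0 ∧ q = q0) :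
    ∃ c > 0, ∀ p ∈ Icc (0 : ℝ) (1 / 2), ∀ q ∈ Icc (0 : ℝ) (1 / 2),
      c * ((p - p0) ^ 2 + (q - q0) ^ 2) ≤ SW s1 s2 s3 p0 q0 p q := by
  have hcont := SW_continuous hs1 hs2 hs3 p0 q0
  have hcomp : IsCompact (Icc (0 : ℝ) (1 / 2) ×ˢ Icc (0 : ℝ) (1 / 2)) :=
    isCompact_Icc.prod isCompact_Icc
  have hA2 : 0 < Sn q0 + s2 := by
    have := Sn_pos hq0 (by linarith only [hq1, hp1, hp0])
    linarith only [this, hs2]
  have hB : 0 < Sn (p0 + q0) + s3 := by
    have := Sn_pos (t := p0 + q0) (by linarith only [hq0, hp0]) (by linarith only [hq1, hp1])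
    linarith only [this, hs3]
  -- a minimal point is the critical point
  have hcrit : ∀ z ∈ Icc (0 : ℝ) (1 / 2) ×ˢ Icc (0 : ℝ) (1 / 2),
      (∀ w ∈ Icc (0 : ℝ) (1 / 2) ×ˢ Icc (0 : ℝ) (1 / 2),
        SW s1 s2 s3 p0 q0 z.1 z.2 ≤ SW s1 s2 s3 p0 q0 w.1 w.2) → z = (p0, q0) := by
    rintro ⟨p, q⟩ ⟨hp, hq⟩ hm
    simp only at hp hq hm
    have h0 : SW s1 s2 s3 p0 q0 p q ≤ 0 := by
      have := hm (p0, q0) ⟨⟨hp0.le, hp1.le⟩, ⟨hq0.le, hq1.le⟩⟩
      rwa [SW_self] at this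
    have hh : h ≤ p + q := by
      by_contra hc
      have := hC p q hp.1 hq.1 (not_le.1 hc)
      linarith only [this, h0]
    have m1 : ∀ p' ∈ Icc (0 : ℝ) (1 / 2), SS s1 s2 s3 p0 q0 p q ≤ SS s1 s2 s3 p0 q0 p' q := by
      intro p' hp'
      have := hm (p', q) ⟨hp', hq⟩
      simp only [SW_eq] at this
      linarith only [this]
    have m2 : ∀ q' ∈ Icc (0 : ℝ) (1 / 2),
        H1 s2 s3 q0 (p0 + q0) p q ≤ H1 s2 s3 q0 (p0 + q0) p q' := by
      intro q' hq'
      have := hm (p, q') ⟨hp, hq'⟩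
      unfold SW at this
      unfold H1
      simp only at this
      rw [add_comm q p, add_comm q' p]
      linarith only [this]
    have h1 := hN p hp q hq hh
      (fun h => foc_right hs1 hs3 hp0 hp1 hq0 hq1 hp.1 h hq.1 hq.2 m1)
      (fun h => foc_left hs1 hs3 hp0 hp1 hq0 hq1 h hp.2 hq.1 hq.2 m1)
      (fun h => by
        have := foc1_right hs2 hs3 hA2 hB hq.1 h hp.1 hp.2 m2
        rwa [add_comm q p] at this)
      (fun h => by
        have := foc1_left hs2 hs3 hA2 hB h hq.2 hp.1 hp.2 m2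
        rwa [add_comm q p] at this)
    rw [h1.1, h1.2]
  have hpos : ∀ z ∈ Icc (0 : ℝ) (1 / 2) ×ˢ Icc (0 : ℝ) (1 / 2), z ≠ (p0, q0) →
      0 < SW s1 s2 s3 p0 q0 z.1 z.2 := by
    obtain ⟨z0, hz0, hm⟩ := hcomp.exists_isMinOn ⟨(0, 0), by simp, by simp⟩ hcont.continuousOn
    have e0 := hcrit z0 hz0 (fun w hw => hm hw)
    intro z hz hne
    have h0 : ∀ w ∈ Icc (0 : ℝ) (1 / 2) ×ˢ Icc (0 : ℝ) (1 / 2), 0 ≤ SW s1 s2 s3 p0 q0 w.1 w.2 := by
      intro w hw
      have h1 := hm hw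
      rw [e0] at h1
      simp only [mem_ofPred_eq, SW_self] at h1
      exact h1
    rcases (h0 z hz).lt_or_eq with h1 | h1
    · exact h1
    · exfalso
      apply hne
      apply hcrit z hz
      intro w hw
      rw [← h1]
      exact h0 w hw
  -- the neighbourhood of the critical point
  obtain ⟨δ, hδ, c1, hc1, hK⟩ := SW_near hs1 hs2 hs3 hp0 hp1 hq0 hq1 k1 k2
  set δ' := min δ p0 with hδ'
  have hδ0 : 0 < δ' := lt_min hδ hp0
  -- the rest
  set R : Set (ℝ × ℝ) := (Icc (0 : ℝ) (1 / 2) ×ˢ Icc (0 : ℝ) (1 / 2)) ∩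
    {z | δ' ≤ |z.1 - p0| ∨ δ' ≤ |z.2 - q0|} with hR
  have hRc : IsCompact R := by
    apply hcomp.inter_right
    apply IsClosed.union
    · exact isClosed_le continuous_const (continuous_fst.sub continuous_const).abs
    · exact isClosed_le continuous_const (continuous_snd.sub continuous_const).abs
  have hRne : R.Nonempty := by
    refine ⟨(0, 0), ⟨⟨by simp, by simp⟩, Or.inl ?_⟩⟩
    simp only [zero_sub, abs_neg]
    rw [abs_of_pos hp0]
    exact min_le_right _ _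
  obtain ⟨z1, hz1, hm1⟩ := hRc.exists_isMinOn hRne hcont.continuousOn
  have hv : 0 < SW s1 s2 s3 p0 q0 z1.1 z1.2 := by
    apply hpos z1 hz1.1
    intro he
    rcases hz1.2 with h1 | h1
    · rw [he] at h1
      simp only [sub_self, abs_zero] at h1
      linarith only [h1, hδ0]
    · rw [he] at h1
      simp only [sub_self, abs_zero] at h1
      linarith only [h1, hδ0]
  set v := SW s1 s2 s3 p0 q0 z1.1 z1.2 with hvdef
  refine ⟨min c1 v, lt_min hc1 hv, ?_⟩
  intro p hp q hq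
  have hd0 : 0 ≤ (p - p0) ^ 2 + (q - q0) ^ 2 := by positivity
  by_cases hin : δ' ≤ |p - p0| ∨ δ' ≤ |q - q0|
  · have h1 : v ≤ SW s1 s2 s3 p0 q0 p q := hm1 (a := (p, q)) ⟨⟨hp, hq⟩, hin⟩
    simp only [mem_Icc] at hp hq
    have hdist : (p - p0) ^ 2 + (q - q0) ^ 2 ≤ 1 := by
      have h1 : (p - p0) ^ 2 ≤ (1 / 2) ^ 2 := sq_le_sq' (by linarith only [hp.1, hp1]) (by linarith only [hp.2,
                                                                                             hp0])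
      have h2 : (q - q0) ^ 2 ≤ (1 / 2) ^ 2 := sq_le_sq' (by linarith only [hq.1, hq1]) (by linarith only [hq.2,
                                                                                             hq0])
      linarith only [h2, h1, hp1, hp0]
    have h2 : min c1 v * ((p - p0) ^ 2 + (q - q0) ^ 2) ≤ min c1 v * 1 :=
      mul_le_mul_of_nonneg_left hdist (lt_min hc1 hv).le
    have h3 := min_le_right c1 v
    linarith only [h3, h2, h1]
  · rw [not_or, not_le, not_le] at hin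
    have h4 : δ' ≤ δ := min_le_left _ _
    have h1 := hK p q (by linarith only [h4, hin.1]) (by linarith only [h4, hin.2])
    have h2 : min c1 v * ((p - p0) ^ 2 + (q - q0) ^ 2) ≤ c1 * ((p - p0) ^ 2 + (q - q0) ^ 2) :=
      mul_le_mul_of_nonneg_right (min_le_left _ _) hd0
    linarith only [h2, h1]

end Pool.Agent.S5.C2
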