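import Pool.Agent.S5.I.W2a

/-!
# Closed vertices with two half twists, weights `2` and `1`: the inequalities
-/

set_option autoImplicit false

namespace Pool.Agent.S5.C2

open MeasureTheory Filter Topology Set

/-- The slope at the critical point. -/
noncomputable def Es (a0 b0 s1 s2 : ℝ) : ℝ :=
  (√(1 - a0) * √(1 - b0) - √a0 * √b0) *
    ((a0 + s1) / (2 * (√a0 * √(1 - a0))) + (b0 + s2) / (√b0 * √(1 - b0)))

theorem fo_eq {a0 b0 : ℝ} (ha0 : 0 ≤ a0) (hb0 : 0 ≤ b0) :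
    fo a0 b0 = √a0 * √(1 - b0) + √b0 * √(1 - a0) := by
  unfold fo
  rw [Real.sqrt_mul ha0, Real.sqrt_mul hb0]

/-- The first root, tangent. -/
theorem tanU {sp sq cq s1 s2 x u : ℝ} (hsp : 0 < sp) (hcq : 0 < cq)
    (eq : sq ^ 2 + cq ^ 2 = 1) (hs2 : 0 ≤ s2)
    (ha : 0 ≤ (sp ^ 2 + s1) * x - s1) (hb1 : (sq ^ 2 + s2) * x ^ 2 - s2 ≤ 1)
    (hu2 : u ^ 2 ≤ ((sp ^ 2 + s1) * x - s1) * (1 - ((sq ^ 2 + s2) * x ^ 2 - s2))) :
    u ≤ sp * cq + (x - 1) * (((sp ^ 2 + s1) * cq ^ 2 - 2 * (sq ^ 2 + s2) * sp ^ 2) /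
      (2 * (sp * cq))) := by
  set a := (sp ^ 2 + s1) * x - s1 with hae
  set b := (sq ^ 2 + s2) * x ^ 2 - s2 with hbe
  have h1 : 2 * (sp * cq) * u ≤ a * cq ^ 2 + (1 - b) * sp ^ 2 := by
    have h2 : (2 * (sp * cq) * u) ^ 2 ≤ (a * cq ^ 2 + (1 - b) * sp ^ 2) ^ 2 := by
      have h3 : 4 * (sp ^ 2 * cq ^ 2) * u ^ 2 ≤ 4 * (sp ^ 2 * cq ^ 2) * (a * (1 - b)) :=
        mul_le_mul_of_nonneg_left hu2 (by positivity)
      have h4 : (a * cq ^ 2 + (1 - b) * sp ^ 2) ^ 2 = (a * cq ^ 2 - (1 - b) * sp ^ 2) ^ 2 +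
          4 * (sp ^ 2 * cq ^ 2) * (a * (1 - b)) := by ring
      have h5 : (2 * (sp * cq) * u) ^ 2 = 4 * (sp ^ 2 * cq ^ 2) * u ^ 2 := by ring
      rw [h4, h5]
      linarith [sq_nonneg (a * cq ^ 2 - (1 - b) * sp ^ 2)]
    have h4 : 0 ≤ a * cq ^ 2 + (1 - b) * sp ^ 2 := by
      have : 0 ≤ 1 - b := by linarith
      positivity
    exact le_of_sq_le_sq h2 h4
  have h5 : 2 * (sp * cq) * u ≤ 2 * (sp * cq) * (sp * cq) +
      (x - 1) * ((sp ^ 2 + s1) * cq ^ 2 - 2 * (sq ^ 2 + s2) * sp ^ 2) := by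
    have h6 : 0 ≤ (sq ^ 2 + s2) * ((x - 1) ^ 2 * sp ^ 2) := by positivity
    have h7 : a * cq ^ 2 + (1 - b) * sp ^ 2 = 2 * (sp * cq) * (sp * cq) +
        (x - 1) * ((sp ^ 2 + s1) * cq ^ 2 - 2 * (sq ^ 2 + s2) * sp ^ 2) -
        (sq ^ 2 + s2) * ((x - 1) ^ 2 * sp ^ 2) := by
      rw [hae, hbe]
      have : (1 : ℝ) = sq ^ 2 + cq ^ 2 := eq.symm
      linear_combination (-sp ^ 2) * eq
    linarith
  have hpos : 0 < 2 * (sp * cq) := by positivity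
  have h8 : u * (2 * (sp * cq)) ≤ (sp * cq + (x - 1) *
      (((sp ^ 2 + s1) * cq ^ 2 - 2 * (sq ^ 2 + s2) * sp ^ 2) / (2 * (sp * cq)))) *
      (2 * (sp * cq)) := by
    have h9 : (sp * cq + (x - 1) *
      (((sp ^ 2 + s1) * cq ^ 2 - 2 * (sq ^ 2 + s2) * sp ^ 2) / (2 * (sp * cq)))) *
      (2 * (sp * cq)) = 2 * (sp * cq) * (sp * cq) +
      (x - 1) * ((sp ^ 2 + s1) * cq ^ 2 - 2 * (sq ^ 2 + s2) * sp ^ 2) := by
      field_simp
    rw [h9]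
    linarith
  exact le_of_mul_le_mul_right h8 hpos

/-- The second root, tangent. -/
theorem tanV {sp cp sq s1 s2 x v : ℝ} (hcp : 0 < cp) (hsq : 0 < sq)
    (ep : sp ^ 2 + cp ^ 2 = 1) (hs2 : 0 ≤ s2) (hx : 0 ≤ x)
    (ha1 : (sp ^ 2 + s1) * x - s1 ≤ 1) (hb : 0 ≤ (sq ^ 2 + s2) * x ^ 2 - s2)
    (hA : 0 < sp ^ 2 + s1)
    (hv2 : v ^ 2 ≤ ((sq ^ 2 + s2) * x ^ 2 - s2) * (1 - ((sp ^ 2 + s1) * x - s1))) :
    v ≤ sq * cp + (x - 1) * ((2 * (sq ^ 2 + s2) * cp ^ 2 - (sp ^ 2 + s1) * sq ^ 2) /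
      (2 * (sq * cp))) := by
  obtain ⟨t, rfl⟩ : ∃ t, x = 1 + t := ⟨x - 1, by ring⟩
  set A1 := sp ^ 2 + s1 with hA1
  set A2 := sq ^ 2 + s2 with hA2
  have hA2p : 0 < A2 := by positivity
  have eb : A2 * (1 + t) ^ 2 - s2 = sq ^ 2 + 2 * A2 * t + A2 * t ^ 2 := by
    rw [hA2]
    ring
  have ea : 1 - (A1 * (1 + t) - s1) = cp ^ 2 - A1 * t := by
    rw [hA1]
    linear_combination (-1 : ℝ) * ep
  rw [ea, eb] at hv2
  have ha1' : 0 ≤ cp ^ 2 - A1 * t := by linarith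
  rw [eb] at hb
  -- the first factor
  have hf : 0 ≤ sq ^ 2 + A2 * t := by
    by_contra hc
    rw [not_le] at hc
    -- `A2 (1 + t) < s2`
    have h1 : A2 * (1 + t) < s2 := by
      have : A2 * (1 + t) = A2 + A2 * t := by ring
      rw [this, hA2]
      rw [hA2] at hc
      linarith
    have h2 : A2 * (1 + t) ^ 2 - s2 < 0 := by
      have h3 : (A2 * (1 + t)) * (1 + t) ≤ s2 * (1 + t) := mul_le_mul_of_nonneg_right h1.le hx
      have h4 : 1 + t < 1 := by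
        by_contra h5
        rw [not_lt] at h5
        have : A2 * 1 ≤ A2 * (1 + t) := mul_le_mul_of_nonneg_left h5 hA2p.le
        have h6 : s2 ≤ A2 := by
          rw [hA2]
          linarith [sq_nonneg sq]
        linarith
      rcases hs2.eq_or_lt with h5 | h5
      · rw [← h5] at h1
        have : 0 ≤ A2 * (1 + t) := mul_nonneg hA2p.le hx
        linarith
      · have : s2 * (1 + t) < s2 * 1 := mul_lt_mul_of_pos_left h4 h5
        have h6 : A2 * (1 + t) ^ 2 = (A2 * (1 + t)) * (1 + t) := by ring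
        linarith
    rw [eb] at h2
    linarith
  have hg : 0 ≤ 2 * cp ^ 2 - A1 * t := by linarith [sq_nonneg cp]
  have h1 : 2 * (sq * cp) * v ≤ (sq ^ 2 + A2 * t) * (2 * cp ^ 2 - A1 * t) := by
    have h2 : (2 * (sq * cp) * v) ^ 2 ≤ ((sq ^ 2 + A2 * t) * (2 * cp ^ 2 - A1 * t)) ^ 2 := by
      have h3 : 4 * (sq ^ 2 * cp ^ 2) * v ^ 2 ≤ 4 * (sq ^ 2 * cp ^ 2) *
          ((sq ^ 2 + 2 * A2 * t + A2 * t ^ 2) * (cp ^ 2 - A1 * t)) :=
        mul_le_mul_of_nonneg_left hv2 (by positivity)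
      have h4 : sq ^ 2 * (sq ^ 2 + 2 * A2 * t + A2 * t ^ 2) ≤ (sq ^ 2 + A2 * t) ^ 2 := by
        have h5 : 0 ≤ s2 * (A2 * t ^ 2) := by positivity
        have h6 : (sq ^ 2 + A2 * t) ^ 2 - sq ^ 2 * (sq ^ 2 + 2 * A2 * t + A2 * t ^ 2) =
            s2 * (A2 * t ^ 2) := by
          rw [hA2]
          ring
        linarith
      have h7 : 4 * cp ^ 2 * (cp ^ 2 - A1 * t) ≤ (2 * cp ^ 2 - A1 * t) ^ 2 := by
        have h6 : (2 * cp ^ 2 - A1 * t) ^ 2 = 4 * cp ^ 2 * (cp ^ 2 - A1 * t) + (A1 * t) ^ 2 := by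
          ring
        linarith [sq_nonneg (A1 * t)]
      have h8 : (sq ^ 2 * (sq ^ 2 + 2 * A2 * t + A2 * t ^ 2)) * (4 * cp ^ 2 * (cp ^ 2 - A1 * t)) ≤
          (sq ^ 2 + A2 * t) ^ 2 * (2 * cp ^ 2 - A1 * t) ^ 2 := by
        apply mul_le_mul h4 h7
        · positivity
        · positivity
      have h9 : (2 * (sq * cp) * v) ^ 2 = 4 * (sq ^ 2 * cp ^ 2) * v ^ 2 := by ring
      have h10 : 4 * (sq ^ 2 * cp ^ 2) * ((sq ^ 2 + 2 * A2 * t + A2 * t ^ 2) * (cp ^ 2 - A1 * t)) =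
          (sq ^ 2 * (sq ^ 2 + 2 * A2 * t + A2 * t ^ 2)) * (4 * cp ^ 2 * (cp ^ 2 - A1 * t)) := by
        ring
      rw [h9, mul_pow]
      linarith
    exact le_of_sq_le_sq h2 (mul_nonneg hf hg)
  have h5 : 2 * (sq * cp) * v ≤ 2 * (sq * cp) * (sq * cp) +
      t * (2 * A2 * cp ^ 2 - A1 * sq ^ 2) := by
    have h6 : 0 ≤ A1 * A2 * t ^ 2 := by positivity
    have h7 : (sq ^ 2 + A2 * t) * (2 * cp ^ 2 - A1 * t) = 2 * (sq * cp) * (sq * cp) +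
        t * (2 * A2 * cp ^ 2 - A1 * sq ^ 2) - A1 * A2 * t ^ 2 := by ring
    linarith
  have hpos : 0 < 2 * (sq * cp) := by positivity
  have h8 : v * (2 * (sq * cp)) ≤ (sq * cp + (1 + t - 1) *
      ((2 * A2 * cp ^ 2 - A1 * sq ^ 2) / (2 * (sq * cp)))) * (2 * (sq * cp)) := by
    have h9 : (sq * cp + (1 + t - 1) *
      ((2 * A2 * cp ^ 2 - A1 * sq ^ 2) / (2 * (sq * cp)))) * (2 * (sq * cp)) =
      2 * (sq * cp) * (sq * cp) + t * (2 * A2 * cp ^ 2 - A1 * sq ^ 2) := by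
      field_simp
      ring
    rw [h9]
    linarith
  exact le_of_mul_le_mul_right h8 hpos

theorem Es_id {sp cp sq cq A1 A2 : ℝ} (hsp : sp ≠ 0) (hcp : cp ≠ 0) (hsq : sq ≠ 0)
    (hcq : cq ≠ 0) : (A1 * cq ^ 2 - 2 * A2 * sp ^ 2) / (2 * (sp * cq)) +
      (2 * A2 * cp ^ 2 - A1 * sq ^ 2) / (2 * (sq * cp)) =
      (cp * cq - sp * sq) * (A1 / (2 * (sp * cp)) + A2 / (sq * cq)) := by
  field_simp
  ring

/-- The tangent inequality of the sum of the roots. -/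
theorem tan_x {a0 b0 s1 s2 x u v : ℝ} (ha0 : 0 < a0) (ha1 : a0 < 1) (hb0 : 0 < b0) (hb1 : b0 < 1)
    (hs1 : 0 ≤ s1) (hs2 : 0 ≤ s2) (hx : 0 ≤ x) (ha : 0 ≤ (a0 + s1) * x - s1)
    (haa : (a0 + s1) * x - s1 ≤ 1) (hb : 0 ≤ (b0 + s2) * x ^ 2 - s2)
    (hbb : (b0 + s2) * x ^ 2 - s2 ≤ 1)
    (hu2 : u ^ 2 ≤ ((a0 + s1) * x - s1) * (1 - ((b0 + s2) * x ^ 2 - s2)))
    (hv2 : v ^ 2 ≤ ((b0 + s2) * x ^ 2 - s2) * (1 - ((a0 + s1) * x - s1))) :
    u + v ≤ fo a0 b0 + Es a0 b0 s1 s2 * (x - 1) := by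
  have hsp : 0 < √a0 := Real.sqrt_pos.2 ha0
  have hcp : 0 < √(1 - a0) := Real.sqrt_pos.2 (by linarith)
  have hsq : 0 < √b0 := Real.sqrt_pos.2 hb0
  have hcq : 0 < √(1 - b0) := Real.sqrt_pos.2 (by linarith)
  have e1 : √a0 ^ 2 = a0 := Real.sq_sqrt ha0.le
  have e2 : √(1 - a0) ^ 2 = 1 - a0 := Real.sq_sqrt (by linarith)
  have e3 : √b0 ^ 2 = b0 := Real.sq_sqrt hb0.le
  have e4 : √(1 - b0) ^ 2 = 1 - b0 := Real.sq_sqrt (by linarith)
  have r1 := tanU (sp := √a0) (sq := √b0) (cq := √(1 - b0)) (s1 := s1) (s2 := s2)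
    (x := x) (u := u) hsp hcq (by rw [e3, e4]; ring) hs2
    (by rw [e1]; exact ha) (by rw [e3]; exact hbb) (by rw [e1, e3]; exact hu2)
  have r2 := tanV (sp := √a0) (cp := √(1 - a0)) (sq := √b0) (s1 := s1) (s2 := s2)
    (x := x) (v := v) hcp hsq (by rw [e1, e2]; ring) hs2 hx
    (by rw [e1]; exact haa) (by rw [e3]; exact hb) (by rw [e1]; linarith)
    (by rw [e1, e3]; exact hv2)
  have e5 : ((√a0 ^ 2 + s1) * √(1 - b0) ^ 2 - 2 * (√b0 ^ 2 + s2) * √a0 ^ 2) /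
      (2 * (√a0 * √(1 - b0))) + (2 * (√b0 ^ 2 + s2) * √(1 - a0) ^ 2 - (√a0 ^ 2 + s1) * √b0 ^ 2) /
      (2 * (√b0 * √(1 - a0))) = Es a0 b0 s1 s2 := by
    rw [Es_id hsp.ne' hcp.ne' hsq.ne' hcq.ne', e1, e3]
    rfl
  rw [fo_eq ha0.le hb0.le, ← e5]
  linarith

/-- The root of `A x² - s` is concave. -/
theorem sqrt_quad {A s xe l : ℝ} (hs : 0 ≤ s) (hA : s ≤ A) (hxe : xe ≤ 1)
    (hb : 0 ≤ A * xe ^ 2 - s) (hxe0 : 0 ≤ xe) (hl : 0 ≤ l) (hl1 : l ≤ 1) :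
    (l * √(A * xe ^ 2 - s) + (1 - l) * √(A - s)) ^ 2 ≤ A * (l * xe + (1 - l)) ^ 2 - s := by
  have hA0 : 0 ≤ A := hs.trans hA
  have e1 : √(A * xe ^ 2 - s) ^ 2 = A * xe ^ 2 - s := Real.sq_sqrt hb
  have e2 : √(A - s) ^ 2 = A - s := Real.sq_sqrt (by linarith)
  have h0 : 0 ≤ A * xe - s := by
    have h1 := mul_nonneg hA0 (mul_nonneg hxe0 (sub_nonneg.2 hxe))
    have h2 : A * (xe * (1 - xe)) = A * xe - A * xe ^ 2 := by ring
    linarith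
  have h1 : √(A * xe ^ 2 - s) * √(A - s) ≤ A * xe - s := by
    rw [← Real.sqrt_mul hb]
    apply Real.sqrt_le_iff.2 ⟨h0, ?_⟩
    have : 0 ≤ s * (A * (xe - 1) ^ 2) := by positivity
    have h2 : (A * xe - s) ^ 2 = (A * xe ^ 2 - s) * (A - s) + s * (A * (xe - 1) ^ 2) := by ring
    linarith
  have h2 : 0 ≤ l * (1 - l) := mul_nonneg hl (by linarith)
  have h3 : l * (1 - l) * (√(A * xe ^ 2 - s) * √(A - s)) ≤ l * (1 - l) * (A * xe - s) :=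
    mul_le_mul_of_nonneg_left h1 h2
  have e3 : (l * √(A * xe ^ 2 - s) + (1 - l) * √(A - s)) ^ 2 = l ^ 2 * √(A * xe ^ 2 - s) ^ 2 +
      (1 - l) ^ 2 * √(A - s) ^ 2 + 2 * (l * (1 - l) * (√(A * xe ^ 2 - s) * √(A - s))) := by ring
  rw [e3, e1, e2]
  have e4 : A * (l * xe + (1 - l)) ^ 2 - s = l ^ 2 * (A * xe ^ 2 - s) + (1 - l) ^ 2 * (A - s) +
      2 * (l * (1 - l) * (A * xe - s)) := by ring
  linarith

/-- `x < 1`: strict positivity from one point. -/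
theorem G_lt {a0 b0 s1 s2 s3 x xe u v f1 a b : ℝ} (ha0 : 0 < a0) (ha1 : a0 < 1) (hb0 : 0 < b0)
    (hb1 : b0 < 1) (hs1 : 0 ≤ s1) (hs2 : 0 ≤ s2) (hs3 : 0 ≤ s3) (hxe : xe ≤ x) (hx1 : x < 1)
    (hxe0 : 0 ≤ xe) (hf1 : f1 = fo a0 b0)
    (hae : 0 ≤ (a0 + s1) * xe - s1) (hbe : 0 ≤ (b0 + s2) * xe ^ 2 - s2) (hu : 0 ≤ u)
    (hu2 : u ^ 2 ≤ ((a0 + s1) * xe - s1) * (1 - ((b0 + s2) * xe ^ 2 - s2)))
    (hv2 : v ^ 2 ≤ ((b0 + s2) * xe ^ 2 - s2) * (1 - ((a0 + s1) * xe - s1)))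
    (hF : (f1 ^ 2 + s3) * xe < f1 * (u + v) + s3)
    (ha : a = (a0 + s1) * x - s1) (hb : b = (b0 + s2) * x ^ 2 - s2) :
    (f1 ^ 2 + s3) * x ^ 2 < (√(a * (1 - b)) + √(b * (1 - a))) ^ 2 + s3 := by
  have hxe1 : xe < 1 := lt_of_le_of_lt hxe hx1
  have hx0 : 0 ≤ x := hxe0.trans hxe
  set l := (1 - x) / (1 - xe) with hl
  have hd : 0 < 1 - xe := by linarith
  have hlm : l * (1 - xe) = 1 - x := by
    rw [hl]
    field_simp
  have hl0 : 0 < l := by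
    rw [hl]
    apply div_pos (by linarith) hd
  have hl1 : l ≤ 1 := by
    rw [hl, div_le_one hd]
    linarith
  have hxl : x = l * xe + (1 - l) := by linarith
  have ea : a = l * ((a0 + s1) * xe - s1) + (1 - l) * a0 := by
    rw [ha, hxl]
    ring
  have ea' : 1 - a = l * (1 - ((a0 + s1) * xe - s1)) + (1 - l) * (1 - a0) := by
    rw [ea]
    ring
  have hae1 : (a0 + s1) * xe - s1 ≤ a0 := by
    have : (a0 + s1) * xe ≤ (a0 + s1) * 1 := mul_le_mul_of_nonneg_left hxe1.le (by linarith)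
    linarith
  have hbe1 : (b0 + s2) * xe ^ 2 - s2 ≤ b0 := by
    have h1 : xe ^ 2 ≤ 1 := pow_le_one₀ hxe0 hxe1.le
    have : (b0 + s2) * xe ^ 2 ≤ (b0 + s2) * 1 := mul_le_mul_of_nonneg_left h1 (by linarith)
    linarith
  have hA1' : 0 ≤ a := by
    rw [ea]
    have := mul_nonneg hl0.le hae
    have := mul_nonneg (sub_nonneg.2 hl1) ha0.le
    linarith
  have hA1'' : 0 ≤ 1 - a := by
    rw [ea']
    have := mul_nonneg hl0.le (show 0 ≤ 1 - ((a0 + s1) * xe - s1) by linarith)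
    have := mul_nonneg (sub_nonneg.2 hl1) (show 0 ≤ 1 - a0 by linarith)
    linarith
  -- the first root
  have r1 := sqrt_conc (l := l) hae (show 0 ≤ 1 - ((b0 + s2) * xe ^ 2 - s2) by linarith) ha0.le
    (sub_nonneg.2 hb1.le) hu (Real.sqrt_nonneg (a0 * (1 - b0))) hu2
    (Real.sq_sqrt (mul_nonneg ha0.le (sub_nonneg.2 hb1.le))).le hl0.le hl1
  have hcv : x ^ 2 ≤ l * xe ^ 2 + (1 - l) := by
    have h1 : l * xe ^ 2 + (1 - l) - x ^ 2 = l * (1 - l) * (1 - xe) ^ 2 := by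
      rw [hxl]
      ring
    have h2 : 0 ≤ l * (1 - l) * (1 - xe) ^ 2 := by
      have : 0 ≤ 1 - l := by linarith
      positivity
    linarith
  have hbb : l * (1 - ((b0 + s2) * xe ^ 2 - s2)) + (1 - l) * (1 - b0) ≤ 1 - b := by
    rw [hb]
    have : (b0 + s2) * x ^ 2 ≤ (b0 + s2) * (l * xe ^ 2 + (1 - l)) :=
      mul_le_mul_of_nonneg_left hcv (by linarith)
    linarith
  have r1' : l * u + (1 - l) * √(a0 * (1 - b0)) ≤ √(a * (1 - b)) := by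
    refine r1.trans (Real.sqrt_le_sqrt ?_)
    rw [← ea]
    exact mul_le_mul_of_nonneg_left hbb hA1'
  -- the second root
  have hAs : s2 ≤ b0 + s2 := by linarith
  have q1 := sqrt_quad (l := l) hs2 hAs hxe1.le hbe hxe0 hl0.le hl1
  rw [← hxl, ← hb, show b0 + s2 - s2 = b0 by ring] at q1
  set Ue := √((b0 + s2) * xe ^ 2 - s2) with hUe
  set U1 := √b0 with hU1
  set Ve := √(1 - ((a0 + s1) * xe - s1)) with hVe
  set V1 := √(1 - a0) with hV1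
  have p1 : 0 ≤ Ue := Real.sqrt_nonneg _
  have p2 : 0 ≤ U1 := Real.sqrt_nonneg _
  have p3 : 0 ≤ Ve := Real.sqrt_nonneg _
  have p4 : 0 ≤ V1 := Real.sqrt_nonneg _
  have o1 : Ue ≤ U1 := Real.sqrt_le_sqrt hbe1
  have o2 : V1 ≤ Ve := Real.sqrt_le_sqrt (by linarith)
  have q2 : (l * Ve + (1 - l) * V1) ^ 2 ≤ 1 - a := by
    have s1' : Ve ^ 2 = 1 - ((a0 + s1) * xe - s1) := Real.sq_sqrt (by linarith)
    have s2' : V1 ^ 2 = 1 - a0 := Real.sq_sqrt (by linarith)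
    rw [ea', ← s1', ← s2']
    have h2 : 0 ≤ l * (1 - l) * (Ve - V1) ^ 2 := by
      have : 0 ≤ 1 - l := by linarith
      positivity
    have h3 : l * Ve ^ 2 + (1 - l) * V1 ^ 2 = (l * Ve + (1 - l) * V1) ^ 2 +
        l * (1 - l) * (Ve - V1) ^ 2 := by ring
    linarith
  have hUV0 : 0 ≤ l * Ue + (1 - l) * U1 := by
    have : 0 ≤ 1 - l := by linarith
    positivity
  have hVV0 : 0 ≤ l * Ve + (1 - l) * V1 := by
    have : 0 ≤ 1 - l := by linarith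
    positivity
  have hb' : 0 ≤ b := le_trans (sq_nonneg _) q1
  have r2 : (l * Ue + (1 - l) * U1) * (l * Ve + (1 - l) * V1) ≤ √(b * (1 - a)) := by
    apply Real.le_sqrt_of_sq_le
    rw [mul_pow]
    exact mul_le_mul q1 q2 (sq_nonneg _) hb'
  have hv' : v ≤ Ue * Ve := by
    have h1 : v ≤ √(((b0 + s2) * xe ^ 2 - s2) * (1 - ((a0 + s1) * xe - s1))) :=
      Real.le_sqrt_of_sq_le hv2
    rwa [Real.sqrt_mul hbe] at h1
  have r2' : l * v + (1 - l) * √(b0 * (1 - a0)) ≤ √(b * (1 - a)) := by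
    have h1 : l * (Ue * Ve) + (1 - l) * (U1 * V1) ≤ (l * Ue + (1 - l) * U1) *
        (l * Ve + (1 - l) * V1) := by
      have h2 : 0 ≤ l * (1 - l) * ((U1 - Ue) * (Ve - V1)) := by
        have : 0 ≤ 1 - l := by linarith
        have : 0 ≤ U1 - Ue := by linarith
        have : 0 ≤ Ve - V1 := by linarith
        positivity
      have h3 : (l * Ue + (1 - l) * U1) * (l * Ve + (1 - l) * V1) = l * (Ue * Ve) +
          (1 - l) * (U1 * V1) + l * (1 - l) * ((U1 - Ue) * (Ve - V1)) := by ring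
      linarith
    have h3 : √(b0 * (1 - a0)) = U1 * V1 := Real.sqrt_mul hb0.le _
    rw [h3]
    have h4 : l * v ≤ l * (Ue * Ve) := mul_le_mul_of_nonneg_left hv' hl0.le
    linarith
  set f := √(a * (1 - b)) + √(b * (1 - a)) with hf
  have hfl : l * (u + v) + (1 - l) * f1 ≤ f := by
    rw [hf, hf1]
    unfold fo
    linarith
  have hf1p : 0 < f1 := by
    rw [hf1]
    unfold fo
    have : 0 < √(a0 * (1 - b0)) := Real.sqrt_pos.2 (mul_pos ha0 (by linarith))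
    positivity
  have hf0 : 0 ≤ f := by positivity
  -- the linear functional
  have h1 : (f1 ^ 2 + s3) * x < f1 * f + s3 := by
    have h2 : f1 * (l * (u + v) + (1 - l) * f1) ≤ f1 * f := mul_le_mul_of_nonneg_left hfl hf1p.le
    have h3 : l * ((f1 ^ 2 + s3) * xe) < l * (f1 * (u + v) + s3) := mul_lt_mul_of_pos_left hF hl0
    have h4 : f1 * (l * (u + v) + (1 - l) * f1) + s3 - (f1 ^ 2 + s3) * (l * xe + (1 - l)) =
        l * (f1 * (u + v) + s3) - l * ((f1 ^ 2 + s3) * xe) := by ring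
    rw [← hxl] at h4
    linarith
  have hB : 0 < f1 ^ 2 + s3 := by positivity
  have h4 : ((f1 ^ 2 + s3) * x) ^ 2 < (f1 * f + s3) ^ 2 :=
    pow_lt_pow_left₀ h1 (by positivity) (by norm_num)
  have h5 : (f1 * f + s3) ^ 2 ≤ (f1 ^ 2 + s3) * (f ^ 2 + s3) := by
    have h6 : (f1 ^ 2 + s3) * (f ^ 2 + s3) = (f1 * f + s3) ^ 2 + s3 * (f - f1) ^ 2 := by ring
    linarith [mul_nonneg hs3 (sq_nonneg (f - f1))]
  have h6 : (f1 ^ 2 + s3) * ((f1 ^ 2 + s3) * x ^ 2) < (f1 ^ 2 + s3) * (f ^ 2 + s3) := by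
    have h7 : ((f1 ^ 2 + s3) * x) ^ 2 = (f1 ^ 2 + s3) * ((f1 ^ 2 + s3) * x ^ 2) := by ring
    linarith
  exact lt_of_mul_lt_mul_left h6 hB.le

/-- The slope from a second point. -/
theorem Es_le {a0 b0 s1 s2 T xf u v : ℝ} (ha0 : 0 < a0) (ha1 : a0 < 1) (hb0 : 0 < b0)
    (hb1 : b0 < 1) (hs1 : 0 ≤ s1) (hs2 : 0 ≤ s2) (hxf0 : 0 ≤ xf) (hxf1 : xf < 1)
    (ha : 0 ≤ (a0 + s1) * xf - s1) (hb : 0 ≤ (b0 + s2) * xf ^ 2 - s2)
    (hu2 : u ^ 2 ≤ ((a0 + s1) * xf - s1) * (1 - ((b0 + s2) * xf ^ 2 - s2)))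
    (hv2 : v ^ 2 ≤ ((b0 + s2) * xf ^ 2 - s2) * (1 - ((a0 + s1) * xf - s1)))
    (hG : fo a0 b0 - T * (1 - xf) ≤ u + v) : Es a0 b0 s1 s2 ≤ T := by
  have haa : (a0 + s1) * xf - s1 ≤ 1 := by
    have : (a0 + s1) * xf ≤ (a0 + s1) * 1 := mul_le_mul_of_nonneg_left hxf1.le (by linarith)
    linarith
  have hbb : (b0 + s2) * xf ^ 2 - s2 ≤ 1 := by
    have h1 : xf ^ 2 ≤ 1 := pow_le_one₀ hxf0 hxf1.le
    have : (b0 + s2) * xf ^ 2 ≤ (b0 + s2) * 1 := mul_le_mul_of_nonneg_left h1 (by linarith)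
    linarith
  have h := tan_x ha0 ha1 hb0 hb1 hs1 hs2 hxf0 ha haa hb hbb hu2 hv2
  have h1 : Es a0 b0 s1 s2 * (1 - xf) ≤ T * (1 - xf) := by linarith
  exact le_of_mul_le_mul_right h1 (by linarith)

/-- `x > 1`. -/
theorem G_gt {a0 b0 s1 s2 s3 T x a b : ℝ} (ha0 : 0 < a0) (ha1 : a0 < 1) (hb0 : 0 < b0)
    (hb1 : b0 < 1) (hs1 : 0 ≤ s1) (hs2 : 0 ≤ s2) (hs3 : 0 ≤ s3)
    (hE : Es a0 b0 s1 s2 ≤ T) (hT : T ^ 2 < fo a0 b0 ^ 2 + s3) (hx : 1 < x)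
    (ha : a = (a0 + s1) * x - s1) (hb : b = (b0 + s2) * x ^ 2 - s2) (haa : a ≤ 1) (hbb : b ≤ 1) :
    (√(a * (1 - b)) + √(b * (1 - a))) ^ 2 + s3 < (fo a0 b0 ^ 2 + s3) * x ^ 2 := by
  have ha' : 0 ≤ a := by
    have : (a0 + s1) * 1 ≤ (a0 + s1) * x := mul_le_mul_of_nonneg_left hx.le (by linarith)
    linarith
  have hx2 : 1 < x ^ 2 := one_lt_pow₀ hx (by norm_num)
  have hb' : 0 ≤ b := by
    have : (b0 + s2) * 1 ≤ (b0 + s2) * x ^ 2 := mul_le_mul_of_nonneg_left hx2.le (by linarith)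
    linarith
  have h1 : 0 ≤ a * (1 - b) := mul_nonneg ha' (by linarith)
  have h2 : 0 ≤ b * (1 - a) := mul_nonneg hb' (by linarith)
  have h := tan_x (u := √(a * (1 - b))) (v := √(b * (1 - a))) ha0 ha1 hb0 hb1 hs1 hs2
    (by linarith : 0 ≤ x) (by rw [← ha]; exact ha') (by rw [← ha]; exact haa)
    (by rw [← hb]; exact hb') (by rw [← hb]; exact hbb) (by rw [← ha, ← hb, Real.sq_sqrt h1])
    (by rw [← ha, ← hb, Real.sq_sqrt h2])
  set f := √(a * (1 - b)) + √(b * (1 - a)) with hf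
  have hf0 : 0 ≤ f := by positivity
  set f1 := fo a0 b0 with hf1
  have h3 : f ≤ f1 + T * (x - 1) := by
    have : Es a0 b0 s1 s2 * (x - 1) ≤ T * (x - 1) := mul_le_mul_of_nonneg_right hE (by linarith)
    linarith
  have h4 : f ^ 2 ≤ (f1 + T * (x - 1)) ^ 2 := pow_le_pow_left₀ hf0 h3 2
  have h5 : f1 * T ≤ f1 ^ 2 + s3 := by nlinarith [sq_nonneg (f1 - T)]
  have h6 : 0 ≤ (x - 1) * ((f1 ^ 2 + s3) - f1 * T) := mul_nonneg (by linarith) (by linarith)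
  have h7 : 0 < (x - 1) ^ 2 * ((f1 ^ 2 + s3) - T ^ 2) :=
    mul_pos (pow_pos (by linarith) 2) (by linarith)
  have h8 : (f1 ^ 2 + s3) * x ^ 2 = (f1 + T * (x - 1)) ^ 2 + s3 +
      2 * ((x - 1) * ((f1 ^ 2 + s3) - f1 * T)) + (x - 1) ^ 2 * ((f1 ^ 2 + s3) - T ^ 2) := by ring
  linarith

/-- The Hessian is positive definite. -/
theorem pos_def {p0 q0 s1 s2 s3 T : ℝ} (hs1 : 0 ≤ s1) (hs2 : 0 ≤ s2) (hs3 : 0 ≤ s3)
    (hp0 : 0 < p0) (hp1 : p0 < 1 / 2) (hq0 : 0 < q0) (hq1 : q0 < 1 / 2)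
    (hE : Es (Sn p0) (Sn q0) s1 s2 ≤ T) (hT : T ^ 2 < fo (Sn p0) (Sn q0) ^ 2 + s3) :
    0 < 2 * Lp s1 p0 - Lp s3 (p0 + q0) ∧
      0 < (2 * Lp s1 p0 - Lp s3 (p0 + q0)) * (Lp s2 q0 - Lp s3 (p0 + q0)) -
        Lp s3 (p0 + q0) ^ 2 := by
  have hpi := Real.pi_pos
  have hsp : 0 < Real.sin (Real.pi * p0) := Real.sin_pos_of_pos_of_lt_pi (by positivity)
    (by nlinarith)
  have hsq : 0 < Real.sin (Real.pi * q0) := Real.sin_pos_of_pos_of_lt_pi (by positivity)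
    (by nlinarith)
  have hcp : 0 < Real.cos (Real.pi * p0) := Real.cos_pos_of_mem_Ioo ⟨by nlinarith, by nlinarith⟩
  have hcq : 0 < Real.cos (Real.pi * q0) := Real.cos_pos_of_mem_Ioo ⟨by nlinarith, by nlinarith⟩
  have e1 : √(Sn p0) = Real.sin (Real.pi * p0) := by
    unfold Sn
    exact Real.sqrt_sq hsp.le
  have e2 : √(1 - Sn p0) = Real.cos (Real.pi * p0) := by
    rw [← cos_sq_eq]
    exact Real.sqrt_sq hcp.le
  have e3 : √(Sn q0) = Real.sin (Real.pi * q0) := by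
    unfold Sn
    exact Real.sqrt_sq hsq.le
  have e4 : √(1 - Sn q0) = Real.cos (Real.pi * q0) := by
    rw [← cos_sq_eq]
    exact Real.sqrt_sq hcq.le
  have ef : fo (Sn p0) (Sn q0) = Real.sin (Real.pi * (p0 + q0)) := by
    rw [fo_eq (Sn_nonneg _) (Sn_nonneg _), e1, e2, e3, e4, mul_add, Real.sin_add]
    ring
  have ec : Real.cos (Real.pi * (p0 + q0)) = Real.cos (Real.pi * p0) * Real.cos (Real.pi * q0) -
      Real.sin (Real.pi * p0) * Real.sin (Real.pi * q0) := by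
    rw [mul_add, Real.cos_add]
  set f1 := fo (Sn p0) (Sn q0) with hf1
  have hf0 : 0 < f1 := by
    rw [ef]
    exact Real.sin_pos_of_pos_of_lt_pi (by positivity) (by nlinarith)
  have hB : 0 < f1 ^ 2 + s3 := by positivity
  have hfE : f1 * Es (Sn p0) (Sn q0) s1 s2 < f1 ^ 2 + s3 := by
    have h1 : f1 * Es (Sn p0) (Sn q0) s1 s2 ≤ f1 * T := mul_le_mul_of_nonneg_left hE hf0.le
    nlinarith [sq_nonneg (f1 - T)]
  have hA1 : 0 < Sn p0 + s1 := by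
    have := Sn_pos hp0 (by linarith)
    linarith
  have hA2 : 0 < Sn q0 + s2 := by
    have := Sn_pos hq0 (by linarith)
    linarith
  -- the values
  set A := Lp s1 p0 with hA
  set Bq := Lp s2 q0 with hBq
  set K := Lp s3 (p0 + q0) with hK
  have eA : A = Real.pi * (Real.sin (Real.pi * p0) * Real.cos (Real.pi * p0)) / (Sn p0 + s1) := rfl
  have eB : Bq = Real.pi * (Real.sin (Real.pi * q0) * Real.cos (Real.pi * q0)) / (Sn q0 + s2) := rfl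
  have eK : K * (f1 ^ 2 + s3) = Real.pi * (f1 * Real.cos (Real.pi * (p0 + q0))) := by
    rw [hK]
    unfold Lp
    rw [ef]
    have : Real.sin (Real.pi * (p0 + q0)) ^ 2 + s3 ≠ 0 := by
      rw [← ef]
      exact hB.ne'
    field_simp
  have hAp : 0 < A := by
    rw [eA]
    positivity
  have hBp : 0 < Bq := by
    rw [eB]
    positivity
  have key : K * (2 * A + Bq) < 2 * A * Bq := by
    have h1 : f1 * Es (Sn p0) (Sn q0) s1 s2 * (2 * A * Bq) = (f1 ^ 2 + s3) * (K * (2 * A + Bq)) := by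
      have h2 : Es (Sn p0) (Sn q0) s1 s2 * (2 * A * Bq) =
          Real.pi * Real.cos (Real.pi * (p0 + q0)) * (2 * A + Bq) := by
        unfold Es
        rw [e1, e2, e3, e4, ← ec, eA, eB]
        field_simp
        ring
      calc f1 * Es (Sn p0) (Sn q0) s1 s2 * (2 * A * Bq) =
          f1 * (Es (Sn p0) (Sn q0) s1 s2 * (2 * A * Bq)) := by ring
        _ = (Real.pi * (f1 * Real.cos (Real.pi * (p0 + q0)))) * (2 * A + Bq) := by
            rw [h2]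
            ring
        _ = _ := by
            rw [← eK]
            ring
    have h3 : f1 * Es (Sn p0) (Sn q0) s1 s2 * (2 * A * Bq) < (f1 ^ 2 + s3) * (2 * A * Bq) :=
      mul_lt_mul_of_pos_right hfE (by positivity)
    rw [h1] at h3
    exact lt_of_mul_lt_mul_left h3 hB.le
  constructor
  · rcases le_or_gt K 0 with h | h
    · linarith
    · have h0 : 0 < K * A := mul_pos h hAp
      have h1 : K * Bq < 2 * A * Bq := by linarith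
      have := lt_of_mul_lt_mul_right h1 hBp.le
      linarith
  · have h1 : (2 * A - K) * (Bq - K) - K ^ 2 = 2 * A * Bq - K * (2 * A + Bq) := by ring
    linarith

end Pool.Agent.S5.C2
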