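import Pool.Agent.S5.I.W2b

/-!
# Closed vertices with two half twists, weights `2` and `1`: the criterion on `[0, 1/2]²`
-/

set_option autoImplicit false

namespace Pool.Agent.S5.C2

open MeasureTheory Filter Topology Set

/-- The upper edge `p = 1 / 2`. -/
theorem no_halfP {a0 b0 s1 s2 s3 T x b : ℝ} (ha0 : 0 < a0) (ha1 : a0 < 1) (hb0 : 0 < b0)
    (hb1 : b0 < 1) (hs1 : 0 ≤ s1) (hs2 : 0 ≤ s2) (hs3 : 0 ≤ s3)
    (hE : Es a0 b0 s1 s2 ≤ T) (hT : T ^ 2 < fo a0 b0 ^ 2 + s3) (hx : 1 + s1 ≤ (a0 + s1) * x)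
    (hb : (b0 + s2) * x ^ 2 ≤ b + s2) (hbb : b ≤ 1) : 1 - b + s3 < (fo a0 b0 ^ 2 + s3) * x ^ 2 := by
  have hA : 0 < a0 + s1 := by linarith only [hs1, ha0]
  have hA2 : 0 < b0 + s2 := by linarith only [hs2, hb0]
  set X := (1 + s1) / (a0 + s1) with hX
  have hXm : (a0 + s1) * X = 1 + s1 := by
    rw [hX]
    field_simp
  have hX1 : 1 < X := by
    rw [hX, one_lt_div hA]
    linarith only [ha1]
  have hXx : X ≤ x := by
    rw [hX, div_le_iff₀ hA]
    linarith only [hx]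
  have hX2 : X ^ 2 ≤ x ^ 2 := pow_le_pow_left₀ (by linarith only [hX1, ha1, ha0]) hXx 2
  have h1 : (b0 + s2) * X ^ 2 ≤ (b0 + s2) * x ^ 2 := mul_le_mul_of_nonneg_left hX2 hA2.le
  have h := G_gt (x := X) (a := (a0 + s1) * X - s1) (b := (b0 + s2) * X ^ 2 - s2) ha0 ha1 hb0 hb1
    hs1 hs2 hs3 hE hT hX1 rfl rfl (by linarith only [hXm]) (by linarith only [h1, hbb, hb])
  have e1 : (a0 + s1) * X - s1 = 1 := by linarith only [hXm]
  rw [e1, sub_self, mul_zero, Real.sqrt_zero, add_zero, one_mul, Real.sq_sqrt (by linarith only [h1,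
                                                                                    hbb, hb])] at h
  have hB : 0 ≤ fo a0 b0 ^ 2 + s3 := by positivity
  have h2 := mul_le_mul_of_nonneg_left hX2 hB
  linarith only [h2, h, h1, hb]

/-- The upper edge `q = 1 / 2`. -/
theorem no_halfQ {a0 b0 s1 s2 s3 T x a : ℝ} (ha0 : 0 < a0) (ha1 : a0 < 1) (hb0 : 0 < b0)
    (hb1 : b0 < 1) (hs1 : 0 ≤ s1) (hs2 : 0 ≤ s2) (hs3 : 0 ≤ s3)
    (hE : Es a0 b0 s1 s2 ≤ T) (hT : T ^ 2 < fo a0 b0 ^ 2 + s3) (hx0 : 0 ≤ x)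
    (hx : 1 + s2 ≤ (b0 + s2) * x ^ 2)
    (ha : (a0 + s1) * x ≤ a + s1) (haa : a ≤ 1) : 1 - a + s3 < (fo a0 b0 ^ 2 + s3) * x ^ 2 := by
  have hA : 0 < a0 + s1 := by linarith only [hs1, ha0]
  have hA2 : 0 < b0 + s2 := by linarith only [hs2, hb0]
  set X := √((1 + s2) / (b0 + s2)) with hX
  have hXs : X ^ 2 = (1 + s2) / (b0 + s2) := Real.sq_sqrt (by positivity)
  have hXm : (b0 + s2) * X ^ 2 = 1 + s2 := by
    rw [hXs]
    field_simp
  have hX0 : 0 ≤ X := Real.sqrt_nonneg _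
  have hX1 : 1 < X := by
    rw [hX, Real.lt_sqrt (by norm_num), one_pow, one_lt_div hA2]
    linarith only [hb1]
  have hXx : X ≤ x := by
    apply le_of_sq_le_sq _ hx0
    rw [hXs, div_le_iff₀ hA2]
    linarith only [hx]
  have hX2 : X ^ 2 ≤ x ^ 2 := pow_le_pow_left₀ hX0 hXx 2
  have h1 : (a0 + s1) * X ≤ (a0 + s1) * x := mul_le_mul_of_nonneg_left hXx hA.le
  have h := G_gt (x := X) (a := (a0 + s1) * X - s1) (b := (b0 + s2) * X ^ 2 - s2) ha0 ha1 hb0 hb1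
    hs1 hs2 hs3 hE hT hX1 rfl rfl (by linarith only [h1, haa, ha]) (by linarith only [hXm])
  have e1 : (b0 + s2) * X ^ 2 - s2 = 1 := by linarith only [hXm]
  rw [e1, sub_self, mul_zero, Real.sqrt_zero, zero_add, one_mul, Real.sq_sqrt (by linarith only [h1,
                                                                                    haa, ha])] at h
  have hB : 0 ≤ fo a0 b0 ^ 2 + s3 := by positivity
  have h2 := mul_le_mul_of_nonneg_left hX2 hB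
  linarith only [h2, h, h1, ha]

/-- No solution on `[xe, 1)`. -/
def Glow (a0 b0 s1 s2 s3 xe : ℝ) : Prop :=
  ∀ x : ℝ, xe ≤ x → x < 1 → (fo a0 b0 ^ 2 + s3) * x ^ 2 <
    (√(((a0 + s1) * x - s1) * (1 - ((b0 + s2) * x ^ 2 - s2))) +
      √(((b0 + s2) * x ^ 2 - s2) * (1 - ((a0 + s1) * x - s1)))) ^ 2 + s3

/-- The lower edge `p = 0`. -/
theorem no_zeroP {a0 b0 s1 s2 s3 x xe b vh : ℝ} (ha0 : 0 < a0) (ha1 : a0 < 1) (hb0 : 0 < b0)
    (hb1 : b0 < 1) (hs1 : 0 ≤ s1) (hs2 : 0 ≤ s2) (hs3 : 0 ≤ s3) (hvh : 0 ≤ vh)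
    (hxe0 : 0 ≤ xe)
    (hae : 0 ≤ (a0 + s1) * xe - s1) (hbe : 0 ≤ (b0 + s2) * xe ^ 2 - s2)
    (hG : Glow a0 b0 s1 s2 s3 xe)
    (hH : (a0 + s1) * xe ≤ s1 ∨ (b0 + s2) * xe ^ 2 ≤ s2 ∨ (fo a0 b0 ^ 2 + s3) * xe ^ 2 ≤ vh + s3)
    (hE : s1 ^ 2 * (fo a0 b0 ^ 2 + s3) < (a0 + s1) ^ 2 * (vh + s3) ∨
      (vh + s2) * (fo a0 b0 ^ 2 + s3) < (b0 + s2) * (vh + s3))
    (hx0 : 0 ≤ x) (hxa : (a0 + s1) * x ≤ s1) (hb : b + s2 = (b0 + s2) * x ^ 2) (hbv : vh ≤ b)
    (hvb : b + s3 = (fo a0 b0 ^ 2 + s3) * x ^ 2) : False := by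
  have hA : 0 < a0 + s1 := by linarith only [hs1, ha0]
  have hA2 : 0 < b0 + s2 := by linarith only [hs2, hb0]
  have hf1p : 0 < fo a0 b0 := by
    unfold fo
    have : 0 < √(a0 * (1 - b0)) := Real.sqrt_pos.2 (mul_pos ha0 (by linarith only [hb1]))
    positivity
  set B := fo a0 b0 ^ 2 + s3 with hBd
  have hB : 0 < B := by positivity
  set X := s1 / (a0 + s1) with hX
  have hXm : (a0 + s1) * X = s1 := by
    rw [hX]
    field_simp
  have hX0 : 0 ≤ X := div_nonneg hs1 hA.le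
  have hX1 : X < 1 := by
    rw [hX, div_lt_one hA]
    linarith only [ha0]
  have hxX : x ≤ X := by
    rw [hX, le_div_iff₀ hA]
    linarith only [hxa]
  rcases hE with hE | hE
  · have h1 : ((a0 + s1) * x) ^ 2 ≤ s1 ^ 2 := pow_le_pow_left₀ (by positivity) hxa 2
    have h2 : ((a0 + s1) * x) ^ 2 * B ≤ s1 ^ 2 * B := mul_le_mul_of_nonneg_right h1 hB.le
    have h3 : (a0 + s1) ^ 2 * (vh + s3) ≤ (a0 + s1) ^ 2 * (b + s3) :=
      mul_le_mul_of_nonneg_left (by linarith only [hbv]) (by positivity)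
    rw [hvb] at h3
    have h4 : ((a0 + s1) * x) ^ 2 * B = (a0 + s1) ^ 2 * (B * x ^ 2) := by ring
    linarith only [h3, h2, hE]
  · rcases lt_or_ge X xe with hc | hc
    · rcases hH with h | h | h
      · have : (a0 + s1) * X < (a0 + s1) * xe := mul_lt_mul_of_pos_left hc hA
        linarith only [this, h, hXm]
      · have h1 : x ^ 2 < xe ^ 2 := pow_lt_pow_left₀ (lt_of_le_of_lt hxX hc) hx0 (by norm_num)
        have : (b0 + s2) * x ^ 2 < (b0 + s2) * xe ^ 2 := mul_lt_mul_of_pos_left h1 hA2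
        linarith only [this, h, hbv, hb, hvh]
      · have h1 : x ^ 2 < xe ^ 2 := pow_lt_pow_left₀ (lt_of_le_of_lt hxX hc) hx0 (by norm_num)
        have h2 := mul_lt_mul_of_pos_left h1 hB
        linarith only [h2, h, hvb, hbv]
    · -- the value at `X`
      have h0 := hG X hc hX1
      have hXe : xe ^ 2 ≤ X ^ 2 := pow_le_pow_left₀ hxe0 hc 2
      have hb'0 : (b0 + s2) * xe ^ 2 ≤ (b0 + s2) * X ^ 2 := mul_le_mul_of_nonneg_left hXe hA2.le
      set b' := (b0 + s2) * X ^ 2 - s2 with hb'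
      have hx2 : x ^ 2 ≤ X ^ 2 := pow_le_pow_left₀ hx0 hxX 2
      have hbb' : b ≤ b' := by
        have : (b0 + s2) * x ^ 2 ≤ (b0 + s2) * X ^ 2 := mul_le_mul_of_nonneg_left hx2 hA2.le
        linarith only [this, hb]
      rw [← hBd, hXm, sub_self, zero_mul, Real.sqrt_zero, sub_zero, mul_one, zero_add,
        Real.sq_sqrt (show 0 ≤ b' by linarith only [hb'0, hbe])] at h0
      set A2 := b0 + s2 with hA2d
      have e1 : b' + s2 = A2 * X ^ 2 := by rw [hb']; ring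
      have p1 : B * (b' + s2) < A2 * (b' + s3) := by
        rw [e1]
        have := mul_lt_mul_of_pos_left h0 hA2
        have e2 : B * (A2 * X ^ 2) = A2 * (B * X ^ 2) := by ring
        linarith only [this]
      have p0 : B * (b + s2) = A2 * (b + s3) := by
        rw [hb, hvb]
        ring
      have p2 : B * (vh + s2) < A2 * (vh + s3) := by linarith only [hE]
      rcases hbv.eq_or_lt with h | h
      · rw [← h] at p0
        linarith only [p0, hE]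
      · have k1 : (b' - b) * (B * (vh + s2)) ≤ (b' - b) * (A2 * (vh + s3)) :=
          mul_le_mul_of_nonneg_left p2.le (by linarith only [hbb'])
        have k2 : (b - vh) * (B * (b' + s2)) < (b - vh) * (A2 * (b' + s3)) :=
          mul_lt_mul_of_pos_left p1 (by linarith only [h])
        have k4 : (b' - b) * (B * (vh + s2)) + (b - vh) * (B * (b' + s2)) =
            (b' - vh) * (B * (b + s2)) := by ring
        have k5 : (b' - b) * (A2 * (vh + s3)) + (b - vh) * (A2 * (b' + s3)) =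
            (b' - vh) * (A2 * (b + s3)) := by ring
        rw [p0] at k4
        linarith only [k4, k2, k1]

/-- The lower edge `q = 0`. -/
theorem no_zeroQ {a0 b0 s1 s2 s3 x xe a vh : ℝ} (ha0 : 0 < a0) (ha1 : a0 < 1) (hb0 : 0 < b0)
    (hb1 : b0 < 1) (hs1 : 0 ≤ s1) (hs2 : 0 ≤ s2) (hs3 : 0 ≤ s3) (hvh : 0 ≤ vh)
    (hxe0 : 0 ≤ xe)
    (hae : 0 ≤ (a0 + s1) * xe - s1) (hbe : 0 ≤ (b0 + s2) * xe ^ 2 - s2)
    (hG : Glow a0 b0 s1 s2 s3 xe)
    (hH : (a0 + s1) * xe ≤ s1 ∨ (b0 + s2) * xe ^ 2 ≤ s2 ∨ (fo a0 b0 ^ 2 + s3) * xe ^ 2 ≤ vh + s3)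
    (hE : s2 * (fo a0 b0 ^ 2 + s3) < (b0 + s2) * (vh + s3) ∨
      (vh + s1) ^ 2 * (fo a0 b0 ^ 2 + s3) < (a0 + s1) ^ 2 * (vh + s3))
    (hx0 : 0 ≤ x) (hxb : (b0 + s2) * x ^ 2 ≤ s2) (ha : a + s1 = (a0 + s1) * x) (hav : vh ≤ a)
    (hva : a + s3 = (fo a0 b0 ^ 2 + s3) * x ^ 2) : False := by
  have hA : 0 < a0 + s1 := by linarith only [hs1, ha0]
  have hA2 : 0 < b0 + s2 := by linarith only [hs2, hb0]
  have hf1p : 0 < fo a0 b0 := by
    unfold fo
    have : 0 < √(a0 * (1 - b0)) := Real.sqrt_pos.2 (mul_pos ha0 (by linarith only [hb1]))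
    positivity
  set B := fo a0 b0 ^ 2 + s3 with hBd
  have hB : 0 < B := by positivity
  set X := √(s2 / (b0 + s2)) with hX
  have hXs : X ^ 2 = s2 / (b0 + s2) := Real.sq_sqrt (by positivity)
  have hXm : (b0 + s2) * X ^ 2 = s2 := by
    rw [hXs]
    field_simp
  have hX0 : 0 ≤ X := Real.sqrt_nonneg _
  have hX1 : X < 1 := by
    rw [hX, Real.sqrt_lt' (by norm_num), one_pow, div_lt_one hA2]
    linarith only [hb0]
  have hxX : x ≤ X := by
    apply le_of_sq_le_sq _ hX0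
    rw [hXs, le_div_iff₀ hA2]
    linarith only [hxb]
  rcases hE with hE | hE
  · have h2 : ((b0 + s2) * x ^ 2) * B ≤ s2 * B := mul_le_mul_of_nonneg_right hxb hB.le
    have h3 : (b0 + s2) * (vh + s3) ≤ (b0 + s2) * (a + s3) :=
      mul_le_mul_of_nonneg_left (by linarith only [hav]) hA2.le
    rw [hva] at h3
    have h4 : ((b0 + s2) * x ^ 2) * B = (b0 + s2) * (B * x ^ 2) := by ring
    linarith only [h3, h2, hE]
  · rcases lt_or_ge X xe with hc | hc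
    · rcases hH with h | h | h
      · have : (a0 + s1) * x < (a0 + s1) * xe := mul_lt_mul_of_pos_left (by linarith only [hc, hxX]) hA
        linarith only [this, h, hav, ha, hvh]
      · have h1 : X ^ 2 < xe ^ 2 := pow_lt_pow_left₀ hc hX0 (by norm_num)
        have : (b0 + s2) * X ^ 2 < (b0 + s2) * xe ^ 2 := mul_lt_mul_of_pos_left h1 hA2
        linarith only [this, h, hXm]
      · have h1 : x ^ 2 < xe ^ 2 := pow_lt_pow_left₀ (lt_of_le_of_lt hxX hc) hx0 (by norm_num)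
        have h2 := mul_lt_mul_of_pos_left h1 hB
        linarith only [h2, h, hva, hav]
    · -- the value at `X`
      have h0 := hG X hc hX1
      have ha'0 : (a0 + s1) * xe ≤ (a0 + s1) * X := mul_le_mul_of_nonneg_left hc hA.le
      set a' := (a0 + s1) * X - s1 with ha'
      have haa' : a ≤ a' := by
        have : (a0 + s1) * x ≤ (a0 + s1) * X := mul_le_mul_of_nonneg_left hxX hA.le
        linarith only [this, ha]
      rw [← hBd, hXm, sub_self, zero_mul, Real.sqrt_zero, sub_zero, mul_one, add_zero,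
        Real.sq_sqrt (show 0 ≤ a' by linarith only [ha'0, hae])] at h0
      set A1 := a0 + s1 with hA1d
      have e1 : a' + s1 = A1 * X := by rw [ha']; ring
      have p1 : B * (a' + s1) ^ 2 < A1 ^ 2 * (a' + s3) := by
        rw [e1]
        have := mul_lt_mul_of_pos_left h0 (show 0 < A1 ^ 2 by positivity)
        have e2 : B * (A1 * X) ^ 2 = A1 ^ 2 * (B * X ^ 2) := by ring
        linarith only [this]
      have p0 : B * (a + s1) ^ 2 = A1 ^ 2 * (a + s3) := by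
        rw [ha, hva]
        ring
      have p2 : B * (vh + s1) ^ 2 < A1 ^ 2 * (vh + s3) := by linarith only [hE]
      rcases hav.eq_or_lt with h | h
      · rw [← h] at p0
        linarith only [p0, hE]
      · have k1 : (a' - a) * (B * (vh + s1) ^ 2) ≤ (a' - a) * (A1 ^ 2 * (vh + s3)) :=
          mul_le_mul_of_nonneg_left p2.le (by linarith only [haa'])
        have k2 : (a - vh) * (B * (a' + s1) ^ 2) < (a - vh) * (A1 ^ 2 * (a' + s3)) :=
          mul_lt_mul_of_pos_left p1 (by linarith only [h])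
        have k3 : 0 ≤ B * ((a' - vh) * ((a - vh) * (a' - a))) := by
          have : 0 ≤ a' - vh := by linarith only [haa', hav]
          have : 0 ≤ a' - a := by linarith only [haa']
          have : 0 ≤ a - vh := by linarith only [hav]
          positivity
        have k4 : (a' - a) * (B * (vh + s1) ^ 2) + (a - vh) * (B * (a' + s1) ^ 2) =
            (a' - vh) * (B * (a + s1) ^ 2) + B * ((a' - vh) * ((a - vh) * (a' - a))) := by ring
        have k5 : (a' - a) * (A1 ^ 2 * (vh + s3)) + (a - vh) * (A1 ^ 2 * (a' + s3)) =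
            (a' - vh) * (A1 ^ 2 * (a + s3)) := by ring
        rw [p0] at k4
        linarith only [k4, k3, k2, k1]

/-- **The criterion**, weights `2` and `1`, general form. -/
theorem SW_critG {s1 s2 s3 p0 q0 h xe T : ℝ} (hs1 : 0 ≤ s1) (hs2 : 0 ≤ s2)
    (hs3 : 0 ≤ s3) (hp0 : 0 < p0) (hp1 : p0 < 1 / 2) (hq0 : 0 < q0) (hq1 : q0 < 1 / 2)
    (hh0 : 0 ≤ h) (hxe0 : 0 ≤ xe)
    (hae : 0 ≤ (Sn p0 + s1) * xe - s1) (hbe : 0 ≤ (Sn q0 + s2) * xe ^ 2 - s2)
    (hG : Glow (Sn p0) (Sn q0) s1 s2 s3 xe)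
    (hH : (Sn p0 + s1) * xe ≤ s1 ∨ (Sn q0 + s2) * xe ^ 2 ≤ s2 ∨
      ((fo (Sn p0) (Sn q0) ^ 2 + s3) * xe ^ 2 ≤ Sn h + s3 ∧ p0 + q0 ≤ 1 - h))
    (hE1 : s1 ^ 2 * (fo (Sn p0) (Sn q0) ^ 2 + s3) < (Sn p0 + s1) ^ 2 * (Sn h + s3) ∨
      (Sn h + s2) * (fo (Sn p0) (Sn q0) ^ 2 + s3) < (Sn q0 + s2) * (Sn h + s3))
    (hE2 : s2 * (fo (Sn p0) (Sn q0) ^ 2 + s3) < (Sn q0 + s2) * (Sn h + s3) ∨
      (Sn h + s1) ^ 2 * (fo (Sn p0) (Sn q0) ^ 2 + s3) < (Sn p0 + s1) ^ 2 * (Sn h + s3))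
    (hE : Es (Sn p0) (Sn q0) s1 s2 ≤ T) (hT : T ^ 2 < fo (Sn p0) (Sn q0) ^ 2 + s3)
    (hC : ∀ p q : ℝ, 0 ≤ p → 0 ≤ q → p + q < h → 0 < SW s1 s2 s3 p0 q0 p q) :
    ∃ c > 0, ∀ p ∈ Icc (0 : ℝ) (1 / 2), ∀ q ∈ Icc (0 : ℝ) (1 / 2),
      c * ((p - p0) ^ 2 + (q - q0) ^ 2) ≤ SW s1 s2 s3 p0 q0 p q := by
  have ha0 : 0 < Sn p0 := Sn_pos hp0 (by linarith only [hp1])
  have hb0 : 0 < Sn q0 := Sn_pos hq0 (by linarith only [hq1, hp1, hp0])
  have hlt1 : ∀ t : ℝ, 0 < t → t < 1 / 2 → Sn t < 1 := by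
    intro t h0 h1
    have h2 := cos_sq_eq t
    have hpi := Real.pi_pos
    have h3 : 0 < Real.cos (Real.pi * t) := Real.cos_pos_of_mem_Ioo ⟨by linarith only [mul_pos (sub_pos.2 h0) (sub_pos.2 hpi),
                                                                          mul_pos (sub_pos.2 hp1) (sub_pos.2 hpi),
                                                                          mul_pos (sub_pos.2 hp0) (sub_pos.2 hpi)], by linarith only [mul_pos (sub_pos.2 h1) (sub_pos.2 hpi)]⟩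
    have h4 := pow_pos h3 2
    linarith only [h4, h2]
  have ha1 : Sn p0 < 1 := hlt1 p0 hp0 hp1
  have hb1 : Sn q0 < 1 := hlt1 q0 hq0 hq1
  obtain ⟨k1, k2⟩ := pos_def hs1 hs2 hs3 hp0 hp1 hq0 hq1 hE hT
  have hSf : Sn (p0 + q0) = fo (Sn p0) (Sn q0) ^ 2 := Sn_add hp0.le hp1.le hq0.le hq1.le
  apply SW_of_foc (h := h) hs1 hs2 hs3 hp0 hp1 hq0 hq1 k1 k2 hC
  intro p hp q hq hh m1 m2 m3 m4
  rw [hSf] at m1 m2 m3 m4
  simp only [mem_Icc] at hp hq
  set a0 := Sn p0 with ha0d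
  set b0 := Sn q0 with hb0d
  set f1 := fo a0 b0 with hf1
  set B := f1 ^ 2 + s3 with hB
  have hf1p : 0 < f1 := by
    rw [hf1]
    unfold fo
    have : 0 < √(a0 * (1 - b0)) := Real.sqrt_pos.2 (mul_pos ha0 (by linarith only [hb1]))
    positivity
  have hBp : 0 < B := by positivity
  have hA1 : 0 < a0 + s1 := by linarith only [ha0, hs1]
  have hA2 : 0 < b0 + s2 := by linarith only [hb0, hs2]
  set w := Sn (p + q) with hw
  have hw0 : 0 ≤ w := Sn_nonneg _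
  set x := √((w + s3) / B) with hx
  have hx0 : 0 ≤ x := Real.sqrt_nonneg _
  have hxx : w + s3 = B * x ^ 2 := by
    rw [hx, Real.sq_sqrt (by positivity)]
    field_simp
  have up : ∀ {X Y : ℝ}, 0 ≤ X → 0 ≤ Y → Y ^ 2 * (w + s3) ≤ X ^ 2 * B → Y * x ≤ X := by
    intro X Y hX hY h1
    rw [hxx] at h1
    have h2 : (Y * x) ^ 2 * B ≤ X ^ 2 * B := by
      calc (Y * x) ^ 2 * B = Y ^ 2 * (B * x ^ 2) := by ring
        _ ≤ _ := h1
    exact le_of_sq_le_sq (le_of_mul_le_mul_right h2 hBp) hX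
  have dn : ∀ {X Y : ℝ}, 0 ≤ X → 0 ≤ Y → X ^ 2 * B ≤ Y ^ 2 * (w + s3) → X ≤ Y * x := by
    intro X Y hX hY h1
    rw [hxx] at h1
    have h2 : X ^ 2 * B ≤ (Y * x) ^ 2 * B := by
      calc X ^ 2 * B ≤ Y ^ 2 * (B * x ^ 2) := h1
        _ = _ := by ring
    exact le_of_sq_le_sq (le_of_mul_le_mul_right h2 hBp) (by positivity)
  have hSp := Sn_nonneg p
  have hSq := Sn_nonneg q
  have hSp1 := Sn_le_one p
  have hSq1 := Sn_le_one q
  have n1 : p < 1 / 2 → (a0 + s1) * x ≤ Sn p + s1 := fun h => up (by positivity) hA1.le (m1 h)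
  have n2 : 0 < p → Sn p + s1 ≤ (a0 + s1) * x := fun h => dn (by positivity) hA1.le (m2 h)
  have n3 : q < 1 / 2 → (b0 + s2) * x ^ 2 ≤ Sn q + s2 := by
    intro h
    have h1 := m3 h
    rw [hxx] at h1
    have h2 : ((b0 + s2) * x ^ 2) * B ≤ (Sn q + s2) * B := by
      calc ((b0 + s2) * x ^ 2) * B = (b0 + s2) * (B * x ^ 2) := by ring
        _ ≤ _ := h1
    exact le_of_mul_le_mul_right h2 hBp
  have n4 : 0 < q → Sn q + s2 ≤ (b0 + s2) * x ^ 2 := by
    intro h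
    have h1 := m4 h
    rw [hxx] at h1
    have h2 : (Sn q + s2) * B ≤ ((b0 + s2) * x ^ 2) * B := by
      calc (Sn q + s2) * B ≤ (b0 + s2) * (B * x ^ 2) := h1
        _ = _ := by ring
    exact le_of_mul_le_mul_right h2 hBp
  have hH' : (a0 + s1) * xe ≤ s1 ∨ (b0 + s2) * xe ^ 2 ≤ s2 ∨ B * xe ^ 2 ≤ Sn h + s3 := by
    rcases hH with h1 | h1 | h1
    · exact Or.inl h1
    · exact Or.inr (Or.inl h1)
    · exact Or.inr (Or.inr h1.1)
  -- upper edges
  rcases hp.2.eq_or_lt with hp2 | hp2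
  · exfalso
    have hpp : 0 < p := by linarith only [hp2, hp1, hp0]
    have n2' := n2 hpp
    rw [hp2, Sn_half] at n2'
    rcases hq.2.eq_or_lt with hq2 | hq2
    · have e : w = 0 := by
        rw [hw, hp2, hq2, show (1 : ℝ) / 2 + 1 / 2 = 1 - 0 by norm_num, Sn_one_sub, Sn_zero]
      have hx1 : 1 < x := by
        by_contra hc
        rw [not_lt] at hc
        have : (a0 + s1) * x ≤ (a0 + s1) * 1 := mul_le_mul_of_nonneg_left hc (by positivity)
        linarith only [this, n2', ha1]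
      have hx2 : 1 < x ^ 2 := one_lt_pow₀ hx1 (by norm_num)
      have h1 : B * 1 < B * x ^ 2 := mul_lt_mul_of_pos_left hx2 hBp
      rw [← hxx, e, hB] at h1
      have h2 := pow_pos hf1p 2
      linarith only [h2, h1]
    · have e : w = 1 - Sn q := by
        rw [hw, hp2, Sn_half_add]
      have := no_halfP ha0 ha1 hb0 hb1 hs1 hs2 hs3 hE hT n2' (n3 hq2) hSq1
      rw [← hf1, ← hB, ← hxx, e] at this
      linarith only [this]
  rcases hq.2.eq_or_lt with hq2 | hq2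
  · exfalso
    have hqq : 0 < q := by linarith only [hq2, hp1, hp0]
    have n4' := n4 hqq
    rw [hq2, Sn_half] at n4'
    have e : w = 1 - Sn p := by
      rw [hw, hq2, add_comm, Sn_half_add]
    have := no_halfQ ha0 ha1 hb0 hb1 hs1 hs2 hs3 hE hT hx0 n4' (n1 hp2) hSp1
    rw [← hf1, ← hB, ← hxx, e] at this
    linarith only [this]
  have n1' := n1 hp2
  have n3' := n3 hq2
  -- lower edges
  rcases hp.1.eq_or_lt with hp3 | hp3
  · exfalso
    rcases hq.1.eq_or_lt with hq3 | hq3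
    · have hz : h = 0 := by
        rw [← hp3, ← hq3] at hh
        linarith only [hh0, hh]
      have e : w = 0 := by
        rw [hw, ← hp3, ← hq3, add_zero, Sn_zero]
      have m1' := m1 hp2
      have m3' := m3 hq2
      rw [← hp3, Sn_zero, e] at m1'
      rw [← hq3, Sn_zero, e] at m3'
      rw [hz, Sn_zero] at hE1
      rw [zero_add] at m1'
      rcases hE1 with h1 | h1
      · linarith only [h1, m1']
      · linarith only [h1, m3']
    · have e : w = Sn q := by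
        rw [hw, ← hp3, zero_add]
      have n4' := n4 hq3
      rw [← hp3, Sn_zero, zero_add] at n1'
      have hhq : Sn h ≤ Sn q := Sn_mono hh0 (by linarith only [hp3, hh]) hq2.le
      exact no_zeroP (vh := Sn h) ha0 ha1 hb0 hb1 hs1 hs2 hs3 (Sn_nonneg _) hxe0 hae hbe
        hG hH' hE1 hx0 n1' (le_antisymm n4' n3') hhq (by rw [← e]; exact hxx)
  rcases hq.1.eq_or_lt with hq3 | hq3
  · exfalso
    have e : w = Sn p := by
      rw [hw, ← hq3, add_zero]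
    have n2' := n2 hp3
    rw [← hq3, Sn_zero, zero_add] at n3'
    have hhp : Sn h ≤ Sn p := Sn_mono hh0 (by linarith only [hq3, hh]) hp2.le
    exact no_zeroQ (vh := Sn h) ha0 ha1 hb0 hb1 hs1 hs2 hs3 (Sn_nonneg _) hxe0 hae hbe
      hG hH' hE2 hx0 n3' (le_antisymm n2' n1') hhp (by rw [← e]; exact hxx)
  -- interior
  have ea : Sn p = (a0 + s1) * x - s1 := by linarith only [n1', n2 hp3]
  have eb : Sn q = (b0 + s2) * x ^ 2 - s2 := by linarith only [n3', n4 hq3]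
  have ew : w = (√(Sn p * (1 - Sn q)) + √(Sn q * (1 - Sn p))) ^ 2 :=
    Sn_add hp.1 hp.2 hq.1 hq.2
  rcases lt_trichotomy x 1 with hlt | heq | hgt
  · exfalso
    rcases lt_or_ge x xe with hc | hc
    · have hc2 : x ^ 2 < xe ^ 2 := pow_lt_pow_left₀ hc hx0 (by norm_num)
      rcases hH with h1 | h1 | h1
      · have : (a0 + s1) * x < (a0 + s1) * xe := mul_lt_mul_of_pos_left hc hA1
        linarith only [this, h1, ea, hSp]
      · have : (b0 + s2) * x ^ 2 < (b0 + s2) * xe ^ 2 := mul_lt_mul_of_pos_left hc2 hA2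
        linarith only [this, h1, eb, hSq]
      · have h3 : w < Sn h := by
          have := mul_lt_mul_of_pos_left hc2 hBp
          linarith only [this, h1.1, hxx]
        have h4 : p < p0 := Sn_lt hp.1 hp.2 hp0.le hp1.le (by
          rw [ea, ← ha0d]
          have : (a0 + s1) * x < (a0 + s1) * 1 := mul_lt_mul_of_pos_left hlt hA1
          linarith only [this])
        have h5 : q < q0 := Sn_lt hq.1 hq.2 hq0.le hq1.le (by
          rw [eb, ← hb0d]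
          have hx2 : x ^ 2 < 1 := pow_lt_one₀ hx0 hlt (by norm_num)
          have : (b0 + s2) * x ^ 2 < (b0 + s2) * 1 := mul_lt_mul_of_pos_left hx2 hA2
          linarith only [this])
        have h6 : Sn h ≤ Sn (p + q) := Sn_ge hh0 hh (by linarith only [h5, h4, h1.2])
        rw [← hw] at h6
        linarith only [h6, h3]
    · have := hG x hc hlt
      rw [← ea, ← eb, ← ew, ← hf1, ← hB, hxx] at this
      linarith only [this]
  · constructor
    · apply Sn_inj hp.1 hp.2 hp0.le hp1.le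
      rw [ea, heq, ← ha0d]
      ring
    · apply Sn_inj hq.1 hq.2 hq0.le hq1.le
      rw [eb, heq, ← hb0d]
      ring
  · exfalso
    have := G_gt ha0 ha1 hb0 hb1 hs1 hs2 hs3 hE hT hgt ea eb hSp1 hSq1
    rw [← ew, ← hf1, ← hB, hxx] at this
    linarith only [this]

/-- **The criterion**, weights `2` and `1`, with a bound of the slope. -/
theorem SW_critE {s1 s2 s3 p0 q0 h xe u v T : ℝ} (hs1 : 0 ≤ s1) (hs2 : 0 ≤ s2)
    (hs3 : 0 ≤ s3) (hp0 : 0 < p0) (hp1 : p0 < 1 / 2) (hq0 : 0 < q0) (hq1 : q0 < 1 / 2)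
    (hh0 : 0 ≤ h) (hxe0 : 0 ≤ xe)
    (hae : 0 ≤ (Sn p0 + s1) * xe - s1) (hbe : 0 ≤ (Sn q0 + s2) * xe ^ 2 - s2) (hu : 0 ≤ u)
    (hu2 : u ^ 2 ≤ ((Sn p0 + s1) * xe - s1) * (1 - ((Sn q0 + s2) * xe ^ 2 - s2)))
    (hv2 : v ^ 2 ≤ ((Sn q0 + s2) * xe ^ 2 - s2) * (1 - ((Sn p0 + s1) * xe - s1)))
    (hF : (fo (Sn p0) (Sn q0) ^ 2 + s3) * xe < fo (Sn p0) (Sn q0) * (u + v) + s3)
    (hH : (Sn p0 + s1) * xe ≤ s1 ∨ (Sn q0 + s2) * xe ^ 2 ≤ s2 ∨
      ((fo (Sn p0) (Sn q0) ^ 2 + s3) * xe ^ 2 ≤ Sn h + s3 ∧ p0 + q0 ≤ 1 - h))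
    (hE1 : s1 ^ 2 * (fo (Sn p0) (Sn q0) ^ 2 + s3) < (Sn p0 + s1) ^ 2 * (Sn h + s3) ∨
      (Sn h + s2) * (fo (Sn p0) (Sn q0) ^ 2 + s3) < (Sn q0 + s2) * (Sn h + s3))
    (hE2 : s2 * (fo (Sn p0) (Sn q0) ^ 2 + s3) < (Sn q0 + s2) * (Sn h + s3) ∨
      (Sn h + s1) ^ 2 * (fo (Sn p0) (Sn q0) ^ 2 + s3) < (Sn p0 + s1) ^ 2 * (Sn h + s3))
    (hE : Es (Sn p0) (Sn q0) s1 s2 ≤ T) (hT : T ^ 2 < fo (Sn p0) (Sn q0) ^ 2 + s3)
    (hC : ∀ p q : ℝ, 0 ≤ p → 0 ≤ q → p + q < h → 0 < SW s1 s2 s3 p0 q0 p q) :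
    ∃ c > 0, ∀ p ∈ Icc (0 : ℝ) (1 / 2), ∀ q ∈ Icc (0 : ℝ) (1 / 2),
      c * ((p - p0) ^ 2 + (q - q0) ^ 2) ≤ SW s1 s2 s3 p0 q0 p q := by
  have hlt1 : ∀ t : ℝ, 0 < t → t < 1 / 2 → Sn t < 1 := by
    intro t h0 h1
    have h2 := cos_sq_eq t
    have hpi := Real.pi_pos
    have h3 : 0 < Real.cos (Real.pi * t) := Real.cos_pos_of_mem_Ioo ⟨by linarith only [mul_pos (sub_pos.2 h0) (sub_pos.2 hpi),
                                                                          mul_pos (sub_pos.2 hp1) (sub_pos.2 hpi),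
                                                                          mul_pos (sub_pos.2 hp0) (sub_pos.2 hpi)], by linarith only [mul_pos (sub_pos.2 h1) (sub_pos.2 hpi)]⟩
    have h4 := pow_pos h3 2
    linarith only [h4, h2]
  refine SW_critG hs1 hs2 hs3 hp0 hp1 hq0 hq1 hh0 hxe0 hae hbe ?_ hH hE1 hE2 hE hT hC
  intro x hx hx1
  exact G_lt (Sn_pos hp0 (by linarith only [hp1])) (hlt1 p0 hp0 hp1) (Sn_pos hq0 (by linarith only [hq1,
                                                                                       hp1, hp0]))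
    (hlt1 q0 hq0 hq1) hs1 hs2 hs3 hx hx1 hxe0 rfl hae hbe hu hu2 hv2 hF rfl rfl

/-- **The criterion**, weights `2` and `1`. -/
theorem SW_crit {s1 s2 s3 p0 q0 h xe u v xf uf vf T : ℝ} (hs1 : 0 ≤ s1) (hs2 : 0 ≤ s2)
    (hs3 : 0 ≤ s3) (hp0 : 0 < p0) (hp1 : p0 < 1 / 2) (hq0 : 0 < q0) (hq1 : q0 < 1 / 2)
    (hh0 : 0 ≤ h) (hxe0 : 0 ≤ xe)
    (hae : 0 ≤ (Sn p0 + s1) * xe - s1) (hbe : 0 ≤ (Sn q0 + s2) * xe ^ 2 - s2) (hu : 0 ≤ u)
    (hu2 : u ^ 2 ≤ ((Sn p0 + s1) * xe - s1) * (1 - ((Sn q0 + s2) * xe ^ 2 - s2)))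
    (hv2 : v ^ 2 ≤ ((Sn q0 + s2) * xe ^ 2 - s2) * (1 - ((Sn p0 + s1) * xe - s1)))
    (hF : (fo (Sn p0) (Sn q0) ^ 2 + s3) * xe < fo (Sn p0) (Sn q0) * (u + v) + s3)
    (hH : (Sn p0 + s1) * xe ≤ s1 ∨ (Sn q0 + s2) * xe ^ 2 ≤ s2 ∨
      ((fo (Sn p0) (Sn q0) ^ 2 + s3) * xe ^ 2 ≤ Sn h + s3 ∧ p0 + q0 ≤ 1 - h))
    (hE1 : s1 ^ 2 * (fo (Sn p0) (Sn q0) ^ 2 + s3) < (Sn p0 + s1) ^ 2 * (Sn h + s3) ∨
      (Sn h + s2) * (fo (Sn p0) (Sn q0) ^ 2 + s3) < (Sn q0 + s2) * (Sn h + s3))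
    (hE2 : s2 * (fo (Sn p0) (Sn q0) ^ 2 + s3) < (Sn q0 + s2) * (Sn h + s3) ∨
      (Sn h + s1) ^ 2 * (fo (Sn p0) (Sn q0) ^ 2 + s3) < (Sn p0 + s1) ^ 2 * (Sn h + s3))
    (hxf0 : 0 ≤ xf) (hxf1 : xf < 1) (haf : 0 ≤ (Sn p0 + s1) * xf - s1)
    (hbf : 0 ≤ (Sn q0 + s2) * xf ^ 2 - s2)
    (huf2 : uf ^ 2 ≤ ((Sn p0 + s1) * xf - s1) * (1 - ((Sn q0 + s2) * xf ^ 2 - s2)))
    (hvf2 : vf ^ 2 ≤ ((Sn q0 + s2) * xf ^ 2 - s2) * (1 - ((Sn p0 + s1) * xf - s1)))
    (hG : fo (Sn p0) (Sn q0) - T * (1 - xf) ≤ uf + vf) (hT : T ^ 2 < fo (Sn p0) (Sn q0) ^ 2 + s3)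
    (hC : ∀ p q : ℝ, 0 ≤ p → 0 ≤ q → p + q < h → 0 < SW s1 s2 s3 p0 q0 p q) :
    ∃ c > 0, ∀ p ∈ Icc (0 : ℝ) (1 / 2), ∀ q ∈ Icc (0 : ℝ) (1 / 2),
      c * ((p - p0) ^ 2 + (q - q0) ^ 2) ≤ SW s1 s2 s3 p0 q0 p q := by
  have hlt1 : ∀ t : ℝ, 0 < t → t < 1 / 2 → Sn t < 1 := by
    intro t h0 h1
    have h2 := cos_sq_eq t
    have hpi := Real.pi_pos
    have h3 : 0 < Real.cos (Real.pi * t) := Real.cos_pos_of_mem_Ioo ⟨by linarith only [mul_pos (sub_pos.2 h0) (sub_pos.2 hpi),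
                                                                          mul_pos (sub_pos.2 hp1) (sub_pos.2 hpi),
                                                                          mul_pos (sub_pos.2 hp0) (sub_pos.2 hpi)], by linarith only [mul_pos (sub_pos.2 h1) (sub_pos.2 hpi)]⟩
    have h4 := pow_pos h3 2
    linarith only [h4, h2]
  exact SW_critE hs1 hs2 hs3 hp0 hp1 hq0 hq1 hh0 hxe0 hae hbe hu hu2 hv2 hF hH hE1 hE2
    (Es_le (Sn_pos hp0 (by linarith only [hp1])) (hlt1 p0 hp0 hp1) (Sn_pos hq0 (by linarith only [hq1,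
                                                                                     hp1, hp0]))
      (hlt1 q0 hq0 hq1) hs1 hs2 hxf0 hxf1 haf hbf huf2 hvf2 hG) hT hC

end Pool.Agent.S5.C2
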