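import Pool.Agent.S5.I.W2d

/-!
# Closed vertices with two half twists, weights `2` and `1`: the whole square
-/

set_option autoImplicit false

namespace Pool.Agent.S5.C2

open MeasureTheory Filter Topology Set

theorem SW_mir_left {s1 s2 s3 p0 q0 x q : ℝ} (hs1 : 0 ≤ s1) (hs1' : s1 ≤ 1 / 2) (hs3 : 0 ≤ s3)
    (hx : 0 ≤ x) (hx1 : x ≤ 1 / 4) (hq : 0 ≤ q) (hq1 : q ≤ 3 / 4) :
    SW s1 s2 s3 p0 q0 (1 / 2 - x) q + 8 * x * Fi s1 s3 p0 (p0 + q0) ≤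
      SW s1 s2 s3 p0 q0 (1 / 2 + x) q := by
  have a1 := mir_left (s2 := s2) (p0 := p0) (q0 := q0) hs1 hs1' hs3 hx hx1 hq hq1
  rw [SW_eq, SW_eq]
  linarith

/-- From the square to the strip, by reflection. -/
theorem SW_strip_F {s1 s2 s3 p0 q0 : ℝ} (hs1 : 0 ≤ s1) (hs1' : s1 ≤ 1 / 2)
    (hs3 : 0 ≤ s3) (hp0 : 0 < p0) (hp1 : p0 < 1 / 2)
    (hsq : ∃ c > 0, ∀ p ∈ Icc (0 : ℝ) (1 / 2), ∀ q ∈ Icc (0 : ℝ) (1 / 2),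
      c * ((p - p0) ^ 2 + (q - q0) ^ 2) ≤ SW s1 s2 s3 p0 q0 p q)
    (F1 : 0 < Fi s1 s3 p0 (p0 + q0)) :
    ∃ c > 0, ∀ p ∈ Icc (0 : ℝ) (3 / 4), ∀ q ∈ Icc (0 : ℝ) (1 / 2),
      c * ((p - p0) ^ 2 + (q - q0) ^ 2) ≤ SW s1 s2 s3 p0 q0 p q := by
  obtain ⟨c, hc, h⟩ := hsq
  set f1 := Fi s1 s3 p0 (p0 + q0) with hf1
  refine ⟨min c (f1 / 4), lt_min hc (by linarith), ?_⟩
  intro p hp q hq
  have k1 : min c (f1 / 4) ≤ c := min_le_left _ _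
  have k2 : min c (f1 / 4) ≤ f1 / 4 := min_le_right _ _
  have k0 : 0 < min c (f1 / 4) := lt_min hc (by linarith)
  set c' := min c (f1 / 4)
  simp only [mem_Icc] at hp hq
  rcases le_total p (1 / 2) with hle | hle
  · have a1 := h p ⟨hp.1, hle⟩ q hq
    have : c' * ((p - p0) ^ 2 + (q - q0) ^ 2) ≤ c * ((p - p0) ^ 2 + (q - q0) ^ 2) :=
      mul_le_mul_of_nonneg_right k1 (by positivity)
    linarith
  · obtain ⟨x, rfl⟩ : ∃ x, p = 1 / 2 + x := ⟨p - 1 / 2, by ring⟩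
    have hx : 0 ≤ x := by linarith
    have hx1 : x ≤ 1 / 4 := by linarith
    have a1 := SW_mir_left (s2 := s2) (p0 := p0) (q0 := q0) hs1 hs1' hs3 hx hx1 hq.1 (by linarith)
    have a2 := h (1 / 2 - x) ⟨by linarith, by linarith⟩ q hq
    have a3 := mir_dist hx hx1 hp0 hp1
    have a4 : c' * ((1 / 2 - x - p0) ^ 2 + (q - q0) ^ 2) ≤
        c * ((1 / 2 - x - p0) ^ 2 + (q - q0) ^ 2) := mul_le_mul_of_nonneg_right k1 (by positivity)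
    have a5 : c' * (2 * x) ≤ f1 / 4 * (2 * x) := mul_le_mul_of_nonneg_right k2 (by linarith)
    have a6 : c' * (1 / 2 + x - p0) ^ 2 ≤ c' * ((1 / 2 - x - p0) ^ 2 + 2 * x) :=
      mul_le_mul_of_nonneg_left a3 k0.le
    have a7 : 0 ≤ x * f1 := mul_nonneg hx (by rw [hf1]; exact F1.le)
    rw [← hf1] at a1
    nlinarith

/-- From the square to the strip, by the second method. -/
theorem SW_strip_M {s1 s2 s3 p0 q0 : ℝ} (hp0 : 0 < p0) (hp1 : p0 < 1 / 2) (hq0 : 0 < q0)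
    (hq1 : q0 < 1 / 2)
    (hsq : ∃ c > 0, ∀ p ∈ Icc (0 : ℝ) (1 / 2), ∀ q ∈ Icc (0 : ℝ) (1 / 2),
      c * ((p - p0) ^ 2 + (q - q0) ^ 2) ≤ SW s1 s2 s3 p0 q0 p q)
    (hM : ∀ e0 : ℝ, (∀ q ∈ Icc (0 : ℝ) (1 / 2), e0 ≤ SW s1 s2 s3 p0 q0 (1 / 2) q) →
      ∀ p q : ℝ, 1 / 2 ≤ p → p ≤ 3 / 4 → 0 ≤ q → q ≤ 1 / 2 → e0 ≤ SW s1 s2 s3 p0 q0 p q) :
    ∃ c > 0, ∀ p ∈ Icc (0 : ℝ) (3 / 4), ∀ q ∈ Icc (0 : ℝ) (1 / 2),
      c * ((p - p0) ^ 2 + (q - q0) ^ 2) ≤ SW s1 s2 s3 p0 q0 p q := by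
  obtain ⟨c, hc, h⟩ := hsq
  have hd : 0 < (1 / 2 - p0) ^ 2 := by
    have : 0 < 1 / 2 - p0 := by linarith
    positivity
  have he := hM (c * (1 / 2 - p0) ^ 2) (by
    intro q hq
    have a1 := h (1 / 2) ⟨by norm_num, le_rfl⟩ q hq
    have : c * (1 / 2 - p0) ^ 2 ≤ c * ((1 / 2 - p0) ^ 2 + (q - q0) ^ 2) :=
      mul_le_mul_of_nonneg_left (by nlinarith [sq_nonneg (q - q0)]) hc.le
    linarith)
  have he0 : 0 < c * (1 / 2 - p0) ^ 2 := mul_pos hc hd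
  set e0 := c * (1 / 2 - p0) ^ 2
  refine ⟨min c e0, lt_min hc he0, ?_⟩
  intro p hp q hq
  have k1 : min c e0 ≤ c := min_le_left _ _
  have k2 : min c e0 ≤ e0 := min_le_right _ _
  simp only [mem_Icc] at hp hq
  rcases le_total p (1 / 2) with hle | hle
  · have a1 := h p ⟨hp.1, hle⟩ q hq
    have : min c e0 * ((p - p0) ^ 2 + (q - q0) ^ 2) ≤ c * ((p - p0) ^ 2 + (q - q0) ^ 2) :=
      mul_le_mul_of_nonneg_right k1 (by positivity)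
    linarith
  · have a1 := he p q hle hp.2 hq.1 hq.2
    have h1 : (p - p0) ^ 2 ≤ (3 / 4) ^ 2 := sq_le_sq' (by linarith) (by linarith)
    have h2 : (q - q0) ^ 2 ≤ (1 / 2) ^ 2 := sq_le_sq' (by linarith) (by linarith)
    have h3 : min c e0 * ((p - p0) ^ 2 + (q - q0) ^ 2) ≤ min c e0 * 1 :=
      mul_le_mul_of_nonneg_left (by norm_num at h1 h2 ⊢; linarith) (lt_min hc he0).le
    linarith

/-- **The numeric criterion for the part `p ≥ 1 / 2`**, weights `2` and `1`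
(the hypotheses of `SS_M` for `w = 1`). -/
theorem SW_M {s1 s2 s3 p0 q0 ξ1 ξ2 b1 b2 u2 : ℝ} (hs1 : 0 ≤ s1) (hs2 : 0 < s2)
    (hs3 : 0 ≤ s3) (hp0 : 0 < p0) (hp1 : p0 < 1 / 2) (hq0 : 0 < q0) (hq1 : q0 < 1 / 2)
    (hψ : (Sn q0 + s2) * (0.3706 + s3) ≤ (1 / 4 + s2) * (Sn (p0 + q0) + s3))
    (hξ1 : 0 < ξ1) (hξ2 : 0 < ξ2)
    (hb1 : b1 ≤ 0 ∨ b1 + s2 ≤ (Sn q0 + s2) * ξ1 ^ 2)
    (hx1 : 1 - b1 + s3 ≤ (Sn (p0 + q0) + s3) * ξ1 ^ 2)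
    (hb2 : b2 ≤ 0 ∨ b2 + s2 ≤ (Sn q0 + s2) * ξ2 ^ 2)
    (hb20 : 0 ≤ b2) (hb21 : b2 ≤ 1 / 2) (hu : 0 ≤ u2) (hu2 : u2 ^ 2 ≤ b2 * (1 - b2))
    (hx2 : 1 / 2 + 0.3536 * (1 - 2 * b2) - 0.707 * u2 + s3 ≤ (Sn (p0 + q0) + s3) * ξ2 ^ 2)
    (m3 : (Sn p0 + s1) ^ 2 * ξ1 ^ 2 ≤ (1 + s1) * (0.8535 + s1))
    (m4 : (Sn p0 + s1) ^ 4 * (ξ1 ^ 2 * ξ2 ^ 2) ≤ (1 + s1) * (0.8535 + s1) ^ 2 * (1 / 2 + s1))
    (e0 : ℝ) (hS : ∀ q ∈ Icc (0 : ℝ) (1 / 2), e0 ≤ SW s1 s2 s3 p0 q0 (1 / 2) q)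
    (p q : ℝ) (hp : 1 / 2 ≤ p) (hp' : p ≤ 3 / 4) (hq : 0 ≤ q) (hq' : q ≤ 1 / 2) :
    e0 ≤ SW s1 s2 s3 p0 q0 p q := by
  have h := SS_M (w := 1) (e0 := e0) hs1 hs2 hs3 hp0 hp1 hq0 hq1 (by simpa using hψ) hξ1 hξ2
    (hb1.imp_right fun h => Or.inr ⟨rfl, h⟩) hx1 (hb2.imp_right fun h => Or.inr ⟨rfl, h⟩)
    hb20 hb21 hu hu2 hx2 m3 m4 (by
      intro q hq
      have := hS q hq
      unfold SW at this
      simpa using this) p q hp hp' hq hq'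
  unfold SW
  simpa using h

/-- **From the strip to the whole square**, weights `2` and `1`. -/
theorem SW_flat {s1 s2 s3 p0 q0 : ℝ} (hp0 : 0 < p0) (hp1 : p0 < 1 / 2) (hq0 : 0 < q0)
    (hq1 : q0 < 1 / 2)
    (hst : ∃ c > 0, ∀ p ∈ Icc (0 : ℝ) (3 / 4), ∀ q ∈ Icc (0 : ℝ) (1 / 2),
      c * ((p - p0) ^ 2 + (q - q0) ^ 2) ≤ SW s1 s2 s3 p0 q0 p q)
    (hR : ∀ p q : ℝ, 0 ≤ p → p ≤ 3 / 4 → 1 / 2 ≤ q → q ≤ 3 / 4 →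
      1 / 20 ≤ SW s1 s2 s3 p0 q0 p q) :
    ∃ c > 0, ∀ p ∈ Icc (0 : ℝ) (3 / 4), ∀ q ∈ Icc (0 : ℝ) (3 / 4),
      c * ((p - p0) ^ 2 + (q - q0) ^ 2) ≤ SW s1 s2 s3 p0 q0 p q := by
  obtain ⟨c, hc, h⟩ := hst
  refine ⟨min c (1 / 40), lt_min hc (by norm_num), ?_⟩
  intro p hp q hq
  have k1 : min c (1 / 40) ≤ c := min_le_left _ _
  have k2 : min c (1 / 40) ≤ 1 / 40 := min_le_right _ _
  have k0 : 0 < min c (1 / 40) := lt_min hc (by norm_num)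
  rcases le_total q (1 / 2) with hle | hle
  · have a1 := h p hp q ⟨hq.1, hle⟩
    have : min c (1 / 40) * ((p - p0) ^ 2 + (q - q0) ^ 2) ≤ c * ((p - p0) ^ 2 + (q - q0) ^ 2) :=
      mul_le_mul_of_nonneg_right k1 (by positivity)
    linarith
  · have a1 := hR p q hp.1 hp.2 hle hq.2
    have h1 : (p - p0) ^ 2 ≤ 1 ^ 2 := sq_le_sq' (by linarith [hp.1]) (by linarith [hp.2])
    have h2 : (q - q0) ^ 2 ≤ 1 ^ 2 := sq_le_sq' (by linarith [hq.1]) (by linarith [hq.2])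
    have h3 : min c (1 / 40) * ((p - p0) ^ 2 + (q - q0) ^ 2) ≤ 1 / 40 * 2 :=
      mul_le_mul k2 (by linarith) (by positivity) (by norm_num)
    linarith

/-- The mirror image: weights `1` and `2` (the roles of `p` and `q` exchanged). -/
theorem SW_swap_flat {s1 s2 s3 p0 q0 : ℝ}
    (h : ∃ c > 0, ∀ p ∈ Icc (0 : ℝ) (3 / 4), ∀ q ∈ Icc (0 : ℝ) (3 / 4),
      c * ((p - p0) ^ 2 + (q - q0) ^ 2) ≤ SW s1 s2 s3 p0 q0 p q) :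
    ∃ c > 0, ∀ q ∈ Icc (0 : ℝ) (3 / 4), ∀ p ∈ Icc (0 : ℝ) (3 / 4),
      c * ((q - q0) ^ 2 + (p - p0) ^ 2) ≤
        Dq s2 q0 q + 2 * Dq s1 p0 p - Dq s3 (q0 + p0) (q + p) := by
  obtain ⟨c, hc, h⟩ := h
  refine ⟨c, hc, ?_⟩
  intro q hq p hp
  have := h p hp q hq
  unfold SW at this
  rw [add_comm q0 p0, add_comm q p]
  linarith

end Pool.Agent.S5.C2
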