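import Pool.Agent.S5.I.W2e

/-!
# Closed vertices with two half twists, weights `2` and `1`: the criteria on boxes
-/

set_option autoImplicit false

namespace Pool.Agent.S5.C2

open MeasureTheory Filter Topology Set

theorem sq_mid {a l u x : ℝ} (hl : l ≤ x) (hu : x ≤ u) (ha : 0 ≤ a) :
    a * x ^ 2 ≤ a * ((l + u) * x - l * u) := by
  apply mul_le_mul_of_nonneg_left _ ha
  nlinarith [mul_nonneg (sub_nonneg.2 hl) (sub_nonneg.2 hu)]

theorem fo_sq_add {a b : ℝ} (ha : 0 ≤ a) (ha1 : a ≤ 1) (hb : 0 ≤ b) (hb1 : b ≤ 1) :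
    fo a b ^ 2 + (√(1 - a) * √(1 - b) - √a * √b) ^ 2 = 1 := by
  rw [fo_eq ha hb]
  have e1 : √a ^ 2 = a := Real.sq_sqrt ha
  have e2 : √(1 - a) ^ 2 = 1 - a := Real.sq_sqrt (by linarith)
  have e3 : √b ^ 2 = b := Real.sq_sqrt hb
  have e4 : √(1 - b) ^ 2 = 1 - b := Real.sq_sqrt (by linarith)
  have : (√a * √(1 - b) + √b * √(1 - a)) ^ 2 + (√(1 - a) * √(1 - b) - √a * √b) ^ 2 =
      √a ^ 2 * √(1 - b) ^ 2 + √b ^ 2 * √(1 - a) ^ 2 + √(1 - a) ^ 2 * √(1 - b) ^ 2 +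
        √a ^ 2 * √b ^ 2 := by ring
  rw [this, e1, e2, e3, e4]
  ring

/-- The slope on a box. -/
theorem Es_box {a0 b0 s1 s2 au bu tu1 tu2 fl c m1 m2 : ℝ} (ha0 : 0 < a0) (ha1 : a0 < 1)
    (hb0 : 0 < b0) (hb1 : b0 < 1) (hs1 : 0 ≤ s1) (hs2 : 0 ≤ s2) (hau : a0 + s1 ≤ au + tu1)
    (hbu : b0 + s2 ≤ bu + tu2) (hfl0 : 0 ≤ fl) (hfl : fl ≤ fo a0 b0) (hc : 0 ≤ c)
    (hc1 : 1 ≤ c ^ 2 + fl ^ 2)
    (hm1 : 0 < m1) (hm2 : 0 < m2) (k1 : m1 ^ 2 ≤ a0 * (1 - a0)) (k2 : m2 ^ 2 ≤ b0 * (1 - b0)) :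
    Es a0 b0 s1 s2 ≤ c * ((au + tu1) / (2 * m1) + (bu + tu2) / m2) := by
  have hsp : 0 < √a0 := Real.sqrt_pos.2 ha0
  have hcp : 0 < √(1 - a0) := Real.sqrt_pos.2 (by linarith)
  have hsq : 0 < √b0 := Real.sqrt_pos.2 hb0
  have hcq : 0 < √(1 - b0) := Real.sqrt_pos.2 (by linarith)
  have e := fo_sq_add ha0.le ha1.le hb0.le hb1.le
  have h1 : √(1 - a0) * √(1 - b0) - √a0 * √b0 ≤ c := by
    apply le_of_sq_le_sq _ hc
    have : fl ^ 2 ≤ fo a0 b0 ^ 2 := pow_le_pow_left₀ hfl0 hfl 2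
    linarith
  have h2 : m1 ≤ √a0 * √(1 - a0) := by
    rw [← Real.sqrt_mul ha0.le]
    exact Real.le_sqrt_of_sq_le k1
  have h3 : m2 ≤ √b0 * √(1 - b0) := by
    rw [← Real.sqrt_mul hb0.le]
    exact Real.le_sqrt_of_sq_le k2
  have h4 : (a0 + s1) / (2 * (√a0 * √(1 - a0))) ≤ (au + tu1) / (2 * m1) := by
    apply div_le_div₀ (by linarith) hau (by positivity) (by linarith)
  have h5 : (b0 + s2) / (√b0 * √(1 - b0)) ≤ (bu + tu2) / m2 :=
    div_le_div₀ (by linarith) hbu hm2 h3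
  have h6 : 0 ≤ (a0 + s1) / (2 * (√a0 * √(1 - a0))) + (b0 + s2) / (√b0 * √(1 - b0)) := by
    positivity
  unfold Es
  exact mul_le_mul h1 (by linarith) h6 hc

/-- **The square on a box.** -/
theorem SW_sq_box {s1 s2 s3 p0 q0 al au bl bu tu1 tl2 tu2 tl3 fl fu xl xu ul uu c m1 m2 : ℝ}
    (hs1 : 0 ≤ s1) (hs3 : 0 ≤ s3) (hp0 : 0 < p0) (hp1 : p0 < 1 / 2)
    (hq0 : 0 < q0) (hq1 : q0 < 1 / 2)
    (ha : al ≤ Sn p0) (ha' : Sn p0 ≤ au) (hb : bl ≤ Sn q0) (hb' : Sn q0 ≤ bu)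
    (h1 : s1 ≤ tu1) (h2 : tl2 ≤ s2) (h2' : s2 ≤ tu2) (h3 : tl3 ≤ s3)
    (hf : fl ≤ fo (Sn p0) (Sn q0)) (hf' : fo (Sn p0) (Sn q0) ≤ fu)
    (hal : 0 ≤ al) (htl2 : 0 ≤ tl2) (htl3 : 0 ≤ tl3) (hfl0 : 0 ≤ fl)
    (hxl : 0 ≤ xl) (hxu : 0 ≤ xu) (hxl1 : xl ≤ 1) (hxu1 : xu ≤ 1)
    (c1 : xl ^ 2 * (bu + tl2) ≤ tl2) (c2 : tu2 ≤ xu ^ 2 * (bl + tu2))
    (hul : 0 ≤ ul) (huu : 0 ≤ uu)
    (c3 : ul ^ 2 + tu1 * (1 - xl) ≤ al * xl) (c4 : uu ^ 2 + tu1 * (1 - xu) ≤ al * xu)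
    (g1 : fl ^ 2 * xl < fl * ul + tl3 * (1 - xl)) (g2 : fu ^ 2 * xl < fu * ul + tl3 * (1 - xl))
    (g3 : fl ^ 2 * xu < fl * uu + tl3 * (1 - xu)) (g4 : fu ^ 2 * xu < fu * uu + tl3 * (1 - xu))
    (e1 : tu1 ^ 2 * (fu ^ 2 + tl3) < (al + tu1) ^ 2 * tl3)
    (hc : 0 ≤ c) (hc1 : 1 ≤ c ^ 2 + fl ^ 2) (hm1 : 0 < m1) (hm2 : 0 < m2)
    (k1 : m1 ^ 2 ≤ al * (1 - al)) (k2 : m1 ^ 2 ≤ au * (1 - au))
    (k3 : m2 ^ 2 ≤ bl * (1 - bl)) (k4 : m2 ^ 2 ≤ bu * (1 - bu))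
    (k5 : (c * ((au + tu1) * m2 + 2 * ((bu + tu2) * m1))) ^ 2 <
      (fl ^ 2 + tl3) * (2 * (m1 * m2)) ^ 2) :
    ∃ c > 0, ∀ p ∈ Icc (0 : ℝ) (1 / 2), ∀ q ∈ Icc (0 : ℝ) (1 / 2),
      c * ((p - p0) ^ 2 + (q - q0) ^ 2) ≤ SW s1 s2 s3 p0 q0 p q := by
  have hs2 : 0 ≤ s2 := by linarith
  have hlt1 : ∀ t : ℝ, 0 < t → t < 1 / 2 → Sn t < 1 := by
    intro t h0 h1
    have h2 := cos_sq_eq t
    have hpi := Real.pi_pos
    have h5 : 0 < Real.pi * t := mul_pos hpi h0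
    have h6 : Real.pi * t < Real.pi * (1 / 2) := mul_lt_mul_of_pos_left h1 hpi
    have h3 : 0 < Real.cos (Real.pi * t) := Real.cos_pos_of_mem_Ioo ⟨by linarith, by linarith⟩
    have h4 := pow_pos h3 2
    linarith
  have ha0 : 0 < Sn p0 := Sn_pos hp0 (by linarith)
  have hb0 : 0 < Sn q0 := Sn_pos hq0 (by linarith)
  have ha1 := hlt1 p0 hp0 hp1
  have hb1 := hlt1 q0 hq0 hq1
  set a0 := Sn p0 with ha0d
  set b0 := Sn q0 with hb0d
  set f := fo a0 b0 with hfd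
  have hf0 : 0 < f := by
    rw [hfd]
    unfold fo
    have : 0 < √(a0 * (1 - b0)) := Real.sqrt_pos.2 (mul_pos ha0 (by linarith))
    positivity
  -- the left end
  set xe := √(s2 / (b0 + s2)) with hxe
  have hA2 : 0 < b0 + s2 := by linarith
  have hxe0 : 0 ≤ xe := Real.sqrt_nonneg _
  have hxe2 : (b0 + s2) * xe ^ 2 = s2 := by
    rw [hxe, Real.sq_sqrt (by positivity)]
    field_simp
  have d1 : xl ≤ xe := by
    apply Real.le_sqrt_of_sq_le
    rw [le_div_iff₀ hA2]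
    have h5 : xl ^ 2 ≤ 1 := pow_le_one₀ hxl hxl1
    have h6 : xl ^ 2 * b0 ≤ xl ^ 2 * bu := mul_le_mul_of_nonneg_left hb' (by positivity)
    have h7 : 0 ≤ (1 - xl ^ 2) * (s2 - tl2) := mul_nonneg (by linarith) (by linarith)
    linarith
  have d2 : xe ≤ xu := by
    apply Real.sqrt_le_iff.2 ⟨hxu, ?_⟩
    rw [div_le_iff₀ hA2]
    have h5 : xu ^ 2 ≤ 1 := pow_le_one₀ hxu hxu1
    have h6 : xu ^ 2 * bl ≤ xu ^ 2 * b0 := mul_le_mul_of_nonneg_left hb (by positivity)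
    have h7 : 0 ≤ (1 - xu ^ 2) * (tu2 - s2) := mul_nonneg (by linarith) (by linarith)
    linarith
  obtain ⟨t, ht0, ht1, htx⟩ : ∃ t : ℝ, 0 ≤ t ∧ t ≤ 1 ∧ xe = t * xl + (1 - t) * xu := by
    rcases (d1.trans d2).eq_or_lt with he | hlt
    · exact ⟨1, by norm_num, le_rfl, by linarith⟩
    · have h5 : 0 < xu - xl := by linarith
      refine ⟨(xu - xe) / (xu - xl), div_nonneg (by linarith) h5.le,
        (div_le_one h5).2 (by linarith), ?_⟩
      field_simp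
      ring
  set u := t * ul + (1 - t) * uu with hud
  have ht2 : 0 ≤ 1 - t := by linarith
  have hu0 : 0 ≤ u := by positivity
  have hu2 : u ^ 2 ≤ (a0 + s1) * xe - s1 := by
    have h5 : u ^ 2 ≤ t * ul ^ 2 + (1 - t) * uu ^ 2 := by
      have h6 : 0 ≤ t * (1 - t) * (ul - uu) ^ 2 := by positivity
      have h7 : t * ul ^ 2 + (1 - t) * uu ^ 2 - u ^ 2 = t * (1 - t) * (ul - uu) ^ 2 := by
        rw [hud]
        ring
      linarith
    have h6 : t * ul ^ 2 + (1 - t) * uu ^ 2 ≤ al * xe - tu1 * (1 - xe) := by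
      have h7 := mul_le_mul_of_nonneg_left c3 ht0
      have h8 := mul_le_mul_of_nonneg_left c4 ht2
      rw [htx]
      linarith
    have h7 : al * xe ≤ a0 * xe := mul_le_mul_of_nonneg_right ha hxe0
    have h8 : s1 * (1 - xe) ≤ tu1 * (1 - xe) := mul_le_mul_of_nonneg_right h1 (by linarith)
    linarith
  -- the value there
  have hG : ∀ x w : ℝ, 0 ≤ x → x ≤ 1 → fl ^ 2 * x < fl * w + tl3 * (1 - x) →
      fu ^ 2 * x < fu * w + tl3 * (1 - x) → f ^ 2 * x < f * w + s3 * (1 - x) := by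
    intro x w hx hx1 i1 i2
    have h5 := sq_mid hf hf' hx
    have h6 : tl3 * (1 - x) ≤ s3 * (1 - x) := mul_le_mul_of_nonneg_right h3 (by linarith)
    rcases (hf.trans hf').eq_or_lt with he | hlt
    · have h7 : f = fl := le_antisymm (by linarith) hf
      rw [h7]
      linarith
    · have h7 : 0 < fu - fl := by linarith
      have j1 : 0 ≤ fu - f := by linarith
      have j2 : 0 ≤ f - fl := by linarith
      have h8 : (fu - fl) * (x * ((fl + fu) * f - fl * fu)) <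
          (fu - fl) * (f * w + tl3 * (1 - x)) := by
        have h9 : (fu - fl) * (f * w + tl3 * (1 - x)) -
            (fu - fl) * (x * ((fl + fu) * f - fl * fu)) =
            (fu - f) * (fl * w + tl3 * (1 - x) - fl ^ 2 * x) +
              (f - fl) * (fu * w + tl3 * (1 - x) - fu ^ 2 * x) := by ring
        rcases j1.eq_or_lt with j | j
        · have h10 : 0 < f - fl := by linarith
          have h11 : 0 < (f - fl) * (fu * w + tl3 * (1 - x) - fu ^ 2 * x) :=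
            mul_pos h10 (by linarith)
          have h12 : 0 ≤ (fu - f) * (fl * w + tl3 * (1 - x) - fl ^ 2 * x) :=
            mul_nonneg j1 (by linarith)
          linarith
        · have h11 : 0 ≤ (f - fl) * (fu * w + tl3 * (1 - x) - fu ^ 2 * x) :=
            mul_nonneg j2 (by linarith)
          have h12 : 0 < (fu - f) * (fl * w + tl3 * (1 - x) - fl ^ 2 * x) :=
            mul_pos j (by linarith)
          linarith
      have h9 := lt_of_mul_lt_mul_left h8 h7.le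
      linarith
  have i1 := hG xl ul hxl hxl1 g1 g2
  have i2 := hG xu uu hxu hxu1 g3 g4
  have i3 : f ^ 2 * xe < f * u + s3 * (1 - xe) := by
    have h5 : f * u + s3 * (1 - xe) - f ^ 2 * xe = t * (f * ul + s3 * (1 - xl) - f ^ 2 * xl) +
        (1 - t) * (f * uu + s3 * (1 - xu) - f ^ 2 * xu) := by
      rw [htx, hud]
      ring
    rcases ht0.eq_or_lt with j | j
    · have h6 : 0 ≤ t * (f * ul + s3 * (1 - xl) - f ^ 2 * xl) := mul_nonneg ht0 (by linarith)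
      have h7 : 0 < (1 - t) * (f * uu + s3 * (1 - xu) - f ^ 2 * xu) :=
        mul_pos (by linarith) (by linarith)
      linarith
    · have h6 : 0 < t * (f * ul + s3 * (1 - xl) - f ^ 2 * xl) := mul_pos j (by linarith)
      have h7 : 0 ≤ (1 - t) * (f * uu + s3 * (1 - xu) - f ^ 2 * xu) :=
        mul_nonneg ht2 (by linarith)
      linarith
  -- the edges
  have i4 : s1 ^ 2 * (f ^ 2 + s3) < (a0 + s1) ^ 2 * s3 := by
    have ht1' : 0 ≤ tu1 := hs1.trans h1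
    have htl3' : 0 < tl3 := by
      rcases htl3.eq_or_lt with j | j
      · rw [← j] at e1
        have : 0 ≤ tu1 ^ 2 * (fu ^ 2 + 0) := by positivity
        linarith
      · exact j
    have hs3' : 0 < s3 := by linarith
    have h5 : s1 * (al + tu1) ≤ tu1 * (a0 + s1) := by
      have j1 : s1 * al ≤ tu1 * a0 := mul_le_mul h1 ha hal ht1'
      linarith
    have h6 : (s1 * (al + tu1)) ^ 2 ≤ (tu1 * (a0 + s1)) ^ 2 :=
      pow_le_pow_left₀ (by positivity) h5 2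
    have h7 : f ^ 2 ≤ fu ^ 2 := pow_le_pow_left₀ hf0.le hf' 2
    have h8 : (f ^ 2 + s3) * tl3 ≤ (fu ^ 2 + tl3) * s3 := by
      have j1 : f ^ 2 * tl3 ≤ fu ^ 2 * s3 := mul_le_mul h7 h3 htl3 (by positivity)
      linarith
    have h9 : 0 < al + tu1 := by
      by_contra hcon
      rw [not_lt] at hcon
      have j1 : al = 0 := by linarith
      have j2 : tu1 = 0 := by linarith
      rw [j1, j2] at e1
      norm_num at e1
    have h10 : 0 < tl3 * (al + tu1) ^ 2 := by positivity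
    have h11 : (s1 ^ 2 * (f ^ 2 + s3)) * (tl3 * (al + tu1) ^ 2) <
        ((a0 + s1) ^ 2 * s3) * (tl3 * (al + tu1) ^ 2) := by
      calc (s1 ^ 2 * (f ^ 2 + s3)) * (tl3 * (al + tu1) ^ 2) =
          (s1 * (al + tu1)) ^ 2 * ((f ^ 2 + s3) * tl3) := by ring
        _ ≤ (tu1 * (a0 + s1)) ^ 2 * ((fu ^ 2 + tl3) * s3) :=
            mul_le_mul h6 h8 (by positivity) (by positivity)
        _ = (tu1 ^ 2 * (fu ^ 2 + tl3)) * ((a0 + s1) ^ 2 * s3) := by ring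
        _ < ((al + tu1) ^ 2 * tl3) * ((a0 + s1) ^ 2 * s3) :=
            mul_lt_mul_of_pos_right e1 (by positivity)
        _ = _ := by ring
    exact lt_of_mul_lt_mul_right h11 h10.le
  -- the slope
  have conc : ∀ {l r x m : ℝ}, l ≤ x → x ≤ r → m ≤ l * (1 - l) → m ≤ r * (1 - r) →
      m ≤ x * (1 - x) := by
    intro l r x m hl hr j1 j2
    rcases (hl.trans hr).eq_or_lt with he | hlt
    · have h7 : x = l := le_antisymm (by linarith) hl
      rw [h7]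
      exact j1
    · have h5 : 0 ≤ (r - x) * (l * (1 - l) - m) := mul_nonneg (by linarith) (by linarith)
      have h6 : 0 ≤ (x - l) * (r * (1 - r) - m) := mul_nonneg (by linarith) (by linarith)
      have h7 : 0 ≤ (r - l) * ((x - l) * (r - x)) :=
        mul_nonneg (by linarith) (mul_nonneg (by linarith) (by linarith))
      have h8 : (r - l) * (x * (1 - x) - m) = (r - x) * (l * (1 - l) - m) +
          (x - l) * (r * (1 - r) - m) + (r - l) * ((x - l) * (r - x)) := by ring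
      have h9 : 0 ≤ (r - l) * (x * (1 - x) - m) := by linarith
      have := nonneg_of_mul_nonneg_right h9 (by linarith : 0 < r - l)
      linarith
  have hEs := Es_box (au := au) (bu := bu) (tu1 := tu1) (tu2 := tu2) ha0 ha1 hb0 hb1 hs1 hs2
    (by linarith) (by linarith) hfl0 hf hc hc1 hm1 hm2 (conc ha ha' k1 k2) (conc hb hb' k3 k4)
  have hT : (c * ((au + tu1) / (2 * m1) + (bu + tu2) / m2)) ^ 2 < f ^ 2 + s3 := by
    have h5 : fl ^ 2 ≤ f ^ 2 := pow_le_pow_left₀ hfl0 hf 2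
    have h6 : 0 < (2 * (m1 * m2)) ^ 2 := by positivity
    have h7 : (c * ((au + tu1) / (2 * m1) + (bu + tu2) / m2)) ^ 2 * (2 * (m1 * m2)) ^ 2 =
        (c * ((au + tu1) * m2 + 2 * ((bu + tu2) * m1))) ^ 2 := by
      field_simp
      try ring
    have h8 : (fl ^ 2 + tl3) * (2 * (m1 * m2)) ^ 2 ≤ (f ^ 2 + s3) * (2 * (m1 * m2)) ^ 2 :=
      mul_le_mul_of_nonneg_right (by linarith) h6.le
    have h9 : (c * ((au + tu1) / (2 * m1) + (bu + tu2) / m2)) ^ 2 * (2 * (m1 * m2)) ^ 2 <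
        (f ^ 2 + s3) * (2 * (m1 * m2)) ^ 2 := by
      rw [h7]
      linarith
    exact lt_of_mul_lt_mul_right h9 h6.le
  apply SW_critE (h := 0) (xe := xe) (u := u) (v := 0) hs1 hs2 hs3 hp0 hp1 hq0 hq1 le_rfl hxe0
    ?_ ?_ hu0 ?_ ?_ ?_ ?_ ?_ ?_ hEs hT
  · intro p q hp hq hh
    linarith
  · have := sq_nonneg u
    linarith
  · rw [hxe2]
    linarith
  · rw [hxe2]
    linarith
  · rw [hxe2]
    simp
  · rw [← hfd]
    linarith
  · exact Or.inr (Or.inl hxe2.le)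
  · rw [Sn_zero, zero_add, zero_add]
    exact Or.inl i4
  · rw [Sn_zero, zero_add, zero_add]
    exact Or.inr i4

end Pool.Agent.S5.C2
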