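import Pool.Agent.S5.I.W2h

/-!
# Closed vertices with two half twists, weights `2` and `1`: the tests of the other parts

All numbers are in units of `2^(-20)`.
-/

set_option autoImplicit false

namespace Pool.Agent.S5.F

open Pool.Agent.S5.C2 Pool.Agent.S5.Num Set

/-- The test of the reflection (`p ≥ 1 / 2`, `q ≤ 1 / 2`). -/
def w2f (d : Dt) : Bool :=
  cond (Nat.ble (Nat.mul 2 d.s1h) 1048576)
  (cond (Nat.ble 74409449409740800 (Nat.mul 100000 (Nat.mul d.f0 d.f0)))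
  (Nat.ble (Nat.succ (Nat.mul 43980465111040000 (Nat.mul (Nat.pow (Nat.add d.a1 d.s1h) 4)
      (Nat.mul (Nat.add 1048576 (Nat.mul 2 d.s3h)) (Nat.add 17899192320 (Nat.mul 20000 d.s3h))))))
    (Nat.mul (fN (fun m => Nat.mul m m) (Nat.mul (Nat.add 1048576 (Nat.mul 2 d.s1l))
      (Nat.add 17899192320 (Nat.mul 20000 d.s1l))))
      (fN (fun m => Nat.mul m m) (Nat.add (Nat.mul d.f0 d.f0) (Nat.mul 1048576 d.s3h)))))
  false) false

/-- The test of the part `q ≥ 1 / 2`. -/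
def w2r (d : Dt) (x y z : ℕ) : Bool :=
  cond (Nat.ble d.b1 524288) (cond (Nat.ble 3298534883328 (Nat.mul 4 (Nat.mul d.f0 d.f0)))
  (cond (Nat.ble 1048576 x) (cond (Nat.ble 1048576 y) (cond (Nat.ble 1048576 z)
  (cond (Nat.ble (Nat.mul 2097152 (fN (fun m => Nat.mul m m) (Nat.add d.a1 d.s1h)))
    (Nat.mul z (Nat.mul (Nat.add 1048576 d.s1l) (Nat.add 1048576 (Nat.mul 2 d.s1l)))))
  (cond (Nat.ble (Nat.mul 1099511627776 (Nat.add 1048576 d.s3l))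
    (Nat.mul y (Nat.add (Nat.mul d.f0 d.f0) (Nat.mul 1048576 d.s3l))))
  (cond (Nat.ble (Nat.mul 40000 (Nat.mul x (fN (fun m => Nat.mul m m) (Nat.add d.b1 d.s2l))))
    (Nat.mul 1048576 (Nat.mul (Nat.add 1048576 (Nat.mul 2 d.s2l))
      (Nat.add 17899192320 (Nat.mul 20000 d.s2l)))))
  (cond (Nat.ble (Nat.mul 40000 (Nat.mul x (fN (fun m => Nat.mul m m) (Nat.add d.b1 d.s2h))))
    (Nat.mul 1048576 (Nat.mul (Nat.add 1048576 (Nat.mul 2 d.s2h))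
      (Nat.add 17899192320 (Nat.mul 20000 d.s2h)))))
  (Nat.ble (Nat.mul 1103 (Nat.mul (Nat.pow z 6) (Nat.pow y 8)))
    (Nat.mul 100 (Nat.mul (Nat.pow 1048576 11) (Nat.pow x 3))))
  false) false) false) false) false) false) false) false) false

/-- The alternative for `b` and `ξ`. -/
def w2b (d : Dt) (b ξ : ℕ) : Bool :=
  cond (Nat.ble b 0) true
  (cond (Nat.ble (Nat.mul 1099511627776 (Nat.add b d.s2l))
    (Nat.mul (Nat.add d.b0 d.s2l) (Nat.mul ξ ξ)))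
  (Nat.ble (Nat.mul 1099511627776 (Nat.add b d.s2h))
    (Nat.mul (Nat.add d.b0 d.s2h) (Nat.mul ξ ξ))) false)

/-- The test of the second method (`p ≥ 1 / 2`, `q ≤ 1 / 2`). -/
def w2m (d : Dt) (ξ1 ξ2 b1 b2 u2 : ℕ) : Bool :=
  cond (Nat.ble 1 d.s2l) (cond (Nat.ble (Nat.mul 4 d.b1) 1048576)
  (cond (Nat.ble 4074790092537856 (Nat.mul 10000 (Nat.mul d.f0 d.f0)))
  (cond (Nat.ble (Nat.mul 4194304 (Nat.mul (Nat.add d.b1 d.s2h)
      (Nat.add 3886022656 (Nat.mul 10000 d.s3h))))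
    (Nat.mul 10000 (Nat.mul (Nat.add 1048576 (Nat.mul 4 d.s2h))
      (Nat.add (Nat.mul d.f0 d.f0) (Nat.mul 1048576 d.s3h)))))
  (cond (Nat.ble 1 ξ1) (cond (Nat.ble 1 ξ2)
  (cond (w2b d b1 ξ1) (cond (w2b d b2 ξ2)
  (cond (Nat.ble (Nat.mul 1152921504606846976 (Nat.add 1048576 d.s3l))
    (Nat.add (Nat.mul 1152921504606846976 b1) (Nat.mul (Nat.mul ξ1 ξ1)
      (Nat.add (Nat.mul d.f0 d.f0) (Nat.mul 1048576 d.s3l)))))
  (cond (Nat.ble (Nat.mul 1152921504606846976 (Nat.add 1048576 d.s3h))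
    (Nat.add (Nat.mul 1152921504606846976 b1) (Nat.mul (Nat.mul ξ1 ξ1)
      (Nat.add (Nat.mul d.f0 d.f0) (Nat.mul 1048576 d.s3h)))))
  (cond (Nat.ble (Nat.mul 2 b2) 1048576)
  (cond (Nat.ble (Nat.add (Nat.mul u2 u2) (Nat.mul b2 b2)) (Nat.mul 1048576 b2))
  (cond (Nat.ble (Nat.mul 1152921504606846976 (Nat.add 8950644736 (Nat.mul 10000 d.s3l)))
    (Nat.add (Nat.mul 1152921504606846976 (Nat.add (Nat.mul 7072 b2) (Nat.mul 7070 u2)))
      (Nat.mul 10000 (Nat.mul (Nat.mul ξ2 ξ2)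
        (Nat.add (Nat.mul d.f0 d.f0) (Nat.mul 1048576 d.s3l))))))
  (cond (Nat.ble (Nat.mul 1152921504606846976 (Nat.add 8950644736 (Nat.mul 10000 d.s3h)))
    (Nat.add (Nat.mul 1152921504606846976 (Nat.add (Nat.mul 7072 b2) (Nat.mul 7070 u2)))
      (Nat.mul 10000 (Nat.mul (Nat.mul ξ2 ξ2)
        (Nat.add (Nat.mul d.f0 d.f0) (Nat.mul 1048576 d.s3h))))))
  (cond (Nat.ble (Nat.mul 20000 (Nat.mul (Nat.mul ξ1 ξ1)
      (fN (fun m => Nat.mul m m) (Nat.add d.a1 d.s1h))))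
    (Nat.mul 1099511627776 (Nat.mul (Nat.add 1048576 d.s1l)
      (Nat.add 17899192320 (Nat.mul 20000 d.s1l)))))
  (Nat.ble (Nat.mul 800000000 (Nat.mul (Nat.mul (Nat.mul ξ1 ξ1) (Nat.mul ξ2 ξ2))
      (Nat.pow (Nat.add d.a1 d.s1h) 4)))
    (Nat.mul 1208925819614629174706176 (Nat.mul (Nat.mul (Nat.add 1048576 d.s1l)
      (Nat.add 1048576 (Nat.mul 2 d.s1l)))
      (fN (fun m => Nat.mul m m) (Nat.add 17899192320 (Nat.mul 20000 d.s1l))))))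
  false) false) false) false) false) false) false) false) false) false) false) false) false) false)
  false

theorem Sn_strict {s t : ℝ} (h0 : 0 < s) (h1 : s < t) (h2 : t ≤ 1 / 2) : Sn s < Sn t := by
  have hpi := Real.pi_pos
  have h3 : Real.pi * s < Real.pi * t := mul_lt_mul_of_pos_left h1 hpi
  have h4 : Real.pi * t ≤ Real.pi * (1 / 2) := mul_le_mul_of_nonneg_left h2 hpi.le
  have h5 : 0 < Real.pi * s := mul_pos hpi h0
  unfold Sn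
  apply pow_lt_pow_left₀ _ _ (by norm_num)
  · exact Real.sin_lt_sin_of_lt_of_le_pi_div_two (by linarith) (by linarith) h3
  · exact (Real.sin_pos_of_pos_of_lt_pi h5 (by linarith)).le

theorem w2f_sound {d : Dt} {p h q g : ℝ} (ht : w2f d = true) (hd : DtOK d p h q g) (hp : 0 < p)
    (hp1 : p < 1 / 2) : Real.sinh (Real.pi * h) ^ 2 ≤ 1 / 2 ∧
      0 < Fi (Real.sinh (Real.pi * h) ^ 2) (Real.sinh (Real.pi * (h + g)) ^ 2) p (p + q) := by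
  unfold w2f at ht
  simp only [fN_eq] at ht
  obtain ⟨t1, ht⟩ := w2_cond_and ht
  obtain ⟨t2, t3⟩ := w2_cond_and ht
  have i1 : 2 * d.s1h ≤ 1048576 := Nat.le_of_ble_eq_true t1
  have i2 : 74409449409740800 ≤ 100000 * (d.f0 * d.f0) := Nat.le_of_ble_eq_true t2
  have i3 : 43980465111040000 * ((d.a1 + d.s1h) ^ 4 *
      ((1048576 + 2 * d.s3h) * (17899192320 + 20000 * d.s3h))) <
      (((1048576 + 2 * d.s1l) * (17899192320 + 20000 * d.s1l)) *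
        ((1048576 + 2 * d.s1l) * (17899192320 + 20000 * d.s1l))) *
        ((d.f0 * d.f0 + 1048576 * d.s3h) * (d.f0 * d.f0 + 1048576 * d.s3h)) := w2_lt_of_ble t3
  rify at i1 i2 i3
  obtain ⟨A1, A10, eA1⟩ := ex_unit d.a1
  obtain ⟨S1, S10, eS1⟩ := ex_unit d.s1l
  obtain ⟨S1', S10', eS1'⟩ := ex_unit d.s1h
  obtain ⟨S3, S30, eS3⟩ := ex_unit d.s3h
  obtain ⟨F0, F00, eF0⟩ := ex_unit d.f0
  obtain ⟨d1, d2, d3, d4, d5, d6, d7, d8, d9, d10, d11, d12⟩ := hd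
  rw [eA1] at d2
  rw [eS1] at d5
  rw [eS1'] at d6
  rw [eS3] at d10
  rw [eF0] at d11
  rw [eS1'] at i1
  rw [eF0] at i2
  rw [eA1, eS1', eS3, eS1, eF0] at i3
  refine ⟨by linarith, ?_⟩
  have hf : F0 ^ 2 ≤ Sn (p + q) := by
    unfold Sn
    exact pow_le_pow_left₀ F00 (by linarith) 2
  exact Fi_box (au := A1) (tl := S1) (tu := S1') (tu3 := S3) (fl := F0) (sq_nonneg _)
    (by linarith) (sq_nonneg _) hp hp1 (by linarith) (by linarith) S10 (by linarith) (by linarith)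
    hf (by linarith) (by linarith)

theorem w2r_sound {d : Dt} {x y z : ℕ} {p h q g : ℝ} (ht : w2r d x y z = true)
    (hd : DtOK d p h q g) (hp : 0 < p) (hp1 : p < 1 / 2) (hq : 0 < q) (hq1 : q < 1 / 2)
    (p' q' : ℝ) (hp' : 0 ≤ p') (hp2 : p' ≤ 3 / 4) (hq' : 1 / 2 ≤ q') (hq2 : q' ≤ 3 / 4) :
    1 / 20 ≤ SW (Real.sinh (Real.pi * h) ^ 2) (Real.sinh (Real.pi * g) ^ 2)
      (Real.sinh (Real.pi * (h + g)) ^ 2) p q p' q' := by
  unfold w2r at ht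
  simp only [fN_eq] at ht
  obtain ⟨t1, ht⟩ := w2_cond_and ht
  obtain ⟨t2, ht⟩ := w2_cond_and ht
  obtain ⟨t3, ht⟩ := w2_cond_and ht
  obtain ⟨t4, ht⟩ := w2_cond_and ht
  obtain ⟨t5, ht⟩ := w2_cond_and ht
  obtain ⟨t6, ht⟩ := w2_cond_and ht
  obtain ⟨t7, ht⟩ := w2_cond_and ht
  obtain ⟨t8, ht⟩ := w2_cond_and ht
  obtain ⟨t9, t10⟩ := w2_cond_and ht
  have i1 : d.b1 ≤ 524288 := Nat.le_of_ble_eq_true t1
  have i2 : 3298534883328 ≤ 4 * (d.f0 * d.f0) := Nat.le_of_ble_eq_true t2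
  have i3 : 1048576 ≤ x := Nat.le_of_ble_eq_true t3
  have i4 : 1048576 ≤ y := Nat.le_of_ble_eq_true t4
  have i5 : 1048576 ≤ z := Nat.le_of_ble_eq_true t5
  have i6 : 2097152 * ((d.a1 + d.s1h) * (d.a1 + d.s1h)) ≤
      z * ((1048576 + d.s1l) * (1048576 + 2 * d.s1l)) := Nat.le_of_ble_eq_true t6
  have i7 : 1099511627776 * (1048576 + d.s3l) ≤ y * (d.f0 * d.f0 + 1048576 * d.s3l) :=
    Nat.le_of_ble_eq_true t7
  have i8 : 40000 * (x * ((d.b1 + d.s2l) * (d.b1 + d.s2l))) ≤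
      1048576 * ((1048576 + 2 * d.s2l) * (17899192320 + 20000 * d.s2l)) :=
    Nat.le_of_ble_eq_true t8
  have i9 : 40000 * (x * ((d.b1 + d.s2h) * (d.b1 + d.s2h))) ≤
      1048576 * ((1048576 + 2 * d.s2h) * (17899192320 + 20000 * d.s2h)) :=
    Nat.le_of_ble_eq_true t9
  have i10 : 1103 * (z ^ 6 * y ^ 8) ≤ 100 * (1048576 ^ 11 * x ^ 3) := Nat.le_of_ble_eq_true t10
  rify at i1 i2 i3 i4 i5 i6 i7 i8 i9 i10
  obtain ⟨X, X0, eX⟩ := ex_unit x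
  obtain ⟨Y, Y0, eY⟩ := ex_unit y
  obtain ⟨Z, Z0, eZ⟩ := ex_unit z
  obtain ⟨A1, A10, eA1⟩ := ex_unit d.a1
  obtain ⟨B1, B10, eB1⟩ := ex_unit d.b1
  obtain ⟨S1, S10, eS1⟩ := ex_unit d.s1l
  obtain ⟨S1', S10', eS1'⟩ := ex_unit d.s1h
  obtain ⟨S2, S20, eS2⟩ := ex_unit d.s2l
  obtain ⟨S2', S20', eS2'⟩ := ex_unit d.s2h
  obtain ⟨S3, S30, eS3⟩ := ex_unit d.s3l
  obtain ⟨F0, F00, eF0⟩ := ex_unit d.f0
  obtain ⟨d1, d2, d3, d4, d5, d6, d7, d8, d9, d10, d11, d12⟩ := hd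
  rw [eA1] at d2
  rw [eB1] at d4
  rw [eS1] at d5
  rw [eS1'] at d6
  rw [eS2] at d7
  rw [eS2'] at d8
  rw [eS3] at d9
  rw [eF0] at d11
  rw [eB1] at i1
  rw [eF0] at i2
  rw [eX] at i3
  rw [eY] at i4
  rw [eZ] at i5
  rw [eA1, eS1', eZ, eS1] at i6
  rw [eS3, eY, eF0] at i7
  rw [eX, eB1, eS2] at i8
  rw [eX, eB1, eS2'] at i9
  rw [eX, eY, eZ] at i10
  have hf : F0 ^ 2 ≤ Sn (p + q) := by
    unfold Sn
    exact pow_le_pow_left₀ F00 (by linarith) 2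
  have hf3 : 3 / 4 ≤ Sn (p + q) := by linarith
  have hq4 : q ≤ 1 / 4 := by
    by_contra hc
    rw [not_le] at hc
    have h1 : Sn q ≤ 1 / 2 := by linarith
    have h2 := Sn_strict (by norm_num : (0 : ℝ) < 1 / 4) hc hq1.le
    rw [Sn_quarter] at h2
    linarith
  have hlo : 1 / 3 ≤ p + q := by
    by_contra hc
    rw [not_le] at hc
    have h2 := Sn_strict (by linarith : 0 < p + q) hc (by norm_num)
    rw [Sn_third] at h2
    linarith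
  have hhi : p + q ≤ 2 / 3 := by
    by_contra hc
    rw [not_le] at hc
    have h2 := Sn_strict (by linarith : 0 < 1 - (p + q)) (by linarith : 1 - (p + q) < 1 / 3)
      (by norm_num)
    rw [Sn_third, Sn_one_sub] at h2
    linarith
  exact SW_right_box (au := A1) (bu := B1) (tl1 := S1) (tu1 := S1') (tl2 := S2) (tu2 := S2')
    (tl3 := S3) (fl := F0) (x := X) (y := Y) (z := Z) (sq_nonneg _) (sq_nonneg _) hp hp1 hq hq4
    hlo hhi (by linarith) (by linarith) S10 (by linarith) (by linarith) S20 (by linarith)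
    (by linarith) (by linarith) hf (by linarith) (by linarith) (by linarith) (by linarith)
    (by linarith) (by linarith) (by linarith) (by linarith) p' q' hp' hp2 hq' hq2

theorem w2b_sound {d : Dt} {b ξ : ℕ} (h : w2b d b ξ = true) {B X B0 S2 S2' : ℝ}
    (eB : (b : ℝ) = 1048576 * B) (eX : (ξ : ℝ) = 1048576 * X) (eB0 : (d.b0 : ℝ) = 1048576 * B0)
    (eS2 : (d.s2l : ℝ) = 1048576 * S2) (eS2' : (d.s2h : ℝ) = 1048576 * S2') :
    B ≤ 0 ∨ (B + S2 ≤ (B0 + S2) * X ^ 2 ∧ B + S2' ≤ (B0 + S2') * X ^ 2) := by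
  unfold w2b at h
  rcases hb : Nat.ble b 0 with _ | _
  · rw [hb, cond_false] at h
    obtain ⟨t1, t2⟩ := w2_cond_and h
    have i1 : 1099511627776 * (b + d.s2l) ≤ (d.b0 + d.s2l) * (ξ * ξ) := Nat.le_of_ble_eq_true t1
    have i2 : 1099511627776 * (b + d.s2h) ≤ (d.b0 + d.s2h) * (ξ * ξ) := Nat.le_of_ble_eq_true t2
    rify at i1 i2
    rw [eB, eS2, eB0, eX] at i1
    rw [eB, eS2', eB0, eX] at i2
    right
    constructor <;> linarith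
  · left
    have h1 : b ≤ 0 := Nat.le_of_ble_eq_true hb
    have h2 : (b : ℝ) ≤ 0 := by exact_mod_cast h1
    linarith

theorem w2m_sound {d : Dt} {ξ1 ξ2 b1 b2 u2 : ℕ} {p h q g : ℝ} (ht : w2m d ξ1 ξ2 b1 b2 u2 = true)
    (hd : DtOK d p h q g) (hp : 0 < p) (hp1 : p < 1 / 2) (hq : 0 < q) (hq1 : q < 1 / 2)
    (e0 : ℝ) (hS : ∀ q' ∈ Icc (0 : ℝ) (1 / 2), e0 ≤ SW (Real.sinh (Real.pi * h) ^ 2)
      (Real.sinh (Real.pi * g) ^ 2) (Real.sinh (Real.pi * (h + g)) ^ 2) p q (1 / 2) q')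
    (p' q' : ℝ) (hp' : 1 / 2 ≤ p') (hp2 : p' ≤ 3 / 4) (hq' : 0 ≤ q') (hq2 : q' ≤ 1 / 2) :
    e0 ≤ SW (Real.sinh (Real.pi * h) ^ 2) (Real.sinh (Real.pi * g) ^ 2)
      (Real.sinh (Real.pi * (h + g)) ^ 2) p q p' q' := by
  unfold w2m at ht
  simp only [fN_eq] at ht
  obtain ⟨t1, ht⟩ := w2_cond_and ht
  obtain ⟨t2, ht⟩ := w2_cond_and ht
  obtain ⟨t3, ht⟩ := w2_cond_and ht
  obtain ⟨t4, ht⟩ := w2_cond_and ht
  obtain ⟨t5, ht⟩ := w2_cond_and ht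
  obtain ⟨t6, ht⟩ := w2_cond_and ht
  obtain ⟨t7, ht⟩ := w2_cond_and ht
  obtain ⟨t8, ht⟩ := w2_cond_and ht
  obtain ⟨t9, ht⟩ := w2_cond_and ht
  obtain ⟨t10, ht⟩ := w2_cond_and ht
  obtain ⟨t11, ht⟩ := w2_cond_and ht
  obtain ⟨t12, ht⟩ := w2_cond_and ht
  obtain ⟨t13, ht⟩ := w2_cond_and ht
  obtain ⟨t14, ht⟩ := w2_cond_and ht
  obtain ⟨t15, t16⟩ := w2_cond_and ht
  have i1 : 1 ≤ d.s2l := Nat.le_of_ble_eq_true t1
  have i2 : 4 * d.b1 ≤ 1048576 := Nat.le_of_ble_eq_true t2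
  have i3 : 4074790092537856 ≤ 10000 * (d.f0 * d.f0) := Nat.le_of_ble_eq_true t3
  have i4 : 4194304 * ((d.b1 + d.s2h) * (3886022656 + 10000 * d.s3h)) ≤
      10000 * ((1048576 + 4 * d.s2h) * (d.f0 * d.f0 + 1048576 * d.s3h)) :=
    Nat.le_of_ble_eq_true t4
  have i5 : 1 ≤ ξ1 := Nat.le_of_ble_eq_true t5
  have i6 : 1 ≤ ξ2 := Nat.le_of_ble_eq_true t6
  have i9 : 1152921504606846976 * (1048576 + d.s3l) ≤ 1152921504606846976 * b1 +
      (ξ1 * ξ1) * (d.f0 * d.f0 + 1048576 * d.s3l) := Nat.le_of_ble_eq_true t9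
  have i10 : 1152921504606846976 * (1048576 + d.s3h) ≤ 1152921504606846976 * b1 +
      (ξ1 * ξ1) * (d.f0 * d.f0 + 1048576 * d.s3h) := Nat.le_of_ble_eq_true t10
  have i11 : 2 * b2 ≤ 1048576 := Nat.le_of_ble_eq_true t11
  have i12 : u2 * u2 + b2 * b2 ≤ 1048576 * b2 := Nat.le_of_ble_eq_true t12
  have i13 : 1152921504606846976 * (8950644736 + 10000 * d.s3l) ≤
      1152921504606846976 * (7072 * b2 + 7070 * u2) +
      10000 * ((ξ2 * ξ2) * (d.f0 * d.f0 + 1048576 * d.s3l)) := Nat.le_of_ble_eq_true t13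
  have i14 : 1152921504606846976 * (8950644736 + 10000 * d.s3h) ≤
      1152921504606846976 * (7072 * b2 + 7070 * u2) +
      10000 * ((ξ2 * ξ2) * (d.f0 * d.f0 + 1048576 * d.s3h)) := Nat.le_of_ble_eq_true t14
  have i15 : 20000 * ((ξ1 * ξ1) * ((d.a1 + d.s1h) * (d.a1 + d.s1h))) ≤
      1099511627776 * ((1048576 + d.s1l) * (17899192320 + 20000 * d.s1l)) :=
    Nat.le_of_ble_eq_true t15
  have i16 : 800000000 * (((ξ1 * ξ1) * (ξ2 * ξ2)) * (d.a1 + d.s1h) ^ 4) ≤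
      1208925819614629174706176 * (((1048576 + d.s1l) * (1048576 + 2 * d.s1l)) *
        ((17899192320 + 20000 * d.s1l) * (17899192320 + 20000 * d.s1l))) :=
    Nat.le_of_ble_eq_true t16
  rify at i1 i2 i3 i4 i5 i6 i9 i10 i11 i12 i13 i14 i15 i16
  obtain ⟨X1, X10, eX1⟩ := ex_unit ξ1
  obtain ⟨X2, X20, eX2⟩ := ex_unit ξ2
  obtain ⟨V1, V10, eV1⟩ := ex_unit b1
  obtain ⟨V2, V20, eV2⟩ := ex_unit b2
  obtain ⟨W2, W20, eW2⟩ := ex_unit u2
  obtain ⟨A1, A10, eA1⟩ := ex_unit d.a1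
  obtain ⟨B0, B00, eB0⟩ := ex_unit d.b0
  obtain ⟨B1, B10, eB1⟩ := ex_unit d.b1
  obtain ⟨S1, S10, eS1⟩ := ex_unit d.s1l
  obtain ⟨S1', S10', eS1'⟩ := ex_unit d.s1h
  obtain ⟨S2, S20, eS2⟩ := ex_unit d.s2l
  obtain ⟨S2', S20', eS2'⟩ := ex_unit d.s2h
  obtain ⟨S3, S30, eS3⟩ := ex_unit d.s3l
  obtain ⟨S3', S30', eS3'⟩ := ex_unit d.s3h
  obtain ⟨F0, F00, eF0⟩ := ex_unit d.f0
  have j7 := w2b_sound t7 eV1 eX1 eB0 eS2 eS2'
  have j8 := w2b_sound t8 eV2 eX2 eB0 eS2 eS2'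
  obtain ⟨d1, d2, d3, d4, d5, d6, d7, d8, d9, d10, d11, d12⟩ := hd
  rw [eA1] at d2
  rw [eB0] at d3
  rw [eB1] at d4
  rw [eS1] at d5
  rw [eS1'] at d6
  rw [eS2] at d7
  rw [eS2'] at d8
  rw [eS3] at d9
  rw [eS3'] at d10
  rw [eF0] at d11
  rw [eS2] at i1
  rw [eB1] at i2
  rw [eF0] at i3
  rw [eB1, eS2', eS3', eF0] at i4
  rw [eX1] at i5
  rw [eX2] at i6
  rw [eS3, eV1, eX1, eF0] at i9
  rw [eS3', eV1, eX1, eF0] at i10
  rw [eV2] at i11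
  rw [eV2, eW2] at i12
  rw [eS3, eV2, eW2, eX2, eF0] at i13
  rw [eS3', eV2, eW2, eX2, eF0] at i14
  rw [eX1, eA1, eS1', eS1] at i15
  rw [eX1, eX2, eA1, eS1', eS1] at i16
  have hf : F0 ^ 2 ≤ Sn (p + q) := by
    unfold Sn
    exact pow_le_pow_left₀ F00 (by linarith) 2
  exact SW_M_box (au := A1) (bl := B0) (bu := B1) (tl1 := S1) (tu1 := S1') (tl2 := S2)
    (tu2 := S2') (tl3 := S3) (tu3 := S3') (fl := F0) (ξ1 := X1) (ξ2 := X2) (b1 := V1) (b2 := V2)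
    (u2 := W2) (sq_nonneg _) (by linarith) (sq_nonneg _) hp hp1 hq hq1
    (by linarith) (by linarith) (by linarith) S10 (by linarith) (by linarith) (by linarith)
    (by linarith) (by linarith) (by linarith) hf (by linarith) (by linarith) (by linarith)
    (by linarith) (by linarith) j7 (by linarith) (by linarith) j8 V20 (by linarith) W20
    (by linarith) (by linarith) (by linarith) (by linarith) (by linarith) e0 hS p' q' hp' hp2 hq'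
    hq2

/-- From the square to the flats, reflection. -/
theorem fl_of_f {d : Dt} {x y z : ℕ} {p h q g : ℝ} (h1 : w2f d = true) (h2 : w2r d x y z = true)
    (hd : DtOK d p h q g) (hp : 0 < p) (hp1 : p < 1 / 2) (hq : 0 < q) (hq1 : q < 1 / 2)
    (hsq : Sq21 p h q g) : Fl21 p h q g := by
  obtain ⟨k1, k2⟩ := w2f_sound h1 hd hp hp1
  exact SW_flat hp hp1 hq hq1 (SW_strip_F (sq_nonneg _) k1 (sq_nonneg _) hp hp1 hsq k2)
    (w2r_sound h2 hd hp hp1 hq hq1)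

/-- From the square to the flats, second method. -/
theorem fl_of_m {d : Dt} {ξ1 ξ2 b1 b2 u2 x y z : ℕ} {p h q g : ℝ}
    (h1 : w2m d ξ1 ξ2 b1 b2 u2 = true) (h2 : w2r d x y z = true)
    (hd : DtOK d p h q g) (hp : 0 < p) (hp1 : p < 1 / 2) (hq : 0 < q) (hq1 : q < 1 / 2)
    (hsq : Sq21 p h q g) : Fl21 p h q g :=
  SW_flat hp hp1 hq hq1 (SW_strip_M hp hp1 hq hq1 hsq (w2m_sound h1 hd hp hp1 hq hq1))
    (w2r_sound h2 hd hp hp1 hq hq1)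

end Pool.Agent.S5.F
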