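import Pool.Agent.S5.I.W2g

/-!
# Closed vertices with two half twists, weights `2` and `1`: a sharper criterion

Two segments `[xe, xm]`, `[xm, 1)`.
-/

set_option autoImplicit false

namespace Pool.Agent.S5.C2

open MeasureTheory Filter Topology Set

/-- The root of `A x² - s` is concave. -/
theorem sqrt_quad2 {A s xe xm l : ℝ} (hs : 0 ≤ s) (hA : 0 ≤ A) (hxe : 0 ≤ xe) (hxm : 0 ≤ xm)
    (hb : 0 ≤ A * xe ^ 2 - s) (hb' : 0 ≤ A * xm ^ 2 - s) (hl : 0 ≤ l) (hl1 : l ≤ 1) :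
    (l * √(A * xe ^ 2 - s) + (1 - l) * √(A * xm ^ 2 - s)) ^ 2 ≤
      A * (l * xe + (1 - l) * xm) ^ 2 - s := by
  have e1 : √(A * xe ^ 2 - s) ^ 2 = A * xe ^ 2 - s := Real.sq_sqrt hb
  have e2 : √(A * xm ^ 2 - s) ^ 2 = A * xm ^ 2 - s := Real.sq_sqrt hb'
  have h0 : 0 ≤ A * (xe * xm) - s := by
    have h1 : s ^ 2 ≤ (A * (xe * xm)) ^ 2 := by
      have h2 : s * s ≤ (A * xe ^ 2) * (A * xm ^ 2) :=
        mul_le_mul (by linarith) (by linarith) hs (by positivity)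
      have h3 : (A * (xe * xm)) ^ 2 = (A * xe ^ 2) * (A * xm ^ 2) := by ring
      rw [h3, sq]
      exact h2
    have := le_of_sq_le_sq h1 (by positivity)
    linarith
  have h1 : √(A * xe ^ 2 - s) * √(A * xm ^ 2 - s) ≤ A * (xe * xm) - s := by
    rw [← Real.sqrt_mul hb]
    apply Real.sqrt_le_iff.2 ⟨h0, ?_⟩
    have : 0 ≤ s * (A * (xe - xm) ^ 2) := by positivity
    have h2 : (A * (xe * xm) - s) ^ 2 = (A * xe ^ 2 - s) * (A * xm ^ 2 - s) +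
        s * (A * (xe - xm) ^ 2) := by ring
    linarith
  have h2 : 0 ≤ l * (1 - l) := mul_nonneg hl (by linarith)
  have h3 := mul_le_mul_of_nonneg_left h1 h2
  have e3 : (l * √(A * xe ^ 2 - s) + (1 - l) * √(A * xm ^ 2 - s)) ^ 2 =
      l ^ 2 * √(A * xe ^ 2 - s) ^ 2 + (1 - l) ^ 2 * √(A * xm ^ 2 - s) ^ 2 +
        2 * (l * (1 - l) * (√(A * xe ^ 2 - s) * √(A * xm ^ 2 - s))) := by ring
  rw [e3, e1, e2]
  have e4 : A * (l * xe + (1 - l) * xm) ^ 2 - s = l ^ 2 * (A * xe ^ 2 - s) +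
      (1 - l) ^ 2 * (A * xm ^ 2 - s) + 2 * (l * (1 - l) * (A * (xe * xm) - s)) := by ring
  linarith

/-- The sum of the roots is concave. -/
theorem f_conc {a0 b0 s1 s2 xe xm l u v um vm : ℝ} (ha1 : a0 < 1) (hb0 : 0 < b0)
    (hb1 : b0 < 1) (ha0 : 0 < a0) (hs1 : 0 ≤ s1) (hs2 : 0 ≤ s2) (hxe0 : 0 ≤ xe) (hxem : xe ≤ xm)
    (hxm1 : xm ≤ 1) (hl0 : 0 ≤ l) (hl1 : l ≤ 1)
    (hae : 0 ≤ (a0 + s1) * xe - s1) (hbe : 0 ≤ (b0 + s2) * xe ^ 2 - s2)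
    (hu : 0 ≤ u) (hum : 0 ≤ um)
    (hu2 : u ^ 2 ≤ ((a0 + s1) * xe - s1) * (1 - ((b0 + s2) * xe ^ 2 - s2)))
    (hv2 : v ^ 2 ≤ ((b0 + s2) * xe ^ 2 - s2) * (1 - ((a0 + s1) * xe - s1)))
    (hum2 : um ^ 2 ≤ ((a0 + s1) * xm - s1) * (1 - ((b0 + s2) * xm ^ 2 - s2)))
    (hvm2 : vm ^ 2 ≤ ((b0 + s2) * xm ^ 2 - s2) * (1 - ((a0 + s1) * xm - s1)))
    {x a b : ℝ} (hx : x = l * xe + (1 - l) * xm) (ha : a = (a0 + s1) * x - s1)
    (hb : b = (b0 + s2) * x ^ 2 - s2) :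
    l * (u + v) + (1 - l) * (um + vm) ≤ √(a * (1 - b)) + √(b * (1 - a)) := by
  have hl' : 0 ≤ 1 - l := by linarith
  have hxm0 : 0 ≤ xm := hxe0.trans hxem
  have m1 : (a0 + s1) * xe ≤ (a0 + s1) * xm := mul_le_mul_of_nonneg_left hxem (by linarith)
  have m2 : (a0 + s1) * xm ≤ (a0 + s1) * 1 := mul_le_mul_of_nonneg_left hxm1 (by linarith)
  have q1 : xe ^ 2 ≤ xm ^ 2 := pow_le_pow_left₀ hxe0 hxem 2
  have q2 : xm ^ 2 ≤ 1 := pow_le_one₀ hxm0 hxm1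
  have m3 : (b0 + s2) * xe ^ 2 ≤ (b0 + s2) * xm ^ 2 := mul_le_mul_of_nonneg_left q1 (by linarith)
  have m4 : (b0 + s2) * xm ^ 2 ≤ (b0 + s2) * 1 := mul_le_mul_of_nonneg_left q2 (by linarith)
  have ea : a = l * ((a0 + s1) * xe - s1) + (1 - l) * ((a0 + s1) * xm - s1) := by
    rw [ha, hx]
    ring
  have ea' : 1 - a = l * (1 - ((a0 + s1) * xe - s1)) + (1 - l) * (1 - ((a0 + s1) * xm - s1)) := by
    rw [ea]
    ring
  have hA1' : 0 ≤ a := by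
    rw [ea]
    have := mul_nonneg hl0 hae
    have := mul_nonneg hl' (show 0 ≤ (a0 + s1) * xm - s1 by linarith)
    linarith
  have r1 := sqrt_conc (l := l) hae (show 0 ≤ 1 - ((b0 + s2) * xe ^ 2 - s2) by linarith)
    (show 0 ≤ (a0 + s1) * xm - s1 by linarith) (show 0 ≤ 1 - ((b0 + s2) * xm ^ 2 - s2) by linarith)
    hu hum hu2 hum2 hl0 hl1
  have hcv : x ^ 2 ≤ l * xe ^ 2 + (1 - l) * xm ^ 2 := by
    have h1 : l * xe ^ 2 + (1 - l) * xm ^ 2 - x ^ 2 = l * (1 - l) * (xm - xe) ^ 2 := by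
      rw [hx]
      ring
    have h2 : 0 ≤ l * (1 - l) * (xm - xe) ^ 2 := by positivity
    linarith
  have hbb : l * (1 - ((b0 + s2) * xe ^ 2 - s2)) + (1 - l) * (1 - ((b0 + s2) * xm ^ 2 - s2)) ≤
      1 - b := by
    rw [hb]
    have : (b0 + s2) * x ^ 2 ≤ (b0 + s2) * (l * xe ^ 2 + (1 - l) * xm ^ 2) :=
      mul_le_mul_of_nonneg_left hcv (by linarith)
    linarith
  have r1' : l * u + (1 - l) * um ≤ √(a * (1 - b)) := by
    refine r1.trans (Real.sqrt_le_sqrt ?_)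
    rw [← ea]
    exact mul_le_mul_of_nonneg_left hbb hA1'
  have q3 := sqrt_quad2 (l := l) hs2 (show 0 ≤ b0 + s2 by linarith) hxe0 hxm0 hbe
    (show 0 ≤ (b0 + s2) * xm ^ 2 - s2 by linarith) hl0 hl1
  rw [← hx, ← hb] at q3
  set Ue := √((b0 + s2) * xe ^ 2 - s2) with hUe
  set U1 := √((b0 + s2) * xm ^ 2 - s2) with hU1
  set Ve := √(1 - ((a0 + s1) * xe - s1)) with hVe
  set V1 := √(1 - ((a0 + s1) * xm - s1)) with hV1
  have p1 : 0 ≤ Ue := Real.sqrt_nonneg _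
  have p2 : 0 ≤ U1 := Real.sqrt_nonneg _
  have p3 : 0 ≤ Ve := Real.sqrt_nonneg _
  have p4 : 0 ≤ V1 := Real.sqrt_nonneg _
  have o1 : Ue ≤ U1 := Real.sqrt_le_sqrt (by linarith)
  have o2 : V1 ≤ Ve := Real.sqrt_le_sqrt (by linarith)
  have q4 : (l * Ve + (1 - l) * V1) ^ 2 ≤ 1 - a := by
    have s1' : Ve ^ 2 = 1 - ((a0 + s1) * xe - s1) := Real.sq_sqrt (by linarith)
    have s2' : V1 ^ 2 = 1 - ((a0 + s1) * xm - s1) := Real.sq_sqrt (by linarith)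
    rw [ea', ← s1', ← s2']
    have h2 : 0 ≤ l * (1 - l) * (Ve - V1) ^ 2 := by positivity
    have h3 : l * Ve ^ 2 + (1 - l) * V1 ^ 2 = (l * Ve + (1 - l) * V1) ^ 2 +
        l * (1 - l) * (Ve - V1) ^ 2 := by ring
    linarith
  have hUV0 : 0 ≤ l * Ue + (1 - l) * U1 := by positivity
  have hVV0 : 0 ≤ l * Ve + (1 - l) * V1 := by positivity
  have hb' : 0 ≤ b := le_trans (sq_nonneg _) q3
  have r2 : (l * Ue + (1 - l) * U1) * (l * Ve + (1 - l) * V1) ≤ √(b * (1 - a)) := by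
    apply Real.le_sqrt_of_sq_le
    rw [mul_pow]
    exact mul_le_mul q3 q4 (sq_nonneg _) hb'
  have hv' : v ≤ Ue * Ve := by
    have h1 : v ≤ √(((b0 + s2) * xe ^ 2 - s2) * (1 - ((a0 + s1) * xe - s1))) :=
      Real.le_sqrt_of_sq_le hv2
    rwa [Real.sqrt_mul hbe] at h1
  have hvm' : vm ≤ U1 * V1 := by
    have h1 : vm ≤ √(((b0 + s2) * xm ^ 2 - s2) * (1 - ((a0 + s1) * xm - s1))) :=
      Real.le_sqrt_of_sq_le hvm2
    rwa [Real.sqrt_mul (show 0 ≤ (b0 + s2) * xm ^ 2 - s2 by linarith)] at h1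
  have h1 : l * (Ue * Ve) + (1 - l) * (U1 * V1) ≤ (l * Ue + (1 - l) * U1) *
      (l * Ve + (1 - l) * V1) := by
    have h2 : 0 ≤ l * (1 - l) * ((U1 - Ue) * (Ve - V1)) := by
      have : 0 ≤ U1 - Ue := by linarith
      have : 0 ≤ Ve - V1 := by linarith
      positivity
    have h3 : (l * Ue + (1 - l) * U1) * (l * Ve + (1 - l) * V1) = l * (Ue * Ve) +
        (1 - l) * (U1 * V1) + l * (1 - l) * ((U1 - Ue) * (Ve - V1)) := by ring
    linarith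
  have h4 : l * v ≤ l * (Ue * Ve) := mul_le_mul_of_nonneg_left hv' hl0
  have h5 : (1 - l) * vm ≤ (1 - l) * (U1 * V1) := mul_le_mul_of_nonneg_left hvm' hl'
  linarith

/-- The segment `[xe, xm]`. -/
theorem G_mid {a0 b0 s1 s2 s3 x xe xm u v um vm w f1 : ℝ} (ha0 : 0 < a0) (ha1 : a0 < 1)
    (hb0 : 0 < b0) (hb1 : b0 < 1) (hs1 : 0 ≤ s1) (hs2 : 0 ≤ s2) (hs3 : 0 ≤ s3) (hxe0 : 0 ≤ xe)
    (hxe : xe ≤ x) (hxm : x ≤ xm) (hxm1 : xm ≤ 1)
    (hae : 0 ≤ (a0 + s1) * xe - s1) (hbe : 0 ≤ (b0 + s2) * xe ^ 2 - s2) (hu : 0 ≤ u)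
    (hv : 0 ≤ v) (hum : 0 ≤ um) (hvm : 0 ≤ vm) (hw : 0 ≤ w)
    (hu2 : u ^ 2 ≤ ((a0 + s1) * xe - s1) * (1 - ((b0 + s2) * xe ^ 2 - s2)))
    (hv2 : v ^ 2 ≤ ((b0 + s2) * xe ^ 2 - s2) * (1 - ((a0 + s1) * xe - s1)))
    (hum2 : um ^ 2 ≤ ((a0 + s1) * xm - s1) * (1 - ((b0 + s2) * xm ^ 2 - s2)))
    (hvm2 : vm ^ 2 ≤ ((b0 + s2) * xm ^ 2 - s2) * (1 - ((a0 + s1) * xm - s1)))
    (g1 : (f1 ^ 2 + s3) * xe ^ 2 * (w ^ 2 + s3) < ((u + v) * w + s3) ^ 2)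
    (g2 : (f1 ^ 2 + s3) * xm ^ 2 * (w ^ 2 + s3) < ((um + vm) * w + s3) ^ 2) :
    (f1 ^ 2 + s3) * x ^ 2 < (√(((a0 + s1) * x - s1) * (1 - ((b0 + s2) * x ^ 2 - s2))) +
      √(((b0 + s2) * x ^ 2 - s2) * (1 - ((a0 + s1) * x - s1)))) ^ 2 + s3 := by
  obtain ⟨l, hl0, hl1, hxl⟩ : ∃ l : ℝ, 0 ≤ l ∧ l ≤ 1 ∧ x = l * xe + (1 - l) * xm := by
    rcases (hxe.trans hxm).eq_or_lt with he | hlt
    · exact ⟨1, by norm_num, le_rfl, by linarith⟩
    · have h5 : 0 < xm - xe := by linarith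
      refine ⟨(xm - x) / (xm - xe), div_nonneg (by linarith) h5.le,
        (div_le_one h5).2 (by linarith), ?_⟩
      field_simp
      ring
  have hf := f_conc ha1 hb0 hb1 ha0 hs1 hs2 hxe0 (hxe.trans hxm) hxm1 hl0 hl1 hae hbe hu hum hu2
    hv2 hum2 hvm2 hxl rfl rfl
  set f := √(((a0 + s1) * x - s1) * (1 - ((b0 + s2) * x ^ 2 - s2))) +
      √(((b0 + s2) * x ^ 2 - s2) * (1 - ((a0 + s1) * x - s1))) with hfd
  have hf0 : 0 ≤ f := by positivity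
  have hl' : 0 ≤ 1 - l := by linarith
  have hx0 : 0 ≤ x := hxe0.trans hxe
  have hxm0 : 0 ≤ xm := hx0.trans hxm
  set N := √((f1 ^ 2 + s3) * (w ^ 2 + s3)) with hN
  have hN0 : 0 ≤ N := Real.sqrt_nonneg _
  have hN2 : N ^ 2 = (f1 ^ 2 + s3) * (w ^ 2 + s3) := Real.sq_sqrt (by positivity)
  have k1 : N * xe < (u + v) * w + s3 := by
    apply lt_of_pow_lt_pow_left₀ 2 (by positivity)
    have : (N * xe) ^ 2 = (f1 ^ 2 + s3) * xe ^ 2 * (w ^ 2 + s3) := by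
      rw [mul_pow, hN2]
      ring
    rw [this]
    exact g1
  have k2 : N * xm < (um + vm) * w + s3 := by
    apply lt_of_pow_lt_pow_left₀ 2 (by positivity)
    have : (N * xm) ^ 2 = (f1 ^ 2 + s3) * xm ^ 2 * (w ^ 2 + s3) := by
      rw [mul_pow, hN2]
      ring
    rw [this]
    exact g2
  have k3 : N * x < f * w + s3 := by
    have h1 : (l * (u + v) + (1 - l) * (um + vm)) * w ≤ f * w := mul_le_mul_of_nonneg_right hf hw
    have h2 : N * x < (l * (u + v) + (1 - l) * (um + vm)) * w + s3 := by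
      have h3 : (l * (u + v) + (1 - l) * (um + vm)) * w + s3 - N * x =
          l * ((u + v) * w + s3 - N * xe) + (1 - l) * ((um + vm) * w + s3 - N * xm) := by
        rw [hxl]
        ring
      rcases hl0.eq_or_lt with j | j
      · have h4 : 0 < (1 - l) * ((um + vm) * w + s3 - N * xm) :=
          mul_pos (by linarith) (by linarith)
        have h5 : 0 ≤ l * ((u + v) * w + s3 - N * xe) := mul_nonneg hl0 (by linarith)
        linarith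
      · have h4 : 0 ≤ (1 - l) * ((um + vm) * w + s3 - N * xm) :=
          mul_nonneg (by linarith) (by linarith)
        have h5 : 0 < l * ((u + v) * w + s3 - N * xe) := mul_pos j (by linarith)
        linarith
    linarith
  have k4 : (N * x) ^ 2 < (f * w + s3) ^ 2 := pow_lt_pow_left₀ k3 (by positivity) (by norm_num)
  have k5 : (f * w + s3) ^ 2 ≤ (f ^ 2 + s3) * (w ^ 2 + s3) := by
    have h6 : (f ^ 2 + s3) * (w ^ 2 + s3) = (f * w + s3) ^ 2 + s3 * (f - w) ^ 2 := by ring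
    linarith [mul_nonneg hs3 (sq_nonneg (f - w))]
  have k6 : (N * x) ^ 2 = ((f1 ^ 2 + s3) * x ^ 2) * (w ^ 2 + s3) := by
    rw [mul_pow, hN2]
    ring
  have k7 : ((f1 ^ 2 + s3) * x ^ 2) * (w ^ 2 + s3) < (f ^ 2 + s3) * (w ^ 2 + s3) := by
    linarith
  exact lt_of_mul_lt_mul_right k7 (by positivity)

end Pool.Agent.S5.C2
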