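import Pool.Agent.S5.I.Fr

/-!
# The node between an end with two half twists (`A` edge) and an end with three half twists (`S` edge)

The equations of the chain have exactly one solution; `P = 4 bl br` is the real root of
`P ^ 3 = P ^ 2 + 1`, `bl` and `br` are conjugate.
-/

set_option autoImplicit false

namespace Pool.Agent.S5.F

open Pool.Agent.S5.C2 Pool.Agent.S5.K Complex
open scoped ComplexConjugate

/-- The slot leads to an end with three half twists over an `S` edge. -/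
def RelS (b : ℂ) (w1 e1 : ℝ) : Prop := (4 * b ^ 2 - 1) * lamF w1 e1 = 2

/-- A neighbour which is an end with three half twists, over an `S` edge. -/
theorem relS_of {b k : ℂ} {w1 e1 w2 e2 : ℝ} (hw : 0 < w1) (hw1 : w1 < 1)
    (hR : Rel b w1 e1 w2 e2) (hK : RelK k w1 e1 w2 e2) (hb : 0 < b.re) (hbi : b.im ≤ 0)
    (hE : k = I * (b * (4 * b ^ 2 - 1))) : RelS b w1 e1 := by
  unfold Rel at hR
  unfold RelK at hK
  unfold RelS
  set l := lamF w1 e1 with hl
  set r := lamF w2 e2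
  have hb0 : b ≠ 0 := by
    rintro rfl
    simp at hb
  have hY : 0 < l.im := by
    show 0 < YF w1 e1
    unfold YF
    have := aF_pos hw
    have := sF_nonneg e1
    exact div_pos (scF_pos hw hw1) (by linarith)
  have hl0 : l ≠ 0 := by
    intro h
    rw [h] at hY
    simp at hY
  have hL : l + r ≠ 0 := by
    intro h
    rw [h, sub_zero] at hR
    have : (b * l) ^ 2 * 2 ≠ 0 := mul_ne_zero (pow_ne_zero 2 (mul_ne_zero hb0 hl0)) two_ne_zero
    exact this hR
  have hk2 : k ^ 2 = -(b ^ 2 * (4 * b ^ 2 - 1) ^ 2) := by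
    rw [hE]
    linear_combination (b * (4 * b ^ 2 - 1)) ^ 2 * I_sq
  -- the other slot
  have s1 : r * (1 + (b * l) ^ 2) = (b * l) ^ 2 * (2 - l) - l := by linear_combination -hR
  have s2 : (b * l) ^ 2 * (2 - (l + r)) = -(2 * (b ^ 2 * (4 * b ^ 2 - 1) ^ 2)) * (l * r) := by
    rw [hR, ← hK, hk2]
    ring
  have hbl : b ^ 2 * l ≠ 0 := mul_ne_zero (pow_ne_zero 2 hb0) hl0
  have s3 : l * (2 - (l + r)) = -(2 * (4 * b ^ 2 - 1) ^ 2) * r := by
    apply mul_left_cancel₀ hbl
    linear_combination s2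
  have s4 : l * 2 = -(2 * (4 * b ^ 2 - 1) ^ 2) * ((b * l) ^ 2 * (2 - l) - l) := by
    linear_combination (1 + (b * l) ^ 2) * s3 + (l - 2 * (4 * b ^ 2 - 1) ^ 2) * s1
  have s5 : (4 * b ^ 2 - 1) ^ 2 * (b ^ 2 * (l * (2 - l)) - 1) = -1 := by
    have h2 : 2 * l ≠ 0 := mul_ne_zero two_ne_zero hl0
    apply mul_left_cancel₀ h2
    linear_combination s4
  have key : ((4 * b ^ 2 - 1) * l - 2) * ((4 * b ^ 2 - 1) * (2 - l) - 2) = 0 := by
    have h2 : b ^ 2 ≠ 0 := pow_ne_zero 2 hb0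
    apply (mul_eq_zero.1 (_ : b ^ 2 * _ = 0)).resolve_left h2
    linear_combination s5
  rcases mul_eq_zero.1 key with h | h
  · linear_combination h
  · exfalso
    -- `Im (4 b ^ 2) > 0`
    have h1 : (4 * b ^ 2 - 1) * (2 - l) = 2 := by linear_combination h
    have h2 := congrArg Complex.re h1
    have h3 := congrArg Complex.im h1
    have e1 : (4 * b ^ 2 - 1).re = 4 * (b.re ^ 2 - b.im ^ 2) - 1 := by
      rw [sub_re, one_re, mul_re, sq, mul_re, re_ofNat, im_ofNat]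
      ring
    have e2 : (4 * b ^ 2 - 1).im = 8 * (b.re * b.im) := by
      rw [sub_im, one_im, mul_im, sq, mul_im, re_ofNat, im_ofNat]
      ring
    rw [mul_re, e1, e2, sub_re, sub_im, re_ofNat, im_ofNat] at h2
    rw [mul_im, e1, e2, sub_re, sub_im, re_ofNat, im_ofNat] at h3
    -- `V |2 - l|^2 = 2 l.im`
    have h4 : 8 * (b.re * b.im) * ((2 - l.re) ^ 2 + l.im ^ 2) = 2 * l.im := by
      linear_combination l.im * h2 + (2 - l.re) * h3
    have h5 : 8 * (b.re * b.im) ≤ 0 := by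
      have := mul_nonpos_of_nonneg_of_nonpos hb.le hbi
      linarith
    have h6 : 8 * (b.re * b.im) * ((2 - l.re) ^ 2 + l.im ^ 2) ≤ 0 :=
      mul_nonpos_of_nonpos_of_nonneg h5 (by positivity)
    linarith

/-- The real solution of `P ^ 3 = P ^ 2 + 1` is the only one with positive real part. -/
theorem cub_real {P : ℂ} (h : P ^ 3 = P ^ 2 + 1) (h0 : 0 < P.re) : P.im = 0 := by
  have h1 := congrArg Complex.re h
  have h2 := congrArg Complex.im h
  have e1 : (P ^ 3).re = P.re ^ 3 - 3 * P.re * P.im ^ 2 := by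
    rw [pow_succ, sq, mul_re, mul_re, mul_im]
    ring
  have e2 : (P ^ 3).im = 3 * P.re ^ 2 * P.im - P.im ^ 3 := by
    rw [pow_succ, sq, mul_im, mul_re, mul_im]
    ring
  have e3 : (P ^ 2).re = P.re ^ 2 - P.im ^ 2 := by
    rw [sq, mul_re]
    ring
  have e4 : (P ^ 2).im = 2 * P.re * P.im := by
    rw [sq, mul_im]
    ring
  rw [e1, add_re, e3, one_re] at h1
  rw [e2, add_im, e4, one_im] at h2
  by_contra hv
  have h3 : 3 * P.re ^ 2 - P.im ^ 2 - 2 * P.re = 0 := by
    apply (mul_eq_zero.1 (_ : P.im * _ = 0)).resolve_left hv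
    linear_combination h2
  have h4 : 8 * P.re ^ 3 - 8 * P.re ^ 2 + 2 * P.re + 1 = 0 := by
    linear_combination -h1 + (3 * P.re - 1) * h3
  have h5 : 0 ≤ 2 * P.re * (2 * P.re - 1) ^ 2 := by positivity
  nlinarith

theorem cub_bound {p : ℝ} (h : p ^ 3 = p ^ 2 + 1) : 1465571 / 1000000 < p ∧ p < 1465572 / 1000000 := by
  constructor
  · by_contra hc
    have hc' := not_lt.1 hc
    rcases le_total p 1 with h1 | h1
    · have : p ^ 2 * (p - 1) ≤ 0 := mul_nonpos_of_nonneg_of_nonpos (sq_nonneg p) (by linarith)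
      nlinarith
    · have h2 : p ^ 2 ≤ (1465571 / 1000000) ^ 2 := pow_le_pow_left₀ (by linarith) hc' 2
      have h3 : p ^ 2 * (p - 1) ≤ (1465571 / 1000000) ^ 2 * (1465571 / 1000000 - 1) :=
        mul_le_mul h2 (by linarith) (by linarith) (by norm_num)
      norm_num at h3
      nlinarith
  · by_contra hc
    have hc' := not_lt.1 hc
    have h2 : (1465572 / 1000000 : ℝ) ^ 2 ≤ p ^ 2 := pow_le_pow_left₀ (by norm_num) hc' 2
    have h3 : (1465572 / 1000000 : ℝ) ^ 2 * (1465572 / 1000000 - 1) ≤ p ^ 2 * (p - 1) :=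
      mul_le_mul h2 (by linarith) (by norm_num) (sq_nonneg p)
    norm_num at h3
    nlinarith

/-- The algebra of the chain: `c = 2 bl`, `d = 2 br`. -/
theorem chain_alg {c d x r : ℂ} (hc : c ≠ 0) (hx : x ≠ 0) (h1 : c ^ 2 * (2 - x) = 2)
    (h2 : (d ^ 2 - 1) * r = 2) (h3 : c * x = d * r) (h4 : (c * x) ^ 2 * (2 - (x + r)) = 4 * (x + r)) :
    (c ^ 2 - 1) * (d ^ 2 - 1) = c * d ∧ (c * d) ^ 3 = (c * d) ^ 2 + 1 ∧
      r * (c * d) = 2 * (c ^ 2 - 1) := by
  have hc2 : c ^ 2 ≠ 0 := pow_ne_zero 2 hc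
  have a1 : c ^ 2 * x = 2 * (c ^ 2 - 1) := by linear_combination -h1
  have hA : c ^ 2 - 1 ≠ 0 := by
    intro h
    rw [h, mul_zero] at a1
    exact (mul_ne_zero hc2 hx) a1
  have a3 : r * (c * d) = 2 * (c ^ 2 - 1) := by linear_combination (-c) * h3 + a1
  have a2 : (c ^ 2 - 1) * (d ^ 2 - 1) = c * d := by
    have : 2 * ((c ^ 2 - 1) * (d ^ 2 - 1)) = 2 * (c * d) := by
      linear_combination (-(d ^ 2 - 1)) * a3 + c * d * h2
    exact mul_left_cancel₀ two_ne_zero this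
  refine ⟨a2, ?_, a3⟩
  -- `P = - α (α ^ 2 - α + 1)`
  set α := c ^ 2 with hα
  set β := d ^ 2 with hβ
  set P := c * d with hP
  have hab : α * β = P ^ 2 := by rw [hα, hβ, hP]; ring
  have hP0 : P ≠ 0 := by
    intro h
    rw [h, mul_zero] at a3
    exact (mul_ne_zero two_ne_zero hA) a3.symm
  have b1 : P = -(α * (α ^ 2 - α + 1)) := by
    have e1 : α * (c * x) ^ 2 = (2 * (α - 1)) ^ 2 := by
      rw [← a1, hα]
      ring
    -- multiply `h4` by `α ^ 2 P`
    have e2 : (2 * (α - 1)) ^ 2 * (2 * α * P - 2 * (α - 1) * P - α * (2 * (α - 1))) =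
        4 * α * (2 * (α - 1) * P + α * (2 * (α - 1))) := by
      linear_combination (α ^ 2 * P) * h4 - (2 * α * P - 2 * (α - 1) * P - α * (2 * (α - 1))) * e1 +
        (α * (c * x) ^ 2 * P + 4 * α * P) * a1 + (α ^ 2 * (c * x) ^ 2 + 4 * α ^ 2) * a3
    have e3 : 8 * (α - 1) * (P + α * (α ^ 2 - α + 1)) = 0 := by
      linear_combination -e2
    have e4 := (mul_eq_zero.1 e3).resolve_left (mul_ne_zero (by norm_num) hA)
    linear_combination e4
  have b2 : α + β = P ^ 2 - P + 1 := by linear_combination hab - a2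
  have b3 : α ^ 2 = (P ^ 2 - P + 1) * α - P ^ 2 := by linear_combination α * b2 - hab
  have b4 : (P ^ 3 - P ^ 2 - 1) * (P - (P - 1) * α) = 0 := by
    linear_combination (α + P ^ 2 - P) * b3 - b1
  rcases mul_eq_zero.1 b4 with h | h
  · linear_combination h
  · exfalso
    have h5 : P = (P - 1) * α := by linear_combination h
    -- `β = P (P - 1)`
    have h6 : P * (β - P * (P - 1)) = 0 := by linear_combination β * h5 + (P - 1) * hab
    have h7 := (mul_eq_zero.1 h6).resolve_left hP0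
    have h8 : α = 1 := by linear_combination b2 - h7
    exact hA (by linear_combination h8)

/-- The solution of the chain in real terms. -/
theorem chain_num {c d x r : ℂ} (hc : c ≠ 0) (hx : 0 < x.im) (h1 : c ^ 2 * (2 - x) = 2)
    (h2 : (d ^ 2 - 1) * r = 2) (h3 : c * x = d * r) (h4 : (c * x) ^ 2 * (2 - (x + r)) = 4 * (x + r))
    (hP : 0 < (c * d).re) :
    ∃ p g : ℝ, p ^ 3 = p ^ 2 + 1 ∧ 0 < g ∧ g ^ 2 = p ^ 2 - ((p ^ 2 - p + 1) / 2) ^ 2 ∧
      x.re * p ^ 2 = 2 * p ^ 2 - (p ^ 2 - p + 1) ∧ x.im * p ^ 2 = 2 * g ∧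
      r.re * p = p ^ 2 - p - 1 ∧ r.im * p = 2 * g := by
  have hx0 : x ≠ 0 := by
    rintro rfl
    simp at hx
  obtain ⟨k1, k2, k3⟩ := chain_alg hc hx0 h1 h2 h3 h4
  have hPi := cub_real k2 hP
  have hPe : c * d = ((c * d).re : ℂ) := by
    apply Complex.ext
    · rw [ofReal_re]
    · rw [ofReal_im, hPi]
  set p := (c * d).re with hp
  rw [hPe] at k1 k2 k3
  have kp : p ^ 3 = p ^ 2 + 1 := by exact_mod_cast k2
  have hab : c ^ 2 * d ^ 2 = (p : ℂ) ^ 2 := by
    rw [← hPe]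
    ring
  have hs : c ^ 2 + d ^ 2 = (p : ℂ) ^ 2 - p + 1 := by linear_combination hab - k1
  set α := c ^ 2 with hα
  set β := d ^ 2 with hβ
  -- `Im α > 0`
  have e1 := congrArg Complex.re h1
  have e2 := congrArg Complex.im h1
  rw [mul_re, sub_re, sub_im, re_ofNat, im_ofNat] at e1
  rw [mul_im, sub_re, sub_im, re_ofNat, im_ofNat] at e2
  have e3 : α.im * ((2 - x.re) ^ 2 + x.im ^ 2) = 2 * x.im := by
    linear_combination x.im * e1 + (2 - x.re) * e2
  have hN : 0 < (2 - x.re) ^ 2 + x.im ^ 2 := by positivity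
  have g0 : 0 < α.im := by
    by_contra h
    have := mul_nonpos_of_nonpos_of_nonneg (not_lt.1 h) hN.le
    linarith
  have f1 := congrArg Complex.re hs
  have f2 := congrArg Complex.im hs
  have f3 := congrArg Complex.re hab
  have f4 := congrArg Complex.im hab
  have q1 : ((p : ℂ) ^ 2 - p + 1).re = p ^ 2 - p + 1 := by
    have : (p : ℂ) ^ 2 - p + 1 = ((p ^ 2 - p + 1 : ℝ) : ℂ) := by push_cast; ring
    rw [this, ofReal_re]
  have q2 : ((p : ℂ) ^ 2 - p + 1).im = 0 := by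
    have : (p : ℂ) ^ 2 - p + 1 = ((p ^ 2 - p + 1 : ℝ) : ℂ) := by push_cast; ring
    rw [this, ofReal_im]
  have q3 : ((p : ℂ) ^ 2).re = p ^ 2 := by rw [← ofReal_pow, ofReal_re]
  have q4 : ((p : ℂ) ^ 2).im = 0 := by rw [← ofReal_pow, ofReal_im]
  rw [add_re, q1] at f1
  rw [add_im, q2] at f2
  rw [mul_re, q3] at f3
  rw [mul_im, q4] at f4
  have f5 : β.im = -α.im := by linarith
  rw [f5] at f3 f4
  have f6 : β.re = α.re := by
    have : α.im * (β.re - α.re) = 0 := by linear_combination f4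
    have := (mul_eq_zero.1 this).resolve_left g0.ne'
    linarith
  rw [f6] at f1 f3
  have f7 : α.re = (p ^ 2 - p + 1) / 2 := by linarith
  have f8 : α.im ^ 2 = p ^ 2 - ((p ^ 2 - p + 1) / 2) ^ 2 := by
    rw [← f7]
    linarith
  have f9 : α.re ^ 2 + α.im ^ 2 = p ^ 2 := by linarith
  have m1 := congrArg Complex.re k3
  have m2 := congrArg Complex.im k3
  have m3 : (2 * (α - 1)).re = 2 * (α.re - 1) := by
    rw [mul_re, sub_re, re_ofNat, im_ofNat, one_re]
    ring
  have m4 : (2 * (α - 1)).im = 2 * α.im := by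
    rw [mul_im, sub_re, sub_im, re_ofNat, im_ofNat, one_re, one_im]
    ring
  rw [re_mul_ofReal, m3, f7] at m1
  rw [im_mul_ofReal, m4] at m2
  refine ⟨p, α.im, kp, g0, f8, ?_, ?_, by linarith, m2⟩
  · -- `x |α|^2 = 2 |α|^2 - 2 conj α`
    have : x.re * (α.re ^ 2 + α.im ^ 2) = 2 * (α.re ^ 2 + α.im ^ 2) - 2 * α.re := by
      linear_combination (-α.re) * e1 - α.im * e2
    rw [f9] at this
    rw [this, f7]
    ring
  · have : x.im * (α.re ^ 2 + α.im ^ 2) = 2 * α.im := by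
      linear_combination α.im * e1 - α.re * e2
    rw [f9] at this
    exact this

end Pool.Agent.S5.F
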