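import Pool.Agent.S5.I.X3a
import Pool.Agent.S5.I.F7

/-!
# The chain with an end with two half twists (`A` edge) and an end with three half twists (`S` edge)

The numbers `λ` of the two slots are known up to `10 ^ (-5)`; a cell whose bounds do not contain them is
excluded.
-/

set_option autoImplicit false

namespace Pool.Agent.S5.F

open Pool.Agent.S5.C2 Pool.Agent.S5.K Pool.Agent.S5.Num Complex

/-- The numbers `λ` of the two slots (first slot: end with two half twists, second slot: end with three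
half twists). -/
structure Pt23 (w1 e1 w2 e2 : ℝ) : Prop where
  a0 : 5470160 ≤ 1048576 * MF w1 e1 + 4194304
  a1 : 1048576 * MF w1 e1 + 4194304 ≤ 5470172
  b0 : 1171780 ≤ 1048576 * YF w1 e1
  b1 : 1048576 * YF w1 e1 ≤ 1171795
  c0 : 3967010 ≤ 1048576 * MF w2 e2 + 4194304
  c1 : 1048576 * MF w2 e2 + 4194304 ≤ 3967026
  d0 : 1717330 ≤ 1048576 * YF w2 e2
  d1 : 1048576 * YF w2 e2 ≤ 1717346

/-- The bounds of the slots do not contain the point. -/
def exPt (l r : SB) : Bool :=
  cond (Nat.ble (Nat.succ l.m1) 5470160) true (cond (Nat.ble 5470173 l.m0) true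
    (cond (Nat.ble (Nat.succ l.y1) 1171780) true (cond (Nat.ble 1171796 l.y0) true
      (cond (Nat.ble (Nat.succ r.m1) 3967010) true (cond (Nat.ble 3967027 r.m0) true
        (cond (Nat.ble (Nat.succ r.y1) 1717330) true (Nat.ble 1717347 r.y0)))))))

theorem x3_cond_or {b x : Bool} (h : cond b true x = true) : b = true ∨ x = true := by
  cases b
  · exact Or.inr h
  · exact Or.inl rfl

variable {l r : SB} {w1 e1 w2 e2 : ℝ}

theorem exPt_sound (h : exPt l r = true) (hl : SBOK l w1 e1) (hr : SBOK r w2 e2)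
    (hp : Pt23 w1 e1 w2 e2) : False := by
  obtain ⟨a0, a1, b0, b1, c0, c1, d0, d1⟩ := hp
  have l1 := hl.m0
  have l2 := hl.m1
  have l3 := hl.y0
  have l4 := hl.y1
  have r1 := hr.m0
  have r2 := hr.m1
  have r3 := hr.y0
  have r4 := hr.y1
  unfold exPt at h
  rcases x3_cond_or h with h | h
  · have := lt_of_ble h
    push_cast at this
    linarith
  rcases x3_cond_or h with h | h
  · have := le_of_ble h
    push_cast at this
    linarith
  rcases x3_cond_or h with h | h
  · have := lt_of_ble h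
    push_cast at this
    linarith
  rcases x3_cond_or h with h | h
  · have := le_of_ble h
    push_cast at this
    linarith
  rcases x3_cond_or h with h | h
  · have := lt_of_ble h
    push_cast at this
    linarith
  rcases x3_cond_or h with h | h
  · have := le_of_ble h
    push_cast at this
    linarith
  rcases x3_cond_or h with h | h
  · have := lt_of_ble h
    push_cast at this
    linarith
  · have := le_of_ble h
    push_cast at this
    linarith

theorem pos_of_args {a b : ℂ} (ha : |a.arg| < Real.pi / 4) (hb : |b.arg| < Real.pi / 4) (ha0 : a ≠ 0)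
    (hb0 : b ≠ 0) : 0 < (a * b).re := by
  have h1 : (a * b).re = ‖a‖ * ‖b‖ * Real.cos (a.arg + b.arg) := by
    rw [mul_re, Real.cos_add, ← norm_mul_cos_arg a, ← norm_mul_cos_arg b, ← norm_mul_sin_arg a,
      ← norm_mul_sin_arg b]
    simp only [norm_mul_cos_arg, norm_mul_sin_arg]
    nth_rewrite 1 [← norm_mul_cos_arg a, ← norm_mul_cos_arg b]
    nth_rewrite 1 [← norm_mul_sin_arg a, ← norm_mul_sin_arg b]
    ring
  rw [h1]
  have h2 := abs_lt.1 ha
  have h3 := abs_lt.1 hb
  have h4 : 0 < Real.cos (a.arg + b.arg) :=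
    Real.cos_pos_of_mem_Ioo ⟨by linarith [h2.1, h3.1], by linarith [h2.2, h3.2]⟩
  have := norm_pos_iff.2 ha0
  have := norm_pos_iff.2 hb0
  positivity

theorem pt_num {p g M Y N Z : ℝ} (hp : p ^ 3 = p ^ 2 + 1) (hg : 0 < g)
    (hg2 : g ^ 2 = p ^ 2 - ((p ^ 2 - p + 1) / 2) ^ 2) (hM : M * p ^ 2 = 2 * p ^ 2 - (p ^ 2 - p + 1))
    (hY : Y * p ^ 2 = 2 * g) (hN : N * p = p ^ 2 - p - 1) (hZ : Z * p = 2 * g) :
    (5470160 ≤ 1048576 * M + 4194304 ∧ 1048576 * M + 4194304 ≤ 5470172) ∧
      (1171780 ≤ 1048576 * Y ∧ 1048576 * Y ≤ 1171795) ∧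
        (3967010 ≤ 1048576 * N + 4194304 ∧ 1048576 * N + 4194304 ≤ 3967026) ∧
          (1717330 ≤ 1048576 * Z ∧ 1048576 * Z ≤ 1717346) := by
  obtain ⟨p0, p1⟩ := cub_bound hp
  have s0 : (2147898 / 1000000 : ℝ) < p ^ 2 := by nlinarith
  have s1 : p ^ 2 < (2147902 / 1000000 : ℝ) := by nlinarith
  have q0 : (1682325 / 1000000 : ℝ) < p ^ 2 - p + 1 := by linarith
  have q1 : p ^ 2 - p + 1 < (1682331 / 1000000 : ℝ) := by linarith
  have t0 : (1682325 / 2000000 : ℝ) ^ 2 < ((p ^ 2 - p + 1) / 2) ^ 2 :=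
    pow_lt_pow_left₀ (by linarith) (by norm_num) two_ne_zero
  have t1 : ((p ^ 2 - p + 1) / 2) ^ 2 < (1682331 / 2000000 : ℝ) ^ 2 :=
    pow_lt_pow_left₀ (by linarith) (by linarith) two_ne_zero
  have g0 : (120014 / 100000 : ℝ) < g := by
    by_contra h
    have := pow_le_pow_left₀ hg.le (not_lt.1 h) 2
    norm_num at this t1
    linarith
  have g1 : g < (1200146 / 1000000 : ℝ) := by
    by_contra h
    have := pow_le_pow_left₀ (by norm_num) (not_lt.1 h) 2
    norm_num at this t0
    linarith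
  have sp : 0 < p ^ 2 := by linarith
  have pp : 0 < p := by linarith
  have eM : M = 2 - (p ^ 2 - p + 1) / p ^ 2 := by
    field_simp
    linarith
  have eY : Y = 2 * g / p ^ 2 := by
    field_simp
    linarith
  have eN : N = p - 1 - 1 / p := by
    field_simp
    linarith
  have eZ : Z = 2 * g / p := by
    field_simp
    linarith
  have v0 : (682327 / 1000000 : ℝ) < 1 / p := by
    rw [lt_div_iff₀ pp]
    linarith
  have v1 : 1 / p < (682329 / 1000000 : ℝ) := by
    rw [div_lt_iff₀ pp]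
    linarith
  refine ⟨⟨?_, ?_⟩, ⟨?_, ?_⟩, ⟨?_, ?_⟩, ?_, ?_⟩
  · have : (p ^ 2 - p + 1) / p ^ 2 ≤ (783245 / 1000000 : ℝ) := by
      rw [div_le_iff₀ sp]
      linarith
    rw [eM]
    linarith
  · have : (783241 / 1000000 : ℝ) ≤ (p ^ 2 - p + 1) / p ^ 2 := by
      rw [le_div_iff₀ sp]
      linarith
    rw [eM]
    linarith
  · rw [eY]
    have : (11174985 / 10000000 : ℝ) ≤ 2 * g / p ^ 2 := by
      rw [le_div_iff₀ sp]
      linarith
    linarith
  · rw [eY]
    have : 2 * g / p ^ 2 ≤ (1117509 / 1000000 : ℝ) := by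
      rw [div_le_iff₀ sp]
      linarith
    linarith
  · rw [eN]
    linarith
  · rw [eN]
    linarith
  · rw [eZ]
    have : (16377765 / 10000000 : ℝ) ≤ 2 * g / p := by
      rw [le_div_iff₀ pp]
      linarith
    linarith
  · rw [eZ]
    have : 2 * g / p ≤ (1637788 / 1000000 : ℝ) := by
      rw [div_le_iff₀ pp]
      linarith
    linarith

variable {bl br k E ya yb la lb : ℂ}

/-- **The point of the chain `2 A 2 S 3`**: the slots of a node between an end with two half twists (`A`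
edge, slot `bl`) and an end with three half twists (`S` edge, slot `br`). -/
theorem pt23 (h : Nd2 bl br k E ya yb la lb)
    (hE : RelE bl (tw (1 / 2 - ya.re)) (ex ya.im)) (hS : RelS br (tw (1 / 2 - yb.re)) (ex yb.im)) :
    Pt23 (tw (1 / 2 - ya.re)) (ex ya.im) (tw (1 / 2 - yb.re)) (ex yb.im) := by
  obtain ⟨h1, h2⟩ := nd_lam h
  obtain ⟨h3, _⟩ := nd_rel h
  have pa0 : 0 < 1 / 2 - ya.re := by linarith [h.ya1]
  have pa1 : 1 / 2 - ya.re < 1 / 2 := by linarith [h.ya0]
  have hw : 0 < tw (1 / 2 - ya.re) := tw_pos pa0 pa1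
  have hw1 : tw (1 / 2 - ya.re) < 1 := tw_lt pa0 pa1
  have hx : 0 < (lamF (tw (1 / 2 - ya.re)) (ex ya.im)).im := by
    show 0 < YF _ _
    unfold YF
    have := aF_pos hw
    have := sF_nonneg (ex ya.im)
    exact div_pos (scF_pos hw hw1) (by linarith)
  unfold RelE at hE
  unfold RelS at hS
  unfold Rel at h3
  have hb := h.bl0
  have hP : 0 < (2 * bl * (2 * br)).re := by
    have := pos_of_args h.al h.ar h.bl0 h.br0
    have e : 2 * bl * (2 * br) = ((4 : ℝ) : ℂ) * (bl * br) := by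
      push_cast
      ring
    rw [e, re_ofReal_mul]
    linarith
  have hE0 : E ≠ 0 := by
    rintro rfl
    rw [mul_zero, mul_zero] at h1
    exact zero_ne_one h1
  obtain ⟨p, g, k1, k2, k3, k4, k5, k6, k7⟩ :=
    chain_num (c := 2 * bl) (d := 2 * br) (x := lamF (tw (1 / 2 - ya.re)) (ex ya.im))
      (r := lamF (tw (1 / 2 - yb.re)) (ex yb.im)) (mul_ne_zero two_ne_zero hb) hx
      (by linear_combination 2 * hE) (by linear_combination hS)
      (by
        apply mul_right_cancel₀ hE0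
        linear_combination 2 * h1 - 2 * h2)
      (by linear_combination 4 * h3) hP
  obtain ⟨⟨a0, a1⟩, ⟨b0, b1⟩, ⟨c0, c1⟩, d0, d1⟩ := pt_num k1 k2 k3 k4 k5 k6 k7
  exact ⟨a0, a1, b0, b1, c0, c1, d0, d1⟩

end Pool.Agent.S5.F
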