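import Pool.Agent.S5.I.Y3b

/-!
# The flats of a node with three half twists: the edges of the rectangle
-/

set_option autoImplicit false

namespace Pool.Agent.S5.Y3

open MeasureTheory Filter Topology Set Pool.Agent.S5.C2

namespace Ed

theorem sq5 : (22360679 : ℝ) / 10000000 ≤ √5 ∧ √5 ≤ 2236068 / 1000000 := by
  constructor
  · apply Real.le_sqrt_of_sq_le
    norm_num
  · rw [Real.sqrt_le_left (by norm_num)]
    norm_num

theorem Sn_tenth : Sn (1 / 10) = (3 - √5) / 8 := by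
  unfold Sn
  rw [Real.sin_sq_eq_half_sub, show 2 * (Real.pi * (1 / 10)) = Real.pi / 5 by ring,
    Real.cos_pi_div_five]
  ring

theorem tenth_ge : (954915 : ℝ) / 10000000 ≤ Sn (1 / 10) := by
  rw [Sn_tenth]
  have := sq5.2
  linarith

theorem tenth_le : Sn (1 / 10) ≤ 954916 / 10000000 := by
  rw [Sn_tenth]
  have := sq5.1
  linarith

theorem Sn_ge_tenth {q : ℝ} (h0 : 1 / 10 ≤ q) (h1 : q ≤ 9 / 10) :
    (954915 : ℝ) / 10000000 ≤ Sn q :=
  tenth_ge.trans (Sn_ge (by norm_num) h0 (by linarith))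

theorem Sn_half_add' (q : ℝ) : Sn (1 / 2 + q) = 1 - Sn q := by
  unfold Sn
  rw [show Real.pi * (1 / 2 + q) = Real.pi * q + Real.pi / 2 by ring, Real.sin_add_pi_div_two]
  have := Real.sin_sq_add_cos_sq (Real.pi * q)
  linarith

theorem Sn_half1 : Sn (1 / 2) = 1 := by
  unfold Sn
  rw [show Real.pi * (1 / 2) = Real.pi / 2 by ring, Real.sin_pi_div_two]
  norm_num

theorem HH_p {n : ℕ} {s1 s4 s3 p0 q0 p q : ℝ} : HH n s1 s3 p0 (p0 + q0) q p =
    VV n s1 s4 s3 p0 q0 p q - Dq s4 q0 q := by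
  unfold HH VV
  ring

theorem HH_q {n : ℕ} {s1 s4 s3 p0 q0 p q : ℝ} : HH 1 s4 s3 q0 (p0 + q0) p q =
    VV n s1 s4 s3 p0 q0 p q - n * Dq s1 p0 p := by
  unfold HH VV
  rw [add_comm q p, Nat.cast_one]
  ring

end Ed

/-- First-order condition in `p`, from the left. -/
theorem Ed.pL {n : ℕ} {s1 s4 s3 p0 q0 p q : ℝ} (hB : Bp s1 s4 s3 p0 q0)
    (h : Mn n s1 s4 s3 p0 q0 p q) (h0 : 0 < p) :
    (Sn p + s1) ^ n * (Sn (p0 + q0) + s3) ≤ (Sn p0 + s1) ^ n * (Sn (p + q) + s3) := by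
  have a0 := Sn_pos (t := p0) hB.hp0 (by linarith [hB.hp1])
  have b0 := Sn_pos (t := p0 + q0) (by linarith [hB.hP0]) (by linarith [hB.hP1])
  refine focL (lo := 0) hB.h1 hB.h3 (by linarith [hB.h1]) (by linarith [hB.h3]) le_rfl h0
    (by linarith [h.hp1]) ?_
  intro x' hx'
  rw [Ed.HH_p (n := n) (s4 := s4), Ed.HH_p (n := n) (s4 := s4)]
  have := h.le x' q hx'.1 (by linarith [hx'.2, h.hp1]) h.hq0 h.hq1
  linarith

/-- First-order condition in `p`, from the right. -/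
theorem Ed.pR {n : ℕ} {s1 s4 s3 p0 q0 p q : ℝ} (hB : Bp s1 s4 s3 p0 q0)
    (h : Mn n s1 s4 s3 p0 q0 p q) (h0 : p < 1 / 2) :
    (Sn p0 + s1) ^ n * (Sn (p + q) + s3) ≤ (Sn p + s1) ^ n * (Sn (p0 + q0) + s3) := by
  have a0 := Sn_pos (t := p0) hB.hp0 (by linarith [hB.hp1])
  have b0 := Sn_pos (t := p0 + q0) (by linarith [hB.hP0]) (by linarith [hB.hP1])
  refine focR (hi := 1 / 2) hB.h1 hB.h3 (by linarith [hB.h1]) (by linarith [hB.h3]) h.hp0 h0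
    (by norm_num) ?_
  intro x' hx'
  rw [Ed.HH_p (n := n) (s4 := s4), Ed.HH_p (n := n) (s4 := s4)]
  have := h.le x' q (by linarith [hx'.1, h.hp0]) hx'.2 h.hq0 h.hq1
  linarith

/-- First-order condition in `q`, from the left. -/
theorem Ed.qL {n : ℕ} {s1 s4 s3 p0 q0 p q : ℝ} (hB : Bp s1 s4 s3 p0 q0)
    (h : Mn n s1 s4 s3 p0 q0 p q) (h0 : 1 / 10 < q) :
    (Sn q + s4) * (Sn (p0 + q0) + s3) ≤ (Sn q0 + s4) * (Sn (p + q) + s3) := by
  have a0 := Sn_pos (t := q0) (by linarith [hB.hq0]) (by linarith [hB.hq1])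
  have b0 := Sn_pos (t := p0 + q0) (by linarith [hB.hP0]) (by linarith [hB.hP1])
  have h1 := focL (n := 1) (s := s4) (s3 := s3) (x0 := q0) (X0 := p0 + q0) (c := p) (x := q)
    (lo := 1 / 10) hB.h4 hB.h3 (by linarith [hB.h4]) (by linarith [hB.h3]) (by norm_num) h0
    (by linarith [h.hq1]) (by
      intro x' hx'
      rw [Ed.HH_q (n := n) (s1 := s1), Ed.HH_q (n := n) (s1 := s1)]
      have := h.le p x' h.hp0 h.hp1 hx'.1 (by linarith [hx'.2, h.hq1])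
      linarith)
  rw [pow_one, pow_one, add_comm q p] at h1
  exact h1

/-- First-order condition in `q`, from the right. -/
theorem Ed.qR {n : ℕ} {s1 s4 s3 p0 q0 p q : ℝ} (hB : Bp s1 s4 s3 p0 q0)
    (h : Mn n s1 s4 s3 p0 q0 p q) (h0 : q < 9 / 10) :
    (Sn q0 + s4) * (Sn (p + q) + s3) ≤ (Sn q + s4) * (Sn (p0 + q0) + s3) := by
  have a0 := Sn_pos (t := q0) (by linarith [hB.hq0]) (by linarith [hB.hq1])
  have b0 := Sn_pos (t := p0 + q0) (by linarith [hB.hP0]) (by linarith [hB.hP1])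
  have h1 := focR (n := 1) (s := s4) (s3 := s3) (x0 := q0) (X0 := p0 + q0) (c := p) (x := q)
    (hi := 9 / 10) hB.h4 hB.h3 (by linarith [hB.h4]) (by linarith [hB.h3]) (by linarith [h.hq0]) h0
    (by norm_num) (by
      intro x' hx'
      rw [Ed.HH_q (n := n) (s1 := s1), Ed.HH_q (n := n) (s1 := s1)]
      have := h.le p x' h.hp0 h.hp1 (by linarith [hx'.1, h.hq0]) hx'.2
      linarith)
  rw [pow_one, pow_one, add_comm q p] at h1
  exact h1

theorem Mn.ne_half {n : ℕ} {s1 s4 s3 p0 q0 p q : ℝ} (hB : Bp s1 s4 s3 p0 q0)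
    (h : Mn n s1 s4 s3 p0 q0 p q)
    (hc : (Sn p0 + s1) ^ n * (9046 / 10000 + s3) < (1 + s1) ^ n * (Sn (p0 + q0) + s3)) : p ≠ 1 / 2 := by
  rintro rfl
  have h1 := Ed.pL hB h (by norm_num)
  rw [Ed.Sn_half_add', Ed.Sn_half1] at h1
  have a0 := Sn_pos (t := p0) hB.hp0 (by linarith [hB.hp1])
  have h2 := Ed.Sn_ge_tenth h.hq0 h.hq1
  have h3 : (Sn p0 + s1) ^ n * (1 - Sn q + s3) ≤ (Sn p0 + s1) ^ n * (9046 / 10000 + s3) :=
    mul_le_mul_of_nonneg_left (by linarith) (pow_nonneg (by linarith [hB.h1]) n)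
  linarith

theorem Mn.ne_zero {n : ℕ} {s1 s4 s3 p0 q0 p q : ℝ} (hB : Bp s1 s4 s3 p0 q0)
    (h : Mn n s1 s4 s3 p0 q0 p q)
    (hc : s1 ^ n * (Sn (p0 + q0) + s3) < (Sn p0 + s1) ^ n * (954915 / 10000000 + s3)) : p ≠ 0 := by
  rintro rfl
  have h1 := Ed.pR hB h (by norm_num)
  have e0 : Sn 0 = 0 := by
    unfold Sn
    simp
  rw [e0, zero_add, zero_add] at h1
  have a0 := Sn_pos (t := p0) hB.hp0 (by linarith [hB.hp1])
  have h2 := Ed.Sn_ge_tenth h.hq0 h.hq1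
  have h3 : (Sn p0 + s1) ^ n * (954915 / 10000000 + s3) ≤ (Sn p0 + s1) ^ n * (Sn q + s3) :=
    mul_le_mul_of_nonneg_left (by linarith) (pow_nonneg (by linarith [hB.h1]) n)
  linarith

/-- The line `q = 9/10`: a cell `[a, b]`, `1/10 ≤ a`. -/
theorem Mn.top_cell {n : ℕ} {s1 s4 s3 p0 q0 p q a b : ℝ} (hB : Bp s1 s4 s3 p0 q0)
    (h : Mn n s1 s4 s3 p0 q0 p q) (hq : q = 9 / 10) (ha : 1 / 10 ≤ a) (hb : b ≤ 1 / 2) (hp : a < p) (hp' : p ≤ b)
    (hc : (Sn p0 + s1) ^ n * (Sn (b - 1 / 10) + s3) < (Sn a + s1) ^ n * (Sn (p0 + q0) + s3)) : False := by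
  have h1 := Ed.pL hB h (by linarith)
  rw [hq, show p + 9 / 10 = (p - 1 / 10) + 1 by ring, ← Sn_sub_one (p - 1 / 10 + 1),
    add_sub_cancel_right] at h1
  have a0 := Sn_pos (t := p0) hB.hp0 (by linarith [hB.hp1])
  have b0 := Sn_pos (t := p0 + q0) (by linarith [hB.hP0]) (by linarith [hB.hP1])
  have m1 := Sn_mono (t := a) (t' := p) (by linarith) hp.le (by linarith)
  have m2 := Sn_mono (t := p - 1 / 10) (t' := b - 1 / 10) (by linarith) (by linarith) (by linarith)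
  have h2 : (Sn a + s1) ^ n * (Sn (p0 + q0) + s3) ≤ (Sn p + s1) ^ n * (Sn (p0 + q0) + s3) :=
    mul_le_mul_of_nonneg_right
      (pow_le_pow_left₀ (add_nonneg (Sn_nonneg _) hB.h1) (by linarith) n) (by linarith [hB.h3])
  have h3 : (Sn p0 + s1) ^ n * (Sn (p - 1 / 10) + s3) ≤
      (Sn p0 + s1) ^ n * (Sn (b - 1 / 10) + s3) :=
    mul_le_mul_of_nonneg_left (by linarith) (pow_nonneg (by linarith [hB.h1]) n)
  linarith

/-- The line `q = 1/10`, a cell `[a, b]` with `V_p < 0`. -/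
theorem Mn.bot_lt {n : ℕ} {s1 s4 s3 p0 q0 p q a b : ℝ} (hB : Bp s1 s4 s3 p0 q0)
    (h : Mn n s1 s4 s3 p0 q0 p q) (hq : q = 1 / 10) (ha : 0 ≤ a) (hb : b ≤ 2 / 5) (hp : a ≤ p) (hp' : p ≤ b)
    (hc : (Sn b + s1) ^ n * (Sn (p0 + q0) + s3) < (Sn p0 + s1) ^ n * (Sn (a + 1 / 10) + s3)) : False := by
  have h1 := Ed.pR hB h (by linarith)
  rw [hq] at h1
  have a0 := Sn_pos (t := p0) hB.hp0 (by linarith [hB.hp1])
  have b0 := Sn_pos (t := p0 + q0) (by linarith [hB.hP0]) (by linarith [hB.hP1])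
  have m1 := Sn_mono (t := p) (t' := b) h.hp0 hp' (by linarith)
  have m2 := Sn_mono (t := a + 1 / 10) (t' := p + 1 / 10) (by linarith) (by linarith) (by linarith)
  have h2 : (Sn p + s1) ^ n * (Sn (p0 + q0) + s3) ≤ (Sn b + s1) ^ n * (Sn (p0 + q0) + s3) :=
    mul_le_mul_of_nonneg_right
      (pow_le_pow_left₀ (add_nonneg (Sn_nonneg _) hB.h1) (by linarith) n) (by linarith [hB.h3])
  have h3 : (Sn p0 + s1) ^ n * (Sn (a + 1 / 10) + s3) ≤
      (Sn p0 + s1) ^ n * (Sn (p + 1 / 10) + s3) :=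
    mul_le_mul_of_nonneg_left (by linarith) (pow_nonneg (by linarith [hB.h1]) n)
  linarith

/-- The line `q = 1/10`, a cell `[a, b]` with `V_p > 0`. -/
theorem Mn.bot_gt {n : ℕ} {s1 s4 s3 p0 q0 p q a b : ℝ} (hB : Bp s1 s4 s3 p0 q0)
    (h : Mn n s1 s4 s3 p0 q0 p q) (hq : q = 1 / 10) (ha : 0 ≤ a) (hb : b ≤ 2 / 5) (hp : a ≤ p) (hp' : p ≤ b)
    (h0 : 0 < p)
    (hc : (Sn p0 + s1) ^ n * (Sn (b + 1 / 10) + s3) < (Sn a + s1) ^ n * (Sn (p0 + q0) + s3)) : False := by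
  have h1 := Ed.pL hB h h0
  rw [hq] at h1
  have a0 := Sn_pos (t := p0) hB.hp0 (by linarith [hB.hp1])
  have b0 := Sn_pos (t := p0 + q0) (by linarith [hB.hP0]) (by linarith [hB.hP1])
  have m1 := Sn_mono (t := a) (t' := p) ha hp (by linarith)
  have m2 := Sn_mono (t := p + 1 / 10) (t' := b + 1 / 10) (by linarith) (by linarith) (by linarith)
  have h2 : (Sn a + s1) ^ n * (Sn (p0 + q0) + s3) ≤ (Sn p + s1) ^ n * (Sn (p0 + q0) + s3) :=
    mul_le_mul_of_nonneg_right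
      (pow_le_pow_left₀ (add_nonneg (Sn_nonneg _) hB.h1) (by linarith) n) (by linarith [hB.h3])
  have h3 : (Sn p0 + s1) ^ n * (Sn (p + 1 / 10) + s3) ≤
      (Sn p0 + s1) ^ n * (Sn (b + 1 / 10) + s3) :=
    mul_le_mul_of_nonneg_left (by linarith) (pow_nonneg (by linarith [hB.h1]) n)
  linarith

/-- The line `q = 1/10`, `a ≤ p` with `V_q < 0`. -/
theorem Mn.bot_q {n : ℕ} {s1 s4 s3 p0 q0 p q a : ℝ} (hn : 1 ≤ n) (hB : Bp s1 s4 s3 p0 q0)
    (h : Mn n s1 s4 s3 p0 q0 p q) (hq : q = 1 / 10) (ha : 0 ≤ a) (ha' : a ≤ 2 / 5) (hp : a ≤ p)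
    (hc : (954916 / 10000000 + s4) * (Sn (p0 + q0) + s3) < (Sn q0 + s4) * (Sn (a + 1 / 10) + s3))
    (hc' : (954916 / 10000000 + s4) * (Sn (p0 + q0) + s3) < (Sn q0 + s4) * (9045 / 10000 + s3)) : False := by
  have h1 := Ed.qR hB h (by linarith)
  rw [hq] at h1
  have a0 := Sn_pos (t := q0) (by linarith [hB.hq0]) (by linarith [hB.hq1])
  have b0 := Sn_pos (t := p0 + q0) (by linarith [hB.hP0]) (by linarith [hB.hP1])
  have h2 : (Sn (1 / 10) + s4) * (Sn (p0 + q0) + s3) ≤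
      (954916 / 10000000 + s4) * (Sn (p0 + q0) + s3) :=
    mul_le_mul_of_nonneg_right (by linarith [Ed.tenth_le]) (by linarith [hB.h3])
  have hq4 : 0 ≤ Sn q0 + s4 := by linarith [hB.h4]
  rcases le_total (p + 1 / 10) (1 / 2) with h3 | h3
  · have m := Sn_mono (t := a + 1 / 10) (t' := p + 1 / 10) (by linarith) (by linarith) h3
    have h4 : (Sn q0 + s4) * (Sn (a + 1 / 10) + s3) ≤ (Sn q0 + s4) * (Sn (p + 1 / 10) + s3) :=
      mul_le_mul_of_nonneg_left (by linarith) hq4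
    linarith
  · have m := Sn_anti (t := p + 1 / 10) (t' := 1 / 2 + 1 / 10) h3 (by linarith [h.hp1])
      (by norm_num)
    rw [Ed.Sn_half_add'] at m
    have h4 : (Sn q0 + s4) * (9045 / 10000 + s3) ≤ (Sn q0 + s4) * (Sn (p + 1 / 10) + s3) :=
      mul_le_mul_of_nonneg_left (by linarith [Ed.tenth_le]) hq4
    linarith

end Pool.Agent.S5.Y3
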