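import Pool.Agent.S5.I.Y3Z
import Pool.Agent.S5.I.Y3W

/-!
# The flats of a node with three half twists: the total from its parts
-/

set_option autoImplicit false

namespace Pool.Agent.S5.Y3

open MeasureTheory Filter Topology Set Pool.Agent.S5.C2 Pool.Agent.S5.Num Pool.Agent.S5.K3

/-- The parts. -/
structure Pts (n kb : ℕ) (f4 : Bool) (s1 s4 s3 s2 g5 p0 q0 qb R : ℝ) : Prop where
  B : Bp s1 s4 s3 p0 q0
  hs2 : 0 ≤ s2
  hb0 : 0 < qb
  hb1 : qb ≤ 2 / 5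
  u1 : 3 / 20 ≤ qb + 1 / 2 - q0
  u2 : qb + 1 / 2 - q0 < 1 / 2
  kb3 : kb ≤ 3
  V : ∀ p q : ℝ, 0 ≤ p → p ≤ 3 / 4 → 1 / 10 ≤ q → q ≤ 9 / 10 →
      0 < VV n s1 s4 s3 p0 q0 p q ∨ (p = p0 ∧ q = q0)
  M : ∀ x q : ℝ, 0 < x → x ≤ 1 / 4 → 1 / 10 ≤ q → q ≤ 9 / 10 →
      VV n s1 s4 s3 p0 q0 (1 / 2 - x) q < VV n s1 s4 s3 p0 q0 (1 / 2 + x) q
  F : f4 = true → ∀ p q : ℝ, 1 / 2 ≤ p → p ≤ 3 / 4 → 1 / 10 ≤ q → q ≤ 9 / 10 →
      VV n s1 s4 s3 p0 q0 (2 / 5) q + 1 / 20 < VV n s1 s4 s3 p0 q0 p q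
  rs : R = 0 ∨ ∀ p q b : ℝ, 0 ≤ p → p ≤ 1 / 2 → 1 / 10 ≤ q → q ≤ 9 / 10 → 1 / 2 ≤ b → b ≤ 3 / 4 →
      -Dq (Hs g5) (qb + 1 - q0) (1 + b - q) < 0 →
      -Dq (Hs g5) (qb + 1 - q0) (1 / 2 + (b + 2 / 5)) + R ≤
        VV n s1 s4 s3 p0 q0 p q + -Dq (Hs g5) (qb + 1 - q0) (1 + b - q)
  c0 : 0 < -Dq (Hs g5) (qb + 1 - q0) (1 / 2 + 4 / 5)
  c1 : ∀ j : ℕ, 16 ≤ j → j < 20 → 0 < -Dq (Hs g5) (qb + 1 - q0) (1 / 2 + 9 / 10) + R ∨
        0 < wkb kb * Dq s2 qb (j / 40) + -Dq (Hs g5) (qb + 1 - q0) (1 / 2 + (j + 17) / 40)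
  c2 : ∀ j : ℕ, 20 ≤ j → j < 30 → ∀ i : ℕ, (i = j ∨ i = j + 1) →
        (nd kb < wkb kb * Dq s2 qb (i / 40) + -Dq (Hs g5) (qb + 1 - q0) (1 / 2 + (j + 17) / 40) + R ∧
        (kb ≤ 1 → nd kb < Dq s2 qb (i / 40)))
  l : ∀ b u : ℝ, 0 ≤ b → b - 2 / 5 ≤ u → u ≤ -(qb + 1 / 2 - q0) →
      0 < -Dq (Hs g5) (qb + 1 - q0) (1 / 2 + u) ∨
      (kb ≤ 2 ∧ 0 < Dq s2 qb b + -Dq (Hs g5) (qb + 1 - q0) (1 / 2 + u))

variable {n kb : ℕ} {f4 : Bool} {s1 s4 s3 s2 g5 p0 q0 qb R : ℝ}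

theorem Pts.V0 (h : Pts n kb f4 s1 s4 s3 s2 g5 p0 q0 qb R) {p q : ℝ} (hp : 0 ≤ p) (hp1 : p ≤ 3 / 4)
    (hq : 1 / 10 ≤ q) (hq1 : q ≤ 9 / 10) : 0 ≤ VV n s1 s4 s3 p0 q0 p q := by
  rcases h.V p q hp hp1 hq hq1 with h1 | ⟨rfl, rfl⟩
  · exact h1.le
  · rw [show VV n s1 s4 s3 p q p q = 0 by unfold VV; rw [Dq_self, Dq_self, Dq_self]; ring]

/-- The cell of `b`. -/
theorem cell_of {b : ℝ} (m : ℕ) {a : ℕ} (h0 : (a : ℝ) / 40 ≤ b) (h1 : b ≤ (a + m + 1 : ℕ) / 40) :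
    ∃ j : ℕ, a ≤ j ∧ j < a + m + 1 ∧ (j : ℝ) / 40 ≤ b ∧ b ≤ (j + 1) / 40 := by
  induction m with
  | zero => exact ⟨a, le_rfl, by omega, h0, by push_cast at h1; linarith⟩
  | succ m ih =>
    rcases le_total b ((a + m + 1 : ℕ) / 40) with h | h
    · obtain ⟨j, h2, h3, h4, h5⟩ := ih h
      exact ⟨j, h2, by omega, h4, h5⟩
    · exact ⟨a + m + 1, by omega, by omega, h, by push_cast at h1 ⊢; linarith⟩

/-- The fifth part as a function. -/
noncomputable def D5 (g5 qb q0 x : ℝ) : ℝ := -Dq (Hs g5) (qb + 1 - q0) (1 / 2 + x)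

theorem D5_eq {g5 qb q0 b q : ℝ} : -Dq (Hs g5) (qb + 1 - q0) (1 + b - q) = D5 g5 qb q0 (b + 1 / 2 - q) := by
  unfold D5
  rw [show 1 + b - q = 1 / 2 + (b + 1 / 2 - q) by ring]

theorem Hs_nonneg (h : ℝ) : 0 ≤ Hs h := sq_nonneg _

theorem Pts.z1 (h : Pts n kb f4 s1 s4 s3 s2 g5 p0 q0 qb R) {x : ℝ} (h1 : -(qb + 1 / 2 - q0) ≤ x)
    (h2 : x ≤ 1 - (qb + 1 / 2 - q0)) (hne : x ≠ qb + 1 / 2 - q0) : 0 < D5 g5 qb q0 x := by
  have h3 := h.u1
  have h4 := D5_pos (Hs_nonneg g5) (by linarith) h.u2 h1 h2 hne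
  rwa [show 1 / 2 + (qb + 1 / 2 - q0) = qb + 1 - q0 by ring] at h4

theorem Pts.z2 (h : Pts n kb f4 s1 s4 s3 s2 g5 p0 q0 qb R) {x y : ℝ} (h1 : 1 - (qb + 1 / 2 - q0) ≤ x)
    (h2 : x < y) (h3 : y ≤ 1 + (qb + 1 / 2 - q0)) : D5 g5 qb q0 y < D5 g5 qb q0 x := by
  have h4 := h.u1
  have h5 := D5_lt (Hs_nonneg g5) (by linarith) h.u2 h1 h2 h3
  rwa [show 1 / 2 + (qb + 1 / 2 - q0) = qb + 1 - q0 by ring] at h5

theorem Pts.z2' (h : Pts n kb f4 s1 s4 s3 s2 g5 p0 q0 qb R) {x y : ℝ} (h1 : 1 - (qb + 1 / 2 - q0) ≤ x)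
    (h2 : x ≤ y) (h3 : y ≤ 1 + (qb + 1 / 2 - q0)) : D5 g5 qb q0 y ≤ D5 g5 qb q0 x := by
  rcases h2.eq_or_lt with rfl | h4
  · exact le_rfl
  · exact (h.z2 h1 h4 h3).le

theorem D5_self {g5 qb q0 : ℝ} : D5 g5 qb q0 (qb + 1 / 2 - q0) = 0 := by
  unfold D5
  rw [show 1 / 2 + (qb + 1 / 2 - q0) = qb + 1 - q0 by ring, Dq_self, neg_zero]

/-- The reserve, also where the fifth part vanishes, at the base point. -/
theorem Pts.base (h : Pts n kb f4 s1 s4 s3 s2 g5 p0 q0 qb R) {b : ℝ} (hb : 1 / 2 ≤ b) (hb1 : b ≤ 3 / 4)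
    (hU : 1 - (qb + 1 / 2 - q0) ≤ b + 1 / 2 - q0) (hD : D5 g5 qb q0 (b + 1 / 2 - q0) ≤ 0) :
    D5 g5 qb q0 (b + 2 / 5) + R ≤ D5 g5 qb q0 (b + 1 / 2 - q0) := by
  have hu := h.u1
  have hq0 := h.B.hq0
  have hq1 := h.B.hq1
  rcases h.rs with hR | hR
  · rw [hR, add_zero]
    exact h.z2' hU (by linarith) (by linarith)
  have c1 : Continuous (fun x : ℝ => VV n s1 s4 s3 p0 q0 p0 x) := by
    unfold VV
    exact (continuous_const.add ((Dq_continuous h.B.h4 q0))).sub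
      ((Dq_continuous h.B.h3 (p0 + q0)).comp (continuous_const.add continuous_id))
  have c2 : Continuous (fun x : ℝ => -Dq (Hs g5) (qb + 1 - q0) (1 + b - x)) :=
    ((Dq_continuous (Hs_nonneg g5) (qb + 1 - q0)).comp (continuous_const.sub continuous_id)).neg
  have ht := ((c1.add c2).tendsto q0).mono_left (nhdsWithin_le_nhds (s := Iio q0))
  have hv : VV n s1 s4 s3 p0 q0 p0 q0 = 0 := by
    unfold VV
    rw [Dq_self, Dq_self, Dq_self]
    ring
  have key := ge_of_tendsto (b := D5 g5 qb q0 (b + 2 / 5) + R) ht (by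
    filter_upwards [Ioo_mem_nhdsLT hq0] with q hq
    have h5 : D5 g5 qb q0 (b + 1 / 2 - q) < 0 := by
      have := h.z2 hU (y := b + 1 / 2 - q) (by linarith [hq.2]) (by linarith [hq.1])
      linarith
    exact hR p0 q b h.B.hp0.le h.B.hp1.le hq.1.le (by linarith [hq.2]) hb hb1 (by rw [D5_eq]; exact h5))
  change _ ≤ VV n s1 s4 s3 p0 q0 p0 q0 + -Dq (Hs g5) (qb + 1 - q0) (1 + b - q0) at key
  rw [hv, D5_eq, zero_add] at key
  exact key

/-- **The total for `p ≤ 1/2`**: `w` is the weight of `D2`. -/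
theorem Pts.low (h : Pts n kb f4 s1 s4 s3 s2 g5 p0 q0 qb R) {w p q b : ℝ}
    (hw0 : 0 ≤ w) (hw1 : kb ≤ 1 → w = 1) (hw2 : kb = 2 → b < 1 / 4 → w = 1)
    (hw3 : 2 ≤ kb → 1 / 2 ≤ b → w = 0)
    (hp : 0 ≤ p) (hp1 : p ≤ 1 / 2) (hq : 1 / 10 ≤ q) (hq1 : q ≤ 9 / 10) (hb : 0 ≤ b) (hb1 : b ≤ 3 / 4) :
    (b ≤ 1 / 2 → 0 < VT n w s1 s4 s3 s2 g5 p0 q0 qb p q b ∨ (p = p0 ∧ q = q0 ∧ b = qb)) ∧
    (1 / 2 ≤ b → nd kb < VT n w s1 s4 s3 s2 g5 p0 q0 qb p q b) := by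
  have hu := h.u1
  have hu2 := h.u2
  have hV0 := h.V0 hp (by linarith) hq hq1
  have hVV := h.V p q hp (by linarith) hq hq1
  have eT : VT n w s1 s4 s3 s2 g5 p0 q0 qb p q b =
      VV n s1 s4 s3 p0 q0 p q + w * Dq s2 qb b + D5 g5 qb q0 (b + 1 / 2 - q) := by
    rw [← D5_eq]
    unfold VT
    ring
  rw [eT]
  set V := VV n s1 s4 s3 p0 q0 p q with hVdef
  have hD2 : b ≤ 1 / 2 → 0 ≤ w * Dq s2 qb b := fun h1 =>
    mul_nonneg hw0 (D2_nonneg h.hs2 h.hb0 (by linarith [h.hb1]) hb h1)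
  have hnd : kb ≤ 1 ∨ (kb = 2 ∧ nd kb = 0) ∨ (kb = 3 ∧ nd kb = -(3 / 50)) := by
    have := h.kb3
    unfold nd
    interval_cases kb <;> norm_num
  -- the cell of `D2` for `b ≥ 1/2`
  have cell : 1 / 2 ≤ b → ∃ j : ℕ, 20 ≤ j ∧ j < 30 ∧ (j : ℝ) / 40 ≤ b ∧ b ≤ (j + 1) / 40 := by
    intro h1
    obtain ⟨j, h2, h3, h4, h5⟩ := cell_of (b := b) 9 (a := 20) (by norm_num; linarith)
      (by norm_num; linarith)
    exact ⟨j, h2, by omega, h4, h5⟩
  have big : 1 / 2 ≤ b → kb ≤ 1 → nd kb < Dq s2 qb b := by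
    intro h1 h2
    obtain ⟨j, h3, h4, h5, h6⟩ := cell h1
    have hj : (20 : ℝ) ≤ j := by exact_mod_cast h3
    have hj' : (j : ℝ) + 1 ≤ 30 := by exact_mod_cast h4
    have k1 := (h.c2 j h3 h4 j (Or.inl rfl)).2 h2
    have k2 := (h.c2 j h3 h4 (j + 1) (Or.inr rfl)).2 h2
    push_cast at k2
    exact D2_conc h.hs2 (a := (j : ℝ) / 40) (c := ((j : ℝ) + 1) / 40) (by linarith) h5 h6 (by linarith) k1 k2
  rcases lt_or_ge (b + 1 / 2 - q) (-(qb + 1 / 2 - q0)) with hL | hL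
  · -- left
    have h1 := h.l b (b + 1 / 2 - q) hb (by linarith) hL.le
    have h2 := hD2 (by linarith)
    refine ⟨fun _ => Or.inl ?_, fun h3 => absurd h3 (by linarith)⟩
    rcases h1 with h1 | ⟨h3, h1⟩
    · change 0 < D5 g5 qb q0 (b + 1 / 2 - q) at h1
      linarith
    · change 0 < Dq s2 qb b + D5 g5 qb q0 (b + 1 / 2 - q) at h1
      have h4 : w = 1 := by
        rcases Nat.lt_or_ge kb 2 with h5 | h5
        · exact hw1 (by omega)
        · exact hw2 (by omega) (by linarith)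
      rw [h4, one_mul]
      linarith
  rcases le_or_gt (b + 1 / 2 - q) (1 - (qb + 1 / 2 - q0)) with hM | hR
  · -- the middle
    rcases eq_or_ne (b + 1 / 2 - q) (qb + 1 / 2 - q0) with he | he
    · rw [he, D5_self, add_zero]
      constructor
      · intro h1
        have h2 := hD2 h1
        rcases hVV with h3 | ⟨h3, h4⟩
        · left
          linarith
        · right
          exact ⟨h3, h4, by linarith⟩
      · intro h1
        rcases hnd with h2 | ⟨h2, h3⟩ | ⟨h2, h3⟩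
        · have := big h1 h2
          rw [hw1 h2, one_mul]
          linarith
        · rcases hVV with h5 | ⟨h5, h6⟩
          · rw [h3, hw3 (by omega) h1, zero_mul]
            linarith
          · exfalso
            have := h.hb1
            linarith
        · rw [h3, hw3 (by omega) h1, zero_mul]
          linarith
    · have h0 := h.z1 hL hM he
      constructor
      · intro h1
        have h2 := hD2 h1
        left
        linarith
      · intro h1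
        rcases hnd with h2 | ⟨h2, h3⟩ | ⟨h2, h3⟩
        · have := big h1 h2
          rw [hw1 h2, one_mul]
          linarith
        · rw [h3, hw3 (by omega) h1, zero_mul]
          linarith
        · rw [h3, hw3 (by omega) h1, zero_mul]
          linarith
  -- right
  rcases lt_or_ge b (2 / 5) with hb2 | hb2
  · refine ⟨fun _ => Or.inl ?_, fun h1 => absurd h1 (by linarith)⟩
    have h1 : 0 < D5 g5 qb q0 (4 / 5) := h.c0
    have h2 := h.z2 hR.le (y := 4 / 5) (by linarith) (by linarith)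
    have := hD2 (by linarith)
    linarith
  have lowR : b ≤ 1 / 2 → 0 < V + w * Dq s2 qb b + D5 g5 qb q0 (b + 1 / 2 - q) := by
    intro hb3
    obtain ⟨j, h3, h4, h5, h6⟩ := cell_of (b := b) 3 (a := 16) (by norm_num; linarith)
      (by norm_num; linarith)
    have hj : (16 : ℝ) ≤ j := by exact_mod_cast h3
    have hj' : (j : ℝ) + 1 ≤ 20 := by exact_mod_cast h4
    have hD := hD2 hb3
    rcases h.c1 j h3 (by omega) with h7 | h7
    · change 0 < D5 g5 qb q0 (9 / 10) + R at h7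
      rcases lt_or_ge (D5 g5 qb q0 (1 / 2 + 1 / 2 - q)) 0 with h9 | h9
      · have h8 := h.z2' hR.le (y := 1 / 2 + 1 / 2 - q) (by linarith) (by linarith)
        rcases h.rs with hR0 | hR0
        · rw [hR0, add_zero] at h7
          have := h.z2' hR.le (y := 9 / 10) (by linarith) (by linarith)
          linarith
        · have h10 := hR0 p q (1 / 2) hp hp1 hq hq1 le_rfl (by norm_num) (by rw [D5_eq]; exact h9)
          rw [D5_eq, show (1 / 2 : ℝ) + (1 / 2 + 2 / 5) = 1 / 2 + 9 / 10 by norm_num] at h10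
          change D5 g5 qb q0 (9 / 10) + R ≤ _ at h10
          linarith
      · rcases hb3.lt_or_eq with hb4 | hb4
        · have h8 := h.z2 hR.le (y := 1 / 2 + 1 / 2 - q) (by linarith) (by linarith)
          linarith
        · rcases hVV with h12 | ⟨h12, h13⟩
          · rw [hb4] at hD ⊢
            linarith
          · rcases h9.lt_or_eq with h14 | h14
            · rw [hb4] at hD ⊢
              linarith
            · exfalso
              rw [h13] at h14 hR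
              rw [hb4] at hR
              have h15 := h.base (b := 1 / 2) le_rfl (by norm_num) hR.le h14.ge
              rw [show (1 / 2 : ℝ) + 2 / 5 = 9 / 10 by norm_num] at h15
              linarith
    · change 0 < wkb kb * Dq s2 qb (j / 40) + D5 g5 qb q0 ((j + 17) / 40) at h7
      have h8 := h.z2' hR.le (y := ((j : ℝ) + 17) / 40) (by linarith) (by linarith)
      rcases Nat.lt_or_ge kb 2 with h9 | h9
      · have h10 := D2_mono h.hs2 h.hb0 (x := (j : ℝ) / 40) (y := b) (by linarith [h.hb1]) h5 hb3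
        have h11 : wkb kb = 1 := if_pos (by omega)
        rw [h11, one_mul] at h7
        rw [hw1 (by omega), one_mul]
        linarith
      · have h11 : wkb kb = 0 := if_neg (by omega)
        rw [h11, zero_mul] at h7
        linarith
  rcases lt_or_ge b (1 / 2) with hb3 | hb3
  · exact ⟨fun _ => Or.inl (lowR hb3.le), fun h1 => absurd h1 (by linarith)⟩
  · refine ⟨fun h1 => Or.inl (lowR h1), fun _ => ?_⟩
    obtain ⟨j, h3, h4, h5, h6⟩ := cell hb3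
    have hj : (20 : ℝ) ≤ j := by exact_mod_cast h3
    have hj' : (j : ℝ) + 1 ≤ 30 := by exact_mod_cast h4
    have k1 := (h.c2 j h3 h4 j (Or.inl rfl)).1
    have k2 := (h.c2 j h3 h4 (j + 1) (Or.inr rfl)).1
    change nd kb < wkb kb * Dq s2 qb (j / 40) + D5 g5 qb q0 ((j + 17) / 40) + R at k1
    change nd kb < wkb kb * Dq s2 qb ((j + 1 : ℕ) / 40) + D5 g5 qb q0 ((j + 17) / 40) + R at k2
    push_cast at k2
    -- the bound with the reserve
    have m1 : nd kb < w * Dq s2 qb b + D5 g5 qb q0 ((j + 17) / 40) + R := by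
      rcases Nat.lt_or_ge kb 2 with h9 | h9
      · have h11 : wkb kb = 1 := if_pos (by omega)
        rw [h11, one_mul] at k1 k2
        rw [hw1 (by omega), one_mul]
        have := D2_conc h.hs2 (x0 := qb) (a := (j : ℝ) / 40) (c := ((j : ℝ) + 1) / 40)
          (m := nd kb - D5 g5 qb q0 ((j + 17) / 40) - R) (by linarith) h5 h6 (by linarith)
          (by linarith) (by linarith)
        linarith
      · have h11 : wkb kb = 0 := if_neg (by omega)
        rw [h11, zero_mul] at k1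
        rw [hw3 h9 hb3, zero_mul]
        exact k1
    have m2 := h.z2' (x := b + 2 / 5) (y := ((j : ℝ) + 17) / 40) (by linarith) (by linarith) (by linarith)
    rcases lt_or_ge (D5 g5 qb q0 (b + 1 / 2 - q)) 0 with h9 | h9
    · rcases h.rs with hR0 | hR0
      · rw [hR0, add_zero] at m1
        have := h.z2' hR.le (y := ((j : ℝ) + 17) / 40) (by linarith) (by linarith)
        linarith
      · have h10 := hR0 p q b hp hp1 hq hq1 hb3 hb1 (by rw [D5_eq]; exact h9)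
        rw [D5_eq] at h10
        change D5 g5 qb q0 (b + 2 / 5) + R ≤ _ at h10
        linarith
    · rcases hnd with h2 | ⟨h2, h3'⟩ | ⟨h2, h3'⟩
      · have := big hb3 h2
        rw [hw1 h2, one_mul]
        linarith
      · rw [h3'] at m1 ⊢
        rw [hw3 (by omega) hb3, zero_mul] at m1 ⊢
        rcases hVV with h12 | ⟨h12, h13⟩
        · linarith
        · rcases h9.lt_or_eq with h14 | h14
          · linarith
          · exfalso
            rw [h13] at h14 hR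
            have := h.base hb3 hb1 hR.le h14.ge
            linarith
      · rw [h3', hw3 (by omega) hb3, zero_mul]
        linarith

theorem nd_le (kb : ℕ) : nd kb ≤ 1 / 20 := by
  unfold nd
  split_ifs <;> norm_num

/-- **The total**, every `p`. -/
theorem Pts.all (h : Pts n kb f4 s1 s4 s3 s2 g5 p0 q0 qb R) {w p q b : ℝ}
    (hw0 : 0 ≤ w) (hw1 : kb ≤ 1 → w = 1) (hw2 : kb = 2 → b < 1 / 4 → w = 1)
    (hw3 : 2 ≤ kb → 1 / 2 ≤ b → w = 0)
    (hp : 0 ≤ p) (hp1 : p ≤ 3 / 4) (hq : 1 / 10 ≤ q) (hq1 : q ≤ 9 / 10) (hb : 0 ≤ b) (hb1 : b ≤ 3 / 4) :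
    (b ≤ 1 / 2 → 0 < VT n w s1 s4 s3 s2 g5 p0 q0 qb p q b ∨ (p = p0 ∧ q = q0 ∧ b = qb)) ∧
    (1 / 2 ≤ b → nd kb < VT n w s1 s4 s3 s2 g5 p0 q0 qb p q b) ∧
    (f4 = true → 1 / 2 ≤ p → (b ≤ 1 / 2 → 1 / 20 < VT n w s1 s4 s3 s2 g5 p0 q0 qb p q b) ∧
      (1 / 2 ≤ b → nd kb + 1 / 20 < VT n w s1 s4 s3 s2 g5 p0 q0 qb p q b)) := by
  have hmir : 1 / 2 < p → VT n w s1 s4 s3 s2 g5 p0 q0 qb (1 / 2 - (p - 1 / 2)) q b <
      VT n w s1 s4 s3 s2 g5 p0 q0 qb p q b := by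
    intro h1
    have h2 := h.M (p - 1 / 2) q (by linarith) (by linarith) hq hq1
    rw [show 1 / 2 + (p - 1 / 2) = p by ring] at h2
    unfold VT
    linarith
  refine ⟨fun h1 => ?_, fun h1 => ?_, fun hf h2 => ⟨fun h1 => ?_, fun h1 => ?_⟩⟩
  · rcases le_or_gt p (1 / 2) with h3 | h3
    · exact (h.low hw0 hw1 hw2 hw3 hp h3 hq hq1 hb hb1).1 h1
    · left
      have h4 := (h.low hw0 hw1 hw2 hw3 (p := 1 / 2 - (p - 1 / 2)) (by linarith) (by linarith) hq hq1 hb hb1).1 h1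
      have h5 := hmir h3
      have h6 : 0 ≤ VT n w s1 s4 s3 s2 g5 p0 q0 qb (1 / 2 - (p - 1 / 2)) q b := by
        rcases h4 with h4 | ⟨h7, h8, h9⟩
        · exact h4.le
        · rw [h7, h8, h9]
          unfold VT VV
          rw [Dq_self, Dq_self, Dq_self, Dq_self, show 1 + qb - q0 = qb + 1 - q0 by ring, Dq_self]
          simp
      linarith
  · rcases le_or_gt p (1 / 2) with h3 | h3
    · exact (h.low hw0 hw1 hw2 hw3 hp h3 hq hq1 hb hb1).2 h1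
    · have h4 := (h.low hw0 hw1 hw2 hw3 (p := 1 / 2 - (p - 1 / 2)) (by linarith) (by linarith) hq hq1 hb hb1).2 h1
      have h5 := hmir h3
      linarith
  · have h3 := h.F hf p q h2 hp1 hq hq1
    have h4 := (h.low hw0 hw1 hw2 hw3 (p := 2 / 5) (by norm_num) (by norm_num) hq hq1 hb hb1).1 h1
    have h6 : 0 ≤ VT n w s1 s4 s3 s2 g5 p0 q0 qb (2 / 5) q b := by
      rcases h4 with h4 | ⟨h7, h8, h9⟩
      · exact h4.le
      · rw [h7, h8, h9]
        unfold VT VV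
        rw [Dq_self, Dq_self, Dq_self, Dq_self, show 1 + qb - q0 = qb + 1 - q0 by ring, Dq_self]
        simp
    unfold VT at h6 ⊢
    linarith
  · have h3 := h.F hf p q h2 hp1 hq hq1
    have h4 := (h.low hw0 hw1 hw2 hw3 (p := 2 / 5) (by norm_num) (by norm_num) hq hq1 hb hb1).2 h1
    unfold VT at h4 ⊢
    linarith

end Pool.Agent.S5.Y3
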