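import Pool.Agent.S5.I.Y3b

/-!
# The flats of a node with three half twists: the neighbourhood of the base point
-/

set_option autoImplicit false

namespace Pool.Agent.S5.Y3

open MeasureTheory Filter Topology Set Pool.Agent.S5.C2

/-! ### The function `Iq` -/

theorem Iq_le {s S Sl Sh : ℝ} (hs : 0 ≤ s) (h0 : 0 < Sl) (h1 : Sl ≤ S) (h2 : S ≤ Sh) (h3 : Sh < 1) :
    Iq s S ≤ max (Iq s Sl) (Iq s Sh) := by
  set M := max (Iq s Sl) (Iq s Sh) with hM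
  have a1 : Iq s Sl ≤ M := le_max_left _ _
  have a2 : Iq s Sh ≤ M := le_max_right _ _
  have p1 : 0 < Sl * (1 - Sl) := mul_pos h0 (by linarith)
  have p2 : 0 < Sh * (1 - Sh) := mul_pos (by linarith) (by linarith)
  have p3 : 0 < S * (1 - S) := mul_pos (by linarith) (by linarith)
  have b1 : (Sl + s) ^ 2 ≤ M * (Sl * (1 - Sl)) := (div_le_iff₀ p1).1 a1
  have b2 : (Sh + s) ^ 2 ≤ M * (Sh * (1 - Sh)) := (div_le_iff₀ p2).1 a2
  have hM0 : 0 ≤ M := le_trans (div_nonneg (sq_nonneg _) p1.le) a1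
  refine (div_le_iff₀ p3).2 ?_
  rcases eq_or_lt_of_le (h1.trans h2) with e | e
  · have e1 : S = Sl := le_antisymm (by rw [e]; exact h2) h1
    rw [e1]
    exact b1
  · have c1 := mul_le_mul_of_nonneg_left b1 (sub_nonneg.2 h2)
    have c2 := mul_le_mul_of_nonneg_left b2 (sub_nonneg.2 h1)
    have c3 : 0 ≤ (1 + M) * ((S - Sl) * (Sh - S)) * (Sh - Sl) :=
      mul_nonneg (mul_nonneg (by linarith) (mul_nonneg (by linarith) (by linarith))) (by linarith)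
    have key : (Sh - Sl) * (S + s) ^ 2 ≤ (Sh - Sl) * (M * (S * (1 - S))) := by
      nlinarith [c1, c2, c3]
    exact le_of_mul_le_mul_left key (by linarith)

theorem Iq_mono {s S Sl : ℝ} (hs : 0 ≤ s) (h0 : 0 < Sl) (h1 : Sl ≤ S) (h2 : S < 1)
    (h3 : s ≤ Sl * (1 + 2 * s)) : Iq s Sl ≤ Iq s S := by
  have p1 : 0 < Sl * (1 - Sl) := mul_pos h0 (by linarith)
  have p3 : 0 < S * (1 - S) := mul_pos (by linarith) (by linarith)
  unfold Iq
  rw [div_le_div_iff₀ p1 p3]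
  have e : (S + s) ^ 2 * (Sl * (1 - Sl)) - (Sl + s) ^ 2 * (S * (1 - S)) =
      (S - Sl) * ((1 + 2 * s) * Sl * S + s ^ 2 * (Sl + S - 1)) := by ring
  have h4 : s * S ≤ Sl * (1 + 2 * s) * S := mul_le_mul_of_nonneg_right h3 (by linarith)
  have h5 : 0 ≤ s * (S + s * (Sl + S) - s) := by
    refine mul_nonneg hs ?_
    nlinarith
  have h6 : 0 ≤ (1 + 2 * s) * Sl * S + s ^ 2 * (Sl + S - 1) := by nlinarith
  have h7 := mul_nonneg (sub_nonneg.2 h1) h6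
  linarith

theorem Iq_ge {s S : ℝ} (hs : 0 ≤ s) (h0 : 0 < S) (h1 : S < 1) : 4 * (s * (1 + s)) ≤ Iq s S := by
  have p3 : 0 < S * (1 - S) := mul_pos h0 (by linarith)
  refine (le_div_iff₀ p3).2 ?_
  have e : (S + s) ^ 2 - 4 * (s * (1 + s)) * (S * (1 - S)) = (S * (1 + 2 * s) - s) ^ 2 := by ring
  have := sq_nonneg (S * (1 + 2 * s) - s)
  linarith

theorem Iq_mono_s {s s' S : ℝ} (hs : 0 ≤ s) (h : s ≤ s') (h0 : 0 < S) (h1 : S < 1) :
    Iq s S ≤ Iq s' S := by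
  have p3 : 0 < S * (1 - S) := mul_pos h0 (by linarith)
  unfold Iq
  exact div_le_div_of_nonneg_right (pow_le_pow_left₀ (by linarith) (by linarith) 2) p3.le

/-! ### `Lp` -/

theorem Lp_Iq_pos {s t : ℝ} (hs : 0 ≤ s) (h0 : 0 < t) (h1 : t < 1 / 2) :
    0 < Lp s t ∧ 0 < √(Iq s (Sn t)) ∧ Lp s t * √(Iq s (Sn t)) = Real.pi := by
  have hpi := Real.pi_pos
  have hS : 0 < Real.sin (Real.pi * t) := Real.sin_pos_of_pos_of_lt_pi (by positivity) (by nlinarith)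
  have hc : 0 < Real.cos (Real.pi * t) :=
    Real.cos_pos_of_mem_Ioo ⟨by nlinarith, by nlinarith⟩
  have hsc := Real.sin_sq_add_cos_sq (Real.pi * t)
  have hn : 0 < Real.sin (Real.pi * t) ^ 2 + s := by positivity
  have e : Iq s (Sn t) = ((Real.sin (Real.pi * t) ^ 2 + s) /
      (Real.sin (Real.pi * t) * Real.cos (Real.pi * t))) ^ 2 := by
    unfold Iq Sn
    rw [div_pow, mul_pow, show 1 - Real.sin (Real.pi * t) ^ 2 = Real.cos (Real.pi * t) ^ 2 by linarith]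
  have e2 : √(Iq s (Sn t)) = (Real.sin (Real.pi * t) ^ 2 + s) /
      (Real.sin (Real.pi * t) * Real.cos (Real.pi * t)) := by
    rw [e, Real.sqrt_sq (by positivity)]
  refine ⟨?_, ?_, ?_⟩
  · unfold C2.Lp
    positivity
  · rw [e2]
    positivity
  · rw [e2]
    unfold C2.Lp
    field_simp

private theorem Lp_one_sub (s t : ℝ) : Lp s (1 - t) = -Lp s t := by
  unfold C2.Lp
  rw [show Real.pi * (1 - t) = Real.pi - Real.pi * t by ring, Real.sin_pi_sub, Real.cos_pi_sub]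
  ring

theorem Lp_Iq_neg {s t : ℝ} (hs : 0 ≤ s) (h0 : 1 / 2 < t) (h1 : t < 1) :
    0 < -Lp s t ∧ 0 < √(Iq s (Sn t)) ∧ -Lp s t * √(Iq s (Sn t)) = Real.pi := by
  have h := Lp_Iq_pos (s := s) (t := 1 - t) hs (by linarith) (by linarith)
  rw [Lp_one_sub, Sn_one_sub] at h
  exact h

/-- The condition of the form. -/
theorem form_cond {n L b k i1 i4 i3 : ℝ} (hn : 0 < n) (h1 : 0 < i1) (h4 : 0 < i4) (h3 : 0 < i3)
    (e1 : L * i1 = Real.pi) (e4 : b * i4 = Real.pi) (e3 : k * i3 = Real.pi)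
    (h : i4 + i1 / n < i3) : k * (n * L + b) < n * L * b := by
  have hpi := Real.pi_pos
  have f1 : L = Real.pi / i1 := (eq_div_iff h1.ne').2 e1
  have f4 : b = Real.pi / i4 := (eq_div_iff h4.ne').2 e4
  have f3 : k = Real.pi / i3 := (eq_div_iff h3.ne').2 e3
  have h5 : n * i4 + i1 < n * i3 := by
    have := mul_lt_mul_of_pos_left h hn
    rw [mul_add, mul_div_cancel₀ _ hn.ne'] at this
    exact this
  have e : n * L * b - k * (n * L + b) =
      Real.pi ^ 2 / (i1 * i3 * i4) * (n * i3 - (n * i4 + i1)) := by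
    rw [f1, f4, f3]
    field_simp
  have : 0 < Real.pi ^ 2 / (i1 * i3 * i4) * (n * i3 - (n * i4 + i1)) :=
    mul_pos (by positivity) (by linarith)
  linarith

/-! ### Segments -/

theorem seg_bt {a b r : ℝ} (h0 : 0 ≤ r) (h1 : r ≤ 1) :
    (a ≤ a + r * (b - a) ∧ a + r * (b - a) ≤ b) ∨ (b ≤ a + r * (b - a) ∧ a + r * (b - a) ≤ a) := by
  rcases le_total a b with h | h
  · left
    constructor <;> nlinarith
  · right
    constructor <;> nlinarith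

/-- A lower bound of `Sn` on a segment in `[0, 1]`. -/
theorem Sn_seg_ge {a b r c : ℝ} (h0 : 0 ≤ r) (h1 : r ≤ 1) (a0 : 0 ≤ a) (a1 : a ≤ 1) (b0 : 0 ≤ b)
    (b1 : b ≤ 1) (ca : c ≤ Sn a) (cb : c ≤ Sn b) : c ≤ Sn (a + r * (b - a)) := by
  rcases seg_bt (a := a) (b := b) h0 h1 with ⟨u, v⟩ | ⟨u, v⟩
  · rcases le_total (a + r * (b - a)) (1 / 2) with h | h
    · exact ca.trans (Sn_mono a0 u h)
    · exact cb.trans (Sn_anti h v b1)
  · rcases le_total (a + r * (b - a)) (1 / 2) with h | h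
    · exact cb.trans (Sn_mono b0 u h)
    · exact ca.trans (Sn_anti h v a1)

/-- An upper bound of `Sn` on a segment in `[0, 1 / 2]`. -/
theorem Sn_seg_le {a b r c : ℝ} (h0 : 0 ≤ r) (h1 : r ≤ 1) (a0 : 0 ≤ a) (a1 : a ≤ 1 / 2)
    (b0 : 0 ≤ b) (b1 : b ≤ 1 / 2) (ca : Sn a ≤ c) (cb : Sn b ≤ c) :
    Sn (a + r * (b - a)) ≤ c := by
  rcases seg_bt (a := a) (b := b) h0 h1 with ⟨u, v⟩ | ⟨u, v⟩
  · exact (Sn_mono (a0.trans u) v b1).trans cb
  · exact (Sn_mono (b0.trans u) v a1).trans ca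

/-- An upper bound of `Sn` on a segment in `[1 / 2, 1]`. -/
theorem Sn_seg_le' {a b r c : ℝ} (h0 : 0 ≤ r) (h1 : r ≤ 1) (a0 : 1 / 2 ≤ a) (a1 : a ≤ 1)
    (b0 : 1 / 2 ≤ b) (b1 : b ≤ 1) (ca : Sn a ≤ c) (cb : Sn b ≤ c) :
    Sn (a + r * (b - a)) ≤ c := by
  rcases seg_bt (a := a) (b := b) h0 h1 with ⟨u, v⟩ | ⟨u, v⟩
  · exact (Sn_anti a0 u (v.trans b1)).trans ca
  · exact (Sn_anti b0 u (v.trans a1)).trans cb

theorem seg_gt {a b r c : ℝ} (h0 : 0 ≤ r) (h1 : r ≤ 1) (ca : c < a) (cb : c < b) :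
    c < a + r * (b - a) := by
  rcases seg_bt (a := a) (b := b) h0 h1 with ⟨u, v⟩ | ⟨u, v⟩ <;> linarith

theorem seg_lt {a b r c : ℝ} (h0 : 0 ≤ r) (h1 : r ≤ 1) (ca : a < c) (cb : b < c) :
    a + r * (b - a) < c := by
  rcases seg_bt (a := a) (b := b) h0 h1 with ⟨u, v⟩ | ⟨u, v⟩ <;> linarith

/-- Positivity from the second derivative along the segment. -/
theorem near_core {n : ℕ} {s1 s4 s3 p0 q0 p q : ℝ} (hs1 : 0 ≤ s1) (hs4 : 0 ≤ s4) (hs3 : 0 ≤ s3)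
    (a1 : 0 < p0) (a2 : p0 < 1) (a3 : 0 < p) (a4 : p < 1) (b1 : 0 < q0) (b2 : q0 < 1) (b3 : 0 < q)
    (b4 : q < 1) (c2 : p0 + q0 < 1) (c4 : p + q < 1)
    (hQ : ∀ r ∈ Icc (0 : ℝ) 1, 0 < n * Lp s1 (p0 + r * (p - p0)) * (p - p0) ^ 2 +
      Lp s4 (q0 + r * (q - q0)) * (q - q0) ^ 2 -
        Lp s3 (p0 + q0 + r * (p + q - (p0 + q0))) * (p + q - (p0 + q0)) ^ 2) :
    0 < VV n s1 s4 s3 p0 q0 p q := by
  have hpos : ∀ {s t : ℝ}, 0 ≤ s → 0 < t → t < 1 → 0 < Real.sin (Real.pi * t) ^ 2 + s := by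
    intro s t hs h0 h1
    have := Sn_pos h0 h1
    unfold Sn at this
    linarith
  have hA : ∀ r ∈ Icc (0 : ℝ) 1, 0 < Real.sin (Real.pi * (p0 + r * (p - p0))) ^ 2 + s1 :=
    fun r hr => hpos hs1 (seg_gt hr.1 hr.2 a1 a3) (seg_lt hr.1 hr.2 a2 a4)
  have hB : ∀ r ∈ Icc (0 : ℝ) 1, 0 < Real.sin (Real.pi * (q0 + r * (q - q0))) ^ 2 + s4 :=
    fun r hr => hpos hs4 (seg_gt hr.1 hr.2 b1 b3) (seg_lt hr.1 hr.2 b2 b4)
  have hC : ∀ r ∈ Icc (0 : ℝ) 1,
      0 < Real.sin (Real.pi * (p0 + q0 + r * (p + q - (p0 + q0)))) ^ 2 + s3 :=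
    fun r hr => hpos hs3 (seg_gt hr.1 hr.2 (by linarith) (by linarith)) (seg_lt hr.1 hr.2 c2 c4)
  have hlc : ∀ x0 c : ℝ, Continuous (fun r : ℝ => x0 + r * c) := fun x0 c => by fun_prop
  have hcont : ContinuousOn (fun r : ℝ => n * Lp s1 (p0 + r * (p - p0)) * (p - p0) ^ 2 +
      Lp s4 (q0 + r * (q - q0)) * (q - q0) ^ 2 -
        Lp s3 (p0 + q0 + r * (p + q - (p0 + q0))) * (p + q - (p0 + q0)) ^ 2) (Icc 0 1) := by
    intro r hr
    have k1 : ContinuousAt (fun r : ℝ => Lp s1 (p0 + r * (p - p0))) r :=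
      ContinuousAt.comp (g := Lp s1) (f := fun r : ℝ => p0 + r * (p - p0))
        (Lp_continuousAt (hA r hr)) (hlc _ _).continuousAt
    have k2 : ContinuousAt (fun r : ℝ => Lp s4 (q0 + r * (q - q0))) r :=
      ContinuousAt.comp (g := Lp s4) (f := fun r : ℝ => q0 + r * (q - q0))
        (Lp_continuousAt (hB r hr)) (hlc _ _).continuousAt
    have k3 : ContinuousAt (fun r : ℝ => Lp s3 (p0 + q0 + r * (p + q - (p0 + q0)))) r :=
      ContinuousAt.comp (g := Lp s3) (f := fun r : ℝ => p0 + q0 + r * (p + q - (p0 + q0)))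
        (Lp_continuousAt (hC r hr)) (hlc _ _).continuousAt
    exact ((((k1.const_mul (n : ℝ)).mul_const ((p - p0) ^ 2)).add
      (k2.mul_const ((q - q0) ^ 2))).sub
        (k3.mul_const ((p + q - (p0 + q0)) ^ 2))).continuousWithinAt
  obtain ⟨r0, hr0, hmin⟩ := isCompact_Icc.exists_isMinOn (nonempty_Icc.2 zero_le_one) hcont
  have hκ := hQ r0 hr0
  have hl : ∀ (x0 c r : ℝ), HasDerivAt (fun r : ℝ => x0 + r * c) c r := fun x0 c r => by
    have h := ((hasDerivAt_id r).mul_const c).const_add x0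
    simpa using h
  have hL : ∀ {s x0 c r : ℝ}, 0 < Real.sin (Real.pi * (x0 + r * c)) ^ 2 + s →
      HasDerivAt (fun r : ℝ => Lq s (x0 + r * c)) (Lp s (x0 + r * c) * c) r := by
    intro s x0 c r h
    exact (Lq_hasDerivAt h).comp r (hl x0 c r)
  have hD : ∀ {s x0 c r : ℝ}, 0 ≤ s → 0 < Real.sin (Real.pi * (x0 + r * c)) ^ 2 + s →
      HasDerivAt (fun r : ℝ => Dq s x0 (x0 + r * c)) ((Lq s (x0 + r * c) - Lq s x0) * c) r := by
    intro s x0 c r hs h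
    exact (Dq_hasDerivAt hs x0 h).comp r (hl x0 c r)
  have key := taylor2
    (κ := n * Lp s1 (p0 + r0 * (p - p0)) * (p - p0) ^ 2 +
      Lp s4 (q0 + r0 * (q - q0)) * (q - q0) ^ 2 -
        Lp s3 (p0 + q0 + r0 * (p + q - (p0 + q0))) * (p + q - (p0 + q0)) ^ 2)
    (g := fun r => n * Dq s1 p0 (p0 + r * (p - p0)) + Dq s4 q0 (q0 + r * (q - q0)) -
      Dq s3 (p0 + q0) (p0 + q0 + r * (p + q - (p0 + q0))))
    (G := fun r => n * ((Lq s1 (p0 + r * (p - p0)) - Lq s1 p0) * (p - p0)) +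
      (Lq s4 (q0 + r * (q - q0)) - Lq s4 q0) * (q - q0) -
      (Lq s3 (p0 + q0 + r * (p + q - (p0 + q0))) - Lq s3 (p0 + q0)) * (p + q - (p0 + q0)))
    (Q := fun r => n * (Lp s1 (p0 + r * (p - p0)) * (p - p0) * (p - p0)) +
      Lp s4 (q0 + r * (q - q0)) * (q - q0) * (q - q0) -
      Lp s3 (p0 + q0 + r * (p + q - (p0 + q0))) * (p + q - (p0 + q0)) * (p + q - (p0 + q0)))
    ?_ ?_ ?_ ?_ ?_
  · simp only [one_mul] at key
    rw [show p0 + (p - p0) = p by ring, show q0 + (q - q0) = q by ring,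
      show p0 + q0 + (p + q - (p0 + q0)) = p + q by ring] at key
    unfold VV
    linarith
  · intro r hr
    exact (((hD hs1 (hA r hr)).const_mul (n : ℝ)).add (hD hs4 (hB r hr))).sub (hD hs3 (hC r hr))
  · intro r hr
    exact (((((hL (hA r hr)).sub_const (Lq s1 p0)).mul_const (p - p0)).const_mul (n : ℝ)).add
      (((hL (hB r hr)).sub_const (Lq s4 q0)).mul_const (q - q0))).sub
        (((hL (hC r hr)).sub_const (Lq s3 (p0 + q0))).mul_const (p + q - (p0 + q0)))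
  · simp [Dq_self]
  · simp
  · intro r hr
    have := hmin hr
    simp only [Set.mem_ofPred_eq] at this
    refine le_trans this (le_of_eq ?_)
    ring

/-- Left: `Sl, Sh` bounds of `Sn` at both `p`'s, `Dl, Dh` at both `q`'s, `Cl` below both `Sn (p + q)`. -/
theorem near_left {n : ℕ} {s1 s4 s3 p0 q0 p q Sl Sh Dl Dh Cl : ℝ} (hn : 1 ≤ n)
    (hB : Bp s1 s4 s3 p0 q0) (b1 : q0 ≤ 1 / 2)
    (h0 : 0 < p) (h1 : p < 1 / 2) (h2 : 1 / 10 < q) (h3 : q ≤ 1 / 2)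
    (a1 : 0 < Sl) (a2 : Sh < 1) (a3 : Sl ≤ Sn p) (a4 : Sl ≤ Sn p0) (a5 : Sn p ≤ Sh) (a6 : Sn p0 ≤ Sh)
    (d1 : 0 < Dl) (d2 : Dh < 1) (d3 : Dl ≤ Sn q) (d4 : Dl ≤ Sn q0) (d5 : Sn q ≤ Dh) (d6 : Sn q0 ≤ Dh)
    (c1 : 0 < Cl) (c3 : Cl ≤ Sn (p + q)) (c4 : Cl ≤ Sn (p0 + q0)) (c5 : s3 ≤ Cl * (1 + 2 * s3))
    (hI : √(max (Iq s4 Dl) (Iq s4 Dh)) + √(max (Iq s1 Sl) (Iq s1 Sh)) / n < √(Iq s3 Cl))
    (hne : p ≠ p0 ∨ q ≠ q0) : 0 < VV n s1 s4 s3 p0 q0 p q := by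
  have hn' : (0 : ℝ) < n := by exact_mod_cast hn
  have q0p := hB.hq0
  have P0 := hB.hP1
  have p0p := hB.hp0
  have p0h := hB.hp1
  refine near_core hB.h1 hB.h4 hB.h3 hB.hp0 (by linarith) h0 (by linarith) (by linarith)
    (by linarith) (by linarith) (by linarith) (by linarith) (by linarith) ?_
  intro r hr
  have hd : p - p0 ≠ 0 ∨ q - q0 ≠ 0 := by
    rcases hne with h | h
    · exact Or.inl (sub_ne_zero.2 h)
    · exact Or.inr (sub_ne_zero.2 h)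
  -- the three points
  have x1 := seg_gt hr.1 hr.2 hB.hp0 h0
  have x2 := seg_lt hr.1 hr.2 hB.hp1 h1
  have y1 := seg_gt hr.1 hr.2 hB.hq0 h2
  have y3 := Sn_seg_le hr.1 hr.2 (by linarith) b1 (by linarith) h3 d6 d5
  have y4 := Sn_seg_ge hr.1 hr.2 (by linarith) (by linarith) (by linarith) (by linarith) d4 d3
  have y2 : q0 + r * (q - q0) < 1 / 2 := by
    rcases seg_bt (a := q0) (b := q) hr.1 hr.2 with ⟨u, v⟩ | ⟨u, v⟩
    · rcases (v.trans h3).lt_or_eq with h | h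
      · exact h
      · rw [h, Sn_half] at y3
        linarith
    · rcases (v.trans b1).lt_or_eq with h | h
      · exact h
      · rw [h, Sn_half] at y3
        linarith
  have x3 := Sn_seg_le hr.1 hr.2 hB.hp0.le hB.hp1.le h0.le h1.le a6 a5
  have x4 := Sn_seg_ge hr.1 hr.2 hB.hp0.le (by linarith) h0.le (by linarith) a4 a3
  have z1 : 0 < p0 + q0 + r * (p + q - (p0 + q0)) :=
    seg_gt hr.1 hr.2 (by linarith) (by linarith)
  have z2 : p0 + q0 + r * (p + q - (p0 + q0)) < 1 := seg_lt hr.1 hr.2 (by linarith) (by linarith)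
  have z4 := Sn_seg_ge hr.1 hr.2 (by linarith) (by linarith) (by linarith) (by linarith) c4 c3
  obtain ⟨e1, e2, e3⟩ := Lp_Iq_pos hB.h1 x1 x2
  obtain ⟨f1, f2, f3⟩ := Lp_Iq_pos hB.h4 (show 0 < q0 + r * (q - q0) by linarith) y2
  have i1 : √(Iq s1 (Sn (p0 + r * (p - p0)))) ≤ √(max (Iq s1 Sl) (Iq s1 Sh)) :=
    Real.sqrt_le_sqrt (Iq_le hB.h1 a1 x4 x3 a2)
  have i4 : √(Iq s4 (Sn (q0 + r * (q - q0)))) ≤ √(max (Iq s4 Dl) (Iq s4 Dh)) :=
    Real.sqrt_le_sqrt (Iq_le hB.h4 d1 y4 y3 d2)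
  have hde : p + q - (p0 + q0) = (p - p0) + (q - q0) := by ring
  rcases lt_or_ge (p0 + q0 + r * (p + q - (p0 + q0))) (1 / 2) with g | g
  · obtain ⟨g1, g2, g3⟩ := Lp_Iq_pos hB.h3 z1 g
    have hC1 : Sn (p0 + q0 + r * (p + q - (p0 + q0))) < 1 := by
      rcases lt_or_eq_of_le (Sn_le_one (p0 + q0 + r * (p + q - (p0 + q0)))) with h | h
      · exact h
      · exfalso
        have := Sn_inj z1.le g.le (by norm_num) le_rfl (h.trans Sn_half.symm)
        linarith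
    have i3 : √(Iq s3 Cl) ≤ √(Iq s3 (Sn (p0 + q0 + r * (p + q - (p0 + q0))))) :=
      Real.sqrt_le_sqrt (Iq_mono hB.h3 c1 z4 hC1 c5)
    have i1' := div_le_div_of_nonneg_right i1 hn'.le
    have hk := form_cond hn' e2 f2 g2 e3 f3 g3 (by linarith)
    have := form3 (mul_pos hn' e1) f1 hk hd
    rw [hde] at this ⊢
    exact this
  · have hk : Lp s3 (p0 + q0 + r * (p + q - (p0 + q0))) ≤ 0 := by
      have := Lp_nonneg (s := s3) (t := 1 - (p0 + q0 + r * (p + q - (p0 + q0)))) hB.h3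
        (by linarith) (by linarith)
      rw [Lp_one_sub] at this
      linarith
    have k1 : 0 ≤ -Lp s3 (p0 + q0 + r * (p + q - (p0 + q0))) * (p + q - (p0 + q0)) ^ 2 :=
      mul_nonneg (by linarith) (sq_nonneg _)
    have k2 : 0 < n * Lp s1 (p0 + r * (p - p0)) * (p - p0) ^ 2 +
        Lp s4 (q0 + r * (q - q0)) * (q - q0) ^ 2 := by
      rcases hd with h | h
      · have := mul_pos (mul_pos hn' e1) (by positivity : 0 < (p - p0) ^ 2)
        have := mul_nonneg f1.le (sq_nonneg (q - q0))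
        linarith
      · have := mul_nonneg (mul_pos hn' e1).le (sq_nonneg (p - p0))
        have := mul_pos f1 (by positivity : 0 < (q - q0) ^ 2)
        linarith
    linarith

theorem Sn_lt_one {t : ℝ} (h0 : 0 < t) (h1 : t < 1) (h : t ≠ 1 / 2) : Sn t < 1 := by
  rcases lt_or_eq_of_le (Sn_le_one t) with e | e
  · exact e
  · exfalso
    rcases lt_or_gt_of_ne h with g | g
    · have := Sn_inj h0.le g.le (by norm_num) le_rfl (e.trans Sn_half.symm)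
      exact h this
    · rw [← Sn_one_sub] at e
      have := Sn_inj (by linarith) (by linarith) (by norm_num) le_rfl (e.trans Sn_half.symm)
      linarith

/-- Right. -/
theorem near_right {n : ℕ} {s1 s4 s3 p0 q0 p q Sl Sh Cl Ch Dl : ℝ} (hn : 1 ≤ n)
    (hB : Bp s1 s4 s3 p0 q0) (b1 : 1 / 2 ≤ p0 + q0)
    (h0 : 0 < p) (h1 : p < 1 / 2) (h2 : 1 / 10 < q) (h3 : q < 9 / 10) (h4 : 1 / 2 ≤ p + q)
    (h5 : p + q < 1)
    (a1 : 0 < Sl) (a2 : Sh < 1) (a3 : Sl ≤ Sn p) (a4 : Sl ≤ Sn p0) (a5 : Sn p ≤ Sh) (a6 : Sn p0 ≤ Sh)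
    (c1 : 0 < Cl) (c2 : Ch < 1) (c3 : Cl ≤ Sn (p + q)) (c4 : Cl ≤ Sn (p0 + q0))
    (c5 : Sn (p + q) ≤ Ch) (c6 : Sn (p0 + q0) ≤ Ch)
    (d1 : 0 < Dl) (d3 : Dl ≤ Sn q) (d4 : Dl ≤ Sn q0) (d5 : s4 ≤ Dl * (1 + 2 * s4))
    (hI : √(max (Iq s3 Cl) (Iq s3 Ch)) + √(max (Iq s1 Sl) (Iq s1 Sh)) / n < √(Iq s4 Dl))
    (hne : p ≠ p0 ∨ q ≠ q0) : 0 < VV n s1 s4 s3 p0 q0 p q := by
  have hn' : (0 : ℝ) < n := by exact_mod_cast hn
  have q0p := hB.hq0
  have q0h := hB.hq1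
  have P0 := hB.hP1
  have p0p := hB.hp0
  have p0h := hB.hp1
  refine near_core hB.h1 hB.h4 hB.h3 hB.hp0 (by linarith) h0 (by linarith) (by linarith)
    (by linarith) (by linarith) (by linarith) (by linarith) (by linarith) ?_
  intro r hr
  have hd : p - p0 ≠ 0 ∨ q - q0 ≠ 0 := by
    rcases hne with h | h
    · exact Or.inl (sub_ne_zero.2 h)
    · exact Or.inr (sub_ne_zero.2 h)
  -- the three points
  have x1 := seg_gt hr.1 hr.2 hB.hp0 h0
  have x2 := seg_lt hr.1 hr.2 hB.hp1 h1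
  have x3 := Sn_seg_le hr.1 hr.2 hB.hp0.le hB.hp1.le h0.le h1.le a6 a5
  have x4 := Sn_seg_ge hr.1 hr.2 hB.hp0.le (by linarith) h0.le (by linarith) a4 a3
  have y1 := seg_gt hr.1 hr.2 hB.hq0 h2
  have y2 := seg_lt hr.1 hr.2 hB.hq1 h3
  have y4 := Sn_seg_ge hr.1 hr.2 (by linarith) (by linarith) (by linarith) (by linarith) d4 d3
  have z2 : p0 + q0 + r * (p + q - (p0 + q0)) < 1 := seg_lt hr.1 hr.2 (by linarith) h5
  have z3 := Sn_seg_le' hr.1 hr.2 b1 (by linarith) h4 h5.le c6 c5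
  have z4 := Sn_seg_ge hr.1 hr.2 (by linarith) (by linarith) (by linarith) h5.le c4 c3
  have z1 : 1 / 2 < p0 + q0 + r * (p + q - (p0 + q0)) := by
    have : 1 / 2 ≤ p0 + q0 + r * (p + q - (p0 + q0)) := by
      rcases seg_bt (a := p0 + q0) (b := p + q) hr.1 hr.2 with ⟨u, v⟩ | ⟨u, v⟩ <;> linarith
    rcases this.lt_or_eq with h | h
    · exact h
    · rw [← h, Sn_half] at z3
      linarith
  obtain ⟨e1, e2, e3⟩ := Lp_Iq_pos hB.h1 x1 x2
  obtain ⟨g1, g2, g3⟩ := Lp_Iq_neg hB.h3 z1 z2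
  have i1 : √(Iq s1 (Sn (p0 + r * (p - p0)))) ≤ √(max (Iq s1 Sl) (Iq s1 Sh)) :=
    Real.sqrt_le_sqrt (Iq_le hB.h1 a1 x4 x3 a2)
  have i3 : √(Iq s3 (Sn (p0 + q0 + r * (p + q - (p0 + q0))))) ≤ √(max (Iq s3 Cl) (Iq s3 Ch)) :=
    Real.sqrt_le_sqrt (Iq_le hB.h3 c1 z4 z3 c2)
  rcases lt_or_ge (1 / 2) (q0 + r * (q - q0)) with g | g
  · obtain ⟨f1, f2, f3⟩ := Lp_Iq_neg hB.h4 g (show q0 + r * (q - q0) < 1 by linarith)
    have hD1 : Sn (q0 + r * (q - q0)) < 1 := Sn_lt_one (by linarith) (by linarith) g.ne'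
    have i4 : √(Iq s4 Dl) ≤ √(Iq s4 (Sn (q0 + r * (q - q0)))) :=
      Real.sqrt_le_sqrt (Iq_mono hB.h4 d1 y4 hD1 d5)
    have i1' := div_le_div_of_nonneg_right i1 hn'.le
    have hk := form_cond hn' e2 g2 f2 e3 g3 f3 (by linarith)
    have hd' : -(p - p0) ≠ 0 ∨ (p + q - (p0 + q0)) ≠ 0 := by
      rcases hd with h | h
      · exact Or.inl (neg_ne_zero.2 h)
      · by_cases h' : p - p0 = 0
        · right
          rw [show p + q - (p0 + q0) = (p - p0) + (q - q0) by ring, h', zero_add]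
          exact h
        · exact Or.inl (neg_ne_zero.2 h')
    have := form3 (mul_pos hn' e1) g1 hk hd'
    rw [show -(p - p0) + (p + q - (p0 + q0)) = q - q0 by ring, neg_sq] at this
    linarith
  · have hb : 0 ≤ Lp s4 (q0 + r * (q - q0)) := Lp_nonneg hB.h4 (by linarith) g
    have k1 := mul_nonneg hb (sq_nonneg (q - q0))
    have k2 : 0 < n * Lp s1 (p0 + r * (p - p0)) * (p - p0) ^ 2 +
        -Lp s3 (p0 + q0 + r * (p + q - (p0 + q0))) * (p + q - (p0 + q0)) ^ 2 := by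
      by_cases h' : p - p0 = 0
      · have h6 : q - q0 ≠ 0 := by
          rcases hd with h | h
          · exact absurd h' h
          · exact h
        have h7 : p + q - (p0 + q0) = q - q0 := by linarith
        rw [h7] at g1
        rw [h', h7]
        have := mul_pos g1 (by positivity : 0 < (q - q0) ^ 2)
        simp only [ne_eq, OfNat.ofNat_ne_zero, not_false_eq_true, zero_pow, mul_zero, zero_add]
        exact this
      · have := mul_pos (mul_pos hn' e1) (by positivity : 0 < (p - p0) ^ 2)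
        have := mul_nonneg g1.le (sq_nonneg (p + q - (p0 + q0)))
        linarith
    linarith

end Pool.Agent.S5.Y3
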