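import Pool.Agent.S5.I.Y3b
import Pool.Agent.S5.I.W2g
import Pool.Agent.S5.I.C2o

/-!
# The flats of a node with three half twists: reflection in `p = 1/2`, the constant next to END 4
-/

set_option autoImplicit false

namespace Pool.Agent.S5.Y3

open MeasureTheory Filter Topology Set Pool.Agent.S5.C2

/-- The integral over a window is largest when the window is centred at `1 / 2`, shifts up to `1`. -/
theorem window_le1 {s x q : ℝ} (hs : 0 ≤ s) (hx : 0 ≤ x) (hx1 : x ≤ 1 / 4) (hq : 0 ≤ q)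
    (hq1 : q ≤ 1) : ∫ t in (1 / 2 - x + q)..(1 / 2 + x + q), Lq s t ≤
      ∫ t in (1 / 2 - x)..(1 / 2 + x), Lq s t := by
  rcases le_total q (3 / 4) with h | h
  · exact window_le hs hx hx1 hq h
  · have h1 := window_le (q := 1 - q) hs hx hx1 (by linarith) (by linarith)
    have h2 := intervalIntegral.integral_comp_sub_left (a := 1 / 2 - x + (1 - q))
      (b := 1 / 2 + x + (1 - q)) (fun t => Lq s t) 2
    rw [show (2 : ℝ) - (1 / 2 + x + (1 - q)) = 1 / 2 - x + q by ring,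
      show (2 : ℝ) - (1 / 2 - x + (1 - q)) = 1 / 2 + x + q by ring] at h2
    rw [← h2]
    simp only [Lq_refl2]
    exact h1

/-- The reflection step. -/
theorem VV_mirror {n : ℕ} {s1 s4 s3 p0 q0 x q : ℝ} (hs1 : 0 ≤ s1) (hs3 : 0 ≤ s3) (hx : 0 ≤ x)
    (hx1 : x ≤ 1 / 4) (hq : 0 ≤ q) (hq1 : q ≤ 1) :
    VV n s1 s4 s3 p0 q0 (1 / 2 - x) q + 2 * ∫ t in (1 / 2 - x)..(1 / 2 : ℝ),
      (n * (Lq s1 t - Lq s1 p0) - (Lq s3 t - Lq s3 (p0 + q0))) ≤
      VV n s1 s4 s3 p0 q0 (1 / 2 + x) q := by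
  have d1 := Dq_sub hs1 p0 (1 / 2 - x) (1 / 2 + x)
  have d3 := Dq_sub hs3 (p0 + q0) (1 / 2 - x + q) (1 / 2 + x + q)
  have hw := window_le1 hs3 hx hx1 hq hq1
  have hi : ∀ (s c a b : ℝ), 0 ≤ s → IntervalIntegrable (fun t => Lq s t - c) volume a b :=
    fun s c a b hs => (Lq_int hs a b).sub (by simp)
  have hsym : ∀ (s c : ℝ), 0 ≤ s → ∫ t in (1 / 2 - x)..(1 / 2 + x), (Lq s t - c) =
      2 * ∫ t in (1 / 2 - x)..(1 / 2 : ℝ), (Lq s t - c) := by
    intro s c hs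
    rw [← intervalIntegral.integral_add_adjacent_intervals (hi s c (1 / 2 - x) (1 / 2) hs)
      (hi s c (1 / 2) (1 / 2 + x) hs)]
    have a1 : ∫ t in (1 / 2 : ℝ)..(1 / 2 + x), (Lq s t - c) =
        ∫ t in (1 / 2 - x)..(1 / 2 : ℝ), (Lq s t - c) := by
      have a4 := intervalIntegral.integral_comp_sub_left (a := 1 / 2 - x) (b := 1 / 2)
        (fun t => Lq s t - c) 1
      rw [show (1 : ℝ) - 1 / 2 = 1 / 2 by norm_num, show (1 : ℝ) - (1 / 2 - x) = 1 / 2 + x by ring]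
        at a4
      rw [← a4]
      apply intervalIntegral.integral_congr
      intro t _
      simp only [Lq_eq]
      rw [Sn_one_sub]
    rw [a1]
    ring
  have b1 := hsym s1 (Lq s1 p0) hs1
  have b3 := hsym s3 (Lq s3 (p0 + q0)) hs3
  have c3 : ∫ t in (1 / 2 - x + q)..(1 / 2 + x + q), (Lq s3 t - Lq s3 (p0 + q0)) ≤
      ∫ t in (1 / 2 - x)..(1 / 2 + x), (Lq s3 t - Lq s3 (p0 + q0)) := by
    rw [intervalIntegral.integral_sub (Lq_int hs3 _ _) (by simp), intervalIntegral.integral_sub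
      (Lq_int hs3 _ _) (by simp), intervalIntegral.integral_const, intervalIntegral.integral_const]
    rw [show 1 / 2 + x + q - (1 / 2 - x + q) = 1 / 2 + x - (1 / 2 - x) by ring]
    linarith
  have e1 : ∫ t in (1 / 2 - x)..(1 / 2 : ℝ),
      (n * (Lq s1 t - Lq s1 p0) - (Lq s3 t - Lq s3 (p0 + q0))) =
      n * (∫ t in (1 / 2 - x)..(1 / 2 : ℝ), (Lq s1 t - Lq s1 p0)) -
      ∫ t in (1 / 2 - x)..(1 / 2 : ℝ), (Lq s3 t - Lq s3 (p0 + q0)) := by
    rw [intervalIntegral.integral_sub ((hi s1 _ _ _ hs1).const_mul _) (hi s3 _ _ _ hs3),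
      intervalIntegral.integral_const_mul]
  rw [e1]
  rw [b1] at d1
  rw [b3] at c3
  have f1 : (n : ℝ) * (Dq s1 p0 (1 / 2 + x) - Dq s1 p0 (1 / 2 - x)) =
      n * (2 * ∫ t in (1 / 2 - x)..(1 / 2 : ℝ), (Lq s1 t - Lq s1 p0)) := by rw [d1]
  unfold VV
  linarith

theorem mir2 {s1 s4 s3 p0 q0 x q au tl tu tu3 cl : ℝ} (hB : Bp s1 s4 s3 p0 q0) (hs1' : s1 ≤ 1 / 2)
    (hx : 0 < x) (hx1 : x ≤ 1 / 4) (hq : 1 / 10 ≤ q) (hq1 : q ≤ 9 / 10) (ha : Sn p0 ≤ au) (h1 : tl ≤ s1)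
    (htl : 0 ≤ tl) (h2 : s1 ≤ tu) (h3 : s3 ≤ tu3) (hf : cl ≤ Sn (p0 + q0)) (hm : 0.67675 ≤ cl)
    (h : (au + tu) ^ 4 * ((1 / 2 + tu3) * (0.8535 + tu3)) <
      ((1 / 2 + tl) * (0.8535 + tl)) ^ 2 * (cl + tu3) ^ 2) :
    VV 2 s1 s4 s3 p0 q0 (1 / 2 - x) q < VV 2 s1 s4 s3 p0 q0 (1 / 2 + x) q := by
  have hcl : √cl ^ 2 = cl := Real.sq_sqrt (by linarith)
  have hFi : 0 < Fi s1 s3 p0 (p0 + q0) := by
    apply Fi_box (fl := √cl) hB.h1 hs1' hB.h3 hB.hp0 hB.hp1 ha h1 htl h2 h3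
    · rw [hcl]
      exact hf
    · rw [hcl]
      exact hm
    · rw [hcl]
      exact h
  have a1 := VV_mirror (n := 2) (s4 := s4) (p0 := p0) (q0 := q0) hB.h1 hB.h3 hx.le hx1
    (by linarith : 0 ≤ q) (by linarith)
  have a2 := mean_ge (c := Lq s1 p0) (d := Lq s3 (p0 + q0)) hB.h1 hs1' hB.h3 hx.le hx1
  have a3 : 0 < 4 * x * Fi s1 s3 p0 (p0 + q0) := by positivity
  unfold Fi at a3
  push_cast at a1
  linarith

theorem mir1 {s1 s4 s3 p0 q0 x q : ℝ} (hB : Bp s1 s4 s3 p0 q0)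
    (hx : 0 < x) (hx1 : x ≤ 1 / 4) (hq : 1 / 10 ≤ q) (hq1 : q ≤ 9 / 10)
    (h5 : (1 / 2 + s3) * (Sn p0 + s1) < (1 / 2 + s1) * (Sn (p0 + q0) + s3))
    (h6 : (1 + s3) * (Sn p0 + s1) < (1 + s1) * (Sn (p0 + q0) + s3)) :
    VV 1 s1 s4 s3 p0 q0 (1 / 2 - x) q < VV 1 s1 s4 s3 p0 q0 (1 / 2 + x) q := by
  have hs1 := hB.h1
  have hs3 := hB.h3
  have hA : 0 < Sn p0 + s1 := by
    have := Sn_pos hB.hp0 (by linarith [hB.hp1])
    linarith
  have hP : 0 < Sn (p0 + q0) + s3 := by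
    have := Sn_pos (t := p0 + q0) (by linarith [hB.hP0]) (by linarith [hB.hP1])
    linarith
  have a1 := VV_mirror (n := 1) (s4 := s4) (p0 := p0) (q0 := q0) hB.h1 hB.h3 hx.le hx1
    (by linarith : 0 ≤ q) (by linarith)
  have a2 : 0 < ∫ t in (1 / 2 - x)..(1 / 2 : ℝ),
      (((1 : ℕ) : ℝ) * (Lq s1 t - Lq s1 p0) - (Lq s3 t - Lq s3 (p0 + q0))) := by
    apply intervalIntegral.intervalIntegral_pos_of_pos_on
      ((((Lq_int hs1 _ _).sub (by simp)).const_mul _).sub ((Lq_int hs3 _ _).sub (by simp))) _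
      (by linarith)
    intro t ht
    have h7 : 1 / 2 ≤ Sn t := by
      rw [← Sn_quarter]
      exact Sn_mono (by norm_num) (by linarith [ht.1]) (by linarith [ht.2])
    have h8 := Sn_le_one t
    have h9 : (Sn t + s3) * (Sn p0 + s1) < (Sn t + s1) * (Sn (p0 + q0) + s3) := by
      have k1 : 0 ≤ (1 - Sn t) * ((1 / 2 + s1) * (Sn (p0 + q0) + s3) -
          (1 / 2 + s3) * (Sn p0 + s1)) := mul_nonneg (by linarith) (by linarith)
      have k2 : 0 ≤ (Sn t - 1 / 2) * ((1 + s1) * (Sn (p0 + q0) + s3) -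
          (1 + s3) * (Sn p0 + s1)) := mul_nonneg (by linarith) (by linarith)
      rcases h8.eq_or_lt with h | h
      · rw [h]
        linarith
      · have k3 : 0 < (1 - Sn t) * ((1 / 2 + s1) * (Sn (p0 + q0) + s3) -
          (1 / 2 + s3) * (Sn p0 + s1)) := mul_pos (by linarith) (by linarith)
        linarith
    have h10 := dirn' (n := 1) (a := Sn t + s1) (A := Sn p0 + s1) (c := Sn t + s3)
      (C := Sn (p0 + q0) + s3) (by linarith) hA (by linarith) hP (by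
        rw [pow_one, pow_one]
        linarith)
    simp only [Lq_eq]
    linarith
  linarith

theorem Lq_le_one {s v : ℝ} (hs : 0 ≤ s) : Lq s v ≤ Real.log (4 * (1 + s)) / 2 := by
  rw [Lq_eq]
  have h1 := Sn_nonneg v
  have h2 := Sn_le_one v
  rcases (add_nonneg h1 hs).eq_or_lt with h | h
  · rw [← h, mul_zero, Real.log_zero]
    have := Real.log_nonneg (show 1 ≤ 4 * (1 + s) by linarith)
    linarith
  · have := Real.log_le_log (x := 4 * (Sn v + s)) (y := 4 * (1 + s)) (by linarith) (by linarith)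
    linarith

theorem Sn_two_fifths : 9045 / 10000 ≤ Sn (2 / 5) := by
  have h1 : Sn (2 / 5) = (1 + Real.cos (Real.pi / 5)) / 2 := by
    unfold Sn
    have e1 : Real.cos (Real.pi / 5) = -Real.cos (2 * (Real.pi * (2 / 5))) := by
      rw [← Real.cos_pi_sub]
      congr 1
      ring
    rw [e1, Real.cos_two_mul']
    have := Real.sin_sq_add_cos_sq (Real.pi * (2 / 5))
    linarith
  rw [h1, Real.cos_pi_div_five]
  have h2 : (2.236 : ℝ) ≤ √5 := Real.le_sqrt_of_sq_le (by norm_num)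
  linarith

/-- Next to END 4: `V` grows by `1/20` from `p = 2/5` to every `p ≥ 1/2`. -/
theorem end4 {n : ℕ} {s1 s4 s3 p0 q0 p q : ℝ} (hB : Bp s1 s4 s3 p0 q0) (hp : 1 / 2 ≤ p) (hp1 : p ≤ 3 / 4)
    (hq : 1 / 10 ≤ q) (hq1 : q ≤ 9 / 10)
    (h5 : (Sn p0 + s1) ^ n * (1 + s3) < (1 / 2 + s1) ^ n * (Sn (p0 + q0) + s3))
    (h6 : 1 < Real.log (((9045 / 10000 + s1) / (Sn p0 + s1)) ^ n * ((Sn (p0 + q0) + s3) / (1 + s3)))) :
    VV n s1 s4 s3 p0 q0 (2 / 5) q + 1 / 20 < VV n s1 s4 s3 p0 q0 p q := by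
  have hs1 := hB.h1
  have hs3 := hB.h3
  have hA : 0 < Sn p0 + s1 := by
    have := Sn_pos hB.hp0 (by linarith [hB.hp1])
    linarith
  have hP : 0 < Sn (p0 + q0) + s3 := by
    have := Sn_pos (t := p0 + q0) (by linarith [hB.hP0]) (by linarith [hB.hP1])
    linarith
  have hn0 : (0 : ℝ) ≤ n := Nat.cast_nonneg n
  have hHH : ∀ x, VV n s1 s4 s3 p0 q0 x q = HH n s1 s3 p0 (p0 + q0) q x + Dq s4 q0 q := by
    intro x
    unfold VV HH
    ring
  have hint := fun a b : ℝ => HH_int (n := n) (x0 := p0) (X0 := p0 + q0) (c := q) (a := a) (b := b)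
    hs1 hs3
  have h7 := HH_sub (n := n) (x0 := p0) (X0 := p0 + q0) (c := q) (x := 2 / 5) (x' := p) hs1 hs3
  rw [← intervalIntegral.integral_add_adjacent_intervals (hint (2 / 5) (1 / 2)) (hint (1 / 2) p)] at h7
  -- the second part
  have h8 : 0 ≤ ∫ t in (1 / 2 : ℝ)..p, (n * (Lq s1 t - Lq s1 p0) -
      (Lq s3 (t + q) - Lq s3 (p0 + q0))) := by
    apply intervalIntegral.integral_nonneg hp
    intro t ht
    have h9 : 1 / 2 ≤ Sn t := by
      rw [← Sn_one_sub t, ← Sn_quarter]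
      exact Sn_mono (by norm_num) (by linarith [ht.2]) (by linarith [ht.1])
    have h10 := Lq_le_one (v := t + q) hs3
    have h11 : (Sn p0 + s1) ^ n * (1 + s3) < (Sn t + s1) ^ n * (Sn (p0 + q0) + s3) := by
      refine h5.trans_le (mul_le_mul_of_nonneg_right ?_ hP.le)
      exact pow_le_pow_left₀ (by linarith) (by linarith) n
    have h12 := dirn' (n := n) (a := Sn t + s1) (A := Sn p0 + s1) (c := 1 + s3)
      (C := Sn (p0 + q0) + s3) (by linarith) hA (by linarith) hP h11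
    simp only [Lq_eq] at h10 ⊢
    linarith
  -- the first part
  have h9 : 1 / 20 < ∫ t in (2 / 5 : ℝ)..(1 / 2), (n * (Lq s1 t - Lq s1 p0) -
      (Lq s3 (t + q) - Lq s3 (p0 + q0))) := by
    set c := Real.log (((9045 / 10000 + s1) / (Sn p0 + s1)) ^ n *
      ((Sn (p0 + q0) + s3) / (1 + s3))) with hc
    have h10 : ∫ _t in (2 / 5 : ℝ)..(1 / 2), c / 2 ≤ ∫ t in (2 / 5 : ℝ)..(1 / 2),
        (n * (Lq s1 t - Lq s1 p0) - (Lq s3 (t + q) - Lq s3 (p0 + q0))) := by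
      apply intervalIntegral.integral_mono_on (by norm_num) (by simp) (hint _ _)
      intro t ht
      have h11 : 9045 / 10000 ≤ Sn t :=
        Sn_two_fifths.trans (Sn_mono (by norm_num) ht.1 ht.2)
      have h12 := Lq_le_one (v := t + q) hs3
      have h13 : 0 < 9045 / 10000 + s1 := by linarith
      have h14 : 0 < 1 + s3 := by linarith
      have e1 : c = n * (Real.log (9045 / 10000 + s1) - Real.log (Sn p0 + s1)) +
          (Real.log (Sn (p0 + q0) + s3) - Real.log (1 + s3)) := by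
        rw [hc, Real.log_mul (by positivity) (by positivity), Real.log_pow,
          Real.log_div h13.ne' hA.ne', Real.log_div hP.ne' h14.ne']
      have h15 : Real.log (9045 / 10000 + s1) ≤ Real.log (Sn t + s1) :=
        Real.log_le_log h13 (by linarith)
      have h16 : (n : ℝ) * Real.log (9045 / 10000 + s1) ≤ n * Real.log (Sn t + s1) :=
        mul_le_mul_of_nonneg_left h15 hn0
      have h17 : 0 < Sn t + s1 := by linarith
      simp only [Lq_eq] at h12 ⊢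
      rw [Real.log_mul (by norm_num) h14.ne'] at h12
      rw [Real.log_mul (by norm_num) h17.ne', Real.log_mul (by norm_num) hA.ne',
        Real.log_mul (by norm_num) hP.ne', e1]
      linarith
    rw [intervalIntegral.integral_const, smul_eq_mul] at h10
    linarith
  have h10 := hHH (2 / 5)
  have h11 := hHH p
  linarith

end Pool.Agent.S5.Y3
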