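import Pool.Agent.S5.I.Y3W
import Pool.Agent.S5.I.Y3N1
import Pool.Agent.S5.I.Y3E
import Pool.Agent.S5.I.Y3M

/-!
# The flats of a node with three half twists: the one line tests
-/

set_option autoImplicit false

namespace Pool.Agent.S5.Y3

open MeasureTheory Filter Topology Set Pool.Agent.S5.C2 Pool.Agent.S5.Num Pool.Agent.S5.K3

namespace N2

theorem ltn_lt {a b : ℕ} (h : ltn a b = true) : a < b := Nat.le_of_ble_eq_true h

theorem ble_le {a b : ℕ} (h : Nat.ble a b = true) : a ≤ b := Nat.le_of_ble_eq_true h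

theorem fNe {α : Type} (f : ℕ → α) (n : ℕ) : fN f n = f n := by
  cases n <;> rfl

theorem pwn_eq {n : ℕ} (hn : n = 1 ∨ n = 2) (x : ℕ) : pwn n x = x ^ n := by
  unfold pwn
  rw [fNe]
  rcases hn with rfl | rfl
  · rw [show Nat.ble 1 1 = true from rfl, cond_true, pow_one]
  · rw [show Nat.ble 2 1 = false from rfl, cond_false, sq]
    rfl

theorem sqn_eq (x : ℕ) : sqn x = x * x := by
  unfold sqn
  rw [fNe]
  rfl

theorem cadd (a b : ℕ) : ((Nat.add a b : ℕ) : ℝ) = (a : ℝ) + b := Nat.cast_add a b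

theorem cmul (a b : ℕ) : ((Nat.mul a b : ℕ) : ℝ) = (a : ℝ) * b := Nat.cast_mul a b

theorem csqn (x : ℕ) : ((sqn x : ℕ) : ℝ) = (x : ℝ) ^ 2 := by
  rw [sqn_eq, Nat.cast_mul, sq]

theorem cpwn {n : ℕ} (hn : n = 1 ∨ n = 2) (x : ℕ) : ((pwn n x : ℕ) : ℝ) = (x : ℝ) ^ n := by
  rw [pwn_eq hn, Nat.cast_pow]

theorem csucc (x : ℕ) : ((Nat.succ x : ℕ) : ℝ) = (x : ℝ) + 1 := Nat.cast_succ x

theorem ltn_cast {a b : ℕ} (h : ltn a b = true) : (a : ℝ) < b := by
  exact_mod_cast ltn_lt h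

/-- Cancelling the unit. -/
theorem unsc {n : ℕ} {x y z w : ℝ} (h : (1048576 * x) ^ n * (1048576 * y) <
    (1048576 * z) ^ n * (1048576 * w)) : x ^ n * y < z ^ n * w := by
  rw [mul_pow, mul_pow] at h
  have h2 : ((1048576 : ℝ) ^ n * 1048576) * (x ^ n * y) < (1048576 ^ n * 1048576) * (z ^ n * w) := by
    calc ((1048576 : ℝ) ^ n * 1048576) * (x ^ n * y) = 1048576 ^ n * x ^ n * (1048576 * y) := by ring
      _ < 1048576 ^ n * z ^ n * (1048576 * w) := h
      _ = _ := by ring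
  exact lt_of_mul_lt_mul_left h2 (by positivity)

theorem ratio {X X' Y Y' P P' Q Q' : ℝ} (h1 : X * Y' ≤ X' * Y) (h2 : P * Q' ≤ P' * Q)
    (h : X' * P' < Y' * Q') (hY' : 0 ≤ Y') (hP : 0 ≤ P) (hQ' : 0 ≤ Q')
    (hYQ : 0 < Y * Q) (hX' : 0 ≤ X') (hY : 0 ≤ Y) : X * P < Y * Q := by
  by_contra hc
  have hc := not_lt.1 hc
  have a1 : (Y * Q) * (Y' * Q') ≤ (X * P) * (Y' * Q') :=
    mul_le_mul_of_nonneg_right hc (mul_nonneg hY' hQ')
  have a2 : (X * Y') * (P * Q') ≤ (X' * Y) * (P' * Q) :=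
    mul_le_mul h1 h2 (mul_nonneg hP hQ') (mul_nonneg hX' hY)
  have a3 : (X' * P') * (Y * Q) < (Y' * Q') * (Y * Q) := mul_lt_mul_of_pos_right h hYQ
  have e1 : (X * P) * (Y' * Q') = (X * Y') * (P * Q') := by ring
  have e2 : (X' * Y) * (P' * Q) = (X' * P') * (Y * Q) := by ring
  have e3 : (Y' * Q') * (Y * Q) = (Y * Q) * (Y' * Q') := by ring
  linarith

theorem pr {a b c d : ℝ} (n : ℕ) (ha : 0 ≤ a) (hb : 0 ≤ b) (h : a * b ≤ c * d) :
    a ^ n * b ^ n ≤ c ^ n * d ^ n := by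
  rw [← mul_pow, ← mul_pow]
  exact pow_le_pow_left₀ (mul_nonneg ha hb) h n

/-- Monotone comparison. -/
theorem box {n : ℕ} {x x' y y' z z' w w' : ℝ} (hx : 0 ≤ x) (hxx : x ≤ x') (hy : 0 ≤ y) (hyy : y ≤ y')
    (hz : 0 ≤ z') (hzz : z' ≤ z) (hw : 0 ≤ w') (hww : w' ≤ w) (h : x' ^ n * y' < z' ^ n * w') :
    x ^ n * y < z ^ n * w := by
  have h1 : x ^ n * y ≤ x' ^ n * y' :=
    mul_le_mul (pow_le_pow_left₀ hx hxx n) hyy hy (pow_nonneg (hx.trans hxx) n)
  have h2 : z' ^ n * w' ≤ z ^ n * w :=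
    mul_le_mul (pow_le_pow_left₀ hz hzz n) hww hw (pow_nonneg (hz.trans hzz) n)
  linarith

/-- `(a + s) / (b + s)` increases if `a ≤ b`. -/
theorem ratm {a a' b b' s t : ℝ} (ha : a ≤ a') (hb : b' ≤ b) (hab : a ≤ b') (hst : s ≤ t)
    (h0 : 0 ≤ b + s) (h1 : 0 ≤ a + s) : (a + s) * (b' + t) ≤ (a' + t) * (b + s) := by
  have k1 : (a + s) * (b' + t) ≤ (a + t) * (b' + s) := by
    have : 0 ≤ (b' - a) * (t - s) := mul_nonneg (by linarith) (by linarith)
    linarith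
  have k2 : (a + t) * (b' + s) ≤ (a + t) * (b + s) :=
    mul_le_mul_of_nonneg_left (by linarith) (by linarith)
  have k3 : (a + t) * (b + s) ≤ (a' + t) * (b + s) :=
    mul_le_mul_of_nonneg_right (by linarith) h0
  linarith

/-- An affine function. -/
theorem aff {L R a c l h s : ℝ} (h1 : l ≤ s) (h2 : s ≤ h) (h3 : L * (a + l) < R * (c + l))
    (h4 : L * (a + h) < R * (c + h)) : L * (a + s) < R * (c + s) := by
  rcases le_total L R with h5 | h5
  · have := mul_nonneg (sub_nonneg.2 h5) (sub_nonneg.2 h1)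
    linarith
  · have := mul_nonneg (sub_nonneg.2 h5) (sub_nonneg.2 h2)
    linarith

theorem Pp {s1 s4 s3 p0 q0 : ℝ} (hB : Bp s1 s4 s3 p0 q0) : 0 < Sn p0 ∧ 0 < Sn (p0 + q0) ∧ 0 < Sn q0 :=
  ⟨Sn_pos hB.hp0 (by linarith [hB.hp1]),
    Sn_pos (by linarith [hB.hP0]) (by linarith [hB.hP1]),
    Sn_pos (by linarith [hB.hq0]) (by linarith [hB.hq1])⟩

end N2

open N2

theorem tN_ok {d : Dx} {n : ℕ} {s1 s4 s3 s2 g5 p0 q0 qb : ℝ} (hn : n = 1 ∨ n = 2)
    (hd : d.Ok s1 s4 s3 s2 g5 p0 q0 qb) (h : tN d n = true) :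
    (Sn p0 + s1) ^ n * (9046 / 10000 + s3) < (1 + s1) ^ n * (Sn (p0 + q0) + s3) := by
  obtain ⟨A0, C0, -⟩ := Pp hd.B
  have hs1 := hd.B.h1
  have hs3 := hd.B.h3
  have A1 := Sn_le_one p0
  have a2 := hd.a2
  have c1 := hd.c1
  have s12 := hd.s12
  have s31 := hd.s31
  unfold tN at h
  have h1 := ltn_cast h
  rw [cmul, cmul, cpwn hn, cpwn hn, cadd, cadd, cadd, cadd] at h1
  have g1 : (0 : ℝ) ≤ d.s1h := Nat.cast_nonneg _
  have g2 : (0 : ℝ) ≤ d.cl := Nat.cast_nonneg _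
  have g3 : (0 : ℝ) ≤ d.s3l := Nat.cast_nonneg _
  have g4 : (0 : ℝ) ≤ d.ah := Nat.cast_nonneg _
  push_cast at h1
  apply unsc
  rcases lt_or_ge (948542 : ℝ) (1048576 * Sn (p0 + q0)) with hk | hk
  · refine mul_lt_mul' (pow_le_pow_left₀ (by linarith) (by linarith) n) (by linarith) (by linarith) ?_
    exact pow_pos (by linarith) n
  · refine ratio (X' := ((d.ah : ℝ) + d.s1h) ^ n) (Y' := (1048576 + (d.s1h : ℝ)) ^ n)
      (P' := 948542 + (d.s3l : ℝ)) (Q' := (d.cl : ℝ) + d.s3l) ?_ ?_ h1 (by positivity) (by linarith)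
      (by linarith) ?_ (by positivity) (pow_nonneg (by linarith) n)
    · apply pr n (by linarith) (by linarith)
      have := ratm (a := 1048576 * Sn p0) (a' := d.ah) (b := 1048576) (b' := 1048576)
        (s := 1048576 * s1) (t := d.s1h) a2 le_rfl (by linarith) s12 (by linarith) (by linarith)
      linarith
    · have k1 : (948542 + 1048576 * s3) * ((d.cl : ℝ) + d.s3l) ≤
          (948542 + d.s3l) * (1048576 * Sn (p0 + q0) + 1048576 * s3) := by
        have := ratm (a := (d.cl : ℝ)) (a' := 1048576 * Sn (p0 + q0)) (b := 948542) (b' := 948542)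
          (s := (d.s3l : ℝ)) (t := 1048576 * s3) c1 le_rfl (by linarith) s31 (by linarith) (by linarith)
        linarith
      have k2 : 1048576 * (9046 / 10000 + s3) * ((d.cl : ℝ) + d.s3l) ≤
          (948542 + 1048576 * s3) * ((d.cl : ℝ) + d.s3l) :=
        mul_le_mul_of_nonneg_right (by linarith) (by linarith)
      linarith
    · exact mul_pos (pow_pos (by linarith) n) (by linarith)

/-- `mir2` without a bound for `sin²`. -/
private theorem mir2' {s1 s4 s3 p0 q0 x q : ℝ} (hB : Bp s1 s4 s3 p0 q0) (hs1' : s1 ≤ 1 / 2)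
    (hx : 0 < x) (hx1 : x ≤ 1 / 4) (hq : 1 / 10 ≤ q) (hq1 : q ≤ 9 / 10)
    (h : (Sn p0 + s1) ^ 4 * ((1 / 2 + s3) * (0.8535 + s3)) <
      ((1 / 2 + s1) * (0.8535 + s1)) ^ 2 * (Sn (p0 + q0) + s3) ^ 2) :
    VV 2 s1 s4 s3 p0 q0 (1 / 2 - x) q < VV 2 s1 s4 s3 p0 q0 (1 / 2 + x) q := by
  obtain ⟨A0, C0, -⟩ := Pp hB
  have hFi : 0 < Fi s1 s3 p0 (p0 + q0) :=
    Fi_pos hB.h1 hs1' hB.h3 (by linarith [hB.h1]) (by linarith [hB.h3]) h
  have a1 := VV_mirror (n := 2) (s4 := s4) (p0 := p0) (q0 := q0) hB.h1 hB.h3 hx.le hx1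
    (by linarith : 0 ≤ q) (by linarith)
  have a2 := mean_ge (c := Lq s1 p0) (d := Lq s3 (p0 + q0)) hB.h1 hs1' hB.h3 hx.le hx1
  have a3 : 0 < 4 * x * Fi s1 s3 p0 (p0 + q0) := by positivity
  unfold Fi at a3
  push_cast at a1
  linarith

/-- from mir1, mir2 -/
theorem tM_ok {d : Dx} {n : ℕ} {s1 s4 s3 s2 g5 p0 q0 qb : ℝ} (hn : n = 1 ∨ n = 2)
    (hd : d.Ok s1 s4 s3 s2 g5 p0 q0 qb) (h : tM d n = true) :
    ∀ x q : ℝ, 0 < x → x ≤ 1 / 4 → 1 / 10 ≤ q → q ≤ 9 / 10 →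
      VV n s1 s4 s3 p0 q0 (1 / 2 - x) q < VV n s1 s4 s3 p0 q0 (1 / 2 + x) q := by
  obtain ⟨A0, C0, -⟩ := Pp hd.B
  have hs1 := hd.B.h1
  have hs3 := hd.B.h3
  have a2 := hd.a2
  have c1 := hd.c1
  have s11 := hd.s11
  have s12 := hd.s12
  have s31 := hd.s31
  have s32 := hd.s32
  have g1 : (0 : ℝ) ≤ d.s1h := Nat.cast_nonneg _
  have g2 : (0 : ℝ) ≤ d.cl := Nat.cast_nonneg _
  have g3 : (0 : ℝ) ≤ d.s3l := Nat.cast_nonneg _
  have g4 : (0 : ℝ) ≤ d.ah := Nat.cast_nonneg _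
  have g5' : (0 : ℝ) ≤ d.s1l := Nat.cast_nonneg _
  have g6 : (0 : ℝ) ≤ d.s3h := Nat.cast_nonneg _
  intro x q hx hx1 hq hq1
  unfold tM at h
  rcases hn with rfl | rfl
  · rw [show Nat.ble 1 1 = true from rfl, cond_true] at h
    obtain ⟨h5, h6⟩ := cond_and h
    have h5 := ltn_cast h5
    have h6 := ltn_cast h6
    rw [cmul, cmul, cadd, cadd, cadd, cadd] at h5 h6
    push_cast at h5 h6
    refine mir1 hd.B hx hx1 hq hq1 ?_ ?_
    · have := unsc (n := 1) (x := 1 / 2 + s3) (y := Sn p0 + s1) (z := 1 / 2 + s1)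
        (w := Sn (p0 + q0) + s3) (box (x' := 524288 + (d.s3h : ℝ)) (y' := (d.ah : ℝ) + d.s1h)
          (z' := 524288 + (d.s1l : ℝ)) (w' := (d.cl : ℝ) + d.s3l) (by linarith) (by linarith)
          (by linarith) (by linarith) (by linarith) (by linarith) (by linarith) (by linarith)
          (by rw [pow_one, pow_one]; exact h5))
      rw [pow_one, pow_one] at this
      exact this
    · have := unsc (n := 1) (x := 1 + s3) (y := Sn p0 + s1) (z := 1 + s1)
        (w := Sn (p0 + q0) + s3) (box (x' := 1048576 + (d.s3h : ℝ)) (y' := (d.ah : ℝ) + d.s1h)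
          (z' := 1048576 + (d.s1l : ℝ)) (w' := (d.cl : ℝ) + d.s3l) (by linarith) (by linarith)
          (by linarith) (by linarith) (by linarith) (by linarith) (by linarith) (by linarith)
          (by rw [pow_one, pow_one]; exact h6))
      rw [pow_one, pow_one] at this
      exact this
  · rw [show Nat.ble 2 1 = false from rfl, cond_false] at h
    obtain ⟨hs, h⟩ := cond_and h
    have hs' : (d.s1h : ℝ) ≤ 524288 := by exact_mod_cast ble_le hs
    have hs1' : s1 ≤ 1 / 2 := by linarith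
    have hX : ((tM2x d : ℕ) : ℝ) = ((d.ah : ℝ) + d.s1h) ^ 4 * ((524288 + d.s3h) * (894960 + d.s3h)) := by
      unfold tM2x
      rw [cmul, cmul, cadd, cadd, csqn, csqn, cadd]
      push_cast
      ring
    have hY : ((tM2y d : ℕ) : ℝ) = ((524288 + (d.s1l : ℝ)) * (894959 + d.s1l)) ^ 2 := by
      unfold tM2y
      rw [csqn, cmul, cadd, cadd]
      push_cast
      ring
    rcases cond_or h with h | h
    · obtain ⟨hc, h⟩ := cond_and h
      have hc' : (709624 : ℝ) ≤ d.cl := by exact_mod_cast ble_le hc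
      have h1 := ltn_cast h
      rw [cmul, hX, hY, csqn, cadd] at h1
      have e1 : ((d.ah : ℝ) / 1048576 + d.s1h / 1048576) ^ 4 *
          ((1 / 2 + (d.s3h : ℝ) / 1048576) * (0.8535 + d.s3h / 1048576)) * 1048576 ^ 6 ≤
          ((d.ah : ℝ) + d.s1h) ^ 4 * ((524288 + d.s3h) * (894960 + d.s3h)) := by
        have e2 : ((d.ah : ℝ) / 1048576 + d.s1h / 1048576) ^ 4 *
          ((1 / 2 + (d.s3h : ℝ) / 1048576) * (0.8535 + d.s3h / 1048576)) * 1048576 ^ 6 =
          ((d.ah : ℝ) + d.s1h) ^ 4 * ((524288 + d.s3h) * (0.8535 * 1048576 + d.s3h)) := by ring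
        rw [e2]
        refine mul_le_mul_of_nonneg_left (mul_le_mul_of_nonneg_left ?_ (by linarith)) (by positivity)
        linarith
      have e3 : ((524288 + (d.s1l : ℝ)) * (894959 + d.s1l)) ^ 2 * ((d.cl : ℝ) + d.s3h) ^ 2 ≤
          ((1 / 2 + (d.s1l : ℝ) / 1048576) * (0.8535 + d.s1l / 1048576)) ^ 2 *
            ((d.cl : ℝ) / 1048576 + d.s3h / 1048576) ^ 2 * 1048576 ^ 6 := by
        have e4 : ((1 / 2 + (d.s1l : ℝ) / 1048576) * (0.8535 + d.s1l / 1048576)) ^ 2 *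
            ((d.cl : ℝ) / 1048576 + d.s3h / 1048576) ^ 2 * 1048576 ^ 6 =
            ((524288 + (d.s1l : ℝ)) * (0.8535 * 1048576 + d.s1l)) ^ 2 * ((d.cl : ℝ) + d.s3h) ^ 2 := by
          ring
        rw [e4]
        refine mul_le_mul_of_nonneg_right (pow_le_pow_left₀ (by positivity)
          (mul_le_mul_of_nonneg_left ?_ (by linarith)) 2) (by positivity)
        linarith
      refine mir2 (au := (d.ah : ℝ) / 1048576) (tl := (d.s1l : ℝ) / 1048576)
        (tu := (d.s1h : ℝ) / 1048576) (tu3 := (d.s3h : ℝ) / 1048576) (cl := (d.cl : ℝ) / 1048576)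
        hd.B hs1' hx hx1 hq hq1 (by linarith) (by linarith) (by positivity) (by linarith)
        (by linarith) (by linarith) (by linarith) ?_
      refine lt_of_mul_lt_mul_right (a := (1048576 : ℝ) ^ 6) ?_ (by positivity)
      linarith
    · have h1 := ltn_cast h
      rw [cmul, hX, hY, csqn, cadd] at h1
      refine mir2' hd.B hs1' hx hx1 hq hq1 ?_
      refine lt_of_mul_lt_mul_right (a := (1048576 : ℝ) ^ 6) ?_ (by positivity)
      have e1 : (Sn p0 + s1) ^ 4 * ((1 / 2 + s3) * (0.8535 + s3)) * 1048576 ^ 6 =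
          (1048576 * Sn p0 + 1048576 * s1) ^ 4 * ((524288 + 1048576 * s3) *
            (0.8535 * 1048576 + 1048576 * s3)) := by ring
      have e2 : ((1 / 2 + s1) * (0.8535 + s1)) ^ 2 * (Sn (p0 + q0) + s3) ^ 2 * 1048576 ^ 6 =
          ((524288 + 1048576 * s1) * (0.8535 * 1048576 + 1048576 * s1)) ^ 2 *
            (1048576 * Sn (p0 + q0) + 1048576 * s3) ^ 2 := by ring
      rw [e1, e2]
      have e3 : (1048576 * Sn p0 + 1048576 * s1) ^ 4 * ((524288 + 1048576 * s3) *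
            (0.8535 * 1048576 + 1048576 * s3)) ≤
          ((d.ah : ℝ) + d.s1h) ^ 4 * ((524288 + d.s3h) * (894960 + d.s3h)) := by
        refine mul_le_mul (pow_le_pow_left₀ (by positivity) (by linarith) 4)
          (mul_le_mul (by linarith) (by linarith) (by positivity) (by positivity)) (by positivity)
          (by positivity)
      have e4 : ((524288 + (d.s1l : ℝ)) * (894959 + d.s1l)) ^ 2 * ((d.cl : ℝ) + d.s3l) ^ 2 ≤
          ((524288 + 1048576 * s1) * (0.8535 * 1048576 + 1048576 * s1)) ^ 2 *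
            (1048576 * Sn (p0 + q0) + 1048576 * s3) ^ 2 := by
        refine mul_le_mul (pow_le_pow_left₀ (by positivity)
          (mul_le_mul (by linarith) (by linarith) (by positivity) (by positivity)) 2)
          (pow_le_pow_left₀ (by positivity) (by linarith) 2) (by positivity) (by positivity)
      linarith

/-- from end4 -/
theorem tF_ok {d : Dx} {n : ℕ} {s1 s4 s3 s2 g5 p0 q0 qb : ℝ} (hn : n = 1 ∨ n = 2)
    (hd : d.Ok s1 s4 s3 s2 g5 p0 q0 qb) (h : tF d n = true) :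
    ∀ p q : ℝ, 1 / 2 ≤ p → p ≤ 3 / 4 → 1 / 10 ≤ q → q ≤ 9 / 10 →
      VV n s1 s4 s3 p0 q0 (2 / 5) q + 1 / 20 < VV n s1 s4 s3 p0 q0 p q := by
  obtain ⟨A0, C0, -⟩ := Pp hd.B
  have hs1 := hd.B.h1
  have hs3 := hd.B.h3
  have C1 := Sn_le_one (p0 + q0)
  have a2 := hd.a2
  have c1 := hd.c1
  have s11 := hd.s11
  have s12 := hd.s12
  have s31 := hd.s31
  have s32 := hd.s32
  have g1 : (0 : ℝ) ≤ d.s1h := Nat.cast_nonneg _
  have g2 : (0 : ℝ) ≤ d.cl := Nat.cast_nonneg _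
  have g3 : (0 : ℝ) ≤ d.s3l := Nat.cast_nonneg _
  have g4 : (0 : ℝ) ≤ d.ah := Nat.cast_nonneg _
  have g5' : (0 : ℝ) ≤ d.s1l := Nat.cast_nonneg _
  have g6 : (0 : ℝ) ≤ d.s3h := Nat.cast_nonneg _
  have g7 : (d.cl : ℝ) ≤ 1048576 := by exact_mod_cast hd.l1.2.1
  unfold tF at h
  obtain ⟨h5, h6⟩ := cond_and h
  have h5 := ltn_cast h5
  have h6 := ltn_cast h6
  rw [cmul, cmul, cpwn hn, cpwn hn, cadd, cadd, cadd, cadd] at h5
  rw [cmul, cmul, cmul, cmul, cpwn hn, cpwn hn, cadd, cadd, cadd, cadd] at h6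
  push_cast at h5 h6
  intro p q hp hp1 hq hq1
  refine end4 hd.B hp hp1 hq hq1 ?_ ?_
  · exact unsc (box (by linarith) (by linarith) (by linarith) (by linarith) (by linarith)
      (by linarith) (by linarith) (by linarith) h5)
  · -- `A ≤ 0.9045`
    have hA : 1048576 * Sn p0 ≤ 948436 := by
      by_contra hc
      have hc := not_le.1 hc
      have k1 : (948436 + (d.s1h : ℝ)) ^ n ≤ ((d.ah : ℝ) + d.s1h) ^ n :=
        pow_le_pow_left₀ (by linarith) (by linarith) n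
      have k2 : (948436 + (d.s1h : ℝ)) ^ n * ((d.cl : ℝ) + d.s3l) ≤
          ((d.ah : ℝ) + d.s1h) ^ n * (1048576 + d.s3l) :=
        mul_le_mul k1 (by linarith) (by linarith) (by positivity)
      have k3 : 0 ≤ ((d.ah : ℝ) + d.s1h) ^ n * (1048576 + d.s3l) := by positivity
      linarith
    have key : (Sn p0 + s1) ^ n * (271829 / 100000 * (1 + s3)) <
        (9045 / 10000 + s1) ^ n * (Sn (p0 + q0) + s3) := by
      apply unsc
      refine ratio (X' := ((d.ah : ℝ) + d.s1h) ^ n) (Y' := (948436 + (d.s1h : ℝ)) ^ n)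
        (P' := 271829 / 100000 * (1048576 + (d.s3l : ℝ))) (Q' := (d.cl : ℝ) + d.s3l) ?_ ?_ ?_
        (by positivity) (by linarith)
        (by linarith) ?_ (by positivity) (pow_nonneg (by linarith) n)
      · apply pr n (by linarith) (by linarith)
        have := ratm (a := 1048576 * Sn p0) (a' := d.ah) (b := 1048576 * (9045 / 10000))
          (b' := 948436) (s := 1048576 * s1) (t := d.s1h) a2 (by norm_num) hA s12 (by linarith)
          (by linarith)
        linarith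
      · have := ratm (a := (d.cl : ℝ)) (a' := 1048576 * Sn (p0 + q0)) (b := 1048576) (b' := 1048576)
          (s := (d.s3l : ℝ)) (t := 1048576 * s3) c1 le_rfl (by linarith) s31 (by linarith)
          (by linarith)
        linarith
      · linarith
      · exact mul_pos (pow_pos (by linarith) n) (by linarith)
    have hP : 0 < (Sn p0 + s1) ^ n * (1 + s3) := mul_pos (pow_pos (by linarith) n) (by linarith)
    have e : ((9045 / 10000 + s1) / (Sn p0 + s1)) ^ n * ((Sn (p0 + q0) + s3) / (1 + s3)) =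
        ((9045 / 10000 + s1) ^ n * (Sn (p0 + q0) + s3)) / ((Sn p0 + s1) ^ n * (1 + s3)) := by
      rw [div_pow, div_mul_div_comm]
    have hr : 271829 / 100000 < ((9045 / 10000 + s1) / (Sn p0 + s1)) ^ n *
        ((Sn (p0 + q0) + s3) / (1 + s3)) := by
      rw [e, lt_div_iff₀ hP]
      linarith
    rw [Real.lt_log_iff_exp_lt (by linarith)]
    have := Real.exp_one_lt_d9
    linarith

theorem N2.tE1_ok {d : Dx} {n a b : ℕ} {s1 s4 s3 s2 g5 p0 q0 qb : ℝ} (hn : n = 1 ∨ n = 2)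
    (hd : d.Ok s1 s4 s3 s2 g5 p0 q0 qb) (ha : a ≤ 200) (hb : 40 ≤ b) (hb' : b ≤ 200)
    (h : tE1 d n a b = true) : (Sn p0 + s1) ^ n * (Sn (b / 400 - 1 / 10) + s3) <
      (Sn (a / 400) + s1) ^ n * (Sn (p0 + q0) + s3) := by
  obtain ⟨A0, C0, -⟩ := Pp hd.B
  have hs1 := hd.B.h1
  have hs3 := hd.B.h3
  have a2 := hd.a2
  have c1 := hd.c1
  have s11 := hd.s11
  have s12 := hd.s12
  have s31 := hd.s31
  have s32 := hd.s32
  have g1 : (0 : ℝ) ≤ d.s1h := Nat.cast_nonneg _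
  have g2 : (0 : ℝ) ≤ d.cl := Nat.cast_nonneg _
  have g3 : (0 : ℝ) ≤ d.s3l := Nat.cast_nonneg _
  have g5' : (0 : ℝ) ≤ d.s1l := Nat.cast_nonneg _
  unfold tE1 at h
  have h := ltn_cast h
  rw [cmul, cmul, cpwn hn, cpwn hn, cadd, cadd, cadd, cadd, csucc] at h
  have k1 := (tn_ok ha).1
  have k2 := (tn_ok (k := Nat.sub b 40) (by change b - 40 ≤ 200; omega)).2
  have e1 : ((Nat.sub b 40 : ℕ) : ℝ) / 400 = b / 400 - 1 / 10 := by
    have : ((Nat.sub b 40 : ℕ) : ℝ) = b - 40 := by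
      have := Nat.cast_sub (R := ℝ) hb
      push_cast at this
      exact this
    rw [this]
    ring
  rw [e1] at k2
  have g8 := Sn_nonneg ((b : ℝ) / 400 - 1 / 10)
  have g9 : (0 : ℝ) ≤ (tn a : ℕ) := Nat.cast_nonneg _
  exact unsc (box (by linarith) (by linarith) (by linarith) (by linarith) (by linarith)
      (by linarith) (by linarith) (by linarith) h)

/-- from top_cell -/
theorem tE_ok {d : Dx} {n : ℕ} {s1 s4 s3 s2 g5 p0 q0 qb p q : ℝ} (hn : n = 1 ∨ n = 2)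
    (hd : d.Ok s1 s4 s3 s2 g5 p0 q0 qb) (h : tE d n = true) (hm : Mn n s1 s4 s3 p0 q0 p q)
    (hq : q = 9 / 10) : p ≤ 1 / 5 := by
  by_contra hp
  have hp := not_le.1 hp
  have hp1 := hm.hp1
  unfold tE at h
  obtain ⟨t1, h⟩ := cond_and h
  obtain ⟨t2, h⟩ := cond_and h
  obtain ⟨t3, h⟩ := cond_and h
  obtain ⟨t4, h⟩ := cond_and h
  obtain ⟨t5, h⟩ := cond_and h
  obtain ⟨t6, t7⟩ := cond_and h
  have go : ∀ a b : ℕ, 40 ≤ a → a ≤ 200 → 40 ≤ b → b ≤ 200 → tE1 d n a b = true → (a : ℝ) / 400 < p →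
      p ≤ (b : ℝ) / 400 → False := by
    intro a b h40 ha hb hb' ht h1 h2
    have h40' : (40 : ℝ) ≤ a := by exact_mod_cast h40
    have hb2 : (b : ℝ) ≤ 200 := by exact_mod_cast hb'
    exact Mn.top_cell hd.B hm hq (by linarith) (by linarith) h1 h2 (tE1_ok hn hd ha hb hb' ht)
  rcases le_or_gt p ((90 : ℕ) / 400) with k | k
  · exact go 80 90 (by norm_num) (by norm_num) (by norm_num) (by norm_num) t1 (by norm_num; linarith) k
  rcases le_or_gt p ((100 : ℕ) / 400) with k' | k'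
  · exact go 90 100 (by norm_num) (by norm_num) (by norm_num) (by norm_num) t2 k k'
  rcases le_or_gt p ((120 : ℕ) / 400) with k | k
  · exact go 100 120 (by norm_num) (by norm_num) (by norm_num) (by norm_num) t3 k' k
  rcases le_or_gt p ((140 : ℕ) / 400) with k' | k'
  · exact go 120 140 (by norm_num) (by norm_num) (by norm_num) (by norm_num) t4 k k'
  rcases le_or_gt p ((160 : ℕ) / 400) with k | k
  · exact go 140 160 (by norm_num) (by norm_num) (by norm_num) (by norm_num) t5 k' k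
  rcases le_or_gt p ((180 : ℕ) / 400) with k' | k'
  · exact go 160 180 (by norm_num) (by norm_num) (by norm_num) (by norm_num) t6 k k'
  exact go 180 200 (by norm_num) (by norm_num) (by norm_num) (by norm_num) t7 k' (by norm_num; linarith)

/-- from ne_zero -/
theorem tD_ok {d : Dx} {n : ℕ} {s1 s4 s3 s2 g5 p0 q0 qb p q : ℝ} (hn : n = 1 ∨ n = 2)
    (hd : d.Ok s1 s4 s3 s2 g5 p0 q0 qb) (h : tD d n = true) (hm : Mn n s1 s4 s3 p0 q0 p q) : p ≠ 0 := by
  obtain ⟨A0, C0, -⟩ := Pp hd.B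
  have hs1 := hd.B.h1
  have hs3 := hd.B.h3
  have C9 := Ed.Sn_ge_tenth (q := p0 + q0) (by linarith [hd.B.hP0]) (by linarith [hd.B.hP1])
  have a1 := hd.a1
  have c2 := hd.c2
  have s12 := hd.s12
  have s31 := hd.s31
  have g1 : (0 : ℝ) ≤ d.s1h := Nat.cast_nonneg _
  have g2 : (0 : ℝ) ≤ d.ch := Nat.cast_nonneg _
  have g3 : (0 : ℝ) ≤ d.s3l := Nat.cast_nonneg _
  have g4 : (0 : ℝ) ≤ d.al := Nat.cast_nonneg _
  apply Mn.ne_zero hd.B hm
  unfold tD at h
  have h := ltn_cast h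
  rw [cmul, cmul, cpwn hn, cpwn hn, cadd, cadd, cadd] at h
  push_cast at h
  apply unsc
  refine ratio (X' := (d.s1h : ℝ) ^ n) (Y' := ((d.al : ℝ) + d.s1h) ^ n)
    (P' := (d.ch : ℝ) + d.s3l) (Q' := 100130 + (d.s3l : ℝ)) ?_ ?_ h (by positivity) (by linarith)
    (by linarith) ?_ (by positivity) (pow_nonneg (by linarith) n)
  · apply pr n (by linarith) (by linarith)
    have := ratm (a := 0) (a' := 0) (b := 1048576 * Sn p0) (b' := d.al) (s := 1048576 * s1)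
      (t := d.s1h) le_rfl a1 g4 s12 (by linarith) (by linarith)
    linarith
  · have := ratm (a := 100130) (a' := 1048576 * (954915 / 10000000)) (b := d.ch)
      (b' := 1048576 * Sn (p0 + q0)) (s := (d.s3l : ℝ)) (t := 1048576 * s3) (by norm_num) c2
      (by linarith) s31 (by linarith) (by linarith)
    linarith
  · exact mul_pos (pow_pos (by linarith) n) (by linarith)

theorem tlt_ok {d : Dx} {n a b : ℕ} {s1 s4 s3 s2 g5 p0 q0 qb : ℝ} (hn : n = 1 ∨ n = 2)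
    (hd : d.Ok s1 s4 s3 s2 g5 p0 q0 qb) (hab : a ≤ b) (hb : b ≤ 160) (h : tlt d n a b = true) :
    (Sn (b / 400) + s1) ^ n * (Sn (p0 + q0) + s3) < (Sn p0 + s1) ^ n * (Sn (a / 400 + 1 / 10) + s3) := by
  obtain ⟨A0, C0, -⟩ := Pp hd.B
  have hs1 := hd.B.h1
  have hs3 := hd.B.h3
  have a1 := hd.a1
  have c2 := hd.c2
  have s12 := hd.s12
  have s31 := hd.s31
  have s32 := hd.s32
  have g1 : (0 : ℝ) ≤ d.s1h := Nat.cast_nonneg _
  have g2 : (0 : ℝ) ≤ d.ch := Nat.cast_nonneg _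
  have g3 : (0 : ℝ) ≤ d.s3l := Nat.cast_nonneg _
  have g4 : (0 : ℝ) ≤ d.al := Nat.cast_nonneg _
  have k1 := (tn_ok (k := b) (by omega)).2
  have k2 := (tn_ok (k := Nat.add a 40) (by change a + 40 ≤ 200; omega)).1
  have e1 : ((Nat.add a 40 : ℕ) : ℝ) / 400 = a / 400 + 1 / 10 := by
    rw [cadd]
    push_cast
    ring
  rw [e1] at k2
  unfold tlt at h
  rw [fNe] at h
  obtain ⟨hv, h⟩ := cond_and h
  rw [fNe, fNe, fNe] at h
  obtain ⟨h3, h4⟩ := cond_and h
  have hv : ((Nat.succ (tn b) : ℕ) : ℝ) ≤ d.al := by exact_mod_cast ble_le hv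
  rw [csucc] at hv
  have h3 := ltn_cast h3
  have h4 := ltn_cast h4
  rw [cmul, cmul, cpwn hn, cpwn hn, cadd, cadd, cadd, cadd, csucc] at h3 h4
  have g8 := Sn_nonneg ((b : ℝ) / 400)
  have g9 := Sn_nonneg ((a : ℝ) / 400 + 1 / 10)
  have g10 : (0 : ℝ) ≤ (tn b : ℕ) := Nat.cast_nonneg _
  have g11 : (0 : ℝ) ≤ (tn (Nat.add a 40) : ℕ) := Nat.cast_nonneg _
  have h5 := aff (s := 1048576 * s3) s31 s32 h3 h4
  generalize ((tn b : ℕ) : ℝ) = v at *
  generalize ((tn (Nat.add a 40) : ℕ) : ℝ) = c at *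
  apply unsc
  refine ratio (X' := (v + 1 + d.s1h) ^ n) (Y' := ((d.al : ℝ) + d.s1h) ^ n)
    (P' := (d.ch : ℝ) + 1048576 * s3) (Q' := c + 1048576 * s3) ?_ ?_ h5 (by positivity) (by linarith)
    (by linarith) ?_ (by positivity) (pow_nonneg (by linarith) n)
  · apply pr n (by linarith) (by linarith)
    have := ratm (a := 1048576 * Sn ((b : ℝ) / 400)) (a' := v + 1) (b := 1048576 * Sn p0)
      (b' := d.al) (s := 1048576 * s1) (t := d.s1h) k1 a1 (by linarith) s12 (by linarith)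
      (by linarith)
    linarith
  · have := mul_le_mul (a := 1048576 * (Sn (p0 + q0) + s3)) (b := (d.ch : ℝ) + 1048576 * s3)
      (c := c + 1048576 * s3) (d := 1048576 * (Sn ((a : ℝ) / 400 + 1 / 10) + s3)) (by linarith)
      (by linarith) (by linarith) (by linarith)
    linarith
  · refine mul_pos (pow_pos (by linarith) n) ?_
    by_contra hc
    have hc := not_lt.1 hc
    have hz : c + 1048576 * s3 = 0 := by linarith
    rw [hz, mul_zero] at h5
    have := mul_nonneg (pow_nonneg (by linarith : 0 ≤ v + 1 + (d.s1h : ℝ)) n)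
      (by linarith : 0 ≤ (d.ch : ℝ) + 1048576 * s3)
    linarith

namespace N2

theorem tgt_ok {d : Dx} {n a b : ℕ} {s1 s4 s3 s2 g5 p0 q0 qb : ℝ} (hn : n = 1 ∨ n = 2)
    (hd : d.Ok s1 s4 s3 s2 g5 p0 q0 qb) (hab : a ≤ b) (hb : b ≤ 160) (h : tgt d n a b = true) :
    (Sn p0 + s1) ^ n * (Sn (b / 400 + 1 / 10) + s3) < (Sn (a / 400) + s1) ^ n * (Sn (p0 + q0) + s3) := by
  obtain ⟨A0, C0, -⟩ := Pp hd.B
  have hs1 := hd.B.h1
  have hs3 := hd.B.h3
  have a2 := hd.a2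
  have c1 := hd.c1
  have s11 := hd.s11
  have s12 := hd.s12
  have s31 := hd.s31
  have s32 := hd.s32
  have g1 : (0 : ℝ) ≤ d.s1l := Nat.cast_nonneg _
  have g2 : (0 : ℝ) ≤ d.cl := Nat.cast_nonneg _
  have g3 : (0 : ℝ) ≤ d.s3l := Nat.cast_nonneg _
  have k1 := (tn_ok (k := a) (by omega)).1
  have k2 := (tn_ok (k := Nat.add b 40) (by change b + 40 ≤ 200; omega)).2
  have e1 : ((Nat.add b 40 : ℕ) : ℝ) / 400 = b / 400 + 1 / 10 := by
    rw [cadd]
    push_cast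
    ring
  rw [e1] at k2
  unfold tgt at h
  rw [fNe, fNe, fNe] at h
  obtain ⟨h3, h4⟩ := cond_and h
  have h3 := ltn_cast h3
  have h4 := ltn_cast h4
  rw [cmul, cmul, cpwn hn, cpwn hn, cadd, cadd, cadd, cadd, csucc] at h3 h4
  have g8 := Sn_nonneg ((b : ℝ) / 400 + 1 / 10)
  have g9 : (0 : ℝ) ≤ (tn a : ℕ) := Nat.cast_nonneg _
  have h5 := aff (s := 1048576 * s3) s31 s32 h3 h4
  exact unsc (box (by linarith) (by linarith) (by linarith) (by linarith) (by linarith)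
      (by linarith) (by linarith) (by linarith) h5)

theorem tenth_le_Sn {q : ℝ} (h0 : 1 / 10 ≤ q) (h1 : q ≤ 9 / 10) : Sn (1 / 10) ≤ Sn q := by
  rcases le_total q (1 / 2) with h | h
  · exact Sn_mono (by norm_num) h0 h
  · rw [← Sn_one_sub q]
    exact Sn_mono (by norm_num) (by linarith) (by linarith)

theorem tiq_ok {d : Dx} {c : ℕ} {σ s1 s4 s3 s2 g5 p0 q0 qb : ℝ}
    (hd : d.Ok s1 s4 s3 s2 g5 p0 q0 qb) (h : tiq d c = true) (hc : (c : ℝ) ≤ 1048576 * σ) :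
    (Sn (1 / 10) + s4) * (Sn (p0 + q0) + s3) < (Sn q0 + s4) * (σ + s3) := by
  obtain ⟨A0, C0, D0⟩ := Pp hd.B
  have hs4 := hd.B.h4
  have hs3 := hd.B.h3
  have c2 := hd.c2
  have d1 := hd.d1
  have s41 := hd.s41
  have s42 := hd.s42
  have s31 := hd.s31
  have s32 := hd.s32
  have g1 : (0 : ℝ) ≤ d.s4h := Nat.cast_nonneg _
  have g2 : (0 : ℝ) ≤ d.dl := Nat.cast_nonneg _
  have g3 : (0 : ℝ) ≤ d.s3l := Nat.cast_nonneg _
  have g4 : (0 : ℝ) ≤ d.ch := Nat.cast_nonneg _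
  have g5' : (0 : ℝ) ≤ c := Nat.cast_nonneg _
  have T0 := Ed.tenth_ge
  have T1 := Ed.tenth_le
  have T2 := tenth_le_Sn hd.B.hq0.le hd.B.hq1.le
  unfold tiq at h
  obtain ⟨h3, h4⟩ := cond_and h
  have h3 := ltn_cast h3
  have h4 := ltn_cast h4
  rw [cmul, cmul, cadd, cadd, cadd, cadd] at h3 h4
  push_cast at h3 h4
  have h5 := aff (s := 1048576 * s3) s31 s32 h3 h4
  have h6 : (1048576 * Sn (1 / 10) + 1048576 * s4) * ((d.dl : ℝ) + d.s4h) ≤
      (100131 + (d.s4h : ℝ)) * (1048576 * Sn q0 + 1048576 * s4) := by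
    rcases le_total (1048576 * Sn (1 / 10)) (d.dl : ℝ) with h7 | h7
    · exact ratm (by linarith) d1 h7 s42 (by linarith) (by linarith)
    · have := mul_le_mul (a := (1048576 * Sn (1 / 10) + 1048576 * s4))
        (b := 1048576 * Sn q0 + 1048576 * s4) (c := (d.dl : ℝ) + d.s4h)
        (d := 100131 + (d.s4h : ℝ)) (by linarith) (by linarith) (by linarith) (by linarith)
      linarith
  have h7 := ratio (X := 1048576 * Sn (1 / 10) + 1048576 * s4) (X' := 100131 + (d.s4h : ℝ))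
    (Y := 1048576 * Sn q0 + 1048576 * s4) (Y' := (d.dl : ℝ) + d.s4h)
    (P := 1048576 * Sn (p0 + q0) + 1048576 * s3) (P' := (d.ch : ℝ) + 1048576 * s3)
    (Q := 1048576 * σ + 1048576 * s3) (Q' := c + 1048576 * s3) h6
    (mul_le_mul (by linarith) (by linarith) (by linarith) (by linarith)) h5 (by linarith)
    (by linarith) (by linarith) (by
      refine mul_pos (by linarith) ?_
      by_contra hc'
      have hc' := not_lt.1 hc'
      have hz : (c : ℝ) + 1048576 * s3 = 0 := by linarith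
      rw [hz, mul_zero] at h5
      have := mul_nonneg (by linarith : 0 ≤ 100131 + (d.s4h : ℝ))
        (by linarith : 0 ≤ (d.ch : ℝ) + 1048576 * s3)
      linarith) (by linarith) (by linarith)
  have := unsc (n := 1) (x := Sn (1 / 10) + s4) (y := Sn (p0 + q0) + s3) (z := Sn q0 + s4)
    (w := σ + s3) (by rw [pow_one, pow_one]; linarith)
  rw [pow_one, pow_one] at this
  exact this

/-- The line `q = 1/10`, `a ≤ p` with `V_q < 0`. -/
theorem bot_q' {n : ℕ} {s1 s4 s3 p0 q0 p q a : ℝ} (hB : Bp s1 s4 s3 p0 q0)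
    (h : Mn n s1 s4 s3 p0 q0 p q) (hq : q = 1 / 10) (ha : 0 ≤ a) (ha' : a ≤ 2 / 5) (hp : a ≤ p)
    (hc : (Sn (1 / 10) + s4) * (Sn (p0 + q0) + s3) < (Sn q0 + s4) * (Sn (a + 1 / 10) + s3))
    (hc' : (Sn (1 / 10) + s4) * (Sn (p0 + q0) + s3) < (Sn q0 + s4) * (9045 / 10000 + s3)) :
    False := by
  have h1 := Ed.qR hB h (by linarith)
  rw [hq] at h1
  obtain ⟨A0, C0, D0⟩ := Pp hB
  have hq4 : 0 ≤ Sn q0 + s4 := by linarith [hB.h4]
  rcases le_total (p + 1 / 10) (1 / 2) with h3 | h3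
  · have m := Sn_mono (t := a + 1 / 10) (t' := p + 1 / 10) (by linarith) (by linarith) h3
    have h4 : (Sn q0 + s4) * (Sn (a + 1 / 10) + s3) ≤ (Sn q0 + s4) * (Sn (p + 1 / 10) + s3) :=
      mul_le_mul_of_nonneg_left (by linarith) hq4
    linarith
  · have m := Sn_anti (t := p + 1 / 10) (t' := 1 / 2 + 1 / 10) h3 (by linarith [h.hp1])
      (by norm_num)
    rw [Ed.Sn_half_add'] at m
    have h4 : (Sn q0 + s4) * (9045 / 10000 + s3) ≤ (Sn q0 + s4) * (Sn (p + 1 / 10) + s3) :=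
      mul_le_mul_of_nonneg_left (by linarith [Ed.tenth_le]) hq4
    linarith

theorem tb1_succ (d : Dx) (n m a : ℕ) : tb1 d n (m + 1) a =
    cond (cond (tiq d (tn (Nat.add a 40))) true (cond (tlt d n a (Nat.succ a)) true (tgt d n a (Nat.succ a))))
      (fN (tb1 d n m) (Nat.succ a)) false := rfl

theorem tb5_succ (d : Dx) (n m a : ℕ) : tb5 d n (m + 1) a =
    cond (tiq d (tn (Nat.add a 40))) true
      (cond (cond (tlt d n a (Nat.add a 5)) true (cond (tgt d n a (Nat.add a 5)) true (tb1 d n 5 a)))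
        (fN (tb5 d n m) (Nat.add a 5)) false) := rfl

/-- The cell starting at `a`. -/
theorem tiq_cell {d : Dx} {n a : ℕ} {s1 s4 s3 s2 g5 p0 q0 qb p q : ℝ}
    (hd : d.Ok s1 s4 s3 s2 g5 p0 q0 qb) (h9 : tiq d 948436 = true) (hm : Mn n s1 s4 s3 p0 q0 p q)
    (hq : q = 1 / 10) (ha : a ≤ 160) (hp : (a : ℝ) / 400 ≤ p)
    (h : tiq d (tn (Nat.add a 40)) = true) : False := by
  have k2 := (tn_ok (k := Nat.add a 40) (by change a + 40 ≤ 200; omega)).1
  have e1 : ((Nat.add a 40 : ℕ) : ℝ) / 400 = a / 400 + 1 / 10 := by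
    rw [cadd]
    push_cast
    ring
  rw [e1] at k2
  have ha' : (a : ℝ) ≤ 160 := by exact_mod_cast ha
  exact bot_q' hd.B hm hq (by positivity) (by linarith) hp (tiq_ok hd h k2)
    (tiq_ok hd h9 (by norm_num))

/-- A cell. -/
theorem ltgt_cell {d : Dx} {n a b : ℕ} {s1 s4 s3 s2 g5 p0 q0 qb p q : ℝ} (hn : n = 1 ∨ n = 2)
    (hd : d.Ok s1 s4 s3 s2 g5 p0 q0 qb) (hm : Mn n s1 s4 s3 p0 q0 p q)
    (hp0 : 0 < p) (hq : q = 1 / 10) (hab : a ≤ b) (hb : b ≤ 160) (hp : (a : ℝ) / 400 ≤ p)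
    (hp' : p ≤ (b : ℝ) / 400) (h : tlt d n a b = true ∨ tgt d n a b = true) : False := by
  have hb' : (b : ℝ) ≤ 160 := by exact_mod_cast hb
  rcases h with h | h
  · exact Mn.bot_lt hd.B hm hq (by positivity) (by linarith) hp hp' (tlt_ok hn hd hab hb h)
  · exact Mn.bot_gt hd.B hm hq (by positivity) (by linarith) hp hp' hp0 (tgt_ok hn hd hab hb h)

theorem tb1_ok {d : Dx} {n : ℕ} {s1 s4 s3 s2 g5 p0 q0 qb p q : ℝ} (hn : n = 1 ∨ n = 2)
    (hd : d.Ok s1 s4 s3 s2 g5 p0 q0 qb) (h9 : tiq d 948436 = true) (hm : Mn n s1 s4 s3 p0 q0 p q)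
    (hp0 : 0 < p) (hq : q = 1 / 10) (m : ℕ) : ∀ a : ℕ, a + m ≤ 160 → tb1 d n m a = true →
      (a : ℝ) / 400 ≤ p → p < (a + m) / 400 → False := by
  induction m with
  | zero =>
    intro a _ _ h1 h2
    rw [Nat.cast_zero, add_zero] at h2
    linarith
  | succ m ih =>
    intro a ha h h1 h2
    rw [tb1_succ] at h
    obtain ⟨h3, h4⟩ := cond_and h
    rw [fNe] at h4
    rcases le_or_gt p (((Nat.succ a : ℕ) : ℝ) / 400) with h5 | h5
    · rcases cond_or h3 with h6 | h6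
      · exact tiq_cell hd h9 hm hq (by omega) h1 h6
      · exact ltgt_cell hn hd hm hp0 hq (Nat.le_succ a) (by omega) h1 h5 (cond_or h6)
    · refine ih (Nat.succ a) (by omega) h4 h5.le ?_
      rw [csucc]
      push_cast at h2
      linarith

theorem tb5_ok {d : Dx} {n : ℕ} {s1 s4 s3 s2 g5 p0 q0 qb p q : ℝ} (hn : n = 1 ∨ n = 2)
    (hd : d.Ok s1 s4 s3 s2 g5 p0 q0 qb) (h9 : tiq d 948436 = true) (hm : Mn n s1 s4 s3 p0 q0 p q)
    (hp0 : 0 < p) (hq : q = 1 / 10) (m : ℕ) : ∀ a : ℕ, a + 5 * m ≤ 160 → tb5 d n m a = true →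
      (a : ℝ) / 400 ≤ p → p < (a + 5 * m) / 400 → False := by
  induction m with
  | zero =>
    intro a _ _ h1 h2
    rw [Nat.cast_zero, mul_zero, add_zero] at h2
    linarith
  | succ m ih =>
    intro a ha h h1 h2
    rw [tb5_succ] at h
    rcases cond_or h with h6 | h6
    · exact tiq_cell hd h9 hm hq (by omega) h1 h6
    obtain ⟨h3, h4⟩ := cond_and h6
    rw [fNe] at h4
    have e : ((Nat.add a 5 : ℕ) : ℝ) = a + 5 := by
      rw [cadd]
      norm_num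
    rcases lt_or_ge p (((Nat.add a 5 : ℕ) : ℝ) / 400) with h5 | h5
    · rcases cond_or h3 with h7 | h7
      · exact ltgt_cell hn hd hm hp0 hq (Nat.le_add_right a 5) (by change a + 5 ≤ 160; omega) h1
          h5.le (Or.inl h7)
      · rcases cond_or h7 with h8 | h8
        · exact ltgt_cell hn hd hm hp0 hq (Nat.le_add_right a 5) (by change a + 5 ≤ 160; omega) h1
            h5.le (Or.inr h8)
        · refine tb1_ok hn hd h9 hm hp0 hq 5 a (by omega) h8 h1 ?_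
          rw [e] at h5
          push_cast
          linarith
    · refine ih (Nat.add a 5) (by change a + 5 + 5 * m ≤ 160; omega) h4 h5 ?_
      rw [e]
      push_cast at h2
      linarith

end N2

/-- from bot_lt, bot_gt, bot_q, tb1, tb5 by induction -/
theorem tB_ok {d : Dx} {n : ℕ} {s1 s4 s3 s2 g5 p0 q0 qb p q : ℝ} (hn : n = 1 ∨ n = 2)
    (hd : d.Ok s1 s4 s3 s2 g5 p0 q0 qb) (h : tB d n = true) (hm : Mn n s1 s4 s3 p0 q0 p q)
    (hp : 0 < p) (hq : q = 1 / 10) : False := by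
  unfold tB at h
  obtain ⟨h9, h5⟩ := cond_and h
  rcases lt_or_ge p (2 / 5) with h1 | h1
  · refine tb5_ok hn hd h9 hm hp hq 32 0 (by norm_num) h5 ?_ ?_
    · push_cast
      linarith
    · push_cast
      linarith
  · refine bot_q' hd.B hm hq (by norm_num : (0 : ℝ) ≤ 2 / 5) le_rfl h1 (tiq_ok hd h9 ?_)
      (tiq_ok hd h9 (by norm_num))
    rw [show (2 / 5 + 1 / 10 : ℝ) = 1 / 2 by norm_num, Ed.Sn_half1]
    norm_num

end Pool.Agent.S5.Y3
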