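import Pool.Agent.S5.I.Y3W
import Pool.Agent.S5.I.Y3N1
import Pool.Agent.S5.I.Y3V

/-!
# The flats of a node with three half twists: the test `tJ`
-/

set_option autoImplicit false

namespace Pool.Agent.S5.Y3

open MeasureTheory Filter Topology Set Pool.Agent.S5.C2 Pool.Agent.S5.Num Pool.Agent.S5.K3

namespace N3J

theorem ltn_lt {a b : ℕ} (h : ltn a b = true) : a < b := Nat.le_of_ble_eq_true h

theorem pwn_eq {n : ℕ} (hn : n = 1 ∨ n = 2) (x : ℕ) : pwn n x = x ^ n := by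
  rcases hn with rfl | rfl
  · unfold pwn
    rw [fN_eq]
    show x = x ^ 1
    rw [pow_one]
  · unfold pwn
    rw [fN_eq]
    show x * x = x ^ 2
    rw [sq]

theorem sqn_eq (x : ℕ) : sqn x = x ^ 2 := by
  unfold sqn
  rw [fN_eq, sq]
  rfl

theorem mxn_eq (a b : ℕ) : mxn a b = max a b := by
  unfold mxn
  rcases le_total a b with h | h
  · rw [Nat.ble_eq_true_of_le h, max_eq_right h]
    rfl
  · rcases h.eq_or_lt with rfl | h
    · rw [Nat.ble_eq_true_of_le le_rfl, max_self]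
      rfl
    · have : Nat.ble a b = false := by
        rw [Bool.eq_false_iff]
        intro h1
        exact absurd (Nat.le_of_ble_eq_true h1) (by omega)
      rw [this, max_eq_left h.le]
      rfl

/-! ### The products -/

/-- The ratio of the cell `i`. -/
def cG (d : Dx) (n h i : ℕ) : ℕ × ℕ :=
  cond (Nat.ble
      (Nat.mul (Nat.add (csn (Nat.mul h (Nat.succ i))) d.s3h)
        (Nat.mul (pwn n (Nat.add (Nat.succ (tn (Nat.mul h (Nat.succ i)))) d.s1h))
          (snd' (eNum d (Nat.mul h (Nat.succ i))))))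
      (Nat.mul (Nat.mul (pwn n (Nat.add d.al d.s1h)) (fst' (eNum d (Nat.mul h (Nat.succ i)))))
        (Nat.add (Nat.succ (mxn (csn (Nat.add 160 (Nat.mul h i)))
          (csn (Nat.add 160 (Nat.mul h (Nat.succ i)))))) d.s3h)))
    (Nat.add (csn (Nat.mul h (Nat.succ i))) d.s3h,
      Nat.add (Nat.succ (mxn (csn (Nat.add 160 (Nat.mul h i)))
          (csn (Nat.add 160 (Nat.mul h (Nat.succ i)))))) d.s3h)
    (Nat.mul (pwn n (Nat.add d.al d.s1h)) (fst' (eNum d (Nat.mul h (Nat.succ i)))),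
      Nat.mul (pwn n (Nat.add (Nat.succ (tn (Nat.mul h (Nat.succ i)))) d.s1h))
          (snd' (eNum d (Nat.mul h (Nat.succ i)))))

theorem prG_succ (d : Dx) (n h : ℕ) (k : ℕ → ℕ → Bool) (m i N D : ℕ) :
    prG d n h k (m + 1) i N D = prG d n h k m (i + 1) (N * (cG d n h i).1) (D * (cG d n h i).2) := by
  have e : prG d n h k (m + 1) i N D = (fN (fun a => fN (fun b =>
      fN (fun gn => fN (fun gd => fN (fun rn => fN (fun rd =>
        cond (Nat.ble (Nat.mul gn rd) (Nat.mul rn gd))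
          (fN (fun N => fN (fun D => prG d n h k m (Nat.succ i) N D) (Nat.mul D gd)) (Nat.mul N gn))
          (fN (fun N => fN (fun D => prG d n h k m (Nat.succ i) N D) (Nat.mul D rd))
            (Nat.mul N rn)))
        (Nat.mul (pwn n (Nat.add (Nat.succ (tn b)) d.s1h)) (snd' (eNum d b))))
        (Nat.mul (pwn n (Nat.add d.al d.s1h)) (fst' (eNum d b))))
        (Nat.add (Nat.succ (mxn (csn (Nat.add 160 a)) (csn (Nat.add 160 b)))) d.s3h))
        (Nat.add (csn b) d.s3h))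
      (Nat.mul h (Nat.succ i))) (Nat.mul h i)) := rfl
  rw [e]
  simp only [fN_eq]
  unfold cG
  cases Nat.ble
      (Nat.mul (Nat.add (csn (Nat.mul h (Nat.succ i))) d.s3h)
        (Nat.mul (pwn n (Nat.add (Nat.succ (tn (Nat.mul h (Nat.succ i)))) d.s1h))
          (snd' (eNum d (Nat.mul h (Nat.succ i))))))
      (Nat.mul (Nat.mul (pwn n (Nat.add d.al d.s1h)) (fst' (eNum d (Nat.mul h (Nat.succ i)))))
        (Nat.add (Nat.succ (mxn (csn (Nat.add 160 (Nat.mul h i)))
          (csn (Nat.add 160 (Nat.mul h (Nat.succ i)))))) d.s3h)) <;> rfl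

theorem prG_eq (d : Dx) (n h : ℕ) (k : ℕ → ℕ → Bool) (m : ℕ) : ∀ i N D,
    prG d n h k m i N D = k (N * ∏ j ∈ Finset.range m, (cG d n h (i + j)).1)
      (D * ∏ j ∈ Finset.range m, (cG d n h (i + j)).2) := by
  induction m with
  | zero =>
    intro i N D
    simp only [Finset.range_zero, Finset.prod_empty, mul_one]
    rfl
  | succ m ih =>
    intro i N D
    rw [prG_succ, ih, Finset.prod_range_succ', Finset.prod_range_succ']
    simp only [Nat.add_zero]
    have e : ∀ j, i + 1 + j = i + (j + 1) := fun j => by omega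
    simp only [e]
    congr 1 <;> ring

/-- The ratio of the cell `i` of the edge `z`. -/
def cW (d : Dx) (h i : ℕ) : ℕ × ℕ :=
  cond (Nat.ble
    (Nat.mul (cond (Nat.ble
        (Nat.mul (Nat.add (csn (Nat.mul h (Nat.succ i))) d.s3h)
          (Nat.add (Nat.succ (csn (Nat.mul h i))) d.s4l))
        (Nat.mul (Nat.add (Nat.succ (csn (Nat.mul h i))) d.s3h)
          (Nat.add (csn (Nat.mul h (Nat.succ i))) d.s4l)))
      (Nat.add (Nat.succ (csn (Nat.mul h i))) d.s4l) (Nat.add (csn (Nat.mul h (Nat.succ i))) d.s4l))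
      (Nat.add d.cl d.s3l))
    (Nat.mul (cond (Nat.ble
        (Nat.mul (Nat.add (csn (Nat.mul h (Nat.succ i))) d.s3h)
          (Nat.add (Nat.succ (csn (Nat.mul h i))) d.s4l))
        (Nat.mul (Nat.add (Nat.succ (csn (Nat.mul h i))) d.s3h)
          (Nat.add (csn (Nat.mul h (Nat.succ i))) d.s4l)))
      (Nat.add (Nat.succ (csn (Nat.mul h i))) d.s3h) (Nat.add (csn (Nat.mul h (Nat.succ i))) d.s3h))
      (Nat.add d.dh d.s4h)))
    (Nat.mul (cond (Nat.ble
        (Nat.mul (Nat.add (csn (Nat.mul h (Nat.succ i))) d.s3h)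
          (Nat.add (Nat.succ (csn (Nat.mul h i))) d.s4l))
        (Nat.mul (Nat.add (Nat.succ (csn (Nat.mul h i))) d.s3h)
          (Nat.add (csn (Nat.mul h (Nat.succ i))) d.s4l)))
      (Nat.add (Nat.succ (csn (Nat.mul h i))) d.s3h) (Nat.add (csn (Nat.mul h (Nat.succ i))) d.s3h))
      (Nat.add d.dh d.s4h),
     Nat.mul (cond (Nat.ble
        (Nat.mul (Nat.add (csn (Nat.mul h (Nat.succ i))) d.s3h)
          (Nat.add (Nat.succ (csn (Nat.mul h i))) d.s4l))
        (Nat.mul (Nat.add (Nat.succ (csn (Nat.mul h i))) d.s3h)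
          (Nat.add (csn (Nat.mul h (Nat.succ i))) d.s4l)))
      (Nat.add (Nat.succ (csn (Nat.mul h i))) d.s4l) (Nat.add (csn (Nat.mul h (Nat.succ i))) d.s4l))
      (Nat.add d.cl d.s3l)) (1, 1)

theorem mlR_eq (a b c e f g N D : ℕ) (k : ℕ → ℕ → Bool) : mlR a b c e f g N D k =
    k (N * (cond (Nat.ble (Nat.mul (cond (Nat.ble (Nat.mul a e) (Nat.mul c b)) e b) g)
        (Nat.mul (cond (Nat.ble (Nat.mul a e) (Nat.mul c b)) c a) f))
        (Nat.mul (cond (Nat.ble (Nat.mul a e) (Nat.mul c b)) c a) f,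
          Nat.mul (cond (Nat.ble (Nat.mul a e) (Nat.mul c b)) e b) g) (1, 1) : ℕ × ℕ).1)
      (D * (cond (Nat.ble (Nat.mul (cond (Nat.ble (Nat.mul a e) (Nat.mul c b)) e b) g)
        (Nat.mul (cond (Nat.ble (Nat.mul a e) (Nat.mul c b)) c a) f))
        (Nat.mul (cond (Nat.ble (Nat.mul a e) (Nat.mul c b)) c a) f,
          Nat.mul (cond (Nat.ble (Nat.mul a e) (Nat.mul c b)) e b) g) (1, 1) : ℕ × ℕ).2) := by
  unfold mlR
  simp only [fN_eq]
  cases Nat.ble (Nat.mul (cond (Nat.ble (Nat.mul a e) (Nat.mul c b)) e b) g)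
        (Nat.mul (cond (Nat.ble (Nat.mul a e) (Nat.mul c b)) c a) f)
  · show k N D = k (N * 1) (D * 1)
    rw [mul_one, mul_one]
  · rfl

theorem prW_succ (d : Dx) (h : ℕ) (k : ℕ → ℕ → Bool) (m i N D : ℕ) :
    prW d h k (m + 1) i N D = prW d h k m (i + 1) (N * (cW d h i).1) (D * (cW d h i).2) := by
  have e : prW d h k (m + 1) i N D = fN (fun c0 => fN (fun c1 =>
      mlR (Nat.add c0 d.s3h) (Nat.add c0 d.s4l) (Nat.add c1 d.s3h) (Nat.add c1 d.s4l)
        (Nat.add d.dh d.s4h) (Nat.add d.cl d.s3l) N D (fun N D => prW d h k m (Nat.succ i) N D))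
      (Nat.succ (csn (Nat.mul h i)))) (csn (Nat.mul h (Nat.succ i))) := rfl
  rw [e, fN_eq, fN_eq, mlR_eq]
  rfl

theorem prW_eq (d : Dx) (h : ℕ) (k : ℕ → ℕ → Bool) (m : ℕ) : ∀ i N D,
    prW d h k m i N D = k (N * ∏ j ∈ Finset.range m, (cW d h (i + j)).1)
      (D * ∏ j ∈ Finset.range m, (cW d h (i + j)).2) := by
  induction m with
  | zero =>
    intro i N D
    simp only [Finset.range_zero, Finset.prod_empty, mul_one]
    rfl
  | succ m ih =>
    intro i N D
    rw [prW_succ, ih, Finset.prod_range_succ', Finset.prod_range_succ']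
    simp only [Nat.add_zero]
    have e : ∀ j, i + 1 + j = i + (j + 1) := fun j => by omega
    simp only [e]
    congr 1 <;> ring

/-! ### Logarithms of ratios -/

theorem lg_sub {s t s' t' : ℝ} (h : 0 < Sn t + s) (h' : 0 < Sn t' + s') :
    Lq s t - Lq s' t' = (Real.log (1048576 * Sn t + 1048576 * s) -
      Real.log (1048576 * Sn t' + 1048576 * s')) / 2 := by
  rw [Lq_eq, Lq_eq, ← mul_add, ← mul_add, Real.log_mul (x := 4) (by norm_num) h.ne',
    Real.log_mul (x := 4) (by norm_num) h'.ne', Real.log_mul (x := 1048576) (by norm_num) h.ne',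
    Real.log_mul (x := 1048576) (by norm_num) h'.ne']
  ring

/-- A lower bound of a ratio `≥ 1`. -/
theorem r_lo {x y S X Y s : ℝ} (hx : x ≤ X) (hy : Y ≤ y) (hxy : y ≤ x) (hs : s ≤ S) (hY0 : 0 ≤ Y)
    (hs0 : 0 ≤ s) (h0 : 0 < Y + s) :
    Real.log (x + S) - Real.log (y + S) ≤ Real.log (X + s) - Real.log (Y + s) := by
  have h1 : (x + S) * (Y + s) ≤ (X + s) * (y + S) := by
    have k1 := mul_nonneg (sub_nonneg.2 hx) (hY0.trans hy)
    have k2 := mul_nonneg ((hY0.trans hy).trans hxy) (sub_nonneg.2 hy)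
    have k3 := mul_nonneg (sub_nonneg.2 hs) (show 0 ≤ X - Y by linarith)
    have k4 := mul_nonneg hs0 (show 0 ≤ (X - Y) - (x - y) by linarith)
    nlinarith
  have p1 : 0 < x + S := by linarith
  have p2 : 0 < X + s := by linarith
  have p3 : 0 < y + S := by linarith
  have := Real.log_le_log (mul_pos p1 h0) h1
  rw [Real.log_mul p1.ne' h0.ne', Real.log_mul p2.ne' p3.ne'] at this
  linarith

/-- An upper bound of the ratio of a slack. -/
theorem r_hi {x y σ Y s : ℝ} (hy : y ≤ Y) (hyx : y ≤ x) (hσ : σ ≤ s) (h0 : 0 < y + σ)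
    (hx0 : 0 ≤ x) (hσ0 : 0 ≤ σ) :
    Real.log (x + s) - Real.log (Y + s) ≤ Real.log (x + σ) - Real.log (y + σ) := by
  have h1 : (x + s) * (y + σ) ≤ (x + σ) * (Y + s) := by
    have k1 := mul_nonneg hx0 (sub_nonneg.2 hy)
    have k2 := mul_nonneg (sub_nonneg.2 hyx) (sub_nonneg.2 hσ)
    have k3 := mul_nonneg hσ0 (sub_nonneg.2 hy)
    nlinarith
  have p1 : 0 < x + s := by linarith
  have p2 : 0 < x + σ := by linarith
  have p3 : 0 < Y + s := by linarith
  have := Real.log_le_log (mul_pos p1 h0) h1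
  rw [Real.log_mul p1.ne' h0.ne', Real.log_mul p2.ne' p3.ne'] at this
  linarith

theorem r_mid {c0 c1 A B X : ℝ} (h0 : c0 ≤ X) (h1 : X ≤ c1) (hA : 0 < c0 + A) (hB : 0 < c0 + B) :
    Real.log (X + A) - Real.log (X + B) ≤ max (Real.log (c0 + A) - Real.log (c0 + B))
      (Real.log (c1 + A) - Real.log (c1 + B)) := by
  have p1 : 0 < X + A := by linarith
  have p2 : 0 < X + B := by linarith
  have p3 : 0 < c1 + A := by linarith
  have p4 : 0 < c1 + B := by linarith
  rcases le_total B A with h | h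
  · apply le_max_of_le_left
    have k : (X + A) * (c0 + B) ≤ (c0 + A) * (X + B) := by
      nlinarith [mul_nonneg (sub_nonneg.2 h) (sub_nonneg.2 h0)]
    have := Real.log_le_log (mul_pos p1 hB) k
    rw [Real.log_mul p1.ne' hB.ne', Real.log_mul hA.ne' p2.ne'] at this
    linarith
  · apply le_max_of_le_right
    have k : (X + A) * (c1 + B) ≤ (c1 + A) * (X + B) := by
      nlinarith [mul_nonneg (sub_nonneg.2 h) (sub_nonneg.2 h1)]
    have := Real.log_le_log (mul_pos p1 p4) k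
    rw [Real.log_mul p1.ne' p4.ne', Real.log_mul p3.ne' p2.ne'] at this
    linarith

/-- The logarithm of a ratio. -/
noncomputable def lr (c : ℕ × ℕ) : ℝ := Real.log (c.1 : ℝ) - Real.log (c.2 : ℝ)

/-- `a / b ≤ c / e` as logarithms. -/
theorem cross {a b c e : ℕ} (ha : 0 < a) (hb : 0 < b) (hc : 0 < c) (he : 0 < e)
    (h : a * e ≤ c * b) : lr (a, b) ≤ lr (c, e) := by
  have a' : (0 : ℝ) < a := by exact_mod_cast ha
  have b' : (0 : ℝ) < b := by exact_mod_cast hb
  have c' : (0 : ℝ) < c := by exact_mod_cast hc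
  have e' : (0 : ℝ) < e := by exact_mod_cast he
  have h1 : (a : ℝ) * e ≤ c * b := by exact_mod_cast h
  have := Real.log_le_log (by positivity) h1
  rw [Real.log_mul a'.ne' e'.ne', Real.log_mul c'.ne' b'.ne'] at this
  unfold lr
  simp only
  linarith

theorem sel_ok {gn gd rn rd : ℕ} (hgd : 0 < gd) (hrd : 0 < rd)
    (h : 0 < (cond (Nat.ble (Nat.mul gn rd) (Nat.mul rn gd)) (gn, gd) (rn, rd) : ℕ × ℕ).1) :
    0 < gn ∧ 0 < rn ∧
      lr (cond (Nat.ble (Nat.mul gn rd) (Nat.mul rn gd)) (gn, gd) (rn, rd)) ≤ lr (gn, gd) ∧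
      lr (cond (Nat.ble (Nat.mul gn rd) (Nat.mul rn gd)) (gn, gd) (rn, rd)) ≤ lr (rn, rd) := by
  cases hc : Nat.ble (Nat.mul gn rd) (Nat.mul rn gd) with
  | true =>
    rw [hc] at h
    have h1 : gn * rd ≤ rn * gd := Nat.le_of_ble_eq_true hc
    have h2 : 0 < gn := h
    have h3 : 0 < rn := by
      rcases Nat.eq_zero_or_pos rn with h4 | h4
      · rw [h4, zero_mul] at h1
        have := Nat.mul_pos h2 hrd
        omega
      · exact h4
    exact ⟨h2, h3, le_rfl, cross h2 hgd h3 hrd h1⟩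
  | false =>
    rw [hc] at h
    have h1 : rn * gd < gn * rd := by
      by_contra h4
      rw [not_lt] at h4
      have := Nat.ble_eq_true_of_le h4
      rw [show gn * rd = Nat.mul gn rd from rfl, show rn * gd = Nat.mul rn gd from rfl, hc] at this
      exact absurd this (by simp)
    have h2 : 0 < rn := h
    have h3 : 0 < gn := by
      rcases Nat.eq_zero_or_pos gn with h4 | h4
      · rw [h4, zero_mul] at h1
        omega
      · exact h4
    exact ⟨h3, h2, cross h2 hrd h3 hgd h1.le, le_rfl⟩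

theorem lr_mul {a b c e : ℕ} (ha : 0 < a) (hb : 0 < b) (hc : 0 < c) (he : 0 < e) :
    lr (Nat.mul a c, Nat.mul b e) = lr (a, b) + lr (c, e) := by
  have a' : (0 : ℝ) < a := by exact_mod_cast ha
  have b' : (0 : ℝ) < b := by exact_mod_cast hb
  have c' : (0 : ℝ) < c := by exact_mod_cast hc
  have e' : (0 : ℝ) < e := by exact_mod_cast he
  unfold lr
  show Real.log ((a * c : ℕ) : ℝ) - Real.log ((b * e : ℕ) : ℝ) = _
  push_cast
  rw [Real.log_mul a'.ne' c'.ne', Real.log_mul b'.ne' e'.ne']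
  ring

theorem lr_pow (a b n : ℕ) : lr (a ^ n, b ^ n) = n * lr (a, b) := by
  unfold lr
  push_cast
  rw [Real.log_pow, Real.log_pow]
  ring

theorem lr_prod {m : ℕ} {c : ℕ → ℕ × ℕ} (h1 : ∀ k < m, 0 < (c k).1) (h2 : ∀ k < m, 0 < (c k).2) :
    lr (∏ k ∈ Finset.range m, (c k).1, ∏ k ∈ Finset.range m, (c k).2) =
      ∑ k ∈ Finset.range m, lr (c k) := by
  unfold lr
  simp only
  rw [Nat.cast_prod, Nat.cast_prod, Real.log_prod, Real.log_prod, ← Finset.sum_sub_distrib]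
  · intro k hk
    have := h2 k (Finset.mem_range.1 hk)
    have : (0 : ℝ) < (c k).2 := by exact_mod_cast this
    exact this.ne'
  · intro k hk
    have := h1 k (Finset.mem_range.1 hk)
    have : (0 : ℝ) < (c k).1 := by exact_mod_cast this
    exact this.ne'

/-- The final inequality in logarithms. -/
theorem finR_ok {N D WN WD A B i C E j : ℕ} (hD : 0 < D) (hWN : 0 < WN) (hA : 0 < A) (hC : 0 < C)
    (h : finR N D WN WD A B i C E j = true) : 0 < N ∧ 0 < WD ∧ (i = 0 ∨ 0 < B) ∧ (j = 0 ∨ 0 < E) ∧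
      5 * lr (WN, WD) + i * lr (A, B) + j * lr (C, E) < 2 * lr (N, D) := by
  have h1 : sqn D * WN ^ 5 * (A ^ i * C ^ j) < sqn N * WD ^ 5 * (B ^ i * E ^ j) := ltn_lt h
  rw [sqn_eq, sqn_eq] at h1
  have h2 : 0 < N ^ 2 * WD ^ 5 * (B ^ i * E ^ j) := by omega
  have n1 : N ^ 2 ≠ 0 := fun h3 => by simp [h3] at h2
  have n2 : WD ^ 5 ≠ 0 := fun h3 => by simp [h3] at h2
  have n3 : B ^ i ≠ 0 := fun h3 => by simp [h3] at h2
  have n4 : E ^ j ≠ 0 := fun h3 => by simp [h3] at h2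
  have hN : 0 < N := Nat.pos_of_ne_zero (fun h3 => n1 (by rw [h3]; rfl))
  have hWD : 0 < WD := Nat.pos_of_ne_zero (fun h3 => n2 (by rw [h3]; rfl))
  have hB : i = 0 ∨ 0 < B := by
    rcases Nat.eq_zero_or_pos i with h3 | h3
    · exact Or.inl h3
    · refine Or.inr (Nat.pos_of_ne_zero fun h4 => n3 ?_)
      rw [h4]
      exact Nat.zero_pow h3
  have hE : j = 0 ∨ 0 < E := by
    rcases Nat.eq_zero_or_pos j with h3 | h3
    · exact Or.inl h3
    · refine Or.inr (Nat.pos_of_ne_zero fun h4 => n4 ?_)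
      rw [h4]
      exact Nat.zero_pow h3
  refine ⟨hN, hWD, hB, hE, ?_⟩
  have h3 : ((D : ℝ) ^ 2 * (WN : ℝ) ^ 5 * ((A : ℝ) ^ i * (C : ℝ) ^ j)) <
      (N : ℝ) ^ 2 * (WD : ℝ) ^ 5 * ((B : ℝ) ^ i * (E : ℝ) ^ j) := by exact_mod_cast h1
  have D' : (D : ℝ) ≠ 0 := by exact_mod_cast hD.ne'
  have WN' : (WN : ℝ) ≠ 0 := by exact_mod_cast hWN.ne'
  have A' : (A : ℝ) ≠ 0 := by exact_mod_cast hA.ne'
  have C' : (C : ℝ) ≠ 0 := by exact_mod_cast hC.ne'
  have N' : (N : ℝ) ≠ 0 := by exact_mod_cast hN.ne'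
  have WD' : (WD : ℝ) ≠ 0 := by exact_mod_cast hWD.ne'
  have B' : (B : ℝ) ^ i ≠ 0 := by exact_mod_cast n3
  have E' : (E : ℝ) ^ j ≠ 0 := by exact_mod_cast n4
  have h4 := Real.log_lt_log (by positivity) h3
  rw [Real.log_mul (mul_ne_zero (pow_ne_zero _ D') (pow_ne_zero _ WN'))
      (mul_ne_zero (pow_ne_zero _ A') (pow_ne_zero _ C')),
    Real.log_mul (pow_ne_zero _ D') (pow_ne_zero _ WN'),
    Real.log_mul (pow_ne_zero _ A') (pow_ne_zero _ C'),
    Real.log_mul (mul_ne_zero (pow_ne_zero _ N') (pow_ne_zero _ WD')) (mul_ne_zero B' E'),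
    Real.log_mul (pow_ne_zero _ N') (pow_ne_zero _ WD'), Real.log_mul B' E',
    Real.log_pow, Real.log_pow, Real.log_pow, Real.log_pow, Real.log_pow, Real.log_pow,
    Real.log_pow, Real.log_pow] at h4
  unfold lr
  push_cast at h4
  simp only
  linarith

/-! ### The data -/

theorem u_mul {x y : ℝ} (h : x ≤ y) : 1048576 * x ≤ 1048576 * y := by linarith

theorem lr_one : lr (1, 1) = 0 := by
  unfold lr
  simp

theorem eNum_cases (d : Dx) (b : ℕ) : eNum d b = (1, 1) ∨ (eNum d b = (csn b + d.s3h, d.ch + d.s3h) ∧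
    67108864 ≤ d.tl ∧ 1048576 * b ≤ 400 * (d.tl - 67108864) ∧ d.ch ≤ csn b) := by
  unfold eNum
  cases h1 : Nat.ble 67108864 d.tl with
  | false => exact Or.inl rfl
  | true =>
    cases h2 : Nat.ble (Nat.mul 1048576 b) (Nat.mul 400 (Nat.sub d.tl 67108864)) with
    | false => exact Or.inl rfl
    | true =>
      cases h3 : Nat.ble d.ch (csn b) with
      | false => exact Or.inl rfl
      | true => exact Or.inr ⟨rfl, Nat.le_of_ble_eq_true h1, Nat.le_of_ble_eq_true h2,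
          Nat.le_of_ble_eq_true h3⟩

variable {d : Dx} {s1 s4 s3 s2 g5 p0 q0 qb : ℝ}

theorem P_pos (hd : d.Ok s1 s4 s3 s2 g5 p0 q0 qb) : 0 < Sn (p0 + q0) :=
  Sn_pos (by linarith [hd.B.hP0]) (by linarith [hd.B.hP1])

theorem q_pos (hd : d.Ok s1 s4 s3 s2 g5 p0 q0 qb) : 0 < Sn q0 :=
  Sn_pos (by linarith [hd.B.hq0]) (by linarith [hd.B.hq1])

theorem ch_pos (hd : d.Ok s1 s4 s3 s2 g5 p0 q0 qb) : 0 < d.ch := by
  have h1 := P_pos hd
  have h2 : (0 : ℝ) < d.ch := by linarith [hd.c2]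
  exact_mod_cast h2

theorem dh_pos (hd : d.Ok s1 s4 s3 s2 g5 p0 q0 qb) : 0 < d.dh := by
  have h1 := q_pos hd
  have h2 : (0 : ℝ) < d.dh := by linarith [hd.d2]
  exact_mod_cast h2

theorem e_pos (hd : d.Ok s1 s4 s3 s2 g5 p0 q0 qb) (b : ℕ) : 0 < (eNum d b).2 := by
  have := ch_pos hd
  rcases eNum_cases d b with h | ⟨h, -⟩
  · rw [h]
    exact Nat.one_pos
  · rw [h]
    show 0 < d.ch + d.s3h
    omega

/-- The ratio `e`. -/
theorem e_ok (hd : d.Ok s1 s4 s3 s2 g5 p0 q0 qb) (h k : ℕ) :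
    lr (eNum d (h * (k + 1))) / 2 = 0 ∨ (((k : ℝ) + 1) * ((h : ℝ) / 400) ≤ p0 + q0 - 1 / 2 ∧
      ∀ t ∈ Icc ((k : ℝ) * ((h : ℝ) / 400)) (((k : ℝ) + 1) * ((h : ℝ) / 400)),
        lr (eNum d (h * (k + 1))) / 2 ≤ Lq s3 (1 / 2 + t) - Lq s3 (p0 + q0)) := by
  rcases eNum_cases d (h * (k + 1)) with he | ⟨he, h1, h2, h3⟩
  · left
    rw [he, lr_one, zero_div]
  · right
    have hP1 := hd.B.hP1
    have hP := P_pos hd
    have r2 : (1048576 : ℝ) * ((h : ℝ) * ((k : ℝ) + 1)) ≤ 400 * ((d.tl : ℝ) - 67108864) := by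
      have : ((1048576 * (h * (k + 1)) : ℕ) : ℝ) ≤ ((400 * (d.tl - 67108864) : ℕ) : ℝ) := by
        exact_mod_cast h2
      rw [Nat.cast_mul 400, Nat.cast_sub h1] at this
      push_cast at this
      linarith
    have r3 : (d.ch : ℝ) ≤ csn (h * (k + 1)) := by exact_mod_cast h3
    have hb : ((k : ℝ) + 1) * ((h : ℝ) / 400) ≤ p0 + q0 - 1 / 2 := by linarith [hd.t1]
    refine ⟨hb, fun t ht => ?_⟩
    have ht0 : 0 ≤ t := le_trans
      (mul_nonneg (Nat.cast_nonneg k) (div_nonneg (Nat.cast_nonneg h) (by norm_num))) ht.1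
    have hb400 : h * (k + 1) ≤ 400 := by
      have : ((h * (k + 1) : ℕ) : ℝ) ≤ (400 : ℕ) := by
        push_cast
        linarith
      exact_mod_cast this
    have h4 := (csn_ok hb400).1
    have h5 : Sn (1 / 2 + ((h * (k + 1) : ℕ) : ℝ) / 400) ≤ Sn (1 / 2 + t) :=
      Sn_anti (by linarith) (by push_cast; linarith [ht.2]) (by push_cast; linarith)
    have h6 := r_lo (x := (csn (h * (k + 1)) : ℕ)) (y := (d.ch : ℕ)) (S := (d.s3h : ℕ))
      (X := 1048576 * Sn (1 / 2 + t)) (Y := 1048576 * Sn (p0 + q0)) (s := 1048576 * s3)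
      (h4.trans (u_mul h5)) hd.c2 r3 hd.s32 (by positivity) (by linarith [hd.B.h3])
      (by linarith [hd.B.h3])
    have h7 : 0 < Sn (1 / 2 + t) := Sn_pos (by linarith) (by linarith [ht.2])
    rw [lg_sub (by linarith [hd.B.h3]) (by linarith [hd.B.h3]), he]
    unfold lr
    push_cast
    linarith

/-- The ratio of the edge `y`. -/
theorem y_ok (hd : d.Ok s1 s4 s3 s2 g5 p0 q0 qb) {b : ℕ} (hb0 : 0 < b) (hb : (b : ℝ) / 400 ≤ p0)
    (ha : 0 < d.al + d.s1h) : lr (d.al + d.s1h, tn b + 1 + d.s1h) / 2 ≤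
      Lq s1 p0 - Lq s1 ((b : ℝ) / 400) := by
  have hp1 := hd.B.hp1
  have hs1 := hd.B.h1
  have hb' : (0 : ℝ) < b := by exact_mod_cast hb0
  have h1 : 0 < Sn ((b : ℝ) / 400) := Sn_pos (by positivity) (by linarith)
  have h2 : Sn ((b : ℝ) / 400) ≤ Sn p0 := Sn_mono (by positivity) hb (by linarith)
  have hb200 : b ≤ 200 := by
    have : (b : ℝ) ≤ (200 : ℕ) := by
      push_cast
      linarith
    exact_mod_cast this
  have h3 := (tn_ok hb200).2
  rw [lg_sub (by linarith) (by linarith)]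
  rcases le_or_gt (tn b + 1) d.al with h | h
  · have h' : ((tn b : ℝ) + 1) ≤ d.al := by exact_mod_cast h
    have h6 := r_lo (x := (d.al : ℕ)) (y := (tn b : ℕ) + 1) (S := (d.s1h : ℕ))
      (X := 1048576 * Sn p0) (Y := 1048576 * Sn ((b : ℝ) / 400)) (s := 1048576 * s1)
      hd.a1 h3 h' hd.s12 (by positivity) (by linarith) (by linarith)
    unfold lr
    push_cast
    linarith
  · have h6 : lr (d.al + d.s1h, tn b + 1 + d.s1h) ≤ 0 := by
      rw [← lr_one]
      exact cross ha (by omega) Nat.one_pos Nat.one_pos (by omega)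
    have h7 := Real.log_le_log (show 0 < 1048576 * Sn ((b : ℝ) / 400) + 1048576 * s1 by linarith)
      (show 1048576 * Sn ((b : ℝ) / 400) + 1048576 * s1 ≤ 1048576 * Sn p0 + 1048576 * s1 by
        linarith)
    linarith

theorem csn_big : ∀ k ≤ 80, 600000 ≤ csn k := by decide +kernel

theorem csn_small : ∀ k ≤ 80, csn (160 + k) ≤ 100130 := by decide +kernel

theorem csn_pos : ∀ k ≤ 160, 0 < csn k := by decide +kernel

/-- `cos²` on a cell is at most the larger end value. -/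
theorem cell_max {x a b : ℝ} (h0 : 0 ≤ a) (h1 : a ≤ x) (h2 : x ≤ b) (h3 : b ≤ 1) :
    Sn (1 / 2 + x) ≤ max (Sn (1 / 2 + a)) (Sn (1 / 2 + b)) := by
  rcases le_total x (1 / 2) with h | h
  · exact le_max_of_le_left (Sn_anti (by linarith) (by linarith) (by linarith))
  · apply le_max_of_le_right
    have e : ∀ y, Sn (1 / 2 + y) = Sn (y - 1 / 2) := fun y => by
      rw [← Sn_sub_one, show 1 / 2 + y - 1 = y - 1 / 2 by ring]
    rw [e x, e b]
    exact Sn_mono (by linarith) (by linarith) (by linarith)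

/-- The ratio `g`. -/
theorem g_ok (hd : d.Ok s1 s4 s3 s2 g5 p0 q0 qb) {h k : ℕ} (hh0 : 0 < h) (hh : h ∣ 40) {t : ℝ}
    (h1 : (k : ℝ) * ((h : ℝ) / 400) < t) (h2 : t < ((k : ℝ) + 1) * ((h : ℝ) / 400))
    (h3 : t < 1 / 5) :
    lr (csn (h * (k + 1)) + d.s3h, max (csn (160 + h * k)) (csn (160 + h * (k + 1))) + 1 + d.s3h) /
      2 ≤ Lq s3 (t + 1 / 2) - Lq s3 (t + 9 / 10) := by
  have hs3 := hd.B.h3
  have hh0' : (0 : ℝ) < h := by exact_mod_cast hh0
  have ht0 : 0 ≤ t := le_trans (by positivity) h1.le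
  obtain ⟨c, hc⟩ := hh
  have hk80 : h * k < 80 := by
    have : ((h * k : ℕ) : ℝ) < (80 : ℕ) := by
      push_cast
      linarith
    exact_mod_cast this
  have hb80 : h * (k + 1) ≤ 80 := by
    have e80 : 80 = h * (2 * c) := by
      rw [show h * (2 * c) = 2 * (h * c) by ring, ← hc]
    rw [e80] at hk80 ⊢
    have := Nat.lt_of_mul_lt_mul_left hk80
    exact Nat.mul_le_mul_left h this
  -- the singular point is a node
  have hsing : t ≠ 1 / 10 := by
    rintro rfl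
    have e1 : ((h * k : ℕ) : ℝ) < ((h * c : ℕ) : ℝ) := by
      rw [← hc]
      push_cast
      linarith
    have e2 : ((h * c : ℕ) : ℝ) < ((h * (k + 1) : ℕ) : ℝ) := by
      rw [← hc]
      push_cast
      linarith
    have e3 := Nat.lt_of_mul_lt_mul_left (Nat.cast_lt.1 e1)
    have e4 := Nat.lt_of_mul_lt_mul_left (Nat.cast_lt.1 e2)
    omega
  have hY0 : 0 < Sn (t + 9 / 10) := by
    rcases lt_or_gt_of_ne hsing with h5 | h5
    · exact Sn_pos (by linarith) (by linarith)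
    · rw [← Sn_sub_one]
      exact Sn_pos (by linarith) (by linarith)
  have hX : Sn (1 / 2 + ((h * (k + 1) : ℕ) : ℝ) / 400) ≤ Sn (t + 1 / 2) := by
    rw [add_comm t]
    exact Sn_anti (by linarith) (by push_cast; linarith)
      (by
        have : ((h * (k + 1) : ℕ) : ℝ) ≤ (80 : ℕ) := by exact_mod_cast hb80
        push_cast at this ⊢
        linarith)
  have hX0 : 0 < Sn (t + 1 / 2) := Sn_pos (by linarith) (by linarith)
  have hY := cell_max (x := t + 2 / 5) (a := ((160 + h * k : ℕ) : ℝ) / 400)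
    (b := ((160 + h * (k + 1) : ℕ) : ℝ) / 400) (by positivity) (by push_cast; linarith)
    (by push_cast; linarith)
    (by
      have : ((h * (k + 1) : ℕ) : ℝ) ≤ (80 : ℕ) := by exact_mod_cast hb80
      push_cast at this ⊢
      linarith)
  rw [show 1 / 2 + (t + 2 / 5) = t + 9 / 10 by ring] at hY
  have k1 := (csn_ok (k := h * (k + 1)) (by omega)).1
  have k2 := (csn_ok (k := 160 + h * k) (by omega)).2
  have k3 := (csn_ok (k := 160 + h * (k + 1)) (by omega)).2
  have hYm : 1048576 * Sn (t + 9 / 10) ≤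
      ((max (csn (160 + h * k)) (csn (160 + h * (k + 1))) : ℕ) : ℝ) + 1 := by
    rw [Nat.cast_max]
    rcases le_max_iff.1 hY with h6 | h6
    · have := le_max_left ((csn (160 + h * k) : ℕ) : ℝ) ((csn (160 + h * (k + 1)) : ℕ) : ℝ)
      linarith
    · have := le_max_right ((csn (160 + h * k) : ℕ) : ℝ) ((csn (160 + h * (k + 1)) : ℕ) : ℝ)
      linarith
  have hxy : ((max (csn (160 + h * k)) (csn (160 + h * (k + 1))) : ℕ) : ℝ) + 1 ≤
      (csn (h * (k + 1)) : ℕ) := by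
    have a1 := csn_big _ hb80
    have a2 := csn_small _ hk80.le
    have a3 := csn_small _ hb80
    have a4 : max (csn (160 + h * k)) (csn (160 + h * (k + 1))) + 1 ≤ csn (h * (k + 1)) := by
      have := max_le a2 a3
      omega
    exact_mod_cast a4
  have h6 := r_lo (x := (csn (h * (k + 1)) : ℕ))
    (y := ((max (csn (160 + h * k)) (csn (160 + h * (k + 1))) : ℕ) : ℝ) + 1) (S := (d.s3h : ℕ))
    (X := 1048576 * Sn (t + 1 / 2)) (Y := 1048576 * Sn (t + 9 / 10)) (s := 1048576 * s3)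
    (k1.trans (u_mul hX)) hYm hxy hd.s32 (by positivity) (by linarith) (by linarith)
  rw [lg_sub (by linarith) (by linarith)]
  unfold lr
  push_cast at h6 ⊢
  linarith

theorem cG_eq (d : Dx) (n h k : ℕ) : cG d n h k = cond (Nat.ble
      (Nat.mul (csn (h * (k + 1)) + d.s3h)
        (Nat.mul (pwn n (tn (h * (k + 1)) + 1 + d.s1h)) (eNum d (h * (k + 1))).2))
      (Nat.mul (Nat.mul (pwn n (d.al + d.s1h)) (eNum d (h * (k + 1))).1)
        (max (csn (160 + h * k)) (csn (160 + h * (k + 1))) + 1 + d.s3h)))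
    (csn (h * (k + 1)) + d.s3h, max (csn (160 + h * k)) (csn (160 + h * (k + 1))) + 1 + d.s3h)
    (Nat.mul (pwn n (d.al + d.s1h)) (eNum d (h * (k + 1))).1,
      Nat.mul (pwn n (tn (h * (k + 1)) + 1 + d.s1h)) (eNum d (h * (k + 1))).2) := by
  rw [← mxn_eq]
  rfl

theorem cG_pos2 (hd : d.Ok s1 s4 s3 s2 g5 p0 q0 qb) {n : ℕ} (hn : n = 1 ∨ n = 2) (h k : ℕ) :
    0 < (cG d n h k).2 := by
  rw [cG_eq]
  have h1 := e_pos hd (h * (k + 1))
  have h2 : 0 < pwn n (tn (h * (k + 1)) + 1 + d.s1h) := by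
    rw [pwn_eq hn]
    exact Nat.pow_pos (by omega)
  cases Nat.ble
      (Nat.mul (csn (h * (k + 1)) + d.s3h)
        (Nat.mul (pwn n (tn (h * (k + 1)) + 1 + d.s1h)) (eNum d (h * (k + 1))).2))
      (Nat.mul (Nat.mul (pwn n (d.al + d.s1h)) (eNum d (h * (k + 1))).1)
        (max (csn (160 + h * k)) (csn (160 + h * (k + 1))) + 1 + d.s3h))
  · exact Nat.mul_pos h2 h1
  · show 0 < max (csn (160 + h * k)) (csn (160 + h * (k + 1))) + 1 + d.s3h
    omega

/-- Both bounds of a cell. -/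
theorem cG_ok (hd : d.Ok s1 s4 s3 s2 g5 p0 q0 qb) {n : ℕ} (hn : n = 1 ∨ n = 2) {h k : ℕ}
    (hh0 : 0 < h) (hb : ((h * (k + 1) : ℕ) : ℝ) / 400 ≤ p0) (hc : 0 < (cG d n h k).1) :
    lr (cG d n h k) ≤
      lr (csn (h * (k + 1)) + d.s3h, max (csn (160 + h * k)) (csn (160 + h * (k + 1))) + 1 + d.s3h) ∧
    lr (cG d n h k) / 2 ≤ n * (Lq s1 p0 - Lq s1 (((h * (k + 1) : ℕ) : ℝ) / 400)) +
      lr (eNum d (h * (k + 1))) / 2 := by
  rw [cG_eq] at hc ⊢
  have h1 := e_pos hd (h * (k + 1))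
  have h2 : 0 < pwn n (tn (h * (k + 1)) + 1 + d.s1h) := by
    rw [pwn_eq hn]
    exact Nat.pow_pos (by omega)
  obtain ⟨-, k2, k3, k4⟩ := sel_ok (by omega) (Nat.mul_pos h2 h1) hc
  refine ⟨k3, ?_⟩
  have m1 : 0 < pwn n (d.al + d.s1h) := Nat.pos_of_mul_pos_right k2
  have m2 : 0 < (eNum d (h * (k + 1))).1 := Nat.pos_of_mul_pos_left k2
  have m3 : 0 < d.al + d.s1h := by
    rw [pwn_eq hn] at m1
    rcases Nat.eq_zero_or_pos (d.al + d.s1h) with h4 | h4
    · rw [h4] at m1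
      rcases hn with rfl | rfl <;> simp at m1
    · exact h4
  have k5 := lr_mul m1 h2 m2 h1
  rw [pwn_eq hn, pwn_eq hn, lr_pow, ← pwn_eq hn, ← pwn_eq hn] at k5
  replace k4 := k4.trans (le_of_eq k5)
  have m4 := y_ok hd (Nat.mul_pos hh0 (Nat.succ_pos k)) hb m3
  have hn0 : (0 : ℝ) ≤ n := Nat.cast_nonneg n
  have m5 := mul_le_mul_of_nonneg_left m4 hn0
  have e5 : lr ((eNum d (h * (k + 1))).1, (eNum d (h * (k + 1))).2) = lr (eNum d (h * (k + 1))) :=
    rfl
  rw [e5] at k4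
  have k6 : lr (cG d n h k) ≤ n * lr (d.al + d.s1h, tn (h * (k + 1)) + 1 + d.s1h) +
      lr (eNum d (h * (k + 1))) := by
    rw [cG_eq]
    exact k4
  rw [cG_eq] at k6
  linarith

/-- The ratio of the edge `z`. -/
theorem cW_pos1 (hd : d.Ok s1 s4 s3 s2 g5 p0 q0 qb) {h k : ℕ} (hk : h * (k + 1) ≤ 160) :
    0 < (cW d h k).1 := by
  have h1 := csn_pos _ hk
  have h2 := dh_pos hd
  have key : ∀ a b c e f g : ℕ, 0 < a → 0 < c → 0 < f →
      0 < (cond (Nat.ble (Nat.mul (cond (Nat.ble (Nat.mul a e) (Nat.mul c b)) e b) g)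
        (Nat.mul (cond (Nat.ble (Nat.mul a e) (Nat.mul c b)) c a) f))
        (Nat.mul (cond (Nat.ble (Nat.mul a e) (Nat.mul c b)) c a) f,
          Nat.mul (cond (Nat.ble (Nat.mul a e) (Nat.mul c b)) e b) g) (1, 1) : ℕ × ℕ).1 := by
    intro a b c e f g ha hc hf
    cases Nat.ble (Nat.mul (cond (Nat.ble (Nat.mul a e) (Nat.mul c b)) e b) g)
        (Nat.mul (cond (Nat.ble (Nat.mul a e) (Nat.mul c b)) c a) f)
    · exact Nat.one_pos
    · show 0 < Nat.mul (cond (Nat.ble (Nat.mul a e) (Nat.mul c b)) c a) f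
      cases Nat.ble (Nat.mul a e) (Nat.mul c b)
      · exact Nat.mul_pos ha hf
      · exact Nat.mul_pos hc hf
  exact key (csn (h * (k + 1)) + d.s3h) (csn (h * (k + 1)) + d.s4l) (csn (h * k) + 1 + d.s3h)
    (csn (h * k) + 1 + d.s4l) (d.dh + d.s4h) (d.cl + d.s3l) (by omega) (by omega) (by omega)

theorem w_sel {a b c e f g : ℕ} (ha : 0 < a) (hb : 0 < b) (hc : 0 < c) (he : 0 < e) (hf : 0 < f)
    (h : 0 < (cond (Nat.ble (Nat.mul (cond (Nat.ble (Nat.mul a e) (Nat.mul c b)) e b) g)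
        (Nat.mul (cond (Nat.ble (Nat.mul a e) (Nat.mul c b)) c a) f))
        (Nat.mul (cond (Nat.ble (Nat.mul a e) (Nat.mul c b)) c a) f,
          Nat.mul (cond (Nat.ble (Nat.mul a e) (Nat.mul c b)) e b) g) (1, 1) : ℕ × ℕ).2) :
    0 < g ∧ 0 ≤ lr (cond (Nat.ble (Nat.mul (cond (Nat.ble (Nat.mul a e) (Nat.mul c b)) e b) g)
        (Nat.mul (cond (Nat.ble (Nat.mul a e) (Nat.mul c b)) c a) f))
        (Nat.mul (cond (Nat.ble (Nat.mul a e) (Nat.mul c b)) c a) f,
          Nat.mul (cond (Nat.ble (Nat.mul a e) (Nat.mul c b)) e b) g) (1, 1)) ∧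
      max (lr (a, b)) (lr (c, e)) + lr (f, g) ≤
        lr (cond (Nat.ble (Nat.mul (cond (Nat.ble (Nat.mul a e) (Nat.mul c b)) e b) g)
        (Nat.mul (cond (Nat.ble (Nat.mul a e) (Nat.mul c b)) c a) f))
        (Nat.mul (cond (Nat.ble (Nat.mul a e) (Nat.mul c b)) c a) f,
          Nat.mul (cond (Nat.ble (Nat.mul a e) (Nat.mul c b)) e b) g) (1, 1)) := by
  -- the selected ratio
  obtain ⟨x, y, hx, hy, exy, hm⟩ : ∃ x y : ℕ, 0 < x ∧ 0 < y ∧
      (cond (Nat.ble (Nat.mul a e) (Nat.mul c b)) c a = x ∧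
        cond (Nat.ble (Nat.mul a e) (Nat.mul c b)) e b = y) ∧
      max (lr (a, b)) (lr (c, e)) ≤ lr (x, y) := by
    cases hs : Nat.ble (Nat.mul a e) (Nat.mul c b) with
    | true =>
      exact ⟨c, e, hc, he, ⟨rfl, rfl⟩, max_le (cross ha hb hc he (Nat.le_of_ble_eq_true hs)) le_rfl⟩
    | false =>
      refine ⟨a, b, ha, hb, ⟨rfl, rfl⟩, max_le le_rfl (cross hc he ha hb ?_)⟩
      have h4 : c * b < a * e := by
        by_contra h4
        rw [not_lt] at h4
        have := Nat.ble_eq_true_of_le h4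
        rw [show a * e = Nat.mul a e from rfl, show c * b = Nat.mul c b from rfl, hs] at this
        exact absurd this (by simp)
      linarith
  obtain ⟨e1, e2⟩ := exy
  rw [e1, e2] at h ⊢
  have hu : 0 < Nat.mul x f := Nat.mul_pos hx hf
  cases ht : Nat.ble (Nat.mul y g) (Nat.mul x f) with
  | true =>
    rw [ht] at h
    have h1 : 0 < Nat.mul y g := h
    have h2 : 0 < g := Nat.pos_of_mul_pos_left h1
    have h3 : y * g ≤ x * f := Nat.le_of_ble_eq_true ht
    refine ⟨h2, ?_, ?_⟩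
    · show 0 ≤ lr (Nat.mul x f, Nat.mul y g)
      rw [← lr_one]
      exact cross Nat.one_pos Nat.one_pos hu h1 (by
        rw [one_mul, mul_one]
        exact h3)
    · show _ ≤ lr (Nat.mul x f, Nat.mul y g)
      rw [lr_mul hx hy hf h2]
      linarith
  | false =>
    have h3 : x * f < y * g := by
      by_contra h4
      rw [not_lt] at h4
      have := Nat.ble_eq_true_of_le h4
      rw [show y * g = Nat.mul y g from rfl, show x * f = Nat.mul x f from rfl, ht] at this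
      exact absurd this (by simp)
    have h2 : 0 < g := by
      rcases Nat.eq_zero_or_pos g with h5 | h5
      · rw [h5, mul_zero] at h3
        omega
      · exact h5
    refine ⟨h2, ?_, ?_⟩
    · show 0 ≤ lr (1, 1)
      rw [lr_one]
    · show _ ≤ lr (1, 1)
      have h6 : lr (Nat.mul x f, Nat.mul y g) ≤ lr (1, 1) :=
        cross hu (Nat.mul_pos hy h2) Nat.one_pos Nat.one_pos (by
          rw [one_mul, mul_one]
          exact h3.le)
      rw [lr_mul hx hy hf h2] at h6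
      linarith

theorem cW_ok (hd : d.Ok s1 s4 s3 s2 g5 p0 q0 qb) {h k : ℕ} (hk : h * (k + 1) ≤ 160)
    (hc : 0 < (cW d h k).2) : 0 ≤ lr (cW d h k) / 2 ∧
      ∀ t ∈ Icc ((k : ℝ) * ((h : ℝ) / 400)) (((k : ℝ) + 1) * ((h : ℝ) / 400)),
      (Lq s3 (1 / 2 + t) - Lq s3 (p0 + q0)) - (Lq s4 (1 / 2 + t) - Lq s4 q0) ≤
        lr (cW d h k) / 2 := by
  have h1 := csn_pos _ hk
  have h2 := dh_pos hd
  have hs3 := hd.B.h3
  have hs4 := hd.B.h4
  have hP := P_pos hd
  have hQ := q_pos hd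
  obtain ⟨k1, k2, k3⟩ := w_sel (a := csn (h * (k + 1)) + d.s3h) (b := csn (h * (k + 1)) + d.s4l)
    (c := csn (h * k) + 1 + d.s3h) (e := csn (h * k) + 1 + d.s4l) (f := d.dh + d.s4h)
    (g := d.cl + d.s3l) (by omega) (by omega) (by omega) (by omega) (by omega) hc
  have k2' : 0 ≤ lr (cW d h k) := k2
  have k3' : max (lr (csn (h * (k + 1)) + d.s3h, csn (h * (k + 1)) + d.s4l))
      (lr (csn (h * k) + 1 + d.s3h, csn (h * k) + 1 + d.s4l)) + lr (d.dh + d.s4h, d.cl + d.s3l) ≤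
      lr (cW d h k) := k3
  refine ⟨by linarith, fun t ht => ?_⟩
  have hk' : ((h * (k + 1) : ℕ) : ℝ) ≤ (160 : ℕ) := by exact_mod_cast hk
  push_cast at hk'
  have ht0 : 0 ≤ t := le_trans (by positivity) ht.1
  have ht1 : t ≤ 2 / 5 := by linarith [ht.2]
  have hkk : h * k ≤ h * (k + 1) := Nat.mul_le_mul_left h (Nat.le_succ k)
  have c0 := (csn_ok (k := h * (k + 1)) (by omega)).1
  have c1 := (csn_ok (k := h * k) (by omega)).2
  have hX0 : Sn (1 / 2 + ((h * (k + 1) : ℕ) : ℝ) / 400) ≤ Sn (1 / 2 + t) :=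
    Sn_anti (by linarith) (by push_cast; linarith [ht.2]) (by push_cast; linarith)
  have hX1 : Sn (1 / 2 + t) ≤ Sn (1 / 2 + ((h * k : ℕ) : ℝ) / 400) := by
    apply Sn_anti _ _ (by linarith)
    · have : (0 : ℝ) ≤ ((h * k : ℕ) : ℝ) / 400 := by positivity
      linarith
    · push_cast
      linarith [ht.1]
  have hXp : 0 < Sn (1 / 2 + t) := Sn_pos (by linarith) (by linarith)
  have r0 : (0 : ℝ) < csn (h * (k + 1)) := by exact_mod_cast h1
  have rs3 : (0 : ℝ) ≤ d.s3h := Nat.cast_nonneg _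
  have rs4 : (0 : ℝ) ≤ d.s4l := Nat.cast_nonneg _
  have rg : (0 : ℝ) < (d.cl : ℝ) + d.s3l := by exact_mod_cast k1
  have m1 := r_mid (c0 := (csn (h * (k + 1)) : ℕ)) (c1 := ((csn (h * k) : ℕ) : ℝ) + 1)
    (A := (d.s3h : ℕ)) (B := (d.s4l : ℕ)) (X := 1048576 * Sn (1 / 2 + t))
    (c0.trans (u_mul hX0)) ((u_mul hX1).trans c1) (by linarith) (by linarith)
  have m2 := Real.log_le_log (show 0 < 1048576 * Sn (1 / 2 + t) + 1048576 * s3 by linarith)
    (show 1048576 * Sn (1 / 2 + t) + 1048576 * s3 ≤ 1048576 * Sn (1 / 2 + t) + d.s3h by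
      linarith [hd.s32])
  have m3 := Real.log_le_log (show 0 < 1048576 * Sn (1 / 2 + t) + d.s4l by linarith)
    (show 1048576 * Sn (1 / 2 + t) + d.s4l ≤ 1048576 * Sn (1 / 2 + t) + 1048576 * s4 by
      linarith [hd.s41])
  have m4 := Real.log_le_log (show 0 < 1048576 * Sn q0 + 1048576 * s4 by linarith)
    (show 1048576 * Sn q0 + 1048576 * s4 ≤ (d.dh : ℝ) + d.s4h by linarith [hd.d2, hd.s42])
  have m5 := Real.log_le_log rg
    (show (d.cl : ℝ) + d.s3l ≤ 1048576 * Sn (p0 + q0) + 1048576 * s3 by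
      linarith [hd.c1, hd.s31])
  have e1 := lg_sub (s := s3) (t := 1 / 2 + t) (s' := s4) (t' := 1 / 2 + t) (by linarith)
    (by linarith)
  have e2 := lg_sub (s := s4) (t := q0) (s' := s3) (t' := p0 + q0) (by linarith) (by linarith)
  unfold lr at k3'
  push_cast at k3' m1
  unfold lr
  linarith

/-- **The test `tJ`.** -/
theorem tJ_core {n h g hw : ℕ} (hn : n = 1 ∨ n = 2) (hh0 : 0 < h) (hh : h ∣ 40) (hhg : h * g = 8)
    (hwg : hw * g = 20) (hd : d.Ok s1 s4 s3 s2 g5 p0 q0 qb) (ht : tJ d n h g = true) :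
    (∀ p, 0 ≤ p → p ≤ 1 / 5 → 0 < VV n s1 s4 s3 p0 q0 p (9 / 10)) ∧
    (∀ q, 1 / 2 ≤ q → q ≤ 9 / 10 → 0 < VV n s1 s4 s3 p0 q0 0 q) := by
  have hg0 : 0 < g := by
    rcases Nat.eq_zero_or_pos g with h1 | h1
    · rw [h1, mul_zero] at hhg
      omega
    · exact h1
  have hw0 : 0 < hw := by
    rcases Nat.eq_zero_or_pos hw with h1 | h1
    · rw [h1, zero_mul] at hwg
      omega
    · exact h1
  have hdiv : Nat.div 20 g = hw := Nat.div_eq_of_eq_mul_left hg0 hwg.symm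
  unfold tJ at ht
  obtain ⟨hneg, ht⟩ := cond_and ht
  obtain ⟨hpos, ht⟩ := cond_and ht
  rw [prG_eq, fN_eq, hdiv, prW_eq] at ht
  simp only [zero_add, one_mul] at ht
  -- positivity
  have hs3 := hd.B.h3
  have hs4 := hd.B.h4
  have hP := P_pos hd
  have hQ := q_pos hd
  have hhR : (0 : ℝ) < h := by exact_mod_cast hh0
  have hwR : (0 : ℝ) < hw := by exact_mod_cast hw0
  have hgR : (0 : ℝ) < g := by exact_mod_cast hg0
  have hhgR : (h : ℝ) * g = 8 := by exact_mod_cast hhg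
  have hwgR : (hw : ℝ) * g = 20 := by exact_mod_cast hwg
  have w160 : ∀ k < 8 * g, hw * (k + 1) ≤ 160 := fun k hk => by
    have : hw * (k + 1) ≤ hw * (8 * g) := Nat.mul_le_mul_left hw hk
    have e : hw * (8 * g) = 160 := by
      rw [show hw * (8 * g) = 8 * (hw * g) by ring, hwg]
    omega
  have hD : 0 < ∏ j ∈ Finset.range (mcl d h), (cG d n h j).2 :=
    Finset.prod_pos (fun j _ => cG_pos2 hd hn h j)
  have hWN : 0 < ∏ j ∈ Finset.range (Nat.mul 8 g), (cW d hw j).1 :=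
    Finset.prod_pos (fun j hj => cW_pos1 hd (w160 j (Finset.mem_range.1 hj)))
  obtain ⟨hN, hWD, hB', hE', key⟩ := finR_ok hD hWN (show 0 < Nat.add 1048576 d.s3l from
    Nat.lt_of_lt_of_le (by norm_num) (Nat.le_add_right 1048576 d.s3l))
    (show 0 < Nat.add 1048576 d.s4l from
    Nat.lt_of_lt_of_le (by norm_num) (Nat.le_add_right 1048576 d.s4l)) ht
  have hG1 : ∀ k < mcl d h, 0 < (cG d n h k).1 := fun k hk => Nat.pos_of_ne_zero
    (Finset.prod_ne_zero_iff.1 hN.ne' k (Finset.mem_range.2 hk))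
  have hW2 : ∀ k < 8 * g, 0 < (cW d hw k).2 := fun k hk => Nat.pos_of_ne_zero
    (Finset.prod_ne_zero_iff.1 hWD.ne' k (Finset.mem_range.2 hk))
  rw [lr_prod hG1 (fun k _ => cG_pos2 hd hn h k),
    lr_prod (m := Nat.mul 8 g) (fun k hk => cW_pos1 hd (w160 k hk)) hW2] at key
  -- the number of cells
  have hm : ((mcl d h : ℕ) : ℝ) * ((h : ℝ) / 400) ≤ p0 := by
    have h1 : mcl d h * (1048576 * h) ≤ 400 * d.pl := Nat.div_mul_le_self (400 * d.pl) (1048576 * h)
    have h2 : ((mcl d h * (1048576 * h) : ℕ) : ℝ) ≤ ((400 * d.pl : ℕ) : ℝ) := by exact_mod_cast h1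
    push_cast at h2
    linarith [hd.p1]
  have hb : ∀ k < mcl d h, ((h * (k + 1) : ℕ) : ℝ) / 400 ≤ p0 := fun k hk => by
    have h1 := cell_le (h := (h : ℝ) / 400) (by positivity) hk
    push_cast
    linarith
  have cG' := fun k (hk : k < mcl d h) => cG_ok hd hn hh0 (hb k hk) (hG1 k hk)
  have cW' := fun k (hk : k < 8 * g) => cW_ok hd (w160 k hk) (hW2 k hk)
  -- the slacks
  obtain ⟨e3, i3, he3, he3'⟩ : ∃ e3 : ℝ,
      200 * (g : ℝ) * e3 = ((cond (negT d) (Nat.mul 14 g) 0 : ℕ) : ℝ) *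
        lr (Nat.add 1048576 d.s3l, Nat.add d.cl d.s3l) ∧
      (∀ p, 0 ≤ p → p ≤ 1 / 5 → Dq s3 (p0 + q0) (p + 1 / 2) ≤ e3) ∧ 0 ≤ e3 := by
    cases hT : negT d with
    | false =>
      refine ⟨0, by simp, fun p hp hp' => ?_, le_rfl⟩
      have h1 : 67108864 ≤ d.tl := by
        by_contra h4
        have : negT d = true := Nat.ble_eq_true_of_le (show Nat.succ d.tl ≤ 67108864 by omega)
        rw [hT] at this
        exact absurd this (by simp)
      have h1' : (67108864 : ℝ) ≤ d.tl := by exact_mod_cast h1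
      have := slack3 (d := 0) hs3 hd.B.hP0 hd.B.hP1 le_rfl (by linarith [hd.t1]) p hp hp'
      linarith
    | true =>
      rw [hT] at hneg hB'
      have h1 : 67035464 ≤ d.tl := Nat.le_of_ble_eq_true hneg
      have h1' : (67035464 : ℝ) ≤ d.tl := by exact_mod_cast h1
      have hB0 : 0 < d.cl + d.s3l := by
        rcases hB' with h2 | h2
        · exfalso
          have h2' : 14 * g = 0 := h2
          omega
        · exact h2
      have hB0' : (0 : ℝ) < (d.cl : ℝ) + d.s3l := by exact_mod_cast hB0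
      have hcl : d.cl ≤ 1048576 := hd.l1.2.1
      have hcl' : (d.cl : ℝ) ≤ 1048576 := by exact_mod_cast hcl
      have h0 : 0 ≤ lr (Nat.add 1048576 d.s3l, Nat.add d.cl d.s3l) := by
        rw [← lr_one]
        exact cross Nat.one_pos Nat.one_pos
          (Nat.lt_of_lt_of_le (by norm_num) (Nat.le_add_right 1048576 d.s3l)) hB0 (by
            rw [one_mul, mul_one]
            exact Nat.add_le_add_right hcl d.s3l)
      refine ⟨7 / 100 * lr (Nat.add 1048576 d.s3l, Nat.add d.cl d.s3l), ?_, fun p hp hp' => ?_,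
        by positivity⟩
      · show _ = ((14 * g : ℕ) : ℝ) * _
        push_cast
        ring
      · have h2 := slack3 (d := 7 / 100) hs3 hd.B.hP0 hd.B.hP1 (by norm_num)
          (by linarith [hd.t1]) p hp hp'
        have h3 := r_hi (x := 1048576) (y := d.cl) (σ := d.s3l) (Y := 1048576 * Sn (p0 + q0))
          (s := 1048576 * s3) hd.c1 hcl' hd.s31 hB0' (by norm_num) (Nat.cast_nonneg _)
        have h4 : Real.log (1 + s3) - Real.log (Sn (p0 + q0) + s3) =
            Real.log (1048576 + 1048576 * s3) -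
              Real.log (1048576 * Sn (p0 + q0) + 1048576 * s3) := by
          rw [← mul_add, show (1048576 : ℝ) + 1048576 * s3 = 1048576 * (1 + s3) by ring,
            Real.log_mul (by norm_num) (by linarith), Real.log_mul (by norm_num) (by linarith)]
          ring
        have h5 : lr (Nat.add 1048576 d.s3l, Nat.add d.cl d.s3l) =
            Real.log (1048576 + d.s3l) - Real.log (d.cl + d.s3l) := by
          unfold lr
          show Real.log ((1048576 + d.s3l : ℕ) : ℝ) - Real.log ((d.cl + d.s3l : ℕ) : ℝ) = _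
          push_cast
          rfl
        rw [h5]
        rw [h4] at h2
        linarith
  obtain ⟨e4, i4, he4⟩ : ∃ e4 : ℝ,
      200 * (g : ℝ) * e4 = ((cond (posS d) (Nat.mul 3 g) 0 : ℕ) : ℝ) *
        lr (Nat.add 1048576 d.s4l, Nat.add d.dl d.s4l) ∧ -e4 ≤ Dq s4 q0 (1 / 2) := by
    cases hT : posS d with
    | false =>
      refine ⟨0, by simp, ?_⟩
      have h1 : d.sh ≤ 67108864 := by
        by_contra h4
        have : posS d = true := Nat.ble_eq_true_of_le (show Nat.succ 67108864 ≤ d.sh by omega)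
        rw [hT] at this
        exact absurd this (by simp)
      have h1' : (d.sh : ℝ) ≤ 67108864 := by exact_mod_cast h1
      have := slack4 (d := 0) hs4 hd.B.hq0 hd.B.hq1 le_rfl (by linarith [hd.o2])
      linarith
    | true =>
      rw [hT] at hpos hE'
      have h1 : d.sh ≤ 67140321 := Nat.le_of_ble_eq_true hpos
      have h1' : (d.sh : ℝ) ≤ 67140321 := by exact_mod_cast h1
      have hB0 : 0 < d.dl + d.s4l := by
        rcases hE' with h2 | h2
        · exfalso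
          have h2' : 3 * g = 0 := h2
          omega
        · exact h2
      have hB0' : (0 : ℝ) < (d.dl : ℝ) + d.s4l := by exact_mod_cast hB0
      have hcl : d.dl ≤ 1048576 := hd.l1.2.2.1
      have hcl' : (d.dl : ℝ) ≤ 1048576 := by exact_mod_cast hcl
      refine ⟨3 / 200 * lr (Nat.add 1048576 d.s4l, Nat.add d.dl d.s4l), ?_, ?_⟩
      · show _ = ((3 * g : ℕ) : ℝ) * _
        push_cast
        ring
      · have h2 := slack4 (d := 3 / 100) hs4 hd.B.hq0 hd.B.hq1 (by norm_num)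
          (by linarith [hd.o2])
        have h3 := r_hi (x := 1048576) (y := d.dl) (σ := d.s4l) (Y := 1048576 * Sn q0)
          (s := 1048576 * s4) hd.d1 hcl' hd.s41 hB0' (by norm_num) (Nat.cast_nonneg _)
        have h4 : Real.log (1 + s4) - Real.log (Sn q0 + s4) =
            Real.log (1048576 + 1048576 * s4) - Real.log (1048576 * Sn q0 + 1048576 * s4) := by
          rw [← mul_add, show (1048576 : ℝ) + 1048576 * s4 = 1048576 * (1 + s4) by ring,
            Real.log_mul (by norm_num) (by linarith), Real.log_mul (by norm_num) (by linarith)]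
          ring
        have h5 : lr (Nat.add 1048576 d.s4l, Nat.add d.dl d.s4l) =
            Real.log (1048576 + d.s4l) - Real.log (d.dl + d.s4l) := by
          unfold lr
          show Real.log ((1048576 + d.s4l : ℕ) : ℝ) - Real.log ((d.dl + d.s4l : ℕ) : ℝ) = _
          push_cast
          rfl
        rw [h5]
        rw [h4] at h2
        linarith
  have main := VJ' (n := n) hd.B (h := (h : ℝ) / 400) (hw := (hw : ℝ) / 400) (m := mcl d h)
    (mw := 8 * g) (g := fun k => lr (cG d n h k) / 2) (w := fun k => lr (cW d hw k) / 2)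
    (e := fun k => lr (eNum d (h * (k + 1))) / 2) (e3 := e3) (e4 := e4) (by positivity) hm
    (by positivity) (by push_cast; linarith) (fun k _ => e_ok hd h k)
    (fun k hk => by
      have := (cG' k hk).2
      rw [show ((h * (k + 1) : ℕ) : ℝ) / 400 = ((k : ℝ) + 1) * ((h : ℝ) / 400) by
        push_cast
        ring] at this
      exact this)
    (fun k hk t h1 h2 h3 => by
      have k1 := (cG' k hk).1
      have k2 := g_ok hd hh0 hh h1 h2 h3
      linarith)
    (fun k hk => (cW' k hk).1) (fun k hk => (cW' k hk).2) he3 he3' he4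
  have e5 : ∀ m (f : ℕ → ℝ), ∑ k ∈ Finset.range m, f k / 2 = (∑ k ∈ Finset.range m, f k) / 2 :=
    fun m f => by rw [Finset.sum_div]
  rw [e5, e5] at main
  set G := ∑ k ∈ Finset.range (mcl d h), lr (cG d n h k) with hG
  set W := ∑ k ∈ Finset.range (8 * g), lr (cW d hw k) with hW
  have key' : 5 * W + 200 * (g : ℝ) * e3 + 200 * (g : ℝ) * e4 < 2 * G := by
    rw [i3, i4]
    exact key
  have fin : 0 < (h : ℝ) / 400 * (G / 2) - (hw : ℝ) / 400 * (W / 2) - e3 - e4 := by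
    have e6 : 200 * (g : ℝ) * ((h : ℝ) / 400 * (G / 2) - (hw : ℝ) / 400 * (W / 2) - e3 - e4) =
        ((h : ℝ) * g) * (G / 4) - ((hw : ℝ) * g) * (W / 4) - 200 * (g : ℝ) * e3 -
          200 * (g : ℝ) * e4 := by ring
    rw [hhgR, hwgR] at e6
    have e7 : 0 < 200 * (g : ℝ) *
        ((h : ℝ) / 400 * (G / 2) - (hw : ℝ) / 400 * (W / 2) - e3 - e4) := by
      rw [e6]
      linarith
    exact pos_of_mul_pos_right e7 (by positivity)
  exact ⟨fun p hp hp' => lt_of_lt_of_le fin (main.1 p hp hp'),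
    fun q hq hq' => lt_of_lt_of_le fin (main.2 q hq hq')⟩

end N3J

/-- **The test `tJ`.** -/
theorem tJ_ok {d : Dx} {n h g : ℕ} {s1 s4 s3 s2 g5 p0 q0 qb : ℝ} (hn : n = 1 ∨ n = 2)
    (hhg : (h = 8 ∧ g = 1) ∨ (h = 4 ∧ g = 2) ∨ (h = 2 ∧ g = 4))
    (hd : d.Ok s1 s4 s3 s2 g5 p0 q0 qb) (ht : tJ d n h g = true) :
    (∀ p, 0 ≤ p → p ≤ 1 / 5 → 0 < VV n s1 s4 s3 p0 q0 p (9 / 10)) ∧
    (∀ q, 1 / 2 ≤ q → q ≤ 9 / 10 → 0 < VV n s1 s4 s3 p0 q0 0 q) := by
  rcases hhg with ⟨rfl, rfl⟩ | ⟨rfl, rfl⟩ | ⟨rfl, rfl⟩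
  · exact N3J.tJ_core (hw := 20) hn (by norm_num) ⟨5, rfl⟩ rfl rfl hd ht
  · exact N3J.tJ_core (hw := 10) hn (by norm_num) ⟨10, rfl⟩ rfl rfl hd ht
  · exact N3J.tJ_core (hw := 5) hn (by norm_num) ⟨20, rfl⟩ rfl rfl hd ht

end Pool.Agent.S5.Y3
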