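import Pool.Agent.S5.I.Y3N3a
import Pool.Agent.S5.I.Y3E
import Pool.Agent.S5.I.Y3V

/-!
# The flats of a node with three half twists: the value on `p = 0`, `q ≤ 1/2`
-/

set_option autoImplicit false

namespace Pool.Agent.S5.Y3

open MeasureTheory Filter Topology Set Pool.Agent.S5.C2 Pool.Agent.S5.Num Pool.Agent.S5.K3

namespace N3L

open N3a

theorem cond_ble {α : Type} (a b : ℕ) (x y : α) :
    cond (Nat.ble a b) x y = if a ≤ b then x else y := by
  by_cases h : a ≤ b
  · rw [if_pos h, Nat.ble_eq_true_of_le h, cond_true]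
  · rw [if_neg h]
    cases h1 : Nat.ble a b
    · rfl
    · exact absurd (Nat.le_of_ble_eq_true h1) h

/-- The larger of two ratios, times `f / g`, or `1`. -/
def mlP (a b c e f g : ℕ) : ℕ × ℕ :=
  if (if a * e ≤ c * b then e else b) * g ≤ (if a * e ≤ c * b then c else a) * f then
    ((if a * e ≤ c * b then c else a) * f, (if a * e ≤ c * b then e else b) * g) else (1, 1)

theorem mlR_eq (a b c e f g N D : ℕ) (k : ℕ → ℕ → Bool) : mlR a b c e f g N D k =
    k (N * (mlP a b c e f g).1) (D * (mlP a b c e f g).2) := by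
  unfold mlR mlP
  simp only [fN_eq, cond_ble, Nat.mul_eq]
  split_ifs <;> simp

theorem mlP_ok {a b c e f g : ℕ} (hb : 0 < b) (he : 0 < e) (hv : (mlP a b c e f g).2 ≠ 0) :
    (mlP a b c e f g).2 ≤ (mlP a b c e f g).1 ∧ ∀ x : ℝ, 0 < x →
      (x * ((b : ℝ) * g) ≤ (a : ℝ) * f ∨ x * ((e : ℝ) * g) ≤ (c : ℝ) * f) →
      Real.log x ≤ Real.log (mlP a b c e f g).1 - Real.log (mlP a b c e f g).2 := by
  -- the chosen ratio
  have key : ∀ {u v : ℕ}, (∀ x : ℝ, 0 < x →
      (x * ((b : ℝ) * g) ≤ (a : ℝ) * f ∨ x * ((e : ℝ) * g) ≤ (c : ℝ) * f) → x * v ≤ u) →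
      (if v ≤ u then (u, v) else (1, 1) : ℕ × ℕ).2 ≠ 0 →
      (if v ≤ u then (u, v) else (1, 1) : ℕ × ℕ).2 ≤ (if v ≤ u then (u, v) else (1, 1) : ℕ × ℕ).1 ∧
      ∀ x : ℝ, 0 < x →
      (x * ((b : ℝ) * g) ≤ (a : ℝ) * f ∨ x * ((e : ℝ) * g) ≤ (c : ℝ) * f) →
      Real.log x ≤ Real.log (if v ≤ u then (u, v) else (1, 1) : ℕ × ℕ).1 -
        Real.log (if v ≤ u then (u, v) else (1, 1) : ℕ × ℕ).2 := by
    intro u v hx h0
    by_cases h : v ≤ u
    · simp only [if_pos h] at h0 ⊢
      have hv0 : (0 : ℝ) < v := by exact_mod_cast Nat.pos_of_ne_zero h0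
      have hu0 : (0 : ℝ) < u := by
        have : (v : ℝ) ≤ u := by exact_mod_cast h
        linarith only [this, hv0]
      refine ⟨h, fun x hx0 hh => ?_⟩
      have h1 := hx x hx0 hh
      have h2 := Real.log_le_log (mul_pos hx0 hv0) h1
      rw [Real.log_mul hx0.ne' hv0.ne'] at h2
      linarith only [h2]
    · simp only [if_neg h] at h0 ⊢
      refine ⟨le_rfl, fun x hx0 hh => ?_⟩
      have h1 := hx x hx0 hh
      have h3 : u < v := by omega
      have h4 : (u : ℝ) + 1 ≤ v := by exact_mod_cast h3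
      have hu : (0 : ℝ) ≤ u := Nat.cast_nonneg _
      have h5 : x ≤ 1 := by
        by_contra h6
        rw [not_le] at h6
        nlinarith
      have h6 := Real.log_nonpos hx0.le h5
      simpa using h6
  have hb' : (0 : ℝ) < b := by exact_mod_cast hb
  have he' : (0 : ℝ) < e := by exact_mod_cast he
  have hf' : (0 : ℝ) ≤ f := Nat.cast_nonneg _
  have hg' : (0 : ℝ) ≤ g := Nat.cast_nonneg _
  unfold mlP at hv ⊢
  by_cases h1 : a * e ≤ c * b
  · simp only [if_pos h1] at hv ⊢
    refine key ?_ hv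
    intro x hx hh
    have h1' : (a : ℝ) * e ≤ c * b := by exact_mod_cast h1
    push_cast
    rcases hh with hh | hh
    · have h2 : x * ((e : ℝ) * g) * b ≤ (c : ℝ) * f * b := by
        have h3 := mul_le_mul_of_nonneg_right hh he'.le
        have h4 := mul_le_mul_of_nonneg_right h1' hf'
        linarith only [h4, h3]
      exact le_of_mul_le_mul_right h2 hb'
    · exact hh
  · simp only [if_neg h1] at hv ⊢
    refine key ?_ hv
    intro x hx hh
    have h1' : (c : ℝ) * b ≤ a * e := by
      have : c * b ≤ a * e := by omega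
      exact_mod_cast this
    push_cast
    rcases hh with hh | hh
    · exact hh
    · have h2 : x * ((b : ℝ) * g) * e ≤ (a : ℝ) * f * e := by
        have h3 := mul_le_mul_of_nonneg_right hh hb'.le
        have h4 := mul_le_mul_of_nonneg_right h1' hf'
        linarith only [h4, h3]
      exact le_of_mul_le_mul_right h2 he'

/-- The factors of the loop `prL`. -/
def Ul (d : Dx) (h ta sa i : ℕ) : ℕ × ℕ :=
  if 1048576 * (h * (i + 1)) ≤ 400 * ta then (1, 1)
  else if 400 * sa ≤ 1048576 * (h * i) then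
    mlP (csn (h * (i + 1)) + d.s4h) (csn (h * (i + 1)) + d.s3l) (csn (h * i) + 1 + d.s4h)
      (csn (h * i) + 1 + d.s3l) (d.ch + d.s3h) (d.dl + d.s4h)
  else mlP 1 (csn (h * (i + 1)) + d.s3l) 1 (csn (h * (i + 1)) + d.s3l) (d.ch + d.s3l) 1

theorem prL_eq (d : Dx) (h ta sa : ℕ) (k : ℕ → ℕ → Bool) (m : ℕ) : prL d h ta sa k m 0 1 1 =
    k (∏ j ∈ Finset.range m, (Ul d h ta sa j).1) (∏ j ∈ Finset.range m, (Ul d h ta sa j).2) := by
  unfold prL
  rw [loop (X := fun i => (Ul d h ta sa i).1) (Y := fun i => (Ul d h ta sa i).2)]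
  · simp only [zero_add, one_mul]
  · intro ih i N D
    unfold Ul
    simp only [fN_eq, cond_ble, mlR_eq, Nat.mul_eq, Nat.add_eq, Nat.succ_eq_add_one]
    split_ifs <;> simp

theorem prR_eq (d : Dx) {n : ℕ} (hn : n = 1 ∨ n = 2) (h : ℕ) (k : ℕ → ℕ → Bool) (m : ℕ) :
    prR d n h k m 0 1 1 =
    k (∏ j ∈ Finset.range m, (d.al + d.s1h) ^ n * (fst' (eNum d (h * (j + 1))) *
        fst' (eNum d (h * (j + 1)))))
      (∏ j ∈ Finset.range m, (tn (h * (j + 1)) + 1 + d.s1h) ^ n *
        (snd' (eNum d (h * (j + 1))) * snd' (eNum d (h * (j + 1))))) := by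
  unfold prR
  rw [loop (X := fun j => (d.al + d.s1h) ^ n * (fst' (eNum d (h * (j + 1))) *
        fst' (eNum d (h * (j + 1))))) (Y := fun j => (tn (h * (j + 1)) + 1 + d.s1h) ^ n *
        (snd' (eNum d (h * (j + 1))) * snd' (eNum d (h * (j + 1)))))]
  · simp only [zero_add, one_mul]
  · intro ih i N D
    simp only [fN_eq, pwn_eq hn, sqn_eq, Nat.mul_eq, Nat.add_eq, Nat.succ_eq_add_one]

theorem amn_le {a b f : ℕ} {x : ℝ} (h1 : (a : ℝ) ≤ x + f) (h2 : x + f ≤ b) :
    ((amn a b f : ℕ) : ℝ) ≤ |x| := by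
  have e : amn a b f = (a - f) + (f - b) := rfl
  rw [e, Nat.cast_add]
  rcases le_total a f with h3 | h3
  · rw [Nat.sub_eq_zero_of_le h3]
    rcases le_total f b with h4 | h4
    · rw [Nat.sub_eq_zero_of_le h4]
      simp
    · rw [Nat.cast_sub h4]
      have := neg_abs_le x
      push_cast
      linarith only [this, h2]
  · have h5 : (f : ℝ) ≤ a := by exact_mod_cast h3
    have h6 : f ≤ b := by
      have : (f : ℝ) ≤ b := by linarith only [h5, h2, h1]
      exact_mod_cast this
    rw [Nat.sub_eq_zero_of_le h6, Nat.cast_sub h3]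
    have := le_abs_self x
    push_cast
    linarith only [this, h1]

theorem le_amx {a b f : ℕ} {x : ℝ} (h1 : (a : ℝ) ≤ x + f) (h2 : x + f ≤ b) :
    |x| ≤ ((amx a b f : ℕ) : ℝ) := by
  have e : amx a b f = max (b - f) (f - a) := by
    unfold amx
    rw [mxn_eq]
    rfl
  rw [e, Nat.cast_max]
  rcases le_total 0 x with h3 | h3
  · rw [abs_of_nonneg h3]
    apply le_max_of_le_left
    have h4 : f ≤ b := by
      have : (f : ℝ) ≤ b := by linarith only [h3, h2]
      exact_mod_cast this
    rw [Nat.cast_sub h4]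
    linarith only [h2]
  · rw [abs_of_nonpos h3]
    apply le_max_of_le_right
    have h4 : a ≤ f := by
      have : (a : ℝ) ≤ f := by linarith only [h3, h1]
      exact_mod_cast this
    rw [Nat.cast_sub h4]
    linarith only [h1]

theorem Sn_half_sub (t : ℝ) : Sn (1 / 2 - t) = Sn (1 / 2 + t) := by
  rw [← Sn_one_sub (1 / 2 + t)]
  congr 1
  ring

theorem Sn_le_abs {x t : ℝ} (h : |x - 1 / 2| ≤ t) (ht : t ≤ 1 / 2) : Sn (1 / 2 - t) ≤ Sn x := by
  have h1 := abs_le.1 h
  exact Sn_ge (by linarith only [ht]) (by linarith only [h1.1]) (by linarith only [h1.2])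

theorem Sn_eq_abs {x t : ℝ} (h : |x - 1 / 2| = t) : Sn x = Sn (1 / 2 - t) := by
  rcases le_total 0 (x - 1 / 2) with h1 | h1
  · rw [abs_of_nonneg h1] at h
    rw [Sn_half_sub, ← h]
    congr 1
    ring
  · rw [abs_of_nonpos h1] at h
    rw [← h]
    congr 1
    ring

theorem csn_pos {k : ℕ} (h : k ≤ 160) : 0 < csn k := by
  have h1 := (csn_ok (k := k) (by omega)).2
  have hk : (k : ℝ) ≤ 160 := by exact_mod_cast h
  have hk0 : (0 : ℝ) ≤ k := Nat.cast_nonneg _
  have h2 := Ed.Sn_ge_tenth (q := 1 / 2 + (k : ℝ) / 400) (by linarith only [hk]) (by linarith only [hk])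
  have h3 : (0 : ℝ) < (csn k : ℕ) := by linarith only [h2, h1]
  exact_mod_cast h3

theorem core_r {P Q c S3 S4 ch s3h dl s4h s3l cx : ℝ} (a1 : 0 < P + S3) (a2 : 0 < c + S4)
    (a3 : 0 < c + S3) (a4 : 0 < Q + S4) (a5 : c ≤ Q) (a7 : dl ≤ Q) (a8 : S4 ≤ s4h)
    (a9 : P + S3 ≤ ch + s3h) (b0 : 0 ≤ cx + s3l) (b1 : 0 ≤ dl + s4h) (b2 : s3l ≤ S3)
    (b4 : 0 ≤ cx + s4h) (b3 : (c + s4h) * (cx + s3l) ≤ (cx + s4h) * (c + s3l)) :
    (P + S3) * (c + S4) / ((c + S3) * (Q + S4)) * ((cx + s3l) * (dl + s4h)) ≤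
      (cx + s4h) * (ch + s3h) := by
  rw [div_mul_eq_mul_div, div_le_iff₀ (mul_pos a3 a4)]
  have e1 : (c + S4) * (dl + s4h) ≤ (c + s4h) * (Q + S4) := by
    have e2 : (c + S4) * (dl + s4h) ≤ (c + S4) * (Q + s4h) :=
      mul_le_mul_of_nonneg_left (by linarith only [a7]) a2.le
    have e3 : (c + S4) * (Q + s4h) ≤ (c + s4h) * (Q + S4) := by
      linarith only [mul_nonneg (sub_nonneg.2 a5) (sub_nonneg.2 a8)]
    linarith only [e3, e2]
  have e4 : (c + s4h) * (cx + s3l) ≤ (cx + s4h) * (c + S3) :=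
    b3.trans (mul_le_mul_of_nonneg_left (by linarith only [b2]) b4)
  have e5 : (c + S4) * (dl + s4h) * (cx + s3l) ≤ (Q + S4) * ((cx + s4h) * (c + S3)) := by
    have e6 := mul_le_mul_of_nonneg_right e1 b0
    have e7 := mul_le_mul_of_nonneg_left e4 a4.le
    calc (c + S4) * (dl + s4h) * (cx + s3l) ≤ (c + s4h) * (Q + S4) * (cx + s3l) := e6
      _ = (Q + S4) * ((c + s4h) * (cx + s3l)) := by ring
      _ ≤ _ := e7
  have e8 : 0 ≤ (c + S4) * (dl + s4h) * (cx + s3l) := mul_nonneg (mul_nonneg a2.le b1) b0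
  calc (P + S3) * (c + S4) * ((cx + s3l) * (dl + s4h))
      = (P + S3) * ((c + S4) * (dl + s4h) * (cx + s3l)) := by ring
    _ ≤ (ch + s3h) * ((Q + S4) * ((cx + s4h) * (c + S3))) :=
        mul_le_mul a9 e5 e8 (by linarith only [a9, a1])
    _ = (cx + s4h) * (ch + s3h) * ((c + S3) * (Q + S4)) := by ring

/-- The factors are upper bounds. -/
theorem Ul_ok {d : Dx} {hw ta sa i : ℕ} {s1 s4 s3 s2 g5 p0 q0 qb : ℝ}
    (hd : d.Ok s1 s4 s3 s2 g5 p0 q0 qb) (hta : (ta : ℝ) ≤ 1048576 * |p0 + q0 - 1 / 2|)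
    (hsa : 1048576 * |q0 - 1 / 2| ≤ sa) (hi : hw * (i + 1) ≤ 160)
    (hV : (Ul d hw ta sa i).2 ≠ 0) :
    (Ul d hw ta sa i).2 ≤ (Ul d hw ta sa i).1 ∧
    ∀ t ∈ Icc ((i : ℝ) * ((hw : ℝ) / 400)) (((i : ℝ) + 1) * ((hw : ℝ) / 400)),
      |p0 + q0 - 1 / 2| ≤ t →
      (t < |q0 - 1 / 2| → Lq s3 (p0 + q0) - Lq s3 (1 / 2 - t) ≤
        (Real.log (Ul d hw ta sa i).1 - Real.log (Ul d hw ta sa i).2) / 2) ∧
      (|q0 - 1 / 2| ≤ t →
        (Lq s3 (p0 + q0) - Lq s3 (1 / 2 - t)) - (Lq s4 q0 - Lq s4 (1 / 2 - t)) ≤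
        (Real.log (Ul d hw ta sa i).1 - Real.log (Ul d hw ta sa i).2) / 2) := by
  have hB := hd.B
  have hs3 := hB.h3
  have hs4 := hB.h4
  have hiw : (hw : ℝ) * ((i : ℝ) + 1) ≤ 160 := by exact_mod_cast hi
  have hi0 : (0 : ℝ) ≤ i := Nat.cast_nonneg _
  have hw0 : (0 : ℝ) ≤ hw := Nat.cast_nonneg _
  have c1p := csn_pos hi
  have c1p' : (1 : ℝ) ≤ (csn (hw * (i + 1)) : ℕ) := by exact_mod_cast c1p
  -- facts about a point of the cell
  have pt : ∀ t ∈ Icc ((i : ℝ) * ((hw : ℝ) / 400)) (((i : ℝ) + 1) * ((hw : ℝ) / 400)),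
      0 ≤ t ∧ t ≤ 2 / 5 ∧ ((csn (hw * (i + 1)) : ℕ) : ℝ) ≤ 1048576 * Sn (1 / 2 - t) ∧
      1048576 * Sn (1 / 2 - t) ≤ ((csn (hw * i) : ℕ) : ℝ) + 1 := by
    intro t ht
    have t0 : 0 ≤ t := le_trans (by positivity) ht.1
    have t1 : t ≤ 2 / 5 := ht.2.trans (by linarith only [hiw])
    refine ⟨t0, t1, ?_, ?_⟩
    · have h1 := (csn_ok (k := hw * (i + 1)) (by omega)).1
      refine h1.trans ?_
      rw [Sn_half_sub]
      have e : ((hw * (i + 1) : ℕ) : ℝ) / 400 = ((i : ℝ) + 1) * ((hw : ℝ) / 400) := by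
        push_cast
        ring
      rw [e]
      have h2 := Sn_anti (t := 1 / 2 + t) (t' := 1 / 2 + ((i : ℝ) + 1) * ((hw : ℝ) / 400))
        (by linarith only [t0]) (by linarith only [ht.2]) (by linarith only [hiw])
      linarith only [h2]
    · have h0 : hw * i ≤ 400 := by
        have : hw * i ≤ hw * (i + 1) := Nat.mul_le_mul_left _ (by omega)
        omega
      have h1 := (csn_ok (k := hw * i) h0).2
      refine le_trans ?_ h1
      rw [Sn_half_sub]
      have e : ((hw * i : ℕ) : ℝ) / 400 = (i : ℝ) * ((hw : ℝ) / 400) := by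
        push_cast
        ring
      rw [e]
      have h2 := Sn_anti (t := 1 / 2 + (i : ℝ) * ((hw : ℝ) / 400)) (t' := 1 / 2 + t)
        (by have : 0 ≤ (i : ℝ) * ((hw : ℝ) / 400) := by positivity
            linarith only [this]) (by linarith only [ht.1]) (by linarith only [t1])
      linarith only [h2]
  have hP0 : 0 < Sn (p0 + q0) := Sn_pos (by linarith only [hB.hP0]) (by linarith only [hB.hP1])
  have hQ0 : 0 < Sn q0 := Sn_pos (by linarith only [hB.hq0]) (by linarith only [hB.hq1])
  have hc2 := hd.c2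
  have hd1 := hd.d1
  have k31 := hd.s31
  have k32 := hd.s32
  have k42 := hd.s42
  -- the cases
  unfold Ul at hV ⊢
  by_cases hA : 1048576 * (hw * (i + 1)) ≤ 400 * ta
  · simp only [if_pos hA] at hV ⊢
    refine ⟨le_rfl, fun t ht hPt => ?_⟩
    obtain ⟨t0, t1, -, -⟩ := pt t ht
    have hA' : (1048576 : ℝ) * ((hw : ℝ) * ((i : ℝ) + 1)) ≤ 400 * ta := by exact_mod_cast hA
    have ht' : t = |p0 + q0 - 1 / 2| := by
      apply le_antisymm _ hPt
      have := ht.2
      linarith only [this, hA', hta]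
    have e1 : Sn (p0 + q0) = Sn (1 / 2 - t) := Sn_eq_abs ht'.symm
    have e2 : Lq s3 (p0 + q0) = Lq s3 (1 / 2 - t) := by
      rw [Lq_eq, Lq_eq, e1]
    have hp : 0 < Sn (1 / 2 - t) := Sn_pos (by linarith only [t1]) (by linarith only [hPt, hta])
    refine ⟨fun _ => ?_, fun hq => ?_⟩
    · rw [e2]
      simp
    · have h3 := Lq_mono_t (s := s4) hs4 (by linarith only [e1, hP0, hs4]) (Sn_le_abs hq (by linarith only [t1]))
      rw [e2]
      simp only [Nat.cast_one, Real.log_one]
      linarith only [h3]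
  · simp only [if_neg hA] at hV ⊢
    by_cases hS : 400 * sa ≤ 1048576 * (hw * i)
    · simp only [if_pos hS] at hV ⊢
      obtain ⟨m1, m2⟩ := mlP_ok (by omega) (by omega) hV
      have hg0 : 0 < d.dl + d.s4h := by
        by_contra h0
        have h1 : d.dl + d.s4h = 0 := by omega
        apply hV
        unfold mlP
        rw [h1]
        simp
      have hg0' : (0 : ℝ) < (d.dl : ℝ) + d.s4h := by exact_mod_cast hg0
      refine ⟨m1, fun t ht hPt => ?_⟩
      obtain ⟨t0, t1, t2, t3⟩ := pt t ht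
      have hS' : (400 : ℝ) * sa ≤ 1048576 * ((hw : ℝ) * i) := by exact_mod_cast hS
      have hqt : |q0 - 1 / 2| ≤ t := by
        have := ht.1
        linarith only [this, hS', hsa]
      refine ⟨fun h => absurd h (not_lt.2 hqt), fun _ => ?_⟩
      have hp : 0 < Sn (1 / 2 - t) := Sn_pos (by linarith only [t1]) (by linarith only [hPt, hta])
      have hcQ := Sn_le_abs hqt (by linarith only [t1])
      rw [Lq_sub_units (by linarith only [hP0, hs3]) (by linarith only [t2, c1p', hs3]), Lq_sub_units (by linarith only [hQ0,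
                                                                                                            hs4]) (by linarith only [t2,
                                                                                                                        c1p',
                                                                                                                        hs4])]
      set P := 1048576 * Sn (p0 + q0) with hP
      set Q := 1048576 * Sn q0 with hQ
      set c := 1048576 * Sn (1 / 2 - t) with hc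
      set S3 := 1048576 * s3 with hS3
      set S4 := 1048576 * s4 with hS4
      have p1 : 0 < P := by positivity
      have p2 : 0 < Q := by positivity
      have p3 : 0 < c := by positivity
      have p4 : 0 ≤ S3 := by positivity
      have p5 : 0 ≤ S4 := by positivity
      have p6 : c ≤ Q := by
        rw [hc, hQ]
        linarith only [hcQ]
      have l3 : (0 : ℝ) ≤ d.s3l := Nat.cast_nonneg _
      have l4 : (0 : ℝ) ≤ d.s4h := Nat.cast_nonneg _
      have h4 := m2 ((P + S3) * (c + S4) / ((c + S3) * (Q + S4))) (by positivity) ?_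
      · rw [Real.log_div (by positivity) (by positivity), Real.log_mul (by positivity)
          (by positivity), Real.log_mul (by positivity) (by positivity)] at h4
        linarith only [h4]
      · -- the bound
        rcases le_total (d.s3l : ℝ) d.s4h with hh | hh
        · left
          simp only [Nat.cast_add]
          exact core_r (by linarith only [hP0, hs3]) (by linarith only [hp, hs4]) (by linarith only [hp,
                                                                                        hs3]) (by linarith only [hQ0,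
                                                                                                    hs4]) p6 hd1 k42
            (by linarith only [k32, hc2]) (by linarith only []) hg0'.le k31 (by linarith only [])
            (by linarith only [mul_nonneg (sub_nonneg.2 t2) (sub_nonneg.2 hh)])
        · right
          simp only [Nat.cast_add, Nat.cast_one]
          exact core_r (by linarith only [hP0, hs3]) (by linarith only [hp, hs4]) (by linarith only [hp,
                                                                                        hs3]) (by linarith only [hQ0,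
                                                                                                    hs4]) p6 hd1 k42
            (by linarith only [k32, hc2]) (by linarith only []) hg0'.le k31 (by linarith only [])
            (by linarith only [mul_nonneg (sub_nonneg.2 t3) (sub_nonneg.2 hh)])
    · simp only [if_neg hS] at hV ⊢
      obtain ⟨m1, m2⟩ := mlP_ok (by omega) (by omega) hV
      refine ⟨m1, fun t ht hPt => ?_⟩
      obtain ⟨t0, t1, t2, t3⟩ := pt t ht
      have hp : 0 < Sn (1 / 2 - t) := Sn_pos (by linarith only [t1]) (by linarith only [hPt, hta])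
      have hcP := Sn_le_abs hPt (by linarith only [t1])
      have main : Lq s3 (p0 + q0) - Lq s3 (1 / 2 - t) ≤
          (Real.log (mlP 1 (csn (hw * (i + 1)) + d.s3l) 1 (csn (hw * (i + 1)) + d.s3l)
            (d.ch + d.s3l) 1).1 - Real.log (mlP 1 (csn (hw * (i + 1)) + d.s3l) 1
              (csn (hw * (i + 1)) + d.s3l) (d.ch + d.s3l) 1).2) / 2 := by
        rw [Lq_sub_units (by linarith only [hP0, hs3]) (by linarith only [t2, c1p', hs3])]
        set P := 1048576 * Sn (p0 + q0) with hP
        set c := 1048576 * Sn (1 / 2 - t) with hc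
        set S3 := 1048576 * s3 with hS3
        have p1 : 0 < P := by positivity
        have p3 : 0 < c := by positivity
        have p4 : 0 ≤ S3 := by positivity
        have p6 : c ≤ P := by
          rw [hc, hP]
          linarith only [hcP]
        have l3 : (0 : ℝ) ≤ d.s3l := Nat.cast_nonneg _
        have h4 := m2 ((P + S3) / (c + S3)) (by positivity) ?_
        · rw [Real.log_div (by positivity) (by positivity)] at h4
          linarith only [h4]
        · left
          push_cast
          rw [div_mul_eq_mul_div, div_le_iff₀ (by positivity)]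
          have b1 : (P + S3) * (c + d.s3l) ≤ (P + d.s3l) * (c + S3) := by
            linarith only [mul_nonneg (sub_nonneg.2 p6) (sub_nonneg.2 k31)]
          have b2 : (P + d.s3l) * (c + S3) ≤ ((d.ch : ℝ) + d.s3l) * (c + S3) :=
            mul_le_mul_of_nonneg_right (by linarith only [hc2]) (by linarith only [hp, hs3])
          have b3 : (P + S3) * (((csn (hw * (i + 1)) : ℕ) : ℝ) + d.s3l) ≤
              (P + S3) * (c + d.s3l) :=
            mul_le_mul_of_nonneg_left (by linarith only [t2]) (by linarith only [hP0, hs3])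
          linarith only [b3, b2, b1]
      refine ⟨fun _ => main, fun hq => ?_⟩
      have h3 := Lq_mono_t (s := s4) hs4 (by linarith only [t2, c1p', hs4]) (Sn_le_abs hq (by linarith only [t1]))
      linarith only [h3, main]

theorem unf {f : ℕ → ℕ → ℕ → Bool} (a b c : ℕ) :
    fN (fun hw => fN (fun ta => fN (fun sa => f hw ta sa) a) b) c = f c b a := by
  rw [fN_eq, fN_eq, fN_eq]

end N3L

open N3a N3L in
theorem tL_ok {d : Dx} {n h g : ℕ} {s1 s4 s3 s2 g5 p0 q0 qb : ℝ} (hn : n = 1 ∨ n = 2)
    (hhg : (h = 8 ∧ g = 1) ∨ (h = 4 ∧ g = 2) ∨ (h = 2 ∧ g = 4))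
    (hd : d.Ok s1 s4 s3 s2 g5 p0 q0 qb) (ht : tL d n h g = true) :
    ∀ q, 1 / 10 ≤ q → q ≤ 1 / 2 → 0 < VV n s1 s4 s3 p0 q0 0 q := by
  have hB := hd.B
  have hs1 := hB.h1
  have hs3 := hB.h3
  unfold tL at ht
  have hpos0 : posS d = false := by
    cases hp : posS d
    · rfl
    · rw [hp, cond_true] at ht
      exact absurd ht Bool.false_ne_true
  rw [hpos0, cond_false] at ht
  obtain ⟨hneg, ht⟩ := cond_and ht
  rw [prR_eq d hn, unf, prL_eq] at ht
  -- the numbers
  have hgn : 0 < g ∧ h * g = 8 ∧ Nat.div 20 g * g = 20 ∧ 0 < h := by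
    rcases hhg with ⟨rfl, rfl⟩ | ⟨rfl, rfl⟩ | ⟨rfl, rfl⟩ <;> decide
  obtain ⟨hg0, hhg8, hwg, hh0⟩ := hgn
  clear hhg
  have hmw : Nat.mul 8 g = 8 * g := rfl
  rw [hmw] at ht
  generalize hwe : Nat.div 20 g = hw at ht hwg
  have hta := amn_le (a := d.tl) (b := d.th) (f := 67108864) (x := 1048576 * (p0 + q0 - 1 / 2))
    (by have := hd.t1; push_cast; exact this) (by have := hd.t2; push_cast; exact this)
  have hsa := le_amx (a := d.sl) (b := d.sh) (f := 67108864) (x := 1048576 * (q0 - 1 / 2))
    (by have := hd.o1; push_cast; exact this) (by have := hd.o2; push_cast; exact this)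
  rw [abs_mul, abs_of_pos (show (0 : ℝ) < 1048576 by norm_num)] at hta hsa
  generalize amn d.tl d.th 67108864 = ta at ht hta
  generalize amx d.sl d.sh 67108864 = sa at ht hsa
  have hf : finR
      (∏ j ∈ Finset.range (mcl d h), (d.al + d.s1h) ^ n * (fst' (eNum d (h * (j + 1))) *
        fst' (eNum d (h * (j + 1)))))
      (∏ j ∈ Finset.range (mcl d h), (tn (h * (j + 1)) + 1 + d.s1h) ^ n *
        (snd' (eNum d (h * (j + 1))) * snd' (eNum d (h * (j + 1)))))
      (∏ j ∈ Finset.range (8 * g), (Ul d hw ta sa j).1)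
      (∏ j ∈ Finset.range (8 * g), (Ul d hw ta sa j).2) (Nat.add 1048576 d.s3l)
      (Nat.add d.cl d.s3l) (cond (negT d) (Nat.mul 7 g) 0) 1 1 0 = true := ht
  clear ht
  -- the real numbers
  have rg : (0 : ℝ) < g := by exact_mod_cast hg0
  have rhg : (h : ℝ) * g = 8 := by exact_mod_cast hhg8
  have rwg : (hw : ℝ) * g = 20 := by exact_mod_cast hwg
  have rh : (0 : ℝ) < h := by exact_mod_cast hh0
  have hw0 : 0 < hw := by
    rcases Nat.eq_zero_or_pos hw with h1 | h1
    · rw [h1] at hwg
      omega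
    · exact h1
  have rw0 : (0 : ℝ) < hw := by exact_mod_cast hw0
  have hm := mcl_le hh0 hd.p1
  have hP0 : 0 < Sn (p0 + q0) := Sn_pos (by linarith only [hB.hP0]) (by linarith only [hB.hP1])
  have hcell : ∀ k < mcl d h, ((h * (k + 1) : ℕ) : ℝ) / 400 ≤ p0 ∧ h * (k + 1) ≤ 200 ∧
      0 < ((h * (k + 1) : ℕ) : ℝ) / 400 ∧ (((k : ℝ) + 1) * ((h : ℝ) / 400)) =
      ((h * (k + 1) : ℕ) : ℝ) / 400 := by
    intro k hk
    have h1 : (k : ℝ) + 1 ≤ mcl d h := by exact_mod_cast hk
    have h2 : ((h * (k + 1) : ℕ) : ℝ) / 400 = ((k : ℝ) + 1) * ((h : ℝ) / 400) := by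
      push_cast
      ring
    have h3 : ((k : ℝ) + 1) * ((h : ℝ) / 400) ≤ (mcl d h : ℝ) * ((h : ℝ) / 400) :=
      mul_le_mul_of_nonneg_right h1 (by positivity)
    have h4 : ((h * (k + 1) : ℕ) : ℝ) / 400 ≤ p0 := by
      rw [h2]
      linarith only [h3, hm]
    refine ⟨h4, ?_, ?_, h2.symm⟩
    · have h5 := hB.hp1
      have h6 : ((h * (k + 1) : ℕ) : ℝ) ≤ ((200 : ℕ) : ℝ) := by
        push_cast at h4 ⊢
        linarith only [h5, h3, hm]
      exact Nat.cast_le.1 h6
    · rw [h2]
      positivity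
  have hch : 0 < d.ch := by
    have h1 : (0 : ℝ) < d.ch := lt_of_lt_of_le (by positivity) hd.c2
    exact_mod_cast h1
  have hsnd : ∀ j, 0 < snd' (eNum d j) := by
    intro j
    rcases eNum_cases d j with ⟨-, h1⟩ | ⟨-, -, -, -, h1⟩
    · rw [h1]
      norm_num
    · rw [h1]
      omega
  have hfst : ∀ j, snd' (eNum d j) ≤ fst' (eNum d j) := by
    intro j
    rcases eNum_cases d j with ⟨h0, h1⟩ | ⟨-, -, h2, h0, h1⟩
    · rw [h0, h1]
    · rw [h0, h1]
      omega
  have hfst0 : ∀ j, 0 < fst' (eNum d j) := fun j => (hsnd j).trans_le (hfst j)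
  -- positivity of the products
  have hfm := finR_mul hf
  have hWD : ∀ j < 8 * g, (Ul d hw ta sa j).2 ≠ 0 := by
    intro j hj h0
    have h1 : (∏ j ∈ Finset.range (8 * g), (Ul d hw ta sa j).2) = 0 :=
      Finset.prod_eq_zero (Finset.mem_range.2 hj) h0
    rw [h1] at hfm
    simp at hfm
  have hUl : ∀ j < 8 * g, _ := fun j hj =>
    Ul_ok hd hta hsa (hw := hw) (i := j) (by
      have h1 : hw * (j + 1) ≤ hw * (8 * g) := Nat.mul_le_mul_left _ (by omega)
      have h2 : hw * (8 * g) = 8 * (hw * g) := by ring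
      omega) (hWD j hj)
  have hWN : ∀ j < 8 * g, (Ul d hw ta sa j).1 ≠ 0 := by
    intro j hj h0
    have h1 := (hUl j hj).1
    have h2 := hWD j hj
    omega
  have hDp : 0 < ∏ j ∈ Finset.range (mcl d h), (tn (h * (j + 1)) + 1 + d.s1h) ^ n *
      (snd' (eNum d (h * (j + 1))) * snd' (eNum d (h * (j + 1)))) := by
    apply Finset.prod_pos
    intro j _
    have := hsnd (h * (j + 1))
    positivity
  have hWNp : 0 < ∏ j ∈ Finset.range (8 * g), (Ul d hw ta sa j).1 :=
    Finset.prod_pos fun j hj => Nat.pos_of_ne_zero (hWN j (Finset.mem_range.1 hj))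
  have hAp : 0 < Nat.add 1048576 d.s3l := by
    have e : Nat.add 1048576 d.s3l = 1048576 + d.s3l := rfl
    rw [e]
    omega
  obtain ⟨f1, f2, f3, -, f5⟩ := finR_log hf hDp hWNp hAp one_pos
  have hNk : ∀ j < mcl d h, (d.al + d.s1h) ^ n ≠ 0 := by
    intro j hj h0
    have h1 : (∏ j ∈ Finset.range (mcl d h), (d.al + d.s1h) ^ n * (fst' (eNum d (h * (j + 1))) *
        fst' (eNum d (h * (j + 1))))) = 0 :=
      Finset.prod_eq_zero (Finset.mem_range.2 hj) (by rw [h0, zero_mul])
    rw [h1] at f1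
    exact lt_irrefl 0 f1
  rw [log_prod hWN, log_prod hWD, log_prod (fun j hj => mul_ne_zero (hNk j hj)
      (mul_ne_zero (hfst0 _).ne' (hfst0 _).ne')), log_prod (fun j hj => mul_ne_zero
      (pow_ne_zero _ (by omega)) (mul_ne_zero (hsnd _).ne' (hsnd _).ne'))] at f5
  -- the slack
  obtain ⟨δ, hδ0, hδ1, hδ2, hδ3⟩ : ∃ δ : ℝ, 0 ≤ δ ∧ 1 / 2 - δ ≤ p0 + q0 ∧
      ((cond (negT d) (Nat.mul 7 g) 0 : ℕ) : ℝ) = 100 * g * δ ∧
      (δ = 0 ∨ d.tl < 67108864) := by
    have ht1 := hd.t1
    cases hN : negT d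
    · have h1 := ltn_f hN
      have h2 : ((67108864 : ℕ) : ℝ) ≤ d.tl := Nat.cast_le.2 h1
      push_cast at h2
      exact ⟨0, le_rfl, by linarith only [h2, ht1], by simp, Or.inl rfl⟩
    · have h1 := ltn_t hN
      rw [hN, cond_true] at hneg
      have h2 : ((67035464 : ℕ) : ℝ) ≤ d.tl := Nat.cast_le.2 (Nat.le_of_ble_eq_true hneg)
      push_cast at h2
      refine ⟨7 / 100, by norm_num, by linarith only [h2, ht1], ?_, Or.inr h1⟩
      rw [cond_true]
      have e : Nat.mul 7 g = 7 * g := rfl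
      rw [e]
      push_cast
      ring
  have hLL : 0 ≤ Real.log (1 + s3) - Real.log (Sn (p0 + q0) + s3) := by
    have := Real.log_le_log (by linarith only [hP0, hs3] : 0 < Sn (p0 + q0) + s3)
      (by linarith only [Sn_le_one (p0 + q0)] : Sn (p0 + q0) + s3 ≤ 1 + s3)
    linarith only [this]
  have hiL : ((cond (negT d) (Nat.mul 7 g) 0 : ℕ) : ℝ) *
      (Real.log (1 + s3) - Real.log (Sn (p0 + q0) + s3)) ≤
      ((cond (negT d) (Nat.mul 7 g) 0 : ℕ) : ℝ) * (Real.log (Nat.add 1048576 d.s3l : ℕ) -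
        Real.log (Nat.add d.cl d.s3l : ℕ)) := by
    rcases Nat.eq_zero_or_pos (cond (negT d) (Nat.mul 7 g) 0) with h0 | h0
    · rw [h0]
      simp
    · have h1 := f3 h0
      apply mul_le_mul_of_nonneg_left _ (Nat.cast_nonneg _)
      have c1 := hd.c1
      have k31 := hd.s31
      rw [Na.add_cast, Na.add_cast]
      have h2 : (0 : ℝ) < (d.cl : ℝ) + d.s3l := by
        rw [← Na.add_cast]
        exact_mod_cast h1
      have hSn1 := Sn_le_one (p0 + q0)
      have e0 : ((1048576 : ℕ) : ℝ) = 1048576 := by norm_num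
      rw [e0]
      have e1 : Real.log (1 + s3) - Real.log (Sn (p0 + q0) + s3) =
          Real.log (1048576 + 1048576 * s3) -
            Real.log (1048576 * Sn (p0 + q0) + 1048576 * s3) := by
        rw [show (1048576 : ℝ) + 1048576 * s3 = 1048576 * (1 + s3) by ring,
          ← mul_add, Real.log_mul (by norm_num) (by linarith only [hs3]),
          Real.log_mul (by norm_num) (by linarith only [hP0, hs3])]
        ring
      rw [e1]
      have l1 := log_dec (A := 1048576) (B := 1048576 * Sn (p0 + q0)) (s := d.s3l)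
        (S := 1048576 * s3) (by linarith only [hSn1]) k31 (by linarith only [hP0])
      have l2 := Real.log_le_log h2 (show (d.cl : ℝ) + d.s3l ≤
        1048576 * Sn (p0 + q0) + d.s3l by linarith only [c1])
      linarith only [l2, l1]
  -- the application
  refine VL (n := n) hB ?_ (h := (h : ℝ) / 400) (hw := (hw : ℝ) / 400) (m := mcl d h)
    (mw := 8 * g)
    (g := fun k => max 0 ((n : ℝ) / 2 * (Real.log (d.al + d.s1h : ℕ) -
      Real.log (tn (h * (k + 1)) + 1 + d.s1h : ℕ))))
    (w := fun k => (Real.log (Ul d hw ta sa k).1 - Real.log (Ul d hw ta sa k).2) / 2)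
    (e := fun k => (Real.log (fst' (eNum d (h * (k + 1)))) -
      Real.log (snd' (eNum d (h * (k + 1))))) / 2)
    (e3 := δ / 2 * (Real.log (1 + s3) - Real.log (Sn (p0 + q0) + s3)))
    (by positivity) hm (by positivity) ?_ ?_ ?_ (fun k _ => le_max_left _ _) ?_ ?_ ?_
    (slack3' hs3 hB.hP0 hB.hP1 hδ0 hδ1) (mul_nonneg (by linarith only [hδ0]) hLL) ?_ ?_
  · -- `q0 ≤ 1/2`
    have h1 := ltn_f hpos0
    have h2 : (d.sh : ℝ) ≤ ((67108864 : ℕ) : ℝ) := Nat.cast_le.2 h1
    push_cast at h2
    linarith only [hd.o2, h2]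
  · -- the length
    push_cast
    linear_combination (8 / 400 : ℝ) * rwg
  · -- `e0`
    intro k _
    have h1 : ((snd' (eNum d (h * (k + 1))) : ℕ) : ℝ) ≤ (fst' (eNum d (h * (k + 1))) : ℕ) :=
      Nat.cast_le.2 (hfst _)
    have h2 := Real.log_le_log (by exact_mod_cast hsnd (h * (k + 1))) h1
    linarith only [h2]
  · -- `e1`
    intro k hk
    obtain ⟨c1, c2, c3, c4⟩ := hcell k hk
    rcases eNum_cases d (h * (k + 1)) with ⟨h0, h1⟩ | ⟨h5, h6, h2, h0, h1⟩
    · left
      rw [h0, h1]
      simp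
    · right
      rw [h0, h1, c4]
      have h5' : ((67108864 : ℕ) : ℝ) ≤ d.tl := Nat.cast_le.2 h5
      have h6' : ((1048576 * (h * (k + 1)) : ℕ) : ℝ) ≤ ((400 * (d.tl - 67108864) : ℕ) : ℝ) :=
        Nat.cast_le.2 h6
      rw [Nat.cast_mul, Nat.cast_mul 400, Nat.cast_sub h5] at h6'
      have ht1 := hd.t1
      have e0 : ((67108864 : ℕ) : ℝ) = 67108864 := by norm_num
      have e1 : ((1048576 : ℕ) : ℝ) = 1048576 := by norm_num
      have e2 : ((400 : ℕ) : ℝ) = 400 := by norm_num
      rw [e0, e1, e2] at h6'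
      clear h6
      have hk0 : (0 : ℝ) ≤ (k : ℝ) * ((h : ℝ) / 400) :=
        mul_nonneg (Nat.cast_nonneg k) (div_nonneg rh.le (by norm_num))
      refine ⟨by linarith only [ht1, h6'], fun t ht => ?_⟩
      have t0 : 0 ≤ t := hk0.trans ht.1
      have t1 := ht.2
      have hp1 := hB.hp1
      have hp : 0 < Sn (1 / 2 + t) := Sn_pos (by linarith only [t0]) (by linarith only [hp1, t1, c1])
      rw [Lq_sub_units (by linarith only [hp, hs3]) (by linarith only [hP0, hs3])]
      have k1 := (csn_ok (k := h * (k + 1)) (by omega)).1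
      have k2 := Sn_anti (t := 1 / 2 + t) (t' := 1 / 2 + ((h * (k + 1) : ℕ) : ℝ) / 400)
        (by linarith only [t0]) (by linarith only [t1]) (by linarith only [hp1, c1])
      have k3 := hd.c2
      have k4 := hd.s32
      have hch' : (0 : ℝ) < d.ch := by exact_mod_cast hch
      have k5 : (d.ch : ℝ) ≤ (csn (h * (k + 1)) : ℕ) := Nat.cast_le.2 h2
      have hS3 : 0 ≤ 1048576 * s3 := by positivity
      have l1 := log_dec (A := (csn (h * (k + 1)) : ℕ)) (B := d.ch) (s := 1048576 * s3)
        (S := d.s3h) k5 k4 (by linarith only [k3, hP0, hs3])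
      have l2 := Real.log_le_log (show (0 : ℝ) < (csn (h * (k + 1)) : ℕ) + 1048576 * s3 by linarith only [k5,
                                                                                             k3,
                                                                                             hP0,
                                                                                             hs3])
        (show ((csn (h * (k + 1)) : ℕ) : ℝ) + 1048576 * s3 ≤
          1048576 * Sn (1 / 2 + t) + 1048576 * s3 by linarith only [k2, k1])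
      have l3 := Real.log_le_log (show 0 < 1048576 * Sn (p0 + q0) + 1048576 * s3 by linarith only [hP0,
                                                                                      hs3])
        (show 1048576 * Sn (p0 + q0) + 1048576 * s3 ≤ d.ch + 1048576 * s3 by linarith only [k3])
      push_cast
      linarith only [l3, l2, l1]
  · -- `g1`
    intro k hk
    obtain ⟨c1, c2, c3, c4⟩ := hcell k hk
    rw [c4]
    have hp1 := hB.hp1
    have hp0 := hB.hp0
    have hSk : 0 < Sn (((h * (k + 1) : ℕ) : ℝ) / 400) := Sn_pos c3 (by linarith only [hp1, c1])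
    have hS0 : 0 < Sn p0 := Sn_pos hp0 (by linarith only [hp1])
    have hSm := Sn_mono c3.le c1 (by linarith only [hp1])
    rw [Lq_sub_units (by linarith only [hS0, hs1]) (by linarith only [hSk, hs1])]
    have n0 : (0 : ℝ) ≤ n := Nat.cast_nonneg _
    have hS1 : 0 ≤ 1048576 * s1 := by positivity
    have l0 := Real.log_le_log
      (show 0 < 1048576 * Sn (((h * (k + 1) : ℕ) : ℝ) / 400) + 1048576 * s1 by linarith only [hSk,
                                                                                 hs1])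
      (show 1048576 * Sn (((h * (k + 1) : ℕ) : ℝ) / 400) + 1048576 * s1 ≤
        1048576 * Sn p0 + 1048576 * s1 by linarith only [hSm])
    apply max_le
    · apply mul_nonneg n0
      linarith only [l0]
    · rw [div_mul_eq_mul_div, mul_div_assoc]
      apply mul_le_mul_of_nonneg_left _ n0
      have k1 := (tn_ok c2).2
      have a1 := hd.a1
      have k12 := hd.s12
      have s1h0 : (0 : ℝ) ≤ d.s1h := Nat.cast_nonneg _
      have tb : (0 : ℝ) ≤ (tn (h * (k + 1)) : ℕ) := Nat.cast_nonneg _
      rcases Nat.eq_zero_or_pos (d.al + d.s1h) with h0 | h0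
      · rw [h0]
        have h1 : 0 ≤ Real.log (tn (h * (k + 1)) + 1 + d.s1h : ℕ) := by
          apply Real.log_nonneg
          push_cast
          linarith only []
        simp only [Nat.cast_zero, Real.log_zero]
        linarith only [h1, l0]
      · have h1 : (0 : ℝ) < (d.al : ℝ) + d.s1h := by exact_mod_cast h0
        have l1 := log_dec (A := 1048576 * Sn p0)
          (B := 1048576 * Sn (((h * (k + 1) : ℕ) : ℝ) / 400)) (s := 1048576 * s1)
          (S := d.s1h) (by linarith only [hSm]) k12 (by linarith only [hSk, hs1])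
        have l2 := Real.log_le_log h1 (show (d.al : ℝ) + d.s1h ≤ 1048576 * Sn p0 + d.s1h by
          linarith only [a1])
        have l3 := Real.log_le_log
          (show 0 < 1048576 * Sn (((h * (k + 1) : ℕ) : ℝ) / 400) + d.s1h by linarith only [hSk])
          (show 1048576 * Sn (((h * (k + 1) : ℕ) : ℝ) / 400) + (d.s1h : ℝ) ≤
            ((tn (h * (k + 1)) : ℕ) : ℝ) + 1 + d.s1h by linarith only [k1])
        rw [Nat.cast_add, Nat.cast_add, Nat.cast_add, Nat.cast_one]
        linarith only [l3, l2, l1]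
  · -- `w0`
    intro k hk
    have h1 : (((Ul d hw ta sa k).2 : ℕ) : ℝ) ≤ ((Ul d hw ta sa k).1 : ℕ) :=
      Nat.cast_le.2 (hUl k hk).1
    have h2 : (0 : ℝ) < ((Ul d hw ta sa k).2 : ℕ) := by
      exact_mod_cast Nat.pos_of_ne_zero (hWD k hk)
    have h3 := Real.log_le_log h2 h1
    linarith only [h3]
  · -- `w1`
    intro k hk t ht hPt
    exact (hUl k hk).2 t ht hPt
  · -- `hee`
    rcases hδ3 with h0 | h0
    · left
      rw [h0]
      simp
    · right
      intro k _
      rcases eNum_cases d (h * (k + 1)) with ⟨h2, h1⟩ | ⟨h5, -, -, -, -⟩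
      · rw [h2, h1]
        simp
      · omega
  · -- positivity
    have hsum : (∑ j ∈ Finset.range (mcl d h), Real.log (((d.al + d.s1h) ^ n *
          (fst' (eNum d (h * (j + 1))) * fst' (eNum d (h * (j + 1)))) : ℕ)) -
        ∑ j ∈ Finset.range (mcl d h), Real.log (((tn (h * (j + 1)) + 1 + d.s1h) ^ n *
          (snd' (eNum d (h * (j + 1))) * snd' (eNum d (h * (j + 1)))) : ℕ))) / 2 ≤
        ∑ k ∈ Finset.range (mcl d h), (max 0 ((n : ℝ) / 2 * (Real.log (d.al + d.s1h : ℕ) -
          Real.log (tn (h * (k + 1)) + 1 + d.s1h : ℕ))) +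
          2 * ((Real.log (fst' (eNum d (h * (k + 1)))) -
            Real.log (snd' (eNum d (h * (k + 1))))) / 2)) := by
      rw [← Finset.sum_sub_distrib, Finset.sum_div]
      apply Finset.sum_le_sum
      intro k hk
      have h1 := hNk k (Finset.mem_range.1 hk)
      have h2 : ((d.al + d.s1h : ℕ) : ℝ) ^ n ≠ 0 := by
        exact_mod_cast h1
      have h3 : ((fst' (eNum d (h * (k + 1))) : ℕ) : ℝ) ≠ 0 := by
        exact_mod_cast (hfst0 (h * (k + 1))).ne'
      have h4 : ((snd' (eNum d (h * (k + 1))) : ℕ) : ℝ) ≠ 0 := by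
        exact_mod_cast (hsnd (h * (k + 1))).ne'
      have h5 : ((tn (h * (k + 1)) + 1 + d.s1h : ℕ) : ℝ) ^ n ≠ 0 := by
        apply pow_ne_zero
        have : 0 < tn (h * (k + 1)) + 1 + d.s1h := by omega
        exact_mod_cast this.ne'
      have h6 := le_max_right 0 ((n : ℝ) / 2 * (Real.log (d.al + d.s1h : ℕ) -
          Real.log (tn (h * (k + 1)) + 1 + d.s1h : ℕ)))
      rw [Nat.cast_mul, Nat.cast_mul, Nat.cast_pow, Nat.cast_mul ((tn (h * (k + 1)) + 1 +
        d.s1h) ^ n), Nat.cast_mul (snd' (eNum d (h * (k + 1)))), Nat.cast_pow,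
        Real.log_mul h2 (mul_ne_zero h3 h3), Real.log_mul h3 h3,
        Real.log_mul h5 (mul_ne_zero h4 h4), Real.log_mul h4 h4, Real.log_pow, Real.log_pow]
      linarith only [h6]
    have hsumW : ∑ k ∈ Finset.range (8 * g), (Real.log (Ul d hw ta sa k).1 -
        Real.log (Ul d hw ta sa k).2) / 2 =
        (∑ j ∈ Finset.range (8 * g), Real.log (Ul d hw ta sa j).1 -
          ∑ j ∈ Finset.range (8 * g), Real.log (Ul d hw ta sa j).2) / 2 := by
      rw [← Finset.sum_sub_distrib, Finset.sum_div]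
    rw [hsumW]
    simp only [Nat.cast_one, Real.log_one, mul_zero, add_zero] at f5
    have h200 : (0 : ℝ) < 200 * g := by positivity
    rw [← mul_pos_iff_of_pos_left h200]
    rw [hδ2] at hiL f5
    generalize (∑ k ∈ Finset.range (mcl d h), (max 0 ((n : ℝ) / 2 *
      (Real.log (d.al + d.s1h : ℕ) - Real.log (tn (h * (k + 1)) + 1 + d.s1h : ℕ))) +
        2 * ((Real.log (fst' (eNum d (h * (k + 1)))) -
          Real.log (snd' (eNum d (h * (k + 1))))) / 2))) = SG at *
    generalize (∑ j ∈ Finset.range (8 * g), Real.log (Ul d hw ta sa j).1) = ZU at *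
    generalize (∑ j ∈ Finset.range (8 * g), Real.log (Ul d hw ta sa j).2) = ZV at *
    generalize (Real.log (1 + s3) - Real.log (Sn (p0 + q0) + s3)) = LL at *
    have fin : (200 * (g : ℝ)) * ((h : ℝ) / 400 * SG - (hw : ℝ) / 400 * ((ZU - ZV) / 2) -
        δ / 2 * LL) = 4 * SG - 5 * (ZU - ZV) - 100 * g * δ * LL := by
      linear_combination (SG / 2) * rhg - ((ZU - ZV) / 4) * rwg
    rw [fin]
    linarith only [hiL, f5, hsum]

end Pool.Agent.S5.Y3
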