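import Pool.Agent.S5.I.Y3W
import Pool.Agent.S5.I.Y3N1

/-!
# The flats of a node with three half twists: common lemmas for the products
-/

set_option autoImplicit false

namespace Pool.Agent.S5.Y3

open MeasureTheory Filter Topology Set Pool.Agent.S5.C2 Pool.Agent.S5.Num Pool.Agent.S5.K3

namespace N3a

theorem sqn_eq (x : ℕ) : sqn x = x * x := by
  unfold sqn
  rw [fN_eq]
  rfl

theorem pwn_eq {n : ℕ} (hn : n = 1 ∨ n = 2) (x : ℕ) : pwn n x = x ^ n := by
  unfold pwn
  rw [fN_eq]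
  rcases hn with rfl | rfl
  · change x = x ^ 1
    rw [pow_one]
  · change x * x = x ^ 2
    ring

theorem mxn_eq (a b : ℕ) : mxn a b = max a b := by
  unfold mxn
  cases h : Nat.ble a b
  · have h1 : ¬a ≤ b := fun h2 => by
      rw [Nat.ble_eq_true_of_le h2] at h
      exact absurd h (by simp)
    rw [cond_false, max_eq_left (by omega)]
  · rw [cond_true, max_eq_right (Nat.le_of_ble_eq_true h)]

theorem ltn_t {a b : ℕ} (h : ltn a b = true) : a < b := Nat.le_of_ble_eq_true h

theorem ltn_f {a b : ℕ} (h : ltn a b = false) : b ≤ a := by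
  by_contra h1
  have h2 : Nat.ble (Nat.succ a) b = true := Nat.ble_eq_true_of_le (by omega)
  unfold ltn at h
  rw [h2] at h
  exact absurd h (by simp)

theorem ble_f {a b : ℕ} (h : Nat.ble a b = false) : b < a := by
  by_contra h1
  rw [Nat.ble_eq_true_of_le (by omega)] at h
  exact absurd h (by simp)

/-- The number of cells. -/
theorem mcl_le {d : Dx} {h : ℕ} {p0 : ℝ} (hh : 0 < h) (hp : (d.pl : ℝ) ≤ 1048576 * p0) :
    (mcl d h : ℝ) * ((h : ℝ) / 400) ≤ p0 := by
  have gen : ∀ a b c u : ℕ, 0 < u * b → Nat.div (Nat.mul a c) (Nat.mul u b) * (u * b) ≤ a * c :=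
    fun a b c u _ => Nat.div_mul_le_self (a * c) (u * b)
  have h1 := gen 400 h d.pl 1048576 (by positivity)
  have h2 : ((mcl d h * (1048576 * h) : ℕ) : ℝ) ≤ ((400 * d.pl : ℕ) : ℝ) := Nat.cast_le.2 h1
  push_cast at h2
  linarith

/-- The loop with two accumulators. -/
theorem loop {K : ℕ → ℕ → Bool} {F : (ℕ → ℕ → ℕ → Bool) → ℕ → ℕ → ℕ → Bool} {X Y : ℕ → ℕ}
    (hF : ∀ ih i N D, F ih i N D = ih (i + 1) (N * X i) (D * Y i)) (m : ℕ) : ∀ i N D : ℕ,
    Nat.rec (motive := fun _ => ℕ → ℕ → ℕ → Bool) (fun _ N D => K N D) (fun _ ih => F ih) m i N D =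
      K (N * ∏ j ∈ Finset.range m, X (i + j)) (D * ∏ j ∈ Finset.range m, Y (i + j)) := by
  induction m with
  | zero =>
    intro i N D
    simp
  | succ m ih =>
    intro i N D
    change F (Nat.rec (motive := fun _ => ℕ → ℕ → ℕ → Bool) (fun _ N D => K N D)
      (fun _ ih => F ih) m) i N D = _
    rw [hF, ih, Finset.prod_range_succ', Finset.prod_range_succ']
    have e : ∀ j, i + 1 + j = i + (j + 1) := fun j => by omega
    simp only [e, add_zero]
    congr 1 <;> ring

/-- The final inequality as a product of natural numbers. -/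
theorem finR_mul {N D WN WD A B i C E j : ℕ} (h : finR N D WN WD A B i C E j = true) :
    D * D * WN ^ 5 * (A ^ i * C ^ j) < N * N * WD ^ 5 * (B ^ i * E ^ j) := by
  have h1 := ltn_t h
  rw [sqn_eq, sqn_eq] at h1
  exact h1

/-- The final inequality in logarithms. -/
theorem finR_log {N D WN WD A B i C E j : ℕ} (h : finR N D WN WD A B i C E j = true)
    (hD : 0 < D) (hW : 0 < WN) (hA : 0 < A) (hC : 0 < C) :
    0 < N ∧ 0 < WD ∧ (0 < i → 0 < B) ∧ (0 < j → 0 < E) ∧
    2 * Real.log D + 5 * Real.log WN + (i * Real.log A + j * Real.log C) <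
      2 * Real.log N + 5 * Real.log WD + (i * Real.log B + j * Real.log E) := by
  have h1 := finR_mul h
  have h2 : N * N * WD ^ 5 * (B ^ i * E ^ j) ≠ 0 := by omega
  have n1 : N ≠ 0 := by
    rintro rfl
    apply h2
    simp
  have n2 : WD ≠ 0 := by
    rintro rfl
    apply h2
    simp
  have n3 : B ^ i ≠ 0 := by
    intro h3
    apply h2
    rw [h3]
    simp
  have n4 : E ^ j ≠ 0 := by
    intro h3
    apply h2
    rw [h3]
    simp
  refine ⟨Nat.pos_of_ne_zero n1, Nat.pos_of_ne_zero n2, fun hi => ?_, fun hj => ?_, ?_⟩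
  · by_contra h3
    have h4 : B = 0 := by omega
    rw [h4, zero_pow hi.ne'] at n3
    exact n3 rfl
  · by_contra h3
    have h4 : E = 0 := by omega
    rw [h4, zero_pow hj.ne'] at n4
    exact n4 rfl
  · have h5 : ((D * D * WN ^ 5 * (A ^ i * C ^ j) : ℕ) : ℝ) <
        ((N * N * WD ^ 5 * (B ^ i * E ^ j) : ℕ) : ℝ) := Nat.cast_lt.2 h1
    have h6 : (0 : ℝ) < ((D * D * WN ^ 5 * (A ^ i * C ^ j) : ℕ) : ℝ) := by
      have : 0 < D * D * WN ^ 5 * (A ^ i * C ^ j) := by positivity
      exact_mod_cast this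
    have h7 := Real.log_lt_log h6 h5
    have r0 : (D : ℝ) ≠ 0 := by positivity
    have r1 : (WN : ℝ) ≠ 0 := by positivity
    have r2 : (A : ℝ) ≠ 0 := by positivity
    have r3 : (C : ℝ) ≠ 0 := by positivity
    have r4 : (N : ℝ) ≠ 0 := by exact_mod_cast n1
    have r5 : (WD : ℝ) ≠ 0 := by exact_mod_cast n2
    have r6 : (B : ℝ) ^ i ≠ 0 := by exact_mod_cast n3
    have r7 : (E : ℝ) ^ j ≠ 0 := by exact_mod_cast n4
    push_cast at h7
    rw [Real.log_mul (by positivity) (by positivity), Real.log_mul (by positivity) (by positivity),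
      Real.log_mul r0 r0, Real.log_mul (by positivity) (by positivity),
      Real.log_mul (mul_ne_zero (mul_ne_zero r4 r4) (pow_ne_zero _ r5)) (mul_ne_zero r6 r7),
      Real.log_mul (mul_ne_zero r4 r4) (pow_ne_zero _ r5), Real.log_mul r4 r4,
      Real.log_mul r6 r7] at h7
    simp only [Real.log_pow] at h7
    push_cast at h7
    linarith

/-- The logarithm of a product. -/
theorem log_prod {m : ℕ} {X : ℕ → ℕ} (h : ∀ j < m, X j ≠ 0) :
    Real.log ((∏ j ∈ Finset.range m, X j : ℕ) : ℝ) = ∑ j ∈ Finset.range m, Real.log (X j) := by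
  rw [Nat.cast_prod, Real.log_prod]
  intro j hj
  exact_mod_cast h j (Finset.mem_range.1 hj)

/-- The cases of the ratio `e`. -/
theorem eNum_cases (d : Dx) (j : ℕ) : (fst' (eNum d j) = 1 ∧ snd' (eNum d j) = 1) ∨
    (67108864 ≤ d.tl ∧ 1048576 * j ≤ 400 * (d.tl - 67108864) ∧ d.ch ≤ csn j ∧
      fst' (eNum d j) = csn j + d.s3h ∧ snd' (eNum d j) = d.ch + d.s3h) := by
  have gen : ∀ (x y c s z u v : ℕ) (a b : ℕ), (fst' (cond (cond (Nat.ble z x)
      (cond (Nat.ble (Nat.mul u y) (Nat.mul v (Nat.sub x z))) (Nat.ble c a) false) false)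
        (Nat.add a b, Nat.add c s) (1, 1)) = 1 ∧ snd' (cond (cond (Nat.ble z x)
      (cond (Nat.ble (Nat.mul u y) (Nat.mul v (Nat.sub x z))) (Nat.ble c a) false) false)
        (Nat.add a b, Nat.add c s) (1, 1)) = 1) ∨ (z ≤ x ∧ u * y ≤ v * (x - z) ∧ c ≤ a ∧
      fst' (cond (cond (Nat.ble z x)
      (cond (Nat.ble (Nat.mul u y) (Nat.mul v (Nat.sub x z))) (Nat.ble c a) false) false)
        (Nat.add a b, Nat.add c s) (1, 1)) = a + b ∧ snd' (cond (cond (Nat.ble z x)
      (cond (Nat.ble (Nat.mul u y) (Nat.mul v (Nat.sub x z))) (Nat.ble c a) false) false)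
        (Nat.add a b, Nat.add c s) (1, 1)) = c + s) := by
    intro x y c s z u v a b
    cases h1 : Nat.ble z x
    · left
      exact ⟨rfl, rfl⟩
    · cases h2 : Nat.ble (Nat.mul u y) (Nat.mul v (Nat.sub x z))
      · left
        exact ⟨rfl, rfl⟩
      · cases h3 : Nat.ble c a
        · left
          exact ⟨rfl, rfl⟩
        · right
          exact ⟨Nat.le_of_ble_eq_true h1, Nat.le_of_ble_eq_true h2, Nat.le_of_ble_eq_true h3,
            rfl, rfl⟩
  exact gen d.tl j d.ch d.s3h 67108864 1048576 400 (csn j) d.s3h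

/-- The difference of logarithms decreases with the shift. -/
theorem log_dec {A B s S : ℝ} (h : B ≤ A) (hs : s ≤ S) (h0 : 0 < B + s) :
    Real.log (A + S) - Real.log (B + S) ≤ Real.log (A + s) - Real.log (B + s) := by
  have h1 : 0 < B + S := by linarith
  have h2 : 0 < A + s := by linarith
  have h3 : 0 < A + S := by linarith
  have h4 : Real.log ((A + S) * (B + s)) ≤ Real.log ((A + s) * (B + S)) := by
    apply Real.log_le_log (by positivity)
    nlinarith [mul_nonneg (sub_nonneg.2 h) (sub_nonneg.2 hs)]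
  rw [Real.log_mul h3.ne' h0.ne', Real.log_mul h2.ne' h1.ne'] at h4
  linarith

/-- `Lq` in units. -/
theorem Lq_sub_units {s s' t t' : ℝ} (h : 0 < Sn t + s) (h' : 0 < Sn t' + s') :
    Lq s t - Lq s' t' = (Real.log (1048576 * Sn t + 1048576 * s) -
      Real.log (1048576 * Sn t' + 1048576 * s')) / 2 := by
  rw [Lq_eq, Lq_eq, Real.log_mul (by norm_num) h.ne', Real.log_mul (by norm_num) h'.ne',
    ← mul_add, ← mul_add, Real.log_mul (by norm_num) h.ne', Real.log_mul (by norm_num) h'.ne']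
  ring

end N3a

end Pool.Agent.S5.Y3
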