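import Pool.Agent.S5.I.Y3b

/-!
# The flats of a node with three half twists: crossings and second order
-/

set_option autoImplicit false

namespace Pool.Agent.S5.Y3

open MeasureTheory Filter Topology Set Pool.Agent.S5.C2

private theorem bp_pos {s1 s4 s3 p0 q0 : ℝ} (hB : Bp s1 s4 s3 p0 q0) :
    0 < Sn p0 + s1 ∧ 0 < Sn q0 + s4 ∧ 0 < Sn (p0 + q0) + s3 := by
  have e1 := Sn_pos hB.hp0 (by linarith [hB.hp1])
  have e2 := Sn_pos (t := q0) (by linarith [hB.hq0]) (by linarith [hB.hq1])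
  have e3 := Sn_pos (t := p0 + q0) (by linarith [hB.hP0]) (by linarith [hB.hP1])
  exact ⟨by linarith [hB.h1], by linarith [hB.h4], by linarith [hB.h3]⟩

theorem Mn.cross {n : ℕ} {s1 s4 s3 p0 q0 p q : ℝ} (hn : 1 ≤ n) (hB : Bp s1 s4 s3 p0 q0)
    (h : Mn n s1 s4 s3 p0 q0 p q) (h0 : 0 < p) (h1 : p < 1 / 2) (h2 : 1 / 10 < q) (h3 : q < 9 / 10) :
    ∃ y, Cr n s1 s4 s3 p0 q0 p q y := by
  obtain ⟨k1, k4, k3⟩ := bp_pos hB
  -- the variable `p`
  have eP : ∀ x : ℝ, VV n s1 s4 s3 p0 q0 x q = HH n s1 s3 p0 (p0 + q0) q x + Dq s4 q0 q := by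
    intro x
    unfold VV HH
    ring
  have fR := focR (n := n) (s := s1) (s3 := s3) (x0 := p0) (X0 := p0 + q0) (c := q) (x := p)
    (hi := 1 / 2) hB.h1 hB.h3 k1 k3 h0.le h1 (by norm_num) (by
      intro x' hx
      have := h.le x' q (by linarith [hx.1]) hx.2 h2.le h3.le
      rw [eP, eP] at this
      linarith)
  have fL := focL (n := n) (s := s1) (s3 := s3) (x0 := p0) (X0 := p0 + q0) (c := q) (x := p)
    (lo := 0) hB.h1 hB.h3 k1 k3 le_rfl h0 (by linarith) (by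
      intro x' hx
      have := h.le x' q hx.1 (by linarith [hx.2]) h2.le h3.le
      rw [eP, eP] at this
      linarith)
  have f1 := le_antisymm fL fR
  -- the variable `q`
  have eQ : ∀ x : ℝ, VV n s1 s4 s3 p0 q0 p x = HH 1 s4 s3 q0 (p0 + q0) p x + n * Dq s1 p0 p := by
    intro x
    unfold VV HH
    rw [add_comm x p]
    push_cast
    ring
  have gR := focR (n := 1) (s := s4) (s3 := s3) (x0 := q0) (X0 := p0 + q0) (c := p) (x := q)
    (hi := 9 / 10) hB.h4 hB.h3 k4 k3 (by linarith) h3 (by norm_num) (by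
      intro x' hx
      have := h.le p x' h0.le h1.le (by linarith [hx.1]) hx.2
      rw [eQ, eQ] at this
      linarith)
  have gL := focL (n := 1) (s := s4) (s3 := s3) (x0 := q0) (X0 := p0 + q0) (c := p) (x := q)
    (lo := 1 / 10) hB.h4 hB.h3 k4 k3 (by norm_num) h2 (by linarith) (by
      intro x' hx
      have := h.le p x' h0.le h1.le hx.1 (by linarith [hx.2])
      rw [eQ, eQ] at this
      linarith)
  have f2 := le_antisymm gL gR
  rw [pow_one, pow_one, add_comm q p] at f2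
  have kp := Sn_pos h0 (by linarith)
  set y := (Sn p + s1) / (Sn p0 + s1) with hy
  have hy0 : 0 < y := div_pos (by linarith [hB.h1]) k1
  have hS : Sn p + s1 = (Sn p0 + s1) * y := by
    rw [hy]
    field_simp
  have hC : Sn (p + q) + s3 = (Sn (p0 + q0) + s3) * y ^ n := by
    rw [hS, mul_pow] at f1
    apply mul_left_cancel₀ (pow_pos k1 n).ne'
    rw [← f1]
    ring
  refine ⟨y, hy0, hS, hC, ?_⟩
  rw [hC] at f2
  apply mul_right_cancel₀ k3.ne'
  rw [f2]
  ring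

/-- The Hessian at an interior minimum. -/
theorem Mn.hess {n : ℕ} {s1 s4 s3 p0 q0 p q : ℝ} (hB : Bp s1 s4 s3 p0 q0)
    (h : Mn n s1 s4 s3 p0 q0 p q) (h0 : 0 < p) (h1 : p < 1 / 2) (h2 : 1 / 10 < q) (h3 : q < 9 / 10)
    (hc : 0 < Sn (p + q) + s3) (d e : ℝ) :
    0 ≤ n * Lp s1 p * d ^ 2 + Lp s4 q * e ^ 2 - Lp s3 (p + q) * (d + e) ^ 2 := by
  have kp := Sn_pos h0 (by linarith)
  have kq := Sn_pos (t := q) (by linarith) (by linarith)
  refine Pool.Agent.S5.Y3.hess (p0 := p0) (q0 := q0) (ε := min (min p (1 / 2 - p)) (min (q - 1 / 10) (9 / 10 - q))) hB.h1 hB.h4 hB.h3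
    (by linarith [hB.h1]) (by linarith [hB.h4]) hc
    (lt_min (lt_min h0 (by linarith)) (lt_min (by linarith) (by linarith))) ?_
  intro p' q' hp hq
  rw [lt_min_iff, lt_min_iff, lt_min_iff] at hp hq
  obtain ⟨⟨a1, a2⟩, -⟩ := hp
  obtain ⟨-, b1, b2⟩ := hq
  rw [abs_lt] at a1 a2 b1 b2
  exact h.le p' q' (by linarith [a1.1]) (by linarith [a2.2]) (by linarith [b1.1]) (by linarith [b2.2])

private theorem sin_cos_pos {t : ℝ} (h0 : 0 < t) (h1 : t < 1 / 2) :
    0 < Real.sin (Real.pi * t) * Real.cos (Real.pi * t) := by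
  have hpi := Real.pi_pos
  have h2 := mul_pos hpi h0
  have h3 := mul_lt_mul_of_pos_left h1 hpi
  exact mul_pos (Real.sin_pos_of_pos_of_lt_pi h2 (by linarith))
    (Real.cos_pos_of_mem_Ioo ⟨by linarith, by linarith⟩)

private theorem sin_cos_neg {t : ℝ} (h0 : 1 / 2 < t) (h1 : t < 1) :
    Real.sin (Real.pi * t) * Real.cos (Real.pi * t) < 0 := by
  have h := sin_cos_pos (t := 1 - t) (by linarith) (by linarith)
  rw [show Real.pi * (1 - t) = Real.pi - Real.pi * t by ring, Real.sin_pi_sub, Real.cos_pi_sub] at h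
  linarith

private theorem lp_pos {s t : ℝ} (hs : 0 ≤ s) (h0 : 0 < t) (h1 : t < 1 / 2) : 0 < Lp s t := by
  have h2 := sin_cos_pos h0 h1
  have h3 := Sn_pos h0 (by linarith)
  unfold C2.Lp
  exact div_pos (mul_pos Real.pi_pos h2) (by unfold Sn at h3; linarith)

private theorem lp_neg {s t : ℝ} (hs : 0 ≤ s) (h0 : 1 / 2 < t) (h1 : t < 1) : Lp s t < 0 := by
  have h2 := sin_cos_neg h0 h1
  have h3 := Sn_pos (t := t) (by linarith) (by linarith)
  unfold C2.Lp
  exact div_neg_of_neg_of_pos (mul_neg_of_pos_of_neg Real.pi_pos h2) (by unfold Sn at h3; linarith)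

private theorem iq_sqrt {s t : ℝ} (hs : 0 ≤ s) (h0 : 0 < t) (h1 : t < 1) :
    √(Iq s (Sn t)) * |Lp s t| = Real.pi ∨ t = 1 / 2 := by
  rcases eq_or_ne t (1 / 2) with h | h
  · exact Or.inr h
  left
  have h3 := Sn_pos h0 h1
  have h4 : 0 < Sn t + s := by linarith
  have h5 : Real.sin (Real.pi * t) * Real.cos (Real.pi * t) ≠ 0 := by
    rcases lt_or_gt_of_ne h with h | h
    · exact (sin_cos_pos h0 h).ne'
    · exact (sin_cos_neg h h1).ne
  have h6 : Sn t * (1 - Sn t) = (Real.sin (Real.pi * t) * Real.cos (Real.pi * t)) ^ 2 := by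
    rw [← cos_sq_eq, mul_pow]
    rfl
  have h7 : Lp s t = Real.pi * (Real.sin (Real.pi * t) * Real.cos (Real.pi * t)) / (Sn t + s) := rfl
  have h8 : 0 < |Real.sin (Real.pi * t) * Real.cos (Real.pi * t)| := abs_pos.2 h5
  unfold Iq
  rw [h6, ← div_pow, Real.sqrt_sq_eq_abs, h7]
  generalize Real.sin (Real.pi * t) * Real.cos (Real.pi * t) = r at h8
  rw [abs_div, abs_div, abs_mul, abs_of_pos h4, abs_of_pos Real.pi_pos]
  field_simp

private theorem iq_left {s t : ℝ} (hs : 0 ≤ s) (h0 : 0 < t) (h1 : t < 1 / 2) :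
    √(Iq s (Sn t)) = Real.pi / Lp s t := by
  have h2 := lp_pos hs h0 h1
  rcases iq_sqrt hs h0 (by linarith) with h | h
  · rw [abs_of_pos h2] at h
    rw [eq_div_iff h2.ne']
    exact h
  · linarith

private theorem iq_right {s t : ℝ} (hs : 0 ≤ s) (h0 : 1 / 2 < t) (h1 : t < 1) :
    √(Iq s (Sn t)) = Real.pi / (-Lp s t) := by
  have h2 := lp_neg hs h0 h1
  rcases iq_sqrt hs (by linarith) h1 with h | h
  · rw [abs_of_neg h2] at h
    rw [eq_div_iff (by linarith)]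
    exact h
  · linarith

private theorem inv_form {a b k n : ℝ} (ha : 0 < a) (hb : 0 < b) (hk : 0 < k) (hn : 0 < n)
    (h : k * (n * a + b) ≤ n * a * b) :
    Real.pi / b + Real.pi / a / n ≤ Real.pi / k := by
  have hpi := Real.pi_pos
  have e1 : Real.pi / b + Real.pi / a / n = Real.pi * (k * (n * a + b)) / (n * a * b * k) := by
    field_simp
  have e2 : Real.pi / k = Real.pi * (n * a * b) / (n * a * b * k) := by
    field_simp
  rw [e1, e2]
  apply div_le_div_of_nonneg_right _ (by positivity)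
  exact mul_le_mul_of_nonneg_left h hpi.le

/-- No minimum with `q > 1/2`, `p + q ≥ 1`. -/
theorem Mn.not_far {n : ℕ} {s1 s4 s3 p0 q0 p q : ℝ} (hn : 1 ≤ n) (hB : Bp s1 s4 s3 p0 q0)
    (h : Mn n s1 s4 s3 p0 q0 p q) (h0 : 0 < p) (h1 : p < 1 / 2) (h2 : 1 / 2 < q) (h3 : q < 9 / 10) :
    p + q < 1 := by
  by_contra hpq
  rw [not_lt] at hpq
  obtain ⟨k1, k4, k3⟩ := bp_pos hB
  obtain ⟨y, hy⟩ := h.cross hn hB h0 h1 (by linarith) h3
  have hc : 0 < Sn (p + q) + s3 := by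
    rw [hy.hC]
    have := hy.hy
    positivity
  have h5 := h.hess hB h0 h1 (by linarith) h3 hc 0 1
  have h6 := lp_neg hB.h4 h2 (by linarith)
  have h7 : 0 ≤ Lp s3 (p + q) := by
    have e : Lp s3 (p + q) = Lp s3 (p + q - 1) := by
      unfold C2.Lp
      rw [show Real.pi * (p + q) = Real.pi * (p + q - 1) + Real.pi by ring, Real.sin_add_pi,
        Real.cos_add_pi]
      ring_nf
    rw [e]
    exact Lp_nonneg hB.h3 (by linarith) (by linarith)
  have e0 : (n : ℝ) * Lp s1 p * 0 ^ 2 + Lp s4 q * 1 ^ 2 - Lp s3 (p + q) * (0 + 1) ^ 2 =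
      Lp s4 q - Lp s3 (p + q) := by ring
  rw [e0] at h5
  linarith

/-- Second order, left: `i(C) ≥ i(D) + i(S) / n`, with squares. -/
theorem Mn.sec_left {n : ℕ} {s1 s4 s3 p0 q0 p q : ℝ} (hn : 1 ≤ n) (hB : Bp s1 s4 s3 p0 q0)
    (h : Mn n s1 s4 s3 p0 q0 p q) (h0 : 0 < p) (h1 : p < 1 / 2) (h2 : 1 / 10 < q) (h3 : q < 1 / 2)
    (h4 : p + q < 1 / 2) :
    √(Iq s4 (Sn q)) + √(Iq s1 (Sn p)) / n ≤ √(Iq s3 (Sn (p + q))) := by
  have hn' : (0 : ℝ) < n := by exact_mod_cast (by omega : 0 < n)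
  have kc := Sn_pos (t := p + q) (by linarith) (by linarith)
  have hh := h.hess hB h0 h1 h2 (by linarith) (by linarith [hB.h3])
  have l1 := lp_pos hB.h1 h0 h1
  have l4 := lp_pos hB.h4 (show 0 < q by linarith) h3
  have l3 := lp_pos hB.h3 (show 0 < p + q by linarith) h4
  rw [iq_left hB.h1 h0 h1, iq_left hB.h4 (by linarith) h3, iq_left hB.h3 (by linarith) h4]
  exact inv_form l1 l4 l3 hn' (form3_neg (mul_pos hn' l1) l4 hh)

/-- Second order, right: `i(D) ≥ i(C) + i(S) / n`. -/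
theorem Mn.sec_right {n : ℕ} {s1 s4 s3 p0 q0 p q : ℝ} (hn : 1 ≤ n) (hB : Bp s1 s4 s3 p0 q0)
    (h : Mn n s1 s4 s3 p0 q0 p q) (h0 : 0 < p) (h1 : p < 1 / 2) (h2 : 1 / 2 < q) (h3 : q < 9 / 10)
    (h4 : p + q < 1) :
    √(Iq s3 (Sn (p + q))) + √(Iq s1 (Sn p)) / n ≤ √(Iq s4 (Sn q)) := by
  have hn' : (0 : ℝ) < n := by exact_mod_cast (by omega : 0 < n)
  have kc := Sn_pos (t := p + q) (by linarith) h4
  have hh := h.hess hB h0 h1 (by linarith) h3 (by linarith [hB.h3])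
  have l1 := lp_pos hB.h1 h0 h1
  have l4 := lp_neg hB.h4 h2 (by linarith)
  have l3 := lp_neg hB.h3 (show 1 / 2 < p + q by linarith) h4
  rw [iq_left hB.h1 h0 h1, iq_right hB.h4 h2 (by linarith), iq_right hB.h3 (by linarith) h4]
  refine inv_form (a := Lp s1 p) (b := -Lp s3 (p + q)) (k := -Lp s4 q) l1 (by linarith)
    (by linarith) hn' (form3_neg (mul_pos hn' l1) (by linarith) ?_)
  intro d e
  have := hh d (-(d + e))
  have e1 : d + -(d + e) = -e := by ring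
  rw [e1] at this
  have e2 : (-(d + e)) ^ 2 = (d + e) ^ 2 := by ring
  have e3 : (-e) ^ 2 = e ^ 2 := by ring
  rw [e2, e3] at this
  linarith

end Pool.Agent.S5.Y3
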