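import Pool.Agent.S5.I.Y3W
import Pool.Agent.S5.I.Y3E
import Pool.Agent.S5.I.Y3X
import Pool.Agent.S5.I.Y3T
import Pool.Agent.S5.I.Y3H
import Pool.Agent.S5.I.NumSnd

/-!
# The flats of a node with three half twists: soundness of the tests of the crossings
-/

set_option autoImplicit false

namespace Pool.Agent.S5.Y3

open MeasureTheory Filter Topology Set Pool.Agent.S5.C2 Pool.Agent.S5.Num Pool.Agent.S5.K3

/-! ### Natural numbers -/

private theorem nsub (a b : ℕ) : ((a - b : ℕ) : ℝ) = max ((a : ℝ) - b) 0 := by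
  rcases le_total a b with h | h
  · rw [Nat.sub_eq_zero_of_le h, Nat.cast_zero, max_eq_right]
    have : (a : ℝ) ≤ b := by exact_mod_cast h
    linarith
  · rw [Nat.cast_sub h, max_eq_left]
    have : (b : ℝ) ≤ a := by exact_mod_cast h
    linarith

private theorem ltn_lt {a b : ℕ} (h : ltn a b = true) : (a : ℝ) < b := by
  have h1 : a + 1 ≤ b := Nat.le_of_ble_eq_true h
  exact_mod_cast h1

private theorem ltn_le {a b : ℕ} (h : ltn a b = false) : (b : ℝ) ≤ a := by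
  by_contra h1
  have h2 : a + 1 ≤ b := by
    have h3 : (a : ℝ) < b := not_le.1 h1
    exact_mod_cast h3
  have h4 : ltn a b = true := Nat.ble_eq_true_of_le h2
  rw [h4] at h
  cases h

private theorem mnn_eq (a b : ℕ) : ((mnn a b : ℕ) : ℝ) = min (a : ℝ) b := by
  unfold mnn
  cases h : Nat.ble a b
  · have h1 : ¬ a ≤ b := fun h2 => by
      rw [Nat.ble_eq_true_of_le h2] at h
      cases h
    show (b : ℝ) = _
    rw [min_eq_right]
    have h2 : b ≤ a := by omega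
    exact_mod_cast h2
  · show (a : ℝ) = _
    rw [min_eq_left]
    have h2 : a ≤ b := Nat.le_of_ble_eq_true h
    exact_mod_cast h2

private theorem mxn_eq (a b : ℕ) : ((mxn a b : ℕ) : ℝ) = max (a : ℝ) b := by
  unfold mxn
  cases h : Nat.ble a b
  · have h1 : ¬ a ≤ b := fun h2 => by
      rw [Nat.ble_eq_true_of_le h2] at h
      cases h
    show (a : ℝ) = _
    rw [max_eq_left]
    have h2 : b ≤ a := by omega
    exact_mod_cast h2
  · show (b : ℝ) = _
    rw [max_eq_right]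
    have h2 : a ≤ b := Nat.le_of_ble_eq_true h
    exact_mod_cast h2

/-- the positive parts -/
private theorem pos_parts {s sl sh x u : ℝ} (h1 : sl ≤ s) (h2 : s ≤ sh) :
    sl * max (x - u) 0 - sh * max (u - x) 0 ≤ s * (x - u) ∧
      s * (x - u) ≤ sh * max (x - u) 0 - sl * max (u - x) 0 := by
  rcases le_total x u with h | h
  · rw [max_eq_right (by linarith), max_eq_left (by linarith)]
    constructor <;> nlinarith
  · rw [max_eq_left (by linarith), max_eq_right (by linarith)]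
    constructor <;> nlinarith

private theorem loA_le {a sl sh u x : ℕ} {A s X : ℝ} (hu : 0 < u) (hA : (a : ℝ) ≤ 1048576 * A)
    (_hA0 : 0 ≤ A) (h1 : (sl : ℝ) ≤ 1048576 * s) (h2 : 1048576 * s ≤ sh) (_hs : 0 ≤ s)
    (hX : (x : ℝ) ≤ u * X) (hV : 0 ≤ A * X + s * (X - 1)) :
    ((loA a sl sh u x : ℕ) : ℝ) ≤ 1048576 * (A * X + s * (X - 1)) := by
  have hu' : (0 : ℝ) < u := by exact_mod_cast hu
  refine (Nat.cast_div_le (α := ℝ)).trans ?_
  rw [div_le_iff₀ hu']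
  show (((a * x + sl * (x - u)) - sh * (u - x) : ℕ) : ℝ) ≤ _
  rw [nsub]
  apply max_le
  · push_cast
    rw [nsub, nsub]
    have h3 := (pos_parts (x := (x : ℝ)) (u := (u : ℝ)) h1 h2).1
    have h4 : (a : ℝ) * x ≤ 1048576 * A * x := mul_le_mul_of_nonneg_right hA (Nat.cast_nonneg x)
    have h5 : (A + s) * x ≤ (A + s) * (u * X) := mul_le_mul_of_nonneg_left hX (by linarith)
    linarith
  · have := mul_nonneg (mul_nonneg (by norm_num : (0 : ℝ) ≤ 1048576) hV) hu'.le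
    linarith

private theorem le_hiA {a sl sh u x : ℕ} {A s X : ℝ} (hu : 0 < u) (hA : 1048576 * A ≤ a)
    (hA0 : 0 ≤ A) (h1 : (sl : ℝ) ≤ 1048576 * s) (h2 : 1048576 * s ≤ sh) (_hs : 0 ≤ s)
    (hX : u * X ≤ x) :
    1048576 * (A * X + s * (X - 1)) ≤ ((hiA a sl sh u x : ℕ) : ℝ) := by
  have hu' : (0 : ℝ) < u := by exact_mod_cast hu
  have h0 : (((a * x + sh * (x - u)) - sl * (u - x) : ℕ) : ℝ) <
      u * ((hiA a sl sh u x : ℕ) : ℝ) := by
    have h := Nat.lt_mul_div_succ ((a * x + sh * (x - u)) - sl * (u - x)) hu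
    exact_mod_cast h
  rw [nsub] at h0
  have h3 := le_trans (le_max_left _ _) h0.le
  push_cast at h3
  rw [nsub, nsub] at h3
  have h4 := (pos_parts (x := (x : ℝ)) (u := (u : ℝ)) h1 h2).2
  have h5 : 1048576 * A * x ≤ (a : ℝ) * x := mul_le_mul_of_nonneg_right hA (Nat.cast_nonneg x)
  have h6 : (A + s) * (u * X) ≤ (A + s) * x := mul_le_mul_of_nonneg_left hX (by linarith)
  have h7 : u * (1048576 * (A * X + s * (X - 1))) ≤ u * ((hiA a sl sh u x : ℕ) : ℝ) := by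
    linarith
  exact le_of_mul_le_mul_left h7 hu'

private theorem xx_le {n Y : ℕ} {y : ℝ} (hn : n = 1 ∨ n = 2) (h : (Y : ℝ) ≤ 1024 * y) :
    ((xx n Y : ℕ) : ℝ) ≤ 1048576 * y ^ n := by
  have h0 : (0 : ℝ) ≤ Y := Nat.cast_nonneg Y
  rcases hn with rfl | rfl
  · show ((1024 * Y : ℕ) : ℝ) ≤ _
    push_cast
    linarith
  · show ((Y * Y : ℕ) : ℝ) ≤ _
    push_cast
    nlinarith

private theorem le_xx {n Y : ℕ} {y : ℝ} (hn : n = 1 ∨ n = 2) (h0 : 0 ≤ y) (h : 1024 * y ≤ Y) :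
    1048576 * y ^ n ≤ ((xx n Y : ℕ) : ℝ) := by
  rcases hn with rfl | rfl
  · show _ ≤ ((1024 * Y : ℕ) : ℝ)
    push_cast
    linarith
  · show _ ≤ ((Y * Y : ℕ) : ℝ)
    push_cast
    nlinarith

/-- `α x + β y - γ x y` on a rectangle -/
private theorem bil {α β γ xl xh yl yh x y m : ℝ} (h1 : xl ≤ x) (h2 : x ≤ xh) (h3 : yl ≤ y)
    (h4 : y ≤ yh) (a : m ≤ α * xl + β * yl - γ * (xl * yl)) (b : m ≤ α * xl + β * yh - γ * (xl * yh))
    (c : m ≤ α * xh + β * yl - γ * (xh * yl)) (d : m ≤ α * xh + β * yh - γ * (xh * yh)) :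
    m ≤ α * x + β * y - γ * (x * y) := by
  have lin : ∀ {u v l h t m : ℝ}, l ≤ t → t ≤ h → m ≤ u + v * l → m ≤ u + v * h → m ≤ u + v * t := by
    intro u v l h t m k1 k2 k3 k4
    rcases le_total 0 v with hv | hv
    · have := mul_le_mul_of_nonneg_left k1 hv
      linarith
    · have := mul_le_mul_of_nonpos_left k2 hv
      linarith
  have e1 : m ≤ α * xl + (β - γ * xl) * y :=
    lin h3 h4 (by linarith) (by linarith)
  have e2 : m ≤ α * xh + (β - γ * xh) * y :=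
    lin h3 h4 (by linarith) (by linarith)
  have e3 : m ≤ β * y + (α - γ * y) * x :=
    lin h1 h2 (by linarith) (by linarith)
  linarith

private theorem mn4_le (f : ℕ → ℕ → ℕ) (xl xh yl yh : ℕ) :
    ((mn4 f xl xh yl yh : ℕ) : ℝ) ≤ f xl yl ∧ ((mn4 f xl xh yl yh : ℕ) : ℝ) ≤ f xl yh ∧
      ((mn4 f xl xh yl yh : ℕ) : ℝ) ≤ f xh yl ∧ ((mn4 f xl xh yl yh : ℕ) : ℝ) ≤ f xh yh := by
  unfold mn4
  rw [mnn_eq, mnn_eq, mnn_eq]
  exact ⟨(min_le_left _ _).trans (min_le_left _ _), (min_le_left _ _).trans (min_le_right _ _),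
    (min_le_right _ _).trans (min_le_left _ _), (min_le_right _ _).trans (min_le_right _ _)⟩

private theorem mn4_gmx {xl xh yl yh : ℕ} {x y : ℝ} (h1 : (xl : ℝ) ≤ x) (h2 : x ≤ xh)
    (h3 : (yl : ℝ) ≤ y) (h4 : y ≤ yh) (hx : xl ≤ 1048576) (hx' : xh ≤ 1048576) (hy : yl ≤ 1048576)
    (hy' : yh ≤ 1048576) :
    ((mn4 gmx xl xh yl yh : ℕ) : ℝ) ≤ 1048576 * (x + 3 * y) - 4 * (x * y) := by
  have hg : ∀ a b : ℕ, a ≤ 1048576 → b ≤ 1048576 →
      ((gmx a b : ℕ) : ℝ) = 1048576 * a + 3145728 * b - 4 * (a * b) := by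
    intro a b ha hb
    show ((1048576 * (a + 3 * b) - 4 * (a * b) : ℕ) : ℝ) = _
    rw [Nat.cast_sub]
    · push_cast
      ring
    · nlinarith [Nat.mul_le_mul_left a hb, Nat.mul_le_mul_right b ha]
  obtain ⟨k1, k2, k3, k4⟩ := mn4_le gmx xl xh yl yh
  rw [hg _ _ hx hy] at k1
  rw [hg _ _ hx hy'] at k2
  rw [hg _ _ hx' hy] at k3
  rw [hg _ _ hx' hy'] at k4
  have := bil h1 h2 h3 h4 k1 k2 k3 k4
  linarith

private theorem mn4_gdx {xl xh yl yh : ℕ} {x y : ℝ} (h1 : (xl : ℝ) ≤ x) (h2 : x ≤ xh)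
    (h3 : (yl : ℝ) ≤ y) (h4 : y ≤ yh) (hx : xl ≤ 1048576) (hx' : xh ≤ 1048576) (hy : yl ≤ 1048576)
    (hy' : yh ≤ 1048576) :
    ((mn4 gdx xl xh yl yh : ℕ) : ℝ) ≤ 1048576 * (x + y) - 2 * (x * y) := by
  have hg : ∀ a b : ℕ, a ≤ 1048576 → b ≤ 1048576 →
      ((gdx a b : ℕ) : ℝ) = 1048576 * a + 1048576 * b - 2 * (a * b) := by
    intro a b ha hb
    show ((1048576 * (a + b) - 2 * (a * b) : ℕ) : ℝ) = _
    rw [Nat.cast_sub]
    · push_cast
      ring
    · nlinarith [Nat.mul_le_mul_left a hb, Nat.mul_le_mul_right b ha]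
  obtain ⟨k1, k2, k3, k4⟩ := mn4_le gdx xl xh yl yh
  rw [hg _ _ hx hy] at k1
  rw [hg _ _ hx hy'] at k2
  rw [hg _ _ hx' hy] at k3
  rw [hg _ _ hx' hy'] at k4
  have := bil h1 h2 h3 h4 k1 k2 k3 k4
  linarith

/-- `M - m` from above at a grid point -/
private theorem le_kpx {mh sMl sMh ml sml smh x : ℕ} {M m sM sm : ℝ} (hM : 1048576 * M ≤ mh)
    (hm : (ml : ℝ) ≤ 1048576 * m) (h1 : (sMl : ℝ) ≤ 1048576 * sM) (h2 : 1048576 * sM ≤ sMh)
    (h3 : (sml : ℝ) ≤ 1048576 * sm) (h4 : 1048576 * sm ≤ smh) :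
    1048576 * (1048576 * ((M - m) * (x / 1048576) + (sM - sm) * (x / 1048576 - 1))) ≤
      ((kpx mh sMl sMh ml sml smh x : ℕ) : ℝ) := by
  show _ ≤ (((mh * x + sMh * (x - 1048576)) + smh * (1048576 - x) -
    ((ml * x + sml * (x - 1048576)) + sMl * (1048576 - x)) : ℕ) : ℝ)
  rw [nsub]
  refine le_trans ?_ (le_max_left _ _)
  push_cast
  rw [nsub, nsub]
  push_cast
  have e1 := (pos_parts (x := (x : ℝ)) (u := (1048576 : ℝ)) h1 h2).2
  have e2 := (pos_parts (x := (x : ℝ)) (u := (1048576 : ℝ)) h3 h4).1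
  have e3 : 1048576 * M * x ≤ (mh : ℝ) * x := mul_le_mul_of_nonneg_right hM (Nat.cast_nonneg x)
  have e4 : (ml : ℝ) * x ≤ 1048576 * m * x := mul_le_mul_of_nonneg_right hm (Nat.cast_nonneg x)
  linarith

/-- `M - m` from above between two grid points -/
private theorem le_kpx2 {mh sMl sMh ml sml smh x0 x1 : ℕ} {M m sM sm X : ℝ} (hM : 1048576 * M ≤ mh)
    (hm : (ml : ℝ) ≤ 1048576 * m) (h1 : (sMl : ℝ) ≤ 1048576 * sM) (h2 : 1048576 * sM ≤ sMh)
    (h3 : (sml : ℝ) ≤ 1048576 * sm) (h4 : 1048576 * sm ≤ smh) (hx0 : (x0 : ℝ) ≤ 1048576 * X)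
    (hx1 : 1048576 * X ≤ x1) :
    1048576 * (1048576 * ((M - m) * X + (sM - sm) * (X - 1))) ≤
      ((mxn (kpx mh sMl sMh ml sml smh x0) (kpx mh sMl sMh ml sml smh x1) : ℕ) : ℝ) := by
  rw [mxn_eq]
  have e0 := le_kpx (x := x0) hM hm h1 h2 h3 h4
  have e1 := le_kpx (x := x1) hM hm h1 h2 h3 h4
  rcases le_total 0 ((M - m) + (sM - sm)) with h | h
  · refine le_trans ?_ (le_max_right _ _)
    have : ((M - m) + (sM - sm)) * (1048576 * X) ≤ ((M - m) + (sM - sm)) * x1 :=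
      mul_le_mul_of_nonneg_left hx1 h
    linarith
  · refine le_trans ?_ (le_max_left _ _)
    have : ((M - m) + (sM - sm)) * (1048576 * X) ≤ ((M - m) + (sM - sm)) * x0 :=
      mul_le_mul_of_nonpos_left hx0 h
    linarith


/-! ### The function `Iq` -/

private theorem iqL_bd {s S : ℕ} (h1 : 1 ≤ S) (h2 : S ≤ 1048575) :
    ((iqL s S : ℕ) : ℝ) ≤ 1048576 * Iq (s / 1048576) (S / 1048576) ∧
      1048576 * Iq (s / 1048576) (S / 1048576) ≤ ((iqH s S : ℕ) : ℝ) := by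
  have hS0 : (0 : ℝ) < S := by exact_mod_cast h1
  have hS1 : (S : ℝ) ≤ 1048575 := by exact_mod_cast h2
  have hD : 0 < S * (1048576 - S) := Nat.mul_pos h1 (by omega)
  have hD' : (0 : ℝ) < (S : ℝ) * (1048576 - S) := mul_pos hS0 (by linarith)
  have e : 1048576 * Iq ((s : ℝ) / 1048576) (S / 1048576) =
      1048576 * ((S : ℝ) + s) ^ 2 / (S * (1048576 - S)) := by
    unfold Iq
    have h3 : (S : ℝ) / 1048576 * (1 - S / 1048576) = S * (1048576 - S) / 1048576 ^ 2 := by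
      field_simp
    have h4 : ((S : ℝ) / 1048576 + s / 1048576) ^ 2 = (S + s) ^ 2 / 1048576 ^ 2 := by
      field_simp
    rw [h3, h4, div_div_div_cancel_right₀ (by norm_num), mul_div_assoc]
  have e1 : (((1048576 * ((S + s) * (S + s)) : ℕ)) : ℝ) / ((S * (1048576 - S) : ℕ) : ℝ) =
      1048576 * ((S : ℝ) + s) ^ 2 / (S * (1048576 - S)) := by
    rw [Nat.cast_mul S, Nat.cast_sub (by omega : S ≤ 1048576)]
    push_cast
    rw [sq]
  have e2 : iqL s S = (1048576 * ((S + s) * (S + s))) / (S * (1048576 - S)) := by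
    show Nat.div (Nat.mul 1048576 (fN (fun x => Nat.mul x x) (Nat.add S s))) _ = _
    rw [fN_eq]
    rfl
  constructor
  · rw [e, ← e1, e2]
    exact Nat.cast_div_le
  · rw [e, ← e1]
    have h5 : iqH s S = (1048576 * ((S + s) * (S + s))) / (S * (1048576 - S)) + 1 :=
      congrArg Nat.succ e2
    rw [h5]
    have h6 := Nat.lt_mul_div_succ (1048576 * ((S + s) * (S + s))) hD
    have h7 : ((1048576 * ((S + s) * (S + s)) : ℕ) : ℝ) < ((S * (1048576 - S) : ℕ) : ℝ) *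
        ((((1048576 * ((S + s) * (S + s))) / (S * (1048576 - S)) + 1 : ℕ)) : ℝ) := by
      exact_mod_cast h6
    have h8 : (0 : ℝ) < ((S * (1048576 - S) : ℕ) : ℝ) := by exact_mod_cast hD
    rw [div_le_iff₀ h8]
    exact h7.le.trans_eq (mul_comm _ _)

private theorem iqm_bd {s S : ℕ} {σ T : ℝ} (hs : (s : ℝ) ≤ 1048576 * σ) (hS : (S : ℝ) ≤ 1048576 * T)
    (hT : 0 < T) (hT1 : T < 1) : ((iqm s S : ℕ) : ℝ) ≤ 1048576 * Iq σ T := by
  have hs0 : (0 : ℝ) ≤ s := Nat.cast_nonneg s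
  have hσ : (s : ℝ) / 1048576 ≤ σ := by
    rw [div_le_iff₀ (by norm_num)]
    linarith
  have hσ0 : (0 : ℝ) ≤ (s : ℝ) / 1048576 := by positivity
  have m1 := Iq_mono_s hσ0 hσ hT hT1
  by_cases h : (1 ≤ S ∧ S ≤ 1048575) ∧ 1048576 * s ≤ S * (1048576 + 2 * s)
  · obtain ⟨⟨a, b⟩, c⟩ := h
    have e : iqm s S = iqL s S := by
      unfold iqm
      rw [Nat.ble_eq_true_of_le a, Nat.ble_eq_true_of_le b]
      have c' : Nat.ble (Nat.mul 1048576 s) (Nat.mul S (Nat.add 1048576 (Nat.mul 2 s))) = true :=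
        Nat.ble_eq_true_of_le c
      rw [c']
      rfl
    rw [e]
    refine (iqL_bd a b).1.trans ?_
    have hS0 : (0 : ℝ) < (S : ℝ) / 1048576 := by
      have : (0 : ℝ) < S := by exact_mod_cast a
      positivity
    have c2 : (1048576 : ℝ) * s ≤ S * (1048576 + 2 * s) := by exact_mod_cast c
    have m2 := Iq_mono (s := (s : ℝ) / 1048576) (S := T) (Sl := (S : ℝ) / 1048576) hσ0 hS0
      (by rw [div_le_iff₀ (by norm_num)]; linarith) hT1 (by
        have e3 : (S : ℝ) / 1048576 * (1 + 2 * (s / 1048576)) =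
            S * (1048576 + 2 * s) / 1048576 ^ 2 := by
          field_simp
        rw [e3, div_le_div_iff₀ (by norm_num) (by norm_num)]
        nlinarith)
    linarith
  · have e : iqm s S = (4 * (s * (1048576 + s))) / 1048576 := by
      unfold iqm
      have h3 : cond (cond (Nat.ble 1 S) (cond (Nat.ble S 1048575)
          (Nat.ble (Nat.mul 1048576 s) (Nat.mul S (Nat.add 1048576 (Nat.mul 2 s)))) false) false)
          (iqL s S) (Nat.div (Nat.mul 4 (Nat.mul s (Nat.add 1048576 s))) 1048576) =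
          Nat.div (Nat.mul 4 (Nat.mul s (Nat.add 1048576 s))) 1048576 := by
        cases h4 : Nat.ble 1 S
        · rfl
        · cases h5 : Nat.ble S 1048575
          · rfl
          · cases h6 : Nat.ble (Nat.mul 1048576 s) (Nat.mul S (Nat.add 1048576 (Nat.mul 2 s)))
            · rfl
            · exact absurd ⟨⟨Nat.le_of_ble_eq_true h4, Nat.le_of_ble_eq_true h5⟩,
                Nat.le_of_ble_eq_true h6⟩ h
      exact h3
    rw [e]
    refine (Nat.cast_div_le (α := ℝ)).trans ?_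
    push_cast
    have m3 := Iq_ge hσ0 hT hT1
    rw [div_le_iff₀ (by norm_num)]
    have e4 : (4 : ℝ) * ((s : ℝ) / 1048576 * (1 + s / 1048576)) * (1048576 * 1048576) =
        4 * (s * (1048576 + s)) := by
      field_simp
    nlinarith

private theorem rtl_bd {X Y Z : ℕ} (h : rtl X Y Z = true) : √(X : ℝ) < √(Y : ℝ) + √(Z : ℝ) := by
  have h1 : cond (ltn X (Nat.add Y Z)) true (ltn (sqn (Nat.sub X (Nat.add Y Z))) (Nat.mul 4 (Nat.mul Y Z))) =
      true := by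
    have e : rtl X Y Z = cond (ltn X (Nat.add Y Z)) true
        (ltn (sqn (Nat.sub X (Nat.add Y Z))) (Nat.mul 4 (Nat.mul Y Z))) := by
      unfold rtl
      rw [fN_eq, fN_eq, fN_eq]
    rw [← e]
    exact h
  have hX : (0 : ℝ) ≤ X := Nat.cast_nonneg X
  have hY : (0 : ℝ) ≤ Y := Nat.cast_nonneg Y
  have hZ : (0 : ℝ) ≤ Z := Nat.cast_nonneg Z
  have y0 := Real.sqrt_nonneg (Y : ℝ)
  have z0 := Real.sqrt_nonneg (Z : ℝ)
  have yy := Real.mul_self_sqrt hY
  have zz := Real.mul_self_sqrt hZ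
  have key : (X : ℝ) < (√(Y : ℝ) + √(Z : ℝ)) ^ 2 := by
    cases h2 : ltn X (Nat.add Y Z)
    · rw [h2] at h1
      have h3 := ltn_lt h1
      have h4 : sqn (Nat.sub X (Nat.add Y Z)) = (X - (Y + Z)) * (X - (Y + Z)) := by
        unfold sqn
        rw [fN_eq]
        rfl
      rw [h4] at h3
      have h5 : (((4 * (Y * Z) : ℕ)) : ℝ) = 4 * (Y * Z) := by push_cast; ring
      have h6 : ((((X - (Y + Z)) * (X - (Y + Z)) : ℕ)) : ℝ) < (((4 * (Y * Z) : ℕ)) : ℝ) := h3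
      rw [h5, Nat.cast_mul, nsub] at h6
      push_cast at h6
      set w : ℝ := (X : ℝ) - (Y + Z) with hw
      have h7 : w < 2 * (√(Y : ℝ) * √(Z : ℝ)) := by
        have h8 : (4 : ℝ) * (Y * Z) = (2 * (√(Y : ℝ) * √(Z : ℝ))) ^ 2 := by
          calc (4 : ℝ) * (Y * Z) = 4 * ((√(Y : ℝ) * √(Y : ℝ)) * (√(Z : ℝ) * √(Z : ℝ))) := by rw [yy, zz]
            _ = _ := by ring
        rw [h8, ← sq] at h6
        have h9 := lt_of_pow_lt_pow_left₀ 2 (by positivity) h6
        exact lt_of_le_of_lt (le_max_left _ _) h9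
      nlinarith
    · have h3 := ltn_lt h2
      have h4 : (X : ℝ) < ((Y + Z : ℕ) : ℝ) := h3
      push_cast at h4
      nlinarith [mul_nonneg y0 z0]
  have h10 : 0 < √(Y : ℝ) + √(Z : ℝ) := by
    rcases lt_or_eq_of_le (add_nonneg y0 z0) with h11 | h11
    · exact h11
    · rw [← h11] at key
      nlinarith
  exact (Real.sqrt_lt' h10).2 key

/-! ### Booleans -/

private theorem fN_of {f : ℕ → Bool} {m : ℕ} (h : fN f m = true) : f m = true :=
  (fN_eq f m).symm.trans h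

private theorem cond_t {a b c : Bool} (e : a = true) (h : cond a b c = true) : b = true := by
  rw [e] at h
  exact h

private theorem cond_f {a b c : Bool} (e : a = false) (h : cond a b c = true) : c = true := by
  rw [e] at h
  exact h

/-! ### The test of a side -/

private theorem lfs_no {n k Sl s1l Ml Mh sMh ml mh sml : ℕ} {S M m sM sm s1 : ℝ}
    (hk : 1048576 * (1048576 * (M - m)) ≤ k)
    (hSl : (Sl : ℝ) ≤ 1048576 * S) (hs1l : (s1l : ℝ) ≤ 1048576 * s1)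
    (hM1 : (Ml : ℝ) ≤ 1048576 * M) (hM2 : 1048576 * M ≤ Mh) (hM3 : Mh ≤ 1048576)
    (hsM : 0 ≤ sM) (hsM2 : 1048576 * sM ≤ sMh)
    (hm1 : (ml : ℝ) ≤ 1048576 * m) (hm2 : 1048576 * m ≤ mh) (hm3 : mh ≤ 1048576)
    (hsm : (sml : ℝ) ≤ 1048576 * sm) (hS0 : 0 < S) (hS1 : S < 1) (hm0 : 0 < m) (hm1' : m < 1)
    (hMx : M ≤ 1)
    (kap1 : m < M) (kap2 : S ≤ M - m) (kap3 : S * (M + 3 * m - 4 * (M * m)) ≤ (M - m) ^ 2)
    (sec : √(Iq sm m) + √(Iq s1 S) / n ≤ √(Iq sM M))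
    (h : lfs n k Sl s1l Ml Mh sMh ml mh sml = true) : False := by
  have hMl : Ml ≤ 1048576 := by
    have h1 : (Ml : ℝ) ≤ 1048576 := by linarith
    exact_mod_cast h1
  have hml : ml ≤ 1048576 := by
    have h1 : (ml : ℝ) ≤ 1048576 := by linarith
    exact_mod_cast h1
  have hk0 : (0 : ℝ) < k := by
    have : 0 < M - m := by linarith
    have h2 : 0 < 1048576 * (1048576 * (M - m)) := by positivity
    linarith
  unfold lfs at h
  rcases cond_or h with h | h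
  · rcases cond_or h with h | h
    · have h1 : k ≤ 0 := Nat.le_of_ble_eq_true h
      have h2 : (k : ℝ) ≤ 0 := by exact_mod_cast h1
      linarith
    · have h1 := ltn_lt h
      have h2 : (k : ℝ) < ((1048576 * Sl : ℕ) : ℝ) := h1
      push_cast at h2
      linarith
  · rcases cond_or h with h | h
    · have h1 : ((k * k : ℕ) : ℝ) < ((1048576 * Sl * mn4 gmx Ml Mh ml mh : ℕ) : ℝ) := by
        have h2 := ltn_lt h
        have h3 : sqn k = k * k := by
          unfold sqn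
          rw [fN_eq]
          rfl
        rw [h3] at h2
        exact h2
      push_cast at h1
      have h4 := mn4_gmx hM1 hM2 hm1 hm2 hMl hM3 hml hm3
      have h5 : (0 : ℝ) ≤ ((mn4 gmx Ml Mh ml mh : ℕ) : ℝ) := Nat.cast_nonneg _
      have h6 : (1048576 * (Sl : ℝ)) * ((mn4 gmx Ml Mh ml mh : ℕ) : ℝ) ≤
          (1048576 * (1048576 * S)) * (1048576 * (1048576 * M + 3 * (1048576 * m)) -
            4 * (1048576 * M * (1048576 * m))) :=
        mul_le_mul (by linarith) h4 h5 (by positivity)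
      have h7 : (1048576 * (1048576 * (M - m))) ^ 2 ≤ (k : ℝ) ^ 2 :=
        pow_le_pow_left₀ (by
          have : 0 < M - m := by linarith
          positivity) hk 2
      nlinarith
    · obtain ⟨h1, h⟩ := cond_and h
      obtain ⟨h2, h⟩ := cond_and h
      have h1 : 1 ≤ Ml := Nat.le_of_ble_eq_true h1
      have h2 : Mh ≤ 1048575 := Nat.le_of_ble_eq_true h2
      have hr := rtl_bd h
      have hMl0 : (0 : ℝ) < (Ml : ℝ) / 1048576 := by
        have : (0 : ℝ) < Ml := by exact_mod_cast h1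
        positivity
      have hMh1 : (Mh : ℝ) / 1048576 < 1 := by
        have : (Mh : ℝ) ≤ 1048575 := by exact_mod_cast h2
        rw [div_lt_one (by norm_num)]
        linarith
      have hM0 : 0 < M := by linarith
      have hMlt : M < 1 := by
        have : M ≤ (Mh : ℝ) / 1048576 := by
          rw [le_div_iff₀ (by norm_num)]
          linarith
        linarith
      have hMh2 : Ml ≤ 1048575 := by
        have h3 : (Ml : ℝ) ≤ Mh := by linarith
        have h4 : Ml ≤ Mh := by exact_mod_cast h3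
        omega
      have hMh3 : 1 ≤ Mh := by
        have h3 : (Ml : ℝ) ≤ Mh := by linarith
        have h4 : Ml ≤ Mh := by exact_mod_cast h3
        omega
      -- X
      have hX : 1048576 * Iq sM M ≤ ((mxn (iqH sMh Ml) (iqH sMh Mh) : ℕ) : ℝ) := by
        rw [mxn_eq]
        have a1 := Iq_mono_s (s := sM) (s' := (sMh : ℝ) / 1048576) (S := M) hsM
          (by rw [le_div_iff₀ (by norm_num)]; linarith) hM0 hMlt
        have a2 := Iq_le (s := (sMh : ℝ) / 1048576) (S := M) (by positivity) hMl0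
          (by rw [div_le_iff₀ (by norm_num)]; linarith)
          (by rw [le_div_iff₀ (by norm_num)]; linarith) hMh1
        have a3 := (iqL_bd (s := sMh) h1 hMh2).2
        have a4 := (iqL_bd (s := sMh) hMh3 h2).2
        rcases le_max_iff.1 a2 with a5 | a5
        · refine le_trans ?_ (le_max_left _ _)
          linarith
        · refine le_trans ?_ (le_max_right _ _)
          linarith
      have hY := iqm_bd hsm hm1 hm0 hm1'
      have hZ : ((Nat.div (iqm s1l Sl) (Nat.mul n n) : ℕ) : ℝ) ≤ 1048576 * (Iq s1 S / (n : ℝ) ^ 2) := by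
        refine (Nat.cast_div_le (α := ℝ)).trans ?_
        have b1 := iqm_bd hs1l hSl hS0 hS1
        have b2 : ((Nat.mul n n : ℕ) : ℝ) = (n : ℝ) ^ 2 := by
          show ((n * n : ℕ) : ℝ) = _
          push_cast
          ring
        rw [b2, mul_div_assoc']
        exact div_le_div_of_nonneg_right b1 (sq_nonneg _)
      have hn0 : (0 : ℝ) ≤ n := Nat.cast_nonneg n
      have s1024 : √(1048576 : ℝ) = 1024 := by
        rw [show (1048576 : ℝ) = 1024 ^ 2 by norm_num, Real.sqrt_sq (by norm_num)]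
      have c1 : 1024 * √(Iq sM M) ≤ √((mxn (iqH sMh Ml) (iqH sMh Mh) : ℕ) : ℝ) := by
        rw [← s1024, ← Real.sqrt_mul (by norm_num)]
        exact Real.sqrt_le_sqrt hX
      have c2 : √((iqm sml ml : ℕ) : ℝ) ≤ 1024 * √(Iq sm m) := by
        rw [← s1024, ← Real.sqrt_mul (by norm_num)]
        exact Real.sqrt_le_sqrt hY
      have c3 : √((Nat.div (iqm s1l Sl) (Nat.mul n n) : ℕ) : ℝ) ≤ 1024 * (√(Iq s1 S) / n) := by
        have e : √(Iq s1 S) / n = √(Iq s1 S / (n : ℝ) ^ 2) := by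
          rw [Real.sqrt_div' _ (sq_nonneg _), Real.sqrt_sq hn0]
        rw [e, ← s1024, ← Real.sqrt_mul (by norm_num)]
        exact Real.sqrt_le_sqrt hZ
      linarith

/-! ### The crossing -/

section

variable {d : Dx} {n : ℕ} {s1 s4 s3 s2 g5 p0 q0 qb p q y : ℝ}

private theorem Sp_eq (hc : Cr n s1 s4 s3 p0 q0 p q y) : Sn p = Sn p0 * y + s1 * (y - 1) := by
  have := hc.hS
  linarith

private theorem SC_eq (hc : Cr n s1 s4 s3 p0 q0 p q y) :
    Sn (p + q) = Sn (p0 + q0) * y ^ n + s3 * (y ^ n - 1) := by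
  have := hc.hC
  linarith

private theorem SD_eq (hc : Cr n s1 s4 s3 p0 q0 p q y) :
    Sn q = Sn q0 * y ^ n + s4 * (y ^ n - 1) := by
  have := hc.hD
  linarith

private theorem C_lo (hd : d.Ok s1 s4 s3 s2 g5 p0 q0 qb) (hc : Cr n s1 s4 s3 p0 q0 p q y) {x : ℕ}
    (hx : (x : ℝ) ≤ 1048576 * y ^ n) : ((loC d x : ℕ) : ℝ) ≤ 1048576 * Sn (p + q) := by
  rw [SC_eq hc]
  refine loA_le (by norm_num) hd.c1 (Sn_nonneg _) hd.s31 hd.s32 hd.B.h3 (by exact_mod_cast hx) ?_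
  rw [← SC_eq hc]
  exact Sn_nonneg _

private theorem D_lo (hd : d.Ok s1 s4 s3 s2 g5 p0 q0 qb) (hc : Cr n s1 s4 s3 p0 q0 p q y) {x : ℕ}
    (hx : (x : ℝ) ≤ 1048576 * y ^ n) : ((loD d x : ℕ) : ℝ) ≤ 1048576 * Sn q := by
  rw [SD_eq hc]
  refine loA_le (by norm_num) hd.d1 (Sn_nonneg _) hd.s41 hd.s42 hd.B.h4 (by exact_mod_cast hx) ?_
  rw [← SD_eq hc]
  exact Sn_nonneg _

private theorem S_lo (hd : d.Ok s1 s4 s3 s2 g5 p0 q0 qb) (hc : Cr n s1 s4 s3 p0 q0 p q y) {x : ℕ}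
    (hx : (x : ℝ) ≤ 1024 * y) : ((loS d x : ℕ) : ℝ) ≤ 1048576 * Sn p := by
  rw [Sp_eq hc]
  refine loA_le (by norm_num) hd.a1 (Sn_nonneg _) hd.s11 hd.s12 hd.B.h1 (by exact_mod_cast hx) ?_
  rw [← Sp_eq hc]
  exact Sn_nonneg _

private theorem C_hi (hd : d.Ok s1 s4 s3 s2 g5 p0 q0 qb) (hc : Cr n s1 s4 s3 p0 q0 p q y) {x : ℕ}
    (hx : 1048576 * y ^ n ≤ x) : 1048576 * Sn (p + q) ≤ ((hiC d x : ℕ) : ℝ) := by
  rw [SC_eq hc]
  exact le_hiA (by norm_num) hd.c2 (Sn_nonneg _) hd.s31 hd.s32 hd.B.h3 (by exact_mod_cast hx)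

private theorem D_hi (hd : d.Ok s1 s4 s3 s2 g5 p0 q0 qb) (hc : Cr n s1 s4 s3 p0 q0 p q y) {x : ℕ}
    (hx : 1048576 * y ^ n ≤ x) : 1048576 * Sn q ≤ ((hiD d x : ℕ) : ℝ) := by
  rw [SD_eq hc]
  exact le_hiA (by norm_num) hd.d2 (Sn_nonneg _) hd.s41 hd.s42 hd.B.h4 (by exact_mod_cast hx)

private theorem S_hi (hd : d.Ok s1 s4 s3 s2 g5 p0 q0 qb) (hc : Cr n s1 s4 s3 p0 q0 p q y) {x : ℕ}
    (hx : 1024 * y ≤ x) : 1048576 * Sn p ≤ ((hiS d x : ℕ) : ℝ) := by
  rw [Sp_eq hc]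
  exact le_hiA (by norm_num) hd.a2 (Sn_nonneg _) hd.s11 hd.s12 hd.B.h1 (by exact_mod_cast hx)

/-- `C > 1` or `D > 1` from `x` on. -/
theorem vac_ok {d : Dx} {n Y : ℕ} {s1 s4 s3 s2 g5 p0 q0 qb p q y : ℝ} (hn : n = 1 ∨ n = 2)
    (hd : d.Ok s1 s4 s3 s2 g5 p0 q0 qb) (hc : Cr n s1 s4 s3 p0 q0 p q y) (h : vac d (xx n Y) = true) :
    1024 * y < Y := by
  by_contra hy
  have hx := xx_le hn (not_lt.1 hy)
  unfold vac at h
  rcases cond_or h with h | h
  · have h1 := ltn_lt h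
    have h2 := C_lo hd hc hx
    have h3 := Sn_le_one (p + q)
    push_cast at h1
    linarith
  · have h1 := ltn_lt h
    have h2 := D_lo hd hc hx
    have h3 := Sn_le_one q
    push_cast at h1
    linarith

private theorem zeS_no (hd : d.Ok s1 s4 s3 s2 g5 p0 q0 qb) (hc : Cr n s1 s4 s3 p0 q0 p q y)
    (h0 : 0 < Sn p) {Y : ℕ} (hy : 1024 * y ≤ Y) (h : zeS d Y = true) : False := by
  have h1 : d.ah * Y + d.s1h * (Y - 1024) ≤ d.s1l * (1024 - Y) := Nat.le_of_ble_eq_true h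
  have h2 : ((d.ah * Y + d.s1h * (Y - 1024) : ℕ) : ℝ) ≤ ((d.s1l * (1024 - Y) : ℕ) : ℝ) := by
    exact_mod_cast h1
  push_cast at h2
  rw [nsub, nsub] at h2
  have h3 := (pos_parts (x := (Y : ℝ)) (u := (1024 : ℝ)) hd.s11 hd.s12).2
  have h4 := Sp_eq hc
  push_cast at h2
  have h5 : 1048576 * Sn p0 * Y ≤ (d.ah : ℝ) * Y :=
    mul_le_mul_of_nonneg_right hd.a2 (Nat.cast_nonneg Y)
  have h6 : (Sn p0 + s1) * (1024 * y) ≤ (Sn p0 + s1) * Y :=
    mul_le_mul_of_nonneg_left hy (add_nonneg (Sn_nonneg _) hd.B.h1)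
  linarith

/-- A leaf excludes `y ∈ [y0, y1] / 1024` (a minimum point has the second order properties sec_left / sec_right). -/
theorem leafC_ok {d : Dx} {n side z2 y0 y1 : ℕ} {s1 s4 s3 s2 g5 p0 q0 qb p q y : ℝ} (hn : n = 1 ∨ n = 2)
    (hs : side ≤ 2) (hd : d.Ok s1 s4 s3 s2 g5 p0 q0 qb) (hm : Mn n s1 s4 s3 p0 q0 p q)
    (hc : Cr n s1 s4 s3 p0 q0 p q y) (h0 : 0 < p) (h1 : p < 1 / 2) (h2 : 1 / 10 < q) (h3 : q < 9 / 10)
    (hS : Sd side p q) (hy0 : (y0 : ℝ) ≤ 1024 * y) (hy1 : 1024 * y ≤ y1)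
    (h : leafC d n side z2 y0 y1 = true) : z2 ≤ y0 := by
  have hSp : 0 < Sn p := Sn_pos h0 (by linarith)
  have hx0 := xx_le hn hy0
  have hx1 := le_xx hn hc.hy.le hy1
  have hn1 : 1 ≤ n := by rcases hn with rfl | rfl <;> norm_num
  unfold leafC at h
  rcases cond_or h with h | h
  · exact Nat.le_of_ble_eq_true h
  exfalso
  rcases cond_or h with h | h
  · exact zeS_no hd hc hSp hy1 h
  replace h := fN_of h
  replace h := fN_of h
  rcases cond_or h with h | h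
  · have := vac_ok hn hd hc h
    linarith
  replace h := fN_of h
  have hDh := D_hi hd hc hx1
  have hq10 := Ed.Sn_ge_tenth h2.le h3.le
  rcases cond_or h with h | h
  · have h4 := ltn_lt h
    push_cast at h4
    linarith
  replace h := fN_of h
  replace h := fN_of h
  replace h := fN_of h
  replace h := fN_of h
  have eCl := C_lo hd hc hx0
  have eCh : 1048576 * Sn (p + q) ≤ ((mnn (hiC d (xx n y1)) 1048576 : ℕ) : ℝ) := by
    rw [mnn_eq]
    exact le_min (C_hi hd hc hx1) (by push_cast; linarith [Sn_le_one (p + q)])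
  have eDl : ((mxn (loD d (xx n y0)) 100130 : ℕ) : ℝ) ≤ 1048576 * Sn q := by
    rw [mxn_eq]
    exact max_le (D_lo hd hc hx0) (by push_cast; linarith)
  have eDh : 1048576 * Sn q ≤ ((mnn (hiD d (xx n y1)) 1048576 : ℕ) : ℝ) := by
    rw [mnn_eq]
    exact le_min hDh (by push_cast; linarith [Sn_le_one q])
  have bCl : loC d (xx n y0) ≤ 1048576 := by
    have : ((loC d (xx n y0) : ℕ) : ℝ) ≤ 1048576 := by linarith [Sn_le_one (p + q)]
    exact_mod_cast this
  have bDl : mxn (loD d (xx n y0)) 100130 ≤ 1048576 := by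
    have : ((mxn (loD d (xx n y0)) 100130 : ℕ) : ℝ) ≤ 1048576 := by linarith [Sn_le_one q]
    exact_mod_cast this
  have bCh : mnn (hiC d (xx n y1)) 1048576 ≤ 1048576 := by
    have : ((mnn (hiC d (xx n y1)) 1048576 : ℕ) : ℝ) ≤ 1048576 := by
      rw [mnn_eq]
      exact (min_le_right _ _).trans (by norm_num)
    exact_mod_cast this
  have bDh : mnn (hiD d (xx n y1)) 1048576 ≤ 1048576 := by
    have : ((mnn (hiD d (xx n y1)) 1048576 : ℕ) : ℝ) ≤ 1048576 := by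
      rw [mnn_eq]
      exact (min_le_right _ _).trans (by norm_num)
    exact_mod_cast this
  have kC : 1048576 * (1048576 * (Sn (p + q) - Sn q)) ≤
      ((mxn (kpx d.ch d.s3l d.s3h d.dl d.s4l d.s4h (xx n y0))
        (kpx d.ch d.s3l d.s3h d.dl d.s4l d.s4h (xx n y1)) : ℕ) : ℝ) := by
    have := le_kpx2 hd.c2 hd.d1 hd.s31 hd.s32 hd.s41 hd.s42 hx0 hx1
    rw [SC_eq hc, SD_eq hc]
    linarith
  have kD : 1048576 * (1048576 * (Sn q - Sn (p + q))) ≤
      ((mxn (kpx d.dh d.s4l d.s4h d.cl d.s3l d.s3h (xx n y0))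
        (kpx d.dh d.s4l d.s4h d.cl d.s3l d.s3h (xx n y1)) : ℕ) : ℝ) := by
    have := le_kpx2 hd.d2 hd.c1 hd.s41 hd.s42 hd.s31 hd.s32 hx0 hx1
    rw [SC_eq hc, SD_eq hc]
    linarith
  have hSp1 : Sn p < 1 := Sn_lt_one h0 (by linarith) (by linarith)
  rcases hS with ⟨rfl, a, b⟩ | ⟨rfl, a⟩ | ⟨rfl, a, b⟩
  · -- the triangle
    have h4 : ltn (Nat.mul 1048576 (hiS d y1)) (mn4 gdx (loC d (xx n y0))
        (mnn (hiC d (xx n y1)) 1048576) (mxn (loD d (xx n y0)) 100130)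
        (mnn (hiD d (xx n y1)) 1048576)) = true := cond_t rfl h
    have h5 := ltn_lt h4
    have h6 : ((1048576 * hiS d y1 : ℕ) : ℝ) < ((mn4 gdx (loC d (xx n y0))
        (mnn (hiC d (xx n y1)) 1048576) (mxn (loD d (xx n y0)) 100130)
        (mnn (hiD d (xx n y1)) 1048576) : ℕ) : ℝ) := h5
    push_cast at h6
    have h7 := mn4_gdx eCl eCh eDl eDh bCl bCh bDl bDh
    have h8 := kap_mid h0.le h1.le (by linarith : (0 : ℝ) ≤ q) a b
    have h9 := S_hi hd hc hy1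
    linarith
  · -- left
    have hkap := kap_left h0 (by linarith : 0 < q) a.le
    have hsec := hm.sec_left hn1 hd.B h0 h1 h2 (by linarith) a
    have h4 := fN_of (cond_f rfl h)
    replace h4 := fN_of (cond_t rfl h4)
    exact lfs_no kC (S_lo hd hc hy0) hd.s11 eCl eCh bCh hd.B.h3 hd.s32 eDl eDh bDh hd.s41
      hSp hSp1 (Sn_pos (by linarith) (by linarith)) (Sn_lt_one (by linarith) (by linarith) (by linarith))
      (Sn_le_one _) hkap.1 hkap.2.1 hkap.2.2 hsec h4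
  · -- right
    have hkap := kap_right h0 a.le b
    have hsec := hm.sec_right hn1 hd.B h0 h1 a h3 b
    have h4 := fN_of (cond_f rfl h)
    replace h4 := fN_of (cond_f rfl h4)
    exact lfs_no kD (S_lo hd hc hy0) hd.s11 eDl eDh bDh hd.B.h4 hd.s42 eCl eCh bCh hd.s31
      hSp hSp1 (Sn_pos (by linarith) (by linarith)) (Sn_lt_one (by linarith) (by linarith) (by linarith))
      (Sn_le_one _) hkap.1 hkap.2.1 (by
        have := hkap.2.2
        have e : Sn q * Sn (p + q) = Sn (p + q) * Sn q := mul_comm _ _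
        rw [e]
        exact this) hsec h4

theorem crs_ok {d : Dx} {n side z2 k : ℕ} {y0 y1 : ℕ} {s1 s4 s3 s2 g5 p0 q0 qb p q y : ℝ}
    (hn : n = 1 ∨ n = 2)
    (hs : side ≤ 2) (hd : d.Ok s1 s4 s3 s2 g5 p0 q0 qb) (hm : Mn n s1 s4 s3 p0 q0 p q)
    (hc : Cr n s1 s4 s3 p0 q0 p q y) (h0 : 0 < p) (h1 : p < 1 / 2) (h2 : 1 / 10 < q) (h3 : q < 9 / 10)
    (hS : Sd side p q) (hy0 : (y0 : ℝ) ≤ 1024 * y) (hy1 : 1024 * y ≤ y1)
    (h : crs d n side z2 k y0 y1 = true) : (z2 : ℝ) ≤ 1024 * y := by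
  have leaf : ∀ {a b : ℕ}, (a : ℝ) ≤ 1024 * y → 1024 * y ≤ b → leafC d n side z2 a b = true →
      (z2 : ℝ) ≤ 1024 * y := by
    intro a b ha hb hl
    have h4 := leafC_ok hn hs hd hm hc h0 h1 h2 h3 hS ha hb hl
    have h5 : (z2 : ℝ) ≤ a := by exact_mod_cast h4
    linarith
  induction k generalizing y0 y1 with
  | zero => exact leaf hy0 hy1 h
  | succ k ih =>
    have h4 : cond (leafC d n side z2 y0 y1) true
        (fN (fun m => cond (crs d n side z2 k y0 m) (crs d n side z2 k m y1) false)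
          (Nat.div (Nat.add y0 y1) 2)) = true := h
    rcases cond_or h4 with h5 | h5
    · exact leaf hy0 hy1 h5
    · obtain ⟨h6, h7⟩ := cond_and (fN_of h5)
      rcases le_total (1024 * y) ((Nat.div (Nat.add y0 y1) 2 : ℕ) : ℝ) with h8 | h8
      · exact ih hy0 h8 h6
      · exact ih h8 hy1 h7

end

end Pool.Agent.S5.Y3
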