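import Pool.Agent.S5.I.Y3c
import Pool.Agent.S5.I.Y3H

/-!
# The flats of a node with three half twists: the numbers of the crossings
-/

set_option autoImplicit false

namespace Pool.Agent.S5.Y3

open MeasureTheory Filter Topology Set Pool.Agent.S5.C2 Pool.Agent.S5.Num Pool.Agent.S5.K3

/-! ### Small functions -/

theorem n4_fN {α : Type} (f : ℕ → α) (n : ℕ) : fN f n = f n := by
  cases n <;> rfl

theorem n4_ble {a b : ℕ} (h : Nat.ble a b = true) : a ≤ b := Nat.le_of_ble_eq_true h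

theorem n4_nble {a b : ℕ} (h : Nat.ble a b = false) : b < a := by
  by_contra hc
  rw [Nat.ble_eq_true_of_le (not_lt.1 hc)] at h
  exact Bool.noConfusion h

theorem n4_ltn {a b : ℕ} (h : ltn a b = true) : a < b := Nat.le_of_ble_eq_true h

theorem n4_nltn {a b : ℕ} (h : ltn a b = false) : b ≤ a := Nat.lt_succ_iff.1 (n4_nble h)

theorem n4_mnn (a b : ℕ) : mnn a b = min a b := by
  unfold mnn
  cases h : Nat.ble a b
  · exact (min_eq_right (n4_nble h).le).symm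
  · exact (min_eq_left (n4_ble h)).symm

theorem n4_mxn (a b : ℕ) : mxn a b = max a b := by
  unfold mxn
  cases h : Nat.ble a b
  · exact (max_eq_left (n4_nble h).le).symm
  · exact (max_eq_right (n4_ble h)).symm

theorem n4_sqn (x : ℕ) : sqn x = x * x := by
  unfold sqn
  rw [n4_fN]
  rfl

theorem n4_sub_cast {a b : ℕ} (h : b ≤ a) : ((a - b : ℕ) : ℝ) = a - b := Nat.cast_sub h

/-- `√x ≤ √X / √U`. -/
theorem n4_sqrt_le {x : ℝ} {X : ℕ} (h : x ≤ (X : ℝ) / 1048576) : √x ≤ √(X : ℝ) / √1048576 := by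
  rw [← Real.sqrt_div (Nat.cast_nonneg X)]
  exact Real.sqrt_le_sqrt h

theorem n4_le_sqrt {x : ℝ} {X : ℕ} (h : (X : ℝ) / 1048576 ≤ x) : √(X : ℝ) / √1048576 ≤ √x := by
  rw [← Real.sqrt_div (Nat.cast_nonneg X)]
  exact Real.sqrt_le_sqrt h

/-! ### Comparison of square roots -/

theorem rtl_nat {X Y Z : ℕ} (h : rtl X Y Z = true) : √(X : ℝ) < √(Y : ℝ) + √(Z : ℝ) := by
  have hX : (0 : ℝ) ≤ X := Nat.cast_nonneg X
  have hY : (0 : ℝ) ≤ Y := Nat.cast_nonneg Y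
  have hZ : (0 : ℝ) ≤ Z := Nat.cast_nonneg Z
  have sY := Real.sq_sqrt hY
  have sZ := Real.sq_sqrt hZ
  have pY := Real.sqrt_nonneg (Y : ℝ)
  have pZ := Real.sqrt_nonneg (Z : ℝ)
  unfold rtl at h
  rw [n4_fN, n4_fN, n4_fN, n4_sqn] at h
  have key : (X : ℝ) < (√(Y : ℝ) + √(Z : ℝ)) ^ 2 := by
    have e : (√(Y : ℝ) + √(Z : ℝ)) ^ 2 = Y + Z + 2 * (√(Y : ℝ) * √(Z : ℝ)) := by
      nlinarith
    rw [e]
    cases h1 : ltn X (Nat.add Y Z)
    · rw [h1, cond_false] at h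
      have h2 : (X - (Y + Z)) * (X - (Y + Z)) < 4 * (Y * Z) := n4_ltn h
      have h3 : Y + Z ≤ X := n4_nltn h1
      have h4 : (((X - (Y + Z)) * (X - (Y + Z)) : ℕ) : ℝ) < ((4 * (Y * Z) : ℕ) : ℝ) := by
        exact_mod_cast h2
      rw [Nat.cast_mul, n4_sub_cast h3] at h4
      push_cast at h4
      have h5 : (X : ℝ) - (Y + Z) < 2 * (√(Y : ℝ) * √(Z : ℝ)) := by
        refine lt_of_pow_lt_pow_left₀ 2 (by positivity) ?_
        have e2 : (2 * (√(Y : ℝ) * √(Z : ℝ))) ^ 2 = 4 * (Y * Z) := by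
          rw [mul_pow, mul_pow, sY, sZ]
          norm_num
        rw [e2, sq]
        exact h4
      linarith
    · have h2 : X < Y + Z := n4_ltn h1
      have h3 : (X : ℝ) < Y + Z := by exact_mod_cast h2
      have := mul_nonneg pY pZ
      linarith
  have h6 := Real.sqrt_lt_sqrt hX key
  rwa [Real.sqrt_sq (by linarith)] at h6

theorem rtg_nat {X Y Z : ℕ} (h : rtg X Y Z = true) : √(Y : ℝ) + √(Z : ℝ) < √(X : ℝ) := by
  have hX : (0 : ℝ) ≤ X := Nat.cast_nonneg X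
  have hY : (0 : ℝ) ≤ Y := Nat.cast_nonneg Y
  have hZ : (0 : ℝ) ≤ Z := Nat.cast_nonneg Z
  have sY := Real.sq_sqrt hY
  have sZ := Real.sq_sqrt hZ
  have pY := Real.sqrt_nonneg (Y : ℝ)
  have pZ := Real.sqrt_nonneg (Z : ℝ)
  unfold rtg at h
  rw [n4_fN, n4_fN, n4_fN, n4_sqn] at h
  rw [Real.lt_sqrt (by linarith)]
  have e : (√(Y : ℝ) + √(Z : ℝ)) ^ 2 = Y + Z + 2 * (√(Y : ℝ) * √(Z : ℝ)) := by
    nlinarith
  rw [e]
  cases h1 : ltn (Nat.add Y Z) X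
  · rw [h1, cond_false] at h
    exact absurd h Bool.false_ne_true
  · rw [h1, cond_true] at h
    have h2 : 4 * (Y * Z) < (X - (Y + Z)) * (X - (Y + Z)) := n4_ltn h
    have h3 : Y + Z < X := n4_ltn h1
    have h4 : ((4 * (Y * Z) : ℕ) : ℝ) < (((X - (Y + Z)) * (X - (Y + Z)) : ℕ) : ℝ) := by
      exact_mod_cast h2
    rw [Nat.cast_mul (X - (Y + Z)), n4_sub_cast h3.le] at h4
    push_cast at h4
    have h3' : (Y : ℝ) + Z < X := by exact_mod_cast h3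
    have h5 : 2 * (√(Y : ℝ) * √(Z : ℝ)) < (X : ℝ) - (Y + Z) := by
      refine lt_of_pow_lt_pow_left₀ 2 (by linarith) ?_
      have e2 : (2 * (√(Y : ℝ) * √(Z : ℝ))) ^ 2 = 4 * (Y * Z) := by
        rw [mul_pow, mul_pow, sY, sZ]
        norm_num
      rw [e2, sq]
      exact h4
    linarith

private theorem u_pos : (0 : ℝ) < √1048576 := Real.sqrt_pos.2 (by norm_num)

/-- `√x < √y + √z`. -/
theorem rtl_ok {X Y Z : ℕ} (h : rtl X Y Z = true) {x y z : ℝ} (hx : x ≤ (X : ℝ) / 1048576)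
    (hy : (Y : ℝ) / 1048576 ≤ y) (hz : (Z : ℝ) / 1048576 ≤ z) : √x < √y + √z := by
  have h1 := div_lt_div_of_pos_right (rtl_nat h) u_pos
  rw [add_div] at h1
  have h2 := n4_sqrt_le hx
  have h3 := n4_le_sqrt hy
  have h4 := n4_le_sqrt hz
  linarith

/-- `√y + √z < √x`. -/
theorem rtg_ok {X Y Z : ℕ} (h : rtg X Y Z = true) {x y z : ℝ} (hx : (X : ℝ) / 1048576 ≤ x)
    (hy : y ≤ (Y : ℝ) / 1048576) (hz : z ≤ (Z : ℝ) / 1048576) : √y + √z < √x := by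
  have h1 := div_lt_div_of_pos_right (rtg_nat h) u_pos
  rw [add_div] at h1
  have h2 := n4_le_sqrt hx
  have h3 := n4_sqrt_le hy
  have h4 := n4_sqrt_le hz
  linarith

theorem n4_sqrt_div (z : ℝ) {n : ℕ} (hn : 1 ≤ n) : √z / n = √(z / (n * n)) := by
  have hn' : (0 : ℝ) < n := by exact_mod_cast hn
  rw [Real.sqrt_div' _ (by positivity), Real.sqrt_mul_self hn'.le]

/-- `√x < √y + √z / n`. -/
theorem rtl_n {n X Y Z : ℕ} (hn : 1 ≤ n) (h : rtl X Y (Nat.div Z (Nat.mul n n)) = true) {x y z : ℝ}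
    (hx : x ≤ (X : ℝ) / 1048576) (hy : (Y : ℝ) / 1048576 ≤ y) (hz : (Z : ℝ) / 1048576 ≤ z) :
    √x < √y + √z / n := by
  have hn' : (0 : ℝ) < (n : ℝ) * n := by
    have : (0 : ℝ) < n := by exact_mod_cast hn
    positivity
  rw [n4_sqrt_div z hn]
  refine rtl_ok h hx hy ?_
  have h1 : ((Z / (n * n) : ℕ) : ℝ) ≤ (Z : ℝ) / ((n * n : ℕ) : ℝ) := Nat.cast_div_le
  have h2 : ((Nat.div Z (Nat.mul n n) : ℕ) : ℝ) ≤ (Z : ℝ) / (n * n) := by
    have e : Nat.div Z (Nat.mul n n) = Z / (n * n) := rfl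
    rw [e]
    push_cast at h1 ⊢
    exact h1
  calc ((Nat.div Z (Nat.mul n n) : ℕ) : ℝ) / 1048576 ≤ (Z : ℝ) / (n * n) / 1048576 :=
        div_le_div_of_nonneg_right h2 (by norm_num)
    _ = (Z : ℝ) / 1048576 / (n * n) := by ring
    _ ≤ z / (n * n) := div_le_div_of_nonneg_right hz hn'.le

/-- `√y + √z / n < √x`. -/
theorem rtg_n {n X Y Z : ℕ} (hn : 1 ≤ n)
    (h : rtg X Y (Nat.succ (Nat.div Z (Nat.mul n n))) = true) {x y z : ℝ}
    (hx : (X : ℝ) / 1048576 ≤ x) (hy : y ≤ (Y : ℝ) / 1048576) (hz : z ≤ (Z : ℝ) / 1048576) :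
    √y + √z / n < √x := by
  have hn0 : (0 : ℝ) < n := by exact_mod_cast hn
  have hn' : (0 : ℝ) < (n : ℝ) * n := by positivity
  rw [n4_sqrt_div z hn]
  refine rtg_ok h hx hy ?_
  have h0 : 0 < n * n := Nat.mul_pos hn hn
  have h1 : Z < (Z / (n * n) + 1) * (n * n) := Nat.lt_mul_of_div_lt (Nat.lt_succ_self _) h0
  have h2 : (Z : ℝ) < (((Nat.succ (Nat.div Z (Nat.mul n n))) : ℕ) : ℝ) * (n * n) := by
    have : ((Z : ℕ) : ℝ) < (((Z / (n * n) + 1) * (n * n) : ℕ) : ℝ) := by exact_mod_cast h1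
    rw [Nat.cast_mul, Nat.cast_mul n n] at this
    exact this
  have h3 : (Z : ℝ) / (n * n) ≤ ((Nat.succ (Nat.div Z (Nat.mul n n)) : ℕ) : ℝ) := by
    rw [div_le_iff₀ hn']
    exact h2.le
  calc z / (n * n) ≤ (Z : ℝ) / 1048576 / (n * n) := div_le_div_of_nonneg_right hz hn'.le
    _ = (Z : ℝ) / (n * n) / 1048576 := by ring
    _ ≤ ((Nat.succ (Nat.div Z (Nat.mul n n)) : ℕ) : ℝ) / 1048576 :=
        div_le_div_of_nonneg_right h3 (by norm_num)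

/-! ### The function `Iq` -/

theorem n4_pos {a : ℕ} (h : 1 ≤ a) : 0 < (a : ℝ) / 1048576 := by
  have : (0 : ℝ) < a := by exact_mod_cast h
  positivity

theorem n4_lt1 {a : ℕ} (h : a ≤ 1048575) : (a : ℝ) / 1048576 < 1 := by
  have : (a : ℝ) ≤ 1048575 := by exact_mod_cast h
  rw [div_lt_one (by norm_num)]
  linarith

/-- The value at a rational point. -/
theorem Iq_rat {s S : ℕ} (h0 : 1 ≤ S) (h1 : S ≤ 1048575) :
    Iq ((s : ℝ) / 1048576) ((S : ℝ) / 1048576) =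
      ((1048576 * ((S + s) * (S + s)) : ℕ) : ℝ) / ((S * (1048576 - S) : ℕ) : ℝ) / 1048576 := by
  have a0 : (0 : ℝ) < S := by exact_mod_cast h0
  have a1 : (S : ℝ) ≤ 1048575 := by exact_mod_cast h1
  have a2 : (1048576 : ℝ) - S ≠ 0 := by linarith
  unfold Iq
  rw [Nat.cast_mul (S) (1048576 - S), Nat.cast_sub (by omega)]
  push_cast
  have e : (1 : ℝ) - (S : ℝ) / 1048576 = (1048576 - S) / 1048576 := by ring
  rw [e]
  field_simp

theorem iqL_eq (s S : ℕ) : iqL s S = (1048576 * ((S + s) * (S + s))) / (S * (1048576 - S)) := by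
  unfold iqL
  rw [n4_sqn]
  rfl

/-- `Iq` from below at the point `S`. -/
theorem iqL_rat {s S : ℕ} (h0 : 1 ≤ S) (h1 : S ≤ 1048575) :
    ((iqL s S : ℕ) : ℝ) / 1048576 ≤ Iq ((s : ℝ) / 1048576) ((S : ℝ) / 1048576) := by
  rw [Iq_rat h0 h1, iqL_eq]
  exact div_le_div_of_nonneg_right Nat.cast_div_le (by norm_num)

theorem iqH_rat {s S : ℕ} (h0 : 1 ≤ S) (h1 : S ≤ 1048575) :
    Iq ((s : ℝ) / 1048576) ((S : ℝ) / 1048576) ≤ ((iqH s S : ℕ) : ℝ) / 1048576 := by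
  unfold iqH
  rw [Iq_rat h0 h1, iqL_eq]
  refine div_le_div_of_nonneg_right ?_ (by norm_num)
  have hp : 0 < S * (1048576 - S) := Nat.mul_pos h0 (by omega)
  have hp' : (0 : ℝ) < ((S * (1048576 - S) : ℕ) : ℝ) := by exact_mod_cast hp
  rw [div_le_iff₀ hp']
  have := Nat.lt_mul_of_div_lt (Nat.lt_succ_self ((1048576 * ((S + s) * (S + s))) /
    (S * (1048576 - S)))) hp
  exact_mod_cast this.le

/-- `Iq` from below at the point `S`. -/
theorem iqL_ok {s S : ℕ} {σ : ℝ} (h0 : 1 ≤ S) (h1 : S ≤ 1048575) (hs : (s : ℝ) ≤ 1048576 * σ) :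
    ((iqL s S : ℕ) : ℝ) / 1048576 ≤ Iq σ ((S : ℝ) / 1048576) :=
  (iqL_rat h0 h1).trans (Iq_mono_s (by positivity)
    ((div_le_iff₀ (by norm_num)).2 (by linarith)) (n4_pos h0) (n4_lt1 h1))

/-- `Iq` from above at the point `S`. -/
theorem iqH_ok {s S : ℕ} {σ : ℝ} (h0 : 1 ≤ S) (h1 : S ≤ 1048575) (h : 0 ≤ σ)
    (hs : 1048576 * σ ≤ (s : ℝ)) : Iq σ ((S : ℝ) / 1048576) ≤ ((iqH s S : ℕ) : ℝ) / 1048576 :=
  (Iq_mono_s h ((le_div_iff₀ (by norm_num)).2 (by linarith)) (n4_pos h0) (n4_lt1 h1)).trans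
    (iqH_rat h0 h1)

/-- The larger value at two points. -/
theorem iqx_ok {s S S' : ℕ} {σ : ℝ} (h0 : 1 ≤ S) (h1 : S ≤ 1048575) (h0' : 1 ≤ S')
    (h1' : S' ≤ 1048575) (h : 0 ≤ σ) (hs : 1048576 * σ ≤ (s : ℝ)) :
    max (Iq σ ((S : ℝ) / 1048576)) (Iq σ ((S' : ℝ) / 1048576)) ≤
      ((mxn (iqH s S) (iqH s S') : ℕ) : ℝ) / 1048576 := by
  rw [n4_mxn, Nat.cast_max]
  refine max_le ((iqH_ok h0 h1 h hs).trans ?_) ((iqH_ok h0' h1' h hs).trans ?_)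
  · exact div_le_div_of_nonneg_right (le_max_left _ _) (by norm_num)
  · exact div_le_div_of_nonneg_right (le_max_right _ _) (by norm_num)

/-- `Iq` from above on an interval. -/
theorem iqx_int {s S S' : ℕ} {σ T : ℝ} (h0 : 1 ≤ S) (h1' : S' ≤ 1048575) (h : 0 ≤ σ)
    (hs : 1048576 * σ ≤ (s : ℝ)) (hl : (S : ℝ) ≤ 1048576 * T) (hh : 1048576 * T ≤ (S' : ℝ)) :
    Iq σ T ≤ ((mxn (iqH s S) (iqH s S') : ℕ) : ℝ) / 1048576 := by
  have hle : S ≤ S' := by exact_mod_cast hl.trans hh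
  refine (Iq_le h (n4_pos h0) (?_ : (S : ℝ) / 1048576 ≤ T) (?_ : T ≤ (S' : ℝ) / 1048576)
    (n4_lt1 h1')).trans (iqx_ok h0 (hle.trans h1') (h0.trans hle) h1' h hs)
  · exact (div_le_iff₀ (by norm_num)).2 (by linarith)
  · exact (le_div_iff₀ (by norm_num)).2 (by linarith)

/-- The condition for the monotonicity of `Iq`. -/
theorem n4_cond {c τ σ : ℝ} (h0 : 0 ≤ σ) (h1 : σ ≤ τ) (hc : 0 ≤ c) (h : τ ≤ c * (1 + 2 * τ)) :
    σ ≤ c * (1 + 2 * σ) := by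
  rcases le_total (2 * c) 1 with h2 | h2
  · have := mul_le_mul_of_nonneg_right h1 (sub_nonneg.2 h2)
    linarith
  · have := mul_le_mul_of_nonneg_right h2 h0
    linarith

theorem n4_condN {c t : ℕ} (h : Nat.ble (Nat.mul 1048576 t) (Nat.mul c (Nat.add 1048576 (Nat.mul 2 t))) = true) :
    (t : ℝ) / 1048576 ≤ (c : ℝ) / 1048576 * (1 + 2 * ((t : ℝ) / 1048576)) := by
  have h1 : 1048576 * t ≤ c * (1048576 + 2 * t) := n4_ble h
  have h2 : (1048576 : ℝ) * t ≤ c * (1048576 + 2 * t) := by exact_mod_cast h1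
  have e : (c : ℝ) / 1048576 * (1 + 2 * ((t : ℝ) / 1048576)) =
      c * (1048576 + 2 * t) / 1048576 / 1048576 := by
    field_simp
  rw [e]
  refine div_le_div_of_nonneg_right ?_ (by norm_num)
  rw [le_div_iff₀ (by norm_num)]
  linarith

/-- `Iq` from below on `[S, 1)`. -/
theorem iqm_ok {s S : ℕ} {σ T : ℝ} (hT : 0 < T) (hT1 : T < 1) (hs : (s : ℝ) ≤ 1048576 * σ)
    (hl : (S : ℝ) ≤ 1048576 * T) : ((iqm s S : ℕ) : ℝ) / 1048576 ≤ Iq σ T := by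
  have hl' : (S : ℝ) / 1048576 ≤ T := (div_le_iff₀ (by norm_num)).2 (by linarith)
  have hs' : (s : ℝ) / 1048576 ≤ σ := (div_le_iff₀ (by norm_num)).2 (by linarith)
  have hs0 : (0 : ℝ) ≤ (s : ℝ) / 1048576 := by positivity
  refine le_trans ?_ (Iq_mono_s hs0 hs' hT hT1)
  have other : ((Nat.div (Nat.mul 4 (Nat.mul s (Nat.add 1048576 s))) 1048576 : ℕ) : ℝ) / 1048576 ≤
      Iq ((s : ℝ) / 1048576) T := by
    refine le_trans ?_ (Iq_ge hs0 hT hT1)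
    have e : Nat.div (Nat.mul 4 (Nat.mul s (Nat.add 1048576 s))) 1048576 =
      (4 * (s * (1048576 + s))) / 1048576 := rfl
    rw [e]
    have h1 : (((4 * (s * (1048576 + s))) / 1048576 : ℕ) : ℝ) ≤
        ((4 * (s * (1048576 + s)) : ℕ) : ℝ) / ((1048576 : ℕ) : ℝ) := Nat.cast_div_le
    refine (div_le_div_of_nonneg_right h1 (by norm_num)).trans (le_of_eq ?_)
    push_cast
    field_simp
  unfold iqm
  cases h1 : Nat.ble 1 S
  · exact other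
  · cases h2 : Nat.ble S 1048575
    · exact other
    · cases h3 : Nat.ble (Nat.mul 1048576 s) (Nat.mul S (Nat.add 1048576 (Nat.mul 2 s)))
      · exact other
      · have h1' := n4_ble h1
        have h2' := n4_ble h2
        exact (iqL_rat h1' h2').trans (Iq_mono hs0 (n4_pos h1') hl' hT1 (n4_condN h3))

/-! ### The values at the corners -/

theorem n4_lin {a b l h x c : ℝ} (h1 : l ≤ x) (h2 : x ≤ h) (hl : c ≤ a + b * l)
    (hh : c ≤ a + b * h) : c ≤ a + b * x := by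
  rcases le_total 0 b with hb | hb
  · have := mul_le_mul_of_nonneg_left h1 hb
    linarith
  · have := mul_le_mul_of_nonpos_left h2 hb
    linarith

theorem n4_bil {a b e xl xh yl yh x y c : ℝ} (h1 : xl ≤ x) (h2 : x ≤ xh) (h3 : yl ≤ y)
    (h4 : y ≤ yh) (c1 : c ≤ a * xl + b * yl + e * (xl * yl)) (c2 : c ≤ a * xl + b * yh + e * (xl * yh))
    (c3 : c ≤ a * xh + b * yl + e * (xh * yl)) (c4 : c ≤ a * xh + b * yh + e * (xh * yh)) :
    c ≤ a * x + b * y + e * (x * y) := by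
  have k1 := n4_lin (a := a * xl) (b := b + e * xl) (c := c) h3 h4 (by linarith) (by linarith)
  have k2 := n4_lin (a := a * xh) (b := b + e * xh) (c := c) h3 h4 (by linarith) (by linarith)
  have k3 := n4_lin (a := b * y) (b := a + e * y) (c := c) h1 h2 (by linarith) (by linarith)
  linarith

theorem n4_gmx {x y : ℕ} (hx : x ≤ 1048576) (hy : y ≤ 1048576) :
    ((gmx x y : ℕ) : ℝ) = 1048576 * x + 3145728 * y + -4 * (x * y) := by
  have e : gmx x y = 1048576 * (x + 3 * y) - 4 * (x * y) := rfl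
  have h1 := Nat.mul_le_mul_left x hy
  have h2 := Nat.mul_le_mul_right y hx
  rw [e, Nat.cast_sub (by omega)]
  push_cast
  ring

theorem n4_gdx {x y : ℕ} (hx : x ≤ 1048576) (hy : y ≤ 1048576) :
    ((gdx x y : ℕ) : ℝ) = 1048576 * x + 1048576 * y + -2 * (x * y) := by
  have e : gdx x y = 1048576 * (x + y) - 2 * (x * y) := rfl
  have h1 := Nat.mul_le_mul_left x hy
  have h2 := Nat.mul_le_mul_right y hx
  rw [e, Nat.cast_sub (by omega)]
  push_cast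
  ring

theorem n4_mn4 (f : ℕ → ℕ → ℕ) (xl xh yl yh : ℕ) :
    mn4 f xl xh yl yh ≤ f xl yl ∧ mn4 f xl xh yl yh ≤ f xl yh ∧ mn4 f xl xh yl yh ≤ f xh yl ∧
      mn4 f xl xh yl yh ≤ f xh yh := by
  unfold mn4
  rw [n4_mnn, n4_mnn, n4_mnn]
  exact ⟨(min_le_left _ _).trans (min_le_left _ _), (min_le_left _ _).trans (min_le_right _ _),
    (min_le_right _ _).trans (min_le_left _ _), (min_le_right _ _).trans (min_le_right _ _)⟩

/-- `M + 3 m - 4 M m` from below; `x = M`, `y = m` in units `2 ^ (-20)`. -/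
theorem mn4_gmx {xl xh yl yh : ℕ} {x y : ℝ} (a1 : xh ≤ 1048576) (a2 : yh ≤ 1048576)
    (h1 : (xl : ℝ) ≤ 1048576 * x) (h2 : 1048576 * x ≤ xh) (h3 : (yl : ℝ) ≤ 1048576 * y)
    (h4 : 1048576 * y ≤ yh) :
    ((mn4 gmx xl xh yl yh : ℕ) : ℝ) ≤ 1048576 * (1048576 * (x + 3 * y - 4 * (x * y))) := by
  have b1 : xl ≤ 1048576 := le_trans (by exact_mod_cast h1.trans h2) a1
  have b2 : yl ≤ 1048576 := le_trans (by exact_mod_cast h3.trans h4) a2
  obtain ⟨m1, m2, m3, m4⟩ := n4_mn4 gmx xl xh yl yh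
  have k1 : ((mn4 gmx xl xh yl yh : ℕ) : ℝ) ≤ _ := (Nat.cast_le.2 m1).trans_eq (n4_gmx b1 b2)
  have k2 : ((mn4 gmx xl xh yl yh : ℕ) : ℝ) ≤ _ := (Nat.cast_le.2 m2).trans_eq (n4_gmx b1 a2)
  have k3 : ((mn4 gmx xl xh yl yh : ℕ) : ℝ) ≤ _ := (Nat.cast_le.2 m3).trans_eq (n4_gmx a1 b2)
  have k4 : ((mn4 gmx xl xh yl yh : ℕ) : ℝ) ≤ _ := (Nat.cast_le.2 m4).trans_eq (n4_gmx a1 a2)
  have := n4_bil h1 h2 h3 h4 k1 k2 k3 k4
  linarith

/-- `C + D - 2 C D` from below. -/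
theorem mn4_gdx {xl xh yl yh : ℕ} {x y : ℝ} (a1 : xh ≤ 1048576) (a2 : yh ≤ 1048576)
    (h1 : (xl : ℝ) ≤ 1048576 * x) (h2 : 1048576 * x ≤ xh) (h3 : (yl : ℝ) ≤ 1048576 * y)
    (h4 : 1048576 * y ≤ yh) :
    ((mn4 gdx xl xh yl yh : ℕ) : ℝ) ≤ 1048576 * (1048576 * (x + y - 2 * (x * y))) := by
  have b1 : xl ≤ 1048576 := le_trans (by exact_mod_cast h1.trans h2) a1
  have b2 : yl ≤ 1048576 := le_trans (by exact_mod_cast h3.trans h4) a2
  obtain ⟨m1, m2, m3, m4⟩ := n4_mn4 gdx xl xh yl yh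
  have k1 : ((mn4 gdx xl xh yl yh : ℕ) : ℝ) ≤ _ := (Nat.cast_le.2 m1).trans_eq (n4_gdx b1 b2)
  have k2 : ((mn4 gdx xl xh yl yh : ℕ) : ℝ) ≤ _ := (Nat.cast_le.2 m2).trans_eq (n4_gdx b1 a2)
  have k3 : ((mn4 gdx xl xh yl yh : ℕ) : ℝ) ≤ _ := (Nat.cast_le.2 m3).trans_eq (n4_gdx a1 b2)
  have k4 : ((mn4 gdx xl xh yl yh : ℕ) : ℝ) ≤ _ := (Nat.cast_le.2 m4).trans_eq (n4_gdx a1 a2)
  have := n4_bil h1 h2 h3 h4 k1 k2 k3 k4
  linarith

end Pool.Agent.S5.Y3
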