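import Pool.Agent.S5.I.Y3N4b

/-!
# The flats of a node with three half twists: the test of the neighbourhood of the base point
-/

set_option autoImplicit false

namespace Pool.Agent.S5.Y3

open MeasureTheory Filter Topology Set Pool.Agent.S5.C2 Pool.Agent.S5.Num Pool.Agent.S5.K3

private theorem cnd {a b : Bool} (h : cond a b false = true) : a = true ∧ b = true := by
  cases a
  · exact absurd h Bool.false_ne_true
  · exact ⟨rfl, h⟩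

private theorem lo_aux {a sl sh u y : ℕ} {A s t : ℝ} (hu : 0 < u) (ha : (a : ℝ) ≤ A)
    (hl : (sl : ℝ) ≤ s) (hh : s ≤ sh) (ht : (y : ℝ) ≤ u * t) (h0 : 0 ≤ (A + s) * t - s) :
    ((loA a sl sh u y : ℕ) : ℝ) ≤ (A + s) * t - s := by
  have e : loA a sl sh u y = ((a * y + sl * (y - u)) - sh * (u - y)) / u := rfl
  have hu' : (0 : ℝ) < u := by exact_mod_cast hu
  have a0 : (0 : ℝ) ≤ a := Nat.cast_nonneg a
  have s0 : (0 : ℝ) ≤ sl := Nat.cast_nonneg sl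
  have y0 : (0 : ℝ) ≤ y := Nat.cast_nonneg y
  have hm := mul_le_mul_of_nonneg_left ht (by linarith : 0 ≤ A + s)
  have k1 := mul_le_mul_of_nonneg_right ha y0
  rw [e]
  refine (Nat.cast_div_le).trans ?_
  rw [div_le_iff₀ hu']
  rcases le_total u y with h | h
  · rw [Nat.sub_eq_zero_of_le h, Nat.mul_zero, Nat.sub_zero]
    have h' : (u : ℝ) ≤ y := by exact_mod_cast h
    have k2 := mul_le_mul_of_nonneg_right hl (sub_nonneg.2 h')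
    rw [Nat.cast_add, Nat.cast_mul, Nat.cast_mul, Nat.cast_sub h]
    linarith
  · rw [Nat.sub_eq_zero_of_le h, Nat.mul_zero, Nat.add_zero]
    rcases le_total (sh * (u - y)) (a * y) with g | g
    · have h' : (y : ℝ) ≤ u := by exact_mod_cast h
      have k2 := mul_le_mul_of_nonneg_right hh (sub_nonneg.2 h')
      rw [Nat.cast_sub g, Nat.cast_mul, Nat.cast_mul, Nat.cast_sub h]
      linarith
    · rw [Nat.sub_eq_zero_of_le g, Nat.cast_zero]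
      exact mul_nonneg h0 hu'.le

private theorem hi_aux {a sl sh u y : ℕ} {A s t : ℝ} (hu : 0 < u) (hA : 0 ≤ A) (hs : 0 ≤ s)
    (ha : A ≤ a) (hl : (sl : ℝ) ≤ s) (hh : s ≤ sh) (ht : u * t ≤ (y : ℝ)) :
    (A + s) * t - s ≤ ((hiA a sl sh u y : ℕ) : ℝ) := by
  have e : hiA a sl sh u y = ((a * y + sh * (y - u)) - sl * (u - y)) / u + 1 := rfl
  have hu' : (0 : ℝ) < u := by exact_mod_cast hu
  have y0 : (0 : ℝ) ≤ y := Nat.cast_nonneg y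
  have hm := mul_le_mul_of_nonneg_left ht (by linarith : 0 ≤ A + s)
  have k1 := mul_le_mul_of_nonneg_right ha y0
  have h1 := Nat.lt_mul_of_div_lt (Nat.lt_succ_self
    (((a * y + sh * (y - u)) - sl * (u - y)) / u)) hu
  have h2 : ((((a * y + sh * (y - u)) - sl * (u - y)) : ℕ) : ℝ) ≤
      ((hiA a sl sh u y : ℕ) : ℝ) * u := by
    rw [e]
    exact_mod_cast h1.le
  have h3 : ((A + s) * t - s) * u ≤ ((((a * y + sh * (y - u)) - sl * (u - y)) : ℕ) : ℝ) := by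
    rcases le_total u y with h | h
    · rw [Nat.sub_eq_zero_of_le h, Nat.mul_zero, Nat.sub_zero]
      have h' : (u : ℝ) ≤ y := by exact_mod_cast h
      have k2 := mul_le_mul_of_nonneg_right hh (sub_nonneg.2 h')
      rw [Nat.cast_add, Nat.cast_mul, Nat.cast_mul, Nat.cast_sub h]
      linarith
    · rw [Nat.sub_eq_zero_of_le h, Nat.mul_zero, Nat.add_zero]
      have h' : (y : ℝ) ≤ u := by exact_mod_cast h
      have k2 := mul_le_mul_of_nonneg_right hl (sub_nonneg.2 h')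
      rcases le_total (sl * (u - y)) (a * y) with g | g
      · rw [Nat.cast_sub g, Nat.cast_mul, Nat.cast_mul, Nat.cast_sub h]
        linarith
      · rw [Nat.sub_eq_zero_of_le g, Nat.cast_zero]
        have g' : (a : ℝ) * y ≤ sl * (u - y) := by
          have : ((a * y : ℕ) : ℝ) ≤ ((sl * (u - y) : ℕ) : ℝ) := by exact_mod_cast g
          rw [Nat.cast_mul, Nat.cast_mul, Nat.cast_sub h] at this
          exact this
        linarith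
  exact le_of_mul_le_mul_right (h3.trans h2) hu'

private theorem lo_t {a sl sh u y0 : ℕ} {x x0 s t : ℝ} (hu : 0 < u)
    (ha : (a : ℝ) ≤ 1048576 * Sn x0) (hl : (sl : ℝ) ≤ 1048576 * s) (hh : 1048576 * s ≤ sh)
    (ht : (y0 : ℝ) ≤ u * t) (he : Sn x + s = (Sn x0 + s) * t) :
    ((loA a sl sh u y0 : ℕ) : ℝ) ≤ 1048576 * Sn x := by
  have e : (1048576 * Sn x0 + 1048576 * s) * t - 1048576 * s = 1048576 * Sn x := by
    linear_combination (-1048576) * he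
  rw [← e]
  refine lo_aux hu ha hl hh ht ?_
  rw [e]
  have := Sn_nonneg x
  positivity

private theorem hi_t {a sl sh u y0 : ℕ} {x x0 s t : ℝ} (hu : 0 < u) (hs : 0 ≤ s)
    (ha : 1048576 * Sn x0 ≤ a) (hl : (sl : ℝ) ≤ 1048576 * s) (hh : 1048576 * s ≤ sh)
    (ht : u * t ≤ (y0 : ℝ)) (he : Sn x + s = (Sn x0 + s) * t) :
    1048576 * Sn x ≤ ((hiA a sl sh u y0 : ℕ) : ℝ) := by
  have e : (1048576 * Sn x0 + 1048576 * s) * t - 1048576 * s = 1048576 * Sn x := by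
    linear_combination (-1048576) * he
  rw [← e]
  have := Sn_nonneg x0
  exact hi_aux hu (by positivity) (by positivity) ha hl hh ht

private theorem xx_eq {n y : ℕ} (hn : n = 1 ∨ n = 2) :
    ((xx n y : ℕ) : ℝ) = 1048576 * ((y : ℝ) / 1024) ^ n := by
  rcases hn with rfl | rfl
  · have e : xx 1 y = 1024 * y := rfl
    rw [e]
    push_cast
    ring
  · have e : xx 2 y = y * y := rfl
    rw [e]
    push_cast
    ring

private theorem xx_le {n z : ℕ} {t : ℝ} (hn : n = 1 ∨ n = 2) (h : (z : ℝ) ≤ 1024 * t) :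
    ((xx n z : ℕ) : ℝ) ≤ ((1048576 : ℕ) : ℝ) * t ^ n := by
  rw [xx_eq hn, Nat.cast_ofNat]
  refine mul_le_mul_of_nonneg_left (pow_le_pow_left₀ (by positivity) ?_ n) (by norm_num)
  rw [div_le_iff₀ (by norm_num)]
  linarith

private theorem le_xx {n z : ℕ} {t : ℝ} (hn : n = 1 ∨ n = 2) (ht : 0 ≤ t) (h : 1024 * t ≤ (z : ℝ)) :
    ((1048576 : ℕ) : ℝ) * t ^ n ≤ ((xx n z : ℕ) : ℝ) := by
  rw [xx_eq hn, Nat.cast_ofNat]
  refine mul_le_mul_of_nonneg_left (pow_le_pow_left₀ ht ?_ n) (by norm_num)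
  rw [le_div_iff₀ (by norm_num)]
  linarith

private theorem dv {a : ℕ} {x : ℝ} (h : (a : ℝ) ≤ 1048576 * x) : (a : ℝ) / 1048576 ≤ x :=
  (div_le_iff₀ (by norm_num)).2 (by linarith)

private theorem dv' {a : ℕ} {x : ℝ} (h : 1048576 * x ≤ (a : ℝ)) : x ≤ (a : ℝ) / 1048576 :=
  (le_div_iff₀ (by norm_num)).2 (by linarith)

private theorem mn_le {a : ℕ} {x : ℝ} (h : (a : ℝ) ≤ x) : ((mnn a 1048574 : ℕ) : ℝ) ≤ x := by
  rw [n4_mnn]
  exact le_trans (by exact_mod_cast min_le_left a 1048574) h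

private theorem mn_le' (a : ℕ) : mnn a 1048574 ≤ 1048575 := by
  rw [n4_mnn]
  exact (min_le_right _ _).trans (by norm_num)

/-- The bounds at both points. -/
private theorem bnd {d : Dx} {n z ym : ℕ} {s1 s4 s3 s2 g5 p0 q0 qb p q y : ℝ} (hn : n = 1 ∨ n = 2)
    (hd : d.Ok s1 s4 s3 s2 g5 p0 q0 qb) (hc : Cr n s1 s4 s3 p0 q0 p q y)
    (hy0 : (z : ℝ) ≤ 1024 * y) (hy1 : 1024 * y ≤ ym) :
    (((loS d z : ℕ) : ℝ) ≤ 1048576 * Sn p ∧ 1048576 * Sn p ≤ ((hiS d ym : ℕ) : ℝ)) ∧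
    (((loC d (xx n z) : ℕ) : ℝ) ≤ 1048576 * Sn (p + q) ∧
      1048576 * Sn (p + q) ≤ ((hiC d (xx n ym) : ℕ) : ℝ)) ∧
    (((loD d (xx n z) : ℕ) : ℝ) ≤ 1048576 * Sn q ∧
      1048576 * Sn q ≤ ((hiD d (xx n ym) : ℕ) : ℝ)) := by
  have hB := hd.B
  have u1 : 0 < 1024 := by norm_num
  have u2 : 0 < 1048576 := by norm_num
  have e0 : (z : ℝ) ≤ ((1024 : ℕ) : ℝ) * y := by rw [Nat.cast_ofNat]; exact hy0
  have e1 : ((1024 : ℕ) : ℝ) * y ≤ ym := by rw [Nat.cast_ofNat]; exact hy1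
  exact ⟨⟨lo_t u1 hd.a1 hd.s11 hd.s12 e0 hc.hS, hi_t u1 hB.h1 hd.a2 hd.s11 hd.s12 e1 hc.hS⟩,
    ⟨lo_t u2 hd.c1 hd.s31 hd.s32 (xx_le hn hy0) hc.hC,
      hi_t u2 hB.h3 hd.c2 hd.s31 hd.s32 (le_xx hn hc.hy.le hy1) hc.hC⟩,
    ⟨lo_t u2 hd.d1 hd.s41 hd.s42 (xx_le hn hy0) hc.hD,
      hi_t u2 hB.h4 hd.d2 hd.s41 hd.s42 (le_xx hn hc.hy.le hy1) hc.hD⟩⟩

private theorem fe {f : ℕ → Bool} {n : ℕ} (h : fN f n = true) : ∃ m, m = n ∧ f m = true :=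
  ⟨n, rfl, by rwa [n4_fN] at h⟩

private theorem c1 {α : Type} (a b : α) : cond (Nat.ble 1 1) a b = a := rfl

private theorem c2 {α : Type} (a b : α) : cond (Nat.ble 2 1) a b = b := rfl

/-- The meaning of the test, left. -/
private theorem hes1 {d : Dx} {n z ym : ℕ} (h : hesC d n 1 z ym = true) :
    ∃ Ml, Ml = mnn (loC d (xx n z)) 1048574 ∧
    (1 ≤ loS d z ∧ 1 ≤ Ml ∧ 1 ≤ loD d (xx n z) ∧ hiS d ym ≤ 1048575 ∧ hiD d (xx n ym) ≤ 1048575) ∧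
    Nat.ble (Nat.mul 1048576 d.s3h) (Nat.mul Ml (Nat.add 1048576 (Nat.mul 2 d.s3h))) = true ∧
    rtg (iqL d.s3l Ml) (mxn (iqH d.s4h (loD d (xx n z))) (iqH d.s4h (hiD d (xx n ym))))
      (Nat.succ (Nat.div (mxn (iqH d.s1h (loS d z)) (iqH d.s1h (hiS d ym))) (Nat.mul n n))) = true := by
  unfold hesC at h
  obtain ⟨x0, rfl, h⟩ := fe h
  obtain ⟨x1, rfl, h⟩ := fe h
  obtain ⟨Sl, rfl, h⟩ := fe h
  obtain ⟨Sh, rfl, h⟩ := fe h
  obtain ⟨Ml, e4, h⟩ := fe h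
  obtain ⟨ml, e5, h⟩ := fe h
  obtain ⟨mh, e6, h⟩ := fe h
  rw [c1] at e4 e5 e6
  obtain ⟨t1, h⟩ := cnd h
  obtain ⟨t2, h⟩ := cnd h
  obtain ⟨t3, h⟩ := cnd h
  obtain ⟨t4, h⟩ := cnd h
  obtain ⟨t5, h⟩ := cnd h
  rw [c1] at h
  obtain ⟨t6, h⟩ := cnd h
  rw [← e5, ← e6]
  exact ⟨Ml, e4, ⟨n4_ble t1, n4_ble t2, n4_ble t3, n4_ble t4, n4_ble t5⟩, t6, h⟩

/-- The meaning of the test, right. -/
private theorem hes2 {d : Dx} {n z ym : ℕ} (h : hesC d n 2 z ym = true) :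
    ∃ Ml, Ml = mnn (loD d (xx n z)) 1048574 ∧
    (1 ≤ loS d z ∧ 1 ≤ Ml ∧ 1 ≤ loC d (xx n z) ∧ hiS d ym ≤ 1048575 ∧ hiC d (xx n ym) ≤ 1048575) ∧
    Nat.ble (Nat.mul 1048576 d.s4h) (Nat.mul Ml (Nat.add 1048576 (Nat.mul 2 d.s4h))) = true ∧
    rtg (iqL d.s4l Ml) (mxn (iqH d.s3h (loC d (xx n z))) (iqH d.s3h (hiC d (xx n ym))))
      (Nat.succ (Nat.div (mxn (iqH d.s1h (loS d z)) (iqH d.s1h (hiS d ym))) (Nat.mul n n))) = true := by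
  unfold hesC at h
  obtain ⟨x0, rfl, h⟩ := fe h
  obtain ⟨x1, rfl, h⟩ := fe h
  obtain ⟨Sl, rfl, h⟩ := fe h
  obtain ⟨Sh, rfl, h⟩ := fe h
  obtain ⟨Ml, e4, h⟩ := fe h
  obtain ⟨ml, e5, h⟩ := fe h
  obtain ⟨mh, e6, h⟩ := fe h
  rw [c2] at e4 e5 e6
  obtain ⟨t1, h⟩ := cnd h
  obtain ⟨t2, h⟩ := cnd h
  obtain ⟨t3, h⟩ := cnd h
  obtain ⟨t4, h⟩ := cnd h
  obtain ⟨t5, h⟩ := cnd h
  rw [c2] at h
  obtain ⟨t6, h⟩ := cnd h
  rw [← e5, ← e6]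
  exact ⟨Ml, e4, ⟨n4_ble t1, n4_ble t2, n4_ble t3, n4_ble t4, n4_ble t5⟩, t6, h⟩

/-- **The neighbourhood of the base point**: `z ≤ 1024 ≤ ym`. -/
theorem hesC_ok {d : Dx} {n side z ym : ℕ} {s1 s4 s3 s2 g5 p0 q0 qb p q y : ℝ} (hn : n = 1 ∨ n = 2)
    (hs : side = 1 ∨ side = 2) (hd : d.Ok s1 s4 s3 s2 g5 p0 q0 qb) (hc : Cr n s1 s4 s3 p0 q0 p q y)
    (b1 : side = 1 → q0 ≤ 1 / 2) (b2 : side = 2 → 1 / 2 ≤ p0 + q0)
    (h0 : 0 < p) (h1 : p < 1 / 2) (h2 : 1 / 10 < q) (h3 : q < 9 / 10)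
    (h4 : side = 1 → q ≤ 1 / 2) (h5 : side = 2 → 1 / 2 ≤ p + q ∧ p + q < 1)
    (hz : z ≤ 1024) (hz' : 1024 ≤ ym) (hy0 : (z : ℝ) ≤ 1024 * y) (hy1 : 1024 * y ≤ ym)
    (h : hesC d n side z ym = true) (hne : p ≠ p0 ∨ q ≠ q0) : 0 < VV n s1 s4 s3 p0 q0 p q := by
  have hn1 : 1 ≤ n := by omega
  have hzr : (z : ℝ) ≤ 1024 * 1 := by
    have : (z : ℝ) ≤ 1024 := by exact_mod_cast hz
    linarith
  have hzr' : 1024 * (1 : ℝ) ≤ ym := by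
    have : (1024 : ℝ) ≤ ym := by exact_mod_cast hz'
    linarith
  have hB := hd.B
  have c0 : Cr n s1 s4 s3 p0 q0 p0 q0 1 :=
    ⟨zero_lt_one, (mul_one _).symm, by rw [one_pow, mul_one], by rw [one_pow, mul_one]⟩
  obtain ⟨⟨S1, S3⟩, ⟨C1, C3⟩, D1, D3⟩ := bnd hn hd hc hy0 hy1
  obtain ⟨⟨S2, S4⟩, ⟨C2, C4⟩, D2, D4⟩ := bnd hn hd c0 hzr hzr'
  have SS : loS d z ≤ hiS d ym := by exact_mod_cast S1.trans S3
  have CC : loC d (xx n z) ≤ hiC d (xx n ym) := by exact_mod_cast C1.trans C3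
  have DD : loD d (xx n z) ≤ hiD d (xx n ym) := by exact_mod_cast D1.trans D3
  rcases hs with rfl | rfl
  · obtain ⟨Ml, eM, ⟨t1, t2, t3, t4, t5⟩, t6, h⟩ := hes1 h
    have M0 : Ml ≤ 1048575 := by rw [eM]; exact mn_le' _
    have M1 : (Ml : ℝ) ≤ 1048576 * Sn (p + q) := by rw [eM]; exact mn_le C1
    have M2 : (Ml : ℝ) ≤ 1048576 * Sn (p0 + q0) := by rw [eM]; exact mn_le C2
    refine near_left hn1 hB (b1 rfl) h0 h1 h2 (h4 rfl) (n4_pos t1) (n4_lt1 t4) (dv S1) (dv S2)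
      (dv' S3) (dv' S4) (n4_pos t3) (n4_lt1 t5) (dv D1) (dv D2) (dv' D3) (dv' D4)
      (n4_pos t2) (dv M1) (dv M2) ?_ ?_ hne
    · exact n4_cond hB.h3 (dv' hd.s32) (n4_pos t2).le (n4_condN t6)
    · exact rtg_n hn1 h (iqL_ok t2 M0 hd.s31)
        (iqx_ok t3 (DD.trans t5) (t3.trans DD) t5 hB.h4 hd.s42)
        (iqx_ok t1 (SS.trans t4) (t1.trans SS) t4 hB.h1 hd.s12)
  · obtain ⟨Ml, eM, ⟨t1, t2, t3, t4, t5⟩, t6, h⟩ := hes2 h
    have M0 : Ml ≤ 1048575 := by rw [eM]; exact mn_le' _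
    have M1 : (Ml : ℝ) ≤ 1048576 * Sn q := by rw [eM]; exact mn_le D1
    have M2 : (Ml : ℝ) ≤ 1048576 * Sn q0 := by rw [eM]; exact mn_le D2
    obtain ⟨h5, h6⟩ := h5 rfl
    refine near_right hn1 hB (b2 rfl) h0 h1 h2 h3 h5 h6 (n4_pos t1) (n4_lt1 t4) (dv S1) (dv S2)
      (dv' S3) (dv' S4) (n4_pos t3) (n4_lt1 t5) (dv C1) (dv C2) (dv' C3) (dv' C4)
      (n4_pos t2) (dv M1) (dv M2) ?_ ?_ hne
    · exact n4_cond hB.h4 (dv' hd.s42) (n4_pos t2).le (n4_condN t6)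
    · exact rtg_n hn1 h (iqL_ok t2 M0 hd.s41)
        (iqx_ok t3 (CC.trans t5) (t3.trans CC) t5 hB.h3 hd.s32)
        (iqx_ok t1 (SS.trans t4) (t1.trans SS) t4 hB.h1 hd.s12)

end Pool.Agent.S5.Y3
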