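import Pool.Agent.S5.I.Y3N4
import Pool.Agent.S5.I.Y3N4c
import Pool.Agent.S5.I.Y3W
import Pool.Agent.S5.I.Y3X
import Pool.Agent.S5.I.Y3E
import Pool.Agent.S5.I.Y3T

/-!
# The flats of a node with three half twists: the interior
-/

set_option autoImplicit false

namespace Pool.Agent.S5.Y3

open MeasureTheory Filter Topology Set Pool.Agent.S5.C2 Pool.Agent.S5.Num Pool.Agent.S5.K3

private theorem fe {f : ℕ → Bool} {n : ℕ} (h : fN f n = true) : ∃ m, m = n ∧ f m = true :=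
  ⟨n, rfl, by rwa [n4_fN] at h⟩

private theorem cnd {a b : Bool} (h : cond a b false = true) : a = true ∧ b = true := by
  cases a
  · exact absurd h Bool.false_ne_true
  · exact ⟨rfl, h⟩

private theorem ytp_ex {d : Dx} {n : ℕ} {k : ℕ → Bool} : ∀ (f y : ℕ), ytp d n k f y = true →
    ∃ ym, y ≤ ym ∧ vac d (xx n ym) = true ∧ k ym = true
  | 0, y, h => absurd (h : false = true) Bool.false_ne_true
  | f + 1, y, h => by
    have h' : cond (vac d (xx n y)) (k y) (fN (ytp d n k f) (Nat.add y 16)) = true := h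
    cases hv : vac d (xx n y)
    · rw [hv, cond_false, n4_fN] at h'
      obtain ⟨ym, a, b⟩ := ytp_ex f _ h'
      exact ⟨ym, (Nat.le_add_right y 16).trans a, b⟩
    · rw [hv, cond_true] at h'
      exact ⟨y, le_rfl, hv, h'⟩

private theorem z2s_ex {d : Dx} {n side ym : ℕ} {k : ℕ → Bool} : ∀ (f z : ℕ),
    z2s d n side ym k f z = true →
    ∃ z2, k z2 = true ∧ (z2 = 100000 ∨ (z2 + 32 ≤ z + 32 * f ∧ hesC d n side z2 ym = true))
  | 0, z, h => ⟨100000, h, Or.inl rfl⟩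
  | f + 1, z, h => by
    have h' : cond (hesC d n side z ym) (k z) (fN (z2s d n side ym k f) (Nat.add z 32)) = true := h
    cases hv : hesC d n side z ym
    · rw [hv, cond_false, n4_fN] at h'
      obtain ⟨z2, a, b⟩ := z2s_ex f _ h'
      refine ⟨z2, a, b.imp_right (fun b => ⟨?_, b.2⟩)⟩
      have h1 : z2 + 32 ≤ z + 32 + 32 * f := b.1
      omega
    · rw [hv, cond_true] at h'
      exact ⟨z, h', Or.inr ⟨by omega, hv⟩⟩

private theorem sdC_ex {d : Dx} {n side ym : ℕ} {can need : Bool}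
    (h : sdC d n side ym can need = true) :
    ∃ y0 y1 dp : ℕ, y0 = cond (Nat.ble n 1) 64 288 ∧ y1 = cond (Nat.ble n 1) 2112 1312 ∧ ym ≤ y1 ∧
    ((can = true ∧ ∃ z2, (z2 = 100000 ∨ (z2 ≤ 992 ∧ hesC d n side z2 ym = true)) ∧
        (need = true → z2 ≤ 1024 ∧ crs d n 0 z2 (dp + 3) y0 y1 = true) ∧
          crs d n side z2 dp y0 y1 = true) ∨
      (need = false ∧ crs d n side 100000 dp y0 y1 = true)) := by
  unfold sdC at h
  obtain ⟨y0, e0, h⟩ := fe h
  obtain ⟨y1, e1, h⟩ := fe h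
  obtain ⟨dp, e2, h⟩ := fe h
  obtain ⟨h1, h⟩ := cnd h
  refine ⟨y0, y1, dp, e0, e1, n4_ble h1, ?_⟩
  cases can
  · right
    rw [cond_false] at h
    cases need
    · rw [cond_false] at h
      exact ⟨rfl, h⟩
    · rw [cond_true] at h
      exact absurd h Bool.false_ne_true
  · left
    rw [cond_true] at h
    obtain ⟨z2, a, b⟩ := z2s_ex 8 768 h
    obtain ⟨a1, a2⟩ := cnd a
    refine ⟨rfl, z2, b.imp_right (fun b => ⟨by have := b.1; omega, b.2⟩), ?_, a2⟩
    intro hn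
    rw [hn, cond_true] at a1
    obtain ⟨a3, a4⟩ := cnd a1
    exact ⟨n4_ble a3, a4⟩

/-- A crossing is not at the lower end. -/
private theorem y_lo {d : Dx} {n : ℕ} {s1 s4 s3 s2 g5 p0 q0 qb p q y : ℝ} (hn : n = 1 ∨ n = 2)
    (hd : d.Ok s1 s4 s3 s2 g5 p0 q0 qb) (hc : Cr n s1 s4 s3 p0 q0 p q y)
    (h2 : 1 / 10 < q) (h3 : q < 9 / 10) : ((cond (Nat.ble n 1) 64 288 : ℕ) : ℝ) ≤ 1024 * y := by
  have hB := hd.B
  have k2 := Ed.Sn_ge_tenth h2.le h3.le
  have k3 := Sn_le_one q0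
  have k4 := Sn_nonneg q0
  have hy := hc.hy
  have hD := hc.hD
  have s4n := hB.h4
  have k5 : (95491 : ℝ) / 1000000 ≤ y ^ n := by
    by_contra hcon
    push Not at hcon
    have h5 : (Sn q0 + s4) * y ^ n ≤ (1 + s4) * y ^ n :=
      mul_le_mul_of_nonneg_right (by linarith) (pow_nonneg hy.le n)
    have h6 : (1 + s4) * y ^ n ≤ (1 + s4) * (95491 / 1000000) :=
      mul_le_mul_of_nonneg_left hcon.le (by linarith)
    nlinarith
  rcases hn with rfl | rfl
  · have e : (cond (Nat.ble 1 1) 64 288 : ℕ) = 64 := rfl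
    rw [e, Nat.cast_ofNat]
    rw [pow_one] at k5
    linarith
  · have e : (cond (Nat.ble 2 1) 64 288 : ℕ) = 288 := rfl
    rw [e, Nat.cast_ofNat]
    by_contra hcon
    push Not at hcon
    have : y < 288 / 1024 := by linarith
    nlinarith

private theorem y_hi {n ym y1 : ℕ} {y : ℝ} (hn : n = 1 ∨ n = 2) (e1 : y1 = cond (Nat.ble n 1) 2112 1312)
    (hm : ym ≤ y1) (hv : 1024 * y < ym) : 1024 * y ≤ y1 ∧ ¬ ((100000 : ℕ) : ℝ) ≤ 1024 * y := by
  have h1 : (ym : ℝ) ≤ y1 := by exact_mod_cast hm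
  have h2 : y1 ≤ 2112 := by
    rcases hn with rfl | rfl
    · exact e1.le
    · exact e1.le.trans (by decide)
  have h3 : (y1 : ℝ) ≤ 2112 := by exact_mod_cast h2
  refine ⟨by linarith, ?_⟩
  rw [Nat.cast_ofNat]
  intro h
  linarith

/-- The point on the side itself. -/
private theorem side_a {d : Dx} {n side ym : ℕ} {can need : Bool} {s1 s4 s3 s2 g5 p0 q0 qb p q y : ℝ}
    (hn : n = 1 ∨ n = 2) (hs : side ≤ 2) (hd : d.Ok s1 s4 s3 s2 g5 p0 q0 qb)
    (hm : Mn n s1 s4 s3 p0 q0 p q) (hc : Cr n s1 s4 s3 p0 q0 p q y)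
    (h0 : 0 < p) (h1 : p < 1 / 2) (h2 : 1 / 10 < q) (h3 : q < 9 / 10)
    (hv : 1024 * y < ym) (h : sdC d n side ym can need = true) (hS : Sd side p q) :
    can = true ∧ ∃ z, z ≤ 1024 ∧ hesC d n side z ym = true ∧ (z : ℝ) ≤ 1024 * y := by
  obtain ⟨y0, y1, dp, e0, e1, h4, h⟩ := sdC_ex h
  have hlo : (y0 : ℝ) ≤ 1024 * y := by
    rw [e0]
    exact y_lo hn hd hc h2 h3
  obtain ⟨hhi, hno⟩ := y_hi hn e1 h4 hv
  rcases h with ⟨hcan, z2, hz, -, hcr⟩ | ⟨-, hcr⟩
  · have := crs_ok hn hs hd hm hc h0 h1 h2 h3 hS hlo hhi hcr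
    rcases hz with rfl | ⟨hz, hh⟩
    · exact absurd this hno
    · exact ⟨hcan, z2, by omega, hh, this⟩
  · exact absurd (crs_ok hn hs hd hm hc h0 h1 h2 h3 hS hlo hhi hcr) hno

/-- The point between the two sides. -/
private theorem side_b {d : Dx} {n side ym : ℕ} {can need : Bool} {s1 s4 s3 s2 g5 p0 q0 qb p q y : ℝ}
    (hn : n = 1 ∨ n = 2) (hd : d.Ok s1 s4 s3 s2 g5 p0 q0 qb)
    (hm : Mn n s1 s4 s3 p0 q0 p q) (hc : Cr n s1 s4 s3 p0 q0 p q y)
    (h0 : 0 < p) (h1 : p < 1 / 2) (h2 : 1 / 10 < q) (h3 : q < 9 / 10)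
    (hv : 1024 * y < ym) (h : sdC d n side ym can need = true) (hS : Sd 0 p q) (hneed : need = true) :
    can = true ∧ ∃ z, z ≤ 1024 ∧ hesC d n side z ym = true ∧ (z : ℝ) ≤ 1024 * y := by
  obtain ⟨y0, y1, dp, e0, e1, h4, h⟩ := sdC_ex h
  have hlo : (y0 : ℝ) ≤ 1024 * y := by
    rw [e0]
    exact y_lo hn hd hc h2 h3
  obtain ⟨hhi, hno⟩ := y_hi hn e1 h4 hv
  rcases h with ⟨hcan, z2, hz, hcr, -⟩ | ⟨h, -⟩
  · obtain ⟨h5, h6⟩ := hcr hneed
    have := crs_ok hn (by omega) hd hm hc h0 h1 h2 h3 hS hlo hhi h6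
    rcases hz with rfl | ⟨hz, hh⟩
    · exact absurd this hno
    · exact ⟨hcan, z2, h5, hh, this⟩
  · rw [hneed] at h
    exact absurd h.symm Bool.false_ne_true

/-- **The interior of the rectangle.** -/
theorem tC_ok {d : Dx} {n : ℕ} {s1 s4 s3 s2 g5 p0 q0 qb p q : ℝ} (hn : n = 1 ∨ n = 2)
    (hd : d.Ok s1 s4 s3 s2 g5 p0 q0 qb) (h : tC d n = true) (hm : Mn n s1 s4 s3 p0 q0 p q)
    (h0 : 0 < p) (h1 : p < 1 / 2) (h2 : 1 / 10 < q) (h3 : q < 9 / 10)
    (hv : VV n s1 s4 s3 p0 q0 p q ≤ 0) : p = p0 ∧ q = q0 := by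
  have hn1 : 1 ≤ n := by omega
  have hB := hd.B
  obtain ⟨y, hc⟩ := hm.cross hn1 hB h0 h1 h2 h3
  unfold tC at h
  obtain ⟨ym, hym, hvac, h⟩ := ytp_ex 77 1024 h
  obtain ⟨hL, hR⟩ := cnd h
  have hy := vac_ok hn hd hc hvac
  -- the signs
  have nN : negT d = false → 1 / 2 ≤ p0 + q0 := by
    intro e
    have h5 : 67108864 ≤ d.tl := n4_nltn e
    have h6 : (67108864 : ℝ) ≤ d.tl := by exact_mod_cast h5
    have h7 := hd.t1
    linarith
  have nP : posS d = false → q0 ≤ 1 / 2 := by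
    intro e
    have h5 : d.sh ≤ 67108864 := n4_nltn e
    have h6 : (d.sh : ℝ) ≤ 67108864 := by exact_mod_cast h5
    have h7 := hd.o2
    linarith
  have cP : cond (posS d) false true = true → posS d = false := by
    intro e
    cases h : posS d
    · rfl
    · rw [h, cond_true] at e
      exact absurd e Bool.false_ne_true
  have cN : cond (negT d) false true = true → negT d = false := by
    intro e
    cases h : negT d
    · rfl
    · rw [h, cond_true] at e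
      exact absurd e Bool.false_ne_true
  by_contra hcon
  have hne : p ≠ p0 ∨ q ≠ q0 := by
    by_contra hc'
    push Not at hc'
    exact hcon hc'
  have hpos : 0 < VV n s1 s4 s3 p0 q0 p q := by
    rcases le_or_gt q (1 / 2) with hq | hq
    · rcases lt_or_ge (p + q) (1 / 2) with hpq | hpq
      · -- left
        obtain ⟨a, z, b, c, e⟩ := side_a hn (by norm_num) hd hm hc h0 h1 h2 h3 hy hL
          (Or.inr (Or.inl ⟨rfl, hpq⟩))
        exact hesC_ok hn (Or.inl rfl) hd hc (fun _ => nP (cP a)) (fun h => absurd h (by norm_num))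
          h0 h1 h2 h3 (fun _ => hq) (fun h => absurd h (by norm_num)) b hym e hy.le c hne
      · -- the triangle
        have hS : Sd 0 p q := Or.inl ⟨rfl, hq, hpq⟩
        cases hN : negT d
        · cases hP : posS d
          · exact VV_tri hn1 hB (nP hP) (nN hN) h0.le h1.le (by linarith) hq hpq hne
          · obtain ⟨a, z, b, c, e⟩ := side_b hn hd hm hc h0 h1 h2 h3 hy hR hS hP
            exact hesC_ok hn (Or.inr rfl) hd hc (fun h => absurd h (by norm_num))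
              (fun _ => nN (cN a)) h0 h1 h2 h3 (fun h => absurd h (by norm_num))
              (fun _ => ⟨hpq, by linarith⟩) b hym e hy.le c hne
        · obtain ⟨a, z, b, c, e⟩ := side_b hn hd hm hc h0 h1 h2 h3 hy hL hS hN
          exact hesC_ok hn (Or.inl rfl) hd hc (fun _ => nP (cP a)) (fun h => absurd h (by norm_num))
            h0 h1 h2 h3 (fun _ => hq) (fun h => absurd h (by norm_num)) b hym e hy.le c hne
    · -- right
      have hpq := hm.not_far hn1 hB h0 h1 hq h3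
      obtain ⟨a, z, b, c, e⟩ := side_a hn le_rfl hd hm hc h0 h1 h2 h3 hy hR
        (Or.inr (Or.inr ⟨rfl, hq, hpq⟩))
      exact hesC_ok hn (Or.inr rfl) hd hc (fun h => absurd h (by norm_num))
        (fun _ => nN (cN a)) h0 h1 h2 h3 (fun h => absurd h (by norm_num))
        (fun _ => ⟨by linarith, hpq⟩) b hym e hy.le c hne
  linarith

end Pool.Agent.S5.Y3
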