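import Pool.Agent.S5.I.Y3E
import Pool.Agent.S5.I.Y3N2
import Pool.Agent.S5.I.Y3N3J
import Pool.Agent.S5.I.Y3N3L
import Pool.Agent.S5.I.Y3N4d

/-!
# The flats of a node with three half twists: the first part
-/

set_option autoImplicit false

namespace Pool.Agent.S5.Y3

open MeasureTheory Filter Topology Set Pool.Agent.S5.C2 Pool.Agent.S5.Num Pool.Agent.S5.K3

theorem VV_self (n : ℕ) (s1 s4 s3 p0 q0 : ℝ) : VV n s1 s4 s3 p0 q0 p0 q0 = 0 := by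
  unfold VV
  rw [Dq_self, Dq_self, Dq_self]
  ring

theorem VV_continuous {n : ℕ} {s1 s4 s3 : ℝ} (h1 : 0 ≤ s1) (h4 : 0 ≤ s4) (h3 : 0 ≤ s3) (p0 q0 : ℝ) :
    Continuous (fun x : ℝ × ℝ => VV n s1 s4 s3 p0 q0 x.1 x.2) := by
  unfold VV
  exact ((continuous_const.mul ((Dq_continuous h1 p0).comp continuous_fst)).add
    ((Dq_continuous h4 q0).comp continuous_snd)).sub
    ((Dq_continuous h3 (p0 + q0)).comp (continuous_fst.add continuous_snd))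

theorem v1b_square {d : Dx} {n : ℕ} {f4 : Bool} {s1 s4 s3 s2 g5 p0 q0 qb : ℝ} (hn : n = 1 ∨ n = 2)
    (hd : d.Ok s1 s4 s3 s2 g5 p0 q0 qb) (h : v1b d n f4 = true) :
    ∀ p q : ℝ, 0 ≤ p → p ≤ 1 / 2 → 1 / 10 ≤ q → q ≤ 9 / 10 →
      0 < VV n s1 s4 s3 p0 q0 p q ∨ (p = p0 ∧ q = q0) := by
  unfold v1b at h
  obtain ⟨hN, h⟩ := cond_and h
  obtain ⟨-, h⟩ := cond_and h
  obtain ⟨-, h⟩ := cond_and h
  obtain ⟨hE, h⟩ := cond_and h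
  obtain ⟨hB, h⟩ := cond_and h
  obtain ⟨hJ, h⟩ := cond_and h
  obtain ⟨hL, hC⟩ := cond_and h
  have hJ' : (∀ p, 0 ≤ p → p ≤ 1 / 5 → 0 < VV n s1 s4 s3 p0 q0 p (9 / 10)) ∧
      (∀ q, 1 / 2 ≤ q → q ≤ 9 / 10 → 0 < VV n s1 s4 s3 p0 q0 0 q) := by
    rcases cond_or hJ with hJ | hJ
    · exact tJ_ok hn (Or.inl ⟨rfl, rfl⟩) hd hJ
    · rcases cond_or hJ with hJ | hJ
      · exact tJ_ok hn (Or.inr (Or.inl ⟨rfl, rfl⟩)) hd hJ
      · exact tJ_ok hn (Or.inr (Or.inr ⟨rfl, rfl⟩)) hd hJ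
  have hL' : (∀ q, 1 / 10 ≤ q → q ≤ 1 / 2 → 0 < VV n s1 s4 s3 p0 q0 0 q) ∨ tD d n = true := by
    rcases cond_or hL with hL | hL
    · exact Or.inr hL
    · rcases cond_or hL with hL | hL
      · exact Or.inl (tL_ok hn (Or.inl ⟨rfl, rfl⟩) hd hL)
      · rcases cond_or hL with hL | hL
        · exact Or.inl (tL_ok hn (Or.inr (Or.inl ⟨rfl, rfl⟩)) hd hL)
        · exact Or.inl (tL_ok hn (Or.inr (Or.inr ⟨rfl, rfl⟩)) hd hL)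
  have key : ∀ p q, Mn n s1 s4 s3 p0 q0 p q → VV n s1 s4 s3 p0 q0 p q ≤ 0 → p = p0 ∧ q = q0 := by
    intro p q hm hv
    rcases hm.hp0.eq_or_lt with e0 | e0
    · exfalso
      subst e0
      rcases hL' with hL' | hD
      · rcases le_total q (1 / 2) with h5 | h5
        · exact absurd (hL' q hm.hq0 h5) (not_lt.2 hv)
        · exact absurd (hJ'.2 q h5 hm.hq1) (not_lt.2 hv)
      · exact tD_ok hn hd hD hm rfl
    rcases hm.hp1.eq_or_lt with e1 | e1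
    · exact absurd e1 (hm.ne_half hd.B (tN_ok hn hd hN))
    rcases hm.hq0.eq_or_lt with e2 | e2
    · exact (tB_ok hn hd hB hm e0 e2.symm).elim
    rcases hm.hq1.eq_or_lt with e3 | e3
    · exfalso
      have h5 := tE_ok hn hd hE hm e3
      subst e3
      exact absurd (hJ'.1 p hm.hp0 h5) (not_lt.2 hv)
    exact tC_ok hn hd hC hm e0 e1 e2 e3 hv
  intro p q hp hp1 hq hq1
  by_contra hcc
  rw [not_or, not_lt] at hcc
  obtain ⟨hv, hne⟩ := hcc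
  have hK : IsCompact (Icc (0 : ℝ) (1 / 2) ×ˢ Icc (1 / 10 : ℝ) (9 / 10)) := isCompact_Icc.prod isCompact_Icc
  obtain ⟨⟨a, b⟩, hab, hmin⟩ := hK.exists_isMinOn ⟨(0, 1 / 10), ⟨⟨le_rfl, by norm_num⟩, ⟨le_rfl, by norm_num⟩⟩⟩
    (VV_continuous (n := n) hd.B.h1 hd.B.h4 hd.B.h3 p0 q0).continuousOn
  rw [isMinOn_iff] at hmin
  have hm : Mn n s1 s4 s3 p0 q0 a b :=
    ⟨hab.1.1, hab.1.2, hab.2.1, hab.2.2, fun p' q' h1 h2 h3 h4 => hmin (p', q') ⟨⟨h1, h2⟩, ⟨h3, h4⟩⟩⟩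
  have h5 : VV n s1 s4 s3 p0 q0 a b ≤ 0 := (hm.le p q hp hp1 hq hq1).trans hv
  obtain ⟨rfl, rfl⟩ := key a b hm h5
  rw [VV_self] at h5
  have h6 := hm.le p q hp hp1 hq hq1
  rw [VV_self] at h6
  have hm' : Mn n s1 s4 s3 a b p q := ⟨hp, hp1, hq, hq1, fun p' q' h1 h2 h3 h4 => by
    have h7 := hm.le p' q' h1 h2 h3 h4
    rw [VV_self] at h7
    linarith⟩
  exact hne (key p q hm' hv)

theorem v1b_ok {d : Dx} {n : ℕ} {f4 : Bool} {s1 s4 s3 s2 g5 p0 q0 qb : ℝ} (hn : n = 1 ∨ n = 2)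
    (hd : d.Ok s1 s4 s3 s2 g5 p0 q0 qb) (h : v1b d n f4 = true) :
    (∀ p q : ℝ, 0 ≤ p → p ≤ 3 / 4 → 1 / 10 ≤ q → q ≤ 9 / 10 →
      0 < VV n s1 s4 s3 p0 q0 p q ∨ (p = p0 ∧ q = q0)) ∧
    (∀ x q : ℝ, 0 < x → x ≤ 1 / 4 → 1 / 10 ≤ q → q ≤ 9 / 10 →
      VV n s1 s4 s3 p0 q0 (1 / 2 - x) q < VV n s1 s4 s3 p0 q0 (1 / 2 + x) q) ∧
    (f4 = true → ∀ p q : ℝ, 1 / 2 ≤ p → p ≤ 3 / 4 → 1 / 10 ≤ q → q ≤ 9 / 10 →
      VV n s1 s4 s3 p0 q0 (2 / 5) q + 1 / 20 < VV n s1 s4 s3 p0 q0 p q) := by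
  have hsq := v1b_square hn hd h
  unfold v1b at h
  obtain ⟨-, h⟩ := cond_and h
  obtain ⟨hM, h⟩ := cond_and h
  obtain ⟨hF, -⟩ := cond_and h
  have hM' := tM_ok hn hd hM
  refine ⟨?_, hM', ?_⟩
  · intro p q hp hp1 hq hq1
    rcases le_or_gt p (1 / 2) with h5 | h5
    · exact hsq p q hp h5 hq hq1
    · left
      have h6 := hM' (p - 1 / 2) q (by linarith) (by linarith) hq hq1
      rw [show 1 / 2 + (p - 1 / 2) = p by ring] at h6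
      have h7 := hsq (1 / 2 - (p - 1 / 2)) q (by linarith) (by linarith) hq hq1
      have h8 : 0 ≤ VV n s1 s4 s3 p0 q0 (1 / 2 - (p - 1 / 2)) q := by
        rcases h7 with h7 | ⟨h7, h9⟩
        · exact h7.le
        · rw [h7, h9, VV_self]
      linarith
  · intro hf4
    subst hf4
    exact tF_ok hn hd hF

end Pool.Agent.S5.Y3
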