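import Pool.Agent.S5.I.Y3N1
import Pool.Agent.S5.I.Y3D
import Pool.Agent.S5.I.NumLb
import Pool.Agent.S5.I.NumLs

/-!
# The flats of a node with three half twists: the sums of the second part
-/

set_option autoImplicit false

namespace Pool.Agent.S5.Y3

open MeasureTheory Filter Topology Set Pool.Agent.S5.C2 Pool.Agent.S5.Num Pool.Agent.S5.K3

namespace N6

/-! ### Logarithms -/

private theorem uu_pos : (0 : ℝ) < UU := by unfold UU; norm_num

/-- `lnh (4 (c + s))` for `c + s ≥ 1`. -/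
private theorem hl_abs {c s : ℕ} (h0 : 0 < c + s) (h1 : c + s < 2 ^ 100) :
    |((hl c s : ℕ) : ℝ) - UU * (Real.log (4 * ((c : ℝ) + s)) / 2)| ≤ 40 := by
  have k := lnh_sound (v := 4 * (c + s)) (by omega) (by omega)
  have e : hl c s = lnh (4 * (c + s)) := by
    unfold hl
    rw [fN_eq]
    rfl
  rw [e]
  rw [show ((4 * (c + s) : ℕ) : ℝ) = 4 * ((c : ℝ) + s) by push_cast; ring] at k
  rw [show UU * (Real.log (4 * ((c : ℝ) + s)) / 2) = UU * (1 / 2 * Real.log (4 * ((c : ℝ) + s))) by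
    ring]
  exact k

/-- Scaling by `2^20`. -/
private theorem log_sc {x : ℝ} (hx : 0 < x) :
    Real.log (4 * (1048576 * x)) = Real.log (4 * x) + 20 * Real.log 2 := by
  rw [show (4 : ℝ) * (1048576 * x) = 4 * x * 2 ^ 20 by ring, Real.log_mul (by positivity)
    (by positivity), Real.log_pow]
  norm_num

/-- An upper bound of a table value by `Lq`. -/
private theorem hl_le {c s : ℕ} {S t : ℝ} (h0 : 0 < c + s) (h1 : c + s < 2 ^ 100)
    (hc : (c : ℝ) ≤ 1048576 * Sn t) (hs : (s : ℝ) ≤ 1048576 * S) :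
    ((hl c s : ℕ) : ℝ) ≤ UU * Lq S t + (UU * (20 * Real.log 2) / 2 + 40) := by
  have k := (abs_le.1 (hl_abs h0 h1)).2
  have h2 : (0 : ℝ) < (c : ℝ) + s := by exact_mod_cast h0
  have h3 : 0 < Sn t + S := by linarith
  have k2 := log_sc h3
  have k3 := Real.log_le_log (show (0 : ℝ) < 4 * ((c : ℝ) + s) by linarith)
    (show 4 * ((c : ℝ) + s) ≤ 4 * (1048576 * (Sn t + S)) by linarith)
  rw [k2] at k3
  rw [Lq_eq]
  have k4 := mul_le_mul_of_nonneg_left k3 uu_pos.le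
  linarith

/-! ### The sine -/

private theorem sn40 : 1 / 400 ≤ Sn (1 / 40) := by
  have hpi := Real.pi_pos
  have k := Real.mul_le_sin (x := Real.pi * (1 / 40)) (by positivity) (by linarith)
  have e : 2 / Real.pi * (Real.pi * (1 / 40)) = 1 / 20 := by
    field_simp
    norm_num
  rw [e] at k
  unfold Sn
  have := pow_le_pow_left₀ (by norm_num : (0 : ℝ) ≤ 1 / 20) k 2
  linarith

private theorem sn_quarter : Sn (1 / 4) = 1 / 2 := by
  unfold Sn
  rw [show Real.pi * (1 / 4) = Real.pi / 4 by ring, Real.sin_pi_div_four, div_pow,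
    Real.sq_sqrt (by norm_num)]
  norm_num

/-- Near `1/2` the sine is large. -/
private theorem sn_big {t : ℝ} (h0 : 1 / 4 ≤ t) (h1 : t ≤ 3 / 4) : 1 / 2 ≤ Sn t := by
  have := Sn_ge (m := 1 / 4) (x := t) (by norm_num) h0 (by linarith)
  rwa [sn_quarter] at this

/-- The condition of concavity is monotone. -/
private theorem conc {s S c T : ℝ} (hs : s ≤ S) (hc : S ≤ c * (1 + 2 * S)) (hT : c ≤ T) (h0 : 0 ≤ s) : s ≤ T * (1 + 2 * s) := by
  have k1 : c * (1 + 2 * s) ≤ T * (1 + 2 * s) :=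
    mul_le_mul_of_nonneg_right hT (by linarith)
  rcases le_total (2 * c) 1 with h | h
  · have := mul_le_mul_of_nonneg_right hs (show 0 ≤ 1 - 2 * c by linarith)
    linarith
  · have := mul_nonneg h0 (show 0 ≤ 2 * c - 1 by linarith)
    linarith

private theorem conc_big {s T : ℝ} (h0 : 0 ≤ s) (hT : 1 / 2 ≤ T) : s ≤ T * (1 + 2 * s) := by
  have := mul_le_mul_of_nonneg_right hT (show 0 ≤ 1 + 2 * s by linarith)
  linarith

/-! ### `D5` on the right, with `C0 ≤ 1/2` -/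

private theorem dI_nonneg {f : ℝ → ℝ} {a b : ℝ} (hab : a ≤ b)
    (h : ∀ t, Real.sin (Real.pi * t) ≠ 0 → a ≤ t → t ≤ b → 0 ≤ f t) : 0 ≤ ∫ t in a..b, f t := by
  apply intervalIntegral.integral_nonneg_of_ae_restrict hab
  filter_upwards [ae_restrict_mem measurableSet_Icc, ae_restrict_of_ae Pool.Agent.S3.sin_ne_ae]
    with t ht h2
  exact h t h2 ht.1 ht.2

private theorem sn_ne {t : ℝ} (h : Real.sin (Real.pi * t) ≠ 0) : 0 < Sn t := by
  unfold Sn
  positivity

private theorem sn_neg (v : ℝ) : Sn (1 / 2 - v) = Sn (1 / 2 + v) := by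
  rw [← Sn_one_sub]
  congr 1
  ring

private theorem sn_in {u t : ℝ} (h : |t| ≤ u) (hu : u ≤ 1 / 2) : Sn (1 / 2 + u) ≤ Sn (1 / 2 + t) := by
  have h2 := abs_le.1 h
  rw [← sn_neg]
  exact Sn_ge (by linarith) (by linarith) (by linarith)

private theorem lq_le {s a b : ℝ} (h0 : 0 < Sn a + s) (h : Sn a ≤ Sn b) : Lq s a ≤ Lq s b := by
  rw [Lq_eq, Lq_eq]
  have := Real.log_le_log (show 0 < 4 * (Sn a + s) by linarith)
    (show 4 * (Sn a + s) ≤ 4 * (Sn b + s) by linarith)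
  linarith

/-- The quotient decreases in the added constant. -/
private theorem rat {S C s s' : ℝ} (hC : 0 < C + s) (hCS : C ≤ S) (hs : s ≤ s') :
    Real.log (4 * (S + s')) / 2 - Real.log (4 * (C + s')) / 2 ≤
      Real.log (4 * (S + s)) / 2 - Real.log (4 * (C + s)) / 2 := by
  have h1 := Real.log_le_log (show 0 < 4 * (S + s') * (4 * (C + s)) by
    apply mul_pos <;> linarith) (show 4 * (S + s') * (4 * (C + s)) ≤
      4 * (S + s) * (4 * (C + s')) by nlinarith [mul_nonneg (sub_nonneg.2 hCS) (sub_nonneg.2 hs)])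
  rw [Real.log_mul (x := 4 * (S + s')) (y := 4 * (C + s)) (by linarith) (by linarith),
    Real.log_mul (x := 4 * (S + s)) (y := 4 * (C + s')) (by linarith) (by linarith)] at h1
  linarith

private theorem icst (c a b : ℝ) : IntervalIntegrable (fun _ : ℝ => c) volume a b :=
  intervalIntegrable_const

private theorem int_sub_c {s : ℝ} (hs : 0 ≤ s) (c a b : ℝ) :
    ∫ t in a..b, (Lq s t - c) = (∫ t in a..b, Lq s t) - (b - a) * c := by
  rw [intervalIntegral.integral_sub (Lq_int hs a b) (icst c a b), intervalIntegral.integral_const,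
    smul_eq_mul]

/-- Comparison of the integrals of `Lq` for two constants. -/
private theorem cmp {S S' C0 b x : ℝ} (hS : 0 ≤ S) (hSS : S ≤ S') (hC : 0 < C0)
    (hx : x - 1 ≤ b) (h : ∀ t, x - 1 / 2 ≤ t → t ≤ 1 / 2 + b → C0 ≤ Sn t) :
    (∫ t in (x - 1 / 2)..(1 / 2 + b), Lq S' t) - (∫ t in (x - 1 / 2)..(1 / 2 + b), Lq S t) ≤
      (b - (x - 1)) * (Real.log (4 * (C0 + S')) / 2 - Real.log (4 * (C0 + S)) / 2) := by
  have hS' : 0 ≤ S' := hS.trans hSS
  rw [← intervalIntegral.integral_sub (Lq_int hS' _ _) (Lq_int hS _ _)]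
  have e : (b - (x - 1)) * (Real.log (4 * (C0 + S')) / 2 - Real.log (4 * (C0 + S)) / 2) =
      ∫ _t in (x - 1 / 2)..(1 / 2 + b),
        (Real.log (4 * (C0 + S')) / 2 - Real.log (4 * (C0 + S)) / 2) := by
    rw [intervalIntegral.integral_const, smul_eq_mul]
    ring
  rw [e]
  refine intervalIntegral.integral_mono_on (by linarith)
    ((Lq_int hS' _ _).sub (Lq_int hS _ _)) (icst _ _ _) fun t ht => ?_
  have := rat (S := Sn t) (C := C0) (s := S) (s' := S') (by linarith) (h t ht.1 ht.2) hSS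
  rw [Lq_eq, Lq_eq]
  linarith

/-- `D5(x)` for `3/4 ≤ x ≤ 5/4`, from the mean value. -/
private theorem D5r {h h' u0 b x C0 κ : ℝ} (hh : 0 ≤ h) (hh' : h ≤ h') (hu : 0 ≤ u0)
    (hu1 : u0 < 1 / 2) (hb : 0 ≤ b) (hb1 : b < 1 / 2) (hx : 3 / 4 ≤ x) (hxb : x - 1 ≤ b)
    (hC : 0 < C0) (hC1 : C0 ≤ Sn (1 / 2 + u0)) (hC2 : C0 ≤ Sn (1 / 2 + b)) (hC3 : C0 ≤ 1 / 2)
    (hκ : Real.log ((C0 + Real.sinh (Real.pi * h') ^ 2) / (C0 + Real.sinh (Real.pi * h) ^ 2)) / 2 ≤
      Real.pi * (h' - h) + κ) :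
    (∫ t in (x - 1 / 2)..(1 / 2 + b), Lq (Real.sinh (Real.pi * h') ^ 2) t) +
      (x - b) * Lq (Real.sinh (Real.pi * h') ^ 2) (1 / 2 + u0) - Real.pi * h' - κ ≤
      -Dq (Real.sinh (Real.pi * h) ^ 2) (1 / 2 + u0) (1 / 2 + x) := by
  have hpi := Real.pi_pos
  have hm := mean_Lq h (x - 1 / 2)
  obtain ⟨S, hS⟩ : ∃ S, S = Real.sinh (Real.pi * h) ^ 2 := ⟨_, rfl⟩
  obtain ⟨S', hS'⟩ : ∃ S', S' = Real.sinh (Real.pi * h') ^ 2 := ⟨_, rfl⟩
  have hS0 : 0 ≤ S := by rw [hS]; positivity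
  have hSS : S ≤ S' := by
    rw [hS, hS']
    apply pow_le_pow_left₀ (Real.sinh_nonneg_iff.2 (by positivity))
    exact Real.sinh_le_sinh.2 (mul_le_mul_of_nonneg_left hh' hpi.le)
  rw [← hS, ← hS'] at hκ ⊢
  rw [← hS, abs_of_nonneg hh, show x - 1 / 2 + 1 = 1 / 2 + x by ring] at hm
  -- the identity
  have i1 : ∀ a c, IntervalIntegrable (Lq S) volume a c := fun a c => Lq_int hS0 a c
  have e1 : -Dq S (1 / 2 + u0) (1 / 2 + x) = -(∫ t in (1 / 2 + u0)..(1 / 2 + x), Lq S t) +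
      (x - u0) * Lq S (1 / 2 + u0) := by
    unfold Dq
    rw [int_sub_c hS0]
    ring
  have e2 := intervalIntegral.integral_add_adjacent_intervals (i1 (x - 1 / 2) (1 / 2 + b))
    (i1 (1 / 2 + b) (1 / 2 + x))
  have e3 := intervalIntegral.integral_add_adjacent_intervals (i1 (1 / 2 + b) (1 / 2 + u0))
    (i1 (1 / 2 + u0) (1 / 2 + x))
  -- between `b` and `u0`
  have e4 : (u0 - b) * Lq S (1 / 2 + u0) ≤ ∫ t in (1 / 2 + b)..(1 / 2 + u0), Lq S t := by
    have hp : 0 < Sn (1 / 2 + u0) + S := by linarith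
    rcases le_total b u0 with h1 | h1
    · have k := dI_nonneg (f := fun t => Lq S t - Lq S (1 / 2 + u0)) (a := 1 / 2 + b)
        (b := 1 / 2 + u0) (by linarith) (by
        intro t _ h2 h3
        have := lq_le (s := S) (a := 1 / 2 + u0) (b := t) hp (by
          have := sn_in (u := u0) (t := t - 1 / 2) (abs_le.2 ⟨by linarith, by linarith⟩) hu1.le
          rwa [show 1 / 2 + (t - 1 / 2) = t by ring] at this)
        linarith)
      rw [int_sub_c hS0] at k
      linarith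
    · have k := dI_nonneg (f := fun t => -(Lq S t - Lq S (1 / 2 + u0))) (a := 1 / 2 + u0)
        (b := 1 / 2 + b) (by linarith) (by
        intro t h0 h2 h3
        have := sn_ne h0
        have := lq_le (s := S) (a := t) (b := 1 / 2 + u0) (by linarith) (by
          have := sn_in (u := t - 1 / 2) (t := u0) (abs_le.2 ⟨by linarith, by linarith⟩)
            (by linarith)
          rwa [show 1 / 2 + (t - 1 / 2) = t by ring] at this)
        linarith)
      rw [intervalIntegral.integral_neg, int_sub_c hS0] at k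
      rw [intervalIntegral.integral_symm]
      linarith
  -- the change of the constant
  have hmin : ∀ t, x - 1 / 2 ≤ t → t ≤ 1 / 2 + b → C0 ≤ Sn t := by
    intro t h2 h3
    rcases le_total t (3 / 4) with h4 | h4
    · exact hC3.trans (sn_big (by linarith) h4)
    refine hC2.trans ?_
    have := sn_in (u := b) (t := t - 1 / 2) (abs_le.2 ⟨by linarith, by linarith⟩) hb1.le
    rwa [show 1 / 2 + (t - 1 / 2) = t by ring] at this
  have e5 := cmp hS0 hSS hC hxb hmin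
  have e6 := rat (S := Sn (1 / 2 + u0)) (C := C0) (s := S) (s' := S') (by linarith) hC1 hSS
  rw [← Lq_eq, ← Lq_eq] at e6
  have e7 := mul_le_mul_of_nonneg_left e6 (show 0 ≤ x - b by linarith)
  have e8 : Real.log ((C0 + S') / (C0 + S)) / 2 =
      Real.log (4 * (C0 + S')) / 2 - Real.log (4 * (C0 + S)) / 2 := by
    rw [Real.log_div (by linarith) (by linarith), Real.log_mul (by norm_num) (by linarith),
      Real.log_mul (by norm_num) (by linarith)]
    ring
  rw [e8] at hκ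
  rw [e1]
  nlinarith

/-! ### The sums -/

private theorem trs_succ (f : ℕ → ℕ) (i0 m : ℕ) :
    trs f i0 (m + 1) = trs f i0 m + (f (i0 + m) + f (i0 + (m + 1))) := rfl

/-- A sum of trapezoids. -/
private theorem trs_int {s e off : ℝ} (hs : 0 ≤ s) (f : ℕ → ℕ) (i0 m : ℕ) (h0 : 0 < off + i0 / 40)
    (h1 : off + ((i0 + m : ℕ) : ℝ) / 40 < 1)
    (hf : ∀ i, i0 ≤ i → i ≤ i0 + m → ((f i : ℕ) : ℝ) ≤ UU * Lq s (off + i / 40) + e)
    (ht : ∀ i : ℕ, i0 ≤ i → i ≤ i0 + m → s ≤ Sn (off + i / 40) * (1 + 2 * s)) :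
    ((trs f i0 m : ℕ) : ℝ) ≤
      80 * UU * (∫ t in (off + i0 / 40)..(off + ((i0 + m : ℕ) : ℝ) / 40), Lq s t) + 2 * m * e := by
  have hU := uu_pos
  induction m with
  | zero =>
    rw [show (i0 + 0 : ℕ) = i0 by rfl, intervalIntegral.integral_same]
    have : trs f i0 0 = 0 := rfl
    rw [this]
    simp
  | succ m ih =>
    have c1 : ((i0 + (m + 1) : ℕ) : ℝ) = ((i0 + m : ℕ) : ℝ) + 1 := by push_cast; ring
    have c2 : (i0 : ℝ) ≤ ((i0 + m : ℕ) : ℝ) := by push_cast; linarith [(Nat.cast_nonneg m : (0 : ℝ) ≤ m)]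
    rw [c1] at h1 ⊢
    have k := ih (by linarith) (fun i h2 h3 => hf i h2 (by omega)) (fun i h2 h3 => ht i h2 (by omega))
    have k1 := trapG hs (a := off + ((i0 + m : ℕ) : ℝ) / 40) (b := off + (((i0 + m : ℕ) : ℝ) + 1) / 40)
      (by linarith) (by linarith) h1 (ht (i0 + m) (by omega) (by omega))
      (by
        have := ht (i0 + (m + 1)) (by omega) le_rfl
        rwa [c1] at this)
    have k2 := hf (i0 + m) (by omega) (by omega)
    have k3 := hf (i0 + (m + 1)) (by omega) le_rfl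
    rw [c1] at k3
    rw [← intervalIntegral.integral_add_adjacent_intervals
      (Lq_int hs (off + i0 / 40) (off + ((i0 + m : ℕ) : ℝ) / 40)) (Lq_int hs _ _), trs_succ]
    push_cast at k k1 k2 k3 ⊢
    have k4 := mul_le_mul_of_nonneg_left k1 (show (0 : ℝ) ≤ 80 * UU by positivity)
    linarith

end N6

open N6

/-- A node: for every `s2`, `qb` of the box. -/
theorem l2_ok {d : Dx} {i : ℕ} {s1 s4 s3 s2 g5 p0 q0 qb : ℝ}
    (hd : d.Ok s1 s4 s3 s2 g5 p0 q0 qb) (hi : 1 ≤ i) (hi' : i ≤ 30) :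
    ((l2 d (hl d.bh d.s2h) (hl d.bh 0) i : ℕ) : ℝ) - (hl d.bh d.s2h : ℕ) - 160 ≤
      281474976710656 * (Lq s2 (i / 40) - Lq s2 qb) := by
  have hU := uu_pos
  have eU : (281474976710656 : ℝ) = UU := rfl
  rw [eU]
  obtain ⟨v, hv⟩ : ∃ v, v = snn (10 * i) := ⟨_, rfl⟩
  have hs := snn_ok (k := 10 * i) (by omega)
  rw [← hv, show ((10 * i : ℕ) : ℝ) / 400 = i / 40 by push_cast; ring] at hs
  have c1 : (1 : ℝ) ≤ i := by exact_mod_cast hi
  have c2 : (i : ℝ) ≤ 30 := by exact_mod_cast hi'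
  have hsi : 1 / 400 ≤ Sn ((i : ℝ) / 40) := by
    refine sn40.trans (Sn_ge (by norm_num) ?_ ?_)
    · linarith
    · linarith
  have hsi1 := Sn_le_one ((i : ℝ) / 40)
  have hv1 : 1 ≤ v := by
    have : (0 : ℝ) < v := by linarith [hs.2]
    exact_mod_cast this
  have hv2 : v ≤ 1048576 := by
    have : (v : ℝ) ≤ 1048576 := by linarith [hs.1]
    exact_mod_cast this
  have hB0 : 0 < Sn qb := Sn_pos hd.b0 (by linarith [hd.b0'])
  have hb1 : 1 ≤ d.bh := by
    have : (0 : ℝ) < d.bh := by linarith [hd.b2]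
    exact_mod_cast this
  have hb2 := hd.l2.2.2.2.1
  have hs2 := hd.l3.2.2.2.1
  have cs : (0 : ℝ) ≤ d.s2h := Nat.cast_nonneg _
  have cb : (1 : ℝ) ≤ d.bh := by exact_mod_cast hb1
  have cv : (1 : ℝ) ≤ v := by exact_mod_cast hv1
  have h20 := hd.s20
  have h22 := hd.s22
  have hbb := hd.b2
  have k1 := abs_le.1 (hl_abs (c := d.bh) (s := d.s2h) (by omega) (by omega))
  have k2 := abs_le.1 (hl_abs (c := d.bh) (s := 0) (by omega) (by omega))
  rw [Nat.cast_zero, add_zero] at k2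
  -- the real value
  have hreal : ∀ a b : ℝ, 0 < a → 0 < b →
      a * (Sn qb + s2) ≤ b * (Sn ((i : ℝ) / 40) + s2) →
      Real.log (4 * a) / 2 - Real.log (4 * b) / 2 ≤ Lq s2 (i / 40) - Lq s2 qb := by
    intro a b ha hb h
    rw [Lq_eq, Lq_eq]
    have k := Real.log_le_log (show 0 < 4 * a * (4 * (Sn qb + s2)) by positivity)
      (show 4 * a * (4 * (Sn qb + s2)) ≤ 4 * b * (4 * (Sn ((i : ℝ) / 40) + s2)) by linarith)
    rw [Real.log_mul (x := 4 * a) (y := 4 * (Sn qb + s2)) (by positivity) (by positivity),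
      Real.log_mul (x := 4 * b) (y := 4 * (Sn ((i : ℝ) / 40) + s2)) (by positivity) (by positivity)]
      at k
    linarith
  have hl2 : l2 d (hl d.bh d.s2h) (hl d.bh 0) i = cond (Nat.ble d.bh v) (hl v d.s2h)
      (Nat.sub (Nat.add (hl v 0) (hl d.bh d.s2h)) (hl d.bh 0)) := by
    unfold l2
    rw [fN_eq, hv]
    rfl
  rw [hl2]
  cases hc : Nat.ble d.bh v with
  | true =>
    rw [cond_true]
    have h1 : d.bh ≤ v := Nat.le_of_ble_eq_true hc
    have h1' : (d.bh : ℝ) ≤ v := by exact_mod_cast h1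
    have k3 := (abs_le.1 (hl_abs (c := v) (s := d.s2h) (by omega) (by omega))).2
    have k4 := hreal (v + d.s2h) (d.bh + d.s2h) (by linarith) (by linarith) (by
      -- (v + s2h) (B + s) ≤ (bh + s2h) (S + s)
      have e1 : 0 ≤ (Sn ((i : ℝ) / 40) - Sn qb) * (d.s2h - 1048576 * s2) :=
        mul_nonneg (by linarith [hs.1]) (by linarith)
      have e2 : 0 ≤ (1048576 * Sn ((i : ℝ) / 40) - v) * (Sn qb + s2) :=
        mul_nonneg (by linarith [hs.1]) (by linarith)
      have e3 : 0 ≤ (d.bh - 1048576 * Sn qb) * (Sn ((i : ℝ) / 40) + s2) :=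
        mul_nonneg (by linarith) (by linarith)
      linarith)
    have k5 := mul_le_mul_of_nonneg_left k4 hU.le
    linarith [k1.1]
  | false =>
    rw [cond_false]
    have h1 : v < d.bh := by
      by_contra h
      rw [Nat.ble_eq_true_of_le (not_lt.1 h)] at hc
      exact absurd hc (by simp)
    have h1' : (v : ℝ) < d.bh := by exact_mod_cast h1
    have k3 := abs_le.1 (hl_abs (c := v) (s := 0) (by omega) (by omega))
    rw [Nat.cast_zero, add_zero] at k3
    -- no truncation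
    have m1 : Real.log (4 * (d.bh : ℝ)) ≤ Real.log (4 * ((d.bh : ℝ) + d.s2h)) := by
      apply Real.log_le_log
      · linarith
      · linarith
    have m2 : (1 : ℝ) ≤ Real.log (4 * (v : ℝ)) := by
      have h3 := Real.log_two_gt_d9
      have e : Real.log 4 = 2 * Real.log 2 := by
        rw [show (4 : ℝ) = 2 ^ 2 by norm_num, Real.log_pow]
        norm_num
      have h4 : Real.log 4 ≤ Real.log (4 * (v : ℝ)) := by
        apply Real.log_le_log (by norm_num)
        linarith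
      linarith
    have m3 := mul_le_mul_of_nonneg_left m1 hU.le
    have m4 := mul_le_mul_of_nonneg_left m2 hU.le
    have hU2 : (1000 : ℝ) ≤ UU := by unfold UU; norm_num
    have htr : hl d.bh 0 ≤ hl v 0 + hl d.bh d.s2h := by
      have : ((hl d.bh 0 : ℕ) : ℝ) ≤ ((hl v 0 : ℕ) : ℝ) + ((hl d.bh d.s2h : ℕ) : ℝ) := by
        linarith [k1.1, k2.2, k3.1]
      exact_mod_cast this
    have e : ((Nat.sub (Nat.add (hl v 0) (hl d.bh d.s2h)) (hl d.bh 0) : ℕ) : ℝ) =
        (hl v 0 : ℕ) + (hl d.bh d.s2h : ℕ) - (hl d.bh 0 : ℕ) := by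
      have : Nat.sub (Nat.add (hl v 0) (hl d.bh d.s2h)) (hl d.bh 0) =
        hl v 0 + hl d.bh d.s2h - hl d.bh 0 := rfl
      rw [this, Nat.cast_sub htr]
      push_cast
      ring
    rw [e]
    have k4 := hreal v d.bh (by linarith) (by linarith) (by
      have e1 : 0 ≤ (1048576 * Sn ((i : ℝ) / 40) - v) * Sn qb :=
        mul_nonneg (by linarith [hs.1]) hB0.le
      have e2 : 0 ≤ (d.bh - 1048576 * Sn qb) * Sn ((i : ℝ) / 40) :=
        mul_nonneg (by linarith) (by linarith)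
      have e3 : 0 ≤ (d.bh - v) * s2 := mul_nonneg (by linarith) h20
      linarith)
    have k5 := mul_le_mul_of_nonneg_left k4 hU.le
    linarith [k2.1, k3.2]

/-- From `trapG`, `D2_low`, `l2_ok`. -/
theorem D2_num {d : Dx} {b2 j : ℕ} {s1 s4 s3 s2 g5 p0 q0 qb : ℝ}
    (hd : d.Ok s1 s4 s3 s2 g5 p0 q0 qb) (hb : 1048576 * b2 ≥ 40 * d.qh) (hb2 : b2 ≤ 16) (hj : b2 ≤ j)
    (hj' : j ≤ 30) (hcc : 1048576 * d.s2h ≤ snn (10 * b2) * (1048576 + 2 * d.s2h)) :
    ((trs (l2 d (hl d.bh d.s2h) (hl d.bh 0)) b2 (j - b2) : ℕ) : ℝ) -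
      2 * ((j : ℝ) - b2) * (hl d.bh d.s2h : ℕ) - 16384 ≤
      80 * (281474976710656 : ℝ) * Dq s2 qb (j / 40) := by
  have hU := uu_pos
  have eU : (281474976710656 : ℝ) = UU := rfl
  have h20 := hd.s20
  have hb0 := hd.b0
  have hb1 := hd.b0'
  have cq : (1048576 : ℝ) * b2 ≥ 40 * d.qh := by exact_mod_cast hb
  have hqb : qb ≤ (b2 : ℝ) / 40 := by linarith [hd.q2]
  have hb2p : 1 ≤ b2 := by
    have : (0 : ℝ) < b2 := by linarith
    exact_mod_cast this
  have c1 : (1 : ℝ) ≤ b2 := by exact_mod_cast hb2p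
  have c2 : (b2 : ℝ) ≤ 16 := by exact_mod_cast hb2
  have c3 : (b2 : ℝ) ≤ j := by exact_mod_cast hj
  have c4 : (j : ℝ) ≤ 30 := by exact_mod_cast hj'
  have k1 := D2_low h20 hb0 hb1.le (b := (b2 : ℝ) / 40) (x := (j : ℝ) / 40) (H := Lq s2 qb)
    (by linarith) (by linarith) (by linarith) le_rfl
  -- the condition of concavity
  have hs := snn_ok (k := 10 * b2) (by omega)
  rw [show ((10 * b2 : ℕ) : ℝ) / 400 = b2 / 40 by push_cast; ring] at hs
  have hc' : (1048576 : ℝ) * d.s2h ≤ snn (10 * b2) * (1048576 + 2 * d.s2h) := by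
    exact_mod_cast hcc
  have ht : ∀ i : ℕ, b2 ≤ i → i ≤ b2 + (j - b2) → s2 ≤ Sn (0 + i / 40) * (1 + 2 * s2) := by
    intro i h1 h2
    have e1 : (b2 : ℝ) ≤ i := by exact_mod_cast h1
    have e2 : (i : ℝ) ≤ 30 := by
      have : i ≤ 30 := by omega
      exact_mod_cast this
    rw [zero_add]
    rcases le_total (i : ℝ) 20 with h | h
    · refine conc (S := d.s2h / 1048576) (c := snn (10 * b2) / 1048576) (by linarith [hd.s22]) ?_ ?_ h20
      · linarith
      · have := Sn_mono (t := (b2 : ℝ) / 40) (t' := (i : ℝ) / 40) (by linarith) (by linarith)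
          (by linarith)
        linarith [hs.1]
    · exact conc_big h20 (sn_big (by linarith) (by linarith))
  have k2 := trs_int h20 (l2 d (hl d.bh d.s2h) (hl d.bh 0)) b2 (j - b2) (off := 0)
    (e := (hl d.bh d.s2h : ℕ) + 160 - UU * Lq s2 qb) (by linarith) (by
      rw [Nat.add_sub_cancel' hj]
      linarith) (by
      intro i h1 h2
      have := l2_ok hd (i := i) (by omega) (by omega)
      rw [eU] at this
      rw [zero_add]
      linarith) ht
  rw [Nat.add_sub_cancel' hj, Nat.cast_sub hj, zero_add, zero_add] at k2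
  have k3 := mul_le_mul_of_nonneg_left k1 (show (0 : ℝ) ≤ 80 * UU by positivity)
  rw [eU]
  linarith

namespace N6

private theorem pi_U : 80 * UU * Real.pi ≤ 70742377520284480 := by
  have := Real.pi_lt_d20
  unfold UU
  linarith

/-- The correction. -/
private theorem kap_num {d : Dx} {C0 X : ℕ} {s1 s4 s3 s2 g5 p0 q0 qb : ℝ}
    (hd : d.Ok s1 s4 s3 s2 g5 p0 q0 qb) (hC0 : 1 ≤ C0) (hC3 : C0 ≤ 524288)
    (hc : d.s5h * d.s5h * (1048576 - 2 * C0) ≤ 1048576 * (C0 * C0))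
    (hX : d.s5h * (1048576 + d.s5h) * 1048576 ≤ X * ((C0 + d.s5m) * (C0 + d.s5m))) :
    ∃ κ : ℝ, Real.log (((C0 : ℝ) / 1048576 + Real.sinh (Real.pi * (d.g5h / 1048576)) ^ 2) /
        ((C0 : ℝ) / 1048576 + Real.sinh (Real.pi * g5) ^ 2)) / 2 ≤
        Real.pi * (d.g5h / 1048576 - g5) + κ ∧
      80 * UU * κ ≤
        35371188760142240 * ((d.g5h - d.g5l : ℕ) : ℝ) * ((X - 1048576 : ℕ) : ℝ) / 1099511627776 := by
  have hpi := Real.pi_pos
  obtain ⟨Y, hY⟩ : ∃ Y, Y = X - 1048576 := ⟨_, rfl⟩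
  obtain ⟨G, hG⟩ : ∃ G, G = d.g5h - d.g5l := ⟨_, rfl⟩
  rw [← hY, ← hG]
  have cY : (X : ℝ) ≤ Y + 1048576 := by
    have : X ≤ Y + 1048576 := by omega
    exact_mod_cast this
  have cG : (d.g5h : ℝ) ≤ G + d.g5l := by
    have : d.g5h ≤ G + d.g5l := by omega
    exact_mod_cast this
  have cY0 : (0 : ℝ) ≤ Y := Nat.cast_nonneg _
  have cG0 : (0 : ℝ) ≤ G := Nat.cast_nonneg _
  have c1 : (1 : ℝ) ≤ C0 := by exact_mod_cast hC0
  have c2 : (C0 : ℝ) ≤ 524288 := by exact_mod_cast hC3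
  have cs : (0 : ℝ) ≤ d.s5h := Nat.cast_nonneg _
  have cm : (0 : ℝ) ≤ d.s5m := Nat.cast_nonneg _
  have hc' : (d.s5h : ℝ) * d.s5h * (1048576 - 2 * C0) ≤ 1048576 * (C0 * C0) := by
    have : ((1048576 - 2 * C0 : ℕ) : ℝ) = 1048576 - 2 * C0 := by
      rw [Nat.cast_sub (by omega)]
      push_cast
      ring
    rw [← this]
    exact_mod_cast hc
  have hX' : (d.s5h : ℝ) * (1048576 + d.s5h) * 1048576 ≤
      X * ((C0 + d.s5m) * (C0 + d.s5m)) := by exact_mod_cast hX
  clear hc hX hC0 hC3 hY hG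
  obtain ⟨S, hS⟩ : ∃ S, S = Real.sinh (Real.pi * (d.g5h / 1048576)) ^ 2 := ⟨_, rfl⟩
  have hS0 : 0 ≤ S := by rw [hS]; exact sq_nonneg _
  have m1 : (d.s5m : ℝ) ≤ 1048576 * S := by rw [hS]; exact hd.m1
  have m2 : 1048576 * S ≤ (d.s5h : ℝ) := by rw [hS]; exact hd.m2
  have r1 : (1 : ℝ) ≤ 1 + Y / 2097152 := by linarith
  have k := kap_corr (h := g5) (h' := d.g5h / 1048576) (C0 := (C0 : ℝ) / 1048576)
    (r := 1 + Y / 2097152) hd.g0 (by linarith [hd.g2]) (by linarith) (by linarith) (by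
      rw [← hS]
      have e2 : (1048576 * S) ^ 2 ≤ (d.s5h : ℝ) ^ 2 := pow_le_pow_left₀ (by positivity) m2 2
      have e3 := mul_le_mul_of_nonneg_right e2 (show (0 : ℝ) ≤ 1048576 - 2 * C0 by linarith)
      linarith) r1 (by
      rw [← hS]
      have e2 : S * (1 + S) ≤ (d.s5h : ℝ) / 1048576 * (1 + d.s5h / 1048576) :=
        mul_le_mul (by linarith) (by linarith) (by linarith) (by linarith)
      have e3 : (X : ℝ) * ((C0 + d.s5m) * (C0 + d.s5m)) ≤
          (1048576 * (1 + Y / 2097152) ^ 2) * ((C0 + 1048576 * S) * (C0 + 1048576 * S)) := by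
        apply mul_le_mul
        · have := sq_nonneg ((Y : ℝ) / 2097152)
          linarith
        · exact mul_le_mul (by linarith) (by linarith) (by linarith) (by linarith)
        · positivity
        · positivity
      linarith)
  refine ⟨_, k, ?_⟩
  have e1 : (d.g5h : ℝ) / 1048576 - g5 ≤ G / 1048576 := by linarith [hd.g1]
  have e2 : 80 * UU * (Real.pi * ((d.g5h : ℝ) / 1048576 - g5) * (1 + Y / 2097152 - 1)) =
      (80 * UU * Real.pi) * (((d.g5h : ℝ) / 1048576 - g5) * (Y / 2097152)) := by ring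
  rw [e2]
  have e3 : ((d.g5h : ℝ) / 1048576 - g5) * (Y / 2097152) ≤ G / 1048576 * (Y / 2097152) :=
    mul_le_mul_of_nonneg_right e1 (by positivity)
  have e4 : 0 ≤ 80 * UU * Real.pi := by
    have := uu_pos
    positivity
  have e5 := mul_le_mul_of_nonneg_left e3 e4
  have e6 := mul_le_mul_of_nonneg_right pi_U (show (0 : ℝ) ≤ G / 1048576 * (Y / 2097152) by positivity)
  linarith

end N6

/-- From `trapG`, `D5r`, `kap_corr`; `x = k / 40`; `T` is the sum of the logarithms. -/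
theorem D5_num {d : Dx} {ub C0 X k T : ℕ} {s1 s4 s3 s2 g5 p0 q0 qb : ℝ}
    (hd : d.Ok s1 s4 s3 s2 g5 p0 q0 qb) (hk : 32 ≤ k) (hk' : k ≤ 46) (h6 : 6 ≤ ub) (h19 : ub ≤ 19)
    (hC0 : 1 ≤ C0) (hC1 : C0 ≤ d.el) (hC2 : C0 ≤ csn (10 * ub)) (hC3 : C0 ≤ 524288)
    (hc : d.s5h * d.s5h * (1048576 - 2 * C0) ≤ 1048576 * (C0 * C0))
    (hX : d.s5h * (1048576 + d.s5h) * 1048576 ≤ X * ((C0 + d.s5m) * (C0 + d.s5m)))
    (hcc : 1048576 * d.s5h ≤ csn (10 * ub) * (1048576 + 2 * d.s5h))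
    (hT : T ≤ (if k ≤ 40 then trs (l5 d.s5m) 0 (40 - k) + trs (l5 d.s5m) 0 ub else trs (l5 d.s5m) (k - 40) (ub - (k - 40)))) :
    (T : ℝ) + 2 * ((k : ℝ) - ub) * (hl d.el d.s5m : ℕ) -
      (156082869204133600 + 70742377520284480 * d.g5h / 1048576 +
        35371188760142240 * ((d.g5h - d.g5l : ℕ) : ℝ) * ((X - 1048576 : ℕ) : ℝ) / 1099511627776) - 524288 ≤
      80 * (281474976710656 : ℝ) * -Dq (Hs g5) (qb + 1 - q0) (1 / 2 + k / 40) := by
  have hU := uu_pos
  have eU : (281474976710656 : ℝ) = UU := rfl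
  have hpi := Real.pi_pos
  rw [eU]
  have c1 : (1 : ℝ) ≤ C0 := by exact_mod_cast hC0
  have c2 : (C0 : ℝ) ≤ 524288 := by exact_mod_cast hC3
  have ck : (32 : ℝ) ≤ k := by exact_mod_cast hk
  have ck' : (k : ℝ) ≤ 46 := by exact_mod_cast hk'
  have cu : (6 : ℝ) ≤ ub := by exact_mod_cast h6
  have cu' : (ub : ℝ) ≤ 19 := by exact_mod_cast h19
  have ce : (C0 : ℝ) ≤ d.el := by exact_mod_cast hC1
  have cc : (C0 : ℝ) ≤ csn (10 * ub) := by exact_mod_cast hC2
  have cul : (157287 : ℝ) ≤ d.ul := by exact_mod_cast hd.u3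
  have cuh : (d.uh : ℝ) ≤ 524287 := by exact_mod_cast hd.u4
  have hl5 := hd.l3.2.2.2.2
  have cs5 : (d.s5h : ℝ) ≤ 1048576 := by exact_mod_cast hl5
  have hcs : ∀ i : ℕ, i ≤ 40 → ((csn (10 * i) : ℕ) : ℝ) ≤ 1048576 * Sn (1 / 2 + i / 40) ∧
      1048576 * Sn (1 / 2 + i / 40) ≤ (csn (10 * i) : ℕ) + 1 := by
    intro i hi
    have := csn_ok (k := 10 * i) (by omega)
    rwa [show ((10 * i : ℕ) : ℝ) / 400 = i / 40 by push_cast; ring] at this
  obtain ⟨κ, hκ, hκ2⟩ := kap_num hd hC0 hC3 hc hX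
  have e0 : qb + 1 - q0 = 1 / 2 + (qb + 1 / 2 - q0) := by ring
  have k1 := D5r (h := g5) (h' := d.g5h / 1048576) (u0 := qb + 1 / 2 - q0) (b := (ub : ℝ) / 40)
    (x := (k : ℝ) / 40) (C0 := (C0 : ℝ) / 1048576) (κ := κ) hd.g0 (by linarith [hd.g2])
    (by linarith [hd.u1]) (by linarith [hd.u2]) (by linarith) (by linarith) (by linarith)
    (by linarith) (by linarith) (by rw [← e0]; linarith [hd.e1]) (by linarith [(hcs ub (by omega)).1])
    (by linarith) hκ
  rw [← e0] at k1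
  change _ ≤ -Dq (Hs g5) _ _ at k1
  obtain ⟨S, hS⟩ : ∃ S, S = Real.sinh (Real.pi * (d.g5h / 1048576)) ^ 2 := ⟨_, rfl⟩
  have hS0 : 0 ≤ S := by rw [hS]; positivity
  have m1 : (d.s5m : ℝ) ≤ 1048576 * S := by rw [hS]; exact hd.m1
  have m2 : 1048576 * S ≤ (d.s5h : ℝ) := by rw [hS]; exact hd.m2
  have hm : d.s5m ≤ 1048576 := by
    have : (d.s5m : ℝ) ≤ 1048576 := by linarith
    exact_mod_cast this
  rw [← hS] at k1
  obtain ⟨e, he⟩ : ∃ e, e = UU * (20 * Real.log 2) / 2 + 40 := ⟨_, rfl⟩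
  -- the logarithms
  have hf : ∀ i : ℕ, i ≤ 19 → ((l5 d.s5m i : ℕ) : ℝ) ≤ UU * Lq S (1 / 2 + i / 40) + e := by
    intro i hi
    have hi1 := hcs i (by omega)
    have ci : (i : ℝ) ≤ 19 := by exact_mod_cast hi
    have ci0 : (0 : ℝ) ≤ i := Nat.cast_nonneg _
    have h1 : 1 / 400 ≤ Sn (1 / 2 + (i : ℝ) / 40) :=
      sn40.trans (Sn_ge (by norm_num) (by linarith) (by linarith))
    have h2 := Sn_le_one (1 / 2 + (i : ℝ) / 40)
    have h3 : 1 ≤ csn (10 * i) := by
      have : (0 : ℝ) < csn (10 * i) := by linarith [hi1.2]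
      exact_mod_cast this
    have h4 : csn (10 * i) ≤ 1048576 := by
      have : ((csn (10 * i) : ℕ) : ℝ) ≤ 1048576 := by linarith [hi1.1]
      exact_mod_cast this
    have h5 := hl_le (c := csn (10 * i)) (s := d.s5m) (S := S) (t := 1 / 2 + (i : ℝ) / 40)
      (by omega) (by omega) hi1.1 m1
    rw [he]
    exact h5
  -- the concavity
  have hcc' : (1048576 : ℝ) * d.s5h ≤ csn (10 * ub) * (1048576 + 2 * d.s5h) := by
    exact_mod_cast hcc
  have ht : ∀ i : ℕ, (i ≤ 10 ∨ i ≤ ub) → S ≤ Sn (1 / 2 + i / 40) * (1 + 2 * S) := by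
    intro i hi
    have ci0 : (0 : ℝ) ≤ i := Nat.cast_nonneg _
    rcases le_or_gt i 10 with h | h
    · have ci : (i : ℝ) ≤ 10 := by exact_mod_cast h
      exact conc_big hS0 (sn_big (by linarith) (by linarith))
    · have hiu : i ≤ ub := by omega
      have ci : (i : ℝ) ≤ ub := by exact_mod_cast hiu
      refine conc (S := d.s5h / 1048576) (c := csn (10 * ub) / 1048576) (by linarith) (by linarith) ?_ hS0
      have := sn_in (u := (ub : ℝ) / 40) (t := (i : ℝ) / 40) (by rw [abs_of_nonneg (by positivity)]; linarith)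
        (by linarith)
      linarith [(hcs ub (by omega)).1]
  -- the sums
  have hsum : (T : ℝ) ≤ 80 * UU * (∫ t in ((k : ℝ) / 40 - 1 / 2)..(1 / 2 + (ub : ℝ) / 40), Lq S t) +
      2 * ((ub : ℝ) + 40 - k) * e := by
    rcases le_or_gt k 40 with h | h
    · rw [if_pos h] at hT
      have hT' : (T : ℝ) ≤ ((trs (l5 d.s5m) 0 (40 - k) : ℕ) : ℝ) + ((trs (l5 d.s5m) 0 ub : ℕ) : ℝ) := by
        exact_mod_cast hT
      have ck2 : (k : ℝ) ≤ 40 := by exact_mod_cast h
      have j1 := trs_int hS0 (l5 d.s5m) 0 (40 - k) (off := 1 / 2) (e := e) (by norm_num) (by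
        rw [zero_add, Nat.cast_sub h]
        push_cast
        linarith) (fun i _ h2 => hf i (by omega)) (fun i _ h2 => ht i (Or.inl (by omega)))
      have j2 := trs_int hS0 (l5 d.s5m) 0 ub (off := 1 / 2) (e := e) (by norm_num) (by
        rw [zero_add]
        linarith) (fun i _ h2 => hf i (by omega)) (fun i _ h2 => ht i (Or.inr (by omega)))
      rw [zero_add, Nat.cast_sub h] at j1
      rw [zero_add] at j2
      push_cast at j1 j2
      rw [zero_div, add_zero] at j1 j2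
      have j3 : ∫ t in ((k : ℝ) / 40 - 1 / 2)..(1 / 2), Lq S t =
          ∫ t in (1 / 2 : ℝ)..(1 / 2 + (40 - (k : ℝ)) / 40), Lq S t := by
        have q := intervalIntegral.integral_comp_sub_left (Lq S) (a := 1 / 2)
          (b := 1 / 2 + (40 - (k : ℝ)) / 40) (1 : ℝ)
        rw [show (1 : ℝ) - (1 / 2 + (40 - (k : ℝ)) / 40) = (k : ℝ) / 40 - 1 / 2 by ring,
          show (1 : ℝ) - 1 / 2 = 1 / 2 by norm_num] at q
        rw [← q]
        refine intervalIntegral.integral_congr fun t _ => ?_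
        rw [Lq_eq S (1 - t), Sn_one_sub, ← Lq_eq]
      rw [← intervalIntegral.integral_add_adjacent_intervals
        (Lq_int hS0 ((k : ℝ) / 40 - 1 / 2) (1 / 2)) (Lq_int hS0 _ _), j3]
      linarith
    · rw [if_neg (by omega)] at hT
      have hT' : (T : ℝ) ≤ ((trs (l5 d.s5m) (k - 40) (ub - (k - 40)) : ℕ) : ℝ) := by
        exact_mod_cast hT
      have hu : k - 40 + (ub - (k - 40)) = ub := by omega
      have j1 := trs_int hS0 (l5 d.s5m) (k - 40) (ub - (k - 40)) (off := 1 / 2) (e := e)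
        (by positivity) (by
        rw [hu]
        linarith) (fun i _ h2 => hf i (by omega)) (fun i _ h2 => ht i (Or.inr (by omega)))
      rw [hu, Nat.cast_sub (show k - 40 ≤ ub by omega), Nat.cast_sub (show 40 ≤ k by omega)] at j1
      push_cast at j1
      rw [show 1 / 2 + ((k : ℝ) - 40) / 40 = (k : ℝ) / 40 - 1 / 2 by ring] at j1
      linarith
  have hHC := hl_le (c := d.el) (s := d.s5m) (S := S) (t := qb + 1 - q0) (by omega)
    (by have := hd.l1.2.2.2.2; omega) hd.e1 m1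
  rw [← he] at hHC
  have hHC2 := mul_le_mul_of_nonneg_left hHC (show (0 : ℝ) ≤ 2 * ((k : ℝ) - ub) by linarith)
  have k2 := mul_le_mul_of_nonneg_left k1 (show (0 : ℝ) ≤ 80 * UU by positivity)
  have k3 := mul_le_mul_of_nonneg_right pi_U (show (0 : ℝ) ≤ (d.g5h : ℝ) / 1048576 by positivity)
  have k4 := (abs_le.1 log_two_U).2
  rw [he] at hHC2 hsum
  linarith

end Pool.Agent.S5.Y3
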