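import Pool.Agent.S5.I.Y3N1
import Pool.Agent.S5.I.Y3W

/-!
# The flats of a node with three half twists: the data of a box, lemmas
-/

set_option autoImplicit false

namespace Pool.Agent.S5.Y3

open MeasureTheory Filter Topology Set Pool.Agent.S5.C2 Pool.Agent.S5.Num Pool.Agent.S5.K3

namespace Nb

/-! ### Functions -/

theorem fx {f : ℕ → Bool} {n : ℕ} (h : fN f n = true) : ∃ m, m = n ∧ f m = true :=
  ⟨n, rfl, by rwa [fN_eq] at h⟩

theorem Sn_half (t : ℝ) : Sn (1 / 2 + t) = 1 - Sn t := by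
  unfold Sn
  rw [show Real.pi * (1 / 2 + t) = Real.pi * t + Real.pi / 2 by ring, Real.sin_add_pi_div_two,
    Real.cos_sq']

theorem Sn_abs (t : ℝ) : Sn |t| = Sn t := by
  rcases abs_choice t with h | h
  · rw [h]
  · rw [h]
    unfold Sn
    rw [mul_neg, Real.sin_neg]
    ring

theorem Hs_nonneg (h : ℝ) : 0 ≤ Hs h := sq_nonneg _

theorem Hs_abs (t : ℝ) : Hs |t| = Hs t := by
  rcases abs_choice t with h | h
  · rw [h]
  · rw [h]
    unfold Hs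
    rw [mul_neg, Real.sinh_neg]
    ring

theorem Hs_mono {a b : ℝ} (h0 : 0 ≤ a) (h : a ≤ b) : Hs a ≤ Hs b := by
  unfold Hs
  have hp := Real.pi_pos
  have h1 : 0 ≤ Real.sinh (Real.pi * a) := Real.sinh_nonneg_iff.2 (by positivity)
  have h2 : Real.sinh (Real.pi * a) ≤ Real.sinh (Real.pi * b) :=
    Real.sinh_le_sinh.2 (mul_le_mul_of_nonneg_left h hp.le)
  exact pow_le_pow_left₀ h1 h2 2

/-! ### Distances -/

theorem mxn_l (a b : ℕ) : a ≤ mxn a b := by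
  unfold mxn
  cases h : Nat.ble a b with
  | false => exact le_rfl
  | true => exact Nat.le_of_ble_eq_true h

theorem mxn_r (a b : ℕ) : b ≤ mxn a b := by
  unfold mxn
  cases h : Nat.ble a b with
  | false =>
    rw [cond_false]
    by_contra h1
    have h2 : Nat.ble a b = true := Nat.ble_eq_true_of_le (by omega)
    rw [h] at h2
    exact absurd h2 (by simp)
  | true => exact le_rfl

theorem mxn_le {a b c : ℕ} (h1 : a ≤ c) (h2 : b ≤ c) : mxn a b ≤ c := by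
  unfold mxn
  cases Nat.ble a b
  · exact h1
  · exact h2

theorem mxn_inv {a b c : ℕ} (h : mxn a b ≤ c) : a ≤ c ∧ b ≤ c :=
  ⟨(mxn_l a b).trans h, (mxn_r a b).trans h⟩

/-- The point `x` is in `[a, b]`. -/
theorem amx_ok {a b f : ℕ} {x : ℝ} (h1 : (a : ℝ) ≤ x + f) (h2 : x + f ≤ b) :
    |x| ≤ (amx a b f : ℕ) := by
  unfold amx
  rw [abs_le]
  have h3 : ((Nat.sub b f : ℕ) : ℝ) ≤ (mxn (Nat.sub b f) (Nat.sub f a) : ℕ) := by
    exact_mod_cast mxn_l _ _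
  have h4 : ((Nat.sub f a : ℕ) : ℝ) ≤ (mxn (Nat.sub b f) (Nat.sub f a) : ℕ) := by
    exact_mod_cast mxn_r _ _
  have h5 := Na.nsub_ge b f
  have h6 := Na.nsub_ge f a
  constructor <;> linarith

theorem amn_ok {a b f : ℕ} {x : ℝ} (h1 : (a : ℝ) ≤ x + f) (h2 : x + f ≤ b) :
    ((amn a b f : ℕ) : ℝ) ≤ |x| := by
  have h3 : a ≤ b := by exact_mod_cast h1.trans h2
  have e : amn a b f = (a - f) + (f - b) := rfl
  rw [e]
  rcases le_total f a with h | h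
  · have e1 : (a - f) + (f - b) = a - f := by omega
    rw [e1, Nat.cast_sub h]
    exact le_trans (by linarith) (le_abs_self x)
  · rcases le_total b f with h4 | h4
    · have e1 : (a - f) + (f - b) = f - b := by omega
      rw [e1, Nat.cast_sub h4]
      exact le_trans (by linarith) (neg_le_abs x)
    · have e1 : (a - f) + (f - b) = 0 := by omega
      rw [e1]
      simp

theorem amn_amx {a b f : ℕ} (h : a ≤ b) : amn a b f ≤ amx a b f := by
  have e : amn a b f = (a - f) + (f - b) := rfl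
  have h1 : b - f ≤ amx a b f := mxn_l _ _
  have h2 : f - a ≤ amx a b f := mxn_r _ _
  omega

/-! ### Bounds of the functions -/

theorem snL_le {x : ℕ} (h : x ≤ 524288) : snL x ≤ 1048576 := by
  have h1 := snL_ok h
  have h2 := Sn_le_one ((x : ℝ) / 1048576)
  have h3 : ((snL x : ℕ) : ℝ) ≤ ((1048576 : ℕ) : ℝ) := by
    push_cast
    linarith
  exact Nat.cast_le.1 h3

theorem divlt {Z a m N : ℕ} (hm : 0 < m) (hN : 0 < N) (h : Z < a + m * N) :
    Nat.div (Nat.sub Z a) m < N := by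
  change (Z - a) / m < N
  rw [Nat.div_lt_iff_lt_mul hm, Nat.mul_comm N m]
  have : 0 < m * N := Nat.mul_pos hm hN
  omega

theorem snH_le {x : ℕ} (h : x ≤ 524288) : snH x ≤ 1048577 := by
  unfold snH
  obtain ⟨a, b, e, hA⟩ := wst_sound (X := x) (S := 0) (D := 1048576) (by norm_num) (by omega)
    (by norm_num) (fun a _ => Nat.succ (Nat.div (Nat.sub 4785074604081664 a) 536870912))
  rw [e]
  clear e
  have e2 : ((0 : ℕ) : ℝ) / ((1048576 : ℕ) : ℝ) = 0 := by norm_num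
  have e3 : ((1048576 : ℕ) : ℝ) = 1048576 := by norm_num
  rw [e2, e3] at hA
  have h3 := abs_le.1 (Na.Ap_re hA)
  rw [Na.ww_re0] at h3
  have h4 := Real.neg_one_le_cos (2 * Real.pi * (x / 1048576))
  have h5 : (4222124650659328 : ℝ) ≤ a := by linarith
  have h6 : 4222124650659328 ≤ a := by exact_mod_cast h5
  apply Nat.succ_le_of_lt
  exact divlt (by norm_num) (by norm_num) (by omega)

theorem exp_ge {x : ℝ} (h : x ≤ 1 / 4) : 0.18 ≤ Real.exp (-(2 * Real.pi * x)) := by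
  have h1 : 2 * Real.pi * x ≤ 8 / 5 := by
    have h2 := Real.pi_lt_d2
    have h3 := Real.pi_pos
    nlinarith
  have h2 : Real.exp (-(8 / 5)) ≤ Real.exp (-(2 * Real.pi * x)) := Real.exp_le_exp.2 (by linarith)
  refine le_trans ?_ h2
  have h3 : Real.exp (8 / 5) ≤ 5.5 := by
    have h4 : Real.exp (8 / 5) ^ 5 = Real.exp 1 ^ 8 := by
      rw [← Real.exp_nat_mul, ← Real.exp_nat_mul]
      norm_num
    have h5 : Real.exp 1 ^ 8 ≤ 2.7182818286 ^ 8 :=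
      pow_le_pow_left₀ (Real.exp_pos _).le Real.exp_one_lt_d9.le 8
    have h6 : Real.exp (8 / 5) ^ 5 ≤ 5.5 ^ 5 := by
      rw [h4]
      exact h5.trans (by norm_num)
    exact le_of_pow_le_pow_left₀ (by norm_num) (by norm_num) h6
  have h7 : Real.exp (-(8 / 5)) * Real.exp (8 / 5) = 1 := by
    rw [← Real.exp_add]
    norm_num
  have h8 := Real.exp_pos (-(8 / 5 : ℝ))
  nlinarith

theorem sqlt {w : ℕ} (h : 50665495806000 ≤ w) :
    Nat.div (sqn (Nat.sub 281474976710656 w)) (Nat.mul w 1073741824) < 1048576 := by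
  have e1 : Nat.mul w 1073741824 = w * 1073741824 := rfl
  have e2 : Nat.sub 281474976710656 w = 281474976710656 - w := rfl
  rw [e1, e2, Na.sqn_eq]
  change ((281474976710656 - w) * (281474976710656 - w)) / (w * 1073741824) < 1048576
  rw [Nat.div_lt_iff_lt_mul (by omega)]
  have h1 : 281474976710656 - w ≤ 230809480904656 := by omega
  calc (281474976710656 - w) * (281474976710656 - w) ≤ 230809480904656 * 230809480904656 :=
        Nat.mul_le_mul h1 h1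
    _ < 1048576 * (50665495806000 * 1073741824) := by norm_num
    _ ≤ 1048576 * (w * 1073741824) := Nat.mul_le_mul_left _ (Nat.mul_le_mul_right _ h)

theorem shH_le {x : ℕ} (h : x ≤ 262144) : shH x ≤ 1048576 := by
  unfold shH
  obtain ⟨a, b, e, hA⟩ := wst_sound (X := 0) (S := x) (D := 1048576) (by norm_num) (by norm_num)
    (by omega) (fun a _ => fN (fun w =>
      Nat.succ (Nat.div (sqn (Nat.sub 281474976710656 w)) (Nat.mul w 1073741824)))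
      (Nat.sub a 4503599627371008))
  rw [e, fN_eq]
  clear e
  have e2 : ((0 : ℕ) : ℝ) / ((1048576 : ℕ) : ℝ) = 0 := by norm_num
  have e3 : ((1048576 : ℕ) : ℝ) = 1048576 := by norm_num
  rw [e2, e3] at hA
  have h3 := abs_le.1 (Na.Ap_re hA)
  rw [Na.ww_re1] at h3
  have hx : (x : ℝ) ≤ 262144 := by exact_mod_cast h
  have h4 := exp_ge (x := (x : ℝ) / 1048576) (by
    rw [div_le_iff₀ (by norm_num)]
    linarith)
  have c0 : ((4503599627371008 : ℕ) : ℝ) = 4503599627371008 := by norm_num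
  have h5 : (50665495806000 : ℝ) ≤ ((Nat.sub a 4503599627371008 : ℕ) : ℝ) := by
    refine le_trans ?_ (Na.nsub_ge _ _)
    rw [c0]
    linarith
  apply Nat.succ_le_of_lt
  exact sqlt (by exact_mod_cast h5)

/-! ### Values -/

/-- `Sn` on `[0, 1/2]`. -/
theorem snL_r {a : ℕ} {x : ℝ} (ha : a ≤ 524288) (h : (a : ℝ) ≤ 1048576 * x) (hx : x ≤ 1 / 2) :
    ((snL a : ℕ) : ℝ) ≤ 1048576 * Sn x := by
  refine (snL_ok ha).trans (mul_le_mul_of_nonneg_left (Sn_mono (by positivity) ?_ hx) (by norm_num))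
  rw [div_le_iff₀ (by norm_num)]
  linarith

theorem snH_r {b : ℕ} {x : ℝ} (hb : b ≤ 524288) (h0 : 0 ≤ x) (h : 1048576 * x ≤ (b : ℝ)) :
    1048576 * Sn x ≤ ((snH b : ℕ) : ℝ) := by
  have hb' : (b : ℝ) ≤ 524288 := by exact_mod_cast hb
  refine le_trans (mul_le_mul_of_nonneg_left (Sn_mono h0 ?_ ?_) (by norm_num)) (snH_ok hb)
  · rw [le_div_iff₀ (by norm_num)]
    linarith
  · rw [div_le_iff₀ (by norm_num)]
    linarith

/-- `cos²` from below. -/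
theorem cl_r {b : ℕ} {t : ℝ} (hb : b ≤ 524288) (h : |1048576 * t| ≤ (b : ℝ)) :
    ((Nat.sub 1048576 (snH b) : ℕ) : ℝ) ≤ 1048576 * Sn (1 / 2 + t) := by
  have h2 := Sn_nonneg (1 / 2 + t)
  refine Na.nsub_le ?_ (by positivity)
  rw [Sn_half, ← Sn_abs]
  rw [abs_mul, abs_of_pos (by norm_num : (0 : ℝ) < 1048576)] at h
  have h1 := snH_r hb (abs_nonneg t) h
  push_cast
  linarith

/-- `cos²` from above. -/
theorem ch_r {a : ℕ} {t : ℝ} (ha : a ≤ 524288) (h : (a : ℝ) ≤ |1048576 * t|) (ht : |t| ≤ 1 / 2) :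
    1048576 * Sn (1 / 2 + t) ≤ ((Nat.sub 1048576 (snL a) : ℕ) : ℝ) := by
  refine le_trans ?_ (Na.nsub_ge _ _)
  rw [Sn_half, ← Sn_abs]
  rw [abs_mul, abs_of_pos (by norm_num : (0 : ℝ) < 1048576)] at h
  have h1 := snL_r ha h ht
  push_cast
  linarith

theorem shL_r {a : ℕ} {x : ℝ} (ha : a ≤ 262144) (h : (a : ℝ) ≤ |1048576 * x|) :
    ((shL a : ℕ) : ℝ) ≤ 1048576 * Hs x := by
  rw [← Hs_abs x]
  rw [abs_mul, abs_of_pos (by norm_num : (0 : ℝ) < 1048576)] at h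
  refine (shL_ok ha).trans (mul_le_mul_of_nonneg_left (Hs_mono (by positivity) ?_) (by norm_num))
  rw [div_le_iff₀ (by norm_num)]
  linarith

theorem shH_r {b : ℕ} {x : ℝ} (hb : b ≤ 262144) (h : |1048576 * x| ≤ (b : ℝ)) :
    1048576 * Hs x ≤ ((shH b : ℕ) : ℝ) := by
  rw [← Hs_abs x]
  rw [abs_mul, abs_of_pos (by norm_num : (0 : ℝ) < 1048576)] at h
  refine le_trans (mul_le_mul_of_nonneg_left (Hs_mono (abs_nonneg x) ?_) (by norm_num)) (shH_ok hb)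
  rw [le_div_iff₀ (by norm_num)]
  linarith

theorem nsub_le' (a b : ℕ) : Nat.sub a b ≤ a := Nat.sub_le a b

theorem nsub_up {a b c : ℕ} (h : a ≤ c + b) : Nat.sub a b ≤ c := by
  change a - b ≤ c
  omega

theorem nsub_dn {a b c : ℕ} (h : Nat.sub a b ≤ c) : a ≤ c + b := by
  change a - b ≤ c at h
  omega

/-- `Nat.sub` is exact if it is positive. -/
theorem nsub_pos {a b c : ℕ} (h0 : 0 < c) (h : c ≤ Nat.sub a b) :
    ((Nat.sub a b : ℕ) : ℝ) = (a : ℝ) - b := by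
  change ((a - b : ℕ) : ℝ) = (a : ℝ) - b
  change c ≤ a - b at h
  exact Nat.cast_sub (by omega)

theorem ivg {a b f : ℕ} {x F : ℝ} (hF : (f : ℝ) = F) (h1 : (a : ℝ) ≤ x + F) (h2 : x + F ≤ b) :
    ((amn a b f : ℕ) : ℝ) ≤ |x| ∧ |x| ≤ (amx a b f : ℕ) ∧ amn a b f ≤ amx a b f := by
  rw [← hF] at h1 h2
  exact ⟨amn_ok h1 h2, amx_ok h1 h2, amn_amx (by exact_mod_cast h1.trans h2)⟩

/-! ### The positions -/

theorem le1 {a b : ℕ} {x : ℝ} (e : a = b) (h : (b : ℝ) ≤ x) : (a : ℝ) ≤ x := e ▸ h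

theorem le2 {a b : ℕ} {x : ℝ} (e : a = b) (h : x ≤ (b : ℝ)) : x ≤ (a : ℝ) := e ▸ h

theorem le3 {a b c : ℕ} (e : a = b) (h : b ≤ c) : a ≤ c := e ▸ h

theorem le4 {a b : ℕ} {x y : ℝ} (e : a = b) (e' : x = y) (h : (b : ℝ) ≤ 1048576 * Sn y) :
    (a : ℝ) ≤ 1048576 * Sn x := e ▸ e' ▸ h

theorem le5 {a b : ℕ} {x y : ℝ} (e : a = b) (e' : x = y) (h : 1048576 * Sn y ≤ (b : ℝ)) :
    1048576 * Sn x ≤ (a : ℝ) := e ▸ e' ▸ h

theorem F26 : ((67108864 : ℕ) : ℝ) = 67108864 := by norm_num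

theorem F27 : ((134217728 : ℕ) : ℝ) = 134217728 := by norm_num

theorem F19 : ((67633152 : ℕ) : ℝ) = 67633152 := by norm_num

theorem posl {hi pl : ℕ} {y : ℝ} (e : pl = Nat.sub 67633152 hi) (h : 1 ≤ pl)
    (hy : 1048576 * y ≤ (hi : ℝ) - 67108864) : (pl : ℝ) ≤ 1048576 * (1 / 2 - y) := by
  have h1 := nsub_pos one_pos (h.trans_eq e)
  rw [e, h1, F19]
  linarith

theorem posh {lo ph : ℕ} {y : ℝ} (e : ph = Nat.sub 67633152 lo)
    (hy : (lo : ℝ) - 67108864 ≤ 1048576 * y) : 1048576 * (1 / 2 - y) ≤ (ph : ℝ) := by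
  rw [e]
  refine le_trans ?_ (Na.nsub_ge _ _)
  rw [F19]
  linarith

theorem tll {pl zl tl : ℕ} {y z : ℝ} (e : tl = Nat.add pl zl) (h : (pl : ℝ) ≤ 1048576 * (1 / 2 - y))
    (hz : (zl : ℝ) - 67108864 ≤ 1048576 * z) :
    (tl : ℝ) ≤ 1048576 * (1 / 2 - y + (1 / 2 + z) - 1 / 2) + 67108864 := by
  rw [e, Na.add_cast]
  linarith

theorem thh {ph zh th : ℕ} {y z : ℝ} (e : th = Nat.add ph zh) (h : 1048576 * (1 / 2 - y) ≤ (ph : ℝ))
    (hz : 1048576 * z ≤ (zh : ℝ) - 67108864) :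
    1048576 * (1 / 2 - y + (1 / 2 + z) - 1 / 2) + 67108864 ≤ (th : ℝ) := by
  rw [e, Na.add_cast]
  linarith

theorem ull {ql zh ul : ℕ} {b z : ℝ} (e : ul = Nat.sub (Nat.add ql 67108864) zh) (h : 157287 ≤ ul)
    (hq : (ql : ℝ) ≤ 1048576 * (1 / 2 - b)) (hz : 1048576 * z ≤ (zh : ℝ) - 67108864) :
    (ul : ℝ) ≤ 1048576 * (1 / 2 - b + 1 / 2 - (1 / 2 + z)) := by
  have h1 := nsub_pos (by norm_num) (h.trans_eq e)
  rw [e, h1, Na.add_cast, F26]
  linarith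

theorem uhh {qh zl uh : ℕ} {b z : ℝ} (e : uh = Nat.sub (Nat.add qh 67108864) zl)
    (hq : 1048576 * (1 / 2 - b) ≤ (qh : ℝ)) (hz : (zl : ℝ) - 67108864 ≤ 1048576 * z) :
    1048576 * (1 / 2 - b + 1 / 2 - (1 / 2 + z)) ≤ (uh : ℝ) := by
  rw [e]
  refine le_trans ?_ (Na.nsub_ge _ _)
  rw [Na.add_cast, F26]
  linarith

theorem iv26 {lo hi m : ℕ} {x : ℝ} (e : m = amx lo hi 67108864)
    (h1 : (lo : ℝ) - 67108864 ≤ 1048576 * x) (h2 : 1048576 * x ≤ (hi : ℝ) - 67108864) :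
    ((amn lo hi 67108864 : ℕ) : ℝ) ≤ |1048576 * x| ∧ |1048576 * x| ≤ (m : ℕ) ∧
      amn lo hi 67108864 ≤ m := by
  rw [e]
  exact ivg F26 (by linarith) (by linarith)

theorem iv3 {yl yh zl zh l h m : ℕ} {y z : ℝ} (el : l = Nat.sub (Nat.add yl 67108864) zh)
    (eh : h = Nat.sub (Nat.add yh 67108864) zl) (em : m = amx l h 67108864) (c : m ≤ 262144)
    (y3 : (yl : ℝ) - 67108864 ≤ 1048576 * y) (y4 : 1048576 * y ≤ (yh : ℝ) - 67108864)
    (z3 : (zl : ℝ) - 67108864 ≤ 1048576 * z) (z4 : 1048576 * z ≤ (zh : ℝ) - 67108864) :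
    ((amn l h 67108864 : ℕ) : ℝ) ≤ |1048576 * (y - z)| ∧ |1048576 * (y - z)| ≤ (m : ℕ) ∧
      amn l h 67108864 ≤ m := by
  have k3 : 66846720 ≤ l := by
    have h1 := nsub_dn (mxn_inv (em.symm.trans_le c)).2
    omega
  rw [em]
  apply ivg F26
  · have h1 := nsub_pos (by norm_num) (k3.trans_eq el)
    rw [el, h1, Na.add_cast, F26]
    linarith
  · rw [eh]
    refine le_trans ?_ (Na.nsub_ge _ _)
    rw [Na.add_cast, F26]
    linarith

theorem iv27 {bl bh zl zh m g : ℕ} {b z : ℝ}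
    (em : m = amx (Nat.add bl zl) (Nat.add bh zh) 134217728)
    (eg : g = amn (Nat.add bl zl) (Nat.add bh zh) 134217728)
    (b3 : (bl : ℝ) - 67108864 ≤ 1048576 * b) (b4 : 1048576 * b ≤ (bh : ℝ) - 67108864)
    (z3 : (zl : ℝ) - 67108864 ≤ 1048576 * z) (z4 : 1048576 * z ≤ (zh : ℝ) - 67108864) :
    (g : ℝ) ≤ |1048576 * (b + z)| ∧ |1048576 * (b + z)| ≤ (m : ℕ) ∧ g ≤ m := by
  rw [em, eg]
  apply ivg F27
  · rw [Na.add_cast]
    linarith
  · rw [Na.add_cast]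
    linarith

theorem tmle {tl th tm : ℕ} (e : tm = amx tl th 67108864) (h1 : 67004007 ≤ tl)
    (h2 : th ≤ 67528294) : tm ≤ 524288 := by
  rw [e]
  exact mxn_le (nsub_up (by omega)) (nsub_up (by omega))

theorem bpk {pl ph tl th sm : ℕ} {y z s1 s4 s3 : ℝ} (h1 : 0 ≤ s1) (h4 : 0 ≤ s4) (h3 : 0 ≤ s3)
    (c_pl : 1 ≤ pl) (c_ph : ph ≤ 524287)
    (c_tl : 67004007 ≤ tl) (c_th : th ≤ 67528294) (c_sm : sm ≤ 419430)
    (hpl : (pl : ℝ) ≤ 1048576 * (1 / 2 - y)) (hph : 1048576 * (1 / 2 - y) ≤ (ph : ℝ))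
    (htl : (tl : ℝ) ≤ 1048576 * (1 / 2 - y + (1 / 2 + z) - 1 / 2) + 67108864)
    (hth : 1048576 * (1 / 2 - y + (1 / 2 + z) - 1 / 2) + 67108864 ≤ (th : ℝ))
    (R2 : |1048576 * z| ≤ (sm : ℕ)) :
    Bp s1 s4 s3 (1 / 2 - y) (1 / 2 + z) ∧ |1 / 2 - y + (1 / 2 + z) - 1 / 2| ≤ 1 / 2 ∧
      |z| ≤ 1 / 2 := by
  have kpl : (1 : ℝ) ≤ pl := by exact_mod_cast c_pl
  have kph : (ph : ℝ) ≤ 524287 := by exact_mod_cast c_ph
  have ktl : (67004007 : ℝ) ≤ tl := by exact_mod_cast c_tl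
  have kth : (th : ℝ) ≤ 67528294 := by exact_mod_cast c_th
  have ksm : (sm : ℝ) ≤ 419430 := by exact_mod_cast c_sm
  obtain ⟨r1, r2⟩ := abs_le.1 (R2.trans ksm)
  refine ⟨⟨h1, h4, h3, by linarith, by linarith, by linarith, by linarith, by linarith,
    by linarith⟩, ?_, ?_⟩
  · rw [abs_le]
    constructor <;> linarith
  · rw [abs_le]
    constructor <;> linarith

theorem qbk {ql qh : ℕ} {b : ℝ} (c_ql : 1 ≤ ql) (c_qh : qh ≤ 524287)
    (hql : (ql : ℝ) ≤ 1048576 * (1 / 2 - b)) (hqh : 1048576 * (1 / 2 - b) ≤ (qh : ℝ)) :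
    0 < 1 / 2 - b ∧ 1 / 2 - b < 1 / 2 := by
  have kql : (1 : ℝ) ≤ ql := by exact_mod_cast c_ql
  have kqh : (qh : ℝ) ≤ 524287 := by exact_mod_cast c_qh
  constructor <;> linarith

theorem ubk {ul uh : ℕ} {u : ℝ} (c_ul : 157287 ≤ ul) (c_uh : uh ≤ 524287)
    (hul : (ul : ℝ) ≤ 1048576 * u) (huh : 1048576 * u ≤ (uh : ℝ)) :
    |1048576 * u| ≤ (uh : ℝ) ∧ (ul : ℝ) ≤ |1048576 * u| ∧ |u| ≤ 1 / 2 := by
  have kul : (157287 : ℝ) ≤ ul := by exact_mod_cast c_ul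
  have kuh : (uh : ℝ) ≤ 524287 := by exact_mod_cast c_uh
  have h0 : 0 ≤ u := by linarith
  have h1 : 0 ≤ 1048576 * u := by linarith
  rw [abs_of_nonneg h1, abs_of_nonneg h0]
  exact ⟨huh, hul, by linarith⟩

theorem gab (x : ℝ) : |1048576 * x| = 1048576 * |x| := by
  rw [abs_mul, abs_of_pos (by norm_num : (0 : ℝ) < 1048576)]

theorem o12 {lo hi : ℕ} {z : ℝ} (z1 : (lo : ℝ) - 67108864 ≤ 1048576 * z)
    (z2 : 1048576 * z ≤ (hi : ℝ) - 67108864) :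
    (lo : ℝ) ≤ 1048576 * (1 / 2 + z - 1 / 2) + 67108864 ∧
      1048576 * (1 / 2 + z - 1 / 2) + 67108864 ≤ (hi : ℝ) := by
  constructor <;> linarith

end Nb

end Pool.Agent.S5.Y3
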