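import Pool.Agent.S5.K3.Out
import Pool.Agent.S5.I.NumLd

/-!
# The flats of a node with three half twists: the program

Units `2^(-20)`, positions with the offset `2^26`, heights with the offset `2^26`; `n` is the weight of
the edge `y`, `kb` the kind of the neighbour of `b` (`1 = 4S0`, `2 = 3A0`, `3 = 3S0`), `f4` means `4S0` as
neighbour of `y`.
-/

set_option autoImplicit false

namespace Pool.Agent.S5.Y3

open Pool.Agent.S5.Num Pool.Agent.S5.K3

/-! ### Small functions -/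

def ltn (a b : ℕ) : Bool := Nat.ble (Nat.succ a) b

def mnn (a b : ℕ) : ℕ := cond (Nat.ble a b) a b

def mxn (a b : ℕ) : ℕ := cond (Nat.ble a b) b a

/-- `x ^ n` for `n = 1, 2`. -/
def pwn (n x : ℕ) : ℕ := fN (fun x => cond (Nat.ble n 1) x (Nat.mul x x)) x

def sqn (x : ℕ) : ℕ := fN (fun x => Nat.mul x x) x

/-- The table of `2^20 sin² (π k / 400)`, `k ≤ 200`, rounded down, 32 bits each. -/
def tbl : ℕ := 40979980620315153450030307134888291774252989192178778001110263657313861640749602971283747938905876526852142146493711452916628641648192656901950474439117086966048166197337734832606946841626410307301600912106535070710909454532190416840229964975249287608108770366159030845275134021452261969822627260533331186137397501077786801548214068997858772488825258585200970126286995001890364938660502110850264855219780676464589131093023898978359432426455574690149157687992870171393975381724396187856122747828513381383393897833474354395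73066044493949466362980511902398145108231882777573513930973470580538463684558991205538198967886572831426640805960464656186670977637869417158268293677856894125655210611540245592957062906838639093126992490909527156903075242184514514304033466923733362340674162409348597317933307629610004651641586119975318338569199519238823126641753090574749750878961881447159165928106140066054559345900871625743996735304730500998320810634470928464746113926001542169476460025463577946014179677106490931496368047322703944995230497787506235557832721499545135243045149637869148701530025158867171567590192297993961437299925732743169652859780522568292214185757615856008943079775789676367458012082920997927103766038287190743677593291842042173624006634387402666929881931884270241726952775691356448161287428782877599332040264956950298863625603582645626734021368832618099227072745065433613168247361707353522213890107730020193251044873441530625395124699631576845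440728105072416169515762544709022808701105178457543382909795873025600098555970808201209840287761097226563551829674971145212661524717155556776284748707641567135367203803122237214135023518327534375261527949507580278847571121020083838095987203211112047729471680031248774436259611093341225123842033268857898333432058043311376099729051239630607461653291559593533854930316417928059214880714883479712150227568202867277384474060413517781678594355527589502160583660958709174982391667621888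

/-- `sin² (π k / 400)` from below. -/
def tn (k : ℕ) : ℕ := Nat.land (Nat.shiftRight tbl (Nat.mul 32 k)) 4294967295

/-- `cos² (π k / 400)` from below, `k ≤ 400`. -/
def csn (k : ℕ) : ℕ := tn (ds' 200 k)

/-- `sin² (π k / 400)` from below, `k ≤ 400`. -/
def snn (k : ℕ) : ℕ := tn (Nat.sub 200 (ds' 200 k))

/-! ### The data of a box -/

/-- `sin² (π x / 2^20)` from below. -/
def snL (x : ℕ) : ℕ := wst x 0 1048576 (fun a _ =>
  Nat.div (Nat.sub 4785074604081152 (Nat.add a 512)) 536870912)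

/-- `sin² (π x / 2^20)` from above. -/
def snH (x : ℕ) : ℕ := wst x 0 1048576 (fun a _ =>
  Nat.succ (Nat.div (Nat.sub 4785074604081664 a) 536870912))

/-- `sinh² (π h / 2^20)` from below. -/
def shL (h : ℕ) : ℕ := wst 0 h 1048576 (fun a _ => fN (fun w =>
  Nat.div (sqn (Nat.sub 281474976710656 w)) (Nat.mul w 1073741824)) (Nat.sub (Nat.add a 512) 4503599627370496))

/-- `sinh² (π h / 2^20)` from above. -/
def shH (h : ℕ) : ℕ := wst 0 h 1048576 (fun a _ => fN (fun w =>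
  Nat.succ (Nat.div (sqn (Nat.sub 281474976710656 w)) (Nat.mul w 1073741824)))
  (Nat.sub a 4503599627371008))

/-- The smallest distance of `f` from `[a, b]`. -/
def amn (a b f : ℕ) : ℕ := Nat.add (Nat.sub a f) (Nat.sub f b)

/-- The largest distance of `f` from a point of `[a, b]`. -/
def amx (a b f : ℕ) : ℕ := mxn (Nat.sub b f) (Nat.sub f a)

/-- The data. `a = sin² π p0`, `c = cos² π t0`, `d = cos² π s0`, `b = sin² π q0`, `e = cos² π u0`, `s_i = sinh²`,
`pl ≤ p0`, `t0 ∈ [tl, th]`, `s0 ∈ [sl, sh]` (offset), `q0 ∈ [ql, qh]`, `u0 ∈ [ul, uh]`, `|h5| ∈ [g5l, g5h]`,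
`s5m` is below `sinh² (π g5h)`. -/
structure Dx where
  al : ℕ
  ah : ℕ
  cl : ℕ
  ch : ℕ
  dl : ℕ
  dh : ℕ
  s1l : ℕ
  s1h : ℕ
  s3l : ℕ
  s3h : ℕ
  s4l : ℕ
  s4h : ℕ
  pl : ℕ
  tl : ℕ
  th : ℕ
  sl : ℕ
  sh : ℕ
  bl : ℕ
  bh : ℕ
  s2h : ℕ
  ql : ℕ
  qh : ℕ
  ul : ℕ
  uh : ℕ
  el : ℕ
  eh : ℕ
  s5l : ℕ
  s5m : ℕ
  s5h : ℕ
  g5l : ℕ
  g5h : ℕ

/-- The box of the data. -/
def bx3 (o : OutB) (k : Dx → Bool) : Bool :=
  fN (fun pl => fN (fun ph => fN (fun ql => fN (fun qh =>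
  fN (fun tl => fN (fun th => fN (fun ul => fN (fun uh => fN (fun tm => fN (fun sm =>
  fN (fun m1 => fN (fun m4 => fN (fun m3 => fN (fun m2 => fN (fun m5 => fN (fun g5 =>
  fN (fun h3l => fN (fun h3h =>
  cond (Nat.ble 1 pl) (cond (Nat.ble ph 524287) (cond (Nat.ble 1 ql) (cond (Nat.ble qh 524287)
  (cond (Nat.ble 67004007 tl) (cond (Nat.ble th 67528294) (cond (Nat.ble sm 419430)
  (cond (Nat.ble m1 262144) (cond (Nat.ble m4 262144) (cond (Nat.ble m3 262144)
  (cond (Nat.ble m2 262144) (cond (Nat.ble m5 262144)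
  (cond (Nat.ble 157287 ul) (cond (Nat.ble uh 524287)
  (fN (fun al => fN (fun ah => fN (fun cl => fN (fun ch => fN (fun dl => fN (fun dh =>
  fN (fun s1l => fN (fun s1h => fN (fun s3l => fN (fun s3h => fN (fun s4l => fN (fun s4h =>
  fN (fun bl => fN (fun bh => fN (fun s2h => fN (fun el => fN (fun eh =>
  fN (fun s5l => fN (fun s5m => fN (fun s5h =>
    k ⟨al, ah, cl, ch, dl, dh, s1l, s1h, s3l, s3h, s4l, s4h, pl, tl, th, o.zs.re.lo, o.zs.re.hi, bl, bh, s2h,
      ql, qh, ul, uh, el, eh, s5l, s5m, s5h, g5, m5⟩)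
  (shH m5)) (shL m5)) (shL g5)) (Nat.sub 1048576 (snL ul))) (Nat.sub 1048576 (snH uh)))
  (shH m2)) (snH qh)) (snL ql))
  (shH m4)) (shL (amn o.zs.im.lo o.zs.im.hi 67108864)))
  (shH m3)) (shL (amn h3l h3h 67108864)))
  (shH m1)) (shL (amn o.ys.im.lo o.ys.im.hi 67108864)))
  (Nat.sub 1048576 (snL (amn o.zs.re.lo o.zs.re.hi 67108864)))) (Nat.sub 1048576 (snH sm)))
  (Nat.sub 1048576 (snL (amn tl th 67108864)))) (Nat.sub 1048576 (snH tm))) (snH ph)) (snL pl))
  false) false) false) false) false) false) false) false) false) false) false) false) false) false)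
  (Nat.sub (Nat.add o.ys.im.hi 67108864) o.zs.im.lo))
  (Nat.sub (Nat.add o.ys.im.lo 67108864) o.zs.im.hi))
  (amn (Nat.add o.bs.im.lo o.zs.im.lo) (Nat.add o.bs.im.hi o.zs.im.hi) 134217728))
  (amx (Nat.add o.bs.im.lo o.zs.im.lo) (Nat.add o.bs.im.hi o.zs.im.hi) 134217728))
  (amx o.bs.im.lo o.bs.im.hi 67108864))
  (amx (Nat.sub (Nat.add o.ys.im.lo 67108864) o.zs.im.hi) (Nat.sub (Nat.add o.ys.im.hi 67108864) o.zs.im.lo)
    67108864))
  (amx o.zs.im.lo o.zs.im.hi 67108864))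
  (amx o.ys.im.lo o.ys.im.hi 67108864))
  (amx o.zs.re.lo o.zs.re.hi 67108864))
  (amx tl th 67108864))
  (Nat.sub (Nat.add qh 67108864) o.zs.re.lo)) (Nat.sub (Nat.add ql 67108864) o.zs.re.hi))
  (Nat.add ph o.zs.re.hi)) (Nat.add pl o.zs.re.lo))
  (Nat.sub 67633152 o.bs.re.lo)) (Nat.sub 67633152 o.bs.re.hi))
  (Nat.sub 67633152 o.ys.re.lo)) (Nat.sub 67633152 o.ys.re.hi)

/-! ### The first part: one line tests -/

/-- No minimum on `p = 1/2`. -/
def tN (d : Dx) (n : ℕ) : Bool :=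
  ltn (Nat.mul (pwn n (Nat.add d.ah d.s1h)) (Nat.add 948542 d.s3l))
    (Nat.mul (pwn n (Nat.add 1048576 d.s1h)) (Nat.add d.cl d.s3l))

def tM2x (d : Dx) : ℕ := Nat.mul (sqn (sqn (Nat.add d.ah d.s1h)))
  (Nat.mul (Nat.add 524288 d.s3h) (Nat.add 894960 d.s3h))

def tM2y (d : Dx) : ℕ := sqn (Nat.mul (Nat.add 524288 d.s1l) (Nat.add 894959 d.s1l))

/-- Reflection in `p = 1/2`. -/
def tM (d : Dx) (n : ℕ) : Bool :=
  cond (Nat.ble n 1)
    (cond (ltn (Nat.mul (Nat.add 524288 d.s3h) (Nat.add d.ah d.s1h))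
        (Nat.mul (Nat.add 524288 d.s1l) (Nat.add d.cl d.s3l)))
      (ltn (Nat.mul (Nat.add 1048576 d.s3h) (Nat.add d.ah d.s1h))
        (Nat.mul (Nat.add 1048576 d.s1l) (Nat.add d.cl d.s3l))) false)
    (cond (Nat.ble d.s1h 524288)
      (cond (cond (Nat.ble 709624 d.cl) (ltn (tM2x d) (Nat.mul (tM2y d) (sqn (Nat.add d.cl d.s3h)))) false) true
        (ltn (tM2x d) (Nat.mul (tM2y d) (sqn (Nat.add d.cl d.s3l))))) false)

/-- Next to END 4. -/
def tF (d : Dx) (n : ℕ) : Bool :=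
  cond (ltn (Nat.mul (pwn n (Nat.add d.ah d.s1h)) (Nat.add 1048576 d.s3h))
      (Nat.mul (pwn n (Nat.add 524288 d.s1l)) (Nat.add d.cl d.s3l)))
    (ltn (Nat.mul 271829 (Nat.mul (pwn n (Nat.add d.ah d.s1h)) (Nat.add 1048576 d.s3l)))
      (Nat.mul 100000 (Nat.mul (pwn n (Nat.add 948436 d.s1h)) (Nat.add d.cl d.s3l)))) false

/-! ### The crossings: `y` in units `2^(-10)`, `x = y ^ n` in units `2^(-20)` -/

def xx (n y : ℕ) : ℕ := cond (Nat.ble n 1) (Nat.mul 1024 y) (Nat.mul y y)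

/-- `a y + s (y - 1)` from below; `y` in units `1 / u`. -/
def loA (a sl sh u y : ℕ) : ℕ :=
  Nat.div (Nat.sub (Nat.add (Nat.mul a y) (Nat.mul sl (Nat.sub y u))) (Nat.mul sh (Nat.sub u y))) u

/-- `a y + s (y - 1)` from above. -/
def hiA (a sl sh u y : ℕ) : ℕ :=
  Nat.succ (Nat.div (Nat.sub (Nat.add (Nat.mul a y) (Nat.mul sh (Nat.sub y u))) (Nat.mul sl (Nat.sub u y))) u)

/-- `S (y)` is not positive. -/
def zeS (d : Dx) (y : ℕ) : Bool :=
  Nat.ble (Nat.add (Nat.mul d.ah y) (Nat.mul d.s1h (Nat.sub y 1024))) (Nat.mul d.s1l (Nat.sub 1024 y))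

def loC (d : Dx) (x : ℕ) : ℕ := loA d.cl d.s3l d.s3h 1048576 x
def hiC (d : Dx) (x : ℕ) : ℕ := hiA d.ch d.s3l d.s3h 1048576 x
def loD (d : Dx) (x : ℕ) : ℕ := loA d.dl d.s4l d.s4h 1048576 x
def hiD (d : Dx) (x : ℕ) : ℕ := hiA d.dh d.s4l d.s4h 1048576 x
def loS (d : Dx) (y : ℕ) : ℕ := loA d.al d.s1l d.s1h 1024 y
def hiS (d : Dx) (y : ℕ) : ℕ := hiA d.ah d.s1l d.s1h 1024 y

/-- `C > 1` or `D > 1`. -/
def vac (d : Dx) (x : ℕ) : Bool :=
  cond (ltn 1048576 (loC d x)) true (ltn 1048576 (loD d x))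

/-- `M - m` at `x` from above, units `2^(-40)`. -/
def kpx (mh sMl sMh ml sml smh x : ℕ) : ℕ :=
  Nat.sub (Nat.add (Nat.add (Nat.mul mh x) (Nat.mul sMh (Nat.sub x 1048576))) (Nat.mul smh (Nat.sub 1048576 x)))
    (Nat.add (Nat.add (Nat.mul ml x) (Nat.mul sml (Nat.sub x 1048576))) (Nat.mul sMl (Nat.sub 1048576 x)))

/-- `M + 3 m - 4 M m`, units `2^(-40)`. -/
def gmx (x y : ℕ) : ℕ := Nat.sub (Nat.mul 1048576 (Nat.add x (Nat.mul 3 y))) (Nat.mul 4 (Nat.mul x y))

/-- `C + D - 2 C D`, units `2^(-40)`. -/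
def gdx (x y : ℕ) : ℕ := Nat.sub (Nat.mul 1048576 (Nat.add x y)) (Nat.mul 2 (Nat.mul x y))

def mn4 (f : ℕ → ℕ → ℕ) (xl xh yl yh : ℕ) : ℕ := mnn (mnn (f xl yl) (f xl yh)) (mnn (f xh yl) (f xh yh))

/-- `Iq` from below, from above, for `0 < S < 1`. -/
def iqL (s S : ℕ) : ℕ := Nat.div (Nat.mul 1048576 (sqn (Nat.add S s))) (Nat.mul S (Nat.sub 1048576 S))
def iqH (s S : ℕ) : ℕ := Nat.succ (iqL s S)

/-- The minimum of `Iq s` on `[S, 1)`. -/
def iqm (s S : ℕ) : ℕ :=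
  cond (cond (Nat.ble 1 S) (cond (Nat.ble S 1048575)
      (Nat.ble (Nat.mul 1048576 s) (Nat.mul S (Nat.add 1048576 (Nat.mul 2 s)))) false) false)
    (iqL s S) (Nat.div (Nat.mul 4 (Nat.mul s (Nat.add 1048576 s))) 1048576)

/-- `√X < √Y + √Z`. -/
def rtl (X Y Z : ℕ) : Bool := fN (fun X => fN (fun Y => fN (fun Z =>
  cond (ltn X (Nat.add Y Z)) true (ltn (sqn (Nat.sub X (Nat.add Y Z))) (Nat.mul 4 (Nat.mul Y Z)))) Z) Y) X

/-- `√Y + √Z < √X`. -/
def rtg (X Y Z : ℕ) : Bool := fN (fun X => fN (fun Y => fN (fun Z =>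
  cond (ltn (Nat.add Y Z) X) (ltn (Nat.mul 4 (Nat.mul Y Z)) (sqn (Nat.sub X (Nat.add Y Z)))) false) Z) Y) X

/-- The test of a side: `M` the larger, `m` the smaller of `C`, `D`. -/
def lfs (n k Sl s1l Ml Mh sMh ml mh sml : ℕ) : Bool :=
  cond (cond (Nat.ble k 0) true (ltn k (Nat.mul 1048576 Sl))) true
    (cond (ltn (sqn k) (Nat.mul (Nat.mul 1048576 Sl) (mn4 gmx Ml Mh ml mh))) true
      (cond (Nat.ble 1 Ml) (cond (Nat.ble Mh 1048575)
        (rtl (mxn (iqH sMh Ml) (iqH sMh Mh)) (iqm sml ml) (Nat.div (iqm s1l Sl) (Nat.mul n n)))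
        false) false))

/-- The test of an interval `[y0, y1]`: `side = 0`: `q ≤ 1/2 ≤ p + q`, `1`: `p + q < 1/2`, `2`: `1/2 < q`. -/
def leafC (d : Dx) (n side z2 y0 y1 : ℕ) : Bool :=
  cond (Nat.ble z2 y0) true (cond (zeS d y1) true (fN (fun x0 => fN (fun x1 =>
    cond (vac d x0) true (fN (fun Dh => cond (ltn Dh 100130) true
      (fN (fun Cl => fN (fun Ch => fN (fun Dl => fN (fun Dh =>
        cond (Nat.ble side 0) (ltn (Nat.mul 1048576 (hiS d y1)) (mn4 gdx Cl Ch Dl Dh))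
          (fN (fun Sl => cond (Nat.ble side 1)
            (fN (fun k => lfs n k Sl d.s1l Cl Ch d.s3h Dl Dh d.s4l)
              (mxn (kpx d.ch d.s3l d.s3h d.dl d.s4l d.s4h x0) (kpx d.ch d.s3l d.s3h d.dl d.s4l d.s4h x1)))
            (fN (fun k => lfs n k Sl d.s1l Dl Dh d.s4h Cl Ch d.s3l)
              (mxn (kpx d.dh d.s4l d.s4h d.cl d.s3l d.s3h x0) (kpx d.dh d.s4l d.s4h d.cl d.s3l d.s3h x1))))
            (loS d y0)))
        (mnn Dh 1048576)) (mxn (loD d x0) 100130)) (mnn (hiC d x1) 1048576)) (loC d x0))) (hiD d x1)))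
    (xx n y1)) (xx n y0)))

/-- Bisection. -/
def crs (d : Dx) (n side z2 k : ℕ) : ℕ → ℕ → Bool :=
  Nat.rec (fun y0 y1 => leafC d n side z2 y0 y1)
    (fun _ ih y0 y1 => cond (leafC d n side z2 y0 y1) true
      (fN (fun m => cond (ih y0 m) (ih m y1) false) (Nat.div (Nat.add y0 y1) 2))) k

/-- The Hessian is positive for all `y` in `[z, ym]`. -/
def hesC (d : Dx) (n side z ym : ℕ) : Bool :=
  fN (fun x0 => fN (fun x1 => fN (fun Sl => fN (fun Sh => fN (fun Ml => fN (fun ml => fN (fun mh =>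
    cond (Nat.ble 1 Sl) (cond (Nat.ble 1 Ml) (cond (Nat.ble 1 ml) (cond (Nat.ble Sh 1048575)
      (cond (Nat.ble mh 1048575)
        (cond (Nat.ble side 1)
          (cond (Nat.ble (Nat.mul 1048576 d.s3h) (Nat.mul Ml (Nat.add 1048576 (Nat.mul 2 d.s3h))))
            (rtg (iqL d.s3l Ml) (mxn (iqH d.s4h ml) (iqH d.s4h mh))
              (Nat.succ (Nat.div (mxn (iqH d.s1h Sl) (iqH d.s1h Sh)) (Nat.mul n n)))) false)
          (cond (Nat.ble (Nat.mul 1048576 d.s4h) (Nat.mul Ml (Nat.add 1048576 (Nat.mul 2 d.s4h))))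
            (rtg (iqL d.s4l Ml) (mxn (iqH d.s3h ml) (iqH d.s3h mh))
              (Nat.succ (Nat.div (mxn (iqH d.s1h Sl) (iqH d.s1h Sh)) (Nat.mul n n)))) false))
        false) false) false) false) false)
    (cond (Nat.ble side 1) (hiD d x1) (hiC d x1))) (cond (Nat.ble side 1) (loD d x0) (loC d x0)))
    (mnn (cond (Nat.ble side 1) (loC d x0) (loD d x0)) 1048574)) (hiS d ym)) (loS d z))
    (xx n ym)) (xx n z)

/-- The first `y` with `C > 1` or `D > 1`. -/
def ytp (d : Dx) (n : ℕ) (k : ℕ → Bool) (f : ℕ) : ℕ → Bool :=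
  Nat.rec (fun _ => false) (fun _ ih y => cond (vac d (xx n y)) (k y) (fN ih (Nat.add y 16))) f

/-- The first `z` with positive Hessian, or `100000`. -/
def z2s (d : Dx) (n side ym : ℕ) (k : ℕ → Bool) (f : ℕ) : ℕ → Bool :=
  Nat.rec (fun _ => k 100000)
    (fun _ ih z => cond (hesC d n side z ym) (k z) (fN ih (Nat.add z 32))) f

/-- The crossings of a side. -/
def sdC (d : Dx) (n side ym : ℕ) (can need : Bool) : Bool :=
  fN (fun y0 => fN (fun y1 => fN (fun dp =>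
    cond (Nat.ble ym y1)
      (cond can
        (z2s d n side ym (fun z2 => cond
          (cond need (cond (Nat.ble z2 1024) (crs d n 0 z2 (Nat.add dp 3) y0 y1) false) true)
          (crs d n side z2 dp y0 y1) false) 8 768)
        (cond need false (crs d n side 100000 dp y0 y1)))
      false)
    (cond (Nat.ble n 1) 7 6)) (cond (Nat.ble n 1) 2112 1312)) (cond (Nat.ble n 1) 64 288)

def negT (d : Dx) : Bool := ltn d.tl 67108864
def posS (d : Dx) : Bool := ltn 67108864 d.sh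

def tC (d : Dx) (n : ℕ) : Bool :=
  ytp d n (fun ym => cond (sdC d n 1 ym (cond (posS d) false true) (negT d))
    (sdC d n 2 ym (cond (negT d) false true) (posS d)) false) 77 1024

/-! ### The edges -/

def tE1 (d : Dx) (n a b : ℕ) : Bool :=
  ltn (Nat.mul (pwn n (Nat.add d.ah d.s1h)) (Nat.add (Nat.succ (tn (Nat.sub b 40))) d.s3h))
    (Nat.mul (pwn n (Nat.add (tn a) d.s1l)) (Nat.add d.cl d.s3l))

/-- `q = 9/10`, `p > 1/5`. -/
def tE (d : Dx) (n : ℕ) : Bool :=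
  cond (tE1 d n 80 90) (cond (tE1 d n 90 100) (cond (tE1 d n 100 120) (cond (tE1 d n 120 140)
    (cond (tE1 d n 140 160) (cond (tE1 d n 160 180) (tE1 d n 180 200) false) false) false) false)
    false) false

/-- The ratio `e` of the cell: `(cos² + s3) / (c + s3)` or `1`. -/
def eNum (d : Dx) (j : ℕ) : ℕ × ℕ :=
  cond (cond (Nat.ble 67108864 d.tl) (cond (Nat.ble (Nat.mul 1048576 j) (Nat.mul 400 (Nat.sub d.tl 67108864)))
    (Nat.ble d.ch (csn j)) false) false) (Nat.add (csn j) d.s3h, Nat.add d.ch d.s3h) (1, 1)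

def fst' (p : ℕ × ℕ) : ℕ := p.1
def snd' (p : ℕ × ℕ) : ℕ := p.2

/-- The product of the smaller ratios, `m` cells of length `h / 400`. -/
def prG (d : Dx) (n h : ℕ) (k : ℕ → ℕ → Bool) (m : ℕ) : ℕ → ℕ → ℕ → Bool :=
  Nat.rec (fun _ N D => k N D) (fun _ ih i N D =>
    fN (fun a => fN (fun b =>
      fN (fun gn => fN (fun gd => fN (fun rn => fN (fun rd =>
        cond (Nat.ble (Nat.mul gn rd) (Nat.mul rn gd))
          (fN (fun N => fN (fun D => ih (Nat.succ i) N D) (Nat.mul D gd)) (Nat.mul N gn))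
          (fN (fun N => fN (fun D => ih (Nat.succ i) N D) (Nat.mul D rd)) (Nat.mul N rn)))
        (Nat.mul (pwn n (Nat.add (Nat.succ (tn b)) d.s1h)) (snd' (eNum d b))))
        (Nat.mul (pwn n (Nat.add d.al d.s1h)) (fst' (eNum d b))))
        (Nat.add (Nat.succ (mxn (csn (Nat.add 160 a)) (csn (Nat.add 160 b)))) d.s3h))
        (Nat.add (csn b) d.s3h))
      (Nat.mul h (Nat.succ i))) (Nat.mul h i)) m

/-- The product of the ratios, with the square of `e`. -/
def prR (d : Dx) (n h : ℕ) (k : ℕ → ℕ → Bool) (m : ℕ) : ℕ → ℕ → ℕ → Bool :=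
  Nat.rec (fun _ N D => k N D) (fun _ ih i N D =>
    fN (fun b => fN (fun N => fN (fun D => ih (Nat.succ i) N D)
        (Nat.mul D (Nat.mul (pwn n (Nat.add (Nat.succ (tn b)) d.s1h)) (sqn (snd' (eNum d b))))))
        (Nat.mul N (Nat.mul (pwn n (Nat.add d.al d.s1h)) (sqn (fst' (eNum d b))))))
      (Nat.mul h (Nat.succ i))) m

/-- `max (a / b) (c / e) * (f / g)`, or `1`, multiplied to `N / D`. -/
def mlR (a b c e f g N D : ℕ) (k : ℕ → ℕ → Bool) : Bool :=
  fN (fun u => fN (fun v => cond (Nat.ble v u)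
      (fN (fun N => fN (fun D => k N D) (Nat.mul D v)) (Nat.mul N u)) (k N D))
    (Nat.mul (cond (Nat.ble (Nat.mul a e) (Nat.mul c b)) e b) g))
    (Nat.mul (cond (Nat.ble (Nat.mul a e) (Nat.mul c b)) c a) f)

/-- The product of the `w`'s on the right. -/
def prW (d : Dx) (h : ℕ) (k : ℕ → ℕ → Bool) (m : ℕ) : ℕ → ℕ → ℕ → Bool :=
  Nat.rec (fun _ N D => k N D) (fun _ ih i N D =>
    fN (fun c0 => fN (fun c1 =>
      mlR (Nat.add c0 d.s3h) (Nat.add c0 d.s4l) (Nat.add c1 d.s3h) (Nat.add c1 d.s4l)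
        (Nat.add d.dh d.s4h) (Nat.add d.cl d.s3l) N D (fun N D => ih (Nat.succ i) N D))
      (Nat.succ (csn (Nat.mul h i)))) (csn (Nat.mul h (Nat.succ i)))) m

/-- The product of the `w`'s on the left; `ta ≤ |t0|`, `|s0| ≤ sa`. -/
def prL (d : Dx) (h ta sa : ℕ) (k : ℕ → ℕ → Bool) (m : ℕ) : ℕ → ℕ → ℕ → Bool :=
  Nat.rec (fun _ N D => k N D) (fun _ ih i N D =>
    cond (Nat.ble (Nat.mul 1048576 (Nat.mul h (Nat.succ i))) (Nat.mul 400 ta)) (ih (Nat.succ i) N D)
      (fN (fun c0 => cond (Nat.ble (Nat.mul 400 sa) (Nat.mul 1048576 (Nat.mul h i)))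
        (fN (fun c1 =>
          mlR (Nat.add c0 d.s4h) (Nat.add c0 d.s3l) (Nat.add c1 d.s4h) (Nat.add c1 d.s3l)
            (Nat.add d.ch d.s3h) (Nat.add d.dl d.s4h) N D (fun N D => ih (Nat.succ i) N D))
          (Nat.succ (csn (Nat.mul h i))))
        (mlR 1 (Nat.add c0 d.s3l) 1 (Nat.add c0 d.s3l) (Nat.add d.ch d.s3l) 1 N D
          (fun N D => ih (Nat.succ i) N D)))
        (csn (Nat.mul h (Nat.succ i))))) m

/-- The number of cells of length `h / 400` below `p0`. -/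
def mcl (d : Dx) (h : ℕ) : ℕ := Nat.div (Nat.mul 400 d.pl) (Nat.mul 1048576 h)

/-- The final inequality `N^2 > D^2 (WN / WD)^5 (slack 3)^i (slack 4)^j`. -/
def finR (N D WN WD A B i C E j : ℕ) : Bool :=
  ltn (Nat.mul (Nat.mul (sqn D) (Nat.pow WN 5)) (Nat.mul (Nat.pow A i) (Nat.pow C j)))
    (Nat.mul (Nat.mul (sqn N) (Nat.pow WD 5)) (Nat.mul (Nat.pow B i) (Nat.pow E j)))

/-- The value on `q = 9/10`, `p ≤ 1/5` (and on `p = 0`, `q ≥ 1/2`): `h = 8, 4, 2`, `g = 1, 2, 4`. -/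
def tJ (d : Dx) (n h g : ℕ) : Bool :=
  cond (cond (negT d) (Nat.ble 67035464 d.tl) true) (cond (cond (posS d) (Nat.ble d.sh 67140321) true)
    (prG d n h (fun N D => fN (fun hw => prW d hw (fun WN WD =>
        finR N D WN WD (Nat.add 1048576 d.s3l) (Nat.add d.cl d.s3l) (cond (negT d) (Nat.mul 14 g) 0)
          (Nat.add 1048576 d.s4l) (Nat.add d.dl d.s4l) (cond (posS d) (Nat.mul 3 g) 0))
        (Nat.mul 8 g) 0 1 1) (Nat.div 20 g)) (mcl d h) 0 1 1) false) false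

/-- No minimum on `p = 0`. -/
def tD (d : Dx) (n : ℕ) : Bool :=
  ltn (Nat.mul (pwn n d.s1h) (Nat.add d.ch d.s3l)) (Nat.mul (pwn n (Nat.add d.al d.s1h)) (Nat.add 100130 d.s3l))

/-- The value on `p = 0`, `q ≤ 1/2`; `q0 ≤ 1/2` is needed. -/
def tL (d : Dx) (n h g : ℕ) : Bool :=
  cond (posS d) false (cond (cond (negT d) (Nat.ble 67035464 d.tl) true)
    (prR d n h (fun N D => fN (fun hw => fN (fun ta => fN (fun sa => prL d hw ta sa (fun WN WD =>
        finR N D WN WD (Nat.add 1048576 d.s3l) (Nat.add d.cl d.s3l) (cond (negT d) (Nat.mul 7 g) 0) 1 1 0)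
        (Nat.mul 8 g) 0 1 1) (amx d.sl d.sh 67108864)) (amn d.tl d.th 67108864)) (Nat.div 20 g))
      (mcl d h) 0 1 1) false)

/-- `V_p < 0` on the cell `[a, b] / 400` of the line `q = 1/10`. -/
def tlt (d : Dx) (n a b : ℕ) : Bool :=
  fN (fun v => cond (Nat.ble v d.al) (fN (fun L => fN (fun R => fN (fun c =>
    cond (ltn (Nat.mul L (Nat.add d.ch d.s3l)) (Nat.mul R (Nat.add c d.s3l)))
      (ltn (Nat.mul L (Nat.add d.ch d.s3h)) (Nat.mul R (Nat.add c d.s3h))) false)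
    (tn (Nat.add a 40))) (pwn n (Nat.add d.al d.s1h))) (pwn n (Nat.add v d.s1h))) false) (Nat.succ (tn b))

/-- `V_p > 0` on the cell `[a, b] / 400` of the line `q = 1/10`. -/
def tgt (d : Dx) (n a b : ℕ) : Bool :=
  fN (fun L => fN (fun R => fN (fun c =>
    cond (ltn (Nat.mul L (Nat.add c d.s3l)) (Nat.mul R (Nat.add d.cl d.s3l)))
      (ltn (Nat.mul L (Nat.add c d.s3h)) (Nat.mul R (Nat.add d.cl d.s3h))) false)
    (Nat.succ (tn (Nat.add b 40)))) (pwn n (Nat.add (tn a) d.s1l))) (pwn n (Nat.add d.ah d.s1h))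

/-- `V_q < 0` at `q = 1/10` if `sin² π (p + q)` is at least `c`. -/
def tiq (d : Dx) (c : ℕ) : Bool :=
  cond (ltn (Nat.mul (Nat.add 100131 d.s4h) (Nat.add d.ch d.s3l)) (Nat.mul (Nat.add d.dl d.s4h) (Nat.add c d.s3l)))
    (ltn (Nat.mul (Nat.add 100131 d.s4h) (Nat.add d.ch d.s3h)) (Nat.mul (Nat.add d.dl d.s4h) (Nat.add c d.s3h)))
    false

/-- `m` cells of length `1 / 400` from `a` on. -/
def tb1 (d : Dx) (n m : ℕ) : ℕ → Bool :=
  Nat.rec (fun _ => true) (fun _ ih a =>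
    cond (cond (tiq d (tn (Nat.add a 40))) true (cond (tlt d n a (Nat.succ a)) true (tgt d n a (Nat.succ a))))
      (fN ih (Nat.succ a)) false) m

/-- `m` cells of length `1 / 80` from `a` on; stops when `V_q < 0`. -/
def tb5 (d : Dx) (n m : ℕ) : ℕ → Bool :=
  Nat.rec (fun _ => true) (fun _ ih a =>
    cond (tiq d (tn (Nat.add a 40))) true
      (cond (cond (tlt d n a (Nat.add a 5)) true (cond (tgt d n a (Nat.add a 5)) true (tb1 d n 5 a)))
        (fN ih (Nat.add a 5)) false)) m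

/-- The line `q = 1/10`. -/
def tB (d : Dx) (n : ℕ) : Bool := cond (tiq d 948436) (tb5 d n 32 0) false

/-- **The first part**. -/
def v1b (d : Dx) (n : ℕ) (f4 : Bool) : Bool :=
  cond (tN d n) (cond (tM d n) (cond (cond f4 (tF d n) true) (cond (tE d n) (cond (tB d n)
    (cond (cond (tJ d n 8 1) true (cond (tJ d n 4 2) true (tJ d n 2 4)))
      (cond (cond (tD d n) true (cond (tL d n 8 1) true (cond (tL d n 4 2) true (tL d n 2 4))))
        (tC d n) false) false) false) false) false) false) false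

/-! ### The second part, units: `80 U` for values, `U` for logarithms (`U = 2^48`, `lnh v = U log v / 2`) -/

/-- `Σ_{i0 ≤ i < i0 + m} (f i + f (i + 1))`. -/
def trs (f : ℕ → ℕ) (i0 m : ℕ) : ℕ :=
  Nat.rec 0 (fun j ih => Nat.add ih (Nat.add (f (Nat.add i0 j)) (f (Nat.add i0 (Nat.succ j))))) m

/-- `Σ_{i0 ≤ i < i0 + m} 2 f (i + 1)`. -/
def tre (f : ℕ → ℕ) (i0 m : ℕ) : ℕ :=
  Nat.rec 0 (fun j ih => Nat.add ih (Nat.mul 2 (f (Nat.add i0 (Nat.succ j))))) m

/-- `Lq` of `cos² π i / 40`. -/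
def l5 (s i : ℕ) : ℕ := fN lnh (Nat.mul 4 (Nat.add (csn (Nat.mul 10 i)) s))

def hl (c s : ℕ) : ℕ := fN lnh (Nat.mul 4 (Nat.add c s))

/-- `HB +` a lower bound of `log ((sin² π i / 40 + s2) / (b + s2)) / 2`; `HB = hl bh s2h`, `HB0 = hl bh 0`. -/
def l2 (d : Dx) (HB HB0 i : ℕ) : ℕ := fN (fun v =>
  cond (Nat.ble d.bh v) (hl v d.s2h) (Nat.sub (Nat.add (hl v 0) HB) HB0)) (snn (Nat.mul 10 i))

/-- The number of cells with `V_p < 0` on the line `q = 1/10`, at most `16`. -/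
def psn (d : Dx) (n m : ℕ) : ℕ → ℕ :=
  Nat.rec (fun a => a) (fun _ ih a => cond (tlt d n a (Nat.add a 5)) (fN ih (Nat.add a 5)) a) m

/-- `-V_q` on the cell `j`: `s ∈ [-(90 + 10 j), -(80 + 10 j)] / 400`; `ps` is `400` times the point: positive part. -/
def rsA (d : Dx) (c : ℕ) : ℕ :=
  Nat.add (lnh (Nat.add d.dl d.s4h)) (cond (Nat.ble d.ch c) 0 (lnh (Nat.add c d.s3l)))

/-- Negative part. -/
def rsB (d : Dx) (c j : ℕ) : ℕ :=
  Nat.add 200 (Nat.add (lnh (Nat.add (Nat.succ (csn (Nat.add 80 (Nat.mul 10 j)))) d.s4h))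
    (cond (Nat.ble d.ch c) 0 (lnh (Nat.add d.ch d.s3l))))

/-- `Lq` on the cell, minus its value at `u0`. -/
def rsE (d : Dx) (j : ℕ) : ℕ := fN (fun e =>
  cond (Nat.ble d.eh e) (Nat.sub (lnh (Nat.add e d.s5h)) (Nat.add 100 (lnh (Nat.add d.eh d.s5h)))) 0)
  (csn (mxn (Nat.sub 120 (Nat.mul 10 j)) 60))

/-- The sum over the cells, `0` if a cell fails. -/
def rsl (d : Dx) (ps m : ℕ) : ℕ → ℕ → ℕ :=
  Nat.rec (fun _ acc => acc) (fun _ ih j acc => fN (fun c => fN (fun A => fN (fun B =>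
    cond (ltn B A) (fN (fun acc => ih (Nat.succ j) acc) (Nat.add acc (Nat.mul 2 (mnn (Nat.sub A B) (rsE d j))))) 0)
    (rsB d c j)) (rsA d c)) (csn (Nat.sub (Nat.add 90 (Nat.mul 10 j)) ps))) m

/-- The reserve (`8` cells), units `80 U`. -/
def rsv (d : Dx) (n : ℕ) : ℕ :=
  cond (negT d) 0 (cond (posS d) 0 (cond (Nat.ble 66899149 d.sl)
    (fN (fun ps => rsl d ps 8 0 0) (psn d n 16 0)) 0))

/-- The constants of the second part. -/
structure Dy where
  ub : ℕ
  HC : ℕ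
  NG : ℕ
  b2 : ℕ
  HB : ℕ
  HB0 : ℕ
  R : ℕ
  w : Bool
  need : ℕ
  ad : ℕ

/-- The cell `j` for `q ∈ [1/2, 3/4]`: both ends of `D2`; `T2 i = Σ` up to `i`, `T5 = Σ` for `x = j + 17`. -/
def cR2 (y : Dy) (j i T2 T5 : ℕ) : Bool :=
  cond (ltn (Nat.add (Nat.add (Nat.mul 2 (Nat.mul (Nat.sub i y.b2) y.HB)) y.NG) (Nat.add y.need 1048576))
      (Nat.add (Nat.add (Nat.add T2 T5) (Nat.mul 2 (Nat.mul (Nat.sub (Nat.add j 17) y.ub) y.HC)))
        (Nat.add y.R y.ad)))
    (cond y.w (ltn (Nat.add (Nat.mul 2 (Nat.mul (Nat.sub i y.b2) y.HB)) (Nat.add y.need 1048576)) T2) true) false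

/-- The cell `j` for `q ∈ [2/5, 1/2]`. -/
def cR1 (y : Dy) (j T2 T5 : ℕ) : Bool :=
  ltn (Nat.add (Nat.add (Nat.mul 2 (Nat.mul (Nat.sub j y.b2) y.HB)) y.NG) 1048576)
    (Nat.add (Nat.add T2 T5) (Nat.mul 2 (Nat.mul (Nat.sub (Nat.add j 17) y.ub) y.HC)))

/-- `l5` at `(k - 40) / 40`. -/
def l5k (s k : ℕ) : ℕ := l5 s (ds' k 40)

/-- The loop over `j = 20 .. 29`: `T2` is the sum up to `j`, `T5` the sum for `x = j + 17`. -/
def lp2 (d : Dx) (y : Dy) (m : ℕ) : ℕ → ℕ → ℕ → Bool :=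
  Nat.rec (fun _ _ _ => true) (fun _ ih j T2 T5 =>
    fN (fun T2' => cond (cR2 y j j (cond y.w T2 (Nat.mul 2 (Nat.mul (Nat.sub j y.b2) y.HB))) T5)
        (cond (cR2 y j (Nat.succ j) (cond y.w T2' (Nat.mul 2 (Nat.mul (Nat.sub (Nat.succ j) y.b2) y.HB))) T5)
          (fN (fun T5' => ih (Nat.succ j) T2' T5')
            (Nat.sub T5 (Nat.add (l5k d.s5m (Nat.add j 17)) (l5k d.s5m (Nat.add j 18)))))
          false) false)
      (Nat.add T2 (Nat.add (l2 d y.HB y.HB0 j) (l2 d y.HB y.HB0 (Nat.succ j))))) m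

/-- The loop over `j = 16 .. 19`. -/
def lp1 (d : Dx) (y : Dy) (okR : Bool) (m : ℕ) : ℕ → ℕ → ℕ → Bool :=
  Nat.rec (fun j T2 T5 => lp2 d y 10 j T2 T5) (fun _ ih j T2 T5 =>
    cond (cond okR true (cR1 y j (cond y.w T2 (Nat.mul 2 (Nat.mul (Nat.sub j y.b2) y.HB))) T5))
      (fN (fun T2' => fN (fun T5' => ih (Nat.succ j) T2' T5')
        (Nat.sub T5 (Nat.add (l5k d.s5m (Nat.add j 17)) (l5k d.s5m (Nat.add j 18)))))
        (Nat.add T2 (Nat.add (l2 d y.HB y.HB0 j) (l2 d y.HB y.HB0 (Nat.succ j))))) false) m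

/-- The right part with the reserve `y.R`. -/
def rgt (d : Dx) (y : Dy) (T2 T5 : ℕ) : Bool :=
  fN (fun T32 => fN (fun T36 =>
    cond (ltn (Nat.add y.NG 1048576) (Nat.add T32 (Nat.mul 2 (Nat.mul (Nat.sub 32 y.ub) y.HC))))
      (lp1 d y (ltn (Nat.add y.NG 1048576) (Nat.add (Nat.add T36 (Nat.mul 2 (Nat.mul (Nat.sub 36 y.ub) y.HC))) y.R))
        4 16 T2 T5) false)
    (Nat.sub T5 (trs (fun i => l5k d.s5m i) 33 3)))
    (Nat.add T5 (Nat.add (l5k d.s5m 32) (l5k d.s5m 33)))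

/-- The right part. -/
def tR (d : Dx) (n kb : ℕ) : Bool :=
  fN (fun ub => fN (fun C0 => fN (fun X => fN (fun b2 => fN (fun HC => fN (fun HB => fN (fun HB0 => fN (fun NG =>
    cond (Nat.ble 6 ub) (cond (Nat.ble ub 19) (cond (Nat.ble 1 C0) (cond (Nat.ble b2 16)
      (cond (Nat.ble (Nat.mul (sqn d.s5h) (Nat.sub 1048576 (Nat.mul 2 C0))) (Nat.mul 1048576 (sqn C0)))
      (cond (Nat.ble (Nat.mul 1048576 d.s5h) (Nat.mul (csn (Nat.mul 10 ub)) (Nat.add 1048576 (Nat.mul 2 d.s5h))))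
      (cond (Nat.ble (Nat.mul 1048576 d.s2h) (Nat.mul (snn (Nat.mul 10 b2)) (Nat.add 1048576 (Nat.mul 2 d.s2h))))
        (fN (fun T2 => fN (fun T5 =>
          cond (rgt d ⟨ub, HC, NG, b2, HB, HB0, 0, Nat.ble kb 1, cond (Nat.beq kb 1) 1125899906842624 0,
              cond (Nat.beq kb 3) 1351079888211148 0⟩ T2 T5) true
            (fN (fun R => cond (Nat.ble 1 R)
                (rgt d ⟨ub, HC, NG, b2, HB, HB0, R, Nat.ble kb 1, cond (Nat.beq kb 1) 1125899906842624 0,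
                  cond (Nat.beq kb 3) 1351079888211148 0⟩ T2 T5) false) (rsv d n)))
          (Nat.add (trs (l5 d.s5m) 0 7) (trs (l5 d.s5m) 0 ub))) (trs (l2 d HB HB0) b2 (Nat.sub 16 b2)))
        false) false) false) false) false) false) false)
    (Nat.add (Nat.add 156082869204133600 (Nat.succ (Nat.div (Nat.mul 70742377520284480 d.g5h) 1048576)))
      (Nat.succ (Nat.div (Nat.mul 35371188760142240 (Nat.mul (Nat.sub d.g5h d.g5l) (Nat.sub X 1048576)))
        1099511627776))))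
    (hl d.bh 0)) (hl d.bh d.s2h)) (hl d.el d.s5m))
    (Nat.div (Nat.add (Nat.mul 40 d.qh) 1048575) 1048576))
    (Nat.succ (Nat.div (Nat.mul (Nat.mul d.s5h (Nat.add 1048576 d.s5h)) 1048576) (sqn (Nat.add C0 d.s5m)))))
    (mnn (mnn d.el (csn (Nat.mul 10 ub))) 524288))
    (Nat.div (Nat.add (Nat.mul 20 (Nat.add d.ul d.uh)) 524288) 1048576)

/-- The loop of the left part: `x = i / 40`, `i = 16 - j`; `P` the sum of the logarithms for `x`, `Q` the
sum for `D2`; `m` steps. -/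
def lpL (d : Dx) (cf : Bool) (kb b2l HCl HBl NL : ℕ) (m : ℕ) : ℕ → ℕ → ℕ → Bool :=
  Nat.rec (fun _ _ _ => true) (fun _ ih j P Q =>
    fN (fun N => cond (ltn N P) true
      (cond (cond (Nat.ble kb 2) (ltn N (Nat.add P Q)) false)
        (fN (fun P' => fN (fun Q' => ih (Nat.succ j) P' Q')
          (Nat.sub Q (Nat.mul 2 (Nat.sub HBl (Nat.add 100 (hl (Nat.succ (tn (Nat.mul 10 (Nat.add j 2)))) d.s2h))))))
          (Nat.sub P (Nat.add (l5 d.s5l (Nat.sub 16 j)) (l5 d.s5l (cond cf (Nat.sub 15 j) (Nat.sub 16 j)))))) false))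
      (Nat.add (Nat.add NL 1048576) (Nat.mul 2 (Nat.mul (Nat.sub (Nat.sub 16 j) b2l) HCl)))) m

/-- The left part; `cf`: concavity up to `2/5`. -/
def tSc (d : Dx) (kb : ℕ) (cf : Bool) : Bool :=
  (fN (fun ug => fN (fun b2l => fN (fun qf => fN (fun HCh => fN (fun HCl => fN (fun HBl =>
    cond (Nat.ble d.eh (csn (Nat.mul 10 ug))) (cond (Nat.ble (Nat.succ (csn (Nat.mul 10 b2l))) d.eh)
      (cond (Nat.ble (Nat.mul 1048576 d.s5h) (Nat.mul (csn (Nat.mul 10 ug)) (Nat.add 1048576 (Nat.mul 2 d.s5h))))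
        (lpL d cf kb b2l HCl HBl
          (Nat.add (Nat.mul 4 (Nat.mul ug HCh)) (Nat.mul 2 (Nat.mul (Nat.sub b2l ug) HCl)))
          (Nat.succ (Nat.sub 16 b2l)) 0
          (Nat.add (Nat.add (Nat.mul 2 (trs (l5 d.s5h) 0 ug)) (Nat.mul 2 (Nat.mul (Nat.sub b2l ug) (l5 d.s5l b2l))))
            (cond cf (trs (l5 d.s5l) b2l (Nat.sub 16 b2l)) (tre (l5 d.s5l) b2l (Nat.sub 16 b2l))))
          (Nat.rec 0 (fun i ih => Nat.add ih (Nat.mul 2 (Nat.sub HBl (Nat.add 100
            (hl (Nat.succ (tn (Nat.mul 10 (Nat.add i 2)))) d.s2h))))) (Nat.sub qf 1)))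
        false) false) false)
    (hl d.bl d.s2h)) (hl d.eh d.s5l)) (hl d.eh d.s5h))
    (Nat.div (Nat.mul 40 d.ql) 1048576))
    (Nat.div (Nat.add (Nat.mul 40 d.ul) 1048575) 1048576))
    (Nat.div (Nat.mul 40 d.ul) 1048576))

/-- The left part. -/
def tS (d : Dx) (kb : ℕ) : Bool :=
  cond (Nat.ble (Nat.mul 16 1048576) (Nat.mul 40 d.ul)) true
    (tSc d kb (Nat.ble (Nat.mul 1048576 d.s5l) (Nat.mul 100130 (Nat.add 1048576 (Nat.mul 2 d.s5l)))))

/-- **The test of a cell.** -/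
def fl3 (n : ℕ) (f4 : Bool) (kb : ℕ) (o : OutB) : Bool :=
  cond (Nat.ble 67266151 o.ys.re.lo) (cond (Nat.ble 67266151 o.bs.re.lo)
    (bx3 o (fun d => cond (v1b d n f4) (cond (tR d n kb) (tS d kb) false) false)) false) false

end Pool.Agent.S5.Y3
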