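import Pool.Agent.S5.I.Y3b
import Pool.Agent.S5.I.C2k

/-!
# The flats of a node with three half twists: the reserve for small `q`
-/

set_option autoImplicit false

namespace Pool.Agent.S5.Y3

open MeasureTheory Filter Topology Set Pool.Agent.S5.C2

theorem VV_HHq (n : ℕ) (s1 s4 s3 p0 q0 p q : ℝ) : VV n s1 s4 s3 p0 q0 p q =
    n * Dq s1 p0 p + HH 1 s4 s3 q0 (p0 + q0) p q := by
  unfold VV HH
  rw [add_comm q p]
  push_cast
  ring

theorem VV_HHp (n : ℕ) (s1 s4 s3 p0 q0 p q : ℝ) : VV n s1 s4 s3 p0 q0 p q =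
    Dq s4 q0 q + HH n s1 s3 p0 (p0 + q0) q p := by
  unfold VV HH
  ring

/-- `c` is a lower bound of `-V_q` between `q` and `q'`. -/
theorem VV_step {n : ℕ} {s1 s4 s3 p0 q0 p q q' c : ℝ} (hB : Bp s1 s4 s3 p0 q0) (hq : q ≤ q')
    (h : ∀ t ∈ Icc q q', c ≤ (Lq s3 (p + t) - Lq s3 (p0 + q0)) - (Lq s4 t - Lq s4 q0)) :
    VV n s1 s4 s3 p0 q0 p q' + (q' - q) * c ≤ VV n s1 s4 s3 p0 q0 p q := by
  have e := HH_sub (n := 1) (x0 := q0) (X0 := p0 + q0) (c := p) (x := q) (x' := q') hB.h4 hB.h3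
  have k : ∫ t in q..q', (((1 : ℕ) : ℝ) * (Lq s4 t - Lq s4 q0) -
      (Lq s3 (t + p) - Lq s3 (p0 + q0))) ≤ ∫ _t in q..q', (-c) := by
    apply intervalIntegral.integral_mono_on hq (HH_int hB.h4 hB.h3) (by simp)
    intro t ht
    have := h t ht
    rw [add_comm p t] at this
    push_cast
    linarith
  rw [intervalIntegral.integral_const, smul_eq_mul] at k
  rw [VV_HHq, VV_HHq]
  linarith

/-- `V_p < 0` on `[0, a]`, first on the line `q = 1 / 10`, therefore for `q ≤ 3 / 10`. -/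
theorem VV_left {n : ℕ} {s1 s4 s3 p0 q0 a p q : ℝ} (hB : Bp s1 s4 s3 p0 q0) (hp : 0 ≤ p)
    (hpa : p ≤ a) (ha' : a ≤ 1 / 5) (hq : 1 / 10 ≤ q) (hq' : q ≤ 3 / 10)
    (hlt : ∀ p, 0 ≤ p → p ≤ a → n * (Lq s1 p - Lq s1 p0) ≤ Lq s3 (p + 1 / 10) - Lq s3 (p0 + q0)) :
    VV n s1 s4 s3 p0 q0 a q ≤ VV n s1 s4 s3 p0 q0 p q := by
  have e := HH_sub (n := n) (x0 := p0) (X0 := p0 + q0) (c := q) (x := p) (x' := a) hB.h1 hB.h3
  have k : ∫ t in p..a, (n * (Lq s1 t - Lq s1 p0) - (Lq s3 (t + q) - Lq s3 (p0 + q0))) ≤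
      ∫ _t in p..a, (0 : ℝ) := by
    apply intervalIntegral.integral_mono_on hpa (HH_int hB.h1 hB.h3) (by simp)
    intro t ht
    have h1 := hlt t (by linarith [ht.1]) ht.2
    have h2 : Sn (t + 1 / 10) ≤ Sn (t + q) :=
      Sn_mono (by linarith [ht.1]) (by linarith) (by linarith [ht.2])
    have h3 : 0 < Sn (t + 1 / 10) := Sn_pos (by linarith [ht.1]) (by linarith [ht.2])
    have h4 := Lq_mono_t (t := t + 1 / 10) (t' := t + q) hB.h3 (by linarith [hB.h3]) h2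
    linarith
  rw [intervalIntegral.integral_zero] at k
  rw [VV_HHp, VV_HHp]
  linarith

/-- **The reserve on `q ≤ 3 / 10`.** `a` is a point with `V_p < 0` on `[0, a]`, `r j` is a lower bound
of `-V_q` on the cell `[3 / 10 - (j + 1) h, 3 / 10 - j h]`. -/
theorem resv {n : ℕ} {s1 s4 s3 p0 q0 a h : ℝ} {m : ℕ} {r : ℕ → ℝ} (hB : Bp s1 s4 s3 p0 q0)
    (ha : 0 ≤ a) (ha' : a ≤ 1 / 5) (hh : 0 < h) (hm : h * m = 1 / 5)
    (hlt : ∀ p, 0 ≤ p → p ≤ a → n * (Lq s1 p - Lq s1 p0) ≤ Lq s3 (p + 1 / 10) - Lq s3 (p0 + q0))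
    (hr : ∀ j < m, ∀ t ∈ Icc (3 / 10 - (j + 1) * h) (3 / 10 - j * h), ∀ p, a ≤ p → p ≤ 1 / 2 →
      r j ≤ (Lq s3 (p + t) - Lq s3 (p0 + q0)) - (Lq s4 t - Lq s4 q0))
    (h0 : ∀ p, 0 ≤ p → p ≤ 1 / 2 → 0 ≤ VV n s1 s4 s3 p0 q0 p (3 / 10)) :
    ∀ p, 0 ≤ p → p ≤ 1 / 2 → ∀ j < m, ∀ q, 3 / 10 - (j + 1) * h ≤ q → q ≤ 3 / 10 - j * h →
      h * (∑ k ∈ Finset.range j, r k) + (3 / 10 - j * h - q) * r j ≤ VV n s1 s4 s3 p0 q0 p q := by
  have key : ∀ p, a ≤ p → p ≤ 1 / 2 → ∀ j ≤ m,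
      h * (∑ k ∈ Finset.range j, r k) ≤ VV n s1 s4 s3 p0 q0 p (3 / 10 - j * h) := by
    intro p hp hp1 j
    induction j with
    | zero =>
      intro _
      simpa using h0 p (by linarith) hp1
    | succ j ih =>
      intro hj
      have h1 := ih (by omega)
      have h2 := VV_step (n := n) (s1 := s1) (p := p) (q := 3 / 10 - (j + 1) * h)
        (q' := 3 / 10 - j * h) (c := r j) hB (by linarith) (fun t ht => hr j (by omega) t ht p hp hp1)
      rw [Finset.sum_range_succ]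
      push_cast
      have e : (3 / 10 - (j : ℝ) * h - (3 / 10 - (j + 1) * h)) * r j = h * r j := by ring
      rw [e] at h2
      rw [mul_add]
      linarith
  have key2 : ∀ p, a ≤ p → p ≤ 1 / 2 → ∀ j < m, ∀ q, 3 / 10 - (j + 1) * h ≤ q →
      q ≤ 3 / 10 - j * h →
      h * (∑ k ∈ Finset.range j, r k) + (3 / 10 - j * h - q) * r j ≤ VV n s1 s4 s3 p0 q0 p q := by
    intro p hp hp1 j hj q hq hq'
    have h1 := key p hp hp1 j hj.le
    have h2 := VV_step (n := n) (s1 := s1) (p := p) (q := q)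
      (q' := 3 / 10 - j * h) (c := r j) hB hq'
      (fun t ht => hr j hj t ⟨hq.trans ht.1, ht.2⟩ p hp hp1)
    linarith
  intro p hp hp1 j hj q hq hq'
  rcases le_total a p with hap | hap
  · exact key2 p hap hp1 j hj q hq hq'
  · have h1 := key2 a le_rfl (by linarith) j hj q hq hq'
    have h2 : ((j : ℝ) + 1) * h ≤ 1 / 5 := by
      have : ((j : ℝ) + 1) ≤ m := by exact_mod_cast hj
      calc ((j : ℝ) + 1) * h ≤ m * h := mul_le_mul_of_nonneg_right this hh.le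
        _ = 1 / 5 := by rw [mul_comm]; exact hm
    have h3 : 0 ≤ (j : ℝ) * h := by positivity
    have h4 := VV_left (n := n) (s4 := s4) (q := q) hB hp hap ha' (by linarith) (by linarith) hlt
    linarith

end Pool.Agent.S5.Y3
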