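import Pool.Agent.S5.I.Y3b
import Pool.Agent.S5.I.Y3P

/-!
# The flats of a node with three half twists: the meaning of the data
-/

set_option autoImplicit false

namespace Pool.Agent.S5.Y3

open MeasureTheory Filter Topology Set Pool.Agent.S5.C2 Pool.Agent.S5.Num Pool.Agent.S5.K3

/-- `sinh² (π h)`. -/
noncomputable def Hs (h : ℝ) : ℝ := Real.sinh (Real.pi * h) ^ 2

/-- The meaning of the data: `q0 = 1/2 + s0`, `u0 = qb + 1/2 - q0`, `s5 = Hs g5`. -/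
structure Dx.Ok (d : Dx) (s1 s4 s3 s2 g5 p0 q0 qb : ℝ) : Prop where
  B : Bp s1 s4 s3 p0 q0
  a1 : (d.al : ℝ) ≤ 1048576 * Sn p0
  a2 : 1048576 * Sn p0 ≤ d.ah
  c1 : (d.cl : ℝ) ≤ 1048576 * Sn (p0 + q0)
  c2 : 1048576 * Sn (p0 + q0) ≤ d.ch
  d1 : (d.dl : ℝ) ≤ 1048576 * Sn q0
  d2 : 1048576 * Sn q0 ≤ d.dh
  s11 : (d.s1l : ℝ) ≤ 1048576 * s1
  s12 : 1048576 * s1 ≤ d.s1h
  s31 : (d.s3l : ℝ) ≤ 1048576 * s3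
  s32 : 1048576 * s3 ≤ d.s3h
  s41 : (d.s4l : ℝ) ≤ 1048576 * s4
  s42 : 1048576 * s4 ≤ d.s4h
  p1 : (d.pl : ℝ) ≤ 1048576 * p0
  t1 : (d.tl : ℝ) ≤ 1048576 * (p0 + q0 - 1 / 2) + 67108864
  t2 : 1048576 * (p0 + q0 - 1 / 2) + 67108864 ≤ d.th
  o1 : (d.sl : ℝ) ≤ 1048576 * (q0 - 1 / 2) + 67108864
  o2 : 1048576 * (q0 - 1 / 2) + 67108864 ≤ d.sh
  b0 : 0 < qb
  b0' : qb < 1 / 2
  b1 : (d.bl : ℝ) ≤ 1048576 * Sn qb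
  b2 : 1048576 * Sn qb ≤ d.bh
  s20 : 0 ≤ s2
  s22 : 1048576 * s2 ≤ d.s2h
  q1 : (d.ql : ℝ) ≤ 1048576 * qb
  q2 : 1048576 * qb ≤ d.qh
  q3 : d.qh ≤ 524287
  u1 : (d.ul : ℝ) ≤ 1048576 * (qb + 1 / 2 - q0)
  u2 : 1048576 * (qb + 1 / 2 - q0) ≤ d.uh
  u3 : 157287 ≤ d.ul
  u4 : d.uh ≤ 524287
  e1 : (d.el : ℝ) ≤ 1048576 * Sn (qb + 1 - q0)
  e2 : 1048576 * Sn (qb + 1 - q0) ≤ d.eh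
  g0 : 0 ≤ g5
  g1 : (d.g5l : ℝ) ≤ 1048576 * g5
  g2 : 1048576 * g5 ≤ d.g5h
  g3 : d.g5h ≤ 262144
  s51 : (d.s5l : ℝ) ≤ 1048576 * Hs g5
  s52 : 1048576 * Hs g5 ≤ d.s5h
  m1 : (d.s5m : ℝ) ≤ 1048576 * Hs (d.g5h / 1048576)
  m2 : 1048576 * Hs (d.g5h / 1048576) ≤ d.s5h
  l1 : d.al ≤ 1048576 ∧ d.cl ≤ 1048576 ∧ d.dl ≤ 1048576 ∧ d.bl ≤ 1048576 ∧ d.el ≤ 1048576
  l2 : d.ah ≤ 1048577 ∧ d.ch ≤ 1048576 ∧ d.dh ≤ 1048576 ∧ d.bh ≤ 1048577 ∧ d.eh ≤ 1048576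
  l3 : d.s1h ≤ 1048576 ∧ d.s3h ≤ 1048576 ∧ d.s4h ≤ 1048576 ∧ d.s2h ≤ 1048576 ∧ d.s5h ≤ 1048576
  l4 : d.pl ≤ 524287

end Pool.Agent.S5.Y3
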