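import Pool.Agent.S5.I.Y3D
import Pool.Agent.S5.I.Y3c

/-!
# The flats of a node with three half twists: strict signs, and the total from its parts
-/

set_option autoImplicit false

namespace Pool.Agent.S5.Y3

open MeasureTheory Filter Topology Set Pool.Agent.S5.C2 Pool.Agent.S5.Num Pool.Agent.S5.K3

theorem z_neg (v : ℝ) : Sn (1 / 2 - v) = Sn (1 / 2 + v) := by
  rw [← Sn_one_sub]
  congr 1
  ring

theorem z_per (v : ℝ) : Sn (v + 1) = Sn v := by
  unfold Sn
  rw [show Real.pi * (v + 1) = Real.pi * v + Real.pi by ring, Real.sin_add_pi, neg_sq]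

/-- Strict monotonicity. -/
theorem z_lt {t t' : ℝ} (h0 : 0 ≤ t) (h1 : t < t') (h2 : t' ≤ 1 / 2) : Sn t < Sn t' := by
  have a0 : 0 ≤ Real.sin (Real.pi * t) :=
    Real.sin_nonneg_of_nonneg_of_le_pi (by have := Real.pi_pos; positivity)
      (by nlinarith [Real.pi_pos])
  have h3 : Real.sin (Real.pi * t) < Real.sin (Real.pi * t') := by
    apply Real.sin_lt_sin_of_lt_of_le_pi_div_two <;> nlinarith [Real.pi_pos]
  unfold Sn
  exact pow_lt_pow_left₀ h3 a0 (by norm_num)

theorem z_in {u t : ℝ} (h : |t| < u) (hu : u ≤ 1 / 2) : Sn (1 / 2 + u) < Sn (1 / 2 + t) := by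
  have h0 := abs_nonneg t
  have e : Sn (1 / 2 + t) = Sn (1 / 2 - |t|) := by
    rcases abs_cases t with ⟨h2, -⟩ | ⟨h2, -⟩
    · rw [h2, z_neg]
    · rw [h2]
      congr 1
      ring
  rw [e, ← z_neg]
  exact z_lt (by linarith) (by linarith) (by linarith)

theorem z_log {s a b : ℝ} (h0 : 0 < Sn a + s) (h : Sn a < Sn b) : Lq s a < Lq s b := by
  rw [Lq_eq, Lq_eq]
  have := Real.log_lt_log (show 0 < 4 * (Sn a + s) by linarith)
    (show 4 * (Sn a + s) < 4 * (Sn b + s) by linarith)
  linarith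

theorem z_int {s : ℝ} (hs : 0 ≤ s) (c a b : ℝ) :
    IntervalIntegrable (fun t => Lq s t - c) volume a b :=
  (Lq_int hs a b).sub intervalIntegrable_const

/-- The first zone, strict. -/
theorem D5_pos {s u0 u : ℝ} (hs : 0 ≤ s) (hu : 0 < u0) (hu1 : u0 < 1 / 2) (h1 : -u0 ≤ u)
    (h2 : u ≤ 1 - u0) (hne : u ≠ u0) : 0 < -Dq s (1 / 2 + u0) (1 / 2 + u) := by
  have hp0 : 0 < Sn (1 / 2 + u0) := Sn_pos (by linarith) (by linarith)
  rcases lt_or_gt_of_ne hne with h | h
  · have e : -Dq s (1 / 2 + u0) (1 / 2 + u) =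
        ∫ t in (1 / 2 + u)..(1 / 2 + u0), (Lq s t - Lq s (1 / 2 + u0)) := by
      unfold Dq
      rw [intervalIntegral.integral_symm, neg_neg]
    rw [e]
    apply intervalIntegral.intervalIntegral_pos_of_pos_on (z_int hs _ _ _) _ (by linarith)
    intro t ht
    have h3 := z_in (u := u0) (t := t - 1 / 2) (abs_lt.2 ⟨by linarith [ht.1], by linarith [ht.2]⟩) hu1.le
    rw [show 1 / 2 + (t - 1 / 2) = t by ring] at h3
    have := z_log (s := s) (by linarith) h3
    linarith
  · -- up to `v`, then the mirrored point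
    have key : ∀ v : ℝ, u0 < v → v < 1 / 2 → 0 < -Dq s (1 / 2 + u0) (1 / 2 + v) := by
      intro v hv hv1
      have e : -Dq s (1 / 2 + u0) (1 / 2 + v) =
          ∫ t in (1 / 2 + u0)..(1 / 2 + v), (Lq s (1 / 2 + u0) - Lq s t) := by
        unfold Dq
        rw [← intervalIntegral.integral_neg]
        congr 1
        ext t
        ring
      rw [e]
      apply intervalIntegral.intervalIntegral_pos_of_pos_on
        (intervalIntegrable_const.sub (Lq_int hs _ _)) _ (by linarith)
      intro t ht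
      have h3 : Sn t < Sn (1 / 2 + u0) := by
        have := z_in (u := t - 1 / 2) (t := u0) (by rw [abs_of_pos hu]; linarith [ht.1])
          (by linarith [ht.2])
        rwa [show 1 / 2 + (t - 1 / 2) = t by ring] at this
      have h4 : 0 < Sn t := Sn_pos (by linarith [ht.1]) (by linarith [ht.2])
      have := z_log (s := s) (by linarith) h3
      linarith
    rcases lt_or_ge u (1 / 2) with h3 | h3
    · exact key u h h3
    · -- the part from `v` to `u` is nonnegative
      set v := (u0 + 1 / 2) / 2 with hv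
      have h4 := key v (by linarith) (by linarith)
      have e := Dq_sub hs (1 / 2 + u0) (1 / 2 + v) (1 / 2 + u)
      have k : 0 ≤ ∫ t in (1 / 2 + v)..(1 / 2 + u), (Lq s (1 / 2 + u0) - Lq s t) := by
        apply intervalIntegral.integral_nonneg_of_ae_restrict (by linarith)
        filter_upwards [ae_restrict_mem measurableSet_Icc,
          ae_restrict_of_ae Pool.Agent.S3.sin_ne_ae] with t ht h5
        have h6 : 0 < Sn t := by
          unfold Sn
          positivity
        have h7 : Sn t ≤ Sn (1 / 2 + u0) := by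
          rcases le_total t 1 with h8 | h8
          · have := Sn_ge (m := 1 - t) (x := 1 - (1 / 2 + u0)) (by linarith) (by linarith [ht.1])
              (by linarith [ht.1])
            rwa [Sn_one_sub, Sn_one_sub] at this
          · have := Sn_ge (m := t - 1) (x := 1 - (1 / 2 + u0)) (by linarith) (by linarith [ht.2])
              (by linarith [ht.2])
            rwa [Sn_one_sub, Sn_sub_one] at this
        rw [Pi.zero_apply, Lq_eq, Lq_eq]
        have := Real.log_le_log (show 0 < 4 * (Sn t + s) by linarith)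
          (show 4 * (Sn t + s) ≤ 4 * (Sn (1 / 2 + u0) + s) by linarith)
        linarith
      have e2 : ∫ t in (1 / 2 + v)..(1 / 2 + u), (Lq s (1 / 2 + u0) - Lq s t) =
          -∫ t in (1 / 2 + v)..(1 / 2 + u), (Lq s t - Lq s (1 / 2 + u0)) := by
        rw [← intervalIntegral.integral_neg]
        congr 1
        ext t
        ring
      rw [e2] at k
      linarith

/-- The second zone, strict. -/
theorem D5_lt {s u0 u v : ℝ} (hs : 0 ≤ s) (hu : 0 < u0) (hu1 : u0 < 1 / 2) (h1 : 1 - u0 ≤ u)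
    (h2 : u < v) (h3 : v ≤ 1 + u0) :
    -Dq s (1 / 2 + u0) (1 / 2 + v) < -Dq s (1 / 2 + u0) (1 / 2 + u) := by
  have hp0 : 0 < Sn (1 / 2 + u0) := Sn_pos (by linarith) (by linarith)
  have e := Dq_sub hs (1 / 2 + u0) (1 / 2 + u) (1 / 2 + v)
  have k : 0 < ∫ t in (1 / 2 + u)..(1 / 2 + v), (Lq s t - Lq s (1 / 2 + u0)) := by
    apply intervalIntegral.intervalIntegral_pos_of_pos_on (z_int hs _ _ _) _ (by linarith)
    intro t ht
    have h3 := z_in (u := u0) (t := t - 3 / 2) (abs_lt.2 ⟨by linarith [ht.1], by linarith [ht.2]⟩) hu1.le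
    rw [show 1 / 2 + (t - 3 / 2) = t - 1 by ring, Sn_sub_one] at h3
    have := z_log (s := s) (by linarith) h3
    linarith
  linarith

/-- `D2` is positive away from its base point. -/
theorem D2_pos {s x0 x : ℝ} (hs : 0 ≤ s) (h0 : 0 < x0) (h1 : x0 < 1 / 2) (hx : 0 ≤ x) (hx1 : x ≤ 1 / 2)
    (hne : x ≠ x0) : 0 < Dq s x0 x := by
  rcases lt_or_gt_of_ne hne with h | h
  · rw [Dq_int_left]
    apply intervalIntegral.intervalIntegral_pos_of_pos_on
      (intervalIntegrable_const.sub (Lq_int hs _ _)) _ h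
    intro t ht
    have h3 := z_lt (t := t) (t' := x0) (by linarith [ht.1]) ht.2 h1.le
    have h4 : 0 < Sn t := Sn_pos (by linarith [ht.1]) (by linarith [ht.2])
    have := z_log (s := s) (by linarith) h3
    linarith
  · unfold Dq
    apply intervalIntegral.intervalIntegral_pos_of_pos_on (z_int hs _ _ _) _ h
    intro t ht
    have h3 := z_lt (t := x0) (t' := t) h0.le ht.1 (by linarith [ht.2])
    have h4 : 0 < Sn x0 := Sn_pos (by linarith) (by linarith)
    have := z_log (s := s) (by linarith) h3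
    linarith

theorem D2_nonneg {s x0 x : ℝ} (hs : 0 ≤ s) (h0 : 0 < x0) (h1 : x0 < 1 / 2) (hx : 0 ≤ x)
    (hx1 : x ≤ 1 / 2) : 0 ≤ Dq s x0 x := by
  rcases eq_or_ne x x0 with h | h
  · rw [h, Dq_self]
  · exact (D2_pos hs h0 h1 hx hx1 h).le

/-- `D2` increases from its base point to `1/2`. -/
theorem D2_mono {s x0 x y : ℝ} (hs : 0 ≤ s) (h0 : 0 < x0) (h1 : x0 ≤ x) (h2 : x ≤ y) (h3 : y ≤ 1 / 2) :
    Dq s x0 x ≤ Dq s x0 y := by
  have e := Dq_sub hs x0 x y
  have k : 0 ≤ ∫ t in x..y, (Lq s t - Lq s x0) := by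
    apply intervalIntegral.integral_nonneg h2
    intro t ht
    have h4 : 0 < Sn x0 := Sn_pos h0 (by linarith)
    have h5 := Sn_mono (t := x0) (t' := t) h0.le (by linarith [ht.1]) (by linarith [ht.2])
    have := Lq_mono_t (s := s) (t := x0) (t' := t) hs (by linarith) h5
    linarith
  linarith

/-- `D2` is concave on `[1/2, 1)`. -/
theorem D2_conc {s x0 a b c m : ℝ} (hs : 0 ≤ s) (ha : 1 / 2 ≤ a) (hab : a ≤ b) (hbc : b ≤ c)
    (hc : c < 1) (h1 : m < Dq s x0 a) (h2 : m < Dq s x0 c) : m < Dq s x0 b := by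
  have anti : ∀ t t' : ℝ, 1 / 2 ≤ t → t ≤ t' → t' < 1 → Lq s t' ≤ Lq s t := by
    intro t t' h3 h4 h5
    have h6 : 0 < Sn t' := Sn_pos (by linarith) h5
    exact Lq_mono_t hs (by linarith) (Sn_anti h3 h4 h5.le)
  rcases le_total (Lq s x0) (Lq s b) with h | h
  · have e := Dq_sub hs x0 a b
    have k : 0 ≤ ∫ t in a..b, (Lq s t - Lq s x0) := by
      apply intervalIntegral.integral_nonneg hab
      intro t ht
      have := anti t b (by linarith [ht.1]) ht.2 (by linarith)
      linarith
    linarith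
  · have e := Dq_sub hs x0 b c
    have k : 0 ≤ ∫ t in b..c, -(Lq s t - Lq s x0) := by
      apply intervalIntegral.integral_nonneg hbc
      intro t ht
      have := anti b t (by linarith) ht.1 (by linarith [ht.2])
      linarith
    rw [intervalIntegral.integral_neg] at k
    linarith

end Pool.Agent.S5.Y3
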