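import Pool.Agent.S5.I.W2e

/-!
# The flats of a node with three half twists: first and second order conditions
-/

set_option autoImplicit false

namespace Pool.Agent.S5.Y3

open MeasureTheory Filter Topology Set Pool.Agent.S5.C2

/-- A function of one variable. -/
noncomputable def HH (n : ℕ) (s s3 x0 X0 c x : ℝ) : ℝ := n * Dq s x0 x - Dq s3 X0 (x + c)

/-- The defect of the part `y, z`: `p` is the distance of the edge from `1 / 2`, `q = 1 / 2 + z`. -/
noncomputable def VV (n : ℕ) (s1 s4 s3 p0 q0 p q : ℝ) : ℝ :=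
  n * Dq s1 p0 p + Dq s4 q0 q - Dq s3 (p0 + q0) (p + q)

theorem Lq_shift_int {s : ℝ} (hs : 0 ≤ s) (a b c : ℝ) :
    IntervalIntegrable (fun t => Lq s (t + c)) volume a b := by
  have h := (Lq_int hs (a + c) (b + c)).comp_add_right c
  simpa using h

theorem HH_sub {n : ℕ} {s s3 x0 X0 c x x' : ℝ} (hs : 0 ≤ s) (hs3 : 0 ≤ s3) :
    HH n s s3 x0 X0 c x' - HH n s s3 x0 X0 c x =
      ∫ t in x..x', (n * (Lq s t - Lq s x0) - (Lq s3 (t + c) - Lq s3 X0)) := by
  have h1 := Dq_sub hs x0 x x'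
  have h3 := Dq_sub hs3 X0 (x + c) (x' + c)
  rw [intervalIntegral.integral_sub (((Lq_int hs _ _).sub (by simp)).const_mul _)
    ((Lq_shift_int hs3 _ _ _).sub (by simp)), intervalIntegral.integral_const_mul, ← h1]
  have h4 : ∫ t in x..x', (Lq s3 (t + c) - Lq s3 X0) =
      ∫ t in (x + c)..(x' + c), (Lq s3 t - Lq s3 X0) := by
    rw [intervalIntegral.integral_comp_add_right (fun t => Lq s3 t - Lq s3 X0)]
  rw [h4, ← h3]
  unfold HH
  ring

theorem HH_int {n : ℕ} {s s3 x0 X0 c a b : ℝ} (hs : 0 ≤ s) (hs3 : 0 ≤ s3) :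
    IntervalIntegrable (fun t => n * (Lq s t - Lq s x0) - (Lq s3 (t + c) - Lq s3 X0)) volume a b :=
  (((Lq_int hs _ _).sub (by simp)).const_mul _).sub ((Lq_shift_int hs3 _ _ _).sub (by simp))

theorem dirn {n : ℕ} {a A c C : ℝ} (ha : 0 < a) (hA : 0 < A) (hc : 0 < c) (hC : 0 < C)
    (h : a ^ n * C < A ^ n * c) : n * (Real.log (4 * a) / 2 - Real.log (4 * A) / 2) <
      Real.log (4 * c) / 2 - Real.log (4 * C) / 2 := by
  have h5 := Real.log_lt_log (by positivity) h
  rw [Real.log_mul (by positivity) hC.ne', Real.log_mul (by positivity) hc.ne', Real.log_pow,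
    Real.log_pow] at h5
  rw [Real.log_mul (by norm_num) ha.ne', Real.log_mul (by norm_num) hA.ne',
    Real.log_mul (by norm_num) hc.ne', Real.log_mul (by norm_num) hC.ne']
  linarith

theorem dirn' {n : ℕ} {a A c C : ℝ} (ha : 0 < a) (hA : 0 < A) (hc : 0 < c) (hC : 0 < C)
    (h : A ^ n * c < a ^ n * C) : Real.log (4 * c) / 2 - Real.log (4 * C) / 2 <
      n * (Real.log (4 * a) / 2 - Real.log (4 * A) / 2) := by
  have h1 := dirn (n := n) hA ha hC hc (by linarith)
  linarith

/-- First-order condition at a minimum, from the right. -/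
theorem focR {n : ℕ} {s s3 x0 X0 c x hi : ℝ} (hs : 0 ≤ s) (hs3 : 0 ≤ s3) (hA : 0 < Sn x0 + s)
    (hB : 0 < Sn X0 + s3) (h0 : 0 ≤ x) (h1 : x < hi) (h2 : hi < 1)
    (hm : ∀ x' ∈ Icc x hi, HH n s s3 x0 X0 c x ≤ HH n s s3 x0 X0 c x') :
    (Sn x0 + s) ^ n * (Sn (x + c) + s3) ≤ (Sn x + s) ^ n * (Sn X0 + s3) := by
  by_contra hcc
  rw [not_le] at hcc
  have hcont : ContinuousAt (fun t => (Sn x0 + s) ^ n * (Sn (t + c) + s3) -
      (Sn t + s) ^ n * (Sn X0 + s3)) x := by
    have c1 := Sn_continuous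
    have c2 : Continuous (fun t => Sn (t + c)) := Sn_continuous.comp (by fun_prop)
    fun_prop
  have hev := hcont.eventually (lt_mem_nhds (show 0 < (Sn x0 + s) ^ n * (Sn (x + c) + s3) -
      (Sn x + s) ^ n * (Sn X0 + s3) by linarith))
  obtain ⟨ε, hε, hb⟩ := Metric.eventually_nhds_iff.1 hev
  set x' := min (x + ε) hi with hx'
  have h3 : x < x' := lt_min (by linarith) h1
  have h4 : x' ≤ hi := min_le_right _ _
  have h5 := hm x' ⟨h3.le, h4⟩
  have h6 := HH_sub (n := n) (x0 := x0) (X0 := X0) (c := c) (x := x) (x' := x') hs hs3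
  have h7 : 0 < ∫ t in x..x', -(n * (Lq s t - Lq s x0) - (Lq s3 (t + c) - Lq s3 X0)) := by
    apply intervalIntegral.intervalIntegral_pos_of_pos_on (HH_int hs hs3).neg _ h3
    intro t ht
    have h8 : dist t x < ε := by
      rw [Real.dist_eq, abs_of_pos (by linarith [ht.1])]
      have := min_le_left (x + ε) hi
      linarith [ht.2]
    have h9 := hb h8
    have h10 : 0 < Sn t + s := by
      have := Sn_pos (t := t) (by linarith [ht.1]) (by linarith [ht.2])
      linarith
    have h11 : 0 < Sn (t + c) + s3 := by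
      by_contra hc
      have h12 : Sn (t + c) + s3 = 0 := le_antisymm (not_lt.1 hc)
        (add_nonneg (Sn_nonneg _) hs3)
      rw [h12] at h9
      have : 0 < (Sn t + s) ^ n * (Sn X0 + s3) := by positivity
      linarith
    have h13 := dirn (n := n) h10 hA h11 hB (by linarith)
    simp only [Pi.neg_apply, Lq_eq]
    linarith
  rw [intervalIntegral.integral_neg, ← h6] at h7
  linarith

theorem Sn_left_pos {x t : ℝ} (h : Sn x = 0) (h1 : t < x) (h2 : x - 1 < t) : 0 < Sn t := by
  have e1 : Real.sin (Real.pi * x) = 0 := by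
    unfold Sn at h
    exact pow_eq_zero_iff (by norm_num) |>.1 h
  have e2 : Real.sin (Real.pi * t) = Real.sin (Real.pi * (t - x)) * Real.cos (Real.pi * x) := by
    rw [show Real.pi * t = Real.pi * (t - x) + Real.pi * x by ring, Real.sin_add, e1]
    ring
  have e3 : Real.cos (Real.pi * x) ^ 2 = 1 := by
    have := Real.sin_sq_add_cos_sq (Real.pi * x)
    rw [e1] at this
    linarith
  have e4 : Sn t = Sn (x - t) := by
    unfold Sn
    rw [e2, mul_pow, e3, show Real.pi * (x - t) = -(Real.pi * (t - x)) by ring, Real.sin_neg]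
    ring
  rw [e4]
  exact Sn_pos (by linarith) (by linarith)

/-- First-order condition at a minimum, from the left. -/
theorem focL {n : ℕ} {s s3 x0 X0 c x lo : ℝ} (hs : 0 ≤ s) (hs3 : 0 ≤ s3) (hA : 0 < Sn x0 + s)
    (hB : 0 < Sn X0 + s3) (h0 : 0 ≤ lo) (h1 : lo < x) (h2 : x < 1)
    (hm : ∀ x' ∈ Icc lo x, HH n s s3 x0 X0 c x ≤ HH n s s3 x0 X0 c x') :
    (Sn x + s) ^ n * (Sn X0 + s3) ≤ (Sn x0 + s) ^ n * (Sn (x + c) + s3) := by
  by_contra hcc
  rw [not_le] at hcc
  have hcont : ContinuousAt (fun t => (Sn t + s) ^ n * (Sn X0 + s3) -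
      (Sn x0 + s) ^ n * (Sn (t + c) + s3)) x := by
    have c1 := Sn_continuous
    have c2 : Continuous (fun t => Sn (t + c)) := Sn_continuous.comp (by fun_prop)
    fun_prop
  have hev := hcont.eventually (lt_mem_nhds (show 0 < (Sn x + s) ^ n * (Sn X0 + s3) -
      (Sn x0 + s) ^ n * (Sn (x + c) + s3) by linarith))
  obtain ⟨ε, hε, hb⟩ := Metric.eventually_nhds_iff.1 hev
  -- away from the singularity
  have hpos : ∃ ε' > 0, ∀ t, x - ε' < t → t < x → 0 < Sn (t + c) + s3 := by
    rcases (add_nonneg (Sn_nonneg (x + c)) hs3).lt_or_eq with h | h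
    · have c2 : ContinuousAt (fun t => Sn (t + c) + s3) x :=
        ((Sn_continuous.comp (by fun_prop)).add continuous_const).continuousAt
      obtain ⟨ε', hε', hb'⟩ := Metric.eventually_nhds_iff.1 (c2.eventually (lt_mem_nhds h))
      refine ⟨ε', hε', fun t h3 h4 => ?_⟩
      apply hb'
      rw [Real.dist_eq, abs_of_neg (by linarith)]
      linarith
    · have h5 : Sn (x + c) = 0 := by
        have := Sn_nonneg (x + c)
        linarith
      refine ⟨1, one_pos, fun t h3 h4 => ?_⟩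
      have := Sn_left_pos (t := t + c) h5 (by linarith) (by linarith)
      linarith
  obtain ⟨ε', hε', hb'⟩ := hpos
  set x' := max (x - min ε ε') lo with hx'
  have h3 : x' < x := max_lt (by linarith [lt_min hε hε']) h1
  have h4 : lo ≤ x' := le_max_right _ _
  have h5 := hm x' ⟨h4, h3.le⟩
  have h6 := HH_sub (n := n) (x0 := x0) (X0 := X0) (c := c) (x := x') (x' := x) hs hs3
  have h7 : 0 < ∫ t in x'..x, (n * (Lq s t - Lq s x0) - (Lq s3 (t + c) - Lq s3 X0)) := by
    apply intervalIntegral.intervalIntegral_pos_of_pos_on (HH_int hs hs3) _ h3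
    intro t ht
    have h8' := le_max_left (x - min ε ε') lo
    have h8 : dist t x < ε := by
      rw [Real.dist_eq, abs_of_neg (by linarith [ht.2])]
      have := min_le_left ε ε'
      linarith [ht.1]
    have h9 := hb h8
    have h10 : 0 < Sn t + s := by
      have := Sn_pos (t := t) (by linarith [ht.1]) (by linarith [ht.2])
      linarith
    have h11 : 0 < Sn (t + c) + s3 := by
      apply hb' t _ ht.2
      have := min_le_right ε ε'
      linarith [ht.1]
    have h13 := dirn' (n := n) h10 hA h11 hB (by linarith)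
    simp only [Lq_eq]
    linarith
  rw [← h6] at h7
  linarith

/-- The second derivative at a minimum. -/
theorem second_nonneg {g G : ℝ → ℝ} {Q δ : ℝ} (hδ : 0 < δ)
    (hg : ∀ r ∈ Ioo (-δ) δ, HasDerivAt g (G r) r) (hG : HasDerivAt G Q 0)
    (hm : ∀ r ∈ Ioo (-δ) δ, g 0 ≤ g r) : G 0 = 0 ∧ 0 ≤ Q := by
  have h0 : (0 : ℝ) ∈ Ioo (-δ) δ := ⟨by linarith, hδ⟩
  have hloc : IsLocalMin g 0 := by
    filter_upwards [Ioo_mem_nhds h0.1 h0.2] with r hr
    exact hm r hr
  have hG0 := hloc.hasDerivAt_eq_zero (hg 0 h0)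
  refine ⟨hG0, ?_⟩
  by_contra hQ
  rw [not_le] at hQ
  have h1 := hasDerivAt_iff_tendsto_slope.1 hG
  have h2 := h1.eventually (gt_mem_nhds hQ)
  rw [eventually_nhdsWithin_iff] at h2
  obtain ⟨ε, hε, hb⟩ := Metric.eventually_nhds_iff.1 h2
  have h3 : ∀ r, 0 < r → r < ε → G r < 0 := by
    intro r hr hr'
    have h4 := hb (y := r) (by rwa [Real.dist_eq, sub_zero, abs_of_pos hr]) hr.ne'
    rw [slope_def_field, hG0, sub_zero, sub_zero] at h4
    by_contra h5
    rw [not_lt] at h5
    have := div_nonneg h5 hr.le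
    linarith
  set r := min ε δ / 2 with hr
  have hr0 : 0 < min ε δ := lt_min hε hδ
  have hr1 : r < ε := by
    have := min_le_left ε δ
    rw [hr]
    linarith
  have hr2 : r < δ := by
    have := min_le_right ε δ
    rw [hr]
    linarith
  have hrpos : 0 < r := by rw [hr]; linarith
  have hanti : StrictAntiOn g (Icc 0 r) := by
    apply strictAntiOn_of_deriv_neg (convex_Icc 0 r)
    · intro t ht
      exact (hg t ⟨by linarith [ht.1], by linarith [ht.2]⟩).continuousAt.continuousWithinAt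
    · intro t ht
      rw [interior_Icc] at ht
      rw [(hg t ⟨by linarith [ht.1], by linarith [ht.2]⟩).deriv]
      exact h3 t ht.1 (by linarith [ht.2])
  have h6 := hanti ⟨le_rfl, hrpos.le⟩ ⟨hrpos.le, le_rfl⟩ hrpos
  have h7 := hm r ⟨by linarith, hr2⟩
  linarith

/-- The Hessian at an interior minimum. -/
theorem hess {n : ℕ} {s1 s4 s3 p0 q0 p q ε d e : ℝ} (hs1 : 0 ≤ s1) (hs4 : 0 ≤ s4) (hs3 : 0 ≤ s3)
    (h1 : 0 < Sn p + s1) (h4 : 0 < Sn q + s4) (h3 : 0 < Sn (p + q) + s3) (hε : 0 < ε)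
    (hm : ∀ p' q' : ℝ, |p' - p| < ε → |q' - q| < ε →
      VV n s1 s4 s3 p0 q0 p q ≤ VV n s1 s4 s3 p0 q0 p' q') :
    0 ≤ n * Lp s1 p * d ^ 2 + Lp s4 q * e ^ 2 - Lp s3 (p + q) * (d + e) ^ 2 := by
  -- positivity near the point
  have c1 : ContinuousAt (fun r : ℝ => Sn (p + r * d) + s1) 0 :=
    ((Sn_continuous.comp (by fun_prop)).add continuous_const).continuousAt
  have c4 : ContinuousAt (fun r : ℝ => Sn (q + r * e) + s4) 0 :=
    ((Sn_continuous.comp (by fun_prop)).add continuous_const).continuousAt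
  have c3 : ContinuousAt (fun r : ℝ => Sn (p + q + r * (d + e)) + s3) 0 :=
    ((Sn_continuous.comp (by fun_prop)).add continuous_const).continuousAt
  have v1 := c1.eventually (lt_mem_nhds (show 0 < Sn (p + 0 * d) + s1 by simpa using h1))
  have v4 := c4.eventually (lt_mem_nhds (show 0 < Sn (q + 0 * e) + s4 by simpa using h4))
  have v3 := c3.eventually (lt_mem_nhds (show 0 < Sn (p + q + 0 * (d + e)) + s3 by simpa using h3))
  have c5 : ContinuousAt (fun r : ℝ => |r * d|) 0 := by fun_prop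
  have c6 : ContinuousAt (fun r : ℝ => |r * e|) 0 := by fun_prop
  have v5 := c5.eventually (gt_mem_nhds (show |(0 : ℝ) * d| < ε by simpa using hε))
  have v6 := c6.eventually (gt_mem_nhds (show |(0 : ℝ) * e| < ε by simpa using hε))
  obtain ⟨δ, hδ, hb⟩ := Metric.eventually_nhds_iff.1
    (v1.and (v4.and (v3.and (v5.and v6))))
  have hball : ∀ r ∈ Ioo (-δ) δ, 0 < Sn (p + r * d) + s1 ∧ 0 < Sn (q + r * e) + s4 ∧
      0 < Sn (p + q + r * (d + e)) + s3 ∧ |r * d| < ε ∧ |r * e| < ε := by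
    intro r hr
    apply hb
    rw [Real.dist_eq, sub_zero]
    exact abs_lt.2 hr
  have hl : ∀ (x0 c r : ℝ), HasDerivAt (fun r : ℝ => x0 + r * c) c r := fun x0 c r => by
    have h := ((hasDerivAt_id r).mul_const c).const_add x0
    simpa using h
  have hL : ∀ {s x0 c r : ℝ}, 0 < Real.sin (Real.pi * (x0 + r * c)) ^ 2 + s →
      HasDerivAt (fun r : ℝ => Lq s (x0 + r * c)) (Lp s (x0 + r * c) * c) r := by
    intro s x0 c r h
    exact (Lq_hasDerivAt h).comp r (hl x0 c r)
  have hD : ∀ {s y0 x0 c r : ℝ}, 0 ≤ s → 0 < Real.sin (Real.pi * (x0 + r * c)) ^ 2 + s →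
      HasDerivAt (fun r : ℝ => Dq s y0 (x0 + r * c)) ((Lq s (x0 + r * c) - Lq s y0) * c) r := by
    intro s y0 x0 c r hs h
    exact (Dq_hasDerivAt hs y0 h).comp r (hl x0 c r)
  have key := second_nonneg (δ := δ)
    (g := fun r => n * Dq s1 p0 (p + r * d) + Dq s4 q0 (q + r * e) -
      Dq s3 (p0 + q0) (p + q + r * (d + e)))
    (G := fun r => n * ((Lq s1 (p + r * d) - Lq s1 p0) * d) +
      (Lq s4 (q + r * e) - Lq s4 q0) * e -
      (Lq s3 (p + q + r * (d + e)) - Lq s3 (p0 + q0)) * (d + e))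
    (Q := n * (Lp s1 (p + 0 * d) * d * d) + Lp s4 (q + 0 * e) * e * e -
      Lp s3 (p + q + 0 * (d + e)) * (d + e) * (d + e)) hδ ?_ ?_ ?_
  · have := key.2
    simp only [zero_mul, add_zero] at this
    nlinarith [this]
  · intro r hr
    obtain ⟨a1, a4, a3, a5, a6⟩ := hball r hr
    exact (((hD hs1 a1).const_mul _).add (hD hs4 a4)).sub (hD hs3 a3)
  · obtain ⟨a1, a4, a3, a5, a6⟩ := hball 0 ⟨by linarith, hδ⟩
    have b1 := (((hL a1).sub_const (Lq s1 p0)).mul_const d).const_mul (n : ℝ)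
    have b2 := ((hL a4).sub_const (Lq s4 q0)).mul_const e
    have b3 := ((hL a3).sub_const (Lq s3 (p0 + q0))).mul_const (d + e)
    exact (b1.add b2).sub b3
  · intro r hr
    obtain ⟨a1, a4, a3, a5, a6⟩ := hball r hr
    have h7 := hm (p + r * d) (q + r * e) (by simpa using a5) (by simpa using a6)
    unfold VV at h7
    simp only [zero_mul, add_zero]
    rw [show p + r * d + (q + r * e) = p + q + r * (d + e) by ring] at h7
    exact h7

/-- A positive form. -/
theorem form3 {a b k d e : ℝ} (ha : 0 < a) (hb : 0 < b) (hk : k * (a + b) < a * b)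
    (hne : d ≠ 0 ∨ e ≠ 0) : 0 < a * d ^ 2 + b * e ^ 2 - k * (d + e) ^ 2 := by
  have hab : 0 < a + b := by linarith
  have e1 : (a + b) * (a * d ^ 2 + b * e ^ 2 - k * (d + e) ^ 2) =
      (a * d - b * e) ^ 2 + (a * b - k * (a + b)) * (d + e) ^ 2 := by ring
  have h1 : 0 < (a * d - b * e) ^ 2 + (a * b - k * (a + b)) * (d + e) ^ 2 := by
    rcases eq_or_ne (d + e) 0 with h | h
    · have h2 : e = -d := by linarith
      have h3 : d ≠ 0 := by
        rintro rfl
        rcases hne with h | h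
        · exact h rfl
        · apply h
          linarith
      have h4 : a * d - b * e ≠ 0 := by
        rw [h2, show a * d - b * -d = (a + b) * d by ring]
        positivity
      have : 0 < (a * d - b * e) ^ 2 := by positivity
      have h5 : 0 ≤ (a * b - k * (a + b)) * (d + e) ^ 2 := mul_nonneg (by linarith) (sq_nonneg _)
      linarith
    · have h5 : 0 < (a * b - k * (a + b)) * (d + e) ^ 2 := mul_pos (by linarith) (by positivity)
      have := sq_nonneg (a * d - b * e)
      linarith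
  rw [← e1] at h1
  exact pos_of_mul_pos_right h1 hab.le

/-- The minimum of the form is negative. -/
theorem form3_neg {a b k : ℝ} (ha : 0 < a) (hb : 0 < b) (h : ∀ d e : ℝ,
    0 ≤ a * d ^ 2 + b * e ^ 2 - k * (d + e) ^ 2) : k * (a + b) ≤ a * b := by
  have h1 := h b a
  have e1 : a * b ^ 2 + b * a ^ 2 - k * (b + a) ^ 2 = (a + b) * (a * b - k * (a + b)) := by ring
  rw [e1] at h1
  have := nonneg_of_mul_nonneg_right h1 (by linarith : 0 < a + b)
  linarith

end Pool.Agent.S5.Y3
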