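import Pool.Agent.S5.I.Y3a

/-!
# The flats of a node with three half twists: base point, minimum, crossing
-/

set_option autoImplicit false

namespace Pool.Agent.S5.Y3

open MeasureTheory Filter Topology Set Pool.Agent.S5.C2

/-- The base point. -/
structure Bp (s1 s4 s3 p0 q0 : ℝ) : Prop where
  h1 : 0 ≤ s1
  h4 : 0 ≤ s4
  h3 : 0 ≤ s3
  hp0 : 0 < p0
  hp1 : p0 < 1 / 2
  hq0 : 1 / 10 < q0
  hq1 : q0 < 9 / 10
  hP0 : 2 / 5 < p0 + q0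
  hP1 : p0 + q0 < 9 / 10

/-- A minimum point of the rectangle. -/
structure Mn (n : ℕ) (s1 s4 s3 p0 q0 p q : ℝ) : Prop where
  hp0 : 0 ≤ p
  hp1 : p ≤ 1 / 2
  hq0 : 1 / 10 ≤ q
  hq1 : q ≤ 9 / 10
  le : ∀ p' q' : ℝ, 0 ≤ p' → p' ≤ 1 / 2 → 1 / 10 ≤ q' → q' ≤ 9 / 10 →
    VV n s1 s4 s3 p0 q0 p q ≤ VV n s1 s4 s3 p0 q0 p' q'

/-- A crossing. -/
structure Cr (n : ℕ) (s1 s4 s3 p0 q0 p q y : ℝ) : Prop where
  hy : 0 < y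
  hS : Sn p + s1 = (Sn p0 + s1) * y
  hC : Sn (p + q) + s3 = (Sn (p0 + q0) + s3) * y ^ n
  hD : Sn q + s4 = (Sn q0 + s4) * y ^ n

/-- `(π / Lp) ^ 2` as a function of `S = Sn t`. -/
noncomputable def Iq (s S : ℝ) : ℝ := (S + s) ^ 2 / (S * (1 - S))

end Pool.Agent.S5.Y3
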