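import Pool.Agent.S5.I.F0

/-!
# Rectangles for the critical points of closed nodes: the programs

The point is `s = 1 / sin² π (p - i h)`, `cos π y = x0 - i y0`, `x0 = sin π p cosh π h`,
`y0 = cos π p sinh π h`, and `s = X1 + X2` with two points of given annular sectors. A side of the
rectangle is proved on each interval of `y0 / x0` of a partition with one half plane.
-/

set_option autoImplicit false

noncomputable section

namespace Pool.Agent.S5.YB

open Pool.Agent.S5.Num Pool.Agent.S5.F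

/-- Evaluation of an integer before it is used. -/
@[reducible] def fI {α : Type} (f : ℤ → α) (z : ℤ) : α :=
  Int.rec (motive := fun _ => α) (fun n => fN (fun n => f (Int.ofNat n)) n)
    (fun n => fN (fun n => f (Int.negSucc n)) n) z

theorem fI_eq {α : Type} (f : ℤ → α) (z : ℤ) : fI f z = f z := by
  cases z <;> simp only [fI, fN_eq]

/-- `0 ≤ z`. -/
def ge0 (z : ℤ) : Bool := Int.rec (motive := fun _ => Bool) (fun _ => true) (fun _ => false) z

theorem ge0_iff {z : ℤ} : ge0 z = true ↔ 0 ≤ z := by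
  cases z with
  | ofNat n => exact ⟨fun _ => Int.natCast_nonneg n, fun _ => rfl⟩
  | negSucc n =>
    constructor
    · intro h
      exact absurd h (by simp [ge0])
    · intro h
      exact absurd h (by have := Int.negSucc_lt_zero n; omega)

/-- `0 < z`. -/
def gt0 (z : ℤ) : Bool := Int.rec (motive := fun _ => Bool) (fun n => Nat.ble 1 n) (fun _ => false) z

theorem gt0_iff {z : ℤ} : gt0 z = true ↔ 0 < z := by
  cases z with
  | ofNat n =>
    show Nat.ble 1 n = true ↔ (0 : ℤ) < (n : ℤ)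
    rw [Nat.ble_eq]
    omega
  | negSucc n =>
    constructor
    · intro h
      exact absurd h (by simp [gt0])
    · intro h
      exact absurd h (by have := Int.negSucc_lt_zero n; omega)

/-- A quadratic form with Bernstein coefficients `b0`, `b1`, `b2` is nonnegative. -/
def qok (b0 b1 b2 : ℤ) : Bool :=
  ge0 b0 && (ge0 b2 && (ge0 b1 || ge0 (b0 * b2 - b1 * b1)))

/-- `dx cos 2φ + dy sin 2φ ≤ G` for `t0 ≤ 1000 tan φ ≤ t1`. -/
def sup (G dx dy t0 t1 : ℤ) : Bool :=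
  fI (fun u => fI (fun v => fI (fun w =>
    fI (fun b0 => fI (fun b1 => fI (fun b2 => qok b0 b1 b2)
      (u + w * (t1 + t1) + v * (t1 * t1)))
      (u + w * (t0 + t1) + v * (t0 * t1)))
      (u + w * (t0 + t0) + v * (t0 * t0)))
    (-(1000 * dy))) (G + dx)) (1000000 * (G - dx))

/-- The two sectors. -/
structure Bx where
  S : Bool
  k0 : ℕ
  k1 : ℕ
  t0 : ℕ
  t1 : ℕ
  j0 : ℕ
  j1 : ℕ
  s0 : ℕ
  s1 : ℕ

/-- The square of the modulus which is used for the bound `G`. -/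
def kq (k0 k1 : ℕ) (G : ℤ) : ℤ :=
  Int.rec (motive := fun _ => ℤ) (fun _ => Int.ofNat (Nat.mul k0 k0))
    (fun _ => Int.ofNat (Nat.mul k1 k1)) G

/-- The half plane of the direction `(dx, dy)`: `K (dx X + dy Y) ≤ B`. -/
def hp (b : Bx) (dx dy g1 g2 : ℤ) (k : ℤ → ℤ → Bool) : Bool :=
  sup g1 dx dy (Int.ofNat b.t0) (Int.ofNat b.t1) &&
    (sup g2 dx (cond b.S dy (-dy)) (Int.ofNat b.s0) (Int.ofNat b.s1) &&
      fI (fun q1 => fI (fun q2 => fI (fun K => fI (fun B => gt0 K && k K B)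
        (1000000 * (g1 * q2 + g2 * q1))) (q1 * q2)) (kq b.j0 b.j1 g2)) (kq b.k0 b.k1 g1))

/-- The three Bernstein coefficients of `dx (x² - y²) + 2 dy x y` on `a x ≤ 4096 y ≤ b x`. -/
def nn (dx dy a b : ℤ) (k : ℤ → ℤ → ℤ → Bool) : Bool :=
  fI (fun n0 => fI (fun n1 => fI (fun n2 => k n0 n1 n2)
    (dx * (16777216 - b * b) + 4096 * (dy * (b + b))))
    (dx * (16777216 - a * b) + 4096 * (dy * (a + b))))
    (dx * (16777216 - a * a) + 4096 * (dy * (a + a)))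

/-- The Bernstein coefficients of a quartic form are nonnegative. -/
def qt (c0 c1 c2 c3 c4 a b : ℤ) : Bool :=
  fI (fun aa => fI (fun bb => fI (fun ab =>
    ge0 (c0 + c1 * (4 * a) + c2 * (6 * aa) + c3 * (4 * (aa * a)) + c4 * (aa * aa)) &&
    (ge0 (c0 + c1 * (3 * a + b) + c2 * (3 * aa + 3 * ab) + c3 * (aa * a + 3 * (aa * b)) +
      c4 * (aa * ab)) &&
    (ge0 (c0 + c1 * (2 * a + 2 * b) + c2 * (aa + 4 * ab + bb) + c3 * (2 * (aa * b) + 2 * (ab * b)) +
      c4 * (aa * bb)) &&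
    (ge0 (c0 + c1 * (3 * b + a) + c2 * (3 * bb + 3 * ab) + c3 * (bb * b + 3 * (bb * a)) +
      c4 * (ab * bb)) &&
    ge0 (c0 + c1 * (4 * b) + c2 * (6 * bb) + c3 * (4 * (bb * b)) + c4 * (bb * bb))))))
    (a * b)) (b * b)) (a * a)

/-- The quartic form of a side. -/
def qf (al A0 A1 dx dy K B a b : ℤ) : Bool :=
  fI (fun Dx => fI (fun Dy => fI (fun aB =>
    fI (fun c0 => fI (fun c1 => fI (fun c2 => fI (fun c3 => fI (fun c4 => qt c0 c1 c2 c3 c4 a b)
      (12 * (-(A1 * Dx) - aB))) (24576 * (A1 * Dy)))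
      (33554432 * ((A1 - A0) * Dx - 2 * aB))) (412316860416 * (A0 * Dy)))
      (3377699720527872 * (A0 * Dx - aB)))
    (al * B)) (K * dy)) (K * dx)

/-- An interval of the partition. -/
def seg (bx : Bx) (mode : ℕ) (al A0 A1 a b : ℤ) (ex : Bool) (dx dy g1 g2 : ℤ) : Bool :=
  gt0 (b - a) && hp bx dx dy g1 g2 (fun K B => nn dx dy a b (fun n0 n1 n2 =>
    cond ex (gt0 (-B) && (ge0 n0 && (ge0 n1 && ge0 n2)))
      (Nat.rec false (fun m _ => Nat.rec
        (gt0 n0 && (gt0 n1 && (gt0 n2 && qf al A0 A1 dx dy K B a b)))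
        (fun _ _ => gt0 (-n0) && (gt0 (-n1) && (gt0 (-n2) && qf al A0 A1 dx dy K B a b))) m) mode)))

def rd (z : ℕ) (k : ℕ → ℕ → Bool) : Bool :=
  fN (fun d => fN (fun z => k d z) (Nat.div z 32768)) (Nat.mod z 32768)

def rdI (z : ℕ) (k : ℤ → ℕ → Bool) : Bool :=
  rd z (fun d z => fI (fun x => k x z) (Int.subNatNat d 16384))

/-- The partition of `[lo, hi]`. -/
def cov (bx : Bx) (mode : ℕ) (al A0 A1 hi : ℤ) (n : ℕ) : ℤ → ℕ → (ℕ → Bool) → Bool :=
  Nat.rec (fun _ _ _ => false) (fun _ ih lo z k =>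
    rd z (fun d z => rdI z (fun dx z => rdI z (fun dy z => rdI z (fun g1 z => rdI z (fun g2 z =>
      fI (fun T => seg bx mode al A0 A1 lo T (Nat.ble 16384 d) dx dy g1 g2 &&
        cond (ge0 (T - hi)) (k z) (ih T z k))
        (Int.subNatNat (Nat.mod d 16384) 4096))))))) n

/-- Subdivision of the sectors. -/
def tre (mode : ℕ) (al A0 A1 lo hi : ℤ) (n : ℕ) : Bx → ℕ → (ℕ → Bool) → Bool :=
  Nat.rec (fun _ _ _ => false) (fun _ ih bx z k =>
    rd z (fun d z => Nat.rec (cov bx mode al A0 A1 hi 64 lo z k)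
      (fun d' _ => rd z (fun t z => Nat.rec
        (ih ⟨bx.S, bx.k0, bx.k1, bx.t0, t, bx.j0, bx.j1, bx.s0, bx.s1⟩ z (fun z =>
          ih ⟨bx.S, bx.k0, bx.k1, t, bx.t1, bx.j0, bx.j1, bx.s0, bx.s1⟩ z k))
        (fun _ _ => ih ⟨bx.S, bx.k0, bx.k1, bx.t0, bx.t1, bx.j0, bx.j1, bx.s0, t⟩ z (fun z =>
          ih ⟨bx.S, bx.k0, bx.k1, bx.t0, bx.t1, bx.j0, bx.j1, t, bx.s1⟩ z k)) d')) d)) n

/-- The coefficients for the level curve of `tan (π p / 2) = W / 4096`. -/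
def cfW (W : ℕ) (k : ℤ → ℤ → ℤ → Bool) : Bool :=
  fI (fun q => fI (fun r => fI (fun c =>
    fI (fun al => fI (fun A0 => fI (fun A1 => k al A0 A1) (2 * (q * (c - q)))) (2 * (q * (c + q))))
      (q * q - c * c)) (q - 8 * (16777216 * r))) (Int.ofNat (Nat.mul W W)))
    (Int.ofNat (Nat.mul (Nat.add 16777216 (Nat.mul W W)) (Nat.add 16777216 (Nat.mul W W))))

/-- The coefficients for the level curve of `exp (π h) = E / 4096`. -/
def cfE (E : ℕ) (k : ℤ → ℤ → ℤ → Bool) : Bool :=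
  fI (fun q => fI (fun c =>
    fI (fun al => fI (fun A0 => fI (fun A1 => k al A0 A1) (2 * (q * (c + q)))) (2 * (q * (c - q))))
      (c * c - q * q))
    (Int.ofNat (Nat.add (Nat.mul (Nat.mul E E) (Nat.mul E E)) 281474976710656)))
    (Int.ofNat (Nat.mul 33554432 (Nat.mul E E)))

/-- A side. -/
def sd (mode : ℕ) (lo hi : ℤ) (bx : Bx) (z : ℕ) (k : ℕ → Bool) (al A0 A1 : ℤ) : Bool :=
  ge0 al && tre mode al A0 A1 lo hi 8 bx z k

def sWl (W : ℕ) (bx : Bx) (z : ℕ) (k : ℕ → Bool) : Bool :=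
  Nat.ble (Nat.succ W) 4096 && cfW W (sd 1 (-4096) 4096 bx z k)

def sWh (W : ℕ) (bx : Bx) (z : ℕ) (k : ℕ → Bool) : Bool :=
  cond (Nat.ble 4096 W) (k z) (cfW W (sd 2 (-4096) 4096 bx z k))

def sEl (E : ℕ) (bx : Bx) (z : ℕ) (k : ℕ → Bool) : Bool :=
  Nat.ble 1 E && cond (Nat.ble 4096 E)
    (Nat.ble 4097 E && cfE E (sd 1 0 4096 bx z (fun z => sd 0 (-4096) 0 bx z k 0 0 0)))
    (cfE E (sd 2 (-4096) 0 bx z k))

def sEh (E : ℕ) (bx : Bx) (z : ℕ) (k : ℕ → Bool) : Bool :=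
  Nat.ble 1 E && cond (Nat.ble E 4096)
    (Nat.ble E 4095 && cfE E (sd 1 (-4096) 0 bx z (fun z => sd 0 0 4096 bx z k 0 0 0)))
    (cfE E (sd 2 0 4096 bx z k))

/-- **The check.** -/
def ybC (S : Bool) (k0 k1 t0 t1 j0 j1 s0 s1 wl wh el eh z : ℕ) : Bool :=
  Nat.ble t1 1000 && (Nat.ble s1 1000 &&
    sWl wl ⟨S, k0, k1, t0, t1, j0, j1, s0, s1⟩ z (fun z =>
      sWh wh ⟨S, k0, k1, t0, t1, j0, j1, s0, s1⟩ z (fun z =>
        sEl el ⟨S, k0, k1, t0, t1, j0, j1, s0, s1⟩ z (fun z =>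
          sEh eh ⟨S, k0, k1, t0, t1, j0, j1, s0, s1⟩ z (fun _ => true)))))

end Pool.Agent.S5.YB
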