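import Pool.Agent.S5.I.YB0

/-!
# Rectangles for the critical points of closed nodes: soundness of the programs
-/

set_option autoImplicit false

namespace Pool.Agent.S5.YB

open Pool.Agent.S5.Num Pool.Agent.S5.F

/-- A point `(X, Y)` of an annular sector. -/
structure Sec (k0 k1 t0 t1 : ℕ) (X Y q τ : ℝ) : Prop where
  q0 : 0 < q
  qa : 1000000 ≤ q * (k1 * k1)
  qb : q * (k0 * k0) ≤ 1000000
  ta : (t0 : ℝ) ≤ 1000 * τ
  tb : 1000 * τ ≤ t1
  X : X * (1 + τ ^ 2) = q * (1 - τ ^ 2)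
  Y : Y * (1 + τ ^ 2) = q * (2 * τ)

theorem qform {b0 b1 b2 v w : ℝ} (h0 : 0 ≤ b0) (h2 : 0 ≤ b2) (h1 : 0 ≤ b1 ∨ 0 ≤ b0 * b2 - b1 * b1)
    (hv : 0 ≤ v) (hw : 0 ≤ w) : 0 ≤ b0 * w ^ 2 + 2 * b1 * (v * w) + b2 * v ^ 2 := by
  rcases h1 with h1 | h1
  · positivity
  · rcases h0.eq_or_lt with h | h
    · have hb : b1 = 0 := by
        rw [← h] at h1
        nlinarith
      rw [← h, hb]
      have : 0 ≤ b2 * v ^ 2 := by positivity
      linarith
    · have h3 : 0 ≤ b0 * (b0 * w ^ 2 + 2 * b1 * (v * w) + b2 * v ^ 2) := by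
        have e : b0 * (b0 * w ^ 2 + 2 * b1 * (v * w) + b2 * v ^ 2) =
            (b0 * w + b1 * v) ^ 2 + (b0 * b2 - b1 * b1) * v ^ 2 := by ring
        rw [e]
        positivity
      exact nonneg_of_mul_nonneg_right h3 h

theorem qok_iff {b0 b1 b2 : ℤ} (h : qok b0 b1 b2 = true) :
    (0 : ℝ) ≤ b0 ∧ (0 : ℝ) ≤ b2 ∧ ((0 : ℝ) ≤ b1 ∨ (0 : ℝ) ≤ b0 * b2 - b1 * b1) := by
  unfold qok at h
  simp only [Bool.and_eq_true, Bool.or_eq_true, ge0_iff] at h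
  obtain ⟨h0, h2, h1⟩ := h
  refine ⟨by exact_mod_cast h0, by exact_mod_cast h2, ?_⟩
  rcases h1 with h1 | h1
  · exact Or.inl (by exact_mod_cast h1)
  · exact Or.inr (by exact_mod_cast h1)

theorem sup_ok {G dx dy t0 t1 : ℤ} {τ : ℝ} (h : sup G dx dy t0 t1 = true) (ta : (t0 : ℝ) ≤ 1000 * τ)
    (tb : 1000 * τ ≤ t1) : dx * (1 - τ ^ 2) + dy * (2 * τ) ≤ G * (1 + τ ^ 2) := by
  unfold sup at h
  simp only [fI_eq] at h
  obtain ⟨h0, h2, h1⟩ := qok_iff h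
  push_cast at h0 h1 h2
  obtain ⟨v, hv⟩ : ∃ v : ℝ, v = 1000 * τ - t0 := ⟨_, rfl⟩
  obtain ⟨w, hw⟩ : ∃ w : ℝ, w = t1 - 1000 * τ := ⟨_, rfl⟩
  have hv0 : 0 ≤ v := by linarith
  have hw0 : 0 ≤ w := by linarith
  have h3 := qform h0 h2 h1 hv0 hw0
  rcases (add_nonneg hv0 hw0).eq_or_lt with h4 | h4
  · have e1 : (t0 : ℝ) = 1000 * τ := by linarith
    rw [e1] at h0
    nlinarith
  · have e : (1000000 * ((G : ℝ) - dx) + -(1000 * dy) * (t0 + t0) + (G + dx) * (t0 * t0)) * w ^ 2 +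
        2 * (1000000 * ((G : ℝ) - dx) + -(1000 * dy) * (t0 + t1) + (G + dx) * (t0 * t1)) * (v * w) +
        (1000000 * ((G : ℝ) - dx) + -(1000 * dy) * (t1 + t1) + (G + dx) * (t1 * t1)) * v ^ 2 =
        (v + w) ^ 2 * (1000000 * (G * (1 + τ ^ 2) - (dx * (1 - τ ^ 2) + dy * (2 * τ)))) := by
      rw [hv, hw]
      ring
    rw [e] at h3
    have h5 := nonneg_of_mul_nonneg_right h3 (by positivity)
    linarith

theorem kq_ok {k0 k1 : ℕ} {G : ℤ} {q : ℝ} (hq : 0 < q) (qa : 1000000 ≤ q * (k1 * k1))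
    (qb : q * (k0 * k0) ≤ 1000000) :
    (0 : ℝ) ≤ kq k0 k1 G ∧ kq k0 k1 G * (q * G) ≤ 1000000 * G := by
  cases G with
  | ofNat n =>
    have e : ((kq k0 k1 (Int.ofNat n) : ℤ) : ℝ) = k0 * k0 := by
      show (((k0 * k0 : ℕ) : ℤ) : ℝ) = _
      push_cast
      rfl
    rw [e]
    have hn : (0 : ℝ) ≤ ((Int.ofNat n : ℤ) : ℝ) := by
      show (0 : ℝ) ≤ (((n : ℕ) : ℤ) : ℝ)
      positivity
    refine ⟨by positivity, ?_⟩
    nlinarith
  | negSucc n =>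
    have e : ((kq k0 k1 (Int.negSucc n) : ℤ) : ℝ) = k1 * k1 := by
      show (((k1 * k1 : ℕ) : ℤ) : ℝ) = _
      push_cast
      rfl
    rw [e]
    have hn : ((Int.negSucc n : ℤ) : ℝ) < 0 := by
      exact_mod_cast Int.negSucc_lt_zero n
    refine ⟨by positivity, ?_⟩
    nlinarith

/-- The sum of two points of the sectors is `(x + i y)² / |x + i y|⁴`. -/
def Pt (b : Bx) (x y : ℝ) : Prop :=
  ∃ X1 Y1 q1 u1 X2 Y2 q2 u2 : ℝ, Sec b.k0 b.k1 b.t0 b.t1 X1 Y1 q1 u1 ∧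
    Sec b.j0 b.j1 b.s0 b.s1 X2 (cond b.S Y2 (-Y2)) q2 u2 ∧
      (X1 + X2) * (x ^ 2 + y ^ 2) ^ 2 = x ^ 2 - y ^ 2 ∧ (Y1 + Y2) * (x ^ 2 + y ^ 2) ^ 2 = 2 * x * y

theorem hp_ok {b : Bx} {dx dy g1 g2 : ℤ} {k : ℤ → ℤ → Bool} (h : hp b dx dy g1 g2 k = true) :
    ∃ K B : ℤ, 0 < K ∧ k K B = true ∧ ∀ x y : ℝ, Pt b x y →
      K * (dx * (x ^ 2 - y ^ 2) + 2 * dy * (x * y)) ≤ B * (x ^ 2 + y ^ 2) ^ 2 := by
  unfold hp at h
  simp only [fI_eq, Bool.and_eq_true, gt0_iff] at h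
  obtain ⟨h1, h2, h3, h4⟩ := h
  refine ⟨_, _, h3, h4, ?_⟩
  rintro x y ⟨X1, Y1, q1, u1, X2, Y2, q2, u2, c1, c2, e1, e2⟩
  have a1 := sup_ok (τ := u1) h1 (by have := c1.ta; simpa using this) (by have := c1.tb; simpa using this)
  have a2 := sup_ok (τ := u2) h2 (by have := c2.ta; simpa using this) (by have := c2.tb; simpa using this)
  obtain ⟨k1, b1⟩ := kq_ok (k0 := b.k0) (k1 := b.k1) (G := g1) c1.q0 c1.qa c1.qb
  obtain ⟨k2, b2⟩ := kq_ok (k0 := b.j0) (k1 := b.j1) (G := g2) c2.q0 c2.qa c2.qb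
  have p1 : (0 : ℝ) < 1 + u1 ^ 2 := by positivity
  have p2 : (0 : ℝ) < 1 + u2 ^ 2 := by positivity
  have d1 : dx * X1 + dy * Y1 ≤ q1 * g1 := by
    have h5 : (dx * X1 + dy * Y1) * (1 + u1 ^ 2) ≤ q1 * g1 * (1 + u1 ^ 2) := by
      have h6 := mul_le_mul_of_nonneg_left a1 c1.q0.le
      linear_combination h6 + dx * c1.X + dy * c1.Y
    exact le_of_mul_le_mul_right h5 p1
  have d2 : dx * X2 + dy * Y2 ≤ q2 * g2 := by
    have h5 : (dx * X2 + dy * Y2) * (1 + u2 ^ 2) ≤ q2 * g2 * (1 + u2 ^ 2) := by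
      have h6 := mul_le_mul_of_nonneg_left a2 c2.q0.le
      have hX := c2.X
      have hY := c2.Y
      cases hS : b.S
      · rw [hS] at h6 hY
        simp only [cond_false] at h6 hY
        push_cast at h6
        linear_combination h6 + dx * hX - dy * hY
      · rw [hS] at h6 hY
        simp only [cond_true] at h6 hY
        linear_combination h6 + dx * hX + dy * hY
    exact le_of_mul_le_mul_right h5 p2
  have t1 : (kq b.k0 b.k1 g1 : ℝ) * (dx * X1 + dy * Y1) ≤ 1000000 * g1 :=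
    (mul_le_mul_of_nonneg_left d1 k1).trans b1
  have t2 : (kq b.j0 b.j1 g2 : ℝ) * (dx * X2 + dy * Y2) ≤ 1000000 * g2 :=
    (mul_le_mul_of_nonneg_left d2 k2).trans b2
  have t3 := mul_le_mul_of_nonneg_left t1 k2
  have t4 := mul_le_mul_of_nonneg_left t2 k1
  have hA : (0 : ℝ) ≤ (x ^ 2 + y ^ 2) ^ 2 := by positivity
  have t5 : (kq b.k0 b.k1 g1 : ℝ) * kq b.j0 b.j1 g2 * (dx * (X1 + X2) + dy * (Y1 + Y2)) ≤
      1000000 * (g1 * kq b.j0 b.j1 g2 + g2 * kq b.k0 b.k1 g1) := by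
    linear_combination t3 + t4
  have t6 := mul_le_mul_of_nonneg_right t5 hA
  push_cast
  linear_combination t6 - (kq b.k0 b.k1 g1 : ℝ) * kq b.j0 b.j1 g2 * (dx * e1 + dy * e2)

/-- The coordinates of the point in an interval of the partition. -/
theorem uv {a b x y : ℝ} (X : 0 < x) (ha : a * x ≤ 4096 * y) (hb : 4096 * y ≤ b * x) :
    ∃ u v : ℝ, 0 ≤ u ∧ 0 ≤ v ∧ (b - a) * x = u + v ∧ 4096 * (b - a) * y = a * v + b * u ∧
      (a < b → 0 < u + v) := by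
  refine ⟨4096 * y - a * x, b * x - 4096 * y, by linarith, by linarith, by ring, by ring, ?_⟩
  intro h
  nlinarith

theorem nn_ok {dx dy a b : ℤ} {k : ℤ → ℤ → ℤ → Bool} (h : nn dx dy a b k = true) :
    ∃ n0 n1 n2 : ℤ, k n0 n1 n2 = true ∧
      (n0 : ℝ) = dx * (16777216 - a * a) + 4096 * (dy * (a + a)) ∧
      (n1 : ℝ) = dx * (16777216 - a * b) + 4096 * (dy * (a + b)) ∧
      (n2 : ℝ) = dx * (16777216 - b * b) + 4096 * (dy * (b + b)) := by
  unfold nn at h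
  simp only [fI_eq] at h
  exact ⟨_, _, _, h, by push_cast; ring, by push_cast; ring, by push_cast; ring⟩

theorem nn_id {dx dy a b x y u v : ℝ} (e1 : (b - a) * x = u + v)
    (e2 : 4096 * (b - a) * y = a * v + b * u) :
    (4096 * (b - a)) ^ 2 * (dx * (x ^ 2 - y ^ 2) + 2 * dy * (x * y)) =
      (dx * (16777216 - a * a) + 4096 * (dy * (a + a))) * v ^ 2 +
      2 * (dx * (16777216 - a * b) + 4096 * (dy * (a + b))) * (u * v) +
      (dx * (16777216 - b * b) + 4096 * (dy * (b + b))) * u ^ 2 := by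
  have h1 : (4096 * (b - a)) ^ 2 * (dx * (x ^ 2 - y ^ 2) + 2 * dy * (x * y)) =
      dx * ((4096 * ((b - a) * x)) ^ 2 - (4096 * (b - a) * y) ^ 2) +
        2 * dy * ((4096 * ((b - a) * x)) * (4096 * (b - a) * y)) := by ring
  rw [h1, e1, e2]
  ring

theorem qt_ok {c0 c1 c2 c3 c4 a b : ℤ} (h : qt c0 c1 c2 c3 c4 a b = true) :
    (0 : ℝ) ≤ c0 + c1 * (4 * a) + c2 * (6 * (a * a)) + c3 * (4 * (a * a * a)) + c4 * (a * a * (a * a)) ∧
    (0 : ℝ) ≤ c0 + c1 * (3 * a + b) + c2 * (3 * (a * a) + 3 * (a * b)) +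
      c3 * (a * a * a + 3 * (a * a * b)) + c4 * (a * a * (a * b)) ∧
    (0 : ℝ) ≤ c0 + c1 * (2 * a + 2 * b) + c2 * (a * a + 4 * (a * b) + b * b) +
      c3 * (2 * (a * a * b) + 2 * (a * b * b)) + c4 * (a * a * (b * b)) ∧
    (0 : ℝ) ≤ c0 + c1 * (3 * b + a) + c2 * (3 * (b * b) + 3 * (a * b)) +
      c3 * (b * b * b + 3 * (b * b * a)) + c4 * (a * b * (b * b)) ∧
    (0 : ℝ) ≤ c0 + c1 * (4 * b) + c2 * (6 * (b * b)) + c3 * (4 * (b * b * b)) + c4 * (b * b * (b * b)) := by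
  unfold qt at h
  simp only [fI_eq, Bool.and_eq_true, ge0_iff] at h
  obtain ⟨h0, h1, h2, h3, h4⟩ := h
  exact ⟨by exact_mod_cast h0, by exact_mod_cast h1, by exact_mod_cast h2, by exact_mod_cast h3,
    by exact_mod_cast h4⟩

theorem qf_ok {al A0 A1 dx dy K B a b : ℤ} {x y u v : ℝ} (h : qf al A0 A1 dx dy K B a b = true)
    (hu : 0 ≤ u) (hv : 0 ≤ v) (hab : a < b) (e1 : ((b : ℝ) - a) * x = u + v)
    (e2 : 4096 * ((b : ℝ) - a) * y = a * v + b * u) :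
    al * B * (x ^ 2 + y ^ 2) ^ 2 ≤
      (A0 * x ^ 2 + A1 * y ^ 2) * (K * (dx * (x ^ 2 - y ^ 2) + 2 * dy * (x * y))) := by
  unfold qf at h
  simp only [fI_eq] at h
  obtain ⟨h0, h1, h2, h3, h4⟩ := qt_ok h
  push_cast at h0 h1 h2 h3 h4
  have hab' : (0 : ℝ) < b - a := by
    have : (a : ℝ) < b := by exact_mod_cast hab
    linarith
  have key : 12 * ((4096 * ((b : ℝ) - a)) ^ 4 * ((A0 * x ^ 2 + A1 * y ^ 2) *
      (K * (dx * (x ^ 2 - y ^ 2) + 2 * dy * (x * y))) - al * B * (x ^ 2 + y ^ 2) ^ 2)) =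
      12 * ((A0 * (4096 * (((b : ℝ) - a) * x)) ^ 2 + A1 * (4096 * ((b : ℝ) - a) * y) ^ 2) *
      (K * (dx * ((4096 * (((b : ℝ) - a) * x)) ^ 2 - (4096 * ((b : ℝ) - a) * y) ^ 2) +
        2 * dy * ((4096 * (((b : ℝ) - a) * x)) * (4096 * ((b : ℝ) - a) * y)))) -
        al * B * ((4096 * (((b : ℝ) - a) * x)) ^ 2 + (4096 * ((b : ℝ) - a) * y) ^ 2) ^ 2) := by
    ring
  have hpos : 0 ≤ 12 * ((4096 * ((b : ℝ) - a)) ^ 4 * ((A0 * x ^ 2 + A1 * y ^ 2) *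
      (K * (dx * (x ^ 2 - y ^ 2) + 2 * dy * (x * y))) - al * B * (x ^ 2 + y ^ 2) ^ 2)) := by
    rw [key, e1, e2]
    have m0 := mul_nonneg h0 (show (0 : ℝ) ≤ v ^ 4 by positivity)
    have m1 := mul_nonneg h1 (show (0 : ℝ) ≤ 4 * (v ^ 3 * u) by positivity)
    have m2 := mul_nonneg h2 (show (0 : ℝ) ≤ 6 * (v ^ 2 * u ^ 2) by positivity)
    have m3 := mul_nonneg h3 (show (0 : ℝ) ≤ 4 * (v * u ^ 3) by positivity)
    have m4 := mul_nonneg h4 (show (0 : ℝ) ≤ u ^ 4 by positivity)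
    have m5 := add_nonneg (add_nonneg (add_nonneg (add_nonneg m0 m1) m2) m3) m4
    refine m5.trans (le_of_eq ?_)
    ring
  have h5 : 0 ≤ (4096 * ((b : ℝ) - a)) ^ 4 * ((A0 * x ^ 2 + A1 * y ^ 2) *
      (K * (dx * (x ^ 2 - y ^ 2) + 2 * dy * (x * y))) - al * B * (x ^ 2 + y ^ 2) ^ 2) := by
    linarith
  have h6 := nonneg_of_mul_nonneg_right h5 (by positivity)
  linarith

/-- The conclusion of a partition. -/
def Cn (mode : ℕ) (al A0 A1 : ℤ) (x y : ℝ) : Prop :=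
  (mode = 1 ∧ al ≤ A0 * x ^ 2 + A1 * y ^ 2) ∨ (2 ≤ mode ∧ A0 * x ^ 2 + A1 * y ^ 2 ≤ al)

theorem seg_ok {bx : Bx} {mode : ℕ} {al A0 A1 a b : ℤ} {ex : Bool} {dx dy g1 g2 : ℤ}
    (h : seg bx mode al A0 A1 a b ex dx dy g1 g2 = true) (hal : 0 ≤ al) {x y : ℝ} (hx : 0 < x)
    (hP : Pt bx x y) (ha : a * x ≤ 4096 * y) (hb : 4096 * y ≤ b * x) : Cn mode al A0 A1 x y := by
  unfold seg at h
  rw [Bool.and_eq_true, gt0_iff] at h
  obtain ⟨hab, h⟩ := h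
  obtain ⟨K, B, hK, h, hh⟩ := hp_ok h
  obtain ⟨n0, n1, n2, h, m0, m1, m2⟩ := nn_ok h
  obtain ⟨u, v, hu, hv, e1, e2, huv⟩ := uv hx ha hb
  have hab1 : a < b := by linarith
  have hab2 : (a : ℝ) < b := by exact_mod_cast hab1
  have huv' := huv hab2
  have hN := nn_id (dx := dx) (dy := dy) e1 e2
  rw [← m0, ← m1, ← m2] at hN
  have hH := hh x y hP
  have hA : 0 < (x ^ 2 + y ^ 2) ^ 2 := by positivity
  have hK' : (0 : ℝ) < K := by exact_mod_cast hK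
  have hal' : (0 : ℝ) ≤ al := by exact_mod_cast hal
  have hsq : (0 : ℝ) < (4096 * ((b : ℝ) - a)) ^ 2 := by
    have : (0 : ℝ) < b - a := by linarith
    positivity
  cases hex : ex
  · rw [hex, cond_false] at h
    rcases mode with _ | _ | m
    · exact absurd h (by simp)
    · have h' : (gt0 n0 && (gt0 n1 && (gt0 n2 && qf al A0 A1 dx dy K B a b))) = true := h
      simp only [Bool.and_eq_true, gt0_iff] at h'
      obtain ⟨p0, p1, p2, hq⟩ := h'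
      have hf := qf_ok hq hu hv hab1 e1 e2
      have p0' : (0 : ℝ) < n0 := by exact_mod_cast p0
      have p1' : (0 : ℝ) < n1 := by exact_mod_cast p1
      have p2' : (0 : ℝ) < n2 := by exact_mod_cast p2
      have hNp : 0 < (n0 : ℝ) * v ^ 2 + 2 * n1 * (u * v) + n2 * u ^ 2 := by
        rcases hv.eq_or_lt with h1 | h1
        · have hu1 : 0 < u := by linarith
          have : 0 < (n2 : ℝ) * u ^ 2 := by positivity
          have : 0 ≤ (n0 : ℝ) * v ^ 2 + 2 * n1 * (u * v) := by positivity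
          linarith
        · have : 0 < (n0 : ℝ) * v ^ 2 := by positivity
          have : 0 ≤ 2 * (n1 : ℝ) * (u * v) + n2 * u ^ 2 := by positivity
          linarith
      have hN1 : 0 < dx * (x ^ 2 - y ^ 2) + 2 * dy * (x * y) := by
        rw [← hN] at hNp
        exact (mul_pos_iff_of_pos_left hsq).1 hNp
      have h3 := mul_le_mul_of_nonneg_left hH hal'
      have h4 : al * (K * (dx * (x ^ 2 - y ^ 2) + 2 * dy * (x * y))) ≤
          (A0 * x ^ 2 + A1 * y ^ 2) * (K * (dx * (x ^ 2 - y ^ 2) + 2 * dy * (x * y))) := by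
        linarith
      exact Or.inl ⟨rfl, le_of_mul_le_mul_right h4 (by positivity)⟩
    · have h' : (gt0 (-n0) && (gt0 (-n1) && (gt0 (-n2) && qf al A0 A1 dx dy K B a b))) = true := h
      simp only [Bool.and_eq_true, gt0_iff] at h'
      obtain ⟨p0, p1, p2, hq⟩ := h'
      have hf := qf_ok hq hu hv hab1 e1 e2
      have p0' : (n0 : ℝ) < 0 := by
        have : n0 < 0 := by linarith
        exact_mod_cast this
      have p1' : (n1 : ℝ) < 0 := by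
        have : n1 < 0 := by linarith
        exact_mod_cast this
      have p2' : (n2 : ℝ) < 0 := by
        have : n2 < 0 := by linarith
        exact_mod_cast this
      have hNp : (n0 : ℝ) * v ^ 2 + 2 * n1 * (u * v) + n2 * u ^ 2 < 0 := by
        have q0 : (n0 : ℝ) * v ^ 2 ≤ 0 := mul_nonpos_of_nonpos_of_nonneg p0'.le (by positivity)
        have q1 : 2 * (n1 : ℝ) * (u * v) ≤ 0 :=
          mul_nonpos_of_nonpos_of_nonneg (by linarith) (by positivity)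
        have q2 : (n2 : ℝ) * u ^ 2 ≤ 0 := mul_nonpos_of_nonpos_of_nonneg p2'.le (by positivity)
        rcases hv.eq_or_lt with h1 | h1
        · have hu1 : 0 < u := by linarith
          have : (n2 : ℝ) * u ^ 2 < 0 := mul_neg_of_neg_of_pos p2' (by positivity)
          linarith
        · have : (n0 : ℝ) * v ^ 2 < 0 := mul_neg_of_neg_of_pos p0' (by positivity)
          linarith
      have hN1 : dx * (x ^ 2 - y ^ 2) + 2 * dy * (x * y) < 0 := by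
        rw [← hN] at hNp
        by_contra hc
        rw [not_lt] at hc
        have := mul_nonneg hsq.le hc
        linarith
      have h3 := mul_le_mul_of_nonneg_left hH hal'
      have h4 : al * (K * (dx * (x ^ 2 - y ^ 2) + 2 * dy * (x * y))) ≤
          (A0 * x ^ 2 + A1 * y ^ 2) * (K * (dx * (x ^ 2 - y ^ 2) + 2 * dy * (x * y))) := by
        linarith
      have h5 : K * (dx * (x ^ 2 - y ^ 2) + 2 * dy * (x * y)) < 0 :=
        mul_neg_of_pos_of_neg hK' hN1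
      refine Or.inr ⟨by omega, ?_⟩
      nlinarith
  · rw [hex, cond_true] at h
    simp only [Bool.and_eq_true, ge0_iff, gt0_iff] at h
    obtain ⟨hB, p0, p1, p2⟩ := h
    have hB' : (B : ℝ) < 0 := by
      have : B < 0 := by linarith
      exact_mod_cast this
    have p0' : (0 : ℝ) ≤ n0 := by exact_mod_cast p0
    have p1' : (0 : ℝ) ≤ n1 := by exact_mod_cast p1
    have p2' : (0 : ℝ) ≤ n2 := by exact_mod_cast p2
    have hNp : 0 ≤ (n0 : ℝ) * v ^ 2 + 2 * n1 * (u * v) + n2 * u ^ 2 := by positivity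
    have hN1 : 0 ≤ dx * (x ^ 2 - y ^ 2) + 2 * dy * (x * y) := by
      rw [← hN] at hNp
      exact nonneg_of_mul_nonneg_right hNp hsq
    exfalso
    have h1 : 0 ≤ K * (dx * (x ^ 2 - y ^ 2) + 2 * dy * (x * y)) := by positivity
    have h2 : B * (x ^ 2 + y ^ 2) ^ 2 < 0 := mul_neg_of_neg_of_pos hB' hA
    linarith

theorem rd_ok {z : ℕ} {k : ℕ → ℕ → Bool} (h : rd z k = true) : ∃ d z', k d z' = true := by
  unfold rd at h
  simp only [fN_eq] at h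
  exact ⟨_, _, h⟩

theorem rdI_ok {z : ℕ} {k : ℤ → ℕ → Bool} (h : rdI z k = true) : ∃ d z', k d z' = true := by
  unfold rdI at h
  obtain ⟨d, z', h⟩ := rd_ok h
  rw [fI_eq] at h
  exact ⟨_, _, h⟩

theorem cov_ok {bx : Bx} {mode : ℕ} {al A0 A1 hi : ℤ} (hal : 0 ≤ al) :
    ∀ (n : ℕ) (lo : ℤ) (z : ℕ) (k : ℕ → Bool), cov bx mode al A0 A1 hi n lo z k = true →
      (∃ z', k z' = true) ∧ ∀ x y : ℝ, 0 < x → Pt bx x y → lo * x ≤ 4096 * y → 4096 * y ≤ hi * x →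
        Cn mode al A0 A1 x y := by
  intro n
  induction n with
  | zero =>
    intro lo z k h
    exact absurd h (by simp [cov])
  | succ n ih =>
    intro lo z k h
    have h0 : rd z (fun d z => rdI z (fun dx z => rdI z (fun dy z => rdI z (fun g1 z =>
        rdI z (fun g2 z => fI (fun T => seg bx mode al A0 A1 lo T (Nat.ble 16384 d) dx dy g1 g2 &&
        cond (ge0 (T - hi)) (k z) (cov bx mode al A0 A1 hi n T z k))
        (Int.subNatNat (Nat.mod d 16384) 4096)))))) = true := h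
    obtain ⟨d, z1, h0⟩ := rd_ok h0
    obtain ⟨dx, z2, h0⟩ := rdI_ok h0
    obtain ⟨dy, z3, h0⟩ := rdI_ok h0
    obtain ⟨g1, z4, h0⟩ := rdI_ok h0
    obtain ⟨g2, z5, h0⟩ := rdI_ok h0
    rw [fI_eq] at h0
    obtain ⟨T, hT⟩ : ∃ T : ℤ, T = Int.subNatNat (Nat.mod d 16384) 4096 := ⟨_, rfl⟩
    rw [← hT, Bool.and_eq_true] at h0
    obtain ⟨hs, hr⟩ := h0
    cases hc : ge0 (T - hi)
    · rw [hc, cond_false] at hr
      obtain ⟨r1, r2⟩ := ih T z5 k hr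
      refine ⟨r1, ?_⟩
      intro x y hx hP ha hb
      rcases le_total (4096 * y) (T * x) with h1 | h1
      · exact seg_ok hs hal hx hP ha h1
      · exact r2 x y hx hP h1 hb
    · rw [hc, cond_true] at hr
      refine ⟨⟨z5, hr⟩, ?_⟩
      intro x y hx hP ha hb
      rw [ge0_iff] at hc
      have hc' : (hi : ℝ) ≤ T := by
        have : hi ≤ T := by linarith
        exact_mod_cast this
      exact seg_ok hs hal hx hP ha (hb.trans (mul_le_mul_of_nonneg_right hc' hx.le))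

theorem tre_ok {mode : ℕ} {al A0 A1 lo hi : ℤ} (hal : 0 ≤ al) :
    ∀ (n : ℕ) (bx : Bx) (z : ℕ) (k : ℕ → Bool), tre mode al A0 A1 lo hi n bx z k = true →
      (∃ z', k z' = true) ∧ ∀ x y : ℝ, 0 < x → Pt bx x y → lo * x ≤ 4096 * y → 4096 * y ≤ hi * x →
        Cn mode al A0 A1 x y := by
  intro n
  induction n with
  | zero =>
    intro bx z k h
    exact absurd h (by simp [tre])
  | succ n ih =>
    intro bx z k h
    have h0 : rd z (fun d z => Nat.rec (cov bx mode al A0 A1 hi 64 lo z k)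
      (fun d' _ => rd z (fun t z => Nat.rec
        (tre mode al A0 A1 lo hi n ⟨bx.S, bx.k0, bx.k1, bx.t0, t, bx.j0, bx.j1, bx.s0, bx.s1⟩ z (fun z =>
          tre mode al A0 A1 lo hi n ⟨bx.S, bx.k0, bx.k1, t, bx.t1, bx.j0, bx.j1, bx.s0, bx.s1⟩ z k))
        (fun _ _ => tre mode al A0 A1 lo hi n ⟨bx.S, bx.k0, bx.k1, bx.t0, bx.t1, bx.j0, bx.j1, bx.s0, t⟩ z
          (fun z => tre mode al A0 A1 lo hi n
            ⟨bx.S, bx.k0, bx.k1, bx.t0, bx.t1, bx.j0, bx.j1, t, bx.s1⟩ z k)) d')) d) = true := h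
    obtain ⟨d, z1, h0⟩ := rd_ok h0
    rcases d with _ | d
    · exact cov_ok hal _ _ _ _ h0
    · have h1 : rd z1 (fun t z => Nat.rec
        (tre mode al A0 A1 lo hi n ⟨bx.S, bx.k0, bx.k1, bx.t0, t, bx.j0, bx.j1, bx.s0, bx.s1⟩ z (fun z =>
          tre mode al A0 A1 lo hi n ⟨bx.S, bx.k0, bx.k1, t, bx.t1, bx.j0, bx.j1, bx.s0, bx.s1⟩ z k))
        (fun _ _ => tre mode al A0 A1 lo hi n ⟨bx.S, bx.k0, bx.k1, bx.t0, bx.t1, bx.j0, bx.j1, bx.s0, t⟩ z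
          (fun z => tre mode al A0 A1 lo hi n
            ⟨bx.S, bx.k0, bx.k1, bx.t0, bx.t1, bx.j0, bx.j1, t, bx.s1⟩ z k)) d) = true := h0
      obtain ⟨t, z2, h1⟩ := rd_ok h1
      rcases d with _ | d
      · obtain ⟨⟨z3, h2⟩, r1⟩ := ih _ _ _ h1
        obtain ⟨r0, r2⟩ := ih _ _ _ h2
        refine ⟨r0, ?_⟩
        rintro x y hx ⟨X1, Y1, q1, u1, X2, Y2, q2, u2, c1, c2, e1, e2⟩ ha hb
        rcases le_total (1000 * u1) t with h3 | h3
        · exact r1 x y hx ⟨X1, Y1, q1, u1, X2, Y2, q2, u2,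
            ⟨c1.q0, c1.qa, c1.qb, c1.ta, h3, c1.X, c1.Y⟩, c2, e1, e2⟩ ha hb
        · exact r2 x y hx ⟨X1, Y1, q1, u1, X2, Y2, q2, u2,
            ⟨c1.q0, c1.qa, c1.qb, h3, c1.tb, c1.X, c1.Y⟩, c2, e1, e2⟩ ha hb
      · obtain ⟨⟨z3, h2⟩, r1⟩ := ih _ _ _ h1
        obtain ⟨r0, r2⟩ := ih _ _ _ h2
        refine ⟨r0, ?_⟩
        rintro x y hx ⟨X1, Y1, q1, u1, X2, Y2, q2, u2, c1, c2, e1, e2⟩ ha hb
        rcases le_total (1000 * u2) t with h3 | h3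
        · exact r1 x y hx ⟨X1, Y1, q1, u1, X2, Y2, q2, u2, c1,
            ⟨c2.q0, c2.qa, c2.qb, c2.ta, h3, c2.X, c2.Y⟩, e1, e2⟩ ha hb
        · exact r2 x y hx ⟨X1, Y1, q1, u1, X2, Y2, q2, u2, c1,
            ⟨c2.q0, c2.qa, c2.qb, h3, c2.tb, c2.X, c2.Y⟩, e1, e2⟩ ha hb

theorem sd_ok {mode : ℕ} {lo hi al A0 A1 : ℤ} {bx : Bx} {z : ℕ} {k : ℕ → Bool}
    (h : sd mode lo hi bx z k al A0 A1 = true) :
    (∃ z', k z' = true) ∧ ∀ x y : ℝ, 0 < x → Pt bx x y → lo * x ≤ 4096 * y → 4096 * y ≤ hi * x →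
      Cn mode al A0 A1 x y := by
  unfold sd at h
  rw [Bool.and_eq_true, ge0_iff] at h
  exact tre_ok h.1 _ _ _ _ h.2

end Pool.Agent.S5.YB
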