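import Pool.Agent.S5.I.YB1
import Pool.Agent.S5.K.Defs

/-!
# Rectangles for the critical points of closed nodes: the theorem
-/

set_option autoImplicit false

namespace Pool.Agent.S5.YB

open Complex Pool.Agent.S5.C2 Pool.Agent.S5.Num Pool.Agent.S5.F Pool.Agent.S5.K

/-! ### The sides -/

/-- The number `sin² π p` from `w = tan (π p / 2)`. -/
noncomputable def aW (w : ℝ) : ℝ := 4 * w ^ 2 / (1 + w ^ 2) ^ 2

/-- The number `sinh² π h` from `e = exp (π h)`. -/
noncomputable def bE (e : ℝ) : ℝ := (e ^ 2 - 1) ^ 2 / (4 * e ^ 2)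

/-- The point of the critical point. -/
structure Cp (w e x y : ℝ) : Prop where
  w0 : 0 < w
  w1 : w < 1
  e0 : 0 < e
  x0 : 0 < x
  x2 : x ^ 2 = aW w * (1 + bE e)
  y2 : y ^ 2 = (1 - aW w) * bE e
  yx : |y| ≤ x
  y0 : 0 ≤ y → 1 ≤ e
  y1 : y ≤ 0 → e ≤ 1

theorem cfW_ok {W : ℕ} {k : ℤ → ℤ → ℤ → Bool} (h : cfW W k = true) :
    ∃ al A0 A1 : ℤ, k al A0 A1 = true ∧ ∃ q c : ℝ, q = (16777216 + (W : ℝ) ^ 2) ^ 2 ∧
      c = q - 134217728 * (W : ℝ) ^ 2 ∧ (al : ℝ) = q * q - c * c ∧ (A0 : ℝ) = 2 * (q * (c + q)) ∧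
        (A1 : ℝ) = 2 * (q * (c - q)) := by
  unfold cfW at h
  rw [fI_eq, fI_eq] at h
  simp only [fI_eq] at h
  refine ⟨_, _, _, h, (16777216 + (W : ℝ) ^ 2) ^ 2,
    (16777216 + (W : ℝ) ^ 2) ^ 2 - 134217728 * (W : ℝ) ^ 2, rfl, rfl, ?_, ?_, ?_⟩
  all_goals
    have e1 : ((Int.ofNat (Nat.mul (Nat.add 16777216 (Nat.mul W W)) (Nat.add 16777216 (Nat.mul W W))) : ℤ) :
        ℝ) = (16777216 + (W : ℝ) ^ 2) ^ 2 := by
      show ((((16777216 + W * W) * (16777216 + W * W) : ℕ) : ℤ) : ℝ) = _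
      push_cast
      ring
    have e2 : ((Int.ofNat (Nat.mul W W) : ℤ) : ℝ) = (W : ℝ) ^ 2 := by
      show (((W * W : ℕ) : ℤ) : ℝ) = _
      push_cast
      ring
    push_cast
    rw [e1, e2]
    ring

theorem cfE_ok {E : ℕ} {k : ℤ → ℤ → ℤ → Bool} (h : cfE E k = true) :
    ∃ al A0 A1 : ℤ, k al A0 A1 = true ∧ ∃ q c : ℝ, q = 33554432 * (E : ℝ) ^ 2 ∧
      c = (E : ℝ) ^ 4 + 281474976710656 ∧ (al : ℝ) = c * c - q * q ∧ (A0 : ℝ) = 2 * (q * (c - q)) ∧
        (A1 : ℝ) = 2 * (q * (c + q)) := by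
  unfold cfE at h
  rw [fI_eq, fI_eq] at h
  simp only [fI_eq] at h
  refine ⟨_, _, _, h, 33554432 * (E : ℝ) ^ 2, (E : ℝ) ^ 4 + 281474976710656, rfl, rfl, ?_, ?_, ?_⟩
  all_goals
    have e1 : ((Int.ofNat (Nat.add (Nat.mul (Nat.mul E E) (Nat.mul E E)) 281474976710656) : ℤ) : ℝ) =
        (E : ℝ) ^ 4 + 281474976710656 := by
      show (((E * E * (E * E) + 281474976710656 : ℕ) : ℤ) : ℝ) = _
      push_cast
      ring
    have e2 : ((Int.ofNat (Nat.mul 33554432 (Nat.mul E E)) : ℤ) : ℝ) = 33554432 * (E : ℝ) ^ 2 := by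
      show (((33554432 * (E * E) : ℕ) : ℤ) : ℝ) = _
      push_cast
      ring
    push_cast
    rw [e1, e2]

theorem W_id (q c al be : ℝ) : 2 * (q * (c + q)) * (al * (1 + be)) +
    2 * (q * (c - q)) * ((1 - al) * be) - (q * q - c * c) =
      (c - q + 2 * al * q) * (c + q + 2 * be * q) := by ring

theorem E_id (q c al be : ℝ) : 2 * (q * (c - q)) * (al * (1 + be)) +
    2 * (q * (c + q)) * ((1 - al) * be) - (c * c - q * q) =
      -((c - q - 2 * be * q) * (c + q - 2 * al * q)) := by ring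

/-- `al = sin² π p` from `w = tan (π p / 2)`. -/
theorem W_fin {W w al : ℝ} (W0 : 0 ≤ W) (W1 : W ≤ 4096) (w0 : 0 < w) (w1 : w < 1)
    (hal : al = aW w) :
    (134217728 * W ^ 2 ≤ 2 * al * (16777216 + W ^ 2) ^ 2 → W ≤ 4096 * w) ∧
      (2 * al * (16777216 + W ^ 2) ^ 2 ≤ 134217728 * W ^ 2 → 4096 * w ≤ W) := by
  have hp : 0 < 1 + w ^ 2 := by positivity
  have hq : (0 : ℝ) < 16777216 + W ^ 2 := by positivity
  have hpos : 0 < 4096 - W * w := by nlinarith
  have e : al * (1 + w ^ 2) ^ 2 = 4 * w ^ 2 := by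
    rw [hal, aW]
    field_simp
  constructor
  · intro h
    have h1 : (8192 * W * (1 + w ^ 2)) ^ 2 ≤ (2 * w * (16777216 + W ^ 2)) ^ 2 := by
      have h2 := mul_le_mul_of_nonneg_right h (sq_nonneg (1 + w ^ 2))
      linear_combination h2 / 2 + e * (16777216 + W ^ 2) ^ 2
    have h2 : 8192 * W * (1 + w ^ 2) ≤ 2 * w * (16777216 + W ^ 2) :=
      le_of_sq_le_sq h1 (by positivity)
    by_contra hc
    rw [not_le] at hc
    nlinarith
  · intro h
    have h1 : (2 * w * (16777216 + W ^ 2)) ^ 2 ≤ (8192 * W * (1 + w ^ 2)) ^ 2 := by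
      have h2 := mul_le_mul_of_nonneg_right h (sq_nonneg (1 + w ^ 2))
      linear_combination h2 / 2 - e * (16777216 + W ^ 2) ^ 2
    have h2 : 2 * w * (16777216 + W ^ 2) ≤ 8192 * W * (1 + w ^ 2) :=
      le_of_sq_le_sq h1 (by positivity)
    by_contra hc
    rw [not_le] at hc
    nlinarith

theorem E_fin {E e be : ℝ} (E0 : 0 < E) (e0 : 0 < e) (hbe : be = bE e) :
    (4096 ≤ E → 1 ≤ e → 2 * be * (33554432 * E ^ 2) ≤ E ^ 4 + 281474976710656 - 33554432 * E ^ 2 →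
      4096 * e ≤ E) ∧
    (4096 ≤ E → 1 ≤ e → E ^ 4 + 281474976710656 - 33554432 * E ^ 2 ≤ 2 * be * (33554432 * E ^ 2) →
      E ≤ 4096 * e) ∧
    (E ≤ 4096 → e ≤ 1 → 2 * be * (33554432 * E ^ 2) ≤ E ^ 4 + 281474976710656 - 33554432 * E ^ 2 →
      E ≤ 4096 * e) ∧
    (E ≤ 4096 → e ≤ 1 → E ^ 4 + 281474976710656 - 33554432 * E ^ 2 ≤ 2 * be * (33554432 * E ^ 2) →
      4096 * e ≤ E) := by
  have hb : be * (4 * e ^ 2) = (e ^ 2 - 1) ^ 2 := by
    rw [hbe, bE]
    field_simp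
  have up : 2 * be * (33554432 * E ^ 2) ≤ E ^ 4 + 281474976710656 - 33554432 * E ^ 2 →
      ((e ^ 2 - 1) * (4096 * E)) ^ 2 ≤ ((E ^ 2 - 16777216) * e) ^ 2 := by
    intro h
    have h2 := mul_le_mul_of_nonneg_right h (sq_nonneg e)
    linear_combination h2 - 16777216 * E ^ 2 * hb
  have dn : E ^ 4 + 281474976710656 - 33554432 * E ^ 2 ≤ 2 * be * (33554432 * E ^ 2) →
      ((E ^ 2 - 16777216) * e) ^ 2 ≤ ((e ^ 2 - 1) * (4096 * E)) ^ 2 := by
    intro h
    have h2 := mul_le_mul_of_nonneg_right h (sq_nonneg e)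
    linear_combination h2 + 16777216 * E ^ 2 * hb
  have hp : 0 < e * E + 4096 := by positivity
  refine ⟨fun hE he h => ?_, fun hE he h => ?_, fun hE he h => ?_, fun hE he h => ?_⟩
  · have h1 := le_of_sq_le_sq (up h) (mul_nonneg (by nlinarith) e0.le)
    by_contra hc
    rw [not_le] at hc
    nlinarith
  · have h1 := le_of_sq_le_sq (dn h) (mul_nonneg (by nlinarith) (by positivity))
    by_contra hc
    rw [not_le] at hc
    nlinarith
  · have h1 := up h
    have h2 : ((1 - e ^ 2) * (4096 * E)) ^ 2 ≤ ((16777216 - E ^ 2) * e) ^ 2 := by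
      linear_combination h1
    have h3 := le_of_sq_le_sq h2 (mul_nonneg (by nlinarith) e0.le)
    by_contra hc
    rw [not_le] at hc
    nlinarith
  · have h1 := dn h
    have h2 : ((16777216 - E ^ 2) * e) ^ 2 ≤ ((1 - e ^ 2) * (4096 * E)) ^ 2 := by
      linear_combination h1
    have h3 := le_of_sq_le_sq h2 (mul_nonneg (by nlinarith) (by positivity))
    by_contra hc
    rw [not_le] at hc
    nlinarith

theorem aW_lt {w : ℝ} (w0 : 0 < w) (w1 : w < 1) : 0 < aW w ∧ aW w < 1 := by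
  have hp : 0 < 1 + w ^ 2 := by positivity
  constructor
  · unfold aW
    positivity
  · rw [aW, div_lt_one (by positivity)]
    nlinarith [sq_nonneg (1 - w), mul_pos (show 0 < 1 - w by linarith) (show 0 < 1 + w by linarith)]

theorem bE_nonneg (e : ℝ) : 0 ≤ bE e := by
  unfold bE
  positivity

theorem ble_false {a b : ℕ} (h : Nat.ble a b = false) : b < a := by
  by_contra hc
  have h1 := Nat.ble_eq_true_of_le (not_lt.1 hc)
  rw [h] at h1
  exact absurd h1 (by simp)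

theorem Wl_ok {W : ℕ} {bx : Bx} {z : ℕ} {k : ℕ → Bool} (h : sWl W bx z k = true) :
    (∃ z', k z' = true) ∧ ∀ w e x y : ℝ, Cp w e x y → Pt bx x y → (W : ℝ) ≤ 4096 * w := by
  unfold sWl at h
  rw [Bool.and_eq_true] at h
  obtain ⟨hW, h⟩ := h
  have hW1 : W < 4096 := Nat.le_of_ble_eq_true hW
  have hW2 : (W : ℝ) < 4096 := by exact_mod_cast hW1
  obtain ⟨al, A0, A1, h, q, c, hq, hc, e1, e2, e3⟩ := cfW_ok h
  obtain ⟨hk, hh⟩ := sd_ok h
  refine ⟨hk, ?_⟩
  intro w e x y hC hP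
  obtain ⟨y1, y2⟩ := abs_le.1 hC.yx
  have h3 := hh x y hC.x0 hP (by push_cast; linarith) (by push_cast; linarith)
  rcases h3 with ⟨-, h3⟩ | ⟨h3, -⟩
  · rw [e1, e2, e3, hC.x2, hC.y2] at h3
    have hid := W_id q c (aW w) (bE e)
    obtain ⟨a0, a1⟩ := aW_lt hC.w0 hC.w1
    have hb := bE_nonneg e
    have hW0 : (0 : ℝ) ≤ W := Nat.cast_nonneg W
    have hq0 : 0 < q := by rw [hq]; positivity
    have hcq : 0 < c + q := by
      have : c + q = 2 * (16777216 - (W : ℝ) ^ 2) ^ 2 := by rw [hc, hq]; ring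
      rw [this]
      have h4 : 0 < 16777216 - (W : ℝ) ^ 2 := by nlinarith
      positivity
    have h4 : 0 < c + q + 2 * bE e * q := by positivity
    have h5 : 0 ≤ (c - q + 2 * aW w * q) * (c + q + 2 * bE e * q) := by
      rw [← hid]
      linarith
    have h6 := nonneg_of_mul_nonneg_left h5 h4
    refine (W_fin hW0 hW2.le hC.w0 hC.w1 rfl).1 ?_
    rw [← hq]
    linarith
  · omega

theorem Wh_ok {W : ℕ} {bx : Bx} {z : ℕ} {k : ℕ → Bool} (h : sWh W bx z k = true) :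
    (∃ z', k z' = true) ∧ ∀ w e x y : ℝ, Cp w e x y → Pt bx x y → 4096 * w ≤ W := by
  unfold sWh at h
  cases hW : Nat.ble 4096 W
  · rw [hW, cond_false] at h
    have hW1 : W < 4096 := ble_false hW
    have hW2 : (W : ℝ) < 4096 := by exact_mod_cast hW1
    obtain ⟨al, A0, A1, h, q, c, hq, hc, e1, e2, e3⟩ := cfW_ok h
    obtain ⟨hk, hh⟩ := sd_ok h
    refine ⟨hk, ?_⟩
    intro w e x y hC hP
    obtain ⟨y1, y2⟩ := abs_le.1 hC.yx
    have h3 := hh x y hC.x0 hP (by push_cast; linarith) (by push_cast; linarith)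
    rcases h3 with ⟨h3, -⟩ | ⟨-, h3⟩
    · omega
    · rw [e1, e2, e3, hC.x2, hC.y2] at h3
      have hid := W_id q c (aW w) (bE e)
      obtain ⟨a0, a1⟩ := aW_lt hC.w0 hC.w1
      have hb := bE_nonneg e
      have hW0 : (0 : ℝ) ≤ W := Nat.cast_nonneg W
      have hq0 : 0 < q := by rw [hq]; positivity
      have hcq : 0 < c + q := by
        have : c + q = 2 * (16777216 - (W : ℝ) ^ 2) ^ 2 := by rw [hc, hq]; ring
        rw [this]
        have h4 : 0 < 16777216 - (W : ℝ) ^ 2 := by nlinarith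
        positivity
      have h4 : 0 < c + q + 2 * bE e * q := by positivity
      have h5 : (c - q + 2 * aW w * q) * (c + q + 2 * bE e * q) ≤ 0 := by
        rw [← hid]
        linarith
      have h6 : c - q + 2 * aW w * q ≤ 0 := by
        by_contra h7
        rw [not_le] at h7
        have := mul_pos h7 h4
        linarith
      refine (W_fin hW0 hW2.le hC.w0 hC.w1 rfl).2 ?_
      rw [← hq]
      linarith
  · rw [hW, cond_true] at h
    refine ⟨⟨z, h⟩, ?_⟩
    intro w e x y hC hP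
    have h1 : (4096 : ℝ) ≤ W := by exact_mod_cast Nat.le_of_ble_eq_true hW
    have := hC.w1
    linarith

theorem E_neg {E : ℕ} (hE : 1 ≤ E) {q c al : ℝ} (hq : q = 33554432 * (E : ℝ) ^ 2)
    (hc : c = (E : ℝ) ^ 4 + 281474976710656) (a1 : al < 1) :
    0 < c + q - 2 * al * q := by
  have hE' : (1 : ℝ) ≤ E := by exact_mod_cast hE
  have hq0 : 0 < q := by rw [hq]; positivity
  have h1 : 0 ≤ c - q := by
    have : c - q = ((E : ℝ) ^ 2 - 16777216) ^ 2 := by rw [hc, hq]; ring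
    rw [this]
    positivity
  nlinarith

theorem El_ok {E : ℕ} {bx : Bx} {z : ℕ} {k : ℕ → Bool} (h : sEl E bx z k = true) :
    (∃ z', k z' = true) ∧ ∀ w e x y : ℝ, Cp w e x y → Pt bx x y → (E : ℝ) ≤ 4096 * e := by
  unfold sEl at h
  rw [Bool.and_eq_true] at h
  obtain ⟨hE1, h⟩ := h
  have hE1' : 1 ≤ E := Nat.le_of_ble_eq_true hE1
  have hE0 : (0 : ℝ) < E := by exact_mod_cast hE1'
  cases hE : Nat.ble 4096 E
  · rw [hE, cond_false] at h
    have hE2 : E < 4096 := ble_false hE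
    have hE3 : (E : ℝ) < 4096 := by exact_mod_cast hE2
    obtain ⟨al, A0, A1, h, q, c, hq, hc, e1, e2, e3⟩ := cfE_ok h
    obtain ⟨hk, hh⟩ := sd_ok h
    refine ⟨hk, ?_⟩
    intro w e x y hC hP
    obtain ⟨y1, y2⟩ := abs_le.1 hC.yx
    rcases le_total y 0 with hy | hy
    · have h3 := hh x y hC.x0 hP (by push_cast; linarith) (by push_cast; linarith)
      rcases h3 with ⟨h3, -⟩ | ⟨-, h3⟩
      · omega
      · rw [e1, e2, e3, hC.x2, hC.y2] at h3
        have hid := E_id q c (aW w) (bE e)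
        obtain ⟨a0, a1⟩ := aW_lt hC.w0 hC.w1
        have h4 := E_neg hE1' hq hc a1
        have h5 : 0 ≤ (c - q - 2 * bE e * q) * (c + q - 2 * aW w * q) := by linarith
        have h6 := nonneg_of_mul_nonneg_left h5 h4
        refine (E_fin hE0 hC.e0 rfl).2.2.1 hE3.le (hC.y1 hy) ?_
        rw [← hq, ← hc]
        linarith
    · have := hC.y0 hy
      linarith
  · rw [hE, cond_true, Bool.and_eq_true] at h
    obtain ⟨hE2, h⟩ := h
    have hE3 : 4097 ≤ E := Nat.le_of_ble_eq_true hE2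
    have hE4 : (4096 : ℝ) ≤ E := by exact_mod_cast (by omega : 4096 ≤ E)
    obtain ⟨al, A0, A1, h, q, c, hq, hc, e1, e2, e3⟩ := cfE_ok h
    obtain ⟨⟨z1, hk⟩, hh⟩ := sd_ok h
    obtain ⟨hk', hh'⟩ := sd_ok hk
    refine ⟨hk', ?_⟩
    intro w e x y hC hP
    obtain ⟨y1, y2⟩ := abs_le.1 hC.yx
    rcases le_total y 0 with hy | hy
    · have h3 := hh' x y hC.x0 hP (by push_cast; linarith) (by push_cast; linarith)
      rcases h3 with ⟨h3, -⟩ | ⟨h3, -⟩ <;> omega
    · have h3 := hh x y hC.x0 hP (by push_cast; linarith) (by push_cast; linarith)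
      rcases h3 with ⟨-, h3⟩ | ⟨h3, -⟩
      · rw [e1, e2, e3, hC.x2, hC.y2] at h3
        have hid := E_id q c (aW w) (bE e)
        obtain ⟨a0, a1⟩ := aW_lt hC.w0 hC.w1
        have h4 := E_neg hE1' hq hc a1
        have h5 : (c - q - 2 * bE e * q) * (c + q - 2 * aW w * q) ≤ 0 := by linarith
        have h6 : c - q - 2 * bE e * q ≤ 0 := by
          by_contra h7
          rw [not_le] at h7
          have := mul_pos h7 h4
          linarith
        refine (E_fin hE0 hC.e0 rfl).2.1 hE4 (hC.y0 hy) ?_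
        rw [← hq, ← hc]
        linarith
      · omega

theorem Eh_ok {E : ℕ} {bx : Bx} {z : ℕ} {k : ℕ → Bool} (h : sEh E bx z k = true) :
    (∃ z', k z' = true) ∧ ∀ w e x y : ℝ, Cp w e x y → Pt bx x y → 4096 * e ≤ E := by
  unfold sEh at h
  rw [Bool.and_eq_true] at h
  obtain ⟨hE1, h⟩ := h
  have hE1' : 1 ≤ E := Nat.le_of_ble_eq_true hE1
  have hE0 : (0 : ℝ) < E := by exact_mod_cast hE1'
  cases hE : Nat.ble E 4096
  · rw [hE, cond_false] at h
    have hE2 : 4096 < E := ble_false hE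
    have hE3 : (4096 : ℝ) < E := by exact_mod_cast hE2
    obtain ⟨al, A0, A1, h, q, c, hq, hc, e1, e2, e3⟩ := cfE_ok h
    obtain ⟨hk, hh⟩ := sd_ok h
    refine ⟨hk, ?_⟩
    intro w e x y hC hP
    obtain ⟨y1, y2⟩ := abs_le.1 hC.yx
    rcases le_total 0 y with hy | hy
    · have h3 := hh x y hC.x0 hP (by push_cast; linarith) (by push_cast; linarith)
      rcases h3 with ⟨h3, -⟩ | ⟨-, h3⟩
      · omega
      · rw [e1, e2, e3, hC.x2, hC.y2] at h3
        have hid := E_id q c (aW w) (bE e)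
        obtain ⟨a0, a1⟩ := aW_lt hC.w0 hC.w1
        have h4 := E_neg hE1' hq hc a1
        have h5 : 0 ≤ (c - q - 2 * bE e * q) * (c + q - 2 * aW w * q) := by linarith
        have h6 := nonneg_of_mul_nonneg_left h5 h4
        refine (E_fin hE0 hC.e0 rfl).1 hE3.le (hC.y0 hy) ?_
        rw [← hq, ← hc]
        linarith
    · have := hC.y1 hy
      linarith
  · rw [hE, cond_true, Bool.and_eq_true] at h
    obtain ⟨hE2, h⟩ := h
    have hE3 : E ≤ 4095 := Nat.le_of_ble_eq_true hE2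
    have hE4 : (E : ℝ) ≤ 4096 := by exact_mod_cast (by omega : E ≤ 4096)
    obtain ⟨al, A0, A1, h, q, c, hq, hc, e1, e2, e3⟩ := cfE_ok h
    obtain ⟨⟨z1, hk⟩, hh⟩ := sd_ok h
    obtain ⟨hk', hh'⟩ := sd_ok hk
    refine ⟨hk', ?_⟩
    intro w e x y hC hP
    obtain ⟨y1, y2⟩ := abs_le.1 hC.yx
    rcases le_total 0 y with hy | hy
    · have h3 := hh' x y hC.x0 hP (by push_cast; linarith) (by push_cast; linarith)
      rcases h3 with ⟨h3, -⟩ | ⟨h3, -⟩ <;> omega
    · have h3 := hh x y hC.x0 hP (by push_cast; linarith) (by push_cast; linarith)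
      rcases h3 with ⟨-, h3⟩ | ⟨h3, -⟩
      · rw [e1, e2, e3, hC.x2, hC.y2] at h3
        have hid := E_id q c (aW w) (bE e)
        obtain ⟨a0, a1⟩ := aW_lt hC.w0 hC.w1
        have h4 := E_neg hE1' hq hc a1
        have h5 : (c - q - 2 * bE e * q) * (c + q - 2 * aW w * q) ≤ 0 := by linarith
        have h6 : c - q - 2 * bE e * q ≤ 0 := by
          by_contra h7
          rw [not_le] at h7
          have := mul_pos h7 h4
          linarith
        refine (E_fin hE0 hC.e0 rfl).2.2.2 hE4 (hC.y1 hy) ?_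
        rw [← hq, ← hc]
        linarith
      · omega

end Pool.Agent.S5.YB
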