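import Pool.Agent.S5.I.YB2

/-!
# Rectangles for the critical points of closed nodes: the theorem for the slots of a node
-/

set_option autoImplicit false

namespace Pool.Agent.S5.YB

open Complex Pool.Agent.S5.C2 Pool.Agent.S5.Num Pool.Agent.S5.F Pool.Agent.S5.K

theorem inv_sq_re (b : ℂ) (hb : 0 < b.re) : ((1 / b ^ 2).re) * (b.re ^ 2 + b.im ^ 2) ^ 2 =
    b.re ^ 2 - b.im ^ 2 ∧ ((1 / b ^ 2).im) * (b.re ^ 2 + b.im ^ 2) ^ 2 = -(2 * b.re * b.im) := by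
  have hN : 0 < b.re ^ 2 + b.im ^ 2 := by positivity
  have e1 : (b ^ 2).re = b.re ^ 2 - b.im ^ 2 := by
    rw [sq, mul_re]
    ring
  have e2 : (b ^ 2).im = 2 * b.re * b.im := by
    rw [sq, mul_im]
    ring
  have e3 : normSq (b ^ 2) = (b.re ^ 2 + b.im ^ 2) ^ 2 := by
    rw [map_pow, normSq_apply]
    ring
  rw [one_div, inv_re, inv_im, e3, e1, e2]
  constructor
  · field_simp
  · field_simp

theorem Pol_sec {S : Bool} {k0 k1 t0 t1 : ℕ} {b : ℂ} (h : Pol S k0 k1 t0 t1 b) :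
    ∃ q τ : ℝ, Sec k0 k1 t0 t1 (1 / b ^ 2).re (cond S (1 / b ^ 2).im (-(1 / b ^ 2).im)) q τ := by
  obtain ⟨hr, h1, h2, h3, h4⟩ := h
  have hN : 0 < b.re ^ 2 + b.im ^ 2 := by positivity
  obtain ⟨e1, e2⟩ := inv_sq_re b hr
  obtain ⟨v, hv⟩ : ∃ v : ℝ, v = (if S = true then -b.im else b.im) := ⟨_, rfl⟩
  rw [← hv] at h3 h4
  have hv2 : v ^ 2 = b.im ^ 2 := by
    rw [hv]
    split_ifs <;> ring
  refine ⟨1 / (b.re ^ 2 + b.im ^ 2), v / b.re, ?_⟩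
  have hN' : b.re ^ 2 + b.im ^ 2 ≠ 0 := hN.ne'
  constructor
  · positivity
  · rw [div_mul_eq_mul_div, le_div_iff₀ hN]
    linarith
  · rw [div_mul_eq_mul_div, div_le_iff₀ hN]
    linarith
  · rw [← mul_div_assoc, le_div_iff₀ hr]
    linarith
  · rw [← mul_div_assoc, div_le_iff₀ hr]
    linarith
  · rw [div_pow, hv2]
    have h5 : (1 / b ^ 2).re = (b.re ^ 2 - b.im ^ 2) / (b.re ^ 2 + b.im ^ 2) ^ 2 := by
      rw [eq_div_iff (by positivity)]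
      exact e1
    rw [h5]
    field_simp
  · rw [div_pow, hv2]
    have h5 : cond S (1 / b ^ 2).im (-(1 / b ^ 2).im) = 2 * b.re * v / (b.re ^ 2 + b.im ^ 2) ^ 2 := by
      rw [eq_div_iff (by positivity), hv]
      cases S
      · simp only [cond_false, Bool.false_eq_true, if_false]
        linear_combination -e2
      · simp only [cond_true, if_true]
        linear_combination e2
    rw [h5]
    field_simp

theorem Sec.X_nonneg {k0 k1 t0 t1 : ℕ} {X Y q τ : ℝ} (h : Sec k0 k1 t0 t1 X Y q τ) (ht : t1 ≤ 1000) :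
    0 ≤ X := by
  have h1 : (t1 : ℝ) ≤ 1000 := by exact_mod_cast ht
  have h2 := h.tb
  have h3 := h.ta
  have h4 : (0 : ℝ) ≤ t0 := Nat.cast_nonneg t0
  have h5 : 0 ≤ q * (1 - τ ^ 2) := mul_nonneg h.q0.le (by nlinarith)
  rw [← h.X] at h5
  exact nonneg_of_mul_nonneg_left h5 (by positivity)

/-- The sine of the critical point. -/
theorem sin_pt (p h : ℝ) : Complex.sin (Real.pi * (p - h * I)) =
    ((Real.sin (Real.pi * p) * Real.cosh (Real.pi * h) : ℝ) : ℂ) -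
      ((Real.cos (Real.pi * p) * Real.sinh (Real.pi * h) : ℝ) : ℂ) * I := by
  have e : (Real.pi * (p - h * I) : ℂ) = ((Real.pi * p : ℝ) : ℂ) - ((Real.pi * h : ℝ) : ℂ) * I := by
    push_cast
    ring
  rw [e, Complex.sin_sub, Complex.cos_mul_I, Complex.sin_mul_I]
  push_cast
  ring

/-- **The rectangle of the critical point** (the form with the sine). -/
theorem ybC_sin {S : Bool} {k0 k1 t0 t1 j0 j1 s0 s1 wl wh el eh z : ℕ}
    (hC : ybC S k0 k1 t0 t1 j0 j1 s0 s1 wl wh el eh z = true) {p h : ℝ} (p0 : 0 < p) (p1 : p < 1 / 2)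
    {k b : ℂ} (hk : Pol true k0 k1 t0 t1 k) (hb : Pol S j0 j1 s0 s1 b)
    (hs : (1 / k ^ 2 + 1 / b ^ 2) * Complex.sin (Real.pi * (p - h * I)) ^ 2 = 1) :
    (wl : ℝ) ≤ 4096 * tw p ∧ 4096 * tw p ≤ wh ∧ (el : ℝ) ≤ 4096 * ex h ∧ 4096 * ex h ≤ eh := by
  have hpi := Real.pi_pos
  unfold ybC at hC
  rw [Bool.and_eq_true, Bool.and_eq_true] at hC
  obtain ⟨ht, hu, hC⟩ := hC
  obtain ⟨⟨z1, hC⟩, r1⟩ := Wl_ok hC
  obtain ⟨⟨z2, hC⟩, r2⟩ := Wh_ok hC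
  obtain ⟨⟨z3, hC⟩, r3⟩ := El_ok hC
  obtain ⟨-, r4⟩ := Eh_ok hC
  obtain ⟨q1, u1, c1⟩ := Pol_sec hk
  obtain ⟨q2, u2, c2⟩ := Pol_sec hb
  rw [cond_true] at c1
  obtain ⟨x, hx⟩ : ∃ x : ℝ, x = Real.sin (Real.pi * p) * Real.cosh (Real.pi * h) := ⟨_, rfl⟩
  obtain ⟨y, hy⟩ : ∃ y : ℝ, y = Real.cos (Real.pi * p) * Real.sinh (Real.pi * h) := ⟨_, rfl⟩
  rw [sin_pt, ← hx, ← hy] at hs
  have hsin : 0 < Real.sin (Real.pi * p) := Real.sin_pos_of_pos_of_lt_pi (by positivity) (by nlinarith)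
  have hcos : 0 < Real.cos (Real.pi * p) := Real.cos_pos_of_mem_Ioo ⟨by nlinarith, by nlinarith⟩
  have hx0 : 0 < x := by
    rw [hx]
    exact mul_pos hsin (Real.cosh_pos _)
  have hA : (0 : ℝ) < x ^ 2 + y ^ 2 := by positivity
  have hs2 : (1 / k ^ 2 + 1 / b ^ 2) * ((((x ^ 2 + y ^ 2) ^ 2 : ℝ)) : ℂ) = ((x : ℂ) + y * I) ^ 2 := by
    have e : ((((x ^ 2 + y ^ 2) ^ 2 : ℝ)) : ℂ) = ((x : ℂ) - y * I) ^ 2 * ((x : ℂ) + y * I) ^ 2 := by
      push_cast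
      linear_combination (2 * (x : ℂ) ^ 2 * y ^ 2 + y ^ 4 - (y : ℂ) ^ 4 * I ^ 2) * I_sq
    rw [e, ← mul_assoc, hs, one_mul]
  have e1 : ((1 / k ^ 2).re + (1 / b ^ 2).re) * (x ^ 2 + y ^ 2) ^ 2 = x ^ 2 - y ^ 2 := by
    have h1 := congrArg re hs2
    rw [re_mul_ofReal, add_re] at h1
    rw [h1, sq, mul_re]
    simp
    ring
  have e2 : ((1 / k ^ 2).im + (1 / b ^ 2).im) * (x ^ 2 + y ^ 2) ^ 2 = 2 * x * y := by
    have h1 := congrArg im hs2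
    rw [im_mul_ofReal, add_im] at h1
    rw [h1, sq, mul_im]
    simp
    ring
  have hP : Pt ⟨S, k0, k1, t0, t1, j0, j1, s0, s1⟩ x y :=
    ⟨_, _, q1, u1, _, _, q2, u2, c1, c2, e1, e2⟩
  have X1 := c1.X_nonneg (Nat.le_of_ble_eq_true ht)
  have X2 := c2.X_nonneg (Nat.le_of_ble_eq_true hu)
  have hxy : y ^ 2 ≤ x ^ 2 := by
    have : 0 ≤ ((1 / k ^ 2).re + (1 / b ^ 2).re) * (x ^ 2 + y ^ 2) ^ 2 := by positivity
    linarith
  have hS : aW (tw p) = Sn p := (Sn_tw p0 p1).symm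
  have hE : bE (ex h) = Real.sinh (Real.pi * h) ^ 2 := (sinh_ex h).symm
  have hcp : Cp (tw p) (ex h) x y := {
    w0 := tw_pos p0 p1
    w1 := tw_lt p0 p1
    e0 := Real.exp_pos _
    x0 := hx0
    x2 := by
      rw [hS, hE, hx, mul_pow, Real.cosh_sq, Sn]
      ring
    y2 := by
      rw [hS, hE, hy, mul_pow, Real.cos_sq', Sn]
    yx := abs_le_of_sq_le_sq hxy hx0.le
    y0 := fun h0 => by
      rw [hy] at h0
      have h1 : 0 ≤ Real.sinh (Real.pi * h) := nonneg_of_mul_nonneg_right h0 hcos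
      rw [ex]
      exact Real.one_le_exp (Real.sinh_nonneg_iff.1 h1)
    y1 := fun h0 => by
      rw [hy] at h0
      have h1 : Real.sinh (Real.pi * h) ≤ 0 := by
        by_contra hc
        rw [not_le] at hc
        have := mul_pos hcos hc
        linarith
      rw [ex]
      exact Real.exp_le_one_iff.2 (Real.sinh_nonpos_iff.1 h1) }
  exact ⟨r1 _ _ _ _ hcp hP, r2 _ _ _ _ hcp hP, r3 _ _ _ _ hcp hP, r4 _ _ _ _ hcp hP⟩

theorem cos_rel (y : ℂ) : (1 + exp (-(2 * Real.pi * I * y))) ^ 2 =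
    4 * exp (-(2 * Real.pi * I * y)) * Complex.cos (Real.pi * y) ^ 2 := by
  have h2 : exp (-(2 * Real.pi * I * y)) = exp (-(Real.pi * y * I)) ^ 2 := by
    rw [← Complex.exp_nat_mul]
    congr 1
    push_cast
    ring
  have h3 : exp (Real.pi * y * I) * exp (-(Real.pi * y * I)) = 1 := by
    rw [← Complex.exp_add, add_neg_cancel, Complex.exp_zero]
  rw [h2, Complex.cos]
  have h4 : exp (-(Real.pi * y) * I) = exp (-(Real.pi * y * I)) := by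
    congr 1
    ring
  rw [h4]
  linear_combination (-(2 * exp (-(Real.pi * y * I)) ^ 2) -
    exp (Real.pi * y * I) * exp (-(Real.pi * y * I)) - 1) * h3

/-- **The rectangle of the critical point** of a slot. -/
theorem ybC_ok {S : Bool} {k0 k1 t0 t1 j0 j1 s0 s1 wl wh el eh z : ℕ}
    (hC : ybC S k0 k1 t0 t1 j0 j1 s0 s1 wl wh el eh z = true) {y k b : ℂ} (y0 : 0 < y.re)
    (y1 : y.re < 1 / 2) (hk : Pol true k0 k1 t0 t1 k) (hb : Pol S j0 j1 s0 s1 b)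
    (hs : (1 / k ^ 2 + 1 / b ^ 2) * (1 + exp (-(2 * Real.pi * I * y))) ^ 2 =
      4 * exp (-(2 * Real.pi * I * y))) :
    (wl : ℝ) ≤ 4096 * tw (1 / 2 - y.re) ∧ 4096 * tw (1 / 2 - y.re) ≤ wh ∧
      (el : ℝ) ≤ 4096 * ex y.im ∧ 4096 * ex y.im ≤ eh := by
  refine ybC_sin hC (by linarith) (by linarith) hk hb ?_
  have e1 : (Real.pi * (((1 / 2 - y.re : ℝ) : ℂ) - y.im * I) : ℂ) = Real.pi / 2 - Real.pi * y := by
    have h1 : (y : ℂ) = y.re + y.im * I := (re_add_im y).symm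
    push_cast
    linear_combination (Real.pi : ℂ) * h1
  rw [e1, Complex.sin_pi_div_two_sub]
  have hE : exp (-(2 * Real.pi * I * y)) ≠ 0 := exp_ne_zero _
  have e2 := cos_rel y
  have h5 : (1 / k ^ 2 + 1 / b ^ 2) * Complex.cos (Real.pi * y) ^ 2 *
      (4 * exp (-(2 * Real.pi * I * y))) = 1 * (4 * exp (-(2 * Real.pi * I * y))) := by
    linear_combination hs - (1 / k ^ 2 + 1 / b ^ 2) * e2
  exact mul_right_cancel₀ (mul_ne_zero (by norm_num) hE) h5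

/-! ### Nodes with two half twists -/

/-- **The exact relation of a slot.** -/
theorem edge_rel {bl br k E u : ℂ} (bl0 : bl ≠ 0) (k0 : k ≠ 0) (kE : 2 * k ^ 2 = E * (bl + br))
    (EE : (E ^ 2 + 1) * (bl + br) = 2 * (bl * br) * E) (Va : 1 + u = 2 * bl * E) :
    (1 / k ^ 2 + 1 / bl ^ 2) * (1 + u) ^ 2 = 4 * u := by
  have hu : u = 2 * bl * E - 1 := by linear_combination Va
  rw [Va, hu]
  field_simp
  linear_combination (-(E * k ^ 2 * 2 * bl) + E ^ 2 * k ^ 2 + k ^ 2) * 0 + (-(E * bl) * 2 + E ^ 2 + 1) * kE * 2 +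
    EE * E * 2

end Pool.Agent.S5.YB

namespace Pool.Agent.S5.K

open Complex Pool.Agent.S5.F Pool.Agent.S5.YB

theorem Nd2.rel_a {bl br k E ya yb la lb : ℂ} (h : Nd2 bl br k E ya yb la lb) :
    (1 / k ^ 2 + 1 / bl ^ 2) * (1 + exp (-(2 * Real.pi * I * ya))) ^ 2 =
      4 * exp (-(2 * Real.pi * I * ya)) :=
  edge_rel h.bl0 (fun h0 => by have := h.kre; rw [h0] at this; simp at this) h.kE h.EE h.Va

theorem Nd2.rel_b {bl br k E ya yb la lb : ℂ} (h : Nd2 bl br k E ya yb la lb) :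
    (1 / k ^ 2 + 1 / br ^ 2) * (1 + exp (-(2 * Real.pi * I * yb))) ^ 2 =
      4 * exp (-(2 * Real.pi * I * yb)) :=
  edge_rel (bl := br) (br := bl) (E := E) h.br0 (fun h0 => by have := h.kre; rw [h0] at this; simp at this)
    (by rw [h.kE]; ring) (by linear_combination h.EE) h.Vb

/-- **The rectangle of the left critical point.** -/
theorem Nd2.yb_a {bl br k E ya yb la lb : ℂ} (h : Nd2 bl br k E ya yb la lb) {S : Bool}
    {k0 k1 t0 t1 j0 j1 s0 s1 wl wh el eh z : ℕ}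
    (hC : ybC S k0 k1 t0 t1 j0 j1 s0 s1 wl wh el eh z = true) (hk : Pol true k0 k1 t0 t1 k)
    (hb : Pol S j0 j1 s0 s1 bl) :
    (wl : ℝ) ≤ 4096 * tw (1 / 2 - ya.re) ∧ 4096 * tw (1 / 2 - ya.re) ≤ wh ∧
      (el : ℝ) ≤ 4096 * ex ya.im ∧ 4096 * ex ya.im ≤ eh :=
  ybC_ok hC h.ya0 h.ya1 hk hb (Nd2.rel_a h)

/-- **The rectangle of the right critical point.** -/
theorem Nd2.yb_b {bl br k E ya yb la lb : ℂ} (h : Nd2 bl br k E ya yb la lb) {S : Bool}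
    {k0 k1 t0 t1 j0 j1 s0 s1 wl wh el eh z : ℕ}
    (hC : ybC S k0 k1 t0 t1 j0 j1 s0 s1 wl wh el eh z = true) (hk : Pol true k0 k1 t0 t1 k)
    (hb : Pol S j0 j1 s0 s1 br) :
    (wl : ℝ) ≤ 4096 * tw (1 / 2 - yb.re) ∧ 4096 * tw (1 / 2 - yb.re) ≤ wh ∧
      (el : ℝ) ≤ 4096 * ex yb.im ∧ 4096 * ex yb.im ≤ eh :=
  ybC_ok hC h.yb0 h.yb1 hk hb (Nd2.rel_b h)

end Pool.Agent.S5.K
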