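import Pool.Agent.S5.E.B2.Base

/-!
# Rectangles for the critical points of the edges: the kernel program

`s = X (1 + i τ) ^ 2 / (1 + τ ^ 2) + Z (1 ± i σ) ^ 2 / (1 + σ ^ 2)` (`X = 1 / |κ| ^ 2`, `τ = tan φ` for the
two ends of an edge), `M = |s|`, `N = |s - 1|`, `T = sqrt (s - 1)`; the critical point `y` of the edge has
`cos (2 π Re y) = (1 - N) / M` and `tanh (2 π Im y) = Im s / (Re T (1 + N))`.
-/

set_option autoImplicit false

namespace Pool.Agent.S5.YX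

open Pool.Agent.S3.NI Pool.Agent.S5.E.B2

/-! ### Square roots -/

/-- Newton steps. -/
def nw (n x : ℕ) : ℕ := Nat.div (Nat.add x (Nat.div n x)) 2
def sq0 (n : ℕ) : ℕ := nw n (nw n (nw n (nw n (nw n (nw n 1500000000)))))

def lo' (n y : ℕ) : ℕ := bif Nat.ble (Nat.mul y y) n then y else 0
def hi' (n y : ℕ) : ℕ := bif Nat.ble n (Nat.mul y y) then y else Nat.succ n

def rt (A : N) : N := ⟨lo' (Nat.mul A.lo 1073741824) (Nat.sub (sq0 (Nat.mul A.lo 1073741824)) 1),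
  hi' (Nat.mul A.hi 1073741824) (Nat.succ (sq0 (Nat.mul A.hi 1073741824)))⟩

theorem lo'_sq (n y : ℕ) : lo' n y * lo' n y ≤ n := by
  unfold lo'
  rcases h : Nat.ble (Nat.mul y y) n with _ | _
  · simp
  · exact Nat.le_of_ble_eq_true h

theorem hi'_sq (n y : ℕ) : n ≤ hi' n y * hi' n y := by
  unfold hi'
  rcases h : Nat.ble n (Nat.mul y y) with _ | _
  · show n ≤ (n + 1) * (n + 1)
    nlinarith
  · exact Nat.le_of_ble_eq_true h

theorem mem_rt {x : ℝ} {A : N} (h : Mem x A) (hx : 0 ≤ x) : Mem (Real.sqrt x) (rt A) := by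
  have hU : (0 : ℝ) < 1073741824 := by norm_num
  have hs := Real.sq_sqrt hx
  have h0 := Real.sqrt_nonneg x
  constructor
  · have h1 : ((rt A).lo : ℝ) * (rt A).lo ≤ (A.lo : ℝ) * 1073741824 := by
      have := lo'_sq (Nat.mul A.lo 1073741824) (Nat.sub (sq0 (Nat.mul A.lo 1073741824)) 1)
      exact_mod_cast this
    have h2 : ((rt A).lo : ℝ) ^ 2 ≤ (Real.sqrt x * 1073741824) ^ 2 := by
      have e : (Real.sqrt x * 1073741824) ^ 2 = (x * 1073741824) * 1073741824 := by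
        rw [mul_pow, hs]
        ring
      rw [e, pow_two]
      exact h1.trans (mul_le_mul_of_nonneg_right h.1 hU.le)
    exact le_of_sq_le_sq h2 (by positivity)
  · have h1 : (A.hi : ℝ) * 1073741824 ≤ ((rt A).hi : ℝ) * (rt A).hi := by
      have := hi'_sq (Nat.mul A.hi 1073741824) (Nat.succ (sq0 (Nat.mul A.hi 1073741824)))
      exact_mod_cast this
    have h2 : (Real.sqrt x * 1073741824) ^ 2 ≤ ((rt A).hi : ℝ) ^ 2 := by
      have e : (Real.sqrt x * 1073741824) ^ 2 = (x * 1073741824) * 1073741824 := by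
        rw [mul_pow, hs]
        ring
      rw [e, pow_two ((rt A).hi : ℝ)]
      exact (mul_le_mul_of_nonneg_right h.2 hU.le).trans h1
    exact le_of_sq_le_sq h2 (Nat.cast_nonneg _)

/-! ### Constants -/

/-- A number. -/
def pt (n : ℕ) : N := ⟨n, n⟩

/-- `π n / 4000`. -/
def ang (n : ℕ) : N := ⟨Nat.div (Nat.mul 3373259426 n) 4000, Nat.succ (Nat.div (Nat.mul 3373259428 n) 4000)⟩

/-- `cos x` from `x ^ 2`, `x ^ 4`, `x ^ 6`. -/
def cs3 (a b c : N) : N := ⟨((one.add (b.dv 24)).sub ((a.dv 2).add (c.dv 720))).lo,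
  (((one.add (b.dv 24)).add (b.sq.dv 40320)).sub ((a.dv 2).add (c.dv 720))).hi⟩
def cs2 (a b : N) : N := cs3 a b (a.mul b)
def cs1 (a : N) : N := cs2 a a.sq
def dbl (c : N) : N := (c.sq.sm 2).sub one

/-- `1 + cos (2 π n / 1000)`. -/
def DN (n : ℕ) : N := (dbl (dbl (cs1 (ang n).sq))).sq.sm 2

/-- `exp (4 π n / 1000)`. -/
def EN (n : ℕ) : N := ⟨Nat.div (Nat.mul (Nat.pow 1113415677134 n) 1073741824) (Nat.pow 2 (Nat.mul 40 n)),
  Nat.succ (Nat.div (Nat.mul (Nat.pow 1113415677135 n) 1073741824) (Nat.pow 2 (Nat.mul 40 n)))⟩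

/-- `arctan x` from the powers of `x`. -/
def at3 (x x3 x5 x7 x9 x11 x13 : N) : N :=
  ⟨(((x.add (x5.dv 5)).add (x9.dv 9)).sub (((x3.dv 3).add (x7.dv 7)).add (x11.dv 11))).lo,
   ((((x.add (x5.dv 5)).add (x9.dv 9)).add (x13.dv 13)).sub
    (((x3.dv 3).add (x7.dv 7)).add (x11.dv 11))).hi⟩
def at2 (x a b c : N) : N := at3 x (x.mul a) (x.mul b) (x.mul c) (x.mul b.sq) (x.mul (b.mul c))
  (x.mul c.sq)
def at1 (x a : N) : N := at2 x a a.sq (a.mul a.sq)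
def at0 (x : N) : N := at1 x x.sq
/-- `arctan (n / 1000)`. -/
def AT (t : N) : N := (at0 (t.mul (one.add (rt (one.add t.sq))).inv)).sm 2

/-! ### Cells -/

/-- `1 / (1 + t ^ 2)`. -/
def Dn (t : ℕ) : N := (one.add (pt t).sq).inv
def cn (t : ℕ) : N := ((Dn t).sm 2).sub one
def sn (t : ℕ) : N := ((pt t).mul (Dn t)).sm 2
def mk (A B : N) : N := ⟨A.lo, B.hi⟩
def CA (t : N) : N := mk (cn t.hi) (cn t.lo)
def SA (t : N) : N := mk (sn t.lo) (sn (mn t.hi 1073741824))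

def cell3 (f : N → N → N → ℕ → ℕ → Bool) (s a : N) (h g : ℕ) : Bool :=
  f s (rt ((s.ad one).sq.add a.sq)) (s.sq.add a.sq) h g
def cell2 (f : N → N → N → ℕ → ℕ → Bool) (S : Bool) (P₁ P₂ Q₁ Q₂ : N) : Bool :=
  bif S then cell3 f (P₁.add Q₁) (P₂.add Q₂) (Nat.add P₂.hi Q₂.hi) (Nat.add P₂.lo Q₂.lo)
  else cell3 f (P₁.add Q₁) (P₂.ad Q₂) (Nat.sub P₂.hi Q₂.lo) (Nat.sub P₂.lo Q₂.hi)
def cell (f : N → N → N → ℕ → ℕ → Bool) (S : Bool) (X t Z u : N) : Bool :=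
  cell2 f S (X.mul (CA t)) (X.mul (SA t)) (Z.mul (CA u)) (Z.mul (SA u))

/-- `N + (D - 1) M ≤ 1`. -/
def f0' (D : ℕ) (s B M₂ M : N) : Bool :=
  Nat.ble (Nat.add (Nat.mul B.hi 1073741824) (Nat.mul (Nat.sub D 1073741824) M.hi))
    (Nat.add 1152921504606846976 (Nat.mul (Nat.sub 1073741824 D) M.lo)) ||
  (Nat.ble (Nat.mul (Nat.sub D 1073741824) M.hi) 1152921504606846976 &&
   Nat.ble (Nat.add (Nat.mul (Nat.mul (Nat.sub 2147483648 D) D) M₂.hi)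
      (Nat.mul 2147483648 (Nat.mul (Nat.sub D 1073741824) M.hi)))
    (Nat.add (Nat.mul 2305843009213693952 s.lo)
      (Nat.mul 2147483648 (Nat.mul (Nat.sub 1073741824 D) M.lo))))
def f0 (D : ℕ) (s B M₂ : N) (_ _ : ℕ) : Bool := f0' D s B M₂ (rt M₂)

/-- `1 ≤ N + (D - 1) M`. -/
def f1' (D : ℕ) (s B M₂ M : N) : Bool :=
  Nat.ble (Nat.add 1152921504606846976 (Nat.mul (Nat.sub 1073741824 D) M.hi))
    (Nat.add (Nat.mul B.lo 1073741824) (Nat.mul (Nat.sub D 1073741824) M.lo)) ||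
   Nat.ble (Nat.add (Nat.mul 2305843009213693952 s.hi)
      (Nat.mul 2147483648 (Nat.mul (Nat.sub 1073741824 D) M.hi)))
    (Nat.add (Nat.mul (Nat.mul (Nat.sub 2147483648 D) D) M₂.lo)
      (Nat.mul 2147483648 (Nat.mul (Nat.sub D 1073741824) M.lo)))
def f1 (D : ℕ) (s B M₂ : N) (_ _ : ℕ) : Bool := f1' D s B M₂ (rt M₂)

/-- `Re T`. -/
def T1 (s B : N) : N := rt (((B.add s).sub one).dv 2)

/-- `s₂ (E + 1) ≤ (E - 1) T₁ (1 + N)`. -/
def f2 (E : ℕ) (s B _M : N) (h _g : ℕ) : Bool :=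
  Nat.ble (Nat.mul (Nat.mul h (Nat.add E 1073741824)) 1073741824)
    (Nat.mul (Nat.mul (Nat.sub E 1073741824) (T1 s B).lo) (Nat.add B.lo 1073741824)) ||
  Nat.ble (Nat.mul (Nat.mul (Nat.mul 2147483648 (Nat.sub (Nat.add B.hi 1073741824) s.lo))
      (Nat.add E 1073741824)) (Nat.add E 1073741824))
    (Nat.mul (Nat.mul (Nat.sub E 1073741824) (Nat.add B.lo 1073741824))
      (Nat.mul (Nat.sub E 1073741824) (Nat.add B.lo 1073741824)))

/-- `(E - 1) T₁ (1 + N) ≤ s₂ (E + 1)`. -/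
def f4 (E : ℕ) (s B _M : N) (_h g : ℕ) : Bool :=
  Nat.ble 1 g && (
  Nat.ble (Nat.mul (Nat.mul (Nat.sub E 1073741824) (T1 s B).hi) (Nat.add B.hi 1073741824))
    (Nat.mul (Nat.mul g (Nat.add E 1073741824)) 1073741824) ||
  Nat.ble (Nat.mul (Nat.mul (Nat.sub E 1073741824) (Nat.add B.hi 1073741824))
      (Nat.mul (Nat.sub E 1073741824) (Nat.add B.hi 1073741824)))
    (Nat.mul (Nat.mul (Nat.mul 2147483648 (Nat.sub (Nat.add B.lo 1073741824) s.hi))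
      (Nat.add E 1073741824)) (Nat.add E 1073741824)))

/-! ### The rectangles -/

/-- A rectangle for `y` and a rectangle for the slope, in units of `1 / 1000`. -/
structure YR where
  x0 : ℕ
  x1 : ℕ
  e0 : ℤ
  e1 : ℤ
  l0 : ℤ
  l1 : ℤ
  m0 : ℤ
  m1 : ℤ

/-- `1 / |κ| ^ 2`. -/
def XR (r : Rg) : N := ⟨Nat.div 1073741824000000 (Nat.mul r.k1 r.k1),
  Nat.succ (Nat.div 1073741824000000 (Nat.mul r.k0 r.k0))⟩
/-- `tan φ`. -/
def TR (r : Rg) : N := rng r.t0 r.t1 1000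

def bbf (f : N → N → N → ℕ → ℕ → Bool) (S : Bool) (r q : Rg) : Bool :=
  bbw (cell f S) 1 2 1 2 50 (XR r) (TR r) (XR q) (TR q)

def ckE1 (S : Bool) (r q : Rg) : ℤ → Bool
  | Int.ofNat n => bbf (f2 (EN n).lo) S r q
  | Int.negSucc n => bif S then false else bbf (f4 (EN (n + 1)).hi) false q r
def ckE0 (S : Bool) (r q : Rg) : ℤ → Bool
  | Int.ofNat 0 => bif S then true else bbf (f2 (EN 0).lo) false q r
  | Int.ofNat (n + 1) => bbf (f4 (EN (n + 1)).hi) S r q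
  | Int.negSucc n => bif S then true else bbf (f2 (EN (n + 1)).lo) false q r

/-- `(p / q) ^ 2 ≤ exp (l / 1000)`. -/
def ckL1 (p q : ℕ) : ℤ → Bool
  | Int.ofNat n => Nat.ble (Nat.mul (Nat.mul p p) (Nat.pow 2 (Nat.mul 40 n)))
      (Nat.mul (Nat.mul q q) (Nat.pow 1100611689342 n))
  | Int.negSucc n => Nat.ble (Nat.mul (Nat.mul p p) (Nat.pow 1100611689343 (n + 1)))
      (Nat.mul (Nat.mul q q) (Nat.pow 2 (Nat.mul 40 (n + 1))))
/-- `exp (l / 1000) ≤ (p / q) ^ 2`. -/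
def ckL0 (p q : ℕ) : ℤ → Bool
  | Int.ofNat n => Nat.ble (Nat.mul (Nat.mul q q) (Nat.pow 1100611689343 n))
      (Nat.mul (Nat.mul p p) (Nat.pow 2 (Nat.mul 40 n)))
  | Int.negSucc n => Nat.ble (Nat.mul (Nat.mul q q) (Nat.pow 2 (Nat.mul 40 (n + 1))))
      (Nat.mul (Nat.mul p p) (Nat.pow 1100611689342 (n + 1)))

/-- `a - b ≤ l U`. -/
def leI (a b : ℕ) : ℤ → Bool
  | Int.ofNat n => Nat.ble a (Nat.add (Nat.mul n 1073741824) b)
  | Int.negSucc n => Nat.ble (Nat.add a (Nat.mul (n + 1) 1073741824)) b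
/-- `l U ≤ a - b`. -/
def geI (a b : ℕ) : ℤ → Bool
  | Int.ofNat n => Nat.ble (Nat.add (Nat.mul n 1073741824) b) a
  | Int.negSucc n => Nat.ble b (Nat.add a (Nat.mul (n + 1) 1073741824))

/-- The imaginary part of the slope, from the angles of the two ends. -/
def ckM' (S : Bool) (m0 m1 : ℤ) (a b c d : N) : Bool :=
  bif S then leI (Nat.mul 2000 b.hi) (Nat.mul 2000 c.lo) m1 && geI (Nat.mul 2000 a.lo) (Nat.mul 2000 d.hi) m0
  else leI (Nat.mul 2000 (Nat.add b.hi d.hi)) 0 m1 && geI (Nat.mul 2000 (Nat.add a.lo c.lo)) 0 m0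
def ckM (S : Bool) (r q : Rg) (m0 m1 : ℤ) : Bool :=
  ckM' S m0 m1 (AT (cst r.t0 1000)) (AT (cst r.t1 1000)) (AT (cst q.t0 1000)) (AT (cst q.t1 1000))

def ybx (S : Bool) (r q : Rg) (Y : YR) : Bool :=
  Nat.ble 1 r.k0 && (Nat.ble 1 q.k0 && (Nat.ble r.t1 1000 && (Nat.ble q.t1 1000 &&
  (Nat.ble Y.x0 500 && (Nat.ble Y.x1 500 && (ckL1 q.k1 r.k0 Y.l1 && (ckL0 q.k0 r.k1 Y.l0 && (ckM S r q Y.m0 Y.m1 &&
  (bbf (f0 (DN Y.x1).hi) S r q && (bbf (f1 (DN Y.x0).lo) S r q &&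
  (ckE1 S r q Y.e1 && ckE0 S r q Y.e0)))))))))))

end Pool.Agent.S5.YX
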