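import Pool.Agent.S5.I.YX
import Pool.Agent.S5.I.VBn
import Pool.Agent.S3.NIF

/-!
# Rectangles for the critical points of the edges: constants and cells
-/

set_option autoImplicit false

namespace Pool.Agent.S5.YX

open Pool.Agent.S3.NI Pool.Agent.S5.E.B2

variable {x y : ℝ} {A B C : N}

theorem mem_pt (n : ℕ) : Mem ((n : ℝ) / 1073741824) (pt n) := by
  constructor <;> · show _ ≤ _; simp [pt]

theorem mem_ang (n : ℕ) : Mem (Real.pi * n / 4000) (ang n) := by
  have h1 := pi_lo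
  have h2 := pi_hi
  have hn : (0 : ℝ) ≤ n := Nat.cast_nonneg _
  constructor
  · refine (nat_div_le _ _).trans ?_
    push_cast
    rw [div_mul_eq_mul_div, div_le_div_iff_of_pos_right (by norm_num)]
    show ((3373259426 * n : ℕ) : ℝ) ≤ _
    push_cast
    nlinarith
  · refine le_trans ?_ (le_succ_div _ (by norm_num))
    push_cast
    rw [div_mul_eq_mul_div, div_le_div_iff_of_pos_right (by norm_num)]
    show _ ≤ ((3373259428 * n : ℕ) : ℝ)
    push_cast
    nlinarith

theorem mem_cs1 (h0 : 0 ≤ x) (h1 : x ≤ 1) (h : Mem (x ^ 2) A) : Mem (Real.cos x) (cs1 A) := by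
  have k6 := VB.tr_c6 h0
  have k8 := VB.tr_c8 h0
  have e4 : Mem (x ^ 4) A.sq := by
    have := h.sq
    rwa [← pow_mul] at this
  have e6 : Mem (x ^ 6) (A.mul A.sq) := by
    have := h.mul e4
    rwa [← pow_add] at this
  have e8 : Mem (x ^ 8) A.sq.sq := by
    have := e4.sq
    rwa [← pow_mul] at this
  have p2 := (h.dv (n := 2) (by norm_num)).add (e6.dv (n := 720) (by norm_num))
  have p1 := mem_one.add (e4.dv (n := 24) (by norm_num))
  have p3 := p1.add (e8.dv (n := 40320) (by norm_num))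
  have b2 : x ^ 2 ≤ 1 := pow_le_one₀ h0 h1
  have b4 : 0 ≤ x ^ 4 := by positivity
  have b8 : 0 ≤ x ^ 8 := by positivity
  have b6 : x ^ 6 ≤ 1 := pow_le_one₀ h0 h1
  have q1 := p1.sub p2 (by push_cast; linarith)
  have q2 := p3.sub p2 (by push_cast; linarith)
  have hU : (0 : ℝ) < 1073741824 := by norm_num
  constructor
  · refine q1.1.trans (mul_le_mul_of_nonneg_right ?_ hU.le)
    push_cast
    linarith
  · refine le_trans (mul_le_mul_of_nonneg_right ?_ hU.le) q2.2
    push_cast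
    linarith

theorem mem_dbl (h : Mem (Real.cos x) A) (h1 : 0 ≤ Real.cos (2 * x)) :
    Mem (Real.cos (2 * x)) (dbl A) := by
  rw [Real.cos_two_mul] at h1 ⊢
  have := (h.sq.sm 2).sub mem_one (by push_cast; linarith)
  push_cast at this
  exact this

theorem mem_DN {n : ℕ} (hn : n ≤ 500) :
    Mem (1 + Real.cos (2 * Real.pi * (n / 1000))) (DN n) := by
  have hpi := Real.pi_pos
  have hpi2 := Real.pi_lt_d2
  have hn0 : (0 : ℝ) ≤ n := Nat.cast_nonneg _
  have hn1 : (n : ℝ) ≤ 500 := by exact_mod_cast hn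
  set t : ℝ := Real.pi * n / 4000 with ht
  have t0 : 0 ≤ t := by positivity
  have t1 : t ≤ Real.pi / 8 := by
    rw [ht, div_le_div_iff₀ (by norm_num) (by norm_num)]
    nlinarith
  have k1 := mem_cs1 t0 (by linarith) (mem_ang n).sq
  have k2 := mem_dbl k1 (Real.cos_nonneg_of_neg_pi_div_two_le_of_le (by linarith) (by linarith))
  have k3 := mem_dbl k2 (Real.cos_nonneg_of_neg_pi_div_two_le_of_le (by linarith) (by linarith))
  have k4 := k3.sq.sm 2
  have e : 1 + Real.cos (2 * Real.pi * (n / 1000)) = ((2 : ℕ) : ℝ) * Real.cos (2 * (2 * t)) ^ 2 := by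
    have : 2 * Real.pi * (n / 1000) = 2 * (2 * (2 * t)) := by
      rw [ht]
      ring
    rw [this, Real.cos_two_mul (2 * (2 * t))]
    push_cast
    ring
  rw [e]
  exact k4

theorem exp4_lo : (1113415677134 : ℝ) / 1099511627776 ≤ Real.exp (4 * Real.pi / 1000) := by
  have h1 := Real.pi_gt_d20
  set t : ℝ := 4 * Real.pi / 1000 with ht
  have h2 : (0.01256637061435917295 : ℝ) ≤ t := by rw [ht]; norm_num at h1 ⊢; linarith
  refine le_trans ?_ (Real.exp_le_exp.2 h2)
  have := Real.sum_le_exp_of_nonneg (x := 0.01256637061435917295) (by norm_num) 6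
  refine le_trans ?_ this
  norm_num [Finset.sum_range_succ, Nat.factorial]

theorem exp4_hi : Real.exp (4 * Real.pi / 1000) ≤ (1113415677135 : ℝ) / 1099511627776 := by
  have h1 := Real.pi_lt_d20
  set t : ℝ := 4 * Real.pi / 1000 with ht
  have h2 : t ≤ (0.01256637061435917339 : ℝ) := by rw [ht]; norm_num at h1 ⊢; linarith
  refine le_trans (Real.exp_le_exp.2 h2) ?_
  have := Real.exp_bound' (x := 0.01256637061435917339) (by norm_num) (by norm_num) (n := 6)
    (by norm_num)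
  refine le_trans this ?_
  norm_num [Finset.sum_range_succ, Nat.factorial]

theorem exp1_lo : (1100611689342 : ℝ) / 1099511627776 ≤ Real.exp (1 / 1000) := by
  have := Real.sum_le_exp_of_nonneg (x := 1 / 1000) (by norm_num) 6
  refine le_trans ?_ this
  norm_num [Finset.sum_range_succ, Nat.factorial]

theorem exp1_hi : Real.exp (1 / 1000) ≤ (1100611689343 : ℝ) / 1099511627776 := by
  have := Real.exp_bound' (x := 1 / 1000) (by norm_num) (by norm_num) (n := 6)
    (by norm_num)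
  refine le_trans this ?_
  norm_num [Finset.sum_range_succ, Nat.factorial]

theorem exp_nat (u : ℝ) (n : ℕ) : Real.exp (u * n) = Real.exp u ^ n := by
  rw [mul_comm, Real.exp_nat_mul]

theorem mem_EN (n : ℕ) : Mem (Real.exp (4 * Real.pi * (n / 1000))) (EN n) := by
  have e : Real.exp (4 * Real.pi * (n / 1000)) = Real.exp (4 * Real.pi / 1000) ^ n := by
    rw [← exp_nat]
    congr 1
    ring
  have h1 := pow_le_pow_left₀ (by norm_num) exp4_lo n
  have h2 := pow_le_pow_left₀ (Real.exp_pos _).le exp4_hi n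
  rw [e]
  have hp : ((2 : ℝ) ^ (40 * n)) = (1099511627776 : ℝ) ^ n := by
    rw [pow_mul]
    norm_num
  rw [div_pow] at h1 h2
  constructor
  · refine (nat_div_le _ _).trans ?_
    have e1 : ((Nat.mul (Nat.pow 1113415677134 n) 1073741824 : ℕ) : ℝ) =
        (1113415677134 : ℝ) ^ n * 1073741824 := by
      show ((1113415677134 ^ n * 1073741824 : ℕ) : ℝ) = _
      push_cast
      ring
    have e2 : ((Nat.pow 2 (Nat.mul 40 n) : ℕ) : ℝ) = (1099511627776 : ℝ) ^ n := by
      show ((2 ^ (40 * n) : ℕ) : ℝ) = _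
      push_cast
      exact hp
    rw [e1, e2, mul_div_right_comm]
    exact mul_le_mul_of_nonneg_right h1 (by norm_num)
  · refine le_trans ?_ (le_succ_div _ (show 0 < 2 ^ (40 * n) by positivity))
    have e1 : ((Nat.mul (Nat.pow 1113415677135 n) 1073741824 : ℕ) : ℝ) =
        (1113415677135 : ℝ) ^ n * 1073741824 := by
      show ((1113415677135 ^ n * 1073741824 : ℕ) : ℝ) = _
      push_cast
      ring
    have e2 : ((Nat.pow 2 (Nat.mul 40 n) : ℕ) : ℝ) = (1099511627776 : ℝ) ^ n := by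
      show ((2 ^ (40 * n) : ℕ) : ℝ) = _
      push_cast
      exact hp
    rw [e1, e2, mul_div_right_comm (a := (1113415677135 : ℝ) ^ n)]
    exact mul_le_mul_of_nonneg_right h2 (by norm_num : (0 : ℝ) ≤ 1073741824)

/-! ### The arc tangent -/

theorem geom_pos {x : ℝ} : 0 ≤ 1 / (1 + x ^ 2) - (1 - x ^ 2 + x ^ 4 - x ^ 6 + x ^ 8 - x ^ 10) := by
  have h : 0 < 1 + x ^ 2 := by positivity
  have e : 1 / (1 + x ^ 2) - (1 - x ^ 2 + x ^ 4 - x ^ 6 + x ^ 8 - x ^ 10) = x ^ 12 / (1 + x ^ 2) := by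
    field_simp
    ring
  rw [e]
  positivity

theorem geom_pos' {x : ℝ} :
    0 ≤ (1 - x ^ 2 + x ^ 4 - x ^ 6 + x ^ 8 - x ^ 10 + x ^ 12) - 1 / (1 + x ^ 2) := by
  have h : 0 < 1 + x ^ 2 := by positivity
  have e : (1 - x ^ 2 + x ^ 4 - x ^ 6 + x ^ 8 - x ^ 10 + x ^ 12) - 1 / (1 + x ^ 2) =
      x ^ 14 / (1 + x ^ 2) := by
    field_simp
    ring
  rw [e]
  positivity

theorem atan_lo {x : ℝ} (hx : 0 ≤ x) :
    x - x ^ 3 / 3 + x ^ 5 / 5 - x ^ 7 / 7 + x ^ 9 / 9 - x ^ 11 / 11 ≤ Real.arctan x := by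
  have h := VB.pos_of_deriv
    (f := fun x => Real.arctan x - (x - x ^ 3 / 3 + x ^ 5 / 5 - x ^ 7 / 7 + x ^ 9 / 9 - x ^ 11 / 11))
    (f' := fun x => 1 / (1 + x ^ 2) - (1 - x ^ 2 + x ^ 4 - x ^ 6 + x ^ 8 - x ^ 10))
    (fun x => by
      have h1 := (Real.hasDerivAt_arctan x).sub ((((((hasDerivAt_id' x).sub
        ((hasDerivAt_pow 3 x).div_const 3)).add
        ((hasDerivAt_pow 5 x).div_const 5)).sub ((hasDerivAt_pow 7 x).div_const 7)).add
        ((hasDerivAt_pow 9 x).div_const 9)).sub ((hasDerivAt_pow 11 x).div_const 11))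
      refine h1.congr_deriv ?_
      norm_num
      try ring)
    (by simp) (fun x _ => geom_pos) hx
  linarith

theorem atan_hi {x : ℝ} (hx : 0 ≤ x) : Real.arctan x ≤
    x - x ^ 3 / 3 + x ^ 5 / 5 - x ^ 7 / 7 + x ^ 9 / 9 - x ^ 11 / 11 + x ^ 13 / 13 := by
  have h := VB.pos_of_deriv
    (f := fun x => (x - x ^ 3 / 3 + x ^ 5 / 5 - x ^ 7 / 7 + x ^ 9 / 9 - x ^ 11 / 11 + x ^ 13 / 13) -
      Real.arctan x)
    (f' := fun x => (1 - x ^ 2 + x ^ 4 - x ^ 6 + x ^ 8 - x ^ 10 + x ^ 12) - 1 / (1 + x ^ 2))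
    (fun x => by
      have h1 := (((((((hasDerivAt_id' x).sub
        ((hasDerivAt_pow 3 x).div_const 3)).add
        ((hasDerivAt_pow 5 x).div_const 5)).sub ((hasDerivAt_pow 7 x).div_const 7)).add
        ((hasDerivAt_pow 9 x).div_const 9)).sub ((hasDerivAt_pow 11 x).div_const 11)).add
        ((hasDerivAt_pow 13 x).div_const 13)).sub (Real.hasDerivAt_arctan x)
      refine h1.congr_deriv ?_
      norm_num
      try ring)
    (by simp) (fun x _ => geom_pos') hx
  linarith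

theorem mem_at0 (h0 : 0 ≤ x) (h1 : x ≤ 1) (h : Mem x A) : Mem (Real.arctan x) (at0 A) := by
  have k1 := atan_lo h0
  have k2 := atan_hi h0
  have e2 : Mem (x ^ 2) A.sq := h.sq
  have e4 : Mem (x ^ 4) A.sq.sq := by
    have := e2.sq
    rwa [← pow_mul] at this
  have e6 : Mem (x ^ 6) (A.sq.mul A.sq.sq) := by
    have := e2.mul e4
    rwa [← pow_add] at this
  have p3 : Mem (x ^ 3) (A.mul A.sq) := by
    have := h.mul e2
    rwa [← pow_succ'] at this
  have p5 : Mem (x ^ 5) (A.mul A.sq.sq) := by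
    have := h.mul e4
    rwa [← pow_succ'] at this
  have p7 : Mem (x ^ 7) (A.mul (A.sq.mul A.sq.sq)) := by
    have := h.mul e6
    rwa [← pow_succ'] at this
  have p9 : Mem (x ^ 9) (A.mul A.sq.sq.sq) := by
    have := h.mul e4.sq
    rwa [← pow_mul, ← pow_succ'] at this
  have p11 : Mem (x ^ 11) (A.mul (A.sq.sq.mul (A.sq.mul A.sq.sq))) := by
    have := h.mul (e4.mul e6)
    rwa [← pow_add, ← pow_succ'] at this
  have p13 : Mem (x ^ 13) (A.mul (A.sq.mul A.sq.sq).sq) := by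
    have := h.mul e6.sq
    rwa [← pow_mul, ← pow_succ'] at this
  have n1 := ((p3.dv (n := 3) (by norm_num)).add (p7.dv (n := 7) (by norm_num))).add
    (p11.dv (n := 11) (by norm_num))
  have q1 := (h.add (p5.dv (n := 5) (by norm_num))).add (p9.dv (n := 9) (by norm_num))
  have q2 := q1.add (p13.dv (n := 13) (by norm_num))
  have b3 : x ^ 3 ≤ x := by nlinarith [pow_le_one₀ (n := 2) h0 h1, mul_nonneg h0 h0]
  have b7 : x ^ 7 ≤ x ^ 5 := pow_le_pow_of_le_one h0 h1 (by norm_num)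
  have b11 : x ^ 11 ≤ x ^ 9 := pow_le_pow_of_le_one h0 h1 (by norm_num)
  have c5 : 0 ≤ x ^ 5 := by positivity
  have c9 : 0 ≤ x ^ 9 := by positivity
  have c13 : 0 ≤ x ^ 13 := by positivity
  have r1 := q1.sub n1 (by push_cast; linarith)
  have r2 := q2.sub n1 (by push_cast; linarith)
  have hU : (0 : ℝ) < 1073741824 := by norm_num
  constructor
  · refine r1.1.trans (mul_le_mul_of_nonneg_right ?_ hU.le)
    push_cast
    linarith
  · refine le_trans (mul_le_mul_of_nonneg_right ?_ hU.le) r2.2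
    push_cast
    linarith

theorem mem_AT (h0 : 0 ≤ x) (h : Mem x A) : Mem (Real.arctan x) (AT A) := by
  have hs : 1 ≤ Real.sqrt (1 + x ^ 2) := Real.one_le_sqrt.2 (by nlinarith [sq_nonneg x])
  have hsq := Real.sq_sqrt (by positivity : (0 : ℝ) ≤ 1 + x ^ 2)
  set w := Real.sqrt (1 + x ^ 2)
  have k : Real.arctan x = 2 * Real.arctan (x * (1 + w)⁻¹) := by
    have hx1 : x * (1 + w)⁻¹ < 1 := by
      rw [← div_eq_mul_inv, div_lt_one (by linarith)]
      by_contra hc
      push Not at hc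
      nlinarith
    rw [Real.two_mul_arctan (by have : 0 ≤ x * (1 + w)⁻¹ := by positivity
                                linarith) hx1]
    congr 1
    have h1 : 0 < 1 + w := by linarith
    have h2 : (1 + w) ^ 2 - x ^ 2 = 2 * (1 + w) := by nlinarith
    rw [← div_eq_mul_inv]
    have h3 : 1 - (x / (1 + w)) ^ 2 = 2 / (1 + w) := by
      field_simp
      linarith
    rw [h3]
    field_simp
  have x0 : 0 ≤ x * (1 + w)⁻¹ := by positivity
  have x1 : x * (1 + w)⁻¹ ≤ 1 := by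
    rw [← div_eq_mul_inv, div_le_one (by linarith)]
    by_contra hc
    push Not at hc
    nlinarith
  have m1 := mem_rt (mem_one.add h.sq) (by positivity)
  have m2 := mem_one.add m1
  have m3 := h.mul (m2.inv (by
    unfold N.ps
    apply Nat.ble_eq_true_of_le
    show 1 ≤ Nat.add 1073741824 _
    exact le_trans (by norm_num) (Nat.le_add_right _ _)))
  rw [k]
  have := (mem_at0 x0 x1 m3).sm 2
  push_cast at this
  exact this

/-! ### Cosine and sine of the double angle -/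

theorem mem_Dn (t : ℕ) : Mem (1 / (1 + ((t : ℝ) / 1073741824) ^ 2)) (Dn t) := by
  have h := mem_one.add (mem_pt t).sq
  rw [one_div]
  refine h.inv ?_
  unfold N.ps
  apply Nat.ble_eq_true_of_le
  show 1 ≤ Nat.add 1073741824 _
  exact le_trans (by norm_num) (Nat.le_add_right _ _)

theorem mem_cn (t : ℕ) : Mem (max (2 / (1 + ((t : ℝ) / 1073741824) ^ 2) - 1) 0) (cn t) := by
  have h := E.B2.Mem.subp ((mem_Dn t).sm 2) mem_one
  push_cast at h
  rw [mul_one_div] at h
  exact h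

theorem mem_sn (t : ℕ) : Mem (2 * ((t : ℝ) / 1073741824) / (1 + ((t : ℝ) / 1073741824) ^ 2)) (sn t) := by
  have h := ((mem_pt t).mul (mem_Dn t)).sm 2
  push_cast at h
  rw [mul_one_div, ← mul_div_assoc] at h
  exact h

theorem cos2_anti {u v : ℝ} (h0 : 0 ≤ u) (h : u ≤ v) : 2 / (1 + v ^ 2) - 1 ≤ 2 / (1 + u ^ 2) - 1 := by
  have : 2 / (1 + v ^ 2) ≤ 2 / (1 + u ^ 2) :=
    div_le_div_of_nonneg_left (by norm_num) (by positivity) (by nlinarith)
  linarith

theorem sin2_mono {u v : ℝ} (h0 : 0 ≤ u) (h : u ≤ v) (hv : v ≤ 1) :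
    2 * u / (1 + u ^ 2) ≤ 2 * v / (1 + v ^ 2) := by
  rw [div_le_div_iff₀ (by positivity) (by positivity)]
  nlinarith [mul_nonneg (sub_nonneg.2 h) (by nlinarith : (0 : ℝ) ≤ 1 - u * v)]

theorem mem_mk {u v : ℝ} (h1 : Mem u A) (h2 : Mem v B) (hu : u ≤ x) (hv : x ≤ v) :
    Mem x (mk A B) :=
  ⟨h1.1.trans (mul_le_mul_of_nonneg_right hu (by norm_num)),
    le_trans (mul_le_mul_of_nonneg_right hv (by norm_num)) h2.2⟩

theorem mem_CA {t : ℝ} {A : N} (h0 : 0 ≤ t) (h1 : t ≤ 1) (h : Mem t A) :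
    Mem (2 / (1 + t ^ 2) - 1) (CA A) := by
  have hU : (0 : ℝ) < 1073741824 := by norm_num
  have k0 : 0 ≤ 2 / (1 + t ^ 2) - 1 := by
    rw [sub_nonneg, le_div_iff₀ (by positivity)]
    nlinarith
  have a1 : (A.lo : ℝ) / 1073741824 ≤ t := by
    rw [div_le_iff₀ hU]
    exact h.1
  have a2 : t ≤ (A.hi : ℝ) / 1073741824 := by
    rw [le_div_iff₀ hU]
    exact h.2
  exact mem_mk (mem_cn A.hi) (mem_cn A.lo) (max_le (cos2_anti h0 a2) k0)
    (le_max_of_le_left (cos2_anti (by positivity) a1))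

theorem mem_SA {t : ℝ} {A : N} (h0 : 0 ≤ t) (h1 : t ≤ 1) (h : Mem t A) :
    Mem (2 * t / (1 + t ^ 2)) (SA A) := by
  have hU : (0 : ℝ) < 1073741824 := by norm_num
  have a1 : (A.lo : ℝ) / 1073741824 ≤ t := by
    rw [div_le_iff₀ hU]
    exact h.1
  have a2 : t * 1073741824 ≤ ((mn A.hi 1073741824 : ℕ) : ℝ) := by
    apply mn_mem h.2
    rw [Nat.cast_ofNat]
    nlinarith
  have a3 : ((mn A.hi 1073741824 : ℕ) : ℝ) / 1073741824 ≤ 1 := by
    rw [div_le_one hU]
    have := (mn_le (a := A.hi) (b := 1073741824)).2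
    calc ((mn A.hi 1073741824 : ℕ) : ℝ) ≤ ((1073741824 : ℕ) : ℝ) := Nat.cast_le.2 this
      _ = 1073741824 := by norm_num
  exact mem_mk (mem_sn A.lo) (mem_sn (mn A.hi 1073741824)) (sin2_mono (by positivity) a1 h1)
    (sin2_mono h0 (by rw [le_div_iff₀ hU]; exact a2) a3)

end Pool.Agent.S5.YX
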