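import Pool.Agent.S5.I.YXC
import Pool.Agent.S5.G.SlotM

/-!
# Rectangles for the critical points of the edges: soundness
-/

set_option autoImplicit false

namespace Pool.Agent.S5.YX

open Pool.Agent.S3.NI Pool.Agent.S5.E.B2

/-! ### The real functions of a cell -/

/-- The data of a point: `s = s₁ + i s₂`, `n = |s - 1|`, `q = |s| ^ 2`. -/
structure Pt (s₁ s₂ n q : ℝ) : Prop where
  n0 : 0 ≤ n
  nn : n ^ 2 = (s₁ - 1) ^ 2 + s₂ ^ 2
  qq : q = s₁ ^ 2 + s₂ ^ 2

/-- What a test proves. -/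
def Snd (f : N → N → N → ℕ → ℕ → Bool) (Q : ℝ → ℝ → ℝ → ℝ → Prop) : Prop :=
  ∀ A B C h g, f A B C h g = true → ∀ s₁ s₂ n q : ℝ, Pt s₁ s₂ n q → Mem s₁ A → Mem n B → Mem q C →
    s₂ * 1073741824 ≤ (h : ℝ) → (1 ≤ g → (g : ℝ) ≤ s₂ * 1073741824) → Q s₁ s₂ n q

def sgb (S : Bool) : ℝ := if S then 1 else -1

theorem cell2_sound {f : N → N → N → ℕ → ℕ → Bool} {Q : ℝ → ℝ → ℝ → ℝ → Prop} (hf : Snd f Q)
    {S : Bool} {P₁ P₂ Q₁ Q₂ : N} (h : cell2 f S P₁ P₂ Q₁ Q₂ = true) {p₁ p₂ q₁ q₂ : ℝ}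
    (hp₁ : Mem p₁ P₁) (hp₂ : Mem p₂ P₂) (hq₁ : Mem q₁ Q₁) (hq₂ : Mem q₂ Q₂) :
    Q (p₁ + q₁) (p₂ + sgb S * q₂)
      (Real.sqrt ((p₁ + q₁ - 1) ^ 2 + (p₂ + sgb S * q₂) ^ 2))
      ((p₁ + q₁) ^ 2 + (p₂ + sgb S * q₂) ^ 2) := by
  have hpt : Pt (p₁ + q₁) (p₂ + sgb S * q₂)
      (Real.sqrt ((p₁ + q₁ - 1) ^ 2 + (p₂ + sgb S * q₂) ^ 2))
      ((p₁ + q₁) ^ 2 + (p₂ + sgb S * q₂) ^ 2) :=
    ⟨Real.sqrt_nonneg _, Real.sq_sqrt (by positivity), rfl⟩
  cases S
  · have ha : Mem |p₂ - q₂| (P₂.ad Q₂) := hp₂.ad hq₂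
    have e : (p₂ + sgb false * q₂) ^ 2 = |p₂ - q₂| ^ 2 := by
      rw [sq_abs]
      show (p₂ + (if false = true then (1 : ℝ) else -1) * q₂) ^ 2 = _
      rw [if_neg (by decide)]
      ring
    have k := h
    change cell3 f (P₁.add Q₁) (P₂.ad Q₂) (Nat.sub P₂.hi Q₂.lo) (Nat.sub P₂.lo Q₂.hi) = true at k
    refine hf _ _ _ _ _ k _ _ _ _ hpt (hp₁.add hq₁) ?_ ?_ ?_ ?_
    · refine mem_rt ?_ (by positivity)
      rw [e]
      exact (((hp₁.add hq₁).ad mem_one).sq_abs).add ha.sq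
    · rw [e]
      exact (hp₁.add hq₁).sq.add ha.sq
    · have e2 : p₂ + sgb false * q₂ = p₂ - q₂ := by
        show p₂ + (if false = true then (1 : ℝ) else -1) * q₂ = _
        rw [if_neg (by decide)]
        ring
      rw [e2]
      apply le_nsub
      nlinarith [hp₂.2, hq₂.1]
    · intro hg
      have e2 : p₂ + sgb false * q₂ = p₂ - q₂ := by
        show p₂ + (if false = true then (1 : ℝ) else -1) * q₂ = _
        rw [if_neg (by decide)]
        ring
      rw [e2]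
      have h1 : Q₂.hi ≤ P₂.lo := by
        by_contra hc
        have : Nat.sub P₂.lo Q₂.hi = 0 := Nat.sub_eq_zero_of_le (by omega)
        omega
      have h2 : ((Nat.sub P₂.lo Q₂.hi : ℕ) : ℝ) = (P₂.lo : ℝ) - Q₂.hi := Nat.cast_sub h1
      rw [h2]
      nlinarith [hp₂.1, hq₂.2]
  · have e2 : p₂ + sgb true * q₂ = p₂ + q₂ := by
      show p₂ + (if true = true then (1 : ℝ) else -1) * q₂ = _
      rw [if_pos rfl]
      ring
    rw [e2] at hpt ⊢
    have k := h
    change cell3 f (P₁.add Q₁) (P₂.add Q₂) (Nat.add P₂.hi Q₂.hi) (Nat.add P₂.lo Q₂.lo) = true at k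
    refine hf _ _ _ _ _ k _ _ _ _ hpt (hp₁.add hq₁) ?_ ?_ ?_ ?_
    · refine mem_rt ?_ (by positivity)
      exact (((hp₁.add hq₁).ad mem_one).sq_abs).add (hp₂.add hq₂).sq
    · exact (hp₁.add hq₁).sq.add (hp₂.add hq₂).sq
    · exact (hp₂.add hq₂).2
    · intro _
      exact (hp₂.add hq₂).1

/-- real and imaginary part of `(1 + i t) ^ 2 / (1 + t ^ 2)`. -/
noncomputable def rc (t : ℝ) : ℝ := 2 / (1 + t ^ 2) - 1
noncomputable def rs (t : ℝ) : ℝ := 2 * t / (1 + t ^ 2)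

/-- The claim for a test. -/
def Cl (S : Bool) (Q : ℝ → ℝ → ℝ → ℝ → Prop) (X t Z u : ℝ) : Prop :=
  0 ≤ t → t ≤ 1 → 0 ≤ u → u ≤ 1 →
    Q (X * rc t + Z * rc u) (X * rs t + sgb S * (Z * rs u))
      (Real.sqrt ((X * rc t + Z * rc u - 1) ^ 2 + (X * rs t + sgb S * (Z * rs u)) ^ 2))
      ((X * rc t + Z * rc u) ^ 2 + (X * rs t + sgb S * (Z * rs u)) ^ 2)

theorem cell_sound {f : N → N → N → ℕ → ℕ → Bool} {Q : ℝ → ℝ → ℝ → ℝ → Prop} (hf : Snd f Q)
    {S : Bool} (A B C D : N) (h : cell f S A B C D = true) (X t Z u : ℝ) (hX : Mem X A)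
    (ht : Mem t B) (hZ : Mem Z C) (hu : Mem u D) : Cl S Q X t Z u := by
  intro t0 t1 u0 u1
  exact cell2_sound hf h (hX.mul (mem_CA t0 t1 ht)) (hX.mul (mem_SA t0 t1 ht))
    (hZ.mul (mem_CA u0 u1 hu)) (hZ.mul (mem_SA u0 u1 hu))

/-! ### The tests -/

theorem sub_sub_cast (a b : ℕ) : ((Nat.sub a b : ℕ) : ℝ) - ((Nat.sub b a : ℕ) : ℝ) = (a : ℝ) - b := by
  rcases le_total a b with h | h
  · have e : Nat.sub a b = 0 := Nat.sub_eq_zero_of_le h
    have e2 : ((Nat.sub b a : ℕ) : ℝ) = (b : ℝ) - a := Nat.cast_sub h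
    rw [e, e2]
    push_cast
    ring
  · have e : Nat.sub b a = 0 := Nat.sub_eq_zero_of_le h
    have e2 : ((Nat.sub a b : ℕ) : ℝ) = (a : ℝ) - b := Nat.cast_sub h
    rw [e, e2]
    push_cast
    ring

theorem ble_cast {a b : ℕ} (h : Nat.ble a b = true) : (a : ℝ) ≤ b := Nat.cast_le.2 (Nat.le_of_ble_eq_true h)

/-- `n + C |s| ≤ 1`, `C = D / U - 1`. -/
def Q0 (D : ℕ) (_ _ n q : ℝ) : Prop := n + ((D : ℝ) / 1073741824 - 1) * Real.sqrt q ≤ 1
def Q1 (D : ℕ) (_ _ n q : ℝ) : Prop := 1 ≤ n + ((D : ℝ) / 1073741824 - 1) * Real.sqrt q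

theorem Pt.n2 {s₁ s₂ n q : ℝ} (h : Pt s₁ s₂ n q) : n ^ 2 = q - 2 * s₁ + 1 := by
  rw [h.nn, h.qq]
  ring

theorem f0_real {U C D a b s₁ n m q Bh Mh Ml qh sl z : ℝ} (hU : 0 < U) (hC : C = D / U - 1)
    (hab : a - b = D - U) (ha : 0 ≤ a) (hb : 0 ≤ b) (hD : 0 ≤ D) (hz : 2 * U - D ≤ z)
    (hz0 : 0 ≤ z) (hn : n ^ 2 = q - 2 * s₁ + 1) (hm : m ^ 2 = q)
    (hm0 : 0 ≤ m) (hq0 : 0 ≤ q) (hB : n * U ≤ Bh) (hMh : m * U ≤ Mh) (hMl : Ml ≤ m * U)
    (hqh : q * U ≤ qh) (hsl : sl ≤ s₁ * U)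
    (h : Bh * U + a * Mh ≤ U ^ 2 + b * Ml ∨
      (a * Mh ≤ U ^ 2 ∧ z * D * qh + 2 * U * (a * Mh) ≤ 2 * U ^ 2 * sl + 2 * U * (b * Ml))) :
    n + C * m ≤ 1 := by
  have hCU : C * U = a - b := by
    rw [hC, hab]
    field_simp
  rcases h with h | ⟨h1, h2⟩
  · have k : (n + C * m) * U ^ 2 ≤ 1 * U ^ 2 := by
      have e : (n + C * m) * U ^ 2 = n * U * U + (a - b) * (m * U) := by
        rw [← hCU]
        ring
      rw [e, one_mul]
      nlinarith [mul_le_mul_of_nonneg_left hMh ha, mul_le_mul_of_nonneg_left hMl hb,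
        mul_le_mul_of_nonneg_right hB hU.le]
    exact le_of_mul_le_mul_right k (by positivity)
  · have k0 : 0 ≤ 1 - C * m := by
      have : C * m * U ^ 2 ≤ 1 * U ^ 2 := by
        have e : C * m * U ^ 2 = (a - b) * (m * U) := by
          rw [← hCU]
          ring
        rw [e, one_mul]
        nlinarith [mul_le_mul_of_nonneg_left hMh ha, mul_nonneg hb (mul_nonneg hm0 hU.le)]
      have := le_of_mul_le_mul_right this (by positivity)
      linarith
    have k1 : n ^ 2 ≤ (1 - C * m) ^ 2 := by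
      have e1 : (1 - C * m) ^ 2 = q - (2 * U - D) * D / U ^ 2 * q - 2 * (C * m) + 1 := by
        rw [sub_sq, mul_pow, hm]
        have : C ^ 2 = 1 - (2 * U - D) * D / U ^ 2 := by
          rw [hC]
          field_simp
          ring
        rw [this]
        ring
      rw [e1, hn]
      have k2 : ((2 * U - D) * D / U ^ 2 * q + 2 * (C * m)) * U ^ 3 ≤ (2 * s₁) * U ^ 3 := by
        have e2 : ((2 * U - D) * D / U ^ 2 * q + 2 * (C * m)) * U ^ 3 =
            (2 * U - D) * D * (q * U) + 2 * U * ((a - b) * (m * U)) := by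
          rw [← hCU]
          field_simp
        rw [e2]
        have t1 : (2 * U - D) * D * (q * U) ≤ z * D * qh := by
          have u1 : (2 * U - D) * D * (q * U) ≤ z * D * (q * U) :=
            mul_le_mul_of_nonneg_right (mul_le_mul_of_nonneg_right hz hD) (by positivity)
          exact u1.trans (mul_le_mul_of_nonneg_left hqh (by positivity))
        have t2 := mul_le_mul_of_nonneg_left hMh ha
        have t3 := mul_le_mul_of_nonneg_left hMl hb
        have t4 : (a - b) * (m * U) ≤ a * Mh - b * Ml := by nlinarith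
        have t5 := mul_le_mul_of_nonneg_left t4 (by positivity : (0 : ℝ) ≤ 2 * U)
        have t6 := mul_le_mul_of_nonneg_left hsl (by positivity : (0 : ℝ) ≤ 2 * U ^ 2)
        nlinarith
      have := le_of_mul_le_mul_right k2 (by positivity)
      linarith
    have := le_of_sq_le_sq k1 k0
    linarith

theorem f1_real {U C D a b s₁ n m q Bl Mh Ml ql sh z : ℝ} (hU : 0 < U) (hC : C = D / U - 1)
    (hab : a - b = D - U) (ha : 0 ≤ a) (hb : 0 ≤ b) (hD : 0 ≤ D) (hz : z ≤ 2 * U - D)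
    (hz0 : 0 ≤ z) (hn0 : 0 ≤ n) (hn : n ^ 2 = q - 2 * s₁ + 1) (hm : m ^ 2 = q)
    (hq0 : 0 ≤ q) (hB : Bl ≤ n * U) (hMh : m * U ≤ Mh) (hMl : Ml ≤ m * U)
    (hql : ql ≤ q * U) (hsh : s₁ * U ≤ sh)
    (h : U ^ 2 + b * Mh ≤ Bl * U + a * Ml ∨
      2 * U ^ 2 * sh + 2 * U * (b * Mh) ≤ z * D * ql + 2 * U * (a * Ml)) :
    1 ≤ n + C * m := by
  have hCU : C * U = a - b := by
    rw [hC, hab]
    field_simp
  rcases h with h | h2
  · have k : 1 * U ^ 2 ≤ (n + C * m) * U ^ 2 := by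
      have e : (n + C * m) * U ^ 2 = n * U * U + (a - b) * (m * U) := by
        rw [← hCU]
        ring
      rw [e, one_mul]
      nlinarith [mul_le_mul_of_nonneg_left hMh hb, mul_le_mul_of_nonneg_left hMl ha,
        mul_le_mul_of_nonneg_right hB hU.le]
    exact le_of_mul_le_mul_right k (by positivity)
  · have k1 : (1 - C * m) ^ 2 ≤ n ^ 2 := by
      have e1 : (1 - C * m) ^ 2 = q - (2 * U - D) * D / U ^ 2 * q - 2 * (C * m) + 1 := by
        rw [sub_sq, mul_pow, hm]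
        have : C ^ 2 = 1 - (2 * U - D) * D / U ^ 2 := by
          rw [hC]
          field_simp
          ring
        rw [this]
        ring
      rw [e1, hn]
      have k2 : (2 * s₁) * U ^ 3 ≤ ((2 * U - D) * D / U ^ 2 * q + 2 * (C * m)) * U ^ 3 := by
        have e2 : ((2 * U - D) * D / U ^ 2 * q + 2 * (C * m)) * U ^ 3 =
            (2 * U - D) * D * (q * U) + 2 * U * ((a - b) * (m * U)) := by
          rw [← hCU]
          field_simp
        rw [e2]
        have t1 : z * D * ql ≤ (2 * U - D) * D * (q * U) := by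
          have u1 : z * D * (q * U) ≤ (2 * U - D) * D * (q * U) :=
            mul_le_mul_of_nonneg_right (mul_le_mul_of_nonneg_right hz hD) (by positivity)
          exact (mul_le_mul_of_nonneg_left hql (by positivity)).trans u1
        have t2 := mul_le_mul_of_nonneg_left hMh hb
        have t3 := mul_le_mul_of_nonneg_left hMl ha
        have t4 : a * Ml - b * Mh ≤ (a - b) * (m * U) := by nlinarith
        have t5 := mul_le_mul_of_nonneg_left t4 (by positivity : (0 : ℝ) ≤ 2 * U)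
        have t6 := mul_le_mul_of_nonneg_left hsh (by positivity : (0 : ℝ) ≤ 2 * U ^ 2)
        nlinarith
      have := le_of_mul_le_mul_right k2 (by positivity)
      linarith
    have := abs_le_of_sq_le_sq k1 hn0
    linarith [le_abs_self (1 - C * m)]

theorem T_real {s₁ s₂ n q : ℝ} (h : Pt s₁ s₂ n q) : 0 ≤ n + s₁ - 1 ∧ 0 ≤ n - s₁ + 1 ∧
    s₂ ^ 2 = (n - s₁ + 1) * (n + s₁ - 1) := by
  have h1 : (s₁ - 1) ^ 2 ≤ n ^ 2 := by
    rw [h.nn]
    nlinarith [sq_nonneg s₂]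
  have h2 := abs_le.1 (abs_le_of_sq_le_sq h1 h.n0)
  refine ⟨by linarith, by linarith, ?_⟩
  nlinarith [h.nn]

theorem f2_real {U e s₁ s₂ n t Bl Bh sl Tl H E : ℝ} (hU : 0 < U) (he : E = e * U) (he1 : 1 ≤ e)
    (h0 : 0 ≤ n) (ht : 0 ≤ t) (htt : t ^ 2 = (n + s₁ - 1) / 2) (w0 : 0 ≤ n - s₁ + 1)
    (hs : s₂ ^ 2 = (n - s₁ + 1) * (n + s₁ - 1)) (hT : Tl ≤ t * U)
    (hB : Bl ≤ n * U) (hB0 : 0 ≤ Bl) (hBh : n * U ≤ Bh) (hsl : sl ≤ s₁ * U) (hH : s₂ * U ≤ H)
    {W : ℝ} (hW : (n - s₁ + 1) * U ≤ W)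
    (h : H * (E + U) * U ≤ (E - U) * Tl * (Bl + U) ∨
      2 * U * W * (E + U) * (E + U) ≤ ((E - U) * (Bl + U)) * ((E - U) * (Bl + U))) :
    s₂ * (e + 1) ≤ (e - 1) * t * (1 + n) := by
  subst he
  rcases h with h | h
  · have k : (s₂ * (e + 1)) * U ^ 3 ≤ ((e - 1) * t * (1 + n)) * U ^ 3 := by
      have a1 : (s₂ * (e + 1)) * U ^ 3 ≤ H * (e * U + U) * U := by
        have : (s₂ * (e + 1)) * U ^ 3 = (s₂ * U) * ((e * U + U) * U) := by ring
        rw [this, mul_assoc H]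
        exact mul_le_mul_of_nonneg_right hH (by positivity)
      have a2 : (e * U - U) * Tl * (Bl + U) ≤ ((e - 1) * t * (1 + n)) * U ^ 3 := by
        have : ((e - 1) * t * (1 + n)) * U ^ 3 = ((e * U - U) * (t * U)) * (n * U + U) := by ring
        rw [this]
        have b0 : 0 ≤ e * U - U := by nlinarith
        have b1 := mul_le_mul_of_nonneg_left hT b0
        exact mul_le_mul b1 (by linarith) (by linarith) (by positivity)
      linarith
    exact le_of_mul_le_mul_right k (by positivity)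
  · have k : (s₂ * (e + 1)) ^ 2 ≤ ((e - 1) * t * (1 + n)) ^ 2 := by
      have e1 : (s₂ * (e + 1)) ^ 2 = (n - s₁ + 1) * 2 * (e + 1) ^ 2 * t ^ 2 := by
        rw [mul_pow, hs, htt]
        ring
      have e2 : ((e - 1) * t * (1 + n)) ^ 2 = ((e - 1) * (1 + n)) ^ 2 * t ^ 2 := by ring
      rw [e1, e2]
      apply mul_le_mul_of_nonneg_right _ (by positivity)
      have k : ((n - s₁ + 1) * 2 * (e + 1) ^ 2) * U ^ 4 ≤ ((e - 1) * (1 + n)) ^ 2 * U ^ 4 := by
        have b0 : 0 ≤ e * U - U := by nlinarith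
        have a1 : ((n - s₁ + 1) * 2 * (e + 1) ^ 2) * U ^ 4 ≤
            2 * U * W * (e * U + U) * (e * U + U) := by
          have : ((n - s₁ + 1) * 2 * (e + 1) ^ 2) * U ^ 4 =
              ((n - s₁ + 1) * U) * (2 * U * (e * U + U) * (e * U + U)) := by ring
          rw [this]
          have : 2 * U * W * (e * U + U) * (e * U + U) =
            W * (2 * U * (e * U + U) * (e * U + U)) := by ring
          rw [this]
          exact mul_le_mul_of_nonneg_right hW (by positivity)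
        have a2 : ((e * U - U) * (Bl + U)) * ((e * U - U) * (Bl + U)) ≤
            ((e - 1) * (1 + n)) ^ 2 * U ^ 4 := by
          have : ((e - 1) * (1 + n)) ^ 2 * U ^ 4 =
            ((e * U - U) * (n * U + U)) * ((e * U - U) * (n * U + U)) := by ring
          rw [this]
          have b1 := mul_le_mul_of_nonneg_left (by linarith : Bl + U ≤ n * U + U) b0
          exact mul_self_le_mul_self (by positivity) b1
        linarith
      exact le_of_mul_le_mul_right k (by positivity)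
    exact le_of_sq_le_sq k (by have : 0 ≤ e - 1 := by linarith
                               positivity)

theorem f4_real {U e s₁ s₂ n t Bh Th G E : ℝ} (hU : 0 < U) (he : E = e * U) (he1 : 1 ≤ e)
    (h0 : 0 ≤ n) (ht : 0 ≤ t) (htt : t ^ 2 = (n + s₁ - 1) / 2) (hs2 : 0 ≤ s₂)
    (hs : s₂ ^ 2 = (n - s₁ + 1) * (n + s₁ - 1)) (hT : t * U ≤ Th)
    (hBh : n * U ≤ Bh) (hG : G ≤ s₂ * U)
    {W : ℝ} (hW : W ≤ (n - s₁ + 1) * U)
    (h : (E - U) * Th * (Bh + U) ≤ G * (E + U) * U ∨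
      ((E - U) * (Bh + U)) * ((E - U) * (Bh + U)) ≤ 2 * U * W * (E + U) * (E + U)) :
    (e - 1) * t * (1 + n) ≤ s₂ * (e + 1) := by
  subst he
  have b0 : 0 ≤ e * U - U := by nlinarith
  rcases h with h | h
  · have k : ((e - 1) * t * (1 + n)) * U ^ 3 ≤ (s₂ * (e + 1)) * U ^ 3 := by
      have a1 : G * (e * U + U) * U ≤ (s₂ * (e + 1)) * U ^ 3 := by
        have : (s₂ * (e + 1)) * U ^ 3 = (s₂ * U) * ((e * U + U) * U) := by ring
        rw [this, mul_assoc G]
        exact mul_le_mul_of_nonneg_right hG (by positivity)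
      have a2 : ((e - 1) * t * (1 + n)) * U ^ 3 ≤ (e * U - U) * Th * (Bh + U) := by
        have : ((e - 1) * t * (1 + n)) * U ^ 3 = ((e * U - U) * (t * U)) * (n * U + U) := by ring
        rw [this]
        have b1 := mul_le_mul_of_nonneg_left hT b0
        have : 0 ≤ Th := le_trans (by positivity) hT
        exact mul_le_mul b1 (by linarith) (by positivity) (by positivity)
      linarith
    exact le_of_mul_le_mul_right k (by positivity)
  · have k : ((e - 1) * t * (1 + n)) ^ 2 ≤ (s₂ * (e + 1)) ^ 2 := by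
      have e1 : (s₂ * (e + 1)) ^ 2 = (n - s₁ + 1) * 2 * (e + 1) ^ 2 * t ^ 2 := by
        rw [mul_pow, hs, htt]
        ring
      have e2 : ((e - 1) * t * (1 + n)) ^ 2 = ((e - 1) * (1 + n)) ^ 2 * t ^ 2 := by ring
      rw [e1, e2]
      apply mul_le_mul_of_nonneg_right _ (by positivity)
      have k : ((e - 1) * (1 + n)) ^ 2 * U ^ 4 ≤ ((n - s₁ + 1) * 2 * (e + 1) ^ 2) * U ^ 4 := by
        have a1 : 2 * U * W * (e * U + U) * (e * U + U) ≤
            ((n - s₁ + 1) * 2 * (e + 1) ^ 2) * U ^ 4 := by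
          have : ((n - s₁ + 1) * 2 * (e + 1) ^ 2) * U ^ 4 =
              ((n - s₁ + 1) * U) * (2 * U * (e * U + U) * (e * U + U)) := by ring
          rw [this]
          have : 2 * U * W * (e * U + U) * (e * U + U) =
            W * (2 * U * (e * U + U) * (e * U + U)) := by ring
          rw [this]
          exact mul_le_mul_of_nonneg_right hW (by positivity)
        have a2 : ((e - 1) * (1 + n)) ^ 2 * U ^ 4 ≤
            ((e * U - U) * (Bh + U)) * ((e * U - U) * (Bh + U)) := by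
          have : ((e - 1) * (1 + n)) ^ 2 * U ^ 4 =
            ((e * U - U) * (n * U + U)) * ((e * U - U) * (n * U + U)) := by ring
          rw [this]
          have b1 := mul_le_mul_of_nonneg_left (by linarith : n * U + U ≤ Bh + U) b0
          exact mul_self_le_mul_self (by positivity) b1
        linarith
      exact le_of_mul_le_mul_right k (by positivity)
    exact le_of_sq_le_sq k (by positivity)

theorem cU : ((1073741824 : ℕ) : ℝ) = 1073741824 := by norm_num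
theorem cU2 : ((1152921504606846976 : ℕ) : ℝ) = 1073741824 ^ 2 := by norm_num
theorem c2U : ((2147483648 : ℕ) : ℝ) = 2 * 1073741824 := by norm_num
theorem c2U2 : ((2305843009213693952 : ℕ) : ℝ) = 2 * 1073741824 ^ 2 := by norm_num

theorem or_cast {a b : Bool} (h : (a || b) = true) : a = true ∨ b = true := Bool.or_eq_true _ _ ▸ h

theorem f0_snd (D : ℕ) : Snd (f0 D) (Q0 D) := by
  intro A B C h g hf s₁ s₂ n q hp hA hB hC _ _
  have hq0 : 0 ≤ q := by rw [hp.qq]; positivity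
  have hm := mem_rt hC hq0
  have hab := sub_sub_cast D 1073741824
  have k : Nat.ble (Nat.add (Nat.mul B.hi 1073741824) (Nat.mul (Nat.sub D 1073741824) (rt C).hi))
    (Nat.add 1152921504606846976 (Nat.mul (Nat.sub 1073741824 D) (rt C).lo)) = true ∨
    (Nat.ble (Nat.mul (Nat.sub D 1073741824) (rt C).hi) 1152921504606846976 = true ∧
     Nat.ble (Nat.add (Nat.mul (Nat.mul (Nat.sub 2147483648 D) D) C.hi)
        (Nat.mul 2147483648 (Nat.mul (Nat.sub D 1073741824) (rt C).hi)))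
      (Nat.add (Nat.mul 2305843009213693952 A.lo)
        (Nat.mul 2147483648 (Nat.mul (Nat.sub 1073741824 D) (rt C).lo))) = true) := by
    have := hf
    unfold f0 f0' at this
    rw [Bool.or_eq_true, Bool.and_eq_true] at this
    exact this
  have hz := sub_sub_cast 2147483648 D
  have hz2 : (0 : ℝ) ≤ ((Nat.sub D 2147483648 : ℕ) : ℝ) := Nat.cast_nonneg _
  refine f0_real (U := 1073741824) (D := D) (a := ((Nat.sub D 1073741824 : ℕ) : ℝ))
    (b := ((Nat.sub 1073741824 D : ℕ) : ℝ)) (z := ((Nat.sub 2147483648 D : ℕ) : ℝ))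
    (Bh := B.hi) (Mh := (rt C).hi) (Ml := (rt C).lo) (qh := C.hi) (sl := A.lo)
    (by norm_num) rfl ?_ (Nat.cast_nonneg _) (Nat.cast_nonneg _)
    (Nat.cast_nonneg _) ?_ (Nat.cast_nonneg _) hp.n2 (Real.sq_sqrt hq0) (Real.sqrt_nonneg _) hq0
    hB.2 hm.2 hm.1 hC.2 hA.1 ?_
  · rw [hab]
    norm_num
  · push_cast at hz
    linarith
  · rcases k with k | ⟨k1, k2⟩
    · left
      have := ble_cast k
      have e : ((Nat.add (Nat.mul B.hi 1073741824) (Nat.mul (Nat.sub D 1073741824) (rt C).hi) : ℕ) : ℝ)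
          = (B.hi : ℝ) * 1073741824 + ((Nat.sub D 1073741824 : ℕ) : ℝ) * ((rt C).hi : ℕ) := by
        rw [cast_add', cast_mul', cast_mul', cU]
      have e2 : ((Nat.add 1152921504606846976 (Nat.mul (Nat.sub 1073741824 D) (rt C).lo) : ℕ) : ℝ)
          = 1073741824 ^ 2 + ((Nat.sub 1073741824 D : ℕ) : ℝ) * ((rt C).lo : ℕ) := by
        rw [cast_add', cast_mul', cU2]
      rw [e, e2] at this
      exact this
    · right
      have h1 := ble_cast k1
      have h2 := ble_cast k2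
      have e : ((Nat.mul (Nat.sub D 1073741824) (rt C).hi : ℕ) : ℝ)
          = ((Nat.sub D 1073741824 : ℕ) : ℝ) * ((rt C).hi : ℕ) := cast_mul' _ _
      rw [e] at h1
      refine ⟨h1.trans (by norm_num), ?_⟩
      have e1 : ((Nat.add (Nat.mul (Nat.mul (Nat.sub 2147483648 D) D) C.hi)
        (Nat.mul 2147483648 (Nat.mul (Nat.sub D 1073741824) (rt C).hi)) : ℕ) : ℝ) =
        ((Nat.sub 2147483648 D : ℕ) : ℝ) * D * C.hi +
          2 * 1073741824 * (((Nat.sub D 1073741824 : ℕ) : ℝ) * ((rt C).hi : ℕ)) := by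
        rw [cast_add', cast_mul', cast_mul', cast_mul', cast_mul', c2U]
      have e2 : ((Nat.add (Nat.mul 2305843009213693952 A.lo)
        (Nat.mul 2147483648 (Nat.mul (Nat.sub 1073741824 D) (rt C).lo)) : ℕ) : ℝ) =
        2 * 1073741824 ^ 2 * A.lo +
          2 * 1073741824 * (((Nat.sub 1073741824 D : ℕ) : ℝ) * ((rt C).lo : ℕ)) := by
        rw [cast_add', cast_mul', cast_mul', cast_mul', c2U2, c2U]
      rw [e1, e2] at h2
      exact h2

theorem f1_snd {D : ℕ} (hD : D ≤ 2147483648) : Snd (f1 D) (Q1 D) := by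
  intro A B C h g hf s₁ s₂ n q hp hA hB hC _ _
  have hq0 : 0 ≤ q := by rw [hp.qq]; positivity
  have hm := mem_rt hC hq0
  have hab := sub_sub_cast D 1073741824
  have k : Nat.ble (Nat.add 1152921504606846976 (Nat.mul (Nat.sub 1073741824 D) (rt C).hi))
    (Nat.add (Nat.mul B.lo 1073741824) (Nat.mul (Nat.sub D 1073741824) (rt C).lo)) = true ∨
     Nat.ble (Nat.add (Nat.mul 2305843009213693952 A.hi)
        (Nat.mul 2147483648 (Nat.mul (Nat.sub 1073741824 D) (rt C).hi)))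
      (Nat.add (Nat.mul (Nat.mul (Nat.sub 2147483648 D) D) C.lo)
        (Nat.mul 2147483648 (Nat.mul (Nat.sub D 1073741824) (rt C).lo))) = true := by
    have := hf
    unfold f1 f1' at this
    rw [Bool.or_eq_true] at this
    exact this
  have hz : ((Nat.sub 2147483648 D : ℕ) : ℝ) = ((2147483648 : ℕ) : ℝ) - D := Nat.cast_sub hD
  refine f1_real (U := 1073741824) (D := D) (a := ((Nat.sub D 1073741824 : ℕ) : ℝ))
    (b := ((Nat.sub 1073741824 D : ℕ) : ℝ)) (z := ((Nat.sub 2147483648 D : ℕ) : ℝ))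
    (Bl := B.lo) (Mh := (rt C).hi) (Ml := (rt C).lo) (ql := C.lo) (sh := A.hi)
    (by norm_num) rfl ?_ (Nat.cast_nonneg _) (Nat.cast_nonneg _)
    (Nat.cast_nonneg _) ?_ (Nat.cast_nonneg _) hp.n0 hp.n2 (Real.sq_sqrt hq0) hq0
    hB.1 hm.2 hm.1 hC.1 hA.2 ?_
  · rw [hab, cU]
  · rw [hz, c2U]
  · rcases k with k | k2
    · left
      have := ble_cast k
      rw [cast_add', cast_add', cast_mul', cast_mul', cast_mul', cU2, cU] at this
      exact this
    · right
      have h2 := ble_cast k2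
      rw [cast_add', cast_mul', cast_mul', cast_mul', cast_add', cast_mul', cast_mul', cast_mul',
        cast_mul', c2U2, c2U] at h2
      exact h2

theorem mem_T1 {s₁ s₂ n q : ℝ} (hp : Pt s₁ s₂ n q) {A B : N} (hA : Mem s₁ A) (hB : Mem n B) :
    Mem (Real.sqrt ((n + s₁ - 1) / 2)) (T1 A B) := by
  have h := T_real hp
  refine mem_rt ?_ (by have := h.1; positivity)
  have := ((hB.add hA).sub mem_one (by linarith [h.1])).dv (n := 2) (by norm_num)
  push_cast at this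
  exact this

/-- `tanh` bounds. -/
def Q2 (E : ℕ) (s₁ s₂ n _ : ℝ) : Prop :=
  s₂ * ((E : ℝ) / 1073741824 + 1) ≤ ((E : ℝ) / 1073741824 - 1) * Real.sqrt ((n + s₁ - 1) / 2) * (1 + n)
def Q4 (E : ℕ) (s₁ s₂ n _ : ℝ) : Prop :=
  0 ≤ s₂ ∧ ((E : ℝ) / 1073741824 - 1) * Real.sqrt ((n + s₁ - 1) / 2) * (1 + n) ≤
    s₂ * ((E : ℝ) / 1073741824 + 1)

theorem f2_snd {E : ℕ} (hE : 1073741824 ≤ E) : Snd (f2 E) (Q2 E) := by
  intro A B C h g hf s₁ s₂ n q hp hA hB _ hh _
  obtain ⟨t0, w0, hs⟩ := T_real hp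
  have hT := mem_T1 hp hA hB
  have k : Nat.ble (Nat.mul (Nat.mul h (Nat.add E 1073741824)) 1073741824)
      (Nat.mul (Nat.mul (Nat.sub E 1073741824) (T1 A B).lo) (Nat.add B.lo 1073741824)) = true ∨
    Nat.ble (Nat.mul (Nat.mul (Nat.mul 2147483648 (Nat.sub (Nat.add B.hi 1073741824) A.lo))
        (Nat.add E 1073741824)) (Nat.add E 1073741824))
      (Nat.mul (Nat.mul (Nat.sub E 1073741824) (Nat.add B.lo 1073741824))
        (Nat.mul (Nat.sub E 1073741824) (Nat.add B.lo 1073741824))) = true := by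
    have := hf
    unfold f2 at this
    rw [Bool.or_eq_true] at this
    exact this
  have hz : ((Nat.sub E 1073741824 : ℕ) : ℝ) = (E : ℝ) - ((1073741824 : ℕ) : ℝ) := Nat.cast_sub hE
  have hE1 : (1073741824 : ℝ) ≤ E := by
    rw [← cU]
    exact Nat.cast_le.2 hE
  have hU : (0 : ℝ) < 1073741824 := by norm_num
  refine f2_real (U := 1073741824) (E := E) (Bl := B.lo) (Bh := B.hi) (sl := A.lo)
    (Tl := (T1 A B).lo) (H := h) (W := ((Nat.sub (Nat.add B.hi 1073741824) A.lo : ℕ) : ℝ))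
    hU (by field_simp) (by rw [le_div_iff₀ hU]; linarith) hp.n0 (Real.sqrt_nonneg _)
    (Real.sq_sqrt (by positivity)) w0 hs hT.1 hB.1 (Nat.cast_nonneg _) hB.2 hA.1 hh ?_ ?_
  · apply le_nsub
    rw [cast_add', cU]
    linarith [hB.2, hA.1]
  · rcases k with k | k
    · left
      have := ble_cast k
      rw [cast_mul', cast_mul', cast_add', cast_mul', cast_mul', cast_add', hz, cU] at this
      exact this
    · right
      have := ble_cast k
      rw [cast_mul', cast_mul', cast_mul', cast_add' E, cast_mul', cast_mul', cast_add' B.lo, hz, cU,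
        c2U] at this
      exact this

theorem f4_snd {E : ℕ} (hE : 1073741824 ≤ E) : Snd (f4 E) (Q4 E) := by
  intro A B C h g hf s₁ s₂ n q hp hA hB _ _ hg
  obtain ⟨t0, w0, hs⟩ := T_real hp
  have hT := mem_T1 hp hA hB
  have k : Nat.ble 1 g = true ∧
    (Nat.ble (Nat.mul (Nat.mul (Nat.sub E 1073741824) (T1 A B).hi) (Nat.add B.hi 1073741824))
      (Nat.mul (Nat.mul g (Nat.add E 1073741824)) 1073741824) = true ∨
    Nat.ble (Nat.mul (Nat.mul (Nat.sub E 1073741824) (Nat.add B.hi 1073741824))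
        (Nat.mul (Nat.sub E 1073741824) (Nat.add B.hi 1073741824)))
      (Nat.mul (Nat.mul (Nat.mul 2147483648 (Nat.sub (Nat.add B.lo 1073741824) A.hi))
        (Nat.add E 1073741824)) (Nat.add E 1073741824)) = true) := by
    have := hf
    unfold f4 at this
    rw [Bool.and_eq_true, Bool.or_eq_true] at this
    exact this
  have hz : ((Nat.sub E 1073741824 : ℕ) : ℝ) = (E : ℝ) - ((1073741824 : ℕ) : ℝ) := Nat.cast_sub hE
  have hE1 : (1073741824 : ℝ) ≤ E := by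
    rw [← cU]
    exact Nat.cast_le.2 hE
  have hU : (0 : ℝ) < 1073741824 := by norm_num
  have hg1 := hg (Nat.le_of_ble_eq_true k.1)
  have hg0 : (0 : ℝ) ≤ g := Nat.cast_nonneg _
  have hs2 : 0 ≤ s₂ := by
    by_contra hc
    push Not at hc
    nlinarith
  refine ⟨hs2, f4_real (U := 1073741824) (E := E) (Bh := B.hi)
    (Th := (T1 A B).hi) (G := g) (W := ((Nat.sub (Nat.add B.lo 1073741824) A.hi : ℕ) : ℝ))
    hU (by field_simp) (by rw [le_div_iff₀ hU]; linarith) hp.n0 (Real.sqrt_nonneg _)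
    (Real.sq_sqrt (by positivity)) hs2 hs hT.2 hB.2 hg1 ?_ ?_⟩
  · refine nsub_le ?_ (by positivity)
    rw [cast_add', cU]
    linarith [hB.1, hA.2]
  · rcases k.2 with k | k
    · left
      have := ble_cast k
      rw [cast_mul', cast_mul', cast_add', cast_mul', cast_mul', cast_add', hz, cU] at this
      exact this
    · right
      have := ble_cast k
      rw [cast_mul', cast_mul', cast_add' B.hi, cast_mul', cast_mul', cast_mul', cast_add' E, hz, cU,
        c2U] at this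
      exact this

/-! ### The critical point -/

open Complex in
theorem cos_parts (a b : ℝ) : cos ((a : ℂ) + b * I) =
    ⟨Real.cos a * Real.cosh b, -(Real.sin a * Real.sinh b)⟩ := by
  rw [cos_add_mul_I]
  apply Complex.ext
  · simp [← ofReal_cos, ← ofReal_sin, ← ofReal_cosh, ← ofReal_sinh]
  · simp [← ofReal_cos, ← ofReal_sin, ← ofReal_cosh, ← ofReal_sinh]

open Complex in
theorem sin_parts (a b : ℝ) : sin ((a : ℂ) + b * I) =
    ⟨Real.sin a * Real.cosh b, Real.cos a * Real.sinh b⟩ := by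
  rw [sin_add_mul_I]
  apply Complex.ext
  · simp [← ofReal_cos, ← ofReal_sin, ← ofReal_cosh, ← ofReal_sinh]
  · simp [← ofReal_cos, ← ofReal_sin, ← ofReal_cosh, ← ofReal_sinh]

theorem norm_eq_sqrt (s : ℂ) : ‖s‖ = Real.sqrt (s.re ^ 2 + s.im ^ 2) := by
  rw [Complex.norm_def, Complex.normSq_apply]
  congr 1
  ring

theorem tan_parts {y s : ℂ} (h0 : 0 < y.re) (h1 : y.re < 1 / 2)
    (hs : Complex.tan (Real.pi * y) ^ 2 = s - 1) :
    0 < ‖s‖ ∧ Real.cos (2 * Real.pi * y.re) * ‖s‖ = 1 - ‖s - 1‖ ∧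
    0 < Real.sqrt ((‖s - 1‖ + s.re - 1) / 2) * (1 + ‖s - 1‖) ∧
    s.im * Real.cosh (2 * Real.pi * y.im) =
      Real.sqrt ((‖s - 1‖ + s.re - 1) / 2) * (1 + ‖s - 1‖) * Real.sinh (2 * Real.pi * y.im) := by
  have hpi := Real.pi_pos
  set a : ℝ := Real.pi * y.re with ha
  set b : ℝ := Real.pi * y.im with hb
  have hy : (Real.pi : ℂ) * y = (a : ℂ) + b * Complex.I := by
    apply Complex.ext <;> simp [ha, hb]
  have a0 : 0 < a := by positivity
  have a1 : a < Real.pi / 2 := by rw [ha]; nlinarith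
  have C0 : 0 < Real.cos a := Real.cos_pos_of_mem_Ioo ⟨by linarith, a1⟩
  have S0 : 0 < Real.sin a := Real.sin_pos_of_pos_of_lt_pi a0 (by linarith)
  have cs := Real.sin_sq_add_cos_sq a
  have hc := Real.cosh_sq b
  set C := Real.cos a
  set Sn := Real.sin a
  set Ch := Real.cosh b
  set Sh := Real.sinh b
  set K : ℝ := C ^ 2 + Sh ^ 2 with hK
  have K0 : 0 < K := by positivity
  set c : ℂ := Complex.cos (Real.pi * y) with hcc
  set σ : ℂ := Complex.sin (Real.pi * y) with hσ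
  have ec : c = ⟨C * Ch, -(Sn * Sh)⟩ := by rw [hcc, hy, cos_parts]
  have es : σ = ⟨Sn * Ch, C * Sh⟩ := by rw [hσ, hy, sin_parts]
  have nc : ‖c‖ ^ 2 = K := by
    rw [Complex.sq_norm, Complex.normSq_apply, ec]
    simp only
    have : Sn ^ 2 = 1 - C ^ 2 := by linarith
    calc C * Ch * (C * Ch) + -(Sn * Sh) * -(Sn * Sh) = C ^ 2 * Ch ^ 2 + Sn ^ 2 * Sh ^ 2 := by ring
      _ = K := by rw [hc, this, hK]; ring
  have ns : ‖σ‖ ^ 2 = Sn ^ 2 + Sh ^ 2 := by
    rw [Complex.sq_norm, Complex.normSq_apply, es]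
    simp only
    have : C ^ 2 = 1 - Sn ^ 2 := by linarith
    calc Sn * Ch * (Sn * Ch) + C * Sh * (C * Sh) = Sn ^ 2 * Ch ^ 2 + C ^ 2 * Sh ^ 2 := by ring
      _ = Sn ^ 2 + Sh ^ 2 := by rw [hc, this]; ring
  have c0 : c ≠ 0 := by
    intro h
    rw [h, norm_zero] at nc
    norm_num at nc
    linarith
  have hcs : σ ^ 2 + c ^ 2 = 1 := Complex.sin_sq_add_cos_sq _
  have e1 : s - 1 = (σ / c) ^ 2 := by
    rw [← hs, Complex.tan_eq_sin_div_cos]
  have e2 : s = 1 / c ^ 2 := by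
    have : s = 1 + (σ / c) ^ 2 := by rw [← e1]; ring
    rw [this, div_pow]
    field_simp
    linear_combination hcs
  have N1 : ‖s - 1‖ = (Sn ^ 2 + Sh ^ 2) / K := by
    rw [e1, norm_pow, norm_div, div_pow, ns, nc]
  have M1 : ‖s‖ = 1 / K := by
    rw [e2, norm_div, norm_one, norm_pow, nc]
  have e3 : s = ⟨(C ^ 2 * Ch ^ 2 - Sn ^ 2 * Sh ^ 2) / K ^ 2, 2 * (C * Ch * (Sn * Sh)) / K ^ 2⟩ := by
    rw [e2, div_eq_iff (pow_ne_zero 2 c0), ec]
    have k : (C * Ch) ^ 2 + (Sn * Sh) ^ 2 = K := by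
      rw [← nc, Complex.sq_norm, Complex.normSq_apply, ec]
      simp only
      ring
    apply Complex.ext
    · simp only [pow_two, Complex.mul_re, Complex.mul_im, Complex.one_re]
      field_simp
      rw [← k]
      ring
    · simp only [pow_two, Complex.mul_re, Complex.mul_im, Complex.one_im]
      field_simp
      ring
  have sre : s.re = (C ^ 2 * Ch ^ 2 - Sn ^ 2 * Sh ^ 2) / K ^ 2 := by
    conv_lhs => rw [e3]
  have sim : s.im = 2 * (C * Ch * (Sn * Sh)) / K ^ 2 := by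
    conv_lhs => rw [e3]
  have T : Real.sqrt ((‖s - 1‖ + s.re - 1) / 2) = Sn * C / K := by
    have : (‖s - 1‖ + s.re - 1) / 2 = (Sn * C / K) ^ 2 := by
      rw [N1, sre, hc]
      field_simp
      rw [hK]
      have : Sn ^ 2 = 1 - C ^ 2 := by linarith
      rw [this]
      ring
    rw [this, Real.sqrt_sq (by positivity)]
  have n1 : 1 + ‖s - 1‖ = Real.cosh (2 * b) / K := by
    rw [N1, Real.cosh_two_mul, hc]
    field_simp
    rw [hK]
    have : Sn ^ 2 = 1 - C ^ 2 := by linarith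
    rw [this]
    ring
  have f1 : 2 * Real.pi * y.re = 2 * a := by rw [ha]; ring
  have f2 : 2 * Real.pi * y.im = 2 * b := by rw [hb]; ring
  refine ⟨by rw [M1]; positivity, ?_, ?_, ?_⟩
  · rw [f1, M1, N1, Real.cos_two_mul]
    field_simp
    rw [hK]
    have : Sn ^ 2 = 1 - C ^ 2 := by linarith
    rw [this]
    ring
  · rw [T, n1]
    have := Real.cosh_pos (2 * b)
    positivity
  · rw [f2, T, n1, sim, Real.sinh_two_mul]
    field_simp
    try ring

/-! ### The data of an end -/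

open Complex in
theorem inv_sq_parts {κ : ℂ} (h0 : 0 < κ.re) : 1 / κ ^ 2 =
    ⟨1 / (κ.re ^ 2 + κ.im ^ 2) * rc (-κ.im / κ.re), 1 / (κ.re ^ 2 + κ.im ^ 2) * rs (-κ.im / κ.re)⟩ := by
  have k0 : κ ≠ 0 := fun h => by rw [h] at h0; simp at h0
  have k1 : 0 < κ.re ^ 2 + κ.im ^ 2 := by positivity
  rw [div_eq_iff (pow_ne_zero 2 k0)]
  unfold rc rs
  have e : 1 + (-κ.im / κ.re) ^ 2 = (κ.re ^ 2 + κ.im ^ 2) / κ.re ^ 2 := by
    field_simp
  rw [e]
  apply Complex.ext
  · simp only [pow_two, Complex.mul_re, Complex.mul_im, Complex.one_re]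
    field_simp
    ring
  · simp only [pow_two, Complex.mul_re, Complex.mul_im, Complex.one_im]
    field_simp
    ring

theorem kp_inv_sq (S : Bool) {c : ℂ} (h0 : 0 < c.re) : 1 / (G.kp S c) ^ 2 =
    ⟨1 / (c.re ^ 2 + c.im ^ 2) * rc (-c.im / c.re),
      sgb S * (1 / (c.re ^ 2 + c.im ^ 2) * rs (-c.im / c.re))⟩ := by
  cases S
  · have e : G.kp false c = (starRingEnd ℂ) c := rfl
    rw [e, ← map_pow, ← map_one (starRingEnd ℂ), ← map_div₀, inv_sq_parts h0]
    apply Complex.ext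
    · simp
    · simp [sgb]
  · have e : G.kp true c = c := rfl
    rw [e, inv_sq_parts h0]
    apply Complex.ext
    · simp
    · simp [sgb]

theorem re_pos {r : E.B2.Rg} {κ : ℂ} (h : InR r κ.re (-κ.im)) (h0 : 1 ≤ r.k0) : 0 < κ.re := by
  rcases h.x0.lt_or_eq with h1 | h1
  · exact h1
  · exfalso
    have h2 := h.a1
    rw [← h1, mul_zero] at h2
    have h3 := h.y0
    have h4 : -κ.im = 0 := le_antisymm h2 h3
    have h5 := h.lo
    rw [← h1, h4] at h5
    have h6 : (0 : ℝ) < (r.k0 : ℝ) / 1000 := by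
      have : (0 : ℝ) < (r.k0 : ℝ) := by exact_mod_cast h0
      positivity
    have : 0 < ((r.k0 : ℝ) / 1000) ^ 2 := by positivity
    norm_num at h5
    linarith

theorem mem_XR {r : E.B2.Rg} {κ : ℂ} (h : InR r κ.re (-κ.im)) (h0 : 1 ≤ r.k0) :
    Mem (1 / (κ.re ^ 2 + κ.im ^ 2)) (XR r) := by
  have hk := re_pos h h0
  have hK : 0 < κ.re ^ 2 + κ.im ^ 2 := by positivity
  have h1 := h.lo
  have h2 := h.hi
  rw [neg_sq] at h1 h2
  have k0 : (0 : ℝ) < (r.k0 : ℝ) := by exact_mod_cast h0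
  constructor
  · refine (nat_div_le _ _).trans ?_
    have e : ((Nat.mul r.k1 r.k1 : ℕ) : ℝ) = (r.k1 : ℝ) * r.k1 := cast_mul' _ _
    rw [e]
    have k1 : (0 : ℝ) < (r.k1 : ℝ) * r.k1 := by
      by_contra hc
      push Not at hc
      have : ((r.k1 : ℝ) / 1000) ^ 2 = (r.k1 : ℝ) * r.k1 / 1000000 := by ring
      rw [this] at h2
      linarith
    rw [div_le_iff₀ k1, div_mul_eq_mul_div, div_mul_eq_mul_div, le_div_iff₀ hK]
    push_cast
    nlinarith
  · refine le_trans ?_ (le_succ_div _ (Nat.mul_pos h0 h0))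
    have e : ((Nat.mul r.k0 r.k0 : ℕ) : ℝ) = (r.k0 : ℝ) * r.k0 := cast_mul' _ _
    rw [e, le_div_iff₀ (by positivity), div_mul_eq_mul_div, div_mul_eq_mul_div, div_le_iff₀ hK]
    push_cast
    nlinarith

theorem mem_TR {r : E.B2.Rg} {κ : ℂ} (h : InR r κ.re (-κ.im)) (h0 : 1 ≤ r.k0) :
    Mem (-κ.im / κ.re) (TR r) := by
  have hk := re_pos h h0
  refine mem_rng (by norm_num) ?_ ?_
  · rw [le_div_iff₀ hk]
    exact h.a0
  · rw [div_le_iff₀ hk]
    exact h.a1

theorem tr01 {r : E.B2.Rg} {κ : ℂ} (h : InR r κ.re (-κ.im)) (h0 : 1 ≤ r.k0) (h1 : r.t1 ≤ 1000) :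
    0 ≤ -κ.im / κ.re ∧ -κ.im / κ.re ≤ 1 := by
  have hk := re_pos h h0
  refine ⟨div_nonneg h.y0 hk.le, ?_⟩
  rw [div_le_one hk]
  have : (r.t1 : ℝ) ≤ 1000 := by exact_mod_cast h1
  have := h.a1
  nlinarith

theorem bbf_sound {f : N → N → N → ℕ → ℕ → Bool} {Q : ℝ → ℝ → ℝ → ℝ → Prop} (hf : Snd f Q)
    {S : Bool} {r q : E.B2.Rg} (h : bbf f S r q = true) {κ c : ℂ} (hκ : InR r κ.re (-κ.im))
    (hc : InR q c.re (-c.im)) (r0 : 1 ≤ r.k0) (q0 : 1 ≤ q.k0) (r1 : r.t1 ≤ 1000)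
    (q1 : q.t1 ≤ 1000) :
    Cl S Q (1 / (κ.re ^ 2 + κ.im ^ 2)) (-κ.im / κ.re) (1 / (c.re ^ 2 + c.im ^ 2)) (-c.im / c.re) :=
  bbw_sound (P := Cl S Q) (fun A B C D h a b c d => cell_sound hf A B C D h a b c d) 1 2 1 2 50
    _ _ _ _ h _ _ _ _ (mem_XR hκ r0) (mem_TR hκ r0) (mem_XR hc q0) (mem_TR hc q0)

end Pool.Agent.S5.YX
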